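import Pool.Agent.MP_2a1f0e_nt.GM.Basic

section

set_option autoImplicit false

open Finset

namespace Pool.Agent.MP_2a1f0e_nt.GM

/-- orthogonality of the characters over an interval of length `9` -/
lemma ortho_Bes (k : ℤ) :
    ∫ v in (1 / 9 : ℝ)..(82 / 9), ex ((k : ℝ) * v) = if k = 0 then 9 else 0 := by
  split_ifs with hk
  · subst hk
    simp only [Int.cast_zero, zero_mul, ex_zero, intervalIntegral.integral_const]
    rw [show (82 / 9 - 1 / 9 : ℝ) = 9 by norm_num]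
    simp
  · have hc : (2 * Real.pi * Complex.I * ((k : ℝ) : ℂ)) ≠ 0 := by
      have h1 : (Real.pi : ℂ) ≠ 0 := by exact_mod_cast Real.pi_ne_zero
      have h2 : (((k : ℝ)) : ℂ) ≠ 0 := by exact_mod_cast hk
      exact mul_ne_zero (mul_ne_zero (mul_ne_zero two_ne_zero h1) Complex.I_ne_zero) h2
    have hd : ∀ x ∈ Set.uIcc (1 / 9 : ℝ) (82 / 9),
        HasDerivAt (fun x : ℝ => (2 * Real.pi * Complex.I * ((k : ℝ) : ℂ))⁻¹ * ex ((k : ℝ) * x))
          (ex ((k : ℝ) * x)) x := by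
      intro x _
      refine ((hasDerivAt_ex (k : ℝ) x).const_mul
        (2 * Real.pi * Complex.I * ((k : ℝ) : ℂ))⁻¹).congr_deriv ?_
      rw [← mul_assoc, inv_mul_cancel₀ hc, one_mul]
    have hi : IntervalIntegrable (fun x : ℝ => ex ((k : ℝ) * x)) MeasureTheory.volume
        (1 / 9 : ℝ) (82 / 9) :=
      (continuous_ex.comp (continuous_const.mul continuous_id)).intervalIntegrable _ _
    rw [intervalIntegral.integral_eq_sub_of_hasDerivAt hd hi]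
    have : ex ((k : ℝ) * (82 / 9)) = ex ((k : ℝ) * (1 / 9)) := by
      rw [show (k : ℝ) * (82 / 9) = (k : ℝ) * (1 / 9) + ((9 * k : ℤ) : ℝ) by push_cast; ring,
        ex_add, ex_int, mul_one]
    rw [this, sub_self]

lemma cont_ex_Bes (c : ℝ) : Continuous fun v : ℝ => ex (c * v) :=
  continuous_ex.comp (continuous_const.mul continuous_id)

lemma cont_mul_ex_Bes (z : ℂ) (c : ℝ) : Continuous fun v : ℝ => z * ex (c * v) :=
  continuous_const.mul (cont_ex_Bes c)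

/-- Parseval identity for a trigonometric polynomial -/
lemma parseval_Bes (s : Finset ℤ) (c : ℤ → ℂ) :
    II (fun v => ‖∑ ξ ∈ s, c ξ * ex ((ξ : ℝ) * v)‖ ^ 2) = 9 * ∑ ξ ∈ s, ‖c ξ‖ ^ 2 := by
  have key : ((II (fun v => ‖∑ ξ ∈ s, c ξ * ex ((ξ : ℝ) * v)‖ ^ 2) : ℝ) : ℂ) =
      ((9 * ∑ ξ ∈ s, ‖c ξ‖ ^ 2 : ℝ) : ℂ) := by
    unfold II
    rw [← intervalIntegral.integral_ofReal]
    have h1 : ∀ v : ℝ, ((‖∑ ξ ∈ s, c ξ * ex ((ξ : ℝ) * v)‖ ^ 2 : ℝ) : ℂ) =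
        ∑ ξ ∈ s, ∑ η ∈ s, c ξ * (starRingEnd ℂ) (c η) * ex (((ξ - η : ℤ) : ℝ) * v) := by
      intro v
      rw [Complex.ofReal_pow, ← Complex.mul_conj', map_sum, sum_mul_sum]
      refine sum_congr rfl fun ξ _ => sum_congr rfl fun η _ => ?_
      rw [map_mul, conj_ex, show (((ξ - η : ℤ) : ℝ) * v) = (ξ : ℝ) * v + -((η : ℝ) * v) by
        push_cast; ring, ex_add]
      ring
    simp_rw [h1]
    rw [intervalIntegral.integral_finsetSum fun ξ _ => Continuous.intervalIntegrable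
      (continuous_finsetSum _ fun η _ => cont_mul_ex_Bes _ _) _ _]
    push_cast
    rw [mul_sum]
    refine sum_congr rfl fun ξ hξ => ?_
    rw [intervalIntegral.integral_finsetSum fun η _ =>
      (cont_mul_ex_Bes _ _).intervalIntegrable _ _]
    have h2 : ∀ η ∈ s, ∫ v in (1 / 9 : ℝ)..(82 / 9),
        c ξ * (starRingEnd ℂ) (c η) * ex (((ξ : ℝ) - (η : ℝ)) * v) =
        if η = ξ then 9 * (‖c ξ‖ : ℂ) ^ 2 else 0 := by
      intro η _
      have := ortho_Bes (ξ - η)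
      rw [Int.cast_sub] at this
      rw [intervalIntegral.integral_const_mul, this]
      by_cases h : η = ξ
      · subst h
        rw [if_pos (sub_self _), if_pos rfl, Complex.mul_conj']
        ring
      · rw [if_neg (fun h' => h (by omega)), if_neg h, mul_zero]
    rw [sum_congr rfl h2, sum_ite_eq' s ξ, if_pos hξ]
  exact_mod_cast key

theorem bes_stmt : BesStmt := by
  intro g hg s
  set a : ℤ → ℂ := fun ξ => ∫ v in (1 / 9 : ℝ)..(82 / 9), (g v : ℂ) * ex ((ξ : ℝ) * v) with ha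
  set P : ℝ → ℂ := fun v => ∑ ξ ∈ s, (starRingEnd ℂ) (a ξ) * ex ((ξ : ℝ) * v) with hP
  have hPc : Continuous P :=
    continuous_finsetSum _ fun ξ _ => continuous_const.mul (cont_ex_Bes _)
  have hgc : ContinuousOn (fun v => (g v : ℂ)) (Set.Icc (1 / 9 : ℝ) (82 / 9)) :=
    Complex.continuous_ofReal.comp_continuousOn hg
  have hle : (1 / 9 : ℝ) ≤ 82 / 9 := by norm_num
  have hA : II (fun v => ‖P v‖ ^ 2) = 9 * ∑ ξ ∈ s, ‖a ξ‖ ^ 2 := by
    have := parseval_Bes s fun ξ => (starRingEnd ℂ) (a ξ)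
    simp only [Complex.norm_conj] at this
    exact this
  have hB : ∫ v in (1 / 9 : ℝ)..(82 / 9), (g v : ℂ) * P v = ((∑ ξ ∈ s, ‖a ξ‖ ^ 2 : ℝ) : ℂ) := by
    have h1 : ∀ v : ℝ, (g v : ℂ) * P v =
        ∑ ξ ∈ s, (starRingEnd ℂ) (a ξ) * ((g v : ℂ) * ex ((ξ : ℝ) * v)) := by
      intro v
      simp only [hP, mul_sum]
      exact sum_congr rfl fun ξ _ => by ring
    simp_rw [h1]
    have h2 : ∀ ξ ∈ s, IntervalIntegrable
        (fun v : ℝ => (starRingEnd ℂ) (a ξ) * ((g v : ℂ) * ex ((ξ : ℝ) * v)))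
        MeasureTheory.volume (1 / 9 : ℝ) (82 / 9) := fun ξ _ =>
      (continuousOn_const.mul (hgc.mul (cont_ex_Bes _).continuousOn)).intervalIntegrable_of_Icc
        hle
    rw [intervalIntegral.integral_finsetSum h2]
    push_cast
    refine sum_congr rfl fun ξ _ => ?_
    rw [intervalIntegral.integral_const_mul, mul_comm, Complex.mul_conj']
  have hC : ∑ ξ ∈ s, ‖a ξ‖ ^ 2 ≤ II (fun v => 9 / 2 * g v ^ 2 + 1 / 18 * ‖P v‖ ^ 2) := by
    have h1 : ∑ ξ ∈ s, ‖a ξ‖ ^ 2 = ‖∫ v in (1 / 9 : ℝ)..(82 / 9), (g v : ℂ) * P v‖ := by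
      rw [hB, Complex.norm_real, Real.norm_eq_abs, abs_of_nonneg (by positivity)]
    rw [h1]
    refine (intervalIntegral.norm_integral_le_integral_norm hle).trans ?_
    refine II_mono (f := fun v => ‖(g v : ℂ) * P v‖) (hgc.mul hPc.continuousOn).norm
      ((continuousOn_const.mul (hg.pow 2)).add
        (continuousOn_const.mul (hPc.norm.pow 2).continuousOn)) fun v _ => ?_
    rw [norm_mul, Complex.norm_real, Real.norm_eq_abs, ← sq_abs (g v)]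
    nlinarith [sq_nonneg (9 * |g v| - ‖P v‖)]
  have hD : II (fun v => 9 / 2 * g v ^ 2 + 1 / 18 * ‖P v‖ ^ 2) =
      9 / 2 * II (fun v => g v ^ 2) + 1 / 18 * II (fun v => ‖P v‖ ^ 2) := by
    have h1 : IntervalIntegrable (fun v => 9 / 2 * g v ^ 2) MeasureTheory.volume
        (1 / 9 : ℝ) (82 / 9) :=
      (continuousOn_const.mul (hg.pow 2)).intervalIntegrable_of_Icc hle
    have h2 : IntervalIntegrable (fun v => 1 / 18 * ‖P v‖ ^ 2) MeasureTheory.volume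
        (1 / 9 : ℝ) (82 / 9) :=
      (continuous_const.mul (hPc.norm.pow 2)).intervalIntegrable _ _
    unfold II
    beta_reduce
    rw [intervalIntegral.integral_add h1 h2,
      intervalIntegral.integral_const_mul, intervalIntegral.integral_const_mul]
  rw [hD, hA] at hC
  change ∑ ξ ∈ s, ‖a ξ‖ ^ 2 ≤ _
  linarith

end Pool.Agent.MP_2a1f0e_nt.GM

end

section

set_option autoImplicit false

open Finset

namespace Pool.Agent.MP_2a1f0e_nt.GM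

lemma quad_Hux (N : ℕ) (F : Finset ℤ) (ψ : ℤ → ℂ) :
    ∑ s ∈ F, ∑ t ∈ F, (starRingEnd ℂ) (ψ s) * KK N ((s : ℝ) - t) * ψ t =
      ((∑ n ∈ Icc 1 (3 * N), Wt ((n : ℝ) / N) *
        ‖∑ t ∈ F, ψ t * (starRingEnd ℂ) (pw (n : ℝ) t)‖ ^ 2 : ℝ) : ℂ) := by
  push_cast
  simp only [KK, mul_sum, sum_mul]
  rw [sum_congr rfl fun s _ => sum_comm, sum_comm]
  refine sum_congr rfl fun n _ => ?_
  rw [← Complex.conj_mul', map_sum, sum_mul_sum, mul_sum]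
  refine sum_congr rfl fun s _ => ?_
  rw [mul_sum]
  refine sum_congr rfl fun t _ => ?_
  rw [pw_sub, map_mul, Complex.conj_conj]
  ring

lemma dual_Hux {N : ℕ} (hN : 1 ≤ N) {b : ℕ → ℂ} (hb : ∀ n, ‖b n‖ ≤ 1) (F : Finset ℤ) :
    (∑ t ∈ F, ‖DP N b t‖ ^ 2) ^ 2 ≤ 2 * N * ∑ n ∈ Icc 1 (3 * N), Wt ((n : ℝ) / N) *
      ‖∑ t ∈ F, DP N b t * (starRingEnd ℂ) (pw (n : ℝ) t)‖ ^ 2 := by
  obtain ⟨c, hc⟩ : ∃ c : ℕ → ℂ, ∀ n, c n = ∑ t ∈ F, DP N b t * (starRingEnd ℂ) (pw (n : ℝ) t) :=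
    ⟨_, fun _ => rfl⟩
  simp only [← hc]
  have hN' : (1 : ℝ) ≤ N := by exact_mod_cast hN
  have e1 : ((∑ t ∈ F, ‖DP N b t‖ ^ 2 : ℝ) : ℂ) =
      ∑ n ∈ Icc N (2 * N), (starRingEnd ℂ) (b n) * c n := by
    push_cast
    simp only [hc, mul_sum]
    rw [sum_comm]
    refine sum_congr rfl fun t _ => ?_
    rw [← Complex.mul_conj']
    nth_rewrite 2 [DP]
    rw [map_sum, mul_sum]
    refine sum_congr rfl fun n _ => ?_
    rw [map_mul]
    ring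
  have h0 : 0 ≤ ∑ t ∈ F, ‖DP N b t‖ ^ 2 := sum_nonneg fun _ _ => sq_nonneg _
  have e2 : ∑ t ∈ F, ‖DP N b t‖ ^ 2 ≤ ∑ n ∈ Icc N (2 * N), ‖c n‖ := by
    rw [← abs_of_nonneg h0, ← Real.norm_eq_abs, ← Complex.norm_real, e1]
    refine (norm_sum_le _ _).trans (sum_le_sum fun n _ => ?_)
    rw [norm_mul, Complex.norm_conj]
    exact mul_le_of_le_one_left (norm_nonneg _) (hb n)
  have e3 : (∑ n ∈ Icc N (2 * N), ‖c n‖) ^ 2 ≤ (N + 1) * ∑ n ∈ Icc N (2 * N), ‖c n‖ ^ 2 := by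
    have := sq_sum_le_card_mul_sum_sq (s := Icc N (2 * N)) (f := fun n => ‖c n‖)
    rw [Nat.card_Icc, show 2 * N + 1 - N = N + 1 by omega] at this
    exact_mod_cast this
  have e4 : ∑ n ∈ Icc N (2 * N), ‖c n‖ ^ 2
      ≤ ∑ n ∈ Icc 1 (3 * N), Wt ((n : ℝ) / N) * ‖c n‖ ^ 2 := by
    refine le_trans (le_of_eq (sum_congr rfl fun n hn => ?_))
      (sum_le_sum_of_subset_of_nonneg (Icc_subset_Icc hN (by omega : 2 * N ≤ 3 * N))
        fun n _ _ => mul_nonneg (Wt_nonneg _) (sq_nonneg _))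
    obtain ⟨h1, h2⟩ := mem_Icc.1 hn
    rw [Wt_eq_one, one_mul]
    · rw [le_div_iff₀ (by linarith), one_mul]
      exact_mod_cast h1
    · rw [div_le_iff₀ (by linarith)]
      exact_mod_cast h2
  have e5 : 0 ≤ ∑ n ∈ Icc N (2 * N), ‖c n‖ ^ 2 := sum_nonneg fun _ _ => sq_nonneg _
  calc _ ≤ (∑ n ∈ Icc N (2 * N), ‖c n‖) ^ 2 := pow_le_pow_left₀ h0 e2 2
    _ ≤ (N + 1) * ∑ n ∈ Icc N (2 * N), ‖c n‖ ^ 2 := e3
    _ ≤ _ := mul_le_mul (by linarith) e4 e5 (by linarith)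

theorem hux_stmt : HuxStmt := by
  intro N M b I E S V hN hb hE hS hV hHE hHS
  unfold Mass
  obtain ⟨F, hF⟩ : ∃ F, F = I.filter (fun t : ℤ => V ≤ ‖DP N b t‖) := ⟨_, rfl⟩
  rw [← hF]
  have hFI : F ⊆ I := hF ▸ filter_subset _ _
  have hFV : ∀ t ∈ F, V ≤ ‖DP N b t‖ := fun t ht => by
    rw [hF, mem_filter] at ht
    exact ht.2
  have hN' : (1 : ℝ) ≤ N := by exact_mod_cast hN
  have h1 := dual_Hux hN hb F
  have h2 := quad_Hux N F fun t => DP N b t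
  obtain ⟨A, hA⟩ : ∃ A, A = ∑ n ∈ Icc 1 (3 * N), Wt ((n : ℝ) / N) *
      ‖∑ t ∈ F, DP N b t * (starRingEnd ℂ) (pw (n : ℝ) t)‖ ^ 2 := ⟨_, rfl⟩
  rw [← hA] at h1 h2
  have h3 : A ≤ ∑ s ∈ F, ∑ t ∈ F, ‖DP N b s‖ * ‖DP N b t‖ *
        ‖KK N ((s : ℝ) - t) - Kb N M ((s : ℝ) - t)‖ +
      ∑ s ∈ F, ∑ t ∈ F, ‖DP N b s‖ * ‖DP N b t‖ * ‖Kb N M ((s : ℝ) - t)‖ := by
    refine (le_abs_self A).trans ?_
    rw [← Real.norm_eq_abs, ← Complex.norm_real, ← h2, ← sum_add_distrib]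
    refine (norm_sum_le _ _).trans (sum_le_sum fun s _ => ?_)
    rw [← sum_add_distrib]
    refine (norm_sum_le _ _).trans (sum_le_sum fun t _ => ?_)
    rw [norm_mul, norm_mul, Complex.norm_conj, mul_right_comm, ← mul_add]
    refine mul_le_mul_of_nonneg_left ?_ (by positivity)
    have := norm_add_le (KK N ((s : ℝ) - t) - Kb N M ((s : ℝ) - t)) (Kb N M ((s : ℝ) - t))
    rwa [sub_add_cancel] at this
  have h4 := schur F (fun t => ‖DP N b t‖)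
    (fun s t => ‖KK N ((s : ℝ) - t) - Kb N M ((s : ℝ) - t)‖) (fun _ _ _ _ => norm_nonneg _)
    (fun s _ t _ => norm_K1_sub N M s t) E fun s hs =>
      (sum_le_sum_of_subset_of_nonneg hFI fun _ _ _ => norm_nonneg _).trans (hHE s (hFI hs))
  have h5 : 2 * N * ∑ s ∈ F, ∑ t ∈ F, ‖DP N b s‖ * ‖DP N b t‖ * ‖Kb N M ((s : ℝ) - t)‖
      ≤ (∑ t ∈ F, ‖DP N b t‖ ^ 2) ^ 2 / 2 +
        2 * (N : ℝ) ^ 2 * ∑ s ∈ F, ∑ t ∈ F, ‖Kb N M ((s : ℝ) - t)‖ ^ 2 := by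
    rw [sq (∑ t ∈ F, _), sum_mul_sum]
    simp only [mul_sum, sum_div, ← sum_add_distrib]
    refine sum_le_sum fun s _ => sum_le_sum fun t _ => ?_
    nlinarith [sq_nonneg (‖DP N b s‖ * ‖DP N b t‖ - 2 * N * ‖Kb N M ((s : ℝ) - t)‖)]
  have h6 : V ^ 4 * ∑ s ∈ F, ∑ t ∈ F, ‖Kb N M ((s : ℝ) - t)‖ ^ 2
      ≤ (∑ t ∈ F, ‖DP N b t‖ ^ 2) * S := by
    rw [mul_sum, sum_mul]
    refine sum_le_sum fun s hs => ?_
    have u1 : V ^ 2 * ∑ t ∈ F, ‖Kb N M ((s : ℝ) - t)‖ ^ 2 ≤ S := by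
      rw [mul_sum]
      refine le_trans (sum_le_sum fun t ht => mul_le_mul_of_nonneg_right
        (pow_le_pow_left₀ hV.le (hFV t ht) 2) (sq_nonneg _)) ?_
      exact (sum_le_sum_of_subset_of_nonneg hFI fun _ _ _ => by positivity).trans
        (hHS s (hFI hs))
    rw [show V ^ 4 = V ^ 2 * V ^ 2 by ring, mul_assoc]
    exact mul_le_mul (pow_le_pow_left₀ hV.le (hFV s hs) 2) u1
      (mul_nonneg (sq_nonneg _) (sum_nonneg fun _ _ => sq_nonneg _)) (sq_nonneg _)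
  have h0 : 0 ≤ ∑ t ∈ F, ‖DP N b t‖ ^ 2 := sum_nonneg fun _ _ => sq_nonneg _
  have hV4 : 0 < V ^ 4 := by positivity
  rw [mul_comm, ← le_div_iff₀ hV4, mul_div_assoc] at h6
  rw [mul_div_assoc]
  have hq : 0 ≤ S / V ^ 4 := by positivity
  generalize S / V ^ 4 = q at *
  generalize ∑ t ∈ F, ‖DP N b t‖ ^ 2 = Y at *
  rcases h0.eq_or_lt with rfl | hY
  · positivity
  · refine le_of_mul_le_mul_left ?_ hY
    have u1 := mul_le_mul_of_nonneg_left (h3.trans (add_le_add h4 le_rfl))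
      (show (0 : ℝ) ≤ 2 * N by positivity)
    have u2 := mul_le_mul_of_nonneg_left h6 (show (0 : ℝ) ≤ 2 * (N : ℝ) ^ 2 by positivity)
    nlinarith

end Pool.Agent.MP_2a1f0e_nt.GM

end
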