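import Pool.Agent.MP_2a1f0e_nt.GM.Basic

section

set_option autoImplicit false

open Finset

namespace Pool.Agent.MP_2a1f0e_nt.GM

lemma card_fib_PhExp (L : ℕ) (u : ℤ) :
    ((range L ×ˢ range L).filter fun p : ℕ × ℕ => (p.1 : ℤ) - p.2 = u).card = L - u.natAbs := by
  rw [← card_range (L - u.natAbs)]
  symm
  refine card_bij (fun k _ => (k + u.toNat, k + (-u).toNat)) (fun k hk => ?_)
    (fun k _ k' _ h => ?_) fun p hp => ?_
  · rw [mem_range] at hk
    rw [mem_filter, mem_product, mem_range, mem_range]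
    dsimp only
    omega
  · exact Nat.add_right_cancel (Prod.mk.inj h).1
  · rw [mem_filter, mem_product, mem_range, mem_range] at hp
    refine ⟨min p.1 p.2, mem_range.2 (by omega), Prod.ext ?_ ?_⟩
    · dsimp only
      omega
    · dsimp only
      omega

lemma sum_diff_PhExp (L : ℕ) (f : ℤ → ℂ) :
    ∑ i ∈ range L, ∑ j ∈ range L, f ((i : ℤ) - j) =
      ∑ u ∈ Ioo (-(L : ℤ)) L, ((((L : ℝ) - |(u : ℝ)|) : ℝ) : ℂ) * f u := by
  rw [← sum_product', ← sum_fiberwise_of_maps_to (t := Ioo (-(L : ℤ)) L)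
    (g := fun p : ℕ × ℕ => (p.1 : ℤ) - p.2) (fun p hp => by
      rw [mem_product, mem_range, mem_range] at hp
      rw [mem_Ioo]
      omega)]
  refine sum_congr rfl fun u hu => ?_
  rw [mem_Ioo] at hu
  rw [sum_congr rfl (g := fun _ => f u) (fun p hp => by rw [(mem_filter.1 hp).2]), sum_const,
    card_fib_PhExp, nsmul_eq_mul, Nat.cast_sub (by omega),
    ← Int.cast_abs, Int.abs_eq_natAbs, Int.cast_natCast, Complex.ofReal_sub,
    Complex.ofReal_natCast, Complex.ofReal_natCast]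

theorem triang_stmt : TriangStmt := by
  intro L x
  have h := normsq_sum (range L) (fun _ => 1) fun r : ℕ => (r : ℝ) * x
  simp only [one_mul, map_one] at h
  rw [gs, h, ← sum_diff_PhExp L fun u => ex ((u : ℝ) * x)]
  refine sum_congr rfl fun i _ => sum_congr rfl fun j _ => ?_
  push_cast
  rw [sub_mul]

theorem phExp_stmt : PhExpStmt := by
  intro J hJ
  have hJ' : (0 : ℝ) < J := Nat.cast_pos.2 hJ
  refine ⟨fun y => ?_, fun l hl => ?_⟩
  · rw [Ph, Complex.ofReal_div, Complex.ofReal_add, ← triang_stmt, ← triang_stmt, ← sum_add_distrib,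
      sum_div]
    refine sum_congr rfl fun l _ => ?_
    rw [cf, mul_add (l : ℝ), ex_add, mul_one_div, Complex.ofReal_div]
    ring
  · rw [mem_Ioo] at hl
    have h1 : |(l : ℝ)| ≤ J := by
      rw [abs_le]
      constructor
      · exact_mod_cast hl.1.le
      · exact_mod_cast hl.2.le
    have h2 : ‖1 + ex ((l : ℝ) / (2 * J))‖ ≤ 2 := by
      refine (norm_add_le _ _).trans ?_
      rw [norm_one, norm_ex]
      norm_num
    have h3 : 0 ≤ ((J : ℝ) - |(l : ℝ)|) / (J : ℝ) ^ 2 := div_nonneg (sub_nonneg.2 h1) (by positivity)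
    have h4 : ((J : ℝ) - |(l : ℝ)|) / (J : ℝ) ^ 2 ≤ 1 / J := by
      rw [div_le_div_iff₀ (by positivity) hJ']
      nlinarith [abs_nonneg (l : ℝ)]
    rw [cf, norm_mul, Complex.norm_real, Real.norm_of_nonneg h3]
    calc _ ≤ 1 / (J : ℝ) * 2 := mul_le_mul h4 h2 (norm_nonneg _) (by positivity)
      _ = 2 / J := by ring

end Pool.Agent.MP_2a1f0e_nt.GM

end

section

set_option autoImplicit false
open Finset
namespace Pool.Agent.MP_2a1f0e_nt.GM

lemma fib_DivS (P : Finset (ℤ × ℤ)) (hP : ∀ p ∈ P, p.1 ≠ 0 ∧ p.2 ≠ 0) (ξ : ℤ) :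
    (P.filter fun p => p.1 * p.2 = ξ).card ≤ 2 * ξ.natAbs.divisors.card := by
  have h : (P.filter fun p => p.1 * p.2 = ξ).card ≤
      ((univ : Finset Bool) ×ˢ ξ.natAbs.divisors).card := by
    refine card_le_card_of_injOn (fun p => (decide (0 < p.2), p.2.natAbs)) ?_ ?_
    · intro p hp
      obtain ⟨h1, rfl⟩ := mem_filter.1 (mem_coe.1 hp)
      refine mem_coe.2 (mem_product.2 ⟨mem_univ _, Nat.mem_divisors.2 ⟨?_, ?_⟩⟩)
      · exact Int.natAbs_dvd_natAbs.2 (dvd_mul_left _ _)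
      · exact Int.natAbs_ne_zero.2 (mul_ne_zero (hP p h1).1 (hP p h1).2)
    · intro p hp q hq e
      obtain ⟨h1, h2⟩ := mem_filter.1 (mem_coe.1 hp)
      obtain ⟨-, h4⟩ := mem_filter.1 (mem_coe.1 hq)
      obtain ⟨e1, e2⟩ := Prod.mk.inj e
      have e3 : 0 < p.2 ↔ 0 < q.2 := decide_eq_decide.1 e1
      have e4 : p.2 = q.2 := by omega
      refine Prod.ext (mul_right_cancel₀ (hP p h1).2 ?_) e4
      rw [h2, e4, h4]
  rwa [card_product, card_univ, Fintype.card_bool] at h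

theorem div_stmt : DivStmt := by
  intro N M Δ hΔ a
  have h1 : ∀ l : ℤ, ‖∑ m ∈ Ms M, a (l * m)‖ ^ 2 ≤ 2 * M * ∑ m ∈ Ms M, ‖a (l * m)‖ ^ 2 := by
    intro l
    refine (pow_le_pow_left₀ (norm_nonneg _) (norm_sum_le _ _) 2).trans ?_
    have := sq_sum_le_card_mul_sum_sq (s := Ms M) (f := fun m => ‖a (l * m)‖)
    rwa [card_Ms, Nat.cast_mul, Nat.cast_ofNat] at this
  refine (sum_le_sum fun l _ => h1 l).trans ?_
  have hm : ∀ p ∈ (Ioo (-(N : ℤ)) N).erase 0 ×ˢ Ms M,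
      p.1 * p.2 ∈ Icc (-((N * M : ℕ) : ℤ)) ((N * M : ℕ) : ℤ) := by
    intro p hp
    obtain ⟨h2, h3⟩ := mem_product.1 hp
    have h4 := mem_Ioo.1 (mem_of_mem_erase h2)
    have h5 := (mem_Ms.1 h3).2
    rw [mem_Icc, ← abs_le, abs_mul, Nat.cast_mul]
    exact mul_le_mul (abs_le.2 ⟨h4.1.le, h4.2.le⟩) (abs_le.2 h5) (abs_nonneg _) (Nat.cast_nonneg _)
  rw [← mul_sum, ← sum_product' _ _ fun l m => ‖a (l * m)‖ ^ 2,
    ← sum_fiberwise_of_maps_to hm, show 4 * (M : ℝ) * Δ = 2 * M * (2 * Δ) by ring,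
    mul_assoc _ (2 * Δ), mul_sum _ _ (2 * Δ)]
  refine mul_le_mul_of_nonneg_left (sum_le_sum fun ξ hξ => ?_) (by positivity)
  rw [sum_congr rfl fun p hp => by rw [(mem_filter.1 hp).2], sum_const, nsmul_eq_mul]
  refine mul_le_mul_of_nonneg_right ?_ (by positivity)
  have h6 := fib_DivS ((Ioo (-(N : ℤ)) N).erase 0 ×ˢ Ms M) (fun p hp =>
    ⟨ne_of_mem_erase (mem_product.1 hp).1, (mem_Ms.1 (mem_product.1 hp).2).1⟩) ξ
  have h7 := hΔ.2 ξ.natAbs (by have := mem_Icc.1 hξ; omega)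
  have h8 : (((((Ioo (-(N : ℤ)) N).erase 0 ×ˢ Ms M).filter fun p => p.1 * p.2 = ξ).card : ℕ) : ℝ) ≤
      2 * (ξ.natAbs.divisors.card : ℝ) := by exact_mod_cast h6
  linarith

end Pool.Agent.MP_2a1f0e_nt.GM

end

section

set_option autoImplicit false

open Finset

namespace Pool.Agent.MP_2a1f0e_nt.GM

open MeasureTheory

/-- the radial integral -/
noncomputable def R2_Two (v η : ℝ) : ℂ :=
  ∫ r : ℝ, ((r * Wt r * Wt (r * v) : ℝ) : ℂ) * ex (-(η * r))

/-- the integrand on the product -/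
noncomputable def G_Two (u x₁ x₂ r v : ℝ) : ℂ :=
  pw v u * (((r * Wt r * Wt (r * v) : ℝ) : ℂ) * ex (-((x₁ * v + x₂) * r)))

lemma supp_Two {r v : ℝ} (h : r * Wt r * Wt (r * v) ≠ 0) :
    r ∈ Set.Icc (3 / 4 : ℝ) (9 / 4) ∧ v ∈ Set.Icc (1 / 3 : ℝ) 3 := by
  have h1 : Wt r ≠ 0 := fun h0 => h (by rw [h0]; ring)
  have h2 : Wt (r * v) ≠ 0 := fun h0 => h (by rw [h0]; ring)
  obtain ⟨a1, a2⟩ := mem_of_Wt_ne_zero h1
  obtain ⟨b1, b2⟩ := mem_of_Wt_ne_zero h2
  refine ⟨⟨a1.le, a2.le⟩, ?_, ?_⟩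
  · by_contra hc
    have hc := not_le.1 hc
    nlinarith
  · by_contra hc
    have hc := not_le.1 hc
    nlinarith

lemma inner_Two (u x₁ x₂ r : ℝ) :
    (Wt r : ℂ) * pw r (-u) * ex (-(x₂ * r)) * HH u x₁ = ∫ v : ℝ, G_Two u x₁ x₂ r v := by
  by_cases h : Wt r = 0
  · simp [G_Two, h]
  have hr : 0 < r := by
    have := (mem_of_Wt_ne_zero h).1
    linarith
  have hr' : (r : ℂ) ≠ 0 := by exact_mod_cast hr.ne'
  have h1 := Measure.integral_comp_mul_left
    (fun x : ℝ => (Wt x : ℂ) * pw x u * ex (-(x₁ * x))) r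
  have h2 : ∀ v : ℝ, G_Two u x₁ x₂ r v =
      ((r : ℂ) * (Wt r : ℂ) * pw r (-u) * ex (-(x₂ * r))) *
        ((Wt (r * v) : ℂ) * pw (r * v) u * ex (-(x₁ * (r * v)))) := by
    intro v
    unfold G_Two
    by_cases hv : v = 0
    · have h0 : Wt 0 = 0 := Wt_eq_zero (Or.inl (by norm_num))
      simp [hv, h0]
    · rw [pw_mul hr.ne' hv, show -((x₁ * v + x₂) * r) = -(x₂ * r) + -(x₁ * (r * v)) by ring,
        ex_add]
      have h3 := pw_mul_neg r u
      push_cast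
      linear_combination (-((r : ℂ) * (Wt r : ℂ) * (Wt (r * v) : ℂ) * pw v u *
        ex (-(x₂ * r)) * ex (-(x₁ * (r * v))))) * h3
  simp_rw [h2]
  rw [integral_const_mul, h1, abs_of_pos (inv_pos.2 hr), Complex.real_smul]
  unfold HH
  push_cast
  field_simp

lemma integrable_G_Two (u x₁ x₂ : ℝ) :
    Integrable (Function.uncurry (G_Two u x₁ x₂)) ((volume : Measure ℝ).prod volume) := by
  have hm : Measurable (Function.uncurry (G_Two u x₁ x₂)) := by
    have c1 : Continuous fun p : ℝ × ℝ =>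
        (((p.1 * Wt p.1 * Wt (p.1 * p.2) : ℝ) : ℂ) * ex (-((x₁ * p.2 + x₂) * p.1))) := by
      have := continuous_Wt
      have := continuous_ex
      fun_prop
    exact ((measurable_pw u).comp measurable_snd).mul c1.measurable
  have hK : IsCompact (Set.Icc (3 / 4 : ℝ) (9 / 4) ×ˢ Set.Icc (1 / 3 : ℝ) 3) :=
    isCompact_Icc.prod isCompact_Icc
  have hb : Integrable
      ((Set.Icc (3 / 4 : ℝ) (9 / 4) ×ˢ Set.Icc (1 / 3 : ℝ) 3).indicator fun _ => (9 / 4 : ℝ))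
      ((volume : Measure ℝ).prod volume) := by
    rw [integrable_indicator_iff hK.measurableSet]
    exact integrableOn_const hK.measure_lt_top.ne
  refine hb.mono' hm.aestronglyMeasurable (Filter.Eventually.of_forall fun p => ?_)
  change ‖G_Two u x₁ x₂ p.1 p.2‖ ≤ _
  unfold G_Two
  rw [norm_mul, norm_mul, norm_pw, norm_ex, one_mul, mul_one, Complex.norm_real,
    Real.norm_eq_abs]
  by_cases h : p.1 * Wt p.1 * Wt (p.1 * p.2) = 0
  · rw [h, abs_zero]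
    exact Set.indicator_nonneg (fun _ _ => by norm_num) _
  · obtain ⟨h1, h2⟩ := supp_Two h
    rw [Set.indicator_of_mem (show p ∈ _ from Set.mk_mem_prod h1 h2)]
    have a1 := Wt_nonneg p.1
    have a2 := Wt_le_one p.1
    have a3 := Wt_nonneg (p.1 * p.2)
    have a4 := Wt_le_one (p.1 * p.2)
    have a5 : 0 ≤ p.1 := by linarith [h1.1]
    rw [abs_of_nonneg (by positivity)]
    have a6 : Wt p.1 * Wt (p.1 * p.2) ≤ 1 := mul_le_one₀ a2 a3 a4
    have a7 := mul_le_mul h1.2 a6 (by positivity) (by norm_num : (0 : ℝ) ≤ 9 / 4)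
    linarith

lemma outer_Two (u x₁ x₂ v : ℝ) :
    ∫ r : ℝ, G_Two u x₁ x₂ r v = pw v u * R2_Two v (x₁ * v + x₂) := by
  unfold G_Two R2_Two
  rw [integral_const_mul]

lemma key_Two (u x₁ x₂ : ℝ) :
    HH u x₁ * HH (-u) x₂ = ∫ v : ℝ, pw v u * R2_Two v (x₁ * v + x₂) := by
  have h1 : HH u x₁ * HH (-u) x₂ =
      ∫ r : ℝ, (Wt r : ℂ) * pw r (-u) * ex (-(x₂ * r)) * HH u x₁ := by
    rw [integral_mul_const, mul_comm]
    rfl
  rw [h1]
  simp_rw [inner_Two]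
  rw [integral_integral_swap (integrable_G_Two u x₁ x₂)]
  simp_rw [outer_Two]

lemma integrable_R_Two (u x₁ x₂ : ℝ) :
    Integrable fun v : ℝ => pw v u * R2_Two v (x₁ * v + x₂) := by
  have h := (integrable_G_Two u x₁ x₂).integral_prod_right
  simp only [Function.uncurry_apply_pair, outer_Two] at h
  exact h

lemma R2_zero_Two {v : ℝ} (hv : v ∉ Set.Icc (1 / 3 : ℝ) 3) (η : ℝ) : R2_Two v η = 0 := by
  unfold R2_Two
  have h : ∀ r : ℝ, r * Wt r * Wt (r * v) = 0 := fun r => by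
    by_contra hc
    exact hv (supp_Two hc).2
  simp [h]

lemma sq_Two (N M : ℕ) (u : ℝ) :
    ((‖Kb N M u‖ ^ 2 : ℝ) : ℂ) = (N : ℂ) ^ 2 * ∫ v : ℝ, pw v u *
      ∑ m₁ ∈ Ms M, ∑ m₂ ∈ Ms M, R2_Two v ((m₁ : ℝ) * N * v + (m₂ : ℝ) * N) := by
  have h1 : ((‖Kb N M u‖ ^ 2 : ℝ) : ℂ) = Kb N M u * Kb N M (-u) := by
    rw [← conj_Kb, Complex.mul_conj, Complex.normSq_eq_norm_sq]
  have h2 : Kb N M u * Kb N M (-u) = (N : ℂ) ^ 2 *
      ∑ m₁ ∈ Ms M, ∑ m₂ ∈ Ms M, HH u ((m₁ : ℝ) * N) * HH (-u) ((m₂ : ℝ) * N) := by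
    unfold Kb
    rw [← sum_mul_sum]
    linear_combination ((N : ℂ) ^ 2 * (∑ m ∈ Ms M, HH u ((m : ℝ) * N)) *
      ∑ m ∈ Ms M, HH (-u) ((m : ℝ) * N)) * pw_mul_neg (N : ℝ) u
  rw [h1, h2]
  congr 1
  simp_rw [key_Two, mul_sum]
  rw [integral_finsetSum _ fun m₁ _ =>
    integrable_finsetSum _ fun m₂ _ => integrable_R_Two u _ _]
  refine sum_congr rfl fun m₁ _ => ?_
  rw [integral_finsetSum _ fun m₂ _ => integrable_R_Two u _ _]

lemma sum_Two (N M : ℕ) (s : Finset ℤ) (g : ℤ → ℝ) :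
    ((∑ u ∈ s, g u * ‖Kb N M (u : ℝ)‖ ^ 2 : ℝ) : ℂ) = (N : ℂ) ^ 2 * ∫ v : ℝ, FT s g v *
      ∑ m₁ ∈ Ms M, ∑ m₂ ∈ Ms M, R2_Two v ((m₁ : ℝ) * N * v + (m₂ : ℝ) * N) := by
  have hi : ∀ u : ℝ, Integrable fun v : ℝ => pw v u *
      ∑ m₁ ∈ Ms M, ∑ m₂ ∈ Ms M, R2_Two v ((m₁ : ℝ) * N * v + (m₂ : ℝ) * N) := fun u => by
    simp_rw [mul_sum]
    exact integrable_finsetSum _ fun m₁ _ =>
      integrable_finsetSum _ fun m₂ _ => integrable_R_Two u _ _
  rw [Complex.ofReal_sum]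
  simp_rw [Complex.ofReal_mul, sq_Two]
  unfold FT
  simp_rw [sum_mul, mul_assoc _ (pw _ _)]
  rw [integral_finsetSum _ fun u _ => (hi _).const_mul _, mul_sum]
  refine sum_congr rfl fun u _ => ?_
  rw [integral_const_mul]
  ring

theorem two_stmt (hR : RadStmt) (hM : PhMajStmt) : TwoStmt := by
  obtain ⟨C, hC, hR⟩ := hR
  obtain ⟨D, hD, hM⟩ := hM
  refine ⟨C * D, by positivity, fun N M hN s g => ?_⟩
  have hS : ∀ v : ℝ,
      ‖∑ m₁ ∈ Ms M, ∑ m₂ ∈ Ms M, R2_Two v ((m₁ : ℝ) * N * v + (m₂ : ℝ) * N)‖ ≤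
        C * D * rho N M v := by
    intro v
    by_cases hv : v ∈ Set.Icc (1 / 3 : ℝ) 3
    · unfold rho
      rw [mul_sum]
      refine norm_sum_le_of_le _ fun m₁ _ => ?_
      have h1 := mul_le_mul_of_nonneg_left (hM N hN ((m₁ : ℝ) * v) (Ms M)) hC.le
      rw [mul_sum, ← mul_assoc] at h1
      refine (norm_sum_le_of_le _ fun m₂ _ => ?_).trans h1
      rw [show (m₁ : ℝ) * N * v + (m₂ : ℝ) * N = (N : ℝ) * ((m₁ : ℝ) * v + m₂) by ring]
      exact (hR v v _ hv hv).1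
    · simp only [R2_zero_Two hv, sum_const_zero, norm_zero]
      have := rho_nonneg N M v
      positivity
  have hc : ContinuousOn (fun v => C * D * (‖FT s g v‖ * rho N M v))
      (Set.Icc (1 / 9 : ℝ) (82 / 9)) :=
    continuousOn_const.mul (((continuousOn_FT s g).mono Icc_sub_Ioi).norm.mul
      (continuous_rho N M).continuousOn)
  have hb : Integrable ((Set.Ioc (1 / 9 : ℝ) (82 / 9)).indicator
      fun v => C * D * (‖FT s g v‖ * rho N M v)) := by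
    rw [integrable_indicator_iff measurableSet_Ioc]
    exact (hc.integrableOn_compact isCompact_Icc).mono_set Set.Ioc_subset_Icc_self
  have h1 : ‖∫ v : ℝ, FT s g v *
      ∑ m₁ ∈ Ms M, ∑ m₂ ∈ Ms M, R2_Two v ((m₁ : ℝ) * N * v + (m₂ : ℝ) * N)‖ ≤
        C * D * II (fun v => ‖FT s g v‖ * rho N M v) := by
    refine (norm_integral_le_of_norm_le hb (Filter.Eventually.of_forall fun v => ?_)).trans
      (le_of_eq ?_)
    · by_cases hv : v ∈ Set.Icc (1 / 3 : ℝ) 3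
      · rw [Set.indicator_of_mem (show v ∈ Set.Ioc (1 / 9 : ℝ) (82 / 9) from
          ⟨by linarith [hv.1], by linarith [hv.2]⟩), norm_mul]
        have := mul_le_mul_of_nonneg_left (hS v) (norm_nonneg (FT s g v))
        linarith
      · simp only [R2_zero_Two hv, sum_const_zero, mul_zero, norm_zero]
        refine Set.indicator_nonneg (fun w _ => ?_) _
        have := rho_nonneg N M w
        positivity
    · rw [integral_indicator measurableSet_Ioc, integral_const_mul]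
      unfold II
      rw [intervalIntegral.integral_of_le (by norm_num)]
  have h2 : ∑ u ∈ s, g u * ‖Kb N M (u : ℝ)‖ ^ 2 ≤
      ‖((∑ u ∈ s, g u * ‖Kb N M (u : ℝ)‖ ^ 2 : ℝ) : ℂ)‖ := by
    rw [Complex.norm_real, Real.norm_eq_abs]
    exact le_abs_self _
  rw [sum_Two, norm_mul, norm_pow, Complex.norm_natCast] at h2
  have h3 := mul_le_mul_of_nonneg_left h1 (sq_nonneg (N : ℝ))
  linarith

end Pool.Agent.MP_2a1f0e_nt.GM

end
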