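import Pool.Agent.MP_2a1f0e_nt.GM.Basic

section

set_option autoImplicit false

open Finset

namespace Pool.Agent.MP_2a1f0e_nt.GM

lemma sum_kp_KOne (s : Finset ℤ) : ∑ m ∈ s, kp (m : ℝ) ≤ 6 := by
  have h := sum_kp_sep s (fun m : ℤ => (m : ℝ)) (fun i _ j _ hij => by
    have h1 : (1 : ℤ) ≤ |i - j| := Int.one_le_abs (sub_ne_zero.2 hij)
    exact_mod_cast h1) 0 one_pos
  simp only [sub_zero, div_one] at h
  linarith

lemma tail_KOne {F : ℤ → ℂ} {S : ℂ} (h : HasSum F S) (T : Finset ℤ) {A B : ℝ} (hA : 0 ≤ A)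
    (hB : 0 ≤ B) (h0 : ‖F 0‖ ≤ A) (h1 : ∀ m, m ≠ 0 → m ∉ T → ‖F m‖ ≤ B * kp (m : ℝ)) :
    ‖S - ∑ m ∈ T, F m‖ ≤ A + 6 * B := by
  have h2 : HasSum (fun m => if m ∈ T then F m else 0) (∑ m ∈ T, F m) := by
    have h3 : HasSum (fun m => if m ∈ T then F m else 0)
        (∑ m ∈ T, if m ∈ T then F m else 0) :=
      hasSum_sum_of_ne_finset_zero fun m hm => if_neg hm
    rwa [sum_congr rfl fun m hm => if_pos hm] at h3
  refine le_of_tendsto' (Filter.Tendsto.norm (h.sub h2)) fun s => (norm_sum_le _ _).trans ?_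
  calc ∑ m ∈ s, ‖F m - if m ∈ T then F m else 0‖
      ≤ ∑ m ∈ s, ((if m = 0 then A else 0) + B * kp (m : ℝ)) := by
        refine sum_le_sum fun m _ => ?_
        have h4 : 0 ≤ B * kp (m : ℝ) := mul_nonneg hB (kp_pos _).le
        by_cases hT : m ∈ T
        · rw [if_pos hT, sub_self, norm_zero]
          split_ifs <;> linarith
        · rw [if_neg hT, sub_zero]
          split_ifs with hm
          · rw [hm] at h4 ⊢
            linarith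
          · linarith [h1 m hm hT]
    _ ≤ A + 6 * B := by
        rw [sum_add_distrib, ← mul_sum, sum_ite_eq']
        have h5 := mul_le_mul_of_nonneg_left (sum_kp_KOne s) hB
        split_ifs <;> linarith

lemma pt_KOne {N M L r : ℝ} {m : ℤ} (hN : 1 ≤ N) (hM : 0 < M) (hL : L ≤ 4 * N ^ 2)
    (hr0 : 0 ≤ r) (hr : r ≤ 2 * L) (hm0 : m ≠ 0) (hm : M ≤ |(m : ℝ)|) (i : ℕ) :
    (r / |(m : ℝ) * N|) ^ (i + 2) ≤ (2 * L / (N * M)) ^ i * (128 * N ^ 2) * kp (m : ℝ) := by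
  have hN0 : 0 < N := by linarith
  have h1 : (1 : ℝ) ≤ |(m : ℝ)| := by exact_mod_cast Int.one_le_abs hm0
  have h2 : r / |(m : ℝ) * N| ≤ 2 * L / (N * M) := by
    rw [abs_mul, abs_of_pos hN0, mul_comm _ N]
    gcongr
    linarith
  have h3 : r / |(m : ℝ) * N| ≤ 8 * N / |(m : ℝ)| := by
    rw [abs_mul, abs_of_pos hN0, div_le_div_iff₀ (by positivity) (by positivity)]
    nlinarith
  have h4 : (8 * N / |(m : ℝ)|) ^ 2 ≤ 128 * N ^ 2 * kp (m : ℝ) := by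
    have h5 : (1 : ℝ) ≤ (m : ℝ) ^ 2 := by
      rw [← sq_abs]
      nlinarith
    rw [kp, div_pow, sq_abs, mul_one_div, div_le_div_iff₀ (by positivity) (by positivity)]
    nlinarith [sq_nonneg N]
  have h6 : 0 ≤ r / |(m : ℝ) * N| := by positivity
  rw [pow_add, mul_assoc]
  exact mul_le_mul (pow_le_pow_left₀ h6 h2 i) ((pow_le_pow_left₀ h6 h3 2).trans h4)
    (by positivity) (pow_nonneg (h6.trans h2) i)

theorem k1_stmt (hD : DecayStmt) (hZ : ZeroStmt) (hP : PoisStmt) : K1Stmt := by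
  intro δ hδ
  obtain ⟨i, hi⟩ := exists_nat_ge (4 / δ)
  rw [div_le_iff₀ hδ] at hi
  obtain ⟨C, hC, hd⟩ := hD (i + 2)
  obtain ⟨C0, hC0, hz⟩ := hZ
  refine ⟨6 * C0 + 9216 * C, by positivity, fun N M L hN hL hLN hM => ?_⟩
  have hN1 : (1 : ℝ) ≤ N := by exact_mod_cast hN
  have hL1 : (1 : ℝ) ≤ L := by exact_mod_cast hL
  have hLN' : (L : ℝ) ≤ 4 * (N : ℝ) ^ 2 := by exact_mod_cast hLN
  have hN0 : (0 : ℝ) < N := by linarith
  have hp : 0 < (N : ℝ) ^ δ := Real.rpow_pos_of_pos hN0 δ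
  have hM0 : (0 : ℝ) < M := (mul_pos_iff_of_pos_left hN0).1 (lt_of_lt_of_le (by positivity) hM)
  set q : ℝ := 2 * L / (N * M) with hq
  have hq0 : 0 ≤ q := by positivity
  have hq1 : q ^ i * (N : ℝ) ^ 4 ≤ 1 := by
    have h1 : q * (N : ℝ) ^ δ ≤ 1 := by
      rw [hq, div_mul_eq_mul_div, div_le_one (by positivity)]
      exact hM
    have h2 : (N : ℝ) ^ 4 ≤ ((N : ℝ) ^ δ) ^ i := by
      rw [← Real.rpow_natCast, ← Real.rpow_mul_natCast hN0.le]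
      exact Real.rpow_le_rpow_of_exponent_le hN1 (by push_cast; linarith)
    calc q ^ i * (N : ℝ) ^ 4 ≤ q ^ i * ((N : ℝ) ^ δ) ^ i := by gcongr
      _ = (q * (N : ℝ) ^ δ) ^ i := (mul_pow _ _ _).symm
      _ ≤ 1 := pow_le_one₀ (by positivity) h1
  have hn : ∀ u ξ : ℝ, ‖(N : ℂ) * pw (N : ℝ) u * HH u ξ‖ = N * ‖HH u ξ‖ := fun u ξ => by
    rw [norm_mul, norm_mul, norm_pw, mul_one, Complex.norm_natCast]
  have key : ∀ u ∈ Icc (-(L : ℤ)) L, ‖KK N (u : ℝ) - Kb N M (u : ℝ)‖ ≤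
      N * (C0 * kp (u : ℝ)) + 6 * (N * (C * (q ^ i * (128 * (N : ℝ) ^ 2)))) := by
    intro u hu
    have hu1 : |(u : ℝ)| ≤ L := by exact_mod_cast abs_le.2 (mem_Icc.1 hu)
    rw [Kb, mul_sum]
    refine tail_KOne (hP N hN u) (Ms M) (by have := kp_pos (u : ℝ); positivity) (by positivity)
      ?_ fun m hm0 hm => ?_
    · rw [hn, Int.cast_zero, zero_mul]
      exact mul_le_mul_of_nonneg_left (hz _) hN0.le
    · have hm1 : (M : ℝ) ≤ |(m : ℝ)| := by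
        have h1 : (M : ℤ) ≤ |m| := by
          rw [mem_Ms] at hm
          rw [le_abs]
          omega
        exact_mod_cast h1
      rw [hn, mul_assoc, mul_assoc]
      refine mul_le_mul_of_nonneg_left ((hd _ _ (mul_ne_zero (Int.cast_ne_zero.2 hm0)
        hN0.ne')).trans (mul_le_mul_of_nonneg_left ?_ hC.le)) hN0.le
      exact pt_KOne hN1 hM0 hLN' (by positivity) (by linarith) hm0 hm1 i
  refine (sum_le_sum key).trans ?_
  rw [sum_add_distrib, ← mul_sum, ← mul_sum, sum_const, nsmul_eq_mul]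
  have h1 : ((Icc (-(L : ℤ)) L).card : ℝ) ≤ 12 * (N : ℝ) ^ 2 := by
    have h2 : (Icc (-(L : ℤ)) L).card = 2 * L + 1 := by
      rw [Int.card_Icc]
      omega
    rw [h2]
    push_cast
    linarith
  have h3 := sum_kp_KOne (Icc (-(L : ℤ)) L)
  calc _ ≤ N * (C0 * 6) + 12 * (N : ℝ) ^ 2 * (6 * (N * (C * (q ^ i * (128 * (N : ℝ) ^ 2))))) := by
        gcongr
    _ = 6 * C0 * N + 9216 * C * N * (q ^ i * (N : ℝ) ^ 4) := by ring
    _ ≤ 6 * C0 * N + 9216 * C * N * 1 := by gcongr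
    _ = _ := by ring

end Pool.Agent.MP_2a1f0e_nt.GM

end

section

set_option autoImplicit false

open Finset

namespace Pool.Agent.MP_2a1f0e_nt.GM

lemma reindex_SSt (T : ℕ) (hT : 1 ≤ T) (F G : ℝ → ℝ) (hF : ∀ x, 0 ≤ F x) (hG : ∀ x, 0 ≤ G x)
    (s : ℤ) (hs : s ∈ Ioo (-(2 * T : ℤ)) (2 * T)) :
    ∑ t ∈ Ioo (-(2 * T : ℤ)) (2 * T), F t * G ((t : ℝ) - s) ≤
      2 * ∑ u ∈ Ioo (-((8 * T : ℕ) : ℤ)) ((8 * T : ℕ) : ℤ),
        (((8 * T : ℕ) : ℝ) - |(u : ℝ)|) / ((8 * T : ℕ) : ℝ) * F ((s + u : ℤ) : ℝ) * G u := by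
  have hT' : (0 : ℝ) < T := by exact_mod_cast hT
  rw [mem_Ioo] at hs
  rw [mul_sum]
  refine le_trans ?_ (sum_le_sum_of_subset_of_nonneg
    (s := (Ioo (-(2 * T : ℤ)) (2 * T)).image fun t => t - s) ?_ ?_)
  · rw [sum_image fun a _ b _ h => by simpa using h]
    refine sum_le_sum fun t ht => ?_
    rw [mem_Ioo] at ht
    have h1 : |t - s| ≤ 4 * T := abs_le.2 ⟨by omega, by omega⟩
    have h2 : |((t - s : ℤ) : ℝ)| ≤ 4 * T := by exact_mod_cast h1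
    have h3 : (1 / 2 : ℝ) ≤ (((8 * T : ℕ) : ℝ) - |((t - s : ℤ) : ℝ)|) / ((8 * T : ℕ) : ℝ) := by
      rw [le_div_iff₀ (by positivity)]
      push_cast at h2 ⊢
      linarith
    rw [add_sub_cancel, mul_assoc]
    have h4 := mul_le_mul_of_nonneg_right h3 (mul_nonneg (hF t) (hG ((t - s : ℤ) : ℝ)))
    push_cast at h4 ⊢
    linarith
  · intro u hu
    obtain ⟨t, ht, rfl⟩ := mem_image.1 hu
    rw [mem_Ioo] at ht ⊢
    push_cast
    omega
  · intro u hu _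
    rw [mem_Ioo] at hu
    have h1 : |u| ≤ ((8 * T : ℕ) : ℤ) := abs_le.2 ⟨hu.1.le, hu.2.le⟩
    have h2 : |(u : ℝ)| ≤ ((8 * T : ℕ) : ℝ) := by exact_mod_cast h1
    have := hF ((s + u : ℤ) : ℝ)
    have := hG u
    have := sub_nonneg.2 h2
    positivity

theorem s_stmt (h2 : TwoStmt) (hP : PtStmt) (hR : RhoStmt) : SStmt := by
  obtain ⟨C2, hC2, h2⟩ := h2
  obtain ⟨CP, hCP, hP⟩ := hP
  obtain ⟨CR, hCR, hR⟩ := hR
  refine ⟨4 * C2 * CP * CR, by positivity, ?_⟩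
  intro N M T Δ hN hNT hT hD b hb s hs
  have hN' : (0 : ℝ) < N := by exact_mod_cast hN
  have e1 := reindex_SSt T (hN.trans hNT) (fun x => ‖DP N b x‖ ^ 2) (fun x => ‖Kb N M x‖ ^ 2)
    (fun _ => sq_nonneg _) (fun _ => sq_nonneg _) s hs
  have e2 := h2 N M hN (Ioo (-((8 * T : ℕ) : ℤ)) ((8 * T : ℕ) : ℤ))
    fun u => (((8 * T : ℕ) : ℝ) - |(u : ℝ)|) / ((8 * T : ℕ) : ℝ) * ‖DP N b ((s + u : ℤ) : ℝ)‖ ^ 2
  have e3 := hP N M (8 * T) hN (by omega) hT b hb s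
  obtain ⟨e4, e5⟩ := hR N M Δ hN hD
  have hc := continuous_rho N M
  have e6 := II_mono (f := fun v => ‖FT (Ioo (-((8 * T : ℕ) : ℤ)) ((8 * T : ℕ) : ℤ))
      (fun u => (((8 * T : ℕ) : ℝ) - |(u : ℝ)|) / ((8 * T : ℕ) : ℝ) *
        ‖DP N b ((s + u : ℤ) : ℝ)‖ ^ 2) v‖ * rho N M v)
    (g := fun v => CP * (N : ℝ) ^ 2 * (rho N M v + rho N M v ^ 2))
    ((((continuousOn_FT _ _).mono Icc_sub_Ioi).norm).mul hc.continuousOn)
    (Continuous.continuousOn (by fun_prop)) fun v hv => by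
      refine (mul_le_mul_of_nonneg_right (e3 v hv) (rho_nonneg N M v)).trans (le_of_eq ?_)
      ring
  have e7 : II (fun v => CP * (N : ℝ) ^ 2 * (rho N M v + rho N M v ^ 2)) =
      CP * (N : ℝ) ^ 2 * (II (rho N M) + II fun v => rho N M v ^ 2) := by
    unfold II
    rw [intervalIntegral.integral_const_mul, intervalIntegral.integral_add
      (g := fun v => rho N M v ^ 2) (hc.intervalIntegrable _ _) ((hc.pow 2).intervalIntegrable _ _)]
  have e8 : (M : ℝ) / N ≤ (M : ℝ) ^ 2 / (N : ℝ) ^ 2 + M * Δ / N := by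
    have : (M : ℝ) / N ≤ M * Δ / N :=
      div_le_div_of_nonneg_right (le_mul_of_one_le_right (Nat.cast_nonneg M) hD.1) hN'.le
    have : 0 ≤ (M : ℝ) ^ 2 / (N : ℝ) ^ 2 := by positivity
    linarith
  have e9 : II (rho N M) + II (fun v => rho N M v ^ 2) ≤
      2 * CR * ((M : ℝ) ^ 2 / (N : ℝ) ^ 2 + M * Δ / N) := by
    have := mul_le_mul_of_nonneg_left e8 hCR.le
    linarith
  simp only [norm_Kb_sub N M (s : ℝ)]
  refine e1.trans ?_
  refine (mul_le_mul_of_nonneg_left (e2.trans (mul_le_mul_of_nonneg_left (e6.trans (e7.le.trans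
    (mul_le_mul_of_nonneg_left e9 (by positivity)))) (by positivity))) zero_le_two).trans
    (le_of_eq ?_)
  ring

end Pool.Agent.MP_2a1f0e_nt.GM

end

section

set_option autoImplicit false

open Finset

namespace Pool.Agent.MP_2a1f0e_nt.GM

theorem b2_stmt (hS : SetupStmt) (hH : HuxStmt) : B2Stmt := by
  intro ε hε
  obtain ⟨C, hC, hC'⟩ := hS ε hε
  refine ⟨4 * C, by positivity, fun N T hN hNT hT b hb V hV => ?_⟩
  obtain ⟨M, Δ, -, -, -, -, hE, hS'⟩ := hC' N T hN hNT hT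
  have hN' : (1 : ℝ) ≤ N := by exact_mod_cast hN
  have h1 := hH N M b _ _ _ V hN hb (by positivity) (by positivity) hV hE (hS' b hb)
  have h2 : Mass N b (Icc 0 (T : ℤ)) V ≤ Mass N b (Ioo (-(2 * T : ℤ)) (2 * T)) V := by
    refine Mass_mono N b (fun t ht => ?_) V
    rw [mem_Icc] at ht
    rw [mem_Ioo]
    omega
  have h3 : (1 : ℝ) ≤ (N : ℝ) ^ ε := Real.one_le_rpow hN' hε.le
  have h4 : 4 * C * (N : ℝ) ^ 2 ≤ 4 * C * (N : ℝ) ^ ε * (N : ℝ) ^ 2 := by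
    have : 0 ≤ 4 * C * (N : ℝ) ^ 2 := by positivity
    nlinarith
  refine h2.trans (h1.trans ?_)
  have e : 4 * C * (N : ℝ) ^ ε * ((N : ℝ) ^ 2 + T * (N : ℝ) ^ 4 / V ^ 4) =
      4 * C * (N : ℝ) ^ ε * (N : ℝ) ^ 2 +
        4 * (N : ℝ) ^ 2 * (C * (N : ℝ) ^ ε * (T * (N : ℝ) ^ 2)) / V ^ 4 := by ring
  rw [e]
  nlinarith

lemma mass_eq_BTwo (N : ℕ) (b : ℕ → ℂ) (I : Finset ℤ) (V : ℝ) :
    Mass N b I V = ∑ t ∈ I, if V ≤ ‖DP N b t‖ then ‖DP N b t‖ ^ 2 else 0 := by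
  unfold Mass
  rw [sum_filter]

lemma mass_shift_BTwo (N : ℕ) (b : ℕ → ℂ) (a : ℤ) (L : ℕ) (V : ℝ) :
    Mass N b (Icc a (a + L)) V = Mass N (fun n => b n * pw (n : ℝ) a) (Icc 0 (L : ℤ)) V := by
  rw [mass_eq_BTwo, mass_eq_BTwo]
  symm
  refine sum_bij (fun t _ => a + t) ?_ ?_ ?_ ?_
  · intro t ht
    rw [mem_Icc] at ht ⊢
    omega
  · intro s _ t _ h
    omega
  · intro t ht
    refine ⟨t - a, ?_, by ring⟩
    rw [mem_Icc] at ht ⊢
    omega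
  · intro t _
    rw [← DP_add]
    push_cast
    rfl

lemma mass_union_BTwo (N : ℕ) (b : ℕ → ℂ) (I J : Finset ℤ) (V : ℝ) :
    Mass N b (I ∪ J) V ≤ Mass N b I V + Mass N b J V := by
  rw [mass_eq_BTwo, mass_eq_BTwo, mass_eq_BTwo, ← sum_union_inter]
  refine le_add_of_nonneg_right (sum_nonneg fun t _ => ?_)
  split_ifs <;> positivity

theorem blk_stmt : BlkStmt := by
  intro N T T₁ V Z hN hT₁ hZ b hb
  have hZ0 : 0 ≤ Z := (Mass_nonneg _ _ _ _).trans (hZ b hb)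
  have key : ∀ k : ℕ, Mass N b (Icc 0 (((k + 1) * T₁ : ℕ) : ℤ)) V ≤ (k + 1) * Z := by
    intro k
    induction k with
    | zero => simpa using hZ b hb
    | succ k ih =>
      have h1 : Icc (0 : ℤ) (((k + 1 + 1) * T₁ : ℕ) : ℤ) ⊆ Icc 0 (((k + 1) * T₁ : ℕ) : ℤ) ∪
          Icc (((k + 1) * T₁ : ℕ) : ℤ) ((((k + 1) * T₁ : ℕ) : ℤ) + T₁) := by
        intro t ht
        rw [add_mul (k + 1) 1 T₁, one_mul] at ht
        rw [mem_union, mem_Icc, mem_Icc]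
        rw [mem_Icc] at ht
        omega
      have h2 : Mass N b (Icc (((k + 1) * T₁ : ℕ) : ℤ) ((((k + 1) * T₁ : ℕ) : ℤ) + T₁)) V ≤ Z := by
        rw [mass_shift_BTwo]
        refine hZ _ fun n => ?_
        rw [norm_mul, norm_pw, mul_one]
        exact hb n
      have h3 := (Mass_mono N b h1 V).trans (mass_union_BTwo N b _ _ V)
      push_cast at h3 h2 ih ⊢
      linarith
  have h1 : Icc (0 : ℤ) (T : ℤ) ⊆ Icc 0 (((T / T₁ + 1) * T₁ : ℕ) : ℤ) := by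
    refine Icc_subset_Icc_right ?_
    have : T < (T / T₁ + 1) * T₁ := by
      rw [mul_comm]
      exact Nat.lt_mul_div_succ T hT₁
    exact_mod_cast this.le
  refine (Mass_mono N b h1 V).trans ((key _).trans ?_)
  have h2 : ((T / T₁ : ℕ) : ℝ) ≤ (T : ℝ) / T₁ := Nat.cast_div_le
  exact mul_le_mul_of_nonneg_right (by linarith) hZ0

end Pool.Agent.MP_2a1f0e_nt.GM

end
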