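import Pool.Agent.MP_2a1f0e_nt.GM.Basic

section

set_option autoImplicit false

open Finset
open scoped FourierTransform

namespace Pool.Agent.MP_2a1f0e_nt.GM

lemma cont_Pois (u : ℝ) : Continuous fun y : ℝ => (Wt y : ℂ) * pw y u := by
  refine continuous_iff_continuousAt.2 fun y => ?_
  by_cases hy : 0 < y
  · exact (Complex.continuous_ofReal.comp continuous_Wt).continuousAt.mul
      ((continuousOn_pw u).continuousAt (Ioi_mem_nhds hy))
  · have h : (fun y : ℝ => (Wt y : ℂ) * pw y u) =ᶠ[nhds y] fun _ => 0 := by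
      filter_upwards [Iio_mem_nhds (show y < 3 / 4 by linarith [not_lt.1 hy])] with z hz
      rw [Wt_eq_zero (Or.inl (le_of_lt hz)), Complex.ofReal_zero, zero_mul]
    exact continuousAt_const.congr h.symm

theorem pois_stmt (hD : DecayStmt) : PoisStmt := by
  intro N hN u
  have hN1 : (1 : ℝ) ≤ N := by exact_mod_cast hN
  have hN0 : (0 : ℝ) < N := by linarith
  let f : ℝ → ℂ := fun x => pw (N : ℝ) u * ((Wt (x / N) : ℂ) * pw (x / N) u)
  have hc : Continuous f := continuous_const.mul ((cont_Pois u).comp (continuous_id.div_const _))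
  have h0 : ∀ x : ℝ, x ≤ 0 ∨ 3 * N < x → f x = 0 := fun x hx => by
    have h : Wt (x / N) = 0 := Wt_eq_zero (hx.imp
      (fun h => (div_nonpos_of_nonpos_of_nonneg h hN0.le).trans (by norm_num))
      fun h => by rw [le_div_iff₀ hN0]; linarith)
    simp only [f, h, Complex.ofReal_zero, zero_mul, mul_zero]
  have hf : f =O[Filter.cocompact ℝ] fun x : ℝ => |x| ^ (-(2 : ℝ)) := by
    have h : f =ᶠ[Filter.cocompact ℝ] fun _ => 0 := by
      filter_upwards [(isCompact_Icc (a := (0 : ℝ)) (b := 3 * N)).compl_mem_cocompact] with x hx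
      refine h0 x ?_
      by_contra h1
      rw [not_or, not_le, not_lt] at h1
      exact hx ⟨h1.1.le, h1.2⟩
    exact (Asymptotics.isBigO_zero _ _).congr' h.symm Filter.EventuallyEq.rfl
  have hF : ∀ m : ℤ, 𝓕 f m = (N : ℂ) * pw (N : ℝ) u * HH u ((m : ℝ) * N) := fun m => by
    have h := MeasureTheory.Measure.integral_comp_div
      (fun y : ℝ => (Wt y : ℂ) * pw y u * ex (-((m : ℝ) * N * y))) (N : ℝ)
    rw [abs_of_pos hN0, Complex.real_smul, Complex.ofReal_natCast] at h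
    rw [Real.fourier_real_eq_integral_exp_smul, HH, mul_comm (N : ℂ), mul_assoc, ← h,
      ← MeasureTheory.integral_const_mul]
    refine congrArg _ (funext fun x => ?_)
    have e : ex (-((m : ℝ) * N * (x / N))) =
        Complex.exp (((-2 * Real.pi * x * m : ℝ) : ℂ) * Complex.I) := by
      rw [ex, mul_comm Complex.I]
      congr 3
      field_simp
    rw [e, smul_eq_mul]
    simp only [f]
    ring
  have hs : Summable fun m : ℤ => (N : ℂ) * pw (N : ℝ) u * HH u ((m : ℝ) * N) := by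
    obtain ⟨C, hC, hb⟩ := hD 2
    refine Summable.mul_left _ (Summable.of_norm_bounded_eventually
      ((Real.summable_one_div_int_pow.2 one_lt_two).mul_left (C * (1 + |u|) ^ 2)) ?_)
    filter_upwards [(Set.finite_singleton (0 : ℤ)).compl_mem_cofinite] with m hm
    have hm' : (m : ℝ) ≠ 0 := Int.cast_ne_zero.2 hm
    refine (hb u _ (mul_ne_zero hm' hN0.ne')).trans ?_
    rw [div_pow, sq_abs, mul_assoc, mul_one_div, mul_pow]
    have h1 : (0 : ℝ) < (m : ℝ) ^ 2 := by positivity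
    gcongr
    exact le_mul_of_one_le_right h1.le (one_le_pow₀ hN1)
  have h1 := Real.tsum_eq_tsum_fourier_of_rpow_decay_of_summable hc one_lt_two hf
    (by simpa only [hF] using hs) 0
  simp only [zero_add, hF, QuotientAddGroup.mk_zero, fourier_eval_zero, mul_one] at h1
  have h2 : ∑' n : ℤ, f n = KK N u := by
    rw [tsum_eq_sum (s := (Icc 1 (3 * N)).map Nat.castEmbedding), sum_map, KK]
    · refine sum_congr rfl fun n hn => ?_
      have hn' : (n : ℝ) ≠ 0 := Nat.cast_ne_zero.2 (by have := (mem_Icc.1 hn).1; omega)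
      have e : pw (n : ℝ) u = pw (N : ℝ) u * pw ((n : ℝ) / N) u := by
        rw [← pw_mul hN0.ne' (div_ne_zero hn' hN0.ne'), mul_div_cancel₀ _ hN0.ne']
      rw [e]
      simp only [f, Nat.castEmbedding_apply, Int.cast_natCast]
      ring
    · intro n hn
      refine h0 _ ?_
      by_contra h3
      rw [not_or, not_le, not_lt] at h3
      have h4 : 0 < n := by exact_mod_cast h3.1
      have h5 : n ≤ 3 * N := by exact_mod_cast h3.2
      refine hn (mem_map.2 ⟨n.toNat, mem_Icc.2 ⟨by omega, by omega⟩, ?_⟩)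
      exact Int.toNat_of_nonneg h4.le
  rw [← h2, h1]
  exact hs.hasSum

end Pool.Agent.MP_2a1f0e_nt.GM

end

section

set_option autoImplicit false

open Finset

namespace Pool.Agent.MP_2a1f0e_nt.GM

theorem he_Setup {N M T : ℕ} {E : ℝ}
    (h : ∑ u ∈ Icc (-((4 * T : ℕ) : ℤ)) ((4 * T : ℕ) : ℤ), ‖KK N (u : ℝ) - Kb N M (u : ℝ)‖ ≤ E) :
    HE N M (Ioo (-(2 * T : ℤ)) (2 * T)) E := by
  intro s hs
  refine le_trans ?_ h
  have e : ∑ t ∈ Ioo (-(2 * T : ℤ)) (2 * T), ‖KK N ((s : ℝ) - t) - Kb N M ((s : ℝ) - t)‖ =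
      ∑ u ∈ (Ioo (-(2 * T : ℤ)) (2 * T)).image (fun t => s - t),
        ‖KK N (u : ℝ) - Kb N M (u : ℝ)‖ := by
    rw [sum_image fun a _ b _ hab => sub_right_injective hab]
    simp only [Int.cast_sub]
  rw [e]
  refine sum_le_sum_of_subset_of_nonneg (fun u hu => ?_) fun _ _ _ => norm_nonneg _
  obtain ⟨t, ht, rfl⟩ := mem_image.1 hu
  rw [mem_Ioo] at hs ht
  rw [mem_Icc]
  push_cast
  constructor <;> omega

theorem setup_stmt (hK : K1Stmt) (hS : SStmt) : SetupStmt := by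
  intro δ hδ
  have hη : 0 < min δ 1 / 4 := by positivity
  have hη1 : min δ 1 / 4 ≤ 1 := by linarith [min_le_right δ 1]
  have hη2 : min δ 1 / 4 * 4 ≤ δ := by linarith [min_le_left δ 1]
  generalize min δ 1 / 4 = η at hη hη1 hη2
  obtain ⟨E, hE, h1⟩ := hK η hη
  obtain ⟨Cs, hCs, h2⟩ := hS
  obtain ⟨Cd, hCd, h3⟩ := divisor_bound hη
  have hC0 : 0 ≤ Cs * (81 + 81 * Cd) := by positivity
  refine ⟨9 + 9 * Cd + E + Cs * (81 + 81 * Cd), by linarith, fun N T hN hT hT2 => ?_⟩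
  have n1 : (1 : ℝ) ≤ N := by exact_mod_cast hN
  have t1 : (N : ℝ) ≤ T := by exact_mod_cast hT
  have t2 : (T : ℝ) ≤ (N : ℝ) ^ 2 := by exact_mod_cast hT2
  have n0 : (0 : ℝ) < N := by linarith
  have x1 : 1 ≤ (N : ℝ) ^ η := Real.one_le_rpow n1 hη.le
  have x2 : (N : ℝ) ^ η ≤ N := by
    simpa using Real.rpow_le_rpow_of_exponent_le n1 hη1
  have x4 : ((N : ℝ) ^ η) ^ 4 ≤ (N : ℝ) ^ δ := by
    rw [← Real.rpow_natCast, ← Real.rpow_mul n0.le]
    exact Real.rpow_le_rpow_of_exponent_le n1 (by exact_mod_cast hη2)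
  have x9 : (9 * (N : ℝ) ^ 3) ^ η ≤ 9 * ((N : ℝ) ^ η) ^ 3 := by
    rw [Real.mul_rpow (by norm_num) (by positivity), ← Real.rpow_natCast, ← Real.rpow_mul n0.le,
      mul_comm ((3 : ℕ) : ℝ), Real.rpow_mul n0.le, Real.rpow_natCast]
    refine mul_le_mul_of_nonneg_right ?_ (by positivity)
    simpa using Real.rpow_le_rpow_of_exponent_le (show (1 : ℝ) ≤ 9 by norm_num) hη1
  have k1 := h1 N ⌈8 * T * (N : ℝ) ^ η / N⌉₊ (4 * T) hN (by omega) (by omega)
  have k2 := h2 N ⌈8 * T * (N : ℝ) ^ η / N⌉₊ T (9 * Cd * ((N : ℝ) ^ η) ^ 3) hN hT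
  have m1 := Nat.le_ceil (8 * T * (N : ℝ) ^ η / N)
  have m2 := (Nat.ceil_lt_add_one (show 0 ≤ 8 * T * (N : ℝ) ^ η / N by positivity)).le
  generalize ⌈8 * T * (N : ℝ) ^ η / N⌉₊ = M at k1 k2 m1 m2
  have k3 : ∀ n : ℕ, (n : ℝ) ≤ 9 * (N : ℝ) ^ 3 →
      (n.divisors.card : ℝ) ≤ 9 * Cd * ((N : ℝ) ^ η) ^ 3 := fun n hn => by
    have := (Real.rpow_le_rpow (Nat.cast_nonneg n) hn hη.le).trans x9
    nlinarith [h3 n]
  generalize (N : ℝ) ^ η = x at *
  generalize (N : ℝ) ^ δ = y at *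
  have y1 : x ^ 3 ≤ y := (pow_le_pow_right₀ x1 (by norm_num)).trans x4
  have y2 : x ^ 2 ≤ y := (pow_le_pow_right₀ x1 (by norm_num)).trans x4
  have y3 : x ≤ y := by simpa using (pow_le_pow_right₀ x1 (show 1 ≤ 4 by norm_num)).trans x4
  rw [div_le_iff₀ n0] at m1
  have m3 : (N : ℝ) * M ≤ 9 * T * x := by
    have := mul_le_mul_of_nonneg_left m2 n0.le
    rw [mul_add, mul_div_cancel₀ _ n0.ne', mul_one] at this
    nlinarith
  have m4 : 8 * T ≤ N * M := by
    have : (8 : ℝ) * T ≤ N * M := by nlinarith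
    exact_mod_cast this
  have hD : DivB (N * M) (9 * Cd * x ^ 3) := by
    refine ⟨by nlinarith [one_le_pow₀ (n := 3) x1], fun n hn => k3 n ?_⟩
    have h4 : (n : ℝ) ≤ N * M := by exact_mod_cast hn
    have h5 : T * x ≤ (N : ℝ) ^ 2 * N := mul_le_mul t2 x2 (by linarith) (by positivity)
    nlinarith
  have T0 : (0 : ℝ) < T := by linarith
  have y0 : 0 ≤ y := by linarith
  refine ⟨M, 9 * Cd * x ^ 3, m4, ?_, hD, ?_, fun s hs => ?_, fun b hb s hs => ?_⟩
  · rw [← mul_div_assoc, le_div_iff₀ n0]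
    have : 9 * T * x ≤ 9 * y * T := by nlinarith
    have h4 : 0 ≤ (9 * Cd + E + Cs * (81 + 81 * Cd)) * y * T := by positivity
    nlinarith
  · have h4 : 0 ≤ (9 + E + Cs * (81 + 81 * Cd)) * y := by positivity
    nlinarith
  · refine (he_Setup (k1 ?_) s hs).trans (mul_le_mul_of_nonneg_right (by linarith) n0.le)
    push_cast
    linarith
  · refine (k2 m4 hD b hb s hs).trans ?_
    have e : (N : ℝ) ^ 4 * ((M : ℝ) ^ 2 / (N : ℝ) ^ 2 + M * (9 * Cd * x ^ 3) / N) =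
        (N * M) ^ 2 + (N : ℝ) ^ 2 * (N * M) * (9 * Cd * x ^ 3) := by
      field_simp
    have h4 : ((N : ℝ) * M) ^ 2 ≤ 81 * (y * (T * (N : ℝ) ^ 2)) :=
      calc ((N : ℝ) * M) ^ 2 ≤ (9 * T * x) ^ 2 := pow_le_pow_left₀ (by positivity) m3 2
        _ = 81 * (x ^ 2 * (T * T)) := by ring
        _ ≤ 81 * (y * (T * (N : ℝ) ^ 2)) := by gcongr
    have h5 : (N : ℝ) ^ 2 * (N * M) * (9 * Cd * x ^ 3) ≤ 81 * Cd * (y * (T * (N : ℝ) ^ 2)) :=
      calc (N : ℝ) ^ 2 * (N * M) * (9 * Cd * x ^ 3)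
          ≤ (N : ℝ) ^ 2 * (9 * T * x) * (9 * Cd * x ^ 3) := by gcongr
        _ = 81 * Cd * (x ^ 4 * (T * (N : ℝ) ^ 2)) := by ring
        _ ≤ 81 * Cd * (y * (T * (N : ℝ) ^ 2)) := by gcongr
    have h6 : 0 ≤ (9 + 9 * Cd + E) * (y * (T * (N : ℝ) ^ 2)) := by positivity
    rw [mul_assoc, e]
    nlinarith [mul_le_mul_of_nonneg_left (add_le_add h4 h5) hCs.le]

end Pool.Agent.MP_2a1f0e_nt.GM

end
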