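import Pool.Agent.MP_2a1f0e_nt.GM.Basic
import Pool.Agent.Mg.C853.G68ddeb
import Pool.Agent.Mg.C853.G428425
import Pool.Agent.Mg.C853.G3e49c7
import Pool.Agent.Mg.C853.G2a2cf1
import Pool.Agent.Mg.C853.Gbf849f
import Pool.Agent.Mg.C853.G1ee557
import Pool.Agent.MP_2a1f0e_nt.GM.Pt
import Pool.Agent.MP_2a1f0e_nt.GM.Cub
import Pool.Agent.MP_2a1f0e_nt.GM.BOne
import Pool.Agent.MP_2a1f0e_nt.GM2.Defs

section

set_option autoImplicit false

open Finset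

namespace Pool.Agent.MP_2a1f0e_nt.GM

noncomputable def EE_PairB (M : ℕ) (l : ℤ) (v : ℝ) : ℂ :=
  ∑ m ∈ Ms M, ex (((l * m : ℤ) : ℝ) * v)

noncomputable def GG_PairB (g : ℝ → ℝ) (ξ : ℤ) : ℂ :=
  ∫ v in (1 / 9 : ℝ)..(82 / 9), (g v : ℂ) * ex ((ξ : ℝ) * v)

lemma rho2_exp_PairB (hE : PhExpStmt) {N : ℕ} (hN : 1 ≤ N) (M : ℕ) (v w : ℝ) :
    (rho2 N M v w : ℂ) =
      ∑ l ∈ Ioo (-(N : ℤ)) N, cf N l * (EE_PairB M l v * EE_PairB M l w) := by
  unfold rho2 EE_PairB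
  simp only [Complex.ofReal_sum, (hE N hN).1, sum_mul_sum]
  simp only [mul_sum]
  symm
  rw [sum_comm]
  refine sum_congr rfl fun m _ => ?_
  rw [sum_comm]
  refine sum_congr rfl fun m' _ => sum_congr rfl fun l _ => ?_
  rw [← ex_add]
  congr 2
  push_cast
  ring

lemma int_ex_PairB {g : ℝ → ℝ} (hg : ContinuousOn g (Set.Icc (1 / 9 : ℝ) (82 / 9))) (ξ : ℝ) :
    IntervalIntegrable (fun v => (g v : ℂ) * ex (ξ * v)) MeasureTheory.volume
      (1 / 9 : ℝ) (82 / 9) := by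
  refine ContinuousOn.intervalIntegrable_of_Icc (by norm_num) ?_
  exact (Complex.continuous_ofReal.comp_continuousOn hg).mul
    (continuous_ex.comp (continuous_const.mul continuous_id)).continuousOn

lemma int_EE_PairB {g : ℝ → ℝ} (hg : ContinuousOn g (Set.Icc (1 / 9 : ℝ) (82 / 9))) (M : ℕ)
    (l : ℤ) : IntervalIntegrable (fun v => (g v : ℂ) * EE_PairB M l v) MeasureTheory.volume
      (1 / 9 : ℝ) (82 / 9) := by
  refine ContinuousOn.intervalIntegrable_of_Icc (by norm_num) ?_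
  refine (Complex.continuous_ofReal.comp_continuousOn hg).mul (Continuous.continuousOn ?_)
  exact continuous_finsetSum _ fun m _ => continuous_ex.comp (continuous_const.mul continuous_id)

lemma integral_EE_PairB {g : ℝ → ℝ} (hg : ContinuousOn g (Set.Icc (1 / 9 : ℝ) (82 / 9)))
    (M : ℕ) (l : ℤ) : ∫ v in (1 / 9 : ℝ)..(82 / 9), (g v : ℂ) * EE_PairB M l v =
      ∑ m ∈ Ms M, GG_PairB g (l * m) := by
  unfold EE_PairB GG_PairB
  simp only [mul_sum]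
  exact intervalIntegral.integral_finsetSum fun m _ => int_ex_PairB hg _

lemma integral_sum_PairB {g : ℝ → ℝ} (hg : ContinuousOn g (Set.Icc (1 / 9 : ℝ) (82 / 9)))
    (M : ℕ) (s : Finset ℤ) (c : ℤ → ℂ) :
    ∫ v in (1 / 9 : ℝ)..(82 / 9), ∑ l ∈ s, c l * ((g v : ℂ) * EE_PairB M l v) =
      ∑ l ∈ s, c l * ∑ m ∈ Ms M, GG_PairB g (l * m) := by
  rw [intervalIntegral.integral_finsetSum fun l _ => (int_EE_PairB hg M l).const_mul _]
  refine sum_congr rfl fun l _ => ?_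
  rw [intervalIntegral.integral_const_mul, integral_EE_PairB hg]

lemma pair_exp_PairB (hE : PhExpStmt) {N : ℕ} (hN : 1 ≤ N) (M : ℕ) {g h : ℝ → ℝ}
    (hg : ContinuousOn g (Set.Icc (1 / 9 : ℝ) (82 / 9)))
    (hh : ContinuousOn h (Set.Icc (1 / 9 : ℝ) (82 / 9))) :
    (Pair N M g h : ℂ) = ∑ l ∈ Ioo (-(N : ℤ)) N,
      (cf N l * ∑ m ∈ Ms M, GG_PairB h (l * m)) * ∑ m ∈ Ms M, GG_PairB g (l * m) := by
  rw [← integral_sum_PairB hg]
  unfold Pair II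
  rw [← intervalIntegral.integral_ofReal]
  refine intervalIntegral.integral_congr fun v _ => ?_
  have e : ∑ l ∈ Ioo (-(N : ℤ)) N,
      (cf N l * ∑ m ∈ Ms M, GG_PairB h (l * m)) * ((g v : ℂ) * EE_PairB M l v) =
      ∑ l ∈ Ioo (-(N : ℤ)) N, (cf N l * ((g v : ℂ) * EE_PairB M l v)) *
        ∑ m ∈ Ms M, GG_PairB h (l * m) := sum_congr rfl fun l _ => by ring
  rw [e, ← integral_sum_PairB hh, ← intervalIntegral.integral_ofReal]
  refine intervalIntegral.integral_congr fun w _ => ?_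
  rw [Complex.ofReal_mul, Complex.ofReal_mul, rho2_exp_PairB hE hN, mul_sum]
  exact sum_congr rfl fun l _ => by ring

lemma zero_PairB {g : ℝ → ℝ} (hg : ∀ v, 0 ≤ g v) (M : ℕ) :
    ‖∑ m ∈ Ms M, GG_PairB g (0 * m)‖ = 2 * M * II g := by
  have e : GG_PairB g 0 = (II g : ℂ) := by
    unfold GG_PairB II
    rw [← intervalIntegral.integral_ofReal]
    simp [ex_zero]
  simp only [zero_mul, e, sum_const, card_Ms, nsmul_eq_mul, norm_mul, Complex.norm_real,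
    Complex.norm_natCast, Real.norm_eq_abs, abs_of_nonneg (II_nonneg hg)]
  push_cast
  ring

lemma sqrt_le_PairB (hB : BesStmt) (hD : DivStmt) {N M : ℕ} {Δ : ℝ} (hΔ : DivB (N * M) Δ)
    {g : ℝ → ℝ} (hg : ContinuousOn g (Set.Icc (1 / 9 : ℝ) (82 / 9))) :
    √(∑ l ∈ (Ioo (-(N : ℤ)) N).erase 0, ‖∑ m ∈ Ms M, GG_PairB g (l * m)‖ ^ 2) ≤
      √(36 * (M * Δ)) * √(II fun v => g v ^ 2) := by
  have h0 : 0 ≤ Δ := le_trans zero_le_one hΔ.1
  rw [← Real.sqrt_mul (by positivity)]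
  refine Real.sqrt_le_sqrt ((hD N M Δ hΔ (GG_PairB g)).trans ?_)
  have h1 := hB g hg (Icc (-((N * M : ℕ) : ℤ)) ((N * M : ℕ) : ℤ))
  refine (mul_le_mul_of_nonneg_left h1 (by positivity)).trans (le_of_eq ?_)
  ring

theorem pair_stmt (hE : PhExpStmt) (hB : BesStmt) (hD : DivStmt) : PairStmt := by
  refine ⟨72, by norm_num, fun N M Δ hN hΔ g h hg hh hg0 hh0 => ?_⟩
  have h0 : 0 ≤ Δ := le_trans zero_le_one hΔ.1
  have hN' : (0 : ℝ) < N := by exact_mod_cast hN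
  have h1 : Pair N M g h ≤ ∑ l ∈ Ioo (-(N : ℤ)) N,
      2 / N * (‖∑ m ∈ Ms M, GG_PairB g (l * m)‖ * ‖∑ m ∈ Ms M, GG_PairB h (l * m)‖) := by
    refine (le_abs_self _).trans ?_
    rw [← Real.norm_eq_abs, ← Complex.norm_real, pair_exp_PairB hE hN M hg hh]
    refine (norm_sum_le _ _).trans (sum_le_sum fun l hl => ?_)
    rw [norm_mul, norm_mul, mul_assoc, mul_comm ‖∑ m ∈ Ms M, GG_PairB h (l * m)‖]
    exact mul_le_mul_of_nonneg_right ((hE N hN).2 l hl) (by positivity)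
  have hz : (0 : ℤ) ∈ Ioo (-(N : ℤ)) N := by
    rw [mem_Ioo]; omega
  rw [← mul_sum, ← add_sum_erase _ _ hz, zero_PairB hg0, zero_PairB hh0] at h1
  have h2 := Real.sum_mul_le_sqrt_mul_sqrt ((Ioo (-(N : ℤ)) N).erase 0)
    (fun l => ‖∑ m ∈ Ms M, GG_PairB g (l * m)‖) fun l => ‖∑ m ∈ Ms M, GG_PairB h (l * m)‖
  have h3 := mul_le_mul (sqrt_le_PairB hB hD hΔ hg) (sqrt_le_PairB hB hD hΔ hh)
    (Real.sqrt_nonneg _) (by positivity)
  rw [mul_mul_mul_comm, Real.mul_self_sqrt (by positivity)] at h3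
  refine h1.trans ((mul_le_mul_of_nonneg_left (add_le_add_right (h2.trans h3) _)
    (by positivity)).trans ?_)
  have h4 : 0 ≤ (M : ℝ) ^ 2 / N * II g * II h :=
    mul_nonneg (mul_nonneg (by positivity) (II_nonneg hg0)) (II_nonneg hh0)
  have e : 2 / (N : ℝ) * (2 * M * II g * (2 * M * II h) +
      36 * (M * Δ) * (√(II fun v => g v ^ 2) * √(II fun v => h v ^ 2))) =
      8 * ((M : ℝ) ^ 2 / N * II g * II h) +
        72 * (M * Δ / N * √(II fun v => g v ^ 2) * √(II fun v => h v ^ 2)) := by ring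
  rw [e]
  linarith

end Pool.Agent.MP_2a1f0e_nt.GM

end

section

set_option autoImplicit false
open Finset
namespace Pool.Agent.MP_2a1f0e_nt.GM

/-- the trigonometric polynomial -/
noncomputable def F_Par (s : Finset ℤ) (g : ℤ → ℝ) (θ : ℝ) : ℂ :=
  ∑ t ∈ s, (g t : ℂ) * Complex.exp (Complex.I * ((t : ℝ) : ℂ) * (θ : ℂ))

lemma cont_Par (s : Finset ℤ) (g : ℤ → ℝ) : Continuous (F_Par s g) := by
  unfold F_Par
  fun_prop

lemma orth_Par (k : ℤ) : ∫ θ in (-Real.pi)..Real.pi, Complex.exp (Complex.I * (k : ℂ) * (θ : ℂ)) =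
    if k = 0 then (2 * Real.pi : ℂ) else 0 := by
  split_ifs with h
  · subst h
    simp [two_mul]
  · rw [integral_exp_mul_complex (mul_ne_zero Complex.I_ne_zero (Int.cast_ne_zero.2 h))]
    have e : Complex.I * (k : ℂ) * (Real.pi : ℂ) =
        Complex.I * (k : ℂ) * ((-Real.pi : ℝ) : ℂ) + k * (2 * Real.pi * Complex.I) := by
      push_cast
      ring
    rw [e, Complex.exp_add, Complex.exp_int_mul_two_pi_mul_I, mul_one, sub_self, zero_div]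

lemma sq_Par (s : Finset ℤ) (g : ℤ → ℝ) (θ : ℝ) : ((‖F_Par s g θ‖ ^ 2 : ℝ) : ℂ) =
    ∑ t ∈ s, ∑ u ∈ s, ((g t : ℂ) * g u) *
      Complex.exp (Complex.I * ((t - u : ℤ) : ℂ) * (θ : ℂ)) := by
  rw [Complex.ofReal_pow, ← Complex.mul_conj', F_Par, map_sum, sum_mul_sum]
  refine sum_congr rfl fun t _ => sum_congr rfl fun u _ => ?_
  rw [map_mul, Complex.conj_ofReal, ← Complex.exp_conj, map_mul, map_mul, Complex.conj_I,
    Complex.conj_ofReal, Complex.conj_ofReal, mul_mul_mul_comm, ← Complex.exp_add]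
  congr 2
  push_cast
  ring

lemma pars_Par (s : Finset ℤ) (g : ℤ → ℝ) :
    ∫ θ in (-Real.pi)..Real.pi, ‖F_Par s g θ‖ ^ 2 = 2 * Real.pi * ∑ t ∈ s, g t ^ 2 := by
  apply Complex.ofReal_injective
  rw [← intervalIntegral.integral_ofReal]
  simp only [sq_Par]
  rw [intervalIntegral.integral_finsetSum fun t _ =>
    Continuous.intervalIntegrable (by fun_prop) _ _]
  push_cast
  rw [mul_sum]
  refine sum_congr rfl fun t ht => ?_
  rw [intervalIntegral.integral_finsetSum fun u _ =>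
    Continuous.intervalIntegrable (by fun_prop) _ _, sum_eq_single_of_mem t ht]
  · rw [intervalIntegral.integral_const_mul, ← Int.cast_sub, orth_Par, if_pos (sub_self t)]
    ring
  · intro u _ hu
    rw [intervalIntegral.integral_const_mul, ← Int.cast_sub, orth_Par,
      if_neg (sub_ne_zero.2 hu.symm), mul_zero]

theorem par_stmt : ParStmt := by
  intro s g
  have hc : Continuous fun θ => ‖F_Par s g θ‖ ^ 2 := (cont_Par s g).norm.pow 2
  have hab : (1 / 9 : ℝ) ≤ 82 / 9 := by norm_num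
  have hpos : ∀ x ∈ Set.uIcc (1 / 9 : ℝ) (82 / 9), x ≠ 0 := fun x hx => by
    rw [Set.uIcc_of_le hab] at hx
    linarith [hx.1]
  have hlog : ContinuousOn Real.log (Set.uIcc (1 / 9 : ℝ) (82 / 9)) :=
    Real.continuousOn_log.mono hpos
  have hinv : ContinuousOn (fun x : ℝ => x⁻¹) (Set.uIcc (1 / 9 : ℝ) (82 / 9)) :=
    continuousOn_inv₀.mono hpos
  have h1 := intervalIntegral.integral_comp_mul_deriv (a := (1 / 9 : ℝ)) (b := 82 / 9)
    (fun x hx => Real.hasDerivAt_log (hpos x hx)) hinv hc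
  have h2 : II (fun v => ‖FT s g v‖ ^ 2) ≤ ∫ x in (1 / 9 : ℝ)..(82 / 9),
      82 / 9 * (((fun θ => ‖F_Par s g θ‖ ^ 2) ∘ Real.log) x * x⁻¹) := by
    refine intervalIntegral.integral_mono_on hab
      (hc.comp_continuousOn hlog).intervalIntegrable
      (continuousOn_const.mul ((hc.comp_continuousOn hlog).mul hinv)).intervalIntegrable
      fun x hx => ?_
    have hx0 : 0 < x := by linarith [hx.1]
    change ‖F_Par s g (Real.log x)‖ ^ 2 ≤ 82 / 9 * (‖F_Par s g (Real.log x)‖ ^ 2 * x⁻¹)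
    rw [mul_left_comm]
    refine le_mul_of_one_le_right (by positivity) ?_
    rw [← div_eq_mul_inv, one_le_div hx0]
    exact hx.2
  rw [intervalIntegral.integral_const_mul, h1] at h2
  have he : (82 / 9 : ℝ) ≤ Real.exp 3 := by
    have := Real.sum_le_exp_of_nonneg (x := 3) (by norm_num) 4
    simp only [sum_range_succ, Nat.factorial] at this
    norm_num at this
    linarith
  have hu : Real.log (82 / 9) ≤ Real.pi :=
    ((Real.log_le_iff_le_exp (by norm_num)).2 he).trans Real.pi_gt_three.le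
  have hl : -Real.pi ≤ Real.log (1 / 9) := by
    rw [one_div, Real.log_inv, neg_le_neg_iff]
    exact (Real.log_le_log (by norm_num) (by norm_num)).trans hu
  have h3 := intervalIntegral.integral_mono_interval (μ := MeasureTheory.volume) hl
    (Real.log_le_log (by norm_num) hab) hu
    (Filter.Eventually.of_forall fun θ => sq_nonneg ‖F_Par s g θ‖) (hc.intervalIntegrable _ _)
  rw [pars_Par] at h3
  have h4 : 0 ≤ ∑ t ∈ s, g t ^ 2 := sum_nonneg fun _ _ => sq_nonneg _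
  have h5 := mul_le_mul_of_nonneg_right Real.pi_lt_d2.le h4
  linarith

end Pool.Agent.MP_2a1f0e_nt.GM

end

section

set_option autoImplicit false

open Finset MeasureTheory

namespace Pool.Agent.MP_2a1f0e_nt.GM

namespace Three

/-- globally continuous version of `pw` -/
noncomputable def pc (x u : ℝ) : ℂ := pw (max x (1 / 10)) u

lemma continuous_pc (u : ℝ) : Continuous fun x => pc x u := by
  unfold pc
  refine (continuousOn_pw u).comp_continuous (by fun_prop) fun x => ?_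
  exact lt_of_lt_of_le (by norm_num) (le_max_right x (1 / 10 : ℝ))

lemma pc_eq {x : ℝ} (hx : 1 / 10 ≤ x) (u : ℝ) : pc x u = pw x u := by
  unfold pc
  rw [max_eq_left hx]

lemma swap2 {F : ℝ → ℝ → ℂ} (hF : Continuous (Function.uncurry F)) (a b c d : ℝ) :
    ∫ x in a..b, ∫ y in c..d, F x y = ∫ y in c..d, ∫ x in a..b, F x y := by
  apply intervalIntegral_intervalIntegral_swap
  have hK : IsCompact (Set.uIcc a b ×ˢ Set.uIcc c d) := isCompact_uIcc.prod isCompact_uIcc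
  exact (hF.continuousOn.integrableOn_compact hK).mono_set
    (Set.prod_mono Set.uIoc_subset_uIcc Set.uIoc_subset_uIcc)

lemma HH_scale {r : ℝ} (h1 : 3 / 4 ≤ r) (h2 : r ≤ 9 / 4) (al x : ℝ) :
    HH al x = (r : ℂ) * pw r al *
      ∫ v in (1 / 3 : ℝ)..3, (Wt (r * v) : ℂ) * pc v al * ex (-(x * (r * v))) := by
  have hr : 0 < r := by linarith
  set G : ℝ → ℂ := fun y => (Wt y : ℂ) * pw y al * ex (-(x * y)) with hG
  have e1 := Measure.integral_comp_mul_left G r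
  have e2 : ∫ v in (1 / 3 : ℝ)..3, G (r * v) = ∫ v, G (r * v) := by
    apply intervalIntegral.integral_eq_integral_of_support_subset
    intro v hv
    have hW : Wt (r * v) ≠ 0 := by
      intro h0
      apply hv
      simp [hG, h0]
    obtain ⟨a1, a2⟩ := mem_of_Wt_ne_zero hW
    constructor
    · by_contra hc
      push Not at hc
      nlinarith
    · by_contra hc
      push Not at hc
      nlinarith
  have e3 : ∫ v in (1 / 3 : ℝ)..3, G (r * v) = pw r al *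
      ∫ v in (1 / 3 : ℝ)..3, (Wt (r * v) : ℂ) * pc v al * ex (-(x * (r * v))) := by
    rw [← intervalIntegral.integral_const_mul]
    apply intervalIntegral.integral_congr
    intro v hv
    rw [Set.uIcc_of_le (by norm_num)] at hv
    have hv0 : 0 < v := by linarith [hv.1]
    simp only [hG]
    rw [pw_mul hr.ne' hv0.ne', pc_eq (by linarith [hv.1])]
    ring
  have e4 : HH al x = ∫ y, G y := rfl
  rw [e4, mul_assoc, ← e3, e2, e1, abs_of_pos (inv_pos.2 hr), Complex.real_smul, ← mul_assoc]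
  have : (r : ℂ) ≠ 0 := by exact_mod_cast hr.ne'
  push_cast
  rw [mul_inv_cancel₀ this, one_mul]

/-- radial integrand -/
noncomputable def rad (v w η r : ℝ) : ℂ :=
  ((r ^ 2 * Wt r * Wt (r * v) * Wt (r * w) : ℝ) : ℂ) * ex (-(η * r))

noncomputable def R3 (v w η : ℝ) : ℂ := ∫ r in (3 / 4 : ℝ)..(9 / 4), rad v w η r

lemma R3_eq (v w η : ℝ) : R3 v w η = ∫ r, rad v w η r := by
  apply intervalIntegral.integral_eq_integral_of_support_subset
  intro r hr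
  have hW : Wt r ≠ 0 := by
    intro h0
    apply hr
    simp [rad, h0]
  obtain ⟨a1, a2⟩ := mem_of_Wt_ne_zero hW
  exact ⟨a1, a2.le⟩

lemma continuous_rad (x₁ x₂ x₃ : ℝ) :
    Continuous fun p : ℝ × ℝ × ℝ => rad p.1 p.2.1 (x₁ * p.1 + x₂ * p.2.1 + x₃) p.2.2 := by
  unfold rad
  have h1 := continuous_Wt
  have h2 := continuous_ex
  fun_prop

lemma continuous_R3 (x₁ x₂ x₃ : ℝ) :
    Continuous fun p : ℝ × ℝ => R3 p.1 p.2 (x₁ * p.1 + x₂ * p.2 + x₃) := by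
  unfold R3
  apply intervalIntegral.continuous_parametric_intervalIntegral_of_continuous'
  exact (continuous_rad x₁ x₂ x₃).comp
    (f := fun q : (ℝ × ℝ) × ℝ => (q.1.1, q.1.2, q.2)) (by fun_prop)

lemma key {al be ga : ℝ} (h : al + be + ga = 0) (x₁ x₂ x₃ : ℝ) :
    HH al x₁ * HH be x₂ * HH ga x₃ = ∫ v in (1 / 3 : ℝ)..3, ∫ w in (1 / 3 : ℝ)..3,
      pc v al * pc w be * R3 v w (x₁ * v + x₂ * w + x₃) := by
  set F : ℝ → ℝ → ℝ → ℂ := fun r v w =>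
    pc v al * pc w be * rad v w (x₁ * v + x₂ * w + x₃) r with hF
  have cF : Continuous fun p : ℝ × ℝ × ℝ => F p.1 p.2.1 p.2.2 := by
    simp only [hF]
    refine (((continuous_pc al).comp (by fun_prop)).mul
      ((continuous_pc be).comp (by fun_prop))).mul ?_
    exact (continuous_rad x₁ x₂ x₃).comp
      (f := fun q : ℝ × ℝ × ℝ => (q.2.1, q.2.2, q.1)) (by fun_prop)
  have e1 : HH ga x₃ = ∫ r in (3 / 4 : ℝ)..(9 / 4), (Wt r : ℂ) * pw r ga * ex (-(x₃ * r)) := by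
    symm
    apply intervalIntegral.integral_eq_integral_of_support_subset
    intro r hr
    have hW : Wt r ≠ 0 := by
      intro h0
      apply hr
      simp [h0]
    obtain ⟨a1, a2⟩ := mem_of_Wt_ne_zero hW
    exact ⟨a1, a2.le⟩
  have e2 : HH al x₁ * HH be x₂ * HH ga x₃ = ∫ r in (3 / 4 : ℝ)..(9 / 4),
      ∫ v in (1 / 3 : ℝ)..3, ∫ w in (1 / 3 : ℝ)..3, F r v w := by
    rw [e1, ← intervalIntegral.integral_const_mul]
    apply intervalIntegral.integral_congr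
    intro r hr
    rw [Set.uIcc_of_le (by norm_num)] at hr
    have hp : pw r al * pw r be * pw r ga = 1 := by
      rw [← pw_add, ← pw_add, h, pw_zero]
    simp only
    rw [HH_scale hr.1 hr.2 al x₁, HH_scale hr.1 hr.2 be x₂]
    set A : ℝ → ℂ := fun v => (Wt (r * v) : ℂ) * pc v al * ex (-(x₁ * (r * v))) with hA
    set B : ℝ → ℂ := fun w => (Wt (r * w) : ℂ) * pc w be * ex (-(x₂ * (r * w))) with hB
    have e : ∀ v w, F r v w = ((r : ℂ) ^ 2 * Wt r * ex (-(x₃ * r)) * A v) * B w := by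
      intro v w
      simp only [hF, hA, hB, rad]
      rw [show -((x₁ * v + x₂ * w + x₃) * r) =
        -(x₁ * (r * v)) + -(x₂ * (r * w)) + -(x₃ * r) by ring, ex_add, ex_add]
      push_cast
      ring
    simp_rw [e, intervalIntegral.integral_const_mul, intervalIntegral.integral_mul_const,
      intervalIntegral.integral_const_mul]
    linear_combination ((r : ℂ) ^ 2 * Wt r * ex (-(x₃ * r)) * (∫ v in (1 / 3 : ℝ)..3, A v) *
      (∫ w in (1 / 3 : ℝ)..3, B w)) * hp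
  rw [e2, swap2]
  · apply intervalIntegral.integral_congr
    intro v _
    simp only
    rw [swap2]
    · apply intervalIntegral.integral_congr
      intro w _
      simp only [hF, R3]
      rw [intervalIntegral.integral_const_mul]
    · exact cF.comp (f := fun q : ℝ × ℝ => (q.1, v, q.2)) (by fun_prop)
  · apply intervalIntegral.continuous_parametric_intervalIntegral_of_continuous'
      (f := fun (q : ℝ × ℝ) w => F q.1 q.2 w)
    exact cF.comp (f := fun q : (ℝ × ℝ) × ℝ => (q.1.1, q.1.2, q.2)) (by fun_prop)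

lemma DI_sum {ι : Type*} (s : Finset ι) (f : ι → ℝ → ℝ → ℂ)
    (hf : ∀ i, Continuous (Function.uncurry (f i))) (a b c d : ℝ) :
    ∑ i ∈ s, ∫ v in a..b, ∫ w in c..d, f i v w =
      ∫ v in a..b, ∫ w in c..d, ∑ i ∈ s, f i v w := by
  rw [← intervalIntegral.integral_finsetSum]
  · apply intervalIntegral.integral_congr
    intro v _
    simp only
    rw [intervalIntegral.integral_finsetSum]
    intro i _
    exact ((hf i).comp (f := fun w : ℝ => (v, w)) (by fun_prop)).intervalIntegrable _ _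
  · intro i _
    exact (intervalIntegral.continuous_parametric_intervalIntegral_of_continuous' (hf i)
      c d).intervalIntegrable _ _

/-- one term of the expanded cubic trace -/
noncomputable def tm (N : ℕ) (ν : ℤ → ℝ) (i : (ℤ × ℤ × ℤ) × (ℤ × ℤ × ℤ)) (v w : ℝ) : ℂ :=
  ((ν i.1.1 * ν i.1.2.1 * ν i.1.2.2 : ℝ) : ℂ) *
    (pc v ((i.1.1 : ℝ) - i.1.2.1) * pc w ((i.1.2.1 : ℝ) - i.1.2.2) *
      R3 v w ((i.2.1 : ℝ) * N * v + (i.2.2.1 : ℝ) * N * w + (i.2.2.2 : ℝ) * N))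

lemma continuous_tm (N : ℕ) (ν : ℤ → ℝ) (i : (ℤ × ℤ × ℤ) × (ℤ × ℤ × ℤ)) :
    Continuous (Function.uncurry (tm N ν i)) := by
  unfold tm Function.uncurry
  exact continuous_const.mul ((((continuous_pc _).comp continuous_fst).mul
    ((continuous_pc _).comp continuous_snd)).mul (continuous_R3 _ _ _))

lemma Q3_eq (N M : ℕ) (s : Finset ℤ) (ν : ℤ → ℝ) :
    Q3 N M s ν = (N : ℂ) ^ 3 * ∫ v in (1 / 3 : ℝ)..3, ∫ w in (1 / 3 : ℝ)..3,
      ∑ i ∈ (s ×ˢ s ×ˢ s) ×ˢ (Ms M ×ˢ Ms M ×ˢ Ms M), tm N ν i v w := by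
  rw [← DI_sum _ _ (continuous_tm N ν), sum_product, mul_sum]
  unfold Q3
  rw [sum_product]
  refine sum_congr rfl fun a _ => ?_
  rw [sum_product]
  refine sum_congr rfl fun b _ => sum_congr rfl fun c _ => ?_
  have hp : pw (N : ℝ) ((a : ℝ) - b) * pw (N : ℝ) ((b : ℝ) - c) * pw (N : ℝ) ((c : ℝ) - a) = 1 := by
    rw [← pw_add, ← pw_add, show (a : ℝ) - b + ((b : ℝ) - c) + ((c : ℝ) - a) = 0 by ring, pw_zero]
  have e : ∀ m : ℤ × ℤ × ℤ, (∫ v in (1 / 3 : ℝ)..3, ∫ w in (1 / 3 : ℝ)..3,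
      tm N ν ((a, b, c), m) v w) = ((ν a * ν b * ν c : ℝ) : ℂ) *
        (HH ((a : ℝ) - b) ((m.1 : ℝ) * N) * HH ((b : ℝ) - c) ((m.2.1 : ℝ) * N) *
          HH ((c : ℝ) - a) ((m.2.2 : ℝ) * N)) := by
    intro m
    rw [key (by ring)]
    simp only [tm, intervalIntegral.integral_const_mul]
  rw [sum_congr rfl fun m _ => e m, ← mul_sum]
  have e2 : ∑ m ∈ Ms M ×ˢ Ms M ×ˢ Ms M,
      HH ((a : ℝ) - b) ((m.1 : ℝ) * N) * HH ((b : ℝ) - c) ((m.2.1 : ℝ) * N) *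
          HH ((c : ℝ) - a) ((m.2.2 : ℝ) * N) =
      (∑ m ∈ Ms M, HH ((a : ℝ) - b) ((m : ℝ) * N)) * (∑ m ∈ Ms M, HH ((b : ℝ) - c) ((m : ℝ) * N)) *
        ∑ m ∈ Ms M, HH ((c : ℝ) - a) ((m : ℝ) * N) := by
    rw [mul_assoc, sum_mul_sum (Ms M) (Ms M), ← sum_product', sum_mul_sum, sum_product]
    refine sum_congr rfl fun m _ => sum_congr rfl fun m' _ => ?_
    ring
  rw [e2]
  unfold Kb
  linear_combination (((ν a * ν b * ν c : ℝ) : ℂ) * (N : ℂ) ^ 3 *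
    (∑ m ∈ Ms M, HH ((a : ℝ) - b) ((m : ℝ) * N)) * (∑ m ∈ Ms M, HH ((b : ℝ) - c) ((m : ℝ) * N)) *
        ∑ m ∈ Ms M, HH ((c : ℝ) - a) ((m : ℝ) * N)) * hp

lemma sum_tm (N M : ℕ) (s : Finset ℤ) (ν : ℤ → ℝ) {v w : ℝ} (hv : 1 / 3 ≤ v) (hw : 1 / 3 ≤ w) :
    ∑ i ∈ (s ×ˢ s ×ˢ s) ×ˢ (Ms M ×ˢ Ms M ×ˢ Ms M), tm N ν i v w =
      FT s ν v * FT s ν (w / v) * FT s ν w⁻¹ * ∑ m ∈ Ms M ×ˢ Ms M ×ˢ Ms M,
        R3 v w ((m.1 : ℝ) * N * v + (m.2.1 : ℝ) * N * w + (m.2.2 : ℝ) * N) := by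
  have hv0 : v ≠ 0 := by linarith [hv, (by norm_num : (0 : ℝ) < 1 / 3)] |> fun h : 0 < v => h.ne'
  have hw0 : w ≠ 0 := by linarith [hw, (by norm_num : (0 : ℝ) < 1 / 3)] |> fun h : 0 < w => h.ne'
  have e : FT s ν v * FT s ν (w / v) * FT s ν w⁻¹ = ∑ a ∈ s ×ˢ s ×ˢ s,
      ((ν a.1 * ν a.2.1 * ν a.2.2 : ℝ) : ℂ) *
        (pc v ((a.1 : ℝ) - a.2.1) * pc w ((a.2.1 : ℝ) - a.2.2)) := by
    unfold FT
    rw [mul_assoc, sum_mul_sum s s, ← sum_product', sum_mul_sum, sum_product]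
    refine sum_congr rfl fun a _ => sum_congr rfl fun b _ => ?_
    rw [pc_eq (by linarith), pc_eq (by linarith), pw_div hw0 hv0, pw_inv, sub_eq_add_neg,
      sub_eq_add_neg, pw_add, pw_add]
    push_cast
    ring
  rw [e, sum_mul_sum, sum_product]
  refine sum_congr rfl fun a _ => sum_congr rfl fun m _ => ?_
  unfold tm
  ring

end Three

open Three in
theorem three_stmt (hR : RadStmt) : ThreeStmt := by
  obtain ⟨C, hC, hR⟩ := hR
  refine ⟨C, hC, fun N M _ s ν => ?_⟩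
  set φ : ℝ → ℝ := fun x => ‖FT s ν (max x (1 / 10))‖ with hφ
  have cφ : Continuous φ := by
    refine ((continuousOn_FT s ν).comp_continuous (by fun_prop) fun x => ?_).norm
    exact lt_of_lt_of_le (by norm_num) (le_max_right x (1 / 10 : ℝ))
  have eφ : ∀ x : ℝ, 1 / 10 ≤ x → φ x = ‖FT s ν x‖ := fun x hx => by
    simp only [hφ]
    rw [max_eq_left hx]
  set G : ℝ → ℝ → ℝ := fun v w =>
    φ v * φ (w / max v (1 / 3)) * φ w * kp3 N M v w with hG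
  have cG : Continuous (Function.uncurry G) := by
    have h1 : Continuous fun p : ℝ × ℝ => p.2 / max p.1 (1 / 3 : ℝ) :=
      continuous_snd.div (by fun_prop) fun p =>
        (lt_of_lt_of_le (by norm_num) (le_max_right p.1 (1 / 3 : ℝ))).ne'
    exact (((cφ.comp continuous_fst).mul (cφ.comp h1)).mul (cφ.comp continuous_snd)).mul
      (continuous_kp3 N M)
  have eG : ∀ v w : ℝ, v ∈ Set.Icc (1 / 3 : ℝ) 3 → w ∈ Set.Icc (1 / 3 : ℝ) 3 →
      G v w = ‖FT s ν v‖ * ‖FT s ν (w / v)‖ * ‖FT s ν w‖ * kp3 N M v w := by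
    intro v w hv hw
    have hv0 : 0 < v := by linarith [hv.1]
    have h1 : 1 / 10 ≤ w / v := by
      rw [le_div_iff₀ hv0]
      linarith [hv.2, hw.1]
    simp only [hG]
    rw [max_eq_left hv.1, eφ v (by linarith [hv.1]), eφ w (by linarith [hw.1]), eφ _ h1]
  have eT : Tri N M (fun v => ‖FT s ν v‖) =
      ∫ v in (1 / 3 : ℝ)..3, ∫ w in (1 / 3 : ℝ)..3, G v w := by
    unfold Tri
    apply intervalIntegral.integral_congr
    intro v hv
    rw [Set.uIcc_of_le (by norm_num)] at hv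
    apply intervalIntegral.integral_congr
    intro w hw
    rw [Set.uIcc_of_le (by norm_num)] at hw
    exact (eG v w hv hw).symm
  have hb : ‖∫ v in (1 / 3 : ℝ)..3, ∫ w in (1 / 3 : ℝ)..3,
      ∑ i ∈ (s ×ˢ s ×ˢ s) ×ˢ (Ms M ×ˢ Ms M ×ˢ Ms M), tm N ν i v w‖ ≤
      ∫ v in (1 / 3 : ℝ)..3, C * ∫ w in (1 / 3 : ℝ)..3, G v w := by
    refine intervalIntegral.norm_integral_le_of_norm_le (by norm_num)
      (Filter.Eventually.of_forall fun v hv => ?_) ?_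
    · rw [← intervalIntegral.integral_const_mul]
      refine intervalIntegral.norm_integral_le_of_norm_le (by norm_num)
        (Filter.Eventually.of_forall fun w hw => ?_) ?_
      · have hv' : v ∈ Set.Icc (1 / 3 : ℝ) 3 := ⟨hv.1.le, hv.2⟩
        have hw' : w ∈ Set.Icc (1 / 3 : ℝ) 3 := ⟨hw.1.le, hw.2⟩
        rw [sum_tm N M s ν hv'.1 hw'.1, eG v w hv' hw', norm_mul, norm_mul, norm_mul,
          norm_FT_inv]
        have h1 : ‖∑ m ∈ Ms M ×ˢ Ms M ×ˢ Ms M,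
            R3 v w ((m.1 : ℝ) * N * v + (m.2.1 : ℝ) * N * w + (m.2.2 : ℝ) * N)‖ ≤
            C * kp3 N M v w := by
          refine (norm_sum_le _ _).trans ?_
          unfold kp3
          rw [sum_product, mul_sum]
          refine sum_le_sum fun m₁ _ => ?_
          rw [sum_product, mul_sum]
          refine sum_le_sum fun m₂ _ => ?_
          rw [mul_sum]
          refine sum_le_sum fun m₃ _ => ?_
          rw [R3_eq, show (N : ℝ) * ((m₁ : ℝ) * v + (m₂ : ℝ) * w + (m₃ : ℝ)) =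
            (m₁ : ℝ) * N * v + (m₂ : ℝ) * N * w + (m₃ : ℝ) * N by ring]
          exact (hR v w _ hv' hw').2
        calc _ ≤ ‖FT s ν v‖ * ‖FT s ν (w / v)‖ * ‖FT s ν w‖ * (C * kp3 N M v w) := by
              gcongr
          _ = _ := by ring
      · exact (continuous_const.mul
          (cG.comp (f := fun w : ℝ => (v, w)) (by fun_prop))).intervalIntegrable _ _
    · exact (continuous_const.mul
        (intervalIntegral.continuous_parametric_intervalIntegral_of_continuous' cG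
          _ _)).intervalIntegrable _ _
  rw [Q3_eq, norm_mul, norm_pow, Complex.norm_natCast, eT]
  rw [intervalIntegral.integral_const_mul] at hb
  calc _ ≤ (N : ℝ) ^ 3 * (C * ∫ v in (1 / 3 : ℝ)..3, ∫ w in (1 / 3 : ℝ)..3, G v w) := by
        gcongr
    _ = _ := by ring

end Pool.Agent.MP_2a1f0e_nt.GM

end

section

set_option autoImplicit false
open Finset
namespace Pool.Agent.MP_2a1f0e_nt.GM

lemma mono_Sym {f g : ℝ → ℝ} {a b : ℝ} (hab : a ≤ b) (hf : ∀ x, 0 ≤ f x)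
    (hg : ContinuousOn g (Set.Icc a b)) (h : ∀ x ∈ Set.Icc a b, f x ≤ g x) :
    ∫ x in a..b, f x ≤ ∫ x in a..b, g x := by
  rw [intervalIntegral.integral_of_le hab, intervalIntegral.integral_of_le hab]
  exact MeasureTheory.integral_mono_of_nonneg (MeasureTheory.ae_of_all _ hf)
    (hg.integrableOn_Icc.mono_set Set.Ioc_subset_Icc_self)
    ((MeasureTheory.ae_restrict_iff' measurableSet_Ioc).2
      (MeasureTheory.ae_of_all _ fun x hx => h x (Set.Ioc_subset_Icc_self hx)))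

lemma le_II_Sym {f : ℝ → ℝ} {a b : ℝ} (ha : 1 / 9 ≤ a) (hab : a ≤ b) (hb : b ≤ 82 / 9)
    (hf : ∀ x, 0 ≤ f x) (hc : Continuous f) : ∫ x in a..b, f x ≤ II f :=
  intervalIntegral.integral_mono_interval ha hab hb (MeasureTheory.ae_of_all _ hf)
    (hc.intervalIntegrable _ _)

lemma II_congr_Sym {f g : ℝ → ℝ} (h : ∀ x, 1 / 9 ≤ x → f x = g x) : II f = II g :=
  intervalIntegral.integral_congr fun x hx => h x (by
    rw [Set.uIcc_of_le (by norm_num)] at hx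
    exact hx.1)

lemma inv_cont_Sym {K : ℝ → ℝ} (hK : Continuous K) :
    ContinuousOn (fun v : ℝ => K v⁻¹ * (v ^ 2)⁻¹) (Set.Icc (1 / 3) 3) := by
  have h : ∀ x ∈ Set.Icc (1 / 3 : ℝ) 3, x ≠ 0 := fun x hx => by
    have := hx.1
    positivity
  exact (hK.comp_continuousOn (continuousOn_id.inv₀ h)).mul
    ((continuousOn_id.pow 2).inv₀ fun x hx => pow_ne_zero 2 (h x hx))

lemma inv_int_Sym {K : ℝ → ℝ} (hK : Continuous K) :
    ∫ v in (1 / 3 : ℝ)..3, K v⁻¹ * (v ^ 2)⁻¹ = ∫ v in (1 / 3 : ℝ)..3, K v := by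
  have h : ∀ x ∈ Set.uIcc (1 / 3 : ℝ) 3, x ≠ 0 := fun x hx => by
    rw [Set.uIcc_of_le (by norm_num)] at hx
    have := hx.1
    positivity
  have h1 := intervalIntegral.integral_comp_mul_deriv (f := fun x : ℝ => x⁻¹)
    (f' := fun x : ℝ => -(x ^ 2)⁻¹) (fun x hx => hasDerivAt_inv (h x hx))
    (((continuousOn_id.pow 2).inv₀ fun x hx => pow_ne_zero 2 (h x hx)).neg) hK
  simp only [Function.comp_apply, mul_neg, intervalIntegral.integral_neg] at h1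
  rw [show ((1 / 3 : ℝ))⁻¹ = 3 by norm_num, show ((3 : ℝ))⁻¹ = 1 / 3 by norm_num,
    intervalIntegral.integral_symm (1 / 3) 3] at h1
  exact neg_injective h1

lemma kp3_le_Sym {C : ℝ} {N : ℕ} (h : ∀ (y : ℝ) (s : Finset ℤ),
    ∑ a ∈ s, kp ((N : ℝ) * (y + a)) ≤ C * Ph N y) (M : ℕ) (v w : ℝ) :
    kp3 N M v w ≤ C * rho2 N M v w := by
  unfold kp3 rho2
  rw [mul_sum]
  refine sum_le_sum fun m _ => ?_
  rw [mul_sum]
  exact sum_le_sum fun m' _ => h _ _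

lemma kp3_swap_Sym (N M : ℕ) {v : ℝ} (hv : 1 / 3 ≤ v) (w : ℝ) :
    kp3 N M v w ≤ 9 * kp3 N M v⁻¹ (w / v) := by
  have hv0 : 0 < v := by positivity
  unfold kp3
  rw [sum_comm, sum_congr rfl fun _ _ => sum_comm, sum_comm, mul_sum]
  refine sum_le_sum fun a _ => ?_
  rw [mul_sum]
  refine sum_le_sum fun b _ => ?_
  rw [mul_sum]
  refine sum_le_sum fun c _ => ?_
  have e : (N : ℝ) * ((c : ℝ) * v + (b : ℝ) * w + (a : ℝ)) =
      v * ((N : ℝ) * ((a : ℝ) * v⁻¹ + (b : ℝ) * (w / v) + (c : ℝ))) := by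
    field_simp
    ring
  rw [e]
  refine (kp_mul_le (A := 3) (by norm_num) (by rw [abs_of_pos hv0]; linarith) _).trans_eq ?_
  norm_num

lemma int_le_Sym {f H₁ H₂ : ℝ → ℝ} {a b v : ℝ} (hf : ∀ x, 0 ≤ f x) (c1 : Continuous H₁)
    (c2 : Continuous H₂) (n1 : ∀ x, 0 ≤ H₁ x) (n2 : ∀ x, 0 ≤ H₂ x) (ha : 0 ≤ a) (hb : 0 ≤ b)
    (hv : v ∈ Set.Icc (1 / 3 : ℝ) 3)
    (h : ∀ w ∈ Set.Icc (1 / 3 : ℝ) 3, f w ≤ a * H₁ w + b * H₂ (w / v)) :
    ∫ w in (1 / 3 : ℝ)..3, f w ≤ a * II H₁ + 3 * b * II H₂ := by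
  obtain ⟨hv1, hv2⟩ := hv
  have hv0 : 0 < v := by positivity
  have c3 : Continuous fun w => a * H₁ w := by fun_prop
  have c4 : Continuous fun w => b * H₂ (w / v) := by fun_prop
  refine (mono_Sym (by norm_num) hf (c3.fun_add c4).continuousOn h).trans ?_
  rw [intervalIntegral.integral_add (c3.intervalIntegrable _ _) (c4.intervalIntegrable _ _),
    intervalIntegral.integral_const_mul, intervalIntegral.integral_const_mul,
    intervalIntegral.integral_comp_div H₂ hv0.ne', smul_eq_mul]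
  have d1 := le_II_Sym (a := 1 / 3) (b := 3) (by norm_num) (by norm_num) (by norm_num) n1 c1
  have d2 := le_II_Sym (a := 1 / 3 / v) (b := 3 / v) (by rw [le_div_iff₀ hv0]; linarith)
    (div_le_div_of_nonneg_right (by norm_num) hv0.le) (by rw [div_le_iff₀ hv0]; linarith) n2 c2
  have d4 := (mul_le_mul_of_nonneg_left d2 hv0.le).trans
    (mul_le_mul_of_nonneg_right hv2 (II_nonneg n2))
  have d5 := mul_le_mul_of_nonneg_left d1 ha
  have d6 := mul_le_mul_of_nonneg_left d4 hb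
  linarith

lemma alg_Sym {p x y k r s C : ℝ} (hp : 0 ≤ p) (hk : 0 ≤ k)
    (h1 : k ≤ C * r) (h2 : k ≤ 9 * (C * s)) :
    p * x * y * k ≤ p * C * (y ^ 2 * r) + 9 * (p * C) * (x ^ 2 * s) := by
  have k3 : x * y ≤ y ^ 2 + x ^ 2 := by nlinarith [sq_nonneg (y - x), sq_nonneg (y + x)]
  have k4 := mul_le_mul_of_nonneg_right k3 hk
  have k5 := mul_le_mul_of_nonneg_left h1 (sq_nonneg y)
  have k6 := mul_le_mul_of_nonneg_left h2 (sq_nonneg x)
  have k7 : x * y * k ≤ C * (y ^ 2 * r) + 9 * C * (x ^ 2 * s) := by linarith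
  have k8 := mul_le_mul_of_nonneg_left k7 hp
  linarith

section Abs

variable {C : ℝ} {k R : ℝ → ℝ → ℝ} {φ ψ : ℝ → ℝ}

lemma inner_Sym (hC : 0 < C) (hR : Continuous fun p : ℝ × ℝ => R p.1 p.2) (R0 : ∀ v w, 0 ≤ R v w)
    (k0 : ∀ v w, 0 ≤ k v w) (h1 : ∀ v w, k v w ≤ C * R v w)
    (h2 : ∀ v, 1 / 3 ≤ v → ∀ w, k v w ≤ 9 * k v⁻¹ (w / v)) (hφ : ∀ v, 0 ≤ φ v)
    (hψ : Continuous ψ) (he : ∀ x, 1 / 9 ≤ x → φ x = ψ x) {v : ℝ}
    (hv : v ∈ Set.Icc (1 / 3 : ℝ) 3) :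
    ∫ w in (1 / 3 : ℝ)..3, φ v * φ (w / v) * φ w * k v w ≤
      φ v * C * (II fun x => ψ x ^ 2 * R v x) +
        3 * (9 * (φ v * C)) * (II fun x => ψ x ^ 2 * R v⁻¹ x) := by
  have hv0 : 0 < v := lt_of_lt_of_le (by norm_num) hv.1
  have c1 : ∀ y : ℝ, Continuous fun x => ψ x ^ 2 * R y x := fun y =>
    (hψ.fun_pow 2).fun_mul (hR.comp (Continuous.prodMk_right y))
  have n1 : ∀ y x : ℝ, 0 ≤ ψ x ^ 2 * R y x := fun y x => mul_nonneg (sq_nonneg _) (R0 _ _)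
  have p0 := mul_nonneg (hφ v) hC.le
  refine int_le_Sym (fun w => mul_nonneg (mul_nonneg (mul_nonneg (hφ _) (hφ _)) (hφ _)) (k0 _ _))
    (c1 v) (c1 v⁻¹) (n1 v) (n1 v⁻¹) p0 (mul_nonneg (by norm_num) p0) hv fun w hw => ?_
  have b1 : 1 / 9 ≤ w / v := by
    rw [le_div_iff₀ hv0]
    linarith [hw.1, hv.2]
  rw [← he w (by linarith [hw.1]), ← he _ b1]
  exact alg_Sym (hφ _) (k0 _ _) (h1 v w)
    ((h2 v hv.1 w).trans (mul_le_mul_of_nonneg_left (h1 v⁻¹ (w / v)) (by norm_num)))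

lemma main_Sym (hC : 0 < C) (hR : Continuous fun p : ℝ × ℝ => R p.1 p.2) (R0 : ∀ v w, 0 ≤ R v w)
    (k0 : ∀ v w, 0 ≤ k v w) (h1 : ∀ v w, k v w ≤ C * R v w)
    (h2 : ∀ v, 1 / 3 ≤ v → ∀ w, k v w ≤ 9 * k v⁻¹ (w / v)) (hφc : ContinuousOn φ (Set.Ioi 0))
    (hφ : ∀ v, 0 ≤ φ v) (hφi : ∀ v, φ v⁻¹ = φ v) :
    ∫ v in (1 / 3 : ℝ)..3, ∫ w in (1 / 3 : ℝ)..3, φ v * φ (w / v) * φ w * k v w ≤
      244 * C * II fun v => II fun w => φ v * φ w ^ 2 * R v w := by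
  obtain ⟨ψ, hψ, hψ0, he⟩ : ∃ ψ : ℝ → ℝ, Continuous ψ ∧ (∀ x, 0 ≤ ψ x) ∧
      ∀ x, 1 / 9 ≤ x → φ x = ψ x :=
    ⟨fun x => φ (max x (1 / 9)), hφc.comp_continuous (continuous_id.max continuous_const)
      fun x => lt_max_of_lt_right (show (0 : ℝ) < 1 / 9 by norm_num), fun x => hφ _,
      fun x hx => congrArg φ (max_eq_left hx).symm⟩
  obtain ⟨K, hK⟩ : ∃ K : ℝ → ℝ, ∀ y, K y = ψ y * II fun x => ψ x ^ 2 * R y x := ⟨_, fun _ => rfl⟩
  have c0 : Continuous fun p : ℝ × ℝ => ψ p.2 ^ 2 * R p.1 p.2 :=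
    ((hψ.comp continuous_snd).fun_pow 2).fun_mul hR
  have hKc : Continuous K := funext hK ▸ hψ.fun_mul
    (intervalIntegral.continuous_parametric_intervalIntegral_of_continuous'
      (f := fun y x => ψ x ^ 2 * R y x) c0 _ _)
  have hK0 : ∀ y, 0 ≤ K y := fun y => hK y ▸ mul_nonneg (hψ0 y)
    (II_nonneg fun x => mul_nonneg (sq_nonneg _) (R0 _ _))
  have hP : (II fun v => II fun w => φ v * φ w ^ 2 * R v w) = II K := by
    refine II_congr_Sym fun v hv => ?_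
    rw [hK]
    refine (II_congr_Sym fun w hw => ?_).trans (intervalIntegral.integral_const_mul _ _)
    rw [he v hv, he w hw, mul_assoc]
  have c1 : Continuous fun v => C * K v := by fun_prop
  have c2 : ContinuousOn (fun v => 243 * C * (K v⁻¹ * (v ^ 2)⁻¹)) (Set.Icc (1 / 3 : ℝ) 3) :=
    continuousOn_const.fun_mul (inv_cont_Sym hKc)
  have h3 : ∫ v in (1 / 3 : ℝ)..3, ∫ w in (1 / 3 : ℝ)..3, φ v * φ (w / v) * φ w * k v w ≤
      ∫ v in (1 / 3 : ℝ)..3, (C * K v + 243 * C * (K v⁻¹ * (v ^ 2)⁻¹)) := by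
    refine mono_Sym (by norm_num) (fun v => intervalIntegral.integral_nonneg (by norm_num)
      fun w _ => mul_nonneg (mul_nonneg (mul_nonneg (hφ _) (hφ _)) (hφ _)) (k0 _ _))
      (c1.continuousOn.fun_add c2)
      fun v hv => (inner_Sym hC hR R0 k0 h1 h2 hφ hψ he hv).trans ?_
    obtain ⟨hv1, hv2⟩ := hv
    have hv0 : 0 < v := by positivity
    have e1 : φ v = ψ v := he v (by linarith)
    have e2 : φ v = ψ v⁻¹ := by
      rw [← hφi, he]
      rw [le_inv_comm₀ (by norm_num) hv0]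
      linarith
    have e3 : 1 ≤ 9 * (v ^ 2)⁻¹ := by
      rw [← div_eq_mul_inv, le_div_iff₀ (by positivity)]
      nlinarith
    have e4 := mul_le_mul_of_nonneg_left e3 (mul_nonneg hC.le (hK0 v⁻¹))
    have e5 : C * K v = C * (φ v * II fun x => ψ x ^ 2 * R v x) := by rw [hK, e1]
    have e6 : C * K v⁻¹ = C * (φ v * II fun x => ψ x ^ 2 * R v⁻¹ x) := by rw [hK, e2]
    linarith
  rw [intervalIntegral.integral_add (c1.intervalIntegrable _ _)
    (c2.intervalIntegrable_of_Icc (by norm_num)), intervalIntegral.integral_const_mul,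
    intervalIntegral.integral_const_mul, inv_int_Sym hKc] at h3
  have h4 := mul_le_mul_of_nonneg_left
    (le_II_Sym (a := 1 / 3) (b := 3) (by norm_num) (by norm_num) (by norm_num) hK0 hKc) hC.le
  rw [hP]
  linarith

end Abs

theorem sym_stmt (hM : PhMajStmt) : SymStmt := by
  obtain ⟨C, hC, hM⟩ := hM
  exact ⟨244 * C, by positivity, fun N M hN φ hφc hφ hφi =>
    main_Sym (k := kp3 N M) (R := rho2 N M) hC (continuous_rho2 N M) (rho2_nonneg N M)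
      (kp3_nonneg N M) (kp3_le_Sym (hM N hN) M) (fun _ hv => kp3_swap_Sym N M hv) hφc hφ hφi⟩

end Pool.Agent.MP_2a1f0e_nt.GM

end

section

set_option autoImplicit false

open Finset

namespace Pool.Agent.MP_2a1f0e_nt.GM

lemma II_lin_QSt {f g : ℝ → ℝ} (hf : ContinuousOn f (Set.Icc (1 / 9 : ℝ) (82 / 9)))
    (hg : ContinuousOn g (Set.Icc (1 / 9 : ℝ) (82 / 9))) (a b : ℝ) :
    II (fun v => a * f v + b * g v) = a * II f + b * II g := by
  unfold II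
  rw [intervalIntegral.integral_add
    ((hf.intervalIntegrable_of_Icc (by norm_num)).const_mul a)
    ((hg.intervalIntegrable_of_Icc (by norm_num)).const_mul b),
    intervalIntegral.integral_const_mul, intervalIntegral.integral_const_mul]

lemma II_cs_QSt {f : ℝ → ℝ} (hf : ContinuousOn f (Set.Icc (1 / 9 : ℝ) (82 / 9))) :
    II f ^ 2 ≤ 9 * II fun v => f v ^ 2 := by
  have h1 : II (fun _ => 1) = 9 := by
    unfold II
    rw [intervalIntegral.integral_const]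
    norm_num
  have h2 := II_mono (f := fun v => 2 * (II f / 9) * f v + -(II f / 9) ^ 2 * 1)
    (g := fun v => f v ^ 2)
    ((continuousOn_const.mul hf).add continuousOn_const) (hf.pow 2)
    fun v _ => by nlinarith [sq_nonneg (f v - II f / 9)]
  rw [II_lin_QSt hf continuousOn_const, h1] at h2
  nlinarith

lemma pt_QSt {p r B M : ℝ} (hp : 0 ≤ p) (hB : 0 ≤ B) (hM : 1 ≤ M) (h1 : r ≤ 4 * M)
    (h2 : p ≤ B * (1 + r)) : (p ^ 2) ^ 2 ≤ 2 * B ^ 2 * p ^ 2 + 50 * B ^ 4 * M ^ 2 * r ^ 2 := by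
  have a1 : p ^ 2 ≤ (B * (1 + r)) ^ 2 := pow_le_pow_left₀ hp h2 2
  have a2 : p ≤ 5 * B * M := h2.trans (by nlinarith)
  have a3 : p ^ 2 ≤ (5 * B * M) ^ 2 := pow_le_pow_left₀ hp a2 2
  have a4 : (B * (1 + r)) ^ 2 ≤ 2 * B ^ 2 + 2 * B ^ 2 * r ^ 2 := by
    nlinarith [mul_nonneg (sq_nonneg B) (sq_nonneg (1 - r))]
  have a5 := mul_le_mul_of_nonneg_right (a1.trans a4) (sq_nonneg p)
  have a6 := mul_le_mul_of_nonneg_left a3 (by positivity : 0 ≤ 2 * B ^ 2 * r ^ 2)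
  nlinarith

theorem q_stmt (h3 : ThreeStmt) (hS : SymStmt) (hP : PairStmt) (hR : RhoStmt) (hPar : ParStmt) :
    QStmt := by
  obtain ⟨C₃, c₃, h3⟩ := h3
  obtain ⟨C₄, c₄, hS⟩ := hS
  obtain ⟨C₅, c₅, hP⟩ := hP
  obtain ⟨C₆, c₆, hR⟩ := hR
  refine ⟨C₃ * C₄ * C₅ * (1440 + 8 * (50 * C₆ + 1)), by positivity,
    fun N M Δ B X s ν hN hD hB hM hpt hX => ?_⟩
  have hφ : ContinuousOn (fun v => ‖FT s ν v‖) (Set.Ioi 0) := (continuousOn_FT s ν).norm
  have hφ' := hφ.mono Icc_sub_Ioi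
  have hφ2 : ContinuousOn (fun v => ‖FT s ν v‖ ^ 2) (Set.Icc (1 / 9 : ℝ) (82 / 9)) := hφ'.pow 2
  have hX0 : 0 ≤ X := (sum_nonneg fun _ _ => sq_nonneg _).trans hX
  have hΔ : 0 ≤ Δ := zero_le_one.trans hD.1
  have hN0 : (0 : ℝ) < N := by exact_mod_cast hN
  have hM1 : (1 : ℝ) ≤ M := by exact_mod_cast hM
  have a1 := h3 N M hN s ν
  have a2 := hS N M hN _ hφ (fun _ => norm_nonneg _) (norm_FT_inv s ν)
  have a3 := hP N M Δ hN hD _ _ hφ' hφ2 (fun _ => norm_nonneg _) fun _ => sq_nonneg _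
  have a4 := (hR N M Δ hN hD).2
  have b2 : II (fun v => ‖FT s ν v‖ ^ 2) ≤ 60 * X := (hPar s ν).trans (by linarith)
  have sX : √X ^ 2 = X := Real.sq_sqrt hX0
  have sX0 := Real.sqrt_nonneg X
  have b1 : II (fun v => ‖FT s ν v‖) ≤ 24 * √X := by
    refine (sq_le_sq₀ (II_nonneg fun _ => norm_nonneg _) (by positivity)).1 ?_
    have := II_cs_QSt hφ'
    rw [mul_pow, sX]
    linarith
  set R : ℝ := (M : ℝ) ^ 2 / (N : ℝ) ^ 2 + M * Δ / N with hRdef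
  have hR0 : 0 ≤ R := by positivity
  have sR : √R ^ 2 = R := Real.sq_sqrt hR0
  have sR0 := Real.sqrt_nonneg R
  have b3 : √(II fun v => ‖FT s ν v‖ ^ 2) ≤ 8 * √X :=
    Real.sqrt_le_iff.2 ⟨by positivity, by rw [mul_pow, sX]; linarith⟩
  have b4 : II (fun v => (‖FT s ν v‖ ^ 2) ^ 2) ≤
      2 * B ^ 2 * (60 * X) + 50 * B ^ 4 * (M : ℝ) ^ 2 * (C₆ * R) := by
    have hρ : ContinuousOn (fun v => rho N M v ^ 2) (Set.Icc (1 / 9 : ℝ) (82 / 9)) :=
      ((continuous_rho N M).pow 2).continuousOn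
    have := II_mono (f := fun v => (‖FT s ν v‖ ^ 2) ^ 2)
      (g := fun v => 2 * B ^ 2 * ‖FT s ν v‖ ^ 2 + 50 * B ^ 4 * (M : ℝ) ^ 2 * rho N M v ^ 2)
      (hφ2.pow 2) ((continuousOn_const.mul hφ2).add (continuousOn_const.mul hρ))
      fun v hv => pt_QSt (norm_nonneg _) hB hM1 (rho_le N M v) (hpt v hv)
    rw [II_lin_QSt hφ2 hρ] at this
    exact this.trans (add_le_add (mul_le_mul_of_nonneg_left b2 (by positivity))
      (mul_le_mul_of_nonneg_left a4 (by positivity)))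
  have b5 : √(II fun v => (‖FT s ν v‖ ^ 2) ^ 2) ≤
      11 * B * √X + (50 * C₆ + 1) * B ^ 2 * M * √R := by
    refine Real.sqrt_le_iff.2 ⟨by positivity, b4.trans ?_⟩
    have e : (11 * B * √X + (50 * C₆ + 1) * B ^ 2 * M * √R) ^ 2 =
        121 * B ^ 2 * X + (50 * C₆ + 1) ^ 2 * (B ^ 4 * (M : ℝ) ^ 2 * R) +
          2 * (11 * B * √X) * ((50 * C₆ + 1) * B ^ 2 * M * √R) := by
      linear_combination 121 * B ^ 2 * sX + (50 * C₆ + 1) ^ 2 * (B ^ 4 * (M : ℝ) ^ 2) * sR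
    have e1 : 0 ≤ 2 * (11 * B * √X) * ((50 * C₆ + 1) * B ^ 2 * M * √R) := by positivity
    have e2 : 50 * C₆ * (B ^ 4 * (M : ℝ) ^ 2 * R) ≤
        (50 * C₆ + 1) ^ 2 * (B ^ 4 * (M : ℝ) ^ 2 * R) :=
      mul_le_mul_of_nonneg_right (by nlinarith) (by positivity)
    have e3 : 0 ≤ B ^ 2 * X := by positivity
    rw [e]
    nlinarith
  have d1 : (M : ℝ) ^ 2 / N * II (fun v => ‖FT s ν v‖) * II (fun v => ‖FT s ν v‖ ^ 2) ≤
      (M : ℝ) ^ 2 / N * (24 * √X) * (60 * X) :=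
    mul_le_mul (mul_le_mul_of_nonneg_left b1 (by positivity)) b2
      (II_nonneg fun _ => sq_nonneg _) (by positivity)
  have d2 : M * Δ / N * √(II fun v => ‖FT s ν v‖ ^ 2) * √(II fun v => (‖FT s ν v‖ ^ 2) ^ 2) ≤
      M * Δ / N * (8 * √X) * (11 * B * √X + (50 * C₆ + 1) * B ^ 2 * M * √R) :=
    mul_le_mul (mul_le_mul_of_nonneg_left b3 (by positivity)) b5 (Real.sqrt_nonneg _)
      (by positivity)
  have d3 := a1.trans (mul_le_mul_of_nonneg_left (a2.trans (mul_le_mul_of_nonneg_left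
    (a3.trans (mul_le_mul_of_nonneg_left (add_le_add d1 d2) c₅.le)) c₄.le)) (by positivity))
  refine d3.trans ?_
  have e : C₃ * (N : ℝ) ^ 3 * (C₄ * (C₅ * ((M : ℝ) ^ 2 / N * (24 * √X) * (60 * X) +
      M * Δ / N * (8 * √X) * (11 * B * √X + (50 * C₆ + 1) * B ^ 2 * M * √R)))) =
      C₃ * C₄ * C₅ * (N : ℝ) ^ 2 * (1440 * ((M : ℝ) ^ 2 * (X * √X)) +
        88 * (M * Δ * B * √X ^ 2) + 8 * (50 * C₆ + 1) * ((M : ℝ) ^ 2 * Δ * B ^ 2 * √X * √R)) := by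
    field_simp
    ring
  rw [e, sX, mul_right_comm _ (1440 + 8 * (50 * C₆ + 1)), mul_assoc _ (1440 + 8 * (50 * C₆ + 1))]
  refine mul_le_mul_of_nonneg_left ?_ (by positivity)
  have g1 : 0 ≤ (M : ℝ) ^ 2 * (X * √X) := by positivity
  have g2 : 0 ≤ M * Δ * B * X := by positivity
  have g3 : 0 ≤ (M : ℝ) ^ 2 * Δ * B ^ 2 * √X * √R := by positivity
  nlinarith [mul_nonneg c₆.le g1, mul_nonneg c₆.le g2]

end Pool.Agent.MP_2a1f0e_nt.GM

end

section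

set_option autoImplicit false
open Finset
namespace Pool.Agent.MP_2a1f0e_nt.GM

theorem core_Num {C P τ n x M Δ B s : ℝ} (hC : 1 ≤ C) (hP : 1 ≤ P) (hn : 0 < n) (hτ : 0 < τ)
    (h5 : τ ^ 5 ≤ n ^ 3) (hx : 0 ≤ x) (hM0 : 0 ≤ M) (hM : M * n ^ 2 ≤ C * P * τ ^ 4)
    (hΔ0 : 0 ≤ Δ) (hΔ : Δ ≤ C * P) (hB0 : 0 ≤ B) (hB : B ≤ C * P * n ^ 4) (hs0 : 0 ≤ s)
    (hs : s * n ^ 2 ≤ 2 * (C * P) * τ ^ 2)
    (h : x ^ 6 ≤ C * n ^ 6 * (n ^ 4 * (M ^ 2 * x ^ 3 + M * Δ * B * x ^ 2 +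
      M ^ 2 * Δ * B ^ 2 * x * s) + P * (τ ^ 4 * n ^ 6) * x ^ 2)) :
    x ^ 2 ≤ 5 * C ^ 7 * P ^ 6 * (τ * n ^ 3) ^ 2 := by
  have hQ : 1 ≤ C * P := one_le_mul_of_one_le_of_one_le hC hP
  have hPQ : P ≤ C * P := le_mul_of_one_le_left (by linarith) hC
  have e7 : 5 * C ^ 7 * P ^ 6 = C * (5 * (C * P) ^ 6) := by ring
  rw [e7]
  generalize C * P = Q at *
  have hz : 0 < τ * n ^ 3 := by positivity
  have q6 : 1 ≤ Q ^ 6 := one_le_pow₀ hQ
  by_contra hc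
  rw [not_le] at hc
  have hzx : τ * n ^ 3 ≤ x := by
    refine le_of_lt (lt_of_pow_lt_pow_left₀ 2 hx (lt_of_le_of_lt ?_ hc))
    refine le_mul_of_one_le_left (by positivity) ?_
    nlinarith
  have hx0 : 0 < x := hz.trans_le hzx
  have t1 : n ^ 6 * n ^ 4 * (M ^ 2 * x ^ 3) ≤ Q ^ 6 * ((τ * n ^ 3) ^ 2 * x ^ 4) :=
    calc _ = n ^ 6 * (M * n ^ 2) ^ 2 * x ^ 3 := by ring
      _ ≤ n ^ 6 * (Q * τ ^ 4) ^ 2 * x ^ 3 := by gcongr
      _ = Q ^ 2 * (τ ^ 5 * (τ ^ 3 * n ^ 6 * x ^ 3)) := by ring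
      _ ≤ Q ^ 6 * (n ^ 3 * (τ ^ 3 * n ^ 6 * x ^ 3)) := by gcongr; norm_num
      _ = Q ^ 6 * ((τ * n ^ 3) ^ 2 * ((τ * n ^ 3) * x ^ 3)) := by ring
      _ ≤ Q ^ 6 * ((τ * n ^ 3) ^ 2 * (x * x ^ 3)) := by gcongr
      _ = _ := by ring
  have t0 : (τ * n ^ 3) ^ 4 * x ^ 2 ≤ (τ * n ^ 3) ^ 2 * x ^ 4 :=
    calc _ = (τ * n ^ 3) ^ 2 * ((τ * n ^ 3) ^ 2 * x ^ 2) := by ring
      _ ≤ (τ * n ^ 3) ^ 2 * (x ^ 2 * x ^ 2) := by gcongr
      _ = _ := by ring
  have t2 : n ^ 6 * n ^ 4 * (M * Δ * B * x ^ 2) ≤ Q ^ 6 * ((τ * n ^ 3) ^ 2 * x ^ 4) :=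
    calc _ = n ^ 8 * (M * n ^ 2) * Δ * B * x ^ 2 := by ring
      _ ≤ n ^ 8 * (Q * τ ^ 4) * Q * (Q * n ^ 4) * x ^ 2 := by gcongr
      _ = Q ^ 3 * ((τ * n ^ 3) ^ 4 * x ^ 2) := by ring
      _ ≤ _ := by gcongr; norm_num
  have t3 : n ^ 6 * n ^ 4 * (M ^ 2 * Δ * B ^ 2 * x * s) ≤
      2 * Q ^ 6 * ((τ * n ^ 3) ^ 2 * x ^ 4) :=
    calc _ = n ^ 4 * (M * n ^ 2) ^ 2 * Δ * B ^ 2 * x * (s * n ^ 2) := by ring
      _ ≤ n ^ 4 * (Q * τ ^ 4) ^ 2 * Q * (Q * n ^ 4) ^ 2 * x * (2 * Q * τ ^ 2) := by gcongr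
      _ = 2 * Q ^ 6 * (τ ^ 5 * (τ ^ 5 * n ^ 12 * x)) := by ring
      _ ≤ 2 * Q ^ 6 * (n ^ 3 * (τ ^ 5 * n ^ 12 * x)) := by gcongr
      _ = 2 * Q ^ 6 * ((τ * n ^ 3) ^ 2 * ((τ * n ^ 3) ^ 3 * x)) := by ring
      _ ≤ 2 * Q ^ 6 * ((τ * n ^ 3) ^ 2 * (x ^ 3 * x)) := by gcongr
      _ = _ := by ring
  have t4 : n ^ 6 * (P * (τ ^ 4 * n ^ 6) * x ^ 2) ≤ Q ^ 6 * ((τ * n ^ 3) ^ 2 * x ^ 4) :=
    calc _ = P * ((τ * n ^ 3) ^ 4 * x ^ 2) := by ring
      _ ≤ _ := by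
        gcongr
        exact hPQ.trans (le_self_pow₀ hQ (by norm_num))
  have t5 : x ^ 2 * x ^ 4 ≤ C * (5 * Q ^ 6) * (τ * n ^ 3) ^ 2 * x ^ 4 :=
    calc _ = x ^ 6 := by ring
      _ ≤ _ := h
      _ = C * (n ^ 6 * n ^ 4 * (M ^ 2 * x ^ 3) + n ^ 6 * n ^ 4 * (M * Δ * B * x ^ 2) +
          n ^ 6 * n ^ 4 * (M ^ 2 * Δ * B ^ 2 * x * s) +
          n ^ 6 * (P * (τ ^ 4 * n ^ 6) * x ^ 2)) := by ring
      _ ≤ C * (Q ^ 6 * ((τ * n ^ 3) ^ 2 * x ^ 4) + Q ^ 6 * ((τ * n ^ 3) ^ 2 * x ^ 4) +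
          2 * Q ^ 6 * ((τ * n ^ 3) ^ 2 * x ^ 4) + Q ^ 6 * ((τ * n ^ 3) ^ 2 * x ^ 4)) := by gcongr
      _ = _ := by ring
  exact absurd (le_of_mul_le_mul_right t5 (by positivity)) (not_le.2 hc)

theorem num_stmt : NumStmt := by
  intro δ C hδ hC
  refine ⟨5 * C ^ 7, by positivity, fun N T M Δ B X hN hT h5 hM hΔ1 hΔ hB0 hB hX h => ?_⟩
  have hN1 : (1 : ℝ) ≤ N := by exact_mod_cast hN
  have hT1 : (1 : ℝ) ≤ T := by exact_mod_cast hN.trans hT
  have h5' : (T : ℝ) ^ 5 ≤ (N : ℝ) ^ 6 := by exact_mod_cast h5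
  have hP : 1 ≤ (N : ℝ) ^ δ := Real.one_le_rpow hN1 hδ.le
  have e6 : (N : ℝ) ^ (6 * δ) = ((N : ℝ) ^ δ) ^ 6 := by
    rw [mul_comm, Real.rpow_mul (by linarith)]
    exact_mod_cast Real.rpow_natCast _ 6
  rw [e6]
  have hM0 : (0 : ℝ) ≤ M := Nat.cast_nonneg M
  generalize (N : ℝ) ^ δ = P at *
  generalize (M : ℝ) = M at *
  obtain ⟨n, hn, en⟩ : ∃ n : ℝ, 0 < n ∧ (N : ℝ) = n ^ 2 :=
    ⟨√N, Real.sqrt_pos.2 (by linarith), (Real.sq_sqrt (by linarith)).symm⟩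
  obtain ⟨τ, hτ, eT⟩ : ∃ τ : ℝ, 0 < τ ∧ (T : ℝ) = (τ ^ 2) ^ 2 :=
    ⟨√(√T), Real.sqrt_pos.2 (Real.sqrt_pos.2 (by linarith)), by
      rw [Real.sq_sqrt (Real.sqrt_nonneg _), Real.sq_sqrt (by linarith)]⟩
  obtain ⟨x, hx, rfl⟩ : ∃ x : ℝ, 0 ≤ x ∧ X = x ^ 2 :=
    ⟨√X, Real.sqrt_nonneg _, (Real.sq_sqrt hX).symm⟩
  rw [en, eT] at h hM h5' ⊢
  rw [en] at hB hN1
  rw [Real.sqrt_sq hx] at h
  rw [Real.sqrt_sq (by positivity)]
  have hQ : 0 < C * P := by positivity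
  have h53 : τ ^ 5 ≤ n ^ 3 :=
    le_of_pow_le_pow_left₀ (n := 4) (by norm_num) (by positivity) (by
      calc _ = ((τ ^ 2) ^ 2) ^ 5 := by ring
        _ ≤ _ := h5'
        _ = _ := by ring)
  have hTN : (τ ^ 2) ^ 2 ≤ (n ^ 2) ^ 2 :=
    le_of_pow_le_pow_left₀ (n := 5) (by norm_num) (by positivity) (h5'.trans (by
      rw [← pow_mul (n ^ 2)]
      exact pow_le_pow_right₀ hN1 (by norm_num)))
  have hM' : M * n ^ 2 ≤ C * P * τ ^ 4 := by
    rw [← mul_div_assoc, le_div_iff₀ (by positivity)] at hM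
    exact hM.trans_eq (by ring)
  have hs : √(M ^ 2 / (n ^ 2) ^ 2 + M * Δ / n ^ 2) * n ^ 2 ≤ 2 * (C * P) * τ ^ 2 := by
    rw [← le_div_iff₀ (by positivity)]
    refine Real.sqrt_le_iff.2 ⟨by positivity, ?_⟩
    have a1 : M ^ 2 / (n ^ 2) ^ 2 ≤ (C * P * τ ^ 2 / n ^ 2) ^ 2 := by
      rw [div_pow]
      refine div_le_div_of_nonneg_right (le_of_mul_le_mul_right ?_
        (show 0 < (n ^ 2) ^ 2 by positivity)) (by positivity)
      calc _ = (M * n ^ 2) ^ 2 := by ring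
        _ ≤ (C * P * τ ^ 4) ^ 2 := by gcongr
        _ = (C * P * τ ^ 2) ^ 2 * (τ ^ 2) ^ 2 := by ring
        _ ≤ _ := by gcongr
    have a2 : M * Δ / n ^ 2 ≤ (C * P * τ ^ 2 / n ^ 2) ^ 2 := by
      rw [div_pow, div_le_div_iff₀ (by positivity) (by positivity)]
      calc _ = M * n ^ 2 * Δ * n ^ 2 := by ring
        _ ≤ C * P * τ ^ 4 * (C * P) * n ^ 2 := by gcongr
        _ = _ := by ring
    calc _ ≤ (C * P * τ ^ 2 / n ^ 2) ^ 2 + (C * P * τ ^ 2 / n ^ 2) ^ 2 := add_le_add a1 a2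
      _ ≤ 4 * (C * P * τ ^ 2 / n ^ 2) ^ 2 := by nlinarith [sq_nonneg (C * P * τ ^ 2 / n ^ 2)]
      _ = _ := by ring
  have := core_Num hC hP hn hτ h53 hx hM0 hM' (by linarith) hΔ hB0 (hB.trans_eq (by ring))
    (Real.sqrt_nonneg _) hs (by
      calc _ = (x ^ 2) ^ 3 := by ring
        _ ≤ _ := h
        _ = _ := by ring)
  exact this.trans_eq (by ring)

end Pool.Agent.MP_2a1f0e_nt.GM

end

section

set_option autoImplicit false
open Finset
namespace Pool.Agent.MP_2a1f0e_nt.GM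

lemma small_IntS {y V T T₁ : ℝ} (hy : 1 ≤ y) (hV : 0 < V) (h4 : V ≤ y ^ 4) (h1 : T₁ ≤ y ^ 6)
    (h2 : y ^ 6 ≤ 2 * T₁) (h3 : T₁ ≤ T) :
    (T / T₁ + 1) * ((y ^ 5) ^ 2 + √T₁ * (y ^ 5) ^ 3 / V ^ 2) ≤ 8 * (T * y ^ 12 / V ^ 2) := by
  have hy0 : 0 < y := by linarith
  have h6 : 0 < y ^ 6 := by positivity
  have hT₁ : 0 < T₁ := by linarith
  have a1 : √T₁ ≤ y ^ 3 := Real.sqrt_le_iff.2 ⟨by positivity, by rw [← pow_mul]; exact h1⟩
  have a2 : (y ^ 5) ^ 2 ≤ y ^ 18 / V ^ 2 := by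
    rw [le_div_iff₀ (by positivity)]
    calc (y ^ 5) ^ 2 * V ^ 2 ≤ (y ^ 5) ^ 2 * (y ^ 4) ^ 2 := by gcongr
      _ = y ^ 18 := by ring
  have a3 : √T₁ * (y ^ 5) ^ 3 / V ^ 2 ≤ y ^ 18 / V ^ 2 := by
    calc √T₁ * (y ^ 5) ^ 3 / V ^ 2 ≤ y ^ 3 * (y ^ 5) ^ 3 / V ^ 2 := by gcongr
      _ = y ^ 18 / V ^ 2 := by ring
  have a4 : T / T₁ + 1 ≤ 4 * T / y ^ 6 := by
    have b1 : 1 ≤ T / T₁ := (one_le_div hT₁).2 h3
    have b2 : T / T₁ ≤ 2 * T / y ^ 6 := by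
      rw [div_le_div_iff₀ hT₁ h6]
      nlinarith
    have b3 : 4 * T / y ^ 6 = 2 * (2 * T / y ^ 6) := by ring
    linarith
  have hT : 0 < T := by linarith
  calc (T / T₁ + 1) * ((y ^ 5) ^ 2 + √T₁ * (y ^ 5) ^ 3 / V ^ 2)
      ≤ (4 * T / y ^ 6) * (y ^ 18 / V ^ 2 + y ^ 18 / V ^ 2) := by gcongr
    _ = 8 * (T * y ^ 12 / V ^ 2) := by field_simp; ring

lemma quart_IntS {y V : ℝ} (hy : 1 ≤ y) (h4 : y ^ 4 ≤ V) :
    (y ^ 5) ^ 4 / V ^ 4 ≤ y ^ 12 / V ^ 2 := by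
  have hy0 : 0 < y := by linarith
  have hV : 0 < V := lt_of_lt_of_le (by positivity) h4
  rw [div_le_div_iff₀ (by positivity) (by positivity)]
  calc (y ^ 5) ^ 4 * V ^ 2 = y ^ 12 * V ^ 2 * (y ^ 4) ^ 2 := by ring
    _ ≤ y ^ 12 * V ^ 2 * V ^ 2 := by gcongr
    _ = y ^ 12 * V ^ 4 := by ring

lemma long_IntS {y V T : ℝ} (hy : 1 ≤ y) (h4 : y ^ 4 ≤ V) (h5 : V ≤ 2 * y ^ 5)
    (hT : (y ^ 5) ^ 2 ≤ T) :
    (T / (y ^ 5) ^ 2 + 1) * ((y ^ 5) ^ 2 + (y ^ 5) ^ 2 * (y ^ 5) ^ 4 / V ^ 4) ≤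
      10 * (T * y ^ 12 / V ^ 2) := by
  have hy0 : 0 < y := by linarith
  have hV : 0 < V := lt_of_lt_of_le (by positivity) h4
  have hT0 : 0 < T := lt_of_lt_of_le (by positivity) hT
  have a1 : T / (y ^ 5) ^ 2 + 1 ≤ 2 * (T / (y ^ 5) ^ 2) := by
    have : 1 ≤ T / (y ^ 5) ^ 2 := (one_le_div (by positivity)).2 hT
    linarith
  have a2 := quart_IntS hy h4
  have a3 : 1 ≤ 4 * (y ^ 12 / V ^ 2) := by
    rw [← mul_div_assoc, one_le_div (by positivity)]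
    calc V ^ 2 ≤ (2 * y ^ 5) ^ 2 := by gcongr
      _ = 4 * y ^ 10 := by ring
      _ ≤ 4 * y ^ 12 := by gcongr; norm_num
  calc (T / (y ^ 5) ^ 2 + 1) * ((y ^ 5) ^ 2 + (y ^ 5) ^ 2 * (y ^ 5) ^ 4 / V ^ 4)
      ≤ 2 * (T / (y ^ 5) ^ 2) * ((y ^ 5) ^ 2 + (y ^ 5) ^ 2 * (y ^ 5) ^ 4 / V ^ 4) := by gcongr
    _ = 2 * T * (1 + (y ^ 5) ^ 4 / V ^ 4) := by field_simp
    _ ≤ 2 * T * (4 * (y ^ 12 / V ^ 2) + y ^ 12 / V ^ 2) := by gcongr
    _ = 10 * (T * y ^ 12 / V ^ 2) := by ring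

theorem int_stmt (h1 : B1Stmt) (h2 : B2Stmt) (hB : BlkStmt) : IntStmt := by
  intro ε hε
  obtain ⟨K₁, hK₁, h1⟩ := h1 ε hε
  obtain ⟨K₂, hK₂, h2⟩ := h2 ε hε
  refine ⟨8 * K₁ + 10 * K₂, by positivity, fun N T hN hT b hb V hV => ?_⟩
  have hN' : (1 : ℝ) ≤ N := by exact_mod_cast hN
  have hN0 : (0 : ℝ) < N := by linarith
  obtain ⟨y, hy, hNy, h12⟩ : ∃ y : ℝ, 1 ≤ y ∧ (N : ℝ) = y ^ 5 ∧ (N : ℝ) ^ (12 / 5 : ℝ) = y ^ 12 := by
    refine ⟨(N : ℝ) ^ (1 / 5 : ℝ), Real.one_le_rpow hN' (by norm_num), ?_, ?_⟩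
    · rw [← Real.rpow_natCast, ← Real.rpow_mul hN0.le]; norm_num
    · rw [← Real.rpow_natCast, ← Real.rpow_mul hN0.le]; norm_num
  have hy0 : 0 < y := by linarith
  have hP : 0 < (N : ℝ) ^ ε := Real.rpow_pos_of_pos hN0 ε
  rw [h12, add_div]
  have hG : 0 ≤ (T : ℝ) * y ^ 12 / V ^ 2 := by positivity
  have hA : 0 ≤ √(T : ℝ) * (N : ℝ) ^ 3 / V ^ 2 := by positivity
  have hN2 : 0 ≤ (N : ℝ) ^ 2 := by positivity
  have key : ∀ k Z : ℝ, 0 ≤ k → k ≤ 8 * K₁ + 10 * K₂ →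
      Z ≤ (N : ℝ) ^ 2 + (√T * (N : ℝ) ^ 3 / V ^ 2 + T * y ^ 12 / V ^ 2) →
      k * (N : ℝ) ^ ε * Z ≤ (8 * K₁ + 10 * K₂) * (N : ℝ) ^ ε *
        ((N : ℝ) ^ 2 + (√T * (N : ℝ) ^ 3 / V ^ 2 + T * y ^ 12 / V ^ 2)) := by
    intro k Z hk hk' hZ
    refine (mul_le_mul_of_nonneg_left hZ (by positivity)).trans ?_
    gcongr
  by_cases c1 : T ^ 5 ≤ N ^ 6
  · exact (h1 N T hN hT c1 b hb V hV).trans (key _ _ hK₁.le (by linarith) (by linarith))
  have hT6 : y ^ 6 < T := by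
    refine lt_of_pow_lt_pow_left₀ 5 (Nat.cast_nonneg T) ?_
    have : ((N : ℝ)) ^ 6 < (T : ℝ) ^ 5 := by exact_mod_cast not_le.1 c1
    rw [hNy] at this
    calc (y ^ 6) ^ 5 = (y ^ 5) ^ 6 := by ring
      _ < _ := this
  rcases le_total V (y ^ 4) with c2 | c2
  · have a1 : N ≤ ⌊y ^ 6⌋₊ := Nat.le_floor (by rw [hNy]; gcongr; norm_num)
    have a2 : (⌊y ^ 6⌋₊ : ℝ) ≤ y ^ 6 := Nat.floor_le (by positivity)
    have a3 : ⌊y ^ 6⌋₊ ^ 5 ≤ N ^ 6 := by
      have : (⌊y ^ 6⌋₊ : ℝ) ^ 5 ≤ (N : ℝ) ^ 6 := by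
        calc (⌊y ^ 6⌋₊ : ℝ) ^ 5 ≤ (y ^ 6) ^ 5 := by gcongr
          _ = (N : ℝ) ^ 6 := by rw [hNy]; ring
      exact_mod_cast this
    have a4 : y ^ 6 ≤ 2 * (⌊y ^ 6⌋₊ : ℝ) := by
      have b1 := Nat.lt_floor_add_one (y ^ 6)
      have b2 : (1 : ℝ) ≤ ⌊y ^ 6⌋₊ := by exact_mod_cast hN.trans a1
      linarith
    refine (hB N T _ V _ hN (hN.trans a1) (fun b hb => h1 N _ hN a1 a3 b hb V hV) b hb).trans ?_
    refine le_trans ?_ (key (8 * K₁) (T * y ^ 12 / V ^ 2) (by positivity) (by linarith)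
      (by linarith))
    have := mul_le_mul_of_nonneg_left (small_IntS hy hV c2 a2 a4 (a2.trans hT6.le))
      (mul_pos hK₁ hP).le
    rw [← hNy] at this
    linarith
  by_cases c3 : T ≤ N ^ 2
  · refine (h2 N T hN hT c3 b hb V hV).trans (key _ _ hK₂.le (by linarith) ?_)
    have := mul_le_mul_of_nonneg_left (quart_IntS hy c2) (Nat.cast_nonneg (α := ℝ) T)
    rw [← hNy, ← mul_div_assoc, ← mul_div_assoc] at this
    linarith
  by_cases c4 : V ≤ 2 * y ^ 5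
  · have a1 : N ≤ N ^ 2 := Nat.le_self_pow two_ne_zero N
    refine (hB N T _ V _ hN (hN.trans a1)
      (fun b hb => h2 N _ hN a1 le_rfl b hb V hV) b hb).trans ?_
    refine le_trans ?_ (key (10 * K₂) (T * y ^ 12 / V ^ 2) (by positivity) (by linarith)
      (by linarith))
    have a2 : (y ^ 5) ^ 2 ≤ (T : ℝ) := by
      rw [← hNy]; exact_mod_cast (not_le.1 c3).le
    have := mul_le_mul_of_nonneg_left (long_IntS hy c2 c4 a2) (mul_pos hK₂ hP).le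
    rw [← hNy] at this
    push_cast
    linarith
  · have : Mass N b (Icc 0 (T : ℤ)) V = 0 := by
      unfold Mass
      rw [filter_false_of_mem, sum_empty]
      intro t _ h
      have := norm_DP_le N b hb t
      rw [← hNy] at c4
      exact c4 (by linarith)
    rw [this]
    positivity

end Pool.Agent.MP_2a1f0e_nt.GM

end

section

set_option autoImplicit false

open Finset

namespace Pool.Agent.MP_2a1f0e_nt.GM

/-- the coefficients of the Taylor expansion -/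
noncomputable def co_Tay (N : ℕ) (b : ℕ → ℂ) (j n : ℕ) : ℂ :=
  if n ∈ Icc N (2 * N) then b n * (Complex.I * ((Real.log ((n : ℝ) / N) : ℝ) : ℂ)) ^ j else 0

lemma norm_co_Tay {N : ℕ} (hN : 1 ≤ N) {b : ℕ → ℂ} (hb : ∀ n, ‖b n‖ ≤ 1) (j n : ℕ) :
    ‖co_Tay N b j n‖ ≤ 1 := by
  unfold co_Tay
  split_ifs with h
  · obtain ⟨h1, h2⟩ := mem_Icc.1 h
    have N0 : (0 : ℝ) < N := by exact_mod_cast hN
    have h3 : (1 : ℝ) ≤ (n : ℝ) / N := (one_le_div N0).2 (by exact_mod_cast h1)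
    have h4 : (n : ℝ) / N ≤ 2 := (div_le_iff₀ N0).2 (by exact_mod_cast h2)
    have h5 : Real.log ((n : ℝ) / N) ≤ 1 :=
      (Real.log_le_sub_one_of_pos (by linarith)).trans (by linarith)
    rw [norm_mul, norm_pow, norm_mul, Complex.norm_I, one_mul, Complex.norm_real,
      Real.norm_of_nonneg (Real.log_nonneg h3)]
    exact mul_le_one₀ (hb n) (pow_nonneg (Real.log_nonneg h3) j)
      (pow_le_one₀ (Real.log_nonneg h3) h5)
  · simp

lemma hasSum_Tay {N : ℕ} (hN : 1 ≤ N) (b : ℕ → ℂ) (m θ : ℝ) :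
    HasSum (fun j : ℕ => (θ : ℂ) ^ j / (j.factorial : ℂ) * DP N (co_Tay N b j) m)
      (DP N b (m + θ) * pw (N : ℝ) (-θ)) := by
  unfold DP
  simp only [mul_sum, sum_mul]
  refine hasSum_sum fun n hn => ?_
  have N0 : (N : ℝ) ≠ 0 := by exact_mod_cast (by omega : N ≠ 0)
  have n0 : (n : ℝ) ≠ 0 := by exact_mod_cast (by have := (mem_Icc.1 hn).1; omega : n ≠ 0)
  have h := (NormedSpace.expSeries_div_hasSum_exp
    (Complex.I * (θ : ℂ) * ((Real.log ((n : ℝ) / N) : ℝ) : ℂ))).mul_left (b n * pw (n : ℝ) m)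
  rw [← Complex.exp_eq_exp_ℂ] at h
  have e1 : b n * pw (n : ℝ) (m + θ) * pw (N : ℝ) (-θ) = b n * pw (n : ℝ) m *
      Complex.exp (Complex.I * (θ : ℂ) * ((Real.log ((n : ℝ) / N) : ℝ) : ℂ)) := by
    change _ = b n * pw (n : ℝ) m * pw ((n : ℝ) / N) θ
    rw [pw_add, pw_div n0 N0]
    ring
  rw [e1]
  have e2 : ∀ j : ℕ, (θ : ℂ) ^ j / (j.factorial : ℂ) * (co_Tay N b j n * pw (n : ℝ) m) =
      b n * pw (n : ℝ) m * ((Complex.I * (θ : ℂ) * ((Real.log ((n : ℝ) / N) : ℝ) : ℂ)) ^ j /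
        (j.factorial : ℂ)) := fun j => by
    rw [co_Tay, if_pos hn, mul_pow, mul_pow, mul_pow]
    ring
  simp only [e2]
  exact h

theorem tay_stmt : TayStmt := by
  intro N T V Z hN hV hZ b hb W hW hsep hlow
  have hE : HasSum (fun j : ℕ => (1 : ℝ) / (j.factorial : ℝ)) (Real.exp 1) := by
    have := NormedSpace.expSeries_div_hasSum_exp (1 : ℝ)
    rw [← Real.exp_eq_exp_ℝ] at this
    simpa using this
  have e3 : Real.exp 1 ≤ 3 := Real.exp_one_lt_three.le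
  let g : ℕ → ℤ → ℝ := fun j m =>
    if V / 6 ≤ ‖DP N (co_Tay N b j) m‖ then ‖DP N (co_Tay N b j) m‖ ^ 2 else 0
  have g0 : ∀ j m, 0 ≤ g j m := fun j m => by
    simp only [g]
    split_ifs <;> positivity
  have g1 : ∀ j m, g j m ≤ ((N : ℝ) + 1) ^ 2 := fun j m => by
    simp only [g]
    split_ifs
    · exact pow_le_pow_left₀ (norm_nonneg _) (norm_DP_le N _ (norm_co_Tay hN hb j) _) 2
    · positivity
  have gs : ∀ m, Summable fun j : ℕ => g j m * (1 / (j.factorial : ℝ)) := fun m =>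
    Summable.of_nonneg_of_le (fun j => mul_nonneg (g0 j m) (by positivity))
      (fun j => mul_le_mul_of_nonneg_right (g1 j m) (by positivity)) (hE.summable.mul_left _)
  have h1 : ∀ t ∈ W, ‖DP N b t‖ ^ 2 ≤ 12 * ∑' j : ℕ, g j ⌊t⌋ * (1 / (j.factorial : ℝ)) := by
    intro t ht
    have hD := hlow t ht
    have h2 := (hasSum_Tay hN b (⌊t⌋ : ℝ) (Int.fract t)).mul_left ((‖DP N b t‖ : ℝ) : ℂ)
    rw [Int.floor_add_fract] at h2
    have h3 := h2.norm_le_of_bounded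
      ((hE.mul_left (‖DP N b t‖ ^ 2 / 4)).add ((gs ⌊t⌋).hasSum.mul_left 3)) fun j => by
        have f0 : (0 : ℝ) ≤ 1 / (j.factorial : ℝ) := by positivity
        have a0 := norm_nonneg (DP N (co_Tay N b j) (⌊t⌋ : ℝ))
        have k1 : ‖DP N b t‖ * ‖DP N (co_Tay N b j) (⌊t⌋ : ℝ)‖ ≤
            ‖DP N b t‖ ^ 2 / 4 + 3 * g j ⌊t⌋ := by
          simp only [g]
          split_ifs with h
          · nlinarith [sq_nonneg (‖DP N (co_Tay N b j) (⌊t⌋ : ℝ)‖ - ‖DP N b t‖ / 6),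
              sq_nonneg ‖DP N b t‖]
          · nlinarith [norm_nonneg (DP N b t)]
        have k2 : ‖((Int.fract t : ℝ) : ℂ) ^ j / (j.factorial : ℂ)‖ ≤ 1 / (j.factorial : ℝ) := by
          rw [norm_div, norm_pow, Complex.norm_real, Complex.norm_natCast,
            Real.norm_of_nonneg (Int.fract_nonneg t)]
          exact div_le_div_of_nonneg_right
            (pow_le_one₀ (Int.fract_nonneg t) (Int.fract_lt_one t).le) (by positivity)
        rw [norm_mul, norm_mul, Complex.norm_real, norm_norm]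
        calc _ ≤ ‖DP N b t‖ * (1 / (j.factorial : ℝ) * ‖DP N (co_Tay N b j) (⌊t⌋ : ℝ)‖) := by
              gcongr
          _ = ‖DP N b t‖ * ‖DP N (co_Tay N b j) (⌊t⌋ : ℝ)‖ * (1 / (j.factorial : ℝ)) := by ring
          _ ≤ (‖DP N b t‖ ^ 2 / 4 + 3 * g j ⌊t⌋) * (1 / (j.factorial : ℝ)) :=
              mul_le_mul_of_nonneg_right k1 f0
          _ = _ := by ring
    rw [norm_mul, norm_mul, Complex.norm_real, norm_norm, norm_pw, mul_one] at h3
    have := mul_le_mul_of_nonneg_left e3 (show 0 ≤ ‖DP N b t‖ ^ 2 / 4 by positivity)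
    nlinarith
  have h2 : ∀ j, ∑ t ∈ W, g j ⌊t⌋ ≤ Z := fun j => by
    refine le_trans ?_ (hZ _ (norm_co_Tay hN hb j))
    rw [Mass, sum_filter, ← sum_image (g := fun t : ℝ => ⌊t⌋) (f := g j) fun s hs t ht e => by
      by_contra hne
      exact absurd (hsep s hs t ht hne) (not_le.2 (Int.abs_sub_lt_one_of_floor_eq_floor e))]
    refine sum_le_sum_of_subset_of_nonneg (fun m hm => ?_) fun m _ _ => g0 j m
    obtain ⟨t, ht, rfl⟩ := mem_image.1 hm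
    refine mem_Icc.2 ⟨Int.floor_nonneg.2 (hW t ht).1, Int.lt_add_one_iff.1 (Int.floor_lt.2 ?_)⟩
    exact_mod_cast (hW t ht).2
  have Z0 : 0 ≤ Z := (Mass_nonneg _ _ _ _).trans (hZ b hb)
  have h3 := hasSum_le (fun j => by
      rw [← sum_mul]
      exact mul_le_mul_of_nonneg_right (h2 j) (by positivity))
    (hasSum_sum fun t (_ : t ∈ W) => (gs ⌊t⌋).hasSum) (hE.mul_left Z)
  have h4 := sum_le_sum h1
  rw [← mul_sum] at h4
  have := mul_le_mul_of_nonneg_left e3 Z0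
  linarith

end Pool.Agent.MP_2a1f0e_nt.GM

end

section

set_option autoImplicit false

open Finset

namespace Pool.Agent.MP_2a1f0e_nt.GM

theorem final_stmt (hI : IntStmt) (hT : TayStmt) : FinalStmt := by
  intro ε hε
  obtain ⟨K, hK, h⟩ := hI ε hε
  refine ⟨36 * 36 * K, fun N T V hN hNT hV b hb W hW hsep hWV => ?_⟩
  have hT0 : 0 ≤ T := (Nat.cast_nonneg N).trans hNT
  have h1 : (⌊T⌋₊ : ℝ) ≤ T := Nat.floor_le hT0
  have h2 := hT N ⌊T⌋₊ V _ hN hV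
    (fun b hb => h N ⌊T⌋₊ hN (Nat.le_floor hNT) b hb (V / 6) (by positivity)) b hb W
    (fun t ht => ⟨(hW t ht).1, (hW t ht).2.trans_lt (Nat.lt_floor_add_one T)⟩) hsep hWV
  have h3 : (W.card : ℝ) * V ^ 2 ≤ ∑ t ∈ W, ‖DP N b t‖ ^ 2 := by
    rw [← nsmul_eq_mul]
    exact card_nsmul_le_sum W _ _ fun t ht => pow_le_pow_left₀ hV.le (hWV t ht) 2
  have h4 : √(⌊T⌋₊ : ℝ) * (N : ℝ) ^ 3 + ⌊T⌋₊ * (N : ℝ) ^ (12 / 5 : ℝ) ≤
      √T * (N : ℝ) ^ 3 + T * (N : ℝ) ^ (12 / 5 : ℝ) := by gcongr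
  have h5 : (N : ℝ) ^ 2 + (√(⌊T⌋₊ : ℝ) * (N : ℝ) ^ 3 + ⌊T⌋₊ * (N : ℝ) ^ (12 / 5 : ℝ)) / (V / 6) ^ 2
      ≤ 36 * ((N : ℝ) ^ 2 + (√T * (N : ℝ) ^ 3 + T * (N : ℝ) ^ (12 / 5 : ℝ)) / V ^ 2) := by
    have e : (V / 6) ^ 2 = V ^ 2 / 36 := by ring
    rw [e, div_div_eq_mul_div, mul_div_right_comm]
    have := div_le_div_of_nonneg_right h4 (sq_nonneg V)
    nlinarith [sq_nonneg (N : ℝ)]
  have h6 : 0 ≤ K * (N : ℝ) ^ ε := by positivity
  have h7 := (h3.trans h2).trans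
    (mul_le_mul_of_nonneg_left (mul_le_mul_of_nonneg_left h5 h6) (by norm_num))
  rw [← le_div_iff₀ (by positivity)] at h7
  refine h7.trans_eq ?_
  field_simp
  ring

end Pool.Agent.MP_2a1f0e_nt.GM

end

section

set_option autoImplicit false

namespace Pool.Agent.MP_2a1f0e_nt.GM

theorem k1_all : K1Stmt := k1_stmt decay_stmt zero_stmt (pois_stmt decay_stmt)

theorem pair_all : PairStmt := pair_stmt phExp_stmt bes_stmt div_stmt

theorem rho_all : RhoStmt := rho_stmt phExp_stmt bes_stmt div_stmt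

theorem pt_all : PtStmt := pt_stmt triang_stmt phExp_stmt phMaj_stmt

theorem s_all : SStmt := s_stmt (two_stmt rad_stmt phMaj_stmt) pt_all rho_all

theorem setup_all : SetupStmt := setup_stmt k1_all s_all

theorem q_all : QStmt :=
  q_stmt (three_stmt rad_stmt) (sym_stmt phMaj_stmt) pair_all rho_all par_stmt

theorem b2_all : B2Stmt := b2_stmt setup_all hux_stmt

theorem b1_all : B1Stmt := b1_stmt setup_all hux_stmt cub_stmt q_all pt_all num_stmt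

theorem int_all : IntStmt := int_stmt b1_all b2_all blk_stmt

theorem final_all : FinalStmt := final_stmt int_all tay_stmt

end Pool.Agent.MP_2a1f0e_nt.GM

end

section

set_option autoImplicit false
open Finset
namespace Pool.Agent.MP_2a1f0e_nt.GM2
open GM

lemma ext_Tri2 {φ : ℝ → ℝ} (h : Nice φ) : ∃ ψ : ℝ → ℝ, Continuous ψ ∧ (∀ x, 0 ≤ ψ x) ∧
    ∀ x, 1 / 9 ≤ x → φ x = ψ x :=
  ⟨fun x => φ (max x (1 / 9)), h.1.comp_continuous (continuous_id.max continuous_const)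
    fun x => lt_max_of_lt_right (show (0 : ℝ) < 1 / 9 by norm_num), fun x => h.2.1 _,
    fun x hx => congrArg φ (max_eq_left hx).symm⟩

lemma main_Tri2 {C : ℝ} {k R : ℝ → ℝ → ℝ} (hC : 0 < C)
    (hR : Continuous fun p : ℝ × ℝ => R p.1 p.2) (R0 : ∀ v w, 0 ≤ R v w)
    (k0 : ∀ v w, 0 ≤ k v w) (h1 : ∀ v w, k v w ≤ C * R v w)
    (h2 : ∀ v, 1 / 3 ≤ v → ∀ w, k v w ≤ 9 * k v⁻¹ (w / v))
    {g h : ℝ → ℝ} (hg : Nice g) (hh : Nice h) :
    ∫ v in (1 / 3 : ℝ)..3, ∫ w in (1 / 3 : ℝ)..3, g v * h (w / v) * 1 * k v w ≤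
      243 * C * (II fun v => II fun w => g v * h w * R v w) ∧
    ∫ v in (1 / 3 : ℝ)..3, ∫ w in (1 / 3 : ℝ)..3, g v * 1 * h w * k v w ≤
      243 * C * (II fun v => II fun w => g v * h w * R v w) := by
  obtain ⟨ψ, hψ, hψ0, he⟩ := ext_Tri2 hg
  obtain ⟨χ, hχ, hχ0, hf⟩ := ext_Tri2 hh
  obtain ⟨K, hK⟩ : ∃ K : ℝ → ℝ, ∀ y, K y = ψ y * II fun x => χ x * R y x :=
    ⟨_, fun _ => rfl⟩
  have c0 : Continuous fun p : ℝ × ℝ => χ p.2 * R p.1 p.2 :=
    (hχ.comp continuous_snd).fun_mul hR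
  have c1 : ∀ y : ℝ, Continuous fun x => χ x * R y x := fun y =>
    hχ.fun_mul (hR.comp (Continuous.prodMk_right y))
  have n1 : ∀ y x : ℝ, 0 ≤ χ x * R y x := fun y x => mul_nonneg (hχ0 _) (R0 _ _)
  have hKc : Continuous K := funext hK ▸ hψ.fun_mul
    (intervalIntegral.continuous_parametric_intervalIntegral_of_continuous'
      (f := fun y x => χ x * R y x) c0 _ _)
  have hK0 : ∀ y, 0 ≤ K y := fun y => hK y ▸ mul_nonneg (hψ0 y) (II_nonneg (n1 y))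
  have hP : (II fun v => II fun w => g v * h w * R v w) = II K := by
    refine II_congr_Sym fun v hv => ?_
    rw [hK]
    refine (II_congr_Sym fun w hw => ?_).trans (intervalIntegral.integral_const_mul _ _)
    rw [he v hv, hf w hw, mul_assoc]
  have h4 := mul_le_mul_of_nonneg_left
    (le_II_Sym (a := 1 / 3) (b := 3) (by norm_num) (by norm_num) (by norm_num) hK0 hKc) hC.le
  have h5 := mul_nonneg hC.le (II_nonneg hK0)
  rw [hP]
  constructor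
  · have c2 : ContinuousOn (fun v => 243 * C * (K v⁻¹ * (v ^ 2)⁻¹)) (Set.Icc (1 / 3 : ℝ) 3) :=
      continuousOn_const.fun_mul (inv_cont_Sym hKc)
    have n2 : ∀ v w, 0 ≤ g v * h (w / v) * 1 * k v w := fun v w =>
      mul_nonneg (mul_nonneg (mul_nonneg (hg.2.1 _) (hh.2.1 _)) zero_le_one) (k0 _ _)
    refine (mono_Sym (by norm_num) (fun v => intervalIntegral.integral_nonneg (by norm_num)
      fun w _ => n2 v w) c2 fun v hv => ?_).trans ?_
    · have hv0 : 0 < v := lt_of_lt_of_le (by norm_num) hv.1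
      refine (int_le_Sym (a := 0) (b := 9 * (g v * C)) (n2 v) (c1 v) (c1 v⁻¹) (n1 v) (n1 v⁻¹) le_rfl
        (mul_nonneg (by norm_num) (mul_nonneg (hg.2.1 v) hC.le)) hv fun w hw => ?_).trans ?_
      · have b1 : 1 / 9 ≤ w / v := by
          rw [le_div_iff₀ hv0]
          linarith [hw.1, hv.2]
        have b2 := mul_le_mul_of_nonneg_left ((h2 v hv.1 w).trans
          (mul_le_mul_of_nonneg_left (h1 v⁻¹ (w / v)) (by norm_num)))
          (mul_nonneg (hg.2.1 v) (hh.2.1 (w / v)))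
        rw [← hf _ b1]
        linarith
      · obtain ⟨hv1, hv2⟩ := hv
        have e2 : g v = ψ v⁻¹ := by
          rw [← hg.2.2, he]
          rw [le_inv_comm₀ (by norm_num) hv0]
          linarith
        have e3 : 1 ≤ 9 * (v ^ 2)⁻¹ := by
          rw [← div_eq_mul_inv, le_div_iff₀ (by positivity)]
          nlinarith
        have e4 := mul_le_mul_of_nonneg_left e3 (mul_nonneg hC.le (hK0 v⁻¹))
        have e6 : C * K v⁻¹ = C * (g v * II fun x => χ x * R v⁻¹ x) := by rw [hK, e2]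
        linarith
    · rw [intervalIntegral.integral_const_mul, inv_int_Sym hKc]
      linarith
  · have c2 : Continuous fun v => C * K v := by fun_prop
    have n2 : ∀ v w, 0 ≤ g v * 1 * h w * k v w := fun v w =>
      mul_nonneg (mul_nonneg (mul_nonneg (hg.2.1 _) zero_le_one) (hh.2.1 _)) (k0 _ _)
    refine (mono_Sym (by norm_num) (fun v => intervalIntegral.integral_nonneg (by norm_num)
      fun w _ => n2 v w) c2.continuousOn fun v hv => ?_).trans ?_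
    · refine (int_le_Sym (a := g v * C) (b := 0) (n2 v) (c1 v) (c1 v) (n1 v) (n1 v)
        (mul_nonneg (hg.2.1 v) hC.le) le_rfl hv fun w hw => ?_).trans ?_
      · have b2 := mul_le_mul_of_nonneg_left (h1 v w) (mul_nonneg (hg.2.1 v) (hh.2.1 w))
        rw [← hf w (by linarith [hw.1])]
        linarith
      · rw [hK, ← he v (by linarith [hv.1])]
        linarith
    · rw [intervalIntegral.integral_const_mul]
      linarith

lemma swap_Tri2 (N M : ℕ) {g h : ℝ → ℝ} (hg : Nice g) (hh : Nice h) :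
    Tr3 N M (fun _ => 1) g h = Tr3 N M h g fun _ => 1 := by
  unfold Tr3
  rw [MeasureTheory.intervalIntegral_intervalIntegral_swap]
  · congr 1
    funext v
    congr 1
    funext w
    have e : kp3 N M w v = kp3 N M v w := by
      unfold kp3
      rw [sum_comm]
      simp only [add_comm (_ * w)]
    rw [e, ← hg.2.2, inv_div]
    ring
  · have hK : IsCompact (Set.uIcc (1 / 3 : ℝ) 3 ×ˢ Set.uIcc (1 / 3 : ℝ) 3) :=
      isCompact_uIcc.prod isCompact_uIcc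
    have h0 : ∀ x ∈ Set.uIcc (1 / 3 : ℝ) 3, 0 < x := fun x hx => by
      rw [Set.uIcc_of_le (by norm_num)] at hx
      exact lt_of_lt_of_le (by norm_num) hx.1
    refine (ContinuousOn.integrableOn_compact hK ?_).mono_set
      (Set.prod_mono Set.uIoc_subset_uIcc Set.uIoc_subset_uIcc)
    exact ((continuousOn_const.mul (hg.1.comp (continuousOn_snd.div continuousOn_fst
      fun p hp => (h0 _ hp.1).ne') fun p hp => div_pos (h0 _ hp.2) (h0 _ hp.1))).mul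
      (hh.1.comp continuousOn_snd fun p hp => h0 _ hp.2)).mul (continuous_kp3 N M).continuousOn

theorem tri2_stmt (hM : PhMajStmt) (hP : PairStmt) : Tri2Stmt := by
  obtain ⟨C, hC, hM⟩ := hM
  obtain ⟨C', hC', hP⟩ := hP
  refine ⟨243 * C * C', by positivity, fun N M Δ hN hD g h hg hh => ?_⟩
  have s : Set.Icc (1 / 9 : ℝ) (82 / 9) ⊆ Set.Ioi 0 := fun x hx =>
    lt_of_lt_of_le (show (0 : ℝ) < 1 / 9 by norm_num) hx.1
  have key : ∀ g h, Nice g → Nice h → 243 * C * Pair N M g h ≤ 243 * C * C' * PB N M Δ g h :=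
    fun g h hg hh => by
      rw [mul_assoc _ C']
      exact mul_le_mul_of_nonneg_left
        (hP N M Δ hN hD g h (hg.1.mono s) (hh.1.mono s) hg.2.1 hh.2.1) (by positivity)
  have h1 : ∀ g h, Nice g → Nice h → Tr3 N M g h (fun _ => 1) ≤ 243 * C * Pair N M g h ∧
      Tr3 N M g (fun _ => 1) h ≤ 243 * C * Pair N M g h := fun g h hg hh =>
    main_Tri2 (k := kp3 N M) (R := rho2 N M) hC (continuous_rho2 N M) (rho2_nonneg N M)
      (kp3_nonneg N M) (kp3_le_Sym (hM N hN) M) (fun _ hv => kp3_swap_Sym N M hv) hg hh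
  refine ⟨(h1 g h hg hh).1.trans (key g h hg hh), (h1 g h hg hh).2.trans (key g h hg hh), ?_⟩
  rw [swap_Tri2 N M hg hh]
  refine ((h1 h g hh hg).1.trans (key h g hh hg)).trans_eq ?_
  unfold PB
  ring

end Pool.Agent.MP_2a1f0e_nt.GM2

end
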