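import Pool.Agent.MP_2a1f0e_nt.GM2.Defs
import Pool.Agent.Mg.C853.G9b677c

set_option autoImplicit false

open Finset

namespace Pool.Agent.MP_2a1f0e_nt.GM2

open GM

lemma cyc_Err (N M : ℕ) (s : Finset ℤ) (a b c : ℤ → ℝ) : Q33 N M s a b c = Q33 N M s b c a := by
  unfold Q33
  rw [sum_comm]
  refine sum_congr rfl fun y _ => ?_
  rw [sum_comm]
  refine sum_congr rfl fun z _ => sum_congr rfl fun x _ => ?_
  push_cast
  ring

lemma split_Err (N M : ℕ) (s : Finset ℤ) (ν g : ℤ → ℝ) : Q3 N M s ν - Q3 N M s g =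
    Q33 N M s (fun t => ν t - g t) ν ν + Q33 N M s (fun t => ν t - g t) ν g +
      Q33 N M s (fun t => ν t - g t) g g := by
  rw [← cyc_Err N M s g _ ν, ← cyc_Err N M s g _ g, ← cyc_Err N M s g g]
  unfold Q3 Q33
  simp only [← sum_sub_distrib, ← sum_add_distrib]
  refine sum_congr rfl fun x _ => sum_congr rfl fun y _ => sum_congr rfl fun z _ => ?_
  push_cast
  ring

lemma FT_sub_Err (s : Finset ℤ) (ν g : ℤ → ℝ) (v : ℝ) :
    FT s (fun t => ν t - g t) v = FT s ν v - FT s g v := by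
  unfold FT
  rw [← sum_sub_distrib]
  refine sum_congr rfl fun t _ => ?_
  push_cast
  ring

open MeasureTheory in
lemma int_Err (N M : ℕ) {a b c : ℝ → ℝ} (ha : Nice a) (hb : Nice b) (hc : Nice c) :
    IntegrableOn (fun p : ℝ × ℝ => a p.1 * b (p.2 / p.1) * c p.2 * kp3 N M p.1 p.2)
      (Set.Ioc (1 / 3 : ℝ) 3 ×ˢ Set.Ioc (1 / 3 : ℝ) 3) (volume.prod volume) := by
  have hK : IsCompact (Set.Icc (1 / 3 : ℝ) 3 ×ˢ Set.Icc (1 / 3 : ℝ) 3) :=
    isCompact_Icc.prod isCompact_Icc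
  refine (ContinuousOn.integrableOn_compact hK ?_).mono_set
    (Set.prod_mono Set.Ioc_subset_Icc_self Set.Ioc_subset_Icc_self)
  have h1 : ∀ p ∈ Set.Icc (1 / 3 : ℝ) 3 ×ˢ Set.Icc (1 / 3 : ℝ) 3, 0 < p.1 := fun p hp =>
    lt_of_lt_of_le (by norm_num) hp.1.1
  have h2 : ∀ p ∈ Set.Icc (1 / 3 : ℝ) 3 ×ˢ Set.Icc (1 / 3 : ℝ) 3, 0 < p.2 := fun p hp =>
    lt_of_lt_of_le (by norm_num) hp.2.1
  refine (((ha.1.comp continuousOn_fst h1).mul (hb.1.comp (continuousOn_snd.div continuousOn_fst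
    fun p hp => (h1 p hp).ne') fun p hp => div_pos (h2 p hp) (h1 p hp))).mul
    (hc.1.comp continuousOn_snd h2)).mul (continuous_kp3 N M).continuousOn

open MeasureTheory in
lemma tr_eq_Err (N M : ℕ) {a b c : ℝ → ℝ} (ha : Nice a) (hb : Nice b) (hc : Nice c) :
    Tr3 N M a b c = ∫ p in Set.Ioc (1 / 3 : ℝ) 3 ×ˢ Set.Ioc (1 / 3 : ℝ) 3,
      a p.1 * b (p.2 / p.1) * c p.2 * kp3 N M p.1 p.2 ∂(volume.prod volume) := by
  rw [setIntegral_prod _ (int_Err N M ha hb hc), Tr3]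
  simp only [intervalIntegral.integral_of_le (show (1 / 3 : ℝ) ≤ 3 by norm_num)]

lemma one_Err : Nice fun _ => 1 := ⟨continuousOn_const, fun _ => zero_le_one, fun _ => rfl⟩

lemma sq_Err {a : ℝ → ℝ} (ha : Nice a) : Nice fun v => a v ^ 2 :=
  ⟨ha.1.pow 2, fun _ => sq_nonneg _, fun v => by simp only [ha.2.2 v]⟩

lemma FT_Err (s : Finset ℤ) (g : ℤ → ℝ) : Nice fun v => ‖FT s g v‖ :=
  ⟨(continuousOn_FT s g).norm, fun _ => norm_nonneg _, norm_FT_inv s g⟩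

lemma pt_Err {a b c q₁ q₂ q₃ P₁ P₂ P₃ : ℝ} (a0 : 0 ≤ a) (c0 : 0 ≤ c)
    (h2 : 0 ≤ q₂) (k2 : 0 ≤ P₂) (k3 : 0 ≤ P₃) (ha : a ≤ q₁ + P₁)
    (hb : b ≤ q₂ + P₂) (hc : c ≤ q₃ + P₃) :
    2 * (a * b * c) ≤ a * q₂ ^ 2 * 1 + a * 1 * q₃ ^ 2 + (q₁ + P₁) ^ 2 * P₂ * 1 +
      1 * P₂ * (q₃ + P₃) ^ 2 + (q₁ + P₁) ^ 2 * 1 * P₃ + 1 * (q₂ + P₂) ^ 2 * P₃ := by
  have e1 : a * b * c ≤ a * ((q₂ + P₂) * (q₃ + P₃)) := by
    rw [mul_assoc]
    exact mul_le_mul_of_nonneg_left (mul_le_mul hb hc c0 (add_nonneg h2 k2)) a0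
  have e2 := mul_nonneg a0 (sq_nonneg (q₂ - q₃))
  have e3 : a ^ 2 ≤ (q₁ + P₁) ^ 2 := pow_le_pow_left₀ a0 ha 2
  have e4 : q₂ ^ 2 ≤ (q₂ + P₂) ^ 2 := pow_le_pow_left₀ h2 (le_add_of_nonneg_right k2) 2
  have e5 := mul_nonneg k2 (sq_nonneg (a - (q₃ + P₃)))
  have e6 := mul_nonneg k3 (sq_nonneg (a - q₂))
  have e7 := mul_le_mul_of_nonneg_left e3 k2
  have e8 := mul_le_mul_of_nonneg_left e3 k3
  have e9 := mul_le_mul_of_nonneg_left e4 k3
  nlinarith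

open MeasureTheory in
lemma sum6_Err {α : Type} [MeasurableSpace α] {μ : Measure α} {f f₁ f₂ f₃ f₄ f₅ f₆ : α → ℝ}
    (i : Integrable f μ) (i1 : Integrable f₁ μ) (i2 : Integrable f₂ μ) (i3 : Integrable f₃ μ)
    (i4 : Integrable f₄ μ) (i5 : Integrable f₅ μ) (i6 : Integrable f₆ μ)
    (h : ∀ p, 2 * f p ≤ f₁ p + f₂ p + f₃ p + f₄ p + f₅ p + f₆ p) :
    2 * ∫ p, f p ∂μ ≤ ∫ p, f₁ p ∂μ + ∫ p, f₂ p ∂μ + ∫ p, f₃ p ∂μ + ∫ p, f₄ p ∂μ +
      ∫ p, f₅ p ∂μ + ∫ p, f₆ p ∂μ := by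
  rw [← integral_add' i1 i2, ← integral_add' (i1.add i2) i3,
    ← integral_add' ((i1.add i2).add i3) i4, ← integral_add' (((i1.add i2).add i3).add i4) i5,
    ← integral_add' ((((i1.add i2).add i3).add i4).add i5) i6, ← integral_const_mul]
  exact integral_mono (i.const_mul 2) (((((i1.add i2).add i3).add i4).add i5).add i6) h

open MeasureTheory in
lemma six_Err (N M : ℕ) {a b c q P : ℝ → ℝ} (ha : Nice a) (hb : Nice b) (hc : Nice c)
    (hq : Nice q) (hP : Nice P) (hψ : Nice fun v => q v + P v) (ka : ∀ v, a v ≤ q v + P v)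
    (kb : ∀ v, b v ≤ q v + P v) (kc : ∀ v, c v ≤ q v + P v) :
    2 * Tr3 N M a b c ≤ Tr3 N M a (fun v => q v ^ 2) (fun _ => 1) +
      Tr3 N M a (fun _ => 1) (fun v => q v ^ 2) +
      Tr3 N M (fun v => (q v + P v) ^ 2) P (fun _ => 1) +
      Tr3 N M (fun _ => 1) P (fun v => (q v + P v) ^ 2) +
      Tr3 N M (fun v => (q v + P v) ^ 2) (fun _ => 1) P +
      Tr3 N M (fun _ => 1) (fun v => (q v + P v) ^ 2) P := by
  have i1 := int_Err N M ha (sq_Err hq) one_Err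
  have i2 := int_Err N M ha one_Err (sq_Err hq)
  have i3 := int_Err N M (sq_Err hψ) hP one_Err
  have i4 := int_Err N M one_Err hP (sq_Err hψ)
  have i5 := int_Err N M (sq_Err hψ) one_Err hP
  have i6 := int_Err N M one_Err (sq_Err hψ) hP
  rw [tr_eq_Err N M ha hb hc, tr_eq_Err N M ha (sq_Err hq) one_Err,
    tr_eq_Err N M ha one_Err (sq_Err hq), tr_eq_Err N M (sq_Err hψ) hP one_Err,
    tr_eq_Err N M one_Err hP (sq_Err hψ), tr_eq_Err N M (sq_Err hψ) one_Err hP,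
    tr_eq_Err N M one_Err (sq_Err hψ) hP]
  refine sum6_Err (int_Err N M ha hb hc) i1 i2 i3 i4 i5 i6 fun p => ?_
  have h := mul_le_mul_of_nonneg_right (pt_Err (ha.2.1 p.1) (hc.2.1 p.2) (hq.2.1 (p.2 / p.1))
    (hP.2.1 (p.2 / p.1)) (hP.2.1 p.2) (ka p.1) (kb (p.2 / p.1)) (kc p.2)) (kp3_nonneg N M p.1 p.2)
  linarith

lemma symm_Err (N M : ℕ) (Δ : ℝ) (g h : ℝ → ℝ) : PB N M Δ g h = PB N M Δ h g := by
  unfold PB
  ring

lemma II_mul_Err (a : ℝ) (f : ℝ → ℝ) : II (fun v => a * f v) = a * II f :=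
  intervalIntegral.integral_const_mul _ _

lemma num_Err {N M Δ B A X E R K sX sR p₁ p₂ : ℝ} (hN : 0 < N) (hM : 0 ≤ M) (hΔ : 0 ≤ Δ)
    (hB : 0 ≤ B) (hA : 0 ≤ A) (hX : 0 ≤ X) (hE : 0 ≤ E) (hR : 0 ≤ R) (hK : 1 ≤ K)
    (x0 : 0 ≤ sX) (r0 : 0 ≤ sR) (ex : sX ^ 2 = X) (er : sR ^ 2 = R)
    (h1 : p₁ ≤ M ^ 2 / N * E * (240 * X) + M * Δ / N * (16 * sX) * (32 * (B + A) * sX))
    (h2 : p₂ ≤ M ^ 2 / N * (B * (K * (M / N))) * (240 * X) +
      M * Δ / N * (K * B * sR) * (88 * (B + A) * sX + 12 * K * B ^ 2 * M * sR)) :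
    N * (p₁ + 2 * p₂) ≤ 512 * K ^ 2 * (M ^ 2 * E * X + M * Δ * (B + A) * X + M ^ 3 * B * X / N +
      M * Δ * B * sR * (B + A) * sX + M ^ 2 * Δ * B ^ 3 * R) := by
  have e : N * (M ^ 2 / N * E * (240 * X) + M * Δ / N * (16 * sX) * (32 * (B + A) * sX) +
      2 * (M ^ 2 / N * (B * (K * (M / N))) * (240 * X) +
      M * Δ / N * (K * B * sR) * (88 * (B + A) * sX + 12 * K * B ^ 2 * M * sR))) =
      240 * (M ^ 2 * E * X) + 512 * (M * Δ * (B + A) * X) + 480 * K * (M ^ 3 * B * X / N) +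
        176 * K * (M * Δ * B * sR * (B + A) * sX) + 24 * K ^ 2 * (M ^ 2 * Δ * B ^ 3 * R) := by
    rw [← ex, ← er]
    field_simp
    ring
  have k1 : 1 ≤ K ^ 2 := one_le_pow₀ hK
  have k2 : K ≤ K ^ 2 := by nlinarith
  refine (mul_le_mul_of_nonneg_left (add_le_add h1 (mul_le_mul_of_nonneg_left h2 zero_le_two))
    hN.le).trans (e.trans_le ?_)
  simp only [mul_add (512 * K ^ 2)]
  gcongr <;> linarith

lemma four_Err {q P B A M : ℝ} (q0 : 0 ≤ q) (P0 : 0 ≤ P) (h1 : q ≤ 2 * (B + A))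
    (h2 : P ≤ 4 * B * M) :
    ((q + P) ^ 2) ^ 2 ≤ 32 * (B + A) ^ 2 * q ^ 2 + 128 * B ^ 2 * M ^ 2 * P ^ 2 := by
  have e1 : (q + P) ^ 2 ≤ 2 * q ^ 2 + 2 * P ^ 2 := by nlinarith [sq_nonneg (q - P)]
  have e2 := pow_le_pow_left₀ (sq_nonneg _) e1 2
  have e3 := mul_le_mul_of_nonneg_right (pow_le_pow_left₀ q0 h1 2) (sq_nonneg q)
  have e4 := mul_le_mul_of_nonneg_right (pow_le_pow_left₀ P0 h2 2) (sq_nonneg P)
  nlinarith [sq_nonneg (q ^ 2 - P ^ 2)]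

theorem err_stmt (h3 : Three3Stmt) (hT : Tri2Stmt) (hR : RhoStmt) (hPar : ParStmt) : ErrStmt := by
  obtain ⟨C₃, c₃, h3⟩ := h3
  obtain ⟨C₄, c₄, hT⟩ := hT
  obtain ⟨C₆, c₆, hR⟩ := hR
  refine ⟨3 * C₃ * C₄ * (512 * (C₆ + 1) ^ 2), by positivity,
    fun N M Δ B A X E s ν g hN hM hD hB hA hpt hX hX' hg hE => ?_⟩
  have hX0 : 0 ≤ X := (sum_nonneg fun _ _ => sq_nonneg _).trans hX
  have hΔ : 0 ≤ Δ := zero_le_one.trans hD.1
  have hN0 : (0 : ℝ) < N := by exact_mod_cast hN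
  have hM0 : (0 : ℝ) ≤ M := M.cast_nonneg
  have nφ := FT_Err s ν
  have nf := FT_Err s g
  have ne := FT_Err s fun t => ν t - g t
  have hφ2 := (hPar s ν).trans (mul_le_mul_of_nonneg_left hX (by norm_num))
  have hf2 := (hPar s g).trans (mul_le_mul_of_nonneg_left hX' (by norm_num))
  have a1 := h3 N M hN s (fun t => ν t - g t) ν ν
  have a2 := h3 N M hN s (fun t => ν t - g t) ν g
  have a3 := h3 N M hN s (fun t => ν t - g t) g g
  have he : ∀ v, ‖FT s (fun t => ν t - g t) v‖ ≤ ‖FT s ν v‖ + ‖FT s g v‖ := fun v => by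
    rw [FT_sub_Err]
    exact norm_sub_le _ _
  rw [split_Err]
  refine ((norm_add_le _ _).trans (add_le_add ((norm_add_le _ _).trans (add_le_add a1 a2))
    a3)).trans ?_
  clear a1 a2 a3
  obtain ⟨φ, hφ⟩ : ∃ φ : ℝ → ℝ, ∀ v, ‖FT s ν v‖ = φ v := ⟨_, fun _ => rfl⟩
  obtain ⟨f, hf⟩ : ∃ f : ℝ → ℝ, ∀ v, ‖FT s g v‖ = f v := ⟨_, fun _ => rfl⟩
  obtain ⟨e, hε⟩ : ∃ e : ℝ → ℝ, ∀ v, ‖FT s (fun t => ν t - g t) v‖ = e v := ⟨_, fun _ => rfl⟩
  simp only [hφ, hf, hε] at nφ nf ne hφ2 hf2 he hpt hg hE ⊢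
  change Nice φ at nφ
  change Nice f at nf
  change Nice e at ne
  change II e ≤ E at hE
  change _ * Tr3 N M e φ φ + _ * Tr3 N M e φ f + _ * Tr3 N M e f f ≤ _
  obtain ⟨q, hq⟩ : ∃ q : ℝ → ℝ, ∀ v, q v = min (φ v) (2 * B) + f v := ⟨_, fun _ => rfl⟩
  obtain ⟨P, hP⟩ : ∃ P : ℝ → ℝ, ∀ v, P v = max (φ v - 2 * B) 0 := ⟨_, fun _ => rfl⟩
  have hψ : ∀ v, q v + P v = φ v + f v := fun v => by
    rw [hq, hP]
    rcases le_total (φ v) (2 * B) with h | h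
    · rw [min_eq_left h, max_eq_right (by linarith)]
      ring
    · rw [min_eq_right h, max_eq_left (by linarith)]
      ring
  have nq : Nice q := by
    refine ⟨?_, fun v => ?_, fun v => by rw [hq, hq, nφ.2.2 v, nf.2.2 v]⟩
    · rw [show q = _ from funext hq]
      exact (nφ.1.inf continuousOn_const).add nf.1
    · rw [hq]
      exact add_nonneg (le_min (nφ.2.1 v) (by positivity)) (nf.2.1 v)
  have nP : Nice P := by
    refine ⟨?_, fun v => hP v ▸ le_max_right _ _, fun v => by rw [hP, hP, nφ.2.2 v]⟩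
    rw [show P = _ from funext hP]
    exact (nφ.1.sub continuousOn_const).sup continuousOn_const
  have nψ : Nice fun v => q v + P v :=
    ⟨nq.1.add nP.1, fun v => add_nonneg (nq.2.1 v) (nP.2.1 v), fun v => by
      simp only [nq.2.2 v, nP.2.2 v]⟩
  have ke : ∀ v, e v ≤ q v + P v := fun v => hψ v ▸ he v
  have kφ : ∀ v, φ v ≤ q v + P v := fun v => hψ v ▸ le_add_of_nonneg_right (nf.2.1 v)
  have kf : ∀ v, f v ≤ q v + P v := fun v => hψ v ▸ le_add_of_nonneg_left (nφ.2.1 v)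
  have t1 := hT N M Δ hN hD _ _ ne (sq_Err nq)
  have t2 := hT N M Δ hN hD _ _ nP (sq_Err nψ)
  have t3 := hT N M Δ hN hD _ _ (sq_Err nψ) nP
  rw [symm_Err N M Δ _ P] at t3
  have u : ∀ b c, Nice b → Nice c → (∀ v, b v ≤ q v + P v) → (∀ v, c v ≤ q v + P v) →
      Tr3 N M e b c ≤ C₄ * (PB N M Δ e (fun v => q v ^ 2) +
        2 * PB N M Δ P fun v => (q v + P v) ^ 2) := fun b c nb nc kb kc => by
    have := six_Err N M ne nb nc nq nP nψ ke kb kc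
    linarith [t1.1, t1.2.1, t2.2.2, t3.1, t3.2.1, t3.2.2]
  have c2 : ∀ {a}, Nice a → ContinuousOn (fun v => a v ^ 2) (Set.Icc (1 / 9 : ℝ) (82 / 9)) :=
    fun h => (h.1.pow 2).mono Icc_sub_Ioi
  have b1 : II (fun v => (q v + P v) ^ 2) ≤ 240 * X := by
    have := II_mono (g := fun v => 2 * φ v ^ 2 + 2 * f v ^ 2) (c2 nψ)
      ((continuousOn_const.mul (c2 nφ)).add (continuousOn_const.mul (c2 nf))) fun v _ => by
        rw [hψ]
        nlinarith [sq_nonneg (φ v - f v)]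
    rw [II_lin_QSt (c2 nφ) (c2 nf)] at this
    linarith
  have b2 : II (fun v => e v ^ 2) ≤ 240 * X :=
    (II_mono (c2 ne) (c2 nψ) fun v _ => pow_le_pow_left₀ (ne.2.1 v) (ke v) 2).trans b1
  have b3 : II (fun v => q v ^ 2) ≤ 240 * X :=
    (II_mono (c2 nq) (c2 nψ) fun v _ =>
      pow_le_pow_left₀ (nq.2.1 v) (le_add_of_nonneg_right (nP.2.1 v)) 2).trans b1
  have kq : ∀ v, q v ≤ 2 * (B + A) := fun v => by
    rw [hq]
    linarith [min_le_right (φ v) (2 * B), hg v]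
  have kP : ∀ v ∈ Set.Icc (1 / 9 : ℝ) (82 / 9), P v ≤ B * rho N M v := fun v hv => by
    rw [hP]
    exact max_le (by linarith [hpt v hv]) (mul_nonneg hB (rho_nonneg N M v))
  have b4 : II (fun v => (q v ^ 2) ^ 2) ≤ 4 * (B + A) ^ 2 * (240 * X) := by
    have := II_mono (g := fun v => 4 * (B + A) ^ 2 * q v ^ 2) (c2 (sq_Err nq))
      (continuousOn_const.mul (c2 nq)) fun v _ => by
        have := mul_le_mul_of_nonneg_right (pow_le_pow_left₀ (nq.2.1 v) (kq v) 2) (sq_nonneg (q v))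
        linarith
    rw [II_mul_Err] at this
    exact this.trans (mul_le_mul_of_nonneg_left b3 (by positivity))
  obtain ⟨r1, r2⟩ := hR N M Δ hN hD
  change _ ≤ C₆ * R2 N M Δ at r2
  have hR0 : 0 ≤ R2 N M Δ := by unfold R2; positivity
  generalize R2 N M Δ = R at r2 hR0 ⊢
  have cρ : ContinuousOn (rho N M) (Set.Icc (1 / 9 : ℝ) (82 / 9)) :=
    (continuous_rho N M).continuousOn
  have b5 : II P ≤ B * ((C₆ + 1) * (M / N)) := by
    have := II_mono (g := fun v => B * rho N M v) (nP.1.mono Icc_sub_Ioi)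
      (continuousOn_const.mul cρ) kP
    rw [II_mul_Err] at this
    refine this.trans (mul_le_mul_of_nonneg_left (r1.trans ?_) hB)
    gcongr
    linarith
  have b6 : II (fun v => P v ^ 2) ≤ B ^ 2 * ((C₆ + 1) ^ 2 * R) := by
    have := II_mono (g := fun v => B ^ 2 * rho N M v ^ 2) (c2 nP)
      (continuousOn_const.mul (cρ.pow 2)) fun v hv => by
        rw [← mul_pow]
        exact pow_le_pow_left₀ (nP.2.1 v) (kP v hv) 2
    rw [II_mul_Err] at this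
    refine this.trans (mul_le_mul_of_nonneg_left (r2.trans ?_) (sq_nonneg B))
    gcongr
    nlinarith
  have b7 : II (fun v => ((q v + P v) ^ 2) ^ 2) ≤ 32 * (B + A) ^ 2 * (240 * X) +
      128 * B ^ 2 * (M : ℝ) ^ 2 * (B ^ 2 * ((C₆ + 1) ^ 2 * R)) := by
    have := II_mono
      (g := fun v => 32 * (B + A) ^ 2 * q v ^ 2 + 128 * B ^ 2 * (M : ℝ) ^ 2 * P v ^ 2)
      (c2 (sq_Err nψ)) ((continuousOn_const.mul (c2 nq)).add (continuousOn_const.mul (c2 nP)))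
      fun v hv => four_Err (nq.2.1 v) (nP.2.1 v) (kq v) ((kP v hv).trans
        ((mul_le_mul_of_nonneg_left (rho_le N M v) hB).trans_eq (by ring)))
    rw [II_lin_QSt (c2 nq) (c2 nP)] at this
    exact this.trans (add_le_add (mul_le_mul_of_nonneg_left b3 (by positivity))
      (mul_le_mul_of_nonneg_left b6 (by positivity)))
  have sX : √X ^ 2 = X := Real.sq_sqrt hX0
  have sR : √R ^ 2 = R := Real.sq_sqrt hR0
  have sX0 := Real.sqrt_nonneg X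
  have sR0 := Real.sqrt_nonneg R
  have d2 : √(II fun v => e v ^ 2) ≤ 16 * √X :=
    Real.sqrt_le_iff.2 ⟨by positivity, by rw [mul_pow, sX]; linarith⟩
  have d4 : √(II fun v => (q v ^ 2) ^ 2) ≤ 32 * (B + A) * √X := by
    refine Real.sqrt_le_iff.2 ⟨by positivity, b4.trans ?_⟩
    rw [mul_pow, mul_pow, sX]
    linarith [mul_nonneg (sq_nonneg (B + A)) hX0]
  have d6 : √(II fun v => P v ^ 2) ≤ (C₆ + 1) * B * √R := by
    refine Real.sqrt_le_iff.2 ⟨by positivity, b6.trans_eq ?_⟩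
    rw [mul_pow, mul_pow, sR]
    ring
  have d7 : √(II fun v => ((q v + P v) ^ 2) ^ 2) ≤
      88 * (B + A) * √X + 12 * (C₆ + 1) * B ^ 2 * M * √R := by
    refine Real.sqrt_le_iff.2 ⟨by positivity, b7.trans ?_⟩
    have e1 : 0 ≤ 88 * (B + A) * √X * (12 * (C₆ + 1) * B ^ 2 * M * √R) := by positivity
    have e2 : 0 ≤ (B + A) ^ 2 * X := by positivity
    have e3 : 0 ≤ (C₆ + 1) ^ 2 * (B ^ 2) ^ 2 * (M : ℝ) ^ 2 * R := by positivity
    rw [add_sq (88 * (B + A) * √X), mul_pow _ √X, mul_pow _ √R, sX, sR]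
    linarith
  have e0 : 0 ≤ II e := II_nonneg ne.2.1
  have hE0 : 0 ≤ E := e0.trans hE
  have q0 : 0 ≤ II fun v => q v ^ 2 := II_nonneg fun _ => sq_nonneg _
  have ψ0 : 0 ≤ II fun v => (q v + P v) ^ 2 := II_nonneg fun _ => sq_nonneg _
  have w := num_Err (p₁ := PB N M Δ e fun v => q v ^ 2)
    (p₂ := PB N M Δ P fun v => (q v + P v) ^ 2) hN0 hM0 hΔ hB hA hX0 hE0 hR0
    (le_add_of_nonneg_left c₆.le) sX0 sR0 sX sR (by unfold PB; gcongr) (by unfold PB; gcongr)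
  have u1 := u _ _ nφ nφ kφ kφ
  have u2 := u _ _ nφ nf kφ kf
  have u3 := u _ _ nf nf kf kf
  have z : 0 ≤ C₃ * (N : ℝ) ^ 3 := by positivity
  have v1 := mul_le_mul_of_nonneg_left u1 z
  have v2 := mul_le_mul_of_nonneg_left u2 z
  have v3 := mul_le_mul_of_nonneg_left u3 z
  have v4 := mul_le_mul_of_nonneg_left w (show 0 ≤ 3 * C₃ * C₄ * (N : ℝ) ^ 2 by positivity)
  linarith

end Pool.Agent.MP_2a1f0e_nt.GM2
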