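import Pool.Agent.Mg.C853.Ga580b9
import Pool.Agent.MP_c853c5_nt.DS.Basic
import Pool.Agent.MP_2a1f0e_nt.Div
import Pool.Agent.MP_c853c5_nt.DT.Defs
import Pool.Agent.MP_c853c5_nt.DU.Defs
import Pool.Agent.MP_c853c5_nt.DV.Defs

section

/-!
The type II estimate for a convolution.
-/

set_option autoImplicit false

open Finset Filter Topology

namespace Pool.Agent.MP_c853c5_nt.E

open Pool.Agent.MP_2a1f0e_nt
open S (AF sgl prI Dl)

lemma ev_sav {c : ℝ} (hc : 0 < c) (B : ℕ) : ∀ᶠ x : ℝ in atTop, ∀ N : ℕ, x ^ c ≤ (N : ℝ) →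
    Z.sav N ≤ 1 / Real.log x ^ B := by
  have h := Real.tendsto_log_atTop.eventually
    (ev_log_le (B / c ^ (1 / 50 : ℝ)) 1 (show (0 : ℝ) < 1 / 50 by norm_num))
  filter_upwards [h, ev_le_log 1, eventually_gt_atTop 0] with x h1 h2 h3 N hN
  have h4 : c * Real.log x ≤ Real.log N := by
    rw [← Real.log_rpow h3]
    exact Real.log_le_log (by positivity) hN
  have h5 : 0 < c ^ (1 / 50 : ℝ) := by positivity
  have h6 := Real.rpow_le_rpow (by positivity) h4 (show (0 : ℝ) ≤ 1 / 50 by norm_num)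
  rw [Real.mul_rpow hc.le (by positivity)] at h6
  rw [pow_one, div_mul_eq_mul_div, div_le_iff₀ h5] at h1
  rw [one_div (Real.log x ^ B), ← Real.exp_log (show 0 < Real.log x ^ B by positivity),
    ← Real.exp_neg, Real.log_pow]
  exact Real.exp_le_exp.2 (by linarith)

lemma prime_slot (hP : Z.PrStmt) {c δ : ℝ} (hc : 0 < c) (hδ : 0 < δ) (B : ℕ) :
    ∀ᶠ x : ℝ in atTop, ∀ (N P Q : ℕ) (t : ℝ), x ^ c ≤ (N : ℝ) → x ^ δ ≤ t → t ≤ x →
      ‖BP N (prI P Q) t‖ ≤ N / Real.log x ^ B := by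
  obtain ⟨k, hk⟩ := exists_nat_ge (1 / c)
  obtain ⟨N₀, h⟩ := hP k
  filter_upwards [ev_sav hc (B + 1), ev_le_log 15, ev_const_le N₀ hc, ev_log_le 1 (B + 1) hc,
    ev_log_le 1 (B + 1) hδ, eventually_ge_atTop 1] with x h1 h2 h3 h4 h5 x1 N P Q t hN ht ht'
  set u := Real.log x ^ (B + 1)
  have hu : 0 < u := by positivity
  have t0 : 0 ≤ t := le_trans (by positivity) ht
  have N1 : (1 : ℝ) ≤ N := (Real.one_le_rpow x1 hc.le).trans hN
  have e : BP N (prI P Q) t = (prI P Q N : ℂ) * GM.pw (N : ℝ) t +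
      ∑ p ∈ (Ioc (max P N) (min Q (2 * N))).filter Nat.Prime,
        (((fun _ : ℕ => (1 : ℝ)) p : ℝ) : ℂ) * GM.pw (p : ℝ) t := by
    rw [BP, FP, Icc_eq_cons_Ioc (by omega : N ≤ 2 * N), sum_cons]
    congr 1
    symm
    refine sum_subset_zero_on_sdiff (fun p hp => ?_) (fun p hp => ?_) fun p hp => ?_
    · simp only [mem_filter, mem_Ioc, max_lt_iff, le_min_iff] at hp ⊢
      tauto
    · simp only [Finset.mem_sdiff, mem_filter, mem_Ioc, max_lt_iff, le_min_iff] at hp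
      have : ¬ (P < p ∧ p ≤ Q ∧ p.Prime) := by tauto
      simp [prI, this]
    · simp only [mem_filter, mem_Ioc, max_lt_iff, le_min_iff] at hp
      have : P < p ∧ p ≤ Q ∧ p.Prime := by tauto
      simp [prI, this]
  have a1 : ‖(prI P Q N : ℂ) * GM.pw (N : ℝ) t‖ ≤ N / u := by
    rw [norm_mul, GM.norm_pw, mul_one, le_div_iff₀ hu]
    refine le_trans (mul_le_of_le_one_left hu.le ?_) (by linarith)
    simp only [prI, ArithmeticFunction.coe_mk]
    split_ifs <;> simp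
  have a2 : ‖∑ p ∈ (Ioc (max P N) (min Q (2 * N))).filter Nat.Prime,
      (((fun _ : ℕ => (1 : ℝ)) p : ℝ) : ℂ) * GM.pw (p : ℝ) t‖ ≤ 14 * (N / u) := by
    rcases lt_or_ge (min Q (2 * N)) (max P N) with hl | hl
    · rw [Ioc_eq_empty_of_le hl.le]
      simp only [filter_empty, sum_empty, norm_zero]
      positivity
    set M := max P N
    have m1 : (N : ℝ) ≤ M := by exact_mod_cast le_max_right P N
    have m2 : (M : ℝ) ≤ 2 * N := by exact_mod_cast hl.trans (min_le_right _ _)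
    have m3 : |t| ≤ (M : ℝ) ^ k := by
      rw [abs_of_nonneg t0]
      refine ht'.trans (le_trans ?_ (pow_le_pow_left₀ (by positivity) (hN.trans m1) k))
      rw [← Real.rpow_mul_natCast (by linarith)]
      rw [div_le_iff₀ hc] at hk
      simpa using Real.rpow_le_rpow_of_exponent_le x1 (show 1 ≤ c * k by linarith)
    refine (h M _ t (fun _ => 1) (by exact_mod_cast h3.trans (hN.trans m1)) hl
      ((min_le_right _ _).trans (Nat.mul_le_mul_left 2 (le_max_right _ _))) m3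
      fun _ _ => ⟨zero_le_one, le_rfl⟩).trans ?_
    have b1 : 5 * (M : ℝ) / (1 + |t|) ≤ 10 * N / u :=
      div_le_div₀ (by positivity) (by linarith) hu (by rw [abs_of_nonneg t0]; linarith)
    have b2 : 2 * (M : ℝ) * Z.sav M ≤ 4 * N * (1 / u) :=
      mul_le_mul (by linarith) (h1 M (hN.trans m1)) (Z.sav_pos _).le (by positivity)
    calc _ ≤ 1 * (10 * N / u + 4 * N * (1 / u)) := by linarith
      _ = _ := by ring
  rw [e]
  refine (norm_add_le _ _).trans ((add_le_add a1 a2).trans ?_)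
  have l0 : 0 < Real.log x := by linarith
  calc (N : ℝ) / u + 14 * (N / u) = 15 / Real.log x * (N / Real.log x ^ B) := by
        simp only [u]
        field_simp
        ring
    _ ≤ _ := mul_le_of_le_one_left (by positivity) ((div_le_one l0).2 h2)

theorem e2d_of (hB : BoxIIStmt) (hP : Z.PrStmt) : S.E2D := by
  intro ι _ τ t η K A ht htτ hτ hη
  classical
  have h2 : 0 < η / 2 := by positivity
  have key := fun q : {q : ι × ι × ι // q.1 ≠ q.2.1 ∧ q.1 ≠ q.2.2 ∧ q.2.1 ≠ q.2.2} =>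
    hB ι K (A + 1) η (1 / 2000) (η / 2) q.1.2.1 q.1.2.2 q.1.1 q.2.2.2 q.2.1.symm q.2.2.1.symm hη
      (by norm_num) (by norm_num) h2
  choose f hf hq using key
  obtain ⟨γ, ⟨hγ, hγ1⟩, hγ2⟩ := (((eventually_all.2 fun q => Ioc_mem_nhdsGT (hf q)).and
    (Ioc_mem_nhdsGT h2)).exists).imp fun _ h => h.symm
  refine ⟨γ, hγ, ?_⟩
  filter_upwards [eventually_all.2 hq, win, wd_std,
    prime_slot hP h2 (show (0 : ℝ) < 1 / 2000 by norm_num) (A + 1 + 3),
    eventually_ge_atTop (2 * (2 : ℝ) ^ Fintype.card ι), ev_le_log 2, ev_log_le 2 A one_pos,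
    eventually_ge_atTop 1] with x hx hw hd hp hc l2 l3 x1 pr a N g ha hE hS hN hpr hle
  obtain ⟨⟨i, j, k, hij, hik, hjk, hi, ai, aj, ak⟩, hE⟩ := hE
  have low : ∀ l, η ≤ a l → x ^ (η / 2) ≤ (N l : ℝ) := fun l hl =>
    (Real.rpow_le_rpow_of_exponent_le x1 (by linarith)).trans (hN l).1
  obtain ⟨P, Q, hg⟩ := hpr i hi
  have b1 := hx ⟨(i, j, k), hij, hik, hjk⟩ t (Real.log x - Real.log (1 : ℕ)) _ _ a N
    (fun l => g l) ht (by linarith) (hd t ht) ha (Eval.anti_tau htτ.le (by linarith) hE)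
    (fun l => ⟨(hS l).1, (hN l).2.trans (Real.rpow_le_rpow_of_exponent_le x1
      (by linarith [(hγ2 ⟨(i, j, k), hij, hik, hjk⟩).2]))⟩)
    (by linarith) (low j aj) (low k ak) (fun l => (hS l).2.1)
    (fun s h1 h2 => by
      simp only [hg]
      exact hp _ P Q s (low i ai) h1 h2)
  have b2 := hw ι t g (fun l => Icc (N l) (2 * N l)) 1 ht (by linarith)
    (fun l hl => by have := (hS l).1; have := (mem_Icc.1 hl).1; omega)
    (fun l n hn => mem_Icc.2 ⟨((hS l).2.2 n hn).1, ((hS l).2.2 n hn).2.le⟩)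
    (fun l => (hS l).2.1) le_rfl (by
      refine (prod_le_prod (fun _ _ => Nat.cast_nonneg _) fun l _ => card_blk_le (hS l).1).trans ?_
      rw [prod_mul_distrib, prod_const, card_univ]
      have := mul_le_mul_of_nonneg_left hle (show (0 : ℝ) ≤ 2 ^ Fintype.card ι by positivity)
      nlinarith)
  rw [sgl_one, one_mul] at b2
  have l0 : 0 < Real.log x ^ A := by positivity
  have b3 : x / Real.log x ^ (A + 1) ≤ x / Real.log x ^ A / 2 := by
    rw [pow_succ, ← div_div]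
    exact div_le_div_of_nonneg_left (by positivity) two_pos l2
  have b4 : 2 ≤ x / Real.log x ^ A := by
    rw [le_div_iff₀ l0]
    simpa using l3
  linarith

end Pool.Agent.MP_c853c5_nt.E

end

section

set_option autoImplicit false

open Finset Filter Real
open scoped ComplexConjugate

namespace Pool.Agent.MP_c853c5_nt.DS

open Pool.Agent.MP_88bd62_nt.U (ex)
open S (AF Slot prI Dl)
open Topology

lemma div_E3d (k Λ : ℕ) {ε : ℝ} (hε : 0 < ε) : ∀ᶠ x : ℝ in atTop, ∀ n m : ℕ, m ≤ k →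
    (n : ℝ) ≤ Λ * (2 * x) → (n.divisors.card : ℝ) ^ m ≤ x ^ ε := by
  have h0 : 0 < ε / (3 * (k + 1)) := by positivity
  obtain ⟨C, hC, h⟩ := MP_2a1f0e_nt.divisor_bound h0
  filter_upwards [E.ev_const_le C h0, eventually_ge_atTop (2 * (Λ : ℝ)), eventually_ge_atTop 1]
    with x h1 h2 x1 n m hm hn
  have x0 : 0 < x := by linarith
  have h3 : (n : ℝ) ≤ x ^ (2 : ℝ) := by
    rw [Real.rpow_two]
    nlinarith
  have h4 : (n.divisors.card : ℝ) ≤ x ^ (ε / (k + 1)) := by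
    refine (h n).trans ((mul_le_mul h1 (Real.rpow_le_rpow (Nat.cast_nonneg _) h3 h0.le)
      (by positivity) (by positivity)).trans_eq ?_)
    rw [← Real.rpow_mul x0.le, ← Real.rpow_add x0]
    congr 1
    field_simp
    ring
  refine (pow_le_pow_left₀ (Nat.cast_nonneg _) h4 m).trans ?_
  rw [← Real.rpow_mul_natCast x0.le]
  refine Real.rpow_le_rpow_of_exponent_le x1 ?_
  rw [div_mul_eq_mul_div, div_le_iff₀ (by positivity)]
  have : (m : ℝ) ≤ k := by exact_mod_cast hm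
  nlinarith

lemma l2_E3d (hL : L2Stmt) (k Λ : ℕ) (hΛ : 1 ≤ Λ) : ∀ᶠ x : ℝ in atTop, ∀ (M m : ℕ) (a : ℕ → ℝ),
    m ≤ k → 1 ≤ M → (M : ℝ) ≤ 2 * x →
    (∀ n, |a n| ≤ (((ArithmeticFunction.zeta ^ m : ArithmeticFunction ℕ) n : ℕ) : ℝ)) →
    ∑ n ∈ Icc M (Λ * M), a n ^ 2 ≤ M * Real.log x ^ (k ^ 2 + 1) := by
  filter_upwards [E.ev_le_log (Λ * 3 ^ (k ^ 2)), E.ev_le_log 1,
    eventually_ge_atTop (2 * (Λ : ℝ)), eventually_ge_atTop 1] with x h1 l1 h2 x1 M m a hm hM hx ha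
  have hY : 1 ≤ Λ * M := Nat.mul_pos hΛ hM
  have hY' : (1 : ℝ) ≤ (Λ * M : ℕ) := by exact_mod_cast hY
  have h3 : Real.log (Λ * M : ℕ) ≤ 2 * Real.log x := by
    have h4 : ((Λ * M : ℕ) : ℝ) ≤ x ^ 2 := by
      push_cast
      have := mul_le_mul_of_nonneg_left hx (Nat.cast_nonneg (α := ℝ) Λ)
      nlinarith
    simpa using Real.log_le_log (by linarith) h4
  have h4 : 0 ≤ Real.log (Λ * M : ℕ) := Real.log_nonneg hY'
  calc ∑ n ∈ Icc M (Λ * M), a n ^ 2 ≤ ∑ n ∈ Icc 1 (Λ * M), a n ^ 2 :=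
        sum_le_sum_of_subset_of_nonneg (Icc_subset_Icc_left hM) fun _ _ _ => sq_nonneg _
    _ ≤ (Λ * M : ℕ) * (1 + Real.log (Λ * M : ℕ)) ^ (m ^ 2) := by
        refine le_trans (sum_le_sum fun n _ => ?_) (hL m _ hY)
        rw [← sq_abs]
        exact pow_le_pow_left₀ (abs_nonneg _) (ha n) 2
    _ ≤ (Λ * M : ℕ) * (3 * Real.log x) ^ (k ^ 2) := by
        refine mul_le_mul_of_nonneg_left ?_ (Nat.cast_nonneg _)
        exact (pow_le_pow_left₀ (by linarith) (by linarith) _).trans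
          (pow_le_pow_right₀ (by linarith) (Nat.pow_le_pow_left hm 2))
    _ = M * (Real.log x ^ (k ^ 2) * (Λ * 3 ^ (k ^ 2))) := by
        push_cast
        ring
    _ ≤ _ := by
        rw [pow_succ (Real.log x)]
        gcongr

lemma size_E3d {ι : Type} [Fintype ι] {x γ γ' : ℝ} (x1 : 1 ≤ x) (hγ : 0 ≤ γ)
    (h : γ ≤ γ' / (Fintype.card ι + 1)) {a : ι → ℝ} {N : ι → ℕ}
    (hN : ∀ i, x ^ (a i - γ) ≤ N i ∧ (N i : ℝ) ≤ x ^ (a i + γ)) (A : Finset ι) :
    x ^ (∑ l ∈ A, a l - γ') ≤ (∏ l ∈ A, N l : ℕ) ∧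
      ((∏ l ∈ A, N l : ℕ) : ℝ) ≤ x ^ (∑ l ∈ A, a l + γ') := by
  have x0 : 0 < x := by linarith
  have h1 : (A.card : ℝ) * γ ≤ γ' := by
    rw [le_div_iff₀ (by positivity)] at h
    have : (A.card : ℝ) ≤ Fintype.card ι := by exact_mod_cast card_le_univ A
    nlinarith
  push_cast
  constructor
  · refine le_trans ?_ (prod_le_prod (fun l _ => by positivity) fun l _ => (hN l).1)
    rw [← Real.rpow_sum_of_pos x0]
    refine Real.rpow_le_rpow_of_exponent_le x1 ?_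
    rw [sum_sub_distrib, sum_const, nsmul_eq_mul]
    linarith
  · refine (prod_le_prod (fun l _ => Nat.cast_nonneg _) fun l _ => (hN l).2).trans ?_
    rw [← Real.rpow_sum_of_pos x0]
    refine Real.rpow_le_rpow_of_exponent_le x1 ?_
    rw [sum_add_distrib, sum_const, nsmul_eq_mul]
    linarith

lemma BP_one_E3d (u : ℝ) : E.BP 1 (fun n => if n = 1 then 1 else 0) u = 1 := by
  rw [E.BP, E.FP, sum_eq_single 1]
  · simp [MP_2a1f0e_nt.GM.pw]
  · intro n _ hn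
    simp [hn]
  · simp

lemma FP_eq_E3d {s s' : Finset ℕ} {c : ℕ → ℝ} (h : ∀ n, c n ≠ 0 → n ∈ s)
    (h' : ∀ n, c n ≠ 0 → n ∈ s') (u : ℝ) : E.FP s c u = E.FP s' c u := by
  have key : ∀ s s' : Finset ℕ, (∀ n, c n ≠ 0 → n ∈ s') → E.FP s c u = E.FP (s ∩ s') c u := by
    intro s s' h'
    refine (sum_subset inter_subset_left fun n hn hn' => ?_).symm
    have : c n = 0 := by
      by_contra h0
      exact hn' (mem_inter.2 ⟨hn, h' n h0⟩)
    simp [this]
  rw [key s s' h', key s' s h, inter_comm]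

lemma split_E3d {ι M : Type} [Fintype ι] [DecidableEq ι] [CommMonoid M] {A : Finset ι} {i : ι}
    (hi : i ∉ A) (f : ι → M) :
    ∏ l, f l = (∏ l ∈ A, f l) * f i * ∏ l ∈ (univ \ A).erase i, f l := by
  rw [mul_assoc, mul_prod_erase _ _ (mem_sdiff.2 ⟨mem_univ i, hi⟩), mul_comm,
    prod_sdiff (subset_univ A)]

theorem e3d_of (hT : TriStmt) (hG : GeoStmt) (hB : BoxVStmt) (hL : L2Stmt) (hR : GrpStmt)
    (hP : Z.PrStmt) : E3D := by
  intro ι _ τ t η K A ht htτ hτ hη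
  classical
  set k := Fintype.card ι with hk
  have h2 : 0 < η / 2 := by positivity
  have hΛ : 1 ≤ 2 ^ k := Nat.one_le_two_pow
  have keyG := fun r : {r : Fin (K + 1) // 2 ≤ (r : ℕ)} => hG r.1 η r.2 hη
  choose μ γG hμ hγG hGq using keyG
  have keyT := fun r : {r : Fin (K + 1) // 2 ≤ (r : ℕ)} =>
    hT r.1 (2 ^ k) A (k ^ 2 + 1) (μ r) r.2 hΛ (hμ r)
  choose ε hε hTq using keyT
  have keyB := fun q : {q : ι × ι // q.1 ≠ q.2} =>
    hB ι K (2 * A + (k ^ 2 + 1) + 2) η (η / 2) q.1.1 q.1.2 q.2 hη h2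
  choose f hf hq using keyB
  have hγG' : ∀ r, 0 < γG r / (k + 1) := fun r => div_pos (hγG r) (by positivity)
  obtain ⟨γ, ⟨hγ2, hγ3⟩, hγ, hγ1⟩ := (((eventually_all.2 fun q => Ioc_mem_nhdsGT (hf q)).and
    (eventually_all.2 fun r => Ioc_mem_nhdsGT (hγG' r))).and (Ioc_mem_nhdsGT h2)).exists
  refine ⟨γ, hγ, ?_⟩
  filter_upwards [eventually_all.2 hq, eventually_all.2 hGq, eventually_all.2 hTq,
    eventually_all.2 fun r => div_E3d k (2 ^ k) (hε r), l2_E3d hL k (2 ^ k) hΛ,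
    E.prime_slot hP h2 (show (0 : ℝ) < 1 / 2000 by norm_num) (2 * A + (k ^ 2 + 1) + 2 + 2),
    E.ev_le_log 1, eventually_ge_atTop 1]
    with x hx hxG hxT hd hl2 hp l1 x1 pr a N g ha hE hS hN hpr hle
  obtain ⟨B, i, j, r, hr2, hrK, hiB, hjB, hij, hi, aj, hD, hE⟩ := hE
  have x0 : 0 < x := by linarith
  let r' : {r : Fin (K + 1) // 2 ≤ (r : ℕ)} := ⟨⟨r, by omega⟩, hr2⟩
  set R := (univ \ B).erase i with hRdef
  have ai : η ≤ a i := by linarith [hD.2.2.2.2.1, le_max_left 0 (τ - ∑ l ∈ B, a l)]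
  have low : ∀ l, η ≤ a l → x ^ (η / 2) ≤ (N l : ℝ) := fun l hl =>
    (Real.rpow_le_rpow_of_exponent_le x1 (by linarith)).trans (hN l).1
  obtain ⟨P, Q, hg⟩ := hpr i hi
  have sz := size_E3d x1 hγ.le (hγ3 r').2 hN
  have hM1 : ∀ C : Finset ι, 1 ≤ ∏ l ∈ C, N l := fun C =>
    Nat.succ_le_of_lt (prod_pos fun l _ => (hS l).1)
  have hM1' : ∀ C : Finset ι, (1 : ℝ) ≤ (∏ l ∈ C, N l : ℕ) := fun C => by exact_mod_cast hM1 C
  have hK1 : (1 : ℝ) ≤ N i := by exact_mod_cast (hS i).1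
  have hle' : ((∏ l ∈ B, N l : ℕ) : ℝ) * (N i * (∏ l ∈ R, N l : ℕ)) ≤ 2 * x := by
    rw [split_E3d hiB] at hle
    push_cast
    rwa [← mul_assoc]
  have hKP : (1 : ℝ) ≤ N i * (∏ l ∈ R, N l : ℕ) := one_le_mul_of_one_le_of_one_le hK1 (hM1' R)
  have hMx : ((∏ l ∈ B, N l : ℕ) : ℝ) ≤ 2 * x :=
    (le_mul_of_one_le_right (Nat.cast_nonneg _) hKP).trans hle'
  have hPx : ((∏ l ∈ R, N l : ℕ) : ℝ) ≤ 2 * x :=
    ((le_mul_of_one_le_left (Nat.cast_nonneg _) hK1).trans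
      (le_mul_of_one_le_left (by positivity) (hM1' B))).trans hle'
  have hsup : ∀ (C : Finset ι) (n : ℕ), (∏ l ∈ C, g l) n ≠ 0 →
      n ∈ Icc (∏ l ∈ C, N l) (2 ^ k * ∏ l ∈ C, N l) := fun C n hn =>
    Icc_subset_Icc_right (Nat.mul_le_mul_right _ (Nat.pow_le_pow_right two_pos (card_le_univ C)))
      ((hR ι C N g fun l _ => hS l).1 n hn)
  have hbd : ∀ C : Finset ι, ((∏ l ∈ C, N l : ℕ) : ℝ) ≤ 2 * x → ∀ n,
      |(∏ l ∈ C, g l) n| ≤ x ^ ε r' := by
    intro C hC n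
    by_cases hn : (∏ l ∈ C, g l) n = 0
    · rw [hn, abs_zero]
      positivity
    refine ((hR ι C N g fun l _ => hS l).2.2.1 n).trans (hd r' n _ (card_le_univ C) ?_)
    have h3 : (n : ℝ) ≤ (2 ^ k * ∏ l ∈ C, N l : ℕ) := by
      exact_mod_cast (mem_Icc.1 (hsup C n hn)).2
    rw [Nat.cast_mul] at h3
    exact h3.trans (mul_le_mul_of_nonneg_left hC (Nat.cast_nonneg _))
  have hDs : ∀ n, g i n ≠ 0 → n ∈ (Ico (N i) (2 * N i)).filter Nat.Prime := by
    intro n hn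
    refine mem_filter.2 ⟨mem_Ico.2 ((hS i).2.2 n hn), ?_⟩
    by_contra h0
    simp [hg, prI, h0] at hn
  have ht1 : max t (τ - η / 2) ≤ τ := max_le htτ.le (by linarith)
  have ht2 : 1 / 3 ≤ max t (τ - η / 2) := ht.trans (le_max_left _ _)
  have hγi : γ ≤ γG r' := (hγ3 r').2.trans (div_le_self (hγG r').le (by simp))
  rw [split_E3d hiB]
  refine hxT r' t (max t (τ - η / 2)) (∏ l ∈ B, N l) (N i) (∏ l ∈ R, N l)
    ((Ico (N i) (2 * N i)).filter Nat.Prime) _ _ _ ht (le_max_left _ _)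
    (hxG r' τ _ _ _ _ _ _ _ ht2 ht1 hτ (le_max_right _ _) hD (sz B).1
      ((Real.rpow_le_rpow_of_exponent_le x1 (by linarith)).trans (hN i).1)
      ((hN i).2.trans (Real.rpow_le_rpow_of_exponent_le x1 (by linarith))) (sz R).1 (sz R).2 hle')
    (fun n hn => ⟨(mem_filter.1 hn).2, mem_Ico.1 (mem_filter.1 hn).1⟩) (hM1 B) hle' (hsup B) hDs
    (hsup R) (hbd B hMx) (hS i).2.1 (hbd R hPx)
    (hl2 _ _ _ (card_le_univ B) (hM1 B) hMx (hR ι B N g fun l _ => hS l).2.1) ?_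
  have hf' := (hγ2 ⟨(j, i), hij.symm⟩).2
  have eT : Real.log x / x ^ (-max t (τ - η / 2)) = x ^ max t (τ - η / 2) * Real.log x := by
    rw [Real.rpow_neg x0.le, div_inv_eq_mul, mul_comm]
  have hsum : ∑ l, (if l ∈ B then 0 else a l) = ∑ l ∈ univ \ B, a l := by
    rw [← sum_sdiff (subset_univ B), sum_eq_zero (s := B) fun l hl => if_pos hl, add_zero]
    exact sum_congr rfl fun l hl => if_neg (mem_sdiff.1 hl).2
  have hRB : ∀ l ∈ R, l ∉ B := fun l hl => (mem_sdiff.1 (mem_of_mem_erase hl)).2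
  have b1 := hx ⟨(j, i), hij.symm⟩ τ (Real.log x / x ^ (-max t (τ - η / 2)))
    (fun l => if l ∈ B then 0 else a l) (fun l => if l ∈ B then 1 else N l)
    (fun l => if l ∈ B then fun n => if n = 1 then 1 else 0 else g l) (by linarith) hτ
    (by
      rw [eT]
      exact (Real.rpow_le_rpow_of_exponent_le x1 (by linarith)).trans
        (le_mul_of_one_le_right (by positivity) l1))
    (by
      rw [eT]
      exact mul_le_mul_of_nonneg_right (Real.rpow_le_rpow_of_exponent_le x1 ht1) (by linarith))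
    (fun l => by
      split_ifs
      · exact ⟨le_rfl, zero_le_one⟩
      · exact ha l)
    (by
      rw [hsum]
      exact hE)
    (fun l => by
      split_ifs
      · refine ⟨le_rfl, ?_, ?_⟩
        · simpa using Real.rpow_le_one_of_one_le_of_nonpos x1 (neg_nonpos.2 (hγ.le.trans hf'))
        · simpa using Real.one_le_rpow x1 (hγ.le.trans hf')
      · exact ⟨(hS l).1, (Real.rpow_le_rpow_of_exponent_le x1 (by linarith)).trans (hN l).1,
          (hN l).2.trans (Real.rpow_le_rpow_of_exponent_le x1 (by linarith))⟩)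
    (by simpa only [if_neg hjB] using low j aj)
    (fun l n => by
      split_ifs
      · beta_reduce
        split_ifs <;> simp
      · exact (hS l).2.1 n)
    (fun s h3 h4 => by
      simp only [if_neg hiB, hg]
      exact hp _ P Q s (low i ai) h3 h4)
  refine le_of_eq_of_le (intervalIntegral.integral_congr fun u _ => ?_) (b1.trans_eq ?_)
  · have hfp : E.FP (Icc (∏ l ∈ R, N l) (2 ^ k * ∏ l ∈ R, N l)) (⇑(∏ l ∈ R, g l)) u =
        ∏ l ∈ R, E.BP (N l) (g l) u := (hR ι R N g fun l _ => hS l).2.2.2 _ u (hsup R)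
    rw [split_E3d hiB, prod_eq_one (s := B) fun l hl => by
      rw [if_pos hl, if_pos hl, BP_one_E3d, norm_one, one_pow], one_mul, if_neg hiB, if_neg hiB,
      hfp, norm_prod, ← prod_pow]
    congr 1
    · rw [E.BP, FP_eq_E3d hDs fun n hn =>
        mem_Icc.2 ⟨((hS i).2.2 n hn).1, ((hS i).2.2 n hn).2.le⟩]
    · exact prod_congr rfl fun l hl => by rw [if_neg (hRB l hl), if_neg (hRB l hl)]
  · rw [split_E3d hiB, prod_eq_one (s := B) fun l hl => by rw [if_pos hl, Nat.cast_one],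
      one_mul, if_neg hiB, Nat.cast_prod,
      prod_congr rfl fun l hl => by rw [if_neg (hRB l hl)]]

end Pool.Agent.MP_c853c5_nt.DS

end

section

set_option autoImplicit false

open Finset Filter Real
open scoped ComplexConjugate

namespace Pool.Agent.MP_c853c5_nt.DS

open Pool.Agent.MP_88bd62_nt.U (ex)

lemma exists_rpow_Geo {x y : ℝ} (hx : 1 < x) (hy : 0 < y) : ∃ e : ℝ, y = x ^ e :=
  ⟨logb x y, (rpow_logb (by linarith) hx.ne' hy).symm⟩

lemma pow_Geo {x : ℝ} (hx : 0 < x) (e : ℝ) (n : ℕ) : (x ^ e) ^ n = x ^ (n * e) := by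
  rw [← rpow_natCast, ← rpow_mul hx.le, mul_comm]

lemma sqrt_Geo {x : ℝ} (hx : 0 < x) (e : ℝ) : √(x ^ e) = x ^ (e / 2) := by
  rw [sqrt_eq_rpow, ← rpow_mul hx.le]
  congr 1
  ring

theorem geo_stmt : GeoStmt := by
  intro r η hr hη
  have hr2 : (2 : ℝ) ≤ r := by exact_mod_cast hr
  obtain ⟨γ, hγ, hrγ⟩ : ∃ γ : ℝ, 0 < γ ∧ r * γ = η / 16 :=
    ⟨η / (16 * r), by positivity, by field_simp⟩
  have hγη : γ ≤ η / 32 := by nlinarith
  refine ⟨η / 4, γ, by positivity, hγ, ?_⟩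
  filter_upwards [eventually_gt_atTop 1,
    (tendsto_rpow_atTop hγ).eventually_ge_atTop 2] with x hx h2
  intro τ t₁ a₀ a₂ a₁ M K P ht1 ht2 ht3 ht4 hD hM hK1 hK2 hP1 hP2 hN X hX1 hX2
  have hx0 : 0 < x := by linarith
  obtain ⟨d1, d2, d3, d4, d5, d6, d7⟩ := hD
  have hM0 : (0 : ℝ) < M := (rpow_pos_of_pos hx0 _).trans_le hM
  have hK0 : (0 : ℝ) < K := (rpow_pos_of_pos hx0 _).trans_le hK1
  have hP0 : (0 : ℝ) < P := (rpow_pos_of_pos hx0 _).trans_le hP1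
  have hX0 : 0 < X := by linarith
  have hL0 : 0 < Lm X (x ^ (-t₁)) K P := one_pos.trans_le (one_le_Lm _ _ _ _)
  obtain ⟨mm, hm⟩ := exists_rpow_Geo hx hM0
  obtain ⟨kk, hk⟩ := exists_rpow_Geo hx hK0
  obtain ⟨pp, hp⟩ := exists_rpow_Geo hx hP0
  obtain ⟨xx, hxx⟩ := exists_rpow_Geo hx hX0
  obtain ⟨ll, hl⟩ := exists_rpow_Geo hx hL0
  have up : ∀ {a b : ℝ}, a ≤ b → x ^ a ≤ x ^ b := fun h => rpow_le_rpow_of_exponent_le hx.le h
  have dn : ∀ {a b : ℝ}, x ^ a ≤ x ^ b → a ≤ b := fun h => (rpow_le_rpow_left_iff hx).1 h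
  have m1 : a₀ - γ ≤ mm := dn (hm ▸ hM)
  have k1 : a₂ - γ ≤ kk := dn (hk ▸ hK1)
  have k2 : kk ≤ a₂ + γ := dn (hk ▸ hK2)
  have p1 : a₁ - γ ≤ pp := dn (hp ▸ hP1)
  have p2 : pp ≤ a₁ + γ := dn (hp ▸ hP2)
  have x1 : 1 ≤ xx + γ := by
    refine dn ?_
    rw [rpow_add hx0, rpow_one, ← hxx]
    have e1 := mul_le_mul_of_nonneg_left h2 hX0.le
    linarith
  have n1 : mm + (kk + pp) ≤ γ + 1 := by
    refine dn ?_
    rw [rpow_add hx0, rpow_add hx0, rpow_add hx0, rpow_one, ← hm, ← hk, ← hp]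
    exact hN.trans (mul_le_mul_of_nonneg_right h2 hx0.le)
  have k0a : (0 : ℝ) ≤ max 0 (τ - a₀) := le_max_left _ _
  have k0b : τ - a₀ ≤ max 0 (τ - a₀) := le_max_right _ _
  generalize max 0 (τ - a₀) = k₀ at *
  have l1 : ll ≤ k₀ + 3 * γ := by
    refine dn ?_
    rw [← hl]
    refine max_le (one_le_rpow hx.le (by linarith)) ?_
    rw [hk, hp, hxx, ← rpow_add hx0, ← rpow_add hx0, ← rpow_sub hx0]
    exact up (by linarith)
  have l2 : r * ll ≤ r * k₀ + 3 * (η / 16) := by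
    have e1 := mul_le_mul_of_nonneg_left l1 (Nat.cast_nonneg r : (0 : ℝ) ≤ r)
    linarith
  have hinv : 1 / x ^ (-t₁) = x ^ t₁ := by rw [rpow_neg hx0.le, one_div, inv_inv]
  have c1 : ((r - 1 : ℕ) : ℝ) = r - 1 := by rw [Nat.cast_sub (by omega), Nat.cast_one]
  have c2 : ((2 * r - 2 : ℕ) : ℝ) = 2 * r - 2 := by
    rw [Nat.cast_sub (by omega)]
    push_cast
    ring
  refine ⟨hX1, hX2, up (by linarith), up (by linarith), Nat.cast_pos.1 hK0, Nat.cast_pos.1 hP0,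
    ?_, ?_, ?_, ?_, ?_, ?_, ?_⟩
  · rw [hp, ← rpow_add hx0, ← rpow_add hx0, ← rpow_zero x]
    exact up (by linarith)
  · rw [hl, hk, hp, ← rpow_add hx0, ← rpow_add hx0, pow_Geo hx0, pow_Geo hx0, ← rpow_add hx0, c1]
    refine up ?_
    have e1 : (r - 1) * (a₁ + a₂ - τ - 2 * γ) ≤ (r - 1) * (kk + pp + -t₁) :=
      mul_le_mul_of_nonneg_left (by linarith) (by linarith)
    linarith
  · rw [hk, hp, hxx, ← rpow_add hx0, pow_Geo hx0, ← rpow_add hx0, c2]
    refine up ?_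
    have e1 : (2 * r - 2) * kk ≤ (2 * r - 2) * (a₂ + γ) :=
      mul_le_mul_of_nonneg_left (by linarith) (by linarith)
    linarith
  · have e1 : zb (1 / x ^ (-t₁)) (P / K) ≤ x ^ (min (t₁ / 2) (t₁ / 6 + (pp - kk) / 2)) := by
      rw [zb, hinv, hk, hp, ← rpow_sub hx0, sqrt_Geo hx0, sqrt_Geo hx0, ← rpow_mul hx0.le,
        ← rpow_add hx0]
      rcases min_choice (t₁ / 2) (t₁ / 6 + (pp - kk) / 2) with h | h
      · rw [h]
        exact min_le_left _ _
      · rw [h]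
        exact (min_le_right _ _).trans (up (by linarith))
    refine (mul_le_mul_of_nonneg_right (mul_le_mul_of_nonneg_left e1 (by positivity))
      (by positivity)).trans ?_
    rw [hl, hk, hp, pow_Geo hx0, ← rpow_add hx0, ← rpow_add hx0, ← rpow_sub hx0]
    refine up ?_
    have e2 := min_le_left (t₁ / 2) (t₁ / 6 + (pp - kk) / 2)
    have e3 := min_le_right (t₁ / 2) (t₁ / 6 + (pp - kk) / 2)
    push_cast
    rcases min_choice (τ / 2) (τ / 6 + (a₁ - a₂) / 2) with h | h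
    · rw [h] at d4
      linarith
    · rw [h] at d4
      linarith
  · rw [hl, hk, ← rpow_add hx0]
    exact up (by linarith)
  · rw [hl, hk, hp, hxx, pow_Geo hx0, ← rpow_add hx0, ← rpow_add hx0, ← rpow_add hx0,
      ← rpow_add hx0]
    refine up ?_
    push_cast
    linarith
  · rw [hl, hp, hinv, pow_Geo hx0, sqrt_Geo hx0, ← rpow_add hx0, ← rpow_add hx0]
    refine up ?_
    push_cast
    linarith

end Pool.Agent.MP_c853c5_nt.DS

end

section

/-!
From exponents to sizes, and the final bound.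
-/

set_option autoImplicit false

open Finset Filter Real
open scoped ComplexConjugate

namespace Pool.Agent.MP_c853c5_nt.DT

open Pool.Agent.MP_88bd62_nt.U (ex)
open DS
open S (AF Slot prI Dl)

theorem geo_stmt : GeoStmt := by
  intro r η hr hη
  have hr2 : (2 : ℝ) ≤ r := by exact_mod_cast hr
  obtain ⟨γ, hγ, hrγ⟩ : ∃ γ : ℝ, 0 < γ ∧ r * γ = η / 16 :=
    ⟨η / (16 * r), by positivity, by field_simp⟩
  have hγη : γ ≤ η / 32 := by nlinarith
  refine ⟨η / 4, γ, by positivity, hγ, ?_⟩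
  filter_upwards [eventually_gt_atTop 1,
    (tendsto_rpow_atTop hγ).eventually_ge_atTop 2] with x hx h2
  intro τ t₁ a₀ a₂ a₁ M K P ht1 ht2 ht3 ht4 hD hM hK1 hK2 hP1 hP2 hN X hX1 hX2
  have hx0 : 0 < x := by linarith
  obtain ⟨d1, d2, d3, d4, d5, d6, d7, d8, d9⟩ := hD
  have hM0 : (0 : ℝ) < M := (rpow_pos_of_pos hx0 _).trans_le hM
  have hK0 : (0 : ℝ) < K := (rpow_pos_of_pos hx0 _).trans_le hK1
  have hP0 : (0 : ℝ) < P := (rpow_pos_of_pos hx0 _).trans_le hP1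
  have hX0 : 0 < X := by linarith
  have hL0 : 0 < Lm X (x ^ (-t₁)) K P := one_pos.trans_le (one_le_Lm _ _ _ _)
  obtain ⟨mm, hm⟩ := exists_rpow_Geo hx hM0
  obtain ⟨kk, hk⟩ := exists_rpow_Geo hx hK0
  obtain ⟨pp, hp⟩ := exists_rpow_Geo hx hP0
  obtain ⟨xx, hxx⟩ := exists_rpow_Geo hx hX0
  obtain ⟨ll, hl⟩ := exists_rpow_Geo hx hL0
  have up : ∀ {a b : ℝ}, a ≤ b → x ^ a ≤ x ^ b := fun h => rpow_le_rpow_of_exponent_le hx.le h
  have dn : ∀ {a b : ℝ}, x ^ a ≤ x ^ b → a ≤ b := fun h => (rpow_le_rpow_left_iff hx).1 h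
  have m1 : a₀ - γ ≤ mm := dn (hm ▸ hM)
  have k1 : a₂ - γ ≤ kk := dn (hk ▸ hK1)
  have k2 : kk ≤ a₂ + γ := dn (hk ▸ hK2)
  have p1 : a₁ - γ ≤ pp := dn (hp ▸ hP1)
  have p2 : pp ≤ a₁ + γ := dn (hp ▸ hP2)
  have x1 : 1 ≤ xx + γ := by
    refine dn ?_
    rw [rpow_add hx0, rpow_one, ← hxx]
    have e1 := mul_le_mul_of_nonneg_left h2 hX0.le
    linarith
  have n1 : mm + (kk + pp) ≤ γ + 1 := by
    refine dn ?_
    rw [rpow_add hx0, rpow_add hx0, rpow_add hx0, rpow_one, ← hm, ← hk, ← hp]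
    exact hN.trans (mul_le_mul_of_nonneg_right h2 hx0.le)
  have k0a : (0 : ℝ) ≤ max 0 (τ - a₀) := le_max_left _ _
  have k0b : τ - a₀ ≤ max 0 (τ - a₀) := le_max_right _ _
  generalize max 0 (τ - a₀) = k₀ at *
  have l1 : ll ≤ k₀ + 3 * γ := by
    refine dn ?_
    rw [← hl]
    refine max_le (one_le_rpow hx.le (by linarith)) ?_
    rw [hk, hp, hxx, ← rpow_add hx0, ← rpow_add hx0, ← rpow_sub hx0]
    exact up (by linarith)
  have l2 : r * ll ≤ r * k₀ + 3 * (η / 16) := by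
    have e1 := mul_le_mul_of_nonneg_left l1 (Nat.cast_nonneg r : (0 : ℝ) ≤ r)
    linarith
  have hinv : 1 / x ^ (-t₁) = x ^ t₁ := by rw [rpow_neg hx0.le, one_div, inv_inv]
  have c1 : ((r - 1 : ℕ) : ℝ) = r - 1 := by rw [Nat.cast_sub (by omega), Nat.cast_one]
  have c2 : ((2 * r - 2 : ℕ) : ℝ) = 2 * r - 2 := by
    rw [Nat.cast_sub (by omega)]
    push_cast
    ring
  refine ⟨hX1, hX2, up (by linarith), up (by linarith), Nat.cast_pos.1 hK0, Nat.cast_pos.1 hP0,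
    ?_, ?_, ?_, ?_, ?_, ?_, ?_, ?_, ?_⟩
  · rw [hp, hk, ← rpow_add hx0, ← rpow_add hx0]
    exact up (by linarith)
  · rw [hl, hk, hp, ← rpow_add hx0, ← rpow_add hx0, pow_Geo hx0, pow_Geo hx0, ← rpow_add hx0, c1]
    refine up ?_
    have e1 : (r - 1) * (a₁ + a₂ - τ - 2 * γ) ≤ (r - 1) * (kk + pp + -t₁) :=
      mul_le_mul_of_nonneg_left (by linarith) (by linarith)
    linarith
  · rw [hk, hp, hxx, ← rpow_add hx0, pow_Geo hx0, ← rpow_add hx0, c2]
    refine up ?_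
    have e1 : (2 * r - 2) * kk ≤ (2 * r - 2) * (a₂ + γ) :=
      mul_le_mul_of_nonneg_left (by linarith) (by linarith)
    linarith
  · have e1 : zb (1 / x ^ (-t₁)) (P / K) ≤ x ^ (min (t₁ / 2) (t₁ / 6 + (pp - kk) / 2)) := by
      rw [zb, hinv, hk, hp, ← rpow_sub hx0, sqrt_Geo hx0, sqrt_Geo hx0, ← rpow_mul hx0.le,
        ← rpow_add hx0]
      rcases min_choice (t₁ / 2) (t₁ / 6 + (pp - kk) / 2) with h | h
      · rw [h]
        exact min_le_left _ _
      · rw [h]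
        exact (min_le_right _ _).trans (up (by linarith))
    refine (mul_le_mul_of_nonneg_right (mul_le_mul_of_nonneg_left e1 (by positivity))
      (by positivity)).trans ?_
    rw [hl, hk, hp, pow_Geo hx0, ← rpow_add hx0, ← rpow_add hx0, ← rpow_sub hx0]
    refine up ?_
    have e2 := min_le_left (t₁ / 2) (t₁ / 6 + (pp - kk) / 2)
    have e3 := min_le_right (t₁ / 2) (t₁ / 6 + (pp - kk) / 2)
    push_cast
    rcases min_choice (τ / 2) (τ / 6 + (a₁ - a₂) / 2) with h | h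
    · rw [h] at d4
      linarith
    · rw [h] at d4
      linarith
  · rw [hl, hk, ← rpow_add hx0]
    exact up (by linarith)
  · rw [hl, hk, hp, hxx, pow_Geo hx0, ← rpow_add hx0, ← rpow_add hx0, ← rpow_add hx0,
      ← rpow_add hx0]
    refine up ?_
    push_cast
    linarith
  · rw [hl, hp, hinv, pow_Geo hx0, sqrt_Geo hx0, ← rpow_add hx0, ← rpow_add hx0]
    refine up ?_
    push_cast
    linarith
  · rw [hl, hk, pow_Geo hx0, pow_Geo hx0, ← rpow_add hx0, c1]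
    refine up ?_
    have e1 : (r - 1) * (a₂ - γ) ≤ (r - 1) * kk :=
      mul_le_mul_of_nonneg_left (by linarith) (by linarith)
    linarith
  · rw [hl, hp, pow_Geo hx0, sqrt_Geo hx0, ← rpow_add hx0, ← rpow_add hx0]
    refine up ?_
    push_cast
    linarith

theorem e3d_of (hT : TriStmt) (hG : GeoStmt) (hB : BoxVStmt) (hL : L2Stmt) (hR : GrpStmt)
    (hP : Z.PrStmt) : E3D := by
  intro ι _ τ t η K A ht htτ hτ hη
  classical
  set k := Fintype.card ι with hk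
  have h2 : 0 < η / 2 := by positivity
  have hΛ : 1 ≤ 2 ^ k := Nat.one_le_two_pow
  have keyG := fun r : {r : Fin (K + 1) // 2 ≤ (r : ℕ)} => hG r.1 η r.2 hη
  choose μ γG hμ hγG hGq using keyG
  have keyT := fun r : {r : Fin (K + 1) // 2 ≤ (r : ℕ)} =>
    hT r.1 (2 ^ k) A (k ^ 2 + 1) (μ r) r.2 hΛ (hμ r)
  choose ε hε hTq using keyT
  have keyB := fun q : {q : ι × ι // q.1 ≠ q.2} =>
    hB ι K (2 * A + (k ^ 2 + 1) + 2) η (η / 2) q.1.1 q.1.2 q.2 hη h2
  choose f hf hq using keyB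
  have hγG' : ∀ r, 0 < γG r / (k + 1) := fun r => div_pos (hγG r) (by positivity)
  obtain ⟨γ, ⟨hγ2, hγ3⟩, hγ, hγ1⟩ := (((eventually_all.2 fun q => Ioc_mem_nhdsGT (hf q)).and
    (eventually_all.2 fun r => Ioc_mem_nhdsGT (hγG' r))).and (Ioc_mem_nhdsGT h2)).exists
  refine ⟨γ, hγ, ?_⟩
  filter_upwards [eventually_all.2 hq, eventually_all.2 hGq, eventually_all.2 hTq,
    eventually_all.2 fun r => div_E3d k (2 ^ k) (hε r), l2_E3d hL k (2 ^ k) hΛ,
    E.prime_slot hP h2 (show (0 : ℝ) < 1 / 2000 by norm_num) (2 * A + (k ^ 2 + 1) + 2 + 2),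
    E.ev_le_log 1, eventually_ge_atTop 1]
    with x hx hxG hxT hd hl2 hp l1 x1 pr a N g ha hE hS hN hpr hle
  obtain ⟨B, i, j, r, hr2, hrK, hiB, hjB, hij, hi, aj, hD, hE⟩ := hE
  have x0 : 0 < x := by linarith
  let r' : {r : Fin (K + 1) // 2 ≤ (r : ℕ)} := ⟨⟨r, by omega⟩, hr2⟩
  set R := (univ \ B).erase i with hRdef
  have ai : η ≤ a i := by linarith [hD.2.2.2.2.1, le_max_left 0 (τ - ∑ l ∈ B, a l)]
  have low : ∀ l, η ≤ a l → x ^ (η / 2) ≤ (N l : ℝ) := fun l hl =>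
    (Real.rpow_le_rpow_of_exponent_le x1 (by linarith)).trans (hN l).1
  obtain ⟨P, Q, hg⟩ := hpr i hi
  have sz := size_E3d x1 hγ.le (hγ3 r').2 hN
  have hM1 : ∀ C : Finset ι, 1 ≤ ∏ l ∈ C, N l := fun C =>
    Nat.succ_le_of_lt (prod_pos fun l _ => (hS l).1)
  have hM1' : ∀ C : Finset ι, (1 : ℝ) ≤ (∏ l ∈ C, N l : ℕ) := fun C => by exact_mod_cast hM1 C
  have hK1 : (1 : ℝ) ≤ N i := by exact_mod_cast (hS i).1
  have hle' : ((∏ l ∈ B, N l : ℕ) : ℝ) * (N i * (∏ l ∈ R, N l : ℕ)) ≤ 2 * x := by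
    rw [split_E3d hiB] at hle
    push_cast
    rwa [← mul_assoc]
  have hKP : (1 : ℝ) ≤ N i * (∏ l ∈ R, N l : ℕ) := one_le_mul_of_one_le_of_one_le hK1 (hM1' R)
  have hMx : ((∏ l ∈ B, N l : ℕ) : ℝ) ≤ 2 * x :=
    (le_mul_of_one_le_right (Nat.cast_nonneg _) hKP).trans hle'
  have hPx : ((∏ l ∈ R, N l : ℕ) : ℝ) ≤ 2 * x :=
    ((le_mul_of_one_le_left (Nat.cast_nonneg _) hK1).trans
      (le_mul_of_one_le_left (by positivity) (hM1' B))).trans hle'
  have hsup : ∀ (C : Finset ι) (n : ℕ), (∏ l ∈ C, g l) n ≠ 0 →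
      n ∈ Icc (∏ l ∈ C, N l) (2 ^ k * ∏ l ∈ C, N l) := fun C n hn =>
    Icc_subset_Icc_right (Nat.mul_le_mul_right _ (Nat.pow_le_pow_right two_pos (card_le_univ C)))
      ((hR ι C N g fun l _ => hS l).1 n hn)
  have hbd : ∀ C : Finset ι, ((∏ l ∈ C, N l : ℕ) : ℝ) ≤ 2 * x → ∀ n,
      |(∏ l ∈ C, g l) n| ≤ x ^ ε r' := by
    intro C hC n
    by_cases hn : (∏ l ∈ C, g l) n = 0
    · rw [hn, abs_zero]
      positivity
    refine ((hR ι C N g fun l _ => hS l).2.2.1 n).trans (hd r' n _ (card_le_univ C) ?_)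
    have h3 : (n : ℝ) ≤ (2 ^ k * ∏ l ∈ C, N l : ℕ) := by
      exact_mod_cast (mem_Icc.1 (hsup C n hn)).2
    rw [Nat.cast_mul] at h3
    exact h3.trans (mul_le_mul_of_nonneg_left hC (Nat.cast_nonneg _))
  have hDs : ∀ n, g i n ≠ 0 → n ∈ (Ico (N i) (2 * N i)).filter Nat.Prime := by
    intro n hn
    refine mem_filter.2 ⟨mem_Ico.2 ((hS i).2.2 n hn), ?_⟩
    by_contra h0
    simp [hg, prI, h0] at hn
  have ht1 : max t (τ - η / 2) ≤ τ := max_le htτ.le (by linarith)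
  have ht2 : 1 / 3 ≤ max t (τ - η / 2) := ht.trans (le_max_left _ _)
  have hγi : γ ≤ γG r' := (hγ3 r').2.trans (div_le_self (hγG r').le (by simp))
  rw [split_E3d hiB]
  refine hxT r' t (max t (τ - η / 2)) (∏ l ∈ B, N l) (N i) (∏ l ∈ R, N l)
    ((Ico (N i) (2 * N i)).filter Nat.Prime) _ _ _ ht (le_max_left _ _)
    (hxG r' τ _ _ _ _ _ _ _ ht2 ht1 hτ (le_max_right _ _) hD (sz B).1
      ((Real.rpow_le_rpow_of_exponent_le x1 (by linarith)).trans (hN i).1)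
      ((hN i).2.trans (Real.rpow_le_rpow_of_exponent_le x1 (by linarith))) (sz R).1 (sz R).2 hle')
    (fun n hn => ⟨(mem_filter.1 hn).2, mem_Ico.1 (mem_filter.1 hn).1⟩) (hM1 B) hle' (hsup B) hDs
    (hsup R) (hbd B hMx) (hS i).2.1 (hbd R hPx)
    (hl2 _ _ _ (card_le_univ B) (hM1 B) hMx (hR ι B N g fun l _ => hS l).2.1) ?_
  have hf' := (hγ2 ⟨(j, i), hij.symm⟩).2
  have eT : Real.log x / x ^ (-max t (τ - η / 2)) = x ^ max t (τ - η / 2) * Real.log x := by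
    rw [Real.rpow_neg x0.le, div_inv_eq_mul, mul_comm]
  have hsum : ∑ l, (if l ∈ B then 0 else a l) = ∑ l ∈ univ \ B, a l := by
    rw [← sum_sdiff (subset_univ B), sum_eq_zero (s := B) fun l hl => if_pos hl, add_zero]
    exact sum_congr rfl fun l hl => if_neg (mem_sdiff.1 hl).2
  have hRB : ∀ l ∈ R, l ∉ B := fun l hl => (mem_sdiff.1 (mem_of_mem_erase hl)).2
  have b1 := hx ⟨(j, i), hij.symm⟩ τ (Real.log x / x ^ (-max t (τ - η / 2)))
    (fun l => if l ∈ B then 0 else a l) (fun l => if l ∈ B then 1 else N l)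
    (fun l => if l ∈ B then fun n => if n = 1 then 1 else 0 else g l) (by linarith) hτ
    (by
      rw [eT]
      exact (Real.rpow_le_rpow_of_exponent_le x1 (by linarith)).trans
        (le_mul_of_one_le_right (by positivity) l1))
    (by
      rw [eT]
      exact mul_le_mul_of_nonneg_right (Real.rpow_le_rpow_of_exponent_le x1 ht1) (by linarith))
    (fun l => by
      split_ifs
      · exact ⟨le_rfl, zero_le_one⟩
      · exact ha l)
    (by
      rw [hsum]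
      exact hE)
    (fun l => by
      split_ifs
      · refine ⟨le_rfl, ?_, ?_⟩
        · simpa using Real.rpow_le_one_of_one_le_of_nonpos x1 (neg_nonpos.2 (hγ.le.trans hf'))
        · simpa using Real.one_le_rpow x1 (hγ.le.trans hf')
      · exact ⟨(hS l).1, (Real.rpow_le_rpow_of_exponent_le x1 (by linarith)).trans (hN l).1,
          (hN l).2.trans (Real.rpow_le_rpow_of_exponent_le x1 (by linarith))⟩)
    (by simpa only [if_neg hjB] using low j aj)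
    (fun l n => by
      split_ifs
      · beta_reduce
        split_ifs <;> simp
      · exact (hS l).2.1 n)
    (fun s h3 h4 => by
      simp only [if_neg hiB, hg]
      exact hp _ P Q s (low i ai) h3 h4)
  refine le_of_eq_of_le (intervalIntegral.integral_congr fun u _ => ?_) (b1.trans_eq ?_)
  · have hfp : E.FP (Icc (∏ l ∈ R, N l) (2 ^ k * ∏ l ∈ R, N l)) (⇑(∏ l ∈ R, g l)) u =
        ∏ l ∈ R, E.BP (N l) (g l) u := (hR ι R N g fun l _ => hS l).2.2.2 _ u (hsup R)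
    rw [split_E3d hiB, prod_eq_one (s := B) fun l hl => by
      rw [if_pos hl, if_pos hl, BP_one_E3d, norm_one, one_pow], one_mul, if_neg hiB, if_neg hiB,
      hfp, norm_prod, ← prod_pow]
    congr 1
    · rw [E.BP, FP_eq_E3d hDs fun n hn =>
        mem_Icc.2 ⟨((hS i).2.2 n hn).1, ((hS i).2.2 n hn).2.le⟩]
    · exact prod_congr rfl fun l hl => by rw [if_neg (hRB l hl), if_neg (hRB l hl)]
  · rw [split_E3d hiB, prod_eq_one (s := B) fun l hl => by rw [if_pos hl, Nat.cast_one],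
      one_mul, if_neg hiB, Nat.cast_prod,
      prod_congr rfl fun l hl => by rw [if_neg (hRB l hl)]]

end Pool.Agent.MP_c853c5_nt.DT

end

section

/-!
From exponents to sizes, and the final bound.
-/

set_option autoImplicit false

open Finset Filter Real
open scoped ComplexConjugate

namespace Pool.Agent.MP_c853c5_nt.DU

open Pool.Agent.MP_88bd62_nt.U (ex)
open DS
open S (AF Slot prI Dl)

theorem geo_stmt : GeoStmt := by
  intro r η hr hη
  have hr2 : (2 : ℝ) ≤ r := by exact_mod_cast hr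
  obtain ⟨γ, hγ, hrγ⟩ : ∃ γ : ℝ, 0 < γ ∧ r * γ = η / 16 :=
    ⟨η / (16 * r), by positivity, by field_simp⟩
  have hγη : γ ≤ η / 32 := by nlinarith
  refine ⟨η / 4, γ, by positivity, hγ, ?_⟩
  filter_upwards [eventually_gt_atTop 1,
    (tendsto_rpow_atTop hγ).eventually_ge_atTop 2] with x hx h2
  intro τ t₁ a₀ a₂ a₁ M K P ht1 ht2 ht3 ht4 hD hM hK1 hK2 hP1 hP2 hN X hX1 hX2
  have hx0 : 0 < x := by linarith
  obtain ⟨d1, d2, d3, d5, d6, d7, d8, d9⟩ := hD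
  have hM0 : (0 : ℝ) < M := (rpow_pos_of_pos hx0 _).trans_le hM
  have hK0 : (0 : ℝ) < K := (rpow_pos_of_pos hx0 _).trans_le hK1
  have hP0 : (0 : ℝ) < P := (rpow_pos_of_pos hx0 _).trans_le hP1
  have hX0 : 0 < X := by linarith
  have hL0 : 0 < Lm X (x ^ (-t₁)) K P := one_pos.trans_le (one_le_Lm _ _ _ _)
  obtain ⟨mm, hm⟩ := exists_rpow_Geo hx hM0
  obtain ⟨kk, hk⟩ := exists_rpow_Geo hx hK0
  obtain ⟨pp, hp⟩ := exists_rpow_Geo hx hP0
  obtain ⟨xx, hxx⟩ := exists_rpow_Geo hx hX0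
  obtain ⟨ll, hl⟩ := exists_rpow_Geo hx hL0
  have up : ∀ {a b : ℝ}, a ≤ b → x ^ a ≤ x ^ b := fun h => rpow_le_rpow_of_exponent_le hx.le h
  have dn : ∀ {a b : ℝ}, x ^ a ≤ x ^ b → a ≤ b := fun h => (rpow_le_rpow_left_iff hx).1 h
  have m1 : a₀ - γ ≤ mm := dn (hm ▸ hM)
  have k1 : a₂ - γ ≤ kk := dn (hk ▸ hK1)
  have k2 : kk ≤ a₂ + γ := dn (hk ▸ hK2)
  have p1 : a₁ - γ ≤ pp := dn (hp ▸ hP1)
  have p2 : pp ≤ a₁ + γ := dn (hp ▸ hP2)
  have x1 : 1 ≤ xx + γ := by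
    refine dn ?_
    rw [rpow_add hx0, rpow_one, ← hxx]
    have e1 := mul_le_mul_of_nonneg_left h2 hX0.le
    linarith
  have n1 : mm + (kk + pp) ≤ γ + 1 := by
    refine dn ?_
    rw [rpow_add hx0, rpow_add hx0, rpow_add hx0, rpow_one, ← hm, ← hk, ← hp]
    exact hN.trans (mul_le_mul_of_nonneg_right h2 hx0.le)
  have k0a : (0 : ℝ) ≤ max 0 (τ - a₀) := le_max_left _ _
  have k0b : τ - a₀ ≤ max 0 (τ - a₀) := le_max_right _ _
  generalize max 0 (τ - a₀) = k₀ at *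
  have l1 : ll ≤ k₀ + 3 * γ := by
    refine dn ?_
    rw [← hl]
    refine max_le (one_le_rpow hx.le (by linarith)) ?_
    rw [hk, hp, hxx, ← rpow_add hx0, ← rpow_add hx0, ← rpow_sub hx0]
    exact up (by linarith)
  have l2 : r * ll ≤ r * k₀ + 3 * (η / 16) := by
    have e1 := mul_le_mul_of_nonneg_left l1 (Nat.cast_nonneg r : (0 : ℝ) ≤ r)
    linarith
  have hinv : 1 / x ^ (-t₁) = x ^ t₁ := by rw [rpow_neg hx0.le, one_div, inv_inv]
  have c1 : ((r - 1 : ℕ) : ℝ) = r - 1 := by rw [Nat.cast_sub (by omega), Nat.cast_one]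
  have c2 : ((2 * r - 2 : ℕ) : ℝ) = 2 * r - 2 := by
    rw [Nat.cast_sub (by omega)]
    push_cast
    ring
  refine ⟨hX1, hX2, up (by linarith), up (by linarith), Nat.cast_pos.1 hK0, Nat.cast_pos.1 hP0,
    d1.imp (fun ⟨d1, d4⟩ => ⟨?_, ?_⟩) fun d4 => ?_, ?_, ?_, ?_, ?_, ?_, ?_, ?_⟩
  rotate_left 8
  · rw [hp, hk, ← rpow_add hx0, ← rpow_add hx0]
    exact up (by linarith)
  · have e1 : zb (1 / x ^ (-t₁)) (P / K) ≤ x ^ (min (t₁ / 2) (t₁ / 6 + (pp - kk) / 2)) := by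
      rw [zb, hinv, hk, hp, ← rpow_sub hx0, sqrt_Geo hx0, sqrt_Geo hx0, ← rpow_mul hx0.le,
        ← rpow_add hx0]
      rcases min_choice (t₁ / 2) (t₁ / 6 + (pp - kk) / 2) with h | h
      · rw [h]
        exact min_le_left _ _
      · rw [h]
        exact (min_le_right _ _).trans (up (by linarith))
    refine (mul_le_mul_of_nonneg_right (mul_le_mul_of_nonneg_left e1 (by positivity))
      (by positivity)).trans ?_
    rw [hl, hk, hp, pow_Geo hx0, ← rpow_add hx0, ← rpow_add hx0, ← rpow_sub hx0]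
    refine up ?_
    have e2 := min_le_left (t₁ / 2) (t₁ / 6 + (pp - kk) / 2)
    have e3 := min_le_right (t₁ / 2) (t₁ / 6 + (pp - kk) / 2)
    push_cast
    rcases min_choice (τ / 2) (τ / 6 + (a₁ - a₂) / 2) with h | h
    · rw [h] at d4
      linarith
    · rw [h] at d4
      linarith
  · rw [hl, hk, hp, ← rpow_add hx0, ← rpow_add hx0, pow_Geo hx0, pow_Geo hx0, pow_Geo hx0,
      ← rpow_add hx0, ← rpow_add hx0]
    refine up ?_
    push_cast
    have e1 : (2 * r + 1) * (a₁ + a₂ - τ - 2 * γ) ≤ (2 * r + 1) * (kk + pp + -t₁) :=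
      mul_le_mul_of_nonneg_left (by linarith) (by linarith)
    have e2 : (r + 2) * kk ≤ (r + 2) * (a₂ + γ) := mul_le_mul_of_nonneg_left k2 (by linarith)
    linarith
  · rw [hl, hk, hp, ← rpow_add hx0, ← rpow_add hx0, pow_Geo hx0, pow_Geo hx0, ← rpow_add hx0, c1]
    refine up ?_
    have e1 : (r - 1) * (a₁ + a₂ - τ - 2 * γ) ≤ (r - 1) * (kk + pp + -t₁) :=
      mul_le_mul_of_nonneg_left (by linarith) (by linarith)
    linarith
  · rw [hk, hp, hxx, ← rpow_add hx0, pow_Geo hx0, ← rpow_add hx0, c2]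
    refine up ?_
    have e1 : (2 * r - 2) * kk ≤ (2 * r - 2) * (a₂ + γ) :=
      mul_le_mul_of_nonneg_left (by linarith) (by linarith)
    linarith
  · rw [hl, hk, ← rpow_add hx0]
    exact up (by linarith)
  · rw [hl, hk, hp, hxx, pow_Geo hx0, ← rpow_add hx0, ← rpow_add hx0, ← rpow_add hx0,
      ← rpow_add hx0]
    refine up ?_
    push_cast
    linarith
  · rw [hl, hp, hinv, pow_Geo hx0, sqrt_Geo hx0, ← rpow_add hx0, ← rpow_add hx0]
    refine up ?_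
    push_cast
    linarith
  · rw [hl, hk, pow_Geo hx0, pow_Geo hx0, ← rpow_add hx0, c1]
    refine up ?_
    have e1 : (r - 1) * (a₂ - γ) ≤ (r - 1) * kk :=
      mul_le_mul_of_nonneg_left (by linarith) (by linarith)
    linarith
  · rw [hl, hp, pow_Geo hx0, sqrt_Geo hx0, ← rpow_add hx0, ← rpow_add hx0]
    refine up ?_
    push_cast
    linarith

theorem e3d_of (hT : TriStmt) (hG : GeoStmt) (hB : BoxVStmt) (hL : L2Stmt) (hR : GrpStmt)
    (hP : Z.PrStmt) : E3D := by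
  intro ι _ τ t η K A ht htτ hτ hη
  classical
  set k := Fintype.card ι with hk
  have h2 : 0 < η / 2 := by positivity
  have hΛ : 1 ≤ 2 ^ k := Nat.one_le_two_pow
  have keyG := fun r : {r : Fin (K + 1) // 2 ≤ (r : ℕ)} => hG r.1 η r.2 hη
  choose μ γG hμ hγG hGq using keyG
  have keyT := fun r : {r : Fin (K + 1) // 2 ≤ (r : ℕ)} =>
    hT r.1 (2 ^ k) A (k ^ 2 + 1) (μ r) r.2 hΛ (hμ r)
  choose ε hε hTq using keyT
  have keyB := fun q : {q : ι × ι // q.1 ≠ q.2} =>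
    hB ι K (2 * A + (k ^ 2 + 1) + 2) η (η / 2) q.1.1 q.1.2 q.2 hη h2
  choose f hf hq using keyB
  have hγG' : ∀ r, 0 < γG r / (k + 1) := fun r => div_pos (hγG r) (by positivity)
  obtain ⟨γ, ⟨hγ2, hγ3⟩, hγ, hγ1⟩ := (((eventually_all.2 fun q => Ioc_mem_nhdsGT (hf q)).and
    (eventually_all.2 fun r => Ioc_mem_nhdsGT (hγG' r))).and (Ioc_mem_nhdsGT h2)).exists
  refine ⟨γ, hγ, ?_⟩
  filter_upwards [eventually_all.2 hq, eventually_all.2 hGq, eventually_all.2 hTq,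
    eventually_all.2 fun r => div_E3d k (2 ^ k) (hε r), l2_E3d hL k (2 ^ k) hΛ,
    E.prime_slot hP h2 (show (0 : ℝ) < 1 / 2000 by norm_num) (2 * A + (k ^ 2 + 1) + 2 + 2),
    E.ev_le_log 1, eventually_ge_atTop 1]
    with x hx hxG hxT hd hl2 hp l1 x1 pr a N g ha hE hS hN hpr hle
  obtain ⟨B, i, j, r, hr2, hrK, hiB, hjB, hij, hi, aj, hD, hE⟩ := hE
  have x0 : 0 < x := by linarith
  let r' : {r : Fin (K + 1) // 2 ≤ (r : ℕ)} := ⟨⟨r, by omega⟩, hr2⟩
  set R := (univ \ B).erase i with hRdef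
  have ai : η ≤ a i := by linarith [hD.2.2.2.1, le_max_left 0 (τ - ∑ l ∈ B, a l)]
  have low : ∀ l, η ≤ a l → x ^ (η / 2) ≤ (N l : ℝ) := fun l hl =>
    (Real.rpow_le_rpow_of_exponent_le x1 (by linarith)).trans (hN l).1
  obtain ⟨P, Q, hg⟩ := hpr i hi
  have sz := size_E3d x1 hγ.le (hγ3 r').2 hN
  have hM1 : ∀ C : Finset ι, 1 ≤ ∏ l ∈ C, N l := fun C =>
    Nat.succ_le_of_lt (prod_pos fun l _ => (hS l).1)
  have hM1' : ∀ C : Finset ι, (1 : ℝ) ≤ (∏ l ∈ C, N l : ℕ) := fun C => by exact_mod_cast hM1 C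
  have hK1 : (1 : ℝ) ≤ N i := by exact_mod_cast (hS i).1
  have hle' : ((∏ l ∈ B, N l : ℕ) : ℝ) * (N i * (∏ l ∈ R, N l : ℕ)) ≤ 2 * x := by
    rw [split_E3d hiB] at hle
    push_cast
    rwa [← mul_assoc]
  have hKP : (1 : ℝ) ≤ N i * (∏ l ∈ R, N l : ℕ) := one_le_mul_of_one_le_of_one_le hK1 (hM1' R)
  have hMx : ((∏ l ∈ B, N l : ℕ) : ℝ) ≤ 2 * x :=
    (le_mul_of_one_le_right (Nat.cast_nonneg _) hKP).trans hle'
  have hPx : ((∏ l ∈ R, N l : ℕ) : ℝ) ≤ 2 * x :=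
    ((le_mul_of_one_le_left (Nat.cast_nonneg _) hK1).trans
      (le_mul_of_one_le_left (by positivity) (hM1' B))).trans hle'
  have hsup : ∀ (C : Finset ι) (n : ℕ), (∏ l ∈ C, g l) n ≠ 0 →
      n ∈ Icc (∏ l ∈ C, N l) (2 ^ k * ∏ l ∈ C, N l) := fun C n hn =>
    Icc_subset_Icc_right (Nat.mul_le_mul_right _ (Nat.pow_le_pow_right two_pos (card_le_univ C)))
      ((hR ι C N g fun l _ => hS l).1 n hn)
  have hbd : ∀ C : Finset ι, ((∏ l ∈ C, N l : ℕ) : ℝ) ≤ 2 * x → ∀ n,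
      |(∏ l ∈ C, g l) n| ≤ x ^ ε r' := by
    intro C hC n
    by_cases hn : (∏ l ∈ C, g l) n = 0
    · rw [hn, abs_zero]
      positivity
    refine ((hR ι C N g fun l _ => hS l).2.2.1 n).trans (hd r' n _ (card_le_univ C) ?_)
    have h3 : (n : ℝ) ≤ (2 ^ k * ∏ l ∈ C, N l : ℕ) := by
      exact_mod_cast (mem_Icc.1 (hsup C n hn)).2
    rw [Nat.cast_mul] at h3
    exact h3.trans (mul_le_mul_of_nonneg_left hC (Nat.cast_nonneg _))
  have hDs : ∀ n, g i n ≠ 0 → n ∈ (Ico (N i) (2 * N i)).filter Nat.Prime := by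
    intro n hn
    refine mem_filter.2 ⟨mem_Ico.2 ((hS i).2.2 n hn), ?_⟩
    by_contra h0
    simp [hg, prI, h0] at hn
  have ht1 : max t (τ - η / 2) ≤ τ := max_le htτ.le (by linarith)
  have ht2 : 1 / 3 ≤ max t (τ - η / 2) := ht.trans (le_max_left _ _)
  have hγi : γ ≤ γG r' := (hγ3 r').2.trans (div_le_self (hγG r').le (by simp))
  rw [split_E3d hiB]
  refine hxT r' t (max t (τ - η / 2)) (∏ l ∈ B, N l) (N i) (∏ l ∈ R, N l)
    ((Ico (N i) (2 * N i)).filter Nat.Prime) _ _ _ ht (le_max_left _ _)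
    (hxG r' τ _ _ _ _ _ _ _ ht2 ht1 hτ (le_max_right _ _) hD (sz B).1
      ((Real.rpow_le_rpow_of_exponent_le x1 (by linarith)).trans (hN i).1)
      ((hN i).2.trans (Real.rpow_le_rpow_of_exponent_le x1 (by linarith))) (sz R).1 (sz R).2 hle')
    (fun n hn => ⟨(mem_filter.1 hn).2, mem_Ico.1 (mem_filter.1 hn).1⟩) (hM1 B) hle' (hsup B) hDs
    (hsup R) (hbd B hMx) (hS i).2.1 (hbd R hPx)
    (hl2 _ _ _ (card_le_univ B) (hM1 B) hMx (hR ι B N g fun l _ => hS l).2.1) ?_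
  have hf' := (hγ2 ⟨(j, i), hij.symm⟩).2
  have eT : Real.log x / x ^ (-max t (τ - η / 2)) = x ^ max t (τ - η / 2) * Real.log x := by
    rw [Real.rpow_neg x0.le, div_inv_eq_mul, mul_comm]
  have hsum : ∑ l, (if l ∈ B then 0 else a l) = ∑ l ∈ univ \ B, a l := by
    rw [← sum_sdiff (subset_univ B), sum_eq_zero (s := B) fun l hl => if_pos hl, add_zero]
    exact sum_congr rfl fun l hl => if_neg (mem_sdiff.1 hl).2
  have hRB : ∀ l ∈ R, l ∉ B := fun l hl => (mem_sdiff.1 (mem_of_mem_erase hl)).2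
  have b1 := hx ⟨(j, i), hij.symm⟩ τ (Real.log x / x ^ (-max t (τ - η / 2)))
    (fun l => if l ∈ B then 0 else a l) (fun l => if l ∈ B then 1 else N l)
    (fun l => if l ∈ B then fun n => if n = 1 then 1 else 0 else g l) (by linarith) hτ
    (by
      rw [eT]
      exact (Real.rpow_le_rpow_of_exponent_le x1 (by linarith)).trans
        (le_mul_of_one_le_right (by positivity) l1))
    (by
      rw [eT]
      exact mul_le_mul_of_nonneg_right (Real.rpow_le_rpow_of_exponent_le x1 ht1) (by linarith))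
    (fun l => by
      split_ifs
      · exact ⟨le_rfl, zero_le_one⟩
      · exact ha l)
    (by
      rw [hsum]
      exact hE)
    (fun l => by
      split_ifs
      · refine ⟨le_rfl, ?_, ?_⟩
        · simpa using Real.rpow_le_one_of_one_le_of_nonpos x1 (neg_nonpos.2 (hγ.le.trans hf'))
        · simpa using Real.one_le_rpow x1 (hγ.le.trans hf')
      · exact ⟨(hS l).1, (Real.rpow_le_rpow_of_exponent_le x1 (by linarith)).trans (hN l).1,
          (hN l).2.trans (Real.rpow_le_rpow_of_exponent_le x1 (by linarith))⟩)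
    (by simpa only [if_neg hjB] using low j aj)
    (fun l n => by
      split_ifs
      · beta_reduce
        split_ifs <;> simp
      · exact (hS l).2.1 n)
    (fun s h3 h4 => by
      simp only [if_neg hiB, hg]
      exact hp _ P Q s (low i ai) h3 h4)
  refine le_of_eq_of_le (intervalIntegral.integral_congr fun u _ => ?_) (b1.trans_eq ?_)
  · have hfp : E.FP (Icc (∏ l ∈ R, N l) (2 ^ k * ∏ l ∈ R, N l)) (⇑(∏ l ∈ R, g l)) u =
        ∏ l ∈ R, E.BP (N l) (g l) u := (hR ι R N g fun l _ => hS l).2.2.2 _ u (hsup R)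
    rw [split_E3d hiB, prod_eq_one (s := B) fun l hl => by
      rw [if_pos hl, if_pos hl, BP_one_E3d, norm_one, one_pow], one_mul, if_neg hiB, if_neg hiB,
      hfp, norm_prod, ← prod_pow]
    congr 1
    · rw [E.BP, FP_eq_E3d hDs fun n hn =>
        mem_Icc.2 ⟨((hS i).2.2 n hn).1, ((hS i).2.2 n hn).2.le⟩]
    · exact prod_congr rfl fun l hl => by rw [if_neg (hRB l hl), if_neg (hRB l hl)]
  · rw [split_E3d hiB, prod_eq_one (s := B) fun l hl => by rw [if_pos hl, Nat.cast_one],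
      one_mul, if_neg hiB, Nat.cast_prod,
      prod_congr rfl fun l hl => by rw [if_neg (hRB l hl)]]

end Pool.Agent.MP_c853c5_nt.DU

end

section

/-!
The final bound with the new mean square.
-/

set_option autoImplicit false

open Finset Filter Real

namespace Pool.Agent.MP_c853c5_nt.DV

open DS (L2Stmt GrpStmt div_E3d l2_E3d size_E3d FP_eq_E3d split_E3d)
open S (AF Slot prI Dl)

theorem e4d_of (hT : DU.TriStmt) (hG : DU.GeoStmt) (hV : VStmt) (hL : L2Stmt) (hR : GrpStmt)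
    (hP : Z.PrStmt) : E4D := by
  intro ι _ τ t η K A ht htτ hτ hη
  classical
  set k := Fintype.card ι with hk
  have h2 : 0 < η / 2 := by positivity
  have hΛ : 1 ≤ 2 ^ k := Nat.one_le_two_pow
  have keyG := fun r : {r : Fin (K + 1) // 2 ≤ (r : ℕ)} => hG r.1 η r.2 hη
  choose μ γG hμ hγG hGq using keyG
  have keyT := fun r : {r : Fin (K + 1) // 2 ≤ (r : ℕ)} =>
    hT r.1 (2 ^ k) A (k ^ 2 + 1) (μ r) r.2 hΛ (hμ r)
  choose ε hε hTq using keyT
  have keyV := fun r : {r : Fin (K + 1) // 2 ≤ (r : ℕ)} =>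
    hV r.1 (2 ^ k) (2 * A + (k ^ 2 + 1) + 2) (k ^ 2 + 1) η r.2 hΛ hη
  choose εV γV hεV hγV hVq using keyV
  have hγG' : ∀ r, 0 < γG r / (k + 1) := fun r => div_pos (hγG r) (by positivity)
  have hγV' : ∀ r, 0 < γV r / (k + 1) := fun r => div_pos (hγV r) (by positivity)
  obtain ⟨γ, ⟨hγ2, hγ3⟩, hγ, hγ1⟩ := (((eventually_all.2 fun r => Ioc_mem_nhdsGT (hγV' r)).and
    (eventually_all.2 fun r => Ioc_mem_nhdsGT (hγG' r))).and (Ioc_mem_nhdsGT h2)).exists
  refine ⟨γ, hγ, ?_⟩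
  filter_upwards [eventually_all.2 hVq, eventually_all.2 hGq, eventually_all.2 hTq,
    eventually_all.2 fun r => div_E3d k (2 ^ k) (hε r),
    eventually_all.2 fun r => div_E3d k (2 ^ k) (hεV r), l2_E3d hL k (2 ^ k) hΛ,
    E.prime_slot hP h2 (show (0 : ℝ) < 1 / 2000 by norm_num)
      (2 * A + (k ^ 2 + 1) + 2 + (k ^ 2 + 1) + 1),
    E.ev_le_log 1, eventually_ge_atTop 1]
    with x hx hxG hxT hd hdV hl2 hp l1 x1 pr a N g ha hE hS hN hpr hle
  obtain ⟨B, i, r, q, hr2, hrK, hq2, hqK, hiB, hi, hD, hE⟩ := hE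
  have x0 : 0 < x := by linarith
  let r' : {r : Fin (K + 1) // 2 ≤ (r : ℕ)} := ⟨⟨r, by omega⟩, hr2⟩
  let q' : {r : Fin (K + 1) // 2 ≤ (r : ℕ)} := ⟨⟨q, by omega⟩, hq2⟩
  set R := (univ \ B).erase i with hRdef
  have ai : η ≤ a i := by linarith [hD.2.2.2.1, le_max_left 0 (τ - ∑ l ∈ B, a l)]
  have low : ∀ l, η ≤ a l → x ^ (η / 2) ≤ (N l : ℝ) := fun l hl =>
    (Real.rpow_le_rpow_of_exponent_le x1 (by linarith)).trans (hN l).1
  obtain ⟨P, Q, hg⟩ := hpr i hi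
  have sz := size_E3d x1 hγ.le (hγ3 r').2 hN
  have szV := size_E3d x1 hγ.le (hγ2 q').2 hN
  have hM1 : ∀ C : Finset ι, 1 ≤ ∏ l ∈ C, N l := fun C =>
    Nat.succ_le_of_lt (prod_pos fun l _ => (hS l).1)
  have hM1' : ∀ C : Finset ι, (1 : ℝ) ≤ (∏ l ∈ C, N l : ℕ) := fun C => by exact_mod_cast hM1 C
  have hK1 : (1 : ℝ) ≤ N i := by exact_mod_cast (hS i).1
  have hle' : ((∏ l ∈ B, N l : ℕ) : ℝ) * (N i * (∏ l ∈ R, N l : ℕ)) ≤ 2 * x := by
    rw [split_E3d hiB] at hle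
    push_cast
    rwa [← mul_assoc]
  have hKP : (1 : ℝ) ≤ N i * (∏ l ∈ R, N l : ℕ) := one_le_mul_of_one_le_of_one_le hK1 (hM1' R)
  have hMx : ((∏ l ∈ B, N l : ℕ) : ℝ) ≤ 2 * x :=
    (le_mul_of_one_le_right (Nat.cast_nonneg _) hKP).trans hle'
  have hPx : ((∏ l ∈ R, N l : ℕ) : ℝ) ≤ 2 * x :=
    ((le_mul_of_one_le_left (Nat.cast_nonneg _) hK1).trans
      (le_mul_of_one_le_left (by positivity) (hM1' B))).trans hle'
  have hsup : ∀ (C : Finset ι) (n : ℕ), (∏ l ∈ C, g l) n ≠ 0 →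
      n ∈ Icc (∏ l ∈ C, N l) (2 ^ k * ∏ l ∈ C, N l) := fun C n hn =>
    Icc_subset_Icc_right (Nat.mul_le_mul_right _ (Nat.pow_le_pow_right two_pos (card_le_univ C)))
      ((hR ι C N g fun l _ => hS l).1 n hn)
  have hbd : ∀ e : ℝ, (∀ n m : ℕ, m ≤ k → (n : ℝ) ≤ (2 ^ k : ℕ) * (2 * x) →
      (n.divisors.card : ℝ) ^ m ≤ x ^ e) → ∀ C : Finset ι, ((∏ l ∈ C, N l : ℕ) : ℝ) ≤ 2 * x →
      ∀ n, |(∏ l ∈ C, g l) n| ≤ x ^ e := by
    intro e he C hC n
    by_cases hn : (∏ l ∈ C, g l) n = 0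
    · rw [hn, abs_zero]
      positivity
    refine ((hR ι C N g fun l _ => hS l).2.2.1 n).trans (he n _ (card_le_univ C) ?_)
    have h3 : (n : ℝ) ≤ (2 ^ k * ∏ l ∈ C, N l : ℕ) := by
      exact_mod_cast (mem_Icc.1 (hsup C n hn)).2
    rw [Nat.cast_mul] at h3
    exact h3.trans (mul_le_mul_of_nonneg_left hC (Nat.cast_nonneg _))
  have hDs : ∀ n, g i n ≠ 0 → n ∈ (Ico (N i) (2 * N i)).filter Nat.Prime := by
    intro n hn
    refine mem_filter.2 ⟨mem_Ico.2 ((hS i).2.2 n hn), ?_⟩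
    by_contra h0
    simp [hg, prI, h0] at hn
  have ht1 : max t (τ - η / 2) ≤ τ := max_le htτ.le (by linarith)
  have ht2 : 1 / 3 ≤ max t (τ - η / 2) := ht.trans (le_max_left _ _)
  have hγi : γ ≤ γG r' := (hγ3 r').2.trans (div_le_self (hγG r').le (by simp))
  have hγj : γ ≤ γV q' := (hγ2 q').2.trans (div_le_self (hγV q').le (by simp))
  have hPr : DS.PrK (N i) ((Ico (N i) (2 * N i)).filter Nat.Prime) :=
    fun n hn => ⟨(mem_filter.1 hn).2, mem_Ico.1 (mem_filter.1 hn).1⟩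
  rw [split_E3d hiB]
  refine hxT r' t (max t (τ - η / 2)) (∏ l ∈ B, N l) (N i) (∏ l ∈ R, N l)
    ((Ico (N i) (2 * N i)).filter Nat.Prime) _ _ _ ht (le_max_left _ _)
    (hxG r' τ _ _ _ _ _ _ _ ht2 ht1 hτ (le_max_right _ _) hD (sz B).1
      ((Real.rpow_le_rpow_of_exponent_le x1 (by linarith)).trans (hN i).1)
      ((hN i).2.trans (Real.rpow_le_rpow_of_exponent_le x1 (by linarith))) (sz R).1 (sz R).2 hle')
    hPr (hM1 B) hle' (hsup B) hDs
    (hsup R) (hbd _ (hd r') B hMx) (hS i).2.1 (hbd _ (hd r') R hPx)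
    (hl2 _ _ _ (card_le_univ B) (hM1 B) hMx (hR ι B N g fun l _ => hS l).2.1) ?_
  have eT : Real.log x / x ^ (-max t (τ - η / 2)) = x ^ max t (τ - η / 2) * Real.log x := by
    rw [Real.rpow_neg x0.le, div_inv_eq_mul, mul_comm]
  refine hx q' τ _ _ _ _ _ _ _ _ hτ hE
    ((Real.rpow_le_rpow_of_exponent_le x1 (by linarith)).trans (hN i).1)
    ((hN i).2.trans (Real.rpow_le_rpow_of_exponent_le x1 (by linarith))) (szV R).1 (szV R).2
    ?_ ?_ hPr (hS i).2.1 (hbd _ (hdV q') R hPx)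
    (hl2 _ _ _ (card_le_univ R) (hM1 R) hPx (hR ι R N g fun l _ => hS l).2.1) fun s h3 h4 => ?_
  · rw [eT]
    exact (Real.rpow_le_rpow_of_exponent_le x1 (by linarith)).trans
      (le_mul_of_one_le_right (by positivity) l1)
  · rw [eT]
    exact mul_le_mul_of_nonneg_right (Real.rpow_le_rpow_of_exponent_le x1 ht1) (by linarith)
  · rw [FP_eq_E3d hDs (s' := Icc (N i) (2 * N i)) fun n hn =>
      mem_Icc.2 ⟨((hS i).2.2 n hn).1, ((hS i).2.2 n hn).2.le⟩]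
    have := hp _ P Q s (low i ai) h3 h4
    rwa [← hg] at this

end Pool.Agent.MP_c853c5_nt.DV

end
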