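import Pool.Agent.MP_c853c5_nt.DS.Basic

section

/-!
Real inequalities for the main term of the dispersion.
-/

set_option autoImplicit false

open Finset Filter Real
open scoped ComplexConjugate

namespace Pool.Agent.MP_c853c5_nt.DS

open Pool.Agent.MP_88bd62_nt.U (ex)

lemma zb_scale_Main {A D ρ : ℝ} (hA : 1 ≤ A) (hD : 0 ≤ D) : zb (A * D) ρ ≤ A * zb D ρ := by
  have hA0 : 0 ≤ A := by linarith
  unfold zb
  rw [mul_min_of_nonneg _ _ hA0]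
  refine min_le_min ?_ ?_
  · rw [Real.sqrt_mul hA0]
    refine mul_le_mul_of_nonneg_right ?_ (Real.sqrt_nonneg _)
    exact Real.sqrt_le_iff.2 ⟨hA0, by nlinarith⟩
  · rw [Real.mul_rpow hA0 hD, mul_assoc]
    refine mul_le_mul_of_nonneg_right ?_ (by positivity)
    have := Real.rpow_le_rpow_of_exponent_le hA (show (1 / 6 : ℝ) ≤ 1 by norm_num)
    rwa [Real.rpow_one] at this

lemma sqrt_le_zb_Main {D ρ : ℝ} (h : ρ ≤ D) (h1 : 1 ≤ D) : √ρ ≤ zb D ρ := by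
  unfold zb
  refine le_min (Real.sqrt_le_sqrt h) ?_
  exact le_mul_of_one_le_left (Real.sqrt_nonneg _) (Real.one_le_rpow h1 (by norm_num))

lemma inner_Main (m : ℕ) {ρ H B ZF s Z y c E L : ℝ} (hρ : 0 ≤ ρ) (hH0 : 0 ≤ H) (hB0 : 0 ≤ B)
    (hc : 1 ≤ c) (hE : 0 ≤ E) (hL : 0 ≤ L) (hy : 0 ≤ y) (hZ : 0 ≤ Z)
    (hH : H ≤ 2 * c * E) (hB : B ≤ c * L) (h2 : L ^ (m + 1) * y ≤ E ^ m)
    (h4 : L ^ (2 * (m + 1)) * Z * y ≤ ρ) (hZF : ZF ≤ 16 * ((m + 1 : ℕ) : ℝ) * c * Z)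
    (hs : s ≤ Z) :
    (ρ * H ^ (m + 1 + 1) * B ^ (m + 1) + H ^ (2 * (m + 1)) * B ^ (2 * (m + 1)) * (ZF + s)) * y ≤
      ρ * ((8 * ((m + 1 : ℕ) : ℝ) + 2) * (2 * c) ^ (4 * (m + 1) + 1)) * E ^ (2 * (m + 1)) := by
  have hB' : B ≤ 2 * c * L := hB.trans (by nlinarith)
  have hc2 : 1 ≤ 2 * c := by linarith
  have hm : (0 : ℝ) ≤ ((m + 1 : ℕ) : ℝ) := Nat.cast_nonneg _
  have a1 : H ^ (m + 1 + 1) * B ^ (m + 1) * y ≤ (2 * c) ^ (4 * (m + 1) + 1) * E ^ (2 * (m + 1)) := by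
    calc H ^ (m + 1 + 1) * B ^ (m + 1) * y
        ≤ (2 * c * E) ^ (m + 1 + 1) * (2 * c * L) ^ (m + 1) * y := by gcongr
      _ = (2 * c) ^ (2 * (m + 1) + 1) * E ^ (m + 2) * (L ^ (m + 1) * y) := by
        rw [mul_pow (2 * c), mul_pow (2 * c)]
        ring
      _ ≤ (2 * c) ^ (4 * (m + 1) + 1) * E ^ (m + 2) * E ^ m :=
        mul_le_mul (mul_le_mul_of_nonneg_right (pow_le_pow_right₀ hc2 (by omega))
          (by positivity)) h2 (by positivity) (by positivity)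
      _ = _ := by ring
  have a2 : H ^ (2 * (m + 1)) * B ^ (2 * (m + 1)) * (ZF + s) * y ≤
      ρ * ((8 * ((m + 1 : ℕ) : ℝ) + 1) * (2 * c) ^ (4 * (m + 1) + 1)) * E ^ (2 * (m + 1)) := by
    have b1 : ZF + s ≤ (8 * ((m + 1 : ℕ) : ℝ) + 1) * (2 * c) * Z := by nlinarith
    calc H ^ (2 * (m + 1)) * B ^ (2 * (m + 1)) * (ZF + s) * y
        ≤ H ^ (2 * (m + 1)) * B ^ (2 * (m + 1)) *
          ((8 * ((m + 1 : ℕ) : ℝ) + 1) * (2 * c) * Z) * y := by gcongr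
      _ ≤ (2 * c * E) ^ (2 * (m + 1)) * (2 * c * L) ^ (2 * (m + 1)) *
          ((8 * ((m + 1 : ℕ) : ℝ) + 1) * (2 * c) * Z) * y := by gcongr
      _ = (L ^ (2 * (m + 1)) * Z * y) *
          ((8 * ((m + 1 : ℕ) : ℝ) + 1) * (2 * c) ^ (4 * (m + 1) + 1)) * E ^ (2 * (m + 1)) := by
        rw [mul_pow (2 * c), mul_pow (2 * c)]
        generalize ((m + 1 : ℕ) : ℝ) = t
        generalize 2 * c = d
        ring
      _ ≤ _ := by gcongr
  have a3 := mul_le_mul_of_nonneg_left a1 hρ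
  generalize (2 * c) ^ (4 * (m + 1) + 1) = u at *
  generalize E ^ (2 * (m + 1)) = v at *
  generalize H ^ (m + 1 + 1) = p at *
  generalize B ^ (m + 1) = q at *
  generalize H ^ (2 * (m + 1)) * B ^ (2 * (m + 1)) * (ZF + s) = t at *
  nlinarith

lemma outer_Main (m : ℕ) {Q S H ρ K2 N Λ : ℝ} (hQ : 0 ≤ Q) (hS0 : 0 ≤ S) (hH : 0 ≤ H)
    (hρ : 0 ≤ ρ) (hΛ : 1 ≤ Λ) (hS : S ≤ 2 * Λ * ρ) (hQH : Q * H ≤ K2) (hN : K2 * ρ = N) :
    (2 * Q * S) ^ (2 * (m + 1) - 1) * (33 * H) ^ (2 * (m + 1)) * (2 * Q) * ρ ≤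
      (132 * Λ * N) ^ (2 * (m + 1)) := by
  have e : 2 * (m + 1) - 1 = 2 * m + 1 := by omega
  have h1 : ρ ≤ 2 * Λ * ρ := by nlinarith
  rw [e]
  calc (2 * Q * S) ^ (2 * m + 1) * (33 * H) ^ (2 * (m + 1)) * (2 * Q) * ρ
      ≤ (2 * Q * (2 * Λ * ρ)) ^ (2 * m + 1) * (33 * H) ^ (2 * (m + 1)) * (2 * Q) *
        (2 * Λ * ρ) := by gcongr
    _ = (2 * Q * (2 * Λ * ρ) * (33 * H)) ^ (2 * (m + 1)) := by
      rw [mul_pow _ (33 * H), show 2 * (m + 1) = 2 * m + 1 + 1 by ring,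
        pow_succ (2 * Q * (2 * Λ * ρ)) (2 * m + 1)]
      ring
    _ ≤ _ := by
      refine pow_le_pow_left₀ (by positivity) ?_ _
      rw [← hN]
      have : 0 ≤ Λ * ρ := by positivity
      nlinarith

lemma fin_Main (m : ℕ) {T Q S H B ρ K2 N X Δ Λ C w ZF s Z y c L : ℝ} (hQ : 0 ≤ Q) (hS0 : 0 ≤ S)
    (hH0 : 0 ≤ H) (hB0 : 0 ≤ B) (hρ : 0 ≤ ρ) (hΛ : 1 ≤ Λ) (hS : S ≤ 2 * Λ * ρ)
    (hQH : Q * H ≤ K2) (hN : K2 * ρ = N) (hN0 : 0 < N) (hX : 0 < X) (hΔ : 0 < Δ) (hC : 0 ≤ C)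
    (hw : 0 ≤ w) (hc : 1 ≤ c) (hL : 0 ≤ L) (hy : 0 ≤ y) (hZ : 0 ≤ Z)
    (hH : H ≤ 2 * c * (N * Δ)) (hB : B ≤ c * L) (h2 : L ^ (m + 1) * y ≤ (N * Δ) ^ m)
    (h4 : L ^ (2 * (m + 1)) * Z * y ≤ ρ) (hZF : ZF ≤ 16 * ((m + 1 : ℕ) : ℝ) * c * Z)
    (hs : s ≤ Z)
    (hT : T ≤ (2 * Q * S) ^ (2 * (m + 1) - 1) * (33 * H) ^ (2 * (m + 1)) * (2 * Q *
      (C * w ^ (2 * (m + 1) + 6) * (8 * X / (Δ * N)) ^ (2 * (m + 1)) *
        (ρ * H ^ (m + 1 + 1) * B ^ (m + 1) +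
          H ^ (2 * (m + 1)) * B ^ (2 * (m + 1)) * (ZF + s))))) :
    T * y ≤ (1056 * Λ) ^ (2 * (m + 1)) * C * w ^ (2 * (m + 1) + 6) *
      ((8 * ((m + 1 : ℕ) : ℝ) + 2) * (2 * c) ^ (4 * (m + 1) + 1)) * (X * N) ^ (2 * (m + 1)) := by
  have a1 := inner_Main m hρ hH0 hB0 hc (by positivity : 0 ≤ N * Δ) hL hy hZ hH hB h2 h4 hZF hs
  have a2 := outer_Main m hQ hS0 hH0 hρ hΛ hS hQH hN
  have a3 : (132 * Λ * N) ^ (2 * (m + 1)) * (8 * X / (Δ * N)) ^ (2 * (m + 1)) *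
      (N * Δ) ^ (2 * (m + 1)) = (1056 * Λ) ^ (2 * (m + 1)) * (X * N) ^ (2 * (m + 1)) := by
    rw [← mul_pow, ← mul_pow, ← mul_pow]
    congr 1
    field_simp
    ring
  have p1 : 0 ≤ (2 * Q * S) ^ (2 * (m + 1) - 1) * (33 * H) ^ (2 * (m + 1)) * (2 * Q) := by
    positivity
  have p2 : 0 ≤ C * w ^ (2 * (m + 1) + 6) := by positivity
  have p3 : 0 ≤ (8 * X / (Δ * N)) ^ (2 * (m + 1)) := by positivity
  have p4 : 0 ≤ (8 * ((m + 1 : ℕ) : ℝ) + 2) * (2 * c) ^ (4 * (m + 1) + 1) := by positivity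
  have p5 : 0 ≤ (N * Δ) ^ (2 * (m + 1)) := by positivity
  generalize (ρ * H ^ (m + 1 + 1) * B ^ (m + 1) +
    H ^ (2 * (m + 1)) * B ^ (2 * (m + 1)) * (ZF + s)) = I at *
  generalize (8 * ((m + 1 : ℕ) : ℝ) + 2) * (2 * c) ^ (4 * (m + 1) + 1) = u at *
  generalize (8 * X / (Δ * N)) ^ (2 * (m + 1)) = v at *
  generalize (N * Δ) ^ (2 * (m + 1)) = e at *
  generalize (132 * Λ * N) ^ (2 * (m + 1)) = o at *
  generalize (1056 * Λ) ^ (2 * (m + 1)) = k at *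
  generalize (X * N) ^ (2 * (m + 1)) = g at *
  generalize w ^ (2 * (m + 1) + 6) = W at *
  generalize (2 * Q * S) ^ (2 * (m + 1) - 1) = a at *
  generalize (33 * H) ^ (2 * (m + 1)) = b at *
  calc T * y ≤ a * b * (2 * Q * (C * W * v * I)) * y := mul_le_mul_of_nonneg_right hT hy
    _ = a * b * (2 * Q) * (C * W) * v * (I * y) := by ring
    _ ≤ a * b * (2 * Q) * (C * W) * v * (ρ * u * e) :=
      mul_le_mul_of_nonneg_left a1 (mul_nonneg (mul_nonneg p1 p2) p3)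
    _ = a * b * (2 * Q) * ρ * (C * W * v * u * e) := by ring
    _ ≤ o * (C * W * v * u * e) :=
      mul_le_mul_of_nonneg_right a2 (mul_nonneg (mul_nonneg (mul_nonneg p2 p3) p4) p5)
    _ = o * v * e * (C * W * u) := by ring
    _ = _ := by
      rw [a3]
      ring

end Pool.Agent.MP_c853c5_nt.DS

end

section

/-!
The main term of the dispersion.
-/

set_option autoImplicit false

open Finset Filter Real
open scoped ComplexConjugate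

namespace Pool.Agent.MP_c853c5_nt.DS

open Pool.Agent.MP_88bd62_nt.U (ex)

lemma facts_Main {m K P B H : ℕ} {x μ X Δ c : ℝ} (hm : 1 ≤ m) (G : Geo x μ (m + 1) X Δ K P)
    (hx : 1 ≤ x) (hc : 1 ≤ c) (hy : 8 * c ≤ x ^ μ)
    (hz : 2 * 4 ^ (2 * (m + 1) + 1) * c ≤ x ^ (1 / 400 : ℝ))
    (hB : (B : ℝ) ≤ c * (K * P / (X * Δ))) (hH1 : c * (K * P * Δ) ≤ H)
    (hH2 : (H : ℝ) ≤ c * (K * P * Δ) + 1) :
    (B : ℝ) ≤ c * Lm X Δ K P ∧ B ≤ H ∧ (H : ℝ) ≤ 2 * c * (K * P * Δ) ∧ 1 ≤ H ∧ 4 * H ≤ K ∧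
      4 ^ (2 * (m + 1) + 1) * B < K ∧ 8 * K ≤ P ∧ (K : ℝ) * P ≤ X ∧
      √((P : ℝ) / K) ≤ zb (1 / Δ) (P / K) := by
  have hx0 : 0 < x := by linarith
  have hΔ : 0 < Δ := (Real.rpow_pos_of_pos hx0 _).trans_le G.d1
  have hK : (1 : ℝ) ≤ K := by exact_mod_cast G.k1
  have hP : (1 : ℝ) ≤ P := by exact_mod_cast G.p1
  have hL := one_le_Lm X Δ K P
  have hL' := le_Lm X Δ K P
  have h1 := G.h1
  have h2 := G.h2
  have h3 := G.h3
  have h4 := G.h4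
  have h5 := G.h5
  rw [Nat.add_sub_cancel] at h2
  have h44 : (4 : ℝ) ≤ 4 ^ (2 * (m + 1) + 1) := le_self_pow₀ (by norm_num) (by omega)
  generalize x ^ μ = y at *
  generalize x ^ (1 / 400 : ℝ) = z at *
  generalize Lm X Δ K P = L at *
  have hy1 : 1 ≤ y := by linarith
  have hE0 : 0 ≤ (K : ℝ) * P * Δ := by positivity
  have hLE : L ≤ K * P * Δ := by
    rw [← pow_le_pow_iff_left₀ (by linarith) hE0 (show m ≠ 0 by omega)]
    refine le_trans ?_ h2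
    exact (pow_le_pow_right₀ hL (Nat.le_succ m)).trans
      (le_mul_of_one_le_right (by positivity) hy1)
  have b1 : (B : ℝ) ≤ c * L := hB.trans (by gcongr)
  have b2 : (B : ℝ) ≤ H := b1.trans (le_trans (by gcongr) hH1)
  have b3 : 1 ≤ c * (K * P * Δ) := one_le_mul_of_one_le_of_one_le hc (hL.trans hLE)
  have hz8 : 8 ≤ z := by nlinarith
  have hK8 : (8 : ℝ) ≤ K := by nlinarith
  have hPΔ : 0 ≤ (P : ℝ) * Δ := by positivity
  have b4 : 8 * c * (P * Δ) ≤ 1 := by nlinarith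
  have b5 : 4 * (H : ℝ) ≤ K := by nlinarith
  have b6 : (4 : ℝ) ^ (2 * (m + 1) + 1) * B < K := by
    have : (4 : ℝ) ^ (2 * (m + 1) + 1) * B ≤ 4 ^ (2 * (m + 1) + 1) * (c * L) := by gcongr
    generalize (4 : ℝ) ^ (2 * (m + 1) + 1) = u at *
    nlinarith
  have b7 : (P : ℝ) ≤ 1 / Δ := by
    rw [le_div_iff₀ hΔ]
    nlinarith
  have b8 : √((P : ℝ) / K) ≤ zb (1 / Δ) (P / K) :=
    sqrt_le_zb_Main ((div_le_self (by linarith) hK).trans b7) (hP.trans b7)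
  have b9 : (8 : ℝ) * K ≤ P := by
    have hρ : 0 < (P : ℝ) / K := by positivity
    have e := Real.mul_self_sqrt hρ.le
    have s0 := Real.sqrt_pos.2 hρ
    have p : 1 ≤ L ^ (2 * (m + 1)) := one_le_pow₀ hL
    have q : √((P : ℝ) / K) * y ≤ P / K := by
      refine le_trans ?_ h4
      refine mul_le_mul_of_nonneg_right (b8.trans ?_) (by linarith)
      exact le_mul_of_one_le_left (s0.le.trans b8) p
    have q2 : y ≤ √((P : ℝ) / K) := by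
      refine le_of_mul_le_mul_left ?_ s0
      rwa [e]
    rw [← le_div_iff₀ (by linarith), ← e]
    nlinarith
  have b10 : (K : ℝ) * P ≤ X :=
    (le_mul_of_one_le_left (by positivity) (one_le_pow₀ hK)).trans h3
  refine ⟨b1, by exact_mod_cast b2, by linarith, ?_, by exact_mod_cast b5, by exact_mod_cast b6,
    by exact_mod_cast b9, b10, b8⟩
  exact_mod_cast b3.trans hH1

lemma cond_Main {r K P B H S : ℕ} {x X Δ Λ l ρ : ℝ} (hr : 1 ≤ r) (hx : 133 ≤ x)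
    (hl : Real.log x = l) (hl1 : 1 ≤ l) (hΛ : 1 ≤ Λ) (hK : 1 ≤ K) (hX : 0 < X) (hΔ : 0 < Δ)
    (hX2 : X ≤ 2 * x) (h3 : (K : ℝ) ^ (2 * r - 2) * (K * P) ≤ X) (hN : (K : ℝ) * P ≤ X)
    (hB : (B : ℝ) ≤ 3 * Λ * l * (K * P / (X * Δ))) (hH : (H : ℝ) ≤ 2 * (3 * Λ * l) * (K * P * Δ))
    (hHK : 4 * H ≤ K) (hKP : 8 * K ≤ P) (hS : (S : ℝ) ≤ Λ * (P / K) + 1)
    (h1 : (P : ℝ) ≤ 8 * K * ρ) (h2 : K * ρ ≤ P) {w : ℝ}
    (hw : w = (4 ^ r + 1152 * Λ ^ 2 + 8 * Λ + 2) * l ^ 2) :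
    1 ≤ ρ ∧ ρ + S ≤ w * ρ ∧ ρ * (2 * K) ^ (2 * r) ≤ w * X ∧ Real.log (66 * H + 1) ≤ w ∧
      2 * r * B * X ≤ 16 * r * (3 * Λ * l) * (1 / Δ) * ρ * K ^ 2 ∧
      B * X * H ≤ w * (K ^ 4 * ρ ^ 2) ∧ X / (Δ * K ^ 2 * ρ) ≤ 8 * X / (Δ * (K * P)) ∧
      ρ ≤ P / K := by
  have hK' : (1 : ℝ) ≤ K := by exact_mod_cast hK
  have hK0 : (0 : ℝ) < K := by linarith
  have hKP' : (8 : ℝ) * K ≤ P := by exact_mod_cast hKP
  have hHK' : (4 : ℝ) * H ≤ K := by exact_mod_cast hHK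
  have hP0 : (0 : ℝ) < P := by linarith
  have hρ : 1 ≤ ρ := by
    refine le_of_mul_le_mul_left ?_ (show (0 : ℝ) < 8 * K by linarith)
    linarith
  have hl2 : 1 ≤ l ^ 2 := one_le_pow₀ hl1
  have p4 : (0 : ℝ) < 4 ^ r := by positivity
  have pΛ : 0 ≤ Λ ^ 2 := by positivity
  have w0 : 4 ^ r + 1152 * Λ ^ 2 + 8 * Λ + 2 ≤ w := by
    rw [hw]
    exact le_mul_of_one_le_right (by positivity) hl2
  have w1 : 8 * Λ + 2 ≤ w := by linarith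
  have w2 : 4 ^ r ≤ w := by linarith
  have w3 : 2 * l ≤ w := by
    have : 2 * l ^ 2 ≤ w := by
      rw [hw]
      exact mul_le_mul_of_nonneg_right (by linarith) (by positivity)
    nlinarith
  have w4 : 1152 * Λ ^ 2 * l ^ 2 ≤ w := by
    rw [hw]
    exact mul_le_mul_of_nonneg_right (by linarith) (by positivity)
  have hPK : (P : ℝ) / K ≤ 8 * ρ := by
    rw [div_le_iff₀ hK0]
    linarith
  have hBX : B * X ≤ 3 * Λ * l * (K * P) * (1 / Δ) := by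
    refine (mul_le_mul_of_nonneg_right hB hX.le).trans_eq ?_
    field_simp
  have hN8 : (K : ℝ) * P ≤ 8 * (ρ * K ^ 2) := by nlinarith
  refine ⟨hρ, ?_, ?_, ?_, ?_, ?_, ?_, ?_⟩
  · have : Λ * ((P : ℝ) / K) ≤ Λ * (8 * ρ) := by gcongr
    nlinarith
  · obtain ⟨n, rfl⟩ : ∃ n, r = n + 1 := ⟨r - 1, by omega⟩
    rw [show 2 * (n + 1) - 2 = 2 * n by omega] at h3
    calc ρ * (2 * K) ^ (2 * (n + 1)) = 4 ^ (n + 1) * (K ^ (2 * n) * (K * (K * ρ))) := by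
          rw [mul_pow, pow_mul (2 : ℝ)]
          norm_num
          ring
      _ ≤ w * (K ^ (2 * n) * (K * P)) := by gcongr; linarith
      _ ≤ w * X := by gcongr; linarith
  · refine le_trans ?_ w3
    have hKX : (K : ℝ) ≤ X := le_trans (by nlinarith) hN
    have : 66 * (H : ℝ) + 1 ≤ x ^ 2 := by nlinarith
    refine (Real.log_le_log (by positivity) this).trans_eq ?_
    rw [Real.log_pow, hl]
    norm_num
  · have hr0 : (0 : ℝ) ≤ r := Nat.cast_nonneg _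
    calc 2 * r * B * X = 2 * r * (B * X) := by ring
      _ ≤ 2 * r * (3 * Λ * l * (8 * (ρ * K ^ 2)) * (1 / Δ)) := by
        refine mul_le_mul_of_nonneg_left (hBX.trans ?_) (by positivity)
        gcongr
      _ = _ := by ring
  · calc B * X * H ≤ 3 * Λ * l * (K * P) * (1 / Δ) * (2 * (3 * Λ * l) * (K * P * Δ)) := by gcongr
      _ = 18 * Λ ^ 2 * l ^ 2 * (K * P) ^ 2 := by
        field_simp
        ring
      _ ≤ 18 * Λ ^ 2 * l ^ 2 * (8 * (ρ * K ^ 2)) ^ 2 := by gcongr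
      _ = 1152 * Λ ^ 2 * l ^ 2 * (K ^ 4 * ρ ^ 2) := by ring
      _ ≤ _ := by gcongr
  · rw [div_le_div_iff₀ (by positivity) (by positivity)]
    have := mul_le_mul_of_nonneg_left hN8 (show 0 ≤ X * Δ by positivity)
    nlinarith
  · rw [le_div_iff₀ hK0]
    linarith

lemma end_Main {n : ℕ} (hn : 0 < n) {T M x μ A : ℝ} (hx : 0 < x) (hM : 0 ≤ M)
    (h : T ^ (2 * n) * x ^ μ ≤ A * M ^ (2 * n)) (hA : A ≤ x ^ (μ / 2)) :
    T ≤ M * x ^ (-(μ / (4 * (n : ℝ)))) := by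
  have hn' : (n : ℝ) ≠ 0 := by positivity
  refine le_of_pow_le_pow_left₀ (show 2 * n ≠ 0 by omega) (by positivity) ?_
  refine le_of_mul_le_mul_right (h.trans ?_) (Real.rpow_pos_of_pos hx μ)
  rw [mul_pow, ← Real.rpow_natCast (x ^ _), ← Real.rpow_mul hx.le, mul_assoc,
    ← Real.rpow_add hx, mul_comm A]
  refine mul_le_mul_of_nonneg_left (hA.trans_eq ?_) (by positivity)
  congr 1
  push_cast
  field_simp
  ring

theorem main_stmt (hB : BlkStmt) (hL : LocStmt) : MainStmt := by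
  intro r Λ μ hr hΛ hμ
  obtain ⟨C, hC, hL⟩ := hL r (by omega)
  obtain ⟨m, rfl⟩ : ∃ m, r = m + 1 := ⟨r - 1, by omega⟩
  have hm : 1 ≤ m := by omega
  have hΛ' : (1 : ℝ) ≤ Λ := by exact_mod_cast hΛ
  have hr0 : (0 : ℝ) < ((m + 1 : ℕ) : ℝ) := by positivity
  refine ⟨μ / (4 * ((m + 1 : ℕ) : ℝ)), by positivity, ?_⟩
  filter_upwards [eventually_ge_atTop (133 : ℝ), E.ev_le_log 1, E.ev_log_le (24 * Λ) 1 hμ,
    E.ev_log_le (2 * 4 ^ (2 * (m + 1) + 1) * (3 * Λ)) 1 (show (0 : ℝ) < 1 / 400 by norm_num),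
    E.ev_log_le ((1056 * Λ) ^ (2 * (m + 1)) * C *
      (4 ^ (m + 1) + 1152 * Λ ^ 2 + 8 * Λ + 2) ^ (2 * (m + 1) + 6) *
      ((8 * ((m + 1 : ℕ) : ℝ) + 2) * (6 * Λ) ^ (4 * (m + 1) + 1)))
      (2 * (2 * (m + 1) + 6) + (4 * (m + 1) + 1)) (half_pos hμ)]
    with x hx hl hy hz hfin X Δ Γ K P D b c G _ hD hb hc
  rw [pow_one] at hy hz
  have hx0 : 0 < x := by linarith
  have hΔ : 0 < Δ := (Real.rpow_pos_of_pos hx0 _).trans_le G.d1
  have hX : 0 < X := lt_of_lt_of_le (by linarith) G.x1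
  have hK : (0 : ℝ) < K := by exact_mod_cast G.k1
  have hP : (0 : ℝ) < P := by exact_mod_cast G.p1
  have hc1 : 1 ≤ 3 * (Λ : ℝ) * Real.log x := by nlinarith
  have hBle : (bb x X Δ Λ K P : ℝ) ≤ 3 * Λ * Real.log x * (K * P / (X * Δ)) :=
    Nat.floor_le (by positivity)
  have hH1 : 3 * Λ * Real.log x * (K * P * Δ) ≤ (hh x Δ Λ K P : ℝ) := Nat.le_ceil _
  have hH2 : (hh x Δ Λ K P : ℝ) ≤ 3 * Λ * Real.log x * (K * P * Δ) + 1 :=
    (Nat.ceil_lt_add_one (by positivity)).le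
  change |S0 x X Δ Λ K P D b c| ≤ _
  unfold S0
  generalize bb x X Δ Λ K P = B at *
  generalize hh x Δ Λ K P = H at *
  obtain ⟨f1, f2, f3, f4, f5, f6, f7, f8, f9⟩ := facts_Main hm G (by linarith) hc1
    (by linarith) (by linarith) hBle hH1 hH2
  have hK1 := G.k1
  have q1 : 4 * K ≤ K ^ 2 / H := by
    rw [Nat.le_div_iff_mul_le f4]
    nlinarith
  have q2 : K ^ 2 / H * H ≤ K ^ 2 := Nat.div_mul_le_self _ _
  have q3 : K ^ 2 ≤ 2 * (K ^ 2 / H) * H := by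
    have := Nat.lt_div_mul_add (a := K ^ 2) f4
    have h1 : 1 ≤ K ^ 2 / H := by omega
    nlinarith
  generalize K ^ 2 / H = Q at *
  have hS : ((Λ * P / K + 1 : ℕ) : ℝ) ≤ Λ * (P / K) + 1 := by
    have := Nat.cast_div_le (α := ℝ) (m := Λ * P) (n := K)
    rw [Nat.cast_mul, mul_div_assoc] at this
    rw [Nat.cast_add, Nat.cast_one]
    linarith
  have hρ0 : (1 : ℝ) ≤ P / K := by
    rw [le_div_iff₀ hK]
    have : (8 : ℝ) * K ≤ P := by exact_mod_cast f7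
    linarith
  obtain ⟨w, hw⟩ : ∃ w : ℝ, w = (4 ^ (m + 1) + 1152 * Λ ^ 2 + 8 * Λ + 2) * Real.log x ^ 2 :=
    ⟨_, rfl⟩
  have hw1 : 1 ≤ w := by
    rw [hw]
    refine one_le_mul_of_one_le_of_one_le ?_ (one_le_pow₀ hl)
    have : (0 : ℝ) ≤ 4 ^ (m + 1) + 1152 * Λ ^ 2 := by positivity
    linarith
  have hA : 1 ≤ 16 * ((m + 1 : ℕ) : ℝ) * (3 * Λ * Real.log x) := by
    have : (1 : ℝ) ≤ ((m + 1 : ℕ) : ℝ) := by exact_mod_cast Nat.le_add_left 1 m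
    nlinarith
  have key := hB K P Λ H Q (m + 1) D (G0 X Δ B H) (fun u => b u.1 * c u.2)
    (C * w ^ (2 * (m + 1) + 6) * (8 * X / (Δ * (K * P))) ^ (2 * (m + 1)) *
      (P / K * H ^ (m + 1 + 1) * B ^ (m + 1) + H ^ (2 * (m + 1)) * B ^ (2 * (m + 1)) *
        (zb (16 * ((m + 1 : ℕ) : ℝ) * (3 * Λ * Real.log x) * (1 / Δ)) (P / K) + √(P / K))))
    (by omega) hΛ hD hK1 f7 q1 q2 q3 (by omega) (G0_comm X Δ B H)
    (fun u v h => by
      by_contra h'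
      exact h (if_neg h'))
    (fun u => by
      rw [abs_mul]
      exact mul_le_one₀ (hb _) (abs_nonneg _) (hc _))
    (fun D' q ρ hD' hcard r1 r2 hcell => by
      obtain ⟨c1, c2, c3, c4, c5, c6, c7, c8⟩ := cond_Main (Nat.le_add_left 1 m) hx rfl hl hΛ'
        hK1 hX hΔ G.x2 G.h3 f8 hBle f3 f5 f7 hS r1 r2 hw
      refine (hL K B H Q _ P (Λ * P) D' q X Δ ρ w _ (fun k hk => hD k (hD' hk)) f6 f2 hcard
        (by omega) q3 hcell hX hΔ c1 hw1 c2 c3 c4 c5 c6).trans ?_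
      have z1 := zb_mono (F := 16 * ((m + 1 : ℕ) : ℝ) * (3 * Λ * Real.log x) * (1 / Δ))
        (by positivity) le_rfl c8
      have z0 := zb_nonneg (F := 16 * ((m + 1 : ℕ) : ℝ) * (3 * Λ * Real.log x) * (1 / Δ))
        (by positivity) ρ
      have z2 := Real.sqrt_le_sqrt c8
      have z3 := Real.sqrt_nonneg ρ
      have ρ0 : 0 < ρ := by linarith
      gcongr)
  have h2 := G.h2
  rw [Nat.add_sub_cancel] at h2
  have fin := fin_Main m (Nat.cast_nonneg Q) (Nat.cast_nonneg _) (Nat.cast_nonneg H)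
    (Nat.cast_nonneg B) (by positivity) hΛ' (hS.trans (by nlinarith))
    (show (Q : ℝ) * H ≤ (K : ℝ) ^ 2 by exact_mod_cast q2)
    (show (K : ℝ) ^ 2 * (P / K) = K * P by field_simp) (by positivity) hX hΔ hC.le
    (by linarith) hc1 (zero_le_one.trans (one_le_Lm X Δ K P)) (Real.rpow_nonneg hx0.le μ)
    (zb_nonneg (by positivity) _) f3 f1 h2 G.h4 (zb_scale_Main hA (by positivity)) f9 key
  refine end_Main (Nat.succ_pos m) hx0 (by positivity) fin (le_trans (le_of_eq ?_) hfin)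
  rw [hw, show 2 * (3 * (Λ : ℝ) * Real.log x) = 6 * Λ * Real.log x by ring, mul_pow _ (_ ^ 2),
    mul_pow _ (Real.log x), ← pow_mul, pow_add (Real.log x) (2 * _)]
  ring

end Pool.Agent.MP_c853c5_nt.DS

end
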