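import Pool.Agent.Mg.C853.G74fd53
import Pool.Agent.MP_c853c5_nt.Y.Defs

section

set_option autoImplicit false

open Finset Filter

namespace Pool.Agent.MP_c853c5_nt.D2

open Pool.Agent.MP_c853c5_nt.S Pool.Agent.MP_c853c5_nt.D

lemma small_Fin2 {C ε : ℝ} (hC : 0 < C) (hε : 0 < ε) :
    ∃ w : ℕ, 13 ≤ w ∧ C * (4 * (w : ℝ) + 6) ^ 5 / 4 ^ w ≤ ε := by
  have h := tendsto_pow_const_div_const_pow_of_one_lt 5 (show (1 : ℝ) < 4 by norm_num)
  have h2 := (h.eventually (gt_mem_nhds (show (0 : ℝ) < ε / (5 ^ 5 * C) by positivity))).and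
    (eventually_ge_atTop 13)
  obtain ⟨w, h3, h4⟩ := h2.exists
  refine ⟨w, h4, ?_⟩
  have h5 : (13 : ℝ) ≤ w := by exact_mod_cast h4
  have h6 : (4 * (w : ℝ) + 6) ^ 5 ≤ 5 ^ 5 * (w : ℝ) ^ 5 := by
    rw [← mul_pow]
    exact pow_le_pow_left₀ (by linarith) (by linarith) 5
  have h7 : (0 : ℝ) < 4 ^ w := by positivity
  rw [div_lt_div_iff₀ h7 (by positivity)] at h3
  rw [div_le_iff₀ h7]
  nlinarith [mul_le_mul_of_nonneg_left h6 hC.le]

lemma alt_Fin2 {ι : Type} [Fintype ι] {τ η η₀ η' : ℝ} {K : ℕ} {pr : ι → Prop} {c : ι → ℝ}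
    {b1 b2 : ℝ} (h : Alt4 τ η₀ η' K pr c b1 b2) (hη : η ≤ η₀) : Alt4 τ η η' K pr c b1 b2 :=
  h.imp id (Or.imp (fun h => e1_mono_Fin h hη) (Or.imp (fun h => e1_mono_Fin h hη)
    fun h => ⟨h.1, h.2.1, fun r v h0 h1 h2 h3 => (h.2.2 r v h0 h1 h2 h3).trans (by linarith)⟩))

lemma div_Fin2 {r : ℕ} (B : Fin r → Blk) (κ z : ℝ) (j : ℕ) {δ : ℝ} (hδ : 0 < δ) :
    ∀ᶠ x : ℝ in atTop, ∀ n : ℕ, (n : ℝ) ≤ 2 * x →
      |((∏ i, bf x (B i)) * PP x κ z ^ j * RR x κ) n| ≤ x ^ δ := by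
  filter_upwards [div_all (Option (Fin r ⊕ Fin j)) hδ] with x hx n hn
  have h := hx (fun o => o.elim (RR x κ) (Sum.elim (fun i => bf x (B i)) fun _ => PP x κ z))
    (by
      rintro (_ | i | i) d
      · exact abs_bf_le _ _ _
      · exact abs_bf_le _ _ _
      · exact (abs_of_nonneg (PP_nn_One x κ z d).1).trans_le (PP_nn_One x κ z d).2) n hn
  rw [Fintype.prod_option, Fintype.prod_sum_type] at h
  simp only [Option.elim, Sum.elim_inl, Sum.elim_inr, prod_const, card_univ,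
    Fintype.card_fin] at h
  rwa [mul_comm (RR x κ)] at h

theorem d2Fin (hFW : FWStmt) (hOm : OmStmt) (hTm : TmStmt) (hTa : TaStmt) (hTb : TbStmt)
    (hBox : BoxStmt) (hNom : NomStmt2) (hOne : OneStmt2) (hErr : ErrStmt) (hES : ESumStmt)
    (hExp : ExpStmt) (hIn : InStmt) (hCut : CutStmt) (hBnd : BndStmt) (hLam : LamStmt)
    (hLay : LayStmt) (hRow : RowStmt2) (hSum : SumStmt2) (h1 : E1D) (h2 : E2D) (h12 : E12D) :
    LeafS2 := by
  intro τ t ht hτ hτ2 r B z1 z2 lo hi hB hz1 hz2 hlo hhi hD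
  rcases lt_or_ge hi lo with hlh | hlh
  · refine (ev_zero t).congr ?_
    filter_upwards [eventually_ge_atTop 1] with x hx n _
    have e : bf x ⟨lo, hi, z2, none⟩ = 0 := by
      ext m
      refine bf_of_not fun h => ?_
      have := Real.rpow_le_rpow_of_exponent_le hx hlh.le
      linarith [h.2.1, h.2.2.1]
    rw [e, mul_zero, zero_mul]
  obtain ⟨η₀, hη₀, hD⟩ := hD
  obtain ⟨⟨M, hM1, hM⟩, hP⟩ := dMs
  set η := min η₀ (1 / 1000) with hηd
  have hη : 0 < η := lt_min hη₀ (by norm_num)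
  have hl : 0 < lev τ t η := lt_min (by positivity) (by linarith)
  set c := min (min (lev τ t η) (1 / 100)) (min z1 z2) with hc
  have c0 : 0 < c := lt_min (lt_min hl (by norm_num)) (lt_min hz1 hz2)
  refine ev_iff.2 fun ε hε => ?_
  obtain ⟨w, hw, hs⟩ := small_Fin2 (C := 2 ^ 36 * M ^ r * 36 / c ^ 5) (by positivity)
    (half_pos hε)
  have w0 : (1 : ℝ) ≤ 4 * (w : ℝ) + 6 := by
    have : (0 : ℝ) ≤ w := Nat.cast_nonneg w
    linarith
  set κ := c / (4 * (w : ℝ) + 6) with hκ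
  have κ0 : 0 < κ := by positivity
  have κc : κ ≤ c := div_le_self c0.le w0
  have κz1 : κ ≤ z1 := κc.trans ((min_le_right _ _).trans (min_le_left _ _))
  have κz2 : κ ≤ z2 := κc.trans ((min_le_right _ _).trans (min_le_right _ _))
  have c1 : c ≤ 1 / 100 := (min_le_left _ _).trans (min_le_right _ _)
  have κe : κ * (4 * w + 6) = c := by rw [hκ, div_mul_cancel₀ _ (by linarith)]
  have κl : κ * (4 * w + 6) ≤ lev τ t η := κe.trans_le ((min_le_left _ _).trans (min_le_left _ _))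
  obtain ⟨η', hη', K, hK⟩ := hD κ κ0
  have hA : Alt2 τ η η' κ z1 z2 lo hi K B := fun j1 j2 a q1 q2 b1 b2 a1 a2 a3 a4 a5 a6 a7 a8 =>
    alt_Fin2 (hK j1 j2 a q1 q2 b1 b2 a1 a2 a3 a4 a5 a6 a7 a8) (min_le_left _ _)
  have hO := hOne hBox hNom hTa hTb h1 h2 h12 τ t η η' κ z1 z2 lo hi K w r B ht hτ hτ2 hη
    (min_le_right _ _) hη' κ0 κl hA
  have m0 : 0 ≤ Real.log (6 / κ) := Real.log_nonneg (by
    rw [le_div_iff₀ κ0]
    linarith)
  have t0 : 0 < t := by linarith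
  have t1 : t < 1 / 2 := by linarith
  have hR := fun j1 j2 => hRow hCut hBnd hLay hLam hFW t κ z1 z2 lo hi _ r j1 j2 B t0 t1 κ0
    (fun i => by linarith [hB i]) hlo hlh hhi
    (hIn hExp hES hErr hTm hOm hFW t κ z1 z2 lo hi M (Real.log (6 / κ)) w r j1 j2 B κ0 hw
      (κe.trans_le c1) (hO j1 j2) (hM.mono fun x hx i => hx _ (hB i))
      (hP κ z1 κ0 (by linarith)) (hP κ z2 κ0 (by linarith)))
  have hS := fun j1 => hSum t κ z2 lo hi
    (2 ^ 36 / 4 ^ w / κ ^ 3 * M ^ r * Real.log (6 / κ) ^ j1) (Real.log (6 / κ))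
    (fun x => (∏ i, bf x (B i)) * PP x κ z1 ^ j1 * RR x κ) t0 t1 κ0 κz2 (by positivity) m0
    (fun δ hδ => div_Fin2 B κ z1 j1 hδ) (hR j1)
  have e : ∀ x : ℝ, ∏ i, bf x ((Fin.snoc B ⟨lo, hi, z2, none⟩ : Fin (r + 1) → Blk) i) =
      (∏ i, bf x (B i)) * bf x ⟨lo, hi, z2, none⟩ := fun x => by
    rw [Fin.prod_univ_castSucc]
    simp only [Fin.snoc_castSucc, Fin.snoc_last]
  have hT := dSum dId dBad dSZ t κ z1 (2 ^ 36 / 4 ^ w / κ ^ 3 * M ^ r * (6 / κ))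
    (Real.log (6 / κ)) (r + 1) (Fin.snoc B ⟨lo, hi, z2, none⟩) t0 t1 κ0 κz1 (by positivity) m0
    (fun j ε' hε' => (hS j ε' hε').mono fun x hx => by
      rw [Real.exp_log (by positivity)] at hx
      rw [e]
      convert hx using 3
      · unfold RR
        ring
      · ring) (ε / 2) (half_pos hε)
  filter_upwards [hT, eventually_gt_atTop 1] with x hx x1
  rw [e, Real.exp_log (by positivity)] at hx
  refine hx.trans (mul_le_mul_of_nonneg_right ?_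
    (div_nonneg (by linarith) (Real.log_pos x1).le))
  have e2 : 2 ^ 36 / 4 ^ w / κ ^ 3 * M ^ r * (6 / κ) * (6 / κ) =
      2 ^ 36 * M ^ r * 36 / c ^ 5 * (4 * (w : ℝ) + 6) ^ 5 / 4 ^ w := by
    rw [hκ]
    field_simp
    ring
  rw [e2]
  linarith

end Pool.Agent.MP_c853c5_nt.D2

end

section

/-!
One box at a nominal point, with two sieved factors.
-/

set_option autoImplicit false

open Finset Filter

namespace Pool.Agent.MP_c853c5_nt.D2

open Pool.Agent.MP_c853c5_nt.S Pool.Agent.MP_c853c5_nt.D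

lemma slot_Box2 (x κ : ℝ) (k : ℕ) : Slot ⌈yk_T1 k⌉₊ (pc (RR x κ) k) := by
  refine ⟨Nat.ceil_pos.2 (yk_pos_T1 k), fun n => ?_, fun n hn => ?_⟩
  · rw [abs_of_nonneg (nn_pc (nn_RR x κ) k n)]
    exact (pm_le (nn_RR x κ) (oy_le _) n).trans (bf_le_one _ _ _)
  · obtain ⟨-, h1, h2⟩ := pc_ne hn
    refine ⟨Nat.ceil_le.2 h1.le, ?_⟩
    have h3 := Nat.le_ceil (yk_T1 k)
    have h4 : (n : ℝ) < 2 * (⌈yk_T1 k⌉₊ : ℝ) := by linarith
    exact_mod_cast h4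

lemma ceil_Box2 (k : ℕ) : (⌈yk_T1 k⌉₊ : ℝ) ≤ yk_T1 k * 3 := by
  have h1 := Nat.ceil_lt_add_one (yk_pos_T1 k).le
  have h2 : yk_T1 0 ≤ yk_T1 k := yk_mono (Nat.zero_le k)
  have h3 : yk_T1 0 = 3 / 4 := by simp [yk_T1]
  linarith

lemma near_Box2 {x γ γ' b : ℝ} {k : ℕ} (hx : 1 ≤ x) (h3 : 3 ≤ x ^ γ) (hγ : 0 < γ)
    (h : 2 * γ ≤ γ') (h1 : x ^ (b - γ) ≤ yk_T1 k) (h2 : yk_T1 k ≤ x ^ (b + γ)) :
    x ^ (b - γ') ≤ (⌈yk_T1 k⌉₊ : ℝ) ∧ (⌈yk_T1 k⌉₊ : ℝ) ≤ x ^ (b + γ') := by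
  have hx0 : 0 < x := by linarith
  refine ⟨((Real.rpow_le_rpow_of_exponent_le hx (by linarith)).trans h1).trans (Nat.le_ceil _),
    (ceil_Box2 k).trans ((mul_le_mul h2 h3 (by norm_num) (by positivity)).trans ?_)⟩
  rw [← Real.rpow_add hx0]
  exact Real.rpow_le_rpow_of_exponent_le hx (by linarith)

lemma err_Box2 {x : ℝ} {G E : AF} {k : ℕ} (hx : 1 ≤ x)
    (hy : 2 * x ^ (1 / 20 : ℝ) ≤ yk_T1 k) : SB x (G * pc E k) ≤ SB x (low x G * pc E k) := by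
  have hx0 : 0 < x := by linarith
  refine SB_mono hx0.le fun n hn => ?_
  rw [ArithmeticFunction.mul_apply, ArithmeticFunction.mul_apply]
  refine sum_le_sum fun p hp => ?_
  by_cases h0 : pc E k p.2 = 0
  · rw [h0, mul_zero, mul_zero]
  obtain ⟨h1, h2⟩ := Nat.mem_divisorsAntidiagonal.1 hp
  have h3 : p.1 ≠ 0 := fun h => h2 (by rw [← h1, h, zero_mul])
  have h4 : (0 : ℝ) < p.1 := by exact_mod_cast Nat.pos_of_ne_zero h3
  have h5 : (p.1 : ℝ) * p.2 ≤ 2 * x := by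
    rw [← Nat.cast_mul, h1]
    exact hn.2
  have h6 := (pc_ne h0).2.1
  have h7 : 0 < x ^ (1 / 20 : ℝ) := by positivity
  have h8 : x ^ (19 / 20 : ℝ) * x ^ (1 / 20 : ℝ) = x := by
    rw [← Real.rpow_add hx0]
    norm_num
  have h9 : (p.1 : ℝ) ≤ x ^ (19 / 20 : ℝ) := by
    refine le_of_mul_le_mul_right ?_ h7
    rw [h8]
    nlinarith
  rw [low, pm_apply, rg, if_pos ⟨h4, h9⟩, mul_one]

lemma step_Box2 (t : ℝ) {x κ : ℝ} {w k : ℕ} {lam e G G' G'' : AF} (h : FW x κ w lam e)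
    (hx : 1 ≤ x) (hG : Nn G) (h1 : Le G G') (h2 : Le G' G'')
    (hy : 2 * x ^ (1 / 20 : ℝ) ≤ yk_T1 k) :
    |Dl t x (G * pc (RR x κ) k)| ≤ |Dl t x (G * pc (lam * zt) k)| +
      |Dl t x (G' * pc (e * zt) k)| + 2 * SB x (low x G'' * pc (e * zt) k) := by
  have hx0 : 0 < x := by linarith
  have hE : Nn (pc (e * zt) k) := nn_pc h.pos k
  have h3 : ∀ n, Win x n → |(G * pc (RR x κ) k) n - (G * pc (lam * zt) k) n| ≤
      (G' * pc (e * zt) k) n := fun n hn => by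
    have h4 : (G * pc (RR x κ) k) n ≤ (G * pc (lam * zt) k) n :=
      B.mul_apply_mono hG fun d _ =>
        mul_le_mul_of_nonneg_right (h.maj d) (oy_nn (yk_pos_T1 k) d)
    have h5 : 0 < n := by
      have : (0 : ℝ) < n := lt_trans (by positivity) hn.1
      exact_mod_cast this
    have h6 : (G * pc (lam * zt) k) n ≤ (G * (pc (RR x κ) k + pc (e * zt) k)) n :=
      B.mul_apply_mono hG fun d hd => by
        have h7 : (d : ℝ) ≤ n := by exact_mod_cast Nat.le_of_dvd h5 hd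
        have h8 := mul_le_mul_of_nonneg_right (h.gap d (h7.trans hn.2)) (oy_nn (yk_pos_T1 k) d)
        rw [add_mul] at h8
        exact h8
    rw [mul_add, ArithmeticFunction.add_apply] at h6
    have h7 := h1.mul_right hE n
    rw [abs_sub_comm, abs_of_nonneg (sub_nonneg.2 h4)]
    linarith
  have h4 := abs_Dl_le t hx0.le h3
  have h5 : SB x (G' * pc (e * zt) k) ≤ SB x (G'' * pc (e * zt) k) :=
    SB_mono hx0.le fun n _ => h2.mul_right hE n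
  have h6 := err_Box2 (G := G'') (E := e * zt) hx hy
  linarith

theorem d2Box : BoxStmt := by
  intro hTa hTb hE1 hE2 hE12 ι _ τ t η η' κ K w A ht htτ hτ hη hη1 hη' hκ hlev
  obtain ⟨γ2, hγ2, h2⟩ := hE2 (Option (Option ι)) τ t η' K A ht htτ hτ hη'
  obtain ⟨γa, hγa, ha⟩ := hTa hE1 (Option ι) τ t η K ht htτ hτ hη hη1
  obtain ⟨γb, hγb, hb⟩ := hTb hE12 ι τ t η K ht htτ hτ hη hη1
  obtain ⟨γ, hγ, g2, ga, gb, g1⟩ : ∃ γ : ℝ, 0 < γ ∧ 2 * γ ≤ γ2 ∧ 2 * γ ≤ γa ∧ 2 * γ ≤ γb ∧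
      γ ≤ 1 / 100 := by
    refine ⟨min (min γ2 γa) (min γb (1 / 50)) / 2, by positivity, ?_, ?_, ?_, ?_⟩
    · linarith [min_le_left (min γ2 γa) (min γb (1 / 50)), min_le_left γ2 γa]
    · linarith [min_le_left (min γ2 γa) (min γb (1 / 50)), min_le_right γ2 γa]
    · linarith [min_le_right (min γ2 γa) (min γb (1 / 50)), min_le_left γb (1 / 50)]
    · linarith [min_le_right (min γ2 γa) (min γb (1 / 50)), min_le_right γb (1 / 50)]
  refine ⟨γ, hγ, ?_⟩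
  filter_upwards [h2, ha, hb, log_One (η / 20) (by positivity) A, eventually_ge_atTop 1,
    (tendsto_rpow_atTop hγ).eventually_ge_atTop 3,
    (tendsto_rpow_atTop (show (0 : ℝ) < 1 / 25 by norm_num)).eventually_ge_atTop 2,
    (tendsto_rpow_atTop (show 0 < η / 20 by positivity)).eventually_ge_atTop 3]
    with x h2 ha hb hlog x1 xγ x25 xη
  intro lam e hF pr c b1 b2 N g k1 k2 hc hb1 hb2 hsum hAlt hsl hg0 hN hpr y1 y1' y2 y2' hprod
  have x0 : 0 < x := by linarith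
  have hs0 : 0 ≤ ∑ i, c i := sum_nonneg fun i _ => hc i
  have hc1 : ∀ i, 0 ≤ c i ∧ c i ≤ 1 := fun i =>
    ⟨hc i, by linarith [single_le_sum (f := c) (fun j _ => hc j) (mem_univ i)]⟩
  have b11 : b1 ≤ 1 := by linarith
  have b21 : b2 ≤ 1 := by linarith
  have hH : Nn (∏ i, g i) := Nn.prod fun i _ => hg0 i
  have e12 := hF.er_nn x0.le hH k1 k2
  have e21 := hF.er_nn x0.le hH k2 k1
  have hp0 : 0 ≤ ∏ i, (N i : ℝ) := prod_nonneg fun i _ => Nat.cast_nonneg _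
  have h3 : 3 * x ^ (1 - η / 10) ≤ x / Real.log x ^ A := by
    refine le_trans ?_ hlog
    rw [show 1 - η / 20 = η / 20 + (1 - η / 10) by ring, Real.rpow_add x0]
    exact mul_le_mul_of_nonneg_right xη (by positivity)
  have h4 : 0 ≤ x ^ (1 - η / 10) := by positivity
  have sl : ∀ d, lam d ≠ 0 → (d : ℝ) ≤ x ^ lev τ t η := fun d hd =>
    (hF.s1 d hd).trans (Real.rpow_le_rpow_of_exponent_le x1 hlev)
  have se : ∀ d, e d ≠ 0 → (d : ℝ) ≤ x ^ lev τ t η := fun d hd =>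
    (hF.s2 d hd).trans (Real.rpow_le_rpow_of_exponent_le x1 hlev)
  have big : ∀ {b : ℝ} {k : ℕ}, 1 / 10 ≤ b → x ^ (b - γ) ≤ yk_T1 k →
      2 * x ^ (1 / 20 : ℝ) ≤ yk_T1 k := fun {b k} h5 h6 => by
    refine le_trans ?_ h6
    refine (mul_le_mul_of_nonneg_right x25 (by positivity)).trans ?_
    rw [← Real.rpow_add x0]
    exact Real.rpow_le_rpow_of_exponent_le x1 (by linarith)
  have lo : ∀ {b γ' y : ℝ}, 2 * γ ≤ γ' → x ^ (b - γ) ≤ y → x ^ (b - γ') ≤ y :=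
    fun h5 h6 => (Real.rpow_le_rpow_of_exponent_le x1 (by linarith)).trans h6
  have hi : ∀ {b γ' y : ℝ}, 2 * γ ≤ γ' → y ≤ x ^ (b + γ) → y ≤ x ^ (b + γ') :=
    fun h5 h6 => h6.trans (Real.rpow_le_rpow_of_exponent_le x1 (by linarith))
  have key : ∀ (b1 b2 : ℝ) (k1 k2 : ℕ), b1 ≤ 1 → 0 ≤ b2 → b2 ≤ 1 →
      x ^ (b1 - γ) ≤ yk_T1 k1 → yk_T1 k1 ≤ x ^ (b1 + γ) →
      x ^ (b2 - γ) ≤ yk_T1 k2 → yk_T1 k2 ≤ x ^ (b2 + γ) →
      (∏ i, (N i : ℝ)) * ⌈yk_T1 k2⌉₊ * ⌈yk_T1 k1⌉₊ ≤ 2 * x →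
      E1pt τ η K (fun o : Option ι => o.elim b2 c) b1 →
      |Dl t x ((∏ i, g i) * pc (RR x κ) k2 * pc (RR x κ) k1)| ≤ x / Real.log x ^ A +
        2 * er x κ lam e (∏ i, g i) k2 k1 := by
    intro b1 b2 k1 k2 b11 hb2 b21 y1 y1' y2 y2' hprod hE
    have h5 : ∀ l : AF, (∀ d, |l d| ≤ 1) → (∀ d, l d ≠ 0 → (d : ℝ) ≤ x ^ lev τ t η) →
        |Dl t x ((∏ i, g i) * pc (RR x κ) k2 * pc (l * zt) k1)| ≤ x ^ (1 - η / 10) := by
      intro l l1 l2
      have h6 := ha (fun o => o.elim b2 c) b1 (fun o => o.elim ⌈yk_T1 k2⌉₊ N)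
        (fun o => o.elim (pc (RR x κ) k2) g) l (yk_T1 k1)
        (by rintro (_ | i); exacts [⟨hb2, b21⟩, hc1 i]) b11 hE
        (by rintro (_ | i); exacts [slot_Box2 x κ k2, hsl i])
        (by rintro (_ | i); exacts [(near_Box2 x1 xγ hγ ga y2 y2').2, hi ga (hN i).2])
        (lo ga y1) (hi ga y1') (by
          rw [Fintype.prod_option]
          refine le_trans ?_ hprod
          simp only [Option.elim]
          rw [mul_comm _ (∏ i, (N i : ℝ))]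
          exact mul_le_mul_of_nonneg_left (Nat.le_ceil _) (by positivity)) l1 l2
      rw [Fintype.prod_option] at h6
      simp only [Option.elim] at h6
      rwa [mul_comm (pc (RR x κ) k2)] at h6
    have h6 := step_Box2 t hF x1 (hH.mul (nn_pc (nn_RR x κ) k2)) (Le.refl _)
      ((hF.le_up k2).mul_left hH) (big hE.1 y1)
    have h7 := h5 lam hF.b1 sl
    have h8 := h5 e hF.b2 se
    unfold er
    linarith
  rcases hAlt with hE | hE | hE | hE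
  · have h5 := h2 _ (fun o => o.elim b1 fun o' => o'.elim b2 c)
      (fun o => o.elim ⌈yk_T1 k1⌉₊ fun o' => o'.elim ⌈yk_T1 k2⌉₊ N)
      (fun o => o.elim (pc (RR x κ) k1) fun o' => o'.elim (pc (RR x κ) k2) g)
      (by rintro (_ | _ | i); exacts [⟨hb1, b11⟩, ⟨hb2, b21⟩, hc1 i]) hE
      (by rintro (_ | _ | i); exacts [slot_Box2 x κ k1, slot_Box2 x κ k2, hsl i])
      (by
        rintro (_ | _ | i)
        exacts [near_Box2 x1 xγ hγ g2 y1 y1', near_Box2 x1 xγ hγ g2 y2 y2',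
          ⟨lo g2 (hN i).1, hi g2 (hN i).2⟩])
      (by rintro (_ | _ | i) h; exacts [h.elim, h.elim, hpr i h]) (by
        rw [Fintype.prod_option, Fintype.prod_option]
        refine le_trans (le_of_eq ?_) hprod
        simp only [Option.elim]
        ring)
    rw [Fintype.prod_option, Fintype.prod_option] at h5
    simp only [Option.elim] at h5
    rw [show (∏ i, g i) * pc (RR x κ) k1 * pc (RR x κ) k2 =
      pc (RR x κ) k1 * (pc (RR x κ) k2 * ∏ i, g i) by ring]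
    linarith
  · have h5 := key b1 b2 k1 k2 b11 hb2 b21 y1 y1' y2 y2' (by rwa [mul_right_comm]) hE
    rw [mul_right_comm]
    linarith
  · have h5 := key b2 b1 k2 k1 b21 hb1 b11 y2 y2' y1 y1' hprod hE
    linarith
  · have h5 : ∀ l1 l2 : AF, (∀ d, |l1 d| ≤ 1) → (∀ d, |l2 d| ≤ 1) →
        (∀ d, l1 d ≠ 0 → (d : ℝ) ≤ x ^ lev τ t η) → (∀ d, l2 d ≠ 0 → (d : ℝ) ≤ x ^ lev τ t η) →
        |Dl t x ((∏ i, g i) * pc (l1 * zt) k1 * pc (l2 * zt) k2)| ≤ x ^ (1 - η / 10) :=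
      fun l1 l2 => hb c b1 b2 N g l1 l2 _ _ hc1 b11 b21 hE hsl (fun i => hi gb (hN i).2)
        (lo gb y1) (hi gb y1') (lo gb y2) (hi gb y2') (le_trans (mul_le_mul
          (mul_le_mul_of_nonneg_left (Nat.le_ceil _) hp0) (Nat.le_ceil _) (yk_pos_T1 k2).le
          (by positivity)) hprod)
    have z1 := big hE.1 y1
    have z2 := big hE.2.1 y2
    have z0 : 0 < x ^ (1 / 20 : ℝ) := by positivity
    have u1 : up x κ lam k1 = pc (lam * zt) k1 := if_neg (by linarith)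
    have u2 : up x κ lam k2 = pc (lam * zt) k2 := if_neg (by linarith)
    have h6 := step_Box2 t hF x1 (hH.mul (nn_pc (nn_RR x κ) k1)) ((hF.le_up k1).mul_left hH)
      (Le.refl _) z2
    have h7 := step_Box2 t hF x1 (hH.mul (hF.nn_up k2)) (Le.refl _) (Le.refl _) z1
    have h8 := h5 lam lam hF.b1 hF.b1 sl sl
    have h9 := h5 lam e hF.b1 hF.b2 sl se
    have h10 := h5 e lam hF.b2 hF.b1 se sl
    unfold er
    rw [u1] at h6 ⊢
    rw [u2] at h7 ⊢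
    rw [mul_right_comm _ _ (pc (RR x κ) k1), mul_right_comm _ _ (pc (lam * zt) k1),
      mul_right_comm _ _ (pc (e * zt) k1)] at h7
    linarith

end Pool.Agent.MP_c853c5_nt.D2

end

section

/-!
The nominal point for two sieved factors.
-/

set_option autoImplicit false

open Finset Filter

namespace Pool.Agent.MP_c853c5_nt.D2

open Pool.Agent.MP_c853c5_nt.S Pool.Agent.MP_c853c5_nt.D

lemma split_Nom2 {ι : Type} [Fintype ι] {x s : ℝ} (hx : 1 < x) {l u m : ι → ℝ}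
    (hm : ∀ i, x ^ l i ≤ m i ∧ m i ≤ x ^ u i) (hl : ∑ i, l i ≤ s) (hu : s ≤ ∑ i, u i)
    (h1 : x ^ s ≤ 2 * ∏ i, m i) (h2 : ∏ i, m i ≤ 2 * x ^ s) :
    ∃ a : ι → ℝ, ∑ i, a i = s ∧
      ∀ i, l i ≤ a i ∧ a i ≤ u i ∧ x ^ a i ≤ 2 * m i ∧ m i ≤ 2 * x ^ a i := by
  have x0 : 0 < x := by linarith
  have m0 : ∀ i, 0 < m i := fun i => (Real.rpow_pos_of_pos x0 _).trans_le (hm i).1
  obtain ⟨a, a1, a2⟩ := L2.proj (l := l) (u := u) (α := fun i => Real.logb x (m i)) (s := s)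
    (fun i => ⟨(Real.le_logb_iff_rpow_le hx (m0 i)).2 (hm i).1,
      (Real.logb_le_iff_le_rpow hx (m0 i)).2 (hm i).2⟩) hl hu
  have p0 : 0 < ∏ i, m i := prod_pos fun i _ => m0 i
  have s0 : 0 < x ^ s := Real.rpow_pos_of_pos x0 s
  have a3 : |∑ i, Real.logb x (m i) - s| ≤ Real.logb x 2 := by
    rw [← Real.logb_prod _ _ fun i _ => (m0 i).ne']
    have b1 := Real.logb_le_logb_of_le hx p0 h2
    have b2 := Real.logb_le_logb_of_le hx s0 h1
    rw [Real.logb_mul two_ne_zero s0.ne', Real.logb_rpow x0 hx.ne'] at b1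
    rw [Real.logb_mul two_ne_zero p0.ne', Real.logb_rpow x0 hx.ne'] at b2
    exact abs_le.2 ⟨by linarith, by linarith⟩
  refine ⟨a, a1, fun i => ?_⟩
  obtain ⟨b1, b2, b3⟩ := a2 i
  obtain ⟨b4, b5⟩ := abs_le.1 (b3.trans a3)
  have b6 := Real.rpow_logb x0 hx.ne' (m0 i)
  have b7 := Real.rpow_logb x0 hx.ne' two_pos
  refine ⟨b1, b2, ?_, ?_⟩
  · calc x ^ a i ≤ x ^ (Real.logb x 2 + Real.logb x (m i)) :=
          Real.rpow_le_rpow_of_exponent_le hx.le (by linarith)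
      _ = _ := by rw [Real.rpow_add x0, b6, b7]
  · calc m i = x ^ Real.logb x (m i) := b6.symm
      _ ≤ x ^ (Real.logb x 2 + a i) := Real.rpow_le_rpow_of_exponent_le hx.le (by linarith)
      _ = _ := by rw [Real.rpow_add x0, b7]

lemma rpow_max_Nom2 {x a b m : ℝ} (h1 : x ^ a ≤ m) (h2 : x ^ b ≤ m) : x ^ max a b ≤ m := by
  rcases max_choice a b with h | h <;> rwa [h]

theorem d2Nom : NomStmt2 := by
  intro ι₁ ι₂ _ _ l1 u1 l2 u2 lo hi hl2
  filter_upwards [L2.nominal (ι := Option (Option ι₁))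
    (fun o => o.elim (max lo (∑ i, l2 i)) fun o => o.elim 0 fun i => max (l1 i) 0)
    (fun o => o.elim hi fun o => o.elim 2 u1), eventually_ge_atTop 2]
    with x hN hx m1 m2 n1 n2 hm1 hm2 hn1 hn2 h1 h2 h3 h4
  have x1 : 1 < x := by linarith
  have x0 : 0 < x := by linarith
  have a1 : (1 : ℝ) ≤ n1 := Nat.one_le_cast.2 hn1
  have a2 : (1 : ℝ) ≤ n2 := Nat.one_le_cast.2 hn2
  have a3 : (1 : ℝ) ≤ ∏ i, (m1 i : ℝ) := one_le_prod fun i _ => Nat.one_le_cast.2 (hm1 i).1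
  have a4 : x ^ (∑ i, l2 i) ≤ ∏ i, (m2 i : ℝ) := by
    rw [Real.rpow_sum_of_pos x0]
    exact prod_le_prod (fun i _ => (Real.rpow_pos_of_pos x0 _).le) fun i _ => (hm2 i).1
  have a5 : 0 ≤ ∑ i, l2 i := sum_nonneg fun i _ => hl2 i
  have a6 : (1 : ℝ) ≤ ∏ i, (m2 i : ℝ) := (Real.one_le_rpow x1.le a5).trans a4
  have a7 : 2 * x ≤ x ^ (2 : ℝ) := by
    rw [Real.rpow_two]
    nlinarith
  have b1 : (n1 : ℝ) ≤ x ^ (2 : ℝ) := ((le_mul_of_one_le_left (by linarith) a3).trans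
    (le_mul_of_one_le_right (by positivity) (one_le_mul_of_one_le_of_one_le a6 a2))).trans
      (h2.trans a7)
  have b2 : (n2 : ℝ) ≤ x ^ (2 : ℝ) := ((le_mul_of_one_le_left (by linarith) a6).trans
    (le_mul_of_one_le_left (by positivity) (one_le_mul_of_one_le_of_one_le a3 a1))).trans
      (h2.trans a7)
  have e : ∏ o : Option (Option ι₁), o.elim ((∏ i, (m2 i : ℝ)) * n2)
      (fun o => o.elim (n1 : ℝ) fun i => (m1 i : ℝ)) =
      (∏ i, (m1 i : ℝ)) * n1 * ((∏ i, (m2 i : ℝ)) * n2) := by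
    simp only [Fintype.prod_option, Option.elim]
    ring
  obtain ⟨a, s1, s2⟩ := hN (fun o => o.elim ((∏ i, (m2 i : ℝ)) * n2)
      (fun o => o.elim (n1 : ℝ) fun i => (m1 i : ℝ))) (by
    rintro (_ | _ | i)
    · exact ⟨rpow_max_Nom2 h3 (a4.trans (le_mul_of_one_le_right (by linarith) a2)), h4⟩
    · exact ⟨(Real.rpow_zero x).trans_le a1, b1⟩
    · exact ⟨rpow_max_Nom2 (hm1 i).2.1
        ((Real.rpow_zero x).trans_le (Nat.one_le_cast.2 (hm1 i).1)), (hm1 i).2.2⟩)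
    (e ▸ h1) (e ▸ h2)
  simp only [Fintype.sum_option] at s1
  obtain ⟨c1, c2, c3, c4⟩ := s2 none
  have c5 : ∀ i, l1 i ≤ a (some (some i)) ∧ 0 ≤ a (some (some i)) := fun i =>
    max_le_iff.1 (s2 (some (some i))).1
  have c6 : 0 ≤ a (some none) := (s2 (some none)).1
  have c7 : 0 ≤ ∑ i, a (some (some i)) := sum_nonneg fun i _ => (c5 i).2
  have c8 : lo ≤ a none ∧ ∑ i, l2 i ≤ a none := max_le_iff.1 c1
  have c9 : 0 ≤ ∑ i, u2 i := sum_nonneg fun i _ => (hl2 i).trans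
    ((Real.rpow_le_rpow_left_iff x1).1 ((hm2 i).1.trans (hm2 i).2))
  have e2 : ∏ o : Option ι₂, o.elim (n2 : ℝ) (fun i => (m2 i : ℝ)) = (∏ i, (m2 i : ℝ)) * n2 := by
    simp only [Fintype.prod_option, Option.elim]
    ring
  obtain ⟨q, t1, t2⟩ := split_Nom2 (ι := Option ι₂) (s := a none) x1
    (l := fun o => o.elim 0 l2) (u := fun o => o.elim 2 u2)
    (m := fun o => o.elim (n2 : ℝ) fun i => (m2 i : ℝ)) (by
      rintro (_ | i)
      · exact ⟨(Real.rpow_zero x).trans_le a2, b2⟩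
      · exact hm2 i)
    (by simpa only [Fintype.sum_option, Option.elim, zero_add] using c8.2)
    (by simp only [Fintype.sum_option, Option.elim]; linarith) (e2 ▸ c3) (e2 ▸ c4)
  rw [Fintype.sum_option] at t1
  refine ⟨fun i => a (some (some i)), fun i => q (some i), a (some none), q none,
    fun i => ⟨(c5 i).2, (c5 i).1, (s2 (some (some i))).2⟩, fun i => t2 (some i), c6,
    (s2 (some none)).2.2, (t2 none).1, (t2 none).2.2, by linarith, by linarith [c8.1], ?_⟩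
  have c2' : a none ≤ hi := c2
  linarith

end Pool.Agent.MP_c853c5_nt.D2

end

section

/-!
The expansion into boxes.
-/

set_option autoImplicit false

open Finset Filter

namespace Pool.Agent.MP_c853c5_nt.D2

open Pool.Agent.MP_c853c5_nt.S Pool.Agent.MP_c853c5_nt.D

lemma prod_Exp2 {ι : Type} [Fintype ι] [DecidableEq ι] (c : ι → AF) {X L : ℕ} (h : X ≤ 2 ^ L) :
    ∀ d < X, (∏ i, c i) d = (∑ e : ι → Fin L, ∏ i, dy (2 ^ (e i : ℕ)) (c i)) d := by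
  rw [← Fintype.piFinset_univ,
    ← prod_univ_sum (fun _ => univ) fun i (e : Fin L) => dy (2 ^ (e : ℕ)) (c i)]
  exact prod_Dy _ fun i d hd => by rw [AF_sum, sum_Dy _ (hd.trans_le h)]

lemma sum_Exp2 {α β γ M : Type} [Fintype α] [DecidableEq α] [Fintype β] [DecidableEq β]
    [Fintype γ] [AddCommMonoid M] (F : (α ⊕ β → γ) → M) :
    ∑ f, F f = ∑ a : α → γ, ∑ b : β → γ, F (Sum.elim a b) := by
  rw [← (Equiv.sumArrowEquivProdArrow α β γ).symm.sum_comp, Fintype.sum_prod_type]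
  rfl

theorem d2Exp : ExpStmt := by
  intro t x κ z1 z2 u v r j1 j2 B hx
  have hL : ⌊2 * x⌋₊ + 1 ≤ 2 ^ LL x := LL_big
  have hR : ∀ d < ⌊2 * x⌋₊ + 1, RR x κ d = (∑ k ∈ range (nn x), pc (RR x κ) k) d := fun d hd =>
    (sum_pc _ (((Nat.le_floor_iff (by linarith)).1 (Nat.lt_succ_iff.1 hd)).trans
      (nn_big hx))).symm
  have hP : PP x κ z1 ^ j1 = ∏ _i : Fin j1, PP x κ z1 := by simp
  rw [hP, Dl_congr t fun n hn => mul_Dy (mul_Dy (mul_Dy (prod_Exp2 _ hL) (prod_Exp2 _ hL)) hR)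
    (fun _ _ => rfl) n (Nat.lt_succ_of_le (Nat.le_floor hn.2)), sum_Exp2, sum_mul, sum_mul,
    sum_mul, Dl_sum]
  refine sum_congr rfl fun e0 _ => ?_
  rw [sum_Exp2, mul_sum univ, sum_mul, sum_mul, Dl_sum]
  refine sum_congr rfl fun e1 _ => ?_
  rw [inn, mul_sum univ, Dl_sum]
  refine sum_congr rfl fun e2 _ => ?_
  rw [mul_sum (range (nn x)) (pc (RR x κ)), sum_mul, Dl_sum]
  refine sum_congr rfl fun k1 _ => ?_
  rw [mul_sum, Dl_sum]
  refine sum_congr rfl fun k2 _ => ?_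
  simp only [Sum.elim_inr, Sum.elim_inl, Fintype.prod_sum_type, cf]
  by_cases h : Ins u v (fun i => 2 ^ (e2 i : ℕ)) k2
  · rw [if_pos h]
    refine Eq.trans ?_ (if_pos h).symm
    congr 1
    ring
  · rw [if_neg h, mul_zero, Dl_zero]
    exact (if_neg h).symm

end Pool.Agent.MP_c853c5_nt.D2

end

section

set_option autoImplicit false

open Finset

namespace Pool.Agent.MP_c853c5_nt.D2

open Pool.Agent.MP_c853c5_nt.S Pool.Agent.MP_c853c5_nt.D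

lemma dec_Cut2 (P R : AF) (j L n : ℕ) {X m : ℕ} (h1 : X < 2 ^ L) (h2 : (X : ℝ) ≤ yk_T1 n)
    (hm : m ≤ X) : (P ^ j * R) m = ∑ e : Fin j → Fin L, ∑ k ∈ range n,
      ((∏ i, dy (2 ^ (e i : ℕ)) P) * pc R k) m := by
  have e1 : P ^ j = ∏ _i : Fin j, P := by simp
  simp only [← AF_sum]
  rw [← sum_mul_sum, ← Fintype.piFinset_univ,
    ← prod_univ_sum (fun _ => univ) fun (_ : Fin j) (e : Fin L) => dy (2 ^ (e : ℕ)) P, e1]
  refine mul_Dy (X := X + 1) (prod_Dy _ fun i d hd => ?_) (fun d hd => ?_) m (by omega)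
  · rw [AF_sum, sum_Dy _ (by omega)]
  · rw [sum_pc R (le_trans (by exact_mod_cast Nat.lt_succ_iff.1 hd) h2)]

lemma supp_Cut2 {P R : AF} {j k m : ℕ} {N : Fin j → ℕ} (hN : ∀ i, 0 < N i)
    (h : ((∏ i, dy (N i) P) * pc R k) m ≠ 0) : (∏ i, (N i : ℝ)) * yk_T1 k < m ∧
      (m : ℝ) < 2 ^ (j + 1) * ((∏ i, (N i : ℝ)) * yk_T1 k) := by
  obtain ⟨a, b, rfl, h1, h2⟩ := exists_of_mul_ne h
  obtain ⟨c, rfl, h3⟩ := exists_of_prod_ne _ _ h1
  obtain ⟨-, h4, h5⟩ := pc_ne h2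
  have h6 : ∏ i, (N i : ℝ) ≤ ∏ i, (c i : ℝ) :=
    prod_le_prod (fun i _ => Nat.cast_nonneg _) fun i hi => by
      exact_mod_cast (dy_ne_One (h3 i hi)).1.1
  have h7 : ∏ i, (c i : ℝ) ≤ 2 ^ j * ∏ i, (N i : ℝ) := by
    have h8 : ∏ i, (c i : ℝ) ≤ ∏ i, (2 * N i : ℝ) :=
      prod_le_prod (fun i _ => Nat.cast_nonneg _) fun i hi => by
        exact_mod_cast (dy_ne_One (h3 i hi)).1.2.le
    rwa [prod_mul_distrib, prod_const, card_univ, Fintype.card_fin] at h8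
  have h8 : 0 < ∏ i, (N i : ℝ) := prod_pos fun i _ => by exact_mod_cast hN i
  have h9 : (0 : ℝ) ≤ b := Nat.cast_nonneg _
  have h10 : (0 : ℝ) < 2 ^ j * ∏ i, (N i : ℝ) := by positivity
  push_cast
  constructor
  · exact (mul_lt_mul_of_pos_left h4 h8).trans_le (mul_le_mul_of_nonneg_right h6 h9)
  · refine (mul_le_mul_of_nonneg_right h7 h9).trans_lt
      ((mul_lt_mul_of_pos_left h5 h10).trans_eq ?_)
    ring

theorem d2Cut : CutStmt := by
  classical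
  intro P R j L n X u v hP hR hu hv h1 h2 m hm
  have hF : 0 ≤ (P ^ j * R) m := (hP.pow j).mul hR m
  have hd := dec_Cut2 P R j L n h1 h2 hm
  have hq : ∀ (e : Fin j → Fin L) (k : ℕ), 0 ≤ ((∏ i, dy (2 ^ (e i : ℕ)) P) * pc R k) m :=
    fun e k => (Nn.prod fun i _ d => by
      rw [dy_apply_One]
      split_ifs
      exacts [hP d, le_rfl]).mul (nn_pc hR k) m
  have hs : ∀ (e : Fin j → Fin L) (k : ℕ), ((∏ i, dy (2 ^ (e i : ℕ)) P) * pc R k) m ≠ 0 →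
      (∏ i, ((2 ^ (e i : ℕ) : ℕ) : ℝ)) * yk_T1 k < m ∧
        (m : ℝ) < 2 ^ (j + 1) * ((∏ i, ((2 ^ (e i : ℕ) : ℕ) : ℝ)) * yk_T1 k) :=
    fun e k h => supp_Cut2 (N := fun i => 2 ^ (e i : ℕ)) (fun i => by positivity) h
  have hi : inn P R j L n u v m = ∑ e : Fin j → Fin L, ∑ k ∈ range n,
      if Ins u v (fun i => 2 ^ (e i : ℕ)) k then ((∏ i, dy (2 ^ (e i : ℕ)) P) * pc R k) m
      else 0 := by
    rw [inn, AF_sum]
    refine sum_congr rfl fun e _ => ?_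
    rw [AF_sum]
    refine sum_congr rfl fun k _ => ?_
    split_ifs <;> rfl
  have r1 := mul_nonneg hF (rg_nn (u / 2 ^ (j + 2)) (2 ^ (j + 2) * u) m)
  have r2 := mul_nonneg hF (rg_nn (v / 2 ^ (j + 2)) (2 ^ (j + 2) * v) m)
  rw [pm_apply, pm_apply, pm_apply, hi]
  by_cases hr : u < m ∧ (m : ℝ) ≤ v
  · have e1 : (P ^ j * R) m * rg u v m - (∑ e : Fin j → Fin L, ∑ k ∈ range n,
        if Ins u v (fun i => 2 ^ (e i : ℕ)) k then ((∏ i, dy (2 ^ (e i : ℕ)) P) * pc R k) m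
        else 0) = ∑ e : Fin j → Fin L, ∑ k ∈ range n,
        if Ins u v (fun i => 2 ^ (e i : ℕ)) k then 0
        else ((∏ i, dy (2 ^ (e i : ℕ)) P) * pc R k) m := by
      rw [rg, if_pos hr, mul_one, hd, ← sum_sub_distrib]
      refine sum_congr rfl fun e _ => ?_
      rw [← sum_sub_distrib]
      refine sum_congr rfl fun k _ => ?_
      split_ifs
      exacts [sub_self _, sub_zero _]
    rw [e1]
    by_cases hz : ∀ (e : Fin j → Fin L) (k : ℕ), ¬ Ins u v (fun i => 2 ^ (e i : ℕ)) k →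
        ((∏ i, dy (2 ^ (e i : ℕ)) P) * pc R k) m = 0
    · rw [sum_eq_zero fun e _ => sum_eq_zero fun k _ => ite_eq_left_iff.2 (hz e k), abs_zero]
      linarith
    · obtain ⟨e, k, h3, h4⟩ : ∃ (e : Fin j → Fin L) (k : ℕ),
          ¬ Ins u v (fun i => 2 ^ (e i : ℕ)) k ∧
            ((∏ i, dy (2 ^ (e i : ℕ)) P) * pc R k) m ≠ 0 := by
        by_contra h3
        exact hz fun e k h4 => by_contra fun h5 => h3 ⟨e, k, h4, h5⟩
      obtain ⟨h5, h6⟩ := hs e k h4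
      have h7 : |∑ e : Fin j → Fin L, ∑ k ∈ range n,
          if Ins u v (fun i => 2 ^ (e i : ℕ)) k then 0
          else ((∏ i, dy (2 ^ (e i : ℕ)) P) * pc R k) m| ≤ (P ^ j * R) m := by
        rw [abs_of_nonneg (sum_nonneg fun e _ => sum_nonneg fun k _ => by
          split_ifs
          exacts [le_rfl, hq e k]), hd]
        refine sum_le_sum fun e _ => sum_le_sum fun k _ => ?_
        split_ifs
        exacts [hq e k, le_rfl]
      refine h7.trans ?_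
      have p1 : (1 : ℝ) ≤ 2 ^ (j + 1) := one_le_pow₀ one_le_two
      have p2 : (2 : ℝ) ^ (j + 2) = 2 * 2 ^ (j + 1) := by ring
      have p3 : (0 : ℝ) < 2 ^ (j + 2) := by positivity
      unfold Ins at h3
      rcases not_and_or.1 h3 with h8 | h8
      · have h9 : rg (u / 2 ^ (j + 2)) (2 ^ (j + 2) * u) m = 1 := by
          refine if_pos ⟨(div_le_self hu.le (by linarith)).trans_lt hr.1, ?_⟩
          have h10 := mul_le_mul_of_nonneg_left (not_le.1 h8).le (zero_le_one.trans p1)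
          rw [p2]
          nlinarith
        rw [h9]
        linarith
      · have h9 : rg (v / 2 ^ (j + 2)) (2 ^ (j + 2) * v) m = 1 := by
          refine if_pos ⟨?_, hr.2.trans (le_mul_of_one_le_left hv.le (by linarith))⟩
          have h10 := mul_le_mul_of_nonneg_left h5.le (zero_le_one.trans p1)
          have h11 : (0 : ℝ) ≤ m := Nat.cast_nonneg _
          rw [div_lt_iff₀ p3, p2]
          nlinarith [not_le.1 h8]
        rw [h9]
        linarith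
  · rw [rg, if_neg hr, mul_zero, sum_eq_zero fun e _ => sum_eq_zero fun k _ =>
      ite_eq_right_iff.2 fun h3 => by_contra fun h4 =>
        hr ⟨h3.1.trans_lt (hs e k h4).1, ((hs e k h4).2.trans_le h3.2).le⟩, sub_zero, abs_zero]
    linarith

end Pool.Agent.MP_c853c5_nt.D2

end

section

set_option autoImplicit false

open Finset Filter

namespace Pool.Agent.MP_c853c5_nt.D2

open Pool.Agent.MP_c853c5_nt.S Pool.Agent.MP_c853c5_nt.D

lemma div_Bnd2 {x κ : ℝ} (hx : 0 ≤ x) (n : ℕ) (hn : n ≠ 0) (h : Rough x κ n) :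
    ∃ k : ℕ, n.divisors.card ≤ 2 ^ k ∧ (x ^ κ) ^ k ≤ n := by
  induction n using induction_on_primes with
  | zero => exact absurd rfl hn
  | one => exact ⟨0, by simp, by simp⟩
  | prime_mul p a hp ih =>
    obtain ⟨k, h1, h2⟩ := ih (right_ne_zero_of_mul hn) (rough_mul.1 h).2
    refine ⟨k + 1, ?_, ?_⟩
    · rw [Nat.divisors_mul, pow_succ']
      refine card_mul_le.trans (Nat.mul_le_mul ?_ h1)
      rw [hp.divisors]
      exact card_le_two
    · rw [pow_succ', Nat.cast_mul]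
      exact mul_le_mul (h p hp (dvd_mul_right p a)).le h2 (by positivity) (Nat.cast_nonneg p)

lemma card_Bnd2 {x κ : ℝ} (hx : 1 < x) (hκ : 0 < κ) {n : ℕ} (hn : n ≠ 0)
    (h2 : (n : ℝ) ≤ x ^ (2 : ℝ)) (h : Rough x κ n) :
    (n.divisors.card : ℝ) ≤ 2 ^ ⌈2 / κ⌉₊ := by
  obtain ⟨k, h3, h4⟩ := div_Bnd2 (by linarith) n hn h
  rw [← Real.rpow_natCast, ← Real.rpow_mul (by linarith)] at h4
  have h5 : κ * k ≤ 2 := (Real.rpow_le_rpow_left_iff hx).1 (h4.trans h2)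
  have h6 : (k : ℝ) ≤ ⌈2 / κ⌉₊ := le_trans (by rw [le_div_iff₀ hκ]; linarith) (Nat.le_ceil _)
  have h7 : k ≤ ⌈2 / κ⌉₊ := by exact_mod_cast h6
  exact_mod_cast h3.trans (Nat.pow_le_pow_right two_pos h7)

lemma prod_Bnd2 {ι : Type} [DecidableEq ι] {x κ : ℝ} (hx : 1 < x) (hκ : 0 < κ) (f : ι → AF)
    (hf : ∀ i n, 0 ≤ f i n ∧ f i n ≤ 1) (s : Finset ι) (n : ℕ) (hn : n ≠ 0)
    (h2 : (n : ℝ) ≤ x ^ (2 : ℝ)) (h : Rough x κ n) :
    (∏ i ∈ s, f i) n ≤ (2 ^ ⌈2 / κ⌉₊) ^ s.card := by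
  induction s using Finset.induction_on generalizing n with
  | empty =>
    rw [prod_empty, ArithmeticFunction.one_apply, card_empty, pow_zero]
    split_ifs <;> norm_num
  | insert a s ha ih =>
    rw [prod_insert ha, card_insert_of_notMem ha, pow_succ', ArithmeticFunction.mul_apply,
      Nat.sum_divisorsAntidiagonal' (fun u v => f a u * (∏ i ∈ s, f i) v)]
    refine (sum_le_card_nsmul _ _ ((2 ^ ⌈2 / κ⌉₊) ^ s.card) fun d hd => ?_).trans ?_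
    · have hd' := Nat.dvd_of_mem_divisors hd
      have h3 := ih d (ne_zero_of_dvd_ne_zero hn hd')
        (le_trans (by exact_mod_cast Nat.divisor_le hd) h2) fun p hp hpd => h p hp (hpd.trans hd')
      exact (mul_le_mul_of_nonneg_left h3 (hf a _).1).trans
        (mul_le_of_le_one_left (by positivity) (hf a _).2)
    · rw [nsmul_eq_mul]
      exact mul_le_mul_of_nonneg_right (card_Bnd2 hx hκ hn h2 h) (by positivity)

lemma rough_prod_Bnd2 {ι : Type} {x κ : ℝ} (s : Finset ι) (m : ι → ℕ)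
    (h : ∀ i ∈ s, Rough x κ (m i)) : Rough x κ (∏ i ∈ s, m i) := fun p hp hd => by
  obtain ⟨i, hi, h1⟩ := (Prime.dvd_finsetProd_iff hp.prime m).1 hd
  exact h i hi p hp h1

theorem d2Bnd : BndStmt := by
  classical
  intro ι _ κ hκ
  refine ⟨(2 ^ ⌈2 / κ⌉₊) ^ Fintype.card ι, by positivity, ?_⟩
  filter_upwards [eventually_ge_atTop (2 : ℝ)] with x hx f hf n hn
  have hx1 : 1 < x := by linarith
  by_cases h0 : (∏ i, f i) n = 0
  · rw [h0]
    exact mul_nonneg (by positivity) (nn_bf x _ n)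
  obtain ⟨m, hm, hm'⟩ := exists_of_prod_ne univ f h0
  have hn0 : n ≠ 0 := by
    rintro rfl
    exact h0 ArithmeticFunction.map_zero
  have hr : Rough x κ n := hm ▸ rough_prod_Bnd2 univ m fun i hi => (hf i _).2.2 (hm' i hi)
  have h2 : (n : ℝ) ≤ x ^ (2 : ℝ) := by
    rw [Real.rpow_two]
    nlinarith
  rw [RR, bf_of_mem ((mem_fr hx1).2 ⟨hn0, h2, hr⟩), mul_one]
  exact prod_Bnd2 hx1 hκ f (fun i n => ⟨(hf i n).1, (hf i n).2.1⟩) univ n hn0 h2 hr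

end Pool.Agent.MP_c853c5_nt.D2

end

section

set_option autoImplicit false

open Finset Filter

namespace Pool.Agent.MP_c853c5_nt.D2

open Pool.Agent.MP_c853c5_nt.S Pool.Agent.MP_c853c5_nt.D

lemma harm_Lam2 {y : ℝ} (hy : 1 ≤ y) :
    |(harmonic ⌊y⌋₊ : ℝ) - Real.log y - Real.eulerMascheroniConstant| ≤ 2 / y := by
  have hn : 1 ≤ ⌊y⌋₊ := Nat.le_floor (by exact_mod_cast hy)
  have h0 : (1 : ℝ) ≤ ⌊y⌋₊ := by exact_mod_cast hn
  have h1 := Real.eulerMascheroniSeq_lt_eulerMascheroniConstant ⌊y⌋₊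
  have h2 := Real.eulerMascheroniConstant_lt_eulerMascheroniSeq' ⌊y⌋₊
  rw [Real.eulerMascheroniSeq] at h1
  rw [Real.eulerMascheroniSeq', if_neg (by omega)] at h2
  have h3 : (⌊y⌋₊ : ℝ) ≤ y := Nat.floor_le (by linarith)
  have h4 : y < ⌊y⌋₊ + 1 := Nat.lt_floor_add_one y
  have h5 := Real.log_le_log (by linarith) h3
  have h6 := Real.log_le_log (by linarith) h4.le
  have h7 : Real.log ((⌊y⌋₊ : ℝ) + 1) - Real.log ⌊y⌋₊ ≤ 2 / y := by
    rw [← Real.log_div (by linarith) (by linarith)]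
    refine (Real.log_le_sub_one_of_pos (by positivity)).trans ?_
    rw [div_sub_one (by linarith), div_le_div_iff₀ (by linarith) (by linarith)]
    linarith
  rw [abs_le]
  constructor <;> linarith

lemma ms_zt_Lam2 (lam : AF) (N : ℕ) :
    ms N (lam * zt) = ∑ d ∈ Icc 1 N, lam d / d * (harmonic (N / d) : ℝ) := by
  have h := ArithmeticFunction.sum_Ioc_mul_eq_sum_sum (pm lam fun n => (n : ℝ)⁻¹)
    (pm zt fun n => (n : ℝ)⁻¹) N
  have e : ∀ M : ℕ, Ioc 0 M = Icc 1 M := fun M => rfl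
  simp only [e] at h
  unfold ms
  convert h using 2 with n hn d hd
  · rw [ArithmeticFunction.mul_apply, ArithmeticFunction.mul_apply, sum_div]
    refine sum_congr rfl fun p hp => ?_
    rw [← (Nat.mem_divisorsAntidiagonal.1 hp).1, pm_apply, pm_apply]
    push_cast
    rw [div_eq_mul_inv, mul_inv]
    ring
  · rw [pm_apply, div_eq_mul_inv, harmonic_eq_sum_Icc]
    push_cast
    congr 1
    refine sum_congr rfl fun m hm => ?_
    have : m ≠ 0 := by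
      have := (mem_Icc.1 hm).1
      omega
    simp [pm_apply, zt, this]

lemma ms_cut_Lam2 {lam : AF} {N : ℕ} (h : ∀ d, lam d ≠ 0 → d ≤ N) {y : ℝ} (hy : (N : ℝ) ≤ y) :
    ms ⌊y⌋₊ (lam * zt) = ∑ d ∈ Icc 1 N, lam d / d * (harmonic ⌊y / d⌋₊ : ℝ) := by
  rw [ms_zt_Lam2]
  simp only [Nat.floor_div_natCast]
  refine (sum_subset (Icc_subset_Icc_right (Nat.le_floor hy)) fun d hd hn => ?_).symm
  have : lam d = 0 := by
    by_contra c
    exact hn (mem_Icc.2 ⟨(mem_Icc.1 hd).1, h d c⟩)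
  rw [this, zero_div, zero_mul]

lemma diff_Lam2 {lam : AF} {N : ℕ} (h1 : ∀ d, |lam d| ≤ 1) (h : ∀ d, lam d ≠ 0 → d ≤ N)
    {A B : ℝ} (h0 : 0 < A) (hA : (N : ℝ) ≤ A) (hB : A ≤ B) :
    ms ⌊B⌋₊ (lam * zt) - ms ⌊A⌋₊ (lam * zt) ≤ Real.log (B / A) * ms N lam + 4 * N / A := by
  rw [ms_cut_Lam2 h hA, ms_cut_Lam2 h (hA.trans hB), ← sum_sub_distrib, ms, mul_sum]
  have e : 4 * (N : ℝ) / A = ∑ _d ∈ Icc 1 N, 4 / A := by
    rw [sum_const, Nat.card_Icc, nsmul_eq_mul, Nat.add_sub_cancel]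
    ring
  rw [e, ← sum_add_distrib]
  refine sum_le_sum fun d hd => ?_
  obtain ⟨d1, d2⟩ := mem_Icc.1 hd
  have d3 : (0 : ℝ) < d := by exact_mod_cast d1
  have d4 : (d : ℝ) ≤ A := le_trans (by exact_mod_cast d2) hA
  have k1 := harm_Lam2 ((one_le_div d3).2 d4)
  have k2 := harm_Lam2 ((one_le_div d3).2 (d4.trans hB))
  have hB0 : 0 < B := h0.trans_le hB
  rw [Real.log_div h0.ne' d3.ne', div_div_eq_mul_div] at k1
  rw [Real.log_div hB0.ne' d3.ne', div_div_eq_mul_div] at k2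
  have k3 : 2 * (d : ℝ) / B ≤ 2 * d / A := div_le_div_of_nonneg_left (by positivity) h0 hB
  have k4 : |(harmonic ⌊B / d⌋₊ : ℝ) - harmonic ⌊A / d⌋₊ - Real.log (B / A)| ≤ 4 * d / A := by
    rw [Real.log_div hB0.ne' h0.ne']
    rw [abs_le] at k1 k2 ⊢
    have : 4 * (d : ℝ) / A = 2 * d / A + 2 * d / A := by ring
    constructor <;> linarith [k1.1, k1.2, k2.1, k2.2]
  have k5 : |lam d / d * ((harmonic ⌊B / d⌋₊ : ℝ) - harmonic ⌊A / d⌋₊ - Real.log (B / A))| ≤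
      4 / A := by
    rw [abs_mul, abs_div, abs_of_pos d3]
    calc _ ≤ 1 / (d : ℝ) * (4 * d / A) :=
          mul_le_mul (div_le_div_of_nonneg_right (h1 d) d3.le) k4 (abs_nonneg _) (by positivity)
      _ = 4 / A := by field_simp
  linarith [le_abs_self
    (lam d / d * ((harmonic ⌊B / d⌋₊ : ℝ) - harmonic ⌊A / d⌋₊ - Real.log (B / A)))]

lemma layer_Lam2 {R F : AF} (hR : Nn R) (h : Le R F) {A B : ℝ} (h0 : 0 ≤ A) (hB : A ≤ B)
    (X : ℕ) : ms X (pm R (rg A B)) ≤ ms ⌊B⌋₊ F - ms ⌊A⌋₊ F := by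
  have e : ∀ M : ℕ, Icc 1 M = Ioc 0 M := fun M => rfl
  have h1 := sum_Ioc_consecutive (fun m : ℕ => F m / m) (Nat.zero_le ⌊A⌋₊) (Nat.floor_le_floor hB)
  unfold ms
  rw [e ⌊B⌋₊, e ⌊A⌋₊, ← h1, add_sub_cancel_left]
  calc ∑ m ∈ Icc 1 X, pm R (rg A B) m / m
      ≤ ∑ m ∈ Icc 1 X, if m ∈ Ioc ⌊A⌋₊ ⌊B⌋₊ then F m / m else 0 := by
        refine sum_le_sum fun m _ => ?_
        rw [pm_apply, rg]
        by_cases c : A < m ∧ (m : ℝ) ≤ B
        · rw [if_pos c, if_pos (mem_Ioc.2 ⟨(Nat.floor_lt h0).2 c.1, Nat.le_floor c.2⟩), mul_one]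
          exact div_le_div_of_nonneg_right (h m) (Nat.cast_nonneg m)
        · rw [if_neg c, mul_zero, zero_div]
          split_ifs
          · exact div_nonneg ((hR m).trans (h m)) (Nat.cast_nonneg m)
          · exact le_rfl
    _ ≤ _ := by
        rw [← sum_filter]
        exact sum_le_sum_of_subset_of_nonneg (fun m hm => (mem_filter.1 hm).2)
          fun m _ _ => div_nonneg ((hR m).trans (h m)) (Nat.cast_nonneg m)

theorem d2Lam : LamStmt := by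
  intro hF κ c C ε hκ hc hC hε
  obtain ⟨k, hk⟩ : ∃ k : ℝ, k = min κ (1 / 20000) := ⟨_, rfl⟩
  have k0 : 0 < k := hk ▸ lt_min hκ (by norm_num)
  have k1 : k ≤ κ := hk ▸ min_le_left _ _
  have k2 : k ≤ 1 / 20000 := hk ▸ min_le_right _ _
  have hL : 0 ≤ Real.log (C ^ 2) := Real.log_nonneg (one_le_pow₀ hC)
  have t1 : ∀ᶠ x : ℝ in atTop, Real.log (C ^ 2) * 8 / (k * ε) ≤ Real.log x :=
    Real.tendsto_log_atTop.eventually_ge_atTop _
  have t2 : ∀ᶠ x : ℝ in atTop, max (16 * C / ε) (2 * C) ≤ x ^ (1 / 200 : ℝ) :=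
    (tendsto_rpow_atTop (by norm_num)).eventually_ge_atTop _
  filter_upwards [hF k 13 k0 le_rfl, t1, t2, eventually_gt_atTop 1] with x ⟨lam, e, H⟩ h1 h2 hx
  have hx0 : 0 < x := by linarith
  have hC0 : 0 < C := by linarith
  obtain ⟨u, hu⟩ : ∃ u : ℝ, u = x ^ (1 / 200 : ℝ) := ⟨_, rfl⟩
  rw [← hu] at h2
  have u1 : 1 ≤ u := hu ▸ Real.one_le_rpow hx.le (by norm_num)
  have u2 : u * u ≤ x ^ c := by
    rw [hu, ← Real.rpow_add hx0]
    exact Real.rpow_le_rpow_of_exponent_le hx.le (by linarith)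
  have hxc : 0 < x ^ c := Real.rpow_pos_of_pos hx0 c
  obtain ⟨N, hN⟩ : ∃ N : ℕ, N = ⌈x ^ (k * (4 * (13 : ℕ) + 6))⌉₊ := ⟨_, rfl⟩
  have n1 : x ^ (k * (4 * (13 : ℕ) + 6)) ≤ N := hN ▸ Nat.le_ceil _
  have n2 : (N : ℝ) ≤ 2 * u := by
    have a1 : x ^ (k * (4 * (13 : ℕ) + 6)) ≤ u := by
      rw [hu]
      refine Real.rpow_le_rpow_of_exponent_le hx.le ?_
      push_cast
      linarith
    have a2 := Nat.ceil_lt_add_one (Real.rpow_pos_of_pos hx0 (k * (4 * (13 : ℕ) + 6))).le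
    rw [← hN] at a2
    linarith
  have hA0 : 0 < x ^ c / C := div_pos hxc hC0
  have n3 : (N : ℝ) ≤ x ^ c / C := by
    rw [le_div_iff₀ hC0]
    have := (le_max_right _ _).trans h2
    nlinarith
  have hAB : x ^ c / C ≤ C * x ^ c :=
    (div_le_self hxc.le hC).trans (le_mul_of_one_le_left hxc.le hC)
  have hR : Le (RR x κ) (lam * zt) := fun n =>
    (le_bf (B := fr κ) (C := fr k) (fun m hm =>
      ⟨hm.1, hm.2.1, hm.2.2.1, hm.2.2.2.1.anti hx.le k1, fun _ h => by simp [fr] at h⟩) n).trans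
      (H.maj n)
  refine (layer_Lam2 (nn_RR x κ) hR hA0.le hAB _).trans
    ((diff_Lam2 H.b1 (fun d hd => ?_) hA0 n3 hAB).trans ?_)
  · exact_mod_cast (H.s1 d hd).trans n1
  · have e1 : C * x ^ c / (x ^ c / C) = C ^ 2 := by field_simp
    have hl : 0 < Real.log x := Real.log_pos hx
    have b1 : Real.log (C ^ 2) * ms N lam ≤ ε / 2 := by
      refine (mul_le_mul_of_nonneg_left (H.m1 N n1) hL).trans ?_
      rw [div_le_iff₀ (by positivity)] at h1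
      rw [← mul_div_assoc, div_le_iff₀ (by positivity)]
      linarith
    have b2 : 4 * (N : ℝ) / (x ^ c / C) ≤ ε / 2 := by
      have a1 := (le_max_left _ _).trans h2
      rw [div_le_iff₀ hε] at a1
      rw [div_div_eq_mul_div, div_le_iff₀ hxc]
      have a2 : 4 * (N : ℝ) * C ≤ 4 * (2 * u) * C :=
        mul_le_mul_of_nonneg_right (by linarith) hC0.le
      have a3 : ε / 2 * (u * u) ≤ ε / 2 * x ^ c := mul_le_mul_of_nonneg_left u2 (by linarith)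
      nlinarith
    rw [e1]
    linarith

end Pool.Agent.MP_c853c5_nt.D2

end

section

/-!
A layer is negligible for every width.
-/

set_option autoImplicit false

open Finset Filter

namespace Pool.Agent.MP_c853c5_nt.D2

open Pool.Agent.MP_c853c5_nt.S Pool.Agent.MP_c853c5_nt.D

lemma half_Lay2 (hL : LamStmt) (hF : FWStmt) {κ c C s ε : ℝ} (hκ : 0 < κ) (hc : 1 / 100 ≤ c)
    (hc2 : c ≤ 1 / 2) (hC : 1 ≤ C) (hs : 0 < s) (hs2 : s < 1 / 2) (hε : 0 < ε) :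
    ∀ᶠ x : ℝ in atTop, SS x (x ^ (-s)) (RR x κ * pm (RR x κ) (rg (x ^ c / C) (C * x ^ c))) ≤
      ε * (x / Real.log x) := by
  obtain ⟨C0, h0, hZ⟩ := dSZ
  obtain ⟨d, hd⟩ : ∃ d, d = 1 / 2 - s := ⟨_, rfl⟩
  have d0 : 0 < d := by linarith
  obtain ⟨k, k0, k1, k2⟩ : ∃ k, 0 < k ∧ k ≤ κ ∧ k ≤ d / 200 :=
    ⟨min κ (d / 200), by positivity, min_le_left _ _, min_le_right _ _⟩
  filter_upwards [hF k 13 k0 le_rfl, hL hF κ c C (ε * k / 16) hκ hc hC (by positivity),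
    small_Sum (d / 4) (ε / 2) (by positivity) (by positivity), eventually_gt_atTop (1 : ℝ),
    E.ev_const_le C (γ := d / 4) (by positivity),
    E.ev_const_le (C0 * C) (γ := d / 4) (by positivity)] with x ⟨lam, e, hW⟩ h1 h2 hx h3 h4
  have x0 : 0 < x := by linarith
  have l0 := Real.log_pos hx
  set Y := pm (RR x κ) (rg (x ^ c / C) (C * x ^ c)) with hY
  have n1 : Nn Y := nn_pm (nn_RR x κ) (rg_nn _ _)
  have n2 : ∀ n, |Y n| ≤ 1 := fun n =>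
    (abs_of_nonneg (n1 n)).trans_le ((pm_le (nn_RR x κ) (rg_le _ _) n).trans (bf_le_one _ _ n))
  have n3 : ∀ n, Y n ≠ 0 → (n : ℝ) ≤ C * x ^ (1 / 2 : ℝ) := fun n hn => by
    have h5 : rg (x ^ c / C) (C * x ^ c) n ≠ 0 := right_ne_zero_of_mul hn
    have h6 : (n : ℝ) ≤ C * x ^ c := by_contra fun h => h5 (if_neg fun h' => h h'.2)
    exact h6.trans (mul_le_mul_of_nonneg_left (Real.rpow_le_rpow_of_exponent_le hx.le hc2)
      (by linarith))
  have b1 : x ^ (1 / 2 : ℝ) * x ^ (k * (4 * (13 : ℕ) + 6)) ≤ x ^ (1 / 2 + d / 2) := by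
    rw [← Real.rpow_add x0]
    refine Real.rpow_le_rpow_of_exponent_le hx.le ?_
    push_cast
    linarith
  have b2 : C * x ^ (1 / 2 : ℝ) * x ^ (k * (4 * (13 : ℕ) + 6)) ≤ ⌊2 * x⌋₊ := by
    rw [mul_assoc]
    refine (mul_le_mul h3 b1 (by positivity) (by positivity)).trans ?_
    rw [← Real.rpow_add x0]
    refine (Real.rpow_le_self_of_one_le hx.le (by linarith)).trans ?_
    linarith [Nat.lt_floor_add_one (2 * x)]
  have b3 : 1 ≤ C * x ^ (1 / 2 : ℝ) :=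
    one_le_mul_of_one_le_of_one_le hC (Real.one_le_rpow hx.le (by norm_num))
  have b4 : 1 ≤ x ^ (k * (4 * (13 : ℕ) + 6)) := Real.one_le_rpow hx.le (by positivity)
  obtain ⟨m1, m2⟩ := long_T1R (ι := Unit) (g := fun _ => Y) (A := fun _ => C * x ^ (1 / 2 : ℝ))
    (fun _ => b3) b4 (fun _ => n1) (fun _ => n2) (fun _ => n3) hW.b1 hW.s1
    (by rwa [Fintype.prod_unique])
    (hW.m1 _ ((le_mul_of_one_le_left (by positivity) b3).trans b2))
  simp only [Fintype.prod_unique] at m1 m2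
  obtain ⟨a, a0, a2, ha⟩ := hZ x (x ^ (-s)) hx.le (by positivity)
    (Real.rpow_le_one_of_one_le_of_nonpos hx.le (by linarith))
  have r1 : Le (RR x κ) (lam * zt) := Le.trans (g := RR x k)
    (le_bf fun m h => ⟨h.1, h.2.1, h.2.2.1, h.2.2.2.1.anti hx.le k1, h.2.2.2.2⟩) hW.maj
  have r2 : SS x (x ^ (-s)) (RR x κ * Y) ≤ SS x (x ^ (-s)) (Y * lam * zt) := by
    rw [mul_assoc, mul_comm Y]
    exact SS_mono (by positivity) fun n _ => Le.mul_right n1 r1 n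
  have r3 := (abs_le.1 (ha (Y * lam))).2
  have r4 : a * x * ms ⌊2 * x⌋₊ (Y * lam) ≤ ε / 2 * (x / Real.log x) := by
    have q1 := m1.trans (mul_le_mul_of_nonneg_right h1 (by positivity))
    refine (mul_le_mul_of_nonneg_left q1 (by positivity)).trans
      ((mul_le_mul_of_nonneg_right (mul_le_mul_of_nonneg_right a2 x0.le) (by positivity)).trans
        (le_of_eq ?_))
    field_simp
    ring
  have r5 : C0 / x ^ (-s) * ∑ m ∈ Icc 1 ⌊2 * x⌋₊, |(Y * lam) m| ≤ x ^ (1 - d / 4) := by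
    refine (mul_le_mul_of_nonneg_left m2 (by positivity)).trans ?_
    have q1 := mul_le_mul h4 (mul_le_mul_of_nonneg_left b1 (by positivity : 0 ≤ x ^ s))
      (by positivity) (by positivity)
    rw [← Real.rpow_add x0 s, ← Real.rpow_add x0 (d / 4),
      show d / 4 + (s + (1 / 2 + d / 2)) = 1 - d / 4 by linarith] at q1
    rw [Real.rpow_neg x0.le, div_inv_eq_mul]
    exact le_trans (le_of_eq (by ring)) q1
  linarith

lemma swap_Lay2 {R : AF} (hR : Nn R) {u v u' v' : ℝ} {n : ℕ}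
    (h : ∀ a b : ℕ, a * b = n → u < b → (b : ℝ) ≤ v → u' < a ∧ (a : ℝ) ≤ v') :
    (R * pm R (rg u v)) n ≤ (R * pm R (rg u' v')) n := by
  rw [mul_comm R (pm R (rg u' v')), ArithmeticFunction.mul_apply, ArithmeticFunction.mul_apply]
  refine sum_le_sum fun p hp => ?_
  have h1 : rg u v p.2 ≤ rg u' v' p.1 := by
    by_cases k : u < p.2 ∧ (p.2 : ℝ) ≤ v
    · exact (rg_le _ _ _).trans_eq
        (if_pos (h _ _ (Nat.mem_divisorsAntidiagonal.1 hp).1 k.1 k.2)).symm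
    · exact (if_neg k).trans_le (rg_nn _ _ _)
  rw [pm_apply, pm_apply, ← mul_assoc, mul_right_comm (R p.1) _ (R p.2)]
  exact mul_le_mul_of_nonneg_left h1 (mul_nonneg (hR _) (hR _))

theorem d2Lay : LayStmt := by
  intro hL hF κ c C s ε hκ hc hc2 hC hs hs2 hε
  rcases le_total c (1 / 2) with h | h
  · exact half_Lay2 hL hF hκ hc h hC hs hs2 hε
  filter_upwards [half_Lay2 hL hF (c := 1 - c) (C := 2 * C) hκ (by linarith) (by linarith)
    (by linarith) hs hs2 hε, eventually_gt_atTop (0 : ℝ)] with x h1 x0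
  refine le_trans (SS_mono (by positivity) fun n hn => swap_Lay2 (nn_RR x κ) ?_) h1
  rintro a b rfl h2 h3
  have e : x ^ (1 - c) * x ^ c = x := by rw [← Real.rpow_add x0, sub_add_cancel, Real.rpow_one]
  have p1 : 0 < x ^ c := by positivity
  have p2 : 0 < x ^ (1 - c) := by positivity
  have p3 : (0 : ℝ) ≤ a := Nat.cast_nonneg a
  obtain ⟨w1, w2⟩ := hn
  rw [Nat.cast_mul] at w1 w2
  rw [div_lt_iff₀ (by linarith)] at h2 ⊢
  constructor
  · refine lt_of_mul_lt_mul_right (a := x ^ c) ?_ p1.le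
    nlinarith [mul_le_mul_of_nonneg_left h3 p3]
  · refine le_of_mul_le_mul_right (a := x ^ c) ?_ p1
    nlinarith [mul_le_mul_of_nonneg_left h2.le p3,
      mul_le_mul_of_nonneg_left w2 (by linarith : 0 ≤ C)]

end Pool.Agent.MP_c853c5_nt.D2

end

section

set_option autoImplicit false

namespace Pool.Agent.MP_c853c5_nt.D2

open Pool.Agent.MP_c853c5_nt.S

theorem leafS2 (h1 : E1D) (h2 : E2D) (h12 : E12D) : LeafS2 :=
  d2Fin d2FW d2Om d2Tm d2Ta d2Tb d2Box d2Nom d2One d2Err d2ESum d2Exp d2In d2Cut d2Bnd d2Lam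
    d2Lay d2Row d2Sum h1 h2 h12

end Pool.Agent.MP_c853c5_nt.D2

end

section

/-!
Leaves with two sieved factors.
-/

set_option autoImplicit false

open Finset Filter

namespace Pool.Agent.MP_c853c5_nt.Y

open Pool.Agent.MP_c853c5_nt.S Pool.Agent.MP_c853c5_nt.D Pool.Agent.MP_c853c5_nt.D2

def TaG (Y : Sys) : Prop := E1G Y → ∀ (ι : Type) [Fintype ι] (τ t η : ℝ) (K : ℕ), 1 / 3 ≤ t → t < τ →
  τ ≤ 1 / 2 → 0 < η → η ≤ 1 / 1000 → ∃ γ : ℝ, 0 < γ ∧ ∀ᶠ x : ℝ in atTop,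
    ∀ (a : ι → ℝ) (b : ℝ) (N : ι → ℕ) (g : ι → AF) (lam : AF) (y : ℝ),
      (∀ i, 0 ≤ a i ∧ a i ≤ 1) → b ≤ 1 → Y.q1 τ η K a b → (∀ i, Slot (N i) (g i)) →
      (∀ i, (N i : ℝ) ≤ x ^ (a i + γ)) → x ^ (b - γ) ≤ y → y ≤ x ^ (b + γ) →
      (∏ i, (N i : ℝ)) * y ≤ 2 * x → (∀ d, |lam d| ≤ 1) →
      (∀ d, lam d ≠ 0 → (d : ℝ) ≤ x ^ lev τ t η) →
      |Dl t x ((∏ i, g i) * pm (lam * zt) (oy y))| ≤ x ^ (1 - η / 10)

def TbG (Y : Sys) : Prop := E12G Y → ∀ (ι : Type) [Fintype ι] (τ t η : ℝ) (K : ℕ), 1 / 3 ≤ t → t < τ →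
  τ ≤ 1 / 2 → 0 < η → η ≤ 1 / 1000 → ∃ γ : ℝ, 0 < γ ∧ ∀ᶠ x : ℝ in atTop,
    ∀ (a : ι → ℝ) (b1 b2 : ℝ) (N : ι → ℕ) (g : ι → AF) (l1 l2 : AF) (y1 y2 : ℝ),
      (∀ i, 0 ≤ a i ∧ a i ≤ 1) → b1 ≤ 1 → b2 ≤ 1 → Y.q12 τ η K a b1 b2 →
      (∀ i, Slot (N i) (g i)) → (∀ i, (N i : ℝ) ≤ x ^ (a i + γ)) →
      x ^ (b1 - γ) ≤ y1 → y1 ≤ x ^ (b1 + γ) → x ^ (b2 - γ) ≤ y2 → y2 ≤ x ^ (b2 + γ) →
      (∏ i, (N i : ℝ)) * y1 * y2 ≤ 2 * x → (∀ d, |l1 d| ≤ 1) → (∀ d, |l2 d| ≤ 1) →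
      (∀ d, l1 d ≠ 0 → (d : ℝ) ≤ x ^ lev τ t η) → (∀ d, l2 d ≠ 0 → (d : ℝ) ≤ x ^ lev τ t η) →
      |Dl t x ((∏ i, g i) * pm (l1 * zt) (oy y1) * pm (l2 * zt) (oy y2))| ≤ x ^ (1 - η / 10)

def BoxG (Y : Sys) : Prop := TaG Y → TbG Y → E1G Y → E2G Y → E12G Y → ∀ (ι : Type) [Fintype ι]
  (τ t η η' κ : ℝ) (K w A : ℕ), 1 / 3 ≤ t → t < τ → τ ≤ 1 / 2 → 0 < η → η ≤ 1 / 1000 →
  0 < η' → 0 < κ → κ * (4 * w + 6) ≤ lev τ t η → ∃ γ : ℝ, 0 < γ ∧ ∀ᶠ x : ℝ in atTop,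
    ∀ lam e : AF, FW x κ w lam e → ∀ (pr : ι → Prop) (c : ι → ℝ) (b1 b2 : ℝ) (N : ι → ℕ)
      (g : ι → AF) (k1 k2 : ℕ), (∀ i, 0 ≤ c i) → 0 ≤ b1 → 0 ≤ b2 → ∑ i, c i + b1 + b2 = 1 →
      Alt4G Y τ η η' K pr c b1 b2 → (∀ i, Slot (N i) (g i)) → (∀ i n, 0 ≤ g i n) → Near x γ c N →
      (∀ i, pr i → ∃ P Q : ℕ, g i = prI P Q) →
      x ^ (b1 - γ) ≤ yk_T1 k1 → yk_T1 k1 ≤ x ^ (b1 + γ) →
      x ^ (b2 - γ) ≤ yk_T1 k2 → yk_T1 k2 ≤ x ^ (b2 + γ) →
      (∏ i, (N i : ℝ)) * ⌈yk_T1 k1⌉₊ * ⌈yk_T1 k2⌉₊ ≤ 2 * x →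
      |Dl t x ((∏ i, g i) * pc (RR x κ) k1 * pc (RR x κ) k2)| ≤ x / Real.log x ^ A +
        2 * er x κ lam e (∏ i, g i) k1 k2 + 2 * er x κ lam e (∏ i, g i) k2 k1

def Alt2G (Y : Sys) {r : ℕ} (τ η η' κ z1 z2 lo hi : ℝ) (K : ℕ) (B : Fin r → Blk) : Prop :=
  ∀ (j1 j2 : ℕ) (a : Fin r → ℝ) (q1 : Fin j1 → ℝ) (q2 : Fin j2 → ℝ) (b1 b2 : ℝ), InBox B a →
    (∀ i, κ ≤ q1 i ∧ q1 i ≤ z1) → (∀ i, κ ≤ q2 i ∧ q2 i ≤ z2) → 0 ≤ b1 → 0 ≤ b2 →
    ∑ i, a i + (∑ i, q1 i + ∑ i, q2 i) + b1 + b2 = 1 →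
    lo ≤ ∑ i, q2 i + b2 → ∑ i, q2 i + b2 ≤ hi →
    Alt4G Y τ η η' K (Sum.elim (fun i => (B i).IsP) fun _ : Fin j1 ⊕ Fin j2 => True)
      (Sum.elim a (Sum.elim q1 q2)) b1 b2

def One2G (Y : Sys) : Prop := BoxG Y → NomStmt2 → TaG Y → TbG Y → E1G Y → E2G Y → E12G Y →
  ∀ (τ t η η' κ z1 z2 lo hi : ℝ) (K w r : ℕ) (B : Fin r → Blk), 1 / 3 ≤ t → t < τ →
    τ ≤ 1 / 2 → 0 < η → η ≤ 1 / 1000 → 0 < η' → 0 < κ → κ * (4 * w + 6) ≤ lev τ t η →
    Alt2G Y τ η η' κ z1 z2 lo hi K B → ∀ j1 j2, OneOK2 t κ z1 z2 lo hi w B j1 j2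

variable {Y : Sys}

theorem yTa (hY : Y.Sd) : TaG Y := by
  intro hE ι _ τ t η K ht htτ hτ hη hη'
  obtain ⟨γ₀, h0, hE⟩ := hE ι τ t η K ht htτ hτ hη hη'
  refine ⟨min γ₀ ((τ - t) / 4), lt_min h0 (by linarith), ?_⟩
  have g1 := min_le_left γ₀ ((τ - t) / 4)
  have g2 := min_le_right γ₀ ((τ - t) / 4)
  generalize min γ₀ ((τ - t) / 4) = γ at g1 g2
  filter_upwards [hE, eventually_ge_atTop 1] with x hE x1
  intro a b N g lam y ha hb h1 hS hN y1 y2 hP hl hd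
  have x0 : 0 < x := by linarith
  have e : (∏ i, g i) * pm (lam * zt) (oy y) =
      ∑ d ∈ Icc 1 ⌊x ^ lev τ t η⌋₊, lam d • (sgl d * (∏ i, g i) * omz (y / d)) := by
    rw [pm_exp_Ta2 fun d h => Nat.le_floor (hd d h), mul_sum]
    refine sum_congr rfl fun d _ => ?_
    rw [mul_smul_comm, mul_left_comm, mul_assoc]
  rw [e, Dl_sum]
  calc _ ≤ ∑ d ∈ Icc 1 ⌊x ^ lev τ t η⌋₊, x ^ (1 - η / 5) := by
        refine (abs_sum_le_sum_abs _ _).trans (sum_le_sum fun d hd' => ?_)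
        obtain ⟨q1, q2, q3⟩ := range_Ta2 x1 ht hτ (hY.big1 h1) g1 g2 y1 y2 hd'
        have d1 := (mem_Icc.1 hd').1
        have d0 : (d : ℝ) ≠ 0 := by positivity
        rw [Dl_smul, abs_mul]
        refine (mul_le_of_le_one_left (abs_nonneg _) (hl d)).trans
          (hE a b N g d _ ha hb h1 hS (fun i => (hN i).trans
            (Real.rpow_le_rpow_of_exponent_le x1 (by linarith))) q1 q2 q3 d1 (le_of_eq_of_le ?_ hP))
        field_simp
    _ = (⌊x ^ lev τ t η⌋₊ : ℝ) * x ^ (1 - η / 5) := by simp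
    _ ≤ x ^ (η / 20) * x ^ (1 - η / 5) := by gcongr; exact cnt_Ta2 x1 τ t η
    _ ≤ _ := by
        rw [← Real.rpow_add x0]
        exact Real.rpow_le_rpow_of_exponent_le x1 (by linarith)

theorem yTb (hY : Y.Sd) : TbG Y := by
  intro hE ι _ τ t η K ht htτ hτ hη hη'
  obtain ⟨γ₀, h0, hE⟩ := hE ι τ t η K ht htτ hτ hη hη'
  refine ⟨min γ₀ ((τ - t) / 4), lt_min h0 (by linarith), ?_⟩
  have g1 := min_le_left γ₀ ((τ - t) / 4)
  have g2 := min_le_right γ₀ ((τ - t) / 4)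
  generalize min γ₀ ((τ - t) / 4) = γ at g1 g2
  filter_upwards [hE, eventually_ge_atTop 1] with x hE x1
  intro a b1 b2 N g l1 l2 y1 y2 ha hb1 hb2 h1 hS hN u1 u2 v1 v2 hP hl1 hl2 hd1 hd2
  have x0 : 0 < x := by linarith
  have e : (∏ i, g i) * pm (l1 * zt) (oy y1) * pm (l2 * zt) (oy y2) =
      ∑ d ∈ Icc 1 ⌊x ^ lev τ t η⌋₊, ∑ d' ∈ Icc 1 ⌊x ^ lev τ t η⌋₊,
        (l1 d * l2 d') • (sgl (d * d') * (∏ i, g i) * omz (y1 / d) * omz (y2 / d')) := by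
    rw [pm_exp_Ta2 fun d h => Nat.le_floor (hd1 d h), pm_exp_Ta2 fun d h => Nat.le_floor (hd2 d h),
      mul_assoc, sum_mul_sum, mul_sum]
    refine sum_congr rfl fun d hd => ?_
    rw [mul_sum]
    refine sum_congr rfl fun d' _ => ?_
    rw [smul_mul_smul_comm, mul_smul_comm,
      ← sgl_mul_Ta2 (Nat.one_le_iff_ne_zero.1 (mem_Icc.1 hd).1)]
    congr 1
    ring
  rw [e, Dl_sum]
  calc _ ≤ ∑ d ∈ Icc 1 ⌊x ^ lev τ t η⌋₊, ∑ d' ∈ Icc 1 ⌊x ^ lev τ t η⌋₊, x ^ (1 - η / 5) := by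
        refine (abs_sum_le_sum_abs _ _).trans (sum_le_sum fun d hd => ?_)
        rw [Dl_sum]
        refine (abs_sum_le_sum_abs _ _).trans (sum_le_sum fun d' hd' => ?_)
        obtain ⟨q1, q2, q3⟩ := range_Ta2 x1 ht hτ (hY.big12 h1).1 g1 g2 u1 u2 hd
        obtain ⟨r1, r2, r3⟩ := range_Ta2 x1 ht hτ (hY.big12 h1).2 g1 g2 v1 v2 hd'
        have d1 := (mem_Icc.1 hd).1
        have d2 := (mem_Icc.1 hd').1
        have d0 : (d : ℝ) ≠ 0 := by positivity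
        have d0' : (d' : ℝ) ≠ 0 := by positivity
        rw [Dl_smul, abs_mul, abs_mul]
        refine (mul_le_of_le_one_left (abs_nonneg _)
          (mul_le_one₀ (hl1 d) (abs_nonneg _) (hl2 d'))).trans
          (hE a b1 b2 N g (d * d') _ _ ha hb1 hb2 h1 hS (fun i => (hN i).trans
            (Real.rpow_le_rpow_of_exponent_le x1 (by linarith))) q1 q2 r1 r2 q3 r3
            (Nat.mul_pos d1 d2) (le_of_eq_of_le ?_ hP))
        push_cast
        field_simp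
    _ = (⌊x ^ lev τ t η⌋₊ : ℝ) * (⌊x ^ lev τ t η⌋₊ * x ^ (1 - η / 5)) := by simp
    _ ≤ x ^ (η / 20) * (x ^ (η / 20) * x ^ (1 - η / 5)) := by
        gcongr <;> exact cnt_Ta2 x1 τ t η
    _ = _ := by
        rw [← Real.rpow_add x0, ← Real.rpow_add x0]
        congr 1
        ring

theorem yBox (hY : Y.Sd) : BoxG Y := by
  intro hTa hTb hE1 hE2 hE12 ι _ τ t η η' κ K w A ht htτ hτ hη hη1 hη' hκ hlev
  obtain ⟨γ2, hγ2, h2⟩ := hE2 (Option (Option ι)) τ t η' K A ht htτ hτ hη'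
  obtain ⟨γa, hγa, ha⟩ := hTa hE1 (Option ι) τ t η K ht htτ hτ hη hη1
  obtain ⟨γb, hγb, hb⟩ := hTb hE12 ι τ t η K ht htτ hτ hη hη1
  obtain ⟨γ, hγ, g2, ga, gb, g1⟩ : ∃ γ : ℝ, 0 < γ ∧ 2 * γ ≤ γ2 ∧ 2 * γ ≤ γa ∧ 2 * γ ≤ γb ∧
      γ ≤ 1 / 100 := by
    refine ⟨min (min γ2 γa) (min γb (1 / 50)) / 2, by positivity, ?_, ?_, ?_, ?_⟩
    · linarith [min_le_left (min γ2 γa) (min γb (1 / 50)), min_le_left γ2 γa]
    · linarith [min_le_left (min γ2 γa) (min γb (1 / 50)), min_le_right γ2 γa]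
    · linarith [min_le_right (min γ2 γa) (min γb (1 / 50)), min_le_left γb (1 / 50)]
    · linarith [min_le_right (min γ2 γa) (min γb (1 / 50)), min_le_right γb (1 / 50)]
  refine ⟨γ, hγ, ?_⟩
  filter_upwards [h2, ha, hb, log_One (η / 20) (by positivity) A, eventually_ge_atTop 1,
    (tendsto_rpow_atTop hγ).eventually_ge_atTop 3,
    (tendsto_rpow_atTop (show (0 : ℝ) < 1 / 25 by norm_num)).eventually_ge_atTop 2,
    (tendsto_rpow_atTop (show 0 < η / 20 by positivity)).eventually_ge_atTop 3]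
    with x h2 ha hb hlog x1 xγ x25 xη
  intro lam e hF pr c b1 b2 N g k1 k2 hc hb1 hb2 hsum hAlt hsl hg0 hN hpr y1 y1' y2 y2' hprod
  have x0 : 0 < x := by linarith
  have hs0 : 0 ≤ ∑ i, c i := sum_nonneg fun i _ => hc i
  have hc1 : ∀ i, 0 ≤ c i ∧ c i ≤ 1 := fun i =>
    ⟨hc i, by linarith [single_le_sum (f := c) (fun j _ => hc j) (mem_univ i)]⟩
  have b11 : b1 ≤ 1 := by linarith
  have b21 : b2 ≤ 1 := by linarith
  have hH : Nn (∏ i, g i) := Nn.prod fun i _ => hg0 i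
  have e12 := hF.er_nn x0.le hH k1 k2
  have e21 := hF.er_nn x0.le hH k2 k1
  have hp0 : 0 ≤ ∏ i, (N i : ℝ) := prod_nonneg fun i _ => Nat.cast_nonneg _
  have h3 : 3 * x ^ (1 - η / 10) ≤ x / Real.log x ^ A := by
    refine le_trans ?_ hlog
    rw [show 1 - η / 20 = η / 20 + (1 - η / 10) by ring, Real.rpow_add x0]
    exact mul_le_mul_of_nonneg_right xη (by positivity)
  have h4 : 0 ≤ x ^ (1 - η / 10) := by positivity
  have sl : ∀ d, lam d ≠ 0 → (d : ℝ) ≤ x ^ lev τ t η := fun d hd =>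
    (hF.s1 d hd).trans (Real.rpow_le_rpow_of_exponent_le x1 hlev)
  have se : ∀ d, e d ≠ 0 → (d : ℝ) ≤ x ^ lev τ t η := fun d hd =>
    (hF.s2 d hd).trans (Real.rpow_le_rpow_of_exponent_le x1 hlev)
  have big : ∀ {b : ℝ} {k : ℕ}, 1 / 10 ≤ b → x ^ (b - γ) ≤ yk_T1 k →
      2 * x ^ (1 / 20 : ℝ) ≤ yk_T1 k := fun {b k} h5 h6 => by
    refine le_trans ?_ h6
    refine (mul_le_mul_of_nonneg_right x25 (by positivity)).trans ?_
    rw [← Real.rpow_add x0]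
    exact Real.rpow_le_rpow_of_exponent_le x1 (by linarith)
  have lo : ∀ {b γ' y : ℝ}, 2 * γ ≤ γ' → x ^ (b - γ) ≤ y → x ^ (b - γ') ≤ y :=
    fun h5 h6 => (Real.rpow_le_rpow_of_exponent_le x1 (by linarith)).trans h6
  have hi : ∀ {b γ' y : ℝ}, 2 * γ ≤ γ' → y ≤ x ^ (b + γ) → y ≤ x ^ (b + γ') :=
    fun h5 h6 => h6.trans (Real.rpow_le_rpow_of_exponent_le x1 (by linarith))
  have key : ∀ (b1 b2 : ℝ) (k1 k2 : ℕ), b1 ≤ 1 → 0 ≤ b2 → b2 ≤ 1 →
      x ^ (b1 - γ) ≤ yk_T1 k1 → yk_T1 k1 ≤ x ^ (b1 + γ) →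
      x ^ (b2 - γ) ≤ yk_T1 k2 → yk_T1 k2 ≤ x ^ (b2 + γ) →
      (∏ i, (N i : ℝ)) * ⌈yk_T1 k2⌉₊ * ⌈yk_T1 k1⌉₊ ≤ 2 * x →
      Y.q1 τ η K (fun o : Option ι => o.elim b2 c) b1 →
      |Dl t x ((∏ i, g i) * pc (RR x κ) k2 * pc (RR x κ) k1)| ≤ x / Real.log x ^ A +
        2 * er x κ lam e (∏ i, g i) k2 k1 := by
    intro b1 b2 k1 k2 b11 hb2 b21 y1 y1' y2 y2' hprod hE
    have h5 : ∀ l : AF, (∀ d, |l d| ≤ 1) → (∀ d, l d ≠ 0 → (d : ℝ) ≤ x ^ lev τ t η) →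
        |Dl t x ((∏ i, g i) * pc (RR x κ) k2 * pc (l * zt) k1)| ≤ x ^ (1 - η / 10) := by
      intro l l1 l2
      have h6 := ha (fun o => o.elim b2 c) b1 (fun o => o.elim ⌈yk_T1 k2⌉₊ N)
        (fun o => o.elim (pc (RR x κ) k2) g) l (yk_T1 k1)
        (by rintro (_ | i); exacts [⟨hb2, b21⟩, hc1 i]) b11 hE
        (by rintro (_ | i); exacts [slot_Box2 x κ k2, hsl i])
        (by rintro (_ | i); exacts [(near_Box2 x1 xγ hγ ga y2 y2').2, hi ga (hN i).2])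
        (lo ga y1) (hi ga y1') (by
          rw [Fintype.prod_option]
          refine le_trans ?_ hprod
          simp only [Option.elim]
          rw [mul_comm _ (∏ i, (N i : ℝ))]
          exact mul_le_mul_of_nonneg_left (Nat.le_ceil _) (by positivity)) l1 l2
      rw [Fintype.prod_option] at h6
      simp only [Option.elim] at h6
      rwa [mul_comm (pc (RR x κ) k2)] at h6
    have h6 := step_Box2 t hF x1 (hH.mul (nn_pc (nn_RR x κ) k2)) (Le.refl _)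
      ((hF.le_up k2).mul_left hH) (big (hY.big1 hE) y1)
    have h7 := h5 lam hF.b1 sl
    have h8 := h5 e hF.b2 se
    unfold er
    linarith
  rcases hAlt with hE | hE | hE | hE
  · have h5 := h2 _ (fun o => o.elim b1 fun o' => o'.elim b2 c)
      (fun o => o.elim ⌈yk_T1 k1⌉₊ fun o' => o'.elim ⌈yk_T1 k2⌉₊ N)
      (fun o => o.elim (pc (RR x κ) k1) fun o' => o'.elim (pc (RR x κ) k2) g)
      (by rintro (_ | _ | i); exacts [⟨hb1, b11⟩, ⟨hb2, b21⟩, hc1 i]) hE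
      (by rintro (_ | _ | i); exacts [slot_Box2 x κ k1, slot_Box2 x κ k2, hsl i])
      (by
        rintro (_ | _ | i)
        exacts [near_Box2 x1 xγ hγ g2 y1 y1', near_Box2 x1 xγ hγ g2 y2 y2',
          ⟨lo g2 (hN i).1, hi g2 (hN i).2⟩])
      (by rintro (_ | _ | i) h; exacts [h.elim, h.elim, hpr i h]) (by
        rw [Fintype.prod_option, Fintype.prod_option]
        refine le_trans (le_of_eq ?_) hprod
        simp only [Option.elim]
        ring)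
    rw [Fintype.prod_option, Fintype.prod_option] at h5
    simp only [Option.elim] at h5
    rw [show (∏ i, g i) * pc (RR x κ) k1 * pc (RR x κ) k2 =
      pc (RR x κ) k1 * (pc (RR x κ) k2 * ∏ i, g i) by ring]
    linarith
  · have h5 := key b1 b2 k1 k2 b11 hb2 b21 y1 y1' y2 y2' (by rwa [mul_right_comm]) hE
    rw [mul_right_comm]
    linarith
  · have h5 := key b2 b1 k2 k1 b21 hb1 b11 y2 y2' y1 y1' hprod hE
    linarith
  · have h5 : ∀ l1 l2 : AF, (∀ d, |l1 d| ≤ 1) → (∀ d, |l2 d| ≤ 1) →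
        (∀ d, l1 d ≠ 0 → (d : ℝ) ≤ x ^ lev τ t η) → (∀ d, l2 d ≠ 0 → (d : ℝ) ≤ x ^ lev τ t η) →
        |Dl t x ((∏ i, g i) * pc (l1 * zt) k1 * pc (l2 * zt) k2)| ≤ x ^ (1 - η / 10) :=
      fun l1 l2 => hb c b1 b2 N g l1 l2 _ _ hc1 b11 b21 hE hsl (fun i => hi gb (hN i).2)
        (lo gb y1) (hi gb y1') (lo gb y2) (hi gb y2') (le_trans (mul_le_mul
          (mul_le_mul_of_nonneg_left (Nat.le_ceil _) hp0) (Nat.le_ceil _) (yk_pos_T1 k2).le
          (by positivity)) hprod)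
    have z1 := big (hY.big12 hE).1 y1
    have z2 := big (hY.big12 hE).2 y2
    have z0 : 0 < x ^ (1 / 20 : ℝ) := by positivity
    have u1 : up x κ lam k1 = pc (lam * zt) k1 := if_neg (by linarith)
    have u2 : up x κ lam k2 = pc (lam * zt) k2 := if_neg (by linarith)
    have h6 := step_Box2 t hF x1 (hH.mul (nn_pc (nn_RR x κ) k1)) ((hF.le_up k1).mul_left hH)
      (Le.refl _) z2
    have h7 := step_Box2 t hF x1 (hH.mul (hF.nn_up k2)) (Le.refl _) (Le.refl _) z1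
    have h8 := h5 lam lam hF.b1 hF.b1 sl sl
    have h9 := h5 lam e hF.b1 hF.b2 sl se
    have h10 := h5 e lam hF.b2 hF.b1 se sl
    unfold er
    rw [u1] at h6 ⊢
    rw [u2] at h7 ⊢
    rw [mul_right_comm _ _ (pc (RR x κ) k1), mul_right_comm _ _ (pc (lam * zt) k1),
      mul_right_comm _ _ (pc (e * zt) k1)] at h7
    linarith

theorem yOne2 : One2G Y := by
  intro hBox hNom hTa hTb hE1 hE2 hE12 τ t η η' κ z1 z2 lo hi K w r B ht htτ hτ hη hη1 hη' hκ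
    hlev hAlt j1 j2 A
  obtain ⟨γ, hγ, h1⟩ := hBox hTa hTb hE1 hE2 hE12 (Fin r ⊕ (Fin j1 ⊕ Fin j2)) τ t η η' κ K w A
    ht htτ hτ hη hη1 hη' hκ hlev
  have h3 := hNom (Fin r ⊕ Fin j1) (Fin j2) (Sum.elim (fun i => (B i).lo) fun _ => κ)
    (Sum.elim (fun i => (B i).hi) fun _ => z1) (fun _ => κ) (fun _ => z2) lo hi fun _ => hκ.le
  filter_upwards [h1, h3, (tendsto_rpow_atTop hγ).eventually_ge_atTop 4, eventually_gt_atTop 1]
    with x h1 h3 h4 hx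
  intro lam e hF N k1 k2 hN hI
  have hx0 : 0 < x := by linarith
  have hlog : 0 < Real.log x := Real.log_pos hx
  set c := cf x κ z1 z2 B j1 j2
  have hc01 : ∀ i n, 0 ≤ c i n ∧ c i n ≤ 1 := by
    rintro (i | i | i) n
    exacts [bf_nn_One x (B i) n, PP_nn_One x κ z1 n, PP_nn_One x κ z2 n]
  have hnn : ∀ i n, 0 ≤ dy (N i) (c i) n := fun i n => (dy_nn_One (N i) (hc01 i) n).1
  by_cases h0 : Dl t x ((∏ i, dy (N i) (c i)) * pc (RR x κ) k1 * pc (RR x κ) k2) = 0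
  · have hG : Nn (∏ i, dy (N i) (c i)) := Nn.prod fun i _ => hnn i
    have a1 := hF.er_nn hx0.le hG k1 k2
    have a2 := hF.er_nn hx0.le hG k2 k1
    rw [h0, abs_zero]
    positivity
  have h5 : ∃ Δ, SS x Δ ((∏ i, dy (N i) (c i)) * (pc (RR x κ) k1 * pc (RR x κ) k2)) ≠ 0 := by
    by_contra k
    push Not at k
    exact h0 (by rw [mul_assoc, Dl, SB, k, k, sub_zero])
  obtain ⟨Δ, h5⟩ := h5
  obtain ⟨m, l, hm, hl, w1, w2⟩ := dVan _ x Δ _ _ hx0 h5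
  obtain ⟨n1, n2, rfl, l1, l2⟩ := exists_of_mul_ne hl
  obtain ⟨-, y1, y1'⟩ := pc_ne l1
  obtain ⟨-, y2, y2'⟩ := pc_ne l2
  have p1 := yk_pos_T1 k1
  have p2 := yk_pos_T1 k2
  have d1 : ∀ i, (N i : ℝ) ≤ m i := fun i => Nat.cast_le.2 (dy_ne_One (hm i)).1.1
  have d2 : ∀ i, (m i : ℝ) ≤ 2 * N i := fun i => by exact_mod_cast (dy_ne_One (hm i)).1.2.le
  have e1 : (∏ i, (m i : ℝ)) * (n1 * n2 : ℕ) =
      (∏ i : Fin r ⊕ Fin j1, (m (Sum.map id Sum.inl i) : ℝ)) * n1 *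
        ((∏ i, (m (.inr (.inr i)) : ℝ)) * n2) := by
    simp only [Fintype.prod_sum_type, Sum.map_inl, Sum.map_inr, id, Nat.cast_mul]
    ring
  obtain ⟨a, q, b1, b2, ha, hq, hb1, c1, hb2, c2, hs, s1, s2⟩ :=
    h3 (fun i => m (Sum.map id Sum.inl i)) (fun i => m (.inr (.inr i))) n1 n2
      (fun i => ⟨(hN _).trans (dy_ne_One (hm _)).1.1, by
        rcases i with i | i
        · have k4 := bf_ne_One (x := x) (B := B i) (dy_ne_One (hm (.inl i))).2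
          exact ⟨k4.2.1.le, k4.2.2.1⟩
        · exact PP_ne_One (κ := κ) (z := z1) hx0.le (dy_ne_One (hm (.inr (.inl i)))).2⟩)
      (fun i => PP_ne_One (κ := κ) (z := z2) hx0.le (dy_ne_One (hm (.inr (.inr i)))).2)
      (Nat.cast_pos.1 (p1.trans y1)) (Nat.cast_pos.1 (p2.trans y2)) (e1 ▸ w1) (e1 ▸ w2)
      (hI.1.trans (mul_le_mul (prod_le_prod (fun i _ => Nat.cast_nonneg _) fun i _ => d1 _) y2.le
        p2.le (prod_nonneg fun i _ => Nat.cast_nonneg _)))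
      (le_trans ((mul_le_mul (prod_le_prod (fun i _ => Nat.cast_nonneg _) fun i _ => d2 _) y2'.le
        (Nat.cast_nonneg _) (prod_nonneg fun i _ => by positivity)).trans_eq (by
          rw [prod_mul_distrib, prod_const, card_univ, Fintype.card_fin]
          ring)) hI.2)
  have hs' : ∑ i, a (.inl i) + (∑ i, a (.inr i) + ∑ i, q i) + b1 + b2 = 1 := by
    rw [← hs, Fintype.sum_sum_type, ← add_assoc]
  have v1 := win_One2 hx0 h4 c1 y1.le y1'.le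
  have v2 := win_One2 hx0 h4 c2 y2.le y2'.le
  refine h1 lam e hF _ _ b1 b2 N _ k1 k2 ?_ hb1 hb2 (by simpa using hs')
    (hAlt j1 j2 (fun i => a (.inl i)) (fun i => a (.inr i)) q b1 b2
      (fun i => ⟨(ha (.inl i)).1, (ha (.inl i)).2.1, (ha (.inl i)).2.2.1⟩)
      (fun i => ⟨(ha (.inr i)).2.1, (ha (.inr i)).2.2.1⟩) (fun i => ⟨(hq i).1, (hq i).2.1⟩)
      hb1 hb2 hs' s1 s2)
    (fun i => slot_One (hN i) (hc01 i)) hnn (fun i => win_One2 hx0 h4 ?_ (d1 i) (d2 i)) ?_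
    v1.1 v1.2 v2.1 v2.2 (le_trans ?_ w2)
  · rintro (i | i | i)
    exacts [(ha _).1, (ha _).1, hκ.le.trans (hq i).1]
  · rcases i with i | i | i
    exacts [(ha (.inl i)).2.2.2, (ha (.inr i)).2.2.2, (hq i).2.2]
  · rintro (i | i | i) hi
    exacts [dPr.1 x (B i) _ hx hi, dPr.2 _ _ _, dPr.2 _ _ _]
  · rw [mul_assoc, ← Nat.cast_mul]
    exact mul_le_mul (prod_le_prod (fun i _ => Nat.cast_nonneg _) fun i _ => d1 i)
      (Nat.cast_le.2 (Nat.mul_le_mul (Nat.ceil_le.2 y1.le) (Nat.ceil_le.2 y2.le)))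
      (Nat.cast_nonneg _) (prod_nonneg fun i _ => Nat.cast_nonneg _)

lemma alt_mono (hY : Y.Sd) {ι : Type} [Fintype ι] {τ η η₀ η' : ℝ} {K : ℕ} {pr : ι → Prop}
    {c : ι → ℝ} {b1 b2 : ℝ} (h : Alt4G Y τ η₀ η' K pr c b1 b2) (hη : η ≤ η₀) :
    Alt4G Y τ η η' K pr c b1 b2 :=
  h.imp id (Or.imp (fun h => hY.mono1 h hη) (Or.imp (fun h => hY.mono1 h hη)
    fun h => hY.mono12 h hη))

theorem yFin2 (hY : Y.Sd) (hFW : FWStmt) (hOm : OmStmt) (hTm : TmStmt) (hTa : TaG Y) (hTb : TbG Y)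
    (hBox : BoxG Y) (hNom : NomStmt2) (hOne : One2G Y) (hErr : ErrStmt) (hES : ESumStmt)
    (hExp : ExpStmt) (hIn : InStmt) (hCut : CutStmt) (hBnd : BndStmt) (hLam : LamStmt)
    (hLay : LayStmt) (hRow : RowStmt2) (hSum : SumStmt2) (h1 : E1G Y) (h2 : E2G Y) (h12 : E12G Y) :
    LeafS2G Y := by
  intro τ t ht hτ hτ2 r B z1 z2 lo hi hB hz1 hz2 hlo hhi hD
  rcases lt_or_ge hi lo with hlh | hlh
  · refine (ev_zero t).congr ?_
    filter_upwards [eventually_ge_atTop 1] with x hx n _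
    have e : bf x ⟨lo, hi, z2, none⟩ = 0 := by
      ext m
      refine bf_of_not fun h => ?_
      have := Real.rpow_le_rpow_of_exponent_le hx hlh.le
      linarith [h.2.1, h.2.2.1]
    rw [e, mul_zero, zero_mul]
  obtain ⟨η₀, hη₀, hD⟩ := hD
  obtain ⟨⟨M, hM1, hM⟩, hP⟩ := dMs
  set η := min η₀ (1 / 1000) with hηd
  have hη : 0 < η := lt_min hη₀ (by norm_num)
  have hl : 0 < lev τ t η := lt_min (by positivity) (by linarith)
  set c := min (min (lev τ t η) (1 / 100)) (min z1 z2) with hc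
  have c0 : 0 < c := lt_min (lt_min hl (by norm_num)) (lt_min hz1 hz2)
  refine ev_iff.2 fun ε hε => ?_
  obtain ⟨w, hw, hs⟩ := small_Fin2 (C := 2 ^ 36 * M ^ r * 36 / c ^ 5) (by positivity)
    (half_pos hε)
  have w0 : (1 : ℝ) ≤ 4 * (w : ℝ) + 6 := by
    have : (0 : ℝ) ≤ w := Nat.cast_nonneg w
    linarith
  set κ := c / (4 * (w : ℝ) + 6) with hκ
  have κ0 : 0 < κ := by positivity
  have κc : κ ≤ c := div_le_self c0.le w0
  have κz1 : κ ≤ z1 := κc.trans ((min_le_right _ _).trans (min_le_left _ _))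
  have κz2 : κ ≤ z2 := κc.trans ((min_le_right _ _).trans (min_le_right _ _))
  have c1 : c ≤ 1 / 100 := (min_le_left _ _).trans (min_le_right _ _)
  have κe : κ * (4 * w + 6) = c := by rw [hκ, div_mul_cancel₀ _ (by linarith)]
  have κl : κ * (4 * w + 6) ≤ lev τ t η := κe.trans_le ((min_le_left _ _).trans (min_le_left _ _))
  obtain ⟨η', hη', K, hK⟩ := hD κ κ0
  have hA : Alt2G Y τ η η' κ z1 z2 lo hi K B := fun j1 j2 a q1 q2 b1 b2 a1 a2 a3 a4 a5 a6 a7 a8 =>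
    alt_mono hY (hK j1 j2 a q1 q2 b1 b2 a1 a2 a3 a4 a5 a6 a7 a8) (min_le_left _ _)
  have hO := hOne hBox hNom hTa hTb h1 h2 h12 τ t η η' κ z1 z2 lo hi K w r B ht hτ hτ2 hη
    (min_le_right _ _) hη' κ0 κl hA
  have m0 : 0 ≤ Real.log (6 / κ) := Real.log_nonneg (by
    rw [le_div_iff₀ κ0]
    linarith)
  have t0 : 0 < t := by linarith
  have t1 : t < 1 / 2 := by linarith
  have hR := fun j1 j2 => hRow hCut hBnd hLay hLam hFW t κ z1 z2 lo hi _ r j1 j2 B t0 t1 κ0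
    (fun i => by linarith [hB i]) hlo hlh hhi
    (hIn hExp hES hErr hTm hOm hFW t κ z1 z2 lo hi M (Real.log (6 / κ)) w r j1 j2 B κ0 hw
      (κe.trans_le c1) (hO j1 j2) (hM.mono fun x hx i => hx _ (hB i))
      (hP κ z1 κ0 (by linarith)) (hP κ z2 κ0 (by linarith)))
  have hS := fun j1 => hSum t κ z2 lo hi
    (2 ^ 36 / 4 ^ w / κ ^ 3 * M ^ r * Real.log (6 / κ) ^ j1) (Real.log (6 / κ))
    (fun x => (∏ i, bf x (B i)) * PP x κ z1 ^ j1 * RR x κ) t0 t1 κ0 κz2 (by positivity) m0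
    (fun δ hδ => div_Fin2 B κ z1 j1 hδ) (hR j1)
  have e : ∀ x : ℝ, ∏ i, bf x ((Fin.snoc B ⟨lo, hi, z2, none⟩ : Fin (r + 1) → Blk) i) =
      (∏ i, bf x (B i)) * bf x ⟨lo, hi, z2, none⟩ := fun x => by
    rw [Fin.prod_univ_castSucc]
    simp only [Fin.snoc_castSucc, Fin.snoc_last]
  have hT := dSum dId dBad dSZ t κ z1 (2 ^ 36 / 4 ^ w / κ ^ 3 * M ^ r * (6 / κ))
    (Real.log (6 / κ)) (r + 1) (Fin.snoc B ⟨lo, hi, z2, none⟩) t0 t1 κ0 κz1 (by positivity) m0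
    (fun j ε' hε' => (hS j ε' hε').mono fun x hx => by
      rw [Real.exp_log (by positivity)] at hx
      rw [e]
      convert hx using 3
      · unfold RR
        ring
      · ring) (ε / 2) (half_pos hε)
  filter_upwards [hT, eventually_gt_atTop 1] with x hx x1
  rw [e, Real.exp_log (by positivity)] at hx
  refine hx.trans (mul_le_mul_of_nonneg_right ?_
    (div_nonneg (by linarith) (Real.log_pos x1).le))
  have e2 : 2 ^ 36 / 4 ^ w / κ ^ 3 * M ^ r * (6 / κ) * (6 / κ) =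
      2 ^ 36 * M ^ r * 36 / c ^ 5 * (4 * (w : ℝ) + 6) ^ 5 / 4 ^ w := by
    rw [hκ]
    field_simp
    ring
  rw [e2]
  linarith

theorem leafS2G (h : Y.OK) : LeafS2G Y :=
  yFin2 h.sd d2FW d2Om d2Tm (yTa h.sd) (yTb h.sd) (yBox h.sd) d2Nom yOne2 d2Err d2ESum d2Exp d2In d2Cut
    d2Bnd d2Lam d2Lay d2Row d2Sum h.e1 h.e2 h.e12

end Pool.Agent.MP_c853c5_nt.Y

end
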