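import Pool.Agent.MP_c853c5_nt.E.Basic
import Pool.Agent.MP_c853c5_nt.S.Basic
import Pool.Agent.MP_c853c5_nt.S.Defs2
import Pool.Agent.MP_c853c5_nt.R.WDefs

section

set_option autoImplicit false

open Finset Filter

namespace Pool.Agent.MP_c853c5_nt.E

open Pool.Agent.MP_2a1f0e_nt Pool.Agent.MP_2a1f0e_nt.GM Pool.Agent.MP_2a1f0e_nt.DH

lemma prod_ConL {ι : Type} [Fintype ι] {x : ℝ} (hx : 0 < x) (κ : ι → ℕ) (a : ι → ℝ) :
    ∏ j, (x ^ a j) ^ κ j = x ^ ∑ j, (κ j : ℝ) * a j := by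
  rw [Real.rpow_sum_of_pos hx]
  refine prod_congr rfl fun j _ => ?_
  rw [← Real.rpow_natCast, ← Real.rpow_mul hx.le, mul_comm]

theorem con_stmt (hE : ExpStmt) (hP : ProdStmt) : ConStmt := by
  intro ι _ K ε hε
  obtain ⟨m, hm⟩ : ∃ m : ℝ, m = (Fintype.card ι : ℝ) * K := ⟨_, rfl⟩
  have hm0 : 0 ≤ m := by rw [hm]; positivity
  obtain ⟨g, hg, hE⟩ := hE m ε hε
  obtain ⟨γ, hγ, hγg⟩ : ∃ γ : ℝ, 0 < γ ∧ (2 * m + 1) * γ = g :=
    ⟨g / (2 * m + 1), by positivity, by field_simp⟩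
  have hmγ : 0 ≤ m * γ := by positivity
  obtain ⟨C, -, hC⟩ := exists_DivB (ε := γ / 2 / (m + g)) (by positivity)
  refine ⟨γ, hγ, ?_⟩
  filter_upwards [hE, ev_const_le C (half_pos hγ), eventually_ge_atTop 1] with x hE hCx hx
  intro τ b T L S φ h0 h1 hb hT hTx hL hS hφ hD W r v hW hv hr κ hκ
  have hx0 : 0 < x := by linarith
  have hk : ∑ j, (κ j : ℝ) ≤ m := by
    rw [hm, ← nsmul_eq_mul, ← card_univ]
    exact sum_le_card_nsmul _ _ _ fun j _ => by exact_mod_cast hκ j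
  have hkγ : (∑ j, (κ j : ℝ)) * γ ≤ m * γ := mul_le_mul_of_nonneg_right hk hγ.le
  have hn0 : 0 ≤ ∑ j, (κ j : ℝ) * b j := sum_nonneg fun j _ => mul_nonneg (by positivity) (hb j).1
  have hn : ∑ j, (κ j : ℝ) * b j ≤ m :=
    (sum_le_sum fun j _ => mul_le_of_le_one_right (by positivity) (hb j).2).trans hk
  have hL1 : 1 ≤ ∏ j, L j ^ κ j := one_le_prod' fun j _ => Nat.one_le_pow _ _ (hL j).1
  have hLx : ((∏ j, L j ^ κ j : ℕ) : ℝ) ≤ x ^ (∑ j, (κ j : ℝ) * b j + g) := by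
    push_cast
    refine (prod_le_prod (fun j _ => by positivity) fun j _ =>
      pow_le_pow_left₀ (by positivity) (hL j).2 _).trans ?_
    rw [prod_ConL hx0]
    refine Real.rpow_le_rpow_of_exponent_le hx ?_
    simp only [mul_add, sum_add_distrib, ← sum_mul]
    linarith
  have hΔ : C * ((∏ j, L j ^ κ j : ℕ) : ℝ) ^ (γ / 2 / (m + g)) ≤ x ^ γ := by
    have e1 : ((∏ j, L j ^ κ j : ℕ) : ℝ) ^ (γ / 2 / (m + g)) ≤ x ^ (γ / 2) := by
      refine (Real.rpow_le_rpow (Nat.cast_nonneg _) (hLx.trans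
        (Real.rpow_le_rpow_of_exponent_le hx (show _ ≤ m + g by linarith))) (by positivity)).trans
        (le_of_eq ?_)
      rw [← Real.rpow_mul hx0.le]
      congr 1
      field_simp
    refine (mul_le_mul hCx e1 (by positivity) (by positivity)).trans (le_of_eq ?_)
    rw [← Real.rpow_add hx0, add_halves]
  obtain ⟨c, hc, hs⟩ := hP ι S W φ L κ (x ^ γ) (x ^ γ) hW (fun j => (hL j).1) (by positivity) hφ hD
    ⟨(hC _ hL1).1.trans hΔ, fun n hn => ((hC _ hL1).2 n hn).trans hΔ⟩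
  refine hE τ _ _ r _ T c W h0 h1 hn0 hn hL1 hLx hT
    (hTx.trans (Real.rpow_le_rpow_of_exponent_le hx (by linarith))) hc (hW.trans hS) hr ?_
  have e1 : (W.card : ℝ) * x ^ (∑ j, (κ j : ℝ) * v j) ≤ ∑ t ∈ W, ∏ j, φ j t ^ κ j := by
    rw [← nsmul_eq_mul, ← prod_ConL hx0]
    exact card_nsmul_le_sum _ _ _ fun t ht => prod_le_prod (fun j _ => by positivity) fun j _ =>
      pow_le_pow_left₀ (by positivity) (hv j t ht) _
  have e2 : (x ^ γ * x ^ γ) ^ (∑ j, κ j) ≤ x ^ g := by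
    rw [← Real.rpow_add hx0, ← Real.rpow_natCast, ← Real.rpow_mul hx0.le]
    refine Real.rpow_le_rpow_of_exponent_le hx ?_
    push_cast
    linarith
  have e3 := (e1.trans hs).trans
    (mul_le_mul_of_nonneg_right e2 (sum_nonneg fun _ _ => norm_nonneg _))
  rw [Real.rpow_sub hx0, ← mul_div_assoc, div_le_iff₀' (by positivity)]
  exact e3

end Pool.Agent.MP_c853c5_nt.E

end

section

/-!
From the sum over a box to the smoothed sum of a convolution.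
-/

set_option autoImplicit false

open Finset Filter

namespace Pool.Agent.MP_c853c5_nt.E

open Pool.Agent.MP_c853c5_nt.S

lemma sgl_mul_Glue (a b : ℕ) : sgl a * sgl b = sgl (a * b) := by
  ext n
  rw [ArithmeticFunction.mul_apply]
  by_cases h : n = a * b ∧ n ≠ 0
  · rw [sum_eq_single_of_mem (a, b) (Nat.mem_divisorsAntidiagonal.2 ⟨h.1.symm, h.2⟩)]
    · have h1 : a * b ≠ 0 := h.1 ▸ h.2
      simp [sgl, h.1, left_ne_zero_of_mul h1, right_ne_zero_of_mul h1]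
    · intro p _ hp
      by_cases h1 : p.1 = a
      · have h2 : p.2 ≠ b := fun h2 => hp (Prod.ext h1 h2)
        simp [sgl, h2]
      · simp [sgl, h1]
  · have e : sgl (a * b) n = 0 := if_neg h
    rw [e]
    refine sum_eq_zero fun p hp => ?_
    obtain ⟨h1, h2⟩ := Nat.mem_divisorsAntidiagonal.1 hp
    by_cases h3 : p.1 = a
    · have h4 : p.2 ≠ b := fun h4 => h ⟨by rw [← h1, h3, h4], h2⟩
      simp [sgl, h4]
    · simp [sgl, h3]

lemma sgl_one_Glue : sgl 1 = 1 := by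
  ext n
  rw [ArithmeticFunction.one_apply]
  by_cases h : n = 1 <;> simp [sgl, h]

lemma prod_sgl_Glue {ι : Type} (s : Finset ι) (c : ι → ℝ) (m : ι → ℕ) :
    ∏ i ∈ s, c i • sgl (m i) = (∏ i ∈ s, c i) • sgl (∏ i ∈ s, m i) := by
  classical
  induction s using Finset.induction_on with
  | empty => simp [sgl_one_Glue]
  | insert a s ha ih =>
    rw [prod_insert ha, prod_insert ha, prod_insert ha, ih, smul_mul_smul_comm, sgl_mul_Glue]

lemma eq_sum_Glue {g : AF} {s : Finset ℕ} (h : ∀ n, g n ≠ 0 → n ∈ s) :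
    g = ∑ m ∈ s, g m • sgl m := by
  ext n
  rw [AF_sum]
  simp only [AF_smul]
  by_cases h0 : g n = 0
  · rw [h0]
    refine (sum_eq_zero fun m _ => ?_).symm
    by_cases h1 : n = m
    · rw [← h1, h0, zero_mul]
    · simp [sgl, h1]
  · rw [sum_eq_single_of_mem n (h n h0) fun m _ hm => by simp [sgl, hm.symm]]
    have h1 : n ≠ 0 := fun h1 => h0 (by rw [h1, ArithmeticFunction.map_zero])
    simp [sgl, h1]

lemma SS_sgl_Glue (x Δ : ℝ) (m : ℕ) : SS x Δ (sgl m) =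
    if m ∈ Ioc ⌊x / 2⌋₊ ⌊2 * x⌋₊ then Z.gg Δ (Real.log x - Real.log m) else 0 := by
  rw [SS, ← sum_ite_eq' (Ioc ⌊x / 2⌋₊ ⌊2 * x⌋₊) m fun n => Z.gg Δ (Real.log x - Real.log n)]
  refine sum_congr rfl fun n hn => ?_
  have h : n ≠ 0 := by have := (mem_Ioc.1 hn).1; omega
  by_cases h1 : n = m <;> simp [sgl, h1, h]
  intro h2
  exact absurd (h1.trans h2) h

lemma gg_tail_Glue {x Δ z : ℝ} (hx : 1 ≤ x) (h1 : x⁻¹ ≤ Δ) (h2 : Δ ≤ x ^ (-(1 / 1000) : ℝ))
    (hz : 2 / 3 ≤ |z|) : Z.gg Δ z ≤ x * Real.exp (-x ^ (1 / 500 : ℝ)) := by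
  have hx0 : 0 < x := by linarith
  have h0 : 0 < Δ := (inv_pos.2 hx0).trans_le h1
  rw [Z.gg]
  refine mul_le_mul (inv_le_of_inv_le₀ hx0 h1) (Real.exp_le_exp.2 (neg_le_neg ?_))
    (Real.exp_pos _).le hx0.le
  rw [le_div_iff₀ (by positivity)]
  have h3 : x ^ (1 / 500 : ℝ) * (x ^ (-(1 / 1000) : ℝ)) ^ 2 = 1 := by
    rw [← Real.rpow_mul_natCast hx0.le, ← Real.rpow_add hx0]
    norm_num
  have h4 : x ^ (1 / 500 : ℝ) * Δ ^ 2 ≤ 1 := by
    refine le_trans ?_ h3.le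
    gcongr
  have h5 : (2 / 3) ^ 2 ≤ z ^ 2 := by
    rw [← sq_abs z]
    gcongr
  nlinarith [Real.pi_gt_three]

lemma ev_tail_Glue (C : ℝ) :
    ∀ᶠ x : ℝ in atTop, C * x * (x * Real.exp (-x ^ (1 / 500 : ℝ))) ≤ 1 := by
  filter_upwards [ev_log_le 3 1 (show (0 : ℝ) < 1 / 500 by norm_num), eventually_ge_atTop C,
    eventually_gt_atTop 0] with x h1 h2 h3
  have h4 : x * x * x ≤ Real.exp (x ^ (1 / 500 : ℝ)) := by
    refine le_trans (le_of_eq ?_) (Real.exp_le_exp.2 h1)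
    rw [pow_one, show 3 * Real.log x = Real.log x + Real.log x + Real.log x by ring, Real.exp_add,
      Real.exp_add, Real.exp_log h3]
  rw [Real.exp_neg, ← mul_assoc, mul_inv_le_iff₀ (Real.exp_pos _), one_mul]
  refine le_trans ?_ h4
  gcongr

/-- the smoothed sum of a convolution is the sum over the box, up to the tails -/
theorem dl_box (C : ℝ) : ∀ᶠ x : ℝ in atTop, ∀ (ι : Type) [Fintype ι] [DecidableEq ι] (t : ℝ)
    (d : ℕ) (g : ι → AF) (s : ι → Finset ℕ), 1 / 1000 ≤ t → t ≤ 1 → 1 ≤ d →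
    (∀ i n, |g i n| ≤ 1) → (∀ i n, g i n ≠ 0 → n ∈ s i) → ∏ i, ((s i).card : ℝ) ≤ C * x →
    |Dl t x (sgl d * ∏ i, g i)| ≤ |PhiS (Real.log x - Real.log d) (x ^ (-t))
      (x ^ (-(1 / 1000) : ℝ)) s fun i => g i| + 1 := by
  filter_upwards [ev_tail_Glue C, eventually_ge_atTop 1] with x h1 hx ι _ _ t d g s ht ht' hd hg
    hs hc
  have hx0 : 0 < x := by linarith
  have e : sgl d * ∏ i, g i =
      ∑ m ∈ Fintype.piFinset s, (∏ i, g i (m i)) • sgl (d * ∏ i, m i) := by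
    rw [prod_congr rfl fun i _ => eq_sum_Glue (hs i), prod_univ_sum, mul_sum]
    exact sum_congr rfl fun m _ => by rw [prod_sgl_Glue, mul_smul_comm, sgl_mul_Glue]
  have a1 : x⁻¹ ≤ x ^ (-t) := by
    rw [← Real.rpow_neg_one]
    exact Real.rpow_le_rpow_of_exponent_le hx (by linarith)
  have a2 : x ^ (-t) ≤ x ^ (-(1 / 1000) : ℝ) := Real.rpow_le_rpow_of_exponent_le hx (by linarith)
  rw [e, Dl_sum, PhiS]
  refine (abs_sub_abs_le_abs_sub _ _ |> sub_le_iff_le_add'.1).trans (add_le_add le_rfl ?_)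
  rw [← sum_sub_distrib]
  refine (abs_sum_le_sum_abs _ _).trans ((sum_le_card_nsmul _ _
    (x * Real.exp (-x ^ (1 / 500 : ℝ))) fun m _ => ?_).trans ?_)
  · rw [Dl_smul, ← mul_sub, abs_mul]
    by_cases h0 : ∏ i, g i (m i) = 0
    · rw [h0, abs_zero, zero_mul]
      positivity
    have h2 : (∏ i, m i) ≠ 0 := prod_ne_zero_iff.2 fun i hi h3 =>
      prod_ne_zero_iff.1 h0 i hi (by rw [h3, ArithmeticFunction.map_zero])
    have h3 : |∏ i, g i (m i)| ≤ 1 := by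
      rw [abs_prod]
      exact prod_le_one (fun i _ => abs_nonneg _) fun i _ => hg i _
    refine (mul_le_of_le_one_left (abs_nonneg _) h3).trans ?_
    have hn : 0 < d * ∏ i, m i := Nat.mul_pos hd (Nat.pos_of_ne_zero h2)
    have e1 : Real.log x - Real.log d - Real.log ((∏ i, m i : ℕ) : ℝ) =
        Real.log x - Real.log ((d * ∏ i, m i : ℕ) : ℝ) := by
      rw [Nat.cast_mul, Real.log_mul (by positivity) (Nat.cast_ne_zero.2 h2), sub_sub]
    rw [Dl, SB, SS_sgl_Glue, SS_sgl_Glue, dg, e1]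
    generalize d * ∏ i, m i = n at hn ⊢
    split_ifs with h4
    · rw [sub_self, abs_zero]
      positivity
    have hn' : (0 : ℝ) < n := by exact_mod_cast hn
    have hz : 2 / 3 ≤ |Real.log x - Real.log n| := by
      have h5 : ¬ Win x n := fun h => h4 (mem_of_win hx0.le h)
      have h6 := Real.log_two_gt_d9
      rw [Win, not_and_or, not_lt, not_le] at h5
      rcases h5 with h5 | h5
      · have h7 := Real.log_le_log hn' h5
        rw [Real.log_div hx0.ne' two_ne_zero] at h7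
        exact le_abs.2 (Or.inl (by linarith))
      · have h7 := Real.log_le_log (by positivity) h5.le
        rw [Real.log_mul two_ne_zero hx0.ne'] at h7
        exact le_abs.2 (Or.inr (by linarith))
    have b1 := gg_tail_Glue hx a1 a2 hz
    have b2 := gg_tail_Glue hx (a1.trans a2) le_rfl hz
    have b3 := gg_nonneg (Real.rpow_nonneg hx0.le (-t)) (Real.log x - Real.log n)
    have b4 := gg_nonneg (Real.rpow_nonneg hx0.le (-(1 / 1000))) (Real.log x - Real.log n)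
    rw [abs_le]
    constructor <;> linarith
  · rw [nsmul_eq_mul, Fintype.card_piFinset, Nat.cast_prod]
    exact (mul_le_mul_of_nonneg_right hc (by positivity)).trans h1

end Pool.Agent.MP_c853c5_nt.E

end

section

set_option autoImplicit false

open Finset Filter

namespace Pool.Agent.MP_c853c5_nt.E

open Pool.Agent.MP_c853c5_nt.S

lemma wd_GlueI : ∀ᶠ x : ℝ in atTop, ∀ t : ℝ, 1 / 3 ≤ t →
    Wd x t (1 / 2000) (x ^ (-t)) (x ^ (-(1 / 1000) : ℝ)) := by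
  filter_upwards [eventually_ge_atTop 1, ev_le_log 1] with x hx h1 t ht
  refine ⟨div_le_self (by positivity) (one_le_pow₀ h1),
    Real.rpow_le_rpow_of_exponent_le hx (by linarith), le_of_eq ?_⟩
  norm_num

theorem e1d_of (hB : BoxIStmt) : S.E1D := by
  intro ι _ τ t η K ht htτ hτ hη hη'
  classical
  obtain ⟨γ, hγ, h⟩ := hB ι K η (1 / 2000) hη (by linarith) (by norm_num) (by norm_num)
  refine ⟨γ, hγ, ?_⟩
  filter_upwards [h, dl_box (2 * 2 ^ Fintype.card ι), wd_GlueI, eventually_gt_atTop 1,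
    ev_const_le 5 (show (0 : ℝ) < 1 / 60 by norm_num),
    ev_const_le 3 (show 0 < η / 20 by positivity)]
    with x h1 h2 h3 hx h5 h6 a b N g d y ha _ hE hs hN hy1 hy2 _ hd hp
  have hx0 : 0 < x := by linarith
  have hy5 : 5 ≤ y := h5.trans ((Real.rpow_le_rpow_of_exponent_le hx.le
    (by linarith [hE.1])).trans hy1)
  have hy0 : 0 < y := by linarith
  have hd' : (1 : ℝ) ≤ d := by exact_mod_cast hd
  have hP : 0 ≤ ∏ i, (N i : ℝ) := prod_nonneg fun i _ => Nat.cast_nonneg _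
  have hp' : y * ∏ i, (N i : ℝ) ≤ 2 * x := by nlinarith [mul_nonneg hy0.le hP]
  have e0 : x ^ Real.logb x y = y := Real.rpow_logb hx0 hx.ne' hy0
  have l1 : b - (τ - t) / 2 ≤ Real.logb x y := (Real.le_logb_iff_rpow_le hx hy0).2 hy1
  have l2 : min (Real.logb x y) b ≤ b := min_le_right _ _
  have l3 : b - (τ - t) / 2 ≤ min (Real.logb x y) b := le_min l1 (by linarith)
  have key := h1 t (Real.log x - Real.log d) _ _ y (min (Real.logb x y) b) a N (fun i => g i) ht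
    (by linarith) (h3 t ht) ha
    ((hE.2.tau htτ.le).anti fun o => by
      cases o with
      | none => exact max_le_max le_rfl (min_le_min l2 (by linarith))
      | some i => exact le_rfl)
    (fun j => ⟨(hs j).1, hN j⟩) hy5
    (by
      refine le_trans ?_ e0.le
      exact Real.rpow_le_rpow_of_exponent_le hx.le (by linarith [min_le_left (Real.logb x y) b]))
    (by
      rcases le_total (Real.logb x y) b with h7 | h7
      · rw [min_eq_left h7]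
        exact e0.ge.trans (Real.rpow_le_rpow_of_exponent_le hx.le (by linarith))
      · rwa [min_eq_right h7])
    (by linarith) fun j => (hs j).2.1
  have win := h2 (Option ι) t d (fun o => o.elim (omz y) g)
    (fun o => o.elim (Ioc ⌊y⌋₊ (2 * ⌊y⌋₊)) fun j => Icc (N j) (2 * N j)) (by linarith)
    (by linarith) hd
    (fun o n => by
      cases o with
      | none => exact abs_oc_le y n
      | some i => exact (hs i).2.1 n)
    (fun o n hn => by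
      cases o with
      | none => exact mem_of_oc_ne_zero hy5 hn
      | some i => exact mem_Icc.2 ⟨((hs i).2.2 n hn).1, ((hs i).2.2 n hn).2.le⟩)
    (by
      rw [Fintype.prod_option]
      simp only [Option.elim]
      have c1 : ((Ioc ⌊y⌋₊ (2 * ⌊y⌋₊)).card : ℝ) ≤ y := by
        rw [Nat.card_Ioc, show 2 * ⌊y⌋₊ - ⌊y⌋₊ = ⌊y⌋₊ by omega]
        exact Nat.floor_le hy0.le
      have c2 : ∏ i, ((Icc (N i) (2 * N i)).card : ℝ) ≤ ∏ i, 2 * (N i : ℝ) :=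
        prod_le_prod (fun i _ => Nat.cast_nonneg _) fun i _ => card_blk_le (hs i).1
      rw [prod_mul_distrib, prod_const, card_univ] at c2
      calc _ ≤ y * (2 ^ Fintype.card ι * ∏ i, (N i : ℝ)) :=
            mul_le_mul c1 c2 (prod_nonneg fun i _ => Nat.cast_nonneg _) hy0.le
        _ = 2 ^ Fintype.card ι * (y * ∏ i, (N i : ℝ)) := by ring
        _ ≤ 2 ^ Fintype.card ι * (2 * x) := by gcongr
        _ = _ := by ring)
  have e1 : (fun o : Option ι => ((o.elim (omz y) g : AF) : ℕ → ℝ)) =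
      fun o : Option ι => o.elim (oc y) fun i => (g i : ℕ → ℝ) := by
    funext o
    cases o <;> rfl
  rw [e1, Fintype.prod_option] at win
  simp only [Option.elim] at win
  rw [mul_assoc, mul_comm _ (omz y)]
  refine win.trans ((add_le_add key le_rfl).trans ?_)
  have f1 : x ^ (1 - η / 2) ≤ x ^ (1 - η / 4) :=
    Real.rpow_le_rpow_of_exponent_le hx.le (by linarith)
  have f2 : x ^ (1 - (1 / 2000 : ℝ) / 2) ≤ x ^ (1 - η / 4) :=
    Real.rpow_le_rpow_of_exponent_le hx.le (by linarith)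
  have f3 : 1 ≤ x ^ (1 - η / 4) := Real.one_le_rpow hx.le (by linarith)
  have f4 : x ^ (1 - η / 5) = x ^ (η / 20) * x ^ (1 - η / 4) := by
    rw [← Real.rpow_add hx0]
    congr 1
    ring
  rw [f4]
  nlinarith

end Pool.Agent.MP_c853c5_nt.E

end

section

set_option autoImplicit false

open Finset Filter

namespace Pool.Agent.MP_c853c5_nt.E

open Pool.Agent.MP_2a1f0e_nt Pool.Agent.MP_2a1f0e_nt.GM Pool.Agent.MP_2a1f0e_nt.DH

lemma norm_GridI {ι : Type} [Fintype ι] {x y : ℝ} (N : ι → ℕ) (hy : 1 ≤ y)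
    (h : y * ∏ j, (N j : ℝ) ≤ 8 * x) :
    √y * ∏ j, √((2 * N j : ℕ) : ℝ) ≤ √(8 * 2 ^ Fintype.card ι) * √x := by
  rw [← Real.sqrt_prod _ fun j _ => Nat.cast_nonneg _, ← Real.sqrt_mul (by linarith),
    ← Real.sqrt_mul (by positivity)]
  refine Real.sqrt_le_sqrt ?_
  push_cast
  rw [prod_mul_distrib, prod_const, card_univ]
  have : (0 : ℝ) < 2 ^ Fintype.card ι := by positivity
  nlinarith

lemma pt_GridI {x g β : ℝ} {L : ℕ} (hx : 1 ≤ x) (h2 : 2 ≤ x ^ (g / 2))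
    (hL : (L : ℝ) ≤ x ^ (β + g)) : x ^ g * (2 * √L) ≤ x ^ (β / 2 + 2 * g) := by
  have h0 : 0 < x := by linarith
  have h1 : √(L : ℝ) ≤ x ^ ((β + g) / 2) := by
    refine (Real.sqrt_le_sqrt hL).trans (le_of_eq ?_)
    rw [Real.sqrt_eq_rpow, ← Real.rpow_mul h0.le]
    ring_nf
  calc x ^ g * (2 * √L) ≤ x ^ g * (x ^ (g / 2) * x ^ ((β + g) / 2)) := by gcongr
    _ = _ := by
      rw [← Real.rpow_add h0, ← Real.rpow_add h0]
      ring_nf

theorem gridI_stmt (hC : CoreStmt) (hS : SelfStmt) : GridIStmt := by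
  classical
  intro ι _ K η hη hη'
  set k : ℕ := Fintype.card ι with hk
  have hk0 : (0 : ℝ) ≤ k := Nat.cast_nonneg _
  set ε : ℝ := η / (8 * (k + 2)) with hε
  have hε0 : 0 < ε := by positivity
  have hε1 : (2 * k + 3) * ε ≤ η / 4 := by
    rw [hε, ← mul_div_assoc, div_le_div_iff₀ (by positivity) (by norm_num)]
    nlinarith
  obtain ⟨g, hg, hgε, hev⟩ := hC (Option ι) K ε hε0
  refine ⟨g / 2, half_pos hg, ?_⟩
  filter_upwards [hev, eventually_ge_atTop 1, ev_const_le 2 (half_pos hg),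
    ev_const_le (3 * √(8 * 2 ^ k)) (show 0 < η / 4 by linarith)] with x hx h1 h2 h3
  intro τ u y b₀ b T L N c S Y hτ hτ' hb0 hb1 hb hE hT hT' hN hL hL' hy hyN hc hST hY hD
  have h0 : 0 < x := by linarith
  have hy0 : 0 < √y := Real.sqrt_pos.2 (by linarith)
  have mono : ∀ {a a' : ℝ}, a ≤ a' → x ^ a ≤ x ^ a' := fun h => Real.rpow_le_rpow_of_exponent_le h1 h
  set φ : Option ι → ℤ → ℝ := fun o => o.elim (fun m => Y m / √y)
    fun j m => ‖BP (N j) (c j) (u + m)‖ / √((2 * N j : ℕ) : ℝ) with hφ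
  set L' : Option ι → ℕ := fun o => o.elim L fun j => 2 * N j with hL'd
  set b' : Option ι → ℝ := fun o => o.elim b₀ b with hb'
  have e1 : ∀ o, 1 ≤ L' o ∧ (L' o : ℝ) ≤ x ^ (b' o + g) := by
    rintro (_ | j)
    · exact ⟨hL, hL'.trans (mono (by simp only [hb', Option.elim]; linarith))⟩
    · refine ⟨by have := (hN j).1; simp only [hL'd, Option.elim]; omega, ?_⟩
      simp only [hL'd, hb', Option.elim]
      push_cast
      calc (2 : ℝ) * N j ≤ x ^ (g / 2) * x ^ (b j + g / 2) := by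
            have := (hN j).2
            gcongr
        _ = _ := by
          rw [← Real.rpow_add h0]
          ring_nf
  have e2 : ∀ o, ∀ t ∈ S, 0 ≤ φ o t := by
    rintro (_ | j) t ht
    · exact div_nonneg (hY t ht) hy0.le
    · exact div_nonneg (norm_nonneg _) (Real.sqrt_nonneg _)
  have e3 : ∀ o, Dom S (φ o) (L' o) (x ^ g) := by
    rintro (_ | j)
    · exact hD.mono (lam := 1) (by positivity) zero_le_one
        (by rw [one_mul]; exact mono (by linarith))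
        fun t ht => ⟨e2 none t ht, by rw [one_mul]; rfl⟩
    · refine (hS S (Icc (N j) (2 * N j)) (c j) (2 * N j) u (e1 (some j)).1
        (Icc_subset_Icc_left (hN j).1) (hc j)).mono (lam := 1) zero_le_one zero_le_one
        (by rw [one_mul]; exact Real.one_le_rpow h1 hg.le)
        fun t ht => ⟨e2 (some j) t ht, by rw [one_mul]; rfl⟩
  obtain ⟨S₀, s1, s2, s3⟩ := hx (fun _ _ => True) τ 0 (1 / 2 - η) 0 b' T L' S φ hτ (by linarith)
    le_rfl le_rfl (by rintro (_ | j); exacts [⟨hb0, hb1⟩, hb j]) hE.toX hT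
    (hT'.trans (mono (by linarith))) e1 hST e2 e3 fun _ _ _ _ _ _ => trivial
  have e4 : ∀ t ∈ S, ∏ o, φ o t ≤ x ^ (1 / 2 - η + (2 * k + 2) * ε) := fun t ht => by
    calc ∏ o, φ o t ≤ ∏ o, x ^ (b' o / 2 + 2 * g) :=
          prod_le_prod (fun o _ => e2 o t ht) fun o _ =>
            ((e3 o).le (by positivity) ht).trans (pt_GridI h1 h2 (e1 o).2)
      _ = x ^ (∑ o, (b' o / 2 + 2 * g)) := (Real.rpow_sum_of_pos h0 _ _).symm
      _ ≤ _ := by
        refine mono ?_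
        rw [sum_add_distrib, sum_const, card_univ, Fintype.card_option, nsmul_eq_mul]
        push_cast
        have := hE.total hτ
        nlinarith
  have e5 : ∑ t ∈ S, ∏ o, φ o t ≤ 3 * x ^ (1 / 2 - 3 * η / 4) := by
    rw [← sum_sdiff s1]
    have a1 : ∑ t ∈ S₀, ∏ o, φ o t ≤ x ^ (1 / 2 - 3 * η / 4) := by
      calc ∑ t ∈ S₀, ∏ o, φ o t ≤ S₀.card • x ^ (1 / 2 - η + (2 * k + 2) * ε) :=
            sum_le_card_nsmul _ _ _ fun t ht => e4 t (s1 ht)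
        _ ≤ x ^ (0 + ε) * x ^ (1 / 2 - η + (2 * k + 2) * ε) := by
            rw [nsmul_eq_mul]
            gcongr
        _ ≤ _ := by
            rw [← Real.rpow_add h0]
            exact mono (by linarith)
    have a2 : x ^ (1 / 2 - η - 0 * 0 + ε) ≤ x ^ (1 / 2 - 3 * η / 4) := mono (by nlinarith)
    have a3 : 1 ≤ x ^ (1 / 2 - 3 * η / 4) := Real.one_le_rpow h1 (by linarith)
    linarith
  have e6 : ∀ t : ℤ, Y t * ∏ j, ‖BP (N j) (c j) (u + t)‖ =
      (√y * ∏ j, √((2 * N j : ℕ) : ℝ)) * ∏ o, φ o t := fun t => by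
    rw [Fintype.prod_option, mul_mul_mul_comm, ← prod_mul_distrib]
    simp only [hφ, Option.elim]
    rw [mul_div_cancel₀ _ hy0.ne']
    congr 1
    refine prod_congr rfl fun j _ => (mul_div_cancel₀ _ (Real.sqrt_pos.2 ?_).ne').symm
    have := (hN j).1
    exact_mod_cast (by omega : 0 < 2 * N j)
  simp only [e6]
  rw [← mul_sum]
  calc (√y * ∏ j, √((2 * N j : ℕ) : ℝ)) * ∑ t ∈ S, ∏ o, φ o t
      ≤ (√(8 * 2 ^ k) * √x) * (3 * x ^ (1 / 2 - 3 * η / 4)) :=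
        mul_le_mul (norm_GridI N hy hyN) e5
          (sum_nonneg fun t ht => prod_nonneg fun o _ => e2 o t ht) (by positivity)
    _ = (3 * √(8 * 2 ^ k)) * (x ^ (1 / 2 : ℝ) * x ^ (1 / 2 - 3 * η / 4)) := by
        rw [Real.sqrt_eq_rpow x]
        ring
    _ ≤ x ^ (η / 4) * (x ^ (1 / 2 : ℝ) * x ^ (1 / 2 - 3 * η / 4)) := by gcongr
    _ = _ := by
        rw [← Real.rpow_add h0, ← Real.rpow_add h0]
        ring_nf

end Pool.Agent.MP_c853c5_nt.E

end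

section

/-!
Type I on a grid, for abstract slots and an extra constraint.
-/

set_option autoImplicit false

open Finset Filter

namespace Pool.Agent.MP_c853c5_nt.E

open Pool.Agent.MP_2a1f0e_nt Pool.Agent.MP_2a1f0e_nt.GM Pool.Agent.MP_2a1f0e_nt.DH

theorem gridG (hC : CoreStmt) (ι : Type) [Fintype ι] (K : ℕ) (C : ℝ) {η : ℝ} (hη : 0 < η)
    (hη' : η ≤ 1 / 10) : ∃ γ : ℝ, 0 < γ ∧ ∀ᶠ x : ℝ in atTop,
    ∀ (X : ℝ → (ι → ℝ) → Prop) (τ : ℝ) (b y : ι → ℝ) (T : ℕ) (L : ι → ℕ) (S : Finset ℤ)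
      (Y : ι → ℤ → ℝ), 0 ≤ τ → τ ≤ 1 / 2 → (∀ j, 0 ≤ b j ∧ b j ≤ 1) →
      EvalX X K τ 0 (1 / 2 - η) b → (∀ r v g, 0 ≤ g → X r v → X (r + g) fun j => v j - g) →
      1 ≤ T → (T : ℝ) ≤ x ^ (τ + γ) → (∀ j, 1 ≤ L j ∧ (L j : ℝ) ≤ x ^ (b j + γ)) →
      (∀ j, 0 < y j) → ∏ j, y j ≤ C * x → S ⊆ Icc 0 (T : ℤ) → (∀ j, ∀ m ∈ S, 0 ≤ Y j m) →
      (∀ j, Dom S (fun m => Y j m / √(y j)) (L j) (x ^ γ)) →
      (∀ (W : Finset ℤ) (r : ℝ) (v : ι → ℝ), W ⊆ S → (∀ j, ∀ t ∈ W, x ^ v j ≤ Y j t / √(y j)) →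
        x ^ (r + γ) ≤ W.card → X r v) →
      ∑ m ∈ S, ∏ j, Y j m ≤ x ^ (1 - η / 2) := by
  classical
  set k : ℕ := Fintype.card ι with hk
  have hk0 : (0 : ℝ) ≤ k := Nat.cast_nonneg _
  set ε : ℝ := η / (8 * (k + 2)) with hε
  have hε0 : 0 < ε := by positivity
  have hε1 : (3 * k + 3) * ε ≤ η / 2 - η / 8 := by
    rw [hε, ← mul_div_assoc, div_le_iff₀ (by positivity)]
    nlinarith
  obtain ⟨g, hg, hgε, hev⟩ := hC ι K ε hε0
  refine ⟨g, hg, ?_⟩
  filter_upwards [hev, eventually_gt_atTop 1, ev_const_le 2 (half_pos hg),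
    ev_const_le (3 * √C) (show 0 < η / 8 by linarith)] with x hx h1' h2 h3
  intro X τ b y T L S Y hτ hτ' hb hE hX hT hT' hL hy hyN hST hY hD hH
  have h1 := h1'.le
  have h0 : 0 < x := by linarith
  have hy0 : ∀ j, 0 < √(y j) := fun j => Real.sqrt_pos.2 (hy j)
  have mono : ∀ {a a' : ℝ}, a ≤ a' → x ^ a ≤ x ^ a' := fun h => Real.rpow_le_rpow_of_exponent_le h1 h
  set φ : ι → ℤ → ℝ := fun j m => Y j m / √(y j) with hφ
  have e2 : ∀ o, ∀ t ∈ S, 0 ≤ φ o t := fun j t ht => div_nonneg (hY j t ht) (hy0 j).le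
  obtain ⟨S₀, s1, s2, s3⟩ := hx X τ 0 (1 / 2 - η) 0 b T L S φ hτ (by linarith)
    le_rfl le_rfl hb hE hT hT' hL hST e2 hD hH
  have e4 : ∀ t ∈ S, ∏ o, φ o t ≤ x ^ (1 / 2 - η + 2 * k * ε) := fun t ht => by
    by_cases hz : ∃ o, φ o t = 0
    · obtain ⟨o, ho⟩ := hz
      rw [prod_eq_zero (mem_univ o) ho]
      positivity
    have hp : ∀ o, 0 < φ o t := fun o => (e2 o t ht).lt_of_ne fun h => hz ⟨o, h.symm⟩
    have e0 : ∀ o, x ^ Real.logb x (φ o t) = φ o t := fun o => Real.rpow_logb h0 h1'.ne' (hp o)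
    have a1 : ∀ o, Real.logb x (φ o t) ≤ b o / 2 + 2 * g := fun o =>
      (Real.logb_le_iff_le_rpow h1' (hp o)).2
        (((hD o).le (by positivity) ht).trans (pt_GridI h1 h2 (hL o).2))
    have a2 := hX _ _ (2 * g) (by linarith) (hH {t} (-(2 * g)) (fun o => Real.logb x (φ o t))
      (singleton_subset_iff.2 ht) (fun o s hs => by rw [mem_singleton.1 hs]; exact (e0 o).le)
      (by
        rw [card_singleton, Nat.cast_one]
        exact Real.rpow_le_one_of_one_le_of_nonpos h1 (by linarith)))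
    rw [neg_add_cancel] at a2
    have a3 := hE 0 (fun o => Real.logb x (φ o t) - 2 * g) le_rfl hτ (fun o => by linarith [a1 o])
      (fun κ _ => Con.zero (by
        rw [sum_div]
        refine sum_le_sum fun o _ => ?_
        rw [mul_div_assoc]
        exact mul_le_mul_of_nonneg_left (by linarith [a1 o]) (Nat.cast_nonneg _))) a2
    rw [sum_sub_distrib, sum_const, card_univ, nsmul_eq_mul] at a3
    rw [← prod_congr rfl fun o _ => e0 o, ← Real.rpow_sum_of_pos h0]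
    exact mono (by nlinarith)
  have e5 : ∑ t ∈ S, ∏ o, φ o t ≤ 3 * x ^ (1 / 2 - 5 * η / 8) := by
    rw [← sum_sdiff s1]
    have a1 : ∑ t ∈ S₀, ∏ o, φ o t ≤ x ^ (1 / 2 - 5 * η / 8) := by
      calc ∑ t ∈ S₀, ∏ o, φ o t ≤ S₀.card • x ^ (1 / 2 - η + 2 * k * ε) :=
            sum_le_card_nsmul _ _ _ fun t ht => e4 t (s1 ht)
        _ ≤ x ^ (0 + ε) * x ^ (1 / 2 - η + 2 * k * ε) := by
            rw [nsmul_eq_mul]
            gcongr
        _ ≤ _ := by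
            rw [← Real.rpow_add h0]
            exact mono (by nlinarith)
    have a2 : x ^ (1 / 2 - η - 0 * 0 + ε) ≤ x ^ (1 / 2 - 5 * η / 8) := mono (by nlinarith)
    have a3 : 1 ≤ x ^ (1 / 2 - 5 * η / 8) := Real.one_le_rpow h1 (by linarith)
    linarith
  have e6 : ∀ t : ℤ, ∏ j, Y j t = (∏ j, √(y j)) * ∏ o, φ o t := fun t => by
    rw [← prod_mul_distrib]
    exact prod_congr rfl fun j _ => (mul_div_cancel₀ _ (hy0 j).ne').symm
  have e7 : ∏ j, √(y j) ≤ √C * √x := by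
    rw [← Real.sqrt_prod _ fun j _ => (hy j).le, mul_comm, ← Real.sqrt_mul h0.le, mul_comm]
    exact Real.sqrt_le_sqrt hyN
  simp only [e6]
  rw [← mul_sum]
  calc (∏ j, √(y j)) * ∑ t ∈ S, ∏ o, φ o t ≤ (√C * √x) * (3 * x ^ (1 / 2 - 5 * η / 8)) :=
        mul_le_mul e7 e5 (sum_nonneg fun t ht => prod_nonneg fun o _ => e2 o t ht) (by positivity)
    _ = (3 * √C) * (x ^ (1 / 2 : ℝ) * x ^ (1 / 2 - 5 * η / 8)) := by
        rw [Real.sqrt_eq_rpow x]
        ring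
    _ ≤ x ^ (η / 8) * (x ^ (1 / 2 : ℝ) * x ^ (1 / 2 - 5 * η / 8)) := by gcongr
    _ = _ := by
        rw [← Real.rpow_add h0, ← Real.rpow_add h0]
        ring_nf

end Pool.Agent.MP_c853c5_nt.E

end

section

/-!
Type I for one box, with any number of smooth slots and an extra constraint.
-/

set_option autoImplicit false

open Finset Filter

namespace Pool.Agent.MP_c853c5_nt.E

open Pool.Agent.MP_2a1f0e_nt Pool.Agent.MP_2a1f0e_nt.GM Pool.Agent.MP_2a1f0e_nt.DH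

/-- an extra constraint that holds on level sets; the slots in `σ` are smooth -/
structure Hk (σ ι : Type) (X : ℝ → (σ ⊕ ι → ℝ) → ℝ → (σ ⊕ ι → ℝ) → Prop) : Prop where
  shift : ∀ τ b r v g, 0 ≤ g → X τ b r v → X τ b (r + g) fun j => v j - g
  mono : ∀ τ τ' b b' r v, τ ≤ τ' → (∀ j, b j ≤ b' j) → X τ b r v → X τ' b' r v
  hook : ∀ δ ε : ℝ, 0 < δ → δ ≤ 1 / 10 → 0 < ε → ∃ γ : ℝ, 0 < γ ∧ ∀ᶠ x : ℝ in atTop,
    ∀ (τ u : ℝ) (b : σ ⊕ ι → ℝ) (y : σ → ℝ) (T : ℕ) (L : σ ⊕ ι → ℕ) (S : Finset ℤ)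
      (φ : σ ⊕ ι → ℤ → ℝ), 1 / 3 ≤ τ → τ ≤ 1 / 2 → (∀ j, 0 ≤ b j ∧ b j ≤ 1) →
      (∀ s, b (Sum.inl s) ≤ τ / 2) → 1 ≤ T → (T : ℝ) ≤ x ^ (τ + γ) →
      (∀ j, 1 ≤ L j ∧ (L j : ℝ) ≤ x ^ (b j + γ)) → S ⊆ Icc 0 (T : ℤ) →
      (∀ m ∈ S, x ^ δ ≤ u + m ∧ u + m ≤ x ^ τ * Real.log x ^ 3) →
      (∀ s, 5 ≤ y s ∧ y s ≤ 8 * x) →
      (∀ s m, φ (Sum.inl s) m = ‖ZS (y s) (u + m)‖ / √(y s)) → (∀ j, ∀ t ∈ S, 0 ≤ φ j t) →
      (∀ j, Dom S (φ j) (L j) (x ^ γ)) →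
      ∀ (W : Finset ℤ) (r : ℝ) (v : σ ⊕ ι → ℝ), W ⊆ S → (∀ j, ∀ t ∈ W, x ^ v j ≤ φ j t) →
        x ^ (r + ε) ≤ W.card → X τ b r v

lemma Hk.triv (σ ι : Type) : Hk σ ι fun _ _ _ _ => True :=
  ⟨fun _ _ _ _ _ _ _ => trivial, fun _ _ _ _ _ _ _ _ _ => trivial,
    fun _ _ _ _ _ => ⟨1, one_pos, Eventually.of_forall (by intros; trivial)⟩⟩

lemma win_BoxG {δ γ : ℝ} (hδ : δ ≤ 1 / 10) (hγ : 0 < γ) : ∀ᶠ x : ℝ in atTop, ∀ τ : ℝ,
    1 / 3 ≤ τ → ∃ T : ℕ, 1 ≤ T ∧ (T : ℝ) ≤ x ^ (τ + γ) ∧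
      x ^ δ ≤ x ^ τ * Real.log x ^ 3 ∧ x ^ τ * Real.log x ^ 3 - x ^ δ ≤ T := by
  filter_upwards [ev_log_le 2 3 hγ, ev_le_log 1, eventually_ge_atTop 1] with x h1 h3 h4 τ a1
  have x0 : 0 < x := by linarith
  have b1 : 1 ≤ Real.log x ^ 3 := one_le_pow₀ h3
  have b2 : 1 ≤ x ^ τ := Real.one_le_rpow h4 (by linarith)
  have b3 : 1 ≤ x ^ τ * Real.log x ^ 3 := one_le_mul_of_one_le_of_one_le b2 b1
  refine ⟨⌈x ^ τ * Real.log x ^ 3⌉₊, Nat.ceil_pos.2 (by linarith), ?_, ?_, ?_⟩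
  · have := Nat.ceil_lt_add_one (zero_le_one.trans b3)
    rw [Real.rpow_add x0]
    nlinarith
  · exact (Real.rpow_le_rpow_of_exponent_le h4 (by linarith)).trans
      (le_mul_of_one_le_right (by linarith) b1)
  · linarith [Nat.le_ceil (x ^ τ * Real.log x ^ 3), Real.rpow_nonneg x0.le δ]

/-- the supports -/
noncomputable def sG {σ ι : Type} (y : σ → ℝ) (N : ι → ℕ) : σ ⊕ ι → Finset ℕ :=
  Sum.elim (fun s => Ioc ⌊y s⌋₊ (2 * ⌊y s⌋₊)) fun j => Icc (N j) (2 * N j)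

lemma card_sG {σ ι : Type} [Fintype σ] [Fintype ι] {y : σ → ℝ} {N : ι → ℕ} (hy : ∀ s, 0 ≤ y s)
    (hN : ∀ j, 1 ≤ N j) : ∏ o, ((sG y N o).card : ℝ) ≤
      2 ^ Fintype.card ι * ((∏ s, y s) * ∏ j, (N j : ℝ)) := by
  rw [Fintype.prod_sum_type, mul_left_comm]
  refine mul_le_mul (prod_le_prod (fun _ _ => Nat.cast_nonneg _) fun s _ => ?_) ?_
    (prod_nonneg fun _ _ => Nat.cast_nonneg _) (prod_nonneg fun s _ => hy s)
  · simp only [sG, Sum.elim_inl]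
    rw [Nat.card_Ioc, show 2 * ⌊y s⌋₊ - ⌊y s⌋₊ = ⌊y s⌋₊ by omega]
    exact Nat.floor_le (hy s)
  · refine (prod_le_prod (fun _ _ => Nat.cast_nonneg _) fun j _ => card_blk_le (hN j)).trans_eq ?_
    rw [prod_mul_distrib, prod_const, card_univ]

theorem boxG (hC : CoreStmt) (hS : SelfStmt) (hA : AvStmt) (hI : GrdStmt) (hT : TbStmt)
    (σ ι : Type) [Fintype σ] [Fintype ι] [DecidableEq σ] [DecidableEq ι]
    {X : ℝ → (σ ⊕ ι → ℝ) → ℝ → (σ ⊕ ι → ℝ) → Prop} (hX : Hk σ ι X) (K : ℕ) {η δ : ℝ}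
    (hη : 0 < η) (hη' : η ≤ 1 / 10) (hδ : 0 < δ) (hδ' : δ ≤ 1 / 10) :
    ∃ γ : ℝ, 0 < γ ∧ ∀ᶠ x : ℝ in atTop,
    ∀ (τ v Δ Δ₀ : ℝ) (y a : σ → ℝ) (b : ι → ℝ) (N : ι → ℕ) (c : ι → ℕ → ℝ),
      1 / 3 ≤ τ → τ ≤ 1 / 2 → Wd x τ δ Δ Δ₀ → (∀ j, 0 ≤ b j ∧ b j ≤ 1) →
      EvalX (X τ (Sum.elim (fun s => av τ (a s)) b)) K τ 0 (1 / 2 - η)
        (Sum.elim (fun s => av τ (a s)) b) →
      (∀ j, 1 ≤ N j ∧ (N j : ℝ) ≤ x ^ (b j + γ)) →
      (∀ s, 5 ≤ y s ∧ x ^ (a s - γ) ≤ y s ∧ y s ≤ x ^ (a s + γ)) →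
      (∏ s, y s) * ∏ j, (N j : ℝ) ≤ 8 * x → (∀ j n, |c j n| ≤ 1) →
      |PhiS v Δ Δ₀ (sG y N) (Sum.elim (fun s => oc (y s)) c)| ≤
        x ^ (1 - η / 2) + x ^ (1 - δ / 2) := by
  obtain ⟨g₁, hg₁, hG⟩ := gridG hC (σ ⊕ ι) K (2 ^ Fintype.card ι * 8) hη hη'
  obtain ⟨g₂, hg₂, hH⟩ := hX.hook δ g₁ hδ hδ' hg₁
  obtain ⟨γ, hγ, γ1, γ2⟩ : ∃ γ : ℝ, 0 < γ ∧ γ ≤ g₁ ∧ γ ≤ g₂ :=
    ⟨min g₁ g₂, lt_min hg₁ hg₂, min_le_left _ _, min_le_right _ _⟩
  refine ⟨γ / 4, by positivity, ?_⟩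
  filter_upwards [hG, hH, hA δ γ hδ hγ, hT δ hδ hδ', win_BoxG hδ' hγ,
    ev_le_log (2 ^ Fintype.card ι * 8), ev_const_le 2 (half_pos hγ), eventually_ge_atTop 1] with
    x hG hH hA hT hW l1 l2 x1 τ v Δ Δ₀ y a b N c a1 a2 a3 a4 a5 a6 a7 a10 a11
  have x0 : 0 < x := by linarith
  have mono : ∀ {a a' : ℝ}, a ≤ a' → x ^ a ≤ x ^ a' := fun h => Real.rpow_le_rpow_of_exponent_le x1 h
  obtain ⟨T, t1, t2, t3, t4⟩ := hW τ a1
  have p1 : 1 ≤ ∏ j, (N j : ℝ) := by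
    exact_mod_cast one_le_prod' fun j _ => (a6 j).1
  have y1 : ∀ s, 1 ≤ y s := fun s => by linarith [(a7 s).1]
  have y8 : ∀ s, y s ≤ 8 * x := fun s => by
    refine le_trans ?_ ((le_mul_of_one_le_right (prod_nonneg fun s _ => by linarith [y1 s])
      p1).trans a10)
    rw [← mul_prod_erase _ _ (mem_univ s)]
    exact le_mul_of_one_le_right (by linarith [y1 s]) (one_le_prod fun s _ => y1 s)
  choose L s1 s2 s3 using fun s => hA τ (a s) (y s) a1 a2 (a7 s).1 (y8 s) (a7 s).2.1 (a7 s).2.2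
  set b' : σ ⊕ ι → ℝ := Sum.elim (fun s => av τ (a s)) b with hb'
  set L' : σ ⊕ ι → ℕ := Sum.elim L fun j => 2 * N j with hL'
  set y' : σ ⊕ ι → ℝ := Sum.elim y fun j => ((2 * N j : ℕ) : ℝ) with hy'
  set c' : σ ⊕ ι → ℕ → ℝ := Sum.elim (fun s => oc (y s)) c with hc'
  have τ2 : ∀ s, b' (Sum.inl s) ≤ τ / 2 := fun s => av_le (by linarith) _
  have e0 : ∀ o, 0 ≤ b' o ∧ b' o ≤ 1 := by
    rintro (s | j)
    exacts [⟨av_nonneg _ _, (τ2 s).trans (by linarith)⟩, a4 j]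
  have e1 : ∀ o, 1 ≤ L' o ∧ (L' o : ℝ) ≤ x ^ (b' o + γ) := by
    rintro (s | j)
    · exact ⟨s1 s, s2 s⟩
    · refine ⟨by have := (a6 j).1; simp only [hL', Sum.elim_inr]; omega, ?_⟩
      simp only [hL', hb', Sum.elim_inr]
      push_cast
      calc (2 : ℝ) * N j ≤ x ^ (γ / 2) * x ^ (b j + γ / 4) := by
            have := (a6 j).2
            gcongr
        _ ≤ _ := by
          rw [← Real.rpow_add x0]
          exact mono (by linarith)
  have e2 : ∀ o, 0 < y' o := by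
    rintro (s | j)
    · exact one_pos.trans_le (y1 s)
    · have := (a6 j).1
      simp only [hy', Sum.elim_inr]
      exact_mod_cast (by omega : 0 < 2 * N j)
  have e3 : ∏ o, y' o ≤ 2 ^ Fintype.card ι * 8 * x := by
    rw [Fintype.prod_sum_type]
    simp only [hy', Sum.elim_inl, Sum.elim_inr]
    push_cast
    rw [prod_mul_distrib, prod_const, card_univ, mul_left_comm, mul_assoc]
    gcongr
  have b1 := hI (fun t => ∏ o, ‖FP (sG y N o) (c' o) t‖) _ _ (x ^ (1 - η / 2)) T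
    (continuous_finsetProd _ fun o _ => (continuous_FP _ _).norm)
    (fun t => prod_nonneg fun _ _ => norm_nonneg _) t3 t4 fun u S hST hm => by
      have d1 : ∀ o, Dom S (fun m => ‖FP (sG y N o) (c' o) (u + m)‖ / √(y' o)) (L' o) (x ^ γ) := by
        rintro (s | j)
        · exact s3 s u S fun m h => by
            rw [abs_of_nonneg ((Real.rpow_nonneg x0.le δ).trans (hm m h).1)]
            exact hm m h
        · exact (hS S (Icc (N j) (2 * N j)) (c j) (2 * N j) u (e1 (Sum.inr j)).1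
            (Icc_subset_Icc_left (a6 j).1) (a11 j)).mono (lam := 1) zero_le_one zero_le_one
            (by rw [one_mul]; exact Real.one_le_rpow x1 hγ.le)
            fun t ht => ⟨by positivity, by rw [one_mul]; rfl⟩
      have d2 : ∀ {g : ℝ}, γ ≤ g → ∀ o, Dom S (fun m => ‖FP (sG y N o) (c' o) (u + m)‖ / √(y' o))
          (L' o) (x ^ g) := fun h o => (d1 o).mono (lam := 1) (by positivity) zero_le_one
            (by rw [one_mul]; exact mono h) fun t ht => ⟨by positivity, by rw [one_mul]⟩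
      exact hG (X τ b') τ b' y' T L' S (fun o m => ‖FP (sG y N o) (c' o) (u + m)‖) (by linarith) a2
        e0 a5 (hX.shift τ b') t1 (t2.trans (mono (by linarith)))
        (fun o => ⟨(e1 o).1, (e1 o).2.trans (mono (by linarith))⟩) e2 e3 hST
        (fun _ _ _ => norm_nonneg _) (d2 γ1)
        (hH τ u b' y T L' S _ a1 a2 e0 τ2 t1 (t2.trans (mono (by linarith)))
          (fun o => ⟨(e1 o).1, (e1 o).2.trans (mono (by linarith))⟩) hST hm
          (fun s => ⟨(a7 s).1, y8 s⟩) (fun _ _ => rfl) (fun _ _ _ => by positivity) (d2 γ2))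
  refine hT (σ ⊕ ι) τ v Δ Δ₀ (x ^ (1 - η / 2)) _ _ a1 a2 a3 (fun o h => ?_) (fun o n => ?_) ?_ b1
  · rcases o with s | j
    · exact Nat.not_lt_zero _ (mem_Ioc.1 h).1
    · have := (a6 j).1
      have := (mem_Icc.1 h).1
      omega
  · rcases o with s | j
    exacts [abs_oc_le (y s) n, a11 j n]
  · refine (card_sG (fun s => by linarith [y1 s]) fun j => (a6 j).1).trans ?_
    calc _ ≤ 2 ^ Fintype.card ι * (8 * x) := by gcongr
      _ = x * (2 ^ Fintype.card ι * 8) := by ring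
      _ ≤ _ := by gcongr

end Pool.Agent.MP_c853c5_nt.E

end

section

/-!
Type I for a dyadic box with any number of smooth factors.
-/

set_option autoImplicit false

open Finset Filter

namespace Pool.Agent.MP_c853c5_nt.E

open Pool.Agent.MP_c853c5_nt.S

/-- type I with smooth factors indexed by `σ` and the extra constraint `X` -/
def E1DG (σ ι : Type) [Fintype σ] [Fintype ι]
    (X : ℝ → (σ ⊕ ι → ℝ) → ℝ → (σ ⊕ ι → ℝ) → Prop) (K : ℕ) : Prop :=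
  ∀ τ t η : ℝ, 1 / 3 ≤ t → t < τ → τ ≤ 1 / 2 → 0 < η → η ≤ 1 / 1000 →
    ∃ γ : ℝ, 0 < γ ∧ ∀ᶠ x : ℝ in atTop,
    ∀ (a : ι → ℝ) (b : σ → ℝ) (N : ι → ℕ) (g : ι → AF) (d : ℕ) (y : σ → ℝ),
      (∀ i, 0 ≤ a i ∧ a i ≤ 1) → (∀ s, 1 / 10 ≤ b s) →
      EvalX (X τ (Sum.elim (fun s => av τ (b s)) a)) K τ 0 (1 / 2 - η)
        (Sum.elim (fun s => av τ (b s)) a) →
      (∀ i, Slot (N i) (g i)) → (∀ i, (N i : ℝ) ≤ x ^ (a i + γ)) →
      (∀ s, x ^ (b s - (τ - t) / 2) ≤ y s ∧ y s ≤ x ^ (b s + γ)) → 1 ≤ d →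
      (d : ℝ) * (∏ i, (N i : ℝ)) * ∏ s, y s ≤ 2 * x →
      |Dl t x (sgl d * (∏ i, g i) * ∏ s, omz (y s))| ≤ x ^ (1 - η / 5)

lemma Hk.anti {σ ι : Type} [Fintype σ] [Fintype ι]
    {X : ℝ → (σ ⊕ ι → ℝ) → ℝ → (σ ⊕ ι → ℝ) → Prop} (hX : Hk σ ι X) {K : ℕ} {τ τ' s : ℝ}
    {b b' : σ ⊕ ι → ℝ} (h : EvalX (X τ' b') K τ' 0 s b') (hτ : τ ≤ τ') (hb : ∀ j, b j ≤ b' j) :
    EvalX (X τ b) K τ 0 s b := fun r v h0 h1 h2 h3 h4 =>
  h r v h0 (h1.trans hτ) (fun j => by linarith [h2 j, hb j])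
    (fun κ hκ => (S.con_tau (h3 κ hκ) hτ (h0.trans h1)).mono
      (sum_le_sum fun j _ => mul_le_mul_of_nonneg_left (hb j) (Nat.cast_nonneg _)))
    (hX.mono _ _ _ _ _ _ hτ hb h4)

theorem e1dG (hC : CoreStmt) (hS : SelfStmt) (hA : AvStmt) (hI : GrdStmt) (hT : TbStmt)
    (σ ι : Type) [Fintype σ] [Fintype ι] {X : ℝ → (σ ⊕ ι → ℝ) → ℝ → (σ ⊕ ι → ℝ) → Prop}
    (hX : Hk σ ι X) (K : ℕ) : E1DG σ ι X K := by
  intro τ t η ht htτ hτ hη hη'
  classical
  obtain ⟨γ, hγ, h⟩ := boxG hC hS hA hI hT σ ι hX K hη (show η ≤ 1 / 10 by linarith)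
    (show (0 : ℝ) < 1 / 2000 by norm_num) (by norm_num)
  refine ⟨γ, hγ, ?_⟩
  filter_upwards [h, dl_box (2 ^ Fintype.card ι * 2), wd_GlueI, eventually_gt_atTop 1,
    ev_const_le 5 (show (0 : ℝ) < 1 / 60 by norm_num),
    ev_const_le 3 (show 0 < η / 20 by positivity)]
    with x h1 h2 h3 hx h5 h6 a b N g d y ha hb hE hs hN hy hd hp
  have hx0 : 0 < x := by linarith
  have hy5 : ∀ s, 5 ≤ y s := fun s => h5.trans ((Real.rpow_le_rpow_of_exponent_le hx.le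
    (by linarith [hb s])).trans (hy s).1)
  have hy0 : ∀ s, 0 < y s := fun s => by linarith [hy5 s]
  have hd' : (1 : ℝ) ≤ d := by exact_mod_cast hd
  have hP : 0 ≤ ∏ i, (N i : ℝ) := prod_nonneg fun i _ => Nat.cast_nonneg _
  have hY : 0 ≤ ∏ s, y s := prod_nonneg fun s _ => (hy0 s).le
  have hp' : (∏ s, y s) * ∏ i, (N i : ℝ) ≤ 2 * x := by nlinarith [mul_nonneg hY hP]
  have e0 : ∀ s, x ^ Real.logb x (y s) = y s := fun s => Real.rpow_logb hx0 hx.ne' (hy0 s)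
  have l3 : ∀ s, b s - (τ - t) / 2 ≤ min (Real.logb x (y s)) (b s) := fun s =>
    le_min ((Real.le_logb_iff_rpow_le hx (hy0 s)).2 (hy s).1) (by linarith)
  have key := h1 t (Real.log x - Real.log d) _ _ y (fun s => min (Real.logb x (y s)) (b s)) a N
    (fun i => g i) ht (by linarith) (h3 t ht) ha
    (hX.anti hE htτ.le (by
      rintro (s | i)
      · exact max_le_max le_rfl (min_le_min (min_le_right _ _) (by linarith [l3 s]))
      · exact le_rfl))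
    (fun j => ⟨(hs j).1, hN j⟩)
    (fun s => ⟨hy5 s, le_trans (Real.rpow_le_rpow_of_exponent_le hx.le
      (by linarith [min_le_left (Real.logb x (y s)) (b s)])) (e0 s).le, by
        rcases le_total (Real.logb x (y s)) (b s) with h7 | h7
        · rw [min_eq_left h7]
          exact (e0 s).ge.trans (Real.rpow_le_rpow_of_exponent_le hx.le (by linarith))
        · rw [min_eq_right h7]
          exact (hy s).2⟩)
    (by linarith) fun j => (hs j).2.1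
  have win := h2 (σ ⊕ ι) t d (Sum.elim (fun s => omz (y s)) g) (sG y N) (by linarith)
    (by linarith) hd
    (by
      rintro (s | i) n
      exacts [abs_oc_le (y s) n, (hs i).2.1 n])
    (by
      rintro (s | i) n hn
      exacts [mem_of_oc_ne_zero (hy5 s) hn,
        mem_Icc.2 ⟨((hs i).2.2 n hn).1, ((hs i).2.2 n hn).2.le⟩])
    ((card_sG (fun s => (hy0 s).le) fun i => (hs i).1).trans (by
      rw [mul_assoc]
      gcongr))
  have e1 : (fun o : σ ⊕ ι => ((Sum.elim (fun s => omz (y s)) g o : AF) : ℕ → ℝ)) =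
      Sum.elim (fun s => oc (y s)) fun i => (g i : ℕ → ℝ) := by
    funext o
    cases o <;> rfl
  rw [e1, Fintype.prod_sum_type] at win
  simp only [Sum.elim_inl, Sum.elim_inr] at win
  rw [mul_assoc, mul_comm (∏ i, g i)]
  refine win.trans ((add_le_add key le_rfl).trans ?_)
  have f1 : x ^ (1 - η / 2) ≤ x ^ (1 - η / 4) :=
    Real.rpow_le_rpow_of_exponent_le hx.le (by linarith)
  have f2 : x ^ (1 - (1 / 2000 : ℝ) / 2) ≤ x ^ (1 - η / 4) :=
    Real.rpow_le_rpow_of_exponent_le hx.le (by linarith)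
  have f3 : 1 ≤ x ^ (1 - η / 4) := Real.one_le_rpow hx.le (by linarith)
  have f4 : x ^ (1 - η / 5) = x ^ (η / 20) * x ^ (1 - η / 4) := by
    rw [← Real.rpow_add hx0]
    congr 1
    ring
  rw [f4]
  nlinarith

end Pool.Agent.MP_c853c5_nt.E

end

section

/-!
Type I with two smooth factors.
-/

set_option autoImplicit false

open Finset Filter

namespace Pool.Agent.MP_c853c5_nt.E

lemma EvalX.equiv {ι ι' : Type} [Fintype ι] [Fintype ι'] (e : ι ≃ ι') {K : ℕ} {τ η s : ℝ}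
    {X : ℝ → (ι → ℝ) → Prop} {X' : ℝ → (ι' → ℝ) → Prop} {b : ι → ℝ} {b' : ι' → ℝ}
    (h : EvalX X' K τ η s b') (hb : ∀ j, b j = b' (e j))
    (hX : ∀ r v, X r v → X' r fun i => v (e.symm i)) : EvalX X K τ η s b := by
  intro r v h0 h1 h2 h3 h4
  have := h r (fun i => v (e.symm i)) h0 h1 (fun i => by simpa [hb] using h2 (e.symm i))
    (fun κ hκ => by
      rw [← e.sum_comp, ← e.sum_comp fun i => (κ i : ℝ) * v (e.symm i)]
      simpa [hb] using h3 (fun j => κ (e j)) fun j => hκ _) (hX r v h4)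
  rwa [e.symm.sum_comp] at this

/-- two smooth slots -/
def eq2 (ι : Type) : Bool ⊕ ι ≃ Option (Option ι) where
  toFun := Sum.elim (fun s => bif s then none else some none) fun i => some (some i)
  invFun := fun o => o.elim (Sum.inl true) fun o' => o'.elim (Sum.inl false) Sum.inr
  left_inv := by rintro ((_ | _) | i) <;> rfl
  right_inv := by rintro (_ | _ | i) <;> rfl

theorem e12d_of (hC : CoreStmt) (hS : SelfStmt) (hA : AvStmt) (hI : GrdStmt) (hT : TbStmt) :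
    S.E12D := by
  intro ι _ τ t η K ht htτ hτ hη hη'
  obtain ⟨γ, hγ, h⟩ := e1dG hC hS hA hI hT Bool ι (Hk.triv Bool ι) K τ t η ht htτ hτ hη hη'
  refine ⟨γ, hγ, h.mono fun x h a b1 b2 N g d y1 y2 ha _ _ hE hs hN l1 u1 l2 u2 _ _ hd hp => ?_⟩
  have := h a (fun s => bif s then b1 else b2) N g d (fun s => bif s then y1 else y2) ha
    (by rintro (_ | _); exacts [hE.2.1, hE.1])
    (EvalX.equiv (eq2 ι) (Eval.toX hE.2.2) (by rintro ((_ | _) | i) <;> rfl) fun _ _ h => h) hs hN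
    (by rintro (_ | _); exacts [⟨l2, u2⟩, ⟨l1, u1⟩]) hd
    (by rw [Fintype.prod_bool, ← mul_assoc]; exact hp)
  rwa [Fintype.prod_bool, ← mul_assoc] at this

end Pool.Agent.MP_c853c5_nt.E

end

section

/-!
The mixed moment as a constraint on level sets.
-/

set_option autoImplicit false

open Finset Filter

namespace Pool.Agent.MP_c853c5_nt.R

open Pool.Agent.MP_2a1f0e_nt Pool.Agent.MP_2a1f0e_nt.GM Pool.Agent.MP_2a1f0e_nt.DH
open Pool.Agent.MP_c853c5_nt.E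

lemma two_WHook {ι : Type} [Fintype ι] [DecidableEq ι] (κ : ι → ℕ) (i : ι) (f : ι → ℝ) :
    ∑ j, ((κ j + if j = i then 2 else 0 : ℕ) : ℝ) * f j = ∑ j, (κ j : ℝ) * f j + 2 * f i := by
  push_cast
  simp only [add_mul, sum_add_distrib, ite_mul, zero_mul, sum_ite_eq', mem_univ, if_true]

lemma cs_WHook {W : Finset ℤ} {G F : ℤ → ℝ} {A V D Ω : ℝ} (hW : 0 < (W.card : ℝ)) (hA : 0 ≤ A)
    (hV : 0 ≤ V) (h1 : W.card * A ≤ D * ∑ t ∈ W, F t) (h2 : ∀ t ∈ W, V ≤ G t)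
    (h3 : ∑ t ∈ W, G t ^ 4 * F t ^ 2 ≤ Ω) : W.card * (V ^ 4 * A ^ 2) ≤ D ^ 2 * Ω := by
  have h4 : V ^ 4 * ∑ t ∈ W, F t ^ 2 ≤ Ω := by
    rw [mul_sum]
    exact (sum_le_sum fun t ht => mul_le_mul_of_nonneg_right
      (pow_le_pow_left₀ hV (h2 t ht) 4) (sq_nonneg _)).trans h3
  refine le_of_mul_le_mul_left ?_ hW
  calc _ = V ^ 4 * (W.card * A) ^ 2 := by ring
    _ ≤ V ^ 4 * (D * ∑ t ∈ W, F t) ^ 2 := by gcongr
    _ = D ^ 2 * (V ^ 4 * (∑ t ∈ W, F t) ^ 2) := by ring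
    _ ≤ D ^ 2 * (V ^ 4 * (W.card * ∑ t ∈ W, F t ^ 2)) := by
        gcongr
        exact sq_sum_le_card_mul_sum_sq
    _ = W.card * (D ^ 2 * (V ^ 4 * ∑ t ∈ W, F t ^ 2)) := by ring
    _ ≤ _ := by gcongr

theorem hk_W (hM : WmStmt) (hP : ProdStmt) (hC : ConStmt) (σ ι : Type) [Fintype σ] [Fintype ι]
    (K : ℕ) : Hk σ ι fun τ b r v => ∀ s, XW K τ b (Sum.inl s) r v := by
  classical
  refine ⟨fun τ b r v g hg h s κ hκ => le_trans ?_ (h s κ hκ),
    fun τ τ' b b' r v hτ hb h s => (h s).mono hτ hb, fun δ ε hδ hδ' hε => ?_⟩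
  · have : ∑ j, (κ j : ℝ) * (v j - g) ≤ ∑ j, (κ j : ℝ) * v j := sum_le_sum fun j _ =>
      mul_le_mul_of_nonneg_left (by linarith) (Nat.cast_nonneg _)
    linarith
  obtain ⟨m, hm⟩ : ∃ m : ℝ, m = (Fintype.card (σ ⊕ ι) : ℝ) * K := ⟨_, rfl⟩
  have hm0 : 0 ≤ m := by rw [hm]; positivity
  obtain ⟨g₁, hg₁, hM⟩ := hM δ (ε / 4) hδ hδ' (by positivity)
  obtain ⟨g₂, hg₂, hC⟩ := hC (σ ⊕ ι) (K + 2) ε hε
  obtain ⟨g, hg, g1, g2, g3⟩ : ∃ g : ℝ, 0 < g ∧ g ≤ g₁ ∧ g ≤ g₂ ∧ g ≤ ε / 8 :=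
    ⟨min g₁ (min g₂ (ε / 8)), by positivity, min_le_left _ _,
      (min_le_right _ _).trans (min_le_left _ _), (min_le_right _ _).trans (min_le_right _ _)⟩
  obtain ⟨γ, hγ, hγg⟩ : ∃ γ : ℝ, 0 < γ ∧ (2 * m + 1) * γ = g :=
    ⟨g / (2 * m + 1), by positivity, by field_simp⟩
  have hmγ : 0 ≤ m * γ := by positivity
  obtain ⟨C, -, hD0⟩ := exists_DivB (ε := γ / 2 / (1 + g)) (by positivity)
  refine ⟨γ, hγ, ?_⟩
  filter_upwards [hM, hC, ev_const_le C (half_pos hγ), eventually_gt_atTop 1,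
    ev_const_le 2 (show 0 < ε / 4 by positivity)] with x hM hC hCx hx h2
  intro τ u b y T L S φ h0 h1 hb hb' hT hTx hL hS hm' hy hφ' hφ hD W r v hW hv hr s κ hκ
  have hx0 : 0 < x := by linarith
  have mono : ∀ {a a' : ℝ}, a ≤ a' → x ^ a ≤ x ^ a' := fun h =>
    Real.rpow_le_rpow_of_exponent_le hx.le h
  rcases le_total (τ / 2) (∑ j, (κ j : ℝ) * b j) with hn | hn
  · have := (hC τ b T L S φ (by linarith) (by linarith) hb hT (hTx.trans (mono (by linarith)))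
      (fun j => ⟨(hL j).1, (hL j).2.trans (mono (by linarith))⟩) hS hφ
      (fun j => (hD j).mono (lam := 1) (by positivity) zero_le_one
        (by rw [one_mul]; exact mono (by linarith)) fun t ht => ⟨hφ j t ht, by rw [one_mul]⟩)
      W r v hW hv hr (fun j => κ j + if j = Sum.inl s then 2 else 0) fun j => by
        have := hκ j
        split_ifs <;> omega).1
    rw [two_WHook, two_WHook] at this
    have h3 := max_le_max (le_refl τ) (show ∑ j, (κ j : ℝ) * b j + 2 * b (Sum.inl s) ≤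
      τ / 2 + 2 * ∑ j, (κ j : ℝ) * b j by linarith [hb' s])
    linarith
  have hk : ∑ j, (κ j : ℝ) ≤ m := by
    rw [hm, ← nsmul_eq_mul, ← card_univ]
    exact sum_le_card_nsmul _ _ _ fun j _ => by exact_mod_cast hκ j
  have hkγ : (∑ j, (κ j : ℝ)) * γ ≤ m * γ := mul_le_mul_of_nonneg_right hk hγ.le
  have hL1 : 1 ≤ ∏ j, L j ^ κ j := one_le_prod' fun j _ => Nat.one_le_pow _ _ (hL j).1
  have hLx : ((∏ j, L j ^ κ j : ℕ) : ℝ) ≤ x ^ (∑ j, (κ j : ℝ) * b j + g) := by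
    push_cast
    refine (prod_le_prod (fun j _ => by positivity) fun j _ =>
      pow_le_pow_left₀ (by positivity) (hL j).2 _).trans ?_
    rw [prod_ConL hx0]
    refine mono ?_
    simp only [mul_add, sum_add_distrib, ← sum_mul]
    linarith
  have hΔ : C * ((∏ j, L j ^ κ j : ℕ) : ℝ) ^ (γ / 2 / (1 + g)) ≤ x ^ γ := by
    have e1 : ((∏ j, L j ^ κ j : ℕ) : ℝ) ^ (γ / 2 / (1 + g)) ≤ x ^ (γ / 2) := by
      refine (Real.rpow_le_rpow (Nat.cast_nonneg _) (hLx.trans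
        (mono (show _ ≤ 1 + g by linarith))) (by positivity)).trans (le_of_eq ?_)
      rw [← Real.rpow_mul hx0.le]
      congr 1
      field_simp
    refine (mul_le_mul hCx e1 (by positivity) (by positivity)).trans (le_of_eq ?_)
    rw [← Real.rpow_add hx0, add_halves]
  obtain ⟨c, hc, hs⟩ := hP _ S W φ L κ (x ^ γ) (x ^ γ) hW (fun j => (hL j).1) (by positivity) hφ hD
    ⟨(hD0 _ hL1).1.trans hΔ, fun n hn => ((hD0 _ hL1).2 n hn).trans hΔ⟩
  have e1 : (W.card : ℝ) * x ^ (∑ j, (κ j : ℝ) * v j) ≤ ∑ t ∈ W, ∏ j, φ j t ^ κ j := by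
    rw [← nsmul_eq_mul, ← prod_ConL hx0]
    exact card_nsmul_le_sum _ _ _ fun t ht => prod_le_prod (fun j _ => by positivity) fun j _ =>
      pow_le_pow_left₀ (by positivity) (hv j t ht) _
  have e2 : (x ^ γ * x ^ γ) ^ (∑ j, κ j) ≤ x ^ g := by
    rw [← Real.rpow_add hx0, ← Real.rpow_natCast, ← Real.rpow_mul hx0.le]
    refine mono ?_
    push_cast
    linarith
  have e3 := (e1.trans hs).trans
    (mul_le_mul_of_nonneg_right e2 (sum_nonneg fun _ _ => norm_nonneg _))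
  have e4 := hM τ (y s) _ h0 h1 (hy s).1 (hy s).2 hL1 (hLx.trans (mono (by linarith))) u W c hc
    fun t ht => hm' t (hW ht)
  have e5 := cs_WHook (V := x ^ v (Sum.inl s)) ((Real.rpow_pos_of_pos hx0 _).trans_le hr)
    (by positivity) (by positivity) e3 (fun t ht => (hv _ t ht).trans_eq (hφ' s t)) e4
  have hΛ : (0 : ℝ) ≤ ((∏ j, L j ^ κ j : ℕ) : ℝ) := Nat.cast_nonneg _
  generalize ∑ j, (κ j : ℝ) * b j = n at *
  generalize ∑ j, (κ j : ℝ) * v j = w at *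
  generalize ((∏ j, L j ^ κ j : ℕ) : ℝ) = Λ at *
  set M := max τ (τ / 2 + 2 * n) with hM'
  have e6 : x ^ τ + x ^ (τ / 2) * Λ ^ 2 ≤ x ^ (ε / 4) * x ^ (M + 2 * g) := by
    have a1 : x ^ τ ≤ x ^ (M + 2 * g) := mono (by linarith [le_max_left τ (τ / 2 + 2 * n)])
    have a2 : x ^ (τ / 2) * Λ ^ 2 ≤ x ^ (M + 2 * g) := by
      refine (mul_le_mul_of_nonneg_left (pow_le_pow_left₀ hΛ hLx 2) (by positivity)).trans ?_
      rw [← Real.rpow_mul_natCast hx0.le, ← Real.rpow_add hx0]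
      exact mono (by push_cast; linarith [le_max_right τ (τ / 2 + 2 * n)])
    have a3 := mul_le_mul_of_nonneg_right h2 (Real.rpow_nonneg hx0.le (M + 2 * g))
    linarith
  have e7 : x ^ (r + ε) * ((x ^ v (Sum.inl s)) ^ 4 * (x ^ w) ^ 2) ≤
      (x ^ g) ^ 2 * (x ^ (ε / 4) * (x ^ (ε / 4) * x ^ (M + 2 * g))) :=
    ((mul_le_mul_of_nonneg_right hr (by positivity)).trans e5).trans (by gcongr)
  simp only [← Real.rpow_mul_natCast hx0.le, ← Real.rpow_add hx0,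
    Real.rpow_le_rpow_left_iff hx] at e7
  push_cast at e7
  linarith

lemma EvalW.toX {σ ι ι' : Type} [Fintype σ] [Fintype ι] [Fintype ι'] (e : σ ⊕ ι ≃ ι')
    {sm : ι' → Prop} {K : ℕ} {τ s : ℝ} {b : σ ⊕ ι → ℝ} {b' : ι' → ℝ} (h : EvalW sm K τ s b')
    (hb : ∀ j, b j = b' (e j)) (hs : ∀ i, sm i → ∃ s, i = e (Sum.inl s)) :
    EvalX (fun r v => ∀ s, XW K τ b (Sum.inl s) r v) K τ 0 s b := by
  refine EvalX.equiv (X' := fun r v => ∀ i, sm i → XW K τ b' i r v) e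
    (fun r v h0 h1 h2 h3 h4 => by simpa using h r v h0 h1 h2 h3 h4) hb
    fun r v h4 i hi κ hκ => ?_
  obtain ⟨s, rfl⟩ := hs i hi
  rw [← e.sum_comp, ← e.sum_comp fun i => (κ i : ℝ) * b' i]
  simpa [hb] using h4 s (fun j => κ (e j)) fun j => hκ _

/-- one smooth slot -/
def eq1 (ι : Type) : Unit ⊕ ι ≃ Option ι where
  toFun := Sum.elim (fun _ => none) some
  invFun := fun o => o.elim (Sum.inl ()) Sum.inr
  left_inv := by rintro (_ | i) <;> rfl
  right_inv := by rintro (_ | i) <;> rfl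

theorem e1dW_of (hM : WmStmt) (hP : ProdStmt) (hN : ConStmt) (hC : E.CoreStmt) (hS : SelfStmt)
    (hA : E.AvStmt) (hI : GrdStmt) (hT : TbStmt) : E1DW := by
  intro ι _ τ t η K ht htτ hτ hη hη'
  obtain ⟨γ, hγ, h⟩ := e1dG hC hS hA hI hT Unit ι (hk_W hM hP hN Unit ι K) K τ t η ht htτ hτ hη hη'
  refine ⟨γ, hγ, h.mono fun x h a b N g d y ha _ hE hs hN l u _ hd hp => ?_⟩
  have := h a (fun _ => b) N g d (fun _ => y) ha (fun _ => hE.1)
    (hE.2.toX (eq1 ι) (by rintro (_ | i) <;> rfl) fun i hi => ⟨(), hi⟩) hs hN (fun _ => ⟨l, u⟩) hd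
    (by rw [Fintype.prod_unique (ι := Unit)]; exact hp)
  rwa [Fintype.prod_unique (ι := Unit)] at this

theorem e12dW_of (hM : WmStmt) (hP : ProdStmt) (hN : ConStmt) (hC : E.CoreStmt) (hS : SelfStmt)
    (hA : E.AvStmt) (hI : GrdStmt) (hT : TbStmt) : E12DW := by
  intro ι _ τ t η K ht htτ hτ hη hη'
  obtain ⟨γ, hγ, h⟩ := e1dG hC hS hA hI hT Bool ι (hk_W hM hP hN Bool ι K) K τ t η ht htτ hτ hη hη'
  refine ⟨γ, hγ, h.mono fun x h a b1 b2 N g d y1 y2 ha _ _ hE hs hN l1 u1 l2 u2 _ _ hd hp => ?_⟩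
  have := h a (fun s => bif s then b1 else b2) N g d (fun s => bif s then y1 else y2) ha
    (by rintro (_ | _); exacts [hE.2.1, hE.1])
    (hE.2.2.toX (eq2 ι) (by rintro ((_ | _) | i) <;> rfl) (by
      rintro _ (rfl | rfl)
      exacts [⟨true, rfl⟩, ⟨false, rfl⟩])) hs hN
    (by rintro (_ | _); exacts [⟨l2, u2⟩, ⟨l1, u1⟩]) hd
    (by rw [Fintype.prod_bool, ← mul_assoc]; exact hp)
  rwa [Fintype.prod_bool, ← mul_assoc] at this

end Pool.Agent.MP_c853c5_nt.R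

end
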