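import Pool.Agent.Mg.C853.Ga88212
import Pool.Agent.Mg.C853.G1d2b90
import Pool.Agent.Mg.C853.G3c1b7b

/-!
The leaf with two sieved factors, without hypotheses.
-/

set_option autoImplicit false

namespace Pool.Agent.MP_c853c5_nt.S

open Pool.Agent.MP_c853c5_nt.E

theorem e12d_all : E12D := e12d_of core_all self_stmt av_stmt grd_stmt (tb_stmt tr_stmt)

theorem leafS2_all : LeafS2 := D2.leafS2 e1d_all e2d_all e12d_all

end Pool.Agent.MP_c853c5_nt.S
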