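import Pool.Agent.MP_c853c5_nt.Z.Basic
import Mathlib

section

set_option autoImplicit false

open Finset MeasureTheory Real
open ArithmeticFunction (vonMangoldt)

namespace Pool.Agent.MP_c853c5_nt.Z

/-- the wide Gaussian -/
noncomputable def hh_Sand (Δ z : ℝ) : ℝ := exp (-(π * z ^ 2 / (2 * Δ ^ 2)))

/-- the summable majorant -/
noncomputable def ww_Sand (n : ℕ) : ℝ := vonMangoldt n * exp (-(2 * log n))

variable {Δ : ℝ}

lemma gg_eq_Sand (Δ z : ℝ) : gg Δ z = Δ⁻¹ * (hh_Sand Δ z * hh_Sand Δ z) := by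
  rw [gg, hh_Sand, ← exp_add]
  congr 2
  ring

lemma gg_nonneg_Sand (h : 0 < Δ) (z : ℝ) : 0 ≤ gg Δ z := by unfold gg; positivity

lemma gg_le_Sand (h : 0 < Δ) {d z : ℝ} (hd : 0 ≤ d) (hz : d ≤ |z|) :
    gg Δ z ≤ Δ⁻¹ * (hh_Sand Δ d * hh_Sand Δ z) := by
  rw [gg_eq_Sand]
  refine mul_le_mul_of_nonneg_left (mul_le_mul_of_nonneg_right (exp_le_exp.2 (neg_le_neg ?_))
    (exp_nonneg _)) (by positivity)
  have : d ^ 2 ≤ z ^ 2 := sq_le_sq.2 (by rwa [abs_of_nonneg hd])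
  gcongr

lemma hh_le_Sand (h : 0 < Δ) (h1 : Δ ≤ 1) (z : ℝ) : hh_Sand Δ z ≤ exp (2 * z + 1) := by
  refine exp_le_exp.2 ?_
  have h2 : 3 * z ^ 2 / (2 * 1 ^ 2) ≤ π * z ^ 2 / (2 * Δ ^ 2) := by
    gcongr
    exact pi_gt_three.le
  nlinarith [sq_nonneg (3 * z + 2)]

lemma ww_summable_Sand : Summable ww_Sand := by
  refine Summable.of_nonneg_of_le (fun n => mul_nonneg ArithmeticFunction.vonMangoldt_nonneg
    (exp_nonneg _)) (fun n => ?_) ((summable_nat_rpow.2 (by norm_num : -3 / 2 < (-1 : ℝ))).mul_left 2)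
  rcases n.eq_zero_or_pos with rfl | hn
  · simp [ww_Sand]
  have h0 : (0 : ℝ) < n := by exact_mod_cast hn
  have h1 := ArithmeticFunction.vonMangoldt_le_log.trans
    (log_le_rpow_div h0.le (by norm_num : (0 : ℝ) < 1 / 2))
  refine (mul_le_mul_of_nonneg_right h1 (exp_nonneg _)).trans (le_of_eq ?_)
  rw [rpow_def_of_pos h0, rpow_def_of_pos h0, div_mul_eq_mul_div, ← exp_add,
    show log n * (1 / 2) + -(2 * log n) = log n * (-3 / 2) by ring]
  ring

lemma term_le_Sand (h : 0 < Δ) (h1 : Δ ≤ 1) {d v : ℝ} {n : ℕ} (hd : 0 ≤ d)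
    (hz : d ≤ |v - log n|) : vonMangoldt n * gg Δ (v - log n) ≤
      Δ⁻¹ * hh_Sand Δ d * exp (2 * v + 1) * ww_Sand n := by
  have h2 := (gg_le_Sand h hd hz).trans (mul_le_mul_of_nonneg_left
    (mul_le_mul_of_nonneg_left (hh_le_Sand h h1 _) (exp_nonneg _)) (by positivity))
  refine (mul_le_mul_of_nonneg_left h2 ArithmeticFunction.vonMangoldt_nonneg).trans (le_of_eq ?_)
  rw [show 2 * (v - log n) + 1 = 2 * v + 1 + -(2 * log n) by ring, exp_add, ww_Sand, hh_Sand]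
  ring

lemma summable_Sand (h : 0 < Δ) (h1 : Δ ≤ 1) (v : ℝ) :
    Summable fun n : ℕ => vonMangoldt n * gg Δ (v - log n) :=
  Summable.of_nonneg_of_le
    (fun _ => mul_nonneg ArithmeticFunction.vonMangoldt_nonneg (gg_nonneg_Sand h _))
    (fun _ => term_le_Sand h h1 le_rfl (abs_nonneg _)) (ww_summable_Sand.mul_left _)

lemma PP_le_Sand (h : 0 < Δ) (h1 : Δ ≤ 1) {d v : ℝ} (hd : 0 ≤ d) (S : Finset ℕ)
    (hS : ∀ n ∉ S, d ≤ |v - log n|) : PP Δ v ≤ ∑ n ∈ S, vonMangoldt n * gg Δ (v - log n) +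
      Δ⁻¹ * hh_Sand Δ d * exp (2 * v + 1) * ∑' n, ww_Sand n := by
  have h2 : HasSum (fun n : ℕ => if n ∈ S then vonMangoldt n * gg Δ (v - log n) else 0)
      (∑ n ∈ S, vonMangoldt n * gg Δ (v - log n)) := by
    rw [← sum_congr rfl fun n (hn : n ∈ S) => if_pos (e := (0 : ℝ)) hn]
    exact hasSum_sum_of_ne_finset_zero fun n hn => if_neg hn
  refine hasSum_le (fun n => ?_) (summable_Sand h h1 v).hasSum
    (h2.add (ww_summable_Sand.hasSum.mul_left _))
  split_ifs with hn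
  · exact le_add_of_nonneg_right (mul_nonneg (by unfold hh_Sand; positivity)
      (mul_nonneg ArithmeticFunction.vonMangoldt_nonneg (exp_nonneg _)))
  · rw [zero_add]
    exact term_le_Sand h h1 hd (hS n hn)

lemma gg_int_Sand (h : 0 < Δ) : Integrable (gg Δ) ∧ ∫ z, gg Δ z = 1 := by
  have e : gg Δ = fun z => Δ⁻¹ * exp (-(π / Δ ^ 2) * z ^ 2) := funext fun z => by
    rw [gg]
    congr 2
    ring
  rw [e]
  refine ⟨(integrable_exp_neg_mul_sq (by positivity)).const_mul _, ?_⟩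
  rw [integral_const_mul, integral_gaussian, div_div_cancel₀ pi_ne_zero, sqrt_sq h.le,
    inv_mul_cancel₀ h.ne']

lemma hh_int_Sand (h : 0 < Δ) : Integrable (hh_Sand Δ) ∧ ∫ z, hh_Sand Δ z ≤ 2 * Δ := by
  have e : hh_Sand Δ = fun z => exp (-(π / (2 * Δ ^ 2)) * z ^ 2) := funext fun z => by
    rw [hh_Sand]
    congr 1
    ring
  rw [e]
  refine ⟨integrable_exp_neg_mul_sq (by positivity), ?_⟩
  rw [integral_gaussian, div_div_cancel₀ pi_ne_zero]
  exact sqrt_le_iff.2 ⟨by positivity, by nlinarith⟩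

lemma int_le_Sand (h : 0 < Δ) {a b : ℝ} (hab : a ≤ b) (c : ℝ) :
    ∫ v in a..b, gg Δ (v - c) ≤ 1 := by
  rw [intervalIntegral.integral_comp_sub_right, intervalIntegral.integral_of_le (by linarith),
    ← (gg_int_Sand h).2]
  exact setIntegral_le_integral (gg_int_Sand h).1 (ae_of_all _ (gg_nonneg_Sand h))

lemma le_int_Sand (h : 0 < Δ) {a b c d : ℝ} (hd : 0 ≤ d) (ha : a + d ≤ c) (hb : c + d ≤ b) :
    1 - 2 * hh_Sand Δ d ≤ ∫ v in a..b, gg Δ (v - c) := by
  rw [intervalIntegral.integral_comp_sub_right, intervalIntegral.integral_of_le (by linarith),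
    ← integral_indicator measurableSet_Ioc]
  have i1 := (gg_int_Sand h).1.indicator (measurableSet_Ioc (a := a - c) (b := b - c))
  have i2 := ((hh_int_Sand h).1.const_mul (hh_Sand Δ d)).const_mul Δ⁻¹
  have h1 := integral_mono (gg_int_Sand h).1 (i1.add i2) fun z => by
    by_cases hz : z ∈ Set.Ioc (a - c) (b - c)
    · rw [Pi.add_apply, Set.indicator_of_mem hz]
      exact le_add_of_nonneg_right (by unfold hh_Sand; positivity)
    · rw [Pi.add_apply, Set.indicator_of_notMem hz, zero_add]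
      refine gg_le_Sand h hd (le_abs.2 ?_)
      rw [Set.mem_Ioc, not_and_or, not_lt, not_le] at hz
      exact hz.elim (fun hz => Or.inr (by linarith)) fun hz => Or.inl (by linarith)
  rw [(gg_int_Sand h).2, integral_add' i1 i2, integral_const_mul, integral_const_mul] at h1
  have h2 : Δ⁻¹ * (hh_Sand Δ d * ∫ z, hh_Sand Δ z) ≤ Δ⁻¹ * (hh_Sand Δ d * (2 * Δ)) :=
    mul_le_mul_of_nonneg_left (mul_le_mul_of_nonneg_left (hh_int_Sand h).2 (exp_nonneg _))
      (by positivity)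
  have h3 : Δ⁻¹ * (hh_Sand Δ d * (2 * Δ)) = 2 * hh_Sand Δ d := by field_simp
  linarith

lemma cont_Sand (Δ c k : ℝ) : Continuous fun v => k * gg Δ (v - c) := by
  unfold gg
  fun_prop

lemma int_sum_Sand (Δ a b : ℝ) (S : Finset ℕ) :
    ∫ v in a..b, ∑ n ∈ S, vonMangoldt n * gg Δ (v - log n) =
      ∑ n ∈ S, vonMangoldt n * ∫ v in a..b, gg Δ (v - log n) := by
  rw [intervalIntegral.integral_finsetSum fun n _ => (cont_Sand Δ _ _).intervalIntegrable a b]
  simp only [intervalIntegral.integral_const_mul]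

theorem sand : SandStmt := by
  obtain ⟨C, hC⟩ : ∃ C, C = ∑' n, ww_Sand n := ⟨_, rfl⟩
  have hC0 : 0 ≤ C := hC ▸ tsum_nonneg fun n =>
    mul_nonneg ArithmeticFunction.vonMangoldt_nonneg (exp_nonneg _)
  refine ⟨4 * exp 1 * C + 1, by positivity, fun x y Δ d E hx hy hyx h h1 hd hd' hE hE' hP => ?_⟩
  change (1 - 2 * hh_Sand Δ d) * _ ≤ _ ∧ _ - _ * hh_Sand Δ d * _ / _ ≤ _
  have hx0 : 0 < x := by linarith
  have hψ : Chebyshev.psi (x + y) - Chebyshev.psi x =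
      ∑ n ∈ Ioc ⌊x⌋₊ ⌊x + y⌋₊, vonMangoldt n := by
    rw [Chebyshev.psi, Chebyshev.psi, sub_eq_iff_eq_add',
      sum_Ioc_consecutive _ (Nat.zero_le _) (Nat.floor_mono (by linarith))]
  have l1 : log x ≤ log (x + y) := log_le_log hx0 (by linarith)
  have l2 : log (x + y) ≤ log x + 1 := by
    have a1 : log (x + y) ≤ log (2 * x) := log_le_log (by linarith) (by linarith)
    rw [log_mul two_ne_zero hx0.ne'] at a1
    linarith [log_two_lt_d9]
  have e1 : exp d ≤ 1 + 2 * d := by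
    refine (exp_bound_div_one_sub_of_interval hd.le (by linarith)).trans ?_
    rw [div_le_iff₀ (by linarith)]
    nlinarith
  have e2 : 1 - d ≤ exp (-d) := by linarith [add_one_le_exp (-d)]
  have c1 : Continuous fun v => ∑ n ∈ Ioc ⌊x⌋₊ ⌊x + y⌋₊, vonMangoldt n * gg Δ (v - log n) :=
    continuous_finsetSum _ fun n _ => cont_Sand Δ _ _
  rw [hψ]
  constructor
  · have a1 := intervalIntegral.integral_mono_on (μ := volume) (a := log x + -d)
      (b := log (x + y) + d) (by linarith) (c1.intervalIntegrable _ _)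
      ((continuous_const.mul continuous_exp).intervalIntegrable _ _)
      (g := fun v => (1 + E) * exp v) fun v hv => by
        have b1 := (abs_le.1 (hP v ⟨by linarith [hv.1], by linarith [hv.2]⟩)).2
        have b2 := (summable_Sand h h1 v).sum_le_tsum (Ioc ⌊x⌋₊ ⌊x + y⌋₊) fun n _ =>
          mul_nonneg ArithmeticFunction.vonMangoldt_nonneg (gg_nonneg_Sand h _)
        rw [PP] at b1
        linarith
    rw [int_sum_Sand, intervalIntegral.integral_const_mul, integral_exp, exp_add, exp_add,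
      exp_log hx0, exp_log (by linarith)] at a1
    rw [mul_comm, sum_mul]
    refine le_trans (sum_le_sum fun n hn => mul_le_mul_of_nonneg_left ?_
      ArithmeticFunction.vonMangoldt_nonneg) (a1.trans (mul_le_mul_of_nonneg_left ?_ (by linarith)))
    · rw [mem_Ioc, Nat.floor_lt hx0.le, Nat.le_floor_iff (by linarith)] at hn
      have b1 := log_le_log hx0 hn.1.le
      have b2 := log_le_log (hx0.trans hn.1) hn.2
      exact le_int_Sand h hd.le (by linarith) (by linarith)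
    · nlinarith [mul_le_mul_of_nonneg_left e1 (show 0 ≤ x + y by linarith),
        mul_le_mul_of_nonneg_left e2 hx0.le, mul_le_mul_of_nonneg_left hyx hd.le,
        mul_pos hx0 hd]
  · have b0 : y - 6 * x * d ≤ exp (log (x + y) + -d) - exp (log x + d) := by
      rw [exp_add, exp_add, exp_log hx0, exp_log (by linarith)]
      nlinarith [mul_le_mul_of_nonneg_left e2 (show 0 ≤ x + y by linarith),
        mul_le_mul_of_nonneg_left e1 hx0.le, mul_le_mul_of_nonneg_left hyx hd.le,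
        mul_pos hx0 hd]
    have b1 := mul_le_mul_of_nonneg_left b0 (sub_nonneg.2 hE')
    have hq : 0 < hh_Sand Δ d := exp_pos _
    obtain ⟨K, hK⟩ : ∃ K, K = Δ⁻¹ * hh_Sand Δ d * (4 * x ^ 2 * exp 1) * C := ⟨_, rfl⟩
    have hK0 : 0 ≤ K := by rw [hK]; positivity
    have hK1 : K ≤ (4 * exp 1 * C + 1) * hh_Sand Δ d * x ^ 3 / Δ := by
      have a1 : 4 * exp 1 * C * x ^ 2 ≤ (4 * exp 1 * C + 1) * x ^ 3 :=
        mul_le_mul (by linarith) (pow_le_pow_right₀ hx (by norm_num)) (by positivity)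
          (by positivity)
      have a2 := mul_le_mul_of_nonneg_left a1 (show 0 ≤ Δ⁻¹ * hh_Sand Δ d by positivity)
      rw [hK, div_eq_mul_inv]
      linarith
    rcases le_total (log x + d) (log (x + y) + -d) with hab | hab
    · have a1 := intervalIntegral.integral_mono_on (μ := volume) hab
        ((continuous_const.mul continuous_exp).intervalIntegrable _ _)
        ((c1.add continuous_const).intervalIntegrable _ _) (f := fun v => (1 - E) * exp v)
        (g := fun v => ∑ n ∈ Ioc ⌊x⌋₊ ⌊x + y⌋₊, vonMangoldt n * gg Δ (v - log n) + K)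
        fun v hv => by
          have b2 := (abs_le.1 (hP v ⟨by linarith [hv.1], by linarith [hv.2]⟩)).1
          have b3 := PP_le_Sand h h1 hd.le (Ioc ⌊x⌋₊ ⌊x + y⌋₊) (v := v) fun n hn => by
            rw [mem_Ioc, not_and_or, not_lt, not_le, Nat.le_floor_iff hx0.le,
              Nat.floor_lt (by linarith)] at hn
            refine le_abs.2 (hn.imp (fun hn => ?_) fun hn => ?_)
            · have : log n ≤ log x := by
                rcases n.eq_zero_or_pos with rfl | h0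
                · simpa using log_nonneg hx
                · exact log_le_log (by exact_mod_cast h0) hn
              linarith [hv.1]
            · linarith [hv.2, log_le_log (by linarith) hn.le]
          have b4 : exp (2 * v + 1) ≤ 4 * x ^ 2 * exp 1 := by
            have b5 : exp v ≤ 2 * x := by
              refine (exp_le_exp.2 (show v ≤ log (x + y) by linarith [hv.2])).trans ?_
              rw [exp_log (by linarith)]
              linarith
            rw [exp_add, two_mul, exp_add]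
            refine mul_le_mul_of_nonneg_right ?_ (exp_nonneg _)
            nlinarith [exp_pos v]
          have b6 : Δ⁻¹ * hh_Sand Δ d * exp (2 * v + 1) * C ≤ K := by
            rw [hK]
            gcongr
          rw [← hC] at b3
          linarith
      rw [intervalIntegral.integral_add (c1.intervalIntegrable _ _) intervalIntegrable_const,
        int_sum_Sand, intervalIntegral.integral_const_mul, integral_exp,
        intervalIntegral.integral_const, smul_eq_mul] at a1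
      have a2 := sum_le_sum fun n (_ : n ∈ Ioc ⌊x⌋₊ ⌊x + y⌋₊) => mul_le_of_le_one_right
        (ArithmeticFunction.vonMangoldt_nonneg (n := n)) (int_le_Sand h hab (log n))
      have a3 := mul_le_of_le_one_left hK0
        (show log (x + y) + -d - (log x + d) ≤ 1 by linarith)
      linarith
    · have a1 := mul_nonneg (sub_nonneg.2 hE') (sub_nonneg.2 (exp_le_exp.2 hab))
      have a2 : 0 ≤ ∑ n ∈ Ioc ⌊x⌋₊ ⌊x + y⌋₊, vonMangoldt n :=
        sum_nonneg fun n _ => ArithmeticFunction.vonMangoldt_nonneg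
      linarith

end Pool.Agent.MP_c853c5_nt.Z

end

section

set_option autoImplicit false

open Finset

namespace Pool.Agent.MP_c853c5_nt.Z

lemma primes_Rec {P : ℕ} (hP : 1 ≤ P) (n : ℕ) :
    ∃ I : Finset ℕ, I.card = n ∧ ∀ p ∈ I, p.Prime ∧ P < p ∧ p ≤ 2 ^ n * P := by
  induction n with
  | zero => exact ⟨∅, rfl, fun p hp => absurd hp (notMem_empty p)⟩
  | succ n ih =>
    obtain ⟨I, hI, h⟩ := ih
    have h1 : P ≤ 2 ^ n * P := Nat.le_mul_of_pos_left _ (by positivity)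
    obtain ⟨q, hq, hq1, hq2⟩ := Nat.exists_prime_lt_and_le_two_mul (2 ^ n * P) (by omega)
    have e : 2 ^ (n + 1) * P = 2 * (2 ^ n * P) := by ring
    refine ⟨insert q I, ?_, fun p hp => ?_⟩
    · rw [card_insert_of_notMem fun hqI => by have := (h q hqI).2.2; omega, hI]
    · rcases mem_insert.1 hp with rfl | hp
      · exact ⟨hq, by omega, by omega⟩
      · obtain ⟨a, b, c⟩ := h p hp
        exact ⟨a, b, by omega⟩

lemma few_Rec {k P : ℕ} (hP : 1 ≤ P) {I : Finset ℕ} (hI : ∀ p ∈ I, p.Prime ∧ P < p) {d : ℤ}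
    (hd : d ≠ 0) (hdP : d.natAbs < P ^ k) : (I.filter fun p : ℕ => (p : ℤ) ∣ d).card ≤ k - 1 := by
  by_contra hc
  have hk : k ≤ (I.filter fun p : ℕ => (p : ℤ) ∣ d).card := by omega
  have h1 : ∏ p ∈ I.filter (fun p : ℕ => (p : ℤ) ∣ d), p ∣ d.natAbs :=
    prod_primes_dvd _ (fun p hp => (hI p (mem_filter.1 hp).1).1.prime)
      fun p hp => Int.natCast_dvd.1 (mem_filter.1 hp).2
  have h2 := Nat.le_of_dvd (Int.natAbs_pos.2 hd) h1
  have h3 := pow_card_le_prod (I.filter fun p : ℕ => (p : ℤ) ∣ d) (fun p => p) P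
    fun p hp => (hI p (mem_filter.1 hp).1).2.le
  have h4 := Nat.pow_le_pow_right hP hk
  omega

lemma good_prime_Rec {k P X : ℕ} (hk : 1 ≤ k) (hP : 1 ≤ P) (hX : X ≤ P ^ k) {I : Finset ℕ}
    (hc : I.card = k ^ 3) (hI : ∀ p ∈ I, p.Prime ∧ P < p) {x : Fin k → ℤ} (hx : x ∈ box k X)
    (hi : Function.Injective x) : ∃ p ∈ I, x ∈ Dp k p X := by
  by_contra hn
  have hsub : I ⊆ (univ : Finset (Fin k)).offDiag.biUnion
      fun z => I.filter fun p : ℕ => (p : ℤ) ∣ x z.1 - x z.2 := by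
    intro p hp
    by_contra hp'
    refine hn ⟨p, hp, mem_filter.2 ⟨hx, fun i j hij hd => hp' ?_⟩⟩
    exact mem_biUnion.2 ⟨(i, j), mem_offDiag.2 ⟨mem_univ _, mem_univ _, hij⟩,
      mem_filter.2 ⟨hp, hd⟩⟩
  have h1 := (card_le_card hsub).trans (card_biUnion_le_card_mul _ _ (k - 1) fun z hz => by
    have hz' := (mem_offDiag.1 hz).2.2
    have a := mem_box.1 hx z.1
    have b := mem_box.1 hx z.2
    refine few_Rec hP hI (sub_ne_zero.2 fun e => hz' (hi e)) ?_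
    omega)
  rw [hc, offDiag_card, card_univ, Fintype.card_fin] at h1
  obtain ⟨m, rfl⟩ : ∃ m, k = m + 1 := ⟨k - 1, by omega⟩
  have h2 : ((m + 1) * (m + 1) - (m + 1)) * (m + 1 - 1) ≤ (m + 1) * (m + 1) * m :=
    Nat.mul_le_mul (Nat.sub_le _ _) (by omega)
  have h3 : (m + 1) ^ 3 = (m + 1) * (m + 1) * m + (m + 1) * (m + 1) := by ring
  have h4 : 0 < (m + 1) * (m + 1) := by positivity
  omega

lemma bad_Rec {k n X : ℕ} (hn : 1 ≤ n) {x : Fin n → ℤ} (hx : x ∈ box n X)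
    (hc : (univ.image x).card ≤ k) :
    ∃ φ : Fin n → Fin k, ∃ v ∈ box k X, v ∘ φ = x := by
  obtain ⟨j⟩ := Function.Embedding.nonempty_of_card_le (α := univ.image x) (β := Fin k)
    (by rwa [Fintype.card_coe, Fintype.card_fin])
  have hne : Nonempty (univ.image x) := ⟨⟨x ⟨0, hn⟩, mem_image_of_mem _ (mem_univ _)⟩⟩
  refine ⟨fun i => j ⟨x i, mem_image_of_mem _ (mem_univ _)⟩,
    fun m => (Function.invFun j m : univ.image x), mem_box.2 fun m => ?_, funext fun i => ?_⟩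
  · obtain ⟨i, -, hi⟩ := mem_image.1 (Function.invFun j m).2
    rw [← hi]
    exact mem_box.1 hx i
  · exact congrArg Subtype.val (Function.leftInverse_invFun j.injective _)

lemma good_Rec {k s : ℕ} {x : Fin (k + s) → ℤ} (hc : k ≤ (univ.image x).card) :
    ∃ π : Equiv.Perm (Fin (k + s)), Function.Injective fun i : Fin k => x (π (Fin.castAdd s i)) := by
  obtain ⟨j⟩ := Function.Embedding.nonempty_of_card_le (α := Fin k) (β := univ.image x)
    (by rwa [Fintype.card_coe, Fintype.card_fin])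
  have h : ∀ i : Fin k, ∃ a, x a = j i := fun i => by
    obtain ⟨a, -, ha⟩ := mem_image.1 (j i).2
    exact ⟨a, ha⟩
  choose g hg using h
  have hxg : Function.Injective fun i => x (g i) := fun a b e => by
    simp only [hg] at e
    exact j.injective (Subtype.ext e)
  obtain ⟨π, hπ⟩ := Equiv.Perm.exists_extending_pair (Fin.castAdd s) g
    (Fin.castAdd_injective k s) (Function.Injective.of_comp (f := x) hxg)
  refine ⟨π, ?_⟩
  simp only [hπ]
  exact hxg

lemma ps_perm_Rec (k : ℕ) {n : ℕ} (x : Fin n → ℤ) (π : Equiv.Perm (Fin n)) :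
    ps k (x ∘ π) = ps k x :=
  funext fun j => Equiv.sum_comp π fun i => x i ^ (j.val + 1)

lemma ps_split_Rec (k : ℕ) {m s : ℕ} (x : Fin (m + s) → ℤ) :
    ps k (fun i => x (Fin.castAdd s i)) + ps k (fun i => x (Fin.natAdd m i)) = ps k x :=
  funext fun j => (Fin.sum_univ_add fun i => x i ^ (j.val + 1)).symm

/-- tuples whose first entries are distinct after a permutation -/
noncomputable def TP_Rec (k s X : ℕ) (π : Equiv.Perm (Fin (k + s))) : Finset (Fin (k + s) → ℤ) := by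
  classical
  exact (box (k + s) X).filter fun x =>
    Function.Injective fun i : Fin k => x (π (Fin.castAdd s i))

lemma mem_TP_Rec {k s X : ℕ} {π : Equiv.Perm (Fin (k + s))} {x : Fin (k + s) → ℤ} :
    x ∈ TP_Rec k s X π ↔
      x ∈ box (k + s) X ∧ Function.Injective fun i : Fin k => x (π (Fin.castAdd s i)) := by
  classical
  unfold TP_Rec
  exact mem_filter

lemma cnt_TP_Rec (k s X : ℕ) (π : Equiv.Perm (Fin (k + s))) :
    cnt (TP_Rec k s X π) (ps k) ≤ cnt (TP_Rec k s X 1) (ps k) := by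
  refine cnt_map _ _ _ _ (fun x => x ∘ π) (fun x _ y _ e => ?_) (fun x hx => ?_)
    fun x _ y _ e => ?_
  · exact π.surjective.injective_comp_right e
  · obtain ⟨h1, h2⟩ := mem_TP_Rec.1 hx
    exact mem_TP_Rec.2 ⟨mem_box.2 fun i => mem_box.1 h1 _, h2⟩
  · rw [ps_perm_Rec, ps_perm_Rec, e]

lemma cnt_Dp_Rec (k s p X : ℕ) :
    cnt ((box (k + s) X).filter fun x => (fun i : Fin k => x (Fin.castAdd s i)) ∈ Dp k p X) (ps k) ≤
      cnt (Dp k p X ×ˢ box s X) (fun z => ps k z.1 + ps k z.2) := by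
  refine cnt_map _ _ _ _
    (fun x => (fun i : Fin k => x (Fin.castAdd s i), fun i : Fin s => x (Fin.natAdd k i)))
    (fun x _ y _ e => ?_) (fun x hx => ?_) fun x _ y _ e => ?_
  · obtain ⟨e1, e2⟩ := Prod.ext_iff.1 e
    funext i
    refine Fin.addCases (fun a => ?_) (fun a => ?_) i
    · exact congrFun e1 a
    · exact congrFun e2 a
  · obtain ⟨h1, h2⟩ := mem_filter.1 hx
    exact mem_product.2 ⟨h2, mem_box.2 fun i => mem_box.1 h1 _⟩
  · simp only [ps_split_Rec]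
    exact e

theorem recS (hS : StepStmt) : RecStmt := by
  classical
  intro k s X P hk hkP hX
  have hP : 1 ≤ P := hk.trans hkP
  obtain ⟨I, hIc, hI⟩ := primes_Rec hP (k ^ 3)
  have hIne : I.Nonempty := card_pos.1 (by rw [hIc]; positivity)
  obtain ⟨p, hp, hmax⟩ := exists_max_image I
    (fun p => cnt (Dp k p X ×ˢ box s X) (fun z => ps k z.1 + ps k z.2)) hIne
  obtain ⟨hp1, hp2, hp3⟩ := hI p hp
  refine ⟨p, hp2, hp3, ?_⟩
  have hstep := hS k s p X hp1 (by omega) (hX.trans (Nat.pow_le_pow_left hp2.le k))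
  set R := p ^ (2 * s) * (X ^ k * (k.factorial * p ^ (k * (k - 1) / 2)) * JJ k s (X / p + 1))
    with hR
  have h1 : cnt (TP_Rec k s X 1) (ps k) ≤ (k ^ 3) ^ 2 * R := by
    refine (cnt_cover _ I (fun q => (box (k + s) X).filter
      fun x => (fun i : Fin k => x (Fin.castAdd s i)) ∈ Dp k q X) (ps k) fun x hx => ?_).trans ?_
    · obtain ⟨a, b⟩ := mem_TP_Rec.1 hx
      obtain ⟨q, hq, hq'⟩ := good_prime_Rec hk hP hX hIc (fun q hq => ⟨(hI q hq).1, (hI q hq).2.1⟩)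
        (x := fun i : Fin k => x (Fin.castAdd s i)) (mem_box.2 fun i => mem_box.1 a _) b
      exact ⟨q, hq, mem_filter.2 ⟨a, hq'⟩⟩
    · rw [sq, mul_assoc, ← hIc]
      refine Nat.mul_le_mul_left _ ?_
      exact sum_le_card_nsmul I _ R fun q hq =>
        (cnt_Dp_Rec k s q X).trans ((hmax q hq).trans hstep)
  set Good := (box (k + s) X).filter fun x => k ≤ (univ.image x).card with hGood
  set Bad := ((univ : Finset (Fin (k + s) → Fin k)) ×ˢ box k X).image fun z => z.2 ∘ z.1 with hBad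
  have h2 : cnt Good (ps k) ≤ (k + s).factorial ^ 2 * ((k ^ 3) ^ 2 * R) := by
    refine (cnt_cover _ univ (TP_Rec k s X) (ps k) fun x hx => ?_).trans ?_
    · obtain ⟨a, b⟩ := mem_filter.1 hx
      obtain ⟨π, hπ⟩ := good_Rec b
      exact ⟨π, mem_univ _, mem_TP_Rec.2 ⟨a, hπ⟩⟩
    · have hc : (univ : Finset (Equiv.Perm (Fin (k + s)))).card = (k + s).factorial := by
        rw [card_univ, Fintype.card_perm, Fintype.card_fin]
      rw [sq ((k + s).factorial), mul_assoc, ← hc]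
      refine Nat.mul_le_mul_left _ ?_
      exact sum_le_card_nsmul univ _ _ fun π _ => (cnt_TP_Rec k s X π).trans h1
  have h3 : cnt Bad (ps k) ≤ (k ^ (k + s) * X ^ k) ^ 2 := by
    refine (cnt_le_sq _ _).trans (Nat.pow_le_pow_left (card_image_le.trans (le_of_eq ?_)) 2)
    rw [card_product, card_box, card_univ, Fintype.card_fun, Fintype.card_fin, Fintype.card_fin]
  have h4 := cnt_cover (box (k + s) X) (univ : Finset Bool) (fun b => cond b Good Bad) (ps k)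
    fun x hx => by
      by_cases h : k ≤ (univ.image x).card
      · exact ⟨true, mem_univ _, mem_filter.2 ⟨hx, h⟩⟩
      · obtain ⟨φ, v, hv, e⟩ := bad_Rec (k := k) (by omega) hx (by omega)
        exact ⟨false, mem_univ _, mem_image.2 ⟨(φ, v), mem_product.2 ⟨mem_univ _, hv⟩, e⟩⟩
  rw [card_univ, Fintype.card_bool, Fintype.sum_bool, cond_true, cond_false] at h4
  calc JJ k (k + s) X ≤ 2 * (cnt Good (ps k) + cnt Bad (ps k)) := h4
    _ ≤ 2 * ((k + s).factorial ^ 2 * ((k ^ 3) ^ 2 * R) + (k ^ (k + s) * X ^ k) ^ 2) :=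
        Nat.mul_le_mul_left _ (Nat.add_le_add h2 h3)
    _ = _ := by ring

end Pool.Agent.MP_c853c5_nt.Z

end

section

set_option autoImplicit false

open Finset

namespace Pool.Agent.MP_c853c5_nt.Z

open Pool.Agent.MP_2a1f0e_nt

/-- the bilinear phase -/
noncomputable def ph_Bil {K : ℕ} (α : Fin K → ℝ) (u c : Fin K → ℤ) : ℝ :=
  ∑ j, α j * ((u j : ℝ) * (c j : ℝ))

/-- the moment curve -/
def v_Bil (K : ℕ) (a : ℤ) : Fin K → ℤ := fun j => a ^ (j.val + 1)

lemma ph_comm_Bil {K : ℕ} (α : Fin K → ℝ) (u c : Fin K → ℤ) :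
    ph_Bil α u c = ph_Bil α c u := sum_congr rfl fun j _ => by ring

lemma ph_sub_Bil {K : ℕ} (α : Fin K → ℝ) (u u' c : Fin K → ℤ) :
    ph_Bil α u c - ph_Bil α u' c = ph_Bil α (u - u') c := by
  unfold ph_Bil
  rw [← sum_sub_distrib]
  refine sum_congr rfl fun j _ => ?_
  simp only [Pi.sub_apply, Int.cast_sub]
  ring

lemma ex_sum_Bil {ι : Type*} (s : Finset ι) (f : ι → ℝ) :
    ex (∑ i ∈ s, f i) = ∏ i ∈ s, ex (f i) := by
  classical
  induction s using Finset.induction_on with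
  | empty => simp [ex_zero]
  | insert a s ha ih => rw [sum_insert ha, prod_insert ha, ex_add, ih]

lemma ph_ps_Bil {K s : ℕ} (α : Fin K → ℝ) (x : Fin s → ℤ) (c : Fin K → ℤ) :
    ph_Bil α (ps K x) c = ∑ i, ph_Bil α (v_Bil K (x i)) c := by
  unfold ph_Bil ps v_Bil
  rw [sum_comm]
  refine sum_congr rfl fun j _ => ?_
  rw [Int.cast_sum, sum_mul, mul_sum]

lemma pow_Bil {K : ℕ} (s : ℕ) (α : Fin K → ℝ) (F : Finset ℤ) (ξ : ℤ → ℂ) (c : Fin K → ℤ) :
    (∑ a ∈ F, ξ a * ex (ph_Bil α (v_Bil K a) c)) ^ s =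
      ∑ x ∈ tup s F, (∏ i, ξ (x i)) * ex (ph_Bil α (ps K x) c) := by
  have h := prod_univ_sum (fun _ : Fin s => F) fun _ a => ξ a * ex (ph_Bil α (v_Bil K a) c)
  rw [prod_const, card_univ, Fintype.card_fin] at h
  rw [h]
  refine sum_congr rfl fun x _ => ?_
  rw [prod_mul_distrib, ph_ps_Bil, ex_sum_Bil]

lemma geo_Bil (H : ℕ) (θ : ℝ) : ‖∑ c ∈ Icc (1 : ℤ) H, ex (θ * c)‖ = ‖gs H θ‖ := by
  have : ∑ c ∈ Icc (1 : ℤ) H, ex (θ * c) = ex θ * gs H θ := by
    unfold gs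
    rw [mul_sum]
    symm
    refine sum_bij (fun r _ => (r : ℤ) + 1) ?_ ?_ ?_ ?_
    · intro r hr
      have := mem_range.1 hr
      rw [mem_Icc]
      omega
    · intro r _ r' _ h
      omega
    · intro c hc
      rw [mem_Icc] at hc
      exact ⟨(c - 1).toNat, mem_range.2 (by omega), by omega⟩
    · intro r _
      rw [← ex_add]
      congr 1
      push_cast
      ring
  rw [this, norm_mul, norm_ex, one_mul]

lemma box_sum_Bil {K : ℕ} (α : Fin K → ℝ) (H : Fin K → ℕ) (m : Fin K → ℤ) :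
    ‖∑ c ∈ Fintype.piFinset fun j => Icc (1 : ℤ) (H j), ex (ph_Bil α m c)‖ =
      ∏ j, ‖gs (H j) (α j * m j)‖ := by
  have h := prod_univ_sum (fun j : Fin K => Icc (1 : ℤ) (H j))
    fun j c => ex (α j * m j * (c : ℝ))
  have e : ∀ c : Fin K → ℤ, ex (ph_Bil α m c) = ∏ j, ex (α j * m j * (c j : ℝ)) := by
    intro c
    rw [← ex_sum_Bil]
    simp only [ph_Bil, mul_assoc]
  simp only [e]
  rw [← h, norm_prod]
  exact prod_congr rfl fun j _ => geo_Bil _ _

lemma fib_sum_Bil {ι κ : Type*} [DecidableEq κ] (S : Finset ι) (B : Finset κ) (f : ι → κ)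
    (h : ∀ x ∈ S, f x ∈ B) (g : κ → ℝ) :
    ∑ x ∈ S, g (f x) = ∑ c ∈ B, ((S.filter fun x => f x = c).card : ℝ) * g c := by
  rw [← sum_fiberwise_of_maps_to' h]
  simp only [sum_const, nsmul_eq_mul]

lemma ps_mem_Bil {K s Y : ℕ} (hs : 1 ≤ s) {x : Fin s → ℤ} (hx : x ∈ box s Y) (j : Fin K) :
    1 ≤ ps K x j ∧ ps K x j ≤ ((s * Y ^ (j.val + 1) : ℕ) : ℤ) := by
  rw [mem_box] at hx
  unfold ps
  constructor
  · have := card_nsmul_le_sum univ (fun i => x i ^ (j.val + 1)) 1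
      fun i _ => one_le_pow₀ (hx i).1
    simp only [card_univ, Fintype.card_fin, nsmul_eq_mul, mul_one] at this
    omega
  · have := sum_le_card_nsmul univ (fun i => x i ^ (j.val + 1)) ((Y : ℤ) ^ (j.val + 1))
      fun i _ => pow_le_pow_left₀ (by linarith [(hx i).1]) (hx i).2 _
    simpa using this

/-- the mean square over the box of frequencies -/
lemma mean_Bil {K s Y : ℕ} (hs : 1 ≤ s) (α : Fin K → ℝ) (Ξ : (Fin s → ℤ) → ℂ)
    (hΞ : ∀ x, ‖Ξ x‖ = 1) :
    ∑ c ∈ Fintype.piFinset fun j : Fin K => Icc (1 : ℤ) ((s * Y ^ (j.val + 1) : ℕ) : ℤ),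
        ‖∑ x ∈ box s Y, Ξ x * ex (ph_Bil α (ps K x) c)‖ ^ 2 ≤
      (JJ K s Y : ℝ) * ∏ j : Fin K, DD (s * Y ^ (j.val + 1)) (α j) := by
  classical
  set H : Fin K → ℕ := fun j => s * Y ^ (j.val + 1) with hH
  set B := Fintype.piFinset fun j : Fin K => Icc (1 : ℤ) (H j) with hB
  set G : (Fin K → ℤ) → ℝ := fun m => ∏ j, ‖gs (H j) (α j * m j)‖ with hG
  set M := Fintype.piFinset fun j : Fin K => Ioo (-(H j : ℤ)) (H j) with hM
  have h1 : ((∑ c ∈ B, ‖∑ x ∈ box s Y, Ξ x * ex (ph_Bil α (ps K x) c)‖ ^ 2 : ℝ) : ℂ) =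
      ∑ p ∈ box s Y ×ˢ box s Y, Ξ p.1 * (starRingEnd ℂ) (Ξ p.2) *
        ∑ c ∈ B, ex (ph_Bil α (ps K p.1 - ps K p.2) c) := by
    rw [Complex.ofReal_sum, sum_product]
    simp only [normsq_sum, ph_sub_Bil, mul_sum]
    rw [sum_comm]
    exact sum_congr rfl fun c _ => sum_comm
  have h2 : ∀ p ∈ box s Y ×ˢ box s Y, ps K p.1 - ps K p.2 ∈ M := by
    intro p hp
    rw [hM, Fintype.mem_piFinset]
    intro j
    have a1 := ps_mem_Bil (K := K) hs (mem_product.1 hp).1 j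
    have a2 := ps_mem_Bil (K := K) hs (mem_product.1 hp).2 j
    simp only [mem_Ioo, Pi.sub_apply, hH]
    omega
  calc _ ≤ ‖((∑ c ∈ B, ‖∑ x ∈ box s Y, Ξ x * ex (ph_Bil α (ps K x) c)‖ ^ 2 : ℝ) : ℂ)‖ := by
        rw [Complex.norm_real]
        exact le_abs_self _
    _ ≤ ∑ p ∈ box s Y ×ˢ box s Y, G (ps K p.1 - ps K p.2) := by
        rw [h1]
        refine (norm_sum_le _ _).trans (le_of_eq (sum_congr rfl fun p _ => ?_))
        rw [norm_mul, norm_mul, Complex.norm_conj, hΞ, hΞ, one_mul, one_mul, box_sum_Bil]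
    _ ≤ ∑ m ∈ M, (JJ K s Y : ℝ) * G m := by
        rw [fib_sum_Bil _ M (fun p : (Fin s → ℤ) × (Fin s → ℤ) => ps K p.1 - ps K p.2) h2 G]
        refine sum_le_sum fun m _ => mul_le_mul_of_nonneg_right ?_
          (prod_nonneg fun j _ => norm_nonneg _)
        have := fiber_le (box s Y) (ps K) m
        simp only [sub_eq_iff_eq_add']
        exact_mod_cast this
    _ = _ := by
        rw [← mul_sum, hM, hG, ← prod_univ_sum (fun j : Fin K => Ioo (-(H j : ℤ)) (H j))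
          fun j (m : ℤ) => ‖gs (H j) (α j * m)‖]
        rfl

theorem bil : BilStmt := by
  classical
  intro K s Y α hs _
  obtain ⟨n, rfl⟩ : ∃ n, s = n + 1 := ⟨s - 1, by omega⟩
  set I := Icc (1 : ℤ) Y with hI
  have hcI : (I.card : ℝ) = Y := by simp [hI]
  set S : ℤ → ℂ := fun a => ∑ b ∈ I, 1 * ex (ph_Bil α (v_Bil K b) (v_Bil K a)) with hS
  have hU : UU K Y α = ∑ a ∈ I, S a := by
    unfold UU
    refine sum_congr rfl fun a _ => sum_congr rfl fun b _ => ?_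
    rw [one_mul, ph_comm_Bil]
    simp [ph_Bil, v_Bil]
  have hξ : ∀ a, ∃ ξ : ℂ, ‖ξ‖ = 1 ∧ ((‖S a ^ (n + 1)‖ : ℝ) : ℂ) = ξ * S a ^ (n + 1) :=
    fun a => Complex.exists_norm_eq_mul_self _
  choose ξ hξ1 hξ2 using hξ
  set T : (Fin K → ℤ) → ℂ := fun c => ∑ a ∈ I, ξ a * ex (ph_Bil α (v_Bil K a) c) with hT
  set B := Fintype.piFinset fun j : Fin K =>
    Icc (1 : ℤ) (((n + 1) * Y ^ (j.val + 1) : ℕ) : ℤ) with hB
  have hmem : ∀ x ∈ box (n + 1) Y, ps K x ∈ B := fun x hx =>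
    Fintype.mem_piFinset.2 fun j => mem_Icc.2 (ps_mem_Bil hs hx j)
  have h1 : ‖UU K Y α‖ ^ (n + 1) ≤ (Y : ℝ) ^ n * ∑ a ∈ I, ‖S a‖ ^ (n + 1) := by
    rw [hU, ← hcI]
    exact (pow_le_pow_left₀ (norm_nonneg _) (norm_sum_le _ _) _).trans
      (pow_sum_le_card_mul_sum_pow (fun _ _ => norm_nonneg _) n)
  have h2 : ∑ a ∈ I, ‖S a‖ ^ (n + 1) ≤ ∑ x ∈ box (n + 1) Y, ‖T (ps K x)‖ := by
    have e : ((∑ a ∈ I, ‖S a‖ ^ (n + 1) : ℝ) : ℂ) = ∑ x ∈ box (n + 1) Y, T (ps K x) := by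
      rw [Complex.ofReal_sum, hT, sum_comm]
      refine sum_congr rfl fun a _ => ?_
      rw [← norm_pow, hξ2, hS, pow_Bil, mul_sum]
      refine sum_congr rfl fun x _ => ?_
      rw [prod_const_one, one_mul, ph_comm_Bil]
    calc _ ≤ ‖((∑ a ∈ I, ‖S a‖ ^ (n + 1) : ℝ) : ℂ)‖ := by
          rw [Complex.norm_real]
          exact le_abs_self _
      _ ≤ _ := by
          rw [e]
          exact norm_sum_le _ _
  have h3 : (∑ x ∈ box (n + 1) Y, ‖T (ps K x)‖) ^ (n + 1) ≤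
      ((Y : ℝ) ^ (n + 1)) ^ n * ∑ x ∈ box (n + 1) Y, ‖T (ps K x)‖ ^ (n + 1) := by
    have := pow_sum_le_card_mul_sum_pow (s := box (n + 1) Y) (f := fun x => ‖T (ps K x)‖)
      (fun _ _ => norm_nonneg _) n
    rwa [card_box, Nat.cast_pow] at this
  have h4 : (∑ x ∈ box (n + 1) Y, ‖T (ps K x)‖ ^ (n + 1)) ^ 2 ≤
      (JJ K (n + 1) Y : ℝ) * ∑ c ∈ B, ‖T c ^ (n + 1)‖ ^ 2 := by
    rw [fib_sum_Bil _ B (ps K) hmem fun c => ‖T c‖ ^ (n + 1)]
    refine (sum_mul_sq_le_sq_mul_sq _ _ _).trans ?_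
    simp only [norm_pow]
    refine mul_le_mul_of_nonneg_right ?_ (sum_nonneg fun _ _ => by positivity)
    have := sum_fib_sq_le (box (n + 1) Y) (ps K) B
    unfold fib at this
    exact_mod_cast this
  have h5 : ∑ c ∈ B, ‖T c ^ (n + 1)‖ ^ 2 ≤
      (JJ K (n + 1) Y : ℝ) * ∏ j : Fin K, DD ((n + 1) * Y ^ (j.val + 1)) (α j) := by
    have := mean_Bil (Y := Y) hs α (fun x => ∏ i, ξ (x i)) fun x => by
      rw [norm_prod]
      simp [hξ1]
    simp only [hT, pow_Bil]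
    exact this
  have h6 : (‖UU K Y α‖ ^ (n + 1)) ^ (n + 1) ≤ ((Y : ℝ) ^ n) ^ (n + 1) *
      (((Y : ℝ) ^ (n + 1)) ^ n * ∑ x ∈ box (n + 1) Y, ‖T (ps K x)‖ ^ (n + 1)) := by
    calc _ ≤ ((Y : ℝ) ^ n * ∑ x ∈ box (n + 1) Y, ‖T (ps K x)‖) ^ (n + 1) :=
          pow_le_pow_left₀ (by positivity) (h1.trans (by gcongr)) _
      _ ≤ _ := by
          rw [mul_pow]
          gcongr
  calc ‖UU K Y α‖ ^ (2 * (n + 1) ^ 2) = ((‖UU K Y α‖ ^ (n + 1)) ^ (n + 1)) ^ 2 := by
        rw [← pow_mul, ← pow_mul]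
        congr 1
        ring
    _ ≤ (((Y : ℝ) ^ n) ^ (n + 1) *
      (((Y : ℝ) ^ (n + 1)) ^ n * ∑ x ∈ box (n + 1) Y, ‖T (ps K x)‖ ^ (n + 1))) ^ 2 :=
        pow_le_pow_left₀ (by positivity) h6 _
    _ = (Y : ℝ) ^ (4 * (n + 1) * (n + 1 - 1)) *
        (∑ x ∈ box (n + 1) Y, ‖T (ps K x)‖ ^ (n + 1)) ^ 2 := by
        rw [Nat.add_sub_cancel]
        ring
    _ ≤ (Y : ℝ) ^ (4 * (n + 1) * (n + 1 - 1)) * ((JJ K (n + 1) Y : ℝ) *
        ((JJ K (n + 1) Y : ℝ) * ∏ j : Fin K, DD ((n + 1) * Y ^ (j.val + 1)) (α j))) := by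
        gcongr
        exact h4.trans (by gcongr)
    _ = _ := by ring

end Pool.Agent.MP_c853c5_nt.Z

end

section

set_option autoImplicit false

open Finset

namespace Pool.Agent.MP_c853c5_nt.Z

theorem idx_U {v T : ℝ} {k : ℕ} (hv : 1 ≤ v) (hk : 1 ≤ k) (h1 : v ^ 54 ≤ T)
    (h2 : T ≤ v ^ (60 * k)) :
    ∃ j : ℕ, 2 ≤ j ∧ j ≤ 2 * k ∧ T ≤ v ^ (40 * j) ∧ v ^ (20 * j + 14) ≤ T := by
  classical
  have h3 : 2 ≤ 2 * k ∧ T ≤ v ^ (40 * (2 * k)) :=
    ⟨by omega, h2.trans (pow_le_pow_right₀ hv (by omega))⟩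
  have hex : ∃ j : ℕ, 2 ≤ j ∧ T ≤ v ^ (40 * j) := ⟨_, h3⟩
  obtain ⟨h4, h5⟩ := Nat.find_spec hex
  refine ⟨Nat.find hex, h4, Nat.find_min' hex h3, h5, ?_⟩
  rcases h4.eq_or_lt with e | hlt
  · rw [← e]
    exact h1
  · have h6 := Nat.find_min hex (m := Nat.find hex - 1) (by omega)
    have h7 : v ^ (40 * (Nat.find hex - 1)) < T := by
      by_contra hc
      exact h6 ⟨by omega, not_lt.1 hc⟩
    exact (pow_le_pow_right₀ hv (by omega)).trans h7.le

theorem gain_U {v T n Y s x : ℝ} {j K : ℕ} (hv : 1 ≤ v) (hj : 1 ≤ j) (hjK : j ≤ K)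
    (h1 : T ≤ v ^ (40 * j)) (h2 : v ^ (20 * j + 14) ≤ T) (hn : v ^ 60 ≤ n) (hn' : n ≤ 2 * v ^ 60)
    (hY : v ^ 20 ≤ 2 * Y) (hs : 1 ≤ s) (hs' : 2 * Real.pi * j ≤ s ^ 2)
    (hx : x = T / (2 * Real.pi * j * n ^ j)) :
    0 < x ∧ 4 * x + 10 / (s * Y ^ j) + 6 / (x * (s * Y ^ j) ^ 2) ≤ (5 * 8 ^ K / v ^ 7) ^ 2 := by
  have hv0 : 0 < v := by linarith
  have hT : 0 < T := lt_of_lt_of_le (by positivity) h2
  have hn0 : 0 < n := lt_of_lt_of_le (by positivity) hn
  have hY0 : 0 < Y := by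
    have : 0 < v ^ 20 := by positivity
    linarith
  have hj1 : (1 : ℝ) ≤ j := by exact_mod_cast hj
  have hp : 1 ≤ 2 * Real.pi * j := by nlinarith [Real.pi_gt_three]
  have hx0 : 0 < x := by rw [hx]; positivity
  have h14 : 0 < v ^ 14 := by positivity
  have hw : v ^ 14 ≤ v ^ (20 * j) := pow_le_pow_right₀ hv (by omega)
  have hnj : v ^ (60 * j) ≤ n ^ j := by
    rw [pow_mul]; exact pow_le_pow_left₀ (by positivity) hn j
  have hnj' : n ^ j ≤ 2 ^ j * v ^ (60 * j) := by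
    rw [pow_mul, ← mul_pow]; exact pow_le_pow_left₀ hn0.le hn' j
  have hYj : v ^ (20 * j) ≤ 2 ^ j * Y ^ j := by
    rw [pow_mul, ← mul_pow]; exact pow_le_pow_left₀ (by positivity) hY j
  have a1 : x ≤ 1 / v ^ 14 := by
    rw [hx, div_le_div_iff₀ (by positivity) h14]
    calc T * v ^ 14 ≤ v ^ (40 * j) * v ^ (20 * j) := by gcongr
      _ = 1 * (1 * v ^ (60 * j)) := by ring
      _ ≤ _ := by gcongr
  have a2 : 1 / (s * Y ^ j) ≤ 2 ^ j / v ^ 14 := by
    rw [div_le_div_iff₀ (by positivity) h14]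
    calc 1 * v ^ 14 ≤ 2 ^ j * (1 * Y ^ j) := by rw [one_mul, one_mul]; exact hw.trans hYj
      _ ≤ _ := by gcongr
  have a3 : 1 / (x * (s * Y ^ j) ^ 2) ≤ 8 ^ j / v ^ 14 := by
    have e : x * (s * Y ^ j) ^ 2 = T * s ^ 2 * (Y ^ j) ^ 2 / (2 * Real.pi * j * n ^ j) := by
      rw [hx]; ring
    rw [e, one_div_div, div_le_div_iff₀ (by positivity) h14]
    have e8 : (8 : ℝ) ^ j = 2 ^ j * (2 ^ j) ^ 2 := by
      rw [← pow_mul, ← pow_add, show (8 : ℝ) = 2 ^ 3 by norm_num, ← pow_mul]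
      congr 1
      ring
    calc 2 * Real.pi * j * n ^ j * v ^ 14 ≤ s ^ 2 * (2 ^ j * v ^ (60 * j)) * v ^ 14 := by gcongr
      _ = 2 ^ j * s ^ 2 * v ^ (20 * j + 14) * (v ^ (20 * j)) ^ 2 := by ring
      _ ≤ 2 ^ j * s ^ 2 * T * (2 ^ j * Y ^ j) ^ 2 := by gcongr
      _ = _ := by rw [e8]; ring
  have b1 : (2 : ℝ) ^ j ≤ 8 ^ j := pow_le_pow_left₀ (by norm_num) (by norm_num) j
  have b2 : (8 : ℝ) ^ j ≤ 8 ^ K := pow_le_pow_right₀ (by norm_num) hjK
  have b3 : (1 : ℝ) ≤ 8 ^ K := one_le_pow₀ (by norm_num)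
  refine ⟨hx0, ?_⟩
  calc 4 * x + 10 / (s * Y ^ j) + 6 / (x * (s * Y ^ j) ^ 2)
      = 4 * x + 10 * (1 / (s * Y ^ j)) + 6 * (1 / (x * (s * Y ^ j) ^ 2)) := by ring
    _ ≤ 4 * (1 / v ^ 14) + 10 * (2 ^ j / v ^ 14) + 6 * (8 ^ j / v ^ 14) := by gcongr
    _ = (4 + 10 * 2 ^ j + 6 * 8 ^ j) / v ^ 14 := by ring
    _ ≤ (25 * (8 ^ K) ^ 2) / v ^ 14 := by
        gcongr
        nlinarith
    _ = _ := by ring

theorem prodH_U (s Y : ℝ) (K : ℕ) :
    ∏ j : Fin K, 2 * (s * Y ^ (j.val + 1)) ^ 2 = (2 * s ^ 2) ^ K * Y ^ (K * (K + 1)) := by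
  induction K with
  | zero => simp
  | succ K ih =>
    rw [Fin.prod_univ_castSucc]
    simp only [Fin.val_castSucc, Fin.val_last]
    rw [ih]
    ring

theorem prodD_U (hD : DStmt) {K s Y : ℕ} (hs : 1 ≤ s) (hY : 1 ≤ Y) (α : Fin K → ℝ) (j0 : Fin K)
    {g : ℝ} (hg : DD (s * Y ^ (j0.val + 1)) (α j0) ≤
      g * (2 * ((s : ℝ) * (Y : ℝ) ^ (j0.val + 1)) ^ 2)) :
    ∏ j : Fin K, DD (s * Y ^ (j.val + 1)) (α j) ≤
      g * ((2 * (s : ℝ) ^ 2) ^ K * (Y : ℝ) ^ (K * (K + 1))) := by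
  have e : g = ∏ j : Fin K, if j = j0 then g else 1 := by simp
  rw [← prodH_U, e, ← prod_mul_distrib]
  refine prod_le_prod (fun j _ => sum_nonneg fun _ _ => norm_nonneg _) fun j _ => ?_
  split_ifs with h
  · rw [h]; exact hg
  · have := (hD (s * Y ^ (j.val + 1)) (α j) (Nat.mul_pos hs (Nat.pow_pos hY))).1
    push_cast at this
    rwa [one_mul]

theorem const_U {K : ℕ} (hK : 1 ≤ K) :
    (5 : ℝ) * 8 ^ K * (2 * ((11 * K ^ 3 : ℕ) : ℝ) ^ 2) ^ K ≤ Real.exp (43 * (K : ℝ) ^ 8) := by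
  have h : ∀ x : ℝ, x ≤ Real.exp x := fun x => by linarith [Real.add_one_le_exp x]
  have hK1 : (1 : ℝ) ≤ K := by exact_mod_cast hK
  have p1 : (K : ℝ) ≤ (K : ℝ) ^ 8 := le_self_pow₀ hK1 (by norm_num)
  have p4 : (K : ℝ) ^ 4 ≤ (K : ℝ) ^ 8 := pow_le_pow_right₀ hK1 (by norm_num)
  calc (5 : ℝ) * 8 ^ K * (2 * ((11 * K ^ 3 : ℕ) : ℝ) ^ 2) ^ K
      ≤ Real.exp 5 * Real.exp 8 ^ K *
        (Real.exp 2 * Real.exp ((11 * K ^ 3 : ℕ) : ℝ) ^ 2) ^ K := by gcongr <;> exact h _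
    _ = Real.exp (5 + 10 * K + 22 * (K : ℝ) ^ 4) := by
        simp only [← Real.exp_nat_mul, ← Real.exp_add]
        congr 1
        push_cast
        ring
    _ ≤ _ := Real.exp_le_exp.2 (by linarith)

theorem pow_U (hB : BilStmt) (hD : DStmt) {A0 v : ℝ} {k Y n : ℕ} {t : ℝ} (hk : 1 ≤ k)
    (hY : 1 ≤ Y) (hv : 1 ≤ v) (h1 : v ^ 54 ≤ |t|) (h2 : |t| ≤ v ^ (60 * k)) (hn : v ^ 60 ≤ n)
    (hn' : (n : ℝ) ≤ 2 * v ^ 60) (hY1 : v ^ 20 ≤ 2 * Y) (hY2 : (Y : ℝ) ≤ v ^ 20)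
    (hJ : (JJ (3 * k) (11 * (3 * k) ^ 3) Y : ℝ) ≤ Real.exp (A0 * ((3 * k : ℕ) : ℝ) ^ 8) *
      (Y : ℝ) ^ (22 * ((3 * k : ℕ) : ℝ) ^ 3 - ((3 * k : ℕ) : ℝ) * ((3 * k : ℕ) + 1) / 2 + 1 / 100)) :
    ‖UU (3 * k) Y (al (3 * k) t n)‖ ^ (2 * (11 * (3 * k) ^ 3) ^ 2) ≤
      Real.exp ((2 * A0 + 43) * ((3 * k : ℕ) : ℝ) ^ 8) *
        ((Y : ℝ) ^ 2) ^ (2 * (11 * (3 * k) ^ 3) ^ 2) * (1 / v ^ 6) := by
  obtain ⟨j, hj2, hjk, hj3, hj4⟩ := idx_U hv hk h1 h2
  have hjK : j ≤ 3 * k := by omega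
  have hK : 1 ≤ 3 * k := by omega
  generalize 3 * k = K at hJ hjK hK ⊢
  have hc := const_U hK
  have hKs : 7 * K ≤ (11 * K ^ 3) ^ 2 := by
    have a : K ≤ K ^ 3 := Nat.le_self_pow (by norm_num) K
    have b : 11 * K ^ 3 ≤ (11 * K ^ 3) ^ 2 := Nat.le_self_pow (by norm_num) _
    omega
  have hs : 1 ≤ 11 * K ^ 3 := by
    have a : K ≤ K ^ 3 := Nat.le_self_pow (by norm_num) K
    omega
  have es : 22 * (K : ℝ) ^ 3 = 2 * ((11 * K ^ 3 : ℕ) : ℝ) := by push_cast; ring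
  rw [es] at hJ
  generalize 11 * K ^ 3 = s at hJ hc hKs hs ⊢
  have hv0 : 0 < v := by linarith
  have hY0 : (0 : ℝ) < Y := by exact_mod_cast hY
  obtain ⟨i, rfl⟩ : ∃ i, j = i + 1 := ⟨j - 1, by omega⟩
  have hpi : 2 * Real.pi * ((i + 1 : ℕ) : ℝ) ≤ (s : ℝ) ^ 2 := by
    have a : ((7 * (i + 1) : ℕ) : ℝ) ≤ ((s ^ 2 : ℕ) : ℝ) := Nat.cast_le.2 (by omega)
    have b : (0 : ℝ) ≤ ((i + 1 : ℕ) : ℝ) := Nat.cast_nonneg _
    rw [Nat.cast_mul, Nat.cast_pow, Nat.cast_ofNat] at a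
    nlinarith [mul_le_mul_of_nonneg_right Real.pi_lt_d2.le b]
  have hx : |al K t n ⟨i, hjK⟩| = |t| / (2 * Real.pi * ((i + 1 : ℕ) : ℝ) * (n : ℝ) ^ (i + 1)) := by
    rw [al, abs_div, abs_mul, abs_pow, abs_neg, abs_one, one_pow, one_mul, Nat.cast_succ]
    congr 1
    exact abs_of_nonneg (by positivity)
  obtain ⟨hx0, hg⟩ := gain_U hv (by omega) hjK hj3 hj4 hn hn' hY1 (by exact_mod_cast hs) hpi hx
  have hd := (hD (s * Y ^ (i + 1)) _ (Nat.mul_pos hs (Nat.pow_pos hY))).2 (abs_pos.1 hx0)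
  push_cast at hd
  have hd' : DD (s * Y ^ (i + 1)) (al K t n ⟨i, hjK⟩) ≤
      5 * 8 ^ K / v ^ 7 * (2 * ((s : ℝ) * (Y : ℝ) ^ (i + 1)) ^ 2) := by
    refine le_of_sq_le_sq ?_ (by positivity)
    refine hd.trans ((mul_le_mul_of_nonneg_left hg (by positivity)).trans (le_of_eq ?_))
    ring
  have hp := prodD_U hD hs hY (al K t n) ⟨i, hjK⟩ hd'
  have hJ2 : (JJ K s Y : ℝ) ^ 2 * (Y : ℝ) ^ (K * (K + 1)) ≤
      Real.exp (2 * A0 * (K : ℝ) ^ 8) * (Y : ℝ) ^ (4 * s) * v := by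
    have a : (Y : ℝ) ^ (1 / 50 : ℝ) ≤ v := by
      calc (Y : ℝ) ^ (1 / 50 : ℝ) ≤ (v ^ 50) ^ (1 / 50 : ℝ) :=
            Real.rpow_le_rpow hY0.le (hY2.trans (pow_le_pow_right₀ hv (by norm_num))) (by norm_num)
        _ = v := by
            rw [← Real.rpow_natCast, ← Real.rpow_mul hv0.le]; norm_num
    calc (JJ K s Y : ℝ) ^ 2 * (Y : ℝ) ^ (K * (K + 1))
        ≤ (Real.exp (A0 * (K : ℝ) ^ 8) *
          (Y : ℝ) ^ (2 * (s : ℝ) - (K : ℝ) * (K + 1) / 2 + 1 / 100)) ^ 2 *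
            (Y : ℝ) ^ (K * (K + 1)) := by gcongr
      _ = Real.exp (2 * A0 * (K : ℝ) ^ 8) * (Y : ℝ) ^ (4 * s) * (Y : ℝ) ^ (1 / 50 : ℝ) := by
          rw [mul_pow, ← Real.exp_nat_mul, mul_assoc, mul_assoc (Real.exp _)]
          simp only [← Real.rpow_natCast (Y : ℝ), ← Real.rpow_natCast ((Y : ℝ) ^ (_ : ℝ)),
            ← Real.rpow_mul hY0.le, ← Real.rpow_add hY0]
          congr 2
          · push_cast; ring
          · push_cast; ring
      _ ≤ _ := by gcongr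
  have ee : 4 * s * (s - 1) + 4 * s = 2 * (2 * s ^ 2) := by
    obtain ⟨r, rfl⟩ : ∃ r, s = r + 1 := ⟨s - 1, by omega⟩
    rw [Nat.add_sub_cancel]
    ring
  refine (hB K s Y _ hs hY).trans ?_
  calc (Y : ℝ) ^ (4 * s * (s - 1)) * (JJ K s Y : ℝ) ^ 2 *
        ∏ j : Fin K, DD (s * Y ^ (j.val + 1)) (al K t n j)
      ≤ (Y : ℝ) ^ (4 * s * (s - 1)) * (JJ K s Y : ℝ) ^ 2 *
        (5 * 8 ^ K / v ^ 7 * ((2 * (s : ℝ) ^ 2) ^ K * (Y : ℝ) ^ (K * (K + 1)))) := by gcongr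
    _ = (Y : ℝ) ^ (4 * s * (s - 1)) * ((JJ K s Y : ℝ) ^ 2 * (Y : ℝ) ^ (K * (K + 1))) *
        (5 * 8 ^ K * (2 * (s : ℝ) ^ 2) ^ K) / v ^ 7 := by ring
    _ ≤ (Y : ℝ) ^ (4 * s * (s - 1)) * (Real.exp (2 * A0 * (K : ℝ) ^ 8) * (Y : ℝ) ^ (4 * s) * v) *
        Real.exp (43 * (K : ℝ) ^ 8) / v ^ 7 := by gcongr
    _ = _ := by
        rw [← pow_mul, ← ee, add_mul, Real.exp_add, pow_add]
        field_simp

theorem uu (hV : VmStmt) (hB : BilStmt) (hD : DStmt) : UStmt := by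
  obtain ⟨A0, hA0, hV⟩ := hV
  refine ⟨(2 * A0 + 43) * 3 ^ 8 + 1764180, by nlinarith,
    fun k N Y n t hk hY hYN hNY hn hn' h1 h2 => ?_⟩
  have hN : 1 ≤ N := (Nat.pow_pos hY).trans_le hYN
  have hN1 : (1 : ℝ) ≤ N := by exact_mod_cast hN
  have hN0 : (0 : ℝ) < N := by linarith
  have hk1 : (1 : ℝ) ≤ k := by exact_mod_cast hk
  have hp : ∀ m : ℕ, ((N : ℝ) ^ (1 / 60 : ℝ)) ^ m = (N : ℝ) ^ ((m : ℝ) / 60) := fun m => by
    rw [← Real.rpow_natCast, ← Real.rpow_mul hN0.le]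
    congr 1
    ring
  have hv : 1 ≤ (N : ℝ) ^ (1 / 60 : ℝ) := Real.one_le_rpow hN1 (by norm_num)
  have h60 : ((N : ℝ) ^ (1 / 60 : ℝ)) ^ 60 = N := by rw [hp]; norm_num
  have h54 : ((N : ℝ) ^ (1 / 60 : ℝ)) ^ 54 = (N : ℝ) ^ (9 / 10 : ℝ) := by rw [hp]; norm_num
  have h6 : 1 / ((N : ℝ) ^ (1 / 60 : ℝ)) ^ 6 = (N : ℝ) ^ (-(1 / 10) : ℝ) := by
    rw [hp, Real.rpow_neg hN0.le, one_div]; norm_num
  generalize (N : ℝ) ^ (1 / 60 : ℝ) = v at hv h60 h54 h6
  have hv0 : 0 < v := by linarith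
  have key := pow_U hB hD (A0 := A0) (v := v) (n := n) (t := t) hk hY hv (h54 ▸ h1)
    (by rw [pow_mul, h60]; exact h2) (by rw [h60]; exact_mod_cast hn.le)
    (by rw [h60]; exact_mod_cast hn')
    (le_of_pow_le_pow_left₀ (n := 3) (by norm_num) (by positivity) (by
      rw [← pow_mul, h60, mul_pow]; norm_num; exact_mod_cast hNY))
    (le_of_pow_le_pow_left₀ (n := 3) (by norm_num) (by positivity) (by
      rw [← pow_mul, h60]; exact_mod_cast hYN))
    (hV (3 * k) Y (by omega) hY)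
  have hm : ((2 * (11 * (3 * k) ^ 3) ^ 2 : ℕ) : ℝ) = 176418 * (k : ℝ) ^ 6 := by push_cast; ring
  have hk6 : (1 : ℝ) ≤ (k : ℝ) ^ 6 := one_le_pow₀ hk1
  have hk8 : (k : ℝ) ^ 6 ≤ (k : ℝ) ^ 8 := pow_le_pow_right₀ hk1 (by norm_num)
  have hm0 : 2 * (11 * (3 * k) ^ 3) ^ 2 ≠ 0 := by positivity
  generalize 2 * (11 * (3 * k) ^ 3) ^ 2 = m at key hm hm0
  refine le_of_pow_le_pow_left₀ hm0 (by positivity) (key.trans ?_)
  rw [mul_pow, mul_pow, h6]
  have hA : (0 : ℝ) < (2 * A0 + 43) * 3 ^ 8 := by positivity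
  have e3 : (2 * A0 + 43) * ((3 * k : ℕ) : ℝ) ^ 8 = (2 * A0 + 43) * 3 ^ 8 * (k : ℝ) ^ 8 := by
    push_cast; ring
  rw [e3]
  generalize (2 * A0 + 43) * 3 ^ 8 = A at hA ⊢
  have f1 : Real.exp (A * (k : ℝ) ^ 8) ≤ Real.exp ((A + 1764180) * (k : ℝ) ^ 8) ^ m :=
    (Real.exp_le_exp.2 (by nlinarith)).trans
      (le_self_pow₀ (Real.one_le_exp (by positivity)) hm0)
  have f2 : (N : ℝ) ^ (-(1 / 10) : ℝ) ≤
      ((N : ℝ) ^ (-(1 / ((A + 1764180) * (k : ℝ) ^ 8)))) ^ m := by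
    rw [← Real.rpow_natCast, ← Real.rpow_mul hN0.le]
    refine Real.rpow_le_rpow_of_exponent_le hN1 ?_
    rw [neg_mul, neg_le_neg_iff, hm, div_mul_eq_mul_div, div_le_div_iff₀ (by positivity)
      (by norm_num)]
    nlinarith
  gcongr

end Pool.Agent.MP_c853c5_nt.Z

end

section

set_option autoImplicit false

namespace Pool.Agent.MP_c853c5_nt.Z

open Complex Filter Topology Finset

noncomputable section

lemma cp_EM (a : ℂ) {n u : ℝ} (h : 0 < n - u) :
    HasDerivAt (fun u : ℝ => ((n - u : ℝ) : ℂ) ^ a) (-a * ((n - u : ℝ) : ℂ) ^ (a - 1)) u := by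
  have h1 : HasDerivAt (fun z : ℂ => ((n : ℂ) - z) ^ a)
      (a * ((n : ℂ) - u) ^ (a - 1) * (-1)) (u : ℂ) := by
    have h2 : HasDerivAt (fun z : ℂ => (n : ℂ) - z) (-1) (u : ℂ) := by
      simpa using (hasDerivAt_id (u : ℂ)).const_sub (n : ℂ)
    exact h2.cpow_const (by
      have : (n : ℂ) - u = ((n - u : ℝ) : ℂ) := by push_cast; ring
      rw [this]; exact ofReal_mem_slitPlane.mpr h)
  have h3 := h1.comp_ofReal
  push_cast
  exact h3.congr_deriv (by ring)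

/-- The error of the right endpoint rule, times `s - 1`. -/
def U_EM (y : ℝ) (s : ℂ) : ℂ :=
  (y : ℂ) ^ (1 - s) - ((y + 1 : ℝ) : ℂ) ^ (1 - s) - (s - 1) * ((y + 1 : ℝ) : ℂ) ^ (-s)

lemma bd_EM {s : ℂ} {a y : ℝ} (ha : 0 < a) (hs : a ≤ s.re) (hy : 1 ≤ y) :
    ‖U_EM y s‖ ≤ ‖s - 1‖ * (‖s‖ * ((y ^ (-a) - (y + 1) ^ (-a)) / a)) := by
  have hp : ∀ u ∈ Set.Icc (0 : ℝ) 1, 1 ≤ y + 1 - u := fun u hu => by linarith [hu.2]
  have hg : ∀ u ∈ Set.Icc (0 : ℝ) 1,
      ‖((y + 1 - u : ℝ) : ℂ) ^ (-s) - ((y + 1 : ℝ) : ℂ) ^ (-s)‖ ≤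
        ‖s‖ * (((y + 1 - u) ^ (-a) - (y + 1) ^ (-a)) / a) := by
    intro u hu
    have hd : ∀ x ∈ Set.Icc (0 : ℝ) 1, HasDerivAt
        (fun u : ℝ => ((y + 1 - u : ℝ) : ℂ) ^ (-s) - ((y + 1 : ℝ) : ℂ) ^ (-s))
        (s * ((y + 1 - x : ℝ) : ℂ) ^ (-s - 1)) x := fun x hx =>
      ((cp_EM (-s) (by linarith [hp x hx])).sub_const _).congr_deriv (by ring)
    have hB : ∀ x ∈ Set.Icc (0 : ℝ) 1, HasDerivAt
        (fun u : ℝ => ‖s‖ * (((y + 1 - u) ^ (-a) - (y + 1) ^ (-a)) / a))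
        (‖s‖ * (y + 1 - x) ^ (-a - 1)) x := fun x hx => by
      have h1 : HasDerivAt (fun u : ℝ => y + 1 - u) (-1) x := by
        simpa using (hasDerivAt_id x).const_sub (y + 1)
      have h2 := h1.rpow_const (p := -a) (Or.inl (by linarith [hp x hx]))
      refine (((h2.sub_const ((y + 1) ^ (-a))).div_const a).const_mul ‖s‖).congr_deriv ?_
      field_simp
    refine image_norm_le_of_norm_deriv_right_le_deriv_boundary'
      (f := fun u : ℝ => ((y + 1 - u : ℝ) : ℂ) ^ (-s) - ((y + 1 : ℝ) : ℂ) ^ (-s))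
      (f' := fun x => s * ((y + 1 - x : ℝ) : ℂ) ^ (-s - 1)) (a := 0) (b := 1)
      (fun x hx => (hd x hx).continuousAt.continuousWithinAt)
      (fun x hx => (hd x (Set.Ico_subset_Icc_self hx)).hasDerivWithinAt)
      (B := fun u : ℝ => ‖s‖ * (((y + 1 - u) ^ (-a) - (y + 1) ^ (-a)) / a))
      (B' := fun x => ‖s‖ * (y + 1 - x) ^ (-a - 1)) (by simp)
      (fun x hx => (hB x hx).continuousAt.continuousWithinAt)
      (fun x hx => (hB x (Set.Ico_subset_Icc_self hx)).hasDerivWithinAt) (fun x hx => ?_) hu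
    have h1 := hp x (Set.Ico_subset_Icc_self hx)
    rw [norm_mul, norm_cpow_eq_rpow_re_of_pos (by linarith)]
    refine mul_le_mul_of_nonneg_left (Real.rpow_le_rpow_of_exponent_le h1 ?_) (norm_nonneg _)
    simp only [sub_re, neg_re, one_re]
    linarith
  have hd : ∀ x ∈ Set.Icc (0 : ℝ) 1, HasDerivAt
      (fun u : ℝ => ((y + 1 - u : ℝ) : ℂ) ^ (1 - s) - ((y + 1 : ℝ) : ℂ) ^ (1 - s) -
        (s - 1) * ((y + 1 : ℝ) : ℂ) ^ (-s) * u)
      ((s - 1) * (((y + 1 - x : ℝ) : ℂ) ^ (-s) - ((y + 1 : ℝ) : ℂ) ^ (-s))) x := fun x hx =>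
    (((cp_EM (1 - s) (by linarith [hp x hx])).sub_const _).sub
      (((hasDerivAt_id x).ofReal_comp).const_mul
        ((s - 1) * ((y + 1 : ℝ) : ℂ) ^ (-s)))).congr_deriv (by
          rw [show 1 - s - 1 = -s by ring]; push_cast; ring)
  have h := norm_image_sub_le_of_norm_deriv_le_segment_01'
    (C := ‖s - 1‖ * (‖s‖ * ((y ^ (-a) - (y + 1) ^ (-a)) / a)))
    (fun x hx => (hd x hx).hasDerivWithinAt) (fun x hx => by
      rw [norm_mul]
      refine mul_le_mul_of_nonneg_left ((hg x (Set.Ico_subset_Icc_self hx)).trans ?_)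
        (norm_nonneg _)
      have h1 : (y + 1 - x) ^ (-a) ≤ y ^ (-a) :=
        Real.rpow_le_rpow_of_nonpos (by linarith) (by linarith [hx.2]) (by linarith)
      gcongr)
  simpa [U_EM] using h

lemma tel_EM {a y : ℝ} (ha : 0 < a) (hy : 0 < y) :
    HasSum (fun m : ℕ => ((y + m) ^ (-a) - (y + m + 1) ^ (-a)) / a) (y ^ (-a) / a) := by
  have h0 : ∀ m : ℕ, 0 < y + m := fun m => by positivity
  rw [hasSum_iff_tendsto_nat_of_nonneg fun m => div_nonneg (sub_nonneg.2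
    (Real.rpow_le_rpow_of_nonpos (h0 m) (by linarith) (by linarith))) ha.le]
  have h1 : Tendsto (fun m : ℕ => (y + m) ^ (-a)) atTop (𝓝 0) :=
    (tendsto_rpow_neg_atTop ha).comp
      (tendsto_atTop_add_const_left _ _ tendsto_natCast_atTop_atTop)
  have h2 := (h1.const_sub (y ^ (-a))).div_const a
  rw [sub_zero] at h2
  refine h2.congr fun m => ?_
  have h3 := sum_range_sub' (fun m : ℕ => (y + m) ^ (-a)) m
  simp only [Nat.cast_add, Nat.cast_one, Nat.cast_zero, add_zero, ← add_assoc] at h3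
  rw [← sum_div, h3]

lemma bd2_EM {s : ℂ} {a : ℝ} (ha : 0 < a) (hs : a ≤ s.re) {N : ℕ} (hN : 1 ≤ N) (m : ℕ) :
    ‖U_EM (N + m) s‖ ≤
      ‖s - 1‖ * (‖s‖ * ((((N : ℝ) + m) ^ (-a) - ((N : ℝ) + m + 1) ^ (-a)) / a)) := by
  have hN' : (1 : ℝ) ≤ N := by exact_mod_cast hN
  have hm : (0 : ℝ) ≤ m := m.cast_nonneg
  exact bd_EM ha hs (by linarith)

lemma gt_EM {s : ℂ} (hs : 1 < s.re) {N : ℕ} (hN : 1 ≤ N) :
    ∑' m : ℕ, U_EM (N + m) s = (N : ℂ) ^ (1 - s) -
      (s - 1) * (riemannZeta s - ∑ n ∈ Icc 1 N, (n : ℂ) ^ (-s)) := by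
  have hN' : (1 : ℝ) ≤ N := by exact_mod_cast hN
  have hsum : Summable fun m : ℕ => U_EM (N + m) s :=
    Summable.of_norm_bounded (((tel_EM (a := s.re) (y := (N : ℝ)) (by linarith)
      (by linarith)).summable.mul_left _).mul_left _) (bd2_EM (by linarith) le_rfl hN)
  have key : ∀ M : ℕ, ∑ m ∈ range M, U_EM (N + m) s = (N : ℂ) ^ (1 - s) -
      ((N + M : ℝ) : ℂ) ^ (1 - s) - (s - 1) *
        (∑ n ∈ Icc 1 (N + M), (n : ℂ) ^ (-s) - ∑ n ∈ Icc 1 N, (n : ℂ) ^ (-s)) := by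
    intro M
    induction M with
    | zero => simp
    | succ M ih =>
      rw [sum_range_succ, ih, ← add_assoc N, sum_Icc_succ_top (by omega), U_EM]
      push_cast
      rw [← add_assoc]
      ring
  have hz : Tendsto (fun M : ℕ => ∑ n ∈ Icc 1 (N + M), (n : ℂ) ^ (-s)) atTop
      (𝓝 (riemannZeta s)) := by
    have h := (summable_riemannZetaSummand hs).of_norm.hasSum.tendsto_sum_nat
    rw [tsum_riemannZetaSummand hs] at h
    refine (h.comp (tendsto_add_atTop_nat (N + 1))).congr fun M => ?_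
    simp only [Function.comp]
    rw [range_eq_Ico, sum_eq_sum_Ico_succ_bot (by omega), map_zero, zero_add,
      show M + (N + 1) = N + M + 1 by ring]
    rfl
  have hA : Tendsto (fun M : ℕ => ((N + M : ℝ) : ℂ) ^ (1 - s)) atTop (𝓝 0) := by
    rw [tendsto_zero_iff_norm_tendsto_zero]
    have h1 : Tendsto (fun M : ℕ => (N : ℝ) + M) atTop atTop :=
      tendsto_atTop_add_const_left _ _ tendsto_natCast_atTop_atTop
    refine ((tendsto_rpow_neg_atTop (y := s.re - 1) (by linarith)).comp h1).congr fun M => ?_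
    simp only [Function.comp]
    rw [norm_cpow_eq_rpow_re_of_pos (by positivity)]
    simp
  have h := (hA.const_sub ((N : ℂ) ^ (1 - s))).sub
    ((hz.sub_const (∑ n ∈ Icc 1 N, (n : ℂ) ^ (-s))).const_mul (s - 1))
  rw [sub_zero] at h
  exact tendsto_nhds_unique hsum.hasSum.tendsto_sum_nat (h.congr fun M => (key M).symm)

lemma pow_EM {x : ℂ} (hx : x ≠ 0) {f : ℂ → ℂ} (hf : Differentiable ℂ f) :
    Differentiable ℂ fun z => x ^ f z := hf.const_cpow (Or.inl hx)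

lemma eq_EM {s : ℂ} (hs : 0 < s.re) {N : ℕ} (hN : 1 ≤ N) :
    ∑' m : ℕ, U_EM (N + m) s = (N : ℂ) ^ (1 - s) -
      (riemannZeta₁ s - (s - 1) * ∑ n ∈ Icc 1 N, (n : ℂ) ^ (-s)) := by
  have hN' : (1 : ℝ) ≤ N := by exact_mod_cast hN
  set B := ‖s‖ + 3 with hB
  have hB0 : 3 ≤ B := by linarith [norm_nonneg s]
  set a := min (s.re / 2) 1 with ha
  have ha0 : 0 < a := lt_min (by linarith) one_pos
  have ha1 : a ≤ 1 := min_le_right _ _
  have ha2 : a < s.re := (min_le_left _ _).trans_lt (by linarith)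
  set D : Set ℂ := {z | a < z.re} ∩ Metric.ball 0 B with hD
  have ho : IsOpen D := (isOpen_lt continuous_const continuous_re).inter Metric.isOpen_ball
  have hc : Convex ℝ D := (convex_halfSpace_re_gt _).inter (convex_ball _ _)
  have h1 : DifferentiableOn ℂ (fun z => ∑' m : ℕ, U_EM (N + m) z) D := by
    refine differentiableOn_tsum_of_summable_norm
      (((tel_EM (a := a) (y := (N : ℝ)) ha0 (by linarith)).summable.mul_left B).mul_left (B + 1))
      (fun m => Differentiable.differentiableOn ?_) ho fun m z hz => ?_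
    · have hm : (0 : ℝ) ≤ m := m.cast_nonneg
      exact ((pow_EM (ofReal_ne_zero.2 (by linarith)) (by fun_prop)).sub
        (pow_EM (ofReal_ne_zero.2 (by linarith)) (by fun_prop))).sub
        (Differentiable.mul (by fun_prop) (pow_EM (ofReal_ne_zero.2 (by linarith)) (by fun_prop)))
    · have hm : (0 : ℝ) ≤ m := m.cast_nonneg
      have hz1 : a < z.re := hz.1
      have hz2 : ‖z‖ ≤ B := (mem_ball_zero_iff.1 hz.2).le
      refine (bd2_EM ha0 hz1.le hN m).trans ?_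
      have a1 : ‖z - 1‖ ≤ B + 1 := (norm_sub_le _ _).trans (by rw [norm_one]; linarith)
      have a5 : 0 ≤ (((N : ℝ) + m) ^ (-a) - ((N : ℝ) + m + 1) ^ (-a)) / a :=
        div_nonneg (sub_nonneg.2
          (Real.rpow_le_rpow_of_nonpos (by linarith) (by linarith) (by linarith))) ha0.le
      gcongr
  have h2 : Differentiable ℂ fun z => (N : ℂ) ^ (1 - z) -
      (riemannZeta₁ z - (z - 1) * ∑ n ∈ Icc 1 N, (n : ℂ) ^ (-z)) := by
    refine (pow_EM (by exact_mod_cast (by omega : N ≠ 0)) (by fun_prop)).sub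
      (differentiable_riemannZeta₁.sub (Differentiable.mul (by fun_prop) ?_))
    refine Differentiable.fun_sum fun n hn => pow_EM ?_ (by fun_prop)
    have := (mem_Icc.1 hn).1
    exact_mod_cast (by omega : n ≠ 0)
  have h2D : (2 : ℂ) ∈ D :=
    ⟨by show a < (2 : ℂ).re; norm_num; linarith, by rw [mem_ball_zero_iff]; norm_num; linarith⟩
  refine (h1.analyticOnNhd ho).eqOn_of_preconnected_of_eventuallyEq
    (h2.differentiableOn.analyticOnNhd ho) hc.isPreconnected h2D ?_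
    ⟨ha2, by rw [mem_ball_zero_iff]; linarith⟩
  filter_upwards [(isOpen_lt continuous_const continuous_re).mem_nhds
    (show (2 : ℂ) ∈ {z : ℂ | 1 < z.re} by norm_num)] with z hz
  have hz1 : z ≠ 1 := fun h => by simp [h] at hz
  rw [gt_EM hz hN, zeta1_eq hz1]
  ring

theorem em : EMStmt := by
  intro s N hs hs1 hN
  have hN' : (1 : ℝ) ≤ N := by exact_mod_cast hN
  have hs' : s - 1 ≠ 0 := sub_ne_zero.2 hs1
  have h1 := tsum_of_norm_bounded (((tel_EM (a := s.re) (y := (N : ℝ)) hs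
    (by linarith)).mul_left ‖s‖).mul_left ‖s - 1‖) (bd2_EM hs le_rfl hN)
  have e : riemannZeta s - ∑ n ∈ Icc 1 N, (n : ℂ) ^ (-s) - (N : ℂ) ^ (1 - s) / (s - 1) =
      -(∑' m : ℕ, U_EM (N + m) s) / (s - 1) := by
    rw [eq_EM hs hN, zeta1_eq hs1]
    field_simp
    ring
  rw [e, norm_div, norm_neg, div_le_iff₀ (norm_pos_iff.2 hs')]
  refine h1.trans (le_of_eq ?_)
  ring

end

end Pool.Agent.MP_c853c5_nt.Z

end

section

/-!
The weighted argument principle on a rectangle.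
-/

set_option autoImplicit false

open Complex MeasureTheory Set Filter Topology
open scoped Real ComplexConjugate

namespace Pool.Agent.MP_c853c5_nt.Z

/-- The boundary integral over the rectangle `[a, b] × [c, d]`. -/
noncomputable def rI (h : ℂ → ℂ) (a b c d : ℝ) : ℂ :=
  (∫ x in a..b, h (x + c * I)) - (∫ x in a..b, h (x + d * I))
    + I * (∫ y in c..d, h (b + y * I)) - I * (∫ y in c..d, h (a + y * I))

/-- The boundary of the rectangle. -/
def Bd (a b c d : ℝ) (z : ℂ) : Prop :=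
  z ∈ Icc a b ×ℂ Icc c d ∧ (z.re = a ∨ z.re = b ∨ z.im = c ∨ z.im = d)

theorem Bd.not_mem {a b c d : ℝ} {z : ℂ} (h : Bd a b c d z) : z ∉ Ioo a b ×ℂ Ioo c d := by
  intro hz
  obtain ⟨⟨h1, h2⟩, h3, h4⟩ := hz
  rcases h.2 with h | h | h | h <;> linarith

theorem bd_bot {a b c d x : ℝ} (hab : a ≤ b) (hcd : c ≤ d) (hx : x ∈ uIcc a b) :
    Bd a b c d (x + c * I) := by
  rw [uIcc_of_le hab] at hx
  refine ⟨⟨by simpa using hx, by simp [hcd]⟩, by simp⟩

theorem bd_top {a b c d x : ℝ} (hab : a ≤ b) (hcd : c ≤ d) (hx : x ∈ uIcc a b) :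
    Bd a b c d (x + d * I) := by
  rw [uIcc_of_le hab] at hx
  refine ⟨⟨by simpa using hx, by simp [hcd]⟩, by simp⟩

theorem bd_right {a b c d y : ℝ} (hab : a ≤ b) (hcd : c ≤ d) (hy : y ∈ uIcc c d) :
    Bd a b c d (b + y * I) := by
  rw [uIcc_of_le hcd] at hy
  refine ⟨⟨by simp [hab], by simpa using hy⟩, by simp⟩

theorem bd_left {a b c d y : ℝ} (hab : a ≤ b) (hcd : c ≤ d) (hy : y ∈ uIcc c d) :
    Bd a b c d (a + y * I) := by
  rw [uIcc_of_le hcd] at hy
  refine ⟨⟨by simp [hab], by simpa using hy⟩, by simp⟩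

theorem rI_eq_zero {h : ℂ → ℂ} {a b c d : ℝ} (hab : a ≤ b) (hcd : c ≤ d)
    (hh : DifferentiableOn ℂ h (Icc a b ×ℂ Icc c d)) : rI h a b c d = 0 := by
  have := integral_boundary_rect_eq_zero_of_differentiableOn h ⟨a, c⟩ ⟨b, d⟩
    (by simpa [uIcc_of_le hab, uIcc_of_le hcd] using hh)
  simpa [rI] using this

theorem rI_congr {h h' : ℂ → ℂ} {a b c d : ℝ} (hab : a ≤ b) (hcd : c ≤ d)
    (e : ∀ z, Bd a b c d z → h z = h' z) : rI h a b c d = rI h' a b c d := by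
  simp only [rI]
  rw [intervalIntegral.integral_congr fun x hx => e _ (bd_bot hab hcd hx),
    intervalIntegral.integral_congr fun x hx => e _ (bd_top hab hcd hx),
    intervalIntegral.integral_congr fun x hx => e _ (bd_right hab hcd hx),
    intervalIntegral.integral_congr fun x hx => e _ (bd_left hab hcd hx)]

theorem rI_add {h h' : ℂ → ℂ} {a b c d : ℝ} (hab : a ≤ b) (hcd : c ≤ d)
    (e : ∀ z, Bd a b c d z → ContinuousAt h z) (e' : ∀ z, Bd a b c d z → ContinuousAt h' z) :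
    rI (fun z => h z + h' z) a b c d = rI h a b c d + rI h' a b c d := by
  have key : ∀ (k : ℂ → ℂ) (p : ℝ → ℂ) (u v : ℝ), Continuous p →
      (∀ z, Bd a b c d z → ContinuousAt k z) → (∀ x ∈ uIcc u v, Bd a b c d (p x)) →
      IntervalIntegrable (fun x => k (p x)) volume u v := fun k p u v hp hk hb =>
    ContinuousOn.intervalIntegrable fun x hx =>
      (ContinuousAt.comp (f := p) (hk _ (hb x hx)) hp.continuousAt).continuousWithinAt
  simp only [rI]
  rw [intervalIntegral.integral_add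
      (key h (fun x : ℝ => x + c * I) a b (by fun_prop) e fun x hx => bd_bot hab hcd hx)
      (key h' (fun x : ℝ => x + c * I) a b (by fun_prop) e' fun x hx => bd_bot hab hcd hx),
    intervalIntegral.integral_add
      (key h (fun x : ℝ => x + d * I) a b (by fun_prop) e fun x hx => bd_top hab hcd hx)
      (key h' (fun x : ℝ => x + d * I) a b (by fun_prop) e' fun x hx => bd_top hab hcd hx),
    intervalIntegral.integral_add
      (key h (fun y : ℝ => b + y * I) c d (by fun_prop) e fun x hx => bd_right hab hcd hx)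
      (key h' (fun y : ℝ => b + y * I) c d (by fun_prop) e' fun x hx => bd_right hab hcd hx),
    intervalIntegral.integral_add
      (key h (fun y : ℝ => a + y * I) c d (by fun_prop) e fun x hx => bd_left hab hcd hx)
      (key h' (fun y : ℝ => a + y * I) c d (by fun_prop) e' fun x hx => bd_left hab hcd hx)]
  ring

theorem rI_const_mul (k : ℂ) (h : ℂ → ℂ) (a b c d : ℝ) :
    rI (fun z => k * h z) a b c d = k * rI h a b c d := by
  simp only [rI, intervalIntegral.integral_const_mul]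
  ring

theorem log_neg_of_im_pos {w : ℂ} (hw : 0 < w.im) : log (-w) = log w - π * I := by
  apply Complex.ext
  · simp [log_re]
  · rw [log_im, arg_neg_eq_arg_sub_pi_of_im_pos hw]
    simp [log_im]

theorem log_neg_of_im_neg {w : ℂ} (hw : w.im < 0) : log (-w) = log w + π * I := by
  apply Complex.ext
  · simp [log_re]
  · rw [log_im, arg_neg_eq_arg_add_pi_of_im_neg hw]
    simp [log_im]

theorem integral_inv_horizontal (ρ : ℂ) (a b e : ℝ) (he : e ≠ ρ.im) :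
    (∫ x : ℝ in a..b, ((x : ℂ) + e * I - ρ)⁻¹) =
      log (b + e * I - ρ) - log (a + e * I - ρ) := by
  have him : ∀ x : ℝ, ((x : ℂ) + e * I - ρ).im ≠ 0 := fun x => by simpa [sub_eq_zero] using he
  rw [intervalIntegral.integral_eq_sub_of_hasDerivAt (f := fun x : ℝ => log ((x : ℂ) + e * I - ρ))]
  · intro x _
    have h1 : HasDerivAt (fun x : ℝ => (x : ℂ) + e * I - ρ) 1 x :=
      ((hasDerivAt_id x).ofReal_comp.add_const _).sub_const _
    simpa using h1.clog_real (Or.inr (him x))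
  · refine ContinuousOn.intervalIntegrable (ContinuousOn.inv₀ (by fun_prop) fun x _ h => ?_)
    exact him x (by rw [h]; simp)

theorem integral_inv_right (ρ : ℂ) (b c d : ℝ) (hb : ρ.re < b) :
    I * (∫ y : ℝ in c..d, ((b : ℂ) + y * I - ρ)⁻¹) =
      log (b + d * I - ρ) - log (b + c * I - ρ) := by
  have hre : ∀ y : ℝ, 0 < ((b : ℂ) + y * I - ρ).re := fun y => by simpa using hb
  rw [← intervalIntegral.integral_const_mul, intervalIntegral.integral_eq_sub_of_hasDerivAt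
    (f := fun y : ℝ => log ((b : ℂ) + y * I - ρ))]
  · intro y _
    have h1 : HasDerivAt (fun y : ℝ => (b : ℂ) + y * I - ρ) (1 * I) y :=
      ((((hasDerivAt_id y).ofReal_comp).mul_const I).const_add _).sub_const _
    exact (h1.clog_real (Or.inl (hre y))).congr_deriv (by simp [div_eq_mul_inv])
  · refine ContinuousOn.intervalIntegrable (continuousOn_const.mul
      (ContinuousOn.inv₀ (by fun_prop) fun y _ h => ?_))
    have := hre y
    rw [h] at this
    simp at this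

theorem integral_inv_left (ρ : ℂ) (a c d : ℝ) (ha : a < ρ.re) :
    I * (∫ y : ℝ in c..d, ((a : ℂ) + y * I - ρ)⁻¹) =
      log (-(a + d * I - ρ)) - log (-(a + c * I - ρ)) := by
  have hre : ∀ y : ℝ, 0 < (-((a : ℂ) + y * I - ρ)).re := fun y => by simpa using ha
  rw [← intervalIntegral.integral_const_mul, intervalIntegral.integral_eq_sub_of_hasDerivAt
    (f := fun y : ℝ => log (-((a : ℂ) + y * I - ρ)))]
  · intro y _
    have h1 : HasDerivAt (fun y : ℝ => -((a : ℂ) + y * I - ρ)) (-(1 * I)) y :=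
      (((((hasDerivAt_id y).ofReal_comp).mul_const I).const_add _).sub_const _).neg
    exact (h1.clog_real (Or.inl (hre y))).congr_deriv
      (by rw [neg_div_neg_eq]; simp [div_eq_mul_inv])
  · refine ContinuousOn.intervalIntegrable (continuousOn_const.mul
      (ContinuousOn.inv₀ (by fun_prop) fun y _ h => ?_))
    have := hre y
    rw [h] at this
    simp at this

theorem rI_inv {ρ : ℂ} {a b c d : ℝ} (hρ : ρ ∈ Ioo a b ×ℂ Ioo c d) :
    rI (fun z => (z - ρ)⁻¹) a b c d = 2 * π * I := by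
  obtain ⟨⟨h1, h2⟩, h3, h4⟩ := hρ
  simp only [rI]
  rw [integral_inv_horizontal ρ a b c h3.ne, integral_inv_horizontal ρ a b d h4.ne',
    integral_inv_right ρ b c d h2, integral_inv_left ρ a c d h1,
    log_neg_of_im_pos (w := a + d * I - ρ) (by simpa using h4),
    log_neg_of_im_neg (w := a + c * I - ρ) (by simpa using h3)]
  ring

/-- Cauchy's integral formula on a rectangle, for an entire function. -/
theorem rI_cauchy {ρ : ℂ} {a b c d : ℝ} (hab : a ≤ b) (hcd : c ≤ d)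
    (hρ : ρ ∈ Ioo a b ×ℂ Ioo c d) {g : ℂ → ℂ} (hg : Differentiable ℂ g) :
    rI (fun z => (z - ρ)⁻¹ * g z) a b c d = 2 * π * I * g ρ := by
  have hd : Differentiable ℂ (dslope g ρ) :=
    differentiableOn_univ.1 ((differentiableOn_dslope univ_mem).2 hg.differentiableOn)
  have hne : ∀ z, Bd a b c d z → z - ρ ≠ 0 := fun z hz h =>
    hz.not_mem (by rw [sub_eq_zero.1 h]; exact hρ)
  rw [rI_congr (h' := fun z => dslope g ρ z + g ρ * (z - ρ)⁻¹) hab hcd, rI_add hab hcd,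
    rI_eq_zero hab hcd hd.differentiableOn, rI_const_mul, rI_inv hρ]
  · ring
  · exact fun z _ => hd.continuous.continuousAt
  · intro z hz
    exact continuousAt_const.mul ((continuousAt_id.sub continuousAt_const).inv₀ (hne z hz))
  · intro z hz
    have h1 := hne z hz
    rw [dslope_of_ne _ (sub_ne_zero.1 h1), slope_def_field]
    field_simp
    ring

theorem analyticAt_logDeriv {F : ℂ → ℂ} {z : ℂ} (hF : AnalyticAt ℂ F z) (h0 : F z ≠ 0) :
    AnalyticAt ℂ (logDeriv F) z :=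
  hF.deriv.div hF h0

/-- Removing one zero of an analytic function. -/
theorem exists_factor_rect {F : ℂ → ℂ} {S : Set ℂ} {ρ : ℂ} (hF : AnalyticOnNhd ℂ F S) (hρ : ρ ∈ S)
    (hfin : analyticOrderAt F ρ ≠ ⊤) :
    ∃ G : ℂ → ℂ, AnalyticOnNhd ℂ G S ∧ G ρ ≠ 0 ∧
      ∀ z, z ≠ ρ → F z = (z - ρ) ^ (analyticOrderAt F ρ).toNat * G z := by
  classical
  obtain ⟨G, hG, hG0, hFG⟩ := (hF ρ hρ).analyticOrderAt_ne_top.1 hfin
  set m := (analyticOrderAt F ρ).toNat with hm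
  refine ⟨fun z => if z = ρ then G ρ else F z / (z - ρ) ^ m, fun z hz => ?_, by simpa using hG0,
    fun z hz => ?_⟩
  · by_cases hzρ : z = ρ
    · subst hzρ
      refine hG.congr ?_
      filter_upwards [hFG] with w hw
      by_cases hw' : w = z
      · simp [hw']
      · have : (w - z) ^ m ≠ 0 := pow_ne_zero _ (sub_ne_zero.2 hw')
        simp only [hw', if_false, hw, smul_eq_mul, analyticOrderNatAt, ← hm]
        field_simp
    · have h1 : AnalyticAt ℂ (fun w => F w / (w - ρ) ^ m) z :=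
        (hF z hz).div (by fun_prop) (pow_ne_zero _ (sub_ne_zero.2 hzρ))
      refine h1.congr ?_
      filter_upwards [isOpen_ne.mem_nhds hzρ] with w hw
      simp [hw]
  · have : (z - ρ) ^ m ≠ 0 := pow_ne_zero _ (sub_ne_zero.2 hz)
    simp only [hz, if_false]
    field_simp

theorem rI_argument {g : ℂ → ℂ} {a b c d : ℝ} (hab : a ≤ b) (hcd : c ≤ d)
    (hg : Differentiable ℂ g) (Z : Finset ℂ) :
    ∀ F : ℂ → ℂ, AnalyticOnNhd ℂ F (Icc a b ×ℂ Icc c d) →
      (∀ z, z ∈ Z ↔ z ∈ Icc a b ×ℂ Icc c d ∧ F z = 0) → (∀ z ∈ Z, z ∈ Ioo a b ×ℂ Ioo c d) →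
      rI (fun z => logDeriv F z * g z) a b c d
        = 2 * π * I * ∑ ρ ∈ Z, ((analyticOrderAt F ρ).toNat : ℂ) * g ρ := by
  classical
  induction Z using Finset.induction_on with
  | empty =>
    intro F hF hZ _
    rw [rI_eq_zero hab hcd]
    · simp
    · intro z hz
      have h0 : F z ≠ 0 := fun h => by simpa using (hZ z).2 ⟨hz, h⟩
      exact ((analyticAt_logDeriv (hF z hz) h0).differentiableAt.mul
        (hg z)).differentiableWithinAt
  | insert ρ Z hρZ ih =>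
    intro F hF hZ hin
    have hρin := hin ρ (Finset.mem_insert_self _ _)
    have hρS := ((hZ ρ).1 (Finset.mem_insert_self _ _)).1
    have hnh : Icc a b ×ℂ Icc c d ∈ 𝓝 ρ :=
      mem_of_superset ((isOpen_Ioo.reProdIm isOpen_Ioo).mem_nhds hρin)
        (inter_subset_inter (preimage_mono Ioo_subset_Icc_self) (preimage_mono Ioo_subset_Icc_self))
    have hfin : analyticOrderAt F ρ ≠ ⊤ := by
      intro h
      rw [analyticOrderAt_eq_top] at h
      have h2 : ((insert ρ Z : Finset ℂ) : Set ℂ) ∈ 𝓝 ρ := by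
        filter_upwards [h, hnh] with z h1 h2 using (hZ z).2 ⟨h2, h1⟩
      exact (infinite_of_mem_nhds ρ h2) (Finset.finite_toSet _)
    obtain ⟨G, hG, hG0, hFG⟩ := exists_factor_rect hF hρS hfin
    set m := (analyticOrderAt F ρ).toNat with hm
    have hev : ∀ z, z ≠ ρ → F =ᶠ[𝓝 z] fun w => (w - ρ) ^ m * G w := fun z hz => by
      filter_upwards [isOpen_ne.mem_nhds hz] with w hw using hFG w hw
    have hGZ : ∀ z, z ∈ Z ↔ z ∈ Icc a b ×ℂ Icc c d ∧ G z = 0 := by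
      intro z
      by_cases hz : z = ρ
      · subst hz
        simp [hρZ, hG0]
      · have h1 := hZ z
        rw [Finset.mem_insert, or_iff_right hz, hFG z hz, mul_eq_zero,
          or_iff_right (pow_ne_zero _ (sub_ne_zero.2 hz))] at h1
        exact h1
    have hord : ∀ z ∈ Z, analyticOrderAt F z = analyticOrderAt G z := by
      intro z hz
      have hzρ : z ≠ ρ := fun h => hρZ (h ▸ hz)
      have hp : AnalyticAt ℂ (fun w : ℂ => (w - ρ) ^ m) z := by fun_prop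
      rw [analyticOrderAt_congr (hev z hzρ)]
      have := analyticOrderAt_mul hp (hG z ((hGZ z).1 hz).1)
      rw [hp.analyticOrderAt_eq_zero.2 (pow_ne_zero _ (sub_ne_zero.2 hzρ)), zero_add] at this
      exact this
    have hne : ∀ z, Bd a b c d z → z ≠ ρ := fun z hz h => hz.not_mem (h ▸ hρin)
    have hGne : ∀ z, Bd a b c d z → G z ≠ 0 := fun z hz h =>
      hz.not_mem (hin z (Finset.mem_insert_of_mem ((hGZ z).2 ⟨hz.1, h⟩)))
    have hs : ∑ z ∈ Z, ((analyticOrderAt F z).toNat : ℂ) * g z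
        = ∑ z ∈ Z, ((analyticOrderAt G z).toNat : ℂ) * g z :=
      Finset.sum_congr rfl fun z hz => by rw [hord z hz]
    rw [rI_congr (h' := fun z => (m : ℂ) * ((z - ρ)⁻¹ * g z) + logDeriv G z * g z) hab hcd,
      rI_add hab hcd, rI_const_mul, rI_cauchy hab hcd hρin hg,
      ih G hG hGZ fun z hz => hin z (Finset.mem_insert_of_mem hz), Finset.sum_insert hρZ, hs]
    · ring
    · intro z hz
      exact continuousAt_const.mul (((continuousAt_id.sub continuousAt_const).inv₀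
        (sub_ne_zero.2 (hne z hz))).mul hg.continuous.continuousAt)
    · intro z hz
      exact (analyticAt_logDeriv (hG z hz.1) (hGne z hz)).continuousAt.mul
        hg.continuous.continuousAt
    · intro z hz
      have h1 : z - ρ ≠ 0 := sub_ne_zero.2 (hne z hz)
      have h2 : logDeriv (fun w : ℂ => w - ρ) z = (z - ρ)⁻¹ := by
        simp [logDeriv_apply]
      rw [(logDeriv_congr_nhds (hev z (hne z hz))).self_of_nhds,
        logDeriv_mul (f := fun w => (w - ρ) ^ m) z (pow_ne_zero _ h1) (hGne z hz) (by fun_prop)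
          (hG z hz.1).differentiableAt,
        logDeriv_fun_pow (f := fun w => w - ρ) (by fun_prop), h2]
      ring

end Pool.Agent.MP_c853c5_nt.Z

end

section

set_option autoImplicit false

open Set Complex MeasureTheory

namespace Pool.Agent.MP_c853c5_nt.Z

/-- the integrand -/
noncomputable def hh_Res (g : ℂ → ℂ) (z : ℂ) : ℂ :=
  (z - 1)⁻¹ * g z + (-1) * (logDeriv riemannZeta₁ z * g z)

lemma contL_Res {z : ℂ} (h0 : riemannZeta₁ z ≠ 0) : ContinuousAt (logDeriv riemannZeta₁) z :=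
  (analyticAt_logDeriv (differentiable_riemannZeta₁.analyticAt z) h0).continuousAt

lemma seg_Res {g : ℂ → ℂ} (hg : Differentiable ℂ g) (p : ℝ → ℂ) (hp : Continuous p) {u v r : ℝ}
    (huv : u ≤ v) (hr : 0 < r) (h0 : ∀ x ∈ Icc u v, riemannZeta₁ (p x) ≠ 0)
    (h1 : ∀ x, r ≤ ‖p x - 1‖) :
    ‖∫ x in u..v, hh_Res g (p x)‖ ≤
      ∫ x in u..v, (‖logDeriv riemannZeta₁ (p x)‖ + 1 / r) * ‖g (p x)‖ := by
  have hL : ContinuousOn (fun x => logDeriv riemannZeta₁ (p x)) (Icc u v) := fun x hx =>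
    ((contL_Res (h0 x hx)).comp hp.continuousAt).continuousWithinAt
  have hG : Continuous fun x => g (p x) := hg.continuous.comp hp
  refine intervalIntegral.norm_integral_le_of_norm_le huv (ae_of_all _ fun x _ => ?_) ?_
  · have e : hh_Res g (p x) = ((p x - 1)⁻¹ - logDeriv riemannZeta₁ (p x)) * g (p x) := by
      unfold hh_Res
      ring
    rw [e, norm_mul]
    refine mul_le_mul_of_nonneg_right ((norm_sub_le _ _).trans ?_) (norm_nonneg _)
    rw [norm_inv, add_comm, ← one_div]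
    gcongr
    exact h1 x
  · refine ContinuousOn.intervalIntegrable_of_Icc huv ?_
    exact (hL.norm.add continuousOn_const).mul hG.norm.continuousOn

theorem res : ResStmt := by
  intro g a c d hg ha hc hd hH hV
  have ha2 : a ≤ 2 := by linarith
  have hcd : c ≤ d := by linarith
  have hK : IsCompact (Icc a 2 ×ℂ Icc c d) := isCompact_Icc.reProdIm isCompact_Icc
  have hfin : {z : ℂ | z ∈ Icc a 2 ×ℂ Icc c d ∧ riemannZeta₁ z = 0}.Finite :=
    (hK.inter_riemannZetaZeros_finite).subset fun z hz => ⟨hz.1, zeta_of_zeta1 hz.2⟩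
  have hbd : ∀ z, Bd a 2 c d z → riemannZeta₁ z ≠ 0 := by
    intro z hz h0
    obtain ⟨⟨h1, h2⟩, h3⟩ := hz
    have e := Complex.re_add_im z
    rcases h3 with h3 | h3 | h3 | h3
    · exact hV z.im h2 (by rw [← h3, e]; exact h0)
    · have := re_lt_one h0
      linarith
    · exact (hH z.re h1).1 (by rw [← h3, e]; exact h0)
    · exact (hH z.re h1).2 (by rw [← h3, e]; exact h0)
  have hone : (1 : ℂ) ∈ Ioo a 2 ×ℂ Ioo c d := ⟨⟨by simpa using ha, by simp⟩, by simpa using hc,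
    by simpa using hd⟩
  have hne : ∀ z, Bd a 2 c d z → z - 1 ≠ 0 := fun z hz h =>
    hz.not_mem (by rw [sub_eq_zero.1 h]; exact hone)
  refine ⟨hfin.toFinset, fun ρ hρ => ?_, ?_⟩
  · obtain ⟨⟨h1, h2⟩, h3⟩ := hfin.mem_toFinset.1 hρ
    exact ⟨h3, h1.1, h1.2, h2.1, h2.2⟩
  have hin : ∀ z ∈ hfin.toFinset, z ∈ Ioo a 2 ×ℂ Ioo c d := by
    intro z hz
    obtain ⟨h1, h3⟩ := hfin.mem_toFinset.1 hz
    have hn : ¬ (z.re = a ∨ z.re = 2 ∨ z.im = c ∨ z.im = d) := fun h => hbd z ⟨h1, h⟩ h3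
    push Not at hn
    exact ⟨⟨lt_of_le_of_ne h1.1.1 hn.1.symm, lt_of_le_of_ne h1.1.2 hn.2.1⟩,
      lt_of_le_of_ne h1.2.1 hn.2.2.1.symm, lt_of_le_of_ne h1.2.2 hn.2.2.2⟩
  have harg := rI_argument ha2 hcd hg hfin.toFinset riemannZeta₁
    (fun z _ => differentiable_riemannZeta₁.analyticAt z) (fun z => hfin.mem_toFinset) hin
  have hcau := rI_cauchy ha2 hcd hone hg
  have hsum : rI (hh_Res g) a 2 c d =
      2 * Real.pi * I * (g 1 - ∑ ρ ∈ hfin.toFinset, (ord ρ : ℂ) * g ρ) := by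
    have := rI_add (h := fun z => (z - 1)⁻¹ * g z)
      (h' := fun z => (-1) * (logDeriv riemannZeta₁ z * g z)) ha2 hcd
      (fun z hz => ((continuousAt_id.sub continuousAt_const).inv₀ (hne z hz)).mul
        hg.continuous.continuousAt)
      (fun z hz => continuousAt_const.mul ((contL_Res (hbd z hz)).mul hg.continuous.continuousAt))
    rw [rI_const_mul, hcau, harg] at this
    refine this.trans ?_
    simp only [ord, Complex.ofReal_natCast]
    ring
  have hright : (∫ t in c..d, LSeries (fun n => (ArithmeticFunction.vonMangoldt n : ℂ))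
      (2 + t * Complex.I) * g (2 + t * Complex.I)) =
      ∫ t in c..d, hh_Res g (((2 : ℝ) : ℂ) + t * I) := by
    refine intervalIntegral.integral_congr fun t ht => ?_
    have hb := bd_right ha2 hcd ht
    have h1 := hbd _ hb
    have h2 := sub_ne_zero.1 (hne _ hb)
    simp only [Complex.ofReal_ofNat] at h1 h2 ⊢
    rw [LS_eq (by simp), hh_Res, logDeriv_zeta1 h2 h1]
    ring
  have b1 := seg_Res hg (fun t : ℝ => (a : ℂ) + t * I) (by fun_prop) hcd
    (show 0 < 1 - a by linarith) hV fun t => by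
      refine le_trans ?_ (Complex.abs_re_le_norm _)
      simp only [sub_re, add_re, ofReal_re, mul_re, I_re, mul_zero, ofReal_im, I_im, mul_one,
        sub_self, add_zero, one_re]
      rw [abs_sub_comm]
      exact le_abs_self _
  have b2 := seg_Res hg (fun s : ℝ => (s : ℂ) + c * I) (by fun_prop) ha2
    (abs_pos.2 hc.ne) (fun s hs => (hH s hs).1) fun t => by
      refine le_trans ?_ (Complex.abs_im_le_norm _)
      simp
  have b3 := seg_Res hg (fun s : ℝ => (s : ℂ) + d * I) (by fun_prop) ha2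
    (abs_pos.2 hd.ne') (fun s hs => (hH s hs).2) fun t => by
      refine le_trans ?_ (Complex.abs_im_le_norm _)
      simp
  rw [hright]
  unfold rI at hsum
  generalize (∫ t in c..d, hh_Res g (((2 : ℝ) : ℂ) + t * I)) = R at hsum ⊢
  generalize (∫ t in c..d, hh_Res g ((a : ℂ) + t * I)) = L at hsum b1
  generalize (∫ s in a..2, hh_Res g ((s : ℂ) + c * I)) = B at hsum b2
  generalize (∫ s in a..2, hh_Res g ((s : ℂ) + d * I)) = T at hsum b3
  generalize (g 1 - ∑ ρ ∈ hfin.toFinset, (ord ρ : ℂ) * g ρ) = S at hsum ⊢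
  have e : R - 2 * Real.pi * S = L + I * B - I * T := by
    have hI : I * I = -1 := Complex.I_mul_I
    linear_combination (-I) * hsum + (R - L - 2 * Real.pi * S) * hI
  rw [e]
  refine (norm_sub_le _ _).trans (add_le_add ((norm_add_le _ _).trans (add_le_add b1 ?_)) ?_)
  · rw [norm_mul, Complex.norm_I, one_mul]
    exact b2
  · rw [norm_mul, Complex.norm_I, one_mul]
    exact b3

end Pool.Agent.MP_c853c5_nt.Z

end

section

set_option autoImplicit false

open Finset Filter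

namespace Pool.Agent.MP_c853c5_nt.Z

lemma poly_Sm (c : ℝ) {δ : ℝ} (hδ : 0 < δ) :
    ∀ᶠ x : ℝ in atTop, c * Real.log x ^ 2 ≤ Real.exp (δ * Real.log x) := by
  refine Real.tendsto_log_atTop.eventually (p := fun L => c * L ^ 2 ≤ Real.exp (δ * L)) ?_
  filter_upwards [eventually_ge_atTop 0, eventually_ge_atTop (6 * c / δ ^ 3)] with L h0 h1
  have h2 := Real.pow_div_factorial_le_exp (δ * L) (by positivity) 3
  rw [div_le_iff₀ (by positivity)] at h1
  have h3 := mul_le_mul_of_nonneg_right h1 (sq_nonneg L)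
  have h4 : ((Nat.factorial 3 : ℕ) : ℝ) = 6 := by norm_num [Nat.factorial]
  rw [h4] at h2
  have h5 : (δ * L) ^ 3 = L * δ ^ 3 * L ^ 2 := by ring
  linarith

lemma T_Sm {L Δ a b : ℝ} (hL : 2 ≤ L) (h1 : Real.exp (-(a * L)) / L ≤ Δ) (h2 : Δ ≤ 1 / L)
    (h3 : 2 * L ^ 2 ≤ Real.exp ((b - a) * L)) :
    0 < Δ ∧ Δ ≤ 1 ∧ 3 ≤ L / Δ ∧ L / Δ + 1 ≤ Real.exp (b * L) ∧ 1 / Δ ≤ L / Δ := by
  have hL0 : 0 < L := by linarith
  have h0 : 0 < Δ := lt_of_lt_of_le (by positivity) h1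
  rw [le_div_iff₀ hL0] at h2
  have h4 : 3 ≤ L / Δ := by
    rw [le_div_iff₀ h0]
    nlinarith
  refine ⟨h0, by nlinarith, h4, ?_, div_le_div_of_nonneg_right (by linarith) h0.le⟩
  have h5 : L / Δ ≤ L ^ 2 * Real.exp (a * L) := by
    rw [div_le_iff₀ hL0, Real.exp_neg, inv_le_iff_one_le_mul₀ (Real.exp_pos _)] at h1
    rw [div_le_iff₀ h0]
    have := mul_le_mul_of_nonneg_left h1 hL0.le
    linarith
  have h6 := mul_le_mul_of_nonneg_right h3 (Real.exp_pos (a * L)).le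
  rw [← Real.exp_add, show (b - a) * L + a * L = b * L by ring] at h6
  linarith

lemma one_Sm {L T v C E : ℝ} (hC : 0 < C) (hE : 0 < E) (hv : L - 1 ≤ v) (hT : 1 ≤ T)
    (h1 : T ≤ Real.exp (4 / 9 * L)) (h2 : Real.log T ≤ L)
    (h3 : 15 * C / E * L ^ 2 ≤ Real.exp (41 / 900 * L)) :
    C * (Real.exp (51 / 100 * v) * T * Real.log T ^ 2) ≤ E / 5 * Real.exp v := by
  have a1 : Real.log T ^ 2 ≤ L ^ 2 := pow_le_pow_left₀ (Real.log_nonneg hT) h2 2
  have a2 : Real.exp (51 / 100 * v + 4 / 9 * L + 41 / 900 * L) ≤ Real.exp (v + 1) :=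
    Real.exp_le_exp.2 (by linarith)
  rw [Real.exp_add, Real.exp_add, Real.exp_add] at a2
  have a3 := mul_le_mul_of_nonneg_left Real.exp_one_lt_three.le (Real.exp_pos v).le
  rw [div_mul_eq_mul_div, div_le_iff₀ hE] at h3
  have a4 : C * (Real.exp (51 / 100 * v) * T * Real.log T ^ 2) ≤
      C * (Real.exp (51 / 100 * v) * Real.exp (4 / 9 * L) * L ^ 2) := by gcongr
  have a5 := mul_le_mul_of_nonneg_left h3
    (show 0 ≤ Real.exp (51 / 100 * v) * Real.exp (4 / 9 * L) by positivity)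
  have a6 := mul_le_mul_of_nonneg_right (a2.trans a3) hE.le
  linarith

lemma two_Sm {L S v C E : ℝ} (hC : 0 < C) (hE : 0 < E) (hL : 128 ≤ L) (hv : v ≤ L + 2)
    (hS : S ≤ 2 * Real.exp L) (h3 : 10 * C / E * L ^ 2 ≤ Real.exp (1 * L)) :
    C * (Real.exp (2 * v) * S * Real.exp (-(L ^ 2 / (8 * Real.pi)))) ≤ E / 5 * Real.exp v := by
  have a0 : 4 * L ≤ L ^ 2 / (8 * Real.pi) := by
    rw [le_div_iff₀ (by positivity)]
    nlinarith [Real.pi_le_four, Real.pi_pos]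
  have a1 : Real.exp (2 * v + L + -(L ^ 2 / (8 * Real.pi)) + L) ≤ Real.exp v :=
    Real.exp_le_exp.2 (by linarith)
  rw [Real.exp_add, Real.exp_add, Real.exp_add] at a1
  rw [one_mul, div_mul_eq_mul_div, div_le_iff₀ hE] at h3
  have a2 : 10 * C ≤ 10 * C * L ^ 2 :=
    le_mul_of_one_le_right (by positivity) (one_le_pow₀ (by linarith))
  have a4 : C * (Real.exp (2 * v) * S * Real.exp (-(L ^ 2 / (8 * Real.pi)))) ≤
      C * (Real.exp (2 * v) * (2 * Real.exp L) * Real.exp (-(L ^ 2 / (8 * Real.pi)))) := by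
    gcongr
  have a5 := mul_le_mul_of_nonneg_left (a2.trans h3) (show 0 ≤ Real.exp (2 * v) * Real.exp L *
    Real.exp (-(L ^ 2 / (8 * Real.pi))) by positivity)
  have a6 := mul_le_mul_of_nonneg_right a1 hE.le
  linarith

lemma three_Sm {Δ : ℝ} (v : ℝ) (h0 : 0 < Δ) (h1 : Δ ≤ 1) :
    |Real.exp (v + Δ ^ 2 / (4 * Real.pi)) - Real.exp v| ≤ Δ * Real.exp v := by
  have a0 : 0 ≤ Δ ^ 2 / (4 * Real.pi) := by positivity
  have a1 : Δ ^ 2 / (4 * Real.pi) ≤ Δ / 2 := by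
    rw [div_le_div_iff₀ (by positivity) (by norm_num)]
    nlinarith [Real.pi_gt_three]
  have a2 := Real.abs_exp_sub_one_le (x := Δ ^ 2 / (4 * Real.pi))
    (by rw [abs_of_nonneg a0]; linarith)
  rw [abs_of_nonneg a0] at a2
  rw [Real.exp_add, ← mul_sub_one, abs_mul, abs_of_pos (Real.exp_pos v), mul_comm]
  exact mul_le_mul_of_nonneg_right (by linarith) (Real.exp_pos v).le

lemma zero_Sm {x v β : ℝ} (hx : 0 < x) (hv : Real.log x - 1 ≤ v) (h1 : 1 / 2 ≤ β) (h2 : β < 1) :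
    Real.exp (β * v) ≤ 2 * Real.exp v * x ^ (β - 1) := by
  have a1 : Real.exp (1 / 2) ≤ 2 := by
    have a2 : Real.exp (1 / 2) * Real.exp (1 / 2) = Real.exp 1 := by
      rw [← Real.exp_add]
      norm_num
    nlinarith [Real.exp_one_lt_three, Real.exp_pos (1 / 2)]
  have a3 : Real.exp (β * v) ≤ Real.exp (1 / 2 + v + Real.log x * (β - 1)) :=
    Real.exp_le_exp.2 (by nlinarith)
  rw [Real.exp_add, Real.exp_add] at a3
  rw [Real.rpow_def_of_pos hx]
  refine a3.trans ?_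
  gcongr

theorem sm (hE : EFStmt) (hF : ZFarStmt) (hN : ZNearStmt) : SmStmt := by
  obtain ⟨C, hC, hE⟩ := hE
  obtain ⟨η, hη, hη', hN⟩ := hN
  intro A θ hA hZ hθ hθ' E hE0
  have hA0 : 0 < A := by linarith
  have hA1 : 1 / A ≤ 4 / 9 := by
    rw [div_le_iff₀ hA0]
    linarith
  have hA2 : 0 < 1 / A := by positivity
  obtain ⟨b, hb1, hb2⟩ := exists_between (show 1 - θ < 1 / A by linarith)
  have hb0 : 0 < b := by linarith
  have hb3 : A * b < 1 := by
    rw [lt_div_iff₀ hA0] at hb2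
    linarith
  filter_upwards [hF A b η hA0 hb0 hb3 hη hη' hZ (E / 20) (by positivity),
    hN (E / 20) (by positivity), eventually_gt_atTop 0,
    Real.tendsto_log_atTop.eventually_ge_atTop 128,
    Real.tendsto_log_atTop.eventually_ge_atTop (5 / E),
    poly_Sm 2 (sub_pos.2 hb1), poly_Sm (15 * C / E) (show (0 : ℝ) < 41 / 900 by norm_num),
    poly_Sm (10 * C / E) one_pos, poly_Sm 1 one_pos] with x h1 h2 hx hL hL' p1 p2 p3 p4
  intro Δ d1 d2 v hv
  rw [Real.rpow_def_of_pos hx,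
    show Real.log x * (θ - 1) = -((1 - θ) * Real.log x) by ring] at d1
  obtain ⟨t0, t1, t2, t3, t4⟩ := T_Sm (by linarith) d1 d2 p1
  obtain ⟨Z, hZ1, hZ2⟩ := hE Δ v (Real.log x / Δ) t0 t1 (by linarith [hv.1]) t2
  have e1 : x ^ b = Real.exp (b * Real.log x) := by rw [Real.rpow_def_of_pos hx, mul_comm]
  have e2 : √x = Real.exp (1 / 2 * Real.log x) := by
    rw [Real.sqrt_eq_rpow, Real.rpow_def_of_pos hx, mul_comm]
  have e3 : Δ ^ 2 * (Real.log x / Δ) ^ 2 = Real.log x ^ 2 := by field_simp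
  have m1 : ∀ c, b ≤ c → Real.exp (b * Real.log x) ≤ Real.exp (c * Real.log x) := fun c hc =>
    Real.exp_le_exp.2 (mul_le_mul_of_nonneg_right hc (by linarith))
  have m2 : Real.log x / Δ ≤ Real.exp (Real.log x) := by
    have := m1 1 (by linarith)
    rw [one_mul] at this
    linarith
  have m3 : Real.log (Real.log x / Δ) ≤ Real.log x :=
    (Real.log_le_iff_le_exp (by linarith)).2 m2
  have b1 := one_Sm hC hE0 hv.1 (show 1 ≤ Real.log x / Δ by linarith)
    (by linarith [m1 (4 / 9) (by linarith)]) m3 p2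
  have b2 := two_Sm (S := Real.log (Real.log x / Δ) ^ 2 + 1 / Δ) hC hE0 hL hv.2 (by
    have := pow_le_pow_left₀ (Real.log_nonneg (by linarith)) m3 2
    rw [one_mul, one_mul] at p4
    linarith) p3
  have b3 := three_Sm v t0 t1
  have b4 : Δ * Real.exp v ≤ E / 5 * Real.exp v := by
    refine mul_le_mul_of_nonneg_right (d2.trans ?_) (Real.exp_pos v).le
    rw [div_le_iff₀ hE0] at hL'
    rw [div_le_div_iff₀ (by linarith) (by norm_num)]
    linarith
  have z1 := h1 (Z.filter fun ρ => ρ.re ≤ 1 - η) fun ρ hρ => by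
    obtain ⟨a1, a2⟩ := mem_filter.1 hρ
    obtain ⟨a3, a4, a5⟩ := hZ1 ρ a1
    exact ⟨a3, a4, a2, by rw [e1]; linarith⟩
  have z2 := h2 (Z.filter fun ρ => ¬ ρ.re ≤ 1 - η) fun ρ hρ => by
    obtain ⟨a1, a2⟩ := mem_filter.1 hρ
    obtain ⟨a3, a4, a5⟩ := hZ1 ρ a1
    exact ⟨a3, (not_le.1 a2).le, by rw [e2]; linarith [m1 (1 / 2) (by linarith)]⟩
  have z3 := sum_filter_add_sum_filter_not Z (fun ρ => ρ.re ≤ 1 - η)
    fun ρ => ord ρ * x ^ (ρ.re - 1)
  have z4 : ∑ ρ ∈ Z, ord ρ * Real.exp (ρ.re * v) ≤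
      2 * Real.exp v * ∑ ρ ∈ Z, ord ρ * x ^ (ρ.re - 1) := by
    rw [mul_sum]
    refine sum_le_sum fun ρ hρ => ?_
    rw [mul_left_comm]
    exact mul_le_mul_of_nonneg_left
      (zero_Sm hx hv.1 (hZ1 ρ hρ).2.1 (re_lt_one (hZ1 ρ hρ).1)) (ord_nonneg ρ)
  have z5 := mul_le_mul_of_nonneg_left (show ∑ ρ ∈ Z, ord ρ * x ^ (ρ.re - 1) ≤ E / 10 by linarith)
    (show 0 ≤ 2 * Real.exp v by positivity)
  rw [e3, mul_add] at hZ2
  have := abs_sub_le (PP Δ v) (Real.exp (v + Δ ^ 2 / (4 * Real.pi))) (Real.exp v)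
  linarith

end Pool.Agent.MP_c853c5_nt.Z

end
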