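import Pool.Agent.MP_c853c5_nt.Z.Basic

section

set_option autoImplicit false

open Finset

namespace Pool.Agent.MP_c853c5_nt.Z

lemma orth_Hold {A ι : Type} [AddCommGroup A] [Fintype A] [DecidableEq A] (S : Finset ι)
    (g : ι → A) :
    ∑ ψ : AddChar A ℂ, ‖∑ x ∈ S, ψ (g x)‖ ^ 2 =
      (Fintype.card A : ℝ) * (((S ×ˢ S).filter fun p => g p.1 = g p.2).card : ℝ) := by
  have h1 : ∀ ψ : AddChar A ℂ, ((‖∑ x ∈ S, ψ (g x)‖ ^ 2 : ℝ) : ℂ) =
      ∑ p ∈ S ×ˢ S, ψ (g p.1 - g p.2) := by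
    intro ψ
    rw [← Complex.normSq_eq_norm_sq, ← Complex.mul_conj, map_sum, sum_mul_sum, sum_product]
    refine sum_congr rfl fun x _ => sum_congr rfl fun y _ => ?_
    rw [sub_eq_add_neg, AddChar.map_add_eq_mul, AddChar.map_neg_eq_conj]
  have h2 : ((∑ ψ : AddChar A ℂ, ‖∑ x ∈ S, ψ (g x)‖ ^ 2 : ℝ) : ℂ) =
      (Fintype.card A : ℂ) * (((S ×ˢ S).filter fun p => g p.1 = g p.2).card : ℂ) := by
    rw [Complex.ofReal_sum, sum_congr rfl fun ψ _ => h1 ψ, sum_comm, card_filter]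
    push_cast
    rw [mul_sum]
    refine sum_congr rfl fun p _ => ?_
    rw [AddChar.sum_apply_eq_ite]
    simp only [sub_eq_zero]
    split_ifs <;> simp
  exact_mod_cast h2

lemma map_sum_Hold {A : Type} [AddCommGroup A] (ψ : AddChar A ℂ) {s : ℕ} (a : Fin s → A) :
    ψ (∑ i, a i) = ∏ i, ψ (a i) := by
  classical
  induction (univ : Finset (Fin s)) using Finset.induction_on with
  | empty => simp
  | insert i t hi ih => rw [sum_insert hi, prod_insert hi, AddChar.map_add_eq_mul, ih]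

/-- reduction modulo `Q` -/
def red_Hold (Q : ℕ) {k : ℕ} (c : Fin k → ℤ) : Fin k → ZMod Q := fun j => (c j : ZMod Q)

lemma factor_Hold {ι : Type} (k s Q : ℕ) (G : Finset ι) (φ : ι → Fin k → ℤ) (F : Finset ℤ)
    (ψ : AddChar (Fin k → ZMod Q) ℂ) :
    ∑ z ∈ G ×ˢ tup s F, ψ (red_Hold Q (φ z.1 + ps k z.2)) =
      (∑ g ∈ G, ψ (red_Hold Q (φ g))) *
        (∑ u ∈ F, ψ (red_Hold Q fun j : Fin k => u ^ (j.val + 1))) ^ s := by
  have h1 : (∑ u ∈ F, ψ (red_Hold Q fun j : Fin k => u ^ (j.val + 1))) ^ s =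
      ∑ x ∈ tup s F, ψ (red_Hold Q (ps k x)) := by
    have := Finset.prod_univ_sum (fun _ : Fin s => F)
      (fun _ u => ψ (red_Hold Q fun j : Fin k => u ^ (j.val + 1)))
    rw [prod_const, card_univ, Fintype.card_fin] at this
    rw [this]
    refine sum_congr rfl fun x _ => ?_
    rw [← map_sum_Hold]
    congr 1
    funext j
    simp [red_Hold, ps]
  rw [h1, sum_mul_sum, sum_product]
  refine sum_congr rfl fun g _ => sum_congr rfl fun x _ => ?_
  rw [← AddChar.map_add_eq_mul]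
  congr 1
  funext j
  simp [red_Hold]

lemma exists_mod_Hold {ι : Type} {k : ℕ} (S : Finset ι) (f : ι → Fin k → ℤ) :
    ∃ Q : ℕ, 0 < Q ∧ ∀ x ∈ S, ∀ y ∈ S, red_Hold Q (f x) = red_Hold Q (f y) → f x = f y := by
  refine ⟨((S ×ˢ S) ×ˢ (univ : Finset (Fin k))).sup
    (fun q => (f q.1.1 q.2 - f q.1.2 q.2).natAbs) + 1, Nat.succ_pos _, ?_⟩
  intro x hx y hy h
  funext j
  have h1 := congrFun h j
  simp only [red_Hold] at h1
  rw [ZMod.intCast_eq_intCast_iff_dvd_sub] at h1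
  have h2 := Finset.le_sup (f := fun q : (ι × ι) × Fin k => (f q.1.1 q.2 - f q.1.2 q.2).natAbs)
    (b := ((x, y), j)) (mem_product.mpr ⟨mem_product.mpr ⟨hx, hy⟩, mem_univ j⟩)
  simp only at h2
  have h3 := Int.eq_zero_of_abs_lt_dvd h1 (by
    rw [abs_sub_comm, Int.abs_eq_natAbs]
    exact_mod_cast Nat.lt_succ_of_le h2)
  omega

theorem hold : HoldStmt := by
  intro ι k s p G φ F hp
  classical
  rcases Nat.eq_zero_or_pos s with rfl | hs
  · refine ⟨0, ?_⟩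
    have : tup 0 F = tup 0 (F.filter fun u => (p : ℤ) ∣ u - 0) := by
      ext x
      simp [mem_tup]
    rw [← this]
    simp
  obtain ⟨Q, hQ, hinj⟩ := exists_mod_Hold (G ×ˢ tup s F) (fun z => φ z.1 + ps k z.2)
  have : NeZero Q := ⟨hQ.ne'⟩
  have key : ∀ F' : Finset ℤ, F' ⊆ F →
      (Fintype.card (Fin k → ZMod Q) : ℝ) *
        (cnt (G ×ˢ tup s F') (fun z => φ z.1 + ps k z.2) : ℝ) =
      ∑ ψ : AddChar (Fin k → ZMod Q) ℂ, ‖∑ g ∈ G, ψ (red_Hold Q (φ g))‖ ^ 2 *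
        ‖∑ u ∈ F', ψ (red_Hold Q fun j : Fin k => u ^ (j.val + 1))‖ ^ (2 * s) := by
    intro F' hF'
    have hsub : ∀ z ∈ G ×ˢ tup s F', z ∈ G ×ˢ tup s F := fun z hz =>
      mem_product.mpr ⟨(mem_product.mp hz).1,
        mem_tup.mpr fun i => hF' (mem_tup.mp (mem_product.mp hz).2 i)⟩
    have h1 := orth_Hold (G ×ˢ tup s F') (fun z => red_Hold Q (φ z.1 + ps k z.2))
    have h2 : (((G ×ˢ tup s F') ×ˢ (G ×ˢ tup s F')).filter fun q =>
        red_Hold Q (φ q.1.1 + ps k q.1.2) = red_Hold Q (φ q.2.1 + ps k q.2.2)).card =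
        cnt (G ×ˢ tup s F') (fun z => φ z.1 + ps k z.2) := by
      unfold cnt
      congr 1
      refine filter_congr fun q hq => ⟨fun h => ?_, fun h => ?_⟩
      · exact hinj _ (hsub _ (mem_product.mp hq).1) _ (hsub _ (mem_product.mp hq).2) h
      · exact congrArg (red_Hold Q) h
    rw [h2] at h1
    rw [← h1]
    refine sum_congr rfl fun ψ _ => ?_
    rw [factor_Hold, norm_mul, norm_pow, mul_pow, ← pow_mul, mul_comm s 2]
  obtain ⟨a, -, ha⟩ := exists_max_image (range p)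
    (fun a : ℕ => cnt (G ×ˢ tup s (F.filter fun u => (p : ℤ) ∣ u - a))
      (fun z => φ z.1 + ps k z.2)) ⟨0, mem_range.mpr hp⟩
  refine ⟨a, ?_⟩
  have hc : (0 : ℝ) < Fintype.card (Fin k → ZMod Q) := by exact_mod_cast Fintype.card_pos
  obtain ⟨n, hn⟩ : ∃ n, 2 * s = n + 1 := ⟨2 * s - 1, by omega⟩
  have hsplit : ∀ w : ℤ → ℂ, ∑ u ∈ F, w u =
      ∑ b ∈ range p, ∑ u ∈ F.filter (fun u => (p : ℤ) ∣ u - (b : ℕ)), w u := by
    intro w
    rw [← sum_fiberwise_of_maps_to (s := F) (t := range p) (g := fun u => (u % p).toNat)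
      (fun u _ => mem_range.mpr (by
        have := Int.emod_lt_of_pos u (show (0 : ℤ) < p by exact_mod_cast hp)
        have := Int.emod_nonneg u (show (p : ℤ) ≠ 0 by exact_mod_cast hp.ne')
        omega))]
    refine sum_congr rfl fun b hb => sum_congr (filter_congr fun u _ => ?_) fun _ _ => rfl
    have hb' : (b : ℤ) < p := by exact_mod_cast mem_range.mp hb
    have h0 := Int.emod_nonneg u (show (p : ℤ) ≠ 0 by exact_mod_cast hp.ne')
    have h5 : (b : ℤ) % p = b := Int.emod_eq_of_lt (by positivity) hb'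
    rw [Int.dvd_iff_emod_eq_zero, ← Int.emod_eq_emod_iff_emod_sub_eq_zero, h5]
    omega
  have hH : ∀ ψ : AddChar (Fin k → ZMod Q) ℂ,
      ‖∑ u ∈ F, ψ (red_Hold Q fun j : Fin k => u ^ (j.val + 1))‖ ^ (2 * s) ≤
        (p : ℝ) ^ n * ∑ b ∈ range p, ‖∑ u ∈ F.filter (fun u => (p : ℤ) ∣ u - (b : ℕ)),
          ψ (red_Hold Q fun j : Fin k => u ^ (j.val + 1))‖ ^ (2 * s) := by
    intro ψ
    rw [hsplit, hn]
    refine (pow_le_pow_left₀ (norm_nonneg _) (norm_sum_le _ _) _).trans ?_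
    have := pow_sum_le_card_mul_sum_pow (s := range p) (fun b _ => norm_nonneg
      (∑ u ∈ F.filter (fun u => (p : ℤ) ∣ u - (b : ℕ)),
          ψ (red_Hold Q fun j : Fin k => u ^ (j.val + 1)))) n
    rwa [card_range] at this
  have h3 : (Fintype.card (Fin k → ZMod Q) : ℝ) *
        (cnt (G ×ˢ tup s F) (fun z => φ z.1 + ps k z.2) : ℝ) ≤
      (Fintype.card (Fin k → ZMod Q) : ℝ) * ((p : ℝ) ^ (2 * s) *
        (cnt (G ×ˢ tup s (F.filter fun u => (p : ℤ) ∣ u - (a : ℕ)))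
          (fun z => φ z.1 + ps k z.2) : ℝ)) := by
    rw [key F subset_rfl]
    calc _ ≤ ∑ ψ : AddChar (Fin k → ZMod Q) ℂ, ‖∑ g ∈ G, ψ (red_Hold Q (φ g))‖ ^ 2 *
          ((p : ℝ) ^ n * ∑ b ∈ range p, ‖∑ u ∈ F.filter (fun u => (p : ℤ) ∣ u - (b : ℕ)),
          ψ (red_Hold Q fun j : Fin k => u ^ (j.val + 1))‖ ^ (2 * s)) :=
          sum_le_sum fun ψ _ => mul_le_mul_of_nonneg_left (hH ψ) (by positivity)
      _ = (p : ℝ) ^ n * ∑ b ∈ range p, (Fintype.card (Fin k → ZMod Q) : ℝ) *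
          (cnt (G ×ˢ tup s (F.filter fun u => (p : ℤ) ∣ u - (b : ℕ)))
            (fun z => φ z.1 + ps k z.2) : ℝ) := by
          rw [sum_congr rfl fun b _ => key _ (filter_subset _ _), sum_comm, mul_sum]
          refine sum_congr rfl fun ψ _ => ?_
          rw [← mul_sum]
          ring
      _ ≤ (p : ℝ) ^ n * ∑ b ∈ range p, (Fintype.card (Fin k → ZMod Q) : ℝ) *
          (cnt (G ×ˢ tup s (F.filter fun u => (p : ℤ) ∣ u - (a : ℕ)))
            (fun z => φ z.1 + ps k z.2) : ℝ) := by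
          refine mul_le_mul_of_nonneg_left (sum_le_sum fun b hb => ?_) (by positivity)
          exact mul_le_mul_of_nonneg_left (by exact_mod_cast ha b hb) hc.le
      _ = _ := by
          rw [sum_const, card_range, hn, nsmul_eq_mul]
          ring
  have h4 := le_of_mul_le_mul_left h3 hc
  exact_mod_cast h4

end Pool.Agent.MP_c853c5_nt.Z

end

section

set_option autoImplicit false

open Finset

namespace Pool.Agent.MP_c853c5_nt.Z

/-- the oscillating factor -/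
noncomputable def g_Ker (t x : ℝ) : ℂ := Complex.exp (Complex.I * ((t * Real.log x : ℝ) : ℂ))

/-- its primitive -/
noncomputable def F_Ker (t x : ℝ) : ℂ := (x : ℂ) * g_Ker t x / (1 + (t : ℂ) * Complex.I)

lemma ne_Ker (t : ℝ) : (1 + (t : ℂ) * Complex.I) ≠ 0 := by
  intro h
  have := congrArg Complex.re h
  simp at this

lemma norm_g_Ker (t x : ℝ) : ‖g_Ker t x‖ = 1 := by
  unfold g_Ker
  rw [mul_comm]
  exact Complex.norm_exp_ofReal_mul_I _

lemma cpow_Ker {n : ℕ} (hn : 0 < n) (t : ℝ) :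
    (n : ℂ) ^ ((t : ℂ) * Complex.I) = g_Ker t n := by
  have hx : (0 : ℝ) < n := by exact_mod_cast hn
  have e : (n : ℂ) = ((n : ℝ) : ℂ) := by simp
  rw [e, Complex.cpow_def_of_ne_zero (by exact_mod_cast hx.ne'), ← Complex.ofReal_log hx.le]
  unfold g_Ker
  congr 1
  push_cast
  ring

lemma lip_Ker (t : ℝ) {a x y : ℝ} (ha : 0 < a) (hx : a ≤ x) (hxy : x ≤ y) (hy : y ≤ x + 1) :
    ‖g_Ker t x - g_Ker t y‖ ≤ |t| / a := by
  have hx0 : 0 < x := ha.trans_le hx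
  have hy0 : 0 < y := hx0.trans_le hxy
  have e : g_Ker t x - g_Ker t y =
      -(g_Ker t x * (Complex.exp (Complex.I * ((t * Real.log (y / x) : ℝ) : ℂ)) - 1)) := by
    unfold g_Ker
    rw [mul_sub, ← Complex.exp_add, Real.log_div hy0.ne' hx0.ne']
    have : Complex.I * ((t * Real.log x : ℝ) : ℂ) +
        Complex.I * ((t * (Real.log y - Real.log x) : ℝ) : ℂ) =
        Complex.I * ((t * Real.log y : ℝ) : ℂ) := by
      push_cast
      ring
    rw [this]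
    ring
  rw [e, norm_neg, norm_mul, norm_g_Ker, one_mul]
  refine (Real.norm_exp_I_mul_ofReal_sub_one_le).trans ?_
  rw [Real.norm_eq_abs, abs_mul, div_eq_mul_inv |t|]
  refine mul_le_mul_of_nonneg_left ?_ (abs_nonneg t)
  have h1 : 0 ≤ Real.log (y / x) := Real.log_nonneg ((one_le_div hx0).2 hxy)
  rw [abs_of_nonneg h1]
  have h2 : Real.log (y / x) ≤ y / x - 1 := Real.log_le_sub_one_of_pos (by positivity)
  have h3 : y / x - 1 ≤ x⁻¹ := by
    rw [div_sub_one hx0.ne', div_le_iff₀ hx0, inv_mul_cancel₀ hx0.ne']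
    linarith
  exact h2.trans (h3.trans (inv_anti₀ ha hx))

lemma deriv_Ker (t : ℝ) {x : ℝ} (hx : 0 < x) : HasDerivAt (F_Ker t) (g_Ker t x) x := by
  have h1 : HasDerivAt (fun x : ℝ => t * Real.log x) (t * x⁻¹) x :=
    (Real.hasDerivAt_log hx.ne').const_mul t
  have h2 := (h1.ofReal_comp.const_mul Complex.I).cexp
  have h3 : HasDerivAt (fun x : ℝ => (x : ℂ)) 1 x := by
    simpa using (hasDerivAt_id x).ofReal_comp
  have h4 := (h3.mul h2).div_const (1 + (t : ℂ) * Complex.I)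
  have hx' : (x : ℂ) ≠ 0 := by exact_mod_cast hx.ne'
  have h5 := ne_Ker t
  refine HasDerivAt.congr_deriv (f := F_Ker t) h4 ?_
  rw [div_eq_iff h5]
  unfold g_Ker
  push_cast
  field_simp

lemma step_Ker (t : ℝ) {a m : ℝ} (ha : 0 < a) (hm : a ≤ m) :
    ‖g_Ker t (m + 1) - (F_Ker t (m + 1) - F_Ker t m)‖ ≤ |t| / a := by
  have hm0 : 0 < m := ha.trans_le hm
  have h := norm_image_sub_le_of_norm_deriv_le_segment' (a := m) (b := m + 1)
    (f := fun x : ℝ => F_Ker t x - (x : ℂ) * g_Ker t (m + 1))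
    (f' := fun x : ℝ => g_Ker t x - g_Ker t (m + 1)) (C := |t| / a) (fun x hx => by
      have h3 : HasDerivAt (fun x : ℝ => (x : ℂ)) 1 x := by
        simpa using (hasDerivAt_id x).ofReal_comp
      have := (deriv_Ker t (hm0.trans_le hx.1)).sub (h3.mul_const (g_Ker t (m + 1)))
      rw [one_mul] at this
      exact this.hasDerivWithinAt)
    (fun x hx => lip_Ker t ha (hm.trans hx.1) hx.2.le (by linarith [hx.1])) (m + 1)
    ⟨by linarith, le_rfl⟩
  rw [add_sub_cancel_left, mul_one, ← norm_neg] at h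
  refine le_of_eq_of_le ?_ h
  congr 1
  push_cast
  ring

lemma tele_Ker (t : ℝ) {N : ℕ} (hN : 1 ≤ N) (M : ℕ) (hM : N ≤ M) :
    ‖ES N M t - (F_Ker t M - F_Ker t N)‖ ≤ ((M : ℝ) - N) * (|t| / N) := by
  induction M, hM using Nat.le_induction with
  | base => simp [ES]
  | succ M hM ih =>
    have hN0 : (0 : ℝ) < N := by exact_mod_cast hN
    have h := step_Ker t hN0 (show (N : ℝ) ≤ M by exact_mod_cast hM)
    have e : ES N (M + 1) t = ES N M t + g_Ker t ((M : ℝ) + 1) := by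
      unfold ES
      rw [sum_Ioc_succ_top hM, cpow_Ker (Nat.succ_pos M)]
      push_cast
      rfl
    have e2 : ES N (M + 1) t - (F_Ker t ((M + 1 : ℕ) : ℝ) - F_Ker t N) =
        (ES N M t - (F_Ker t M - F_Ker t N)) +
          (g_Ker t ((M : ℝ) + 1) - (F_Ker t ((M : ℝ) + 1) - F_Ker t M)) := by
      rw [e]
      push_cast
      ring
    rw [e2]
    refine (norm_add_le _ _).trans ?_
    push_cast
    linarith

lemma normF_Ker (t : ℝ) {x : ℝ} (hx : 0 ≤ x) : ‖F_Ker t x‖ ≤ 3 / 2 * x / (1 + |t|) := by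
  unfold F_Ker
  rw [norm_div, norm_mul, norm_g_Ker, mul_one, Complex.norm_real, Real.norm_eq_abs,
    abs_of_nonneg hx]
  have h0 : 0 < ‖1 + (t : ℂ) * Complex.I‖ := norm_pos_iff.2 (ne_Ker t)
  have h1 : ‖1 + (t : ℂ) * Complex.I‖ ^ 2 = 1 + |t| ^ 2 := by
    rw [Complex.sq_norm, Complex.normSq_apply, sq_abs]
    simp
    ring
  have h2 : 1 + |t| ≤ 3 / 2 * ‖1 + (t : ℂ) * Complex.I‖ := by
    refine (pow_le_pow_iff_left₀ (by positivity) (by positivity) two_ne_zero).1 ?_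
    rw [mul_pow, h1]
    nlinarith [sq_nonneg (|t| - 1), sq_nonneg |t|]
  rw [div_le_div_iff₀ h0 (by positivity)]
  nlinarith [mul_le_mul_of_nonneg_left h2 hx]

theorem ker (hE : ExpStmt) : KerStmt := by
  obtain ⟨A, hA, h⟩ := hE
  intro k hk
  have hk1 : (1 : ℝ) ≤ (k : ℝ) ^ 8 := one_le_pow₀ (by exact_mod_cast hk)
  have hAk : 10 ≤ A * (k : ℝ) ^ 8 := by nlinarith
  have hδ : 1 / (A * (k : ℝ) ^ 8) ≤ 1 / 10 := one_div_le_one_div_of_le (by norm_num) hAk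
  refine ⟨Real.exp (A * (k : ℝ) ^ 8), 1 / (A * (k : ℝ) ^ 8), Real.exp_pos _, by positivity, hδ,
    fun N M t hN hNM hM ht => ?_⟩
  have hN1 : (1 : ℝ) ≤ N := by exact_mod_cast hN
  have hN0 : (0 : ℝ) < N := by linarith
  by_cases hc : (N : ℝ) ^ (9 / 10 : ℝ) ≤ |t|
  · refine (h k N M t hk hN hNM hM hc ht).trans (le_add_of_nonneg_left (by positivity))
  · have h1 := tele_Ker t hN M hNM
    have h2 := normF_Ker t (Nat.cast_nonneg M)
    have h3 := normF_Ker t (Nat.cast_nonneg N)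
    have hM' : (M : ℝ) ≤ 2 * N := by exact_mod_cast hM
    have h4 : ((M : ℝ) - N) * (|t| / N) ≤ |t| := by
      calc ((M : ℝ) - N) * (|t| / N) ≤ N * (|t| / N) :=
            mul_le_mul_of_nonneg_right (by linarith) (by positivity)
        _ = |t| := by field_simp
    have h5 : (N : ℝ) ^ (9 / 10 : ℝ) ≤ (N : ℝ) ^ (1 - 1 / (A * (k : ℝ) ^ 8)) :=
      Real.rpow_le_rpow_of_exponent_le hN1 (by linarith)
    have h6 : (N : ℝ) ^ (1 - 1 / (A * (k : ℝ) ^ 8)) ≤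
        Real.exp (A * (k : ℝ) ^ 8) * (N : ℝ) ^ (1 - 1 / (A * (k : ℝ) ^ 8)) :=
      le_mul_of_one_le_left (by positivity) (Real.one_le_exp (by linarith))
    have h7 : 3 / 2 * (M : ℝ) / (1 + |t|) + 3 / 2 * (N : ℝ) / (1 + |t|) ≤ 5 * N / (1 + |t|) := by
      rw [← add_div]
      exact div_le_div_of_nonneg_right (by linarith) (by positivity)
    have h8 : ‖ES N M t‖ ≤ ‖ES N M t - (F_Ker t M - F_Ker t N)‖ + (‖F_Ker t M‖ + ‖F_Ker t N‖) := by
      calc ‖ES N M t‖ = ‖(ES N M t - (F_Ker t M - F_Ker t N)) + (F_Ker t M - F_Ker t N)‖ := by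
            rw [sub_add_cancel]
        _ ≤ _ := (norm_add_le _ _).trans (add_le_add le_rfl (norm_sub_le _ _))
    have h9 := not_le.1 hc
    linarith

end Pool.Agent.MP_c853c5_nt.Z

end

section

set_option autoImplicit false

open Finset

namespace Pool.Agent.MP_c853c5_nt.Z

lemma block_Tail (hP : PSumStmt) {M : ℕ} {s : ℂ} {E d n : ℝ} (hM : 1 ≤ M) (hE : 0 ≤ E)
    (hd : 0 < d) (hd' : d ≤ 1) (hs : 1 - d ≤ s.re) (n0 : 0 < n) (hn : n ≤ M)
    (h : ∀ L, M ≤ L → L ≤ 2 * M → ‖ES M L (-s.im)‖ ≤ E * (M : ℝ) ^ (1 - 2 * d)) :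
    ‖∑ n ∈ Ioc M (2 * M), (n : ℂ) ^ (-s)‖ ≤ 2 * E * n ^ (-d) := by
  have m1 : (1 : ℝ) ≤ M := by exact_mod_cast hM
  rw [sum_congr rfl fun n hn => cpow_neg_split (by have := (mem_Ioc.1 hn).1; omega) s]
  refine (hP M (2 * M) _ _ s.re hM (by omega) (by linarith) h).trans ?_
  rw [mul_assoc, mul_assoc, mul_assoc, ← Real.rpow_add (by linarith)]
  gcongr
  exact (Real.rpow_le_rpow_of_exponent_le m1 (by linarith)).trans
    (Real.rpow_le_rpow_of_nonpos n0 hn (by linarith))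

lemma dy_Tail (f : ℕ → ℂ) (N : ℕ) (B : ℝ) (i : ℕ)
    (h : ∀ j < i, ‖∑ n ∈ Ioc (2 ^ j * N) (2 * (2 ^ j * N)), f n‖ ≤ B) :
    ‖∑ n ∈ Ioc N (2 ^ i * N), f n‖ ≤ i * B := by
  induction i with
  | zero => simp
  | succ i ih =>
    have e : 2 ^ (i + 1) * N = 2 * (2 ^ i * N) := by ring
    rw [e, ← sum_Ioc_consecutive f (Nat.le_mul_of_pos_left N (by positivity : 0 < 2 ^ i))
      (by omega)]
    refine (norm_add_le _ _).trans ?_
    have h1 := ih fun j hj => h j (by omega)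
    have h2 := h i (by omega)
    push_cast
    linarith

theorem tail (hE : ExpStmt) (hP : PSumStmt) (hM : EMStmt) : TailStmt := by
  obtain ⟨A, A10, hE⟩ := hE
  refine ⟨2 * A, 20, by linarith, by norm_num, ?_⟩
  intro k N s hk h2 hN hNk hs hs2
  have k1 : (1 : ℝ) ≤ (k : ℝ) ^ 8 := one_le_pow₀ (by exact_mod_cast hk)
  have a1 : 10 ≤ A * (k : ℝ) ^ 8 := by nlinarith
  rw [mul_assoc 2 A] at hs ⊢
  have hE' := hE k
  generalize A * (k : ℝ) ^ 8 = a at *
  have e2 : 1 / a = 2 * (1 / (2 * a)) := by field_simp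
  rw [e2] at hE'
  have d0 : 0 < 1 / (2 * a) := by positivity
  have d1 : 1 / (2 * a) ≤ 1 / 20 := one_div_le_one_div_of_le (by norm_num) (by linarith)
  generalize 1 / (2 * a) = d at *
  have N1 : 1 ≤ N := by
    rcases Nat.eq_zero_or_pos N with rfl | h
    · rw [Nat.cast_zero, zero_pow (by omega)] at hNk
      linarith
    · exact h
  have n1 : (1 : ℝ) ≤ N := by exact_mod_cast N1
  have n0 : (0 : ℝ) < N := by linarith
  set τ := |s.im| with hτ
  have τ1 : 1 ≤ τ := by linarith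
  have τ0 : 0 < τ := by linarith
  set X : ℝ := τ ^ (10 / 9 : ℝ) with hX
  have X1 : τ ≤ X := by
    conv_lhs => rw [← Real.rpow_one τ]
    exact Real.rpow_le_rpow_of_exponent_le τ1 (by norm_num)
  have X0 : 0 < X := by linarith
  have ex : ∃ i : ℕ, X < ((2 ^ i * N : ℕ) : ℝ) := by
    obtain ⟨i, hi⟩ := pow_unbounded_of_one_lt X (one_lt_two (α := ℝ))
    refine ⟨i, hi.trans_le ?_⟩
    push_cast
    exact le_mul_of_one_le_right (by positivity) n1
  obtain ⟨I, hI, hI'⟩ : ∃ I : ℕ, X < ((2 ^ (I + 1) * N : ℕ) : ℝ) ∧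
      ∀ j < I + 1, ((2 ^ j * N : ℕ) : ℝ) ≤ X := by
    have h0 : Nat.find ex ≠ 0 := by
      intro h
      have := Nat.find_spec ex
      rw [h, pow_zero, one_mul] at this
      linarith
    obtain ⟨I, hI⟩ := Nat.exists_eq_succ_of_ne_zero h0
    refine ⟨I, ?_, fun j hj => not_lt.1 (Nat.find_min ex (by omega))⟩
    have := Nat.find_spec ex
    rwa [hI] at this
  have E1 : 1 ≤ Real.exp (2 * a) := Real.one_le_exp (by linarith)
  have E2 : Real.exp a ≤ Real.exp (2 * a) := Real.exp_le_exp.2 (by linarith)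
  have hb : ‖∑ n ∈ Ioc N (2 ^ (I + 1) * N), (n : ℂ) ^ (-s)‖ ≤
      ((I + 1 : ℕ) : ℝ) * (2 * Real.exp a * (N : ℝ) ^ (-d)) := by
    refine dy_Tail _ N _ _ fun j hj => ?_
    have l1 : N ≤ 2 ^ j * N := Nat.le_mul_of_pos_left N (by positivity)
    have l2 : (N : ℝ) ≤ ((2 ^ j * N : ℕ) : ℝ) := by exact_mod_cast l1
    refine block_Tail hP (N1.trans l1) (Real.exp_pos _).le d0 (by linarith) hs n0 l2
      fun L h1 h2 => hE' _ L _ hk (N1.trans l1) h1 h2 ?_ ?_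
    · rw [abs_neg]
      refine (Real.rpow_le_rpow (by positivity) (hI' j hj) (by norm_num)).trans (le_of_eq ?_)
      rw [hX, ← Real.rpow_mul τ0.le]
      norm_num
      rfl
    · rw [abs_neg]
      exact hNk.trans (pow_le_pow_left₀ n0.le l2 k)
  have lg2 : (69 / 100 : ℝ) < Real.log 2 := by linarith [Real.log_two_gt_d9]
  have lgτ : Real.log 2 ≤ Real.log τ := Real.log_le_log (by norm_num) h2
  have hIl : ((I + 1 : ℕ) : ℝ) ≤ 4 * Real.log τ := by
    have h1 : (2 : ℝ) ^ I ≤ X := by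
      refine le_trans ?_ (hI' I (by omega))
      push_cast
      exact le_mul_of_one_le_right (by positivity) n1
    have h3 := Real.log_le_log (by positivity) h1
    rw [Real.log_pow, hX, Real.log_rpow τ0] at h3
    have h4 : (0 : ℝ) ≤ I := Nat.cast_nonneg I
    push_cast
    nlinarith
  have hM2 : ((2 ^ (I + 1) * N : ℕ) : ℝ) ≤ 2 * X := by
    have := hI' I (by omega)
    push_cast at this ⊢
    rw [pow_succ]
    linarith
  have l1 : N ≤ 2 ^ (I + 1) * N := Nat.le_mul_of_pos_left N (by positivity)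
  generalize 2 ^ (I + 1) * N = M at *
  have M1 : 1 ≤ M := N1.trans l1
  have m1 : (1 : ℝ) ≤ M := by exact_mod_cast M1
  have s1 : s ≠ 1 := by
    rintro rfl
    simp at hτ
    linarith
  have σ0 : 1 / 2 ≤ s.re := by linarith
  have hem := hM s M (by linarith) s1 M1
  have p0 : 0 < (N : ℝ) ^ (-d) := Real.rpow_pos_of_pos n0 _
  have pτ : τ ^ (-d) ≤ (N : ℝ) ^ (-d) := Real.rpow_le_rpow_of_nonpos n0 hN (by linarith)
  have t1 : ‖(M : ℂ) ^ (1 - s) / (s - 1)‖ ≤ 2 * (N : ℝ) ^ (-d) := by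
    have b1 : τ ≤ ‖s - 1‖ := by simpa using Complex.abs_im_le_norm (s - 1)
    rw [norm_div, Complex.norm_natCast_cpow_of_pos M1, Complex.sub_re, Complex.one_re,
      div_le_iff₀ (by linarith)]
    calc (M : ℝ) ^ (1 - s.re) ≤ (M : ℝ) ^ d := Real.rpow_le_rpow_of_exponent_le m1 (by linarith)
      _ ≤ (2 * X) ^ d := Real.rpow_le_rpow (by positivity) hM2 d0.le
      _ = 2 ^ d * τ ^ (10 / 9 * d) := by
          rw [Real.mul_rpow (by norm_num) X0.le, hX, ← Real.rpow_mul τ0.le]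
      _ ≤ 2 ^ (1 : ℝ) * τ ^ (-d + 1) :=
          mul_le_mul (Real.rpow_le_rpow_of_exponent_le (by norm_num) (by linarith))
            (Real.rpow_le_rpow_of_exponent_le τ1 (by linarith)) (by positivity) (by positivity)
      _ = 2 * τ ^ (-d) * τ := by rw [Real.rpow_one, Real.rpow_add τ0, Real.rpow_one, mul_assoc]
      _ ≤ _ := by gcongr
  have t2 : ‖s‖ * (M : ℝ) ^ (-s.re) / s.re ≤ 4 * (N : ℝ) ^ (-d) := by
    have b1 : ‖s‖ ≤ 2 * τ := by
      have := Complex.norm_le_abs_re_add_abs_im s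
      rw [abs_of_nonneg (by linarith : 0 ≤ s.re)] at this
      linarith
    have b2 : (M : ℝ) ^ (-s.re) ≤ τ ^ (-d - 1) := by
      calc (M : ℝ) ^ (-s.re) ≤ (M : ℝ) ^ (d - 1) :=
            Real.rpow_le_rpow_of_exponent_le m1 (by linarith)
        _ ≤ X ^ (d - 1) := Real.rpow_le_rpow_of_nonpos X0 hI.le (by linarith)
        _ = τ ^ (10 / 9 * (d - 1)) := by rw [hX, ← Real.rpow_mul τ0.le]
        _ ≤ _ := Real.rpow_le_rpow_of_exponent_le τ1 (by linarith)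
    rw [div_le_iff₀ (by linarith)]
    calc ‖s‖ * (M : ℝ) ^ (-s.re) ≤ 2 * τ * τ ^ (-d - 1) := by gcongr
      _ = 4 * τ ^ (-d) * (1 / 2) := by
          rw [Real.rpow_sub τ0, Real.rpow_one]
          field_simp
          norm_num
      _ ≤ _ := by gcongr
  have e : riemannZeta s - ∑ n ∈ Icc 1 N, (n : ℂ) ^ (-s) =
      (riemannZeta s - ∑ n ∈ Icc 1 M, (n : ℂ) ^ (-s) - (M : ℂ) ^ (1 - s) / (s - 1)) +
        (M : ℂ) ^ (1 - s) / (s - 1) + ∑ n ∈ Ioc N M, (n : ℂ) ^ (-s) := by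
    have h1 := sum_Ioc_consecutive (fun n : ℕ => (n : ℂ) ^ (-s)) (Nat.zero_le N) l1
    rw [show Icc 1 N = Ioc 0 N from rfl, show Icc 1 M = Ioc 0 M from rfl, ← h1]
    ring
  rw [e]
  refine (norm_add₃_le).trans ?_
  have lg0 : 0 ≤ 4 * Real.log τ := by linarith
  have t3 : ((I + 1 : ℕ) : ℝ) * (2 * Real.exp a * (N : ℝ) ^ (-d)) ≤
      4 * Real.log τ * (2 * Real.exp (2 * a) * (N : ℝ) ^ (-d)) := by gcongr
  have t4 : 1 * (N : ℝ) ^ (-d) * (1 / 2) ≤ Real.exp (2 * a) * (N : ℝ) ^ (-d) * Real.log τ := by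
    gcongr
    linarith
  linarith

end Pool.Agent.MP_c853c5_nt.Z

end

section

set_option autoImplicit false

open Finset Filter

namespace Pool.Agent.MP_c853c5_nt.Z

lemma head_Near (N : ℕ) (s : ℂ) (δ : ℝ) (hN : 1 ≤ N) (hδ : 0 ≤ δ) (hs : 1 - δ ≤ s.re)
    (h : δ * Real.log N ≤ 2) :
    ‖∑ n ∈ Icc 1 N, (n : ℂ) ^ (-s)‖ ≤ Real.exp 2 * (1 + Real.log N) := by
  have hN' : (0 : ℝ) < N := by exact_mod_cast hN
  have h1 : ‖∑ n ∈ Icc 1 N, (n : ℂ) ^ (-s)‖ ≤ ∑ n ∈ Icc 1 N, Real.exp 2 * (n : ℝ)⁻¹ := by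
    refine (norm_sum_le _ _).trans (sum_le_sum fun n hn => ?_)
    obtain ⟨k1, k2⟩ := mem_Icc.1 hn
    have k3 : (1 : ℝ) ≤ n := by exact_mod_cast k1
    have k4 : (n : ℝ) ≤ N := by exact_mod_cast k2
    have k5 : (0 : ℝ) < n := by linarith
    rw [Complex.norm_natCast_cpow_of_pos (by omega), Complex.neg_re]
    calc (n : ℝ) ^ (-s.re) ≤ (n : ℝ) ^ (δ + -1) :=
          Real.rpow_le_rpow_of_exponent_le k3 (by linarith)
      _ = Real.exp (Real.log n * δ) * (n : ℝ)⁻¹ := by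
          rw [Real.rpow_add k5, Real.rpow_neg_one, Real.rpow_def_of_pos k5]
      _ ≤ _ := by
          refine mul_le_mul_of_nonneg_right (Real.exp_le_exp.2 ?_) (by positivity)
          have := mul_le_mul_of_nonneg_right (Real.log_le_log k5 k4) hδ
          linarith
  rw [← mul_sum] at h1
  refine h1.trans (mul_le_mul_of_nonneg_left ?_ (Real.exp_pos _).le)
  have h2 := harmonic_le_one_add_log N
  rw [harmonic_eq_sum_Icc] at h2
  push_cast at h2
  exact h2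

lemma num_Near (A L : ℝ) (hA : 10 ≤ A) (hL : (64 * A) ^ 20 ≤ L) : ∃ k N : ℕ, 1 ≤ k ∧ 1 ≤ N ∧
    (N : ℝ) ≤ Real.exp L ∧ Real.exp L ≤ (N : ℝ) ^ k ∧
    L ^ (-(19 / 20) : ℝ) ≤ 1 / (A * (k : ℝ) ^ 8) ∧
    Real.exp (A * (k : ℝ) ^ 8) * (N : ℝ) ^ (-(1 / (A * (k : ℝ) ^ 8))) ≤ 1 ∧
    L ^ (-(19 / 20) : ℝ) * Real.log N ≤ 2 := by
  have hA0 : (640 : ℝ) ≤ 64 * A := by linarith
  have hL0 : (640 : ℝ) ≤ L := (hA0.trans (le_self_pow₀ (by linarith) (by norm_num))).trans hL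
  have hLp : 0 < L := by linarith
  obtain ⟨x, hx0, hx, hx19⟩ : ∃ x : ℝ, 0 < x ∧ x ^ 20 = L ∧ L ^ (-(19 / 20) : ℝ) = 1 / x ^ 19 := by
    refine ⟨L ^ (1 / 20 : ℝ), Real.rpow_pos_of_pos hLp _, ?_, ?_⟩
    · rw [← Real.rpow_natCast, ← Real.rpow_mul hLp.le]
      norm_num
    · rw [← Real.rpow_natCast, ← Real.rpow_mul hLp.le, Real.rpow_neg hLp.le, one_div]
      norm_num
  have hxA : 64 * A ≤ x := by
    rw [← hx] at hL
    exact le_of_pow_le_pow_left₀ (by norm_num) hx0.le hL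
  have hx1 : (640 : ℝ) ≤ x := hA0.trans hxA
  have hk1 : x ≤ (⌈x⌉₊ : ℝ) := Nat.le_ceil x
  have hk2 : (⌈x⌉₊ : ℝ) ≤ 2 * x := by
    have := Nat.ceil_lt_add_one hx0.le
    linarith
  generalize ⌈x⌉₊ = k at hk1 hk2
  have hk0 : (0 : ℝ) < k := by linarith
  have hN1 : Real.exp (L / k) ≤ (⌈Real.exp (L / k)⌉₊ : ℝ) := Nat.le_ceil _
  have hN2 : (⌈Real.exp (L / k)⌉₊ : ℝ) ≤ Real.exp (L / k) + 1 :=
    (Nat.ceil_lt_add_one (Real.exp_pos _).le).le
  generalize ⌈Real.exp (L / k)⌉₊ = N at hN1 hN2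
  have hLk : 0 ≤ L / k := by positivity
  have he1 : 1 ≤ Real.exp (L / k) := Real.one_le_exp hLk
  have hN0 : (1 : ℝ) ≤ N := he1.trans hN1
  have hk8 : (k : ℝ) ^ 8 ≤ 256 * x ^ 8 := by
    have := pow_le_pow_left₀ hk0.le hk2 8
    rw [mul_pow] at this
    norm_num at this
    exact this
  have hAk : 0 < A * (k : ℝ) ^ 8 := by positivity
  refine ⟨k, N, ?_, ?_, ?_, ?_, ?_, ?_, ?_⟩
  · have : (1 : ℝ) ≤ k := by linarith
    exact_mod_cast this
  · exact_mod_cast hN0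
  · have h1 : L / k ≤ L / 2 := div_le_div_of_nonneg_left hLp.le (by norm_num) (by linarith)
    have h2 := Real.exp_le_exp.2 h1
    have h3 := Real.add_one_le_exp (L / 2)
    have h4 : Real.exp L = Real.exp (L / 2) * Real.exp (L / 2) := by
      rw [← Real.exp_add, add_halves]
    rw [h4]
    nlinarith
  · calc Real.exp L = Real.exp (L / k) ^ k := by
          rw [← Real.exp_nat_mul, mul_div_cancel₀ _ hk0.ne']
      _ ≤ _ := pow_le_pow_left₀ (Real.exp_pos _).le hN1 k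
  · rw [hx19]
    refine one_div_le_one_div_of_le hAk ?_
    have h1 : (4 : ℝ) ≤ x ^ 10 := le_trans (by linarith) (le_self_pow₀ (by linarith) (by norm_num))
    calc A * (k : ℝ) ^ 8 ≤ A * (256 * x ^ 8) := by gcongr
      _ = 64 * A * 4 * x ^ 8 := by ring
      _ ≤ x * x ^ 10 * x ^ 8 := by gcongr
      _ = x ^ 19 := by ring
  · have h1 : (N : ℝ) ^ (-(1 / (A * (k : ℝ) ^ 8))) ≤
        Real.exp (L / k) ^ (-(1 / (A * (k : ℝ) ^ 8))) :=
      Real.rpow_le_rpow_of_nonpos (Real.exp_pos _) hN1 (neg_nonpos.2 (by positivity))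
    refine (mul_le_mul_of_nonneg_left h1 (Real.exp_pos _).le).trans ?_
    rw [← Real.exp_mul, ← Real.exp_add, Real.exp_le_one_iff, mul_neg, add_neg_le_iff_le_add,
      zero_add, div_mul_div_comm, mul_one, le_div_iff₀ (by positivity), ← hx]
    have h2 : (2 : ℝ) ^ 17 * A ^ 2 ≤ x ^ 3 := by
      have h3 := pow_le_pow_left₀ (by linarith) hxA 3
      have h4 : 0 ≤ A ^ 2 * (2 * A - 1) := mul_nonneg (sq_nonneg A) (by linarith)
      nlinarith
    calc A * (k : ℝ) ^ 8 * (k * (A * (k : ℝ) ^ 8)) = A ^ 2 * (k : ℝ) ^ 17 := by ring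
      _ ≤ A ^ 2 * (2 * x) ^ 17 := by gcongr
      _ = 2 ^ 17 * A ^ 2 * x ^ 17 := by ring
      _ ≤ x ^ 3 * x ^ 17 := by gcongr
      _ = x ^ 20 := by ring
  · have h1 : Real.log N ≤ L / k + 1 := by
      rw [Real.log_le_iff_le_exp (by linarith), Real.exp_add]
      have := Real.add_one_le_exp 1
      nlinarith
    have h2 : L / k ≤ x ^ 19 := by
      rw [div_le_iff₀ hk0, ← hx, pow_succ]
      gcongr
    have h3 : 1 ≤ x ^ 19 := one_le_pow₀ (by linarith)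
    rw [hx19, one_div, inv_mul_le_iff₀ (by positivity)]
    linarith

theorem near (hT : TailStmt) : NearStmt := by
  obtain ⟨A, C, hA, hC, hT⟩ := hT
  have he : (1 : ℝ) ≤ Real.exp 2 := Real.one_le_exp (by norm_num)
  have hA0 : (640 : ℝ) ≤ 64 * A := by linarith
  have hL0 : (640 : ℝ) ≤ (64 * A) ^ 20 :=
    hA0.trans (le_self_pow₀ (by linarith) (by norm_num))
  have ht3 : 3 ≤ Real.exp ((64 * A) ^ 20) := by
    have := Real.add_one_le_exp ((64 * A) ^ 20)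
    linarith
  refine ⟨C + 2 * Real.exp 2, Real.exp ((64 * A) ^ 20), by linarith, ht3, fun s ht hs hs2 => ?_⟩
  have ht0 : 0 < |s.im| := (Real.exp_pos _).trans_le ht
  have hL : (64 * A) ^ 20 ≤ Real.log |s.im| := (Real.le_log_iff_exp_le ht0).2 ht
  have hL1 : 1 ≤ Real.log |s.im| := by linarith
  obtain ⟨k, N, h1, h2, h3, h4, h5, h6, h7⟩ := num_Near A _ hA hL
  rw [Real.exp_log ht0] at h3 h4
  have k1 := hT k N s h1 (by linarith) h3 h4 (by linarith) hs2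
  have k2 := head_Near N s _ h2 (Real.rpow_nonneg (by linarith) _) hs h7
  have k3 : Real.log N ≤ Real.log |s.im| :=
    Real.log_le_log (by exact_mod_cast h2) h3
  have k4 : C * Real.exp (A * (k : ℝ) ^ 8) * (N : ℝ) ^ (-(1 / (A * (k : ℝ) ^ 8))) *
      Real.log |s.im| ≤ C * Real.log |s.im| := by
    rw [mul_assoc C]
    exact mul_le_mul_of_nonneg_right (mul_le_of_le_one_right hC.le h6) (by linarith)
  have k5 : Real.exp 2 * (1 + Real.log N) ≤ Real.exp 2 * (2 * Real.log |s.im|) :=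
    mul_le_mul_of_nonneg_left (by linarith) (by linarith)
  have k6 := norm_add_le (riemannZeta s - ∑ n ∈ Icc 1 N, (n : ℂ) ^ (-s))
    (∑ n ∈ Icc 1 N, (n : ℂ) ^ (-s))
  rw [sub_add_cancel] at k6
  linarith

end Pool.Agent.MP_c853c5_nt.Z

end

section

set_option autoImplicit false

open Finset

namespace Pool.Agent.MP_c853c5_nt.Z

lemma loc_ZF0 (hL : LocStmt) {c : ℂ} {r M : ℝ} (hc : 1 < c.re) (hr : 0 < r) (hM : 1 ≤ M)
    (h1 : ∀ z ∈ Metric.closedBall c (19 / 10 * r), z ≠ 1 ∧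
      ‖riemannZeta z‖ ≤ Real.exp M * ‖riemannZeta c‖) (h2 : 1 ≤ Real.exp M * ‖riemannZeta c‖) :
    (-logDeriv riemannZeta c).re ≤ 30000 * M / r ∧ ∀ ρ : ℂ, riemannZeta ρ = 0 → ρ.im = c.im →
      c.re - ρ.re ≤ 9 / 5 * r → (-logDeriv riemannZeta c).re ≤ 30000 * M / r - 1 / (c.re - ρ.re) := by
  obtain ⟨Z, hZ, hm, hb⟩ := hL riemannZeta c r M hr hM
    (fun z hz => DifferentiableOn.analyticAt (s := {1}ᶜ)
      (fun w hw => (differentiableAt_riemannZeta hw).differentiableWithinAt)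
      (isOpen_compl_singleton.mem_nhds (h1 z hz).1))
    (riemannZeta_ne_zero_of_one_le_re hc.le)
    (fun z hz => (h1 z (Metric.sphere_subset_closedBall hz)).2) h2
  have hlt : ∀ ρ : ℂ, riemannZeta ρ = 0 → 0 < c.re - ρ.re := fun ρ hρ => by
    have : ρ.re < 1 := not_le.1 fun h => riemannZeta_ne_zero_of_one_le_re h hρ
    linarith
  have h0 : ∀ ρ ∈ Z, 0 ≤ (((analyticOrderAt riemannZeta ρ).toNat : ℂ) / (c - ρ)).re := fun ρ hρ => by
    rw [div_eq_mul_inv, ← Complex.ofReal_natCast, Complex.re_ofReal_mul, Complex.inv_re,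
      Complex.sub_re]
    exact mul_nonneg (Nat.cast_nonneg _)
      (div_nonneg (hlt ρ ((hZ ρ).1 hρ).2).le (Complex.normSq_nonneg _))
  have h3 := (abs_le.1 ((Complex.abs_re_le_norm _).trans hb)).1
  rw [Complex.sub_re, Complex.re_sum] at h3
  rw [Complex.neg_re]
  refine ⟨by linarith [sum_nonneg h0], fun ρ hρ hi hd => ?_⟩
  have e : c - ρ = ((c.re - ρ.re : ℝ) : ℂ) := Complex.ext (by simp) (by simp [hi])
  have hρZ : ρ ∈ Z := (hZ ρ).2 ⟨by
    rw [Metric.mem_closedBall, dist_comm, dist_eq_norm, e, Complex.norm_real,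
      Real.norm_of_nonneg (hlt ρ hρ).le]
    exact hd, hρ⟩
  have h4 := single_le_sum h0 hρZ
  have h5 : 1 / (c.re - ρ.re) ≤ (((analyticOrderAt riemannZeta ρ).toNat : ℂ) / (c - ρ)).re := by
    rw [e, Complex.div_ofReal_re, Complex.natCast_re]
    exact div_le_div_of_nonneg_right (by exact_mod_cast hm ρ hρZ) (hlt ρ hρ).le
  linarith

lemma pow_ZF0 {L : ℝ} (hL : 0 ≤ L) (n : ℕ) : L ^ ((n : ℝ) / 40) = (L ^ (1 / 40 : ℝ)) ^ n := by
  rw [← Real.rpow_natCast, ← Real.rpow_mul hL]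
  congr 1
  ring

lemma near_ZF0 {C t₀ G y : ℝ} (hC : 1 ≤ C) (ht : 3 ≤ t₀) (hN : ∀ s : ℂ, t₀ ≤ |s.im| →
      1 - Real.log |s.im| ^ (-(19 / 20) : ℝ) ≤ s.re → s.re ≤ 2 →
      ‖riemannZeta s‖ ≤ C * Real.log |s.im|) (hG : t₀ + 1 ≤ G) (hy : 1 ≤ y)
    (e : Real.log G ^ (-(19 / 20) : ℝ) = y⁻¹) {c : ℂ} (h1 : 1 ≤ c.re) (h2 : c.re ≤ 3 / 2)
    (h3 : G ≤ |c.im|) (h4 : |c.im| ≤ 2 * G) {z : ℂ}
    (hz : z ∈ Metric.closedBall c (19 / 10 * (y⁻¹ / 4))) :
    z ≠ 1 ∧ ‖riemannZeta z‖ ≤ 2 * C * Real.log G := by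
  rw [Metric.mem_closedBall, dist_eq_norm] at hz
  have y1 : y⁻¹ ≤ 1 := inv_le_one_of_one_le₀ hy
  have y0 : 0 < y⁻¹ := by positivity
  have a1 := abs_le.1 ((Complex.abs_re_le_norm _).trans hz)
  have a2 := abs_le.1 ((abs_abs_sub_abs_le_abs_sub z.im c.im).trans
    ((Complex.abs_im_le_norm (z - c)).trans hz))
  rw [Complex.sub_re] at a1
  have a3 : t₀ ≤ |z.im| := by linarith [a2.1]
  have a4 : Real.log |z.im| ≤ 2 * Real.log G := by
    have := Real.log_le_log (by linarith) (show |z.im| ≤ G ^ 2 by nlinarith [a2.2])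
    rwa [Real.log_pow, Nat.cast_ofNat] at this
  have a5 : 0 < Real.log |z.im| := Real.log_pos (by linarith)
  have a6 : y⁻¹ / 2 ≤ Real.log |z.im| ^ (-(19 / 20) : ℝ) := by
    refine le_trans ?_ (Real.rpow_le_rpow_of_nonpos a5 a4 (by norm_num))
    rw [Real.mul_rpow (by norm_num) (by linarith), e]
    have : (2 : ℝ) ^ (-1 : ℝ) ≤ 2 ^ (-(19 / 20) : ℝ) :=
      Real.rpow_le_rpow_of_exponent_le (by norm_num) (by norm_num)
    rw [Real.rpow_neg_one] at this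
    nlinarith
  refine ⟨fun h => ?_, (hN z a3 (by linarith [a1.1]) (by linarith [a1.2])).trans (by nlinarith)⟩
  rw [h, Complex.one_im, abs_zero] at a3
  linarith

theorem zf0 (hN : NearStmt) (hL : LocStmt) (hT : T341Stmt) : ZF0Stmt := by
  obtain ⟨C, t₀, hC, ht, hN⟩ := hN
  obtain ⟨hT1, ⟨C', hC', hT2⟩, hT3⟩ := hT
  have ev : ∀ᶠ x : ℝ in Filter.atTop, 10 ^ 7 ≤ x ∧ 300 * C' < x ∧
      2 * C ≤ Real.exp (1 / 10 ^ 7 * x) / x ^ ((80 : ℕ) : ℝ) :=
    (Filter.eventually_ge_atTop _).and ((Filter.eventually_gt_atTop _).and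
      ((tendsto_exp_mul_div_rpow_atTop _ _ (by norm_num)).eventually_ge_atTop _))
  obtain ⟨G₀, hG₀⟩ := Filter.eventually_atTop.1 (((tendsto_rpow_atTop
    (show (0 : ℝ) < 1 / 40 by norm_num)).comp Real.tendsto_log_atTop).eventually ev)
  refine ⟨max (t₀ + 1) G₀, le_max_of_le_left (by linarith), fun ρ hρ hG => not_lt.1 fun hβ => ?_⟩
  obtain ⟨hG1, hG2⟩ := max_le_iff.1 hG
  obtain ⟨x1, x2, x3⟩ := hG₀ _ hG2
  have hL0 : 0 ≤ Real.log |ρ.im| := Real.log_nonneg (by linarith)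
  have e38 := pow_ZF0 hL0 38
  have e39 := pow_ZF0 hL0 39
  have e40 := pow_ZF0 hL0 40
  simp only [Function.comp_apply] at x1 x2 x3
  generalize Real.log |ρ.im| ^ (1 / 40 : ℝ) = x at *
  have x0 : 0 < x := by linarith
  rw [Real.rpow_natCast, le_div_iff₀ (by positivity)] at x3
  have hy : 1 ≤ x ^ 38 := one_le_pow₀ (by linarith)
  have hw : x ≤ x ^ 39 := le_self_pow₀ (by linarith) (by norm_num)
  have w0 : 0 < x ^ 39 := by positivity
  have f38 : Real.log |ρ.im| ^ (-(19 / 20) : ℝ) = (x ^ 38)⁻¹ := by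
    rw [Real.rpow_neg hL0, ← e38]
    norm_num
  have f39 : Real.log |ρ.im| ^ (-(39 / 40) : ℝ) = (x ^ 39)⁻¹ := by
    rw [Real.rpow_neg hL0, ← e39]
    norm_num
  have f40 : Real.log |ρ.im| = x ^ 40 := by
    rw [← e40]
    norm_num
  rw [f39] at hβ
  have l0 : 0 < (x ^ 39)⁻¹ := by positivity
  have l1 : (x ^ 39)⁻¹ ≤ 1 / 12 := by
    rw [one_div]
    exact inv_anti₀ (by norm_num) (by linarith)
  have key : ∀ c : ℂ, c.re = 1 + 6 * (x ^ 39)⁻¹ → |ρ.im| ≤ |c.im| → |c.im| ≤ 2 * |ρ.im| → _ :=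
    fun c c1 c2 c3 => by
      have b1 : 2 * C * Real.log |ρ.im| ≤ Real.exp (1 / 10 ^ 7 * x) * ‖riemannZeta c‖ := by
        have b2 := hT3 c (by linarith) (by linarith)
        have b3 : (x ^ 40)⁻¹ ≤ (x ^ 39)⁻¹ :=
          inv_anti₀ w0 (pow_le_pow_right₀ (by linarith) (by norm_num))
        refine le_trans (le_of_eq ?_) (mul_le_mul x3 (show (x ^ 40)⁻¹ ≤ _ by linarith)
          (by positivity) (by positivity))
        rw [f40]
        field_simp
      exact loc_ZF0 hL (c := c) (r := (x ^ 38)⁻¹ / 4) (M := 1 / 10 ^ 7 * x) (by linarith)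
        (by positivity) (by linarith) (fun z hz =>
          (near_ZF0 hC ht hN hG1 hy f38 (by linarith) (by linarith) c2 c3 hz).imp_right
            fun h => h.trans b1) (le_trans (by
          rw [f40]
          have := one_le_mul_of_one_le_of_one_le hC (one_le_pow₀ (n := 40) (show 1 ≤ x by linarith))
          linarith) b1)
  have hρ1 : ρ.re < 1 := not_le.1 fun h => riemannZeta_ne_zero_of_one_le_re h hρ
  have k1 := (key ((1 + 6 * (x ^ 39)⁻¹ : ℝ) + ρ.im * Complex.I) (by simp [-Complex.ofReal_add])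
    (by simp [-Complex.ofReal_add]) (by simp [-Complex.ofReal_add]; linarith [abs_nonneg ρ.im])).2 ρ hρ
    (by simp [-Complex.ofReal_add])
  have k2 := (key ((1 + 6 * (x ^ 39)⁻¹ : ℝ) + (2 * ρ.im : ℝ) * Complex.I)
    (by simp [-Complex.ofReal_add])
    (by simp [-Complex.ofReal_add, abs_mul]; linarith [abs_nonneg ρ.im])
    (by simp [-Complex.ofReal_add, abs_mul])).1
  have k3 := hT1 (1 + 6 * (x ^ 39)⁻¹) ρ.im (by linarith)
  have k4 := hT2 (1 + 6 * (x ^ 39)⁻¹) (by linarith) (by linarith)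
  have e1 : (((1 + 6 * (x ^ 39)⁻¹ : ℝ) : ℂ) + ρ.im * Complex.I).re = 1 + 6 * (x ^ 39)⁻¹ := by
    simp [-Complex.ofReal_add]
  have e2 : 30000 * (1 / 10 ^ 7 * x) / ((x ^ 38)⁻¹ / 4) = 12 / 1000 * x ^ 39 := by
    field_simp
    norm_num
  have e3 : 1 / (1 + 6 * (x ^ 39)⁻¹ - 1) = x ^ 39 / 6 := by
    field_simp
    ring
  have e4 : x ^ 39 / 7 ≤ 1 / (1 + 6 * (x ^ 39)⁻¹ - ρ.re) := by
    refine le_trans (le_of_eq ?_) (one_div_le_one_div_of_le (by linarith)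
      (show _ ≤ 7 * (x ^ 39)⁻¹ by linarith))
    field_simp
  have e5 : 7 * (x ^ 39)⁻¹ ≤ 9 / 5 * ((x ^ 38)⁻¹ / 4) := by
    have : (x ^ 39)⁻¹ = x⁻¹ * (x ^ 38)⁻¹ := by
      field_simp
    have b : x⁻¹ ≤ 1 / 20 := by
      rw [one_div]
      exact inv_anti₀ (by norm_num) (by linarith)
    have b' : 0 < (x ^ 38)⁻¹ := by positivity
    rw [this]
    nlinarith
  rw [e1, e2] at k1
  rw [e2] at k2
  rw [e3] at k4
  have k5 := k1 (by linarith)
  simp only [Complex.sub_re, Complex.neg_re, neg_mul, Complex.mul_re, Complex.re_ofNat,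
    Complex.im_ofNat, zero_mul, sub_zero] at k2 k3 k4 k5
  linarith

end Pool.Agent.MP_c853c5_nt.Z

end

section

set_option autoImplicit false

open Finset Filter

namespace Pool.Agent.MP_c853c5_nt.Z

lemma alg_Blk {R l G S x n y C : ℝ} (hR : 0 ≤ R) (hl : 0 < l) (hx : 0 < x) (hn : 0 < n)
    (hS0 : 0 ≤ S) (hG : G ≤ x * (162 * n * l ^ 4)) (hS : S ≤ R * (30 * n * l + R * (C * y)))
    (h : (R * (1 / (4 * l))) ^ 2 ≤ G * (2 * S)) (hs : 10368 * C * l ^ 6 * (x * n * y) ≤ 1) :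
    R ≤ 311040 * (x * n ^ 2) * l ^ 7 := by
  rcases hR.eq_or_lt with h0 | h0
  · rw [← h0]; positivity
  have h1 : G * (2 * S) ≤ x * (162 * n * l ^ 4) * (2 * (R * (30 * n * l + R * (C * y)))) :=
    mul_le_mul hG (by linarith) (by linarith) (by positivity)
  have h2 : R ^ 2 = 16 * l ^ 2 * (R * (1 / (4 * l))) ^ 2 := by
    field_simp
    ring
  have h3 := mul_le_mul_of_nonneg_left (h.trans h1) (by positivity : 0 ≤ 16 * l ^ 2)
  have h4 := mul_le_mul_of_nonneg_left hs (by positivity : 0 ≤ R ^ 2)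
  rw [← h2] at h3
  refine le_of_mul_le_mul_left ?_ h0
  nlinarith

lemma ev_Blk (K s : ℝ) (hK : 0 < K) (hs : 0 < s) :
    ∃ U₀ : ℝ, ∀ U, U₀ ≤ U → K * Real.log U ^ 6 ≤ U ^ s := by
  have h := (isLittleO_log_rpow_rpow_atTop (6 : ℝ) hs).bound (inv_pos.2 hK)
  obtain ⟨U₀, h1⟩ := eventually_atTop.1 (h.and (eventually_ge_atTop 1))
  refine ⟨U₀, fun U hU => ?_⟩
  obtain ⟨h2, h3⟩ := h1 U hU
  have e : Real.log U ^ (6 : ℝ) = Real.log U ^ 6 := by exact_mod_cast Real.rpow_natCast _ 6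
  rw [e, Real.norm_of_nonneg (by positivity), Real.norm_of_nonneg (by positivity),
    le_inv_mul_iff₀ hK] at h2
  exact h2

lemma coef_Blk (hT : TauStmt) {N : ℕ} (hN : 1 ≤ N) {σ : ℝ} (hσ : 0 ≤ σ) {a : ℕ → ℂ}
    (ha : ∀ n, ‖a n‖ ≤ (n.divisors.card : ℝ)) :
    ∑ n ∈ Ioc N (2 * N), ‖a n‖ ^ 2 * (n : ℝ) ^ (-(2 * σ)) ≤
      (N : ℝ) ^ (-(2 * σ)) * (2 * N * (1 + Real.log (2 * N)) ^ 4) := by
  have hN0 : (0 : ℝ) < N := by exact_mod_cast hN
  have h1 := hT (2 * N)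
  push_cast at h1
  calc _ ≤ ∑ n ∈ Ioc N (2 * N), (N : ℝ) ^ (-(2 * σ)) * (n.divisors.card : ℝ) ^ 2 := by
        refine Finset.sum_le_sum fun n hn => ?_
        rw [mul_comm]
        refine mul_le_mul ?_ (pow_le_pow_left₀ (norm_nonneg _) (ha n) 2) (by positivity)
          (by positivity)
        exact Real.rpow_le_rpow_of_nonpos hN0 (by exact_mod_cast (Finset.mem_Ioc.1 hn).1.le)
          (by linarith)
    _ ≤ (N : ℝ) ^ (-(2 * σ)) * ∑ n ∈ Icc 1 (2 * N), (n.divisors.card : ℝ) ^ 2 := by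
        rw [← Finset.mul_sum]
        refine mul_le_mul_of_nonneg_left (Finset.sum_le_sum_of_subset_of_nonneg
          (fun n hn => ?_) fun _ _ _ => by positivity) (by positivity)
        have := Finset.mem_Ioc.1 hn
        exact Finset.mem_Icc.2 ⟨by omega, this.2⟩
    _ ≤ _ := mul_le_mul_of_nonneg_left h1 (by positivity)

theorem blk (hH : HalStmt) (hK : KerStmt) (hT : TauStmt) (hS : SepStmt) : BlkStmt := by
  obtain ⟨C, δ, hC, hδ, hδ1, hk⟩ := hK 9 (by norm_num)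
  obtain ⟨U₁, hU₁⟩ := ev_Blk (10368 * C) (δ / 16) (by positivity) (by positivity)
  refine ⟨δ / 4, 311040, max U₁ 65536, by positivity, by norm_num,
    le_max_of_le_right (by norm_num), fun U σ N a W hU hUN hNU hσ hσ1 ha hW hρ => ?_⟩
  have hU1 : U₁ ≤ U := (le_max_left _ _).trans hU
  have hU2 : 65536 ≤ U := (le_max_right _ _).trans hU
  have hn4 : (4 : ℝ) ≤ N := by
    refine le_of_pow_le_pow_left₀ (n := 8) (by norm_num) (Nat.cast_nonneg _) ?_
    linarith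
  have hN1 : 1 ≤ N := by exact_mod_cast (by linarith : (1 : ℝ) ≤ N)
  have hn0 : (0 : ℝ) < N := by linarith
  have hU0 : 0 < U := by linarith
  have hl1 : 1 ≤ Real.log U := by
    rw [Real.le_log_iff_exp_le hU0]
    linarith [Real.exp_one_lt_d9]
  have hσ0 : 0 ≤ σ := by linarith
  have hd : ∀ ρ ∈ W, ∀ ρ' ∈ W, |ρ'.im - ρ.im| ≤ 4 * U := fun ρ h ρ' h' => by
    have := abs_sub ρ'.im ρ.im
    linarith [(hρ ρ h).2.1, (hρ ρ' h').2.1]
  have h49 : 4 * U ≤ (N : ℝ) ^ 9 := by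
    have : (0 : ℝ) ≤ (N : ℝ) ^ 8 := by positivity
    rw [pow_succ]
    nlinarith
  have key := hH W N a σ (1 / (4 * Real.log U))
    (fun ρ ρ' => 5 * N / (1 + |ρ'.im - ρ.im|) + C * (N : ℝ) ^ (1 - δ)) hN1 (by positivity)
    (fun ρ h => (hρ ρ h).1) (fun ρ h => (hρ ρ h).2.2)
    fun ρ h ρ' h' L h1 h2 => hk N L _ hN1 h1 h2 ((hd ρ h ρ' h').trans h49)
  have l1 : 1 + Real.log (2 * N) ≤ 3 * Real.log U := by
    have : Real.log (2 * N) ≤ Real.log (U ^ 2) := Real.log_le_log (by positivity) (by nlinarith)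
    rw [Real.log_pow] at this
    push_cast at this
    linarith
  have l0 : 0 ≤ 1 + Real.log (2 * N) := by
    have := Real.log_nonneg (by linarith : (1 : ℝ) ≤ 2 * N)
    linarith
  have l2 : 1 + Real.log (4 * U + 1) ≤ 3 * Real.log U := by
    have : Real.log (4 * U + 1) ≤ Real.log (U ^ 2) :=
      Real.log_le_log (by positivity) (by nlinarith)
    rw [Real.log_pow] at this
    push_cast at this
    linarith
  have hG : ∑ n ∈ Ioc N (2 * N), ‖a n‖ ^ 2 * (n : ℝ) ^ (-(2 * σ)) ≤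
      (N : ℝ) ^ (-(2 * σ)) * (162 * N * Real.log U ^ 4) := by
    refine (coef_Blk hT hN1 hσ0 ha).trans (mul_le_mul_of_nonneg_left ?_ (by positivity))
    have := mul_le_mul_of_nonneg_left (pow_le_pow_left₀ l0 l1 4) (by positivity : (0 : ℝ) ≤ 2 * N)
    linarith
  have hS' : ∑ ρ ∈ W, ∑ ρ' ∈ W, (5 * N / (1 + |ρ'.im - ρ.im|) + C * (N : ℝ) ^ (1 - δ)) ≤
      W.card * (30 * N * Real.log U + W.card * (C * (N : ℝ) ^ (1 - δ))) := by
    rw [← nsmul_eq_mul]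
    refine Finset.sum_le_card_nsmul _ _ _ fun ρ h => ?_
    have h1 := hS W ρ.im (4 * U) hW (by positivity) (hd ρ h)
    have e : ∑ ρ' ∈ W, 5 * (N : ℝ) / (1 + |ρ'.im - ρ.im|) =
        5 * N * ∑ ρ' ∈ W, 1 / (1 + |ρ'.im - ρ.im|) := by
      rw [Finset.mul_sum]
      exact Finset.sum_congr rfl fun _ _ => by rw [mul_one_div]
    rw [Finset.sum_add_distrib, Finset.sum_const, nsmul_eq_mul, e]
    have := mul_le_mul_of_nonneg_left (h1.trans (by linarith : _ ≤ 6 * Real.log U))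
      (by positivity : (0 : ℝ) ≤ 5 * N)
    linarith
  have hs : 10368 * C * Real.log U ^ 6 *
      ((N : ℝ) ^ (-(2 * σ)) * N * (N : ℝ) ^ (1 - δ)) ≤ 1 := by
    have h1 : U ^ (δ / 16) ≤ (N : ℝ) ^ (δ / 2) := by
      refine (Real.rpow_le_rpow hU0.le hUN (by positivity)).trans_eq ?_
      rw [← Real.rpow_natCast, ← Real.rpow_mul hn0.le]
      congr 1
      push_cast
      ring
    have h2 : (N : ℝ) ^ (δ / 2) * ((N : ℝ) ^ (-(2 * σ)) * N * (N : ℝ) ^ (1 - δ)) ≤ 1 := by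
      rw [← Real.rpow_add_one hn0.ne', ← Real.rpow_add hn0, ← Real.rpow_add hn0]
      exact Real.rpow_le_one_of_one_le_of_nonpos (by linarith) (by linarith)
    exact (mul_le_mul_of_nonneg_right ((hU₁ U hU1).trans h1) (by positivity)).trans h2
  have e : (N : ℝ) ^ (2 * (1 - σ)) = (N : ℝ) ^ (-(2 * σ)) * (N : ℝ) ^ 2 := by
    rw [← Real.rpow_add_natCast hn0.ne']
    congr 1
    push_cast
    ring
  rw [e]
  exact alg_Blk (Nat.cast_nonneg _) (by linarith) (by positivity) hn0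
    (Finset.sum_nonneg fun _ _ => Finset.sum_nonneg fun _ _ => by positivity) hG hS' key hs

end Pool.Agent.MP_c853c5_nt.Z

end

section

set_option autoImplicit false

open Finset Filter

namespace Pool.Agent.MP_c853c5_nt.Z

lemma norm_GG_EF (Δ v σ t : ℝ) : ‖GG Δ v (σ + t * Complex.I)‖ =
    Real.exp (σ * v + Δ ^ 2 * (σ ^ 2 - t ^ 2) / (4 * Real.pi)) := by
  unfold GG
  rw [Complex.norm_exp]
  congr 1
  have e : ((σ : ℂ) + t * Complex.I) * v + (Δ : ℂ) ^ 2 * ((σ : ℂ) + t * Complex.I) ^ 2 /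
      (4 * Real.pi) = ((σ * v + Δ ^ 2 * (σ ^ 2 - t ^ 2) / (4 * Real.pi) : ℝ) : ℂ) +
        ((t * v + Δ ^ 2 * (2 * σ * t) / (4 * Real.pi) : ℝ) : ℂ) * Complex.I := by
    push_cast
    linear_combination (((Δ : ℂ) ^ 2 * t ^ 2) / (4 * Real.pi)) * Complex.I_sq
  rw [e]
  simp only [Complex.add_re, Complex.ofReal_re, Complex.mul_re, Complex.I_re, mul_zero,
    Complex.ofReal_im, Complex.I_im, mul_one, sub_self, add_zero]

lemma norm_GG_le_EF {Δ v σ : ℝ} (t : ℝ) (h0 : 0 < Δ) (h1 : Δ ≤ 1) (hs0 : 0 ≤ σ) (hs : σ ≤ 2) :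
    ‖GG Δ v (σ + t * Complex.I)‖ ≤
      2 * Real.exp (σ * v) * Real.exp (-(Δ ^ 2 * t ^ 2 / (4 * Real.pi))) := by
  rw [norm_GG_EF]
  have hp : 3 < Real.pi := Real.pi_gt_three
  have e : σ * v + Δ ^ 2 * (σ ^ 2 - t ^ 2) / (4 * Real.pi) =
      Δ ^ 2 * σ ^ 2 / (4 * Real.pi) + σ * v + -(Δ ^ 2 * t ^ 2 / (4 * Real.pi)) := by ring
  rw [e, Real.exp_add, Real.exp_add]
  have h2 : Δ ^ 2 * σ ^ 2 / (4 * Real.pi) ≤ Real.log 2 := by
    have a1 : Δ ^ 2 ≤ 1 := by nlinarith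
    have a2 : σ ^ 2 ≤ 4 := by nlinarith
    have a3 : Δ ^ 2 * σ ^ 2 ≤ 4 := by nlinarith [sq_nonneg Δ, sq_nonneg σ]
    have a4 := Real.log_two_gt_d9
    rw [div_le_iff₀ (by positivity)]
    nlinarith
  have h3 : Real.exp (Δ ^ 2 * σ ^ 2 / (4 * Real.pi)) ≤ 2 := by
    calc _ ≤ Real.exp (Real.log 2) := Real.exp_le_exp.mpr h2
      _ = 2 := Real.exp_log (by norm_num)
  gcongr

lemma GG_one_EF (Δ v : ℝ) : GG Δ v 1 = ((Real.exp (v + Δ ^ 2 / (4 * Real.pi)) : ℝ) : ℂ) := by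
  unfold GG
  push_cast
  congr 1
  ring

lemma diff_GG_EF (Δ v : ℝ) : Differentiable ℂ (GG Δ v) := by
  unfold GG
  fun_prop

lemma LS_bd_EF : ∃ C : ℝ, 0 ≤ C ∧ ∀ t : ℝ,
    ‖LSeries (fun n => (ArithmeticFunction.vonMangoldt n : ℂ)) (2 + t * Complex.I)‖ ≤ C := by
  have hs : LSeriesSummable (fun n => (ArithmeticFunction.vonMangoldt n : ℂ)) 2 :=
    ArithmeticFunction.LSeriesSummable_vonMangoldt (by norm_num)
  refine ⟨∑' n, ‖LSeries.term (fun n => (ArithmeticFunction.vonMangoldt n : ℂ)) 2 n‖,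
    tsum_nonneg fun _ => norm_nonneg _, fun t => ?_⟩
  refine tsum_of_norm_bounded (Summable.hasSum hs.norm) fun n => ?_
  exact LSeries.norm_term_le_of_re_le_re _ (by simp) n

lemma gauss_int_EF {Δ : ℝ} (h0 : 0 < Δ) :
    ∫ t : ℝ, Real.exp (-(Δ ^ 2 / (8 * Real.pi)) * t ^ 2) ≤ 12 / Δ := by
  rw [integral_gaussian]
  have hp : Real.pi ≤ 4 := Real.pi_le_four
  have hp0 := Real.pi_pos
  refine Real.sqrt_le_iff.mpr ⟨by positivity, ?_⟩
  have e : Real.pi / (Δ ^ 2 / (8 * Real.pi)) = 8 * Real.pi ^ 2 / Δ ^ 2 := by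
    field_simp
  rw [e, div_pow]
  gcongr
  nlinarith

lemma tail_EF {Δ v T c d C : ℝ} (F : ℝ → ℂ) (h0 : 0 < Δ) (hT : 0 ≤ T) (hc : c ≤ -T)
    (hd : T ≤ d) (hC : 0 ≤ C) (hF : MeasureTheory.Integrable F)
    (hb : ∀ t, ‖F t‖ ≤ C * (2 * Real.exp (2 * v) * Real.exp (-(Δ ^ 2 * t ^ 2 / (4 * Real.pi))))) :
    ‖(∫ t, F t) - ∫ t in c..d, F t‖ ≤
      24 * C * (Real.exp (2 * v) * (1 / Δ) * Real.exp (-(Δ ^ 2 * T ^ 2 / (8 * Real.pi)))) := by
  have hp0 := Real.pi_pos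
  rw [intervalIntegral.integral_of_le (by linarith),
    ← MeasureTheory.integral_add_compl (s := Set.Ioc c d) measurableSet_Ioc hF, add_sub_cancel_left]
  set K : ℝ := C * (2 * Real.exp (2 * v) * Real.exp (-(Δ ^ 2 * T ^ 2 / (8 * Real.pi)))) with hK
  have hK0 : 0 ≤ K := by positivity
  have hi : MeasureTheory.Integrable
      (fun t : ℝ => K * Real.exp (-(Δ ^ 2 / (8 * Real.pi)) * t ^ 2)) :=
    (integrable_exp_neg_mul_sq (by positivity)).const_mul K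
  have h1 : ‖∫ t in (Set.Ioc c d)ᶜ, F t‖ ≤
      ∫ t in (Set.Ioc c d)ᶜ, K * Real.exp (-(Δ ^ 2 / (8 * Real.pi)) * t ^ 2) := by
    refine MeasureTheory.norm_integral_le_of_norm_le hi.integrableOn ?_
    filter_upwards [MeasureTheory.ae_restrict_mem measurableSet_Ioc.compl] with t ht
    have ht2 : T ^ 2 ≤ t ^ 2 := by
      rw [Set.mem_compl_iff, Set.mem_Ioc, not_and_or, not_lt, not_le] at ht
      rcases ht with h | h <;> nlinarith
    refine (hb t).trans ?_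
    have e : K * Real.exp (-(Δ ^ 2 / (8 * Real.pi)) * t ^ 2) = C * (2 * Real.exp (2 * v) *
        Real.exp (-(Δ ^ 2 * T ^ 2 / (8 * Real.pi)) + -(Δ ^ 2 / (8 * Real.pi)) * t ^ 2)) := by
      rw [hK, Real.exp_add]; ring
    rw [e]
    have h3 : -(Δ ^ 2 * t ^ 2 / (4 * Real.pi)) ≤
        -(Δ ^ 2 * T ^ 2 / (8 * Real.pi)) + -(Δ ^ 2 / (8 * Real.pi)) * t ^ 2 := by
      have a : Δ ^ 2 * T ^ 2 / (8 * Real.pi) ≤ Δ ^ 2 * t ^ 2 / (8 * Real.pi) := by gcongr
      have b : Δ ^ 2 * t ^ 2 / (4 * Real.pi) =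
        Δ ^ 2 * t ^ 2 / (8 * Real.pi) + (Δ ^ 2 / (8 * Real.pi)) * t ^ 2 := by
        field_simp; ring
      linarith
    gcongr
  have h2 : ∫ t in (Set.Ioc c d)ᶜ, K * Real.exp (-(Δ ^ 2 / (8 * Real.pi)) * t ^ 2) ≤
      ∫ t : ℝ, K * Real.exp (-(Δ ^ 2 / (8 * Real.pi)) * t ^ 2) :=
    MeasureTheory.setIntegral_le_integral hi (Eventually.of_forall fun t => by positivity)
  have h3 := mul_le_mul_of_nonneg_left (gauss_int_EF h0) hK0
  rw [← MeasureTheory.integral_const_mul] at h3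
  refine h1.trans (h2.trans (h3.trans (le_of_eq ?_)))
  rw [hK]; ring

lemma contOn_EF {a : ℝ} {S : Set ℝ} (h : ∀ t ∈ S, riemannZeta₁ (a + t * Complex.I) ≠ 0) :
    ContinuousOn (fun t : ℝ => ‖logDeriv riemannZeta₁ (a + t * Complex.I)‖) S := by
  have c1 : Continuous riemannZeta₁ := differentiable_riemannZeta₁.continuous
  have c2 : Continuous (deriv riemannZeta₁) :=
    (differentiable_riemannZeta₁.contDiff (n := 1)).continuous_deriv le_rfl
  have c3 : Continuous fun t : ℝ => (a : ℂ) + t * Complex.I := by fun_prop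
  simp only [logDeriv_apply]
  exact (((c2.comp c3).continuousOn).div ((c1.comp c3).continuousOn) h).norm

lemma left_EF {Δ v T a c d C : ℝ} (h0 : 0 < Δ) (h1 : Δ ≤ 1) (hv : 0 ≤ v) (hT : 3 ≤ T)
    (ha : a ∈ Set.Icc (1 / 2 : ℝ) (51 / 100)) (hc : c ∈ Set.Icc (-T - 1) (-T))
    (hd : d ∈ Set.Icc T (T + 1)) (hC : 1 ≤ C)
    (hz : ∀ t ∈ Set.Icc (-(T + 1)) (T + 1), riemannZeta₁ (a + t * Complex.I) ≠ 0)
    (hI : ∫ t in (-(T + 1))..(T + 1), ‖logDeriv riemannZeta₁ (a + t * Complex.I)‖ ≤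
      C * (T + 1) * Real.log (T + 1) ^ 2) :
    ∫ t in c..d, (‖logDeriv riemannZeta₁ (a + t * Complex.I)‖ + 1 / (1 - a)) *
        ‖GG Δ v (a + t * Complex.I)‖ ≤
      (16 * C + 24) * (Real.exp (51 / 100 * v) * T * Real.log T ^ 2) := by
  obtain ⟨a1, a2⟩ := ha
  obtain ⟨c1, c2⟩ := hc
  obtain ⟨d1, d2⟩ := hd
  have hp0 := Real.pi_pos
  have hcd : c ≤ d := by linarith
  have hint : IntervalIntegrable (fun t : ℝ => ‖logDeriv riemannZeta₁ (a + t * Complex.I)‖)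
      MeasureTheory.volume (-(T + 1)) (T + 1) := by
    refine ContinuousOn.intervalIntegrable ?_
    rw [Set.uIcc_of_le (by linarith)]
    exact contOn_EF hz
  have hint2 : IntervalIntegrable (fun t : ℝ => ‖logDeriv riemannZeta₁ (a + t * Complex.I)‖)
      MeasureTheory.volume c d := by
    refine hint.mono_set ?_
    rw [Set.uIcc_of_le hcd, Set.uIcc_of_le (by linarith)]
    exact Set.Icc_subset_Icc (by linarith) d2
  set E : ℝ := 2 * Real.exp (51 / 100 * v) with hE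
  have hE0 : 0 ≤ E := by positivity
  have hb : ‖∫ t in c..d, (‖logDeriv riemannZeta₁ (a + t * Complex.I)‖ + 1 / (1 - a)) *
        ‖GG Δ v (a + t * Complex.I)‖‖ ≤
      ∫ t in c..d, E * (‖logDeriv riemannZeta₁ (a + t * Complex.I)‖ + 3) := by
    refine intervalIntegral.norm_integral_le_of_norm_le hcd (Eventually.of_forall fun t _ => ?_)
      ((hint2.add intervalIntegrable_const).const_mul E)
    have b0 : 0 < 1 - a := by linarith
    have b1 : 1 / (1 - a) ≤ 3 := by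
      rw [div_le_iff₀ b0]; linarith
    have b2 : ‖GG Δ v (a + t * Complex.I)‖ ≤ E := by
      refine (norm_GG_le_EF t h0 h1 (by linarith) (by linarith)).trans ?_
      have b3 : Real.exp (-(Δ ^ 2 * t ^ 2 / (4 * Real.pi))) ≤ 1 :=
        Real.exp_le_one_iff.mpr (neg_nonpos.mpr (by positivity))
      have b4 : Real.exp (a * v) ≤ Real.exp (51 / 100 * v) :=
        Real.exp_le_exp.mpr (mul_le_mul_of_nonneg_right a2 hv)
      calc _ ≤ 2 * Real.exp (51 / 100 * v) * 1 := by gcongr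
        _ = E := by rw [hE, mul_one]
    rw [Real.norm_of_nonneg (by positivity), mul_comm E]
    gcongr
  rw [intervalIntegral.integral_const_mul, intervalIntegral.integral_add hint2
    intervalIntegrable_const, intervalIntegral.integral_const, smul_eq_mul] at hb
  have hm : ∫ t in c..d, ‖logDeriv riemannZeta₁ (a + t * Complex.I)‖ ≤
      ∫ t in (-(T + 1))..(T + 1), ‖logDeriv riemannZeta₁ (a + t * Complex.I)‖ :=
    intervalIntegral.integral_mono_interval (by linarith) hcd d2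
      (Eventually.of_forall fun t => norm_nonneg _) hint
  have l1 : 1 ≤ Real.log T := by
    rw [Real.le_log_iff_exp_le (by linarith)]
    have := Real.exp_one_lt_d9
    linarith
  have l2 : Real.log (T + 1) ≤ 2 * Real.log T := by
    have : Real.log (T ^ 2) = 2 * Real.log T := by rw [Real.log_pow]; norm_num
    rw [← this]
    exact Real.log_le_log (by linarith) (by nlinarith)
  have l3 : 0 ≤ Real.log (T + 1) := Real.log_nonneg (by linarith)
  have l4 : C * (T + 1) * Real.log (T + 1) ^ 2 ≤ C * (2 * T) * (2 * Real.log T) ^ 2 := by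
    gcongr
    linarith
  have l5 : (d - c) * 3 ≤ 12 * T * Real.log T ^ 2 := by
    have : 1 ≤ Real.log T ^ 2 := one_le_pow₀ l1
    nlinarith
  refine (le_abs_self _).trans (hb.trans ?_)
  calc _ ≤ E * (C * (2 * T) * (2 * Real.log T) ^ 2 + 12 * T * Real.log T ^ 2) := by
        refine mul_le_mul_of_nonneg_left ?_ hE0
        linarith
    _ = _ := by rw [hE]; ring

lemma hor_EF {Δ v T a u C L : ℝ} (h0 : 0 < Δ) (h1 : Δ ≤ 1) (hv : 0 ≤ v) (hT : 3 ≤ T)
    (ha : a ∈ Set.Icc (1 / 2 : ℝ) (51 / 100)) (hu : T ≤ |u|) (hC : 1 ≤ C) (hL0 : 0 < L)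
    (hL : L ≤ T + 5) (hL1 : 1 ≤ L)
    (hb : ∀ σ ∈ Set.Icc (1 / 2 : ℝ) 2,
      ‖logDeriv riemannZeta₁ (σ + u * Complex.I)‖ ≤ C * Real.log L ^ 2) :
    ∫ σ in a..2, (‖logDeriv riemannZeta₁ (σ + u * Complex.I)‖ + 1 / |u|) *
        ‖GG Δ v (σ + u * Complex.I)‖ ≤
      3 * (4 * C + 1) * (Real.exp (2 * v) * Real.log T ^ 2 *
        Real.exp (-(Δ ^ 2 * T ^ 2 / (8 * Real.pi)))) := by
  obtain ⟨a1, a2⟩ := ha
  have hp0 := Real.pi_pos
  have l1 : 1 ≤ Real.log T := by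
    rw [Real.le_log_iff_exp_le (by linarith)]
    have := Real.exp_one_lt_d9
    linarith
  have l2 : Real.log L ≤ 2 * Real.log T := by
    have : Real.log (T ^ 2) = 2 * Real.log T := by rw [Real.log_pow]; norm_num
    rw [← this]
    exact Real.log_le_log hL0 (by nlinarith)
  have l3 : 0 ≤ Real.log L := Real.log_nonneg hL1
  have l4 : 1 ≤ Real.log T ^ 2 := one_le_pow₀ l1
  set K : ℝ := (4 * C + 1) * Real.log T ^ 2 *
    (2 * Real.exp (2 * v) * Real.exp (-(Δ ^ 2 * T ^ 2 / (8 * Real.pi)))) with hK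
  have hK0 : 0 ≤ K := by positivity
  have hb2 : ‖∫ σ in a..2, (‖logDeriv riemannZeta₁ (σ + u * Complex.I)‖ + 1 / |u|) *
        ‖GG Δ v (σ + u * Complex.I)‖‖ ≤ K * |2 - a| := by
    refine intervalIntegral.norm_integral_le_of_norm_le_const fun σ hσ => ?_
    rw [Set.uIoc_of_le (by linarith)] at hσ
    obtain ⟨s1, s2⟩ := hσ
    have b1 : 1 / |u| ≤ Real.log T ^ 2 := by
      refine le_trans ?_ l4
      rw [div_le_iff₀ (by linarith)]; linarith
    have b2 : ‖logDeriv riemannZeta₁ (σ + u * Complex.I)‖ ≤ C * (2 * Real.log T) ^ 2 := by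
      refine (hb σ ⟨by linarith, s2⟩).trans ?_
      gcongr
    have b3 : ‖GG Δ v (σ + u * Complex.I)‖ ≤
        2 * Real.exp (2 * v) * Real.exp (-(Δ ^ 2 * T ^ 2 / (8 * Real.pi))) := by
      refine (norm_GG_le_EF u h0 h1 (by linarith) s2).trans ?_
      have b4 : T ^ 2 ≤ u ^ 2 := by
        rw [← sq_abs u]; gcongr
      have b5 : -(Δ ^ 2 * u ^ 2 / (4 * Real.pi)) ≤ -(Δ ^ 2 * T ^ 2 / (8 * Real.pi)) := by
        refine neg_le_neg ?_
        gcongr
        norm_num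
      gcongr
    rw [Real.norm_of_nonneg (by positivity), hK]
    refine mul_le_mul ?_ b3 (norm_nonneg _) (by positivity)
    nlinarith
  have e : |2 - a| ≤ 3 / 2 := by
    rw [abs_of_nonneg (by linarith)]; linarith
  refine (le_abs_self _).trans (hb2.trans ?_)
  calc _ ≤ K * (3 / 2) := by gcongr
    _ = _ := by rw [hK]; ring

theorem ef (hG : GaussStmt) (hH : HorStmt) (hV : VerStmt) (hR : ResStmt) : EFStmt := by
  obtain ⟨CH, hCH, hH⟩ := hH
  obtain ⟨CV, hCV, hV⟩ := hV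
  obtain ⟨C0, hC0, hL⟩ := LS_bd_EF
  refine ⟨16 * CV + 24 + 6 * (4 * CH + 1) + 24 * C0, by positivity, fun Δ v T h0 h1 hv hT => ?_⟩
  obtain ⟨d, hd, hd'⟩ := hH T
  obtain ⟨c, hc, hc'⟩ := hH (-T - 1)
  obtain ⟨a, ha, haz, haI⟩ := hV (T + 1) (by linarith)
  have hc2 : c ∈ Set.Icc (-T - 1) (-T) := ⟨hc.1, by linarith [hc.2]⟩
  obtain ⟨hFi, hP⟩ := hG Δ v h0
  obtain ⟨Z, hZ, hb⟩ := hR (GG Δ v) a c d (diff_GG_EF Δ v) (by linarith [ha.2])
    (by linarith [hc2.2]) (by linarith [hd.1])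
    (fun σ hσ => ⟨(hc' σ ⟨ha.1.trans hσ.1, hσ.2⟩).1, (hd' σ ⟨ha.1.trans hσ.1, hσ.2⟩).1⟩)
    (fun t ht => haz t ⟨by linarith [ht.1, hc2.1], by linarith [ht.2, hd.2]⟩)
  refine ⟨Z, fun ρ hρ => ?_, ?_⟩
  · obtain ⟨z1, z2, -, z4, z5⟩ := hZ ρ hρ
    exact ⟨z1, ha.1.trans z2, abs_le.mpr ⟨by linarith [hc2.1], by linarith [hd.2]⟩⟩
  have t1 := tail_EF (v := v) (T := T) (c := c) (d := d) _ h0 (by linarith) hc2.2 hd.1 hC0 hFi
    (fun t => by
      rw [norm_mul]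
      have := norm_GG_le_EF (v := v) (σ := 2) t h0 h1 (by norm_num) le_rfl
      rw [Complex.ofReal_ofNat] at this
      exact mul_le_mul (hL t) this (norm_nonneg _) hC0)
  have t2 := left_EF h0 h1 hv hT ha hc2 hd hCV haz haI
  have t3 := hor_EF (u := c) (L := |-T - 1| + 4) h0 h1 hv hT ha
    (by rw [abs_of_nonpos (by linarith [hc2.2])]; linarith [hc2.2]) hCH (by positivity)
    (by rw [abs_of_nonpos (by linarith)]; linarith) (by linarith [abs_nonneg (-T - 1)])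
    (fun σ hσ => (hc' σ hσ).2)
  have t4 := hor_EF (u := d) (L := |T| + 4) h0 h1 hv hT ha
    (by rw [abs_of_nonneg (by linarith [hd.1])]; exact hd.1) hCH (by positivity)
    (by rw [abs_of_nonneg (by linarith)]; linarith) (by linarith [abs_nonneg T])
    (fun σ hσ => (hd' σ hσ).2)
  have t5 : ‖∑ ρ ∈ Z, (ord ρ : ℂ) * GG Δ v ρ‖ ≤ 2 * ∑ ρ ∈ Z, ord ρ * Real.exp (ρ.re * v) := by
    rw [mul_sum]
    refine (norm_sum_le _ _).trans (sum_le_sum fun ρ hρ => ?_)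
    obtain ⟨z1, z2, z3, -, -⟩ := hZ ρ hρ
    have hp0 := Real.pi_pos
    have := norm_GG_le_EF (v := v) (σ := ρ.re) ρ.im h0 h1 (by linarith [ha.1]) z3
    rw [Complex.re_add_im] at this
    have b3 : Real.exp (-(Δ ^ 2 * ρ.im ^ 2 / (4 * Real.pi))) ≤ 1 :=
      Real.exp_le_one_iff.mpr (neg_nonpos.mpr (by positivity))
    have b4 : ‖GG Δ v ρ‖ ≤ 2 * Real.exp (ρ.re * v) := by
      refine this.trans ?_
      calc _ ≤ 2 * Real.exp (ρ.re * v) * 1 := by gcongr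
        _ = _ := mul_one _
    rw [norm_mul, Complex.norm_real, Real.norm_of_nonneg (ord_nonneg ρ)]
    have := mul_le_mul_of_nonneg_left b4 (ord_nonneg ρ)
    linarith
  set I1 := ∫ t : ℝ, LSeries (fun n => (ArithmeticFunction.vonMangoldt n : ℂ))
    (2 + t * Complex.I) * GG Δ v (2 + t * Complex.I) with hI1
  set I2 := ∫ t in c..d, LSeries (fun n => (ArithmeticFunction.vonMangoldt n : ℂ))
    (2 + t * Complex.I) * GG Δ v (2 + t * Complex.I) with hI2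
  set S := ∑ ρ ∈ Z, (ord ρ : ℂ) * GG Δ v ρ with hS
  have hp : 3 < Real.pi := Real.pi_gt_three
  have hpc : (Real.pi : ℂ) ≠ 0 := by exact_mod_cast Real.pi_ne_zero
  have e : ((PP Δ v - Real.exp (v + Δ ^ 2 / (4 * Real.pi)) : ℝ) : ℂ) =
      1 / (2 * Real.pi) * ((I1 - I2) + (I2 - 2 * Real.pi * (GG Δ v 1 - S))) - S := by
    rw [Complex.ofReal_sub, hP, ← GG_one_EF]
    field_simp
    ring
  have n1 : ‖(1 / (2 * Real.pi) : ℂ)‖ ≤ 1 := by
    rw [norm_div, norm_one, norm_mul, Complex.norm_real, Real.norm_of_nonneg Real.pi_pos.le,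
      Complex.norm_ofNat, div_le_one (by positivity)]
    linarith
  have n2 : |PP Δ v - Real.exp (v + Δ ^ 2 / (4 * Real.pi))| ≤
      ‖I1 - I2‖ + ‖I2 - 2 * Real.pi * (GG Δ v 1 - S)‖ + ‖S‖ := by
    rw [← Real.norm_eq_abs, ← Complex.norm_real, e]
    refine (norm_sub_le _ _).trans ?_
    gcongr
    rw [norm_mul]
    calc _ ≤ 1 * ‖(I1 - I2) + (I2 - 2 * Real.pi * (GG Δ v 1 - S))‖ := by gcongr
      _ ≤ _ := by rw [one_mul]; exact norm_add_le _ _
  set A := Real.exp (51 / 100 * v) * T * Real.log T ^ 2 with hA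
  set B1 := Real.exp (2 * v) * Real.log T ^ 2 * Real.exp (-(Δ ^ 2 * T ^ 2 / (8 * Real.pi)))
    with hB1
  set B2 := Real.exp (2 * v) * (1 / Δ) * Real.exp (-(Δ ^ 2 * T ^ 2 / (8 * Real.pi))) with hB2
  have e2 : Real.exp (2 * v) * (Real.log T ^ 2 + 1 / Δ) *
      Real.exp (-(Δ ^ 2 * T ^ 2 / (8 * Real.pi))) = B1 + B2 := by
    rw [hB1, hB2]; ring
  rw [e2]
  have pA : 0 ≤ A := by positivity
  have pB1 : 0 ≤ B1 := by positivity
  have pB2 : 0 ≤ B2 := by positivity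
  have q1 : 0 ≤ (6 * (4 * CH + 1) + 24 * C0) * A := by positivity
  have q2 : 0 ≤ (16 * CV + 24 + 24 * C0) * B1 := by positivity
  have q3 : 0 ≤ (16 * CV + 24 + 6 * (4 * CH + 1)) * B2 := by positivity
  linarith only [n2, hb, t1, t2, t3, t4, t5, q1, q2, q3]

end Pool.Agent.MP_c853c5_nt.Z

end
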