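import Pool.Agent.MP_c853c5_nt.Z.Basic
import Mathlib

section

set_option autoImplicit false

open Finset

namespace Pool.Agent.MP_c853c5_nt.Z

/-- the exponent after `m` steps -/
noncomputable def lam_Vm (K : ℝ) (m : ℕ) : ℝ :=
  2 * K * (K + m) - K * (K + 1) / 2 + K * (K + 1) / 2 * (1 - 1 / K) ^ m

lemma q_nonneg_Vm {K : ℝ} (hK : 1 ≤ K) : 0 ≤ 1 - 1 / K := by
  have : 1 / K ≤ 1 := (div_le_one (by linarith)).mpr hK
  linarith

lemma q_le_Vm {K : ℝ} (hK : 1 ≤ K) : 1 - 1 / K ≤ 1 := by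
  have : 0 ≤ 1 / K := by positivity
  linarith

lemma lam_ge_Vm {K : ℝ} (hK : 1 ≤ K) (m : ℕ) : 2 * K * m ≤ lam_Vm K m := by
  unfold lam_Vm
  have h1 : 0 ≤ K * (K + 1) / 2 * (1 - 1 / K) ^ m :=
    mul_nonneg (by positivity) (pow_nonneg (q_nonneg_Vm hK) m)
  nlinarith

lemma lam_le_Vm {K : ℝ} (hK : 1 ≤ K) (m : ℕ) : lam_Vm K m ≤ 2 * K * (K + m) := by
  unfold lam_Vm
  have h1 : (1 - 1 / K) ^ m ≤ 1 := pow_le_one₀ (q_nonneg_Vm hK) (q_le_Vm hK)
  have h2 : 0 ≤ K * (K + 1) / 2 := by positivity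
  nlinarith

lemma lam_succ_Vm {K : ℝ} (hK : 1 ≤ K) (m : ℕ) :
    K * lam_Vm K (m + 1) = 2 * (K * (K + m)) + K * (K - 1) / 2 + K * K + (K - 1) * lam_Vm K m := by
  unfold lam_Vm
  have : K ≠ 0 := by linarith
  rw [pow_succ]
  push_cast
  field_simp
  ring

lemma nat_le_exp_Vm (n : ℕ) : (n : ℝ) ≤ Real.exp n := by
  have := Real.add_one_le_exp (n : ℝ)
  linarith

lemma two_le_exp_Vm : (2 : ℝ) ≤ Real.exp 1 := by
  have := Real.add_one_le_exp (1 : ℝ)
  linarith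

lemma pow_le_exp_Vm {a b : ℝ} (ha : 0 ≤ a) (h : a ≤ Real.exp b) (n : ℕ) :
    a ^ n ≤ Real.exp (n * b) := by
  rw [Real.exp_nat_mul]
  exact pow_le_pow_left₀ ha h n

lemma fact_le_exp_Vm (n : ℕ) : (n.factorial : ℝ) ≤ Real.exp (n * n) := by
  have h1 : (n.factorial : ℝ) ≤ (n : ℝ) ^ n := by exact_mod_cast Nat.factorial_le_pow n
  exact h1.trans (pow_le_exp_Vm (Nat.cast_nonneg n) (nat_le_exp_Vm n) n)

lemma cast_half_Vm (k : ℕ) (hk : 1 ≤ k) :
    ((k * (k - 1) / 2 : ℕ) : ℝ) = (k : ℝ) * (k - 1) / 2 := by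
  have h : 2 ∣ k * (k - 1) := (Nat.even_mul_pred_self k).two_dvd
  rw [Nat.cast_div h (by norm_num), Nat.cast_mul, Nat.cast_sub hk]
  norm_num

/-- the constant in front of the second term -/
lemma pre_Vm (k s : ℕ) (hk : 1 ≤ k) (hs : ((k + s : ℕ) : ℝ) ≤ 11 * (k : ℝ) ^ 3) (l : ℝ)
    (hl : l ≤ 2 * s) :
    2 * ((k + s).factorial : ℝ) ^ 2 * ((k : ℝ) ^ 3) ^ 2 * (k.factorial : ℝ) *
      ((2 : ℝ) ^ (k ^ 3) * (2 * k)) ^ (2 * s + k * (k - 1) / 2) * (2 : ℝ) ^ l ≤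
        Real.exp (341 * (k : ℝ) ^ 6) := by
  have hK : (1 : ℝ) ≤ k := by exact_mod_cast hk
  have hs0 : (0 : ℝ) ≤ s := Nat.cast_nonneg s
  have hs' : (s : ℝ) ≤ 11 * (k : ℝ) ^ 3 := by push_cast at hs; linarith
  have p1 : (k : ℝ) ≤ (k : ℝ) ^ 3 := le_self_pow₀ hK (by norm_num)
  have p2 : (k : ℝ) ^ 2 ≤ (k : ℝ) ^ 3 := pow_le_pow_right₀ hK (by norm_num)
  have p3 : (k : ℝ) ^ 3 ≤ (k : ℝ) ^ 6 := pow_le_pow_right₀ hK (by norm_num)
  have p6 : (k : ℝ) ^ 3 * (k : ℝ) ^ 3 = (k : ℝ) ^ 6 := by ring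
  have a1 : (2 : ℝ) ≤ Real.exp ((k : ℝ) ^ 6) :=
    two_le_exp_Vm.trans (Real.exp_le_exp.mpr (by linarith))
  have a2 : ((k + s).factorial : ℝ) ^ 2 ≤ Real.exp (242 * (k : ℝ) ^ 6) := by
    refine (pow_le_exp_Vm (Nat.cast_nonneg _) (fact_le_exp_Vm (k + s)) 2).trans
      (Real.exp_le_exp.mpr ?_)
    have h0 : (0 : ℝ) ≤ ((k + s : ℕ) : ℝ) := Nat.cast_nonneg _
    have := mul_le_mul hs hs h0 (by positivity)
    push_cast at this ⊢
    nlinarith
  have a3 : ((k : ℝ) ^ 3) ^ 2 ≤ Real.exp (6 * (k : ℝ) ^ 6) := by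
    rw [← pow_mul]
    refine (pow_le_exp_Vm (Nat.cast_nonneg _) (nat_le_exp_Vm k) _).trans (Real.exp_le_exp.mpr ?_)
    push_cast
    linarith
  have a4 : (k.factorial : ℝ) ≤ Real.exp ((k : ℝ) ^ 6) :=
    (fact_le_exp_Vm k).trans (Real.exp_le_exp.mpr (by nlinarith))
  have a5 : ((2 : ℝ) ^ (k ^ 3) * (2 * k)) ^ (2 * s + k * (k - 1) / 2) ≤
      Real.exp (69 * (k : ℝ) ^ 6) := by
    have b1 : (2 : ℝ) ^ (k ^ 3) ≤ Real.exp ((k : ℝ) ^ 3) := by
      have := pow_le_exp_Vm (by norm_num) two_le_exp_Vm (k ^ 3)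
      simpa using this
    have b2 : (2 : ℝ) * k ≤ Real.exp (2 * (k : ℝ) ^ 3) := by
      have := Real.add_one_le_exp (2 * (k : ℝ) ^ 3)
      linarith
    have b3 : (2 : ℝ) ^ (k ^ 3) * (2 * k) ≤ Real.exp (3 * (k : ℝ) ^ 3) := by
      calc _ ≤ Real.exp ((k : ℝ) ^ 3) * Real.exp (2 * (k : ℝ) ^ 3) :=
            mul_le_mul b1 b2 (by positivity) (by positivity)
        _ = _ := by rw [← Real.exp_add]; congr 1; ring
    refine (pow_le_exp_Vm (by positivity) b3 _).trans (Real.exp_le_exp.mpr ?_)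
    rw [Nat.cast_add, cast_half_Vm k hk]
    push_cast
    have b4 : 2 * (s : ℝ) + (k : ℝ) * (k - 1) / 2 ≤ 23 * (k : ℝ) ^ 3 := by nlinarith
    have := mul_le_mul_of_nonneg_right b4 (show (0 : ℝ) ≤ 3 * (k : ℝ) ^ 3 by positivity)
    nlinarith
  have a6 : (2 : ℝ) ^ l ≤ Real.exp (22 * (k : ℝ) ^ 6) := by
    calc (2 : ℝ) ^ l ≤ (2 : ℝ) ^ ((2 * s : ℕ) : ℝ) :=
          Real.rpow_le_rpow_of_exponent_le (by norm_num) (by push_cast; exact hl)
      _ = (2 : ℝ) ^ (2 * s) := Real.rpow_natCast _ _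
      _ ≤ _ := (pow_le_exp_Vm (by norm_num) two_le_exp_Vm _).trans
          (Real.exp_le_exp.mpr (by push_cast; linarith))
  calc _ ≤ Real.exp ((k : ℝ) ^ 6) * Real.exp (242 * (k : ℝ) ^ 6) * Real.exp (6 * (k : ℝ) ^ 6) *
        Real.exp ((k : ℝ) ^ 6) * Real.exp (69 * (k : ℝ) ^ 6) * Real.exp (22 * (k : ℝ) ^ 6) := by
        gcongr
    _ = _ := by simp only [← Real.exp_add]; congr 1; ring

lemma step_Vm (hR : RecStmt) (k m : ℕ) (hk : 1 ≤ k)
    (hm : ((k * (k + (m + 1)) : ℕ) : ℝ) ≤ 11 * (k : ℝ) ^ 3) (C : ℝ) (hC : 1 ≤ C)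
    (ih : ∀ X : ℕ, 1 ≤ X → (JJ k (k * (k + m)) X : ℝ) ≤ C * (X : ℝ) ^ lam_Vm k m)
    (X : ℕ) (hX : 1 ≤ X) :
    (JJ k (k * (k + (m + 1))) X : ℝ) ≤
      Real.exp (342 * (k : ℝ) ^ 6) * C * (X : ℝ) ^ lam_Vm k (m + 1) := by
  have hK : (1 : ℝ) ≤ k := by exact_mod_cast hk
  have hX1 : (1 : ℝ) ≤ X := by exact_mod_cast hX
  obtain ⟨s, hs⟩ : ∃ s, s = k * (k + m) := ⟨_, rfl⟩
  have hks : k * (k + (m + 1)) = k + s := by rw [hs]; ring
  have hsR : (s : ℝ) = k * (k + m) := by rw [hs]; push_cast; ring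
  rw [hks] at hm ⊢
  rw [← hs] at ih
  obtain ⟨r, hr⟩ : ∃ r : ℝ, r = (X : ℝ) ^ (1 / (k : ℝ)) := ⟨_, rfl⟩
  have hr1 : 1 ≤ r := by rw [hr]; exact Real.one_le_rpow hX1 (by positivity)
  have hr0 : 0 < r := by linarith
  have hrk : r ^ k = X := by
    rw [hr, one_div]
    exact Real.rpow_inv_natCast_pow (by linarith) (by omega)
  have hP1 : r ≤ ((max k ⌈r⌉₊ : ℕ) : ℝ) :=
    (Nat.le_ceil r).trans (by exact_mod_cast le_max_right _ _)
  have hP2 : ((max k ⌈r⌉₊ : ℕ) : ℝ) ≤ 2 * k * r := by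
    rw [Nat.cast_max]
    refine max_le (by nlinarith) ?_
    have := (Nat.ceil_lt_add_one hr0.le).le
    nlinarith
  have hP3 : X ≤ (max k ⌈r⌉₊) ^ k := by
    have : (X : ℝ) ≤ ((max k ⌈r⌉₊ : ℕ) : ℝ) ^ k := by
      rw [← hrk]
      exact pow_le_pow_left₀ hr0.le hP1 k
    exact_mod_cast this
  obtain ⟨p, hp1, hp2, hp3⟩ := hR k s X (max k ⌈r⌉₊) hk (le_max_left _ _) hP3
  have hp1' : r ≤ p := hP1.trans (by exact_mod_cast hp1.le)
  have hp2' : (p : ℝ) ≤ (2 : ℝ) ^ (k ^ 3) * (2 * k) * r := by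
    have h : (p : ℝ) ≤ (2 : ℝ) ^ (k ^ 3) * ((max k ⌈r⌉₊ : ℕ) : ℝ) := by exact_mod_cast hp2
    refine h.trans ?_
    rw [mul_assoc]
    gcongr
  have hrk1 : r ^ ((k : ℝ) - 1) = X / r := by
    rw [Real.rpow_sub_one hr0.ne', Real.rpow_natCast, hrk]
  have hq1 : 1 ≤ r ^ ((k : ℝ) - 1) := Real.one_le_rpow hr1 (by linarith)
  have hX' : ((X / p + 1 : ℕ) : ℝ) ≤ 2 * r ^ ((k : ℝ) - 1) := by
    have h1 : ((X / p : ℕ) : ℝ) ≤ (X : ℝ) / p := Nat.cast_div_le
    have h2 : (X : ℝ) / p ≤ X / r := by gcongr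
    push_cast
    linarith
  have hl0 : 0 ≤ lam_Vm k m := le_trans (by positivity) (lam_ge_Vm hK m)
  have hJ : (JJ k s (X / p + 1) : ℝ) ≤ C * (2 ^ lam_Vm k m * r ^ (((k : ℝ) - 1) * lam_Vm k m)) := by
    refine (ih _ (Nat.le_add_left 1 _)).trans ?_
    rw [Real.rpow_mul hr0.le, ← Real.mul_rpow (by norm_num) (by positivity)]
    gcongr
  have hY : (X : ℝ) ^ lam_Vm k (m + 1) =
      r ^ (2 * s + k * (k - 1) / 2) * (X : ℝ) ^ k * r ^ (((k : ℝ) - 1) * lam_Vm k m) := by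
    rw [← hrk, ← Real.rpow_natCast r k, ← Real.rpow_mul hr0.le, lam_succ_Vm hK,
      ← Real.rpow_natCast (r ^ (k : ℝ)) k, ← Real.rpow_mul hr0.le, ← Real.rpow_natCast r,
      ← Real.rpow_add hr0, ← Real.rpow_add hr0, Nat.cast_add, cast_half_Vm k hk]
    congr 1
    push_cast
    rw [hsR]
  have hY0 : 0 ≤ (X : ℝ) ^ lam_Vm k (m + 1) := by positivity
  have t1 : 2 * ((k : ℝ) ^ (k + s) * (X : ℝ) ^ k) ^ 2 ≤
      Real.exp (341 * (k : ℝ) ^ 6) * C * (X : ℝ) ^ lam_Vm k (m + 1) := by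
    have b1 : ((X : ℝ) ^ k) ^ 2 ≤ (X : ℝ) ^ lam_Vm k (m + 1) := by
      rw [← pow_mul, ← Real.rpow_natCast]
      refine Real.rpow_le_rpow_of_exponent_le hX1 (le_trans ?_ (lam_ge_Vm hK (m + 1)))
      push_cast
      have : (0 : ℝ) ≤ (k : ℝ) * m := by positivity
      nlinarith
    have p4 : (k : ℝ) ^ 4 ≤ (k : ℝ) ^ 6 := pow_le_pow_right₀ hK (by norm_num)
    have p0 : 1 ≤ (k : ℝ) ^ 6 := one_le_pow₀ hK
    have b2 : ((k : ℝ) ^ (k + s)) ^ 2 ≤ Real.exp (22 * (k : ℝ) ^ 6) := by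
      refine (pow_le_exp_Vm (by positivity)
        (pow_le_exp_Vm (Nat.cast_nonneg _) (nat_le_exp_Vm k) (k + s)) 2).trans
        (Real.exp_le_exp.mpr ?_)
      have := mul_le_mul_of_nonneg_right hm (show (0 : ℝ) ≤ k by positivity)
      push_cast at this ⊢
      nlinarith
    have b3 : 2 * ((k : ℝ) ^ (k + s)) ^ 2 ≤ Real.exp (341 * (k : ℝ) ^ 6) := by
      calc _ ≤ Real.exp 1 * Real.exp (22 * (k : ℝ) ^ 6) :=
            mul_le_mul two_le_exp_Vm b2 (by positivity) (by positivity)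
        _ ≤ _ := by rw [← Real.exp_add]; exact Real.exp_le_exp.mpr (by linarith)
    rw [mul_pow, ← mul_assoc]
    refine mul_le_mul (b3.trans ?_) b1 (by positivity) (by positivity)
    exact le_mul_of_one_le_right (by positivity) hC
  have t2 : 2 * ((k + s).factorial : ℝ) ^ 2 * ((k : ℝ) ^ 3) ^ 2 *
      ((p : ℝ) ^ (2 * s) * ((X : ℝ) ^ k * ((k.factorial : ℝ) * (p : ℝ) ^ (k * (k - 1) / 2)) *
        (JJ k s (X / p + 1) : ℝ))) ≤
      Real.exp (341 * (k : ℝ) ^ 6) * C * (X : ℝ) ^ lam_Vm k (m + 1) := by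
    have b1 := pre_Vm k s hk hm (lam_Vm k m) (by rw [hsR]; linarith [lam_le_Vm hK m])
    have b2 : (p : ℝ) ^ (2 * s + k * (k - 1) / 2) ≤
        ((2 : ℝ) ^ (k ^ 3) * (2 * k)) ^ (2 * s + k * (k - 1) / 2) *
          r ^ (2 * s + k * (k - 1) / 2) := by
      rw [← mul_pow]
      exact pow_le_pow_left₀ (Nat.cast_nonneg _) hp2' _
    calc _ = 2 * ((k + s).factorial : ℝ) ^ 2 * ((k : ℝ) ^ 3) ^ 2 * (k.factorial : ℝ) *
          (p : ℝ) ^ (2 * s + k * (k - 1) / 2) * (X : ℝ) ^ k * (JJ k s (X / p + 1) : ℝ) := by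
          rw [pow_add (p : ℝ)]; ring
      _ ≤ 2 * ((k + s).factorial : ℝ) ^ 2 * ((k : ℝ) ^ 3) ^ 2 * (k.factorial : ℝ) *
          (((2 : ℝ) ^ (k ^ 3) * (2 * k)) ^ (2 * s + k * (k - 1) / 2) *
            r ^ (2 * s + k * (k - 1) / 2)) * (X : ℝ) ^ k *
          (C * (2 ^ lam_Vm k m * r ^ (((k : ℝ) - 1) * lam_Vm k m))) := by gcongr
      _ = 2 * ((k + s).factorial : ℝ) ^ 2 * ((k : ℝ) ^ 3) ^ 2 * (k.factorial : ℝ) *
          ((2 : ℝ) ^ (k ^ 3) * (2 * k)) ^ (2 * s + k * (k - 1) / 2) * (2 : ℝ) ^ lam_Vm k m * C *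
          (X : ℝ) ^ lam_Vm k (m + 1) := by rw [hY]; ring
      _ ≤ _ := by gcongr
  have h3 : (JJ k (k + s) X : ℝ) ≤ 2 * ((k : ℝ) ^ (k + s) * (X : ℝ) ^ k) ^ 2 +
      2 * ((k + s).factorial : ℝ) ^ 2 * ((k : ℝ) ^ 3) ^ 2 *
      ((p : ℝ) ^ (2 * s) * ((X : ℝ) ^ k * ((k.factorial : ℝ) * (p : ℝ) ^ (k * (k - 1) / 2)) *
        (JJ k s (X / p + 1) : ℝ))) := by exact_mod_cast hp3
  have h4 : 2 * Real.exp (341 * (k : ℝ) ^ 6) ≤ Real.exp (342 * (k : ℝ) ^ 6) := by
    have p0 : 1 ≤ (k : ℝ) ^ 6 := one_le_pow₀ hK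
    calc _ ≤ Real.exp 1 * Real.exp (341 * (k : ℝ) ^ 6) := by gcongr; exact two_le_exp_Vm
      _ ≤ _ := by rw [← Real.exp_add]; exact Real.exp_le_exp.mpr (by linarith)
  calc _ ≤ 2 * Real.exp (341 * (k : ℝ) ^ 6) * C * (X : ℝ) ^ lam_Vm k (m + 1) := by linarith
    _ ≤ _ := by gcongr

lemma ind_Vm (hR : RecStmt) (k : ℕ) (hk : 1 ≤ k) (m : ℕ) (hm : k + m ≤ 11 * k ^ 2) :
    ∀ X : ℕ, 1 ≤ X → (JJ k (k * (k + m)) X : ℝ) ≤
      Real.exp (342 * (k : ℝ) ^ 6 * m) * (X : ℝ) ^ lam_Vm k m := by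
  induction m with
  | zero =>
    intro X _
    have h1 : (JJ k (k * (k + 0)) X : ℝ) ≤ (X : ℝ) ^ (2 * (k * (k + 0))) := by
      exact_mod_cast JJ_le k _ X
    refine h1.trans (le_of_eq ?_)
    rw [← Real.rpow_natCast]
    simp only [Nat.cast_zero, mul_zero, Real.exp_zero, one_mul]
    congr 1
    unfold lam_Vm
    push_cast
    ring
  | succ m ih =>
    intro X hX
    have h1 : ((k * (k + (m + 1)) : ℕ) : ℝ) ≤ 11 * (k : ℝ) ^ 3 := by
      have : k * (k + (m + 1)) ≤ 11 * k ^ 3 :=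
        (Nat.mul_le_mul_left k hm).trans (le_of_eq (by ring))
      exact_mod_cast this
    have := step_Vm hR k m hk h1 _ (Real.one_le_exp (by positivity)) (ih (by omega)) X hX
    rw [← Real.exp_add] at this
    refine this.trans (le_of_eq ?_)
    congr 2
    push_cast
    ring

theorem vm (hR : RecStmt) : VmStmt := by
  refine ⟨11 * 342, by norm_num, fun k X hk hX => ?_⟩
  have hK : (1 : ℝ) ≤ k := by exact_mod_cast hk
  have hX1 : (1 : ℝ) ≤ X := by exact_mod_cast hX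
  have hle : k ≤ 11 * k ^ 2 := by nlinarith
  obtain ⟨m, hm⟩ : ∃ m, k + m = 11 * k ^ 2 := ⟨11 * k ^ 2 - k, by omega⟩
  have hmR : (k : ℝ) + m = 11 * (k : ℝ) ^ 2 := by exact_mod_cast hm
  have h := ind_Vm hR k hk m hm.le X hX
  rw [hm, show k * (11 * k ^ 2) = 11 * k ^ 3 by ring] at h
  refine h.trans (mul_le_mul (Real.exp_le_exp.mpr ?_)
    (Real.rpow_le_rpow_of_exponent_le hX1 ?_) (by positivity) (by positivity))
  · have h1 : (m : ℝ) ≤ 11 * (k : ℝ) ^ 2 := by linarith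
    calc 342 * (k : ℝ) ^ 6 * m ≤ 342 * (k : ℝ) ^ 6 * (11 * (k : ℝ) ^ 2) := by gcongr
      _ = _ := by ring
  · unfold lam_Vm
    have h1 : 1 - 1 / (k : ℝ) ≤ Real.exp (-(1 / k)) := by
      have := Real.add_one_le_exp (-(1 / (k : ℝ)))
      linarith
    have h2 := pow_le_exp_Vm (q_nonneg_Vm hK) h1 m
    have h3 : (m : ℝ) * -(1 / k) = 1 - 11 * k := by
      have : (m : ℝ) = 11 * (k : ℝ) ^ 2 - k := by linarith
      rw [this]
      field_simp
      ring
    rw [h3] at h2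
    have h4 : (k : ℝ) * (k + 1) / 2 ≤ Real.exp (2 * k) := by
      have := pow_le_exp_Vm (Nat.cast_nonneg k) (nat_le_exp_Vm k) 2
      push_cast at this
      nlinarith
    have h5 : (k : ℝ) * (k + 1) / 2 * (1 - 1 / k) ^ m ≤ Real.exp (-8) := by
      calc _ ≤ Real.exp (2 * k) * Real.exp (1 - 11 * k) :=
            mul_le_mul h4 h2 (pow_nonneg (q_nonneg_Vm hK) m) (by positivity)
        _ ≤ _ := by rw [← Real.exp_add]; exact Real.exp_le_exp.mpr (by linarith)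
    have h6 : Real.exp (-8) ≤ 1 / 100 := by
      have := pow_le_pow_left₀ (by norm_num) two_le_exp_Vm 8
      rw [← Real.exp_nat_mul] at this
      rw [Real.exp_neg, one_div]
      refine inv_anti₀ (by norm_num) (le_trans ?_ (this.trans (le_of_eq (by norm_num))))
      norm_num
    rw [hmR]
    nlinarith

end Pool.Agent.MP_c853c5_nt.Z

end

section

set_option autoImplicit false

open Finset

namespace Pool.Agent.MP_c853c5_nt.Z

open Pool.Agent.MP_2a1f0e_nt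

lemma shift_Tay {N M : ℕ} (hNM : N ≤ M) (h : ℕ) (t : ℝ) :
    ‖ES N M t - ∑ n ∈ Ioc N M, ((n + h : ℕ) : ℂ) ^ ((t : ℂ) * Complex.I)‖ ≤ 2 * h := by
  have e1 : ∑ n ∈ Ioc N M, ((n + h : ℕ) : ℂ) ^ ((t : ℂ) * Complex.I) = ES (N + h) (M + h) t := by
    rw [ES, ← map_add_right_Ioc, sum_map]
    rfl
  have e2 : ES N M t + ES M (M + h) t = ES N (M + h) t :=
    sum_Ioc_consecutive _ hNM (Nat.le_add_right _ _)
  have e3 : ES N (N + h) t + ES (N + h) (M + h) t = ES N (M + h) t :=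
    sum_Ioc_consecutive _ (Nat.le_add_right _ _) (by omega)
  have a1 := norm_ES_le N (N + h) t
  have a2 := norm_ES_le M (M + h) t
  rw [Nat.add_sub_cancel_left] at a1 a2
  rw [e1, show ES N M t - ES (N + h) (M + h) t = ES N (N + h) t - ES M (M + h) t by
    linear_combination e2 - e3]
  linarith [norm_sub_le (ES N (N + h) t) (ES M (M + h) t)]

lemma lip_Tay (u v : ℝ) : ‖ex u - ex v‖ ≤ |2 * Real.pi * (u - v)| := by
  rw [show ex u - ex v = ex v * (ex (u - v) - 1) by rw [mul_sub, ← ex_add, add_sub_cancel, mul_one],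
    norm_mul, norm_ex, one_mul]
  exact Real.norm_exp_I_mul_ofReal_sub_one_le

lemma pt_Tay {n h : ℕ} (K : ℕ) (t : ℝ) {δ : ℝ} (hn : 0 < n) (h1 : (h : ℝ) / n ≤ δ)
    (h2 : δ ≤ 1 / 2) :
    ‖((n + h : ℕ) : ℂ) ^ ((t : ℂ) * Complex.I) - (n : ℂ) ^ ((t : ℂ) * Complex.I) *
      ex (∑ j : Fin K, al K t n j * (h : ℝ) ^ (j.val + 1))‖ ≤ 2 * |t| * δ ^ (K + 1) := by
  have n0 : (0 : ℝ) < n := by exact_mod_cast hn
  have z0 : (0 : ℝ) ≤ (h : ℝ) / n := by positivity
  have pi0 := Real.pi_pos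
  have c1 := cpow_eq_ex (x := ((n + h : ℕ) : ℝ)) (by positivity) t
  have c2 := cpow_eq_ex n0 t
  rw [Complex.ofReal_natCast] at c1 c2
  rw [c1, c2, ← ex_add]
  refine (lip_Tay _ _).trans ?_
  have k := Real.abs_log_sub_add_sum_range_le (x := -((h : ℝ) / n))
    (by rw [abs_neg, abs_of_nonneg z0]; linarith) K
  rw [abs_neg, abs_of_nonneg z0, sub_neg_eq_add] at k
  have e : Real.log ((n + h : ℕ) : ℝ) = Real.log n + Real.log (1 + h / n) := by
    rw [← Real.log_mul n0.ne' (by positivity)]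
    congr 1
    push_cast
    field_simp
  have e2 : 2 * Real.pi * ∑ j : Fin K, al K t n j * (h : ℝ) ^ (j.val + 1) =
      -(t * ∑ i ∈ range K, (-((h : ℝ) / n)) ^ (i + 1) / (i + 1)) := by
    rw [sum_range, mul_sum, mul_sum, ← sum_neg_distrib]
    refine sum_congr rfl fun j _ => ?_
    rw [al, neg_pow ((h : ℝ) / n), div_pow, pow_succ (-1 : ℝ)]
    field_simp
  have e3 : 2 * Real.pi * (t * Real.log ((n + h : ℕ) : ℝ) / (2 * Real.pi) -
      (t * Real.log n / (2 * Real.pi) + ∑ j : Fin K, al K t n j * (h : ℝ) ^ (j.val + 1))) =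
      t * (∑ i ∈ range K, (-((h : ℝ) / n)) ^ (i + 1) / (i + 1) + Real.log (1 + h / n)) := by
    rw [mul_sub, mul_add, e2, e]
    field_simp
    ring
  rw [e3, abs_mul, mul_comm 2, mul_assoc]
  refine mul_le_mul_of_nonneg_left (k.trans ?_) (abs_nonneg _)
  have p1 : ((h : ℝ) / n) ^ (K + 1) ≤ δ ^ (K + 1) := pow_le_pow_left₀ z0 h1 _
  have p2 : 0 ≤ δ ^ (K + 1) := pow_nonneg (z0.trans h1) _
  rw [div_le_iff₀ (by linarith)]
  nlinarith

theorem tay : TayStmt := by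
  intro N M Y K t hNM hM hY hYN
  have Y0 : (0 : ℝ) < Y := by exact_mod_cast hY
  have N0 : 0 < N := by nlinarith
  have N0' : (0 : ℝ) < N := by exact_mod_cast N0
  have hδ : (Y : ℝ) ^ 2 / N ≤ 1 / 2 := by
    have : (2 * (Y : ℝ) ^ 2) ≤ N := by exact_mod_cast hYN
    rw [div_le_iff₀ N0']
    linarith
  set B : ℝ := 2 * (Y : ℝ) ^ 2 + N * (2 * |t| * ((Y : ℝ) ^ 2 / N) ^ (K + 1)) with hB
  have key : ∀ a ∈ Icc (1 : ℤ) Y, ∀ b ∈ Icc (1 : ℤ) Y,
      ‖ES N M t - ∑ n ∈ Ioc N M, (n : ℂ) ^ ((t : ℂ) * Complex.I) * ex (∑ j : Fin K,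
        al K t n j * ((a : ℝ) ^ (j.val + 1) * (b : ℝ) ^ (j.val + 1)))‖ ≤ B := fun a ha b hb => by
    rw [mem_Icc] at ha hb
    obtain ⟨h, hh⟩ := Int.eq_ofNat_of_zero_le (a := a * b) (mul_nonneg (by omega) (by omega))
    have e : (a : ℝ) * b = h := by exact_mod_cast hh
    have hh2 : (h : ℝ) ≤ (Y : ℝ) ^ 2 := by
      have : (h : ℤ) ≤ (Y : ℤ) ^ 2 := by rw [← hh]; nlinarith
      exact_mod_cast this
    simp only [← mul_pow, e]
    refine (norm_sub_le_norm_sub_add_norm_sub _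
      (∑ n ∈ Ioc N M, ((n + h : ℕ) : ℂ) ^ ((t : ℂ) * Complex.I)) _).trans
      (add_le_add ((shift_Tay hNM h t).trans (by linarith)) ?_)
    rw [← sum_sub_distrib]
    refine (norm_sum_le _ _).trans ((sum_le_card_nsmul _ _
      (2 * |t| * ((Y : ℝ) ^ 2 / N) ^ (K + 1)) fun n hn => ?_).trans ?_)
    · have h1 := (mem_Ioc.1 hn).1
      have h2 : (N : ℝ) ≤ n := by exact_mod_cast h1.le
      exact pt_Tay K t (by omega) (by gcongr) hδ
    · rw [Nat.card_Ioc, nsmul_eq_mul]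
      have : ((M - N : ℕ) : ℝ) ≤ N := by exact_mod_cast (by omega : M - N ≤ N)
      gcongr
  have hc : (Icc (1 : ℤ) Y).card = Y := by simp
  have e : ((Y : ℂ) * Y) * ES N M t -
      ∑ n ∈ Ioc N M, (n : ℂ) ^ ((t : ℂ) * Complex.I) * UU K Y (al K t n) =
      ∑ a ∈ Icc (1 : ℤ) Y, ∑ b ∈ Icc (1 : ℤ) Y, (ES N M t -
        ∑ n ∈ Ioc N M, (n : ℂ) ^ ((t : ℂ) * Complex.I) * ex (∑ j : Fin K,
          al K t n j * ((a : ℝ) ^ (j.val + 1) * (b : ℝ) ^ (j.val + 1)))) := by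
    simp only [sum_sub_distrib, sum_const, hc, nsmul_eq_mul, UU, mul_sum, mul_assoc]
    congr 1
    rw [sum_comm]
    exact sum_congr rfl fun a _ => sum_comm
  have k1 : ‖((Y : ℂ) * Y) * ES N M t -
      ∑ n ∈ Ioc N M, (n : ℂ) ^ ((t : ℂ) * Complex.I) * UU K Y (al K t n)‖ ≤ Y * (Y * B) := by
    rw [e]
    refine (norm_sum_le _ _).trans ((sum_le_card_nsmul _ _ (Y * B) fun a ha => ?_).trans_eq ?_)
    · refine (norm_sum_le _ _).trans ((sum_le_card_nsmul _ _ B (key a ha)).trans_eq ?_)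
      rw [hc, nsmul_eq_mul]
    · rw [hc, nsmul_eq_mul]
  have k2 : ‖∑ n ∈ Ioc N M, (n : ℂ) ^ ((t : ℂ) * Complex.I) * UU K Y (al K t n)‖ ≤
      ∑ n ∈ Ioc N M, ‖UU K Y (al K t n)‖ :=
    (norm_sum_le _ _).trans_eq (sum_congr rfl fun n hn => by
      rw [norm_mul, norm_cpow_I (by have := (mem_Ioc.1 hn).1; omega), one_mul])
  have k3 := norm_le_norm_sub_add (((Y : ℂ) * Y) * ES N M t)
    (∑ n ∈ Ioc N M, (n : ℂ) ^ ((t : ℂ) * Complex.I) * UU K Y (al K t n))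
  rw [norm_mul, norm_mul, Complex.norm_natCast] at k3
  rw [add_assoc, ← hB, ← sub_le_iff_le_add, le_div_iff₀ (by positivity)]
  nlinarith

end Pool.Agent.MP_c853c5_nt.Z

end

section

/-!
Local zero counting and the pole expansion of the logarithmic derivative.
-/

set_option autoImplicit false

open Complex Set Filter Topology Metric

namespace Pool.Agent.MP_c853c5_nt.Z

/-- Factor out finitely many zeros of an analytic function. -/
theorem exists_factor (K : Set ℂ) (f : ℂ → ℂ) (hf : AnalyticOnNhd ℂ f K) (m : ℂ → ℕ)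
    (Z : Finset ℂ) (hZ : ∀ ρ ∈ Z, ρ ∈ K ∧ analyticOrderAt f ρ = m ρ) :
    ∃ g : ℂ → ℂ, AnalyticOnNhd ℂ g K ∧ (∀ z, f z = (∏ ρ ∈ Z, (z - ρ) ^ m ρ) * g z) ∧
      ∀ ρ ∈ Z, g ρ ≠ 0 := by
  classical
  induction Z using Finset.induction_on with
  | empty => exact ⟨f, hf, by simp, by simp⟩
  | insert a Z ha ih =>
    obtain ⟨g, hg, hfg, hg0⟩ := ih fun ρ hρ => hZ ρ (Finset.mem_insert_of_mem hρ)
    obtain ⟨haK, hma⟩ := hZ a (Finset.mem_insert_self _ _)
    have hP : AnalyticAt ℂ (fun z => ∏ ρ ∈ Z, (z - ρ) ^ m ρ) a :=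
      Finset.analyticAt_fun_prod _ fun ρ _ => by fun_prop
    have hPa : (∏ ρ ∈ Z, (a - ρ) ^ m ρ) ≠ 0 := by
      refine Finset.prod_ne_zero_iff.2 fun ρ hρ => pow_ne_zero _ (sub_ne_zero.2 ?_)
      rintro rfl
      exact ha hρ
    have hord : analyticOrderAt g a = m a := by
      have e : f = (fun z => ∏ ρ ∈ Z, (z - ρ) ^ m ρ) * g := by
        ext z; simp [hfg z]
      rw [e, analyticOrderAt_mul hP (hg a haK), hP.analyticOrderAt_eq_zero.2 hPa, zero_add] at hma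
      exact hma
    obtain ⟨h, hh, hha, hgh⟩ := (hg a haK).analyticOrderAt_eq_natCast.1 hord
    set g' : ℂ → ℂ := fun z => if z = a then h a else g z / (z - a) ^ m a with hg'
    have hev : g' =ᶠ[𝓝 a] h := by
      filter_upwards [hgh] with z hz
      by_cases hza : z = a
      · simp [hg', hza]
      · simp only [hg', if_neg hza, hz, smul_eq_mul]
        have : (z - a) ^ m a ≠ 0 := pow_ne_zero _ (sub_ne_zero.2 hza)
        field_simp
    have hgg' : ∀ z, g z = (z - a) ^ m a * g' z := by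
      intro z
      by_cases hza : z = a
      · subst hza
        have := hgh.self_of_nhds
        simpa [hg'] using this
      · simp only [hg', if_neg hza]
        have : (z - a) ^ m a ≠ 0 := pow_ne_zero _ (sub_ne_zero.2 hza)
        field_simp
    refine ⟨g', fun z hz => ?_, fun z => ?_, fun ρ hρ => ?_⟩
    · by_cases hza : z = a
      · subst hza
        exact hh.congr hev.symm
      · have h1 : AnalyticAt ℂ (fun w => g w / (w - a) ^ m a) z :=
          (hg z hz).div (by fun_prop) (pow_ne_zero _ (sub_ne_zero.2 hza))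
        refine h1.congr ?_
        filter_upwards [isOpen_ne.mem_nhds hza] with w hw
        simp [hg', hw]
    · rw [Finset.prod_insert ha, hfg z, hgg' z]; ring
    · rcases Finset.mem_insert.1 hρ with rfl | hρ
      · simpa [hg'] using hha
      · intro h0
        exact hg0 ρ hρ (by rw [hgg' ρ, h0, mul_zero])

/-- Borel-Caratheodory bound for the logarithmic derivative of a zero-free function. -/
theorem logDeriv_bound_of_ne_zero (g : ℂ → ℂ) (c : ℂ) (M : ℝ) (hM : 0 < M)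
    (hg : DifferentiableOn ℂ g (ball c (9 / 5)))
    (h0 : ∀ z ∈ ball c (9 / 5), g z ≠ 0)
    (hb : ∀ z ∈ ball c (9 / 5), ‖g z‖ ≤ Real.exp M * ‖g c‖) :
    ∀ z ∈ closedBall c (8 / 5), ‖logDeriv g z‖ ≤ 340 * M := by
  have hd : DifferentiableOn ℂ (logDeriv g) (ball c (9 / 5)) := by
    have : logDeriv g = fun z => deriv g z / g z := by ext z; exact logDeriv_apply g z
    rw [this]
    exact (hg.deriv isOpen_ball).div hg h0
  obtain ⟨h, hc, hh⟩ := hd.isExactOn_ball.with_val_at c 0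
  have hcb : c ∈ ball c (9 / 5 : ℝ) := mem_ball_self (by norm_num)
  have hconst : ∀ z ∈ ball c (9 / 5 : ℝ), g z * Complex.exp (-h z) = g c := by
    intro z hz
    have hD : ∀ w ∈ ball c (9 / 5 : ℝ),
        HasDerivAt (fun w => g w * Complex.exp (-h w)) 0 w := by
      intro w hw
      have h1 : HasDerivAt g (deriv g w) w :=
        (hg.differentiableAt (isOpen_ball.mem_nhds hw)).hasDerivAt
      have h2 := (hh w hw).neg.cexp
      have h3 := h1.mul h2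
      have e : deriv g w * cexp ((-h) w) + g w * (cexp ((-h) w) * -logDeriv g w) = 0 := by
        rw [logDeriv_apply]
        have := h0 w hw
        field_simp
        ring
      rw [e] at h3
      exact h3
    have := isOpen_ball.is_const_of_deriv_eq_zero (𝕜 := ℂ) (convex_ball c (9 / 5 : ℝ)).isPreconnected
      (fun w hw => (hD w hw).differentiableAt.differentiableWithinAt)
      (fun w hw => (hD w hw).deriv) hz hcb
    simpa [hc] using this
  have hre : ∀ z ∈ ball c (9 / 5 : ℝ), (h z).re ≤ M := by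
    intro z hz
    have e := hconst z hz
    have e2 : g z = g c * Complex.exp (h z) := by
      rw [← e, mul_assoc, ← Complex.exp_add]; simp
    have h1 := hb z hz
    rw [e2, norm_mul, Complex.norm_exp, mul_comm] at h1
    have hpos : 0 < ‖g c‖ := norm_pos_iff.2 (h0 c hcb)
    exact Real.exp_le_exp.1 (le_of_mul_le_mul_right h1 hpos)
  have hhd : DifferentiableOn ℂ h (ball c (9 / 5)) :=
    fun w hw => (hh w hw).differentiableAt.differentiableWithinAt
  have hBC : ∀ z ∈ closedBall c (17 / 10 : ℝ), ‖h z‖ ≤ 34 * M := by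
    intro z hz
    have hzc : ‖z - c‖ ≤ 17 / 10 := by rwa [mem_closedBall, dist_eq_norm] at hz
    have hmaps : ∀ w ∈ ball (0 : ℂ) (9 / 5 : ℝ), c + w ∈ ball c (9 / 5 : ℝ) := by
      intro w hw
      simpa [mem_ball, dist_eq_norm] using hw
    have := Complex.borelCaratheodory_zero (f := fun w => h (c + w)) (R := 9 / 5) (z := z - c) hM
      (hhd.comp (by fun_prop) hmaps) (fun w hw => hre _ (hmaps w hw)) (by norm_num)
      (by rw [mem_ball_zero_iff]; linarith) (by simpa using hc)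
    simp only [add_sub_cancel] at this
    refine this.trans ?_
    rw [div_le_iff₀ (by linarith)]
    nlinarith [norm_nonneg (z - c)]
  intro z hz
  have hzc : dist z c ≤ 8 / 5 := hz
  have hsub : closedBall z (1 / 10 : ℝ) ⊆ closedBall c (17 / 10 : ℝ) :=
    closedBall_subset_closedBall' (by linarith)
  have hsub2 : closedBall z (1 / 10 : ℝ) ⊆ ball c (9 / 5 : ℝ) :=
    hsub.trans (closedBall_subset_ball (by norm_num))
  have hdc : DiffContOnCl ℂ h (ball z (1 / 10)) := by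
    refine DifferentiableOn.diffContOnCl ?_
    rw [closure_ball z (by norm_num)]
    exact hhd.mono hsub2
  have hC := Complex.norm_deriv_le_of_forall_mem_sphere_norm_le (by norm_num) hdc
    (fun w hw => hBC w (hsub (sphere_subset_closedBall hw)))
  have hzb : z ∈ ball c (9 / 5 : ℝ) := hsub2 (mem_closedBall_self (by norm_num))
  rw [(hh z hzb).deriv] at hC
  linarith

/-- Local structure of an analytic function on a disc: number of zeros and pole expansion. -/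
theorem local_structure (f : ℂ → ℂ) (c : ℂ) (M : ℝ) (hM : 1 ≤ M)
    (hf : AnalyticOnNhd ℂ f (closedBall c (19 / 10))) (hc : f c ≠ 0)
    (hb : ∀ z ∈ sphere c (19 / 10), ‖f z‖ ≤ Real.exp M * ‖f c‖)
    (h1 : 1 ≤ Real.exp M * ‖f c‖) :
    ∃ Z : Finset ℂ, (∀ z, z ∈ Z ↔ z ∈ closedBall c (9 / 5) ∧ f z = 0) ∧
      (∀ ρ ∈ Z, 1 ≤ (analyticOrderAt f ρ).toNat) ∧
      (∑ ρ ∈ Z, ((analyticOrderAt f ρ).toNat : ℝ) ≤ 20 * M) ∧
      ∀ z ∈ closedBall c (8 / 5), f z ≠ 0 →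
        ‖logDeriv f z - ∑ ρ ∈ Z, ((analyticOrderAt f ρ).toNat : ℂ) / (z - ρ)‖ ≤ 30000 * M := by
  classical
  have hsub : closedBall c (9 / 5 : ℝ) ⊆ closedBall c (19 / 10 : ℝ) :=
    closedBall_subset_closedBall (by norm_num)
  have hf' := hf.mono hsub
  have htop : ∀ z ∈ closedBall c (19 / 10 : ℝ), analyticOrderAt f z ≠ ⊤ := by
    intro z hz
    refine hf.analyticOrderAt_ne_top_of_isPreconnected
      (convex_closedBall c _).isPreconnected (mem_closedBall_self (by norm_num)) hz ?_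
    rw [(hf c (mem_closedBall_self (by norm_num))).analyticOrderAt_eq_zero.2 hc]
    simp
  set m : ℂ → ℕ := fun ρ => (analyticOrderAt f ρ).toNat with hm
  have hmo : ∀ z ∈ closedBall c (19 / 10 : ℝ), analyticOrderAt f z = m z := by
    intro z hz
    simp only [hm]
    exact (ENat.natCast_toNat (htop z hz)).symm
  have hdiv : ∀ z ∈ closedBall c (9 / 5 : ℝ),
      MeromorphicOn.divisor f (closedBall c (9 / 5 : ℝ)) z = m z := by
    intro z hz
    rw [MeromorphicOn.AnalyticOnNhd.divisor_apply hf' hz, hmo z (hsub hz)]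
    simp
  have hfin := (MeromorphicOn.divisor f (closedBall c (9 / 5 : ℝ))).finiteSupport
    (isCompact_closedBall _ _)
  set Z : Finset ℂ := hfin.toFinset with hZdef
  have hZ : ∀ z, z ∈ Z ↔ z ∈ closedBall c (9 / 5) ∧ f z = 0 := by
    intro z
    simp only [hZdef, Set.Finite.mem_toFinset, Function.mem_support]
    constructor
    · intro h
      have hz : z ∈ closedBall c (9 / 5 : ℝ) := by
        by_contra hz
        exact h (Function.locallyFinsuppWithin.apply_eq_zero_of_notMem _ hz)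
      refine ⟨hz, ?_⟩
      by_contra h0
      apply h
      rw [hdiv z hz]
      simp only [hm]
      rw [(hf' z hz).analyticOrderAt_eq_zero.2 h0]
      simp
    · rintro ⟨hz, h0⟩
      rw [hdiv z hz]
      intro hm0
      have h2 : m z = 0 := by exact_mod_cast hm0
      have h3 := hmo z (hsub hz)
      rw [h2] at h3
      exact (hf' z hz).analyticOrderAt_eq_zero.1 (by simpa using h3) h0
  have hpos : ∀ ρ ∈ Z, 1 ≤ m ρ := by
    intro ρ hρ
    obtain ⟨hz, h0⟩ := (hZ ρ).1 hρ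
    by_contra hlt
    have h2 : m ρ = 0 := by omega
    have h3 := hmo ρ (hsub hz)
    rw [h2] at h3
    exact (hf' ρ hz).analyticOrderAt_eq_zero.1 (by simpa using h3) h0
  have hfc : 0 < ‖f c‖ := norm_pos_iff.2 hc
  have hcount : ∑ ρ ∈ Z, (m ρ : ℝ) ≤ 20 * M := by
    have hJ := AnalyticOnNhd.sum_divisor_le (c := c) (r := 9 / 5) (R := 19 / 10)
      (M := Real.exp M * ‖f c‖) (f := f) (by norm_num) (by norm_num [abs_of_pos]) h1
      (by rwa [abs_of_pos (by norm_num : (0 : ℝ) < 19 / 10)]) hc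
      (by rwa [abs_of_pos (by norm_num : (0 : ℝ) < 19 / 10)])
    rw [abs_of_pos (by norm_num : (0 : ℝ) < 9 / 5), mul_div_assoc, div_self hfc.ne', mul_one,
      Real.log_exp, finsum_eq_sum_of_support_subset (s := Z) _ (by simp [hZdef])] at hJ
    have e : ((∑ ρ ∈ Z, MeromorphicOn.divisor f (closedBall c (9 / 5 : ℝ)) ρ : ℤ) : ℝ)
        = ∑ ρ ∈ Z, (m ρ : ℝ) := by
      push_cast
      refine Finset.sum_congr rfl fun ρ hρ => ?_
      rw [hdiv ρ ((hZ ρ).1 hρ).1]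
      simp
    rw [e] at hJ
    refine hJ.trans ?_
    have hlog : (1 / 20 : ℝ) ≤ Real.log (19 / 10 / (9 / 5)) := by
      have := Real.one_sub_inv_le_log_of_pos (x := 19 / 10 / (9 / 5)) (by norm_num)
      linarith [show (1 / 20 : ℝ) ≤ 1 - (19 / 10 / (9 / 5))⁻¹ by norm_num]
    rw [div_le_iff₀ (by linarith)]
    nlinarith
  refine ⟨Z, hZ, hpos, hcount, fun z hz hz0 => ?_⟩
  obtain ⟨g, hg, hfg, hg0⟩ := exists_factor _ f hf m Z
    fun ρ hρ => ⟨hsub ((hZ ρ).1 hρ).1, hmo ρ (hsub ((hZ ρ).1 hρ).1)⟩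
  set n : ℕ := ∑ ρ ∈ Z, m ρ with hn
  have hnR : (n : ℝ) ≤ 20 * M := by rw [hn]; push_cast; exact hcount
  have hgne : ∀ w ∈ closedBall c (9 / 5 : ℝ), g w ≠ 0 := by
    intro w hw h0
    by_cases hwZ : w ∈ Z
    · exact hg0 w hwZ h0
    · exact hwZ ((hZ w).2 ⟨hw, by rw [hfg w, h0, mul_zero]⟩)
  have hgc : ‖f c‖ ≤ 2 ^ n * ‖g c‖ := by
    rw [hfg c, norm_mul, norm_prod, hn, ← Finset.prod_pow_eq_pow_sum]
    gcongr with ρ hρ
    rw [norm_pow]
    gcongr
    have := ((hZ ρ).1 hρ).1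
    rw [mem_closedBall, dist_comm, dist_eq_norm] at this
    linarith
  have hsph : ∀ w ∈ sphere c (19 / 10 : ℝ), ‖g w‖ ≤ Real.exp (M + 3 * n) * ‖g c‖ := by
    intro w hw
    have hP : (1 / 10 : ℝ) ^ n ≤ ‖∏ ρ ∈ Z, (w - ρ) ^ m ρ‖ := by
      rw [norm_prod, hn, ← Finset.prod_pow_eq_pow_sum]
      gcongr with ρ hρ
      rw [norm_pow]
      gcongr
      have h2 : dist ρ c ≤ 9 / 5 := ((hZ ρ).1 hρ).1
      have h3 : dist w c = 19 / 10 := hw
      have := dist_triangle w ρ c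
      rw [dist_eq_norm w ρ] at this
      linarith
    have h2 := hb w hw
    rw [hfg w, norm_mul] at h2
    have h3 : (1 / 10 : ℝ) ^ n * ‖g w‖ ≤ Real.exp M * (2 ^ n * ‖g c‖) := by
      calc _ ≤ ‖∏ ρ ∈ Z, (w - ρ) ^ m ρ‖ * ‖g w‖ := by gcongr
        _ ≤ _ := h2.trans (by gcongr)
    have h20 : (20 : ℝ) ^ n ≤ Real.exp (3 * n) := by
      rw [mul_comm, Real.exp_nat_mul]
      gcongr
      have := Real.exp_one_gt_d9
      have e3 : Real.exp 3 = Real.exp 1 ^ 3 := by rw [← Real.exp_nat_mul]; norm_num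
      rw [e3]
      have : (2.7182818283 : ℝ) ^ 3 ≤ Real.exp 1 ^ 3 := by gcongr
      linarith [show (20 : ℝ) ≤ (2.7182818283 : ℝ) ^ 3 by norm_num]
    have h10 : (0 : ℝ) < (1 / 10) ^ n := by positivity
    have e20 : (20 : ℝ) ^ n * (1 / 10) ^ n = 2 ^ n := by rw [← mul_pow]; norm_num
    refine le_of_mul_le_mul_left (h3.trans ?_) h10
    rw [Real.exp_add, ← e20]
    have := Real.exp_pos M
    have := norm_nonneg (g c)
    calc Real.exp M * (20 ^ n * (1 / 10) ^ n * ‖g c‖)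
        ≤ Real.exp M * (Real.exp (3 * n) * (1 / 10) ^ n * ‖g c‖) := by gcongr
      _ = _ := by ring
  have hball : ∀ w ∈ ball c (9 / 5 : ℝ), ‖g w‖ ≤ Real.exp (M + 3 * n) * ‖g c‖ := by
    intro w hw
    have hdc : DiffContOnCl ℂ g (ball c (19 / 10)) := by
      refine DifferentiableOn.diffContOnCl ?_
      rw [closure_ball c (by norm_num)]
      exact hg.differentiableOn
    refine Complex.norm_le_of_forall_mem_frontier_norm_le isBounded_ball hdc ?_ ?_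
    · rw [frontier_ball c (by norm_num)]
      exact hsph
    · rw [closure_ball c (by norm_num)]
      exact hsub (ball_subset_closedBall hw)
  have hL := logDeriv_bound_of_ne_zero g c (M + 3 * n) (by positivity)
    (hg.differentiableOn.mono (ball_subset_closedBall.trans hsub))
    (fun w hw => hgne w (ball_subset_closedBall hw)) hball z hz
  have hz' : z ∈ closedBall c (9 / 5 : ℝ) := closedBall_subset_closedBall (by norm_num) hz
  have hzρ : ∀ ρ ∈ Z, z - ρ ≠ 0 := by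
    intro ρ hρ h0
    have : z = ρ := sub_eq_zero.1 h0
    exact hz0 (this ▸ ((hZ ρ).1 hρ).2)
  have hlog : logDeriv f z = ∑ ρ ∈ Z, (m ρ : ℂ) / (z - ρ) + logDeriv g z := by
    have e : f = fun w => (∏ ρ ∈ Z, (w - ρ) ^ m ρ) * g w := funext hfg
    have hPz : (∏ ρ ∈ Z, (z - ρ) ^ m ρ) ≠ 0 :=
      Finset.prod_ne_zero_iff.2 fun ρ hρ => pow_ne_zero _ (hzρ ρ hρ)
    conv_lhs => rw [e]
    rw [logDeriv_mul z hPz (hgne z hz') (by fun_prop) (hg z (hsub hz')).differentiableAt,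
      logDeriv_prod (f := fun ρ w => (w - ρ) ^ m ρ) (fun ρ hρ => pow_ne_zero _ (hzρ ρ hρ))
        (fun ρ _ => by fun_prop)]
    congr 1
    refine Finset.sum_congr rfl fun ρ hρ => ?_
    rw [logDeriv_fun_pow (by fun_prop), logDeriv_apply]
    simp [div_eq_mul_inv]
  change ‖logDeriv f z - ∑ ρ ∈ Z, (m ρ : ℂ) / (z - ρ)‖ ≤ _
  rw [hlog, add_sub_cancel_left]
  nlinarith

/-- Pigeonhole: a point of `[t, t + 1]` far from finitely many given reals. -/
theorem exists_far_point (Z : Finset ℂ) (t : ℝ) :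
    ∃ t' ∈ Icc t (t + 1), ∀ ρ ∈ Z, 1 / (2 * ((Z.card : ℝ) + 1)) ≤ |t' - ρ.im| := by
  classical
  set k : ℕ := Z.card with hk
  have hk1 : (0 : ℝ) < (k : ℝ) + 1 := by positivity
  have hcard : (Z.image fun ρ => ⌊(ρ.im - t) * (k + 1)⌋).card <
      ((Finset.range (k + 1)).image fun j : ℕ => (j : ℤ)).card := by
    rw [Finset.card_image_of_injective _ Nat.cast_injective, Finset.card_range]
    exact Nat.lt_succ_of_le Finset.card_image_le
  obtain ⟨j, hj1, hj2⟩ := Finset.exists_mem_notMem_of_card_lt_card hcard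
  obtain ⟨i, hi, rfl⟩ := Finset.mem_image.1 hj1
  have hik : (i : ℝ) ≤ k := by exact_mod_cast Nat.lt_succ_iff.1 (Finset.mem_range.1 hi)
  have hi0 : (0 : ℝ) ≤ i := Nat.cast_nonneg i
  refine ⟨t + (i + 1 / 2) / (k + 1), ⟨?_, ?_⟩, fun ρ hρ => ?_⟩
  · have : 0 ≤ ((i : ℝ) + 1 / 2) / (k + 1) := by positivity
    linarith
  · have : ((i : ℝ) + 1 / 2) / (k + 1) ≤ 1 := by rw [div_le_one hk1]; linarith
    linarith
  · by_contra hlt
    push Not at hlt
    apply hj2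
    refine Finset.mem_image.2 ⟨ρ, hρ, ?_⟩
    rw [Int.floor_eq_iff]
    rw [abs_lt] at hlt
    obtain ⟨h1, h2⟩ := hlt
    have e1 : (t + (i + 1 / 2) / (k + 1) - ρ.im) * (k + 1) = i + 1 / 2 - (ρ.im - t) * (k + 1) := by
      field_simp; ring
    have e2 : (1 / (2 * ((k : ℝ) + 1))) * (k + 1) = 1 / 2 := by field_simp
    have h1' := mul_lt_mul_of_pos_right h1 hk1
    have h2' := mul_lt_mul_of_pos_right h2 hk1
    rw [e1] at h1' h2'
    rw [neg_mul, e2] at h1'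
    rw [e2] at h2'
    push_cast
    constructor <;> linarith

end Pool.Agent.MP_c853c5_nt.Z

end

section

set_option autoImplicit false

open Finset Filter

namespace Pool.Agent.MP_c853c5_nt.Z

/-- coefficients of the mollified sum -/
noncomputable def a_Mol (X n : ℕ) : ℂ :=
  ∑ p ∈ n.divisorsAntidiagonal.filter (fun p => p.1 ≤ X ∧ p.2 ≤ X),
    ((ArithmeticFunction.moebius p.1 : ℤ) : ℂ)

lemma mu_Mol (d : ℕ) : ‖((ArithmeticFunction.moebius d : ℤ) : ℂ)‖ ≤ 1 := by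
  rw [Complex.norm_intCast]
  exact_mod_cast ArithmeticFunction.abs_moebius_le_one

lemma norm_a_Mol (X n : ℕ) : ‖a_Mol X n‖ ≤ (n.divisors.card : ℝ) := by
  refine (norm_sum_le _ _).trans ((sum_le_card_nsmul _ _ 1 fun p _ => mu_Mol _).trans ?_)
  rw [nsmul_eq_mul, mul_one, Nat.cast_le]
  refine (card_filter_le _ _).trans ?_
  rw [← Nat.map_div_right_divisors, card_map]

lemma small_Mol {X n : ℕ} (h : n ≤ X) : a_Mol X n = if n = 1 then 1 else 0 := by
  unfold a_Mol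
  rw [filter_true_of_mem fun p hp => ⟨(Nat.divisor_le (Nat.fst_mem_divisors_of_mem_antidiagonal
    hp)).trans h, (Nat.divisor_le (Nat.snd_mem_divisors_of_mem_antidiagonal hp)).trans h⟩,
    Nat.sum_divisorsAntidiagonal fun d _ => ((ArithmeticFunction.moebius d : ℤ) : ℂ)]
  have := congrArg (fun f : ArithmeticFunction ℤ => f n) ArithmeticFunction.moebius_mul_coe_zeta
  simp only [ArithmeticFunction.coe_mul_zeta_apply, ArithmeticFunction.one_apply] at this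
  rw [← Int.cast_sum, this]
  split_ifs <;> simp

lemma id_Mol {X : ℕ} (hX : 1 ≤ X) (s : ℂ) :
    (∑ d ∈ Icc 1 X, ((ArithmeticFunction.moebius d : ℤ) : ℂ) * (d : ℂ) ^ (-s)) *
      ∑ e ∈ Icc 1 X, (e : ℂ) ^ (-s) = 1 + ∑ n ∈ Ioc X (X ^ 2), a_Mol X n * (n : ℂ) ^ (-s) := by
  have h1 : ∑ n ∈ Ioc 0 X, a_Mol X n * (n : ℂ) ^ (-s) = 1 := by
    rw [sum_eq_single_of_mem 1 (mem_Ioc.2 ⟨one_pos, hX⟩) fun n hn h => by
      rw [small_Mol (mem_Ioc.1 hn).2, if_neg h, zero_mul], small_Mol hX]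
    simp
  rw [← h1, sum_Ioc_consecutive _ (Nat.zero_le X) (Nat.le_self_pow two_ne_zero X), sum_mul_sum,
    ← sum_product', ← sum_fiberwise_of_maps_to (g := fun p : ℕ × ℕ => p.1 * p.2)
      (t := Ioc 0 (X ^ 2)) fun p hp => by
        simp only [mem_product, mem_Icc] at hp
        exact mem_Ioc.2 ⟨Nat.mul_pos hp.1.1 hp.2.1, by
          rw [sq]
          exact Nat.mul_le_mul hp.1.2 hp.2.2⟩]
  refine sum_congr rfl fun n hn => ?_
  have hn0 := (mem_Ioc.1 hn).1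
  rw [a_Mol, sum_mul]
  refine sum_congr ?_ fun p hp => ?_
  · ext p
    simp only [mem_filter, mem_product, mem_Icc, Nat.mem_divisorsAntidiagonal]
    constructor
    · rintro ⟨⟨⟨-, h2⟩, -, h3⟩, h4⟩
      exact ⟨⟨h4, hn0.ne'⟩, h2, h3⟩
    · rintro ⟨⟨h4, -⟩, h2, h3⟩
      rw [← h4] at hn0
      exact ⟨⟨⟨Nat.pos_of_mul_pos_right hn0, h2⟩, Nat.pos_of_mul_pos_left hn0, h3⟩, h4⟩
  · rw [← (Nat.mem_divisorsAntidiagonal.1 (mem_filter.1 hp).1).1, Nat.cast_mul,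
      Complex.natCast_mul_natCast_cpow, mul_assoc]

lemma mol_le_Mol (X : ℕ) {η : ℝ} (hη : 0 ≤ η) {s : ℂ} (hs : 1 - η ≤ s.re) :
    ‖∑ d ∈ Icc 1 X, ((ArithmeticFunction.moebius d : ℤ) : ℂ) * (d : ℂ) ^ (-s)‖ ≤
      (X : ℝ) ^ η * (1 + Real.log X) := by
  refine (norm_sum_le _ _).trans (le_trans ?_ (mul_le_mul_of_nonneg_left
    (harmonic_le_one_add_log X) (by positivity)))
  rw [harmonic_eq_sum_Icc]
  push_cast
  rw [mul_sum]
  refine sum_le_sum fun d hd => ?_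
  obtain ⟨h1, h2⟩ := mem_Icc.1 hd
  have h3 : (1 : ℝ) ≤ d := by exact_mod_cast h1
  rw [norm_mul, Complex.norm_natCast_cpow_of_pos h1]
  refine (mul_le_of_le_one_left (by positivity) (mu_Mol d)).trans ?_
  refine (Real.rpow_le_rpow_of_exponent_le h3 (show (-s).re ≤ η - 1 by
    rw [Complex.neg_re]
    linarith)).trans ?_
  rw [Real.rpow_sub_one (by linarith), div_eq_mul_inv]
  gcongr

theorem mol (hT : TailStmt) : MolStmt := by
  obtain ⟨A, C, hA, hC, h⟩ := hT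
  obtain ⟨δ, hδ⟩ : ∃ δ : ℝ, δ = 1 / (A * ((9 : ℕ) : ℝ) ^ 8) := ⟨_, rfl⟩
  obtain ⟨D, hD⟩ : ∃ D : ℝ, D = C * Real.exp (A * ((9 : ℕ) : ℝ) ^ 8) := ⟨_, rfl⟩
  have δ0 : 0 < δ := by rw [hδ]; positivity
  have D0 : 0 < D := by rw [hD]; positivity
  obtain ⟨x₀, hx⟩ := eventually_atTop.1 ((tendsto_rpow_atTop (show 0 < δ / 8 by positivity)).eventually
    (eventually_ge_atTop (2 * (D * (9 * (8 / δ)) * (1 + 8 / δ)))))
  refine ⟨δ / 2, max x₀ 4 ^ 8, by positivity, fun U X h0 h1 h2 =>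
    ⟨a_Mol X, norm_a_Mol X, fun ρ hρ h3 h4 h5 => ?_⟩⟩
  have X0 : max x₀ 4 ≤ X := le_of_pow_le_pow_left₀ (by norm_num) (Nat.cast_nonneg X) (h0.trans h1)
  have X4 : (4 : ℝ) ≤ X := (le_max_right _ _).trans X0
  have X7 : (4 : ℝ) ^ 7 ≤ (X : ℝ) ^ 7 := pow_le_pow_left₀ (by norm_num) X4 7
  have XU : (X : ℝ) ≤ U := by nlinarith
  have X9 : |ρ.im| ≤ (X : ℝ) ^ 9 := by nlinarith [pow_pos (show (0 : ℝ) < X by linarith) 8]
  have t := h 9 X ρ (by norm_num) (by linarith) (XU.trans h4) X9 (by rw [← hδ]; linarith)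
    (by linarith [re_lt_one hρ])
  rw [← hδ, ← hD, zeta_of_zeta1 hρ, zero_sub, norm_neg] at t
  have m := mol_le_Mol X (by positivity) h3
  have e := id_Mol (X := X) (by exact_mod_cast (show (1 : ℝ) ≤ X by linarith)) ρ
  have y1 : 1 ≤ (X : ℝ) ^ (δ / 8) := Real.one_le_rpow (by linarith) (by positivity)
  have y2 := hx X ((le_max_left _ _).trans X0)
  have l0 : 0 ≤ Real.log X := Real.log_nonneg (by linarith)
  have l1 : Real.log X ≤ 8 / δ * (X : ℝ) ^ (δ / 8) :=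
    (Real.log_le_rpow_div (Nat.cast_nonneg X) (show 0 < δ / 8 by positivity)).trans_eq (by field_simp)
  have l2 : Real.log |ρ.im| ≤ 9 * (8 / δ) * (X : ℝ) ^ (δ / 8) := by
    refine (Real.log_le_log (by linarith) X9).trans ?_
    rw [Real.log_pow]
    push_cast
    linarith
  have l3 : 1 + Real.log X ≤ (1 + 8 / δ) * (X : ℝ) ^ (δ / 8) := by linarith
  have p1 : (X : ℝ) ^ (δ / 2) = ((X : ℝ) ^ (δ / 8)) ^ 4 := by
    rw [← Real.rpow_natCast, ← Real.rpow_mul (Nat.cast_nonneg X)]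
    congr 1
    push_cast
    ring
  have p2 : (X : ℝ) ^ (-δ) = (((X : ℝ) ^ (δ / 8)) ^ 8)⁻¹ := by
    rw [← Real.rpow_natCast, ← Real.rpow_mul (Nat.cast_nonneg X), Real.rpow_neg (Nat.cast_nonneg X)]
    congr 2
    push_cast
    ring
  rw [p1] at m
  rw [p2] at t
  generalize (X : ℝ) ^ (δ / 8) = y at *
  have y0 : 0 < y := by linarith
  have key : ‖1 + ∑ n ∈ Ioc X (X ^ 2), a_Mol X n * (n : ℂ) ^ (-ρ)‖ ≤ 1 / 2 := by
    rw [← e, norm_mul]
    calc _ ≤ (y ^ 4 * ((1 + 8 / δ) * y)) * (D * (y ^ 8)⁻¹ * (9 * (8 / δ) * y)) :=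
          mul_le_mul (m.trans (by gcongr)) (t.trans (by gcongr)) (norm_nonneg _) (by positivity)
      _ = D * (9 * (8 / δ)) * (1 + 8 / δ) / y ^ 2 := by field_simp
      _ ≤ 1 / 2 := by
          rw [div_le_iff₀ (by positivity)]
          nlinarith
  have := norm_sub_le (1 + ∑ n ∈ Ioc X (X ^ 2), a_Mol X n * (n : ℂ) ^ (-ρ))
    (∑ n ∈ Ioc X (X ^ 2), a_Mol X n * (n : ℂ) ^ (-ρ))
  rw [add_sub_cancel_right, norm_one] at this
  linarith

end Pool.Agent.MP_c853c5_nt.Z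

end

section

set_option autoImplicit false

open Finset Filter

namespace Pool.Agent.MP_c853c5_nt.Z

noncomputable def kk_Ver (d γ t : ℝ) : ℝ := (√(1 + ((t - γ) / d) ^ 2))⁻¹ * (1 / d)

lemma cont_kk_Ver (d γ : ℝ) : Continuous (kk_Ver d γ) := by
  unfold kk_Ver
  refine Continuous.mul (Continuous.inv₀ (by fun_prop) fun t => ?_) continuous_const
  exact (Real.sqrt_pos.2 (by positivity)).ne'

lemma arsinh_le_Ver {x y : ℝ} (hy : 0 ≤ y) (h : x ≤ y) : Real.arsinh x ≤ Real.log (1 + 2 * y) := by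
  refine (Real.arsinh_le_arsinh.2 h).trans ?_
  unfold Real.arsinh
  have h1 : √(1 + y ^ 2) ≤ 1 + y := Real.sqrt_le_iff.2 ⟨by positivity, by nlinarith⟩
  have h2 : 0 < √(1 + y ^ 2) := Real.sqrt_pos.2 (by positivity)
  exact Real.log_le_log (by positivity) (by linarith)

lemma int_kk_Ver {d γ a : ℝ} (hd : 0 < d) (h : |γ - (a + 1 / 2)| ≤ 9 / 5) :
    ∫ t in a..(a + 1), kk_Ver d γ t ≤ 2 * Real.log (1 + 6 / d) := by
  have h1 : ∀ t ∈ Set.uIcc a (a + 1),
      HasDerivAt (fun t => Real.arsinh ((t - γ) / d)) (kk_Ver d γ t) t := fun t _ =>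
    (Real.hasDerivAt_arsinh _).comp t (((hasDerivAt_id t).sub_const γ).div_const d)
  rw [intervalIntegral.integral_eq_sub_of_hasDerivAt h1 ((cont_kk_Ver d γ).intervalIntegrable _ _)]
  obtain ⟨h2, h3⟩ := abs_le.1 h
  have h4 : Real.arsinh ((a + 1 - γ) / d) ≤ Real.log (1 + 2 * (3 / d)) :=
    arsinh_le_Ver (by positivity) (div_le_div_of_nonneg_right (by linarith) hd.le)
  have h5 : Real.arsinh ((γ - a) / d) ≤ Real.log (1 + 2 * (3 / d)) :=
    arsinh_le_Ver (by positivity) (div_le_div_of_nonneg_right (by linarith) hd.le)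
  have h6 : (a - γ) / d = -((γ - a) / d) := by ring
  rw [h6, Real.arsinh_neg, show 6 / d = 2 * (3 / d) by ring]
  linarith

lemma inv_le_kk_Ver {d σ t : ℝ} {ρ : ℂ} (hd : 0 < d) (h : d ≤ |σ - ρ.re|) :
    ‖(σ : ℂ) + t * Complex.I - ρ‖⁻¹ ≤ kk_Ver d ρ.im t := by
  have h0 : 0 < √(1 + ((t - ρ.im) / d) ^ 2) := Real.sqrt_pos.2 (by positivity)
  rw [kk_Ver, one_div, ← mul_inv]
  refine inv_anti₀ (mul_pos h0 hd) (abs_le_of_sq_le_sq' ?_ (norm_nonneg _)).2
  have h1 : d ^ 2 ≤ (σ - ρ.re) ^ 2 := by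
    rw [← sq_abs (σ - ρ.re)]
    exact pow_le_pow_left₀ hd.le h 2
  have h2 : (√(1 + ((t - ρ.im) / d) ^ 2) * d) ^ 2 = d ^ 2 + (t - ρ.im) ^ 2 := by
    rw [mul_pow, Real.sq_sqrt (by positivity)]
    field_simp
  rw [h2, Complex.sq_norm, Complex.normSq_apply]
  simp only [Complex.sub_re, Complex.add_re, Complex.ofReal_re, Complex.mul_re, Complex.I_re,
    Complex.ofReal_im, Complex.I_im, Complex.sub_im, Complex.add_im, Complex.mul_im]
  nlinarith

lemma mem_ball_Ver {σ a t : ℝ} (h1 : 1 / 2 ≤ σ) (h2 : σ ≤ 51 / 100) (ht : t ∈ Set.Icc a (a + 1)) :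
    (σ : ℂ) + t * Complex.I ∈
      Metric.closedBall ((2 : ℂ) + ((a + 1 / 2 : ℝ) : ℂ) * Complex.I) (8 / 5) := by
  rw [mem_closedBall_iff_norm]
  refine (abs_le_of_sq_le_sq' ?_ (by norm_num)).2
  rw [Complex.sq_norm, Complex.normSq_apply]
  simp only [Complex.sub_re, Complex.add_re, Complex.ofReal_re, Complex.mul_re, Complex.I_re,
    Complex.ofReal_im, Complex.I_im, Complex.sub_im, Complex.add_im, Complex.mul_im,
    Complex.re_ofNat, Complex.im_ofNat]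
  nlinarith [ht.1, ht.2]

lemma contOn_Ver (σ : ℝ) (s : Set ℝ) (h : ∀ t ∈ s, riemannZeta₁ (σ + t * Complex.I) ≠ 0) :
    ContinuousOn (fun t : ℝ => ‖logDeriv riemannZeta₁ (σ + t * Complex.I)‖) s := by
  have h1 : Continuous riemannZeta₁ := differentiable_riemannZeta₁.continuous
  have h2 : Continuous (deriv riemannZeta₁) := continuous_iff_continuousAt.2 fun z =>
    (differentiable_riemannZeta₁.analyticAt z).deriv.continuousAt
  have h3 : Continuous fun t : ℝ => (σ : ℂ) + t * Complex.I := by fun_prop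
  simp only [logDeriv_apply]
  exact ((h2.comp h3).continuousOn.div (h1.comp h3).continuousOn h).norm

lemma unit_Ver {σ a d L : ℝ} {Z : Finset ℂ} (hd : 0 < d)
    (hZ : ∀ ρ ∈ Z, d ≤ |σ - ρ.re| ∧ |ρ.im - (a + 1 / 2)| ≤ 9 / 5) (hs : ∑ ρ ∈ Z, ord ρ ≤ L)
    (h0 : ∀ t ∈ Set.Icc a (a + 1), riemannZeta₁ (σ + t * Complex.I) ≠ 0)
    (h1 : ∀ t ∈ Set.Icc a (a + 1), ‖logDeriv riemannZeta₁ (σ + t * Complex.I) -
      ∑ ρ ∈ Z, (ord ρ : ℂ) / (σ + t * Complex.I - ρ)‖ ≤ L) :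
    ∫ t in a..(a + 1), ‖logDeriv riemannZeta₁ (σ + t * Complex.I)‖ ≤
      L + L * (2 * Real.log (1 + 6 / d)) := by
  have a1 : a ≤ a + 1 := by linarith
  have i1 : IntervalIntegrable (fun t : ℝ => ‖logDeriv riemannZeta₁ (σ + t * Complex.I)‖)
      MeasureTheory.volume a (a + 1) :=
    (contOn_Ver σ _ h0).intervalIntegrable_of_Icc a1
  have c2 : ∀ ρ : ℂ, Continuous fun t => ord ρ * kk_Ver d ρ.im t := fun ρ =>
    continuous_const.mul (cont_kk_Ver _ _)
  have c3 : Continuous fun t => ∑ ρ ∈ Z, ord ρ * kk_Ver d ρ.im t :=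
    continuous_finsetSum _ fun ρ _ => c2 ρ
  have l0 : 0 ≤ 2 * Real.log (1 + 6 / d) :=
    mul_nonneg zero_le_two (Real.log_nonneg (le_add_of_nonneg_right (by positivity)))
  calc _ ≤ ∫ t in a..(a + 1), (L + ∑ ρ ∈ Z, ord ρ * kk_Ver d ρ.im t) := by
        refine intervalIntegral.integral_mono_on a1 i1
          ((continuous_const.add c3).intervalIntegrable _ _) fun t ht => ?_
        refine (norm_le_norm_sub_add _ _).trans (add_le_add (h1 t ht) ?_)
        refine norm_sum_le_of_le _ fun ρ hρ => ?_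
        rw [norm_div, Complex.norm_real, Real.norm_of_nonneg (ord_nonneg ρ), div_eq_mul_inv]
        exact mul_le_mul_of_nonneg_left (inv_le_kk_Ver hd (hZ ρ hρ).1) (ord_nonneg ρ)
    _ = L + ∑ ρ ∈ Z, ord ρ * ∫ t in a..(a + 1), kk_Ver d ρ.im t := by
        rw [intervalIntegral.integral_add (continuous_const.intervalIntegrable _ _)
          (c3.intervalIntegrable _ _), intervalIntegral.integral_finsetSum
            fun ρ _ => (c2 ρ).intervalIntegrable _ _]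
        simp
    _ ≤ L + ∑ ρ ∈ Z, ord ρ * (2 * Real.log (1 + 6 / d)) := by
        gcongr with ρ hρ
        · exact ord_nonneg ρ
        · exact int_kk_Ver hd (hZ ρ hρ).2
    _ ≤ _ := by
        rw [← sum_mul]
        gcongr

theorem ver (hL : LocZStmt) : VerStmt := by
  classical
  obtain ⟨C, C1, hL⟩ := hL
  have A0 : 0 ≤ Real.log (10801 * C) := Real.log_nonneg (by linarith)
  refine ⟨8 * C * (1 + 2 * (Real.log (10801 * C) + 2)), by nlinarith, fun T T3 => ?_⟩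
  choose Z hZ using hL
  obtain ⟨m, hm1, hm2⟩ : ∃ m : ℕ, T ≤ m ∧ (m : ℝ) ≤ T + 1 :=
    ⟨⌈T⌉₊, Nat.le_ceil T, (Nat.ceil_lt_add_one (by linarith)).le⟩
  have l1 : 1 ≤ Real.log T := by
    rw [Real.le_log_iff_exp_le (by linarith)]
    exact Real.exp_one_lt_three.le.trans T3
  have l2 : Real.log T ≤ T := (Real.log_le_sub_one_of_pos (by linarith)).trans (by linarith)
  let a : ℕ → ℝ := fun k => -(m : ℝ) + k
  have ha : ∀ k, a (k + 1) = a k + 1 := fun k => by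
    simp only [a]
    push_cast
    ring
  have hlog : ∀ k < 2 * m, C * Real.log (|a k + 1 / 2| + 3) ≤ 2 * C * Real.log T := by
    intro k hk
    have h1 : (k : ℝ) + 1 ≤ 2 * m := by exact_mod_cast hk
    have h2 : (0 : ℝ) ≤ k := Nat.cast_nonneg k
    have h3 : |a k + 1 / 2| ≤ m := abs_le.2 ⟨by simp only [a]; linarith, by simp only [a]; linarith⟩
    have h4 : Real.log (|a k + 1 / 2| + 3) ≤ Real.log (T ^ 2) :=
      Real.log_le_log (by positivity) (by nlinarith)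
    rw [Real.log_pow] at h4
    push_cast at h4
    nlinarith
  let W : Finset ℂ := (range (2 * m)).biUnion fun k => Z (a k + 1 / 2)
  have hW : (W.card : ℝ) ≤ 8 * C * T ^ 2 := by
    have h1 : W.card ≤ ∑ k ∈ range (2 * m), (Z (a k + 1 / 2)).card := card_biUnion_le
    have h2 : ((∑ k ∈ range (2 * m), (Z (a k + 1 / 2)).card : ℕ) : ℝ) ≤
        ∑ _k ∈ range (2 * m), 2 * C * Real.log T := by
      push_cast
      refine sum_le_sum fun k hk => le_trans ?_ ((hZ _).2.2.1.trans (hlog k (mem_range.1 hk)))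
      rw [card_eq_sum_ones]
      push_cast
      exact sum_le_sum (hZ _).2.1
    rw [sum_const, card_range, nsmul_eq_mul] at h2
    have h3 : (W.card : ℝ) ≤ ((∑ k ∈ range (2 * m), (Z (a k + 1 / 2)).card : ℕ) : ℝ) := by
      exact_mod_cast h1
    have h4 : ((2 * m : ℕ) : ℝ) * (2 * C * Real.log T) ≤ (4 * T) * (2 * C * T) := by
      push_cast
      exact mul_le_mul (by linarith) (by gcongr) (by positivity) (by positivity)
    nlinarith
  obtain ⟨s, hs, hfar⟩ := exists_far_point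
    (W.image fun ρ => ((100 * (ρ.re - 1 / 2) : ℝ) : ℂ) * Complex.I) 0
  obtain ⟨d, hd⟩ : ∃ d : ℝ, d = 1 / (200 * ((W.card : ℝ) + 1)) := ⟨_, rfl⟩
  have d0 : 0 < d := by
    rw [hd]
    positivity
  obtain ⟨σ, hσ⟩ : ∃ σ : ℝ, σ = 1 / 2 + s / 100 := ⟨_, rfl⟩
  have s1 : 1 / 2 ≤ σ := by linarith [hs.1]
  have s2 : σ ≤ 51 / 100 := by linarith [hs.2]
  have hdW : ∀ ρ ∈ W, d ≤ |σ - ρ.re| := by
    intro ρ hρ
    have h1 := hfar _ (mem_image_of_mem _ hρ)
    have h2 : ((W.image fun ρ => ((100 * (ρ.re - 1 / 2) : ℝ) : ℂ) * Complex.I).card : ℝ) ≤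
        W.card := by exact_mod_cast card_image_le
    have h3 : 1 / (2 * ((W.card : ℝ) + 1)) ≤ _ :=
      (one_div_le_one_div_of_le (by positivity) (by linarith)).trans h1
    have h4 : s - (((100 * (ρ.re - 1 / 2) : ℝ) : ℂ) * Complex.I).im = 100 * (σ - ρ.re) := by
      simp only [Complex.mul_im, Complex.ofReal_re, Complex.I_im, Complex.ofReal_im, Complex.I_re]
      rw [hσ]
      ring
    rw [h4, abs_mul, abs_of_pos (by norm_num : (0 : ℝ) < 100)] at h3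
    have h5 : 1 / (2 * ((W.card : ℝ) + 1)) = 100 * d := by
      rw [hd]
      field_simp
      norm_num
    linarith
  have hsub : ∀ k < 2 * m, ∀ ρ ∈ Z (a k + 1 / 2), ρ ∈ W := fun k hk ρ hρ =>
    mem_biUnion.2 ⟨k, mem_range.2 hk, hρ⟩
  have hne : ∀ k < 2 * m, ∀ t ∈ Set.Icc (a k) (a k + 1),
      riemannZeta₁ (σ + t * Complex.I) ≠ 0 := by
    intro k hk t ht h0
    have h1 := hdW _ (hsub k hk _ (((hZ _).1 _).2
      ⟨Metric.closedBall_subset_closedBall (by norm_num) (mem_ball_Ver s1 s2 ht), h0⟩))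
    simp only [Complex.add_re, Complex.ofReal_re, Complex.mul_re, Complex.I_re, Complex.ofReal_im,
      Complex.I_im, mul_zero, mul_one, sub_zero, add_zero, sub_self, abs_zero] at h1
    linarith
  have hld : Real.log (1 + 6 / d) ≤ (Real.log (10801 * C) + 2) * Real.log T := by
    have h1 : 6 / d = 1200 * ((W.card : ℝ) + 1) := by
      rw [hd]
      field_simp
      norm_num
    have h2 : 1 ≤ C * T ^ 2 := by nlinarith
    have h3 : Real.log (1 + 6 / d) ≤ Real.log (10801 * C * T ^ 2) :=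
      Real.log_le_log (by positivity) (by rw [h1]; nlinarith)
    rw [Real.log_mul (by positivity) (by positivity), Real.log_pow] at h3
    push_cast at h3
    nlinarith
  have hunit : ∀ k < 2 * m, ∫ t in a k..a (k + 1), ‖logDeriv riemannZeta₁ (σ + t * Complex.I)‖ ≤
      2 * C * (1 + 2 * (Real.log (10801 * C) + 2)) * Real.log T ^ 2 := by
    intro k hk
    rw [ha]
    refine (unit_Ver (Z := Z (a k + 1 / 2)) (L := 2 * C * Real.log T) d0
      (fun ρ hρ => ⟨hdW ρ (hsub k hk ρ hρ), ?_⟩) ((hZ _).2.2.1.trans (hlog k hk)) (hne k hk)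
      fun t ht => ((hZ _).2.2.2 _ (mem_ball_Ver s1 s2 ht) (hne k hk t ht)).trans
        (hlog k hk)).trans ?_
    · have h1 := mem_closedBall_iff_norm.1 (((hZ _).1 ρ).1 hρ).1
      have h2 := (Complex.abs_im_le_norm _).trans h1
      simpa only [Complex.sub_im, Complex.add_im, Complex.im_ofNat, Complex.mul_im,
        Complex.ofReal_re, Complex.I_im, Complex.ofReal_im, Complex.I_re, mul_one, mul_zero,
        add_zero, zero_add] using h2
    · have h1 : 2 * C * Real.log T * (2 * Real.log (1 + 6 / d)) ≤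
          2 * C * Real.log T * (2 * ((Real.log (10801 * C) + 2) * Real.log T)) := by gcongr
      have h2 : 2 * C * Real.log T * 1 ≤ 2 * C * Real.log T * Real.log T := by gcongr
      nlinarith
  have hall : ∀ t ∈ Set.Icc (-(m : ℝ)) m, riemannZeta₁ (σ + t * Complex.I) ≠ 0 := by
    intro t ht
    have m1 : 1 ≤ m := by exact_mod_cast (by linarith : (1 : ℝ) ≤ m)
    have t0 : 0 ≤ t + m := by linarith [ht.1]
    by_cases hk : ⌊t + m⌋₊ < 2 * m
    · refine hne _ hk t ⟨?_, ?_⟩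
      · have := Nat.floor_le t0
        simp only [a]
        linarith
      · have := Nat.lt_floor_add_one (t + m)
        simp only [a]
        linarith
    · have h1 : ((2 * m : ℕ) : ℝ) ≤ t + m :=
        le_trans (by exact_mod_cast not_lt.1 hk) (Nat.floor_le t0)
      have h2 : ((2 * m - 1 : ℕ) : ℝ) = 2 * m - 1 := by
        rw [Nat.cast_sub (by omega)]
        push_cast
        ring
      push_cast at h1
      refine hne (2 * m - 1) (by omega) t ⟨?_, ?_⟩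
      · simp only [a]
        linarith
      · simp only [a]
        linarith [ht.2]
  refine ⟨σ, ⟨s1, s2⟩, fun t ht => hall t ⟨by linarith [ht.1], by linarith [ht.2]⟩, ?_⟩
  have i1 : IntervalIntegrable (fun t : ℝ => ‖logDeriv riemannZeta₁ (σ + t * Complex.I)‖)
      MeasureTheory.volume (-(m : ℝ)) m :=
    (contOn_Ver σ _ hall).intervalIntegrable_of_Icc (by linarith)
  have e1 := intervalIntegral.sum_integral_adjacent_intervals (μ := MeasureTheory.volume)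
    (f := fun t : ℝ => ‖logDeriv riemannZeta₁ (σ + t * Complex.I)‖) (a := a) (n := 2 * m)
    fun k hk => by
      rw [ha]
      exact (contOn_Ver σ _ (hne k hk)).intervalIntegrable_of_Icc (by linarith)
  have e2 : a 0 = -(m : ℝ) := by simp [a]
  have e3 : a (2 * m) = m := by
    simp only [a]
    push_cast
    ring
  rw [e2, e3] at e1
  calc _ ≤ ∫ t in (-(m : ℝ))..m, ‖logDeriv riemannZeta₁ (σ + t * Complex.I)‖ :=
        intervalIntegral.integral_mono_interval (by linarith) (by linarith) hm1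
          (Eventually.of_forall fun t => norm_nonneg _) i1
    _ ≤ ∑ _k ∈ range (2 * m),
          2 * C * (1 + 2 * (Real.log (10801 * C) + 2)) * Real.log T ^ 2 := by
        rw [← e1]
        exact sum_le_sum fun k hk => hunit k (mem_range.1 hk)
    _ = 2 * m * (2 * C * (1 + 2 * (Real.log (10801 * C) + 2)) * Real.log T ^ 2) := by
        rw [sum_const, card_range, nsmul_eq_mul]
        push_cast
        ring
    _ ≤ 4 * T * (2 * C * (1 + 2 * (Real.log (10801 * C) + 2)) * Real.log T ^ 2) :=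
        mul_le_mul_of_nonneg_right (by linarith) (by positivity)
    _ = _ := by ring

end Pool.Agent.MP_c853c5_nt.Z

end
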