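import Pool.Agent.MP_c853c5_nt.Z.Basic
import Pool.Agent.Mg.C853.G6cfa21
import Pool.Agent.Mg.C853.Gbe42ac
import Pool.Agent.Mg.C853.G342b30

section

set_option autoImplicit false

open Finset

namespace Pool.Agent.MP_c853c5_nt.Z

lemma newton_Lin {R : Type} [CommRing R] {k : ℕ} (u v : Fin k → R)
    (hu : ∀ m : ℕ, 1 ≤ m → m ≤ k → IsUnit (m : R))
    (h : ∀ m : ℕ, 1 ≤ m → m ≤ k → ∑ i, u i ^ m = ∑ i, v i ^ m) (t : R) :
    ∏ i, (t + u i) = ∏ i, (t + v i) := by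
  have key : ∀ m : ℕ, m ≤ k → MvPolynomial.eval u (MvPolynomial.esymm (Fin k) R m) =
      MvPolynomial.eval v (MvPolynomial.esymm (Fin k) R m) := by
    intro m
    induction m using Nat.strong_induction_on with
    | _ m ih =>
      intro hm
      rcases Nat.eq_zero_or_pos m with rfl | m0
      · simp
      have e := fun w : Fin k → R =>
        congrArg (MvPolynomial.eval w) (MvPolynomial.mul_esymm_eq_sum (Fin k) R m)
      simp only [map_mul, map_natCast, map_pow, map_neg, map_one, map_sum, MvPolynomial.psum,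
        MvPolynomial.eval_X] at e
      refine (hu m m0 hm).mul_left_cancel ?_
      rw [e, e]
      congr 1
      refine sum_congr rfl fun a ha => ?_
      rw [mem_filter, HasAntidiagonal.mem_antidiagonal] at ha
      rw [ih a.1 ha.2 (by omega), h a.2 (by omega) (by omega)]
  have e := fun w : Fin k → R => congrArg (Polynomial.eval₂RingHom (MvPolynomial.eval w) t)
    (MvPolynomial.prod_C_add_X_eq_sum_esymm R (Fin k))
  simp only [map_prod, map_sum, map_add, map_mul, map_pow, Polynomial.coe_eval₂RingHom,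
    Polynomial.eval₂_X, Polynomial.eval₂_C, MvPolynomial.eval_X, Fintype.card_fin] at e
  rw [e, e]
  exact sum_congr rfl fun j hj => by rw [key j (Nat.lt_succ_iff.1 (mem_range.1 hj))]

lemma one_Lin {k n : ℕ} {p : ℤ} (hp : Prime p) (hn : 0 < n) (x : Fin k → ℤ) (y : ℤ)
    (hx : ∀ i j, i ≠ j → ¬ p ∣ x i - x j) (h : p ^ n ∣ ∏ i, (x i - y)) :
    ∃ i, p ^ n ∣ x i - y := by
  obtain ⟨i, -, hi⟩ := hp.exists_mem_finset_dvd ((dvd_pow_self p hn.ne').trans h)
  refine ⟨i, ?_⟩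
  rw [← mul_prod_erase _ _ (mem_univ i)] at h
  refine hp.pow_dvd_of_dvd_mul_right n (fun h' => ?_) h
  obtain ⟨j, hj, hj'⟩ := hp.exists_mem_finset_dvd h'
  refine hx j i (ne_of_mem_erase hj) ?_
  have := dvd_sub hj' hi
  rwa [sub_sub_sub_cancel_right] at this

lemma perm_Lin {k p X : ℕ} (hp : p.Prime) (hk : k < p) (hX : X ≤ p ^ k) (a : ℤ)
    {x y : Fin k → ℤ} (hx : x ∈ Dp k p X) (hy : y ∈ Dp k p X)
    (h : ∀ j, (p : ℤ) ^ k ∣ ps k (fun i => x i - a) j - ps k (fun i => y i - a) j) :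
    ∃ σ : Equiv.Perm (Fin k), y = x ∘ σ := by
  rw [Dp, mem_filter, mem_box] at hx hy
  have key : ∀ j, ∃ i, y j = x i := by
    intro j
    have e := newton_Lin (R := ZMod (p ^ k)) (fun i => ((x i - a : ℤ) : ZMod (p ^ k)))
      (fun i => ((y i - a : ℤ) : ZMod (p ^ k))) (fun m m1 m2 => by
        rw [ZMod.isUnit_iff_coprime]
        exact Nat.Coprime.pow_right _ ((Nat.coprime_of_lt_prime (by omega) (by omega) hp).symm))
      (fun m m1 m2 => by
        have := (ZMod.intCast_eq_intCast_iff_dvd_sub _ _ (p ^ k)).2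
          (by exact_mod_cast h ⟨m - 1, by omega⟩)
        simp only [ps, Nat.sub_add_cancel m1] at this
        exact_mod_cast this.symm) ((a - y j : ℤ) : ZMod (p ^ k))
    replace e := e.trans (prod_eq_zero (mem_univ j) (by push_cast; ring))
    have e2 : ((∏ i, (x i - y j) : ℤ) : ZMod (p ^ k)) = 0 := by
      rw [← e, Int.cast_prod]
      exact prod_congr rfl fun i _ => by push_cast; ring
    rw [ZMod.intCast_zmod_eq_zero_iff_dvd, Nat.cast_pow] at e2
    obtain ⟨i, hi⟩ := one_Lin (Nat.prime_iff_prime_int.1 hp) j.pos x (y j) hx.2 e2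
    refine ⟨i, ?_⟩
    have h1 := hx.1 i
    have h2 := hy.1 j
    have h3 : (X : ℤ) ≤ (p : ℤ) ^ k := by exact_mod_cast hX
    have := Int.eq_zero_of_abs_lt_dvd hi (abs_lt.2 ⟨by linarith [h1.1, h2.2], by linarith [h1.2, h2.1]⟩)
    linarith
  choose σ hσ using key
  have inj : Function.Injective σ := fun i j hij => by
    by_contra hne
    exact hy.2 i j hne (by rw [hσ i, hσ j, hij, sub_self]; exact dvd_zero _)
  exact ⟨Equiv.ofBijective σ (Finite.injective_iff_bijective.1 inj), funext hσ⟩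

theorem lin : LinStmt := by
  intro k p X hp hk hX a c
  have p0 : (0 : ℤ) < p := by exact_mod_cast hp.pos
  have hc : (Fintype.piFinset fun j : Fin k => Ico (0 : ℤ) ((p : ℤ) ^ (k - 1 - j.val))).card =
      p ^ (k * (k - 1) / 2) := by
    rw [Fintype.card_piFinset, ← sum_range_id, ← sum_range_reflect, ← prod_pow_eq_pow_sum,
      ← Fin.prod_univ_eq_prod_range fun j => p ^ (k - 1 - j)]
    refine prod_congr rfl fun j _ => ?_
    rw [Int.card_Ico, sub_zero, ← Nat.cast_pow, Int.toNat_natCast]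
  rw [← hc]
  refine card_le_mul_card_image_of_maps_to (f := fun x j =>
    (ps k (fun i => x i - a) j - c j) / (p : ℤ) ^ (j.val + 1) % (p : ℤ) ^ (k - 1 - j.val))
    (fun x _ => ?_) _ fun b _ => ?_
  · rw [Fintype.mem_piFinset]
    intro j
    exact mem_Ico.2 ⟨Int.emod_nonneg _ (by positivity), Int.emod_lt_of_pos _ (by positivity)⟩
  · refine le_of_not_gt fun h => not_le.2 h ?_
    obtain ⟨x, hx⟩ := card_pos.1 ((Nat.zero_le _).trans_lt h)
    refine (card_le_card (t := univ.image fun σ : Equiv.Perm (Fin k) => x ∘ σ) fun y hy => ?_).trans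
      (card_image_le.trans_eq (by simp [Fintype.card_perm]))
    rw [mem_filter, mem_filter] at hx hy
    obtain ⟨σ, hσ⟩ := perm_Lin hp hk hX a hx.1.1 hy.1.1 fun j => by
      obtain ⟨u, hu⟩ := hx.1.2 j
      obtain ⟨v, hv⟩ := hy.1.2 j
      have e := congrFun (hx.2.trans hy.2.symm) j
      simp only [hu, hv, Int.mul_ediv_cancel_left _ (pow_pos p0 _).ne'] at e
      have e2 : ps k (fun i => x i - a) j - ps k (fun i => y i - a) j =
          (p : ℤ) ^ (j.val + 1) * (u - v) := by linear_combination hu - hv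
      have e3 : (p : ℤ) ^ k = (p : ℤ) ^ (j.val + 1) * (p : ℤ) ^ (k - 1 - j.val) := by
        rw [← pow_add]
        congr 1
        omega
      rw [e2, e3]
      exact mul_dvd_mul_left _ (Int.ModEq.dvd e.symm)
    exact mem_image.2 ⟨σ, mem_univ _, hσ.symm⟩

end Pool.Agent.MP_c853c5_nt.Z

end

section

set_option autoImplicit false

open Finset

namespace Pool.Agent.MP_c853c5_nt.Z

lemma expand_Step {s : ℕ} (x : Fin s → ℤ) (b : ℤ) (m : ℕ) :
    ∑ i, (x i - b) ^ m =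
      ∑ l ∈ range (m + 1), (∑ i, x i ^ l) * ((-b) ^ (m - l) * (m.choose l : ℤ)) := by
  simp only [sub_eq_add_neg, add_pow, sum_mul]
  rw [sum_comm]
  exact sum_congr rfl fun l _ => sum_congr rfl fun i _ => by ring

lemma shift_Step {k s : ℕ} (x y : Fin k → ℤ) (u v : Fin s → ℤ) (b : ℤ)
    (h : ps k x + ps k u = ps k y + ps k v) :
    ps k (fun i => x i - b) + ps k (fun i => u i - b) =
      ps k (fun i => y i - b) + ps k (fun i => v i - b) := by
  funext j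
  simp only [Pi.add_apply, ps, expand_Step, ← sum_add_distrib, ← add_mul]
  refine sum_congr rfl fun l hl => ?_
  congr 1
  rcases l with _ | l
  · simp
  · have hl' : l < k := by
      have := mem_range.mp hl
      have := j.isLt
      omega
    have := congrFun h ⟨l, hl'⟩
    simpa only [Pi.add_apply, ps] using this

lemma scale_Step {k s : ℕ} (w : Fin s → ℤ) (p : ℤ) (j : Fin k) :
    ps k (fun i => p * w i) j = p ^ (j.val + 1) * ps k w j := by
  simp only [ps, mul_pow, mul_sum]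

lemma lift_Step {s p X : ℕ} (hp : 0 < p) {a b : ℤ} (hb0 : b ≤ 0) (hb1 : -(p : ℤ) < b)
    (hab : (p : ℤ) ∣ a - b) {u : Fin s → ℤ}
    (hu : u ∈ tup s ((Icc (1 : ℤ) X).filter fun u => (p : ℤ) ∣ u - a)) :
    ∃ w ∈ box s (X / p + 1), ∀ i, u i - b = p * w i := by
  have h1 : ∀ i, ∃ w : ℤ, (1 ≤ w ∧ w ≤ ((X / p + 1 : ℕ) : ℤ)) ∧ u i - b = p * w := by
    intro i
    obtain ⟨h2, h3⟩ := mem_filter.mp (mem_tup.mp hu i)
    obtain ⟨h4, h5⟩ := mem_Icc.mp h2
    have h6 : (p : ℤ) ∣ u i - b := by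
      have := dvd_add h3 hab
      rwa [sub_add_sub_cancel] at this
    obtain ⟨w, hw⟩ := h6
    have hp' : (0 : ℤ) < p := by exact_mod_cast hp
    refine ⟨w, ⟨?_, ?_⟩, hw⟩
    · by_contra h
      have : (p : ℤ) * w ≤ 0 := mul_nonpos_of_nonneg_of_nonpos hp'.le (by omega)
      omega
    · have h7 : (w - 1) * p ≤ X := by nlinarith
      have h8 := Int.le_ediv_of_mul_le hp' h7
      push_cast
      omega
  choose w hw using h1
  exact ⟨w, mem_box.mpr fun i => (hw i).1, fun i => (hw i).2⟩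

theorem step (hH : HoldStmt) (hL : LinStmt) : StepStmt := by
  intro k s p X hp hk hX
  classical
  obtain ⟨a, ha⟩ := hH k s p (Dp k p X) (ps k) (Icc (1 : ℤ) X) hp.pos
  refine ha.trans (Nat.mul_le_mul_left _ ?_)
  have hp' : (0 : ℤ) < p := by exact_mod_cast hp.pos
  obtain ⟨b, hb0, hb1, hab⟩ : ∃ b : ℤ, b ≤ 0 ∧ -(p : ℤ) < b ∧ (p : ℤ) ∣ a - b := by
    refine ⟨-((-a) % p), ?_, ?_, ?_⟩
    · have := Int.emod_nonneg (-a) hp'.ne'
      omega
    · have := Int.emod_lt_of_pos (-a) hp'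
      omega
    · refine ⟨-((-a) / p), ?_⟩
      have := Int.emod_add_mul_ediv (-a) p
      linarith
  let L : (Fin k → ℤ) → Finset (Fin k → ℤ) := fun y => (Dp k p X).filter fun x => ∀ j : Fin k,
    (p : ℤ) ^ (j.val + 1) ∣ ps k (fun i => x i - b) j - ps k (fun i => y i - b) j
  let h : (Fin k → ℤ) → (Fin k → ℤ) → Fin k → ℤ := fun x y j =>
    (ps k (fun i => x i - b) j - ps k (fun i => y i - b) j) / (p : ℤ) ^ (j.val + 1)
  let T : (Fin k → ℤ) → (Fin k → ℤ) →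
      Finset (((Fin k → ℤ) × (Fin s → ℤ)) × ((Fin k → ℤ) × (Fin s → ℤ))) := fun x y =>
    ((box s (X / p + 1) ×ˢ box s (X / p + 1)).filter fun q => ps k q.1 = ps k q.2 + h x y).image
      fun q => ((x, fun i => b + p * q.2 i), (y, fun i => b + p * q.1 i))
  have hT : ∀ x y, (T x y).card ≤ JJ k s (X / p + 1) := fun x y =>
    card_image_le.trans (fiber_le _ _ _)
  unfold cnt
  refine le_trans (card_le_card (t := (Dp k p X).biUnion fun y => (L y).biUnion fun x => T x y)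
    ?_) ?_
  · rintro ⟨⟨x, u⟩, ⟨y, v⟩⟩ hq
    obtain ⟨h1, h2⟩ := mem_filter.mp hq
    obtain ⟨h3, h4⟩ := mem_product.mp h1
    obtain ⟨hx, hu⟩ := mem_product.mp h3
    obtain ⟨hy, hv⟩ := mem_product.mp h4
    obtain ⟨wu, hwu, eu⟩ := lift_Step hp.pos hb0 hb1 hab hu
    obtain ⟨wv, hwv, ev⟩ := lift_Step hp.pos hb0 hb1 hab hv
    have h5 := shift_Step x y u v b h2
    simp only at eu ev
    rw [funext eu, funext ev] at h5
    have h6 : ∀ j : Fin k, ps k (fun i => x i - b) j - ps k (fun i => y i - b) j =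
        (p : ℤ) ^ (j.val + 1) * (ps k wv j - ps k wu j) := by
      intro j
      have := congrFun h5 j
      simp only [Pi.add_apply, scale_Step] at this
      linarith
    refine mem_biUnion.mpr ⟨y, hy, mem_biUnion.mpr ⟨x, mem_filter.mpr ⟨hx, fun j => ⟨_, h6 j⟩⟩,
      mem_image.mpr ⟨(wv, wu), mem_filter.mpr ⟨mem_product.mpr ⟨hwv, hwu⟩, ?_⟩, ?_⟩⟩⟩
    · funext j
      simp only [Pi.add_apply, h]
      rw [h6 j, Int.mul_ediv_cancel_left _ (pow_ne_zero _ hp'.ne')]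
      ring
    · have e1 : (fun i => b + p * wu i) = u := funext fun i => by linarith [eu i]
      have e2 : (fun i => b + p * wv i) = v := funext fun i => by linarith [ev i]
      simp only [e1, e2]
  · have h1 : ∀ y, ((L y).biUnion fun x => T x y).card ≤
        (k.factorial * p ^ (k * (k - 1) / 2)) * JJ k s (X / p + 1) := fun y =>
      (card_biUnion_le_card_mul _ _ _ fun x _ => hT x y).trans
        (Nat.mul_le_mul_right _ (hL k p X hp hk hX b _))
    refine (card_biUnion_le_card_mul _ _ _ fun y _ => h1 y).trans ?_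
    rw [mul_assoc (X ^ k)]
    refine Nat.mul_le_mul_right _ ?_
    rw [← card_box]
    exact card_filter_le _ _

end Pool.Agent.MP_c853c5_nt.Z

end

section

set_option autoImplicit false

open Finset

namespace Pool.Agent.MP_c853c5_nt.Z

open Pool.Agent.MP_2a1f0e_nt

lemma card_Ioo_D (H : ℕ) : ((Ioo (-(H : ℤ)) H).card : ℝ) ≤ 2 * H := by
  have h : (Ioo (-(H : ℤ)) H).card ≤ 2 * H := by
    rw [Int.card_Ioo]
    omega
  exact_mod_cast h

lemma card_Icc_D {y : ℝ} (hy : 0 ≤ y) :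
    ((Icc (-⌊y + 1 / 2⌋) ⌊y + 1 / 2⌋).card : ℝ) ≤ 2 * y + 2 := by
  have h0 : 0 ≤ ⌊y + 1 / 2⌋ := Int.floor_nonneg.mpr (by linarith)
  have h1 : ((Icc (-⌊y + 1 / 2⌋) ⌊y + 1 / 2⌋).card : ℤ) = 2 * ⌊y + 1 / 2⌋ + 1 := by
    rw [Int.card_Icc]
    omega
  have h2 : ((Icc (-⌊y + 1 / 2⌋) ⌊y + 1 / 2⌋).card : ℝ) = 2 * (⌊y + 1 / 2⌋ : ℝ) + 1 := by
    exact_mod_cast h1
  have h3 := Int.floor_le (y + 1 / 2)
  linarith

lemma round_mem_D {y z : ℝ} (h : |z| ≤ y) : round z ∈ Icc (-⌊y + 1 / 2⌋) ⌊y + 1 / 2⌋ := by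
  have h1 := abs_le.mp (abs_sub_round z)
  have h2 := abs_le.mp h
  rw [mem_Icc]
  constructor
  · have : -round z ≤ ⌊y + 1 / 2⌋ := by
      rw [Int.le_floor]
      push_cast
      linarith
    omega
  · rw [Int.le_floor]
    linarith

lemma term_le_D (H : ℕ) (x : ℝ) {m : ℤ} (hm : m ∈ Ioo (-(H : ℤ)) H) :
    ‖gs H (x * m)‖ ^ 2 ≤ ∑ l ∈ Icc (-⌊|x| * H + 1 / 2⌋) ⌊|x| * H + 1 / 2⌋,
      2 * (H : ℝ) ^ 2 * kp (2 * H * (x * m - l)) := by
  have hmH : |(m : ℝ)| ≤ H := by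
    obtain ⟨h1, h2⟩ := mem_Ioo.mp hm
    have h3 : |m| ≤ (H : ℤ) := abs_le.mpr ⟨h1.le, h2.le⟩
    exact_mod_cast h3
  have hz : |x * m| ≤ |x| * H := by
    rw [abs_mul]
    exact mul_le_mul_of_nonneg_left hmH (abs_nonneg x)
  have e : gs H (x * m) = gs H (x * m - round (x * m)) := by
    have := gs_add_int H (x * m - round (x * m)) (round (x * m))
    rw [sub_add_cancel] at this
    exact this
  rw [e]
  refine (gs_sq_le H (abs_sub_round (x * m))).trans ?_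
  exact single_le_sum (f := fun l : ℤ => 2 * (H : ℝ) ^ 2 * kp (2 * H * (x * m - l)))
    (fun l _ => mul_nonneg (by positivity) (kp_pos _).le) (round_mem_D hz)

lemma inner_le_D {H : ℕ} (hH : 1 ≤ H) {x : ℝ} (hx : x ≠ 0) (l : ℤ) :
    ∑ m ∈ Ioo (-(H : ℤ)) H, kp (2 * H * (x * m - l)) ≤ 2 + 2 / (H * |x|) := by
  have hH0 : (0 : ℝ) < H := by exact_mod_cast hH
  have hx0 : 0 < |x| := abs_pos.mpr hx
  have hL : (0 : ℝ) < 1 / (2 * H * |x|) := by positivity
  have h := sum_kp_sep (Ioo (-(H : ℤ)) H) (fun m : ℤ => (m : ℝ))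
    (fun i _ j _ hne => by
      have h1 : (1 : ℤ) ≤ |i - j| := Int.one_le_abs (sub_ne_zero.mpr hne)
      exact_mod_cast h1) (l / x) hL
  have e : 2 + 4 * (1 / (2 * H * |x|)) = 2 + 2 / (H * |x|) := by
    field_simp
    ring
  rw [e] at h
  refine le_trans (sum_le_sum fun m _ => kp_anti (le_of_eq ?_)) h
  have e2 : ((m : ℝ) - l / x) / (1 / (2 * H * |x|)) = 2 * H * |x| * (m - l / x) := by
    field_simp
  have e3 : 2 * (H : ℝ) * (x * m - l) = 2 * H * x * (m - l / x) := by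
    field_simp
  rw [e2, e3]
  simp only [mul_pow, sq_abs]

theorem dd : DStmt := by
  intro H x hH
  have hH0 : (0 : ℝ) < H := by exact_mod_cast hH
  have hc := card_Ioo_D H
  constructor
  · unfold DD
    calc ∑ m ∈ Ioo (-(H : ℤ)) H, ‖gs H (x * m)‖ ≤ ∑ _m ∈ Ioo (-(H : ℤ)) H, (H : ℝ) :=
          sum_le_sum fun m _ => norm_gs_le H _
      _ = ((Ioo (-(H : ℤ)) H).card : ℝ) * H := by rw [sum_const, nsmul_eq_mul]
      _ ≤ 2 * H * H := mul_le_mul_of_nonneg_right hc hH0.le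
      _ = 2 * (H : ℝ) ^ 2 := by ring
  · intro hx
    have hx0 : 0 < |x| := abs_pos.mpr hx
    have h1 : DD H x ^ 2 ≤ ((Ioo (-(H : ℤ)) H).card : ℝ) *
        ∑ m ∈ Ioo (-(H : ℤ)) H, ‖gs H (x * m)‖ ^ 2 := by
      unfold DD
      exact sq_sum_le_card_mul_sum_sq
    have hk := card_Icc_D (y := |x| * H) (by positivity)
    have h2 : ∑ m ∈ Ioo (-(H : ℤ)) H, ‖gs H (x * m)‖ ^ 2 ≤
        (2 * (|x| * H) + 2) * (2 * (H : ℝ) ^ 2 * (2 + 2 / (H * |x|))) := by
      calc ∑ m ∈ Ioo (-(H : ℤ)) H, ‖gs H (x * m)‖ ^ 2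
          ≤ ∑ m ∈ Ioo (-(H : ℤ)) H, ∑ l ∈ Icc (-⌊|x| * H + 1 / 2⌋) ⌊|x| * H + 1 / 2⌋,
              2 * (H : ℝ) ^ 2 * kp (2 * H * (x * m - l)) :=
            sum_le_sum fun m hm => term_le_D H x hm
        _ = ∑ l ∈ Icc (-⌊|x| * H + 1 / 2⌋) ⌊|x| * H + 1 / 2⌋, 2 * (H : ℝ) ^ 2 *
              ∑ m ∈ Ioo (-(H : ℤ)) H, kp (2 * H * (x * m - l)) := by
            rw [sum_comm]
            exact sum_congr rfl fun l _ => (mul_sum _ _ _).symm
        _ ≤ ∑ _l ∈ Icc (-⌊|x| * H + 1 / 2⌋) ⌊|x| * H + 1 / 2⌋,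
              2 * (H : ℝ) ^ 2 * (2 + 2 / (H * |x|)) :=
            sum_le_sum fun l _ =>
              mul_le_mul_of_nonneg_left (inner_le_D hH hx l) (by positivity)
        _ = ((Icc (-⌊|x| * H + 1 / 2⌋) ⌊|x| * H + 1 / 2⌋).card : ℝ) *
              (2 * (H : ℝ) ^ 2 * (2 + 2 / (H * |x|))) := by rw [sum_const, nsmul_eq_mul]
        _ ≤ _ := mul_le_mul_of_nonneg_right hk (by positivity)
    have h3 : DD H x ^ 2 ≤ 2 * H *
        ((2 * (|x| * H) + 2) * (2 * (H : ℝ) ^ 2 * (2 + 2 / (H * |x|)))) :=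
      h1.trans (mul_le_mul hc h2 (sum_nonneg fun m _ => by positivity) (by positivity))
    have e : 2 * H * ((2 * (|x| * H) + 2) * (2 * (H : ℝ) ^ 2 * (2 + 2 / (H * |x|)))) =
        4 * (H : ℝ) ^ 4 * (4 * |x| + 8 / H + 4 / (|x| * (H : ℝ) ^ 2)) := by
      field_simp
      ring
    rw [e] at h3
    refine h3.trans (mul_le_mul_of_nonneg_left ?_ (by positivity))
    have a1 : (8 : ℝ) / H ≤ 10 / H := div_le_div_of_nonneg_right (by norm_num) hH0.le
    have a2 : (4 : ℝ) / (|x| * (H : ℝ) ^ 2) ≤ 6 / (|x| * (H : ℝ) ^ 2) :=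
      div_le_div_of_nonneg_right (by norm_num) (by positivity)
    linarith

end Pool.Agent.MP_c853c5_nt.Z

end

section

set_option autoImplicit false

open Finset

namespace Pool.Agent.MP_c853c5_nt.Z

lemma root_Exp {N : ℕ} (hN : 1 ≤ N) : ∃ Y : ℕ, 1 ≤ Y ∧ Y ^ 3 ≤ N ∧ N < 8 * Y ^ 3 := by
  have h1 : Nat.nthRoot 3 N ^ 3 ≤ N := Nat.pow_nthRoot_le (Or.inl (by norm_num))
  have h2 : N < (Nat.nthRoot 3 N + 1) ^ 3 := Nat.lt_pow_nthRoot_add_one (by norm_num) N
  generalize Nat.nthRoot 3 N = Y at h1 h2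
  have h3 : 1 ≤ Y := Nat.pos_of_ne_zero fun h => by
    subst h
    omega
  refine ⟨Y, h3, h1, h2.trans_le ?_⟩
  calc _ ≤ (2 * Y) ^ 3 := Nat.pow_le_pow_left (by omega) 3
    _ = _ := by ring

theorem expS (hU : UStmt) (hT : TayStmt) : ExpStmt := by
  obtain ⟨A, hA, hU⟩ := hU
  refine ⟨A + 1, by linarith, fun k N M t hk hN h1 h2 h3 h4 => ?_⟩
  obtain ⟨Y, y1, y2, y3⟩ := root_Exp hN
  have hk1 : (1 : ℝ) ≤ (k : ℝ) ^ 8 := one_le_pow₀ (by exact_mod_cast hk)
  have hN1 : (1 : ℝ) ≤ N := by exact_mod_cast hN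
  have hN0 : (0 : ℝ) < N := by linarith
  replace hU := fun n a b => hU k N Y n t hk y1 y2 y3.le a b h3 h4
  have a1 : 10 ≤ A * (k : ℝ) ^ 8 := by nlinarith
  have a2 : A * (k : ℝ) ^ 8 + 1 ≤ (A + 1) * (k : ℝ) ^ 8 := by linarith
  generalize (A + 1) * (k : ℝ) ^ 8 = a' at *
  generalize A * (k : ℝ) ^ 8 = a at *
  have e1 := Real.add_one_le_exp a
  have e2 : Real.exp a + 4 ≤ Real.exp a' := by
    have := Real.exp_le_exp.2 a2
    rw [Real.exp_add] at this
    nlinarith [Real.add_one_le_exp 1]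
  have a3 : 1 / a ≤ 1 / 10 := one_div_le_one_div_of_le (by norm_num) a1
  have a4 : 1 / a' ≤ 1 / a := one_div_le_one_div_of_le (by linarith) (by linarith)
  refine le_trans ?_ (mul_le_mul e2 (Real.rpow_le_rpow_of_exponent_le hN1 (sub_le_sub_left a4 1))
    (by positivity) (by positivity))
  have hM : ((M - N : ℕ) : ℝ) ≤ N := by exact_mod_cast (by omega : M - N ≤ N)
  rcases y1.eq_or_lt with rfl | y4
  · have : (N : ℝ) ≤ 8 := by exact_mod_cast y3.le
    exact ((norm_ES_le N M t).trans (by linarith)).trans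
      (le_mul_of_one_le_right (by positivity) (Real.one_le_rpow hN1 (by linarith)))
  have hY : (0 : ℝ) < (Y : ℝ) ^ 2 := by positivity
  have y5 : (Y : ℝ) ^ 3 ≤ N := by exact_mod_cast y2
  have b1 : (∑ n ∈ Ioc N M, ‖UU (3 * k) Y (al (3 * k) t n)‖) / (Y : ℝ) ^ 2 ≤
      Real.exp a * (N : ℝ) ^ (1 - 1 / a) := by
    rw [div_le_iff₀ hY]
    refine (sum_le_card_nsmul _ _ _ fun n hn =>
      hU n (mem_Ioc.1 hn).1 ((mem_Ioc.1 hn).2.trans h2)).trans ?_
    rw [Nat.card_Ioc, nsmul_eq_mul, sub_eq_add_neg (1 : ℝ), Real.rpow_add hN0, Real.rpow_one]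
    exact (mul_le_mul_of_nonneg_right hM (by positivity)).trans_eq (by ring)
  have b2 : (Y : ℝ) ^ 2 ≤ (N : ℝ) ^ (1 - 1 / a) :=
    calc _ = ((Y : ℝ) ^ 3) ^ (2 / 3 : ℝ) := by
          rw [← Real.rpow_natCast_mul (Nat.cast_nonneg Y), ← Real.rpow_natCast]
          norm_num
      _ ≤ (N : ℝ) ^ (2 / 3 : ℝ) := by gcongr
      _ ≤ _ := Real.rpow_le_rpow_of_exponent_le hN1 (by linarith)
  have b3 : N * (2 * |t| * ((Y : ℝ) ^ 2 / N) ^ (3 * k + 1)) ≤ 2 * (Y : ℝ) ^ 2 := by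
    have h5 : N * ((Y : ℝ) ^ 2 / N) ^ 3 ≤ 1 :=
      calc _ = ((Y : ℝ) ^ 3 / N) ^ 2 := by field_simp
        _ ≤ 1 := pow_le_one₀ (by positivity) ((div_le_one hN0).2 y5)
    calc _ ≤ N * (2 * (N : ℝ) ^ k * ((Y : ℝ) ^ 2 / N) ^ (3 * k + 1)) := by gcongr
      _ = 2 * (Y : ℝ) ^ 2 * (N * ((Y : ℝ) ^ 2 / N) ^ 3) ^ k := by
          rw [pow_succ _ (3 * k), pow_mul, mul_pow]
          field_simp
      _ ≤ _ := mul_le_of_le_one_right (by positivity) (pow_le_one₀ (by positivity) h5)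
  have b4 := hT N M Y (3 * k) t h1 h2 y1 (le_trans (by nlinarith) y2)
  linarith

end Pool.Agent.MP_c853c5_nt.Z

end

section

set_option autoImplicit false

open Finset Filter

namespace Pool.Agent.MP_c853c5_nt.Z

lemma abel_PSum (N : ℕ) (c : ℕ → ℂ) (w : ℕ → ℝ) (B : ℝ) (M : ℕ) (hM : N ≤ M)
    (hw : ∀ L, N ≤ L → w (L + 1) ≤ w L)
    (hB : ∀ L : ℕ, N ≤ L → L ≤ M → ‖∑ n ∈ Ioc N L, c n‖ ≤ B) :
    ‖∑ n ∈ Ioc N M, (w n : ℂ) * c n - (w M : ℂ) * ∑ n ∈ Ioc N M, c n‖ ≤ B * (w N - w M) := by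
  induction M, hM using Nat.le_induction with
  | base => simp
  | succ M hM ih =>
    have h1 := ih fun L h h' => hB L h (by omega)
    have h2 := hB M hM (by omega)
    have h3 := hw M hM
    rw [sum_Ioc_succ_top hM, sum_Ioc_succ_top hM]
    have e : ∑ n ∈ Ioc N M, (w n : ℂ) * c n + (w (M + 1) : ℂ) * c (M + 1) -
        (w (M + 1) : ℂ) * (∑ n ∈ Ioc N M, c n + c (M + 1)) =
        (∑ n ∈ Ioc N M, (w n : ℂ) * c n - (w M : ℂ) * ∑ n ∈ Ioc N M, c n) +
          ((w M - w (M + 1) : ℝ) : ℂ) * ∑ n ∈ Ioc N M, c n := by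
      push_cast
      ring
    rw [e]
    refine (norm_add_le _ _).trans ?_
    rw [norm_mul, Complex.norm_real, Real.norm_of_nonneg (by linarith)]
    nlinarith [mul_le_mul_of_nonneg_left h2 (by linarith : 0 ≤ w M - w (M + 1))]

theorem psum : PSumStmt := by
  intro N M c B σ hN hM hσ hB
  have hB0 : 0 ≤ B := (norm_nonneg _).trans (hB N le_rfl hM)
  have h1 := abel_PSum N c (fun n => (n : ℝ) ^ (-σ)) B M hM
    (fun L hL => Real.rpow_le_rpow_of_nonpos (by exact_mod_cast (by omega : 0 < L))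
      (by push_cast; linarith) (by linarith)) hB
  have h2 := hB M hM le_rfl
  have h3 : (0 : ℝ) ≤ (M : ℝ) ^ (-σ) := by positivity
  have h4 : (0 : ℝ) ≤ (N : ℝ) ^ (-σ) := by positivity
  have h5 := norm_add_le (∑ n ∈ Ioc N M, (((n : ℝ) ^ (-σ) : ℝ) : ℂ) * c n -
    (((M : ℝ) ^ (-σ) : ℝ) : ℂ) * ∑ n ∈ Ioc N M, c n)
    ((((M : ℝ) ^ (-σ) : ℝ) : ℂ) * ∑ n ∈ Ioc N M, c n)
  rw [sub_add_cancel, norm_mul, Complex.norm_real, Real.norm_of_nonneg h3] at h5
  nlinarith [mul_le_mul_of_nonneg_left h2 h3, mul_nonneg hB0 h4]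

end Pool.Agent.MP_c853c5_nt.Z

end

section

set_option autoImplicit false

open Finset Filter Metric

namespace Pool.Agent.MP_c853c5_nt.Z

lemma mem_ball_Loc (c z : ℂ) (r a : ℝ) (hr : 0 < r) :
    c + r * z ∈ closedBall c (a * r) ↔ z ∈ closedBall (0 : ℂ) a := by
  rw [mem_closedBall, mem_closedBall, dist_eq_norm, dist_zero_right, add_sub_cancel_left,
    norm_mul, Complex.norm_real, Real.norm_of_nonneg hr.le, mul_comm r]
  exact mul_le_mul_iff_left₀ hr

lemma mem_sphere_Loc (c z : ℂ) (r a : ℝ) (hr : 0 < r) (hz : z ∈ sphere (0 : ℂ) a) :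
    c + r * z ∈ sphere c (a * r) := by
  rw [mem_sphere, dist_zero_right] at hz
  rw [mem_sphere, dist_eq_norm, add_sub_cancel_left,
    norm_mul, Complex.norm_real, Real.norm_of_nonneg hr.le, mul_comm r, hz]

theorem loc : LocStmt := by
  classical
  intro f c r M hr hM hf hc hb h1
  have hr0 : (r : ℂ) ≠ 0 := by exact_mod_cast hr.ne'
  set φ : ℂ → ℂ := fun z => c + r * z with hφ
  have hφa : ∀ z, AnalyticAt ℂ φ z := fun z => by rw [hφ]; fun_prop
  have hφd : ∀ z, HasDerivAt φ r z := fun z => by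
    have := ((hasDerivAt_id z).const_mul (r : ℂ)).const_add c
    rw [mul_one] at this
    exact this
  have hφ0 : φ 0 = c := by simp [hφ]
  have hg : AnalyticOnNhd ℂ (f ∘ φ) (closedBall 0 (19 / 10)) := fun z hz =>
    AnalyticAt.comp (g := f) (f := φ) (hf _ ((mem_ball_Loc c z r _ hr).mpr hz)) (hφa z)
  have hg0 : (f ∘ φ) 0 = f c := by simp [hφ0]
  obtain ⟨Z, hZ, hZ1, -, hZ2⟩ := local_structure (f ∘ φ) 0 M hM hg (by rw [hg0]; exact hc)
    (fun z hz => by rw [hg0]; exact hb _ (mem_sphere_Loc c z r _ hr hz)) (by rw [hg0]; exact h1)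
  have hinj : Function.Injective φ := fun z w h => by
    have : (r : ℂ) * z = r * w := add_left_cancel h
    exact mul_left_cancel₀ hr0 this
  have hord : ∀ z, analyticOrderAt (f ∘ φ) z = analyticOrderAt f (φ z) := fun z =>
    analyticOrderAt_comp_of_deriv_ne_zero (hφa z) (by rw [(hφd z).deriv]; exact hr0)
  refine ⟨Z.image φ, fun z => ?_, fun ρ hρ => ?_, ?_⟩
  · constructor
    · intro hz
      obtain ⟨w, hw, rfl⟩ := mem_image.mp hz
      obtain ⟨h2, h3⟩ := (hZ w).mp hw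
      exact ⟨(mem_ball_Loc c w r _ hr).mpr h2, h3⟩
    · rintro ⟨h2, h3⟩
      have hz : φ ((z - c) / r) = z := by
        rw [hφ]
        field_simp
        ring
      refine mem_image.mpr ⟨(z - c) / r, (hZ _).mpr ⟨?_, ?_⟩, hz⟩
      · refine (mem_ball_Loc c _ r _ hr).mp ?_
        have : c + r * ((z - c) / r) = z := hz
        rw [this]
        exact h2
      · simp only [Function.comp_apply, hz, h3]
  · obtain ⟨w, hw, rfl⟩ := mem_image.mp hρ
    rw [← hord]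
    exact hZ1 w hw
  · have h2 := hZ2 0 (mem_closedBall_self (by norm_num)) (by rw [hg0]; exact hc)
    have hfc : DifferentiableAt ℂ f (φ 0) := by
      rw [hφ0]
      exact (hf c (mem_closedBall_self (by positivity))).differentiableAt
    rw [logDeriv_comp hfc (hφd 0).differentiableAt, (hφd 0).deriv, hφ0] at h2
    rw [sum_image fun a _ b _ h => hinj h]
    have h3 : logDeriv f c - ∑ ρ ∈ Z, ((analyticOrderAt f (φ ρ)).toNat : ℂ) / (c - φ ρ) =
        (logDeriv f c * r - ∑ ρ ∈ Z, ((analyticOrderAt (f ∘ φ) ρ).toNat : ℂ) / (0 - ρ)) / r := by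
      rw [sub_div, mul_div_cancel_right₀ _ hr0, sum_div]
      congr 1
      refine sum_congr rfl fun ρ _ => ?_
      rw [hord, div_div]
      congr 1
      rw [hφ]
      ring
    rw [h3, norm_div, Complex.norm_real, Real.norm_of_nonneg hr.le]
    exact div_le_div_of_nonneg_right h2 hr.le

end Pool.Agent.MP_c853c5_nt.Z

end

section

set_option autoImplicit false

open Finset Real

namespace Pool.Agent.MP_c853c5_nt.Z

/-- real parts of Dirichlet series with real coefficients -/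
theorem re_T341 {F : ℕ → ℂ} (f : ℕ → ℝ) (hf : ∀ n, F n = f n) {σ τ : ℝ}
    (hs : LSeriesSummable F ((σ : ℂ) + τ * Complex.I)) :
    HasSum (fun n : ℕ => f (n + 1) * exp (-(σ * log (n + 1))) * cos (τ * log (n + 1)))
      (LSeries F ((σ : ℂ) + τ * Complex.I)).re := by
  have h1 := Complex.hasSum_re ((hasSum_nat_add_iff' 1).2 hs.hasSum)
  simp only [sum_range_one, LSeries.term_zero, sub_zero] at h1
  refine h1.congr_fun fun n => Eq.symm ?_
  have h0 : (0 : ℝ) < n + 1 := by positivity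
  have e : ((n + 1 : ℕ) : ℂ) = ((n + 1 : ℝ) : ℂ) := by push_cast; rfl
  rw [LSeries.term_of_ne_zero n.succ_ne_zero, hf, e, div_eq_mul_inv (f (n + 1) : ℂ),
    Complex.cpow_def_of_ne_zero (Complex.ofReal_ne_zero.2 h0.ne'), ← Complex.exp_neg,
    ← Complex.ofReal_log h0.le, Complex.re_ofReal_mul, Complex.exp_re]
  have e1 : (-((log (n + 1) : ℝ) * ((σ : ℂ) + τ * Complex.I))).re = -(σ * log (n + 1)) := by
    simp only [Complex.neg_re, Complex.re_ofReal_mul, Complex.add_re, Complex.ofReal_re,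
      Complex.I_re]
    ring
  have e2 : (-((log (n + 1) : ℝ) * ((σ : ℂ) + τ * Complex.I))).im = -(τ * log (n + 1)) := by
    simp only [Complex.neg_im, Complex.im_ofReal_mul, Complex.add_im, Complex.ofReal_im,
      Complex.I_im]
    ring
  rw [e1, e2, cos_neg, mul_assoc]

theorem one_T341 (σ t : ℝ) (hσ : 1 < σ) : 0 ≤ (-3 * logDeriv riemannZeta σ -
    4 * logDeriv riemannZeta (σ + t * Complex.I) -
      logDeriv riemannZeta (σ + (2 * t : ℝ) * Complex.I)).re := by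
  have h1 : ∀ τ : ℝ, 1 < ((σ : ℂ) + τ * Complex.I).re := fun τ => by simpa using hσ
  have hS := fun τ : ℝ => re_T341 ArithmeticFunction.vonMangoldt (fun _ => rfl)
    (ArithmeticFunction.LSeriesSummable_vonMangoldt (h1 τ))
  have h2 := ((((hS 0).mul_left 3).add ((hS t).mul_left 4)).add (hS (2 * t))).nonneg fun n => by
    have h3 : 0 ≤ ArithmeticFunction.vonMangoldt (n + 1) * exp (-(σ * log (n + 1))) :=
      mul_nonneg ArithmeticFunction.vonMangoldt_nonneg (exp_pos _).le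
    refine le_of_le_of_eq (mul_nonneg h3 (mul_nonneg zero_le_two
      (sq_nonneg (1 + cos (t * log (n + 1)))))) ?_
    rw [zero_mul, cos_zero, mul_assoc 2 t, cos_two_mul]
    ring
  rw [LS_eq (h1 0), LS_eq (h1 t), LS_eq (h1 (2 * t)), Complex.ofReal_zero, zero_mul,
    add_zero] at h2
  refine h2.trans_eq ?_
  simp only [Complex.sub_re, Complex.neg_re, Complex.mul_re, Complex.re_ofNat, Complex.im_ofNat,
    Complex.neg_im]
  ring

theorem two_T341 : ∃ C : ℝ, 0 ≤ C ∧ ∀ σ : ℝ, 1 < σ → σ ≤ 2 →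
    (-logDeriv riemannZeta σ).re ≤ 1 / (σ - 1) + C := by
  have h0 : ∀ x : ℝ, 1 ≤ x → riemannZeta₁ x ≠ 0 := fun x hx h => by
    have := re_lt_one h
    rw [Complex.ofReal_re] at this
    linarith
  have hc : ContinuousOn (fun x : ℝ => logDeriv riemannZeta₁ x) (Set.Icc 1 2) := by
    simp only [logDeriv_apply]
    refine ContinuousOn.div ?_ ?_ fun x hx => h0 x hx.1
    · exact (differentiable_riemannZeta₁.deriv.continuous.comp
        Complex.continuous_ofReal).continuousOn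
    · exact (differentiable_riemannZeta₁.continuous.comp Complex.continuous_ofReal).continuousOn
  obtain ⟨C, hC⟩ := isCompact_Icc.exists_bound_of_continuousOn hc
  refine ⟨C, (norm_nonneg _).trans (hC 1 ⟨le_rfl, one_le_two⟩), fun σ h1 h2 => ?_⟩
  have h3 := logDeriv_zeta1 (s := σ) (by exact_mod_cast h1.ne') (h0 σ h1.le)
  have h4 : -logDeriv riemannZeta σ = ((1 / (σ - 1) : ℝ) : ℂ) + -logDeriv riemannZeta₁ σ := by
    rw [h3]
    push_cast
    ring
  rw [h4, Complex.add_re, Complex.ofReal_re]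
  have h5 := Complex.re_le_norm (-logDeriv riemannZeta₁ σ)
  rw [norm_neg] at h5
  linarith [hC σ ⟨h1.le, h2⟩]

theorem three_T341 (s : ℂ) (h1 : 1 < s.re) (h2 : s.re ≤ 2) :
    (s.re - 1) / 2 ≤ ‖riemannZeta s‖ := by
  have a1 := ZetaAsymptotics.zeta_limit_aux1 h1
  have a2 : 0 ≤ ZetaAsymptotics.termTSum s.re :=
    tsum_nonneg fun n => ZetaAsymptotics.term_nonneg _ _
  have a3 : Summable fun n : ℕ => 1 / (n + 1 : ℝ) ^ s.re := by
    simpa using (summable_nat_add_iff 1).2 (summable_one_div_nat_rpow.2 h1)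
  have a4 := (hasSum_nat_add_iff' 1).2
    (ArithmeticFunction.LSeriesSummable_moebius_iff.2 h1).hasSum
  simp only [sum_range_one, LSeries.term_zero, sub_zero] at a4
  have a5 := a4.norm_le_of_bounded a3.hasSum fun n => by
    rw [LSeries.norm_term_eq, if_neg n.succ_ne_zero, Complex.norm_intCast]
    push_cast
    gcongr
    exact_mod_cast ArithmeticFunction.abs_moebius_le_one
  have a6 := congrArg norm (ArithmeticFunction.LSeries_zeta_mul_Lseries_moebius h1)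
  rw [ArithmeticFunction.LSeries_zeta_eq_riemannZeta h1, norm_mul, norm_one] at a6
  have a7 : 0 < s.re - 1 := by linarith
  have a8 : ‖LSeries (fun n => (ArithmeticFunction.moebius n : ℂ)) s‖ ≤ 1 + 1 / (s.re - 1) :=
    a5.trans (by nlinarith)
  have a9 := mul_le_mul_of_nonneg_left a8 (norm_nonneg (riemannZeta s))
  have a10 := mul_le_mul_of_nonneg_left a9 a7.le
  rw [a6, mul_left_comm, mul_add, mul_one_div_cancel a7.ne'] at a10
  nlinarith [norm_nonneg (riemannZeta s)]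

theorem t341 : T341Stmt := ⟨one_T341, two_T341, three_T341⟩

end Pool.Agent.MP_c853c5_nt.Z

end

section

set_option autoImplicit false

open Finset Filter

namespace Pool.Agent.MP_c853c5_nt.Z

/-- zeros of bounded height stay away from the line of real part one -/
lemma low_ZF (t₀ : ℝ) : ∃ b : ℝ, b < 1 ∧ ∀ ρ : ℂ, riemannZeta₁ ρ = 0 → |ρ.im| ≤ t₀ → ρ.re ≤ b := by
  set K : Set ℂ := Metric.closedBall 0 (1 + |t₀|) ∩ riemannZeta₁ ⁻¹' {0} with hK
  have hc : IsCompact K :=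
    (isCompact_closedBall _ _).inter_right
      (isClosed_singleton.preimage differentiable_riemannZeta₁.continuous)
  have hmem : ∀ ρ : ℂ, riemannZeta₁ ρ = 0 → |ρ.im| ≤ t₀ → 0 ≤ ρ.re → ρ ∈ K := by
    intro ρ h0 h1 h2
    refine ⟨?_, h0⟩
    rw [mem_closedBall_zero_iff]
    have h3 := Complex.norm_le_abs_re_add_abs_im ρ
    have h4 := re_lt_one h0
    rw [abs_of_nonneg h2] at h3
    linarith [le_abs_self t₀]
  rcases K.eq_empty_or_nonempty with he | hne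
  · refine ⟨0, one_pos, fun ρ h0 h1 => ?_⟩
    by_contra h2
    have := hmem ρ h0 h1 (not_le.mp h2).le
    rw [he] at this
    exact this
  · obtain ⟨z, hz, hmax⟩ := hc.exists_isMaxOn hne Complex.continuous_re.continuousOn
    refine ⟨max z.re 0, max_lt (re_lt_one hz.2) one_pos, fun ρ h0 h1 => ?_⟩
    rcases le_total 0 ρ.re with h2 | h2
    · exact le_max_of_le_left (hmax (hmem ρ h0 h1 h2))
    · exact le_max_of_le_right h2

theorem zf (h0 : ZF0Stmt) : ZFStmt := by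
  obtain ⟨t₀, ht₀, h⟩ := h0
  obtain ⟨b, hb, hlow⟩ := low_ZF t₀
  have ht : Tendsto (fun T : ℝ => Real.log T ^ (-(39 / 40) : ℝ)) atTop (nhds 0) :=
    (tendsto_rpow_neg_atTop (by norm_num : (0 : ℝ) < 39 / 40)).comp Real.tendsto_log_atTop
  obtain ⟨T₁, hT₁⟩ := eventually_atTop.1 (ht.eventually (ge_mem_nhds (sub_pos.2 hb)))
  refine ⟨max T₁ 3, le_max_right _ _, fun T hT ρ hρ him => ?_⟩
  rcases le_total |ρ.im| t₀ with h1 | h1
  · have := hT₁ T ((le_max_left _ _).trans hT)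
    linarith [hlow ρ hρ h1]
  · have h2 := h ρ (zeta_of_zeta1 hρ) h1
    have h3 : 0 < Real.log |ρ.im| := Real.log_pos (by linarith)
    have h4 : Real.log |ρ.im| ≤ Real.log T := Real.log_le_log (by linarith) him
    have h5 := Real.rpow_le_rpow_of_nonpos h3 h4 (by norm_num : (-(39 / 40) : ℝ) ≤ 0)
    linarith

end Pool.Agent.MP_c853c5_nt.Z

end

section

set_option autoImplicit false

open Finset Filter Metric

namespace Pool.Agent.MP_c853c5_nt.Z

lemma bound_LocZ (hM : EMStmt) (z : ℂ) (B : ℝ) (hB : 3 ≤ B) (h1 : 1 / 10 ≤ z.re)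
    (h2 : ‖z‖ ≤ B + 1) : ‖riemannZeta₁ z‖ ≤ 100 * B ^ 2 := by
  by_cases hz : z = 1
  · subst hz
    simp only [riemannZeta₁_one, norm_one]
    nlinarith
  have h3 := hM z 1 (by linarith) hz le_rfl
  simp only [Icc_self, sum_singleton, Nat.cast_one, Complex.one_cpow, Real.one_rpow,
    mul_one] at h3
  have hz1 : z - 1 ≠ 0 := sub_ne_zero.mpr hz
  have h4 : riemannZeta₁ z = (z - 1) * (riemannZeta z - 1 - 1 / (z - 1)) + z := by
    rw [zeta1_eq hz]
    field_simp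
    ring
  have h5 : ‖z‖ / z.re ≤ 10 * (B + 1) := by
    rw [div_le_iff₀ (by linarith)]
    nlinarith [norm_nonneg z]
  have h6 : ‖z - 1‖ ≤ B + 2 := by
    refine (norm_sub_le _ _).trans ?_
    rw [norm_one]
    linarith
  rw [h4]
  refine (norm_add_le _ _).trans ?_
  rw [norm_mul]
  have h7 : ‖z - 1‖ * ‖riemannZeta z - 1 - 1 / (z - 1)‖ ≤ (B + 2) * (10 * (B + 1)) :=
    mul_le_mul h6 (h3.trans h5) (norm_nonneg _) (by linarith)
  nlinarith

theorem locZ (hM : EMStmt) (hT : T341Stmt) : LocZStmt := by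
  refine ⟨240000, by norm_num, fun t => ?_⟩
  set c : ℂ := (2 : ℂ) + t * Complex.I with hc
  set B : ℝ := |t| + 3 with hB
  have hB3 : 3 ≤ B := by have := abs_nonneg t; linarith
  have hcre : c.re = 2 := by simp [hc]
  have hc1 : c ≠ 1 := fun h => by rw [h] at hcre; norm_num at hcre
  have hcn : ‖c‖ ≤ |t| + 2 := by
    refine (norm_add_le _ _).trans ?_
    simp only [norm_mul, Complex.norm_real, Complex.norm_I, Real.norm_eq_abs, Complex.norm_ofNat]
    linarith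
  have hlow : 1 / 2 ≤ ‖riemannZeta₁ c‖ := by
    have h1 := hT.2.2 c (by rw [hcre]; norm_num) (by rw [hcre])
    have h2 : 1 ≤ ‖c - 1‖ := by
      have := Complex.re_le_norm (c - 1)
      rw [Complex.sub_re, hcre, Complex.one_re] at this
      linarith
    rw [zeta1_eq hc1, norm_mul]
    rw [hcre] at h1
    nlinarith
  have hl3 : 1 ≤ Real.log B := by
    rw [Real.le_log_iff_exp_le (by linarith)]
    have := Real.exp_one_lt_d9
    linarith
  have hexp : 200 * B ^ 2 ≤ Real.exp (8 * Real.log B) := by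
    have h1 : Real.exp (8 * Real.log B) = B ^ 8 := by
      rw [show (8 : ℝ) * Real.log B = Real.log (B ^ 8) by rw [Real.log_pow]; norm_num,
        Real.exp_log (by positivity)]
    rw [h1]
    have h2 : (3 : ℝ) ^ 6 ≤ B ^ 6 := pow_le_pow_left₀ (by norm_num) hB3 6
    have h3 : B ^ 8 = B ^ 6 * B ^ 2 := by ring
    rw [h3]
    exact mul_le_mul_of_nonneg_right (by linarith [show (3 : ℝ) ^ 6 = 729 by norm_num])
      (by positivity)
  have hup : 100 * B ^ 2 ≤ Real.exp (8 * Real.log B) * ‖riemannZeta₁ c‖ := by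
    have : 200 * B ^ 2 * (1 / 2) ≤ Real.exp (8 * Real.log B) * ‖riemannZeta₁ c‖ :=
      mul_le_mul hexp hlow (by norm_num) (Real.exp_pos _).le
    linarith
  obtain ⟨Z, hZ, hZ1, hZ2, hZ3⟩ := local_structure riemannZeta₁ c (8 * Real.log B) (by linarith)
    (fun z _ => differentiable_riemannZeta₁.analyticAt z)
    (fun h => by rw [h, norm_zero] at hlow; norm_num at hlow)
    (fun z hz => by
      refine le_trans (bound_LocZ hM z B hB3 ?_ ?_) hup
      · rw [mem_sphere, dist_eq_norm] at hz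
        have := Complex.abs_re_le_norm (z - c)
        rw [hz, Complex.sub_re, hcre, abs_le] at this
        linarith [this.1]
      · rw [mem_sphere, dist_eq_norm] at hz
        have : ‖z‖ ≤ ‖z - c‖ + ‖c‖ := by simpa using norm_add_le (z - c) c
        linarith)
    (by nlinarith)
  refine ⟨Z, hZ, fun ρ hρ => ?_, ?_, fun z hz h0 => ?_⟩
  · unfold ord
    exact_mod_cast hZ1 ρ hρ
  · unfold ord
    linarith
  · have := hZ3 z hz h0
    unfold ord
    push_cast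
    linarith

end Pool.Agent.MP_c853c5_nt.Z

end

section

set_option autoImplicit false

open Finset Filter

namespace Pool.Agent.MP_c853c5_nt.Z

theorem cntS (hL : LocZStmt) : CntStmt := by
  classical
  obtain ⟨C, hC, h⟩ := hL
  refine ⟨C, hC, fun j Z hZ => ?_⟩
  obtain ⟨Z₀, hm, -, hs, -⟩ := h ((j : ℝ) + 1 / 2)
  have h1 : ∑ ρ ∈ Z, ord ρ = ∑ ρ ∈ Z.filter (fun ρ => riemannZeta₁ ρ = 0), ord ρ := by
    rw [sum_filter]
    refine sum_congr rfl fun ρ _ => ?_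
    split_ifs with h0
    · rfl
    · exact ord_eq_zero h0
  have h2 : Z.filter (fun ρ => riemannZeta₁ ρ = 0) ⊆ Z₀ := by
    intro ρ hρ
    rw [mem_filter] at hρ
    obtain ⟨a1, a2⟩ := hZ ρ hρ.1
    have a3 := re_lt_one hρ.2
    have a4 := Int.floor_le ρ.im
    have a5 := Int.lt_floor_add_one ρ.im
    rw [a2] at a4 a5
    refine (hm ρ).2 ⟨?_, hρ.2⟩
    rw [Metric.mem_closedBall, Complex.dist_eq, ← sq_le_sq₀ (norm_nonneg _) (by norm_num),
      Complex.sq_norm, Complex.normSq_apply]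
    simp only [Complex.sub_re, Complex.sub_im, Complex.add_re, Complex.add_im, Complex.mul_re,
      Complex.mul_im, Complex.ofReal_re, Complex.ofReal_im, Complex.I_re, Complex.I_im,
      Complex.re_ofNat, Complex.im_ofNat]
    nlinarith
  rw [h1]
  refine (sum_le_sum_of_subset_of_nonneg h2 fun ρ _ _ => ord_nonneg ρ).trans (hs.trans ?_)
  apply mul_le_mul_of_nonneg_left _ (by linarith)
  apply Real.log_le_log (by positivity)
  have := abs_add_le (j : ℝ) (1 / 2)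
  rw [abs_of_pos (by norm_num : (0 : ℝ) < 1 / 2)] at this
  linarith

end Pool.Agent.MP_c853c5_nt.Z

end

section

set_option autoImplicit false

open Finset

namespace Pool.Agent.MP_c853c5_nt.Z

open Pool.Agent.MP_2a1f0e_nt (ex conj_ex ex_add)

lemma dual_Hal {ι κ : Type} (S : Finset ι) (W : Finset κ) (b : ι → ℂ) (F : κ → ι → ℂ)
    (K : κ → κ → ℝ)
    (hK : ∀ ρ ∈ W, ∀ ρ' ∈ W, ‖∑ n ∈ S, F ρ n * (starRingEnd ℂ) (F ρ' n)‖ ≤ K ρ ρ') :
    (∑ ρ ∈ W, ‖∑ n ∈ S, b n * F ρ n‖) ^ 2 ≤ (∑ n ∈ S, ‖b n‖ ^ 2) * ∑ ρ ∈ W, ∑ ρ' ∈ W, K ρ ρ' := by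
  have hc : ∀ z : ℂ, ∃ c : ℂ, ‖c‖ = 1 ∧ c * z = ‖z‖ := fun z => by
    rcases eq_or_ne z 0 with rfl | h
    · exact ⟨1, by simp⟩
    · have h0 : (‖z‖ : ℂ) ≠ 0 := by exact_mod_cast norm_ne_zero_iff.2 h
      exact ⟨‖z‖ / z, by simp [h], by field_simp⟩
  choose ξ hξ hξ' using fun ρ => hc (∑ n ∈ S, b n * F ρ n)
  have e1 : ((∑ ρ ∈ W, ‖∑ n ∈ S, b n * F ρ n‖ : ℝ) : ℂ) =
      ∑ n ∈ S, b n * ∑ ρ ∈ W, ξ ρ * F ρ n := by
    push_cast
    simp only [← hξ', mul_sum]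
    rw [sum_comm]
    exact sum_congr rfl fun n _ => sum_congr rfl fun ρ _ => by ring
  have h1 : ∑ ρ ∈ W, ‖∑ n ∈ S, b n * F ρ n‖ ≤ ∑ n ∈ S, ‖b n‖ * ‖∑ ρ ∈ W, ξ ρ * F ρ n‖ := by
    refine (le_abs_self _).trans ?_
    rw [← Real.norm_eq_abs, ← Complex.norm_real, e1]
    exact (norm_sum_le _ _).trans_eq (by simp only [norm_mul])
  have e2 : ((∑ n ∈ S, ‖∑ ρ ∈ W, ξ ρ * F ρ n‖ ^ 2 : ℝ) : ℂ) = ∑ ρ ∈ W, ∑ ρ' ∈ W,
      ξ ρ * (starRingEnd ℂ) (ξ ρ') * ∑ n ∈ S, F ρ n * (starRingEnd ℂ) (F ρ' n) := by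
    rw [Complex.ofReal_sum]
    simp only [← Complex.normSq_eq_norm_sq, ← Complex.mul_conj, map_sum, sum_mul_sum]
    simp only [mul_sum, map_mul]
    rw [sum_comm]
    refine sum_congr rfl fun ρ _ => ?_
    rw [sum_comm]
    exact sum_congr rfl fun ρ' _ => sum_congr rfl fun n _ => by ring
  have h2 : ∑ n ∈ S, ‖∑ ρ ∈ W, ξ ρ * F ρ n‖ ^ 2 ≤ ∑ ρ ∈ W, ∑ ρ' ∈ W, K ρ ρ' := by
    refine (le_abs_self _).trans ?_
    rw [← Real.norm_eq_abs, ← Complex.norm_real, e2]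
    refine (norm_sum_le _ _).trans (sum_le_sum fun ρ h => (norm_sum_le _ _).trans
      (sum_le_sum fun ρ' h' => ?_))
    rw [norm_mul, norm_mul, Complex.norm_conj, hξ, hξ, one_mul, one_mul]
    exact hK ρ h ρ' h'
  refine (pow_le_pow_left₀ (sum_nonneg fun _ _ => norm_nonneg _) h1 2).trans
    ((sum_mul_sq_le_sq_mul_sq _ _ _).trans ?_)
  exact mul_le_mul_of_nonneg_left h2 (sum_nonneg fun _ _ => sq_nonneg _)

theorem hal (hP : PSumStmt) : HalStmt := by
  intro W N a σ V κ hN hV hσ hW hκ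
  have pos : ∀ n ∈ Ioc N (2 * N), 0 < n := fun n hn => by have := (mem_Ioc.1 hn).1; omega
  have key := dual_Hal (Ioc N (2 * N)) W (fun n => a n * (((n : ℝ) ^ (-σ) : ℝ) : ℂ))
    (fun ρ n => (((n : ℝ) ^ (-(ρ.re - σ)) : ℝ) : ℂ) * (n : ℂ) ^ (((-ρ.im : ℝ) : ℂ) * Complex.I))
    (fun ρ ρ' => 2 * κ ρ ρ') fun ρ h ρ' h' => by
      have s0 : 0 ≤ ρ.re - σ + (ρ'.re - σ) := by linarith [hσ ρ h, hσ ρ' h']
      have k0 : 0 ≤ κ ρ ρ' := (norm_nonneg _).trans (hκ ρ h ρ' h' N le_rfl (by omega))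
      have h1 := hP N (2 * N) (fun n => (n : ℂ) ^ (((ρ'.im - ρ.im : ℝ) : ℂ) * Complex.I)) (κ ρ ρ')
        _ hN (by omega) s0 (hκ ρ h ρ' h')
      refine le_trans (le_of_eq ?_) (h1.trans (mul_le_of_le_one_right (by positivity)
        (Real.rpow_le_one_of_one_le_of_nonpos (by exact_mod_cast hN) (by linarith))))
      congr 1
      refine sum_congr rfl fun n hn => ?_
      have n0 : (0 : ℝ) < n := by exact_mod_cast pos n hn
      rw [← Complex.ofReal_natCast, cpow_eq_ex n0, cpow_eq_ex n0, cpow_eq_ex n0, map_mul,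
        Complex.conj_ofReal, conj_ex, neg_add, Real.rpow_add n0, Complex.ofReal_mul,
        mul_mul_mul_comm, ← ex_add]
      congr 2
      ring
  refine (pow_le_pow_left₀ (by positivity) ?_ 2).trans (key.trans_eq ?_)
  · rw [← nsmul_eq_mul]
    refine card_nsmul_le_sum _ _ _ fun ρ h => (hW ρ h).trans_eq ?_
    congr 1
    refine sum_congr rfl fun n hn => ?_
    have n0 : (0 : ℝ) < n := by exact_mod_cast pos n hn
    rw [cpow_neg_split (pos n hn), mul_assoc, ← mul_assoc (((n : ℝ) ^ (-σ) : ℝ) : ℂ),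
      ← Complex.ofReal_mul, ← Real.rpow_add n0]
    congr 4
    ring
  · simp only [← mul_sum]
    congr 1
    refine sum_congr rfl fun n hn => ?_
    have n0 : (0 : ℝ) < n := by exact_mod_cast pos n hn
    rw [norm_mul, mul_pow, Complex.norm_real, Real.norm_eq_abs, sq_abs, sq ((n : ℝ) ^ (-σ)),
      ← Real.rpow_add n0]
    congr 2
    ring

end Pool.Agent.MP_c853c5_nt.Z

end

section

set_option autoImplicit false

open Finset

namespace Pool.Agent.MP_c853c5_nt.Z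

lemma mul_le_Tau (a b : ℕ) :
    ((a * b).divisors.card : ℝ) ≤ (a.divisors.card : ℝ) * (b.divisors.card : ℝ) := by
  rw [Nat.divisors_mul]
  exact_mod_cast Finset.card_mul_le

lemma step_Tau (c N : ℕ) : ∑ n ∈ Icc 1 N, (n.divisors.card : ℝ) ^ (c + 1) / n ≤
    (∑ n ∈ Icc 1 N, (n.divisors.card : ℝ) ^ c / n) ^ 2 := by
  have h1 : ∀ n ∈ Icc 1 N, (n.divisors.card : ℝ) ^ (c + 1) / n ≤
      ∑ p ∈ n.divisorsAntidiagonal,
        (p.1.divisors.card : ℝ) ^ c / p.1 * ((p.2.divisors.card : ℝ) ^ c / p.2) := by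
    intro n _
    have e : (n.divisors.card : ℝ) ^ (c + 1) / n =
        ∑ p ∈ n.divisorsAntidiagonal, (n.divisors.card : ℝ) ^ c / n := by
      rw [Nat.sum_divisorsAntidiagonal (fun _ _ => (n.divisors.card : ℝ) ^ c / n), sum_const,
        nsmul_eq_mul, pow_succ]
      ring
    rw [e]
    refine sum_le_sum fun p hp => ?_
    obtain ⟨hp1, -⟩ := Nat.mem_divisorsAntidiagonal.1 hp
    rw [← hp1, div_mul_div_comm, ← mul_pow]
    push_cast
    gcongr
    exact mul_le_Tau _ _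
  refine (sum_le_sum h1).trans ?_
  rw [← sum_biUnion, pow_two, sum_mul_sum, ← sum_product']
  · refine sum_le_sum_of_subset_of_nonneg (fun p hp => ?_) fun p _ _ => ?_
    · obtain ⟨n, hn, hp⟩ := mem_biUnion.1 hp
      obtain ⟨hp1, hn0⟩ := Nat.mem_divisorsAntidiagonal.1 hp
      rw [mem_Icc] at hn
      have ha : 0 < p.1 := Nat.pos_of_ne_zero fun h => hn0 (by rw [← hp1, h, zero_mul])
      have hb : 0 < p.2 := Nat.pos_of_ne_zero fun h => hn0 (by rw [← hp1, h, mul_zero])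
      simp only [mem_product, mem_Icc]
      refine ⟨⟨ha, ?_⟩, hb, ?_⟩ <;> nlinarith [hn.2]
    · positivity
  · intro n _ n' _ hne
    refine disjoint_left.2 fun p hp hp' => hne ?_
    rw [← (Nat.mem_divisorsAntidiagonal.1 hp).1, (Nat.mem_divisorsAntidiagonal.1 hp').1]

lemma div_Tau (c N : ℕ) :
    ∑ n ∈ Icc 1 N, (n.divisors.card : ℝ) ^ c / n ≤ (1 + Real.log N) ^ 2 ^ c := by
  induction c with
  | zero =>
    have := harmonic_le_one_add_log N
    rw [harmonic_eq_sum_Icc] at this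
    simpa using this
  | succ c ih =>
    refine (step_Tau c N).trans ?_
    rw [pow_succ 2 c, pow_mul]
    exact pow_le_pow_left₀ (sum_nonneg fun n _ => by positivity) ih 2

theorem tau : TauStmt := by
  intro N
  have h := div_Tau 2 N
  rw [show (2 : ℕ) ^ 2 = 4 from rfl] at h
  refine le_trans ?_ (mul_le_mul_of_nonneg_left h (Nat.cast_nonneg N))
  rw [mul_sum]
  refine sum_le_sum fun n hn => ?_
  rw [mem_Icc] at hn
  have h0 : (0 : ℝ) < n := by exact_mod_cast hn.1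
  have h1 : (n : ℝ) ≤ N := by exact_mod_cast hn.2
  have h2 : 0 ≤ (n.divisors.card : ℝ) ^ 2 := by positivity
  rw [← mul_div_assoc, le_div_iff₀ h0]
  nlinarith

end Pool.Agent.MP_c853c5_nt.Z

end

section

set_option autoImplicit false

open Finset Filter

namespace Pool.Agent.MP_c853c5_nt.Z

lemma half_Sep (W : Finset ℂ) (f : ℂ → ℝ) {V : ℝ} (hV : 0 ≤ V) (h0 : ∀ ρ ∈ W, 0 ≤ f ρ)
    (h1 : ∀ ρ ∈ W, f ρ ≤ V) (h2 : ∀ ρ ∈ W, ∀ ρ' ∈ W, ρ ≠ ρ' → 1 ≤ |f ρ - f ρ'|) :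
    ∑ ρ ∈ W, 1 / (1 + f ρ) ≤ 1 + Real.log (V + 1) := by
  have hi : Set.InjOn (fun ρ => ⌊f ρ⌋₊) W := fun ρ hρ ρ' hρ' e => by
    by_contra hne
    have h3 := h2 ρ hρ ρ' hρ' hne
    have h4 := Nat.floor_le (h0 ρ hρ)
    have h5 := Nat.floor_le (h0 ρ' hρ')
    have h6 := Nat.lt_floor_add_one (f ρ)
    have h7 := Nat.lt_floor_add_one (f ρ')
    have h8 : (⌊f ρ⌋₊ : ℝ) = ⌊f ρ'⌋₊ := congrArg Nat.cast e
    exact h3.not_gt (abs_lt.2 ⟨by linarith, by linarith⟩)
  calc ∑ ρ ∈ W, 1 / (1 + f ρ) ≤ ∑ ρ ∈ W, (((⌊f ρ⌋₊ + 1 : ℕ) : ℝ))⁻¹ := by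
        refine sum_le_sum fun ρ hρ => ?_
        rw [one_div]
        refine inv_anti₀ (by positivity) ?_
        push_cast
        linarith [Nat.floor_le (h0 ρ hρ)]
    _ = ∑ i ∈ W.image fun ρ => ⌊f ρ⌋₊, (((i + 1 : ℕ) : ℝ))⁻¹ :=
        (sum_image (f := fun i : ℕ => (((i + 1 : ℕ) : ℝ))⁻¹) hi).symm
    _ ≤ ∑ i ∈ range (⌊V⌋₊ + 1), (((i + 1 : ℕ) : ℝ))⁻¹ := by
        refine sum_le_sum_of_subset_of_nonneg (fun i hi => ?_) fun _ _ _ => by positivity
        obtain ⟨ρ, hρ, rfl⟩ := mem_image.1 hi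
        exact mem_range.2 (Nat.lt_succ_of_le (Nat.floor_mono (h1 ρ hρ)))
    _ = (harmonic (⌊V⌋₊ + 1) : ℝ) := by
        rw [harmonic]
        push_cast
        rfl
    _ ≤ 1 + Real.log ((⌊V⌋₊ + 1 : ℕ) : ℝ) := harmonic_le_one_add_log _
    _ ≤ _ := by
        push_cast
        gcongr
        exact Nat.floor_le hV

theorem sep : SepStmt := by
  intro W c V hW hV h
  rw [← sum_filter_add_sum_filter_not W fun ρ => c ≤ ρ.im]
  have h1 := half_Sep (W.filter fun ρ => c ≤ ρ.im) (fun ρ => |ρ.im - c|) hV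
    (fun _ _ => abs_nonneg _) (fun ρ hρ => h ρ (mem_filter.1 hρ).1) fun ρ hρ ρ' hρ' hne => by
      rw [abs_of_nonneg (sub_nonneg.2 (mem_filter.1 hρ).2),
        abs_of_nonneg (sub_nonneg.2 (mem_filter.1 hρ').2), sub_sub_sub_cancel_right]
      exact hW ρ (mem_filter.1 hρ).1 ρ' (mem_filter.1 hρ').1 hne
  have h2 := half_Sep (W.filter fun ρ => ¬ c ≤ ρ.im) (fun ρ => |ρ.im - c|) hV
    (fun _ _ => abs_nonneg _) (fun ρ hρ => h ρ (mem_filter.1 hρ).1) fun ρ hρ ρ' hρ' hne => by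
      rw [abs_of_neg (sub_neg.2 (not_le.1 (mem_filter.1 hρ).2)),
        abs_of_neg (sub_neg.2 (not_le.1 (mem_filter.1 hρ').2)), ← neg_sub', abs_neg,
        sub_sub_sub_cancel_right]
      exact hW ρ (mem_filter.1 hρ).1 ρ' (mem_filter.1 hρ').1 hne
  linarith

end Pool.Agent.MP_c853c5_nt.Z

end

section

/-! From well spaced sets to arbitrary finite sets. -/

set_option autoImplicit false

open Finset

namespace Pool.Agent.MP_c853c5_nt.Z

theorem half_Space (Z : Finset ℂ) (R : ℝ) (h : ∀ W : Finset ℂ, W ⊆ Z → Sep W → (W.card : ℝ) ≤ R)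
    (J : Finset ℤ) (hJ : ∀ j ∈ J, ∃ ρ ∈ Z, ⌊ρ.im⌋ = j)
    (h2 : ∀ j ∈ J, ∀ j' ∈ J, j % 2 = j' % 2) : (J.card : ℝ) ≤ R := by
  classical
  choose! r h3 h4 using hJ
  rw [← card_image_of_injOn (f := r) fun j hj j' hj' e => by rw [← h4 j hj, ← h4 j' hj', e]]
  refine h _ (image_subset_iff.2 h3) fun ρ hρ ρ' hρ' hne => ?_
  obtain ⟨j, hj, rfl⟩ := mem_image.1 hρ
  obtain ⟨j', hj', rfl⟩ := mem_image.1 hρ'
  have a1 := Int.floor_le (r j).im
  have a2 := Int.lt_floor_add_one (r j).im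
  have a3 := Int.floor_le (r j').im
  have a4 := Int.lt_floor_add_one (r j').im
  rw [h4 j hj] at a1 a2
  rw [h4 j' hj'] at a3 a4
  have a5 := h2 j hj j' hj'
  have a6 : j ≠ j' := fun e => hne (by rw [e])
  have a7 : j + 2 ≤ j' ∨ j' + 2 ≤ j := by omega
  rw [le_abs]
  rcases a7 with e | e
  · have : (j : ℝ) + 2 ≤ j' := by exact_mod_cast e
    exact Or.inr (by linarith)
  · have : (j' : ℝ) + 2 ≤ j := by exact_mod_cast e
    exact Or.inl (by linarith)

theorem space : SpaceStmt := by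
  intro Z m R μ hμ h hm
  have h0 : ∀ j ∈ Z.image fun ρ => ⌊ρ.im⌋, ∃ ρ ∈ Z, ⌊ρ.im⌋ = j := fun j hj => mem_image.1 hj
  have h1 := half_Space Z R h ((Z.image fun ρ => ⌊ρ.im⌋).filter fun j => j % 2 = 0)
    (fun j hj => h0 j (mem_filter.1 hj).1) fun j hj j' hj' => by
      rw [(mem_filter.1 hj).2, (mem_filter.1 hj').2]
  have h2 := half_Space Z R h ((Z.image fun ρ => ⌊ρ.im⌋).filter fun j => ¬j % 2 = 0)
    (fun j hj => h0 j (mem_filter.1 hj).1) fun j hj j' hj' => by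
      have := (mem_filter.1 hj).2
      have := (mem_filter.1 hj').2
      omega
  have h3 : (((Z.image fun ρ => ⌊ρ.im⌋).card : ℕ) : ℝ) ≤ 2 * R := by
    rw [← card_filter_add_card_filter_not fun j => j % 2 = 0, Nat.cast_add]
    linarith
  rw [← sum_fiberwise_of_maps_to (g := fun ρ : ℂ => ⌊ρ.im⌋) fun ρ hρ =>
    mem_image_of_mem (fun ρ : ℂ => ⌊ρ.im⌋) hρ]
  refine (sum_le_card_nsmul _ _ μ fun j _ => hm j).trans ?_
  rw [nsmul_eq_mul]
  exact mul_le_mul_of_nonneg_right h3 hμ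

end Pool.Agent.MP_c853c5_nt.Z

end

section

set_option autoImplicit false

open Finset

namespace Pool.Agent.MP_c853c5_nt.Z

lemma dya_ND1 (X I : ℕ) (f : ℕ → ℂ) : ∑ k ∈ Ioc X (2 ^ I * X), f k =
    ∑ i ∈ range I, ∑ k ∈ Ioc (2 ^ i * X) (2 * (2 ^ i * X)), f k := by
  induction I with
  | zero => simp
  | succ I ih =>
    rw [sum_range_succ, ← ih, sum_Ioc_consecutive _ (Nat.le_mul_of_pos_left _ (by positivity))
      (by omega), pow_succ', mul_assoc]

lemma ex_ND1 {U : ℝ} (hU : 256 ≤ U) :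
    ∃ X : ℕ, 2 ≤ X ∧ U ≤ (X : ℝ) ^ 8 ∧ (X : ℝ) ^ 8 ≤ 256 * U ∧ (X : ℝ) ^ 4 ≤ U := by
  have e : (U ^ ((8 : ℕ) : ℝ)⁻¹) ^ 8 = U := Real.rpow_inv_natCast_pow (by linarith) (by norm_num)
  have r0 : 0 ≤ U ^ ((8 : ℕ) : ℝ)⁻¹ := Real.rpow_nonneg (by linarith) _
  generalize U ^ ((8 : ℕ) : ℝ)⁻¹ = r at e r0
  have r2 : 2 ≤ r := le_of_pow_le_pow_left₀ (n := 8) (by norm_num) r0 (by rw [e]; linarith)
  have c1 := Nat.le_ceil r
  have c2 := Nat.ceil_lt_add_one r0
  have c3 : (⌈r⌉₊ : ℝ) ^ 8 ≤ 256 * U := by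
    have := pow_le_pow_left₀ (Nat.cast_nonneg _) (by linarith : (⌈r⌉₊ : ℝ) ≤ 2 * r) 8
    rw [mul_pow, e] at this
    linarith
  refine ⟨⌈r⌉₊, by exact_mod_cast r2.trans c1, e ▸ pow_le_pow_left₀ r0 c1 8, c3, ?_⟩
  refine le_of_pow_le_pow_left₀ (n := 2) (by norm_num) (by linarith) ?_
  rw [← pow_mul, sq]
  exact c3.trans (mul_le_mul_of_nonneg_right hU (by linarith))

theorem nd1 (hM : MolStmt) (hB : BlkStmt) : ND1Stmt := by
  classical
  obtain ⟨η₁, U₁, e1, hM⟩ := hM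
  obtain ⟨η₂, C, U₂, e2, hC, -, hB⟩ := hB
  refine ⟨min η₁ η₂, 2 * C, max (max U₁ U₂) 256, lt_min e1 e2, by positivity,
    le_max_of_le_right (by norm_num), fun U σ W hU h1 h2 hS hW => ?_⟩
  have u0 : 256 ≤ U := (le_max_right _ _).trans hU
  have u1 : U₁ ≤ U := ((le_max_left _ _).trans (le_max_left _ _)).trans hU
  have u2 : U₂ ≤ U := ((le_max_right _ _).trans (le_max_left _ _)).trans hU
  have s1 : 1 - η₁ ≤ σ := by linarith [min_le_left η₁ η₂]
  have s2 : 1 - η₂ ≤ σ := by linarith [min_le_right η₁ η₂]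
  obtain ⟨X, x2, x3, x4, x5⟩ := ex_ND1 u0
  obtain ⟨a, ha, hM⟩ := hM U X u1 x3 x4
  obtain ⟨I, i1, i2⟩ : ∃ I, 2 ^ I ≤ X ∧ X < 2 ^ (I + 1) :=
    ⟨Nat.log 2 X, Nat.pow_log_le_self 2 (by omega), Nat.lt_pow_succ_log_self one_lt_two X⟩
  have l0 : 0 < Real.log U := Real.log_pos (by linarith)
  have hI : ((I + 1 : ℕ) : ℝ) ≤ 2 * Real.log U := by
    have k1 : 2 ^ (I + 1) ≤ X ^ 4 := by
      calc 2 ^ (I + 1) = 2 ^ I * 2 := pow_succ _ _
        _ ≤ X * X := Nat.mul_le_mul i1 x2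
        _ = X ^ 2 := (sq X).symm
        _ ≤ X ^ 4 := Nat.pow_le_pow_right (by omega) (by norm_num)
    have k2 : (2 : ℝ) ^ (I + 1) ≤ U := le_trans (by exact_mod_cast k1) x5
    have k3 := Real.log_le_log (by positivity) k2
    rw [Real.log_pow] at k3
    have k4 := mul_le_mul_of_nonneg_left Real.log_two_gt_d9.le (Nat.cast_nonneg (α := ℝ) (I + 1))
    have k5 : (0 : ℝ) ≤ ((I + 1 : ℕ) : ℝ) := Nat.cast_nonneg _
    linarith
  let a' : ℕ → ℂ := fun n => if n ≤ X ^ 2 then a n else 0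
  have ha' : ∀ n, ‖a' n‖ ≤ (n.divisors.card : ℝ) := fun n => by
    simp only [a']
    split_ifs
    · exact ha n
    · simp
  let V : ℕ → Finset ℂ := fun i => W.filter fun ρ => 1 / (4 * Real.log U) ≤
    ‖∑ n ∈ Ioc (2 ^ i * X) (2 * (2 ^ i * X)), a' n * (n : ℂ) ^ (-ρ)‖
  have hsub : W ⊆ (range (I + 1)).biUnion V := fun ρ hρ => by
    obtain ⟨w1, w2, w3, w4⟩ := hW ρ hρ
    have k1 := hM ρ w1 (s1.trans w2) w3 w4
    have k2 : ∑ n ∈ Ioc X (X ^ 2), a n * (n : ℂ) ^ (-ρ) =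
        ∑ n ∈ Ioc X (2 ^ (I + 1) * X), a' n * (n : ℂ) ^ (-ρ) := by
      refine sum_subset_zero_on_sdiff (Ioc_subset_Ioc_right ?_) (fun n hn => ?_) fun n hn => ?_
      · rw [sq]
        exact Nat.mul_le_mul_right _ i2.le
      · obtain ⟨n1, n2⟩ := mem_sdiff.1 hn
        simp only [a']
        rw [if_neg fun h => n2 (mem_Ioc.2 ⟨(mem_Ioc.1 n1).1, h⟩), zero_mul]
      · simp only [a']
        rw [if_pos (mem_Ioc.1 hn).2]
    rw [k2, dya_ND1] at k1
    have k3 : ∑ _i ∈ range (I + 1), 1 / (4 * Real.log U) ≤ 1 / 2 := by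
      rw [sum_const, card_range, nsmul_eq_mul, mul_one_div, div_le_iff₀ (by positivity)]
      linarith
    obtain ⟨i, hi, k4⟩ := exists_le_of_sum_le nonempty_range_add_one
      (k3.trans (k1.trans (norm_sum_le _ _)))
    exact mem_biUnion.2 ⟨i, hi, mem_filter.2 ⟨hρ, k4⟩⟩
  have hV : ∀ i ∈ range (I + 1), ((V i).card : ℝ) ≤ C * U ^ (1 - σ) * Real.log U ^ 7 := by
    intro i hi
    have n1 : X ≤ 2 ^ i * X := Nat.le_mul_of_pos_left _ (by positivity)
    have n2 : 2 ^ i * X ≤ X ^ 2 := by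
      rw [sq]
      exact Nat.mul_le_mul_right _ ((Nat.pow_le_pow_right two_pos
        (Nat.le_of_lt_succ (mem_range.1 hi))).trans i1)
    generalize hN : 2 ^ i * X = N at n1 n2
    have n3 : (N : ℝ) ^ 2 ≤ U := by
      have := Nat.pow_le_pow_left n2 2
      rw [← pow_mul] at this
      exact le_trans (by exact_mod_cast this) x5
    have n4 : (N : ℝ) ≤ U := le_trans (by exact_mod_cast Nat.le_self_pow two_ne_zero N) n3
    refine (hB U σ N a' (V i) u2 (x3.trans (by exact_mod_cast Nat.pow_le_pow_left n1 8)) n4 s2 h2 ha'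
      (fun ρ h ρ' h' => hS ρ (mem_filter.1 h).1 ρ' (mem_filter.1 h').1) fun ρ h => ?_).trans ?_
    · obtain ⟨k1, k2⟩ := mem_filter.1 h
      exact ⟨(hW ρ k1).2.1, (hW ρ k1).2.2.2, hN ▸ k2⟩
    · rw [Real.rpow_mul (Nat.cast_nonneg _), Real.rpow_two]
      have := Real.rpow_le_rpow (by positivity) n3 (sub_nonneg.2 h2)
      gcongr
  have k1 : (W.card : ℝ) ≤ ∑ i ∈ range (I + 1), ((V i).card : ℝ) := by
    exact_mod_cast (card_le_card hsub).trans card_biUnion_le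
  have k2 := k1.trans (sum_le_card_nsmul _ _ _ hV)
  rw [card_range, nsmul_eq_mul] at k2
  have k3 : 0 ≤ C * U ^ (1 - σ) * Real.log U ^ 7 := by positivity
  calc (W.card : ℝ) ≤ 2 * Real.log U * (C * U ^ (1 - σ) * Real.log U ^ 7) :=
        k2.trans (mul_le_mul_of_nonneg_right hI k3)
    _ = _ := by ring

end Pool.Agent.MP_c853c5_nt.Z

end

section

set_option autoImplicit false

open Finset

namespace Pool.Agent.MP_c853c5_nt.Z

/-- dyadic decomposition of a sum -/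
lemma dya_ND (Z : Finset ℂ) (m : ℂ → ℝ) (U B : ℝ)
    (h0 : ∀ W ⊆ Z, (∀ ρ ∈ W, |ρ.im| < U) → ∑ ρ ∈ W, m ρ ≤ B)
    (h1 : ∀ i : ℕ, ∀ W ⊆ Z, (∀ ρ ∈ W, 2 ^ i * U ≤ |ρ.im| ∧ |ρ.im| ≤ 2 * (2 ^ i * U)) →
      ∑ ρ ∈ W, m ρ ≤ B) (n : ℕ) :
    ∀ W ⊆ Z, (∀ ρ ∈ W, |ρ.im| < 2 ^ n * U) → ∑ ρ ∈ W, m ρ ≤ (n + 1) * B := by
  induction n with
  | zero => simpa using h0
  | succ n ih =>
    intro W hW h
    rw [← sum_filter_add_sum_filter_not W fun ρ => |ρ.im| < 2 ^ n * U]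
    have a1 := ih _ ((filter_subset (fun ρ => |ρ.im| < 2 ^ n * U) W).trans hW)
      fun ρ hρ => (mem_filter.1 hρ).2
    have a2 := h1 n _ ((filter_subset (fun ρ => ¬|ρ.im| < 2 ^ n * U) W).trans hW) fun ρ hρ =>
      ⟨not_lt.1 (mem_filter.1 hρ).2, by
        have := h ρ (mem_filter.1 hρ).1
        rw [pow_succ] at this
        linarith⟩
    push_cast
    linarith

theorem nd (h1 : ND1Stmt) (hS : SpaceStmt) (hC : CntStmt) : NDStmt := by
  obtain ⟨η, C1, U, hη, c1, hU, h1⟩ := h1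
  obtain ⟨C2, c2, hC⟩ := hC
  have c0 : 0 < C2 := by linarith
  refine ⟨min η (1 / 2), 12 * C2 * (2 * ⌈U⌉₊ + 1 + 2 * C1), lt_min hη (by norm_num),
    min_le_right _ _, by positivity, fun T σ Z hT s0 s1 hZ => ?_⟩
  have e1 := min_le_left η (1 / 2)
  have e2 := min_le_right η (1 / 2)
  have t0 : 0 < T := by linarith
  have l1 : 1 ≤ Real.log T := by
    rw [Real.le_log_iff_exp_le t0]
    linarith [Real.exp_one_lt_three]
  have p1 : 1 ≤ T ^ (1 - σ) := Real.one_le_rpow (by linarith) (by linarith)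
  have hμ : ∀ W ⊆ Z, ∀ j : ℤ,
      ∑ ρ ∈ W.filter (fun ρ => ⌊ρ.im⌋ = j), ord ρ ≤ 3 * C2 * Real.log T := fun W hW j => by
    rcases (W.filter fun ρ => ⌊ρ.im⌋ = j).eq_empty_or_nonempty with h | ⟨z, hz⟩
    · rw [h, sum_empty]
      positivity
    refine (hC j _ fun ρ hρ => ⟨?_, (mem_filter.1 hρ).2⟩).trans ?_
    · linarith [(hZ ρ (hW (mem_filter.1 hρ).1)).2.1]
    have a1 := abs_le.1 (hZ z (hW (mem_filter.1 hz).1)).2.2
    have a2 := Int.floor_le z.im
    have a3 := Int.lt_floor_add_one z.im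
    rw [(mem_filter.1 hz).2] at a2 a3
    have a4 : |(j : ℝ)| ≤ T + 1 := abs_le.2 ⟨by linarith [a1.1], by linarith [a1.2]⟩
    have a5 : Real.log (|(j : ℝ)| + 4) ≤ Real.log (T ^ 3) :=
      Real.log_le_log (by positivity) (by nlinarith [mul_le_mul hT hT (by norm_num) t0.le])
    rw [Real.log_pow] at a5
    push_cast at a5
    nlinarith
  have p2 : 1 ≤ T ^ (1 - σ) * Real.log T ^ 8 := one_le_mul_of_one_le_of_one_le p1 (one_le_pow₀ l1)
  have m0 : 0 ≤ 3 * C2 * Real.log T := by positivity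
  have key := dya_ND Z ord U ((2 * ⌈U⌉₊ + 1 + 2 * C1) * (T ^ (1 - σ) * Real.log T ^ 8) *
    (3 * C2 * Real.log T)) (fun W hW h => ?_) (fun i W hW h => ?_) (Nat.log 2 ⌊T⌋₊ + 1) Z
    subset_rfl fun ρ hρ => ?_
  · have a1 : ((Nat.log 2 ⌊T⌋₊ : ℕ) : ℝ) ≤ 2 * Real.log T := by
      have b1 : (2 : ℝ) ^ Nat.log 2 ⌊T⌋₊ ≤ T := le_trans (by
        exact_mod_cast Nat.pow_log_le_self 2 (Nat.floor_pos.2 (by linarith)).ne')
        (Nat.floor_le t0.le)
      have b2 := Real.log_le_log (by positivity) b1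
      rw [Real.log_pow] at b2
      nlinarith [Real.log_two_gt_d9, Nat.cast_nonneg (α := ℝ) (Nat.log 2 ⌊T⌋₊)]
    refine key.trans ((mul_le_mul_of_nonneg_right (?_ : _ ≤ 4 * Real.log T)
      (by positivity)).trans_eq (by ring))
    push_cast
    linarith
  · rw [← sum_fiberwise_of_maps_to (t := Icc (-(⌈U⌉₊ : ℤ)) ⌈U⌉₊) (g := fun ρ : ℂ => ⌊ρ.im⌋)]
    · refine (sum_le_card_nsmul _ _ _ fun j _ => hμ W hW j).trans ?_
      have a1 : (Icc (-(⌈U⌉₊ : ℤ)) ⌈U⌉₊).card = 2 * ⌈U⌉₊ + 1 := by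
        rw [Int.card_Icc]
        omega
      rw [a1, nsmul_eq_mul]
      refine mul_le_mul_of_nonneg_right ?_ m0
      push_cast
      exact le_trans (by linarith) (le_mul_of_one_le_right (by positivity) p2)
    · intro ρ hρ
      have a1 := abs_lt.1 ((h ρ hρ).trans_le (Nat.le_ceil U))
      rw [mem_Icc, Int.le_floor, ← Int.cast_le (R := ℝ)]
      push_cast
      exact ⟨a1.1.le, (Int.floor_le _).trans a1.2.le⟩
  · rcases W.eq_empty_or_nonempty with rfl | ⟨z, hz⟩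
    · rw [sum_empty]
      positivity
    have a1 : U ≤ 2 ^ i * U := le_mul_of_one_le_left (by linarith) (one_le_pow₀ one_le_two)
    have a2 : 2 ^ i * U ≤ T := (h z hz).1.trans (hZ z (hW hz)).2.2
    refine (hS W ord (C1 * (T ^ (1 - σ) * Real.log T ^ 8)) _ m0 (fun V hV hs => ?_)
      (hμ W hW)).trans (mul_le_mul_of_nonneg_right ?_ m0)
    · refine (h1 _ σ V a1 (by linarith) s1 hs fun ρ hρ =>
        ⟨(hZ ρ (hW (hV hρ))).1, (hZ ρ (hW (hV hρ))).2.1, h ρ (hV hρ)⟩).trans ?_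
      have a3 : 0 ≤ Real.log (2 ^ i * U) := Real.log_nonneg (by linarith)
      have a4 : 0 < 2 ^ i * U := by linarith
      rw [mul_assoc]
      gcongr
    · rw [← mul_assoc]
      refine mul_le_mul_of_nonneg_right ?_ (by linarith)
      linarith [Nat.cast_nonneg (α := ℝ) ⌈U⌉₊]
  · have a1 : T < 2 ^ (Nat.log 2 ⌊T⌋₊ + 1) := (Nat.lt_floor_add_one T).trans_le (by
      exact_mod_cast Nat.lt_pow_succ_log_self one_lt_two ⌊T⌋₊)
    exact ((hZ ρ hρ).2.2.trans_lt a1).trans_le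
      (le_mul_of_one_le_right (by positivity) (by linarith))

end Pool.Agent.MP_c853c5_nt.Z

end

section

set_option autoImplicit false

open Finset MeasureTheory

namespace Pool.Agent.MP_c853c5_nt.Z

lemma GG_eq_Gauss (Δ w t : ℝ) : GG Δ w (2 + t * Complex.I) =
    Complex.exp (-((Δ : ℂ) ^ 2 / (4 * Real.pi)) * (t : ℂ) ^ 2 +
      Complex.I * (w + (Δ : ℂ) ^ 2 / Real.pi) * t + (2 * w + (Δ : ℂ) ^ 2 / Real.pi)) := by
  have hpi : (Real.pi : ℂ) ≠ 0 := by exact_mod_cast Real.pi_ne_zero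
  unfold GG
  congr 1
  field_simp
  linear_combination ((Δ : ℂ) ^ 2 * (t : ℂ) ^ 2) * Complex.I_sq

lemma neg_Gauss {Δ : ℝ} (hΔ : 0 < Δ) : (-((Δ : ℂ) ^ 2 / (4 * Real.pi))).re < 0 := by
  have e : -((Δ : ℂ) ^ 2 / (4 * Real.pi)) = ((-(Δ ^ 2 / (4 * Real.pi)) : ℝ) : ℂ) := by
    push_cast
    rfl
  rw [e, Complex.ofReal_re, neg_lt_zero]
  have := Real.pi_pos
  positivity

lemma integrable_GG_Gauss {Δ : ℝ} (hΔ : 0 < Δ) (w : ℝ) :
    Integrable fun t : ℝ => GG Δ w (2 + t * Complex.I) := by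
  simp only [GG_eq_Gauss]
  exact integrable_cexp_quadratic' (neg_Gauss hΔ) _ _

lemma integral_GG_Gauss {Δ : ℝ} (hΔ : 0 < Δ) (w : ℝ) :
    ∫ t : ℝ, GG Δ w (2 + t * Complex.I) = 2 * Real.pi * (gg Δ w : ℂ) := by
  have hpi : (Real.pi : ℂ) ≠ 0 := by exact_mod_cast Real.pi_ne_zero
  have hΔ' : (Δ : ℂ) ≠ 0 := by exact_mod_cast hΔ.ne'
  simp only [GG_eq_Gauss]
  rw [integral_cexp_quadratic (neg_Gauss hΔ)]
  have e1 : (Real.pi : ℂ) / - -((Δ : ℂ) ^ 2 / (4 * Real.pi)) =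
      (((2 * Real.pi / Δ : ℝ) : ℂ)) ^ (2 : ℕ) := by
    push_cast
    field_simp
    norm_num
  have e2 : (2 * w + (Δ : ℂ) ^ 2 / Real.pi) - (Complex.I * (w + (Δ : ℂ) ^ 2 / Real.pi)) ^ 2 /
      (4 * -((Δ : ℂ) ^ 2 / (4 * Real.pi))) = ((-(Real.pi * w ^ 2 / Δ ^ 2) : ℝ) : ℂ) := by
    rw [mul_pow, Complex.I_sq]
    push_cast
    field_simp
    ring
  have hp : 0 < (((2 * Real.pi / Δ : ℝ) : ℂ)).re := by
    rw [Complex.ofReal_re]
    have := Real.pi_pos
    positivity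
  rw [e1, e2, one_div, Complex.sq_cpow_two_inv hp, gg, ← Complex.ofReal_exp]
  push_cast
  ring

lemma term_GG_Gauss (f : ℕ → ℂ) (Δ v : ℝ) (s : ℂ) {n : ℕ} (hn : n ≠ 0) :
    LSeries.term f s n * GG Δ v s = f n * GG Δ (v - Real.log n) s := by
  have hn' : (n : ℂ) ≠ 0 := by exact_mod_cast hn
  rw [LSeries.term_of_ne_zero hn, Complex.cpow_def_of_ne_zero hn', div_eq_mul_inv,
    ← Complex.exp_neg, mul_assoc]
  unfold GG
  rw [← Complex.exp_add, ← Complex.natCast_log]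
  congr 2
  push_cast
  ring

lemma norm_term_Gauss (f : ℕ → ℂ) (t : ℝ) (n : ℕ) :
    ‖LSeries.term f (2 + t * Complex.I) n‖ = ‖LSeries.term f 2 n‖ := by
  rw [LSeries.norm_term_eq, LSeries.norm_term_eq]
  simp

lemma cont_term_Gauss (f : ℕ → ℂ) (n : ℕ) :
    Continuous fun t : ℝ => LSeries.term f (2 + t * Complex.I) n := by
  rcases eq_or_ne n 0 with rfl | hn
  · simpa only [LSeries.term_zero] using continuous_const
  · have hn' : (n : ℂ) ≠ 0 := by exact_mod_cast hn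
    simp only [LSeries.term_of_ne_zero hn, Complex.cpow_def_of_ne_zero hn', div_eq_mul_inv,
      ← Complex.exp_neg]
    fun_prop

theorem gauss : GaussStmt := by
  intro Δ v hΔ
  set f : ℕ → ℂ := fun n => (ArithmeticFunction.vonMangoldt n : ℂ) with hf
  have hs : Summable fun n => ‖LSeries.term f 2 n‖ :=
    summable_norm_iff.2 (ArithmeticFunction.LSeriesSummable_vonMangoldt (s := 2) (by norm_num))
  have hG := integrable_GG_Gauss hΔ v
  have hint : ∀ n, Integrable fun t : ℝ =>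
      LSeries.term f (2 + t * Complex.I) n * GG Δ v (2 + t * Complex.I) := fun n =>
    hG.bdd_mul (c := ‖LSeries.term f 2 n‖) (cont_term_Gauss f n).aestronglyMeasurable
      (Filter.Eventually.of_forall fun t => (norm_term_Gauss f t n).le)
  have hsum : Summable fun n => ∫ t : ℝ,
      ‖LSeries.term f (2 + t * Complex.I) n * GG Δ v (2 + t * Complex.I)‖ := by
    simp only [norm_mul, norm_term_Gauss, integral_const_mul]
    exact hs.mul_right _
  refine ⟨hG.bdd_mul (c := ∑' n, ‖LSeries.term f 2 n‖) ?_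
    (Filter.Eventually.of_forall fun t => ?_), ?_⟩
  · exact (continuous_tsum (cont_term_Gauss f) hs
      fun n t => (norm_term_Gauss f t n).le).aestronglyMeasurable
  · exact tsum_of_norm_bounded hs.hasSum fun n => (norm_term_Gauss f t n).le
  · have h1 := integral_tsum_of_summable_integral_norm hint hsum
    simp only [tsum_mul_right] at h1
    have h2 : ∀ n : ℕ, ∫ t : ℝ, LSeries.term f (2 + t * Complex.I) n * GG Δ v (2 + t * Complex.I) =
        2 * Real.pi * ((ArithmeticFunction.vonMangoldt n * gg Δ (v - Real.log n) : ℝ) : ℂ) := by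
      intro n
      rcases eq_or_ne n 0 with rfl | hn
      · simp
      · simp only [term_GG_Gauss f Δ v _ hn]
        rw [integral_const_mul, integral_GG_Gauss hΔ, hf]
        push_cast
        ring
    have hpi : (Real.pi : ℂ) ≠ 0 := by exact_mod_cast Real.pi_ne_zero
    simp only [h2, tsum_mul_left] at h1
    unfold LSeries PP
    rw [← h1, Complex.ofReal_tsum]
    field_simp

end Pool.Agent.MP_c853c5_nt.Z

end

section

set_option autoImplicit false

open Finset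

namespace Pool.Agent.MP_c853c5_nt.Z

lemma ball_Hor (t u σ : ℝ) (hu : u ∈ Set.Icc t (t + 1)) (hσ : σ ∈ Set.Icc (1 / 2 : ℝ) 2) :
    ((σ : ℂ) + u * Complex.I) ∈
      Metric.closedBall ((2 : ℂ) + ((t + 1 / 2 : ℝ) : ℂ) * Complex.I) (8 / 5) := by
  rw [Metric.mem_closedBall, Complex.dist_eq]
  have e : ((σ : ℂ) + u * Complex.I) - ((2 : ℂ) + ((t + 1 / 2 : ℝ) : ℂ) * Complex.I) =
      ((σ - 2 : ℝ) : ℂ) + ((u - (t + 1 / 2) : ℝ) : ℂ) * Complex.I := by
    push_cast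
    ring
  rw [e, Complex.norm_add_mul_I]
  apply Real.sqrt_le_iff.2
  refine ⟨by norm_num, ?_⟩
  obtain ⟨h1, h2⟩ := hu
  obtain ⟨h3, h4⟩ := hσ
  nlinarith [mul_nonneg (sub_nonneg.2 h1) (sub_nonneg.2 h2),
    mul_nonneg (sub_nonneg.2 h3) (sub_nonneg.2 h4)]

theorem hor (hL : LocZStmt) : HorStmt := by
  obtain ⟨C, hC, hL⟩ := hL
  refine ⟨5 * C ^ 2, by nlinarith, ?_⟩
  intro t
  obtain ⟨Z, hZ, h1, h2, h3⟩ := hL (t + 1 / 2)
  obtain ⟨u, hu, hfar⟩ := exists_far_point Z t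
  refine ⟨u, hu, ?_⟩
  intro σ hσ
  set l := Real.log (|t| + 4) with hl
  have hl1 : 1 ≤ l := by
    rw [hl, Real.le_log_iff_exp_le (by positivity)]
    have := Real.exp_one_lt_d9
    have := abs_nonneg t
    linarith
  have hll : Real.log (|t + 1 / 2| + 3) ≤ l := by
    apply Real.log_le_log (by positivity)
    have := abs_add_le t (1 / 2)
    rw [abs_of_pos (by norm_num : (0 : ℝ) < 1 / 2)] at this
    linarith
  have hC0 : 0 ≤ C := by linarith
  have h2' : ∑ ρ ∈ Z, ord ρ ≤ C * l := h2.trans (mul_le_mul_of_nonneg_left hll hC0)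
  have hn : (Z.card : ℝ) ≤ C * l := by
    refine le_trans ?_ h2'
    calc (Z.card : ℝ) = ∑ _ρ ∈ Z, (1 : ℝ) := by simp
      _ ≤ _ := sum_le_sum h1
  have hb := ball_Hor t u σ hu hσ
  have him : ∀ ρ : ℂ, (((σ : ℂ) + u * Complex.I) - ρ).im = u - ρ.im := by
    intro ρ
    simp
  have hpos : (0 : ℝ) < 1 / (2 * ((Z.card : ℝ) + 1)) := by positivity
  have hne : riemannZeta₁ (σ + u * Complex.I) ≠ 0 := by
    intro h0
    have hm : ((σ : ℂ) + u * Complex.I) ∈ Z :=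
      (hZ _).2 ⟨Metric.closedBall_subset_closedBall (by norm_num) hb, h0⟩
    have := hfar _ hm
    rw [← him, sub_self] at this
    simp only [Complex.zero_im, abs_zero] at this
    linarith
  refine ⟨hne, ?_⟩
  have h4 := (h3 _ hb hne).trans (mul_le_mul_of_nonneg_left hll hC0)
  have h5 : ‖∑ ρ ∈ Z, (ord ρ : ℂ) / (((σ : ℂ) + u * Complex.I) - ρ)‖ ≤
      C * l * (2 * ((Z.card : ℝ) + 1)) := by
    refine (norm_sum_le _ _).trans ?_
    calc ∑ ρ ∈ Z, ‖(ord ρ : ℂ) / (((σ : ℂ) + u * Complex.I) - ρ)‖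
        ≤ ∑ ρ ∈ Z, ord ρ * (2 * ((Z.card : ℝ) + 1)) := by
          refine sum_le_sum fun ρ hρ => ?_
          have a1 : 1 / (2 * ((Z.card : ℝ) + 1)) ≤ ‖((σ : ℂ) + u * Complex.I) - ρ‖ := by
            refine (hfar ρ hρ).trans ?_
            rw [← him]
            exact Complex.abs_im_le_norm _
          rw [norm_div, Complex.norm_real, Real.norm_eq_abs, abs_of_nonneg (ord_nonneg ρ)]
          calc ord ρ / ‖((σ : ℂ) + u * Complex.I) - ρ‖
              ≤ ord ρ / (1 / (2 * ((Z.card : ℝ) + 1))) :=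
                div_le_div_of_nonneg_left (ord_nonneg ρ) hpos a1
            _ = ord ρ * (2 * ((Z.card : ℝ) + 1)) := by rw [div_div_eq_mul_div, div_one]
      _ = (∑ ρ ∈ Z, ord ρ) * (2 * ((Z.card : ℝ) + 1)) := by rw [sum_mul]
      _ ≤ C * l * (2 * ((Z.card : ℝ) + 1)) :=
          mul_le_mul_of_nonneg_right h2' (by positivity)
  have h6 := norm_le_insert' (logDeriv riemannZeta₁ (σ + u * Complex.I))
    (∑ ρ ∈ Z, (ord ρ : ℂ) / (((σ : ℂ) + u * Complex.I) - ρ))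
  have hx : 1 ≤ C * l := one_le_mul_of_one_le_of_one_le hC hl1
  have h7 : C * l * (2 * ((Z.card : ℝ) + 1)) ≤ C * l * (4 * (C * l)) :=
    mul_le_mul_of_nonneg_left (by linarith) (by linarith)
  have h8 : C * l ≤ (C * l) * (C * l) := le_mul_of_one_le_right (by linarith) hx
  calc ‖logDeriv riemannZeta₁ (σ + u * Complex.I)‖
      ≤ C * l * (4 * (C * l)) + (C * l) * (C * l) := by linarith
    _ = 5 * C ^ 2 * l ^ 2 := by ring

end Pool.Agent.MP_c853c5_nt.Z

end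

section

open Finset Filter

namespace Pool.Agent.MP_c853c5_nt.Z

theorem level_ZFar {A b η h s : ℝ} (hb : 0 < b) (hAb : A * b < 1) (hη : 0 < η) (hZ : ZD A)
    (hh : h = (1 - A * b) * η / 4) (hs : 1 / 2 ≤ s) : ∃ K : ℝ, ∀ x : ℝ, 1 ≤ x → ∀ Z : Finset ℂ,
      (∀ ρ ∈ Z, riemannZeta₁ ρ = 0 ∧ s ≤ ρ.re ∧ ρ.re ≤ s + h ∧ ρ.re ≤ 1 - η ∧ |ρ.im| ≤ x ^ b) →
        ∑ ρ ∈ Z, ord ρ * x ^ (ρ.re - 1) ≤ K * x ^ (-(2 * h)) := by
  by_cases hc : s ≤ 1 - η
  swap
  · refine ⟨0, fun x _ Z hZ => ?_⟩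
    rw [zero_mul, sum_eq_zero fun ρ hρ => (hc ((hZ ρ hρ).2.1.trans (hZ ρ hρ).2.2.2.1)).elim]
  have h0 : 0 < h := by rw [hh]; have := sub_pos.2 hAb; positivity
  obtain ⟨K, hK⟩ := hZ s (h / b) hs (by linarith) (by positivity)
  refine ⟨|K|, fun x hx Z hZ => ?_⟩
  have hx0 : 0 < x := by linarith
  have h1 := hK (x ^ b) Z (Real.one_le_rpow hx hb.le) fun ρ hρ =>
    ⟨(hZ ρ hρ).1, (hZ ρ hρ).2.1, (hZ ρ hρ).2.2.2.2⟩
  calc ∑ ρ ∈ Z, ord ρ * x ^ (ρ.re - 1) ≤ ∑ ρ ∈ Z, ord ρ * x ^ (s + h - 1) :=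
        sum_le_sum fun ρ hρ => mul_le_mul_of_nonneg_left
          (Real.rpow_le_rpow_of_exponent_le hx (by linarith [(hZ ρ hρ).2.2.1])) (ord_nonneg ρ)
    _ ≤ |K| * (x ^ b) ^ (A * (1 - s) + h / b) * x ^ (s + h - 1) := by
        rw [← sum_mul]
        refine mul_le_mul_of_nonneg_right (h1.trans ?_) (by positivity)
        exact mul_le_mul_of_nonneg_right (le_abs_self K) (by positivity)
    _ ≤ |K| * x ^ (-(2 * h)) := by
        rw [mul_assoc, ← Real.rpow_mul hx0.le, ← Real.rpow_add hx0]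
        refine mul_le_mul_of_nonneg_left (Real.rpow_le_rpow_of_exponent_le hx ?_) (abs_nonneg K)
        have e : b * (A * (1 - s) + h / b) = A * b * (1 - s) + h := by field_simp
        have : (1 - A * b) * η ≤ (1 - A * b) * (1 - s) :=
          mul_le_mul_of_nonneg_left (by linarith) (by linarith)
        rw [e]
        linarith

theorem zFar : ZFarStmt := by
  intro A b η _ hb hAb hη _ hZ ε hε
  obtain ⟨h, hh⟩ : ∃ h, h = (1 - A * b) * η / 4 := ⟨_, rfl⟩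
  have h0 : 0 < h := by rw [hh]; have := sub_pos.2 hAb; positivity
  choose K hK using fun i : ℕ => level_ZFar (s := 1 / 2 + i * h) hb hAb hη hZ hh
    (le_add_of_nonneg_right (by positivity))
  have ht : Tendsto (fun x : ℝ => (∑ i ∈ range (⌊1 / 2 / h⌋₊ + 1), K i) * x ^ (-(2 * h)))
      atTop (nhds 0) := by
    simpa using (tendsto_rpow_neg_atTop (by positivity : 0 < 2 * h)).const_mul
      (∑ i ∈ range (⌊1 / 2 / h⌋₊ + 1), K i)
  filter_upwards [ht.eventually (ge_mem_nhds hε), eventually_ge_atTop 1] with x hx hx1 Z hZ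
  refine le_trans ?_ hx
  rw [← sum_fiberwise_of_maps_to (t := range (⌊1 / 2 / h⌋₊ + 1))
    (g := fun ρ : ℂ => ⌊(ρ.re - 1 / 2) / h⌋₊) fun ρ hρ => mem_range.2 (Nat.lt_succ_of_le
      (Nat.floor_mono (by gcongr; linarith [(hZ ρ hρ).2.2.1]))), sum_mul]
  refine sum_le_sum fun i _ => hK i x hx1 _ fun ρ hρ => ?_
  obtain ⟨h1, rfl⟩ := mem_filter.1 hρ
  obtain ⟨z1, z2, z3, z4⟩ := hZ ρ h1
  have a1 := Nat.floor_le (div_nonneg (sub_nonneg.2 z2) h0.le)
  have a2 := Nat.lt_floor_add_one ((ρ.re - 1 / 2) / h)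
  rw [le_div_iff₀ h0] at a1
  rw [div_lt_iff₀ h0] at a2
  exact ⟨z1, by linarith, by linarith, z3, z4⟩

end Pool.Agent.MP_c853c5_nt.Z

end

section

set_option autoImplicit false

open Finset Filter

namespace Pool.Agent.MP_c853c5_nt.Z

lemma lim_ZNear {δ : ℝ} (hδ : 0 < δ) : ∀ᶠ x : ℝ in atTop,
    (Real.log x ^ (1 / 40 : ℝ)) ^ (440 : ℝ) *
      Real.exp (-(1 / 2) * Real.log x ^ (1 / 40 : ℝ)) ≤ δ :=
  ((tendsto_rpow_mul_exp_neg_mul_atTop_nhds_zero 440 (1 / 2) (by norm_num)).comp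
    ((tendsto_rpow_atTop (by norm_num)).comp Real.tendsto_log_atTop)).eventually
    (eventually_le_nhds hδ)

theorem zNear (hN : NDStmt) (hZ : ZFStmt) : ZNearStmt := by
  obtain ⟨η, C, hη, hη', hC, hN⟩ := hN
  obtain ⟨T₀, hT₀, hZ⟩ := hZ
  refine ⟨η, hη, hη', fun ε hε => ?_⟩
  filter_upwards [eventually_ge_atTop (T₀ ^ 2),
    lim_ZNear (δ := ε / (2 * C * Real.exp 1)) (by positivity)] with x hx hl Z hZ'
  have hx9 : 9 ≤ x := by nlinarith
  have hx0 : 0 < x := by linarith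
  have hT : T₀ ≤ √x := Real.le_sqrt_of_sq_le hx
  have hL : 1 ≤ Real.log x := by
    rw [Real.le_log_iff_exp_le hx0]
    linarith [Real.exp_one_lt_d9]
  have hlT : Real.log √x = Real.log x / 2 := Real.log_sqrt hx0.le
  have hpw : ∀ y : ℝ, x ^ y = Real.exp (Real.log x * y) := fun y => Real.rpow_def_of_pos hx0 y
  have hpT : ∀ y : ℝ, √x ^ y = Real.exp (Real.log x / 2 * y) := fun y => by
    rw [Real.rpow_def_of_pos (by linarith), hlT]
  have hN' := hN √x
  have hZ'' := hZ √x hT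
  simp only [hpT] at hN'
  simp only [hpw]
  rw [hlT] at hN' hZ''
  generalize Real.log x = L at hL hl hN' hZ'' ⊢
  have L0 : 0 < L := by linarith
  rw [← Real.rpow_mul L0.le, show (1 / 40 * 440 : ℝ) = (11 : ℕ) by norm_num, Real.rpow_natCast,
    le_div_iff₀ (by positivity)] at hl
  have hu : ∀ ρ ∈ Z, L ^ (1 / 40 : ℝ) ≤ (1 - ρ.re) * L := fun ρ hρ => by
    have h1 := hZ'' ρ (hZ' ρ hρ).1 (hZ' ρ hρ).2.2
    have h2 : L ^ (-(39 / 40) : ℝ) ≤ (L / 2) ^ (-(39 / 40) : ℝ) :=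
      Real.rpow_le_rpow_of_nonpos (by positivity) (by linarith) (by norm_num)
    rw [show (1 / 40 : ℝ) = -(39 / 40) + 1 by norm_num, Real.rpow_add_one L0.ne']
    exact mul_le_mul_of_nonneg_right (by linarith) L0.le
  have u0 : 0 ≤ L ^ (1 / 40 : ℝ) := by positivity
  generalize L ^ (1 / 40 : ℝ) = u at hl hu u0
  rw [← sum_fiberwise_of_maps_to (t := range (⌊L⌋₊ + 1)) (g := fun ρ : ℂ => ⌊(1 - ρ.re) * L⌋₊)
    fun ρ hρ => mem_range.2 (Nat.lt_succ_of_le (Nat.floor_le_floor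
      (by nlinarith [(hZ' ρ hρ).2.1])))]
  refine (sum_le_card_nsmul _ _ (C * L ^ 10 * (Real.exp 1 * Real.exp (-(1 / 2) * u)))
    fun i _ => ?_).trans ?_
  · rcases (Z.filter fun ρ : ℂ => ⌊(1 - ρ.re) * L⌋₊ = i).eq_empty_or_nonempty with h | ⟨ρ₀, h₀⟩
    · rw [h, sum_empty]
      positivity
    have hi : ∀ ρ ∈ Z.filter fun ρ : ℂ => ⌊(1 - ρ.re) * L⌋₊ = i,
        (i : ℝ) ≤ (1 - ρ.re) * L ∧ (1 - ρ.re) * L < i + 1 := fun ρ hρ => by
      rw [mem_filter] at hρ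
      rw [← hρ.2]
      exact ⟨Nat.floor_le (u0.trans (hu ρ hρ.1)), Nat.lt_floor_add_one _⟩
    have h1 : u ≤ i + 1 := (hu ρ₀ (mem_filter.1 h₀).1).trans (hi ρ₀ h₀).2.le
    have h2 : 0 ≤ ((i : ℝ) + 1) / L := by positivity
    have h3 := hN' (max (1 - η) (1 - ((i : ℝ) + 1) / L)) _ (by linarith) (le_max_left _ _)
      (max_le (by linarith) (by linarith)) fun ρ hρ =>
        ⟨(hZ' ρ (mem_filter.1 hρ).1).1, max_le (hZ' ρ (mem_filter.1 hρ).1).2.1 (by
          have := (le_div_iff₀ L0).2 (hi ρ hρ).2.le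
          linarith), (hZ' ρ (mem_filter.1 hρ).1).2.2⟩
    have h4 : L / 2 * (1 - max (1 - η) (1 - ((i : ℝ) + 1) / L)) ≤ ((i : ℝ) + 1) / 2 := by
      have h5 : 1 - max (1 - η) (1 - ((i : ℝ) + 1) / L) ≤ ((i : ℝ) + 1) / L := by
        linarith [le_max_right (1 - η) (1 - ((i : ℝ) + 1) / L)]
      have h6 := (le_div_iff₀ L0).1 h5
      linarith
    have h7 : (L / 2) ^ 10 ≤ L ^ 10 := pow_le_pow_left₀ (by positivity) (by linarith) 10
    calc _ ≤ ∑ ρ ∈ Z.filter fun ρ : ℂ => ⌊(1 - ρ.re) * L⌋₊ = i, ord ρ * Real.exp (-(i : ℝ)) :=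
          sum_le_sum fun ρ hρ => mul_le_mul_of_nonneg_left
            (Real.exp_le_exp.2 (by linarith [(hi ρ hρ).1])) (ord_nonneg ρ)
      _ ≤ C * Real.exp (((i : ℝ) + 1) / 2) * L ^ 10 * Real.exp (-(i : ℝ)) := by
          rw [← sum_mul]
          refine mul_le_mul_of_nonneg_right (h3.trans ?_) (Real.exp_pos _).le
          gcongr
      _ = C * L ^ 10 * Real.exp (((i : ℝ) + 1) / 2 + -(i : ℝ)) := by
          rw [Real.exp_add]
          ring
      _ ≤ _ := by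
          rw [← Real.exp_add]
          exact mul_le_mul_of_nonneg_left (Real.exp_le_exp.2 (by linarith)) (by positivity)
  · rw [card_range, nsmul_eq_mul]
    have h1 : ((⌊L⌋₊ + 1 : ℕ) : ℝ) ≤ 2 * L := by
      push_cast
      linarith [Nat.floor_le L0.le]
    exact (mul_le_mul_of_nonneg_right h1 (by positivity)).trans (le_of_eq_of_le (by ring) hl)

end Pool.Agent.MP_c853c5_nt.Z

end

section

set_option autoImplicit false

open Finset Filter

namespace Pool.Agent.MP_c853c5_nt.Z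

lemma ev_Psi {C k e : ℝ} (hk : 0 < k) (he : 0 < e) :
    ∀ᶠ L : ℝ in atTop, C * Real.exp (L * (5 - k * L)) ≤ e := by
  have h1 : Tendsto (fun L : ℝ => 5 - k * L) atTop atBot := by
    simp only [sub_eq_add_neg]
    exact tendsto_atBot_add_const_left _ _
      (tendsto_neg_atTop_atBot.comp (tendsto_id.const_mul_atTop hk))
  have h2 : Tendsto (fun L : ℝ => L * (5 - k * L)) atTop atBot :=
    Tendsto.atTop_mul_atBot₀ tendsto_id h1
  have h3 := (Real.tendsto_exp_atBot.comp h2).const_mul C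
  rw [mul_zero] at h3
  exact h3.eventually (ge_mem_nhds he)

lemma fin_Psi {P y q e ε r : ℝ} (hP : 0 ≤ P) (hy : 1 ≤ y) (hq : q ≤ e) (he : 0 < e)
    (he1 : e ≤ 1 / 100) (hε : 100 * e ≤ ε) (hr : r ≤ e)
    (h1 : (1 - 2 * q) * P ≤ (1 + e) * (y + 6 * e * y))
    (h2 : (1 - e) * (y - 6 * e * y) - r ≤ P) : |P - y| ≤ ε * y := by
  have a0 : 100 * e * y ≤ ε * y := by gcongr
  have a1 : e ≤ e * y := by nlinarith
  have a2 : 0 ≤ e * (e * y) := by positivity
  have a3 : e * (e * y) ≤ 1 / 100 * (e * y) := by gcongr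
  rw [abs_le]
  constructor
  · nlinarith
  · have b1 : (1 - 2 * e) * P ≤ (1 - 2 * q) * P := by gcongr
    have b2 : (1 - 2 * e) * P ≤ (1 - 2 * e) * (y + 100 * e * y) := by nlinarith
    have b3 := le_of_mul_le_mul_left b2 (by linarith)
    linarith

theorem psiS (hM : SmStmt) (hS : SandStmt) : PsiStmt := by
  intro A θ hA hZ hθ ε hε
  obtain ⟨C, hC, hS⟩ := hS
  have hθ0 : 0 ≤ θ := by
    have : 1 / A ≤ 1 := by
      rw [div_le_one (by linarith)]
      linarith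
    linarith
  rcases lt_or_ge 1 θ with h1 | h1
  · filter_upwards [eventually_gt_atTop (1 : ℝ)] with x hx y hy hyx
    have := Real.rpow_lt_rpow_of_exponent_lt hx h1
    rw [Real.rpow_one] at this
    linarith
  set e : ℝ := min ε 1 / 100 with he
  have he0 : 0 < e := by have := lt_min hε one_pos; positivity
  have he1 : e ≤ 1 / 100 := by have := min_le_right ε 1; linarith
  have he2 : 100 * e ≤ ε := by have := min_le_left ε 1; linarith
  have hk : 0 < Real.pi * e ^ 2 / 2 := by have := Real.pi_pos; positivity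
  filter_upwards [hM A θ hA hZ hθ h1 e he0, eventually_ge_atTop (1 : ℝ),
    Real.tendsto_log_atTop.eventually (eventually_ge_atTop (1 : ℝ)),
    Real.tendsto_log_atTop.eventually (ev_Psi (C := C + 1) hk he0)] with x hm hx hL hq y hy hyx
  set L := Real.log x with hLd
  have hx0 : 0 < x := by linarith
  have hL0 : 0 < L := by linarith
  have hy1 : 1 ≤ y := (Real.one_le_rpow hx hθ0).trans hy
  have hyx1 : y / x ≤ 1 := (div_le_one hx0).2 hyx
  have hyx0 : 0 < y / x := by positivity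
  have hΔ1 : y / x / L ≤ 1 / L := by gcongr
  have hΔ2 : x ^ (θ - 1) / L ≤ y / x / L := by
    rw [Real.rpow_sub_one hx0.ne']
    gcongr
  have hΔ3 : y / x / L ≤ 1 := hΔ1.trans ((div_le_one hL0).2 hL)
  obtain ⟨s1, s2⟩ := hS x y (y / x / L) (e * (y / x)) e hx (by linarith) hyx (by positivity) hΔ3
    (by positivity) (by nlinarith) he0.le (by linarith) (hm _ hΔ2 hΔ1)
  have e1 : Real.pi * (e * (y / x)) ^ 2 / (2 * (y / x / L) ^ 2) = Real.pi * e ^ 2 / 2 * L ^ 2 := by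
    field_simp
  have e2 : 6 * x * (e * (y / x)) = 6 * e * y := by field_simp
  rw [e1, e2] at s1 s2
  set q := Real.exp (-(Real.pi * e ^ 2 / 2 * L ^ 2)) with hqd
  have hq0 : 0 < q := Real.exp_pos _
  have e3 : Real.exp (L * (5 - Real.pi * e ^ 2 / 2 * L)) = q * x ^ 5 := by
    rw [show L * (5 - Real.pi * e ^ 2 / 2 * L) = -(Real.pi * e ^ 2 / 2 * L ^ 2) + (5 : ℕ) * L by
      push_cast; ring, Real.exp_add, Real.exp_nat_mul, Real.exp_log hx0]
  rw [e3] at hq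
  have hx5 : 1 ≤ x ^ 5 := one_le_pow₀ hx
  have hqx : q ≤ q * x ^ 5 := le_mul_of_one_le_right hq0.le hx5
  have hCq : 0 ≤ C * (q * x ^ 5) := by positivity
  have hLx : L ≤ x := (Real.log_le_sub_one_of_pos hx0).trans (by linarith)
  refine fin_Psi (q := q) (r := C * q * x ^ 3 / (y / x / L))
    (sub_nonneg.2 (Chebyshev.psi_mono (by linarith))) hy1 (by nlinarith) he0 he1 he2 ?_ s1 s2
  have e4 : C * q * x ^ 3 / (y / x / L) = C * q * x ^ 4 * L / y := by field_simp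
  rw [e4]
  calc C * q * x ^ 4 * L / y ≤ C * q * x ^ 4 * x / 1 := by gcongr
    _ = C * (q * x ^ 5) := by ring
    _ ≤ e := by nlinarith

end Pool.Agent.MP_c853c5_nt.Z

end

section

set_option autoImplicit false

open Finset Filter

namespace Pool.Agent.MP_c853c5_nt.Z

lemma sand_Pi {x y : ℝ} (hx : 1 ≤ x) (hy : 0 ≤ y) (hyx : y ≤ x) :
    ((Nat.primeCounting ⌊x + y⌋₊ : ℝ) - Nat.primeCounting ⌊x⌋₊) * Real.log x ≤
      Chebyshev.theta (x + y) - Chebyshev.theta x ∧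
    Chebyshev.theta (x + y) - Chebyshev.theta x ≤
      ((Nat.primeCounting ⌊x + y⌋₊ : ℝ) - Nat.primeCounting ⌊x⌋₊) * (Real.log x + 1) := by
  have hs : Nat.primesLE ⌊x⌋₊ ⊆ Nat.primesLE ⌊x + y⌋₊ :=
    Nat.primesLE_mono (Nat.floor_mono (by linarith))
  have h1 : (Nat.primeCounting ⌊x + y⌋₊ : ℝ) - Nat.primeCounting ⌊x⌋₊ =
      (Nat.primesLE ⌊x + y⌋₊ \ Nat.primesLE ⌊x⌋₊).card := by
    rw [← Nat.primesLE_card_eq_primeCounting, ← Nat.primesLE_card_eq_primeCounting,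
      ← card_sdiff_add_card_eq_card hs]
    push_cast
    ring
  have h2 : ∀ p ∈ Nat.primesLE ⌊x + y⌋₊ \ Nat.primesLE ⌊x⌋₊,
      Real.log x ≤ Real.log p ∧ Real.log p ≤ Real.log x + 1 := fun p hp => by
    obtain ⟨h3, h4⟩ := mem_sdiff.1 hp
    rw [Nat.mem_primesLE] at h3 h4
    have h5 : x < p := Nat.lt_of_floor_lt (not_le.1 fun h => h4 ⟨h, h3.2⟩)
    have h6 : (p : ℝ) ≤ 2 * x := ((Nat.le_floor_iff (by linarith)).1 h3.1).trans (by linarith)
    refine ⟨Real.log_le_log (by linarith) h5.le, (Real.log_le_log (by linarith) h6).trans ?_⟩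
    rw [Real.log_mul two_ne_zero (by linarith)]
    linarith [Real.log_two_lt_d9]
  rw [h1, Chebyshev.theta_eq_sum_primesLE, Chebyshev.theta_eq_sum_primesLE, ← sum_sdiff hs,
    add_sub_cancel_right, ← nsmul_eq_mul, ← nsmul_eq_mul]
  exact ⟨card_nsmul_le_sum _ _ _ fun p hp => (h2 p hp).1,
    sum_le_card_nsmul _ _ _ fun p hp => (h2 p hp).2⟩

theorem piS : PiStmt := by
  intro θ hθ hP ε hε
  obtain ⟨C, hC⟩ := Chebyshev.psi_sub_theta_le_mul_sqrt
  have hC0 : 0 ≤ C := by simpa using hC 1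
  have he : 0 < ε / 3 := by positivity
  have h1 := (tendsto_rpow_atTop (y := 1 / 18) (by norm_num)).eventually_ge_atTop
    (2 * C / (ε / 3))
  have h2 := Real.tendsto_log_atTop.eventually_ge_atTop ((1 + 2 * (ε / 3)) / (ε / 3))
  refine eventually_atTop.1 ?_
  filter_upwards [hP _ he, h1, h2, eventually_ge_atTop 1] with x a1 a2 a3 hx y hy hyx
  have x0 : 0 < x := by linarith
  have y0 : 0 < y := (Real.rpow_pos_of_pos x0 θ).trans_le hy
  have hL : 0 < Real.log x := lt_of_lt_of_le (by positivity) a3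
  have b1 : 2 * C * √x ≤ ε / 3 * y := by
    rw [div_le_iff₀ he] at a2
    have b2 : x ^ (1 / 18 : ℝ) * √x ≤ y := by
      rw [Real.sqrt_eq_rpow, ← Real.rpow_add x0]
      exact (Real.rpow_le_rpow_of_exponent_le hx (by linarith)).trans hy
    calc 2 * C * √x ≤ x ^ (1 / 18 : ℝ) * (ε / 3) * √x := by gcongr
      _ = ε / 3 * (x ^ (1 / 18 : ℝ) * √x) := by ring
      _ ≤ _ := by gcongr
  have b2 : √(x + y) ≤ 2 * √x := by
    rw [Real.sqrt_le_left (by positivity), mul_pow, Real.sq_sqrt x0.le]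
    linarith
  have b3 := (hC (x + y)).trans (mul_le_mul_of_nonneg_left b2 hC0)
  have b4 := hC x
  have b5 := Chebyshev.theta_le_psi (x + y)
  have b6 := Chebyshev.theta_le_psi x
  have b7 : 0 ≤ C * √x := by positivity
  obtain ⟨c1, c2⟩ := abs_le.1 (a1 y hy hyx)
  obtain ⟨d1, d2⟩ := sand_Pi hx y0.le hyx
  generalize (Nat.primeCounting ⌊x + y⌋₊ : ℝ) - Nat.primeCounting ⌊x⌋₊ = n at d1 d2
  have e1 : n * Real.log x ≤ (1 + 2 * (ε / 3)) * y := by linarith
  have e2 : n ≤ ε / 3 * y := by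
    rw [div_le_iff₀ he] at a3
    refine le_of_mul_le_mul_right (e1.trans ?_) hL
    calc (1 + 2 * (ε / 3)) * y ≤ Real.log x * (ε / 3) * y := by gcongr
      _ = _ := by ring
  rw [← mul_div_assoc, le_div_iff₀ hL, ← abs_of_pos hL, ← abs_mul, abs_of_pos hL, sub_mul,
    div_mul_cancel₀ _ hL.ne', abs_le]
  have e3 : 0 ≤ ε / 3 * y := by positivity
  constructor <;> linarith

end Pool.Agent.MP_c853c5_nt.Z

end

section

/-!
From the zero density estimate to the prime number theorem in short intervals.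
-/

set_option autoImplicit false

namespace Pool.Agent.MP_c853c5_nt.Z

theorem vm_all : VmStmt := vm (recS (step hold lin))

theorem exp_all : ExpStmt := expS (uu vm_all bil dd) tay

theorem tail_all : TailStmt := tail exp_all psum em

theorem zf_all : ZFStmt := zf (zf0 (near tail_all) loc t341)

theorem locZ_all : LocZStmt := locZ em t341

theorem cnt_all : CntStmt := cntS locZ_all

theorem nd_all : NDStmt :=
  nd (nd1 (mol tail_all) (blk (hal psum) (ker exp_all) tau sep)) space cnt_all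

theorem ef_all : EFStmt := ef gauss (hor locZ_all) (ver locZ_all) res

theorem psi_all : PsiStmt := psiS (sm ef_all zFar (zNear nd_all zf_all)) sand

theorem pi_of_zd {A θ : ℝ} (hA : 9 / 4 ≤ A) (hZ : ZD A) (hθ : 1 - 1 / A < θ) : PiShort θ := by
  refine piS θ ?_ (psi_all A θ hA hZ hθ)
  have : 1 / A ≤ 4 / 9 := by
    rw [div_le_iff₀ (by linarith)]
    linarith
  linarith

end Pool.Agent.MP_c853c5_nt.Z

end
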