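import Pool.Agent.MP_c853c5_nt.Z.PDefs
import Pool.Agent.Mg.C853.Gf8de24
import Pool.Agent.Mg.C853.Gbe42ac
import Pool.Agent.Mg.C853.G342b30

section

/-!
The logarithmic derivative of the zeta function inside the zero free region.
-/

set_option autoImplicit false

open Finset

namespace Pool.Agent.MP_c853c5_nt.Z

open Pool.Agent.MP_2a1f0e_nt

lemma delta_PLd {l : ℝ} (hl : 1 ≤ l) : 0 < l ^ (-(39 / 40) : ℝ) ∧ l ^ (-(39 / 40) : ℝ) ≤ 1 ∧
    1 ≤ l ^ (-(39 / 40) : ℝ) * l := by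
  have h0 : 0 < l := by linarith
  refine ⟨Real.rpow_pos_of_pos h0 _, Real.rpow_le_one_of_one_le_of_nonpos hl (by norm_num), ?_⟩
  rw [← Real.rpow_add_one h0.ne']
  exact Real.one_le_rpow hl (by norm_num)

lemma sum_PLd (Z : Finset ℂ) (z : ℂ) {d : ℝ} (hd : 0 < d) (h : ∀ ρ ∈ Z, d ≤ z.re - ρ.re) :
    ‖∑ ρ ∈ Z, (ord ρ : ℂ) / (z - ρ)‖ ≤ (∑ ρ ∈ Z, ord ρ) / d := by
  rw [Finset.sum_div]
  refine norm_sum_le_of_le _ fun ρ hρ => ?_
  have h0 : 0 ≤ ord ρ := Nat.cast_nonneg _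
  rw [norm_div, Complex.norm_real, Real.norm_of_nonneg h0]
  refine div_le_div_of_nonneg_left h0 hd ((h ρ hρ).trans ?_)
  rw [← Complex.sub_re]
  exact Complex.re_le_norm _

theorem pLd (hZ : ZFStmt) (hL : LocZStmt) : LdStmt := by
  obtain ⟨T₀, hT₀, hZ⟩ := hZ
  obtain ⟨C, hC, hL⟩ := hL
  refine ⟨6 * C, T₀, by linarith, hT₀, fun T hT z h1 h2 h3 => ?_⟩
  have hT3 : 3 ≤ T := hT₀.trans hT
  have hl : 1 ≤ Real.log T := by
    rw [Real.le_log_iff_exp_le (by linarith)]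
    exact (Real.exp_one_lt_d9.le.trans (by norm_num)).trans hT3
  obtain ⟨d0, d1, d2⟩ := delta_PLd hl
  have hne : riemannZeta₁ z ≠ 0 := fun h => by
    have := hZ T hT z h (by linarith)
    linarith
  refine ⟨hne, ?_⟩
  obtain ⟨Z, z1, -, z3, z4⟩ := hL z.im
  have hz : z ∈ Metric.closedBall ((2 : ℂ) + z.im * Complex.I) (8 / 5) := by
    have e : z - ((2 : ℂ) + z.im * Complex.I) = ((z.re - 2 : ℝ) : ℂ) := by
      apply Complex.ext <;> simp
    rw [mem_closedBall_iff_norm, e, Complex.norm_real, Real.norm_eq_abs, abs_le]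
    constructor <;> linarith
  have hlog : Real.log (|z.im| + 3) ≤ 2 * Real.log T := by
    have e : 2 * Real.log T = Real.log (T ^ 2) := by
      rw [Real.log_pow]
      norm_num
    rw [e]
    exact Real.log_le_log (by positivity) (by nlinarith)
  have hs := sum_PLd Z z (half_pos d0) fun ρ hρ => by
    obtain ⟨r1, r2⟩ := (z1 ρ).1 hρ
    rw [mem_closedBall_iff_norm] at r1
    have r3 := (Complex.abs_im_le_norm _).trans r1
    have e : (ρ - ((2 : ℂ) + z.im * Complex.I)).im = ρ.im - z.im := by simp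
    rw [e] at r3
    have r4 : |ρ.im| ≤ T := by
      have := abs_sub_abs_le_abs_sub ρ.im z.im
      linarith
    have := hZ T hT ρ r2 r4
    linarith
  have hb : C * Real.log (|z.im| + 3) ≤ C * (2 * Real.log T) :=
    mul_le_mul_of_nonneg_left hlog (by linarith)
  have hs' : (∑ ρ ∈ Z, ord ρ) / (Real.log T ^ (-(39 / 40) : ℝ) / 2) ≤
      4 * C * Real.log T ^ 2 := by
    rw [div_le_iff₀ (half_pos d0)]
    have h5 : 0 ≤ C * (2 * Real.log T) := by positivity
    nlinarith [mul_le_mul_of_nonneg_left d2 h5]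
  have h6 := norm_le_norm_sub_add (logDeriv riemannZeta₁ z) (∑ ρ ∈ Z, (ord ρ : ℂ) / (z - ρ))
  have h7 := z4 z hz hne
  have h8 : C * Real.log T ≤ C * Real.log T ^ 2 :=
    mul_le_mul_of_nonneg_left (by nlinarith) (by linarith)
  linarith

end Pool.Agent.MP_c853c5_nt.Z

end

section

set_option autoImplicit false

open Finset MeasureTheory

namespace Pool.Agent.MP_c853c5_nt.Z

open Pool.Agent.MP_2a1f0e_nt

lemma shift_PGt (u t : ℝ) :
    2 + u * Complex.I + t * Complex.I = 2 + ((u + t : ℝ) : ℂ) * Complex.I := by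
  push_cast
  ring

lemma term_PGt (f : ℕ → ℂ) (Δ v t : ℝ) (s : ℂ) {n : ℕ} (hn : n ≠ 0) :
    LSeries.term f s n * GG Δ v (s + t * Complex.I) =
      f n * GM.pw (n : ℝ) t * GG Δ (v - Real.log n) (s + t * Complex.I) := by
  have hn' : (n : ℂ) ≠ 0 := by exact_mod_cast hn
  rw [LSeries.term_of_ne_zero hn, Complex.cpow_def_of_ne_zero hn', div_eq_mul_inv,
    ← Complex.exp_neg, mul_assoc, mul_assoc]
  unfold GG GM.pw
  rw [← Complex.exp_add, ← Complex.exp_add, ← Complex.natCast_log]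
  congr 2
  push_cast
  ring

theorem pGt : GtStmt := by
  intro Δ v t hΔ
  set f : ℕ → ℂ := fun n => (ArithmeticFunction.vonMangoldt n : ℂ) with hf
  have hs : Summable fun n => ‖LSeries.term f 2 n‖ :=
    summable_norm_iff.2 (ArithmeticFunction.LSeriesSummable_vonMangoldt (s := 2) (by norm_num))
  have hG : Integrable fun u : ℝ => GG Δ v (2 + u * Complex.I + t * Complex.I) := by
    simp only [shift_PGt]
    exact (integrable_GG_Gauss hΔ v).comp_add_right t
  have hI : ∀ w : ℝ, ∫ u : ℝ, GG Δ w (2 + u * Complex.I + t * Complex.I) =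
      2 * Real.pi * (gg Δ w : ℂ) := fun w => by
    simp only [shift_PGt]
    rw [integral_add_right_eq_self (fun u : ℝ => GG Δ w (2 + u * Complex.I)) t,
      integral_GG_Gauss hΔ]
  have hint : ∀ n, Integrable fun u : ℝ =>
      LSeries.term f (2 + u * Complex.I) n * GG Δ v (2 + u * Complex.I + t * Complex.I) := fun n =>
    hG.bdd_mul (c := ‖LSeries.term f 2 n‖) (cont_term_Gauss f n).aestronglyMeasurable
      (Filter.Eventually.of_forall fun u => (norm_term_Gauss f u n).le)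
  have hsum : Summable fun n => ∫ u : ℝ,
      ‖LSeries.term f (2 + u * Complex.I) n * GG Δ v (2 + u * Complex.I + t * Complex.I)‖ := by
    simp only [norm_mul, norm_term_Gauss, integral_const_mul]
    exact hs.mul_right _
  refine ⟨hG.bdd_mul (c := ∑' n, ‖LSeries.term f 2 n‖) ?_
    (Filter.Eventually.of_forall fun u => ?_), ?_⟩
  · exact (continuous_tsum (cont_term_Gauss f) hs
      fun n u => (norm_term_Gauss f u n).le).aestronglyMeasurable
  · exact tsum_of_norm_bounded hs.hasSum fun n => (norm_term_Gauss f u n).le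
  · have h1 := integral_tsum_of_summable_integral_norm hint hsum
    simp only [tsum_mul_right] at h1
    have h2 : ∀ n : ℕ, ∫ u : ℝ, LSeries.term f (2 + u * Complex.I) n *
        GG Δ v (2 + u * Complex.I + t * Complex.I) =
        2 * Real.pi * (f n * GM.pw (n : ℝ) t * (gg Δ (v - Real.log n) : ℂ)) := by
      intro n
      rcases eq_or_ne n 0 with rfl | hn
      · simp [hf]
      · simp only [term_PGt f Δ v t _ hn]
        rw [integral_const_mul, hI]
        ring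
    have hpi : (Real.pi : ℂ) ≠ 0 := by exact_mod_cast Real.pi_ne_zero
    simp only [h2, tsum_mul_left] at h1
    unfold LSeries PT
    rw [← h1]
    field_simp
    rfl

end Pool.Agent.MP_c853c5_nt.Z

end

section

set_option autoImplicit false

open Finset Filter

namespace Pool.Agent.MP_c853c5_nt.Z

open Pool.Agent.MP_2a1f0e_nt

lemma GG_PEt {Δ v σ : ℝ} (u t : ℝ) (h0 : 0 < Δ) (h1 : Δ ≤ 1) (hs0 : 0 ≤ σ) (hs : σ ≤ 2) :
    ‖GG Δ v (σ + u * Complex.I + t * Complex.I)‖ ≤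
      2 * Real.exp (σ * v) * Real.exp (-(Δ ^ 2 * (u + t) ^ 2 / (4 * Real.pi))) := by
  have := norm_GG_le_EF (v := v) (u + t) h0 h1 hs0 hs
  rwa [Complex.ofReal_add, add_mul, ← add_assoc] at this

lemma left_PEt {Δ v t a c d K : ℝ} {f : ℝ → ℝ} (h0 : 0 < Δ) (h1 : Δ ≤ 1) (a0 : 0 ≤ a) (a2 : a ≤ 2)
    (hcd : c ≤ d) (hK : 0 ≤ K) (hf : ∀ u ∈ Set.Ioc c d, 0 ≤ f u ∧ f u ≤ K) :
    ∫ u in c..d, f u * ‖GG Δ v (a + u * Complex.I + t * Complex.I)‖ ≤
      24 * (K / Δ * Real.exp (a * v)) := by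
  have hp0 := Real.pi_pos
  have hi : MeasureTheory.Integrable fun u : ℝ => K * (2 * Real.exp (a * v)) *
      Real.exp (-(Δ ^ 2 / (8 * Real.pi)) * (u + t) ^ 2) :=
    ((integrable_exp_neg_mul_sq (by positivity)).comp_add_right t).const_mul _
  refine (Real.le_norm_self _).trans ((intervalIntegral.norm_integral_le_of_norm_le hcd
    (Eventually.of_forall fun u hu => ?_) hi.intervalIntegrable).trans ?_)
  · rw [Real.norm_of_nonneg (mul_nonneg (hf u hu).1 (norm_nonneg _)), mul_assoc]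
    refine mul_le_mul (hf u hu).2 ((GG_PEt u t h0 h1 a0 a2).trans ?_) (norm_nonneg _) hK
    have : -(Δ ^ 2 * (u + t) ^ 2 / (4 * Real.pi)) ≤ -(Δ ^ 2 / (8 * Real.pi)) * (u + t) ^ 2 := by
      rw [neg_mul, div_mul_eq_mul_div]
      refine neg_le_neg ?_
      gcongr
      norm_num
    gcongr
  · rw [intervalIntegral.integral_of_le hcd]
    refine (MeasureTheory.setIntegral_le_integral hi
      (Eventually.of_forall fun u => by positivity)).trans ?_
    rw [MeasureTheory.integral_const_mul, MeasureTheory.integral_add_right_eq_self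
      (fun u : ℝ => Real.exp (-(Δ ^ 2 / (8 * Real.pi)) * u ^ 2)) t]
    exact (mul_le_mul_of_nonneg_left (gauss_int_EF h0) (by positivity)).trans_eq (by ring)

lemma hor_PEt {Δ v t T a u K : ℝ} {f : ℝ → ℝ} (h0 : 0 < Δ) (h1 : Δ ≤ 1) (hv : 0 ≤ v)
    (a0 : 0 ≤ a) (a2 : a ≤ 2) (hT : 0 ≤ T) (hu : T / 2 ≤ |u + t|) (hK : 0 ≤ K)
    (hf : ∀ σ ∈ Set.Ioc a 2, 0 ≤ f σ ∧ f σ ≤ K) :
    ∫ σ in a..2, f σ * ‖GG Δ v (σ + u * Complex.I + t * Complex.I)‖ ≤
      4 * (K * (Real.exp (2 * v) * Real.exp (-(Δ ^ 2 * T ^ 2 / (32 * Real.pi))))) := by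
  have hp0 := Real.pi_pos
  refine (Real.le_norm_self _).trans ((intervalIntegral.norm_integral_le_of_norm_le_const
    (C := K * (2 * Real.exp (2 * v) * Real.exp (-(Δ ^ 2 * T ^ 2 / (32 * Real.pi)))))
    fun σ hσ => ?_).trans ?_)
  · rw [Set.uIoc_of_le a2] at hσ
    rw [Real.norm_of_nonneg (mul_nonneg (hf σ hσ).1 (norm_nonneg _))]
    refine mul_le_mul (hf σ hσ).2 ((GG_PEt u t h0 h1 (a0.trans hσ.1.le) hσ.2).trans ?_)
      (norm_nonneg _) hK
    have b4 : (T / 2) ^ 2 ≤ (u + t) ^ 2 := by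
      rw [← sq_abs (u + t)]
      gcongr
    have b5 : -(Δ ^ 2 * (u + t) ^ 2 / (4 * Real.pi)) ≤ -(Δ ^ 2 * T ^ 2 / (32 * Real.pi)) := by
      refine neg_le_neg ?_
      rw [div_le_div_iff₀ (by positivity) (by positivity)]
      nlinarith [mul_le_mul_of_nonneg_left b4 (show 0 ≤ Δ ^ 2 * Real.pi by positivity),
        show 0 ≤ Δ ^ 2 * Real.pi * T ^ 2 by positivity]
    have := hσ.2
    gcongr
  · have e : |2 - a| ≤ 2 := by
      rw [abs_of_nonneg (by linarith)]
      linarith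
    exact (mul_le_mul_of_nonneg_left e (by positivity)).trans_eq (by ring)

theorem pEt (hG : GtStmt) (hL : LdStmt) (hR : ResStmt) : EtStmt := by
  obtain ⟨C, T₀, hC, hT₀, hL⟩ := hL
  obtain ⟨C0, hC0, hS⟩ := LS_bd_EF
  refine ⟨24 * C0 + 32 * (C + 2), T₀, by positivity, hT₀, fun Δ v t T h0 h1 hv hT ht => ?_⟩
  have t0 := abs_nonneg t
  have t1 := le_abs_self t
  have t2 := neg_abs_le t
  have l1 : 1 ≤ Real.log T := by
    rw [Real.le_log_iff_exp_le (by linarith)]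
    have := Real.exp_one_lt_d9
    linarith
  replace hL := hL T hT
  have d1 : Real.log T ^ (-(39 / 40) : ℝ) ≤ 1 :=
    Real.rpow_le_one_of_one_le_of_nonpos l1 (by norm_num)
  have d2 : (Real.log T ^ 2)⁻¹ ≤ Real.log T ^ (-(39 / 40) : ℝ) := by
    rw [← Real.rpow_natCast, ← Real.rpow_neg (by linarith)]
    exact Real.rpow_le_rpow_of_exponent_le l1 (by norm_num)
  have l2 : 1 ≤ Real.log T ^ 2 := one_le_pow₀ l1
  generalize Real.log T ^ 2 = L at *
  generalize Real.log T ^ (-(39 / 40) : ℝ) = δ at *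
  have d0 : 0 < δ := lt_of_lt_of_le (by positivity) d2
  have d3 : 1 / (1 - (1 - δ / 2)) ≤ 2 * L := by
    rw [inv_le_iff_one_le_mul₀ (by linarith)] at d2
    rw [div_le_iff₀ (by linarith)]
    linarith
  have a1 : 1 - δ / 2 < 1 := by linarith
  have a0 : 0 ≤ 1 - δ / 2 := by linarith
  generalize 1 - δ / 2 = a at *
  have hL' : ∀ σ u : ℝ, a ≤ σ → σ ≤ 2 → -(T - 2) ≤ u → u ≤ T - 2 →
      riemannZeta₁ (σ + u * Complex.I) ≠ 0 ∧
        ‖logDeriv riemannZeta₁ (σ + u * Complex.I)‖ ≤ C * L := fun σ u b1 b2 b3 b4 =>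
    hL _ (by simpa using b1) (by simpa using b2) (by simpa using abs_le.2 ⟨b3, b4⟩)
  obtain ⟨hFi, hP⟩ := hG Δ v t h0
  have cd : -(T - 2) ≤ T - 2 := by linarith
  obtain ⟨Z, hZ, hb⟩ := hR (fun s => GG Δ v (s + t * Complex.I)) a (-(T - 2)) (T - 2)
    ((diff_GG_EF Δ v).comp (differentiable_id.add_const _)) a1 (by linarith) (by linarith)
    (fun σ hσ => ⟨(hL' σ _ hσ.1 hσ.2 le_rfl cd).1, (hL' σ _ hσ.1 hσ.2 cd le_rfl).1⟩)
    fun u hu => (hL' a u le_rfl (by linarith) hu.1 hu.2).1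
  obtain rfl : Z = ∅ := eq_empty_of_forall_notMem fun ρ hρ => by
    obtain ⟨z1, z2, z3, z4, z5⟩ := hZ ρ hρ
    exact (hL ρ z2 z3 (abs_le.2 ⟨z4, z5⟩)).1 z1
  rw [sum_empty, sub_zero] at hb
  have s1 := tail_EF (v := v) (T := T / 2) (c := -(T - 2) + t) (d := T - 2 + t) _ h0 (by linarith)
    (by linarith) (by linarith) hC0 (hFi.comp_sub_right t) fun u => by
      rw [norm_mul]
      have := GG_PEt (v := v) (σ := 2) (u - t) t h0 h1 (by norm_num) le_rfl
      rw [Complex.ofReal_ofNat, sub_add_cancel] at this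
      exact mul_le_mul (hS _) this (norm_nonneg _) hC0
  rw [MeasureTheory.integral_sub_right_eq_self (fun u : ℝ =>
      LSeries (fun n => (ArithmeticFunction.vonMangoldt n : ℂ)) (2 + u * Complex.I) *
        GG Δ v (2 + u * Complex.I + t * Complex.I)) t,
    intervalIntegral.integral_comp_sub_right (fun u : ℝ =>
      LSeries (fun n => (ArithmeticFunction.vonMangoldt n : ℂ)) (2 + u * Complex.I) *
        GG Δ v (2 + u * Complex.I + t * Complex.I)) t, add_sub_cancel_right, add_sub_cancel_right,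
    show Δ ^ 2 * (T / 2) ^ 2 / (8 * Real.pi) = Δ ^ 2 * T ^ 2 / (32 * Real.pi) by ring] at s1
  have K0 : 0 ≤ (C + 2) * L := by positivity
  have s2 := left_PEt (v := v) (t := t) (K := (C + 2) * L) (f := fun u : ℝ =>
    ‖logDeriv riemannZeta₁ (a + u * Complex.I)‖ + 1 / (1 - a)) h0 h1 a0 (by linarith) cd K0
    fun u hu => ⟨add_nonneg (norm_nonneg _) (one_div_nonneg.2 (by linarith)), by
      linarith [(hL' a u le_rfl (by linarith) hu.1.le hu.2).2]⟩
  have s3 : ∀ u : ℝ, |u| = T - 2 → ∫ σ in a..2,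
      (‖logDeriv riemannZeta₁ (σ + u * Complex.I)‖ + 1 / |u|) *
        ‖GG Δ v (σ + u * Complex.I + t * Complex.I)‖ ≤ 4 * ((C + 2) * L *
          (Real.exp (2 * v) * Real.exp (-(Δ ^ 2 * T ^ 2 / (32 * Real.pi))))) := fun u hu =>
    hor_PEt (f := fun σ : ℝ => ‖logDeriv riemannZeta₁ (σ + u * Complex.I)‖ + 1 / |u|) h0 h1 hv a0
      (by linarith) (by linarith) (by linarith [abs_sub (u + t) t, add_sub_cancel_right u t ▸ hu])
      K0 fun σ hσ => ⟨by positivity, by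
        have b1 : 1 / |u| ≤ 1 := by
          rw [div_le_one (by linarith)]
          linarith
        obtain ⟨b2, b3⟩ := abs_le.1 hu.le
        linarith [(hL' σ u hσ.1.le hσ.2 b2 b3).2]⟩
  have s4 := s3 (T - 2) (abs_of_nonneg (by linarith))
  have s5 := s3 (-(T - 2)) ((abs_neg _).trans (abs_of_nonneg (by linarith)))
  have hp : 3 < Real.pi := Real.pi_gt_three
  have hpc : (Real.pi : ℂ) ≠ 0 := by exact_mod_cast Real.pi_ne_zero
  have n1 : ‖(1 / (2 * Real.pi) : ℂ)‖ ≤ 1 := by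
    rw [norm_div, norm_one, norm_mul, Complex.norm_real, Real.norm_of_nonneg Real.pi_pos.le,
      Complex.norm_ofNat, div_le_one (by positivity)]
    linarith
  have n2 : ∀ x y z : ℂ, ‖1 / (2 * Real.pi) * x - z‖ ≤ ‖x - y‖ + ‖y - 2 * Real.pi * z‖ := by
    intro x y z
    rw [show 1 / (2 * Real.pi) * x - z = 1 / (2 * Real.pi) * ((x - y) + (y - 2 * Real.pi * z)) by
      field_simp
      ring, norm_mul]
    exact (mul_le_of_le_one_left (norm_nonneg _) n1).trans (norm_add_le _ _)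
  rw [hP]
  refine (n2 _ _ _).trans ((add_le_add s1 (hb.trans (add_le_add_three s2 s5 s4))).trans ?_)
  have pA := (Real.exp_pos (a * v)).le
  have pB : 0 ≤ Real.exp (2 * v) * Real.exp (-(Δ ^ 2 * T ^ 2 / (32 * Real.pi))) := by positivity
  rw [mul_right_comm (Real.exp (2 * v)), mul_div_assoc (C + 2), mul_div_assoc _ L]
  generalize Real.exp (2 * v) * Real.exp (-(Δ ^ 2 * T ^ 2 / (32 * Real.pi))) = B at *
  generalize Real.exp (a * v) = A at *
  have q1 : 1 / Δ ≤ L / Δ := by gcongr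
  have q2 : L ≤ L / Δ := le_div_self (by linarith) h0 h1
  have q0 : 0 ≤ L / Δ := by positivity
  generalize L / Δ = Q at *
  have r1 := mul_le_mul_of_nonneg_left q1 (mul_nonneg hC0 pB)
  have r2 := mul_le_mul_of_nonneg_left q2 (mul_nonneg (show 0 ≤ C + 2 by positivity) pB)
  have r3 : 0 ≤ C0 * (Q * A) := by positivity
  have r4 : 0 ≤ (C + 2) * (Q * A) := by positivity
  have r5 : 0 ≤ (C + 2) * (Q * B) := by positivity
  linarith

end Pool.Agent.MP_c853c5_nt.Z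

end

section

/-!
From the smoothed twisted density to the sharp twisted sum.
-/

set_option autoImplicit false

open Finset MeasureTheory Real
open ArithmeticFunction (vonMangoldt)

namespace Pool.Agent.MP_c853c5_nt.Z

open Pool.Agent.MP_2a1f0e_nt

lemma norm_term_PCut {Δ : ℝ} (h : 0 < Δ) (v t : ℝ) (n : ℕ) :
    ‖(vonMangoldt n : ℂ) * GM.pw (n : ℝ) t * (gg Δ (v - log n) : ℂ)‖ =
      vonMangoldt n * gg Δ (v - log n) := by
  rw [norm_mul, norm_mul, GM.norm_pw, mul_one, Complex.norm_real, Complex.norm_real,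
    Real.norm_of_nonneg ArithmeticFunction.vonMangoldt_nonneg,
    Real.norm_of_nonneg (gg_nonneg_Sand h _)]

lemma tail_PCut {Δ d v : ℝ} (h : 0 < Δ) (h1 : Δ ≤ 1) (hd : 0 ≤ d) (t : ℝ) (S : Finset ℕ)
    (hS : ∀ n ∉ S, d ≤ |v - log n|) :
    ‖PT Δ v t - ∑ n ∈ S, (vonMangoldt n : ℂ) * GM.pw (n : ℝ) t * (gg Δ (v - log n) : ℂ)‖ ≤
      Δ⁻¹ * hh_Sand Δ d * exp (2 * v + 1) * ∑' n, ww_Sand n := by
  have h0 : Summable fun n : ℕ =>
      (vonMangoldt n : ℂ) * GM.pw (n : ℝ) t * (gg Δ (v - log n) : ℂ) :=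
    Summable.of_norm (by simpa only [norm_term_PCut h] using summable_Sand h h1 v)
  have h2 : HasSum (fun n : ℕ => if n ∈ S then
      (vonMangoldt n : ℂ) * GM.pw (n : ℝ) t * (gg Δ (v - log n) : ℂ) else 0)
      (∑ n ∈ S, (vonMangoldt n : ℂ) * GM.pw (n : ℝ) t * (gg Δ (v - log n) : ℂ)) := by
    rw [← sum_congr rfl fun n (hn : n ∈ S) => if_pos (e := (0 : ℂ)) hn]
    exact hasSum_sum_of_ne_finset_zero fun n hn => if_neg hn
  refine (h0.hasSum.sub h2).norm_le_of_bounded (ww_summable_Sand.hasSum.mul_left _) fun n => ?_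
  split_ifs with hn
  · rw [sub_self, norm_zero]
    exact mul_nonneg (by unfold hh_Sand; positivity)
      (mul_nonneg ArithmeticFunction.vonMangoldt_nonneg (exp_nonneg _))
  · rw [sub_zero, norm_term_PCut h]
    exact term_le_Sand h h1 hd (hS n hn)

lemma exp_log_PCut {N : ℕ} (hN : 0 < N) (t : ℝ) :
    Complex.exp ((1 + t * Complex.I) * (log N : ℝ)) = (N : ℂ) * GM.pw (N : ℝ) t := by
  have e : ((N : ℕ) : ℂ) = Complex.exp (log N : ℝ) := by
    rw [← Complex.ofReal_exp, exp_log (by exact_mod_cast hN), Complex.ofReal_natCast]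
  rw [GM.pw, e, ← Complex.exp_add]
  congr 1
  ring

lemma main_PCut {N M : ℕ} {Δ : ℝ} (hN : 0 < N) (hNM : N ≤ M) (hM : M ≤ 2 * N) (h : 0 < Δ)
    (h1 : Δ ≤ 1) (t : ℝ) :
    ‖(∫ v in log N..log M, GG Δ v (1 + t * Complex.I)) - MT N M t‖ ≤ 15 * (N * Δ) := by
  have hs : (1 : ℂ) + t * Complex.I ≠ 0 := fun e => by simpa using congrArg Complex.re e
  have e1 : ∀ v : ℝ, GG Δ v (1 + t * Complex.I) =
      GG Δ 0 (1 + t * Complex.I) * Complex.exp ((1 + t * Complex.I) * v) := fun v => by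
    rw [GG, GG, ← Complex.exp_add]
    congr 1
    push_cast
    ring
  have e2 : (∫ v in log N..log M, GG Δ v (1 + t * Complex.I)) - MT N M t =
      (GG Δ 0 (1 + t * Complex.I) - 1) * MT N M t := by
    rw [intervalIntegral.integral_congr (fun v _ => e1 v), intervalIntegral.integral_const_mul,
      integral_exp_mul_complex hs, exp_log_PCut hN, exp_log_PCut (hN.trans_le hNM), sub_mul,
      one_mul, MT]
  have hρ : 0 < 1 + |t| := by positivity
  have hN0 : (0 : ℝ) ≤ N := Nat.cast_nonneg N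
  rw [e2, norm_mul]
  refine (mul_le_mul_of_nonneg_left (norm_MT_le hM t) (norm_nonneg _)).trans ?_
  have key : ‖GG Δ 0 (1 + t * Complex.I) - 1‖ ≤ 3 * (Δ * (1 + |t|)) := by
    rcases le_total (Δ * (1 + |t|)) 1 with hc | hc
    · have a1 : ‖(1 : ℂ) + t * Complex.I‖ ≤ 1 + |t| :=
        (norm_add_le _ _).trans (by simp)
      have a2 : ‖(Δ : ℂ) ^ 2 * (1 + t * Complex.I) ^ 2 / (4 * π)‖ ≤ Δ * (1 + |t|) := by
        have a3 : ‖(4 * π : ℂ)‖ = 4 * π := by
          rw [norm_mul, Complex.norm_real, Real.norm_of_nonneg pi_pos.le]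
          simp
        rw [norm_div, norm_mul, norm_pow, norm_pow, Complex.norm_real, Real.norm_of_nonneg h.le,
          a3, div_le_iff₀ (by positivity), ← mul_pow]
        have a4 : Δ * ‖(1 : ℂ) + t * Complex.I‖ ≤ Δ * (1 + |t|) :=
          mul_le_mul_of_nonneg_left a1 h.le
        have a5 := pow_le_pow_left₀ (by positivity) a4 2
        have a6 : 0 ≤ Δ * (1 + |t|) := by positivity
        nlinarith [pi_gt_three]
      have a7 : GG Δ 0 (1 + t * Complex.I) =
          Complex.exp ((Δ : ℂ) ^ 2 * (1 + t * Complex.I) ^ 2 / (4 * π)) := by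
        rw [GG]
        congr 1
        simp
      rw [a7]
      have a8 := Complex.norm_exp_sub_one_le (a2.trans hc)
      have a6 : 0 ≤ Δ * (1 + |t|) := by positivity
      linarith
    · have a1 := norm_GG_le_EF (v := 0) (σ := 1) t h h1 zero_le_one one_le_two
      rw [Complex.ofReal_one, mul_zero, exp_zero, mul_one] at a1
      have a2 : exp (-(Δ ^ 2 * t ^ 2 / (4 * π))) ≤ 1 :=
        exp_le_one_iff.2 (neg_nonpos.2 (by positivity))
      have a3 := norm_sub_le (GG Δ 0 (1 + t * Complex.I)) 1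
      rw [norm_one] at a3
      linarith
  refine (mul_le_mul_of_nonneg_right key (by positivity)).trans (le_of_eq ?_)
  field_simp
  ring

lemma int_PCut {Δ a b B : ℝ} (hab : a ≤ b) (hb : b ≤ a + 1) (hB : 0 ≤ B) (t : ℝ) (S : Finset ℕ)
    (c : ℕ → ℂ) (hS : ∀ v ∈ Set.Icc a b,
      ‖∑ n ∈ S, c n * (gg Δ (v - log n) : ℂ) - GG Δ v (1 + t * Complex.I)‖ ≤ B) :
    ‖∑ n ∈ S, c n * ((∫ v in a..b, gg Δ (v - log n) : ℝ) : ℂ) -
      ∫ v in a..b, GG Δ v (1 + t * Complex.I)‖ ≤ B := by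
  have c1 : ∀ n : ℕ, Continuous fun v : ℝ => c n * (gg Δ (v - log n) : ℂ) := fun n => by
    unfold gg
    fun_prop
  have c2 : Continuous fun v : ℝ => GG Δ v (1 + t * Complex.I) := by
    unfold GG
    fun_prop
  have e : ∑ n ∈ S, c n * ((∫ v in a..b, gg Δ (v - log n) : ℝ) : ℂ) =
      ∫ v in a..b, ∑ n ∈ S, c n * (gg Δ (v - log n) : ℂ) := by
    rw [intervalIntegral.integral_finsetSum fun n _ => (c1 n).intervalIntegrable a b]
    refine sum_congr rfl fun n _ => ?_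
    rw [intervalIntegral.integral_const_mul, intervalIntegral.integral_ofReal]
  rw [e, ← intervalIntegral.integral_sub
    ((continuous_finsetSum _ fun n _ => c1 n).intervalIntegrable a b) (c2.intervalIntegrable a b)]
  refine (intervalIntegral.norm_integral_le_of_norm_le_const (C := B) fun v hv => ?_).trans ?_
  · rw [Set.uIoc_of_le hab] at hv
    exact hS v ⟨hv.1.le, hv.2⟩
  · rw [abs_of_nonneg (by linarith)]
    exact mul_le_of_le_one_right hB (by linarith)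

lemma up_PCut {x d : ℝ} {n : ℕ} (hx : 0 < x) (hd : 0 < d) (hd' : d ≤ 1 / 2)
    (hn : ⌈x * (1 + 2 * d)⌉₊ < n) : x < n ∧ log x + d ≤ log n := by
  have e1 : exp d ≤ 1 + 2 * d := by
    refine (exp_bound_div_one_sub_of_interval hd.le (by linarith)).trans ?_
    rw [div_le_iff₀ (by linarith)]
    nlinarith
  have a1 : x * (1 + 2 * d) ≤ n := (Nat.le_ceil _).trans (by exact_mod_cast hn.le)
  refine ⟨by nlinarith, ?_⟩
  have a2 : log (x * exp d) ≤ log n :=
    log_le_log (by positivity) ((mul_le_mul_of_nonneg_left e1 hx.le).trans a1)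
  rwa [log_mul hx.ne' (exp_ne_zero _), log_exp] at a2

lemma low_PCut {x d : ℝ} {n : ℕ} (hx : 3 ≤ x) (hd : 0 < d) (hd' : d ≤ 1 / 2)
    (hn : n ≤ ⌊x * (1 - d)⌋₊) : n ≤ x ∧ log n + d ≤ log x := by
  have e2 : 1 - d ≤ exp (-d) := by linarith [add_one_le_exp (-d)]
  have a1 : (n : ℝ) ≤ x * (1 - d) :=
    le_trans (by exact_mod_cast hn) (Nat.floor_le (mul_nonneg (by linarith) (by linarith)))
  refine ⟨by nlinarith, ?_⟩
  rcases n.eq_zero_or_pos with rfl | h0
  · have a2 : 1 ≤ log x := by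
      rw [le_log_iff_exp_le (by linarith)]
      linarith [exp_one_lt_d9]
    simp only [Nat.cast_zero, log_zero]
    linarith
  · have a2 : log n ≤ log (x * exp (-d)) :=
      log_le_log (by exact_mod_cast h0) (a1.trans (mul_le_mul_of_nonneg_left e2 (by linarith)))
    rw [log_mul (by linarith) (exp_ne_zero _), log_exp] at a2
    linarith

lemma card_PCut {x d : ℝ} (hx : 0 ≤ x) (hd : 0 ≤ d) :
    ((Ioc ⌊x * (1 - d)⌋₊ ⌈x * (1 + 2 * d)⌉₊).card : ℝ) ≤ 3 * x * d + 2 := by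
  have a1 : x * (1 - d) < ⌊x * (1 - d)⌋₊ + 1 := Nat.lt_floor_add_one _
  have a2 : (⌈x * (1 + 2 * d)⌉₊ : ℝ) < x * (1 + 2 * d) + 1 := Nat.ceil_lt_add_one (by positivity)
  rw [Nat.card_Ioc]
  rcases le_total ⌊x * (1 - d)⌋₊ ⌈x * (1 + 2 * d)⌉₊ with h | h
  · rw [Nat.cast_sub h]
    linarith
  · rw [Nat.sub_eq_zero_of_le h, Nat.cast_zero]
    positivity

lemma cut_PCut {N M : ℕ} {Δ d : ℝ} (hN : 3 ≤ N) (hNM : N ≤ M) (hM : M ≤ 2 * N) (h : 0 < Δ)
    (hd : 0 < d) (hd' : d ≤ 1 / 2) (t : ℝ) :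
    ‖LT N M t - ∑ n ∈ Ioc ⌊(N : ℝ) * (1 - d)⌋₊ ⌈(M : ℝ) * (1 + 2 * d)⌉₊,
      (vonMangoldt n : ℂ) * GM.pw (n : ℝ) t *
        ((∫ v in log N..log M, gg Δ (v - log n) : ℝ) : ℂ)‖ ≤
      3 * log N * (10 * hh_Sand Δ d * N + 9 * (N * d + 1)) := by
  have hN' : (3 : ℝ) ≤ N := by exact_mod_cast hN
  have hNM' : (N : ℝ) ≤ M := by exact_mod_cast hNM
  have hM' : (M : ℝ) ≤ 2 * N := by exact_mod_cast hM
  have hab : log N ≤ log M := log_le_log (by linarith) hNM'
  have hq : 0 < hh_Sand Δ d := exp_pos _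
  have hL : 0 ≤ log N := log_nonneg (by linarith)
  obtain ⟨S, hS⟩ : ∃ S, S = Ioc ⌊(N : ℝ) * (1 - d)⌋₊ ⌈(M : ℝ) * (1 + 2 * d)⌉₊ := ⟨_, rfl⟩
  obtain ⟨U, hU⟩ : ∃ U, U = Ioc ⌊(N : ℝ) * (1 - d)⌋₊ ⌈(N : ℝ) * (1 + 2 * d)⌉₊ ∪
    Ioc ⌊(M : ℝ) * (1 - d)⌋₊ ⌈(M : ℝ) * (1 + 2 * d)⌉₊ := ⟨_, rfl⟩
  have hB : (⌈(M : ℝ) * (1 + 2 * d)⌉₊ : ℝ) ≤ 5 * N := by
    have a2 : (⌈(M : ℝ) * (1 + 2 * d)⌉₊ : ℝ) < M * (1 + 2 * d) + 1 :=
      Nat.ceil_lt_add_one (by positivity)
    nlinarith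
  have hsub : Ioc N M ⊆ S := by
    rw [hS]
    refine Ioc_subset_Ioc ?_ ?_
    · exact_mod_cast (low_PCut hN' hd hd' le_rfl).1
    · by_contra hc
      exact lt_irrefl _ (up_PCut (by linarith) hd hd' (not_le.1 hc)).1
  have e : LT N M t = ∑ n ∈ S, (vonMangoldt n : ℂ) * GM.pw (n : ℝ) t *
      ((if n ∈ Ioc N M then 1 else 0 : ℝ) : ℂ) := by
    rw [LT, ← sum_subset hsub fun n _ hn => by rw [if_neg hn]; simp]
    exact sum_congr rfl fun n hn => by rw [if_pos hn]; simp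
  have cS : (S.card : ℝ) ≤ 5 * N := by
    refine le_trans ?_ hB
    rw [hS, Nat.card_Ioc]
    exact_mod_cast Nat.sub_le _ _
  have cU : (U.card : ℝ) ≤ 9 * (N * d + 1) := by
    have a1 := card_PCut (x := N) (by linarith) hd.le
    have a2 := card_PCut (x := M) (by linarith) hd.le
    have a3 : (U.card : ℝ) ≤ (Ioc ⌊(N : ℝ) * (1 - d)⌋₊ ⌈(N : ℝ) * (1 + 2 * d)⌉₊).card +
        (Ioc ⌊(M : ℝ) * (1 - d)⌋₊ ⌈(M : ℝ) * (1 + 2 * d)⌉₊).card := by
      rw [hU]
      exact_mod_cast card_union_le _ _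
    nlinarith
  rw [← hS, e, ← sum_sub_distrib]
  refine (norm_sum_le_of_le S (n := fun n =>
    3 * log N * (2 * hh_Sand Δ d + if n ∈ U then 1 else 0)) fun n hn => ?_).trans ?_
  · have hn' := hn
    rw [hS, mem_Ioc] at hn'
    have a0 : (0 : ℝ) < n := by exact_mod_cast (Nat.zero_le _).trans_lt hn'.1
    have a1 : vonMangoldt n ≤ 3 * log N := by
      refine ArithmeticFunction.vonMangoldt_le_log.trans ?_
      have a2 : (n : ℝ) ≤ (N : ℝ) ^ 3 := by
        have a3 : (n : ℝ) ≤ 5 * N := le_trans (by exact_mod_cast hn'.2) hB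
        have a4 : 9 ≤ (N : ℝ) ^ 2 := by nlinarith
        nlinarith
      have a5 := log_le_log a0 a2
      rwa [log_pow, Nat.cast_ofNat] at a5
    have b1 := int_le_Sand h hab (log n)
    have b2 : 0 ≤ ∫ v in log N..log M, gg Δ (v - log n) :=
      intervalIntegral.integral_nonneg hab fun v _ => gg_nonneg_Sand h _
    rw [← mul_sub, norm_mul, norm_mul, GM.norm_pw, mul_one, ← Complex.ofReal_sub,
      Complex.norm_real, Complex.norm_real,
      Real.norm_of_nonneg ArithmeticFunction.vonMangoldt_nonneg, Real.norm_eq_abs]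
    refine mul_le_mul a1 ?_ (abs_nonneg _) (by positivity)
    by_cases hu : n ∈ U
    · rw [if_pos hu, abs_le]
      split_ifs <;> constructor <;> linarith
    · rw [if_neg hu]
      rw [hU, mem_union, mem_Ioc, mem_Ioc, not_or, not_and, not_and', not_le, not_lt] at hu
      have b3 := up_PCut (by linarith) hd hd' (hu.1 hn'.1)
      have b4 := low_PCut (by linarith) hd hd' (hu.2 hn'.2)
      have b5 := le_int_Sand h hd.le b3.2 b4.2
      rw [if_pos (mem_Ioc.2 ⟨by exact_mod_cast b3.1, by exact_mod_cast b4.1⟩), abs_le]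
      constructor <;> linarith
  · rw [← mul_sum, sum_add_distrib, sum_const, nsmul_eq_mul, sum_ite_mem, sum_const, nsmul_eq_mul,
      mul_one]
    refine mul_le_mul_of_nonneg_left ?_ (by positivity)
    have a1 : ((S ∩ U).card : ℝ) ≤ U.card := by exact_mod_cast card_le_card inter_subset_right
    nlinarith

theorem pCut : CutStmt := by
  obtain ⟨C, hC⟩ : ∃ C, C = ∑' n, ww_Sand n := ⟨_, rfl⟩
  have hC0 : 0 ≤ C := hC ▸ tsum_nonneg fun n =>
    mul_nonneg ArithmeticFunction.vonMangoldt_nonneg (exp_nonneg _)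
  refine ⟨4 * exp 1 * C + 30, by positivity, fun N M Δ d t E hN hNM hM h h1 hd hd' hE hP => ?_⟩
  change _ ≤ E + _ * (_ + _ + hh_Sand Δ d * _ / _)
  have hN' : (3 : ℝ) ≤ N := by exact_mod_cast hN
  have hNM' : (N : ℝ) ≤ M := by exact_mod_cast hNM
  have hM' : (M : ℝ) ≤ 2 * N := by exact_mod_cast hM
  have hab : log N ≤ log M := log_le_log (by linarith) hNM'
  have l2 : log M ≤ log N + 1 := by
    have a1 : log M ≤ log (2 * N) := log_le_log (by linarith) hM'
    rw [log_mul two_ne_zero (by linarith)] at a1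
    linarith [log_two_lt_d9]
  have hq : 0 < hh_Sand Δ d := exp_pos _
  have hL : 0 ≤ log N := log_nonneg (by linarith)
  obtain ⟨K, hK⟩ : ∃ K, K = Δ⁻¹ * hh_Sand Δ d * (4 * (N : ℝ) ^ 2 * exp 1) * C := ⟨_, rfl⟩
  have hK0 : 0 ≤ K := by rw [hK]; positivity
  obtain ⟨R, hR⟩ : ∃ R, R = hh_Sand Δ d * (N : ℝ) ^ 3 / Δ := ⟨_, rfl⟩
  have hK1 : K ≤ 4 * exp 1 * C * R := by
    have a1 : 4 * exp 1 * C * (N : ℝ) ^ 2 ≤ 4 * exp 1 * C * (N : ℝ) ^ 3 :=
      mul_le_mul_of_nonneg_left (pow_le_pow_right₀ (by linarith) (by norm_num)) (by positivity)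
    have a2 := mul_le_mul_of_nonneg_left a1 (show 0 ≤ Δ⁻¹ * hh_Sand Δ d by positivity)
    rw [hK, hR, div_eq_mul_inv]
    linarith
  have hK2 : log N * (hh_Sand Δ d * N) ≤ R := by
    have a1 : log N ≤ (N : ℝ) ^ 2 := by
      nlinarith [log_le_sub_one_of_pos (show (0 : ℝ) < N by linarith)]
    have a2 : log N * (hh_Sand Δ d * N) ≤ hh_Sand Δ d * (N : ℝ) ^ 3 :=
      (mul_le_mul_of_nonneg_right a1 (by positivity)).trans (le_of_eq (by ring))
    rw [hR]
    exact a2.trans (le_div_self (by positivity) h h1)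
  have c1 := cut_PCut hN hNM hM h hd hd' t
  have c3 := main_PCut (by omega) hNM hM h h1 t
  have c2 := int_PCut (Δ := Δ) hab l2 (add_nonneg hE hK0) t
    (Ioc ⌊(N : ℝ) * (1 - d)⌋₊ ⌈(M : ℝ) * (1 + 2 * d)⌉₊)
    (fun n => (vonMangoldt n : ℂ) * GM.pw (n : ℝ) t) fun v hv => by
      have b3 := tail_PCut h h1 hd.le t (Ioc ⌊(N : ℝ) * (1 - d)⌋₊ ⌈(M : ℝ) * (1 + 2 * d)⌉₊)
        (v := v) fun n hn => by
          rw [mem_Ioc, not_and_or, not_lt, not_le] at hn
          refine le_abs.2 (hn.imp (fun hn => ?_) fun hn => ?_)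
          · linarith [hv.1, (low_PCut hN' hd hd' hn).2]
          · linarith [hv.2, (up_PCut (by linarith) hd hd' hn).2]
      have b4 : exp (2 * v + 1) ≤ 4 * (N : ℝ) ^ 2 * exp 1 := by
        have b5 : exp v ≤ 2 * N := by
          refine (exp_le_exp.2 hv.2).trans ?_
          rw [exp_log (by linarith)]
          exact hM'
        rw [exp_add, two_mul, exp_add]
        refine mul_le_mul_of_nonneg_right ?_ (exp_nonneg _)
        nlinarith [exp_pos v]
      have b6 : Δ⁻¹ * hh_Sand Δ d * exp (2 * v + 1) * C ≤ K := by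
        rw [hK]
        gcongr
      rw [← hC, norm_sub_rev] at b3
      exact (norm_sub_le_norm_sub_add_norm_sub _ (PT Δ v t) _).trans
        (by linarith [hP v hv])
  refine (norm_sub_le_norm_sub_add_norm_sub _ _ _).trans ((add_le_add c1
    ((norm_sub_le_norm_sub_add_norm_sub _ _ _).trans (add_le_add c2 c3))).trans ?_)
  rw [← hR]
  have d1 : 0 ≤ (N * d + 1) * log N := by positivity
  have d2 : 0 ≤ N * Δ := by positivity
  have d3 : 0 ≤ 4 * exp 1 * C := by positivity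
  nlinarith [mul_nonneg d3 d1, mul_nonneg d3 d2]

end Pool.Agent.MP_c853c5_nt.Z

end

section

/-! The twisted prime number theorem from the smoothed estimate. -/

set_option autoImplicit false

open Finset Filter Real

namespace Pool.Agent.MP_c853c5_nt.Z

open Pool.Agent.MP_2a1f0e_nt

lemma ev_PTw {A B c : ℝ} (hA : 0 ≤ A) (hB : 0 ≤ B) (hc : 0 < c) (m : ℕ) {i l : ℕ} (hi : i ≤ l)
    (hl : 1 ≤ l) : ∀ᶠ w : ℝ in atTop, A * w ^ m * exp (B * w ^ i) ≤ exp (c * w ^ (l + 1)) := by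
  filter_upwards [eventually_ge_atTop 1, eventually_ge_atTop ((A + m + B) / c)] with w h1 h2
  have a1 : 1 ≤ w ^ l := one_le_pow₀ h1
  have a2 : w ≤ w ^ l := le_self_pow₀ h1 (by omega)
  have a3 : w ^ i ≤ w ^ l := pow_le_pow_right₀ h1 hi
  have a4 : A ≤ exp A := by linarith [add_one_le_exp A]
  have a5 : w ^ m ≤ exp (m * w) := by
    rw [exp_nat_mul]
    exact pow_le_pow_left₀ (by linarith) (by linarith [add_one_le_exp w]) m
  rw [div_le_iff₀ hc] at h2
  calc _ ≤ exp A * exp (m * w) * exp (B * w ^ i) := by gcongr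
    _ = exp (A * 1 + m * w + B * w ^ i) := by rw [exp_add, exp_add, mul_one]
    _ ≤ exp (A * w ^ l + m * w ^ l + B * w ^ l) := by gcongr
    _ = exp ((A + m + B) * w ^ l) := by ring_nf
    _ ≤ exp (w * c * w ^ l) := by gcongr
    _ = _ := by ring_nf

lemma term_PTw {P x y u z : ℝ} (h : 6 * P * exp x ≤ exp y) (hz : u + y ≤ z + x) :
    P * exp u ≤ exp z / 6 := by
  have h1 : exp y * exp u ≤ exp z * exp x := by
    rw [← exp_add, ← exp_add]
    exact exp_le_exp.2 (by linarith)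
  have h2 : 6 * P * exp x * exp u ≤ exp y * exp u := mul_le_mul_of_nonneg_right h (exp_pos u).le
  have h3 : 6 * (P * exp u) * exp x ≤ exp z * exp x := by linarith
  have := le_of_mul_le_mul_right h3 (exp_pos x)
  linarith

lemma key_PTw {C D K c : ℝ} (hC : 0 < C) (hD : 0 < D) (hc : 0 < c) : ∀ᶠ w : ℝ in atTop,
    2 ≤ w ∧ exp (-(2 * w ^ 4)) * w ^ 200 ≤ 1 / 2 ∧
    C * (K * w ^ 200) ^ 2 / exp (-(2 * w ^ 4)) * (2 * exp (w ^ 200) * exp (-(c * w ^ 5)) +
        4 * exp (w ^ 200) ^ 2 * exp (-(1 / (64 * π) * w ^ 400))) +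
      D * ((exp (w ^ 200) * (exp (-(2 * w ^ 4)) * w ^ 200) + 1) * w ^ 200 +
        exp (w ^ 200) * exp (-(2 * w ^ 4)) +
        exp (-(π / 2 * w ^ 400)) * exp (w ^ 200) ^ 3 / exp (-(2 * w ^ 4))) ≤
      exp (w ^ 200) * exp (-w ^ 4) := by
  filter_upwards [eventually_ge_atTop 2,
    ev_PTw (A := 2) (B := 0) (c := 2) (i := 0) (l := 3) (by norm_num) le_rfl two_pos 200
      (by norm_num) (by norm_num),
    ev_PTw (A := 12 * C * K ^ 2) (B := 3) (i := 4) (l := 4) (by positivity) (by norm_num) hc 400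
      le_rfl (by norm_num),
    ev_PTw (A := 24 * C * K ^ 2) (B := 4) (c := 1 / (64 * π)) (i := 200) (l := 399) (by positivity)
      (by norm_num) (by positivity) 400 (by norm_num) (by norm_num),
    ev_PTw (A := 6 * D) (B := 0) (c := 1) (i := 0) (l := 3) (by positivity) le_rfl one_pos 400
      (by norm_num) (by norm_num),
    ev_PTw (A := 6 * D) (B := 1) (c := 1) (i := 4) (l := 199) (by positivity) zero_le_one one_pos
      200 (by norm_num) (by norm_num),
    ev_PTw (A := 6 * D) (B := 0) (c := 1) (i := 0) (l := 3) (by positivity) le_rfl one_pos 0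
      (by norm_num) (by norm_num),
    ev_PTw (A := 6 * D) (B := 5) (c := π / 2) (i := 200) (l := 399) (by positivity) (by norm_num)
      (by positivity) 0 (by norm_num) (by norm_num)] with w h0 h1 h2 h3 h4 h5 h6 h7
  simp only [Nat.reduceAdd] at h1 h2 h3 h4 h5 h6 h7
  have e4 : w ^ 400 = (w ^ 200) ^ 2 := by rw [← pow_mul]
  have w0 : 0 < w := by linarith
  have l4 : w ^ 4 ≤ w ^ 200 := pow_le_pow_right₀ (by linarith) (by norm_num)
  have p2 : 0 < w ^ 200 := by positivity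
  have p4 : 0 < w ^ 400 := by positivity
  generalize w ^ 400 = Q at *
  generalize w ^ 200 = L at *
  generalize w ^ 5 = b at *
  generalize w ^ 4 = a at *
  refine ⟨h0, ?_, ?_⟩
  · rw [zero_mul, exp_zero, mul_one] at h1
    rw [exp_neg, inv_mul_le_iff₀ (exp_pos _)]
    linarith
  have t1 := term_PTw (P := 2 * C * K ^ 2 * Q) (u := 2 * a + L + -(c * b)) (z := L + -a)
    (le_of_eq_of_le (by ring) h2) (by linarith)
  have t2 := term_PTw (P := 4 * C * K ^ 2 * Q) (u := 2 * a + L + L + -(1 / (64 * π) * Q))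
    (z := L + -a) (le_of_eq_of_le (by ring) h3) (by linarith)
  have t3 := term_PTw (P := D * Q) (u := L + -(2 * a)) (z := L + -a)
    (le_of_eq_of_le (by ring) h4) (by linarith)
  have t4 := term_PTw (P := D * L) (u := 0) (z := L + -a)
    (le_of_eq_of_le (by ring) h5) (by linarith)
  have t5 := term_PTw (P := D) (u := L + -(2 * a)) (z := L + -a)
    (le_of_eq_of_le (by ring) h6) (by linarith)
  have t6 := term_PTw (P := D) (u := -(π / 2 * Q) + L + L + L + 2 * a) (z := L + -a)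
    (le_of_eq_of_le (by ring) h7) (by linarith)
  simp only [exp_add, exp_zero] at t1 t2 t3 t4 t5 t6
  rw [div_eq_mul_inv _ (exp _), div_eq_mul_inv _ (exp _), ← exp_neg, neg_neg]
  subst e4
  linarith

theorem pTw (hE : EtStmt) (hC : CutStmt) : TwStmt := by
  intro k
  obtain ⟨C, T₀, hC0, hT, hE⟩ := hE
  obtain ⟨D, hD0, hC⟩ := hC
  have K0 : (0 : ℝ) < (k + 3 : ℕ) := by positivity
  have hw : Tendsto (fun N : ℕ => log N ^ (1 / 200 : ℝ)) atTop atTop :=
    (tendsto_rpow_atTop (by norm_num)).comp (tendsto_log_atTop.comp tendsto_natCast_atTop_atTop)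
  obtain ⟨N₀, h⟩ := eventually_atTop.1 ((hw.eventually (key_PTw (K := (k + 3 : ℕ))
    (c := ((k + 3 : ℕ) : ℝ) ^ (-(39 / 40) : ℝ) / 2) hC0 hD0 (by positivity))).and
      ((tendsto_natCast_atTop_atTop.eventually (eventually_ge_atTop T₀)).and
        (eventually_ge_atTop 3)))
  refine ⟨N₀, fun N M t h1 h2 h3 h4 => ?_⟩
  obtain ⟨⟨a1, a2, a3⟩, a4, a5⟩ := h N h1
  have n3 : (3 : ℝ) ≤ N := by exact_mod_cast a5
  have n0 : (0 : ℝ) < N := by linarith
  have l0 : 0 ≤ log N := log_nonneg (by linarith)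
  have e1 : (log N ^ (1 / 200 : ℝ)) ^ 200 = log N := by
    rw [← rpow_natCast, ← rpow_mul l0]
    norm_num
  have e2 : (log N ^ (1 / 200 : ℝ)) ^ 4 = log N ^ (1 / 50 : ℝ) := by
    rw [← rpow_natCast, ← rpow_mul l0]
    norm_num
  rw [sav, ← e2]
  generalize log N ^ (1 / 200 : ℝ) = w at a1 a2 a3 e1
  have w0 : 0 < w := by linarith
  have e3 : exp (w ^ 200) = N := by rw [e1, exp_log n0]
  have e4 : w ^ 400 = (w ^ 200) ^ 2 := by rw [← pow_mul]
  have d0 := exp_pos (-(2 * w ^ 4))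
  have d1 : exp (-(2 * w ^ 4)) ≤ 1 := exp_le_one_iff.2 (neg_nonpos.2 (by positivity))
  have t1 : (N : ℝ) ≤ (N : ℝ) ^ (k + 3) := le_self_pow₀ (by linarith) (by omega)
  have t2 : 2 * |t| + 6 ≤ (N : ℝ) ^ (k + 3) := by
    have b1 : (1 : ℝ) ≤ (N : ℝ) ^ k := one_le_pow₀ (by linarith)
    have b2 : (3 : ℝ) ^ 3 ≤ (N : ℝ) ^ 3 := by gcongr
    rw [pow_add]
    nlinarith
  have t3 : log ((N : ℝ) ^ (k + 3)) = (k + 3 : ℕ) * w ^ 200 := by rw [log_pow, e1]
  have t4 : (((k + 3 : ℕ) : ℝ) * w ^ 200) ^ (-(39 / 40) : ℝ) / 2 * w ^ 200 =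
      ((k + 3 : ℕ) : ℝ) ^ (-(39 / 40) : ℝ) / 2 * w ^ 5 := by
    have : (w ^ 200) ^ (-(39 / 40) : ℝ) = (w ^ 195)⁻¹ := by
      rw [← rpow_natCast, ← rpow_mul w0.le, ← rpow_natCast, ← rpow_neg w0.le]
      norm_num
    rw [mul_rpow K0.le (by positivity), this]
    field_simp
  have t5 : 1 / (64 * π) * w ^ 400 ≤
      exp (-(2 * w ^ 4)) ^ 2 * ((N : ℝ) ^ (k + 3)) ^ 2 / (32 * π) := by
    have b1 : 4 * w ^ 4 ≤ w ^ 200 := by
      have : (2 : ℝ) ^ 2 ≤ w ^ 196 :=
        (pow_le_pow_left₀ zero_le_two a1 2).trans (pow_le_pow_right₀ (by linarith) (by norm_num))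
      calc 4 * w ^ 4 ≤ w ^ 196 * w ^ 4 := by gcongr; linarith
        _ = _ := by rw [← pow_add]
    have b2 : (w ^ 200) ^ 2 / 2 ≤ exp (w ^ 200) := by
      have := quadratic_le_exp_of_nonneg (x := w ^ 200) (by positivity)
      have : 0 ≤ w ^ 200 := by positivity
      linarith
    have b3 : exp (w ^ 200) ≤ exp (-(2 * w ^ 4)) ^ 2 * exp (w ^ 200) ^ 2 := by
      rw [← mul_pow, ← exp_add, ← exp_nat_mul]
      exact exp_le_exp.2 (by push_cast; linarith)
    calc _ = (w ^ 200) ^ 2 / 2 / (32 * π) := by rw [e4]; field_simp; norm_num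
      _ ≤ exp (-(2 * w ^ 4)) ^ 2 * exp (w ^ 200) ^ 2 / (32 * π) := by gcongr; exact b2.trans b3
      _ ≤ _ := by rw [e3]; gcongr
  have t6 : π * (exp (-(2 * w ^ 4)) * w ^ 200) ^ 2 / (2 * exp (-(2 * w ^ 4)) ^ 2) =
      π / 2 * w ^ 400 := by
    rw [e4]
    field_simp
  rw [e3] at a3
  refine le_trans ?_ a3
  have := hC N M (exp (-(2 * w ^ 4))) (exp (-(2 * w ^ 4)) * w ^ 200) t
    (C * ((k + 3 : ℕ) * w ^ 200) ^ 2 / exp (-(2 * w ^ 4)) *
      (2 * N * exp (-(((k + 3 : ℕ) : ℝ) ^ (-(39 / 40) : ℝ) / 2 * w ^ 5)) +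
        4 * (N : ℝ) ^ 2 * exp (-(1 / (64 * π) * w ^ 400)))) a5 h2 h3 d0 d1 (by positivity) a2
    (by positivity) fun v hv => ?_
  · rwa [t6, ← e1] at this
  have v1 : exp v ≤ 2 * N := by
    have m0 : (0 : ℝ) < M := n0.trans_le (Nat.cast_le.2 h2)
    exact ((exp_le_exp.2 hv.2).trans_eq (exp_log m0)).trans (by exact_mod_cast h3)
  have v2 : w ^ 200 ≤ v := e1.le.trans hv.1
  refine (hE _ v t _ d0 d1 (l0.trans hv.1) (a4.trans t1) t2).trans ?_
  rw [t3, sub_mul, one_mul, sub_eq_add_neg, exp_add, ← t4, two_mul v, exp_add, ← sq,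
    show 4 * (N : ℝ) ^ 2 = (2 * N) ^ 2 by ring]
  gcongr

end Pool.Agent.MP_c853c5_nt.Z

end

section

set_option autoImplicit false

open Finset Filter

namespace Pool.Agent.MP_c853c5_nt.Z

open Pool.Agent.MP_2a1f0e_nt

/-- the proper prime powers are negligible -/
lemma np_PPr : ∃ N₀ : ℕ, ∀ N M : ℕ, N₀ ≤ N → M ≤ 2 * N →
    ∑ n ∈ (Ioc N M).filter (fun n => ¬ n.Prime), ArithmeticFunction.vonMangoldt n ≤
      N * sav N := by
  obtain ⟨C, hC⟩ := Chebyshev.psi_sub_theta_le_mul_sqrt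
  have hC0 : 0 ≤ C := by simpa using hC 1
  have h0 : Tendsto (fun N : ℕ => Real.log N) atTop atTop :=
    Real.tendsto_log_atTop.comp tendsto_natCast_atTop_atTop
  have h1 := (Real.tendsto_exp_atTop.comp
    (h0.atTop_div_const (r := 4) (by norm_num))).eventually_ge_atTop (2 * C)
  obtain ⟨N₀, h⟩ := eventually_atTop.1
    ((h1.and (h0.eventually_ge_atTop 16)).and (eventually_ge_atTop 1))
  refine ⟨N₀, fun N M hN hM => ?_⟩
  obtain ⟨⟨a1, a2⟩, a3⟩ := h N hN
  have a4 : (0 : ℝ) < N := by exact_mod_cast a3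
  have a5 : (M : ℝ) ≤ 2 * N := by exact_mod_cast hM
  have b1 := hC M
  rw [Chebyshev.psi_sub_theta_eq_sum_not_prime, Nat.floor_natCast] at b1
  refine (sum_le_sum_of_subset_of_nonneg (filter_subset_filter _ (Ioc_subset_Ioc_left N.zero_le))
    fun _ _ _ => ArithmeticFunction.vonMangoldt_nonneg).trans (b1.trans ?_)
  have b2 : √(M : ℝ) ≤ 2 * Real.exp (Real.log N / 2) := by
    rw [Real.sqrt_le_left (by positivity), mul_pow, sq (Real.exp _), ← Real.exp_add, add_halves,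
      Real.exp_log a4]
    linarith
  have b3 : Real.log N ^ (1 / 50 : ℝ) ≤ Real.log N / 4 := by
    refine (Real.rpow_le_rpow_of_exponent_le (by linarith)
      (by norm_num : (1 / 50 : ℝ) ≤ 1 / 2)).trans ?_
    rw [← Real.sqrt_eq_rpow, Real.sqrt_le_left (by linarith)]
    nlinarith
  calc C * √(M : ℝ) ≤ C * (2 * Real.exp (Real.log N / 2)) := by gcongr
    _ = 2 * C * Real.exp (Real.log N / 2) := by ring
    _ ≤ Real.exp (Real.log N / 4) * Real.exp (Real.log N / 2) := by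
        gcongr
        exact a1
    _ ≤ Real.exp (Real.log N) * sav N := by
        rw [sav, ← Real.exp_add, ← Real.exp_add]
        exact Real.exp_le_exp.2 (by linarith)
    _ = _ := by rw [Real.exp_log a4]

lemma log_PPr {n : ℕ} (h : 3 ≤ n) : 1 ≤ Real.log n := by
  have h1 : (3 : ℝ) ≤ n := by exact_mod_cast h
  rw [Real.le_log_iff_exp_le (by linarith)]
  linarith [Real.exp_one_lt_d9]

lemma abel_PPr {N M : ℕ} (hN : 3 ≤ N) (hM : N ≤ M) {w : ℕ → ℝ}
    (hw : ∀ L, N ≤ L → 0 ≤ w L ∧ w (L + 1) ≤ w L) (c : ℕ → ℂ) {B : ℝ}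
    (hB : ∀ L : ℕ, N ≤ L → L ≤ M → ‖∑ n ∈ Ioc N L, c n‖ ≤ B) :
    ‖∑ n ∈ Ioc N M, ((w n / Real.log n : ℝ) : ℂ) * c n‖ ≤ w N * B := by
  have hB0 : 0 ≤ B := (norm_nonneg _).trans (hB N le_rfl hM)
  have h1 := abel_PSum N c (fun n => w n / Real.log n) B M hM (fun L hL => by
    have e := log_PPr (hN.trans hL)
    have e2 : (0 : ℝ) < L := by exact_mod_cast (by omega : 0 < L)
    exact div_le_div₀ (hw L hL).1 (hw L hL).2 (by linarith)
      (Real.log_le_log e2 (by push_cast; linarith))) hB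
  have h2 := hB M hM le_rfl
  have h3 : 0 ≤ w M / Real.log M :=
    div_nonneg (hw M hM).1 (by linarith [log_PPr (hN.trans hM)])
  have h4 : w N / Real.log N ≤ w N := div_le_self (hw N le_rfl).1 (log_PPr hN)
  have h5 := norm_add_le (∑ n ∈ Ioc N M, ((w n / Real.log n : ℝ) : ℂ) * c n -
    ((w M / Real.log M : ℝ) : ℂ) * ∑ n ∈ Ioc N M, c n)
    (((w M / Real.log M : ℝ) : ℂ) * ∑ n ∈ Ioc N M, c n)
  rw [sub_add_cancel, norm_mul, Complex.norm_real, Real.norm_of_nonneg h3] at h5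
  nlinarith [mul_le_mul_of_nonneg_left h2 h3, mul_le_mul_of_nonneg_left h4 hB0]

lemma split_PPr {N : ℕ} (hN : 3 ≤ N) (M : ℕ) {w : ℕ → ℝ}
    (hw : ∀ L, N ≤ L → 0 ≤ w L ∧ w (L + 1) ≤ w L) {u : ℕ → ℂ} (hu : ∀ n, ‖u n‖ ≤ 1) :
    ‖∑ n ∈ Ioc N M, ((w n / Real.log n : ℝ) : ℂ) * ((ArithmeticFunction.vonMangoldt n : ℂ) * u n) -
      ∑ p ∈ (Ioc N M).filter Nat.Prime, (w p : ℂ) * u p‖ ≤
      w N * ∑ n ∈ (Ioc N M).filter (fun n => ¬ n.Prime), ArithmeticFunction.vonMangoldt n := by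
  have h1 : ∀ n, N ≤ n → w n ≤ w N := fun n hn => by
    induction n, hn using Nat.le_induction with
    | base => exact le_rfl
    | succ n hn ih => exact (hw n hn).2.trans ih
  have h2 : ∑ p ∈ (Ioc N M).filter Nat.Prime,
      ((w p / Real.log p : ℝ) : ℂ) * ((ArithmeticFunction.vonMangoldt p : ℂ) * u p) =
      ∑ p ∈ (Ioc N M).filter Nat.Prime, (w p : ℂ) * u p := by
    refine sum_congr rfl fun p hp => ?_
    obtain ⟨e1, e2⟩ := mem_filter.1 hp
    have e3 := log_PPr (hN.trans (mem_Ioc.1 e1).1.le)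
    rw [ArithmeticFunction.vonMangoldt_apply_prime e2, ← mul_assoc, ← Complex.ofReal_mul,
      div_mul_cancel₀ _ (by linarith)]
  rw [← sum_filter_add_sum_filter_not (Ioc N M) Nat.Prime, h2, add_sub_cancel_left, mul_sum]
  refine (norm_sum_le _ _).trans (sum_le_sum fun n hn => ?_)
  have e1 := (mem_Ioc.1 (mem_filter.1 hn).1).1.le
  have e2 := log_PPr (hN.trans e1)
  have e3 : 0 ≤ ArithmeticFunction.vonMangoldt n := ArithmeticFunction.vonMangoldt_nonneg
  rw [norm_mul, norm_mul, Complex.norm_real, Complex.norm_real, Real.norm_of_nonneg e3,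
    Real.norm_of_nonneg (div_nonneg (hw n e1).1 (by linarith))]
  exact mul_le_mul ((div_le_self (hw n e1).1 e2).trans (h1 n e1))
    (mul_le_of_le_one_right e3 (hu n)) (by positivity) (hw N le_rfl).1

theorem pPr (h : TwStmt) : PrStmt := by
  intro k
  obtain ⟨N₁, h1⟩ := h k
  obtain ⟨N₂, h2⟩ := np_PPr
  refine ⟨N₁ + N₂ + 3, fun N M t w hN hM hM' ht hw => ?_⟩
  have a1 := abel_PPr (by omega) hM hw
    (fun n => (ArithmeticFunction.vonMangoldt n : ℂ) * GM.pw (n : ℝ) t)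
    (B := 5 * N / (1 + |t|) + N * sav N) fun L e1 e2 => by
      have b1 := h1 N L t (by omega) e1 (by omega) ht
      have b2 := norm_MT_le (N := N) (M := L) (by omega) t
      have b3 := norm_add_le (LT N L t - MT N L t) (MT N L t)
      rw [sub_add_cancel] at b3
      change ‖LT N L t‖ ≤ _
      linarith
  have a2 := (split_PPr (by omega) M hw (u := fun n => GM.pw (n : ℝ) t)
    fun n => (GM.norm_pw _ _).le).trans
      (mul_le_mul_of_nonneg_left (h2 N M (by omega) hM') (hw N le_rfl).1)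
  rw [norm_sub_rev] at a2
  linarith [(norm_sub_norm_le _ _).trans a2]

theorem pPn (h : TwStmt) : PnStmt := by
  obtain ⟨N₁, h1⟩ := h 0
  obtain ⟨N₂, h2⟩ := np_PPr
  refine ⟨N₁ + N₂ + 3, fun N M w hN hM hM' hw => ?_⟩
  have a1 := abel_PPr (by omega) hM hw
    (fun n => (ArithmeticFunction.vonMangoldt n : ℂ) * 1 - 1) (B := N * sav N) fun L e1 e2 => by
      have b1 := h1 N L 0 (by omega) e1 (by omega) (by simp)
      rw [MT_zero, LT] at b1
      rw [sum_sub_distrib, sum_const, Nat.card_Ioc, nsmul_one, Nat.cast_sub e1]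
      simpa [GM.pw] using b1
  have a2 := (split_PPr (by omega) M hw (u := fun _ => 1) fun _ => norm_one.le).trans
    (mul_le_mul_of_nonneg_left (h2 N M (by omega) hM') (hw N le_rfl).1)
  have a3 := (norm_sub_le _ _).trans (add_le_add a1 a2)
  simp only [mul_sub, mul_one, sum_sub_distrib] at a3
  rw [sub_sub_sub_cancel_left, ← Complex.ofReal_sum, ← Complex.ofReal_sum, ← Complex.ofReal_sub,
    Complex.norm_real, Real.norm_eq_abs] at a3
  linarith

end Pool.Agent.MP_c853c5_nt.Z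

end

section

/-!
Large values close to the trivial bound.
-/

set_option autoImplicit false

open Finset

namespace Pool.Agent.MP_c853c5_nt.Z

open Pool.Agent.MP_2a1f0e_nt

lemma sum_PTop (W : Finset ℤ) (T : ℕ) (hW : ∀ s ∈ W, 0 ≤ s ∧ s ≤ T) {t : ℤ} (ht : t ∈ W) :
    ∑ s ∈ W, 1 / (1 + |(t : ℝ) - s|) ≤ 6 * Real.log (T + 2) := by
  classical
  have hi : Function.Injective fun s : ℤ => (s : ℂ) * Complex.I := fun a b h => by
    have := mul_right_cancel₀ Complex.I_ne_zero h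
    exact_mod_cast this
  have h := sep (W.image fun s : ℤ => (s : ℂ) * Complex.I) t T ?_ (Nat.cast_nonneg T) ?_
  · rw [sum_image fun a _ b _ e => hi e] at h
    have e : ∑ s ∈ W, 1 / (1 + |(t : ℝ) - s|) =
        ∑ s ∈ W, 1 / (1 + |((s : ℂ) * Complex.I).im - t|) :=
      sum_congr rfl fun s _ => by rw [abs_sub_comm]; simp
    have hT : (0 : ℝ) ≤ T := Nat.cast_nonneg T
    have h1 : Real.log (T + 1) ≤ Real.log (T + 2) := Real.log_le_log (by linarith) (by linarith)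
    have h2 : Real.log 2 ≤ Real.log (T + 2) := Real.log_le_log (by norm_num) (by linarith)
    have h3 := Real.log_two_gt_d9
    rw [e]
    linarith
  · intro ρ hρ ρ' hρ' hne
    obtain ⟨a, -, rfl⟩ := mem_image.1 hρ
    obtain ⟨b, -, rfl⟩ := mem_image.1 hρ'
    have hab : a - b ≠ 0 := fun e => hne (by rw [sub_eq_zero.1 e])
    have := Int.one_le_abs hab
    simp only [Complex.mul_im, Complex.intCast_re, Complex.I_im, mul_one, Complex.intCast_im,
      Complex.I_re, mul_zero, add_zero]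
    exact_mod_cast this
  · intro ρ hρ
    obtain ⟨a, ha, rfl⟩ := mem_image.1 hρ
    have h1 := hW a ha
    have h2 := hW t ht
    have : |a - t| ≤ (T : ℤ) := abs_le.2 ⟨by omega, by omega⟩
    simp only [Complex.mul_im, Complex.intCast_re, Complex.I_im, mul_one, Complex.intCast_im,
      Complex.I_re, mul_zero, add_zero]
    exact_mod_cast this

lemma inner_PTop {N : ℕ} (hN : 1 ≤ N) (s t : ℝ) :
    ‖∑ n ∈ Icc N (2 * N), GM.pw (n : ℝ) s * (starRingEnd ℂ) (GM.pw (n : ℝ) t)‖ ≤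
      1 + ‖ES N (2 * N) (s - t)‖ := by
  rw [← Ioc_insert_left (show N ≤ 2 * N by omega), sum_insert (by simp), ← GM.pw_sub]
  refine (norm_add_le _ _).trans (le_of_eq ?_)
  rw [GM.norm_pw, ES]
  congr 2
  refine sum_congr rfl fun n hn => ?_
  rw [← GM.pw_sub, pw_eq_cpow (by have := (mem_Ioc.1 hn).1; omega)]

lemma fin_PTop {R V N L P c : ℝ} (hR : 0 ≤ R) (hL : 0 ≤ L) (hV : 0 < V)
    (h1 : (R * V) ^ 2 ≤ 2 * N * (R * (30 * N * L) + R ^ 2 * (c * P)))
    (h2 : 4 * c * (N * P) ≤ V ^ 2) : R ≤ 120 * (N ^ 2 / V ^ 2) * L := by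
  rcases hR.eq_or_lt with rfl | hR
  · positivity
  have h3 : R * (R * V ^ 2) ≤ R * (120 * N ^ 2 * L) := by
    nlinarith [mul_le_mul_of_nonneg_left h2 (sq_nonneg R)]
  have h4 := le_of_mul_le_mul_left h3 hR
  rw [show 120 * (N ^ 2 / V ^ 2) * L = 120 * N ^ 2 * L / V ^ 2 by ring, le_div_iff₀ (by positivity)]
  exact h4

theorem pTop (hK : KerStmt) : TopStmt := by
  intro k
  obtain ⟨C0, δ, hC0, hδ, hδ1, hK⟩ := hK (max k 1) (le_max_right _ _)
  refine ⟨120 + 2 * (1 + C0), δ / 2, by positivity, by positivity, ?_⟩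
  intro N T V b hN hT hV hb
  have hN1 : (1 : ℝ) ≤ N := by exact_mod_cast hN
  have hN0 : (0 : ℝ) < N := by linarith
  have hP : 1 ≤ (N : ℝ) ^ (1 - δ) := Real.one_le_rpow hN1 (by linarith)
  have hV0 : 0 < V := lt_of_lt_of_le (by positivity) hV
  have hL : 0 ≤ Real.log (T + 2) := Real.log_nonneg (by linarith [(Nat.cast_nonneg T : (0 : ℝ) ≤ T)])
  unfold DH.cnt
  set W := (Icc 0 (T : ℤ)).filter fun t : ℤ => V ≤ ‖GM.DP N b t‖ with hWd
  have hW : ∀ s ∈ W, 0 ≤ s ∧ s ≤ T := fun s hs => mem_Icc.1 (mem_filter.1 hs).1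
  have key := dual_Hal (Icc N (2 * N)) W b (fun s n => GM.pw (n : ℝ) (s : ℝ))
    (fun s t => 5 * N * (1 / (1 + |(s : ℝ) - t|)) + (1 + C0) * (N : ℝ) ^ (1 - δ))
    fun s hs t ht => by
      have h1 := hW s hs
      have h2 := hW t ht
      have h3 : |s - t| ≤ (T : ℤ) := abs_le.2 ⟨by omega, by omega⟩
      have h4 : |(s : ℝ) - t| ≤ T := by exact_mod_cast h3
      have h5 := hK N (2 * N) ((s : ℝ) - t) hN (by omega) le_rfl
        (h4.trans (hT.trans (pow_le_pow_right₀ hN1 (le_max_left _ _))))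
      refine (inner_PTop hN _ _).trans ?_
      rw [mul_one_div]
      linarith
  have a1 : (W.card : ℝ) * V ≤ ∑ s ∈ W, ‖∑ n ∈ Icc N (2 * N), b n * GM.pw (n : ℝ) (s : ℝ)‖ := by
    rw [← nsmul_eq_mul]
    exact card_nsmul_le_sum _ _ _ fun s hs => (mem_filter.1 hs).2
  have a2 : ∑ n ∈ Icc N (2 * N), ‖b n‖ ^ 2 ≤ 2 * (N : ℝ) := by
    refine (sum_le_card_nsmul _ _ 1 fun n _ => pow_le_one₀ (norm_nonneg _) (hb n)).trans ?_
    rw [nsmul_eq_mul, mul_one, Nat.card_Icc]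
    have : 2 * N + 1 - N ≤ 2 * N := by omega
    exact_mod_cast this
  have a3 : ∑ s ∈ W, ∑ t ∈ W, (5 * N * (1 / (1 + |(s : ℝ) - t|)) + (1 + C0) * (N : ℝ) ^ (1 - δ)) ≤
      W.card * (30 * N * Real.log (T + 2)) + (W.card : ℝ) ^ 2 * ((1 + C0) * (N : ℝ) ^ (1 - δ)) := by
    refine (sum_le_card_nsmul _ _ (30 * N * Real.log (T + 2) +
      W.card * ((1 + C0) * (N : ℝ) ^ (1 - δ))) fun s hs => ?_).trans (le_of_eq ?_)
    · rw [sum_add_distrib, sum_const, nsmul_eq_mul, ← mul_sum]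
      nlinarith [sum_PTop W T hW hs]
    · rw [nsmul_eq_mul]
      ring
  have a4 : 4 * (1 + C0) * (N * (N : ℝ) ^ (1 - δ)) ≤ V ^ 2 := by
    have e : ((N : ℝ) ^ (1 - δ / 2)) ^ 2 = N * (N : ℝ) ^ (1 - δ) := by
      rw [sq, ← Real.rpow_add hN0, show 1 - δ / 2 + (1 - δ / 2) = 1 + (1 - δ) by ring,
        Real.rpow_add hN0, Real.rpow_one]
    refine le_trans ?_ (pow_le_pow_left₀ (by positivity) hV 2)
    rw [mul_pow, e]
    exact mul_le_mul_of_nonneg_right (by nlinarith) (by positivity)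
  have a5 := fin_PTop (Nat.cast_nonneg W.card) hL hV0
    ((pow_le_pow_left₀ (by positivity) a1 2).trans (key.trans (mul_le_mul a2 a3
      (sum_nonneg fun _ _ => sum_nonneg fun _ _ => by positivity) (by positivity)))) a4
  refine a5.trans (mul_le_mul_of_nonneg_right (mul_le_mul_of_nonneg_right ?_ (by positivity)) hL)
  linarith

end Pool.Agent.MP_c853c5_nt.Z

end
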