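import Pool.Agent.MP_2a1f0e_nt.Variance
import Pool.Agent.MP_2a1f0e_nt.DH.Basic

section

set_option autoImplicit false

open Finset

namespace Pool.Agent.MP_2a1f0e_nt

/-- truncation of a sequence to `[N, 2N]` as an arithmetic function -/
def tr {R : Type*} [Zero R] (N : ℕ) (b : ℕ → R) : ArithmeticFunction R :=
  ⟨fun n => if n ≠ 0 ∧ n ∈ Icc N (2 * N) then b n else 0, by simp⟩

lemma tr_apply {R : Type*} [Zero R] (N : ℕ) (b : ℕ → R) (n : ℕ) :
    tr N b n = if n ≠ 0 ∧ n ∈ Icc N (2 * N) then b n else 0 := rfl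

lemma conv_sum {R : Type*} [CommSemiring R] (f g : ArithmeticFunction R) (s t u : Finset ℕ)
    (hf : ∀ n, n ∉ s → f n = 0) (hg : ∀ n, n ∉ t → g n = 0) (hs : ∀ x ∈ s, x ≠ 0)
    (ht : ∀ x ∈ t, x ≠ 0) (hu : ∀ x ∈ s, ∀ y ∈ t, x * y ∈ u) (χ : ℕ → R)
    (hχ : ∀ x y, x ≠ 0 → y ≠ 0 → χ (x * y) = χ x * χ y) :
    ∑ n ∈ u, (f * g) n * χ n = (∑ x ∈ s, f x * χ x) * ∑ y ∈ t, g y * χ y := by
  rw [sum_mul_sum, ← sum_product']
  rw [← sum_fiberwise_of_maps_to (s := s ×ˢ t) (t := u) (g := fun p => p.1 * p.2)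
    (fun p hp => hu _ (mem_product.1 hp).1 _ (mem_product.1 hp).2)]
  refine sum_congr rfl fun n _ => ?_
  rw [ArithmeticFunction.mul_apply, sum_mul]
  symm
  apply sum_subset_zero_on_sdiff
  · intro p hp
    obtain ⟨h1, h2⟩ := mem_filter.1 hp
    rw [Nat.mem_divisorsAntidiagonal]
    refine ⟨h2, ?_⟩
    rw [← h2]
    exact mul_ne_zero (hs _ (mem_product.1 h1).1) (ht _ (mem_product.1 h1).2)
  · intro p hp
    obtain ⟨h1, h2⟩ := mem_sdiff.1 hp
    have h3 := (Nat.mem_divisorsAntidiagonal.1 h1).1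
    by_cases a : p.1 ∈ s
    · by_cases b : p.2 ∈ t
      · exact absurd (mem_filter.2 ⟨mem_product.2 ⟨a, b⟩, h3⟩) h2
      · rw [hg _ b]; simp
    · rw [hf _ a]; simp
  · intro p hp
    obtain ⟨h1, h2⟩ := mem_filter.1 hp
    rw [← h2, hχ _ _ (hs _ (mem_product.1 h1).1) (ht _ (mem_product.1 h1).2)]
    ring

lemma tr_pow_supp {R : Type*} [CommSemiring R] (N : ℕ) (b : ℕ → R) (k : ℕ) :
    ∀ n, n ∉ Icc (N ^ k) ((2 * N) ^ k) → (tr N b ^ k) n = 0 := by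
  induction k with
  | zero =>
    intro n hn
    rw [pow_zero]
    apply ArithmeticFunction.one_apply_ne
    rintro rfl
    simp at hn
  | succ k ih =>
    intro n hn
    rw [pow_succ, ArithmeticFunction.mul_apply]
    refine sum_eq_zero fun p hp => ?_
    have h3 := (Nat.mem_divisorsAntidiagonal.1 hp).1
    by_cases a : p.1 ∈ Icc (N ^ k) ((2 * N) ^ k)
    · by_cases c : p.2 ∈ Icc N (2 * N)
      · exfalso
        apply hn
        rw [mem_Icc] at a c ⊢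
        rw [← h3, pow_succ, pow_succ]
        exact ⟨Nat.mul_le_mul a.1 c.1, Nat.mul_le_mul a.2 c.2⟩
      · rw [tr_apply, if_neg (fun h => c h.2), mul_zero]
    · rw [ih _ a, zero_mul]

lemma tr_pow_sum {R : Type*} [CommSemiring R] {N : ℕ} (hN : 1 ≤ N) (b : ℕ → R) (χ : ℕ → R)
    (hχ : ∀ x y, x ≠ 0 → y ≠ 0 → χ (x * y) = χ x * χ y) (h1 : χ 1 = 1) (k : ℕ) :
    ∑ n ∈ Icc (N ^ k) ((2 * N) ^ k), (tr N b ^ k) n * χ n =
      (∑ a ∈ Icc N (2 * N), b a * χ a) ^ k := by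
  induction k with
  | zero => simp [h1]
  | succ k ih =>
    rw [pow_succ (tr N b), conv_sum (tr N b ^ k) (tr N b) (Icc (N ^ k) ((2 * N) ^ k))
      (Icc N (2 * N)) _ (tr_pow_supp N b k)
      (fun n hn => by rw [tr_apply, if_neg (fun h => hn h.2)])
      (fun x hx => by
        have := (mem_Icc.1 hx).1
        have : 0 < N ^ k := by positivity
        omega)
      (fun x hx => by
        have := (mem_Icc.1 hx).1
        omega)
      (fun x hx y hy => by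
        rw [mem_Icc] at hx hy ⊢
        rw [pow_succ, pow_succ]
        exact ⟨Nat.mul_le_mul hx.1 hy.1, Nat.mul_le_mul hx.2 hy.2⟩) χ hχ, ih, pow_succ]
    congr 1
    refine sum_congr rfl fun a ha => ?_
    have := (mem_Icc.1 ha).1
    rw [tr_apply, if_pos ⟨by omega, ha⟩]

lemma tr_pow_norm (N : ℕ) (b : ℕ → ℂ) (k : ℕ) :
    ∀ n, ‖(tr N b ^ k) n‖ ≤ (tr N (fun n => ‖b n‖) ^ k) n := by
  induction k with
  | zero =>
    intro n
    simp only [pow_zero, ArithmeticFunction.one_apply]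
    split_ifs <;> simp
  | succ k ih =>
    intro n
    rw [pow_succ, pow_succ, ArithmeticFunction.mul_apply, ArithmeticFunction.mul_apply]
    refine (norm_sum_le _ _).trans (sum_le_sum fun p _ => ?_)
    rw [norm_mul]
    apply mul_le_mul (ih _) _ (norm_nonneg _) ((norm_nonneg _).trans (ih _))
    rw [tr_apply, tr_apply]
    split_ifs <;> simp

lemma tr_pow_nonneg (N : ℕ) (b : ℕ → ℂ) (k n : ℕ) : 0 ≤ (tr N (fun n => ‖b n‖) ^ k) n :=
  (norm_nonneg _).trans (tr_pow_norm N b k n)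

lemma tr_pow_le (N : ℕ) (b : ℕ → ℂ) (hb : ∀ n, ‖b n‖ ≤ 1) {X : ℕ} {τ : ℝ} (hτ1 : 1 ≤ τ)
    (hτ : ∀ n ≤ X, (n.divisors.card : ℝ) ≤ τ) (k : ℕ) :
    ∀ n ≤ X, (tr N (fun n => ‖b n‖) ^ k) n ≤ τ ^ k := by
  induction k with
  | zero =>
    intro n _
    simp only [pow_zero, ArithmeticFunction.one_apply]
    split_ifs <;> simp
  | succ k ih =>
    intro n hn
    rw [pow_succ, ArithmeticFunction.mul_apply,
      Nat.sum_divisorsAntidiagonal (fun x y => (tr N (fun n => ‖b n‖) ^ k) x *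
        tr N (fun n => ‖b n‖) y)]
    refine (sum_le_card_nsmul _ _ (τ ^ k) fun x hx => ?_).trans ?_
    · have h1 := ih x ((Nat.divisor_le hx).trans hn)
      have h2 : tr N (fun n => ‖b n‖) (n / x) ≤ 1 := by
        rw [tr_apply]
        split_ifs
        · exact hb _
        · norm_num
      have h3 := tr_pow_nonneg N b k x
      nlinarith
    · rw [nsmul_eq_mul, pow_succ, mul_comm]
      exact mul_le_mul_of_nonneg_left (hτ n hn) (by positivity)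

lemma tr_pow_add_le (N : ℕ) (b : ℕ → ℂ) (hb : ∀ n, ‖b n‖ ≤ 1) {X : ℕ} {τ : ℝ} (hτ1 : 1 ≤ τ)
    (hτ : ∀ n ≤ X, (n.divisors.card : ℝ) ≤ τ) (j m : ℕ) :
    ∀ n ≤ X, (tr N (fun n => ‖b n‖) ^ (j + m)) n ≤
      τ ^ m * ∑ a ∈ Icc (N ^ j) ((2 * N) ^ j), (tr N (fun n => ‖b n‖) ^ j) a * dv a n := by
  intro n hn
  rw [pow_add, ArithmeticFunction.mul_apply,
    Nat.sum_divisorsAntidiagonal (fun x y => (tr N (fun n => ‖b n‖) ^ j) x *
      (tr N (fun n => ‖b n‖) ^ m) y)]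
  calc ∑ x ∈ n.divisors, (tr N (fun n => ‖b n‖) ^ j) x * (tr N (fun n => ‖b n‖) ^ m) (n / x)
      ≤ ∑ x ∈ n.divisors, τ ^ m * ((tr N (fun n => ‖b n‖) ^ j) x * dv x n) := by
        refine sum_le_sum fun x hx => ?_
        have h1 := tr_pow_le N b hb hτ1 hτ m (n / x) ((Nat.div_le_self _ _).trans hn)
        have h2 : dv x n = 1 := by
          unfold dv
          rw [if_pos (Int.natCast_dvd_natCast.2 (Nat.dvd_of_mem_divisors hx))]
        have h3 := tr_pow_nonneg N b j x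
        rw [h2]
        nlinarith
    _ ≤ _ := by
        rw [← mul_sum]
        apply mul_le_mul_of_nonneg_left _ (by positivity)
        rw [← sum_filter_of_ne (p := fun a => a ∈ Icc (N ^ j) ((2 * N) ^ j))]
        · apply sum_le_sum_of_subset_of_nonneg
          · intro a ha
            exact (mem_filter.1 ha).2
          · intro a _ _
            exact mul_nonneg (tr_pow_nonneg N b j a) (dv_nonneg _ _)
        · intro a _ hne
          by_contra h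
          apply hne
          rw [tr_pow_supp N _ j a h, zero_mul]

lemma nit_mul (t x y : ℕ) (hx : x ≠ 0) (hy : y ≠ 0) : nit t (x * y) = nit t x * nit t y := by
  unfold nit
  rw [← Complex.exp_add, Nat.cast_mul, Real.log_mul (by exact_mod_cast hx) (by exact_mod_cast hy)]
  congr 1
  push_cast
  ring

lemma nit_one (t : ℕ) : nit t 1 = 1 := by simp [nit]

lemma nit_add (t t' n : ℕ) : nit (t + t') n = nit t n * nit t' n := by
  unfold nit
  rw [← Complex.exp_add]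
  congr 1
  push_cast
  ring

lemma norm_nit (t n : ℕ) : ‖nit t n‖ = 1 := by
  unfold nit
  have : Complex.I * (t : ℂ) * ((Real.log (n : ℝ) : ℝ) : ℂ) =
      Complex.I * ((t * Real.log (n : ℝ) : ℝ) : ℂ) := by
    push_cast
    ring
  rw [this]
  exact Complex.norm_exp_I_mul_ofReal _

/-- the dispersion step -/
lemma dispersion (S A : Finset ℕ) (u α : ℕ → ℝ) (hu : ∀ n ∈ S, 0 ≤ u n)
    (hα0 : ∀ a ∈ A, 0 ≤ α a) {Λ : ℝ} (hΛ : 0 ≤ Λ)
    (huα : ∀ n ∈ S, u n ≤ Λ * ∑ a ∈ A, α a * dv a n) {H Y : ℕ}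
    (hS1 : ∀ n ∈ S, 1 ≤ n) (hSY : ∀ n ∈ S, n + H ≤ Y) :
    ∑ x ∈ Icc 1 Y, (∑ n ∈ S, u n * ind H n x) ^ 2 ≤
      2 * Λ * (∑ a ∈ A, α a / a) * (H : ℝ) ^ 2 * ∑ n ∈ S, u n +
        Λ ^ 2 * ∑ x ∈ Icc 1 Y,
          (∑ a ∈ A, α a * ∑ i ∈ range H, (dv a ((x : ℤ) - i) - 1 / a)) ^ 2 := by
  set σ := ∑ a ∈ A, α a / a with hσ
  have h1 : ∀ x : ℕ, ∑ n ∈ S, u n * ind H n x ≤
      Λ * (σ * H + ∑ a ∈ A, α a * ∑ i ∈ range H, (dv a ((x : ℤ) - i) - 1 / a)) := by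
    intro x
    have e1 : σ * H + ∑ a ∈ A, α a * ∑ i ∈ range H, (dv a ((x : ℤ) - i) - 1 / a) =
        ∑ i ∈ range H, ∑ a ∈ A, α a * dv a ((x : ℤ) - i) := by
      rw [sum_comm, hσ, sum_mul, ← sum_add_distrib]
      refine sum_congr rfl fun a _ => ?_
      rw [sum_sub_distrib, ← mul_sum]
      simp only [sum_const, card_range, nsmul_eq_mul]
      ring
    rw [e1]
    set g : ℤ → ℝ := fun m => ∑ a ∈ A, α a * dv a m with hg
    have hg0 : ∀ m, 0 ≤ g m := fun m => sum_nonneg fun a ha => mul_nonneg (hα0 a ha) (dv_nonneg _ _)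
    set F := S.filter (fun n => n ≤ x ∧ x < n + H) with hF
    calc ∑ n ∈ S, u n * ind H n x = ∑ n ∈ F, u n := by
          rw [hF, sum_filter]
          refine sum_congr rfl fun n _ => ?_
          unfold ind
          split_ifs <;> simp
      _ ≤ ∑ n ∈ F, Λ * g ((x : ℤ) - ((x - n : ℕ) : ℤ)) := by
          refine sum_le_sum fun n hn => ?_
          obtain ⟨a, b, -⟩ := mem_filter.1 hn
          have : (x : ℤ) - ((x - n : ℕ) : ℤ) = n := by omega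
          rw [this]
          exact huα n a
      _ = ∑ i ∈ F.image (fun n => x - n), Λ * g ((x : ℤ) - i) := by
          rw [sum_image]
          intro n hn m hm h
          obtain ⟨-, b, -⟩ := mem_filter.1 (mem_coe.1 hn)
          obtain ⟨-, b', -⟩ := mem_filter.1 (mem_coe.1 hm)
          simp only at h
          omega
      _ ≤ ∑ i ∈ range H, Λ * g ((x : ℤ) - i) := by
          apply sum_le_sum_of_subset_of_nonneg
          · intro i hi
            obtain ⟨n, hn, rfl⟩ := mem_image.1 hi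
            obtain ⟨-, b, c⟩ := mem_filter.1 hn
            rw [mem_range]
            omega
          · intro i _ _
            exact mul_nonneg hΛ (hg0 _)
      _ = _ := by rw [mul_sum]
  have h2 : ∑ x ∈ Icc 1 Y, ∑ n ∈ S, u n * ind H n x = H * ∑ n ∈ S, u n := by
    rw [sum_comm, mul_sum]
    refine sum_congr rfl fun n hn => ?_
    rw [← mul_sum, sum_ind (hS1 n hn) (hSY n hn), mul_comm]
  have e : 2 * Λ * σ * (H : ℝ) ^ 2 * ∑ n ∈ S, u n =
      ∑ x ∈ Icc 1 Y, 2 * Λ * σ * H * ∑ n ∈ S, u n * ind H n x := by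
    rw [← mul_sum, h2]
    ring
  rw [e, mul_sum (f := fun x : ℕ =>
    (∑ a ∈ A, α a * ∑ i ∈ range H, (dv a ((x : ℤ) - i) - 1 / a)) ^ 2), ← sum_add_distrib]
  refine sum_le_sum fun x _ => ?_
  have h3 := h1 x
  have h4 : 0 ≤ ∑ n ∈ S, u n * ind H n x :=
    sum_nonneg fun n hn => mul_nonneg (hu n hn) (ind_nonneg _ _ _)
  set U := ∑ n ∈ S, u n * ind H n x
  set D := ∑ a ∈ A, α a * ∑ i ∈ range H, (dv a ((x : ℤ) - i) - 1 / a)
  nlinarith [sq_nonneg (U - Λ * D), mul_le_mul_of_nonneg_left h3 h4]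

end Pool.Agent.MP_2a1f0e_nt

end

section

set_option autoImplicit false

open Finset

namespace Pool.Agent.MP_2a1f0e_nt.DH

open Pool.Agent.MP_2a1f0e_nt.GM

noncomputable def co_Ty (N : ℕ) (b : ℕ → ℂ) (j n : ℕ) : ℂ :=
  if n ∈ Icc N (2 * N) then b n * ((Real.log ((n : ℝ) / N) : ℝ) : ℂ) ^ j else 0

lemma norm_co_Ty {N : ℕ} (hN : 1 ≤ N) {b : ℕ → ℂ} (hb : ∀ n, ‖b n‖ ≤ 1) (j n : ℕ) :
    ‖co_Ty N b j n‖ ≤ (7 / 10 : ℝ) ^ j := by
  unfold co_Ty
  split_ifs with h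
  · obtain ⟨h1, h2⟩ := mem_Icc.1 h
    have N0 : (0 : ℝ) < N := by exact_mod_cast hN
    have h3 : (1 : ℝ) ≤ (n : ℝ) / N := (one_le_div N0).2 (by exact_mod_cast h1)
    have h4 : (n : ℝ) / N ≤ 2 := (div_le_iff₀ N0).2 (by exact_mod_cast h2)
    have h5 : Real.log ((n : ℝ) / N) ≤ 7 / 10 :=
      (Real.log_le_log (by linarith) h4).trans (by linarith [Real.log_two_lt_d9])
    rw [norm_mul, norm_pow, Complex.norm_real, Real.norm_of_nonneg (Real.log_nonneg h3)]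
    calc _ ≤ 1 * (7 / 10 : ℝ) ^ j :=
          mul_le_mul (hb n) (pow_le_pow_left₀ (Real.log_nonneg h3) h5 j)
            (pow_nonneg (Real.log_nonneg h3) j) zero_le_one
      _ = _ := one_mul _
  · simp only [norm_zero]
    positivity

lemma norm_DP_Ty (N : ℕ) (b : ℕ → ℂ) (c : ℝ) (hb : ∀ n, ‖b n‖ ≤ c) (t : ℝ) :
    ‖DP N b t‖ ≤ (N + 1) * c := by
  unfold DP
  refine (norm_sum_le _ _).trans ?_
  have := sum_le_card_nsmul (Icc N (2 * N)) (fun n : ℕ => ‖b n * pw (n : ℝ) t‖) c fun n _ => by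
    rw [norm_mul, norm_pw, mul_one]
    exact hb n
  rw [Nat.card_Icc, show 2 * N + 1 - N = N + 1 by omega, nsmul_eq_mul] at this
  exact_mod_cast this

lemma hasSum_Ty {N : ℕ} (hN : 1 ≤ N) (b : ℕ → ℂ) (m : ℝ) (z : ℂ) :
    HasSum (fun j : ℕ => z ^ j / (j.factorial : ℂ) * DP N (co_Ty N b j) m)
      (∑ n ∈ Icc N (2 * N), b n * pw (n : ℝ) m * ((((n : ℝ) / N : ℝ) : ℂ) ^ z)) := by
  unfold DP
  simp only [mul_sum]
  refine hasSum_sum fun n hn => ?_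
  have N0 : (0 : ℝ) < N := by exact_mod_cast hN
  have n0 : (0 : ℝ) < n := by exact_mod_cast (by have := (mem_Icc.1 hn).1; omega : 0 < n)
  have q0 : (0 : ℝ) < (n : ℝ) / N := div_pos n0 N0
  have h := (NormedSpace.expSeries_div_hasSum_exp
    (((Real.log ((n : ℝ) / N) : ℝ) : ℂ) * z)).mul_left (b n * pw (n : ℝ) m)
  rw [← Complex.exp_eq_exp_ℂ] at h
  have e1 : ((((n : ℝ) / N : ℝ) : ℂ) ^ z) =
      Complex.exp (((Real.log ((n : ℝ) / N) : ℝ) : ℂ) * z) := by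
    rw [Complex.cpow_def_of_ne_zero (by exact_mod_cast q0.ne'), Complex.ofReal_log q0.le]
  rw [e1]
  have e2 : ∀ j : ℕ, z ^ j / (j.factorial : ℂ) * (co_Ty N b j n * pw (n : ℝ) m) =
      b n * pw (n : ℝ) m * ((((Real.log ((n : ℝ) / N) : ℝ) : ℂ) * z) ^ j /
        (j.factorial : ℂ)) := fun j => by
    rw [co_Ty, if_pos hn, mul_pow]
    ring
  simp only [e2]
  exact h

lemma exp_Ty : Real.exp (6 / 5) < 6 := by
  have h1 : Real.exp (6 / 5) = Real.exp 1 * Real.exp (1 / 5) := by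
    rw [← Real.exp_add]
    norm_num
  have h2 : Real.exp (1 / 5) ≤ 1 / (1 - 1 / 5) :=
    Real.exp_bound_div_one_sub_of_interval (by norm_num) (by norm_num)
  have h3 := Real.exp_one_lt_three
  have h4 := Real.exp_pos (1 / 5)
  rw [h1]
  nlinarith

lemma small_Ty {Y j : ℕ} (hj : 2 * Y + 8 ≤ j) : (2 : ℝ) ^ Y * (7 / 10) ^ j < 1 / 6 := by
  have h1 : (7 / 10 : ℝ) ^ j ≤ (7 / 10) ^ (2 * Y + 8) :=
    pow_le_pow_of_le_one (by norm_num) (by norm_num) hj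
  have h2 : (2 : ℝ) ^ Y * (7 / 10) ^ (2 * Y + 8) = (2 * (7 / 10) ^ 2) ^ Y * (7 / 10) ^ 8 := by
    rw [pow_add, pow_mul, mul_pow]
    ring
  have h3 : (2 * (7 / 10 : ℝ) ^ 2) ^ Y ≤ 1 := pow_le_one₀ (by norm_num) (by norm_num)
  calc _ ≤ (2 : ℝ) ^ Y * (7 / 10) ^ (2 * Y + 8) := by gcongr
    _ ≤ 1 * (7 / 10) ^ 8 := by
        rw [h2]
        gcongr
    _ < 1 / 6 := by norm_num

theorem ty_stmt : TyStmt := by
  intro N T Y V Z hN hV hY hZ b hb S z hS hz hlow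
  have hE : HasSum (fun j : ℕ => (6 / 5 : ℝ) ^ j / (j.factorial : ℝ)) (Real.exp (6 / 5)) := by
    have := NormedSpace.expSeries_div_hasSum_exp (6 / 5 : ℝ)
    rwa [← Real.exp_eq_exp_ℝ] at this
  have hsub : S ⊆ (range (2 * Y + 8)).biUnion fun j =>
      (Icc 0 (T : ℤ)).filter (fun t : ℤ => V / 6 ≤ ‖DP N (co_Ty N b j) t‖) := by
    intro m hm
    have hex : ∃ j, V / 6 ≤ ‖DP N (co_Ty N b j) m‖ := by
      by_contra hne
      push Not at hne
      have h3 := (hasSum_Ty hN b (m : ℝ) (z m)).norm_le_of_bounded (hE.mul_right (V / 6))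
        fun j => by
          rw [norm_mul, norm_div, norm_pow, Complex.norm_natCast]
          have := hz m hm
          gcongr
          exact (hne j).le
      have h4 := hlow m hm
      have h5 := exp_Ty
      nlinarith
    obtain ⟨j, hj⟩ := hex
    refine mem_biUnion.2 ⟨j, mem_range.2 ?_, mem_filter.2 ⟨hS hm, hj⟩⟩
    by_contra hge
    have h1 := small_Ty (not_lt.1 hge)
    have h2 := norm_DP_Ty N _ _ (norm_co_Ty hN hb j) (m : ℝ)
    have h3 : ((N : ℝ) + 1) * (7 / 10) ^ j ≤ 2 ^ Y * V * (7 / 10) ^ j := by gcongr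
    have h4 : 2 ^ Y * V * (7 / 10 : ℝ) ^ j = V * (2 ^ Y * (7 / 10) ^ j) := by ring
    have h5 := mul_lt_mul_of_pos_left h1 hV
    linarith
  have h1 := (card_le_card hsub).trans card_biUnion_le
  have h2 : ((∑ j ∈ range (2 * Y + 8), cnt N (co_Ty N b j) T (V / 6) : ℕ) : ℝ) ≤
      ∑ _j ∈ range (2 * Y + 8), Z := by
    push_cast
    exact sum_le_sum fun j _ => hZ _ fun n =>
      (norm_co_Ty hN hb j n).trans (pow_le_one₀ (by norm_num) (by norm_num))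
  rw [sum_const, card_range, nsmul_eq_mul] at h2
  have h3 : (S.card : ℝ) ≤ ((∑ j ∈ range (2 * Y + 8), cnt N (co_Ty N b j) T (V / 6) : ℕ) : ℝ) := by
    exact_mod_cast h1
  refine h3.trans (h2.trans (le_of_eq ?_))
  push_cast
  ring

end Pool.Agent.MP_2a1f0e_nt.DH

end

section

set_option autoImplicit false
open Finset
namespace Pool.Agent.MP_2a1f0e_nt.DH
open Pool.Agent.MP_2a1f0e_nt.GM

lemma norm_LV {N : ℕ} (hN : 1 ≤ N) (b : ℕ → ℂ) (m θ : ℝ) :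
    ‖∑ n ∈ Icc N (2 * N), b n * pw (n : ℝ) m *
      ((((n : ℝ) / N : ℝ) : ℂ) ^ (Complex.I * (θ : ℂ)))‖ = ‖DP N b (m + θ)‖ := by
  have h0 : (0 : ℝ) < N := Nat.cast_pos.2 hN
  rw [← mul_one ‖DP N b _‖, ← norm_pw N (-θ), ← norm_mul, DP, sum_mul]
  refine congrArg norm (sum_congr rfl fun n hn => ?_)
  have h1 : (0 : ℝ) < n := Nat.cast_pos.2 (hN.trans (mem_Icc.1 hn).1)
  have h2 := div_pos h1 h0
  rw [pw_add, mul_assoc, mul_assoc, mul_assoc, ← pw_div h1.ne' h0.ne',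
    Complex.cpow_def_of_ne_zero (Complex.ofReal_ne_zero.2 h2.ne'), ← Complex.ofReal_log h2.le,
    mul_comm (Real.log _ : ℂ)]
  rfl

lemma red_LV (hT : TyStmt) {N Y : ℕ} {T V Z : ℝ} (hN : 1 ≤ N) (hV : 0 < V)
    (hY : (N : ℝ) + 1 ≤ 2 ^ Y * V)
    (hZ : ∀ b : ℕ → ℂ, (∀ n, ‖b n‖ ≤ 1) → (cnt N b ⌊T⌋₊ (V / 6) : ℝ) ≤ Z)
    {b : ℕ → ℂ} (hb : ∀ n, ‖b n‖ ≤ 1) {W : Finset ℝ} (h1 : ∀ t ∈ W, 0 ≤ t ∧ t ≤ T)
    (h2 : ∀ s ∈ W, ∀ t ∈ W, s ≠ t → 1 ≤ |s - t|) (h3 : ∀ t ∈ W, V ≤ ‖DP N b t‖) :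
    (W.card : ℝ) ≤ (2 * Y + 8) * Z := by
  rw [← card_image_of_injOn (f := Int.floor) fun s hs t ht e => by_contra fun h =>
    (h2 s hs t ht h).not_gt (Int.abs_sub_lt_one_of_floor_eq_floor e)]
  choose! t ht e using fun m (hm : m ∈ W.image Int.floor) => mem_image.1 hm
  refine hT N ⌊T⌋₊ Y V Z hN hV hY hZ b hb _ (fun m => Complex.I * (t m - m : ℝ))
    (fun m hm => ?_) (fun m hm => ?_) fun m hm => ?_
  · obtain ⟨a, c⟩ := h1 _ (ht m hm)
    rw [← e m hm, Int.natCast_floor_eq_floor (a.trans c)]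
    exact mem_Icc.2 ⟨Int.floor_nonneg.2 a, Int.floor_le_floor c⟩
  · have a := Int.floor_le (t m)
    have c := Int.lt_floor_add_one (t m)
    rw [e m hm] at a c
    rw [norm_mul, Complex.norm_I, one_mul, Complex.norm_real, Real.norm_of_nonneg (by linarith)]
    linarith
  · rw [norm_LV hN, add_sub_cancel]
    exact h3 _ (ht m hm)

theorem lv_stmt (hI : IvStmt) (hP : PowStmt) (hT : TyStmt) : LVStmt := by
  intro A ε hε
  obtain ⟨A', hA, hA1⟩ : ∃ A', A ≤ A' ∧ 1 ≤ A' := ⟨_, le_max_left _ _, le_max_right _ _⟩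
  obtain ⟨K₁, hK₁, h1⟩ := hI (ε / 2) (half_pos hε)
  obtain ⟨a, h2⟩ := hP A'
  obtain ⟨K₂, hK₂, h2⟩ := h2 (ε / 2 / A') (by positivity)
  obtain ⟨c, hc, h3⟩ := exists_log_le (half_pos hε)
  refine ⟨12 * c * (K₁ * 6 ^ 18 + K₂ * 6 ^ a), fun N T σ hN hNT hTA hor s1 s2 b hb W w1 w2 w3 => ?_⟩
  have hN1 : (1 : ℝ) ≤ N := by exact_mod_cast hN
  have hV : 1 ≤ (N : ℝ) ^ σ := Real.one_le_rpow hN1 (by linarith)
  have hT0 : 0 ≤ T := by linarith
  have hf := Nat.floor_le hT0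
  have h4 : (⌊T⌋₊ : ℝ) ^ (2 - 2 * σ) ≤ T ^ (2 - 2 * σ) :=
    Real.rpow_le_rpow (Nat.cast_nonneg _) hf (by linarith)
  have h5 : (N : ℝ) ^ σ ≤ 6 * ((N : ℝ) ^ σ / 6) := by linarith
  have hE : 0 ≤ (N : ℝ) ^ (ε / 2) * T ^ (2 - 2 * σ) := by positivity
  have hZ : ∀ b : ℕ → ℂ, (∀ n, ‖b n‖ ≤ 1) → (cnt N b ⌊T⌋₊ ((N : ℝ) ^ σ / 6) : ℝ) ≤
      (K₁ * 6 ^ 18 + K₂ * 6 ^ a) * ((N : ℝ) ^ (ε / 2) * T ^ (2 - 2 * σ)) := fun b hb => by
    rw [add_mul]
    rcases hor with h | h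
    · have h6 : ⌊T⌋₊ ^ 2 ≤ N ^ 3 := by
        have := pow_le_pow_left₀ (Nat.cast_nonneg _) (hf.trans h) 2
        rw [← Real.rpow_mul_natCast (by linarith), show (3 / 2 : ℝ) * (2 : ℕ) = (3 : ℕ) by norm_num,
          Real.rpow_natCast] at this
        exact_mod_cast this
      refine (h1 N _ hN (Nat.le_floor hNT) h6 σ 6 _ s1 s2 (by norm_num) (by positivity) h5 b
        hb).trans (le_add_of_le_of_nonneg ?_ (by positivity))
      calc _ ≤ K₁ * (N : ℝ) ^ (ε / 2) * 6 ^ 18 * T ^ (2 - 2 * σ) := by gcongr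
        _ = _ := by ring
    · have h6 := hTA.trans (Real.rpow_le_rpow_of_exponent_le hN1 hA)
      refine (h2 N _ hN (Nat.le_floor (by exact_mod_cast h)) (hf.trans h6) σ 6 _ s1 s2
        (by norm_num) (by positivity) h5 b hb).trans (le_add_of_nonneg_of_le (by positivity) ?_)
      have h7 : T ^ (ε / 2 / A') ≤ (N : ℝ) ^ (ε / 2) := by
        refine (Real.rpow_le_rpow hT0 h6 (by positivity)).trans_eq ?_
        rw [← Real.rpow_mul (by linarith), mul_div_cancel₀ _ (by positivity)]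
      have h8 : 0 < ε / 2 / A' := by positivity
      calc _ ≤ K₂ * 6 ^ a * T ^ (2 - 2 * σ + ε / 2 / A') := by gcongr; linarith
        _ ≤ _ := by
          rw [Real.rpow_add (by linarith), mul_comm (T ^ _)]
          gcongr
  have hY : (N : ℝ) + 1 ≤ 2 ^ (Nat.log 2 N + 1) * (N : ℝ) ^ σ := by
    have : N + 1 ≤ 2 ^ (Nat.log 2 N + 1) := Nat.lt_pow_succ_log_self one_lt_two N
    exact le_trans (by exact_mod_cast this) (le_mul_of_one_le_right (by positivity) hV)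
  refine (red_LV hT hN (by positivity) hY hZ hb w1 w2 w3).trans ?_
  have h9 := h3 N hN
  have h10 : (0 : ℝ) ≤ Nat.log 2 N := Nat.cast_nonneg _
  calc _ ≤ (12 * (c * (N : ℝ) ^ (ε / 2))) * ((K₁ * 6 ^ 18 + K₂ * 6 ^ a) *
        ((N : ℝ) ^ (ε / 2) * T ^ (2 - 2 * σ))) := by
        gcongr
        push_cast
        linarith
    _ = 12 * c * (K₁ * 6 ^ 18 + K₂ * 6 ^ a) * ((N : ℝ) ^ (ε / 2) * (N : ℝ) ^ (ε / 2)) *
        T ^ (2 - 2 * σ) := by ring
    _ = _ := by rw [← Real.rpow_add (by linarith), add_halves]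

end Pool.Agent.MP_2a1f0e_nt.DH

end

section

set_option autoImplicit false

open Finset

namespace Pool.Agent.MP_2a1f0e_nt.DH

open Pool.Agent.MP_2a1f0e_nt.GM

lemma dy_Pow (f : ℕ → ℂ) (M J : ℕ) :
    ∑ j ∈ range J, ∑ n ∈ Ico (2 ^ j * M) (2 * (2 ^ j * M)), f n = ∑ n ∈ Ico M (2 ^ J * M), f n := by
  induction J with
  | zero => simp
  | succ J ih =>
    rw [sum_range_succ, ih, pow_succ', mul_assoc]
    exact sum_Ico_consecutive f (Nat.le_mul_of_pos_left M (by positivity)) (by omega)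

lemma split_Pow {N : ℕ} (hN : 1 ≤ N) (b : ℕ → ℂ) (k : ℕ) {D V : ℝ} (hD : 0 < D) (hV : 0 < V)
    (hc : ∀ n, ‖(tr N b ^ k) n‖ ≤ D) : ∃ c : ℕ → ℕ → ℂ, (∀ j n, ‖c j n‖ ≤ 1) ∧ ∀ T,
      cnt N b T V ≤ ∑ j ∈ range (k + 1), cnt (2 ^ j * N ^ k) (c j) T (V ^ k / ((k + 1) * D)) := by
  refine ⟨fun j n => if n < 2 * (2 ^ j * N ^ k) then (tr N b ^ k) n / D else 0, fun j n => ?_,
    fun T => ?_⟩
  · dsimp only
    split_ifs
    · rw [norm_div, Complex.norm_real, Real.norm_of_nonneg hD.le]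
      exact div_le_one_of_le₀ (hc n) hD.le
    · simp
  refine le_trans (card_le_card fun t ht => ?_) card_biUnion_le
  obtain ⟨ht, hVt⟩ := mem_filter.1 ht
  have h1 : ∀ j, DP (2 ^ j * N ^ k)
      (fun n => if n < 2 * (2 ^ j * N ^ k) then (tr N b ^ k) n / D else 0) t =
      ∑ n ∈ Ico (2 ^ j * N ^ k) (2 * (2 ^ j * N ^ k)), (tr N b ^ k) n * pw n t / D := fun j => by
    rw [DP, ← sum_subset Ico_subset_Icc_self fun n h1 h2 => by
      rw [mem_Icc] at h1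
      rw [mem_Ico] at h2
      rw [if_neg (by omega), zero_mul]]
    exact sum_congr rfl fun n hn => by rw [if_pos (mem_Ico.1 hn).2, div_mul_eq_mul_div]
  have hp : 0 < 2 ^ k * N ^ k := by positivity
  have h2 : ∑ j ∈ range (k + 1), DP (2 ^ j * N ^ k)
      (fun n => if n < 2 * (2 ^ j * N ^ k) then (tr N b ^ k) n / D else 0) t = DP N b t ^ k / D := by
    simp only [h1]
    rw [dy_Pow, ← sum_div, DP, ← tr_pow_sum hN b (fun n => pw n t) (fun x y hx hy => by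
      rw [Nat.cast_mul, pw_mul (by exact_mod_cast hx) (by exact_mod_cast hy)])
      (by rw [Nat.cast_one, pw_one]) k]
    congr 1
    refine (sum_subset (fun n hn => ?_) fun n _ hn => by rw [tr_pow_supp N b k n hn, zero_mul]).symm
    rw [mem_Icc, mul_pow] at hn
    rw [mem_Ico, pow_succ', mul_assoc]
    omega
  have h3 : ∑ _j ∈ range (k + 1), V ^ k / ((k + 1) * D) ≤ ∑ j ∈ range (k + 1), ‖DP (2 ^ j * N ^ k)
      (fun n => if n < 2 * (2 ^ j * N ^ k) then (tr N b ^ k) n / D else 0) t‖ := by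
    refine le_trans ?_ (norm_sum_le _ _)
    rw [h2, norm_div, norm_pow, Complex.norm_real, Real.norm_of_nonneg hD.le, sum_const,
      card_range, nsmul_eq_mul, Nat.cast_succ, ← mul_div_assoc,
      mul_div_mul_left _ _ (by positivity)]
    gcongr
  obtain ⟨j, hj, h4⟩ := exists_le_of_sum_le nonempty_range_add_one h3
  exact mem_biUnion.2 ⟨j, hj, mem_filter.2 ⟨ht, h4⟩⟩

theorem pow_stmt (hI : IvStmt) : PowStmt := by
  intro A
  obtain ⟨k0, hk0⟩ := exists_nat_ge A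
  refine ⟨18 * k0, fun ε hε => ?_⟩
  obtain ⟨δ, hδ, hδε⟩ : ∃ δ : ℝ, 0 < δ ∧ δ + δ * k0 * 18 = ε :=
    ⟨ε / (1 + k0 * 18), by positivity, by field_simp⟩
  obtain ⟨K, hK, hI⟩ := hI δ hδ
  obtain ⟨c0, hc0, hdiv⟩ := exists_DivB hδ
  refine ⟨(k0 + 1) * (K * (2 ^ k0 * (k0 + 1) * c0 ^ k0) ^ 18 * (2 ^ k0) ^ (2 + ε)) + 2,
    by positivity, ?_⟩
  intro N T hN hNT hTA σ lam V hσ hσ1 hlam hV hNV b hb
  have hT1 : 1 ≤ T := (Nat.one_le_pow _ _ hN).trans hNT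
  have hl1 : 1 ≤ lam ^ (18 * k0) := one_le_pow₀ hlam
  have hT0 : (0 : ℝ) < T := by exact_mod_cast hT1
  have hp : 0 ≤ (k0 + 1) * (K * (2 ^ k0 * (k0 + 1) * c0 ^ k0) ^ 18 * (2 ^ k0) ^ (2 + ε)) := by
    positivity
  rcases hN.eq_or_lt with rfl | hN2
  · rw [Nat.cast_one, Real.one_rpow] at hTA
    obtain rfl : T = 1 := le_antisymm (by exact_mod_cast hTA) hT1
    have h1 : (cnt 1 b 1 V : ℝ) ≤ 2 := by exact_mod_cast cnt_le 1 b 1 V
    rw [Nat.cast_one, Real.one_rpow, mul_one]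
    nlinarith
  obtain ⟨k, hk⟩ : ∃ k, k = Nat.log N T := ⟨_, rfl⟩
  have k1 : N ^ k ≤ T := hk ▸ Nat.pow_log_le_self N (by omega)
  have k2 : T < N ^ (k + 1) := hk ▸ Nat.lt_pow_succ_log_self hN2 T
  have k3 : 2 ≤ k := by
    have := (Nat.pow_lt_pow_iff_right hN2).1 (hNT.trans_lt k2)
    omega
  have hN1 : (1 : ℝ) ≤ N := by exact_mod_cast hN
  have k4 : k ≤ k0 := by
    have h1 : (T : ℝ) ≤ (N : ℝ) ^ k0 := by
      rw [← Real.rpow_natCast]
      exact hTA.trans (Real.rpow_le_rpow_of_exponent_le hN1 hk0)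
    exact (Nat.pow_le_pow_iff_right hN2).1 (k1.trans (by exact_mod_cast h1))
  obtain ⟨Y, hY⟩ : ∃ Y : ℕ, Y = 2 ^ k0 * T := ⟨_, rfl⟩
  have hTY : T ≤ Y := hY ▸ Nat.le_mul_of_pos_left T (by positivity)
  have hjY : ∀ j ≤ k, 2 ^ j * N ^ k ≤ Y := fun j hj =>
    hY ▸ Nat.mul_le_mul (Nat.pow_le_pow_right two_pos (hj.trans k4)) k1
  obtain ⟨d1, d2⟩ := hdiv Y (hT1.trans hTY)
  have hY0 : (0 : ℝ) < Y := by exact_mod_cast hT1.trans hTY
  obtain ⟨D, hD⟩ : ∃ D : ℝ, D = (c0 * (Y : ℝ) ^ δ) ^ k0 := ⟨_, rfl⟩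
  have hD1 : 1 ≤ D := hD ▸ one_le_pow₀ d1
  obtain ⟨c, hc, hcnt⟩ := split_Pow hN b k (D := D) (by linarith) hV fun n => by
    by_cases hn : n ≤ Y
    · exact (tr_pow_norm N b k n).trans ((tr_pow_le N b hb d1 d2 k n hn).trans
        (hD ▸ pow_le_pow_right₀ d1 k4))
    · rw [tr_pow_supp N b k n fun h => hn ((mem_Icc.1 h).2.trans (mul_pow 2 N k ▸ hjY k le_rfl)),
        norm_zero]
      linarith
  have hlam' : 1 ≤ 2 ^ k0 * (k0 + 1) * D * lam ^ k0 :=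
    one_le_mul_of_one_le_of_one_le (one_le_mul_of_one_le_of_one_le
      (one_le_mul_of_one_le_of_one_le (one_le_pow₀ one_le_two)
        (le_add_of_nonneg_left (Nat.cast_nonneg k0))) hD1) (one_le_pow₀ hlam)
  have key : ∀ j ∈ range (k + 1), (cnt (2 ^ j * N ^ k) (c j) T (V ^ k / ((k + 1) * D)) : ℝ) ≤
      K * (Y : ℝ) ^ δ * (2 ^ k0 * (k0 + 1) * D * lam ^ k0) ^ 18 * (Y : ℝ) ^ (2 - 2 * σ) := by
    intro j hj
    have hjk : j ≤ k := Nat.lt_succ_iff.1 (mem_range.1 hj)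
    have hM : 1 ≤ 2 ^ j * N ^ k := Nat.succ_le_of_lt (by positivity)
    have h1 : max T (2 ^ j * N ^ k) ^ 2 ≤ (2 ^ j * N ^ k) ^ 3 := by
      rcases le_total T (2 ^ j * N ^ k) with h | h
      · rw [max_eq_right h]
        exact Nat.pow_le_pow_right hM (by norm_num)
      · rw [max_eq_left h]
        refine (Nat.pow_le_pow_left k2.le 2).trans (le_trans ?_
          (Nat.pow_le_pow_left (Nat.le_mul_of_pos_left (N ^ k) (by positivity)) 3))
        rw [← pow_mul, ← pow_mul]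
        exact Nat.pow_le_pow_right hN (by omega)
    have h2 : ((2 ^ j * N ^ k : ℕ) : ℝ) ^ σ ≤
        2 ^ k0 * (k0 + 1) * D * lam ^ k0 * (V ^ k / ((k + 1) * D)) := by
      have a1 : ((2 : ℝ) ^ j) ^ σ ≤ 2 ^ k0 := by
        refine (Real.rpow_le_rpow_of_exponent_le (one_le_pow₀ one_le_two) hσ1).trans ?_
        rw [Real.rpow_one]
        exact pow_le_pow_right₀ one_le_two (hjk.trans k4)
      have a2 : ((N : ℝ) ^ k) ^ σ ≤ lam ^ k0 * V ^ k := by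
        rw [← Real.rpow_pow_comm (by linarith)]
        refine (pow_le_pow_left₀ (by positivity) hNV k).trans ?_
        rw [mul_pow]
        exact mul_le_mul_of_nonneg_right (pow_le_pow_right₀ hlam k4) (by positivity)
      have a3 : (1 : ℝ) ≤ (k0 + 1) / (k + 1) :=
        (one_le_div (by positivity)).2 (by exact_mod_cast Nat.succ_le_succ k4)
      push_cast
      rw [Real.mul_rpow (by positivity) (by positivity)]
      refine (mul_le_mul a1 a2 (by positivity) (by positivity)).trans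
        ((le_mul_of_one_le_left (by positivity) a3).trans_eq ?_)
      field_simp
    refine le_trans (Nat.cast_le.2 (cnt_mono _ _ (le_max_left T _) le_rfl))
      ((hI _ _ hM (le_max_right _ _) h1 σ _ _ hσ hσ1 hlam' (by positivity) h2 _ (hc j)).trans ?_)
    have h3 : ((2 ^ j * N ^ k : ℕ) : ℝ) ≤ Y := Nat.cast_le.2 (hjY j hjk)
    have h4 : ((max T (2 ^ j * N ^ k) : ℕ) : ℝ) ≤ Y := Nat.cast_le.2 (max_le hTY (hjY j hjk))
    have h5 : 0 ≤ 2 - 2 * σ := by linarith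
    gcongr
  have e1 : K * (Y : ℝ) ^ δ * (2 ^ k0 * (k0 + 1) * D * lam ^ k0) ^ 18 * (Y : ℝ) ^ (2 - 2 * σ) =
      K * (2 ^ k0 * (k0 + 1) * c0 ^ k0) ^ 18 * lam ^ (18 * k0) * (Y : ℝ) ^ (2 - 2 * σ + ε) := by
    have h1 : (Y : ℝ) ^ (δ * k0 * 18) = (((Y : ℝ) ^ δ) ^ k0) ^ 18 := by
      rw [← Real.rpow_mul_natCast hY0.le, ← Real.rpow_mul_natCast hY0.le, Nat.cast_ofNat]
    rw [hD, ← hδε, Real.rpow_add hY0, Real.rpow_add hY0, h1]
    ring
  have e2 : (Y : ℝ) ^ (2 - 2 * σ + ε) ≤ (2 ^ k0) ^ (2 + ε) * (T : ℝ) ^ (2 - 2 * σ + ε) := by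
    rw [hY]
    push_cast
    rw [Real.mul_rpow (by positivity) hT0.le]
    exact mul_le_mul_of_nonneg_right (Real.rpow_le_rpow_of_exponent_le (one_le_pow₀ one_le_two)
      (by linarith)) (by positivity)
  have h6 : (cnt N b T V : ℝ) ≤ (k + 1) * (K * (2 ^ k0 * (k0 + 1) * c0 ^ k0) ^ 18 *
      lam ^ (18 * k0) * (Y : ℝ) ^ (2 - 2 * σ + ε)) := by
    refine le_trans (Nat.cast_le.2 (hcnt T)) ?_
    rw [Nat.cast_sum, ← e1]
    refine (sum_le_card_nsmul _ _ _ key).trans_eq ?_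
    rw [card_range, nsmul_eq_mul, Nat.cast_succ]
  have h7 : (k : ℝ) ≤ k0 := Nat.cast_le.2 k4
  calc _ ≤ _ := h6
    _ ≤ (k0 + 1) * (K * (2 ^ k0 * (k0 + 1) * c0 ^ k0) ^ 18 *
        lam ^ (18 * k0) * ((2 ^ k0) ^ (2 + ε) * (T : ℝ) ^ (2 - 2 * σ + ε))) := by gcongr
    _ = (k0 + 1) * (K * (2 ^ k0 * (k0 + 1) * c0 ^ k0) ^ 18 * (2 ^ k0) ^ (2 + ε)) *
        lam ^ (18 * k0) * (T : ℝ) ^ (2 - 2 * σ + ε) := by ring
    _ ≤ _ := by
      gcongr
      linarith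

end Pool.Agent.MP_2a1f0e_nt.DH

end
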