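import Pool.Agent.MP_2a1f0e_nt.GM2.Defs
import Pool.Agent.Mg.C853.G9b677c
import Pool.Agent.Mg.C853.G50a3e6

section

set_option autoImplicit false

open Finset

namespace Pool.Agent.MP_2a1f0e_nt.GM2

open GM

/-- one term of the expanded cubic trace with three weights -/
noncomputable def tm_Three3 (N : ℕ) (ν₁ ν₂ ν₃ : ℤ → ℝ) (i : (ℤ × ℤ × ℤ) × (ℤ × ℤ × ℤ))
    (v w : ℝ) : ℂ :=
  ((ν₁ i.1.1 * ν₂ i.1.2.1 * ν₃ i.1.2.2 : ℝ) : ℂ) *
    (Three.pc v ((i.1.1 : ℝ) - i.1.2.1) * Three.pc w ((i.1.2.1 : ℝ) - i.1.2.2) *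
      Three.R3 v w ((i.2.1 : ℝ) * N * v + (i.2.2.1 : ℝ) * N * w + (i.2.2.2 : ℝ) * N))

lemma continuous_tm_Three3 (N : ℕ) (ν₁ ν₂ ν₃ : ℤ → ℝ) (i : (ℤ × ℤ × ℤ) × (ℤ × ℤ × ℤ)) :
    Continuous (Function.uncurry (tm_Three3 N ν₁ ν₂ ν₃ i)) := by
  unfold tm_Three3 Function.uncurry
  exact continuous_const.mul ((((Three.continuous_pc _).comp continuous_fst).mul
    ((Three.continuous_pc _).comp continuous_snd)).mul (Three.continuous_R3 _ _ _))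

lemma Q33_eq_Three3 (N M : ℕ) (s : Finset ℤ) (ν₁ ν₂ ν₃ : ℤ → ℝ) :
    Q33 N M s ν₁ ν₂ ν₃ = (N : ℂ) ^ 3 * ∫ v in (1 / 3 : ℝ)..3, ∫ w in (1 / 3 : ℝ)..3,
      ∑ i ∈ (s ×ˢ s ×ˢ s) ×ˢ (Ms M ×ˢ Ms M ×ˢ Ms M), tm_Three3 N ν₁ ν₂ ν₃ i v w := by
  rw [← Three.DI_sum _ _ (continuous_tm_Three3 N ν₁ ν₂ ν₃), sum_product, mul_sum]
  unfold Q33
  rw [sum_product]
  refine sum_congr rfl fun a _ => ?_
  rw [sum_product]
  refine sum_congr rfl fun b _ => sum_congr rfl fun c _ => ?_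
  have hp : pw (N : ℝ) ((a : ℝ) - b) * pw (N : ℝ) ((b : ℝ) - c) * pw (N : ℝ) ((c : ℝ) - a) = 1 := by
    rw [← pw_add, ← pw_add, show (a : ℝ) - b + ((b : ℝ) - c) + ((c : ℝ) - a) = 0 by ring, pw_zero]
  have e : ∀ m : ℤ × ℤ × ℤ, (∫ v in (1 / 3 : ℝ)..3, ∫ w in (1 / 3 : ℝ)..3,
      tm_Three3 N ν₁ ν₂ ν₃ ((a, b, c), m) v w) = ((ν₁ a * ν₂ b * ν₃ c : ℝ) : ℂ) *
        (HH ((a : ℝ) - b) ((m.1 : ℝ) * N) * HH ((b : ℝ) - c) ((m.2.1 : ℝ) * N) *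
          HH ((c : ℝ) - a) ((m.2.2 : ℝ) * N)) := by
    intro m
    rw [Three.key (by ring)]
    simp only [tm_Three3, intervalIntegral.integral_const_mul]
  rw [sum_congr rfl fun m _ => e m, ← mul_sum]
  have e2 : ∑ m ∈ Ms M ×ˢ Ms M ×ˢ Ms M,
      HH ((a : ℝ) - b) ((m.1 : ℝ) * N) * HH ((b : ℝ) - c) ((m.2.1 : ℝ) * N) *
          HH ((c : ℝ) - a) ((m.2.2 : ℝ) * N) =
      (∑ m ∈ Ms M, HH ((a : ℝ) - b) ((m : ℝ) * N)) * (∑ m ∈ Ms M, HH ((b : ℝ) - c) ((m : ℝ) * N)) *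
        ∑ m ∈ Ms M, HH ((c : ℝ) - a) ((m : ℝ) * N) := by
    rw [mul_assoc, sum_mul_sum (Ms M) (Ms M), ← sum_product', sum_mul_sum, sum_product]
    refine sum_congr rfl fun m _ => sum_congr rfl fun m' _ => ?_
    ring
  rw [e2]
  unfold Kb
  linear_combination (((ν₁ a * ν₂ b * ν₃ c : ℝ) : ℂ) * (N : ℂ) ^ 3 *
    (∑ m ∈ Ms M, HH ((a : ℝ) - b) ((m : ℝ) * N)) * (∑ m ∈ Ms M, HH ((b : ℝ) - c) ((m : ℝ) * N)) *
        ∑ m ∈ Ms M, HH ((c : ℝ) - a) ((m : ℝ) * N)) * hp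

lemma sum_tm_Three3 (N M : ℕ) (s : Finset ℤ) (ν₁ ν₂ ν₃ : ℤ → ℝ) {v w : ℝ} (hv : 1 / 3 ≤ v)
    (hw : 1 / 3 ≤ w) :
    ∑ i ∈ (s ×ˢ s ×ˢ s) ×ˢ (Ms M ×ˢ Ms M ×ˢ Ms M), tm_Three3 N ν₁ ν₂ ν₃ i v w =
      FT s ν₁ v * FT s ν₂ (w / v) * FT s ν₃ w⁻¹ * ∑ m ∈ Ms M ×ˢ Ms M ×ˢ Ms M,
        Three.R3 v w ((m.1 : ℝ) * N * v + (m.2.1 : ℝ) * N * w + (m.2.2 : ℝ) * N) := by
  have hv0 : v ≠ 0 := by
    have h : 0 < v := by linarith
    exact h.ne'
  have hw0 : w ≠ 0 := by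
    have h : 0 < w := by linarith
    exact h.ne'
  have e : FT s ν₁ v * FT s ν₂ (w / v) * FT s ν₃ w⁻¹ = ∑ a ∈ s ×ˢ s ×ˢ s,
      ((ν₁ a.1 * ν₂ a.2.1 * ν₃ a.2.2 : ℝ) : ℂ) *
        (Three.pc v ((a.1 : ℝ) - a.2.1) * Three.pc w ((a.2.1 : ℝ) - a.2.2)) := by
    unfold FT
    rw [mul_assoc, sum_mul_sum s s, ← sum_product', sum_mul_sum, sum_product]
    refine sum_congr rfl fun a _ => sum_congr rfl fun b _ => ?_
    rw [Three.pc_eq (by linarith), Three.pc_eq (by linarith), pw_div hw0 hv0, pw_inv,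
      sub_eq_add_neg, sub_eq_add_neg, pw_add, pw_add]
    push_cast
    ring
  rw [e, sum_mul_sum, sum_product]
  refine sum_congr rfl fun a _ => sum_congr rfl fun m _ => ?_
  unfold tm_Three3
  ring

lemma cont_phi_Three3 (s : Finset ℤ) (ν : ℤ → ℝ) :
    Continuous fun x : ℝ => ‖FT s ν (max x (1 / 10))‖ := by
  refine ((continuousOn_FT s ν).comp_continuous (by fun_prop) fun x => ?_).norm
  exact lt_of_lt_of_le (by norm_num) (le_max_right x (1 / 10 : ℝ))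

theorem three3_stmt (hR : RadStmt) : Three3Stmt := by
  obtain ⟨C, hC, hR⟩ := hR
  refine ⟨C, hC, fun N M _ s ν₁ ν₂ ν₃ => ?_⟩
  set φ : (ℤ → ℝ) → ℝ → ℝ := fun ν x => ‖FT s ν (max x (1 / 10))‖ with hφ
  have cφ : ∀ ν, Continuous (φ ν) := fun ν => cont_phi_Three3 s ν
  have eφ : ∀ ν, ∀ x : ℝ, 1 / 10 ≤ x → φ ν x = ‖FT s ν x‖ := fun ν x hx => by
    simp only [hφ]
    rw [max_eq_left hx]
  set G : ℝ → ℝ → ℝ := fun v w =>
    φ ν₁ v * φ ν₂ (w / max v (1 / 3)) * φ ν₃ w * kp3 N M v w with hG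
  have cG : Continuous (Function.uncurry G) := by
    have h1 : Continuous fun p : ℝ × ℝ => p.2 / max p.1 (1 / 3 : ℝ) :=
      continuous_snd.div (by fun_prop) fun p =>
        (lt_of_lt_of_le (by norm_num) (le_max_right p.1 (1 / 3 : ℝ))).ne'
    exact ((((cφ ν₁).comp continuous_fst).mul ((cφ ν₂).comp h1)).mul
      ((cφ ν₃).comp continuous_snd)).mul (continuous_kp3 N M)
  have eG : ∀ v w : ℝ, v ∈ Set.Icc (1 / 3 : ℝ) 3 → w ∈ Set.Icc (1 / 3 : ℝ) 3 →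
      G v w = ‖FT s ν₁ v‖ * ‖FT s ν₂ (w / v)‖ * ‖FT s ν₃ w‖ * kp3 N M v w := by
    intro v w hv hw
    have hv0 : 0 < v := by linarith [hv.1]
    have h1 : 1 / 10 ≤ w / v := by
      rw [le_div_iff₀ hv0]
      linarith [hv.2, hw.1]
    simp only [hG]
    rw [max_eq_left hv.1, eφ ν₁ v (by linarith [hv.1]), eφ ν₃ w (by linarith [hw.1]), eφ ν₂ _ h1]
  have eT : Tr3 N M (fun v => ‖FT s ν₁ v‖) (fun v => ‖FT s ν₂ v‖) (fun v => ‖FT s ν₃ v‖) =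
      ∫ v in (1 / 3 : ℝ)..3, ∫ w in (1 / 3 : ℝ)..3, G v w := by
    unfold Tr3
    apply intervalIntegral.integral_congr
    intro v hv
    rw [Set.uIcc_of_le (by norm_num)] at hv
    apply intervalIntegral.integral_congr
    intro w hw
    rw [Set.uIcc_of_le (by norm_num)] at hw
    exact (eG v w hv hw).symm
  have hb : ‖∫ v in (1 / 3 : ℝ)..3, ∫ w in (1 / 3 : ℝ)..3,
      ∑ i ∈ (s ×ˢ s ×ˢ s) ×ˢ (Ms M ×ˢ Ms M ×ˢ Ms M), tm_Three3 N ν₁ ν₂ ν₃ i v w‖ ≤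
      ∫ v in (1 / 3 : ℝ)..3, C * ∫ w in (1 / 3 : ℝ)..3, G v w := by
    refine intervalIntegral.norm_integral_le_of_norm_le (by norm_num)
      (Filter.Eventually.of_forall fun v hv => ?_) ?_
    · rw [← intervalIntegral.integral_const_mul]
      refine intervalIntegral.norm_integral_le_of_norm_le (by norm_num)
        (Filter.Eventually.of_forall fun w hw => ?_) ?_
      · have hv' : v ∈ Set.Icc (1 / 3 : ℝ) 3 := ⟨hv.1.le, hv.2⟩
        have hw' : w ∈ Set.Icc (1 / 3 : ℝ) 3 := ⟨hw.1.le, hw.2⟩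
        rw [sum_tm_Three3 N M s ν₁ ν₂ ν₃ hv'.1 hw'.1, eG v w hv' hw', norm_mul, norm_mul,
          norm_mul, norm_FT_inv]
        have h1 : ‖∑ m ∈ Ms M ×ˢ Ms M ×ˢ Ms M,
            Three.R3 v w ((m.1 : ℝ) * N * v + (m.2.1 : ℝ) * N * w + (m.2.2 : ℝ) * N)‖ ≤
            C * kp3 N M v w := by
          refine (norm_sum_le _ _).trans ?_
          unfold kp3
          rw [sum_product, mul_sum]
          refine sum_le_sum fun m₁ _ => ?_
          rw [sum_product, mul_sum]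
          refine sum_le_sum fun m₂ _ => ?_
          rw [mul_sum]
          refine sum_le_sum fun m₃ _ => ?_
          rw [Three.R3_eq, show (N : ℝ) * ((m₁ : ℝ) * v + (m₂ : ℝ) * w + (m₃ : ℝ)) =
            (m₁ : ℝ) * N * v + (m₂ : ℝ) * N * w + (m₃ : ℝ) * N by ring]
          exact (hR v w _ hv' hw').2
        calc _ ≤ ‖FT s ν₁ v‖ * ‖FT s ν₂ (w / v)‖ * ‖FT s ν₃ w‖ * (C * kp3 N M v w) := by
              gcongr
          _ = _ := by ring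
      · exact (continuous_const.mul
          (cG.comp (f := fun w : ℝ => (v, w)) (by fun_prop))).intervalIntegrable _ _
    · exact (continuous_const.mul
        (intervalIntegral.continuous_parametric_intervalIntegral_of_continuous' cG
          _ _)).intervalIntegrable _ _
  rw [Q33_eq_Three3, norm_mul, norm_pow, Complex.norm_natCast, eT]
  rw [intervalIntegral.integral_const_mul] at hb
  calc _ ≤ (N : ℝ) ^ 3 * (C * ∫ v in (1 / 3 : ℝ)..3, ∫ w in (1 / 3 : ℝ)..3, G v w) := by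
        gcongr
    _ = _ := by ring

end Pool.Agent.MP_2a1f0e_nt.GM2

end

section

set_option autoImplicit false

open Finset

namespace Pool.Agent.MP_2a1f0e_nt.GM2

open GM

/-- truncation of a sequence to a finite set as an arithmetic function -/
def ts_Mom {R : Type*} [Zero R] (S : Finset ℕ) (b : ℕ → R) : ArithmeticFunction R :=
  ⟨fun n => if n ≠ 0 ∧ n ∈ S then b n else 0, by simp⟩

lemma ts_apply_Mom {R : Type*} [Zero R] (S : Finset ℕ) (b : ℕ → R) (n : ℕ) :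
    ts_Mom S b n = if n ≠ 0 ∧ n ∈ S then b n else 0 := rfl

/-- the support of the `k`-th power -/
def sp_Mom (Y k : ℕ) : Finset ℕ := (Icc 1 (Y ^ k)).filter fun m => Y ^ k ≤ 4 ^ k * m

lemma mem_sp_Mom {Y k m : ℕ} : m ∈ sp_Mom Y k ↔ 1 ≤ m ∧ m ≤ Y ^ k ∧ Y ^ k ≤ 4 ^ k * m := by
  simp [sp_Mom, and_assoc]

lemma mul_mem_sp_Mom {Y k x y : ℕ} (hx : x ∈ sp_Mom Y k) (hy : 1 ≤ y ∧ y ≤ Y ∧ Y ≤ 4 * y) :
    x * y ∈ sp_Mom Y (k + 1) := by
  rw [mem_sp_Mom] at hx ⊢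
  refine ⟨Nat.mul_pos hx.1 hy.1, ?_, ?_⟩
  · rw [pow_succ]
    exact Nat.mul_le_mul hx.2.1 hy.2.1
  · calc Y ^ (k + 1) = Y ^ k * Y := pow_succ _ _
      _ ≤ (4 ^ k * x) * (4 * y) := Nat.mul_le_mul hx.2.2 hy.2.2
      _ = 4 ^ (k + 1) * (x * y) := by ring

lemma pow_supp_Mom {R : Type*} [CommSemiring R] {Y : ℕ} {S : Finset ℕ}
    (hS : ∀ n ∈ S, 1 ≤ n ∧ n ≤ Y ∧ Y ≤ 4 * n) (b : ℕ → R) (k : ℕ) :
    ∀ n, n ∉ sp_Mom Y k → (ts_Mom S b ^ k) n = 0 := by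
  induction k with
  | zero =>
    intro n hn
    rw [pow_zero]
    apply ArithmeticFunction.one_apply_ne
    rintro rfl
    simp [mem_sp_Mom] at hn
  | succ k ih =>
    intro n hn
    rw [pow_succ, ArithmeticFunction.mul_apply]
    refine sum_eq_zero fun p hp => ?_
    have h3 := (Nat.mem_divisorsAntidiagonal.1 hp).1
    by_cases a : p.1 ∈ sp_Mom Y k
    · by_cases c : p.2 ∈ S
      · exfalso
        apply hn
        rw [← h3]
        exact mul_mem_sp_Mom a (hS _ c)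
      · rw [ts_apply_Mom, if_neg (fun h => c h.2), mul_zero]
    · rw [ih _ a, zero_mul]

lemma pow_sum_Mom {R : Type*} [CommSemiring R] {Y : ℕ} {S : Finset ℕ}
    (hS : ∀ n ∈ S, 1 ≤ n ∧ n ≤ Y ∧ Y ≤ 4 * n) (b : ℕ → R) (χ : ℕ → R)
    (hχ : ∀ x y, x ≠ 0 → y ≠ 0 → χ (x * y) = χ x * χ y) (h1 : χ 1 = 1) (k : ℕ) :
    ∑ n ∈ sp_Mom Y k, (ts_Mom S b ^ k) n * χ n = (∑ a ∈ S, b a * χ a) ^ k := by
  induction k with
  | zero =>
    have : sp_Mom Y 0 = {1} := by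
      ext m
      rw [mem_sp_Mom]
      simp only [pow_zero, one_mul, mem_singleton]
      omega
    simp [this, h1]
  | succ k ih =>
    rw [pow_succ (ts_Mom S b), conv_sum (ts_Mom S b ^ k) (ts_Mom S b) (sp_Mom Y k) S
      (sp_Mom Y (k + 1)) (pow_supp_Mom hS b k)
      (fun n hn => by rw [ts_apply_Mom, if_neg (fun h => hn h.2)])
      (fun x hx => by
        have := (mem_sp_Mom.1 hx).1
        omega)
      (fun x hx => by
        have := (hS x hx).1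
        omega)
      (fun x hx y hy => mul_mem_sp_Mom hx (hS y hy)) χ hχ, ih, pow_succ]
    congr 1
    refine sum_congr rfl fun a ha => ?_
    have := (hS a ha).1
    rw [ts_apply_Mom, if_pos ⟨by omega, ha⟩]

lemma pow_norm_Mom (S : Finset ℕ) (b : ℕ → ℂ) (k : ℕ) :
    ∀ n, ‖(ts_Mom S b ^ k) n‖ ≤ (ts_Mom S (fun n => ‖b n‖) ^ k) n := by
  induction k with
  | zero =>
    intro n
    simp only [pow_zero, ArithmeticFunction.one_apply]
    split_ifs <;> simp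
  | succ k ih =>
    intro n
    rw [pow_succ, pow_succ, ArithmeticFunction.mul_apply, ArithmeticFunction.mul_apply]
    refine (norm_sum_le _ _).trans (sum_le_sum fun p _ => ?_)
    rw [norm_mul]
    apply mul_le_mul (ih _) _ (norm_nonneg _) ((norm_nonneg _).trans (ih _))
    rw [ts_apply_Mom, ts_apply_Mom]
    split_ifs <;> simp

lemma pow_nonneg_Mom (S : Finset ℕ) (b : ℕ → ℂ) (k n : ℕ) :
    0 ≤ (ts_Mom S (fun n => ‖b n‖) ^ k) n :=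
  (norm_nonneg _).trans (pow_norm_Mom S b k n)

lemma pow_le_Mom (S : Finset ℕ) (b : ℕ → ℂ) (hb : ∀ n ∈ S, ‖b n‖ ≤ 1) {X : ℕ} {τ : ℝ}
    (hτ1 : 1 ≤ τ) (hτ : ∀ n ≤ X, (n.divisors.card : ℝ) ≤ τ) (k : ℕ) :
    ∀ n ≤ X, (ts_Mom S (fun n => ‖b n‖) ^ k) n ≤ τ ^ k := by
  induction k with
  | zero =>
    intro n _
    simp only [pow_zero, ArithmeticFunction.one_apply]
    split_ifs <;> simp
  | succ k ih =>
    intro n hn
    rw [pow_succ, ArithmeticFunction.mul_apply,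
      Nat.sum_divisorsAntidiagonal (fun x y => (ts_Mom S (fun n => ‖b n‖) ^ k) x *
        ts_Mom S (fun n => ‖b n‖) y)]
    refine (sum_le_card_nsmul _ _ (τ ^ k) fun x hx => ?_).trans ?_
    · have h1 := ih x ((Nat.divisor_le hx).trans hn)
      have h2 : ts_Mom S (fun n => ‖b n‖) (n / x) ≤ 1 := by
        rw [ts_apply_Mom]
        split_ifs with h
        · exact hb _ h.2
        · norm_num
      have h3 := pow_nonneg_Mom S b k x
      nlinarith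
    · rw [nsmul_eq_mul, pow_succ, mul_comm]
      exact mul_le_mul_of_nonneg_left (hτ n hn) (by positivity)

lemma nit_eq_Mom (t m : ℕ) : nit t m = pw (m : ℝ) (t : ℝ) := by
  simp [nit, pw]

lemma sum_shift_Mom (P : ℕ) (f : ℝ → ℝ) :
    ∑ ρ ∈ Icc (-(P : ℤ)) P, f (ρ : ℝ) =
      ∑ t ∈ Icc 1 (2 * P + 1), f (-((P : ℝ) + 1) + (t : ℝ)) := by
  symm
  refine sum_bij' (fun t _ => (t : ℤ) - (P + 1)) (fun ρ _ => (ρ + (P + 1)).toNat) ?_ ?_ ?_ ?_ ?_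
  · intro t ht
    rw [mem_Icc] at ht ⊢
    omega
  · intro ρ hρ
    rw [mem_Icc] at hρ ⊢
    omega
  · intro t ht
    rw [mem_Icc] at ht
    omega
  · intro ρ hρ
    rw [mem_Icc] at hρ
    omega
  · intro t _
    congr 1
    push_cast
    ring

theorem mom_stmt : MomStmt := by
  refine ⟨960, by norm_num, ?_⟩
  intro k Y P X Δ S c hk1 hk6 hc hS hYX hD
  obtain ⟨hΔ1, hΔ⟩ := hD
  have hΔ6 : 0 ≤ Δ ^ 6 := by positivity
  rcases S.eq_empty_or_nonempty with rfl | ⟨n₀, hn₀⟩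
  · have h2k : 2 * k ≠ 0 := by omega
    simp only [sum_empty, norm_zero, zero_pow h2k, sum_const_zero]
    positivity
  have hY1 : 1 ≤ Y := (hS n₀ hn₀).1.trans (hS n₀ hn₀).2.1
  have hYk : 1 ≤ Y ^ k := Nat.one_le_pow _ _ hY1
  have hYk' : (1 : ℝ) ≤ (Y : ℝ) ^ k := by exact_mod_cast hYk
  set u : ℕ → ℝ := fun n => (ts_Mom S (fun n => ‖c n‖) ^ k) n with hu
  set d : ℕ → ℂ := fun n => (ts_Mom S c ^ k) n * pw (n : ℝ) (-((P : ℝ) + 1)) with hd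
  set T : ℕ := 2 * P + 1 with hT
  have hT' : (T : ℝ) = 2 * P + 1 := by rw [hT]; push_cast; ring
  have hT0 : (0 : ℝ) < T := by rw [hT']; positivity
  have e1 : ∑ ρ ∈ Icc (-(P : ℤ)) P, ‖∑ n ∈ S, c n * pw (n : ℝ) ρ‖ ^ (2 * k) =
      ∑ t ∈ Icc 1 T, ‖∑ n ∈ sp_Mom Y k, d n * nit t n‖ ^ 2 := by
    rw [sum_shift_Mom P (fun ρ => ‖∑ n ∈ S, c n * pw (n : ℝ) ρ‖ ^ (2 * k))]
    refine sum_congr rfl fun t _ => ?_
    have h := pow_sum_Mom hS c (fun n => pw (n : ℝ) (-((P : ℝ) + 1) + (t : ℝ)))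
      (fun x y hx hy => by
        rw [Nat.cast_mul, pw_mul (by exact_mod_cast hx) (by exact_mod_cast hy)])
      (by simp [pw_one]) k
    rw [mul_comm 2 k, pow_mul, ← norm_pow, ← h]
    congr 2
    refine sum_congr rfl fun n _ => ?_
    rw [hd, nit_eq_Mom, pw_add]
    ring
  have h1 := mv_kernel (sp_Mom Y k) d u
    (fun n _ => by
      rw [hd, norm_mul, norm_pw, mul_one]
      exact pow_norm_Mom S c k n) 12 T (by norm_num) (by omega) ((Y : ℝ) ^ k)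
    (2 * (Y : ℝ) ^ k / T) (by positivity) (by rw [mul_div_cancel₀ _ hT0.ne'])
    (fun n hn => (mem_sp_Mom.1 hn).1)
    (fun n hn => by exact_mod_cast (mem_sp_Mom.1 hn).2.1)
    (fun n hn m hm => by
      have a1 := (mem_sp_Mom.1 hn).2.1
      have a2 := (mem_sp_Mom.1 hm).2.2
      have a3 : 4 ^ k ≤ 2 ^ 12 := by
        calc 4 ^ k ≤ 4 ^ 6 := Nat.pow_le_pow_right (by norm_num) hk6
          _ = 2 ^ 12 := by norm_num
      exact a1.trans (a2.trans (Nat.mul_le_mul_right _ a3)))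
  have h2 := kernel_schur (sp_Mom Y k) u (H := 2 * (Y : ℝ) ^ k / T) (by positivity)
  have h4 : ∑ n ∈ sp_Mom Y k, u n ≤ (Y : ℝ) ^ k := by
    have h := pow_sum_Mom hS (fun n => ‖c n‖) (fun _ => (1 : ℝ)) (fun _ _ _ _ => by norm_num)
      rfl k
    simp only [mul_one] at h
    rw [hu, h]
    apply pow_le_pow_left₀ (sum_nonneg fun _ _ => norm_nonneg _)
    calc ∑ a ∈ S, ‖c a‖ ≤ S.card • (1 : ℝ) := sum_le_card_nsmul _ _ _ hc
      _ = S.card := by simp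
      _ ≤ Y := by
        have : S ⊆ Icc 1 Y := fun n hn => mem_Icc.2 ⟨(hS n hn).1, (hS n hn).2.1⟩
        have := card_le_card this
        rw [Nat.card_Icc] at this
        exact_mod_cast (by omega : S.card ≤ Y)
  have h3 : ∑ n ∈ sp_Mom Y k, u n ^ 2 ≤ Δ ^ 6 * (Y : ℝ) ^ k := by
    calc ∑ n ∈ sp_Mom Y k, u n ^ 2 ≤ ∑ n ∈ sp_Mom Y k, Δ ^ 6 * u n := by
          refine sum_le_sum fun n hn => ?_
          have a1 := pow_le_Mom S c hc hΔ1 hΔ k n ((mem_sp_Mom.1 hn).2.1.trans hYX)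
          have a2 := pow_nonneg_Mom S c k n
          have a3 : Δ ^ k ≤ Δ ^ 6 := pow_le_pow_right₀ hΔ1 hk6
          simp only [hu]
          nlinarith
      _ = Δ ^ 6 * ∑ n ∈ sp_Mom Y k, u n := by rw [mul_sum]
      _ ≤ _ := mul_le_mul_of_nonneg_left h4 hΔ6
  rw [e1]
  refine h1.trans ?_
  have hP : (0 : ℝ) ≤ P := by positivity
  calc 8 * ((12 : ℕ) : ℝ) * T * ∑ n ∈ sp_Mom Y k, ∑ m ∈ sp_Mom Y k,
        u n * u m * kp (((n : ℝ) - m) / (2 * (Y : ℝ) ^ k / T))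
      ≤ 8 * ((12 : ℕ) : ℝ) * T * ((2 + 4 * (2 * (Y : ℝ) ^ k / T)) * (Δ ^ 6 * (Y : ℝ) ^ k)) := by
        apply mul_le_mul_of_nonneg_left _ (by positivity)
        exact h2.trans (mul_le_mul_of_nonneg_left h3 (by positivity))
    _ = 96 * (2 * T + 8 * (Y : ℝ) ^ k) * (Δ ^ 6 * (Y : ℝ) ^ k) := by
        push_cast
        field_simp
        ring
    _ ≤ 96 * (10 * (P + (Y : ℝ) ^ k)) * (Δ ^ 6 * (Y : ℝ) ^ k) := by
        apply mul_le_mul_of_nonneg_right _ (by positivity)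
        rw [hT']
        linarith
    _ = _ := by ring

end Pool.Agent.MP_2a1f0e_nt.GM2

end
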