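import Pool.Agent.Mg.C853.G764d0f
import Pool.Agent.Mg.C853.G00b911
import Pool.Agent.Mg.C853.G3e49c7
import Pool.Agent.Mg.C853.G9b677c
import Pool.Agent.MP_2a1f0e_nt.GM2.BThree
import Pool.Agent.Mg.C853.G9ab33a
import Pool.Agent.Mg.C853.G50a3e6
import Pool.Agent.MP_c853c5_nt.Z.YDefs

section

set_option autoImplicit false

open Finset

namespace Pool.Agent.MP_2a1f0e_nt.SQ

open GM GM2

open MeasureTheory in
lemma four_Qs (N M : ℕ) {f p lo hi : ℝ → ℝ} (nf : Nice f) (np : Nice p) (nl : Nice lo)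
    (nh : Nice hi) (h : ∀ v, f v = lo v + hi v) :
    2 * Tr3 N M f p p ≤ Tr3 N M (fun v => lo v ^ 2) p (fun _ => 1) +
      Tr3 N M (fun _ => 1) p (fun v => p v ^ 2) + Tr3 N M hi (fun v => p v ^ 2) (fun _ => 1) +
      Tr3 N M hi (fun _ => 1) (fun v => p v ^ 2) := by
  have i1 := int_Err N M (sq_Err nl) np one_Err
  have i2 := int_Err N M one_Err np (sq_Err np)
  have i3 := int_Err N M nh (sq_Err np) one_Err
  have i4 := int_Err N M nh one_Err (sq_Err np)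
  rw [tr_eq_Err N M nf np np, tr_eq_Err N M (sq_Err nl) np one_Err,
    tr_eq_Err N M one_Err np (sq_Err np), tr_eq_Err N M nh (sq_Err np) one_Err,
    tr_eq_Err N M nh one_Err (sq_Err np)]
  have := sum6_Err (int_Err N M nf np np) i1 i2 i3 i4 (integrable_zero _ _ _)
    (integrable_zero _ _ _) fun x => by
      have k := kp3_nonneg N M x.1 x.2
      have e1 := mul_nonneg (mul_nonneg (np.2.1 (x.2 / x.1)) (sq_nonneg (lo x.1 - p x.2))) k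
      have e2 := mul_nonneg (mul_nonneg (nh.2.1 x.1) (sq_nonneg (p (x.2 / x.1) - p x.2))) k
      simp only [h, Pi.zero_apply]
      linarith
  simpa only [Pi.zero_apply, integral_zero, add_zero] using this

theorem qs_stmt (h3 : Three3Stmt) (hT : Tri2Stmt) (hPar : ParStmt) : QsStmt := by
  obtain ⟨C₃, c₃, h3⟩ := h3
  obtain ⟨C₄, c₄, hT⟩ := hT
  refine ⟨3600 * C₃ * C₄, by positivity, fun N M Δ Y A B L s w m hN hD hL hw hm hA hB => ?_⟩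
  have hY : 0 ≤ Y := (sum_nonneg fun _ _ => sq_nonneg _).trans hw
  have hΔ : 0 ≤ Δ := zero_le_one.trans hD.1
  have hN0 : (0 : ℝ) < N := by exact_mod_cast hN
  have hA0 : 0 ≤ A := (norm_nonneg _).trans (hA 1 (by norm_num))
  have nf := FT_Err s w
  have np := FT_Err s m
  have f2 := (hPar s w).trans (mul_le_mul_of_nonneg_left hw (by norm_num))
  have p2 := (hPar s m).trans (mul_le_mul_of_nonneg_left hm (by norm_num))
  refine (h3 N M hN s w m m).trans ?_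
  obtain ⟨f, hf⟩ : ∃ f : ℝ → ℝ, ∀ v, ‖FT s w v‖ = f v := ⟨_, fun _ => rfl⟩
  obtain ⟨p, hp⟩ : ∃ p : ℝ → ℝ, ∀ v, ‖FT s m v‖ = p v := ⟨_, fun _ => rfl⟩
  simp only [hf, hp] at nf np f2 p2 hA hB ⊢
  change Nice f at nf
  change Nice p at np
  change II p ≤ B at hB
  change _ * Tr3 N M f p p ≤ _
  obtain ⟨lo, hlo⟩ : ∃ lo : ℝ → ℝ, ∀ v, lo v = min (f v) L := ⟨_, fun _ => rfl⟩
  obtain ⟨hi, hhi⟩ : ∃ hi : ℝ → ℝ, ∀ v, hi v = f v - lo v := ⟨_, fun _ => rfl⟩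
  have nl : Nice lo := by
    refine ⟨?_, fun v => hlo v ▸ le_min (nf.2.1 v) hL.le, fun v => by rw [hlo, hlo, nf.2.2 v]⟩
    rw [show lo = _ from funext hlo]
    exact nf.1.inf continuousOn_const
  have l1 : ∀ v, lo v ≤ f v := fun v => hlo v ▸ min_le_left _ _
  have nh : Nice hi := by
    refine ⟨?_, fun v => hhi v ▸ sub_nonneg.2 (l1 v), fun v => by
      rw [hhi, hhi, nf.2.2 v, nl.2.2 v]⟩
    rw [show hi = _ from funext hhi]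
    exact nf.1.sub nl.1
  have u := four_Qs N M nf np nl nh fun v => by rw [hhi, add_sub_cancel]
  have t1 := (hT N M Δ hN hD _ _ (sq_Err nl) np).1
  have t2 := (hT N M Δ hN hD _ _ np (sq_Err np)).2.2
  obtain ⟨t3, t4, -⟩ := hT N M Δ hN hD _ _ nh (sq_Err np)
  have c2 : ∀ {a}, Nice a → ContinuousOn (fun v => a v ^ 2) (Set.Icc (1 / 9 : ℝ) (82 / 9)) :=
    fun h => (h.1.pow 2).mono Icc_sub_Ioi
  have b1 : II (fun v => lo v ^ 2) ≤ 60 * Y :=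
    (II_mono (c2 nl) (c2 nf) fun v _ => pow_le_pow_left₀ (nl.2.1 v) (l1 v) 2).trans f2
  have b2 : II (fun v => hi v ^ 2) ≤ 60 * Y :=
    (II_mono (c2 nh) (c2 nf) fun v _ => pow_le_pow_left₀ (nh.2.1 v)
      (hhi v ▸ sub_le_self _ (nl.2.1 v)) 2).trans f2
  have b3 : ∀ {a : ℝ → ℝ} {K : ℝ}, Nice a → 0 ≤ K → (∀ v ∈ Set.Icc (1 / 9 : ℝ) (82 / 9), a v ≤ K) →
      II (fun v => a v ^ 2) ≤ 60 * Y → √(II fun v => (a v ^ 2) ^ 2) ≤ K * √(60 * Y) := by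
    intro a K na k0 hK h
    have := II_mono (g := fun v => K ^ 2 * a v ^ 2) (c2 (sq_Err na))
      (continuousOn_const.mul (c2 na)) fun v hv => by
        rw [sq (a v ^ 2)]
        exact mul_le_mul_of_nonneg_right (pow_le_pow_left₀ (na.2.1 v) (hK v hv) 2) (sq_nonneg _)
    rw [II_mul_Err] at this
    refine Real.sqrt_le_iff.2 ⟨by positivity, this.trans ?_⟩
    rw [mul_pow, Real.sq_sqrt (by positivity)]
    gcongr
  have b4 : II hi ≤ L⁻¹ * (60 * Y) := by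
    have := II_mono (g := fun v => L⁻¹ * f v ^ 2) (nh.1.mono Icc_sub_Ioi)
      (continuousOn_const.mul (c2 nf)) fun v _ => by
        rw [le_inv_mul_iff₀ hL, hhi, hlo]
        have := nf.2.1 v
        rcases le_total (f v) L with h | h
        · rw [min_eq_left h, sub_self, mul_zero]
          positivity
        · rw [min_eq_right h]
          nlinarith
    rw [II_mul_Err] at this
    exact this.trans (by gcongr)
  have d1 := b3 nl hL.le (fun v _ => hlo v ▸ min_le_right _ _) b1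
  have d2 := b3 np hA0 hA p2
  have d3 := Real.sqrt_le_sqrt p2
  have d4 := Real.sqrt_le_sqrt b2
  have e0 : 0 ≤ II p := II_nonneg np.2.1
  have hB0 : 0 ≤ B := e0.trans hB
  have e1 : 0 ≤ II fun v => p v ^ 2 := II_nonneg fun _ => sq_nonneg _
  have sZ : √(60 * Y) * √(60 * Y) = 60 * Y := Real.mul_self_sqrt (by positivity)
  have s0 := Real.sqrt_nonneg (60 * Y)
  have w1 : PB N M Δ (fun v => lo v ^ 2) p ≤ (M : ℝ) ^ 2 / N * (60 * Y) * B +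
      M * Δ / N * (L * √(60 * Y)) * √(60 * Y) := by
    unfold PB
    gcongr
  have w2 : PB N M Δ p (fun v => p v ^ 2) ≤ (M : ℝ) ^ 2 / N * B * (60 * Y) +
      M * Δ / N * √(60 * Y) * (A * √(60 * Y)) := by
    unfold PB
    gcongr
  have w3 : PB N M Δ hi (fun v => p v ^ 2) ≤ (M : ℝ) ^ 2 / N * (L⁻¹ * (60 * Y)) * (60 * Y) +
      M * Δ / N * √(60 * Y) * (A * √(60 * Y)) := by
    unfold PB
    gcongr
  rw [mul_assoc _ (L * _), mul_assoc L, sZ] at w1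
  rw [mul_assoc _ √_, mul_left_comm √_, sZ] at w2 w3
  have w4 : N * Tr3 N M f p p ≤
      3600 * C₄ * ((M : ℝ) ^ 2 * Y * (B + Y / L) + M * Δ * Y * (A + L)) := by
    have k1 := mul_le_mul_of_nonneg_left (add_le_add (add_le_add w1 w2) (add_le_add w3 w3)) c₄.le
    have k2 : 2 * Tr3 N M f p p ≤ _ := le_trans (by linarith) k1
    have k3 := mul_le_mul_of_nonneg_left k2 hN0.le
    have z1 : 0 ≤ C₄ * ((M : ℝ) ^ 2 * Y * B) := by positivity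
    have z2 : 0 ≤ C₄ * (M * Δ * Y * A) := by positivity
    have z3 : 0 ≤ C₄ * (M * Δ * Y * L) := by positivity
    have k4 : (N : ℝ) * (C₄ * ((M : ℝ) ^ 2 / N * (60 * Y) * B + M * Δ / N * (L * (60 * Y)) +
        ((M : ℝ) ^ 2 / N * B * (60 * Y) + M * Δ / N * (A * (60 * Y))) +
        ((M : ℝ) ^ 2 / N * (L⁻¹ * (60 * Y)) * (60 * Y) + M * Δ / N * (A * (60 * Y)) +
        ((M : ℝ) ^ 2 / N * (L⁻¹ * (60 * Y)) * (60 * Y) + M * Δ / N * (A * (60 * Y)))))) =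
        120 * (C₄ * ((M : ℝ) ^ 2 * Y * B)) + 7200 * (C₄ * ((M : ℝ) ^ 2 * Y * (Y / L))) +
          180 * (C₄ * (M * Δ * Y * A)) + 60 * (C₄ * (M * Δ * Y * L)) := by
      field_simp
      ring
    rw [k4] at k3
    linarith
  have := mul_le_mul_of_nonneg_left w4 (show 0 ≤ C₃ * (N : ℝ) ^ 2 by positivity)
  linarith

end Pool.Agent.MP_2a1f0e_nt.SQ

end

section

set_option autoImplicit false

open Finset

namespace Pool.Agent.MP_2a1f0e_nt.SQ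

open GM GM2

lemma le_Sqc {n : ℕ} {b : ℕ → ℂ} (hb : Adm n b) {p : ℕ × ℕ} (h : b p.1 * b p.2 ≠ 0) :
    p.1 * p.2 ≤ 2 * n ^ 2 := by
  have h1 : 5 * p.1 ≤ 7 * n := not_lt.1 fun e => left_ne_zero_of_mul h (hb.2 _ e)
  have h2 : 5 * p.2 ≤ 7 * n := not_lt.1 fun e => right_ne_zero_of_mul h (hb.2 _ e)
  nlinarith [Nat.mul_le_mul h1 h2]

theorem sqc_stmt : SqcStmt := by
  intro n b Δ hn hb hD
  have h2 : ∀ k, ‖sqc n b k‖ ≤ Δ := fun k => by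
    by_cases hk : k ≤ 2 * n ^ 2
    · refine (norm_sum_le _ _).trans ((sum_le_card_nsmul _ _ 1 fun p _ => ?_).trans ?_)
      · rw [norm_mul]
        exact mul_le_one₀ (hb.1 _) (norm_nonneg _) (hb.1 _)
      · rw [nsmul_one]
        refine le_trans (Nat.cast_le.2 (card_le_card_of_injOn Prod.fst (fun p hp => ?_)
          fun p hp q hq e => ?_)) (hD.2 k hk)
        · obtain ⟨h1, rfl⟩ := mem_filter.1 hp
          have := pos_Pr hn Subset.rfl p h1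
          exact Nat.mem_divisors.2 ⟨dvd_mul_right _ _, mul_ne_zero (by omega) (by omega)⟩
        · obtain ⟨h1, h3⟩ := mem_filter.1 hp
          exact Prod.ext e (Nat.eq_of_mul_eq_mul_left (pos_Pr hn Subset.rfl p h1).1
            (h3.trans (e ▸ (mem_filter.1 hq).2.symm)))
    · rw [sqc, sum_eq_zero, norm_zero]
      · linarith [hD.1]
      · exact fun p hp => by_contra fun h => hk ((mem_filter.1 hp).2.ge.trans (le_Sqc hb h))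
  refine ⟨fun t => ?_, h2, ?_⟩
  · have e : ∀ k, sqc n b k * pw (k : ℝ) t = ∑ p ∈ (Pr n).filter (fun p => p.1 * p.2 = k),
        b p.1 * b p.2 * pw ((p.1 * p.2 : ℕ) : ℝ) t := fun k => by
      rw [sqc, sum_mul]
      exact sum_congr rfl fun p hp => by rw [(mem_filter.1 hp).2]
    rw [DP]
    simp only [e]
    rw [sum_fiberwise_eq_sum_filter, sum_filter_of_ne fun p hp h => mem_Icc.2
      ⟨(sq n).trans_le (Nat.mul_le_mul (mem_Pr.1 hp).1.1 (mem_Pr.1 hp).2.1),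
        le_Sqc hb (left_ne_zero_of_mul h)⟩, sq, DP, sum_mul_sum, Pr, sum_product]
    refine sum_congr rfl fun a ha => sum_congr rfl fun c hc => ?_
    have h1 : (a : ℝ) ≠ 0 := Nat.cast_ne_zero.2 (by have := (mem_Icc.1 ha).1; omega)
    have h2 : (c : ℝ) ≠ 0 := Nat.cast_ne_zero.2 (by have := (mem_Icc.1 hc).1; omega)
    rw [Nat.cast_mul, pw_mul h1 h2]
    ring
  · refine (sum_le_card_nsmul _ _ (Δ ^ 2) fun k _ =>
      pow_le_pow_left₀ (norm_nonneg _) (h2 k) 2).trans ?_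
    have : (1 : ℝ) ≤ (n : ℝ) ^ 2 := one_le_pow₀ (by exact_mod_cast hn)
    rw [Nat.card_Icc, show 2 * n ^ 2 + 1 - n ^ 2 = n ^ 2 + 1 by omega, nsmul_eq_mul]
    push_cast
    nlinarith [sq_nonneg Δ]

theorem big_stmt (hS : SqcStmt) (h2 : B2Stmt) (hB : BlkStmt) : BigStmt := by
  intro ε hε
  obtain ⟨K, hK, h⟩ := h2 (ε / 2) (by positivity)
  refine ⟨5 * K, by positivity, fun n T Δ U b hn hT hT' hD hU hb => ?_⟩
  obtain ⟨s1, s2, -⟩ := hS n b Δ hn hb hD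
  have hΔ := hD.1
  have hΔ0 : 0 < Δ := by linarith
  have hN : 1 ≤ n ^ 2 := Nat.one_le_pow _ _ hn
  have hT0 : (0 : ℝ) < T := by exact_mod_cast hN.trans hT
  have hn0 : (0 : ℝ) < n := by exact_mod_cast hn
  have e : ∀ t : ℝ, ‖DP (n ^ 2) (fun k => sqc n b k / Δ) t‖ = ‖DP n b t‖ ^ 2 / Δ := fun t => by
    rw [← norm_pow, ← s1, DP, DP]
    simp only [div_mul_eq_mul_div]
    rw [← sum_div, norm_div, Complex.norm_real, Real.norm_of_nonneg hΔ0.le]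
  have a1 := hB (n ^ 2) (4 * T) T _ _ hN (hN.trans hT)
    (fun c hc => h (n ^ 2) T hN hT (by rwa [← pow_mul]) c hc (U / Δ) (by positivity))
    (fun k => sqc n b k / Δ * pw (k : ℝ) ((-(2 * T : ℤ) : ℤ) : ℝ)) fun k => by
      rw [norm_mul, norm_pw, mul_one, norm_div, Complex.norm_real, Real.norm_of_nonneg hΔ0.le]
      exact div_le_one_of_le₀ (s2 k) hΔ0.le
  rw [← mass_shift_BTwo] at a1
  have a2 := (Mass_mono _ _ (I := Io (2 * T)) (fun t ht => by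
    rw [mem_Io] at ht
    rw [mem_Icc]
    omega) _).trans a1
  have a3 : ∑ t ∈ (Io (2 * T)).filter (fun t : ℤ => U < ‖DP n b t‖ ^ 2), ‖DP n b t‖ ^ 4 ≤
      Δ ^ 2 * Mass (n ^ 2) (fun k => sqc n b k / Δ) (Io (2 * T)) (U / Δ) := by
    rw [Mass, mul_sum]
    simp only [e]
    refine le_trans (sum_le_sum_of_subset_of_nonneg (monotone_filter_right _ fun t _ ht => ?_)
      fun _ _ _ => by positivity) (le_of_eq (sum_congr rfl fun t _ => by field_simp))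
    exact div_le_div_of_nonneg_right ht.le hΔ0.le
  refine a3.trans ((mul_le_mul_of_nonneg_left a2 (sq_nonneg Δ)).trans ?_)
  have e2 : ((n ^ 2 : ℕ) : ℝ) ^ (ε / 2) = (n : ℝ) ^ ε := by
    rw [Nat.cast_pow, ← Real.rpow_natCast, ← Real.rpow_mul hn0.le]
    congr 1
    push_cast
    ring
  have h6 : Δ ^ 2 ≤ Δ ^ 6 := pow_le_pow_right₀ hΔ (by norm_num)
  rw [e2]
  calc _ = 5 * K * (n : ℝ) ^ ε * (Δ ^ 2 * (n : ℝ) ^ 4 + Δ ^ 6 * (T * (n : ℝ) ^ 8 / U ^ 4)) := by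
        push_cast
        field_simp
        ring
    _ ≤ 5 * K * (n : ℝ) ^ ε * (Δ ^ 6 * (n : ℝ) ^ 4 + Δ ^ 6 * (T * (n : ℝ) ^ 8 / U ^ 4)) := by
        gcongr
    _ = _ := by ring

lemma DP_Sqc {r m : ℕ} (h : 2 * r < m) (c : ℕ → ℂ) (t : ℝ) :
    DP r c t = ∑ a ∈ range m, if r ≤ a ∧ a ≤ 2 * r then c a * pw (a : ℝ) t else 0 := by
  rw [DP, ← sum_filter]
  congr 1
  ext a
  rw [mem_filter, mem_range, mem_Icc]
  omega

theorem cut_stmt : CutStmt := by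
  intro n b hn hb
  obtain ⟨r, hr⟩ : ∃ r, r = 7 * n / 5 + 1 := ⟨_, rfl⟩
  obtain ⟨s, hs⟩ : ∃ s, s = 7 * r / 5 + 1 := ⟨_, rfl⟩
  refine ⟨fun j => if j = 0 then n else if j = 1 then r else s, fun j a =>
    if a ≤ 2 * n ∧ (j = 0 → a < r) ∧ (j = 1 → a < s) then b a else 0, fun j => ⟨?_, ?_,
      fun a => ?_, fun a ha => if_neg ?_⟩, fun T V => ?_⟩
  · dsimp only
    split_ifs <;> omega
  · dsimp only
    split_ifs <;> omega
  · dsimp only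
    split_ifs
    · exact hb a
    · simp
  · dsimp only at ha
    split_ifs at ha <;> omega
  refine le_trans (card_le_card fun t ht => ?_) card_biUnion_le
  obtain ⟨ht, hV⟩ := mem_filter.1 ht
  have e : DP n b t = ∑ j ∈ range 3, DP (if j = 0 then n else if j = 1 then r else s) (fun a =>
      if a ≤ 2 * n ∧ (j = 0 → a < r) ∧ (j = 1 → a < s) then b a else 0) t := by
    rw [sum_congr rfl fun j _ => DP_Sqc (m := 10 * n + 1) (by split_ifs <;> omega) _ _, sum_comm,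
      DP_Sqc (m := 10 * n + 1) (by omega)]
    refine sum_congr rfl fun a _ => ?_
    simp only [sum_range_succ, sum_range_zero, ite_mul, zero_mul, ← ite_and]
    norm_num
    split_ifs <;> first | omega | simp
  obtain ⟨j, hj, h⟩ := exists_le_of_sum_le (s := range 3) (f := fun _ => V / 3) ⟨0, by simp⟩
    (le_trans (le_of_eq (by simp; ring)) (hV.trans ((congrArg norm e).trans_le (norm_sum_le _ _))))
  exact mem_biUnion.2 ⟨j, hj, mem_filter.2 ⟨ht, h⟩⟩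

end Pool.Agent.MP_2a1f0e_nt.SQ

end

section

set_option autoImplicit false
open Finset
namespace Pool.Agent.MP_2a1f0e_nt.SQ
open GM GM2

lemma la_abs_DTwo {n T : ℕ} {b : ℕ → ℂ} {U Z : ℝ} (hU : 0 < U) (hB : Big n T b U Z) :
    ∑ t ∈ Io (2 * T), |la n T b U t| ≤ Z / U := by
  rw [le_div_iff₀ hU, sum_mul]
  refine le_trans ?_ hB
  rw [sum_filter]
  refine sum_le_sum fun t ht => ?_
  unfold la
  split_ifs with h
  · have h1 := nu_nonneg (n := n) b ht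
    have h2 := nu_le n T b t
    rw [abs_of_nonneg h1, show ‖DP n b t‖ ^ 4 = ‖DP n b t‖ ^ 2 * ‖DP n b t‖ ^ 2 by ring]
    exact mul_le_mul h2 h.le hU.le (sq_nonneg _)
  · simp

lemma la_sq_DTwo {n T : ℕ} {b : ℕ → ℂ} {U Z : ℝ} (hB : Big n T b U Z) :
    ∑ t ∈ Io (2 * T), la n T b U t ^ 2 ≤ Z := by
  refine le_trans ?_ hB
  rw [sum_filter]
  refine sum_le_sum fun t ht => ?_
  unfold la
  split_ifs with h
  · have h1 := nu_nonneg (n := n) b ht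
    have h2 := nu_le n T b t
    rw [show ‖DP n b t‖ ^ 4 = (‖DP n b t‖ ^ 2) ^ 2 by ring]
    exact pow_le_pow_left₀ h1 h2 2
  · simp

lemma ratio_DTwo {n : ℕ} (hn : 1 ≤ n) {p : ℕ × ℕ} (hp : p ∈ Pr n) :
    1 / 2 ≤ (p.1 : ℝ) / p.2 ∧ (p.1 : ℝ) / p.2 ≤ 2 := by
  obtain ⟨⟨h1, h2⟩, h3, h4⟩ := mem_Pr.1 hp
  have a0 : (0 : ℝ) < p.2 := by exact_mod_cast (by omega : 0 < p.2)
  have a1 : (p.2 : ℝ) ≤ 2 * p.1 := by exact_mod_cast (by omega : p.2 ≤ 2 * p.1)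
  have a2 : (p.1 : ℝ) ≤ 2 * p.2 := by exact_mod_cast (by omega : p.1 ≤ 2 * p.2)
  rw [le_div_iff₀ a0, div_le_iff₀ a0]
  constructor <;> linarith

lemma contFe_DTwo (L : ℕ) {r : ℝ} (hr : 0 < r) :
    ContinuousOn (fun v => Fe L (v * r)) (Set.Icc (1 / 9 : ℝ) (82 / 9)) :=
  (continuousOn_Fe L).comp (continuousOn_id.mul continuousOn_const)
    fun _ hv => mul_pos (Icc_sub_Ioi hv) hr

theorem d2_stmt (hF : FtStmt) (hS : SupStmt) (hL : LoneStmt) (hPar : ParStmt) : D2Stmt := by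
  obtain ⟨CS, hCS, hS⟩ := hS
  obtain ⟨CL, hCL, hL⟩ := hL
  refine ⟨2 * CS + 4 * CL + 24, by positivity, fun n T g b U Z hn hT hb hU hB => ?_⟩
  have hT1 : 1 ≤ 2 * T := by
    have := Nat.one_le_pow 2 n hn
    omega
  have hZ : 0 ≤ Z := le_trans (sum_nonneg fun _ _ => by positivity) hB
  have key : ∀ v ∈ Set.Icc (1 / 9 : ℝ) (82 / 9), ‖FT (Io (2 * T)) (mm n T g b U) v‖ ≤
      1 * (∑ p ∈ Plo n g, Fe (2 * T) (v * ((p.1 : ℝ) / p.2))) +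
        1 * ‖FT (Io (2 * T)) (la n T b U) v‖ := by
    intro v hv
    have h1 : FT (Io (2 * T)) (mm n T g b U) v =
        FT (Io (2 * T)) (wP (2 * T) (Plo n g) b) v - FT (Io (2 * T)) (la n T b U) v :=
      FT_sub_Err _ _ _ v
    have h2 := hF (2 * T) (Plo n g) b v hT1 swap_Plo (pos_Pr hn (Plo_sub n g)) hb (Icc_sub_Ioi hv)
    rw [h1]
    linarith [norm_sub_le (FT (Io (2 * T)) (wP (2 * T) (Plo n g) b) v)
      (FT (Io (2 * T)) (la n T b U) v)]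
  constructor
  · intro v hv
    have h1 := key v hv
    have h2 := hS n g (2 * T) hn (by omega) v hv
    have h3 := (norm_FT_le (Io (2 * T)) (la n T b U) v).trans (la_abs_DTwo hU hB)
    have h4 : 0 ≤ Z / U := by positivity
    have h5 : 0 ≤ (T : ℝ) * g := by positivity
    push_cast at h2
    have h6 : 0 ≤ (4 * CL + 24) * ((T : ℝ) * g) := by positivity
    have h7 : 0 ≤ (2 * CS + 4 * CL + 23) * (Z / U) := by positivity
    nlinarith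
  · have c1 : ∀ p ∈ Plo n g, ContinuousOn (fun v => Fe (2 * T) (v * ((p.1 : ℝ) / p.2)))
        (Set.Icc (1 / 9 : ℝ) (82 / 9)) := fun p hp =>
      contFe_DTwo _ (lt_of_lt_of_le (by norm_num) (ratio_DTwo hn (Plo_sub n g hp)).1)
    have c2 : ContinuousOn (fun v => ∑ p ∈ Plo n g, Fe (2 * T) (v * ((p.1 : ℝ) / p.2)))
        (Set.Icc (1 / 9 : ℝ) (82 / 9)) := continuousOn_finsetSum _ c1
    have c3 := ((continuousOn_FT (Io (2 * T)) (la n T b U)).mono Icc_sub_Ioi).norm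
    have c4 := ((continuousOn_FT (Io (2 * T)) (mm n T g b U)).mono Icc_sub_Ioi).norm
    have h1 := (II_mono c4 ((continuousOn_const.mul c2).add (continuousOn_const.mul c3))
      key).trans (II_lin_QSt c2 c3 1 1).le
    have h2 : II (fun v => ∑ p ∈ Plo n g, Fe (2 * T) (v * ((p.1 : ℝ) / p.2))) =
        ∑ p ∈ Plo n g, II (fun v => Fe (2 * T) (v * ((p.1 : ℝ) / p.2))) :=
      intervalIntegral.integral_finsetSum fun p hp =>
        (c1 p hp).intervalIntegrable_of_Icc (by norm_num)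
    have h3 : ∑ p ∈ Plo n g, II (fun v => Fe (2 * T) (v * ((p.1 : ℝ) / p.2))) ≤
        ((Plo n g).card : ℝ) * CL := by
      rw [← nsmul_eq_mul]
      exact sum_le_card_nsmul _ _ _ fun p hp =>
        hL _ _ hT1 (ratio_DTwo hn (Plo_sub n g hp)).1 (ratio_DTwo hn (Plo_sub n g hp)).2
    have h4 : ((Plo n g).card : ℝ) ≤ 4 * (n : ℝ) ^ 2 :=
      le_trans (by exact_mod_cast card_le_card (Plo_sub n g)) (card_Pr hn)
    have h5 := mul_le_mul_of_nonneg_right h4 hCL.le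
    have h6 := II_cs_QSt c3
    have h7 := hPar (Io (2 * T)) (la n T b U)
    have h8 := la_sq_DTwo hB
    have h9 : II (fun v => ‖FT (Io (2 * T)) (la n T b U) v‖) ≤ 24 * √Z := by
      refine le_of_sq_le_sq ?_ (by positivity)
      rw [mul_pow, Real.sq_sqrt hZ]
      linarith
    have h10 : 0 ≤ (2 * CS + 24) * (n : ℝ) ^ 2 := by positivity
    have h11 : 0 ≤ (2 * CS + 4 * CL) * √Z := by positivity
    nlinarith

lemma al_sub_DTwo (N : ℕ) (β : ℕ → ℂ) (s : Finset ℤ) (f g : ℤ → ℝ) :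
    (al N β s fun t => f t - g t) = fun k => al N β s f k - al N β s g k := by
  funext k
  unfold al
  rw [← sum_sub_distrib]
  refine sum_congr rfl fun t _ => ?_
  push_cast
  ring

lemma ll_sq_DTwo {n T : ℕ} (b : ℕ → ℂ) (U : ℝ) {u : ℝ} {t : ℤ} (ht : t ∈ Io (2 * T)) :
    ll n T b U u t ^ 2 ≤ u ^ 2 := by
  unfold ll
  split_ifs with h
  · exact pow_le_pow_left₀ (nu_nonneg b ht) h.2 2
  · simpa using sq_nonneg u

theorem d3_stmt (hF : FtStmt) (hR : RowStmt) (hS : SchStmt) (hD : DualStmt) (hQ : SqcStmt) :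
    D3Stmt := by
  obtain ⟨CR, hCR, hR⟩ := hR
  obtain ⟨CD, hCD, hD⟩ := hD
  refine ⟨4 * CD + 16 * CR ^ 2, by positivity,
    fun n M T g b Δ U u Y S hn hT hg hb hΔ hu hY => ?_⟩
  have hn2 : 1 ≤ n ^ 2 := Nat.one_le_pow 2 n hn
  have hT1 : 1 ≤ 2 * T := by omega
  have h23 : 2 * n ^ 2 ≤ 6 * n ^ 3 := by
    have : n ^ 2 ≤ n ^ 3 := Nat.pow_le_pow_right hn (by norm_num)
    omega
  obtain ⟨q1, -, q3⟩ := hQ n b Δ hn hb (GM2.DivB_mono hΔ h23)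
  have hY1 := (hY (Pr n) Subset.rfl).1
  have hY0 : 0 ≤ Y := le_trans (sum_nonneg fun _ _ => by positivity) hY1
  have e : (fun t => mm n T g b U t - ww n T b U u t) =
      fun t => ll n T b U u t - wP (2 * T) (Phi n g) b t := funext (mm_sub_ww hn T g b U u)
  rw [e, al_sub_DTwo]
  refine (NW_sub_le _ _ _).trans ?_
  have h1 : NW (n ^ 2) (al (n ^ 2) (sqc n b) (Io (2 * T)) (ll n T b U u)) ≤
      CD * ((2 * T : ℕ) : ℝ) *
        ∑ t ∈ Io (2 * T), ‖(ll n T b U u t : ℂ) * DP (n ^ 2) (sqc n b) t‖ ^ 2 :=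
    hD (n ^ 2) (2 * T) (fun t => (ll n T b U u t : ℂ) * DP (n ^ 2) (sqc n b) t) hn2 (by omega)
  have h2 : ∑ t ∈ Io (2 * T), ‖(ll n T b U u t : ℂ) * DP (n ^ 2) (sqc n b) t‖ ^ 2 ≤
      u ^ 2 * Y := by
    refine le_trans ?_ (mul_le_mul_of_nonneg_left hY1 (sq_nonneg u))
    rw [mul_sum]
    refine sum_le_sum fun t ht => ?_
    rw [q1, norm_mul, norm_pow, norm_FP_Pr hn, mul_pow, Complex.norm_real, Real.norm_eq_abs,
      sq_abs]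
    exact mul_le_mul_of_nonneg_right (ll_sq_DTwo b U ht) (by positivity)
  have h3 := hS (n ^ 2) (sqc n b) (Io (2 * T)) (wP (2 * T) (Phi n g) b)
    (CR * Δ ^ 2 * (((2 * T : ℕ) : ℝ) * n + (n : ℝ) ^ 4 / g)) hn2 fun k hk => by
      refine le_trans (sum_le_sum fun j hj => ?_) (hR n g (2 * T) Δ hn hg hT1 hΔ k hk)
      refine hF (2 * T) (Phi n g) b _ hT1 swap_Phi (pos_Pr hn (Phi_sub n g)) hb.1 ?_
      have a1 : (0 : ℝ) < j := by exact_mod_cast (mem_Rg.1 hj).1.1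
      have a2 : (0 : ℝ) < k := by exact_mod_cast (mem_Rg.1 hk).1.1
      positivity
  have h4 := h3.trans (mul_le_mul_of_nonneg_left q3 (sq_nonneg _))
  have h5 := h1.trans (mul_le_mul_of_nonneg_left h2 (by positivity))
  push_cast at h4 h5
  have hT0 : (0 : ℝ) ≤ T := Nat.cast_nonneg T
  have hn0 : (0 : ℝ) ≤ n := Nat.cast_nonneg n
  have hq : (0 : ℝ) ≤ (n : ℝ) ^ 4 / g := by positivity
  generalize (n : ℝ) ^ 4 / g = q at *
  have h6 : (2 * T * n + q) ^ 2 ≤ (2 * ((T : ℝ) * n + q)) ^ 2 :=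
    pow_le_pow_left₀ (by positivity) (by linarith) 2
  have h7 := mul_le_mul_of_nonneg_left h6
    (by positivity : (0 : ℝ) ≤ 2 * CR ^ 2 * Δ ^ 6 * (n : ℝ) ^ 2)
  have h8 : 0 ≤ 16 * CR ^ 2 * (T * u ^ 2 * Y) := by positivity
  have h9 : 0 ≤ 4 * CD * (Δ ^ 6 * (n : ℝ) ^ 2 * (T * n + q) ^ 2) := by positivity
  nlinarith

end Pool.Agent.MP_2a1f0e_nt.SQ

end

section

set_option autoImplicit false

open Finset

namespace Pool.Agent.MP_2a1f0e_nt.SQ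

open GM GM2

lemma alt1_Core6 {C C3 Δ n W X : ℝ} (hC : 8 * C3 ≤ C) (hW : 0 ≤ W)
    (h : X ^ 2 ≤ 4 * (2 * Δ ^ 2 * n ^ 2) * (C3 * W)) : X ^ 2 ≤ C * Δ ^ 2 * n ^ 2 * W := by
  have h0 : 0 ≤ Δ ^ 2 * n ^ 2 * W := by positivity
  have h1 := mul_le_mul_of_nonneg_right hC h0
  calc X ^ 2 ≤ 4 * (2 * Δ ^ 2 * n ^ 2) * (C3 * W) := h
    _ = 8 * C3 * (Δ ^ 2 * n ^ 2 * W) := by ring
    _ ≤ C * (Δ ^ 2 * n ^ 2 * W) := h1
    _ = C * Δ ^ 2 * n ^ 2 * W := by ring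

lemma alt2_Core6 {C Δ n g E a c d Z X : ℝ} (hC : 3072 ≤ C) (ha : 0 ≤ a) (hc : 0 ≤ c) (hd : 0 ≤ d)
    (hZ : 0 ≤ Z)
    (h : X ^ 4 ≤ 16 * (2 * Δ ^ 2 * n ^ 2) ^ 2 * E ^ 2 *
      (a * (3 * (a + c + d + (4 * n ^ 2 / g) ^ 2 * Z)))) :
    X ^ 4 ≤ C * Δ ^ 4 * n ^ 4 * E ^ 2 * (a * (a + c + d + (n ^ 2 / g) ^ 2 * Z)) := by
  have e1 : (4 * n ^ 2 / g) ^ 2 * Z = 16 * ((n ^ 2 / g) ^ 2 * Z) := by ring
  have hz : 0 ≤ (n ^ 2 / g) ^ 2 * Z := by positivity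
  rw [e1] at h
  generalize (n ^ 2 / g) ^ 2 * Z = z at h hz ⊢
  have h1 : a * (3 * (a + c + d + 16 * z)) ≤ 48 * (a * (a + c + d + z)) := by
    have : 3 * (a + c + d + 16 * z) ≤ 48 * (a + c + d + z) := by linarith
    calc a * (3 * (a + c + d + 16 * z)) ≤ a * (48 * (a + c + d + z)) :=
          mul_le_mul_of_nonneg_left this ha
      _ = 48 * (a * (a + c + d + z)) := by ring
  have h2 : 0 ≤ a * (a + c + d + z) := by positivity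
  generalize a * (a + c + d + z) = w at h1 h2 ⊢
  have h0 : 0 ≤ Δ ^ 4 * n ^ 4 * E ^ 2 * w := by positivity
  have h3 := mul_le_mul_of_nonneg_right hC h0
  calc X ^ 4 ≤ _ := h
    _ ≤ 16 * (2 * Δ ^ 2 * n ^ 2) ^ 2 * E ^ 2 * (48 * w) :=
        mul_le_mul_of_nonneg_left h1 (by positivity)
    _ = 3072 * (Δ ^ 4 * n ^ 4 * E ^ 2 * w) := by ring
    _ ≤ C * (Δ ^ 4 * n ^ 4 * E ^ 2 * w) := h3
    _ = C * Δ ^ 4 * n ^ 4 * E ^ 2 * w := by ring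

lemma alt3_Core6 {C CQ C2 Δ n M T E S Y p q r Q w X : ℝ} (hCQ : 0 < CQ) (hC2 : 0 < C2)
    (hC : 128 * (4 * CQ * (C2 + 4) + 4) ≤ C) (hΔ : 0 ≤ Δ) (hM : 0 ≤ M) (hT : 0 < T)
    (hE : 0 ≤ E) (hS : 0 ≤ S) (hY : 0 ≤ Y) (hp : 0 ≤ p) (hq : 0 ≤ q) (hr : 0 ≤ r) (hw : w ≤ r)
    (hQ : Q ≤ CQ * (n ^ 2) ^ 2 *
      (M ^ 2 * (4 * Y) * (C2 * p + 4 * Y / T) + M * Δ * (4 * Y) * (C2 * q + T)))
    (h : X ^ 3 ≤ 16 * (2 * Δ ^ 2 * n ^ 2) ^ 3 * (Q + E * (4 * S) * w)) :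
    X ^ 3 ≤ C * Δ ^ 6 * n ^ 6 *
      (n ^ 4 * (M ^ 2 * Y * (p + Y / T) + M * Δ * Y * (q + T)) + E * S * r) := by
  have hYT : 0 ≤ Y / T := by positivity
  have e1 : 4 * Y / T = 4 * (Y / T) := by ring
  rw [e1] at hQ
  generalize Y / T = y at hQ hYT ⊢
  have h1 : C2 * p + 4 * y ≤ (C2 + 4) * (p + y) := by nlinarith [mul_nonneg hC2.le hYT]
  have h2 : C2 * q + T ≤ (C2 + 4) * (q + T) := by nlinarith [mul_nonneg hC2.le hT.le]
  have h3 : M ^ 2 * (4 * Y) * (C2 * p + 4 * y) + M * Δ * (4 * Y) * (C2 * q + T) ≤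
      4 * (C2 + 4) * (M ^ 2 * Y * (p + y) + M * Δ * Y * (q + T)) := by
    calc _ ≤ M ^ 2 * (4 * Y) * ((C2 + 4) * (p + y)) + M * Δ * (4 * Y) * ((C2 + 4) * (q + T)) :=
          add_le_add (mul_le_mul_of_nonneg_left h1 (by positivity))
            (mul_le_mul_of_nonneg_left h2 (by positivity))
      _ = _ := by ring
  have h4 : 0 ≤ M ^ 2 * Y * (p + y) + M * Δ * Y * (q + T) := by positivity
  generalize M ^ 2 * Y * (p + y) + M * Δ * Y * (q + T) = B at h3 h4 ⊢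
  have h5 : Q ≤ 4 * CQ * (C2 + 4) * (n ^ 4 * B) := by
    calc Q ≤ _ := hQ
      _ ≤ CQ * (n ^ 2) ^ 2 * (4 * (C2 + 4) * B) := mul_le_mul_of_nonneg_left h3 (by positivity)
      _ = _ := by ring
  have h6 : E * (4 * S) * w ≤ 4 * (E * S * r) := by
    calc _ ≤ E * (4 * S) * r := mul_le_mul_of_nonneg_left hw (by positivity)
      _ = _ := by ring
  have h7 : 0 ≤ n ^ 4 * B := by positivity
  have h8 : 0 ≤ E * S * r := by positivity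
  have hK : 0 ≤ 4 * CQ * (C2 + 4) := by positivity
  generalize n ^ 4 * B = x at h5 h7 ⊢
  generalize E * S * r = z at h6 h8 ⊢
  generalize 4 * CQ * (C2 + 4) = K at hK h5 hC
  have h9 : Q + E * (4 * S) * w ≤ (K + 4) * (x + z) := by nlinarith [mul_nonneg hK h8]
  have h0 : 0 ≤ Δ ^ 6 * n ^ 6 * (x + z) := by positivity
  have h10 := mul_le_mul_of_nonneg_right hC h0
  calc X ^ 3 ≤ _ := h
    _ ≤ 16 * (2 * Δ ^ 2 * n ^ 2) ^ 3 * ((K + 4) * (x + z)) :=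
        mul_le_mul_of_nonneg_left h9 (by positivity)
    _ = 128 * (K + 4) * (Δ ^ 6 * n ^ 6 * (x + z)) := by ring
    _ ≤ C * (Δ ^ 6 * n ^ 6 * (x + z)) := h10
    _ = _ := by ring

theorem core6_stmt (hS : SosStmt) (hQ : QsStmt) (hq : SqcStmt) (h1 : D1Stmt) (h2 : D2Stmt)
    (h3 : D3Stmt) : Core6Stmt := by
  obtain ⟨CQ, hCQ, hQ⟩ := hQ
  obtain ⟨C2, hC2, h2⟩ := h2
  obtain ⟨C3, hC3, h3⟩ := h3
  have hK : 0 ≤ 128 * (4 * CQ * (C2 + 4) + 4) := by positivity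
  refine ⟨1 + 8 * C3 + 3072 + 128 * (4 * CQ * (C2 + 4) + 4), by linarith, ?_⟩
  intro n M T g b Δ E U u Y S Z hn hT hg hb hD6 hDM hE hHE hU hu hYS hBig
  have hn2 : 1 ≤ n ^ 2 := Nat.one_le_pow _ _ hn
  have hT1 : 1 ≤ T := hn2.trans hT
  have hTr : (0 : ℝ) < T := by exact_mod_cast hT1
  have hnr : (0 : ℝ) < n := by exact_mod_cast hn
  have hΔ : 1 ≤ Δ := hD6.1
  have hD2 : DivB (2 * n ^ 2) Δ := GM2.DivB_mono hD6 (by nlinarith)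
  obtain ⟨hsq, -, hH⟩ := hq n b Δ hn hb hD2
  have h0 : (0 : ℤ) ∈ Io (2 * T) := by
    rw [mem_Io]
    constructor <;> push_cast <;> omega
  have hY : 0 ≤ Y := (sum_nonneg fun _ _ => sq_nonneg _).trans (hYS ∅ (empty_subset _)).1
  have hS0 : 0 ≤ S :=
    (sum_nonneg fun _ _ => mul_nonneg (sq_nonneg _) (sq_nonneg _)).trans
      ((hYS ∅ (empty_subset _)).2 0 h0)
  have hZ : 0 ≤ Z := (sum_nonneg fun _ _ => by positivity).trans hBig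
  have hX := XX_nonneg n T b U u
  obtain ⟨d1, d2, d3, d4, d5, d6⟩ := h1 n M T g b U u Y S Z hn hT1 hg hb.1 hU hu hYS hBig
  obtain ⟨e1, e2⟩ := h2 n T g b U Z hn hT hb.1 hU hBig
  have f1 := h3 n M T g b Δ U u Y S hn hT hg hb hD6 hu hYS
  have hsq' : ∀ t : ℤ, ‖DP (n ^ 2) (sqc n b) t‖ ^ 2 = ‖DP n b t‖ ^ 4 := fun t => by
    rw [hsq, norm_pow]
    ring
  have key := hS (n ^ 2) M (sqc n b) (Io (2 * T)) (ww n T b U u) (mm n T g b U) E (4 * S)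
    (2 * Δ ^ 2 * (n : ℝ) ^ 2) _ (U * XX n T b U u)
    (3 * (U * XX n T b U u + u ^ 2 * Y + U ^ 2 * Y + (4 * (n : ℝ) ^ 2 / g) ^ 2 * Z))
    (XX n T b U u) hn2 hE (by linarith) (by positivity) hHE hH
    (fun _ ht => ww_nonneg b U u ht) (by simp only [hsq']; rfl) d4 f1
    (by simp only [hsq']; exact d5) (by simp only [hsq']; exact d6)
  rcases key with key | key | key
  · exact Or.inl (alt1_Core6 (by linarith) (by positivity) key)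
  · exact Or.inr (Or.inl (alt2_Core6 (by linarith) (by positivity) (by positivity)
      (by positivity) hZ key))
  · have hQ' := hQ (n ^ 2) M Δ (4 * Y) _ _ T (Io (2 * T)) (ww n T b U u) (mm n T g b U) hn2 hDM
      hTr (by linarith) d2 e1 e2
    rw [Nat.cast_pow] at hQ'
    exact Or.inr (Or.inr (alt3_Core6 hCQ hC2 (by linarith) (by linarith) (Nat.cast_nonneg M) hTr
      hE hS0 hY (by positivity) (by positivity) (by positivity) d3 hQ' key))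

end Pool.Agent.MP_2a1f0e_nt.SQ

end

section

set_option autoImplicit false

open Finset

namespace Pool.Agent.MP_2a1f0e_nt.SQ

open GM GM2

lemma one_Num6 {C n τ P g Δ Y X : ℝ} (hC : 1 ≤ C) (hn : 1 ≤ n) (hτ : 1 ≤ τ) (hτn : τ ≤ n)
    (hP : 1 ≤ P) (hg : 0 < g) (hg1 : n ^ 2 / g ≤ 2 * τ ^ 3) (hΔ0 : 0 ≤ Δ) (hΔ : Δ ≤ P)
    (hY0 : 0 ≤ Y) (hY : Y ≤ P * (τ ^ 4 * n ^ 2))
    (h : X ^ 2 ≤ C * Δ ^ 2 * n ^ 2 *
      (τ ^ 4 * (n ^ 2 / τ) ^ 2 * Y + Δ ^ 6 * n ^ 2 * (τ ^ 4 * n + n ^ 4 / g) ^ 2)) :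
    X ≤ 10 * C * P ^ 5 * (τ ^ 3 * n ^ 4) := by
  have hτ0 : 0 < τ := by linarith
  have hn0 : 0 < n := by linarith
  have h1 : τ ^ 4 * n + n ^ 4 / g ≤ 3 * (τ ^ 3 * n ^ 2) := by
    have a1 : τ ^ 4 * n ≤ τ ^ 3 * n ^ 2 := by
      calc τ ^ 4 * n = τ ^ 3 * n * τ := by ring
        _ ≤ τ ^ 3 * n * n := by gcongr
        _ = τ ^ 3 * n ^ 2 := by ring
    have a2 : n ^ 4 / g ≤ 2 * (τ ^ 3 * n ^ 2) := by
      calc n ^ 4 / g = n ^ 2 / g * n ^ 2 := by ring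
        _ ≤ 2 * τ ^ 3 * n ^ 2 := by gcongr
        _ = 2 * (τ ^ 3 * n ^ 2) := by ring
    linarith
  have hP3 : P ^ 3 ≤ P ^ 10 := pow_le_pow_right₀ hP (by norm_num)
  have hP8 : P ^ 8 ≤ P ^ 10 := pow_le_pow_right₀ hP (by norm_num)
  have hCC : C ≤ C ^ 2 := by nlinarith
  have h2 : X ^ 2 ≤ (10 * C * P ^ 5 * (τ ^ 3 * n ^ 4)) ^ 2 := by
    calc X ^ 2 ≤ C * P ^ 2 * n ^ 2 * (τ ^ 4 * (n ^ 2 / τ) ^ 2 * (P * (τ ^ 4 * n ^ 2)) +
          P ^ 6 * n ^ 2 * (3 * (τ ^ 3 * n ^ 2)) ^ 2) := by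
          refine h.trans ?_
          gcongr
      _ = C * (P ^ 3 + 9 * P ^ 8) * (τ ^ 3 * n ^ 4) ^ 2 := by
          field_simp
          ring
      _ ≤ C ^ 2 * (100 * P ^ 10) * (τ ^ 3 * n ^ 4) ^ 2 := by
          gcongr
          have : 0 ≤ P ^ 10 := by positivity
          linarith
      _ = (10 * C * P ^ 5 * (τ ^ 3 * n ^ 4)) ^ 2 := by ring
  exact le_of_pow_le_pow_left₀ (by norm_num) (by positivity) h2

lemma cub_Num6 {a b W X : ℝ} (hW : 0 < W) (ha : 2 * a ≤ W ^ 2) (hb : 2 * b ≤ W ^ 3)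
    (h : X ^ 4 ≤ X * (a * X + b)) : X ≤ W := by
  by_contra hc
  rw [not_le] at hc
  have hX : 0 < X := hW.trans hc
  have h1 : X ^ 3 ≤ a * X + b := by
    have : X * X ^ 3 ≤ X * (a * X + b) := by
      calc X * X ^ 3 = X ^ 4 := by ring
        _ ≤ _ := h
    exact le_of_mul_le_mul_left this hX
  have h2 : W ^ 2 < X ^ 2 := pow_lt_pow_left₀ hc hW.le (by norm_num)
  have h3 : W ^ 3 < X ^ 3 := pow_lt_pow_left₀ hc hW.le (by norm_num)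
  have h4 : 2 * a * X ≤ X ^ 2 * X := mul_le_mul_of_nonneg_right (by linarith) hX.le
  have h5 : X ^ 2 * X = X ^ 3 := by ring
  linarith

lemma two_Num6 {C n τ P g Δ E Y Z X : ℝ} (hC : 1 ≤ C) (hn : 1 ≤ n) (hτ : 1 ≤ τ)
    (hnτ : n ≤ τ ^ 2) (hP : 1 ≤ P) (hg : 0 < g) (hg1 : n ^ 2 / g ≤ 2 * τ ^ 3) (hΔ0 : 0 ≤ Δ)
    (hΔ : Δ ≤ P) (hE0 : 0 ≤ E) (hE : E ≤ P * n ^ 2) (hY0 : 0 ≤ Y)
    (hY : Y ≤ P * (τ ^ 4 * n ^ 2)) (hZ0 : 0 ≤ Z) (hZ : Z ≤ P * n ^ 4) (hX : 0 ≤ X)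
    (h : X ^ 4 ≤ C * Δ ^ 4 * n ^ 4 * E ^ 2 * (τ * n * X * (τ * n * X + (n ^ 2 / τ) ^ 2 * Y +
      (τ * n) ^ 2 * Y + (n ^ 2 / g) ^ 2 * Z))) :
    X ≤ 10 * C * P ^ 5 * (τ ^ 3 * n ^ 4) := by
  have hτ0 : 0 < τ := by linarith
  have hn0 : 0 < n := by linarith
  have hP6 : P ^ 6 ≤ P ^ 10 := pow_le_pow_right₀ hP (by norm_num)
  have hP7 : P ^ 7 ≤ P ^ 15 := pow_le_pow_right₀ hP (by norm_num)
  have hC2 : C ≤ C ^ 2 := by nlinarith
  have hC3 : C ≤ C ^ 3 := by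
    calc C = C ^ 1 := by ring
      _ ≤ C ^ 3 := pow_le_pow_right₀ hC (by norm_num)
  refine cub_Num6 (a := C * P ^ 6 * (τ ^ 3 * n ^ 4) ^ 2)
    (b := 6 * C * P ^ 7 * (τ ^ 3 * n ^ 4) ^ 3) (by positivity) ?_ ?_ ?_
  · calc 2 * (C * P ^ 6 * (τ ^ 3 * n ^ 4) ^ 2) = 2 * C * P ^ 6 * (τ ^ 3 * n ^ 4) ^ 2 := by ring
      _ ≤ 100 * C ^ 2 * P ^ 10 * (τ ^ 3 * n ^ 4) ^ 2 := by
          gcongr
          norm_num
      _ = _ := by ring
  · calc 2 * (6 * C * P ^ 7 * (τ ^ 3 * n ^ 4) ^ 3)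
        = 12 * C * P ^ 7 * (τ ^ 3 * n ^ 4) ^ 3 := by ring
      _ ≤ 1000 * C ^ 3 * P ^ 15 * (τ ^ 3 * n ^ 4) ^ 3 := by
          gcongr
          norm_num
      _ = _ := by ring
  · calc X ^ 4 ≤ C * P ^ 4 * n ^ 4 * (P * n ^ 2) ^ 2 * (τ * n * X * (τ * n * X +
          (n ^ 2 / τ) ^ 2 * (P * (τ ^ 4 * n ^ 2)) + (τ * n) ^ 2 * (P * (τ ^ 4 * n ^ 2)) +
          (2 * τ ^ 3) ^ 2 * (P * n ^ 4))) := by
          refine h.trans ?_
          gcongr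
      _ = X * (C * P ^ 6 * (τ ^ 2 * n ^ 8 * n ^ 2) * X +
          C * P ^ 7 * (τ ^ 3 * n ^ 12 * n ^ 3 + 5 * (τ ^ 7 * n ^ 12 * n))) := by
          field_simp
          ring
      _ ≤ X * (C * P ^ 6 * (τ ^ 2 * n ^ 8 * (τ ^ 2) ^ 2) * X +
          C * P ^ 7 * (τ ^ 3 * n ^ 12 * (τ ^ 2) ^ 3 + 5 * (τ ^ 7 * n ^ 12 * τ ^ 2))) := by
          gcongr
      _ = _ := by ring

lemma three_Num6 {C n τ P M g Δ E Y S Z X : ℝ} (hC : 1 ≤ C) (hn : 1 ≤ n) (hτ : 1 ≤ τ)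
    (hnτ : n ≤ τ ^ 2) (hτn : τ ^ 3 ≤ n ^ 2) (hP : 1 ≤ P) (hM0 : 0 ≤ M)
    (hM : M ≤ P * (τ ^ 4 / n ^ 2)) (hg : 0 < g) (hg2 : g * τ ^ 3 ≤ n ^ 2) (hΔ0 : 0 ≤ Δ)
    (hΔ : Δ ≤ P) (hE0 : 0 ≤ E) (hE : E ≤ P * n ^ 2) (hY0 : 0 ≤ Y)
    (hY : Y ≤ P * (τ ^ 4 * n ^ 2)) (hS0 : 0 ≤ S) (hS : S ≤ P * (τ ^ 4 * n ^ 4)) (hZ0 : 0 ≤ Z)
    (hZ : Z ≤ P * n ^ 4)
    (h : X ^ 3 ≤ C * Δ ^ 6 * n ^ 6 * (n ^ 4 * (M ^ 2 * Y * (n ^ 2 + √Z + Y / τ ^ 4) +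
      M * Δ * Y * (τ ^ 4 * g + Z / (τ * n) + τ ^ 4)) + E * S * (Y / (n ^ 2 / τ)))) :
    X ≤ 10 * C * P ^ 5 * (τ ^ 3 * n ^ 4) := by
  have hτ0 : 0 < τ := by linarith
  have hn0 : 0 < n := by linarith
  have hn2 : n ^ 2 ≤ P * n ^ 2 := le_mul_of_one_le_left (by positivity) hP
  have hsq : √Z ≤ P * n ^ 2 := by
    rw [Real.sqrt_le_left (by positivity)]
    calc Z ≤ P * n ^ 4 := hZ
      _ ≤ P ^ 2 * n ^ 4 := by
          gcongr
          nlinarith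
      _ = (P * n ^ 2) ^ 2 := by ring
  have hYT : Y / τ ^ 4 ≤ P * n ^ 2 := by
    rw [div_le_iff₀ (by positivity)]
    linarith
  have b1 : n ^ 2 + √Z + Y / τ ^ 4 ≤ 3 * (P * n ^ 2) := by linarith
  have b2 : τ ^ 4 * g + Z / (τ * n) + τ ^ 4 ≤ 3 * (P * (τ * n ^ 2)) := by
    have a0 : τ * n ^ 2 ≤ P * (τ * n ^ 2) := le_mul_of_one_le_left (by positivity) hP
    have a1 : τ ^ 4 * g ≤ τ * n ^ 2 := by
      calc τ ^ 4 * g = τ * (g * τ ^ 3) := by ring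
        _ ≤ τ * n ^ 2 := by gcongr
    have a2 : Z / (τ * n) ≤ P * (τ * n ^ 2) := by
      rw [div_le_iff₀ (by positivity)]
      calc Z ≤ P * n ^ 4 := hZ
        _ = P * n ^ 3 * n := by ring
        _ ≤ P * n ^ 3 * τ ^ 2 := by gcongr
        _ = _ := by ring
    have a3 : τ ^ 4 ≤ τ * n ^ 2 := by
      calc τ ^ 4 = τ * τ ^ 3 := by ring
        _ ≤ τ * n ^ 2 := by gcongr
    linarith
  have hP3 : P ^ 9 ≤ P ^ 15 := pow_le_pow_right₀ hP (by norm_num)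
  have hP4 : P ^ 10 ≤ P ^ 15 := pow_le_pow_right₀ hP (by norm_num)
  have hC3 : C ≤ C ^ 3 := by
    calc C = C ^ 1 := by ring
      _ ≤ C ^ 3 := pow_le_pow_right₀ hC (by norm_num)
  have h2 : X ^ 3 ≤ (10 * C * P ^ 5 * (τ ^ 3 * n ^ 4)) ^ 3 := by
    calc X ^ 3 ≤ C * P ^ 6 * n ^ 6 * (n ^ 4 * ((P * (τ ^ 4 / n ^ 2)) ^ 2 *
          (P * (τ ^ 4 * n ^ 2)) * (3 * (P * n ^ 2)) +
          P * (τ ^ 4 / n ^ 2) * P * (P * (τ ^ 4 * n ^ 2)) * (3 * (P * (τ * n ^ 2)))) +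
          P * n ^ 2 * (P * (τ ^ 4 * n ^ 4)) * (P * (τ ^ 4 * n ^ 2) / (n ^ 2 / τ))) := by
          refine h.trans ?_
          gcongr
      _ = C * (3 * P ^ 10 * (τ ^ 9 * n ^ 10 * τ ^ 3) + 3 * P ^ 10 * (τ ^ 9 * n ^ 12) +
          P ^ 9 * (τ ^ 9 * n ^ 12)) := by
          field_simp
      _ ≤ C ^ 3 * (3 * P ^ 15 * (τ ^ 9 * n ^ 10 * n ^ 2) + 3 * P ^ 15 * (τ ^ 9 * n ^ 12) +
          P ^ 15 * (τ ^ 9 * n ^ 12)) := by
          gcongr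
      _ = 7 * (C ^ 3 * P ^ 15 * (τ ^ 3 * n ^ 4) ^ 3) := by ring
      _ ≤ 1000 * (C ^ 3 * P ^ 15 * (τ ^ 3 * n ^ 4) ^ 3) := by
          gcongr
          norm_num
      _ = _ := by ring
  exact le_of_pow_le_pow_left₀ (by norm_num) (by positivity) h2

theorem num6_stmt : Num6Stmt := by
  intro C hC
  refine ⟨10 * C, by linarith, ?_⟩
  intro n τ P M g Δ E Y S Z X hn hτ hnτ hτn hP hM0 hM hg1 hg2 hΔ0 hΔ hE0 hE hY0 hY hS0 hS hZ0 hZ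
    hX h
  have hτ0 : 0 < τ := by linarith
  have hn0 : 0 < n := by linarith
  have hg : 0 < g := by
    have h1 : 0 < g * τ ^ 3 := by
      have : 0 < n ^ 2 := by positivity
      linarith
    exact (mul_pos_iff_of_pos_right (by positivity)).1 h1
  have hg3 : n ^ 2 / g ≤ 2 * τ ^ 3 := by
    rw [div_le_iff₀ hg]
    linarith
  have hτn' : τ ≤ n := by
    have h1 : τ ^ 2 ≤ τ ^ 3 := pow_le_pow_right₀ hτ (by norm_num)
    exact le_of_pow_le_pow_left₀ (by norm_num) hn0.le (h1.trans hτn)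
  rcases h with h | h | h
  · exact one_Num6 hC hn hτ hτn' hP hg hg3 hΔ0 hΔ hY0 hY h
  · exact two_Num6 hC hn hτ hnτ hP hg hg3 hΔ0 hΔ hE0 hE hY0 hY hZ0 hZ hX h
  · exact three_Num6 hC hn hτ hnτ hτn hP hM0 hM hg hg2 hΔ0 hΔ hE0 hE hY0 hY hS0 hS hZ0 hZ h

end Pool.Agent.MP_2a1f0e_nt.SQ

end

section

set_option autoImplicit false

open Finset

namespace Pool.Agent.MP_2a1f0e_nt.SQ

open GM GM2

lemma num_XSix {n τ Q M Δ CP KB : ℝ} (hn : 1 ≤ n) (hτ : 0 < τ) (hτn : τ ≤ n) (hQ : 1 ≤ Q)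
    (hM0 : 0 ≤ M) (hM : M ≤ Q * (τ ^ 4 / n ^ 2)) (hΔ0 : 0 ≤ Δ) (hΔ : Δ ≤ Q) (hC : CP ≤ Q)
    (hK : KB ≤ Q) :
    CP * Δ ^ 2 * n ^ 4 * M ≤ 2 * Q ^ 7 * (τ ^ 4 * n ^ 2) ∧
    CP * Δ ^ 2 * n ^ 8 * (M ^ 2 / (n ^ 2) ^ 2 + M * Δ / n ^ 2) ≤ 2 * Q ^ 7 * (τ ^ 4 * n ^ 4) ∧
    KB * Δ ^ 6 * (n ^ 4 + τ ^ 4 * n ^ 8 / (τ * n) ^ 4) ≤ 2 * Q ^ 7 * n ^ 4 := by
  have n0 : 0 < n := by linarith
  have q0 : 0 < Q := by linarith
  have q4 : Q ^ 4 ≤ Q ^ 7 := pow_le_pow_right₀ hQ (by norm_num)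
  have q5 : Q ^ 5 ≤ Q ^ 7 := pow_le_pow_right₀ hQ (by norm_num)
  have q7 : 0 < Q ^ 7 := by positivity
  refine ⟨?_, ?_, ?_⟩
  · calc CP * Δ ^ 2 * n ^ 4 * M ≤ Q * Q ^ 2 * n ^ 4 * (Q * (τ ^ 4 / n ^ 2)) := by gcongr
      _ = Q ^ 4 * (τ ^ 4 * n ^ 2) := by field_simp
      _ ≤ _ := by gcongr; linarith
  · have h1 : M ≤ Q * (n ^ 4 / n ^ 2) := hM.trans (by gcongr)
    calc CP * Δ ^ 2 * n ^ 8 * (M ^ 2 / (n ^ 2) ^ 2 + M * Δ / n ^ 2)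
        = CP * Δ ^ 2 * n ^ 8 * (M * M / (n ^ 2) ^ 2 + M * Δ / n ^ 2) := by rw [sq M]
      _ ≤ Q * Q ^ 2 * n ^ 8 * (Q * (τ ^ 4 / n ^ 2) * (Q * (n ^ 4 / n ^ 2)) / (n ^ 2) ^ 2 +
          Q * (τ ^ 4 / n ^ 2) * Q / n ^ 2) := by gcongr
      _ = 2 * Q ^ 5 * (τ ^ 4 * n ^ 4) := by field_simp; ring
      _ ≤ _ := by gcongr
  · calc KB * Δ ^ 6 * (n ^ 4 + τ ^ 4 * n ^ 8 / (τ * n) ^ 4)
        ≤ Q * Q ^ 6 * (n ^ 4 + τ ^ 4 * n ^ 8 / (τ * n) ^ 4) := by gcongr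
      _ = _ := by field_simp; ring

theorem x6_stmt (hS : SetupStmt) (hP : SpStmt) (hB : BigStmt) (hC : Core6Stmt) (hN : Num6Stmt) :
    X6Stmt := by
  intro ε hε
  have hδ : 0 < ε / 105 := by positivity
  obtain ⟨C0, c0, hS⟩ := hS _ hδ
  obtain ⟨c, c1, hD⟩ := DH.exists_DivB hδ
  obtain ⟨CP, cp, hP⟩ := hP
  obtain ⟨KB, kb, hB⟩ := hB _ hδ
  obtain ⟨C, cc, hC⟩ := hC
  obtain ⟨K, k0, hN⟩ := hN C cc
  obtain ⟨A, a0, a1, a2, a3⟩ : ∃ A : ℝ, C0 ≤ A ∧ c * 6 ^ (ε / 105) ≤ A ∧ CP ≤ A ∧ KB ≤ A := by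
    have : 0 < c * 6 ^ (ε / 105) := by positivity
    exact ⟨C0 + c * 6 ^ (ε / 105) + CP + KB, by linarith, by linarith, by linarith, by linarith⟩
  have a4 : 1 ≤ A := c0.trans a0
  refine ⟨K * (32 * A ^ 35), by positivity, fun n T τ b hn hT hT' hτ ht hb => ?_⟩
  have n1 : (1 : ℝ) ≤ n := by exact_mod_cast hn
  have n0 : (0 : ℝ) < n := by linarith
  have t1 : (n : ℝ) ^ 2 ≤ τ ^ 4 := by rw [ht]; exact_mod_cast hT
  have t2 : (τ ^ 4) ^ 3 ≤ (n : ℝ) ^ 8 := by rw [ht]; exact_mod_cast hT'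
  have t3 : (n : ℝ) ≤ τ ^ 2 :=
    (pow_le_pow_iff_left₀ n0.le (by positivity) two_ne_zero).1 (t1.trans_eq (by ring))
  have t4 : τ ^ 3 ≤ (n : ℝ) ^ 2 :=
    (pow_le_pow_iff_left₀ (by positivity) (by positivity) four_ne_zero).1 (by
      rw [← pow_mul, ← pow_mul]
      rwa [← pow_mul] at t2)
  have t5 : 1 ≤ τ := (one_le_pow_iff_of_nonneg hτ.le two_ne_zero).1 (n1.trans t3)
  have t6 : τ ≤ n := (pow_le_pow_iff_left₀ hτ.le n0.le three_ne_zero).1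
    (t4.trans (pow_le_pow_right₀ n1 (by norm_num)))
  have t7 : T ≤ n ^ 4 := by
    have : (T : ℝ) ≤ (n : ℝ) ^ 4 := ht ▸ pow_le_pow_left₀ hτ.le t6 4
    exact_mod_cast this
  obtain ⟨M, D0, m1, m2, m3, m4, m5, -⟩ := hS (n ^ 2) T (Nat.one_le_pow _ _ hn) hT
    (by rwa [← pow_mul])
  have m6 := hD (6 * n ^ 3) (Nat.mul_pos (by norm_num) (Nat.pow_pos hn))
  have e2 : ((n ^ 2 : ℕ) : ℝ) ^ (ε / 105) = ((n : ℝ) ^ (ε / 105)) ^ 2 := by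
    rw [Nat.cast_pow, Real.rpow_pow_comm n0.le]
  have e3 : ((6 * n ^ 3 : ℕ) : ℝ) ^ (ε / 105) = 6 ^ (ε / 105) * ((n : ℝ) ^ (ε / 105)) ^ 3 := by
    rw [Nat.cast_mul, Nat.cast_pow, Real.mul_rpow (by positivity) (by positivity),
      Real.rpow_pow_comm n0.le, Nat.cast_ofNat]
  have e4 : (n : ℝ) ^ ε = ((n : ℝ) ^ (ε / 105)) ^ 105 := by
    rw [← Real.rpow_natCast, ← Real.rpow_mul n0.le]
    congr 1
    push_cast
    ring
  have q1 : 1 ≤ (n : ℝ) ^ (ε / 105) := Real.one_le_rpow n1 hδ.le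
  have hB' := fun Δ h => hB n T Δ (τ * n) b hn hT t7 h (by positivity) hb
  rw [e2] at m2 m4
  rw [e3] at m6
  rw [e4]
  clear hB hS hD e2 e3 e4
  generalize (n : ℝ) ^ (ε / 105) = q at *
  have q3 : 1 ≤ q ^ 3 := one_le_pow₀ q1
  have q2 : q ^ 2 ≤ q ^ 3 := pow_le_pow_right₀ q1 (by norm_num)
  have q4 : q ≤ q ^ 3 := le_self_pow₀ q1 three_ne_zero
  have Q0 : A ≤ A * q ^ 3 := le_mul_of_one_le_right (by linarith) q3
  have Q1 : 1 ≤ A * q ^ 3 := a4.trans Q0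
  have Q2 : C0 * q ^ 2 ≤ A * q ^ 3 := by gcongr
  obtain ⟨Δ, d1, d2, d3⟩ : ∃ Δ : ℝ, DivB (6 * n ^ 3) Δ ∧ DivB (n ^ 2 * M) Δ ∧ Δ ≤ A * q ^ 3 :=
    ⟨max D0 (c * (6 ^ (ε / 105) * q ^ 3)),
      ⟨m6.1.trans (le_max_right _ _), fun k hk => (m6.2 k hk).trans (le_max_right _ _)⟩,
      ⟨m3.1.trans (le_max_left _ _), fun k hk => (m3.2 k hk).trans (le_max_left _ _)⟩,
      max_le (m4.trans Q2) (by rw [← mul_assoc]; gcongr)⟩
  have d0 : 0 ≤ Δ := zero_le_one.trans d1.1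
  have hM : (M : ℝ) ≤ A * q ^ 3 * (τ ^ 4 / (n : ℝ) ^ 2) := by
    rw [← ht, Nat.cast_pow] at m2
    exact m2.trans (by gcongr)
  have g1 : 1 ≤ ⌊(n : ℝ) ^ 2 / τ ^ 3⌋₊ :=
    (Nat.one_le_floor_iff _).2 ((one_le_div (by positivity)).2 t4)
  have g2 : (⌊(n : ℝ) ^ 2 / τ ^ 3⌋₊ : ℝ) * τ ^ 3 ≤ (n : ℝ) ^ 2 :=
    (le_div_iff₀ (by positivity)).1 (Nat.floor_le (by positivity))
  have g3 : (n : ℝ) ^ 2 < ((⌊(n : ℝ) ^ 2 / τ ^ 3⌋₊ : ℝ) + 1) * τ ^ 3 :=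
    (div_lt_iff₀ (by positivity)).1 (Nat.lt_floor_add_one _)
  generalize ⌊(n : ℝ) ^ 2 / τ ^ 3⌋₊ = g at g1 g2 g3
  have g4 : (n : ℝ) ^ 2 ≤ 2 * (g * τ ^ 3) := by
    have : 1 * τ ^ 3 ≤ g * τ ^ 3 := by gcongr; exact_mod_cast g1
    linarith
  have h1 := hC n M T g b Δ (C0 * ((n ^ 2 : ℕ) : ℝ)) (τ * n) ((n : ℝ) ^ 2 / τ) _ _ _ hn hT g1 hb
    d1 d2 (by positivity) (by rwa [Io_two]) (by positivity) (by positivity)
    (hP n M T Δ b hn hT m1 d2 hb) (hB' Δ (DivB_mono d1 (by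
      have := Nat.pow_le_pow_right hn (by norm_num : 2 ≤ 3)
      omega)))
  obtain ⟨y1, y2, y3⟩ := num_XSix (KB := KB * q) n1 hτ t6 Q1 (Nat.cast_nonneg M) hM d0 d3
    (a2.trans Q0) (by gcongr)
  have p1 : A * q ^ 3 ≤ 2 * (A * q ^ 3) ^ 7 := by
    have := le_self_pow₀ Q1 (by norm_num : 7 ≠ 0)
    linarith
  rw [R2, Nat.cast_pow, ← ht] at h1
  refine (hN n τ (2 * (A * q ^ 3) ^ 7) M g Δ _ _ _ _ _ n1 t5 t3 t4 (Q1.trans p1)
    (Nat.cast_nonneg M) (hM.trans (by gcongr)) g4 g2 d0 (d3.trans p1) (by positivity)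
    (mul_le_mul_of_nonneg_right (a0.trans (Q0.trans p1)) (by positivity)) (by positivity) y1
    (by positivity) y2 (by positivity) y3 (XX_nonneg _ _ _ _ _) h1).trans_eq ?_
  ring

end Pool.Agent.MP_2a1f0e_nt.SQ

end

section

set_option autoImplicit false

open Finset

namespace Pool.Agent.MP_2a1f0e_nt.SQ

open GM GM2

lemma cnt_mul_le_BSix (n T m : ℕ) (b : ℕ → ℂ) {V : ℝ} (hV : 0 < V) :
    (DH.cnt n b T V : ℝ) * V ^ m ≤ ∑ ρ ∈ Icc (-(T : ℤ)) T, ‖DP n b ρ‖ ^ m := by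
  unfold DH.cnt
  rw [← nsmul_eq_mul]
  refine (card_nsmul_le_sum _ (fun ρ : ℤ => ‖DP n b ρ‖ ^ m) _ fun t ht =>
    pow_le_pow_left₀ hV.le (mem_filter.1 ht).2 m).trans ?_
  refine sum_le_sum_of_subset_of_nonneg (fun t ht => ?_) fun t _ _ => by positivity
  have := mem_Icc.1 (mem_filter.1 ht).1
  exact mem_Icc.2 ⟨by omega, this.2⟩

lemma pow_six_BSix (c : ℝ) (a k n : ℕ) {ε : ℝ} :
    (c * ((a * n ^ k : ℕ) : ℝ) ^ ε) ^ 6 =
      c ^ 6 * (a : ℝ) ^ (6 * ε) * (n : ℝ) ^ (6 * k * ε) := by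
  have h1 : (((a * n ^ k : ℕ) : ℝ) ^ ε) ^ 6 = ((a * n ^ k : ℕ) : ℝ) ^ (6 * ε) := by
    rw [mul_comm (6 : ℝ) ε, Real.rpow_mul (Nat.cast_nonneg _)]
    exact (Real.rpow_natCast _ 6).symm
  have h2 : ((n : ℝ) ^ k) ^ (6 * ε) = (n : ℝ) ^ (6 * k * ε) := by
    rw [← Real.rpow_natCast, ← Real.rpow_mul (Nat.cast_nonneg _)]
    congr 1
    ring
  rw [mul_pow, h1]
  push_cast
  rw [Real.mul_rpow (Nat.cast_nonneg _) (by positivity), h2]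
  ring

theorem mv_stmt (hM : GM2.MomStmt) : MvStmt := by
  obtain ⟨C, hC, h⟩ := hM
  intro ε hε
  obtain ⟨c, hc, hD⟩ := DH.exists_DivB (ε := ε / 18) (by positivity)
  refine ⟨C * (c ^ 6 * ((8 : ℕ) : ℝ) ^ (6 * (ε / 18))) * 64, by positivity,
    fun n T V b hn hV hb => ?_⟩
  have key : ∀ k : ℕ, 1 ≤ k → k ≤ 3 → (DH.cnt n b T V : ℝ) ≤
      C * (c ^ 6 * ((8 : ℕ) : ℝ) ^ (6 * (ε / 18))) * 64 * (n : ℝ) ^ ε *
        (((T : ℝ) + (n : ℝ) ^ k) * (n : ℝ) ^ k / V ^ (2 * k)) := by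
    intro k hk1 hk3
    have hX : (2 * n) ^ k ≤ 8 * n ^ 3 :=
      (Nat.pow_le_pow_right (by omega) hk3).trans (le_of_eq (by ring))
    have h1 := h k (2 * n) T (8 * n ^ 3) _ (Icc n (2 * n)) b hk1 (by omega) (fun a _ => hb a)
      (fun a ha => by have := mem_Icc.1 ha; omega) hX
      (hD _ (Nat.mul_pos (by norm_num) (pow_pos hn 3)))
    rw [pow_six_BSix, show 6 * ((3 : ℕ) : ℝ) * (ε / 18) = ε by push_cast; ring] at h1
    have h2 := (cnt_mul_le_BSix n T (2 * k) b hV).trans h1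
    have h3 : (((2 * n : ℕ) : ℝ)) ^ k ≤ 8 * (n : ℝ) ^ k := by
      push_cast
      rw [mul_pow]
      refine mul_le_mul_of_nonneg_right ?_ (by positivity)
      exact (pow_le_pow_right₀ (by norm_num) hk3).trans (by norm_num)
    have h4 : ((T : ℝ) + ((2 * n : ℕ) : ℝ) ^ k) * ((2 * n : ℕ) : ℝ) ^ k ≤
        64 * (((T : ℝ) + (n : ℝ) ^ k) * (n : ℝ) ^ k) := by
      have hT : (0 : ℝ) ≤ T := Nat.cast_nonneg T
      calc ((T : ℝ) + ((2 * n : ℕ) : ℝ) ^ k) * ((2 * n : ℕ) : ℝ) ^ k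
          ≤ (8 * T + 8 * (n : ℝ) ^ k) * (8 * (n : ℝ) ^ k) :=
            mul_le_mul (by linarith) h3 (by positivity) (by positivity)
        _ = _ := by ring
    rw [← mul_div_assoc, le_div_iff₀ (by positivity)]
    refine h2.trans ((mul_le_mul_of_nonneg_left h4 (by positivity)).trans (le_of_eq ?_))
    ring
  refine ⟨?_, key 2 (by norm_num) (by norm_num), key 3 (by norm_num) (by norm_num)⟩
  simpa only [pow_one, mul_one] using key 1 le_rfl (by norm_num)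

lemma cnt_le_BSix {n T : ℕ} (hT : 1 ≤ T) (b : ℕ → ℂ) {V U u Z : ℝ} (hV : 0 < V)
    (hu : 2 * u < V ^ 2) (hZ : Big n T b U Z) :
    (DH.cnt n b T V : ℝ) ≤ Z / V ^ 4 + 2 * XX n T b U u / V ^ 6 := by
  have hsub : (Icc 0 (T : ℤ)).filter (fun t : ℤ => V ≤ ‖DP n b t‖) ⊆ Io (2 * T) := by
    intro t ht
    have := mem_Icc.1 (mem_filter.1 ht).1
    rw [Io_two, mem_Ioo]
    omega
  have h0 : ∀ t ∈ Io (2 * T), 0 ≤ (if U < ‖DP n b t‖ ^ 2 then ‖DP n b t‖ ^ 4 else 0) / V ^ 4 ∧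
      0 ≤ 2 * (ww n T b U u t * ‖DP n b t‖ ^ 4) / V ^ 6 := fun t ht => by
    have := ww_nonneg (n := n) b U u ht
    refine ⟨div_nonneg ?_ (by positivity), by positivity⟩
    split_ifs <;> positivity
  have h1 : ∀ t ∈ (Icc 0 (T : ℤ)).filter (fun t : ℤ => V ≤ ‖DP n b t‖), (1 : ℝ) ≤
      (if U < ‖DP n b t‖ ^ 2 then ‖DP n b t‖ ^ 4 else 0) / V ^ 4 +
        2 * (ww n T b U u t * ‖DP n b t‖ ^ 4) / V ^ 6 := by
    intro t ht
    obtain ⟨a1, a2⟩ := h0 t (hsub ht)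
    obtain ⟨b1, b2⟩ := mem_filter.1 ht
    have b3 := mem_Icc.1 b1
    have b4 : V ^ 4 ≤ ‖DP n b t‖ ^ 4 := pow_le_pow_left₀ hV.le b2 4
    by_cases e : U < ‖DP n b t‖ ^ 2
    · rw [if_pos e]
      have : 1 ≤ ‖DP n b t‖ ^ 4 / V ^ 4 := (one_le_div (by positivity)).2 b4
      linarith
    · have b5 : V ^ 2 ≤ ‖DP n b t‖ ^ 2 := pow_le_pow_left₀ hV.le b2 2
      have b6 : 1 / 2 ≤ tri (2 * T) t := half_le_tri (by omega) (by
        rw [abs_of_nonneg b3.1]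
        push_cast
        omega)
      have b7 : 1 / 2 * V ^ 2 ≤ nu n T b t :=
        mul_le_mul b6 b5 (by positivity) (by linarith)
      have b8 : ww n T b U u t = nu n T b t := if_pos ⟨not_lt.1 e, by linarith⟩
      have b9 : 1 ≤ 2 * (ww n T b U u t * ‖DP n b t‖ ^ 4) / V ^ 6 := by
        rw [one_le_div (by positivity), b8]
        have := mul_le_mul b7 b4 (by positivity) (le_trans (by positivity) b7)
        linarith
      linarith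
  unfold DH.cnt
  rw [← mul_one (((Icc 0 (T : ℤ)).filter (fun t : ℤ => V ≤ ‖DP n b t‖)).card : ℝ),
    ← nsmul_eq_mul]
  refine (card_nsmul_le_sum _ _ _ h1).trans ((sum_le_sum_of_subset_of_nonneg hsub
    fun t ht _ => add_nonneg (h0 t ht).1 (h0 t ht).2).trans ?_)
  rw [sum_add_distrib, ← sum_div, ← sum_div, ← mul_sum, ← sum_filter]
  exact add_le_add (div_le_div_of_nonneg_right hZ (by positivity)) le_rfl

theorem b6_stmt (hX : X6Stmt) (hB : BigStmt) (hM : MvStmt) : B6Stmt := by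
  intro ε hε
  obtain ⟨K1, hK1, h1⟩ := hX ε hε
  obtain ⟨K2, hK2, h2⟩ := hB (ε / 2) (by positivity)
  obtain ⟨K3, hK3, h3⟩ := hM ε hε
  obtain ⟨c, hc, hD⟩ := DH.exists_DivB (ε := ε / 24) (by positivity)
  obtain ⟨K4, hK4⟩ : ∃ K4 : ℝ, K4 = 2 * K2 * (c ^ 6 * ((2 : ℕ) : ℝ) ^ (6 * (ε / 24))) := ⟨_, rfl⟩
  have hK4' : 0 < K4 := by rw [hK4]; positivity
  refine ⟨K4 + 2 * K1 + 4 * K3, by positivity, fun n T V b hn hT hT3 hV hb => ?_⟩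
  have hT1 : 1 ≤ T := (Nat.one_le_pow _ _ hn).trans hT
  have hT0 : (0 : ℝ) < T := by exact_mod_cast hT1
  have hn0 : (0 : ℝ) < n := by exact_mod_cast hn
  obtain ⟨τ, hτ, hτ4, hτ3⟩ : ∃ τ : ℝ, 0 < τ ∧ τ ^ 4 = T ∧ τ ^ 3 = (T : ℝ) ^ (3 / 4 : ℝ) := by
    refine ⟨(T : ℝ) ^ (1 / 4 : ℝ), by positivity, ?_, ?_⟩
    · rw [← Real.rpow_natCast, ← Real.rpow_mul hT0.le]
      norm_num
    · rw [← Real.rpow_natCast, ← Real.rpow_mul hT0.le]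
      norm_num
  rw [← hτ3]
  have hP : 0 < (n : ℝ) ^ ε := by positivity
  have hA : 0 < (n : ℝ) ^ ε * ((n : ℝ) ^ 4 / V ^ 4) := by positivity
  have hB' : 0 < (n : ℝ) ^ ε * (τ ^ 3 * (n : ℝ) ^ 4 / V ^ 6) := by positivity
  have e0 : (K4 + 2 * K1 + 4 * K3) * (n : ℝ) ^ ε *
      ((n : ℝ) ^ 4 / V ^ 4 + τ ^ 3 * (n : ℝ) ^ 4 / V ^ 6) =
      (K4 + 2 * K1 + 4 * K3) * ((n : ℝ) ^ ε * ((n : ℝ) ^ 4 / V ^ 4)) +
        (K4 + 2 * K1 + 4 * K3) * ((n : ℝ) ^ ε * (τ ^ 3 * (n : ℝ) ^ 4 / V ^ 6)) := by ring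
  rw [e0]
  rcases le_or_gt (V ^ 2) (2 * ((n : ℝ) ^ 2 / τ)) with hs | hs
  · have a1 := (h3 n T V b hn hV hb.1).2.1
    have a2 : (n : ℝ) ^ 2 ≤ T := by exact_mod_cast hT
    have a3 : V ^ 2 * τ ≤ 2 * (n : ℝ) ^ 2 := by
      rw [← mul_div_assoc, le_div_iff₀ hτ] at hs
      exact hs
    have a4 : ((T : ℝ) + (n : ℝ) ^ 2) * (n : ℝ) ^ 2 / V ^ 4 ≤
        4 * (τ ^ 3 * (n : ℝ) ^ 4 / V ^ 6) := by
      rw [← mul_div_assoc, div_le_div_iff₀ (by positivity) (by positivity)]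
      calc ((T : ℝ) + (n : ℝ) ^ 2) * (n : ℝ) ^ 2 * V ^ 6
          ≤ (2 * τ ^ 4) * (n : ℝ) ^ 2 * V ^ 6 := by
            gcongr
            linarith
        _ = 2 * τ ^ 3 * (n : ℝ) ^ 2 * V ^ 4 * (V ^ 2 * τ) := by ring
        _ ≤ 2 * τ ^ 3 * (n : ℝ) ^ 2 * V ^ 4 * (2 * (n : ℝ) ^ 2) :=
            mul_le_mul_of_nonneg_left a3 (by positivity)
        _ = _ := by ring
    have a5 := a1.trans (mul_le_mul_of_nonneg_left a4 (by positivity))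
    have a6 : K3 * (n : ℝ) ^ ε * (4 * (τ ^ 3 * (n : ℝ) ^ 4 / V ^ 6)) =
        4 * K3 * ((n : ℝ) ^ ε * (τ ^ 3 * (n : ℝ) ^ 4 / V ^ 6)) := by ring
    rw [a6] at a5
    have a7 := mul_le_mul_of_nonneg_right
      (show 4 * K3 ≤ K4 + 2 * K1 + 4 * K3 by linarith) hB'.le
    have a8 : 0 ≤ (K4 + 2 * K1 + 4 * K3) * ((n : ℝ) ^ ε * ((n : ℝ) ^ 4 / V ^ 4)) := by positivity
    linarith
  · have hT4 : T ≤ n ^ 4 := by
      refine (Nat.pow_le_pow_iff_left (by norm_num : 3 ≠ 0)).1 (hT3.trans ?_)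
      rw [← pow_mul]
      exact Nat.pow_le_pow_right hn (by norm_num)
    have a1 := h1 n T τ b hn hT hT3 hτ hτ4 hb
    have a2 := h2 n T _ (τ * n) b hn hT hT4
      (hD (2 * n ^ 2) (Nat.mul_pos (by norm_num) (pow_pos hn 2))) (by positivity) hb
    have a3 : K2 * (n : ℝ) ^ (ε / 2) * (c * ((2 * n ^ 2 : ℕ) : ℝ) ^ (ε / 24)) ^ 6 *
        ((n : ℝ) ^ 4 + T * (n : ℝ) ^ 8 / (τ * n) ^ 4) = K4 * ((n : ℝ) ^ ε * (n : ℝ) ^ 4) := by
      have b1 : (T : ℝ) * (n : ℝ) ^ 8 / (τ * n) ^ 4 = (n : ℝ) ^ 4 := by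
        rw [mul_pow, hτ4]
        field_simp
      have b2 : (n : ℝ) ^ ε = (n : ℝ) ^ (ε / 2) * (n : ℝ) ^ (ε / 2) := by
        rw [← Real.rpow_add hn0]
        congr 1
        ring
      rw [pow_six_BSix, show 6 * ((2 : ℕ) : ℝ) * (ε / 24) = ε / 2 by push_cast; ring, b1, hK4, b2]
      ring
    rw [a3] at a2
    have a4 := cnt_le_BSix hT1 b hV hs a2
    have a5 : 2 * XX n T b (τ * n) ((n : ℝ) ^ 2 / τ) / V ^ 6 ≤
        2 * K1 * ((n : ℝ) ^ ε * (τ ^ 3 * (n : ℝ) ^ 4 / V ^ 6)) := by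
      refine (div_le_div_of_nonneg_right (mul_le_mul_of_nonneg_left a1 (by norm_num))
        (by positivity)).trans (le_of_eq ?_)
      ring
    have a6 : K4 * ((n : ℝ) ^ ε * (n : ℝ) ^ 4) / V ^ 4 =
        K4 * ((n : ℝ) ^ ε * ((n : ℝ) ^ 4 / V ^ 4)) := by ring
    rw [a6] at a4
    have a7 := mul_le_mul_of_nonneg_right
      (show 2 * K1 ≤ K4 + 2 * K1 + 4 * K3 by linarith) hB'.le
    have a8 := mul_le_mul_of_nonneg_right
      (show K4 ≤ K4 + 2 * K1 + 4 * K3 by linarith) hA.le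
    linarith

end Pool.Agent.MP_2a1f0e_nt.SQ

end

section

set_option autoImplicit false

open Finset

namespace Pool.Agent.MP_2a1f0e_nt.SQ

open GM GM2

theorem int6_stmt (hB : B6Stmt) (hM : MvStmt) (hC : CutStmt) : Int6Stmt := by
  intro ε hε
  obtain ⟨KB, KB0, hB⟩ := hB ε hε
  obtain ⟨KM, KM0, hM⟩ := hM ε hε
  have f0 : (0 : ℝ) < 5 ^ ε := by positivity
  refine ⟨2 * KM + 3 * (KB * 5 ^ ε * 11390625), by positivity, fun n T V b hn hV hb => ?_⟩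
  have n1 : (1 : ℝ) ≤ n := by exact_mod_cast hn
  have e0 : 0 < (n : ℝ) ^ ε := by positivity
  have t0 : (0 : ℝ) ≤ T := Nat.cast_nonneg T
  have u0 : 0 ≤ (T : ℝ) ^ (3 / 4 : ℝ) := by positivity
  have P0 : 0 ≤ (n : ℝ) ^ 4 / V ^ 4 := by positivity
  have Q0 : 0 ≤ (T : ℝ) ^ (3 / 4 : ℝ) * (n : ℝ) ^ 4 / V ^ 6 := by positivity
  have R0 : 0 ≤ T * (n : ℝ) ^ 3 / V ^ 6 := by positivity
  rw [add_div]
  have fin : ∀ K W : ℝ, K ≤ 2 * KM + 3 * (KB * 5 ^ ε * 11390625) → 0 ≤ W →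
      W ≤ (n : ℝ) ^ 4 / V ^ 4 + ((T : ℝ) ^ (3 / 4 : ℝ) * (n : ℝ) ^ 4 / V ^ 6 +
        T * (n : ℝ) ^ 3 / V ^ 6) → (DH.cnt n b T V : ℝ) ≤ K * (n : ℝ) ^ ε * W →
      (DH.cnt n b T V : ℝ) ≤ (2 * KM + 3 * (KB * 5 ^ ε * 11390625)) * (n : ℝ) ^ ε *
        ((n : ℝ) ^ 4 / V ^ 4 + ((T : ℝ) ^ (3 / 4 : ℝ) * (n : ℝ) ^ 4 / V ^ 6 +
          T * (n : ℝ) ^ 3 / V ^ 6)) := fun K W h1 h2 h3 h => h.trans (by gcongr)
  have k0 : 0 ≤ 3 * (KB * 5 ^ ε * 11390625) := by positivity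
  by_cases c1 : T ≤ n ^ 2
  · have c1' : (T : ℝ) ≤ (n : ℝ) ^ 2 := by exact_mod_cast c1
    refine fin (2 * KM) _ (by linarith) P0 (by linarith) ((hM n T V b hn hV hb).2.1.trans ?_)
    calc _ ≤ KM * (n : ℝ) ^ ε * (((n : ℝ) ^ 2 + (n : ℝ) ^ 2) * (n : ℝ) ^ 2 / V ^ 4) := by gcongr
      _ = _ := by ring
  by_cases c2 : n ^ 8 ≤ T ^ 3
  · have c2' : (n : ℝ) ^ 2 ≤ (T : ℝ) ^ (3 / 4 : ℝ) := by
      refine le_of_pow_le_pow_left₀ four_ne_zero u0 ?_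
      rw [← Real.rpow_mul_natCast t0, show (3 / 4 : ℝ) * (4 : ℕ) = (3 : ℕ) by norm_num,
        Real.rpow_natCast, ← pow_mul]
      exact_mod_cast c2
    refine fin KM _ (by linarith) (by positivity) ?_ (hM n T V b hn hV hb).2.2
    have : (n : ℝ) ^ 2 * (n : ℝ) ^ 4 / V ^ 6 ≤ (T : ℝ) ^ (3 / 4 : ℝ) * (n : ℝ) ^ 4 / V ^ 6 := by
      gcongr
    calc _ = (n : ℝ) ^ 2 * (n : ℝ) ^ 4 / V ^ 6 + T * (n : ℝ) ^ 3 / V ^ 6 := by ring
      _ ≤ _ := by linarith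
  obtain ⟨r, c, h1, h2⟩ := hC n b hn hb
  have key : ∀ j, (DH.cnt (r j) (c j) T (V / 3) : ℝ) ≤ KB * 5 ^ ε * 11390625 * (n : ℝ) ^ ε *
      ((n : ℝ) ^ 4 / V ^ 4 + (T : ℝ) ^ (3 / 4 : ℝ) * (n : ℝ) ^ 4 / V ^ 6) := by
    intro j
    obtain ⟨a1, a2, a3⟩ := h1 j
    generalize r j = ρ at *
    have ρ1 : 1 ≤ ρ := hn.trans a1
    have a2' : (ρ : ℝ) ≤ 5 * n := by exact_mod_cast a2
    have b1 : (max T (ρ ^ 2)) ^ 3 ≤ ρ ^ 8 := by
      rcases le_total T (ρ ^ 2) with h | h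
      · rw [max_eq_right h, ← pow_mul]
        exact pow_le_pow_right₀ ρ1 (by norm_num)
      · rw [max_eq_left h]
        exact (not_le.1 c2).le.trans (pow_le_pow_left₀ (Nat.zero_le _) a1 8)
    have b2 : max T (ρ ^ 2) ≤ 25 * T := max_le (by omega) (by
      have := pow_le_pow_left₀ (Nat.zero_le _) a2 2
      rw [mul_pow] at this
      omega)
    have b3 : ((max T (ρ ^ 2) : ℕ) : ℝ) ^ (3 / 4 : ℝ) ≤ 25 * (T : ℝ) ^ (3 / 4 : ℝ) := by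
      have b4 : ((max T (ρ ^ 2) : ℕ) : ℝ) ≤ 25 * T := by exact_mod_cast b2
      refine (Real.rpow_le_rpow (Nat.cast_nonneg _) b4 (by norm_num)).trans ?_
      rw [Real.mul_rpow (by norm_num) t0]
      gcongr
      exact (Real.rpow_le_rpow_of_exponent_le (by norm_num) (by norm_num)).trans
        (Real.rpow_one 25).le
    have b5 : (ρ : ℝ) ^ ε ≤ 5 ^ ε * (n : ℝ) ^ ε := by
      rw [← Real.mul_rpow (by norm_num) (by positivity)]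
      exact Real.rpow_le_rpow (Nat.cast_nonneg _) a2' hε.le
    have b6 := hB ρ _ (V / 3) (c j) ρ1 (le_max_right T _) b1 (by positivity) a3
    have b7 : (DH.cnt ρ (c j) T (V / 3) : ℝ) ≤ DH.cnt ρ (c j) (max T (ρ ^ 2)) (V / 3) :=
      Nat.cast_le.2 (DH.cnt_mono _ _ (le_max_left _ _) le_rfl)
    refine b7.trans (b6.trans ?_)
    calc _ ≤ KB * (5 ^ ε * (n : ℝ) ^ ε) * ((5 * n : ℝ) ^ 4 / (V / 3) ^ 4 +
          25 * (T : ℝ) ^ (3 / 4 : ℝ) * (5 * n : ℝ) ^ 4 / (V / 3) ^ 6) := by gcongr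
      _ = KB * 5 ^ ε * (n : ℝ) ^ ε * (50625 * ((n : ℝ) ^ 4 / V ^ 4) +
          11390625 * ((T : ℝ) ^ (3 / 4 : ℝ) * (n : ℝ) ^ 4 / V ^ 6)) := by
        field_simp
        ring
      _ ≤ KB * 5 ^ ε * (n : ℝ) ^ ε * (11390625 * ((n : ℝ) ^ 4 / V ^ 4) +
          11390625 * ((T : ℝ) ^ (3 / 4 : ℝ) * (n : ℝ) ^ 4 / V ^ 6)) := by
        gcongr
        norm_num
      _ = _ := by ring
  refine fin (3 * (KB * 5 ^ ε * 11390625)) _ (by linarith) (add_nonneg P0 Q0) (by linarith) ?_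
  have h3 : (DH.cnt n b T V : ℝ) ≤ ∑ j ∈ range 3, (DH.cnt (r j) (c j) T (V / 3) : ℝ) := by
    exact_mod_cast h2 T V
  simp only [sum_range_succ, range_zero, sum_empty, zero_add] at h3
  linarith [key 0, key 1, key 2]

theorem final6_stmt (hI : Int6Stmt) (hT : DH.TyStmt) : Final6Stmt := by
  intro ε hε
  obtain ⟨K, K0, hI⟩ := hI (ε / 2) (half_pos hε)
  obtain ⟨c, hc, h3⟩ := DH.exists_log_le (half_pos hε)
  refine ⟨2 + 12 * c * (K * 6 ^ 6), fun N T V hN hT1 hV b hb W w1 w2 w3 => ?_⟩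
  have n1 : (1 : ℝ) ≤ N := by exact_mod_cast hN
  have t0 : 0 ≤ T := by linarith
  have hf := Nat.floor_le t0
  have e1 : 1 ≤ (N : ℝ) ^ ε := Real.one_le_rpow n1 hε.le
  have c0 : 0 ≤ 12 * c * (K * 6 ^ 6) := by positivity
  have P0 : 0 ≤ (N : ℝ) ^ 4 / V ^ 4 := by positivity
  rcases le_total V 1 with hV1 | hV1
  · have h1 : W.card ≤ ⌊T⌋₊ + 1 := by
      rw [← card_image_of_injOn (f := Int.floor) fun s hs t ht e => by_contra fun h =>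
        (w2 s hs t ht h).not_gt (Int.abs_sub_lt_one_of_floor_eq_floor e)]
      refine (card_le_card (t := Icc 0 (⌊T⌋₊ : ℤ)) fun m hm => ?_).trans (by simp)
      obtain ⟨t, ht, rfl⟩ := mem_image.1 hm
      rw [Int.natCast_floor_eq_floor t0]
      exact mem_Icc.2 ⟨Int.floor_nonneg.2 (w1 t ht).1, Int.floor_le_floor (w1 t ht).2⟩
    have h2 : (W.card : ℝ) ≤ ⌊T⌋₊ + 1 := by exact_mod_cast h1
    have h4 : T ≤ (T ^ (3 / 4 : ℝ) * (N : ℝ) ^ 4 + T * (N : ℝ) ^ 3) / V ^ 6 := by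
      rw [le_div_iff₀ (by positivity)]
      have a1 : T * V ^ 6 ≤ T * (N : ℝ) ^ 3 :=
        mul_le_mul_of_nonneg_left ((pow_le_one₀ hV.le hV1).trans (one_le_pow₀ n1)) t0
      exact a1.trans (le_add_of_nonneg_left (by positivity))
    calc (W.card : ℝ) ≤ 2 * 1 * T := by linarith
      _ ≤ _ := by
        gcongr
        · linarith
        · linarith
  · have h4 : (⌊T⌋₊ : ℝ) ^ (3 / 4 : ℝ) ≤ T ^ (3 / 4 : ℝ) :=
      Real.rpow_le_rpow (Nat.cast_nonneg _) hf (by norm_num)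
    have hZ : ∀ b : ℕ → ℂ, (∀ n, ‖b n‖ ≤ 1) → (DH.cnt N b ⌊T⌋₊ (V / 6) : ℝ) ≤
        K * 6 ^ 6 * ((N : ℝ) ^ (ε / 2) * ((N : ℝ) ^ 4 / V ^ 4 +
          (T ^ (3 / 4 : ℝ) * (N : ℝ) ^ 4 + T * (N : ℝ) ^ 3) / V ^ 6)) := fun b hb => by
      refine (hI N _ _ b hN (by positivity) hb).trans ?_
      calc _ ≤ K * (N : ℝ) ^ (ε / 2) * ((N : ℝ) ^ 4 / (V / 6) ^ 4 +
            (T ^ (3 / 4 : ℝ) * (N : ℝ) ^ 4 + T * (N : ℝ) ^ 3) / (V / 6) ^ 6) := by gcongr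
        _ = K * (N : ℝ) ^ (ε / 2) * (6 ^ 4 * ((N : ℝ) ^ 4 / V ^ 4) +
            6 ^ 6 * ((T ^ (3 / 4 : ℝ) * (N : ℝ) ^ 4 + T * (N : ℝ) ^ 3) / V ^ 6)) := by
          field_simp
        _ ≤ K * (N : ℝ) ^ (ε / 2) * (6 ^ 6 * ((N : ℝ) ^ 4 / V ^ 4) +
            6 ^ 6 * ((T ^ (3 / 4 : ℝ) * (N : ℝ) ^ 4 + T * (N : ℝ) ^ 3) / V ^ 6)) := by
          gcongr <;> norm_num
        _ = _ := by ring
    have hY : (N : ℝ) + 1 ≤ 2 ^ (Nat.log 2 N + 1) * V := by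
      have : N + 1 ≤ 2 ^ (Nat.log 2 N + 1) := Nat.lt_pow_succ_log_self one_lt_two N
      exact le_trans (by exact_mod_cast this) (le_mul_of_one_le_right (by positivity) hV1)
    refine (DH.red_LV hT hN hV hY hZ hb w1 w2 w3).trans ?_
    have h9 := h3 N hN
    have h10 : (0 : ℝ) ≤ Nat.log 2 N := Nat.cast_nonneg _
    have F0 : 0 ≤ (N : ℝ) ^ 4 / V ^ 4 +
        (T ^ (3 / 4 : ℝ) * (N : ℝ) ^ 4 + T * (N : ℝ) ^ 3) / V ^ 6 := by positivity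
    generalize (N : ℝ) ^ 4 / V ^ 4 +
        (T ^ (3 / 4 : ℝ) * (N : ℝ) ^ 4 + T * (N : ℝ) ^ 3) / V ^ 6 = F at *
    calc _ ≤ (12 * (c * (N : ℝ) ^ (ε / 2))) * (K * 6 ^ 6 * ((N : ℝ) ^ (ε / 2) * F)) := by
          gcongr
          push_cast
          linarith
      _ = 12 * c * (K * 6 ^ 6) * ((N : ℝ) ^ (ε / 2) * (N : ℝ) ^ (ε / 2)) * F := by ring
      _ = 12 * c * (K * 6 ^ 6) * (N : ℝ) ^ ε * F := by
          rw [← Real.rpow_add (by linarith), add_halves]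
      _ ≤ _ := by
          gcongr
          linarith

end Pool.Agent.MP_2a1f0e_nt.SQ

end

section

set_option autoImplicit false

open Finset

namespace Pool.Agent.MP_2a1f0e_nt.SQ

open GM GM2

lemma pc_Hi9 (k j N : ℕ) (hj : j ≤ k) {δ : ℝ} (hδ : 0 < δ) :
    ((2 ^ j * N ^ k : ℕ) : ℝ) ^ δ ≤ ((2 : ℝ) ^ δ) ^ k * ((N : ℝ) ^ δ) ^ k := by
  have h1 : ((2 ^ j * N ^ k : ℕ) : ℝ) ≤ 2 ^ k * (N : ℝ) ^ k := by
    push_cast
    exact mul_le_mul_of_nonneg_right (pow_le_pow_right₀ one_le_two hj) (by positivity)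
  refine (Real.rpow_le_rpow (Nat.cast_nonneg _) h1 hδ.le).trans_eq ?_
  rw [Real.mul_rpow (by positivity) (by positivity), Real.rpow_pow_comm (by positivity),
    Real.rpow_pow_comm (by positivity)]

lemma split_Hi9 (k : ℕ) {δ : ℝ} (hδ : 0 < δ) : ∃ C : ℝ, 1 ≤ C ∧ ∀ N : ℕ, 1 ≤ N → ∀ V : ℝ, 0 < V →
    ∀ b : ℕ → ℂ, (∀ n, ‖b n‖ ≤ 1) → ∃ c : ℕ → ℕ → ℂ, (∀ j n, ‖c j n‖ ≤ 1) ∧ ∀ T,
      DH.cnt N b T V ≤ ∑ j ∈ range (k + 1), DH.cnt (2 ^ j * N ^ k) (c j) T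
        (V ^ k / ((k + 1) * (C * ((N : ℝ) ^ δ) ^ (k * k)))) := by
  obtain ⟨c0, hc0, hdiv⟩ := DH.exists_DivB hδ
  have h2 : (1 : ℝ) ≤ (2 : ℝ) ^ δ := Real.one_le_rpow one_le_two hδ.le
  have hC : 1 ≤ (c0 * ((2 : ℝ) ^ δ) ^ k) ^ k :=
    one_le_pow₀ (one_le_mul_of_one_le_of_one_le hc0 (one_le_pow₀ h2))
  refine ⟨(c0 * ((2 : ℝ) ^ δ) ^ k) ^ k, hC, fun N hN V hV b hb => ?_⟩
  have hN0 : (0 : ℝ) < N := by exact_mod_cast hN
  obtain ⟨d1, d2⟩ := hdiv (2 ^ k * N ^ k) (Nat.succ_le_of_lt (by positivity))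
  refine DH.split_Pow hN b k (by positivity) hV fun n => ?_
  by_cases hn : n ≤ 2 ^ k * N ^ k
  · refine (tr_pow_norm N b k n).trans ((tr_pow_le N b hb d1 d2 k n hn).trans ?_)
    refine (pow_le_pow_left₀ (by linarith) (mul_le_mul_of_nonneg_left (pc_Hi9 k k N le_rfl hδ)
      (by linarith)) k).trans_eq ?_
    rw [← mul_assoc, mul_pow _ (((N : ℝ) ^ δ) ^ k), ← pow_mul]
  · rw [tr_pow_supp N b k n fun h => hn ((mem_Icc.1 h).2.trans_eq (mul_pow 2 N k)), norm_zero]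
    positivity

lemma sum_Hi9 {k a : ℕ} {f : ℕ → ℕ} {B : ℝ} (h : a ≤ ∑ j ∈ range (k + 1), f j)
    (hf : ∀ j ≤ k, (f j : ℝ) ≤ B) : (a : ℝ) ≤ (k + 1) * B := by
  refine le_trans (Nat.cast_le.2 h) ?_
  rw [Nat.cast_sum]
  refine (sum_le_card_nsmul _ _ B fun j hj => hf j (Nat.lt_succ_iff.1 (mem_range.1 hj))).trans_eq ?_
  rw [card_range, nsmul_eq_mul, Nat.cast_succ]

lemma main_Hi9 {k N T : ℕ} (hN : 1 ≤ N) (h : N ^ (8 * k) ≤ T ^ 9) {σ lam V : ℝ} (hσ : σ ≤ 1)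
    (hNV : (N : ℝ) ^ σ ≤ lam * V) :
    (N : ℝ) ^ (2 * k) ≤ lam ^ (2 * k) * V ^ (2 * k) * (T : ℝ) ^ (9 / 4 * (1 - σ)) := by
  have hN0 : (0 : ℝ) < N := by exact_mod_cast hN
  have hT0 : (0 : ℝ) ≤ T := Nat.cast_nonneg T
  have h1 : (N : ℝ) ^ (2 * k) ≤ (T : ℝ) ^ (9 / 4 : ℝ) := by
    refine le_of_pow_le_pow_left₀ (n := 4) (by norm_num) (by positivity) ?_
    rw [← pow_mul, ← Real.rpow_mul_natCast hT0,
      show (9 / 4 : ℝ) * ((4 : ℕ) : ℝ) = ((9 : ℕ) : ℝ) by norm_num, Real.rpow_natCast,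
      show 2 * k * 4 = 8 * k by ring]
    exact_mod_cast h
  have h2 : ((N : ℝ) ^ (2 * k)) ^ (1 - σ) ≤ (T : ℝ) ^ (9 / 4 * (1 - σ)) := by
    rw [Real.rpow_mul hT0]
    exact Real.rpow_le_rpow (by positivity) h1 (by linarith)
  have h3 : ((N : ℝ) ^ (2 * k)) ^ σ ≤ lam ^ (2 * k) * V ^ (2 * k) := by
    rw [← Real.rpow_pow_comm hN0.le, ← mul_pow]
    exact pow_le_pow_left₀ (by positivity) hNV _
  have h4 : (N : ℝ) ^ (2 * k) = ((N : ℝ) ^ (2 * k)) ^ σ * ((N : ℝ) ^ (2 * k)) ^ (1 - σ) := by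
    rw [← Real.rpow_add (by positivity), add_sub_cancel, Real.rpow_one]
  rw [h4]
  exact mul_le_mul h3 h2 (by positivity) (le_trans (by positivity) h3)

theorem mvk9_stmt (hM : MvStmt) : Mvk9Stmt := by
  intro k ε hk hε
  have hk0 : (0 : ℝ) < k := by exact_mod_cast hk
  obtain ⟨δ, hδ, hδε⟩ : ∃ δ : ℝ, 0 < δ ∧ δ * ((k + k * k * 2 : ℕ) : ℝ) = ε :=
    ⟨ε / ((k + k * k * 2 : ℕ) : ℝ), by positivity, by
      have : (0 : ℝ) < ((k + k * k * 2 : ℕ) : ℝ) := by push_cast; positivity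
      field_simp⟩
  obtain ⟨K, hK, hM⟩ := hM δ hδ
  obtain ⟨C, hC, hsp⟩ := split_Hi9 k hδ
  refine ⟨(k + 1) * (K * ((2 : ℝ) ^ δ) ^ k * (2 * (2 ^ k) ^ 2 * ((k + 1) * C) ^ 2)),
    by positivity, ?_⟩
  intro N T hN hT1 hT2 σ lam V hσ hlam hV hNV b hb
  obtain ⟨c, hc, hcnt⟩ := hsp N hN V hV b hb
  have hN0 : (0 : ℝ) < N := by exact_mod_cast hN
  have hm := main_Hi9 hN hT2 hσ hNV
  have hε' : (N : ℝ) ^ ε = ((N : ℝ) ^ δ) ^ (k + k * k * 2) := by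
    rw [← hδε, Real.rpow_mul_natCast hN0.le]
  obtain ⟨u, hu⟩ : ∃ u : ℝ, u = (N : ℝ) ^ δ := ⟨_, rfl⟩
  have hu0 : 0 < u := by rw [hu]; positivity
  obtain ⟨P, hP⟩ : ∃ P : ℝ, P = (T : ℝ) ^ (9 / 4 * (1 - σ)) := ⟨_, rfl⟩
  have hP0 : 0 ≤ P := by rw [hP]; positivity
  rw [hε', ← hu, ← hP]
  rw [← hu] at hcnt
  rw [← hP] at hm
  refine (sum_Hi9 (B := K * (((2 : ℝ) ^ δ) ^ k * u ^ k) * (2 * (2 ^ k) ^ 2 *
    (lam ^ (2 * k) * P) * ((k + 1) * (C * u ^ (k * k))) ^ 2)) (hcnt T)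
    fun j hj => ?_).trans_eq (by ring)
  have hM1 : 1 ≤ 2 ^ j * N ^ k := Nat.succ_le_of_lt (by positivity)
  refine (hM _ T _ (c j) hM1 (by positivity) (hc j)).1.trans ?_
  have a1 := pc_Hi9 k j N hj hδ
  rw [← hu] at a1
  have a2 : ((2 ^ j * N ^ k : ℕ) : ℝ) ≤ 2 ^ k * (N : ℝ) ^ k := by
    push_cast
    exact mul_le_mul_of_nonneg_right (pow_le_pow_right₀ one_le_two hj) (by positivity)
  have a3 : (T : ℝ) ≤ 2 ^ k * (N : ℝ) ^ k :=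
    le_trans (by exact_mod_cast hT1) (le_mul_of_one_le_left (by positivity)
      (one_le_pow₀ one_le_two))
  have a4 : ((T : ℝ) + ((2 ^ j * N ^ k : ℕ) : ℝ)) * ((2 ^ j * N ^ k : ℕ) : ℝ) ≤
      2 * (2 ^ k) ^ 2 * (lam ^ (2 * k) * V ^ (2 * k) * P) := by
    calc _ ≤ (2 ^ k * (N : ℝ) ^ k + 2 ^ k * (N : ℝ) ^ k) * (2 ^ k * (N : ℝ) ^ k) := by gcongr
      _ = 2 * (2 ^ k) ^ 2 * (N : ℝ) ^ (2 * k) := by ring
      _ ≤ _ := by gcongr
  refine mul_le_mul (mul_le_mul_of_nonneg_left a1 hK.le) ?_ (by positivity) (by positivity)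
  rw [div_le_iff₀ (by positivity)]
  refine a4.trans_eq ?_
  field_simp
  ring

theorem hi9_stmt (h1 : One9Stmt) : Hi9Stmt := by
  intro k ε hk hε
  have hk0 : (0 : ℝ) < k := by exact_mod_cast hk
  obtain ⟨δ, hδ, hδε⟩ : ∃ δ : ℝ, 0 < δ ∧ δ * ((k + k * k * 4 : ℕ) : ℝ) = ε :=
    ⟨ε / ((k + k * k * 4 : ℕ) : ℝ), by positivity, by
      have : (0 : ℝ) < ((k + k * k * 4 : ℕ) : ℝ) := by push_cast; positivity
      field_simp⟩
  obtain ⟨K, hK, h1⟩ := h1 δ hδ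
  obtain ⟨C, hC, hsp⟩ := split_Hi9 k hδ
  refine ⟨(k + 1) * (K * ((2 : ℝ) ^ δ) ^ k * (2 ^ k * (k + 1) * C) ^ 4 * (2 ^ k) ^ 2),
    by positivity, ?_⟩
  intro N T hN hT1 hT2 σ lam V hσ hσ1 hlam hV hNV b hb
  obtain ⟨c, hc, hcnt⟩ := hsp N hN V hV b hb
  have hN0 : (0 : ℝ) < N := by exact_mod_cast hN
  have hε' : (N : ℝ) ^ ε = ((N : ℝ) ^ δ) ^ (k + k * k * 4) := by
    rw [← hδε, Real.rpow_mul_natCast hN0.le]
  obtain ⟨u, hu⟩ : ∃ u : ℝ, u = (N : ℝ) ^ δ := ⟨_, rfl⟩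
  have hu1 : 1 ≤ u := by
    rw [hu]
    exact Real.one_le_rpow (by exact_mod_cast hN) hδ.le
  have hu0 : 0 < u := by linarith
  rw [hε', ← hu]
  rw [← hu] at hcnt
  obtain ⟨D, hD⟩ : ∃ D : ℝ, D = C * u ^ (k * k) := ⟨_, rfl⟩
  have hD1 : 1 ≤ D := hD ▸ one_le_mul_of_one_le_of_one_le hC (one_le_pow₀ hu1)
  rw [← hD] at hcnt
  have hlam' : 1 ≤ 2 ^ k * (k + 1) * D * lam ^ k :=
    one_le_mul_of_one_le_of_one_le (one_le_mul_of_one_le_of_one_le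
      (one_le_mul_of_one_le_of_one_le (one_le_pow₀ one_le_two)
        (le_add_of_nonneg_left (Nat.cast_nonneg k))) hD1) (one_le_pow₀ hlam)
  refine (sum_Hi9 (B := K * (((2 : ℝ) ^ δ) ^ k * u ^ k) * (2 ^ k * (k + 1) * D * lam ^ k) ^ 4 *
    ((2 ^ k) ^ 2 * (T : ℝ) ^ (9 / 4 * (1 - σ)))) (hcnt T) fun j hj => ?_).trans_eq
    (by rw [hD]; ring)
  have hM : 1 ≤ 2 ^ j * N ^ k := Nat.succ_le_of_lt (by positivity)
  have b1 : max T (2 ^ j * N ^ k) ^ 5 ≤ (2 ^ j * N ^ k) ^ 6 := by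
    rcases le_total T (2 ^ j * N ^ k) with h | h
    · rw [max_eq_right h]
      exact Nat.pow_le_pow_right hM (by norm_num)
    · rw [max_eq_left h]
      refine hT2.trans (le_trans ?_
        (Nat.pow_le_pow_left (Nat.le_mul_of_pos_left (N ^ k) (by positivity)) 6))
      rw [← pow_mul, mul_comm]
  have b2 : ((2 ^ j * N ^ k : ℕ) : ℝ) ^ σ ≤
      2 ^ k * (k + 1) * D * lam ^ k * (V ^ k / ((k + 1) * D)) := by
    have a1 : ((2 : ℝ) ^ j) ^ σ ≤ 2 ^ k := by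
      refine (Real.rpow_le_rpow_of_exponent_le (one_le_pow₀ one_le_two) hσ1).trans ?_
      rw [Real.rpow_one]
      exact pow_le_pow_right₀ one_le_two hj
    have a2 : ((N : ℝ) ^ k) ^ σ ≤ lam ^ k * V ^ k := by
      rw [← Real.rpow_pow_comm hN0.le, ← mul_pow]
      exact pow_le_pow_left₀ (by positivity) hNV k
    push_cast
    rw [Real.mul_rpow (by positivity) (by positivity)]
    refine (mul_le_mul a1 a2 (by positivity) (by positivity)).trans_eq ?_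
    field_simp
  refine le_trans (Nat.cast_le.2 (DH.cnt_mono _ _ (le_max_left T _) le_rfl))
    ((h1 _ _ hM (le_max_right _ _) b1 σ _ _ hσ hσ1 hlam' (by positivity) b2 _ (hc j)).trans ?_)
  have a1 := pc_Hi9 k j N hj hδ
  rw [← hu] at a1
  have a2 : ((max T (2 ^ j * N ^ k) : ℕ) : ℝ) ≤ 2 ^ k * (T : ℝ) := by
    have : max T (2 ^ j * N ^ k) ≤ 2 ^ k * T :=
      max_le (Nat.le_mul_of_pos_left T (by positivity))
        (Nat.mul_le_mul (Nat.pow_le_pow_right two_pos hj) hT1)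
    exact_mod_cast this
  have a3 : ((max T (2 ^ j * N ^ k) : ℕ) : ℝ) ^ (9 / 4 * (1 - σ)) ≤
      (2 ^ k) ^ 2 * (T : ℝ) ^ (9 / 4 * (1 - σ)) := by
    refine (Real.rpow_le_rpow (Nat.cast_nonneg _) a2 (by linarith)).trans ?_
    rw [Real.mul_rpow (by positivity) (Nat.cast_nonneg T)]
    refine mul_le_mul_of_nonneg_right ?_ (by positivity)
    refine (Real.rpow_le_rpow_of_exponent_le (one_le_pow₀ one_le_two)
      (z := ((2 : ℕ) : ℝ)) (by push_cast; linarith)).trans_eq (Real.rpow_natCast _ 2)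
  exact mul_le_mul (mul_le_mul_of_nonneg_right (mul_le_mul_of_nonneg_left a1 hK.le)
    (by positivity)) a3 (by positivity) (by positivity)

end Pool.Agent.MP_2a1f0e_nt.SQ

end

section

set_option autoImplicit false
open Finset
namespace Pool.Agent.MP_2a1f0e_nt.SQ
open GM GM2

lemma key_Pow9 {K K' x lam y : ℝ} {j a : ℕ} (hK : 0 < K) (h : K ≤ K') (hx : 0 ≤ x) (hy : 0 ≤ y)
    (hl : 1 ≤ lam) (hj : j ≤ a) : K * x * lam ^ j * y ≤ K' * lam ^ a * x * y := by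
  have h1 := pow_le_pow_right₀ hl hj
  have h2 : 0 < lam := by linarith
  have h3 : 0 < K' := hK.trans_le h
  calc K * x * lam ^ j * y ≤ K' * x * lam ^ a * y := by gcongr
    _ = _ := by ring

theorem pow9_stmt (h2 : Two9Stmt) (hM : Mvk9Stmt) (hH : Hi9Stmt) : Pow9Stmt := by
  intro A
  obtain ⟨k0, hk0⟩ := exists_nat_ge A
  refine ⟨4 * k0 + 8, fun ε hε => ?_⟩
  obtain ⟨K2, hK2, h2⟩ := h2 ε hε
  choose KM hKM hM using fun k => hM (k + 1) ε (Nat.le_add_left 1 k) hε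
  choose KH hKH hH using fun k => hH (k + 1) ε (Nat.le_add_left 1 k) hε
  have hp : ∀ k ∈ range (k0 + 1), 0 ≤ KM k + KH k := fun k _ => (add_pos (hKM k) (hKH k)).le
  have hS := sum_nonneg hp
  have hle : ∀ k ≤ k0, KM k + KH k ≤ ∑ k ∈ range (k0 + 1), (KM k + KH k) := fun k hk =>
    single_le_sum hp (mem_range.2 (Nat.lt_succ_of_le hk))
  refine ⟨K2 + ∑ k ∈ range (k0 + 1), (KM k + KH k), by linarith, ?_⟩
  intro N T hN hNT hTA σ lam V hσ hσ1 hlam hV hNV b hb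
  have hx : 0 ≤ (N : ℝ) ^ ε := by positivity
  have hy : 0 ≤ (T : ℝ) ^ (9 / 4 * (1 - σ)) := by positivity
  have cM : ∀ k ≤ k0, T ≤ N ^ (k + 1) → N ^ (8 * (k + 1)) ≤ T ^ 9 → (DH.cnt N b T V : ℝ) ≤
      (K2 + ∑ k ∈ range (k0 + 1), (KM k + KH k)) * lam ^ (4 * k0 + 8) * (N : ℝ) ^ ε *
        (T : ℝ) ^ (9 / 4 * (1 - σ)) := fun k hk a1 a2 =>
    (hM k N T hN a1 a2 σ lam V hσ1 hlam hV hNV b hb).trans
      (key_Pow9 (hKM k) (by linarith [hle k hk, hKH k]) hx hy hlam (by omega))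
  rcases hN.eq_or_lt with rfl | hN2
  · rw [Nat.cast_one, Real.one_rpow] at hTA
    exact cM 0 (Nat.zero_le _) (by exact_mod_cast hTA) (by simpa using hNT)
  have hT0 : T ≠ 0 := by
    rintro rfl
    exact absurd hNT (not_le.2 (Nat.pow_pos hN))
  obtain ⟨k, hk⟩ : ∃ k, k = Nat.log N T := ⟨_, rfl⟩
  have k1 : N ^ k ≤ T := hk ▸ Nat.pow_log_le_self N hT0
  have k2 : T < N ^ (k + 1) := hk ▸ Nat.lt_pow_succ_log_self hN2 T
  have hN1 : (1 : ℝ) ≤ N := by exact_mod_cast hN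
  have k4 : k ≤ k0 := by
    have h1 : (T : ℝ) ≤ (N : ℝ) ^ k0 := by
      rw [← Real.rpow_natCast]
      exact hTA.trans (Real.rpow_le_rpow_of_exponent_le hN1 hk0)
    exact (Nat.pow_le_pow_iff_right hN2).1 (k1.trans (by exact_mod_cast h1))
  by_cases c : N ^ (8 * (k + 1)) ≤ T ^ 9
  · exact cM k k4 k2.le c
  rw [not_le] at c
  have k3 : 2 ≤ k := by
    have := (Nat.pow_lt_pow_iff_right hN2).1 (hNT.trans_lt c)
    omega
  rcases k3.eq_or_lt with rfl | k5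
  · refine (h2 N T hN k1 ?_ σ lam V hσ hσ1 hlam hV hNV b hb).trans
      (key_Pow9 hK2 (by linarith) hx hy hlam (by omega))
    refine (Nat.pow_le_pow_iff_left (n := 3) (by norm_num)).1 ?_
    rw [← pow_mul, ← pow_mul]
    exact c.le
  obtain ⟨m, rfl⟩ : ∃ m, k = m + 1 := ⟨k - 1, by omega⟩
  refine (hH m N T hN k1 ?_ σ lam V hσ hσ1 hlam hV hNV b hb).trans
    (key_Pow9 (hKH m) (by linarith [hle m (by omega), hKM m]) hx hy hlam (by omega))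
  refine (Nat.pow_le_pow_iff_left (n := 9) (by norm_num)).1 ?_
  rw [← pow_mul, mul_comm 5, pow_mul, ← pow_mul N]
  refine (Nat.pow_le_pow_left c.le 5).trans ?_
  rw [← pow_mul]
  exact Nat.pow_le_pow_right hN (by omega)

theorem lvp9_stmt (h : Pow9Stmt) : Pool.Agent.MP_c853c5_nt.Z.LvP (9 / 4) := by
  intro η hη hη1
  obtain ⟨a, h⟩ := h (7 / η)
  refine ⟨a, fun ε hε => ?_⟩
  obtain ⟨K, hK, h⟩ := h ε hε
  refine ⟨K * 6 ^ ε * 36 ^ 2, by positivity, ?_⟩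
  intro N T σ lam V b hT h1 h2 hσ hσ1 hlam hV hNV hb
  have hx : (2 : ℝ) ≤ T := by exact_mod_cast hT
  have hx1 : (1 : ℝ) ≤ T := by linarith
  have hx0 : (0 : ℝ) < T := by linarith
  have hN : (1 : ℝ) ≤ N := (Real.one_le_rpow hx1 hη.le).trans h1
  have a1 : ((36 * T : ℕ) : ℝ) ≤ (N : ℝ) ^ (7 / η) := by
    have e : ((T : ℝ) ^ η) ^ (7 / η) = (T : ℝ) ^ 7 := by
      rw [← Real.rpow_mul hx0.le, mul_div_cancel₀ _ hη.ne', ← Real.rpow_natCast]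
      norm_num
    have h3 : ((T : ℝ) ^ η) ^ (7 / η) ≤ (N : ℝ) ^ (7 / η) :=
      Real.rpow_le_rpow (by positivity) h1 (by positivity)
    have h4 : (2 : ℝ) ^ 6 * T ≤ (T : ℝ) ^ 7 := by
      rw [pow_succ (T : ℝ) 6]
      gcongr
    rw [e] at h3
    push_cast
    linarith
  have a2 : N ^ 16 ≤ (36 * T) ^ 9 := by
    have h3 : ((T : ℝ) ^ (1 / 2 + η)) ^ 16 ≤ (T : ℝ) ^ 9 := by
      rw [← Real.rpow_natCast, ← Real.rpow_mul hx0.le, ← Real.rpow_natCast]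
      exact Real.rpow_le_rpow_of_exponent_le hx1 (by push_cast; linarith)
    have h4 : (N : ℝ) ^ 16 ≤ (36 * T) ^ 9 := by
      calc (N : ℝ) ^ 16 ≤ (6 * (T : ℝ) ^ (1 / 2 + η)) ^ 16 := by gcongr
        _ = 6 ^ 16 * ((T : ℝ) ^ (1 / 2 + η)) ^ 16 := mul_pow _ _ _
        _ ≤ 36 ^ 9 * (T : ℝ) ^ 9 := mul_le_mul (by norm_num) h3 (by positivity) (by positivity)
        _ = _ := (mul_pow _ _ _).symm
    exact_mod_cast h4
  have a3 : (N : ℝ) ^ ε ≤ 6 ^ ε * (T : ℝ) ^ ε := by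
    rw [← Real.mul_rpow (by norm_num) hx0.le]
    refine Real.rpow_le_rpow (by linarith) (h2.trans ?_) hε.le
    have := Real.rpow_le_rpow_of_exponent_le hx1 (show 1 / 2 + η ≤ 1 by linarith)
    rw [Real.rpow_one] at this
    linarith
  have a4 : ((36 * T : ℕ) : ℝ) ^ (9 / 4 * (1 - σ)) ≤ 36 ^ 2 * (T : ℝ) ^ (9 / 4 * (1 - σ)) := by
    push_cast
    rw [Real.mul_rpow (by norm_num) hx0.le, ← Real.rpow_two]
    exact mul_le_mul_of_nonneg_right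
      (Real.rpow_le_rpow_of_exponent_le (by norm_num) (by linarith)) (by positivity)
  have a5 : (DH.cnt N b (2 * T) V : ℝ) ≤ DH.cnt N b (36 * T) V := by
    exact_mod_cast DH.cnt_mono N b (by omega) le_rfl
  have hl : 0 < lam := by linarith
  refine a5.trans ((h N (36 * T) (by exact_mod_cast hN) a2 a1 σ lam V hσ hσ1 hlam hV hNV b
    hb).trans ?_)
  rw [Real.rpow_add hx0]
  calc K * lam ^ a * (N : ℝ) ^ ε * ((36 * T : ℕ) : ℝ) ^ (9 / 4 * (1 - σ))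
      ≤ K * lam ^ a * (6 ^ ε * (T : ℝ) ^ ε) * (36 ^ 2 * (T : ℝ) ^ (9 / 4 * (1 - σ))) := by gcongr
    _ = _ := by ring

end Pool.Agent.MP_2a1f0e_nt.SQ

end

section

set_option autoImplicit false

namespace Pool.Agent.MP_2a1f0e_nt.SQ

open GM

theorem qs_all : QsStmt :=
  qs_stmt (GM2.three3_stmt rad_stmt) (GM2.tri2_stmt phMaj_stmt pair_all) par_stmt

theorem ft_all : FtStmt := ft_stmt triang_stmt

theorem sp_all : SpStmt :=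
  sp_stmt (two_stmt rad_stmt phMaj_stmt) (pts_stmt triang_stmt pt_all) rho_all

theorem big_all : BigStmt := big_stmt sqc_stmt b2_all blk_stmt

theorem core6_all : Core6Stmt :=
  core6_stmt sos_stmt qs_all sqc_stmt (d1_stmt card_stmt)
    (d2_stmt ft_all (sup_stmt fe_stmt) (lone_stmt fe_stmt) par_stmt)
    (d3_stmt ft_all (row_stmt fe_stmt) sch_stmt dual_stmt sqc_stmt)

theorem x6_all : X6Stmt := x6_stmt setup_all sp_all big_all core6_all num6_stmt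

theorem mv_all : MvStmt := mv_stmt GM2.mom_stmt

theorem b6_all : B6Stmt := b6_stmt x6_all big_all mv_all

theorem int6_all : Int6Stmt := int6_stmt b6_all mv_all cut_stmt

theorem final6_all : Final6Stmt := final6_stmt int6_all DH.ty_stmt

theorem pow9_all : Pow9Stmt :=
  pow9_stmt (two9_stmt int6_all mv_all) (mvk9_stmt mv_all) (hi9_stmt (one9_stmt b1_all mv_all))

theorem lvp9_all : Pool.Agent.MP_c853c5_nt.Z.LvP (9 / 4) := lvp9_stmt pow9_all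

end Pool.Agent.MP_2a1f0e_nt.SQ

end
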