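import Pool.Agent.MP_2a1f0e_nt.GM2.Defs
import Pool.Agent.MP_2a1f0e_nt.DH.Basic
import Pool.Agent.MP_2a1f0e_nt.GM.Cub
import Pool.Agent.MP_2a1f0e_nt.GM.Pt
import Pool.Agent.Mg.C853.G3e49c7

section

set_option autoImplicit false

open Finset

namespace Pool.Agent.MP_2a1f0e_nt.SQ

open GM GM2

/-- triangular weight -/
noncomputable def tri (L : ℕ) (t : ℤ) : ℝ := ((L : ℝ) - |(t : ℝ)|) / L

/-- Fejer kernel, the transform of the triangular weight -/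
noncomputable def Fe (L : ℕ) (v : ℝ) : ℝ := ‖gs L (Real.log v / (2 * Real.pi))‖ ^ 2 / L

def Pr (n : ℕ) : Finset (ℕ × ℕ) := Icc n (2 * n) ×ˢ Icc n (2 * n)

/-- pairs with small greatest common divisor -/
def Plo (n g : ℕ) : Finset (ℕ × ℕ) := (Pr n).filter fun p => Nat.gcd p.1 p.2 ≤ g

/-- pairs with large greatest common divisor -/
def Phi (n g : ℕ) : Finset (ℕ × ℕ) := (Pr n).filter fun p => g < Nat.gcd p.1 p.2

/-- contains the support of `Wt (k / N)` -/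
def Rg (N : ℕ) : Finset ℕ := (Icc 1 (3 * N)).filter fun k => 3 * N ≤ 4 * k

/-- part of the expansion of `|D|^2` -/
noncomputable def FP (P : Finset (ℕ × ℕ)) (b : ℕ → ℂ) (t : ℝ) : ℂ :=
  ∑ p ∈ P, b p.1 * (starRingEnd ℂ) (b p.2) * pw ((p.1 : ℝ) / p.2) t

noncomputable def wP (L : ℕ) (P : Finset (ℕ × ℕ)) (b : ℕ → ℂ) (t : ℤ) : ℝ :=
  tri L t * (FP P b t).re

/-- bounded coefficients supported in `a ≤ 7 n / 5` -/
def Adm (n : ℕ) (b : ℕ → ℂ) : Prop := (∀ a, ‖b a‖ ≤ 1) ∧ ∀ a, 7 * n < 5 * a → b a = 0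

/-- coefficients of the square -/
noncomputable def sqc (n : ℕ) (b : ℕ → ℂ) (k : ℕ) : ℂ :=
  ∑ p ∈ (Pr n).filter (fun p => p.1 * p.2 = k), b p.1 * b p.2

noncomputable def al (N : ℕ) (β : ℕ → ℂ) (s : Finset ℤ) (g : ℤ → ℝ) (k : ℕ) : ℂ :=
  ∑ t ∈ s, (g t : ℂ) * DP N β t * pw (k : ℝ) (-(t : ℝ))

/-- weighted square norm -/
noncomputable def NW (N : ℕ) (x : ℕ → ℂ) : ℝ :=
  ∑ k ∈ Icc 1 (3 * N), Wt ((k : ℝ) / N) * ‖x k‖ ^ 2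

noncomputable def nu (n T : ℕ) (b : ℕ → ℂ) (t : ℤ) : ℝ := tri (2 * T) t * ‖DP n b t‖ ^ 2

/-- middle values -/
noncomputable def ww (n T : ℕ) (b : ℕ → ℂ) (U u : ℝ) (t : ℤ) : ℝ :=
  if ‖DP n b t‖ ^ 2 ≤ U ∧ u < nu n T b t then nu n T b t else 0

/-- small values -/
noncomputable def ll (n T : ℕ) (b : ℕ → ℂ) (U u : ℝ) (t : ℤ) : ℝ :=
  if ‖DP n b t‖ ^ 2 ≤ U ∧ nu n T b t ≤ u then nu n T b t else 0

/-- large values -/
noncomputable def la (n T : ℕ) (b : ℕ → ℂ) (U : ℝ) (t : ℤ) : ℝ :=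
  if U < ‖DP n b t‖ ^ 2 then nu n T b t else 0

/-- the signed weight -/
noncomputable def mm (n T g : ℕ) (b : ℕ → ℂ) (U : ℝ) (t : ℤ) : ℝ :=
  wP (2 * T) (Plo n g) b t - la n T b U t

noncomputable def XX (n T : ℕ) (b : ℕ → ℂ) (U u : ℝ) : ℝ :=
  ∑ t ∈ Io (2 * T), ww n T b U u t * ‖DP n b t‖ ^ 4

/-- mean square bounds for all partial expansions -/
def YS (n M T : ℕ) (b : ℕ → ℂ) (Y S : ℝ) : Prop := ∀ P : Finset (ℕ × ℕ), P ⊆ Pr n →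
  ∑ t ∈ Io (2 * T), ‖FP P b t‖ ^ 2 ≤ Y ∧
  ∀ s ∈ Io (2 * T), ∑ t ∈ Io (2 * T), ‖FP P b t‖ ^ 2 * ‖Kb (n ^ 2) M ((s : ℝ) - t)‖ ^ 2 ≤ S

/-- fourth moment on the large values -/
def Big (n T : ℕ) (b : ℕ → ℂ) (U Z : ℝ) : Prop :=
  ∑ t ∈ (Io (2 * T)).filter (fun t : ℤ => U < ‖DP n b t‖ ^ 2), ‖DP n b t‖ ^ 4 ≤ Z

/-! ### the mixed trace -/

def SosStmt : Prop := ∀ (N M : ℕ) (β : ℕ → ℂ) (s : Finset ℤ) (w m : ℤ → ℝ)
  (E S H Λ P P' X : ℝ), 1 ≤ N → 0 ≤ E → 0 ≤ S → 0 < H → HE N M s E →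
  ∑ k ∈ Icc N (2 * N), ‖β k‖ ^ 2 ≤ H → (∀ t ∈ s, 0 ≤ w t) →
  X = ∑ t ∈ s, w t * ‖DP N β t‖ ^ 2 →
  (∀ a ∈ s, ∑ t ∈ s, m t ^ 2 * ‖Kb N M ((a : ℝ) - t)‖ ^ 2 ≤ S) →
  NW N (al N β s fun t => m t - w t) ≤ Λ →
  ∑ t ∈ s, w t ^ 2 * ‖DP N β t‖ ^ 2 ≤ P → ∑ t ∈ s, m t ^ 2 * ‖DP N β t‖ ^ 2 ≤ P' →
  X ^ 2 ≤ 4 * H * Λ ∨ X ^ 4 ≤ 16 * H ^ 2 * E ^ 2 * (P * P') ∨
    X ^ 3 ≤ 16 * H ^ 3 * (‖Q33 N M s w m m‖ + E * S * ∑ t ∈ s, w t)

def QsStmt : Prop := ∃ C : ℝ, 0 < C ∧ ∀ (N M : ℕ) (Δ Y A B L : ℝ) (s : Finset ℤ) (w m : ℤ → ℝ),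
  1 ≤ N → DivB (N * M) Δ → 0 < L → ∑ t ∈ s, w t ^ 2 ≤ Y → ∑ t ∈ s, m t ^ 2 ≤ Y →
  (∀ v ∈ Set.Icc (1 / 9 : ℝ) (82 / 9), ‖FT s m v‖ ≤ A) → II (fun v => ‖FT s m v‖) ≤ B →
  ‖Q33 N M s w m m‖ ≤ C * (N : ℝ) ^ 2 * ((M : ℝ) ^ 2 * Y * (B + Y / L) + M * Δ * Y * (A + L))

/-! ### kernel sums -/

def FeStmt : Prop := ∀ (L : ℕ) (x y Z : ℝ), 1 ≤ L → 0 < x → 0 < y → x ≤ Z → y ≤ Z →
  x ≤ 20 * y → y ≤ 20 * x → Fe L (x / y) ≤ 20 * L * kp (L * (x - y) / Z)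

def FtStmt : Prop := ∀ (L : ℕ) (P : Finset (ℕ × ℕ)) (b : ℕ → ℂ) (v : ℝ), 1 ≤ L →
  (∀ p ∈ P, p.swap ∈ P) → (∀ p ∈ P, 1 ≤ p.1 ∧ 1 ≤ p.2) → (∀ a, ‖b a‖ ≤ 1) → 0 < v →
  ‖FT (Io L) (wP L P b) v‖ ≤ ∑ p ∈ P, Fe L (v * ((p.1 : ℝ) / p.2))

def SupStmt : Prop := ∃ C : ℝ, 0 < C ∧ ∀ (n g L : ℕ), 1 ≤ n → n ^ 2 ≤ L →
  ∀ v ∈ Set.Icc (1 / 9 : ℝ) (82 / 9),
    ∑ p ∈ Plo n g, Fe L (v * ((p.1 : ℝ) / p.2)) ≤ C * L * g

def LoneStmt : Prop := ∃ C : ℝ, 0 < C ∧ ∀ (L : ℕ) (r : ℝ), 1 ≤ L → 1 / 2 ≤ r → r ≤ 2 →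
  II (fun v => Fe L (v * r)) ≤ C

def RowStmt : Prop := ∃ C : ℝ, 0 < C ∧ ∀ (n g L : ℕ) (Δ : ℝ), 1 ≤ n → 1 ≤ g → 1 ≤ L →
  DivB (6 * n ^ 3) Δ → ∀ k ∈ Rg (n ^ 2),
    ∑ j ∈ Rg (n ^ 2), ∑ p ∈ Phi n g, Fe L ((j : ℝ) / k * ((p.1 : ℝ) / p.2)) ≤
      C * Δ ^ 2 * (L * n + (n : ℝ) ^ 4 / g)

def CardStmt : Prop := ∀ n g : ℕ, 1 ≤ n → 1 ≤ g → ((Phi n g).card : ℝ) ≤ 4 * (n : ℝ) ^ 2 / g

def SchStmt : Prop := ∀ (N : ℕ) (β : ℕ → ℂ) (s : Finset ℤ) (g : ℤ → ℝ) (R : ℝ), 1 ≤ N →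
  (∀ k ∈ Rg N, ∑ j ∈ Rg N, ‖FT s g ((j : ℝ) / k)‖ ≤ R) →
  NW N (al N β s g) ≤ R ^ 2 * ∑ k ∈ Icc N (2 * N), ‖β k‖ ^ 2

def DualStmt : Prop := ∃ C : ℝ, 0 < C ∧ ∀ (N L : ℕ) (y : ℤ → ℂ), 1 ≤ N → N ≤ L →
  NW N (fun k => ∑ t ∈ Io L, y t * pw (k : ℝ) (-(t : ℝ))) ≤ C * L * ∑ t ∈ Io L, ‖y t‖ ^ 2

def SqcStmt : Prop := ∀ (n : ℕ) (b : ℕ → ℂ) (Δ : ℝ), 1 ≤ n → Adm n b → DivB (2 * n ^ 2) Δ →
  (∀ t : ℝ, DP (n ^ 2) (sqc n b) t = DP n b t ^ 2) ∧ (∀ k, ‖sqc n b k‖ ≤ Δ) ∧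
  ∑ k ∈ Icc (n ^ 2) (2 * n ^ 2), ‖sqc n b k‖ ^ 2 ≤ 2 * Δ ^ 2 * (n : ℝ) ^ 2

def PtsStmt : Prop := ∃ C : ℝ, 0 < C ∧ ∀ (n M L : ℕ) (Δ : ℝ) (P : Finset (ℕ × ℕ)) (b : ℕ → ℂ)
  (t₀ : ℤ), 1 ≤ n → n ^ 2 ≤ L → L ≤ n ^ 2 * M → DivB (2 * n ^ 2) Δ → P ⊆ Pr n → Adm n b →
  ∀ v ∈ Set.Icc (1 / 9 : ℝ) (82 / 9),
    ‖FT (Io L) (fun u => tri L u * ‖FP P b ((t₀ + u : ℤ) : ℝ)‖ ^ 2) v‖ ≤
      C * Δ ^ 2 * (n : ℝ) ^ 4 * (1 + rho (n ^ 2) M v)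

def SpStmt : Prop := ∃ C : ℝ, 0 < C ∧ ∀ (n M T : ℕ) (Δ : ℝ) (b : ℕ → ℂ), 1 ≤ n → n ^ 2 ≤ T →
  8 * T ≤ n ^ 2 * M → DivB (n ^ 2 * M) Δ → Adm n b →
  YS n M T b (C * Δ ^ 2 * (n : ℝ) ^ 4 * M) (C * Δ ^ 2 * (n : ℝ) ^ 8 * R2 (n ^ 2) M Δ)

def BigStmt : Prop := ∀ ε : ℝ, 0 < ε → ∃ K : ℝ, 0 < K ∧ ∀ (n T : ℕ) (Δ U : ℝ) (b : ℕ → ℂ),
  1 ≤ n → n ^ 2 ≤ T → T ≤ n ^ 4 → DivB (2 * n ^ 2) Δ → 0 < U → Adm n b →
  Big n T b U (K * (n : ℝ) ^ ε * Δ ^ 6 * ((n : ℝ) ^ 4 + T * (n : ℝ) ^ 8 / U ^ 4))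

/-! ### the data of the mixed trace -/

def D1Stmt : Prop := ∀ (n M T g : ℕ) (b : ℕ → ℂ) (U u Y S Z : ℝ), 1 ≤ n → 1 ≤ T → 1 ≤ g →
  (∀ a, ‖b a‖ ≤ 1) → 0 < U → 0 < u → YS n M T b Y S → Big n T b U Z →
  ∑ t ∈ Io (2 * T), ww n T b U u t ^ 2 ≤ Y ∧ ∑ t ∈ Io (2 * T), mm n T g b U t ^ 2 ≤ 4 * Y ∧
  ∑ t ∈ Io (2 * T), ww n T b U u t ≤ Y / u ∧
  (∀ a ∈ Io (2 * T), ∑ t ∈ Io (2 * T),
    mm n T g b U t ^ 2 * ‖Kb (n ^ 2) M ((a : ℝ) - t)‖ ^ 2 ≤ 4 * S) ∧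
  ∑ t ∈ Io (2 * T), ww n T b U u t ^ 2 * ‖DP n b t‖ ^ 4 ≤ U * XX n T b U u ∧
  ∑ t ∈ Io (2 * T), mm n T g b U t ^ 2 * ‖DP n b t‖ ^ 4 ≤
    3 * (U * XX n T b U u + u ^ 2 * Y + U ^ 2 * Y + (4 * (n : ℝ) ^ 2 / g) ^ 2 * Z)

def D2Stmt : Prop := ∃ C : ℝ, 0 < C ∧ ∀ (n T g : ℕ) (b : ℕ → ℂ) (U Z : ℝ), 1 ≤ n → n ^ 2 ≤ T →
  (∀ a, ‖b a‖ ≤ 1) → 0 < U → Big n T b U Z →
  (∀ v ∈ Set.Icc (1 / 9 : ℝ) (82 / 9),
    ‖FT (Io (2 * T)) (mm n T g b U) v‖ ≤ C * (T * g + Z / U)) ∧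
  II (fun v => ‖FT (Io (2 * T)) (mm n T g b U) v‖) ≤ C * ((n : ℝ) ^ 2 + √Z)

def D3Stmt : Prop := ∃ C : ℝ, 0 < C ∧ ∀ (n M T g : ℕ) (b : ℕ → ℂ) (Δ U u Y S : ℝ), 1 ≤ n →
  n ^ 2 ≤ T → 1 ≤ g → Adm n b → DivB (6 * n ^ 3) Δ → 0 < u → YS n M T b Y S →
  NW (n ^ 2) (al (n ^ 2) (sqc n b) (Io (2 * T)) fun t => mm n T g b U t - ww n T b U u t) ≤
    C * (T * u ^ 2 * Y + Δ ^ 6 * (n : ℝ) ^ 2 * (T * n + (n : ℝ) ^ 4 / g) ^ 2)

/-- the three alternatives -/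
def Alt (C n M T g Δ E U u Y S Z X : ℝ) : Prop :=
  X ^ 2 ≤ C * Δ ^ 2 * n ^ 2 * (T * u ^ 2 * Y + Δ ^ 6 * n ^ 2 * (T * n + n ^ 4 / g) ^ 2) ∨
  X ^ 4 ≤ C * Δ ^ 4 * n ^ 4 * E ^ 2 *
    (U * X * (U * X + u ^ 2 * Y + U ^ 2 * Y + (n ^ 2 / g) ^ 2 * Z)) ∨
  X ^ 3 ≤ C * Δ ^ 6 * n ^ 6 * (n ^ 4 * (M ^ 2 * Y * (n ^ 2 + √Z + Y / T) +
    M * Δ * Y * (T * g + Z / U + T)) + E * S * (Y / u))

def Core6Stmt : Prop := ∃ C : ℝ, 1 ≤ C ∧ ∀ (n M T g : ℕ) (b : ℕ → ℂ) (Δ E U u Y S Z : ℝ),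
  1 ≤ n → n ^ 2 ≤ T → 1 ≤ g → Adm n b → DivB (6 * n ^ 3) Δ → DivB (n ^ 2 * M) Δ → 0 ≤ E →
  HE (n ^ 2) M (Io (2 * T)) E → 0 < U → 0 < u → YS n M T b Y S → Big n T b U Z →
  Alt C n M T g Δ E U u Y S Z (XX n T b U u)

def Num6Stmt : Prop := ∀ C : ℝ, 1 ≤ C → ∃ K : ℝ, 0 < K ∧
  ∀ n τ P M g Δ E Y S Z X : ℝ, 1 ≤ n → 1 ≤ τ → n ≤ τ ^ 2 → τ ^ 3 ≤ n ^ 2 → 1 ≤ P →
    0 ≤ M → M ≤ P * (τ ^ 4 / n ^ 2) → n ^ 2 ≤ 2 * (g * τ ^ 3) → g * τ ^ 3 ≤ n ^ 2 →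
    0 ≤ Δ → Δ ≤ P → 0 ≤ E → E ≤ P * n ^ 2 → 0 ≤ Y → Y ≤ P * (τ ^ 4 * n ^ 2) → 0 ≤ S →
    S ≤ P * (τ ^ 4 * n ^ 4) → 0 ≤ Z → Z ≤ P * n ^ 4 → 0 ≤ X →
    Alt C n M (τ ^ 4) g Δ E (τ * n) (n ^ 2 / τ) Y S Z X → X ≤ K * P ^ 5 * (τ ^ 3 * n ^ 4)

/-! ### the large values estimate -/

def X6Stmt : Prop := ∀ ε : ℝ, 0 < ε → ∃ K : ℝ, 0 < K ∧ ∀ (n T : ℕ) (τ : ℝ) (b : ℕ → ℂ),
  1 ≤ n → n ^ 2 ≤ T → T ^ 3 ≤ n ^ 8 → 0 < τ → τ ^ 4 = T → Adm n b →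
  XX n T b (τ * n) ((n : ℝ) ^ 2 / τ) ≤ K * (n : ℝ) ^ ε * (τ ^ 3 * (n : ℝ) ^ 4)

def B6Stmt : Prop := ∀ ε : ℝ, 0 < ε → ∃ K : ℝ, 0 < K ∧ ∀ (n T : ℕ) (V : ℝ) (b : ℕ → ℂ),
  1 ≤ n → n ^ 2 ≤ T → T ^ 3 ≤ n ^ 8 → 0 < V → Adm n b →
  (DH.cnt n b T V : ℝ) ≤ K * (n : ℝ) ^ ε *
    ((n : ℝ) ^ 4 / V ^ 4 + (T : ℝ) ^ (3 / 4 : ℝ) * (n : ℝ) ^ 4 / V ^ 6)

/-- the fourth and the sixth moment -/
def MvStmt : Prop := ∀ ε : ℝ, 0 < ε → ∃ K : ℝ, 0 < K ∧ ∀ (n T : ℕ) (V : ℝ) (b : ℕ → ℂ),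
  1 ≤ n → 0 < V → (∀ a, ‖b a‖ ≤ 1) →
  (DH.cnt n b T V : ℝ) ≤ K * (n : ℝ) ^ ε * (((T : ℝ) + n) * n / V ^ 2) ∧
  (DH.cnt n b T V : ℝ) ≤ K * (n : ℝ) ^ ε * (((T : ℝ) + (n : ℝ) ^ 2) * (n : ℝ) ^ 2 / V ^ 4) ∧
  (DH.cnt n b T V : ℝ) ≤ K * (n : ℝ) ^ ε * (((T : ℝ) + (n : ℝ) ^ 3) * (n : ℝ) ^ 3 / V ^ 6)

def CutStmt : Prop := ∀ (n : ℕ) (b : ℕ → ℂ), 1 ≤ n → (∀ a, ‖b a‖ ≤ 1) →
  ∃ (r : ℕ → ℕ) (c : ℕ → ℕ → ℂ), (∀ j, n ≤ r j ∧ r j ≤ 5 * n ∧ Adm (r j) (c j)) ∧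
    ∀ (T : ℕ) (V : ℝ), DH.cnt n b T V ≤ ∑ j ∈ range 3, DH.cnt (r j) (c j) T (V / 3)

def Int6Stmt : Prop := ∀ ε : ℝ, 0 < ε → ∃ K : ℝ, 0 < K ∧ ∀ (n T : ℕ) (V : ℝ) (b : ℕ → ℂ),
  1 ≤ n → 0 < V → (∀ a, ‖b a‖ ≤ 1) →
  (DH.cnt n b T V : ℝ) ≤ K * (n : ℝ) ^ ε * ((n : ℝ) ^ 4 / V ^ 4 +
    ((T : ℝ) ^ (3 / 4 : ℝ) * (n : ℝ) ^ 4 + T * (n : ℝ) ^ 3) / V ^ 6)

def Final6Stmt : Prop := ∀ ε : ℝ, 0 < ε → ∃ K : ℝ, ∀ (N : ℕ) (T V : ℝ), 1 ≤ N → 1 ≤ T →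
  0 < V → ∀ b : ℕ → ℂ, (∀ n, ‖b n‖ ≤ 1) → ∀ W : Finset ℝ, (∀ t ∈ W, 0 ≤ t ∧ t ≤ T) →
    (∀ s ∈ W, ∀ t ∈ W, s ≠ t → 1 ≤ |s - t|) → (∀ t ∈ W, V ≤ ‖DP N b t‖) →
    (W.card : ℝ) ≤ K * (N : ℝ) ^ ε * ((N : ℝ) ^ 4 / V ^ 4 +
      (T ^ (3 / 4 : ℝ) * (N : ℝ) ^ 4 + T * (N : ℝ) ^ 3) / V ^ 6)

/-! ### the exponent `9/4` -/

def One9Stmt : Prop := ∀ ε : ℝ, 0 < ε → ∃ K : ℝ, 0 < K ∧ ∀ N T : ℕ, 1 ≤ N → N ≤ T →
  T ^ 5 ≤ N ^ 6 → ∀ σ lam V : ℝ, 1 / 2 ≤ σ → σ ≤ 1 → 1 ≤ lam → 0 < V →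
  (N : ℝ) ^ σ ≤ lam * V → ∀ b : ℕ → ℂ, (∀ n, ‖b n‖ ≤ 1) →
    (DH.cnt N b T V : ℝ) ≤ K * (N : ℝ) ^ ε * lam ^ 4 * (T : ℝ) ^ (9 / 4 * (1 - σ))

def Two9Stmt : Prop := ∀ ε : ℝ, 0 < ε → ∃ K : ℝ, 0 < K ∧ ∀ N T : ℕ, 1 ≤ N → N ^ 2 ≤ T →
  T ^ 3 ≤ N ^ 8 → ∀ σ lam V : ℝ, 1 / 2 ≤ σ → σ ≤ 1 → 1 ≤ lam → 0 < V →
  (N : ℝ) ^ σ ≤ lam * V → ∀ b : ℕ → ℂ, (∀ n, ‖b n‖ ≤ 1) →
    (DH.cnt N b T V : ℝ) ≤ K * (N : ℝ) ^ ε * lam ^ 6 * (T : ℝ) ^ (9 / 4 * (1 - σ))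

def Mvk9Stmt : Prop := ∀ (k : ℕ) (ε : ℝ), 1 ≤ k → 0 < ε → ∃ K : ℝ, 0 < K ∧ ∀ N T : ℕ, 1 ≤ N →
  T ≤ N ^ k → N ^ (8 * k) ≤ T ^ 9 → ∀ σ lam V : ℝ, σ ≤ 1 → 1 ≤ lam → 0 < V →
  (N : ℝ) ^ σ ≤ lam * V → ∀ b : ℕ → ℂ, (∀ n, ‖b n‖ ≤ 1) →
    (DH.cnt N b T V : ℝ) ≤ K * (N : ℝ) ^ ε * lam ^ (2 * k) * (T : ℝ) ^ (9 / 4 * (1 - σ))

def Hi9Stmt : Prop := ∀ (k : ℕ) (ε : ℝ), 1 ≤ k → 0 < ε → ∃ K : ℝ, 0 < K ∧ ∀ N T : ℕ, 1 ≤ N →
  N ^ k ≤ T → T ^ 5 ≤ N ^ (6 * k) → ∀ σ lam V : ℝ, 1 / 2 ≤ σ → σ ≤ 1 → 1 ≤ lam → 0 < V →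
  (N : ℝ) ^ σ ≤ lam * V → ∀ b : ℕ → ℂ, (∀ n, ‖b n‖ ≤ 1) →
    (DH.cnt N b T V : ℝ) ≤ K * (N : ℝ) ^ ε * lam ^ (4 * k) * (T : ℝ) ^ (9 / 4 * (1 - σ))

def Pow9Stmt : Prop := ∀ A : ℝ, ∃ a : ℕ, ∀ ε : ℝ, 0 < ε → ∃ K : ℝ, 0 < K ∧ ∀ N T : ℕ, 1 ≤ N →
  N ^ 16 ≤ T ^ 9 → (T : ℝ) ≤ (N : ℝ) ^ A → ∀ σ lam V : ℝ, 1 / 2 ≤ σ → σ ≤ 1 → 1 ≤ lam →
  0 < V → (N : ℝ) ^ σ ≤ lam * V → ∀ b : ℕ → ℂ, (∀ n, ‖b n‖ ≤ 1) →
    (DH.cnt N b T V : ℝ) ≤ K * lam ^ a * (N : ℝ) ^ ε * (T : ℝ) ^ (9 / 4 * (1 - σ))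

/-! ### basic facts -/

lemma Io_two (T : ℕ) : Io (2 * T) = Ioo (-(2 * T : ℤ)) (2 * T) := by
  unfold Io
  push_cast
  rfl

lemma tri_nonneg {L : ℕ} {t : ℤ} (ht : t ∈ Io L) : 0 ≤ tri L t := by
  obtain ⟨h1, h2⟩ := mem_Io.1 ht
  have h3 : |t| ≤ (L : ℤ) := abs_le.2 ⟨h1.le, h2.le⟩
  have h4 : |(t : ℝ)| ≤ L := by exact_mod_cast h3
  exact div_nonneg (by linarith) (Nat.cast_nonneg L)

lemma tri_le_one (L : ℕ) (t : ℤ) : tri L t ≤ 1 :=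
  div_le_one_of_le₀ (by linarith [abs_nonneg (t : ℝ)]) (Nat.cast_nonneg L)

lemma half_le_tri {L : ℕ} (hL : 1 ≤ L) {t : ℤ} (ht : 2 * |t| ≤ (L : ℤ)) : 1 / 2 ≤ tri L t := by
  have h1 : 2 * |(t : ℝ)| ≤ L := by exact_mod_cast ht
  have h2 : (0 : ℝ) < L := by exact_mod_cast hL
  rw [tri, le_div_iff₀ h2]
  linarith

lemma Fe_nonneg (L : ℕ) (v : ℝ) : 0 ≤ Fe L v := by unfold Fe; positivity

lemma FT_tri (hT : TriangStmt) (L : ℕ) (v : ℝ) : FT (Io L) (tri L) v = (Fe L v : ℂ) := by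
  have h := hT L (Real.log v / (2 * Real.pi))
  rw [Fe, Complex.ofReal_div, ← h, sum_div]
  refine sum_congr rfl fun t _ => ?_
  rw [tri, pw_eq_ex, Complex.ofReal_div]
  ring

lemma continuousOn_Fe (L : ℕ) : ContinuousOn (Fe L) (Set.Ioi 0) := by
  unfold Fe
  refine (((continuous_gs L).comp_continuousOn ?_).norm.pow 2).div_const _
  exact (Real.continuousOn_log.mono fun x hx => ne_of_gt hx).div_const _

lemma mem_Pr {n : ℕ} {p : ℕ × ℕ} :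
    p ∈ Pr n ↔ (n ≤ p.1 ∧ p.1 ≤ 2 * n) ∧ n ≤ p.2 ∧ p.2 ≤ 2 * n := by
  simp [Pr]

lemma mem_Rg {N k : ℕ} : k ∈ Rg N ↔ (1 ≤ k ∧ k ≤ 3 * N) ∧ 3 * N ≤ 4 * k := by
  simp [Rg]

lemma Plo_sub (n g : ℕ) : Plo n g ⊆ Pr n := filter_subset _ _

lemma Phi_sub (n g : ℕ) : Phi n g ⊆ Pr n := filter_subset _ _

lemma swap_Plo {n g : ℕ} : ∀ p ∈ Plo n g, p.swap ∈ Plo n g := fun p hp => by
  simp only [Plo, mem_filter, mem_Pr, Prod.fst_swap, Prod.snd_swap] at hp ⊢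
  exact ⟨⟨hp.1.2, hp.1.1⟩, by rw [Nat.gcd_comm]; exact hp.2⟩

lemma swap_Phi {n g : ℕ} : ∀ p ∈ Phi n g, p.swap ∈ Phi n g := fun p hp => by
  simp only [Phi, mem_filter, mem_Pr, Prod.fst_swap, Prod.snd_swap] at hp ⊢
  exact ⟨⟨hp.1.2, hp.1.1⟩, by rw [Nat.gcd_comm]; exact hp.2⟩

lemma pos_Pr {n : ℕ} (hn : 1 ≤ n) {P : Finset (ℕ × ℕ)} (hP : P ⊆ Pr n) :
    ∀ p ∈ P, 1 ≤ p.1 ∧ 1 ≤ p.2 := fun _ hp =>
  ⟨hn.trans (mem_Pr.1 (hP hp)).1.1, hn.trans (mem_Pr.1 (hP hp)).2.1⟩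

lemma card_Pr {n : ℕ} (hn : 1 ≤ n) : ((Pr n).card : ℝ) ≤ 4 * (n : ℝ) ^ 2 := by
  rw [Pr, card_product, Nat.card_Icc, show 2 * n + 1 - n = n + 1 by omega]
  have : (1 : ℝ) ≤ n := by exact_mod_cast hn
  push_cast
  nlinarith

lemma FP_Pr {n : ℕ} (hn : 1 ≤ n) (b : ℕ → ℂ) (t : ℝ) :
    FP (Pr n) b t = ((‖DP n b t‖ ^ 2 : ℝ) : ℂ) := by
  rw [Complex.ofReal_pow, ← Complex.mul_conj', FP, Pr, sum_product, DP, map_sum, sum_mul_sum]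
  refine sum_congr rfl fun a ha => sum_congr rfl fun c hc => ?_
  have h1 : (a : ℝ) ≠ 0 := Nat.cast_ne_zero.2 (by have := (mem_Icc.1 ha).1; omega)
  have h2 : (c : ℝ) ≠ 0 := Nat.cast_ne_zero.2 (by have := (mem_Icc.1 hc).1; omega)
  rw [pw_div h1 h2, map_mul, conj_pw]
  ring

lemma norm_FP_Pr {n : ℕ} (hn : 1 ≤ n) (b : ℕ → ℂ) (t : ℝ) :
    ‖FP (Pr n) b t‖ = ‖DP n b t‖ ^ 2 := by
  rw [FP_Pr hn, Complex.norm_real, Real.norm_of_nonneg (sq_nonneg _)]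

lemma norm_FP_le (P : Finset (ℕ × ℕ)) {b : ℕ → ℂ} (hb : ∀ a, ‖b a‖ ≤ 1) (t : ℝ) :
    ‖FP P b t‖ ≤ P.card := by
  refine (norm_sum_le _ _).trans ((sum_le_card_nsmul _ _ 1 fun p _ => ?_).trans (by simp))
  rw [norm_mul, norm_mul, norm_pw, Complex.norm_conj, mul_one]
  exact mul_le_one₀ (hb _) (norm_nonneg _) (hb _)

lemma abs_wP_le {L : ℕ} (P : Finset (ℕ × ℕ)) (b : ℕ → ℂ) {t : ℤ} (ht : t ∈ Io L) :
    |wP L P b t| ≤ ‖FP P b t‖ := by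
  rw [wP, abs_mul, abs_of_nonneg (tri_nonneg ht)]
  exact (mul_le_of_le_one_left (abs_nonneg _) (tri_le_one L t)).trans (Complex.abs_re_le_norm _)

lemma nu_eq {n : ℕ} (hn : 1 ≤ n) (T g : ℕ) (b : ℕ → ℂ) (t : ℤ) :
    nu n T b t = wP (2 * T) (Plo n g) b t + wP (2 * T) (Phi n g) b t := by
  have h : FP (Plo n g) b t + FP (Phi n g) b t = FP (Pr n) b t := by
    unfold FP Plo Phi
    simp only [← not_le]
    exact sum_filter_add_sum_filter_not _ _ _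
  rw [wP, wP, ← mul_add, ← Complex.add_re, h, FP_Pr hn, Complex.ofReal_re, nu]

lemma nu_nonneg {n T : ℕ} (b : ℕ → ℂ) {t : ℤ} (ht : t ∈ Io (2 * T)) : 0 ≤ nu n T b t :=
  mul_nonneg (tri_nonneg ht) (sq_nonneg _)

lemma nu_le (n T : ℕ) (b : ℕ → ℂ) (t : ℤ) : nu n T b t ≤ ‖DP n b t‖ ^ 2 :=
  mul_le_of_le_one_left (sq_nonneg _) (tri_le_one _ t)

lemma nu_split (n T : ℕ) (b : ℕ → ℂ) (U u : ℝ) (t : ℤ) :
    nu n T b t = ww n T b U u t + ll n T b U u t + la n T b U t := by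
  unfold ww ll la
  by_cases h1 : ‖DP n b t‖ ^ 2 ≤ U <;> by_cases h2 : nu n T b t ≤ u <;>
    simp [h1, h2, not_lt.2, not_le.1]

lemma mm_sub_ww {n : ℕ} (hn : 1 ≤ n) (T g : ℕ) (b : ℕ → ℂ) (U u : ℝ) (t : ℤ) :
    mm n T g b U t - ww n T b U u t = ll n T b U u t - wP (2 * T) (Phi n g) b t := by
  have h1 := nu_eq hn T g b t
  have h2 := nu_split n T b U u t
  unfold mm
  linarith

lemma ww_nonneg {n T : ℕ} (b : ℕ → ℂ) (U u : ℝ) {t : ℤ} (ht : t ∈ Io (2 * T)) :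
    0 ≤ ww n T b U u t := by
  unfold ww
  split_ifs
  · exact nu_nonneg b ht
  · exact le_rfl

lemma XX_nonneg (n T : ℕ) (b : ℕ → ℂ) (U u : ℝ) : 0 ≤ XX n T b U u :=
  sum_nonneg fun _ ht => mul_nonneg (ww_nonneg b U u ht) (by positivity)

lemma NW_nonneg (N : ℕ) (x : ℕ → ℂ) : 0 ≤ NW N x :=
  sum_nonneg fun _ _ => mul_nonneg (Wt_nonneg _) (sq_nonneg _)

lemma NW_sub_le (N : ℕ) (x y : ℕ → ℂ) :
    NW N (fun k => x k - y k) ≤ 2 * NW N x + 2 * NW N y := by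
  unfold NW
  rw [mul_sum, mul_sum, ← sum_add_distrib]
  refine sum_le_sum fun k _ => ?_
  have h1 := pow_le_pow_left₀ (norm_nonneg _) (norm_sub_le (x k) (y k)) 2
  have h2 : ‖x k - y k‖ ^ 2 ≤ 2 * ‖x k‖ ^ 2 + 2 * ‖y k‖ ^ 2 := by
    nlinarith [sq_nonneg (‖x k‖ - ‖y k‖)]
  have := mul_le_mul_of_nonneg_left h2 (Wt_nonneg ((k : ℝ) / N))
  linarith

lemma NW_le_Rg {N : ℕ} (hN : 1 ≤ N) (x : ℕ → ℂ) : NW N x ≤ ∑ k ∈ Rg N, ‖x k‖ ^ 2 := by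
  have hN' : (0 : ℝ) < N := by exact_mod_cast hN
  rw [NW, Rg, sum_filter]
  refine sum_le_sum fun k _ => ?_
  split_ifs with h
  · exact mul_le_of_le_one_left (sq_nonneg _) (Wt_le_one _)
  · have h1 : 4 * (k : ℝ) ≤ 3 * N := by exact_mod_cast (not_le.1 h).le
    rw [Wt_eq_zero (Or.inl (by rw [div_le_iff₀ hN']; linarith)), zero_mul]

end Pool.Agent.MP_2a1f0e_nt.SQ

end

section

set_option autoImplicit false

open Finset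

namespace Pool.Agent.MP_2a1f0e_nt.SQ

open GM GM2

lemma dual_Sos (N : ℕ) (hN : 1 ≤ N) (β : ℕ → ℂ) (H : ℝ)
    (hβ : ∑ k ∈ Icc N (2 * N), ‖β k‖ ^ 2 ≤ H) (I : Finset ℤ) (z : ℤ → ℂ) :
    ‖∑ t ∈ I, z t * DP N β t‖ ^ 2 ≤
      H * ∑ n ∈ Icc 1 (3 * N), Wt ((n : ℝ) / N) * ‖∑ t ∈ I, z t * pw (n : ℝ) t‖ ^ 2 := by
  have hN' : (1 : ℝ) ≤ N := by exact_mod_cast hN
  have h1 : ∑ t ∈ I, z t * DP N β t = ∑ n ∈ Icc N (2 * N), β n * ∑ t ∈ I, z t * pw (n : ℝ) t := by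
    simp only [DP, mul_sum]
    rw [sum_comm]
    exact sum_congr rfl fun n _ => sum_congr rfl fun t _ => by ring
  have h2 : ‖∑ t ∈ I, z t * DP N β t‖ ≤
      ∑ n ∈ Icc N (2 * N), ‖β n‖ * ‖∑ t ∈ I, z t * pw (n : ℝ) t‖ := by
    rw [h1]
    exact (norm_sum_le _ _).trans (le_of_eq (sum_congr rfl fun n _ => norm_mul _ _))
  have h3 := sum_mul_sq_le_sq_mul_sq (Icc N (2 * N)) (fun n => ‖β n‖)
    fun n : ℕ => ‖∑ t ∈ I, z t * pw (n : ℝ) t‖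
  have h5 : ∑ n ∈ Icc N (2 * N), ‖∑ t ∈ I, z t * pw (n : ℝ) t‖ ^ 2 ≤
      ∑ n ∈ Icc 1 (3 * N), Wt ((n : ℝ) / N) * ‖∑ t ∈ I, z t * pw (n : ℝ) t‖ ^ 2 := by
    calc _ = ∑ n ∈ Icc N (2 * N), Wt ((n : ℝ) / N) * ‖∑ t ∈ I, z t * pw (n : ℝ) t‖ ^ 2 := by
          refine sum_congr rfl fun n hn => ?_
          obtain ⟨k1, k2⟩ := mem_Icc.1 hn
          have k1' : (N : ℝ) ≤ n := by exact_mod_cast k1
          have k2' : (n : ℝ) ≤ 2 * N := by exact_mod_cast k2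
          rw [Wt_eq_one (by rw [le_div_iff₀ (by linarith)]; linarith)
            (by rw [div_le_iff₀ (by linarith)]; linarith), one_mul]
      _ ≤ _ := sum_le_sum_of_subset_of_nonneg (Icc_subset_Icc hN (by omega))
          fun n _ _ => mul_nonneg (Wt_nonneg _) (sq_nonneg _)
  calc _ ≤ (∑ n ∈ Icc N (2 * N), ‖β n‖ * ‖∑ t ∈ I, z t * pw (n : ℝ) t‖) ^ 2 :=
        pow_le_pow_left₀ (norm_nonneg _) h2 2
    _ ≤ _ := h3
    _ ≤ _ := mul_le_mul hβ h5 (sum_nonneg fun _ _ => sq_nonneg _)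
        ((sum_nonneg fun _ _ => sq_nonneg _).trans hβ)

lemma key_Sos (N M : ℕ) (hN : 1 ≤ N) (β : ℕ → ℂ) (H : ℝ)
    (hβ : ∑ k ∈ Icc N (2 * N), ‖β k‖ ^ 2 ≤ H) (I : Finset ℤ) (E : ℝ)
    (hE : HE N M I E) (z : ℤ → ℂ) : ‖∑ t ∈ I, z t * DP N β t‖ ^ 2 ≤
      H * ((∑ t ∈ I, ∑ t' ∈ I, z t * Kb N M ((t : ℝ) - t') * (starRingEnd ℂ) (z t')).re +
        E * ∑ t ∈ I, ‖z t‖ ^ 2) := by
  refine (dual_Sos N hN β H hβ I z).trans (mul_le_mul_of_nonneg_left ?_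
    ((sum_nonneg fun _ _ => sq_nonneg _).trans hβ))
  have h1 := congrArg Complex.re (gram_Cub N I z)
  rw [Complex.ofReal_re] at h1
  rw [← h1]
  have h2 : ∑ t ∈ I, ∑ t' ∈ I, z t * KK N ((t : ℝ) - t') * (starRingEnd ℂ) (z t') =
      ∑ t ∈ I, ∑ t' ∈ I, z t * Kb N M ((t : ℝ) - t') * (starRingEnd ℂ) (z t') +
      ∑ t ∈ I, ∑ t' ∈ I,
        z t * (KK N ((t : ℝ) - t') - Kb N M ((t : ℝ) - t')) * (starRingEnd ℂ) (z t') := by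
    rw [← sum_add_distrib]
    refine sum_congr rfl fun t _ => ?_
    rw [← sum_add_distrib]
    exact sum_congr rfl fun t' _ => by ring
  rw [h2, Complex.add_re]
  exact add_le_add le_rfl ((Complex.re_le_norm _).trans (schur_Cub N M I E hE z))

lemma gram_Sos (N : ℕ) (I : Finset ℤ) (x z : ℤ → ℂ) :
    ∑ p ∈ I, ∑ q ∈ I, x p * KK N ((p : ℝ) - q) * (starRingEnd ℂ) (z q) =
      ∑ n ∈ Icc 1 (3 * N), (Wt ((n : ℝ) / N) : ℂ) * ((∑ p ∈ I, x p * pw (n : ℝ) p) *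
        (starRingEnd ℂ) (∑ q ∈ I, z q * pw (n : ℝ) q)) := by
  have h1 : ∀ n : ℕ, (Wt ((n : ℝ) / N) : ℂ) * ((∑ p ∈ I, x p * pw (n : ℝ) p) *
        (starRingEnd ℂ) (∑ q ∈ I, z q * pw (n : ℝ) q)) = ∑ p ∈ I, ∑ q ∈ I,
        x p * ((Wt ((n : ℝ) / N) : ℂ) * pw (n : ℝ) ((p : ℝ) - q)) * (starRingEnd ℂ) (z q) := by
    intro n
    rw [map_sum, sum_mul_sum, mul_sum]
    refine sum_congr rfl fun p _ => ?_
    rw [mul_sum]
    refine sum_congr rfl fun q _ => ?_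
    rw [pw_sub, map_mul]
    ring
  simp only [h1]
  rw [sum_comm (s := Icc 1 (3 * N))]
  refine sum_congr rfl fun p _ => ?_
  rw [sum_comm (s := Icc 1 (3 * N))]
  refine sum_congr rfl fun q _ => ?_
  rw [KK, mul_sum, sum_mul]

lemma schur_Sos (N M : ℕ) (I : Finset ℤ) (E : ℝ) (hE0 : 0 ≤ E) (hE : HE N M I E) (x z : ℤ → ℂ)
    (P P' : ℝ) (hx : ∑ p ∈ I, ‖x p‖ ^ 2 ≤ P) (hz : ∑ p ∈ I, ‖z p‖ ^ 2 ≤ P') :
    ‖∑ p ∈ I, ∑ q ∈ I, x p * (KK N ((p : ℝ) - q) - Kb N M ((p : ℝ) - q)) *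
      (starRingEnd ℂ) (z q)‖ ^ 2 ≤ E ^ 2 * (P * P') := by
  have h1 : ‖∑ p ∈ I, ∑ q ∈ I,
      x p * (KK N ((p : ℝ) - q) - Kb N M ((p : ℝ) - q)) * (starRingEnd ℂ) (z q)‖ ≤
      ∑ r ∈ I ×ˢ I, ‖x r.1‖ * ‖KK N ((r.1 : ℝ) - r.2) - Kb N M ((r.1 : ℝ) - r.2)‖ * ‖z r.2‖ := by
    rw [sum_product]
    refine (norm_sum_le _ _).trans (sum_le_sum fun p _ => ?_)
    refine (norm_sum_le _ _).trans (le_of_eq (sum_congr rfl fun q _ => ?_))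
    rw [norm_mul, norm_mul, Complex.norm_conj]
  have h2 : ∀ (y : ℤ → ℂ) (Y : ℝ), ∑ p ∈ I, ‖y p‖ ^ 2 ≤ Y →
      ∑ p ∈ I, ∑ q ∈ I, ‖y p‖ ^ 2 * ‖KK N ((p : ℝ) - q) - Kb N M ((p : ℝ) - q)‖ ≤ E * Y := by
    intro y Y hy
    calc _ ≤ ∑ p ∈ I, ‖y p‖ ^ 2 * E := by
          refine sum_le_sum fun p hp => ?_
          rw [← mul_sum]
          exact mul_le_mul_of_nonneg_left (hE p hp) (sq_nonneg _)
      _ = E * ∑ p ∈ I, ‖y p‖ ^ 2 := by rw [← sum_mul, mul_comm]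
      _ ≤ _ := mul_le_mul_of_nonneg_left hy hE0
  have h3 := sum_sq_le_sum_mul_sum_of_sq_le_mul (I ×ˢ I)
    (r := fun r => ‖x r.1‖ * ‖KK N ((r.1 : ℝ) - r.2) - Kb N M ((r.1 : ℝ) - r.2)‖ * ‖z r.2‖)
    (f := fun r => ‖x r.1‖ ^ 2 * ‖KK N ((r.1 : ℝ) - r.2) - Kb N M ((r.1 : ℝ) - r.2)‖)
    (g := fun r => ‖z r.2‖ ^ 2 * ‖KK N ((r.2 : ℝ) - r.1) - Kb N M ((r.2 : ℝ) - r.1)‖)
    (fun _ _ => by positivity) (fun _ _ => by positivity) fun r _ => by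
      rw [norm_K1_sub N M (r.2 : ℝ) r.1]
      exact le_of_eq (by ring)
  have h4 := h2 x P hx
  have h5 := h2 z P' hz
  rw [sum_comm] at h5
  rw [← sum_product'] at h4 h5
  have hP : 0 ≤ P := (sum_nonneg fun _ _ => sq_nonneg _).trans hx
  calc _ ≤ _ := pow_le_pow_left₀ (norm_nonneg _) h1 2
    _ ≤ _ := h3
    _ ≤ E * P * (E * P') :=
        mul_le_mul h4 h5 (sum_nonneg fun _ _ => by positivity) (mul_nonneg hE0 hP)
    _ = _ := by ring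

lemma conj_al_Sos (N : ℕ) (β : ℕ → ℂ) (s : Finset ℤ) (g : ℤ → ℝ) (k : ℕ) :
    ∑ t ∈ s, (g t : ℂ) * (starRingEnd ℂ) (DP N β t) * pw (k : ℝ) t =
      (starRingEnd ℂ) (al N β s g k) := by
  rw [al, map_sum]
  refine sum_congr rfl fun t _ => ?_
  rw [map_mul, map_mul, conj_pw, neg_neg, Complex.conj_ofReal]

lemma re_Sos (u v : ℂ) : 3 / 4 * ‖u‖ ^ 2 - ‖v‖ ^ 2 ≤ ((starRingEnd ℂ) u * (u + v)).re := by
  rw [Complex.sq_norm, Complex.sq_norm, Complex.normSq_apply, Complex.normSq_apply]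
  simp only [Complex.mul_re, Complex.conj_re, Complex.conj_im, Complex.add_re, Complex.add_im]
  nlinarith [sq_nonneg (u.re / 2 + v.re), sq_nonneg (u.im / 2 + v.im)]

theorem sos_stmt : SosStmt := by
  intro N M β s w m E S H Λ P P' X hN hE0 hS0 hH hE hβ hw hX hS hΛ hP hP'
  by_contra hc
  simp only [not_or, not_le] at hc
  obtain ⟨c1, c2, c3⟩ := hc
  have hX0 : 0 ≤ X := hX ▸ sum_nonneg fun t ht => mul_nonneg (hw t ht) (sq_nonneg _)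
  have hΛ0 : 0 ≤ Λ := (NW_nonneg _ _).trans hΛ
  have hpos : 0 < X := hX0.lt_of_ne fun h => by
    rw [← h] at c1
    have : 0 ≤ 4 * H * Λ := by positivity
    linarith
  have nx : ∀ (g : ℤ → ℝ) (t : ℤ), ‖(g t : ℂ) * (starRingEnd ℂ) (DP N β t)‖ ^ 2 =
      g t ^ 2 * ‖DP N β t‖ ^ 2 := fun g t => by
    rw [norm_mul, Complex.norm_conj, Complex.norm_real, Real.norm_eq_abs, mul_pow, sq_abs]
  set Z : ℤ → ℂ := fun a => ∑ t ∈ s, (Kb N M ((a : ℝ) - t) * m t) * DP N β t with hZ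
  set Q : ℂ := ∑ a ∈ s, (w a : ℂ) * (starRingEnd ℂ) (DP N β a) * Z a with hQ
  -- lower bound
  have a1 := dual_Sos N hN β H hβ s fun t => (w t : ℂ) * (starRingEnd ℂ) (DP N β t)
  have a2 : ∑ t ∈ s, (w t : ℂ) * (starRingEnd ℂ) (DP N β t) * DP N β t = (X : ℂ) := by
    rw [hX, Complex.ofReal_sum]
    refine sum_congr rfl fun t _ => ?_
    rw [mul_assoc, Complex.conj_mul']
    push_cast
    ring
  simp only [conj_al_Sos, Complex.norm_conj] at a1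
  rw [a2, Complex.norm_real, Real.norm_eq_abs, sq_abs] at a1
  change X ^ 2 ≤ H * NW N (al N β s w) at a1
  have a3 := gram_Sos N s (fun t => (w t : ℂ) * (starRingEnd ℂ) (DP N β t))
    fun t => (m t : ℂ) * (starRingEnd ℂ) (DP N β t)
  simp only [conj_al_Sos, Complex.conj_conj] at a3
  have a4 := schur_Sos N M s E hE0 hE (fun t => (w t : ℂ) * (starRingEnd ℂ) (DP N β t))
    (fun t => (m t : ℂ) * (starRingEnd ℂ) (DP N β t)) P P' (by simpa only [nx] using hP)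
    (by simpa only [nx] using hP')
  have a5 : ∑ p ∈ s, ∑ q ∈ s, (w p : ℂ) * (starRingEnd ℂ) (DP N β p) * KK N ((p : ℝ) - q) *
      (starRingEnd ℂ) ((m q : ℂ) * (starRingEnd ℂ) (DP N β q)) = Q +
      ∑ p ∈ s, ∑ q ∈ s, (w p : ℂ) * (starRingEnd ℂ) (DP N β p) *
        (KK N ((p : ℝ) - q) - Kb N M ((p : ℝ) - q)) *
        (starRingEnd ℂ) ((m q : ℂ) * (starRingEnd ℂ) (DP N β q)) := by
    rw [hQ, ← sum_add_distrib]
    refine sum_congr rfl fun p _ => ?_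
    rw [hZ, mul_sum, ← sum_add_distrib]
    refine sum_congr rfl fun q _ => ?_
    rw [map_mul, Complex.conj_conj, Complex.conj_ofReal]
    ring
  have a6 : 3 / 4 * NW N (al N β s w) - NW N (al N β s fun t => m t - w t) ≤
      (∑ n ∈ Icc 1 (3 * N), (Wt ((n : ℝ) / N) : ℂ) *
        ((starRingEnd ℂ) (al N β s w n) * al N β s m n)).re := by
    rw [NW, NW, mul_sum, ← sum_sub_distrib, Complex.re_sum]
    refine sum_le_sum fun n _ => ?_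
    have k1 : al N β s m n = al N β s w n + al N β s (fun t => m t - w t) n := by
      rw [al, al, al, ← sum_add_distrib]
      refine sum_congr rfl fun t _ => ?_
      push_cast
      ring
    rw [Complex.re_ofReal_mul, k1]
    have := mul_le_mul_of_nonneg_left
      (re_Sos (al N β s w n) (al N β s (fun t => m t - w t) n)) (Wt_nonneg ((n : ℝ) / N))
    linarith
  rw [← a3, a5, Complex.add_re] at a6
  generalize ∑ p ∈ s, ∑ q ∈ s, (w p : ℂ) * (starRingEnd ℂ) (DP N β p) *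
        (KK N ((p : ℝ) - q) - Kb N M ((p : ℝ) - q)) *
        (starRingEnd ℂ) ((m q : ℂ) * (starRingEnd ℂ) (DP N β q)) = R at a4 a6
  have a7 : 4 * H * ‖R‖ ≤ X ^ 2 := by
    refine le_of_pow_le_pow_left₀ two_ne_zero (sq_nonneg X) ?_
    have := mul_le_mul_of_nonneg_left a4 (show 0 ≤ 16 * H ^ 2 by positivity)
    nlinarith
  have a8 : X ^ 2 ≤ 4 * H * ‖Q‖ := by
    have k1 := Complex.re_le_norm Q
    have k2 := Complex.re_le_norm R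
    have k3 : 3 / 4 * NW N (al N β s w) - Λ ≤ ‖Q‖ + ‖R‖ := by linarith
    have k4 := mul_le_mul_of_nonneg_left k3 hH.le
    nlinarith
  -- upper bound
  have d1 : ‖Q‖ ^ 2 ≤ X * ∑ a ∈ s, w a * ‖Z a‖ ^ 2 := by
    have k1 : ‖Q‖ ≤ ∑ a ∈ s, w a * ‖DP N β a‖ * ‖Z a‖ := by
      refine (norm_sum_le _ _).trans (le_of_eq (sum_congr rfl fun a ha => ?_))
      rw [norm_mul, norm_mul, Complex.norm_conj, Complex.norm_real, Real.norm_eq_abs,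
        abs_of_nonneg (hw a ha)]
    refine (pow_le_pow_left₀ (norm_nonneg _) k1 2).trans ?_
    rw [hX]
    exact sum_sq_le_sum_mul_sum_of_sq_le_mul s
      (fun a ha => mul_nonneg (hw a ha) (sq_nonneg _))
      (fun a ha => mul_nonneg (hw a ha) (sq_nonneg _)) fun a _ => le_of_eq (by ring)
  have d2 : ∀ a ∈ s, ‖Z a‖ ^ 2 ≤ H * ((∑ t ∈ s, ∑ t' ∈ s, (Kb N M ((a : ℝ) - t) * m t) *
      Kb N M ((t : ℝ) - t') * (starRingEnd ℂ) (Kb N M ((a : ℝ) - t') * m t')).re + E * S) := by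
    intro a ha
    refine (key_Sos N M hN β H hβ s E hE fun t => Kb N M ((a : ℝ) - t) * m t).trans
      (mul_le_mul_of_nonneg_left (add_le_add le_rfl (mul_le_mul_of_nonneg_left
        (le_trans (le_of_eq (sum_congr rfl fun t _ => ?_)) (hS a ha)) hE0)) hH.le)
    rw [norm_mul, Complex.norm_real, Real.norm_eq_abs, mul_pow, sq_abs, mul_comm]
  have e1 : ∑ a ∈ s, w a * (∑ t ∈ s, ∑ t' ∈ s, (Kb N M ((a : ℝ) - t) * m t) *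
      Kb N M ((t : ℝ) - t') * (starRingEnd ℂ) (Kb N M ((a : ℝ) - t') * m t')).re =
      (Q33 N M s w m m).re := by
    rw [Q33, Complex.re_sum]
    refine sum_congr rfl fun a _ => ?_
    rw [← Complex.re_ofReal_mul, mul_sum]
    congr 1
    refine sum_congr rfl fun t _ => ?_
    rw [mul_sum]
    refine sum_congr rfl fun t' _ => ?_
    rw [map_mul, conj_Kb, Complex.conj_ofReal, neg_sub]
    push_cast
    ring
  have e3 : ∑ a ∈ s, w a * ‖Z a‖ ^ 2 ≤ H * (‖Q33 N M s w m m‖ + E * S * ∑ t ∈ s, w t) := by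
    calc _ ≤ ∑ a ∈ s, w a * (H * ((∑ t ∈ s, ∑ t' ∈ s, (Kb N M ((a : ℝ) - t) * m t) *
          Kb N M ((t : ℝ) - t') * (starRingEnd ℂ) (Kb N M ((a : ℝ) - t') * m t')).re + E * S)) :=
          sum_le_sum fun a ha => mul_le_mul_of_nonneg_left (d2 a ha) (hw a ha)
      _ = H * ((Q33 N M s w m m).re + E * S * ∑ t ∈ s, w t) := by
          rw [← e1, mul_sum (s := s) (a := E * S), ← sum_add_distrib, mul_sum]
          exact sum_congr rfl fun a _ => by ring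
      _ ≤ _ := mul_le_mul_of_nonneg_left (add_le_add (Complex.re_le_norm _) le_rfl) hH.le
  have f1 : X * X ^ 3 ≤ X * (16 * H ^ 3 * (‖Q33 N M s w m m‖ + E * S * ∑ t ∈ s, w t)) := by
    calc X * X ^ 3 = (X ^ 2) ^ 2 := by ring
      _ ≤ (4 * H * ‖Q‖) ^ 2 := pow_le_pow_left₀ (sq_nonneg _) a8 2
      _ = 16 * H ^ 2 * ‖Q‖ ^ 2 := by ring
      _ ≤ 16 * H ^ 2 * (X * (H * (‖Q33 N M s w m m‖ + E * S * ∑ t ∈ s, w t))) :=
          mul_le_mul_of_nonneg_left (d1.trans (mul_le_mul_of_nonneg_left e3 hX0)) (by positivity)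
      _ = _ := by ring
  exact absurd (le_of_mul_le_mul_left f1 hpos) (not_le.2 c3)

end Pool.Agent.MP_2a1f0e_nt.SQ

end

section

set_option autoImplicit false

open Finset

namespace Pool.Agent.MP_2a1f0e_nt.SQ

open GM GM2

lemma log_le_Fe {x y : ℝ} (hx : 0 < x) (hy : 0 < y) (h : x ≤ 20 * y) :
    Real.log x - Real.log y ≤ 3 := by
  rw [← Real.log_div hx.ne' hy.ne', Real.log_le_iff_le_exp (by positivity), div_le_iff₀ hy]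
  have h1 : Real.exp 3 = Real.exp 1 ^ 3 := by
    rw [← Real.exp_nat_mul]
    norm_num
  have h2 : (2.7182818283 : ℝ) ^ 3 ≤ Real.exp 1 ^ 3 :=
    pow_le_pow_left₀ (by norm_num) Real.exp_one_gt_d9.le 3
  have h3 : (20 : ℝ) ≤ Real.exp 3 := by
    rw [h1]
    exact le_trans (by norm_num) h2
  nlinarith

theorem fe_stmt : FeStmt := by
  intro L x y Z hL hx hy hxZ hyZ h1 h2
  have hL' : (0 : ℝ) < L := by exact_mod_cast hL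
  have hZ : 0 < Z := hx.trans_le hxZ
  have hpi := Real.pi_pos
  have a1 := log_le_Fe hx hy h1
  have a2 := log_le_Fe hy hx h2
  have a3 : |Real.log x - Real.log y| ≤ 3 := abs_le.2 ⟨by linarith, a1⟩
  have a4 : |(Real.log x - Real.log y) / (2 * Real.pi)| ≤ 1 / 2 := by
    rw [abs_div, abs_of_pos (by positivity : (0 : ℝ) < 2 * Real.pi), div_le_iff₀ (by positivity)]
    linarith [Real.pi_gt_three]
  have a5 := gs_sq_le L a4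
  have e : 2 * (L : ℝ) * ((Real.log x - Real.log y) / (2 * Real.pi)) =
      Real.pi⁻¹ * (L * (Real.log x - Real.log y)) := by
    field_simp
  have a6 := kp_mul_le (c := Real.pi⁻¹) (A := Real.pi) (by linarith [Real.pi_gt_three])
    (by rw [abs_of_pos (by positivity), mul_inv_cancel₀ hpi.ne']) (L * (Real.log x - Real.log y))
  have a7 : kp (L * (Real.log x - Real.log y)) ≤ kp (L * (x - y) / Z) := by
    apply kp_anti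
    rw [← sq_abs, ← sq_abs (_ * (Real.log x - _))]
    apply pow_le_pow_left₀ (abs_nonneg _)
    rw [mul_div_assoc, abs_mul, abs_mul, abs_div, abs_of_pos hZ]
    exact mul_le_mul_of_nonneg_left (abs_sub_div_le_log hx hy hxZ hyZ) (abs_nonneg _)
  have a8 : Real.pi ^ 2 ≤ 10 := by nlinarith [Real.pi_lt_d2]
  have a9 := mul_le_mul a8 a7 (kp_pos _).le (by norm_num)
  rw [e] at a5
  rw [Fe, Real.log_div hx.ne' hy.ne', div_le_iff₀ hL']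
  have a10 := mul_le_mul_of_nonneg_left (a6.trans a9) (by positivity : (0 : ℝ) ≤ 2 * (L : ℝ) ^ 2)
  linarith

lemma conj_FP_Fe {P : Finset (ℕ × ℕ)} (hP : ∀ p ∈ P, p.swap ∈ P) (b : ℕ → ℂ) (t : ℝ) :
    (starRingEnd ℂ) (FP P b t) = FP P b t := by
  unfold FP
  rw [map_sum]
  refine sum_nbij' Prod.swap Prod.swap hP hP (fun p _ => Prod.swap_swap p)
    (fun p _ => Prod.swap_swap p) fun p _ => ?_
  rw [map_mul, map_mul, conj_pw, ← pw_inv, inv_div, Complex.conj_conj, Prod.fst_swap,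
    Prod.snd_swap]
  ring

theorem ft_stmt (hT : TriangStmt) : FtStmt := by
  intro L P b v _ hP h1 hb hv
  have e : FT (Io L) (wP L P b) v =
      ∑ p ∈ P, b p.1 * (starRingEnd ℂ) (b p.2) * (Fe L (v * ((p.1 : ℝ) / p.2)) : ℂ) := by
    simp only [← FT_tri hT]
    unfold FT wP
    simp only [Complex.ofReal_mul, Complex.conj_eq_iff_re.1 (conj_FP_Fe hP b _)]
    unfold FP
    simp only [mul_sum, sum_mul]
    rw [sum_comm]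
    refine sum_congr rfl fun p hp => sum_congr rfl fun t _ => ?_
    have q1 : (0 : ℝ) < p.1 := by exact_mod_cast (h1 p hp).1
    have q2 : (0 : ℝ) < p.2 := by exact_mod_cast (h1 p hp).2
    rw [pw_mul hv.ne' (div_pos q1 q2).ne']
    ring
  rw [e]
  refine (norm_sum_le _ _).trans (sum_le_sum fun p _ => ?_)
  rw [norm_mul, norm_mul, Complex.norm_conj, Complex.norm_real,
    Real.norm_of_nonneg (Fe_nonneg _ _)]
  exact mul_le_of_le_one_left (Fe_nonneg _ _) (mul_le_one₀ (hb _) (norm_nonneg _) (hb _))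

lemma int_kp_Fe {a b : ℝ} (hab : a ≤ b) : ∫ x in a..b, kp x ≤ Real.pi := by
  rw [intervalIntegral.integral_of_le hab, ← DH.integral_kp]
  exact MeasureTheory.setIntegral_le_integral DH.integrable_kp
    (MeasureTheory.ae_of_all _ fun x => (kp_pos x).le)

theorem lone_stmt (hF : FeStmt) : LoneStmt := by
  refine ⟨200 * Real.pi, by have := Real.pi_pos; positivity, fun L r hL h1 h2 => ?_⟩
  have hL' : (0 : ℝ) < L := by exact_mod_cast hL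
  have hr : 0 < r := by linarith
  have b1 : r⁻¹ ≤ 2 := by
    rw [inv_le_comm₀ hr (by norm_num)]
    linarith
  have b2 : 1 / 2 ≤ r⁻¹ := by
    rw [le_inv_comm₀ (by norm_num) hr]
    linarith
  have hc : (0 : ℝ) < L / 10 := by positivity
  have c1 : ContinuousOn (fun v => Fe L (v * r)) (Set.Icc (1 / 9 : ℝ) (82 / 9)) :=
    (continuousOn_Fe L).comp (continuousOn_id.mul continuousOn_const) fun v hv =>
      mul_pos (Icc_sub_Ioi hv) hr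
  have c2 : Continuous fun v : ℝ => 20 * (L : ℝ) * kp (L / 10 * v + -(L / 10 * r⁻¹)) :=
    continuous_const.mul (continuous_kp.comp (by fun_prop))
  refine (II_mono c1 c2.continuousOn fun v hv => ?_).trans ?_
  · have := hF L v r⁻¹ 10 hL (Icc_sub_Ioi hv) (inv_pos.2 hr) (by linarith [hv.2]) (by linarith)
      (by linarith [hv.2]) (by linarith [hv.1])
    rw [div_inv_eq_mul] at this
    refine this.trans_eq ?_
    congr 2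
    ring
  · unfold II
    rw [intervalIntegral.integral_const_mul,
      intervalIntegral.integral_comp_mul_add kp hc.ne', smul_eq_mul]
    have := int_kp_Fe (a := L / 10 * (1 / 9) + -(L / 10 * r⁻¹))
      (b := L / 10 * (82 / 9) + -(L / 10 * r⁻¹)) (by linarith)
    calc _ ≤ 20 * (L : ℝ) * (((L : ℝ) / 10)⁻¹ * Real.pi) := by gcongr
      _ = _ := by
        field_simp
        norm_num

end Pool.Agent.MP_2a1f0e_nt.SQ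

end

section

set_option autoImplicit false

open Finset

namespace Pool.Agent.MP_2a1f0e_nt.SQ

open GM GM2

lemma eq_of_gcd_Sup {a a' c c' : ℕ} (ha : 1 ≤ a) (hg : Nat.gcd a a' = Nat.gcd c c')
    (h : a * c' = c * a') : a = c ∧ a' = c' := by
  have h1 : a * Nat.gcd c c' = c * Nat.gcd a a' := by
    rw [← Nat.gcd_mul_left, ← Nat.gcd_mul_left, h, mul_comm a c]
  rw [← hg] at h1
  have h2 : a = c := Nat.eq_of_mul_eq_mul_right (Nat.gcd_pos_of_pos_left _ ha) h1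
  subst h2
  exact ⟨rfl, (Nat.eq_of_mul_eq_mul_left ha h).symm⟩

lemma sep_Sup {n : ℕ} (hn : 1 ≤ n) {p q : ℕ × ℕ} (hp : p ∈ Pr n) (hq : q ∈ Pr n)
    (hg : Nat.gcd p.1 p.2 = Nat.gcd q.1 q.2) (hne : p ≠ q) :
    1 ≤ |4 * (n : ℝ) ^ 2 * ((p.1 : ℝ) / p.2) - 4 * (n : ℝ) ^ 2 * ((q.1 : ℝ) / q.2)| := by
  obtain ⟨⟨a1, -⟩, a2, a3⟩ := mem_Pr.1 hp
  obtain ⟨-, b2, b3⟩ := mem_Pr.1 hq
  have h1 : (p.1 : ℤ) * q.2 - q.1 * p.2 ≠ 0 := fun h => by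
    have h' : p.1 * q.2 = q.1 * p.2 := by exact_mod_cast sub_eq_zero.1 h
    obtain ⟨e1, e2⟩ := eq_of_gcd_Sup (hn.trans a1) hg h'
    exact hne (Prod.ext e1 e2)
  have h2 : (1 : ℝ) ≤ |(p.1 : ℝ) * q.2 - q.1 * p.2| := by exact_mod_cast Int.one_le_abs h1
  have c1 : (0 : ℝ) < p.2 := by exact_mod_cast hn.trans a2
  have c2 : (0 : ℝ) < q.2 := by exact_mod_cast hn.trans b2
  have c3 : (p.2 : ℝ) ≤ 2 * n := by exact_mod_cast a3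
  have c4 : (q.2 : ℝ) ≤ 2 * n := by exact_mod_cast b3
  have e : 4 * (n : ℝ) ^ 2 * ((p.1 : ℝ) / p.2) - 4 * (n : ℝ) ^ 2 * ((q.1 : ℝ) / q.2) =
      4 * (n : ℝ) ^ 2 / (p.2 * q.2) * ((p.1 : ℝ) * q.2 - q.1 * p.2) := by
    field_simp
  rw [e, abs_mul, abs_of_nonneg (by positivity)]
  refine one_le_mul_of_one_le_of_one_le ?_ h2
  rw [le_div_iff₀ (by positivity)]
  calc 1 * ((p.2 : ℝ) * q.2) ≤ 1 * ((2 * n) * (2 * n)) := by gcongr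
    _ = _ := by ring

lemma fiber_Sup (hF : FeStmt) {n L : ℕ} (hn : 1 ≤ n) (hL : n ^ 2 ≤ L) {v : ℝ}
    (hv : v ∈ Set.Icc (1 / 9 : ℝ) (82 / 9)) (s : Finset (ℕ × ℕ)) (hs : s ⊆ Pr n)
    (hg : ∀ p ∈ s, ∀ q ∈ s, Nat.gcd p.1 p.2 = Nat.gcd q.1 q.2) :
    ∑ p ∈ s, Fe L (v * ((p.1 : ℝ) / p.2)) ≤ 2920 * L := by
  have hL1 : 1 ≤ L := (Nat.one_le_pow _ _ hn).trans hL
  have hL0 : (0 : ℝ) < L := by exact_mod_cast hL1
  have hn0 : (0 : ℝ) < n := by exact_mod_cast hn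
  have hnL : (n : ℝ) ^ 2 ≤ L := by exact_mod_cast hL
  have hv0 : 0 < v := lt_of_lt_of_le (by norm_num) hv.1
  have y1 : v⁻¹ ≤ 9 := by
    rw [inv_le_comm₀ hv0 (by norm_num)]
    linarith [hv.1]
  have y2 : 1 / 10 ≤ v⁻¹ := by
    rw [le_inv_comm₀ (by norm_num) hv0]
    linarith [hv.2]
  have h1 : ∀ p ∈ s, Fe L (v * ((p.1 : ℝ) / p.2)) ≤ 20 * L *
      kp ((4 * (n : ℝ) ^ 2 * ((p.1 : ℝ) / p.2) - 4 * (n : ℝ) ^ 2 * v⁻¹) /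
        (36 * (n : ℝ) ^ 2 / L)) := by
    intro p hp
    obtain ⟨⟨a1, a2⟩, a3, a4⟩ := mem_Pr.1 (hs hp)
    have c1 : (n : ℝ) ≤ p.1 := by exact_mod_cast a1
    have c2 : (p.1 : ℝ) ≤ 2 * n := by exact_mod_cast a2
    have c3 : (n : ℝ) ≤ p.2 := by exact_mod_cast a3
    have c4 : (p.2 : ℝ) ≤ 2 * n := by exact_mod_cast a4
    have x1 : (p.1 : ℝ) / p.2 ≤ 2 := by
      rw [div_le_iff₀ (by linarith)]
      linarith
    have x2 : 1 / 2 ≤ (p.1 : ℝ) / p.2 := by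
      rw [le_div_iff₀ (by linarith)]
      linarith
    have := hF L ((p.1 : ℝ) / p.2) v⁻¹ 9 hL1 (by linarith) (by linarith) (by linarith) y1
      (by linarith) (by linarith)
    rw [div_inv_eq_mul, mul_comm _ v] at this
    refine this.trans (le_of_eq ?_)
    congr 2
    field_simp
    ring
  refine (sum_le_sum h1).trans ?_
  rw [← mul_sum]
  have h2 := sum_kp_sep s (fun p => 4 * (n : ℝ) ^ 2 * ((p.1 : ℝ) / p.2))
    (fun p hp q hq hne => sep_Sup hn (hs hp) (hs hq) (hg p hp q hq) hne)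
    (4 * (n : ℝ) ^ 2 * v⁻¹) (L := 36 * (n : ℝ) ^ 2 / L) (by positivity)
  have h3 : 36 * (n : ℝ) ^ 2 / L ≤ 36 := by
    rw [div_le_iff₀ hL0]
    linarith
  calc _ ≤ 20 * (L : ℝ) * 146 := by
        gcongr
        linarith
    _ = _ := by ring

theorem sup_stmt (hF : FeStmt) : SupStmt := by
  refine ⟨2920, by norm_num, fun n g L hn hL v hv => ?_⟩
  have hm : ∀ p ∈ Plo n g, Nat.gcd p.1 p.2 ∈ Icc 1 g := fun p hp =>
    mem_Icc.2 ⟨Nat.gcd_pos_of_pos_left _ (pos_Pr hn (Plo_sub n g) p hp).1, (mem_filter.1 hp).2⟩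
  rw [← sum_fiberwise_of_maps_to hm]
  refine (sum_le_card_nsmul _ _ (2920 * (L : ℝ)) fun d _ => fiber_Sup hF hn hL hv _
    ((filter_subset _ _).trans (Plo_sub n g)) fun p hp q hq =>
      (mem_filter.1 hp).2.trans (mem_filter.1 hq).2.symm).trans (le_of_eq ?_)
  simp [mul_comm]

theorem card_stmt : CardStmt := by
  intro n g hn hg
  have hsub : Phi n g ⊆ (Ioc g (2 * n)).biUnion fun d =>
      (Icc 1 (2 * n / d) ×ˢ Icc 1 (2 * n / d)).image fun a : ℕ × ℕ => (d * a.1, d * a.2) := by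
    intro p hp
    obtain ⟨h1, h2⟩ := mem_filter.1 hp
    obtain ⟨⟨a1, a2⟩, a3, a4⟩ := mem_Pr.1 h1
    have d0 : 0 < Nat.gcd p.1 p.2 := by omega
    have d1 := Nat.gcd_dvd_left p.1 p.2
    have d2 := Nat.gcd_dvd_right p.1 p.2
    have l1 := Nat.le_of_dvd (by omega) d1
    have l2 := Nat.le_of_dvd (by omega) d2
    refine mem_biUnion.2 ⟨Nat.gcd p.1 p.2, mem_Ioc.2 ⟨h2, by omega⟩,
      mem_image.2 ⟨(p.1 / Nat.gcd p.1 p.2, p.2 / Nat.gcd p.1 p.2), ?_, ?_⟩⟩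
    · simp only [mem_product, mem_Icc]
      exact ⟨⟨Nat.div_pos l1 d0, Nat.div_le_div_right a2⟩, Nat.div_pos l2 d0,
        Nat.div_le_div_right a4⟩
    · exact Prod.ext (Nat.mul_div_cancel' d1) (Nat.mul_div_cancel' d2)
  have h1 : (Phi n g).card ≤ ∑ d ∈ Ioc g (2 * n), (2 * n / d) ^ 2 := by
    refine (card_le_card hsub).trans (card_biUnion_le.trans (sum_le_sum fun d _ => ?_))
    refine card_image_le.trans (le_of_eq ?_)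
    simp [sq]
  have h2 : ∑ d ∈ Ioc g (2 * n), ((d : ℝ) ^ 2)⁻¹ ≤ (g : ℝ)⁻¹ := by
    rcases le_or_gt g (2 * n) with h | h
    · refine (sum_Ioc_inv_sq_le_sub (by omega) h).trans (sub_le_self _ (by positivity))
    · rw [Ioc_eq_empty (by omega), sum_empty]
      positivity
  calc ((Phi n g).card : ℝ) ≤ ∑ d ∈ Ioc g (2 * n), ((2 * n / d : ℕ) : ℝ) ^ 2 := by
        exact_mod_cast h1
    _ ≤ ∑ d ∈ Ioc g (2 * n), 4 * (n : ℝ) ^ 2 * ((d : ℝ) ^ 2)⁻¹ := by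
        refine sum_le_sum fun d _ => ?_
        calc ((2 * n / d : ℕ) : ℝ) ^ 2 ≤ (((2 * n : ℕ) : ℝ) / d) ^ 2 :=
              pow_le_pow_left₀ (by positivity) Nat.cast_div_le 2
          _ = _ := by
              push_cast
              ring
    _ ≤ _ := by
        rw [← mul_sum, div_eq_mul_inv]
        gcongr

end Pool.Agent.MP_2a1f0e_nt.SQ

end

section

set_option autoImplicit false
open Finset
namespace Pool.Agent.MP_2a1f0e_nt.SQ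
open GM GM2

lemma div_Row {A B : Finset ℕ} {X : ℕ} {Δ : ℝ} (hD : DivB X Δ) (G : ℕ → ℝ) (hG : ∀ x, 0 ≤ G x)
    (h : ∀ j ∈ A, ∀ a ∈ B, 1 ≤ j * a ∧ j * a ≤ X) :
    ∑ j ∈ A, ∑ a ∈ B, G (j * a) ≤ Δ * ∑ x ∈ Icc 1 X, G x := by
  have hm : ∀ q ∈ A ×ˢ B, q.1 * q.2 ∈ Icc 1 X := fun q hq =>
    mem_Icc.2 (h _ (mem_product.1 hq).1 _ (mem_product.1 hq).2)
  rw [← sum_product', ← sum_fiberwise_of_maps_to hm, mul_sum]
  refine sum_le_sum fun x hx => ?_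
  obtain ⟨h1, h2⟩ := mem_Icc.1 hx
  rw [sum_congr rfl (g := fun _ => G x) (fun q hq => by rw [(mem_filter.1 hq).2]), sum_const,
    nsmul_eq_mul]
  refine mul_le_mul_of_nonneg_right (le_trans ?_ (hD.2 x h2)) (hG x)
  have : ((A ×ˢ B).filter fun q => q.1 * q.2 = x).card ≤ x.divisors.card := by
    refine card_le_card_of_injOn (fun q => q.2) (fun q hq => ?_) (fun q hq q' hq' e => ?_)
    · have := (mem_filter.1 (mem_coe.1 hq)).2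
      exact mem_coe.2 (Nat.mem_divisors.2 ⟨Dvd.intro_left _ this, by omega⟩)
    · have e1 := (mem_filter.1 (mem_coe.1 hq)).2
      have e2 := (mem_filter.1 (mem_coe.1 hq')).2
      have e3 : q.2 = q'.2 := e
      have e4 : 0 < q'.2 := Nat.pos_of_ne_zero fun h0 => by rw [h0] at e2; omega
      refine Prod.ext (Nat.eq_of_mul_eq_mul_right e4 ?_) e3
      rw [e2, ← e3, e1]
  exact_mod_cast this

lemma pt_Row (hF : FeStmt) {n L d a c j k : ℕ} (hn : 1 ≤ n) (hL : 1 ≤ L) (hd : 1 ≤ d)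
    (a1 : n ≤ d * a) (a2 : d * a ≤ 2 * n) (c1 : n ≤ d * c) (c2 : d * c ≤ 2 * n)
    (hj : j ∈ Rg (n ^ 2)) (hk : k ∈ Rg (n ^ 2)) :
    Fe L ((j : ℝ) / k * (((d * a : ℕ) : ℝ) / (d * c : ℕ))) ≤
      20 * L * kp ((((j * a : ℕ) : ℝ) - (k * c : ℕ)) / (6 * (n : ℝ) ^ 3 / (L * d))) := by
  obtain ⟨⟨j1, j2⟩, j3⟩ := mem_Rg.1 hj
  obtain ⟨⟨k1, k2⟩, k3⟩ := mem_Rg.1 hk
  have ha : 0 < a := Nat.pos_of_ne_zero fun h0 => by rw [h0] at a1; omega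
  have hc : 0 < c := Nat.pos_of_ne_zero fun h0 => by rw [h0] at c1; omega
  have d0 : (0 : ℝ) < d := by exact_mod_cast hd
  have n0 : (0 : ℝ) < n := by exact_mod_cast hn
  have L0 : (0 : ℝ) < L := by exact_mod_cast hL
  have a0 : (0 : ℝ) < a := by exact_mod_cast ha
  have c0 : (0 : ℝ) < c := by exact_mod_cast hc
  have j0 : (0 : ℝ) < j := by exact_mod_cast j1
  have k0 : (0 : ℝ) < k := by exact_mod_cast k1
  have up : ∀ u v : ℕ, u ≤ 3 * n ^ 2 → d * v ≤ 2 * n →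
      (u : ℝ) * v ≤ 6 * (n : ℝ) ^ 3 / d := by
    intro u v h1 h2
    rw [le_div_iff₀ d0]
    have : u * v * d ≤ 6 * n ^ 3 := by
      calc u * v * d = u * (d * v) := by ring
        _ ≤ 3 * n ^ 2 * (2 * n) := Nat.mul_le_mul h1 h2
        _ = 6 * n ^ 3 := by ring
    exact_mod_cast this
  have cmp : ∀ u v u' v' : ℕ, u ≤ 3 * n ^ 2 → d * v ≤ 2 * n → 3 * n ^ 2 ≤ 4 * u' → n ≤ d * v' →
      (u : ℝ) * v ≤ 20 * ((u' : ℝ) * v') := by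
    intro u v u' v' h1 h2 h3 h4
    have e0 : d * v ≤ d * (2 * v') := by
      rw [Nat.mul_left_comm]; omega
    have e : v ≤ 2 * v' := Nat.le_of_mul_le_mul_left e0 hd
    have : u * v ≤ 20 * (u' * v') := by
      calc u * v ≤ 4 * u' * (2 * v') := Nat.mul_le_mul (h1.trans h3) e
        _ = 8 * (u' * v') := by ring
        _ ≤ 20 * (u' * v') := by omega
    exact_mod_cast this
  have h := hF L ((j : ℝ) * a) ((k : ℝ) * c) (6 * (n : ℝ) ^ 3 / d) hL (by positivity)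
    (by positivity) (up j a j2 a2) (up k c k2 c2) (cmp j a k c j2 a2 k3 c1)
    (cmp k c j a k2 c2 j3 a1)
  have e1 : (j : ℝ) / k * (((d * a : ℕ) : ℝ) / (d * c : ℕ)) = j * a / (k * c) := by
    push_cast; field_simp
  have e2 : (((j * a : ℕ) : ℝ) - (k * c : ℕ)) / (6 * (n : ℝ) ^ 3 / (L * d)) =
      L * (j * a - k * c) / (6 * (n : ℝ) ^ 3 / d) := by
    push_cast; field_simp
  rw [e1, e2]
  exact h

lemma inj_Row {n g : ℕ} (hn : 1 ≤ n) (F : ℕ × ℕ → ℝ) (G : ℕ → ℕ → ℕ → ℝ)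
    (hG : ∀ d c a, 0 ≤ G d c a)
    (h : ∀ d a c, 1 ≤ d → n ≤ d * a → d * a ≤ 2 * n → n ≤ d * c → d * c ≤ 2 * n →
      F (d * a, d * c) ≤ G d c a) :
    ∑ p ∈ Phi n g, F p ≤
      ∑ d ∈ Ioc g (2 * n), ∑ c ∈ Icc 1 (2 * n / d), ∑ a ∈ Icc 1 (2 * n), G d c a := by
  have hm : ∀ p ∈ Phi n g, Nat.gcd p.1 p.2 ∈ Ioc g (2 * n) := fun p hp => by
    obtain ⟨h1, h2⟩ := mem_filter.1 hp
    obtain ⟨⟨b1, b2⟩, -⟩ := mem_Pr.1 h1
    exact mem_Ioc.2 ⟨h2, (Nat.gcd_le_left _ (by omega)).trans b2⟩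
  rw [← sum_fiberwise_of_maps_to hm]
  refine sum_le_sum fun d hd => ?_
  have d0 : 1 ≤ d := by have := (mem_Ioc.1 hd).1; omega
  rw [← sum_product']
  have key : ∀ p ∈ (Phi n g).filter (fun p => Nat.gcd p.1 p.2 = d),
      p.1 = d * (p.1 / d) ∧ p.2 = d * (p.2 / d) ∧ (n ≤ p.1 ∧ p.1 ≤ 2 * n) ∧
        n ≤ p.2 ∧ p.2 ≤ 2 * n := fun p hp => by
    obtain ⟨h1, h2⟩ := mem_filter.1 hp
    exact ⟨(Nat.mul_div_cancel' (h2 ▸ Nat.gcd_dvd_left _ _)).symm,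
      (Nat.mul_div_cancel' (h2 ▸ Nat.gcd_dvd_right _ _)).symm, mem_Pr.1 (Phi_sub n g h1)⟩
  calc ∑ p ∈ (Phi n g).filter (fun p => Nat.gcd p.1 p.2 = d), F p
      ≤ ∑ p ∈ (Phi n g).filter (fun p => Nat.gcd p.1 p.2 = d),
          (fun q : ℕ × ℕ => G d q.1 q.2) ((fun p : ℕ × ℕ => (p.2 / d, p.1 / d)) p) := by
        refine sum_le_sum fun p hp => ?_
        obtain ⟨e1, e2, ⟨b1, b2⟩, b3, b4⟩ := key p hp
        have := h d (p.1 / d) (p.2 / d) d0 (e1 ▸ b1) (e1 ▸ b2) (e2 ▸ b3) (e2 ▸ b4)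
        rwa [← e1, ← e2] at this
    _ = ∑ q ∈ ((Phi n g).filter (fun p => Nat.gcd p.1 p.2 = d)).image
          (fun p : ℕ × ℕ => (p.2 / d, p.1 / d)), G d q.1 q.2 := by
        symm
        refine sum_image fun p hp p' hp' e => ?_
        obtain ⟨e1, e2, -⟩ := key p (mem_coe.1 hp)
        obtain ⟨e3, e4, -⟩ := key p' (mem_coe.1 hp')
        obtain ⟨e5, e6⟩ := Prod.mk.inj e
        exact Prod.ext (by rw [e1, e3, e6]) (by rw [e2, e4, e5])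
    _ ≤ _ := by
        refine sum_le_sum_of_subset_of_nonneg (fun q hq => ?_) fun q _ _ => hG _ _ _
        obtain ⟨p, hp, rfl⟩ := mem_image.1 hq
        obtain ⟨e1, e2, ⟨b1, b2⟩, b3, b4⟩ := key p hp
        refine mem_product.2 ⟨mem_Icc.2 ⟨Nat.pos_of_ne_zero fun h0 => ?_, Nat.div_le_div_right b4⟩,
          mem_Icc.2 ⟨Nat.pos_of_ne_zero fun h0 => ?_, (Nat.div_le_self _ _).trans b2⟩⟩
        · simp only at h0
          rw [h0] at e2; omega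
        · simp only at h0
          rw [h0] at e1; omega

lemma har_Row {n g : ℕ} {Δ : ℝ} (hn : 1 ≤ n) (hD : DivB (6 * n ^ 3) Δ) :
    ∑ d ∈ Ioc g (2 * n), (d : ℝ)⁻¹ ≤ 2 * Δ := by
  have h1 := harmonic_le_one_add_log (2 * n)
  simp_rw [harmonic_eq_sum_Icc, Rat.cast_sum, Rat.cast_inv, Rat.cast_natCast] at h1
  have h2 : ∑ d ∈ Ioc g (2 * n), (d : ℝ)⁻¹ ≤ ∑ d ∈ Icc 1 (2 * n), (d : ℝ)⁻¹ :=
    sum_le_sum_of_subset_of_nonneg (fun d hd => by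
      obtain ⟨a, b⟩ := mem_Ioc.1 hd
      exact mem_Icc.2 ⟨by omega, b⟩) fun _ _ _ => by positivity
  have h3 := DivB_log hD (Y := 2 * n) (by nlinarith [Nat.le_self_pow three_ne_zero n])
  have h4 : ((2 * n : ℕ) : ℝ) ≤ 2 ^ (Nat.log 2 (2 * n) + 1) := by
    exact_mod_cast (Nat.lt_pow_succ_log_self one_lt_two (2 * n)).le
  have h5 := Real.log_le_log (by positivity) h4
  rw [Real.log_pow] at h5
  have h6 : Real.log 2 ≤ 1 := by linarith [Real.log_two_lt_d9]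
  have h7 : ((Nat.log 2 (2 * n) + 1 : ℕ) : ℝ) * Real.log 2 ≤ (Nat.log 2 (2 * n) + 1 : ℕ) :=
    mul_le_of_le_one_right (Nat.cast_nonneg _) h6
  push_cast at h1 h5 h7
  linarith [hD.1]

lemma sq_Row {n g : ℕ} (hg : 1 ≤ g) : ∑ d ∈ Ioc g (2 * n), ((d : ℝ) ^ 2)⁻¹ ≤ (g : ℝ)⁻¹ := by
  rcases le_total g (2 * n) with h | h
  · exact (sum_Ioc_inv_sq_le_sub (by omega) h).trans (sub_le_self _ (by positivity))
  · rw [Ioc_eq_empty (not_lt.2 h), sum_empty]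
    positivity

theorem row_stmt (hF : FeStmt) : RowStmt := by
  refine ⟨960, by norm_num, fun n g L Δ hn hg hL hD k hk => ?_⟩
  have n0 : (0 : ℝ) < n := by exact_mod_cast hn
  have L0 : (0 : ℝ) < L := by exact_mod_cast hL
  have Δ1 := hD.1
  set G : ℕ → ℕ → ℕ → ℝ := fun d c x =>
    20 * L * kp (((x : ℝ) - (k * c : ℕ)) / (6 * (n : ℝ) ^ 3 / (L * d))) with hG
  have G0 : ∀ d c x, 0 ≤ G d c x := fun d c x => mul_nonneg (by positivity) (kp_pos _).le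
  have s1 : ∀ j ∈ Rg (n ^ 2), ∑ p ∈ Phi n g, Fe L ((j : ℝ) / k * ((p.1 : ℝ) / p.2)) ≤
      ∑ d ∈ Ioc g (2 * n), ∑ c ∈ Icc 1 (2 * n / d), ∑ a ∈ Icc 1 (2 * n), G d c (j * a) :=
    fun j hj => inj_Row hn _ (fun d c a => G d c (j * a)) (fun _ _ _ => G0 _ _ _)
      fun d a c hd a1 a2 c1 c2 => pt_Row hF hn hL hd a1 a2 c1 c2 hj hk
  have s2 : ∀ d ∈ Ioc g (2 * n), ∀ c : ℕ,
      ∑ j ∈ Rg (n ^ 2), ∑ a ∈ Icc 1 (2 * n), G d c (j * a) ≤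
        Δ * (20 * L * (2 + 4 * (6 * (n : ℝ) ^ 3 / (L * d)))) := by
    intro d hd c
    have d0 : (0 : ℝ) < d := by
      have := (mem_Ioc.1 hd).1
      exact_mod_cast (by omega : 0 < d)
    refine (div_Row hD (G d c) (G0 d c) fun j hj a ha => ?_).trans
      (mul_le_mul_of_nonneg_left ?_ (by linarith))
    · obtain ⟨⟨j1, j2⟩, -⟩ := mem_Rg.1 hj
      obtain ⟨a1, a2⟩ := mem_Icc.1 ha
      refine ⟨Nat.mul_pos j1 a1, (Nat.mul_le_mul j2 a2).trans_eq (by ring)⟩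
    · simp only [hG]
      rw [← mul_sum]
      exact mul_le_mul_of_nonneg_left (sum_kp_sep _ (fun x : ℕ => (x : ℝ)) (nat_sep _) _
        (by positivity)) (by positivity)
  have s3 : ∀ d ∈ Ioc g (2 * n), ∑ j ∈ Rg (n ^ 2), ∑ c ∈ Icc 1 (2 * n / d),
      ∑ a ∈ Icc 1 (2 * n), G d c (j * a) ≤
        80 * Δ * L * n * (d : ℝ)⁻¹ + 960 * Δ * (n : ℝ) ^ 4 * ((d : ℝ) ^ 2)⁻¹ := by
    intro d hd
    have d0 : (0 : ℝ) < d := by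
      have := (mem_Ioc.1 hd).1
      exact_mod_cast (by omega : 0 < d)
    rw [sum_comm]
    refine (sum_le_card_nsmul _ _ _ fun c _ => s2 d hd c).trans ?_
    rw [Nat.card_Icc, Nat.add_sub_cancel, nsmul_eq_mul]
    have e : ((2 * n / d : ℕ) : ℝ) ≤ 2 * n / d := by
      have := Nat.cast_div_le (α := ℝ) (m := 2 * n) (n := d)
      push_cast at this
      exact this
    refine (mul_le_mul_of_nonneg_right e (by positivity)).trans_eq ?_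
    field_simp
    ring
  refine (sum_le_sum s1).trans ?_
  rw [sum_comm]
  refine (sum_le_sum s3).trans ?_
  rw [sum_add_distrib, ← mul_sum, ← mul_sum]
  have t1 := mul_le_mul_of_nonneg_left (har_Row (g := g) hn hD)
    (by positivity : 0 ≤ 80 * Δ * L * n)
  have t2 := mul_le_mul_of_nonneg_left (sq_Row (n := n) hg)
    (by positivity : 0 ≤ 960 * Δ * (n : ℝ) ^ 4)
  have t3 : Δ * ((n : ℝ) ^ 4 * (g : ℝ)⁻¹) ≤ Δ ^ 2 * ((n : ℝ) ^ 4 * (g : ℝ)⁻¹) :=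
    mul_le_mul_of_nonneg_right (by nlinarith) (by positivity)
  have t4 : 0 ≤ Δ ^ 2 * (L * n) := by positivity
  rw [div_eq_mul_inv]
  nlinarith

end Pool.Agent.MP_2a1f0e_nt.SQ

end

section

set_option autoImplicit false

open Finset

namespace Pool.Agent.MP_2a1f0e_nt.SQ

open GM GM2

lemma sub_Sch {N : ℕ} (hN : 1 ≤ N) : Icc N (2 * N) ⊆ Rg N := fun k hk => by
  rw [mem_Icc] at hk
  rw [mem_Rg]
  omega

lemma al_eq_Sch {N : ℕ} (hN : 1 ≤ N) (β : ℕ → ℂ) (s : Finset ℤ) (g : ℤ → ℝ) {k : ℕ}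
    (hk : 1 ≤ k) : al N β s g k = ∑ j ∈ Icc N (2 * N), β j * FT s g ((j : ℝ) / k) := by
  unfold al DP FT
  simp only [mul_sum, sum_mul]
  rw [sum_comm]
  refine sum_congr rfl fun j hj => sum_congr rfl fun t _ => ?_
  have h1 : (j : ℝ) ≠ 0 := Nat.cast_ne_zero.2 (by have := (mem_Icc.1 hj).1; omega)
  have h2 : (k : ℝ) ≠ 0 := Nat.cast_ne_zero.2 (by omega)
  rw [pw_div h1 h2]
  ring

theorem sch_stmt : SchStmt := by
  intro N β s g R hN hR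
  have hs := sub_Sch hN
  have R0 : 0 ≤ R := (sum_nonneg fun _ _ => norm_nonneg _).trans
    (hR N (hs (mem_Icc.2 ⟨le_rfl, by omega⟩)))
  refine (NW_le_Rg hN _).trans ?_
  have h1 : ∀ k ∈ Rg N, ‖al N β s g k‖ ^ 2 ≤
      R * ∑ j ∈ Icc N (2 * N), ‖FT s g ((j : ℝ) / k)‖ * ‖β j‖ ^ 2 := by
    intro k hk
    rw [al_eq_Sch hN β s g (mem_Rg.1 hk).1.1]
    refine (pow_le_pow_left₀ (norm_nonneg _) (norm_sum_le _ _) 2).trans ?_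
    refine (sum_sq_le_sum_mul_sum_of_sq_le_mul _ (f := fun j : ℕ => ‖FT s g ((j : ℝ) / k)‖)
      (g := fun j : ℕ => ‖FT s g ((j : ℝ) / k)‖ * ‖β j‖ ^ 2) (fun _ _ => norm_nonneg _)
      (fun _ _ => by positivity) fun j _ => le_of_eq (by rw [norm_mul]; ring)).trans ?_
    exact mul_le_mul_of_nonneg_right
      ((sum_le_sum_of_subset_of_nonneg hs fun _ _ _ => norm_nonneg _).trans (hR k hk))
      (sum_nonneg fun _ _ => by positivity)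
  refine (sum_le_sum h1).trans ?_
  rw [← mul_sum, sum_comm, sq R, mul_assoc]
  refine mul_le_mul_of_nonneg_left ?_ R0
  rw [mul_sum]
  refine sum_le_sum fun j hj => ?_
  rw [← sum_mul]
  refine mul_le_mul_of_nonneg_right (le_trans (le_of_eq ?_) (hR j (hs hj))) (sq_nonneg _)
  exact sum_congr rfl fun k _ => by rw [← norm_FT_inv, inv_div]

lemma mv_Sch {N L : ℕ} (hN : 1 ≤ N) (hL : N ≤ L) (c : ℕ → ℂ) :
    ∑ t ∈ Io L, ‖∑ k ∈ Rg N, c k * pw (k : ℝ) (t : ℝ)‖ ^ 2 ≤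
      576 * L * ∑ k ∈ Rg N, ‖c k‖ ^ 2 := by
  have hL' : (N : ℝ) ≤ L := by exact_mod_cast hL
  have h1 := mv_kernel (Rg N) (fun k => c k * pw (k : ℝ) (-(L : ℝ))) (fun k => ‖c k‖)
    (fun k _ => by rw [norm_mul, norm_pw, mul_one]) 2 (2 * L) (by norm_num) (by omega)
    (3 * N) 4 (by norm_num) (by push_cast; linarith) (fun k hk => (mem_Rg.1 hk).1.1)
    (fun k hk => by exact_mod_cast (mem_Rg.1 hk).1.2)
    (fun k hk j hj => by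
      have := mem_Rg.1 hk
      have := mem_Rg.1 hj
      omega)
  have h2 := kernel_schur (Rg N) (fun k => ‖c k‖) (H := 4) (by norm_num)
  have h3 : ∑ t ∈ Io L, ‖∑ k ∈ Rg N, c k * pw (k : ℝ) (t : ℝ)‖ ^ 2 ≤
      ∑ t ∈ Icc 1 (2 * L), ‖∑ k ∈ Rg N, c k * pw (k : ℝ) (-(L : ℝ)) * nit t k‖ ^ 2 := by
    have e : ∀ t : ℕ, ‖∑ k ∈ Rg N, c k * pw (k : ℝ) (-(L : ℝ)) * nit t k‖ ^ 2 =
        ‖∑ k ∈ Rg N, c k * pw (k : ℝ) (((t : ℤ) - L : ℤ) : ℝ)‖ ^ 2 := fun t => by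
      congr 2
      refine sum_congr rfl fun k _ => ?_
      have : nit t k = pw (k : ℝ) (t : ℝ) := by
        unfold pw nit
        simp
      rw [this, mul_assoc, ← pw_add]
      congr 2
      push_cast
      ring
    simp only [e]
    rw [← sum_image (s := Icc 1 (2 * L)) (g := fun t : ℕ => (t : ℤ) - L)
      (f := fun t : ℤ => ‖∑ k ∈ Rg N, c k * pw (k : ℝ) (t : ℝ)‖ ^ 2)
      (fun a _ b _ h => by simpa using h)]
    refine sum_le_sum_of_subset_of_nonneg (fun t ht => ?_) fun _ _ _ => sq_nonneg _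
    obtain ⟨a1, a2⟩ := mem_Io.1 ht
    exact mem_image.2 ⟨(t + L).toNat, mem_Icc.2 ⟨by omega, by omega⟩, by omega⟩
  refine h3.trans (h1.trans ((mul_le_mul_of_nonneg_left h2 (by positivity)).trans_eq ?_))
  push_cast
  ring

theorem dual_stmt : DualStmt := by
  refine ⟨576, by norm_num, fun N L y hN hL => (NW_le_Rg hN _).trans ?_⟩
  set c : ℕ → ℂ := fun k => ∑ t ∈ Io L, y t * pw (k : ℝ) (-(t : ℝ)) with hc
  have h1 := mv_Sch hN hL c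
  have h2 : ((∑ k ∈ Rg N, ‖c k‖ ^ 2 : ℝ) : ℂ) =
      ∑ t ∈ Io L, y t * (starRingEnd ℂ) (∑ k ∈ Rg N, c k * pw (k : ℝ) (t : ℝ)) := by
    simp only [map_sum, mul_sum, map_mul, conj_pw]
    rw [sum_comm, Complex.ofReal_sum]
    refine sum_congr rfl fun k _ => ?_
    rw [Complex.ofReal_pow, ← Complex.mul_conj']
    generalize (starRingEnd ℂ) (c k) = z
    simp only [hc, sum_mul]
    exact sum_congr rfl fun t _ => by ring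
  have A0 : 0 ≤ ∑ k ∈ Rg N, ‖c k‖ ^ 2 := sum_nonneg fun _ _ => sq_nonneg _
  have h3 : ∑ k ∈ Rg N, ‖c k‖ ^ 2 ≤
      ∑ t ∈ Io L, ‖y t‖ * ‖∑ k ∈ Rg N, c k * pw (k : ℝ) (t : ℝ)‖ := by
    rw [← Real.norm_of_nonneg A0, ← Complex.norm_real, h2]
    refine (norm_sum_le _ _).trans (le_of_eq (sum_congr rfl fun t _ => ?_))
    rw [norm_mul, Complex.norm_conj]
  have h4 := (pow_le_pow_left₀ A0 h3 2).trans (sum_mul_sq_le_sq_mul_sq _ _ _)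
  have Y0 : 0 ≤ ∑ t ∈ Io L, ‖y t‖ ^ 2 := sum_nonneg fun _ _ => sq_nonneg _
  have h5 := h4.trans (mul_le_mul_of_nonneg_left h1 Y0)
  change ∑ k ∈ Rg N, ‖c k‖ ^ 2 ≤ _
  rcases A0.eq_or_lt with h | h
  · rw [← h]
    positivity
  · exact le_of_mul_le_mul_right (by linarith) h

end Pool.Agent.MP_2a1f0e_nt.SQ

end

section

set_option autoImplicit false

open Finset

namespace Pool.Agent.MP_2a1f0e_nt.SQ

open GM GM2

lemma normsq_Pts (P : Finset (ℕ × ℕ)) (hP : ∀ p ∈ P, 1 ≤ p.1 ∧ 1 ≤ p.2) (b : ℕ → ℂ) (t : ℝ) :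
    ((‖FP P b t‖ ^ 2 : ℝ) : ℂ) = ∑ p ∈ P, ∑ q ∈ P,
      (b p.1 * (starRingEnd ℂ) (b p.2)) * ((starRingEnd ℂ) (b q.1) * b q.2) *
        pw (((p.1 * q.2 : ℕ) : ℝ) / ((p.2 * q.1 : ℕ) : ℝ)) t := by
  rw [Complex.ofReal_pow, ← Complex.mul_conj', FP, map_sum, sum_mul_sum]
  refine sum_congr rfl fun p hp => sum_congr rfl fun q hq => ?_
  have h1 : (p.1 : ℝ) ≠ 0 := Nat.cast_ne_zero.2 (by have := (hP p hp).1; omega)
  have h2 : (p.2 : ℝ) ≠ 0 := Nat.cast_ne_zero.2 (by have := (hP p hp).2; omega)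
  have h3 : (q.1 : ℝ) ≠ 0 := Nat.cast_ne_zero.2 (by have := (hP q hq).1; omega)
  have h4 : (q.2 : ℝ) ≠ 0 := Nat.cast_ne_zero.2 (by have := (hP q hq).2; omega)
  have e : ((p.1 * q.2 : ℕ) : ℝ) / ((p.2 * q.1 : ℕ) : ℝ) =
      ((p.1 : ℝ) / p.2) / ((q.1 : ℝ) / q.2) := by
    push_cast
    field_simp
  rw [e, pw_div (div_ne_zero h1 h2) (div_ne_zero h3 h4), map_mul, map_mul, conj_pw,
    Complex.conj_conj]
  ring

lemma expand_Pts (hT : TriangStmt) (L : ℕ) (P : Finset (ℕ × ℕ))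
    (hP : ∀ p ∈ P, 1 ≤ p.1 ∧ 1 ≤ p.2) (b : ℕ → ℂ) (t₀ : ℤ) {v : ℝ} (hv : 0 < v) :
    FT (Io L) (fun u => tri L u * ‖FP P b ((t₀ + u : ℤ) : ℝ)‖ ^ 2) v = ∑ p ∈ P, ∑ q ∈ P,
      (b p.1 * (starRingEnd ℂ) (b p.2)) * ((starRingEnd ℂ) (b q.1) * b q.2) *
        pw (((p.1 * q.2 : ℕ) : ℝ) / ((p.2 * q.1 : ℕ) : ℝ)) t₀ *
        (Fe L (v * (((p.1 * q.2 : ℕ) : ℝ) / ((p.2 * q.1 : ℕ) : ℝ))) : ℂ) := by
  simp_rw [← FT_tri hT]
  unfold FT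
  simp_rw [mul_sum]
  simp_rw [sum_comm (s := P) (t := Io L)]
  refine sum_congr rfl fun u _ => ?_
  rw [Complex.ofReal_mul, normsq_Pts P hP, mul_sum, sum_mul]
  refine sum_congr rfl fun p hp => ?_
  rw [mul_sum, sum_mul]
  refine sum_congr rfl fun q hq => ?_
  have h1 : ((p.1 * q.2 : ℕ) : ℝ) ≠ 0 :=
    Nat.cast_ne_zero.2 (Nat.mul_ne_zero (by have := (hP p hp).1; omega)
      (by have := (hP q hq).2; omega))
  have h2 : ((p.2 * q.1 : ℕ) : ℝ) ≠ 0 :=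
    Nat.cast_ne_zero.2 (Nat.mul_ne_zero (by have := (hP p hp).2; omega)
      (by have := (hP q hq).1; omega))
  rw [pw_mul hv.ne' (div_ne_zero h1 h2), Int.cast_add, pw_add]
  ring

lemma reindex_Pts (n : ℕ) (f : ℕ → ℕ → ℕ → ℕ → ℝ) :
    ∑ p ∈ Pr n, ∑ q ∈ Pr n, f p.1 p.2 q.1 q.2 = ∑ x ∈ Pr n, ∑ y ∈ Pr n, f x.1 y.1 y.2 x.2 := by
  unfold Pr
  simp only [sum_product]
  refine sum_congr rfl fun a _ => ?_
  rw [sum_comm (s := Icc n (2 * n)) (t := Icc n (2 * n))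
    (f := fun d c => ∑ e ∈ Icc n (2 * n), f a c e d)]
  refine sum_congr rfl fun c _ => ?_
  exact sum_comm

lemma fibre_Pts {n : ℕ} (hn : 1 ≤ n) {Δ : ℝ} (hD : DivB (2 * n ^ 2) Δ) {b : ℕ → ℂ}
    (hb : Adm n b) (F : ℕ → ℝ) (hF : ∀ k, 0 ≤ F k) :
    ∑ x ∈ Pr n, ‖b x.1‖ * ‖b x.2‖ * F (x.1 * x.2) ≤ Δ * ∑ k ∈ Icc (n ^ 2) (2 * n ^ 2), F k := by
  have h1 : ∑ x ∈ Pr n, ‖b x.1‖ * ‖b x.2‖ * F (x.1 * x.2) ≤
      ∑ x ∈ (Pr n).filter (fun x => x.1 * x.2 ≤ 2 * n ^ 2), F (x.1 * x.2) := by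
    rw [sum_filter]
    refine sum_le_sum fun x _ => ?_
    split_ifs with h
    · exact mul_le_of_le_one_left (hF _) (mul_le_one₀ (hb.1 _) (norm_nonneg _) (hb.1 _))
    · by_cases h1 : 7 * n < 5 * x.1
      · rw [hb.2 _ h1]
        simp
      · by_cases h2 : 7 * n < 5 * x.2
        · rw [hb.2 _ h2]
          simp
        · exfalso
          have h3 : (5 * x.1) * (5 * x.2) ≤ (7 * n) * (7 * n) :=
            Nat.mul_le_mul (not_lt.1 h1) (not_lt.1 h2)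
          apply h
          nlinarith
  refine h1.trans ?_
  have hm : ∀ x ∈ (Pr n).filter (fun x => x.1 * x.2 ≤ 2 * n ^ 2),
      x.1 * x.2 ∈ Icc (n ^ 2) (2 * n ^ 2) := by
    intro x hx
    obtain ⟨hx1, hx2⟩ := mem_filter.1 hx
    obtain ⟨⟨a1, _⟩, a2, _⟩ := mem_Pr.1 hx1
    refine mem_Icc.2 ⟨?_, hx2⟩
    rw [sq]
    exact Nat.mul_le_mul a1 a2
  rw [← sum_fiberwise_of_maps_to hm, mul_sum]
  refine sum_le_sum fun k hk => ?_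
  obtain ⟨hk1, hk2⟩ := mem_Icc.1 hk
  have hk0 : k ≠ 0 := by
    have : 1 ≤ n ^ 2 := Nat.one_le_pow _ _ hn
    omega
  rw [sum_congr rfl (g := fun _ => F k) (fun x hx => by rw [(mem_filter.1 hx).2]), sum_const,
    nsmul_eq_mul]
  refine mul_le_mul_of_nonneg_right (le_trans ?_ (hD.2 k hk2)) (hF k)
  refine Nat.cast_le.2 (card_le_card_of_injOn (fun x => x.1) ?_ ?_)
  · intro x hx
    have h := (mem_filter.1 (mem_coe.1 hx)).2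
    exact mem_coe.2 (Nat.mem_divisors.2 ⟨⟨x.2, h.symm⟩, hk0⟩)
  · intro x hx y hy hxy
    have h := (mem_filter.1 (mem_coe.1 hx)).2
    have h' := (mem_filter.1 (mem_coe.1 hy)).2
    have hxy' : x.1 = y.1 := hxy
    have h0 : 0 < y.1 := Nat.pos_of_ne_zero fun h0 => hk0 (by rw [← h', h0, zero_mul])
    refine Prod.ext hxy' (Nat.eq_of_mul_eq_mul_left h0 ?_)
    rw [h', ← hxy', h]

lemma one_Pts (hT : TriangStmt) {N : ℕ} (hN : 1 ≤ N) (L : ℕ) {v : ℝ} (hv : 0 < v) :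
    ∑ k ∈ Icc N (2 * N), ∑ j ∈ Icc N (2 * N), Fe L (v * ((k : ℝ) / j)) ≤
      ‖FT (Ioo (-(L : ℤ)) L) (fun u => ((L : ℝ) - |(u : ℝ)|) / L *
        ‖DP N (fun _ => 1) (((0 : ℤ) + u : ℤ) : ℝ)‖ ^ 2) v‖ := by
  have h : FT (Ioo (-(L : ℤ)) L) (fun u => ((L : ℝ) - |(u : ℝ)|) / L *
        ‖DP N (fun _ => 1) (((0 : ℤ) + u : ℤ) : ℝ)‖ ^ 2) v =
      ((∑ k ∈ Icc N (2 * N), ∑ j ∈ Icc N (2 * N), Fe L (v * ((k : ℝ) / j)) : ℝ) : ℂ) := by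
    rw [expand_Pt hT, Complex.ofReal_sum]
    refine sum_congr rfl fun k hk => ?_
    rw [Complex.ofReal_sum]
    refine sum_congr rfl fun j hj => ?_
    have h1 : (k : ℝ) ≠ 0 := Nat.cast_ne_zero.2 (by have := (mem_Icc.1 hk).1; omega)
    have h2 : (j : ℝ) ≠ 0 := Nat.cast_ne_zero.2 (by have := (mem_Icc.1 hj).1; omega)
    rw [Fe, Real.log_mul hv.ne' (div_ne_zero h1 h2), Real.log_div h1 h2, Int.cast_zero, pw_zero,
      pw_zero, Complex.ofReal_div, add_sub_assoc, Complex.ofReal_natCast]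
    simp only [mul_one, map_one]
    ring
  rw [h, Complex.norm_real, Real.norm_eq_abs]
  exact le_abs_self _

theorem pts_stmt (hT : TriangStmt) (hP : PtStmt) : PtsStmt := by
  obtain ⟨C, hC, hP⟩ := hP
  refine ⟨C, hC, ?_⟩
  intro n M L Δ P b t₀ hn hL hLM hD hPs hb v hv
  have hv0 : 0 < v := Icc_sub_Ioi hv
  have hN : 1 ≤ n ^ 2 := Nat.one_le_pow _ _ hn
  have hΔ : 0 ≤ Δ := zero_le_one.trans hD.1
  have h5 := (one_Pts hT hN L hv0).trans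
    (hP (n ^ 2) M L hN hL hLM (fun _ => 1) (fun _ => by simp) 0 v hv)
  rw [expand_Pts hT L P (pos_Pr hn hPs) b t₀ hv0]
  set f : ℕ → ℕ → ℕ → ℕ → ℝ := fun a c d e => ‖b a‖ * ‖b e‖ * (‖b c‖ * ‖b d‖ *
    Fe L (v * (((a * e : ℕ) : ℝ) / ((c * d : ℕ) : ℝ)))) with hf
  have hf0 : ∀ a c d e, 0 ≤ f a c d e := fun a c d e => by
    have := Fe_nonneg L (v * (((a * e : ℕ) : ℝ) / ((c * d : ℕ) : ℝ)))
    simp only [hf]
    positivity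
  calc _ ≤ ∑ p ∈ P, ∑ q ∈ P, f p.1 p.2 q.1 q.2 := by
        refine (norm_sum_le _ _).trans (sum_le_sum fun p _ => ?_)
        refine (norm_sum_le _ _).trans (sum_le_sum fun q _ => le_of_eq ?_)
        rw [norm_mul, norm_mul, norm_mul, norm_mul, norm_mul, norm_pw, Complex.norm_conj,
          Complex.norm_conj, Complex.norm_real, Real.norm_of_nonneg (Fe_nonneg _ _)]
        simp only [hf]
        ring
    _ ≤ ∑ p ∈ Pr n, ∑ q ∈ Pr n, f p.1 p.2 q.1 q.2 := by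
        refine (sum_le_sum fun p _ => sum_le_sum_of_subset_of_nonneg hPs
          fun q _ _ => hf0 _ _ _ _).trans ?_
        exact sum_le_sum_of_subset_of_nonneg hPs fun p _ _ => sum_nonneg fun q _ => hf0 _ _ _ _
    _ = ∑ x ∈ Pr n, ∑ y ∈ Pr n, f x.1 y.1 y.2 x.2 := reindex_Pts n f
    _ ≤ ∑ x ∈ Pr n, ‖b x.1‖ * ‖b x.2‖ * (Δ * ∑ j ∈ Icc (n ^ 2) (2 * n ^ 2),
          Fe L (v * (((x.1 * x.2 : ℕ) : ℝ) / (j : ℝ)))) := by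
        refine sum_le_sum fun x _ => ?_
        simp only [hf]
        rw [← mul_sum]
        exact mul_le_mul_of_nonneg_left
          (fibre_Pts hn hD hb (fun j => Fe L (v * (((x.1 * x.2 : ℕ) : ℝ) / (j : ℝ))))
            fun _ => Fe_nonneg _ _) (by positivity)
    _ ≤ Δ * ∑ k ∈ Icc (n ^ 2) (2 * n ^ 2), Δ * ∑ j ∈ Icc (n ^ 2) (2 * n ^ 2),
          Fe L (v * ((k : ℝ) / (j : ℝ))) :=
        fibre_Pts hn hD hb (fun k => Δ * ∑ j ∈ Icc (n ^ 2) (2 * n ^ 2),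
          Fe L (v * ((k : ℝ) / (j : ℝ))))
          fun _ => mul_nonneg hΔ (sum_nonneg fun _ _ => Fe_nonneg _ _)
    _ ≤ Δ * (Δ * (C * ((n ^ 2 : ℕ) : ℝ) ^ 2 * (1 + rho (n ^ 2) M v))) := by
        rw [← mul_sum]
        gcongr
    _ = _ := by
        push_cast
        ring

end Pool.Agent.MP_2a1f0e_nt.SQ

end

section

set_option autoImplicit false

open Finset

namespace Pool.Agent.MP_2a1f0e_nt.SQ

open GM GM2

lemma one_Sp {N M T : ℕ} (hT : 1 ≤ T) (hM : 1 ≤ M) (F : ℝ → ℝ) (hF : ∀ x, 0 ≤ F x) {A : ℝ}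
    (hA : 0 ≤ A) (h : ∀ v ∈ Set.Icc (1 / 9 : ℝ) (82 / 9),
      ‖FT (Io (8 * T)) (fun u => tri (8 * T) u * F ((0 + u : ℤ) : ℝ)) v‖ ≤ A * (1 + rho N M v)) :
    ∑ t ∈ Io (2 * T), F t ≤ 10 * A * M := by
  have e1 := reindex_SSt T hT F (fun _ => 1) hF (fun _ => zero_le_one) 0
    (by rw [mem_Ioo]; omega)
  simp only [mul_one] at e1
  have e2 := h 1 ⟨by norm_num, by norm_num⟩
  unfold FT at e2
  simp only [pw_one, mul_one] at e2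
  rw [← Complex.ofReal_sum, Complex.norm_real] at e2
  have e3 := (le_abs_self _).trans e2
  have e4 : (1 : ℝ) ≤ M := by exact_mod_cast hM
  have e5 := mul_le_mul_of_nonneg_left
    (show 1 + rho N M 1 ≤ 5 * M by linarith [rho_le N M 1]) hA
  rw [Io_two]
  refine e1.trans ((mul_le_mul_of_nonneg_left (e3.trans e5) zero_le_two).trans (le_of_eq ?_))
  ring

lemma two_Sp (h2 : TwoStmt) (hR : RhoStmt) : ∃ C : ℝ, 0 < C ∧ ∀ (N M T : ℕ) (Δ A : ℝ)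
    (F : ℝ → ℝ), 1 ≤ N → 1 ≤ T → DivB (N * M) Δ → (∀ x, 0 ≤ F x) → 0 ≤ A → ∀ s ∈ Io (2 * T),
    (∀ v ∈ Set.Icc (1 / 9 : ℝ) (82 / 9),
      ‖FT (Io (8 * T)) (fun u => tri (8 * T) u * F ((s + u : ℤ) : ℝ)) v‖ ≤ A * (1 + rho N M v)) →
    ∑ t ∈ Io (2 * T), F t * ‖Kb N M ((s : ℝ) - t)‖ ^ 2 ≤ C * (A * (N : ℝ) ^ 2 * R2 N M Δ) := by
  obtain ⟨C2, hC2, h2⟩ := h2
  obtain ⟨CR, hCR, hR⟩ := hR
  refine ⟨4 * C2 * CR, by positivity, ?_⟩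
  intro N M T Δ A F hN hT hD hF hA s hs e3
  have hN' : (0 : ℝ) < N := by exact_mod_cast hN
  rw [Io_two] at hs ⊢
  have e1 := reindex_SSt T hT F (fun x => ‖Kb N M x‖ ^ 2) hF (fun _ => sq_nonneg _) s hs
  have e2 := h2 N M hN (Io (8 * T)) fun u => tri (8 * T) u * F ((s + u : ℤ) : ℝ)
  obtain ⟨e4, e5⟩ := hR N M Δ hN hD
  have hc := continuous_rho N M
  have e6 := II_mono (f := fun v => ‖FT (Io (8 * T))
      (fun u => tri (8 * T) u * F ((s + u : ℤ) : ℝ)) v‖ * rho N M v)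
    (g := fun v => A * (rho N M v + rho N M v ^ 2))
    ((((continuousOn_FT _ _).mono Icc_sub_Ioi).norm).mul hc.continuousOn)
    (Continuous.continuousOn (by fun_prop)) fun v hv => by
      refine (mul_le_mul_of_nonneg_right (e3 v hv) (rho_nonneg N M v)).trans (le_of_eq ?_)
      ring
  have e7 : II (fun v => A * (rho N M v + rho N M v ^ 2)) =
      A * (II (rho N M) + II fun v => rho N M v ^ 2) := by
    unfold II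
    rw [intervalIntegral.integral_const_mul, intervalIntegral.integral_add
      (g := fun v => rho N M v ^ 2) (hc.intervalIntegrable _ _) ((hc.pow 2).intervalIntegrable _ _)]
  have e8 : (M : ℝ) / N ≤ (M : ℝ) ^ 2 / (N : ℝ) ^ 2 + M * Δ / N := by
    have : (M : ℝ) / N ≤ M * Δ / N :=
      div_le_div_of_nonneg_right (le_mul_of_one_le_right (Nat.cast_nonneg M) hD.1) hN'.le
    have : 0 ≤ (M : ℝ) ^ 2 / (N : ℝ) ^ 2 := by positivity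
    linarith
  have e9 : II (rho N M) + II (fun v => rho N M v ^ 2) ≤ 2 * CR * R2 N M Δ := by
    have := mul_le_mul_of_nonneg_left e8 hCR.le
    unfold R2
    linarith
  simp only [norm_Kb_sub N M (s : ℝ)]
  refine e1.trans ?_
  refine (mul_le_mul_of_nonneg_left (e2.trans (mul_le_mul_of_nonneg_left (e6.trans (e7.le.trans
    (mul_le_mul_of_nonneg_left e9 hA))) (by positivity))) zero_le_two).trans (le_of_eq ?_)
  ring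

theorem sp_stmt (h2 : TwoStmt) (hP : PtsStmt) (hR : RhoStmt) : SpStmt := by
  obtain ⟨C, hC, h⟩ := two_Sp h2 hR
  obtain ⟨CP, hCP, hP⟩ := hP
  refine ⟨(10 + C) * CP, by positivity, ?_⟩
  intro n M T Δ b hn hnT hT hD hb P hPr
  have h1 : 1 ≤ n ^ 2 := Nat.one_le_pow _ _ hn
  have hM : 1 ≤ M := by
    rcases Nat.eq_zero_or_pos M with rfl | h0
    · omega
    · exact h0
  have h3 := fun s => hP n M (8 * T) Δ P b s hn (by omega) hT (DivB_mono hD (by omega)) hPr hb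
  have hA : 0 ≤ CP * Δ ^ 2 * (n : ℝ) ^ 4 := by positivity
  have hΔ : 0 ≤ Δ := zero_le_one.trans hD.1
  have hR2 : 0 ≤ R2 (n ^ 2) M Δ := by
    unfold R2
    positivity
  refine ⟨(one_Sp (h1.trans hnT) hM (fun x => ‖FP P b x‖ ^ 2) (fun _ => sq_nonneg _) hA
    (h3 0)).trans ?_, fun s hs => (h (n ^ 2) M T Δ _ (fun x => ‖FP P b x‖ ^ 2) h1 (h1.trans hnT)
      hD (fun _ => sq_nonneg _) hA s hs (h3 s)).trans ?_⟩
  · have : 0 ≤ C * (CP * Δ ^ 2 * (n : ℝ) ^ 4) * M := by positivity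
    linarith
  · have : 0 ≤ 10 * CP * Δ ^ 2 * (n : ℝ) ^ 8 * R2 (n ^ 2) M Δ := by positivity
    push_cast
    linarith

end Pool.Agent.MP_2a1f0e_nt.SQ

end

section

set_option autoImplicit false

open Finset

namespace Pool.Agent.MP_2a1f0e_nt.SQ

open GM GM2

lemma ww_DOne {n T : ℕ} (b : ℕ → ℂ) {U u : ℝ} (hU : 0 < U) (hu : 0 < u) (t : ℤ) :
    ww n T b U u t ≤ ‖DP n b t‖ ^ 2 ∧ ww n T b U u t ≤ U ∧
      ww n T b U u t ≤ (‖DP n b t‖ ^ 2) ^ 2 / u := by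
  have h1 := nu_le n T b t
  unfold ww
  split_ifs with h
  · refine ⟨h1, h1.trans h.1, ?_⟩
    rw [le_div_iff₀ hu]
    nlinarith [h.2]
  · exact ⟨sq_nonneg _, hU.le, by positivity⟩

lemma ll_DOne {n T : ℕ} (b : ℕ → ℂ) (U : ℝ) {u : ℝ} {t : ℤ} (ht : t ∈ Io (2 * T)) :
    ll n T b U u t ^ 2 ≤ u ^ 2 := by
  unfold ll
  split_ifs with h
  · exact pow_le_pow_left₀ (nu_nonneg b ht) h.2 2
  · simpa using sq_nonneg u

lemma la_DOne {n T : ℕ} (b : ℕ → ℂ) (U : ℝ) {t : ℤ} (ht : t ∈ Io (2 * T)) :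
    la n T b U t ^ 2 ≤ (‖DP n b t‖ ^ 2) ^ 2 := by
  unfold la
  split_ifs with h
  · exact pow_le_pow_left₀ (nu_nonneg b ht) (nu_le n T b t) 2
  · simp

lemma wP_DOne {L : ℕ} (P : Finset (ℕ × ℕ)) (b : ℕ → ℂ) {t : ℤ} (ht : t ∈ Io L) :
    wP L P b t ^ 2 ≤ ‖FP P b t‖ ^ 2 := by
  rw [← sq_abs]
  exact pow_le_pow_left₀ (abs_nonneg _) (abs_wP_le P b ht) 2

lemma mm_DOne {n T : ℕ} (hn : 1 ≤ n) (g : ℕ) (b : ℕ → ℂ) (U : ℝ) {t : ℤ} (ht : t ∈ Io (2 * T)) :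
    mm n T g b U t ^ 2 ≤ 2 * ‖FP (Plo n g) b t‖ ^ 2 + 2 * ‖FP (Pr n) b t‖ ^ 2 := by
  rw [norm_FP_Pr hn, mm]
  nlinarith [wP_DOne (Plo n g) b ht, la_DOne (n := n) b U ht,
    sq_nonneg (wP (2 * T) (Plo n g) b t + la n T b U t)]

lemma six_DOne {n T : ℕ} (hn : 1 ≤ n) (g : ℕ) {b : ℕ → ℂ} (hb : ∀ a, ‖b a‖ ≤ 1) {U u c : ℝ}
    (hU : 0 < U) (hu : 0 < u) (hc : ((Phi n g).card : ℝ) ≤ c) {t : ℤ} (ht : t ∈ Io (2 * T)) :
    mm n T g b U t ^ 2 * ‖DP n b t‖ ^ 4 ≤ 3 * (U * (ww n T b U u t * ‖DP n b t‖ ^ 4) +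
      u ^ 2 * ‖FP (Pr n) b t‖ ^ 2 + U ^ 2 * ‖FP (Phi n g) b t‖ ^ 2 +
      c ^ 2 * if U < ‖DP n b t‖ ^ 2 then ‖DP n b t‖ ^ 4 else 0) := by
  have e4 : ‖DP n b t‖ ^ 4 = (‖DP n b t‖ ^ 2) ^ 2 := by ring
  have h0 : 0 ≤ ‖DP n b t‖ ^ 2 := sq_nonneg _
  have h1 := mm_sub_ww hn T g b U u t
  have h2 := ww_nonneg (n := n) b U u ht
  have h3 := (ww_DOne (n := n) (T := T) b hU hu t).2.1
  have h4 := ll_DOne (n := n) b U (u := u) ht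
  have h5 := wP_DOne (Phi n g) b ht
  have h6 : ‖FP (Phi n g) b t‖ ^ 2 ≤ c ^ 2 :=
    pow_le_pow_left₀ (norm_nonneg _) ((norm_FP_le _ hb _).trans hc) 2
  have h7 : 0 ≤ ‖FP (Phi n g) b t‖ ^ 2 := sq_nonneg _
  rw [norm_FP_Pr hn, e4]
  generalize ‖DP n b t‖ ^ 2 = d at *
  generalize ‖FP (Phi n g) b t‖ ^ 2 = F at *
  generalize mm n T g b U t = m at *
  generalize ww n T b U u t = w at *
  generalize ll n T b U u t = l at *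
  generalize wP (2 * T) (Phi n g) b t = G at *
  have k1 : m ^ 2 ≤ 3 * (U * w + u ^ 2 + F) := by
    rw [show m = w + l - G by linarith]
    nlinarith [sq_nonneg (w - l), sq_nonneg (w + G), sq_nonneg (l + G),
      mul_le_mul_of_nonneg_right h3 h2]
  have k2 : F * d ^ 2 ≤ U ^ 2 * F + c ^ 2 * if U < d then d ^ 2 else 0 := by
    split_ifs with h
    · nlinarith [mul_le_mul_of_nonneg_right h6 (sq_nonneg d), mul_nonneg (sq_nonneg U) h7]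
    · nlinarith [mul_le_mul_of_nonneg_left (pow_le_pow_left₀ h0 (not_lt.1 h) 2) h7]
  nlinarith [mul_le_mul_of_nonneg_right k1 (sq_nonneg d)]

theorem d1_stmt (hC : CardStmt) : D1Stmt := by
  intro n M T g b U u Y S Z hn _ hg hb hU hu hY hZ
  obtain ⟨y1, s1⟩ := hY (Pr n) subset_rfl
  obtain ⟨y2, s2⟩ := hY (Plo n g) (Plo_sub n g)
  obtain ⟨y3, -⟩ := hY (Phi n g) (Phi_sub n g)
  refine ⟨le_trans (sum_le_sum fun t ht => ?_) y1, ?_, ?_, fun a ha => ?_, ?_, ?_⟩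
  · rw [norm_FP_Pr hn]
    exact pow_le_pow_left₀ (ww_nonneg b U u ht) (ww_DOne b hU hu t).1 2
  · have h := sum_le_sum fun t (ht : t ∈ Io (2 * T)) => mm_DOne hn g b U ht
    rw [sum_add_distrib, ← mul_sum, ← mul_sum] at h
    linarith
  · refine le_trans ?_ (div_le_div_of_nonneg_right y1 hu.le)
    rw [sum_div]
    refine sum_le_sum fun t _ => ?_
    rw [norm_FP_Pr hn]
    exact (ww_DOne b hU hu t).2.2
  · have h := sum_le_sum fun t (ht : t ∈ Io (2 * T)) =>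
      mul_le_mul_of_nonneg_right (mm_DOne hn g b U ht) (sq_nonneg ‖Kb (n ^ 2) M ((a : ℝ) - t)‖)
    simp only [add_mul, mul_assoc] at h
    rw [sum_add_distrib, ← mul_sum, ← mul_sum] at h
    linarith [s1 a ha, s2 a ha]
  · rw [XX, mul_sum]
    refine sum_le_sum fun t ht => ?_
    rw [← mul_assoc, sq]
    exact mul_le_mul_of_nonneg_right (mul_le_mul_of_nonneg_right (ww_DOne b hU hu t).2.1
      (ww_nonneg b U u ht)) (by positivity)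
  · have h := sum_le_sum fun t (ht : t ∈ Io (2 * T)) => six_DOne hn g hb hU hu (hC n g hn hg) ht
    rw [← mul_sum, sum_add_distrib, sum_add_distrib, sum_add_distrib, ← mul_sum, ← mul_sum,
      ← mul_sum, ← mul_sum, ← sum_filter] at h
    have k1 := mul_le_mul_of_nonneg_left y1 (sq_nonneg u)
    have k2 := mul_le_mul_of_nonneg_left y3 (sq_nonneg U)
    have k3 := mul_le_mul_of_nonneg_left hZ (sq_nonneg (4 * (n : ℝ) ^ 2 / g))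
    unfold XX
    linarith

end Pool.Agent.MP_2a1f0e_nt.SQ

end

section

set_option autoImplicit false

open Finset

namespace Pool.Agent.MP_2a1f0e_nt.SQ

open GM GM2

lemma div_One9 {n σ L V : ℝ} (hn : 0 < n) (hL : 1 ≤ L) (hV : 0 < V) (h : n ^ σ ≤ L * V) (a : ℝ)
    {k m : ℕ} (hk : k ≤ m) : n ^ a / V ^ k ≤ L ^ m * n ^ (a - k * σ) := by
  have h1 : (n ^ σ) ^ k ≤ L ^ m * V ^ k := by
    refine (pow_le_pow_left₀ (by positivity) h k).trans ?_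
    rw [mul_pow]
    gcongr
  rw [Real.rpow_sub hn, mul_comm (k : ℝ), Real.rpow_mul_natCast hn.le, ← mul_div_assoc,
    div_le_div_iff₀ (by positivity) (by positivity)]
  have := mul_le_mul_of_nonneg_left h1 (show 0 ≤ n ^ a by positivity)
  linarith

lemma pow_One9 {n t a b u : ℝ} (hn : 0 < n) (ht : 0 < t)
    (h : a * Real.log t + b * Real.log n ≤ u * Real.log t) : t ^ a * n ^ b ≤ t ^ u := by
  rw [Real.rpow_def_of_pos hn, Real.rpow_def_of_pos ht, Real.rpow_def_of_pos ht, ← Real.exp_add,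
    Real.exp_le_exp]
  linarith

lemma term_One9 {n t σ L V a b u : ℝ} (hn : 0 < n) (ht : 0 < t) (hL : 1 ≤ L) (hV : 0 < V)
    (h : n ^ σ ≤ L * V) {k m : ℕ} (hk : k ≤ m)
    (h2 : a * Real.log t + (b - k * σ) * Real.log n ≤ u * Real.log t) :
    t ^ a * n ^ b / V ^ k ≤ L ^ m * t ^ u := by
  have h3 := div_One9 hn hL hV h b hk
  have h4 := pow_One9 hn ht h2
  calc t ^ a * n ^ b / V ^ k = t ^ a * (n ^ b / V ^ k) := mul_div_assoc _ _ _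
    _ ≤ t ^ a * (L ^ m * n ^ (b - k * σ)) := mul_le_mul_of_nonneg_left h3 (by positivity)
    _ = L ^ m * (t ^ a * n ^ (b - k * σ)) := by ring
    _ ≤ _ := mul_le_mul_of_nonneg_left h4 (by positivity)

lemma real_One9 {a c s : ℝ} (ha : 0 ≤ a) (h1 : a ≤ c) (h2 : 5 * c ≤ 6 * a) :
    c / 2 + (4 * s - 1) * a ≤ 9 / 4 * s * c ∨ c + (2 * s - 1) * a ≤ 9 / 4 * s * c := by
  rcases ha.eq_or_lt with h | h
  · left
    have hc : c = 0 := by linarith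
    rw [hc, ← h]
    simp
  rcases le_total (4 * s * a) c with h3 | h3
  · left
    refine le_of_mul_le_mul_left ?_ h
    have k := mul_nonneg (show 0 ≤ c / 4 - s * a by linarith) (show 0 ≤ 4 * a - 9 * c / 4 by linarith)
    nlinarith [sq_nonneg (3 * c - 4 * a)]
  · right
    refine le_of_mul_le_mul_left ?_ h
    have k := mul_nonneg (show 0 ≤ s * a - c / 4 by linarith) (show 0 ≤ 9 * c / 4 - 2 * a by linarith)
    nlinarith [sq_nonneg (3 * c - 4 * a)]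

lemma real2_One9 {a c s : ℝ} (ha : 0 ≤ a) (h1 : 2 * a ≤ c) (h2 : 3 * c ≤ 8 * a) :
    3 / 4 * c + (6 * s - 2) * a ≤ 9 / 4 * s * c ∨ c + (4 * s - 2) * a ≤ 9 / 4 * s * c := by
  rcases ha.eq_or_lt with h | h
  · left
    have hc : c = 0 := by linarith
    rw [hc, ← h]
    simp
  rcases le_total (8 * s * a) c with h3 | h3
  · left
    refine le_of_mul_le_mul_left ?_ h
    have k := mul_nonneg (show 0 ≤ c / 8 - s * a by linarith) (show 0 ≤ 6 * a - 9 * c / 4 by linarith)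
    nlinarith [sq_nonneg (3 * c - 8 * a)]
  · right
    refine le_of_mul_le_mul_left ?_ h
    have k := mul_nonneg (show 0 ≤ s * a - c / 8 by linarith) (show 0 ≤ 9 * c / 4 - 4 * a by linarith)
    nlinarith [sq_nonneg (3 * c - 8 * a)]

lemma cnt_mass_One9 (N T : ℕ) (b : ℕ → ℂ) {V : ℝ} (hV : 0 < V) :
    (DH.cnt N b T V : ℝ) * V ^ 2 ≤ Mass N b (Icc 0 (T : ℤ)) V := by
  unfold Mass DH.cnt
  rw [← nsmul_eq_mul]
  exact card_nsmul_le_sum _ _ _ fun t ht => pow_le_pow_left₀ hV.le (mem_filter.1 ht).2 2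

lemma log_One9 {x y : ℕ} (hx : 1 ≤ x) {i j : ℕ} (h : x ^ i ≤ y ^ j) :
    (i : ℝ) * Real.log x ≤ j * Real.log y := by
  have h0 : (0 : ℝ) < x := by exact_mod_cast hx
  have := Real.log_le_log (pow_pos h0 i) (show (x : ℝ) ^ i ≤ (y : ℝ) ^ j by exact_mod_cast h)
  rwa [Real.log_pow, Real.log_pow] at this

theorem one9_stmt (h1 : B1Stmt) (hM : MvStmt) : One9Stmt := by
  intro ε hε
  obtain ⟨K, hK, h1⟩ := h1 ε hε
  obtain ⟨C, hC, hM⟩ := hM ε hε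
  refine ⟨2 * K + 2 * C, by positivity, fun N T hN hNT h56 σ L V s1 s2 hL hV hσ b hb => ?_⟩
  have hT : 1 ≤ T := hN.trans hNT
  have n0 : (0 : ℝ) < N := by exact_mod_cast hN
  have t0 : (0 : ℝ) < T := by exact_mod_cast hT
  have nt : (N : ℝ) ≤ T := by exact_mod_cast hNT
  have a0 : 0 ≤ Real.log N := Real.log_natCast_nonneg N
  have l1 : Real.log N ≤ Real.log T := Real.log_le_log n0 nt
  have l2 := log_One9 hT h56
  push_cast at l2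
  have e0 : 0 ≤ (N : ℝ) ^ ε := by positivity
  have P0 : 0 ≤ (N : ℝ) ^ ε * (L ^ 4 * (T : ℝ) ^ (9 / 4 * (1 - σ))) := by positivity
  have fin : ∀ c : ℝ, c ≤ K + C → (DH.cnt N b T V : ℝ) ≤
      c * (N : ℝ) ^ ε * (2 * (L ^ 4 * (T : ℝ) ^ (9 / 4 * (1 - σ)))) →
      (DH.cnt N b T V : ℝ) ≤ (2 * K + 2 * C) * (N : ℝ) ^ ε * L ^ 4 *
        (T : ℝ) ^ (9 / 4 * (1 - σ)) := fun c hc h => by
    have := mul_le_mul_of_nonneg_right hc P0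
    linarith
  rcases real_One9 (s := 1 - σ) a0 l1 l2 with h | h
  · refine fin K (by linarith) ?_
    have m1 := (le_div_iff₀ (by positivity)).2 ((cnt_mass_One9 N T b hV).trans
      (h1 N T hN hNT h56 b hb V hV))
    refine m1.trans ?_
    rw [mul_div_assoc]
    refine mul_le_mul_of_nonneg_left ?_ (by positivity)
    have d1 := term_One9 (a := 0) (b := 2) (u := 9 / 4 * (1 - σ)) (k := 2) (m := 4) n0 t0 hL hV hσ
      (by norm_num) (by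
        have := mul_le_mul_of_nonneg_left l1 (sub_nonneg.2 s2)
        have := mul_nonneg (sub_nonneg.2 s2) (a0.trans l1)
        push_cast
        linarith)
    have d2 := term_One9 (a := 1 / 2) (b := 3) (u := 9 / 4 * (1 - σ)) (k := 4) (m := 4) n0 t0 hL
      hV hσ le_rfl (by push_cast; linarith)
    rw [Real.rpow_zero, one_mul, Real.rpow_two] at d1
    rw [← Real.sqrt_eq_rpow, Real.rpow_ofNat] at d2
    have e : ((N : ℝ) ^ 2 + √T * (N : ℝ) ^ 3 / V ^ 2) / V ^ 2 =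
        (N : ℝ) ^ 2 / V ^ 2 + √T * (N : ℝ) ^ 3 / V ^ 4 := by
      field_simp
    rw [e]
    linarith
  · refine fin C (by linarith) ((hM N T V b hN hV hb).1.trans ?_)
    refine mul_le_mul_of_nonneg_left ?_ (by positivity)
    have d1 := term_One9 (a := 1) (b := 1) (u := 9 / 4 * (1 - σ)) (k := 2) (m := 4) n0 t0 hL hV hσ
      (by norm_num) (by push_cast; linarith)
    rw [Real.rpow_one, Real.rpow_one] at d1
    have : ((T : ℝ) + N) * N / V ^ 2 ≤ 2 * ((T : ℝ) * N / V ^ 2) := by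
      rw [← mul_div_assoc, ← mul_assoc]
      gcongr
      linarith
    linarith

theorem two9_stmt (hI : Int6Stmt) (hM : MvStmt) : Two9Stmt := by
  intro ε hε
  obtain ⟨K, hK, hI⟩ := hI ε hε
  obtain ⟨C, hC, hM⟩ := hM ε hε
  refine ⟨3 * K + 3 * C, by positivity, fun N T hN hNT h38 σ L V s1 s2 hL hV hσ b hb => ?_⟩
  have hT : 1 ≤ T := (Nat.one_le_pow _ _ hN).trans hNT
  have n0 : (0 : ℝ) < N := by exact_mod_cast hN
  have t0 : (0 : ℝ) < T := by exact_mod_cast hT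
  have nt : (N : ℝ) ^ 2 ≤ T := by exact_mod_cast hNT
  have a0 : 0 ≤ Real.log N := Real.log_natCast_nonneg N
  have l1 := log_One9 (j := 1) (y := T) hN (by simpa using hNT)
  have l2 := log_One9 hT h38
  push_cast at l1 l2
  rw [one_mul] at l1
  have e0 : 0 ≤ (N : ℝ) ^ ε := by positivity
  have P1 : 0 ≤ L ^ 6 * (T : ℝ) ^ (9 / 4 * (1 - σ)) := by positivity
  have P0 : 0 ≤ (N : ℝ) ^ ε * (L ^ 6 * (T : ℝ) ^ (9 / 4 * (1 - σ))) := by positivity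
  have fin : ∀ c : ℝ, c ≤ K + C → (DH.cnt N b T V : ℝ) ≤
      c * (N : ℝ) ^ ε * (3 * (L ^ 6 * (T : ℝ) ^ (9 / 4 * (1 - σ)))) →
      (DH.cnt N b T V : ℝ) ≤ (3 * K + 3 * C) * (N : ℝ) ^ ε * L ^ 6 *
        (T : ℝ) ^ (9 / 4 * (1 - σ)) := fun c hc h => by
    have := mul_le_mul_of_nonneg_right hc P0
    linarith
  rcases real2_One9 (s := 1 - σ) a0 l1 l2 with h | h
  · refine fin K (by linarith) ((hI N T V b hN hV hb).trans ?_)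
    refine mul_le_mul_of_nonneg_left ?_ (by positivity)
    have d1 := term_One9 (a := 0) (b := 4) (u := 9 / 4 * (1 - σ)) (k := 4) (m := 6) n0 t0 hL hV hσ
      (by norm_num) (by
        have := mul_le_mul_of_nonneg_left l1 (sub_nonneg.2 s2)
        have := mul_nonneg (sub_nonneg.2 s2) a0
        push_cast
        linarith)
    have d2 := term_One9 (a := 3 / 4) (b := 4) (u := 9 / 4 * (1 - σ)) (k := 6) (m := 6) n0 t0 hL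
      hV hσ le_rfl (by push_cast; linarith)
    have d3 := term_One9 (a := 1) (b := 3) (u := 9 / 4 * (1 - σ)) (k := 6) (m := 6) n0 t0 hL
      hV hσ le_rfl (by push_cast; linarith)
    rw [Real.rpow_zero, one_mul, Real.rpow_ofNat] at d1
    rw [Real.rpow_ofNat] at d2
    rw [Real.rpow_one, Real.rpow_ofNat] at d3
    rw [add_div]
    linarith
  · refine fin C (by linarith) ((hM N T V b hN hV hb).2.1.trans ?_)
    refine mul_le_mul_of_nonneg_left ?_ (by positivity)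
    have d1 := term_One9 (a := 1) (b := 2) (u := 9 / 4 * (1 - σ)) (k := 4) (m := 6) n0 t0 hL hV hσ
      (by norm_num) (by push_cast; linarith)
    rw [Real.rpow_one, Real.rpow_two] at d1
    have : ((T : ℝ) + (N : ℝ) ^ 2) * (N : ℝ) ^ 2 / V ^ 4 ≤ 2 * ((T : ℝ) * (N : ℝ) ^ 2 / V ^ 4) := by
      rw [← mul_div_assoc, ← mul_assoc]
      gcongr
      linarith
    linarith

end Pool.Agent.MP_2a1f0e_nt.SQ

end
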