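import Pool.Agent.MP_c853c5_nt.Z.YDefs
import Pool.Agent.MP_2a1f0e_nt.DH.Basic
import Pool.Agent.Mg.C853.G50a3e6
import Pool.Agent.Mg.C853.G3e49c7

section

set_option autoImplicit false

open Finset

namespace Pool.Agent.MP_c853c5_nt.Z

open Pool.Agent.MP_2a1f0e_nt

theorem yDy (hD : DH.DetStmt) : DyStmt := by
  intro A hA hP ε hε
  obtain ⟨η, hη, hη1, hη2⟩ : ∃ η : ℝ, 0 < η ∧ η ≤ 1 / 20 ∧ η ≤ ε / 10 :=
    ⟨min (1 / 20) (ε / 10), by positivity, min_le_left _ _, min_le_right _ _⟩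
  obtain ⟨a, ha⟩ := hP η hη hη1
  obtain ⟨e1, he1, he1a⟩ : ∃ e : ℝ, 0 < e ∧ e + e * a = ε / 10 :=
    ⟨ε / (10 * (a + 1)), by positivity, by field_simp; ring⟩
  obtain ⟨C, hC, T₀, hT₀⟩ := hD η e1 hη hη1 he1
  obtain ⟨K, hK, hK'⟩ := ha (ε / 10) (by positivity)
  have hC0 : 0 < C := by linarith
  refine ⟨C * (K * C ^ a + 1), by positivity, max T₀ 2, fun T hT σ hσ hσ1 S ρ hS hB hz => ?_⟩
  have hT2 : 2 ≤ T := le_of_max_le_right hT
  have hx : (2 : ℝ) ≤ T := by exact_mod_cast hT2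
  have hx1 : (1 : ℝ) ≤ T := by linarith
  have hx0 : (0 : ℝ) < T := by linarith
  have hea : 0 ≤ e1 * a := by positivity
  have key := hT₀ T (le_of_max_le_left hT) σ
    (K * C ^ a * (T : ℝ) ^ (e1 * a + (A * (1 - σ) + ε / 10))) hσ
    (fun N h1 h2 b hb => by
      have hN0 : (0 : ℝ) < N := (Real.rpow_pos_of_pos hx0 η).trans_le h1
      have hlam : 1 ≤ C * (T : ℝ) ^ e1 :=
        one_le_mul_of_one_le_of_one_le hC (Real.one_le_rpow hx1 he1.le)
      refine (hK' N T σ (C * (T : ℝ) ^ e1) ((N : ℝ) ^ σ / (C * (T : ℝ) ^ e1)) b hT2 h1 h2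
        (by linarith) hσ1 hlam (by positivity)
        (by rw [mul_div_cancel₀ _ (by positivity)]) hb).trans (le_of_eq ?_)
      rw [mul_pow, ← Real.rpow_natCast ((T : ℝ) ^ e1), ← Real.rpow_mul hx0.le,
        Real.rpow_add hx0 (e1 * a)]
      ring)
    S ρ hS hB hz
  refine key.trans ?_
  have f1 : (T : ℝ) ^ e1 * (T : ℝ) ^ (e1 * a + (A * (1 - σ) + ε / 10)) ≤
      (T : ℝ) ^ (A * (1 - σ) + ε) := by
    rw [← Real.rpow_add hx0]
    exact Real.rpow_le_rpow_of_exponent_le hx1 (by linarith)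
  have f2 : (T : ℝ) ^ e1 * (T : ℝ) ^ (2 - 2 * σ + 4 * η) ≤ (T : ℝ) ^ (A * (1 - σ) + ε) := by
    rw [← Real.rpow_add hx0]
    have : 0 ≤ (A - 2) * (1 - σ) := mul_nonneg (by linarith) (by linarith)
    exact Real.rpow_le_rpow_of_exponent_le hx1 (by linarith)
  calc C * (T : ℝ) ^ e1 * (K * C ^ a * (T : ℝ) ^ (e1 * a + (A * (1 - σ) + ε / 10)) +
        (T : ℝ) ^ (2 - 2 * σ + 4 * η))
      = C * (K * C ^ a * ((T : ℝ) ^ e1 * (T : ℝ) ^ (e1 * a + (A * (1 - σ) + ε / 10))) +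
          (T : ℝ) ^ e1 * (T : ℝ) ^ (2 - 2 * σ + 4 * η)) := by ring
    _ ≤ C * (K * C ^ a * (T : ℝ) ^ (A * (1 - σ) + ε) + (T : ℝ) ^ (A * (1 - σ) + ε)) := by gcongr
    _ = _ := by ring

end Pool.Agent.MP_c853c5_nt.Z

end

section

set_option autoImplicit false

open Finset

namespace Pool.Agent.MP_2a1f0e_nt.DH

open Pool.Agent.MP_2a1f0e_nt.GM

lemma exI_Det (y : ℝ) (hy : 1 < y) : ∃ I : ℕ, y ≤ 2 ^ I ∧ (2 : ℝ) ^ I ≤ 2 * y ∧
    ∀ i < I, (2 : ℝ) ^ i ≤ y := by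
  classical
  have hex : ∃ I : ℕ, y ≤ 2 ^ I := by
    obtain ⟨n, hn⟩ := pow_unbounded_of_one_lt y (by norm_num : (1 : ℝ) < 2)
    exact ⟨n, hn.le⟩
  have hmin : ∀ i < Nat.find hex, (2 : ℝ) ^ i ≤ y := fun i hi =>
    (not_le.1 (Nat.find_min hex hi)).le
  refine ⟨Nat.find hex, Nat.find_spec hex, ?_, hmin⟩
  rcases h : Nat.find hex with _ | k
  · have := Nat.find_spec hex
    rw [h] at this
    simp at this
    linarith
  · have := hmin k (by omega)
    rw [pow_succ]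
    linarith

lemma exJ_Det (s t : ℝ) (L : ℕ) (hs : 1 ≤ s) (hst : s < t ^ 2) (hL : t ≤ 2 ^ L) (ht : 0 ≤ t) :
    ∃ J : ℕ, t ^ 2 ≤ s * (4 / 3) ^ J ∧ s * (4 / 3) ^ J ≤ 2 * t ^ 2 ∧ J ≤ 6 * L := by
  classical
  have h6 : t ^ 2 ≤ s * (4 / 3) ^ (6 * L) := by
    have h1 : t ^ 2 ≤ ((2 : ℝ) ^ L) ^ 2 := pow_le_pow_left₀ ht hL 2
    have h2 : ((2 : ℝ) ^ L) ^ 2 ≤ (4 / 3 : ℝ) ^ (6 * L) := by
      rw [← pow_mul, mul_comm L 2, pow_mul, pow_mul]
      exact pow_le_pow_left₀ (by norm_num) (by norm_num) L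
    have h3 : (0 : ℝ) ≤ (4 / 3 : ℝ) ^ (6 * L) := by positivity
    nlinarith
  have hex : ∃ J : ℕ, t ^ 2 ≤ s * (4 / 3) ^ J := ⟨_, h6⟩
  refine ⟨Nat.find hex, Nat.find_spec hex, ?_, Nat.find_min' hex h6⟩
  rcases h : Nat.find hex with _ | k
  · have := Nat.find_spec hex
    rw [h] at this
    simp at this
    linarith
  · have := not_le.1 (Nat.find_min hex (show k < Nat.find hex by omega))
    rw [pow_succ, ← mul_assoc]
    have h0 : 0 ≤ t ^ 2 := by positivity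
    linarith

theorem det_stmt (hC : CoreStmt) : DetStmt := by
  intro η ε hη hη' hε
  obtain ⟨C0, hC0, hcore⟩ := hC (ε / 2) (by positivity)
  set de : ℝ := min (ε / 8) (1 / 40) with hde
  have hde0 : 0 < de := lt_min (by positivity) (by norm_num)
  have hde1 : de ≤ ε / 8 := min_le_left _ _
  have hde2 : de ≤ 1 / 40 := min_le_right _ _
  obtain ⟨cD, hcD, hD⟩ := exists_DivB hde0
  obtain ⟨cL, hcL, hL⟩ := exists_log_le hde0
  have hcD0 : 0 < cD := by linarith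
  have hcL0 : 0 < cL := by linarith
  have hC00 : 0 < C0 := by linarith
  set C : ℝ := (12 * C0 * cL) ^ 4 + 18 * cL * cD + 12 * cL ^ 2 with hCdef
  have hCa : (12 * C0 * cL) ^ 4 ≤ C := by
    have : 0 ≤ 18 * cL * cD + 12 * cL ^ 2 := by positivity
    linarith
  have hCb : 18 * cL * cD ≤ C := by
    have : 0 ≤ (12 * C0 * cL) ^ 4 + 12 * cL ^ 2 := by positivity
    linarith
  have hCc : 12 * cL ^ 2 ≤ C := by
    have : 0 ≤ (12 * C0 * cL) ^ 4 + 18 * cL * cD := by positivity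
    linarith
  have hC1 : 1 ≤ C := by
    have : 1 ≤ cL ^ 2 := one_le_pow₀ hcL
    linarith
  clear_value C de
  set W : ℝ := 12 * C0 * cL + 6 * cL * cD + 2 with hW
  have hWa : 0 ≤ 12 * C0 * cL := by positivity
  have hWb : 0 ≤ 6 * cL * cD := by positivity
  refine ⟨C, hC1, ⌈W ^ 40⌉₊ + 100, fun T hT σ Z hσ hZ S ρ hS hB hz => ?_⟩
  have hT100 : 100 ≤ T := by omega
  have hT1 : 1 ≤ T := by omega
  have ht1 : (1 : ℝ) ≤ T := by exact_mod_cast hT1
  have ht0 : (0 : ℝ) < T := by linarith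
  set w : ℝ := (T : ℝ) ^ (1 / 40 : ℝ) with hw
  have hw0 : 0 < w := Real.rpow_pos_of_pos ht0 _
  have hwk : ∀ k : ℕ, w ^ k = (T : ℝ) ^ ((k : ℝ) / 40) := fun k => by
    rw [hw, ← Real.rpow_natCast, ← Real.rpow_mul ht0.le]
    congr 1
    ring
  have hw40 : w ^ 40 = T := by rw [hwk]; norm_num
  have hw20 : w ^ 20 = √T := by rw [hwk, Real.sqrt_eq_rpow]; norm_num
  have hw4 : w ^ 4 = (T : ℝ) ^ (1 / 10 : ℝ) := by rw [hwk]; norm_num
  have hw2 : w ^ 2 = (T : ℝ) ^ (1 / 20 : ℝ) := by rw [hwk]; norm_num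
  have hWw : W ≤ w := by
    have h1 : W ^ 40 ≤ w ^ 40 := by
      rw [hw40]
      refine (Nat.le_ceil _).trans ?_
      exact_mod_cast (by omega : ⌈W ^ 40⌉₊ ≤ T)
    exact (pow_le_pow_iff_left₀ (by linarith) hw0.le (by norm_num)).1 h1
  have hw2' : 2 ≤ w := by linarith
  have hw1 : 1 ≤ w := by linarith
  have hpw : ∀ k : ℕ, (2 : ℝ) ^ k ≤ w ^ k := fun k => pow_le_pow_left₀ (by norm_num) hw2' k
  clear_value W
  set a : ℝ := (T : ℝ) ^ η with ha
  have ha1 : 1 ≤ a := Real.one_le_rpow ht1 hη.le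
  have haw : a ≤ w ^ 2 := by rw [hw2]; exact Real.rpow_le_rpow_of_exponent_le ht1 hη'
  set d : ℝ := (T : ℝ) ^ de with hd
  have hd1 : 1 ≤ d := Real.one_le_rpow ht1 hde0.le
  have hdw : d ≤ w := Real.rpow_le_rpow_of_exponent_le ht1 hde2
  have hdk : ∀ k : ℕ, d ^ k = (T : ℝ) ^ (de * k) := fun k => by
    rw [hd, ← Real.rpow_natCast, ← Real.rpow_mul ht0.le]
  have hd2 : d ^ 2 ≤ (T : ℝ) ^ ε := by
    rw [hdk]
    exact Real.rpow_le_rpow_of_exponent_le ht1 (by push_cast; linarith)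
  have hd4 : d ^ 4 ≤ (T : ℝ) ^ (ε / 2) := by
    rw [hdk]
    exact Real.rpow_le_rpow_of_exponent_le ht1 (by push_cast; linarith)
  clear_value w
  set X : ℕ := ⌈a⌉₊ with hX
  have hXa : a ≤ X := Nat.le_ceil _
  have hXb : (X : ℝ) ≤ 2 * a := by
    have := Nat.ceil_lt_add_one (by linarith : 0 ≤ a)
    linarith
  have hX1 : 1 ≤ X := by
    have : (1 : ℝ) ≤ X := by linarith
    exact_mod_cast this
  clear_value X
  have hX0 : (0 : ℝ) ≤ X := Nat.cast_nonneg _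
  have hXw : (X : ℝ) ≤ 2 * w ^ 2 := by linarith
  have h18 : (12 : ℝ) ≤ w ^ 18 := le_trans (by norm_num) (hpw 18)
  have hs1 : (2 : ℝ) ≤ √T := by
    rw [← hw20]
    exact le_trans (by norm_num) (hpw 20)
  have hXs : (X : ℝ) ≤ √T := by
    rw [← hw20]
    calc (X : ℝ) ≤ 2 * w ^ 2 := hXw
      _ ≤ w ^ 18 * w ^ 2 := by gcongr; linarith only [h18]
      _ = w ^ 20 := by ring
  obtain ⟨I, hI1, hI2, hI3⟩ := exI_Det (3 * √T) (by linarith)
  set L : ℕ := Nat.log 2 T + 1 with hLdef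
  have hLd : (L : ℝ) ≤ cL * d := by
    have := hL T hT1
    rw [hLdef]
    push_cast
    exact this
  have hL1 : (1 : ℝ) ≤ L := by
    have : 1 ≤ L := by omega
    exact_mod_cast this
  have hTL : (T : ℝ) ≤ 2 ^ L := by
    have := Nat.lt_pow_succ_log_self (by norm_num : 1 < 2) T
    exact_mod_cast this.le
  clear_value L
  have hIX : (2 : ℝ) ^ I * X ≤ T := by
    calc (2 : ℝ) ^ I * X ≤ (2 * (3 * √T)) * (2 * w ^ 2) := by gcongr
      _ = 12 * w ^ 22 := by rw [← hw20]; ring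
      _ ≤ w ^ 18 * w ^ 22 := by gcongr
      _ = T := by rw [← hw40]; ring
  have hX1' : (1 : ℝ) ≤ X := by linarith
  have hIL : (I : ℝ) ≤ L := by
    have h1 : (2 : ℝ) ^ I ≤ 2 ^ L := by
      exact ((le_mul_of_one_le_right (by positivity) hX1').trans hIX).trans hTL
    have := (pow_le_pow_iff_right₀ (by norm_num : (1 : ℝ) < 2)).1 h1
    exact_mod_cast this
  have hI0 : (0 : ℝ) ≤ I := Nat.cast_nonneg _
  have hst : √(T : ℝ) < (T : ℝ) ^ 2 := by
    rw [← hw20, ← hw40, ← pow_mul]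
    exact pow_lt_pow_right₀ (by linarith only [hw2']) (by norm_num)
  obtain ⟨J, hJ1, hJ2, hJ3⟩ := exJ_Det (√T) T L (by linarith) hst hTL ht0.le
  have hJ4 : (J : ℝ) ≤ 6 * (cL * d) := by
    have : (J : ℝ) ≤ 6 * L := by exact_mod_cast hJ3
    linarith
  have hJ0 : (0 : ℝ) ≤ J := Nat.cast_nonneg _
  have hIX1 : 1 ≤ 2 ^ I * X := Nat.mul_pos (by positivity) hX1
  set Δ : ℝ := cD * ((2 ^ I * X : ℕ) : ℝ) ^ de with hΔ
  have hDiv : DivB (2 ^ I * X) Δ := hD _ hIX1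
  have hΔ1 : 1 ≤ Δ := hDiv.1
  have hΔd : Δ ≤ cD * d := by
    refine mul_le_mul_of_nonneg_left ?_ hcD0.le
    refine Real.rpow_le_rpow (Nat.cast_nonneg _) ?_ hde0.le
    push_cast
    exact hIX
  clear_value Δ d
  have hXJ : C0 * X * J ≤ 12 * C0 * cL * a * d := by
    calc C0 * X * J ≤ C0 * (2 * a) * (6 * (cL * d)) := by gcongr
      _ = 12 * C0 * cL * a * d := by ring
  have hsmall : C0 * X * J ≤ (T : ℝ) ^ (1 / 10 : ℝ) := by
    rw [← hw4]
    calc C0 * X * J ≤ 12 * C0 * cL * a * d := hXJ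
      _ ≤ w * w ^ 2 * w := by gcongr; linarith
      _ = w ^ 4 := by ring
  have hIΔ : I * Δ ≤ cL * cD * d ^ 2 := by
    calc I * Δ ≤ (cL * d) * (cD * d) := by gcongr; linarith
      _ = cL * cD * d ^ 2 := by ring
  have hY : 6 * I * Δ * (2 ^ I * X) ≤ (2 : ℝ) ^ (2 * L) := by
    calc 6 * I * Δ * (2 ^ I * X) = 6 * (I * Δ) * (2 ^ I * X) := by ring
      _ ≤ 6 * (cL * cD * d ^ 2) * T := by gcongr
      _ = (6 * cL * cD) * d ^ 2 * T := by ring
      _ ≤ w * w ^ 2 * T := by gcongr; linarith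
      _ = w ^ 3 * T := by ring
      _ ≤ w ^ 40 * T := by gcongr; norm_num
      _ = (T : ℝ) ^ 2 := by rw [hw40]; ring
      _ ≤ (2 ^ L) ^ 2 := by gcongr
      _ = 2 ^ (2 * L) := by rw [← pow_mul, mul_comm]
  have hsa : (T : ℝ) ^ (1 / 2 + η) = √T * a := by
    rw [Real.rpow_add ht0, Real.sqrt_eq_rpow]
  have hTe : 0 < (T : ℝ) ^ ε := Real.rpow_pos_of_pos ht0 _
  have hZ0 : 0 ≤ Z := by
    refine le_trans (Nat.cast_nonneg _) (hZ X hXa ?_ (fun _ => 0) (fun _ => by simp))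
    rw [hsa]
    have h1 : a ≤ √T * a := le_mul_of_one_le_left (by linarith only [ha1]) (by linarith only [hs1])
    linarith only [h1, hXb, ha1]
  have key := hcore T X I J (2 * L) σ Δ Z hT100 hX1 hXs hI1 hJ1 hJ2 hDiv hσ hsmall hY
    (fun i hi b hb => by
      refine le_trans ?_ (hZ (2 ^ i * X) ?_ ?_ b hb)
      · refine Nat.cast_le.2 (cnt_mono _ _ le_rfl ?_)
        have hI1' : (1 : ℝ) ≤ I := by
          have : 1 ≤ I := by omega
          exact_mod_cast this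
        refine div_le_div_of_nonneg_left (by positivity) (by positivity) ?_
        calc 18 * I * Δ = 18 * (I * Δ) := by ring
          _ ≤ 18 * (cL * cD * d ^ 2) := by gcongr
          _ = (18 * cL * cD) * d ^ 2 := by ring
          _ ≤ C * (T : ℝ) ^ ε := by gcongr
      · push_cast
        exact hXa.trans (le_mul_of_one_le_left hX0 (one_le_pow₀ (by norm_num)))
      · push_cast
        rw [hsa]
        calc (2 : ℝ) ^ i * X ≤ (3 * √T) * (2 * a) := by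
              gcongr
              exact hI3 i hi
          _ = 6 * (√T * a) := by ring) S ρ hS hB hz
  refine key.trans ?_
  rw [mul_add (C * (T : ℝ) ^ ε)]
  refine add_le_add ?_ ?_
  · refine mul_le_mul_of_nonneg_right ?_ hZ0
    push_cast
    calc (I : ℝ) * (2 * (2 * L) + 8) ≤ L * (12 * L) := by gcongr; linarith
      _ = 12 * (L : ℝ) ^ 2 := by ring
      _ ≤ 12 * (cL * d) ^ 2 := by gcongr
      _ = (12 * cL ^ 2) * d ^ 2 := by ring
      _ ≤ C * (T : ℝ) ^ ε := by gcongr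
  · have ha4 : a ^ 4 = (T : ℝ) ^ (4 * η) := by
      rw [ha, ← Real.rpow_natCast, ← Real.rpow_mul ht0.le]
      congr 1
      push_cast
      ring
    calc (C0 * X * J) ^ 4 * (T : ℝ) ^ (2 - 2 * σ + ε / 2)
        ≤ (12 * C0 * cL * a * d) ^ 4 * (T : ℝ) ^ (2 - 2 * σ + ε / 2) := by gcongr
      _ = (12 * C0 * cL) ^ 4 * (a ^ 4 * d ^ 4 * (T : ℝ) ^ (2 - 2 * σ + ε / 2)) := by ring
      _ ≤ C * (a ^ 4 * (T : ℝ) ^ (ε / 2) * (T : ℝ) ^ (2 - 2 * σ + ε / 2)) := by gcongr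
      _ = C * (T : ℝ) ^ ε * (T : ℝ) ^ (2 - 2 * σ + 4 * η) := by
        rw [ha4, mul_assoc C, ← Real.rpow_add ht0, ← Real.rpow_add ht0, ← Real.rpow_add ht0]
        congr 2
        ring

end Pool.Agent.MP_2a1f0e_nt.DH

end

section

set_option autoImplicit false

open Finset

namespace Pool.Agent.MP_2a1f0e_nt.DH

open Pool.Agent.MP_2a1f0e_nt.GM

lemma root_Core {R K E : ℝ} (hR : 0 ≤ R) (hE : 0 ≤ E) (e : ℝ)
    (h : R ≤ K * (R ^ (3 / 4 : ℝ) * E ^ (e / 4))) : R ≤ K ^ 4 * E ^ e := by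
  rcases hR.eq_or_lt with rfl | h0
  · positivity
  have e1 : (R ^ (3 / 4 : ℝ)) ^ 4 = R ^ 3 := by
    rw [← Real.rpow_natCast, ← Real.rpow_mul hR, ← Real.rpow_natCast]
    norm_num
  have e2 : (E ^ (e / 4)) ^ 4 = E ^ e := by
    rw [← Real.rpow_natCast, ← Real.rpow_mul hE]
    norm_num
  have h1 := pow_le_pow_left₀ hR h 4
  rw [mul_pow, mul_pow, e1, e2] at h1
  refine le_of_mul_le_mul_left ?_ (pow_pos h0 3)
  calc R ^ 3 * R = R ^ 4 := by ring
    _ ≤ _ := h1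
    _ = _ := by ring

theorem core_stmt (hZ : ZbStmt) (hT : TelStmt) (hM : MolStmt) (hA : CaStmt) (hB : CbStmt) :
    CoreStmt := by
  intro ε hε
  obtain ⟨C₁, hC₁, hA⟩ := hA ε hε
  refine ⟨300 + 6 * C₁, by linarith, ?_⟩
  intro T X I J Y σ Δ Z hT100 hX hXT hI hJ1 hJ2 hΔ hσ hC hY hcnt S ρ hS hbox hzero
  classical
  have hT' : (100 : ℝ) ≤ T := by exact_mod_cast hT100
  have hT0 : (0 : ℝ) < T := by linarith
  have hX' : (1 : ℝ) ≤ X := by exact_mod_cast hX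
  set y := √(T : ℝ) with hy
  have hy2 : y ^ 2 = T := Real.sq_sqrt hT0.le
  have hy10 : 10 ≤ y := Real.le_sqrt_of_sq_le (by linarith)
  have hI1 : 1 ≤ I := by
    rcases Nat.eq_zero_or_pos I with rfl | h
    · rw [pow_zero] at hI
      linarith
    · exact h
  have hJ : 1 ≤ J := by
    rcases Nat.eq_zero_or_pos J with rfl | h
    · rw [pow_zero, mul_one] at hJ1
      nlinarith
    · exact h
  have hI' : (1 : ℝ) ≤ I := by exact_mod_cast hI1
  have hJ' : (1 : ℝ) ≤ J := by exact_mod_cast hJ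
  have hΔ1 : (1 : ℝ) ≤ Δ := hΔ.1
  obtain ⟨c, hc, hμ⟩ := hM X I y hX hXT hI
  set B : ℕ → ℤ → ℂ := fun i m =>
    ∑ k ∈ Ioc (2 ^ i * X) (2 * (2 ^ i * X)), c k * (k : ℂ) ^ (-ρ m) with hBd
  set κ : ℝ := 1 / (3 * I) with hκ
  have hκ0 : 0 < κ := by positivity
  set S₁ := S.filter fun m => ∀ i < I, ‖B i m‖ < κ with hS₁
  have hsub : S ⊆ (range I).biUnion (fun i => S.filter fun m => κ ≤ ‖B i m‖) ∪ S₁ := by
    intro m hm
    by_cases h : ∀ i < I, ‖B i m‖ < κ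
    · exact mem_union_right _ (mem_filter.2 ⟨hm, h⟩)
    · push Not at h
      obtain ⟨i, hi, h⟩ := h
      exact mem_union_left _ (mem_biUnion.2 ⟨i, mem_range.2 hi, mem_filter.2 ⟨hm, h⟩⟩)
  have h2 : ∀ i ∈ range I, ((S.filter fun m => κ ≤ ‖B i m‖).card : ℝ) ≤ (2 * Y + 8) * Z := by
    intro i hi
    have hi' := mem_range.1 hi
    have hN : 1 ≤ 2 ^ i * X := Nat.mul_pos (Nat.two_pow_pos i) hX
    have hN2 : 2 * (2 ^ i * X) ≤ 2 ^ I * X := by
      rw [← mul_assoc, ← pow_succ']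
      exact Nat.mul_le_mul_right _ (Nat.pow_le_pow_right two_pos hi')
    have hN' : (1 : ℝ) ≤ ((2 ^ i * X : ℕ) : ℝ) := by exact_mod_cast hN
    have hN3 : 2 * ((2 ^ i * X : ℕ) : ℝ) ≤ 2 ^ I * X := by exact_mod_cast hN2
    have hp : (1 : ℝ) ≤ ((2 ^ i * X : ℕ) : ℝ) ^ σ := Real.one_le_rpow hN' (by linarith)
    refine hB (2 ^ i * X) (2 * T) Y σ Δ κ Z c hN (by linarith) (by linarith) hκ0
      (fun k hk => (hc k).trans (hΔ.2 k ((mem_Ioc.1 hk).2.trans hN2))) ?_ (fun b hb => ?_) _ ρ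
      (fun m hm => ?_) (fun m hm => hbox m (mem_filter.1 hm).1) fun m hm => (mem_filter.1 hm).2
    · have h3 : (0 : ℝ) ≤ κ / Δ := by positivity
      calc ((2 ^ i * X : ℕ) : ℝ) + 1 ≤ 2 * (2 ^ I * X) := by linarith
        _ = 6 * I * Δ * (2 ^ I * X) * (κ / Δ) := by
          rw [hκ]
          field_simp
          ring
        _ ≤ 2 ^ Y * (κ / Δ) := mul_le_mul_of_nonneg_right hY h3
        _ ≤ _ := by gcongr; exact le_mul_of_one_le_right hκ0.le hp
    · refine le_of_eq_of_le ?_ (hcnt i hi' b hb)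
      congr 2
      rw [hκ]
      field_simp
      ring
    · have h3 := mem_Icc.1 (hS (mem_filter.1 hm).1)
      exact mem_Icc.2 ⟨(Int.natCast_nonneg T).trans h3.1, by push_cast; exact h3.2⟩
  set τ := (T : ℝ) ^ (-(1 / 10) : ℝ) with hτ
  have hτ0 : 0 < τ := Real.rpow_pos_of_pos hT0 _
  have hCτ : (300 + 6 * C₁) * X * J * τ ≤ 1 := by
    rw [hτ, Real.rpow_neg hT0.le]
    exact mul_inv_le_one_of_le₀ hC (Real.rpow_nonneg hT0.le _)
  have hXτ : 0 < X * τ := by positivity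
  have hXJτ : 0 < X * J * τ := by positivity
  have hm1 : ∀ m ∈ S₁, 1 / 3 ≤ X * ∑ j ∈ range J, ‖Sm (y * (4 / 3) ^ j) (ρ m)‖ := by
    intro m hm
    obtain ⟨hmS, hm⟩ := mem_filter.1 hm
    obtain ⟨b1, b2, b3, b4⟩ := hbox m hmS
    obtain ⟨μ, hμ1, hμ2⟩ := hμ (ρ m) (by linarith)
    have h3 := mem_Icc.1 (hS hmS)
    have h4 : (T : ℝ) ≤ m := by exact_mod_cast h3.1
    have h5 : (m : ℝ) ≤ 2 * T := by exact_mod_cast h3.2
    have h6 := hZ (ρ m) T _ (hzero m hmS) (by linarith) b2 (by linarith) (by linarith)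
      (by linarith) hJ1 hJ2
    have h7 : (T : ℝ) ^ (1 - 2 * (ρ m).re) ≤ τ :=
      Real.rpow_le_rpow_of_exponent_le (by linarith) (by linarith)
    have h8 : ‖∑ i ∈ range I, B i m‖ ≤ 1 / 3 := by
      refine (norm_sum_le_of_le _ fun i hi => (hm i (mem_range.1 hi)).le).trans (le_of_eq ?_)
      rw [sum_const, card_range, nsmul_eq_mul, hκ]
      field_simp
    have h9 : 1 - ‖∑ i ∈ range I, B i m‖ ≤ ‖μ * Ps y (ρ m)‖ := by
      rw [hμ2]
      simpa using norm_sub_norm_le (1 : ℂ) (-∑ i ∈ range I, B i m)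
    have h10 : ‖Ps y (ρ m)‖ ≤ 100 * τ + ∑ j ∈ range J, ‖Sm (y * (4 / 3) ^ j) (ρ m)‖ := by
      rw [← sub_eq_iff_eq_add.2 (hT (ρ m) y J (by linarith))]
      exact norm_sub_le_of_le (h6.trans (by linarith)) (norm_sum_le _ _)
    have h11 : ‖μ * Ps y (ρ m)‖ ≤
        X * (100 * τ + ∑ j ∈ range J, ‖Sm (y * (4 / 3) ^ j) (ρ m)‖) := by
      rw [norm_mul]
      exact mul_le_mul hμ1 h10 (norm_nonneg _) (by linarith)
    have h12 : X * τ ≤ X * J * τ := by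
      rw [mul_right_comm]
      exact le_mul_of_one_le_right hXτ.le hJ'
    nlinarith
  set R : ℝ := (S₁.card : ℝ) with hR
  set G := R ^ (3 / 4 : ℝ) * (T : ℝ) ^ ((2 - 2 * σ + ε) / 4) with hG
  have hR0 : 0 ≤ R := Nat.cast_nonneg _
  have hG0 : 0 ≤ G := by positivity
  have h3 : R * (1 / 3) ≤ X * (J * (C₁ * (R * τ + G))) := by
    have h4 := sum_le_sum hm1
    rw [sum_const, nsmul_eq_mul, ← mul_sum, sum_comm] at h4
    refine h4.trans (mul_le_mul_of_nonneg_left ?_ (by linarith))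
    refine (sum_le_card_nsmul _ _ (C₁ * (R * τ + G)) fun j hj => ?_).trans
      (by rw [card_range, nsmul_eq_mul])
    refine hA T _ σ hT100 (le_mul_of_one_le_right (by linarith) (one_le_pow₀ (by norm_num)))
      (le_trans ?_ hJ2) hσ S₁ ρ ((filter_subset _ _).trans hS) fun m hm =>
        hbox m (mem_filter.1 hm).1
    exact mul_le_mul_of_nonneg_left (pow_le_pow_right₀ (by norm_num) (mem_range.1 hj).le)
      (by linarith)
  have h4 : R ≤ ((300 + 6 * C₁) * X * J) ^ 4 * (T : ℝ) ^ (2 - 2 * σ + ε) := by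
    refine root_Core hR0 hT0.le _ ?_
    have h5 : 6 * C₁ * (X * J * τ) ≤ 1 := by nlinarith
    have h6 := mul_le_mul_of_nonneg_left h5 hR0
    have h7 : 0 ≤ X * J * G := by positivity
    nlinarith
  have h5 : (S.card : ℝ) ≤ ∑ i ∈ range I, ((S.filter fun m => κ ≤ ‖B i m‖).card : ℝ) + R := by
    rw [hR]
    exact_mod_cast (card_le_card hsub).trans ((card_union_le _ _).trans
      (Nat.add_le_add_right card_biUnion_le _))
  have h6 := sum_le_card_nsmul _ _ _ h2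
  rw [card_range, nsmul_eq_mul, ← mul_assoc] at h6
  linarith

end Pool.Agent.MP_2a1f0e_nt.DH

end

section

set_option autoImplicit false

open Finset

namespace Pool.Agent.MP_2a1f0e_nt.DH

open Pool.Agent.MP_2a1f0e_nt.GM

open Complex Filter Topology

lemma deriv_Za {f f' : ℝ → ℂ} {b C : ℝ} {k : ℕ} (h0 : f 0 = 0)
    (hf : ∀ u ∈ Set.Icc 0 b, HasDerivAt f (f' u) u)
    (hb : ∀ u ∈ Set.Icc 0 b, ‖f' u‖ ≤ C * u ^ k) :
    ∀ u ∈ Set.Icc 0 b, ‖f u‖ ≤ C / (k + 1) * u ^ (k + 1) := by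
  intro u hu
  refine image_norm_le_of_norm_deriv_right_le_deriv_boundary (f := f) (f' := f') (a := 0) (b := b)
    (fun x hx => (hf x hx).continuousAt.continuousWithinAt)
    (fun x hx => (hf x (Set.Ico_subset_Icc_self hx)).hasDerivWithinAt)
    (B := fun u => C / (k + 1) * u ^ (k + 1)) (B' := fun u => C * u ^ k) (by simp [h0])
    (fun x => ?_) (fun x hx => hb x (Set.Ico_subset_Icc_self hx)) hu
  refine ((hasDerivAt_pow (k + 1) x).const_mul (C / (k + 1))).congr_deriv ?_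
  push_cast; field_simp

lemma cp_Za (a : ℂ) {n u : ℝ} (h : 0 < n + u) :
    HasDerivAt (fun u : ℝ => ((n + u : ℝ) : ℂ) ^ a) (a * ((n + u : ℝ) : ℂ) ^ (a - 1)) u := by
  have h1 : HasDerivAt (fun z : ℂ => ((n : ℂ) + z) ^ a)
      (a * ((n : ℂ) + u) ^ (a - 1) * 1) (u : ℂ) := by
    have h2 : HasDerivAt (fun z : ℂ => (n : ℂ) + z) 1 (u : ℂ) :=
      (hasDerivAt_id (u : ℂ)).const_add (n : ℂ)
    exact h2.cpow_const (by
      have : (n : ℂ) + u = ((n + u : ℝ) : ℂ) := by push_cast; ring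
      rw [this]; exact ofReal_mem_slitPlane.mpr h)
  have h3 := h1.comp_ofReal
  push_cast
  exact h3.congr_deriv (by ring)

/-- The error of the left endpoint rule, times `s - 1`. -/
noncomputable def U_Za (n : ℝ) (s : ℂ) : ℂ :=
  (n : ℂ) ^ (1 - s) - ((n + 1 : ℝ) : ℂ) ^ (1 - s) - (s - 1) * (n : ℂ) ^ (-s)

lemma mid_Za {s : ℂ} (hs : -1 ≤ s.re) {n : ℝ} (hn : 0 < n) :
    ‖U_Za n s‖ ≤ ‖s - 1‖ * (‖s‖ * n ^ (-s.re - 1)) := by
  set M : ℝ := ‖s‖ * n ^ (-s.re - 1) with hM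
  have hM0 : 0 ≤ M := by positivity
  have hp : ∀ u ∈ Set.Icc (0 : ℝ) 1, 0 < n + u := fun u hu => by linarith [hu.1]
  have hb : ∀ y : ℝ, n ≤ y → ‖-s * (y : ℂ) ^ (-s - 1)‖ ≤ M := by
    intro y hy
    rw [norm_mul, norm_neg, norm_cpow_eq_rpow_re_of_pos (by linarith), hM]
    have e : (-s - 1).re = -s.re - 1 := by simp
    rw [e]
    exact mul_le_mul_of_nonneg_left
      (Real.rpow_le_rpow_of_nonpos hn hy (by linarith)) (by positivity)
  have h2 := deriv_Za (k := 0) (C := M) (b := 1)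
    (f := fun u => ((n + u : ℝ) : ℂ) ^ (-s) - (n : ℂ) ^ (-s))
    (f' := fun u => -s * ((n + u : ℝ) : ℂ) ^ (-s - 1)) (by simp)
    (fun u hu => (cp_Za (-s) (hp u hu)).sub_const _)
    (fun u hu => by simpa using hb (n + u) (by linarith [hu.1]))
  have h1 := deriv_Za (k := 1) (b := 1) (C := ‖s - 1‖ * M)
    (f := fun u => (n : ℂ) ^ (1 - s) - ((n + u : ℝ) : ℂ) ^ (1 - s) - (s - 1) * (n : ℂ) ^ (-s) * u)
    (f' := fun u => (s - 1) * (((n + u : ℝ) : ℂ) ^ (-s) - (n : ℂ) ^ (-s)))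
    (by simp)
    (fun u hu => (((cp_Za (1 - s) (hp u hu)).const_sub _).sub
        (((hasDerivAt_id u).ofReal_comp).const_mul ((s - 1) * (n : ℂ) ^ (-s)))).congr_deriv (by
          rw [show 1 - s - 1 = -s by ring]; push_cast; ring))
    (fun u hu => by
      rw [norm_mul, mul_assoc]
      refine mul_le_mul_of_nonneg_left ((h2 u hu).trans (le_of_eq ?_)) (norm_nonneg _)
      push_cast; ring)
    1 (by norm_num)
  simp only [ofReal_one, mul_one, one_pow] at h1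
  refine h1.trans ?_
  have : 0 ≤ ‖s - 1‖ * M := by positivity
  push_cast
  linarith

lemma step_Za {a y : ℝ} (ha : 0 < a) (hy : 0 < y) :
    (y + 1) ^ (-a - 1) ≤ (y ^ (-a) - (y + 1) ^ (-a)) / a := by
  have hd : ∀ x ∈ Set.Icc y (y + 1), HasDerivAt (fun x : ℝ => x ^ (-a)) (-a * x ^ (-a - 1)) x :=
    fun x hx => Real.hasDerivAt_rpow_const (Or.inl (hy.trans_le hx.1).ne')
  obtain ⟨c, hc, e⟩ := exists_hasDerivAt_eq_slope (fun x : ℝ => x ^ (-a))
    (fun x => -a * x ^ (-a - 1)) (by linarith : y < y + 1)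
    (fun x hx => (hd x hx).continuousAt.continuousWithinAt)
    fun x hx => hd x (Set.Ioo_subset_Icc_self hx)
  have h1 : (y + 1) ^ (-a - 1) ≤ c ^ (-a - 1) :=
    Real.rpow_le_rpow_of_nonpos (hy.trans hc.1) hc.2.le (by linarith)
  rw [add_sub_cancel_left, div_one] at e
  rw [le_div_iff₀ ha]
  nlinarith

lemma tel_Za {a y : ℝ} (ha : 0 < a) (hy : 0 < y) :
    HasSum (fun m : ℕ => ((y + m) ^ (-a) - (y + m + 1) ^ (-a)) / a) (y ^ (-a) / a) := by
  have h0 : ∀ m : ℕ, 0 < y + m := fun m => by positivity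
  rw [hasSum_iff_tendsto_nat_of_nonneg fun m =>
    (Real.rpow_nonneg (by linarith [h0 m]) _).trans (step_Za ha (h0 m))]
  have h1 : Tendsto (fun m : ℕ => (y + m) ^ (-a)) atTop (𝓝 0) :=
    (tendsto_rpow_neg_atTop ha).comp
      (tendsto_atTop_add_const_left _ _ tendsto_natCast_atTop_atTop)
  have h2 := (h1.const_sub (y ^ (-a))).div_const a
  rw [sub_zero] at h2
  refine h2.congr fun m => ?_
  have h3 := sum_range_sub' (fun m : ℕ => (y + m) ^ (-a)) m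
  simp only [Nat.cast_add, Nat.cast_one, Nat.cast_zero, add_zero, ← add_assoc] at h3
  rw [← sum_div, h3]

lemma bd_Za {s : ℂ} (hs : 0 < s.re) {N : ℕ} (hN : 1 ≤ N) (m : ℕ) :
    ‖U_Za (N + m + 1) s‖ ≤ ‖s - 1‖ * (‖s‖ *
      ((((N : ℝ) + m) ^ (-s.re) - ((N : ℝ) + m + 1) ^ (-s.re)) / s.re)) := by
  have hN' : (1 : ℝ) ≤ N := by exact_mod_cast hN
  have hm : (0 : ℝ) ≤ m := m.cast_nonneg
  refine (mid_Za (by linarith) (by linarith)).trans ?_
  have h := step_Za (a := s.re) (y := (N : ℝ) + m) hs (by linarith)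
  gcongr

lemma gt_Za {s : ℂ} (hs : 1 < s.re) {N : ℕ} (hN : 1 ≤ N) :
    ∑' m : ℕ, U_Za (N + m + 1) s = ((N + 1 : ℝ) : ℂ) ^ (1 - s) -
      (s - 1) * (riemannZeta s - ∑ n ∈ Icc 1 N, (n : ℂ) ^ (-s)) := by
  have hN' : (1 : ℝ) ≤ N := by exact_mod_cast hN
  have hsum : Summable fun m : ℕ => U_Za (N + m + 1) s :=
    Summable.of_norm_bounded (((tel_Za (a := s.re) (y := (N : ℝ)) (by linarith)
      (by linarith)).summable.mul_left _).mul_left _) (bd_Za (by linarith) hN)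
  have key : ∀ M : ℕ, ∑ m ∈ range M, U_Za (N + m + 1) s = ((N + 1 : ℝ) : ℂ) ^ (1 - s) -
      ((N + M + 1 : ℝ) : ℂ) ^ (1 - s) - (s - 1) *
        (∑ n ∈ Icc 1 (N + M), (n : ℂ) ^ (-s) - ∑ n ∈ Icc 1 N, (n : ℂ) ^ (-s)) := by
    intro M
    induction M with
    | zero => simp
    | succ M ih =>
      rw [sum_range_succ, ih, ← add_assoc N, sum_Icc_succ_top (by omega), U_Za,
        show (N : ℝ) + (M + 1 : ℕ) + 1 = N + M + 1 + 1 by push_cast; ring]
      push_cast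
      ring
  have hz : Tendsto (fun M : ℕ => ∑ n ∈ Icc 1 (N + M), (n : ℂ) ^ (-s)) atTop
      (𝓝 (riemannZeta s)) := by
    have h := (summable_riemannZetaSummand hs).of_norm.hasSum.tendsto_sum_nat
    rw [tsum_riemannZetaSummand hs] at h
    refine (h.comp (tendsto_add_atTop_nat (N + 1))).congr fun M => ?_
    simp only [Function.comp]
    rw [range_eq_Ico, sum_eq_sum_Ico_succ_bot (by omega), map_zero, zero_add,
      show M + (N + 1) = N + M + 1 by ring]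
    rfl
  have hA : Tendsto (fun M : ℕ => ((N + M + 1 : ℝ) : ℂ) ^ (1 - s)) atTop (𝓝 0) := by
    rw [tendsto_zero_iff_norm_tendsto_zero]
    have h1 : Tendsto (fun M : ℕ => (N : ℝ) + M + 1) atTop atTop :=
      tendsto_atTop_add_const_right _ _
        (tendsto_atTop_add_const_left _ _ tendsto_natCast_atTop_atTop)
    refine ((tendsto_rpow_neg_atTop (y := s.re - 1) (by linarith)).comp h1).congr fun M => ?_
    simp only [Function.comp]
    rw [norm_cpow_eq_rpow_re_of_pos (by positivity)]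
    simp
  have h := (hA.const_sub (((N + 1 : ℝ) : ℂ) ^ (1 - s))).sub
    ((hz.sub_const (∑ n ∈ Icc 1 N, (n : ℂ) ^ (-s))).const_mul (s - 1))
  rw [sub_zero] at h
  exact tendsto_nhds_unique hsum.hasSum.tendsto_sum_nat (h.congr fun M => (key M).symm)

lemma pow_Za {x : ℂ} (hx : x ≠ 0) {f : ℂ → ℂ} (hf : Differentiable ℂ f) :
    Differentiable ℂ fun z => x ^ f z := hf.const_cpow (Or.inl hx)

lemma eq_Za {s : ℂ} (hs : 1 / 2 ≤ s.re) {N : ℕ} (hN : 1 ≤ N) :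
    ∑' m : ℕ, U_Za (N + m + 1) s = ((N + 1 : ℝ) : ℂ) ^ (1 - s) -
      (riemannZeta₁ s - (s - 1) * ∑ n ∈ Icc 1 N, (n : ℂ) ^ (-s)) := by
  have hN' : (1 : ℝ) ≤ N := by exact_mod_cast hN
  set B := ‖s‖ + 3 with hB
  have hB0 : 3 ≤ B := by linarith [norm_nonneg s]
  set D : Set ℂ := {z | 1 / 4 < z.re} ∩ Metric.ball 0 B with hD
  have ho : IsOpen D := (isOpen_lt continuous_const continuous_re).inter Metric.isOpen_ball
  have hc : Convex ℝ D := (convex_halfSpace_re_gt _).inter (convex_ball _ _)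
  have h1 : DifferentiableOn ℂ (fun z => ∑' m : ℕ, U_Za (N + m + 1) z) D := by
    refine differentiableOn_tsum_of_summable_norm
      (((tel_Za (a := 1 / 4) (y := (N : ℝ)) (by norm_num)
        (by linarith)).summable.mul_left B).mul_left (B + 1))
      (fun m => Differentiable.differentiableOn ?_) ho fun m z hz => ?_
    · have hm : (0 : ℝ) ≤ m := m.cast_nonneg
      exact ((pow_Za (ofReal_ne_zero.2 (by linarith)) (by fun_prop)).sub
        (pow_Za (ofReal_ne_zero.2 (by linarith)) (by fun_prop))).sub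
        (Differentiable.mul (by fun_prop) (pow_Za (ofReal_ne_zero.2 (by linarith)) (by fun_prop)))
    · have hm : (0 : ℝ) ≤ m := m.cast_nonneg
      have hz1 : 1 / 4 < z.re := hz.1
      have hz2 : ‖z‖ ≤ B := (mem_ball_zero_iff.1 hz.2).le
      refine (mid_Za (by linarith) (by linarith)).trans ?_
      have a1 : ‖z - 1‖ ≤ B + 1 := (norm_sub_le _ _).trans (by rw [norm_one]; linarith)
      have a3 := step_Za (a := 1 / 4) (y := (N : ℝ) + m) (by norm_num) (by linarith)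
      have a4 : ((N : ℝ) + m + 1) ^ (-z.re - 1) ≤ ((N : ℝ) + m + 1) ^ (-(1 / 4) - 1 : ℝ) :=
        Real.rpow_le_rpow_of_exponent_le (by linarith) (by linarith)
      have a5 : 0 ≤ ((N : ℝ) + m + 1) ^ (-z.re - 1) := Real.rpow_nonneg (by linarith) _
      gcongr
      exact a4.trans a3
  have h2 : Differentiable ℂ fun z => ((N + 1 : ℝ) : ℂ) ^ (1 - z) -
      (riemannZeta₁ z - (z - 1) * ∑ n ∈ Icc 1 N, (n : ℂ) ^ (-z)) := by
    refine (pow_Za (ofReal_ne_zero.2 (by linarith)) (by fun_prop)).sub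
      (differentiable_riemannZeta₁.sub (Differentiable.mul (by fun_prop) ?_))
    refine Differentiable.fun_sum fun n hn => pow_Za ?_ (by fun_prop)
    have := (mem_Icc.1 hn).1
    exact_mod_cast (by omega : n ≠ 0)
  have h2D : (2 : ℂ) ∈ D := ⟨by norm_num, by rw [mem_ball_zero_iff]; norm_num; linarith⟩
  refine (h1.analyticOnNhd ho).eqOn_of_preconnected_of_eventuallyEq
    (h2.differentiableOn.analyticOnNhd ho) hc.isPreconnected h2D ?_
    ⟨by show 1 / 4 < s.re; linarith, by rw [mem_ball_zero_iff]; linarith⟩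
  filter_upwards [(isOpen_lt continuous_const continuous_re).mem_nhds
    (show (2 : ℂ) ∈ {z : ℂ | 1 < z.re} by norm_num)] with z hz
  have hz1 : z ≠ 1 := fun h => by simp [h] at hz
  rw [gt_Za hz hN, riemannZeta_eq_inv_sub_mul hz1]
  field_simp [sub_ne_zero.2 hz1]

theorem za_stmt : ZaStmt := by
  intro s h0 hs him N hN
  have hN' : (1 : ℝ) ≤ N := by exact_mod_cast hN
  have hs1 : s ≠ 1 := fun h => by rw [h] at him; norm_num at him
  have hs' : s - 1 ≠ 0 := sub_ne_zero.2 hs1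
  have hlt : s.re < 1 := lt_of_not_ge fun h => riemannZeta_ne_zero_of_one_le_re h h0
  have h1 := tsum_of_norm_bounded (((tel_Za (a := s.re) (y := (N : ℝ)) (by linarith)
    (by linarith)).mul_left ‖s‖).mul_left ‖s - 1‖) (bd_Za (by linarith) hN)
  have hz : riemannZeta₁ s = 0 := by
    rw [riemannZeta_eq_inv_sub_mul hs1] at h0
    exact (mul_eq_zero.1 h0).resolve_left (inv_ne_zero hs')
  have e : ∑ n ∈ Icc 1 N, (n : ℂ) ^ (-s) =
      (∑' m : ℕ, U_Za (N + m + 1) s) / (s - 1) - ((N + 1 : ℝ) : ℂ) ^ (1 - s) / (s - 1) := by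
    rw [eq_Za hs hN, hz]
    field_simp
    ring
  have hn : 0 < ‖s - 1‖ := norm_pos_iff.2 hs'
  have him' : s.im ≤ ‖s - 1‖ := by
    have := abs_im_le_norm (s - 1)
    simp only [sub_im, one_im, sub_zero] at this
    exact (le_abs_self _).trans this
  have a1 : ‖(∑' m : ℕ, U_Za (N + m + 1) s) / (s - 1)‖ ≤ 2 * (‖s‖ * (N : ℝ) ^ (-s.re)) := by
    rw [norm_div, div_le_iff₀ hn]
    refine h1.trans ?_
    have : (N : ℝ) ^ (-s.re) / s.re ≤ 2 * (N : ℝ) ^ (-s.re) := by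
      rw [div_le_iff₀ (by linarith)]
      have : 0 ≤ (N : ℝ) ^ (-s.re) := by positivity
      nlinarith
    calc ‖s - 1‖ * (‖s‖ * ((N : ℝ) ^ (-s.re) / s.re))
        ≤ ‖s - 1‖ * (‖s‖ * (2 * (N : ℝ) ^ (-s.re))) := by gcongr
      _ = _ := by ring
  have a2 : ‖((N + 1 : ℝ) : ℂ) ^ (1 - s) / (s - 1)‖ ≤ 2 * ((N : ℝ) ^ (1 - s.re) / s.im) := by
    rw [norm_div, norm_cpow_eq_rpow_re_of_pos (by linarith), sub_re, one_re]
    have b1 : ((N : ℝ) + 1) ^ (1 - s.re) ≤ 2 * (N : ℝ) ^ (1 - s.re) := by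
      calc ((N : ℝ) + 1) ^ (1 - s.re) ≤ (2 * (N : ℝ)) ^ (1 - s.re) :=
            Real.rpow_le_rpow (by linarith) (by linarith) (by linarith)
        _ = 2 ^ (1 - s.re) * (N : ℝ) ^ (1 - s.re) := Real.mul_rpow (by norm_num) (by linarith)
        _ ≤ 2 ^ (1 : ℝ) * (N : ℝ) ^ (1 - s.re) := by
            gcongr
            · norm_num
            · linarith
        _ = _ := by rw [Real.rpow_one]
    rw [← mul_div_assoc]
    gcongr
  have a3 : 0 ≤ ‖s‖ * (N : ℝ) ^ (-s.re) := by positivity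
  have a4 : 0 ≤ (N : ℝ) ^ (1 - s.re) / s.im := div_nonneg (by positivity) (by linarith)
  rw [e]
  refine (norm_sub_le _ _).trans ?_
  linarith

end Pool.Agent.MP_2a1f0e_nt.DH

end

section

set_option autoImplicit false
open Finset
namespace Pool.Agent.MP_2a1f0e_nt.DH
open Pool.Agent.MP_2a1f0e_nt.GM

theorem abel_Zb (p : ℕ → ℝ) (a : ℕ → ℂ) (X : ℕ) :
    ∑ n ∈ Icc 1 X, (p n : ℂ) * a n =
      ∑ n ∈ Icc 1 X, ((p n - p (n + 1) : ℝ) : ℂ) * ∑ k ∈ Icc 1 n, a k +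
        p (X + 1) * ∑ k ∈ Icc 1 X, a k := by
  induction X with
  | zero => simp
  | succ X ih =>
    rw [sum_Icc_succ_top (Nat.le_add_left 1 X), sum_Icc_succ_top (Nat.le_add_left 1 X), ih,
      sum_Icc_succ_top (Nat.le_add_left 1 X)]
    push_cast
    ring

theorem tele_Zb (p : ℕ → ℝ) (X : ℕ) : ∑ n ∈ Icc 1 X, (p n - p (n + 1)) = p 1 - p (X + 1) := by
  induction X with
  | zero => simp
  | succ X ih => rw [sum_Icc_succ_top (Nat.le_add_left 1 X), ih]; ring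

theorem far_Zb {y : ℝ} (hy : 1 ≤ y) {n : ℕ} (hn : 3 * ⌊y⌋₊ < n) : 5 / 3 ≤ (n : ℝ) / y := by
  have h1 := Nat.lt_floor_add_one y
  have h2 : (1 : ℝ) ≤ ⌊y⌋₊ := by exact_mod_cast Nat.le_floor (by exact_mod_cast hy)
  have h3 : (3 * ⌊y⌋₊ + 1 : ℝ) ≤ n := by exact_mod_cast hn
  rw [le_div_iff₀ (by linarith)]
  linarith

theorem rpow_Zb {T β x : ℝ} (hT : 1 ≤ T) (h0 : 0 ≤ β) (h1 : β ≤ 1) (hx : T ^ 2 / 2 ≤ x) :
    x ^ (-β) ≤ 2 * T ^ (1 - 2 * β) / T := by
  have hT0 : 0 < T := by linarith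
  refine (Real.rpow_le_rpow_of_nonpos (by positivity) hx (by linarith)).trans ?_
  have e : (T ^ 2) ^ (-β) = T ^ (1 - 2 * β) / T := by
    rw [← Real.rpow_two, ← Real.rpow_mul hT0.le, ← Real.rpow_sub_one hT0.ne']
    congr 1
    ring
  have h2 : (2 : ℝ) ^ β ≤ 2 := by
    simpa using Real.rpow_le_rpow_of_exponent_le one_le_two h1
  rw [Real.div_rpow (by positivity) zero_le_two, e, Real.rpow_neg zero_le_two, div_inv_eq_mul,
    mul_div_assoc, mul_comm]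
  gcongr

theorem zb_stmt (hZ : ZaStmt) : ZbStmt := by
  intro ρ T y hρ h1 h2 hT h3 h4 h5 h6
  have hT0 : 0 < T := by linarith
  have hy : 1 ≤ y := by nlinarith
  have hy0 : 0 < y := by linarith
  have hu : 0 < T ^ (1 - 2 * ρ.re) := Real.rpow_pos_of_pos hT0 _
  have hz : psi (((3 * ⌊y⌋₊ + 1 : ℕ) : ℝ) / y) = 0 :=
    psi_eq_zero (le_trans (by norm_num) (far_Zb hy (Nat.lt_succ_self _)))
  have hfl : y / 2 ≤ ⌊y⌋₊ := by
    have h1 := Nat.lt_floor_add_one y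
    have h2 : (1 : ℝ) ≤ ⌊y⌋₊ := by exact_mod_cast Nat.le_floor (by exact_mod_cast hy)
    linarith
  have hρn : ‖ρ‖ ≤ 4 * T := by
    have := Complex.norm_le_abs_re_add_abs_im ρ
    rw [abs_of_nonneg (by linarith), abs_of_nonneg (by linarith)] at this
    linarith
  rw [Ps, abel_Zb (fun n => psi ((n : ℝ) / y)), hz, Complex.ofReal_zero, zero_mul, add_zero]
  refine (norm_sum_le_of_le _ (n := fun n : ℕ => (psi ((n : ℝ) / y) - psi (((n + 1 : ℕ) : ℝ) / y)) *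
    (100 * T ^ (1 - 2 * ρ.re))) fun n hn => ?_).trans ?_
  · have hw : 0 ≤ psi ((n : ℝ) / y) - psi (((n + 1 : ℕ) : ℝ) / y) :=
      sub_nonneg.2 (psi_anti (by gcongr; omega))
    rw [norm_mul, Complex.norm_real, Real.norm_of_nonneg hw]
    by_cases hc : n < ⌊y⌋₊
    · have : ((n + 1 : ℕ) : ℝ) ≤ y := (Nat.cast_le.2 hc).trans (Nat.floor_le hy0.le)
      rw [psi_eq_one ((div_le_one hy0).2 this), psi_eq_one ((div_le_one hy0).2
        ((Nat.cast_le.2 n.le_succ).trans this)), sub_self, zero_mul, zero_mul]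
    refine mul_le_mul_of_nonneg_left ((hZ ρ hρ h1 (hT.trans h3) n (mem_Icc.1 hn).1).trans ?_) hw
    have hn0 : (0 : ℝ) < n := by exact_mod_cast (mem_Icc.1 hn).1
    have hn1 : (⌊y⌋₊ : ℝ) ≤ n := by exact_mod_cast not_lt.1 hc
    have hn2 : (n : ℝ) ≤ 6 * T ^ 2 := by
      have : (n : ℝ) ≤ 3 * ⌊y⌋₊ := by exact_mod_cast (mem_Icc.1 hn).2
      linarith [Nat.floor_le hy0.le]
    have hb := rpow_Zb (x := n) hT (by linarith : 0 ≤ ρ.re) h2 (by linarith)
    have e : (n : ℝ) ^ (1 - ρ.re) = n * (n : ℝ) ^ (-ρ.re) := by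
      rw [sub_eq_add_neg, Real.rpow_add hn0, Real.rpow_one]
    rw [e]
    calc 4 * (n * (n : ℝ) ^ (-ρ.re) / ρ.im + ‖ρ‖ * (n : ℝ) ^ (-ρ.re))
        ≤ 4 * (6 * T ^ 2 * (2 * T ^ (1 - 2 * ρ.re) / T) / T +
          4 * T * (2 * T ^ (1 - 2 * ρ.re) / T)) := by gcongr
      _ = 80 * T ^ (1 - 2 * ρ.re) := by field_simp; ring
      _ ≤ _ := by linarith
  · rw [← sum_mul, tele_Zb (fun n => psi ((n : ℝ) / y)), hz, sub_zero]
    exact mul_le_of_le_one_left (by positivity) (psi_le_one _)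

theorem step_Zb (ρ : ℂ) {y : ℝ} (hy : 1 ≤ y) : Ps (y * (4 / 3)) ρ = Ps y ρ + Sm y ρ := by
  have hs : Icc 1 (3 * ⌊y⌋₊) ⊆ Icc 1 (3 * ⌊y * (4 / 3)⌋₊) :=
    Icc_subset_Icc_right (Nat.mul_le_mul_left 3 (Nat.floor_mono (by linarith)))
  have hf : ∀ n ∈ Icc 1 (3 * ⌊y * (4 / 3)⌋₊), n ∉ Icc 1 (3 * ⌊y⌋₊) → 5 / 3 ≤ (n : ℝ) / y :=
    fun n h1 h2 => far_Zb hy (not_le.1 fun h => h2 (mem_Icc.2 ⟨(mem_Icc.1 h1).1, h⟩))
  rw [Ps, Ps, Sm, sum_subset hs fun n h1 h2 => by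
      rw [psi_eq_zero (le_trans (by norm_num) (hf n h1 h2)), Complex.ofReal_zero, zero_mul],
    sum_subset hs fun n h1 h2 => by
      rw [om_eq_zero (Or.inr (hf n h1 h2)), Complex.ofReal_zero, zero_mul], ← sum_add_distrib]
  refine sum_congr rfl fun n _ => ?_
  rw [om, show (n : ℝ) / (y * (4 / 3)) = 3 / 4 * (n / y) by field_simp]
  push_cast
  ring

theorem tel_stmt : TelStmt := by
  intro ρ y J hy
  induction J with
  | zero => simp
  | succ J ih =>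
    rw [sum_range_succ, ← add_assoc, ← ih, pow_succ, ← mul_assoc]
    exact step_Zb ρ (one_le_mul_of_one_le_of_one_le hy (one_le_pow₀ (by norm_num)))

end Pool.Agent.MP_2a1f0e_nt.DH

end

section

set_option autoImplicit false

open Finset

namespace Pool.Agent.MP_2a1f0e_nt.DH

open Pool.Agent.MP_2a1f0e_nt.GM

/-- truncation to `[1, L]` -/
noncomputable def cut_Mol (L : ℕ) (a : ℕ → ℂ) : ArithmeticFunction ℂ :=
  ⟨fun n => if n ∈ Icc 1 L then a n else 0, by simp⟩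

lemma cut_apply_Mol (L : ℕ) (a : ℕ → ℂ) (n : ℕ) :
    cut_Mol L a n = if n ∈ Icc 1 L then a n else 0 := rfl

lemma cut_norm_Mol {L : ℕ} {a : ℕ → ℂ} (h : ∀ n, ‖a n‖ ≤ 1) (n : ℕ) : ‖cut_Mol L a n‖ ≤ 1 := by
  rw [cut_apply_Mol]
  split_ifs
  · exact h n
  · simp

lemma cut_sum_Mol (L : ℕ) (a χ : ℕ → ℂ) :
    ∑ n ∈ Icc 1 L, cut_Mol L a n * χ n = ∑ n ∈ Icc 1 L, a n * χ n :=
  sum_congr rfl fun n hn => by rw [cut_apply_Mol, if_pos hn]

lemma dya_Mol (X I : ℕ) (f : ℕ → ℂ) : ∑ k ∈ Ioc 0 (2 ^ I * X), f k =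
    ∑ k ∈ Ioc 0 X, f k + ∑ i ∈ range I, ∑ k ∈ Ioc (2 ^ i * X) (2 * (2 ^ i * X)), f k := by
  induction I with
  | zero => simp
  | succ I ih =>
    rw [sum_range_succ, ← add_assoc, ← ih, sum_Ioc_consecutive _ (Nat.zero_le _) (by omega),
      pow_succ', mul_assoc]

theorem mol_stmt : MolStmt := by
  intro X I y hX hy hI
  have y1 : (1 : ℝ) ≤ y := le_trans (by exact_mod_cast hX) hy
  have hXy : X ≤ ⌊y⌋₊ := Nat.le_floor hy
  have hY : 3 * ⌊y⌋₊ ≤ 2 ^ I := by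
    have := Nat.floor_le (by linarith : 0 ≤ y)
    exact_mod_cast (by linarith : 3 * (⌊y⌋₊ : ℝ) ≤ 2 ^ I)
  have m1 : ∀ n, ‖((ArithmeticFunction.moebius n : ℤ) : ℂ)‖ ≤ 1 := fun n => by
    rw [Complex.norm_intCast]
    exact_mod_cast ArithmeticFunction.abs_moebius_le_one
  have m2 : ∀ n : ℕ, ‖(psi ((n : ℝ) / y) : ℂ)‖ ≤ 1 := fun n => by
    rw [Complex.norm_real, Real.norm_of_nonneg (psi_nonneg _)]
    exact psi_le_one _
  refine ⟨(cut_Mol X (fun n => ((ArithmeticFunction.moebius n : ℤ) : ℂ)) *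
    cut_Mol (3 * ⌊y⌋₊) (fun n => (psi ((n : ℝ) / y) : ℂ)) : ArithmeticFunction ℂ), fun k => ?_,
    fun ρ hρ => ⟨∑ d ∈ Icc 1 X, ((ArithmeticFunction.moebius d : ℤ) : ℂ) * (d : ℂ) ^ (-ρ),
      ?_, ?_⟩⟩
  · rw [ArithmeticFunction.mul_apply, Nat.sum_divisorsAntidiagonal (fun a b => cut_Mol X _ a *
      cut_Mol (3 * ⌊y⌋₊) _ b)]
    refine (norm_sum_le _ _).trans ((sum_le_card_nsmul _ _ 1 fun d _ => ?_).trans (by simp))
    rw [norm_mul]
    exact mul_le_one₀ (cut_norm_Mol m1 _) (norm_nonneg _) (cut_norm_Mol m2 _)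
  · refine (norm_sum_le _ _).trans ((sum_le_card_nsmul _ _ 1 fun d hd => ?_).trans (by simp))
    have d1 := (mem_Icc.1 hd).1
    rw [norm_mul, Complex.norm_natCast_cpow_of_pos d1]
    refine mul_le_one₀ (m1 d) (by positivity) ?_
    exact Real.rpow_le_one_of_one_le_of_nonpos (by exact_mod_cast d1) (by simpa using hρ)
  have key := conv_sum (cut_Mol X fun n => ((ArithmeticFunction.moebius n : ℤ) : ℂ))
    (cut_Mol (3 * ⌊y⌋₊) fun n => (psi ((n : ℝ) / y) : ℂ)) (Icc 1 X) (Icc 1 (3 * ⌊y⌋₊))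
    (Ioc 0 (2 ^ I * X)) (fun n hn => if_neg hn) (fun n hn => if_neg hn)
    (fun x hx => by
      have := (mem_Icc.1 hx).1
      omega)
    (fun x hx => by
      have := (mem_Icc.1 hx).1
      omega)
    (fun a ha b hb => by
      rw [mem_Icc] at ha hb
      refine mem_Ioc.2 ⟨Nat.mul_pos ha.1 hb.1, ?_⟩
      rw [mul_comm]
      exact Nat.mul_le_mul (hb.2.trans hY) ha.2)
    (fun k => (k : ℂ) ^ (-ρ)) fun a b _ _ => by
      rw [Nat.cast_mul, Complex.natCast_mul_natCast_cpow]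
  rw [dya_Mol, cut_sum_Mol, cut_sum_Mol] at key
  rw [Ps, ← key, add_left_inj]
  have e : ∀ k ∈ Ioc 0 X, (cut_Mol X (fun n => ((ArithmeticFunction.moebius n : ℤ) : ℂ)) *
      cut_Mol (3 * ⌊y⌋₊) (fun n => (psi ((n : ℝ) / y) : ℂ))) k = (1 : ArithmeticFunction ℂ) k := by
    intro k hk
    rw [← ArithmeticFunction.coe_moebius_mul_coe_zeta, ArithmeticFunction.mul_apply,
      ArithmeticFunction.mul_apply]
    refine sum_congr rfl fun p hp => ?_
    obtain ⟨k1, k2⟩ := mem_Ioc.1 hk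
    have a1 := Nat.fst_mem_divisors_of_mem_antidiagonal hp
    have a2 := Nat.snd_mem_divisors_of_mem_antidiagonal hp
    have b1 := Nat.pos_of_mem_divisors a1
    have b2 := Nat.pos_of_mem_divisors a2
    have c1 := Nat.divisor_le a1
    have c2 := Nat.divisor_le a2
    have c3 : (p.2 : ℝ) / y ≤ 1 := by
      rw [div_le_one (by linarith)]
      exact le_trans (by exact_mod_cast c2.trans k2) hy
    rw [cut_apply_Mol, cut_apply_Mol, if_pos (mem_Icc.2 ⟨b1, by omega⟩),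
      if_pos (mem_Icc.2 ⟨b2, by omega⟩), psi_eq_one c3]
    simp [ArithmeticFunction.zeta_apply_ne b2.ne']
  rw [sum_congr rfl fun (k : ℕ) hk => congrArg (· * (k : ℂ) ^ (-ρ)) (e k hk),
    sum_eq_single_of_mem 1 (mem_Ioc.2 ⟨one_pos, hX⟩) fun k _ hk => by
      simp [ArithmeticFunction.one_apply_ne hk]]
  simp

end Pool.Agent.MP_2a1f0e_nt.DH

end

section

set_option autoImplicit false

open Finset

namespace Pool.Agent.MP_2a1f0e_nt.DH

open Pool.Agent.MP_2a1f0e_nt.GM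

lemma kp_le_Ca {t ξ : ℝ} (ht : 0 < t) (h : t / 2 ≤ |ξ|) : kp ξ ≤ 5 / t ^ 2 * kp (ξ / t) := by
  have h1 : (t / 2) ^ 2 ≤ ξ ^ 2 := by
    rw [← sq_abs ξ]
    exact pow_le_pow_left₀ (by positivity) h 2
  have h2 : 5 / t ^ 2 * kp (ξ / t) = 5 / (t ^ 2 + ξ ^ 2) := by
    unfold kp
    field_simp
  rw [h2, kp, div_le_div_iff₀ (by positivity) (by positivity)]
  nlinarith

lemma int_Ca (N : ℕ) (S : Finset ℤ) {t B : ℝ} (ht : 0 < t) (hB0 : 0 ≤ B)
    (hB : ∀ ξ : ℝ, |ξ| ≤ t / 2 → ∑ m ∈ S, ‖KK N (ξ - m)‖ ≤ B) :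
    ∑ m ∈ S, ∫ ξ : ℝ, kp ξ * ‖KK N (ξ - m)‖ ≤ Real.pi * (B + 15 * (S.card * (N / t))) := by
  have hi : ∀ m ∈ S, MeasureTheory.Integrable fun ξ : ℝ => kp ξ * ‖KK N (ξ - m)‖ := fun m _ =>
    integrable_kp.mul_bdd (c := 3 * N)
      ((continuous_KK N).comp (continuous_id.sub continuous_const)).norm.aestronglyMeasurable
      (Filter.Eventually.of_forall fun ξ => by rw [norm_norm]; exact norm_KK_le _ _)
  have h1 := integrable_kp.mul_const B
  have h2 := (integrable_kp.comp_div ht.ne').const_mul (S.card * (3 * N) * (5 / t ^ 2))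
  rw [← MeasureTheory.integral_finsetSum _ hi]
  refine (MeasureTheory.integral_mono (MeasureTheory.integrable_finsetSum _ hi) (h1.add h2)
    fun ξ => ?_).trans (le_of_eq ?_)
  · change _ ≤ kp ξ * B + S.card * (3 * N) * (5 / t ^ 2) * kp (ξ / t)
    have k1 := kp_pos ξ
    have k2 := kp_pos (ξ / t)
    rw [← mul_sum]
    rcases le_total |ξ| (t / 2) with h | h
    · exact (mul_le_mul_of_nonneg_left (hB ξ h) k1.le).trans
        (le_add_of_nonneg_right (by positivity))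
    · refine le_trans ?_ (le_add_of_nonneg_left (by positivity))
      have h3 : ∑ m ∈ S, ‖KK N (ξ - m)‖ ≤ S.card * (3 * N) := by
        simpa using sum_le_card_nsmul S _ _ fun m _ => norm_KK_le N (ξ - m)
      rw [mul_assoc _ (5 / t ^ 2), mul_comm (kp ξ)]
      exact mul_le_mul h3 (kp_le_Ca ht h) k1.le (by positivity)
  · change ∫ ξ : ℝ, kp ξ * B + S.card * (3 * N) * (5 / t ^ 2) * kp (ξ / t) = _
    rw [MeasureTheory.integral_add h1 h2, MeasureTheory.integral_mul_const,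
      MeasureTheory.integral_const_mul, MeasureTheory.Measure.integral_comp_div, integral_kp,
      abs_of_pos ht, smul_eq_mul]
    field_simp
    ring

lemma num_Ca {t y σ n : ℝ} (ht : 1 ≤ t) (h1 : √t ≤ y) (h2 : y ≤ 2 * t ^ 2) (hσ : 11 / 20 ≤ σ)
    (hn : n ≤ y) : y ^ (-σ) ≤ t ^ (-(1 / 10) : ℝ) ∧ y ^ (-σ) * √n ≤ t ^ ((1 - 2 * σ) / 4) ∧
      y ^ (-σ) * (n / t) ≤ 2 * t ^ (-(1 / 10) : ℝ) := by
  have t0 : 0 < t := by linarith
  have r1 : 1 ≤ √t := Real.one_le_sqrt.2 ht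
  have y1 : 1 ≤ y := r1.trans h1
  have y0 : 0 < y := by linarith
  have key : ∀ a : ℝ, a ≤ 0 → y ^ a ≤ t ^ (a / 2) := fun a ha => by
    refine (Real.rpow_le_rpow_of_nonpos (by linarith) h1 ha).trans (le_of_eq ?_)
    rw [Real.sqrt_eq_rpow, ← Real.rpow_mul t0.le]
    congr 1
    ring
  refine ⟨(key _ (by linarith)).trans (Real.rpow_le_rpow_of_exponent_le ht (by linarith)), ?_, ?_⟩
  · calc y ^ (-σ) * √n ≤ y ^ (-σ) * √y := by gcongr
      _ = y ^ (-σ + 1 / 2) := by rw [Real.sqrt_eq_rpow, Real.rpow_add y0]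
      _ ≤ t ^ ((-σ + 1 / 2) / 2) := key _ (by linarith)
      _ = _ := by congr 1; ring
  · calc y ^ (-σ) * (n / t) ≤ y ^ (-σ) * (y / t) := by gcongr
      _ = y ^ (-σ + 1) / t := by rw [Real.rpow_add y0, Real.rpow_one, mul_div_assoc]
      _ ≤ y ^ (9 / 20 : ℝ) / t := by
        gcongr
        linarith
      _ ≤ (2 * t ^ 2) ^ (9 / 20 : ℝ) / t := by gcongr
      _ = 2 ^ (9 / 20 : ℝ) * t ^ (-(1 / 10) : ℝ) := by
        rw [Real.mul_rpow (by norm_num) (by positivity), ← Real.rpow_natCast,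
          ← Real.rpow_mul t0.le, mul_div_assoc, ← Real.rpow_sub_one t0.ne']
        norm_num
      _ ≤ _ := by
        gcongr
        exact (Real.rpow_le_rpow_of_exponent_le one_le_two (by norm_num)).trans
          (Real.rpow_one 2).le

theorem ca_stmt (hS : SmStmt) (hK : KsStmt) : CaStmt := by
  intro ε hε
  obtain ⟨Cs, hCs, hS⟩ := hS
  obtain ⟨Ck, hCk, hK⟩ := hK ε hε
  have hπ := Real.pi_pos
  refine ⟨1 + Cs * Real.pi * (Ck + 30), le_add_of_nonneg_right (by positivity),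
    fun T y σ hT h1 h2 hσ S ρ hSI hB => ?_⟩
  have t100 : (100 : ℝ) ≤ T := by exact_mod_cast hT
  have t0 : (0 : ℝ) < T := by linarith
  have r10 : 10 ≤ √(T : ℝ) := Real.le_sqrt_of_sq_le (by linarith)
  have r2 := Real.sq_sqrt t0.le
  have n1 : (⌊y⌋₊ : ℝ) ≤ y := Nat.floor_le (by linarith)
  have n2 := Nat.lt_floor_add_one y
  have n3 : 3 * T ≤ 4 * ⌊y⌋₊ ^ 2 := by
    have : 9 / 10 * √(T : ℝ) ≤ ⌊y⌋₊ := by linarith
    have : 3 * (T : ℝ) ≤ 4 * (⌊y⌋₊ : ℝ) ^ 2 := by nlinarith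
    exact_mod_cast this
  have n4 : ⌊y⌋₊ ≤ 2 * T ^ 2 := by exact_mod_cast n1.trans h2
  have k1 := int_Ca ⌊y⌋₊ S t0 (by positivity) (hK T _ (by omega) n3 n4 S hSI)
  obtain ⟨a1, a2, a3⟩ := num_Ca (by linarith) h1 h2 hσ n1
  have u0 : 0 < y ^ (-σ) := Real.rpow_pos_of_pos (by linarith) _
  have k2 : ∑ m ∈ S, ‖Sm y (ρ m)‖ ≤
      Cs * y ^ (-σ) * ∑ m ∈ S, ∫ ξ : ℝ, kp ξ * ‖KK ⌊y⌋₊ (ξ - m)‖ := by
    rw [mul_sum]
    refine sum_le_sum fun m hm => ?_
    obtain ⟨b1, b2, b3, b4⟩ := hB m hm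
    refine (hS y m (ρ m) (by linarith) (by linarith) b2 b3 b4).trans
      (mul_le_mul_of_nonneg_right (mul_le_mul_of_nonneg_left
        (Real.rpow_le_rpow_of_exponent_le (by linarith) (by linarith)) hCs.le)
        (MeasureTheory.integral_nonneg fun ξ => mul_nonneg (kp_pos ξ).le (norm_nonneg _)))
  have e : (T : ℝ) ^ ((2 - 2 * σ + ε) / 4) =
      (T : ℝ) ^ ((1 - 2 * σ) / 4) * (T : ℝ) ^ ((1 + ε) / 4) := by
    rw [← Real.rpow_add t0]
    congr 1
    ring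
  refine (k2.trans (mul_le_mul_of_nonneg_left k1 (by positivity))).trans ?_
  rw [e]
  have p1 : 0 ≤ (S.card : ℝ) ^ (3 / 4 : ℝ) := by positivity
  have p2 : 0 ≤ (T : ℝ) ^ ((1 + ε) / 4) := by positivity
  have p3 : 0 ≤ (T : ℝ) ^ ((1 - 2 * σ) / 4) := by positivity
  have p4 : 0 ≤ (T : ℝ) ^ (-(1 / 10) : ℝ) := by positivity
  have p5 : 0 ≤ (S.card : ℝ) := by positivity
  generalize (S.card : ℝ) ^ (3 / 4 : ℝ) = Q at *
  generalize (S.card : ℝ) = R at *
  generalize (T : ℝ) ^ ((1 + ε) / 4) = a at *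
  generalize (T : ℝ) ^ ((1 - 2 * σ) / 4) = b at *
  generalize (T : ℝ) ^ (-(1 / 10) : ℝ) = c at *
  calc Cs * y ^ (-σ) * (Real.pi * (Ck * (R + √(⌊y⌋₊ : ℝ) * Q * a) + 15 * (R * (⌊y⌋₊ / T))))
      = Cs * Real.pi * (Ck * (R * y ^ (-σ) + Q * (y ^ (-σ) * √(⌊y⌋₊ : ℝ) * a)) +
          15 * (R * (y ^ (-σ) * (⌊y⌋₊ / T)))) := by ring
    _ ≤ Cs * Real.pi * (Ck * (R * c + Q * (b * a)) + 15 * (R * (2 * c))) := by gcongr
    _ ≤ _ := by
      have q1 : 0 ≤ R * c := by positivity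
      have q2 : 0 ≤ Q * (b * a) := by positivity
      have q3 : 0 ≤ Cs * Real.pi * (Q * (b * a)) := by positivity
      nlinarith

end Pool.Agent.MP_2a1f0e_nt.DH

end

section

set_option autoImplicit false

open Finset

namespace Pool.Agent.MP_2a1f0e_nt.DH

open Pool.Agent.MP_2a1f0e_nt.GM

theorem conj_pow_Cb {k N : ℕ} (hk : 0 < k) (hN : 0 < N) (σ m : ℝ) (ρ z : ℂ)
    (hz : z = σ - Complex.I * m - (starRingEnd ℂ) ρ) :
    (starRingEnd ℂ) ((k : ℂ) ^ (-ρ)) = Complex.exp ((z - σ) * (Real.log N : ℝ)) *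
      ((Real.exp (σ * (Real.log N - Real.log k)) : ℝ) * pw (k : ℝ) m *
        ((((k : ℝ) / N : ℝ) : ℂ) ^ z)) := by
  have hk' : (0 : ℝ) < k := by exact_mod_cast hk
  have hN' : (0 : ℝ) < N := by exact_mod_cast hN
  rw [Complex.cpow_def_of_ne_zero (by exact_mod_cast hk.ne'),
    Complex.cpow_def_of_ne_zero (Complex.ofReal_ne_zero.2 (div_pos hk' hN').ne'),
    ← Complex.ofReal_log (div_pos hk' hN').le, Real.log_div hk'.ne' hN'.ne', ← Complex.exp_conj,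
    ← Complex.natCast_log, map_mul, Complex.conj_ofReal, map_neg, pw, Complex.ofReal_exp,
    ← Complex.exp_add, ← Complex.exp_add, ← Complex.exp_add, hz]
  congr 1
  generalize Real.log k = a
  generalize Real.log N = b
  push_cast
  ring

theorem cb_stmt (hT : TyStmt) : CbStmt := by
  intro N T Y σ Δ κ Z c hN hσ hΔ hκ hc hY hZ S ρ hS hB hm
  have hN' : (0 : ℝ) < N := by exact_mod_cast hN
  let b : ℕ → ℂ := fun k => if k ∈ Ioc N (2 * N) then
    (starRingEnd ℂ) (c k) * (Real.exp (σ * (Real.log N - Real.log k)) : ℝ) / Δ else 0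
  refine hT N T Y _ Z hN (by positivity) hY hZ b (fun k => ?_) S
    (fun m => σ - Complex.I * (m : ℝ) - (starRingEnd ℂ) (ρ m)) hS (fun m h => ?_) fun m h => ?_
  · simp only [b]
    split_ifs with h
    · rw [norm_div, norm_mul, Complex.norm_conj, Complex.norm_real, Complex.norm_real,
        Real.norm_of_nonneg (Real.exp_pos _).le, Real.norm_of_nonneg hΔ.le, div_le_one hΔ]
      refine (mul_le_of_le_one_right (norm_nonneg _) (Real.exp_le_one_iff.2 ?_)).trans (hc k h)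
      refine mul_nonpos_of_nonneg_of_nonpos (by linarith) (sub_nonpos.2 ?_)
      exact Real.log_le_log hN' (by exact_mod_cast (mem_Ioc.1 h).1.le)
    · simp
  · obtain ⟨h1, h2, h3, h4⟩ := hB m h
    rw [← sq_le_sq₀ (norm_nonneg _) (by norm_num), Complex.sq_norm, Complex.normSq_apply]
    simp only [Complex.sub_re, Complex.sub_im, Complex.ofReal_re, Complex.ofReal_im,
      Complex.mul_re, Complex.mul_im, Complex.I_re, Complex.I_im, Complex.conj_re, Complex.conj_im]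
    nlinarith
  · obtain ⟨z, hz⟩ : ∃ z, z = σ - Complex.I * (m : ℝ) - (starRingEnd ℂ) (ρ m) := ⟨_, rfl⟩
    have e : (starRingEnd ℂ) (∑ k ∈ Ioc N (2 * N), c k * (k : ℂ) ^ (-ρ m)) =
        Δ * Complex.exp ((z - σ) * (Real.log N : ℝ)) * ∑ n ∈ Icc N (2 * N),
          b n * pw (n : ℝ) m * ((((n : ℝ) / N : ℝ) : ℂ) ^ z) := by
      rw [← sum_subset Ioc_subset_Icc_self fun n _ hn => by simp only [b, if_neg hn, zero_mul],
        map_sum, mul_sum]
      refine sum_congr rfl fun k hk => ?_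
      have : (Δ : ℂ) ≠ 0 := Complex.ofReal_ne_zero.2 hΔ.ne'
      rw [map_mul, conj_pow_Cb (lt_of_le_of_lt (Nat.zero_le _) (mem_Ioc.1 hk).1) hN σ m _ z hz]
      simp only [b, if_pos hk]
      field_simp
    have h1 := hm m h
    rw [← Complex.norm_conj, e, norm_mul, norm_mul, Complex.norm_real, Real.norm_of_nonneg hΔ.le,
      Complex.norm_exp] at h1
    have h2 : Real.exp ((z - σ) * (Real.log N : ℝ)).re * (N : ℝ) ^ σ ≤ 1 := by
      rw [Real.rpow_def_of_pos hN', ← Real.exp_add, Real.exp_le_one_iff, hz]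
      have h3 := mul_le_mul_of_nonneg_left (hB m h).1 (Real.log_natCast_nonneg N)
      simp only [Complex.sub_re, Complex.sub_im, Complex.ofReal_re, Complex.ofReal_im,
        Complex.mul_re, Complex.mul_im, Complex.I_re, Complex.I_im, Complex.conj_re]
      linarith
    rw [← hz, div_le_iff₀ hΔ]
    refine (mul_le_mul_of_nonneg_right h1 (by positivity)).trans ?_
    rw [mul_right_comm, mul_assoc Δ, mul_comm]
    exact mul_le_mul_of_nonneg_left (mul_le_of_le_one_right hΔ.le h2) (norm_nonneg _)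

end Pool.Agent.MP_2a1f0e_nt.DH

end

section

set_option autoImplicit false
open Finset
namespace Pool.Agent.MP_2a1f0e_nt.DH
open Pool.Agent.MP_2a1f0e_nt.GM

lemma cp_Sm {x : ℝ} (hx : 0 < x) (c : ℂ) :
    (x : ℂ) ^ c = Complex.exp ((Real.log x : ℂ) * c) := by
  rw [Complex.cpow_def_of_ne_zero (by exact_mod_cast hx.ne'), Complex.ofReal_log hx.le]

lemma split_Sm {x y : ℝ} (hx : 0 < x) (hy : 0 < y) (m : ℝ) (ρ : ℂ) :
    (x : ℂ) ^ (-ρ) = ((x / y : ℝ) : ℂ) ^ (-(ρ - Complex.I * m)) *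
      ((y : ℂ) ^ (-(ρ - Complex.I * m)) * pw x (-m)) := by
  rw [cp_Sm hx, cp_Sm hy, cp_Sm (div_pos hx hy), pw, ← Complex.exp_add, ← Complex.exp_add,
    Real.log_div hx.ne' hy.ne']
  congr 1
  push_cast
  ring

lemma wt_Sm {y : ℝ} (hy : 5 ≤ y) (n : ℕ) :
    om ((n : ℝ) / y) = om ((n : ℝ) / y) * Wt ((n : ℝ) / (⌊y⌋₊ : ℕ)) := by
  by_cases h : (n : ℝ) / y ≤ 1 ∨ 5 / 3 ≤ (n : ℝ) / y
  · rw [om_eq_zero h, zero_mul]
  · rw [not_or, not_le, not_le, lt_div_iff₀ (by linarith), div_lt_iff₀ (by linarith)] at h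
    have h1 := Nat.floor_le (by linarith : 0 ≤ y)
    have h2 := Nat.lt_floor_add_one y
    have h3 : (5 : ℝ) ≤ (⌊y⌋₊ : ℕ) := by exact_mod_cast Nat.le_floor (by exact_mod_cast hy)
    rw [Wt_eq_one, mul_one]
    · rw [le_div_iff₀ (by linarith)]
      linarith [h.1]
    · rw [div_le_iff₀ (by linarith)]
      linarith [h.2]

theorem sm_stmt (hM : MelStmt) : SmStmt := by
  obtain ⟨C, hC, h⟩ := hM om 1 (5 / 3) one_pos contDiff_om fun x hx => om_eq_zero hx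
  refine ⟨C, hC, fun y m ρ hy h0 h1 h2 h3 => ?_⟩
  have hy0 : 0 < y := by linarith
  obtain ⟨φ, hφ, hb, he⟩ := h (-(ρ - Complex.I * m)) (by
    refine (Complex.norm_le_abs_re_add_abs_im _).trans ?_
    have e1 : (-(ρ - Complex.I * m)).re = -ρ.re := by simp
    have e2 : (-(ρ - Complex.I * m)).im = -(ρ.im - m) := by simp
    rw [e1, e2, abs_neg, abs_neg, abs_of_nonneg h0, abs_of_nonneg (by linarith)]
    linarith)
  have hi : ∀ (F : ℝ → ℂ) (B : ℝ), Continuous F → (∀ ξ, ‖F ξ‖ ≤ B) →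
      MeasureTheory.Integrable fun ξ => φ ξ * F ξ := fun F B hF hB =>
    ((integrable_kp.const_mul C).mul_const B).mono' (hφ.mul hF).aestronglyMeasurable
      (Filter.Eventually.of_forall fun ξ => by
        rw [norm_mul]
        exact mul_le_mul (hb ξ) (hB ξ) (norm_nonneg _) (mul_nonneg hC.le (kp_pos ξ).le))
  have hc : ∀ n : ℕ, Continuous fun ξ : ℝ =>
      pw y (-ξ) * ((Wt ((n : ℝ) / (⌊y⌋₊ : ℕ)) : ℂ) * pw (n : ℝ) (ξ - m)) := fun n =>
    ((continuous_pw y).comp continuous_neg).mul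
      (continuous_const.mul ((continuous_pw _).comp (continuous_id.sub continuous_const)))
  have key : Sm y ρ = (y : ℂ) ^ (-(ρ - Complex.I * m)) *
      ∫ ξ : ℝ, φ ξ * (pw y (-ξ) * KK ⌊y⌋₊ (ξ - m)) := by
    unfold Sm KK
    simp only [mul_sum]
    rw [MeasureTheory.integral_finsetSum _ fun n _ => hi _ 1 (hc n) fun ξ => by
      rw [norm_mul, norm_mul, norm_pw, norm_pw, one_mul, mul_one, Complex.norm_real,
        Real.norm_of_nonneg (Wt_nonneg _)]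
      exact Wt_le_one _, mul_sum]
    refine sum_congr rfl fun n hn => ?_
    have hn0 : (0 : ℝ) < n := by exact_mod_cast (mem_Icc.1 hn).1
    have e : ∀ ξ : ℝ, φ ξ * (pw y (-ξ) * ((Wt ((n : ℝ) / (⌊y⌋₊ : ℕ)) : ℂ) * pw (n : ℝ) (ξ - m))) =
        φ ξ * pw ((n : ℝ) / y) ξ * ((Wt ((n : ℝ) / (⌊y⌋₊ : ℕ)) : ℂ) * pw (n : ℝ) (-m)) := by
      intro ξ
      rw [pw_div hn0.ne' hy0.ne', sub_eq_add_neg, pw_add]
      ring
    simp only [e]
    rw [MeasureTheory.integral_mul_const, ← he _ (div_pos hn0 hy0), ← Complex.ofReal_natCast n,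
      split_Sm hn0 hy0 m ρ]
    conv_lhs => rw [wt_Sm hy n, Complex.ofReal_mul]
    ring
  have e1 : (-(ρ - Complex.I * m)).re = -ρ.re := by simp
  rw [key, norm_mul, Complex.norm_cpow_eq_rpow_re_of_pos hy0, e1, mul_comm C, mul_assoc,
    ← MeasureTheory.integral_const_mul C]
  refine mul_le_mul_of_nonneg_left ?_ (by positivity)
  refine MeasureTheory.norm_integral_le_of_norm_le ?_ (Filter.Eventually.of_forall fun ξ => ?_)
  · refine MeasureTheory.Integrable.const_mul ?_ C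
    have hK : Continuous fun ξ : ℝ => ‖KK ⌊y⌋₊ (ξ - m)‖ :=
      ((continuous_KK _).comp (continuous_id.sub continuous_const)).norm
    exact (integrable_kp.mul_const (3 * (⌊y⌋₊ : ℕ) : ℝ)).mono'
      (continuous_kp.mul hK).aestronglyMeasurable (Filter.Eventually.of_forall fun ξ => by
        rw [Real.norm_of_nonneg (mul_nonneg (kp_pos ξ).le (norm_nonneg _))]
        exact mul_le_mul_of_nonneg_left (norm_KK_le _ _) (kp_pos ξ).le)
  · rw [norm_mul, norm_mul, norm_pw, one_mul, ← mul_assoc]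
    exact mul_le_mul_of_nonneg_right (hb ξ) (norm_nonneg _)

end Pool.Agent.MP_2a1f0e_nt.DH

end

section

set_option autoImplicit false

open Finset

namespace Pool.Agent.MP_2a1f0e_nt.DH

open Pool.Agent.MP_2a1f0e_nt.GM

lemma size_Ks {T N δ M : ℝ} (hT : 1 ≤ T) (hN : 0 < N) (h1 : 3 * T ≤ 4 * N ^ 2)
    (h2 : N ≤ 2 * T ^ 2) (hδ : 0 < δ) (hδ1 : δ ≤ 1) (hM0 : 0 ≤ M)
    (hM : M ≤ 6 * T * N ^ δ / N + 1) :
    M ^ 2 ≤ 225 * T ^ (1 + 4 * δ) ∧ 6 * T ≤ 225 * T ^ (1 + 4 * δ) := by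
  have hT0 : 0 < T := by linarith
  have ha : 1 ≤ T ^ (2 * δ) := Real.one_le_rpow hT (by positivity)
  have hs : 1 ≤ √T := Real.one_le_sqrt.2 hT
  have hs2 : √T ^ 2 = T := Real.sq_sqrt hT0.le
  have e : T ^ (1 + 4 * δ) = T * (T ^ (2 * δ)) ^ 2 := by
    rw [← Real.rpow_natCast, ← Real.rpow_mul hT0.le, Real.rpow_add hT0, Real.rpow_one]
    congr 2
    push_cast
    ring
  have k1 : N ^ δ ≤ 2 * T ^ (2 * δ) := by
    refine (Real.rpow_le_rpow hN.le h2 hδ.le).trans ?_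
    rw [Real.mul_rpow (by norm_num) (by positivity), Real.rpow_mul hT0.le, Real.rpow_two]
    refine mul_le_mul_of_nonneg_right ?_ (by positivity)
    simpa using Real.rpow_le_rpow_of_exponent_le (x := 2) (by norm_num) hδ1
  have k2 : √T ≤ 7 / 6 * N := Real.sqrt_le_iff.2 ⟨by positivity, by nlinarith⟩
  have k3 : 6 * T * N ^ δ / N ≤ 14 * (√T * T ^ (2 * δ)) := by
    rw [div_le_iff₀ hN]
    calc 6 * T * N ^ δ = 6 * (√T * √T) * N ^ δ := by rw [Real.mul_self_sqrt hT0.le]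
      _ ≤ 6 * (√T * (7 / 6 * N)) * (2 * T ^ (2 * δ)) := by gcongr
      _ = _ := by ring
  have k4 : 1 ≤ √T * T ^ (2 * δ) := one_le_mul_of_one_le_of_one_le hs ha
  rw [e]
  constructor
  · calc M ^ 2 ≤ (15 * (√T * T ^ (2 * δ))) ^ 2 := by
          gcongr
          linarith
      _ = _ := by rw [mul_pow, mul_pow, hs2]; norm_num
  · nlinarith [one_le_pow₀ (n := 2) ha]

theorem ks_stmt (hK : PkStmt) (hA : AvgStmt) (hM : MomStmt) : KsStmt := by
  intro ε hε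
  obtain ⟨δ, hδ, hδ1, hδε⟩ : ∃ δ : ℝ, 0 < δ ∧ δ ≤ 1 ∧ (1 + 4 * δ) * (1 + δ) ≤ 1 + ε := by
    refine ⟨min ε 9 / 9, by positivity, by linarith [min_le_right ε 9], ?_⟩
    have : 0 < min ε 9 := by positivity
    nlinarith [min_le_right ε 9, min_le_left ε 9]
  obtain ⟨E, hE, hK⟩ := hK δ hδ
  obtain ⟨A, hA0, hA⟩ := hA
  obtain ⟨C, hC, hM⟩ := hM δ hδ
  refine ⟨9 * E + A * (C + 225), by positivity, fun T N hT h1 h2 S hS ξ hξ => ?_⟩
  have hN : 1 ≤ N := Nat.pos_of_ne_zero fun h => by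
    rw [h] at h1
    omega
  have hT' : (1 : ℝ) ≤ T := by exact_mod_cast hT
  have hT0 : (0 : ℝ) < T := by linarith
  have hN' : (0 : ℝ) < N := by exact_mod_cast hN
  have h2' : (N : ℝ) ≤ 2 * T ^ 2 := by exact_mod_cast h2
  obtain ⟨M, hM1, hM2⟩ : ∃ M : ℕ, 6 * T * (N : ℝ) ^ δ / N ≤ M ∧
      (M : ℝ) ≤ 6 * T * (N : ℝ) ^ δ / N + 1 :=
    ⟨_, Nat.le_ceil _, (Nat.ceil_lt_add_one (by positivity)).le⟩
  obtain ⟨s1, s2⟩ := size_Ks hT' hN' (by exact_mod_cast h1) h2' hδ hδ1 M.cast_nonneg hM2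
  obtain ⟨L, l1, l2, l3⟩ : ∃ L : ℕ, M ^ 2 ≤ L ∧ 3 * (2 * T) ≤ L ∧
      (L : ℝ) ≤ 225 * (T : ℝ) ^ (1 + 4 * δ) := by
    refine ⟨max (M ^ 2) (3 * (2 * T)), le_max_left _ _, le_max_right _ _, ?_⟩
    push_cast
    exact max_le s1 (by linarith)
  have hL : (0 : ℝ) < L := by exact_mod_cast (by omega : 0 < L)
  have l4 : (L : ℝ) ^ δ * L ≤ 225 ^ 2 * (T : ℝ) ^ (1 + ε) := by
    rw [← Real.rpow_add_one hL.ne', add_comm δ]
    refine (Real.rpow_le_rpow hL.le l3 (by positivity)).trans ?_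
    rw [Real.mul_rpow (by norm_num) (by positivity), ← Real.rpow_mul hT0.le, ← Real.rpow_two]
    exact mul_le_mul (Real.rpow_le_rpow_of_exponent_le (by norm_num) (by linarith))
      (Real.rpow_le_rpow_of_exponent_le hT' hδε) (by positivity) (by positivity)
  have hB := hA N M hN ℤ S (fun _ => 1) (fun m => ξ - m)
    ((C + 225) * ((S.card : ℝ) ^ (3 / 4 : ℝ) * (T : ℝ) ^ ((1 + ε) / 4))) (fun _ _ => zero_le_one)
    fun x => by
      simp only [one_mul]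
      refine le_of_pow_le_pow_left₀ (n := 3 + 1) (by norm_num) (by positivity)
        ((pow_sum_le_card_mul_sum_pow (fun _ _ => norm_nonneg _) 3).trans ?_)
      have k1 : ∑ m ∈ S, ‖ZZ M (ξ - m + x)‖ ^ (3 + 1) ≤ C * (L : ℝ) ^ δ * L := by
        refine le_trans ?_ ((hM M L (2 * T) (-(ξ + x)) (by omega) l2).1 l1)
        refine (sum_le_sum fun m _ => ?_).trans (sum_le_sum_of_subset_of_nonneg (s := S)
          (fun m hm => ?_) fun _ _ _ => by positivity)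
        · rw [← norm_ZZ_neg, show -(ξ - m + x) = m + -(ξ + x) by ring]
        · have := mem_Icc.1 (hS hm)
          rw [mem_Icc]
          omega
      have k2 : C * 225 ^ 2 ≤ (C + 225) ^ 4 := by
        calc C * 225 ^ 2 = C * 225 ^ 2 * 1 := (mul_one _).symm
          _ ≤ (C + 225) * (C + 225) ^ 2 * (C + 225) := by gcongr <;> linarith
          _ = _ := by ring
      rw [mul_pow, mul_pow, ← Real.rpow_natCast ((S.card : ℝ) ^ (3 / 4 : ℝ)),
        ← Real.rpow_natCast ((T : ℝ) ^ ((1 + ε) / 4)), ← Real.rpow_mul (by positivity),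
        ← Real.rpow_mul hT0.le, show (3 / 4 : ℝ) * ((3 + 1 : ℕ) : ℝ) = (3 : ℕ) by norm_num,
        show (1 + ε) / 4 * ((3 + 1 : ℕ) : ℝ) = 1 + ε by push_cast; ring, Real.rpow_natCast]
      calc _ ≤ (S.card : ℝ) ^ 3 * (C * (225 ^ 2 * (T : ℝ) ^ (1 + ε))) := by
            refine mul_le_mul_of_nonneg_left (k1.trans ?_) (by positivity)
            rw [mul_assoc]
            gcongr
        _ = C * 225 ^ 2 * ((S.card : ℝ) ^ 3 * (T : ℝ) ^ (1 + ε)) := by ring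
        _ ≤ _ := by gcongr
  simp only [one_mul] at hB
  have hD : ∀ m ∈ S, ‖KK N (ξ - m)‖ ≤ 9 * E + ‖Kb N M (ξ - m)‖ := fun m hm => by
    obtain ⟨m1, m2⟩ := mem_Icc.1 (hS hm)
    have m3 : (T : ℝ) ≤ m := by exact_mod_cast m1
    have m4 : (m : ℝ) ≤ 2 * T := by exact_mod_cast m2
    obtain ⟨x1, x2⟩ := abs_le.1 hξ
    have k1 := hK N M (3 * T) hN (by omega) h1
      (by rw [div_le_iff₀ hN'] at hM1; push_cast; linarith) (ξ - m)
      (by rw [abs_le]; push_cast; constructor <;> linarith)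
    have k2 : N * kp (ξ - m) ≤ 8 := by
      rw [kp, mul_one_div, div_le_iff₀ (by positivity)]
      nlinarith
    have k3 := norm_add_le (KK N (ξ - m) - Kb N M (ξ - m)) (Kb N M (ξ - m))
    rw [sub_add_cancel] at k3
    nlinarith
  refine (sum_le_sum hD).trans ?_
  rw [sum_add_distrib, sum_const, nsmul_eq_mul]
  have k1 : 0 ≤ √N * (S.card : ℝ) ^ (3 / 4 : ℝ) * (T : ℝ) ^ ((1 + ε) / 4) := by positivity
  have k2 : 0 ≤ A * (C + 225) * S.card := by positivity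
  nlinarith [mul_nonneg hE.le k1]

end Pool.Agent.MP_2a1f0e_nt.DH

end

section

set_option autoImplicit false

open Finset

namespace Pool.Agent.MP_2a1f0e_nt.DH

open Pool.Agent.MP_2a1f0e_nt.GM

theorem pk_stmt (hD : DecayStmt) (hZ : ZeroStmt) (hP : PoisStmt) : PkStmt := by
  intro δ hδ
  obtain ⟨i, hi⟩ := exists_nat_ge (4 / δ)
  rw [div_le_iff₀ hδ] at hi
  obtain ⟨C, hC, hd⟩ := hD (i + 2)
  obtain ⟨C0, hC0, hz⟩ := hZ
  refine ⟨C0 + 768 * C, by positivity, fun N M L hN hL hLN hM u hu1 => ?_⟩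
  have hN1 : (1 : ℝ) ≤ N := by exact_mod_cast hN
  have hL1 : (1 : ℝ) ≤ L := by exact_mod_cast hL
  have hLN' : (L : ℝ) ≤ 4 * (N : ℝ) ^ 2 := by exact_mod_cast hLN
  have hN0 : (0 : ℝ) < N := by linarith
  have hp : 0 < (N : ℝ) ^ δ := Real.rpow_pos_of_pos hN0 δ
  have hM0 : (0 : ℝ) < M := (mul_pos_iff_of_pos_left hN0).1 (lt_of_lt_of_le (by positivity) hM)
  set q : ℝ := 2 * L / (N * M) with hq
  have hq0 : 0 ≤ q := by positivity
  have hq1 : q ^ i * (N : ℝ) ^ 4 ≤ 1 := by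
    have h1 : q * (N : ℝ) ^ δ ≤ 1 := by
      rw [hq, div_mul_eq_mul_div, div_le_one (by positivity)]
      exact hM
    have h2 : (N : ℝ) ^ 4 ≤ ((N : ℝ) ^ δ) ^ i := by
      rw [← Real.rpow_natCast, ← Real.rpow_mul_natCast hN0.le]
      exact Real.rpow_le_rpow_of_exponent_le hN1 (by push_cast; linarith)
    calc q ^ i * (N : ℝ) ^ 4 ≤ q ^ i * ((N : ℝ) ^ δ) ^ i := by gcongr
      _ = (q * (N : ℝ) ^ δ) ^ i := (mul_pow _ _ _).symm
      _ ≤ 1 := pow_le_one₀ (by positivity) h1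
  have hn : ∀ u ξ : ℝ, ‖(N : ℂ) * pw (N : ℝ) u * HH u ξ‖ = N * ‖HH u ξ‖ := fun u ξ => by
    rw [norm_mul, norm_mul, norm_pw, mul_one, Complex.norm_natCast]
  have key : ‖KK N u - Kb N M u‖ ≤
      N * (C0 * kp u) + 6 * (N * (C * (q ^ i * (128 * (N : ℝ) ^ 2)))) := by
    rw [Kb, mul_sum]
    refine tail_KOne (hP N hN u) (Ms M) (by have := kp_pos u; positivity) (by positivity)
      ?_ fun m hm0 hm => ?_
    · rw [hn, Int.cast_zero, zero_mul]
      exact mul_le_mul_of_nonneg_left (hz _) hN0.le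
    · have hm1 : (M : ℝ) ≤ |(m : ℝ)| := by
        have h1 : (M : ℤ) ≤ |m| := by
          rw [mem_Ms] at hm
          rw [le_abs]
          omega
        exact_mod_cast h1
      rw [hn, mul_assoc, mul_assoc]
      refine mul_le_mul_of_nonneg_left ((hd _ _ (mul_ne_zero (Int.cast_ne_zero.2 hm0)
        hN0.ne')).trans (mul_le_mul_of_nonneg_left ?_ hC.le)) hN0.le
      exact pt_KOne hN1 hM0 hLN' (by positivity) (by linarith) hm0 hm1 i
  have h3 : q ^ i * (N : ℝ) ^ 3 ≤ 1 :=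
    (mul_le_mul_of_nonneg_left (pow_le_pow_right₀ hN1 (by norm_num)) (by positivity)).trans hq1
  have h4 : 0 ≤ (N : ℝ) * kp u := mul_nonneg hN0.le (kp_pos u).le
  have h5 := mul_le_mul_of_nonneg_left h3 hC.le
  have h6 := mul_nonneg hC.le h4
  refine key.trans ?_
  nlinarith

end Pool.Agent.MP_2a1f0e_nt.DH

end
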