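import Pool.Agent.MP_2a1f0e_nt.DH.Basic
import Pool.Agent.Mg.C853.G50a3e6

section

set_option autoImplicit false

open Finset

namespace Pool.Agent.MP_2a1f0e_nt.DH

open Pool.Agent.MP_2a1f0e_nt.GM

open MeasureTheory FourierTransform

lemma decay_Mel {g₀ g₁ g₂ : ℝ → ℂ} (h₀ : ∀ y, HasDerivAt g₀ (g₁ y) y)
    (h₁ : ∀ y, HasDerivAt g₁ (g₂ y) y) (i₀ : Integrable g₀) (i₁ : Integrable g₁)
    (i₂ : Integrable g₂) (w : ℝ) :
    ‖𝓕 g₀ w‖ ≤ ((∫ y, ‖g₀ y‖) + ∫ y, ‖g₂ y‖) * kp (2 * Real.pi * w) := by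
  have e₀ : deriv g₀ = g₁ := funext fun y => (h₀ y).deriv
  have e₁ : deriv g₁ = g₂ := funext fun y => (h₁ y).deriv
  have f₀ := Real.fourier_deriv i₀ (fun y => (h₀ y).differentiableAt) (e₀ ▸ i₁)
  have f₁ := Real.fourier_deriv i₁ (fun y => (h₁ y).differentiableAt) (e₁ ▸ i₂)
  rw [e₀] at f₀
  rw [e₁, f₀] at f₁
  have n₀ : ‖𝓕 g₀ w‖ ≤ ∫ y, ‖g₀ y‖ :=
    VectorFourier.norm_fourierIntegral_le_integral_norm _ _ _ _ _
  have n₂ : ‖𝓕 g₂ w‖ ≤ ∫ y, ‖g₂ y‖ :=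
    VectorFourier.norm_fourierIntegral_le_integral_norm _ _ _ _ _
  have e : ‖(2 * Real.pi * Complex.I * w : ℂ)‖ = |2 * Real.pi * w| := by
    rw [show (2 * Real.pi * Complex.I * w : ℂ) = ((2 * Real.pi * w : ℝ) : ℂ) * Complex.I by
      push_cast; ring, norm_mul, Complex.norm_I, mul_one, Complex.norm_real, Real.norm_eq_abs]
  rw [f₁] at n₂
  simp only [norm_smul, e] at n₂
  rw [← mul_assoc, abs_mul_abs_self] at n₂
  rw [kp, mul_one_div, le_div_iff₀ (by positivity)]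
  nlinarith

lemma inv_Mel {g : ℝ → ℂ} {A : ℝ} (hc : Continuous g) (hi : Integrable g)
    (hb : ∀ w, ‖𝓕 g w‖ ≤ A * kp (2 * Real.pi * w)) :
    ∃ φ : ℝ → ℂ, Continuous φ ∧ (∀ ξ, ‖φ ξ‖ ≤ A * kp ξ) ∧
      ∀ x : ℝ, g (Real.log x) = ∫ ξ : ℝ, φ ξ * pw x ξ := by
  have hpi : (0 : ℝ) < 2 * Real.pi := Real.two_pi_pos
  have c1 : Continuous (𝓕 g) := VectorFourier.fourierIntegral_continuous
    Real.continuous_fourierChar (by exact continuous_inner) hi
  have i1 : Integrable (𝓕 g) :=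
    ((integrable_kp.comp_mul_left' hpi.ne').const_mul A).mono' c1.aestronglyMeasurable
      (Filter.Eventually.of_forall hb)
  refine ⟨fun ξ => (((2 * Real.pi)⁻¹ : ℝ) : ℂ) * 𝓕 g (ξ / (2 * Real.pi)), by fun_prop,
    fun ξ => ?_, fun x => ?_⟩
  · have h := hb (ξ / (2 * Real.pi))
    rw [mul_div_cancel₀ _ hpi.ne'] at h
    rw [norm_mul, Complex.norm_real, Real.norm_of_nonneg (by positivity)]
    refine (mul_le_of_le_one_left (norm_nonneg _) (inv_le_one_of_one_le₀ ?_)).trans h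
    linarith [Real.pi_gt_three]
  · have h := Measure.integral_comp_div
      (fun w : ℝ => (((2 * Real.pi)⁻¹ : ℝ) : ℂ) * 𝓕 g w * pw x (2 * Real.pi * w)) (2 * Real.pi)
    simp only [mul_div_cancel₀ _ hpi.ne'] at h
    rw [h, ← congrFun (hc.fourierInv_fourier_eq hi i1) (Real.log x), Real.fourierInv_eq',
      ← integral_smul, abs_of_pos hpi]
    refine integral_congr_ae (Filter.Eventually.of_forall fun w => ?_)
    have e : ((2 * Real.pi : ℝ) : ℂ) * (((2 * Real.pi)⁻¹ : ℝ) : ℂ) = 1 := by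
      rw [← Complex.ofReal_mul, mul_inv_cancel₀ hpi.ne', Complex.ofReal_one]
    simp only [smul_eq_mul, Complex.real_smul, pw]
    rw [← mul_assoc, ← mul_assoc, e, one_mul, mul_comm]
    congr 2
    simp only [RCLike.inner_apply, conj_trivial]
    push_cast
    ring

lemma main_Mel {F : ℝ → ℂ} (hF : ContDiff ℝ (⊤ : ℕ∞) F) (hs : HasCompactSupport F) :
    ∃ C : ℝ, 0 < C ∧ ∀ c : ℂ, ‖c‖ ≤ 2 → ∃ φ : ℝ → ℂ, Continuous φ ∧ (∀ ξ, ‖φ ξ‖ ≤ C * kp ξ) ∧
      ∀ x : ℝ, F (Real.log x) * Complex.exp (c * Real.log x) = ∫ ξ : ℝ, φ ξ * pw x ξ := by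
  obtain ⟨R, hR⟩ := hs.isCompact.isBounded.exists_norm_le
  have hF1 : ContDiff ℝ (⊤ : ℕ∞) (deriv F) := (contDiff_infty_iff_deriv.1 hF).2
  have hF2 : ContDiff ℝ (⊤ : ℕ∞) (deriv (deriv F)) := (contDiff_infty_iff_deriv.1 hF1).2
  have d0 : ∀ y, HasDerivAt F (deriv F y) y := fun y =>
    ((contDiff_infty_iff_deriv.1 hF).1 y).hasDerivAt
  have d1 : ∀ y, HasDerivAt (deriv F) (deriv (deriv F) y) y := fun y =>
    ((contDiff_infty_iff_deriv.1 hF1).1 y).hasDerivAt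
  have c0 := hF.continuous
  have c1 := hF1.continuous
  have c2 := hF2.continuous
  have i0 : Integrable F := c0.integrable_of_hasCompactSupport hs
  have i1 : Integrable (deriv F) := c1.integrable_of_hasCompactSupport hs.deriv
  have i2 : Integrable (deriv (deriv F)) := c2.integrable_of_hasCompactSupport hs.deriv.deriv
  have z : ∀ y ∉ tsupport F, F y = 0 ∧ deriv F y = 0 ∧ deriv (deriv F) y = 0 := fun y hy =>
    ⟨image_eq_zero_of_notMem_tsupport hy,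
      Function.notMem_support.1 fun h => hy (support_deriv_subset h),
      Function.notMem_support.1 fun h => hy (tsupport_deriv_subset (support_deriv_subset h))⟩
  set B := Real.exp (2 * R) with hB
  set A₀ := ∫ y, B * ‖F y‖ with hA₀
  set A₂ := ∫ y, B * (‖deriv (deriv F) y‖ + 4 * ‖deriv F y‖ + 4 * ‖F y‖) with hA₂
  have p0 : 0 ≤ A₀ := integral_nonneg fun y => by positivity
  have p2 : 0 ≤ A₂ := integral_nonneg fun y => by positivity
  refine ⟨A₀ + A₂ + 1, by positivity, fun c hc => ?_⟩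
  have de : ∀ y : ℝ, HasDerivAt (fun y : ℝ => Complex.exp (c * y)) (Complex.exp (c * y) * c) y :=
    fun y => by
      simpa using (((hasDerivAt_id y).ofReal_comp).const_mul c).cexp
  have ce : Continuous fun y : ℝ => Complex.exp (c * y) := by fun_prop
  have be : ∀ y ∈ tsupport F, ‖Complex.exp (c * y)‖ ≤ B := fun y hy => by
    refine (Complex.norm_exp_le_exp_norm _).trans (Real.exp_le_exp.2 ?_)
    rw [norm_mul, Complex.norm_real]
    exact mul_le_mul hc (hR y hy) (norm_nonneg _) (by norm_num)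
  have ie : ∀ G : ℝ → ℂ, Continuous G → (∀ y ∉ tsupport F, G y = 0) →
      Integrable fun y => G y * Complex.exp (c * y) := fun G hG h =>
    (hG.mul ce).integrable_of_hasCompactSupport
      (HasCompactSupport.intro hs.isCompact fun y hy => by simp [h y hy])
  have ne : ∀ (G : ℝ → ℂ) (H : ℝ → ℝ), (∀ y ∉ tsupport F, G y = 0) → (∀ y, ‖G y‖ ≤ H y) →
      Integrable H → ∫ y, ‖G y * Complex.exp (c * y)‖ ≤ ∫ y, B * H y := fun G H h hH hi => by
    refine integral_mono_of_nonneg (Filter.Eventually.of_forall fun y => norm_nonneg _)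
      (hi.const_mul B) (Filter.Eventually.of_forall fun y => ?_)
    by_cases hy : y ∈ tsupport F
    · simp only [norm_mul]
      rw [mul_comm]
      exact mul_le_mul (be y hy) (hH y) (norm_nonneg _) (by positivity)
    · simp only [h y hy, zero_mul, norm_zero]
      exact mul_nonneg (by positivity) ((norm_nonneg _).trans (hH y))
  have z1 : ∀ y ∉ tsupport F, deriv F y + c * F y = 0 := fun y hy => by
    simp [(z y hy).1, (z y hy).2.1]
  have z2 : ∀ y ∉ tsupport F, deriv (deriv F) y + 2 * c * deriv F y + c * c * F y = 0 :=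
    fun y hy => by simp [(z y hy).1, (z y hy).2.1, (z y hy).2.2]
  have j0 := ie F c0 fun y hy => (z y hy).1
  have key := decay_Mel (g₀ := fun y => F y * Complex.exp (c * y))
    (g₁ := fun y => (deriv F y + c * F y) * Complex.exp (c * y))
    (g₂ := fun y => (deriv (deriv F) y + 2 * c * deriv F y + c * c * F y) * Complex.exp (c * y))
    (fun y => ((d0 y).mul (de y)).congr_deriv (by ring))
    (fun y => (((d1 y).add ((d0 y).const_mul c)).mul (de y)).congr_deriv (by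
      simp only [Pi.add_apply]
      ring))
    j0 (ie _ (by fun_prop) z1) (ie _ (by fun_prop) z2)
  have b0 := ne F (fun y => ‖F y‖) (fun y hy => (z y hy).1) (fun y => le_rfl) i0.norm
  have b2 := ne _ (fun y => ‖deriv (deriv F) y‖ + 4 * ‖deriv F y‖ + 4 * ‖F y‖) z2 (fun y => by
    refine norm_add₃_le.trans (add_le_add (add_le_add le_rfl ?_) ?_)
    · rw [norm_mul, norm_mul, Complex.norm_two]
      exact mul_le_mul_of_nonneg_right (by linarith) (norm_nonneg _)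
    · rw [norm_mul, norm_mul]
      exact mul_le_mul_of_nonneg_right (by nlinarith [norm_nonneg c]) (norm_nonneg _))
    ((i2.norm.add (i1.norm.const_mul 4)).add (i0.norm.const_mul 4))
  exact inv_Mel (c0.mul ce) j0 fun w =>
    (key w).trans (mul_le_mul_of_nonneg_right (by linarith) (kp_pos _).le)

theorem mel_stmt : MelStmt := by
  intro f a b ha hf h0
  have hm : 0 < max a b := lt_max_of_lt_left ha
  obtain ⟨C, hC, h⟩ := main_Mel (F := fun y => (f (Real.exp y) : ℂ))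
    (Complex.ofRealCLM.contDiff.comp (hf.comp Real.contDiff_exp))
    (HasCompactSupport.intro (isCompact_Icc (a := Real.log a) (b := Real.log (max a b)))
      fun y hy => by
        rw [Set.mem_Icc, not_and_or, not_le, not_le] at hy
        rw [h0, Complex.ofReal_zero]
        rcases hy with hy | hy
        · exact Or.inl ((Real.lt_log_iff_exp_lt ha).1 hy).le
        · exact Or.inr ((le_max_right a b).trans ((Real.log_lt_iff_lt_exp hm).1 hy).le))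
  refine ⟨C, hC, fun c hc => ?_⟩
  obtain ⟨φ, h1, h2, h3⟩ := h c hc
  refine ⟨φ, h1, h2, fun x hx => ?_⟩
  rw [← h3 x, Real.exp_log hx, Complex.cpow_def_of_ne_zero (Complex.ofReal_ne_zero.2 hx.ne'),
    Complex.ofReal_log hx.le, mul_comm c]

end Pool.Agent.MP_2a1f0e_nt.DH

end

section

set_option autoImplicit false
open Finset
namespace Pool.Agent.MP_2a1f0e_nt.DH
open Pool.Agent.MP_2a1f0e_nt.GM

/-- the oscillatory integral with a complex frequency -/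
noncomputable def Hz_Refl (u : ℝ) (z : ℂ) : ℂ :=
  ∫ x : ℝ, (Wt x : ℂ) * pw x u * Complex.exp (-(z * x))

lemma int_Wt_Refl : MeasureTheory.Integrable Wt :=
  continuous_Wt.integrable_of_hasCompactSupport hasCompactSupport_Wt

lemma int_Hz_Refl (u : ℝ) (z : ℂ) :
    MeasureTheory.Integrable fun x : ℝ => (Wt x : ℂ) * pw x u * Complex.exp (-(z * x)) := by
  have h1 : MeasureTheory.Integrable fun x : ℝ => (Wt x : ℂ) * Complex.exp (-(z * x)) := by
    refine Continuous.integrable_of_hasCompactSupport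
      ((Complex.continuous_ofReal.comp continuous_Wt).mul (by fun_prop)) ?_
    exact (hasCompactSupport_Wt.comp_left (g := Complex.ofReal) Complex.ofReal_zero).mul_right
  refine (h1.mul_bdd (measurable_pw u).aestronglyMeasurable
    (Filter.Eventually.of_forall fun x => (norm_pw x u).le)).congr
    (Filter.Eventually.of_forall fun x => ?_)
  dsimp only
  ring

lemma HH_eq_Refl (u ξ : ℝ) : HH u ξ = Hz_Refl u (((2 * Real.pi * ξ : ℝ) : ℂ) * Complex.I) := by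
  unfold HH Hz_Refl ex
  congr 1
  funext x
  congr 2
  push_cast
  ring

lemma lim_Refl (u a y : ℝ) (ha : 0 ≤ a) :
    ‖Hz_Refl u ((y : ℂ) * Complex.I) - Hz_Refl u (a + (y : ℂ) * Complex.I)‖ ≤
      a * (9 / 4 * ∫ x, Wt x) := by
  rw [Hz_Refl, Hz_Refl, ← MeasureTheory.integral_sub (int_Hz_Refl _ _) (int_Hz_Refl _ _),
    ← mul_assoc, ← MeasureTheory.integral_const_mul]
  refine MeasureTheory.norm_integral_le_of_norm_le (int_Wt_Refl.const_mul _)
    (Filter.Eventually.of_forall fun x => ?_)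
  by_cases h : Wt x = 0
  · simp [h]
  obtain ⟨h1, h2⟩ := mem_of_Wt_ne_zero h
  have e : Complex.exp (-((y : ℂ) * Complex.I * x)) -
      Complex.exp (-((a + (y : ℂ) * Complex.I) * x)) =
      Complex.exp (((-(y * x) : ℝ) : ℂ) * Complex.I) * ((1 - Real.exp (-(a * x)) : ℝ) : ℂ) := by
    push_cast
    rw [mul_sub, mul_one, ← Complex.exp_add]
    congr 2 <;> ring
  have h3 : Real.exp (-(a * x)) ≤ 1 := Real.exp_le_one_iff.2 (by nlinarith)
  have h4 := Real.add_one_le_exp (-(a * x))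
  rw [← mul_sub, e, norm_mul, norm_mul, norm_mul, norm_pw, Complex.norm_exp_ofReal_mul_I,
    Complex.norm_real, Complex.norm_real, Real.norm_of_nonneg (Wt_nonneg x),
    Real.norm_of_nonneg (sub_nonneg.2 h3), mul_one, one_mul, mul_comm]
  exact mul_le_mul_of_nonneg_right (by nlinarith) (Wt_nonneg x)

lemma int_kpZ_Refl (M : ℕ) (u : ℝ) :
    MeasureTheory.Integrable fun ξ : ℝ => kp ξ * ‖ZZ M (u + ξ)‖ :=
  integrable_kp.mul_bdd
    ((continuous_ZZ M).comp (continuous_const.add continuous_id)).norm.aestronglyMeasurable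
    (Filter.Eventually.of_forall fun _ => (norm_norm _).trans_le (norm_ZZ_le M _))

lemma sum_Ms_Refl (M : ℕ) (f : ℤ → ℂ) :
    ∑ m ∈ Ms M, f m = ∑ m ∈ Icc 1 M, f (m : ℕ) + ∑ m ∈ Icc 1 M, f (-(m : ℕ)) := by
  induction M with
  | zero => simp [Ms]
  | succ M ih =>
    have e : Ms (M + 1) = insert ((M + 1 : ℕ) : ℤ) (insert (-((M + 1 : ℕ) : ℤ)) (Ms M)) := by
      ext m
      simp only [mem_insert, mem_Ms]
      omega
    rw [e, sum_insert (by simp only [mem_insert, mem_Ms]; omega),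
      sum_insert (by simp only [mem_Ms]; omega), ih, sum_Icc_succ_top (by omega),
      sum_Icc_succ_top (by omega)]
    ring

lemma side_Refl (hF : FubStmt) (hG : GamStmt) : ∃ C : ℝ, 0 < C ∧ ∀ N M : ℕ, 1 ≤ N →
    ∀ u σ : ℝ, |σ| = 1 → ‖∑ m ∈ Icc 1 M, HH u (σ * m * N)‖ ≤
      C * hf N * ∫ ξ : ℝ, kp ξ * ‖ZZ M (u + ξ)‖ := by
  obtain ⟨C, hC, φ, hφ, h⟩ := hF
  refine ⟨C, hC, fun N M hN u σ hσ => ?_⟩
  have hN' : (0 : ℝ) < N := by exact_mod_cast hN
  have key : ∀ r : ℂ, 0 < r.re → 2 * Real.pi ≤ ‖r‖ →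
      ‖∑ m ∈ Icc 1 M, Hz_Refl u ((((m : ℝ) * N : ℝ) : ℂ) * r)‖ ≤
        C * hf N * ∫ ξ : ℝ, kp ξ * ‖ZZ M (u + ξ)‖ := by
    intro r h1 h2
    obtain ⟨hi, he⟩ := h u r h1
    have hm : ∀ m ∈ Icc 1 M, (0 : ℝ) < m := fun m hm => by
      exact_mod_cast (mem_Icc.1 hm).1
    have hk : ∀ k : ℝ, MeasureTheory.Integrable fun ξ : ℝ =>
        φ ξ * GI r (u + ξ) * ((hf k : ℂ) * pw k (-(u + ξ))) := fun k =>
      hi.mul_bdd (c := hf k) (continuous_const.mul ((continuous_pw _).comp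
          (continuous_const.add continuous_id).neg)).aestronglyMeasurable
        (Filter.Eventually.of_forall fun ξ => by
          rw [norm_mul, norm_pw, mul_one, Complex.norm_real, Real.norm_of_nonneg (hf_nonneg _)])
    unfold Hz_Refl
    rw [sum_congr rfl fun (m : ℕ) hm' => he _ (mul_pos (hm m hm') hN'),
      ← MeasureTheory.integral_finsetSum _ fun (m : ℕ) _ => hk ((m : ℝ) * N),
      ← MeasureTheory.integral_const_mul]
    refine MeasureTheory.norm_integral_le_of_norm_le ((int_kpZ_Refl M u).const_mul _)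
      (Filter.Eventually.of_forall fun ξ => ?_)
    have e : ∑ m ∈ Icc 1 M, ((hf ((m : ℝ) * N) : ℝ) : ℂ) * pw ((m : ℝ) * N) (-(u + ξ)) =
        (hf N : ℂ) * pw N (-(u + ξ)) * ZZ M (-(u + ξ)) := by
      rw [ZZ, PP, mul_sum]
      refine sum_congr rfl fun m hm' => ?_
      rw [hf_mul (hm m hm').le, pw_mul (hm m hm').ne' hN'.ne']
      push_cast
      ring
    rw [← mul_sum, e, norm_mul, norm_mul, norm_mul, norm_mul, norm_pw, norm_ZZ_neg,
      Complex.norm_real, Real.norm_of_nonneg (hf_nonneg _), mul_one]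
    have h3 : ‖φ ξ‖ * ‖GI r (u + ξ)‖ ≤ C * kp ξ :=
      (mul_le_of_le_one_right (norm_nonneg _) (hG r _ h1 h2)).trans (hφ ξ)
    exact (mul_le_mul_of_nonneg_right h3 (mul_nonneg (hf_nonneg _) (norm_nonneg _))).trans_eq
      (by ring)
  have hW : 0 ≤ 9 / 4 * ∫ x, Wt x :=
    mul_nonneg (by norm_num) (MeasureTheory.integral_nonneg Wt_nonneg)
  obtain ⟨D, hD, hD0⟩ : ∃ D : ℝ, D = ∑ m ∈ Icc 1 M, (m : ℝ) * N * (9 / 4 * ∫ x, Wt x) ∧ 0 ≤ D :=
    ⟨_, rfl, sum_nonneg fun m _ => by positivity⟩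
  refine le_of_forall_pos_le_add fun ε hε => ?_
  have he : 0 < ε / (D + 1) := by positivity
  have h1 := key (((ε / (D + 1) : ℝ) : ℂ) + ((2 * Real.pi * σ : ℝ) : ℂ) * Complex.I)
    (by
      rw [Complex.add_re, Complex.ofReal_re, Complex.re_ofReal_mul, Complex.I_re, mul_zero, add_zero]
      exact he)
    (by
      refine le_trans (le_of_eq ?_) (Complex.abs_im_le_norm _)
      rw [Complex.add_im, Complex.ofReal_im, Complex.im_ofReal_mul, Complex.I_im, mul_one,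
        zero_add, abs_mul, hσ, mul_one, abs_of_pos (by positivity)])
  refine (norm_le_norm_add_norm_sub' _ _).trans (add_le_add h1 ?_)
  rw [← sum_sub_distrib]
  refine (norm_sum_le _ _).trans ((sum_le_sum
    (g := fun m : ℕ => ε / (D + 1) * ((m : ℝ) * N * (9 / 4 * ∫ x, Wt x))) fun m _ => ?_).trans ?_)
  · have h2 := lim_Refl u ((m : ℝ) * N * (ε / (D + 1))) (2 * Real.pi * (σ * m * N)) (by positivity)
    rw [HH_eq_Refl]
    refine (le_of_eq ?_).trans (h2.trans_eq (by ring))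
    congr 3
    push_cast
    ring
  · rw [← mul_sum, ← hD, div_mul_eq_mul_div, div_le_iff₀ (by positivity)]
    nlinarith

theorem refl_stmt (hF : FubStmt) (hG : GamStmt) : ReflStmt := by
  obtain ⟨C, hC, h⟩ := side_Refl hF hG
  refine ⟨2 * C, by positivity, fun N M hN u => ?_⟩
  have hN' : (0 : ℝ) < N := by exact_mod_cast hN
  have h1 := h N M hN u 1 abs_one
  have h2 := h N M hN u (-1) (by rw [abs_neg, abs_one])
  have h3 : (N : ℝ) * hf N = √N := by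
    rw [hf, mul_one_div, Real.div_sqrt]
  rw [Kb, sum_Ms_Refl, norm_mul, norm_mul, norm_pw, mul_one, Complex.norm_natCast, ← h3]
  simp only [one_mul, neg_mul] at h1 h2
  simp only [Int.cast_neg, Int.cast_natCast, neg_mul]
  exact (mul_le_mul_of_nonneg_left ((norm_add_le _ _).trans (add_le_add h1 h2)) hN'.le).trans_eq
    (by ring)

theorem avg_stmt (hR : ReflStmt) : AvgStmt := by
  obtain ⟨C, hC, h⟩ := hR
  refine ⟨C * Real.pi, mul_pos hC Real.pi_pos, fun N M hN ι s w u B hw hB => ?_⟩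
  have h1 : ∑ i ∈ s, w i * ∫ ξ : ℝ, kp ξ * ‖ZZ M (u i + ξ)‖ ≤ Real.pi * B := by
    simp only [← MeasureTheory.integral_const_mul]
    rw [← MeasureTheory.integral_finsetSum _ fun i _ => (int_kpZ_Refl M (u i)).const_mul _,
      ← integral_kp, ← MeasureTheory.integral_mul_const]
    refine MeasureTheory.integral_mono (MeasureTheory.integrable_finsetSum _ fun i _ =>
      (int_kpZ_Refl M (u i)).const_mul _) (integrable_kp.mul_const _) fun ξ => ?_
    refine le_trans (le_of_eq ?_) (mul_le_mul_of_nonneg_left (hB ξ) (kp_pos ξ).le)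
    rw [mul_sum]
    exact sum_congr rfl fun i _ => by ring
  refine (sum_le_sum fun i hi => mul_le_mul_of_nonneg_left (h N M hN (u i)) (hw i hi)).trans ?_
  simp only [mul_left_comm (w _)]
  rw [← mul_sum]
  exact (mul_le_mul_of_nonneg_left h1 (by positivity)).trans_eq (by ring)

end Pool.Agent.MP_2a1f0e_nt.DH

end

section

set_option autoImplicit false

open Finset

namespace Pool.Agent.MP_2a1f0e_nt.DH

open Pool.Agent.MP_2a1f0e_nt.GM MeasureTheory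

lemma scale_Fub (r : ℂ) (τ : ℝ) {k : ℝ} (hk : 0 < k) :
    GI (k * r) τ = GI r τ * ((hf k : ℂ) * pw k (-τ)) := by
  have h := integral_comp_mul_left_Ioi
    (fun t : ℝ => (hf t : ℂ) * pw t τ * Complex.exp (-(r * t))) 0 hk
  have e : ∫ t in Set.Ioi (0 : ℝ), (hf (k * t) : ℂ) * pw (k * t) τ *
      Complex.exp (-(r * (k * t : ℝ))) = (hf k : ℂ) * pw k τ * GI (k * r) τ := by
    rw [GI, ← integral_const_mul]
    refine setIntegral_congr_fun measurableSet_Ioi fun t ht => ?_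
    rw [hf_mul hk.le, pw_mul hk.ne' (ne_of_gt ht), show r * (k * t : ℝ) = k * r * t by
      push_cast; ring]
    push_cast
    ring
  rw [e, mul_zero, Complex.real_smul, ← one_div, ← hf_sq hk.le] at h
  have h0 : (hf k : ℂ) ≠ 0 := by exact_mod_cast (hf_pos hk).ne'
  refine mul_left_cancel₀ h0 ?_
  have h1 := pw_mul_neg k τ
  unfold GI at h ⊢
  push_cast at h
  linear_combination pw k (-τ) * h - ((hf k : ℂ) * ∫ t in Set.Ioi (0 : ℝ), (hf t : ℂ) * pw t τ *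
    Complex.exp (-(k * r * t))) * h1

lemma int_Fub {φ : ℝ → ℂ} {C : ℝ} (hc : Continuous φ) (hb : ∀ ξ, ‖φ ξ‖ ≤ C * kp ξ) (u : ℝ)
    {r : ℂ} (hr : 0 < r.re) :
    Integrable (Function.uncurry fun (x ξ : ℝ) =>
      φ ξ * ((hf x : ℂ) * pw x (u + ξ) * Complex.exp (-(r * x))))
      ((volume.restrict (Set.Ioi 0)).prod volume) := by
  have h1 : IntegrableOn (fun x : ℝ => hf x * Real.exp (-r.re * x)) (Set.Ioi 0) := by
    refine (integrableOn_rpow_mul_exp_neg_mul_rpow (s := -(1 / 2)) (p := 1) (by norm_num) one_pos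
      hr).congr_fun (fun x hx => ?_) measurableSet_Ioi
    simp only
    rw [Real.rpow_one, Real.rpow_neg (le_of_lt hx), hf, Real.sqrt_eq_rpow, one_div (x ^ _)]
  refine (h1.mul_prod (integrable_kp.const_mul C)).mono' (Measurable.aestronglyMeasurable ?_)
    (Filter.Eventually.of_forall fun p => ?_)
  · have := hc.measurable
    unfold Function.uncurry pw hf
    fun_prop
  · simp only [Function.uncurry, norm_mul, norm_pw, Complex.norm_real, Complex.norm_exp,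
      Real.norm_of_nonneg (hf_nonneg _), mul_one, Complex.neg_re, Complex.mul_re,
      Complex.ofReal_re, Complex.ofReal_im, mul_zero, sub_zero, neg_mul]
    rw [mul_comm]
    exact mul_le_mul_of_nonneg_left (hb _) (mul_nonneg (hf_nonneg _) (Real.exp_pos _).le)

theorem fub_stmt (hM : MelStmt) : FubStmt := by
  obtain ⟨C, hC, h⟩ := hM Wt (3 / 4) (9 / 4) (by norm_num) contDiff_Wt fun x hx => Wt_eq_zero hx
  obtain ⟨φ, hc, hb, hφ⟩ := h ((1 / 2 : ℝ) : ℂ) (by rw [Complex.norm_real]; norm_num)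
  refine ⟨C, hC, φ, hb, fun u r hr => ⟨?_, fun k hk => ?_⟩⟩
  · simpa only [Function.uncurry, integral_const_mul, GI] using
      (int_Fub hc hb u hr).integral_prod_right
  have hr' : 0 < ((k : ℂ) * r).re := by
    rw [Complex.re_ofReal_mul]
    exact mul_pos hk hr
  have h1 := integral_integral_swap (int_Fub hc hb u hr')
  simp only [mul_assoc (φ _), ← scale_Fub r _ hk]
  rw [← setIntegral_eq_integral_of_forall_compl_eq_zero (s := Set.Ioi 0) fun x hx => by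
    rw [Wt_eq_zero (Or.inl ((not_lt.1 hx).trans (by norm_num)))]
    simp]
  refine Eq.trans (setIntegral_congr_fun measurableSet_Ioi fun x hx => ?_)
    (h1.trans (by simp only [integral_const_mul, GI]))
  have h2 := hφ x hx
  have h3 : (hf x : ℂ) * (x : ℂ) ^ ((1 / 2 : ℝ) : ℂ) = 1 := by
    rw [← Complex.ofReal_cpow (le_of_lt hx), ← Real.sqrt_eq_rpow, ← Complex.ofReal_mul, hf,
      one_div_mul_cancel (Real.sqrt_pos.2 hx).ne', Complex.ofReal_one]
  have h4 : ∀ ξ, φ ξ * ((hf x : ℂ) * pw x (u + ξ) * Complex.exp (-(k * r * x))) =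
      (hf x : ℂ) * pw x u * Complex.exp (-(k * r * x)) * (φ ξ * pw x ξ) := fun ξ => by
    rw [pw_add]
    ring
  simp only [h4, integral_const_mul, ← h2]
  linear_combination -(Wt x : ℂ) * pw x u * Complex.exp (-(k * r * x)) * h3

end Pool.Agent.MP_2a1f0e_nt.DH

end

section

set_option autoImplicit false
open Finset
namespace Pool.Agent.MP_2a1f0e_nt.DH
open Pool.Agent.MP_2a1f0e_nt.GM

/-- the exponent on the critical line -/
noncomputable def sv_Gam (τ : ℝ) : ℂ := 1 / 2 + (τ : ℂ) * Complex.I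

lemma sv_re_Gam (τ : ℝ) : (sv_Gam τ).re = 1 / 2 := by simp [sv_Gam]

lemma sv_im_Gam (τ : ℝ) : (sv_Gam τ).im = τ := by simp [sv_Gam]

lemma hf_rpow_Gam {t : ℝ} (ht : 0 < t) : hf t = t ^ (-(1 / 2) : ℝ) := by
  unfold hf
  rw [Real.sqrt_eq_rpow, Real.rpow_neg ht.le, one_div]

lemma cpow_eq_Gam {t : ℝ} (ht : 0 < t) (τ : ℝ) :
    (t : ℂ) ^ (sv_Gam τ - 1) = (hf t : ℂ) * pw t τ := by
  have h0 : (t : ℂ) ≠ 0 := Complex.ofReal_ne_zero.mpr ht.ne'
  rw [hf_rpow_Gam ht, Complex.ofReal_cpow ht.le, Complex.cpow_def_of_ne_zero h0,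
    Complex.cpow_def_of_ne_zero h0, pw, ← Complex.exp_add, ← Complex.ofReal_log ht.le]
  congr 1
  unfold sv_Gam
  push_cast
  ring

lemma GI_real_Gam {r : ℝ} (hr : 0 < r) (τ : ℝ) :
    GI (r : ℂ) τ = (1 / (r : ℂ)) ^ (sv_Gam τ) * Complex.Gamma (sv_Gam τ) := by
  rw [← Complex.integral_cpow_mul_exp_neg_mul_Ioi (by rw [sv_re_Gam]; norm_num) hr]
  unfold GI
  refine MeasureTheory.setIntegral_congr_fun measurableSet_Ioi fun t ht => ?_
  rw [cpow_eq_Gam ht]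

lemma meas_Gam (τ : ℝ) (r : ℂ) :
    Measurable fun t : ℝ => (hf t : ℂ) * pw t τ * Complex.exp (-(r * t)) := by
  have h1 : Measurable fun t : ℝ => (hf t : ℂ) := by
    unfold hf
    fun_prop
  exact (h1.mul (measurable_pw τ)).mul (by fun_prop)

lemma norm_term_Gam (τ : ℝ) (r : ℂ) {t : ℝ} (ht : 0 < t) :
    ‖(hf t : ℂ) * pw t τ * Complex.exp (-(r * t))‖ =
      t ^ (-(1 / 2) : ℝ) * Real.exp (-r.re * t) := by
  rw [norm_mul, norm_mul, norm_pw, mul_one, Complex.norm_real, Real.norm_of_nonneg (hf_nonneg _),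
    Complex.norm_exp, hf_rpow_Gam ht]
  simp

lemma diff_GI_Gam (τ : ℝ) {r₀ : ℂ} (hr : 0 < r₀.re) :
    DifferentiableAt ℂ (fun r => GI r τ) r₀ := by
  have hb : 0 < r₀.re / 2 := by positivity
  have hint : ∀ (a b : ℝ), -1 < a → 0 < b →
      MeasureTheory.IntegrableOn (fun x : ℝ => x ^ a * Real.exp (-b * x)) (Set.Ioi 0) := by
    intro a b ha hb
    have := integrableOn_rpow_mul_exp_neg_mul_rpow (p := 1) ha one_pos hb
    simpa using this
  have key := hasDerivAt_integral_of_dominated_loc_of_deriv_le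
    (μ := MeasureTheory.volume.restrict (Set.Ioi (0 : ℝ))) (𝕜 := ℂ)
    (F := fun (r : ℂ) (t : ℝ) => (hf t : ℂ) * pw t τ * Complex.exp (-(r * t)))
    (F' := fun (r : ℂ) (t : ℝ) => (hf t : ℂ) * pw t τ * Complex.exp (-(r * t)) * (-(t : ℂ)))
    (x₀ := r₀) (s := Metric.ball r₀ (r₀.re / 2))
    (bound := fun t : ℝ => t ^ ((1 / 2) : ℝ) * Real.exp (-(r₀.re / 2) * t))
    (Metric.ball_mem_nhds _ hb)
    (Filter.Eventually.of_forall fun r => (meas_Gam τ r).aestronglyMeasurable)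
    ?_ ?_ ?_ (hint _ _ (by norm_num) hb) ?_
  · exact key.2.differentiableAt
  · refine MeasureTheory.Integrable.mono' (hint (-(1 / 2)) r₀.re (by norm_num) hr)
      (meas_Gam τ r₀).aestronglyMeasurable ?_
    refine (MeasureTheory.ae_restrict_iff' measurableSet_Ioi).2
      (Filter.Eventually.of_forall fun t ht => ?_)
    rw [norm_term_Gam τ r₀ ht]
  · exact ((meas_Gam τ r₀).mul (by fun_prop)).aestronglyMeasurable
  · refine (MeasureTheory.ae_restrict_iff' measurableSet_Ioi).2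
      (Filter.Eventually.of_forall fun t ht r hrb => ?_)
    have ht0 : 0 < t := ht
    rw [norm_mul, norm_term_Gam τ r ht0, norm_neg, Complex.norm_real, Real.norm_of_nonneg ht0.le]
    have h1 : r₀.re / 2 ≤ r.re := by
      have h2 := Complex.abs_re_le_norm (r - r₀)
      rw [Metric.mem_ball, dist_eq_norm] at hrb
      rw [Complex.sub_re] at h2
      have := (abs_le.1 (h2.trans hrb.le)).1
      linarith
    have h3 : t ^ ((1 / 2) : ℝ) = t ^ (-(1 / 2) : ℝ) * t := by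
      rw [← Real.rpow_add_one ht0.ne']
      norm_num
    have h4 : Real.exp (-r.re * t) ≤ Real.exp (-(r₀.re / 2) * t) :=
      Real.exp_le_exp.2 (by nlinarith)
    have h5 : 0 ≤ t ^ (-(1 / 2) : ℝ) := Real.rpow_nonneg ht0.le _
    rw [h3]
    calc t ^ (-(1 / 2) : ℝ) * Real.exp (-r.re * t) * t
        = (t ^ (-(1 / 2) : ℝ) * t) * Real.exp (-r.re * t) := by ring
      _ ≤ _ := mul_le_mul_of_nonneg_left h4 (mul_nonneg h5 ht0.le)
  · refine Filter.Eventually.of_forall fun t r _ => ?_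
    have h1 : HasDerivAt (fun r : ℂ => -(r * (t : ℂ))) (-(t : ℂ)) r := by
      have h := ((hasDerivAt_id r).mul_const (t : ℂ)).neg
      rw [one_mul] at h
      exact h
    have h2 := (h1.cexp).const_mul ((hf t : ℂ) * pw t τ)
    rw [mul_assoc ((hf t : ℂ) * pw t τ)]
    exact h2

lemma re_inv_pos_Gam {r : ℂ} (hr : 0 < r.re) : 0 < (1 / r).re := by
  have h0 : r ≠ 0 := fun h => by simp [h] at hr
  rw [one_div, Complex.inv_re]
  exact div_pos hr (Complex.normSq_pos.2 h0)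

lemma GI_eq_Gam (τ : ℝ) {r : ℂ} (hr : 0 < r.re) :
    GI r τ = (1 / r) ^ (sv_Gam τ) * Complex.Gamma (sv_Gam τ) := by
  have hU : IsOpen {z : ℂ | 0 < z.re} := isOpen_lt continuous_const Complex.continuous_re
  have hc : IsPreconnected {z : ℂ | 0 < z.re} := (convex_halfSpace_re_gt 0).isPreconnected
  have h1 : AnalyticOnNhd ℂ (fun r => GI r τ) {z : ℂ | 0 < z.re} := by
    refine DifferentiableOn.analyticOnNhd (fun z hz => ?_) hU
    exact (diff_GI_Gam τ hz).differentiableWithinAt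
  have h2 : AnalyticOnNhd ℂ (fun r : ℂ => (1 / r) ^ (sv_Gam τ) * Complex.Gamma (sv_Gam τ))
      {z : ℂ | 0 < z.re} := by
    refine DifferentiableOn.analyticOnNhd (fun z hz => ?_) hU
    have hz' : 0 < z.re := hz
    have h0 : z ≠ 0 := fun h => by simp [h] at hz'
    have h3 : DifferentiableAt ℂ (fun r : ℂ => 1 / r) z :=
      (differentiableAt_const _).div differentiableAt_id h0
    exact ((h3.cpow (differentiableAt_const _)
      (Or.inl (re_inv_pos_Gam hz'))).mul_const _).differentiableWithinAt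
  have h1U : (1 : ℂ) ∈ {z : ℂ | 0 < z.re} := by simp
  refine h1.eqOn_of_preconnected_of_frequently_eq h2 hc h1U ?_ hr
  have ht : Filter.Tendsto (fun x : ℝ => (x : ℂ)) (nhdsWithin (1 : ℝ) (Set.Ioi 1))
      (nhdsWithin (1 : ℂ) {1}ᶜ) := by
    refine tendsto_nhdsWithin_iff.2 ⟨?_, ?_⟩
    · have := Complex.continuous_ofReal.tendsto 1
      simpa using this.mono_left nhdsWithin_le_nhds
    · filter_upwards [self_mem_nhdsWithin] with x hx
      have hx1 : (1 : ℝ) < x := hx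
      intro h
      have h' : (x : ℂ) = 1 := h
      have : x = 1 := by exact_mod_cast h'
      linarith
  refine ht.frequently (Filter.Eventually.frequently ?_)
  filter_upwards [self_mem_nhdsWithin] with x hx
  have hx1 : (1 : ℝ) < x := hx
  exact GI_real_Gam (by linarith) τ

lemma norm_Gamma_sq_Gam (τ : ℝ) :
    ‖Complex.Gamma (sv_Gam τ)‖ ^ 2 = Real.pi / Real.cosh (Real.pi * τ) := by
  have h1 := Complex.Gamma_mul_Gamma_one_sub (sv_Gam τ)
  have h2 : 1 - sv_Gam τ = (starRingEnd ℂ) (sv_Gam τ) := by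
    apply Complex.ext <;> simp [sv_Gam]
    norm_num
  have h3 : Complex.sin (Real.pi * sv_Gam τ) = (Real.cosh (Real.pi * τ) : ℂ) := by
    have e : (Real.pi : ℂ) * sv_Gam τ = ((Real.pi * τ : ℝ) : ℂ) * Complex.I + Real.pi / 2 := by
      unfold sv_Gam
      push_cast
      ring
    rw [e, Complex.sin_add_pi_div_two, Complex.cos_mul_I, Complex.ofReal_cosh]
  rw [h2, Complex.Gamma_conj, Complex.mul_conj, h3, Complex.normSq_eq_norm_sq] at h1
  exact_mod_cast h1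

lemma cosh_ge_Gam (x : ℝ) : Real.exp |x| / 2 ≤ Real.cosh x := by
  rw [Real.cosh_eq]
  have h1 := Real.exp_pos x
  have h2 := Real.exp_pos (-x)
  rcases abs_cases x with h | h <;> rw [h.1] <;> linarith

theorem gam_stmt : GamStmt := by
  intro r τ hr hn
  have hpi := Real.pi_pos
  have h0 : r ≠ 0 := fun h => by simp [h] at hr
  have h1 : (1 / r) ≠ 0 := one_div_ne_zero h0
  have hnr : 0 < ‖r‖ := norm_pos_iff.2 h0
  have harg : |Complex.arg (1 / r)| ≤ Real.pi / 2 :=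
    Complex.abs_arg_le_pi_div_two_iff.2 (re_inv_pos_Gam hr).le
  have h2 : ‖(1 / r) ^ (sv_Gam τ)‖ ^ 2 ≤ 1 / ‖r‖ * Real.exp |Real.pi * τ| := by
    rw [Complex.norm_cpow_of_ne_zero h1, sv_re_Gam, sv_im_Gam, div_pow, ← Real.sqrt_eq_rpow,
      Real.sq_sqrt (norm_nonneg _), norm_div, norm_one, div_eq_mul_inv (1 / ‖r‖), ← Real.exp_nat_mul,
      ← Real.exp_neg]
    refine mul_le_mul_of_nonneg_left (Real.exp_le_exp.2 ?_) (by positivity)
    have h3 : |Complex.arg (1 / r) * τ| ≤ Real.pi / 2 * |τ| := by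
      rw [abs_mul]
      exact mul_le_mul_of_nonneg_right harg (abs_nonneg _)
    rw [abs_mul, abs_of_pos hpi]
    have := (abs_le.1 h3).1
    push_cast
    linarith
  have he := Real.exp_pos |Real.pi * τ|
  have h4 : ‖Complex.Gamma (sv_Gam τ)‖ ^ 2 ≤ Real.pi / (Real.exp |Real.pi * τ| / 2) := by
    rw [norm_Gamma_sq_Gam]
    exact div_le_div_of_nonneg_left hpi.le (by positivity) (cosh_ge_Gam _)
  have h5 : ‖GI r τ‖ ^ 2 ≤ 1 := by
    rw [GI_eq_Gam τ hr, norm_mul, mul_pow]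
    calc _ ≤ (1 / ‖r‖ * Real.exp |Real.pi * τ|) * (Real.pi / (Real.exp |Real.pi * τ| / 2)) :=
          mul_le_mul h2 h4 (by positivity) (by positivity)
      _ = 2 * Real.pi / ‖r‖ := by field_simp
      _ ≤ 1 := (div_le_one hnr).2 hn
  nlinarith [norm_nonneg (GI r τ)]

end Pool.Agent.MP_2a1f0e_nt.DH

end

section

set_option autoImplicit false

open Finset

namespace Pool.Agent.MP_2a1f0e_nt.DH

open Pool.Agent.MP_2a1f0e_nt.GM

lemma pair_Mom (H : ℕ) (F : ℝ → ℂ) :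
    ((H : ℝ) + 1) * ∑ d ∈ Icc (-(H : ℤ)) H, ‖F d‖ ^ 2 ≤ EE (Icc 0 (3 * H : ℤ)) (fun _ => 1) F := by
  unfold EE
  simp only [one_mul]
  rw [sum_comm]
  calc _ = ∑ _y ∈ Icc (H : ℤ) (2 * H), ∑ d ∈ Icc (-(H : ℤ)) H, ‖F d‖ ^ 2 := by
        rw [sum_const, nsmul_eq_mul, Int.card_Icc, show (2 * H + 1 - H : ℤ).toNat = H + 1 by omega,
          Nat.cast_succ]
    _ ≤ ∑ y ∈ Icc (H : ℤ) (2 * H), ∑ x ∈ Icc 0 (3 * H : ℤ), ‖F ((x : ℝ) - y)‖ ^ 2 := by
        refine sum_le_sum fun y hy => ?_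
        calc _ = ∑ x ∈ (Icc (-(H : ℤ)) H).map (addRightEmbedding y), ‖F ((x : ℝ) - y)‖ ^ 2 := by
              rw [sum_map]
              simp
          _ ≤ _ := by
              refine sum_le_sum_of_subset_of_nonneg (fun x hx => ?_) fun _ _ _ => by positivity
              rw [map_add_right_Icc, mem_Icc] at hx
              rw [mem_Icc] at hy ⊢
              omega
    _ ≤ _ := sum_le_sum_of_subset_of_nonneg (Icc_subset_Icc (by omega) (by omega)) fun _ _ _ =>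
        sum_nonneg fun _ _ => by positivity

lemma mean_Mom (hJ : JutStmt) (hP : PosStmt) {ε : ℝ} (hε : 0 < ε) : ∃ C : ℝ, 0 < C ∧
    ∀ (L H : ℕ) (α : ℝ) (c : ℕ → ℂ), 1 ≤ L → 3 * H ≤ L → 0 ≤ α →
      (∀ l ∈ Icc 1 L, ‖c l‖ ≤ α * hf l) →
      ∑ d ∈ Icc (-(H : ℤ)) H, ‖PP L c d‖ ^ 2 ≤ C * (L : ℝ) ^ ε * α ^ 2 * L := by
  obtain ⟨C, hC, h⟩ := hJ ε hε
  refine ⟨9 * C, by positivity, fun L H α c hL hH hα hc => ?_⟩
  have h1 := h L (3 * H) (Icc 0 (3 * H : ℤ)) (fun _ => 1) hL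
    ((Nat.pow_le_pow_left hH 2).trans (Nat.pow_le_pow_right hL (by norm_num)))
    (fun x hx y hy => by
      rw [mem_Icc] at hx hy
      rw [abs_le]
      omega) fun _ _ => zero_le_one
  have h2 : ((Icc 0 (3 * H : ℤ)).card : ℝ) = 3 * H + 1 := by
    rw [Int.card_Icc, show (3 * H + 1 - 0 : ℤ).toNat = 3 * H + 1 by omega]
    push_cast
    rfl
  simp only [one_pow, sum_const, nsmul_eq_mul, mul_one, h2] at h1
  have hL' : (1 : ℝ) ≤ L := by exact_mod_cast hL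
  have hH' : (3 * H : ℝ) ≤ L := by exact_mod_cast hH
  have hH0 : (0 : ℝ) ≤ H := by positivity
  have h3 : (L : ℝ) * (3 * H + 1) + (3 * H + 1) ^ 2 ≤ (H + 1) * (9 * L) := by nlinarith
  refine le_of_mul_le_mul_left (a := (H : ℝ) + 1) ?_ (by positivity)
  calc _ ≤ _ := pair_Mom H _
    _ ≤ _ := EE_le_ZZ hP hα le_rfl hc _ _
    _ ≤ α ^ 2 * (C * (L : ℝ) ^ ε * ((H + 1) * (9 * L))) := by
        gcongr
        exact h1.trans (by gcongr)
    _ = _ := by ring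

theorem mom_stmt (hJ : JutStmt) (hZ : PowZStmt) (hP : PosStmt) : MomStmt := by
  intro ε hε
  have hε' : 0 < ε / 7 := by positivity
  obtain ⟨C, hC, h⟩ := mean_Mom hJ hP hε'
  obtain ⟨c, hc, hD⟩ := exists_DivB hε'
  refine ⟨C * c ^ 6, by positivity, fun M L H ξ hL hH => ?_⟩
  obtain ⟨h2, h4⟩ := hZ M L _ ξ (hD L hL)
  have h1 := (hD L hL).1
  have e : C * (L : ℝ) ^ (ε / 7) * ((c * (L : ℝ) ^ (ε / 7)) ^ 3) ^ 2 * L =
      C * c ^ 6 * (L : ℝ) ^ ε * L := by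
    have : (L : ℝ) ^ ε = ((L : ℝ) ^ (ε / 7)) ^ 7 := by
      rw [← Real.rpow_natCast, ← Real.rpow_mul (Nat.cast_nonneg L)]
      congr 1
      push_cast
      ring
    rw [this]
    ring
  refine ⟨fun hM => ?_, fun hM => ?_⟩
  · obtain ⟨d, d1, d2⟩ := h2 hM
    refine le_trans (le_of_eq (sum_congr rfl fun x _ => ?_)) ((h L H _ d hL hH (by positivity)
      fun l hl => (d1 l hl).trans (mul_le_mul_of_nonneg_right
        (le_self_pow₀ h1 three_ne_zero) (hf_nonneg _))).trans_eq e)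
    rw [← d2, norm_pow, ← pow_mul]
  · obtain ⟨d, d1, d2⟩ := h4 hM
    refine le_trans (le_of_eq (sum_congr rfl fun x _ => ?_))
      ((h L H _ d hL hH (by positivity) d1).trans_eq e)
    rw [← d2, norm_pow, ← pow_mul]

end Pool.Agent.MP_2a1f0e_nt.DH

end

section

set_option autoImplicit false

open Finset

namespace Pool.Agent.MP_2a1f0e_nt.DH

open Pool.Agent.MP_2a1f0e_nt.GM

lemma cond_Jut {δ : ℝ} (hδ : δ ≤ 1 / 2) (L K j D M : ℕ) (hK1 : 1 ≤ K)
    (hj : 1 ≤ j) (hK : 4 * (L : ℝ) ^ δ ≤ K) (hD : D ^ 2 ≤ L ^ 3) (hM : K * L ≤ 4 * M ^ 2) :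
    2 * (D : ℝ) * ((j * (K * L) : ℕ) : ℝ) ^ δ ≤ ((j * (K * L) : ℕ) : ℝ) * M := by
  have hK1' : (1 : ℝ) ≤ K := by exact_mod_cast hK1
  have hj' : (1 : ℝ) ≤ j := by exact_mod_cast hj
  have hD' : (D : ℝ) ^ 2 ≤ (L : ℝ) ^ 3 := by exact_mod_cast hD
  have hM' : (K : ℝ) * L ≤ 4 * (M : ℝ) ^ 2 := by exact_mod_cast hM
  have hL0 : (0 : ℝ) ≤ L := Nat.cast_nonneg _
  have ha : (1 : ℝ) ≤ (j : ℝ) * K := one_le_mul_of_one_le_of_one_le hj' hK1'
  have e1 : ((j * (K * L) : ℕ) : ℝ) = ((j : ℝ) * K) * L := by push_cast; ring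
  rw [e1, Real.mul_rpow (by positivity) hL0]
  set y : ℝ := (L : ℝ) ^ δ with hy
  have hy0 : 0 ≤ y := by positivity
  set z : ℝ := ((j : ℝ) * K) ^ δ with hz
  have hz0 : 0 ≤ z := by positivity
  have hz2 : z ^ 2 ≤ (j : ℝ) * K := by
    rw [hz, ← Real.rpow_natCast, ← Real.rpow_mul (by positivity)]
    calc ((j : ℝ) * K) ^ (δ * ((2 : ℕ) : ℝ)) ≤ ((j : ℝ) * K) ^ (1 : ℝ) :=
          Real.rpow_le_rpow_of_exponent_le ha (by push_cast; linarith)
      _ = (j : ℝ) * K := Real.rpow_one _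
  have hy2 : 16 * y ^ 2 ≤ (K : ℝ) ^ 2 := by nlinarith
  refine le_of_sq_le_sq ?_ (by positivity)
  calc (2 * (D : ℝ) * (z * y)) ^ 2 = (D : ℝ) ^ 2 * z ^ 2 * (16 * y ^ 2) / 4 := by ring
    _ ≤ (L : ℝ) ^ 3 * ((j : ℝ) * K) * (K : ℝ) ^ 2 / 4 := by gcongr
    _ = 1 * ((j : ℝ) * (K : ℝ) ^ 2 * (L : ℝ) ^ 2) * ((K : ℝ) * L) / 4 := by ring
    _ ≤ (j : ℝ) * ((j : ℝ) * (K : ℝ) ^ 2 * (L : ℝ) ^ 2) * (4 * (M : ℝ) ^ 2) / 4 := by gcongr
    _ = ((j : ℝ) * K * L * M) ^ 2 := by ring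

lemma quad_Jut {J a b : ℝ} (hJ : 0 ≤ J) (h : J ≤ a + b * √J) : J ≤ 2 * a + b ^ 2 := by
  have h1 : √J ^ 2 = J := Real.sq_sqrt hJ
  nlinarith [sq_nonneg (√J - b)]

lemma core_Jut (hL : LenStmt) (hS : SqStmt) {C : ℝ}
    (hJ : ∀ (N M L : ℕ) (Δ : ℝ) (s : Finset ℤ) (g : ℤ → ℝ),
      1 ≤ N → M ^ 2 ≤ L → DivB L Δ → (∀ x ∈ s, 0 ≤ g x) →
      EE s g (Kb N M) ≤ C * N * Δ * (∑ x ∈ s, g x) * √(EE s g (ZZ L)))
    {L M D : ℕ} {Δ E : ℝ} {s : Finset ℤ} {g : ℤ → ℝ} (h1 : 1 ≤ L) (hM : M ^ 2 ≤ L)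
    (hΔ : DivB (8 * L) Δ) (hD : Diam s D) (hg : ∀ x ∈ s, 0 ≤ g x)
    (hE : ∀ i : ℕ, ∑ u ∈ Icc (-(D : ℤ)) D, ‖KK (2 ^ i * L) (u : ℝ) - Kb (2 ^ i * L) M (u : ℝ)‖ ≤
      E * ((2 ^ i * L : ℕ) : ℝ)) :
    EE s g (ZZ L) ≤ 252 * ((Nat.log 2 L : ℝ) + 1) ^ 2 * Δ * E ^ 2 * L * (∑ x ∈ s, g x ^ 2) +
      (42 * C * ((Nat.log 2 L : ℝ) + 1) ^ 2 * Δ ^ 2) ^ 2 * (∑ x ∈ s, g x) ^ 2 := by
  have hL0 : (0 : ℝ) < L := by exact_mod_cast h1
  have hΔ0 : 0 ≤ Δ := le_trans zero_le_one hΔ.1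
  have hΔ' : DivB L Δ := DivB_mono hΔ (by omega)
  set J := EE s g (ZZ L) with hJdef
  set G1 := ∑ x ∈ s, g x with hG1
  set G2 := ∑ x ∈ s, g x ^ 2 with hG2
  set lam : ℝ := (Nat.log 2 L : ℝ) + 1 with hlam
  have hJ0 : 0 ≤ J := EE_nonneg hg _
  have hi : ∀ i : ℕ, EE s g (KK (2 ^ i * L)) ≤
      2 * (E * ((2 : ℝ) ^ i * L)) ^ 2 * G2 + 2 * (C * ((2 : ℝ) ^ i * L) * Δ * G1 * √J) := by
    intro i
    have a1 := hS (2 ^ i * L) M D _ s g hD hg (hE i)
    have a2 := hJ (2 ^ i * L) M L Δ s g (Nat.mul_pos (by positivity) h1) hM hΔ' hg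
    push_cast at a1 a2
    linarith
  have hsum : ∑ i ∈ range 3, EE s g (KK (2 ^ i * L)) ≤
      (L : ℝ) * (42 * E ^ 2 * L * G2 + 14 * C * Δ * G1 * √J) := by
    refine (sum_le_sum fun i _ => hi i).trans (le_of_eq ?_)
    simp only [sum_range_succ, sum_range_zero]
    ring
  have h2 := hL L Δ s g h1 hΔ hg
  have h3 : J ≤ 126 * lam ^ 2 * Δ * E ^ 2 * L * G2 + (42 * C * lam ^ 2 * Δ ^ 2 * G1) * √J := by
    refine h2.trans ((mul_le_mul_of_nonneg_left hsum (by positivity)).trans (le_of_eq ?_))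
    field_simp
    ring
  refine (quad_Jut hJ0 h3).trans (le_of_eq ?_)
  ring

theorem jut_stmt (hK : K1Stmt) (hL : LenStmt) (hS : SqStmt) (hJ : KbJStmt) (hP : PosStmt) :
    JutStmt := by
  intro ε hε
  set δ : ℝ := min ε 1 / 20 with hδdef
  have hm0 : 0 < min ε 1 := lt_min hε one_pos
  have hm1 : min ε 1 ≤ 1 := min_le_right _ _
  have hm2 : min ε 1 ≤ ε := min_le_left _ _
  have hδ0 : 0 < δ := by positivity
  have hδ1 : δ ≤ 1 / 2 := by linarith
  obtain ⟨E, hE0, hE⟩ := hK δ hδ0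
  obtain ⟨C, hC0, hC⟩ := hJ
  obtain ⟨c, hc1, hc⟩ := exists_DivB hδ0
  obtain ⟨c', hc1', hc'⟩ := exists_log_le hδ0
  have hc0 : 0 < c := lt_of_lt_of_le one_pos hc1
  have hc0' : 0 < c' := lt_of_lt_of_le one_pos hc1'
  refine ⟨252 * (40 * c') ^ 2 * (40 * c) * E ^ 2 * 5 + (42 * C * (40 * c') ^ 2 * (40 * c) ^ 2) ^ 2,
    by positivity, fun L D s g h1 hD hDi hg => ?_⟩
  have hL1 : (1 : ℝ) ≤ L := by exact_mod_cast h1
  set y : ℝ := (L : ℝ) ^ δ with hy
  have hy1 : 1 ≤ y := Real.one_le_rpow hL1 hδ0.le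
  have hyL : y ≤ L := by
    calc y ≤ (L : ℝ) ^ (1 : ℝ) := Real.rpow_le_rpow_of_exponent_le hL1 (by linarith)
      _ = L := Real.rpow_one _
  have hy20 : y ^ 20 ≤ (L : ℝ) ^ ε := by
    rw [hy, ← Real.rpow_natCast, ← Real.rpow_mul (by positivity)]
    exact Real.rpow_le_rpow_of_exponent_le hL1 (by push_cast; linarith)
  obtain ⟨K, hK4, hK5⟩ : ∃ K : ℕ, 4 * y ≤ K ∧ (K : ℝ) ≤ 5 * y :=
    ⟨⌈4 * y⌉₊, Nat.le_ceil _, by
      have := Nat.ceil_lt_add_one (a := 4 * y) (by positivity)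
      linarith⟩
  have hK1 : 1 ≤ K := by
    have : (1 : ℝ) ≤ K := by linarith
    exact_mod_cast this
  have hKL1 : 1 ≤ K * L := Nat.mul_pos hK1 h1
  have hKL : L ≤ K * L := Nat.le_mul_of_pos_left _ hK1
  have hM1 : 1 ≤ Nat.sqrt (K * L) := Nat.sqrt_pos.2 hKL1
  have hMa : Nat.sqrt (K * L) ^ 2 ≤ K * L := Nat.sqrt_le' _
  have hMb : K * L ≤ 4 * Nat.sqrt (K * L) ^ 2 := by
    have := Nat.lt_succ_sqrt' (K * L)
    simp only [Nat.succ_eq_add_one] at this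
    nlinarith
  have hD' : (max D 1) ^ 2 ≤ L ^ 3 := by
    rcases le_total D 1 with h | h
    · rw [max_eq_right h]
      simpa using Nat.one_le_pow 3 L h1
    · rwa [max_eq_left h]
  have hD2 : max D 1 ≤ L ^ 2 := by
    refine (Nat.pow_le_pow_iff_left (n := 2) (by norm_num)).1 (hD'.trans ?_)
    rw [← pow_mul]
    exact Nat.pow_le_pow_right h1 (by norm_num)
  have hDi' : Diam s (max D 1) := fun a ha b hb =>
    (hDi a ha b hb).trans (by exact_mod_cast le_max_left D 1)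
  have hcore := core_Jut hL hS hC (L := K * L) (M := Nat.sqrt (K * L)) (D := max D 1) (E := E)
    hKL1 hMa (hc (8 * (K * L)) (by omega)) hDi' hg fun i => by
      have hi : 1 ≤ 2 ^ i := Nat.one_le_two_pow
      have hN : L ≤ 2 ^ i * (K * L) := hKL.trans (Nat.le_mul_of_pos_left _ hi)
      refine hE _ _ _ (h1.trans hN) (le_max_right _ _) ?_
        (cond_Jut hδ1 L K (2 ^ i) (max D 1) _ hK1 hi hK4 hD' hMb)
      have := Nat.pow_le_pow_left hN 2
      omega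
  have hKLr : ((K * L : ℕ) : ℝ) ≤ 5 * y * L := by
    push_cast
    gcongr
  have h8 : ((8 * (K * L) : ℕ) : ℝ) ^ δ ≤ 40 * y ^ 2 := by
    have a1 : ((8 * (K * L) : ℕ) : ℝ) ≤ 40 * (L * L) := by
      have : 5 * y * L ≤ 5 * (L : ℝ) * L := by gcongr
      push_cast at hKLr ⊢
      linarith
    have a2 : (40 : ℝ) ^ δ ≤ 40 := by
      calc (40 : ℝ) ^ δ ≤ (40 : ℝ) ^ (1 : ℝ) :=
            Real.rpow_le_rpow_of_exponent_le (by norm_num) (by linarith)
        _ = 40 := Real.rpow_one _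
    calc ((8 * (K * L) : ℕ) : ℝ) ^ δ ≤ (40 * ((L : ℝ) * L)) ^ δ :=
          Real.rpow_le_rpow (by positivity) a1 hδ0.le
      _ = 40 ^ δ * y ^ 2 := by
          rw [Real.mul_rpow (by norm_num) (by positivity),
            Real.mul_rpow (by positivity) (by positivity), ← hy, sq]
      _ ≤ 40 * y ^ 2 := by gcongr
  have hΔ : c * ((8 * (K * L) : ℕ) : ℝ) ^ δ ≤ 40 * c * y ^ 2 := by
    calc c * ((8 * (K * L) : ℕ) : ℝ) ^ δ ≤ c * (40 * y ^ 2) := by gcongr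
      _ = 40 * c * y ^ 2 := by ring
  have hlam : (Nat.log 2 (K * L) : ℝ) + 1 ≤ 40 * c' * y ^ 2 := by
    calc (Nat.log 2 (K * L) : ℝ) + 1 ≤ c' * ((K * L : ℕ) : ℝ) ^ δ := hc' _ hKL1
      _ ≤ c' * ((8 * (K * L) : ℕ) : ℝ) ^ δ := by
          refine mul_le_mul_of_nonneg_left
            (Real.rpow_le_rpow (by positivity) ?_ hδ0.le) hc0'.le
          exact_mod_cast (by omega : K * L ≤ 8 * (K * L))
      _ ≤ c' * (40 * y ^ 2) := by gcongr
      _ = 40 * c' * y ^ 2 := by ring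
  set G1 := ∑ x ∈ s, g x with hG1
  set G2 := ∑ x ∈ s, g x ^ 2 with hG2
  have hG20 : 0 ≤ G2 := sum_nonneg fun x _ => sq_nonneg _
  have hy7 : y ^ 7 ≤ (L : ℝ) ^ ε := (pow_le_pow_right₀ hy1 (by norm_num)).trans hy20
  have hy16 : y ^ 16 ≤ (L : ℝ) ^ ε := (pow_le_pow_right₀ hy1 (by norm_num)).trans hy20
  set A : ℝ := 252 * (40 * c') ^ 2 * (40 * c) * E ^ 2 * 5 with hA
  set B : ℝ := (42 * C * (40 * c') ^ 2 * (40 * c) ^ 2) ^ 2 with hB
  have hA0 : 0 ≤ A := by positivity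
  have hB0 : 0 ≤ B := by positivity
  have hLe : 0 ≤ (L : ℝ) ^ ε := by positivity
  calc EE s g (ZZ L) ≤ EE s g (ZZ (K * L)) := EE_ZZ_mono hP hKL s g
    _ ≤ _ := hcore
    _ ≤ 252 * (40 * c' * y ^ 2) ^ 2 * (40 * c * y ^ 2) * E ^ 2 * (5 * y * L) * G2 +
        (42 * C * (40 * c' * y ^ 2) ^ 2 * (40 * c * y ^ 2) ^ 2) ^ 2 * G1 ^ 2 := by
        gcongr
    _ = A * y ^ 7 * (L * G2) + B * y ^ 16 * G1 ^ 2 := by
        rw [hA, hB]
        ring
    _ ≤ A * (L : ℝ) ^ ε * (L * G2) + B * (L : ℝ) ^ ε * G1 ^ 2 := by gcongr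
    _ ≤ (A + B) * (L : ℝ) ^ ε * (L * G2 + G1 ^ 2) := by
        have b1 : 0 ≤ A * (L : ℝ) ^ ε * G1 ^ 2 := by positivity
        have b2 : 0 ≤ B * (L : ℝ) ^ ε * (L * G2) := by positivity
        nlinarith

end Pool.Agent.MP_2a1f0e_nt.DH

end

section

set_option autoImplicit false
open Finset
namespace Pool.Agent.MP_2a1f0e_nt.DH
open Pool.Agent.MP_2a1f0e_nt.GM

/-- truncation of a sequence -/
def tc_PowZ (A : ℕ) (c : ℕ → ℂ) : ArithmeticFunction ℂ :=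
  ⟨fun n => if n ∈ Icc 1 A then c n else 0, by simp⟩

lemma tc_apply_PowZ (A : ℕ) (c : ℕ → ℂ) (n : ℕ) :
    tc_PowZ A c n = if n ∈ Icc 1 A then c n else 0 := rfl

lemma tc_le_PowZ {A : ℕ} {c : ℕ → ℂ} {α : ℝ} (hα : 0 ≤ α)
    (hc : ∀ l ∈ Icc 1 A, ‖c l‖ ≤ α * hf l) (n : ℕ) : ‖tc_PowZ A c n‖ ≤ α * hf n := by
  rw [tc_apply_PowZ]
  split_ifs with h
  · exact hc n h
  · rw [norm_zero]
    exact mul_nonneg hα (hf_nonneg _)

lemma prod_PowZ {A B L : ℕ} {Δ α β : ℝ} {c c' : ℕ → ℂ} (hL : A * B ≤ L) (hD : DivB L Δ)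
    (hα : 0 ≤ α) (hβ : 0 ≤ β) (hc : ∀ l ∈ Icc 1 A, ‖c l‖ ≤ α * hf l)
    (hc' : ∀ l ∈ Icc 1 B, ‖c' l‖ ≤ β * hf l) :
    ∃ d : ℕ → ℂ, (∀ l ∈ Icc 1 L, ‖d l‖ ≤ α * β * Δ * hf l) ∧
      ∀ u : ℝ, PP A c u * PP B c' u = PP L d u := by
  refine ⟨fun l => (tc_PowZ A c * tc_PowZ B c') l, fun l hl => ?_, fun u => ?_⟩
  · have hl' := Finset.mem_Icc.1 hl
    have h1 : ∀ x ∈ l.divisorsAntidiagonal,
        ‖tc_PowZ A c x.1 * tc_PowZ B c' x.2‖ ≤ α * β * hf l := fun x hx => by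
      have e : (l : ℝ) = x.1 * x.2 := by
        rw [← (Nat.mem_divisorsAntidiagonal.1 hx).1, Nat.cast_mul]
      rw [norm_mul, e, hf_mul (Nat.cast_nonneg _)]
      calc _ ≤ α * hf x.1 * (β * hf x.2) :=
            mul_le_mul (tc_le_PowZ hα hc _) (tc_le_PowZ hβ hc' _) (norm_nonneg _)
              (mul_nonneg hα (hf_nonneg _))
        _ = _ := by ring
    have h2 : (l.divisorsAntidiagonal.card : ℝ) ≤ Δ := by
      rw [← Nat.map_div_right_divisors, Finset.card_map]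
      exact hD.2 l hl'.2
    simp only [ArithmeticFunction.mul_apply]
    calc _ ≤ ∑ x ∈ l.divisorsAntidiagonal, ‖tc_PowZ A c x.1 * tc_PowZ B c' x.2‖ :=
          norm_sum_le _ _
      _ ≤ l.divisorsAntidiagonal.card • (α * β * hf l) := Finset.sum_le_card_nsmul _ _ _ h1
      _ ≤ Δ * (α * β * hf l) := by
          rw [nsmul_eq_mul]
          exact mul_le_mul_of_nonneg_right h2 (mul_nonneg (mul_nonneg hα hβ) (hf_nonneg _))
      _ = _ := by ring
  · have h := conv_sum (tc_PowZ A c) (tc_PowZ B c') (Icc 1 A) (Icc 1 B) (Icc 1 L)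
      (fun n hn => if_neg hn) (fun n hn => if_neg hn)
      (fun x hx => by have := (Finset.mem_Icc.1 hx).1; omega)
      (fun x hx => by have := (Finset.mem_Icc.1 hx).1; omega)
      (fun x hx y hy => Finset.mem_Icc.2
        ⟨Nat.mul_pos (Finset.mem_Icc.1 hx).1 (Finset.mem_Icc.1 hy).1,
          (Nat.mul_le_mul (Finset.mem_Icc.1 hx).2 (Finset.mem_Icc.1 hy).2).trans hL⟩)
      (fun n => pw (n : ℝ) u) fun x y hx hy => by
        rw [Nat.cast_mul, pw_mul (Nat.cast_ne_zero.2 hx) (Nat.cast_ne_zero.2 hy)]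
    unfold PP
    rw [h]
    congr 1 <;> exact Finset.sum_congr rfl fun x hx => by rw [tc_apply_PowZ, if_pos hx]

lemma sq_PowZ {M L : ℕ} {Δ : ℝ} (ξ : ℝ) (hD : DivB L Δ) (hL : M ^ 2 ≤ L) :
    ∃ d : ℕ → ℂ, (∀ l ∈ Icc 1 L, ‖d l‖ ≤ Δ * hf l) ∧ ∀ u : ℝ, ZZ M (u + ξ) ^ 2 = PP L d u := by
  have hc : ∀ l ∈ Icc 1 M, ‖(hf (l : ℝ) : ℂ) * pw (l : ℝ) ξ‖ ≤ 1 * hf l := fun l _ => by
    rw [norm_mul, norm_pw, mul_one, one_mul, Complex.norm_real, Real.norm_eq_abs,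
      abs_of_nonneg (hf_nonneg _)]
  obtain ⟨d, h1, h2⟩ := prod_PowZ (A := M) (B := M) (by rwa [← pow_two]) hD zero_le_one
    zero_le_one hc hc
  refine ⟨d, fun l hl => by simpa using h1 l hl, fun u => ?_⟩
  rw [← h2, ZZ, PP_add, pow_two]

theorem powZ_stmt : PowZStmt := by
  intro M L Δ ξ hD
  refine ⟨sq_PowZ ξ hD, fun hL => ?_⟩
  have h24 : M ^ 2 ≤ M ^ 4 := by
    rcases Nat.eq_zero_or_pos M with h | h
    · simp [h]
    · exact Nat.pow_le_pow_right h (by norm_num)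
  have hΔ : 0 ≤ Δ := zero_le_one.trans hD.1
  obtain ⟨c, h1, h2⟩ := sq_PowZ ξ (DivB_mono hD (h24.trans hL)) (le_refl (M ^ 2))
  obtain ⟨d, h3, h4⟩ := prod_PowZ (A := M ^ 2) (B := M ^ 2) (by rwa [← pow_add]) hD hΔ hΔ h1 h1
  refine ⟨d, fun l hl => (h3 l hl).trans_eq (by ring), fun u => ?_⟩
  rw [← h4, ← h2]
  ring

end Pool.Agent.MP_2a1f0e_nt.DH

end

section

set_option autoImplicit false

open Finset

namespace Pool.Agent.MP_2a1f0e_nt.DH

open Pool.Agent.MP_2a1f0e_nt.GM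

lemma swap4_Pos (s : Finset ℤ) (t : Finset ℕ) (f : ℤ → ℤ → ℕ → ℕ → ℂ) :
    ∑ x ∈ s, ∑ y ∈ s, ∑ l ∈ t, ∑ l' ∈ t, f x y l l' =
      ∑ l ∈ t, ∑ l' ∈ t, ∑ x ∈ s, ∑ y ∈ s, f x y l l' := by
  calc _ = ∑ x ∈ s, ∑ l ∈ t, ∑ y ∈ s, ∑ l' ∈ t, f x y l l' :=
        sum_congr rfl fun x _ => sum_comm
    _ = ∑ l ∈ t, ∑ x ∈ s, ∑ y ∈ s, ∑ l' ∈ t, f x y l l' := sum_comm
    _ = ∑ l ∈ t, ∑ x ∈ s, ∑ l' ∈ t, ∑ y ∈ s, f x y l l' :=
        sum_congr rfl fun l _ => sum_congr rfl fun x _ => sum_comm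
    _ = _ := sum_congr rfl fun l _ => sum_comm

lemma cid_Pos (L : ℕ) (c : ℕ → ℂ) (s : Finset ℤ) (g : ℤ → ℝ) :
    ((EE s g (PP L c) : ℝ) : ℂ) = ∑ l ∈ Icc 1 L, ∑ l' ∈ Icc 1 L,
      c l * (starRingEnd ℂ) (c l') * ((‖FT s g ((l : ℝ) / l')‖ ^ 2 : ℝ) : ℂ) := by
  have h1 : ∀ x y : ℤ, ((g x * g y * ‖PP L c ((x : ℝ) - y)‖ ^ 2 : ℝ) : ℂ) =
      ∑ l ∈ Icc 1 L, ∑ l' ∈ Icc 1 L, c l * (starRingEnd ℂ) (c l') *
        ((g x : ℂ) * pw ((l : ℝ) / l') x * (starRingEnd ℂ) ((g y : ℂ) * pw ((l : ℝ) / l') y)) := by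
    intro x y
    rw [Complex.ofReal_mul, Complex.ofReal_pow, ← Complex.mul_conj', PP, map_sum, sum_mul_sum,
      mul_sum]
    refine sum_congr rfl fun l hl => ?_
    rw [mul_sum]
    refine sum_congr rfl fun l' hl' => ?_
    have a1 : (l : ℝ) ≠ 0 := by
      have := (mem_Icc.1 hl).1
      positivity
    have a2 : (l' : ℝ) ≠ 0 := by
      have := (mem_Icc.1 hl').1
      positivity
    simp only [map_mul, conj_pw, Complex.conj_ofReal, pw_div a1 a2, neg_neg,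
      Complex.ofReal_mul, sub_eq_add_neg, pw_add]
    ring
  have h2 : ∀ l l' : ℕ,
      c l * (starRingEnd ℂ) (c l') * ((‖FT s g ((l : ℝ) / l')‖ ^ 2 : ℝ) : ℂ) =
      ∑ x ∈ s, ∑ y ∈ s, c l * (starRingEnd ℂ) (c l') *
        ((g x : ℂ) * pw ((l : ℝ) / l') x * (starRingEnd ℂ) ((g y : ℂ) * pw ((l : ℝ) / l') y)) := by
    intro l l'
    rw [Complex.ofReal_pow, ← Complex.mul_conj', FT, map_sum, sum_mul_sum, mul_sum]
    refine sum_congr rfl fun x _ => ?_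
    rw [mul_sum]
  unfold EE
  simp only [Complex.ofReal_sum, h1, h2]
  exact swap4_Pos _ _ _

theorem id_stmt : IdStmt := by
  intro L a s g
  apply Complex.ofReal_injective
  rw [cid_Pos]
  simp only [Complex.ofReal_sum, Complex.ofReal_mul, Complex.conj_ofReal]

theorem pos_stmt : PosStmt := by
  intro L L' c a s g hL hc ha
  have hsub : Icc 1 L ⊆ Icc 1 L' := Icc_subset_Icc_right hL
  rw [id_stmt]
  calc EE s g (PP L c) ≤ ‖((EE s g (PP L c) : ℝ) : ℂ)‖ := by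
        rw [Complex.norm_real]
        exact le_abs_self _
    _ ≤ ∑ l ∈ Icc 1 L, ∑ l' ∈ Icc 1 L, a l * a l' * ‖FT s g ((l : ℝ) / l')‖ ^ 2 := by
        rw [cid_Pos]
        refine (norm_sum_le _ _).trans (sum_le_sum fun l hl => ?_)
        refine (norm_sum_le _ _).trans (sum_le_sum fun l' hl' => ?_)
        rw [norm_mul, norm_mul, Complex.norm_conj, Complex.norm_real,
          Real.norm_of_nonneg (by positivity)]
        exact mul_le_mul_of_nonneg_right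
          (mul_le_mul (hc l hl) (hc l' hl') (norm_nonneg _) (ha l (hsub hl))) (by positivity)
    _ ≤ ∑ l ∈ Icc 1 L, ∑ l' ∈ Icc 1 L', a l * a l' * ‖FT s g ((l : ℝ) / l')‖ ^ 2 :=
        sum_le_sum fun l hl => sum_le_sum_of_subset_of_nonneg hsub fun l' hl' _ =>
          mul_nonneg (mul_nonneg (ha l (hsub hl)) (ha l' hl')) (by positivity)
    _ ≤ _ := sum_le_sum_of_subset_of_nonneg hsub fun l hl _ => sum_nonneg fun l' hl' =>
          mul_nonneg (mul_nonneg (ha l hl) (ha l' hl')) (by positivity)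

end Pool.Agent.MP_2a1f0e_nt.DH

end

section

set_option autoImplicit false

open Finset

namespace Pool.Agent.MP_2a1f0e_nt.DH

open Pool.Agent.MP_2a1f0e_nt.GM

lemma EE_sum_Len {s : Finset ℤ} {g : ℤ → ℝ} (hg : ∀ x ∈ s, 0 ≤ g x) (k L : ℕ) (c : ℕ → ℂ)
    (d : ℕ → ℕ → ℂ) (h : ∀ l ∈ Icc 1 L, c l = ∑ j ∈ range k, d j l) :
    EE s g (PP L c) ≤ k * ∑ j ∈ range k, EE s g (PP L (d j)) := by
  have h1 : ∀ u, ‖PP L c u‖ ^ 2 ≤ k * ∑ j ∈ range k, ‖PP L (d j) u‖ ^ 2 := by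
    intro u
    have e : PP L c u = ∑ j ∈ range k, PP L (d j) u := by
      unfold PP
      rw [sum_comm]
      exact sum_congr rfl fun l hl => by rw [h l hl, sum_mul]
    have h2 := sq_sum_le_card_mul_sum_sq (s := range k) (f := fun j => ‖PP L (d j) u‖)
    rw [card_range] at h2
    rw [e]
    exact (pow_le_pow_left₀ (norm_nonneg _) (norm_sum_le _ _) 2).trans h2
  unfold EE
  rw [sum_comm (s := range k), mul_sum]
  refine sum_le_sum fun x hx => ?_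
  rw [sum_comm (s := range k), mul_sum]
  refine sum_le_sum fun y hy => ?_
  rw [← mul_sum, mul_left_comm]
  exact mul_le_mul_of_nonneg_left (h1 _) (mul_nonneg (hg x hx) (hg y hy))

lemma blk_Len (hI : IdStmt) {L : ℕ} {B : Finset ℕ} (hB : B ⊆ Icc 1 L) (a : ℕ → ℝ)
    (s : Finset ℤ) (g : ℤ → ℝ) :
    EE s g (PP L fun l => ((if l ∈ B then a l else 0 : ℝ) : ℂ)) =
      ∑ l ∈ B, ∑ l' ∈ B, a l * a l' * ‖FT s g ((l : ℝ) / l')‖ ^ 2 := by
  rw [hI]
  symm
  refine (sum_congr rfl fun l hl => ?_).trans (sum_subset hB fun l _ hl => by simp [hl])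
  refine (sum_congr rfl fun l' hl' => ?_).trans (sum_subset hB fun l' _ hl' => by simp [hl'])
  rw [if_pos hl, if_pos hl']

lemma inj_Len {B N : Finset ℕ} {p : ℕ} (hp : 1 ≤ p) (h : ∀ l ∈ B, p * l ∈ N) (G : ℕ → ℝ)
    (hG : ∀ n, 0 ≤ G n) : ∑ l ∈ B, G (p * l) ≤ ∑ n ∈ N, G n := by
  rw [← sum_image (s := B) (g := fun l => p * l) (f := G)
    fun a _ b _ e => Nat.eq_of_mul_eq_mul_left hp e]
  refine sum_le_sum_of_subset_of_nonneg (fun n hn => ?_) fun n _ _ => hG n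
  obtain ⟨l, hl, rfl⟩ := mem_image.1 hn
  exact h l hl

lemma cnt_Len (B P N : Finset ℕ) (F : ℝ → ℝ) (Δ : ℝ) (hF : ∀ v, 0 ≤ F v) (hP : ∀ p ∈ P, 1 ≤ p)
    (h : ∀ p ∈ P, ∀ l ∈ B, p * l ∈ N) (hN : ∀ n ∈ N, n ≠ 0 ∧ (n.divisors.card : ℝ) ≤ Δ) :
    P.card * ∑ l ∈ B, ∑ l' ∈ B, F ((l : ℝ) / l') ≤
      Δ * ∑ n ∈ N, ∑ n' ∈ N, F ((n : ℝ) / n') := by
  have h0 : ∀ n : ℕ, 0 ≤ ∑ n' ∈ N, F ((n : ℝ) / (n' : ℕ)) := fun n => sum_nonneg fun _ _ => hF _
  have h1 : ∀ p ∈ P, ∑ l ∈ B, ∑ l' ∈ B, F ((l : ℝ) / l') ≤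
      ∑ n ∈ N, if p ∣ n then ∑ n' ∈ N, F ((n : ℝ) / n') else 0 := by
    intro p hp
    have hp0 : (p : ℝ) ≠ 0 := by exact_mod_cast (Nat.one_le_iff_ne_zero.1 (hP p hp))
    refine le_trans (sum_le_sum fun l _ => ?_) (inj_Len (hP p hp) (h p hp)
      (fun n => if p ∣ n then ∑ n' ∈ N, F ((n : ℝ) / n') else 0) fun n => ?_)
    · rw [if_pos (dvd_mul_right _ _)]
      refine le_trans (le_of_eq (sum_congr rfl fun l' _ => ?_)) (inj_Len (hP p hp) (h p hp)
        (fun n' => F (((p * l : ℕ) : ℝ) / n')) fun n => hF _)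
      push_cast
      rw [mul_div_mul_left _ _ hp0]
    · split_ifs
      · exact h0 n
      · exact le_rfl
  have h2 := sum_le_sum h1
  rw [sum_const, nsmul_eq_mul, sum_comm (s := P)] at h2
  refine h2.trans ?_
  rw [mul_sum]
  refine sum_le_sum fun n hn => ?_
  rw [← sum_filter, sum_const, nsmul_eq_mul]
  refine mul_le_mul_of_nonneg_right (le_trans ?_ (hN n hn).2) (h0 n)
  exact_mod_cast card_le_card fun p hp =>
    Nat.mem_divisors.2 ⟨(mem_filter.1 hp).2, (hN n hn).1⟩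

lemma big_Len (hI : IdStmt) (hP : PosStmt) {L : ℕ} (hL : 1 ≤ L) {s : Finset ℤ} {g : ℤ → ℝ}
    (hg : ∀ x ∈ s, 0 ≤ g x) :
    ∑ n ∈ Ico L (8 * L), ∑ n' ∈ Ico L (8 * L), ‖FT s g ((n : ℝ) / n')‖ ^ 2 ≤
      3 * ∑ i ∈ range 3, EE s g (KK (2 ^ i * L)) := by
  have h1 := blk_Len hI (L := 8 * L) (B := Ico L (8 * L))
    (fun n hn => by rw [mem_Ico] at hn; rw [mem_Icc]; omega) (fun _ => 1) s g
  simp only [one_mul] at h1
  rw [← h1]
  have h2 := EE_sum_Len hg 3 (8 * L) (fun l => ((if l ∈ Ico L (8 * L) then 1 else 0 : ℝ) : ℂ))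
    (fun i l => ((if l ∈ Ico (2 ^ i * L) (2 * (2 ^ i * L)) then 1 else 0 : ℝ) : ℂ))
    (fun l _ => by
      simp only [sum_range_succ, range_zero, sum_empty, mem_Ico, zero_add, pow_zero, pow_one]
      split_ifs <;> first | omega | simp)
  refine h2.trans ?_
  push_cast
  refine mul_le_mul_of_nonneg_left (sum_le_sum fun i hi => ?_) (by norm_num)
  have h3 : 2 ^ i ≤ 4 := by
    have := mem_range.1 hi
    interval_cases i <;> norm_num
  have h4 : 1 ≤ 2 ^ i * L := Nat.mul_pos (by positivity) hL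
  have h5 : 2 ^ i * L ≤ 4 * L := Nat.mul_le_mul_right _ h3
  generalize 2 ^ i * L = M at h4 h5
  rw [blk_Len hI (L := 8 * L) (B := Ico M (2 * M))
    (fun n hn => by rw [mem_Ico] at hn; rw [mem_Icc]; omega) (fun _ => 1) s g,
    ← blk_Len hI (L := 3 * M) (B := Ico M (2 * M))
    (fun n hn => by rw [mem_Ico] at hn; rw [mem_Icc]; omega) (fun _ => 1) s g, KK_eq_PP]
  refine hP _ _ _ (fun n => Wt ((n : ℝ) / M)) s g le_rfl (fun l _ => ?_) fun l _ => Wt_nonneg _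
  have hM : (0 : ℝ) < M := by exact_mod_cast h4
  split_ifs with h
  · rw [mem_Ico] at h
    rw [Wt_eq_one ((le_div_iff₀ hM).2 (by rw [one_mul]; exact_mod_cast h.1))
      ((div_le_iff₀ hM).2 (by exact_mod_cast h.2.le))]
    simp
  · simpa using Wt_nonneg _

lemma dya_Len {L : ℕ} {Δ : ℝ} (hD : DivB (8 * L) Δ) (F : ℝ → ℝ) (hF : ∀ v, 0 ≤ F v) (j : ℕ) :
    L * ∑ l ∈ (Icc 1 L).filter (fun l => Nat.log 2 l = j),
      ∑ l' ∈ (Icc 1 L).filter (fun l => Nat.log 2 l = j), hf l * hf l' * F ((l : ℝ) / l') ≤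
      Δ * ∑ n ∈ Ico L (8 * L), ∑ n' ∈ Ico L (8 * L), F ((n : ℝ) / n') := by
  set B := (Icc 1 L).filter (fun l => Nat.log 2 l = j) with hB
  have hb : ∀ l ∈ B, 2 ^ j ≤ l ∧ l < 2 * 2 ^ j ∧ l ≤ L := by
    intro l hl
    rw [hB, mem_filter, mem_Icc] at hl
    obtain ⟨⟨a1, a2⟩, rfl⟩ := hl
    refine ⟨Nat.pow_log_le_self 2 (by omega), ?_, a2⟩
    rw [← pow_succ']
    exact Nat.lt_pow_succ_log_self (by norm_num) l
  have hq : 0 < 2 ^ j := by positivity
  have e1 : L < 2 ^ j * (L / 2 ^ j + 1) := Nat.lt_mul_div_succ L hq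
  have e2 : 2 ^ j * (L / 2 ^ j) ≤ L := Nat.mul_div_le L _
  generalize 2 ^ j = q at hb hq e1 e2
  set P := L / q + 1 with hP
  have e3 : q * P ≤ L + q := by rw [hP, mul_add, mul_one]; omega
  have h1 := cnt_Len B (Ico P (2 * P)) (Ico L (8 * L)) F Δ hF
    (fun p hp => le_trans (Nat.le_add_left 1 _) (mem_Ico.1 hp).1)
    (fun p hp l hl => by
      obtain ⟨a1, a2, a3⟩ := hb l hl
      obtain ⟨a4, a5⟩ := mem_Ico.1 hp
      have a6 : P * q ≤ p * l := Nat.mul_le_mul a4 a1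
      have a7 : p * l < 2 * P * (2 * q) := Nat.mul_lt_mul'' a5 a2
      rw [mem_Ico]
      constructor <;> nlinarith)
    (fun n hn => by
      obtain ⟨a1, a2⟩ := mem_Ico.1 hn
      exact ⟨by omega, hD.2 n a2.le⟩)
  rw [Nat.card_Ico, show 2 * P - P = P by omega] at h1
  refine le_trans ?_ h1
  have hq' : (0 : ℝ) < q := by exact_mod_cast hq
  have h2 : ∑ l ∈ B, ∑ l' ∈ B, hf l * hf l' * F ((l : ℝ) / l') ≤
      1 / q * ∑ l ∈ B, ∑ l' ∈ B, F ((l : ℝ) / l') := by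
    rw [mul_sum]
    refine sum_le_sum fun l hl => ?_
    rw [mul_sum]
    refine sum_le_sum fun l' hl' => mul_le_mul_of_nonneg_right ?_ (hF _)
    rw [← hf_sq hq'.le, sq]
    exact mul_le_mul (hf_anti hq' (by exact_mod_cast (hb l hl).1))
      (hf_anti hq' (by exact_mod_cast (hb l' hl').1)) (hf_nonneg _) (hf_nonneg _)
  refine (mul_le_mul_of_nonneg_left h2 (Nat.cast_nonneg _)).trans ?_
  rw [← mul_assoc]
  refine mul_le_mul_of_nonneg_right ?_ (sum_nonneg fun _ _ => sum_nonneg fun _ _ => hF _)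
  rw [mul_one_div, div_le_iff₀ hq', mul_comm]
  exact_mod_cast e1.le

theorem len_stmt (hI : IdStmt) (hP : PosStmt) : LenStmt := by
  intro L Δ s g hL hD hg
  have hL' : (0 : ℝ) < L := by exact_mod_cast hL
  have hΔ : 0 ≤ Δ := zero_le_one.trans hD.1
  have h1 := EE_sum_Len hg (Nat.log 2 L + 1) L (fun l => (hf (l : ℝ) : ℂ))
    (fun j l => ((if l ∈ (Icc 1 L).filter (fun l => Nat.log 2 l = j) then hf l else 0 : ℝ) : ℂ))
    (fun l hl => by
      rw [sum_eq_single (Nat.log 2 l)]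
      · rw [if_pos (by exact mem_filter.2 ⟨hl, rfl⟩)]
      · intro j _ hj
        rw [if_neg fun h => hj (mem_filter.1 h).2.symm, Complex.ofReal_zero]
      · intro h
        exact absurd (mem_range.2 (Nat.lt_succ_of_le (Nat.log_mono_right (mem_Icc.1 hl).2))) h)
  have h2 : ∀ j ∈ range (Nat.log 2 L + 1), EE s g (PP L fun l =>
      ((if l ∈ (Icc 1 L).filter (fun l => Nat.log 2 l = j) then hf l else 0 : ℝ) : ℂ)) ≤
      Δ * (3 * ∑ i ∈ range 3, EE s g (KK (2 ^ i * L))) / L := by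
    intro j _
    rw [blk_Len hI (filter_subset _ _) (fun l => hf l) s g, le_div_iff₀ hL', mul_comm]
    exact (dya_Len hD (fun v => ‖FT s g v‖ ^ 2) (fun _ => sq_nonneg _) j).trans
      (mul_le_mul_of_nonneg_left (big_Len hI hP hL hg) hΔ)
  have h3 := sum_le_card_nsmul _ _ _ h2
  rw [card_range, nsmul_eq_mul] at h3
  refine h1.trans ((mul_le_mul_of_nonneg_left h3 (Nat.cast_nonneg _)).trans (le_of_eq ?_))
  push_cast
  ring

end Pool.Agent.MP_2a1f0e_nt.DH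

end

section

set_option autoImplicit false

open Finset

namespace Pool.Agent.MP_2a1f0e_nt.DH

open Pool.Agent.MP_2a1f0e_nt.GM

theorem sq_stmt : SqStmt := by
  intro N M L E s g hD hg hE
  obtain ⟨K, hK⟩ : ∃ K : ℤ → ℝ, ∀ u, K u = ‖KK N (u : ℝ) - Kb N M (u : ℝ)‖ := ⟨_, fun _ => rfl⟩
  have K0 : ∀ u, 0 ≤ K u := fun u => hK u ▸ norm_nonneg _
  simp only [← hK] at hE
  have mem : ∀ x ∈ s, ∀ y ∈ s, x - y ∈ Icc (-(L : ℤ)) L := fun x hx y hy =>
    mem_Icc.2 (abs_le.1 (hD x hx y hy))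
  have h1 : ∀ x ∈ s, ∀ y ∈ s, K (x - y) ≤ E := fun x hx y hy =>
    (single_le_sum (fun u _ => K0 u) (mem x hx y hy)).trans hE
  have h2 : ∀ x ∈ s, ∑ y ∈ s, K (x - y) ≤ E := fun x hx => by
    rw [← sum_image (s := s) (g := fun y => x - y) (f := K) fun a _ b _ h => sub_right_injective h]
    refine (sum_le_sum_of_subset_of_nonneg (fun u hu => ?_) fun u _ _ => K0 u).trans hE
    obtain ⟨y, hy, rfl⟩ := mem_image.1 hu
    exact mem x hx y hy
  have h3 := schur s g (fun x y => K (x - y)) (fun _ _ _ _ => K0 _) (fun x _ y _ => by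
    simp only [hK, Int.cast_sub]
    exact norm_K1_sub N M _ _) E h2
  have E0 : 0 ≤ E := (sum_nonneg fun u _ => K0 u).trans hE
  have h4 : EE s g (KK N) ≤ 2 * E * ∑ x ∈ s, ∑ y ∈ s, g x * g y * K (x - y) +
      2 * EE s g (Kb N M) := by
    unfold EE
    simp only [mul_sum, ← sum_add_distrib]
    refine sum_le_sum fun x hx => sum_le_sum fun y hy => ?_
    have a0 := mul_nonneg (hg x hx) (hg y hy)
    have a1 := norm_le_norm_sub_add (KK N ((x : ℝ) - y)) (Kb N M ((x : ℝ) - y))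
    have a2 := h1 x hx y hy
    have a3 := K0 (x - y)
    have a4 := hK (x - y)
    rw [Int.cast_sub] at a4
    rw [← a4] at a1
    have a5 : ‖KK N ((x : ℝ) - y)‖ ^ 2 ≤ 2 * E * K (x - y) + 2 * ‖Kb N M ((x : ℝ) - y)‖ ^ 2 := by
      have := pow_le_pow_left₀ (norm_nonneg _) a1 2
      nlinarith [sq_nonneg (K (x - y) - ‖Kb N M ((x : ℝ) - y)‖), mul_le_mul_of_nonneg_right a2 a3]
    nlinarith [mul_le_mul_of_nonneg_left a5 a0]
  nlinarith [mul_le_mul_of_nonneg_left h3 E0]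

theorem setB_stmt (hP : PosStmt) (hJ : JutStmt) : SetBStmt := by
  intro ε hε
  obtain ⟨C, hC, hJ⟩ := hJ ε hε
  refine ⟨1 + 9 * C * 3 ^ ε, le_add_of_nonneg_right (by positivity), fun N T hN hT W hW => ?_⟩
  have hN0 : (0 : ℝ) < N := by exact_mod_cast hN
  have h1 := EE_le_ZZ hP (L := 3 * N) (L' := 3 * N) (c := fun n => (Wt ((n : ℝ) / N) : ℂ))
    (α := √(3 * N)) (Real.sqrt_nonneg _) le_rfl (fun l hl => by
      obtain ⟨l1, l2⟩ := mem_Icc.1 hl
      have l3 : (0 : ℝ) < l := by exact_mod_cast l1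
      rw [Complex.norm_real, Real.norm_of_nonneg (Wt_nonneg _), hf, mul_one_div]
      refine (Wt_le_one _).trans ((one_le_div (Real.sqrt_pos.2 l3)).2 (Real.sqrt_le_sqrt ?_))
      exact_mod_cast l2) W fun _ => 1
  have h2 := hJ (3 * N) T W (fun _ => 1) (by omega)
    (hT.trans (Nat.pow_le_pow_left (by omega) 3)) (fun x hx y hy => by
      have a := mem_Icc.1 (hW hx)
      have b := mem_Icc.1 (hW hy)
      rw [abs_le]
      omega) fun _ _ => zero_le_one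
  rw [← KK_eq_PP, Real.sq_sqrt (by positivity)] at h1
  simp only [one_pow, sum_const, nsmul_eq_mul, mul_one, Nat.cast_mul, Nat.cast_ofNat] at h2
  rw [Real.mul_rpow (by norm_num) hN0.le] at h2
  have p1 : 0 < (N : ℝ) ^ ε := Real.rpow_pos_of_pos hN0 ε
  have p2 : 0 < (3 : ℝ) ^ ε := by positivity
  have p3 : (0 : ℝ) ≤ W.card := Nat.cast_nonneg _
  generalize (W.card : ℝ) = R at h2 p3 ⊢
  calc _ ≤ 3 * N * (C * (3 ^ ε * (N : ℝ) ^ ε) * (3 * N * R + R ^ 2)) :=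
        h1.trans (mul_le_mul_of_nonneg_left h2 (by positivity))
    _ = C * 3 ^ ε * (N : ℝ) ^ ε * (9 * (R * (N : ℝ) ^ 2) + 3 * (R ^ 2 * N)) := by ring
    _ ≤ C * 3 ^ ε * (N : ℝ) ^ ε * (9 * (R * (N : ℝ) ^ 2) + 9 * (R ^ 2 * N)) := by gcongr; norm_num
    _ = 9 * C * 3 ^ ε * (N : ℝ) ^ ε * (R * (N : ℝ) ^ 2 + R ^ 2 * N) := by ring
    _ ≤ _ := by gcongr; linarith

end Pool.Agent.MP_2a1f0e_nt.DH

end

section

set_option autoImplicit false

open Finset

namespace Pool.Agent.MP_2a1f0e_nt.DH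

open Pool.Agent.MP_2a1f0e_nt.GM

lemma cs_KbJ {ι : Type} (s : Finset ι) (w a b : ι → ℝ) (hw : ∀ i ∈ s, 0 ≤ w i) :
    ∑ i ∈ s, w i * a i * b i ≤ √(∑ i ∈ s, w i * a i ^ 2) * √(∑ i ∈ s, w i * b i ^ 2) := by
  have h := Real.sum_mul_le_sqrt_mul_sqrt s (fun i => √(w i) * a i) fun i => √(w i) * b i
  have e : ∀ c : ι → ℝ, ∑ i ∈ s, (√(w i) * c i) ^ 2 = ∑ i ∈ s, w i * c i ^ 2 := fun c =>
    sum_congr rfl fun i hi => by rw [mul_pow, Real.sq_sqrt (hw i hi)]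
  rw [e, e] at h
  refine le_trans (le_of_eq (sum_congr rfl fun i hi => ?_)) h
  rw [mul_mul_mul_comm, Real.mul_self_sqrt (hw i hi), mul_assoc]

lemma ee_KbJ (s : Finset ℤ) (g : ℤ → ℝ) (F : ℝ → ℂ) :
    EE s g F = ∑ p ∈ s ×ˢ s, g p.1 * g p.2 * ‖F ((p.1 : ℝ) - p.2)‖ ^ 2 := by
  rw [EE, sum_product]

theorem kbJ_stmt (hA : AvgStmt) (hZ : PowZStmt) (hP : PosStmt) : KbJStmt := by
  obtain ⟨C, hC, hA⟩ := hA
  refine ⟨C ^ 2, by positivity, fun N M L Δ s g hN hM hΔ hg => ?_⟩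
  have hw : ∀ p ∈ s ×ˢ s, 0 ≤ g p.1 * g p.2 := fun p hp =>
    mul_nonneg (hg _ (mem_product.1 hp).1) (hg _ (mem_product.1 hp).2)
  have hG : 0 ≤ ∑ x ∈ s, g x := sum_nonneg hg
  have h0 : 0 ≤ Δ := zero_le_one.trans hΔ.1
  have hX := EE_nonneg hg (Kb N M)
  have h1 := hA N M hN (ℤ × ℤ) (s ×ˢ s) (fun p => g p.1 * g p.2 * ‖Kb N M ((p.1 : ℝ) - p.2)‖)
    (fun p => (p.1 : ℝ) - p.2)
    (√(EE s g (Kb N M)) * √((∑ x ∈ s, g x) * (Δ * √(EE s g (ZZ L)))))
    (fun p hp => mul_nonneg (hw p hp) (norm_nonneg _)) fun ξ => by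
      refine (cs_KbJ _ _ _ _ hw).trans ?_
      rw [← ee_KbJ]
      refine mul_le_mul_of_nonneg_left (Real.sqrt_le_sqrt ?_) (Real.sqrt_nonneg _)
      obtain ⟨d, d1, d2⟩ := (hZ M L Δ ξ hΔ).1 hM
      have h2 := cs_KbJ (s ×ˢ s) (fun p => g p.1 * g p.2) (fun _ => 1)
        (fun p => ‖PP L d ((p.1 : ℝ) - p.2)‖) hw
      simp only [mul_one, one_pow] at h2
      rw [← ee_KbJ, sum_product' s s fun x y => g x * g y, ← sum_mul_sum,
        Real.sqrt_mul_self hG] at h2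
      simp only [← norm_pow, d2]
      refine h2.trans (mul_le_mul_of_nonneg_left ?_ hG)
      rw [← Real.sqrt_sq h0, ← Real.sqrt_mul (sq_nonneg _)]
      exact Real.sqrt_le_sqrt (EE_le_ZZ hP h0 le_rfl d1 s g)
  simp only [mul_assoc _ ‖Kb N M _‖ ‖Kb N M _‖, ← sq] at h1
  rw [← ee_KbJ] at h1
  generalize EE s g (Kb N M) = X at *
  have hY : 0 ≤ (∑ x ∈ s, g x) * (Δ * √(EE s g (ZZ L))) := by positivity
  have h3 : √X ≤ C * √N * √((∑ x ∈ s, g x) * (Δ * √(EE s g (ZZ L)))) := by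
    rcases (Real.sqrt_nonneg X).eq_or_lt with h | h
    · rw [← h]
      positivity
    · refine le_of_mul_le_mul_left ?_ h
      rw [Real.mul_self_sqrt hX]
      exact h1.trans_eq (by ring)
  have h4 := pow_le_pow_left₀ (Real.sqrt_nonneg _) h3 2
  rw [Real.sq_sqrt hX, mul_pow, mul_pow, Real.sq_sqrt hY, Real.sq_sqrt (Nat.cast_nonneg _)] at h4
  exact h4.trans_eq (by ring)

end Pool.Agent.MP_2a1f0e_nt.DH

end
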