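import Pool.Agent.MP_c853c5_nt.Z.YDefs
import Pool.Agent.Mg.C853.G50a3e6
import Pool.Agent.Mg.C853.Gf8de24
import Pool.Agent.Mg.C853.G779e95
import Pool.Agent.Mg.C853.G9b677c
import Pool.Agent.Mg.C853.Gfe9d6c
import Pool.Agent.Mg.C853.G764d0f

section

/-!
The mean value theorem for Dirichlet polynomials at integer points.
-/

set_option autoImplicit false

open Finset

namespace Pool.Agent.MP_c853c5_nt.Z

open Pool.Agent.MP_2a1f0e_nt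

lemma sum_Icc_YMv (T : ℕ) (F : ℝ → ℝ) :
    ∑ t ∈ Icc 0 (T : ℤ), F t = F 0 + ∑ t ∈ Icc 1 T, F t := by
  induction T with
  | zero => simp
  | succ T ih =>
    rw [sum_Icc_succ_top (by omega), ← add_assoc, ← ih, Nat.cast_succ,
      ← insert_Icc_right_eq_Icc_add_one (by omega), sum_insert (by simp), add_comm]
    push_cast
    rfl

lemma mean_YMv {N T : ℕ} (hN : 1 ≤ N) (hT : N ≤ T) {b : ℕ → ℂ} (hb : ∀ n, ‖b n‖ ≤ 1) :
    ∑ t ∈ Icc 1 T, ‖GM.DP N b t‖ ^ 2 ≤ 288 * ((T : ℝ) * N) := by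
  have h0 : (N : ℝ) ≤ T := by exact_mod_cast hT
  have h1 := mv_kernel (Icc N (2 * N)) b (fun _ => 1) (fun n _ => hb n) 1 T le_rfl (hN.trans hT)
    (2 * N) 4 (by norm_num) (by linarith) (fun n hn => hN.trans (mem_Icc.1 hn).1)
    (fun n hn => by exact_mod_cast (mem_Icc.1 hn).2)
    (fun n hn m hm => by have := mem_Icc.1 hn; have := mem_Icc.1 hm; omega)
  have h2 := kernel_schur (Icc N (2 * N)) (fun _ => 1) (H := 4) (by norm_num)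
  have h3 : ∑ _n ∈ Icc N (2 * N), (1 : ℝ) ^ 2 ≤ 2 * N := by
    rw [one_pow, sum_const, nsmul_one, Nat.card_Icc]
    exact_mod_cast (by omega : 2 * N + 1 - N ≤ 2 * N)
  refine le_trans (le_of_eq rfl) (h1.trans ((mul_le_mul_of_nonneg_left
    (h2.trans (mul_le_mul_of_nonneg_left h3 (by norm_num))) (by positivity)).trans (le_of_eq ?_)))
  push_cast
  ring

theorem yMv : MvStmt := by
  refine ⟨300, by norm_num, fun N T V b hN hV hb => ?_⟩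
  have n1 : (1 : ℝ) ≤ N := by exact_mod_cast hN
  have t0 : (0 : ℝ) ≤ T := by positivity
  have h1 : (DH.cnt N b T V : ℝ) * V ^ 2 ≤
      ∑ t ∈ Icc 0 ((N + T : ℕ) : ℤ), ‖GM.DP N b t‖ ^ 2 := by
    rw [DH.cnt, ← nsmul_eq_mul]
    refine (card_nsmul_le_sum _ (fun t : ℤ => ‖GM.DP N b t‖ ^ 2) _ fun t ht =>
      pow_le_pow_left₀ hV.le (mem_filter.1 ht).2 2).trans
      (sum_le_sum_of_subset_of_nonneg ((filter_subset _ _).trans
        (Icc_subset_Icc_right (by omega))) fun _ _ _ => sq_nonneg _)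
  rw [sum_Icc_YMv (N + T) fun t => ‖GM.DP N b t‖ ^ 2] at h1
  have h2 := mean_YMv hN (Nat.le_add_right N T) hb
  have h3 := pow_le_pow_left₀ (norm_nonneg _) (GM.norm_DP_le N b hb 0) 2
  push_cast at h2
  nlinarith [mul_nonneg t0 (zero_le_one.trans n1)]

end Pool.Agent.MP_c853c5_nt.Z

end

section

set_option autoImplicit false

open Finset

namespace Pool.Agent.MP_c853c5_nt.Z

open Pool.Agent.MP_2a1f0e_nt

lemma real_YRng {A e x y σ : ℝ} (hA : A * (5 - e) = 6) (h9 : 9 / 4 ≤ A) (hx : 0 ≤ x)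
    (hy : 0 ≤ y) (h3 : A * y ≤ 3 * x) (h1 : 1 / 2 ≤ σ) :
    y + (1 - 2 * σ) * x ≤ A * (1 - σ) * y ∨
      (y / 2 + (3 - 4 * σ) * x ≤ A * (1 - σ) * y ∧ y + (e - 4 * σ) * x ≤ A * (1 - σ) * y) := by
  refine (le_or_gt _ _).imp_right fun h => ?_
  have A0 : 0 < A := by linarith
  obtain ⟨u, hu⟩ : ∃ u, u = A * (1 - σ) := ⟨_, rfl⟩
  rw [← hu] at h ⊢
  have k0 : 0 ≤ (2 * σ - 1) * x := mul_nonneg (by linarith) hx
  have k1 : 0 < (1 - u) * y := by linarith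
  have k2 : 0 < 1 - u := lt_of_not_ge fun k => (mul_nonpos_of_nonpos_of_nonneg k hy).not_gt k1
  have k3 := mul_le_mul_of_nonneg_left h3 k2.le
  have k4 : (A - 2 * u) * x < (1 - u) * (A * y) := by
    have := mul_lt_mul_of_pos_left h A0
    have e : (A - 2 * u) * x = A * ((2 * σ - 1) * x) := by rw [hu]; ring
    linarith
  have k5 : (A + u) * x ≤ 3 * x := by linarith
  constructor
  · refine le_of_mul_le_mul_left ?_ A0
    have e : A * ((3 - 4 * σ) * x) = (4 * u - A) * x := by rw [hu]; ring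
    rw [mul_add, e]
    rcases le_total u (1 / 2) with h2 | h2
    · have a1 := mul_le_mul_of_nonneg_left h3 (sub_nonneg.2 h2)
      have a2 := mul_nonneg (show 0 ≤ A - 3 / 2 - u by linarith) hx
      linarith
    · refine le_of_mul_le_mul_left ?_ k2
      have a1 := mul_le_mul_of_nonneg_left k4.le (sub_nonneg.2 h2)
      have a2 := mul_nonneg (show 0 ≤ 2 * (u - 3 / 4) ^ 2 + (A / 2 - 9 / 8) from
        add_nonneg (by positivity) (by linarith)) hx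
      linarith
  · refine le_of_mul_le_mul_left ?_ A0
    have e : A * ((e - 4 * σ) * x) = (A + 4 * u - 6) * x := by
      rw [hu]
      linear_combination -x * hA
    rw [mul_add, e]
    linarith

lemma div_YRng {n σ L V : ℝ} (hn : 0 < n) (hL : 1 ≤ L) (hV : 0 < V) (h : n ^ σ ≤ L * V) (a : ℝ)
    {k : ℕ} (hk : k ≤ 4) : n ^ a / V ^ k ≤ L ^ 4 * n ^ (a - k * σ) := by
  have h1 : (n ^ σ) ^ k ≤ L ^ 4 * V ^ k := by
    refine (pow_le_pow_left₀ (by positivity) h k).trans ?_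
    rw [mul_pow]
    gcongr
  rw [Real.rpow_sub hn, mul_comm (k : ℝ), Real.rpow_mul_natCast hn.le, ← mul_div_assoc,
    div_le_div_iff₀ (by positivity) (by positivity)]
  have := mul_le_mul_of_nonneg_left h1 (show 0 ≤ n ^ a by positivity)
  linarith

lemma pow_YRng {n t a b u : ℝ} (hn : 0 < n) (ht : 0 < t)
    (h : a * Real.log t + b * Real.log n ≤ u * Real.log t) : t ^ a * n ^ b ≤ t ^ u := by
  rw [Real.rpow_def_of_pos hn, Real.rpow_def_of_pos ht, Real.rpow_def_of_pos ht, ← Real.exp_add,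
    Real.exp_le_exp]
  linarith

lemma lv_YRng {N T : ℕ} {V Z : ℝ} {b : ℕ → ℂ}
    (h : ∀ W : Finset ℝ, (∀ t ∈ W, 0 ≤ t ∧ t ≤ T) → (∀ s ∈ W, ∀ t ∈ W, s ≠ t → 1 ≤ |s - t|) →
      (∀ t ∈ W, V ≤ ‖GM.DP N b t‖) → (W.card : ℝ) ≤ Z) : (DH.cnt N b T V : ℝ) ≤ Z := by
  classical
  rw [DH.cnt, ← card_image_of_injective _ (Int.cast_injective (α := ℝ))]
  refine h _ ?_ ?_ ?_
  · simp only [forall_mem_image, mem_filter, mem_Icc]
    exact fun t ht => ⟨by exact_mod_cast ht.1.1, by exact_mod_cast ht.1.2⟩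
  · simp only [forall_mem_image]
    intro s _ t _ hst
    have : s - t ≠ 0 := sub_ne_zero.2 fun h => hst (by rw [h])
    exact_mod_cast Int.one_le_abs this
  · simp only [forall_mem_image, mem_filter]
    exact fun t ht => ht.2

theorem yRng (hM : MvStmt) : RngStmt := by
  obtain ⟨C, hC, hM⟩ := hM
  intro e A hA h9 hL ε hε
  obtain ⟨K, hK⟩ := hL ε hε
  refine ⟨2 * C + 2 * |K|, by positivity, fun N T σ L V b hN hT h3 h1 h2 hL hV hσ hb => ?_⟩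
  have n1 : (1 : ℝ) ≤ N := by exact_mod_cast hN
  have t1 : (1 : ℝ) ≤ T := by exact_mod_cast hT
  have n0 : (0 : ℝ) < N := by linarith
  have t0 : (0 : ℝ) < T := by linarith
  have ε1 : 1 ≤ (N : ℝ) ^ ε := Real.one_le_rpow n1 hε.le
  have m1 : (DH.cnt N b T V : ℝ) ≤ C * ((N : ℝ) ^ 2 / V ^ 2 + T * (N / V ^ 2)) := by
    refine ((le_div_iff₀ (by positivity)).2 (hM N T V b hN hV hb)).trans_eq ?_
    ring
  have d1 := div_YRng n0 hL hV hσ 2 (k := 2) (by norm_num)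
  have d2 := div_YRng n0 hL hV hσ 1 (k := 2) (by norm_num)
  have d3 := div_YRng n0 hL hV hσ 3 (k := 4) le_rfl
  have d4 := div_YRng n0 hL hV hσ e (k := 4) le_rfl
  rw [Real.rpow_two, Nat.cast_ofNat, show 2 - 2 * σ = 2 * (1 - σ) by ring] at d1
  rw [Real.rpow_one, Nat.cast_ofNat] at d2
  rw [Real.rpow_ofNat, Nat.cast_ofNat] at d3
  rw [Nat.cast_ofNat] at d4
  have L0 : 0 ≤ L ^ 4 := by positivity
  have P0 : 0 ≤ L ^ 4 * (T : ℝ) ^ (A * (1 - σ)) := by positivity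
  have Q0 : 0 ≤ L ^ 4 * (N : ℝ) ^ (2 * (1 - σ)) := by positivity
  have fin : ∀ c : ℝ, 0 ≤ c → c ≤ (C + |K|) * (N : ℝ) ^ ε → (DH.cnt N b T V : ℝ) ≤
      c * (2 * (L ^ 4 * (T : ℝ) ^ (A * (1 - σ)) + L ^ 4 * (N : ℝ) ^ (2 * (1 - σ)))) →
      (DH.cnt N b T V : ℝ) ≤ (2 * C + 2 * |K|) * (N : ℝ) ^ ε * L ^ 4 *
        ((T : ℝ) ^ (A * (1 - σ)) + (N : ℝ) ^ (2 * (1 - σ))) := fun c _ hc h =>
    h.trans ((mul_le_mul_of_nonneg_right hc (by positivity)).trans_eq (by ring))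
  have hC' : C ≤ (C + |K|) * (N : ℝ) ^ ε :=
    (le_add_of_nonneg_right (abs_nonneg K)).trans (le_mul_of_one_le_right (by positivity) ε1)
  rcases le_total T N with hTN | hNT
  · refine fin C hC.le hC' (m1.trans (mul_le_mul_of_nonneg_left ?_ hC.le))
    have : (T : ℝ) * (N / V ^ 2) ≤ (N : ℝ) ^ 2 / V ^ 2 := by
      rw [← mul_div_assoc, sq (N : ℝ)]
      gcongr
    linarith
  have hlog : A * Real.log T ≤ 3 * Real.log N := by
    have := Real.log_le_log (by positivity) h3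
    rwa [Real.log_rpow t0, Real.log_pow, Nat.cast_ofNat] at this
  rcases real_YRng hA h9 (Real.log_nonneg n1) (Real.log_nonneg t1) hlog h1 with h | ⟨h, h'⟩
  · refine fin C hC.le hC' (m1.trans (mul_le_mul_of_nonneg_left ?_ hC.le))
    have a1 := pow_YRng (a := 1) (b := 1 - 2 * σ) (u := A * (1 - σ)) n0 t0 (by linarith)
    rw [Real.rpow_one] at a1
    have a2 := mul_le_mul_of_nonneg_left d2 t0.le
    have a3 := mul_le_mul_of_nonneg_left a1 L0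
    linarith
  · refine fin (|K| * (N : ℝ) ^ ε) (by positivity)
      (mul_le_mul_of_nonneg_right (le_add_of_nonneg_left hC.le) (by positivity))
      ((lv_YRng (hK N T V hN (by exact_mod_cast hNT) hV b hb)).trans ?_)
    refine mul_le_mul (mul_le_mul_of_nonneg_right (le_abs_self K) (by positivity)) ?_
      (by positivity) (by positivity)
    have a1 := pow_YRng (a := 1 / 2) (b := 3 - 4 * σ) (u := A * (1 - σ)) n0 t0 (by linarith)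
    have a2 := pow_YRng (a := 1) (b := e - 4 * σ) (u := A * (1 - σ)) n0 t0 (by linarith)
    rw [← Real.sqrt_eq_rpow] at a1
    rw [Real.rpow_one] at a2
    have a3 := mul_le_mul_of_nonneg_left d3 (Real.sqrt_nonneg T)
    have a4 := mul_le_mul_of_nonneg_left d4 t0.le
    have a5 := mul_le_mul_of_nonneg_left a1 L0
    have a6 := mul_le_mul_of_nonneg_left a2 L0
    rw [mul_div_assoc, mul_div_assoc]
    linarith

end Pool.Agent.MP_c853c5_nt.Z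

end

section

set_option autoImplicit false

open Finset

namespace Pool.Agent.MP_c853c5_nt.Z

open Pool.Agent.MP_2a1f0e_nt

lemma dy_YSpl (f : ℕ → ℂ) (M J : ℕ) :
    ∑ j ∈ range (J + 1), ∑ n ∈ Icc (2 ^ j * M) (2 * (2 ^ j * M)),
      (if j = 0 ∨ 2 ^ j * M < n then f n else 0) = ∑ n ∈ Icc M (2 ^ (J + 1) * M), f n := by
  induction J with
  | zero => simp
  | succ J ih =>
    have h1 : M ≤ 2 ^ (J + 1) * M := Nat.le_mul_of_pos_left M (by positivity)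
    rw [sum_range_succ, ih, pow_succ' 2 (J + 1), mul_assoc, ← sum_filter]
    generalize 2 ^ (J + 1) * M = a at *
    rw [← sum_union]
    · refine sum_congr ?_ fun _ _ => rfl
      ext n
      simp only [mem_union, mem_filter, mem_Icc]
      omega
    · rw [disjoint_left]
      intro n h2 h3
      simp only [mem_filter, mem_Icc] at h2 h3
      omega

theorem ySpl : SplStmt := by
  intro N k T Δ V b hN hk hΔ hV hb
  obtain ⟨J, rfl⟩ : ∃ J, k = J + 1 := ⟨k - 1, by omega⟩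
  obtain ⟨d1, d2⟩ := hΔ
  obtain ⟨D, hD'⟩ : ∃ D, D = Δ ^ (J + 1) := ⟨_, rfl⟩
  have hD : 0 < D := by rw [hD']; positivity
  have hc : ∀ n, ‖(tr N b ^ (J + 1)) n‖ ≤ D := fun n => by
    by_cases hn : n ≤ (2 * N) ^ (J + 1)
    · exact (tr_pow_norm N b _ n).trans (hD' ▸ tr_pow_le N b hb d1 d2 _ n hn)
    · rw [tr_pow_supp N b _ n fun h => hn (mem_Icc.1 h).2, norm_zero]
      exact hD.le
  rw [← hD']
  refine ⟨fun j n => if j = 0 ∨ 2 ^ j * N ^ (J + 1) < n then (tr N b ^ (J + 1)) n / D else 0,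
    fun j n => ?_, ?_⟩
  · dsimp only
    split_ifs
    · rw [norm_div, Complex.norm_real, Real.norm_of_nonneg hD.le]
      exact div_le_one_of_le₀ (hc n) hD.le
    · simp
  refine le_trans (card_le_card fun t ht => ?_) card_biUnion_le
  obtain ⟨ht, hVt⟩ := mem_filter.1 ht
  have h2 : ∑ j ∈ range (J + 1), GM.DP (2 ^ j * N ^ (J + 1))
      (fun n => if j = 0 ∨ 2 ^ j * N ^ (J + 1) < n then (tr N b ^ (J + 1)) n / D else 0) t =
      GM.DP N b t ^ (J + 1) / D := by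
    have h1 := dy_YSpl (fun n => (tr N b ^ (J + 1)) n * GM.pw n t / D) (N ^ (J + 1)) J
    rw [← sum_div, ← mul_pow, tr_pow_sum hN b (fun n => GM.pw n t) (fun x y hx hy => by
      rw [Nat.cast_mul, GM.pw_mul (by exact_mod_cast hx) (by exact_mod_cast hy)])
      (by rw [Nat.cast_one, GM.pw_one]) (J + 1)] at h1
    refine Eq.trans (sum_congr rfl fun j _ => sum_congr rfl fun n _ => ?_) h1
    dsimp only
    split_ifs
    · rw [div_mul_eq_mul_div]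
    · rw [zero_mul]
  have h3 : ∑ _j ∈ range (J + 1), V ^ (J + 1) / (((J + 1 : ℕ) : ℝ) * D) ≤
      ∑ j ∈ range (J + 1), ‖GM.DP (2 ^ j * N ^ (J + 1))
        (fun n => if j = 0 ∨ 2 ^ j * N ^ (J + 1) < n then (tr N b ^ (J + 1)) n / D else 0) t‖ := by
    refine le_trans ?_ (norm_sum_le _ _)
    rw [h2, norm_div, norm_pow, Complex.norm_real, Real.norm_of_nonneg hD.le, sum_const,
      card_range, nsmul_eq_mul, ← mul_div_assoc, mul_div_mul_left _ _ (by positivity)]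
    gcongr
  obtain ⟨j, hj, h4⟩ := exists_le_of_sum_le nonempty_range_add_one h3
  exact mem_biUnion.2 ⟨j, hj, mem_filter.2 ⟨ht, h4⟩⟩

end Pool.Agent.MP_c853c5_nt.Z

end

section

set_option autoImplicit false

open Finset

namespace Pool.Agent.MP_c853c5_nt.Z

open Pool.Agent.MP_2a1f0e_nt

/-- choice of the power -/
theorem pick_YLv {A η T N : ℝ} {k₀ : ℕ} (hA : 9 / 4 ≤ A) (hη : 0 < η) (hη' : η ≤ 1 / 20)
    (hk2 : 2 ≤ k₀) (hk : 2 * A ≤ η * (3 * k₀)) (hT : 2 ≤ T) (hN : T ^ η ≤ N)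
    (hN' : N ≤ 6 * T ^ (1 / 2 + η)) :
    ∃ k : ℕ, 2 ≤ k ∧ k ≤ k₀ ∧ (2 * T) ^ A ≤ N ^ (3 * k) ∧ N ^ (2 * k) ≤ 6 ^ 4 * (2 * T) ^ A := by
  classical
  have hT0 : 0 < T := by linarith
  have hT1 : 1 ≤ T := by linarith
  have hN1 : 1 ≤ N := (Real.one_le_rpow hT1 hη.le).trans hN
  have hpos : 0 < (2 * T) ^ A := Real.rpow_pos_of_pos (by linarith) _
  have ex : (2 * T) ^ A ≤ N ^ (3 * k₀) := by
    calc (2 * T) ^ A ≤ (T ^ (2 : ℝ)) ^ A := by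
          apply Real.rpow_le_rpow (by linarith) _ (by linarith)
          rw [Real.rpow_two]
          nlinarith
      _ = T ^ (2 * A) := by rw [← Real.rpow_mul hT0.le]
      _ ≤ T ^ (η * ((3 * k₀ : ℕ) : ℝ)) := by
          apply Real.rpow_le_rpow_of_exponent_le hT1
          push_cast
          exact hk
      _ = (T ^ η) ^ (3 * k₀) := by rw [Real.rpow_mul hT0.le, Real.rpow_natCast]
      _ ≤ N ^ (3 * k₀) := pow_le_pow_left₀ (Real.rpow_nonneg hT0.le _) hN _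
  have hex : ∃ k : ℕ, (2 * T) ^ A ≤ N ^ (3 * k) := ⟨k₀, ex⟩
  have s1 := Nat.find_spec hex
  have s2 : Nat.find hex ≤ k₀ := Nat.find_min' hex ex
  by_cases h : Nat.find hex ≤ 2
  · refine ⟨2, le_rfl, hk2, s1.trans (pow_le_pow_right₀ hN1 (by omega)), ?_⟩
    calc N ^ (2 * 2) ≤ (6 * T ^ (1 / 2 + η)) ^ (2 * 2) := pow_le_pow_left₀ (by linarith) hN' _
      _ = 6 ^ 4 * T ^ ((1 / 2 + η) * ((4 : ℕ) : ℝ)) := by
          rw [Real.rpow_mul hT0.le, Real.rpow_natCast, mul_pow]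
      _ ≤ 6 ^ 4 * T ^ A := by
          apply mul_le_mul_of_nonneg_left _ (by norm_num)
          apply Real.rpow_le_rpow_of_exponent_le hT1
          push_cast
          linarith
      _ ≤ 6 ^ 4 * (2 * T) ^ A := by
          apply mul_le_mul_of_nonneg_left _ (by norm_num)
          exact Real.rpow_le_rpow hT0.le (by linarith) (by linarith)
  · refine ⟨Nat.find hex, by omega, s2, s1, ?_⟩
    have s3 := Nat.find_min hex (m := Nat.find hex - 1) (by omega)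
    have s4 : N ^ (2 * Nat.find hex) ≤ N ^ (3 * (Nat.find hex - 1)) :=
      pow_le_pow_right₀ hN1 (by omega)
    rw [not_le] at s3
    nlinarith

/-- the two terms of the bound -/
theorem terms_YLv {A σ T M B : ℝ} (hA : 0 ≤ A) (hσ : 1 / 2 ≤ σ) (hσ' : σ ≤ 1) (hT : 0 < T)
    (hM : 0 ≤ M) (hB : 1 ≤ B) (h : M ^ 2 ≤ B * (2 * T) ^ A) :
    (2 * T) ^ (A * (1 - σ)) + M ^ (2 * (1 - σ)) ≤ (1 + B) * (2 : ℝ) ^ A * T ^ (A * (1 - σ)) := by
  have h1 : M ^ (2 * (1 - σ)) ≤ B * (2 * T) ^ (A * (1 - σ)) := by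
    calc M ^ (2 * (1 - σ)) = (M ^ 2) ^ (1 - σ) := by rw [Real.rpow_mul hM, Real.rpow_two]
      _ ≤ (B * (2 * T) ^ A) ^ (1 - σ) := Real.rpow_le_rpow (by positivity) h (by linarith)
      _ = B ^ (1 - σ) * (2 * T) ^ (A * (1 - σ)) := by
          rw [Real.mul_rpow (by linarith) (by positivity), ← Real.rpow_mul (by positivity)]
      _ ≤ B * (2 * T) ^ (A * (1 - σ)) := by
          apply mul_le_mul_of_nonneg_right _ (by positivity)
          calc B ^ (1 - σ) ≤ B ^ (1 : ℝ) := Real.rpow_le_rpow_of_exponent_le hB (by linarith)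
            _ = B := Real.rpow_one B
  have h2 : (2 * T) ^ (A * (1 - σ)) ≤ (2 : ℝ) ^ A * T ^ (A * (1 - σ)) := by
    rw [Real.mul_rpow (by norm_num) hT.le]
    apply mul_le_mul_of_nonneg_right _ (by positivity)
    apply Real.rpow_le_rpow_of_exponent_le (by norm_num)
    nlinarith
  calc (2 * T) ^ (A * (1 - σ)) + M ^ (2 * (1 - σ)) ≤ (1 + B) * (2 * T) ^ (A * (1 - σ)) := by
        linarith
    _ ≤ (1 + B) * ((2 : ℝ) ^ A * T ^ (A * (1 - σ))) :=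
        mul_le_mul_of_nonneg_left h2 (by linarith)
    _ = _ := by ring

/-- the size condition for the power -/
theorem size_YLv {N σ lam V Δ : ℝ} {i k : ℕ} (hN : 0 ≤ N) (hσ' : σ ≤ 1)
    (hΔ : 0 < Δ) (hk : 1 ≤ k) (hi : i ≤ k) (h : N ^ σ ≤ lam * V) :
    (2 ^ i * N ^ k) ^ σ ≤ (k * 2 ^ k * lam ^ k * Δ ^ k) * (V ^ k / (k * Δ ^ k)) := by
  have hk' : (0 : ℝ) < k := by exact_mod_cast hk
  have e : (k * 2 ^ k * lam ^ k * Δ ^ k) * (V ^ k / (k * Δ ^ k)) = 2 ^ k * (lam * V) ^ k := by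
    rw [mul_pow]
    field_simp
  rw [e, Real.mul_rpow (by positivity) (by positivity)]
  have h1 : ((2 : ℝ) ^ i) ^ σ ≤ 2 ^ k := by
    calc ((2 : ℝ) ^ i) ^ σ ≤ ((2 : ℝ) ^ i) ^ (1 : ℝ) :=
          Real.rpow_le_rpow_of_exponent_le (one_le_pow₀ (by norm_num)) hσ'
      _ = 2 ^ i := Real.rpow_one _
      _ ≤ 2 ^ k := pow_le_pow_right₀ (by norm_num) hi
  have h2 : (N ^ k) ^ σ ≤ (lam * V) ^ k := by
    rw [← Real.rpow_natCast_mul hN, mul_comm, Real.rpow_mul_natCast hN]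
    exact pow_le_pow_left₀ (Real.rpow_nonneg hN _) h _
  exact mul_le_mul h1 h2 (by positivity) (by positivity)

theorem yLv (hS : SplStmt) : LvStmt := by
  intro A hA hR η hη hη'
  obtain ⟨k₀, hk2, hk⟩ : ∃ k₀ : ℕ, 2 ≤ k₀ ∧ 2 * A ≤ η * (3 * k₀) := by
    refine ⟨max 2 ⌈2 * A / (3 * η)⌉₊, le_max_left _ _, ?_⟩
    have h1 : 2 * A / (3 * η) ≤ ((max 2 ⌈2 * A / (3 * η)⌉₊ : ℕ) : ℝ) :=
      (Nat.le_ceil _).trans (by exact_mod_cast le_max_right _ _)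
    rw [div_le_iff₀ (by positivity)] at h1
    linarith
  refine ⟨4 * k₀, fun ε hε => ?_⟩
  have hk0 : (0 : ℝ) < k₀ := by exact_mod_cast (by omega : 0 < k₀)
  obtain ⟨e, he, hee⟩ : ∃ e : ℝ, 0 < e ∧ (k₀ : ℝ) * (e * ((1 + 4 * k₀ : ℕ) : ℝ)) = ε := by
    refine ⟨ε / (k₀ * ((1 + 4 * k₀ : ℕ) : ℝ)), by positivity, ?_⟩
    have : (0 : ℝ) < ((1 + 4 * k₀ : ℕ) : ℝ) := by positivity
    field_simp
  obtain ⟨K₁, hK₁, hR⟩ := hR e he
  obtain ⟨C, hC, hD⟩ := DH.exists_DivB he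
  refine ⟨k₀ * (K₁ * (k₀ * 2 ^ k₀ * C ^ k₀) ^ 4 * ((1 + 4 ^ k₀ * 6 ^ 4) * (2 : ℝ) ^ A) *
    (12 : ℝ) ^ ε), by positivity, ?_⟩
  intro N T σ lam V b hT hN hN' hσ hσ' hlam hV hNV hb
  have hT2 : (2 : ℝ) ≤ T := by exact_mod_cast hT
  have hT0 : (0 : ℝ) < T := by linarith
  have hT1 : (1 : ℝ) ≤ T := by linarith
  have hN1 : (1 : ℝ) ≤ N := (Real.one_le_rpow hT1 hη.le).trans hN
  have hN1' : 1 ≤ N := by exact_mod_cast hN1
  obtain ⟨k, k2, kk, p1, p2⟩ := pick_YLv hA hη hη' hk2 hk hT2 hN hN'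
  have k1 : 1 ≤ k := by omega
  have k1' : (1 : ℝ) ≤ k := by exact_mod_cast k1
  have kk' : (k : ℝ) ≤ k₀ := by exact_mod_cast kk
  have hX : 1 ≤ (2 * N) ^ k := Nat.one_le_pow _ _ (by omega)
  have hdiv := hD _ hX
  obtain ⟨Δ, hΔ⟩ : ∃ Δ : ℝ, Δ = C * (((2 * N) ^ k : ℕ) : ℝ) ^ e := ⟨_, rfl⟩
  rw [← hΔ] at hdiv
  have hΔ1 : 1 ≤ Δ := hdiv.1
  obtain ⟨c, hc, hcnt⟩ := hS N k (2 * T) Δ V b hN1' k1 hdiv hV hb
  have hNT : (N : ℝ) ≤ 6 * T := by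
    refine hN'.trans (mul_le_mul_of_nonneg_left ?_ (by norm_num))
    calc (T : ℝ) ^ (1 / 2 + η) ≤ (T : ℝ) ^ (1 : ℝ) :=
          Real.rpow_le_rpow_of_exponent_le hT1 (by linarith)
      _ = T := Real.rpow_one _
  have hY : (2 * (N : ℝ)) ^ k ≤ (12 * (T : ℝ)) ^ k₀ :=
    (pow_le_pow_left₀ (by positivity) (by linarith) k).trans
      (pow_le_pow_right₀ (by linarith) kk)
  obtain ⟨y, hy⟩ : ∃ y : ℝ, y = ((12 * (T : ℝ)) ^ k₀) ^ e := ⟨_, rfl⟩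
  have hy1 : 1 ≤ y := by
    rw [hy]
    exact Real.one_le_rpow (one_le_pow₀ (by linarith)) he.le
  have hyy : y ^ (1 + 4 * k₀) = (12 : ℝ) ^ ε * (T : ℝ) ^ ε := by
    rw [hy, ← Real.rpow_natCast_mul (by positivity), ← Real.rpow_mul_natCast (by positivity),
      mul_assoc, hee, Real.mul_rpow (by norm_num) hT0.le]
  have hΔy : Δ ≤ C * y := by
    rw [hΔ, hy]
    apply mul_le_mul_of_nonneg_left _ (by linarith)
    apply Real.rpow_le_rpow (by positivity) _ he.le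
    push_cast
    exact hY
  obtain ⟨L, hL⟩ : ∃ L : ℝ, L = k * 2 ^ k * lam ^ k * Δ ^ k := ⟨_, rfl⟩
  have hL1 : 1 ≤ L := by
    rw [hL]
    exact one_le_mul_of_one_le_of_one_le (one_le_mul_of_one_le_of_one_le
      (one_le_mul_of_one_le_of_one_le k1' (one_le_pow₀ (by norm_num))) (one_le_pow₀ hlam))
      (one_le_pow₀ hΔ1)
  have hL2 : L ≤ (k₀ * 2 ^ k₀ * C ^ k₀) * (lam ^ k₀ * y ^ k₀) := by
    have a1 : (2 : ℝ) ^ k ≤ 2 ^ k₀ := pow_le_pow_right₀ (by norm_num) kk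
    have a2 : lam ^ k ≤ lam ^ k₀ := pow_le_pow_right₀ hlam kk
    have a3 : Δ ^ k ≤ (C * y) ^ k₀ :=
      (pow_le_pow_right₀ hΔ1 kk).trans (pow_le_pow_left₀ (by linarith) hΔy _)
    calc L = k * 2 ^ k * lam ^ k * Δ ^ k := hL
      _ ≤ k₀ * 2 ^ k₀ * lam ^ k₀ * (C * y) ^ k₀ := by gcongr
      _ = _ := by rw [mul_pow]; ring
  have each : ∀ i ∈ range k,
      (DH.cnt (2 ^ i * N ^ k) (c i) (2 * T) (V ^ k / (k * Δ ^ k)) : ℝ) ≤
        K₁ * (k₀ * 2 ^ k₀ * C ^ k₀) ^ 4 * ((1 + 4 ^ k₀ * 6 ^ 4) * (2 : ℝ) ^ A) * (12 : ℝ) ^ ε *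
          lam ^ (4 * k₀) * (T : ℝ) ^ (A * (1 - σ) + ε) := by
    intro i hi
    have hik : i ≤ k := (mem_range.1 hi).le
    have hM1 : 1 ≤ 2 ^ i * N ^ k :=
      Nat.mul_pos (Nat.pos_of_ne_zero (by positivity)) (Nat.pos_of_ne_zero (by positivity))
    have eM : ((2 ^ i * N ^ k : ℕ) : ℝ) = 2 ^ i * (N : ℝ) ^ k := by push_cast; ring
    have eT : ((2 * T : ℕ) : ℝ) = 2 * (T : ℝ) := by push_cast; ring
    have b1 : (1 : ℝ) ≤ 2 ^ i := one_le_pow₀ (by norm_num)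
    have b2 : (2 : ℝ) ^ i ≤ 2 ^ k := pow_le_pow_right₀ (by norm_num) hik
    have b3 : (2 : ℝ) ^ i ≤ 2 ^ k₀ := pow_le_pow_right₀ (by norm_num) (hik.trans kk)
    have q1 : ((2 * T : ℕ) : ℝ) ^ A ≤ ((2 ^ i * N ^ k : ℕ) : ℝ) ^ 3 := by
      rw [eM, eT]
      refine p1.trans ?_
      rw [mul_comm 3 k, pow_mul]
      exact pow_le_pow_left₀ (by positivity) (le_mul_of_one_le_left (by positivity) b1) 3
    have q2 : ((2 ^ i * N ^ k : ℕ) : ℝ) ^ σ ≤ L * (V ^ k / (k * Δ ^ k)) := by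
      rw [eM, hL]
      exact size_YLv (by positivity) hσ' (by linarith) k1 hik hNV
    have r := hR (2 ^ i * N ^ k) (2 * T) σ L (V ^ k / (k * Δ ^ k)) (c i) hM1 (by omega) q1 hσ hσ'
      hL1 (by positivity) q2 (hc i)
    rw [eM, eT] at r
    have q3 : (2 ^ i * (N : ℝ) ^ k) ^ 2 ≤ 4 ^ k₀ * 6 ^ 4 * (2 * (T : ℝ)) ^ A := by
      have a1 : ((2 : ℝ) ^ i) ^ 2 ≤ 4 ^ k₀ := by
        calc ((2 : ℝ) ^ i) ^ 2 ≤ ((2 : ℝ) ^ k₀) ^ 2 := pow_le_pow_left₀ (by positivity) b3 2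
          _ = 4 ^ k₀ := by rw [← pow_mul, mul_comm, pow_mul]; norm_num
      rw [mul_pow, ← pow_mul (N : ℝ), mul_comm k 2, mul_assoc]
      exact mul_le_mul a1 p2 (by positivity) (by positivity)
    have q4 := terms_YLv (by linarith) hσ hσ' hT0 (by positivity)
      (one_le_mul_of_one_le_of_one_le (one_le_pow₀ (by norm_num)) (by norm_num)) q3
    have q5 : (2 ^ i * (N : ℝ) ^ k) ^ e ≤ y := by
      rw [hy]
      apply Real.rpow_le_rpow (by positivity) _ he.le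
      refine le_trans ?_ hY
      rw [mul_pow]
      exact mul_le_mul_of_nonneg_right b2 (by positivity)
    have q6 : L ^ 4 ≤ ((k₀ * 2 ^ k₀ * C ^ k₀) * (lam ^ k₀ * y ^ k₀)) ^ 4 :=
      pow_le_pow_left₀ (by linarith) hL2 4
    refine r.trans ?_
    calc K₁ * (2 ^ i * (N : ℝ) ^ k) ^ e * L ^ 4 *
          ((2 * (T : ℝ)) ^ (A * (1 - σ)) + (2 ^ i * (N : ℝ) ^ k) ^ (2 * (1 - σ)))
        ≤ K₁ * y * ((k₀ * 2 ^ k₀ * C ^ k₀) * (lam ^ k₀ * y ^ k₀)) ^ 4 *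
          ((1 + 4 ^ k₀ * 6 ^ 4) * (2 : ℝ) ^ A * (T : ℝ) ^ (A * (1 - σ))) := by gcongr
      _ = K₁ * (k₀ * 2 ^ k₀ * C ^ k₀) ^ 4 * ((1 + 4 ^ k₀ * 6 ^ 4) * (2 : ℝ) ^ A) *
          y ^ (1 + 4 * k₀) * lam ^ (4 * k₀) * (T : ℝ) ^ (A * (1 - σ)) := by ring
      _ = _ := by rw [hyy, Real.rpow_add hT0]; ring
  have hcnt' : (DH.cnt N b (2 * T) V : ℝ) ≤ ∑ i ∈ range k,
      (DH.cnt (2 ^ i * N ^ k) (c i) (2 * T) (V ^ k / (k * Δ ^ k)) : ℝ) := by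
    exact_mod_cast hcnt
  refine hcnt'.trans ((sum_le_card_nsmul _ _ _ each).trans ?_)
  rw [card_range, nsmul_eq_mul]
  calc _ ≤ (k₀ : ℝ) * (K₁ * (k₀ * 2 ^ k₀ * C ^ k₀) ^ 4 * ((1 + 4 ^ k₀ * 6 ^ 4) * (2 : ℝ) ^ A) *
        (12 : ℝ) ^ ε * lam ^ (4 * k₀) * (T : ℝ) ^ (A * (1 - σ) + ε)) :=
        mul_le_mul_of_nonneg_right kk' (by positivity)
    _ = _ := by ring

end Pool.Agent.MP_c853c5_nt.Z

end

section

/-!
From the dyadic zero density bound to the bound with multiplicity.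
-/

set_option autoImplicit false

open Finset

namespace Pool.Agent.MP_c853c5_nt.Z

open Pool.Agent.MP_2a1f0e_nt

lemma log_YZd {δ : ℝ} (hδ : 0 < δ) :
    ∃ D : ℝ, 0 ≤ D ∧ ∀ T : ℝ, 1 ≤ T → Real.log (T + 5) ≤ D * T ^ δ := by
  refine ⟨6 ^ δ / δ, by positivity, fun T hT => ?_⟩
  have h1 := Real.log_le_rpow_div (x := T + 5) (by linarith) hδ
  have h2 : (T + 5) ^ δ ≤ (6 * T) ^ δ := Real.rpow_le_rpow (by linarith) (by linarith) hδ.le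
  rw [Real.mul_rpow (by norm_num) (by linarith)] at h2
  calc _ ≤ _ := h1
    _ ≤ 6 ^ δ * T ^ δ / δ := div_le_div_of_nonneg_right h2 hδ.le
    _ = _ := by ring

lemma fib_YZd {C T : ℝ} (hC : 1 ≤ C)
    (hc : ∀ (j : ℤ) (Z : Finset ℂ), (∀ ρ ∈ Z, 1 / 2 ≤ ρ.re ∧ ⌊ρ.im⌋ = j) →
      ∑ ρ ∈ Z, ord ρ ≤ C * Real.log (|(j : ℝ)| + 4))
    (hT : 1 ≤ T) (Z : Finset ℂ) (t : Finset ℤ)
    (hZ : ∀ ρ ∈ Z, 1 / 2 ≤ ρ.re ∧ |ρ.im| ≤ T ∧ ⌊ρ.im⌋ ∈ t) :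
    ∑ ρ ∈ Z, ord ρ ≤ t.card * (C * Real.log (T + 5)) := by
  classical
  have hL : 0 ≤ C * Real.log (T + 5) := mul_nonneg (by linarith) (Real.log_nonneg (by linarith))
  rw [← sum_fiberwise_of_maps_to (g := fun ρ : ℂ => ⌊ρ.im⌋) (t := t) fun ρ hρ => (hZ ρ hρ).2.2]
  refine (sum_le_card_nsmul _ _ (C * Real.log (T + 5)) fun j _ => ?_).trans (by rw [nsmul_eq_mul])
  rcases (Z.filter fun ρ : ℂ => ⌊ρ.im⌋ = j).eq_empty_or_nonempty with he | ⟨ρ, hρ⟩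
  · rw [he, sum_empty]
    exact hL
  refine (hc j _ fun z hz => ⟨(hZ z (mem_filter.1 hz).1).1, (mem_filter.1 hz).2⟩).trans ?_
  obtain ⟨a, b⟩ := mem_filter.1 hρ
  obtain ⟨c, d⟩ := abs_le.1 (hZ ρ a).2.1
  have i1 := Int.floor_le ρ.im
  have i2 := Int.lt_floor_add_one ρ.im
  rw [b] at i1 i2
  have i3 : |(j : ℝ)| ≤ T + 1 := abs_le.2 ⟨by linarith, by linarith⟩
  exact mul_le_mul_of_nonneg_left (Real.log_le_log (by positivity) (by linarith)) (by linarith)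

lemma floor_YZd (x : ℝ) : ⌊x⌋ ∈ ({⌊|x|⌋, -⌊|x|⌋, -⌊|x|⌋ - 1} : Finset ℤ) := by
  simp only [mem_insert, mem_singleton]
  rcases le_total 0 x with h | h
  · left
    rw [abs_of_nonneg h]
  · rw [abs_of_nonpos h]
    have i1 := Int.floor_le x
    have i2 := Int.lt_floor_add_one x
    have i3 := Int.floor_le (-x)
    have i4 := Int.lt_floor_add_one (-x)
    have j1 : ⌊x⌋ ≤ -⌊-x⌋ := by
      have : (⌊x⌋ : ℝ) ≤ -(⌊-x⌋ : ℝ) := by linarith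
      exact_mod_cast this
    have j2 : -⌊-x⌋ - 1 < ⌊x⌋ + 1 := by
      have : -(⌊-x⌋ : ℝ) - 1 < (⌊x⌋ : ℝ) + 1 := by linarith
      exact_mod_cast this
    omega

lemma sum_YZd {C T : ℝ} (hC : 1 ≤ C)
    (hc : ∀ (j : ℤ) (Z : Finset ℂ), (∀ ρ ∈ Z, 1 / 2 ≤ ρ.re ∧ ⌊ρ.im⌋ = j) →
      ∑ ρ ∈ Z, ord ρ ≤ C * Real.log (|(j : ℝ)| + 4))
    (hT : 1 ≤ T) (Z : Finset ℂ) (hZ : ∀ ρ ∈ Z, 1 / 2 ≤ ρ.re ∧ |ρ.im| ≤ T) :
    ∑ ρ ∈ Z, ord ρ ≤
      ((Z.image fun ρ : ℂ => ⌊|ρ.im|⌋).card : ℝ) * (3 * (C * Real.log (T + 5))) := by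
  classical
  have hL : 0 ≤ C * Real.log (T + 5) := mul_nonneg (by linarith) (Real.log_nonneg (by linarith))
  refine (fib_YZd hC hc hT Z ((Z.image fun ρ : ℂ => ⌊|ρ.im|⌋).biUnion
    fun m => ({m, -m, -m - 1} : Finset ℤ)) fun ρ hρ => ⟨(hZ ρ hρ).1, (hZ ρ hρ).2,
      mem_biUnion.2 ⟨_, mem_image_of_mem _ hρ, floor_YZd _⟩⟩).trans ?_
  rw [← mul_assoc _ (3 : ℝ)]
  refine mul_le_mul_of_nonneg_right ?_ hL
  have := card_biUnion_le_card_mul (Z.image fun ρ : ℂ => ⌊|ρ.im|⌋)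
    (fun m => ({m, -m, -m - 1} : Finset ℤ)) 3 fun m _ => card_le_three
  exact_mod_cast this

lemma card_YZd {σ K e T : ℝ} {T₁ : ℕ} (h1 : 1 ≤ T₁) (hK : 0 ≤ K) (he : 0 ≤ e) (hT : 1 ≤ T)
    (hd : ∀ U : ℕ, T₁ ≤ U → ∀ (S : Finset ℤ) (ρ : ℤ → ℂ), S ⊆ Icc (U : ℤ) (2 * U) →
      DH.Box σ S ρ → (∀ m ∈ S, riemannZeta (ρ m) = 0) → (S.card : ℝ) ≤ K * (U : ℝ) ^ e)
    (S : Finset ℤ) (r : ℤ → ℂ) (hS : ∀ m ∈ S, 0 ≤ m ∧ (m : ℝ) ≤ T) (hb : DH.Box σ S r)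
    (hz : ∀ m ∈ S, riemannZeta (r m) = 0) :
    (S.card : ℝ) ≤ T₁ + ((Nat.log 2 ⌊T⌋₊ : ℝ) + 1) * (K * T ^ e) := by
  classical
  have hB : 0 ≤ K * T ^ e := mul_nonneg hK (Real.rpow_nonneg (by linarith) _)
  rw [← card_filter_add_card_filter_not (s := S) (fun m : ℤ => m < (T₁ : ℤ)), Nat.cast_add]
  refine add_le_add ?_ ?_
  · have : (S.filter fun m : ℤ => m < (T₁ : ℤ)).card ≤ (Ico (0 : ℤ) T₁).card :=
      card_le_card fun m hm => mem_Ico.2 ⟨(hS m (mem_filter.1 hm).1).1, (mem_filter.1 hm).2⟩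
    rw [Int.card_Ico] at this
    simp only [sub_zero, Int.toNat_natCast] at this
    exact_mod_cast this
  · set Sh := S.filter (fun m : ℤ => ¬ m < (T₁ : ℤ)) with hSh
    have hm : ∀ m ∈ Sh, T₁ ≤ m.toNat ∧ m.toNat ≤ ⌊T⌋₊ ∧ (m.toNat : ℤ) = m := by
      intro m hm
      obtain ⟨a, b⟩ := mem_filter.1 hm
      obtain ⟨c, d⟩ := hS m a
      have e1 : (m.toNat : ℤ) = m := Int.toNat_of_nonneg c
      refine ⟨by omega, Nat.le_floor ?_, e1⟩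
      have : ((m.toNat : ℤ) : ℝ) = m := by rw [e1]
      rw [Int.cast_natCast] at this
      rw [this]
      exact d
    rw [card_eq_sum_card_fiberwise (f := fun m : ℤ => Nat.log 2 (m.toNat / T₁))
      (t := range (Nat.log 2 ⌊T⌋₊ + 1)) (fun m hm' => mem_coe.2 (mem_range.2 (Nat.lt_succ_of_le
        (Nat.log_mono_right ((Nat.div_le_self _ _).trans (hm m (mem_coe.1 hm')).2.1))))),
      Nat.cast_sum]
    refine (sum_le_card_nsmul _ _ (K * T ^ e) fun k _ => ?_).trans ?_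
    · rcases (Sh.filter fun m => Nat.log 2 (m.toNat / T₁) = k).eq_empty_or_nonempty with h0 | hne
      · rw [h0, card_empty, Nat.cast_zero]
        exact hB
      have hk : ∀ m ∈ Sh.filter fun m => Nat.log 2 (m.toNat / T₁) = k,
          2 ^ k * T₁ ≤ m.toNat ∧ m.toNat ≤ 2 * (2 ^ k * T₁) := by
        intro m hm'
        obtain ⟨a, b⟩ := mem_filter.1 hm'
        have q0 : m.toNat / T₁ ≠ 0 := (Nat.div_pos (hm m a).1 h1).ne'
        have q1 := Nat.pow_log_le_self 2 q0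
        have q2 := Nat.lt_pow_succ_log_self (b := 2) (by norm_num) (m.toNat / T₁)
        rw [b] at q1 q2
        refine ⟨(Nat.le_div_iff_mul_le h1).1 q1, ?_⟩
        have q3 := ((Nat.div_lt_iff_lt_mul h1).1 q2).le
        rw [pow_succ] at q3
        linarith
      have hkT : ((2 ^ k * T₁ : ℕ) : ℝ) ≤ T := by
        obtain ⟨m, hm'⟩ := hne
        have := (hk m hm').1.trans (hm m (mem_filter.1 hm').1).2.1
        exact le_trans (by exact_mod_cast this) (Nat.floor_le (by linarith))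
      have hle : T₁ ≤ 2 ^ k * T₁ := Nat.le_mul_of_pos_left _ (by positivity)
      have hsub : ∀ m ∈ Sh.filter fun m => Nat.log 2 (m.toNat / T₁) = k, m ∈ S :=
        fun m hm' => (mem_filter.1 (mem_filter.1 hm').1).1
      refine (hd _ hle _ r (fun m hm' => ?_) (fun m hm' => hb m (hsub m hm'))
        fun m hm' => hz m (hsub m hm')).trans ?_
      · obtain ⟨d1, d2⟩ := hk m hm'
        rw [← (hm m (mem_filter.1 hm').1).2.2]
        exact mem_Icc.2 ⟨by exact_mod_cast d1, by exact_mod_cast d2⟩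
      · exact mul_le_mul_of_nonneg_left (Real.rpow_le_rpow (Nat.cast_nonneg _) hkT he) hK
    · rw [card_range, nsmul_eq_mul]
      push_cast
      exact le_rfl

/-- representatives in the upper half plane -/
lemma rep_YZd (σ : ℝ) (Z : Finset ℂ) (hZ : ∀ ρ ∈ Z, riemannZeta₁ ρ = 0 ∧ σ ≤ ρ.re) :
    ∃ r : ℤ → ℂ, DH.Box σ (Z.image fun ρ : ℂ => ⌊|ρ.im|⌋) r ∧
      ∀ m ∈ Z.image fun ρ : ℂ => ⌊|ρ.im|⌋, riemannZeta (r m) = 0 := by
  classical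
  have hex : ∀ m : ℤ, ∃ z : ℂ, m ∈ (Z.image fun ρ : ℂ => ⌊|ρ.im|⌋) →
      (σ ≤ z.re ∧ z.re ≤ 1 ∧ (m : ℝ) ≤ z.im ∧ z.im ≤ (m : ℝ) + 1) ∧ riemannZeta z = 0 := by
    intro m
    by_cases hm : m ∈ Z.image fun ρ : ℂ => ⌊|ρ.im|⌋
    · obtain ⟨ρ, h, h'⟩ := mem_image.1 hm
      obtain ⟨a, b⟩ := hZ ρ h
      have i1 := Int.floor_le |ρ.im|
      have i2 := (Int.lt_floor_add_one |ρ.im|).le
      rw [h'] at i1 i2
      rcases le_total 0 ρ.im with c | c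
      · rw [abs_of_nonneg c] at i1 i2
        exact ⟨ρ, fun _ => ⟨⟨b, (re_lt_one a).le, i1, i2⟩, zeta_of_zeta1 a⟩⟩
      · rw [abs_of_nonpos c] at i1 i2
        refine ⟨(starRingEnd ℂ) ρ, fun _ => ⟨?_, ?_⟩⟩
        · rw [Complex.conj_re, Complex.conj_im]
          exact ⟨b, (re_lt_one a).le, i1, i2⟩
        · rw [riemannZeta_conj, zeta_of_zeta1 a, map_zero]
    · exact ⟨0, fun h => absurd h hm⟩
  choose r hr using hex
  exact ⟨r, fun m hm => (hr m hm).1, fun m hm => (hr m hm).2⟩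

lemma rng_YZd {T : ℝ} (Z : Finset ℂ) (hZ : ∀ ρ ∈ Z, |ρ.im| ≤ T) :
    ∀ m ∈ Z.image fun ρ : ℂ => ⌊|ρ.im|⌋, 0 ≤ m ∧ (m : ℝ) ≤ T := by
  intro m hm
  obtain ⟨ρ, h, rfl⟩ := mem_image.1 hm
  exact ⟨Int.floor_nonneg.2 (abs_nonneg _), (Int.floor_le _).trans (hZ ρ h)⟩

lemma triv_YZd {T : ℝ} (hT : 1 ≤ T) (S : Finset ℤ) (hS : ∀ m ∈ S, 0 ≤ m ∧ (m : ℝ) ≤ T) :
    (S.card : ℝ) ≤ 2 * T := by
  have h1 : S.card ≤ (Icc (0 : ℤ) (⌊T⌋₊ : ℤ)).card := by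
    refine card_le_card fun m hm => mem_Icc.2 ⟨(hS m hm).1, ?_⟩
    rw [Int.natCast_floor_eq_floor (by linarith)]
    exact Int.le_floor.2 (hS m hm).2
  rw [Int.card_Icc] at h1
  have h2 : ((⌊T⌋₊ : ℤ) + 1 - 0).toNat = ⌊T⌋₊ + 1 := by omega
  rw [h2] at h1
  have h3 : (S.card : ℝ) ≤ (⌊T⌋₊ : ℝ) + 1 := by exact_mod_cast h1
  have h4 : (⌊T⌋₊ : ℝ) ≤ T := Nat.floor_le (by linarith)
  linarith

theorem yZd (hC : CntStmt) : ZdStmt := by
  classical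
  intro A hA hD σ ε h0 h1 hε
  obtain ⟨C, hC1, hc⟩ := hC
  obtain ⟨D, hD0, hlog⟩ := log_YZd (δ := ε / 3) (by positivity)
  have hAσ : 0 ≤ A * (1 - σ) := mul_nonneg (by linarith) (by linarith)
  have key : ∃ K : ℝ, 0 ≤ K ∧ ∀ (T : ℝ) (Z : Finset ℂ), 1 ≤ T →
      (∀ ρ ∈ Z, riemannZeta₁ ρ = 0 ∧ σ ≤ ρ.re ∧ |ρ.im| ≤ T) →
      ((Z.image fun ρ : ℂ => ⌊|ρ.im|⌋).card : ℝ) ≤ K * T ^ (A * (1 - σ) + 2 * ε / 3) := by
    rcases le_total σ (11 / 20) with hσ | hσ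
    · refine ⟨2, by norm_num, fun T Z hT hZ => ?_⟩
      refine (triv_YZd hT _ (rng_YZd Z fun ρ hρ => (hZ ρ hρ).2.2)).trans ?_
      have e1 : 1 ≤ A * (1 - σ) + 2 * ε / 3 := by nlinarith
      have e2 := Real.rpow_le_rpow_of_exponent_le hT e1
      rw [Real.rpow_one] at e2
      linarith
    · obtain ⟨K, hK, T₀, hd⟩ := hD (ε / 3) (by positivity)
      obtain ⟨C₁, hC₁, hl⟩ := DH.exists_log_le (ε := ε / 3) (by positivity)
      refine ⟨(T₀ + 1 : ℕ) + C₁ * K, by positivity, fun T Z hT hZ => ?_⟩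
      have hT' : 0 < T := by linarith
      obtain ⟨r, hb, hz⟩ := rep_YZd σ Z fun ρ hρ => ⟨(hZ ρ hρ).1, (hZ ρ hρ).2.1⟩
      refine (card_YZd (T₁ := T₀ + 1) (e := A * (1 - σ) + ε / 3) (by omega) hK.le (by positivity)
        hT (fun U hU S ρ a b c => hd U (by omega) σ hσ h1.le S ρ a b c) _ r
        (rng_YZd Z fun ρ hρ => (hZ ρ hρ).2.2) hb hz).trans ?_
      rw [add_mul _ (C₁ * K)]
      have e0 : 0 ≤ A * (1 - σ) + 2 * ε / 3 := by positivity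
      refine add_le_add (le_mul_of_one_le_right (Nat.cast_nonneg _) (Real.one_le_rpow hT e0)) ?_
      have hX1 : 1 ≤ ⌊T⌋₊ := Nat.le_floor (by exact_mod_cast hT)
      have e1 : (Nat.log 2 ⌊T⌋₊ : ℝ) + 1 ≤ C₁ * T ^ (ε / 3) :=
        (hl _ hX1).trans (mul_le_mul_of_nonneg_left
          (Real.rpow_le_rpow (Nat.cast_nonneg _) (Nat.floor_le hT'.le) (by positivity))
          (by linarith))
      have e3 : T ^ (A * (1 - σ) + 2 * ε / 3) = T ^ (ε / 3) * T ^ (A * (1 - σ) + ε / 3) := by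
        rw [← Real.rpow_add hT']
        congr 1
        ring
      calc _ ≤ C₁ * T ^ (ε / 3) * (K * T ^ (A * (1 - σ) + ε / 3)) :=
            mul_le_mul_of_nonneg_right e1 (by positivity)
        _ = _ := by rw [e3]; ring
  obtain ⟨K, hK, hk⟩ := key
  refine ⟨K * (3 * (C * D)), fun T Z hT hZ => ?_⟩
  have hT' : 0 < T := by linarith
  refine (sum_YZd hC1 hc hT Z fun ρ hρ => ⟨h0.trans (hZ ρ hρ).2.1, (hZ ρ hρ).2.2⟩).trans ?_
  have hL : 0 ≤ C * Real.log (T + 5) := mul_nonneg (by linarith) (Real.log_nonneg (by linarith))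
  have e1 : C * Real.log (T + 5) ≤ C * (D * T ^ (ε / 3)) :=
    mul_le_mul_of_nonneg_left (hlog T hT) (by linarith)
  have e3 : T ^ (A * (1 - σ) + ε) = T ^ (A * (1 - σ) + 2 * ε / 3) * T ^ (ε / 3) := by
    rw [← Real.rpow_add hT']
    congr 1
    ring
  calc _ ≤ K * T ^ (A * (1 - σ) + 2 * ε / 3) * (3 * (C * (D * T ^ (ε / 3)))) :=
        mul_le_mul (hk T Z hT hZ) (by linarith) (by linarith) (by positivity)
    _ = _ := by rw [e3]; ring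

end Pool.Agent.MP_c853c5_nt.Z

end

section

/-!
From the large values estimate to the prime number theorem in short intervals.
-/

set_option autoImplicit false

namespace Pool.Agent.MP_c853c5_nt.Z

open Pool.Agent.MP_2a1f0e_nt

theorem avg_allY : DH.AvgStmt := DH.avg_stmt (DH.refl_stmt (DH.fub_stmt DH.mel_stmt) DH.gam_stmt)

theorem jut_allY : DH.JutStmt :=
  DH.jut_stmt GM.k1_all (DH.len_stmt DH.id_stmt DH.pos_stmt) DH.sq_stmt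
    (DH.kbJ_stmt avg_allY DH.powZ_stmt DH.pos_stmt) DH.pos_stmt

theorem det_allY : DH.DetStmt :=
  DH.det_stmt (DH.core_stmt (DH.zb_stmt DH.za_stmt) DH.tel_stmt DH.mol_stmt
    (DH.ca_stmt (DH.sm_stmt DH.mel_stmt)
      (DH.ks_stmt (DH.pk_stmt GM.decay_stmt GM.zero_stmt (GM.pois_stmt GM.decay_stmt)) avg_allY
        (DH.mom_stmt jut_allY DH.powZ_stmt DH.pos_stmt)))
    (DH.cb_stmt DH.ty_stmt))

/-- zero density from large values -/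
theorem zd_of_lv {e A : ℝ} (h : A * (5 - e) = 6) (hA : 9 / 4 ≤ A) (hL : LVe e) : ZD A :=
  yZd cnt_all A hA (yDy det_allY A hA (yLv ySpl A hA (yRng yMv e A h hA hL)))

/-- primes in short intervals from large values -/
theorem pi_of_lv {e A θ : ℝ} (h : A * (5 - e) = 6) (hA : 9 / 4 ≤ A) (hL : LVe e)
    (hθ : 1 - 1 / A < θ) : PiShort θ :=
  pi_of_zd hA (zd_of_lv h hA hL) hθ

end Pool.Agent.MP_c853c5_nt.Z

end

section

/-!
Large values with exponent `9/4` for one polynomial.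
-/

set_option autoImplicit false

open Finset

namespace Pool.Agent.MP_c853c5_nt.Z

open Pool.Agent.MP_2a1f0e_nt

/-- the large values estimate that beats the sixth moment -/
def SqP : Prop := ∀ ε : ℝ, 0 < ε → ∃ K : ℝ, 0 < K ∧ ∀ (N T : ℕ) (V : ℝ) (b : ℕ → ℂ), 1 ≤ N →
  N ^ 2 ≤ T → T ^ 3 ≤ N ^ 8 → 0 < V → (∀ n, ‖b n‖ ≤ 1) →
    (DH.cnt N b T V : ℝ) ≤ K * (N : ℝ) ^ ε *
      ((N : ℝ) ^ 4 / V ^ 4 + (T : ℝ) ^ (3 / 4 : ℝ) * (N : ℝ) ^ 4 / V ^ 6)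

/-- the bound for one long polynomial -/
def RngQ : Prop := ∀ ε : ℝ, 0 < ε → ∃ K : ℝ, 0 < K ∧
  ∀ (N T : ℕ) (σ lam V : ℝ) (b : ℕ → ℂ), 1 ≤ N → 1 ≤ T → (T : ℝ) ^ 5 ≤ (N : ℝ) ^ 6 →
    1 / 2 ≤ σ → σ ≤ 1 → 1 ≤ lam → 0 < V → (N : ℝ) ^ σ ≤ lam * V → (∀ n, ‖b n‖ ≤ 1) →
    (DH.cnt N b T V : ℝ) ≤ K * (N : ℝ) ^ ε * lam ^ 4 *
      ((T : ℝ) ^ (9 / 4 * (1 - σ)) + (N : ℝ) ^ (2 * (1 - σ)))

/-- the bound for lengths between `T^(3/8)` and `T^(1/2)` -/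
def RngS : Prop := ∀ ε : ℝ, 0 < ε → ∃ K : ℝ, 0 < K ∧
  ∀ (N T : ℕ) (σ lam V : ℝ) (b : ℕ → ℂ), 1 ≤ N → N ^ 2 ≤ T → T ^ 3 ≤ N ^ 8 →
    1 / 2 ≤ σ → σ ≤ 1 → 1 ≤ lam → 0 < V → (N : ℝ) ^ σ ≤ lam * V → (∀ n, ‖b n‖ ≤ 1) →
    (DH.cnt N b T V : ℝ) ≤ K * (N : ℝ) ^ ε * lam ^ 6 * (T : ℝ) ^ (9 / 4 * (1 - σ))

theorem xRng (hM : MvStmt) (hL : LVe (12 / 5)) : RngQ := by
  obtain ⟨C, hC, hM⟩ := hM
  intro ε hε
  obtain ⟨K, hK⟩ := hL ε hε
  refine ⟨2 * C + 2 * |K|, by positivity, fun N T σ L V b hN hT h3 h1 h2 hL hV hσ hb => ?_⟩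
  obtain ⟨A, hA⟩ : ∃ A : ℝ, A = 9 / 4 := ⟨_, rfl⟩
  rw [← hA]
  have n1 : (1 : ℝ) ≤ N := by exact_mod_cast hN
  have t1 : (1 : ℝ) ≤ T := by exact_mod_cast hT
  have n0 : (0 : ℝ) < N := by linarith
  have t0 : (0 : ℝ) < T := by linarith
  have ε1 : 1 ≤ (N : ℝ) ^ ε := Real.one_le_rpow n1 hε.le
  have m1 : (DH.cnt N b T V : ℝ) ≤ C * ((N : ℝ) ^ 2 / V ^ 2 + T * (N / V ^ 2)) := by
    refine ((le_div_iff₀ (by positivity)).2 (hM N T V b hN hV hb)).trans_eq ?_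
    ring
  have d1 := div_YRng n0 hL hV hσ 2 (k := 2) (by norm_num)
  have d2 := div_YRng n0 hL hV hσ 1 (k := 2) (by norm_num)
  have d3 := div_YRng n0 hL hV hσ 3 (k := 4) le_rfl
  have d4 := div_YRng n0 hL hV hσ (12 / 5) (k := 4) le_rfl
  rw [Real.rpow_two, Nat.cast_ofNat, show 2 - 2 * σ = 2 * (1 - σ) by ring] at d1
  rw [Real.rpow_one, Nat.cast_ofNat] at d2
  rw [Real.rpow_ofNat, Nat.cast_ofNat] at d3
  rw [Nat.cast_ofNat] at d4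
  have L0 : 0 ≤ L ^ 4 := by positivity
  have P0 : 0 ≤ L ^ 4 * (T : ℝ) ^ (A * (1 - σ)) := by positivity
  have Q0 : 0 ≤ L ^ 4 * (N : ℝ) ^ (2 * (1 - σ)) := by positivity
  have fin : ∀ c : ℝ, 0 ≤ c → c ≤ (C + |K|) * (N : ℝ) ^ ε → (DH.cnt N b T V : ℝ) ≤
      c * (2 * (L ^ 4 * (T : ℝ) ^ (A * (1 - σ)) + L ^ 4 * (N : ℝ) ^ (2 * (1 - σ)))) →
      (DH.cnt N b T V : ℝ) ≤ (2 * C + 2 * |K|) * (N : ℝ) ^ ε * L ^ 4 *
        ((T : ℝ) ^ (A * (1 - σ)) + (N : ℝ) ^ (2 * (1 - σ))) := fun c _ hc h =>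
    h.trans ((mul_le_mul_of_nonneg_right hc (by positivity)).trans_eq (by ring))
  have hC' : C ≤ (C + |K|) * (N : ℝ) ^ ε :=
    (le_add_of_nonneg_right (abs_nonneg K)).trans (le_mul_of_one_le_right (by positivity) ε1)
  rcases le_total T N with hTN | hNT
  · refine fin C hC.le hC' (m1.trans (mul_le_mul_of_nonneg_left ?_ hC.le))
    have : (T : ℝ) * (N / V ^ 2) ≤ (N : ℝ) ^ 2 / V ^ 2 := by
      rw [← mul_div_assoc, sq (N : ℝ)]
      gcongr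
    linarith
  have hlog : 5 * Real.log T ≤ 6 * Real.log N := by
    have := Real.log_le_log (by positivity) h3
    rwa [Real.log_pow, Real.log_pow, Nat.cast_ofNat, Nat.cast_ofNat] at this
  have lx := Real.log_nonneg n1
  have ly := Real.log_nonneg t1
  rcases real_YRng (A := A) (e := 7 / 3) (by rw [hA]; norm_num) hA.ge lx ly
    (by rw [hA]; linarith) h1 with h | ⟨h, -⟩
  · refine fin C hC.le hC' (m1.trans (mul_le_mul_of_nonneg_left ?_ hC.le))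
    have a1 := pow_YRng (a := 1) (b := 1 - 2 * σ) (u := A * (1 - σ)) n0 t0 (by linarith)
    rw [Real.rpow_one] at a1
    have a2 := mul_le_mul_of_nonneg_left d2 t0.le
    have a3 := mul_le_mul_of_nonneg_left a1 L0
    linarith
  · refine fin (|K| * (N : ℝ) ^ ε) (by positivity)
      (mul_le_mul_of_nonneg_right (le_add_of_nonneg_left hC.le) (by positivity))
      ((lv_YRng (hK N T V hN (by exact_mod_cast hNT) hV b hb)).trans ?_)
    refine mul_le_mul (mul_le_mul_of_nonneg_right (le_abs_self K) (by positivity)) ?_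
      (by positivity) (by positivity)
    have a1 := pow_YRng (a := 1 / 2) (b := 3 - 4 * σ) (u := A * (1 - σ)) n0 t0 (by linarith)
    have a2 := pow_YRng (a := 1) (b := 12 / 5 - 4 * σ) (u := A * (1 - σ)) n0 t0 (by linarith)
    rw [← Real.sqrt_eq_rpow] at a1
    rw [Real.rpow_one] at a2
    have a3 := mul_le_mul_of_nonneg_left d3 (Real.sqrt_nonneg T)
    have a4 := mul_le_mul_of_nonneg_left d4 t0.le
    have a5 := mul_le_mul_of_nonneg_left a1 L0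
    have a6 := mul_le_mul_of_nonneg_left a2 L0
    rw [mul_div_assoc, mul_div_assoc]
    linarith

lemma real_XRng {x y σ : ℝ} (hx : 0 ≤ x) (h2 : 2 * x ≤ y) (h3 : 3 * y ≤ 8 * x) :
    y + (2 - 4 * σ) * x ≤ 9 / 4 * (1 - σ) * y ∨
      3 / 4 * y + (4 - 6 * σ) * x ≤ 9 / 4 * (1 - σ) * y := by
  rcases hx.eq_or_lt with h0 | h0
  · left
    have : y = 0 := by linarith
    rw [this, ← h0]
    simp
  obtain ⟨u, hu⟩ : ∃ u, u = 1 - σ := ⟨_, rfl⟩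
  have hσ : σ = 1 - u := by linarith
  rw [hσ]
  have sq := sq_nonneg (3 * y - 8 * x)
  rcases le_total y (8 * u * x) with h | h
  · left
    refine le_of_mul_le_mul_left ?_ h0
    have a := mul_nonneg (sub_nonneg.2 h) (show 0 ≤ 9 * y - 16 * x by linarith)
    nlinarith
  · right
    refine le_of_mul_le_mul_left ?_ h0
    have a := mul_nonneg (sub_nonneg.2 h) (show 0 ≤ 24 * x - 9 * y by linarith)
    nlinarith

lemma div_XRng {n σ L V : ℝ} (hn : 0 < n) (hL : 1 ≤ L) (hV : 0 < V) (h : n ^ σ ≤ L * V) (a : ℝ)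
    {k : ℕ} (hk : k ≤ 6) : n ^ a / V ^ k ≤ L ^ 6 * n ^ (a - k * σ) := by
  have h1 : (n ^ σ) ^ k ≤ L ^ 6 * V ^ k := by
    refine (pow_le_pow_left₀ (by positivity) h k).trans ?_
    rw [mul_pow]
    gcongr
  rw [Real.rpow_sub hn, mul_comm (k : ℝ), Real.rpow_mul_natCast hn.le, ← mul_div_assoc,
    div_le_div_iff₀ (by positivity) (by positivity)]
  have := mul_le_mul_of_nonneg_left h1 (show 0 ≤ n ^ a by positivity)
  linarith

/-- the fourth moment -/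
lemma four_XRng (hM : MvStmt) (hS : SplStmt) : ∀ ε : ℝ, 0 < ε → ∃ K : ℝ, 0 < K ∧
    ∀ (N T : ℕ) (V : ℝ) (b : ℕ → ℂ), 1 ≤ N → N ^ 2 ≤ T → 0 < V → (∀ n, ‖b n‖ ≤ 1) →
      (DH.cnt N b T V : ℝ) ≤ K * (N : ℝ) ^ ε * (T * ((N : ℝ) ^ 2 / V ^ 4)) := by
  obtain ⟨C, hC, hM⟩ := hM
  intro ε hε
  obtain ⟨D, hD, hdiv⟩ := DH.exists_DivB (show 0 < ε / 16 by positivity)
  refine ⟨48 * C * D ^ 8 * (2 : ℝ) ^ ε, by positivity, fun N T V b hN hT hV hb => ?_⟩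
  have n1 : (1 : ℝ) ≤ N := by exact_mod_cast hN
  have hT' : (N : ℝ) ^ 2 ≤ T := by exact_mod_cast hT
  have h1 := hdiv ((2 * N) ^ 2) (Nat.one_le_pow _ _ (by omega))
  obtain ⟨Δ, hΔ⟩ : ∃ Δ : ℝ, Δ = D * (((2 * N) ^ 2 : ℕ) : ℝ) ^ (ε / 16) := ⟨_, rfl⟩
  rw [← hΔ] at h1
  have hΔ1 : 1 ≤ Δ := h1.1
  have hΔ8 : Δ ^ 8 = D ^ 8 * ((2 : ℝ) ^ ε * (N : ℝ) ^ ε) := by
    rw [hΔ, mul_pow, ← Real.mul_rpow (by norm_num) (by positivity)]
    push_cast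
    rw [← Real.rpow_natCast_mul (by positivity), ← Real.rpow_mul_natCast (by positivity)]
    congr 2
    push_cast
    ring
  obtain ⟨c, hc, hcnt⟩ := hS N 2 T Δ V b hN (by norm_num) h1 hV hb
  have each : ∀ i ∈ range 2, (DH.cnt (2 ^ i * N ^ 2) (c i) T (V ^ 2 / ((2 : ℕ) * Δ ^ 2)) : ℝ) ≤
      24 * C * Δ ^ 8 * (T * ((N : ℝ) ^ 2 / V ^ 4)) := by
    intro i hi
    have hi' : i ≤ 1 := Nat.lt_succ_iff.1 (mem_range.1 hi)
    have hM1 : 1 ≤ 2 ^ i * N ^ 2 :=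
      Nat.mul_pos (Nat.pos_of_ne_zero (by positivity)) (Nat.pos_of_ne_zero (by positivity))
    have r := hM (2 ^ i * N ^ 2) T (V ^ 2 / ((2 : ℕ) * Δ ^ 2)) (c i) hM1 (by positivity) (hc i)
    have b1 : ((2 ^ i * N ^ 2 : ℕ) : ℝ) ≤ 2 * (N : ℝ) ^ 2 := by
      push_cast
      have : (2 : ℝ) ^ i ≤ 2 ^ 1 := pow_le_pow_right₀ (by norm_num) hi'
      have h0 : (0 : ℝ) ≤ (N : ℝ) ^ 2 := by positivity
      nlinarith
    have b2 : C * ((((2 ^ i * N ^ 2 : ℕ) : ℝ) + T) * ((2 ^ i * N ^ 2 : ℕ) : ℝ)) ≤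
        C * ((3 * T) * (2 * (N : ℝ) ^ 2)) := by
      apply mul_le_mul_of_nonneg_left _ hC.le
      exact mul_le_mul (by linarith) b1 (by positivity) (by positivity)
    have r2 := (le_div_iff₀ (by positivity)).2 (r.trans b2)
    refine r2.trans ?_
    have e : C * ((3 * T) * (2 * (N : ℝ) ^ 2)) / (V ^ 2 / ((2 : ℕ) * Δ ^ 2)) ^ 2 =
        24 * C * Δ ^ 4 * (T * ((N : ℝ) ^ 2 / V ^ 4)) := by
      have : Δ ≠ 0 := by linarith
      push_cast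
      field_simp
      ring
    rw [e]
    have : Δ ^ 4 ≤ Δ ^ 8 := pow_le_pow_right₀ hΔ1 (by norm_num)
    gcongr
  have hcnt' : (DH.cnt N b T V : ℝ) ≤ ∑ i ∈ range 2,
      (DH.cnt (2 ^ i * N ^ 2) (c i) T (V ^ 2 / ((2 : ℕ) * Δ ^ 2)) : ℝ) := by
    exact_mod_cast hcnt
  refine hcnt'.trans ((sum_le_card_nsmul _ _ _ each).trans (le_of_eq ?_))
  rw [card_range, nsmul_eq_mul, hΔ8]
  push_cast
  ring

theorem xRngS (hM : MvStmt) (hS : SplStmt) (hQ : SqP) : RngS := by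
  intro ε hε
  obtain ⟨K₁, hK₁, h4⟩ := four_XRng hM hS ε hε
  obtain ⟨K₂, hK₂, hQ⟩ := hQ ε hε
  refine ⟨K₁ + 2 * K₂, by positivity, fun N T σ L V b hN hT h3 h1 h2 hL hV hσ hb => ?_⟩
  have n1 : (1 : ℝ) ≤ N := by exact_mod_cast hN
  have hT' : (N : ℝ) ^ 2 ≤ T := by exact_mod_cast hT
  have h3' : (T : ℝ) ^ 3 ≤ (N : ℝ) ^ 8 := by exact_mod_cast h3
  have n0 : (0 : ℝ) < N := by linarith
  have t0 : (0 : ℝ) < T := lt_of_lt_of_le (by positivity) hT'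
  have l2 : 2 * Real.log N ≤ Real.log T := by
    have := Real.log_le_log (by positivity) hT'
    rwa [Real.log_pow, Nat.cast_ofNat] at this
  have l3 : 3 * Real.log T ≤ 8 * Real.log N := by
    have := Real.log_le_log (by positivity) h3'
    rwa [Real.log_pow, Real.log_pow, Nat.cast_ofNat, Nat.cast_ofNat] at this
  have lx := Real.log_nonneg n1
  have d1 := div_XRng n0 hL hV hσ 2 (k := 4) (by norm_num)
  have d2 := div_XRng n0 hL hV hσ 4 (k := 4) (by norm_num)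
  have d3 := div_XRng n0 hL hV hσ 4 (k := 6) le_rfl
  rw [Real.rpow_two, Nat.cast_ofNat] at d1
  rw [Real.rpow_ofNat, Nat.cast_ofNat] at d2 d3
  have L0 : 0 ≤ L ^ 6 := by positivity
  have P0 : 0 ≤ (N : ℝ) ^ ε * (L ^ 6 * (T : ℝ) ^ (9 / 4 * (1 - σ))) := by positivity
  have e0 : 0 ≤ (N : ℝ) ^ ε := by positivity
  rcases real_XRng (σ := σ) lx l2 l3 with h | h
  · have a1 := pow_YRng (a := 1) (b := 2 - 4 * σ) (u := 9 / 4 * (1 - σ)) n0 t0 (by linarith)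
    rw [Real.rpow_one] at a1
    have a2 := mul_le_mul_of_nonneg_left d1 t0.le
    have a3 := mul_le_mul_of_nonneg_left a1 L0
    have a4 : (T : ℝ) * ((N : ℝ) ^ 2 / V ^ 4) ≤ L ^ 6 * (T : ℝ) ^ (9 / 4 * (1 - σ)) := by linarith
    have a5 := mul_le_mul_of_nonneg_left a4 (mul_nonneg hK₁.le e0)
    have a6 := mul_nonneg hK₂.le P0
    have := h4 N T V b hN hT hV hb
    linarith
  · have a1 := pow_YRng (a := 3 / 4) (b := 4 - 6 * σ) (u := 9 / 4 * (1 - σ)) n0 t0 (by linarith)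
    have a0 := pow_YRng (a := 0) (b := 4 - 4 * σ) (u := 9 / 4 * (1 - σ)) n0 t0 (by
      have := mul_le_mul_of_nonneg_left l2 (show 0 ≤ 9 / 4 * (1 - σ) by linarith)
      have := mul_nonneg (show 0 ≤ 1 - σ by linarith) lx
      linarith)
    rw [Real.rpow_zero, one_mul] at a0
    have a2 := mul_le_mul_of_nonneg_left d3 (show 0 ≤ (T : ℝ) ^ (3 / 4 : ℝ) by positivity)
    have a3 := mul_le_mul_of_nonneg_left a1 L0
    have a3' := mul_le_mul_of_nonneg_left a0 L0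
    have a4 : (N : ℝ) ^ 4 / V ^ 4 + (T : ℝ) ^ (3 / 4 : ℝ) * (N : ℝ) ^ 4 / V ^ 6 ≤
        2 * (L ^ 6 * (T : ℝ) ^ (9 / 4 * (1 - σ))) := by
      rw [mul_div_assoc]
      linarith
    have a5 := mul_le_mul_of_nonneg_left a4 (mul_nonneg hK₂.le e0)
    have a6 := mul_nonneg hK₁.le P0
    have := hQ N T V b hN hT h3 hV hb
    linarith

end Pool.Agent.MP_c853c5_nt.Z

end

section

/-!
Large values with exponent `9/4` for all lengths that occur in zero detection.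
-/

set_option autoImplicit false

open Finset

namespace Pool.Agent.MP_c853c5_nt.Z

open Pool.Agent.MP_2a1f0e_nt

lemma root_XLv {x y : ℝ} (hy : 0 < y) (h : x ^ 4 ≤ y ^ 9) : x ≤ y ^ (9 / 4 : ℝ) := by
  refine le_of_pow_le_pow_left₀ (n := 4) (by norm_num) (by positivity) (h.trans_eq ?_)
  rw [← Real.rpow_mul_natCast hy.le, ← Real.rpow_natCast]
  norm_num

/-- choice of the power -/
theorem pick_XLv {η T N : ℝ} {k₀ : ℕ} (hη : 0 < η) (hη' : η ≤ 1 / 20)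
    (hk2 : 2 ≤ k₀) (hk : 10 ≤ η * (6 * k₀)) (hT : 2 ≤ T) (hN : T ^ η ≤ N)
    (hN' : N ≤ 6 * T ^ (1 / 2 + η)) :
    (N ^ 2 ≤ 2 * T ∧ (2 * T) ^ 3 ≤ N ^ 8) ∨ ∃ k : ℕ, 2 ≤ k ∧ k ≤ k₀ ∧ (2 * T) ^ 5 ≤ N ^ (6 * k) ∧
      N ^ (2 * k) ≤ 6 ^ 4 * (2 * T) ^ (9 / 4 : ℝ) := by
  classical
  have hT0 : 0 < T := by linarith
  have hT1 : 1 ≤ T := by linarith
  have hS1 : 1 ≤ 2 * T := by linarith
  have hN1 : 1 ≤ N := (Real.one_le_rpow hT1 hη.le).trans hN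
  have hpos : 0 < (2 * T) ^ (9 / 4 : ℝ) := Real.rpow_pos_of_pos (by linarith) _
  have ex : (2 * T) ^ 5 ≤ N ^ (6 * k₀) := by
    calc (2 * T) ^ 5 ≤ (T ^ 2) ^ 5 := pow_le_pow_left₀ (by linarith) (by nlinarith) _
      _ = T ^ (10 : ℝ) := by rw [← pow_mul, ← Real.rpow_natCast]; norm_num
      _ ≤ T ^ (η * ((6 * k₀ : ℕ) : ℝ)) := by
          apply Real.rpow_le_rpow_of_exponent_le hT1
          push_cast
          exact hk
      _ = (T ^ η) ^ (6 * k₀) := by rw [Real.rpow_mul hT0.le, Real.rpow_natCast]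
      _ ≤ N ^ (6 * k₀) := pow_le_pow_left₀ (Real.rpow_nonneg hT0.le _) hN _
  have hex : ∃ k : ℕ, (2 * T) ^ 5 ≤ N ^ (6 * k) := ⟨k₀, ex⟩
  have s1 := Nat.find_spec hex
  have s2 : Nat.find hex ≤ k₀ := Nat.find_min' hex ex
  by_cases h : Nat.find hex ≤ 2
  · refine Or.inr ⟨2, le_rfl, hk2, s1.trans (pow_le_pow_right₀ hN1 (by omega)), ?_⟩
    calc N ^ (2 * 2) ≤ (6 * T ^ (1 / 2 + η)) ^ (2 * 2) := pow_le_pow_left₀ (by linarith) hN' _
      _ = 6 ^ 4 * T ^ ((1 / 2 + η) * ((4 : ℕ) : ℝ)) := by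
          rw [Real.rpow_mul hT0.le, Real.rpow_natCast, mul_pow]
      _ ≤ 6 ^ 4 * T ^ (9 / 4 : ℝ) := by
          apply mul_le_mul_of_nonneg_left _ (by norm_num)
          apply Real.rpow_le_rpow_of_exponent_le hT1
          push_cast
          linarith
      _ ≤ 6 ^ 4 * (2 * T) ^ (9 / 4 : ℝ) := by
          apply mul_le_mul_of_nonneg_left _ (by norm_num)
          exact Real.rpow_le_rpow hT0.le (by linarith) (by norm_num)
  have s3 := Nat.find_min hex (m := Nat.find hex - 1) (by omega)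
  rw [not_le] at s3
  obtain ⟨k, hk⟩ : ∃ k, k = Nat.find hex := ⟨_, rfl⟩
  rw [← hk] at s1 s2 s3 h
  have fin : N ^ (8 * k) ≤ (2 * T) ^ 9 → N ^ (2 * k) ≤ 6 ^ 4 * (2 * T) ^ (9 / 4 : ℝ) := by
    intro q
    have := root_XLv (x := N ^ (2 * k)) (y := 2 * T) (by linarith)
      (by rw [← pow_mul]; exact (le_of_eq (by congr 1; ring)).trans q)
    linarith
  by_cases h3 : k = 3
  · subst h3
    rcases le_total ((2 * T) ^ 3) (N ^ 8) with q | q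
    · refine Or.inl ⟨?_, q⟩
      refine le_of_pow_le_pow_left₀ (n := 5) (by norm_num) (by linarith) (le_trans ?_ s3.le)
      rw [← pow_mul]
      exact pow_le_pow_right₀ hN1 (by norm_num)
    · refine Or.inr ⟨3, by norm_num, s2, s1, fin ?_⟩
      calc N ^ (8 * 3) = (N ^ 8) ^ 3 := pow_mul _ _ _
        _ ≤ ((2 * T) ^ 3) ^ 3 := pow_le_pow_left₀ (by positivity) q _
        _ = (2 * T) ^ 9 := by rw [← pow_mul]
  · refine Or.inr ⟨k, by omega, s2, s1, fin ?_⟩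
    refine le_of_pow_le_pow_left₀ (n := 5) (by norm_num) (by positivity) ?_
    calc (N ^ (8 * k)) ^ 5 = N ^ (8 * k * 5) := (pow_mul _ _ _).symm
      _ ≤ N ^ (6 * (k - 1) * 9) := pow_le_pow_right₀ hN1 (by omega)
      _ = (N ^ (6 * (k - 1))) ^ 9 := pow_mul _ _ _
      _ ≤ ((2 * T) ^ 5) ^ 9 := pow_le_pow_left₀ (by positivity) s3.le _
      _ = ((2 * T) ^ 9) ^ 5 := by rw [← pow_mul, ← pow_mul]

theorem xLv (hS : SplStmt) (hR : RngQ) (hQ : RngS) : LvP (9 / 4) := by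
  intro η hη hη'
  obtain ⟨k₀, hk2, hk⟩ : ∃ k₀ : ℕ, 2 ≤ k₀ ∧ 10 ≤ η * (6 * k₀) := by
    refine ⟨max 2 ⌈10 / (6 * η)⌉₊, le_max_left _ _, ?_⟩
    have h1 : 10 / (6 * η) ≤ ((max 2 ⌈10 / (6 * η)⌉₊ : ℕ) : ℝ) :=
      (Nat.le_ceil _).trans (by exact_mod_cast le_max_right _ _)
    rw [div_le_iff₀ (by positivity)] at h1
    linarith
  refine ⟨4 * k₀, fun ε hε => ?_⟩
  have hk0 : (0 : ℝ) < k₀ := by exact_mod_cast (by omega : 0 < k₀)
  obtain ⟨e, he, hee⟩ : ∃ e : ℝ, 0 < e ∧ (k₀ : ℝ) * (e * ((1 + 4 * k₀ : ℕ) : ℝ)) = ε := by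
    refine ⟨ε / (k₀ * ((1 + 4 * k₀ : ℕ) : ℝ)), by positivity, ?_⟩
    have : (0 : ℝ) < ((1 + 4 * k₀ : ℕ) : ℝ) := by positivity
    field_simp
  obtain ⟨K₁, hK₁, hR⟩ := hR e he
  obtain ⟨K₂, hK₂, hQ⟩ := hQ ε hε
  obtain ⟨C, hC, hD⟩ := DH.exists_DivB he
  obtain ⟨A, hA⟩ : ∃ A : ℝ, A = 9 / 4 := ⟨_, rfl⟩
  rw [← hA] at hR hQ ⊢
  refine ⟨k₀ * (K₁ * (k₀ * 2 ^ k₀ * C ^ k₀) ^ 4 * ((1 + 4 ^ k₀ * 6 ^ 4) * (2 : ℝ) ^ A) *
    (12 : ℝ) ^ ε) + K₂ * (2 : ℝ) ^ ε * (2 : ℝ) ^ A, by positivity, ?_⟩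
  intro N T σ lam V b hT hN hN' hσ hσ' hlam hV hNV hb
  have hT2 : (2 : ℝ) ≤ T := by exact_mod_cast hT
  have hT0 : (0 : ℝ) < T := by linarith
  have hT1 : (1 : ℝ) ≤ T := by linarith
  have hN1 : (1 : ℝ) ≤ N := (Real.one_le_rpow hT1 hη.le).trans hN
  have hN1' : 1 ≤ N := by exact_mod_cast hN1
  have hA0 : 0 ≤ A := by rw [hA]; norm_num
  have hC0 : 0 ≤ C := by linarith
  have Z0 : 0 ≤ lam ^ (4 * k₀) * (T : ℝ) ^ (A * (1 - σ) + ε) := by positivity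
  rw [mul_assoc, add_mul]
  rcases pick_XLv hη hη' hk2 hk hT2 hN hN' with ⟨p1, p2⟩ | ⟨k, k2, kk, p1, p2⟩
  · refine le_add_of_nonneg_of_le (by positivity) ?_
    have r := hQ N (2 * T) σ lam V b hN1' (by exact_mod_cast p1) (by exact_mod_cast p2) hσ hσ'
      hlam hV hNV hb
    have eT : ((2 * T : ℕ) : ℝ) = 2 * (T : ℝ) := by push_cast; ring
    rw [eT] at r
    have a1 : (N : ℝ) ^ ε ≤ (2 : ℝ) ^ ε * (T : ℝ) ^ ε := by
      rw [← Real.mul_rpow (by norm_num) hT0.le]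
      exact Real.rpow_le_rpow (by positivity) (by nlinarith) hε.le
    have a2 : lam ^ 6 ≤ lam ^ (4 * k₀) := pow_le_pow_right₀ hlam (by omega)
    have a3 : (2 * (T : ℝ)) ^ (A * (1 - σ)) ≤ (2 : ℝ) ^ A * (T : ℝ) ^ (A * (1 - σ)) := by
      rw [Real.mul_rpow (by norm_num) hT0.le]
      apply mul_le_mul_of_nonneg_right _ (by positivity)
      apply Real.rpow_le_rpow_of_exponent_le (by norm_num)
      nlinarith
    calc _ ≤ _ := r
      _ ≤ K₂ * ((2 : ℝ) ^ ε * (T : ℝ) ^ ε) * lam ^ (4 * k₀) *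
          ((2 : ℝ) ^ A * (T : ℝ) ^ (A * (1 - σ))) := by gcongr
      _ = _ := by rw [Real.rpow_add hT0]; ring
  refine le_add_of_le_of_nonneg ?_ (by positivity)
  rw [← hA] at p2
  have k1 : 1 ≤ k := by omega
  have k1' : (1 : ℝ) ≤ k := by exact_mod_cast k1
  have kk' : (k : ℝ) ≤ k₀ := by exact_mod_cast kk
  have hX : 1 ≤ (2 * N) ^ k := Nat.one_le_pow _ _ (by omega)
  have hdiv := hD _ hX
  obtain ⟨Δ, hΔ⟩ : ∃ Δ : ℝ, Δ = C * (((2 * N) ^ k : ℕ) : ℝ) ^ e := ⟨_, rfl⟩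
  rw [← hΔ] at hdiv
  have hΔ1 : 1 ≤ Δ := hdiv.1
  obtain ⟨c, hc, hcnt⟩ := hS N k (2 * T) Δ V b hN1' k1 hdiv hV hb
  have hNT : (N : ℝ) ≤ 6 * T := by
    refine hN'.trans (mul_le_mul_of_nonneg_left ?_ (by norm_num))
    calc (T : ℝ) ^ (1 / 2 + η) ≤ (T : ℝ) ^ (1 : ℝ) :=
          Real.rpow_le_rpow_of_exponent_le hT1 (by linarith)
      _ = T := Real.rpow_one _
  have hY : (2 * (N : ℝ)) ^ k ≤ (12 * (T : ℝ)) ^ k₀ :=
    (pow_le_pow_left₀ (by positivity) (by linarith) k).trans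
      (pow_le_pow_right₀ (by linarith) kk)
  obtain ⟨y, hy⟩ : ∃ y : ℝ, y = ((12 * (T : ℝ)) ^ k₀) ^ e := ⟨_, rfl⟩
  have hy1 : 1 ≤ y := by
    rw [hy]
    exact Real.one_le_rpow (one_le_pow₀ (by linarith)) he.le
  have hyy : y ^ (1 + 4 * k₀) = (12 : ℝ) ^ ε * (T : ℝ) ^ ε := by
    rw [hy, ← Real.rpow_natCast_mul (by positivity), ← Real.rpow_mul_natCast (by positivity),
      mul_assoc, hee, Real.mul_rpow (by norm_num) hT0.le]
  have hΔy : Δ ≤ C * y := by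
    rw [hΔ, hy]
    apply mul_le_mul_of_nonneg_left _ (by linarith)
    apply Real.rpow_le_rpow (by positivity) _ he.le
    push_cast
    exact hY
  obtain ⟨L, hL⟩ : ∃ L : ℝ, L = k * 2 ^ k * lam ^ k * Δ ^ k := ⟨_, rfl⟩
  have hL1 : 1 ≤ L := by
    rw [hL]
    exact one_le_mul_of_one_le_of_one_le (one_le_mul_of_one_le_of_one_le
      (one_le_mul_of_one_le_of_one_le k1' (one_le_pow₀ (by norm_num))) (one_le_pow₀ hlam))
      (one_le_pow₀ hΔ1)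
  have hL2 : L ≤ (k₀ * 2 ^ k₀ * C ^ k₀) * (lam ^ k₀ * y ^ k₀) := by
    have a1 : (2 : ℝ) ^ k ≤ 2 ^ k₀ := pow_le_pow_right₀ (by norm_num) kk
    have a2 : lam ^ k ≤ lam ^ k₀ := pow_le_pow_right₀ hlam kk
    have a3 : Δ ^ k ≤ (C * y) ^ k₀ :=
      (pow_le_pow_right₀ hΔ1 kk).trans (pow_le_pow_left₀ (by linarith) hΔy _)
    calc L = k * 2 ^ k * lam ^ k * Δ ^ k := hL
      _ ≤ k₀ * 2 ^ k₀ * lam ^ k₀ * (C * y) ^ k₀ := by gcongr
      _ = _ := by rw [mul_pow]; ring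
  have each : ∀ i ∈ range k,
      (DH.cnt (2 ^ i * N ^ k) (c i) (2 * T) (V ^ k / (k * Δ ^ k)) : ℝ) ≤
        K₁ * (k₀ * 2 ^ k₀ * C ^ k₀) ^ 4 * ((1 + 4 ^ k₀ * 6 ^ 4) * (2 : ℝ) ^ A) * (12 : ℝ) ^ ε *
          lam ^ (4 * k₀) * (T : ℝ) ^ (A * (1 - σ) + ε) := by
    intro i hi
    have hik : i ≤ k := (mem_range.1 hi).le
    have hM1 : 1 ≤ 2 ^ i * N ^ k :=
      Nat.mul_pos (Nat.pos_of_ne_zero (by positivity)) (Nat.pos_of_ne_zero (by positivity))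
    have eM : ((2 ^ i * N ^ k : ℕ) : ℝ) = 2 ^ i * (N : ℝ) ^ k := by push_cast; ring
    have eT : ((2 * T : ℕ) : ℝ) = 2 * (T : ℝ) := by push_cast; ring
    have b1 : (1 : ℝ) ≤ 2 ^ i := one_le_pow₀ (by norm_num)
    have b2 : (2 : ℝ) ^ i ≤ 2 ^ k := pow_le_pow_right₀ (by norm_num) hik
    have b3 : (2 : ℝ) ^ i ≤ 2 ^ k₀ := pow_le_pow_right₀ (by norm_num) (hik.trans kk)
    have q1 : ((2 * T : ℕ) : ℝ) ^ 5 ≤ ((2 ^ i * N ^ k : ℕ) : ℝ) ^ 6 := by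
      rw [eM, eT]
      refine p1.trans ?_
      rw [mul_comm 6 k, pow_mul]
      exact pow_le_pow_left₀ (by positivity) (le_mul_of_one_le_left (by positivity) b1) 6
    have q2 : ((2 ^ i * N ^ k : ℕ) : ℝ) ^ σ ≤ L * (V ^ k / (k * Δ ^ k)) := by
      rw [eM, hL]
      exact size_YLv (by positivity) hσ' (by linarith) k1 hik hNV
    have r := hR (2 ^ i * N ^ k) (2 * T) σ L (V ^ k / (k * Δ ^ k)) (c i) hM1 (by omega) q1 hσ hσ'
      hL1 (by positivity) q2 (hc i)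
    rw [eM, eT] at r
    have q3 : (2 ^ i * (N : ℝ) ^ k) ^ 2 ≤ 4 ^ k₀ * 6 ^ 4 * (2 * (T : ℝ)) ^ A := by
      have a1 : ((2 : ℝ) ^ i) ^ 2 ≤ 4 ^ k₀ := by
        calc ((2 : ℝ) ^ i) ^ 2 ≤ ((2 : ℝ) ^ k₀) ^ 2 := pow_le_pow_left₀ (by positivity) b3 2
          _ = 4 ^ k₀ := by rw [← pow_mul, mul_comm, pow_mul]; norm_num
      rw [mul_pow, ← pow_mul (N : ℝ), mul_comm k 2, mul_assoc]
      exact mul_le_mul a1 p2 (by positivity) (by positivity)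
    have q4 := terms_YLv hA0 hσ hσ' hT0 (by positivity)
      (one_le_mul_of_one_le_of_one_le (one_le_pow₀ (by norm_num)) (by norm_num)) q3
    have q5 : (2 ^ i * (N : ℝ) ^ k) ^ e ≤ y := by
      rw [hy]
      apply Real.rpow_le_rpow (by positivity) _ he.le
      refine le_trans ?_ hY
      rw [mul_pow]
      exact mul_le_mul_of_nonneg_right b2 (by positivity)
    have q6 : L ^ 4 ≤ ((k₀ * 2 ^ k₀ * C ^ k₀) * (lam ^ k₀ * y ^ k₀)) ^ 4 :=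
      pow_le_pow_left₀ (by linarith) hL2 4
    refine r.trans ?_
    calc K₁ * (2 ^ i * (N : ℝ) ^ k) ^ e * L ^ 4 *
          ((2 * (T : ℝ)) ^ (A * (1 - σ)) + (2 ^ i * (N : ℝ) ^ k) ^ (2 * (1 - σ)))
        ≤ K₁ * y * ((k₀ * 2 ^ k₀ * C ^ k₀) * (lam ^ k₀ * y ^ k₀)) ^ 4 *
          ((1 + 4 ^ k₀ * 6 ^ 4) * (2 : ℝ) ^ A * (T : ℝ) ^ (A * (1 - σ))) := by gcongr
      _ = K₁ * (k₀ * 2 ^ k₀ * C ^ k₀) ^ 4 * ((1 + 4 ^ k₀ * 6 ^ 4) * (2 : ℝ) ^ A) *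
          y ^ (1 + 4 * k₀) * lam ^ (4 * k₀) * (T : ℝ) ^ (A * (1 - σ)) := by ring
      _ = _ := by rw [hyy, Real.rpow_add hT0]; ring
  have hcnt' : (DH.cnt N b (2 * T) V : ℝ) ≤ ∑ i ∈ range k,
      (DH.cnt (2 ^ i * N ^ k) (c i) (2 * T) (V ^ k / (k * Δ ^ k)) : ℝ) := by
    exact_mod_cast hcnt
  refine hcnt'.trans ((sum_le_card_nsmul _ _ _ each).trans ?_)
  rw [card_range, nsmul_eq_mul]
  calc _ ≤ (k₀ : ℝ) * (K₁ * (k₀ * 2 ^ k₀ * C ^ k₀) ^ 4 * ((1 + 4 ^ k₀ * 6 ^ 4) * (2 : ℝ) ^ A) *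
        (12 : ℝ) ^ ε * lam ^ (4 * k₀) * (T : ℝ) ^ (A * (1 - σ) + ε)) :=
        mul_le_mul_of_nonneg_right kk' (by positivity)
    _ = _ := by ring

end Pool.Agent.MP_c853c5_nt.Z

end

section

/-!
From the large values estimate that beats the sixth moment to zero density exponent `9/4`.
-/

set_option autoImplicit false

namespace Pool.Agent.MP_c853c5_nt.Z

open Pool.Agent.MP_2a1f0e_nt

theorem lv_of_sq (h : SqP) : LvP (9 / 4) :=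
  xLv ySpl (xRng yMv GM.final_all) (xRngS yMv ySpl h)

/-- zero density with exponent `9/4` -/
theorem zd_of_sq (h : SqP) : ZD (9 / 4) :=
  yZd cnt_all _ le_rfl (yDy det_allY _ le_rfl (lv_of_sq h))

/-- primes in short intervals -/
theorem pi_of_sq {θ : ℝ} (h : SqP) (hθ : 5 / 9 < θ) : PiShort θ :=
  pi_of_zd le_rfl (zd_of_sq h) (by linarith)

end Pool.Agent.MP_c853c5_nt.Z

end

section

set_option autoImplicit false

namespace Pool.Agent.MP_c853c5_nt.Z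

open Pool.Agent.MP_2a1f0e_nt

theorem sq_of_int6 (h : SQ.Int6Stmt) : SqP := by
  intro ε hε
  obtain ⟨K, hK, h⟩ := h ε hε
  refine ⟨2 * K, by positivity, fun N T V b hN _ h3 hV hb => (h N T V b hN hV hb).trans ?_⟩
  have n1 : (1 : ℝ) ≤ N := by exact_mod_cast hN
  have t0 : (0 : ℝ) ≤ T := by positivity
  have h3' : (T : ℝ) ^ 3 ≤ (N : ℝ) ^ 8 := by exact_mod_cast h3
  have a1 : (T : ℝ) ≤ (N : ℝ) ^ 4 := by
    refine le_of_pow_le_pow_left₀ (n := 3) (by norm_num) (by positivity) (h3'.trans ?_)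
    rw [← pow_mul]
    exact pow_le_pow_right₀ n1 (by norm_num)
  have a2 : (T : ℝ) ^ (1 / 4 : ℝ) ≤ N := by
    refine le_of_pow_le_pow_left₀ (n := 4) (by norm_num) (by positivity) (le_of_eq_of_le ?_ a1)
    rw [← Real.rpow_mul_natCast t0]
    norm_num
  have a3 : (T : ℝ) = (T : ℝ) ^ (3 / 4 : ℝ) * (T : ℝ) ^ (1 / 4 : ℝ) := by
    rw [← Real.rpow_add' t0 (by norm_num)]
    norm_num
  have a4 : (T : ℝ) * (N : ℝ) ^ 3 ≤ (T : ℝ) ^ (3 / 4 : ℝ) * (N : ℝ) ^ 4 := by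
    calc (T : ℝ) * (N : ℝ) ^ 3 = (T : ℝ) ^ (3 / 4 : ℝ) * ((T : ℝ) ^ (1 / 4 : ℝ) * (N : ℝ) ^ 3) := by
          rw [← mul_assoc, ← a3]
      _ ≤ (T : ℝ) ^ (3 / 4 : ℝ) * ((N : ℝ) * (N : ℝ) ^ 3) := by gcongr
      _ = _ := by ring
  have a5 : ((T : ℝ) ^ (3 / 4 : ℝ) * (N : ℝ) ^ 4 + T * (N : ℝ) ^ 3) / V ^ 6 ≤
      2 * ((T : ℝ) ^ (3 / 4 : ℝ) * (N : ℝ) ^ 4 / V ^ 6) := by
    rw [← mul_div_assoc]
    exact div_le_div_of_nonneg_right (by linarith) (by positivity)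
  have a6 : 0 ≤ (N : ℝ) ^ 4 / V ^ 4 := by positivity
  have a7 : 0 ≤ K * (N : ℝ) ^ ε := by positivity
  have := mul_le_mul_of_nonneg_left (show (N : ℝ) ^ 4 / V ^ 4 +
    ((T : ℝ) ^ (3 / 4 : ℝ) * (N : ℝ) ^ 4 + T * (N : ℝ) ^ 3) / V ^ 6 ≤ 2 * ((N : ℝ) ^ 4 / V ^ 4 +
      (T : ℝ) ^ (3 / 4 : ℝ) * (N : ℝ) ^ 4 / V ^ 6) by linarith) a7
  linarith

end Pool.Agent.MP_c853c5_nt.Z

end
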