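import Pool.Agent.Mg.C853.G277bf8
import Pool.Agent.Mg.C853.Gf8de24
import Pool.Agent.Mg.C853.G132190
import Pool.Agent.Mg.C853.Gca6e0f
import Pool.Agent.Mg.C853.G4b208c

section

/-!
The logarithmic mass of the primes between two powers of `x`.
-/

set_option autoImplicit false

open Finset Filter

namespace Pool.Agent.MP_c853c5_nt.L

open Pool.Agent.MP_c853c5_nt.Z

lemma sum_le_LPrime {f : ℕ → ℝ} {y z : ℝ} (hy : 0 ≤ y) (hz : 0 ≤ z)
    (h : ∀ n : ℕ, f n ≤ if n.Prime ∧ y < (n : ℝ) ∧ (n : ℝ) ≤ z then 1 else 0) (X : ℕ) :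
    ∑ m ∈ Icc 1 X, f m / m ≤ rcp y z := by
  calc ∑ m ∈ Icc 1 X, f m / m
      ≤ ∑ m ∈ Icc 1 X, if m.Prime ∧ y < (m : ℝ) ∧ (m : ℝ) ≤ z then 1 / (m : ℝ) else 0 := by
        refine sum_le_sum fun m _ => ?_
        refine (div_le_div_of_nonneg_right (h m) (Nat.cast_nonneg m)).trans (le_of_eq ?_)
        rw [ite_div, zero_div]
    _ = ∑ m ∈ (Icc 1 X).filter fun m : ℕ => m.Prime ∧ y < (m : ℝ) ∧ (m : ℝ) ≤ z, 1 / (m : ℝ) :=
        (sum_filter _ _).symm
    _ ≤ rcp y z := by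
        refine sum_le_sum_of_subset_of_nonneg (fun m hm => ?_) fun m _ _ => by positivity
        obtain ⟨-, h1, h2, h3⟩ := mem_filter.1 hm
        exact mem_filter.2 ⟨mem_Ioc.2 ⟨(Nat.floor_lt hy).2 h2, (Nat.le_floor_iff hz).2 h3⟩, h1⟩

theorem lprime (hM : MertStmt) : LPrimeStmt := by
  intro f a b ha hab hf ε hε
  obtain ⟨y₀, -, h0⟩ := hM ε hε
  filter_upwards [hf, ev_pos, (tendsto_rpow_atTop ha).eventually_ge_atTop y₀] with x h1 hx h2 X
  have x0 : 0 < x := by linarith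
  have h3 := h0 _ _ h2 (Real.rpow_le_rpow_of_exponent_le hx.le hab)
  rw [Real.log_rpow x0, Real.log_rpow x0, mul_div_mul_right _ _ (Real.log_pos hx).ne'] at h3
  have h4 := sum_le_LPrime (Real.rpow_pos_of_pos x0 a).le (Real.rpow_pos_of_pos x0 b).le h1 X
  linarith [(abs_le.1 h3).2]

end Pool.Agent.MP_c853c5_nt.L

end

section

/-!
Pointwise bounds for sums over primes.
-/

set_option autoImplicit false

namespace Pool.Agent.MP_c853c5_nt.Z

theorem ker_all : KerStmt := ker exp_all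

theorem tw_all : TwStmt := pTw (pEt pGt (pLd zf_all locZ_all) res) pCut

theorem pr_all : PrStmt := pPr tw_all

theorem pn_all : PnStmt := pPn tw_all

theorem mert_all : MertStmt := pMert pn_all

theorem top_all : TopStmt := pTop ker_all

end Pool.Agent.MP_c853c5_nt.Z

end

section

/-!
The long side: masses of convolutions of blocks, and the last step.
-/

set_option autoImplicit false

open Finset Filter

namespace Pool.Agent.MP_c853c5_nt.L

open Pool.Agent.MP_c853c5_nt.S (Rough Blk bf fr Mass Low EndStmt)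

theorem sm_all : Z.SmStmt := Z.sm Z.ef_all Z.zFar (Z.zNear Z.nd_all Z.zf_all)

theorem zd_all : Z.ZD (9 / 4) := Z.zd_of_sq (Z.sq_of_int6 Pool.Agent.MP_2a1f0e_nt.SQ.int6_all)

theorem dprime_all : DPrimeStmt := dprime sm_all zd_all

theorem long_all : LongStmt := long sm_all zd_all

theorem lprime_all : LPrimeStmt := lprime Z.mert_all

/-! ### the last step -/

theorem end_all : EndStmt := by
  intro t z l θ h1 h2 hz hz' hl hθ hL
  have key : ∀ᶠ x : ℝ in atTop, ∀ n, S.Win x n → bf x (fr z) n = prm n := by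
    filter_upwards [ev_two hz', ev_two (show (1 : ℝ) < 2 * z by linarith),
      ev_two (show (1 : ℝ) < 2 by norm_num), ev_two (show (0 : ℝ) < 1 by norm_num), ev_pos]
      with x a1 a2 a3 a4 hx n hn
    rw [Real.rpow_one] at a1 a2 a3 a4
    rw [Real.rpow_zero] at a4
    obtain ⟨w1, w2⟩ := hn
    have n1 : 1 < n := by exact_mod_cast (show (1 : ℝ) < n by linarith)
    by_cases hp : n.Prime
    · rw [S.bf_of_mem ((S.mem_fr hx).2 ⟨by omega, by linarith,
        (S.rough_prime hp).2 (by linarith)⟩)]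
      exact (if_pos hp).symm
    · rw [S.bf_of_not fun h => absurd (sq_lt (by linarith) n1 hp ((S.mem_fr hx).1 h).2.2)
        (by linarith)]
      exact (if_neg hp).symm
  have e0 : 0 < (1 - l) / 3 := by linarith
  have := fin t ((1 - l) / 3) θ (by linarith) (by linarith) e0 hθ (by
    filter_upwards [(hL.congr (g := fun _ => prm) key) _ e0, long_all _ e0] with x a1 a2
    change _ ≤ SS x (x ^ (-t)) prm - SS x (DB x) prm at a1
    linarith)
  exact eventually_atTop.1 (tendsto_natCast_atTop_atTop.eventually this) |>.imp fun n₀ h n hn => by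
    obtain ⟨p, p1, p2, p3⟩ := h n hn
    exact ⟨p, p1, by exact_mod_cast p2, p3⟩

/-! ### one block -/

/-- `β` times the upper density of a block at the size `β` -/
noncomputable def GB (B : Blk) (β : ℝ) : ℝ :=
  match B.b with
  | none => 1 + max 0 (Om (β / B.a - 1))
  | some c => (if β ≤ c then 1 else 0) + max 0 (Om (β / B.a - 1) - Om (max (β / c) 2 - 1))

lemma bf_le {x : ℝ} {B : Blk} {n : ℕ} {y : ℝ} (h0 : 0 ≤ y) (h : B.Mem x n → 1 ≤ y) :
    bf x B n ≤ y := by
  by_cases h1 : B.Mem x n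
  · rw [S.bf_of_mem h1]
    exact h h1
  · rw [S.bf_of_not h1]
    exact h0

lemma one_lt_of_mem {x : ℝ} (hx : 1 < x) {B : Blk} (hlo : 0 ≤ B.lo) {n : ℕ} (h : B.Mem x n) :
    1 < n := by
  exact_mod_cast (Real.one_le_rpow hx.le hlo).trans_lt h.2.1

/-- the density of a block that does not contain `1` -/
theorem dens_bf {B : Blk} {β₁ β₂ w : ℝ} (ha : 1 / 200 ≤ B.a) (hlo : 0 ≤ B.lo) (hw : 0 ≤ w)
    (h : ∀ β, β₁ ≤ β → β ≤ β₂ → B.lo ≤ β → β ≤ B.hi → B.a ≤ β → GB B β ≤ w * β) :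
    Dens (fun x => bf x B) β₁ β₂ w := by
  obtain ⟨lo, hi, a, b⟩ := B
  simp only at ha hlo h
  rcases b with _ | c
  · have m1 := le_max_left hi a
    have m2 := le_max_right hi a
    refine (dens_MM dconv lprime_all dprime_all (lo := lo) (hi := hi) (b := max hi a) ha m2 hw
      fun β h1 h2 h3 h4 h5 => ?_).mono ?_
    · have u2 : β / max hi a ≤ 2 := by
        rw [div_le_iff₀ (by linarith)]
        linarith
      rw [if_pos (by linarith), max_eq_right u2, show (2 : ℝ) - 1 = 1 by norm_num, Om_one,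
        sub_zero]
      exact h β h1 h2 h3 h4 h5
    · filter_upwards [ev_pos] with x hx n _ _
      refine bf_le (ind_nonneg _ _) fun hn => ?_
      have n1 := one_lt_of_mem hx (B := ⟨lo, hi, a, none⟩) hlo hn
      exact (ind_pos n1 ⟨⟨hn.2.1, hn.2.2.1⟩, hn.2.2.2.1, fun h6 => absurd
        ((rough_lt n1 h6).trans_le hn.2.2.1)
        (Real.rpow_le_rpow_of_exponent_le hx.le m1).not_gt⟩).ge
  rcases lt_or_ge c a with hc | hc
  · refine (Dens.zero ?_).weak le_rfl le_rfl hw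
    filter_upwards [ev_pos] with x hx n _ _
    exact bf_le le_rfl fun hn => absurd (S.Rough.anti hx.le hc.le hn.2.2.2.1) (hn.2.2.2.2 c rfl)
  refine (dens_MM dconv lprime_all dprime_all (lo := lo) (hi := hi) ha hc hw h).mono ?_
  filter_upwards [ev_pos] with x hx n _ _
  exact bf_le (ind_nonneg _ _) fun hn => (ind_pos (one_lt_of_mem hx (B := ⟨lo, hi, a, some c⟩)
    hlo hn) ⟨⟨hn.2.1, hn.2.2.1⟩, hn.2.2.2.1, hn.2.2.2.2 c rfl⟩).ge

end Pool.Agent.MP_c853c5_nt.L

end

section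

/-!
The long sum of a product of blocks: the real rules.
-/

set_option autoImplicit false

open Finset Filter

namespace Pool.Agent.MP_c853c5_nt.L

open Pool.Agent.MP_c853c5_nt.S (Rough Blk bf Mass)

/-- a nonnegative factor of size in `[lo, hi]` and logarithmic mass at most `μ` -/
structure Fx (f : Fam) (lo hi μ : ℝ) : Prop where
  pos : Pos f
  sup : Sup f lo hi
  lm : LM f μ
  nn : 0 ≤ μ

lemma Fx.one : Fx (fun _ => 1) 0 0 1 := ⟨Pos.one, Sup.one, LM.one, zero_le_one⟩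

lemma Fx.zero (lo hi : ℝ) : Fx (fun _ => 0) lo hi 0 :=
  ⟨Eventually.of_forall fun _ _ => le_rfl, Eventually.of_forall fun _ _ h => absurd rfl h,
    fun ε hε => Eventually.of_forall fun _ _ => by simpa using hε.le, le_rfl⟩

lemma Fx.mul {f g : Fam} {a b c d μ ν : ℝ} (h : Fx f a b μ) (h' : Fx g c d ν) :
    Fx (fun x => f x * g x) (a + c) (b + d) (μ * ν) :=
  ⟨h.pos.mul h'.pos, h.sup.mul h'.sup, lmul f g μ ν h.nn h'.nn h.pos h'.pos h.lm h'.lm,
    mul_nonneg h.nn h'.nn⟩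

lemma Fx.add {f g : Fam} {a b μ ν : ℝ} (h : Fx f a b μ) (h' : Fx g a b ν) :
    Fx (fun x => f x + g x) a b (μ + ν) := by
  refine ⟨?_, ?_, h.lm.add h'.lm, add_nonneg h.nn h'.nn⟩
  · filter_upwards [h.pos, h'.pos] with x h1 h2 m
    exact add_nonneg (h1 m) (h2 m)
  · filter_upwards [h.sup, h'.sup] with x h1 h2 m hm
    by_cases e : f x m = 0
    · exact h2 m fun e' => hm (by rw [ArithmeticFunction.add_apply, e, e', add_zero])
    · exact h1 m e

lemma Fx.weak {f : Fam} {a b μ a' b' μ' : ℝ} (h : Fx f a b μ) (ha : a' ≤ a) (hb : b ≤ b')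
    (hμ : μ ≤ μ') : Fx f a' b' μ' :=
  ⟨h.pos, h.sup.weak ha hb, h.lm.mono (Eventually.of_forall fun _ _ => le_rfl) hμ,
    h.nn.trans hμ⟩

lemma Dens.mass {g : Fam} {w : ℝ} (h : Dens g 1 1 w) : Mass g w := fun ε hε => by
  filter_upwards [h ε hε] with x h1
  exact h1 x (by simp) (by simp)

/-- the mass rule -/
theorem mass_of {f g : Fam} {lo hi μ w : ℝ} (h : Fx f lo hi μ) (hw : 0 ≤ w)
    (hg : Dens g (1 - hi) (1 - lo) w) : Mass (fun x => f x * g x) (μ * w) :=
  (dconv f g lo hi 1 1 μ w h.nn hw h.pos h.sup h.lm hg).mass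

/-- a function that is too short has no mass -/
lemma mass_short {f : Fam} {lo hi : ℝ} (h : Sup f lo hi) (h1 : hi < 1) : Mass f 0 := by
  refine (Dens.zero ?_).mass
  filter_upwards [h, ev_two h1] with x h2 h3 n h4 _
  by_contra h5
  have := (h2 n fun e => h5 e.le).2
  linarith

lemma pos_bf (B : Blk) : Pos fun x => bf x B := Eventually.of_forall fun x => S.nn_bf x B

lemma lt_of_mem {x : ℝ} (hx : 1 < x) {B : Blk} (hlo : 0 ≤ B.lo) {n : ℕ} (h : B.Mem x n) :
    x ^ max B.lo B.a < n := by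
  rcases le_total B.lo B.a with e | e
  · rw [max_eq_right e]
    exact rough_lt (one_lt_of_mem hx hlo h) h.2.2.2.1
  · rw [max_eq_left e]
    exact h.2.1

lemma sup_bf {B : Blk} (hlo : 0 ≤ B.lo) : Sup (fun x => bf x B) (max B.lo B.a) B.hi := by
  filter_upwards [ev_pos] with x hx m hm
  have := S.mem_of_bf_ne hm
  exact ⟨(lt_of_mem hx hlo this).le, this.2.2.1⟩

/-- a block of primes -/
lemma lm_prime {B : Blk} (hlo : 0 ≤ B.lo) (h2 : B.hi ≤ 2 * B.a) {l u : ℝ} (hl : 0 < l)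
    (hu : l ≤ u) (h3 : l ≤ max B.lo B.a) (h4 : B.hi ≤ u ∨ ∃ c ∈ B.b, c ≤ u) :
    LM (fun x => bf x B) (Real.log (u / l)) := by
  refine lprime_all _ l u hl hu ?_
  filter_upwards [ev_pos] with x hx n
  refine bf_le (by split_ifs <;> norm_num) fun hn => ?_
  have x0 : 0 < x := by linarith
  have n1 := one_lt_of_mem hx hlo hn
  have hp : n.Prime := by
    by_contra hp
    exact absurd ((sq_lt x0 n1 hp hn.2.2.2.1).trans_le hn.2.2.1)
      (Real.rpow_le_rpow_of_exponent_le hx.le h2).not_gt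
  refine (if_pos ⟨hp, (Real.rpow_le_rpow_of_exponent_le hx.le h3).trans_lt (lt_of_mem hx hlo hn),
    ?_⟩).ge
  rcases h4 with h4 | ⟨c, hc, h4⟩
  · exact hn.2.2.1.trans (Real.rpow_le_rpow_of_exponent_le hx.le h4)
  · have := hn.2.2.2.2 c hc
    rw [S.rough_prime hp, not_lt] at this
    exact this.trans (Real.rpow_le_rpow_of_exponent_le hx.le h4)

lemma lm_empty {B : Blk} (hlo : 0 ≤ B.lo) (h : B.hi ≤ max B.lo B.a) : LM (fun x => bf x B) 0 := by
  refine (Fx.zero 0 0).lm.mono ?_ le_rfl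
  filter_upwards [ev_pos] with x hx n
  exact bf_le le_rfl fun hn => absurd ((lt_of_mem hx hlo hn).trans_le hn.2.2.1)
    (Real.rpow_le_rpow_of_exponent_le hx.le h).not_gt

/-- a general block -/
lemma lm_gen {B : Blk} {w : ℝ} (ha : 1 / 200 ≤ B.a) (hlo : 0 ≤ B.lo) (hw : 0 ≤ w)
    (h1 : max B.lo B.a ≤ B.hi)
    (h : ∀ β, B.lo ≤ β → β ≤ B.hi → B.a ≤ β → GB B β ≤ w * β) :
    LM (fun x => bf x B) (w * (B.hi - max B.lo B.a)) :=
  ldens _ _ _ _ (max B.lo B.a - 1) (B.hi + 1) w (by linarith) h1 (by linarith) hw (pos_bf B)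
    (Eventually.of_forall fun _ _ => le_rfl) (sup_bf hlo)
    (dens_bf ha hlo hw fun β _ _ => h β)

/-! ### distributions on a grid -/

/-- the pointwise order for large `x` -/
def EL (f g : Fam) : Prop := ∀ᶠ x : ℝ in atTop, ∀ n, f x n ≤ g x n

lemma EL.trans {f g k : Fam} (h : EL f g) (h' : EL g k) : EL f k := by
  filter_upwards [h, h'] with x h1 h2 n
  exact (h1 n).trans (h2 n)

lemma EL.of_eq {f g : Fam} (h : ∀ x, f x = g x) : EL f g :=
  Eventually.of_forall fun x n => by rw [h x]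

lemma EL.add {f g f' g' : Fam} (h : EL f g) (h' : EL f' g') :
    EL (fun x => f x + f' x) fun x => g x + g' x := by
  filter_upwards [h, h'] with x h1 h2 n
  exact add_le_add (h1 n) (h2 n)

lemma EL.mul {f g k : Fam} (h : EL f g) (hk : Pos k) :
    EL (fun x => f x * k x) fun x => g x * k x := by
  filter_upwards [h, hk] with x h1 h2
  exact S.Le.mul_right h2 h1

lemma EL.mass {f g : Fam} {m : ℝ} (h : EL f g) (hg : Mass g m) : Mass f m :=
  hg.of_le (h.mono fun _ h1 n _ => h1 n)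

/-- `f` is bounded by pieces of size in `[b + i h, b + i h + ρ]` and of mass `v i * s` -/
def Dec (h ρ s : ℝ) : List ℕ → Fam → ℝ → Prop
  | [], f, _ => EL f fun _ => 0
  | a :: v, f, b => ∃ f₀ f₁ : Fam, Fx f₀ b (b + ρ) (a * s) ∧ Dec h ρ s v f₁ (b + h) ∧
      EL f fun x => f₀ x + f₁ x

variable {h ρ ρ' s s' b b' : ℝ}

lemma Dec.mono {v : List ℕ} {f g : Fam} (H : Dec h ρ s v g b) (e : EL f g) : Dec h ρ s v f b := by
  cases v with
  | nil => exact e.trans H
  | cons a v =>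
    obtain ⟨f₀, f₁, h1, h2, h3⟩ := H
    exact ⟨f₀, f₁, h1, h2, e.trans h3⟩

/-- `a * v + u` -/
def axpy (a : ℕ) : List ℕ → List ℕ → List ℕ
  | [], u => u
  | c :: v, [] => a * c :: axpy a v []
  | c :: v, d :: u => (a * c + d) :: axpy a v u

lemma Dec.axpy {a : ℕ} {g : Fam} (hg : Fx g b' (b' + ρ') (a * s')) (v : List ℕ) :
    ∀ (u : List ℕ) (f k : Fam) (b : ℝ), Dec h ρ s v f b →
      Dec h (ρ' + ρ) (s' * s) u k (b' + b) →
      Dec h (ρ' + ρ) (s' * s) (axpy a v u) (fun x => f x * g x + k x) (b' + b) := by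
  induction v with
  | nil =>
    intro u f k b H K
    refine K.mono (((EL.mul H hg.pos).add (EL.of_eq fun _ => rfl)).trans (EL.of_eq fun x => ?_))
    simp
  | cons c v ih =>
    intro u f k b H K
    obtain ⟨f₀, f₁, h1, h2, h3⟩ := H
    have h4 : Fx (fun x => f₀ x * g x) (b' + b) (b' + b + (ρ' + ρ)) (((a * c : ℕ) : ℝ) * (s' * s)) :=
      (h1.mul hg).weak (by linarith) (by linarith) (by push_cast; linarith)
    cases u with
    | nil =>
      refine ⟨_, _, h4, (add_assoc b' b h).symm ▸ ih [] f₁ k (b + h) h2 K, ?_⟩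
      refine ((h3.mul hg.pos).add (EL.of_eq fun _ => rfl)).trans (EL.of_eq fun x => ?_)
      ring
    | cons d u =>
      obtain ⟨k₀, k₁, g1, g2, g3⟩ := K
      rw [add_assoc] at g2
      refine ⟨_, _, (h4.add g1).weak le_rfl le_rfl (by push_cast; linarith),
        (add_assoc b' b h).symm ▸ ih u f₁ k₁ (b + h) h2 g2, ?_⟩
      refine ((h3.mul hg.pos).add g3).trans (EL.of_eq fun x => ?_)
      ring

/-- the product of two polynomials -/
def pmul (v : List ℕ) : List ℕ → List ℕ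
  | [] => []
  | a :: u => axpy a v (0 :: pmul v u)

lemma Dec.mul {v : List ℕ} {f : Fam} (H : Dec h ρ s v f b) (hf : Pos f) (u : List ℕ) :
    ∀ (g : Fam) (b' : ℝ), Dec h ρ' s' u g b' →
      Dec h (ρ' + ρ) (s' * s) (pmul v u) (fun x => g x * f x) (b' + b) := by
  induction u with
  | nil =>
    intro g b' K
    exact (EL.mul K hf).trans (EL.of_eq fun x => by simp)
  | cons a u ih =>
    intro g b' K
    obtain ⟨g₀, g₁, h1, h2, h3⟩ := K
    have h4 := ih g₁ _ h2
    rw [add_right_comm] at h4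
    refine (Dec.axpy h1 v (0 :: pmul v u) f (fun x => g₁ x * f x) b H
      ⟨_, _, (Fx.zero _ _).weak le_rfl le_rfl (by simp), h4, EL.of_eq fun x => by simp⟩).mono ?_
    refine (h3.mul hf).trans (EL.of_eq fun x => ?_)
    ring

lemma Dec.one (h : ℝ) : Dec h 0 1 [1] (fun _ => 1) 0 :=
  ⟨_, fun _ => 0, Fx.one.weak le_rfl (by simp) (by simp), EL.of_eq fun _ => rfl,
    EL.of_eq fun _ => by simp⟩

end Pool.Agent.MP_c853c5_nt.L

end
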