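import Pool.Agent.MP_c853c5_nt.X.Defs
import Mathlib
import Pool.Agent.MP_c853c5_nt.Z.PDefs
import Pool.Agent.MP_c853c5_nt.S.Defs
import Pool.Agent.MP_c853c5_nt.E.Basic
import Pool.Agent.MP_c853c5_nt.DS.Basic

section

/-!
The least prime factor of a composite factor is split off.
-/

set_option autoImplicit false

open Finset Filter

namespace Pool.Agent.MP_c853c5_nt.X

open Pool.Agent.MP_c853c5_nt.S

/-- the factors `i` and `k` of a tuple are merged -/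
def mrg_Open (i k : ℕ) (μ : ℕ → ℕ) : ℕ → ℕ :=
  Function.update (Function.update μ i (μ i * μ k)) k 1

/-- the factor `k` is above the level -/
def bt_Open (a : Pt) (k : ℕ) : Kind → Prop
  | .P => False
  | .R c => c < a k
  | .L l => a l ≤ a k

section

variable {i k n : ℕ} {μ : ℕ → ℕ} {x : ℝ} {kind : ℕ → Kind}

lemma mrg_i_Open (hi : i < k) : mrg_Open i k μ i = μ i * μ k := by
  simp [mrg_Open, hi.ne]

lemma mrg_ne_Open {j : ℕ} (h1 : j ≠ i) (h2 : j ≠ k) : mrg_Open i k μ j = μ j := by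
  simp [mrg_Open, h1, h2]

lemma mg_ne_Open {a : Pt} {j : ℕ} (h1 : j ≠ i) (h2 : j ≠ k) : mg i k a j = a j := by
  simp [mg, h1, h2]

lemma prod_mrg_Open (hi : i < k) :
    ∏ j ∈ range k, mrg_Open i k μ j = ∏ j ∈ range (k + 1), μ j := by
  rw [prod_range_succ, ← mul_prod_erase _ _ (mem_range.2 hi),
    ← mul_prod_erase _ μ (mem_range.2 hi), mrg_i_Open hi, mul_right_comm]
  congr 2
  exact prod_congr rfl fun j hj =>
    mrg_ne_Open (mem_erase.1 hj).1 (mem_range.1 (mem_erase.1 hj).2).ne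

lemma pos_Open (h : μ ∈ tup k n) (j : ℕ) : 0 < μ j := by
  obtain ⟨h1, h2, h3⟩ := mem_tup.1 h
  rcases lt_or_ge j k with hj | hj
  · exact Nat.pos_of_ne_zero fun e => h1 (h2 ▸ prod_eq_zero (mem_range.2 hj) e)
  · rw [h3 j hj]
    exact one_pos

lemma mrg_mem_Open (hi : i < k) (h : μ ∈ tup (k + 1) n) : mrg_Open i k μ ∈ tup k n := by
  obtain ⟨h1, h2, h3⟩ := mem_tup.1 h
  refine mem_tup.2 ⟨h1, (prod_mrg_Open hi).trans h2, fun j hj => ?_⟩
  rcases hj.eq_or_lt with rfl | hj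
  · simp [mrg_Open]
  · rw [mrg_ne_Open (hi.trans hj).ne' hj.ne', h3 j hj]

lemma minFac_Open {m q : ℕ} (hq : q.Prime) (h : ∀ p : ℕ, p.Prime → p ∣ m → q ≤ p) :
    (m * q).minFac = q := by
  have h1 : m * q ≠ 1 := fun e => hq.ne_one (Nat.eq_one_of_mul_eq_one_left e)
  refine le_antisymm (Nat.minFac_le_of_dvd hq.two_le (dvd_mul_left _ _)) ?_
  have h2 := Nat.minFac_prime h1
  rcases h2.dvd_mul.1 (Nat.minFac_dvd (m * q)) with h3 | h3
  · exact h _ h2 h3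
  · exact ((Nat.prime_dvd_prime_iff_eq h2 hq).1 h3).ge

/-- the bijection -/
lemma card_Open (hi : i < k) {A A₁ B : (ℕ → ℕ) → Prop} {_ : DecidablePred A}
    {_ : DecidablePred A₁} {_ : DecidablePred B} (h1 : ∀ μ ∈ tup k n, A₁ μ → A μ)
    (hA : ∀ μ ∈ tup k n, A μ → ¬ A₁ μ → ¬ (μ i).Prime ∧ 1 < μ i)
    (hB : ∀ μ ∈ tup (k + 1) n, B μ →
      (μ k).Prime ∧ 1 < μ i ∧ ∀ p : ℕ, p.Prime → p ∣ μ i → μ k ≤ p)
    (hAB : ∀ μ ∈ tup (k + 1) n, (μ k).Prime → 1 < μ i →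
      (∀ p : ℕ, p.Prime → p ∣ μ i → μ k ≤ p) →
      (A (mrg_Open i k μ) ∧ ¬ A₁ (mrg_Open i k μ) ↔ B μ)) :
    ((tup k n).filter A).card = ((tup k n).filter A₁).card + ((tup (k + 1) n).filter B).card := by
  rw [← card_filter_add_card_filter_not (s := (tup k n).filter A) A₁, filter_filter,
    filter_filter]
  congr 1
  · exact congrArg card (filter_congr fun μ hμ => ⟨fun h => h.2, fun h => ⟨h1 μ hμ h, h⟩⟩)
  symm
  refine card_bij (fun μ _ => mrg_Open i k μ) (fun μ hμ => ?_) (fun μ hμ ν hν e => ?_)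
    fun μ hμ => ?_
  · obtain ⟨h2, h3⟩ := mem_filter.1 hμ
    obtain ⟨h4, h5, h6⟩ := hB μ h2 h3
    exact mem_filter.2 ⟨mrg_mem_Open hi h2, (hAB μ h2 h4 h5 h6).2 h3⟩
  · obtain ⟨h4, -, h6⟩ := hB μ (mem_filter.1 hμ).1 (mem_filter.1 hμ).2
    obtain ⟨h4', -, h6'⟩ := hB ν (mem_filter.1 hν).1 (mem_filter.1 hν).2
    have e1 : μ i * μ k = ν i * ν k := by
      rw [← mrg_i_Open hi, ← mrg_i_Open hi]
      exact congrFun e i
    have e2 : μ k = ν k := by rw [← minFac_Open h4 h6, e1, minFac_Open h4' h6']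
    funext j
    by_cases hk : j = k
    · rw [hk, e2]
    by_cases hj : j = i
    · rw [e2] at e1
      rw [hj, Nat.eq_of_mul_eq_mul_right h4'.pos e1]
    · rw [← mrg_ne_Open (μ := μ) hj hk, ← mrg_ne_Open (μ := ν) hj hk]
      exact congrFun e j
  · obtain ⟨h2, h3, h4⟩ := mem_filter.1 hμ
    obtain ⟨h5, h6⟩ := hA μ h2 h3 h4
    obtain ⟨g1, g2, g3⟩ := mem_tup.1 h2
    set ν := Function.update (Function.update μ i (μ i / (μ i).minFac)) k (μ i).minFac with hν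
    have n1 : ν k = (μ i).minFac := by simp [hν]
    have n2 : ν i = μ i / (μ i).minFac := by simp [hν, hi.ne]
    have e : mrg_Open i k ν = μ := by
      funext j
      by_cases hk : j = k
      · rw [hk, g3 k le_rfl]
        simp [mrg_Open]
      by_cases hj : j = i
      · rw [hj, mrg_i_Open hi, n1, n2, Nat.div_mul_cancel (Nat.minFac_dvd _)]
      · rw [mrg_ne_Open hj hk]
        simp [hν, hj, hk]
    have m1 : ν ∈ tup (k + 1) n := by
      refine mem_tup.2 ⟨g1, by rw [← prod_mrg_Open hi, e, g2], fun j hj => ?_⟩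
      have hk : j ≠ k := by omega
      have hj' : j ≠ i := by omega
      simp [hν, hj', hk, g3 j (by omega)]
    have p1 := Nat.minFac_prime h6.ne'
    refine ⟨ν, mem_filter.2 ⟨m1, (hAB ν m1 (n1 ▸ p1) ?_ fun p hp hd => ?_).1 ?_⟩, e⟩
    · rw [n2]
      exact p1.one_lt.trans_le (Nat.minFac_le_div (by omega) h5)
    · rw [n2] at hd
      rw [n1]
      exact Nat.minFac_le_of_dvd hp.two_le (hd.trans (Nat.div_dvd_of_dvd (Nat.minFac_dvd _)))
    · rw [e]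
      exact ⟨h3, h4⟩

lemma pt_mrg_Open (hi : i < k) (h : ∀ j, 0 < μ j) :
    pt x (mrg_Open i k μ) = mg i k (pt x μ) := by
  funext j
  by_cases hk : j = k
  · simp [hk, pt, mg, mrg_Open]
  by_cases hj : j = i
  · rw [hj]
    simp only [pt, mrg_i_Open hi, mg, Function.update_of_ne hi.ne, Function.update_self,
      Nat.cast_mul]
    exact Real.logb_mul (Nat.cast_ne_zero.2 (h i).ne') (Nat.cast_ne_zero.2 (h k).ne')
  · rw [mg_ne_Open hj hk]
    simp only [pt, mrg_ne_Open hj hk]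

lemma lt_pt_Open (hx : 1 < x) (h : ∀ j, 0 < μ j) {c : ℝ} {j : ℕ} :
    c < pt x μ j ↔ x ^ c < μ j :=
  Real.lt_logb_iff_rpow_lt hx (Nat.cast_pos.2 (h j))

lemma pt_le_Open (hx : 1 < x) (h : ∀ j, 0 < μ j) {j l : ℕ} :
    pt x μ l ≤ pt x μ j ↔ μ l ≤ μ j :=
  (Real.logb_le_logb hx (Nat.cast_pos.2 (h l)) (Nat.cast_pos.2 (h j))).trans Nat.cast_le

lemma one_lt_Open (h : ∀ j, 0 < μ j) {j : ℕ} (h1 : 1 / 50 ≤ pt x μ j) : 1 < μ j := by
  by_contra h2
  have h3 : μ j = 1 := by have := h j; omega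
  simp only [pt, h3, Nat.cast_one, Real.logb_one] at h1
  norm_num at h1

lemma ok_upd_Open (hi : i < k) (κ : Kind) :
    (∀ j < k, (Function.update kind i κ j).ok x μ j) ↔
      κ.ok x μ i ∧ ∀ j < k, j ≠ i → (kind j).ok x μ j := by
  refine ⟨fun h => ⟨by simpa using h i hi, fun j hj hji => by simpa [hji] using h j hj⟩,
    fun h j hj => ?_⟩
  by_cases hji : j = i
  · simpa [hji] using h.1
  · simpa [hji] using h.2 j hj hji

lemma ok_self_Open (hi : i < k) : (∀ j < k, (kind j).ok x μ j) ↔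
    (kind i).ok x μ i ∧ ∀ j < k, j ≠ i → (kind j).ok x μ j := by
  rw [← ok_upd_Open hi, Function.update_eq_self]

lemma ok_opn_Open (hi : i < k) : (∀ j < k + 1, (opn kind i k j).ok x μ j) ↔
    (μ k).Prime ∧ (∀ p : ℕ, p.Prime → p ∣ μ i → μ k ≤ p) ∧
      ∀ j < k, j ≠ i → (kind j).ok x μ j := by
  rw [opn, ok_upd_Open k.lt_succ_self]
  refine and_congr Iff.rfl (Iff.trans ?_ (ok_upd_Open hi (.L k)))
  exact ⟨fun h j hj => h j (by omega) hj.ne, fun h j hj hk => h j (by omega)⟩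

lemma ok_mrg_Open (hl : ∀ j < k, ∀ l, kind j = .L l → l ≠ i ∧ l ≠ k) :
    (∀ j < k, j ≠ i → (kind j).ok x (mrg_Open i k μ) j) ↔ ∀ j < k, j ≠ i → (kind j).ok x μ j := by
  refine forall₃_congr fun j hj hji => ?_
  have h1 := hl j hj
  generalize kind j = κ at h1
  cases κ with
  | P => simp only [Kind.ok, mrg_ne_Open hji hj.ne]
  | R c => simp only [Kind.ok, mrg_ne_Open hji hj.ne]
  | L l => simp only [Kind.ok, mrg_ne_Open hji hj.ne, mrg_ne_Open (h1 l rfl).1 (h1 l rfl).2]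

lemma ok_mrg_i_Open (hx : 1 < x) (hi : i < k) (h : ∀ j, 0 < μ j) (h1 : (μ k).Prime)
    (h2 : 1 < μ i) (h3 : ∀ p : ℕ, p.Prime → p ∣ μ i → μ k ≤ p) {κ : Kind}
    (hl : ∀ l, κ = .L l → l ≠ i ∧ l ≠ k) :
    κ.ok x (mrg_Open i k μ) i ↔ bt_Open (pt x μ) k κ := by
  have h4 : ∀ p : ℕ, p.Prime → p ∣ μ i * μ k → μ k ≤ p := fun p hp hd =>
    (hp.dvd_mul.1 hd).elim (h3 p hp) fun e => ((Nat.prime_dvd_prime_iff_eq hp h1).1 e).ge
  cases κ with
  | P =>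
    simp only [Kind.ok, bt_Open, mrg_i_Open hi, iff_false]
    exact Nat.not_prime_mul h2.ne' h1.ne_one
  | R c =>
    simp only [Kind.ok, bt_Open, mrg_i_Open hi, lt_pt_Open hx h]
    exact ⟨fun g => g _ h1 (dvd_mul_left _ _),
      fun g p hp hd => g.trans_le (Nat.cast_le.2 (h4 p hp hd))⟩
  | L l =>
    simp only [Kind.ok, bt_Open, mrg_i_Open hi, pt_le_Open hx h,
      mrg_ne_Open (hl l rfl).1 (hl l rfl).2]
    exact ⟨fun g => g _ h1 (dvd_mul_left _ _), fun g p hp hd => g.trans (h4 p hp hd)⟩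

lemma imp_of_ok_Open (hx : 1 < x) (h : ∀ j, 0 < μ j) (h1 : 1 < μ i) {κ : Kind}
    (h2 : κ.ok x μ i) : κ.imp (pt x μ) i := by
  have h3 := Nat.minFac_prime h1.ne'
  have h4 := Nat.minFac_le (h i)
  cases κ with
  | P => trivial
  | R c => exact (lt_pt_Open hx h).2 ((h2 _ h3 (Nat.minFac_dvd _)).trans_le (Nat.cast_le.2 h4))
  | L l => exact (pt_le_Open hx h).2 ((h2 _ h3 (Nat.minFac_dvd _)).trans h4)

lemma ok_of_imp_Open (hx : 1 < x) (h : ∀ j, 0 < μ j) (h1 : (μ i).Prime) {κ : Kind}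
    (h2 : κ.imp (pt x μ) i) : κ.ok x μ i := by
  cases κ with
  | P => exact h1
  | R c =>
    intro p hp hd
    rw [(Nat.prime_dvd_prime_iff_eq hp h1).1 hd]
    exact (lt_pt_Open hx h).1 h2
  | L l =>
    intro p hp hd
    rw [(Nat.prime_dvd_prime_iff_eq hp h1).1 hd]
    exact (pt_le_Open hx h).1 h2

lemma rough_of_ok_Open (hx : 1 < x) (h : ∀ j, 0 < μ j) {κ : Kind} {ν : ℝ} (h1 : κ.ok x μ i)
    (h2 : κ.above ν (pt x μ) i) : Rough x ν (μ i) := by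
  intro p hp hd
  cases κ with
  | P =>
    rw [(Nat.prime_dvd_prime_iff_eq hp h1).1 hd]
    exact (lt_pt_Open hx h).1 h2
  | R c => exact (Real.rpow_le_rpow_of_exponent_le hx.le h2).trans_lt (h1 p hp hd)
  | L l => exact ((lt_pt_Open hx h).1 h2).trans_le (Nat.cast_le.2 (h1 p hp hd))

lemma tame_congr_Open {Q Q' : Pt → Prop} (h : Tame k Q) (e : ∀ a, Q a ↔ Q' a) : Tame k Q' :=
  (funext fun a => propext (e a) : Q = Q') ▸ h

lemma adm1_Open (hi : i < k) (c : ℝ) : (⟨{k}, ∅, c⟩ : Row).Adm (k + 1) := by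
  refine ⟨by simp, by simp, by simp, by simp, fun h => ?_, fun h => ?_⟩
  · have h1 : i ∈ ({k} : Finset ℕ) := (show ({k} : Finset ℕ) = range (k + 1) from h) ▸
      mem_range.2 (by omega)
    exact absurd (mem_singleton.1 h1) hi.ne
  · exact absurd (show (∅ : Finset ℕ) = range (k + 1) from h).symm nonempty_range_add_one.ne_empty

lemma adm2_Open {l : ℕ} (hl : l < k) : (⟨{k}, {l}, 0⟩ : Row).Adm (k + 1) :=
  ⟨by simp, by simpa using hl.le, by simpa using hl.ne', by simp, fun _ => by norm_num,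
    fun _ => by norm_num⟩

lemma tame_le_Open (h : TameStmt) (hi : i < k) : Tame (k + 1) fun a => a k ≤ a i :=
  tame_congr_Open (h.2.2.1 _ _ (adm2_Open hi)).1 fun a => by simp [Row.val]

lemma tame_bt_Open (h : TameStmt) (hi : i < k) {κ : Kind} (hl : ∀ l, κ = .L l → l < k) :
    (κ ≠ .P → Tame (k + 1) fun a => bt_Open a k κ) ∧ Tame (k + 1) fun a => ¬ bt_Open a k κ := by
  cases κ with
  | P => exact ⟨fun e => absurd rfl e, tame_congr_Open (h.2.1 _) fun a => by simp [bt_Open]⟩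
  | R c =>
    have h1 := h.2.2.1 _ _ (adm1_Open hi c)
    exact ⟨fun _ => tame_congr_Open h1.2.2.2 fun a => by simp [Row.val, bt_Open],
      tame_congr_Open h1.1 fun a => by simp [Row.val, bt_Open]⟩
  | L l =>
    have h1 := h.2.2.1 _ _ (adm2_Open (hl l rfl))
    exact ⟨fun _ => tame_congr_Open h1.2.2.1 fun a => by simp [Row.val, bt_Open],
      tame_congr_Open h1.2.1 fun a => by simp [Row.val, bt_Open]⟩

lemma low_Open {a : Pt} (h1 : ∀ j < k, 1 / 50 ≤ mg i k a j) (h2 : 1 / 50 ≤ a k)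
    (h3 : a k ≤ a i) : ∀ j < k + 1, 1 / 50 ≤ a j := by
  intro j hj
  by_cases hk : j = k
  · rwa [hk]
  by_cases hi : j = i
  · rw [hi]
    exact h2.trans h3
  · rw [← mg_ne_Open (a := a) hi hk]
    exact h1 j (by omega)

lemma lt_of_le_Open (hx : 1 < x) (h : ∀ j, 0 < μ j) (h1 : (μ k).Prime)
    (h2 : pt x μ k ≤ pt x μ i) : 1 < μ i := h1.one_lt.trans_le ((pt_le_Open hx h).1 h2)

lemma le_of_lt_Open (hx : 1 < x) (h : ∀ j, 0 < μ j) (h1 : 1 < μ i)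
    (h2 : ∀ p : ℕ, p.Prime → p ∣ μ i → μ k ≤ p) : pt x μ k ≤ pt x μ i :=
  (pt_le_Open hx h).2
    ((h2 _ (Nat.minFac_prime h1.ne') (Nat.minFac_dvd _)).trans (Nat.minFac_le (h i)))

end

theorem xDown (h : TameStmt) : DownStmt := by
  intro sg t l l' ν k i kind Ω Ω' hK hi hL hν hab hΩ H1 H2 Q hQ hQΩ
  have hl : ∀ j < k, ∀ l, kind j = .L l → l ≠ i ∧ l ≠ k := fun j hj l e =>
    ⟨fun e' => hL j hj (e' ▸ e), ((hK j hj).2 l e).1.ne⟩
  have T1 : Tame k fun a => Q a ∧ (kind i).imp a i := h.1 _ _ _ hQ (h.2.2.2.2 k i kind hK hi)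
  have T2 : Tame (k + 1) fun a => (Q (mg i k a) ∧ (kind i).imp (mg i k a) i) ∧
      bt_Open a k (.R ν) ∧ a k ≤ a i ∧ ¬ bt_Open a k (kind i) :=
    h.1 _ _ _ (h.2.2.2.1 k i _ hi T1) (h.1 _ _ _ ((tame_bt_Open h hi (by simp)).1 (by simp))
      (h.1 _ _ _ (tame_le_Open h hi) (tame_bt_Open h hi fun l e => ((hK i hi).2 l e).1).2))
  have S1 := H1 _ T1 fun a ha => hQΩ a ha.1
  have S2 := H2 _ T2 fun a ⟨h1, h2, h3, h4⟩ => by
    refine ⟨hΩ a (hQΩ _ h1.1).1 (le_of_lt h2) h3 ?_,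
      low_Open (hQΩ _ h1.1).2 (hν.trans (le_of_lt h2)) h3⟩
    revert h4
    cases kind i with
    | P => exact fun _ => trivial
    | R c => exact fun h4 => not_lt.1 h4
    | L l => exact fun h4 => (not_le.1 h4).le
  refine (S1.sub S2).congr ((eventually_gt_atTop 1).mono fun x hx n _ => ?_)
  refine sub_eq_of_eq_add ((congrArg Nat.cast (card_Open hi ?_ ?_ ?_ ?_)).trans (Nat.cast_add _ _))
  · rintro μ hμ ⟨h1, h2⟩
    have hp := pos_Open hμ
    rw [ok_self_Open hi] at h2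
    exact ⟨⟨h1, imp_of_ok_Open hx hp (one_lt_Open hp ((hQΩ _ h1).2 i hi)) h2.1⟩,
      (ok_upd_Open hi _).2 ⟨rough_of_ok_Open hx hp h2.1 (hab _ (hQΩ _ h1).1), h2.2⟩⟩
  · rintro μ hμ ⟨⟨h1, h2⟩, h3⟩ h4
    have hp := pos_Open hμ
    exact ⟨fun h5 => h4 ⟨h1, (ok_self_Open hi).2
      ⟨ok_of_imp_Open hx hp h5 h2, ((ok_upd_Open hi _).1 h3).2⟩⟩,
      one_lt_Open hp ((hQΩ _ h1).2 i hi)⟩
  · rintro μ hμ ⟨h1, h2⟩
    rw [ok_opn_Open hi] at h2
    exact ⟨h2.1, lt_of_le_Open hx (pos_Open hμ) h2.1 h1.2.2.1, h2.2.1⟩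
  · intro μ hμ h1 h2 h3
    have hp := pos_Open hμ
    have h4 := le_of_lt_Open hx hp h2 h3
    rw [ok_upd_Open hi, ok_self_Open hi, ok_opn_Open hi, ok_mrg_Open hl, pt_mrg_Open hi hp,
      ok_mrg_i_Open hx hi hp h1 h2 h3 (by simp), ok_mrg_i_Open hx hi hp h1 h2 h3 (hl i hi)]
    exact ⟨fun ⟨⟨a, b, c⟩, d⟩ => ⟨⟨a, b, h4, fun e => d ⟨a.1, e, c⟩⟩, h1, h3, c⟩,
      fun ⟨⟨a, b, _, d⟩, _, _, c⟩ => ⟨⟨a, b, c⟩, fun e => d e.2.1⟩⟩

theorem xUp (h : TameStmt) : UpStmt := by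
  intro sg t l l' k i kind Ω Ω' hK hi hP hΩ H1 H2 Q hQ hQΩ
  have hl : ∀ j < k, ∀ l, kind j = .L l → l ≠ i ∧ l ≠ k := fun j hj l e =>
    ⟨fun e' => hP (e' ▸ ((hK j hj).2 l e).2), ((hK j hj).2 l e).1.ne⟩
  have T1 : Tame k fun a => Q a ∧ (kind i).imp a i := h.1 _ _ _ hQ (h.2.2.2.2 k i kind hK hi)
  have T2 : Tame (k + 1) fun a => Q (mg i k a) ∧ a k ≤ a i ∧ bt_Open a k (kind i) :=
    h.1 _ _ _ (h.2.2.2.1 k i _ hi hQ) (h.1 _ _ _ (tame_le_Open h hi)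
      ((tame_bt_Open h hi fun l e => ((hK i hi).2 l e).1).1 hP))
  have S1 := H1 _ T1 fun a ha => hQΩ a ha.1
  have S2 := H2 _ T2 fun a ⟨h1, h3, h4⟩ => by
    have h5 : (kind i).bot a (a k) ∧ 1 / 50 ≤ a k := by
      have h6 := hK i hi
      have h7 := hl i hi
      revert h4 h6 h7
      cases kind i with
      | P => exact fun h4 => h4.elim
      | R c => exact fun h4 h6 _ => ⟨le_of_lt h4, (h6.1 c rfl).1.trans (le_of_lt h4)⟩
      | L l =>
        refine fun h4 h6 h7 => ⟨h4, le_trans ?_ h4⟩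
        rw [← mg_ne_Open (a := a) (h7 l rfl).1 (h7 l rfl).2]
        exact (hQΩ _ h1).2 l (h6.2 l rfl).1
    exact ⟨hΩ a (hQΩ _ h1).1 h3 h5.1, low_Open (hQΩ _ h1).2 h5.2 h3⟩
  refine (S1.add S2).congr ((eventually_gt_atTop 1).mono fun x hx n _ => ?_)
  refine ((congrArg Nat.cast (card_Open hi ?_ ?_ ?_ ?_)).trans (Nat.cast_add _ _)).symm
  · rintro μ hμ ⟨h1, h2⟩
    rw [ok_upd_Open hi] at h2
    exact ⟨h1.1, (ok_self_Open hi).2 ⟨ok_of_imp_Open hx (pos_Open hμ) h2.1 h1.2, h2.2⟩⟩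
  · rintro μ hμ ⟨h1, h2⟩ h4
    have hp := pos_Open hμ
    have h5 := one_lt_Open hp ((hQΩ _ h1).2 i hi)
    rw [ok_self_Open hi] at h2
    exact ⟨fun h6 => h4 ⟨⟨h1, imp_of_ok_Open hx hp h5 h2.1⟩, (ok_upd_Open hi _).2 ⟨h6, h2.2⟩⟩, h5⟩
  · rintro μ hμ ⟨h1, h2⟩
    rw [ok_opn_Open hi] at h2
    exact ⟨h2.1, lt_of_le_Open hx (pos_Open hμ) h2.1 h1.2.1, h2.2.1⟩
  · intro μ hμ h1 h2 h3
    have hp := pos_Open hμ
    have h4 := le_of_lt_Open hx hp h2 h3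
    rw [ok_upd_Open hi, ok_self_Open hi, ok_opn_Open hi, ok_mrg_Open hl, pt_mrg_Open hi hp,
      ok_mrg_i_Open hx hi hp h1 h2 h3 (hl i hi), ok_mrg_i_Open hx hi hp h1 h2 h3 (by simp)]
    exact ⟨fun ⟨⟨a, b, c⟩, _⟩ => ⟨⟨a, h4, b⟩, h1, h3, c⟩,
      fun ⟨⟨a, _, b⟩, _, _, c⟩ => ⟨⟨a, b, c⟩, fun e => e.2.1⟩⟩

end Pool.Agent.MP_c853c5_nt.X

end

section

/-!
An exact inclusion-exclusion identity for Dirichlet convolutions.
-/

set_option autoImplicit false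

open Finset

namespace Pool.Agent.MP_c853c5_nt.B

/-- number of prime factors of `n` seen by `P` -/
noncomputable def cntP (P : ArithmeticFunction ℝ) (n : ℕ) : ℕ := by
  classical exact (n.primeFactors.filter fun p => P p = 1).card

lemma cntP_div {P : ArithmeticFunction ℝ} {n p : ℕ} (hn : n ≠ 0) (hp : p.Prime) (h1 : P p = 1)
    (hd : p ∣ n) (h2 : ¬p ^ 2 ∣ n) : cntP P n = cntP P (n / p) + 1 := by
  classical
  obtain ⟨m, rfl⟩ := hd
  have hm : m ≠ 0 := fun h => hn (by simp [h])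
  have hpm : ¬p ∣ m := fun h => h2 (by rw [sq]; exact Nat.mul_dvd_mul_left p h)
  rw [Nat.mul_div_cancel_left _ hp.pos]
  unfold cntP
  rw [Nat.primeFactors_mul hp.ne_zero hm, hp.primeFactors, ← insert_eq, filter_insert, if_pos h1,
    card_insert_of_notMem fun h => hpm (Nat.dvd_of_mem_primeFactors (mem_filter.1 h).1)]

lemma mul_apply_prime {P : ArithmeticFunction ℝ} (hP : ∀ p, P p = 0 ∨ (p.Prime ∧ P p = 1))
    (F : ArithmeticFunction ℝ) {n : ℕ} (hn : n ≠ 0) :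
    (P * F) n = ∑ p ∈ n.primeFactors.filter (fun p => P p = 1), F (n / p) := by
  classical
  rw [ArithmeticFunction.mul_apply, Nat.sum_divisorsAntidiagonal fun a b => P a * F b]
  symm
  refine sum_bij_ne_zero (fun p _ _ => p) (fun p hp _ => ?_) (fun _ _ _ _ _ _ h => h)
    (fun p hp h => ?_) fun p hp _ => ?_
  · exact Nat.mem_divisors.2 ⟨Nat.dvd_of_mem_primeFactors (mem_filter.1 hp).1, hn⟩
  · rcases hP p with a | a
    · simp [a] at h
    · refine ⟨p, mem_filter.2 ⟨Nat.mem_primeFactors.2 ⟨a.1, Nat.dvd_of_mem_divisors hp, hn⟩,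
        a.2⟩, fun b => h (by rw [b, mul_zero]), rfl⟩
  · rw [(mem_filter.1 hp).2, one_mul]

lemma pow_mul_apply {P R : ArithmeticFunction ℝ} (hP : ∀ p, P p = 0 ∨ (p.Prime ∧ P p = 1))
    (hR : ∀ p m : ℕ, P p = 1 → m ≠ 0 → R (p * m) = R m) (j : ℕ) :
    ∀ n : ℕ, n ≠ 0 → (∀ p, P p = 1 → ¬p ^ 2 ∣ n) →
      (P ^ j * R) n = ((cntP P n).descFactorial j : ℝ) * R n := by
  classical
  induction j with
  | zero => intro n _ _; simp
  | succ j ih =>
    intro n hn hg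
    rw [pow_succ', mul_assoc, mul_apply_prime hP _ hn]
    have h1 : ∀ p ∈ n.primeFactors.filter (fun p => P p = 1),
        (P ^ j * R) (n / p) = ((cntP P n - 1).descFactorial j : ℝ) * R n := by
      intro p hp
      obtain ⟨a1, a2⟩ := mem_filter.1 hp
      obtain ⟨b1, b2, -⟩ := Nat.mem_primeFactors.1 a1
      have b3 : n / p ≠ 0 := (Nat.div_pos (Nat.le_of_dvd (Nat.pos_of_ne_zero hn) b2) b1.pos).ne'
      rw [ih _ b3 fun q hq h => hg q hq (h.trans (Nat.div_dvd_of_dvd b2)),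
        cntP_div hn b1 a2 b2 (hg p a2), Nat.add_sub_cancel, ← hR p _ a2 b3,
        Nat.mul_div_cancel' b2]
    rw [sum_congr rfl h1, sum_const, nsmul_eq_mul, ← mul_assoc]
    congr 1
    change ((cntP P n : ℕ) : ℝ) * _ = _
    rcases cntP P n with _ | s
    · simp
    · rw [Nat.succ_descFactorial_succ, Nat.add_sub_cancel]
      push_cast
      ring

/-- inclusion-exclusion over the primes seen by `P` -/
lemma incl_excl {P R : ArithmeticFunction ℝ} (hP : ∀ p, P p = 0 ∨ (p.Prime ∧ P p = 1))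
    (hR : ∀ p m : ℕ, P p = 1 → m ≠ 0 → R (p * m) = R m) {J n : ℕ} (hn : n ≠ 0)
    (hg : ∀ p, P p = 1 → ¬p ^ 2 ∣ n) (hJ : cntP P n ≤ J) :
    ∑ j ∈ range (J + 1), (-1) ^ j / (j.factorial : ℝ) * (P ^ j * R) n =
      if cntP P n = 0 then R n else 0 := by
  have h1 : ∀ j ∈ range (J + 1), (-1) ^ j / (j.factorial : ℝ) * (P ^ j * R) n =
      ((-1) ^ j * ((cntP P n).choose j : ℝ)) * R n := by
    intro j _
    rw [pow_mul_apply hP hR j n hn hg, Nat.descFactorial_eq_factorial_mul_choose]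
    have : (j.factorial : ℝ) ≠ 0 := by positivity
    push_cast
    field_simp
  rw [sum_congr rfl h1, ← sum_mul]
  have h2 : ∑ j ∈ range (J + 1), ((-1 : ℝ) ^ j * ((cntP P n).choose j : ℝ)) =
      ∑ j ∈ range (cntP P n + 1), ((-1 : ℝ) ^ j * ((cntP P n).choose j : ℝ)) := by
    refine (sum_subset (range_subset_range.2 (by omega)) fun j _ hj => ?_).symm
    rw [Nat.choose_eq_zero_of_lt (by simpa using hj)]
    simp
  have h3 := Int.alternating_sum_range_choose (n := cntP P n)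
  have h4 : ∑ j ∈ range (cntP P n + 1), ((-1 : ℝ) ^ j * ((cntP P n).choose j : ℝ)) =
      if cntP P n = 0 then 1 else 0 := by
    have := congrArg (fun z : ℤ => (z : ℝ)) h3
    push_cast at this
    exact this
  rw [h2, h4]
  split_ifs <;> simp

lemma abs_mul_apply_le {f g : ArithmeticFunction ℝ} {n : ℕ} {A B : ℝ} (hA : 0 ≤ A)
    (hf : ∀ d, d ∣ n → |f d| ≤ A) (hg : ∀ d, d ∣ n → |g d| ≤ B) :
    |(f * g) n| ≤ n.divisors.card * (A * B) := by
  rw [ArithmeticFunction.mul_apply, Nat.sum_divisorsAntidiagonal fun a b => f a * g b]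
  refine (abs_sum_le_sum_abs _ _).trans ((sum_le_card_nsmul _ _ (A * B) fun d hd => ?_).trans
    (by rw [nsmul_eq_mul]))
  have h := Nat.dvd_of_mem_divisors hd
  rw [abs_mul]
  exact mul_le_mul (hf d h) (hg _ (Nat.div_dvd_of_dvd h)) (abs_nonneg _) hA

/-- a product of bounded functions is bounded by a power of the divisor function -/
lemma abs_prod_apply_le {ι : Type} (s : Finset ι) (f : ι → ArithmeticFunction ℝ)
    (hf : ∀ i ∈ s, ∀ d, |f i d| ≤ 1) {X : ℕ} {Δ : ℝ} (h1 : 1 ≤ Δ)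
    (hΔ : ∀ n : ℕ, n ≤ X → (n.divisors.card : ℝ) ≤ Δ) :
    ∀ n : ℕ, n ≤ X → |(∏ i ∈ s, f i) n| ≤ Δ ^ s.card := by
  classical
  induction s using Finset.induction_on with
  | empty =>
    intro n _
    rw [prod_empty, ArithmeticFunction.one_apply]
    split_ifs <;> simp
  | insert i s hi ih =>
    intro n hn
    rcases Nat.eq_zero_or_pos n with rfl | h0
    · simp only [ArithmeticFunction.map_zero, abs_zero]
      positivity
    rw [prod_insert hi, card_insert_of_notMem hi, pow_succ']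
    refine (abs_mul_apply_le zero_le_one (fun d _ => hf i (mem_insert_self _ _) d)
      fun d hd => ih (fun j hj => hf j (mem_insert_of_mem hj)) d
        ((Nat.le_of_dvd h0 hd).trans hn)).trans ?_
    rw [one_mul]
    exact mul_le_mul_of_nonneg_right (hΔ n hn) (by positivity)

lemma mul_apply_nonneg {f g : ArithmeticFunction ℝ} (hf : ∀ d, 0 ≤ f d) (hg : ∀ d, 0 ≤ g d)
    (n : ℕ) : 0 ≤ (f * g) n := by
  rw [ArithmeticFunction.mul_apply]
  exact sum_nonneg fun _ _ => mul_nonneg (hf _) (hg _)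

lemma prod_apply_nonneg {ι : Type} (s : Finset ι) (f : ι → ArithmeticFunction ℝ)
    (hf : ∀ i ∈ s, ∀ d, 0 ≤ f i d) : ∀ n, 0 ≤ (∏ i ∈ s, f i) n :=
  prod_induction f (fun g => ∀ n, 0 ≤ g n) (fun _ _ a b => mul_apply_nonneg a b)
    (fun n => by rw [ArithmeticFunction.one_apply]; split_ifs <;> norm_num) hf

lemma mul_apply_mono {f g g' : ArithmeticFunction ℝ} (hf : ∀ d, 0 ≤ f d) {n : ℕ}
    (hg : ∀ d, d ∣ n → g d ≤ g' d) : (f * g) n ≤ (f * g') n := by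
  rw [ArithmeticFunction.mul_apply, ArithmeticFunction.mul_apply]
  refine sum_le_sum fun a ha => mul_le_mul_of_nonneg_left (hg _ ?_) (hf _)
  exact Nat.dvd_of_mem_divisors (Nat.snd_mem_divisors_of_mem_antidiagonal ha)

lemma mul_apply_congr (f : ArithmeticFunction ℝ) {g g' : ArithmeticFunction ℝ} {n : ℕ}
    (hg : ∀ d, d ∣ n → g d = g' d) : (f * g) n = (f * g') n := by
  rw [ArithmeticFunction.mul_apply, ArithmeticFunction.mul_apply]
  refine sum_congr rfl fun a ha => ?_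
  rw [hg _ (Nat.dvd_of_mem_divisors (Nat.snd_mem_divisors_of_mem_antidiagonal ha))]

end Pool.Agent.MP_c853c5_nt.B

end

section

/-!
The fundamental lemma of the sieve, in terms of weights.
-/

set_option autoImplicit false

open Finset

namespace Pool.Agent.MP_c853c5_nt.Z

/-- `1` if no prime `p ≤ z` divides `n`, else `0` -/
noncomputable def rgh (z n : ℕ) : ℝ := by
  classical
  exact if ∀ p : ℕ, p.Prime → p ∣ n → z < p then 1 else 0

def FlStmt : Prop := ∀ i z : ℕ, 13 ≤ i → 2 ≤ z → ∃ up gap : ℕ → ℝ,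
  (∀ d, |up d| ≤ 1 ∧ |gap d| ≤ 1) ∧
  (∀ d, up d ≠ 0 ∨ gap d ≠ 0 → Squarefree d ∧ d ≤ z ^ (4 * i + 6) ∧
    ∀ p : ℕ, p.Prime → p ∣ d → p ≤ z) ∧
  (∀ n : ℕ, 1 ≤ n → rgh z n ≤ ∑ d ∈ n.divisors, up d ∧
    ∑ d ∈ n.divisors, up d ≤ rgh z n + ∑ d ∈ n.divisors, gap d) ∧
  ∑ d ∈ Icc 1 (z ^ (4 * i + 6)), gap d / d ≤ 2 ^ 25 / 4 ^ i / Real.log z ∧
  ∑ d ∈ Icc 1 (z ^ (4 * i + 6)), up d / d ≤ 2 / Real.log z

/-- the primes in `(s, t]` -/
def pb (s t : ℕ) : Finset ℕ := (Ioc s t).filter Nat.Prime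

lemma mem_pb {s t l : ℕ} : l ∈ pb s t ↔ (s < l ∧ l ≤ t) ∧ l.Prime := by
  simp [pb]

lemma fl_dvd_fact (p k : ℕ) (hp : 0 < p) : p ^ k ∣ (p * k).factorial := by
  induction k with
  | zero => simp
  | succ k ih =>
    rw [pow_succ, mul_add, mul_one]
    exact (mul_dvd_mul ih (Nat.dvd_factorial hp le_rfl)).trans
      (Nat.factorial_mul_factorial_dvd_factorial_add _ _)

lemma fl_sum_inv (t : ℕ) (ht : 2 ≤ t) : ∑ l ∈ pb (Nat.sqrt t) t, (l : ℝ)⁻¹ ≤ 4 := by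
  set s := Nat.sqrt t with hs
  have hs1 : 1 ≤ s := by rw [hs, Nat.le_sqrt]; omega
  have h1 : ∏ l ∈ pb s t, l ^ (t / l) ∣ t.factorial := by
    refine Finset.prod_dvd_of_isRelPrime ?_ fun l hl => ?_
    · intro a ha b hb hab
      exact Nat.coprime_iff_isRelPrime.1
        (Nat.coprime_pow_primes (t / a) (t / b) (mem_pb.1 ha).2 (mem_pb.1 hb).2 hab)
    · exact (fl_dvd_fact l _ (mem_pb.1 hl).2.pos).trans
        (Nat.factorial_dvd_factorial (Nat.mul_div_le t l))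
  have h2 : (s + 1) ^ (∑ l ∈ pb s t, t / l) ≤ ∏ l ∈ pb s t, l ^ (t / l) := by
    rw [← Finset.prod_pow_eq_pow_sum]
    exact Finset.prod_le_prod' fun l hl => Nat.pow_le_pow_left (mem_pb.1 hl).1.1 _
  have h3 : t.factorial ≤ (s + 1) ^ (2 * t) := by
    rw [pow_mul]
    exact (Nat.factorial_le_pow t).trans (Nat.pow_le_pow_left (Nat.lt_succ_sqrt' t).le _)
  have h4 : ∑ l ∈ pb s t, t / l ≤ 2 * t :=
    (Nat.pow_le_pow_iff_right (by omega)).1
      (h2.trans ((Nat.le_of_dvd (Nat.factorial_pos t) h1).trans h3))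
  have h5 : ∑ l ∈ pb s t, ((t / l : ℕ) : ℝ) ≤ 2 * t := by exact_mod_cast h4
  have ht' : (0 : ℝ) < t := by exact_mod_cast (by omega : 0 < t)
  have h6 : ∑ l ∈ pb s t, (t : ℝ) / 2 * (l : ℝ)⁻¹ ≤ ∑ l ∈ pb s t, ((t / l : ℕ) : ℝ) := by
    refine Finset.sum_le_sum fun l hl => ?_
    obtain ⟨⟨-, hlt⟩, hp⟩ := mem_pb.1 hl
    have hl0 : (0 : ℝ) < l := by exact_mod_cast hp.pos
    have a1 : t < l * (t / l + 1) := Nat.lt_mul_div_succ t hp.pos
    have a2 : 1 ≤ t / l := (Nat.le_div_iff_mul_le hp.pos).2 (by omega)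
    have a3 : t ≤ l * (2 * (t / l)) := a1.le.trans (Nat.mul_le_mul_left _ (by omega))
    have a4 : (t : ℝ) ≤ l * (2 * ((t / l : ℕ) : ℝ)) := by exact_mod_cast a3
    rw [← div_eq_mul_inv, div_le_iff₀ hl0]
    linarith
  rw [← Finset.mul_sum] at h6
  have h7 : (t : ℝ) / 2 * ∑ l ∈ pb s t, (l : ℝ)⁻¹ ≤ (t : ℝ) / 2 * 4 := by linarith
  exact le_of_mul_le_mul_left h7 (by positivity)

lemma fl_exp_eight : Real.exp 8 ≤ 4096 := by
  have h1 : Real.exp 8 = Real.exp 1 ^ 8 := by rw [← Real.exp_nat_mul]; norm_num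
  have h2 : Real.exp 1 ≤ 2.72 := Real.exp_one_lt_d9.le.trans (by norm_num)
  rw [h1]
  exact (pow_le_pow_left₀ (Real.exp_pos 1).le h2 8).trans (by norm_num)

/-- A symmetric multilinear form on the block B. -/
noncomputable def flS (B : Finset ℕ) (c : ℕ → ℝ) (t : ℕ → ℝ) : ℝ := ∑ T ∈ B.powerset, c T.card * ∏ p ∈ T, t p

/-- Coefficients of truncated inclusion-exclusion. -/
noncomputable def flY (n k : ℕ) : ℝ := if k ≤ n then (-1) ^ k else 0

/-- Coefficients of an elementary symmetric function. -/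
noncomputable def flE (n k : ℕ) : ℝ := if k = n then 1 else 0

lemma fl_insert {B : Finset ℕ} {a : ℕ} (ha : a ∉ B) (c : ℕ → ℝ) (t : ℕ → ℝ) :
    flS (insert a B) c t = flS B c t + t a * flS B (fun k => c (k + 1)) t := by
  rw [flS, sum_powerset_insert ha, flS, flS, mul_sum]
  congr 1
  refine sum_congr rfl fun T hT => ?_
  have : a ∉ T := fun h => ha (mem_powerset.1 hT h)
  rw [card_insert_of_notMem this, prod_insert this]; ring

lemma fl_neg (B : Finset ℕ) (c : ℕ → ℝ) (t : ℕ → ℝ) : flS B (fun k => -c k) t = -flS B c t := by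
  simp [flS]

lemma fl_sub (B : Finset ℕ) (c d : ℕ → ℝ) (t : ℕ → ℝ) :
    flS B (fun k => c k - d k) t = flS B c t - flS B d t := by
  simp [flS, sub_mul]

lemma fl_zero (B : Finset ℕ) (t : ℕ → ℝ) : flS B (flY 0) t = 1 := by
  rw [flS, sum_eq_single ∅]
  · simp [flY]
  · intro T _ hT
    have : ¬ T.card ≤ 0 := by simpa using hT
    rw [flY, if_neg this, zero_mul]
  · simp

/-- The Bonferroni inequalities. -/
lemma fl_bonf {t : ℕ → ℝ} (ht : ∀ p, 0 ≤ t p ∧ t p ≤ 1) (B : Finset ℕ) :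
    ∀ n : ℕ, 0 ≤ (-1) ^ n * (flS B (flY n) t - ∏ p ∈ B, (1 - t p)) := by
  have h0 : ∀ B : Finset ℕ, 0 ≤ (-1) ^ 0 * (flS B (flY 0) t - ∏ p ∈ B, (1 - t p)) := fun B => by
    rw [fl_zero, pow_zero, one_mul, sub_nonneg]
    exact prod_le_one (fun p _ => sub_nonneg.2 (ht p).2) fun p _ => by linarith [(ht p).1]
  induction B using Finset.induction_on with
  | empty => intro n; simp [flS, flY]
  | insert a B ha ih =>
    intro n
    cases n with
    | zero => exact h0 _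
    | succ n =>
      have e : (fun k => flY (n + 1) (k + 1)) = fun k => -flY n k := by
        funext k
        simp only [flY, add_le_add_iff_right, pow_succ]
        split_ifs <;> simp
      rw [fl_insert ha, e, fl_neg, prod_insert ha]
      have h1 := ih (n + 1)
      have h2 := mul_nonneg (ht a).1 (ih n)
      rw [pow_succ] at h1 ⊢
      nlinarith

lemma fl_lower {t : ℕ → ℝ} (ht : ∀ p, 0 ≤ t p ∧ t p ≤ 1) (B : Finset ℕ) (n : ℕ) :
    ∏ p ∈ B, (1 - t p) ≤ flS B (flY (2 * n)) t := by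
  have := fl_bonf ht B (2 * n)
  rwa [pow_mul, neg_one_sq, one_pow, one_mul, sub_nonneg] at this

lemma fl_upper {t : ℕ → ℝ} (ht : ∀ p, 0 ≤ t p ∧ t p ≤ 1) (B : Finset ℕ) (n : ℕ) :
    flS B (flY (2 * n)) t ≤ ∏ p ∈ B, (1 - t p) + flS B (flE (2 * n + 1)) t := by
  have := fl_bonf ht B (2 * n + 1)
  have e : flY (2 * n + 1) = fun k => flY (2 * n) k - flE (2 * n + 1) k := by
    funext k
    simp only [flY, flE]
    by_cases h : k = 2 * n + 1
    · subst h; simp [pow_succ, pow_mul]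
    · by_cases h' : k ≤ 2 * n
      · rw [if_pos h', if_pos (by omega), if_neg h, sub_zero]
      · rw [if_neg h', if_neg (by omega), if_neg h, sub_zero]
  rw [e, fl_sub, pow_succ, pow_mul, neg_one_sq, one_pow] at this
  linarith

lemma fl_E_nonneg {t : ℕ → ℝ} (ht : ∀ p, 0 ≤ t p) (B : Finset ℕ) (n : ℕ) :
    0 ≤ flS B (flE n) t :=
  sum_nonneg fun T _ => mul_nonneg (by unfold flE; split_ifs <;> norm_num)
    (prod_nonneg fun p _ => ht p)

lemma fl_E_le {t : ℕ → ℝ} (ht : ∀ p, 0 ≤ t p) (B : Finset ℕ) (n : ℕ) :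
    2 ^ n * flS B (flE n) t ≤ Real.exp (2 * ∑ p ∈ B, t p) := by
  calc 2 ^ n * flS B (flE n) t ≤ ∑ T ∈ B.powerset, ∏ p ∈ T, 2 * t p := by
        rw [flS, mul_sum]
        refine sum_le_sum fun T _ => ?_
        rw [prod_mul_distrib, prod_const, flE]
        split_ifs with h
        · rw [h, one_mul]
        · rw [zero_mul, mul_zero]
          exact mul_nonneg (by positivity) (prod_nonneg fun p _ => ht p)
    _ = ∏ p ∈ B, (1 + 2 * t p) := (prod_one_add B).symm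
    _ ≤ ∏ p ∈ B, Real.exp (2 * t p) :=
        prod_le_prod (fun p _ => by linarith [ht p]) fun p _ => by
          linarith [Real.add_one_le_exp (2 * t p)]
    _ = _ := by rw [← Real.exp_sum, mul_sum]

lemma fl_X_ge {t : ℕ → ℝ} (ht : ∀ p, 0 ≤ t p ∧ t p ≤ 1 / 2) (B : Finset ℕ) :
    Real.exp (-(2 * ∑ p ∈ B, t p)) ≤ ∏ p ∈ B, (1 - t p) := by
  rw [mul_sum, ← sum_neg_distrib, Real.exp_sum]
  refine prod_le_prod (fun p _ => (Real.exp_pos _).le) fun p _ => ?_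
  have h1 := Real.add_one_le_exp (2 * t p)
  have h2 := (ht p).1
  have h3 := (ht p).2
  rw [Real.exp_neg, inv_le_iff_one_le_mul₀ (Real.exp_pos _)]
  nlinarith [mul_le_mul_of_nonneg_left h1 (show 0 ≤ 1 - t p by linarith)]

/-- A multilinear form. -/
noncomputable def flF (U : Finset ℕ) (C : Finset ℕ → ℝ) (t : ℕ → ℝ) : ℝ :=
  ∑ T ∈ U.powerset, C T * ∏ p ∈ T, t p

lemma fl_mul {P Q : Finset ℕ} (hd : Disjoint P Q) (C : Finset ℕ → ℝ) (c : ℕ → ℝ) (t : ℕ → ℝ) :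
    flF (P ∪ Q) (fun T => C (T ∩ P) * c (T ∩ Q).card) t = flF P C t * flS Q c t := by
  rw [flF, flF, flS, sum_mul_sum, ← sum_product']
  symm
  have k1 : ∀ A B : Finset ℕ, A ⊆ P → B ⊆ Q → (A ∪ B) ∩ P = A := fun A B h1 h2 => by
    rw [union_inter_distrib_right, inter_eq_left.2 h1,
      disjoint_iff_inter_eq_empty.1 (hd.symm.mono_left h2), union_empty]
  have k2 : ∀ A B : Finset ℕ, A ⊆ P → B ⊆ Q → (A ∪ B) ∩ Q = B := fun A B h1 h2 => by
    rw [union_inter_distrib_right, inter_eq_left.2 h2,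
      disjoint_iff_inter_eq_empty.1 (hd.mono_left h1), empty_union]
  refine sum_nbij' (fun q => q.1 ∪ q.2) (fun T => (T ∩ P, T ∩ Q)) ?_ ?_ ?_ ?_ ?_
  · rintro ⟨A, B⟩ h
    simp only [mem_product, mem_powerset] at h ⊢
    exact union_subset_union h.1 h.2
  · intro T _
    simp only [mem_product, mem_powerset]
    exact ⟨inter_subset_right, inter_subset_right⟩
  · rintro ⟨A, B⟩ h
    simp only [mem_product, mem_powerset] at h
    exact Prod.ext (k1 A B h.1 h.2) (k2 A B h.1 h.2)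
  · intro T hT
    simp only [mem_powerset] at hT
    rw [← inter_union_distrib_left, inter_eq_left.2 hT]
  · rintro ⟨A, B⟩ h
    simp only [mem_product, mem_powerset] at h
    simp only
    rw [k1 A B h.1 h.2, k2 A B h.1 h.2, prod_union (hd.mono h.1 h.2)]
    ring

lemma fl_add (U : Finset ℕ) (C D : Finset ℕ → ℝ) (t : ℕ → ℝ) :
    flF U (fun T => C T + D T) t = flF U C t + flF U D t := by
  simp [flF, add_mul, sum_add_distrib]

/-- a pair of weights on sets of primes -/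
structure FlP (z i : ℕ) (A G : Finset ℕ → ℝ) : Prop where
  bd : ∀ T, |A T| ≤ 1 ∧ |G T| ≤ 1
  sup : ∀ T, T ⊆ pb 0 z → A T ≠ 0 ∨ G T ≠ 0 → ∏ p ∈ T, p ≤ z ^ (4 * i + 6)
  pt : ∀ t : ℕ → ℝ, (∀ p, 0 ≤ t p ∧ t p ≤ 1) → ∏ p ∈ pb 0 z, (1 - t p) ≤ flF (pb 0 z) A t ∧
    flF (pb 0 z) A t ≤ ∏ p ∈ pb 0 z, (1 - t p) + flF (pb 0 z) G t
  av : ∀ t : ℕ → ℝ, (∀ p, 0 ≤ t p ∧ t p ≤ 1 / 2) → (∀ p, t p ≤ (p : ℝ)⁻¹) →
    flF (pb 0 z) G t ≤ 2 ^ 24 / 4 ^ i * flF (pb 0 z) A t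

lemma fl_err {Q : Finset ℕ} {t : ℕ → ℝ} (ht : ∀ p, 0 ≤ t p ∧ t p ≤ 1 / 2)
    (hQ : ∑ p ∈ Q, t p ≤ 4) (i : ℕ) :
    flS Q (flE (2 * i + 1)) t ≤ 2 ^ 23 / 4 ^ i * flS Q (flY (2 * i)) t := by
  have h1 := fl_E_le (fun p => (ht p).1) Q (2 * i + 1)
  have h2 := (fl_X_ge ht Q).trans (fl_lower (fun p => ⟨(ht p).1, by linarith [(ht p).2]⟩) Q i)
  have h3 : Real.exp (2 * ∑ p ∈ Q, t p) ≤
      Real.exp 8 * Real.exp 8 * Real.exp (-(2 * ∑ p ∈ Q, t p)) := by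
    rw [← Real.exp_add, ← Real.exp_add]
    exact Real.exp_le_exp.2 (by linarith)
  have h4 : Real.exp 8 * Real.exp 8 ≤ 4096 * 4096 :=
    mul_le_mul fl_exp_eight fl_exp_eight (Real.exp_pos _).le (by norm_num)
  have h5 := mul_le_mul h4 h2 (Real.exp_pos _).le (by norm_num)
  rw [pow_succ, pow_mul, show (2 : ℝ) ^ 2 = 4 by norm_num] at h1
  rw [div_mul_eq_mul_div, le_div_iff₀ (by positivity)]
  linarith

lemma fl_rec (z : ℕ) : ∀ i, 1 ≤ z → ∃ A G, FlP z i A G := by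
  induction z using Nat.strong_induction_on with
  | _ z ih =>
  intro i hz
  rcases hz.eq_or_lt with rfl | hz
  · have e : pb 0 1 = ∅ := by decide
    refine ⟨fun _ => 1, fun _ => 0, fun T => by simp, fun T hT _ => ?_, fun t _ => ?_,
      fun t _ _ => ?_⟩
    · rw [e, subset_empty] at hT
      simp [hT]
    · simp [e, flF]
    · simp only [e, flF, powerset_empty, sum_singleton, prod_empty, mul_one]
      positivity
  have s1 : 1 ≤ Nat.sqrt z := by rw [Nat.le_sqrt]; omega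
  obtain ⟨A, G, h⟩ := ih (Nat.sqrt z) (Nat.sqrt_lt_self hz) (i + 1) s1
  obtain ⟨P, hP⟩ : ∃ P, P = pb 0 (Nat.sqrt z) := ⟨_, rfl⟩
  obtain ⟨Q, hQ⟩ : ∃ Q, Q = pb (Nat.sqrt z) z := ⟨_, rfl⟩
  have hd : Disjoint P Q := disjoint_left.2 fun p h1 h2 => by
    rw [hP, mem_pb] at h1
    rw [hQ, mem_pb] at h2
    omega
  have hu : pb 0 z = P ∪ Q := by
    ext p
    have := Nat.sqrt_le_self z
    simp only [hP, hQ, mem_union, mem_pb]
    by_cases hp : p.Prime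
    · simp only [hp, and_true]
      omega
    · simp [hp]
  have hY : ∀ n k, |flY n k| ≤ 1 := fun n k => by unfold flY; split_ifs <;> simp
  have eA := fl_mul hd A (flY (2 * i))
  have eG : ∀ t, flF (P ∪ Q) (fun T => G (T ∩ P) * flY (2 * i) (T ∩ Q).card +
      A (T ∩ P) * flE (2 * i + 1) (T ∩ Q).card) t =
      flF P G t * flS Q (flY (2 * i)) t + flF P A t * flS Q (flE (2 * i + 1)) t := fun t => by
    rw [fl_add, fl_mul hd, fl_mul hd]
  refine ⟨fun T => A (T ∩ P) * flY (2 * i) (T ∩ Q).card,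
    fun T => G (T ∩ P) * flY (2 * i) (T ∩ Q).card + A (T ∩ P) * flE (2 * i + 1) (T ∩ Q).card,
    fun T => ⟨?_, ?_⟩, fun T hT hne => ?_, fun t ht => ?_, fun t ht ht' => ?_⟩
  · rw [abs_mul]
    exact mul_le_one₀ (h.bd _).1 (abs_nonneg _) (hY _ _)
  · by_cases hc : (T ∩ Q).card = 2 * i + 1
    · rw [flY, flE, if_neg (by omega), if_pos hc, mul_zero, zero_add, mul_one]
      exact (h.bd _).1
    · rw [flE, if_neg hc, mul_zero, add_zero, abs_mul]
      exact mul_le_one₀ (h.bd _).2 (abs_nonneg _) (hY _ _)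
  · have c1 : (T ∩ Q).card ≤ 2 * i + 1 := by
      by_contra hc
      simp only [flY, flE, if_neg (show ¬ (T ∩ Q).card ≤ 2 * i by omega),
        if_neg (show ¬ (T ∩ Q).card = 2 * i + 1 by omega), mul_zero, add_zero, ne_eq,
        not_true_eq_false, or_self] at hne
    have c2 : A (T ∩ P) ≠ 0 ∨ G (T ∩ P) ≠ 0 := by
      by_contra hc
      rw [not_or, not_not, not_not] at hc
      simp [hc.1, hc.2] at hne
    have c3 := h.sup (T ∩ P) (hP ▸ inter_subset_right) c2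
    have c4 : ∏ p ∈ T ∩ Q, p ≤ z ^ (2 * i + 1) :=
      (prod_le_pow_card _ _ z fun p hp => (mem_pb.1 (hQ ▸ (mem_inter.1 hp).2)).1.2).trans
        (Nat.pow_le_pow_right (by omega) c1)
    have c5 : Nat.sqrt z ^ (4 * (i + 1) + 6) ≤ z ^ (2 * i + 5) := by
      rw [show 4 * (i + 1) + 6 = 2 * (2 * i + 5) by ring, pow_mul]
      exact Nat.pow_le_pow_left (Nat.sqrt_le' z) _
    rw [hu] at hT
    rw [← inter_eq_left.2 hT, inter_union_distrib_left,
      prod_union (hd.mono inter_subset_right inter_subset_right),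
      show 4 * i + 6 = 2 * i + 5 + (2 * i + 1) by ring, pow_add]
    exact Nat.mul_le_mul (c3.trans c5) c4
  · obtain ⟨a1, a2⟩ := h.pt t ht
    rw [← hP] at a1 a2
    rw [hu, eA, eG, prod_union hd]
    have b0 : ∀ S : Finset ℕ, 0 ≤ ∏ p ∈ S, (1 - t p) := fun S =>
      prod_nonneg fun p _ => sub_nonneg.2 (ht p).2
    have b1 := fl_lower ht Q i
    have b2 := fl_upper ht Q i
    have b3 := fl_E_nonneg (fun p => (ht p).1) Q (2 * i + 1)
    refine ⟨mul_le_mul a1 b1 (b0 _) ((b0 _).trans a1), ?_⟩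
    have b4 := mul_le_mul_of_nonneg_right a2 ((b0 Q).trans b1)
    have b5 := mul_le_mul_of_nonneg_left b2 (b0 P)
    have b6 := mul_le_mul_of_nonneg_right a1 b3
    linarith
  · have ht1 : ∀ p, 0 ≤ t p ∧ t p ≤ 1 := fun p => ⟨(ht p).1, by linarith [(ht p).2]⟩
    have a1 := (h.pt t ht1).1
    have a2 := h.av t ht ht'
    rw [← hP] at a1 a2
    rw [hu, eA, eG]
    have b0 : ∀ S : Finset ℕ, 0 ≤ ∏ p ∈ S, (1 - t p) := fun S =>
      prod_nonneg fun p _ => sub_nonneg.2 (ht1 p).2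
    have b1 := (b0 Q).trans (fl_lower ht1 Q i)
    have b2 := fl_err ht ((sum_le_sum fun p _ => ht' p).trans (hQ ▸ fl_sum_inv z hz)) i
    have b3 := mul_le_mul_of_nonneg_right a2 b1
    have b4 := mul_le_mul_of_nonneg_left b2 ((b0 P).trans a1)
    have b5 : (2 : ℝ) ^ 24 / 4 ^ (i + 1) + 2 ^ 23 / 4 ^ i ≤ 2 ^ 24 / 4 ^ i := by
      rw [pow_succ (4 : ℝ) i, ← div_div, div_right_comm, ← add_div]
      exact div_le_div_of_nonneg_right (by norm_num) (by positivity)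
    have b6 := mul_le_mul_of_nonneg_right b5 (mul_nonneg ((b0 P).trans a1) b1)
    linarith

/-- weights on the integers -/
noncomputable def flW (z : ℕ) (C : Finset ℕ → ℝ) (d : ℕ) : ℝ :=
  if Squarefree d ∧ d.primeFactors ⊆ pb 0 z then C d.primeFactors else 0

lemma fl_sum (z : ℕ) (C : Finset ℕ → ℝ) (S : Finset ℕ) (g : ℕ → ℝ) :
    ∑ d ∈ S, flW z C d * g d =
      ∑ T ∈ (pb 0 z).powerset, C T * if ∏ p ∈ T, p ∈ S then g (∏ p ∈ T, p) else 0 := by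
  simp only [flW, ite_mul, zero_mul, mul_ite, mul_zero]
  rw [← sum_filter, ← sum_filter]
  have hp : ∀ T, T ⊆ pb 0 z → ∀ p ∈ T, p.Prime := fun T hT p hp => (mem_pb.1 (hT hp)).2
  refine sum_nbij' (fun d => d.primeFactors) (fun T => ∏ p ∈ T, p) ?_ ?_ ?_ ?_ ?_
  · intro d hd
    simp only [mem_filter, mem_powerset] at hd ⊢
    exact ⟨hd.2.2, by rw [Nat.prod_primeFactors_of_squarefree hd.2.1]; exact hd.1⟩
  · intro T hT
    simp only [mem_filter, mem_powerset] at hT ⊢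
    refine ⟨hT.2, ?_, by rw [Nat.primeFactors_prod (hp T hT.1)]; exact hT.1⟩
    refine squarefree_prod_of_pairwise_isCoprime (fun p h1 q h2 hpq => ?_)
      fun p h1 => (hp T hT.1 p h1).prime.squarefree
    exact Nat.coprime_iff_isRelPrime.1
      ((Nat.coprime_primes (hp T hT.1 p h1) (hp T hT.1 q h2)).2 hpq)
  · intro d hd
    exact Nat.prod_primeFactors_of_squarefree (mem_filter.1 hd).2.1
  · intro T hT
    exact Nat.primeFactors_prod (hp T (mem_powerset.1 (mem_filter.1 hT).1))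
  · intro d hd
    rw [Nat.prod_primeFactors_of_squarefree (mem_filter.1 hd).2.1]

lemma fl_div (z : ℕ) (C : Finset ℕ → ℝ) {n : ℕ} (hn : 1 ≤ n) :
    ∑ d ∈ n.divisors, flW z C d = flF (pb 0 z) C fun p => if p ∣ n then 1 else 0 := by
  have := fl_sum z C n.divisors fun _ => 1
  simp only [mul_one] at this
  rw [this, flF]
  refine sum_congr rfl fun T hT => ?_
  have hp : ∀ p ∈ T, p.Prime := fun p hp => (mem_pb.1 (mem_powerset.1 hT hp)).2
  congr 1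
  rw [prod_boole]
  refine if_congr ?_ rfl rfl
  rw [Nat.mem_divisors, and_iff_left (by omega)]
  exact ⟨fun h p hp => (dvd_prod_of_mem _ hp).trans h,
    fun h => prod_primes_dvd n (fun p h1 => (hp p h1).prime) h⟩

lemma fl_mean (z X : ℕ) (C : Finset ℕ → ℝ) (hC : ∀ T, T ⊆ pb 0 z → C T ≠ 0 → ∏ p ∈ T, p ≤ X) :
    ∑ d ∈ Icc 1 X, flW z C d / d = flF (pb 0 z) C fun p => if 2 ≤ p then (p : ℝ)⁻¹ else 0 := by
  simp only [div_eq_mul_inv]
  rw [fl_sum z C (Icc 1 X) fun d => (d : ℝ)⁻¹, flF]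
  refine sum_congr rfl fun T hT => ?_
  have hp : ∀ p ∈ T, p.Prime := fun p hp => (mem_pb.1 (mem_powerset.1 hT hp)).2
  by_cases h : C T = 0
  · rw [h, zero_mul, zero_mul]
  rw [if_pos (mem_Icc.2 ⟨prod_pos fun p h1 => (hp p h1).pos, hC T (mem_powerset.1 hT) h⟩),
    Nat.cast_prod, ← prod_inv_distrib]
  congr 1
  exact prod_congr rfl fun p h1 => (if_pos (hp p h1).two_le).symm

lemma fl_rgh (z n : ℕ) : ∏ p ∈ pb 0 z, (1 - if p ∣ n then (1 : ℝ) else 0) = rgh z n := by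
  unfold rgh
  split_ifs with h
  · refine prod_eq_one fun p hp => ?_
    obtain ⟨h1, h2⟩ := mem_pb.1 hp
    rw [if_neg fun h3 => (h p h2 h3).not_ge h1.2, sub_zero]
  · push Not at h
    obtain ⟨p, h1, h2, h3⟩ := h
    exact prod_eq_zero (mem_pb.2 ⟨⟨h1.pos, h3⟩, h1⟩) (by rw [if_pos h2, sub_self])

/-- The reciprocal as a homomorphism. -/
noncomputable def flI : ℕ →* ℝ where
  toFun n := (n : ℝ)⁻¹
  map_one' := by simp
  map_mul' m n := by simp [mul_comm]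

lemma fl_V {z : ℕ} (hz : 2 ≤ z) : ∏ p ∈ pb 0 z, (1 - (p : ℝ)⁻¹) ≤ 1 / Real.log z := by
  classical
  have hs : ∀ p ∈ pb 0 z, p.Prime := fun p hp => (mem_pb.1 hp).2
  have h := (EulerProduct.summable_and_hasSum_factoredNumbers_prod_filter_prime_geometric
    (f := flI) (fun {p} hp => by
      change ‖(p : ℝ)⁻¹‖ < 1
      rw [Real.norm_of_nonneg (by positivity)]
      exact inv_lt_one_of_one_lt₀ (by exact_mod_cast hp.one_lt)) (pb 0 z)).2
  rw [filter_true_of_mem hs] at h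
  have hT : ∀ m ∈ Icc 1 z, m ∈ Nat.factoredNumbers (pb 0 z) := fun m hm => by
    obtain ⟨h1, h2⟩ := mem_Icc.1 hm
    refine Nat.mem_factoredNumbers'.2 fun p hp hd => ?_
    exact mem_pb.2 ⟨⟨hp.pos, (Nat.le_of_dvd h1 hd).trans h2⟩, hp⟩
  have h2 := sum_le_hasSum ((Icc 1 z).subtype (· ∈ Nat.factoredNumbers (pb 0 z)))
    (fun m _ => (by positivity : (0 : ℝ) ≤ ((m : ℕ) : ℝ)⁻¹)) h
  change ∑ m ∈ (Icc 1 z).subtype (· ∈ Nat.factoredNumbers (pb 0 z)), ((m : ℕ) : ℝ)⁻¹ ≤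
    ∏ p ∈ pb 0 z, (1 - (p : ℝ)⁻¹)⁻¹ at h2
  rw [sum_subtype_eq_sum_filter (f := fun m : ℕ => (m : ℝ)⁻¹), filter_true_of_mem hT,
    prod_inv_distrib] at h2
  have h3 := log_add_one_le_harmonic z
  rw [harmonic_eq_sum_Icc] at h3
  push_cast at h3
  have z2 : (2 : ℝ) ≤ z := by exact_mod_cast hz
  have h4 : Real.log z ≤ Real.log (z + 1) := Real.log_le_log (by linarith) (by linarith)
  have h5 : 0 < ∏ p ∈ pb 0 z, (1 - (p : ℝ)⁻¹) := prod_pos fun p hp =>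
    sub_pos.2 (inv_lt_one_of_one_lt₀ (by exact_mod_cast (hs p hp).one_lt))
  rw [one_div]
  exact (le_inv_comm₀ h5 (Real.log_pos (by linarith))).2 (h4.trans (h3.trans h2))

theorem fl_all : FlStmt := by
  intro i z hi hz
  obtain ⟨A, G, h⟩ := fl_rec z i (by omega)
  obtain ⟨t, ht⟩ : ∃ t : ℕ → ℝ, t = fun p : ℕ => if 2 ≤ p then (p : ℝ)⁻¹ else 0 := ⟨_, rfl⟩
  have t1 : ∀ p, 0 ≤ t p ∧ t p ≤ 1 / 2 := fun p => by
    rw [ht]
    simp only
    split_ifs with hp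
    · exact ⟨by positivity, by rw [one_div]; exact inv_anti₀ two_pos (by exact_mod_cast hp)⟩
    · norm_num
  have t2 : ∀ p, t p ≤ (p : ℝ)⁻¹ := fun p => by
    rw [ht]
    simp only
    split_ifs
    · exact le_rfl
    · positivity
  have a1 := (h.pt t fun p => ⟨(t1 p).1, by linarith [(t1 p).2]⟩)
  have a2 := h.av t t1 t2
  have a3 : ∏ p ∈ pb 0 z, (1 - t p) ≤ 1 / Real.log z := by
    refine le_of_eq_of_le (prod_congr rfl fun p hp => ?_) (fl_V hz)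
    rw [ht]
    simp only [if_pos (mem_pb.1 hp).2.two_le]
  have a4 : 0 ≤ flF (pb 0 z) A t :=
    (prod_nonneg fun p _ => by linarith [(t1 p).2]).trans a1.1
  have a5 : (2 : ℝ) ^ 24 / 4 ^ i ≤ 1 / 2 := by
    have : (4 : ℝ) ^ 13 ≤ 4 ^ i := pow_le_pow_right₀ (by norm_num) hi
    rw [div_le_iff₀ (by positivity)]
    linarith
  have a6 := mul_le_mul_of_nonneg_right a5 a4
  have a7 : flF (pb 0 z) A t ≤ 2 / Real.log z := by
    have : 2 / Real.log z = 2 * (1 / Real.log z) := by ring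
    linarith [a1.2]
  refine ⟨flW z A, flW z G, fun d => ?_, fun d hd => ?_, fun n hn => ?_, ?_, ?_⟩
  · unfold flW
    split_ifs
    · exact h.bd _
    · simp
  · unfold flW at hd
    split_ifs at hd with h1
    · refine ⟨h1.1, ?_, fun p hp hpd => ?_⟩
      · have := h.sup _ h1.2 hd
        rwa [Nat.prod_primeFactors_of_squarefree h1.1] at this
      · exact (mem_pb.1 (h1.2 (Nat.mem_primeFactors.2 ⟨hp, hpd, h1.1.ne_zero⟩))).1.2
    · simp at hd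
  · rw [fl_div z A hn, fl_div z G hn, ← fl_rgh]
    exact h.pt _ fun p => by split_ifs <;> norm_num
  · rw [fl_mean z _ G fun T hT h0 => h.sup T hT (Or.inr h0), ← ht]
    refine a2.trans ((mul_le_mul_of_nonneg_left a7 (by positivity)).trans_eq ?_)
    ring
  · rw [fl_mean z _ A fun T hT h0 => h.sup T hT (Or.inl h0), ← ht]
    exact a7

end Pool.Agent.MP_c853c5_nt.Z

end

section

/-!
Removing the small primes from the free factor.
-/

set_option autoImplicit false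

open Finset Filter

namespace Pool.Agent.MP_c853c5_nt.D

open Pool.Agent.MP_c853c5_nt.S

/-- the restriction of `c` to `[N, 2 N)` -/
noncomputable def dy (N : ℕ) (c : AF) : AF :=
  ⟨fun n => if N ≤ n ∧ n < 2 * N then c n else 0, by simp⟩

/-- the logarithmic mass up to `X` -/
noncomputable def ms (X : ℕ) (f : AF) : ℝ := ∑ m ∈ Icc 1 X, f m / m

/-- the constant function -/
noncomputable def zt : AF := (ArithmeticFunction.zeta : ArithmeticFunction ℝ)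

/-- the primes in `(x ^ κ, x ^ z]` -/
noncomputable def PP (x κ z : ℝ) : AF := prI ⌊x ^ κ⌋₊ ⌊x ^ z⌋₊

open Classical in
/-- the numbers divisible by the square of a prime above `x ^ κ` -/
noncomputable def bad (x κ : ℝ) : AF :=
  ⟨fun n => if n ≠ 0 ∧ ∃ p : ℕ, p.Prime ∧ x ^ κ < p ∧ p ^ 2 ∣ n then 1 else 0, by simp⟩

/-- nominal sizes -/
def Near {ι : Type} (x γ : ℝ) (a : ι → ℝ) (N : ι → ℕ) : Prop :=
  ∀ i, x ^ (a i - γ) ≤ N i ∧ (N i : ℝ) ≤ x ^ (a i + γ)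

/-- the level of the sieve weights -/
noncomputable def lev (τ t η : ℝ) : ℝ := min (η / 20) ((τ - t) / 4)

/-- dyadic expansion -/
def DyStmt : Prop :=
  (∀ (ι : Type) [Fintype ι] [DecidableEq ι] (x Δ : ℝ) (L : ℕ) (c : ι → AF) (h : AF), 0 < x →
    2 * x < 2 ^ L →
    SS x Δ ((∏ i, c i) * h) = ∑ e : ι → Fin L, SS x Δ ((∏ i, dy (2 ^ (e i : ℕ)) (c i)) * h)) ∧
  ∀ (X L : ℕ) (c : AF), X < 2 ^ L → ∑ e : Fin L, ms X (dy (2 ^ (e : ℕ)) c) = ms X c

/-- a product that meets the window -/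
def VanStmt : Prop := ∀ (ι : Type) [Fintype ι] (x Δ : ℝ) (g : ι → AF) (h : AF), 0 < x →
  SS x Δ ((∏ i, g i) * h) ≠ 0 → ∃ (m : ι → ℕ) (l : ℕ), (∀ i, g i (m i) ≠ 0) ∧ h l ≠ 0 ∧
    x / 2 < (∏ i, (m i : ℝ)) * l ∧ (∏ i, (m i : ℝ)) * l ≤ 2 * x

/-- the nominal point, with a free last coordinate -/
def NomStmt : Prop := ∀ (ι : Type) [Fintype ι] (lo hi : ι → ℝ) (γ : ℝ), 0 < γ →
  ∀ᶠ x : ℝ in atTop, ∀ N m : ι → ℕ,
    (∀ i, 1 ≤ N i ∧ N i ≤ m i ∧ m i < 2 * N i ∧ x ^ lo i ≤ m i ∧ (m i : ℝ) ≤ x ^ hi i) →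
    (∏ i, (m i : ℝ)) ≤ 2 * x →
    ∃ (a : ι → ℝ) (b : ℝ), (∀ i, 0 ≤ a i ∧ lo i ≤ a i ∧ a i ≤ hi i) ∧ 0 ≤ b ∧
      ∑ i, a i + b = 1 ∧ Near x γ a N

/-- general factors and a general last factor -/
def T2Stmt : Prop := E2D → ∀ (ι : Type) [Fintype ι] (τ t η : ℝ) (K A : ℕ), 1 / 3 ≤ t → t < τ →
  τ ≤ 1 / 2 → 0 < η → ∃ γ : ℝ, 0 < γ ∧ ∀ᶠ x : ℝ in atTop,
    ∀ (pr : ι → Prop) (a : ι → ℝ) (b : ℝ) (N : ι → ℕ) (g : ι → AF) (h : AF), (∀ i, 0 ≤ a i) →
      0 ≤ b → ∑ i, a i + b = 1 →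
      E2pt τ η K (fun o : Option ι => o.elim False pr) (fun o => o.elim b a) →
      (∀ i, Slot (N i) (g i)) → Near x γ a N → (∀ i, pr i → ∃ P Q : ℕ, g i = prI P Q) →
      (∀ n, |h n| ≤ 1) → |Dl t x ((∏ i, g i) * h)| ≤ x / Real.log x ^ A

/-- general factors, a short factor and the constant function -/
def T1Stmt : Prop := E1D → ∀ (ι : Type) [Fintype ι] (τ t η : ℝ) (K : ℕ), 1 / 3 ≤ t → t < τ →
  τ ≤ 1 / 2 → 0 < η → η ≤ 1 / 1000 → ∃ γ : ℝ, 0 < γ ∧ ∀ᶠ x : ℝ in atTop,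
    ∀ (a : ι → ℝ) (b : ℝ) (N : ι → ℕ) (g : ι → AF) (lam : AF), (∀ i, 0 ≤ a i) →
      ∑ i, a i + b = 1 → E1pt τ η K a b → (∀ i, Slot (N i) (g i)) → Near x γ a N →
      (∀ d, |lam d| ≤ 1) → (∀ d, lam d ≠ 0 → (d : ℝ) ≤ x ^ lev τ t η) →
      |Dl t x ((∏ i, g i) * (lam * zt))| ≤ x ^ (1 - η / 10)

/-- the main term of a sum with a free variable -/
def SZStmt : Prop := ∃ C : ℝ, 0 < C ∧ ∀ x Δ : ℝ, 1 ≤ x → 0 < Δ → Δ ≤ 1 → ∃ c : ℝ, 0 ≤ c ∧
  c ≤ 2 ∧ ∀ g : AF,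
    |SS x Δ (g * zt) - c * x * ms ⌊2 * x⌋₊ g| ≤ C / Δ * ∑ m ∈ Icc 1 ⌊2 * x⌋₊, |g m|

def BadStmt : Prop := SZStmt → ∀ κ s : ℝ, 0 < κ → 0 < s → s < 1 / 2 → ∃ δ : ℝ, 0 < δ ∧
  ∀ᶠ x : ℝ in atTop, SS x (x ^ (-s)) (bad x κ) ≤ x ^ (1 - δ)

/-- the expansion of the free factor -/
def IdStmt : Prop := ∀ (r : ℕ) (B : Fin r → Blk) (κ z : ℝ), 0 < κ → κ ≤ z → ∃ J : ℕ,
  ∀ δ : ℝ, 0 < δ → ∀ᶠ x : ℝ in atTop, ∀ n : ℕ, (n : ℝ) ≤ 2 * x →
    |((∏ i, bf x (B i)) * bf x (fr z)) n - ∑ j ∈ range J, (-1) ^ j / (j.factorial : ℝ) *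
      ((∏ i, bf x (B i)) * PP x κ z ^ j * bf x (fr κ)) n| ≤ x ^ δ * bad x κ n

/-- type I with a rough last factor -/
def T1RStmt : Prop := T1Stmt → SZStmt → E1D → ∀ (ι : Type) [Fintype ι] (τ t η κ : ℝ) (K w : ℕ),
  1 / 3 ≤ t → t < τ → τ ≤ 1 / 2 → 0 < η → η ≤ 1 / 1000 → 13 ≤ w → 0 < κ →
  κ * (4 * w + 6) ≤ lev τ t η → ∃ γ : ℝ, 0 < γ ∧ ∀ᶠ x : ℝ in atTop,
    ∀ (a : ι → ℝ) (b : ℝ) (N : ι → ℕ) (g : ι → AF), (∀ i, 0 ≤ a i) → ∑ i, a i + b = 1 →
      E1pt τ η K a b → (∀ i, Slot (N i) (g i)) → Near x γ a N → (∀ i n, 0 ≤ g i n) →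
      |Dl t x ((∏ i, g i) * bf x (fr κ))| ≤ x ^ (1 - η / 20) +
        2 ^ 28 / 4 ^ w / κ * (∏ i, ms ⌊2 * x⌋₊ (g i)) * (x / Real.log x)

/-- masses -/
def MsStmt : Prop :=
  (∃ M : ℝ, 1 ≤ M ∧ ∀ᶠ x : ℝ in atTop, ∀ B : Blk, 1 / 100 ≤ B.a → ms ⌊2 * x⌋₊ (bf x B) ≤ M) ∧
  ∀ κ z : ℝ, 0 < κ → κ ≤ 1 → ∀ᶠ x : ℝ in atTop, ms ⌊2 * x⌋₊ (PP x κ z) ≤ Real.log (6 / κ)

/-- the pieces of prime blocks are sums over primes -/
def PrStmt : Prop :=
  (∀ (x : ℝ) (B : Blk) (N : ℕ), 1 < x → B.IsP → ∃ P Q : ℕ, dy N (bf x B) = prI P Q) ∧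
  ∀ (P Q N : ℕ), ∃ P' Q' : ℕ, dy N (prI P Q) = prI P' Q'

/-- the bound for one dyadic box -/
def OneOK {r : ℕ} (t κ z E : ℝ) (B : Fin r → Blk) (j : ℕ) : Prop := ∀ A : ℕ,
  ∀ᶠ x : ℝ in atTop, ∀ N : Fin r ⊕ Fin j → ℕ, (∀ i, 1 ≤ N i) →
    |Dl t x ((∏ i : Fin r ⊕ Fin j,
        dy (N i) (Sum.elim (fun i => bf x (B i)) (fun _ => PP x κ z) i)) * bf x (fr κ))| ≤
      x / Real.log x ^ A + E * (∏ i : Fin r ⊕ Fin j,
        ms ⌊2 * x⌋₊ (dy (N i) (Sum.elim (fun i => bf x (B i)) (fun _ => PP x κ z) i))) *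
        (x / Real.log x)

/-- the alternative of `DustOK` at fixed parameters -/
def Alt {r : ℕ} (τ η η' κ z : ℝ) (K : ℕ) (B : Fin r → Blk) : Prop :=
  ∀ (j : ℕ) (a : Fin r → ℝ) (q : Fin j → ℝ) (b : ℝ), InBox B a → (∀ i, κ ≤ q i ∧ q i ≤ z) →
    0 ≤ b → ∑ i, a i + ∑ i, q i + b = 1 →
    E1pt τ η K (Sum.elim a q) b ∨
      E2pt τ η' K
        (fun o : Option (Fin r ⊕ Fin j) =>
          o.elim False (Sum.elim (fun i => (B i).IsP) fun _ => True))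
        (fun o => o.elim b (Sum.elim a q))

def OneStmt : Prop := T2Stmt → T1RStmt → T1Stmt → SZStmt → NomStmt → VanStmt → PrStmt → E1D →
  E2D → ∀ (τ t η η' κ z : ℝ) (K w r : ℕ) (B : Fin r → Blk), 1 / 3 ≤ t → t < τ → τ ≤ 1 / 2 →
    0 < η → η ≤ 1 / 1000 → 0 < η' → 13 ≤ w → 0 < κ → κ * (4 * w + 6) ≤ lev τ t η →
    Alt τ η η' κ z K B → ∀ j, OneOK t κ z (2 ^ 28 / 4 ^ w / κ) B j

/-- summation over the boxes -/
def RowStmt : Prop := DyStmt → ∀ (t κ z E M m : ℝ) (r j : ℕ) (B : Fin r → Blk), 0 ≤ E →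
  OneOK t κ z E B j → (∀ᶠ x : ℝ in atTop, ∀ i, ms ⌊2 * x⌋₊ (bf x (B i)) ≤ M) →
  (∀ᶠ x : ℝ in atTop, ms ⌊2 * x⌋₊ (PP x κ z) ≤ m) → ∀ ε : ℝ, 0 < ε → ∀ᶠ x : ℝ in atTop,
    |Dl t x ((∏ i, bf x (B i)) * PP x κ z ^ j * bf x (fr κ))| ≤
      (ε + E * M ^ r * m ^ j) * (x / Real.log x)

/-- summation over the number of small primes -/
def SumStmt : Prop := IdStmt → BadStmt → SZStmt → ∀ (t κ z E m : ℝ) (r : ℕ) (B : Fin r → Blk),
  0 < t → t < 1 / 2 → 0 < κ → κ ≤ z → 0 ≤ E → 0 ≤ m →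
  (∀ (j : ℕ) (ε : ℝ), 0 < ε → ∀ᶠ x : ℝ in atTop,
    |Dl t x ((∏ i, bf x (B i)) * PP x κ z ^ j * bf x (fr κ))| ≤
      (ε + E * m ^ j) * (x / Real.log x)) →
  ∀ ε : ℝ, 0 < ε → ∀ᶠ x : ℝ in atTop,
    |Dl t x ((∏ i, bf x (B i)) * bf x (fr z))| ≤ (ε + E * Real.exp m) * (x / Real.log x)

end Pool.Agent.MP_c853c5_nt.D

end

section

set_option autoImplicit false

open Finset Filter

namespace Pool.Agent.MP_c853c5_nt.D

open Pool.Agent.MP_c853c5_nt.S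

lemma e1_mono_Fin {ι : Type} [Fintype ι] {τ η η' : ℝ} {K : ℕ} {a : ι → ℝ} {b : ℝ}
    (h : E1pt τ η K a b) (hη : η' ≤ η) : E1pt τ η' K a b :=
  ⟨h.1, fun r v h0 h1 h2 h3 => (h.2 r v h0 h1 h2 h3).trans (by linarith)⟩

lemma small_Fin {C ε : ℝ} (hC : 0 < C) (hε : 0 < ε) :
    ∃ w : ℕ, 13 ≤ w ∧ C * (4 * (w : ℝ) + 6) ^ 2 / 4 ^ w ≤ ε := by
  have h := tendsto_pow_const_div_const_pow_of_one_lt 2 (show (1 : ℝ) < 4 by norm_num)
  have h2 := (h.eventually (gt_mem_nhds (show (0 : ℝ) < ε / (100 * C) by positivity))).and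
    (eventually_ge_atTop 13)
  obtain ⟨w, h3, h4⟩ := h2.exists
  refine ⟨w, h4, ?_⟩
  have h5 : (13 : ℝ) ≤ w := by exact_mod_cast h4
  have h6 : (4 * (w : ℝ) + 6) ^ 2 ≤ 100 * (w : ℝ) ^ 2 := by nlinarith
  have h7 : (0 : ℝ) < 4 ^ w := by positivity
  rw [div_lt_div_iff₀ h7 (by positivity)] at h3
  rw [div_le_iff₀ h7]
  nlinarith [mul_le_mul_of_nonneg_left h6 hC.le]

theorem dFin (hT2 : T2Stmt) (hT1R : T1RStmt) (hT1 : T1Stmt) (hSZ : SZStmt) (hNom : NomStmt)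
    (hVan : VanStmt) (hPr : PrStmt) (hDy : DyStmt) (hId : IdStmt) (hBad : BadStmt)
    (hMs : MsStmt) (hOne : OneStmt) (hRow : RowStmt) (hSum : SumStmt) (h1 : E1D) (h2 : E2D) :
    LeafS := by
  intro τ t ht hτ hτ2 r B z hB hz hD
  obtain ⟨η₀, hη₀, hD⟩ := hD
  obtain ⟨⟨M, hM1, hM⟩, hP⟩ := hMs
  set η := min η₀ (1 / 1000) with hηd
  have hη : 0 < η := lt_min hη₀ (by norm_num)
  have hl : 0 < lev τ t η := lt_min (by positivity) (by linarith)
  set c := min (lev τ t η) (min z 1) with hc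
  have c0 : 0 < c := lt_min hl (lt_min hz one_pos)
  have key : ∀ ε : ℝ, 0 < ε → ∀ᶠ x : ℝ in atTop,
      |Dl t x ((∏ i, bf x (B i)) * bf x (fr z))| ≤ ε * (x / Real.log x) := by
    intro ε hε
    obtain ⟨w, hw, hs⟩ := small_Fin (C := 2 ^ 28 * M ^ r * 6 / c ^ 2) (by positivity)
      (half_pos hε)
    have w0 : (1 : ℝ) ≤ 4 * (w : ℝ) + 6 := by
      have : (0 : ℝ) ≤ w := Nat.cast_nonneg w
      linarith
    set κ := c / (4 * (w : ℝ) + 6) with hκ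
    have κ0 : 0 < κ := by positivity
    have κc : κ ≤ c := div_le_self c0.le w0
    have κz : κ ≤ z := κc.trans ((min_le_right _ _).trans (min_le_left _ _))
    have κ1 : κ ≤ 1 := κc.trans ((min_le_right _ _).trans (min_le_right _ _))
    have κl : κ * (4 * w + 6) ≤ lev τ t η := by
      rw [hκ, div_mul_cancel₀ _ (by linarith)]
      exact min_le_left _ _
    obtain ⟨η', hη', K, hK⟩ := hD κ κ0
    have hA : Alt τ η η' κ z K B := fun j a q b ha hq hb hs =>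
      (hK j a q b ha hq hb hs).imp (fun h => e1_mono_Fin h (min_le_left _ _)) id
    have hO := hOne hT2 hT1R hT1 hSZ hNom hVan hPr h1 h2 τ t η η' κ z K w r B ht hτ hτ2 hη
      (min_le_right _ _) hη' hw κ0 κl hA
    have m0 : 0 ≤ Real.log (6 / κ) := Real.log_nonneg (by
      rw [le_div_iff₀ κ0]
      linarith)
    have hR := hSum hId hBad hSZ t κ z (2 ^ 28 / 4 ^ w / κ * M ^ r) (Real.log (6 / κ)) r B
      (by linarith) (by linarith) κ0 κz (by positivity) m0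
      (fun j => hRow hDy t κ z _ M _ r j B (by positivity) (hO j)
        (hM.mono fun x hx i => hx _ (hB i)) (hP κ z κ0 κ1)) (ε / 2) (half_pos hε)
    filter_upwards [hR, eventually_gt_atTop 1] with x hx x1
    refine hx.trans (mul_le_mul_of_nonneg_right ?_
      (div_nonneg (by linarith) (Real.log_pos x1).le))
    rw [Real.exp_log (by positivity)]
    have e : 2 ^ 28 / 4 ^ w / κ * M ^ r * (6 / κ) =
        2 ^ 28 * M ^ r * 6 / c ^ 2 * (4 * (w : ℝ) + 6) ^ 2 / 4 ^ w := by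
      rw [hκ]
      field_simp
    rw [e]
    linarith
  refine ⟨fun ε hε => (key ε hε).mono fun x hx => ?_, fun ε hε => (key ε hε).mono fun x hx => ?_⟩
  · rw [zero_add]
    exact (abs_le.1 hx).1
  · rw [zero_add]
    exact (abs_le.1 hx).2

end Pool.Agent.MP_c853c5_nt.D

end

section

/-!
The bound for one dyadic box.
-/

set_option autoImplicit false

open Finset Filter

namespace Pool.Agent.MP_c853c5_nt.D

open Pool.Agent.MP_c853c5_nt.S

lemma near_One {ι : Type} {x γ γ' : ℝ} {a : ι → ℝ} {N : ι → ℕ} (hx : 1 ≤ x) (h : γ ≤ γ')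
    (hN : Near x γ a N) : Near x γ' a N := fun i =>
  ⟨(Real.rpow_le_rpow_of_exponent_le hx (by linarith)).trans (hN i).1,
    (hN i).2.trans (Real.rpow_le_rpow_of_exponent_le hx (by linarith))⟩

lemma log_One (s : ℝ) (hs : 0 < s) (A : ℕ) :
    ∀ᶠ x : ℝ in atTop, x ^ (1 - s) ≤ x / Real.log x ^ A := by
  have h := (isLittleO_log_rpow_rpow_atTop (A : ℝ) hs).bound one_pos
  filter_upwards [h, eventually_gt_atTop 1] with x h1 hx
  have hx0 : 0 < x := by linarith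
  have hl : 0 < Real.log x ^ A := pow_pos (Real.log_pos hx) A
  have hp : 0 < x ^ s := Real.rpow_pos_of_pos hx0 s
  rw [Real.rpow_natCast, Real.norm_eq_abs, Real.norm_eq_abs, abs_of_pos hl, abs_of_pos hp,
    one_mul] at h1
  rw [Real.rpow_sub hx0, Real.rpow_one]
  exact div_le_div_of_nonneg_left hx0.le hl h1

lemma dy_apply_One (N : ℕ) (c : AF) (n : ℕ) :
    dy N c n = if N ≤ n ∧ n < 2 * N then c n else 0 := rfl

lemma dy_ne_One {N n : ℕ} {c : AF} (h : dy N c n ≠ 0) : (N ≤ n ∧ n < 2 * N) ∧ c n ≠ 0 := by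
  rw [dy_apply_One] at h
  split_ifs at h with k
  · exact ⟨k, h⟩
  · exact absurd rfl h

lemma dy_nn_One (N : ℕ) {c : AF} (h : ∀ n, 0 ≤ c n ∧ c n ≤ 1) (n : ℕ) :
    0 ≤ dy N c n ∧ dy N c n ≤ 1 := by
  rw [dy_apply_One]
  split_ifs
  · exact h n
  · norm_num

lemma slot_One {N : ℕ} (hN : 1 ≤ N) {c : AF} (h : ∀ n, 0 ≤ c n ∧ c n ≤ 1) : Slot N (dy N c) :=
  ⟨hN, fun n => by
    rw [abs_of_nonneg (dy_nn_One N h n).1]
    exact (dy_nn_One N h n).2, fun _ k => (dy_ne_One k).1⟩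

open Classical in
lemma bf_apply_One (x : ℝ) (B : Blk) (n : ℕ) : bf x B n = if B.Mem x n then 1 else 0 := rfl

lemma bf_nn_One (x : ℝ) (B : Blk) (n : ℕ) : 0 ≤ bf x B n ∧ bf x B n ≤ 1 := by
  rw [bf_apply_One]
  split_ifs <;> norm_num

lemma bf_ne_One {x : ℝ} {B : Blk} {n : ℕ} (h : bf x B n ≠ 0) : B.Mem x n := by
  rw [bf_apply_One] at h
  by_contra k
  exact h (if_neg k)

lemma prI_apply_One (P Q n : ℕ) :
    prI P Q n = if P < n ∧ n ≤ Q ∧ n.Prime then 1 else 0 := rfl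

lemma PP_nn_One (x κ z : ℝ) (n : ℕ) : 0 ≤ PP x κ z n ∧ PP x κ z n ≤ 1 := by
  rw [PP, prI_apply_One]
  split_ifs <;> norm_num

lemma PP_ne_One {x κ z : ℝ} {n : ℕ} (hx : 0 ≤ x) (h : PP x κ z n ≠ 0) :
    x ^ κ ≤ n ∧ (n : ℝ) ≤ x ^ z := by
  rw [PP, prI_apply_One] at h
  split_ifs at h with k
  · exact ⟨(Nat.lt_of_floor_lt k.1).le, (Nat.le_floor_iff (Real.rpow_nonneg hx z)).1 k.2.1⟩
  · exact absurd rfl h

lemma ms_nn_One (X : ℕ) {f : AF} (h : ∀ n, 0 ≤ f n) : 0 ≤ ms X f :=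
  sum_nonneg fun m _ => div_nonneg (h m) (Nat.cast_nonneg m)

theorem dOne : OneStmt := by
  intro hT2 hT1R hT1 hSZ hNom hVan hPr hE1 hE2 τ t η η' κ z K w r B ht htτ hτ hη hη1 hη' hw hκ
    hlev hAlt j A
  obtain ⟨γ2, hγ2, h2⟩ := hT2 hE2 (Fin r ⊕ Fin j) τ t η' K A ht htτ hτ hη'
  obtain ⟨γ1, hγ1, h1⟩ := hT1R hT1 hSZ hE1 (Fin r ⊕ Fin j) τ t η κ K w ht htτ hτ hη hη1 hw hκ hlev
  have h3 := hNom (Fin r ⊕ Fin j) (Sum.elim (fun i => (B i).lo) fun _ => κ)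
    (Sum.elim (fun i => (B i).hi) fun _ => z) (min γ1 γ2) (lt_min hγ1 hγ2)
  filter_upwards [h1, h2, h3, log_One (η / 20) (by positivity) A, eventually_gt_atTop 1]
    with x h1 h2 h3 h4 hx
  intro N hN
  have hx0 : 0 < x := by linarith
  have hlog : 0 < Real.log x := Real.log_pos hx
  set c : Fin r ⊕ Fin j → AF := Sum.elim (fun i => bf x (B i)) fun _ => PP x κ z with hc
  have hc01 : ∀ i n, 0 ≤ c i n ∧ c i n ≤ 1 := by
    rintro (i | i) n
    · exact bf_nn_One x (B i) n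
    · exact PP_nn_One x κ z n
  have hnn : ∀ i n, 0 ≤ dy (N i) (c i) n := fun i n => (dy_nn_One (N i) (hc01 i) n).1
  have hsl : ∀ i, Slot (N i) (dy (N i) (c i)) := fun i => slot_One (hN i) (hc01 i)
  have hE : 0 ≤ 2 ^ 28 / 4 ^ w / κ * (∏ i, ms ⌊2 * x⌋₊ (dy (N i) (c i))) * (x / Real.log x) :=
    mul_nonneg (mul_nonneg (by positivity) (prod_nonneg fun i _ => ms_nn_One _ (hnn i)))
      (by positivity)
  have hA : 0 ≤ x / Real.log x ^ A := by positivity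
  by_cases h0 : Dl t x ((∏ i, dy (N i) (c i)) * bf x (fr κ)) = 0
  · rw [h0, abs_zero]
    exact add_nonneg hA hE
  have h5 : ∃ Δ, SS x Δ ((∏ i, dy (N i) (c i)) * bf x (fr κ)) ≠ 0 := by
    by_contra k
    push Not at k
    exact h0 (by rw [Dl, SB, k, k, sub_zero])
  obtain ⟨Δ, h5⟩ := h5
  obtain ⟨m, l, hm, hl, -, hml⟩ := hVan _ x Δ _ _ hx0 h5
  have hl1 : (1 : ℝ) ≤ l := by
    exact_mod_cast Nat.one_le_iff_ne_zero.2 (bf_ne_One hl).1
  have hpm : (∏ i, (m i : ℝ)) ≤ 2 * x :=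
    (le_mul_of_one_le_right (prod_nonneg fun i _ => Nat.cast_nonneg _) hl1).trans hml
  obtain ⟨a, b, ha, hb, hab, hnear⟩ := h3 N m (fun i => by
    obtain ⟨⟨k1, k2⟩, k3⟩ := dy_ne_One (hm i)
    refine ⟨hN i, k1, k2, ?_⟩
    rcases i with i | i
    · have k4 := bf_ne_One (x := x) (B := B i) k3
      exact ⟨k4.2.1.le, k4.2.2.1⟩
    · exact PP_ne_One (κ := κ) (z := z) hx0.le k3) hpm
  have h6 := hAlt j (a ∘ Sum.inl) (a ∘ Sum.inr) b (fun i => ha (Sum.inl i))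
    (fun i => (ha (Sum.inr i)).2) hb (by rw [← hab, Fintype.sum_sum_type]; rfl)
  rw [Sum.elim_comp_inl_inr] at h6
  rcases h6 with h6 | h6
  · refine (h1 a b N _ (fun i => (ha i).1) hab h6 hsl (near_One hx.le (min_le_left _ _) hnear)
      hnn).trans ?_
    exact add_le_add h4 le_rfl
  · refine (h2 _ a b N _ (bf x (fr κ)) (fun i => (ha i).1) hb hab h6 hsl
      (near_One hx.le (min_le_right _ _) hnear) ?_ fun n => ?_).trans (le_add_of_nonneg_right hE)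
    · rintro (i | i) hi
      · exact hPr.1 x (B i) _ hx hi
      · exact hPr.2 _ _ _
    · rw [abs_of_nonneg (bf_nn_One x _ n).1]
      exact (bf_nn_One x _ n).2

end Pool.Agent.MP_c853c5_nt.D

end

section

/-!
The expansion of the free factor.
-/

set_option autoImplicit false

open Finset Filter

namespace Pool.Agent.MP_c853c5_nt.D

open Pool.Agent.MP_c853c5_nt.S

open Classical in
/-- the rough numbers, without truncation -/
noncomputable def ro_Id (x a : ℝ) : AF :=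
  ⟨fun m => if m ≠ 0 ∧ Rough x a m then 1 else 0, by simp⟩

lemma pp_cases_Id (x κ z : ℝ) (p : ℕ) : PP x κ z p = 0 ∨ (p.Prime ∧ PP x κ z p = 1) := by
  simp only [PP, prI, ArithmeticFunction.coe_mk]
  split_ifs with h
  · exact Or.inr ⟨h.2.2, rfl⟩
  · exact Or.inl rfl

lemma pp_iff_Id {x : ℝ} (hx : 0 < x) (κ z : ℝ) (p : ℕ) :
    PP x κ z p = 1 ↔ x ^ κ < p ∧ (p : ℝ) ≤ x ^ z ∧ p.Prime := by
  rw [← Nat.floor_lt (Real.rpow_pos_of_pos hx κ).le,
    ← Nat.le_floor_iff (Real.rpow_pos_of_pos hx z).le]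
  simp only [PP, prI, ArithmeticFunction.coe_mk]
  split_ifs with h
  · exact iff_of_true rfl h
  · exact iff_of_false zero_ne_one h

lemma bf_fr_Id {x : ℝ} (hx : 1 < x) (a : ℝ) {m : ℕ} (hm : m ≠ 0) (h2 : (m : ℝ) ≤ x ^ 2) :
    bf x (fr a) m = ro_Id x a m := by
  have h1 : x ^ (-1 : ℝ) < m :=
    (Real.rpow_lt_one_of_one_lt_of_neg hx (by norm_num)).trans_le
      (by exact_mod_cast Nat.one_le_iff_ne_zero.2 hm)
  have h3 : (m : ℝ) ≤ x ^ (2 : ℝ) := by rwa [Real.rpow_two]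
  simp only [bf, ro_Id, ArithmeticFunction.coe_mk]
  by_cases h : Rough x a m
  · rw [if_pos ⟨hm, h1, h3, h, by simp [fr]⟩, if_pos ⟨hm, h⟩]
  · rw [if_neg fun h' => h h'.2.2.2.1, if_neg fun h' => h h'.2]

lemma cnt_Id {x κ : ℝ} (hx : 1 < x) (hκ : 0 < κ) (z : ℝ) {d : ℕ} (hd : d ≠ 0)
    (h2 : (d : ℝ) ≤ x ^ 2) : B.cntP (PP x κ z) d ≤ ⌈2 / κ⌉₊ := by
  have hx0 : 0 < x := zero_lt_one.trans hx
  have key : ∀ s : Finset ℕ, s ⊆ d.primeFactors → (∀ p ∈ s, x ^ κ < p) → s.card ≤ ⌈2 / κ⌉₊ := by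
    intro s hs hp
    have h3 : ∏ p ∈ s, p ≤ d := Nat.le_of_dvd (Nat.pos_of_ne_zero hd)
      ((prod_dvd_prod_of_subset _ _ _ hs).trans (Nat.prod_primeFactors_dvd d))
    have h4 : (x ^ κ) ^ s.card ≤ ∏ p ∈ s, (p : ℝ) := by
      rw [← prod_const]
      exact prod_le_prod (fun _ _ => (Real.rpow_pos_of_pos hx0 κ).le) fun p h => (hp p h).le
    have h5 : x ^ (κ * s.card) ≤ x ^ (2 : ℝ) := by
      rw [Real.rpow_mul_natCast hx0.le, Real.rpow_two]
      refine h4.trans (le_trans ?_ h2)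
      rw [← Nat.cast_prod]
      exact Nat.cast_le.2 h3
    have h6 : (s.card : ℝ) ≤ 2 / κ := by
      rw [le_div_iff₀ hκ, mul_comm]
      exact (Real.rpow_le_rpow_left_iff hx).1 h5
    exact_mod_cast h6.trans (Nat.le_ceil _)
  unfold B.cntP
  exact key _ (filter_subset _ _) fun p hp => ((pp_iff_Id hx0 κ z p).1 (mem_filter.1 hp).2).1

lemma free_Id {x κ z : ℝ} (hx : 1 < x) (hκ : 0 < κ) (hz : κ ≤ z) {d : ℕ} (hd : d ≠ 0)
    (h2 : (d : ℝ) ≤ x ^ 2) (hg : ∀ p : ℕ, p.Prime → x ^ κ < p → ¬p ^ 2 ∣ d) :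
    bf x (fr z) d = ∑ j ∈ range (⌈2 / κ⌉₊ + 1), (-1) ^ j / (j.factorial : ℝ) *
      (PP x κ z ^ j * bf x (fr κ)) d := by
  have hx0 : 0 < x := zero_lt_one.trans hx
  have h1 : ∀ j : ℕ, (PP x κ z ^ j * bf x (fr κ)) d = (PP x κ z ^ j * ro_Id x κ) d := fun j =>
    B.mul_apply_congr _ fun e he => bf_fr_Id hx κ (ne_zero_of_dvd_ne_zero hd he)
      (le_trans (by exact_mod_cast Nat.le_of_dvd (Nat.pos_of_ne_zero hd) he) h2)
  have hR : ∀ p m : ℕ, PP x κ z p = 1 → m ≠ 0 → ro_Id x κ (p * m) = ro_Id x κ m := by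
    intro p m hp hm
    obtain ⟨h3, -, h4⟩ := (pp_iff_Id hx0 κ z p).1 hp
    simp only [ro_Id, ArithmeticFunction.coe_mk]
    by_cases h : Rough x κ m
    · have h7 : Rough x κ (p * m) := fun q hq h5 => by
        rcases (Nat.Prime.dvd_mul hq).1 h5 with h6 | h6
        · rwa [(Nat.prime_dvd_prime_iff_eq hq h4).1 h6]
        · exact h q hq h6
      rw [if_pos ⟨mul_ne_zero h4.ne_zero hm, h7⟩, if_pos ⟨hm, h⟩]
    · rw [if_neg fun h' => h fun q hq h5 => h'.2 q hq (h5.mul_left p), if_neg fun h' => h h'.2]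
  simp only [h1]
  rw [B.incl_excl (pp_cases_Id x κ z) hR hd (fun p hp => hg p ((pp_iff_Id hx0 κ z p).1 hp).2.2
    ((pp_iff_Id hx0 κ z p).1 hp).1) (cnt_Id hx hκ z hd h2), bf_fr_Id hx z hd h2]
  have h3 : B.cntP (PP x κ z) d = 0 ↔ ∀ p : ℕ, p.Prime → p ∣ d → x ^ κ < p → x ^ z < p := by
    unfold B.cntP
    rw [card_eq_zero, filter_eq_empty_iff]
    refine ⟨fun h p hp h4 h5 => ?_, fun h p hp h4 => ?_⟩
    · by_contra h6
      exact h (Nat.mem_primeFactors.2 ⟨hp, h4, hd⟩)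
        ((pp_iff_Id hx0 κ z p).2 ⟨h5, not_lt.1 h6, hp⟩)
    · obtain ⟨h5, h6, h7⟩ := (pp_iff_Id hx0 κ z p).1 h4
      exact (h p h7 (Nat.dvd_of_mem_primeFactors hp) h5).not_ge h6
  have h4 : x ^ κ ≤ x ^ z := Real.rpow_le_rpow_of_exponent_le hx.le hz
  simp only [ro_Id, ArithmeticFunction.coe_mk]
  by_cases h5 : Rough x z d
  · rw [if_pos ⟨hd, h5⟩, if_pos (h3.2 fun p hp h6 _ => h5 p hp h6),
      if_pos ⟨hd, fun p hp h6 => h4.trans_lt (h5 p hp h6)⟩]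
  · rw [if_neg fun h => h5 h.2]
    split_ifs with h6 h7
    · exact absurd (fun p hp h8 => h3.1 h6 p hp h8 (h7.2 p hp h8)) h5
    · rfl
    · rfl

lemma bf_le_Id (x : ℝ) (B : Blk) (d : ℕ) : |bf x B d| ≤ 1 := by
  simp only [bf, ArithmeticFunction.coe_mk]
  split_ifs <;> simp

lemma mul_le_Id {X : ℕ} {Δ : ℝ} (h1 : 1 ≤ Δ) (hΔ : ∀ n : ℕ, n ≤ X → (n.divisors.card : ℝ) ≤ Δ)
    {f g : AF} {a b : ℕ} (hf : ∀ n : ℕ, n ≤ X → |f n| ≤ Δ ^ a)
    (hg : ∀ n : ℕ, n ≤ X → |g n| ≤ Δ ^ b) : ∀ n : ℕ, n ≤ X → |(f * g) n| ≤ Δ ^ (a + b + 1) := by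
  intro n hn
  rcases Nat.eq_zero_or_pos n with rfl | h0
  · simp only [ArithmeticFunction.map_zero, abs_zero]
    positivity
  refine (B.abs_mul_apply_le (by positivity) (fun d hd => hf d ((Nat.le_of_dvd h0 hd).trans hn))
    fun d hd => hg d ((Nat.le_of_dvd h0 hd).trans hn)).trans ?_
  rw [pow_succ', pow_add]
  exact mul_le_mul_of_nonneg_right (hΔ n hn) (by positivity)

lemma div_Id (m k : ℕ) {δ : ℝ} (hδ : 0 < δ) : ∀ᶠ x : ℝ in atTop, ∃ Δ : ℝ, 1 ≤ Δ ∧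
    (∀ n : ℕ, n ≤ ⌊x ^ 2⌋₊ → (n.divisors.card : ℝ) ≤ Δ) ∧ k * Δ ^ (m + 1) ≤ x ^ δ := by
  have hε : 0 < δ / (4 * (m + 1 : ℕ)) := by positivity
  obtain ⟨C, hC, h⟩ := Pool.Agent.MP_2a1f0e_nt.divisor_bound hε
  filter_upwards [eventually_ge_atTop 1, (tendsto_rpow_atTop (half_pos hδ)).eventually_ge_atTop
    (k * C ^ (m + 1))] with x hx h1
  have hx0 : 0 < x := zero_lt_one.trans_le hx
  refine ⟨C * (x ^ 2) ^ (δ / (4 * (m + 1 : ℕ))), one_le_mul_of_one_le_of_one_le hC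
    (Real.one_le_rpow (one_le_pow₀ hx) hε.le), fun n hn => (h n).trans ?_, ?_⟩
  · have h2 : (n : ℝ) ≤ x ^ 2 := (Nat.le_floor_iff (by positivity)).1 hn
    gcongr
  · have h2 : ((x ^ 2) ^ (δ / (4 * (m + 1 : ℕ)))) ^ (m + 1) = x ^ (δ / 2) := by
      rw [← Real.rpow_natCast x 2, ← Real.rpow_mul hx0.le, ← Real.rpow_mul_natCast hx0.le]
      congr 1
      have : ((m + 1 : ℕ) : ℝ) ≠ 0 := by positivity
      field_simp
      norm_num
    rw [mul_pow, h2, ← mul_assoc]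
    calc k * C ^ (m + 1) * x ^ (δ / 2) ≤ x ^ (δ / 2) * x ^ (δ / 2) := by gcongr
      _ = x ^ δ := by rw [← Real.rpow_add hx0, add_halves]

lemma prod_le_Id {ι : Type} (s : Finset ι) (f : ι → AF) (hf : ∀ i ∈ s, ∀ d, |f i d| ≤ 1) {X : ℕ}
    {Δ : ℝ} (h1 : 1 ≤ Δ) (hΔ : ∀ n : ℕ, n ≤ X → (n.divisors.card : ℝ) ≤ Δ) :
    ∀ n : ℕ, n ≤ X → |(∏ i ∈ s, f i) n| ≤ Δ ^ s.card :=
  B.abs_prod_apply_le s f hf h1 hΔ

theorem dId : IdStmt := by
  intro r B κ z hκ hz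
  refine ⟨⌈2 / κ⌉₊ + 1, fun δ hδ => ?_⟩
  filter_upwards [eventually_ge_atTop 2,
    div_Id (r + (⌈2 / κ⌉₊ + 1) + 1) (⌈2 / κ⌉₊ + 1 + 1) hδ] with x hx ⟨Δ, h1, hΔ, hk⟩ n hn
  have hx1 : 1 < x := by linarith
  have h2 : (n : ℝ) ≤ x ^ 2 := by nlinarith
  rcases eq_or_ne n 0 with rfl | h0
  · simp
  by_cases hb : ∃ p : ℕ, p.Prime ∧ x ^ κ < p ∧ p ^ 2 ∣ n
  · have h3 : bad x κ n = 1 := by
      simp only [bad, ArithmeticFunction.coe_mk]
      exact if_pos ⟨h0, hb⟩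
    have hn' : n ≤ ⌊x ^ 2⌋₊ := Nat.le_floor h2
    have hF : ∀ n : ℕ, n ≤ ⌊x ^ 2⌋₊ → |(∏ i, bf x (B i)) n| ≤ Δ ^ r := by
      simpa using prod_le_Id univ (fun i => bf x (B i)) (fun i _ => bf_le_Id x (B i)) h1 hΔ
    have hP : ∀ j n : ℕ, n ≤ ⌊x ^ 2⌋₊ → |(PP x κ z ^ j) n| ≤ Δ ^ j := fun j => by
      simpa using prod_le_Id (range j) (fun _ => PP x κ z) (fun _ _ d => by
        rcases pp_cases_Id x κ z d with h | h
        · simp [h]
        · simp [h.2]) h1 hΔ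
    have hR : ∀ (a : ℝ) (n : ℕ), n ≤ ⌊x ^ 2⌋₊ → |bf x (fr a) n| ≤ Δ ^ 0 := fun a n _ => by
      simpa using bf_le_Id x (fr a) n
    have h4 := (mul_le_Id h1 hΔ hF (hR z) n hn').trans
      (pow_le_pow_right₀ h1 (show r + 0 + 1 ≤ r + (⌈2 / κ⌉₊ + 1) + 1 + 1 by omega))
    have h5 : ∀ j ∈ range (⌈2 / κ⌉₊ + 1), |(-1) ^ j / (j.factorial : ℝ) *
        ((∏ i, bf x (B i)) * PP x κ z ^ j * bf x (fr κ)) n| ≤
        Δ ^ (r + (⌈2 / κ⌉₊ + 1) + 1 + 1) := by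
      intro j hj
      have h6 := (mul_le_Id h1 hΔ (mul_le_Id h1 hΔ hF (hP j)) (hR κ) n hn').trans
        (pow_le_pow_right₀ h1 (show r + j + 1 + 0 + 1 ≤ r + (⌈2 / κ⌉₊ + 1) + 1 + 1 by
          have := mem_range.1 hj
          omega))
      have h7 : |(-1) ^ j / (j.factorial : ℝ)| ≤ 1 := by
        rw [abs_div, abs_pow, abs_neg, abs_one, one_pow, Nat.abs_cast]
        exact (div_le_one (by positivity)).2 (by exact_mod_cast j.factorial_pos)
      rw [abs_mul]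
      exact (mul_le_of_le_one_left (abs_nonneg _) h7).trans h6
    have h6 := (abs_sum_le_sum_abs _ _).trans (sum_le_card_nsmul _ _ _ h5)
    rw [card_range, nsmul_eq_mul] at h6
    rw [h3, mul_one]
    refine (abs_sub _ _).trans ((add_le_add h4 h6).trans (le_trans (le_of_eq ?_) hk))
    push_cast
    ring
  · have h3 : bad x κ n = 0 := by
      simp only [bad, ArithmeticFunction.coe_mk]
      exact if_neg fun h => hb h.2
    rw [h3, mul_zero, abs_nonpos_iff, sub_eq_zero]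
    simp only [mul_assoc]
    simp only [ArithmeticFunction.mul_apply (f := ∏ i, bf x (B i)), mul_sum]
    rw [sum_comm]
    refine sum_congr rfl fun a ha => ?_
    have h4 := Nat.dvd_of_mem_divisors (Nat.snd_mem_divisors_of_mem_antidiagonal ha)
    rw [free_Id hx1 hκ hz (ne_zero_of_dvd_ne_zero h0 h4)
      (le_trans (by exact_mod_cast Nat.le_of_dvd (Nat.pos_of_ne_zero h0) h4) h2)
      (fun p hp h5 h6 => hb ⟨p, hp, h5, h6.trans h4⟩), mul_sum]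
    exact sum_congr rfl fun j _ => by ring

end Pool.Agent.MP_c853c5_nt.D

end

section

/-!
The nominal point of a dyadic box.
-/

set_option autoImplicit false

open Finset Filter

namespace Pool.Agent.MP_c853c5_nt.D

open Pool.Agent.MP_c853c5_nt.S

theorem shrink_Nom {ι : Type} [Fintype ι] (l α : ι → ℝ) {ε : ℝ} (hε : 0 ≤ ε) (h : ∀ i, l i ≤ α i)
    (h1 : ∑ i, l i ≤ 1) (h2 : ∑ i, α i ≤ 1 + ε) : ∃ (a : ι → ℝ) (b : ℝ),
      (∀ i, l i ≤ a i ∧ a i ≤ α i ∧ α i ≤ a i + ε) ∧ 0 ≤ b ∧ ∑ i, a i + b = 1 := by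
  rcases le_or_gt (∑ i, α i) 1 with k | k
  · exact ⟨α, 1 - ∑ i, α i, fun i => ⟨h i, le_rfl, by linarith⟩, by linarith, by ring⟩
  have h3 : 0 < ∑ i, α i - ∑ i, l i := by linarith
  obtain ⟨s, h4, h5, h6⟩ : ∃ s : ℝ, 0 ≤ s ∧ s ≤ 1 ∧ s * (∑ i, α i - ∑ i, l i) = 1 - ∑ i, l i :=
    ⟨_, div_nonneg (by linarith) h3.le, (div_le_one h3).2 (by linarith),
      div_mul_cancel₀ _ h3.ne'⟩
  refine ⟨fun i => l i + s * (α i - l i), 0, fun i => ?_, le_rfl, ?_⟩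
  · have h7 : α i - l i ≤ ∑ i, α i - ∑ i, l i := by
      rw [← sum_sub_distrib]
      exact single_le_sum (f := fun i => α i - l i) (fun j _ => sub_nonneg.2 (h j)) (mem_univ i)
    have h8 := sub_nonneg.2 (h i)
    have h9 := mul_le_mul_of_nonneg_left h7 (sub_nonneg.2 h5)
    refine ⟨by nlinarith, by nlinarith, by nlinarith⟩
  · rw [sum_add_distrib, ← mul_sum, sum_sub_distrib, h6]
    ring

theorem dNom : NomStmt := by
  intro ι _ lo hi γ hγ
  obtain ⟨ε, h1, h2, h3⟩ : ∃ ε : ℝ, 0 < ε ∧ ε ≤ γ ∧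
      (∑ i, max (lo i) 0 ≤ 1 + ε → ∑ i, max (lo i) 0 ≤ 1) := by
    rcases le_or_gt (∑ i, max (lo i) 0) 1 with k | k
    · exact ⟨γ, hγ, le_rfl, fun _ => k⟩
    · refine ⟨min γ ((∑ i, max (lo i) 0 - 1) / 2), lt_min hγ (by linarith), min_le_left _ _,
        fun e => ?_⟩
      have := min_le_right γ ((∑ i, max (lo i) 0 - 1) / 2)
      linarith
  filter_upwards [eventually_gt_atTop 1, (tendsto_rpow_atTop h1).eventually_ge_atTop 2]
    with x hx h4 N m h h5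
  have x0 : 0 < x := by linarith
  have m1 : ∀ i, (1 : ℝ) ≤ m i := fun i => by exact_mod_cast (h i).1.trans (h i).2.1
  have m0 : ∀ i, (0 : ℝ) < m i := fun i => by linarith [m1 i]
  have e : ∀ i, x ^ Real.logb x (m i) = m i := fun i => Real.rpow_logb x0 hx.ne' (m0 i)
  have h6 : ∀ i, max (lo i) 0 ≤ Real.logb x (m i) := fun i =>
    max_le ((Real.le_logb_iff_rpow_le hx (m0 i)).2 (h i).2.2.2.1) (Real.logb_nonneg hx (m1 i))
  have h7 : ∑ i, Real.logb x (m i) ≤ 1 + ε := by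
    rw [← Real.rpow_le_rpow_left_iff hx, Real.rpow_sum_of_pos x0, Real.rpow_add x0, Real.rpow_one]
    simp only [e]
    nlinarith
  obtain ⟨a, b, k1, k2, k3⟩ := shrink_Nom _ _ h1.le h6 (h3 ((sum_le_sum fun i _ => h6 i).trans h7)) h7
  refine ⟨a, b, fun i => ⟨(le_max_right _ _).trans (k1 i).1, (le_max_left _ _).trans (k1 i).1,
    (k1 i).2.1.trans ((Real.logb_le_iff_le_rpow hx (m0 i)).2 (h i).2.2.2.2)⟩, k2, k3,
    fun i => ⟨?_, ?_⟩⟩
  · have a1 : x ^ (a i - γ) ≤ x ^ (Real.logb x (m i) - ε) :=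
      Real.rpow_le_rpow_of_exponent_le hx.le (by linarith [(k1 i).2.1])
    have a2 : (m i : ℝ) ≤ 2 * N i := by exact_mod_cast (h i).2.2.1.le
    rw [Real.rpow_sub x0 (Real.logb x _), e] at a1
    refine a1.trans ((div_le_iff₀ (by linarith)).2 (a2.trans ?_))
    rw [mul_comm]
    exact mul_le_mul_of_nonneg_left h4 (Nat.cast_nonneg _)
  · have a2 : (N i : ℝ) ≤ m i := by exact_mod_cast (h i).2.1
    exact a2.trans ((e i).ge.trans
      (Real.rpow_le_rpow_of_exponent_le hx.le (by linarith [(k1 i).2.2])))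

end Pool.Agent.MP_c853c5_nt.D

end

section

/-!
Summation over the dyadic boxes.
-/

set_option autoImplicit false

open Finset Filter

namespace Pool.Agent.MP_c853c5_nt.D

open Pool.Agent.MP_c853c5_nt.S

theorem ms_nonneg_Row (X : ℕ) {f : AF} (h : ∀ n, 0 ≤ f n) : 0 ≤ ms X f :=
  sum_nonneg fun n _ => div_nonneg (h n) (Nat.cast_nonneg n)

theorem bf_nonneg_Row (x : ℝ) (B : Blk) (n : ℕ) : 0 ≤ bf x B n := by
  simp only [bf, ArithmeticFunction.coe_mk]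
  split_ifs <;> norm_num

theorem pp_nonneg_Row (x κ z : ℝ) (n : ℕ) : 0 ≤ PP x κ z n := by
  simp only [PP, prI, ArithmeticFunction.coe_mk]
  split_ifs <;> norm_num

theorem len_Row {x : ℝ} (hx : 1 ≤ x) (hl : 2 ≤ Real.log x) :
    ((Nat.log 2 ⌊2 * x⌋₊ + 1 : ℕ) : ℝ) ≤ 3 * Real.log x := by
  have h1 : ⌊2 * x⌋₊ ≠ 0 := (Nat.floor_pos.2 (by linarith)).ne'
  have h2 : ((2 ^ Nat.log 2 ⌊2 * x⌋₊ : ℕ) : ℝ) ≤ 2 * x :=
    (Nat.cast_le.2 (Nat.pow_log_le_self 2 h1)).trans (Nat.floor_le (by linarith))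
  have h3 := Real.log_le_log (by positivity) h2
  rw [Real.log_mul (by norm_num) (by linarith), Nat.cast_pow, Real.log_pow, Nat.cast_ofNat] at h3
  have h4 := Real.log_two_gt_d9
  have h5 : (0 : ℝ) ≤ Nat.log 2 ⌊2 * x⌋₊ := Nat.cast_nonneg _
  push_cast
  nlinarith

theorem dRow : RowStmt := by
  intro hD t κ z E M m r j B hE hO hM hm ε hε
  filter_upwards [hO (r + j + 2), hM, hm, eventually_ge_atTop (1 : ℝ),
    Real.tendsto_log_atTop.eventually_ge_atTop 2,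
    Real.tendsto_log_atTop.eventually_ge_atTop (3 ^ (r + j) / ε)] with x h1 h2 h3 hx hl hl2
  have hL := len_Row hx hl
  have hX : ⌊2 * x⌋₊ < 2 ^ (Nat.log 2 ⌊2 * x⌋₊ + 1) := Nat.lt_pow_succ_log_self (by norm_num) _
  generalize Nat.log 2 ⌊2 * x⌋₊ + 1 = L at hL hX
  have hX' : 2 * x < 2 ^ L := by
    have := (Nat.floor_lt (by linarith)).1 hX
    exact_mod_cast this
  set c : Fin r ⊕ Fin j → AF := Sum.elim (fun i => bf x (B i)) (fun _ => PP x κ z) with hc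
  have e1 : (∏ i, bf x (B i)) * PP x κ z ^ j = ∏ i, c i := by
    simp [hc, Fintype.prod_sum_type]
  have e2 : Dl t x ((∏ i, c i) * bf x (fr κ)) = ∑ e : Fin r ⊕ Fin j → Fin L,
      Dl t x ((∏ i, dy (2 ^ (e i : ℕ)) (c i)) * bf x (fr κ)) := by
    simp only [Dl, SB, sum_sub_distrib]
    rw [hD.1 _ x _ L c _ (by linarith) hX', hD.1 _ x _ L c _ (by linarith) hX']
  have e3 : ∑ e : Fin r ⊕ Fin j → Fin L, ∏ i, ms ⌊2 * x⌋₊ (dy (2 ^ (e i : ℕ)) (c i)) =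
      ∏ i, ms ⌊2 * x⌋₊ (c i) := by
    rw [← Fintype.piFinset_univ, ← prod_univ_sum (fun _ => univ)
      fun i (k : Fin L) => ms ⌊2 * x⌋₊ (dy (2 ^ (k : ℕ)) (c i))]
    exact prod_congr rfl fun i _ => hD.2 _ L _ hX
  have e4 : ∏ i, ms ⌊2 * x⌋₊ (c i) ≤ M ^ r * m ^ j := by
    have a1 := fun i => ms_nonneg_Row ⌊2 * x⌋₊ (bf_nonneg_Row x (B i))
    have a2 := ms_nonneg_Row ⌊2 * x⌋₊ (pp_nonneg_Row x κ z)
    have a3 : ∏ i, ms ⌊2 * x⌋₊ (bf x (B i)) ≤ M ^ r :=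
      (prod_le_prod (fun i _ => a1 i) fun i _ => h2 i).trans (by simp)
    have a4 := prod_nonneg (s := univ) fun i _ => a1 i
    simp only [hc, Fintype.prod_sum_type, Sum.elim_inl, Sum.elim_inr, prod_const, card_univ,
      Fintype.card_fin]
    exact mul_le_mul a3 (pow_le_pow_left₀ a2 h3 j) (pow_nonneg a2 j) (a4.trans a3)
  have l0 : 0 < Real.log x := by linarith
  have q0 : 0 ≤ x / Real.log x := by positivity
  have e5 : (L : ℝ) ^ (r + j) * (x / Real.log x ^ (r + j + 2)) ≤ ε * (x / Real.log x) := by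
    have a1 : (L : ℝ) ^ (r + j) ≤ ε * Real.log x * Real.log x ^ (r + j) := by
      refine (pow_le_pow_left₀ (Nat.cast_nonneg L) hL _).trans ?_
      rw [mul_pow]
      refine mul_le_mul_of_nonneg_right ?_ (by positivity)
      rw [div_le_iff₀ hε] at hl2
      linarith
    refine (mul_le_mul_of_nonneg_right a1 (by positivity)).trans (le_of_eq ?_)
    field_simp
    ring
  rw [e1, e2]
  refine (abs_sum_le_sum_abs _ _).trans ((sum_le_sum fun e _ =>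
    h1 (fun i => 2 ^ (e i : ℕ)) fun i => Nat.one_le_two_pow).trans ?_)
  rw [sum_add_distrib, ← sum_mul, ← mul_sum, e3, sum_const, card_univ, Fintype.card_fun,
    Fintype.card_fin, Fintype.card_sum, Fintype.card_fin, Fintype.card_fin, nsmul_eq_mul,
    Nat.cast_pow, add_mul, mul_assoc E (M ^ r)]
  exact add_le_add e5 (mul_le_mul_of_nonneg_right (mul_le_mul_of_nonneg_left e4 hE) q0)

end Pool.Agent.MP_c853c5_nt.D

end

section

/-!
From convolutions on the window to sums over boxes.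
-/

set_option autoImplicit false

open Finset Filter

namespace Pool.Agent.MP_c853c5_nt.E

open S (AF sgl SS SB Dl)

lemma sgl_mul {a b : ℕ} (ha : a ≠ 0) (hb : b ≠ 0) : sgl a * sgl b = sgl (a * b) := by
  ext n
  rw [ArithmeticFunction.mul_apply]
  by_cases h : n = a * b
  · rw [sum_eq_single_of_mem (a, b) (Nat.mem_divisorsAntidiagonal.2 ⟨h.symm, by
      rw [h]; exact mul_ne_zero ha hb⟩)]
    · simp [sgl, h, ha, hb]
    · rintro ⟨p, q⟩ _ hne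
      by_cases h1 : p = a
      · have h2 : q ≠ b := fun h2 => hne (by rw [h1, h2])
        simp [sgl, h2]
      · simp [sgl, h1]
  · rw [sum_eq_zero]
    · simp [sgl, h]
    · rintro ⟨p, q⟩ hp
      have h0 := (Nat.mem_divisorsAntidiagonal.1 hp).1
      by_cases h1 : p = a
      · have h2 : q ≠ b := fun h2 => h (by rw [← h0, ← h1, ← h2])
        simp [sgl, h2]
      · simp [sgl, h1]

lemma sgl_one : sgl 1 = 1 := by
  ext n
  by_cases h : n = 1 <;> simp [sgl, h]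

lemma prod_sgl {ι : Type} (u : Finset ι) (n : ι → ℕ) (h : ∀ j ∈ u, n j ≠ 0) :
    ∏ j ∈ u, sgl (n j) = sgl (∏ j ∈ u, n j) := by
  classical
  induction u using Finset.induction_on with
  | empty => simp [sgl_one]
  | insert a u ha ih =>
    rw [prod_insert ha, prod_insert ha, ih fun j hj => h j (mem_insert_of_mem hj),
      sgl_mul (h a (mem_insert_self _ _))
        (prod_ne_zero_iff.2 fun j hj => h j (mem_insert_of_mem hj))]

lemma af_sum_apply {ι : Type} (u : Finset ι) (f : ι → AF) (n : ℕ) :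
    (∑ i ∈ u, f i) n = ∑ i ∈ u, f i n := by
  classical
  induction u using Finset.induction_on with
  | empty => simp
  | insert a u ha ih => rw [sum_insert ha, sum_insert ha, ArithmeticFunction.add_apply, ih]

lemma af_eq_sum (g : AF) (s : Finset ℕ) (h : ∀ n, g n ≠ 0 → n ∈ s) :
    g = ∑ m ∈ s, g m • sgl m := by
  ext n
  rw [af_sum_apply]
  rcases eq_or_ne n 0 with rfl | hn
  · simp
  by_cases hs : n ∈ s
  · rw [sum_eq_single_of_mem n hs fun m _ hm => by simp [sgl, hm.symm]]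
    simp [sgl, hn]
  · rw [sum_eq_zero fun m hm => by
      have : n ≠ m := fun e => hs (e ▸ hm)
      simp [sgl, this]]
    by_contra h0
    exact hs (h n h0)

lemma af_smul_mul (a b : ℝ) (f g : AF) : (a • f) * (b • g) = (a * b) • (f * g) := by
  ext n
  simp only [ArithmeticFunction.mul_apply, ArithmeticFunction.smul_map, smul_eq_mul, mul_sum]
  exact sum_congr rfl fun p _ => by ring

lemma af_prod_smul {ι : Type} (u : Finset ι) (a : ι → ℝ) (f : ι → AF) :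
    ∏ j ∈ u, a j • f j = (∏ j ∈ u, a j) • ∏ j ∈ u, f j := by
  classical
  induction u using Finset.induction_on with
  | empty => simp
  | insert i u hi ih => rw [prod_insert hi, prod_insert hi, prod_insert hi, ih, af_smul_mul]

lemma pair_eq {ι : Type} [Fintype ι] [DecidableEq ι] (g : ι → AF) (s : ι → Finset ℕ)
    (h0 : ∀ j, 0 ∉ s j) (h : ∀ j n, g j n ≠ 0 → n ∈ s j) {d : ℕ} (hd : d ≠ 0) (A : Finset ℕ)
    (G : ℕ → ℝ) :
    ∑ n ∈ A, (sgl d * ∏ j, g j : AF) n * G n = ∑ p ∈ Fintype.piFinset s,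
      (∏ j, g j (p j)) * if d * ∏ j, p j ∈ A then G (d * ∏ j, p j) else 0 := by
  have e : (sgl d * ∏ j, g j : AF) =
      ∑ p ∈ Fintype.piFinset s, (∏ j, g j (p j)) • sgl (d * ∏ j, p j) := by
    rw [prod_congr rfl fun j _ => af_eq_sum (g j) (s j) (h j), prod_univ_sum, mul_sum]
    refine sum_congr rfl fun p hp => ?_
    have hp0 : ∀ j ∈ (univ : Finset ι), p j ≠ 0 := fun j _ e =>
      h0 j (e ▸ Fintype.mem_piFinset.1 hp j)
    rw [af_prod_smul, prod_sgl _ _ hp0, ← sgl_mul hd (prod_ne_zero_iff.2 hp0),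
      ← one_mul (∏ j, g j (p j)), ← af_smul_mul, one_smul, one_mul]
  rw [e]
  simp only [af_sum_apply, sum_mul]
  rw [sum_comm]
  refine sum_congr rfl fun p hp => ?_
  have hp0 : d * ∏ j, p j ≠ 0 := mul_ne_zero hd (prod_ne_zero_iff.2 fun j _ e =>
    h0 j (e ▸ Fintype.mem_piFinset.1 hp j))
  split_ifs with hA
  · rw [sum_eq_single_of_mem _ hA fun m _ hm => by simp [sgl, hm]]
    simp only [sgl, ArithmeticFunction.smul_map, ArithmeticFunction.coe_mk, true_and, ne_eq, hp0,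
      not_false_eq_true, if_true, smul_eq_mul, mul_one]
  · rw [sum_eq_zero fun m hm => by
      have : m ≠ d * ∏ j, p j := fun e => hA (e ▸ hm)
      simp [sgl, this]]
    simp

lemma gg_far {Δ Δ₀ z : ℝ} (h0 : 0 < Δ) (h1 : Δ ≤ Δ₀) (hz : 1 / 2 ≤ |z|) :
    0 ≤ Z.gg Δ z ∧ Z.gg Δ z ≤ Δ⁻¹ * Real.exp (-(1 / (2 * Δ₀ ^ 2))) := by
  unfold Z.gg
  refine ⟨by positivity, mul_le_mul_of_nonneg_left (Real.exp_le_exp.2 (neg_le_neg ?_))
    (by positivity)⟩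
  have h2 : 1 / 4 ≤ z ^ 2 := by nlinarith [sq_abs z]
  have h3 : Δ ^ 2 ≤ Δ₀ ^ 2 := pow_le_pow_left₀ h0.le h1 2
  have h4 := Real.pi_gt_three
  rw [div_le_div_iff₀ (by nlinarith [pow_pos h0 2]) (by positivity)]
  nlinarith [mul_le_mul h2 h3 (by positivity) (by positivity), pow_pos h0 2,
    mul_nonneg (sq_nonneg z) (sq_nonneg Δ₀)]

lemma ev_tail : ∀ᶠ x : ℝ in atTop,
    x ^ 2 * (2 * x * Real.exp (-(x ^ (1 / 500 : ℝ) / 2))) ≤ 1 := by
  filter_upwards [ev_log_le 8 1 (show (0 : ℝ) < 1 / 500 by norm_num), eventually_ge_atTop 2]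
    with x h1 h2
  have h0 : 0 < x := by linarith
  have h3 : Real.exp (-(x ^ (1 / 500 : ℝ) / 2)) ≤ Real.exp (-(4 * Real.log x)) :=
    Real.exp_le_exp.2 (by rw [pow_one] at h1; linarith)
  have h4 : Real.exp (-(4 * Real.log x)) = (x ^ 4)⁻¹ := by
    rw [Real.exp_neg, show 4 * Real.log x = Real.log (x ^ 4) by rw [Real.log_pow]; norm_num,
      Real.exp_log (by positivity)]
  calc x ^ 2 * (2 * x * Real.exp (-(x ^ (1 / 500 : ℝ) / 2))) ≤ x ^ 2 * (2 * x * (x ^ 4)⁻¹) := by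
        rw [← h4]; gcongr
    _ = 2 / x := by field_simp
    _ ≤ 1 := (div_le_one h0).2 h2

theorem win : ∀ᶠ x : ℝ in atTop, ∀ (ι : Type) [Fintype ι] [DecidableEq ι] (t : ℝ) (g : ι → AF)
    (s : ι → Finset ℕ) (d : ℕ), 1 / 3 ≤ t → t ≤ 1 / 2 → (∀ j, 0 ∉ s j) →
    (∀ j n, g j n ≠ 0 → n ∈ s j) → (∀ j n, |g j n| ≤ 1) → 1 ≤ d →
    ∏ j, ((s j).card : ℝ) ≤ x ^ 2 →
    |Dl t x (sgl d * ∏ j, g j)| ≤ |PhiS (Real.log x - Real.log d) (x ^ (-t))
      (x ^ (-(1 / 1000) : ℝ)) s fun j => g j| + 1 := by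
  filter_upwards [ev_tail, eventually_ge_atTop 2] with x hx h2 ι _ _ t g s d ht ht' h0 hs hg hd hc
  have x0 : 0 < x := by linarith
  have x1 : 1 ≤ x := by linarith
  set Δ := x ^ (-t)
  set Δ₀ := x ^ (-(1 / 1000) : ℝ)
  have hΔ : 0 < Δ := Real.rpow_pos_of_pos x0 _
  have hΔ1 : Δ ≤ Δ₀ := Real.rpow_le_rpow_of_exponent_le x1 (by linarith)
  have hΔ2 : Δ⁻¹ ≤ x := by
    rw [← Real.rpow_neg x0.le, neg_neg]
    simpa using Real.rpow_le_rpow_of_exponent_le x1 (show t ≤ 1 by linarith)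
  have hΔ3 : 1 / (2 * Δ₀ ^ 2) = x ^ (1 / 500 : ℝ) / 2 := by
    have : Δ₀ ^ 2 = (x ^ (1 / 500 : ℝ))⁻¹ := by
      rw [← Real.rpow_mul_natCast x0.le, ← Real.rpow_neg x0.le]
      norm_num
    rw [this]
    field_simp
  have e : Dl t x (sgl d * ∏ j, g j) = ∑ n ∈ Ioc ⌊x / 2⌋₊ ⌊2 * x⌋₊,
      (sgl d * ∏ j, g j : AF) n * dg (Real.log x) Δ Δ₀ (Real.log n) := by
    simp only [Dl, SB, SS, dg, mul_sub, sum_sub_distrib]
    rfl
  rw [e, pair_eq g s h0 hs (by omega), PhiS]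
  set E := 2 * x * Real.exp (-(x ^ (1 / 500 : ℝ) / 2))
  have hE : 0 ≤ E := by positivity
  refine (abs_sub_abs_le_abs_sub _ _ |> sub_le_iff_le_add'.1).trans (add_le_add le_rfl ?_)
  rw [← sum_sub_distrib]
  refine (abs_sum_le_sum_abs _ _).trans ((sum_le_card_nsmul _ _ E fun p hp => ?_).trans ?_)
  · have hp0 : (∏ j, p j) ≠ 0 := prod_ne_zero_iff.2 fun j _ e =>
      h0 j (e ▸ Fintype.mem_piFinset.1 hp j)
    have hd0 : (d : ℝ) ≠ 0 := by positivity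
    have hl : Real.log x - Real.log d - Real.log ((∏ j, p j : ℕ) : ℝ) =
        Real.log x - Real.log ((d * ∏ j, p j : ℕ) : ℝ) := by
      rw [Nat.cast_mul, Real.log_mul hd0 (by exact_mod_cast hp0)]
      ring
    have hc1 : |∏ j, g j (p j)| ≤ 1 := by
      rw [abs_prod]
      exact prod_le_one (fun j _ => abs_nonneg _) fun j _ => hg j _
    rw [← mul_sub, abs_mul]
    refine (mul_le_of_le_one_left (abs_nonneg _) hc1).trans ?_
    simp only [dg, hl]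
    split_ifs with hA
    · simpa using hE
    · set n := d * ∏ j, p j
      have hn : (0 : ℝ) < n := by exact_mod_cast Nat.pos_of_ne_zero (mul_ne_zero (by omega) hp0)
      have hz : 1 / 2 ≤ |Real.log x - Real.log n| := by
        have l2 := Real.log_two_gt_d9
        rw [mem_Ioc, not_and_or, not_lt, not_le] at hA
        rcases hA with hA | hA
        · have : (n : ℝ) ≤ x / 2 := (Nat.le_floor_iff (by positivity)).1 hA
          have := Real.log_le_log hn this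
          rw [Real.log_div x0.ne' two_ne_zero] at this
          exact le_abs.2 (Or.inl (by linarith))
        · have : 2 * x < n := (Nat.floor_lt (by positivity)).1 hA
          have := Real.log_le_log (by positivity) this.le
          rw [Real.log_mul two_ne_zero x0.ne'] at this
          exact le_abs.2 (Or.inr (by linarith))
      obtain ⟨a1, a2⟩ := gg_far hΔ hΔ1 hz
      obtain ⟨a3, a4⟩ := gg_far (hΔ.trans_le hΔ1) le_rfl hz
      rw [hΔ3] at a2 a4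
      have a5 : Δ₀⁻¹ ≤ x := (inv_anti₀ hΔ hΔ1).trans hΔ2
      have a6 := Real.exp_pos (-(x ^ (1 / 500 : ℝ) / 2))
      have a7 := mul_le_mul_of_nonneg_right hΔ2 a6.le
      have a8 := mul_le_mul_of_nonneg_right a5 a6.le
      rw [zero_sub, abs_neg, abs_le]
      constructor <;> simp only [E] <;> linarith
  · rw [Fintype.card_piFinset, nsmul_eq_mul, Nat.cast_prod]
    exact (mul_le_mul_of_nonneg_right hc hE).trans hx

lemma Con.tau {τ τ' n w r : ℝ} (h : Con τ n w r) (hτ : τ ≤ τ') : Con τ' n w r := by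
  obtain ⟨h1, h2, h3, h4, h5⟩ := h
  have m1 : max τ n ≤ max τ' n := max_le_max hτ le_rfl
  have m2 : max n (τ / 2) ≤ max n (τ' / 2) := max_le_max le_rfl (by linarith)
  exact ⟨by linarith, h2.trans (max_le_max le_rfl (by linarith)),
    h3.trans (max_le_max le_rfl (max_le_max (by linarith) (by linarith))),
    h4.trans (max_le_max le_rfl (by linarith)),
    h5.trans (max_le_max le_rfl (max_le_max (by linarith) (by linarith)))⟩

lemma Eval.anti_tau {ι : Type} [Fintype ι] {K : ℕ} {t τ η s : ℝ} {b : ι → ℝ} (ht : t ≤ τ)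
    (_h0 : 0 ≤ t) (h : Eval K τ η s b) : Eval K t η s b := fun r v h0 h1 h2 h3 =>
  h r v h0 (h1.trans ht) h2 fun κ hκ => (h3 κ hκ).tau ht

lemma wd_std : ∀ᶠ x : ℝ in atTop, ∀ t : ℝ, 1 / 3 ≤ t →
    Wd x t (1 / 2000) (x ^ (-t)) (x ^ (-(1 / 1000) : ℝ)) := by
  filter_upwards [ev_le_log 1, eventually_ge_atTop 1] with x h1 h2 t ht
  refine ⟨div_le_self (by positivity) (one_le_pow₀ h1),
    Real.rpow_le_rpow_of_exponent_le h2 (by linarith), le_of_eq (by norm_num)⟩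

end Pool.Agent.MP_c853c5_nt.E

end

section

set_option autoImplicit false

open Finset Filter Real
open scoped ComplexConjugate

namespace Pool.Agent.MP_c853c5_nt.DS

open Pool.Agent.MP_88bd62_nt.U (ex)
open S (AF Dl)

lemma phi_Tri (v Δ Γ : ℝ) (s : Fin 3 → Finset ℕ) (c : Fin 3 → ℕ → ℝ) :
    E.PhiS v Δ Γ s c = ∑ m ∈ s 0, c 0 m * ∑ u ∈ s 1 ×ˢ s 2,
      c 1 u.1 * c 2 u.2 * E.dg v Δ Γ (Real.log ((m : ℝ) * u.1 * u.2)) := by
  simp only [mul_sum]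
  rw [← sum_product' (s 0) (s 1 ×ˢ s 2) fun (m : ℕ) (u : ℕ × ℕ) =>
    c 0 m * (c 1 u.1 * c 2 u.2 * E.dg v Δ Γ (Real.log ((m : ℝ) * u.1 * u.2))), E.PhiS]
  refine sum_nbij' (fun n => (n 0, n 1, n 2)) (fun p => ![p.1, p.2.1, p.2.2]) (fun n hn => ?_)
    (fun p hp => ?_) (fun n _ => ?_) (fun p _ => rfl) fun n _ => ?_
  · have h := Fintype.mem_piFinset.1 hn
    exact mem_product.2 ⟨h 0, mem_product.2 ⟨h 1, h 2⟩⟩
  · obtain ⟨h0, h1⟩ := mem_product.1 hp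
    obtain ⟨h1, h2⟩ := mem_product.1 h1
    refine Fintype.mem_piFinset.2 fun j => ?_
    fin_cases j
    exacts [h0, h1, h2]
  · funext j
    fin_cases j <;> rfl
  · rw [Fin.prod_univ_three, Fin.prod_univ_three]
    push_cast
    ring

lemma dl_smul_Tri (t x e : ℝ) (f : AF) : Dl t x (e • f) = e * Dl t x f := by
  simp only [Dl, S.SB, S.SS, ArithmeticFunction.smul_map, smul_eq_mul, mul_sub, mul_sum, mul_assoc]

lemma fp_smul_Tri (R : Finset ℕ) (e : ℝ) (f : AF) (u : ℝ) :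
    E.FP R (e • f : AF) u = e * E.FP R f u := by
  simp only [E.FP, ArithmeticFunction.smul_map, smul_eq_mul, mul_sum, Complex.ofReal_mul, mul_assoc]

lemma alg_Tri {e x l M N Λ y : ℝ} (A C : ℕ) (hl : 0 < l) (hN : 0 < N) (hM : 0 ≤ M) (hx : 0 ≤ x)
    (h1 : M * N ≤ 2 * x) (h2 : 512 * Λ ≤ l ^ 2) (h3 : y * (16 * l ^ (C + 2 * A)) ≤ e ^ 2) :
    e ^ 2 * (M * l ^ C) * (32 * Λ * (x / N) * (e ^ 2 * (N ^ 2 / l ^ (2 * A + C + 2))) +
      x * N * y) ≤ (e ^ 2 * x / (2 * l ^ A)) ^ 2 := by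
  have e1 : l ^ (2 * A + C + 2) = (l ^ A) ^ 2 * l ^ C * l ^ 2 := by ring
  have e2 : l ^ (C + 2 * A) = l ^ C * (l ^ A) ^ 2 := by ring
  rw [e1]
  rw [e2] at h3
  have hL : 0 < l ^ A := by positivity
  have hQ : 0 < l ^ C := by positivity
  generalize l ^ A = L at *
  generalize l ^ C = Q at *
  have a1 : 32 * Λ * e ^ 2 / (L ^ 2 * l ^ 2) ≤ e ^ 2 / (16 * L ^ 2) := by
    rw [div_le_div_iff₀ (by positivity) (by positivity)]
    nlinarith [mul_le_mul_of_nonneg_left h2 (show 0 ≤ e ^ 2 * L ^ 2 by positivity)]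
  have a2 : Q * y ≤ e ^ 2 / (16 * L ^ 2) := by
    rw [le_div_iff₀ (by positivity)]
    linarith
  calc _ = e ^ 2 * x * (M * N) * (32 * Λ * e ^ 2 / (L ^ 2 * l ^ 2) + Q * y) := by
        field_simp
    _ ≤ e ^ 2 * x * (M * N) * (e ^ 2 / (16 * L ^ 2) + e ^ 2 / (16 * L ^ 2)) :=
        mul_le_mul_of_nonneg_left (add_le_add a1 a2) (by positivity)
    _ ≤ e ^ 2 * x * (2 * x) * (e ^ 2 / (16 * L ^ 2) + e ^ 2 / (16 * L ^ 2)) := by gcongr
    _ = _ := by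
        field_simp
        ring

lemma tail_Tri (C : ℝ) (hC : 0 < C) : ∀ᶠ x : ℝ in atTop, ∀ Δ₁ Δ S : ℝ, x ^ (-(1 / 2) : ℝ) ≤ Δ₁ →
    0 < Δ → Δ ≤ x ^ (-(1 / 3) : ℝ) → S ≤ x ^ 2 →
    C * S / Δ₁ * Real.exp (-(1 / (4 * Δ ^ 2))) ≤ 1 := by
  filter_upwards [E.ev_log_le 16 1 (show (0 : ℝ) < 2 / 3 by norm_num), eventually_ge_atTop 1,
    eventually_ge_atTop C] with x h1 x1 h2 Δ₁ Δ S a1 a2 a3 a4
  have x0 : 0 < x := by linarith
  have b1 : x⁻¹ ≤ Δ₁ := by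
    rw [← Real.rpow_neg_one]
    exact (Real.rpow_le_rpow_of_exponent_le x1 (by norm_num)).trans a1
  have b2 : Δ ^ 2 * x ^ (2 / 3 : ℝ) ≤ 1 := by
    refine (mul_le_mul_of_nonneg_right (pow_le_pow_left₀ a2.le a3 2) (by positivity)).trans_eq ?_
    rw [← Real.rpow_mul_natCast x0.le, ← Real.rpow_add x0]
    norm_num
  have b3 : 4 * Real.log x ≤ 1 / (4 * Δ ^ 2) := by
    rw [le_div_iff₀ (by positivity)]
    rw [pow_one] at h1
    nlinarith [mul_le_mul_of_nonneg_left h1 (sq_nonneg Δ)]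
  have b4 : Real.exp (-(1 / (4 * Δ ^ 2))) ≤ (x ^ 4)⁻¹ := by
    refine (Real.exp_le_exp.2 (neg_le_neg b3)).trans_eq ?_
    rw [Real.exp_neg, show 4 * Real.log x = Real.log (x ^ 4) by rw [Real.log_pow]; norm_num,
      Real.exp_log (by positivity)]
  calc _ ≤ x * x ^ 2 / x⁻¹ * (x ^ 4)⁻¹ := by
        refine mul_le_mul (div_le_div₀ (by positivity) ?_ (by positivity) b1) b4 (by positivity)
          (by positivity)
        exact (mul_le_mul_of_nonneg_left a4 hC.le).trans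
          (mul_le_mul_of_nonneg_right h2 (by positivity))
    _ = 1 := by field_simp

lemma card_Tri {M : ℕ} (Λ : ℕ) (hM : 1 ≤ M) : ((Icc M (Λ * M)).card : ℝ) ≤ Λ * M := by
  rw [Nat.card_Icc]
  exact_mod_cast (by omega : Λ * M + 1 - M ≤ Λ * M)

theorem tri_stmt (hM : MeanStmt) (hC : ConvStmt) : TriStmt := by
  intro r Λ A C₀ μ hr hΛ hμ
  obtain ⟨ν, hν, hM⟩ := hM r Λ μ hr hΛ hμ
  obtain ⟨C, hC0, hC⟩ := hC
  obtain ⟨ε, hε, hε1, hε2⟩ : ∃ ε : ℝ, 0 < ε ∧ ε ≤ ν / 4 ∧ ε ≤ 1 / 4 :=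
    ⟨min (ν / 4) (1 / 4), lt_min (by positivity) (by norm_num), min_le_left _ _, min_le_right _ _⟩
  refine ⟨ε, hε, ?_⟩
  filter_upwards [hM, E.win, tail_Tri C hC0, eventually_ge_atTop (2 * (Λ : ℝ) ^ 2),
    eventually_gt_atTop 1, E.ev_le_log 1, E.ev_le_log (512 * Λ),
    E.ev_log_le 16 (C₀ + 2 * A) (half_pos hν), E.ev_log_le 4 A one_half_pos,
    E.ev_const_le 2 (show (0 : ℝ) < 1 / 4 by norm_num)]
    with x hM hw ht xΛ x1 l1 l2 l3 l4 l5 t t₁ M K P D a b c t1 t2 hG hD M1 hMN sa sb sc ba bb bc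
      hL2 hI
  have x0 : 0 < x := by linarith
  have g0 := hG x (by linarith) (by linarith)
  have t3 : t₁ ≤ 1 / 2 := by
    have := (Real.rpow_le_rpow_left_iff x1).1 g0.d1
    linarith
  have hN : (0 : ℝ) < K * P := by
    have h1 := g0.k1
    have h2 := g0.p1
    positivity
  have he : 0 < x ^ (-ε) := Real.rpow_pos_of_pos x0 _
  have he1 : x ^ (-ε) * x ^ ε = 1 := by rw [← Real.rpow_add x0, neg_add_cancel, Real.rpow_zero]
  have he2 : (x ^ (-ε)) ^ 2 = x ^ (-(2 * ε)) := by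
    rw [← Real.rpow_mul_natCast x0.le]
    congr 1
    push_cast
    ring
  have f1 : x ^ (-ν) * (16 * Real.log x ^ (C₀ + 2 * A)) ≤ (x ^ (-ε)) ^ 2 := by
    refine (mul_le_mul_of_nonneg_left l3 (by positivity)).trans ?_
    rw [he2, ← Real.rpow_add x0]
    exact Real.rpow_le_rpow_of_exponent_le x1.le (by linarith)
  have f2 : 4 * Real.log x ^ A ≤ (x ^ (-ε)) ^ 2 * x := by
    refine l4.trans ?_
    rw [he2, ← Real.rpow_add_one x0.ne']
    exact Real.rpow_le_rpow_of_exponent_le x1.le (by linarith)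
  have d0 : 0 < x ^ (-t₁) := Real.rpow_pos_of_pos x0 _
  have d1 : x ^ (-t₁) ≤ x ^ (-t) := Real.rpow_le_rpow_of_exponent_le x1.le (by linarith)
  have d2 : x ^ (-t) ≤ x ^ (-(1 / 3) : ℝ) := Real.rpow_le_rpow_of_exponent_le x1.le (by linarith)
  have d3 : x ^ (-t) ≤ x ^ (-(1 / 1000) : ℝ) / 2 := by
    rw [le_div_iff₀ two_pos]
    refine (mul_le_mul d2 l5 zero_le_two (by positivity)).trans ?_
    rw [← Real.rpow_add x0]
    exact Real.rpow_le_rpow_of_exponent_le x1.le (by norm_num)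
  have d4 : 0 < x ^ (-(1 / 1000) : ℝ) := Real.rpow_pos_of_pos x0 _
  have d5 : x ^ (-(1 / 1000) : ℝ) ≤ 1 := Real.rpow_le_one_of_one_le_of_nonpos x1.le (by norm_num)
  have hW : Wid x √((x ^ (-(1 / 1000) : ℝ)) ^ 2 - (x ^ (-t)) ^ 2 + (x ^ (-t₁)) ^ 2) := by
    have h1 := pow_le_pow_left₀ d0.le d1 2
    have h2 := pow_le_pow_left₀ (d0.le.trans d1) d3 2
    exact ⟨Real.le_sqrt_of_sq_le (by nlinarith), Real.sqrt_le_iff.2 ⟨d4.le, by linarith⟩⟩
  generalize x ^ (-ε) = e at he he1 f1 f2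
  have sm : ∀ f : AF, (∀ n, |f n| ≤ x ^ ε) → ∀ n, |(e • f : AF) n| ≤ 1 := fun f hf n => by
    rw [ArithmeticFunction.smul_map, smul_eq_mul, abs_mul, abs_of_pos he, ← he1]
    exact mul_le_mul_of_nonneg_left (hf n) he.le
  have sn : ∀ (f : AF) n, (e • f : AF) n ≠ 0 → f n ≠ 0 := fun f n h h0 => h (by
    rw [ArithmeticFunction.smul_map, h0, smul_zero])
  obtain ⟨g, g0', g1, g2⟩ : ∃ g : Fin 3 → AF, g 0 = e • a ∧ g 1 = b ∧ g 2 = e • c :=
    ⟨![e • a, b, e • c], rfl, rfl, rfl⟩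
  obtain ⟨s, s0, s1, s2⟩ : ∃ s : Fin 3 → Finset ℕ,
      s 0 = Icc M (Λ * M) ∧ s 1 = D ∧ s 2 = Icc P (Λ * P) := ⟨![_, _, _], rfl, rfl, rfl⟩
  have all3 : ∀ Q : Fin 3 → Prop, Q 0 → Q 1 → Q 2 → ∀ j, Q j := fun Q h0 h1 h2 j => by
    fin_cases j
    exacts [h0, h1, h2]
  have hg : ∀ j n, |g j n| ≤ 1 := all3 _ (g0' ▸ sm a ba) (g1 ▸ bb) (g2 ▸ sm c bc)
  have hcard : ∏ j, ((s j).card : ℝ) ≤ x ^ 2 := by
    have h1 : (D.card : ℝ) ≤ K := by
      have h := card_le_card (show D ⊆ Ico K (2 * K) from fun k hk => mem_Ico.2 (hD k hk).2)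
      rw [Nat.card_Ico] at h
      exact_mod_cast (by omega : D.card ≤ K)
    rw [Fin.prod_univ_three, s0, s1, s2]
    calc _ ≤ (Λ * M : ℝ) * K * (Λ * P) := by
          gcongr
          exacts [card_Tri Λ M1, card_Tri Λ g0.p1]
      _ = (Λ : ℝ) ^ 2 * (M * (K * P)) := by ring
      _ ≤ (Λ : ℝ) ^ 2 * (2 * x) := by gcongr
      _ ≤ _ := by nlinarith
  have k1 := hw (Fin 3) t g s 1 t1 (t2.trans t3)
    (all3 _ (s0 ▸ fun h => by have := (mem_Icc.1 h).1; omega)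
      (s1 ▸ fun h => Nat.not_prime_zero (hD 0 h).1)
      (s2 ▸ fun h => by have := (mem_Icc.1 h).1; have := g0.p1; omega))
    (all3 _ (s0 ▸ g0' ▸ fun n h => sa n (sn a n h)) (s1 ▸ g1 ▸ sb)
      (s2 ▸ g2 ▸ fun n h => sc n (sn c n h))) hg le_rfl hcard
  have e1 : S.sgl 1 * ∏ j, g j = (e ^ 2) • (a * b * c) := by
    rw [E.sgl_one, one_mul, Fin.prod_univ_three, g0', g1, g2, ← one_smul ℝ b, E.af_smul_mul,
      E.af_smul_mul, one_smul, mul_one, sq]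
  rw [e1, dl_smul_Tri, abs_mul, abs_of_nonneg (sq_nonneg e), Nat.cast_one, Real.log_one,
    sub_zero] at k1
  have k2 := hC (Fin 3 → ℕ) (Fintype.piFinset s) (fun n => ∏ j, g j (n j))
    (fun n => Real.log ((∏ j, n j : ℕ) : ℝ)) (Real.log x) (x ^ (-t₁)) (x ^ (-t))
    (x ^ (-(1 / 1000) : ℝ)) (e ^ 2 * x / (2 * Real.log x ^ A)) d0 d1 (by linarith) d5
    fun v hv => by
      have l2' := Real.log_two_gt_d9
      obtain ⟨v1, v2⟩ := abs_le.1 hv
      have X1 : x / 2 ≤ Real.exp v := by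
        rw [← Real.log_le_iff_le_exp (by positivity), Real.log_div x0.ne' two_ne_zero]
        linarith
      have X2 : Real.exp v ≤ 2 * x := by
        rw [← Real.le_log_iff_exp_le (by positivity), Real.log_mul two_ne_zero x0.ne']
        linarith
      have m1 := hM (Real.exp v) _ _ (e ^ 2 * ((K * P) ^ 2 / Real.log x ^ (2 * A + C₀ + 2)))
        M K P D b (e • c : AF) (hG _ X1 X2) hW hD M1 hMN bb (sm c bc) (by
          refine le_trans (le_of_eq ?_) (mul_le_mul_of_nonneg_left hI (sq_nonneg e))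
          rw [← intervalIntegral.integral_const_mul]
          refine intervalIntegral.integral_congr fun u _ => ?_
          simp only [fp_smul_Tri, norm_mul, Complex.norm_real, Real.norm_eq_abs, mul_pow, sq_abs]
          ring)
      have m2 : ∑ m ∈ Icc M (Λ * M), (e • a : AF) m ^ 2 ≤ e ^ 2 * (M * Real.log x ^ C₀) := by
        simp only [ArithmeticFunction.smul_map, smul_eq_mul, mul_pow, ← mul_sum]
        exact mul_le_mul_of_nonneg_left hL2 (sq_nonneg e)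
      have m3 := ((sum_mul_sq_le_sq_mul_sq _ _ _).trans (mul_le_mul m2 m1
        (sum_nonneg fun _ _ => sq_nonneg _) (by positivity))).trans
        (alg_Tri A C₀ (by linarith) hN (Nat.cast_nonneg M) x0.le hMN (by nlinarith) f1)
      refine le_trans (le_of_eq ?_) (abs_le_of_sq_le_sq m3 (by positivity))
      congr 1
      refine (phi_Tri v _ _ s fun j => g j).trans ?_
      simp only [s0, s1, s2, g0', g1, g2, FF, Real.log_exp]
  have k3 := ht (x ^ (-t₁)) (x ^ (-t)) (∑ n ∈ Fintype.piFinset s, |∏ j, g j (n j)|) g0.d1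
    (d0.trans_le d1) d2 (by
      refine (sum_le_card_nsmul _ _ 1 fun n _ => ?_).trans ?_
      · rw [abs_prod]
        exact prod_le_one (fun j _ => abs_nonneg _) fun j _ => hg j _
      · rwa [Fintype.card_piFinset, nsmul_eq_mul, Nat.cast_prod, mul_one])
  have k4 : 2 ≤ e ^ 2 * x / (2 * Real.log x ^ A) := by
    rw [le_div_iff₀ (by positivity)]
    linarith
  have k5 : e ^ 2 * (x / Real.log x ^ A) = 2 * (e ^ 2 * x / (2 * Real.log x ^ A)) := by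
    field_simp
  refine le_of_mul_le_mul_left (k1.trans ?_) (pow_pos he 2)
  rw [k5, E.PhiS]
  linarith

end Pool.Agent.MP_c853c5_nt.DS

end
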