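import Pool.Agent.MP_c853c5_nt.X.Defs
import Pool.Agent.Mg.C853.Ga580b9
import Pool.Agent.Mg.C853.G6aba3f

section

/-!
Products of arithmetic functions as sums over factorisations, and a bound for the number of
factorisations of a rough number.
-/

set_option autoImplicit false

open Finset Filter

namespace Pool.Agent.MP_c853c5_nt.X

open Pool.Agent.MP_c853c5_nt.S

lemma prod_update_Tup {M : Type*} [CommMonoid M] (k : ℕ) (F : ℕ → ℕ → M) (μ : ℕ → ℕ) (b : ℕ) :
    ∏ j ∈ range k, F j (Function.update μ k b j) = ∏ j ∈ range k, F j (μ j) :=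
  prod_congr rfl fun j hj => by rw [Function.update_of_ne (mem_range.1 hj).ne]

theorem xProd : ProdStmt := by
  classical
  intro k g
  induction k with
  | zero =>
    intro n
    simp only [range_zero, prod_empty, sum_const, nsmul_eq_mul, mul_one]
    by_cases hn : n = 1
    · subst hn
      have : tup 0 1 = {fun _ => 1} := by
        ext μ
        simp only [mem_tup, range_zero, prod_empty, mem_singleton]
        constructor
        · rintro ⟨-, -, h⟩
          exact funext fun j => h j (Nat.zero_le j)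
        · rintro rfl
          exact ⟨one_ne_zero, trivial, fun _ _ => rfl⟩
      rw [this]
      simp
    · have : tup 0 n = ∅ := by
        ext μ
        simp only [mem_tup, range_zero, prod_empty, notMem_empty, iff_false]
        rintro ⟨-, h, -⟩
        exact hn h.symm
      rw [this, ArithmeticFunction.one_apply_ne hn]
      simp
  | succ k ih =>
    intro n
    rw [prod_range_succ, ArithmeticFunction.mul_apply]
    simp_rw [ih, sum_mul]
    rw [sum_sigma']
    refine sum_bij' (fun s _ => Function.update s.2 k s.1.2)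
      (fun μ _ => ⟨(∏ j ∈ range k, μ j, μ k), Function.update μ k 1⟩) ?_ ?_ ?_ ?_ ?_
    · rintro ⟨⟨a, b⟩, μ⟩ h
      simp only [mem_sigma, Nat.mem_divisorsAntidiagonal, mem_tup] at h
      obtain ⟨⟨hab, hn⟩, -, h2, h3⟩ := h
      refine mem_tup.2 ⟨hn, ?_, fun j hj => ?_⟩
      · rw [prod_range_succ, prod_update_Tup k (fun _ m => m) μ b, h2, Function.update_self, hab]
      · dsimp only
        rw [Function.update_of_ne (by omega)]
        exact h3 j (by omega)
    · intro μ h
      obtain ⟨hn, h2, h3⟩ := mem_tup.1 h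
      rw [prod_range_succ] at h2
      simp only [mem_sigma, Nat.mem_divisorsAntidiagonal, mem_tup]
      refine ⟨⟨h2, hn⟩, ?_, prod_update_Tup k (fun _ m => m) μ 1, fun j hj => ?_⟩
      · intro h0
        rw [h0, zero_mul] at h2
        exact hn h2.symm
      · rcases hj.eq_or_lt with rfl | hj
        · exact Function.update_self ..
        · rw [Function.update_of_ne hj.ne']
          exact h3 j hj
    · rintro ⟨⟨a, b⟩, μ⟩ h
      simp only [mem_sigma, Nat.mem_divisorsAntidiagonal, mem_tup] at h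
      obtain ⟨-, -, h2, h3⟩ := h
      have e1 : ∏ j ∈ range k, Function.update μ k b j = a := by
        rw [prod_update_Tup k (fun _ m => m) μ b, h2]
      have e2 : Function.update (Function.update μ k b) k 1 = μ := by
        rw [Function.update_idem, ← h3 k le_rfl, Function.update_eq_self]
      simp only [e1, e2, Function.update_self]
    · intro μ _
      simp only [Function.update_idem, Function.update_eq_self]
    · rintro ⟨⟨a, b⟩, μ⟩ _
      dsimp only
      rw [prod_range_succ, prod_update_Tup k (fun j m => g j m) μ b, Function.update_self]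

theorem xPF : PFStmt := by
  classical
  intro k β x n
  rw [PF, xProd, card_filter, Nat.cast_sum]
  refine sum_congr rfl fun μ _ => ?_
  split_ifs with h
  · rw [Nat.cast_one]
    exact prod_eq_one fun j hj => bf_of_mem (h j (mem_range.1 hj))
  · rw [Nat.cast_zero]
    push Not at h
    obtain ⟨j, hj, h⟩ := h
    exact prod_eq_zero (mem_range.2 hj) (bf_of_not h)

lemma card_tup_Tup (k n : ℕ) : (tup k n).card ≤ n.divisors.card ^ k := by
  classical
  refine card_image_le.trans ?_
  calc (Nat.finMulAntidiag k n).card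
      ≤ (Fintype.piFinset fun _ : Fin k => n.divisors).card := by
        refine card_le_card fun f hf => Fintype.mem_piFinset.2 fun i => ?_
        exact Nat.mem_divisors.2
          ⟨Nat.dvd_of_mem_finMulAntidiag hf i, (Nat.mem_finMulAntidiag.1 hf).2⟩
    _ = n.divisors.card ^ k := by simp [Fintype.card_piFinset]

lemma card_div_Tup {y : ℝ} (hy : 0 ≤ y) (n : ℕ) (hn : n ≠ 0)
    (h : ∀ p : ℕ, p.Prime → p ∣ n → y < p) :
    ∃ w : ℕ, n.divisors.card ≤ 2 ^ w ∧ y ^ w ≤ n := by
  refine ⟨∑ p ∈ n.primeFactors, n.factorization p, ?_, ?_⟩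
  · rw [Nat.card_divisors hn, ← prod_pow_eq_pow_sum]
    exact prod_le_prod' fun p _ => Nat.lt_two_pow_self
  · have e : (n : ℝ) = ∏ p ∈ n.primeFactors, (p : ℝ) ^ n.factorization p := by
      conv_lhs => rw [← Nat.prod_factorization_pow_eq_self hn]
      rw [Finsupp.prod, Nat.support_factorization]
      push_cast
      rfl
    rw [e, ← prod_pow_eq_pow_sum]
    refine prod_le_prod (fun p _ => pow_nonneg hy _) fun p hp => ?_
    exact pow_le_pow_left₀ hy
      (h p (Nat.prime_of_mem_primeFactors hp) (Nat.dvd_of_mem_primeFactors hp)).le _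

theorem xCnt : CntStmt := by
  intro k
  refine ⟨(2 ^ 200) ^ k, by positivity, (eventually_ge_atTop 2).mono fun x hx n hn hr => ?_⟩
  rcases eq_or_ne n 0 with rfl | hn0
  · have : tup k 0 = ∅ := by simp [tup]
    rw [this, card_empty, Nat.cast_zero]
    positivity
  have hx1 : (1 : ℝ) < x := by linarith
  have hx0 : (0 : ℝ) < x := by linarith
  obtain ⟨w, h1, h2⟩ := card_div_Tup (Real.rpow_nonneg hx0.le (1 / 100)) n hn0 hr
  have hw : w ≤ 200 := by
    have h3 : x ^ ((1 / 100 : ℝ) * w) ≤ x ^ (2 : ℝ) := by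
      rw [Real.rpow_mul hx0.le, Real.rpow_natCast, Real.rpow_two]
      nlinarith
    have h4 := (Real.rpow_le_rpow_left_iff hx1).1 h3
    have h5 : (w : ℝ) ≤ 200 := by linarith
    exact_mod_cast h5
  have h6 : (tup k n).card ≤ (2 ^ 200) ^ k :=
    (card_tup_Tup k n).trans
      (Nat.pow_le_pow_left (h1.trans (Nat.pow_le_pow_right two_pos hw)) k)
  exact_mod_cast h6

end Pool.Agent.MP_c853c5_nt.X

end

section

/-!
The nested mass bound: factorisations whose subtree products lie in a box.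
-/

set_option autoImplicit false

open Finset Filter

namespace Pool.Agent.MP_c853c5_nt.X

open Pool.Agent.MP_c853c5_nt.S Pool.Agent.MP_c853c5_nt.L

open Classical in
/-- restriction to the sizes in `[lo, hi]` -/
noncomputable def rst (g : Fam) (lo hi : ℝ) : Fam := fun x =>
  ⟨fun m => if x ^ lo ≤ (m : ℝ) ∧ (m : ℝ) ≤ x ^ hi then g x m else 0, by simp⟩

lemma rst_apply (g : Fam) (lo hi x : ℝ) (m : ℕ) :
    rst g lo hi x m = if x ^ lo ≤ (m : ℝ) ∧ (m : ℝ) ≤ x ^ hi then g x m else 0 := by
  simp only [rst, ArithmeticFunction.coe_mk]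

lemma pos_rst {g : Fam} (h : Pos g) (lo hi : ℝ) : Pos (rst g lo hi) :=
  h.mono fun x hx m => by
    rw [rst_apply]
    split_ifs
    exacts [hx m, le_rfl]

lemma sup_rst (g : Fam) (lo hi : ℝ) : Sup (rst g lo hi) lo hi :=
  Eventually.of_forall fun x m hm => by
    rw [rst_apply] at hm
    exact (ite_ne_right_iff.1 hm).1

lemma lm_rst {g : Fam} {w : ℝ} (h : Pos g) (hw : 0 ≤ w) (hd : ∀ a b, Dens g a b w) (lo hi : ℝ) :
    LM (rst g lo hi) (w * max 0 (hi - lo)) := by
  rcases le_or_gt lo hi with e | e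
  · rw [max_eq_right (sub_nonneg.2 e)]
    refine ldens _ g lo hi (lo - 1) (hi + 1) w (by linarith) e (by linarith) hw h
      (h.mono fun x hx m => ?_) (sup_rst g lo hi) (hd _ _)
    rw [rst_apply]
    split_ifs
    exacts [le_rfl, hx m]
  · refine (Fx.zero 0 0).lm.mono (ev_pos.mono fun x hx m => ?_) (by positivity)
    rw [rst_apply, if_neg fun c =>
      (Real.rpow_lt_rpow_of_exponent_lt hx e).not_ge (c.1.trans c.2)]
    exact le_rfl

/-- the subtree sums lie in the box -/
def Tr (k : ℕ) (par : ℕ → ℕ) (lo hi : ℕ → ℝ) (a : Pt) : Prop :=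
  ∃ y : Pt, (∀ i < k, y i = a i + ∑ j ∈ (Ico 1 k).filter (fun j => par j = i), y j) ∧
    ∀ j, 1 ≤ j → j < k → lo j ≤ y j ∧ y j ≤ hi j

open Classical in
/-- the weighted number of factorisations in the box -/
noncomputable def Wn (k : ℕ) (par : ℕ → ℕ) (lo hi : ℕ → ℝ) (F : ℕ → Fam) : Fam := fun x =>
  ⟨fun n => ∑ μ ∈ (tup k n).filter (fun μ => Tr k par lo hi (pt x μ)), ∏ j ∈ range k, F j x (μ j),
    by simp [tup]⟩

variable {par : ℕ → ℕ} {lo hi : ℕ → ℝ}

lemma Tr.mg {r : ℕ} {a : Pt} (hp : ∀ j, 1 ≤ j → j ≤ r → par j < j) (hr : 1 ≤ r)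
    (h : Tr (r + 1) par lo hi a) :
    Tr r par lo hi (mg (par r) r a) ∧ lo r ≤ a r ∧ a r ≤ hi r := by
  obtain ⟨y, h1, h2⟩ := h
  have e : y r = a r := by
    rw [h1 r r.lt_succ_self, sum_eq_zero fun j hj => ?_, add_zero]
    obtain ⟨g1, g2⟩ := mem_filter.1 hj
    rw [mem_Ico] at g1
    have := hp j g1.1 (by omega)
    omega
  refine ⟨⟨y, fun i hi => ?_, fun j g1 g2 => h2 j g1 (by omega)⟩, e ▸ h2 r hr r.lt_succ_self⟩
  rw [h1 i (by omega), sum_filter, sum_filter, sum_Ico_succ_top hr, e]
  split_ifs with c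
  · subst c
    rw [X.mg, Function.update_of_ne hi.ne, Function.update_self]
    ring
  · rw [mg_ne_Open (Ne.symm c) hi.ne, add_zero]

lemma Wn_step {r : ℕ} {F : ℕ → Fam} {x : ℝ} (hp : ∀ j, 1 ≤ j → j ≤ r → par j < j) (hr : 1 ≤ r)
    (hx : 1 < x) (hF : ∀ j ≤ r, ∀ m, 0 ≤ F j x m) (n : ℕ) :
    Wn (r + 1) par lo hi F x n ≤ Wn r par lo hi
      (Function.update F (par r) fun x => rst (F r) (lo r) (hi r) x * F (par r) x) x n := by
  classical
  have hi' := hp r hr le_rfl
  have m := mem_range.2 hi'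
  have e : ∀ μ : ℕ → ℕ, ∏ j ∈ range r, Function.update F (par r)
      (fun x => rst (F r) (lo r) (hi r) x * F (par r) x) j x (μ j) =
      ∑ p ∈ (μ (par r)).divisorsAntidiagonal, rst (F r) (lo r) (hi r) x p.1 * F (par r) x p.2 *
        ∏ j ∈ (range r).erase (par r), F j x (μ j) := fun μ => by
    rw [← mul_prod_erase _ _ m, Function.update_self, ArithmeticFunction.mul_apply, sum_mul]
    exact sum_congr rfl fun p _ => congrArg _
      (prod_congr rfl fun j hj => by rw [Function.update_of_ne (mem_erase.1 hj).1])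
  simp only [Wn, ArithmeticFunction.coe_mk, e]
  rw [sum_sigma']
  refine le_of_eq_of_le ?_ (sum_le_sum_of_subset_of_nonneg
    (s := ((tup (r + 1) n).filter fun μ => Tr (r + 1) par lo hi (pt x μ)).image
      fun μ => (⟨mrg_Open (par r) r μ, (μ r, μ (par r))⟩ : Σ _ : ℕ → ℕ, ℕ × ℕ))
    (fun z hz => ?_) fun z _ _ => ?_)
  · rw [sum_image fun μ _ ν _ h => ?_]
    · refine sum_congr rfl fun μ hμ => ?_
      obtain ⟨g1, g2⟩ := mem_filter.1 hμ
      have p0 : (0 : ℝ) < μ r := Nat.cast_pos.2 (pos_Open g1 r)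
      obtain ⟨-, g3, g4⟩ := g2.mg hp hr
      rw [rst_apply, if_pos ⟨(Real.le_logb_iff_rpow_le hx p0).1 g3,
        (Real.logb_le_iff_le_rpow hx p0).1 g4⟩, prod_range_succ, ← mul_prod_erase _ _ m,
        prod_congr rfl fun j hj => congrArg (F j x)
          (mrg_ne_Open (μ := μ) (mem_erase.1 hj).1 (mem_range.1 (mem_erase.1 hj).2).ne)]
      ring
    · obtain ⟨g1, g2⟩ := Sigma.mk.inj_iff.1 h
      obtain ⟨g3, g4⟩ := Prod.mk.inj (eq_of_heq g2)
      funext j
      by_cases c : j = r
      · rwa [c]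
      by_cases c' : j = par r
      · rwa [c']
      rw [← mrg_ne_Open (μ := μ) c' c, g1, mrg_ne_Open c' c]
  · obtain ⟨μ, hμ, rfl⟩ := mem_image.1 hz
    obtain ⟨g1, g2⟩ := mem_filter.1 hμ
    refine mem_sigma.2 ⟨mem_filter.2 ⟨mrg_mem_Open hi' g1, ?_⟩, ?_⟩
    · rw [pt_mrg_Open hi' (pos_Open g1)]
      exact (g2.mg hp hr).1
    · simp only [Nat.mem_divisorsAntidiagonal, mrg_i_Open hi']
      exact ⟨mul_comm _ _, (mul_pos (pos_Open g1 _) (pos_Open g1 _)).ne'⟩
  · refine mul_nonneg (mul_nonneg ?_ (hF _ hi'.le _))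
      (prod_nonneg fun j hj => hF j (mem_range.1 (mem_erase.1 hj).2).le _)
    rw [rst_apply]
    split_ifs
    exacts [hF r le_rfl _, le_rfl]

/-- the nested bound -/
theorem dens_nest (r : ℕ) : ∀ (F : ℕ → Fam) (ρ μ : ℕ → ℝ), (∀ j, 1 ≤ j → j ≤ r → par j < j) →
    (∀ j ≤ r, Pos (F j) ∧ 0 ≤ ρ j ∧ 0 ≤ μ j ∧ ∀ a b, Dens (F j) a b (ρ j)) →
    (∀ j, 1 ≤ j → j ≤ r → LM (rst (F j) (lo j) (hi j)) (μ j)) →
    (∀ j, 1 ≤ j → j ≤ r → 1 ≤ par j → ρ (par j) * max 0 (hi (par j) - lo (par j)) ≤ μ (par j)) →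
    ρ 0 ≤ μ 0 → ∀ a b, Dens (Wn (r + 1) par lo hi F) a b (∏ j ∈ range (r + 1), μ j) := by
  classical
  induction r with
  | zero =>
    intro F ρ μ _ h1 _ _ h4 a b
    obtain ⟨g1, -, -, g2⟩ := h1 0 le_rfl
    refine ((g2 a b).mono (g1.mono fun x hx n _ _ => ?_)).weak le_rfl le_rfl (by simpa using h4)
    have := xProd 1 (fun j => F j x) n
    rw [prod_range_one] at this
    rw [this]
    exact sum_le_sum_of_subset_of_nonneg (filter_subset _ _) fun μ _ _ => by
      rw [prod_range_one]
      exact hx _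
  | succ r ih =>
    intro F ρ μ hp h1 h2 h3 h4 a b
    have hi' := hp (r + 1) (by omega) le_rfl
    obtain ⟨p1, -, p2, -⟩ := h1 (r + 1) le_rfl
    obtain ⟨q1, q2, q3, q4⟩ := h1 _ hi'.le
    have d : ∀ a b, Dens (fun x => rst (F (r + 1)) (lo (r + 1)) (hi (r + 1)) x * F (par (r + 1)) x)
        a b (μ (r + 1) * ρ (par (r + 1))) := fun a b =>
      dconv _ _ _ _ a b _ _ p2 q2 (pos_rst p1 _ _) (sup_rst _ _ _) (h2 _ (by omega) le_rfl) (q4 _ _)
    have := ih (Function.update F (par (r + 1))
        fun x => rst (F (r + 1)) (lo (r + 1)) (hi (r + 1)) x * F (par (r + 1)) x)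
      (Function.update ρ (par (r + 1)) (μ (r + 1) * ρ (par (r + 1))))
      (Function.update μ (par (r + 1)) (μ (r + 1) * μ (par (r + 1))))
      (fun j g1 g2 => hp j g1 (by omega)) (fun j g => ?_) (fun j g1 g2 => ?_)
      (fun j g1 g2 g3 => ?_) ?_ a b
    · refine (this.mono ?_).weak le_rfl le_rfl (le_of_eq ?_)
      · have : ∀ᶠ x : ℝ in atTop, ∀ j ∈ range (r + 2), ∀ m, 0 ≤ F j x m :=
          (eventually_all_finset _).2 fun j hj => (h1 j (by rw [mem_range] at hj; omega)).1
        filter_upwards [this, ev_pos] with x g1 g2 n _ _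
        exact Wn_step hp (by omega) g2 (fun j hj => g1 j (mem_range.2 (by omega))) n
      · rw [prod_update_of_mem (mem_range.2 hi'), prod_range_succ μ (r + 1),
          ← mul_prod_erase _ μ (mem_range.2 hi'), sdiff_singleton_eq_erase]
        ring
    · by_cases c : j = par (r + 1)
      · simp only [c, Function.update_self]
        exact ⟨(pos_rst p1 _ _).mul q1, mul_nonneg p2 q2, mul_nonneg p2 q3, d⟩
      · simp only [Function.update_of_ne c]
        exact h1 j (by omega)
    · by_cases c : j = par (r + 1)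
      · simp only [c, Function.update_self]
        refine (lm_rst ((pos_rst p1 _ _).mul q1) (mul_nonneg p2 q2) d _ _).mono
          (Eventually.of_forall fun _ _ => le_rfl) ?_
        rw [mul_assoc]
        exact mul_le_mul_of_nonneg_left (h3 (r + 1) (by omega) le_rfl (c ▸ g1)) p2
      · simp only [Function.update_of_ne c]
        exact h2 j g1 (by omega)
    · have := h3 j g1 (by omega) g3
      by_cases c : par j = par (r + 1)
      · simp only [c, Function.update_self] at this ⊢
        rw [mul_assoc]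
        exact mul_le_mul_of_nonneg_left this p2
      · simpa only [Function.update_of_ne c] using this
    · by_cases c : 0 = par (r + 1)
      · rw [← c, Function.update_self, Function.update_self]
        exact mul_le_mul_of_nonneg_left h4 p2
      · simpa only [Function.update_of_ne c] using h4

/-- the count of admissible factorisations is bounded by the weighted count -/
lemma SF_le_Wn {k : ℕ} {kind : ℕ → Kind} {Q : Pt → Prop} {F : ℕ → Fam} {x : ℝ} {n : ℕ}
    (hF : ∀ j < k, ∀ m, 0 ≤ F j x m)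
    (h : ∀ μ ∈ tup k n, Q (pt x μ) → (∀ j < k, (kind j).ok x μ j) →
      Tr k par lo hi (pt x μ) ∧ ∀ j < k, 1 ≤ F j x (μ j)) :
    SF k kind Q x n ≤ Wn k par lo hi F x n := by
  classical
  simp only [SF, Wn, ArithmeticFunction.coe_mk]
  rw [card_eq_sum_ones, Nat.cast_sum]
  refine (sum_le_sum fun μ hμ => ?_).trans (sum_le_sum_of_subset_of_nonneg (fun μ hμ => ?_)
    fun μ _ _ => prod_nonneg fun j hj => hF j (mem_range.1 hj) _)
  · obtain ⟨g1, g2, g3⟩ := mem_filter.1 hμ
    rw [Nat.cast_one]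
    exact one_le_prod fun j hj => (h μ g1 g2 g3).2 j (mem_range.1 hj)
  · obtain ⟨g1, g2, g3⟩ := mem_filter.1 hμ
    exact mem_filter.2 ⟨g1, (h μ g1 g2 g3).1⟩

end Pool.Agent.MP_c853c5_nt.X

end
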