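import Pool.Agent.MP_c853c5_nt.X.Defs
import Pool.Agent.Mg.C853.G6aba3f
import Pool.Agent.MP_c853c5_nt.X.Defs2
import Pool.Agent.Mg.C853.G2f5613
import Pool.Agent.MP_c853c5_nt.X.Tame
import Pool.Agent.Mg.C853.Ga580b9
import Pool.Agent.MP_c853c5_nt.X.Drop
import Pool.Agent.MP_c853c5_nt.X.LeafS2
import Pool.Agent.MP_c853c5_nt.X.XTD
import Pool.Agent.MP_c853c5_nt.X.Carve
import Pool.Agent.MP_c853c5_nt.X.RefPD
import Pool.Agent.MP_c853c5_nt.X.SndA
import Pool.Agent.MP_c853c5_nt.X.UWD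
import Pool.Agent.MP_c853c5_nt.X.Cv
import Pool.Agent.MP_c853c5_nt.Y.X
import Pool.Agent.MP_c853c5_nt.REG.UG
import Pool.Agent.MP_c853c5_nt.DT.Win
import Pool.Agent.MP_c853c5_nt.X.UPD
import Pool.Agent.MP_c853c5_nt.X.UED
import Pool.Agent.MP_c853c5_nt.DU.Win
import Pool.Agent.MP_c853c5_nt.X.LSD
import Pool.Agent.MP_c853c5_nt.DV.L4

section

/-!
Numbers with a factorisation close to a hyperplane are rare.
-/

set_option autoImplicit false

open Finset Filter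

namespace Pool.Agent.MP_c853c5_nt.X

open Pool.Agent.MP_c853c5_nt.S

/-- rough numbers above `1` of size in `(x ^ c, x ^ (c + w)]` -/
noncomputable def blk_Bad (c w : ℝ) : Blk := ⟨max c 0, c + w, 1 / 100, none⟩

lemma gb_Bad (c w : ℝ) {β : ℝ} (h : 1 / 100 ≤ β) : L.GB (blk_Bad c w) β ≤ 100 * β := by
  have h1 := L.Om_le (β / (1 / 100) - 1) L.cc_le_one le_rfl
  rw [Real.log_one] at h1
  have h2 : max 0 (L.Om (β / (1 / 100) - 1)) ≤ 100 * β - 1 := max_le (by linarith) (by linarith)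
  change 1 + max 0 (L.Om (β / (1 / 100) - 1)) ≤ _
  linarith

lemma dens_Bad (c w β₁ β₂ : ℝ) : L.Dens (fun x => bf x (blk_Bad c w)) β₁ β₂ 100 :=
  L.dens_bf (by norm_num [blk_Bad]) (le_max_right c 0) (by norm_num)
    fun _ _ _ _ _ h => gb_Bad c w h

lemma fx_Bad (c : ℝ) {w : ℝ} (hw : 0 ≤ w) :
    L.Fx (fun x => bf x (blk_Bad c w)) (max (max c 0) (1 / 100)) (c + w) (100 * w) := by
  have h0 : 0 ≤ (blk_Bad c w).lo := le_max_right c 0
  refine ⟨L.pos_bf _, L.sup_bf h0, ?_, by positivity⟩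
  rcases le_total (blk_Bad c w).hi (max (blk_Bad c w).lo (blk_Bad c w).a) with h | h
  · exact (L.lm_empty h0 h).mono (Eventually.of_forall fun _ _ => le_rfl) (by positivity)
  · refine (L.lm_gen (w := 100) (by norm_num [blk_Bad]) h0 (by norm_num) h
      fun _ _ _ h => gb_Bad c w h).mono (Eventually.of_forall fun _ _ => le_rfl) ?_
    have : c ≤ max (max c 0) (1 / 100) := (le_max_left _ _).trans (le_max_left _ _)
    change 100 * (c + w - max (max c 0) (1 / 100)) ≤ _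
    linarith

lemma mem_Bad {x c w : ℝ} (hx : 1 < x) {m : ℕ} (h1 : 1 < m) (h : Rough x (1 / 100) m)
    (h2 : c < Real.logb x m) (h3 : Real.logb x m ≤ c + w) : 1 ≤ bf x (blk_Bad c w) m := by
  have m1 : (1 : ℝ) < m := by exact_mod_cast h1
  have m0 : (0 : ℝ) < m := by linarith
  exact (bf_of_mem ⟨by omega, (Real.lt_logb_iff_rpow_lt hx m0).1
    (max_lt h2 (Real.logb_pos hx m1)), (Real.logb_le_iff_le_rpow hx m0).1 h3, h,
    by simp [blk_Bad]⟩).ge

lemma one_le_Bad {f g : AF} (hf : Nn f) (hg : Nn g) {a b : ℕ} (h : a * b ≠ 0) (ha : 1 ≤ f a)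
    (hb : 1 ≤ g b) : 1 ≤ (f * g) (a * b) := by
  rw [ArithmeticFunction.mul_apply]
  refine le_trans ?_ (single_le_sum (f := fun p : ℕ × ℕ => f p.1 * g p.2)
    (fun p _ => mul_nonneg (hf _) (hg _)) (a := (a, b)) (Nat.mem_divisorsAntidiagonal.2 ⟨rfl, h⟩))
  exact one_le_mul_of_one_le_of_one_le ha hb

lemma log_Bad {x : ℝ} (hx : 2 ≤ x) {m n : ℕ} (h0 : 1 < m) (h1 : m ≤ n) (h2 : (n : ℝ) ≤ 2 * x) :
    0 < Real.logb x m ∧ Real.logb x m ≤ 2 := by
  have m1 : (1 : ℝ) < m := by exact_mod_cast h0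
  have m2 : (m : ℝ) ≤ n := by exact_mod_cast h1
  refine ⟨Real.logb_pos (by linarith) m1,
    (Real.logb_le_iff_le_rpow (by linarith) (by linarith)).2 ?_⟩
  rw [Real.rpow_two]
  nlinarith

theorem xBad : BadStmt := by
  intro e ε hε
  obtain ⟨h, h0, h1, h2⟩ : ∃ h : ℝ, 0 < h ∧ h ≤ 1 ∧ 20000000 * h ≤ ε :=
    ⟨min 1 (ε / 20000000), lt_min one_pos (by positivity), min_le_left _ _, by
      linarith [min_le_right 1 (ε / 20000000)]⟩
  refine ⟨h, h0, ?_⟩
  have w4 : 0 ≤ 4 * h := by positivity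
  have m1 := L.mass_of (fx_Bad (e - 2 * h) w4) (by norm_num) (dens_Bad 0 3 _ _)
  have m2 := L.mass_of (fx_Bad ((1 + e) / 2 - 2 * h) w4) (by norm_num) (dens_Bad 0 3 _ _)
  have m3 := Mass.sum (range (⌈2 / h⌉₊ + 1)) fun k _ => L.mass_of
    ((fx_Bad (e + k * h - 2 * h) w4).mul (fx_Bad (k * h - h) h0.le)) (by norm_num)
    (dens_Bad 0 3 _ _)
  refine (((m1.add m2).add m3).mono ?_).of_le ?_
  · have a1 : (⌈2 / h⌉₊ : ℝ) < 2 / h + 1 := Nat.ceil_lt_add_one (by positivity)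
    have a2 : (⌈2 / h⌉₊ : ℝ) * h ≤ 2 + h := by
      have := mul_le_mul_of_nonneg_right a1.le h0.le
      rwa [add_mul, div_mul_cancel₀ _ h0.ne', one_mul] at this
    rw [sum_const, card_range, nsmul_eq_mul]
    push_cast
    nlinarith [mul_le_mul_of_nonneg_right a2 h0.le, mul_le_mul_of_nonneg_right h1 h0.le]
  filter_upwards [eventually_ge_atTop 2, L.ev_two (show (1 : ℝ) < 1 + h by linarith),
    L.ev_two (show 1 - h < (1 : ℝ) by linarith)] with x hx u1 u2 n hn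
  rw [Real.rpow_one] at u1 u2
  have x1 : 1 < x := by linarith
  have p1 := ((nn_bf x (blk_Bad (e - 2 * h) (4 * h))).mul (nn_bf x (blk_Bad 0 3))) n
  have p2 := ((nn_bf x (blk_Bad ((1 + e) / 2 - 2 * h) (4 * h))).mul (nn_bf x (blk_Bad 0 3))) n
  have p3 : ∀ k ∈ range (⌈2 / h⌉₊ + 1), 0 ≤ (bf x (blk_Bad (e + k * h - 2 * h) (4 * h)) *
      bf x (blk_Bad (k * h - h) h) * bf x (blk_Bad 0 3)) n := fun k _ =>
    (((nn_bf x _).mul (nn_bf x _)).mul (nn_bf x _)) n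
  have p4 := sum_nonneg p3
  rw [ArithmeticFunction.add_apply, ArithmeticFunction.add_apply, AF_sum]
  simp only [ind, ArithmeticFunction.coe_mk]
  split_ifs with hP
  swap
  · linarith
  obtain ⟨n0, hr, a, b, c, rfl, ha, hbc, hd⟩ := hP
  obtain ⟨d1, d2⟩ := abs_le.1 hd
  obtain ⟨hr', rc⟩ := rough_mul.1 hr
  obtain ⟨ra, rb⟩ := rough_mul.1 hr'
  have b0 : b ≠ 0 := by rintro rfl; simp at hbc
  have c0 : c ≠ 0 := by rintro rfl; simp at hbc
  have hR : ∀ m : ℕ, 1 < m → m ∣ a * b * c → Rough x (1 / 100) m → 1 ≤ bf x (blk_Bad 0 3) m :=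
    fun m q1 q2 q3 => by
      obtain ⟨q4, q5⟩ := log_Bad hx q1 (Nat.le_of_dvd (Nat.pos_of_ne_zero n0) q2) hn.2
      exact mem_Bad x1 q1 q3 q4 (by linarith)
  by_cases b1 : b = 1
  · subst b1
    rw [Nat.cast_one, Real.logb_one] at d1 d2
    rw [one_mul] at hbc
    have := one_le_Bad (nn_bf x _) (nn_bf x _) (mul_ne_zero (by omega) c0)
      (mem_Bad (c := e - 2 * h) (w := 4 * h) x1 ha ra (by linarith) (by linarith))
      (hR c hbc (dvd_mul_left _ _) rc)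
    rw [mul_one] at p2 p4 ⊢
    linarith
  have b2 : 1 < b := by omega
  by_cases c1 : c = 1
  · subst c1
    have a0 : (0 : ℝ) < a := by exact_mod_cast (by omega : 0 < a)
    have b3 : (0 : ℝ) < b := by exact_mod_cast (by omega : 0 < b)
    obtain ⟨w1, w2⟩ := hn
    rw [mul_one] at p1 p4 w1 w2 ⊢
    push_cast at w1 w2
    have l1 : 1 - h < Real.logb x (a * b) :=
      (Real.lt_logb_iff_rpow_lt x1 (by positivity)).2 (by linarith)
    have l2 : Real.logb x (a * b) ≤ 1 + h :=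
      (Real.logb_le_iff_le_rpow x1 (by positivity)).2 (by linarith)
    rw [Real.logb_mul a0.ne' b3.ne'] at l1 l2
    have := one_le_Bad (nn_bf x _) (nn_bf x _) (mul_ne_zero (by omega) b0)
      (mem_Bad (c := (1 + e) / 2 - 2 * h) (w := 4 * h) x1 ha ra (by linarith) (by linarith))
      (hR b b2 (by simp) rb)
    linarith
  obtain ⟨q4, q5⟩ := log_Bad hx b2 (Nat.le_of_dvd (Nat.pos_of_ne_zero n0)
    ((dvd_mul_left b a).mul_right c)) hn.2
  have k1 : (⌈Real.logb x b / h⌉₊ : ℝ) * h < Real.logb x b + h := by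
    have := mul_lt_mul_of_pos_right
      (Nat.ceil_lt_add_one (show 0 ≤ Real.logb x b / h by positivity)) h0
    rwa [add_mul, div_mul_cancel₀ _ h0.ne', one_mul] at this
  have k2 : Real.logb x b ≤ (⌈Real.logb x b / h⌉₊ : ℝ) * h :=
    (div_le_iff₀ h0).1 (Nat.le_ceil _)
  have k3 : ⌈Real.logb x b / h⌉₊ ∈ range (⌈2 / h⌉₊ + 1) :=
    mem_range.2 (Nat.lt_succ_of_le (Nat.ceil_mono (div_le_div_of_nonneg_right q5 h0.le)))
  have k4 := single_le_sum p3 k3
  have := one_le_Bad ((nn_bf x _).mul (nn_bf x _)) (nn_bf x _) n0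
    (one_le_Bad (nn_bf x _) (nn_bf x _) (mul_ne_zero (by omega) b0)
      (mem_Bad (c := e + ⌈Real.logb x b / h⌉₊ * h - 2 * h) (w := 4 * h) x1 ha ra (by linarith)
        (by linarith))
      (mem_Bad (c := ⌈Real.logb x b / h⌉₊ * h - h) (w := h) x1 b2 rb (by linarith) (by linarith)))
    (hR c (by omega) (dvd_mul_left _ _) rc)
  linarith

end Pool.Agent.MP_c853c5_nt.X

end

section

/-!
Few integers have a factorisation near a hyperplane.
-/

set_option autoImplicit false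

open Finset Filter

namespace Pool.Agent.MP_c853c5_nt.X

open Pool.Agent.MP_c853c5_nt.S

lemma ind_le_Row {P Q : ℕ → Prop} {n : ℕ} (h : P n → Q n) : ind P n ≤ ind Q n := by
  classical
  change (if n ≠ 0 ∧ P n then (1 : ℝ) else 0) ≤ if n ≠ 0 ∧ Q n then 1 else 0
  by_cases k : n ≠ 0 ∧ P n
  · rw [if_pos k, if_pos ⟨k.1, h k.2⟩]
  · rw [if_neg k]
    split_ifs <;> norm_num

lemma ind_zero_Row {P : ℕ → Prop} {n : ℕ} (h : ¬ P n) : ind P n = 0 := if_neg fun k => h k.2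

lemma one_lt_Row {s : Finset ℕ} {μ : ℕ → ℕ} (hs : s.Nonempty) (h : ∀ j ∈ s, 1 < μ j) :
    1 < ∏ j ∈ s, μ j := by
  obtain ⟨j, hj⟩ := hs
  exact (h j hj).trans_le (single_le_prod' (fun i hi => (h i hi).le) hj)

lemma sum_Row (x : ℝ) {s : Finset ℕ} {μ : ℕ → ℕ} (h : ∀ j ∈ s, 1 < μ j) :
    ∑ j ∈ s, pt x μ j = Real.logb x ((∏ j ∈ s, μ j : ℕ) : ℝ) := by
  rw [Nat.cast_prod, Real.logb_prod]
  · rfl
  · intro j hj
    have := h j hj
    exact Nat.cast_ne_zero.2 (by omega)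

lemma win_Row {d : ℝ} (hd : 0 < d) : ∀ᶠ x : ℝ in atTop, ∀ n : ℕ, Win x n →
    |Real.logb x n - 1| < d := by
  filter_upwards [eventually_gt_atTop 1,
    Real.tendsto_log_atTop.eventually (eventually_gt_atTop (Real.log 2 / d))] with x hx h1 n hn
  have hl := Real.log_pos hx
  have h0 : (0 : ℝ) < n := lt_trans (by linarith) hn.1
  have h2 : Real.log n ≤ Real.log 2 + Real.log x := by
    rw [← Real.log_mul (by norm_num) (by linarith)]
    exact Real.log_le_log h0 hn.2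
  have h3 : Real.log x ≤ Real.log 2 + Real.log n := by
    rw [← Real.log_mul (by norm_num) h0.ne']
    exact Real.log_le_log (by linarith) (by linarith [hn.1])
  rw [div_lt_iff₀ hd] at h1
  have e : Real.logb x n - 1 = (Real.log n - Real.log x) / Real.log x := by
    rw [Real.logb]
    field_simp
  rw [e, abs_div, abs_of_pos hl, div_lt_iff₀ hl, abs_lt]
  constructor <;> linarith

lemma main_Row (hb : BadStmt) (k : ℕ) (A B : Finset ℕ) (e : ℝ) (hA : A ⊆ range k)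
    (hB : B ⊆ range k) (hd : Disjoint A B) (hn : A.Nonempty) (he : A = range k → e ≠ 1)
    (ε : ℝ) (hε : 0 < ε) : ∃ h : ℝ, 0 < h ∧
      Mass (fun x => ind fun n => ∃ μ ∈ tup k n, (∀ j < k, 1 < μ j ∧ Rough x (1 / 100) (μ j)) ∧
        |∑ j ∈ A, pt x μ j - ∑ j ∈ B, pt x μ j - e| ≤ h) ε := by
  by_cases c : A = range k
  · have h1 : 0 < |e - 1| / 2 := half_pos (abs_pos.2 (sub_ne_zero.2 (he c)))
    refine ⟨_, h1, (mass_zero.mono hε.le).of_le ?_⟩
    filter_upwards [win_Row h1] with x hx n hw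
    refine (ind_zero_Row ?_).le
    rintro ⟨μ, h2, h3, h4⟩
    have h5 : B = ∅ := (disjoint_self_iff_empty B).1 (hd.mono_left (c ▸ hB))
    rw [h5, sum_empty, sub_zero, c, sum_Row x fun j hj => (h3 j (mem_range.1 hj)).1,
      (mem_tup.1 h2).2.1] at h4
    have h6 := abs_sub_le e (Real.logb x n) 1
    rw [abs_sub_comm e (Real.logb x n)] at h6
    linarith [hx n hw]
  · obtain ⟨h, h0, h1⟩ := hb e ε hε
    refine ⟨h, h0, h1.of_le (Eventually.of_forall fun x n _ => ind_le_Row ?_)⟩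
    rintro ⟨μ, h2, h3, h4⟩
    have h5 := (mem_tup.1 h2).2.1
    have hB' : B ⊆ range k \ A := subset_sdiff.2 ⟨hB, hd.symm⟩
    have h6 : (∏ j ∈ B, μ j) * ∏ j ∈ (range k \ A) \ B, μ j = ∏ j ∈ range k \ A, μ j := by
      rw [mul_comm, prod_sdiff hB']
    refine ⟨?_, ∏ j ∈ A, μ j, ∏ j ∈ B, μ j, ∏ j ∈ (range k \ A) \ B, μ j, ?_,
      one_lt_Row hn fun j hj => (h3 j (mem_range.1 (hA hj))).1, ?_, ?_⟩
    · rw [← h5]
      exact prod_induction μ (Rough x (1 / 100)) (fun _ _ a b => rough_mul.2 ⟨a, b⟩)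
        (rough_one _ _) fun j hj => (h3 j (mem_range.1 hj)).2
    · rw [mul_assoc, h6, mul_comm, prod_sdiff hA, h5]
    · rw [h6]
      exact one_lt_Row (sdiff_nonempty.2 fun k' => c (hA.antisymm k'))
        fun j hj => (h3 j (mem_range.1 (mem_sdiff.1 hj).1)).1
    · rwa [sum_Row x fun j hj => (h3 j (mem_range.1 (hA hj))).1,
        sum_Row x fun j hj => (h3 j (mem_range.1 (hB hj))).1] at h4

theorem xRow (h : BadStmt) : RowStmt := by
  rintro k r ⟨hA, hB, hd, hn, h1, h2⟩ ε hε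
  rcases union_nonempty.1 hn with c | c
  · exact main_Row h k r.A r.B r.e hA hB hd c h1 ε hε
  · obtain ⟨δ, h3, h4⟩ := main_Row h k r.B r.A (-r.e) hB hA hd.symm c
      (fun k' e => h2 k' (by linarith)) ε hε
    refine ⟨δ, h3, h4.of_le (Eventually.of_forall fun x n _ => ind_le_Row ?_)⟩
    rintro ⟨μ, a1, a2, a3⟩
    refine ⟨μ, a1, a2, ?_⟩
    rw [← abs_neg]
    unfold Row.val at a3
    convert a3 using 2
    ring

end Pool.Agent.MP_c853c5_nt.X

end

section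

/-!
From products of blocks to a tame region.
-/

set_option autoImplicit false

open Finset Filter

namespace Pool.Agent.MP_c853c5_nt.X

open Pool.Agent.MP_c853c5_nt.S

/-- near a hyperplane -/
def slabB (k : ℕ) (r : Row) (h x : ℝ) (n : ℕ) : Prop :=
  ∃ μ ∈ tup k n, (∀ j < k, 1 < μ j ∧ Rough x (1 / 100) (μ j)) ∧ |r.val (pt x μ) - r.e| ≤ h

/-- two close divisors -/
def badB (h x : ℝ) (n : ℕ) : Prop :=
  Rough x (1 / 100) n ∧ ∃ a b c : ℕ, n = a * b * c ∧ 1 < a ∧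
    1 < b * c ∧ |Real.logb x a - Real.logb x b - 0| ≤ h

lemma ind_nonneg_CutB (P : ℕ → Prop) (n : ℕ) : 0 ≤ ind P n := by
  simp only [ind, ArithmeticFunction.coe_mk]
  split_ifs <;> norm_num

lemma ind_eq_CutB {P : ℕ → Prop} {n : ℕ} (h0 : n ≠ 0) (h : P n) : ind P n = 1 := if_pos ⟨h0, h⟩

lemma ind_le_CutB {P Q R : ℕ → Prop} {n : ℕ} (h : P n → Q n ∨ R n) :
    ind P n ≤ ind Q n + ind R n := by
  by_cases h1 : n ≠ 0 ∧ P n
  · rw [ind_eq_CutB h1.1 h1.2]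
    rcases h h1.2 with h2 | h2
    · rw [ind_eq_CutB h1.1 h2]
      linarith [ind_nonneg_CutB R n]
    · rw [ind_eq_CutB h1.1 h2]
      linarith [ind_nonneg_CutB Q n]
  · have : ind P n = 0 := if_neg h1
    rw [this]
    exact add_nonneg (ind_nonneg_CutB _ _) (ind_nonneg_CutB _ _)

lemma mass_CutB (h3 : BadStmt) (h4 : RowStmt) (k : ℕ) (R : List Row) (hR : ∀ r ∈ R, r.Adm k) :
    ∀ ε : ℝ, 0 < ε → ∃ h : ℝ, 0 < h ∧
      Mass (fun x => ind fun n => badB h x n ∨ ∃ r ∈ R, slabB k r h x n) ε := by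
  induction R with
  | nil =>
    intro ε hε
    obtain ⟨h, h0, hm⟩ := h3 0 ε hε
    refine ⟨h, h0, hm.of_le (Eventually.of_forall fun x n _ => le_of_eq ?_)⟩
    simp [badB]
  | cons r R ih =>
    intro ε hε
    obtain ⟨h, h0, hm⟩ := ih (fun r' hr => hR r' (List.mem_cons_of_mem _ hr)) _ (half_pos hε)
    obtain ⟨h', h0', hm'⟩ := h4 k r (hR r List.mem_cons_self) _ (half_pos hε)
    refine ⟨min h h', lt_min h0 h0', ?_⟩
    have := hm.add hm'
    rw [add_halves] at this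
    refine this.of_le (Eventually.of_forall fun x n _ => ?_)
    rw [ArithmeticFunction.add_apply]
    refine ind_le_CutB ?_
    rintro (⟨h5, a, b, c, h6, h7, h8, h9⟩ | ⟨r', hr', μ, h5, h6, h7⟩)
    · exact Or.inl (Or.inl ⟨h5, a, b, c, h6, h7, h8, h9.trans (min_le_left _ _)⟩)
    · rcases List.mem_cons.1 hr' with rfl | hr'
      · exact Or.inr ⟨μ, h5, h6, h7.trans (min_le_right _ _)⟩
      · exact Or.inl (Or.inr ⟨r', hr', μ, h5, h6, h7.trans (min_le_left _ _)⟩)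

lemma cells_CutB (T : Finset ℕ) (N : ℕ) : ∃ E : Finset (ℕ → ℕ), ∀ e,
    e ∈ E ↔ (∀ j ∈ T, e j < N) ∧ ∀ j, j ∉ T → e j = 0 := by
  classical
  refine ⟨(Fintype.piFinset fun _ : T => range N).image
    fun g j => if h : j ∈ T then g ⟨j, h⟩ else 0, fun e => ?_⟩
  simp only [mem_image, Fintype.mem_piFinset, mem_range]
  constructor
  · rintro ⟨g, hg, rfl⟩
    exact ⟨fun j hj => (dif_pos hj).trans_lt (hg _), fun j hj => dif_neg hj⟩
  · rintro ⟨h1, h2⟩
    refine ⟨fun j => e j, fun j => h1 j j.2, funext fun j => ?_⟩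
    by_cases hj : j ∈ T
    · exact dif_pos hj
    · exact (dif_neg hj).trans (h2 j hj).symm

/-- the point lies over the cell -/
def cmpB (k : ℕ) (T : Finset ℕ) (h : ℝ) (e : ℕ → ℕ) (a : Pt) : Prop :=
  |∑ j ∈ range k, a j - 1| ≤ h ∧ ∀ j ∈ T, (e j : ℝ) * h ≤ a j ∧ a j ≤ (e j + 1 : ℝ) * h

lemma near_CutB {k i : ℕ} {T : Finset ℕ} {h : ℝ} {e : ℕ → ℕ} {a a' : Pt} (h0 : 0 ≤ h)
    (hT : ∀ j < k, j ≠ i → j ∈ T) (ha : cmpB k T h e a) (ha' : cmpB k T h e a') {j : ℕ}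
    (hj : j < k) : |a j - a' j| ≤ (k + 2 : ℝ) * h := by
  have hk : (0 : ℝ) ≤ k * h := by positivity
  have h1 : ∀ l ∈ T, |a l - a' l| ≤ h := fun l hl => by
    rw [abs_le]
    constructor <;> linarith [(ha.2 l hl).1, (ha.2 l hl).2, (ha'.2 l hl).1, (ha'.2 l hl).2]
  by_cases hjT : j ∈ T
  · linarith [h1 j hjT]
  have hji : j = i := by
    by_contra hne
    exact hjT (hT j hj hne)
  have h2 : |∑ l ∈ (range k).erase j, (a l - a' l)| ≤ k * h := by
    refine (abs_sum_le_sum_abs _ _).trans ((sum_le_card_nsmul _ _ h fun l hl => ?_).trans ?_)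
    · exact h1 l (hT l (mem_range.1 (mem_of_mem_erase hl)) (hji ▸ ne_of_mem_erase hl))
    · rw [nsmul_eq_mul]
      refine mul_le_mul_of_nonneg_right ?_ h0
      exact_mod_cast (card_erase_le.trans (card_range k).le)
  have h3 := add_sum_erase (range k) a (mem_range.2 hj)
  have h4 := add_sum_erase (range k) a' (mem_range.2 hj)
  rw [sum_sub_distrib] at h2
  have h5 := abs_le.1 ha.1
  have h6 := abs_le.1 ha'.1
  have h7 := abs_le.1 h2
  rw [abs_le]
  constructor <;> linarith [h5.1, h5.2, h6.1, h6.2, h7.1, h7.2]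

lemma val_CutB {k : ℕ} {r : Row} (hr : r.Adm k) {a a' : Pt} {d : ℝ} (h0 : 0 ≤ d)
    (h : ∀ j < k, |a j - a' j| ≤ d) : |r.val a - r.val a'| ≤ 2 * k * d := by
  have h1 : ∀ A : Finset ℕ, A ⊆ range k → |∑ j ∈ A, a j - ∑ j ∈ A, a' j| ≤ k * d := by
    intro A hA
    rw [← sum_sub_distrib]
    refine (abs_sum_le_sum_abs _ _).trans
      ((sum_le_card_nsmul _ _ d fun l hl => h l (mem_range.1 (hA hl))).trans ?_)
    rw [nsmul_eq_mul]
    refine mul_le_mul_of_nonneg_right ?_ h0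
    exact_mod_cast ((card_le_card hA).trans (card_range k).le)
  have h2 := abs_le.1 (h1 _ hr.1)
  have h3 := abs_le.1 (h1 _ hr.2.1)
  unfold Row.val
  rw [abs_le]
  constructor <;> linarith [h2.1, h2.2, h3.1, h3.2]

lemma side_CutB {r : Row} {a a' b : Pt} {D : ℝ} (h : ¬ r.Same a a')
    (h1 : |r.val b - r.val a| ≤ D) (h2 : |r.val b - r.val a'| ≤ D) : |r.val b - r.e| ≤ D := by
  unfold Row.Same at h
  rw [not_or, not_and_or, not_and_or, not_lt, not_lt, not_lt, not_lt] at h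
  obtain ⟨h3, h4⟩ := abs_le.1 h1
  obtain ⟨h5, h6⟩ := abs_le.1 h2
  rw [abs_le]
  rcases h with ⟨h7 | h7, h8 | h8⟩ <;> constructor <;> linarith

/-- the level of a block -/
noncomputable def lvB (h d : ℝ) (e : ℕ → ℕ) (j : ℕ) : Kind → ℝ
  | .P => e j * h
  | .R c => c
  | .L l => (e l + d) * h

/-- the blocks of a cell -/
noncomputable def blB (kind : ℕ → Kind) (T : Finset ℕ) (h d : ℝ) (e : ℕ → ℕ) (j : ℕ) : Blk :=
  if j ∈ T then ⟨e j * h, (e j + 1 : ℝ) * h, lvB h d e j (kind j), none⟩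
  else fr (lvB h d e j (kind j))

lemma mem_bl_CutB {kind : ℕ → Kind} {T : Finset ℕ} {h d x : ℝ} {e : ℕ → ℕ} {j m : ℕ}
    (hx : 1 < x) : (blB kind T h d e j).Mem x m ↔ m ≠ 0 ∧ Rough x (lvB h d e j (kind j)) m ∧
      (j ∈ T → x ^ ((e j : ℝ) * h) < m ∧ (m : ℝ) ≤ x ^ ((e j + 1 : ℝ) * h)) ∧
      (j ∉ T → (m : ℝ) ≤ x ^ (2 : ℝ)) := by
  unfold blB
  by_cases hj : j ∈ T
  · rw [if_pos hj]
    simp only [Blk.Mem, hj]
    tauto
  · rw [if_neg hj, mem_fr hx]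
    tauto

lemma sum_pt_CutB {k n : ℕ} {μ : ℕ → ℕ} (x : ℝ) (hμ : μ ∈ tup k n) :
    ∑ j ∈ range k, pt x μ j = Real.logb x n := by
  obtain ⟨h0, h1, -⟩ := mem_tup.1 hμ
  have h2 : ∀ j ∈ range k, (μ j : ℝ) ≠ 0 := fun j hj => by
    have := prod_ne_zero_iff.1 (h1.symm ▸ h0) j hj
    exact_mod_cast this
  rw [← h1, Nat.cast_prod, Real.logb_prod _ _ h2]
  rfl

lemma win_CutB {h : ℝ} (h0 : 0 < h) : ∀ᶠ x : ℝ in atTop, ∀ n : ℕ, Win x n →
    |Real.logb x n - 1| ≤ h := by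
  filter_upwards [eventually_gt_atTop 1,
    (tendsto_rpow_atTop h0).eventually_ge_atTop 2] with x hx h2 n hn
  have hx0 : 0 < x := by linarith
  have hn0 : (0 : ℝ) < n := lt_trans (by linarith) hn.1
  rw [abs_le]
  constructor
  · have : 1 - h ≤ Real.logb x n := by
      rw [Real.le_logb_iff_rpow_le hx hn0, Real.rpow_sub hx0, Real.rpow_one,
        div_le_iff₀ (by linarith)]
      nlinarith [hn.1]
    linarith
  · have : Real.logb x n ≤ 1 + h := by
      rw [Real.logb_le_iff_le_rpow hx hn0, Real.rpow_add hx0, Real.rpow_one]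
      nlinarith [hn.2]
    linarith

open Classical in
/-- the number of factorisations with a property -/
noncomputable def cnB (k n : ℕ) (P : (ℕ → ℕ) → Prop) : ℝ := (((tup k n).filter P).card : ℝ)

lemma cn_mono_CutB {k n : ℕ} {P P' : (ℕ → ℕ) → Prop} (h : ∀ μ ∈ tup k n, P μ → P' μ) :
    cnB k n P ≤ cnB k n P' := by
  classical
  refine Nat.cast_le.2 (card_le_card fun μ hμ => ?_)
  rw [mem_filter] at hμ ⊢
  exact ⟨hμ.1, h μ hμ.1 hμ.2⟩

lemma cn_le_CutB (k n : ℕ) (P : (ℕ → ℕ) → Prop) : cnB k n P ≤ (tup k n).card := by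
  classical
  exact Nat.cast_le.2 (card_le_card (filter_subset _ _))

lemma SF_eq_CutB (k : ℕ) (kind : ℕ → Kind) (Q : Pt → Prop) (x : ℝ) (n : ℕ) :
    SF k kind Q x n = cnB k n fun μ => Q (pt x μ) ∧ ∀ j < k, (kind j).ok x μ j := by
  simp only [SF, cnB, ArithmeticFunction.coe_mk]
  congr

/-- the tuple lies in the blocks of a cell of `S` -/
def inB (k : ℕ) (kind : ℕ → Kind) (T : Finset ℕ) (h d x : ℝ) (S : Finset (ℕ → ℕ))
    (μ : ℕ → ℕ) : Prop :=
  ∃ e ∈ S, ∀ j < k, (blB kind T h d e j).Mem x (μ j)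

lemma card_CutB (h1 : PFStmt) {k : ℕ} {kind : ℕ → Kind} {T : Finset ℕ} (hT : T ⊆ range k)
    {h d x : ℝ} (h0 : 0 < h) (hx : 1 < x) (S : Finset (ℕ → ℕ))
    (hS : ∀ e ∈ S, ∀ j, j ∉ T → e j = 0) (n : ℕ) :
    (∑ e ∈ S, PF k (blB kind T h d e) x) n = cnB k n (inB k kind T h d x S) := by
  classical
  rw [AF_sum, sum_congr rfl fun e _ => h1 k (blB kind T h d e) x n, ← Nat.cast_sum,
    ← card_biUnion]
  · unfold cnB
    congr 2
    ext μ
    simp only [mem_biUnion, mem_filter, inB]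
    exact ⟨fun ⟨e, a, b, c⟩ => ⟨b, e, a, c⟩, fun ⟨b, e, a, c⟩ => ⟨e, a, b, c⟩⟩
  · intro e he e' he' hne
    rw [Function.onFun, disjoint_left]
    intro μ hμ hμ'
    refine hne (funext fun j => ?_)
    by_cases hj : j ∈ T
    · have hjk := mem_range.1 (hT hj)
      obtain ⟨a1, a2⟩ := ((mem_bl_CutB hx).1 ((mem_filter.1 hμ).2 j hjk)).2.2.1 hj
      obtain ⟨a3, a4⟩ := ((mem_bl_CutB hx).1 ((mem_filter.1 hμ').2 j hjk)).2.2.1 hj
      have b1 := lt_of_mul_lt_mul_right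
        ((Real.rpow_lt_rpow_left_iff hx).1 (a1.trans_le a4)) h0.le
      have b2 := lt_of_mul_lt_mul_right
        ((Real.rpow_lt_rpow_left_iff hx).1 (a3.trans_le a2)) h0.le
      have b3 : e j < e' j + 1 := by exact_mod_cast b1
      have b4 : e' j < e j + 1 := by exact_mod_cast b2
      omega
    · rw [hS e he j hj, hS e' he' j hj]

lemma ev_sum_CutB {t : ℝ} {ι : Type} (S : Finset ι) (F : ι → ℝ → AF) (h : ∀ e ∈ S, Ev t (F e)) :
    Ev t fun x => ∑ e ∈ S, F e x := by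
  have h1 := Low.sum (t := t) S (F := F) (L := fun _ => 0) fun e he => (h e he).1
  have h2 := Up.sum (t := t) S (F := F) (L := fun _ => 0) fun e he => (h e he).2
  rw [sum_const_zero] at h1 h2
  exact ⟨h1, h2⟩

section

variable {k i : ℕ} {kind : ℕ → Kind} {T : Finset ℕ} {Q : Pt → Prop} {h x : ℝ}

/-- a link target has a cell -/
lemma link_CutB (hT : ∀ j < k, j ≠ i → j ∈ T) (hi : i ∉ T → kind i ≠ .P)
    {j : ℕ} (hj : j < k) (hP : kind j = .P) : j ∈ T := by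
  by_contra hn
  have : j = i := by
    by_contra hne
    exact hn (hT j hj hne)
  exact hi (this ▸ hn) (this ▸ hP)

lemma lv_CutB (hK : KV k kind) (hT : ∀ j < k, j ≠ i → j ∈ T) (hi : i ∉ T → kind i ≠ .P)
    (h0 : 0 < h) (h1 : h ≤ 1 / 100) {d : ℝ} (hd : 0 ≤ d) {e : ℕ → ℕ} {a : Pt}
    (ha : cmpB k T h e a) (hl : ∀ j < k, 1 / 50 ≤ a j) {j : ℕ} (hj : j < k) :
    1 / 100 ≤ lvB h d e j (kind j) := by
  have key : ∀ l < k, kind l = .P → 1 / 100 ≤ (e l : ℝ) * h := fun l hl' hP => by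
    have := (ha.2 l (link_CutB hT hi hl' hP)).2
    linarith [hl l hl']
  cases hk : kind j with
  | P => exact key j hj hk
  | R c => exact le_trans (by norm_num) ((hK j hj).1 c hk).1
  | L l =>
    obtain ⟨h2, h3⟩ := (hK j hj).2 l hk
    have := key l h2 h3
    show 1 / 100 ≤ (e l + d) * h
    nlinarith

lemma cmp_CutB (hx : 1 < x) (hT : T ⊆ range k) {d : ℝ} {e : ℕ → ℕ} {n : ℕ} {μ : ℕ → ℕ}
    (hμ : μ ∈ tup k n) (hn : |Real.logb x n - 1| ≤ h)
    (hm : ∀ j < k, (blB kind T h d e j).Mem x (μ j)) : cmpB k T h e (pt x μ) := by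
  refine ⟨by rwa [sum_pt_CutB x hμ], fun j hj => ?_⟩
  obtain ⟨a0, -, a1, -⟩ := (mem_bl_CutB hx).1 (hm j (mem_range.1 (hT hj)))
  have b0 : (0 : ℝ) < μ j := by exact_mod_cast Nat.pos_of_ne_zero a0
  exact ⟨(Real.le_logb_iff_rpow_le hx b0).2 (a1 hj).1.le,
    (Real.logb_le_iff_le_rpow hx b0).2 (a1 hj).2⟩

/-- an admissible tuple lies in an outer cell -/
lemma outer_CutB (hK : KV k kind) (hT' : T ⊆ range k) (hT : ∀ j < k, j ≠ i → j ∈ T)
    (hi : i ∉ T → kind i ≠ .P) (h0 : 0 < h) (hx : 2 ≤ x) {N : ℕ} (hN : 2 / h ≤ N) {n : ℕ}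
    (hn : Win x n) {μ : ℕ → ℕ} (hμ : μ ∈ tup k n) (hl : ∀ j < k, 1 / 50 ≤ pt x μ j)
    (hok : ∀ j < k, (kind j).ok x μ j) :
    ∃ e : ℕ → ℕ, (∀ j ∈ T, e j < N) ∧ (∀ j, j ∉ T → e j = 0) ∧
      ∀ j < k, (blB kind T h 0 e j).Mem x (μ j) := by
  have hx1 : 1 < x := by linarith
  obtain ⟨n0, hp, -⟩ := mem_tup.1 hμ
  have m0 : ∀ j < k, μ j ≠ 0 := fun j hj =>
    prod_ne_zero_iff.1 (hp.symm ▸ n0) j (mem_range.2 hj)
  have m1 : ∀ j < k, (0 : ℝ) < μ j := fun j hj => by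
    exact_mod_cast Nat.pos_of_ne_zero (m0 j hj)
  have m2 : ∀ j < k, (μ j : ℝ) ≤ x ^ (2 : ℝ) := fun j hj => by
    have b1 : μ j ≤ n :=
      Nat.le_of_dvd (Nat.pos_of_ne_zero n0) (hp ▸ dvd_prod_of_mem μ (mem_range.2 hj))
    have b2 : (μ j : ℝ) ≤ n := by exact_mod_cast b1
    rw [Real.rpow_two]
    nlinarith [hn.2]
  set e : ℕ → ℕ := fun j => if j ∈ T then ⌈pt x μ j / h⌉₊ - 1 else 0 with he
  have c1 : ∀ j ∈ T, (e j : ℝ) * h < pt x μ j ∧ pt x μ j ≤ (e j + 1 : ℝ) * h ∧ e j < N := by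
    intro j hj
    have hjk := mem_range.1 (hT' hj)
    have b0 : 0 < pt x μ j / h := div_pos (by linarith [hl j hjk]) h0
    have b1 : 0 < ⌈pt x μ j / h⌉₊ := Nat.ceil_pos.2 b0
    have b2 : e j + 1 = ⌈pt x μ j / h⌉₊ := by
      simp only [he, if_pos hj]
      omega
    have b3 : (e j + 1 : ℝ) = ⌈pt x μ j / h⌉₊ := by exact_mod_cast b2
    have b4 := Nat.le_ceil (pt x μ j / h)
    have b5 := Nat.ceil_lt_add_one b0.le
    have b6 : pt x μ j ≤ 2 := (Real.logb_le_iff_le_rpow hx1 (m1 j hjk)).2 (m2 j hjk)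
    have b7 : ⌈pt x μ j / h⌉₊ ≤ N :=
      Nat.ceil_le.2 ((div_le_div_of_nonneg_right b6 h0.le).trans hN)
    refine ⟨(lt_div_iff₀ h0).1 (by linarith), (div_le_iff₀ h0).1 (by linarith), by omega⟩
  have c2 : ∀ j ∈ T, x ^ ((e j : ℝ) * h) < μ j ∧ (μ j : ℝ) ≤ x ^ ((e j + 1 : ℝ) * h) :=
    fun j hj => ⟨(Real.lt_logb_iff_rpow_lt hx1 (m1 j (mem_range.1 (hT' hj)))).1 (c1 j hj).1,
      (Real.logb_le_iff_le_rpow hx1 (m1 j (mem_range.1 (hT' hj)))).1 (c1 j hj).2.1⟩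
  refine ⟨e, fun j hj => (c1 j hj).2.2, fun j hj => if_neg hj, fun j hj =>
    (mem_bl_CutB hx1).2 ⟨m0 j hj, ?_, c2 j, fun _ => m2 j hj⟩⟩
  have b := hok j hj
  cases hk : kind j with
  | P =>
    rw [hk] at b
    exact (rough_prime b).2 (c2 j (link_CutB hT hi hj hk)).1
  | R c =>
    rw [hk] at b
    exact b
  | L l =>
    rw [hk] at b
    obtain ⟨h2, h3⟩ := (hK j hj).2 l hk
    intro p hp hd
    have b1 : (μ l : ℝ) ≤ p := by exact_mod_cast b p hp hd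
    show x ^ (((e l : ℝ) + 0) * h) < p
    rw [add_zero]
    exact (c2 l (link_CutB hT hi h2 h3)).1.trans_le b1

lemma isP_CutB (h1 : h ≤ 1 / 100) {d : ℝ} {e : ℕ → ℕ} {j : ℕ} (hj : j ∈ T)
    (hk : kind j = .P) (hl : 1 / 100 ≤ lvB h d e j (kind j)) : (blB kind T h d e j).IsP := by
  unfold blB
  rw [if_pos hj]
  rw [hk] at hl ⊢
  have hl' : 1 / 100 ≤ (e j : ℝ) * h := hl
  exact ⟨by positivity, show (e j + 1 : ℝ) * h ≤ 2 * ((e j : ℝ) * h) by linarith, rfl⟩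

/-- a tuple in the inner blocks has the right kinds -/
lemma inner_CutB (hK : KV k kind) (hT : ∀ j < k, j ≠ i → j ∈ T) (hi : i ∉ T → kind i ≠ .P)
    (h1 : h ≤ 1 / 100) (hx : 1 < x) {e : ℕ → ℕ} {μ : ℕ → ℕ}
    (hl : ∀ j < k, 1 / 100 ≤ lvB h 1 e j (kind j))
    (hm : ∀ j < k, (blB kind T h 1 e j).Mem x (μ j)) : ∀ j < k, (kind j).ok x μ j := by
  intro j hj
  have b := ((mem_bl_CutB hx).1 (hm j hj)).2.1
  cases hk : kind j with
  | P =>
    exact (((isP_CutB h1 (link_CutB hT hi hj hk) hk (hl j hj)).mem_iff hx.le).1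
      (hm j hj)).1
  | R c =>
    rw [hk] at b
    exact b
  | L l =>
    rw [hk] at b
    obtain ⟨h2, h3⟩ := (hK j hj).2 l hk
    intro p hp hd
    have b1 := (((mem_bl_CutB hx).1 (hm l h2)).2.2.1 (link_CutB hT hi h2 h3)).2
    exact_mod_cast (b1.trans_lt (b p hp hd)).le

/-- outer but not inner blocks -/
lemma gap_CutB (hK : KV k kind) (hT : ∀ j < k, j ≠ i → j ∈ T) (hi : i ∉ T → kind i ≠ .P)
    (h0 : 0 < h) (hx : 1 < x) {e : ℕ → ℕ} {n : ℕ} {μ : ℕ → ℕ} (hμ : μ ∈ tup k n)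
    (hm : ∀ j < k, (blB kind T h 0 e j).Mem x (μ j))
    (hn : ¬ ∀ j < k, (blB kind T h 1 e j).Mem x (μ j)) :
    ∃ a b c : ℕ, n = a * b * c ∧ 1 < a ∧ 1 < b * c ∧
      |Real.logb x a - Real.logb x b - 0| ≤ h := by
  obtain ⟨n0, hp, -⟩ := mem_tup.1 hμ
  push Not at hn
  obtain ⟨j, hj, hn⟩ := hn
  obtain ⟨a0, a1, a2, a3⟩ := (mem_bl_CutB hx).1 (hm j hj)
  have a4 : ¬ Rough x (lvB h 1 e j (kind j)) (μ j) := fun b =>
    hn ((mem_bl_CutB hx).2 ⟨a0, b, a2, a3⟩)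
  cases hk : kind j with
  | P => rw [hk] at a1 a4; exact absurd a1 a4
  | R c => rw [hk] at a1 a4; exact absurd a1 a4
  | L l =>
    rw [hk] at a1 a4
    obtain ⟨h2, h3⟩ := (hK j hj).2 l hk
    have hne : j ≠ l := by
      rintro rfl
      rw [hk] at h3
      cases h3
    unfold Rough at a4
    push Not at a4
    obtain ⟨p, hp1, ⟨q, hq⟩, hp2⟩ := a4
    have hp3 : x ^ (((e l : ℝ) + 0) * h) < p := a1 p hp1 ⟨q, hq⟩
    have hp4 : (p : ℝ) ≤ x ^ (((e l : ℝ) + 1) * h) := hp2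
    rw [add_zero] at hp3
    obtain ⟨b0, -, b1, -⟩ := (mem_bl_CutB hx).1 (hm l h2)
    obtain ⟨b2, b3⟩ := b1 (link_CutB hT hi h2 h3)
    have b4 : (1 : ℝ) < μ l := (Real.one_le_rpow hx.le (by positivity)).trans_lt b2
    have b5 : 1 < μ l := by exact_mod_cast b4
    have b6 : n = p * μ l * (q * ∏ s ∈ ((range k).erase j).erase l, μ s) := by
      rw [← hp, ← mul_prod_erase _ μ (mem_range.2 hj),
        ← mul_prod_erase _ μ (mem_erase.2 ⟨hne.symm, mem_range.2 h2⟩), hq]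
      ring
    have p0 : (0 : ℝ) < p := by exact_mod_cast hp1.pos
    refine ⟨p, μ l, _, b6, hp1.one_lt, ?_, ?_⟩
    · refine b5.trans_le (Nat.le_mul_of_pos_right _ (Nat.pos_of_ne_zero fun b => n0 ?_))
      rw [b6, b, mul_zero]
    · have d1 := (Real.lt_logb_iff_rpow_lt hx p0).2 hp3
      have d2 := (Real.logb_le_iff_le_rpow hx p0).2 hp4
      have d3 := (Real.lt_logb_iff_rpow_lt hx (by linarith)).2 b2
      have d4 := (Real.logb_le_iff_le_rpow hx (by linarith)).2 b3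
      rw [abs_le]
      constructor <;> linarith

lemma rough_CutB {c : ℝ} {n : ℕ} {μ : ℕ → ℕ} (hμ : μ ∈ tup k n)
    (hm : ∀ j < k, Rough x c (μ j)) : Rough x c n := by
  intro p hp hd
  rw [← (mem_tup.1 hμ).2.1] at hd
  obtain ⟨j, hj, hd⟩ := (Nat.Prime.prime hp).exists_mem_finset_dvd hd
  exact hm j (mem_range.1 hj) p hp hd

end

/-- the cut lemma, with more information on the blocks -/
theorem cut_strong (h1 : PFStmt) (h2 : CntStmt) (h3 : BadStmt) (h4 : RowStmt) (t : ℝ) (k i : ℕ)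
    (kind : ℕ → Kind) (T : Finset ℕ) (Q : Pt → Prop) (hK : KV k kind) (hT' : T ⊆ range k)
    (hT : ∀ j < k, j ≠ i → j ∈ T) (hi : i ∉ T → kind i ≠ .P) (hQ : Tame k Q)
    (hl : ∀ a, Q a → ∀ j < k, 1 / 50 ≤ a j)
    (hE : ∀ (β : ℕ → Blk) (a : Pt), Q a → |∑ j ∈ range k, a j - 1| ≤ un →
      (∀ j ∈ T, Cl (kind j) (a j) (β j) ∧ (β j).b = none ∧ (β j).lo ≤ (β j).hi ∧
        (kind j ≠ .P → (kind j).lev a (β j).a)) →
      (∀ j < k, j ∉ T → ∃ z, β j = fr z ∧ 0 < z ∧ (kind j).lev a z) → Ev t (PF k β)) :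
    Ev t (SF k kind Q) := by
  classical
  obtain ⟨R, hR, hQ⟩ := hQ
  obtain ⟨C, hC0, hC⟩ := h2 k
  have key : ∀ δ : ℝ, 0 < δ → Low t (SF k kind Q) (0 + δ) ∧ Up t (SF k kind Q) (0 + δ) := by
    intro δ hδ
    obtain ⟨g, g0, hg⟩ := mass_CutB h3 h4 k R hR (δ / C) (div_pos hδ hC0)
    have hg' := hg.smul hC0.le
    rw [mul_div_cancel₀ _ hC0.ne'] at hg'
    have hk0 : (0 : ℝ) ≤ k := Nat.cast_nonneg k
    obtain ⟨h, h0, hu, hg1, hg2, hs⟩ : ∃ h : ℝ, 0 < h ∧ h ≤ un ∧ h ≤ g ∧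
        2 * k * ((k + 2 : ℝ) * h) ≤ g ∧ (k + 2 : ℝ) * h ≤ 1 / 100 := by
      have u0 : 0 < un := by norm_num [un]
      set w : ℝ := min un (min g (1 / 100)) with hw
      have w0 : 0 < w := lt_min u0 (lt_min g0 (by norm_num))
      have w1 : w ≤ un := min_le_left _ _
      have w2 : w ≤ g := (min_le_right _ _).trans (min_le_left _ _)
      have w3 : w ≤ 1 / 100 := (min_le_right _ _).trans (min_le_right _ _)
      set D : ℝ := (2 * k + 1) * (k + 2) with hD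
      have D0 : 0 < D := by positivity
      have e1 : D * (w / D) = w := mul_div_cancel₀ _ D0.ne'
      have e2 : 0 < w / D := div_pos w0 D0
      generalize w / D = v at e1 e2
      have e3 : 0 ≤ k * v := by positivity
      have e4 : 0 ≤ k * (k * v) := by positivity
      have e5 : 2 * (k * (k * v)) + 5 * (k * v) + 2 * v = w := by
        rw [← e1, hD]
        ring
      refine ⟨v, e2, by linarith, by linarith, ?_, ?_⟩ <;> nlinarith
    have hh : h ≤ 1 / 100 := by nlinarith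
    obtain ⟨E, hE'⟩ := cells_CutB T ⌈2 / h⌉₊
    set S₁ := E.filter fun e => ∃ a, cmpB k T h e a ∧ Q a with hS₁
    set S₀ := S₁.filter fun e => ∀ a, cmpB k T h e a → Q a with hS₀
    have z1 : ∀ e ∈ S₁, ∀ j, j ∉ T → e j = 0 := fun e he => ((hE' e).1 (mem_filter.1 he).1).2
    have z0 : ∀ e ∈ S₀, ∀ j, j ∉ T → e j = 0 := fun e he => z1 e (mem_filter.1 he).1
    have lv : ∀ d : ℝ, 0 ≤ d → ∀ e ∈ S₁, ∀ j < k, 1 / 100 ≤ lvB h d e j (kind j) := by
      intro d hd e he j hj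
      obtain ⟨a, ha, hQa⟩ := (mem_filter.1 he).2
      exact lv_CutB hK hT hi h0 hh hd ha (hl a hQa) hj
    have ev : ∀ d : ℝ, 0 ≤ d → d ≤ 1 → ∀ e ∈ S₁, Ev t (PF k (blB kind T h d e)) := by
      intro d hd hd1 e he
      obtain ⟨a, ha, hQa⟩ := (mem_filter.1 he).2
      have lev : ∀ j < k, kind j ≠ .P → (kind j).lev a (lvB h d e j (kind j)) := by
        intro j hj hne
        cases hk : kind j with
        | P => exact absurd hk hne
        | R c => exact le_rfl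
        | L l =>
          obtain ⟨b2, b3⟩ := (hK j hj).2 l hk
          have := (ha.2 l (link_CutB hT hi b2 b3)).1
          show (e l + d) * h ≤ a l + un
          nlinarith
      refine hE _ a hQa (ha.1.trans hu) (fun j hj => ?_) fun j hj hjT => ?_
      · have hjk := mem_range.1 (hT' hj)
        have b0 := fun hk => isP_CutB hh hj hk (lv d hd e he j hjk)
        obtain ⟨b1, b2⟩ := ha.2 j hj
        unfold blB at b0 ⊢
        rw [if_pos hj] at b0 ⊢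
        exact ⟨⟨show a j - un ≤ e j * h by linarith, show (e j + 1 : ℝ) * h ≤ a j + un by linarith,
          lv d hd e he j hjk, b0⟩, rfl, show e j * h ≤ (e j + 1 : ℝ) * h by linarith, lev j hjk⟩
      · exact ⟨_, if_neg hjT, lt_of_lt_of_le (by norm_num) (lv d hd e he j hj),
          lev j hj fun hk => hjT (link_CutB hT hi hj hk)⟩
    have e1 := ev_sum_CutB S₁ _ (ev 0 le_rfl zero_le_one)
    have e0 := ev_sum_CutB S₀ _ fun e he => ev 1 zero_le_one le_rfl e (mem_filter.1 he).1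
    have main : ∀ᶠ x : ℝ in atTop, ∀ n, Win x n →
        (∑ e ∈ S₀, PF k (blB kind T h 1 e) x) n ≤ SF k kind Q x n ∧
        SF k kind Q x n ≤ (∑ e ∈ S₁, PF k (blB kind T h 0 e) x) n ∧
        (∑ e ∈ S₁, PF k (blB kind T h 0 e) x) n ≤ (∑ e ∈ S₀, PF k (blB kind T h 1 e) x) n +
          (C • ind fun n => badB g x n ∨ ∃ r ∈ R, slabB k r g x n) n := by
      filter_upwards [hC, win_CutB h0, eventually_ge_atTop 2] with x hC hw hx n hn
      have hx1 : 1 < x := by linarith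
      have hw := hw n hn
      rw [card_CutB h1 hT' h0 hx1 S₀ z0, card_CutB h1 hT' h0 hx1 S₁ z1, SF_eq_CutB, AF_smul]
      refine ⟨cn_mono_CutB ?_, cn_mono_CutB ?_, ?_⟩
      · rintro μ hμ ⟨e, he, hm⟩
        exact ⟨(mem_filter.1 he).2 _ (cmp_CutB hx1 hT' hμ hw hm),
          inner_CutB hK hT hi hh hx1 (lv 1 zero_le_one e (mem_filter.1 he).1) hm⟩
      · rintro μ hμ ⟨b1, b2⟩
        obtain ⟨e, c1, c2, c3⟩ :=
          outer_CutB hK hT' hT hi h0 hx (Nat.le_ceil (2 / h)) hn hμ (hl _ b1) b2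
        exact ⟨e, mem_filter.2 ⟨(hE' e).2 ⟨c1, c2⟩, _, cmp_CutB hx1 hT' hμ hw c3, b1⟩, c3⟩
      · by_cases hb : ∀ μ ∈ tup k n, inB k kind T h 0 x S₁ μ → inB k kind T h 1 x S₀ μ
        · exact (cn_mono_CutB hb).trans
            (le_add_of_nonneg_right (mul_nonneg hC0.le (ind_nonneg_CutB _ _)))
        push Not at hb
        obtain ⟨μ, hμ, ⟨e, he, hm⟩, hb⟩ := hb
        have r1 : ∀ j < k, Rough x (1 / 100) (μ j) := fun j hj =>
          ((mem_bl_CutB hx1).1 (hm j hj)).2.1.anti hx1.le (lv 0 le_rfl e he j hj)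
        have r2 := rough_CutB hμ r1
        have r3 : badB g x n ∨ ∃ r ∈ R, slabB k r g x n := by
          by_cases he0 : e ∈ S₀
          · obtain ⟨a, b, c, d1, d2, d3, d4⟩ :=
              gap_CutB hK hT hi h0 hx1 hμ hm fun d => hb ⟨e, he0, d⟩
            exact Or.inl ⟨r2, a, b, c, d1, d2, d3, d4.trans hg1⟩
          obtain ⟨a, ha, hQa⟩ := (mem_filter.1 he).2
          have d0 : ¬ ∀ a, cmpB k T h e a → Q a := fun d => he0 (mem_filter.2 ⟨he, d⟩)
          push Not at d0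
          obtain ⟨a', ha', hQa'⟩ := d0
          have d1 : ¬ ∀ r ∈ R, r.Same a a' := fun d => hQa' (hQ a a' d hQa)
          push Not at d1
          obtain ⟨r, hr, d1⟩ := d1
          have d2 := cmp_CutB hx1 hT' hμ hw hm
          have d3 : (0 : ℝ) ≤ (k + 2 : ℝ) * h := by positivity
          refine Or.inr ⟨r, hr, μ, hμ, fun j hj => ⟨?_, r1 j hj⟩, (side_CutB d1
            (val_CutB (hR r hr) d3 fun j hj => near_CutB h0.le hT d2 ha hj)
            (val_CutB (hR r hr) d3 fun j hj => near_CutB h0.le hT d2 ha' hj)).trans hg2⟩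
          have d4 := (abs_le.1 (near_CutB h0.le hT d2 ha hj)).1
          have d5 : 0 < Real.logb x (μ j) := by
            have : pt x μ j = Real.logb x (μ j) := rfl
            linarith [hl a hQa j hj]
          by_contra d6
          have d7 : μ j = 1 := by
            have := ((mem_bl_CutB hx1).1 (hm j hj)).1
            omega
          rw [d7] at d5
          simp at d5
        rw [ind_eq_CutB (mem_tup.1 hμ).1 r3, mul_one]
        exact ((cn_le_CutB _ _ _).trans (hC n hn.2 r2)).trans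
          (le_add_of_nonneg_left (Nat.cast_nonneg _))
    exact ⟨Low.of_le e0.1 hg' (main.mono fun x hx n hn =>
        ⟨(hx n hn).1, (hx n hn).2.1.trans (hx n hn).2.2⟩),
      Up.of_le e1.2 hg' (main.mono fun x hx n hn =>
        ⟨(hx n hn).2.1, (hx n hn).2.2.trans (add_le_add (hx n hn).1 le_rfl)⟩)⟩
  exact ⟨Low.of_forall fun δ hδ => (key δ hδ).1, Up.of_forall fun δ hδ => (key δ hδ).2⟩

theorem xCutB (h1 : PFStmt) (h2 : CntStmt) (h3 : BadStmt) (h4 : RowStmt) : CutStmt :=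
  fun t k i kind T Q _ hK hT' hT hi hQ hl hE =>
    cut_strong h1 h2 h3 h4 t k i kind T Q hK hT' hT hi hQ hl fun β a b1 b2 b3 b4 =>
      hE β a b1 b2 (fun j hj => (b3 j hj).1) b4

end Pool.Agent.MP_c853c5_nt.X

end

section

set_option autoImplicit false

namespace Pool.Agent.MP_c853c5_nt.X

theorem xCut2 (h1 : PFStmt) (h2 : CntStmt) (h3 : BadStmt) (h4 : RowStmt) : CutStmt2 :=
  fun t k i kind T Q _ hK hT' hT hi hQ hl hE =>
    cut_strong h1 h2 h3 h4 t k i kind T Q hK hT' hT hi hQ hl fun β a b1 b2 b3 b4 =>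
      hE β a b1 b2 (fun j hj => ⟨(b3 j hj).1, (b3 j hj).2.1, (b3 j hj).2.2.2⟩) b4

end Pool.Agent.MP_c853c5_nt.X

end

section

/-!
The rules of the calculus, without hypotheses.
-/

set_option autoImplicit false

namespace Pool.Agent.MP_c853c5_nt.X

theorem cut2_all : CutStmt2 := xCut2 xPF xCnt xBad (xRow xBad)

theorem rules_all : Rules :=
  ⟨xMono xTame, xEmpty, xSplit xTame, xDown xTame, xUp xTame, xDrop xPF, xLeaf2 cut2_all.cut,
    xLeafS cut2_all.cut, xRoot xTame⟩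

theorem leafS2_rule : LeafS2Stmt := xLeafS2 cut2_all

end Pool.Agent.MP_c853c5_nt.X

end

section

/-!
Soundness of the selection of the further rules.
-/

set_option autoImplicit false

namespace Pool.Agent.MP_c853c5_nt.X

open Pool.Agent.MP_c853c5_nt.S Pool.Agent.MP_c853c5_nt.REG

variable {t : ℝ}

theorem noR_ok (t : ℝ) : XTok t noR := fun _ _ _ _ _ _ _ g => absurd g (lt_irrefl _)

theorem XT_ok {f g : Rule} {sub : BT Rule} (hf : XTok t f) (hg : XTok t g)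
    (hs : sub.All (XTok t)) : XTok t (XT f g sub) := fun T ih hT hH sg S s => by
  simp only [XT, force_eq, cnd_eq]
  split_ifs
  exacts [hf T ih hT hH _ _ _, hg T ih hT hH _ _ _, hs.find _ T ih hT hH _ _ _]

theorem carveR_ok (R : Rules) {tn : ℕ} (h1 : 1 / 3 ≤ t) (h2 : t < (tn : ℝ) / SC)
    (h4 : 2 * tn ≤ SC) (hL : Leaf2) {PL : BT PP} (hx : PL.All (PP.Good tn)) :
    XTok t (carveR PL) := fun _ _ _ hH => by
  have : (2 : ℝ) * tn ≤ SC := by exact_mod_cast h4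
  exact carve_ok R h1 h2 ((div_le_iff₀ SC_pos).2 (by linarith)) hL hx hH

end Pool.Agent.MP_c853c5_nt.X

end

section

/-!
The bounds do not depend on the order of the blocks.
-/

set_option autoImplicit false

open Finset

namespace Pool.Agent.MP_c853c5_nt.X

/-- the kind `κ'` in the new order is the kind `κ` in the old order -/
def Kind.Rel (σ : ℕ → ℕ) (κ' κ : Kind) : Prop :=
  (κ' = .P ∧ κ = .P) ∨ (∃ c, κ' = .R c ∧ κ = .R c) ∨ ∃ l, κ' = .L l ∧ κ = .L (σ l)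

variable {k : ℕ} {σ : Equiv.Perm ℕ}

lemma perm_lt (h : ∀ j, k ≤ j → σ j = j) {j : ℕ} : σ j < k ↔ j < k := by
  constructor <;> intro g <;> by_contra g'
  · exact g' (h j (not_lt.1 g') ▸ g)
  · exact g' ((σ.injective (h _ (not_lt.1 g'))).symm ▸ g)

lemma perm_symm (h : ∀ j, k ≤ j → σ j = j) : ∀ j, k ≤ j → σ.symm j = j := fun j hj =>
  σ.symm_apply_eq.2 (h j hj).symm

lemma perm_range (h : ∀ j, k ≤ j → σ j = j) : (range k).map σ.toEmbedding = range k := by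
  ext j
  rw [mem_map_equiv, mem_range, mem_range, perm_lt (perm_symm h)]

lemma Tame.perm (h : ∀ j, k ≤ j → σ j = j) {Q : Pt → Prop} (hQ : Tame k Q) :
    Tame k fun a => Q (a ∘ σ) := by
  obtain ⟨R, h1, h2⟩ := hQ
  have e := perm_range h
  refine ⟨R.map fun r => ⟨r.A.map σ.toEmbedding, r.B.map σ.toEmbedding, r.e⟩, fun r hr => ?_,
    fun a a' ha => h2 _ _ fun r hr => ?_⟩
  · obtain ⟨q, hq, rfl⟩ := List.mem_map.1 hr
    obtain ⟨g1, g2, g3, g4, g5, g6⟩ := h1 q hq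
    refine ⟨e ▸ map_subset_map.2 g1, e ▸ map_subset_map.2 g2, (disjoint_map _).2 g3, ?_,
      fun g => g5 (map_injective _ (g.trans e.symm)), fun g => g6 (map_injective _ (g.trans e.symm))⟩
    obtain ⟨j, hj⟩ := g4
    exact ⟨σ j, by simpa using hj⟩
  · simpa [Row.Same, Row.val] using ha _ (List.mem_map_of_mem hr)

lemma tup_perm (h : ∀ j, k ≤ j → σ j = j) {n : ℕ} {μ : ℕ → ℕ} (hμ : μ ∈ tup k n) :
    μ ∘ σ ∈ tup k n := by
  rw [mem_tup] at hμ ⊢
  refine ⟨hμ.1, ?_, fun j hj => ?_⟩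
  · rw [← hμ.2.1]
    conv_rhs => rw [← perm_range h, prod_map]
    rfl
  · rw [Function.comp_apply, h j hj, hμ.2.2 j hj]

lemma Kind.Rel.ok {κ' κ : Kind} (h : κ'.Rel σ κ) (x : ℝ) (μ : ℕ → ℕ) (j : ℕ) :
    κ'.ok x (μ ∘ σ) j ↔ κ.ok x μ (σ j) := by
  rcases h with ⟨rfl, rfl⟩ | ⟨c, rfl, rfl⟩ | ⟨l, rfl, rfl⟩ <;> rfl

lemma SF_perm (h : ∀ j, k ≤ j → σ j = j) {kind kind' : ℕ → Kind}
    (hk : ∀ j < k, (kind' j).Rel σ (kind (σ j))) (Q : Pt → Prop) :
    SF k kind' (fun a => Q (a ∘ σ.symm)) = SF k kind Q := by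
  classical
  funext x
  ext n
  refine congrArg Nat.cast (card_nbij' (· ∘ σ) (· ∘ σ.symm) (fun μ hμ => ?_) (fun μ hμ => ?_)
    (fun μ _ => ?_) fun μ _ => ?_).symm
  · rw [mem_coe, mem_filter] at hμ ⊢
    refine ⟨tup_perm h hμ.1, ?_, fun j hj => ((hk j hj).ok x μ j).2 (hμ.2.2 _ ((perm_lt h).2 hj))⟩
    convert hμ.2.1 using 1
    funext j
    simp [pt]
  · rw [mem_coe, mem_filter] at hμ ⊢
    refine ⟨tup_perm (perm_symm h) hμ.1, hμ.2.1, fun j hj => ?_⟩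
    have g := (perm_lt (perm_symm h)).2 hj
    have := ((hk _ g).ok x (μ ∘ σ.symm) _).1 (by
      convert hμ.2.2 _ g using 1
      funext i
      simp)
    rwa [Equiv.apply_symm_apply] at this
  · funext j
    simp
  · funext j
    simp

/-- the new block `j` is the old block `σ j` -/
theorem H.perm {sg : Bool} {t l : ℝ} (h : ∀ j, k ≤ j → σ j = j) {kind kind' : ℕ → Kind}
    (hk : ∀ j < k, (kind' j).Rel σ (kind (σ j))) {Ω : Pt → Prop} (hH : H sg t k kind' Ω l) :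
    H sg t k kind (fun a => Ω (a ∘ σ)) l := fun Q hQ hΩ => by
  rw [← SF_perm h hk]
  refine hH _ (hQ.perm (perm_symm h)) fun a ha => ⟨?_, fun j hj => ?_⟩
  · convert (hΩ _ ha).1 using 1
    funext j
    simp
  · simpa using (hΩ _ ha).2 _ ((perm_lt h).2 hj)

lemma KV.perm (h : ∀ j, k ≤ j → σ j = j) {kind kind' : ℕ → Kind}
    (hk : ∀ j < k, (kind' j).Rel σ (kind (σ j))) (hv : KV k kind) : KV k kind' := fun j hj => by
  obtain ⟨v1, v2⟩ := hv _ ((perm_lt h).2 hj)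
  rcases hk j hj with ⟨e, _⟩ | ⟨c, e, e'⟩ | ⟨l, e, e'⟩ <;> rw [e]
  · simp
  · simpa using v1 c e'
  · obtain ⟨g1, g2⟩ := v2 _ e'
    have g3 := (perm_lt h).1 g1
    rcases hk l g3 with ⟨f, _⟩ | ⟨c, _, f⟩ | ⟨m, _, f⟩
    · simpa using ⟨g3, f⟩
    · exact absurd (g2.symm.trans f) (by simp)
    · exact absurd (g2.symm.trans f) (by simp)

/-- a map of `range k` onto itself is a permutation -/
lemma perm_of (f : ℕ → ℕ) (h1 : ∀ j < k, f j < k) (h2 : ∀ i < k, ∃ j < k, f j = i) :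
    ∃ σ : Equiv.Perm ℕ, (∀ j, k ≤ j → σ j = j) ∧ ∀ j < k, σ j = f j := by
  have s : Function.Surjective fun j : Fin k => (⟨f j, h1 j j.2⟩ : Fin k) := fun i => by
    obtain ⟨j, hj, e⟩ := h2 i i.2
    exact ⟨⟨j, hj⟩, Fin.ext e⟩
  have i := Finite.injective_iff_surjective.2 s
  refine ⟨Equiv.ofBijective (fun j => if j < k then f j else j) ⟨fun p q e => ?_, fun p => ?_⟩,
    fun j hj => if_neg hj.not_gt, fun j hj => if_pos hj⟩
  · by_cases hp : p < k <;> by_cases hq : q < k <;> simp only [hp, hq, if_true, if_false] at e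
    · exact congrArg Fin.val (@i ⟨p, hp⟩ ⟨q, hq⟩ (Fin.ext e))
    · exact absurd (e ▸ h1 p hp) hq
    · exact absurd (e ▸ h1 q hq) hp
    · exact e
  · by_cases hp : p < k
    · obtain ⟨j, hj, e⟩ := h2 p hp
      exact ⟨j, (if_pos hj).trans e⟩
    · exact ⟨p, if_neg hp⟩

end Pool.Agent.MP_c853c5_nt.X

end

section

/-!
Soundness of references through a permutation of the blocks.
-/

set_option autoImplicit false

open Finset

namespace Pool.Agent.MP_c853c5_nt.X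

open Pool.Agent.MP_c853c5_nt.S Pool.Agent.MP_c853c5_nt.REG

variable {S : NS} {A : ℕ → Finset ℕ} {a : Pt} {G : ℕ} {σ : Equiv.Perm ℕ}

/-- flat coordinates -/
def flat (k : ℕ) : ℕ → Finset ℕ := fun j => if j = 0 then range k else {j}

lemma trP_cons (e : ℕ) (l : List ℕ) : trP S G (e :: l) =
    cnd (Nat.beq (nd e) 0) (e :: trP S G l)
      (app (sclL (e >>> 4) (pl S.par S.k (one (d4 G (nd e))))) (trP S G l)) := rfl

lemma trN_cons (e : ℕ) (l : List ℕ) : trN S G (e :: l) =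
    cnd (Nat.beq (nd e) 0) (trN S G l)
      (app (sclL (e >>> 4) (nl S.par S.k (one (d4 G (nd e))))) (trN S G l)) := rfl

lemma tr_lt (h : 1 ≤ S.k) (l : List ℕ) :
    (∀ e ∈ trP S G l, nd e < S.k) ∧ ∀ e ∈ trN S G l, nd e < S.k := by
  induction l with
  | nil => exact ⟨fun _ g => (List.not_mem_nil g).elim, fun _ g => (List.not_mem_nil g).elim⟩
  | cons e l ih =>
    rw [trP_cons, trN_cons, app_eq, app_eq, cnd_eq, cnd_eq]
    split_ifs with c
    · exact ⟨List.forall_mem_cons.2 ⟨(Nat.eq_of_beq_eq_true c).trans_lt h, ih.1⟩, ih.2⟩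
    · exact ⟨fun f g => (List.mem_append.1 g).elim
          ((sclL_ok _ (fun _ => 0) _).2 (pl_nd _ _ _) f) (ih.1 f),
        fun f g => (List.mem_append.1 g).elim
          ((sclL_ok _ (fun _ => 0) _).2 (nl_nd _ _ _) f) (ih.2 f)⟩

lemma trR_in (h : 1 ≤ S.k) (q : Rw) : (trR S G q).In S.k := by
  simp only [trR, Rw.In, app_eq, List.mem_append]
  exact ⟨fun e g => g.elim ((tr_lt h _).1 e) ((tr_lt h _).2 e),
    fun e g => g.elim ((tr_lt h _).1 e) ((tr_lt h _).2 e)⟩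

lemma tr_sum (hI : Inv S A) (h1 : ∀ j, S.k ≤ j → σ j = j) (h2 : ∀ j < S.k, σ j = d4 G j)
    {l : List ℕ} (hl : ∀ e ∈ l, nd e < S.k) : (l.map (W (Y (flat S.k) (a ∘ σ)))).sum =
      ((trP S G l).map (W (Y A a))).sum - ((trN S G l).map (W (Y A a))).sum := by
  induction l with
  | nil => simp [trP, trN]
  | cons e l ih =>
    rw [List.forall_mem_cons] at hl
    rw [List.map_cons, List.sum_cons, ih hl.2, trP_cons, trN_cons, cnd_eq, cnd_eq, app_eq, app_eq]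
    simp only [Nat.beq_eq]
    split_ifs with g
    · have : Y (flat S.k) (a ∘ σ) 0 = Y A a 0 := by
        rw [Y, Y, flat, if_pos rfl, hI.top]
        conv_rhs => rw [← perm_range h1, sum_map]
        rfl
      rw [List.map_cons, List.sum_cons, W, W, g, this]
      ring
    · have := hI.ms (one (d4 G (nd e))) a
      rw [ms_one (h2 _ hl.1 ▸ (perm_lt h1).2 hl.1)] at this
      rw [W, Y, flat, if_neg g, sum_singleton, Function.comp_apply, h2 _ hl.1, this]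
      simp only [List.map_append, List.sum_append, (sclL_ok _ _ (k := 0) _).1, cf, Nat.cast_succ,
        Nat.shiftRight_eq]
      ring

lemma trR_ok (hI : Inv S A) (ha : Om S A a) (h1 : ∀ j, S.k ≤ j → σ j = j)
    (h2 : ∀ j < S.k, σ j = d4 G j) {q : Rw} (hq : q.In S.k) {d : ℕ}
    (h : imp S (trR S G q) d = true) : q.ok (Y (flat S.k) (a ∘ σ)) := by
  have := imp_ok h hI ha (trR_in hI.pos q)
  simp only [trR, Rw.ok, app_eq, List.map_append, List.sum_append] at this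
  rw [Rw.ok, tr_sum hI h1 h2 hq.1, tr_sum hI h1 h2 hq.2]
  linarith

lemma impL_ok {K : ℕ → Bool} {rs : List Rw} {D : ℕ} (h : impL S G K rs D = true) :
    (∀ q ∈ rs, q.In S.k ∧ ∃ d, imp S (trR S G q) d = true) ∧ ∃ D', K D' = true := by
  induction rs generalizing D with
  | nil => exact ⟨fun _ g => (List.not_mem_nil g).elim, D, h⟩
  | cons q rs ih =>
    have h' : band (band (band (inL S.k q.l1) (inL S.k q.l2)) (imp S (trR S G q) (get D 0)))
      (impL S G K rs (Nat.shiftRight D 24)) = true := h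
    simp only [band_eq, Bool.and_eq_true, inL, allL_iff, Nat.blt_eq] at h'
    exact ⟨List.forall_mem_cons.2 ⟨⟨h'.1.1, _, h'.1.2⟩, (ih h'.2).1⟩, (ih h'.2).2⟩

lemma kdP_ok {k p q : ℕ} (h2 : ∀ j < k, σ j = d4 G j) (h : kdP k G p q = true) :
    (kindOf p).Rel σ (kindOf q) := by
  simp only [kdP, cnd_eq, bor_eq, band_eq, Bool.or_eq_true, Nat.beq_eq, Nat.blt_eq] at h
  split_ifs at h with g
  · rw [Nat.beq_eq] at h
    subst h
    rcases g with g | g
    · exact .inl ⟨if_pos g, if_pos g⟩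
    · have : kindOf q = .R ((q : ℝ) / SC) := by rw [kindOf, if_neg (by omega), if_neg (by omega)]
      exact .inr (.inl ⟨_, this, this⟩)
  · rw [Bool.and_eq_true, Nat.ble_eq, Nat.beq_eq, Nat.pred_eq_sub_one, ← h2 _ (by omega)] at h
    have : σ (p - 1) < 16 := by
      rw [h2 _ (by omega)]
      exact Nat.mod_lt _ (by norm_num)
    refine .inr (.inr ⟨p - 1, by rw [kindOf, if_neg (by omega), if_pos (by omega)], ?_⟩)
    rw [kindOf, if_neg (by omega), if_pos (by omega), h.2]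
    rfl

theorem leafP_ok {t : ℝ} {sg : Bool} {x : Rf} (hx : Val t x.sg x.S x.l) (G D : ℕ) :
    Val t sg S (leafP sg S x G D) := by
  refine Val.grd fun g hl A hI => ?_
  simp only [band_eq, Bool.and_eq_true, Nat.beq_eq, Nat.blt_eq, allN_iff, anyN_iff] at g
  obtain ⟨⟨hs, hk, hp⟩, hG, hr⟩ := g
  obtain ⟨σ, h1, h2⟩ := perm_of (d4 G) (fun j hj => (hG j hj).1.1) fun j hj => (hG j hj).1.2
  obtain ⟨hr, D', hb⟩ := impL_ok hr
  simp only [impB, band_eq, bor_eq, Bool.and_eq_true, Bool.or_eq_true, Nat.ble_eq, allN_iff] at hb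
  have e : x.sg = sg := by
    revert hs
    cases sg <;> cases x.sg <;> simp [cnd, bnot]
  have hK : ∀ j < S.k, (x.S.kind j).Rel σ (S.kind (σ j)) := fun j hj => by
    rw [h2 j hj]
    exact kdP_ok h2 (hG j hj).2
  have g0 : ∀ j, get x.S.par j = 0 := fun j => by simp [hp, get_eq]
  have sb : ∀ j < S.k, flat S.k j ⊆ range S.k ∧ j ∈ flat S.k j ∧ (j ≠ 0 → 0 ∉ flat S.k j) :=
    fun j hj => by
      unfold flat
      split_ifs with f
      · exact ⟨Subset.rfl, mem_range.2 hj, fun f' => (f' f).elim⟩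
      · exact ⟨by simpa using hj, mem_singleton_self _, fun _ => by simpa using Ne.symm f⟩
  have := hx hl (flat S.k) ⟨hk ▸ hI.pos, hk ▸ hI.kv.perm h1 hK, fun j f _ => by rw [g0]; omega,
    hk ▸ sb, hk ▸ if_pos rfl, fun b i _ => ?_, fun q hq => hk ▸ (hr q hq).1,
    hk ▸ hI.le⟩
  · rw [e, ← hk] at this
    refine fun Q hQ hΩ => this.perm h1 hK Q hQ fun a ha => ⟨⟨fun j hj => ?_, fun q hq => ?_⟩,
      (hΩ a ha).2⟩
    · rw [← hk] at hj
      have i0 := (nd_le j).trans_lt hj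
      have i1 : ∀ c, Rw.In ⟨c, [], 0, [j]⟩ S.k := fun c => ⟨by simp, by simpa using i0⟩
      have i2 : ∀ c, Rw.In ⟨0, [j], c, []⟩ S.k := fun c => ⟨by simpa using i0, by simp⟩
      have w := W_lt (hj.trans_le hI.le)
      refine ⟨(hb j hj).1.elim (fun f => ?_) fun f => ?_, ?_⟩
      · have b : ∀ i < S.k, 1 / 50 ≤ (a ∘ σ) i := fun i hi => (hΩ a ha).2 _ ((perm_lt h1).2 hi)
        refine le_trans ?_ ((b j hj).trans (single_le_sum (f := a ∘ σ) (fun i hi =>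
          le_trans (by norm_num) (b i (mem_range.1 ((sb j hj).1 hi)))) (sb j hj).2.1))
        rw [div_le_iff₀ SC_pos]
        norm_num [SC]
        exact f
      · simpa [Rw.ok, w] using trR_ok hI (hΩ a ha).1 h1 h2 (i1 _) f
      · simpa [Rw.ok, w] using trR_ok hI (hΩ a ha).1 h1 h2 (i2 _) (hb j hj).2
    · obtain ⟨f, d, f'⟩ := hr q hq
      exact trR_ok hI (hΩ a ha).1 h1 h2 f f'
  · simp only [g0, ← hk, Y]
    by_cases f : i = 0
    · subst f
      rw [flat, if_pos rfl, filter_true_of_mem fun _ _ => rfl, range_eq_Ico,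
        sum_eq_sum_Ico_succ_bot hI.pos]
      refine congrArg _ (sum_congr rfl fun j hj => ?_)
      rw [flat, if_neg (by have := (mem_Ico.1 hj).1; omega), sum_singleton]
    · rw [flat, if_neg f, filter_false_of_mem fun _ _ => Ne.symm f, sum_singleton, sum_empty,
        add_zero]

theorem refP_ok {t : ℝ} {T : BT Rf} (hT : T.All fun x => Val t x.sg x.S x.l) (sg : Bool) (S : NS)
    (s : ℕ) : Val t sg S (refP T sg S s) := by
  rw [refP, force_eq, force_eq]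
  exact leafP_ok (hT.find _) _ _

end Pool.Agent.MP_c853c5_nt.X

end

section

/-!
Soundness of the rule for the uniform leaves with the mixed fourth moment.
-/

set_option autoImplicit false

open Finset

namespace Pool.Agent.MP_c853c5_nt.X

open Pool.Agent.MP_c853c5_nt.S Pool.Agent.MP_c853c5_nt.REG Pool.Agent.MP_c853c5_nt.Y

variable {S : NS} {A : ℕ → Finset ℕ} {t : ℝ} {sg : Bool} {tn : ℕ}

def CvOK (t : ℝ) (cv : Cv) : Prop := ∀ (sg : Bool) (ih : NS → ℕ → ℕ),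
  (∀ S s, Val t sg S (ih S s)) → ∀ (S : NS) (G : ℕ) (P : List (ℕ × ℕ)) (v : ℕ) (A : ℕ → Finset ℕ),
    Inv S A → H sg t S.k S.kind (fun a => Om S A a ∧ ∀ y ∈ P, Pr S.k G y a) 0 →
    cv ih S G P v < INF → H sg t S.k S.kind (Om S A) ((cv ih S G P v : ℝ) / 10 ^ 9)

theorem cv1_ok (t : ℝ) : CvOK t cv1 := fun sg ih hH S G P v A hI h hl => by
  obtain ⟨r, e, hr⟩ := row_ok hI G false
  rw [cv1, force_eq, e] at hl ⊢
  exact (crv_ok hH hI.le _ _ _ _ r _ _ hI hr h hl).anti fun _ ha => ⟨ha, ha⟩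

theorem cv2_ok (t : ℝ) {im : NS → Rw → ℕ → Bool} (hm : Imok im) : CvOK t (cv im) :=
  fun _ _ hH _ _ _ _ _ hI h hl => cv_ok hm hH hI h hl

/-- the level of the block `i` is at most `z` -/
def Lz (S : NS) (i z : ℕ) (a : Pt) : Prop := ∀ y, (S.kind i).lev a y → y ≤ (z : ℝ) / SC

/-- a row at the point itself -/
lemma Pr.self {k G i : ℕ} {y : ℕ × ℕ} {a : Pt} (h : Pr k G y a) (hi : i < k)
    (h0 : wt y.1 G i = 0) (h1 : ∀ m < k, 1 / 50 ≤ a m) (hs : |∑ m ∈ range k, a m - 1| ≤ un) :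
    ∑ m ∈ range k, wt y.1 G m * a m ≤ (y.2 : ℝ) / SC := by
  have u := un_eq_SndL
  obtain ⟨s1, s2⟩ := abs_le.1 hs
  have := h (fun m => a m + if m = i then 1 - ∑ m ∈ range k, a m else 0) (fun m hm => by
    have := h1 m hm
    split_ifs
    · exact ⟨by linarith, by linarith, by linarith⟩
    · exact ⟨by linarith, by linarith, by linarith⟩) (by simp [sum_add_distrib, hi])
  simpa [mul_add, sum_add_distrib, hi, h0] using this

def K1 (g : ℕ) : ℕ := if g = 1 then 1 else if g = 3 then 2 else 0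
def K2 (g : ℕ) : ℕ := if g = 1 then 1 else if g = 2 then 2 else 0
def K3 (g : ℕ) : ℕ := if g = 0 then 1 else 0

lemma row_fin {r G n c μ α β γ : ℕ} {e : Fin r → ℕ} {a : Pt} {w : Fin r → ℝ} {x : ℝ} (hr : r ≤ 16)
    (hG : ∀ m, d4 G (e m) < n) (hw : ∀ m, w m ≤ a (e m) + un)
    (hc : ∀ g < n, dg c (12 * g) = α * K1 g + β * K2 g + γ * K3 g ∧ dg c (12 * g) ≤ μ)
    (h : ∑ m, wt c G (e m) * a (e m) ≤ x) :
    α * ∑ m, (K1 (d4 G (e m)) : ℝ) * w m + β * ∑ m, (K2 (d4 G (e m)) : ℝ) * w m +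
      γ * ∑ m, (K3 (d4 G (e m)) : ℝ) * w m ≤ x + 16 * μ / 1000000 := by
  have u := un_eq_SndL
  have r' : (r : ℝ) ≤ 16 := by exact_mod_cast hr
  have : ∑ m, wt c G (e m) * w m ≤ ∑ m : Fin r, (wt c G (e m) * a (e m) + μ * un) :=
    sum_le_sum fun m _ => by
      have h1 : wt c G (e m) ≤ μ := Nat.cast_le.2 (hc _ (hG m)).2
      have h2 : 0 ≤ wt c G (e m) := Nat.cast_nonneg _
      nlinarith [mul_le_mul_of_nonneg_left (hw m) h2]
  rw [sum_add_distrib, sum_const, card_univ, Fintype.card_fin, nsmul_eq_mul] at this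
  rw [mul_sum, mul_sum, mul_sum, ← sum_add_distrib, ← sum_add_distrib]
  refine le_trans (le_of_eq (sum_congr rfl fun m _ => ?_)) (this.trans ?_)
  · rw [wt, (hc _ (hG m)).1]
    push_cast
    ring
  · have : (0 : ℝ) ≤ μ := Nat.cast_nonneg _
    rw [u]
    nlinarith

lemma sub_UW {x y : ℕ} (h : y ≤ x) : ((x - y : ℕ) : ℝ) / SC = ((x : ℝ) - y) / 1000000 := by
  rw [Nat.cast_sub h, SC_eq_SndL]

lemma fin_UW {τ δ x y m : ℝ} (h0 : 1 / 1000000 ≤ δ) (h1 : 2 * τ + 2 * δ ≤ 1) (h2 : τ + δ + m ≤ 1)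
    (h3 : x ≤ τ ∨ x + 3 * τ + 2 * δ + 2 / 1000000 ≤ 2 ∧ x + τ + 2 * m + 2 / 1000000 ≤ 2)
    (h4 : y ≤ τ ∨ y + 3 * τ + 2 * δ + 2 / 1000000 ≤ 2 ∧ y + τ + 2 * m + 2 / 1000000 ≤ 2)
    (h5 : x ≤ τ ∨ y ≤ τ ∨ x + y + 2 * τ + 2 * δ + 2 / 1000000 ≤ 2 ∧ x + y + 2 * m + 2 / 1000000 ≤ 2) :
    ∃ W : ℝ, max τ x + max τ y ≤ 2 * W ∧ τ + δ + m ≤ 1 ∧ W + 1 / 1000000 + τ + δ ≤ 1 ∧
      W + 1 / 1000000 + m ≤ 1 := by
  refine ⟨_, (mul_div_cancel₀ _ two_ne_zero).ge, h2, ?_⟩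
  rcases le_or_gt x τ with a | a <;> rcases le_or_gt y τ with b | b
  · rw [max_eq_left a, max_eq_left b]
    exact ⟨by linarith, by linarith⟩
  · obtain ⟨c, d⟩ := h4.resolve_left b.not_ge
    rw [max_eq_left a, max_eq_right b.le]
    exact ⟨by linarith, by linarith⟩
  · obtain ⟨c, d⟩ := h3.resolve_left a.not_ge
    rw [max_eq_right a.le, max_eq_left b]
    exact ⟨by linarith, by linarith⟩
  · obtain ⟨c, d⟩ := (h5.resolve_left a.not_ge).resolve_left b.not_ge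
    rw [max_eq_right a.le, max_eq_right b.le]
    exact ⟨by linarith, by linarith⟩

theorem uw_node {Z : Sys} (h1 : 1 / 3 ≤ t) (h2 : t < (tn : ℝ) / SC) (cut : CutStmt2)
    (hL : LeafSG (sysW.or2 Z)) (hL2 : LeafS2G (sysW.or2 Z)) (hI : Inv S A) {i j d G z : ℕ}
    {f g : Bool} (hG : uwG tn S i j d G = true)
    (hC : Crs (sysW.or2 Z) ((tn : ℝ) / SC) ((z : ℝ) / SC) ((d : ℝ) / SC)) :
    H sg t S.k S.kind (fun a => (Lz S i z a ∧ Lz S j z a) ∧
      ∀ y ∈ cnd (Nat.beq i j) (uw1 tn d f g) (uw2 tn d), Pr S.k G y a) 0 := by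
  simp only [uwG, band_eq, bor_eq, Bool.and_eq_true, Bool.or_eq_true, Nat.ble_eq, Nat.blt_eq,
    allN_iff, cnd_eq, Nat.beq_eq, Nat.add_eq] at hG
  obtain ⟨⟨⟨hij, hj⟩, hi0, hj0⟩, ⟨d0, d1⟩, hG⟩ := hG
  have hi : i < S.k := by omega
  have hk := hI.le
  have t0 : 333333 < tn := by
    have : (333333 : ℝ) < tn := by
      rw [SC_eq_SndL, lt_div_iff₀ (by norm_num)] at h2
      linarith
    exact_mod_cast this
  have d0' : (1 : ℝ) ≤ d := by exact_mod_cast d0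
  have d1' : (tn : ℝ) + d ≤ 500000 := by exact_mod_cast d1
  have gi : d4 G i = 4 := by simpa using hG i hi
  have gj : d4 G j = 4 := by simpa using hG j hj
  have hv := hI.kv
  have h3 : (tn : ℝ) / SC ≤ 1 / 2 := by
    rw [SC_eq_SndL]
    linarith
  have h4 : 2 * ((tn : ℝ) / SC) + 2 * ((d : ℝ) / SC) ≤ 1 := by
    rw [SC_eq_SndL]
    linarith
  have h5 : 0 ≤ (d : ℝ) / SC := by positivity
  rcases hij.eq_or_lt with rfl | hlt
  · obtain ⟨r, hr⟩ : ∃ r, S.k = r + 1 := ⟨S.k - 1, by omega⟩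
    rw [hr] at hv hG ⊢
    have hG' : ∀ m : Fin r, d4 G (sk i m) < 4 := fun m => by
      simpa [sk_ne_SndL] using hG _ (sk_lt_SndL (i := i) m.2)
    refine xLeafSG cut hL h1 h2 h3 (by omega) hv (kind_ne_P hi0)
      fun B a y ha h50 hs hc _ hy => ug_one (s := 1 / 1000000)
        (k1 := fun m => K1 (d4 G (sk i m))) (k2 := fun m => K2 (d4 G (sk i m)))
        (k3 := fun m => K3 (d4 G (sk i m))) (by linarith) (by norm_num) h5 h4 hC (ha.1.1 y hy)
        (fun m => (by decide : ∀ g < 4, K1 g + K2 g + 2 * K3 g = 2) _ (hG' m)) fun w hw => ?_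
    have key := fun (c x μ α β γ : ℕ) (hy : (c, x) ∈ uw1 tn d f g) (e : dg c 48 = 0) hc' =>
      row_fin (c := c) (μ := μ) (α := α) (β := β) (γ := γ) (a := a) (w := w) (x := (x : ℝ) / SC)
        (by omega) hG' (fun m => (hw m).2.2.trans (hc m).2.1) hc' (by
          have w0 : wt c G i = 0 := by rw [wt, gi, e, Nat.cast_zero]
          have := (ha.2 (c, x) (by simpa [cnd_eq] using hy)).self (by omega) w0 h50 hs
          rwa [sum_sk_U (i := i) (by omega), w0, zero_mul, add_zero] at this)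
    have D := key _ _ 1 0 0 1 List.mem_cons_self rfl (by decide)
    have N1 := fun h => key 549755830272 (tn - 128) 8 4 0 0 h rfl (by decide)
    have N2 := fun h => key 33558528 (tn - 32) 2 0 1 0 h rfl (by decide)
    have N3 := fun h => key 549755830272 (4000000 - (7 * tn + 4 * d + 132)) 8 4 0 0 h rfl
      (by decide)
    have N4 := fun h => key 549755830276 (4000000 - (3 * tn + 132)) 8 4 0 4 h rfl (by decide)
    have N5 := fun h => key 33558528 (2000000 - (3 * tn + 2 * d + 34)) 2 0 1 0 h rfl (by decide)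
    have N6 := fun h => key 33558530 (2000000 - (tn + 34)) 2 0 1 2 h rfl (by decide)
    have N7 := fun h => key 549822947328 (4000000 - (5 * tn + 4 * d + 132)) 8 4 2 0 h rfl
      (by decide)
    have N8 := fun h => key 549822947332 (4000000 - (tn + 132)) 8 4 2 4 h rfl (by decide)
    rw [sub_UW (by omega)] at D N1 N2 N3 N4 N5 N6 N7 N8
    push_cast at D N1 N2 N3 N4 N5 N6 N7 N8
    rw [SC_eq_SndL]
    refine fin_UW (by linarith only [d0']) (by linarith only [d1']) (by linarith only [D]) ?_ ?_ ?_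
    · cases f
      · exact Or.inl (by linarith only [N1 (by simp [uw1, cnd])])
      · exact Or.inr ⟨by linarith only [N3 (by simp [uw1, cnd])],
          by linarith only [N4 (by simp [uw1, cnd])]⟩
    · cases g
      · exact Or.inl (by linarith only [N2 (by cases f <;> simp [uw1, cnd])])
      · exact Or.inr ⟨by linarith only [N5 (by cases f <;> simp [uw1, cnd])],
          by linarith only [N6 (by cases f <;> simp [uw1, cnd])]⟩
    · cases f
      · exact Or.inl (by linarith only [N1 (by simp [uw1, cnd])])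
      cases g
      · exact Or.inr (Or.inl (by linarith only [N2 (by simp [uw1, cnd])]))
      · exact Or.inr (Or.inr ⟨by linarith only [N7 (by simp [uw1, cnd])],
          by linarith only [N8 (by simp [uw1, cnd])]⟩)
  · obtain ⟨r, hr⟩ : ∃ r, S.k = r + 2 := ⟨S.k - 2, by omega⟩
    obtain ⟨j, rfl, hj'⟩ : ∃ j', j = sk i j' ∧ j' ≤ r :=
      ⟨j - 1, by unfold sk; split_ifs <;> omega, by omega⟩
    rw [hr] at hv hG ⊢
    have hG' : ∀ m : Fin r, d4 G (sk i (sk j m)) < 2 := fun m => by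
      have e : sk i (sk j m) ≠ sk i j := by
        have := sk_ne_SndL j m
        unfold sk at *
        split_ifs at * <;> omega
      simpa [sk_ne_SndL, e, hlt.ne] using hG _ (sk_lt_SndL (i := i) (sk_lt_SndL (i := j) m.2))
    refine xLeafS2G cut hL2 h1 h2 h3 (by omega) hj' hv (kind_ne_P hi0) (kind_ne_P hj0)
      fun B a y1 y2 lo hi ha h50 hs hc _ _ hy1 hy2 _ _ => ug_two (s := 1 / 1000000)
        (k1 := fun m => K1 (d4 G (sk i (sk j m)))) (k2 := fun m => K1 (d4 G (sk i (sk j m))))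
        (k3 := fun m => K3 (d4 G (sk i (sk j m)))) (by linarith) (by norm_num) h5 h4 hC
        (ha.1.1 y1 hy1) (ha.1.2 y2 hy2)
        (fun m => (by decide : ∀ g < 2, K1 g + K1 g + 2 * K3 g = 2) _ (hG' m)) fun w hw => ?_
    have key := fun (c x μ α γ : ℕ) (hy : (c, x) ∈ uw2 tn d) (e : dg c 48 = 0) hc' =>
      row_fin (c := c) (μ := μ) (α := α) (β := 0) (γ := γ) (a := a) (w := w) (x := (x : ℝ) / SC)
        (by omega) hG' (fun m => (hw m).2.2.trans (hc m).2.1) hc' (by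
          have w0 : wt c G i = 0 := by rw [wt, gi, e, Nat.cast_zero]
          have w1 : wt c G (sk i j) = 0 := by rw [wt, gj, e, Nat.cast_zero]
          have := (ha.2 (c, x) (by simpa [cnd_eq, hlt.ne] using hy)).self (by omega) w0 h50 hs
          rwa [sum_sk_U (r := r + 1) (i := i) (by omega), w0, zero_mul, add_zero,
            ← sum_range fun m => wt c G (sk i m) * a (sk i m), sum_sk_U hj', w1, zero_mul,
            add_zero] at this)
    have D := key _ _ 1 0 1 List.mem_cons_self rfl (by decide)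
    have N1 := key 16384 (2000000 - (3 * tn + 2 * d + 66)) 4 4 0 (by simp [uw2]) rfl (by decide)
    have N2 := key 16386 (2000000 - (tn + 66)) 4 4 2 (by simp [uw2]) rfl (by decide)
    rw [sub_UW (by omega)] at D N1 N2
    push_cast at D N1 N2
    rw [SC_eq_SndL]
    rcases le_total ((tn : ℝ) / 1000000 / 2 + 2 * ∑ m : Fin r, (K1 (d4 G (sk i (sk j m))) : ℝ) * w m)
      ((tn : ℝ) / 1000000) with c | c
    · exact fin_UW (by linarith only [d0']) (by linarith only [d1']) (by linarith only [D])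
        (Or.inl c) (Or.inl c) (Or.inl c)
    · exact fin_UW (by linarith only [d0']) (by linarith only [d1']) (by linarith only [D])
        (Or.inr ⟨by linarith only [N1, c], by linarith only [N2, c]⟩)
        (Or.inr ⟨by linarith only [N1, c], by linarith only [N2, c]⟩)
        (Or.inr (Or.inr ⟨by linarith only [N1], by linarith only [N2]⟩))

theorem uwR_ok {Z : Sys} (h1 : 1 / 3 ≤ t) (h2 : t < (tn : ℝ) / SC) (cut : CutStmt2)
    (hL : LeafSG (sysW.or2 Z)) (hL2 : LeafS2G (sysW.or2 Z)) {cv : Cv} (hcv : CvOK t cv)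
    {ct : ℕ → ℕ → ℕ → Bool} (hct : ∀ r z d, ct r z d = true →
      Crs (sysW.or2 Z) ((tn : ℝ) / SC) ((z : ℝ) / SC) ((d : ℝ) / SC)) :
    XTok t (uwR cv tn ct) := fun _ ih _ hH sg S s => by
  simp only [uwR, force_eq]
  refine Val.grd fun g hl A hI => ?_
  rw [band_eq, Bool.and_eq_true] at g
  have g1 := g.1
  simp only [uwG, band_eq, Bool.and_eq_true, Nat.ble_eq, Nat.blt_eq] at g1
  obtain ⟨⟨⟨hij, hj⟩, hi0, hj0⟩, -⟩ := g1
  refine hcv sg _ (hH sg) S _ _ _ A hI ((uw_node h1 h2 cut hL hL2 hI g.1 (hct _ _ _ g.2)).anti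
    fun a ha => ⟨⟨fun y hy => (lev_le hI ha.1 (hij.trans_lt hj) hi0 hy).trans ?_,
      fun y hy => (lev_le hI ha.1 hj hj0 hy).trans ?_⟩, ha.2⟩) hl <;> rw [mx_eq]
  exacts [div_le_div_of_nonneg_right (Nat.cast_le.2 (le_max_left _ _)) SC_pos.le,
    div_le_div_of_nonneg_right (Nat.cast_le.2 (le_max_right _ _)) SC_pos.le]

theorem ctW_ok (Z : Sys) (h1 : 1 / 3 ≤ t) (h2 : t < (tn : ℝ) / SC) {z d : ℕ} (h : ctW z d = true) :
    Crs (sysW.or2 Z) ((tn : ℝ) / SC) ((z : ℝ) / SC) ((d : ℝ) / SC) := by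
  simp only [ctW, Bool.and_eq_true, Nat.ble_eq] at h
  have a1 : (z : ℝ) ≤ 100000 := by exact_mod_cast h.1
  have a2 : (z : ℝ) + 2 ≤ 2 * d := by exact_mod_cast h.2
  refine crs_win Z (s := 1 / 1000000) (by linarith) (by norm_num) ?_ ?_ <;> rw [SC_eq_SndL] <;>
    linarith

end Pool.Agent.MP_c853c5_nt.X

end

section

/-!
The rule for the uniform leaves with the dispersion bound.
-/

set_option autoImplicit false

open Finset

namespace Pool.Agent.MP_c853c5_nt.X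

open Pool.Agent.MP_c853c5_nt.S Pool.Agent.MP_c853c5_nt.REG Pool.Agent.MP_c853c5_nt.Y
open Pool.Agent.MP_c853c5_nt.DT

variable {t : ℝ} {tn : ℕ}

theorem crs_ud {τ ν s δ : ℝ} {r : ℕ} (h : ∀ c, τ + δ ≤ c → c + τ + δ ≤ 1 → UD τ ν s δ c r)
    (hs : 0 < s) : Crs sysD τ ν δ := fun κ N hκ hN =>
  ⟨_, etaD_pos (⌈1 / κ⌉₊ + 2 + r) hκ hs hN, ⌈1 / κ⌉₊ + 2 + r, by omega,
    fun _ _ _ _ A D c c1 c2 hA hD h0 h1 h2 h3 h4 => by
      classical
      exact crossD (univ.filter A) (univ.filter D) (h c c1 c2) hκ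
        (disjoint_filter.2 fun k _ a b => hA k b a) (fun k hk => hD k (mem_filter.1 hk).2) h0 h1
        (by rwa [sum_filter]) (by rwa [sum_filter, sum_filter]) h4⟩

theorem ctD_ok (h1 : 1 / 3 ≤ t) (h2 : t < (tn : ℝ) / SC) (r z d : ℕ) (h : ctD tn r z d = true) :
    Crs sysD ((tn : ℝ) / SC) ((z : ℝ) / SC) ((d : ℝ) / SC) := by
  rw [ctD, cnd_eq] at h
  split_ifs at h
  · exact ctW_ok _ h1 h2 h
  simp only [Bool.and_eq_true, Nat.ble_eq] at h
  obtain ⟨⟨⟨⟨⟨⟨⟨a1, a2⟩, a3⟩, a4⟩, a5⟩, a6⟩, a7⟩, a8⟩ := h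
  have b1 : (400000 : ℝ) ≤ tn := by exact_mod_cast a1
  have b2 : (z : ℝ) ≤ 100000 := by exact_mod_cast a2
  have b4 : (1000003 : ℝ) ≤ 2 * tn + 3 * d := by exact_mod_cast a4
  have b5 : 2 * (r : ℝ) * z + 1 ≤ tn + d + z := by exact_mod_cast a5
  have b6 : 4 * (r : ℝ) * z + 2 * z + 2 * d + 3 * tn + 2 ≤ 2000000 + 4 * r * d := by
    exact_mod_cast a6
  have b7 : (2502 : ℝ) ≤ d := by exact_mod_cast a7
  have b8 : (z : ℝ) + 1 ≤ r * d := by exact_mod_cast a8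
  rw [SC_eq_SndL]
  exact crs_ud (s := 1 / 1000000) (r := r) (fun c c1 c2 => ⟨by linarith, by norm_num, by linarith,
    a3, c1, c2, by linarith, by linarith, by linarith, by linarith, by linarith⟩) (by norm_num)

theorem udR_ok (h1 : 1 / 3 ≤ t) (h2 : t < (tn : ℝ) / SC) (cut : CutStmt2) (hL : LeafSG sysD)
    (hL2 : LeafS2G sysD) {cv : Cv} (hcv : CvOK t cv) : XTok t (uwR cv tn (ctD tn)) :=
  uwR_ok h1 h2 cut hL hL2 hcv (ctD_ok h1 h2)

end Pool.Agent.MP_c853c5_nt.X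

end

section

/-!
Soundness of the rows of the uniform leaves.
-/

set_option autoImplicit false

open Finset

namespace Pool.Agent.MP_c853c5_nt.X

open Pool.Agent.MP_c853c5_nt.S Pool.Agent.MP_c853c5_nt.REG Pool.Agent.MP_c853c5_nt.Y

variable {S : NS} {A : ℕ → Finset ℕ} {t : ℝ} {tn : ℕ}

lemma mkRs_ok (hI : Inv S A) (G : ℕ) {L : List Rw} (hL : ∀ r ∈ L, r.In S.k) (P : List (ℕ × ℕ)) :
    ∃ M : List Rw, (∀ K, mkRs S G (Nat.mul 12 (d4 G 0)) L P K = K M) ∧ (∀ r ∈ M, r.In S.k) ∧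
      ∀ a, (∀ r ∈ M, r.ok (Y A a)) → (∀ r ∈ L, r.ok (Y A a)) ∧ ∀ y ∈ P, Pr S.k G y a := by
  induction P with
  | nil => exact ⟨L, fun _ => rfl, hL, fun a h => ⟨h, by simp⟩⟩
  | cons y P ih =>
    obtain ⟨M, h1, h2, h3⟩ := ih
    obtain ⟨m, l1, l2, e, i1, i2, g⟩ := cut_step (sg := true) (t := 0) hI G y
    refine ⟨⟨_, l1, y.2, l2⟩ :: M, fun K => ?_, List.forall_mem_cons.2 ⟨⟨i1, i2⟩, h2⟩, fun a h =>
      ⟨(h3 a (List.forall_mem_cons.1 h).2).1, List.forall_mem_cons.2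
        ⟨(g _ rfl).1 a (List.forall_mem_cons.1 h).1, (h3 a (List.forall_mem_cons.1 h).2).2⟩⟩⟩
    show mkRow S.par G y.1 (Nat.pred S.k) _ = _
    rw [e, force_eq, force_eq]
    exact h1 _

lemma lkR_ok (hI : Inv S A) {z q : ℕ} {L : List Rw} {K : List Rw → ℕ} (hL : ∀ r ∈ L, r.In S.k)
    (h : lkR S z q L K < INF) : ∃ M : List Rw, lkR S z q L K = K M ∧ (∀ r ∈ M, r.In S.k) ∧
      ∀ a, (∀ r ∈ M, r.ok (Y A a)) → (∀ r ∈ L, r.ok (Y A a)) ∧
        ∀ i < S.k, get S.kd i = q → 0 < q → Lz S i z a := by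
  rw [lkR, cnd_eq] at h ⊢
  split_ifs at h ⊢ with c <;> rw [Nat.ble_eq] at c
  · refine ⟨_, addRow_eq _ _ _ _ _ _ _ _, List.forall_mem_cons.2 ⟨rowOf_lt _ _ _ _ _ _, hL⟩,
      fun a ha => ⟨(List.forall_mem_cons.1 ha).2, fun i hi e h0 y hy => ?_⟩⟩
    have hv := (hI.kv i hi).2
    rw [NS.kind, kindOf, e, if_neg h0.ne', if_pos c] at hy hv
    have := (rowOf_iff hI _ _ _ _ a).1 (List.forall_mem_cons.1 ha).1
    rw [ms_zero, Nat.pred_eq_sub_one, ms_one (hv _ rfl).1, Nat.cast_one, SC_eq_SndL] at this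
    have hy' : y ≤ a (q - 1) + un := hy
    rw [un_eq_SndL] at hy'
    rw [SC_eq_SndL]
    linarith
  · obtain ⟨g, e⟩ := grd_lt h
    refine ⟨L, e, hL, fun a ha => ⟨ha, fun i _ e h0 y hy => ?_⟩⟩
    rw [NS.kind, kindOf, e, if_neg h0.ne', if_neg c] at hy
    exact le_trans hy (div_le_div_of_nonneg_right (Nat.cast_le.2 (Nat.ble_eq ▸ g)) SC_pos.le)

theorem uwP_ok {Z : Sys} (h1 : 1 / 3 ≤ t) (h2 : t < (tn : ℝ) / SC) (cut : CutStmt2)
    (hL : LeafSG (sysW.or2 Z)) (hL2 : LeafS2G (sysW.or2 Z))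
    {ct : ℕ → ℕ → ℕ → Bool} (hct : ∀ r z d, ct r z d = true →
      Crs (sysW.or2 Z) ((tn : ℝ) / SC) ((z : ℝ) / SC) ((d : ℝ) / SC)) :
    Prok t (uwP tn ct) := fun sg S A s K hI hl => by
  simp only [uwP, force_eq] at hl ⊢
  generalize Nat.mod s 16 = i at *
  generalize Nat.mod (Nat.shiftRight s 4) 16 = j at *
  generalize Nat.mod (Nat.shiftRight s 10) 16 = r at *
  generalize Nat.mod (Nat.shiftRight s 14) 1048576 = z at *
  generalize cnd (Nat.beq r 0) (Nat.add _ _) _ = d at *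
  generalize Nat.shiftRight s (cnd _ _ _) = u at *
  generalize Nat.mod u _ = G at *
  obtain ⟨g, e⟩ := grd_lt hl
  rw [e] at hl ⊢
  rw [band_eq, Bool.and_eq_true] at g
  have g1 := g.1
  simp only [uwG, band_eq, Bool.and_eq_true, Nat.ble_eq, Nat.blt_eq] at g1
  obtain ⟨⟨⟨hij, hj⟩, hi0, hj0⟩, -⟩ := g1
  obtain ⟨L, e1, i1, a1⟩ := lkR_ok hI (by simp) hl
  rw [e1] at hl ⊢
  obtain ⟨M, e2, i2, a2⟩ := lkR_ok hI i1 hl
  obtain ⟨N, e3, i3, a3⟩ := mkRs_ok hI G i2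
    (cnd (Nat.beq i j) (uw1 tn d (bit s 8) (bit s 9)) (uw2 tn d))
  rw [e2, e3]
  refine ⟨N, _, rfl, i3, (uw_node (f := bit s 8) (g := bit s 9) h1 h2 cut hL hL2 hI g.1
    (hct _ _ _ g.2)).anti fun a ha => ?_⟩
  obtain ⟨b1, b2⟩ := a3 a ha.2
  obtain ⟨b3, b4⟩ := a2 a b1
  refine ⟨⟨(a1 a b3).2 _ (hij.trans_lt hj) rfl hi0, ?_⟩, b2⟩
  rw [cnd_eq] at b4
  split_ifs at b4 with c
  · exact (a1 a b3).2 _ hj (Nat.beq_eq ▸ c).symm hi0
  · exact b4 _ hj rfl hj0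

theorem udP_ok (h1 : 1 / 3 ≤ t) (h2 : t < (tn : ℝ) / SC) (cut : CutStmt2) (hL : LeafSG DT.sysD)
    (hL2 : LeafS2G DT.sysD) : Prok t (uwP tn (ctD tn)) :=
  uwP_ok h1 h2 cut hL hL2 (ctD_ok h1 h2)

end Pool.Agent.MP_c853c5_nt.X

end

section

/-!
The uniform leaves with the new dispersion bound.
-/

set_option autoImplicit false

namespace Pool.Agent.MP_c853c5_nt.X

open Pool.Agent.MP_c853c5_nt.S Pool.Agent.MP_c853c5_nt.REG Pool.Agent.MP_c853c5_nt.Y
open Pool.Agent.MP_c853c5_nt.DU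

variable {t : ℝ} {tn : ℕ}

theorem ctQ_ok {r z d e k q : ℕ} (h : ctQ tn r z d e k q = true) :
    Crs sysE ((tn : ℝ) / SC) ((z : ℝ) / SC) ((d : ℝ) / SC) := by
  simp only [ctQ, Bool.and_eq_true, Nat.ble_eq, Nat.beq_eq] at h
  obtain ⟨⟨⟨⟨⟨⟨⟨⟨⟨⟨⟨a1, a2⟩, a3⟩, a4⟩, a5⟩, a6⟩, a7⟩, a8⟩, a9⟩, a10⟩, a11⟩, a12⟩ := h
  have b1 : (400000 : ℝ) ≤ tn := by exact_mod_cast a1
  have b2 : (z : ℝ) ≤ 100000 := by exact_mod_cast a2
  have b4 : 2 * (r : ℝ) * z + 1 ≤ tn + d + z := by exact_mod_cast a4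
  have b5 : (2502 : ℝ) ≤ d := by exact_mod_cast a5
  have b6 : (z : ℝ) + 1 ≤ r * d := by exact_mod_cast a6
  have b7 : (e : ℝ) + 2 * tn = 1000000 := by exact_mod_cast a7
  have b8 : ((r : ℝ) + 2) * z + 1 ≤ (2 * r + 1) * e + (r + 1) * k := by exact_mod_cast a8
  have b10 : (k : ℝ) + 1 + e ≤ q * e := by exact_mod_cast a10
  have b11 : 4 * (q : ℝ) * k + 4 * z + 3 * tn + 2 ≤ 2000000 + 2 * k := by exact_mod_cast a11
  have b12 : ((q : ℝ) + r + 1) * (z + 1) ≤ q * (2 * r + 1) * e := by exact_mod_cast a12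
  rw [SC_eq_SndL]
  have e1 : 1 - 2 * ((tn : ℝ) / 1000000) = e / 1000000 := by linarith
  exact crs_ue (s := 1 / 1000000) (k := k / 1000000) (r := r) (q := q) (fun c c1 c2 =>
    ⟨by linarith, by norm_num, by linarith, a9, a3, c1, c2, by linarith, by linarith, by linarith,
      by rw [e1]; linarith, by rw [e1]; linarith, by linarith, by rw [e1]; linarith⟩) (by norm_num)

theorem ctE_ok (h1 : 1 / 3 ≤ t) (h2 : t < (tn : ℝ) / SC) (r z d : ℕ) (h : ctE tn r z d = true) :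
    Crs sysE ((tn : ℝ) / SC) ((z : ℝ) / SC) ((d : ℝ) / SC) := by
  rw [ctE, cnd_eq] at h
  split_ifs at h
  exacts [ctW_ok _ h1 h2 h, ctQ_ok h]

theorem ueP_ok (h1 : 1 / 3 ≤ t) (h2 : t < (tn : ℝ) / SC) (cut : CutStmt2) (hL : LeafSG sysE)
    (hL2 : LeafS2G sysE) : Prok t (uwP tn (ctE tn)) :=
  uwP_ok h1 h2 cut hL hL2 (ctE_ok h1 h2)

theorem ueR_ok (h1 : 1 / 3 ≤ t) (h2 : t < (tn : ℝ) / SC) (cut : CutStmt2) (hL : LeafSG sysE)
    (hL2 : LeafS2G sysE) {cv : Cv} (hcv : CvOK t cv) : XTok t (uwR cv tn (ctE tn)) :=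
  uwR_ok h1 h2 cut hL hL2 hcv (ctE_ok h1 h2)

end Pool.Agent.MP_c853c5_nt.X

end

section

/-!
Soundness of the rows of a claim on small primes.
-/

set_option autoImplicit false

open Finset

namespace Pool.Agent.MP_c853c5_nt.X

open Pool.Agent.MP_c853c5_nt.S Pool.Agent.MP_c853c5_nt.REG Pool.Agent.MP_c853c5_nt.Y

variable {S : NS} {A : ℕ → Finset ℕ} {t : ℝ} {tn : ℕ}

/-- the claim for an arbitrary system -/
def PD.HoldG (Z : Sys) (tn : ℕ) (x : PD) : Prop := ∀ (r : ℕ) (B : Fin r → Blk) (G : Fin r → ℕ)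
  (z : ℝ), (∀ j, G j < x.m) → z ≤ (x.z : ℝ) / SC →
  (x.p = true → ∃ i, (B i).IsP ∧ 0 < (B i).lo) →
  (∀ w, InBox B w → ∑ j, w j ≤ 1 → ∀ n < x.m,
    (get x.lo n : ℝ) / SC ≤ asum G w n ∧ asum G w n ≤ (get x.hi n : ℝ) / SC) →
  DustOKG Z ((tn : ℝ) / SC) B z

theorem PD.Hold.toG {x : PD} (h : x.Hold tn) (h1 : 1 / 3 ≤ (tn : ℝ) / SC) : x.HoldG sys0 tn :=
  fun _ _ G _ hG hz hp hw => DOK.dustOK h1 hp
    ((h _ G hG).mono id hz fun w c hs => ⟨fun j => (c j).1, hw w c hs⟩)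

lemma grpR_ok (hI : Inv S A) (X l h : ℕ) {L : List Rw} (hL : ∀ r ∈ L, r.In S.k) :
    ∃ M : List Rw, (∀ K, grpR S X l h L K = K M) ∧ (∀ r ∈ M, r.In S.k) ∧
      ∀ a, (∀ r ∈ M, r.ok (Y A a)) → (∀ r ∈ L, r.ok (Y A a)) ∧ ∀ b : Pt,
        (∀ j < S.k, 0 ≤ b j ∧ a j - un ≤ b j ∧ b j ≤ a j + un) → ms S.k X b ≤ 1 →
        (l : ℝ) / SC ≤ ms S.k X b ∧ ms S.k X b ≤ (h : ℝ) / SC := by
  have near : ∀ a b : Pt, (∀ j < S.k, 0 ≤ b j ∧ a j - un ≤ b j ∧ b j ≤ a j + un) →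
      |ms S.k X a - ms S.k X b| ≤ ((cnd (Nat.beq X 0) 0 16 : ℕ) : ℝ) / SC := fun a b hb => by
    rw [cnd_eq]
    split_ifs with c
    · simp [Nat.eq_of_beq_eq_true c, ms_zero]
    rw [ms, ms, ← sum_sub_distrib]
    refine (abs_sum_le_sum_abs _ _).trans ((sum_le_card_nsmul _ _ un fun j hj => ?_).trans ?_)
    · have := hb j (mem_range.1 (mem_filter.1 hj).1)
      exact abs_le.2 ⟨by linarith [this.2.2], by linarith [this.2.1]⟩
    · have : (((range S.k).filter fun i => bit X i = true).card : ℝ) ≤ 16 := by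
        exact_mod_cast (card_filter_le _ _).trans ((card_range _).le.trans hI.le)
      rw [nsmul_eq_mul, un_eq_SndL, SC_eq_SndL]
      push_cast
      linarith
  have up : ∀ a b : Pt, (∀ j < S.k, 0 ≤ b j ∧ a j - un ≤ b j ∧ b j ≤ a j + un) →
      ms S.k X b ≤ 1 → (rowOf S.par S.k X 0 (cnd (Nat.beq X 0) 0 16)
        (cnd (Nat.ble 1000000 h) 16000000 h)).ok (Y A a) → ms S.k X b ≤ (h : ℝ) / SC :=
    fun a b hb h1 g => by
      rw [rowOf_iff hI, ms_zero, cnd_eq (Nat.ble _ _)] at g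
      split_ifs at g with c
      · exact h1.trans ((one_le_div SC_pos).2 (by exact_mod_cast Nat.le_of_ble_eq_true c))
      · linarith [(abs_le.1 (near a b hb)).1]
  have i1 : ∀ r ∈ rowOf S.par S.k X 0 (cnd (Nat.beq X 0) 0 16)
      (cnd (Nat.ble 1000000 h) 16000000 h) :: L, r.In S.k :=
    List.forall_mem_cons.2 ⟨rowOf_lt .., hL⟩
  simp only [grpR, force_eq, addRow_eq, cnd_eq (Nat.beq l 0)]
  split_ifs with c
  · refine ⟨_, fun _ => rfl, i1, fun a g => ⟨(List.forall_mem_cons.1 g).2, fun b hb h1 =>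
      ⟨?_, up a b hb h1 (g _ List.mem_cons_self)⟩⟩⟩
    rw [Nat.eq_of_beq_eq_true c, Nat.cast_zero, zero_div]
    exact sum_nonneg fun j hj => (hb j (mem_range.1 (mem_filter.1 hj).1)).1
  · refine ⟨_, fun _ => rfl, List.forall_mem_cons.2 ⟨rowOf_lt .., i1⟩, fun a g => ?_⟩
    simp only [List.forall_mem_cons] at g
    refine ⟨g.2.2, fun b hb h1 => ⟨?_, up a b hb h1 g.2.1⟩⟩
    have := g.1
    rw [rowOf_iff hI, ms_zero, Nat.add_eq, Nat.cast_add, add_div, Nat.cast_zero, zero_div] at this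
    linarith [(abs_le.1 (near a b hb)).2]

theorem lsP_ok {Z : Sys} (h1 : 1 / 3 ≤ t) (h2 : t < (tn : ℝ) / SC) (h4 : 2 * tn ≤ SC)
    (cut : CutStmt2) (hL : LeafSG Z) {PS : BT PD} (hx : PS.All (PD.HoldG Z tn)) :
    Prok t (lsP PS) := fun sg S A s K hI hl => by
  have h3 : (2 : ℝ) * tn ≤ SC := by exact_mod_cast h4
  simp only [lsP, force_eq] at hl ⊢
  have hx := hx.find (Nat.mod s 65536)
  generalize PS.find _ = x at *
  generalize Nat.mod (Nat.shiftRight s 16) 16 = i at *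
  generalize Nat.mod (Nat.shiftRight s 20) _ = X at *
  obtain ⟨g, e⟩ := grd_lt hl
  rw [e] at hl ⊢
  simp only [band_eq, bor_eq, bnot_eq, Bool.and_eq_true, Bool.or_eq_true, Nat.blt_eq, Nat.beq_eq,
    Bool.not_eq_true'] at g
  obtain ⟨⟨hi, h0, hX⟩, hm, hP⟩ := g
  obtain ⟨L, e1, i1, a1⟩ := lkR_ok hI (by simp) hl
  obtain ⟨M, e2, i2, a2⟩ := grpR_ok hI X (get x.lo 0) (get x.hi 0) i1
  obtain ⟨N, e3, i3, a3⟩ := grpR_ok hI (Nat.xor (Nat.pred (one S.k)) (Nat.lor X (one i)))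
    (get x.lo 1) (get x.hi 1) i2
  rw [e1, e2, e3]
  refine ⟨N, _, rfl, i3, ?_⟩
  obtain ⟨r, hr⟩ : ∃ r, S.k = r + 1 := ⟨S.k - 1, by omega⟩
  have hv := hI.kv
  have hb : ∀ j < S.k, bit (Nat.xor (Nat.pred (one S.k)) (Nat.lor X (one i))) j =
      !(bit X j || decide (j = i)) := fun j hj => by
    rw [bit_eq, bit_eq, one_eq, one_eq, Nat.xor_eq, Nat.lor_eq, Nat.testBit_xor, Nat.testBit_or,
      Nat.pred_eq_sub_one, Nat.testBit_two_pow_sub_one, Nat.testBit_two_pow]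
    simp [hj, eq_comm]
  rw [hr] at hv ⊢
  refine xLeafSG cut hL h1 h2 ((div_le_iff₀ SC_pos).2 (by linarith)) (by omega) hv (kind_ne_P h0)
    fun B a z ha h50 _ hc _ hz => ?_
  obtain ⟨b1, b2⟩ := a3 a ha.2
  obtain ⟨b3, b4⟩ := a2 a b1
  have u := un_eq_SndL
  refine hx r B (fun j => if bit X (sk i j) = true then 0 else 1) z
    (fun j => by split_ifs <;> omega) ((a1 a b3).2 i hi rfl h0 z hz) (fun hp => ?_)
    fun w hw hs n hn => ?_
  · obtain ⟨p, hp1, hp0⟩ := hasP_ok (hP.resolve_left (by simp [hp]))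
    obtain ⟨j, hj, rfl⟩ := sk_surj_SndL (i := i) (by omega) (hr ▸ hp1) (by
      rintro rfl
      omega)
    exact ⟨⟨j, hj⟩, (hc ⟨j, hj⟩).2.2.2 (kind_P hp0),
      by linarith [(hc ⟨j, hj⟩).1, h50 _ (sk_lt_SndL (i := i) hj)]⟩
  obtain ⟨b, c1, c2⟩ := ext_SndL i w (a i)
  have nb : ∀ m < S.k, 0 ≤ b m ∧ a m - un ≤ b m ∧ b m ≤ a m + un := fun m hm => by
    by_cases e : m = i
    · rw [e, c1]
      have := h50 i (hr ▸ hi)
      exact ⟨by linarith, by linarith, by linarith⟩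
    · obtain ⟨j, hj, rfl⟩ := sk_surj_SndL (i := i) (by omega) (hr ▸ hm) e
      rw [c2 ⟨j, hj⟩]
      exact ⟨(hw _).1, (hc ⟨j, hj⟩).1.trans (hw _).2.1, (hw _).2.2.trans (hc ⟨j, hj⟩).2.1⟩
  have le1 : asum (fun j : Fin r => if bit X (sk i j) = true then 0 else 1) w n ≤ 1 :=
    (sum_le_sum_of_subset_of_nonneg (filter_subset _ _) fun j _ _ => (hw j).1).trans hs
  have key : ∀ X', bit X' i = false → (∀ j : Fin r, bit X' (sk i j) = true ↔
      (if bit X (sk i j) = true then 0 else 1) = n) → ms S.k X' b =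
      asum (fun j : Fin r => if bit X (sk i j) = true then 0 else 1) w n := fun X' d1 d2 => by
    rw [ms, sum_filter, hr, sum_sk_U (i := i) (by omega), asum, sum_filter]
    simp only [d1, d2, c2, Bool.false_eq_true, if_false, add_zero]
  obtain rfl | rfl : n = 0 ∨ n = 1 := by omega
  · rw [← key X hX fun j => by simp] at le1 ⊢
    exact b4 b nb le1
  · rw [← key _ ((hb i hi).trans (by simp)) fun j => by
      rw [hb _ (hr ▸ sk_lt_SndL j.2)]
      simp [sk_ne_SndL]] at le1 ⊢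
    exact b2 b nb le1

theorem lsP0_ok (h1 : 1 / 3 ≤ t) (h2 : t < (tn : ℝ) / SC) (h4 : 2 * tn ≤ SC) (cut : CutStmt2)
    (hL : LeafS) {PS : BT PD} (hx : PS.All (PD.Hold tn)) : Prok t (lsP PS) := by
  refine lsP_ok (Z := sys0) h1 h2 h4 cut hL ?_
  induction PS with
  | lf x => exact PD.Hold.toG hx (h1.trans h2.le)
  | nd _ _ _ i1 i2 => exact ⟨i1 hx.1, i2 hx.2⟩

end Pool.Agent.MP_c853c5_nt.X

end

section

/-!
Uniform leaves above the level of the crossing lemma: either few sieving primes are large, or the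
smallest of several large ones lies in a window of the new mean square.
-/

set_option autoImplicit false

open Finset

namespace Pool.Agent.MP_c853c5_nt.DV

open Pool.Agent.MP_c853c5_nt.S Pool.Agent.MP_c853c5_nt.R Pool.Agent.MP_c853c5_nt.REG
open Pool.Agent.MP_c853c5_nt.Y

def ZG : Sys := ⟨E1pt, E12pt, fun τ η K pr a =>
  DU.E3pt τ η K pr a ∨ E4pt τ (1 / 10000) 64 pr a⟩

/-- the dispersion bound and the mean square with fixed margins -/
def sysG : Sys := sysW.or2 ZG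

theorem sysG_ok (h : sysW.OK) (h3 : DU.E3D) (h4 : E4D) : sysG.OK := by
  have a : E2G ⟨E1pt, E12pt, fun τ _ _ pr a => E4pt τ (1 / 10000) 64 pr a⟩ :=
    fun ι _ τ t _ _ A a b c _ => h4 ι τ t _ 64 A a b c (by norm_num)
  have b := ((h.or2 (Z := ⟨E1pt, E12pt, DU.E3pt⟩) h3).or2 a).e2
  refine h.or2 fun ι _ τ t η K A h1 h2 h3 h4 => ?_
  obtain ⟨γ, g, k⟩ := b ι τ t η K A h1 h2 h3 h4
  exact ⟨γ, g, k.mono fun x k pr a N f a1 a2 =>
    k pr a N f a1 (a2.elim (fun e => Or.inl (Or.inr e)) Or.inr)⟩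

theorem crs_G {τ ν δ : ℝ} (h : Crs DU.sysE τ ν δ) : Crs sysG τ ν δ := fun κ N hκ hN => by
  obtain ⟨η, h1, K, h2, h3⟩ := h κ N hκ hN
  exact ⟨η, h1, K, h2, fun ι _ x pr A D c a1 a2 a3 a4 a5 a6 a7 a8 a9 =>
    (h3 ι x pr A D c a1 a2 a3 a4 a5 a6 a7 a8 a9).imp_right Or.inl⟩

/-- a prime `x i` of size in `(ν, z]` and a group `M` of the right size -/
def Win (τ ν z lo E : ℝ) (j r : ℕ) : Prop := ∀ (ι : Type) [Fintype ι] (x : ι → ℝ) (pr : ι → Prop)
  (M : Finset ι) (i : ι), i ∉ M → pr i → ν < x i → x i ≤ z → ∑ k, x k = 1 →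
    lo + j * x i ≤ ∑ k ∈ M, x k → r * ∑ k ∈ M, x k + x i ≤ E → E4pt τ (1 / 10000) 64 pr x

/-- the conditions on one piece `[q0, q1]` -/
structure Pc (τ q0 q1 k L : ℝ) (r n : ℕ) : Prop where
  t1 : 2 / 5 ≤ τ
  t2 : τ ≤ 1 / 2
  r1 : 1 ≤ r
  r2 : r ≤ 63
  n1 : 1 ≤ n
  n2 : n ≤ 63
  q : q1 ≤ 1 / 10
  k0 : 0 ≤ k
  a1 : (2 * n + 1) * k + 2 * q1 + 3 * τ / 2 + 1 / 10000 ≤ 1
  a2 : k + 1 / 10000 ≤ n * (1 - 2 * τ)
  a3 : 2 * n * q1 + 1 / 10000 + k ≤ τ
  a4 : k + 26 / 10000 ≤ q0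
  a5 : (n + 1) * k + 1 / 10000 ≤ n * q0
  a6 : 2 * k + 1 ≤ 2 * q0 + 2 * τ
  a7 : (r + 1) * (2 * r * q1 + 1 / 10000) + r * q1 ≤ (r + 1) * τ
  a8 : (r + 1) * (31 / 10000) ≤ q0
  a9 : τ ≤ L + k ∨ q1 + 2 * τ ≤ 1 + 2 * k ∧ (r + 1) * τ + 1 / 10000 ≤ (r + 1) * L + r * q0

lemma Pc.both {τ q0 q1 k L a0 a1 q : ℝ} {r n : ℕ} (h : Pc τ q0 q1 k L r n) (h0 : q0 ≤ q)
    (h1 : q ≤ q1) (hs : a0 + q + a1 = 1) (g0 : τ ≤ a0 + k) (g1 : a1 ≤ 1 / 2)
    (g2 : (r + 1) * (τ - a1) + 1 / 10000 ≤ r * q) :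
    DU.DispOK τ (1 / 10000) (n + 1) a0 q a1 ∧ VOK τ (1 / 10000) (r + 1) q a1 := by
  obtain ⟨t1, t2, r1, -, n1, -, q2, k0, a1', a2, a3, a4, a5, -, a7, a8, -⟩ := h
  have r' : (1 : ℝ) ≤ r := by exact_mod_cast r1
  have n' : (1 : ℝ) ≤ n := by exact_mod_cast n1
  have w : τ - a0 ≤ k := by linarith
  have e1 := mul_le_mul_of_nonneg_left w (by linarith : (0 : ℝ) ≤ 2 * n + 1)
  have e2 := mul_le_mul_of_nonneg_left w (by linarith : (0 : ℝ) ≤ n + 1)
  have e3 := mul_le_mul_of_nonneg_left h1 (by linarith : (0 : ℝ) ≤ n)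
  have e4 := mul_le_mul_of_nonneg_left h0 (by linarith : (0 : ℝ) ≤ n)
  have e5 := mul_le_mul_of_nonneg_left h1 (by linarith : (0 : ℝ) ≤ r)
  have e6 := mul_le_mul_of_nonneg_left e5 (by linarith : (0 : ℝ) ≤ r + 1)
  have r0 : (0 : ℝ) < r + 1 := by linarith
  have e7 := min_le_left (τ / 2) (τ / 6 + (a1 - q) / 2)
  have g9 : τ - a1 + 3 / 1000 + 1 / 10000 ≤ q := le_of_mul_le_mul_left (by linarith) r0
  have g8 : 2 * r * q + 1 / 10000 ≤ a1 := le_of_mul_le_mul_left (by linarith) r0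
  obtain rfl : a1 = 1 - a0 - q := by linarith
  exact ⟨disp_of n1 t1 t2 rfl hs (Or.inl (by linarith)) (by linarith) (by linarith) (by linarith)
    (by linarith) (by linarith) g1 g9 (by linarith),
    vok_of r1 t1 rfl (by linarith) g1 g2 g8 g9 (by linarith)⟩

open Classical in
lemma Pc.win {τ q0 q1 k L : ℝ} {r n : ℕ} (h : Pc τ q0 q1 k L r n) {ι : Type} [Fintype ι]
    {x : ι → ℝ} {pr : ι → Prop} {M : Finset ι} {i : ι} (hi : i ∉ M) (hp : pr i) (h0 : q0 ≤ x i)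
    (h1 : x i ≤ q1) (hs : ∑ k, x k = 1) (g0 : L ≤ ∑ k ∈ M, x k)
    (g1 : (r + 1) * ∑ k ∈ M, x k + x i + 1 / 10000 ≤ (r + 1) * (1 - τ)) :
    E4pt τ (1 / 10000) 64 pr x := by
  have sp : ∀ B : Finset ι, i ∉ B →
      ∑ l ∈ (univ \ B).erase i, x l = 1 - ∑ l ∈ B, x l - x i := fun B hB => by
    have b1 := sum_erase_add (univ \ B) x (mem_sdiff.2 ⟨mem_univ _, hB⟩)
    have b2 := sum_sdiff (subset_univ B) (f := x)
    linarith
  have fin : ∀ B : Finset ι, i ∉ B → τ ≤ ∑ l ∈ B, x l + k → 1 - ∑ l ∈ B, x l - x i ≤ 1 / 2 →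
      (r + 1) * (τ - (1 - ∑ l ∈ B, x l - x i)) + 1 / 10000 ≤ r * x i →
      E4pt τ (1 / 10000) 64 pr x := fun B hB b1 b2 b3 => by
    have := h.both h0 h1 (by ring) b1 b2 b3
    rw [← sp B hB] at this
    exact ⟨B, i, n + 1, r + 1, by linarith [h.n1], by linarith [h.n2], by linarith [h.r1],
      by linarith [h.r2], hB, hp, this.1, this.2⟩
  rcases le_or_gt τ (∑ l ∈ M, x l + k) with c | c
  · exact fin M hi c (by linarith [h.a6]) (by linarith)
  · obtain ⟨b1, b2⟩ := h.a9.resolve_left (by linarith)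
    have r0 : (0 : ℝ) ≤ r := Nat.cast_nonneg _
    have e1 := mul_le_mul_of_nonneg_left h0 r0
    have e2 := mul_le_mul_of_nonneg_left g0 (by linarith : (0 : ℝ) ≤ r + 1)
    refine fin _ (notMem_erase i (univ \ M)) ?_ ?_ ?_ <;> rw [sp M hi] <;>
      linarith [h.k0, h.t2]

open Classical in
/-- the crossing of a threshold when the primes may exceed `ν` -/
lemma cross_T {τ ν δ z zm lo E κ N : ℝ} {j r : ℕ} (hC : Crs sysG τ ν δ)
    (hW : Win τ ν zm lo E j r) (hz : z ≤ zm) (hν : 0 ≤ ν) (hκ : 0 < κ) (hN : 0 < N) :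
    ∃ η : ℝ, 0 < η ∧ ∃ K : ℕ, 2 ≤ K ∧ ∀ (ι : Type) [Fintype ι] (x : ι → ℝ) (pr A D U : ι → Prop)
      (c m σ : ℝ), τ + δ ≤ c → c + τ + δ ≤ 1 → (∀ k, D k → ¬ A k ∧ ¬ U k) →
      (∀ k, D k → pr k ∧ κ ≤ x k ∧ x k ≤ z) → (∀ k, 0 ≤ x k) → ∑ k, x k = 1 →
      ∑ k, (if A k then x k else 0) < c →
      ∑ k, (if A k then x k else 0) + ∑ k, (if D k then x k else 0) + m = 1 →
      ∑ k, (if U k then x k else 0) = σ → lo ≤ σ → m ≤ τ + δ →
      (ν < z → m + j * z ≤ τ + δ ∧ r * σ + (r * j + 1) * z ≤ E) →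
      (Fintype.card ι : ℝ) ≤ N → sysG.q2 τ η K pr x := by
  obtain ⟨η, hη, K, hK, hC⟩ := hC κ N hκ hN
  refine ⟨η, hη, K, hK, fun ι _ x pr A D U c m σ c1 c2 hA hD h0 h1 h2 h3 h4 h5 h6 h7 h8 => ?_⟩
  set B := univ.filter fun k => D k ∧ ν < x k with hB
  have bz : ∀ k ∈ B, D k ∧ ν < x k ∧ x k ≤ z := fun k hk =>
    have := (mem_filter.1 hk).2
    ⟨this.1, this.2, (hD k this.1).2.2⟩
  rcases le_or_gt B.card j with e | e
  · refine hC ι x pr A (fun k => D k ∧ x k ≤ ν) c c1 c2 (fun k hk => (hA k hk.1).1)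
      (fun k hk => ⟨(hD k hk.1).1, (hD k hk.1).2.1, hk.2⟩) h0 h1 h2 ?_ h8
    have e1 : ∑ k, (if D k then x k else 0) =
        ∑ k, (@ite ℝ (D k ∧ x k ≤ ν) (propDecidable _) (x k) 0) + ∑ k ∈ B, x k := by
      rw [hB, sum_filter, ← sum_add_distrib]
      refine sum_congr rfl fun k _ => ?_
      by_cases a : D k
      · rcases le_or_gt (x k) ν with b | b
        · simp [a, b, b.not_gt]
        · simp [a, b, b.not_ge]
      · simp [a]
    have e2 : m + ∑ k ∈ B, x k ≤ τ + δ := by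
      rcases B.eq_empty_or_nonempty with a | ⟨k, a⟩
      · rw [a, sum_empty]
        linarith
      · have z1 := (bz k a).2.1.trans_le (bz k a).2.2
        have z2 := sum_le_card_nsmul B x z fun k hk => (bz k hk).2.2
        have z3 : (B.card : ℝ) * z ≤ j * z :=
          mul_le_mul_of_nonneg_right (by exact_mod_cast e) (by linarith)
        rw [nsmul_eq_mul] at z2
        linarith [(h7 z1).1]
    linarith
  · obtain ⟨T, t1, t2⟩ := exists_subset_card_eq (show j + 1 ≤ B.card from e)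
    obtain ⟨i, i1, i2⟩ := exists_min_image T x (card_pos.1 (by omega))
    obtain ⟨b1, b2, b3⟩ := bz i (t1 i1)
    have t3 : (T.erase i).card = j := by rw [card_erase_of_mem i1, t2]; rfl
    have s1 := card_nsmul_le_sum (T.erase i) x (x i) fun k hk => i2 k (mem_of_mem_erase hk)
    have s2 := sum_le_card_nsmul (T.erase i) x z fun k hk => (bz k (t1 (mem_of_mem_erase hk))).2.2
    rw [t3, nsmul_eq_mul] at s1 s2
    have s3 : ∑ k ∈ univ.filter U ∪ T.erase i, x k = σ + ∑ k ∈ T.erase i, x k := by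
      rw [sum_union, sum_filter, h4]
      exact disjoint_left.2 fun k a b =>
        (hA k (bz k (t1 (mem_of_mem_erase b))).1).2 (mem_filter.1 a).2
    have s4 := mul_le_mul_of_nonneg_left s2 (Nat.cast_nonneg r : (0 : ℝ) ≤ r)
    refine Or.inr (Or.inr (hW ι x pr (univ.filter U ∪ T.erase i) i (fun a => ?_) (hD i b1).1 b2
      (b3.trans hz) h1 (by rw [s3]; linarith) (by rw [s3]; linarith [(h7 (b2.trans_le b3)).2])))
    rcases mem_union.1 a with a | a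
    exacts [(hA i b1).2 (mem_filter.1 a).2, notMem_erase _ _ a]

/-- the conditions on the sums `m` (outside the moments) and `σ` (in the window) -/
def TP (τ ν δ z lo E m σ : ℝ) (j r : ℕ) : Prop :=
  lo ≤ σ ∧ m ≤ τ + δ ∧ (ν < z → m + j * z ≤ τ + δ ∧ r * σ + (r * j + 1) * z ≤ E)

lemma sum_U {r : ℕ} {u : Fin r → ℕ} (hu : ∀ i, u i ≤ 1) (a : Fin r → ℝ) :
    ∑ i, (if u i = 1 then a i else 0) = ∑ i, (u i : ℝ) * a i :=
  sum_congr rfl fun i _ => by
    have := hu i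
    split_ifs with e
    · simp [e]
    · simp [show u i = 0 by omega]

/-- one sieved factor -/
theorem ut_one {n j r : ℕ} {τ ν s δ z zm lo E : ℝ} {B : Fin n → Blk} {k1 k2 k3 u : Fin n → ℕ}
    (hτ : 1 / 3 ≤ τ) (hs : 0 < s) (hδ : 0 ≤ δ) (h2 : 2 * τ + 2 * δ ≤ 1) (hν : 0 ≤ ν)
    (hC : Crs sysG τ ν δ) (hW : Win τ ν zm lo E j r) (hz : z ≤ zm)
    (hk : ∀ i, k1 i + k2 i + 2 * k3 i = 2) (hu : ∀ i, u i ≤ 1)
    (hB : ∀ a, InBox B a → (∃ W : ℝ,
      max τ (τ / 2 + 2 * ∑ i, (k1 i : ℝ) * a i) + max τ (∑ i, (k2 i : ℝ) * a i) ≤ 2 * W ∧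
      W + s + τ + δ ≤ 1) ∧
      TP τ ν δ z lo E (∑ i, (k3 i : ℝ) * a i) (∑ i, (u i : ℝ) * a i) j r) :
    DustOKG sysG τ B z := by
  classical
  refine ⟨s / 2, by positivity, fun κ hκ => ?_⟩
  obtain ⟨η, hη, K, hK, hC⟩ := cross_T (N := n + 1 / κ + 1) hC hW hz hν hκ (by positivity)
  refine ⟨η, hη, K, fun l a q b ha hq hb h1 => ?_⟩
  obtain ⟨⟨W, w0, w2⟩, p1, p2, p3⟩ := hB a ha
  obtain ⟨s1, s2⟩ := split_UW hk a
  have m1 := le_max_left (τ + δ) (W + s)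
  have m2 := le_max_right (τ + δ) (W + s)
  have m3 := max_le (show τ + δ ≤ 1 - τ - δ by linarith) (show W + s ≤ 1 - τ - δ by linarith)
  rcases le_or_gt (max (τ + δ) (W + s)) (b + ∑ i, if k3 i = 0 then a i else 0) with e | e
  · refine Or.inl ⟨?_, (evalW_uw (sm := fun o => o = none) (x1 := MP_c853c5_nt.E.av τ b) (x2 := 0)
      (c := Sum.elim a q) (k1 := Sum.elim k1 fun _ => 0) (k2 := Sum.elim k2 fun _ => 0)
      (k3 := Sum.elim k3 fun _ => 1) hK (by rintro (i | i); exacts [hk i, rfl]) rfl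
      (Or.inr le_rfl) ?_).group (Option.map some) (fun o => ?_)
      fun _ hi => ⟨none, rfl, fun j => by rw [hi, Option.map_eq_none_iff]⟩⟩
    · linarith [le_max_left τ (τ / 2 + 2 * ∑ i, (k1 i : ℝ) * a i),
        le_max_right τ (τ / 2 + 2 * ∑ i, (k1 i : ℝ) * a i),
        le_max_right τ (∑ i, (k2 i : ℝ) * a i)]
    · simp only [Fintype.sum_sum_type, Sum.elim_inl, Sum.elim_inr, Nat.cast_zero, zero_mul,
        sum_const_zero, add_zero, mul_zero, zero_add, Nat.cast_one, one_mul]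
      linarith [max_le (show τ ≤ 1 - s - W by linarith)
        (show ∑ i, (k3 i : ℝ) * a i + ∑ i, q i ≤ 1 - s - W by linarith)]
    · rw [fib_W]
      rcases o with _ | _ | o | o <;> simp [sum_filter]
  · have h3 : 0 ≤ ∑ i, a i := sum_nonneg fun i _ => (ha i).1
    have h4 := card_le_of hκ hq (by linarith)
    refine Or.inr (hC _ _ _
      (fun o => o.elim True (Sum.elim (fun i => k3 i = 0) fun _ => False))
      (fun o => o.elim False (Sum.elim (fun _ => False) fun _ => True))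
      (fun o => o.elim False (Sum.elim (fun i => u i = 1) fun _ => False)) _ _ _ m1 (by linarith)
      (by rintro (_ | i | i) <;> simp) ?_ ?_ ?_
      (by simpa [Fintype.sum_option, Fintype.sum_sum_type] using e)
      (by
        simp [Fintype.sum_option, Fintype.sum_sum_type]
        linarith)
      (by simpa [Fintype.sum_option, Fintype.sum_sum_type] using sum_U hu a) p1 p2 p3 ?_)
    · rintro (_ | i | i) h
      exacts [h.elim, h.elim, ⟨trivial, hq i⟩]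
    · rintro (_ | i | i)
      exacts [hb, (ha i).1, hκ.le.trans (hq i).1]
    · rw [Fintype.sum_option, Fintype.sum_sum_type, add_comm]
      exact h1
    · simp only [Fintype.card_option, Fintype.card_sum, Fintype.card_fin]
      push_cast
      linarith

/-- two sieved factors -/
theorem ut_two {n j r : ℕ} {τ ν s δ z z1 z2 zm lo E l h : ℝ} {B : Fin n → Blk}
    {k1 k2 k3 u : Fin n → ℕ}
    (hτ : 1 / 3 ≤ τ) (hs : 0 < s) (hδ : 0 ≤ δ) (h2 : 2 * τ + 2 * δ ≤ 1) (hν : 0 ≤ ν)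
    (hC : Crs sysG τ ν δ) (hW : Win τ ν zm lo E j r) (hz : z ≤ zm) (hz1 : z1 ≤ z) (hz2 : z2 ≤ z)
    (hk : ∀ i, k1 i + k2 i + 2 * k3 i = 2) (hu : ∀ i, u i ≤ 1)
    (hB : ∀ a, InBox B a → (∃ W : ℝ,
      max τ (τ / 2 + 2 * ∑ i, (k1 i : ℝ) * a i) + max τ (τ / 2 + 2 * ∑ i, (k2 i : ℝ) * a i) ≤
        2 * W ∧ W + s + τ + δ ≤ 1) ∧
      TP τ ν δ z lo E (∑ i, (k3 i : ℝ) * a i) (∑ i, (u i : ℝ) * a i) j r) :
    DustOK2G sysG τ B z1 z2 l h := by
  classical
  refine ⟨s / 2, by positivity, fun κ hκ => ?_⟩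
  obtain ⟨η, hη, K, hK, hC⟩ :=
    cross_T (N := n + 1 / κ + 1 / κ + 2) hC hW hz hν hκ (by positivity)
  refine ⟨η, hη, K, fun j1 j2 a q1 q2 b1 b2 ha hq1 hq2 hb1 hb2 h1 _ _ => ?_⟩
  obtain ⟨⟨W, w0, w2⟩, p1, p2, p3⟩ := hB a ha
  obtain ⟨s1, s2⟩ := split_UW hk a
  have m1 := le_max_left (τ + δ) (W + s)
  have m2 := le_max_right (τ + δ) (W + s)
  have m3 := max_le (show τ + δ ≤ 1 - τ - δ by linarith) (show W + s ≤ 1 - τ - δ by linarith)
  rcases le_or_gt (max (τ + δ) (W + s)) (b1 + (b2 + ∑ i, if k3 i = 0 then a i else 0))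
    with e | e
  · have key : ∀ (sm : Option (Option (Fin n ⊕ Fin j1 ⊕ Fin j2)) → Prop) (x1 x2 : ℝ)
        (l1 l2 : Fin n → ℕ), (∀ i, l1 i + l2 i + 2 * k3 i = 2) → sm none →
        (sm (some none) ∨ x2 ≤ 1 / 10) →
        max τ (τ / 2 + 2 * ∑ i, (l1 i : ℝ) * a i) + max τ (τ / 2 + 2 * ∑ i, (l2 i : ℝ) * a i) ≤
          2 * W → EvalW sm K τ (1 / 2 - s / 2)
            fun o => o.elim x1 fun o' => o'.elim x2 (Sum.elim a (Sum.elim q1 q2)) := by
      intro sm x1 x2 l1 l2 hl p1 p2 p3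
      refine evalW_uw (k1 := Sum.elim l1 fun _ => 0) (k2 := Sum.elim l2 fun _ => 0)
        (k3 := Sum.elim k3 fun _ => 1) hK (by rintro (i | i); exacts [hl i, rfl]) p1
        (p2.imp (fun h => ⟨h, le_rfl⟩) fun h => small_UW hτ h) ?_
      simp only [Fintype.sum_sum_type, Sum.elim_inl, Sum.elim_inr, Nat.cast_zero, zero_mul,
        sum_const_zero, add_zero, Nat.cast_one, one_mul]
      linarith [max_le (show τ ≤ 1 - s - W by linarith)
        (show ∑ i, (k3 i : ℝ) * a i + (∑ i, q1 i + ∑ i, q2 i) ≤ 1 - s - W by linarith)]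
    rcases le_total (1 / 10) b1 with d1 | d1 <;> rcases le_total (1 / 10) b2 with d2 | d2
    · exact Or.inr (Or.inr (Or.inr ⟨d1, d2, key _ _ _ k1 k2 hk (Or.inl rfl)
        (Or.inl (Or.inr rfl)) w0⟩))
    · exact Or.inr (Or.inl ⟨d1, key _ _ _ k1 k2 hk rfl (Or.inr d2) w0⟩)
    · exact Or.inr (Or.inr (Or.inl ⟨d2, key _ _ _ k2 k1 (fun i => by have := hk i; omega) rfl
        (Or.inr d1) (by linarith)⟩))
    · linarith [le_max_right τ (τ / 2 + 2 * ∑ i, (k1 i : ℝ) * a i),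
        le_max_right τ (τ / 2 + 2 * ∑ i, (k2 i : ℝ) * a i)]
  · have h3 : 0 ≤ ∑ i, a i := sum_nonneg fun i _ => (ha i).1
    have h4 : 0 ≤ ∑ i, q1 i := sum_nonneg fun i _ => hκ.le.trans (hq1 i).1
    have h5 : 0 ≤ ∑ i, q2 i := sum_nonneg fun i _ => hκ.le.trans (hq2 i).1
    have h6 := card_le_of hκ hq1 (by linarith)
    have h7 := card_le_of hκ hq2 (by linarith)
    refine Or.inl (hC _ _ _
      (fun o => o.elim True fun o' => o'.elim True (Sum.elim (fun i => k3 i = 0) fun _ => False))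
      (fun o => o.elim False fun o' => o'.elim False (Sum.elim (fun _ => False) fun _ => True))
      (fun o => o.elim False fun o' => o'.elim False (Sum.elim (fun i => u i = 1) fun _ => False))
      _ _ _ m1 (by linarith) (by rintro (_ | _ | i | i) <;> simp) ?_ ?_ ?_
      (by simpa [Fintype.sum_option, Fintype.sum_sum_type] using e)
      (by
        simp [Fintype.sum_option, Fintype.sum_sum_type]
        linarith)
      (by simpa [Fintype.sum_option, Fintype.sum_sum_type] using sum_U hu a) p1 p2 p3 ?_)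
    · rintro (_ | _ | i | i | i) h
      exacts [h.elim, h.elim, h.elim, ⟨trivial, (hq1 i).imp_right fun e => e.trans hz1⟩,
        ⟨trivial, (hq2 i).imp_right fun e => e.trans hz2⟩]
    · rintro (_ | _ | i | i | i)
      exacts [hb1, hb2, (ha i).1, hκ.le.trans (hq1 i).1, hκ.le.trans (hq2 i).1]
    · simp only [Fintype.sum_option, Fintype.sum_sum_type, Option.elim, Sum.elim_inl, Sum.elim_inr]
      linarith
    · simp only [Fintype.card_option, Fintype.card_sum, Fintype.card_fin]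
      push_cast
      linarith

end Pool.Agent.MP_c853c5_nt.DV

end
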