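import Pool.Agent.MP_c853c5_nt.X.GdD
import Pool.Agent.MP_c853c5_nt.X.Pk
import Pool.Agent.MP_c853c5_nt.X.SndA
import Pool.Agent.MP_c853c5_nt.X.GtD
import Pool.Agent.MP_c853c5_nt.X.FPD
import Pool.Agent.MP_c853c5_nt.X.FQ
import Pool.Agent.MP_c853c5_nt.DT.L3D

section

/-!
The lane library: packed vectors with fields of `32` bits, the grid, the test of a row.
-/

set_option autoImplicit false
set_option exponentiation.threshold 2000

open Finset

namespace Pool.Agent.MP_c853c5_nt.X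

open Pool.Agent.MP_c853c5_nt.S Pool.Agent.MP_c853c5_nt.REG

namespace Ln

lemma pk_succ (n : ℕ) (f : ℕ → ℕ) : pk (n + 1) f = pk n f + f n * 2 ^ (32 * n) :=
  sum_range_succ _ _

lemma pk_congr {n : ℕ} {f g : ℕ → ℕ} (h : ∀ c < n, f c = g c) : pk n f = pk n g :=
  sum_congr rfl fun c hc => by rw [h c (mem_range.1 hc)]

lemma pk_zero (n : ℕ) : pk n (fun _ => 0) = 0 := by simp [pk]

lemma pk_add (n : ℕ) (f g : ℕ → ℕ) : pk n f + pk n g = pk n fun c => f c + g c := by
  simp only [pk, add_mul, sum_add_distrib]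

lemma pk_smul (n w : ℕ) (f : ℕ → ℕ) : w * pk n f = pk n fun c => w * f c := by
  simp only [pk, mul_sum, mul_assoc]

lemma pk_sub {n : ℕ} {f g : ℕ → ℕ} (h : ∀ c < n, g c ≤ f c) :
    pk n f - pk n g = pk n fun c => f c - g c := by
  refine Nat.sub_eq_of_eq_add ?_
  rw [pk_add]
  exact pk_congr fun c hc => (Nat.sub_add_cancel (h c hc)).symm

lemma pk_lt {n : ℕ} {f : ℕ → ℕ} (h : ∀ c < n, f c < 2 ^ 32) : pk n f < 2 ^ (32 * n) := by
  induction n with
  | zero => simp [pk]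
  | succ n ih =>
    have h1 := ih fun c hc => h c (Nat.lt_succ_of_lt hc)
    have h2 : (f n + 1) * 2 ^ (32 * n) ≤ 2 ^ 32 * 2 ^ (32 * n) :=
      Nat.mul_le_mul_right _ (h n (Nat.lt_succ_self n))
    rw [pk_succ, show 32 * (n + 1) = 32 + 32 * n by ring, pow_add]
    rw [add_mul, one_mul] at h2
    omega

lemma pk_bit {n : ℕ} {f : ℕ → ℕ} (h : ∀ c < n, f c < 2 ^ 32) (c : ℕ) {i : ℕ} (hi : i < 32) :
    (pk n f).testBit (32 * c + i) = (decide (c < n) && (f c).testBit i) := by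
  induction n with
  | zero => simp [pk]
  | succ n ih =>
    have h0 : ∀ c < n, f c < 2 ^ 32 := fun c hc => h c (Nat.lt_succ_of_lt hc)
    rw [pk_succ, add_comm, mul_comm (f n), Nat.testBit_two_pow_mul_add _ (pk_lt h0)]
    rcases lt_trichotomy c n with g | g | g
    · rw [if_pos (by omega), ih h0, decide_eq_true g, decide_eq_true (Nat.lt_succ_of_lt g)]
    · subst g
      rw [if_neg (by omega), Nat.add_sub_cancel_left, decide_eq_true (Nat.lt_succ_self c),
        Bool.true_and]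
    · rw [if_neg (by omega), decide_eq_false (by omega : ¬ c < n + 1), Bool.false_and]
      exact Nat.testBit_lt_two_pow ((h n (Nat.lt_succ_self n)).trans_le
        (Nat.pow_le_pow_right two_pos (by omega)))

lemma pk_app (n m : ℕ) (f g : ℕ → ℕ) :
    pk n f + pk m g <<< (32 * n) = pk (n + m) fun c => if c < n then f c else g (c - n) := by
  rw [Nat.shiftLeft_eq, pk, pk, pk, sum_range_add, sum_mul]
  congr 1
  · exact sum_congr rfl fun c hc => by rw [if_pos (mem_range.1 hc)]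
  · refine sum_congr rfl fun c _ => ?_
    rw [if_neg (by omega), Nat.add_sub_cancel_left, mul_add, pow_add]
    ring

/-- two copies of the lanes, the second one changed by `w` -/
lemma pk_two {n : ℕ} (hn : 0 < n) (f : ℕ → ℕ) (w : ℕ) :
    pk n f + (pk n fun c => f c + w) <<< (32 * n) =
      pk (n * 2) fun c => f (c % n) + w * (c / n) := by
  rw [pk_app, mul_two]
  refine pk_congr fun c hc => ?_
  split_ifs with g
  · rw [Nat.mod_eq_of_lt g, Nat.div_eq_of_lt g, mul_zero, add_zero]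
  · have e : c = c - n + n := by omega
    have g' : c - n < n := by omega
    generalize c - n = d at e g'
    subst e
    rw [Nat.add_mod_right, Nat.mod_eq_of_lt g', Nat.add_div_right _ hn, Nat.div_eq_of_lt g',
      zero_add, mul_one]

lemma dbl_eq (m : ℕ) : ∀ {n : ℕ} (_ : 0 < n) (f : ℕ → ℕ),
    dbl m (32 * n) (pk n f) = pk (n * 2 ^ m) fun c => f (c % n) := by
  induction m with
  | zero =>
    intro n _ f
    rw [pow_zero, mul_one]
    exact pk_congr fun c hc => by rw [Nat.mod_eq_of_lt hc]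
  | succ m ih =>
    intro n hn f
    show force (pk n f + pk n f <<< (32 * n)) (fun V' => force (2 * (32 * n)) fun s' =>
      dbl m s' V') = _
    have e := pk_two hn f 0
    simp only [add_zero, zero_mul] at e
    rw [force_eq, force_eq, e, show 2 * (32 * n) = 32 * (n * 2) by ring,
      ih (Nat.mul_pos hn two_pos), show n * 2 * 2 ^ m = n * 2 ^ (m + 1) by ring]
    exact pk_congr fun c _ => by rw [Nat.mod_mul_right_mod]

lemma rmp_eq (b : ℕ) : ∀ {n : ℕ} (_ : 0 < n) (f : ℕ → ℕ) (w : ℕ) (K : ℕ → ℕ → ℕ → ℕ),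
    rmp b (32 * n) (pk n fun _ => 1) (pk n f) w K =
      K (32 * (n * 2 ^ b)) (pk (n * 2 ^ b) fun _ => 1)
        (pk (n * 2 ^ b) fun c => f (c % n) + w * (c / n)) := by
  induction b with
  | zero =>
    intro n _ f w K
    rw [pow_zero, mul_one]
    refine congrArg (K _ _) (pk_congr fun c hc => ?_)
    rw [Nat.mod_eq_of_lt hc, Nat.div_eq_of_lt hc, mul_zero, add_zero]
  | succ b ih =>
    intro n hn f w K
    show force (pk n f + (pk n f + w * pk n fun _ => 1) <<< (32 * n)) (fun X' =>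
      force ((pk n fun _ => 1) + (pk n fun _ => 1) <<< (32 * n)) fun O' =>
      force (2 * (32 * n)) fun s' => force (2 * w) fun w' => rmp b s' O' X' w' K) = _
    have e := pk_two hn (fun _ => 1) 0
    simp only [add_zero, zero_mul] at e
    have e' := pk_two hn f w
    rw [force_eq, force_eq, force_eq, force_eq, e, pk_smul, pk_add]
    simp only [mul_one]
    rw [e', show 2 * (32 * n) = 32 * (n * 2) by ring,
      ih (Nat.mul_pos hn two_pos), show n * 2 * 2 ^ b = n * 2 ^ (b + 1) by ring]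
    refine congrArg (K _ _) (pk_congr fun c _ => ?_)
    rw [Nat.mod_mul_right_mod, Nat.mod_mul_right_div_self, ← Nat.div_div_eq_div_mul, add_assoc,
      mul_comm 2 w, mul_assoc, ← mul_add, Nat.mod_add_div]

lemma off_succ (bs j : ℕ) : off bs (j + 1) = b3 bs j + off bs j := rfl

lemma off_le (bs j n : ℕ) : off bs j ≤ off bs (j + n) := by
  induction n with
  | zero => exact le_rfl
  | succ n ih => rw [← add_assoc, off_succ]; omega

lemma lanes_eq (bs h n : ℕ) : ∀ (j m : ℕ) (K : ℕ → List ℕ → ℕ), off bs j + m = off bs (j + n) →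
    ∃ L : List ℕ, lanes bs h n j (32 * 2 ^ off bs j) (pk (2 ^ off bs j) fun _ => 1) m K =
      K (pk (2 ^ off bs (j + n)) fun _ => 1) L ∧
      ∀ i < n, nthN L i = pk (2 ^ off bs (j + n)) fun c => get h (j + i) * cx bs (j + i) c := by
  induction n with
  | zero => exact fun j m K _ => ⟨[], rfl, fun i hi => absurd hi (Nat.not_lt_zero i)⟩
  | succ n ih =>
    intro j m K hm
    have e1 : j + (n + 1) = j + 1 + n := by ring
    have e2 := off_le bs (j + 1) n
    rw [e1] at hm ⊢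
    rw [off_succ] at e2
    have e3 : 2 ^ off bs j * 2 ^ b3 bs j = 2 ^ off bs (j + 1) := by
      rw [off_succ, pow_add, mul_comm]
    have e4 : off bs (j + 1) + (m - b3 bs j) = off bs (j + 1 + n) := by
      rw [off_succ]
      omega
    obtain ⟨L, h1, h2⟩ := ih (j + 1) (m - b3 bs j) (fun O2 L => K O2
      ((pk (2 ^ off bs (j + 1 + n)) fun c => get h j * cx bs j c) :: L)) e4
    refine ⟨(pk (2 ^ off bs (j + 1 + n)) fun c => get h j * cx bs j c) :: L, ?_, fun i hi => ?_⟩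
    · show force (b3 bs j) (fun b => force (get h j) fun w => force (m - b) fun m' =>
        rmp b (32 * 2 ^ off bs j) (pk (2 ^ off bs j) fun _ => 1) 0 w fun s' O' X =>
        force (dbl m' s' X) fun X' => force (j + 1) fun j' =>
        lanes bs h n j' s' O' m' fun O2 L => K O2 (X' :: L)) = _
      rw [force_eq, force_eq, force_eq, ← pk_zero (2 ^ off bs j), rmp_eq _ (Nat.two_pow_pos _),
        force_eq, force_eq, dbl_eq _ (Nat.mul_pos (Nat.two_pow_pos _) (Nat.two_pow_pos _)),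
        ← h1]
      simp only [zero_add, Nat.mod_mul_right_div_self]
      rw [e3, ← pow_add, e4]
      rfl
    · cases i with
      | zero => rfl
      | succ i =>
        rw [show j + (i + 1) = j + 1 + i by ring]
        exact h2 i (Nat.lt_of_succ_lt_succ hi)

lemma fld_lt (f : ℕ → ℕ) (k : ℕ) : fld f k < 2 ^ (24 * k) := by
  induction k with
  | zero => exact Nat.one_pos
  | succ k ih =>
    show mn (f k) 16777215 <<< (24 * k) + fld f k < _
    have h2 : (min (f k) 16777215 + 1) * 2 ^ (24 * k) ≤ 2 ^ 24 * 2 ^ (24 * k) :=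
      Nat.mul_le_mul_right _ (by omega)
    rw [mn_eq, Nat.shiftLeft_eq, show 24 * (k + 1) = 24 + 24 * k by ring, pow_add]
    rw [add_mul, one_mul] at h2
    omega

lemma get_fld (f : ℕ → ℕ) {k j : ℕ} (hj : j < k) : get (fld f k) j = min (f j) 16777215 := by
  induction k with
  | zero => exact absurd hj (Nat.not_lt_zero j)
  | succ k ih =>
    show get (mn (f k) 16777215 <<< (24 * k) + fld f k) j = _
    refine Nat.eq_of_testBit_eq fun i => ?_
    rw [get_eq, mn_eq, Nat.shiftLeft_eq, mul_comm (min _ _), Nat.testBit_mod_two_pow,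
      Nat.testBit_shiftRight, Nat.testBit_two_pow_mul_add _ (fld_lt f k)]
    by_cases hi : i < 24
    · rcases Nat.lt_succ_iff_lt_or_eq.1 hj with g | g
      · rw [if_pos (by omega), ← ih g, get_eq, Nat.testBit_mod_two_pow, Nat.testBit_shiftRight]
      · subst g
        rw [if_neg (by omega), Nat.add_sub_cancel_left, decide_eq_true hi, Bool.true_and]
    · rw [decide_eq_false hi, Bool.false_and]
      refine (Nat.testBit_lt_two_pow (lt_of_lt_of_le (?_ : _ < 2 ^ 24)
        (Nat.pow_le_pow_right two_pos (not_lt.1 hi)))).symm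
      omega

lemma le_cdv (σ : ℕ) {c : ℕ} (hc : 0 < c) : σ ≤ cdv σ c * c := by
  rw [cdv, force_eq]
  show σ ≤ (σ + (c - 1)) / c * c
  have h1 := Nat.div_add_mod (σ + (c - 1)) c
  have h2 := Nat.mod_lt (σ + (c - 1)) hc
  rw [mul_comm] at h1
  omega

lemma cx_lt (bs j c : ℕ) : cx bs j c < 2 ^ b3 bs j := Nat.mod_lt _ (Nat.two_pow_pos _)

/-- the lanes of a weighted sum of nodes -/
noncomputable def sx (g : Gr) (l : List ℕ) (c : ℕ) : ℕ :=
  (l.map fun e => cf e * (get g.h (nd e) * cx g.bs (nd e) c)).sum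

variable {g : Gr} {S : NS}

lemma sumX_eq (hg : g.OK S) {l : List ℕ} (hl : ∀ e ∈ l, nd e < S.k) :
    sumX g.X l = pk (2 ^ g.B) (sx g l) := by
  induction l with
  | nil => exact (pk_zero _).symm
  | cons e l ih =>
    rw [List.forall_mem_cons] at hl
    show cf e * nthN g.X (nd e) + sumX g.X l = _
    rw [ih hl.2, hg.hX _ hl.1, pk_smul, pk_add]
    rfl

lemma sx_le (hg : g.OK S) {l : List ℕ} (hl : ∀ e ∈ l, nd e < S.k) (c : ℕ) :
    sx g l c ≤ sumL g.wd l := by
  induction l with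
  | nil => exact le_rfl
  | cons e l ih =>
    rw [List.forall_mem_cons] at hl
    show cf e * (get g.h (nd e) * cx g.bs (nd e) c) + sx g l c ≤
      cf e * get g.wd (nd e) + sumL g.wd l
    rw [hg.wd _ hl.1]
    exact add_le_add (Nat.mul_le_mul_left _ (Nat.mul_le_mul_left _ (cx_lt _ _ _).le)) (ih hl.2)

lemma sx_ub {k v c : ℕ} {y : Pt} {l : List ℕ} (hl : ∀ e ∈ l, nd e < k)
    (h : ∀ j < k, y j ≤ ((get v j + get g.h j * cx g.bs j c : ℕ) : ℝ) / SC) :
    (l.map (W y)).sum ≤ ((sumL v l + sx g l c : ℕ) : ℝ) / SC := by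
  induction l with
  | nil => simp [sumL, sx]
  | cons e l ih =>
    rw [List.forall_mem_cons] at hl
    have e1 : sumL v (e :: l) + sx g (e :: l) c =
        cf e * (get v (nd e) + get g.h (nd e) * cx g.bs (nd e) c) + (sumL v l + sx g l c) := by
      show cf e * get v (nd e) + sumL v l +
        (cf e * (get g.h (nd e) * cx g.bs (nd e) c) + sx g l c) = _
      ring
    rw [e1, List.map_cons, List.sum_cons, Nat.cast_add, add_div, Nat.cast_mul, mul_div_assoc]
    exact add_le_add (mul_le_mul_of_nonneg_left (h _ hl.1) (Nat.cast_nonneg _)) (ih hl.2)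

lemma sx_lb {k v c : ℕ} {y : Pt} {l : List ℕ} (hl : ∀ e ∈ l, nd e < k)
    (h : ∀ j < k, ((get v j + get g.h j * cx g.bs j c : ℕ) : ℝ) / SC ≤ y j) :
    ((sumL v l + sx g l c : ℕ) : ℝ) / SC ≤ (l.map (W y)).sum := by
  induction l with
  | nil => simp [sumL, sx]
  | cons e l ih =>
    rw [List.forall_mem_cons] at hl
    have e1 : sumL v (e :: l) + sx g (e :: l) c =
        cf e * (get v (nd e) + get g.h (nd e) * cx g.bs (nd e) c) + (sumL v l + sx g l c) := by
      show cf e * get v (nd e) + sumL v l +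
        (cf e * (get g.h (nd e) * cx g.bs (nd e) c) + sx g l c) = _
      ring
    rw [e1, List.map_cons, List.sum_cons, Nat.cast_add, add_div, Nat.cast_mul, mul_div_assoc]
    exact add_le_add (mul_le_mul_of_nonneg_left (h _ hl.1) (Nat.cast_nonneg _)) (ih hl.2)

/-- bounds for the nodes on a cell, the node `0` included -/
lemma cell_lb (hg : g.OK S) {c : ℕ} {y : Pt} (hc : Cell g S c y) (hy : Bx S.k S.lo S.hi y) :
    ∀ j < S.k, ((get S.lo j + get g.h j * cx g.bs j c : ℕ) : ℝ) / SC ≤ y j := fun j hj => by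
  rcases Nat.eq_zero_or_pos j with rfl | h
  · rw [hg.h0, zero_mul, add_zero]
    exact (hy 0 hj).1
  · rw [mul_comm]
    exact (hc j h hj).1

lemma cell_ub (hg : g.OK S) {c : ℕ} {y : Pt} (hc : Cell g S c y) (hy : Bx S.k S.lo S.hi y) :
    ∀ j < S.k, y j ≤ ((get g.up j + get g.h j * cx g.bs j c : ℕ) : ℝ) / SC := fun j hj => by
  rcases Nat.eq_zero_or_pos j with rfl | h
  · rw [hg.h0, zero_mul, add_zero, hg.up0]
    exact (hy 0 hj).2
  · rw [hg.up j h hj, show get S.lo j + get g.h j + get g.h j * cx g.bs j c =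
      get S.lo j + (cx g.bs j c + 1) * get g.h j by ring]
    exact (hc j h hj).2

/-- the comparison of two vectors of lanes -/
lemma cmp_ok {n : ℕ} {P Q : ℕ → ℕ} (hP : ∀ c < n, P c ≤ 2 ^ 31) (hQ : ∀ c < n, Q c < 2 ^ 31)
    {c : ℕ} (hc : c < n) :
    ((pk n fun c => 2 ^ 31 + Q c) - pk n P).testBit (32 * c + 31) = true ↔ P c ≤ Q c := by
  rw [pk_sub fun c hc => (hP c hc).trans (Nat.le_add_right _ _),
    pk_bit (fun c hc => by have := hQ c hc; omega) c (by norm_num), decide_eq_true hc,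
    Bool.true_and, Nat.testBit_eq_decide_div_mod_eq, decide_eq_true_iff]
  have h1 := hP c hc
  have h2 := hQ c hc
  omega

lemma onM_T (hg : g.OK S) (c : ℕ) : onM g.T c ↔ c < 2 ^ g.B := by
  rw [onM, hg.hT, pk_bit (fun _ _ => by norm_num) c (by norm_num), Nat.testBit_two_pow_self,
    Bool.and_true, decide_eq_true_iff]

lemma onM_land (m m' c : ℕ) : onM (m &&& m') c ↔ onM m c ∧ onM m' c := by
  rw [onM, onM, onM, Nat.testBit_and, Bool.and_eq_true]

lemma onM_lor (m m' c : ℕ) : onM (m ||| m') c ↔ onM m c ∨ onM m' c := by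
  rw [onM, onM, onM, Nat.testBit_or, Bool.or_eq_true]

lemma onM_zero (c : ℕ) : ¬ onM 0 c := by
  rw [onM, Nat.zero_testBit]
  exact Bool.false_ne_true

/-- the mask as a vector of lanes -/
lemma land_T (hg : g.OK S) (m : ℕ) :
    m &&& g.T = pk (2 ^ g.B) fun c => if m.testBit (32 * c + 31) = true then 2 ^ 31 else 0 := by
  refine Nat.eq_of_testBit_eq fun i => ?_
  have hi : i % 32 < 32 := Nat.mod_lt _ (by norm_num)
  rw [← Nat.div_add_mod i 32, Nat.testBit_and, hg.hT, pk_bit (fun _ _ => by norm_num) _ hi,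
    pk_bit (fun _ _ => by split_ifs <;> norm_num) _ hi]
  by_cases e : i % 32 = 31
  · rw [e]
    cases h : m.testBit (32 * (i / 32) + 31) <;> simp
  · have : (2 ^ 31).testBit (i % 32) = false := Nat.testBit_two_pow_of_ne (Ne.symm e)
    split_ifs <;> simp only [this, Nat.zero_testBit, Bool.and_false]

lemma land_T_shift (hg : g.OK S) (m : ℕ) :
    (m &&& g.T) >>> 31 =
      pk (2 ^ g.B) fun c => if m.testBit (32 * c + 31) = true then 1 else 0 := by
  rw [Nat.shiftRight_eq_div_pow]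
  refine Nat.div_eq_of_eq_mul_right (Nat.two_pow_pos _) ?_
  rw [land_T hg, pk_smul]
  exact pk_congr fun c _ => by split_ifs <;> simp

end Ln

open Ln

lemma Ln.pk_geo (n : ℕ) : 4294967295 * (pk n fun _ => 1) + 1 = 2 ^ (32 * n) ∧
    4294967295 * (pk n fun c => c) + (pk n fun _ => 1) + 2 ^ (32 * n) = n * 2 ^ (32 * n) + 1 := by
  induction n with
  | zero => simp [pk]
  | succ n ih =>
    rw [pk_succ, pk_succ, show 32 * (n + 1) = 32 + 32 * n by ring, pow_add]
    obtain ⟨h1, h2⟩ := ih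
    generalize 2 ^ (32 * n) = q at h1 h2 ⊢
    generalize (pk n fun _ => 1) = x at h1 h2 ⊢
    generalize (pk n fun c => c) = y at h2 ⊢
    constructor <;> nlinarith

lemma Ln.gO_eq (B : ℕ) : gO B = pk (2 ^ B) fun _ => 1 := by
  have h := (pk_geo (2 ^ B)).1
  show (one (32 <<< B) - 1) / 4294967295 = _
  rw [one_eq, Nat.shiftLeft_eq]
  omega

lemma Ln.gI_eq (B : ℕ) : gI B = pk (2 ^ B) fun c => c := by
  have h := (pk_geo (2 ^ B)).2
  show ((one B - 1) <<< (32 <<< B) + 1 - gO B) / 4294967295 = _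
  rw [gO_eq, one_eq, Nat.shiftLeft_eq, Nat.shiftLeft_eq, Nat.sub_mul, one_mul]
  have := Nat.le_mul_of_pos_left (2 ^ (32 * 2 ^ B)) (Nat.two_pow_pos B)
  omega

lemma Ln.gU_eq {B o b : ℕ} (hB : B ≤ 16) (h : o + b ≤ B) :
    gU B o b = pk (2 ^ B) fun c => c / 2 ^ o % 2 ^ b := by
  have p1 : 2 ^ b ≤ 2 ^ 16 := Nat.pow_le_pow_right two_pos (by omega)
  have p2 : 2 ^ B ≤ 2 ^ 16 := Nat.pow_le_pow_right two_pos hB
  show gI B >>> o &&& (one b - 1) * gO B = _
  rw [gI_eq, gO_eq, pk_smul, one_eq]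
  refine Nat.eq_of_testBit_eq fun i => ?_
  have hi : i % 32 < 32 := Nat.mod_lt _ (by norm_num)
  rw [← Nat.div_add_mod i 32, Nat.testBit_and, pk_bit (fun _ _ => by omega) _ hi,
    pk_bit (fun c _ => (Nat.mod_lt _ (Nat.two_pow_pos b)).trans_le (by omega)) _ hi, mul_one,
    Nat.testBit_two_pow_sub_one, Nat.testBit_mod_two_pow, Nat.testBit_shiftRight,
    Nat.testBit_div_two_pow]
  by_cases e : i % 32 < b
  · rw [← add_assoc, add_comm o, add_assoc, pk_bit (fun _ _ => by omega) _ (by omega), add_comm o]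
    simp only [e, decide_true, Bool.and_true, Bool.true_and]
    cases decide (i / 32 < 2 ^ B) <;> simp
  · simp [e]

/-- a further field below the others -/
lemma Ln.get_low {v x j : ℕ} (hv : 2 ^ (24 * (j + 1)) ∣ v) (hx : x < 16777216) :
    2 ^ (24 * j) ∣ v + x <<< (24 * j) ∧ get (v + x <<< (24 * j)) j = x ∧
      ∀ i, j < i → get (v + x <<< (24 * j)) i = get v i := by
  obtain ⟨m, rfl⟩ := hv
  have e : 2 ^ (24 * (j + 1)) * m + x <<< (24 * j) = 2 ^ (24 * j) * (2 ^ 24 * m + x) := by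
    rw [Nat.shiftLeft_eq]
    ring
  have h2 : x <<< (24 * j) < 2 ^ (24 * (j + 1)) := by
    rw [Nat.shiftLeft_eq, show 24 * (j + 1) = 24 + 24 * j by ring, pow_add]
    exact Nat.mul_lt_mul_of_pos_right hx (Nat.two_pow_pos _)
  refine ⟨⟨_, e⟩, ?_, fun i hi => Nat.eq_of_testBit_eq fun n => ?_⟩
  · rw [e, get_eq, Nat.shiftRight_eq_div_pow, Nat.mul_div_cancel_left _ (Nat.two_pow_pos _)]
    omega
  · rw [get_eq, get_eq, Nat.testBit_mod_two_pow, Nat.testBit_mod_two_pow, Nat.testBit_shiftRight,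
      Nat.testBit_shiftRight, Nat.testBit_two_pow_mul_add _ h2, if_neg (by omega),
      Nat.testBit_two_pow_mul, decide_eq_true (by omega : 24 * i + n ≥ 24 * (j + 1)), Bool.true_and]

lemma Ln.mkL_eq (lo hi bs n : ℕ) : ∀ (j : ℕ) (K : KL), mkL lo hi bs n j (off bs j) K < INF →
    ∃ (h up wd : ℕ) (L : List ℕ), mkL lo hi bs n j (off bs j) K = K (off bs (j + n)) h up wd L ∧
      (2 ^ (24 * j) ∣ h ∧ 2 ^ (24 * j) ∣ up ∧ 2 ^ (24 * j) ∣ wd) ∧ ∀ i, j ≤ i → i < j + n →
        get up i = get lo i + get h i ∧ get wd i = get h i * 2 ^ b3 bs i ∧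
        get hi i ≤ get lo i + get h i * 2 ^ b3 bs i ∧
        nthN L (i - j) = get h i * gU (off bs (j + n)) (off bs i) (b3 bs i) := by
  induction n with
  | zero => exact fun j K _ => ⟨0, 0, 0, [], rfl, by simp, fun i h1 h2 => by omega⟩
  | succ n ih =>
    intro j K hl
    have e : mkL lo hi bs (n + 1) j (off bs j) K = force (b3 bs j) fun b =>
      mkT (mkL lo hi bs n) j (off bs j) K b (get lo j)
        ((get hi j - get lo j + (one b - 1)) >>> b) (24 * j) := rfl
    rw [e, force_eq, mkT] at hl ⊢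
    obtain ⟨h1, h2⟩ := grd_lt hl
    have e2 : Nat.add (off bs j) (b3 bs j) = off bs (j + 1) := Nat.add_comm _ _
    rw [h2, force_eq, e2] at hl ⊢
    have a4 : get hi j - get lo j ≤
        (get hi j - get lo j + (one (b3 bs j) - 1)) >>> b3 bs j * 2 ^ b3 bs j := by
      have := le_cdv (get hi j - get lo j) (Nat.two_pow_pos (b3 bs j))
      rw [cdv, force_eq] at this
      rw [one_eq, Nat.shiftRight_eq_div_pow]
      exact this
    generalize (get hi j - get lo j + (one (b3 bs j) - 1)) >>> b3 bs j = w at h1 hl a4 ⊢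
    rw [Nat.blt_eq] at h1
    have a1 : get lo j + w * 2 ^ b3 bs j < 16777215 := Nat.shiftLeft_eq .. ▸ h1
    have a2 : w ≤ w * 2 ^ b3 bs j := Nat.le_mul_of_pos_right _ (Nat.two_pow_pos _)
    obtain ⟨h, up, wd, L, e3, ⟨d1, d2, d3⟩, h3⟩ := ih (j + 1) _ hl
    obtain ⟨c1, c2, c3⟩ := get_low d1 (x := w) (by omega)
    obtain ⟨c4, c5, c6⟩ := get_low d2 (x := get lo j + w) (by omega)
    obtain ⟨c7, c8, c9⟩ := get_low d3 (x := w <<< b3 bs j) (by rw [Nat.shiftLeft_eq]; omega)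
    rw [show j + (n + 1) = j + 1 + n by ring]
    refine ⟨_, _, _, _, e3, ⟨c1, c4, c7⟩, fun i i1 i2 => ?_⟩
    simp only [Nat.add_eq, Nat.shiftLeft_eq'] at c2 c5 c8 ⊢
    rcases i1.eq_or_lt with rfl | i3
    · rw [c2, c5, c8, Nat.sub_self]
      exact ⟨rfl, Nat.shiftLeft_eq .., by omega, Nat.mod_zero _⟩
    · rw [c3 i i3, c6 i i3, c9 i i3, show i - j = i - (j + 1) + 1 by omega]
      exact h3 i i3 i2

theorem mk_ok : MkStmt := fun S bs K hk hl => by
  rw [mkGr] at hl ⊢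
  obtain ⟨h1, h2⟩ := grd_lt hl
  have h4 : b3 bs 0 = 0 := Nat.eq_of_beq_eq_true h1
  have e0 : off bs 1 = 0 := h4
  rw [h2] at hl ⊢
  obtain ⟨h, up, wd, L, e, ⟨d1, d2, d3⟩, h3⟩ := mkL_eq S.lo S.hi bs (Nat.pred S.k) 1 _ (e0 ▸ hl)
  rw [show 1 + Nat.pred S.k = S.k by rw [Nat.pred_eq_sub_one]; omega] at e h3
  rw [e0] at e
  rw [e] at hl ⊢
  obtain ⟨h5, h6⟩ := grd_lt hl
  rw [Nat.ble_eq] at h5
  refine ⟨_, ?_, h6⟩
  have z : ∀ {v : ℕ}, 2 ^ (24 * 1) ∣ v → get v 0 = 0 := fun hv =>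
    Nat.mod_eq_zero_of_dvd hv
  obtain ⟨-, c1, c2⟩ := get_low (j := 0) d2 (get_lt S.hi 0)
  refine ⟨rfl, h5, h4, z d1, (Nat.mod_zero _).trans (gO_eq _), (Nat.mod_zero _).trans ?_,
    fun j hj => ?_, c1, fun j h1 hj => (c2 j h1).trans (h3 j h1 hj).1, fun j hj => ?_,
    fun j h1 hj => (h3 j h1 hj).2.2.1⟩
  · show gO _ <<< 31 = _
    rw [gO_eq, Nat.shiftLeft_eq, mul_comm, pk_smul]
    rfl
  · cases j with
    | zero =>
      show 0 = pk _ fun c => get h 0 * _
      simp only [z d1, zero_mul, pk_zero]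
    | succ j =>
      have := off_le bs (j + 1 + 1) (S.k - (j + 1 + 1))
      rw [show j + 1 + 1 + (S.k - (j + 1 + 1)) = S.k by omega, off_succ] at this
      refine (h3 (j + 1) (by omega) hj).2.2.2.trans ?_
      rw [gU_eq h5 (by omega), pk_smul]
      rfl
  · rcases Nat.eq_zero_or_pos j with rfl | h1
    · show get wd 0 = get h 0 * _
      rw [z d1, z d3, zero_mul]
    · exact (h3 j h1 hj).2.1

/-- the five vectors -/
def Ln.v5 (g : Gr) (S : NS) : ℕ → ℕ
  | 0 => S.lo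
  | 1 => g.up
  | 2 => S.hi
  | 3 => g.wd
  | _ => o24

lemma Ln.get_v4 {j : ℕ} (hj : j < 16) : get o24 j = 1 :=
  (by decide +kernel : ∀ j < 16, get o24 j = 1) j hj

lemma Ln.ent5 (g : Gr) (S : NS) {j : ℕ} (hj : j < 16) :
    Nat.land (Nat.shiftRight (g5 g S) (Nat.mul 24 j)) m5 =
      pw 384 (fun i => get (v5 g S i) j) 5 := by
  have e1 : m5 = pw 384 (fun _ => 2 ^ 24 - 1) 5 := by decide +kernel
  have e5 : ∀ (w : ℕ) (f : ℕ → ℕ), pw w f 5 = f 4 <<< (w * 4) + (f 3 <<< (w * 3) +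
      (f 2 <<< (w * 2) + (f 1 <<< (w * 1) + f 0))) := fun w f => by
    simp only [pw, sum_range_succ, range_zero, sum_empty, Nat.shiftLeft_eq]
    ring
  have e2 : g5 g S = pw 384 (fun i => c5 (v5 g S i)) 5 := by
    rw [e5]
    simp only [g5, Nat.add_eq, Nat.shiftLeft_eq', v5, Nat.reduceMul]
  simp only [c5, one_eq] at e2
  rw [e1, e2, Nat.land_eq, pw_cut (by norm_num) (by norm_num)]
  refine pw_congr fun i hi => ?_
  rw [Nat.shiftRight_eq, ← Nat.shiftRight_add, add_comm,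
    pw_get (f := fun i => Nat.mod (v5 g S i) (2 ^ 384)) (fun _ _ => Nat.mod_lt _ (Nat.two_pow_pos _))
      hi (by rw [Nat.mul_eq]; omega), get_eq]
  show (v5 g S i % 2 ^ 384) >>> _ % _ = _
  refine Nat.eq_of_testBit_eq fun n => ?_
  simp only [Nat.testBit_mod_two_pow, Nat.testBit_shiftRight, Nat.mul_eq]
  by_cases h : n < 24
  · rw [decide_eq_true (show 24 * j + n < 384 by omega), Bool.true_and]
  · simp [h]

lemma Ln.pas_eq {op : ℕ → ℕ → ℕ} (h : ∀ a x y, op (op a x) y = op a (x + y)) (h0 : ∀ a, op a 0 = a)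
    (g : Gr) (S : NS) (l : List ℕ) : ∀ (s : ℕ) (f : ℕ → ℕ) (K : ℕ → (ℕ → ℕ) → ℕ),
    pas op g (g5 g S) l s f K =
      K (s + pw 384 (fun i => sumL (v5 g S i) l) 5) fun a => op (f a) (sumX g.X l) := by
  induction l with
  | nil =>
    intro s f K
    show K s f = K (s + pw 384 (fun _ => 0) 5) fun a => op (f a) 0
    simp only [h0, pw, zero_mul, sum_const_zero, add_zero]
  | cons e l ih =>
    intro s f K
    have e1 : pas op g (g5 g S) (e :: l) s f K = force (nd e) fun j => pas op g (g5 g S) l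
      (Nat.add s (Nat.mul (cf e) (Nat.land (Nat.shiftRight (g5 g S) (Nat.mul 24 j)) m5)))
        (fun a => op (f a) (Nat.mul (cf e) (xg g j))) K := rfl
    rw [e1, force_eq, ih, ent5 g S (j := nd e) (Nat.mod_lt _ (by norm_num)), Nat.add_eq, Nat.mul_eq, mul_comm,
      pw_mul, add_assoc, pw_add]
    simp only [h, mul_comm _ (cf e)]
    rfl

lemma Ln.sumL_le (v : ℕ) (l : List ℕ) : sumL v l ≤ sumL o24 l * 16777216 := by
  induction l with
  | nil => exact Nat.zero_le _
  | cons e l ih =>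
    show cf e * get v (nd e) + sumL v l ≤ (cf e * get _ (nd e) + sumL _ l) * 16777216
    rw [get_v4 (j := nd e) (Nat.mod_lt _ (by norm_num)), mul_one, add_mul]
    exact Nat.add_le_add (Nat.mul_le_mul_left _ (get_lt _ _).le) ih

lemma Ln.f5_eq {g : Gr} {S : NS} {l : List ℕ} (h : sumL o24 l < 4294967296) (i s : ℕ) (hi : i < 5)
    (hs : s = 384 * i) : f5 (0 + pw 384 (fun i => sumL (v5 g S i) l) 5) s = sumL (v5 g S i) l := by
  have b : ∀ i, sumL (v5 g S i) l < 2 ^ 384 := fun i => ((sumL_le _ l).trans_lt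
    (show _ < 2 ^ 56 by omega)).trans_le (Nat.pow_le_pow_right two_pos (by norm_num))
  have := pw_get (s := 0) (b := 384) (fun i _ => b i) hi le_rfl
  rw [Nat.shiftRight_zero, Nat.mod_eq_of_lt (b i)] at this
  rw [zero_add, f5, c5, one_eq, hs]
  exact this

theorem lt_ok : LtStmt := fun g S r c y hg _ h1 h2 hc hm hcell hy => by
  have hy' : Bx S.k S.lo S.hi y := hy
  rw [ltM, pas_eq (op := Nat.sub) Nat.sub_sub Nat.sub_zero,
    pas_eq (op := Nat.add) Nat.add_assoc Nat.add_zero, lt2, cnd_eq] at hm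
  split_ifs at hm with z
  swap
  · exact absurd hm (onM_zero c)
  have z0 : ∀ f : ℕ → ℕ, f 4 * 2 ^ (384 * 4) ≤ 0 + pw 384 f 5 := fun f => by
    rw [zero_add, pw_succ, mul_comm]
    exact Nat.le_add_right _ _
  have z' : sumL o24 r.l1 + sumL o24 r.l2 < 4294967296 := by
    rw [Nat.blt_eq, Nat.shiftRight_eq, show 1536 = 384 * 4 from rfl, Nat.shiftRight_eq_div_pow] at z
    have := (Nat.le_div_iff_mul_le (Nat.two_pow_pos _)).2 ((add_mul _ _ _).trans_le
      (Nat.add_le_add (z0 fun i => sumL (v5 g S i) r.l1) (z0 fun i => sumL (v5 g S i) r.l2)))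
    have := this.trans_lt z
    simpa only [v5] using this
  have z1 : sumL o24 r.l1 < 4294967296 := by omega
  have z2 : sumL o24 r.l2 < 4294967296 := by omega
  have z3 := f5_eq (g := g) (S := S) z2 0 0 (by norm_num) rfl
  rw [f5, Nat.shiftRight_eq, Nat.shiftRight_zero] at z3
  rw [z3, f5_eq z1 2 768 (by norm_num) rfl, f5_eq z1 1 384 (by norm_num) rfl,
    f5_eq z1 3 1152 (by norm_num) rfl, f5_eq z2 3 1152 (by norm_num) rfl, cnd_eq] at hm
  simp only [v5] at hm
  split_ifs at hm with a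
  · rw [Nat.ble_eq] at a
    have a' : (r.c1 : ℝ) + sumL S.hi r.l1 ≤ r.c2 + sumL S.lo r.l2 := by exact_mod_cast a
    have a2 := div_le_div_of_nonneg_right a' SC_pos.le
    have a3 := hy'.ub h1
    have a4 := hy'.lb h2
    rw [add_div, add_div] at a2
    rw [Rw.ok]
    linarith
  rw [lt3, cnd_eq] at hm
  split_ifs at hm with b
  swap
  · exact absurd hm (onM_zero c)
  rw [Nat.blt_eq] at b
  generalize hp : Nat.add r.c1 (sumL g.up r.l1) = p at hm b
  generalize hq : Nat.add r.c2 (sumL S.lo r.l2) = q at hm b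
  have b1 : p - q + sumL g.wd r.l1 < 2147483648 := Nat.left_le_or.trans_lt b
  have b2 : q - p + sumL g.wd r.l2 < 2147483648 := Nat.right_le_or.trans_lt b
  have hm' : onM (((2147483648 + (q - p)) * g.O + sumX g.X r.l2 -
      ((p - q) * g.O + sumX g.X r.l1)) &&& g.T) c := by
    rw [show 2147483648 + (q - p) = p - q + (2147483648 + q - p) by omega, add_mul, add_assoc,
      Nat.add_sub_add_left]
    exact hm
  rw [onM_land, sumX_eq hg h1, sumX_eq hg h2, hg.hO, pk_smul, pk_smul, pk_add, pk_add] at hm'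
  have e := hm'.1
  simp only [mul_one, add_assoc] at e
  have e2 := (cmp_ok (P := fun c => p - q + sx g r.l1 c) (Q := fun c => q - p + sx g r.l2 c)
    (fun c _ => by have := sx_le hg h1 c; omega) (fun c _ => by have := sx_le hg h2 c; omega)
    hc).1 e
  have hp' : r.c1 + sumL g.up r.l1 = p := hp
  have hq' : r.c2 + sumL S.lo r.l2 = q := hq
  have e3 : r.c1 + (sumL g.up r.l1 + sx g r.l1 c) ≤ r.c2 + (sumL S.lo r.l2 + sx g r.l2 c) := by
    omega
  have e4 : (r.c1 : ℝ) + (sumL g.up r.l1 + sx g r.l1 c : ℕ) ≤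
      r.c2 + (sumL S.lo r.l2 + sx g r.l2 c : ℕ) := by exact_mod_cast e3
  have a2 := div_le_div_of_nonneg_right e4 SC_pos.le
  have a3 := sx_ub h1 (cell_ub hg hcell hy')
  have a4 := sx_lb h2 (cell_lb hg hcell hy')
  rw [add_div, add_div] at a2
  rw [Rw.ok]
  linarith

end Pool.Agent.MP_c853c5_nt.X

end

section

/-!
Bits are inserted into the numbers of the lanes.
-/

set_option autoImplicit false

namespace Pool.Agent.MP_c853c5_nt.X

open Ln

lemma in_pad {n : ℕ} {f : ℕ → ℕ} (h : ∀ c, n ≤ c → f c = 0) (k : ℕ) : pk (n + k) f = pk n f := by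
  induction k with
  | zero => rfl
  | succ k ih => rw [← add_assoc, pk_succ, ih, h _ (Nat.le_add_right _ _), zero_mul, add_zero]

lemma in_sh {n : ℕ} {f : ℕ → ℕ} (h : ∀ c, n ≤ c → f c = 0) (k : ℕ) :
    pk n f + pk n f <<< (32 * k) = pk (n + k) fun c => f c + if c < k then 0 else f (c - k) := by
  have e := pk_app k n (fun _ => 0) f
  rw [pk_zero, zero_add] at e
  rw [e, add_comm k n, ← pk_add, in_pad h]

lemma in_rpl (m : ℕ) : ∀ {n : ℕ} (_ : 0 < n) (f : ℕ → ℕ),
    rpl m (32 * n) (pk n f) = pk (n * 2 ^ m) fun c => f (c % n) := by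
  induction m with
  | zero =>
    intro n _ f
    rw [pow_zero, mul_one]
    exact pk_congr fun c hc => by rw [Nat.mod_eq_of_lt hc]
  | succ m ih =>
    intro n hn f
    show rpl m (32 * n + 32 * n) (pk n f + pk n f <<< (32 * n)) = _
    have e := pk_two hn f 0
    simp only [add_zero, zero_mul] at e
    rw [e, show 32 * n + 32 * n = 32 * (n * 2) by ring,
      ih (Nat.mul_pos hn two_pos), show n * 2 * 2 ^ m = n * 2 ^ (m + 1) by ring]
    exact pk_congr fun c _ => by rw [Nat.mod_mul_right_mod]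

lemma in_mK {B q : ℕ} (h : q < B) :
    mK B q = pk (2 ^ B) fun c => if c / 2 ^ q % 2 = 0 then 2 ^ 32 - 1 else 0 := by
  have P := Nat.two_pow_pos q
  have e : gM (32 <<< q) = pk (2 ^ q * 2) fun c => if c < 2 ^ q then 2 ^ 32 - 1 else 0 := by
    rw [mul_two, in_pad fun c hc => if_neg (by omega),
      pk_congr (n := 2 ^ q) (f := fun c => if c < 2 ^ q then 2 ^ 32 - 1 else 0)
        (g := fun _ => 4294967295 * 1) fun c hc => if_pos hc, ← pk_smul]
    show 1 <<< (32 <<< q) - 1 = _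
    rw [Nat.shiftLeft_eq, Nat.shiftLeft_eq, one_mul, ← (pk_geo _).1, Nat.add_sub_cancel]
  show rpl (B - (q + 1)) (64 <<< q) (gM (32 <<< q)) = _
  rw [e, Nat.shiftLeft_eq, show 64 * 2 ^ q = 32 * (2 ^ q * 2) by ring, in_rpl _ (by omega),
    ← pow_succ, ← pow_add, show q + 1 + (B - (q + 1)) = B by omega]
  refine pk_congr fun c _ => ?_
  rw [pow_succ, ← Nat.mod_mul_right_div_self]
  exact if_congr (Nat.div_eq_zero_iff_lt P).symm rfl rfl

lemma in_land {B q n : ℕ} (h : q < B) {f : ℕ → ℕ} (hf : ∀ c, f c < 2 ^ 32) :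
    pk n f &&& mK B q = pk n fun c => if c < 2 ^ B ∧ c / 2 ^ q % 2 = 0 then f c else 0 := by
  rw [in_mK h]
  refine pw_ext (w := 32) (by omega) fun c i hi => ?_
  rw [Nat.testBit_and, pk_bit (fun c _ => hf c) c hi,
    pk_bit (fun c _ => by split_ifs <;> omega) c hi,
    pk_bit (fun c _ => by have := hf c; split_ifs <;> omega) c hi]
  by_cases h1 : c < 2 ^ B
  · by_cases h2 : c / 2 ^ q % 2 = 0
    · rw [if_pos h2, if_pos ⟨h1, h2⟩, Nat.testBit_two_pow_sub_one, decide_eq_true h1,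
        decide_eq_true hi, Bool.true_and, Bool.and_true]
    · rw [if_neg h2, if_neg (show ¬ (_ ∧ _) from fun e => h2 e.2), Nat.zero_testBit,
        Bool.and_false, Bool.and_false, Bool.and_false]
  · rw [if_neg (show ¬ (_ ∧ _) from fun e => h1 e.1), decide_eq_false h1, Nat.zero_testBit,
      Bool.false_and, Bool.and_false, Bool.and_false]

/-- the lanes above the block `P` are spread by the factor `G` -/
def stg (G : ℕ) (f : ℕ → ℕ) (P c : ℕ) : ℕ :=
  if c / P % G = 0 then f (c % P + P * (c / P / G)) else 0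

lemma stg_a {P r : ℕ} (h : r < P) (G : ℕ) (f : ℕ → ℕ) (x : ℕ) :
    stg G f P (r + P * x) = if x % G = 0 then f (r + P * (x / G)) else 0 := by
  rw [stg, Nat.add_mul_div_left _ _ (by omega), Nat.add_mul_mod_self_left, Nat.div_eq_of_lt h,
    Nat.mod_eq_of_lt h, zero_add]

lemma stg_b {P r : ℕ} (h : r < P) (G : ℕ) (f : ℕ → ℕ) (y : ℕ) {b : ℕ} (hb : b < 2) :
    stg G f (P * 2) (r + P * (b + 2 * y)) =
      if y % G = 0 then f (r + P * (b + 2 * (y / G))) else 0 := by
  rw [show r + P * (b + 2 * y) = r + P * b + P * 2 * y by ring, stg_a (by nlinarith),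
    show r + P * b + P * 2 * (y / G) = r + P * (b + 2 * (y / G)) by ring]

lemma stg_step {P H : ℕ} (hP : 0 < P) (hH : 0 < H) (f : ℕ → ℕ) (c : ℕ) :
    (if c / P % 2 = 0 then stg (H * 2) f (P * 2) c + if c < (H * 2 - 1) * P then 0
      else stg (H * 2) f (P * 2) (c - (H * 2 - 1) * P) else 0) = stg (H * 2) f P c := by
  obtain ⟨r, x, hr, rfl⟩ : ∃ r x, r < P ∧ c = r + P * x :=
    ⟨c % P, c / P, Nat.mod_lt _ hP, (Nat.mod_add_div _ _).symm⟩
  rw [stg_a hr, Nat.add_mul_div_left _ _ hP, Nat.div_eq_of_lt hr, zero_add]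
  by_cases hx : x % 2 = 0
  swap
  · rw [if_neg hx, if_neg fun e => hx (by rw [← Nat.mod_mul_left_mod x H 2, e])]
  obtain ⟨y, rfl⟩ : ∃ y, x = 2 * y := ⟨x / 2, by omega⟩
  have e0 := stg_b hr (H * 2) f y (b := 0) two_pos
  simp only [zero_add] at e0
  rw [if_pos hx, e0, show 2 * y % (H * 2) = 2 * (y % H) by rw [mul_comm H, Nat.mul_mod_mul_left],
    show 2 * y / (H * 2) = y / H by rw [mul_comm H, Nat.mul_div_mul_left _ _ two_pos]]
  obtain ⟨K, rfl⟩ : ∃ K, H = K + 1 := ⟨H - 1, by omega⟩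
  rw [show (K + 1) * 2 - 1 = 1 + 2 * K by omega]
  by_cases hy : y < K + 1
  · rw [if_pos (show r + P * (2 * y) < _ by nlinarith), add_zero, Nat.mod_eq_of_lt hy,
      Nat.mod_eq_of_lt (by omega), Nat.div_eq_of_lt hy, Nat.div_eq_of_lt (by omega)]
    exact if_congr (by omega) rfl rfl
  obtain ⟨w, rfl⟩ : ∃ w, y = w + (K + 1) := ⟨y - (K + 1), by omega⟩
  rw [if_neg (show ¬ r + P * (2 * (w + (K + 1))) < _ by nlinarith),
    show r + P * (2 * (w + (K + 1))) - (1 + 2 * K) * P = r + P * (1 + 2 * w) from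
      Nat.sub_eq_of_eq_add (by ring), stg_b hr _ _ _ one_lt_two]
  generalize K + 1 = H at *
  obtain ⟨s, z, hs, rfl⟩ : ∃ s z, s < H ∧ w = s + H * z :=
    ⟨w % H, w / H, Nat.mod_lt _ hH, (Nat.mod_add_div _ _).symm⟩
  have m1 : ∀ z, (s + H * z) % (H * 2) = s + H * (z % 2) := fun z => by
    rw [Nat.mod_mul, Nat.add_mul_mod_self_left, Nat.add_mul_div_left _ _ hH, Nat.mod_eq_of_lt hs,
      Nat.div_eq_of_lt hs, zero_add]
  have m2 : ∀ z, (s + H * z) / H = z := fun z => by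
    rw [Nat.add_mul_div_left _ _ hH, Nat.div_eq_of_lt hs, zero_add]
  rw [show s + H * z + H = s + H * (z + 1) by ring, m1, m1, ← Nat.div_div_eq_div_mul,
    ← Nat.div_div_eq_div_mul, m2, m2, Nat.add_mul_mod_self_left, Nat.mod_eq_of_lt hs]
  rcases s.eq_zero_or_pos with rfl | s0
  · rcases Nat.mod_two_eq_zero_or_one z with e | e
    · rw [e, show (z + 1) % 2 = 1 by omega, if_neg (by omega), if_pos (by omega), if_pos rfl,
        zero_add, show 1 + 2 * (z / 2) = z + 1 by omega]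
    · rw [e, show (z + 1) % 2 = 0 by omega, if_pos (by omega), if_neg (by omega), if_pos rfl,
        add_zero, show 2 * ((z + 1) / 2) = z + 1 by omega]
  · rw [if_neg (by omega), if_neg (by omega), if_neg (by omega)]

lemma stg_lt {G P : ℕ} {f : ℕ → ℕ} (hf : ∀ c, f c < 2 ^ 31) (c : ℕ) : stg G f P c < 2 ^ 31 := by
  unfold stg
  split_ifs
  exacts [hf _, by omega]

lemma in_arg {o g m c : ℕ} (hc : 2 ^ (o + g + m) ≤ c) :
    2 ^ (o + m) ≤ c % 2 ^ o + 2 ^ o * (c / 2 ^ o / 2 ^ g) := by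
  refine le_add_left ?_
  rw [Nat.div_div_eq_div_mul, ← pow_add, pow_add 2 o m]
  refine Nat.mul_le_mul_left _ ((Nat.le_div_iff_mul_le (Nat.two_pow_pos _)).2 ?_)
  rwa [← pow_add, add_comm]

lemma in_tSp {B o g m : ℕ} (h : o + (g + 1) + m ≤ B) {f : ℕ → ℕ} (hf : ∀ c, f c < 2 ^ 31)
    (h0 : ∀ c, 2 ^ (o + m) ≤ c → f c = 0) : ∀ i ≤ m,
    tSp B o (32 * (2 ^ g * 2 - 1)) i (pk (2 ^ (o + (g + 1) + m)) (stg (2 ^ g * 2) f (2 ^ (o + i)))) =
      pk (2 ^ (o + (g + 1) + m)) (stg (2 ^ g * 2) f (2 ^ o)) := by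
  have z : ∀ i ≤ m, ∀ c, 2 ^ (o + (g + 1) + m) ≤ c → stg (2 ^ g * 2) f (2 ^ (o + i)) c = 0 := by
    intro i hi c hc
    obtain ⟨j, rfl⟩ := Nat.exists_eq_add_of_le hi
    rw [stg, ← pow_succ, h0 _ (by
      rw [← add_assoc]
      exact in_arg (by rwa [show o + i + (g + 1) + j = o + (g + 1) + (i + j) by ring])), ite_self]
  intro i
  induction i with
  | zero => exact fun _ => rfl
  | succ i ih =>
    intro hi
    rw [← ih (by omega)]
    refine congrArg (tSp B o _ i) ?_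
    show (pk _ _ + pk _ _ <<< ((32 * (2 ^ g * 2 - 1)) <<< (i + o))) &&& mK B (i + o) = _
    rw [Nat.shiftLeft_eq (32 * _), mul_assoc, add_comm i o, in_sh (z _ hi),
      in_land (by omega) fun c => by
        have := fun c => stg_lt (G := 2 ^ g * 2) (P := 2 ^ (o + (i + 1))) hf c
        split_ifs <;> [(have := this c; omega); (exact (add_lt_add (this _) (this _)).trans_eq (by norm_num))],
      ← in_pad (z i (by omega))]
    refine pk_congr fun c _ => ?_
    by_cases hc : c < 2 ^ B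
    · rw [← stg_step (Nat.two_pow_pos (o + i)) (Nat.two_pow_pos g), ← add_assoc, pow_succ]
      exact if_congr (and_iff_right hc) rfl rfl
    · rw [if_neg (show ¬ (_ ∧ _) from fun e => hc e.1),
        z i (by omega) c ((Nat.pow_le_pow_right two_pos h).trans (not_lt.1 hc))]

lemma in_fill (g : ℕ) : ∀ {P N : ℕ} (_ : 0 < P) (ψ : ℕ → ℕ → ℕ)
    (_ : ∀ c, N ≤ c → ψ (c % P) (c / P / 2 ^ g) = 0),
    rpl g (32 * P) (pk N fun c => if c / P % 2 ^ g = 0 then ψ (c % P) (c / P / 2 ^ g) else 0) =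
      pk N fun c => ψ (c % P) (c / P / 2 ^ g) := by
  induction g with
  | zero => exact fun _ _ _ => pk_congr fun c _ => if_pos (Nat.mod_one _)
  | succ g ih =>
    intro P N hP ψ h
    have e : ∀ c, c / (P * 2) / 2 ^ g = c / P / 2 ^ (g + 1) := fun c => by
      rw [← Nat.div_div_eq_div_mul c, Nat.div_div_eq_div_mul (c / P), pow_succ']
    have k := ih (P := P * 2) (N := N) (by omega) (fun a b => ψ (a % P) b) fun c hc => by
      rw [Nat.mod_mul_right_mod, e, h c hc]
    simp only [Nat.mod_mul_right_mod, e] at k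
    rw [← k]
    show rpl g (32 * P + 32 * P) (pk N _ + pk N _ <<< (32 * P)) = _
    rw [in_sh fun c hc => by rw [h c hc, ite_self], show 32 * P + 32 * P = 32 * (P * 2) by ring]
    refine congrArg _ ((pk_congr fun c _ => ?_).trans
      (in_pad (fun c hc => by rw [h c hc, ite_self]) P))
    obtain ⟨r, x, hr, rfl⟩ : ∃ r x, r < P ∧ c = r + P * x :=
      ⟨c % P, c / P, Nat.mod_lt _ hP, (Nat.mod_add_div _ _).symm⟩
    have d : ∀ x, (r + P * x) / P = x := fun x => by
      rw [Nat.add_mul_div_left _ _ hP, Nat.div_eq_of_lt hr, zero_add]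
    have G := Nat.two_pow_pos g
    rw [← Nat.div_div_eq_div_mul, d, Nat.add_mul_mod_self_left, pow_succ', Nat.mod_mul,
      ← Nat.div_div_eq_div_mul]
    obtain _ | x := x
    · simp [hr]
    rw [if_neg (show ¬ r + P * (x + 1) < P by nlinarith),
      show r + P * (x + 1) - P = r + P * x from Nat.sub_eq_of_eq_add (by ring), d,
      Nat.add_mul_mod_self_left, Nat.mod_mul, ← Nat.div_div_eq_div_mul]
    rcases Nat.mod_two_eq_zero_or_one x with e | e
    · rw [show (x + 1) / 2 = x / 2 by omega, if_neg (by omega), zero_add]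
      exact if_congr (by omega) rfl rfl
    · rw [if_neg (show ¬ x % 2 + _ = 0 by omega), add_zero]
      exact if_congr (by omega) rfl rfl

theorem ins_eq {B o g m : ℕ} (h : o + g + m ≤ B) {f : ℕ → ℕ} (hf : ∀ c < 2 ^ (o + m), f c < 2 ^ 31) :
    ins B o g m (pk (2 ^ (o + m)) f) =
      pk (2 ^ (o + g + m)) fun c => f (c % 2 ^ o + 2 ^ o * (c / 2 ^ (o + g))) := by
  obtain _ | g := g
  · exact pk_congr fun c _ => by rw [add_zero, Nat.mod_add_div]
  set F : ℕ → ℕ := fun c => if c < 2 ^ (o + m) then f c else 0 with hF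
  have F1 : ∀ c, F c < 2 ^ 31 := fun c => by
    rw [hF]
    dsimp only
    split_ifs with e
    exacts [hf c e, by omega]
  have F0 : ∀ c, 2 ^ (o + m) ≤ c → F c = 0 := fun c hc => if_neg (by omega)
  have P := Nat.two_pow_pos (o + m)
  have e0 : pk (2 ^ (o + m)) f =
      pk (2 ^ (o + (g + 1) + m)) (stg (2 ^ g * 2) F (2 ^ (o + m))) := by
    obtain ⟨k, hk⟩ := Nat.exists_eq_add_of_le
      (Nat.pow_le_pow_right two_pos (show o + m ≤ o + (g + 1) + m by omega))
    rw [pk_congr (g := F) fun c hc => (if_pos hc).symm, ← in_pad F0 k, ← hk]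
    refine pk_congr fun c hc => ?_
    have hx : c / 2 ^ (o + m) < 2 ^ g * 2 := by
      rw [Nat.div_lt_iff_lt_mul P, ← pow_succ, ← pow_add]
      rwa [show g + 1 + (o + m) = o + (g + 1) + m by ring]
    rw [stg, Nat.mod_eq_of_lt hx, Nat.div_eq_of_lt hx, mul_zero, add_zero]
    split_ifs with e
    · rw [Nat.mod_eq_of_lt ((Nat.div_eq_zero_iff_lt P).1 e)]
    · exact F0 c (not_lt.1 fun e' => e (Nat.div_eq_of_lt e'))
  show rpl (g + 1) (32 <<< o) (tSp B o (32 * (1 <<< (g + 1) - 1)) m _) = _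
  rw [e0, Nat.shiftLeft_eq, Nat.shiftLeft_eq, one_mul, pow_succ 2 g, in_tSp h F1 F0 m le_rfl,
    ← pow_succ]
  refine (in_fill (g + 1) (Nat.two_pow_pos o) (fun a b => F (a + 2 ^ o * b))
    fun c hc => F0 _ (in_arg hc)).trans (pk_congr fun c hc => ?_)
  rw [Nat.div_div_eq_div_mul, ← pow_add]
  refine if_pos ?_
  have h1 : c / 2 ^ (o + (g + 1)) < 2 ^ m := by
    rwa [Nat.div_lt_iff_lt_mul (Nat.two_pow_pos _), ← pow_add, add_comm]
  have h2 := Nat.mod_lt c (Nat.two_pow_pos o)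
  have h3 := Nat.mul_le_mul_left (2 ^ o) (Nat.succ_le_of_lt h1)
  rw [Nat.mul_succ, ← pow_add] at h3
  omega

end Pool.Agent.MP_c853c5_nt.X

end

section

/-!
Soundness of the test of all rows of a polytope on all cells of a grid.
-/

set_option autoImplicit false

open Finset

namespace Pool.Agent.MP_c853c5_nt.X

open Pool.Agent.MP_c853c5_nt.S Pool.Agent.MP_c853c5_nt.REG Ln

variable {S : NS} {A : ℕ → Finset ℕ} {t : ℝ} {sg : Bool} {q : PQ} {g : Gr}

/-! ### the columns -/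

/-- the weight of the group `a` in the row `r` -/
def uQ (q : PQ) (a r : ℕ) : ℕ := dg (rowQ q.w q.R r).1 (12 * a) % 64

lemma uQ_lt (q : PQ) (a r : ℕ) : uQ q a r < 64 := Nat.mod_lt _ (by norm_num)

lemma mQ_eq (hw : 44 ≤ q.w) : mQ q = pw q.w (fun _ => 1) q.n := by
  rw [mQ, one_eq, one_eq]
  exact pw_one (by omega) _

lemma cQ_eq (hw : 44 ≤ q.w) (a : ℕ) : cQ q a = pw q.w (uQ q a) q.n := by
  rw [cQ, nQ, mQ_eq hw, Nat.mul_eq (y := 63), pw_mul]
  refine (pw_cut (b := 6) (by omega) (by omega) _ _).trans (pw_congr fun r _ => ?_)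
  show q.R >>> (12 * a + 40) >>> (q.w * r) % 64 = q.R >>> (q.w * r + 40) >>> (12 * a) % 4096 % 64
  rw [← Nat.shiftRight_add, ← Nat.shiftRight_add, Nat.mod_mod_of_dvd _ (by norm_num)]
  congr 2
  omega

lemma xQ_eq (hw : 44 ≤ q.w) (a b : ℕ) :
    xQ q a b = pw q.w (fun r => uQ q a r + 64 - uQ q b r) q.n := by
  rw [xQ, hQ, cQ_eq hw, cQ_eq hw, mQ_eq hw, Nat.mul_eq, pw_mul, Nat.add_eq, pw_add, Nat.sub_eq,
    pw_sub fun r _ => by have := uQ_lt q b r; omega]

lemma dQ_eq (hw : 44 ≤ q.w) (a b : ℕ) :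
    dQ q a b = pw q.w (fun r => uQ q a r - uQ q b r) q.n := by
  have hx : ∀ r < q.n, uQ q a r + 64 - uQ q b r < 2 ^ q.w := fun r _ =>
    lt_w hw (by have := uQ_lt q a r; omega)
  rw [dQ, xQ_eq hw, mQ_eq hw]
  simp only [Nat.mul_eq, Nat.land_eq, Nat.shiftRight_eq]
  rw [pw_mask hx (by omega), pw_mul, pw_land (by omega) hx fun r _ => lt_w hw (by omega)]
  refine pw_congr fun r _ => ?_
  have h1 := uQ_lt q a r
  have h2 := uQ_lt q b r
  rw [Nat.shiftRight_eq_div_pow]
  rcases le_or_gt (uQ q b r) (uQ q a r) with e | e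
  · rw [show (uQ q a r + 64 - uQ q b r) / 2 ^ 6 % 2 * 63 = 2 ^ 6 - 1 by omega,
      Nat.and_two_pow_sub_one_eq_mod]
    omega
  · rw [show (uQ q a r + 64 - uQ q b r) / 2 ^ 6 % 2 * 63 = 0 by omega, Nat.and_zero]
    omega

lemma sQ_eq (hw : 44 ≤ q.w) (a b : ℕ) :
    sQ q a b = pw q.w (fun r => uQ q b r - uQ q a r) q.n := by
  rw [sQ, dQ_eq hw, xQ_eq hw, hQ, mQ_eq hw, Nat.mul_eq, pw_mul, Nat.add_eq, pw_add, Nat.sub_eq,
    pw_sub fun r _ => by have := uQ_lt q b r; omega]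
  exact pw_congr fun r _ => by have := uQ_lt q b r; omega

lemma rowQ_lt (w R r : ℕ) : (rowQ w R r).2 < 2 ^ 40 := Nat.mod_lt _ (by norm_num)

lemma zQ_eq (hw : 44 ≤ q.w) (a : ℕ) : zQ q a =
    pw q.w (fun r => (rowQ q.w q.R r).2 + 8796093022208 - uQ q a r * 1000000) q.n := by
  have e3 : Nat.land q.R (Nat.mul (pw q.w (fun _ => 1) q.n) 1099511627775) =
      pw q.w (fun r => (rowQ q.w q.R r).2) q.n := by
    rw [Nat.mul_eq, pw_mul]
    exact pw_cut (b := 40) (by omega) (by omega) _ _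
  rw [zQ, eQ, mQ_eq hw, e3, cQ_eq hw, Nat.mul_eq, Nat.mul_eq, pw_mul, pw_mul, Nat.add_eq, pw_add,
    Nat.sub_eq, pw_sub fun r _ => by have := uQ_lt q a r; omega]

lemma okQ_ok (hw : 44 ≤ q.w) (h : okQ q = true) {r a : ℕ} (hr : r < q.n) (ha : a < q.k) :
    dg (rowQ q.w q.R r).1 (12 * a) = uQ q a r := by
  simp only [okQ, band_eq, Bool.and_eq_true, Nat.ble_eq, Nat.beq_eq, Nat.add_eq, Nat.mul_eq,
    Nat.land_eq, Nat.shiftLeft_eq', mQ_eq hw, pw_mul, one_mul] at h
  obtain ⟨h1, h2⟩ := h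
  have e : ones 12 q.k * 4032 = pw 12 (fun _ => 4032) q.k := by
    rw [ones, one_eq, one_eq]
    exact (congrArg (· * 4032) (pw_one (by omega) _)).trans (pw_mul ..)
  have l1 : ∀ r < q.k, (fun _ : ℕ => 4032) r < 2 ^ 12 := fun _ _ => by norm_num
  have l2 : pw 12 (fun _ => 4032) q.k <<< 40 < 2 ^ q.w := by
    rw [Nat.shiftLeft_eq]
    exact (Nat.mul_lt_mul_of_pos_right (pw_lt l1) (Nat.two_pow_pos _)).trans_le
      (by rw [← pow_add]; exact Nat.pow_le_pow_right two_pos h1)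
  rw [e] at h2
  refine (Nat.mod_eq_of_lt (Nat.lt_pow_two_of_testBit (n := 6) _ fun i hi => ?_)).symm
  show (q.R >>> (q.w * r + 40) >>> (12 * a) % 2 ^ 12).testBit i = false
  rw [Nat.testBit_mod_two_pow, Nat.testBit_shiftRight, Nat.testBit_shiftRight]
  by_cases c : i < 12
  · have := congrArg (·.testBit (q.w * r + (40 + (12 * a + i)))) h2
    simp only [Nat.testBit_and, Nat.zero_testBit] at this
    rw [pw_bit (fun _ _ => l2) r (by omega), Nat.testBit_shiftLeft, Nat.add_sub_cancel_left,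
      pw_bit l1 a c, decide_eq_true hr, decide_eq_true ha, decide_eq_true (Nat.le_add_right _ _),
      show (4032 : ℕ).testBit i = true by interval_cases i <;> rfl] at this
    rw [add_assoc]
    simpa using fun _ => by simpa using this
  · simp [c]

lemma pw_fld {w n r b : ℕ} {f : ℕ → ℕ} (hb : b ≤ w) (h : ∀ r < n, f r < 2 ^ b) (hr : r < n) :
    pw w f n / 2 ^ (w * r) % 2 ^ b = f r := by
  have := pw_get (s := 0) (b := b) (fun r hr => (h r hr).trans_le (Nat.pow_le_pow_right two_pos hb))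
    hr (by omega)
  rwa [add_zero, Nat.shiftRight_eq_div_pow, Nat.shiftRight_zero, Nat.mod_eq_of_lt (h r hr)] at this

/-! ### sums over the nodes -/

/-- positive and negative parts of the coefficients of the row `r` -/
def sPos (q : PQ) (par G m r : ℕ) (f : ℕ → ℕ) : ℕ :=
  ∑ j ∈ Ico 1 (m + 1), (uQ q (d4 G j) r - uQ q (d4 G (get par j)) r) * f j

def sNeg (q : PQ) (par G m r : ℕ) (f : ℕ → ℕ) : ℕ :=
  ∑ j ∈ Ico 1 (m + 1), (uQ q (d4 G (get par j)) r - uQ q (d4 G j) r) * f j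

lemma sPos_succ (q : PQ) (par G m r : ℕ) (f : ℕ → ℕ) : sPos q par G (m + 1) r f =
    (uQ q (d4 G (m + 1)) r - uQ q (d4 G (get par (m + 1))) r) * f (m + 1) + sPos q par G m r f := by
  rw [sPos, sum_Ico_succ_top (by omega), add_comm, sPos]

lemma sNeg_succ (q : PQ) (par G m r : ℕ) (f : ℕ → ℕ) : sNeg q par G (m + 1) r f =
    (uQ q (d4 G (get par (m + 1))) r - uQ q (d4 G (m + 1)) r) * f (m + 1) + sNeg q par G m r f := by
  rw [sNeg, sum_Ico_succ_top (by omega), add_comm, sNeg]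

lemma sum_bd {m c : ℕ} (hm : m < 16) {u v f : ℕ → ℕ} (hu : ∀ j, u j < 64)
    (h : ∀ j ∈ Ico 1 (m + 1), f j ≤ c) : ∑ j ∈ Ico 1 (m + 1), (u j - v j) * f j ≤ 945 * c := by
  refine (sum_le_card_nsmul _ _ (63 * c) fun j hj =>
    Nat.mul_le_mul (by have := hu j; omega) (h j hj)).trans ?_
  rw [Nat.card_Ico, smul_eq_mul, ← mul_assoc]
  exact Nat.mul_le_mul_right _ (by omega)

lemma sPos_le {par G m r c : ℕ} (hm : m < 16) {f : ℕ → ℕ} (h : ∀ j ∈ Ico 1 (m + 1), f j ≤ c) :
    sPos q par G m r f ≤ 945 * c := sum_bd hm (fun _ => uQ_lt ..) h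

lemma sNeg_le {par G m r c : ℕ} (hm : m < 16) {f : ℕ → ℕ} (h : ∀ j ∈ Ico 1 (m + 1), f j ≤ c) :
    sNeg q par G m r f ≤ 945 * c := sum_bd hm (fun _ => uQ_lt ..) h

lemma sPos_add (q : PQ) (par G m r : ℕ) (f f' : ℕ → ℕ) :
    sPos q par G m r (fun j => f j + f' j) = sPos q par G m r f + sPos q par G m r f' := by
  simp only [sPos, mul_add, sum_add_distrib]

lemma sNeg_add (q : PQ) (par G m r : ℕ) (f f' : ℕ → ℕ) :
    sNeg q par G m r (fun j => f j + f' j) = sNeg q par G m r f + sNeg q par G m r f' := by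
  simp only [sNeg, mul_add, sum_add_distrib]

lemma sPos_mono {par G m r : ℕ} {f f' : ℕ → ℕ} (h : ∀ j ∈ Ico 1 (m + 1), f j ≤ f' j) :
    sPos q par G m r f ≤ sPos q par G m r f' :=
  sum_le_sum fun j hj => Nat.mul_le_mul_left _ (h j hj)

/-- a row holds near a point -/
lemma pr_of (hI : Inv S A) {G r : ℕ} {lo hi : ℕ → ℕ} {a : Pt}
    (hu : ∀ j < S.k, dg (rowQ q.w q.R r).1 (12 * d4 G j) = uQ q (d4 G j) r)
    (hb : ∀ j ∈ Ico 1 S.k, ((lo j + 16 : ℕ) : ℝ) / SC ≤ Y A a j ∧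
      Y A a j + 16 / SC ≤ (hi j : ℝ) / SC)
    (h : uQ q (d4 G 0) r * 1000000 + sPos q S.par G (S.k - 1) r hi ≤
      (rowQ q.w q.R r).2 + sNeg q S.par G (S.k - 1) r lo) : Pr S.k G (rowQ q.w q.R r) a :=
    fun b h1 hs => by
  have h2 : (∑ j ∈ Ico 1 S.k, (wt (rowQ q.w q.R r).1 G j -
      wt (rowQ q.w q.R r).1 G (get S.par j)) * Y A b j) * SC ≤
      (sPos q S.par G (S.k - 1) r hi : ℝ) - sNeg q S.par G (S.k - 1) r lo := by
    rw [sPos, sNeg, Nat.sub_add_cancel hI.pos, Nat.cast_sum, Nat.cast_sum, ← sum_sub_distrib,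
      sum_mul]
    refine sum_le_sum fun j hj => ?_
    obtain ⟨j1, j2⟩ := mem_Ico.1 hj
    obtain ⟨b1, b2⟩ := hb j hj
    have := abs_le.1 (Y_near hI hI.le (fun i hi => (h1 i hi).2) j2)
    rw [Nat.cast_add, add_div, Nat.cast_ofNat] at b1
    rw [wt, wt, hu j j2, hu _ ((hI.par j j1 j2).trans j2)]
    exact term_le _ _ _ _ (by linarith) (by linarith)
  have h3 : ((uQ q (d4 G 0) r * 1000000 + sPos q S.par G (S.k - 1) r hi : ℕ) : ℝ) ≤ _ :=
    Nat.cast_le.2 h
  rw [hI.wsum, Y, hI.top, hs, le_div_iff₀ SC_pos, add_mul, mul_one, wt, hu 0 hI.pos]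
  push_cast at h3
  rw [SC_eq_SndL] at *
  linarith

/-! ### the lanes -/

/-- the shift of the cell `c` on the node `j` -/
noncomputable def hX (g : Gr) (c j : ℕ) : ℕ := get g.h j * cx g.bs j c

lemma fAc_ok (hw : 44 ≤ q.w) (hg : g.OK S) (G m : ℕ) (hm : m < S.k) : ∀ (P Q V U : ℕ) (L : IL),
    ∃ (us : ℕ → ℕ) (ps : ℕ → ℕ → ℕ) (L' : IL), (∀ K, fAc q g S G K m P Q V U L =
      K (P + pw q.w (fun r => sNeg q S.par G m r (fLo S)) q.n)
        (Q + pw q.w (fun r => sPos q S.par G m r (fUp g)) q.n)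
        (V + pw q.w (fun r => sPos q S.par G m r (fHi S)) q.n) (U + pk (2 ^ g.B) us) L') ∧
      ∀ r < q.n, sP (2 ^ (q.w * r)) L' = sP (2 ^ (q.w * r)) L + pk (2 ^ g.B) (ps r) ∧
        ∀ c, ps r c + sNeg q S.par G m r (hX g c) = 64 * us c + sPos q S.par G m r (hX g c) := by
  induction m with
  | zero =>
    exact fun P Q V U L => ⟨fun _ => 0, fun _ _ => 0, L, fun K => by
      simp [sPos, sNeg, pw, pk, fAc], fun r _ => by simp [sPos, sNeg, pk]⟩
  | succ m ih =>
    intro P Q V U L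
    have e : ∀ K, fAc q g S G K (m + 1) P Q V U L = fA1 q g S (fAc q g S G K m) (m + 1) P Q V U L
        (d4 G (m + 1)) (d4 G (get S.par (m + 1))) := fun K => by
      show force _ (fun a => force _ (fA1 q g S _ _ P Q V U L a)) = _
      rw [force_eq, force_eq]
      rfl
    simp only [e, fA1, cnd_eq, Nat.beq_eq, sPos_succ, sNeg_succ]
    split_ifs with c
    · simp only [← c, Nat.sub_self, zero_mul, zero_add]
      exact ih (by omega) P Q V U L
    · obtain ⟨us, ps, L', h1, h2⟩ := ih (by omega)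
        (P + sQ q (d4 G (m + 1)) (d4 G (get S.par (m + 1))) * fLo S (m + 1))
        (Q + dQ q (d4 G (m + 1)) (d4 G (get S.par (m + 1))) * fUp g (m + 1))
        (V + dQ q (d4 G (m + 1)) (d4 G (get S.par (m + 1))) * fHi S (m + 1))
        (U + xG g (m + 1)) (IL.cons (xG g (m + 1))
          (xQ q (d4 G (m + 1)) (d4 G (get S.par (m + 1)))) L)
      refine ⟨fun c => hX g c (m + 1) + us c, fun r c => (uQ q (d4 G (m + 1)) r + 64 -
        uQ q (d4 G (get S.par (m + 1))) r) * hX g c (m + 1) + ps r c, L', fun K => ?_,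
        fun r hr => ⟨?_, fun c => ?_⟩⟩
      · refine (h1 K).trans ?_
        simp only [sQ_eq hw, dQ_eq hw, pw_mul, add_assoc, pw_add, xG, hg.hX _ hm, pk_add, hX]
      · rw [(h2 r hr).1]
        show xQ q _ _ / 2 ^ (q.w * r) % 2 ^ 7 * xG g (m + 1) + sP _ L + _ = _
        rw [xQ_eq hw, pw_fld (by omega) (fun r _ => by have := uQ_lt q (d4 G (m + 1)) r; omega) hr,
          xG, hg.hX _ hm, pk_smul, add_comm _ (sP _ L), add_assoc, pk_add]
        rfl
      · have h3 := (h2 r hr).2 c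
        have h4 := uQ_lt q (d4 G (get S.par (m + 1))) r
        beta_reduce
        generalize uQ q (d4 G (m + 1)) r = a at *
        generalize uQ q (d4 G (get S.par (m + 1))) r = b at *
        have : (a + 64 - b) * hX g c (m + 1) + (b - a) * hX g c (m + 1) =
            64 * hX g c (m + 1) + (a - b) * hX g c (m + 1) := by
          rw [← add_mul, ← add_mul]
          congr 1
          omega
        omega

lemma rowsW_ok (g : Gr) (L : IL) (Z T c n : ℕ) : ∀ X m, onM (rowsW g L Z T n X m) c →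
    onM m c ∧ ∀ i, X.testBit i = true → onM (rowW g L Z T (2 ^ i)) c := by
  induction n with
  | zero => exact fun _ _ h => absurd h (onM_zero c)
  | succ n ih =>
    intro X m h
    have e : rowsW g L Z T (n + 1) X m = cnd (Nat.beq X 0) m (rowsW g L Z T n (X &&& (X - 1))
      (rowW g L Z T (X - (X &&& (X - 1))) &&& m)) := rfl
    simp only [e, cnd_eq, Nat.beq_eq] at h
    split_ifs at h with d
    · exact ⟨h, by simp [d]⟩
    obtain ⟨h1, h2⟩ := ih _ _ h
    obtain ⟨i, b1, b2⟩ := low_bit d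
    rw [onM_land, b1] at h1
    refine ⟨h1.2, fun j hj => ?_⟩
    by_cases e : j = i
    · exact e ▸ h1.1
    · exact h2 j ((b2 j e).trans hj)

lemma rowW_ok (hg : g.OK S) {w n r c : ℕ} {z us ps po ng : ℕ → ℕ} {L : IL} (hw : 44 ≤ w)
    (hr : r < n) (hz : ∀ r < n, z r < 2 ^ 44) (h1 : z r ≤ 8796093022208 + 990904320)
    (h2 : sP (2 ^ (w * r)) L = pk (2 ^ g.B) ps) (h3 : ∀ c, ps c + ng c = 64 * us c + po c)
    (h4 : ∀ c, po c ≤ 990904320) (h5 : ∀ c, ng c ≤ 990904320)
    (h : onM (rowW g L (pw w z n) (fT3 g + (pk (2 ^ g.B) us).shiftLeft 6) (2 ^ (w * r))) c) :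
    8796093022208 + po c ≤ z r + ng c := by
  have e : rowW g L (pw w z n) (fT3 g + (pk (2 ^ g.B) us).shiftLeft 6) (2 ^ (w * r)) =
      pk (2 ^ g.B) fun c => 1073741824 + 64 * us c + (z r - 8795019280384) - ps c := by
    have e1 : fT3 g = 1073741824 * g.O := (Nat.shiftLeft_eq _ _).trans (mul_comm _ _)
    have e2 : (pk (2 ^ g.B) us).shiftLeft 6 = 64 * pk (2 ^ g.B) us :=
      (Nat.shiftLeft_eq _ _).trans (mul_comm _ _)
    have e3 : Nat.mod (Nat.div (pw w z n) (2 ^ (w * r))) 17592186044416 = z r := pw_fld hw hz hr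
    rw [rowW, e1, e2, e3, h2, hg.hO, Nat.mul_eq, Nat.add_eq, Nat.sub_eq, Nat.sub_eq, pk_smul,
      pk_smul, pk_smul, pk_add, pk_add, pk_sub fun c _ => by have := h3 c; have := h4 c; omega]
    simp only [mul_one]
  rw [e, onM, pk_bit (fun c _ => by have := h3 c; have := h5 c; omega) c (by norm_num),
    Bool.and_eq_true, Nat.testBit_eq_decide_div_mod_eq, decide_eq_true_iff,
    decide_eq_true_iff] at h
  have := h3 c
  have := h4 c
  have := h5 c
  omega

theorem fpM_ok (hI : Inv S A) (hg : g.OK S) (hw : 44 ≤ q.w) (h1 : okG g S = true)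
    (h2 : okQ q = true) {G c : ℕ} (hG : ∀ j < S.k, d4 G j < q.k) {a : Pt} (ha : Om S A a)
    (hm : onM (fpM q g S G) c) (hy : Cell g S c (Y A a)) {r : ℕ}
    (hr : r < q.n) : Pr S.k G (rowQ q.w q.R r) a := by
  have k1 := hI.pos
  have k2 := hI.le
  simp only [okG, allN_iff, band_eq, Bool.and_eq_true, Nat.ble_eq, Nat.blt_eq] at h1
  obtain ⟨us, ps, L, e1, e2⟩ := fAc_ok hw hg G (S.k - 1) (by omega) (zQ q (d4 G 0)) 0 0 0 IL.nil
  have e : fpM q g S G = fAc q g S G (fpE q g) (S.k - 1) (zQ q (d4 G 0)) 0 0 0 IL.nil :=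
    force_eq _ _
  have hu := fun j (hj : j < S.k) => okQ_ok hw h2 hr (hG j hj)
  have m1 : ∀ {j}, j ∈ Ico 1 (S.k - 1 + 1) → 1 ≤ j ∧ j < S.k := fun h => by
    have := mem_Ico.1 h
    omega
  have a1 := fun r => sNeg_le (q := q) (par := S.par) (G := G) (m := S.k - 1) (r := r)
    (c := 16777232) (f := fLo S) (by omega) fun j _ => by
      have := get_lt S.lo j
      show get S.lo j - 16 ≤ _
      omega
  have a2 := fun r => sPos_le (q := q) (par := S.par) (G := G) (m := S.k - 1) (r := r)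
    (c := 16777232) (f := fUp g) (by omega) fun j _ => Nat.add_le_add_right (get_lt _ j).le 16
  have a3 := fun r => sPos_le (q := q) (par := S.par) (G := G) (m := S.k - 1) (r := r)
    (c := 16777232) (f := fHi S) (by omega) fun j _ => Nat.add_le_add_right (get_lt _ j).le 16
  have a4 := rowQ_lt q.w q.R
  have a5 := uQ_lt q (d4 G 0)
  have x1 : ∀ c, ∀ j ∈ Ico 1 (S.k - 1 + 1), hX g c j ≤ 1048576 := fun c j hj => by
    have := (h1 j (m1 hj).2).2
    rw [hg.wd j (m1 hj).2] at this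
    exact (Nat.mul_le_mul_left _ (cx_lt g.bs j c).le).trans this.le
  have a6 := fun c => sPos_le (q := q) (par := S.par) (G := G) (r := r) (by omega) (x1 c)
  have a7 := fun c => sNeg_le (q := q) (par := S.par) (G := G) (r := r) (by omega) (x1 c)
  have a8 : sPos q S.par G (S.k - 1) r (fHi S) ≤ sPos q S.par G (S.k - 1) r (fUp g) +
      945 * 1048576 := by
    refine le_trans (sPos_mono (f' := fun j => fUp g j + get g.wd j) fun j hj => ?_)
      ((sPos_add ..).trans_le (Nat.add_le_add_left (sPos_le (by omega) fun j hj =>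
        (h1 j (m1 hj).2).2.le) _))
    have := hg.cov j (m1 hj).1 (m1 hj).2
    show get S.hi j + 16 ≤ get g.up j + 16 + _
    rw [hg.up j (m1 hj).1 (m1 hj).2, hg.wd j (m1 hj).2]
    omega
  rw [e, e1, fpE] at hm
  simp only [zero_add, zQ_eq hw, pw_add, Nat.sub_eq, Nat.add_eq, Nat.xor_eq, Nat.land_eq,
    Nat.shiftRight_eq, mQ_eq hw] at hm
  rw [pw_sub fun r _ => by have := a2 r; have := a5 r; omega,
    pw_sub fun r _ => by have := a3 r; have := a5 r; omega,
    pw_mask (fun r _ => lt_w hw (by have := a1 r; have := a4 r; omega)) (by omega)] at hm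
  have b1 := a1 r
  have b2 := a2 r
  have b3 := a3 r
  have b4 := a4 r
  have b5 := a5 r
  by_cases d : uQ q (d4 G 0) r * 1000000 + sPos q S.par G (S.k - 1) r (fHi S) ≤
      (rowQ q.w q.R r).2 + sNeg q S.par G (S.k - 1) r (fLo S)
  · refine pr_of hI hu (fun j hj => ?_) d
    obtain ⟨j1, j2⟩ := mem_Ico.1 hj
    rw [show fLo S j + 16 = get S.lo j from Nat.sub_add_cancel (h1 j j2).1,
      show fHi S j = get S.hi j + 16 from rfl, Nat.cast_add, add_div, Nat.cast_ofNat]
    exact ⟨(ha.1 j j2).1, add_le_add_left (ha.1 j j2).2 _⟩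
  have h3 := (rowsW_ok _ _ _ _ _ _ _ _ hm).2 (q.w * r) (by
    rw [Nat.testBit_xor, ← add_zero (q.w * r), pw_bit (fun r _ => lt_w hw (by omega)) r (by omega),
      pw_bit (fun r _ => lt_w hw (by omega)) r (by omega), decide_eq_true hr,
      Nat.shiftRight_eq_div_pow]
    rw [show ∀ x : ℕ, x < 2 ^ 43 → x / 2 ^ 43 % 2 = 0 from fun x h => by omega, Nat.zero_testBit]
    · rfl
    · omega)
  obtain ⟨e3, e4⟩ := e2 r hr
  have h4 := rowW_ok hg hw hr (fun r _ => by have := a1 r; have := a4 r; omega) (by omega)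
    (e3.trans (zero_add _)) e4 a6 a7 h3
  refine pr_of (lo := fun j => fLo S j + hX g c j) (hi := fun j => fUp g j + hX g c j) hI hu
    (fun j hj => ?_) ?_
  · obtain ⟨j1, j2⟩ := mem_Ico.1 hj
    have c1 := cell_lb hg hy ha.1 j j2
    have c2 := cell_ub hg hy ha.1 j j2
    rw [show fLo S j + hX g c j + 16 = get S.lo j + hX g c j by
        have := (h1 j j2).1
        show get S.lo j - 16 + _ + 16 = _
        omega,
      show fUp g j + hX g c j = get g.up j + hX g c j + 16 from Nat.add_right_comm .., Nat.cast_add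
        _ 16, add_div, Nat.cast_ofNat]
    exact ⟨c1, add_le_add_left c2 _⟩
  · rw [sPos_add, sNeg_add]
    show _ + (_ + sPos q S.par G (S.k - 1) r (hX g c)) ≤ _ + (_ + sNeg q S.par G (S.k - 1) r (hX g c))
    omega

theorem fpI_of {gd : NS → ℕ → ℕ → Bool} {T : BT PQ} (hT : T.All (PQ.Gd t gd))
    (hl : ∀ S G m, S.k ≤ 16 → gd S G m = true → ∀ j < S.k, d4 G j < m) : Itok t (fpI gd T) :=
    fun g _ sg S A s K _ hI hg h => by
  simp only [fpI, force_eq, fpQ] at h ⊢
  obtain ⟨h1, h2⟩ := grd_lt h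
  simp only [band_eq, Bool.and_eq_true] at h1
  obtain ⟨hw, h3⟩ := hT.find (Nat.mod s 65536)
  refine ⟨_, _, 0, h2.trans (zero_add _).symm, ?_⟩
  rw [Nat.cast_zero, zero_div]
  exact (h3 sg S A _ hI h1.2).anti fun a ⟨b1, c, _, b3, b4⟩ r hr =>
    fpM_ok hI hg hw h1.1.1 h1.1.2 (hl _ _ _ hI.le h1.2) b1 b3 b4 hr

/-! ### the guards -/

lemma dig_mod (G : ℕ) : G % 2 ^ 64 = pw 4 (d4 G) 16 := by
  rw [← Nat.and_two_pow_sub_one_eq_mod,
    show 2 ^ 64 - 1 = pw 4 (fun _ => 2 ^ 4 - 1) 16 by decide +kernel]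
  exact pw_cut (by omega) le_rfl G 16

/-- a constant is added to all digits -/
lemma dig_add {G c j : ℕ} (h : ∀ j < 16, d4 G j + c < 16) (hj : j < 16) :
    (G + c * 1229782938247303441).testBit (4 * j + 3) = decide (8 ≤ d4 G j + c) := by
  have e : ∀ x : ℕ, x.testBit (4 * j + 3) = (x % 2 ^ 64).testBit (4 * j + 3) := fun x => by
    rw [Nat.testBit_mod_two_pow, decide_eq_true (by omega), Bool.true_and]
  rw [e, ← Nat.mod_add_mod, ← e, dig_mod, mul_comm c,
    show 1229782938247303441 = pw 4 (fun _ => 1) 16 by decide +kernel, pw_mul, pw_add,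
    pw_bit (fun r hr => by have := h r hr; omega) j (by omega), decide_eq_true hj, Bool.true_and,
    Nat.testBit_eq_decide_div_mod_eq, decide_eq_decide]
  have := h j hj
  omega

lemma bit8 {j : ℕ} (hj : j < 16) : (9838263505978427528 : ℕ).testBit (4 * j + 3) = true := by
  interval_cases j <;> rfl

lemma lbl_ok {G m : ℕ} (h : lbl G m = true) : ∀ j < 16, d4 G j < 8 ∧ d4 G j < m := by
  have h1 : ∀ j < 16, G.testBit (4 * j + 3) = false ∧
      (G + (8 - m) * 1229782938247303441).testBit (4 * j + 3) = false := fun j hj => by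
    have := congrArg (·.testBit (4 * j + 3)) (Nat.eq_of_beq_eq_true h)
    simpa only [Nat.land_eq, Nat.lor_eq, Nat.testBit_and, Nat.testBit_or, bit8 hj, Bool.and_true,
      Nat.zero_testBit, Bool.or_eq_false_iff, Nat.add_eq, Nat.mul_eq, Nat.sub_eq] using this
  have h2 : ∀ j < 16, d4 G j < 8 := fun j hj => by
    have := dig_add (G := G) (c := 0) (fun j _ => Nat.mod_lt _ (by norm_num)) hj
    rw [zero_mul, add_zero, (h1 j hj).1, false_eq_decide_iff] at this
    omega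
  intro j hj
  have := dig_add (G := G) (c := 8 - m) (fun j hj => by have := h2 j hj; omega) hj
  rw [(h1 j hj).2, false_eq_decide_iff] at this
  have := h2 j hj
  omega

lemma prM_eq (kd n : ℕ) : prM kd n = pw 4 (fun j => if get kd j = 0 then 8 else 0) n := by
  induction n with
  | zero => rfl
  | succ n ih =>
    rw [pw_succ, ← ih]
    show cnd (Nat.beq (get kd n) 0) (8 <<< (4 * n) + prM kd n) (prM kd n) = _
    simp only [cnd_eq, Nat.beq_eq, Nat.shiftLeft_eq]
    split_ifs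
    · rw [mul_comm]
    · rw [mul_zero, zero_add]

lemma cnt3_of {kd G m p : ℕ} (hp : get kd p = 0) (n : ℕ) (h1 : ∀ j < n, d4 G j < m)
    (h2 : ∀ j < n, d4 G j = 1 ↔ j = p) : cnt3 kd G m n = if p < n then 1 else 0 := by
  induction n with
  | zero => rfl
  | succ n ih =>
    have e : cnt3 kd G m (n + 1) = if d4 G n < m then if d4 G n = 1 then
        if get kd n = 0 then cnt3 kd G m n + 1 else 2 else cnt3 kd G m n else 2 := by
      simp only [cnt3, force_eq, cnd_eq, Nat.blt_eq, Nat.beq_eq]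
    rw [e, ih (fun j hj => h1 j (by omega)) (fun j hj => h2 j (by omega)), if_pos (h1 n (by omega))]
    by_cases c : n = p
    · rw [if_pos ((h2 n (by omega)).2 c), if_pos (c ▸ hp), if_neg (by omega), if_pos (by omega)]
    · rw [if_neg fun d => c ((h2 n (by omega)).1 d)]
      exact if_congr (by omega) rfl rfl

lemma g2f_ok {G m : ℕ} (hk : S.k ≤ 16) (h : g2f S G m = true) : g2 S G m = true := by
  simp only [g2f, g2, band_eq, Bool.and_eq_true, allN_iff, Nat.blt_eq] at h ⊢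
  exact ⟨h.1, fun j hj => (lbl_ok h.2 j (by omega)).2⟩

lemma g3f_ok {G m : ℕ} (hk : S.k ≤ 16) (h : g3f S G m = true) : g3 S G m = true := by
  simp only [g3f, on1, band_eq, Bool.and_eq_true, Nat.blt_eq, Nat.beq_eq, Nat.land_eq, Nat.xor_eq,
    Nat.add_eq, Nat.sub_eq] at h
  obtain ⟨h1, h2, h3⟩ := h
  have e : ∀ j < 16, d4 (G ^^^ 1229782938247303441) j = d4 G j ^^^ 1 := fun j hj => by
    show (G ^^^ _) >>> (4 * j) % 2 ^ 4 = G >>> (4 * j) % 2 ^ 4 ^^^ 1
    rw [Nat.shiftRight_xor_distrib, Nat.xor_mod_two_pow]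
    congr 1
    interval_cases j <;> rfl
  have e' : ∀ d < 8, (d ^^^ 1) + 7 < 16 ∧ (8 ≤ (d ^^^ 1) + 7 ↔ d ≠ 1) := by decide
  have h4 : ∀ j < 16, (9838263505978427528 ^^^ ((G ^^^ 1229782938247303441) + 8608480567731124087 &&&
      9838263505978427528)).testBit (4 * j + 3) = true ↔ d4 G j = 1 := fun j hj => by
    rw [Nat.testBit_xor, Nat.testBit_and, bit8 hj, show 8608480567731124087 =
      7 * 1229782938247303441 from rfl, dig_add (fun j hj => by
        rw [e j hj]; exact (e' _ (lbl_ok h1 j hj).1).1) hj, e j hj]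
    simp [(e' _ (lbl_ok h1 j hj).1).2]
  generalize 9838263505978427528 ^^^ _ = V at *
  obtain ⟨i, rfl⟩ := (Nat.and_sub_one_eq_zero_iff_isPowerOfTwo (n := V)
    (by rintro rfl; simp at h3)).1 h2
  have h5 : (pM S).testBit i = true := by
    by_contra c
    rw [Nat.two_pow_and, Bool.eq_false_iff.2 c] at h3
    simp at h3
  rw [pM, prM_eq, ← Nat.div_add_mod i 4, pw_bit (fun _ _ => by split_ifs <;> norm_num) _
    (Nat.mod_lt _ (by norm_num)), Bool.and_eq_true, decide_eq_true_iff] at h5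
  have h6 := h5.2
  split_ifs at h6 with c
  · rw [show 8 = 2 ^ 3 from rfl, Nat.testBit_two_pow, decide_eq_true_iff] at h6
    rw [g3, cnt3_of c _ (fun j hj => (lbl_ok h1 j (by omega)).2) fun j hj => by
      rw [← h4 j (by omega), Nat.testBit_two_pow, decide_eq_true_iff]
      omega, if_pos h5.1]
    rfl
  · simp at h6

lemma PQ.Gd.imp {gd gd' : NS → ℕ → ℕ → Bool} (h : ∀ S G m, S.k ≤ 16 → gd' S G m = true →
    gd S G m = true) {T : BT PQ} (hT : T.All (PQ.Gd t gd)) : T.All (PQ.Gd t gd') :=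
  hT.imp fun _ hq => ⟨hq.1, fun sg S A G hI c => hq.2 sg S A G hI (h _ _ _ hI.le c)⟩

theorem gd2f {T : BT PQ} (hT : T.All (PQ.Gd t g2)) : T.All (PQ.Gd t g2f) :=
  PQ.Gd.imp (fun _ _ _ => g2f_ok) hT

theorem gd3f {T : BT PQ} (hT : T.All (PQ.Gd t g3)) : T.All (PQ.Gd t g3f) :=
  PQ.Gd.imp (fun _ _ _ => g3f_ok) hT

lemma g2f_lt (S : NS) (G m : ℕ) (hk : S.k ≤ 16) (h : g2f S G m = true) : ∀ j < S.k, d4 G j < m :=
    fun j hj => by
  rw [g2f, band_eq, Bool.and_eq_true] at h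
  exact (lbl_ok h.2 j (by omega)).2

lemma g3f_lt (S : NS) (G m : ℕ) (hk : S.k ≤ 16) (h : g3f S G m = true) : ∀ j < S.k, d4 G j < m :=
    fun j hj => by
  rw [g3f, band_eq, Bool.and_eq_true] at h
  exact (lbl_ok h.1 j (by omega)).2

theorem fp2_ok {T : BT PQ} (hT : T.All (PQ.Gd t g2)) : Itok t (fpI g2f T) :=
  fpI_of (gd2f hT) g2f_lt

theorem fp3_ok {T : BT PQ} (hT : T.All (PQ.Gd t g3)) : Itok t (fpI g3f T) :=
  fpI_of (gd3f hT) g3f_lt

end Pool.Agent.MP_c853c5_nt.X

end
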