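import Pool.Agent.MP_c853c5_nt.X.FQ
import Pool.Agent.MP_c853c5_nt.DT.Defs
import Pool.Agent.Mg.C853.G07929c

section

/-!
Soundness of the fast rules.
-/

set_option autoImplicit false
set_option exponentiation.threshold 800

open Finset

namespace Pool.Agent.MP_c853c5_nt.X

open Pool.Agent.MP_c853c5_nt.S Pool.Agent.MP_c853c5_nt.REG

variable {S : NS} {A : ℕ → Finset ℕ} {t : ℝ} {sg : Bool} {w n : ℕ}

/-- a vector with its sum -/
def PV (f : ℕ → ℕ) : ℕ := 2 ^ (44 * 16) * ∑ j ∈ range 16, f j + pw 44 f 16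

lemma PV_lin (f g : ℕ → ℕ) (m : ℕ) : PV f + m * PV g = PV fun j => f j + g j * m := by
  simp only [PV, ← pw_add, ← pw_mul, sum_add_distrib, ← sum_mul]
  ring

lemma pkV_eq (l : List ℕ) : pkV l = PV fun j => cntL j l := by
  induction l with
  | nil => simp [pkV, PV, cntL, pw]
  | cons e l ih =>
    have h : nd e ∈ range 16 := mem_range.2 (Nat.mod_lt _ (by norm_num))
    have e1 : ∀ j, cntL j (e :: l) = cntL j l + (if nd e = j then 1 else 0) * cf e := fun j => by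
      rw [show cntL j (e :: l) = cnd (Nat.beq (nd e) j) (cf e + cntL j l) (cntL j l) from rfl,
        cnd_eq]
      simp only [Nat.beq_eq]
      split_ifs <;> ring
    simp only [e1, ← PV_lin, ← ih]
    simp only [PV, pw, ite_mul, one_mul, zero_mul, sum_ite_eq, h, if_true, mul_one]
    show cf e * (one (44 * nd e) + one (44 * 16)) + pkV l = _
    rw [one_eq, one_eq]
    ring

lemma f44_PV {f : ℕ → ℕ} (h : ∑ j ∈ range 16, f j < 2 ^ 44) {j : ℕ} (hj : j < 16) :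
    f44 (PV f) j = f j := by
  have h1 : ∀ i < 16, f i < 2 ^ 44 := fun i hi =>
    (single_le_sum (fun _ _ => Nat.zero_le _) (mem_range.2 hi)).trans_lt h
  have := pw_get (w := 44) (n := 16 + 1) (f := fun i => if i < 16 then f i else ∑ j ∈ range 16, f j)
    (fun i _ => by split_ifs with e; exacts [h1 i e, h]) (r := j) (s := 0) (b := 44) (by omega) le_rfl
  rw [pw_succ, if_neg (lt_irrefl _), pw_congr (g := f) fun i hi => if_pos hi, if_pos hj,
    Nat.shiftRight_zero, Nat.mod_eq_of_lt (h1 j hj)] at this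
  exact this

/-- the inequality of a vector row -/
def Vok (k c1 : ℕ) (f : ℕ → ℕ) (c2 : ℕ) (g : ℕ → ℕ) (y : Pt) : Prop :=
  (c1 : ℝ) / SC + ∑ j ∈ range k, (f j : ℝ) * y j ≤ (c2 : ℝ) / SC + ∑ j ∈ range k, (g j : ℝ) * y j

lemma cmb_ok {k : ℕ} (K : ℕ → ℕ → ℕ → ℕ → ℕ) (rs : List Rw) : ∀ (X d c1 c2 : ℕ) (f g : ℕ → ℕ),
    (∀ r ∈ rs, r.In k) → ∃ (c1' c2' : ℕ) (f' g' : ℕ → ℕ),
      cmb rs X d c1 (PV f) c2 (PV g) K = K c1' (PV f') c2' (PV g') ∧
      ∀ y, (∀ r ∈ rs, r.ok y) → Vok k c1' f' c2' g' y → Vok k c1 f c2 g y := by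
  induction rs with
  | nil => exact fun X d c1 c2 f g _ => ⟨c1, c2, f, g, rfl, fun _ _ h => h⟩
  | cons r rs ih =>
    intro X d c1 c2 f g h
    rw [List.forall_mem_cons] at h
    have e : cmb (r :: rs) X d c1 (PV f) c2 (PV g) K = cnd (Nat.beq X 0) (K c1 (PV f) c2 (PV g))
        (force (Nat.shiftRight X 1) fun X' =>
          cnd (Nat.beq (Nat.mod X 2) 0) (cmb rs X' d c1 (PV f) c2 (PV g) K)
            (force (Nat.succ (Nat.mod d 65536)) fun m => force (Nat.shiftRight d 16) fun d' =>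
              force (Nat.add c1 (Nat.mul m r.c2)) fun c1' =>
              force (Nat.add (PV f) (Nat.mul m (pkV r.l2))) fun p' =>
              force (Nat.add c2 (Nat.mul m r.c1)) fun c2' =>
              force (Nat.add (PV g) (Nat.mul m (pkV r.l1))) fun n' =>
                cmb rs X' d' c1' p' c2' n' K)) := by
      simp only [cmb]
    simp only [e, force_eq, cnd_eq, Nat.add_eq, Nat.mul_eq, pkV_eq, PV_lin, List.forall_mem_cons]
    split_ifs
    · exact ⟨c1, c2, f, g, rfl, fun _ _ h => h⟩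
    · obtain ⟨c1', c2', f', g', e1, e2⟩ := ih _ _ c1 c2 f g h.2
      exact ⟨_, _, _, _, e1, fun y hy => e2 y hy.2⟩
    · obtain ⟨c1', c2', f', g', e1, e2⟩ := ih _ _ _ _ _ _ h.2
      refine ⟨_, _, _, _, e1, fun y hy hv => ?_⟩
      have h1 := e2 y hy.2 hv
      have h2 := hy.1
      generalize Nat.succ (Nat.mod d 65536) = m at h1
      rw [Rw.ok, sum_cnt y h.1.1, sum_cnt y h.1.2] at h2
      have h3 := mul_le_mul_of_nonneg_left h2 (Nat.cast_nonneg m)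
      simp only [Vok, Nat.cast_add, Nat.cast_mul, add_mul, sum_add_distrib, add_div,
        mul_right_comm _ (m : ℝ), ← sum_mul, mul_div_assoc] at h1 ⊢
      linarith

lemma boxT_ok {lo hi p q : ℕ} {y : Pt} (k : ℕ) (hy : Bx k lo hi y) : ∃ P N : ℕ,
    boxT lo hi p q k = P * 2 ^ 80 + N ∧ (∑ j ∈ range k, (f44 p j : ℝ) * y j -
      ∑ j ∈ range k, (f44 q j : ℝ) * y j) * SC ≤ (P : ℝ) - N := by
  induction k with
  | zero => exact ⟨0, 0, rfl, by simp⟩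
  | succ k ih =>
    obtain ⟨P, N, e1, e2⟩ := ih fun j hj => hy j (by omega)
    have e : boxT lo hi p q (k + 1) = force (f44 p k) fun a => force (f44 q k) fun b =>
        cnd (Nat.blt b a) (Nat.add (Nat.shiftLeft (Nat.mul (Nat.sub a b) (get hi k)) 80)
          (boxT lo hi p q k)) (Nat.add (Nat.mul (Nat.sub b a) (get lo k)) (boxT lo hi p q k)) := rfl
    have := term_le (f44 p k) (f44 q k) _ _ (hy k (by omega)).1 (hy k (by omega)).2
    simp only [e, force_eq, cnd_eq, Nat.blt_eq, e1, Nat.add_eq, Nat.mul_eq, Nat.sub_eq,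
      Nat.shiftLeft_eq', Nat.shiftLeft_eq, sum_range_succ]
    split_ifs with c
    · refine ⟨(f44 p k - f44 q k) * get hi k + P, N, by ring, ?_⟩
      rw [Nat.sub_eq_zero_of_le c.le, zero_mul, Nat.cast_zero] at this
      rw [Nat.cast_add]
      linarith
    · refine ⟨P, (f44 q k - f44 p k) * get lo k + N, by ring, ?_⟩
      rw [Nat.sub_eq_zero_of_le (not_lt.1 c), zero_mul, Nat.cast_zero] at this
      rw [Nat.cast_add]
      linarith

theorem impP_ok {k lo hi d : ℕ} {rs : List Rw} {r : Rw} (h : impP k lo hi rs r d < INF)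
    (hk : k ≤ 16) (hs : ∀ q ∈ rs, q.In k) (hr : r.In k) : impP k lo hi rs r d = 0 ∧
      ∀ y, Bx k lo hi y → (∀ q ∈ rs, q.ok y) → r.ok y := by
  have e0 : ∀ m l, m * pkV l = PV fun j => 0 + cntL j l * m := fun m l => by
    rw [← PV_lin, pkV_eq]
    simp [PV, pw]
  simp only [impP, force_eq, Nat.mul_eq, e0] at h ⊢
  obtain ⟨c1, c2, f, g, e1, e2⟩ := cmb_ok (k := k) (fun c1 p c2 n => grd (band
    (Nat.blt (Nat.shiftRight (Nat.add p n) 704) 17592186044416)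
      (Nat.ble (Nat.add c1 (Nat.shiftRight (boxT lo hi p n k) 80))
        (Nat.add c2 (Nat.mod (boxT lo hi p n k) 1208925819614629174706176)))) 0) rs _ _ _ _ _ _ hs
  rw [e1] at h ⊢
  obtain ⟨h1, h2⟩ := grd_lt h
  refine ⟨h2, fun y hy hq => ?_⟩
  obtain ⟨P, N, e3, e4⟩ := boxT_ok (p := PV f) (q := PV g) k hy
  simp only [band_eq, Bool.and_eq_true, Nat.blt_eq, Nat.ble_eq, e3, Nat.add_eq, Nat.shiftRight_eq,
    Nat.shiftRight_eq_div_pow] at h1
  have b : ∑ j ∈ range 16, f j + ∑ j ∈ range 16, g j < 2 ^ 44 := by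
    refine lt_of_le_of_lt ((Nat.le_div_iff_mul_le (Nat.two_pow_pos _)).2 ?_) h1.1
    rw [PV, PV, add_mul, mul_comm, mul_comm _ (2 ^ 704)]
    exact Nat.add_le_add (Nat.le_add_right _ _) (Nat.le_add_right _ _)
  rw [sum_congr rfl fun j hj => by rw [f44_PV (by omega) ((mem_range.1 hj).trans_le hk)],
    sum_congr (f := fun j => (f44 (PV g) j : ℝ) * y j) rfl fun j hj => by
      rw [f44_PV (by omega) ((mem_range.1 hj).trans_le hk)]] at e4
  have c0 : c1 + (P * 2 ^ 80 + N) / 2 ^ 80 ≤ c2 + (P * 2 ^ 80 + N) % 2 ^ 80 := h1.2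
  have c : (c1 : ℝ) + P ≤ c2 + N := by exact_mod_cast (by clear h1; omega : c1 + P ≤ c2 + N)
  have := e2 y hq (by
    rw [Vok, SC_eq_SndL] at *
    linarith)
  have m0 : (0 : ℝ) < (Nat.succ (Nat.mod d 65536) : ℕ) := Nat.cast_pos.2 (Nat.succ_pos _)
  generalize Nat.succ (Nat.mod d 65536) = m at this m0
  simp only [Vok, zero_add, Nat.cast_mul, mul_div_assoc, mul_comm _ (m : ℝ), mul_assoc, ← mul_sum,
    ← mul_add] at this
  rw [Rw.ok, sum_cnt y hr.1, sum_cnt y hr.2]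
  exact le_of_mul_le_mul_left this m0

theorem empR_ok (t : ℝ) : XTok t empR := fun _ _ _ _ sg S s hl A hI => by
  obtain ⟨h1, h2⟩ := impP_ok hl hI.le hI.rows ⟨by simp, by simp⟩
  rw [empR, h1, Nat.cast_zero, zero_div]
  refine (xEmpty sg t _ _).anti fun a ha => ?_
  have := h2 _ ha.1 ha.2
  simp only [Rw.ok, List.map_nil, List.sum_nil, Nat.cast_one, Nat.cast_zero, zero_div,
    add_zero] at this
  exact this.not_gt (one_div_pos.2 SC_pos)

lemma nmk_cases {k : ℕ} (rs : List Rw) : ∀ (lo hi s : ℕ) (K : ℕ → ℕ → List Rw → ℕ → ℕ),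
    (∀ r ∈ rs, r.In k) →
    (nmk rs lo hi s K = 0 ∧ ∀ y, Bx k lo hi y → ¬ ∀ r ∈ rs, r.ok y) ∨
      ∃ lo' hi' rs' s', nmk rs lo hi s K = K lo' hi' rs' s' ∧ (∀ r ∈ rs', r ∈ rs) ∧
        ∀ y, Bx k lo hi y → (∀ r ∈ rs, r.ok y) → Bx k lo' hi' y := by
  induction rs with
  | nil => exact fun lo hi s K _ => Or.inr ⟨lo, hi, [], s, rfl, fun _ h => h, fun _ h _ => h⟩
  | cons r rs ih =>
    intro lo hi s K hr
    rw [List.forall_mem_cons] at hr
    have e1 : nmk (r :: rs) lo hi s K = force (Nat.mod s 4) fun q =>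
        force (Nat.shiftRight s 2) fun s' =>
        cnd (Nat.beq q 0) (nmk rs lo hi s' fun lo2 hi2 rs2 => K lo2 hi2 (r :: rs2))
        (cnd (Nat.beq q 2) (nmk rs lo hi s' K)
          (force (Nat.add r.c1 (sumL lo r.l1)) fun a =>
           force (Nat.add r.c2 (sumL hi r.l2)) fun b =>
           cnd (Nat.blt b a) 0
            (force (Nat.sub b a) fun σ =>
             force (tHi σ lo r.l1 hi) fun hi' =>
             force (tLo σ hi r.l2 lo) fun lo' =>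
             cnd (Nat.beq q 1) (nmk rs lo' hi' s' fun lo2 hi2 rs2 => K lo2 hi2 (r :: rs2))
               (nmk rs lo' hi' s' K)))) := by
      simp only [nmk]
    have nx : ∀ lo' hi' s' (b : Prop) [Decidable b],
        (∀ y, Bx k lo hi y → r.ok y → Bx k lo' hi' y) → ∀ v, v = (if b then
          nmk rs lo' hi' s' fun lo2 hi2 rs2 => K lo2 hi2 (r :: rs2) else nmk rs lo' hi' s' K) →
        (v = 0 ∧ ∀ y, Bx k lo hi y → ¬ (r.ok y ∧ ∀ r ∈ rs, r.ok y)) ∨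
          ∃ lo' hi' rs' s', v = K lo' hi' rs' s' ∧ (∀ q ∈ rs', q ∈ r :: rs) ∧
            ∀ y, Bx k lo hi y → (r.ok y ∧ ∀ r ∈ rs, r.ok y) → Bx k lo' hi' y := by
      intro lo' hi' s' b _ key v hv
      split_ifs at hv <;> rw [hv]
      · rcases ih lo' hi' s' (fun lo2 hi2 rs2 => K lo2 hi2 (r :: rs2)) hr.2 with
          g | ⟨lo2, hi2, rs', s2, g1, g2, g3⟩
        · exact Or.inl ⟨g.1, fun y hy h => g.2 y (key y hy h.1) h.2⟩
        · exact Or.inr ⟨lo2, hi2, r :: rs', s2, g1, List.forall_mem_cons.2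
            ⟨List.mem_cons_self, fun q hq => List.mem_cons_of_mem _ (g2 q hq)⟩,
            fun y hy h => g3 y (key y hy h.1) h.2⟩
      · rcases ih lo' hi' s' K hr.2 with g | ⟨lo2, hi2, rs', s2, g1, g2, g3⟩
        · exact Or.inl ⟨g.1, fun y hy h => g.2 y (key y hy h.1) h.2⟩
        · exact Or.inr ⟨lo2, hi2, rs', s2, g1, fun q hq => List.mem_cons_of_mem _ (g2 q hq),
            fun y hy h => g3 y (key y hy h.1) h.2⟩
    simp only [e1, force_eq, cnd_eq, List.forall_mem_cons]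
    by_cases c1 : Nat.beq (Nat.mod s 4) 0 = true
    · exact nx lo hi _ True (fun _ h _ => h) _ (by rw [if_pos c1, if_pos trivial])
    by_cases c2 : Nat.beq (Nat.mod s 4) 2 = true
    · exact nx lo hi _ False (fun _ h _ => h) _ (by rw [if_neg c1, if_pos c2, if_neg id])
    rw [if_neg c1, if_neg c2]
    simp only [Nat.blt_eq, Nat.add_eq, Nat.sub_eq]
    by_cases c3 : r.c2 + sumL hi r.l2 < r.c1 + sumL lo r.l1
    · refine Or.inl ⟨if_pos c3, fun y hy h => ?_⟩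
      have g : ((r.c2 + sumL hi r.l2 : ℕ) : ℝ) / SC < ((r.c1 + sumL lo r.l1 : ℕ) : ℝ) / SC :=
        div_lt_div_of_pos_right (by exact_mod_cast c3) SC_pos
      simp only [Nat.cast_add, add_div] at g
      have := h.1
      rw [Rw.ok] at this
      linarith [hy.lb hr.1.1, hy.ub hr.1.2]
    refine nx _ _ _ _ (fun y hy h j hj => ?_) _ (if_neg c3)
    rw [Rw.ok] at h
    have a1 := hy.lb hr.1.1
    have a2 := hy.ub hr.1.2
    refine ⟨tLo_ok (fun j hj => (hy j hj).2) _ _ hr.1.2 ?_ (fun j hj => (hy j hj).1) j hj,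
      tHi_ok (fun j hj => (hy j hj).1) _ _ hr.1.1 ?_ (fun j hj => (hy j hj).2) j hj⟩ <;>
    · simp only [mul_sub]
      rw [map_sub, sumL_cast, Nat.cast_sub (not_lt.1 c3)]
      simp only [Nat.cast_add, add_div, sub_div]
      unfold W at *
      linarith

theorem nmR_ok (t : ℝ) : XTok t nmR := fun _ ih _ hH sg S s hl A hI => by
  rw [nmR] at hl ⊢
  rcases nmk_cases S.rs S.lo S.hi s (fun lo hi rs s' => ih sg ⟨S.k, S.par, S.kd, lo, hi, rs⟩ s')
    hI.rows with g | ⟨lo, hi, rs, s', g1, g2, g3⟩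
  · rw [g.1, Nat.cast_zero, zero_div]
    exact (xEmpty sg t _ _).anti fun a ha => g.2 _ ha.1 ha.2
  · rw [g1] at hl ⊢
    exact (hH sg _ s' hl A (hI.upd lo hi fun r hr => hI.rows r (g2 r hr))).anti
      fun a ha => ⟨g3 _ ha.1 ha.2, fun r hr => ha.2 r (g2 r hr)⟩

lemma fcv_ok {ih : NS → ℕ → ℕ} (hH : ∀ S s, Val t sg S (ih S s)) (hw : 44 ≤ w)
    {R k par kd lo hi G : ℕ}
    (h : H sg t k (fun j => kindOf (get kd j)) (fun a => ∀ r < n, Pr k G (rowQ w R r) a) 0) (c : ℕ) :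
    ∀ (B : ℕ) (rs : List Rw) (s : ℕ), Inv ⟨k, par, kd, lo, hi, rs⟩ A →
    fcv ih w R (ones w n) k par kd lo hi G (Nat.mul 12 (d4 G 0)) c B rs s < INF →
    H sg t k (fun j => kindOf (get kd j)) (fun a => (∀ r < n, B.testBit (w * r) = true →
      Pr k G (rowQ w R r) a) ∧ Om ⟨k, par, kd, lo, hi, rs⟩ A a)
      ((fcv ih w R (ones w n) k par kd lo hi G (Nat.mul 12 (d4 G 0)) c B rs s : ℝ) / 10 ^ 9) := by
  induction c with
  | zero =>
    intro B rs s hI hl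
    obtain ⟨h1, h2⟩ := grd_lt hl
    rw [show fcv ih w R (ones w n) k par kd lo hi G (Nat.mul 12 (d4 G 0)) 0 B rs s = 0 from h2,
      Nat.cast_zero, zero_div, Nat.eq_of_beq_eq_true h1]
    exact h.anti fun a ha r hr => ha.1 r hr (ones_bit hw hr)
  | succ c IH =>
    intro B rs s hI hl
    obtain ⟨c', l1, l2, e1, i1, i2, e3, e4⟩ := ndQ_ok (sg := sg) (t := t) hI w R G (Nat.mod s 64)
    have e : fcv ih w R (ones w n) k par kd lo hi G (Nat.mul 12 (d4 G 0)) (c + 1) B rs s =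
        force (Nat.mod s 64) fun r => force (Nat.mod (Nat.shiftRight s 6) 4) fun q =>
        force (Nat.shiftRight s 8) fun s => force (Nat.lor B (one (Nat.mul w r))) fun B' =>
        ndQ w R par G (Nat.mul 12 (d4 G 0)) k r fun c1 l1 e l2 =>
        cnd (Nat.beq q 0)
          (force (Nat.mod s 256) fun m => force (Nat.shiftRight s 8) fun u =>
            force (low u m) fun d => grd (Nat.beq (impP k lo hi rs ⟨c1, l1, e, l2⟩ d) 0)
              (force (Nat.shiftRight u m)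
                (fcv ih w R (ones w n) k par kd lo hi G (Nat.mul 12 (d4 G 0)) c B' rs)))
          (two s
            (fun v => force (Nat.succ c1) fun c' =>
              ih ⟨k, par, kd, lo, hi, ⟨e, l2, c', l1⟩ :: rs⟩ v)
            fun v => cnd (Nat.beq q 1) (fcv ih w R (ones w n) k par kd lo hi G
              (Nat.mul 12 (d4 G 0)) c B' (⟨c1, l1, e, l2⟩ :: rs) v)
              (fcv ih w R (ones w n) k par kd lo hi G (Nat.mul 12 (d4 G 0)) c B' rs v)) := by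
      simp only [fcv]
    simp only [e, force_eq, e1, two, Nat.add_eq, cnd_eq] at hl ⊢
    generalize Nat.mod s 64 = i at *
    generalize Nat.shiftRight s 8 = s' at *
    have dn : ∀ a, (∀ r < n, B.testBit (w * r) = true → Pr k G (rowQ w R r) a) →
        Rw.ok ⟨c', l1, (rowQ w R i).2, l2⟩ (Y A a) → ∀ r < n,
        (Nat.lor B (one (Nat.mul w i))).testBit (w * r) = true → Pr k G (rowQ w R r) a :=
      fun a g1 g2 r hr hj => by
        rw [Nat.lor_eq, Nat.testBit_or, Bool.or_eq_true, one_eq, Nat.testBit_two_pow,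
          decide_eq_true_iff, Nat.mul_eq, Nat.mul_right_inj (by omega)] at hj
        exact hj.elim (g1 r hr) fun g => g ▸ e3 a g2
    by_cases q0 : Nat.beq (Nat.mod (Nat.shiftRight s 6) 4) 0 = true
    · rw [if_pos q0] at hl ⊢
      obtain ⟨h1, h2⟩ := grd_lt hl
      rw [h2] at hl ⊢
      have := (impP_ok ((Nat.eq_of_beq_eq_true h1).trans_lt (by decide)) hI.le hI.rows ⟨i1, i2⟩).2
      exact (IH _ _ _ hI hl).anti fun a ha => ⟨dn a ha.1 (this _ ha.2.1 ha.2.2), ha.2⟩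
    rw [if_neg q0] at hl ⊢
    have I1 := hI.upd lo hi (rs := ⟨(rowQ w R i).2, l2, Nat.succ c', l1⟩ :: rs)
      (List.forall_mem_cons.2 ⟨⟨i2, i1⟩, hI.rows⟩)
    have I2 := hI.upd lo hi (rs := ⟨c', l1, (rowQ w R i).2, l2⟩ :: rs)
      (List.forall_mem_cons.2 ⟨⟨i1, i2⟩, hI.rows⟩)
    have a2 := lt_of_le_of_lt le_add_self hl
    rw [Nat.cast_add, add_div, add_comm]
    refine e4 _ _ _ ?_ ((hH _ _ (lt_of_le_of_lt le_self_add hl) A I1).anti fun a ha =>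
      ⟨ha.1.2.1, List.forall_mem_cons.2 ⟨ha.2, ha.1.2.2⟩⟩)
    split_ifs at a2 ⊢
    · exact (IH _ _ _ I2 a2).anti fun a ha => ⟨dn a ha.1.1 ha.2, ha.1.2.1,
        List.forall_mem_cons.2 ⟨ha.2, ha.1.2.2⟩⟩
    · exact (IH _ _ _ hI a2).anti fun a ha => ⟨dn a ha.1.1 ha.2, ha.1.2⟩

theorem fcR_ok {gd : NS → ℕ → ℕ → Bool} {T : BT PQ} (hT : T.All (PQ.Gd t gd)) :
    XTok t (fcR gd T) := fun _ ih _ hH sg S s hl A hI => by
  obtain ⟨w, R, n, G, v, hw, e, h⟩ := hdQ_ok hT hI sg hl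
  rw [fcR, e, force_eq] at hl ⊢
  exact (fcv_ok (hH sg) hw h _ _ _ _ hI hl).anti fun a ha =>
    ⟨fun r hr hb => fqB_ok hI hw hr hb ha, ha⟩

end Pool.Agent.MP_c853c5_nt.X

end

section

/-!
The main term of the dispersion when the last group is long.
-/

set_option autoImplicit false

open Finset Filter Real

namespace Pool.Agent.MP_c853c5_nt.DT

open DS

lemma fin_Long (m : ℕ) {T Q S J B K P X Δ Λ C w ZF s Z y g c L : ℝ} (hQ : 0 ≤ Q) (hS0 : 0 ≤ S)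
    (hJ0 : 0 ≤ J) (hB0 : 0 ≤ B) (hK : 0 < K) (hP : 0 < P) (hΛ : 1 ≤ Λ)
    (hS : S ≤ 2 * Λ * (P / K)) (hX : 0 < X) (hΔ : 0 < Δ) (hC : 0 ≤ C)
    (hw : 0 ≤ w) (hc : 1 ≤ c) (hL : 0 ≤ L) (hy : 0 ≤ y) (hZ : 0 ≤ Z)
    (hJ : J ≤ 17 * c * (P * Δ * g)) (hQP : Q * (P * Δ) ≤ K) (hB : B ≤ c * L)
    (h8 : L ^ (m + 1) * y ≤ K ^ m) (h4 : L ^ (2 * (m + 1)) * Z * y ≤ P / K)
    (hZF : ZF ≤ 16 * ((m + 1 : ℕ) : ℝ) * c * Z) (hs : s ≤ Z)
    (hT : T ≤ (2 * Q * S) ^ (2 * (m + 1) - 1) * (J ^ 2 * K) ^ (2 * (m + 1)) * (2 * Q *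
      (C * w ^ (2 * (m + 1) + 6) * (8 * X / (Δ * (K * P))) ^ (2 * (m + 1)) *
        (P / K * K ^ (m + 1 + 1) * B ^ (m + 1) +
          K ^ (2 * (m + 1)) * B ^ (2 * (m + 1)) * (ZF + s))))) :
    T * y ≤ (9248 * Λ * c ^ 2) ^ (2 * (m + 1)) * C * w ^ (2 * (m + 1) + 6) *
      ((8 * ((m + 1 : ℕ) : ℝ) + 2) * (2 * c) ^ (4 * (m + 1) + 1)) * (X * (K * P)) ^ (2 * (m + 1)) *
      g ^ (4 * (m + 1)) := by
  have hρ : 0 ≤ P / K := by positivity
  have a1 := inner_Main m hρ hK.le hB0 hc hK.le hL hy hZ (by nlinarith) hB h8 h4 hZF hs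
  have a2 := outer_Main m (H := J ^ 2 * K / 33) hQ hS0 (by positivity) hρ hΛ hS le_rfl rfl
  rw [mul_div_cancel₀ _ (by norm_num : (33 : ℝ) ≠ 0)] at a2
  have a3 : (132 * Λ * (Q * (J ^ 2 * K / 33) * (P / K))) ^ (2 * (m + 1)) *
      (8 * X / (Δ * (K * P))) ^ (2 * (m + 1)) * K ^ (2 * (m + 1)) ≤
      (9248 * Λ * c ^ 2) ^ (2 * (m + 1)) * (X * (K * P)) ^ (2 * (m + 1)) * g ^ (4 * (m + 1)) := by
    rw [show 4 * (m + 1) = 2 * (2 * (m + 1)) by ring, pow_mul g, ← mul_pow, ← mul_pow, ← mul_pow,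
      ← mul_pow]
    refine pow_le_pow_left₀ (by positivity) ?_ _
    calc 132 * Λ * (Q * (J ^ 2 * K / 33) * (P / K)) * (8 * X / (Δ * (K * P))) * K
        = 32 * Λ * X * (Q / Δ) * J ^ 2 := by
          field_simp
          ring
      _ ≤ 32 * Λ * X * (Q / Δ) * (17 * c * (P * Δ * g)) ^ 2 := by gcongr
      _ = 9248 * Λ * c ^ 2 * (X * (Q * (P * Δ) * P)) * g ^ 2 := by
          field_simp
          ring
      _ ≤ _ := by gcongr
  have p1 : 0 ≤ (2 * Q * S) ^ (2 * (m + 1) - 1) * (J ^ 2 * K) ^ (2 * (m + 1)) * (2 * Q) := by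
    positivity
  have p2 : 0 ≤ C * w ^ (2 * (m + 1) + 6) := by positivity
  have p3 : 0 ≤ (8 * X / (Δ * (K * P))) ^ (2 * (m + 1)) := by positivity
  have p4 : 0 ≤ (8 * ((m + 1 : ℕ) : ℝ) + 2) * (2 * c) ^ (4 * (m + 1) + 1) := by positivity
  have p5 : 0 ≤ K ^ (2 * (m + 1)) := by positivity
  generalize (P / K * K ^ (m + 1 + 1) * B ^ (m + 1) +
    K ^ (2 * (m + 1)) * B ^ (2 * (m + 1)) * (ZF + s)) = I at *
  generalize (8 * ((m + 1 : ℕ) : ℝ) + 2) * (2 * c) ^ (4 * (m + 1) + 1) = u at *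
  generalize (8 * X / (Δ * (K * P))) ^ (2 * (m + 1)) = v at *
  generalize K ^ (2 * (m + 1)) = e at *
  generalize (132 * Λ * (Q * (J ^ 2 * K / 33) * (P / K))) ^ (2 * (m + 1)) = o at *
  generalize (9248 * Λ * c ^ 2) ^ (2 * (m + 1)) = k at *
  generalize (X * (K * P)) ^ (2 * (m + 1)) = f at *
  generalize g ^ (4 * (m + 1)) = g' at *
  generalize w ^ (2 * (m + 1) + 6) = W at *
  generalize (2 * Q * S) ^ (2 * (m + 1) - 1) = a at *
  generalize (J ^ 2 * K) ^ (2 * (m + 1)) = b at *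
  generalize P / K = ρ at *
  calc T * y ≤ a * b * (2 * Q * (C * W * v * I)) * y := mul_le_mul_of_nonneg_right hT hy
    _ = a * b * (2 * Q) * (C * W) * v * (I * y) := by ring
    _ ≤ a * b * (2 * Q) * (C * W) * v * (ρ * u * e) :=
      mul_le_mul_of_nonneg_left a1 (mul_nonneg (mul_nonneg p1 p2) p3)
    _ = a * b * (2 * Q) * ρ * (C * W * v * u * e) := by ring
    _ ≤ o * (C * W * v * u * e) :=
      mul_le_mul_of_nonneg_right a2 (mul_nonneg (mul_nonneg (mul_nonneg p2 p3) p4) p5)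
    _ = o * v * e * (C * W * u) := by ring
    _ ≤ k * f * g' * (C * W * u) := mul_le_mul_of_nonneg_right a3 (mul_nonneg p2 p4)
    _ = _ := by ring

lemma facts_Long {m K P B H : ℕ} {x μ X Δ c : ℝ} (hm : 1 ≤ m) (G : Geo x μ (m + 1) X Δ K P)
    (hx : 1 ≤ x) (hc : 1 ≤ c) (hy : 8 * c ≤ x ^ μ)
    (hz : 2 * 4 ^ (2 * (m + 1) + 1) * c ≤ x ^ (1 / 400 : ℝ))
    (hB : (B : ℝ) ≤ c * (K * P / (X * Δ))) (hH1 : c * (K * P * Δ) ≤ H)
    (hH2 : (H : ℝ) ≤ c * (K * P * Δ) + 1) :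
    (B : ℝ) ≤ c * Lm X Δ K P ∧ (H : ℝ) ≤ 2 * c * (K * P * Δ) ∧ 1 ≤ H ∧ 4 * H ≤ K ^ 2 ∧
      4 ^ (2 * (m + 1) + 1) * B < K ∧ 8 * K ≤ P ∧ (K : ℝ) * P ≤ X ∧
      √((P : ℝ) / K) ≤ zb (1 / Δ) (P / K) := by
  have hx0 : 0 < x := by linarith
  have hΔ : 0 < Δ := (Real.rpow_pos_of_pos hx0 _).trans_le G.d1
  have hΔ1 : Δ ≤ 1 := G.d2.trans (Real.rpow_le_one_of_one_le_of_nonpos hx (by norm_num))
  have hK : (1 : ℝ) ≤ K := by exact_mod_cast G.k1
  have hP : (1 : ℝ) ≤ P := by exact_mod_cast G.p1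
  have hL := one_le_Lm X Δ K P
  have hL' := le_Lm X Δ K P
  have h1 := G.h1
  have h2 := G.h2
  have h3 := G.h3
  have h4 := G.h4
  have h5 := G.h5
  rw [Nat.add_sub_cancel] at h2
  have h44 : (4 : ℝ) ≤ 4 ^ (2 * (m + 1) + 1) := le_self_pow₀ (by norm_num) (by omega)
  generalize x ^ μ = y at *
  generalize x ^ (1 / 400 : ℝ) = z at *
  generalize Lm X Δ K P = L at *
  have hy1 : 1 ≤ y := by linarith
  have hE0 : 0 ≤ (K : ℝ) * P * Δ := by positivity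
  have hLE : L ≤ K * P * Δ := by
    rw [← pow_le_pow_iff_left₀ (by linarith) hE0 (show m ≠ 0 by omega)]
    refine le_trans ?_ h2
    exact (pow_le_pow_right₀ hL (Nat.le_succ m)).trans
      (le_mul_of_one_le_right (by positivity) hy1)
  have b1 : (B : ℝ) ≤ c * L := hB.trans (by gcongr)
  have b3 : 1 ≤ c * (K * P * Δ) := one_le_mul_of_one_le_of_one_le hc (hL.trans hLE)
  have hPΔ : 0 ≤ (P : ℝ) * Δ := by positivity
  have b4 : 8 * c * (P * Δ) ≤ K := by nlinarith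
  have b5 : 4 * (H : ℝ) ≤ K ^ 2 := by nlinarith
  have b6 : (4 : ℝ) ^ (2 * (m + 1) + 1) * B < K := by
    have : (4 : ℝ) ^ (2 * (m + 1) + 1) * B ≤ 4 ^ (2 * (m + 1) + 1) * (c * L) := by gcongr
    generalize (4 : ℝ) ^ (2 * (m + 1) + 1) = u at *
    nlinarith
  have b7 : (P : ℝ) / K ≤ 1 / Δ := by
    rw [div_le_div_iff₀ (by linarith) hΔ]
    nlinarith
  have b8 : √((P : ℝ) / K) ≤ zb (1 / Δ) (P / K) :=
    sqrt_le_zb_Main b7 (one_le_one_div hΔ hΔ1)
  have b9 : (8 : ℝ) * K ≤ P := by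
    have hρ : 0 < (P : ℝ) / K := by positivity
    have e := Real.mul_self_sqrt hρ.le
    have s0 := Real.sqrt_pos.2 hρ
    have p : 1 ≤ L ^ (2 * (m + 1)) := one_le_pow₀ hL
    have q : √((P : ℝ) / K) * y ≤ P / K := by
      refine le_trans ?_ h4
      refine mul_le_mul_of_nonneg_right (b8.trans ?_) (by linarith)
      exact le_mul_of_one_le_left (s0.le.trans b8) p
    have q2 : y ≤ √((P : ℝ) / K) := by
      refine le_of_mul_le_mul_left ?_ s0
      rwa [e]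
    rw [← le_div_iff₀ (by linarith), ← e]
    nlinarith
  have b10 : (K : ℝ) * P ≤ X :=
    (le_mul_of_one_le_left (by positivity) (one_le_pow₀ hK)).trans h3
  refine ⟨b1, by linarith, ?_, by exact_mod_cast b5, by exact_mod_cast b6,
    by exact_mod_cast b9, b10, b8⟩
  exact_mod_cast b3.trans hH1

lemma cond_Long {K P B H X Δ Λ l ρ w x : ℝ} (hx : 133 ≤ x) (hl : Real.log x = l) (hl1 : 1 ≤ l)
    (hΛ : 1 ≤ Λ) (hK : 1 ≤ K) (hP : 1 ≤ P) (hH0 : 0 ≤ H) (hX : 0 < X) (hΔ : 0 < Δ)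
    (hX2 : X ≤ 2 * x) (hN : K * P ≤ X) (hB : B ≤ 3 * Λ * l * (K * P / (X * Δ)))
    (hH : H ≤ 2 * (3 * Λ * l) * (K * P * Δ)) (h1 : P ≤ 8 * K * ρ)
    (hw : 1152 * Λ ^ 2 * l ^ 2 ≤ w) :
    Real.log (2 * K + 1) ≤ w ∧ B * X * H ≤ w * (K ^ 4 * ρ ^ 2) := by
  have hBX : B * X ≤ 3 * Λ * l * (K * P) * (1 / Δ) := by
    refine (mul_le_mul_of_nonneg_right hB hX.le).trans_eq ?_
    field_simp
  have hN8 : K * P ≤ 8 * (ρ * K ^ 2) := by nlinarith
  constructor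
  · have h2 : 1 ≤ Λ ^ 2 := one_le_pow₀ hΛ
    have h3 : l ≤ l ^ 2 := by nlinarith
    have h4 : 2 * l ≤ w := by nlinarith
    refine le_trans ?_ h4
    have hKX : K ≤ X := le_trans (by nlinarith) hN
    have : 2 * K + 1 ≤ x ^ 2 := by nlinarith
    refine (Real.log_le_log (by positivity) this).trans_eq ?_
    rw [Real.log_pow, hl]
    norm_num
  · calc B * X * H ≤ 3 * Λ * l * (K * P) * (1 / Δ) * (2 * (3 * Λ * l) * (K * P * Δ)) := by gcongr
      _ = 18 * Λ ^ 2 * l ^ 2 * (K * P) ^ 2 := by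
        field_simp
        ring
      _ ≤ 18 * Λ ^ 2 * l ^ 2 * (8 * (ρ * K ^ 2)) ^ 2 := by gcongr
      _ = 1152 * Λ ^ 2 * l ^ 2 * (K ^ 4 * ρ ^ 2) := by ring
      _ ≤ _ := by gcongr

lemma jq_Long {K P Q H J Δ c g : ℝ} (hK : 0 < K) (hQ : 0 < Q) (hPΔ : 0 ≤ P * Δ) (hc : 1 ≤ c)
    (hg : 1 ≤ g) (hE : 1 ≤ P * Δ * g) (q2 : Q * H ≤ K ^ 2) (q3 : K ^ 2 ≤ 2 * Q * H)
    (hH1 : c * (K * P * Δ) ≤ H) (hH2 : H ≤ 2 * c * (K * P * Δ)) (hJ : J ≤ 4 * K / Q + 1) :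
    J ≤ 17 * c * (P * Δ * g) ∧ Q * (P * Δ) ≤ K := by
  rw [mul_assoc K] at hH1 hH2
  generalize P * Δ = E at *
  constructor
  · have h1 : 4 * K / Q ≤ 16 * c * E := by
      rw [div_le_iff₀ hQ]
      refine le_of_mul_le_mul_left ?_ hK
      nlinarith [mul_le_mul_of_nonneg_left hH2 hQ.le]
    have h2 : c * E ≤ c * (E * g) := by
      gcongr
      exact le_mul_of_one_le_right hPΔ hg
    have h3 : 1 ≤ c * (E * g) := one_le_mul_of_one_le_of_one_le hc hE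
    linarith
  · refine le_of_mul_le_mul_left ?_ hK
    have h1 : K * E ≤ H := (le_mul_of_one_le_left (by positivity) hc).trans hH1
    nlinarith [mul_le_mul_of_nonneg_left h1 hQ.le]

lemma loc_Long (X Δ : ℝ) (B H : ℕ) (R : Finset ℕ) (q : ℕ → ℕ) (s : ℕ) :
    loc (G1 X Δ B H) R q s = loc (G0 X Δ B H) R q s := by
  funext a b
  unfold loc G1
  by_cases h : a = b
  · subst h
    simp [G0]
  · rw [if_neg h]

theorem long_stmt (hB : BlkStmt) (hL : LocStmt) : LongStmt := by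
  intro r Λ μ hr hΛ hμ
  obtain ⟨C, hC, hL⟩ := hL r (by omega)
  obtain ⟨m, rfl⟩ : ∃ m, r = m + 1 := ⟨r - 1, by omega⟩
  have hm : 1 ≤ m := by omega
  have hΛ' : (1 : ℝ) ≤ Λ := by exact_mod_cast hΛ
  have hr0 : (0 : ℝ) < ((m + 1 : ℕ) : ℝ) := by positivity
  refine ⟨μ / 2 / (4 * ((m + 1 : ℕ) : ℝ)), by positivity, ?_⟩
  filter_upwards [eventually_ge_atTop (133 : ℝ), E.ev_le_log 1, E.ev_log_le (24 * Λ) 1 hμ,
    E.ev_log_le (2 * 4 ^ (2 * (m + 1) + 1) * (3 * Λ)) 1 (show (0 : ℝ) < 1 / 400 by norm_num),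
    E.ev_log_le ((9248 * Λ * (3 * Λ) ^ 2) ^ (2 * (m + 1)) * C *
      (4 ^ (m + 1) + 1152 * Λ ^ 2 + 8 * Λ + 2) ^ (2 * (m + 1) + 6) *
      ((8 * ((m + 1 : ℕ) : ℝ) + 2) * (6 * Λ) ^ (4 * (m + 1) + 1)))
      (2 * (2 * (m + 1)) + 2 * (2 * (m + 1) + 6) + (4 * (m + 1) + 1)) (half_pos (half_pos hμ))]
    with x hx hl hy hz hfin X Δ K P D α G hE hD hα
  rw [pow_one] at hy hz
  have hx0 : 0 < x := by linarith
  have hΔ : 0 < Δ := (Real.rpow_pos_of_pos hx0 _).trans_le G.d1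
  have hX : 0 < X := lt_of_lt_of_le (by linarith) G.x1
  have hK : (0 : ℝ) < K := by exact_mod_cast G.k1
  have hP : (0 : ℝ) < P := by exact_mod_cast G.p1
  have hc1 : 1 ≤ 3 * (Λ : ℝ) * Real.log x := by nlinarith
  have hBle : (bb x X Δ Λ K P : ℝ) ≤ 3 * Λ * Real.log x * (K * P / (X * Δ)) :=
    Nat.floor_le (by positivity)
  have hH1 : 3 * Λ * Real.log x * (K * P * Δ) ≤ (hh x Δ Λ K P : ℝ) := Nat.le_ceil _
  have hH2 : (hh x Δ Λ K P : ℝ) ≤ 3 * Λ * Real.log x * (K * P * Δ) + 1 :=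
    (Nat.ceil_lt_add_one (by positivity)).le
  generalize bb x X Δ Λ K P = B at *
  generalize hh x Δ Λ K P = H at *
  obtain ⟨f1, f3, f4, f5, f6, f7, f8, f9⟩ := facts_Long hm G (by linarith) hc1
    (by linarith) (by linarith) hBle hH1 hH2
  have hK1 := G.k1
  have q1 : 4 ≤ K ^ 2 / H := (Nat.le_div_iff_mul_le f4).2 f5
  have q2 : K ^ 2 / H * H ≤ K ^ 2 := Nat.div_mul_le_self _ _
  have q3 : K ^ 2 ≤ 2 * (K ^ 2 / H) * H := by
    have := Nat.lt_div_mul_add (a := K ^ 2) f4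
    nlinarith
  generalize K ^ 2 / H = Q at *
  have q4 : 4 * K ≤ (4 * K / Q + 1) * Q := by
    have := Nat.lt_div_mul_add (a := 4 * K) (show 0 < Q by omega)
    rw [add_one_mul]
    exact this.le
  have hg : 1 ≤ x ^ (μ / (8 * ((m + 1 : ℕ) : ℝ))) :=
    Real.one_le_rpow (by linarith) (by positivity)
  obtain ⟨j1, j2⟩ := jq_Long (J := ((4 * K / Q + 1 : ℕ) : ℝ)) (Q := Q) hK
    (by exact_mod_cast (show 0 < Q by omega)) (by positivity) hc1 hg hE (by exact_mod_cast q2)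
    (by exact_mod_cast q3) hH1 f3 (by
      have := Nat.cast_div_le (α := ℝ) (m := 4 * K) (n := Q)
      rw [Nat.cast_mul, Nat.cast_ofNat] at this
      rw [Nat.cast_add, Nat.cast_one]
      linarith)
  generalize 4 * K / Q + 1 = J at *
  have hS : ((Λ * P / K + 1 : ℕ) : ℝ) ≤ Λ * (P / K) + 1 := by
    have := Nat.cast_div_le (α := ℝ) (m := Λ * P) (n := K)
    rw [Nat.cast_mul, mul_div_assoc] at this
    rw [Nat.cast_add, Nat.cast_one]
    linarith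
  have hρ0 : (1 : ℝ) ≤ P / K := by
    rw [le_div_iff₀ hK]
    have : (8 : ℝ) * K ≤ P := by exact_mod_cast f7
    linarith
  obtain ⟨w, hw⟩ : ∃ w : ℝ, w = (4 ^ (m + 1) + 1152 * Λ ^ 2 + 8 * Λ + 2) * Real.log x ^ 2 :=
    ⟨_, rfl⟩
  have hw4 : 1152 * Λ ^ 2 * Real.log x ^ 2 ≤ w := by
    rw [hw]
    refine mul_le_mul_of_nonneg_right ?_ (by positivity)
    have : (0 : ℝ) ≤ 4 ^ (m + 1) := by positivity
    linarith
  have hw1 : 1 ≤ w := by
    refine le_trans ?_ hw4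
    refine one_le_mul_of_one_le_of_one_le ?_ (one_le_pow₀ hl)
    have : (1 : ℝ) ≤ Λ ^ 2 := one_le_pow₀ hΛ'
    linarith
  have hA : 1 ≤ 16 * ((m + 1 : ℕ) : ℝ) * (3 * Λ * Real.log x) := by
    have : (1 : ℝ) ≤ ((m + 1 : ℕ) : ℝ) := by exact_mod_cast Nat.le_add_left 1 m
    nlinarith
  have key := hB K P Λ H Q J (m + 1) D (G1 X Δ B H) α
    (C * w ^ (2 * (m + 1) + 6) * (8 * X / (Δ * (K * P))) ^ (2 * (m + 1)) *
      (P / K * K ^ (m + 1 + 1) * B ^ (m + 1) + K ^ (2 * (m + 1)) * B ^ (2 * (m + 1)) *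
        (zb (16 * ((m + 1 : ℕ) : ℝ) * (3 * Λ * Real.log x) * (1 / Δ)) (P / K) + √(P / K))))
    (by omega) hΛ hD hK1 f7 (by omega) q2 q4
    (fun u v => by
      unfold G1
      rw [G0_comm X Δ B H u v]
      exact if_congr eq_comm rfl rfl)
    (fun u v h => by
      have h1 : u.1 ≠ v.1 := fun h' => h (if_pos h')
      refine ⟨h1, ?_⟩
      by_contra h'
      exact h ((if_neg h1).trans (if_neg fun h2 => h' h2.2))) hα
    (fun D' q ρ hD' r1 r2 hcell => by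
      obtain ⟨c1, c2, c3, -, c5, -, c7, c8⟩ := cond_Main (H := 0) (Nat.le_add_left 1 m) hx rfl hl
        hΛ' hK1 hX hΔ G.x2 G.h3 f8 hBle (by rw [Nat.cast_zero]; positivity) (Nat.zero_le _) f7 hS
        r1 r2 hw
      obtain ⟨c4, c6⟩ := cond_Long hx rfl hl hΛ' (by exact_mod_cast hK1) (by exact_mod_cast G.p1)
        (Nat.cast_nonneg H) hX hΔ G.x2 f8 hBle f3 r1 hw4
      simp only [loc_Long]
      refine (hL K B H Q _ P (Λ * P) D' q X Δ ρ w _ (fun k hk => hD k (hD' hk)) f6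
        (by omega) q3 hcell hX hΔ c1 hw1 c2 c3 c4 c5 c6).trans ?_
      have z1 := zb_mono (F := 16 * ((m + 1 : ℕ) : ℝ) * (3 * Λ * Real.log x) * (1 / Δ))
        (by positivity) le_rfl c8
      have z0 := zb_nonneg (F := 16 * ((m + 1 : ℕ) : ℝ) * (3 * Λ * Real.log x) * (1 / Δ))
        (by positivity) ρ
      have z2 := Real.sqrt_le_sqrt c8
      have z3 := Real.sqrt_nonneg ρ
      have ρ0 : 0 < ρ := by linarith
      gcongr)
  have h8 := G.h8
  rw [Nat.add_sub_cancel] at h8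
  have fin := fin_Long m (Nat.cast_nonneg Q) (Nat.cast_nonneg _) (Nat.cast_nonneg J)
    (Nat.cast_nonneg B) hK hP hΛ' (hS.trans (by nlinarith)) hX hΔ hC.le
    (by linarith) hc1 (zero_le_one.trans (one_le_Lm X Δ K P)) (Real.rpow_nonneg hx0.le μ)
    (zb_nonneg (by positivity) _) j1 j2 f1 h8 G.h4 (zb_scale_Main hA (by positivity)) f9 key
  have e1 : (x ^ (μ / (8 * ((m + 1 : ℕ) : ℝ)))) ^ (4 * (m + 1)) = x ^ (μ / 2) := by
    rw [← Real.rpow_natCast, ← Real.rpow_mul hx0.le]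
    congr 1
    rw [Nat.cast_mul]
    field_simp
    norm_num
  have e2 : x ^ μ = x ^ (μ / 2) * x ^ (μ / 2) := by rw [← Real.rpow_add hx0, add_halves]
  rw [e1, e2, ← mul_assoc] at fin
  refine end_Main (Nat.succ_pos m) hx0 (by positivity)
    (le_of_mul_le_mul_right fin (Real.rpow_pos_of_pos hx0 _)) (le_trans (le_of_eq ?_) hfin)
  rw [hw, show 2 * (3 * (Λ : ℝ) * Real.log x) = 6 * Λ * Real.log x by ring,
    show 9248 * (Λ : ℝ) * (3 * Λ * Real.log x) ^ 2 = 9248 * Λ * (3 * Λ) ^ 2 * Real.log x ^ 2 by ring,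
    mul_pow _ (Real.log x ^ 2), mul_pow _ (Real.log x ^ 2), mul_pow _ (Real.log x), ← pow_mul,
    ← pow_mul, pow_add (Real.log x) (_ + _), pow_add (Real.log x) (2 * _)]
  ring

end Pool.Agent.MP_c853c5_nt.DT

end
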