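import Pool.Agent.Mg.C853.G33b3ec
import Pool.Agent.MP_c853c5_nt.X.GaD
import Pool.Agent.Mg.C853.G915c67
import Pool.Agent.MP_c853c5_nt.X.Pk
import Pool.Agent.MP_c853c5_nt.X.Gd
import Pool.Agent.Mg.C853.Gbd8227

section

/-!
The lanes of a row.
-/

set_option autoImplicit false

open Finset

namespace Pool.Agent.MP_c853c5_nt.X

open Pool.Agent.MP_c853c5_nt.S Pool.Agent.MP_c853c5_nt.REG Ln

variable {g : Gr} {S : NS} {A : ℕ → Finset ℕ} {R : ℝ} {r W C : ℕ}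

lemma clp_eq (hg : g.OK S) {E : ℕ → ℕ} (h : ∀ c < 2 ^ g.B, E c < 2 ^ 32) :
    clp g.T (pk (2 ^ g.B) E) = pk (2 ^ g.B) fun c => E c - 2 ^ 31 := by
  show pk _ E &&& ((pk _ E &&& g.T) - (pk _ E &&& g.T) >>> 31) = _
  rw [land_T_shift hg, land_T hg, pk_sub fun c _ => by split_ifs <;> omega]
  refine (pw_land (w := 32) (by norm_num) h fun c _ => by split_ifs <;> omega).trans
    (pk_congr fun c hc => ?_)
  have := h c hc
  rw [pk_bit h c (by norm_num), decide_eq_true hc, Bool.true_and,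
    Nat.testBit_eq_decide_div_mod_eq]
  split_ifs with e <;> rw [decide_eq_true_iff] at e
  · rw [Nat.and_two_pow_sub_one_eq_mod]
    omega
  · rw [Nat.sub_self, Nat.and_zero]
    omega

lemma mnL_eq (hg : g.OK S) {u v : ℕ → ℕ} (hu : ∀ c < 2 ^ g.B, u c < 2 ^ 31)
    (hv : ∀ c < 2 ^ g.B, v c < 2 ^ 31) :
    mnL g.T (pk (2 ^ g.B) u) (pk (2 ^ g.B) v) = pk (2 ^ g.B) fun c => min (u c) (v c) := by
  have e : g.T + pk (2 ^ g.B) u - pk (2 ^ g.B) v = pk (2 ^ g.B) fun c => 2 ^ 31 + u c - v c := by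
    rw [hg.hT, pk_add, pk_sub fun c hc => by have := hv c hc; omega]
  show pk _ u - clp g.T (g.T + pk _ u - pk _ v) = _
  rw [e, clp_eq hg fun c hc => by have := hu c hc; omega, pk_sub fun c hc => by omega]
  exact pk_congr fun c hc => by have := hv c hc; omega

section

variable (P Q md : ℕ)

def dP (x : Nr) : ℕ := fl P x.a md - fl Q x.b md

def dN (x : Nr) : ℕ := fl Q x.b md - fl P x.a md

def gaX (x : Nr) : ℕ := (dN P Q md x + dP P Q md x) * x.h

def gaP (μ : ℕ) (x : Nr) : ℕ := if dP P Q md x = 0 then 0 else (gaX P Q md x * μ) >>> 20 + 1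

def gaM (μ : ℕ) (x : Nr) : ℕ := if dP P Q md x = 0 then (gaX P Q md x * μ) >>> 20 else 0

variable {P Q md}

lemma gaN_cons (e : ℕ) (K : KN) (x : Nr) (l : List Nr) (sx w e2 p q : ℕ) (F : ℕ → ℕ → ℕ) :
    gaN P Q md e K (x :: l) sx w e2 p q F = if dP P Q md x = 0 then
      if dN P Q md x = 0 then gaN P Q md e K l sx w e2 p q F else
        gaN P Q md e K l (sx + gaX P Q md x) (gaX P Q md x + (w - gaX P Q md x))
          (e2 + gaX P Q md x * gaX P Q md x) (p + dN P Q md x * e) (q + dN P Q md x * x.lo)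
          fun μ V => F μ V - (gaX P Q md x * μ) >>> 20 * x.U
      else gaN P Q md e K l (sx + gaX P Q md x) (gaX P Q md x + (w - gaX P Q md x))
        (e2 + gaX P Q md x * gaX P Q md x) (p + dP P Q md x * (x.up + e)) q
        fun μ V => F μ V + ((gaX P Q md x * μ) >>> 20 + 1) * x.U := by
  have e0 : dP P Q md x = 0 ∨ dN P Q md x = 0 := by
    unfold dP dN
    omega
  show Nat.rec (motive := fun _ => ℕ) (Nat.rec (motive := fun _ => ℕ) _ _ (dN P Q md x)) _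
    (dP P Q md x) = _
  unfold gaX
  generalize dP P Q md x = a at *
  generalize dN P Q md x = b at *
  cases a with
  | zero =>
    cases b with
    | zero => rfl
    | succ b => exact force_eq _ _
  | succ a =>
    obtain rfl : b = 0 := by omega
    rw [if_neg (by omega), zero_add]
    exact force_eq _ _

lemma gaN_eq {n : ℕ} (e : ℕ) (K : KN) {ρ : ℕ → Nr} {ξ : ℕ → ℕ → ℕ} (l : List ℕ)
    (hU : ∀ j ∈ l, (ρ j).U = pk n (ξ j)) : ∀ (sx w e2 p q : ℕ) (F a b : ℕ → ℕ → ℕ),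
    (∀ μ V, (∀ c < n, b μ c ≤ V c) → F μ (pk n V) = pk n fun c => V c + a μ c - b μ c) →
    ∃ w' F', gaN P Q md e K (l.map ρ) sx w e2 p q F = K (sx + (l.map fun j => gaX P Q md (ρ j)).sum)
      w' (e2 + (l.map fun j => gaX P Q md (ρ j) * gaX P Q md (ρ j)).sum)
      (p + (l.map fun j => dP P Q md (ρ j) * ((ρ j).up + e) + dN P Q md (ρ j) * e).sum)
      (q + (l.map fun j => dN P Q md (ρ j) * (ρ j).lo).sum) F' ∧
      (w' = w ∨ ∃ j ∈ l, w' = gaX P Q md (ρ j)) ∧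
      ∀ μ V, (∀ c < n, b μ c + (l.map fun j => gaM P Q md μ (ρ j) * ξ j c).sum ≤ V c) →
        F' μ (pk n V) = pk n fun c => V c + (a μ c + (l.map fun j => gaP P Q md μ (ρ j) * ξ j c).sum) -
          (b μ c + (l.map fun j => gaM P Q md μ (ρ j) * ξ j c).sum) := by
  induction l with
  | nil => exact fun sx w e2 p q F a b h => ⟨w, F, rfl, Or.inl rfl, h⟩
  | cons j l ih =>
    intro sx w e2 p q F a b h
    rw [List.forall_mem_cons] at hU
    have hw : ∀ w', (w' = gaX P Q md (ρ j) + (w - gaX P Q md (ρ j)) ∨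
        ∃ i ∈ l, w' = gaX P Q md (ρ i)) → w' = w ∨ ∃ i ∈ j :: l, w' = gaX P Q md (ρ i) :=
      fun w' c => by
        simp only [List.mem_cons, exists_eq_or_imp]
        rcases c with c | c
        exacts [by omega, Or.inr (Or.inr c)]
    simp only [List.map_cons, List.sum_cons, gaN_cons, gaP, gaM]
    split_ifs with c1 c2
    · obtain ⟨w', F', h1, h2, h3⟩ := ih hU.2 sx w e2 p q F a b h
      refine ⟨w', F', ?_, h2.imp id fun ⟨i, g1, g2⟩ => ⟨i, List.mem_cons_of_mem _ g1, g2⟩, ?_⟩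
      · simpa [gaX, c1, c2] using h1
      · simpa [gaX, c1, c2, gaP, gaM] using h3
    · obtain ⟨w', F', h1, h2, h3⟩ := ih hU.2 _ _ _ _ _
        (fun μ V => F μ V - (gaX P Q md (ρ j) * μ) >>> 20 * (ρ j).U) a
        (fun μ c => b μ c + (gaX P Q md (ρ j) * μ) >>> 20 * ξ j c) fun μ V hV => by
          rw [h μ V fun c hc => le_of_add_le_left (hV c hc), hU.1, pk_smul,
            pk_sub fun c hc => by have := hV c hc; omega]
          exact pk_congr fun c _ => by rw [Nat.sub_sub]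
      exact ⟨w', F', by rw [h1, c1]; simp only [add_assoc, zero_mul, zero_add], hw _ h2,
        by simpa only [gaP, gaM, add_assoc, zero_mul, zero_add] using h3⟩
    · obtain ⟨w', F', h1, h2, h3⟩ := ih hU.2 _ _ _ _ _
        (fun μ V => F μ V + ((gaX P Q md (ρ j) * μ) >>> 20 + 1) * (ρ j).U)
        (fun μ c => a μ c + ((gaX P Q md (ρ j) * μ) >>> 20 + 1) * ξ j c) b fun μ V hV => by
          rw [h μ V hV, hU.1, pk_smul, pk_add]
          exact pk_congr fun c hc => by have := hV c hc; omega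
      have c2 : dN P Q md (ρ j) = 0 := by
        unfold dP dN at *
        omega
      exact ⟨w', F', by rw [h1, c2]; simp only [add_assoc, zero_mul, zero_add, add_zero], hw _ h2,
        by simpa only [gaP, gaM, add_assoc, zero_mul, zero_add] using h3⟩

end

lemma lsum_range (f : ℕ → ℕ) (k : ℕ) : ((List.range k).map f).sum = ∑ j ∈ range k, f j := by
  induction k with
  | zero => rfl
  | succ k ih => rw [List.range_succ, List.map_append, List.sum_append, ih, sum_range_succ]; simp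

lemma shr_le (a : ℕ) : ((a >>> 20 : ℕ) : ℝ) ≤ a / 2 ^ 20 ∧ (a : ℝ) / 2 ^ 20 ≤ (a >>> 20 + 1 : ℕ) := by
  rw [le_div_iff₀ (by norm_num), div_le_iff₀ (by norm_num), Nat.shiftRight_eq_div_pow]
  constructor <;> norm_cast <;> omega

lemma fin_le {Z F c δ : ℝ} {μ τ s y1 y2 : ℕ} (Z1 : 0 < Z) (hZ : 2 ^ 36 * F ≤ Z) (c0 : 0 ≤ c)
    (k1 : μ * δ / 2 ^ 20 ≤ y1) (k2 : μ * δ / 2 ^ 20 - μ * s / 2 ^ 20 ≤ y2) :
    c * F * (μ * SC / Z * max (δ / SC) 0 + τ * (μ * SC / Z) * max (δ / SC - s / SC) 0) ≤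
      (y1 + τ * y2 : ℕ) * (c / 2 ^ 16) := by
  have S0 := SC_pos
  have m1 : μ * SC / Z * max (δ / SC) 0 ≤ 2 ^ 20 * y1 / Z := by
    rw [mul_max_of_nonneg _ _ (by positivity), mul_zero]
    refine max_le ((le_div_iff₀ Z1).2 ?_) (by positivity)
    rw [show μ * SC / Z * (δ / SC) * Z = μ * δ by field_simp]
    linear_combination 2 ^ 20 * k1
  have m2 : μ * SC / Z * max (δ / SC - s / SC) 0 ≤ 2 ^ 20 * y2 / Z := by
    rw [mul_max_of_nonneg _ _ (by positivity), mul_zero]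
    refine max_le ((le_div_iff₀ Z1).2 ?_) (by positivity)
    rw [show μ * SC / Z * (δ / SC - s / SC) * Z = μ * δ - μ * s by field_simp]
    linear_combination 2 ^ 20 * k2
  rw [mul_assoc (τ : ℝ)]
  refine (mul_le_mul (mul_le_mul_of_nonneg_left ((le_div_iff₀' (by norm_num)).2 hZ) c0)
    (add_le_add m1 (mul_le_mul_of_nonneg_left m2 (Nat.cast_nonneg τ))) (by positivity)
    (by positivity)).trans_eq ?_
  push_cast
  field_simp

lemma cw_nn (c : ℕ) : 0 ≤ cw g S W C r c := prod_nonneg fun _ _ => by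
  have := L.VV_pos
  have := SC_pos
  positivity

/-- the records of the nodes -/
def Nok (g : Gr) (S : NS) (ρ : ℕ → Nr) : Prop := ∀ j < S.k, (ρ j).h = get g.h j ∧
  (ρ j).up = get g.up j ∧ (ρ j).lo = get S.lo j ∧ (ρ j).U = pk (2 ^ g.B) (cx g.bs j)

theorem rowA (h : GBs g S A r W C R) {Z N : ℕ} (Z0 : 0 < Z)
    (hZ : 2 ^ 36 * ∏ j ∈ range r, fj g S W C (j + 1) ≤ Z) (N1 : 1 ≤ N)
    (hN : ∀ j < S.k, ∀ c, cx g.bs j c ≤ N) {ρ : ℕ → Nr} (hρ : Nok g S ρ) (P Q md e p0 q0 : ℕ)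
    (K : ℕ → ℕ → ℕ) : ∃ v b, gaN P Q md e (gaE g Z N K) ((List.range S.k).map ρ) 0 0 0 p0 q0
      (fun _ V => V) = K v b ∧ (b < 2 ^ 31 → ∃ ν : ℕ → ℕ, v = pk (2 ^ g.B) ν ∧ ∀ c < 2 ^ g.B,
        ν c ≤ b ∧ MQ S (fun y => Reg S A (fL g S c) (fH g S c) y ∧ ((q0 : ℝ) - p0 -
          e * ∑ j ∈ range S.k, ((dP P Q md (ρ j) : ℝ) + dN P Q md (ρ j))) / SC ≤
          ∑ j ∈ range S.k, ((dP P Q md (ρ j) : ℝ) - dN P Q md (ρ j)) * Y A y j)
          (ν c * (R * cw g S W C r c / 2 ^ 16))) := by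
  have hg := h.hg
  obtain ⟨w, F, h1, h2, h3⟩ := gaN_eq (P := P) (Q := Q) (md := md) e (gaE g Z N K) (List.range S.k)
    (fun j hj => (hρ j (List.mem_range.1 hj)).2.2.2) 0 0 0 p0 q0 (fun _ V => V) (fun _ _ => 0)
    (fun _ _ => 0) fun _ _ _ => rfl
  simp only [lsum_range, zero_add, List.mem_range] at h1 h2 h3
  rw [h1]
  simp only [gaE, force_eq]
  refine ⟨_, _, rfl, fun hb => ?_⟩
  set sx := ∑ j ∈ range S.k, gaX P Q md (ρ j) with hsx
  set e2 := ∑ j ∈ range S.k, gaX P Q md (ρ j) * gaX P Q md (ρ j) with he2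
  set p := p0 + ∑ j ∈ range S.k, (dP P Q md (ρ j) * ((ρ j).up + e) + dN P Q md (ρ j) * e) with hp
  set q := q0 + ∑ j ∈ range S.k, dN P Q md (ρ j) * (ρ j).lo with hq
  simp only [Nat.add_eq, Nat.mul_eq, Nat.sub_eq, Nat.shiftRight_eq, Nat.shiftLeft_eq',
    Nat.succ_eq_add_one, mn0, show ∀ a b, Nat.div a b = a / b from fun _ _ => rfl] at hb ⊢
  generalize hs : (7 * sx - 6 * w) / 20 = s at hb ⊢
  generalize hμ : 2 * e2 * Z / (27 * s * ((sx - 2 * s) * (sx - 2 * s))) -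
    (2 * e2 * Z / (27 * s * ((sx - 2 * s) * (sx - 2 * s))) - Z / sx) + 1 = μ at hb ⊢
  generalize hτ : cdv (2 * Z - μ * (sx + w)) (μ * (w + (sx - 2 * s))) = τ at hb ⊢
  generalize ha : ((p - q) * μ) >>> 20 + 1 = a at hb ⊢
  generalize hb' : ((q - p) * μ) >>> 20 = b at hb ⊢
  generalize ha0 : (μ * s) >>> 20 = a0
  rw [Nat.shiftLeft_eq] at hb ⊢
  have s1 : 1 ≤ s := by omega
  have s2 : 2 * s < sx := by omega
  have b1 : a + b + N * ((μ * sx) >>> 19 + 32) < 2 ^ 31 :=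
    lt_of_le_of_lt ((Nat.le_mul_of_pos_left _ τ.succ_pos).trans (Nat.le_add_right _ _)) hb
  have b2 : ∑ j ∈ range S.k, (gaP P Q md μ (ρ j) + gaM P Q md μ (ρ j)) ≤ (μ * sx) >>> 20 + 16 := by
    refine le_trans (sum_le_sum (g := fun j => gaX P Q md (ρ j) * μ / 2 ^ 20 + 1) fun j _ => ?_) ?_
    · unfold gaP gaM
      rw [Nat.shiftRight_eq_div_pow]
      split_ifs <;> omega
    rw [sum_add_distrib, sum_const, card_range, smul_eq_mul, mul_one, Nat.shiftRight_eq_div_pow]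
    refine add_le_add ((Nat.le_div_iff_mul_le (by norm_num)).2 ?_) h.hI.le
    rw [hsx, mul_sum, sum_mul]
    exact sum_le_sum fun j _ => (Nat.div_mul_le_self _ _).trans_eq (mul_comm _ _)
  have b3 : ∀ c, ∑ j ∈ range S.k, gaP P Q md μ (ρ j) * cx g.bs j c +
      ∑ j ∈ range S.k, gaM P Q md μ (ρ j) * cx g.bs j c + a0 ≤ N * ((μ * sx) >>> 19 + 32) :=
    fun c => by
      have g1 : ∑ j ∈ range S.k, gaP P Q md μ (ρ j) * cx g.bs j c +
          ∑ j ∈ range S.k, gaM P Q md μ (ρ j) * cx g.bs j c ≤ N * ((μ * sx) >>> 20 + 16) := by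
        refine le_trans ?_ (Nat.mul_le_mul_left N b2)
        rw [← sum_add_distrib, mul_sum]
        refine sum_le_sum fun j hj => ?_
        rw [← add_mul, mul_comm]
        exact Nat.mul_le_mul_right _ (hN j (mem_range.1 hj) c)
      have g2 : a0 ≤ N * ((μ * sx) >>> 20 + 16) := by
        refine le_trans ?_ (Nat.le_mul_of_pos_left _ N1)
        have := Nat.mul_le_mul_left μ (show s ≤ sx by omega)
        rw [← ha0, Nat.shiftRight_eq_div_pow, Nat.shiftRight_eq_div_pow]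
        omega
      refine (add_le_add g1 g2).trans ?_
      rw [← mul_add]
      refine Nat.mul_le_mul_left _ ?_
      rw [Nat.shiftRight_eq_div_pow, Nat.shiftRight_eq_div_pow]
      omega
  generalize N * ((μ * sx) >>> 19 + 32) = M at *
  rw [hg.hO, pk_smul, h3 μ _ fun c _ => by have := b3 c; omega]
  simp only [ga2, Nat.add_eq, Nat.mul_eq, Nat.sub_eq, pk_smul, mul_one]
  rw [pk_sub fun c _ => by have := b3 c; omega, clp_eq hg fun c _ => by have := b3 c; omega,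
    clp_eq hg fun c _ => by have := b3 c; omega, pk_smul, pk_add]
  refine ⟨_, rfl, fun c _ => ⟨?_, ?_⟩⟩
  · have := b3 c
    refine le_trans ?_ (Nat.le_add_right _ _)
    rw [add_one_mul, add_comm]
    exact add_le_add (Nat.mul_le_mul_left _ (by omega)) (by omega)
  have S0 := SC_pos
  have Z1 : (0 : ℝ) < Z := Nat.cast_pos.2 Z0
  have x0 : gaX P Q md (ρ 0) = 0 := by rw [gaX, (hρ 0 h.hI.pos).1, hg.h0, mul_zero]
  have hx : ∀ j < r, ((dN P Q md (ρ (j + 1)) : ℝ) + dP P Q md (ρ (j + 1))) *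
      (get g.h (j + 1) / SC) = gaX P Q md (ρ (j + 1)) / SC := fun j hj => by
    rw [gaX, (hρ _ (h.hr ▸ by omega)).1]
    push_cast
    ring
  have e1 : ∑ j ∈ range r, ((dN P Q md (ρ (j + 1)) : ℝ) + dP P Q md (ρ (j + 1))) *
      (get g.h (j + 1) / SC) = sx / SC := by
    rw [sum_congr rfl fun j hj => hx j (mem_range.1 hj), hsx, h.hr, sum_range_succ', x0, ← sum_div,
      add_zero, Nat.cast_sum]
  have e3 : ∑ j ∈ range r, ((dN P Q md (ρ (j + 1)) : ℝ) + dP P Q md (ρ (j + 1))) *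
      (get g.h (j + 1) / SC) * (((dN P Q md (ρ (j + 1)) : ℝ) + dP P Q md (ρ (j + 1))) *
      (get g.h (j + 1) / SC)) = e2 / SC ^ 2 := by
    rw [sum_congr rfl fun j hj => by rw [hx j (mem_range.1 hj)], he2, h.hr, sum_range_succ', x0,
      mul_zero, add_zero, Nat.cast_sum, sum_div]
    exact sum_congr rfl fun j _ => by push_cast; ring
  set δ : ℝ := p - q + ∑ j ∈ range S.k, ((dP P Q md (ρ j) : ℝ) - dN P Q md (ρ j)) *
    ((ρ j).h * cx g.bs j c) with hδ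
  have t0 : ((sx - 2 * s : ℕ) : ℝ) = sx - 2 * s := by rw [Nat.cast_sub s2.le]; simp
  have s3 : (2 : ℝ) * s < sx := by exact_mod_cast s2
  refine (h.row c (u := fun j => dP P Q md (ρ j)) (v := fun j => dN P Q md (ρ j))
    (fun _ => Nat.cast_nonneg _) (fun _ => Nat.cast_nonneg _) (fun j => ?_) (w := w / SC)
    (z := s / SC) (a := μ * SC / Z) (b := τ * (μ * SC / Z)) (δ := δ / SC) (fun _ => rfl) ?_
    (div_pos (Nat.cast_pos.2 s1) S0) ?_ (by positivity) (by positivity) ?_ ?_ (le_of_eq ?_)).mono ?_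
  · simp only [Nat.cast_eq_zero, dP, dN]
    omega
  · rcases h2 with rfl | ⟨_ | j, g1, rfl⟩
    · exact Or.inl (by simp)
    · exact Or.inl (by simp [x0])
    · have g2 : j < r := by have := h.hr; omega
      exact Or.inr ⟨j, g2, (hx j g2).symm⟩
  · rw [e1, ← mul_div_assoc]
    exact div_lt_div_of_pos_right s3 S0
  · rw [e1, e3]
    rcases le_total (Z / sx) (2 * e2 * Z / (27 * s * ((sx - 2 * s) * (sx - 2 * s)))) with c | c
    · have : Z ≤ μ * sx := by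
        rw [← hμ, Nat.sub_sub_self c]
        exact (Nat.lt_succ_iff.1 (Nat.lt_succ_of_lt ((Nat.div_lt_iff_lt_mul (by omega)).1
          (Nat.lt_succ_self _))))
      left
      rw [show μ * SC / Z * (sx / SC : ℝ) = (μ * sx : ℕ) / Z by push_cast; field_simp,
        one_le_div Z1]
      exact Nat.cast_le.2 this
    · have : 2 * e2 * Z ≤ μ * (27 * s * ((sx - 2 * s) * (sx - 2 * s))) := by
        rw [← hμ, Nat.sub_eq_zero_of_le c, Nat.sub_zero]
        exact ((Nat.div_lt_iff_lt_mul (by have := Nat.sub_pos_of_lt s2; positivity)).1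
          (Nat.lt_succ_self _)).le
      have : (2 : ℝ) * e2 * Z ≤ μ * (27 * s * ((sx - 2 * s) * (sx - 2 * s))) := by
        rw [← t0]
        exact_mod_cast this
      right
      rw [show μ * SC / Z * (27 * (s / SC) * (sx / SC - 2 * (s / SC)) ^ 2 : ℝ) =
        μ * (27 * s * ((sx - 2 * s) * (sx - 2 * s))) / Z / SC ^ 2 by field_simp, ← mul_div_assoc]
      exact div_le_div_of_nonneg_right ((le_div_iff₀ Z1).2 this) (by positivity)
  · have := le_cdv (2 * Z - μ * (sx + w)) (c := μ * (w + (sx - 2 * s)))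
      (Nat.mul_pos (by omega) (by omega))
    rw [hτ] at this
    have : 2 * Z ≤ μ * (sx + w) + τ * (μ * (w + (sx - 2 * s))) := by omega
    have : (2 : ℝ) * Z ≤ μ * (sx + w) + τ * (μ * (w + (sx - 2 * s))) := by
      rw [← t0]
      exact_mod_cast this
    rw [e1, show μ * SC / Z * (sx / SC + w / SC : ℝ) + τ * (μ * SC / Z) *
      (sx / SC + w / SC - 2 * (s / SC)) = (μ * (sx + w) + τ * (μ * (w + (sx - 2 * s)))) / Z by
        field_simp; ring]
    exact (le_div_iff₀ Z1).2 this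
  · obtain ⟨g1, g2, g3, -⟩ := hρ 0 h.hI.pos
    have e4 : ∑ j ∈ range r, ((dP P Q md (ρ (j + 1)) : ℝ) * fH g S c (j + 1) -
        dN P Q md (ρ (j + 1)) * fL g S c (j + 1)) = (∑ j ∈ range r,
        ((dP P Q md (ρ (j + 1)) : ℝ) * (ρ (j + 1)).up - dN P Q md (ρ (j + 1)) * (ρ (j + 1)).lo +
        ((dP P Q md (ρ (j + 1)) : ℝ) - dN P Q md (ρ (j + 1))) *
          ((ρ (j + 1)).h * cx g.bs (j + 1) c))) / SC := by
      rw [sum_div]
      refine sum_congr rfl fun j hj => ?_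
      have g4 : j + 1 < S.k := by have := h.hr; have := mem_range.1 hj; omega
      obtain ⟨g5, g6, g7, -⟩ := hρ _ g4
      rw [g5, g6, g7, hg.up _ (by omega) g4, fH, fL]
      push_cast
      ring
    rw [e4, hδ, hp, hq, NS.H, NS.L, ← hg.up0, ← g2, ← g3]
    push_cast
    simp only [h.hr, sum_range_succ', g1, hg.h0, mul_add, sum_add_distrib, sum_sub_distrib,
      ← sum_mul]
    push_cast
    ring
  have k : μ * δ / 2 ^ 20 ≤ (a : ℝ) - b + (∑ j ∈ range S.k, gaP P Q md μ (ρ j) * cx g.bs j c : ℕ) -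
      (∑ j ∈ range S.k, gaM P Q md μ (ρ j) * cx g.bs j c : ℕ) := by
    have g1 := (shr_le ((p - q) * μ)).2
    have g2 := (shr_le ((q - p) * μ)).1
    have g3 : ((p - q : ℕ) : ℝ) - (q - p : ℕ) = p - q := by
      rcases le_total p q with c | c <;> simp [Nat.sub_eq_zero_of_le c, Nat.cast_sub c]
    rw [ha, Nat.cast_mul] at g1
    rw [hb', Nat.cast_mul] at g2
    rw [hδ, mul_add, add_div, mul_sum, sum_div, add_sub_assoc, Nat.cast_sum, Nat.cast_sum,
      ← sum_sub_distrib]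
    refine add_le_add (by rw [← g3]; linear_combination g1 + g2) (sum_le_sum fun j _ => ?_)
    have g4 := shr_le (gaX P Q md (ρ j) * μ)
    have g5 : (0 : ℝ) ≤ cx g.bs j c := Nat.cast_nonneg _
    unfold gaP gaM
    split_ifs with c1
    · have := mul_le_mul_of_nonneg_right g4.1 g5
      rw [Nat.cast_mul _ μ, gaX] at this
      rw [Nat.cast_mul, Nat.cast_mul, gaX]
      simp only [c1, Nat.cast_mul, Nat.cast_add, Nat.cast_zero] at this ⊢
      linear_combination this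
    · have c2 : dN P Q md (ρ j) = 0 := by
        unfold dP dN at *
        omega
      have := mul_le_mul_of_nonneg_right g4.2 g5
      rw [Nat.cast_mul _ μ, gaX] at this
      rw [Nat.cast_mul, Nat.cast_mul, gaX]
      simp only [c2, Nat.cast_mul, Nat.cast_add, Nat.cast_zero] at this ⊢
      linear_combination this
  have b4 := b3 c
  generalize ∑ j ∈ range S.k, gaP P Q md μ (ρ j) * cx g.bs j c = X at *
  generalize ∑ j ∈ range S.k, gaM P Q md μ (ρ j) * cx g.bs j c = X' at *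
  have k1 : (a : ℝ) - b + X - X' ≤ (2147483648 + a - b + X - X' - 2 ^ 31 : ℕ) := by
    have : (a : ℤ) - b + X - X' ≤ (2147483648 + a - b + X - X' - 2 ^ 31 : ℕ) := by omega
    exact_mod_cast this
  have k2 : (a : ℝ) - b + X - X' - a0 ≤ (2147483648 + a - b + X - X' - a0 - 2 ^ 31 : ℕ) := by
    have : (a : ℤ) - b + X - X' - a0 ≤ (2147483648 + a - b + X - X' - a0 - 2 ^ 31 : ℕ) := by omega
    exact_mod_cast this
  have k3 := (shr_le (μ * s)).1
  rw [ha0, Nat.cast_mul] at k3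
  exact fin_le Z1 hZ (mul_nonneg h.hR (cw_nn c)) (k.trans k1) ((sub_le_sub k k3).trans k2)

end Pool.Agent.MP_c853c5_nt.X

end

section

/-!
Soundness of the grid rule with fractions of cells.
-/

set_option autoImplicit false

open Finset

namespace Pool.Agent.MP_c853c5_nt.X

open Pool.Agent.MP_c853c5_nt.S Pool.Agent.MP_c853c5_nt.REG Pool.Agent.MP_c853c5_nt.L Ln

variable {S : NS} {A : ℕ → Finset ℕ} {t : ℝ} {x : Ga} {w : ℕ → ℝ} {g : Gr}

lemma H.rows (hI : Inv S A) {sg : Bool} {Ω : Pt → Prop} {l l' : ℝ} {F : List (Pt → ℝ)}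
    (hF : ∀ f ∈ F, Lip S.k f) (h1 : H sg t S.k S.kind (fun a => Ω a ∧ ∀ f ∈ F, f a ≤ 0) l)
    (h2 : H sg t S.k S.kind (fun a => Ω a ∧ ∃ f ∈ F, -(1 / SC) ≤ f a) l') :
    H sg t S.k S.kind Ω (l + l') := by
  have s0 := one_div_pos.2 SC_pos
  have k : ∃ m : Pt → ℝ, Lip S.k m ∧ ∀ a, (∀ f ∈ F, f a ≤ m a) ∧
      (-(1 / SC) ≤ m a → ∃ f ∈ F, -(1 / SC) ≤ f a) := by
    clear h1 h2
    induction F with
    | nil => exact ⟨_, Lip.const _ (-(2 * (1 / SC))), fun a => ⟨by simp, fun c => by linarith⟩⟩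
    | cons f F ih =>
      rw [List.forall_mem_cons] at hF
      obtain ⟨m, ⟨D, d1, d2⟩, h⟩ := ih hF.2
      obtain ⟨C, c1, c2⟩ := hF.1
      refine ⟨fun a => max (f a) (m a), ⟨C + D, by positivity, fun a b δ e1 e2 =>
        (abs_max_sub_max_le_max _ _ _ _).trans (max_le ((c2 a b δ e1 e2).trans (by nlinarith))
          ((d2 a b δ e1 e2).trans (by nlinarith)))⟩, fun a => ⟨List.forall_mem_cons.2
        ⟨le_max_left _ _, fun q hq => le_max_of_le_right ((h a).1 q hq)⟩, fun c => ?_⟩⟩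
      simp only [List.mem_cons, exists_eq_or_imp]
      exact (le_max_iff.1 c).imp id (h a).2
  obtain ⟨m, m1, m2⟩ := k
  exact xGSplit m1 (neg_lt_zero.2 s0) hI.pos hI.kv
    (h1.anti fun a ha => ⟨ha.1, fun f hf => ((m2 a).1 f hf).trans ha.2⟩)
    (h2.anti fun a ha => ⟨ha.1, (m2 a).2 ha.2⟩)

noncomputable def nrO (g : Gr) (S : NS) (j : ℕ) : Nr :=
  ⟨44 * j, 44 * j, get g.h j, get g.up j, get S.lo j, pk (2 ^ g.B) (cx g.bs j)⟩

/-- the excess of a row -/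
noncomputable def fN (S : NS) (A : ℕ → Finset ℕ) (ρ : ℕ → Nr) (P Q md e p q : ℕ) (a : Pt) : ℝ :=
  ∑ j ∈ range S.k, ((dP P Q md (ρ j) : ℝ) - dN P Q md (ρ j)) * Y A a j -
    ((q : ℝ) - p - e * ∑ j ∈ range S.k, ((dP P Q md (ρ j) : ℝ) + dN P Q md (ρ j))) / SC

/-- lanes `v` with the bound `b` for the points near the failure of a row -/
def LA (g : Gr) (S : NS) (A : ℕ → Finset ℕ) (w : ℕ → ℝ) (F : List (Pt → ℝ)) (v b : ℕ) : Prop :=
  (∀ f ∈ F, Lip S.k f) ∧ (b < 2 ^ 31 → ∃ ν : ℕ → ℕ, v = pk (2 ^ g.B) ν ∧ ∀ c < 2 ^ g.B, ν c ≤ b ∧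
    MQ S (fun a => Reg S A (fL g S c) (fH g S c) a ∧ ∃ f ∈ F, -(1 / SC) ≤ f a) (ν c * w c))

structure GX (x : Ga) (S : NS) (A : ℕ → Finset ℕ) (w : ℕ → ℝ) : Prop where
  hI : Inv S A
  hg : x.g.OK S
  full : ∀ c, MQ S (Reg S A (fL x.g S c) (fH x.g S c)) ((65536 : ℕ) * w c)
  hR : x.R = (List.range S.k).map (nrO x.g S)
  row : ∀ ρ, Nok x.g S ρ → ∀ (P Q md e p q : ℕ) (K : ℕ → ℕ → ℕ), ∃ v b,
    gaN P Q md e (gaE x.g x.Z x.N K) ((List.range S.k).map ρ) 0 0 0 (p + 1) q (fun _ V => V) =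
      K v b ∧ LA x.g S A w [fN S A ρ P Q md e p q] v b

def AOK (t : ℝ) (p : AItem) : Prop := ∀ (x : Ga) (ih : Rec) (S : NS) (A : ℕ → Finset ℕ)
  (w : ℕ → ℝ) (s : ℕ) (K : ℕ → ℕ → ℕ), (∀ sg S s, Val t sg S (ih sg S s)) → GX x S A w →
  p x ih S s K < INF → ∃ (N : Pt → Prop) (ν : ℕ → ℕ) (u l : ℕ),
    p x ih S s K = l + K (pk (2 ^ x.g.B) ν) u ∧ (∀ (Ω : Pt → Prop) (l' : ℝ),
      (∀ a, Ω a → Om S A a) → H true t S.k S.kind (fun a => Ω a ∧ N a) l' →
      H true t S.k S.kind Ω ((l : ℝ) / 10 ^ 9 + l')) ∧ ∀ c < 2 ^ x.g.B, ν c < 2 ^ 31 ∧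
      MQ S (fun a => (Reg S A (fL x.g S c) (fH x.g S c) a ∧ idx x.g S (Y A a) = c) ∧ N a)
        (ν c * w c)

lemma LA.nil : LA g S A w [] 0 0 := ⟨by simp, fun _ => ⟨fun _ => 0, (pk_zero _).symm,
  fun c _ => ⟨le_rfl, (MQ.zero (by simp)).mono (by simp)⟩⟩⟩

lemma LA.cons {f : Pt → ℝ} {F : List (Pt → ℝ)} {v b u d e : ℕ} (h : LA g S A w [f] v b)
    (h' : LA g S A w F u d) (he : b + d ≤ e) : LA g S A w (f :: F) (v + u) e := by
  refine ⟨List.forall_mem_cons.2 ⟨h.1 f (by simp), h'.1⟩, fun c => ?_⟩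
  obtain ⟨ν, rfl, h1⟩ := h.2 (by omega)
  obtain ⟨ν', rfl, h2⟩ := h'.2 (by omega)
  refine ⟨_, pk_add _ _ _, fun c hc => ⟨(add_le_add (h1 c hc).1 (h2 c hc).1).trans he, ?_⟩⟩
  rw [Nat.cast_add, add_mul]
  refine ((h1 c hc).2.or (h2 c hc).2).anti fun a ha => ?_
  rw [List.exists_mem_cons_iff, and_or_left] at ha
  exact ha.imp_left fun q => ⟨q.1, f, List.mem_cons_self, q.2⟩

lemma LA.item {F : List (Pt → ℝ)} {v b : ℕ} (h : LA g S A w F v b) (hb : b < 2 ^ 31)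
    (hI : Inv S A) (hF : H true t S.k S.kind (fun a => Om S A a ∧ ∀ f ∈ F, f a ≤ 0) 0) :
    ∃ (N : Pt → Prop) (ν : ℕ → ℕ), v = pk (2 ^ g.B) ν ∧ (∀ (Ω : Pt → Prop) (l' : ℝ),
      (∀ a, Ω a → Om S A a) → H true t S.k S.kind (fun a => Ω a ∧ N a) l' →
      H true t S.k S.kind Ω (((0 : ℕ) : ℝ) / 10 ^ 9 + l')) ∧ ∀ c < 2 ^ g.B, ν c < 2 ^ 31 ∧
      MQ S (fun a => (Reg S A (fL g S c) (fH g S c) a ∧ idx g S (Y A a) = c) ∧ N a)
        (ν c * w c) := by
  obtain ⟨ν, e, h1⟩ := h.2 hb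
  refine ⟨_, ν, e, fun Ω l' g1 g2 => ?_, fun c hc =>
    ⟨(h1 c hc).1.trans_lt hb, (h1 c hc).2.anti fun a ha => ⟨ha.1.1, ha.2⟩⟩⟩
  rw [Nat.cast_zero, zero_div]
  exact H.rows hI h.1 (hF.anti fun a ha => ⟨g1 a ha.1, ha.2⟩) g2

lemma sub_cast (a b : ℕ) : ((a - b : ℕ) : ℝ) - (b - a : ℕ) = a - b ∧
    ((a - b : ℕ) : ℝ) + (b - a : ℕ) = |(a : ℝ) - b| := by
  rcases le_total a b with c | c
  · rw [Nat.sub_eq_zero_of_le c, Nat.cast_sub c, abs_of_nonpos (sub_nonpos.2 (Nat.cast_le.2 c))]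
    simp
  · rw [Nat.sub_eq_zero_of_le c, Nat.cast_sub c, abs_of_nonneg (sub_nonneg.2 (Nat.cast_le.2 c))]
    simp

/-! ### the items -/

lemma shr_big {a b c d n k l : ℕ} (h : (2 ^ n * c + a + (2 ^ n * d + b)) >>> (n + k) < 2 ^ l) :
    c + d < 2 ^ (k + l) := by
  rw [Nat.shiftRight_eq_div_pow, Nat.div_lt_iff_lt_mul (Nat.two_pow_pos _), pow_add] at h
  refine Nat.lt_of_mul_lt_mul_left (a := 2 ^ n) (lt_of_le_of_lt ?_ (h.trans_eq (by ring)))
  rw [mul_add]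
  exact add_le_add (Nat.le_add_right _ _) (Nat.le_add_right _ _)

lemma gaL_ok (h : GX x S A w) (L : List Rw) (hL : ∀ r ∈ L, r.In S.k) : ∀ K : ℕ → ℕ → ℕ,
    ∃ v b F, gaL x L K = K v b ∧ LA x.g S A w F v b ∧
      (b < 2 ^ 31 → ∀ a, (∀ f ∈ F, f a ≤ 0) → ∀ r ∈ L, r.ok (Y A a)) := by
  induction L with
  | nil => exact fun K => ⟨0, 0, [], rfl, LA.nil, by simp⟩
  | cons r L ih =>
    intro K
    rw [List.forall_mem_cons] at hL
    obtain ⟨v, b, e1, h1⟩ := h.row (nrO x.g S) (fun _ _ => ⟨rfl, rfl, rfl, rfl⟩) (pkV r.l1)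
      (pkV r.l2) 17592186044416 0 r.c1 r.c2 fun v b => gaL x L fun u c => K (v + u)
        (b + c + (pkV r.l1 + pkV r.l2) >>> 717)
    obtain ⟨u, d, F, e2, h2, h3⟩ := ih hL.2 fun u c => K (v + u)
      (b + c + (pkV r.l1 + pkV r.l2) >>> 717)
    rw [← h.hR] at e1
    refine ⟨_, _, _, e1.trans e2, h1.cons h2 (Nat.le_add_right _ _), fun c a ha => ?_⟩
    rw [List.forall_mem_cons] at ha ⊢
    refine ⟨?_, h3 (((Nat.le_add_left _ _).trans (Nat.le_add_right _ _)).trans_lt c) a ha.2⟩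
    have g1 := (Nat.le_add_left _ _).trans_lt c
    rw [pkV_eq, pkV_eq] at g1
    have g2 : ∑ j ∈ range 16, cntL j r.l1 + ∑ j ∈ range 16, cntL j r.l2 < 2 ^ 44 :=
      shr_big (n := 44 * 16) (k := 13) g1
    have g3 := ha.1
    rw [fN, sum_congr rfl fun j hj => by
      have j1 := (mem_range.1 hj).trans_le h.hI.le
      rw [show (dP (pkV r.l1) (pkV r.l2) 17592186044416 (nrO x.g S j) : ℝ) -
        dN (pkV r.l1) (pkV r.l2) 17592186044416 (nrO x.g S j) =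
        f44 (pkV r.l1) j - f44 (pkV r.l2) j from (sub_cast _ _).1, pkV_eq, pkV_eq,
        f44_PV (by omega) j1, f44_PV (by omega) j1, sub_mul], sum_sub_distrib] at g3
    rw [Rw.ok, sum_cnt _ hL.1.1, sum_cnt _ hL.1.2]
    rw [Nat.cast_zero, zero_mul, sub_zero, sub_div] at g3
    linarith

theorem ofA_ok {p : Prov} (hp : Prok t p) : AOK t (ofA p) := fun x _ S A w s K _ h hl => by
  obtain ⟨L, u, e, h1, h2⟩ := hp true S A s _ h.hI hl
  obtain ⟨v, b, F, e1, h3, h4⟩ := gaL_ok h L h1 fun v b => grd (Nat.blt b 2147483648) (K v u)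
  rw [ofA, e, e1] at hl ⊢
  obtain ⟨g1, g2⟩ := grd_lt hl
  rw [Nat.blt_eq] at g1
  obtain ⟨N, ν, rfl, h5⟩ := h3.item g1 h.hI (h2.anti fun a ha => ⟨ha.1, h4 g1 a ha.2⟩)
  exact ⟨N, ν, u, 0, by rw [g2, zero_add], h5⟩

theorem noA_ok (t : ℝ) : AOK t noA := fun _ _ _ _ _ _ _ _ _ h => absurd h (lt_irrefl _)

lemma rwAt_mem (l : List Rw) : ∀ i, rwAt l i ∈ l ∨ rwAt l i = ⟨0, [], 0, []⟩ := by
  induction l with
  | nil => exact fun _ => Or.inr rfl
  | cons r l ih =>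
    intro i
    cases i with
    | zero => exact Or.inl List.mem_cons_self
    | succ i => exact (ih i).imp (List.mem_cons_of_mem _) id

theorem killP_ok (t : ℝ) : Prok t killP := fun sg S A s K hI _ => by
  have := rwAt_mem S.rs (Nat.mod s 32)
  simp only [killP, force_eq]
  generalize rwAt S.rs (Nat.mod s 32) = r at this
  refine ⟨_, _, rfl, List.forall_mem_singleton.2 ?_, (xEmpty sg t _ _).anti fun a ha => ?_⟩
  · exact this.elim (fun c => (hI.rows r c).symm) fun c => by simp [c]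
  have h1 : r.ok (Y A a) := this.elim (ha.1.2 r) fun c => by simp [c, Rw.ok]
  have h2 := ha.2 _ List.mem_cons_self
  simp only [Rw.ok, Nat.cast_succ, add_div] at h1 h2
  linarith [one_div_pos.2 SC_pos]

theorem ofI_ok {p : Item} (hp : Itok t p) : AOK t (ofI p) := fun x ih S A w s K hH h hl => by
  obtain ⟨m, u, l, e, h1⟩ := hp x.g ih true S A s _ hH h.hI h.hg hl
  refine ⟨fun a => ¬ onM m (idx x.g S (Y A a)),
    fun c => if m.testBit (32 * c + 31) = true then 0 else 65536, u, l, e.trans ?_,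
    fun Ω l' g1 g2 => H.cases (idx_tame h.hI h.hg (onM m)) (idx_tame h.hI h.hg fun c => ¬ onM m c)
      (h1.anti fun a ha => ⟨g1 a ha.1, _, (idx_ok h.hg (g1 a ha.1).1).1, ha.2,
        (idx_ok h.hg (g1 a ha.1).1).2⟩) g2, fun c _ => ⟨by beta_reduce; split_ifs <;> norm_num, ?_⟩⟩
  · refine congrArg (fun z => l + K z u) ?_
    show (x.g.T ^^^ (m &&& x.g.T)) >>> 15 = _
    rw [land_T h.hg, h.hg.hT, Nat.shiftRight_eq_div_pow]
    refine Nat.div_eq_of_eq_mul_right (Nat.two_pow_pos _) ?_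
    rw [pk_smul]
    refine (pw_xor (w := 32) (by norm_num) (fun _ _ => by norm_num)
      fun _ _ => by split_ifs <;> norm_num).trans (pk_congr fun c _ => ?_)
    split_ifs <;> simp
  · beta_reduce
    split_ifs with q
    · exact (MQ.zero fun a ha => ha.2 (ha.1.2 ▸ q)).mono (by simp)
    · exact (h.full c).anti fun a ha => ha.1.1

/-! ### tables -/

noncomputable def cvR' (par G : ℕ) (r : Nr) : Nr :=
  ⟨12 * d4 G (r.a / 44), 12 * d4 G (get par (r.a / 44)), r.h, r.up, r.lo, r.U⟩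

lemma gaN_skip {y md e : ℕ} {K : KN} {r : Nr} (l : List Nr) (h : r.a = r.b) :
    gaN y y md e K (r :: l) = gaN y y md e K l := by
  funext sx W e2 p q F
  simp [gaN_cons, dP, dN, h]

lemma gqR_map (par G : ℕ) (l : List Nr) : ∃ L, (∀ K, gqR par G l K = K L) ∧
    ∀ y md e K, gaN y y md e K L = gaN y y md e K (l.map (cvR' par G)) := by
  induction l with
  | nil => exact ⟨[], fun _ => rfl, fun _ _ _ _ => rfl⟩
  | cons r l ih =>
    obtain ⟨L, h1, h2⟩ := ih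
    have e : ∀ K, gqR par G (r :: l) K = if (cvR' par G r).a = (cvR' par G r).b then
        gqR par G l K else gqR par G l fun L => K (cvR' par G r :: L) := fun K => by
      simp only [gqR, force_eq, cnd_eq, Nat.beq_eq]
      rfl
    simp only [e, h1, List.map_cons]
    split_ifs with c
    · exact ⟨L, fun _ => rfl, fun y md e K => by rw [gaN_skip _ c, h2]⟩
    · refine ⟨_, fun _ => rfl, fun y md e K => ?_⟩
      funext sx W e2 p q F
      simp only [gaN_cons, h2]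

/-- the records of a table -/
noncomputable def nrT (g : Gr) (S : NS) (G j : ℕ) : Nr :=
  ⟨12 * d4 G j, 12 * d4 G (if j = 0 then 0 else get S.par j), get g.h j, get g.up j, get S.lo j,
    pk (2 ^ g.B) (cx g.bs j)⟩

lemma fN_pr (hI : Inv S A) (G : ℕ) (y : ℕ × ℕ) {a : Pt} (h : fN S A (nrT g S G) y.1 y.1 4096 16
    (Nat.mul (dg y.1 (Nat.mul 12 (d4 G 0))) 1000000) y.2 a ≤ 0) : Pr S.k G y a := fun b hb hs => by
  have g1 := wsum_near hI hI.le (wt y.1 G) (a := a) fun i hi => (hb i hi).2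
  have e : ∀ j, ((dP y.1 y.1 4096 (nrT g S G j) : ℝ) - dN y.1 y.1 4096 (nrT g S G j) =
      wt y.1 G j - wt y.1 G (if j = 0 then 0 else get S.par j)) ∧
      (dP y.1 y.1 4096 (nrT g S G j) : ℝ) + dN y.1 y.1 4096 (nrT g S G j) =
      |wt y.1 G j - wt y.1 G (if j = 0 then 0 else get S.par j)| := fun j => sub_cast _ _
  simp only [fN, e] at h
  rw [range_eq_Ico, sum_eq_sum_Ico_succ_bot hI.pos, sum_eq_sum_Ico_succ_bot hI.pos, if_pos rfl,
    sub_self, abs_zero, zero_mul, zero_add, zero_add, zero_add, sub_div, sub_div, w0_cast,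
    sum_congr rfl fun j hj => by rw [if_neg (by have := (mem_Ico.1 hj).1; omega)],
    sum_congr (f := fun j => |_ - wt y.1 G (if j = 0 then 0 else get S.par j)|) rfl fun j hj => by
      rw [if_neg (by have := (mem_Ico.1 hj).1; omega)]] at h
  rw [Y, hI.top, hs, sum_add_distrib, ← sum_mul] at g1
  push_cast at h
  linear_combination g1 + h

lemma gqL_ok (h : GX x S A w) {v R G n : ℕ} (hv : 0 < v) {L : List Nr}
    (hL : ∀ y md e K, gaN y y md e K L = gaN y y md e K ((List.range S.k).map (nrT x.g S G)))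
    (K : ℕ → ℕ → ℕ → ℕ) (c : ℕ) : ∀ (D B u d : ℕ) (F : List (Pt → ℝ)), LA x.g S A w F u d →
    (∀ a, Om S A a → (∀ f ∈ F, f a ≤ 0) → ∀ r < n, B.testBit (v * r) = true →
      Pr S.k G (rowQ v R r) a) → gqL x v R (Nat.mul 12 (d4 G 0)) L K c D B u d < INF →
    ∃ B' u' d' F', gqL x v R (Nat.mul 12 (d4 G 0)) L K c D B u d = K B' u' d' ∧
      LA x.g S A w F' u' d' ∧ ∀ a, Om S A a → (∀ f ∈ F', f a ≤ 0) → ∀ r < n,
        B'.testBit (v * r) = true → Pr S.k G (rowQ v R r) a := by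
  induction c with
  | zero => exact fun _ _ _ _ _ _ _ hl => absurd hl (lt_irrefl _)
  | succ c ih =>
    intro D B u d F h1 h2 hl
    obtain ⟨v', b, e1, h3⟩ := h.row (nrT x.g S G) (fun _ _ => ⟨rfl, rfl, rfl, rfl⟩)
      (rowQ v R (lowB D)).1 (rowQ v R (lowB D)).1 4096 16
      (Nat.mul (dg (rowQ v R (lowB D)).1 (Nat.mul 12 (d4 G 0))) 1000000) (rowQ v R (lowB D)).2
      fun v' e => gqL x v R (Nat.mul 12 (d4 G 0)) L K c (Nat.land D (Nat.pred D))
        (B ||| one (v * lowB D)) (v' + u) (e + d)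
    rw [← hL] at e1
    have e : gqL x v R (Nat.mul 12 (d4 G 0)) L K (c + 1) D B u d = if D = 0 then K B u d else
        gqL x v R (Nat.mul 12 (d4 G 0)) L K c (Nat.land D (Nat.pred D))
          (B ||| one (v * lowB D)) (v' + u) (b + d) := by
      rw [← e1]
      simp only [gqL, force_eq, cnd_eq, Nat.beq_eq]
      rfl
    rw [e] at hl ⊢
    split_ifs at hl ⊢
    · exact ⟨B, u, d, F, rfl, h1, h2⟩
    refine ih _ _ _ _ _ (h3.cons h1 le_rfl) (fun a ha g1 r hr g2 => ?_) hl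
    rw [List.forall_mem_cons] at g1
    rw [Nat.testBit_or, Bool.or_eq_true, ← bit_eq (one _), bit_one] at g2
    exact g2.elim (h2 a ha g1.2 r hr) fun g3 =>
      Nat.eq_of_mul_eq_mul_left hv g3 ▸ fN_pr h.hI G _ g1.1

theorem gqI_ok {gd : NS → ℕ → ℕ → Bool} {T : BT PQ} (hT : T.All (PQ.Gd t gd)) :
    AOK t (gqI gd T) := fun x _ S A w s K _ h hl => by
  obtain ⟨v, R, n, G, s', hv, e, h1⟩ := hdQ_ok hT h.hI true hl
  obtain ⟨L, e1, e2⟩ := gqR_map S.par G x.R.tail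
  rw [gqI, e, force_eq, e1] at hl ⊢
  obtain ⟨B, u, d, F, e3, h2, h3⟩ := gqL_ok h (n := n) (by omega) (fun y md e K => by
    obtain ⟨r, hr⟩ : ∃ r, S.k = r + 1 := ⟨S.k - 1, by have := h.hI.pos; omega⟩
    rw [e2, h.hR, hr, List.range_succ_eq_map, List.map_cons, List.map_cons, List.tail_cons,
      gaN_skip _ rfl, List.map_map, List.map_map, List.map_map]
    refine congrArg _ (List.map_congr_left fun j _ => ?_)
    simp [cvR', nrO, nrT]) _ _ _ _ _ _ [] LA.nil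
    (fun a ha _ r hr c => fqB_ok h.hI hv hr c ha) hl
  rw [e3] at hl ⊢
  obtain ⟨g1, g2⟩ := grd_lt hl
  rw [band_eq, Bool.and_eq_true, Nat.beq_eq, Nat.blt_eq] at g1
  obtain ⟨N, ν, rfl, h5⟩ := h2.item g1.2 h.hI (h1.anti fun a ha r hr =>
    h3 a ha.1 ha.2 r hr (g1.1 ▸ ones_bit hv hr))
  exact ⟨N, ν, s', 0, by rw [g2, zero_add], h5⟩

/-! ### the rule -/

lemma gaLoop_ok {IT : BT AItem} (hT : IT.All (AOK t)) {ih : Rec}
    (hH : ∀ sg S s, Val t sg S (ih sg S s)) (h : GX x S A w) {fin : ℕ → ℕ}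
    (hf : ∀ ν : ℕ → ℕ, (∀ c < 2 ^ x.g.B, ν c ≤ 65536) → fin (pk (2 ^ x.g.B) ν) < INF →
      ∑ c ∈ range (2 ^ x.g.B), ν c * w c ≤ (fin (pk (2 ^ x.g.B) ν) : ℝ) / 10 ^ 9) (n : ℕ) :
    ∀ (ν : ℕ → ℕ) (N : Pt → Prop) (s : ℕ), (∀ c < 2 ^ x.g.B, ν c ≤ 65536 ∧ MQ S
      (fun a => (Reg S A (fL x.g S c) (fH x.g S c) a ∧ idx x.g S (Y A a) = c) ∧ N a) (ν c * w c)) →
      gaLoop IT x ih S fin n (pk (2 ^ x.g.B) ν) s < INF →
      H true t S.k S.kind (fun a => Om S A a ∧ N a)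
        ((gaLoop IT x ih S fin n (pk (2 ^ x.g.B) ν) s : ℝ) / 10 ^ 9) := by
  induction n with
  | zero =>
    exact fun ν N s h1 hl => drop0 (((MQ.sum _ fun c hc => (h1 c hc).2).anti fun a ha =>
      ⟨_, (idx_ok h.hg ha.1.1.1).1, ⟨⟨⟨ha.1.1, ha.2⟩, (idx_ok h.hg ha.1.1.1).2⟩, rfl⟩, ha.1.2⟩).mono
      (hf ν (fun c hc => (h1 c hc).1) hl))
  | succ n IH =>
    intro ν N s h1 hl
    have e : gaLoop IT x ih S fin (n + 1) (pk (2 ^ x.g.B) ν) s = IT.find (Nat.mod s 16) x ih S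
        (Nat.shiftRight s 4) fun a u =>
          gaLoop IT x ih S fin n (mnL x.g.T (pk (2 ^ x.g.B) ν) a) u := by
      simp only [gaLoop, force_eq]
    rw [e] at hl ⊢
    obtain ⟨N', ν', u, l, e1, h2, h3⟩ := hT.find _ x ih S A w _ _ hH h hl
    rw [e1, mnL_eq h.hg (fun c hc => (h1 c hc).1.trans_lt (by norm_num))
      fun c hc => (h3 c hc).1] at hl ⊢
    rw [Nat.cast_add, add_div]
    refine h2 _ _ (fun _ ha => ha.1) ((IH _ (fun a => N a ∧ N' a) u (fun c hc =>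
      ⟨(min_le_left _ _).trans (h1 c hc).1, ?_⟩) (lt_of_le_of_lt le_add_self hl)).anti
      fun a ha => ⟨ha.1.1, ha.1.2, ha.2⟩)
    rcases min_choice (ν c) (ν' c) with q | q <;> rw [q]
    exacts [(h1 c hc).2.anti fun a ha => ⟨ha.1, ha.2.1⟩, (h3 c hc).2.anti fun a ha => ⟨ha.1, ha.2.2⟩]

lemma gaU_ok (hg : g.OK S) (W C n : ℕ) : ∀ (j Z N : ℕ) (K : ℕ → ℕ → List Nr → ℕ), 1 ≤ j →
    j + n ≤ S.k → ∃ Z' N', gaU g S W C n j (off g.bs j) Z N K =
      K Z' N' ((List.range' j n).map (nrO g S)) ∧ Z * ∏ i ∈ range n, fj g S W C (j + i) ≤ Z' ∧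
      Z ≤ Z' ∧ N ≤ N' ∧ ∀ i < n, 2 ^ b3 g.bs (j + i) ≤ N' := by
  induction n with
  | zero => exact fun j Z N K _ _ => ⟨Z, N, rfl, by simp, le_rfl, le_rfl, by simp⟩
  | succ n ih =>
    intro j Z N K h1 h2
    obtain ⟨Z', N', e, g1, g2, g3, g4⟩ := ih (j + 1) (Z + cd (Z * gdf g S W C j)
      (min (gp S W C j) (gq g S W C j) * 2 ^ (b3 g.bs j + 1) + gdf g S W C j)) (N + 2 ^ b3 g.bs j)
      (fun Z2 N2 R => K Z2 N2 (nrO g S j :: R)) (by omega) (by omega)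
    refine ⟨Z', N', Eq.trans ?_ e, le_trans ?_ g1, (Nat.le_add_right _ _).trans g2,
      (Nat.le_add_right _ _).trans g3, fun i hi => ?_⟩
    · have e1 : gU g.B (off g.bs j) (b3 g.bs j) = pk (2 ^ g.B) (cx g.bs j) := gU_eq hg.b16 (by
        rw [← X.off_succ, hg.hB]
        exact off_mono _ (by omega))
      have e2 : ∀ a b, mn0 a b = min a b := fun a b => by
        show a - (a - b) = _
        omega
      rw [nrO, ← e1, hg.up j h1 (by omega), X.off_succ, ← Nat.shiftLeft_eq, ← e2, ← one_eq]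
      simp only [gaU, force_eq]
      rfl
    · rw [prod_range_succ', add_zero, mul_comm _ (fj g S W C j), ← mul_assoc]
      simp only [add_assoc, add_comm 1]
      refine mul_le_mul_of_nonneg_right ?_ (prod_nonneg fun _ _ => by unfold fj; positivity)
      rw [fj, mul_add, mul_one, Nat.cast_add Z, ← mul_div_assoc, ← Nat.cast_mul]
      exact add_le_add_right (le_cd _ _) _
    · cases i with
      | zero => exact (Nat.le_add_left _ _).trans g3
      | succ i => exact (by rw [add_assoc, add_comm 1] : j + 1 + i = j + (i + 1)) ▸ g4 i (by omega)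

lemma gaF_ok (hg : g.OK S) {r W C p τ : ℕ} (hr : S.k = r + 1) (hτ : τ < 16) {ν : ℕ → ℕ}
    (hν : ∀ c < 2 ^ g.B, ν c ≤ 65536) (hl : gaF g S W C r p τ (pk (2 ^ g.B) ν) < INF) :
    ∑ c ∈ range (2 ^ g.B), ν c * (p / VV ^ S.k * cw g S W C r c / 2 ^ 16) ≤
      (gaF g S W C r p τ (pk (2 ^ g.B) ν) : ℝ) / 10 ^ 9 := by
  obtain ⟨m, hm⟩ : ∃ m, m = 65536 >>> τ := ⟨_, rfl⟩
  have m1 : m * 2 ^ τ = 65536 ∧ 2 ^ τ ≤ 32768 := by
    rw [hm]
    interval_cases τ <;> simp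
  have t0 := Nat.two_pow_pos τ
  have m2 : ∀ c < 2 ^ g.B, (ν c + (2 ^ τ - 1)) / 2 ^ τ ≤ m := fun c hc =>
    Nat.le_of_lt_succ ((Nat.div_lt_iff_lt_mul t0).2 (by
      have := hν c hc
      rw [Nat.succ_mul]
      omega))
  have m0 : 0 < m ∧ m ≤ 65536 := ⟨Nat.pos_of_ne_zero fun e => by simp [e] at m1,
    m1.1 ▸ Nat.le_mul_of_pos_right _ t0⟩
  have e0 : (pk (2 ^ g.B) ν + (2 ^ τ - 1) * g.O) >>> τ &&& 131071 * g.O =
      pv 32 (2 ^ g.B) fun c => min ((ν c + (2 ^ τ - 1)) / 2 ^ τ) m := by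
    rw [hg.hO, pk_smul, pk_smul, pk_add]
    refine (pw_cut (w := 32) (b := 17) (by norm_num) (by norm_num) _ _).trans
      (pw_congr fun c hc => ?_)
    rw [← Nat.shiftRight_add, add_comm τ]
    refine (pw_get (w := 32) (fun c hc => by have := hν c hc; omega) hc (by omega)).trans ?_
    rw [Nat.shiftRight_eq_div_pow, mul_one, min_eq_left (m2 c hc),
      Nat.mod_eq_of_lt ((m2 c hc).trans_lt (by omega))]
  have e : gaF g S W C r p τ (pk (2 ^ g.B) ν) = gL g S W C (2 ^ (32 * 2 ^ g.B) - 1)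
      (2000000000000000000000000 ^ r * m) r 1 32
      (pv 32 (2 ^ g.B) fun c => min ((ν c + (2 ^ τ - 1)) / 2 ^ τ) m) m p := by
    rw [gaF, force_eq, force_eq, ← e0, hm, ← Nat.shiftLeft_eq, one_eq, one_eq]
    rfl
  have o1 : off g.bs 1 = 0 := hg.b0
  rw [e] at hl ⊢
  rw [gL_eq r 1 32 m _ g.B _ (by rw [o1, zero_add, hg.hB, hr, add_comm]) (by norm_num)
    (fun c => min_le_right _ _) rfl hl, le_div_iff₀ (by norm_num)]
  refine le_trans ?_ (le_cd _ _)
  have v0 := VV_pos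
  have s0 := SC_pos
  have m3 : (0 : ℝ) < m := Nat.cast_pos.2 m0.1
  rw [Nat.cast_mul, Nat.cast_sum, mul_sum, sum_div, sum_mul]
  refine sum_le_sum fun c hc => ?_
  have e2 := prW_eq (g := g) (S := S) (W := W) (C := C) c r 1
  rw [o1, pow_zero, Nat.div_one] at e2
  have e3 : (ν c : ℝ) * m ≤ ((ν c + (2 ^ τ - 1)) / 2 ^ τ : ℕ) * 65536 := by
    have := Nat.div_add_mod (ν c + (2 ^ τ - 1)) (2 ^ τ)
    have := Nat.mod_lt (ν c + (2 ^ τ - 1)) t0
    have := Nat.mul_le_mul_right m (show ν c ≤ 2 ^ τ * ((ν c + (2 ^ τ - 1)) / 2 ^ τ) by omega)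
    rw [mul_right_comm, mul_comm (2 ^ τ) m, m1.1, mul_comm 65536] at this
    exact_mod_cast this
  rw [min_eq_left (m2 c (mem_range.1 hc)), e2, cw, prod_div_distrib, prod_const, card_range,
    Nat.cast_mul, Nat.cast_mul, Nat.cast_prod, Nat.cast_pow,
    show ((2000000000000000000000000 : ℕ) : ℝ) = VV * (2 * VV * SC) by
      rw [VV_eq, SC_eq_Mass]; norm_num, mul_pow (VV : ℝ),
    show (VV : ℝ) ^ S.k = VV ^ r * 10 ^ 9 by rw [hr, pow_succ, VV_eq]; norm_num]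
  simp only [add_comm 1]
  generalize ((ν c + (2 ^ τ - 1)) / 2 ^ τ : ℕ) = y at e3
  refine (le_of_eq ?_).trans ((mul_le_mul_of_nonneg_right e3 (show 0 ≤ p * (∏ j ∈ range r,
    (gw1 g S W C (j + 1) (cx g.bs (j + 1) c) : ℝ)) / (VV ^ r * (2 * VV * SC) ^ r * m * 65536) by
      positivity)).trans_eq ?_) <;> field_simp
  norm_num

theorem gaR_ok {IT : BT AItem} (hT : IT.All (AOK t)) : XTok t (gaR IT) :=
  fun _ ih _ hH sg S s hl A hI => by
  obtain ⟨r, hr⟩ : ∃ r, S.k = r + 1 := ⟨S.k - 1, by have := hI.pos; omega⟩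
  by_cases hz : ∀ j < S.k, get S.lo j ≤ get S.hi j
  swap
  · simp only [not_forall, not_le] at hz
    obtain ⟨j, hj, hz⟩ := hz
    exact fun Q h1 h2 => (xEmpty sg t _ _ Q h1 fun a ha => ⟨absurd (((h2 a ha).1.1 j hj).1.trans
      ((h2 a ha).1.1 j hj).2) (div_lt_div_of_pos_right (Nat.cast_lt.2 hz) SC_pos).not_ge,
      (h2 a ha).2⟩).mono (by positivity)
  simp only [gaR, force_eq, show Nat.pred S.k = r by rw [hr]; rfl] at hl ⊢
  obtain ⟨rfl, e1⟩ := grd_lt hl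
  rw [e1] at hl ⊢
  obtain ⟨g, hg, e2⟩ := mk_ok S _ _ hI.pos hl
  rw [e2, accB_eq] at hl ⊢
  have hb := gb_mk hI hg hr hz rfl
  generalize mkW S (chV S r) S.k = W at *
  generalize ∑ i ∈ range S.k, 1 * 256 ^ (blk S W i % 32) = C at *
  have o1 : off g.bs 1 = 0 := hg.b0
  obtain ⟨Z, N, e3, g1, g2, g3, g4⟩ := gaU_ok hg W C r 1 68719476736 1 _ le_rfl (by omega)
  rw [o1] at e3
  rw [e3] at hl ⊢
  have e4 : Nat.shiftRight g.T 15 = pk (2 ^ g.B) fun _ => 65536 := by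
    rw [Nat.shiftRight_eq, Nat.shiftRight_eq_div_pow, hg.hT]
    refine Nat.div_eq_of_eq_mul_right (Nat.two_pow_pos _) ?_
    rw [pk_smul]
    rfl
  rw [e4] at hl ⊢
  rw [prod_div_distrib, prod_const, card_range, ← Nat.cast_prod] at hb
  have hf : ∀ c, MQ S (Reg S A (fL g S c) (fH g S c)) ((65536 : ℕ) *
      ((∏ i ∈ range S.k, blk S W i >>> 5 : ℕ) / VV ^ S.k * cw g S W C r c / 2 ^ 16)) := fun c =>
    (hb.full c).mono (le_of_eq (by push_cast; ring))
  refine (gaLoop_ok (x := ⟨g, Z, N, _⟩) hT hH ⟨hI, hg, hf, ?_, fun ρ hρ P Q md e p q K => ?_⟩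
    (fun ν h1 h2 => gaF_ok hg hr (Nat.mod_lt _ (by norm_num)) h1 h2) _ _ (fun _ => True) _
    (fun c _ => ⟨le_rfl, (hf c).anti fun a ha => ha.1.1⟩) hl).anti fun a ha => ⟨ha, trivial⟩
  · show _ = (List.range S.k).map (nrO g S)
    rw [hr, List.range_eq_range', List.range'_succ, List.map_cons, nrO, hg.h0, hg.up0,
      pk_congr (g := fun _ => 0) fun c _ => by rw [cx, hg.b0, pow_zero, Nat.mod_one], pk_zero]
  · obtain ⟨v, b, e5, h1⟩ := rowA hb (Z := Z) (by omega) (by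
      simp only [add_comm 1] at g1
      exact le_trans (le_of_eq (by norm_num)) g1) g3 (fun j hj c => (cx_lt _ _ _).le.trans (by
        cases j with
        | zero => rwa [hg.b0]
        | succ j => exact add_comm 1 j ▸ g4 j (by omega))) hρ P Q md e (p + 1) q K
    refine ⟨v, b, e5, List.forall_mem_singleton.2 ((Lip.sum _ fun j hj =>
      (lip_Y hI (mem_range.1 hj)).mul _).sub (Lip.const _ _)), fun hb => ?_⟩
    obtain ⟨ν, e6, h2⟩ := h1 hb
    refine ⟨ν, e6, fun c hc => ⟨(h2 c hc).1, (h2 c hc).2.anti fun a ha => ⟨ha.1, ?_⟩⟩⟩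
    obtain ⟨f, f1, f2⟩ := ha.2
    rw [List.mem_singleton.1 f1, fN] at f2
    push_cast
    linear_combination f2

end Pool.Agent.MP_c853c5_nt.X

end
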