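import Pool.Agent.MP_c853c5_nt.DS.Basic
import Pool.Agent.MP_88bd62_nt.U.KL
import Pool.Agent.MP_c853c5_nt.DU.Defs
import Pool.Agent.MP_c853c5_nt.DV.Defs

section

set_option autoImplicit false

open Finset Filter Real
open scoped ComplexConjugate

namespace Pool.Agent.MP_c853c5_nt.DS

open Pool.Agent.MP_88bd62_nt.U (ex)

lemma win_BoxV {γ : ℝ} (hγ : 0 < γ) : ∀ᶠ x : ℝ in atTop, ∀ τ : ℝ,
    0 ≤ τ → τ ≤ 1 / 2 → ∃ T : ℕ, 1 ≤ T ∧ (T : ℝ) ≤ x ^ (τ + γ) ∧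
      x ^ τ * Real.log x ≤ T ∧ x ^ τ * Real.log x ≤ x := by
  filter_upwards [E.ev_log_le 2 1 hγ, E.ev_log_le 1 1 one_half_pos, E.ev_le_log 1,
    eventually_ge_atTop 1] with x h1 h2 h3 h4 τ a1 a2
  rw [pow_one] at h1 h2
  have x0 : 0 < x := by linarith
  have b2 : 1 ≤ x ^ τ := Real.one_le_rpow h4 a1
  have b3 : 1 ≤ x ^ τ * Real.log x := one_le_mul_of_one_le_of_one_le b2 h3
  refine ⟨⌈x ^ τ * Real.log x⌉₊, Nat.ceil_pos.2 (by linarith), ?_, Nat.le_ceil _, ?_⟩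
  · have := Nat.ceil_lt_add_one (zero_le_one.trans b3)
    rw [Real.rpow_add x0]
    nlinarith
  · calc _ ≤ x ^ (1 / 2 : ℝ) * x ^ (1 / 2 : ℝ) :=
          mul_le_mul (Real.rpow_le_rpow_of_exponent_le h4 a2) (by linarith) (by linarith)
            (by positivity)
      _ = x := by rw [← Real.rpow_add x0, add_halves, Real.rpow_one]

theorem boxV_stmt (hG : GridVStmt) (hI : E.GrdStmt) : BoxVStmt := by
  intro ι _ K A η c₀ ia ic h1 hη hc
  obtain ⟨γ, hγ, hG⟩ := hG ι K A η c₀ ia ic h1 hη hc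
  refine ⟨γ, hγ, ?_⟩
  filter_upwards [hG, win_BoxV hγ, eventually_gt_atTop 0] with
    x hG hW x0 τ T₁ b N c a1 a2 a3 a4 a5 a6 a7 a8 a9 a10
  obtain ⟨T, t1, t2, t3, t4⟩ := hW τ a1 a2
  exact hI (fun t => ∏ j, ‖E.BP (N j) (c j) t‖ ^ 2) _ _ _ T
    (continuous_finsetProd _ fun j _ => (E.continuous_BP _ _).norm.pow 2)
    (fun t => prod_nonneg fun _ _ => sq_nonneg _) a3
    (by linarith [Real.rpow_nonneg x0.le (1 / 2000 : ℝ)]) fun u S hS hm =>
      hG τ u b T N c S a1 a2 a5 a6 t1 t2 a7 a8 a9 hS fun m h =>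
        a10 _ (hm m h).1 ((hm m h).2.trans (a4.trans t4))

end Pool.Agent.MP_c853c5_nt.DS

end

section

/-!
One row of the mixed form.
-/

set_option autoImplicit false

open Finset Filter Real
open scoped ComplexConjugate

namespace Pool.Agent.MP_c853c5_nt.DS

open Pool.Agent.MP_88bd62_nt.U (ex)

lemma row_CRow {ι : Type} (E : Finset ι) (S : ℕ) (ρ V : ℝ) (f : ι → ℕ → ℂ) (θ : ι → ℝ)
    (y : ℕ → ℝ) (Z : ι → ι → ℝ) (hy : ∀ s, (y s : ℂ) = ∑ e ∈ E, f e s * ex (θ e / (s + ρ)))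
    (hf : ∀ e ∈ E, nv S (f e) ≤ V)
    (hZ : ∀ e ∈ E, ∀ e' ∈ E, ∀ i, ‖∑ s ∈ Ico i S, ex ((θ e - θ e') / (s + ρ))‖ ≤ Z e e') :
    ∑ s ∈ range S, y s ^ 2 ≤ ∑ e ∈ E, ∑ e' ∈ E, V * V * Z e e' := by
  have h1 : ((∑ s ∈ range S, y s ^ 2 : ℝ) : ℂ) = ∑ e ∈ E, ∑ e' ∈ E, ∑ s ∈ range S,
      f e s * conj (f e' s) * ex ((θ e - θ e') / (s + ρ)) := by
    have h2 : ∀ s, ((y s ^ 2 : ℝ) : ℂ) = ∑ e ∈ E, ∑ e' ∈ E,
        f e s * conj (f e' s) * ex ((θ e - θ e') / (s + ρ)) := by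
      intro s
      have h3 : ((y s ^ 2 : ℝ) : ℂ) = (y s : ℂ) * conj (y s : ℂ) := by
        rw [Complex.conj_ofReal, Complex.ofReal_pow, sq]
      rw [h3, hy, map_sum, sum_mul_sum]
      refine sum_congr rfl fun e _ => sum_congr rfl fun e' _ => ?_
      rw [map_mul, conj_ex, sub_div, sub_eq_add_neg, ex_add]
      ring
    rw [Complex.ofReal_sum, sum_congr rfl fun s _ => h2 s, sum_comm]
    exact sum_congr rfl fun e _ => sum_comm
  have h2 : ∑ s ∈ range S, y s ^ 2 ≤ ‖((∑ s ∈ range S, y s ^ 2 : ℝ) : ℂ)‖ := by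
    rw [Complex.norm_real, Real.norm_eq_abs]
    exact le_abs_self _
  rw [h1] at h2
  refine h2.trans ((norm_sum_le _ _).trans (sum_le_sum fun e he =>
    (norm_sum_le _ _).trans (sum_le_sum fun e' he' => ?_)))
  refine (nv_abel (fun s => f e s * conj (f e' s)) _ (hZ e he e' he')).trans ?_
  exact mul_le_mul_of_nonneg_right (nv_mul_le (hf e he) ((nv_conj S _).trans_le (hf e' he')))
    ((norm_nonneg _).trans (hZ e he e' he' 0))

lemma sep_CRow {K B : ℕ} {D : Finset ℕ} (hD : PrK K D) (hB : B < K) {e e' : ℕ × ℤ}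
    (he : e ∈ D ×ˢ hs B) (he' : e' ∈ D ×ˢ hs B) (hne : e ≠ e') {X : ℝ} (hX : 0 < X) :
    X / (4 * K ^ 2) ≤ |e.2 * X / e.1 - e'.2 * X / e'.1| := by
  obtain ⟨k, h⟩ := e
  obtain ⟨k', h'⟩ := e'
  obtain ⟨h1, h2⟩ := mem_product.1 he
  obtain ⟨h1', h2'⟩ := mem_product.1 he'
  obtain ⟨p1, p2, p3⟩ := hD k h1
  obtain ⟨p1', p2', p3'⟩ := hD k' h1'
  have hk : (0 : ℝ) < k := by exact_mod_cast p1.pos
  have hk' : (0 : ℝ) < k' := by exact_mod_cast p1'.pos
  have h3 : h * k' - h' * k ≠ 0 := by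
    intro h4
    have h5 : h * k' = h' * k := sub_eq_zero.1 h4
    by_cases e : k = k'
    · subst e
      exact hne (Prod.ext rfl (mul_right_cancel₀ (by exact_mod_cast p1.ne_zero) h5))
    · have h6 : IsCoprime (k : ℤ) k' :=
        Nat.isCoprime_iff_coprime.2 ((Nat.coprime_primes p1 p1').2 e)
      have h7 : (k : ℤ) ∣ h := h6.dvd_of_dvd_mul_right ⟨h', by rw [h5, mul_comm]⟩
      obtain ⟨h8, h9⟩ := mem_hs.1 h2
      have := Int.le_of_dvd (abs_pos.2 h8) ((dvd_abs _ _).2 h7)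
      simp only at h9 this
      omega
  have h4 : (1 : ℝ) ≤ |(h : ℝ) * k' - h' * k| := by exact_mod_cast Int.one_le_abs h3
  have h5 : (h : ℝ) * X / k - h' * X / k' = (h * k' - h' * k) * (X / (k * k')) := by
    field_simp
  have h6 : (k : ℝ) ≤ 2 * K := by exact_mod_cast p3.le
  have h7 : (k' : ℝ) ≤ 2 * K := by exact_mod_cast p3'.le
  simp only
  rw [h5, abs_mul, abs_of_pos (by positivity : 0 < X / (k * k'))]
  calc X / (4 * K ^ 2) ≤ X / (k * k') :=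
        div_le_div_of_nonneg_left hX.le (by positivity) (by nlinarith)
    _ ≤ _ := le_mul_of_one_le_left (by positivity) h4

theorem cRow_stmt (hE : CEdgeStmt) (h2 : Exp2Stmt) : CRowStmt := by
  obtain ⟨C₁, hC₁, hE⟩ := hE
  obtain ⟨C₂, hC₂, h2⟩ := h2
  refine ⟨64 * C₁ ^ 2 * C₂, by positivity, ?_⟩
  intro X Δ Γ n' w F K P Λ B D b c hX hΔ hΓ hn hK hP hΛ hw hnw hD hB hBX hF hb hc
  have hK' : (1 : ℝ) ≤ K := by exact_mod_cast hK
  have hP' : (1 : ℝ) ≤ P := by exact_mod_cast hP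
  have hΛ' : (1 : ℝ) ≤ Λ := by exact_mod_cast hΛ
  have hw1 : 1 ≤ w := by linarith
  obtain ⟨S, hS⟩ : ∃ S, P + S = Λ * P + 1 :=
    ⟨Λ * P + 1 - P, by have := Nat.le_mul_of_pos_left P hΛ; omega⟩
  have hS' : (P : ℝ) + S = Λ * P + 1 := by exact_mod_cast hS
  have hS1 : (P : ℝ) + S ≤ w * P := by nlinarith
  have hS2 : (S : ℝ) ≤ w * P := by linarith
  set A := X / (Γ * (K * P)) with hA
  have hA0 : 0 < A := by positivity
  set T := 4 * (P * K * (K * P) / X) + √F + √(P : ℝ) with hT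
  have hT0 : 0 ≤ T := by positivity
  let y : ℕ → ℝ := fun s => ∑ k ∈ D, b k * rb X Δ Γ B ((k : ℝ) * (P + s : ℕ)) n'
  have e1 : ∑ u ∈ D ×ˢ Icc P (Λ * P), b u.1 * c u.2 * rb X Δ Γ B ((u.1 : ℝ) * u.2) n' =
      ∑ s ∈ range S, c (P + s) * y s := by
    rw [sum_product, sum_comm, ← Finset.Ico_add_one_right_eq_Icc, ← hS, sum_Ico_eq_sum_range,
      Nat.add_sub_cancel_left]
    refine sum_congr rfl fun s _ => ?_
    rw [mul_sum]
    exact sum_congr rfl fun k _ => by ring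
  have e2 : ∑ s ∈ range S, c (P + s) ^ 2 ≤ w * P := by
    have h3 := sum_le_card_nsmul (range S) (fun s => c (P + s) ^ 2) 1 fun s _ =>
      (sq_le_one_iff_abs_le_one _).2 (hc _)
    rw [card_range, nsmul_eq_mul, mul_one] at h3
    exact h3.trans hS2
  have hth : ∀ e ∈ D ×ˢ hs B, |(e.2 : ℝ) * X / e.1| ≤ B * X / K := by
    intro e he
    obtain ⟨h3, h4⟩ := mem_product.1 he
    have h5 : (K : ℝ) ≤ e.1 := by exact_mod_cast (hD _ h3).2.1
    have h6 := abs_le_of_hs h4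
    rw [abs_div, abs_mul, abs_of_pos hX, Nat.abs_cast]
    gcongr
  have e3 := row_CRow (D ×ˢ hs B) S P (2 * C₁ * w ^ 2 * A)
    (fun e s => (b e.1 : ℂ) * ec X Δ Γ n' P s e.1 e.2) (fun e => e.2 * X / e.1) y
    (fun e e' => C₂ * w ^ 4 * ((if e = e' then (P : ℝ) else 0) + T)) (fun s => ?_)
    (fun e he => ?_) fun e he e' he' i => ?_
  · have h3 : (((D ×ˢ hs B).card : ℕ) : ℝ) ≤ 2 * (K * B) := by
      rw [card_product, card_hs]
      have : (D.card : ℝ) ≤ K := by exact_mod_cast hD.card_le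
      push_cast
      nlinarith [Nat.cast_nonneg (α := ℝ) B]
    generalize D ×ˢ hs B = E at e3 h3
    have h4 : ∑ e ∈ E, ∑ e' ∈ E, 2 * C₁ * w ^ 2 * A * (2 * C₁ * w ^ 2 * A) *
        (C₂ * w ^ 4 * ((if e = e' then (P : ℝ) else 0) + T)) =
        4 * C₁ ^ 2 * C₂ * w ^ 8 * A ^ 2 * (E.card * P + E.card ^ 2 * T) := by
      have h5 : ∀ e ∈ E, ∑ e' ∈ E, 2 * C₁ * w ^ 2 * A * (2 * C₁ * w ^ 2 * A) *
          (C₂ * w ^ 4 * ((if e = e' then (P : ℝ) else 0) + T)) =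
          4 * C₁ ^ 2 * C₂ * w ^ 8 * A ^ 2 * (P + E.card * T) := by
        intro e he
        rw [← mul_sum, ← mul_sum, sum_add_distrib, sum_ite_eq, if_pos he, sum_const, nsmul_eq_mul]
        ring
      rw [sum_congr rfl h5, sum_const, nsmul_eq_mul]
      ring
    rw [h4] at e3
    have h5 : (E.card : ℝ) * P + E.card ^ 2 * T ≤
        16 * (K * B * P + K ^ 2 * B ^ 2 * (P * K * (K * P) / X + √F + √(P : ℝ))) := by
      have h6 : T ≤ 4 * (P * K * (K * P) / X + √F + √(P : ℝ)) := by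
        rw [hT]
        linarith [Real.sqrt_nonneg F, Real.sqrt_nonneg (P : ℝ)]
      calc (E.card : ℝ) * P + E.card ^ 2 * T ≤ 2 * (K * B) * P + (2 * (K * B)) ^ 2 *
            (4 * (P * K * (K * P) / X + √F + √(P : ℝ))) := by gcongr
        _ ≤ _ := by
          have : (0 : ℝ) ≤ K * B * P := by positivity
          linarith
    rw [e1]
    calc _ ≤ (∑ s ∈ range S, c (P + s) ^ 2) * ∑ s ∈ range S, y s ^ 2 :=
          sum_mul_sq_le_sq_mul_sq _ _ _
      _ ≤ w * P * (4 * C₁ ^ 2 * C₂ * w ^ 8 * A ^ 2 * (E.card * P + E.card ^ 2 * T)) :=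
          mul_le_mul e2 e3 (sum_nonneg fun _ _ => sq_nonneg _) (by positivity)
      _ ≤ w * P * (4 * C₁ ^ 2 * C₂ * w ^ 8 * A ^ 2 * (16 * (K * B * P + K ^ 2 * B ^ 2 *
          (P * K * (K * P) / X + √F + √(P : ℝ))))) := by gcongr
      _ = _ := by ring
  · simp only [y]
    rw [Complex.ofReal_sum, sum_product]
    refine sum_congr rfl fun k _ => ?_
    rw [Complex.ofReal_mul, rb_eq, mul_sum]
    refine sum_congr rfl fun h _ => ?_
    rw [ec, mul_assoc, mul_assoc, ← ex_add]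
    congr 3
    rw [div_div]
    ring
  · obtain ⟨h3, h4⟩ := mem_product.1 he
    have h5 := hE X Δ Γ n' w K P S e.1 e.2 hX hΔ hΓ hn hw1 hK hP (hD _ h3).2.1 hnw
    have h6 : w ^ 2 * |(e.2 : ℝ)| * X * Δ ^ 2 / (K * P * Γ ^ 2) ≤ w ^ 2 := by
      rw [div_le_iff₀ (by positivity)]
      calc w ^ 2 * |(e.2 : ℝ)| * X * Δ ^ 2 ≤ w ^ 2 * B * X * Δ ^ 2 := by
            have := abs_le_of_hs h4
            gcongr
        _ = w ^ 2 * (B * X * Δ ^ 2) := by ring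
        _ ≤ _ := by gcongr
    have h7 : 1 ≤ w ^ 2 := one_le_pow₀ hw1
    have h8 : nv S (fun _ => (b e.1 : ℂ)) ≤ 1 := by
      rw [nv_const, Complex.norm_real, Real.norm_eq_abs]
      exact hb _
    refine (nv_mul_le h8 h5).trans ?_
    calc 1 * (C₁ * A * (1 + w ^ 2 * |(e.2 : ℝ)| * X * Δ ^ 2 / (K * P * Γ ^ 2))) ≤
          1 * (C₁ * A * (w ^ 2 + w ^ 2)) := by gcongr
      _ = _ := by ring
  · have h3 : |(e.2 : ℝ) * X / e.1 - e'.2 * X / e'.1| ≤ F * P := by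
      refine (abs_sub _ _).trans ((add_le_add (hth e he) (hth e' he')).trans ?_)
      rw [← add_div, div_le_iff₀ (by positivity)]
      linarith
    refine (h2 _ P w F i S hP' hw1 hS1 h3).trans (mul_le_mul_of_nonneg_left ?_ (by positivity))
    have h4 : 0 ≤ 4 * (P * K * (K * P) / X) := by positivity
    rw [hT]
    split_ifs with h5
    · have := mul_le_of_le_one_right (by positivity : (0 : ℝ) ≤ P)
        (fm_le_one (by positivity : (0 : ℝ) < P) ((e.2 : ℝ) * X / e.1 - e'.2 * X / e'.1))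
      linarith
    · have h6 := sep_CRow hD hB he he' h5 hX
      have h7 : P * fm P ((e.2 : ℝ) * X / e.1 - e'.2 * X / e'.1) ≤ 4 * (P * K * (K * P) / X) := by
        rw [fm]
        calc (P : ℝ) * (P / (P + |(e.2 : ℝ) * X / e.1 - e'.2 * X / e'.1|)) ≤
              P * (P / (X / (4 * K ^ 2))) := by
              gcongr
              linarith
          _ = _ := by field_simp
      linarith

end Pool.Agent.MP_c853c5_nt.DS

end

section

/-!
From logarithmic to linear Gaussians in the inner sum.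
-/

set_option autoImplicit false

open Finset Filter Real
open scoped ComplexConjugate

namespace Pool.Agent.MP_c853c5_nt.DS

open Pool.Agent.MP_88bd62_nt.U (ex)

lemma card_Cmp1 {S : Finset ℕ} {L : ℝ} (hL : 0 ≤ L) (h : ∀ a ∈ S, ∀ b ∈ S, (a : ℝ) - b ≤ L) :
    (S.card : ℝ) ≤ L + 1 := by
  rcases S.eq_empty_or_nonempty with rfl | hS
  · rw [card_empty, Nat.cast_zero]
    linarith
  have h1 : S ⊆ Icc (S.min' hS) (S.max' hS) := fun a ha =>
    mem_Icc.2 ⟨min'_le S a ha, le_max' S a ha⟩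
  have h2 := card_le_card h1
  have h3 : S.min' hS ≤ S.max' hS := min'_le_max' S hS
  rw [Nat.card_Icc] at h2
  have h4 : S.card + S.min' hS ≤ S.max' hS + 1 := by omega
  have h5 : (S.card : ℝ) + S.min' hS ≤ S.max' hS + 1 := by exact_mod_cast h4
  linarith [h _ (max'_mem S hS) _ (min'_mem S hS)]

lemma near_Cmp1 {y δ : ℝ} (hy : 0 < y) (h0 : 0 ≤ δ) (h1 : δ ≤ 1 / 2) (P Q : ℕ) :
    (((Icc P Q).filter fun p : ℕ => |y * p - 1| ≤ δ).card : ℝ) ≤ 4 * δ * Q + 1 := by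
  refine card_Cmp1 (by positivity) fun a ha b hb => ?_
  obtain ⟨-, a2⟩ := abs_le.1 (mem_filter.1 ha).2
  obtain ⟨b1, -⟩ := abs_le.1 (mem_filter.1 hb).2
  have b2 : (b : ℝ) ≤ Q := by exact_mod_cast (mem_Icc.1 (mem_filter.1 hb).1).2
  have b3 : 1 ≤ 2 * (y * Q) := by nlinarith [mul_le_mul_of_nonneg_left b2 hy.le]
  refine le_of_mul_le_mul_left ?_ hy
  nlinarith [mul_le_mul_of_nonneg_left b3 h0]

lemma gg_nonneg_Cmp1 {Δ : ℝ} (h : 0 < Δ) (z : ℝ) : 0 ≤ Z.gg Δ z := by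
  unfold Z.gg
  positivity

lemma term_Cmp1 {C : ℝ} (hC : 0 < C) (h : ∀ z Δ : ℝ, 0 < z → 0 < Δ → Δ ≤ 1 →
      (|z - 1| ≤ 1 / 2 → |Z.gg Δ (Real.log z) - √z * Z.gg Δ (z - 1)| ≤ C) ∧
      ∀ δ : ℝ, 0 ≤ δ → δ ≤ 1 / 2 → δ ≤ |z - 1| →
        Z.gg Δ (Real.log z) ≤ C / Δ * Real.exp (-(δ ^ 2 / Δ ^ 2)) ∧
        √z * Z.gg Δ (z - 1) ≤ C / Δ * Real.exp (-(δ ^ 2 / Δ ^ 2)))
    {z Δ Γ l g : ℝ} (hz : 0 < z) (hΔ : 0 < Δ) (h1 : Δ ≤ Γ) (hl : 1 ≤ l) (h2 : Γ * l ≤ 1 / 2)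
    (h3 : Real.exp (-l) ≤ g * Δ) :
    |Z.gg Δ (Real.log z) - Z.gg Γ (Real.log z) - √z * (Z.gg Δ (z - 1) - Z.gg Γ (z - 1))| ≤
      (if |z - 1| ≤ Γ * l then 2 * C else 0) + 2 * C * g := by
  have hΓ : 0 < Γ := hΔ.trans_le h1
  have g1 : Γ ≤ 1 := by nlinarith
  have g0 : 0 < g := (mul_pos_iff_of_pos_right hΔ).1 ((Real.exp_pos _).trans_le h3)
  obtain ⟨a1, a2⟩ := h z Δ hz hΔ (h1.trans g1)
  obtain ⟨a3, a4⟩ := h z Γ hz hΓ g1
  rw [mul_sub]
  split_ifs with hn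
  · obtain ⟨b1, b2⟩ := abs_le.1 (a1 (hn.trans h2))
    obtain ⟨b3, b4⟩ := abs_le.1 (a3 (hn.trans h2))
    have : 0 ≤ 2 * C * g := by positivity
    rw [abs_le]
    constructor <;> linarith
  have key : ∀ D : ℝ, Δ ≤ D → D ≤ Γ → C / D * Real.exp (-((Γ * l) ^ 2 / D ^ 2)) ≤ C * g := by
    intro D d1 d2
    have d0 : 0 < D := hΔ.trans_le d1
    have e1 : l ≤ (Γ * l) ^ 2 / D ^ 2 := by
      rw [le_div_iff₀ (by positivity), mul_pow, mul_comm]
      exact mul_le_mul (by gcongr) (by nlinarith) (by linarith) (by positivity)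
    have e2 : Real.exp (-((Γ * l) ^ 2 / D ^ 2)) ≤ g * D :=
      ((Real.exp_le_exp.2 (neg_le_neg e1)).trans h3).trans (by gcongr)
    refine (mul_le_mul_of_nonneg_left e2 (by positivity)).trans_eq ?_
    field_simp
  obtain ⟨b1, b2⟩ := a2 _ (by positivity) h2 (not_le.1 hn).le
  obtain ⟨b3, b4⟩ := a4 _ (by positivity) h2 (not_le.1 hn).le
  have c1 := key Δ le_rfl h1
  have c2 := key Γ h1 le_rfl
  have c3 := gg_nonneg_Cmp1 hΔ (Real.log z)
  have c4 := gg_nonneg_Cmp1 hΓ (Real.log z)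
  have c5 := mul_nonneg (Real.sqrt_nonneg z) (gg_nonneg_Cmp1 hΔ (z - 1))
  have c6 := mul_nonneg (Real.sqrt_nonneg z) (gg_nonneg_Cmp1 hΓ (z - 1))
  rw [abs_le]
  constructor <;> linarith

lemma eq_Cmp1 {X : ℝ} (hX : 0 < X) (Δ Γ : ℝ) {K P m k p : ℕ} (hK : 1 ≤ K) (hP : 1 ≤ P)
    (hm : 1 ≤ m) (hk : 1 ≤ k) (hp : 1 ≤ p) (b c : ℕ → ℝ) :
    b k * c p * E.dg (Real.log X) Δ Γ (Real.log ((m : ℝ) * k * p)) -
      √(m * (K * P) / X) * (sq' K b k * sq' P c p *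
        (Z.gg Δ (m * ((k : ℝ) * p) / X - 1) - Z.gg Γ (m * ((k : ℝ) * p) / X - 1))) =
      b k * c p * (Z.gg Δ (Real.log (m * k / X * p)) - Z.gg Γ (Real.log (m * k / X * p)) -
        √(m * k / X * p) * (Z.gg Δ (m * k / X * p - 1) - Z.gg Γ (m * k / X * p - 1))) := by
  have K0 : (0 : ℝ) < K := by exact_mod_cast hK
  have P0 : (0 : ℝ) < P := by exact_mod_cast hP
  have m0 : (0 : ℝ) < m := by exact_mod_cast hm
  have k0 : (0 : ℝ) < k := by exact_mod_cast hk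
  have p0 : (0 : ℝ) < p := by exact_mod_cast hp
  have e1 : (m : ℝ) * (k * p) / X = m * k / X * p := by ring
  have e2 : Real.log X - Real.log ((m : ℝ) * k * p) = -Real.log (m * k / X * p) := by
    rw [div_mul_eq_mul_div, Real.log_div (by positivity) hX.ne', neg_sub]
  have e3 : √((m : ℝ) * k / X * p) = √(m * (K * P) / X) * √((k : ℝ) / K) * √((p : ℝ) / P) := by
    rw [← Real.sqrt_mul (by positivity), ← Real.sqrt_mul (by positivity)]
    congr 1
    field_simp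
  have e4 : ∀ D z : ℝ, Z.gg D (-z) = Z.gg D z := fun D z => by rw [Z.gg, Z.gg, neg_sq]
  rw [E.dg, e1, e2, e3, e4, e4, sq', sq']
  ring

theorem cmp1_stmt (h0 : Cmp0Stmt) : Cmp1Stmt := by
  obtain ⟨C, hC, h⟩ := h0
  intro Λ hΛ
  filter_upwards [E.ev_log_le (12 * C * Λ) 1 (show (0 : ℝ) < 1 / 2000 by norm_num),
    E.ev_log_le 2 1 (show (0 : ℝ) < 1 / 1000 by norm_num), E.ev_le_log 1, eventually_gt_atTop 1]
    with x x1 x2 x3 x4 X Δ Γ K P m D b c ⟨hX, d1, d2, d3, hK, hP, hD⟩ hm hb hc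
  rw [pow_one] at x1 x2
  have x0 : 0 < x := by linarith
  have L1 : (1 : ℝ) ≤ Λ := by exact_mod_cast hΛ
  have hΔ : 0 < Δ := (Real.rpow_pos_of_pos x0 _).trans_le d1
  obtain ⟨g, hg⟩ : ∃ g, g = x ^ (-(1 / 1000) : ℝ) := ⟨_, rfl⟩
  have g0 : 0 < g := hg ▸ Real.rpow_pos_of_pos x0 _
  have g1 : g * x ^ (1 / 1000 : ℝ) = 1 := by
    rw [hg, ← Real.rpow_add x0, neg_add_cancel, Real.rpow_zero]
  have g2 : g * x ^ (1 / 2000 : ℝ) = x ^ (-(1 / 2000) : ℝ) := by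
    rw [hg, ← Real.rpow_add x0]
    norm_num
  have g3 : 1 ≤ g * P := g1.ge.trans (mul_le_mul_of_nonneg_left
    ((Real.rpow_le_rpow_of_exponent_le x4.le (by norm_num)).trans hP) g0.le)
  have g4 : Real.exp (-Real.log x) ≤ g * Δ := by
    refine le_trans ?_ (mul_le_mul_of_nonneg_left d1 g0.le)
    rw [hg, ← Real.rpow_add x0, Real.exp_neg, Real.exp_log x0, ← Real.rpow_neg_one]
    exact Real.rpow_le_rpow_of_exponent_le x4.le (by norm_num)
  rw [← hg] at d3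
  have g5 : Γ * Real.log x ≤ g * Real.log x := by gcongr
  have g6 : Γ * Real.log x ≤ 1 / 2 := by nlinarith [mul_le_mul_of_nonneg_left x2 g0.le]
  have g7 : 0 ≤ Γ * Real.log x := mul_nonneg (hΔ.le.trans d2) (by linarith)
  have P1 : 1 ≤ P := by
    rcases Nat.eq_zero_or_pos P with rfl | e
    · norm_num at g3
    · exact e
  have P0 : (0 : ℝ) < P := by exact_mod_cast P1
  have m0 : (0 : ℝ) < m := by exact_mod_cast hm
  have cD : (D.card : ℝ) ≤ K := by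
    have := card_le_card hD
    rw [Nat.card_Ico] at this
    exact_mod_cast (by omega : D.card ≤ K)
  have cR : ((Icc P (Λ * P)).card : ℝ) ≤ Λ * P := by exact_mod_cast card_Icc_le P1
  rw [FF, FL, mul_sum, ← sum_sub_distrib, sum_product, mul_assoc]
  refine (abs_sum_le_sum_abs _ _).trans ((sum_le_card_nsmul _ _ _ fun k hk => ?_).trans
    ((nsmul_eq_mul _ _).trans_le (mul_le_mul_of_nonneg_right cD (by positivity))))
  have k1 : 1 ≤ k := hK.trans (mem_Ico.1 (hD hk)).1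
  have k0 : (0 : ℝ) < k := by exact_mod_cast k1
  have y0 : 0 < (m : ℝ) * k / X := by positivity
  refine (abs_sum_le_sum_abs _ _).trans ((sum_le_sum (g := fun p : ℕ =>
    (if |m * k / X * p - 1| ≤ Γ * Real.log x then 2 * C else 0) + 2 * C * g) fun p hp => ?_).trans
    ?_)
  · have p1 : 1 ≤ p := P1.trans (mem_Icc.1 hp).1
    have p0 : (0 : ℝ) < p := by exact_mod_cast p1
    rw [eq_Cmp1 hX Δ Γ hK P1 hm k1 p1, abs_mul, abs_mul]
    exact (mul_le_of_le_one_left (abs_nonneg _) (mul_le_one₀ (hb k) (abs_nonneg _) (hc p))).trans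
      (term_Cmp1 hC h (by positivity) hΔ d2 x3 g6 g4)
  · have n1 := near_Cmp1 y0 g7 g6 P (Λ * P)
    rw [sum_add_distrib, ← sum_filter, sum_const, sum_const, nsmul_eq_mul, nsmul_eq_mul, ← g2]
    push_cast at n1
    have n2 : 1 ≤ Λ * Real.log x := one_le_mul_of_one_le_of_one_le L1 x3
    have n3 : 4 * (Γ * Real.log x) * (Λ * P) + 1 ≤ 5 * (g * P * (Λ * Real.log x)) := by
      nlinarith [mul_le_mul_of_nonneg_right g5 (show 0 ≤ (Λ : ℝ) * P by positivity),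
        one_le_mul_of_one_le_of_one_le g3 n2]
    have n4 : Λ * P * g ≤ g * P * (Λ * Real.log x) := by
      nlinarith [mul_le_mul_of_nonneg_left x3 (show 0 ≤ Λ * P * g by positivity)]
    nlinarith [mul_le_mul_of_nonneg_right (n1.trans n3) hC.le,
      mul_le_mul_of_nonneg_right cR (show 0 ≤ C * g by positivity),
      mul_le_mul_of_nonneg_right n4 hC.le,
      mul_le_mul_of_nonneg_left x1 (show 0 ≤ g * P by positivity)]

end Pool.Agent.MP_c853c5_nt.DS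

end

section

set_option autoImplicit false

open Finset Filter Real
open scoped ComplexConjugate

namespace Pool.Agent.MP_c853c5_nt.DS

open Pool.Agent.MP_88bd62_nt.U (ex)
open MeasureTheory

lemma gg_nonneg_Conv {d : ℝ} (h : 0 < d) (y : ℝ) : 0 ≤ Z.gg d y := by
  unfold Z.gg
  positivity

lemma gg_le_Conv {d e : ℝ} (h : 0 < d) (he : d ≤ e) (y : ℝ) : Z.gg e y ≤ d⁻¹ :=
  (mul_le_of_le_one_right (inv_nonneg.2 (h.le.trans he))
    (exp_le_one_iff.2 (neg_nonpos.2 (by positivity)))).trans (inv_anti₀ h he)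

lemma gg_int_Conv {d : ℝ} (h : 0 < d) : Integrable (Z.gg d) ∧ ∫ z, Z.gg d z = 1 := by
  have e : Z.gg d = fun z => d⁻¹ * exp (-(π / d ^ 2) * z ^ 2) := funext fun z => by
    rw [Z.gg]
    congr 2
    ring
  rw [e]
  refine ⟨(integrable_exp_neg_mul_sq (by positivity)).const_mul _, ?_⟩
  rw [integral_const_mul, integral_gaussian, div_div_cancel₀ pi_ne_zero, sqrt_sq h.le,
    inv_mul_cancel₀ h.ne']

/-- convolution of two Gaussians -/
lemma conv_Conv {s d r : ℝ} (hs : 0 < s) (hd : 0 < d) (hr : 0 < r) (e : r ^ 2 = s ^ 2 + d ^ 2)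
    (w : ℝ) : Integrable (fun y => Z.gg s y * Z.gg d (w - y)) ∧
      ∫ y, Z.gg s y * Z.gg d (w - y) = Z.gg r w := by
  have h1 : (fun y => Z.gg s y * Z.gg d (w - y)) =
      fun y => Z.gg r w * Z.gg (s * d / r) (y - w * s ^ 2 / r ^ 2) := funext fun y => by
    unfold Z.gg
    rw [mul_mul_mul_comm, ← exp_add, mul_mul_mul_comm r⁻¹, ← exp_add]
    congr 1
    · field_simp
    · congr 1
      rw [div_pow, e]
      field_simp
      ring
  have h2 := gg_int_Conv (show 0 < s * d / r by positivity)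
  rw [h1]
  refine ⟨(h2.1.comp_sub_right _).const_mul _, ?_⟩
  rw [integral_const_mul, integral_sub_right_eq_self (Z.gg (s * d / r)), h2.2, mul_one]

lemma tail_Conv {s D y : ℝ} (hs : 0 < s) (hD : s ≤ D) (hy : 1 / 2 ≤ |y|) :
    Z.gg s y ≤ 2 * exp (-(1 / (4 * D ^ 2))) * Z.gg (2 * s) y := by
  have h1 : 1 / 4 ≤ y ^ 2 := by
    have := pow_le_pow_left₀ (by norm_num) hy 2
    rw [sq_abs] at this
    linarith
  have h2 : 1 / (4 * D ^ 2) ≤ 1 / (4 * s ^ 2) := by gcongr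
  have h3 : 1 / (4 * s ^ 2) + π * y ^ 2 / (2 * s) ^ 2 ≤ π * y ^ 2 / s ^ 2 := by
    rw [show (2 * s) ^ 2 = 4 * s ^ 2 by ring, ← add_div, div_le_div_iff₀ (by positivity)
      (by positivity)]
    have h4 : 1 ≤ 3 * (π * y ^ 2) := by nlinarith [pi_gt_three]
    nlinarith [mul_le_mul_of_nonneg_right h4 (sq_nonneg s)]
  have h4 : 2 * exp (-(1 / (4 * D ^ 2))) * Z.gg (2 * s) y =
      s⁻¹ * exp (-(1 / (4 * D ^ 2)) + -(π * y ^ 2 / (2 * s) ^ 2)) := by
    rw [Z.gg, exp_add]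
    field_simp
  rw [h4, Z.gg]
  gcongr
  linarith

theorem conv_stmt : ConvStmt := by
  refine ⟨2, two_pos, fun ι s a z v Δ₁ Δ Γ B h1 h2 h3 _ h => ?_⟩
  have hS : 0 ≤ ∑ i ∈ s, |a i| := sum_nonneg fun _ _ => abs_nonneg _
  have h0 := h v (by norm_num)
  rcases h2.eq_or_lt with rfl | h2
  · rw [sub_add_cancel, sqrt_sq (by linarith)] at h0
    exact h0.trans (le_add_of_nonneg_right (by positivity))
  have hB : 0 ≤ B := (abs_nonneg _).trans h0
  have q1 : Δ₁ ^ 2 < Δ ^ 2 := by gcongr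
  have q2 : Δ ^ 2 ≤ Γ ^ 2 := pow_le_pow_left₀ (by linarith) h3 2
  obtain ⟨σ, s0, s1, s2⟩ : ∃ σ : ℝ, 0 < σ ∧ σ ≤ Δ ∧ Δ ^ 2 = σ ^ 2 + Δ₁ ^ 2 :=
    ⟨√(Δ ^ 2 - Δ₁ ^ 2), sqrt_pos.2 (by linarith),
      sqrt_le_iff.2 ⟨by linarith, by nlinarith⟩, by rw [sq_sqrt (by linarith)]; ring⟩
  have g1 : Δ₁ ≤ √(Γ ^ 2 - Δ ^ 2 + Δ₁ ^ 2) := le_sqrt_of_sq_le (by linarith)
  have g2 : Γ ^ 2 = σ ^ 2 + √(Γ ^ 2 - Δ ^ 2 + Δ₁ ^ 2) ^ 2 := by
    rw [sq_sqrt (by nlinarith)]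
    linarith
  generalize √(Γ ^ 2 - Δ ^ 2 + Δ₁ ^ 2) = G at h g1 g2
  have k : ∀ i, Integrable (fun y => a i * (Z.gg σ y * E.dg (v - y) Δ₁ G (z i))) ∧
      ∫ y, a i * (Z.gg σ y * E.dg (v - y) Δ₁ G (z i)) = a i * E.dg v Δ Γ (z i) := fun i => by
    have c1 := conv_Conv s0 h1 (by linarith) s2 (v - z i)
    have c2 := conv_Conv s0 (h1.trans_le g1) (by linarith) g2 (v - z i)
    simp only [E.dg, mul_sub (Z.gg σ _), sub_right_comm v _ (z i)]
    refine ⟨(c1.1.sub c2.1).const_mul _, ?_⟩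
    rw [integral_const_mul, integral_sub c1.1 c2.1, c1.2, c2.2]
  have i1 := gg_int_Conv s0
  have i2 := gg_int_Conv (show 0 < 2 * σ by positivity)
  set T := 2 * (∑ i ∈ s, |a i|) / Δ₁ * exp (-(1 / (4 * Δ ^ 2))) with hT
  have hT0 : 0 ≤ T := by positivity
  rw [← sum_congr rfl fun i _ => (k i).2, ← integral_finsetSum s fun i _ => (k i).1,
    ← Real.norm_eq_abs]
  refine (norm_integral_le_of_norm_le ((i1.1.const_mul B).add (i2.1.const_mul T))
    (ae_of_all _ fun y => ?_)).trans_eq ?_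
  · have p1 := gg_nonneg_Conv s0 y
    have p2 := gg_nonneg_Conv (show 0 < 2 * σ by positivity) y
    simp only [mul_left_comm (a _), ← mul_sum, Pi.add_apply]
    rw [Real.norm_eq_abs, abs_mul, abs_of_nonneg p1]
    rcases le_total |y| (1 / 2) with hy | hy
    · rw [mul_comm]
      exact (mul_le_mul_of_nonneg_right (h (v - y) (by simpa using hy)) p1).trans
        (le_add_of_nonneg_right (by positivity))
    · have p3 : |∑ i ∈ s, a i * E.dg (v - y) Δ₁ G (z i)| ≤ (∑ i ∈ s, |a i|) * Δ₁⁻¹ := by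
        rw [sum_mul]
        refine (abs_sum_le_sum_abs _ _).trans (sum_le_sum fun i _ => ?_)
        rw [abs_mul]
        refine mul_le_mul_of_nonneg_left (abs_le.2 ⟨?_, ?_⟩) (abs_nonneg _) <;> unfold E.dg <;>
          linarith [gg_nonneg_Conv h1 (v - y - z i), gg_nonneg_Conv (h1.trans_le g1) (v - y - z i),
            gg_le_Conv h1 le_rfl (v - y - z i), gg_le_Conv h1 g1 (v - y - z i)]
      refine (mul_le_mul (tail_Conv s0 s1 hy) p3 (abs_nonneg _) (by positivity)).trans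
        (le_add_of_nonneg_of_le (by positivity) (le_of_eq ?_))
      rw [hT]
      ring
  · simp only [Pi.add_apply]
    rw [integral_add (i1.1.const_mul B) (i2.1.const_mul T), integral_const_mul,
      integral_const_mul, i1.2, i2.2, mul_one, mul_one]

end Pool.Agent.MP_c853c5_nt.DS

end

section

set_option autoImplicit false
open Finset Filter Real
open scoped ComplexConjugate
namespace Pool.Agent.MP_c853c5_nt.DS
open Pool.Agent.MP_88bd62_nt.U (ex)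

theorem mono_D2 {d : ℕ → ℝ} {A B : ℕ} {lam : ℝ}
    (h : ∀ n, A ≤ n → n < B → d (n + 1) + lam ≤ d n) {n m : ℕ} (h1 : A ≤ n) (h2 : n ≤ m)
    (h3 : m ≤ B) : d m + (m - n) * lam ≤ d n := by
  induction m, h2 using Nat.le_induction with
  | base => simp
  | succ k hk ih =>
    have := ih (by omega)
    have := h k (by omega) (by omega)
    push_cast
    linarith

theorem card_D2 (S : Finset ℕ) {L : ℝ} (hL : 0 ≤ L)
    (h : ∀ n ∈ S, ∀ m ∈ S, n ≤ m → (m : ℝ) - n ≤ L) : (S.card : ℝ) ≤ L + 1 := by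
  rcases S.eq_empty_or_nonempty with rfl | hS
  · simp only [card_empty, Nat.cast_zero]
    linarith
  · have h2 := card_le_card (show S ⊆ Icc (S.min' hS) (S.max' hS) from
      fun x hx => mem_Icc.2 ⟨S.min'_le x hx, S.le_max' x hx⟩)
    rw [Nat.card_Icc] at h2
    have h0 := S.min'_le_max' hS
    have h3 := h _ (S.min'_mem hS) _ (S.max'_mem hS) h0
    have h5 : (S.card : ℝ) + S.min' hS ≤ S.max' hS + 1 := by
      exact_mod_cast (by omega : S.card + S.min' hS ≤ S.max' hS + 1)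
    linarith

theorem conv_D2 (S : Finset ℕ) (h : ∀ a ∈ S, ∀ b ∈ S, ∀ n, a ≤ n → n ≤ b → n ∈ S) :
    ∃ a b, S = Ico a b := by
  rcases S.eq_empty_or_nonempty with rfl | hS
  · exact ⟨0, 0, by simp⟩
  · refine ⟨S.min' hS, S.max' hS + 1, Finset.ext fun x => ?_⟩
    rw [mem_Ico, Nat.lt_succ_iff]
    exact ⟨fun hx => ⟨S.min'_le x hx, S.le_max' x hx⟩,
      fun hx => h _ (S.min'_mem hS) _ (S.max'_mem hS) x hx.1 hx.2⟩

theorem fib_D2 {φ : ℕ → ℝ} {A B : ℕ} {lam : ℝ} (hl : 0 < lam)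
    (h : ∀ n, A ≤ n → n < B → φ (n + 2) - φ (n + 1) + lam ≤ φ (n + 1) - φ n) (ν : ℤ) :
    ‖∑ n ∈ (Ico A B).filter fun n => ⌊φ (n + 1) - φ n + √lam⌋ = ν, ex (φ n)‖ ≤
      3 * (1 / √lam + 1) := by
  have he : 0 < √lam := sqrt_pos.2 hl
  have he2 : √lam * √lam = lam := mul_self_sqrt hl.le
  have mo := fun n m => @mono_D2 (fun n => φ (n + 1) - φ n) A B lam h n m
  generalize √lam = e at he he2
  rw [← sum_filter_add_sum_filter_not _ fun n => φ (n + 1) - φ n < ν + e]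
  refine (norm_add_le _ _).trans ?_
  have b1 : ‖∑ n ∈ ((Ico A B).filter fun n => ⌊φ (n + 1) - φ n + e⌋ = ν).filter
      fun n => φ (n + 1) - φ n < ν + e, ex (φ n)‖ ≤ 2 / e + 1 := by
    refine (norm_sum_le _ _).trans ?_
    simp only [ex, Complex.norm_exp_ofReal_mul_I, sum_const, nsmul_eq_mul, mul_one]
    refine card_D2 _ (by positivity) fun n hn m hm hnm => ?_
    simp only [mem_filter, mem_Ico, Int.floor_eq_iff] at hn hm
    have := mo n m hn.1.1.1 hnm hm.1.1.2.le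
    rw [le_div_iff₀ he]
    refine le_of_mul_le_mul_right ?_ he
    rw [mul_assoc, he2]
    linarith [hn.2, hm.1.2.1]
  obtain ⟨a, b, hab⟩ := conv_D2 (((Ico A B).filter fun n => ⌊φ (n + 1) - φ n + e⌋ = ν).filter
      fun n => ¬ φ (n + 1) - φ n < ν + e) fun a ha b hb n h1 h2 => by
    simp only [mem_filter, mem_Ico, Int.floor_eq_iff, not_lt] at ha hb ⊢
    have m1 := mo a n ha.1.1.1 h1 (by omega)
    have m2 := mo n b (by omega) h2 hb.1.1.2.le
    have m3 : 0 ≤ ((n : ℝ) - a) * lam := mul_nonneg (sub_nonneg.2 (by exact_mod_cast h1)) hl.le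
    have m4 : 0 ≤ ((b : ℝ) - n) * lam := mul_nonneg (sub_nonneg.2 (by exact_mod_cast h2)) hl.le
    exact ⟨⟨⟨by omega, by omega⟩, by linarith [hb.2], by linarith [ha.1.2.2]⟩, by linarith [hb.2]⟩
  have key : ∀ n, a ≤ n → n < b → (A ≤ n ∧ n < B) ∧ ν + e ≤ φ (n + 1) - φ n ∧
      φ (n + 1) - φ n ≤ ν + 1 - e := fun n h1 h2 => by
    have := mem_Ico.2 ⟨h1, h2⟩
    rw [← hab] at this
    simp only [mem_filter, mem_Ico, Int.floor_eq_iff, not_lt] at this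
    exact ⟨this.1.1, this.2, by linarith [this.1.2.2]⟩
  have b2 := MP_88bd62_nt.U.stKL φ (fun _ => 1) a b ν e e he he (fun n h1 h2 => (key n h1 h2).2)
    (fun n h1 h2 => by
      have := (key n h1 (by omega)).1
      linarith [h n this.1 this.2]) fun _ _ => ⟨zero_le_one, le_rfl⟩
  simp only [Complex.ofReal_one, one_mul] at b2
  rw [hab]
  have b3 : 1 / (π * e) ≤ 1 / (2 * e) :=
    one_div_le_one_div_of_le (by positivity) (mul_le_mul_of_nonneg_right two_le_pi he.le)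
  have b4 : 1 / (2 * e) = 1 / e / 2 := by field_simp
  have b5 : 2 / e = 2 * (1 / e) := by ring
  linarith

theorem d2_stmt : D2Stmt := by
  refine ⟨6, by norm_num, fun φ A B lam V hl hV h hAB => ?_⟩
  have he : 0 < √lam := sqrt_pos.2 hl
  rcases le_or_gt B A with hBA | hBA
  · rw [Ico_eq_empty_of_le hBA, sum_empty, norm_zero]
    positivity
  have mo := fun n m => @mono_D2 (fun n => φ (n + 1) - φ n) A B lam h n m
  have mo' : ∀ n m, A ≤ n → n ≤ m → m ≤ B → φ (m + 1) - φ m + √lam ≤ φ (n + 1) - φ n + √lam :=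
    fun n m h1 h2 h3 => by
      have m1 := mo n m h1 h2 h3
      have : 0 ≤ ((m : ℝ) - n) * lam := mul_nonneg (sub_nonneg.2 (by exact_mod_cast h2)) hl.le
      linarith
  rw [← sum_fiberwise_of_maps_to (t := Icc ⌊φ (B + 1) - φ B + √lam⌋ ⌊φ (A + 1) - φ A + √lam⌋)
    (g := fun n => ⌊φ (n + 1) - φ n + √lam⌋) fun n hn => by
      rw [mem_Ico] at hn
      exact mem_Icc.2 ⟨Int.floor_mono (mo' n B hn.1 hn.2.le le_rfl),
        Int.floor_mono (mo' A n le_rfl hn.1 hn.2.le)⟩]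
  refine (norm_sum_le _ _).trans ((sum_le_card_nsmul _ _ _ fun ν _ => fib_D2 hl h ν).trans ?_)
  have c1 : ((Icc ⌊φ (B + 1) - φ B + √lam⌋ ⌊φ (A + 1) - φ A + √lam⌋).card : ℝ) ≤ 2 * (V + 1) := by
    have f0 := Int.floor_mono (mo' A B le_rfl hBA.le le_rfl)
    have f1 := Int.card_Icc_of_le _ _ (f0.trans (Int.le_add_one le_rfl))
    have f2 := congrArg (Int.cast : ℤ → ℝ) f1
    push_cast at f2
    linarith [Int.floor_le (φ (A + 1) - φ A + √lam), Int.lt_floor_add_one (φ (B + 1) - φ B + √lam)]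
  rw [nsmul_eq_mul]
  exact (mul_le_mul_of_nonneg_right c1 (by positivity)).trans_eq (by ring)

end Pool.Agent.MP_c853c5_nt.DS

end

section

/-!
The slowly varying part of an edge has bounded variation.
-/

set_option autoImplicit false

open Finset Filter Real
open scoped ComplexConjugate

namespace Pool.Agent.MP_c853c5_nt.DS

open Pool.Agent.MP_88bd62_nt.U (ex)

lemma exp_Edge {S : ℕ} {d : ℕ → ℝ} {c : ℝ} (hc : 0 ≤ c) (hd : ∀ s, 0 < d s)
    (hm : ∀ s, d s ≤ d (s + 1)) :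
    nv S (fun s => ((Real.exp (-(c / d s)) : ℝ) : ℂ)) ≤ 1 := by
  refine nv_monotone (f := fun s => Real.exp (-(c / d s))) (fun s _ => ?_) (Real.exp_pos _).le ?_
  · exact Real.exp_le_exp.2 (neg_le_neg (div_le_div_of_nonneg_left hc (hd s) (hm s)))
  · exact Real.exp_le_one_iff.2 (neg_nonpos.2 (div_nonneg hc (hd S).le))

lemma am_Edge {X Δ ρ m al be : ℝ} (S : ℕ) (h : ℤ) (hX : 0 < X) (hΔ : 0 < Δ) (hρ : 1 ≤ ρ)
    (hm : 0 < m) (hal : 0 ≤ al) (hbe : 0 ≤ be) :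
    nv S (fun s => ((am X Δ Δ (m * (s + ρ + al)) (m * (s + ρ + be)) h : ℝ) : ℂ)) ≤
      2 * (X / (Δ * m * ρ)) := by
  set d : ℕ → ℝ := fun s => dd Δ Δ (m * (s + ρ + al)) (m * (s + ρ + be)) with hd
  have hρ0 : 0 < ρ := by linarith
  have dpos : ∀ s, 0 < d s := fun s => dd_pos _ hΔ (by positivity)
  have dmono : ∀ s, d s ≤ d (s + 1) := by
    intro s
    simp only [hd, dd]
    push_cast
    gcongr <;> linarith
  have h1 : nv S (fun s => ((X / √(d s) : ℝ) : ℂ)) ≤ 2 * (X / (Δ * m * ρ)) := by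
    refine nv_antitone (f := fun s => X / √(d s)) (fun s _ => ?_) ?_ (by positivity)
    · exact div_le_div_of_nonneg_left hX.le (Real.sqrt_pos.2 (dpos s))
        (Real.sqrt_le_sqrt (dmono s))
    · refine div_le_div_of_nonneg_left hX.le (by positivity) (Real.le_sqrt_of_sq_le ?_)
      simp only [hd, dd, Nat.cast_zero, zero_add]
      have e1 : (Δ * m * ρ) ^ 2 ≤ (m * (ρ + al)) ^ 2 * Δ ^ 2 := by
        rw [← mul_pow, show Δ * m * ρ = m * ρ * Δ by ring]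
        gcongr
        linarith
      have e2 : 0 ≤ (m * (ρ + be)) ^ 2 * Δ ^ 2 := by positivity
      linarith
  have h2 := exp_Edge (S := S) (c := π * (m * (al - be)) ^ 2) (by positivity) dpos dmono
  have h3 := exp_Edge (S := S) (c := π * (h : ℝ) ^ 2 * (X * Δ * Δ) ^ 2) (by positivity) dpos dmono
  have h4 := nv_mul_le (nv_mul_le h1 h2) h3
  rw [mul_one, mul_one] at h4
  refine le_of_eq_of_le ?_ h4
  congr 1
  funext s
  rw [am, show m * (s + ρ + al) - m * (s + ρ + be) = m * (al - be) by ring]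
  simp only [hd, Complex.ofReal_mul]

lemma ph_Edge {X Δ ρ m al be δ : ℝ} (S : ℕ) (h : ℤ) (hX : 0 < X) (hΔ : 0 < Δ) (hρ : 1 ≤ ρ)
    (hm : 0 < m) (hal : 0 ≤ al) (hbe : 0 ≤ be) (hal' : al ≤ δ) (hbe' : be ≤ δ) (hδ : δ ≤ 1) :
    nv S (fun s => (((h : ℝ) * (ct X Δ Δ (m * (s + ρ + al)) (m * (s + ρ + be)) -
      X / (m * (s + ρ))) : ℝ) : ℂ)) ≤ |(h : ℝ)| * (X / m) * (2 * (2 * δ / ρ ^ 2)) := by
  have hρ0 : 0 < ρ := by linarith
  set T : ℕ → ℝ := fun s => (al + be) / ((s + ρ + al) ^ 2 + (s + ρ + be) ^ 2) +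
    (al ^ 2 + be ^ 2) / ((s + ρ) * ((s + ρ + al) ^ 2 + (s + ρ + be) ^ 2)) with hT
  have h1 : nv S (fun s => ((T s : ℝ) : ℂ)) ≤ 2 * (2 * δ / ρ ^ 2) := by
    refine nv_antitone (f := T) (fun s _ => ?_) ?_ (by simp only [hT]; positivity)
    · simp only [hT]
      push_cast
      gcongr <;> linarith
    · simp only [hT, Nat.cast_zero, zero_add]
      have e0 : 2 * ρ ^ 2 ≤ (ρ + al) ^ 2 + (ρ + be) ^ 2 := by nlinarith
      have e1 : (al + be) / ((ρ + al) ^ 2 + (ρ + be) ^ 2) ≤ (2 * δ) / (2 * ρ ^ 2) := by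
        gcongr
        · linarith
        · linarith
      have e2 : (al ^ 2 + be ^ 2) / (ρ * ((ρ + al) ^ 2 + (ρ + be) ^ 2)) ≤
          (2 * δ) / (1 * (2 * ρ ^ 2)) := by
        gcongr
        · linarith
        · nlinarith
      have e3 : (2 * δ) / (2 * ρ ^ 2) + (2 * δ) / (1 * (2 * ρ ^ 2)) = 2 * δ / ρ ^ 2 := by
        field_simp
        ring
      linarith
  have h2 : nv S (fun _ => ((-((h : ℝ) * (X / m)) : ℝ) : ℂ)) ≤ |(h : ℝ)| * (X / m) := by
    rw [nv_const, Complex.norm_real, Real.norm_eq_abs, abs_neg, abs_mul,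
      abs_of_pos (by positivity : 0 < X / m)]
  refine le_of_eq_of_le ?_ (nv_mul_le h2 h1)
  congr 1
  funext s
  rw [← Complex.ofReal_mul]
  congr 1
  have p1 : (0 : ℝ) < s + ρ := by positivity
  have p2 : (0 : ℝ) < (s + ρ + al) ^ 2 + (s + ρ + be) ^ 2 := by positivity
  have e : dd Δ Δ (m * (s + ρ + al)) (m * (s + ρ + be)) =
      m ^ 2 * Δ ^ 2 * ((s + ρ + al) ^ 2 + (s + ρ + be) ^ 2) := by
    rw [dd]
    ring
  simp only [hT]
  rw [ct, e]
  field_simp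
  ring

theorem edge_stmt : EdgeStmt := by
  refine ⟨256, by norm_num, ?_⟩
  intro X Δ ρ K Q H S a b q h hX hΔ hρ hK ha hb hQ hQH hC _ _
  have hρ0 : 0 < ρ := by linarith
  have hK' : (1 : ℝ) ≤ K := by exact_mod_cast hK
  have ha' : (K : ℝ) ≤ a := by exact_mod_cast ha
  have hb' : (K : ℝ) ≤ b := by exact_mod_cast hb
  have hQ' : (2 : ℝ) ≤ Q := by exact_mod_cast hQ
  have hQH' : (K : ℝ) ^ 2 ≤ 2 * Q * H := by exact_mod_cast hQH
  have a0 : (0 : ℝ) < a := by linarith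
  have b0 : (0 : ℝ) < b := by linarith
  have K0 : (0 : ℝ) < K := by linarith
  have Q0 : (0 : ℝ) < Q := by linarith
  obtain ⟨ca1, ca2⟩ := hC a (by simp)
  obtain ⟨cb1, cb2⟩ := hC b (by simp)
  have hm : (0 : ℝ) < a * b := by positivity
  have hm2 : (K : ℝ) ^ 2 ≤ a * b := by
    rw [sq]
    gcongr
  have hδ : (2 : ℝ) / Q ≤ 1 := by
    rw [div_le_one Q0]
    exact hQ'
  have h1 := am_Edge (X := X) (Δ := Δ) (ρ := ρ) (m := a * b) (al := (q a : ℝ) / a - ρ)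
    (be := (q b : ℝ) / b - ρ) S h hX hΔ hρ hm (by linarith) (by linarith)
  have h2 := ph_Edge (X := X) (Δ := Δ) (ρ := ρ) (m := a * b) (al := (q a : ℝ) / a - ρ)
    (be := (q b : ℝ) / b - ρ) (δ := 2 / Q) S h hX hΔ hρ hm (by linarith) (by linarith)
    (by linarith) (by linarith) hδ
  have h3 := (nv_ex S _).trans
    (add_le_add le_rfl (mul_le_mul_of_nonneg_left h2 (by positivity : (0 : ℝ) ≤ 2 * π)))
  have h4 := nv_mul_le h1 h3
  have e1 : ∀ s : ℕ, (b : ℝ) * (q a + s * a : ℕ) = a * b * (s + ρ + ((q a : ℝ) / a - ρ)) := by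
    intro s
    push_cast
    field_simp
    ring
  have e2 : ∀ s : ℕ, (a : ℝ) * (q b + s * b : ℕ) = a * b * (s + ρ + ((q b : ℝ) / b - ρ)) := by
    intro s
    push_cast
    field_simp
    ring
  have e3 : (fun s => ed X Δ ρ q s a b h) = fun s : ℕ =>
      ((am X Δ Δ (a * b * (s + ρ + ((q a : ℝ) / a - ρ))) (a * b * (s + ρ + ((q b : ℝ) / b - ρ)))
        h : ℝ) : ℂ) * ex ((h : ℝ) * (ct X Δ Δ (a * b * (s + ρ + ((q a : ℝ) / a - ρ)))
          (a * b * (s + ρ + ((q b : ℝ) / b - ρ))) - X / (a * b * (s + ρ)))) := by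
    funext s
    rw [ed, e1, e2]
  rw [e3]
  refine h4.trans ?_
  have g1 : X / (Δ * (a * b) * ρ) ≤ X / (Δ * K ^ 2 * ρ) := by gcongr
  have g2 : X / ((a : ℝ) * b) ≤ X / K ^ 2 := by gcongr
  have g3 : (2 : ℝ) / Q ≤ 4 * H / K ^ 2 := by
    rw [div_le_div_iff₀ Q0 (by positivity)]
    nlinarith
  have g4 : |(h : ℝ)| * (X / (a * b)) * (2 * (2 * (2 / Q) / ρ ^ 2)) ≤
      |(h : ℝ)| * (X / K ^ 2) * (2 * (2 * (4 * H / K ^ 2) / ρ ^ 2)) := by gcongr
  have g5 : |(h : ℝ)| * (X / K ^ 2) * (2 * (2 * (4 * H / K ^ 2) / ρ ^ 2)) =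
      16 * (|(h : ℝ)| * X * H / (K ^ 4 * ρ ^ 2)) := by
    field_simp
    ring
  have g6 : 0 ≤ |(h : ℝ)| * X * H / (K ^ 4 * ρ ^ 2) := by positivity
  have g7 : 1 + 2 * π * (|(h : ℝ)| * (X / (a * b)) * (2 * (2 * (2 / Q) / ρ ^ 2))) ≤
      128 * (1 + |(h : ℝ)| * X * H / (K ^ 4 * ρ ^ 2)) := by
    have p4 : 2 * π ≤ 8 := by linarith [Real.pi_le_four]
    have := mul_le_mul p4 (g4.trans_eq g5) (by positivity) (by norm_num)
    linarith
  calc _ ≤ 2 * (X / (Δ * K ^ 2 * ρ)) * (128 * (1 + |(h : ℝ)| * X * H / (K ^ 4 * ρ ^ 2))) := by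
        gcongr
    _ = _ := by ring

end Pool.Agent.MP_c853c5_nt.DS

end

section

set_option autoImplicit false
open Finset Filter Real
open scoped ComplexConjugate
namespace Pool.Agent.MP_c853c5_nt.DS
open Pool.Agent.MP_88bd62_nt.U (ex)

theorem sqrt_le_Exp (F0 ρ : ℝ) (h0 : 0 ≤ F0) (hρ : 0 ≤ ρ) (h : F0 ≤ ρ * √ρ) :
    √F0 ≤ F0 ^ (1 / 6 : ℝ) * √ρ := by
  have e1 : √F0 = F0 ^ (1 / 6 : ℝ) * F0 ^ (1 / 3 : ℝ) := by
    rw [Real.sqrt_eq_rpow, ← Real.rpow_add' h0 (by norm_num)]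
    norm_num
  have e2 : F0 ^ (1 / 3 : ℝ) ≤ √ρ := by
    have hs : 0 ≤ √ρ := Real.sqrt_nonneg ρ
    have e3 : ρ * √ρ = (√ρ) ^ (3 : ℕ) := by
      have := Real.mul_self_sqrt hρ
      calc ρ * √ρ = (√ρ * √ρ) * √ρ := by rw [this]
        _ = (√ρ) ^ (3 : ℕ) := by ring
    calc F0 ^ (1 / 3 : ℝ) ≤ ((√ρ) ^ (3 : ℕ)) ^ (1 / 3 : ℝ) :=
          Real.rpow_le_rpow h0 (e3 ▸ h) (by norm_num)
      _ = √ρ := by
          rw [← Real.rpow_natCast, ← Real.rpow_mul hs]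
          norm_num
  rw [e1]
  exact mul_le_mul_of_nonneg_left e2 (Real.rpow_nonneg h0 _)

theorem exp_stmt (h2 : Exp2Stmt) (h3 : Exp3Stmt) : ExpStmt := by
  obtain ⟨C2, hC2, h2⟩ := h2
  obtain ⟨C3, hC3, h3⟩ := h3
  refine ⟨max C2 C3, lt_max_of_lt_left hC2, ?_⟩
  intro Y ρ w F i S hρ hw hS hY
  have hρ0 : 0 < ρ := by linarith
  have hF0 : 0 ≤ |Y| / ρ := div_nonneg (abs_nonneg Y) hρ0.le
  have hF0F : |Y| / ρ ≤ F := by rw [div_le_iff₀ hρ0]; exact hY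
  have hF : 0 ≤ F := hF0.trans hF0F
  have hw4 : 0 ≤ w ^ 4 := by positivity
  have hfm : 0 ≤ ρ * fm ρ Y := mul_nonneg hρ0.le (fm_pos hρ0 Y).le
  have hsρ : 0 ≤ √ρ := Real.sqrt_nonneg ρ
  have hzb : 0 ≤ zb F ρ := le_min (Real.sqrt_nonneg F) (mul_nonneg (Real.rpow_nonneg hF _) hsρ)
  have hmono : (|Y| / ρ) ^ (1 / 6 : ℝ) * √ρ ≤ F ^ (1 / 6 : ℝ) * √ρ :=
    mul_le_mul_of_nonneg_right (Real.rpow_le_rpow hF0 hF0F (by norm_num)) hsρ
  have fin : ∀ (C X T : ℝ), 0 ≤ C → C ≤ max C2 C3 → 0 ≤ X → X ≤ ρ * fm ρ Y + zb F ρ + √ρ →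
      T ≤ C * w ^ 4 * X → T ≤ max C2 C3 * w ^ 4 * (ρ * fm ρ Y + zb F ρ + √ρ) := by
    intro C X T hC hCm hX hXle hT
    refine hT.trans ?_
    exact mul_le_mul (mul_le_mul_of_nonneg_right hCm hw4) hXle hX
      (mul_nonneg (hC.trans hCm) hw4)
  by_cases hc : ρ ^ 2 * √ρ ≤ |Y|
  · rcases le_total (√F) (F ^ (1 / 6 : ℝ) * √ρ) with hm | hm
    · have hz : zb F ρ = √F := min_eq_left hm
      refine fin C2 _ _ hC2.le (le_max_left _ _) ?_ ?_ (h2 Y ρ w F i S hρ hw hS hY)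
      · have := Real.sqrt_nonneg F
        linarith
      · rw [hz]
    · have hz : zb F ρ = F ^ (1 / 6 : ℝ) * √ρ := min_eq_right hm
      refine fin C3 _ _ hC3.le (le_max_right _ _) ?_ ?_ (h3 Y ρ w i S hρ hw hS hc)
      · exact mul_nonneg (Real.rpow_nonneg hF0 _) hsρ
      · rw [hz]
        linarith
  · have hlt : |Y| / ρ ≤ ρ * √ρ := by
      rw [div_le_iff₀ hρ0]
      have := (not_le.mp hc).le
      calc |Y| ≤ ρ ^ 2 * √ρ := this
        _ = ρ * √ρ * ρ := by ring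
    have hY0 : |Y| ≤ |Y| / ρ * ρ := by rw [div_mul_cancel₀ _ hρ0.ne']
    have hz : √(|Y| / ρ) ≤ zb F ρ :=
      le_min (Real.sqrt_le_sqrt hF0F) ((sqrt_le_Exp _ _ hF0 hρ0.le hlt).trans hmono)
    refine fin C2 _ _ hC2.le (le_max_left _ _) ?_ ?_ (h2 Y ρ w (|Y| / ρ) i S hρ hw hS hY0)
    · have := Real.sqrt_nonneg (|Y| / ρ)
      linarith
    · linarith

end Pool.Agent.MP_c853c5_nt.DS

end

section

set_option autoImplicit false

open Finset Filter Real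
open scoped ComplexConjugate

namespace Pool.Agent.MP_c853c5_nt.DS

open Pool.Agent.MP_88bd62_nt.U (ex)

open ArithmeticFunction in
theorem sub_L2 (k a b : ℕ) :
    (zeta ^ k : ArithmeticFunction ℕ) (a * b) ≤
      (zeta ^ k : ArithmeticFunction ℕ) a * (zeta ^ k : ArithmeticFunction ℕ) b := by
  induction k generalizing a b with
  | zero =>
    rw [pow_zero, one_apply]
    split_ifs with h
    · rw [Nat.eq_one_of_mul_eq_one_right h, Nat.eq_one_of_mul_eq_one_left h, one_one, one_mul]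
    · exact Nat.zero_le _
  | succ k ih =>
    rw [pow_succ, mul_zeta_apply, mul_zeta_apply, mul_zeta_apply, Nat.divisors_mul,
      Finset.mul_def, sum_mul_sum, ← sum_product']
    exact (sum_image_le_of_nonneg fun _ _ => Nat.zero_le _).trans (sum_le_sum fun x _ => ih _ _)

open ArithmeticFunction in
theorem one_L2 (k : ℕ) : (zeta ^ k : ArithmeticFunction ℕ) 1 = 1 := by
  induction k with
  | zero => rw [pow_zero, one_one]
  | succ k ih => rw [pow_succ, mul_zeta_apply, Nat.divisors_one, sum_singleton, ih]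

open ArithmeticFunction in
theorem mul_L2 (k l m : ℕ) :
    (zeta ^ k : ArithmeticFunction ℕ) m * (zeta ^ l : ArithmeticFunction ℕ) m ≤
      (zeta ^ (k * l) : ArithmeticFunction ℕ) m := by
  induction l generalizing m with
  | zero =>
    rw [mul_zero, pow_zero, one_apply]
    split_ifs with h
    · rw [h, one_L2, one_mul]
    · exact Nat.le_refl _
  | succ l ih =>
    rw [mul_add, mul_one, pow_add _ (k * l), pow_succ, mul_apply, mul_apply, mul_sum]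
    refine sum_le_sum fun x hx => ?_
    have h1 := Nat.mem_divisorsAntidiagonal.1 hx
    have h2 : x.2 ≠ 0 := fun h => h1.2 (by rw [← h1.1, h, mul_zero])
    rw [zeta_apply_ne h2, mul_one, ← h1.1]
    calc _ ≤ (zeta ^ k : ArithmeticFunction ℕ) x.1 * (zeta ^ k : ArithmeticFunction ℕ) x.2 *
          (zeta ^ l : ArithmeticFunction ℕ) x.1 := Nat.mul_le_mul_right _ (sub_L2 k _ _)
      _ = (zeta ^ k : ArithmeticFunction ℕ) x.1 * (zeta ^ l : ArithmeticFunction ℕ) x.1 *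
          (zeta ^ k : ArithmeticFunction ℕ) x.2 := by ring
      _ ≤ _ := Nat.mul_le_mul_right _ (ih _)

theorem harm_L2 {Y Y₀ : ℕ} (h : Y ≤ Y₀) :
    ∑ n ∈ Ioc 0 Y, (n : ℝ)⁻¹ ≤ 1 + Real.log Y₀ := by
  have h1 := harmonic_le_one_add_log Y₀
  simp only [harmonic_eq_sum_Icc, Rat.cast_sum, Rat.cast_inv, Rat.cast_natCast] at h1
  refine le_trans (sum_le_sum_of_subset_of_nonneg (fun n hn => ?_) fun _ _ _ => by positivity) h1
  rw [mem_Ioc] at hn
  exact mem_Icc.2 ⟨hn.1, hn.2.trans h⟩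

open ArithmeticFunction in
theorem sum_L2 (Y₀ j : ℕ) {Y : ℕ} (h : Y ≤ Y₀) :
    ((∑ m ∈ Ioc 0 Y, (zeta ^ j : ArithmeticFunction ℕ) m : ℕ) : ℝ) ≤
      Y * (1 + Real.log Y₀) ^ j := by
  have hH : 0 ≤ 1 + Real.log Y₀ := add_nonneg zero_le_one (Real.log_natCast_nonneg _)
  induction j generalizing Y with
  | zero =>
    rw [pow_zero, pow_zero, mul_one, Nat.cast_le]
    refine (sum_le_card_nsmul _ _ 1 fun m _ => ?_).trans (by simp)
    rw [one_apply]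
    split_ifs <;> omega
  | succ j ih =>
    rw [pow_succ', sum_Ioc_mul_eq_sum_sum, Nat.cast_sum]
    calc _ ≤ ∑ n ∈ Ioc 0 Y, Y * (1 + Real.log Y₀) ^ j * (n : ℝ)⁻¹ := by
          refine sum_le_sum fun n hn => ?_
          rw [zeta_apply_ne (mem_Ioc.1 hn).1.ne', one_mul]
          refine (ih ((Nat.div_le_self _ _).trans h)).trans ?_
          rw [mul_right_comm, ← div_eq_mul_inv]
          exact mul_le_mul_of_nonneg_right Nat.cast_div_le (pow_nonneg hH _)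
      _ ≤ _ := by
          rw [← mul_sum, pow_succ, ← mul_assoc]
          exact mul_le_mul_of_nonneg_left (harm_L2 h) (by positivity)

theorem l2_stmt : L2Stmt := by
  intro k Y _
  refine le_trans ?_ (sum_L2 Y (k ^ 2) le_rfl)
  rw [Nat.cast_sum, show Icc 1 Y = Ioc 0 Y from rfl]
  refine sum_le_sum fun m _ => ?_
  rw [sq, sq, ← Nat.cast_mul, Nat.cast_le]
  exact mul_L2 k k m

end Pool.Agent.MP_c853c5_nt.DS

end

section

set_option autoImplicit false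

open Finset Filter Real
open scoped ComplexConjugate

namespace Pool.Agent.MP_c853c5_nt.DS

open Pool.Agent.MP_88bd62_nt.U (ex)

lemma summ_Pois {A : ℝ} (hA : 0 < A) (c : ℝ) :
    Summable fun m : ℤ => Real.exp (-(π * A * ((m : ℝ) - c) ^ 2)) := by
  refine Summable.of_nonneg_of_le (fun _ => (Real.exp_pos _).le) (fun m => ?_)
    (summable_pow_mul_jacobiTheta₂_term_bound (A * |c|) hA 0)
  rw [pow_zero, one_mul]
  apply Real.exp_le_exp.2
  have h1 : (m : ℝ) * c ≤ |c| * |(m : ℝ)| := by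
    rw [← abs_mul, mul_comm c]; exact le_abs_self _
  have h2 : 0 ≤ π * A := by positivity
  have h3 : 0 ≤ π * A * c ^ 2 := by positivity
  have h4 := mul_le_mul_of_nonneg_left h1 h2
  push_cast
  nlinarith

lemma summ0_Pois {A : ℝ} (hA : 0 < A) :
    Summable fun h : ℤ => Real.exp (-(π * (h : ℝ) ^ 2 / A)) := by
  refine (summ_Pois (inv_pos.2 hA) 0).congr fun h => ?_
  congr 1
  rw [sub_zero]
  field_simp

lemma poisson_Pois {A : ℝ} (hA : 0 < A) (c : ℝ) :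
    ∑' m : ℤ, Real.exp (-(π * A * ((m : ℝ) - c) ^ 2)) =
      (√A)⁻¹ * ∑' h : ℤ, Real.exp (-(π * (h : ℝ) ^ 2 / A)) * Real.cos (2 * π * (h * c)) := by
  have hA' : (A : ℂ) ≠ 0 := by exact_mod_cast hA.ne'
  have h1 := Complex.tsum_exp_neg_quadratic (a := (A : ℂ)) (by simpa using hA) (A * c)
  have h2 : (A : ℂ) ^ (1 / 2 : ℂ) = ((√A : ℝ) : ℂ) := by
    rw [Real.sqrt_eq_rpow, Complex.ofReal_cpow hA.le]
    norm_num
  have h3 : ∀ m : ℤ, ((Real.exp (-(π * A * ((m : ℝ) - c) ^ 2)) : ℝ) : ℂ) =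
      Complex.exp (-(π * A * c ^ 2)) *
        Complex.exp (-π * A * (m : ℂ) ^ 2 + 2 * π * (A * c) * m) := fun m => by
    rw [← Complex.exp_add]
    push_cast
    congr 1
    ring
  have h4 : ∀ h : ℤ, Complex.exp (-(π * A * c ^ 2)) *
      Complex.exp (-π / A * (h + Complex.I * (A * c)) ^ 2) =
      ((Real.exp (-(π * (h : ℝ) ^ 2 / A)) : ℝ) : ℂ) * ex (-(h * c)) := fun h => by
    unfold ex
    rw [← Complex.exp_add]
    push_cast
    rw [← Complex.exp_add]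
    congr 1
    field_simp
    linear_combination (-(A : ℂ) ^ 2 * c ^ 2) * Complex.I_mul_I
  have h5 : Summable fun h : ℤ => ((Real.exp (-(π * (h : ℝ) ^ 2 / A)) : ℝ) : ℂ) * ex (-(h * c)) := by
    refine (summ0_Pois hA).of_norm_bounded fun h => ?_
    rw [norm_mul, norm_ex, mul_one, Complex.norm_real, Real.norm_of_nonneg (Real.exp_pos _).le]
  have h6 : ((∑' m : ℤ, Real.exp (-(π * A * ((m : ℝ) - c) ^ 2)) : ℝ) : ℂ) =
      (((√A)⁻¹ : ℝ) : ℂ) *
        ∑' h : ℤ, ((Real.exp (-(π * (h : ℝ) ^ 2 / A)) : ℝ) : ℂ) * ex (-(h * c)) := by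
    rw [Complex.ofReal_tsum]
    simp_rw [h3]
    rw [tsum_mul_left, h1, h2, mul_left_comm, ← tsum_mul_left]
    simp_rw [h4]
    push_cast
    rw [one_div]
  have h7 := congrArg Complex.re h6
  rw [Complex.ofReal_re, Complex.re_ofReal_mul, Complex.re_tsum h5] at h7
  rw [h7]
  congr 1
  refine tsum_congr fun h => ?_
  rw [Complex.re_ofReal_mul, ex_eq, Complex.add_re, Complex.ofReal_re, Complex.re_ofReal_mul,
    Complex.I_re, mul_zero, add_zero, mul_neg, Real.cos_neg]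

lemma gsum_Pois {A : ℝ} (hA : 0 < A) (N : ℕ) :
    ∑ j ∈ range (N + 1), Real.exp (-(π * (j : ℝ) ^ 2 / A)) ≤
      1 + 2 * A * (1 / √A - 1 / (√A + N)) := by
  have hs : 0 < √A := Real.sqrt_pos.2 hA
  have hss : √A * √A = A := Real.mul_self_sqrt hA.le
  induction N with
  | zero => simp
  | succ N ih =>
    rw [Finset.sum_range_succ]
    have hN : (0 : ℝ) ≤ N := Nat.cast_nonneg N
    set s := √A with hsd
    have h1 : Real.exp (-(π * ((N + 1 : ℕ) : ℝ) ^ 2 / A)) ≤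
        2 * A * (1 / (s + N) - 1 / (s + (N + 1 : ℕ))) := by
      push_cast
      have h2 : 1 + π * ((N : ℝ) + 1) ^ 2 / A ≤ Real.exp (π * ((N : ℝ) + 1) ^ 2 / A) := by
        linarith [Real.add_one_le_exp (π * ((N : ℝ) + 1) ^ 2 / A)]
      have h3 : ((N : ℝ) + 1) ^ 2 / A ≤ π * ((N : ℝ) + 1) ^ 2 / A := by
        apply div_le_div_of_nonneg_right _ hA.le
        nlinarith [Real.pi_gt_three, sq_nonneg ((N : ℝ) + 1)]
      have h4 : 2 * A * (1 / (s + N) - 1 / (s + (N + 1))) = 2 * A / ((s + N) * (s + (N + 1))) := by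
        field_simp
        ring
      have h5 : (s + N) * (s + (N + 1)) / (2 * A) ≤ 1 + ((N : ℝ) + 1) ^ 2 / A := by
        rw [div_le_iff₀ (by positivity)]
        have : (1 + ((N : ℝ) + 1) ^ 2 / A) * (2 * A) = 2 * (s * s) + 2 * ((N : ℝ) + 1) ^ 2 := by
          rw [hss]; field_simp
        rw [this]
        nlinarith [sq_nonneg (s - (N + 1))]
      rw [h4, Real.exp_neg, ← inv_div _ (2 * A)]
      apply inv_anti₀ (by positivity)
      linarith
    linarith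

lemma gtsum_Pois {A : ℝ} (hA : 0 < A) :
    ∑' j : ℕ, Real.exp (-(π * (j : ℝ) ^ 2 / A)) ≤ 1 + 2 * √A := by
  have hs : 0 < √A := Real.sqrt_pos.2 hA
  have hss : √A * √A = A := Real.mul_self_sqrt hA.le
  refine Real.tsum_le_of_sum_range_le (fun _ => (Real.exp_pos _).le) fun N => ?_
  have h1 := gsum_Pois hA N
  rw [Finset.sum_range_succ] at h1
  have h2 : 2 * A * (1 / √A) = 2 * √A := by
    field_simp
    nlinarith
  have h3 : 0 ≤ 2 * A * (1 / (√A + N)) := by positivity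
  have h4 := Real.exp_pos (-(π * (N : ℝ) ^ 2 / A))
  nlinarith

lemma half_Pois {A : ℝ} (hA : 0 < A) (B : ℕ) (u : ℕ → ℝ)
    (hu : ∀ j : ℕ, |u j| ≤ Real.exp (-(π * ((j : ℝ) + (B + 1)) ^ 2 / A))) :
    |∑' j, u j| ≤ (1 + 2 * √A) * Real.exp (-(π * ((B : ℝ) + 1) ^ 2 / A)) := by
  have hs : Summable fun j : ℕ => Real.exp (-(π * (j : ℝ) ^ 2 / A)) := by
    have := (summ0_Pois hA).comp_injective (Nat.cast_injective (R := ℤ))
    simpa [Function.comp_def] using this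
  have h1 := tsum_of_norm_bounded (f := u)
    (hs.mul_right (Real.exp (-(π * ((B : ℝ) + 1) ^ 2 / A)))).hasSum fun j => by
      rw [Real.norm_eq_abs, ← Real.exp_add]
      refine (hu j).trans (Real.exp_le_exp.2 ?_)
      have h2 : π * (j : ℝ) ^ 2 / A + π * ((B : ℝ) + 1) ^ 2 / A ≤
          π * ((j : ℝ) + (B + 1)) ^ 2 / A := by
        rw [← add_div]
        apply div_le_div_of_nonneg_right _ hA.le
        have : 0 ≤ π * ((j : ℝ) * ((B : ℝ) + 1)) := by positivity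
        nlinarith
      linarith
  rw [Real.norm_eq_abs, tsum_mul_right] at h1
  exact h1.trans (mul_le_mul_of_nonneg_right (gtsum_Pois hA) (Real.exp_pos _).le)

lemma tail_Pois {A : ℝ} (hA : 0 < A) (B : ℕ) (f : ℤ → ℝ)
    (hf : ∀ h : ℤ, |f h| ≤ Real.exp (-(π * (h : ℝ) ^ 2 / A))) :
    |∑' h, f h - f 0 - ∑ h ∈ hs B, f h| ≤
      4 * (1 + √A) * Real.exp (-(π * ((B : ℝ) + 1) ^ 2 / A)) := by
  have hsf : Summable f := (summ0_Pois hA).of_norm_bounded hf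
  have hp : Summable fun n : ℕ => f n := hsf.comp_injective Nat.cast_injective
  have hn : Summable fun n : ℕ => f (-(n + 1)) :=
    hsf.comp_injective fun a b hab => by simpa using hab
  have h1 := tsum_of_nat_of_neg_add_one hp hn
  have h2 := hp.sum_add_tsum_nat_add (B + 1)
  have h3 := hn.sum_add_tsum_nat_add B
  have h4 : f 0 + ∑ h ∈ hs B, f h =
      ∑ i ∈ range (B + 1), f i + ∑ i ∈ range B, f (-((i : ℤ) + 1)) := by
    have h0 : (0 : ℤ) ∈ Icc (-(B : ℤ)) B := by simp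
    rw [hs, Finset.add_sum_erase _ _ h0]
    clear h0 h2 h3
    induction B with
    | zero => simp
    | succ B ih =>
      have e : Icc (-((B + 1 : ℕ) : ℤ)) ((B + 1 : ℕ) : ℤ) =
          insert ((B + 1 : ℕ) : ℤ) (insert (-((B : ℤ) + 1)) (Icc (-(B : ℤ)) B)) := by
        ext h
        simp only [Finset.mem_Icc, Finset.mem_insert]
        omega
      rw [e, Finset.sum_insert, Finset.sum_insert, ih, Finset.sum_range_succ _ (B + 1),
        Finset.sum_range_succ (fun i : ℕ => f (-((i : ℤ) + 1))) B]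
      · ring
      · simp only [Finset.mem_Icc]; omega
      · simp only [Finset.mem_Icc, Finset.mem_insert]; omega
  have h5 := half_Pois hA B (fun j => f ((j + (B + 1) : ℕ) : ℤ)) fun j => by
    have := hf ((j + (B + 1) : ℕ) : ℤ)
    push_cast at this ⊢
    exact this
  have h6 := half_Pois hA B (fun j => f (-(((j + B : ℕ) : ℤ) + 1))) fun j => by
    have := hf (-(((j + B : ℕ) : ℤ) + 1))
    push_cast at this ⊢
    rw [neg_sq, add_assoc (j : ℝ)] at this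
    exact this
  have h7 : ∑' h, f h - f 0 - ∑ h ∈ hs B, f h =
      ∑' j : ℕ, f ((j + (B + 1) : ℕ) : ℤ) + ∑' j : ℕ, f (-(((j + B : ℕ) : ℤ) + 1)) := by
    linarith
  rw [h7]
  have h8 := Real.exp_pos (-(π * ((B : ℝ) + 1) ^ 2 / A))
  refine (abs_add_le _ _).trans ?_
  nlinarith

theorem pois_stmt : PoisStmt := by
  intro X Δ Γ n n' B hX hΔ hΓ hn hn'
  have hd := dd_pos (Δ := Δ) n' hΓ hn
  set d := dd Δ Γ n n' with hdd
  set A := d / (X * Δ * Γ) ^ 2 with hAd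
  have hA : 0 < A := by positivity
  set c := ct X Δ Γ n n' with hc
  set E := Real.exp (-(π * (n - n') ^ 2 / d)) with hE
  have hE0 : 0 < E := Real.exp_pos _
  have hsA : √A = √d / (X * Δ * Γ) := by
    rw [hAd, Real.sqrt_div hd.le, Real.sqrt_sq (by positivity)]
  have hsd : 0 < √d := Real.sqrt_pos.2 hd
  have h1 : ∀ m : ℤ, Z.gg Δ (m * n / X - 1) * Z.gg Γ (m * n' / X - 1) =
      (Δ * Γ)⁻¹ * E * Real.exp (-(π * A * ((m : ℝ) - c) ^ 2)) := fun m => by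
    unfold Z.gg
    rw [hE, mul_assoc ((Δ * Γ)⁻¹), ← Real.exp_add, mul_mul_mul_comm, ← Real.exp_add, mul_inv]
    congr 2
    rw [hAd, hc, ct, ← hdd]
    field_simp
    rw [hdd, dd]
    ring
  have h2 : ∀ h : ℤ, am X Δ Γ n n' h =
      X / √d * E * Real.exp (-(π * (h : ℝ) ^ 2 / A)) := fun h => by
    unfold am
    rw [← hdd, ← hE, hAd]
    congr 3
    field_simp
  refine ⟨?_, ?_⟩
  · simp_rw [h1]
    exact (summ_Pois hA c).mul_left _
  · have h3 : Th X Δ Γ n n' = X / √d * E *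
        ∑' h : ℤ, Real.exp (-(π * (h : ℝ) ^ 2 / A)) * Real.cos (2 * π * (h * c)) := by
      unfold Th
      simp_rw [h1]
      rw [tsum_mul_left, poisson_Pois hA c, hsA, ← mul_assoc]
      congr 1
      field_simp
    have h4 := tail_Pois hA B
      (fun h : ℤ => Real.exp (-(π * (h : ℝ) ^ 2 / A)) * Real.cos (2 * π * (h * c))) fun h => by
        rw [abs_mul, abs_of_pos (Real.exp_pos _)]
        exact mul_le_of_le_one_right (Real.exp_pos _).le (Real.abs_cos_le_one _)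
    have h5 : og X Δ Γ n n' - rb X Δ Γ B n n' = X / √d * E *
        (∑' h : ℤ, Real.exp (-(π * (h : ℝ) ^ 2 / A)) * Real.cos (2 * π * (h * c)) -
          Real.exp (-(π * ((0 : ℤ) : ℝ) ^ 2 / A)) * Real.cos (2 * π * (((0 : ℤ) : ℝ) * c)) -
          ∑ h ∈ hs B, Real.exp (-(π * (h : ℝ) ^ 2 / A)) * Real.cos (2 * π * (h * c))) := by
      unfold og rb
      rw [h3, mul_sub, mul_sub, Finset.mul_sum, h2 0]
      congr 1
      · simp
      · refine Finset.sum_congr rfl fun h _ => ?_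
        rw [h2 h, ← hc]
        ring
    have h6 : 0 < X / √d * E := by positivity
    rw [h5, abs_mul, abs_of_pos h6, h2, ← hsA]
    push_cast at h4 ⊢
    have := mul_le_mul_of_nonneg_left h4 h6.le
    linarith

end Pool.Agent.MP_c853c5_nt.DS

end

section

set_option autoImplicit false
open Finset Filter Real
open scoped ComplexConjugate
namespace Pool.Agent.MP_c853c5_nt.DS
open Pool.Agent.MP_88bd62_nt.U (ex)

/-- the sum with one Gaussian -/
noncomputable def one_Sq (X Δ : ℝ) (D R : Finset ℕ) (b c : ℕ → ℝ) (m : ℤ) : ℝ :=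
  ∑ u ∈ D ×ˢ R, b u.1 * c u.2 * Z.gg Δ (m * ((u.1 : ℝ) * u.2) / X - 1)

lemma hasSum_Sq (hP : PoisStmt) {X Δ Γ : ℝ} {D R : Finset ℕ} (b c : ℕ → ℝ) (hX : 0 < X)
    (hΔ : 0 < Δ) (hΓ : 0 < Γ) (hD : 0 ∉ D) (hR : 0 ∉ R) :
    HasSum (fun m : ℤ => one_Sq X Δ D R b c m * one_Sq X Γ D R b c m)
      (QF D R b c (Th X Δ Γ)) := by
  have pos : ∀ u ∈ D ×ˢ R, (0 : ℝ) < (u.1 : ℝ) * u.2 := fun u hu => by
    have h1 : 0 < u.1 := Nat.pos_of_ne_zero fun e => hD (e ▸ (mem_product.1 hu).1)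
    have h2 : 0 < u.2 := Nat.pos_of_ne_zero fun e => hR (e ▸ (mem_product.1 hu).2)
    positivity
  simp only [one_Sq, sum_mul_sum, QF]
  refine hasSum_sum fun u hu => hasSum_sum fun v hv => ?_
  simp only [mul_mul_mul_comm (b u.1 * c u.2)]
  exact (hP X Δ Γ _ _ 0 hX hΔ hΓ (pos u hu) (pos v hv)).1.hasSum.mul_left _

theorem sq_stmt (hP : PoisStmt) : SqStmt := by
  intro X Δ Γ I D R b c hX hΔ hΓ hD hR
  have h : HasSum (fun m : ℤ => (one_Sq X Δ D R b c m - one_Sq X Γ D R b c m) ^ 2)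
      (QF D R b c (Th X Δ Δ) - 2 * QF D R b c (Th X Δ Γ) + QF D R b c (Th X Γ Γ)) := by
    have e : ∀ p q : ℝ, (p - q) ^ 2 = p * p - 2 * (p * q) + q * q := fun p q => by ring
    simp only [e]
    exact ((hasSum_Sq hP b c hX hΔ hΔ hD hR).sub
      ((hasSum_Sq hP b c hX hΔ hΓ hD hR).mul_left 2)).add (hasSum_Sq hP b c hX hΓ hΓ hD hR)
  refine le_trans (le_of_eq ?_)
    (sum_le_hasSum (I.map ⟨Nat.cast, Nat.cast_injective⟩) (fun m _ => sq_nonneg _) h)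
  rw [sum_map]
  refine sum_congr rfl fun m _ => ?_
  simp only [FL, one_Sq, mul_sub, sum_sub_distrib, Function.Embedding.coeFn_mk, Int.cast_natCast]

end Pool.Agent.MP_c853c5_nt.DS

end

section

/-! The frequency zero: transfer to the mean square of a Dirichlet polynomial. -/

set_option autoImplicit false

open Finset Filter Real
open scoped ComplexConjugate

namespace Pool.Agent.MP_c853c5_nt.DS

open Pool.Agent.MP_88bd62_nt.U (ex)

lemma sq_VTr {κ : Type} (U : Finset κ) (α l : κ → ℝ) (t : ℝ) :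
    ((‖∑ u ∈ U, (α u : ℂ) * Complex.exp (Complex.I * (t : ℂ) * (l u : ℂ))‖ ^ 2 : ℝ) : ℂ) =
      ∑ i ∈ U ×ˢ U, ((α i.1 * α i.2 : ℝ) : ℂ) *
        Complex.exp (Complex.I * (t : ℂ) * ((l i.2 - l i.1 : ℝ) : ℂ)) := by
  rw [Complex.ofReal_pow, ← Complex.conj_mul', map_sum, sum_mul_sum, sum_product]
  refine sum_congr rfl fun u _ => sum_congr rfl fun v _ => ?_
  rw [map_mul, ← Complex.exp_conj, mul_mul_mul_comm, ← Complex.exp_add]
  simp only [map_mul, Complex.conj_ofReal, Complex.conj_I]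
  push_cast
  congr 2
  ring

lemma prod_VTr {D R : Finset ℕ} (hD : 0 ∉ D) (hR : 0 ∉ R) (b c : ℕ → ℝ) (t : ℝ) :
    E.FP D b t * E.FP R c t = ∑ u ∈ D ×ˢ R, ((b u.1 * c u.2 : ℝ) : ℂ) *
      Complex.exp (Complex.I * (t : ℂ) * ((Real.log ((u.1 : ℝ) * u.2) : ℝ) : ℂ)) := by
  rw [E.FP, E.FP, sum_mul_sum, sum_product]
  refine sum_congr rfl fun k hk => sum_congr rfl fun p hp => ?_
  have k0 : (k : ℝ) ≠ 0 := Nat.cast_ne_zero.2 fun e => hD (e ▸ hk)
  have p0 : (p : ℝ) ≠ 0 := Nat.cast_ne_zero.2 fun e => hR (e ▸ hp)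
  rw [Real.log_mul k0 p0, MP_2a1f0e_nt.GM.pw, MP_2a1f0e_nt.GM.pw, mul_mul_mul_comm,
    ← Complex.exp_add]
  push_cast
  congr 2
  ring

lemma err_VTr {x Δ Γ s s' : ℝ} (hx : 1 < x) (hl : 32 ≤ Real.log x)
    (h1 : x ^ (-(1 / 2) : ℝ) ≤ Δ) (h2 : Γ ≤ x ^ (-(1 / 1000) : ℝ)) (h0 : 0 ≤ Γ) (h3 : Δ ≤ s)
    (h4 : s' ^ 2 ≤ 2 * Γ ^ 2) :
    s' ^ 2 * (x ^ (1 / 2000 : ℝ)) ^ 3 +
      Real.exp (-(s ^ 2 * (Real.log x / Δ) ^ 2 / (8 * π))) / s ≤ 3 * x ^ (-(1 / 2000) : ℝ) := by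
  have x0 : 0 < x := by linarith
  have d0 : 0 < Δ := lt_of_lt_of_le (by positivity) h1
  have s0 : 0 < s := d0.trans_le h3
  have e1 : s' ^ 2 * (x ^ (1 / 2000 : ℝ)) ^ 3 ≤ 2 * x ^ (-(1 / 2000) : ℝ) := by
    calc _ ≤ 2 * (x ^ (-(1 / 1000) : ℝ)) ^ 2 * (x ^ (1 / 2000 : ℝ)) ^ 3 := by
          refine mul_le_mul_of_nonneg_right (h4.trans ?_) (by positivity)
          gcongr
      _ = _ := by
          rw [← Real.rpow_natCast, ← Real.rpow_natCast, ← Real.rpow_mul x0.le,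
            ← Real.rpow_mul x0.le, mul_assoc, ← Real.rpow_add x0]
          norm_num
  have e2 : Real.log x ≤ s ^ 2 * (Real.log x / Δ) ^ 2 / (8 * π) := by
    have a1 : Real.log x ≤ s * (Real.log x / Δ) := by
      rw [mul_div_assoc', le_div_iff₀ d0]
      nlinarith
    have a2 : Real.log x ^ 2 ≤ (s * (Real.log x / Δ)) ^ 2 :=
      pow_le_pow_left₀ (by linarith) a1 2
    rw [le_div_iff₀ (by positivity), ← mul_pow]
    have := Real.pi_le_four
    nlinarith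
  have e3 : Real.exp (-(s ^ 2 * (Real.log x / Δ) ^ 2 / (8 * π))) ≤ x ^ (-1 : ℝ) := by
    rw [Real.rpow_def_of_pos x0]
    exact Real.exp_le_exp.2 (by linarith)
  have e4 : x ^ (-1 : ℝ) ≤ x ^ (-(1 / 2000) : ℝ) * s := by
    refine le_trans ?_ (mul_le_mul_of_nonneg_left (h1.trans h3) (by positivity))
    rw [← Real.rpow_add x0]
    exact Real.rpow_le_rpow_of_exponent_le hx.le (by norm_num)
  have e5 := (div_le_iff₀ s0).2 (e3.trans e4)
  linarith

theorem vTr_stmt (hT : E.TrStmt) : VTrStmt := by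
  obtain ⟨C, hC, hT⟩ := hT
  intro Λ hΛ
  filter_upwards [eventually_gt_atTop 1, E.ev_le_log 32,
    E.ev_const_le (6 * C * Λ ^ 2) (show (0 : ℝ) < 1 / 6000 by norm_num)] with x hx hl h6
  intro X Δ Γ W K P D b c ⟨_, h1, h2, h3, hK, hP, hD⟩ hb hc hW
  have x0 : 0 < x := by linarith
  have d0 : 0 < Δ := lt_of_lt_of_le (by positivity) h1
  have g0 : 0 < Γ := d0.trans_le h2
  have p1 : 1 ≤ P := by
    have := (Real.one_le_rpow hx.le (show (0 : ℝ) ≤ 1 / 400 by norm_num)).trans hP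
    exact_mod_cast this
  have D0 : 0 ∉ D := fun h => by
    have := (mem_Ico.1 (hD h)).1
    omega
  have R0 : 0 ∉ Icc P (Λ * P) := fun h => by
    have := (mem_Icc.1 h).1
    omega
  have hTT : x ^ (1 / 2000 : ℝ) ≤ Real.log x / Δ := by
    rw [le_div_iff₀ d0]
    calc _ ≤ x ^ (1 / 2000 : ℝ) * x ^ (-(1 / 1000) : ℝ) :=
          mul_le_mul_of_nonneg_left (h2.trans h3) (by positivity)
      _ ≤ 1 := by
          rw [← Real.rpow_add x0]
          exact Real.rpow_le_one_of_one_le_of_nonpos hx.le (by norm_num)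
      _ ≤ _ := by linarith
  set U := D ×ˢ Icc P (Λ * P) with hU
  have cU : U.card ≤ Λ * (K * P) := by
    have c1 : D.card ≤ K := (card_le_card hD).trans (by rw [Nat.card_Ico]; omega)
    have c2 : (Icc P (Λ * P)).card ≤ Λ * P := by
      rw [Nat.card_Icc]
      omega
    rw [hU, card_product]
    exact (Nat.mul_le_mul c1 c2).trans (le_of_eq (by ring))
  have hM : ∑ i ∈ U ×ˢ U, |b i.1.1 * c i.1.2 * (b i.2.1 * c i.2.2)| ≤
      ((Λ : ℝ) * (K * P)) ^ 2 := by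
    refine (sum_le_card_nsmul _ _ 1 fun i _ => ?_).trans ?_
    · rw [abs_mul, abs_mul, abs_mul]
      exact mul_le_one₀ (mul_le_one₀ (hb _) (abs_nonneg _) (hc _)) (by positivity)
        (mul_le_one₀ (hb _) (abs_nonneg _) (hc _))
    · rw [nsmul_eq_mul, mul_one, card_product, sq]
      exact_mod_cast Nat.mul_le_mul cU cU
  have key : ∀ s s' : ℝ, Δ ≤ s → s ≤ s' → s' ^ 2 ≤ 2 * Γ ^ 2 →
      |∑ i ∈ U ×ˢ U, b i.1.1 * c i.1.2 * (b i.2.1 * c i.2.2) * E.dg 0 s s'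
        (Real.log ((i.2.1 : ℝ) * i.2.2) - Real.log ((i.1.1 : ℝ) * i.1.2))| ≤
        W + C * ((Λ : ℝ) * (K * P)) ^ 2 * (3 * x ^ (-(1 / 2000) : ℝ)) := by
    intro s s' k1 k2 k3
    refine (hT _ (U ×ˢ U) _ _ (fun t => ((‖E.FP D b t * E.FP (Icc P (Λ * P)) c t‖ ^ 2 : ℝ) : ℂ))
      0 s s' _ _ _ W (d0.trans_le k1) k2 (by positivity) hTT hM (fun t => ?_) ?_).trans ?_
    · rw [prod_VTr D0 R0, sq_VTr]
    · simpa only [Complex.norm_real, norm_mul, mul_pow, norm_pow, norm_norm] using hW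
    · exact add_le_add le_rfl
        (mul_le_mul_of_nonneg_left (err_VTr hx hl h1 h3 g0.le k1 k3) (by positivity))
  have q : Δ ^ 2 ≤ Γ ^ 2 := pow_le_pow_left₀ d0.le h2 2
  have s1 : Δ ≤ √(Δ ^ 2 + Δ ^ 2) := Real.le_sqrt_of_sq_le (by nlinarith)
  have s2 : √(Δ ^ 2 + Δ ^ 2) ≤ √(Δ ^ 2 + Γ ^ 2) := Real.sqrt_le_sqrt (by linarith)
  have s3 : √(Δ ^ 2 + Γ ^ 2) ≤ √(Γ ^ 2 + Γ ^ 2) := Real.sqrt_le_sqrt (by linarith)
  have k1 := key _ _ s1 s2 (by rw [Real.sq_sqrt (by positivity)]; linarith)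
  have k2 := key _ _ (s1.trans s2) s3 (by rw [Real.sq_sqrt (by positivity)]; linarith)
  have k3 := (abs_sub _ _).trans (add_le_add k1 k2)
  rw [← sum_sub_distrib] at k3
  have k4 : 6 * C * Λ ^ 2 * x ^ (-(1 / 2000) : ℝ) ≤ x ^ (-(1 / 3000) : ℝ) := by
    refine (mul_le_mul_of_nonneg_right h6 (by positivity)).trans (le_of_eq ?_)
    rw [← Real.rpow_add x0]
    norm_num
  have k5 := mul_le_mul_of_nonneg_left k4 (sq_nonneg ((K : ℝ) * P))
  refine le_trans (le_of_eq ?_) (k3.trans (by linarith))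
  rw [QF, ← hU, sum_product U U]
  congr 1
  refine sum_congr rfl fun u _ => sum_congr rfl fun v _ => ?_
  simp only [E.dg, zero_sub, neg_sub]
  ring

end Pool.Agent.MP_c853c5_nt.DS

end

section

set_option autoImplicit false

open Finset Filter Real MeasureTheory

namespace Pool.Agent.MP_c853c5_nt.DU

lemma half_AmU {A : ℝ} (hA : 0 < A) (c : ℝ) (R : Finset ℕ) (g : ℕ → ℕ) (hg : Set.InjOn g R)
    (h : ∀ p ∈ R, (g p : ℝ) ≤ |(p : ℝ) - c|) :
    ∑ p ∈ R, Real.exp (-(π * ((p : ℝ) - c) ^ 2 / A)) ≤ 1 + 2 * √A := by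
  have hs : Summable fun j : ℕ => Real.exp (-(π * (j : ℝ) ^ 2 / A)) := by
    have := (DS.summ0_Pois hA).comp_injective (Nat.cast_injective (R := ℤ))
    simpa [Function.comp_def] using this
  refine le_trans ?_ (DS.gtsum_Pois hA)
  refine le_trans ?_ (hs.sum_le_tsum (R.image g) fun _ _ => (Real.exp_pos _).le)
  rw [sum_image hg]
  refine sum_le_sum fun p hp => Real.exp_le_exp.2 (neg_le_neg ?_)
  have h1 : (g p : ℝ) ^ 2 ≤ ((p : ℝ) - c) ^ 2 := by
    rw [← sq_abs ((p : ℝ) - c)]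
    exact pow_le_pow_left₀ (Nat.cast_nonneg _) (h p hp) 2
  have := pi_pos
  gcongr

lemma isum_AmU {A : ℝ} (hA : 0 < A) {c : ℝ} (hc : 0 ≤ c) (R : Finset ℕ) :
    ∑ p ∈ R, Real.exp (-(π * ((p : ℝ) - c) ^ 2 / A)) ≤ 2 + 4 * √A := by
  rw [← sum_filter_add_sum_filter_not R fun p => ⌈c⌉₊ ≤ p]
  have h1 := half_AmU hA c (R.filter fun p => ⌈c⌉₊ ≤ p) (fun p => p - ⌈c⌉₊)
    (fun p hp q hq e => by
      have a := (mem_filter.1 hp).2
      have b := (mem_filter.1 hq).2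
      exact (Nat.sub_add_cancel a).symm.trans ((congrArg (· + ⌈c⌉₊) e).trans
        (Nat.sub_add_cancel b)))
    fun p hp => by
      rw [Nat.cast_sub (mem_filter.1 hp).2]
      exact le_trans (sub_le_sub_left (Nat.le_ceil c) _) (le_abs_self _)
  have h2 := half_AmU hA c (R.filter fun p => ¬⌈c⌉₊ ≤ p) (fun p => ⌈c⌉₊ - (p + 1))
    (fun p hp q hq e => by
      have a := not_le.1 (mem_filter.1 hp).2
      have b := not_le.1 (mem_filter.1 hq).2
      exact Nat.succ_injective (tsub_right_inj a b |>.1 e))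
    fun p hp => by
      rw [Nat.cast_sub (not_le.1 (mem_filter.1 hp).2), abs_sub_comm]
      refine le_trans ?_ (le_abs_self _)
      push_cast
      linarith [Nat.ceil_lt_add_one hc]
  linarith

lemma tail_AmU {Δ : ℝ} (h : 0 < Δ) : Real.exp (-(π * (1 / 4) / Δ ^ 2)) ≤ 4 * Δ ^ 4 := by
  have h0 : 0 < π * (1 / 4) / Δ ^ 2 := by have := pi_pos; positivity
  have h1 := Real.pow_div_factorial_le_exp _ h0.le 2
  rw [Real.exp_neg, inv_le_comm₀ (Real.exp_pos _) (by positivity)]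
  refine le_trans ?_ h1
  have h2 : (π * (1 / 4) / Δ ^ 2) ^ 2 / (Nat.factorial 2 : ℕ) = π ^ 2 / 8 * (4 * Δ ^ 4)⁻¹ := by
    rw [Nat.factorial_two]
    push_cast
    field_simp
    ring
  rw [h2]
  refine le_mul_of_one_le_left (by positivity) ?_
  nlinarith [pi_gt_three]

/-- the sum of the Gaussians -/
noncomputable def sm_AmU (Δ : ℝ) (R : Finset ℕ) (y : ℝ) (a : ℕ) : ℝ :=
  ∑ p ∈ R, Real.exp (-(π * (y * p / a - 1) ^ 2 / Δ ^ 2))

variable {Δ : ℝ} {K P Λ a : ℕ}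

lemma far_AmU (hΔ : 0 < Δ) (hP : 1 ≤ P) (hs : Λ * P * Δ ^ 4 ≤ 1) {y t : ℝ}
    (h : ∀ p ∈ Icc P (Λ * P), t + 1 / 4 / Δ ^ 2 ≤ (y * p / a - 1) ^ 2 / Δ ^ 2) :
    sm_AmU Δ (Icc P (Λ * P)) y a ≤ 4 * Real.exp (-(π * t)) := by
  have h1 : ∀ p ∈ Icc P (Λ * P), Real.exp (-(π * (y * p / a - 1) ^ 2 / Δ ^ 2)) ≤
      4 * Δ ^ 4 * Real.exp (-(π * t)) := fun p hp => by
    refine le_trans ?_ (mul_le_mul_of_nonneg_right (tail_AmU hΔ) (Real.exp_pos _).le)
    rw [← Real.exp_add, Real.exp_le_exp, mul_div_assoc π, mul_div_assoc π]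
    nlinarith [mul_le_mul_of_nonneg_left (h p hp) pi_pos.le]
  refine (sum_le_card_nsmul _ _ _ h1).trans ?_
  have h2 : ((Icc P (Λ * P)).card : ℝ) ≤ Λ * P := by exact_mod_cast DS.card_Icc_le hP
  rw [nsmul_eq_mul, ← mul_assoc]
  refine mul_le_mul_of_nonneg_right ?_ (Real.exp_pos _).le
  nlinarith [mul_le_mul_of_nonneg_right h2 (pow_pos hΔ 4).le]

lemma sup_AmU (hΔ : 0 < Δ) (hP : 1 ≤ P) (hΛ : 1 ≤ Λ) (ha : 1 ≤ a) (hs : Λ * P * Δ ^ 4 ≤ 1)
    (y : ℝ) : sm_AmU Δ (Icc P (Λ * P)) y a ≤ 8 * Λ * (1 + P * Δ) := by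
  have ha0 : (0 : ℝ) < a := by exact_mod_cast ha
  have hP1 : (1 : ℝ) ≤ P := by exact_mod_cast hP
  have hΛ1 : (1 : ℝ) ≤ Λ := by exact_mod_cast hΛ
  have hPΔ : 0 < P * Δ := by positivity
  rcases lt_or_ge (y * (Λ * P)) (a / 2) with h | h
  · have := far_AmU (a := a) (y := y) (t := 0) hΔ hP hs fun p hp => by
      have h1 : (p : ℝ) ≤ Λ * P := by exact_mod_cast (mem_Icc.1 hp).2
      have h2 : y * p / a ≤ 1 / 2 := by
        rw [div_le_iff₀ ha0]
        rcases le_total 0 y with hy | hy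
        · linarith [mul_le_mul_of_nonneg_left h1 hy]
        · linarith [mul_nonpos_of_nonpos_of_nonneg hy (Nat.cast_nonneg (α := ℝ) p)]
      rw [zero_add]
      gcongr
      nlinarith
    rw [mul_zero, neg_zero, Real.exp_zero] at this
    nlinarith
  · have hy : 0 < y :=
      (mul_pos_iff_of_pos_right (by positivity : (0 : ℝ) < Λ * P)).1 (by linarith)
    have h1 := isum_AmU (A := (a * Δ / y) ^ 2) (by positivity) (c := a / y) (by positivity)
      (Icc P (Λ * P))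
    rw [Real.sqrt_sq (by positivity)] at h1
    have h2 : a * Δ / y ≤ 2 * (Λ * P) * Δ := by
      rw [div_le_iff₀ hy]
      nlinarith
    refine le_trans (le_of_eq (sum_congr rfl fun p _ => ?_)) (h1.trans (by nlinarith))
    congr 2
    field_simp

lemma gau_AmU (hΔ : 0 < Δ) (hΔ2 : Δ ≤ 1 / 2) (hK : 1 ≤ K) (hP : 1 ≤ P) (hΛ : 1 ≤ Λ) (h1 : K ≤ a)
    (h2 : a < 2 * K) (hs : Λ * P * Δ ^ 4 ≤ 1) (y : ℝ) :
    sm_AmU Δ (Icc P (Λ * P)) y a ≤
      8 * Real.exp π * Λ * (1 + P * Δ) * Real.exp (-(π * y ^ 2 / (4 * K / P) ^ 2)) := by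
  have ha0 : (0 : ℝ) < a := by exact_mod_cast hK.trans h1
  have hK0 : (0 : ℝ) < K := by exact_mod_cast hK
  have hP0 : (0 : ℝ) < P := by exact_mod_cast hP
  have hΛ1 : (1 : ℝ) ≤ Λ := by exact_mod_cast hΛ
  have ha2 : (a : ℝ) ≤ 2 * K := by exact_mod_cast h2.le
  have e : y ^ 2 / (4 * K / P) ^ 2 = (|y| * P / (4 * K)) ^ 2 := by
    rw [div_pow (|y| * P), mul_pow, sq_abs]
    field_simp
  rw [mul_div_assoc, e]
  have hz0 : 0 ≤ |y| * P / (4 * K) := by positivity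
  have hz1 : ∀ p ∈ Icc P (Λ * P), 2 * (|y| * P / (4 * K)) - 1 ≤ |y * p / a - 1| := fun p hp => by
    have a1 : (P : ℝ) ≤ p := by exact_mod_cast (mem_Icc.1 hp).1
    have a2 := abs_sub_abs_le_abs_sub (y * p / a) 1
    rw [abs_one, abs_div, abs_mul, Nat.abs_cast, Nat.abs_cast] at a2
    have a3 : |y| * P / (2 * K) ≤ |y| * p / a := by gcongr
    have a4 : 2 * (|y| * P / (4 * K)) = |y| * P / (2 * K) := by
      field_simp
      ring
    linarith
  generalize |y| * P / (4 * K) = z at hz0 hz1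
  have hE : 1 ≤ Real.exp π := Real.one_le_exp pi_pos.le
  have hPΔ : 0 < P * Δ := by positivity
  rcases le_total z 1 with h | h
  · refine (sup_AmU hΔ hP hΛ (hK.trans h1) hs y).trans ?_
    have a1 : 1 ≤ Real.exp π * Real.exp (-(π * z ^ 2)) := by
      rw [← Real.exp_add]
      refine Real.one_le_exp ?_
      nlinarith [pi_pos, pow_le_one₀ (n := 2) hz0 h]
    have a2 : 0 ≤ 8 * (Λ : ℝ) * (1 + P * Δ) := by positivity
    nlinarith
  · refine (far_AmU (t := z ^ 2) hΔ hP hs fun p hp => ?_).trans ?_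
    · have a1 : z ^ 2 ≤ (y * p / a - 1) ^ 2 := by
        rw [← sq_abs (y * p / a - 1)]
        exact pow_le_pow_left₀ hz0 (by linarith [hz1 p hp]) 2
      have a2 : Δ ^ 2 ≤ 1 / 4 := by nlinarith
      have a3 : 1 ≤ z ^ 2 := one_le_pow₀ h
      have a4 : 0 < Δ ^ 2 := by positivity
      rw [add_div' _ _ _ a4.ne']
      refine div_le_div_of_nonneg_right ?_ a4.le
      nlinarith
    · refine mul_le_mul_of_nonneg_right ?_ (Real.exp_pos _).le
      have a1 : 1 ≤ Real.exp π * Λ := one_le_mul_of_one_le_of_one_le hE hΛ1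
      nlinarith

lemma abs_AmU (hΔ : 0 < Δ) (R : Finset ℕ) {α : ℕ × ℕ → ℝ} (hα : ∀ u, |α u| ≤ 1) (y : ℝ) :
    |Am Δ R α y a| ≤ (a : ℝ)⁻¹ * ∑ p ∈ R, Z.gg Δ (y * p / a - 1) := by
  rw [Am, abs_mul, abs_inv, Nat.abs_cast]
  refine mul_le_mul_of_nonneg_left ((abs_sum_le_sum_abs _ _).trans (sum_le_sum fun p _ => ?_))
    (by positivity)
  rw [abs_mul, abs_of_nonneg (DS.gg_nonneg_Conv hΔ _)]
  exact mul_le_of_le_one_left (DS.gg_nonneg_Conv hΔ _) (hα _)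

lemma abs2_AmU (hΔ : 0 < Δ) (hK : 1 ≤ K) (h1 : K ≤ a) (R : Finset ℕ) {α : ℕ × ℕ → ℝ}
    (hα : ∀ u, |α u| ≤ 1) (y : ℝ) : |Am Δ R α y a| ≤ sm_AmU Δ R y a / (K * Δ) := by
  have hK0 : (0 : ℝ) < K := by exact_mod_cast hK
  have hKa : (K : ℝ) ≤ a := by exact_mod_cast h1
  refine (abs_AmU hΔ R hα y).trans ?_
  simp only [Z.gg, ← mul_sum]
  rw [← mul_assoc, ← mul_inv, inv_mul_eq_div, sm_AmU]
  gcongr

lemma int_AmU (hΔ : 0 < Δ) (ha : 1 ≤ a) {p : ℕ} (hp : 1 ≤ p) :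
    (Integrable fun y : ℝ => Z.gg Δ (y * p / a - 1)) ∧ ∫ y : ℝ, Z.gg Δ (y * p / a - 1) = a / p := by
  have ha0 : (0 : ℝ) < a := by exact_mod_cast ha
  have hp0 : (0 : ℝ) < p := by exact_mod_cast hp
  simp only [mul_div_assoc]
  refine ⟨((DS.gg_int_Conv hΔ).1.comp_sub_right 1).comp_mul_right' (by positivity), ?_⟩
  rw [Measure.integral_comp_mul_right (fun x => Z.gg Δ (x - 1)), integral_sub_right_eq_self,
    (DS.gg_int_Conv hΔ).2, inv_div, abs_of_pos (by positivity), smul_eq_mul, mul_one]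

theorem am_stmt : AmStmt := by
  refine ⟨8 * Real.exp π, by positivity, fun Δ K P Λ a α hΔ hΔ2 hK hP hΛ h1 h2 hs hα => ?_⟩
  have ha := hK.trans h1
  have ha0 : (0 : ℝ) < a := by exact_mod_cast ha
  have hK0 : (0 : ℝ) < K := by exact_mod_cast hK
  have hP0 : (0 : ℝ) < P := by exact_mod_cast hP
  have hi := fun p (hp : p ∈ Icc P (Λ * P)) => int_AmU hΔ ha (hP.trans (mem_Icc.1 hp).1)
  have hI : Integrable fun y : ℝ => 8 * Λ * (1 + P * Δ) / (K * Δ) *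
      ((a : ℝ)⁻¹ * ∑ p ∈ Icc P (Λ * P), Z.gg Δ (y * p / a - 1)) :=
    ((integrable_finsetSum _ fun p hp => (hi p hp).1).const_mul _).const_mul _
  have hb : ∀ y, Am Δ (Icc P (Λ * P)) α y a ^ 2 ≤ 8 * Λ * (1 + P * Δ) / (K * Δ) *
      ((a : ℝ)⁻¹ * ∑ p ∈ Icc P (Λ * P), Z.gg Δ (y * p / a - 1)) := fun y => by
    rw [← sq_abs, sq]
    refine mul_le_mul ((abs2_AmU hΔ hK h1 _ hα y).trans ?_) (abs_AmU hΔ _ hα y) (abs_nonneg _)
      (by positivity)
    exact div_le_div_of_nonneg_right (sup_AmU hΔ hP hΛ ha hs y) (by positivity)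
  have hc : Continuous fun y => Am Δ (Icc P (Λ * P)) α y a ^ 2 := by
    unfold Am Z.gg
    fun_prop
  have hJ : Integrable fun y => Am Δ (Icc P (Λ * P)) α y a ^ 2 :=
    hI.mono' hc.aestronglyMeasurable (Eventually.of_forall fun y => by
      rw [Real.norm_of_nonneg (sq_nonneg _)]
      exact hb y)
  refine ⟨fun y => (abs2_AmU hΔ hK h1 _ hα y).trans ?_, hJ, (integral_mono hJ hI hb).trans ?_⟩
  · rw [div_mul_eq_mul_div]
    exact div_le_div_of_nonneg_right (gau_AmU hΔ hΔ2 hK hP hΛ h1 h2 hs y) (by positivity)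
  · rw [integral_const_mul, integral_const_mul, integral_finsetSum _ fun p hp => (hi p hp).1]
    have a1 : ∑ p ∈ Icc P (Λ * P), ∫ y : ℝ, Z.gg Δ (y * p / a - 1) ≤ a * Λ := by
      refine (sum_le_card_nsmul _ _ (a / P : ℝ) fun p hp => ?_).trans ?_
      · have : (P : ℝ) ≤ p := by exact_mod_cast (mem_Icc.1 hp).1
        rw [(hi p hp).2]
        gcongr
      · have : ((Icc P (Λ * P)).card : ℝ) ≤ Λ * P := by exact_mod_cast DS.card_Icc_le hP
        rw [nsmul_eq_mul, ← mul_div_assoc, div_le_iff₀ hP0]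
        nlinarith
    have a2 : (a : ℝ)⁻¹ * ∑ p ∈ Icc P (Λ * P), ∫ y : ℝ, Z.gg Δ (y * p / a - 1) ≤ Λ :=
      (inv_mul_le_iff₀ ha0).2 a1
    refine (mul_le_mul_of_nonneg_left a2 (by positivity)).trans ?_
    rw [div_mul_eq_mul_div]
    refine div_le_div_of_nonneg_right ?_ (by positivity)
    have a3 : 1 ≤ Real.exp π := Real.one_le_exp pi_pos.le
    have a4 : 0 ≤ 8 * (Λ : ℝ) ^ 2 * (1 + P * Δ) := by positivity
    nlinarith

end Pool.Agent.MP_c853c5_nt.DU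

end

section

/-!
The mean value theorem for Dirichlet polynomials, by a Gaussian majorant.
-/

set_option autoImplicit false

open Finset Filter Real MeasureTheory

namespace Pool.Agent.MP_c853c5_nt.DV

lemma geo_MvV (S : Finset ℕ) (g : ℕ → ℕ) (hg : Set.InjOn g S) :
    ∑ m ∈ S, (1 / 2 : ℝ) ^ g m ≤ 2 := by
  classical
  rw [← Finset.sum_image (f := fun k : ℕ => (1 / 2 : ℝ) ^ k) hg]
  calc ∑ k ∈ S.image g, (1 / 2 : ℝ) ^ k ≤ ∑' k : ℕ, (1 / 2 : ℝ) ^ k :=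
        summable_geometric_two.sum_le_tsum _ fun k _ => by positivity
    _ = 2 := tsum_geometric_two

lemma log_MvV {a b U : ℝ} (ha : 0 < a) (hab : a ≤ b) (hb : b ≤ U) :
    b - a ≤ (Real.log b - Real.log a) * U := by
  have hb0 : 0 < b := lt_of_lt_of_le ha hab
  have h1 : Real.log (a / b) ≤ a / b - 1 := Real.log_le_sub_one_of_pos (by positivity)
  rw [Real.log_div ha.ne' hb0.ne'] at h1
  have h2 : 0 ≤ Real.log b - Real.log a := sub_nonneg.2 (Real.log_le_log ha hab)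
  have h3 : b - a ≤ (Real.log b - Real.log a) * b := by
    have : a / b * b = a := div_mul_cancel₀ a hb0.ne'
    nlinarith
  exact h3.trans (mul_le_mul_of_nonneg_left hb h2)

lemma gg_MvV {U z : ℝ} (hU : 0 < U) (k : ℕ) (h : (k : ℝ) ^ 2 ≤ z ^ 2 * U ^ 2) :
    Z.gg U⁻¹ z ≤ U * (1 / 2 : ℝ) ^ k := by
  unfold Z.gg
  rw [inv_inv]
  refine mul_le_mul_of_nonneg_left ?_ hU.le
  have e : Real.pi * z ^ 2 / U⁻¹ ^ 2 = Real.pi * (z ^ 2 * U ^ 2) := by
    field_simp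
  have hk : (k : ℝ) ≤ (k : ℝ) ^ 2 := by exact_mod_cast Nat.le_self_pow two_ne_zero k
  have hk0 : (0 : ℝ) ≤ k := Nat.cast_nonneg k
  have h1 : (k : ℝ) ≤ Real.pi * (z ^ 2 * U ^ 2) := by
    nlinarith [Real.pi_gt_three]
  have h2 : Real.exp (-1) ≤ 1 / 2 := by
    rw [Real.exp_neg, one_div]
    exact inv_anti₀ (by norm_num) (by linarith [Real.add_one_le_exp (1 : ℝ)])
  rw [e]
  calc Real.exp (-(Real.pi * (z ^ 2 * U ^ 2))) ≤ Real.exp (k * (-1)) :=
        Real.exp_le_exp.2 (by linarith)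
    _ = Real.exp (-1) ^ k := Real.exp_nat_mul _ _
    _ ≤ (1 / 2) ^ k := pow_le_pow_left₀ (Real.exp_pos _).le h2 k

lemma gg_neg_MvV (d z : ℝ) : Z.gg d (-z) = Z.gg d z := by
  unfold Z.gg
  rw [neg_sq]

lemma pair_MvV {U : ℝ} {Y n m : ℕ} (hY : (Y : ℝ) ≤ U) (hn : 1 ≤ n) (hnm : n ≤ m) (hm : m ≤ Y) :
    Z.gg U⁻¹ (Real.log m - Real.log n) ≤ U * (1 / 2 : ℝ) ^ (m - n) := by
  have hn0 : (0 : ℝ) < n := by exact_mod_cast hn
  have hnm' : (n : ℝ) ≤ m := by exact_mod_cast hnm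
  have hm' : (m : ℝ) ≤ U := le_trans (by exact_mod_cast hm) hY
  have hU : 0 < U := by linarith
  refine gg_MvV hU _ ?_
  rw [Nat.cast_sub hnm, ← mul_pow]
  exact pow_le_pow_left₀ (by linarith) (log_MvV hn0 hnm' hm') 2

lemma row_MvV {U : ℝ} {Y n : ℕ} {R : Finset ℕ} (hY : (Y : ℝ) ≤ U) (hR : R ⊆ Icc 1 Y)
    (hn : n ∈ R) : ∑ m ∈ R, Z.gg U⁻¹ (Real.log m - Real.log n) ≤ 4 * U := by
  have hn' := Finset.mem_Icc.1 (hR hn)
  have hU : 0 ≤ U := le_trans (Nat.cast_nonneg Y) hY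
  rw [← Finset.sum_filter_add_sum_filter_not R (fun m => n ≤ m)]
  have h1 : ∑ m ∈ R.filter (fun m => n ≤ m), Z.gg U⁻¹ (Real.log m - Real.log n) ≤ U * 2 := by
    calc _ ≤ ∑ m ∈ R.filter (fun m => n ≤ m), U * (1 / 2 : ℝ) ^ (m - n) := by
          refine Finset.sum_le_sum fun m hm => ?_
          have hm' := Finset.mem_filter.1 hm
          exact pair_MvV hY hn'.1 hm'.2 (Finset.mem_Icc.1 (hR hm'.1)).2
      _ ≤ U * 2 := by
          rw [← Finset.mul_sum]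
          refine mul_le_mul_of_nonneg_left (geo_MvV _ (fun m => m - n) ?_) hU
          intro a ha b hb hab
          have ha' := (Finset.mem_filter.1 (Finset.mem_coe.1 ha)).2
          have hb' := (Finset.mem_filter.1 (Finset.mem_coe.1 hb)).2
          simp only at hab
          omega
  have h2 : ∑ m ∈ R.filter (fun m => ¬ n ≤ m), Z.gg U⁻¹ (Real.log m - Real.log n) ≤ U * 2 := by
    calc _ ≤ ∑ m ∈ R.filter (fun m => ¬ n ≤ m), U * (1 / 2 : ℝ) ^ (n - m) := by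
          refine Finset.sum_le_sum fun m hm => ?_
          have hm' := Finset.mem_filter.1 hm
          rw [← gg_neg_MvV, neg_sub]
          exact pair_MvV hY (Finset.mem_Icc.1 (hR hm'.1)).1 (le_of_not_ge hm'.2) hn'.2
      _ ≤ U * 2 := by
          rw [← Finset.mul_sum]
          refine mul_le_mul_of_nonneg_left (geo_MvV _ (fun m => n - m) ?_) hU
          intro a ha b hb hab
          have ha' := (Finset.mem_filter.1 (Finset.mem_coe.1 ha)).2
          have hb' := (Finset.mem_filter.1 (Finset.mem_coe.1 hb)).2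
          simp only at hab
          omega
  linarith

lemma form_MvV {U : ℝ} {Y : ℕ} {R : Finset ℕ} (c : ℕ → ℝ) (hU : 0 < U) (hY : (Y : ℝ) ≤ U)
    (hR : R ⊆ Icc 1 Y) :
    ∑ i ∈ R ×ˢ R, c i.1 * c i.2 * Z.gg U⁻¹ (Real.log i.2 - Real.log i.1) ≤
      4 * U * ∑ n ∈ R, c n ^ 2 := by
  have h0 : ∀ z, 0 ≤ Z.gg U⁻¹ z := fun z => by unfold Z.gg; positivity
  have hrow : ∑ n ∈ R, ∑ m ∈ R, c n ^ 2 * Z.gg U⁻¹ (Real.log m - Real.log n) ≤
      4 * U * ∑ n ∈ R, c n ^ 2 := by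
    rw [Finset.mul_sum]
    refine Finset.sum_le_sum fun n hn => ?_
    rw [← Finset.mul_sum, mul_comm (4 * U)]
    exact mul_le_mul_of_nonneg_left (row_MvV hY hR hn) (sq_nonneg _)
  have hcol : ∑ n ∈ R, ∑ m ∈ R, c m ^ 2 * Z.gg U⁻¹ (Real.log m - Real.log n) ≤
      4 * U * ∑ n ∈ R, c n ^ 2 := by
    rw [Finset.sum_comm]
    refine le_trans (le_of_eq ?_) hrow
    refine Finset.sum_congr rfl fun n _ => Finset.sum_congr rfl fun m _ => ?_
    rw [← gg_neg_MvV, neg_sub]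
  have h : ∑ i ∈ R ×ˢ R, c i.1 * c i.2 * Z.gg U⁻¹ (Real.log i.2 - Real.log i.1) ≤
      (∑ n ∈ R, ∑ m ∈ R, c n ^ 2 * Z.gg U⁻¹ (Real.log m - Real.log n) +
        ∑ n ∈ R, ∑ m ∈ R, c m ^ 2 * Z.gg U⁻¹ (Real.log m - Real.log n)) / 2 := by
    rw [Finset.sum_product, ← Finset.sum_add_distrib, Finset.sum_div]
    refine Finset.sum_le_sum fun n _ => ?_
    rw [← Finset.sum_add_distrib, Finset.sum_div]
    refine Finset.sum_le_sum fun m _ => ?_
    have := mul_nonneg (sq_nonneg (c n - c m)) (h0 (Real.log m - Real.log n))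
    nlinarith
  linarith

lemma full_MvV {d : ℝ} (hd : 0 < d) (R : Finset ℕ) (c : ℕ → ℝ) :
    Integrable (fun t => ‖E.FP R c t‖ ^ 2 * E.EE_Tr d t) ∧
      ∫ t, ‖E.FP R c t‖ ^ 2 * E.EE_Tr d t =
        2 * π * ∑ i ∈ R ×ˢ R, c i.1 * c i.2 * Z.gg d (Real.log i.2 - Real.log i.1) := by
  have e : ∀ t : ℝ, ((‖E.FP R c t‖ ^ 2 * E.EE_Tr d t : ℝ) : ℂ) =
      ∑ i ∈ R ×ˢ R, ((c i.1 * c i.2 : ℝ) : ℂ) * (Complex.exp (Complex.I * (t : ℂ) *
        ((Real.log i.2 - Real.log i.1 : ℝ) : ℂ)) * (E.EE_Tr d t : ℂ)) := by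
    intro t
    have := DS.sq_VTr R c (fun n => Real.log n) t
    rw [Complex.ofReal_mul]
    refine (congrArg (· * (E.EE_Tr d t : ℂ)) this).trans ?_
    simp only [Finset.sum_mul, mul_assoc]
  have hi : ∀ i ∈ R ×ˢ R, Integrable fun t : ℝ => ((c i.1 * c i.2 : ℝ) : ℂ) *
      (Complex.exp (Complex.I * (t : ℂ) * ((Real.log i.2 - Real.log i.1 : ℝ) : ℂ)) *
        (E.EE_Tr d t : ℂ)) := fun i _ => (E.int_Tr hd _).const_mul _
  constructor
  · have h := (integrable_finsetSum _ hi).re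
    refine h.congr (Filter.Eventually.of_forall fun t => ?_)
    simp only [← e t]
    exact Complex.ofReal_re _
  · apply Complex.ofReal_injective
    rw [← integral_complex_ofReal]
    simp only [e]
    rw [integral_finsetSum _ hi]
    push_cast
    rw [Finset.mul_sum]
    refine Finset.sum_congr rfl fun i _ => ?_
    have := E.val_Tr hd (Real.log i.2 - Real.log i.1)
    rw [gg_neg_MvV] at this
    push_cast at this
    rw [integral_const_mul, this]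
    ring

theorem mv_stmt : MvStmt := by
  refine ⟨16 * π, by positivity, fun R c Y T₀ T h0 hT hR => ?_⟩
  have hS : 0 ≤ ∑ n ∈ R, c n ^ 2 := Finset.sum_nonneg fun n _ => sq_nonneg _
  rcases Nat.eq_zero_or_pos Y with rfl | hY
  · have : R = ∅ := by simpa using hR
    subst this
    simp [E.FP]
  have hY' : (1 : ℝ) ≤ Y := by exact_mod_cast hY
  have hT0 : 0 ≤ T := h0.trans hT
  obtain ⟨U, hU⟩ : ∃ U : ℝ, U = T + Y := ⟨_, rfl⟩
  have hU0 : 0 < U := by linarith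
  obtain ⟨hi, hv⟩ := full_MvV (inv_pos.2 hU0) R c
  have hc : Continuous fun t => ‖E.FP R c t‖ ^ 2 := by
    unfold E.FP Pool.Agent.MP_2a1f0e_nt.GM.pw
    fun_prop
  have h1 : ∫ t in T₀..T, ‖E.FP R c t‖ ^ 2 ≤
      ∫ t in T₀..T, 2 * (‖E.FP R c t‖ ^ 2 * E.EE_Tr U⁻¹ t) := by
    refine intervalIntegral.integral_mono_on hT (hc.intervalIntegrable _ _)
      (hi.const_mul 2).intervalIntegrable fun t ht => ?_
    have h2 := E.EE_low_Tr U⁻¹ t
    have h3 : U⁻¹ ^ 2 / (4 * π) * t ^ 2 ≤ 1 / 2 := by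
      have ht0 : 0 ≤ t := h0.trans ht.1
      have htU : t ≤ U := by linarith [ht.2]
      have h4 : (t / U) ^ 2 ≤ 1 := pow_le_one₀ (by positivity) ((div_le_one hU0).2 htU)
      have e : U⁻¹ ^ 2 / (4 * π) * t ^ 2 = (t / U) ^ 2 / (4 * π) := by
        field_simp
      rw [e, div_le_iff₀ (by positivity)]
      nlinarith [Real.pi_gt_three]
    nlinarith [sq_nonneg ‖E.FP R c t‖]
  have h2 : ∫ t in T₀..T, 2 * (‖E.FP R c t‖ ^ 2 * E.EE_Tr U⁻¹ t) ≤
      ∫ t, 2 * (‖E.FP R c t‖ ^ 2 * E.EE_Tr U⁻¹ t) := by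
    rw [intervalIntegral.integral_of_le hT]
    refine setIntegral_le_integral (hi.const_mul 2) (Filter.Eventually.of_forall fun t => ?_)
    have := (E.EE_pos_Tr U⁻¹ t).le
    positivity
  rw [integral_const_mul, hv] at h2
  have h3 := form_MvV c hU0 (by linarith : (Y : ℝ) ≤ U) hR
  have h4 := mul_le_mul_of_nonneg_left h3 (by positivity : 0 ≤ 4 * π)
  rw [← hU]
  linarith

end Pool.Agent.MP_c853c5_nt.DV

end

section

/-! The Plancherel formula for sums of differences of Gaussians. -/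

set_option autoImplicit false

namespace Pool.Agent.MP_c853c5_nt.DV

open Finset Filter Real MeasureTheory

/-- the integral of `g` is `2 π` times the integral of `f` -/
def R_PlanV (f : ℝ → ℝ) (g : ℝ → ℂ) : Prop :=
  Integrable f ∧ Integrable g ∧ ∫ t, g t = ((2 * π * ∫ v, f v : ℝ) : ℂ)

lemma sub_PlanV {f f' : ℝ → ℝ} {g g' : ℝ → ℂ} (h : R_PlanV f g) (h' : R_PlanV f' g') :
    R_PlanV (fun v => f v - f' v) fun t => g t - g' t := by
  refine ⟨h.1.sub h'.1, h.2.1.sub h'.2.1, ?_⟩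
  rw [integral_sub h.2.1 h'.2.1, integral_sub h.1 h'.1, h.2.2, h'.2.2, mul_sub, Complex.ofReal_sub]

lemma mul_PlanV {f : ℝ → ℝ} {g : ℝ → ℂ} (h : R_PlanV f g) (c : ℝ) :
    R_PlanV (fun v => c * f v) fun t => (c : ℂ) * g t := by
  refine ⟨h.1.const_mul c, h.2.1.const_mul _, ?_⟩
  rw [integral_const_mul, integral_const_mul, h.2.2, mul_left_comm, Complex.ofReal_mul c]

lemma sum_PlanV {κ : Type} (s : Finset κ) {f : κ → ℝ → ℝ} {g : κ → ℝ → ℂ}
    (h : ∀ i, R_PlanV (f i) (g i)) :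
    R_PlanV (fun v => ∑ i ∈ s, f i v) fun t => ∑ i ∈ s, g i t := by
  refine ⟨integrable_finsetSum _ fun i _ => (h i).1, integrable_finsetSum _ fun i _ => (h i).2.1,
    ?_⟩
  rw [integral_finsetSum _ fun i _ => (h i).1, integral_finsetSum _ fun i _ => (h i).2.1, mul_sum,
    Complex.ofReal_sum]
  exact sum_congr rfl fun i _ => (h i).2.2

lemma pair_PlanV {s d : ℝ} (hs : 0 < s) (hd : 0 < d) (z z' : ℝ) :
    R_PlanV (fun v => Z.gg s (v - z) * Z.gg d (v - z')) fun t =>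
      Complex.exp (Complex.I * (t : ℂ) * ((z' - z : ℝ) : ℂ)) *
        ((E.EE_Tr s t * E.EE_Tr d t : ℝ) : ℂ) := by
  obtain ⟨r, hr, e⟩ : ∃ r : ℝ, 0 < r ∧ r ^ 2 = s ^ 2 + d ^ 2 :=
    ⟨√(s ^ 2 + d ^ 2), by positivity, sq_sqrt (by positivity)⟩
  have h1 : ∀ t, E.EE_Tr s t * E.EE_Tr d t = E.EE_Tr r t := fun t => by
    rw [E.EE_Tr, E.EE_Tr, E.EE_Tr, ← exp_add, e]
    congr 1
    ring
  have h2 : ∀ a y : ℝ, Z.gg a (-y) = Z.gg a y := fun a y => by rw [Z.gg, Z.gg, neg_sq]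
  have h3 : ∀ v, Z.gg d (v - z') = Z.gg d (z' - z - (v - z)) := fun v => by
    rw [← h2]
    congr 1
    ring
  have h4 := DS.conv_Conv hs hd hr e (z' - z)
  simp only [R_PlanV, h1, h3]
  refine ⟨h4.1.comp_sub_right z, E.int_Tr hr _, ?_⟩
  rw [E.val_Tr hr, h2, integral_sub_right_eq_self (fun y => Z.gg s y * Z.gg d (z' - z - y)), h4.2]
  push_cast
  rfl

lemma quad_PlanV {Δ Γ : ℝ} (hΔ : 0 < Δ) (hΓ : 0 < Γ) (z z' : ℝ) :
    R_PlanV (fun v => E.dg v Δ Γ z * E.dg v Δ Γ z') fun t =>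
      Complex.exp (Complex.I * (t : ℂ) * ((z' - z : ℝ) : ℂ)) *
        (((E.EE_Tr Δ t - E.EE_Tr Γ t) ^ 2 : ℝ) : ℂ) := by
  have h := sub_PlanV (sub_PlanV (pair_PlanV hΔ hΔ z z') (pair_PlanV hΔ hΓ z z'))
    (sub_PlanV (pair_PlanV hΓ hΔ z z') (pair_PlanV hΓ hΓ z z'))
  refine (congrArg₂ R_PlanV (funext fun v => ?_) (funext fun t => ?_)).mp h
  · rw [E.dg, E.dg]
    ring
  · push_cast
    ring

lemma low_PlanV {Δ Γ t : ℝ} (hΔ : 0 < Δ) (hΓ : 0 < Γ) (h1 : 4 / Γ ≤ t) (h2 : t ≤ 1 / Δ) :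
    1 ≤ 4 * (E.EE_Tr Δ t - E.EE_Tr Γ t) ^ 2 := by
  have t0 : 0 ≤ t := le_trans (by positivity) h1
  rw [div_le_iff₀ hΓ] at h1
  rw [le_div_iff₀ hΔ] at h2
  have a1 : Δ ^ 2 / (4 * π) * t ^ 2 ≤ 1 / 12 := by
    have : (t * Δ) ^ 2 ≤ 1 := pow_le_one₀ (by positivity) h2
    rw [div_mul_eq_mul_div, div_le_iff₀ (by positivity)]
    nlinarith [pi_gt_three]
  have a2 : E.EE_Tr Γ t ≤ exp (-1) := by
    refine exp_le_exp.2 ?_
    have : 4 ^ 2 ≤ (t * Γ) ^ 2 := pow_le_pow_left₀ (by norm_num) h1 2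
    rw [neg_mul, neg_le_neg_iff, div_mul_eq_mul_div, le_div_iff₀ (by positivity)]
    nlinarith [pi_le_four]
  have a3 : 1 / 2 ≤ E.EE_Tr Δ t - E.EE_Tr Γ t := by
    linarith [E.EE_low_Tr Δ t, exp_neg_one_lt_d9]
  nlinarith

theorem plan_stmt : PlanStmt := by
  intro Δ Γ T₀ T₁ D R b c hΔ hΓ hD hR h0 h01 h1
  have h := sum_PlanV ((D ×ˢ R) ×ˢ (D ×ˢ R)) fun i : (ℕ × ℕ) × ℕ × ℕ =>
    mul_PlanV (quad_PlanV hΔ hΓ (Real.log ((i.1.1 : ℝ) * i.1.2)) (Real.log ((i.2.1 : ℝ) * i.2.2)))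
      (b i.1.1 * c i.1.2 * (b i.2.1 * c i.2.2))
  have k : R_PlanV (fun v => Dv Δ Γ D R b c v ^ 2) fun t =>
      (((E.EE_Tr Δ t - E.EE_Tr Γ t) ^ 2 * (‖E.FP D b t‖ ^ 2 * ‖E.FP R c t‖ ^ 2) : ℝ) : ℂ) := by
    refine (congrArg₂ R_PlanV (funext fun v => ?_) (funext fun t => ?_)).mp h
    · rw [Dv, sq, sum_mul_sum, sum_product (D ×ˢ R)]
      exact sum_congr rfl fun u _ => sum_congr rfl fun w _ => by ring
    · rw [← mul_pow, ← norm_mul, DS.prod_VTr hD hR, Complex.ofReal_mul, DS.sq_VTr, mul_sum]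
      exact sum_congr rfl fun i _ => by ring
  obtain ⟨-, k1, k2⟩ := k
  beta_reduce at k2
  rw [integral_complex_ofReal, Complex.ofReal_inj] at k2
  have k3 : Integrable fun t =>
      (E.EE_Tr Δ t - E.EE_Tr Γ t) ^ 2 * (‖E.FP D b t‖ ^ 2 * ‖E.FP R c t‖ ^ 2) := k1.re
  have k4 : Continuous fun t => ‖E.FP D b t‖ ^ 2 * ‖E.FP R c t‖ ^ 2 := by
    unfold E.FP MP_2a1f0e_nt.GM.pw
    fun_prop
  refine (intervalIntegral.integral_mono_on h01 (k4.intervalIntegrable _ _)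
    (k3.const_mul 4).intervalIntegrable fun t ht => ?_).trans ?_
  · rw [← mul_assoc]
    exact le_mul_of_one_le_left (by positivity) (low_PlanV hΔ hΓ (h0.trans ht.1) (ht.2.trans h1))
  · rw [intervalIntegral.integral_of_le h01]
    refine (setIntegral_le_integral (k3.const_mul 4) (ae_of_all _ fun t => by positivity)).trans_eq
      ?_
    rw [integral_const_mul, k2]
    ring

end Pool.Agent.MP_c853c5_nt.DV

end

section

/-! The pointwise bound for the smoothed sum over products. -/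

set_option autoImplicit false

open Finset Filter Real MeasureTheory

namespace Pool.Agent.MP_c853c5_nt.DV

lemma log1_SupV {a b Y : ℝ} (hb : 0 < b) (hab : b ≤ a) (ha : a ≤ Y) :
    (a - b) / Y ≤ Real.log a - Real.log b := by
  have ha0 : 0 < a := hb.trans_le hab
  have h1 := Real.log_le_sub_one_of_pos (div_pos hb ha0)
  rw [Real.log_div hb.ne' ha0.ne'] at h1
  have h2 : (a - b) / Y ≤ (a - b) / a := div_le_div_of_nonneg_left (sub_nonneg.2 hab) ha0 ha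
  rw [sub_div a b a, div_self ha0.ne'] at h2
  linarith

lemma log2_SupV {a b Y : ℝ} (ha0 : 0 < a) (hb0 : 0 < b) (ha : a ≤ Y) (hb : b ≤ Y) :
    |b - a| / Y ≤ |Real.log a - Real.log b| := by
  rcases le_total b a with h | h
  · rw [abs_sub_comm, abs_of_nonneg (sub_nonneg.2 h)]
    exact (log1_SupV hb0 h ha).trans (le_abs_self _)
  · rw [abs_of_nonneg (sub_nonneg.2 h), abs_sub_comm]
    exact (log1_SupV ha0 h hb).trans (le_abs_self _)

lemma gsum_SupV {d : ℝ} (hd : 0 < d) {Y : ℕ} (hY : 1 ≤ Y) (v : ℝ) :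
    ∑ n ∈ Icc 1 Y, Z.gg d (v - Real.log n) ≤ 2 / d + 4 * Y := by
  have hY0 : (0 : ℝ) < Y := by exact_mod_cast hY
  have hc : 0 < min (Real.exp v) Y := lt_min (Real.exp_pos v) hY0
  have h1 := DU.isum_AmU (A := (Y * d) ^ 2) (by positivity) hc.le (Icc 1 Y)
  rw [Real.sqrt_sq (by positivity)] at h1
  have h2 : ∀ n ∈ Icc 1 Y, Real.exp (-(π * (v - Real.log n) ^ 2 / d ^ 2)) ≤
      Real.exp (-(π * ((n : ℝ) - min (Real.exp v) Y) ^ 2 / (Y * d) ^ 2)) := by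
    intro n hn
    have hn0 : (0 : ℝ) < n := by exact_mod_cast (mem_Icc.1 hn).1
    have hnY : (n : ℝ) ≤ Y := by exact_mod_cast (mem_Icc.1 hn).2
    have h3 : |(n : ℝ) - min (Real.exp v) Y| / Y ≤ |v - Real.log n| := by
      refine (log2_SupV hc hn0 (min_le_right _ _) hnY).trans ?_
      rcases le_total (Real.exp v) Y with h | h
      · rw [min_eq_left h, Real.log_exp]
      · rw [min_eq_right h, abs_of_nonneg (sub_nonneg.2 (Real.log_le_log hn0 hnY))]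
        exact (sub_le_sub_right ((Real.log_le_iff_le_exp hY0).2 h) _).trans (le_abs_self _)
    have h4 := pow_le_pow_left₀ (by positivity) h3 2
    rw [div_pow, sq_abs, sq_abs] at h4
    refine Real.exp_le_exp.2 (neg_le_neg ?_)
    rw [mul_pow, ← div_div, mul_div_assoc π]
    exact div_le_div_of_nonneg_right (mul_le_mul_of_nonneg_left h4 pi_pos.le) (sq_nonneg d)
  unfold Z.gg
  rw [← mul_sum]
  refine (mul_le_mul_of_nonneg_left ((sum_le_sum h2).trans h1) (inv_nonneg.2 hd.le)).trans_eq ?_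
  field_simp

lemma card_SupV {n : ℕ} (hn : 1 ≤ n) : (n.primeFactors.card : ℝ) ≤ 2 * Real.log n := by
  have h1 : 2 ^ n.primeFactors.card ≤ n :=
    (pow_card_le_prod _ (fun p => p) 2 fun p hp => (Nat.prime_of_mem_primeFactors hp).two_le).trans
      (Nat.le_of_dvd hn (Nat.prod_primeFactors_dvd n))
  have h2 : (2 : ℝ) ^ n.primeFactors.card ≤ n := by exact_mod_cast h1
  have h3 := Real.log_le_log (by positivity) h2
  rw [Real.log_pow] at h3
  have h4 : (0 : ℝ) ≤ n.primeFactors.card := Nat.cast_nonneg _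
  nlinarith [Real.log_two_gt_d9]

lemma fib_SupV {D R : Finset ℕ} (hD : ∀ k ∈ D, k.Prime) {Y : ℕ}
    (hm : ∀ u ∈ D ×ˢ R, u.1 * u.2 ∈ Icc 1 Y) {f : ℕ → ℝ} (hf : ∀ n, 0 ≤ f n) :
    ∑ u ∈ D ×ˢ R, f (u.1 * u.2) ≤ 2 * Real.log Y * ∑ n ∈ Icc 1 Y, f n := by
  rw [← sum_fiberwise_of_maps_to hm, mul_sum]
  refine sum_le_sum fun n hn => ?_
  have hn1 := (mem_Icc.1 hn).1
  rw [sum_congr rfl fun u hu => congrArg f (mem_filter.1 hu).2, sum_const, nsmul_eq_mul]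
  refine mul_le_mul_of_nonneg_right ?_ (hf n)
  have h1 : ((D ×ˢ R).filter fun u => u.1 * u.2 = n).card ≤ n.primeFactors.card := by
    refine card_le_card_of_injOn Prod.fst (fun u hu => ?_) fun u hu w hw e => ?_
    · obtain ⟨h2, h3⟩ := mem_filter.1 hu
      exact Nat.mem_primeFactors.2 ⟨hD _ (mem_product.1 h2).1, ⟨u.2, h3.symm⟩, by omega⟩
    · obtain ⟨h2, h3⟩ := mem_filter.1 hu
      have h4 := (mem_filter.1 hw).2
      refine Prod.ext e (Nat.eq_of_mul_eq_mul_left (hD _ (mem_product.1 h2).1).pos ?_)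
      rw [h3, e, h4]
  have h5 : Real.log n ≤ Real.log Y :=
    Real.log_le_log (by exact_mod_cast hn1) (by exact_mod_cast (mem_Icc.1 hn).2)
  have h6 : (((D ×ˢ R).filter fun u => u.1 * u.2 = n).card : ℝ) ≤ n.primeFactors.card := by
    exact_mod_cast h1
  linarith [card_SupV hn1]

theorem sup_stmt : SupStmt := by
  refine ⟨40, by norm_num, fun Δ Γ β v K P Λ D b c hΔ hΓ hK hP hΛ hD hb hc h1 => ?_⟩
  have hΓ0 := hΔ.trans_le hΓ
  have hβ : 0 ≤ β := (abs_nonneg _).trans (hc 0)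
  have hY : 1 ≤ 2 * Λ * (K * P) := Nat.mul_pos (by omega) (Nat.mul_pos hK hP)
  have hm : ∀ u ∈ D ×ˢ Icc P (Λ * P), u.1 * u.2 ∈ Icc 1 (2 * Λ * (K * P)) := by
    intro u hu
    obtain ⟨h2, h3⟩ := mem_product.1 hu
    obtain ⟨h4, -, h5⟩ := hD _ h2
    refine mem_Icc.2 ⟨Nat.mul_pos h4.pos (hP.trans (mem_Icc.1 h3).1), ?_⟩
    exact (Nat.mul_le_mul h5.le (mem_Icc.1 h3).2).trans_eq (by ring)
  have h2 := fib_SupV (fun k hk => (hD k hk).1) hm
    (f := fun n => Z.gg Δ (v - Real.log n) + Z.gg Γ (v - Real.log n))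
    fun n => add_nonneg (DS.gg_nonneg_Conv hΔ _) (DS.gg_nonneg_Conv hΓ0 _)
  rw [sum_add_distrib (s := Icc 1 (2 * Λ * (K * P)))] at h2
  have h3 := gsum_SupV hΔ hY v
  have h4 := gsum_SupV hΓ0 hY v
  have h5 : 0 ≤ Real.log (2 * Λ * (K * P) : ℕ) := Real.log_natCast_nonneg _
  have h6 : 2 / Γ ≤ 2 / Δ := div_le_div_of_nonneg_left (by norm_num) hΔ hΓ
  have hΛ1 : (1 : ℝ) ≤ Λ := by exact_mod_cast hΛ
  have h7 : 2 / Δ ≤ 2 * (Λ * (K * P)) := by
    rw [div_le_iff₀ hΔ]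
    nlinarith
  have h8 : |Dv Δ Γ D (Icc P (Λ * P)) b c v| ≤ β * ∑ u ∈ D ×ˢ Icc P (Λ * P),
      (Z.gg Δ (v - Real.log (u.1 * u.2 : ℕ)) + Z.gg Γ (v - Real.log (u.1 * u.2 : ℕ))) := by
    rw [mul_sum]
    refine (abs_sum_le_sum_abs _ _).trans (sum_le_sum fun u _ => ?_)
    rw [abs_mul, abs_mul, Nat.cast_mul]
    refine mul_le_mul ((mul_le_of_le_one_left (abs_nonneg _) (hb _)).trans (hc _)) ?_
      (abs_nonneg _) hβ
    refine (abs_sub _ _).trans_eq ?_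
    rw [abs_of_nonneg (DS.gg_nonneg_Conv hΔ _), abs_of_nonneg (DS.gg_nonneg_Conv hΓ0 _)]
  have h9 := mul_le_mul_of_nonneg_left (add_le_add h3 h4) (mul_nonneg zero_le_two h5)
  refine h8.trans ((mul_le_mul_of_nonneg_left (h2.trans h9) hβ).trans ?_)
  push_cast at h5 ⊢
  have h10 : 2 / Δ + 4 * (2 * (Λ : ℝ) * (K * P)) + (2 / Γ + 4 * (2 * Λ * (K * P))) ≤
      20 * (Λ * (K * P)) := by linarith
  refine (mul_le_mul_of_nonneg_left
    (mul_le_mul_of_nonneg_left h10 (mul_nonneg zero_le_two h5)) hβ).trans_eq ?_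
  ring

end Pool.Agent.MP_c853c5_nt.DV

end

section

set_option autoImplicit false

open Finset Filter Real MeasureTheory

namespace Pool.Agent.MP_c853c5_nt.DV

lemma gg_TailV {Δ e Γ y : ℝ} (h : 0 < Δ) (h1 : Δ ≤ e) (h2 : e ≤ Γ) (hy : 1 ≤ |y|) :
    Z.gg e y ≤ Δ⁻¹ * exp (-(π / Γ ^ 2)) := by
  have he := h.trans_le h1
  have h3 : 1 ≤ y ^ 2 := (one_le_sq_iff_one_le_abs y).2 hy
  have h4 : π / Γ ^ 2 ≤ π * y ^ 2 / e ^ 2 :=
    div_le_div₀ (by positivity) (le_mul_of_one_le_right pi_pos.le h3) (by positivity) (by gcongr)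
  rw [Z.gg]
  gcongr

theorem tail_stmt : TailStmt := by
  intro ι s α z Δ Γ p q hΔ hΓ hpq hz
  have hG := hΔ.trans_le hΓ
  have n1 := DS.gg_nonneg_Conv hΔ
  have n2 := DS.gg_nonneg_Conv hG
  have i1 := DS.gg_int_Conv hΔ
  have i2 := DS.gg_int_Conv hG
  set F : ℝ → ℝ := fun v => ∑ i ∈ s, α i * E.dg v Δ Γ (z i) with hF
  set H : ℝ → ℝ := fun v => ∑ i ∈ s, |α i| * (Z.gg Δ (v - z i) + Z.gg Γ (v - z i)) with hH
  set A := ∑ i ∈ s, |α i| with hA
  have A0 : 0 ≤ A := sum_nonneg fun _ _ => abs_nonneg _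
  have H0 : ∀ v, 0 ≤ H v := fun v => sum_nonneg fun _ _ =>
    mul_nonneg (abs_nonneg _) (add_nonneg (n1 _) (n2 _))
  have key : ∀ v c, (∀ i ∈ s, Z.gg Δ (v - z i) ≤ c ∧ Z.gg Γ (v - z i) ≤ c) →
      F v ^ 2 ≤ A * c * H v := fun v c h => by
    have h1 : |F v| ≤ A * c := by
      rw [hA, sum_mul]
      refine (abs_sum_le_sum_abs _ _).trans (sum_le_sum fun i hi => ?_)
      rw [abs_mul]
      exact mul_le_mul_of_nonneg_left
        (abs_sub_le_of_nonneg_of_le (n1 _) (h i hi).1 (n2 _) (h i hi).2) (abs_nonneg _)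
    have h2 : |F v| ≤ H v := by
      refine (abs_sum_le_sum_abs _ _).trans (sum_le_sum fun i _ => ?_)
      rw [abs_mul]
      refine mul_le_mul_of_nonneg_left ((abs_sub _ _).trans ?_) (abs_nonneg _)
      rw [abs_of_nonneg (n1 _), abs_of_nonneg (n2 _)]
    rw [← sq_abs, sq]
    exact mul_le_mul h1 h2 (abs_nonneg _) ((abs_nonneg _).trans h1)
  have j : ∀ i ∈ s, Integrable fun v => |α i| * (Z.gg Δ (v - z i) + Z.gg Γ (v - z i)) :=
    fun i _ => ((i1.1.comp_sub_right _).add (i2.1.comp_sub_right _)).const_mul _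
  have Hi : Integrable H := integrable_finsetSum _ j
  have HI : ∫ v, H v = 2 * A := by
    rw [hH, integral_finsetSum _ j, hA, mul_sum]
    refine sum_congr rfl fun i _ => ?_
    rw [integral_const_mul, integral_add (i1.1.comp_sub_right _) (i2.1.comp_sub_right _),
      integral_sub_right_eq_self (Z.gg Δ), integral_sub_right_eq_self (Z.gg Γ), i1.2, i2.2]
    ring
  have Fc : Continuous fun v => F v ^ 2 := by
    simp only [hF, E.dg, Z.gg]
    fun_prop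
  have Fi : Integrable fun v => F v ^ 2 :=
    (Hi.const_mul (A * Δ⁻¹)).mono' Fc.aestronglyMeasurable (.of_forall fun v => by
      rw [Real.norm_of_nonneg (sq_nonneg _)]
      exact key v _ fun i _ => ⟨DS.gg_le_Conv hΔ le_rfl _, DS.gg_le_Conv hΔ hΓ _⟩)
  set m := Δ⁻¹ * exp (-(π / Γ ^ 2)) with hm
  have m0 : 0 ≤ A * m := by positivity
  have h1 : ∫ v in (Set.Ioc (p - 1) (q + 1))ᶜ, F v ^ 2 ≤ ∫ v, A * m * H v := by
    refine (setIntegral_mono_on Fi.integrableOn (Hi.const_mul (A * m)).integrableOn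
      measurableSet_Ioc.compl fun v hv => key v m fun i hi => ?_).trans
      (setIntegral_le_integral (Hi.const_mul _) (.of_forall fun v => mul_nonneg m0 (H0 v)))
    have h2 : 1 ≤ |v - z i| := by
      have := hz i hi
      rw [Set.mem_compl_iff, Set.mem_Ioc, not_and_or, not_lt, not_le] at hv
      rw [le_abs]
      exact hv.elim (fun h => .inr (by linarith)) fun h => .inl (by linarith)
    exact ⟨gg_TailV hΔ le_rfl hΓ h2, gg_TailV hΔ hΓ le_rfl h2⟩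
  rw [integral_const_mul, HI] at h1
  change ∫ v, F v ^ 2 ≤ (∫ v in (p - 1)..(q + 1), F v ^ 2) + _
  rw [← integral_add_compl (s := Set.Ioc (p - 1) (q + 1)) measurableSet_Ioc Fi,
    intervalIntegral.integral_of_le (by linarith)]
  refine add_le_add le_rfl (h1.trans_eq ?_)
  rw [hm]
  ring

end Pool.Agent.MP_c853c5_nt.DV

end
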