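import Pool.Agent.MP_c853c5_nt.DV.Defs
import Pool.Agent.MP_c853c5_nt.E.Basic

section

set_option autoImplicit false

namespace Pool.Agent.MP_c853c5_nt.DV

open Finset Filter Real MeasureTheory

theorem sum_CovV {a : ℝ} (ha : 1 ≤ a) : 1 / 2 ≤ ∑ n ∈ Icc ⌈a⌉₊ ⌊4 * a⌋₊, (1 / n : ℝ) := by
  have h1 := Nat.ceil_lt_add_one (by linarith : 0 ≤ a)
  have h2 := Nat.lt_floor_add_one (4 * a)
  have h3 : ⌈a⌉₊ ≤ ⌊4 * a⌋₊ + 1 := by
    exact_mod_cast (show (⌈a⌉₊ : ℝ) ≤ ⌊4 * a⌋₊ + 1 by linarith)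
  have h4 := card_nsmul_le_sum (Icc ⌈a⌉₊ ⌊4 * a⌋₊) (fun n : ℕ => (1 / n : ℝ)) (1 / (4 * a))
    fun n hn => by
      have h5 := Nat.ceil_le.1 (mem_Icc.1 hn).1
      exact one_div_le_one_div_of_le (by linarith)
        ((Nat.le_floor_iff (by linarith)).1 (mem_Icc.1 hn).2)
  rw [Nat.card_Icc, nsmul_eq_mul, Nat.cast_sub h3] at h4
  refine le_trans ?_ h4
  rw [mul_one_div, le_div_iff₀ (by linarith)]
  push_cast
  linarith

theorem cov_stmt : CovStmt := by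
  intro f x p q N N' hf h0 hx hpq hN h1 h2
  have hw : Real.log (x / 2) ≤ Real.log (2 * x) := Real.log_le_log (by positivity) (by linarith)
  have hi : ∀ (n : ℕ) (s : Set ℝ), MeasurableSet s →
      Integrable (fun v => s.indicator f v / n) (volume.restrict (Set.Icc p q)) :=
    fun n s hs => (hf.integrableOn_Icc.integrable.indicator hs).div_const _
  have key : ∀ n ∈ Icc N N', ∫ v in Set.Icc p q, (Set.Icc (Real.log (x / 2) - Real.log n)
      (Real.log (2 * x) - Real.log n)).indicator f v / n ≤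
      ∫ w in (Real.log (x / 2))..(Real.log (2 * x)), f (w - Real.log n) / n := fun n _ => by
    rw [intervalIntegral.integral_div, integral_div, intervalIntegral.integral_comp_sub_right,
      intervalIntegral.integral_of_le (by linarith), ← integral_Icc_eq_integral_Ioc,
      setIntegral_indicator measurableSet_Icc]
    refine div_le_div_of_nonneg_right ?_ (Nat.cast_nonneg n)
    exact setIntegral_mono_set hf.integrableOn_Icc (Eventually.of_forall h0)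
      Set.inter_subset_right.eventuallyLE
  rw [intervalIntegral.integral_finsetSum (f := fun (n : ℕ) w => f (w - Real.log n) / n) fun n _ =>
    ((hf.comp (continuous_sub_right _)).div_const _).intervalIntegrable _ _]
  refine le_trans ?_ (mul_le_mul_of_nonneg_left (sum_le_sum key) zero_le_two)
  rw [← integral_finsetSum _ fun n _ => hi n _ measurableSet_Icc, ← integral_const_mul,
    intervalIntegral.integral_of_le hpq, ← integral_Icc_eq_integral_Ioc]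
  refine setIntegral_mono_on hf.integrableOn_Icc
    ((integrable_finsetSum _ fun n _ => hi n _ measurableSet_Icc).const_mul 2) measurableSet_Icc
    fun v hv => ?_
  have hv0 := Real.exp_pos v
  have hN' : (1 : ℝ) ≤ N := by exact_mod_cast hN
  obtain ⟨a, ha⟩ : ∃ a, a = x / 2 / Real.exp v := ⟨_, rfl⟩
  have ea : a * Real.exp v = x / 2 := by rw [ha, div_mul_cancel₀ _ hv0.ne']
  have a1 : (N : ℝ) ≤ a := by
    rw [ha, le_div_iff₀ hv0]
    exact (mul_le_mul_of_nonneg_left (Real.exp_le_exp.2 hv.2) (Nat.cast_nonneg N)).trans h1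
  have a2 : 4 * a ≤ N' := by
    refine le_of_mul_le_mul_right ?_ hv0
    have := mul_le_mul_of_nonneg_left (Real.exp_le_exp.2 hv.1) (Nat.cast_nonneg (α := ℝ) N')
    linarith
  have a3 : Icc ⌈a⌉₊ ⌊4 * a⌋₊ ⊆ Icc N N' :=
    Icc_subset_Icc (by exact_mod_cast a1.trans (Nat.le_ceil a)) (Nat.floor_le_of_le a2)
  refine le_trans ?_ (mul_le_mul_of_nonneg_left (sum_le_sum_of_subset_of_nonneg a3 fun n _ _ =>
    div_nonneg (Set.indicator_nonneg (fun v _ => h0 v) v) (Nat.cast_nonneg n)) zero_le_two)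
  rw [sum_congr rfl (g := fun n : ℕ => f v * (1 / n : ℝ)) fun n hn => ?_, ← mul_sum]
  · have := mul_le_mul_of_nonneg_left (sum_CovV (hN'.trans a1)) (h0 v)
    linarith
  · have b1 := Nat.ceil_le.1 (mem_Icc.1 hn).1
    have b2 := (Nat.le_floor_iff (by linarith)).1 (mem_Icc.1 hn).2
    have b3 : (0 : ℝ) < n := by linarith
    rw [Set.indicator_of_mem, mul_one_div]
    constructor
    · rw [← Real.log_div (by positivity) b3.ne', Real.log_le_iff_le_exp (by positivity),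
        div_le_iff₀ b3]
      nlinarith
    · rw [← Real.log_div (by positivity) b3.ne', Real.le_log_iff_exp_le (by positivity),
        le_div_iff₀ b3]
      nlinarith

end Pool.Agent.MP_c853c5_nt.DV

end

section

/-!
The mean square at the scale of the dual problem.
-/

set_option autoImplicit false

open Finset Filter Real MeasureTheory

namespace Pool.Agent.MP_c853c5_nt.DV

open DS (PrK Wid)
open DU (Geo)

lemma cont_DualV (Δ Γ : ℝ) (D R : Finset ℕ) (b c : ℕ → ℝ) : Continuous (Dv Δ Γ D R b c) := by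
  unfold Dv E.dg Z.gg
  fun_prop

lemma cardD_DualV {K : ℕ} {D : Finset ℕ} (h : PrK K D) : (D.card : ℝ) ≤ K := by
  have h1 : D ⊆ Ico K (2 * K) := fun k hk => mem_Ico.2 (h k hk).2
  have h2 := card_le_card h1
  rw [Nat.card_Ico] at h2
  exact_mod_cast h2.trans (by omega)

lemma cardR_DualV {P : ℕ} (hP : 1 ≤ P) (Λ : ℕ) : ((Icc P (Λ * P)).card : ℝ) ≤ Λ * P := by
  have h2 : (Icc P (Λ * P)).card ≤ Λ * P := by
    rw [Nat.card_Icc]
    omega
  exact_mod_cast h2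

lemma sqrt_DualV {P Λ : ℕ} (hP : 1 ≤ P) (hΛ : 1 ≤ Λ) {c : ℕ → ℝ} {β : ℝ}
    (hc : ∀ n, |c n| ≤ β) : √(P * ∑ n ∈ Icc P (Λ * P), c n ^ 2) ≤ Λ * β * P := by
  have hβ : 0 ≤ β := (abs_nonneg _).trans (hc 0)
  have hΛ' : (1 : ℝ) ≤ Λ := by exact_mod_cast hΛ
  have h1 : ∑ n ∈ Icc P (Λ * P), c n ^ 2 ≤ Λ * P * β ^ 2 := by
    refine (sum_le_card_nsmul _ _ (β ^ 2) fun n _ => ?_).trans ?_
    · rw [← sq_abs]
      exact pow_le_pow_left₀ (abs_nonneg _) (hc n) 2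
    · rw [nsmul_eq_mul]
      exact mul_le_mul_of_nonneg_right (cardR_DualV hP Λ) (by positivity)
  refine Real.sqrt_le_iff.2 ⟨by positivity, ?_⟩
  have h2 : (Λ : ℝ) ≤ Λ ^ 2 := by nlinarith
  calc (P : ℝ) * ∑ n ∈ Icc P (Λ * P), c n ^ 2 ≤ P * (Λ * P * β ^ 2) := by gcongr
    _ = Λ * (β * P) ^ 2 := by ring
    _ ≤ Λ ^ 2 * (β * P) ^ 2 := by gcongr
    _ = _ := by ring

lemma abs_DualV {K P : ℕ} (Λ : ℕ) {D : Finset ℕ} (h : PrK K D) (hP : 1 ≤ P) {b c : ℕ → ℝ} {β : ℝ}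
    (hb : ∀ n, |b n| ≤ 1) (hc : ∀ n, |c n| ≤ β) :
    ∑ u ∈ D ×ˢ Icc P (Λ * P), |b u.1 * c u.2| ≤ β * Λ * (K * P) := by
  have hβ : 0 ≤ β := (abs_nonneg _).trans (hc 0)
  refine (sum_le_card_nsmul _ _ β fun u _ => ?_).trans ?_
  · rw [abs_mul]
    exact (mul_le_mul (hb _) (hc _) (abs_nonneg _) zero_le_one).trans_eq (one_mul β)
  · rw [nsmul_eq_mul, card_product, Nat.cast_mul]
    have h1 := cardD_DualV h
    have h2 := cardR_DualV hP Λ
    calc (D.card : ℝ) * (Icc P (Λ * P)).card * β ≤ K * (Λ * P) * β := by gcongr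
      _ = _ := by ring

lemma low_DualV {Cv σ T₀ T : ℝ} {P Λ : ℕ} {D : Finset ℕ} {b c : ℕ → ℝ} (hCv : 0 < Cv)
    (hV : ∀ (R : Finset ℕ) (c : ℕ → ℝ) (Y : ℕ) (T₀ T : ℝ), 0 ≤ T₀ → T₀ ≤ T → R ⊆ Icc 1 Y →
      ∫ t in T₀..T, ‖E.FP R c t‖ ^ 2 ≤ Cv * (T + Y) * ∑ n ∈ R, c n ^ 2)
    (hP : 1 ≤ P) (h0 : 0 ≤ T₀) (h1 : T₀ ≤ T) (h2 : T ≤ P)
    (hσ : ∀ t, T₀ ≤ t → t ≤ T → ‖E.FP D b t‖ ≤ σ) :
    ∫ t in T₀..T, ‖E.FP D b t‖ ^ 2 * ‖E.FP (Icc P (Λ * P)) c t‖ ^ 2 ≤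
      Cv * (1 + Λ) * (σ ^ 2 * P * ∑ n ∈ Icc P (Λ * P), c n ^ 2) := by
  have c1 := E.continuous_FP D b
  have c2 := E.continuous_FP (Icc P (Λ * P)) c
  have h3 := hV (Icc P (Λ * P)) c (Λ * P) T₀ T h0 h1 (Icc_subset_Icc_left hP)
  have h4 : 0 ≤ ∑ n ∈ Icc P (Λ * P), c n ^ 2 := by positivity
  calc ∫ t in T₀..T, ‖E.FP D b t‖ ^ 2 * ‖E.FP (Icc P (Λ * P)) c t‖ ^ 2
      ≤ ∫ t in T₀..T, σ ^ 2 * ‖E.FP (Icc P (Λ * P)) c t‖ ^ 2 := by
        refine intervalIntegral.integral_mono_on h1 (Continuous.intervalIntegrable (by fun_prop) _ _)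
          (Continuous.intervalIntegrable (by fun_prop) _ _) fun t ht => ?_
        have := hσ t ht.1 ht.2
        gcongr
    _ = σ ^ 2 * ∫ t in T₀..T, ‖E.FP (Icc P (Λ * P)) c t‖ ^ 2 :=
        intervalIntegral.integral_const_mul _ _
    _ ≤ σ ^ 2 * (Cv * (T + (Λ * P : ℕ)) * ∑ n ∈ Icc P (Λ * P), c n ^ 2) := by gcongr
    _ ≤ σ ^ 2 * (Cv * (P + (Λ * P : ℕ)) * ∑ n ∈ Icc P (Λ * P), c n ^ 2) := by gcongr
    _ = _ := by
        push_cast
        ring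

lemma tail_DualV (hT : TailStmt) {x Δ β : ℝ} {K P Λ : ℕ} {D : Finset ℕ} {b c : ℕ → ℝ}
    (hx : 1 ≤ x) (hl : Real.log x ≤ x ^ (1 / 500 : ℝ)) (h1 : x ^ (-(1 / 2) : ℝ) ≤ Δ)
    (h2 : Δ ≤ x ^ (-(1 / 1000) : ℝ)) (hK : 1 ≤ K) (hP : 1 ≤ P) (hΛ : 1 ≤ Λ) (hD : PrK K D)
    (hb : ∀ n, |b n| ≤ 1) (hc : ∀ n, |c n| ≤ β) :
    ∫ v, Dv Δ (x ^ (-(1 / 1000) : ℝ)) D (Icc P (Λ * P)) b c v ^ 2 ≤
      (∫ v in (Real.log (K * P) - 1)..(Real.log (2 * Λ * (K * P)) + 1),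
        Dv Δ (x ^ (-(1 / 1000) : ℝ)) D (Icc P (Λ * P)) b c v ^ 2) +
      2 * Λ ^ 2 * (β ^ 2 * (K * P) ^ 2 * x ^ (-(1 / 2) : ℝ)) := by
  have hx0 : 0 < x := by linarith
  have hΔ : 0 < Δ := (Real.rpow_pos_of_pos hx0 _).trans_le h1
  have hK' : (1 : ℝ) ≤ K := by exact_mod_cast hK
  have hP' : (1 : ℝ) ≤ P := by exact_mod_cast hP
  have hΛ' : (1 : ℝ) ≤ Λ := by exact_mod_cast hΛ
  have hβ : 0 ≤ β := (abs_nonneg _).trans (hc 0)
  have h3 := hT (ℕ × ℕ) (D ×ˢ Icc P (Λ * P)) (fun u => b u.1 * c u.2)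
    (fun u => Real.log ((u.1 : ℝ) * u.2)) Δ (x ^ (-(1 / 1000) : ℝ)) (Real.log (K * P))
    (Real.log (2 * Λ * (K * P))) hΔ h2
    (Real.log_le_log (by positivity) (le_mul_of_one_le_left (by positivity) (by linarith)))
    fun u hu => by
      obtain ⟨k1, k2⟩ := mem_product.1 hu
      obtain ⟨-, k3, k4⟩ := hD _ k1
      obtain ⟨k5, k6⟩ := mem_Icc.1 k2
      have k7 : (K : ℝ) ≤ u.1 := by exact_mod_cast k3
      have k8 : (u.1 : ℝ) ≤ 2 * K := by exact_mod_cast k4.le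
      have k9 : (P : ℝ) ≤ u.2 := by exact_mod_cast k5
      have k10 : (u.2 : ℝ) ≤ Λ * P := by exact_mod_cast k6
      have k11 : (0 : ℝ) < u.1 := by linarith
      have k12 : (0 : ℝ) < u.2 := by linarith
      refine ⟨Real.log_le_log (by positivity) (by gcongr), Real.log_le_log (by positivity) ?_⟩
      calc (u.1 : ℝ) * u.2 ≤ 2 * K * (Λ * P) := by gcongr
        _ = _ := by ring
  refine h3.trans (add_le_add le_rfl ?_)
  have h4 := abs_DualV Λ hD hP hb hc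
  have h5 : Real.exp (-(π / (x ^ (-(1 / 1000) : ℝ)) ^ 2)) ≤ x⁻¹ := by
    have e : π / (x ^ (-(1 / 1000) : ℝ)) ^ 2 = π * x ^ (1 / 500 : ℝ) := by
      rw [← Real.rpow_natCast, ← Real.rpow_mul hx0.le, div_eq_mul_inv, ← Real.rpow_neg hx0.le]
      norm_num
    rw [e, ← Real.exp_log (inv_pos.2 hx0), Real.log_inv, Real.exp_le_exp, neg_le_neg_iff]
    refine hl.trans (le_mul_of_one_le_left (by positivity) ?_)
    linarith [Real.pi_gt_three]
  have h6 : Δ⁻¹ ≤ (x ^ (-(1 / 2) : ℝ))⁻¹ := inv_anti₀ (Real.rpow_pos_of_pos hx0 _) h1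
  have h7 : (x ^ (-(1 / 2) : ℝ))⁻¹ * x⁻¹ = x ^ (-(1 / 2) : ℝ) := by
    rw [← Real.rpow_neg hx0.le, ← Real.rpow_neg_one, ← Real.rpow_add hx0]
    norm_num
  have h8 : 0 ≤ ∑ u ∈ D ×ˢ Icc P (Λ * P), |b u.1 * c u.2| := by positivity
  calc 2 * (∑ u ∈ D ×ˢ Icc P (Λ * P), |b u.1 * c u.2|) ^ 2 / Δ *
        Real.exp (-(π / (x ^ (-(1 / 1000) : ℝ)) ^ 2))
      ≤ 2 * (β * Λ * (K * P)) ^ 2 * (x ^ (-(1 / 2) : ℝ))⁻¹ * x⁻¹ := by
        rw [div_eq_mul_inv]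
        gcongr
    _ = 2 * (β * Λ * (K * P)) ^ 2 * ((x ^ (-(1 / 2) : ℝ))⁻¹ * x⁻¹) := by ring
    _ = _ := by
        rw [h7]
        ring

lemma cov_DualV (hC : CovStmt) {x Δ Γ M : ℝ} {K P N Λ : ℕ} {D : Finset ℕ} {b c : ℕ → ℝ}
    (hx : 0 < x) (hK : 1 ≤ K) (hP : 1 ≤ P) (hΛ : 1 ≤ Λ) (hN : 1 ≤ N)
    (h1 : 11 * Λ * (K * P) * N ≤ x) (h2 : x ≤ 22 * Λ * (K * P) * N) (hM : 0 ≤ M)
    (h : ∀ X : ℝ, x / 2 ≤ X → X ≤ 2 * x →
      Hw Δ Γ D (Icc P (Λ * P)) (Icc N (128 * Λ * N)) b c (Real.log X) ≤ M) :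
    ∫ v in (Real.log (K * P) - 1)..(Real.log (2 * Λ * (K * P)) + 1),
      Dv Δ Γ D (Icc P (Λ * P)) b c v ^ 2 ≤ 6 * M := by
  have hK' : (1 : ℝ) ≤ K := by exact_mod_cast hK
  have hP' : (1 : ℝ) ≤ P := by exact_mod_cast hP
  have hΛ' : (1 : ℝ) ≤ Λ := by exact_mod_cast hΛ
  have hN' : (1 : ℝ) ≤ N := by exact_mod_cast hN
  have c1 := cont_DualV Δ Γ D (Icc P (Λ * P)) b c
  have he := Real.exp_one_lt_d9
  have he0 := Real.exp_pos 1
  have hA : (0 : ℝ) < Λ * (K * P) * N := by positivity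
  have h3 : Real.log (K * P) ≤ Real.log (2 * Λ * (K * P)) :=
    Real.log_le_log (by positivity) (le_mul_of_one_le_left (by positivity) (by linarith))
  have h4 := hC (fun v => Dv Δ Γ D (Icc P (Λ * P)) b c v ^ 2) x (Real.log (K * P) - 1)
    (Real.log (2 * Λ * (K * P)) + 1) N (128 * Λ * N) (by fun_prop) (fun v => by positivity) hx
    (by linarith) hN
    (by
      rw [Real.exp_add, Real.exp_log (by positivity)]
      nlinarith)
    (by
      rw [Real.exp_sub, Real.exp_log (by positivity), ← mul_div_assoc, le_div_iff₀ he0]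
      push_cast
      nlinarith)
  refine h4.trans ?_
  have h5 : Real.log (x / 2) ≤ Real.log (2 * x) := Real.log_le_log (by positivity) (by linarith)
  have h6 : Real.log (2 * x) - Real.log (x / 2) ≤ 3 := by
    rw [← Real.log_div (by positivity) (by positivity), show 2 * x / (x / 2) = 4 by field_simp; ring]
    linarith [Real.log_le_sub_one_of_pos (show (0 : ℝ) < 4 by norm_num)]
  have h7 : ∫ w in (Real.log (x / 2))..(Real.log (2 * x)), ∑ n ∈ Icc N (128 * Λ * N),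
      Dv Δ Γ D (Icc P (Λ * P)) b c (w - Real.log n) ^ 2 / n ≤
      ∫ _ in (Real.log (x / 2))..(Real.log (2 * x)), M := by
    refine intervalIntegral.integral_mono_on h5 (Continuous.intervalIntegrable (by fun_prop) _ _)
      (Continuous.intervalIntegrable continuous_const _ _) fun w hw => ?_
    have h8 := h (Real.exp w) ((Real.log_le_iff_le_exp (by positivity)).1 hw.1)
      ((Real.le_log_iff_exp_le (by positivity)).1 hw.2)
    rwa [Real.log_exp] at h8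
  rw [intervalIntegral.integral_const, smul_eq_mul] at h7
  have h9 := mul_le_mul_of_nonneg_right h6 hM
  linarith

theorem dual_stmt (hH : HStmt) (hV : MvStmt) (hP : PlanStmt) (hT : TailStmt) (hS : SupStmt)
    (hC : CovStmt) : DualStmt := by
  intro r Λ μ hr hΛ hμ
  obtain ⟨ν, CH, hν, hCH, hH⟩ := hH r Λ μ hr hΛ hμ
  obtain ⟨Cv, hCv, hV⟩ := hV
  obtain ⟨Cs, hCs, hS⟩ := hS
  have hΛ' : (1 : ℝ) ≤ Λ := by exact_mod_cast hΛ
  have hπ := Real.pi_pos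
  refine ⟨min (ν / 2) (1 / 2), Cv * (1 + Λ) + 8 * π * (6 * CH * (1 + Cs * Λ ^ 2) + 2 * Λ ^ 2),
    by positivity, by positivity, ?_⟩
  filter_upwards [hH, eventually_ge_atTop 1, E.ev_log_le 1 1 (show 0 < ν / 2 by positivity),
    E.ev_log_le 1 1 (show (0 : ℝ) < 1 / 500 by norm_num), E.ev_le_log 1] with x hH hx l1 l2 l3
  intro Δ σ β T₀ T₁ K P N D b c hG hD n1 n2 n3 n4 n5 hb hc t0 t1 t2 t3 hσ
  rw [pow_one, one_mul] at l1 l2
  have hx0 : 0 < x := by linarith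
  have g := hG x (by linarith) (by linarith)
  have hΔ : 0 < Δ := (Real.rpow_pos_of_pos hx0 _).trans_le g.d1
  have hΓ : 0 < x ^ (-(1 / 1000) : ℝ) := Real.rpow_pos_of_pos hx0 _
  have hΔΓ : Δ ≤ x ^ (-(1 / 1000) : ℝ) :=
    g.d2.trans (Real.rpow_le_rpow_of_exponent_le hx (by norm_num))
  have x1 : 1 ≤ x ^ (1 / 1000 : ℝ) := Real.one_le_rpow hx (by norm_num)
  have hP' : (1 : ℝ) ≤ P := by linarith
  have hP1 : 1 ≤ P := by exact_mod_cast hP'
  have hK' : (1 : ℝ) ≤ K := by exact_mod_cast g.k1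
  have hN' : (1 : ℝ) ≤ N := by exact_mod_cast g.p1
  have hβ : 0 ≤ β := (abs_nonneg _).trans (hc 0)
  have e4 : 4 / x ^ (-(1 / 1000) : ℝ) = 4 * x ^ (1 / 1000 : ℝ) := by
    rw [Real.rpow_neg hx0.le, div_inv_eq_mul]
  have t4 : T₀ ≤ 4 * x ^ (1 / 1000 : ℝ) := by
    have := Real.rpow_le_rpow_of_exponent_le hx (show (1 / 2000 : ℝ) ≤ 1 / 1000 by norm_num)
    linarith
  have t5 : T₁ ≤ Real.log x / Δ := t3.trans (div_le_div_of_nonneg_right l3 hΔ.le)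
  set Q := ∑ n ∈ Icc P (Λ * P), c n ^ 2 with hQ
  have hQ0 : 0 ≤ Q := by positivity
  have hA : 0 ≤ σ ^ 2 * P * Q := by positivity
  have hB : 0 ≤ β ^ 2 * (K * P) ^ 2 * x ^ (-min (ν / 2) (1 / 2)) := by positivity
  have hlow : ∀ T, T₀ ≤ T → T ≤ T₁ → T ≤ 4 * x ^ (1 / 1000 : ℝ) →
      ∫ t in T₀..T, ‖E.FP D b t‖ ^ 2 * ‖E.FP (Icc P (Λ * P)) c t‖ ^ 2 ≤
        Cv * (1 + Λ) * (σ ^ 2 * P * Q) := fun T k1 k2 k3 =>
    low_DualV hCv hV hP1 t0 k1 (by linarith) fun t k4 k5 => hσ t k4 (by linarith)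
  have hW : 0 ≤ 8 * π * (6 * CH * (1 + Cs * Λ ^ 2) + 2 * Λ ^ 2) := by positivity
  have hW' : 0 ≤ Cv * (1 + Λ) := by positivity
  rcases le_total T₁ (4 * x ^ (1 / 1000 : ℝ)) with t6 | t6
  · refine (hlow T₁ t2 le_rfl t6).trans ?_
    gcongr
    · linarith
    · linarith
  rcases hβ.eq_or_lt with hβ0 | hβ0
  · have h1 : ∀ t, E.FP (Icc P (Λ * P)) c t = 0 := fun t =>
      sum_eq_zero fun n _ => by
        rw [abs_nonpos_iff.1 ((hc n).trans hβ0.ge), Complex.ofReal_zero, zero_mul]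
    simp only [h1, norm_zero, zero_pow two_ne_zero, mul_zero, intervalIntegral.integral_zero]
    positivity
  have c1 := E.continuous_FP D b
  have c2 := E.continuous_FP (Icc P (Λ * P)) c
  have hKP : (1 : ℝ) ≤ K * P := one_le_mul_of_one_le_of_one_le hK' hP'
  have hL : (1 : ℝ) ≤ Λ * (K * P) := one_le_mul_of_one_le_of_one_le hΛ' hKP
  have s1 : 0 < Real.log (2 * Λ * (K * P)) := Real.log_pos (by nlinarith)
  have s2 : Real.log (2 * Λ * (K * P)) ≤ Real.log x :=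
    Real.log_le_log (by positivity) (by nlinarith)
  have r1 : x ^ (ν / 2) * x ^ (-ν) ≤ x ^ (-min (ν / 2) (1 / 2)) := by
    rw [← Real.rpow_add hx0]
    exact Real.rpow_le_rpow_of_exponent_le hx (by linarith [min_le_left (ν / 2) (1 / 2)])
  have r2 : x ^ (-(1 / 2) : ℝ) ≤ x ^ (-min (ν / 2) (1 / 2)) :=
    Real.rpow_le_rpow_of_exponent_le hx (neg_le_neg (min_le_right _ _))
  have hcov := cov_DualV hC (Δ := Δ) (Γ := x ^ (-(1 / 1000) : ℝ)) (D := D) (b := b) (c := c)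
    (M := CH * (σ ^ 2 * P * Q + Cs * Λ ^ 2 * (β ^ 2 * (K * P) ^ 2 * x ^ (-min (ν / 2) (1 / 2)))))
    hx0 g.k1 hP1 hΛ g.p1 n1 n2 (by positivity) fun X k1 k2 => by
      refine (hH X Δ _ σ (Cs * β * (Λ * (K * P)) * Real.log (2 * Λ * (K * P))) K P N D b c
        (hG X k1 k2) ⟨by linarith, le_rfl⟩ hD hP1 n1 n2 n3 hb (by positivity)
        (fun v => hS Δ _ β v K P Λ D b c hΔ hΔΓ g.k1 hP1 hΛ hD hb hc n4)
        fun t k3 k4 => hσ t (t1.trans k3) k4).trans ?_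
      have k3 := sqrt_DualV hP1 hΛ hc
      have k4 := s2.trans l1
      refine mul_le_mul_of_nonneg_left (add_le_add le_rfl ?_) hCH.le
      calc Cs * β * (Λ * (K * P)) * Real.log (2 * Λ * (K * P)) * K * √(P * Q) * x ^ (-ν)
          ≤ Cs * β * (Λ * (K * P)) * x ^ (ν / 2) * K * (Λ * β * P) * x ^ (-ν) := by gcongr
        _ = Cs * Λ ^ 2 * (β ^ 2 * (K * P) ^ 2 * (x ^ (ν / 2) * x ^ (-ν))) := by ring
        _ ≤ _ := by gcongr
  have htail := tail_DualV hT hx l2 g.d1 hΔΓ g.k1 hP1 hΛ hD hb hc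
  have hplan := hP Δ _ (4 * x ^ (1 / 1000 : ℝ)) T₁ D (Icc P (Λ * P)) b c hΔ hΓ
    (fun h0 => Nat.not_prime_zero (hD 0 h0).1) (fun h0 => by
      have := (mem_Icc.1 h0).1
      omega) e4.le t6 t3
  have r3 : β ^ 2 * (K * P) ^ 2 * x ^ (-(1 / 2) : ℝ) ≤
      β ^ 2 * (K * P) ^ 2 * x ^ (-min (ν / 2) (1 / 2)) := by gcongr
  rw [← intervalIntegral.integral_add_adjacent_intervals (b := 4 * x ^ (1 / 1000 : ℝ))
    (Continuous.intervalIntegrable (by fun_prop) _ _)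
    (Continuous.intervalIntegrable (by fun_prop) _ _)]
  have hl := hlow _ t4 t6 le_rfl
  generalize β ^ 2 * (K * P) ^ 2 * x ^ (-min (ν / 2) (1 / 2)) = B at *
  generalize σ ^ 2 * P * Q = A at *
  have f1 : ∫ v, Dv Δ (x ^ (-(1 / 1000) : ℝ)) D (Icc P (Λ * P)) b c v ^ 2 ≤
      (6 * CH * (1 + Cs * Λ ^ 2) + 2 * Λ ^ 2) * (A + B) := by
    have k1 : 2 * (Λ : ℝ) ^ 2 * (β ^ 2 * (K * P) ^ 2 * x ^ (-(1 / 2) : ℝ)) ≤
        2 * Λ ^ 2 * (A + B) := mul_le_mul_of_nonneg_left (by linarith) (by positivity)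
    have k2 : A + Cs * Λ ^ 2 * B ≤ (1 + Cs * Λ ^ 2) * (A + B) := by
      have : 0 ≤ Cs * Λ ^ 2 * A := by positivity
      linarith
    have k3 := mul_le_mul_of_nonneg_left k2 hCH.le
    linarith
  have f2 := mul_le_mul_of_nonneg_left f1 (show 0 ≤ 8 * π by positivity)
  have f3 := mul_le_mul_of_nonneg_left (show A ≤ A + B by linarith) hW'
  linarith

end Pool.Agent.MP_c853c5_nt.DV

end

section

/-! The bound that improves itself. -/

set_option autoImplicit false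

open Finset Filter Real MeasureTheory

namespace Pool.Agent.MP_c853c5_nt.DV

open DS (PrK Wid FF)

lemma id_HV (X Δ Γ : ℝ) (D R R' : Finset ℕ) (b c c' : ℕ → ℝ) (hD : 0 ∉ D) (hR : 0 ∉ R)
    (hR' : 0 ∉ R') :
    ∑ m ∈ R, c m * FF X Δ Γ D R' b c' m =
      ∑ n ∈ R', c' n * Dv Δ Γ D R b c (Real.log X - Real.log n) := by
  simp only [FF, Dv, sum_product, mul_sum]
  rw [sum_comm]
  conv_rhs => rw [sum_comm]
  refine sum_congr rfl fun k hk => ?_
  rw [sum_comm]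
  refine sum_congr rfl fun n hn => sum_congr rfl fun m hm => ?_
  have h1 : (k : ℝ) ≠ 0 := Nat.cast_ne_zero.2 fun h => hD (h ▸ hk)
  have h2 : (m : ℝ) ≠ 0 := Nat.cast_ne_zero.2 fun h => hR (h ▸ hm)
  have h3 : (n : ℝ) ≠ 0 := Nat.cast_ne_zero.2 fun h => hR' (h ▸ hn)
  have h4 : Real.log X - Real.log ((m : ℝ) * k * n) =
      Real.log X - Real.log n - Real.log ((k : ℝ) * m) := by
    rw [Real.log_mul (mul_ne_zero h2 h1) h3, mul_comm (m : ℝ)]
    ring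
  simp only [E.dg, h4]
  ring

lemma self_HV {H a e : ℝ} (ha : 0 ≤ a) (he : 0 ≤ e) (h : H ^ 2 ≤ a * H + e ^ 2) : H ≤ a + e := by
  by_contra hc
  nlinarith [mul_nonneg ha he]

theorem h_stmt (hM : DU.MeanStmt) (hV : MvStmt) : HStmt := by
  intro r Λ μ hr hΛ hμ
  obtain ⟨ν, hν, hM⟩ := hM r (128 * Λ) μ hr (by omega) hμ
  obtain ⟨Cv, hCv, hV⟩ := hV
  have hΛ' : (1 : ℝ) ≤ Λ := by exact_mod_cast hΛ
  refine ⟨ν / 2, 4096 * 22 * 129 * Λ ^ 3 * Cv + 22 * Λ, by positivity, by positivity, ?_⟩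
  filter_upwards [hM, E.ev_le_log 1, eventually_ge_atTop (1 : ℝ)] with x hM hl hx
  intro X Δ Γ σ S K P N D b c hG hW hD hP h1 h2 h3 hb hS hsup hσ
  have hx0 : 0 < x := by linarith
  have hK : (1 : ℝ) ≤ K := by exact_mod_cast hG.k1
  have hN : (1 : ℝ) ≤ N := by exact_mod_cast hG.p1
  have hP' : (1 : ℝ) ≤ P := by exact_mod_cast hP
  have hΔ : 0 < Δ := lt_of_lt_of_le (Real.rpow_pos_of_pos hx0 _) hG.d1
  set R := Icc P (Λ * P) with hR
  set R' := Icc N (128 * Λ * N) with hR'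
  set V : ℕ → ℝ := fun n => Dv Δ Γ D R b c (Real.log X - Real.log n) with hVd
  set H := Hw Δ Γ D R R' b c (Real.log X) with hH
  have hH' : H = ∑ n ∈ R', V n ^ 2 / n := rfl
  have hH0 : 0 ≤ H := hH' ▸ sum_nonneg fun n _ => by positivity
  set Q := ∑ n ∈ R, c n ^ 2 with hQ
  have hQ0 : 0 ≤ Q := sum_nonneg fun n _ => sq_nonneg _
  set s := S / N with hs
  have hs0 : 0 < s := by positivity
  set c' : ℕ → ℝ := fun n => if N ≤ n then V n / (n * s) else 0 with hc'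
  have hc1 : ∀ n, |c' n| ≤ 1 := by
    intro n
    simp only [hc']
    split_ifs with h
    · have h4 : (N : ℝ) ≤ n := by exact_mod_cast h
      have h5 : 0 < (n : ℝ) * s := mul_pos (by linarith) hs0
      rw [abs_div, abs_of_pos h5, div_le_one h5]
      refine (hsup _).trans ?_
      calc S = N * s := by rw [hs]; field_simp
        _ ≤ n * s := by gcongr
    · simp
  have hid : H = s * ∑ m ∈ R, c m * FF X Δ Γ D R' b c' m := by
    rw [id_HV _ _ _ _ _ _ _ _ _ (fun h => Nat.not_prime_zero (hD 0 h).1)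
      (fun h => by have := (mem_Icc.1 h).1; omega)
      (fun h => by have := (mem_Icc.1 h).1; have := hG.p1; omega), hH', mul_sum]
    refine sum_congr rfl fun n hn => ?_
    have h4 := (mem_Icc.1 hn).1
    have h5 : (N : ℝ) ≤ n := by exact_mod_cast h4
    have h6 : (n : ℝ) ≠ 0 := by linarith
    simp only [hc', if_pos h4]
    change _ = s * (V n / (n * s) * V n)
    field_simp
  have hsq : ∑ n ∈ R', c' n ^ 2 ≤ H / (N * s ^ 2) := by
    rw [hH', sum_div]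
    refine sum_le_sum fun n hn => ?_
    have h4 := (mem_Icc.1 hn).1
    have h5 : (N : ℝ) ≤ n := by exact_mod_cast h4
    have h6 : (0 : ℝ) < n := by linarith
    simp only [hc', if_pos h4]
    rw [div_pow, div_div]
    refine div_le_div_of_nonneg_left (sq_nonneg _) (by positivity) ?_
    calc (n : ℝ) * (N * s ^ 2) ≤ n * (n * s ^ 2) := by gcongr
      _ = (n * s) ^ 2 := by ring
  have hT : x ^ (1 / 2000 : ℝ) ≤ Real.log x / Δ := by
    rw [le_div_iff₀ hΔ]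
    calc x ^ (1 / 2000 : ℝ) * Δ ≤ x ^ (1 / 2000 : ℝ) * x ^ (-(1 / 3) : ℝ) :=
          mul_le_mul_of_nonneg_left hG.d2 (by positivity)
      _ = x ^ (1 / 2000 + -(1 / 3) : ℝ) := (Real.rpow_add hx0 _ _).symm
      _ ≤ 1 := Real.rpow_le_one_of_one_le_of_nonpos hx (by norm_num)
      _ ≤ _ := hl
  have hT1 : Real.log x / Δ ≤ N := by rwa [div_le_iff₀ hΔ]
  have hint : ∫ t in (x ^ (1 / 2000 : ℝ))..(Real.log x / Δ),
      ‖E.FP D b t‖ ^ 2 * ‖E.FP R' c' t‖ ^ 2 ≤ 129 * Λ * Cv * σ ^ 2 * H / s ^ 2 := by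
    have c1 := (E.continuous_FP D b).norm.pow 2
    have c2 := (E.continuous_FP R' c').norm.pow 2
    calc _ ≤ ∫ t in (x ^ (1 / 2000 : ℝ))..(Real.log x / Δ), σ ^ 2 * ‖E.FP R' c' t‖ ^ 2 := by
          refine intervalIntegral.integral_mono_on hT ((c1.mul c2).intervalIntegrable _ _)
            ((continuous_const.mul c2).intervalIntegrable _ _) fun t ht => ?_
          exact mul_le_mul_of_nonneg_right
            (pow_le_pow_left₀ (norm_nonneg _) (hσ t ht.1 ht.2) 2) (sq_nonneg _)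
      _ = σ ^ 2 * ∫ t in (x ^ (1 / 2000 : ℝ))..(Real.log x / Δ), ‖E.FP R' c' t‖ ^ 2 :=
          intervalIntegral.integral_const_mul _ _
      _ ≤ σ ^ 2 * (Cv * (Real.log x / Δ + (128 * Λ * N : ℕ)) * ∑ n ∈ R', c' n ^ 2) :=
          mul_le_mul_of_nonneg_left (hV R' c' _ _ _ (by positivity) hT
            (Icc_subset_Icc_left hG.p1)) (sq_nonneg _)
      _ ≤ σ ^ 2 * (Cv * (Λ * N + 128 * Λ * N) * (H / (N * s ^ 2))) := by
          push_cast
          have : Real.log x / Δ ≤ Λ * N := hT1.trans (le_mul_of_one_le_left (by linarith) hΛ')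
          gcongr
      _ = _ := by field_simp; ring
  have hm := hM X Δ Γ _ P K N D b c' hG hW hD hP (by
    have : (P : ℝ) * (K * N) * 1 ≤ P * (K * N) * (11 * Λ) :=
      mul_le_mul_of_nonneg_left (by linarith) (by positivity)
    linarith) hb hc1 hint
  have hsub : ∑ m ∈ R, FF X Δ Γ D R' b c' m ^ 2 ≤
      ∑ m ∈ Icc P (128 * Λ * P), FF X Δ Γ D R' b c' m ^ 2 :=
    sum_le_sum_of_subset_of_nonneg
      (Icc_subset_Icc_right (Nat.mul_le_mul_right _ (by omega))) fun _ _ _ => sq_nonneg _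
  have hcs := sum_mul_sq_le_sq_mul_sq R c (FF X Δ Γ D R' b c')
  have hxk : x / (K * N) ≤ 22 * Λ * P := by
    rw [div_le_iff₀ (by positivity)]
    linarith
  set y := x ^ (-(ν / 2)) with hy
  have hy0 : 0 < y := Real.rpow_pos_of_pos hx0 _
  have hy2 : x ^ (-ν) = y ^ 2 := by
    rw [hy, ← Real.rpow_natCast, ← Real.rpow_mul hx0.le]
    congr 1
    push_cast
    ring
  rw [hy2] at hm
  push_cast at hm
  have hrt : √(P * Q) ^ 2 = P * Q := Real.sq_sqrt (by positivity)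
  have key : H ^ 2 ≤ (4096 * 22 * 129 * Λ ^ 3 * Cv * (σ ^ 2 * P * Q)) * H +
      (22 * Λ * (S * K * √(P * Q) * y)) ^ 2 := by
    have e1 : s ^ 2 * (x * (K * N)) ≤ (22 * Λ) ^ 2 * (S ^ 2 * K ^ 2 * P) := by
      calc s ^ 2 * (x * (K * N)) = S ^ 2 * K ^ 2 * (x / (K * N)) := by rw [hs]; field_simp
        _ ≤ S ^ 2 * K ^ 2 * (22 * Λ * P) := by gcongr
        _ = (22 * Λ) * 1 * (S ^ 2 * K ^ 2 * P) := by ring
        _ ≤ (22 * Λ) * (22 * Λ) * (S ^ 2 * K ^ 2 * P) := by gcongr; linarith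
        _ = _ := by ring
    calc H ^ 2 = s ^ 2 * (∑ m ∈ R, c m * FF X Δ Γ D R' b c' m) ^ 2 := by rw [hid, mul_pow]
      _ ≤ s ^ 2 * (Q * (32 * (128 * Λ) * (22 * Λ * P) * (129 * Λ * Cv * σ ^ 2 * H / s ^ 2) +
            x * (K * N) * y ^ 2)) := by
          refine mul_le_mul_of_nonneg_left (hcs.trans (mul_le_mul_of_nonneg_left
            (hsub.trans (hm.trans ?_)) hQ0)) (sq_nonneg _)
          gcongr
      _ = (4096 * 22 * 129 * Λ ^ 3 * Cv * (σ ^ 2 * P * Q)) * H +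
            s ^ 2 * (x * (K * N)) * (Q * y ^ 2) := by field_simp; ring
      _ ≤ (4096 * 22 * 129 * Λ ^ 3 * Cv * (σ ^ 2 * P * Q)) * H +
            (22 * Λ) ^ 2 * (S ^ 2 * K ^ 2 * P) * (Q * y ^ 2) := by gcongr
      _ = _ := by simp only [mul_pow, hrt]; ring
  refine (self_HV (by positivity) (by positivity) key).trans ?_
  have e2 : 0 ≤ 4096 * 22 * 129 * Λ ^ 3 * Cv * (S * K * √(P * Q) * y) := by positivity
  have e3 : 0 ≤ 22 * Λ * (σ ^ 2 * P * Q) := by positivity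
  linarith

end Pool.Agent.MP_c853c5_nt.DV

end

section

/-!
The mean square from the exponents: the dual problem is taken at the scale `x ^ (6 / 5)`.
-/

set_option autoImplicit false

open Finset Filter Real MeasureTheory

namespace Pool.Agent.MP_c853c5_nt.DV

/-- the conditions of the dispersion bound at the new scale -/
lemma disp_VV {τ η a₂ a₁ z : ℝ} {r : ℕ} (hr : 2 ≤ r) (hτ : τ ≤ 1 / 2)
    (hz : 0 < z) (hrz : r * z = η / 8) (h : VOK τ η r a₂ a₁) :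
    DU.DispOK (5 * (τ + z) / 6) (η / 4) r (5 * a₁ / 6) (5 * a₂ / 6)
      (1 - 5 * (a₁ + a₂) / 6) := by
  obtain ⟨v1, v2, v3, v4, v5, v6⟩ := h
  have hr2 : (2 : ℝ) ≤ r := by exact_mod_cast hr
  have w0 : (0 : ℝ) ≤ max 0 (τ - a₁) := le_max_left _ _
  have w1 : τ - a₁ ≤ max 0 (τ - a₁) := le_max_right _ _
  generalize max 0 (τ - a₁) = w at *
  have hz2 : z ≤ η / 16 := by nlinarith
  have u1 : max 0 (5 * (τ + z) / 6 - 5 * a₁ / 6) ≤ 5 * (w + z) / 6 :=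
    max_le (by linarith) (by linarith)
  unfold DU.DispOK
  generalize max 0 (5 * (τ + z) / 6 - 5 * a₁ / 6) = u at *
  have e1 : r * u ≤ r * (5 * (w + z) / 6) := mul_le_mul_of_nonneg_left u1 (by linarith)
  have e2 : (2 * r + 1) * (5 * a₂ / 6) ≤
      (2 * r + 1) * (1 - 5 * (a₁ + a₂) / 6 + 5 * a₂ / 6 - 5 * (τ + z) / 6) :=
    mul_le_mul_of_nonneg_left (by linarith) (by linarith)
  have e3 : (r - 1) * (5 * a₂ / 6) ≤
      (r - 1) * (1 - 5 * (a₁ + a₂) / 6 + 5 * a₂ / 6 - 5 * (τ + z) / 6) :=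
    mul_le_mul_of_nonneg_left (by linarith) (by linarith)
  exact ⟨Or.inr (by linarith), by linarith, by linarith, by linarith, by linarith, by linarith,
    by linarith, by linarith⟩

/-- the final bound -/
lemma fin_VV {C L K P S E : ℝ} {A C₀ : ℕ} (hC : 0 < C) (hL : 1 ≤ L) (hCL : 2 * C ≤ L)
    (hP : 0 ≤ P) (hS : S ≤ P * L ^ C₀) (hE : 2 * C * L ^ A * E ≤ 1) :
    C * ((K / L ^ (A + C₀ + 1)) ^ 2 * P * S + (K * P) ^ 2 * E) ≤ (K * P) ^ 2 / L ^ A := by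
  have hL0 : 0 < L := by linarith
  have a1 : (K / L ^ (A + C₀ + 1)) ^ 2 * P * S ≤ (K / L ^ (A + C₀ + 1)) ^ 2 * P * (P * L ^ C₀) :=
    mul_le_mul_of_nonneg_left hS (by positivity)
  have a2 : (K / L ^ (A + C₀ + 1)) ^ 2 * P * (P * L ^ C₀) =
      (K * P) ^ 2 / L ^ A * (1 / L ^ (A + C₀ + 2)) := by
    field_simp
    ring
  have a3 : L ≤ L ^ (A + C₀ + 2) := le_self_pow₀ hL (by omega)
  have a4 : C * (1 / L ^ (A + C₀ + 2)) ≤ 1 / 2 := by
    rw [mul_one_div, div_le_iff₀ (by positivity)]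
    linarith
  have a5 : (K * P) ^ 2 * E = (K * P) ^ 2 / L ^ A * (L ^ A * E) := by
    field_simp
  have a6 : 0 ≤ (K * P) ^ 2 / L ^ A := by positivity
  rw [a5]
  generalize (K * P) ^ 2 / L ^ A = Q at *
  have b1 := mul_le_mul_of_nonneg_left (a1.trans a2.le) hC.le
  have b2 := mul_le_mul_of_nonneg_left a4 a6
  have b3 := mul_le_mul_of_nonneg_left hE a6
  nlinarith

theorem v_stmt (hD : DualStmt) (hG : DU.GeoStmt) : VStmt := by
  intro r Λ A C₀ η hr hΛ hη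
  have hr2 : (2 : ℝ) ≤ r := by exact_mod_cast hr
  have hΛ1 : (1 : ℝ) ≤ Λ := by exact_mod_cast hΛ
  obtain ⟨μ, g, hμ, hg, hG⟩ := hG r (η / 4) hr (by positivity)
  obtain ⟨ν, C, hν, hC, hD⟩ := hD r Λ μ hr hΛ hμ
  obtain ⟨z, hz, hrz⟩ : ∃ z : ℝ, 0 < z ∧ r * z = η / 8 :=
    ⟨η / (8 * r), by positivity, by field_simp⟩
  have hz2 : z ≤ η / 16 := by nlinarith
  obtain ⟨γ, hγ, γ1, γ2⟩ : ∃ γ : ℝ, 0 < γ ∧ γ ≤ g / 2 ∧ γ ≤ η / 4 :=
    ⟨min (g / 2) (η / 4), by positivity, min_le_left _ _, min_le_right _ _⟩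
  obtain ⟨δ, hδ, δ1, δ2⟩ : ∃ δ : ℝ, 0 < δ ∧ δ ≤ g / 5 ∧ δ ≤ 1 / 100 :=
    ⟨min (g / 5) (1 / 100), by positivity, min_le_left _ _, min_le_right _ _⟩
  have ty : Tendsto (fun x : ℝ => x ^ (6 / 5 : ℝ)) atTop atTop := tendsto_rpow_atTop (by norm_num)
  refine ⟨ν / 4, γ, by positivity, hγ, ?_⟩
  filter_upwards [eventually_gt_atTop 1, ty.eventually hG, ty.eventually hD,
    E.ev_const_le (22 * Λ) hδ, E.ev_log_le (6 / 5) 1 hδ, E.ev_log_le 1 1 hz,
    E.ev_le_log 1, E.ev_le_log (2 * C),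
    E.ev_log_le (2 * C) A (show 0 < ν / 2 by positivity)] with x hx hG hD c1 c2 c3 c4 c5 c6
  intro τ T₁ a₂ a₁ K P D b c hτ hV hK1 hK2 hP1 hP2 hT1 hT2 hPr hb hc hS hF
  have hx0 : 0 < x := by linarith
  have dis := disp_VV hr hτ hz hrz hV
  obtain ⟨v1, v2, v3, v4, v5, v6⟩ := hV
  have w0 : (0 : ℝ) ≤ max 0 (τ - a₁) := le_max_left _ _
  have w1 : τ - a₁ ≤ max 0 (τ - a₁) := le_max_right _ _
  generalize max 0 (τ - a₁) = w at *
  have up : ∀ {a b : ℝ}, a ≤ b → x ^ a ≤ x ^ b := fun h => rpow_le_rpow_of_exponent_le hx.le h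
  have sc : ∀ a : ℝ, (x ^ (6 / 5 : ℝ)) ^ a = x ^ (6 / 5 * a) := fun a => (rpow_mul hx0.le _ _).symm
  have ad : ∀ a b : ℝ, x ^ a * x ^ b = x ^ (a + b) := fun a b => (rpow_add hx0 _ _).symm
  have pos : ∀ a : ℝ, 0 < x ^ a := fun a => rpow_pos_of_pos hx0 a
  have hK0 : (0 : ℝ) < K := (pos _).trans_le hK1
  have hP0 : (0 : ℝ) < P := (pos _).trans_le hP1
  have kp1 : x ^ (a₂ + a₁ - 2 * γ) ≤ K * P := by
    refine le_trans (le_of_eq ?_) (mul_le_mul hK1 hP1 (pos _).le hK0.le)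
    rw [ad]
    congr 1
    ring
  have kp2 : (K : ℝ) * P ≤ x ^ (a₂ + a₁ + 2 * γ) := by
    refine (mul_le_mul hK2 hP2 hP0.le (pos _).le).trans (le_of_eq ?_)
    rw [ad]
    congr 1
    ring
  have q0 : (0 : ℝ) < 11 * Λ * (K * P) := by positivity
  have q1 : 22 * Λ * ((K : ℝ) * P) ≤ x ^ (δ + (a₂ + a₁ + 2 * γ)) := by
    rw [← ad]
    exact mul_le_mul c1 kp2 (by positivity) (pos _).le
  have q2 : 1 ≤ x ^ (6 / 5 : ℝ) / (11 * Λ * (K * P)) := by
    rw [one_le_div q0]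
    refine le_trans (by linarith) (q1.trans (up (by linarith)))
  obtain ⟨N, n1, n2⟩ : ∃ N : ℕ, 11 * Λ * (K * P) * N ≤ x ^ (6 / 5 : ℝ) ∧
      x ^ (6 / 5 : ℝ) ≤ 22 * Λ * (K * P) * N := by
    refine ⟨⌊x ^ (6 / 5 : ℝ) / (11 * Λ * (K * P))⌋₊, ?_, ?_⟩
    · have := Nat.floor_le (zero_le_one.trans q2)
      rwa [le_div_iff₀' q0] at this
    · have h1 := (Nat.lt_floor_add_one (x ^ (6 / 5 : ℝ) / (11 * Λ * (K * P)))).le
      have h2 : (1 : ℝ) ≤ ⌊x ^ (6 / 5 : ℝ) / (11 * Λ * (K * P))⌋₊ := by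
        exact_mod_cast (Nat.one_le_floor_iff _).2 q2
      rw [div_le_iff₀' q0] at h1
      have h3 := mul_le_mul_of_nonneg_left h2 q0.le
      linarith
  have hN0 : (0 : ℝ) ≤ N := Nat.cast_nonneg N
  have kpn : (K : ℝ) * P * N ≤ x ^ (6 / 5 : ℝ) := by
    refine le_trans ?_ n1
    have : (K : ℝ) * P ≤ 11 * Λ * (K * P) :=
      le_mul_of_one_le_left (by positivity) (by linarith)
    exact mul_le_mul_of_nonneg_right this hN0
  have n3 : x ^ (6 / 5 - (δ + (a₂ + a₁ + 2 * γ))) ≤ N := by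
    rw [rpow_sub hx0, div_le_iff₀' (pos _)]
    exact n2.trans (mul_le_mul_of_nonneg_right q1 hN0)
  have n4 : (N : ℝ) ≤ x ^ (6 / 5 - (a₂ + a₁ - 2 * γ)) := by
    rw [rpow_sub hx0, le_div_iff₀' (pos _)]
    exact (mul_le_mul_of_nonneg_right kp1 hN0).trans kpn
  have hΔ : (x ^ (6 / 5 : ℝ)) ^ (-(5 * (τ + z) / 6)) = x ^ (-(τ + z)) := by
    rw [sc]
    congr 1
    ring
  have geo := hG (5 * (τ + z) / 6) (5 * (τ + z) / 6) (5 * a₁ / 6) (5 * a₂ / 6)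
    (1 - 5 * (a₁ + a₂) / 6) P K N (by linarith) le_rfl (by linarith) (by linarith) dis
    (by rw [sc]; exact (up (by linarith)).trans hP1)
    (by rw [sc]; exact (up (by linarith)).trans hK1)
    (by rw [sc]; exact hK2.trans (up (by linarith)))
    (by rw [sc]; exact (up (by linarith)).trans n3)
    (by rw [sc]; exact n4.trans (up (by linarith)))
    (by have := pos (6 / 5); linarith)
  rw [hΔ] at geo
  have lg : Real.log (x ^ (6 / 5 : ℝ)) ≤ x ^ δ := by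
    rw [log_rpow hx0]
    simpa using c2
  have inv : 1 / x ^ (-(τ + z)) = x ^ (τ + z) := by rw [rpow_neg hx0.le, one_div, inv_inv]
  have key := hD (x ^ (-(τ + z))) (K / Real.log x ^ (A + C₀ + 1)) (x ^ (ν / 4))
    (x ^ (1 / 2000 : ℝ)) T₁ K P N D b c geo hPr n1 n2
    (lg.trans (le_trans (by rw [ad]; exact up (by linarith))
      (mul_le_mul_of_nonneg_right n3 (pos _).le)))
    (le_trans (by rw [ad]; exact one_le_rpow hx.le (by linarith))
      (mul_le_mul_of_nonneg_right kp1 (pos _).le))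
    (by
      rw [sc]
      refine le_trans (mul_le_mul_of_nonneg_right (le_trans (by linarith) c1) (pos _).le) ?_
      rw [ad]
      exact (up (by linarith)).trans hP1)
    hb hc (pos _).le (by rw [sc]; exact up (by norm_num)) hT1
    (by
      rw [inv, ← ad]
      exact hT2.trans (mul_le_mul_of_nonneg_left (by simpa using c3) (pos _).le))
    (fun t t1 t2 => hF t t1 (by
      refine t2.trans ?_
      rw [div_eq_mul_one_div, inv]
      refine (mul_le_mul_of_nonneg_right lg (pos _).le).trans ?_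
      rw [ad]
      exact (up (by linarith)).trans (rpow_one x).le))
  refine key.trans ?_
  have e : (x ^ (ν / 4)) ^ 2 * ((K : ℝ) * P) ^ 2 * (x ^ (6 / 5 : ℝ)) ^ (-ν) =
      ((K : ℝ) * P) ^ 2 * x ^ (ν / 2 + 6 / 5 * -ν) := by
    rw [sc, ← ad, sq (x ^ (ν / 4)), ad, show ν / 4 + ν / 4 = ν / 2 by ring]
    ring
  rw [e]
  refine fin_VV hC c4 c5 hP0.le hS ?_
  refine (mul_le_mul_of_nonneg_right c6 (pos _).le).trans ?_
  rw [ad]
  exact rpow_le_one_of_one_le_of_nonpos hx.le (by linarith)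

end Pool.Agent.MP_c853c5_nt.DV

end
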