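import Pool.Agent.MP_2a1f0e_nt.DH.Basic
import Pool.Agent.MP_c853c5_nt.W.Po2

section

/-!
The twisted fourth moment of smooth zeta sums: objects and interfaces.
-/

set_option autoImplicit false

open Finset MeasureTheory
open scoped ENNReal ComplexConjugate

namespace Pool.Agent.MP_c853c5_nt.W

open Pool.Agent.MP_2a1f0e_nt Pool.Agent.MP_2a1f0e_nt.GM Pool.Agent.MP_2a1f0e_nt.DH

/-! ### vectors and matrices -/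

abbrev V : Type := ℤ × ℤ
abbrev Pr : Type := V × V
abbrev R2 : Type := ℝ × ℝ
abbrev MM : Type := R2 × R2
abbrev Fld : Type := MM → V → ℂ
abbrev Pk : Type := Pr → MM → ℂ

open Classical in
noncomputable def iE (p : Prop) : ℝ≥0∞ := if p then 1 else 0

open Classical in
noncomputable def iC (p : Prop) : ℂ := if p then 1 else 0

def om2 (u v : V) : ℤ := u.1 * v.2 - u.2 * v.1

def hh (P : Pr) : ℤ := om2 P.1 P.2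

/-- the row vector `u` times the matrix with rows `G.1`, `G.2` -/
def vg (u : V) (G : Pr) : V := (u.1 * G.1.1 + u.2 * G.2.1, u.1 * G.1.2 + u.2 * G.2.2)

def pg (P G : Pr) : Pr := (vg P.1 G, vg P.2 G)

def ct (u : V) : ℕ := Int.gcd u.1 u.2

def Prim (u : V) : Prop := ct u = 1

def dt (x : MM) : ℝ := x.1.1 * x.2.2 - x.1.2 * x.2.1

def vx (u : V) (x : MM) : R2 :=
  ((u.1 : ℝ) * x.1.1 + (u.2 : ℝ) * x.2.1, (u.1 : ℝ) * x.1.2 + (u.2 : ℝ) * x.2.2)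

def act (G : Pr) (x : MM) : MM := (vx G.1 x, vx G.2 x)

def rt (m : MM) (a : R2) : R2 := (a.1 * m.1.1 + a.2 * m.2.1, a.1 * m.1.2 + a.2 * m.2.2)

/-- right multiplication by `m` -/
def rm (m x : MM) : MM := (rt m x.1, rt m x.2)

noncomputable def tt (P : Pr) (x : MM) : ℝ := (vx P.1 x).1 / (vx P.2 x).1

noncomputable def tr (P : Pr) (x : MM) : ℝ := (vx P.1 x).2 / (vx P.2 x).2

/-! ### the projective line modulo `q` -/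

noncomputable def PQ (q : ℕ) : Finset V :=
  (Ico (0 : ℤ) q ×ˢ Ico (0 : ℤ) q).filter fun w => Nat.Coprime (ct w) q

noncomputable def psiD (q : ℕ) : ℝ := (q : ℝ) * ∏ p ∈ q.primeFactors, (1 + 1 / (p : ℝ))

noncomputable def ind (q : ℕ) (n : ℤ) : ℂ := iC ((q : ℤ) ∣ n)

noncomputable def dl (q : ℕ) (n : ℤ) : ℂ := ind q n - ((1 / psiD q : ℝ) : ℂ)

noncomputable def NC (q : ℕ) (f : V → ℂ) (c : ℂ) : ℝ :=
  (∑ w ∈ PQ q, ‖f w - c‖ ^ 2) / (q.totient : ℝ)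

noncomputable def av (q : ℕ) (f : V → ℂ) : ℂ := (∑ w ∈ PQ q, f w) / ((PQ q).card : ℂ)

noncomputable def NV (q : ℕ) (f : V → ℂ) : ℝ := NC q f (av q f)

noncomputable def BV (q : ℕ) (f g : V → ℂ) : ℂ :=
  (∑ w ∈ PQ q, (f w - av q f) * conj (g w - av q g)) / (q.totient : ℂ)

def Per (q : ℕ) (f : V → ℂ) : Prop :=
  ∀ w w' : V, (q : ℤ) ∣ w.1 - w'.1 → (q : ℤ) ∣ w.2 - w'.2 → f w = f w'

/-- the field of a packet -/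
noncomputable def vf (q : ℕ) (pt : Pr → V) (Ψ : Pk) : Fld :=
  fun x w => ∑' P : Pr, Ψ P x * ind q (om2 w (pt P))

noncomputable def LF (μ : Measure MM) (q : ℕ) (f : Fld) : ℝ≥0∞ :=
  ∫⁻ x, ENNReal.ofReal (NV q (f x)) ∂μ

noncomputable def L0 (μ : Measure MM) (q : ℕ) (f : Fld) : ℝ≥0∞ :=
  ∫⁻ x, ENNReal.ofReal (NC q (f x) 0) ∂μ

noncomputable def LN (μ : Measure MM) (q : ℕ) (pt : Pr → V) (Ψ : Pk) : ℝ≥0∞ :=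
  LF μ q (vf q pt Ψ)

def MF (f : Fld) : Prop := ∀ w, Measurable fun x => f x w

/-! ### unfolding -/

/-- an unfolding measure -/
def UM (μ : Measure MM) : Prop := SFinite μ ∧ ∀ f : MM → ℝ≥0∞, Measurable f →
  (∀ x, dt x = 0 → f x = 0) → ∫⁻ x, ∑' G : Pr, iE (hh G = 1) * f (act G x) ∂μ = ∫⁻ x, f x

def IsOrb (z : Pr × Pr) : Prop := z.1.2 = (0, 1) ∧ 0 ≤ z.1.1.2 ∧ z.1.1.2 < |z.1.1.1|

abbrev Orb : Type := {z : Pr × Pr // IsOrb z}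

def nI (z : Pr × Pr) : ℤ := om2 z.1.1 z.2.1
def pI (z : Pr × Pr) : ℤ := om2 z.1.1 z.2.2
def sI (z : Pr × Pr) : ℤ := om2 z.1.2 z.2.1
def rI (z : Pr × Pr) : ℤ := om2 z.1.2 z.2.2

noncomputable def LL (μ : Measure MM) (S : Pr → MM → Prop) : ℝ≥0∞ :=
  ∫⁻ x, (∑' P : Pr, iE (S P x)) ^ 2 ∂μ

/-- a support condition with a point map -/
structure Shp (μ : Measure MM) (pt : Pr → V) (S : Pr → MM → Prop) : Prop where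
  eqv : ∀ P G, pt (pg P G) = vg (pt P) G
  inv : ∀ P G x, hh G = 1 → (S (pg P G) x ↔ S P (act G x))
  meas : ∀ P, MeasurableSet {x | S P x}
  sup : ∀ P x, S P x → Prim P.2 ∧ hh P ≠ 0 ∧ dt x ≠ 0 ∧ Prim (pt P)
  fin : LL μ S ≠ ⊤

/-- a packet with support in `S` -/
structure Pac (S : Pr → MM → Prop) (Ψ : Pk) : Prop where
  meas : ∀ P, Measurable (Ψ P)
  inv : ∀ P G x, hh G = 1 → Ψ (pg P G) x = Ψ P (act G x)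
  bd : ∀ P x, ‖Ψ P x‖ ≤ 1
  sp : ∀ P x, Ψ P x ≠ 0 → S P x

noncomputable def vol (S₁ S₂ : Pr → MM → Prop) (z : Pr × Pr) : ℝ≥0∞ :=
  volume {x | S₁ z.1 x ∧ S₂ z.2 x}

noncomputable def OS (ν : ℤ → ℂ) (pt₁ pt₂ : Pr → V) (Ψ₁ Ψ₂ : Pk) : ℂ :=
  ∑' z : Orb, ν (om2 (pt₁ z.1.1) (pt₂ z.1.2)) * ∫ x, Ψ₁ z.1.1 x * conj (Ψ₂ z.1.2 x)

/-! ### the class of packets -/

def Cn (α : ℝ) (a : R2) : Prop := α ≤ a.1 ∧ a.1 ≤ 4 * α ∧ |a.2| ≤ a.1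

def Adm (α : ℝ) (g : R2 → ℂ) : Prop :=
  Measurable g ∧ (∀ a, ‖g a‖ ≤ 1) ∧ ∀ a, g a ≠ 0 → Cn α a

noncomputable def E (ξ z : ℝ) : ℂ := (om z : ℂ) * ex (ξ * z)

noncomputable def FT1 (f : ℝ → ℂ) (y : ℝ) : ℂ := ∫ z : ℝ, f z * ex (-(y * z))

noncomputable def Eh (ξ y : ℝ) : ℂ := FT1 (E ξ) y

structure Dat : Type where
  g : R2 → ℂ
  al : ℝ
  x1 : ℝ
  x2 : ℝ
  H2 : ℝ
  H : ℝ

noncomputable def Dat.PP (d : Dat) : ℝ := |d.H2| * |d.H|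
noncomputable def Dat.DD (d : Dat) : ℝ := d.al ^ 2 * (d.PP + d.H ^ 2)
noncomputable def Dat.XX (d : Dat) : ℝ := d.al ^ 4 * (d.H2 ^ 2 + d.PP)
noncomputable def Dat.X (d : Dat) : ℝ := |d.H2| * d.al ^ 2 / |d.H|
noncomputable def Dat.xi (d : Dat) : ℝ := 1 + |d.x1| + |d.x2|
noncomputable def Dat.CC (d : Dat) (Q : ℕ) : ℝ := 128 * d.al ^ 2 * d.H2 ^ 2 / Q
noncomputable def Dat.sc (d : Dat) (m : ℕ) : Dat := ⟨d.g, d.al, d.x1, d.x2, d.H2 / m, d.H / m⟩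

def Dat.ok (d : Dat) (Λ : ℝ) (Q : ℕ) : Prop :=
  0 < d.al ∧ Adm d.al d.g ∧ d.al ≤ Λ ∧ |d.H2| ≤ Λ ∧ |d.H| ≤ Λ ∧ 1 ≤ Q ∧ (Q : ℝ) ≤ Λ

/-- all vectors -/
noncomputable def pa (d : Dat) : Pk := fun P x =>
  iC (Prim P.2) * d.g (vx P.2 x) * (om (dt x) : ℂ) * E d.x1 (tt P x / d.H2) *
    E d.x2 ((hh P : ℝ) / d.H)

/-- primitive vectors -/
noncomputable def pk (d : Dat) : Pk := fun P x => iC (Prim P.1) * pa d P x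

def SupA (α H2 H : ℝ) (P : Pr) (x : MM) : Prop :=
  Prim P.2 ∧ hh P ≠ 0 ∧ Cn α (vx P.2 x) ∧ 1 ≤ dt x ∧ dt x ≤ 2 ∧ |tt P x| ≤ 2 * |H2| ∧
    |H| ≤ |(hh P : ℝ)| ∧ |(hh P : ℝ)| ≤ 2 * |H|

def Sup (α H2 H : ℝ) (P : Pr) (x : MM) : Prop := Prim P.1 ∧ SupA α H2 H P x

def SupL (α : ℝ) (P : Pr) (x : MM) : Prop := hh P = 1 ∧ SupA α 1 1 P x

/-- one dyadic block of levels -/
def AP (η : ℝ) : Prop := ∃ m : ℕ, ∀ ε : ℝ, 0 < ε → ∃ K : ℝ, 0 < K ∧ ∀ μ : Measure MM, UM μ →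
  ∀ (d : Dat) (Λ : ℝ) (Q : ℕ), d.ok Λ Q →
    ∑ q ∈ Ico Q (2 * Q), LN μ q Prod.fst (pk d) ≤ ENNReal.ofReal (K * Λ ^ ε * d.xi ^ m *
      ((1 + d.PP / Q) * (d.DD * Q + d.XX * (Q : ℝ) ^ η)))

/-- all levels up to `Q` -/
def APs (η : ℝ) : Prop := ∃ m : ℕ, ∀ ε : ℝ, 0 < ε → ∃ K : ℝ, 0 < K ∧ ∀ μ : Measure MM, UM μ →
  ∀ (d : Dat) (Λ : ℝ) (Q : ℕ), d.ok Λ Q →
    ∑ q ∈ Icc 1 Q, LN μ q Prod.fst (pk d) ≤ ENNReal.ofReal (K * Λ ^ ε * d.xi ^ m *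
      (d.DD * (Q + |d.H2|) + d.XX * (Q : ℝ) ^ η))

/-- block form of `APs` -/
def APb (η : ℝ) : Prop := ∃ m : ℕ, ∀ ε : ℝ, 0 < ε → ∃ K : ℝ, 0 < K ∧ ∀ μ : Measure MM, UM μ →
  ∀ (d : Dat) (Λ : ℝ) (Q : ℕ), d.ok Λ Q →
    ∑ q ∈ Ico Q (2 * Q), LN μ q Prod.fst (pk d) ≤ ENNReal.ofReal (K * Λ ^ ε * d.xi ^ m *
      (d.DD * (Q + |d.H2|) + d.XX * (Q : ℝ) ^ η))

/-- small radius -/
def APr (η : ℝ) : Prop := ∃ m : ℕ, ∀ ε : ℝ, 0 < ε → ∃ K : ℝ, 0 < K ∧ ∀ μ : Measure MM, UM μ →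
  ∀ (d : Dat) (Λ : ℝ) (Q : ℕ), d.ok Λ Q → d.X ^ (1 + η) ≤ Q →
    ∑ q ∈ Ico Q (2 * Q), LN μ q Prod.fst (pk d) ≤ ENNReal.ofReal (K * Λ ^ ε * d.xi ^ m *
      ((1 + d.PP / Q) * (d.DD * Q)))

/-- all vectors, with a coefficient that depends on the content -/
def APl (η : ℝ) : Prop := ∃ m : ℕ, ∀ ε : ℝ, 0 < ε → ∃ K : ℝ, 0 < K ∧ ∀ μ : Measure MM, UM μ →
  ∀ (d : Dat) (Λ : ℝ) (Q : ℕ) (lam : ℕ → ℕ → ℂ) (Y : ℝ), d.ok Λ Q → 0 ≤ Y →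
    (∀ q k, 1 ≤ k → ‖lam q k‖ ≤ k.divisors.card) →
    (∀ q k, 1 ≤ k → lam q k ≠ 0 → d.PP * (Nat.gcd k q : ℝ) ≤ Y * Q * (k : ℝ) ^ 2) →
    ∑ q ∈ Ico Q (2 * Q), LN μ q Prod.fst (fun P x => lam q (ct P.1) * pa d P x) ≤
      ENNReal.ofReal (K * Λ ^ ε * d.xi ^ m * ((1 + Y) * (d.DD * Q + d.XX * (Q : ℝ) ^ η)))

/-- all vectors, large area -/
def APd (η : ℝ) : Prop := ∃ m : ℕ, ∀ ε : ℝ, 0 < ε → ∃ K : ℝ, 0 < K ∧ ∀ μ : Measure MM, UM μ →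
  ∀ (d : Dat) (Λ : ℝ) (Q : ℕ), d.ok Λ Q → (Q : ℝ) ≤ 2 * d.PP →
    ∑ q ∈ Ico Q (2 * Q), LN μ q Prod.fst (pa d) ≤ ENNReal.ofReal (K * Λ ^ ε * d.xi ^ m *
      (d.DD * (Q + |d.H2|) + d.XX * (Q : ℝ) ^ η))

/-! ### general lemmas -/

def CoVStmt : Prop :=
  (∀ P : Pr, hh P ≠ 0 →
    (∀ f : MM → ℝ≥0∞, ∫⁻ x, f (act P x) = ENNReal.ofReal (1 / (hh P : ℝ) ^ 2) * ∫⁻ x, f x) ∧
    (∀ f : MM → ℂ, ∫ x, f (act P x) = ((1 / (hh P : ℝ) ^ 2 : ℝ) : ℂ) * ∫ x, f x) ∧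
    (∀ f : MM → ℝ, ∫ x, f (act P x) = 1 / (hh P : ℝ) ^ 2 * ∫ x, f x) ∧
    ∀ f : MM → ℝ, Integrable f → Integrable fun x => f (act P x)) ∧
  ∀ m : MM, dt m = 1 → ∀ f : MM → ℝ≥0∞, ∫⁻ x, f (rm m x) = ∫⁻ x, f x

def UmStmt : Prop := ∃ μ : Measure MM, UM μ

def RtStmt : Prop := ∀ (μ : Measure MM) (m : MM), UM μ → dt m = 1 →
  UM (μ.map (rm m)) ∧ ∀ F : MM → ℝ≥0∞, ∫⁻ x, F x ∂(μ.map (rm m)) = ∫⁻ x, F (rm m x) ∂μ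

def OrbStmt : Prop := ∀ z : Pr × Pr, Prim z.1.2 → hh z.1 ≠ 0 →
  ∃! w : (Pr × Pr) × Pr, IsOrb w.1 ∧ hh w.2 = 1 ∧ z = (pg w.1.1 w.2, pg w.1.2 w.2)

/-- the anchors at `x` -/
def An (G : Pr) (x : MM) : Prop := hh G = 1 ∧ 0 ≤ tt G x ∧ tt G x < 1

def AnchStmt : Prop := ∀ (x : MM) (P : Pr), Prim P.2 → (vx P.2 x).1 ≠ 0 →
  ∃! w : Pr × V, An w.1 x ∧ P = (vg w.2 w.1, w.1.2)

def UnfStmt : Prop := ∀ μ : Measure MM, UM μ → ∀ f : Pr × Pr → MM → ℝ≥0∞,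
  (∀ z, Measurable (f z)) →
  (∀ (z : Pr × Pr) G x, hh G = 1 → f (pg z.1 G, pg z.2 G) x = f z (act G x)) →
  (∀ z x, f z x ≠ 0 → Prim z.1.2 ∧ hh z.1 ≠ 0 ∧ dt x ≠ 0) →
  ∫⁻ x, ∑' z : Pr × Pr, f z x ∂μ = ∑' z : Orb, ∫⁻ x, f z.1 x

def UnfCStmt : Prop := ∀ μ : Measure MM, UM μ → ∀ f : Pr × Pr → MM → ℂ,
  (∀ z, Measurable (f z)) →
  (∀ (z : Pr × Pr) G x, hh G = 1 → f (pg z.1 G, pg z.2 G) x = f z (act G x)) →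
  (∀ z x, f z x ≠ 0 → Prim z.1.2 ∧ hh z.1 ≠ 0 ∧ dt x ≠ 0) →
  ∑' z : Orb, ∫⁻ x, ‖f z.1 x‖ₑ ≠ ⊤ →
  Integrable (fun x => ∑' z : Pr × Pr, f z x) μ ∧
    ∫ x, ∑' z : Pr × Pr, f z x ∂μ = ∑' z : Orb, ∫ x, f z.1 x

def CardStmt : Prop := ∀ q : ℕ, 1 ≤ q → ((PQ q).card : ℝ) = (q.totient : ℝ) * psiD q

def GramStmt : Prop := ∀ q : ℕ, 1 ≤ q → ∀ y y' : V, Nat.Coprime (ct y) q →
  Nat.Coprime (ct y') q →
  ∑ w ∈ PQ q, ind q (om2 w y) * ind q (om2 w y') = (q.totient : ℂ) * ind q (om2 y y')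

def GrsStmt : Prop := ∀ q : ℕ, 1 ≤ q → ∀ (pt₁ pt₂ : Pr → V) (a b : Pr → ℂ),
  (Summable fun P => ‖a P‖) → (Summable fun P => ‖b P‖) → (∀ P, a P ≠ 0 → Prim (pt₁ P)) →
  (∀ P, b P ≠ 0 → Prim (pt₂ P)) →
  BV q (fun w => ∑' P : Pr, a P * ind q (om2 w (pt₁ P)))
      (fun w => ∑' P : Pr, b P * ind q (om2 w (pt₂ P))) =
    ∑' z : Pr × Pr, dl q (om2 (pt₁ z.1) (pt₂ z.2)) * (a z.1 * conj (b z.2))

def PbStmt : Prop := ∀ (g q : ℕ) (f : V → ℂ) (c : ℂ), 1 ≤ g → 1 ≤ q → Per q f →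
  NC (g * q) f c ≤ g * (g.divisors.card : ℝ) * NC q f c

def GcdStmt : Prop :=
  (∀ q M : ℕ, 1 ≤ q → ∑ m ∈ Icc 1 M, (Nat.gcd m q : ℝ) / m ≤
    (q.divisors.card : ℝ) * ∑ m ∈ Icc 1 M, 1 / (m : ℝ)) ∧
  (∀ n M : ℕ, 1 ≤ n → ∑ h ∈ Icc 1 M, (Nat.gcd h n : ℝ) ≤ (n.divisors.card : ℝ) * M) ∧
  (∀ e N : ℕ, 1 ≤ e → 1 ≤ N → ∑ a ∈ Icc N (2 * N), (Nat.gcd a e : ℝ) / a ≤
    2 * (e.divisors.card : ℝ)) ∧
  (∀ h a n : ℤ, h ≠ 0 → ((Ico 0 |h|).filter fun d => h ∣ a * d - n).card ≤ Int.gcd h a) ∧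
  (∀ (r a n : ℤ) (Y : ℝ) (S : Finset ℤ), r ≠ 0 → Int.gcd r a = 1 → 0 ≤ Y →
    (∀ s ∈ S, |(s : ℝ)| ≤ Y ∧ r ∣ a * s - n) → (S.card : ℝ) ≤ 2 * Y / |(r : ℝ)| + 1) ∧
  ∀ (m : ℤ) (S : Finset (ℤ × ℤ)), m ≠ 0 → (∀ k ∈ S, k.1 * k.2 = m) →
    S.card ≤ 2 * m.natAbs.divisors.card

def PsmStmt : Prop := ∀ q : ℕ, 1 ≤ q →
  (q : ℝ) / psiD q = ∑ e ∈ q.divisors, (ArithmeticFunction.moebius e : ℝ) / psiD e

def MinkSStmt : Prop := ∀ (ι : Type) [Countable ι] (μ : Measure MM) (q : ℕ) (f : Fld)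
  (fs : ι → Fld) (b : ι → ℝ) (B : ℝ), (∀ s, MF (fs s)) → (∀ s, 0 < b s) → Summable b →
  ∑' s, b s ≤ B → (∀ x, ∀ w ∈ PQ q, HasSum (fun s => fs s x w) (f x w)) →
  LF μ q f ≤ ENNReal.ofReal B * ∑' s, ENNReal.ofReal (1 / b s) * LF μ q (fs s)

def MinkIStmt : Prop := ∀ (S : Type) [MeasureSpace S] [SFinite (volume : Measure S)]
  (μ : Measure MM), SFinite μ → ∀ (q : ℕ) (f : Fld) (fs : S → Fld) (c : S → ℂ) (a : S → ℝ)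
  (B : ℝ), (∀ w, Measurable fun p : S × MM => fs p.1 p.2 w) → Measurable a → Integrable a →
  ∫ s, a s ≤ B → (∀ s, ‖c s‖ ≤ a s) →
  (∀ x, ∀ w ∈ PQ q, Integrable (fun s => c s * fs s x w) ∧ f x w = ∫ s, c s * fs s x w) →
  LF μ q f ≤ ENNReal.ofReal B * ∫⁻ s, ENNReal.ofReal (a s) * LF μ q (fs s)

def RoughStmt : Prop := ∀ μ : Measure MM, UM μ → ∀ (q : ℕ) (pt : Pr → V) (S : Pr → MM → Prop)
  (Ψ : Pk), 1 ≤ q → Shp μ pt S → (∀ P x, ‖Ψ P x‖ ≤ 1) → (∀ P x, Ψ P x ≠ 0 → S P x) →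
  L0 μ q (vf q pt Ψ) ≤ ∑' z : Orb, iE ((q : ℤ) ∣ om2 (pt z.1.1) (pt z.1.2)) * vol S S z.1

def OsStmt : Prop := ∀ μ : Measure MM, UM μ → ∀ (pt₁ pt₂ : Pr → V) (S₁ S₂ : Pr → MM → Prop),
  Shp μ pt₁ S₁ → Shp μ pt₂ S₂ → ∑' z : Orb, vol S₁ S₂ z.1 ≠ ⊤ ∧
  ∀ (q : ℕ) (Ψ₁ Ψ₂ : Pk), 1 ≤ q → Pac S₁ Ψ₁ → Pac S₂ Ψ₂ →
    (∀ κ : ℝ, 0 < κ → ‖OS (dl q) pt₁ pt₂ Ψ₁ Ψ₂‖ₑ ≤
      ENNReal.ofReal κ * LN μ q pt₁ Ψ₁ + ENNReal.ofReal κ⁻¹ * LN μ q pt₂ Ψ₂) ∧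
    (pt₁ = pt₂ → Ψ₁ = Ψ₂ → 0 ≤ (OS (dl q) pt₁ pt₂ Ψ₁ Ψ₂).re ∧
      LN μ q pt₁ Ψ₁ = ENNReal.ofReal (OS (dl q) pt₁ pt₂ Ψ₁ Ψ₂).re)

noncomputable def bmp : ContDiffBump (0 : ℝ) := ⟨1 / 200, 1 / 100, by norm_num, by norm_num⟩

/-- bump of radius `1/100` -/
noncomputable def bb (x : ℝ) : ℝ := bmp x

noncomputable def th (a₁ a₂ b₁ b₂ : ℝ) : ℝ := bb (a₁ - 1) * bb a₂ * bb b₁ * bb (b₂ - 32 / 25)

/-- the weight of the new midpoint -/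
noncomputable def th0 (A₀ : ℝ) (z : Pr × Pr) (x : MM) : ℝ :=
  th ((vx z.1.2 x).1 / A₀) ((vx z.1.2 x).2 / A₀) ((vx z.2.2 x).1 * A₀ / (rI z : ℝ))
    ((vx z.2.2 x).2 * A₀ / (rI z : ℝ))

noncomputable def c0 : ℝ := (∫ x : ℝ, bb x) ^ 4

def ThStmt : Prop := 0 < c0 ∧ ∀ (A₀ : ℝ) (z : Pr × Pr), 0 < A₀ → rI z ≠ 0 →
  Integrable (th0 A₀ z) ∧ ∫ x, th0 A₀ z x = c0

def MidStmt : Prop := ∀ μ : Measure MM, UM μ → ∀ (ι : Type) (J : Finset ι) (n q : ℕ)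
  (pt₁ pt₂ : Pr → V) (S₁ S₂ : Pr → MM → Prop) (Ψ₁ Ψ₂ : ι → (Fin n → ℝ) → Pk)
  (c : (Fin n → ℝ) → ℂ) (A₀ κ : ℝ) (G : Pr × Pr → ℂ), 1 ≤ q → Shp μ pt₁ S₁ → Shp μ pt₂ S₂ →
  0 < A₀ → 0 < κ → Measurable c → Integrable c →
  (∀ j ∈ J, ∀ ζ, Pac S₁ (Ψ₁ j ζ) ∧ Pac S₂ (Ψ₂ j ζ)) →
  (∀ j ∈ J, ∀ P, (Measurable fun p : (Fin n → ℝ) × MM => Ψ₁ j p.1 P p.2) ∧
    Measurable fun p : (Fin n → ℝ) × MM => Ψ₂ j p.1 P p.2) →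
  (∀ z, IsOrb z → G z ≠ 0 → rI z ≠ 0) →
  (∀ z, IsOrb z → ∀ x, G z * (th0 A₀ z x : ℂ) =
    ∑ j ∈ J, ∫ ζ, c ζ * (Ψ₁ j ζ z.1 x * conj (Ψ₂ j ζ z.2 x))) →
  (Summable fun z : Orb => ‖G z.1‖) ∧
  ENNReal.ofReal c0 * ‖∑' z : Orb, dl q (om2 (pt₁ z.1.1) (pt₂ z.1.2)) * G z.1‖ₑ ≤
    ∑ j ∈ J, ∫⁻ ζ, ‖c ζ‖ₑ * (ENNReal.ofReal κ * LN μ q pt₁ (Ψ₁ j ζ) +
      ENNReal.ofReal κ⁻¹ * LN μ q pt₂ (Ψ₂ j ζ))

/-- ceiling of `Q / g` -/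
def cq (Q g : ℕ) : ℕ := (Q + g - 1) / g

def PdlStmt : Prop := ∀ (μ : Measure MM) (Q M X : ℕ) (Δ Z : ℝ) (f : ℕ → Fld)
  (fm : ℕ → ℕ → Fld) (U : ℕ → ℕ → ℝ≥0∞) (S : ℕ → ℕ → Prop), 1 ≤ Q → DivB X Δ → 2 * Q ≤ X →
  M ≤ X → 0 ≤ Z →
  (∀ q ∈ Ico Q (2 * Q), ∀ x, ∀ w ∈ PQ q, f q x w = ∑ m ∈ Icc 1 M, fm q m x w) →
  (∀ q ∈ Ico Q (2 * Q), ∀ m ∈ Icc 1 M, MF (fm q m) ∧ (∀ x, Per (q / Nat.gcd m q) (fm q m x)) ∧
    LF μ (q / Nat.gcd m q) (fm q m) ≤ iE (S m (Nat.gcd m q)) * U m (q / Nat.gcd m q)) →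
  (∀ m ∈ Icc 1 M, ∀ g, g ∣ m → S m g →
    ∑ q' ∈ Ico (cq Q g) (2 * cq Q g), U m q' ≤ ENNReal.ofReal (Z / (m : ℝ) ^ 2)) →
  ∑ q ∈ Ico Q (2 * Q), LF μ q (f q) ≤ ENNReal.ofReal (4 * Δ ^ 5 * Z)

/-! ### Fourier analysis -/

def F1Stmt : Prop := ∀ f : ℝ → ℂ, ContDiff ℝ (⊤ : ℕ∞) f → HasCompactSupport f →
  Continuous (FT1 f) ∧ (∀ A : ℕ, ∃ C : ℝ, 0 < C ∧ ∀ y, ‖FT1 f y‖ ≤ C / (1 + |y|) ^ A) ∧
  ∀ z, f z = ∫ y : ℝ, FT1 f y * ex (y * z)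

def EhStmt : Prop := ∀ A : ℕ, ∃ C : ℝ, 0 < C ∧ ∀ ξ y : ℝ,
  ‖Eh ξ y‖ ≤ C * (1 + |ξ|) ^ A / (1 + |y|) ^ A

noncomputable def wh (y : ℝ) : ℂ :=
  ∫ s : ℝ, (Wt s : ℂ) * Complex.exp (Complex.I * (s : ℂ) * (y : ℂ))

/-- smooth with bounded derivatives -/
def Bdd (Ω : ℝ → ℂ) : Prop :=
  ContDiff ℝ (⊤ : ℕ∞) Ω ∧ ∀ j : ℕ, ∃ B : ℝ, ∀ s, ‖iteratedDeriv j Ω s‖ ≤ B

def WhStmt : Prop := Bdd ex ∧ Bdd wh ∧
  ∀ A : ℕ, ∃ C : ℝ, 0 < C ∧ ∀ s, ‖wh s‖ ≤ C / (1 + |s|) ^ A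

def Co1Stmt : Prop := ∀ M A : ℕ, ∃ C : ℝ, 0 < C ∧ ∀ ξ l : ℝ, ∃ c : ℝ → ℂ, Measurable c ∧
  Integrable c ∧ (∀ ζ, ‖c ζ‖ ≤ C * (1 + |ξ|) ^ (M + A) / ((1 + |l|) ^ A * (1 + |ζ|) ^ M)) ∧
  ∀ z : ℝ, (om z : ℂ) * Eh ξ (l * z) = ∫ ζ : ℝ, c ζ * E ζ z

def Pois1Stmt : Prop := ∀ ξ H c θ : ℝ, H ≠ 0 →
  HasSum (fun b : ℤ => ((|H| : ℝ) : ℂ) * Eh ξ (H * (b - θ)) * ex ((b - θ) * c))
    (∑' k : ℤ, E ξ ((k + c) / H) * ex (θ * k))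

def PoisZStmt : Prop := ∀ (q : ℕ) (w : V) (β ξ₁ ξ₂ H2 H : ℝ), 1 ≤ q → Nat.Coprime (ct w) q →
  H2 ≠ 0 → H ≠ 0 →
  (Summable fun k : V => ‖Eh ξ₁ (H2 * k.1 / q) * Eh ξ₂ (-(H * (k.2 + k.1 * β) / q))‖) ∧
  ∑' k : V, E ξ₁ ((k.2 + k.1 * β) / H2) * E ξ₂ (k.1 / H) * ind q (om2 w k) =
    ∑' k : V, ((|H2| * |H| / q : ℝ) : ℂ) *
      (Eh ξ₁ (H2 * k.1 / q) * Eh ξ₂ (-(H * (k.2 + k.1 * β) / q))) * ind q (om2 w k)

def MelAStmt : Prop := ∀ (f : ℝ → ℝ) (a b : ℝ), 0 < a → ContDiff ℝ (⊤ : ℕ∞) f →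
  (∀ x, x ≤ a ∨ b ≤ x → f x = 0) → ∀ A : ℕ, ∃ C : ℝ, 0 < C ∧ ∃ φ : ℝ → ℂ, Continuous φ ∧
    (∀ ξ, ‖φ ξ‖ ≤ C / (1 + |ξ|) ^ A) ∧ ∀ x : ℝ, 0 < x → (f x : ℂ) = ∫ ξ : ℝ, φ ξ * pw x ξ

def SepAStmt : Prop := ∀ (k n : ℕ) (A φ : (Fin k → ℝ) × (Fin n → ℝ) → ℝ) (Ω : ℝ → ℂ) (R : ℝ),
  ContDiff ℝ (⊤ : ℕ∞) A → ContDiff ℝ (⊤ : ℕ∞) φ → Bdd Ω → (∀ p, R < ‖p.2‖ → A p = 0) →
  ∀ j : ℕ, ∃ C : ℝ, 0 < C ∧ ∀ (π : Fin k → ℝ) (ξ : ℝ) (y : Fin n → ℝ), ‖π‖ ≤ R →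
    ‖iteratedFDeriv ℝ j (fun y => (A (π, y) : ℂ) * Ω (ξ * φ (π, y))) y‖ ≤ C * (1 + |ξ|) ^ j

def SepBStmt : Prop := ∀ (n M : ℕ) (R : ℝ), ∃ C : ℝ, 0 < C ∧ ∀ (F : (Fin n → ℝ) → ℂ) (B : ℝ),
  ContDiff ℝ (⊤ : ℕ∞) F → (∀ y, R < ‖y‖ → F y = 0) →
  (∀ j ≤ M, ∀ y, ‖iteratedFDeriv ℝ j F y‖ ≤ B) →
  ∃ c : (Fin n → ℝ) → ℂ, Measurable c ∧ Integrable c ∧ (∀ ζ, ‖c ζ‖ ≤ C * B / (1 + ‖ζ‖) ^ M) ∧
    ∀ y, F y = ∫ ζ, c ζ * ex (∑ i, ζ i * y i)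

def SepStmt : Prop := ∀ (k n : ℕ) (A φ : (Fin k → ℝ) × (Fin n → ℝ) → ℝ) (Ω : ℝ → ℂ) (R : ℝ),
  ContDiff ℝ (⊤ : ℕ∞) A → ContDiff ℝ (⊤ : ℕ∞) φ → Bdd Ω → (∀ p, R < ‖p.2‖ → A p = 0) →
  ∀ M : ℕ, ∃ C : ℝ, 0 < C ∧ ∀ (π : Fin k → ℝ) (ξ : ℝ), ‖π‖ ≤ R →
    ∃ c : (Fin n → ℝ) → ℂ, Measurable c ∧ Integrable c ∧
      (∀ ζ, ‖c ζ‖ ≤ C * (1 + |ξ|) ^ M / (1 + ‖ζ‖) ^ M) ∧
      ∀ y, (A (π, y) : ℂ) * Ω (ξ * φ (π, y)) = ∫ ζ, c ζ * ex (∑ i, ζ i * y i)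

def IsLg (L : ℝ → ℝ) : Prop :=
  ContDiff ℝ (⊤ : ℕ∞) L ∧ ∀ z : ℝ, |z| ≤ 1 / 2 → Real.log (1 + z) = z * L z

def LgStmt : Prop := ∃ L : ℝ → ℝ, IsLg L

def ScStmt : Prop := ∀ ε : ℝ, 0 < ε → ∃ C : ℝ, 0 < C ∧ ∀ Λ c : ℝ, 1 ≤ Λ → 1 ≤ 3 * Λ ^ 17 * c →
  (Summable fun i : ℕ => 1 / (1 + c * (4 / 3) ^ i)) ∧
    ∑' i : ℕ, 1 / (1 + c * (4 / 3) ^ i) ≤ C * Λ ^ ε

/-! ### positive counts -/

def InvB (α H2 H : ℝ) (z : Pr × Pr) : Prop :=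
  hh z.1 ≠ 0 ∧ hh z.2 ≠ 0 ∧ |H| ≤ |(hh z.1 : ℝ)| ∧ |(hh z.1 : ℝ)| ≤ 2 * |H| ∧
  |H| ≤ |(hh z.2 : ℝ)| ∧ |(hh z.2 : ℝ)| ≤ 2 * |H| ∧ |(rI z : ℝ)| ≤ 32 * α ^ 2 ∧
  |(pI z : ℝ)| ≤ 2 * |(rI z : ℝ)| * |H2| + 8 * |H| ∧
  |(sI z : ℝ)| ≤ 2 * |(rI z : ℝ)| * |H2| + 8 * |H| ∧
  |(nI z : ℝ)| ≤ 4 * H2 ^ 2 * |(rI z : ℝ)| + 32 * (|H2| * |H|)

noncomputable def vb (H2 H : ℝ) (r : ℤ) : ℝ := if r = 0 then |H2| / |H| else 1 / |(r : ℝ)|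

/-- size conditions -/
def Bd (Λ α H2 H : ℝ) : Prop := 1 ≤ Λ ∧ 0 < α ∧ α ≤ Λ ∧ |H2| ≤ Λ ∧ |H| ≤ Λ

def Cs (α H2 H R₀ : ℝ) (z : Pr × Pr) : Prop :=
  IsOrb z ∧ Prim z.1.1 ∧ Prim z.2.1 ∧ Prim z.2.2 ∧ InvB α H2 H z ∧ |(rI z : ℝ)| ≤ R₀

def InvStmt : Prop := ∀ (α H2 H : ℝ) (z : Pr × Pr) (x : MM), 0 < α → SupA α H2 H z.1 x →
  SupA α H2 H z.2 x → InvB α H2 H z

def FinStmt : Prop := ∀ (α H2 H : ℝ) (x : MM), 0 < α → {P : Pr | SupA α H2 H P x}.Finite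

def VolZStmt : Prop := ∀ α Ω : ℝ, 0 < α →
  volume {Z : MM | Cn α Z.1 ∧ Cn α Z.2 ∧ |dt Z| ≤ Ω} ≤ ENNReal.ofReal (144 * α ^ 2 * Ω)

def Vol1Stmt : Prop := ∀ (α H2 H : ℝ) (P : Pr), 0 < α → P.2 = (0, 1) →
  volume {x : MM | SupA α H2 H P x} ≤ ENNReal.ofReal (96 * α ^ 2 * (|H2| / |H|))

def VolStmt : Prop := ∀ (α H2 H : ℝ) (z : Pr × Pr), 0 < α → IsOrb z →
  vol (SupA α H2 H) (SupA α H2 H) z ≤ ENNReal.ofReal (288 * α ^ 2 * vb H2 H (rI z))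

def LogVStmt : Prop := ∀ ε : ℝ, 0 < ε → ∃ C : ℝ, 0 < C ∧ ∀ Λ α : ℝ, 1 ≤ Λ → 0 < α → α ≤ Λ →
  ∫⁻ Z : MM, iE (Cn α Z.1 ∧ Cn α Z.2 ∧ 1 ≤ |dt Z|) * ENNReal.ofReal (1 / |dt Z|) ≤
    ENNReal.ofReal (C * Λ ^ ε * α ^ 2)

/-- weighted count over the orbits that satisfy `T` -/
def CntP (T : Pr × Pr → Prop) : Prop := ∀ ε : ℝ, 0 < ε → ∃ C : ℝ, 0 < C ∧
  ∀ (Λ α H2 H R₀ A B : ℝ) (S : Finset (Pr × Pr)), Bd Λ α H2 H → 0 ≤ R₀ → 0 ≤ A → 0 ≤ B →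
    (∀ z ∈ S, Cs α H2 H R₀ z ∧ T z) →
    ∑ z ∈ S, (A + B / |(nI z : ℝ)|) * vb H2 H (rI z) ≤
      C * Λ ^ ε * ((|H2| * |H| + H ^ 2) * (B + A * (1 + |H2| * |H| + H2 ^ 2 * R₀)))

def CntAStmt : Prop := CntP fun z => nI z ≠ 0 ∧ pI z * sI z ≠ 0

def CntBStmt : Prop := CntP fun z => nI z ≠ 0 ∧ pI z * sI z = 0

def CntCStmt : Prop := ∀ ε : ℝ, 0 < ε → ∃ C : ℝ, 0 < C ∧
  ∀ (Λ α H2 H R₀ : ℝ) (S : Finset (Pr × Pr)), Bd Λ α H2 H →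
    (∀ z ∈ S, Cs α H2 H R₀ z ∧ nI z = 0) →
    ∑ z ∈ S, vb H2 H (rI z) ≤ C * Λ ^ ε * (|H2| * |H| + H ^ 2)

def TrivStmt : Prop := ∀ ε : ℝ, 0 < ε → ∃ C : ℝ, 0 < C ∧
  ∀ (Λ α H2 H R₀ A B B₀ : ℝ) (ν : ℤ → ℝ), Bd Λ α H2 H → 0 ≤ R₀ → 0 ≤ A → 0 ≤ B → 0 ≤ B₀ →
    ν 0 ≤ B₀ → (∀ n : ℤ, n ≠ 0 → |(n : ℝ)| ≤ 160 * Λ ^ 4 → ν n ≤ A + B / |(n : ℝ)|) →
    ∑' z : Orb, iE (|(rI z.1 : ℝ)| ≤ R₀) * ENNReal.ofReal (ν (nI z.1)) *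
        vol (Sup α H2 H) (Sup α H2 H) z.1 ≤
      ENNReal.ofReal (C * Λ ^ ε * (α ^ 2 * (|H2| * |H| + H ^ 2) *
        (B₀ + B + A * (1 + |H2| * |H| + H2 ^ 2 * R₀))))

def CntLStmt : Prop := ∀ ε : ℝ, 0 < ε → ∃ C : ℝ, 0 < C ∧
  ∀ (Λ α : ℝ) (a b : ℕ) (S : Finset (Pr × Pr)), 1 ≤ Λ → 0 < α → α ≤ Λ → 1 ≤ a → 1 ≤ b →
    (∀ z ∈ S, IsOrb z ∧ hh z.1 = 1 ∧ hh z.2 = 1 ∧ InvB α 1 1 z ∧ (a : ℤ) ∣ rI z ∧
      (b : ℤ) ∣ nI z) →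
    ∑ z ∈ S, vb 1 1 (rI z) ≤ C * Λ ^ ε * (1 + α ^ 2 / (a * b))

def LeftStmt : Prop := ∀ ε : ℝ, 0 < ε → ∃ C : ℝ, 0 < C ∧ ∀ μ : Measure MM, UM μ →
  ∀ (Λ α : ℝ) (Ψ : Pk), 1 ≤ Λ → 0 < α → α ≤ Λ → (∀ P x, ‖Ψ P x‖ ≤ 1) →
    (∀ P x, Ψ P x ≠ 0 → SupL α P x) →
    (∀ a b : ℕ, 1 ≤ a → 1 ≤ b → Nat.Coprime a b → LN μ (a * b) (vg ((a : ℤ), (b : ℤ))) Ψ ≤
      ENNReal.ofReal (C * Λ ^ ε * (α ^ 2 * (1 + α ^ 2 / (a * b))))) ∧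
    ∀ g : ℕ, 1 ≤ g → L0 μ g (vf g Prod.snd Ψ) ≤
      ENNReal.ofReal (C * Λ ^ ε * (α ^ 2 * (1 + α ^ 2 / g)))

def CrudeStmt : Prop := ∃ C : ℝ, 0 < C ∧ ∀ μ : Measure MM, UM μ → ∀ Λ α H2 H : ℝ,
  Bd Λ α H2 H → LL μ (SupA α H2 H) ≤ ENNReal.ofReal (C * Λ ^ 14 * (α ^ 2 * |H2|))

def ShpStmt : Prop := ∀ μ : Measure MM, UM μ → ∀ α : ℝ, 0 < α →
  (∀ H2 H : ℝ, Shp μ Prod.fst (Sup α H2 H)) ∧
  (∀ (H2 H : ℝ) (m : MM), dt m = 1 → Shp μ Prod.fst fun P x => Sup α H2 H P (rm m x)) ∧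
  (∀ a b : ℕ, Nat.Coprime a b → Shp μ (vg ((a : ℤ), (b : ℤ))) (SupL α)) ∧
  Shp μ Prod.snd (SupL α)

def BaseStmt : Prop := AP 1

def R1Stmt : Prop := ∀ η : ℝ, 0 < η → η ≤ 1 → APr η → AP (η / (1 + η))

/-! ### Poisson summation -/

/-- the dual packet -/
noncomputable def pd (d : Dat) (q : ℕ) : Pk := fun P x =>
  iC (Prim P.2 ∧ hh P ≠ 0) * d.g (vx P.2 x) * (om (dt x) : ℂ) * ((d.PP / q : ℝ) : ℂ) *
    (Eh d.x1 (d.H2 * (hh P : ℝ) / q) * Eh d.x2 (-(d.H * tt P x / q)))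

noncomputable def Rl (ξ H : ℝ) (g : ℕ) : ℂ := ∑' k : ℤ, iC (k ≠ 0) * Eh ξ (-(H * k / g))

/-- the terms on the line of the anchor -/
noncomputable def lnF (d : Dat) (q : ℕ) : Fld := fun x w =>
  ∑' G : Pr, iC (An G x) * d.g (vx G.2 x) * (om (dt x) : ℂ) * ((d.PP / q : ℝ) : ℂ) *
    (Eh d.x1 0 * Rl d.x2 d.H (Int.gcd (om2 w G.2) q))

noncomputable def pc (d : Dat) (q : ℕ) (H' T' : ℝ) : Pk := fun P x =>
  pd d q P x * ((om ((hh P : ℝ) / H') * om (tt P x / T') : ℝ) : ℂ)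

noncomputable def tm (d : Dat) (q : ℕ) (H' T₀ : ℝ) : Pk := fun P x =>
  pd d q P x * ((om ((hh P : ℝ) / H') * psi (|tt P x| / T₀) : ℝ) : ℂ)

/-- signed scales -/
noncomputable def Ts (c : ℝ) (s : Bool × ℕ) : ℝ := (if s.1 then 1 else -1) * (c * (4 / 3) ^ s.2)

abbrev Ix : Type := (Bool × ℕ) × Option (Bool × ℕ)

noncomputable def pcs (d : Dat) (q : ℕ) (T₀ : ℝ) (s : Ix) : Pk :=
  s.2.elim (tm d q (Ts (4 / 5) s.1) T₀) fun s' => pc d q (Ts (4 / 5) s.1) (Ts T₀ s')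

def ContStmt : Prop := ∀ (d : Dat) (q M : ℕ) (κ : ℕ → ℂ) (x : MM) (w : V), 1 ≤ q → 0 < d.al →
  Adm d.al d.g → 2 * |d.H| ≤ M →
  vf q Prod.fst (fun P x => κ (ct P.1) * pa d P x) x w =
    ∑ m ∈ Icc 1 M, κ m * vf (q / Nat.gcd m q) Prod.fst (pk (d.sc m)) x w ∧
  vf q Prod.fst (fun P x => (∑ e ∈ (ct P.1).divisors, κ e) * pa d P x) x w =
    ∑ e ∈ Icc 1 M, κ e * vf (q / Nat.gcd e q) Prod.fst (pa (d.sc e)) x w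

def AllStmt : Prop := ∀ η : ℝ, 0 < η → η ≤ 1 → AP η → APl η

def PoisFStmt : Prop := ∀ (d : Dat) (q : ℕ) (x : MM), 1 ≤ q → 0 < d.al → Adm d.al d.g →
  (Summable fun P => ‖pd d q P x‖) ∧ ∃ κ : ℂ, ∀ w ∈ PQ q,
    vf q Prod.fst (pa d) x w = vf q Prod.fst (pd d q) x w + lnF d q x w + κ

def LineBStmt : Prop := ∃ C : ℝ, 0 < C ∧ ∀ (ξ H : ℝ) (g : ℕ), 1 ≤ g → H ≠ 0 →
  ‖Rl ξ H g‖ ≤ C * (1 + |ξ|) ^ 2 * min 1 (g / |H|)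

def LineLStmt : Prop := ∀ ε : ℝ, 0 < ε → ∃ K : ℝ, 0 < K ∧ ∀ μ : Measure MM, UM μ →
  ∀ (d : Dat) (Λ : ℝ) (Q : ℕ), d.ok Λ Q → 1 / 2 ≤ |d.H| →
    ∑ q ∈ Ico Q (2 * Q), LF μ q (lnF d q) ≤
      ENNReal.ofReal (K * Λ ^ ε * d.xi ^ 4 * (d.DD * |d.H2| + d.XX))

/-- one piece of the dual packet -/
def APp (η : ℝ) : Prop := ∃ m : ℕ, ∀ ε : ℝ, 0 < ε → ∃ K : ℝ, 0 < K ∧ ∀ μ : Measure MM, UM μ →
  ∀ (d : Dat) (Λ : ℝ) (Q : ℕ) (H' T' : ℝ), d.ok Λ Q → 1 / 2 ≤ |d.H| → (Q : ℝ) ≤ 2 * d.PP →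
    H' ≠ 0 → T' ≠ 0 →
    ∑ q ∈ Ico Q (2 * Q), LN μ q Prod.fst (pc d q H' T') ≤
      ENNReal.ofReal (K * Λ ^ ε * d.xi ^ m * ((d.DD * Q + d.XX * (Q : ℝ) ^ η) /
        ((1 + |d.H2| * |H'| / Q) ^ 2 * (1 + |d.H| * |T'| / Q) ^ 2)))

def PieceStmt : Prop := ∀ η : ℝ, 0 < η → η ≤ 1 → APl η → APp η

def TermStmt : Prop := ∃ K : ℝ, 0 < K ∧ ∀ μ : Measure MM, UM μ →
  ∀ (d : Dat) (Λ : ℝ) (Q : ℕ) (H' : ℝ), d.ok Λ Q → 1 / 2 ≤ |d.H| → (Q : ℝ) ≤ 2 * d.PP →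
    H' ≠ 0 →
    ∑ q ∈ Ico Q (2 * Q), LN μ q Prod.fst (tm d q H' (1 / Λ ^ 16)) ≤
      ENNReal.ofReal (K * d.xi ^ 16 * (d.DD * Q / (1 + |d.H2| * |H'| / Q) ^ 2))

def PartStmt : Prop := ∀ (d : Dat) (q : ℕ) (T₀ : ℝ) (x : MM) (w : V), 0 < T₀ →
  (Summable fun P => ‖pd d q P x‖) →
  HasSum (fun s : Ix => vf q Prod.fst (pcs d q T₀ s) x w) (vf q Prod.fst (pd d q) x w)

def DualStmt : Prop := ∀ η : ℝ, 0 < η → η ≤ 1 → APp η → APd η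

def BlkStmt : Prop := ∀ η : ℝ, 0 < η → η ≤ 1 → APl η → APd η → APb η

def DyStmt : Prop := ∀ η : ℝ, 0 < η → η ≤ 1 → APb η → APs η

/-! ### the exchange of the level and its complementary divisor -/

noncomputable def nuQ (Q : ℕ) (n : ℤ) : ℂ :=
  ∑ q ∈ Icc 1 (3 * Q), (Wt ((q : ℝ) / Q) : ℂ) * dl q n

noncomputable def swp (Q Cm : ℕ) (n : ℤ) : ℂ :=
  ∑ c ∈ Icc 1 Cm, (Wt (|(n : ℝ)| / (c * Q)) : ℂ) * dl c n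

def RsStmt : Prop := ∃ C I : ℝ, 0 < C ∧ ∀ (Y : ℝ) (M : ℕ), 0 < Y → 3 * Y ≤ M + 1 →
  |∑ k ∈ Icc 1 M, Wt ((k : ℝ) / Y) / k - I| ≤ C * min 1 (1 / Y) ∧
  |∑ k ∈ Icc 1 M, Wt (Y / (k : ℝ)) / k - I| ≤ C * min 1 (1 / Y)

def ErStmt : Prop := ∀ ε : ℝ, 0 < ε → ∃ C : ℝ, 0 < C ∧ ∀ (Λ : ℝ) (Q Cm : ℕ) (n : ℤ), 1 ≤ Q →
  (Q : ℝ) ≤ Λ → n ≠ 0 → |(n : ℝ)| ≤ Λ → 3 * |(n : ℝ)| ≤ Cm →
  ‖nuQ Q n - swp Q Cm n‖ ≤ C * Λ ^ ε * (Q / |(n : ℝ)| + 1 / Q)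

def NuStmt : Prop := ∀ (Q Cm : ℕ) (n : ℤ), 1 ≤ Q → ‖nuQ Q n‖ ≤ 3 * Q ∧
  (n ≠ 0 → ‖nuQ Q n‖ ≤ (n.natAbs.divisors.card : ℝ) + 4) ∧ swp Q Cm 0 = 0 ∧ ‖swp Q Cm n‖ ≤ Cm

def BigZ (d : Dat) (Z : MM) : Prop := 1000 * |d.H| ≤ |dt Z| * |d.H2|

noncomputable def Fz (d : Dat) (Z : MM) (z : Pr × Pr) : ℂ :=
  iC (Prim z.1.1 ∧ Prim z.1.2 ∧ Prim z.2.1 ∧ Prim z.2.2) *
    ((1 / (rI z : ℝ) ^ 2 * om (dt Z / (rI z : ℝ)) ^ 2 : ℝ) : ℂ) *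
    (E d.x1 (((pI z : ℝ) - (hh z.1 : ℝ) * (Z.2.1 / Z.1.1)) / ((rI z : ℝ) * d.H2)) *
      E d.x2 ((hh z.1 : ℝ) / d.H)) *
    conj (E d.x1 (((sI z : ℝ) + (hh z.2 : ℝ) / (Z.2.1 / Z.1.1)) / ((rI z : ℝ) * d.H2)) *
      E d.x2 ((hh z.2 : ℝ) / d.H))

noncomputable def Jb (d : Dat) (z : Pr × Pr) : ℂ :=
  ∫ x, iC (BigZ d (act (z.1.2, z.2.2) x)) * (pk d z.1 x * conj (pk d z.2 x))

def ChgStmt : Prop := ∀ (d : Dat) (z : Pr × Pr), 0 < d.al → Adm d.al d.g →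
  (Measurable fun Z : MM => iC (BigZ d Z) * (d.g Z.1 * conj (d.g Z.2)) * Fz d Z z) ∧
  Jb d z = ∫ Z : MM, iC (BigZ d Z) * (d.g Z.1 * conj (d.g Z.2)) * Fz d Z z ∧
  ∫⁻ Z : MM, ‖iC (BigZ d Z) * (d.g Z.1 * conj (d.g Z.2)) * Fz d Z z‖ₑ ≤
    vol (Sup d.al d.H2 d.H) (Sup d.al d.H2 d.H) z

/-- smooth, equal to `1 / x` on `1/10 ≤ x` -/
noncomputable def iv (x : ℝ) : ℝ := Real.smoothTransition (20 * x - 1) * x⁻¹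

noncomputable def bmq : ContDiffBump (0 : ℝ) := ⟨10, 11, by norm_num, by norm_num⟩

noncomputable def cut (y : Fin 9 → ℝ) : ℝ := ∏ i, bmq (y i)

noncomputable def sg (ω : ℝ) : ℝ := ω / |ω|

def rot (s : ℝ) : MM := ((0, -s), (s, 0))

/-- the nine variables -/
noncomputable def yv (A₀ ω Ha2 Hb2 Ha Hb : ℝ) (z : Pr × Pr) (x : MM) : Fin 9 → ℝ :=
  ![(vx z.1.2 x).1 / A₀, (vx z.1.2 x).2 / A₀, (vx z.2.2 x).1 * A₀ / ω, (vx z.2.2 x).2 * A₀ / ω,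
    dt x, tt z.1 x / Ha2, tr z.2 x / Hb2, (hh z.1 : ℝ) / Ha, (hh z.2 : ℝ) / Hb]

noncomputable def ch1 (α A₀ Ha2 ξ Ha : ℝ) (i : ℤ) (ζ : Fin 9 → ℝ) : Dat :=
  ⟨fun a => iC (Cn α a) * ex ((ζ 0 * a.1 + ζ 1 * a.2) / A₀), α, ζ 5 * (4 / 3) ^ i, ξ + ζ 7,
    Ha2 * (4 / 3) ^ i, Ha⟩

noncomputable def ch2 (α B₀ Hb2 ξ Hb : ℝ) (j : ℤ) (ζ : Fin 9 → ℝ) : Dat :=
  ⟨fun a => iC (Cn α a) * ex (-((ζ 3 * a.1 - ζ 2 * a.2) / B₀)), α, -(ζ 6 * (4 / 3) ^ j), ξ - ζ 8,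
    Hb2 * (4 / 3) ^ j, Hb⟩

/-- first child -/
noncomputable def k1 (α A₀ Ha2 ξ Ha : ℝ) (i : ℤ) (ζ : Fin 9 → ℝ) : Pk := fun P x =>
  ex (ζ 4 * dt x) * pk (ch1 α A₀ Ha2 ξ Ha i ζ) P x

/-- second child -/
noncomputable def k2 (α A₀ ω Hb2 ξ Hb : ℝ) (j : ℤ) (ζ : Fin 9 → ℝ) : Pk := fun P x =>
  pk (ch2 α (|ω| / A₀) Hb2 ξ Hb j ζ) P (rm (rot (sg ω)) x)

/-- the rough packet at the top -/
noncomputable def kL (A₀ : ℝ) (ζ : Fin 9 → ℝ) : Pk := fun P x =>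
  iC (SupL (A₀ / 2) P x) * (om (dt x) : ℂ) *
    ex ((ζ 0 * (vx P.2 x).1 + ζ 1 * (vx P.2 x).2) / A₀ + ζ 4 * dt x + ζ 5 * tt P x +
      ζ 7 * (hh P : ℝ))

def ChStmt : Prop :=
  (∀ (α A₀ H2 ξ H : ℝ) (i : ℤ) (ζ : Fin 9 → ℝ), Adm α (ch1 α A₀ H2 ξ H i ζ).g ∧
    Adm α (ch2 α A₀ H2 ξ H i ζ).g) ∧
  (∀ (α A₀ ω H2 ξ H H2' : ℝ) (i : ℤ), ω ≠ 0 → 5 / 6 * |H2 * (4 / 3) ^ i| ≤ |H2'| →
    (∀ ζ, Pac (Sup α H2' H) (k1 α A₀ H2 ξ H i ζ) ∧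
      Pac (fun P x => Sup α H2' H P (rm (rot (sg ω)) x)) (k2 α A₀ ω H2 ξ H i ζ)) ∧
    ∀ P, (Measurable fun p : (Fin 9 → ℝ) × MM => k1 α A₀ H2 ξ H i p.1 P p.2) ∧
      Measurable fun p : (Fin 9 → ℝ) × MM => k2 α A₀ ω H2 ξ H i p.1 P p.2) ∧
  (∀ A₀ : ℝ, (∀ ζ, Pac (SupL (A₀ / 2)) (kL A₀ ζ)) ∧
    ∀ P, Measurable fun p : (Fin 9 → ℝ) × MM => kL A₀ p.1 P p.2) ∧
  (∀ (α β A₀ ω Ha2 Hb2 ξ ξ' Ha Hb : ℝ) (i j : ℤ) (ζ : Fin 9 → ℝ) (z : Pr × Pr) (x : MM),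
    ω ≠ 0 → 0 < A₀ →
    k1 α A₀ Ha2 ξ Ha i 0 z.1 x * conj (k2 β A₀ ω Hb2 ξ' Hb j 0 z.2 x) *
        ex (∑ l, ζ l * yv A₀ ω Ha2 Hb2 Ha Hb z x l) =
      k1 α A₀ Ha2 ξ Ha i ζ z.1 x * conj (k2 β A₀ ω Hb2 ξ' Hb j ζ z.2 x)) ∧
  ∀ (β A₀ ω Hb2 ξ' Hb : ℝ) (j : ℤ) (ζ : Fin 9 → ℝ) (z : Pr × Pr) (x : MM), ω ≠ 0 → 0 < A₀ →
    kL A₀ 0 z.1 x * conj (k2 β A₀ ω Hb2 ξ' Hb j 0 z.2 x) *
        ex (∑ l, ζ l * yv A₀ ω 1 Hb2 1 Hb z x l) =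
      kL A₀ ζ z.1 x * conj (k2 β A₀ ω Hb2 ξ' Hb j ζ z.2 x)

abbrev PY : Type := (Fin 4 → ℝ) × (Fin 9 → ℝ)

noncomputable def rh (p : PY) : ℝ := (p.2 0 * p.2 3 - p.2 1 * p.2 2) * iv (p.2 4)

noncomputable def thA (p : PY) : ℝ :=
  th (p.2 0) (p.2 1) (p.2 2 * iv (rh p)) (p.2 3 * iv (rh p)) * cut p.2

noncomputable def ph2 (p : PY) : ℝ :=
  p.2 5 + p.2 7 * p.1 0 * p.1 1 * p.2 2 * iv (p.2 0) * iv (rh p)

noncomputable def sh2 (p : PY) : ℝ :=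
  p.2 6 - p.2 8 * p.1 0 * p.1 1 * p.2 1 * iv (p.2 3) * iv (rh p)

noncomputable def z1 (p : PY) : ℝ := ph2 p - p.2 7 * p.1 0 * p.1 2 * iv (rh p)

noncomputable def z2 (p : PY) : ℝ := sh2 p + p.2 8 * p.1 0 * iv (p.1 2) * iv (rh p)

noncomputable def nh2 (p : PY) : ℝ :=
  rh p * ph2 p * sh2 p + p.2 7 * p.2 8 * p.1 0 ^ 2 * iv (rh p)

noncomputable def A2 (p : PY) : ℝ :=
  thA p * (iv (rh p) ^ 2 * om (iv (rh p)) ^ 2) * (om (z1 p) * om (z2 p) * Wt (p.1 3 * nh2 p))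

noncomputable def f2 (p : PY) : ℝ := z1 p - z2 p

/-- the four parameters -/
noncomputable def pi2 (d : Dat) (Z : MM) (Q c : ℕ) : Fin 4 → ℝ :=
  ![d.H / (dt Z * d.H2), sg (dt Z), Z.2.1 / Z.1.1, |dt Z| * d.H2 ^ 2 / (c * Q)]

noncomputable def ph3 (p : PY) : ℝ := -(rh p * p.2 5) - p.2 2 * p.1 2 * iv (p.2 0)

noncomputable def v13 (p : PY) : ℝ := rh p * p.2 6 - p.2 8 * p.1 3 * p.2 1 * iv (p.2 3)

noncomputable def v23 (p : PY) : ℝ := (ph3 p * v13 p - p.2 8 * p.1 3 * p.1 2) * iv (rh p)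

noncomputable def A3 (p : PY) : ℝ :=
  thA p * (om (v13 p * p.1 0) * om (v23 p * p.1 1) * om (rh p) * om (ph3 p))

noncomputable def f3 (L : ℝ → ℝ) (p : PY) : ℝ :=
  p.2 8 * L (p.2 8 * p.1 3 * p.1 2 * iv (v23 p) * iv (rh p)) * iv (v23 p) * iv (rh p)

def AmpStmt : Prop := ContDiff ℝ (⊤ : ℕ∞) A2 ∧ ContDiff ℝ (⊤ : ℕ∞) f2 ∧
  ContDiff ℝ (⊤ : ℕ∞) A3 ∧ (∀ L : ℝ → ℝ, ContDiff ℝ (⊤ : ℕ∞) L → ContDiff ℝ (⊤ : ℕ∞) (f3 L)) ∧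
  ∀ p : PY, 11 < ‖p.2‖ → A2 p = 0 ∧ A3 p = 0

def Id2Stmt : Prop := ∀ (d : Dat) (Z : MM) (Q c : ℕ) (z : Pr × Pr), 0 < d.al → Cn d.al Z.1 →
  Cn d.al Z.2 → BigZ d Z → 1 ≤ Q → 1 ≤ c →
  (Fz d Z z * (Wt (|(nI z : ℝ)| / (c * Q)) : ℂ) ≠ 0 → 1 ≤ |dt Z| ∧ d.H2 ≠ 0 ∧ d.H ≠ 0 ∧
    rI z ≠ 0 ∧ 1 / 4 ≤ pi2 d Z Q c 3 ∧ pi2 d Z Q c 3 ≤ 4) ∧
  (dt Z ≠ 0 → d.H2 ≠ 0 → d.H ≠ 0 → ∀ x : MM,
    Fz d Z z * (Wt (|(nI z : ℝ)| / (c * Q)) : ℂ) * (th0 √|dt Z| z x : ℂ) =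
      ∑ j ∈ Icc (-1 : ℤ) 1 ×ˢ Icc (-1 : ℤ) 1, ((1 / dt Z ^ 2 : ℝ) : ℂ) *
        (k1 (√|dt Z| / 2) √|dt Z| d.H2 d.x2 d.H j.1 0 z.1 x *
          conj (k2 (√|dt Z| / 2) √|dt Z| (dt Z) d.H2 d.x2 d.H j.2 0 z.2 x)) *
        ((A2 (pi2 d Z Q c, yv √|dt Z| (dt Z) d.H2 d.H2 d.H d.H z x) : ℂ) *
          ex (d.x1 * f2 (pi2 d Z Q c, yv √|dt Z| (dt Z) d.H2 d.H2 d.H d.H z x))))

def FixP (η : ℝ) : Prop := ∃ m : ℕ, ∀ ε : ℝ, 0 < ε → ∃ K : ℝ, 0 < K ∧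
  ∀ (d : Dat) (Λ : ℝ) (Q Cm : ℕ) (Z : MM), d.ok Λ Q → Cn d.al Z.1 → Cn d.al Z.2 → BigZ d Z →
    ‖∑' z : Orb, swp Q Cm (nI z.1) * Fz d Z z.1‖ₑ ≤ iE (1 ≤ |dt Z|) *
      ENNReal.ofReal (K * Λ ^ ε * d.xi ^ m * ((d.PP + d.H ^ 2) * (d.CC Q + |d.H2|) / |dt Z| +
        (d.H2 ^ 2 + d.PP) * d.CC Q ^ η))

def FixStmt : Prop := ∀ η : ℝ, 0 < η → η ≤ 1 → APs η → FixP η

def OutP (η : ℝ) : Prop := ∃ m : ℕ, ∀ ε : ℝ, 0 < ε → ∃ K : ℝ, 0 < K ∧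
  ∀ (d : Dat) (Λ : ℝ) (Q Cm : ℕ), d.ok Λ Q →
    ‖∑' z : Orb, swp Q Cm (nI z.1) * Jb d z.1‖ₑ ≤
      ENNReal.ofReal (K * Λ ^ ε * d.xi ^ m * (d.DD * (d.CC Q + |d.H2|) + d.XX * d.CC Q ^ η))

def OutStmt : Prop := ∀ η : ℝ, 0 < η → η ≤ 1 → FixP η → OutP η

def R2Stmt : Prop := ∀ η : ℝ, 0 < η → η ≤ 1 → OutP η → APr η

/-! ### the top level -/

/-- the smooth zeta sum -/
noncomputable def Zo (y t : ℝ) : ℂ :=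
  ∑ n ∈ Icc 1 ⌊2 * y⌋₊, (om ((n : ℝ) / y) : ℂ) * pw (n : ℝ) t

noncomputable def Q4 (T y : ℝ) (a b : ℕ) : ℂ :=
  ∑ k₁ ∈ Icc 1 ⌊2 * y⌋₊, ∑ l₂ ∈ Icc 1 ⌊2 * y⌋₊, ∑ k₂ ∈ Icc 1 ⌊2 * y⌋₊, ∑ l₁ ∈ Icc 1 ⌊2 * y⌋₊,
    ((om ((k₁ : ℝ) / y) * om ((l₂ : ℝ) / y) * om ((k₂ : ℝ) / y) * om ((l₁ : ℝ) / y) : ℝ) : ℂ) *
      wh (T * Real.log (((a : ℝ) * k₁ * l₁) / ((b : ℝ) * l₂ * k₂)))

def ap (a e : ℕ) : ℕ := a / Nat.gcd a e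

noncomputable def Gw (T y : ℝ) (a b e f : ℕ) (P : Pr) : ℂ :=
  ((om ((e : ℝ) * P.1.1 / (a * y)) * om ((e : ℝ) * P.1.2 / (b * y)) *
      om ((f : ℝ) * P.2.1 / y) * om ((f : ℝ) * P.2.2 / y) : ℝ) : ℂ) *
    wh (T * Real.log (((P.1.1 : ℝ) * P.2.2) / ((P.1.2 : ℝ) * P.2.1)))

/-- pairs of primitive vectors in a box -/
noncomputable def Bx (M : ℕ) : Finset Pr :=
  ((Icc (1 : ℤ) M ×ˢ Icc (1 : ℤ) M) ×ˢ (Icc (1 : ℤ) M ×ˢ Icc (1 : ℤ) M)).filter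
    fun P => ct P.1 = 1 ∧ ct P.2 = 1

noncomputable def TS (T y : ℝ) (a b e f M : ℕ) (κ : Pr → ℂ) : ℂ :=
  ∑ P ∈ Bx M, Gw T y a b e f P * κ P

noncomputable def dlT (a b e : ℕ) (P : Pr) : ℂ :=
  iC (Nat.Coprime (ap a e) (ap b e)) *
    dl (ap a e * ap b e) (om2 ((ap a e : ℤ), (ap b e : ℤ)) P.1)

/-- ranges at the top -/
def Rg (T y : ℝ) (N M : ℕ) : Prop :=
  1 ≤ T ∧ 0 < y ∧ y ≤ 2 * T ∧ 1 ≤ N ∧ (N : ℝ) ≤ 2 * T ∧ 4 * N * y ≤ M ∧ (M : ℝ) ≤ 20 * T ^ 2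

def ExpStmt : Prop := ∀ (N : ℕ) (T y : ℝ) (α : ℕ → ℂ), 1 ≤ N → 0 < T →
  Integrable (fun t : ℝ => Wt (t / T) * (‖Zo y t‖ ^ 4 * ‖DP N α t‖ ^ 2)) ∧
  ((∫ t : ℝ, Wt (t / T) * (‖Zo y t‖ ^ 4 * ‖DP N α t‖ ^ 2) : ℝ) : ℂ) =
    T * ∑ a ∈ Icc N (2 * N), ∑ b ∈ Icc N (2 * N), α a * conj (α b) * Q4 T y a b

def RepStmt : Prop := ∀ (T y : ℝ) (N M a b : ℕ), Rg T y N M → a ∈ Icc N (2 * N) →
  b ∈ Icc N (2 * N) →
  Q4 T y a b = ∑ e ∈ Icc 1 M, ∑ f ∈ Icc 1 M, TS T y a b e f M fun P =>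
    iC (Nat.Coprime (ap a e) (ap b e)) *
      ind (ap a e * ap b e) (om2 ((ap a e : ℤ), (ap b e : ℤ)) P.1)

def DiagStmt : Prop := ∀ ε : ℝ, 0 < ε → ∃ C : ℝ, 0 < C ∧ ∀ (T y : ℝ) (N M : ℕ), Rg T y N M →
  ∑ a ∈ Icc N (2 * N), ∑ b ∈ Icc N (2 * N), ∑ e ∈ Icc 1 M, ∑ f ∈ Icc 1 M,
    ‖TS T y a b e f M fun P => iC (hh P = 0) * dlT a b e P‖ ≤ C * T ^ ε * (N * y ^ 2)

def M4Stmt : Prop := ∀ ε : ℝ, 0 < ε → ∃ C : ℝ, 0 < C ∧ ∀ T y : ℝ, 1 ≤ T → 0 < y →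
  y ≤ 8 * T ^ 2 → ∫ t in (T / 2)..(3 * T), ‖Zo y t‖ ^ 4 ≤ C * T ^ ε * (T * y ^ 2)

def Lev1Stmt : Prop := ∀ ε : ℝ, 0 < ε → ∃ C : ℝ, 0 < C ∧ ∀ (T y : ℝ) (N M a b e f : ℕ),
  Rg T y N M → a ∈ Icc N (2 * N) → b ∈ Icc N (2 * N) → 1 ≤ e → 1 ≤ f →
  ‖TS T y a b e f M fun _ => 1‖ ≤ C * T ^ ε * (N * y / e * (y / f))

def TailStmt : Prop := ∀ δ : ℝ, 0 < δ → ∃ C : ℝ, 0 < C ∧ ∀ (T y : ℝ) (N M a b e f : ℕ)
  (κ : Pr → ℂ), Rg T y N M → a ∈ Icc N (2 * N) → b ∈ Icc N (2 * N) → 1 ≤ e → 1 ≤ f →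
  (∀ P, ‖κ P‖ ≤ 1) → (∀ P, κ P ≠ 0 → T ^ δ * (N * y / e * (y / f)) / T ≤ |(hh P : ℝ)|) →
  ‖TS T y a b e f M κ‖ ≤ C * y ^ 2 / T ^ 6

noncomputable def GT (T y : ℝ) (a b e f : ℕ) (H' : ℝ) (z : Pr × Pr) : ℂ :=
  iC (hh z.1 = 1) * iC (Prim z.2.1 ∧ Prim z.2.2) * Gw T y a b e f z.2 *
    (om ((hh z.2 : ℝ) / H') : ℂ)

noncomputable def pi3 (N a b : ℕ) (A₀ y₁ y₂ H' : ℝ) : Fin 4 → ℝ :=
  ![(N : ℝ) / a, (N : ℝ) / b, 1 / A₀ ^ 2, H' * A₀ ^ 2 / (y₁ * y₂)]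

def Id3Stmt : Prop := ∀ (L : ℝ → ℝ) (T y A₀ H' y₁ y₂ : ℝ) (N a b e f : ℕ) (z : Pr × Pr),
  IsLg L → 0 < y → 1 ≤ A₀ → H' ≠ 0 → 1 ≤ N → a ∈ Icc N (2 * N) → b ∈ Icc N (2 * N) → 1 ≤ e →
  1 ≤ f → y₁ = N * y / e → y₂ = y / f → |H'| * A₀ ^ 2 / (y₁ * y₂) ≤ 1 / 100 → IsOrb z →
  (GT T y a b e f H' z ≠ 0 → rI z ≠ 0) ∧ ∀ x : MM,
    GT T y a b e f H' z * (th0 A₀ z x : ℂ) =
      ∑ j ∈ Ico (-3 : ℤ) 5,
        (kL A₀ 0 z.1 x * conj (k2 (y₂ / A₀) A₀ (-y₂) (y₁ / y₂) 0 H' j 0 z.2 x)) *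
        ((A3 (pi3 N a b A₀ y₁ y₂ H', yv A₀ (-y₂) 1 (y₁ / y₂) 1 H' z x) : ℂ) *
          wh (T * H' / (y₁ * y₂) *
            f3 L (pi3 N a b A₀ y₁ y₂ H', yv A₀ (-y₂) 1 (y₁ / y₂) 1 H' z x)))

def TopP (η : ℝ) : Prop := ∃ m : ℕ, ∀ ε : ℝ, 0 < ε → ∃ K : ℝ, 0 < K ∧
  ∀ (δ T y H' : ℝ) (N M e f : ℕ), 0 < δ → δ ≤ 1 / 4 → 10 ^ 8 ≤ T → Rg T y N M → e ∈ Icc 1 M →
    f ∈ Icc 1 M → 4 / 5 ≤ |H'| → |H'| ≤ T ^ δ * (N * y / e * (y / f)) / T →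
    ∑ a ∈ Icc N (2 * N), ∑ b ∈ Icc N (2 * N),
        ‖TS T y a b e f M fun P => dlT a b e P * (om ((hh P : ℝ) / H') : ℂ)‖ ≤
      K * T ^ (ε + 2 * η + m * δ) *
        (N * y / e * (y / f) * (1 + y ^ 2 / T) ^ 2 * (((N : ℝ) ^ 2 + √T) / √T))

def TopMidStmt : Prop := ∀ η : ℝ, 0 < η → η ≤ 1 → APs η → TopP η

/-- the twisted fourth moment -/
def WattI : Prop := ∀ ε : ℝ, 0 < ε → ∃ C : ℝ, 0 < C ∧ ∀ (N : ℕ) (T y : ℝ) (α : ℕ → ℂ),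
  1 ≤ T → 0 < y → y ≤ 2 * T → 1 ≤ N → (N : ℝ) ≤ 2 * T → (∀ n, ‖α n‖ ≤ 1) →
  ∫ t in T..(2 * T), ‖Zo y t‖ ^ 4 * ‖DP N α t‖ ^ 2 ≤
    C * T ^ ε * ((T + √T * (N : ℝ) ^ 2) * (y ^ 2 * N) * (1 + y ^ 2 / T) ^ 2)

/-- the same on a well spaced set -/
def WattD : Prop := ∀ ε : ℝ, 0 < ε → ∃ C : ℝ, 0 < C ∧ ∀ (N : ℕ) (T y : ℝ) (α : ℕ → ℂ)
  (S : Finset ℝ), 2 ≤ T → 0 < y → y ≤ T → 1 ≤ N → (N : ℝ) ≤ T → (∀ n, ‖α n‖ ≤ 1) →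
  (∀ t ∈ S, T ≤ t ∧ t ≤ 2 * T) → (∀ s ∈ S, ∀ t ∈ S, s ≠ t → 1 ≤ |s - t|) →
  ∑ t ∈ S, ‖Zo y t‖ ^ 4 * ‖DP N α t‖ ^ 2 ≤
    C * T ^ ε * ((T + √T * (N : ℝ) ^ 2) * (y ^ 2 * N) * (1 + y ^ 2 / T) ^ 2)

def TopSumStmt : Prop := (∀ η₀ : ℝ, 0 < η₀ → ∃ η : ℝ, 0 < η ∧ η ≤ η₀ ∧ TopP η) → WattI

def DiscStmt : Prop := WattI → WattD

end Pool.Agent.MP_c853c5_nt.W

end

section

set_option autoImplicit false

open Finset MeasureTheory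

namespace Pool.Agent.MP_c853c5_nt.W

open Pool.Agent.MP_2a1f0e_nt Pool.Agent.MP_2a1f0e_nt.GM Pool.Agent.MP_2a1f0e_nt.DH

lemma contDiff_iv_Amp : ContDiff ℝ (⊤ : ℕ∞) iv := by
  rw [contDiff_iff_contDiffAt]
  intro x
  by_cases hx : x = 0
  · have h : iv =ᶠ[nhds x] fun _ => 0 := by
      filter_upwards [Iio_mem_nhds (show x < 1 / 20 by rw [hx]; norm_num)] with y hy
      have hy' : y < 1 / 20 := hy
      unfold iv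
      rw [Real.smoothTransition.zero_of_nonpos (by linarith), zero_mul]
    exact contDiffAt_const.congr_of_eventuallyEq h
  · unfold iv
    refine ContDiffAt.mul ?_ (contDiffAt_inv ℝ hx)
    exact (Real.smoothTransition.contDiff.comp
      (f := fun x : ℝ => 20 * x - 1) (by fun_prop)).contDiffAt

lemma cut_zero_Amp {y : Fin 9 → ℝ} (h : 11 < ‖y‖) : cut y = 0 := by
  have h1 : ∃ i, 11 < |y i| := by
    by_contra h2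
    push Not at h2
    have : ‖y‖ ≤ 11 := (pi_norm_le_iff_of_nonneg (by norm_num)).2 fun i => by
      rw [Real.norm_eq_abs]
      exact h2 i
    linarith
  obtain ⟨i, hi⟩ := h1
  refine Finset.prod_eq_zero (Finset.mem_univ i) (bmq.zero_of_le_dist ?_)
  rw [Real.dist_eq, sub_zero]
  exact hi.le

theorem amp_stmt : AmpStmt := by
  have hiv := contDiff_iv_Amp
  have hom := contDiff_om
  have hW : ContDiff ℝ (⊤ : ℕ∞) Wt := contDiff_Wt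
  have hbb : ContDiff ℝ (⊤ : ℕ∞) bb := bmp.contDiff
  have hq : ContDiff ℝ (⊤ : ℕ∞) (bmq : ℝ → ℝ) := bmq.contDiff
  have hcut : ContDiff ℝ (⊤ : ℕ∞) cut := by
    unfold cut
    exact contDiff_prod fun i _ => hq.comp (contDiff_apply ℝ ℝ i)
  have hrh : ContDiff ℝ (⊤ : ℕ∞) rh := by
    unfold rh
    fun_prop
  have hth : ContDiff ℝ (⊤ : ℕ∞) thA := by
    unfold thA th
    fun_prop
  have h1 : ContDiff ℝ (⊤ : ℕ∞) ph2 := by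
    unfold ph2
    fun_prop
  have h2 : ContDiff ℝ (⊤ : ℕ∞) sh2 := by
    unfold sh2
    fun_prop
  have h3 : ContDiff ℝ (⊤ : ℕ∞) z1 := by
    unfold z1
    fun_prop
  have h4 : ContDiff ℝ (⊤ : ℕ∞) z2 := by
    unfold z2
    fun_prop
  have h5 : ContDiff ℝ (⊤ : ℕ∞) nh2 := by
    unfold nh2
    fun_prop
  have h6 : ContDiff ℝ (⊤ : ℕ∞) ph3 := by
    unfold ph3
    fun_prop
  have h7 : ContDiff ℝ (⊤ : ℕ∞) v13 := by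
    unfold v13
    fun_prop
  have h8 : ContDiff ℝ (⊤ : ℕ∞) v23 := by
    unfold v23
    fun_prop
  refine ⟨?_, ?_, ?_, fun L hL => ?_, fun p hp => ?_⟩
  · unfold A2
    fun_prop
  · unfold f2
    fun_prop
  · unfold A3
    fun_prop
  · unfold f3
    fun_prop
  · simp only [A2, A3, thA, cut_zero_Amp hp, mul_zero, zero_mul, and_self]

end Pool.Agent.MP_c853c5_nt.W

end

section

set_option autoImplicit false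

open Finset MeasureTheory
open scoped ComplexConjugate

namespace Pool.Agent.MP_c853c5_nt.W.Id

open Pool.Agent.MP_2a1f0e_nt Pool.Agent.MP_2a1f0e_nt.GM Pool.Agent.MP_2a1f0e_nt.DH

lemma iv_eq {x : ℝ} (h : 1 / 10 ≤ x) : iv x = x⁻¹ := by
  unfold iv
  rw [Real.smoothTransition.one_of_one_le (by linarith), one_mul]

lemma bb_ne {x : ℝ} (h : bb x ≠ 0) : |x| < 1 / 100 := by
  by_contra h1
  refine h (bmp.zero_of_le_dist ?_)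
  rw [Real.dist_eq, sub_zero]
  exact not_lt.1 h1

lemma om_ne {x : ℝ} (h : om x ≠ 0) : 1 < x ∧ x < 5 / 3 := by
  by_contra h1
  rw [not_and_or, not_lt, not_lt] at h1
  exact h (om_eq_zero h1)

lemma om_one {x : ℝ} (h1 : 5 / 4 ≤ x) (h2 : x ≤ 4 / 3) : om x = 1 := by
  unfold om
  rw [psi_eq_one (by linarith), psi_eq_zero h1, sub_zero]

lemma cut_one {y : Fin 9 → ℝ} (h : ∀ i, |y i| ≤ 10) : cut y = 1 :=
  Finset.prod_eq_one fun i _ => bmq.one_of_mem_closedBall (by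
    rw [Metric.mem_closedBall, Real.dist_eq, sub_zero]
    exact h i)

lemma th_ne {a₁ a₂ b₁ b₂ : ℝ} (h : th a₁ a₂ b₁ b₂ ≠ 0) :
    |a₁ - 1| < 1 / 100 ∧ |a₂| < 1 / 100 ∧ |b₁| < 1 / 100 ∧ |b₂ - 32 / 25| < 1 / 100 := by
  unfold th at h
  simp only [ne_eq, mul_eq_zero, not_or] at h
  exact ⟨bb_ne h.1.1.1, bb_ne h.1.1.2, bb_ne h.1.2, bb_ne h.2⟩

lemma tele (w : ℝ) (i : ℤ) :
    om (w / (4 / 3) ^ i) = psi (w / (4 / 3) ^ (i + 1)) - psi (w / (4 / 3) ^ i) := by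
  unfold om
  congr 2
  rw [zpow_add_one₀ (by norm_num)]
  field_simp

lemma three {w : ℝ} (h1 : 15 / 16 ≤ w) (h2 : w ≤ 16 / 9) :
    ∑ i ∈ Icc (-1 : ℤ) 1, om (w / (4 / 3) ^ i) = 1 := by
  have e : Icc (-1 : ℤ) 1 = {-1, 0, 1} := by decide
  rw [e, Finset.sum_insert (by decide), Finset.sum_insert (by decide), Finset.sum_singleton,
    tele, tele, tele]
  have a : psi (w / (4 / 3) ^ ((1 : ℤ) + 1)) = 1 := psi_eq_one (by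
    rw [div_le_one (by positivity)]
    norm_num
    linarith)
  have b : psi (w / (4 / 3) ^ (-1 : ℤ)) = 0 := psi_eq_zero (by
    rw [le_div_iff₀ (by positivity)]
    norm_num
    linarith)
  rw [a, b]
  norm_num

lemma eight {w : ℝ} (h1 : 135 / 256 ≤ w) (h2 : w ≤ 1024 / 243) :
    ∑ i ∈ Ico (-3 : ℤ) 5, om (w / (4 / 3) ^ i) = 1 := by
  have e : Ico (-3 : ℤ) 5 = {-3, -2, -1, 0, 1, 2, 3, 4} := by decide
  rw [e, Finset.sum_insert (by decide), Finset.sum_insert (by decide),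
    Finset.sum_insert (by decide), Finset.sum_insert (by decide), Finset.sum_insert (by decide),
    Finset.sum_insert (by decide), Finset.sum_insert (by decide), Finset.sum_singleton]
  simp only [tele]
  have a : psi (w / (4 / 3) ^ ((4 : ℤ) + 1)) = 1 := psi_eq_one (by
    rw [div_le_one (by positivity)]
    norm_num
    linarith)
  have b : psi (w / (4 / 3) ^ (-3 : ℤ)) = 0 := psi_eq_zero (by
    rw [le_div_iff₀ (by positivity)]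
    norm_num
    linarith)
  rw [a, b]
  norm_num

lemma sg_cases {ω : ℝ} (h : ω ≠ 0) : sg ω = 1 ∧ 0 < ω ∨ sg ω = -1 ∧ ω < 0 := by
  unfold sg
  rcases lt_or_gt_of_ne h with h1 | h1
  · right
    rw [abs_of_neg h1]
    exact ⟨by field_simp, h1⟩
  · left
    rw [abs_of_pos h1]
    exact ⟨by field_simp, h1⟩

lemma sg_sq {ω : ℝ} (h : ω ≠ 0) : sg ω * sg ω = 1 := by
  rcases sg_cases h with h1 | h1 <;> rw [h1.1] <;> norm_num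

lemma sg_abs {ω : ℝ} (h : ω ≠ 0) : sg ω * |ω| = ω := by
  unfold sg
  have := abs_pos.2 h
  field_simp

lemma vx_rm (s : ℝ) (u : V) (x : MM) :
    vx u (rm (rot s) x) = ((vx u x).2 * s, -((vx u x).1 * s)) := by
  simp only [vx, rm, rt, rot]
  ext <;> simp only <;> ring

lemma dt_rm {s : ℝ} (hs : s * s = 1) (x : MM) : dt (rm (rot s) x) = dt x := by
  simp only [dt, rm, rt, rot]
  linear_combination (x.1.1 * x.2.2 - x.1.2 * x.2.1) * hs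

lemma tt_rm {s : ℝ} (hs : s * s = 1) (P : Pr) (x : MM) : tt P (rm (rot s) x) = tr P x := by
  have h0 : s ≠ 0 := by
    rintro rfl
    norm_num at hs
  simp only [tt, tr, vx_rm]
  rw [mul_div_mul_right _ _ h0]

lemma rel1 (z : Pr × Pr) (x : MM) :
    (vx z.1.2 x).1 * (vx z.2.2 x).2 - (vx z.1.2 x).2 * (vx z.2.2 x).1 = (rI z : ℝ) * dt x := by
  simp only [vx, rI, om2, dt]
  push_cast
  ring

lemma rel2 (z : Pr × Pr) (x : MM) : (rI z : ℝ) * (vx z.1.1 x).1 =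
    (pI z : ℝ) * (vx z.1.2 x).1 - (hh z.1 : ℝ) * (vx z.2.2 x).1 := by
  simp only [vx, rI, pI, hh, om2]
  push_cast
  ring

lemma rel3 (z : Pr × Pr) (x : MM) : (rI z : ℝ) * (vx z.2.1 x).2 =
    (hh z.2 : ℝ) * (vx z.1.2 x).2 + (sI z : ℝ) * (vx z.2.2 x).2 := by
  simp only [vx, rI, sI, hh, om2]
  push_cast
  ring

lemma rel4 (z : Pr × Pr) :
    (hh z.1 : ℝ) * (hh z.2 : ℝ) = (nI z : ℝ) * (rI z : ℝ) - (pI z : ℝ) * (sI z : ℝ) := by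
  simp only [rI, sI, pI, nI, hh, om2]
  push_cast
  ring

lemma iC_and (p q : Prop) : iC (p ∧ q) = iC p * iC q := by
  unfold iC
  by_cases hp : p <;> by_cases hq : q <;> simp [hp, hq]

lemma iC_pos {p : Prop} (h : p) : iC p = 1 := by
  unfold iC
  rw [if_pos h]

lemma iC_neg {p : Prop} (h : ¬ p) : iC p = 0 := by
  unfold iC
  rw [if_neg h]

lemma iC_ne {p : Prop} (h : iC p ≠ 0) : p := by
  by_contra h1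
  exact h (iC_neg h1)

lemma conj_iC (p : Prop) : conj (iC p) = iC p := by
  unfold iC
  split_ifs <;> simp

lemma E_zero (w : ℝ) : E 0 w = (om w : ℂ) := by
  unfold E
  rw [zero_mul, ex_zero, mul_one]

lemma k1_zero (α A₀ H2 ξ H : ℝ) (i : ℤ) (P : Pr) (x : MM) :
    k1 α A₀ H2 ξ H i 0 P x = iC (Prim P.1) * iC (Prim P.2) * iC (Cn α (vx P.2 x)) *
      (om (dt x) : ℂ) * E ξ ((hh P : ℝ) / H) * (om (tt P x / H2 / (4 / 3) ^ i) : ℂ) := by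
  simp only [k1, pk, pa, ch1, Pi.zero_apply, zero_mul, add_zero, zero_div, ex_zero, mul_one,
    one_mul, E_zero, div_div]
  ring

lemma k2_zero (α A₀ H2 ξ H : ℝ) {ω : ℝ} (hω : ω ≠ 0) (i : ℤ) (P : Pr) (x : MM) :
    conj (k2 α A₀ ω H2 ξ H i 0 P x) = iC (Prim P.1) * iC (Prim P.2) *
      iC (Cn α ((vx P.2 x).2 * sg ω, -((vx P.2 x).1 * sg ω))) *
      (om (dt x) : ℂ) * conj (E ξ ((hh P : ℝ) / H)) * (om (tr P x / H2 / (4 / 3) ^ i) : ℂ) := by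
  simp only [k2, pk, pa, ch2, Pi.zero_apply, zero_mul, sub_zero, zero_div, neg_zero, ex_zero,
    mul_one, E_zero, div_div, vx_rm, dt_rm (sg_sq hω), tt_rm (sg_sq hω), map_mul, conj_iC,
    Complex.conj_ofReal]
  ring

end Pool.Agent.MP_c853c5_nt.W.Id

end

section

set_option autoImplicit false

open Finset MeasureTheory
open scoped ComplexConjugate

namespace Pool.Agent.MP_c853c5_nt.W

open Pool.Agent.MP_2a1f0e_nt Pool.Agent.MP_2a1f0e_nt.GM Pool.Agent.MP_2a1f0e_nt.DH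

namespace Id

/-- size of the normalised invariants -/
lemma nh_bd {D a b y7 y8 lam β : ℝ} (hD : 1 < D ∧ D < 5 / 3) (ha : 1 < a ∧ a < 5 / 3)
    (hb : 1 < b ∧ b < 5 / 3) (h7 : 1 < y7 ∧ y7 < 5 / 3) (h8 : 1 < y8 ∧ y8 < 5 / 3)
    (hl : |lam| ≤ 1 / 1000) (hβ : 1 / 4 ≤ β ∧ β ≤ 4) :
    |y7 * lam * β * D| ≤ 1 / 90 ∧ |y8 * lam * β⁻¹ * D| ≤ 1 / 90 ∧
    0.586 ≤ D⁻¹ * (a + y7 * lam * β * D) * (b - y8 * lam * β⁻¹ * D) + y7 * y8 * lam ^ 2 * D ∧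
    D⁻¹ * (a + y7 * lam * β * D) * (b - y8 * lam * β⁻¹ * D) + y7 * y8 * lam ^ 2 * D ≤ 2.82 := by
  have hβ0 : 0 < β := by linarith [hβ.1]
  have hD0 : 0 < D := by linarith [hD.1]
  have hi : β⁻¹ ≤ 4 := by
    rw [inv_le_comm₀ hβ0 (by norm_num)]
    linarith [hβ.1]
  have k : ∀ y g : ℝ, 1 < y ∧ y < 5 / 3 → 0 ≤ g → g ≤ 4 → |y * lam * g * D| ≤ 1 / 90 := by
    intro y g hy hg hg'
    rw [abs_mul, abs_mul, abs_mul, abs_of_pos (by linarith [hy.1] : 0 < y), abs_of_nonneg hg,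
      abs_of_pos hD0]
    calc y * |lam| * g * D ≤ 5 / 3 * (1 / 1000) * 4 * (5 / 3) := by
          gcongr
          · exact hy.2.le
          · exact hD.2.le
      _ = 1 / 90 := by norm_num
  have k1 := k y7 β h7 hβ0.le hβ.2
  have k2 := k y8 β⁻¹ h8 (inv_nonneg.2 hβ0.le) hi
  have d1 : D⁻¹ ≤ 1 := inv_le_one_of_one_le₀ hD.1.le
  have d2 : 3 / 5 ≤ D⁻¹ := by
    rw [le_inv_comm₀ (by norm_num) hD0]
    linarith [hD.2]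
  have l2 : lam ^ 2 ≤ (1 / 1000) ^ 2 := by
    rw [← sq_abs]
    gcongr
  have e0 : 0 ≤ y7 * y8 * lam ^ 2 * D := by
    have := h7.1
    have := h8.1
    positivity
  have e1 : y7 * y8 * lam ^ 2 * D ≤ 5 / 3 * (5 / 3) * (1 / 1000) ^ 2 * (5 / 3) := by
    have := h7.1
    have := h8.1
    gcongr
    · exact h7.2.le
    · exact h8.2.le
    · exact hD.2.le
  obtain ⟨p1, p2⟩ := abs_le.1 k1
  obtain ⟨q1, q2⟩ := abs_le.1 k2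
  refine ⟨k1, k2, ?_, ?_⟩
  · have f1 : 89 / 90 ≤ a + y7 * lam * β * D := by linarith [ha.1]
    have f2 : 89 / 90 ≤ b - y8 * lam * β⁻¹ * D := by linarith [hb.1]
    have f3 : 0 ≤ a + y7 * lam * β * D := by linarith
    have : 3 / 5 * (89 / 90) * (89 / 90) ≤
        D⁻¹ * (a + y7 * lam * β * D) * (b - y8 * lam * β⁻¹ * D) := by
      gcongr
    linarith
  · have : D⁻¹ * (a + y7 * lam * β * D) * (b - y8 * lam * β⁻¹ * D) ≤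
        1 * (151 / 90) * (151 / 90) := by
      gcongr <;> linarith [ha.1, hb.1, ha.2, hb.2]
    linarith

lemma beta_bd {α : ℝ} {a b : R2} (hα : 0 < α) (ha : Cn α a) (hb : Cn α b) :
    1 / 4 ≤ b.1 / a.1 ∧ b.1 / a.1 ≤ 4 := by
  have h0 : 0 < a.1 := by linarith [ha.1]
  rw [le_div_iff₀ h0, div_le_iff₀ h0]
  constructor <;> linarith [ha.1, ha.2.1, hb.1, hb.2.1]

lemma lam_bd {ω H2 H : ℝ} (hω : ω ≠ 0) (h2 : H2 ≠ 0) (h : 1000 * |H| ≤ |ω| * |H2|) :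
    |H / (ω * H2)| ≤ 1 / 1000 := by
  rw [abs_div, abs_mul, div_le_iff₀ (mul_pos (abs_pos.2 hω) (abs_pos.2 h2))]
  linarith

/-- the invariant `n` in terms of the old variables -/
lemma nh_eq {ω H2 H β r p s n h h' : ℝ} (hω : ω ≠ 0) (h2 : H2 ≠ 0) (hH : H ≠ 0) (hβ : β ≠ 0)
    (hr : r ≠ 0) (e4 : h * h' = n * r - p * s) :
    (ω / r)⁻¹ * ((p - h * β) / (r * H2) + h / H * (H / (ω * H2)) * β * (ω / r)) *
        ((s + h' / β) / (r * H2) - h' / H * (H / (ω * H2)) * β⁻¹ * (ω / r)) +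
      h / H * (h' / H) * (H / (ω * H2)) ^ 2 * (ω / r) = n / (ω * H2 ^ 2) := by
  have : n = (h * h' + p * s) / r := by
    field_simp
    linarith
  rw [this]
  field_simp
  ring

lemma wt_eq {ω H2 n c : ℝ} (hω : ω ≠ 0) (h2 : H2 ≠ 0) (hc : 0 < c)
    (hn : 0 ≤ n / (ω * H2 ^ 2)) : |ω| * H2 ^ 2 / c * (n / (ω * H2 ^ 2)) = |n| / c := by
  rw [← abs_of_nonneg hn, abs_div, abs_mul, abs_of_nonneg (sq_nonneg H2)]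
  have := abs_pos.2 hω
  field_simp

/-- exact values of the smooth functions where every inverse is a true inverse -/
lemma good2 {A0 ω sg' H2 H β κ r p s n h h' a1 a2 b1 b2 u1 w2 D : ℝ} (π : Fin 4 → ℝ)
    (y : Fin 9 → ℝ) (hA : 0 < A0) (hω : ω = sg' * A0 ^ 2) (hs : sg' * sg' = 1) (h2 : H2 ≠ 0)
    (hH : H ≠ 0) (hβ : 1 / 10 ≤ β) (hr : r ≠ 0)
    (e1 : a1 * b2 - a2 * b1 = r * D) (e2 : r * u1 = p * a1 - h * b1)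
    (e3 : r * w2 = h' * a2 + s * b2) (e4 : h * h' = n * r - p * s)
    (p0 : π 0 = H / (ω * H2)) (p1 : π 1 = sg') (p2 : π 2 = β) (p3 : π 3 = κ)
    (y0 : y 0 = a1 / A0) (y1 : y 1 = a2 / A0) (y2 : y 2 = b1 * A0 / ω) (y3 : y 3 = b2 * A0 / ω)
    (y4 : y 4 = D) (y5 : y 5 = u1 / a1 / H2) (y6 : y 6 = w2 / b2 / H2) (y7 : y 7 = h / H)
    (y8 : y 8 = h' / H) (g0 : 1 / 10 ≤ y 0) (g3 : 1 / 10 ≤ y 3) (g4 : 1 / 10 ≤ y 4)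
    (gr : 1 / 10 ≤ r / ω) :
    iv (rh (π, y)) = ω / r ∧ ph2 (π, y) = p / (r * H2) ∧ sh2 (π, y) = s / (r * H2) ∧
    z1 (π, y) = (p - h * β) / (r * H2) ∧ z2 (π, y) = (s + h' / β) / (r * H2) ∧
    A2 (π, y) = th (a1 / A0) (a2 / A0) (b1 * A0 / r) (b2 * A0 / r) * cut y *
      ((ω / r) ^ 2 * om (ω / r) ^ 2) * (om ((p - h * β) / (r * H2)) *
        om ((s + h' / β) / (r * H2)) * Wt (κ * (n / (ω * H2 ^ 2)))) := by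
  have hs0 : sg' ≠ 0 := by
    rintro rfl
    norm_num at hs
  have hω0 : ω ≠ 0 := by
    rw [hω]
    positivity
  have hβ0 : β ≠ 0 := by linarith
  have ha1 : a1 ≠ 0 := by
    rintro rfl
    rw [y0] at g0
    norm_num at g0
  have hb2 : b2 ≠ 0 := by
    rintro rfl
    rw [y3] at g3
    norm_num at g3
  have hD : D ≠ 0 := by
    rw [y4] at g4
    linarith
  have hrh : rh (π, y) = r / ω := by
    simp only [rh]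
    rw [iv_eq g4, y0, y1, y2, y3, y4]
    field_simp
    linarith
  have hir : iv (rh (π, y)) = ω / r := by rw [hrh, iv_eq gr, inv_div]
  have hu : u1 = (p * a1 - h * b1) / r := by
    field_simp
    linarith
  have hw : w2 = (h' * a2 + s * b2) / r := by
    field_simp
    linarith
  have hsi : sg' = sg'⁻¹ := by
    field_simp
    linarith
  have hph : ph2 (π, y) = p / (r * H2) := by
    simp only [ph2]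
    rw [hir, iv_eq g0, y0, y2, y5, y7, p0, p1, hu, hω]
    field_simp
    ring
  have hsh : sh2 (π, y) = s / (r * H2) := by
    simp only [sh2]
    rw [hir, iv_eq g3, y1, y3, y6, y8, p0, p1, hw, hω]
    field_simp
    linear_combination (-(h' * a2)) * hs
  have hz1 : z1 (π, y) = (p - h * β) / (r * H2) := by
    simp only [z1]
    rw [hir, hph, y7, p0, p2]
    field_simp
  have hz2 : z2 (π, y) = (s + h' / β) / (r * H2) := by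
    simp only [z2]
    rw [hir, hsh, y8, p0, p2, iv_eq hβ]
    field_simp
  have hn : nh2 (π, y) = n / (ω * H2 ^ 2) := by
    simp only [nh2]
    have : n = (h * h' + p * s) / r := by
      field_simp
      linarith
    rw [hir, hrh, hph, hsh, y7, y8, p0, this]
    field_simp
    ring
  refine ⟨hir, hph, hsh, hz1, hz2, ?_⟩
  simp only [A2, thA]
  rw [hir, hz1, hz2, hn, p3, y0, y1, y2, y3]
  congr 4 <;> field_simp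

lemma old_bd {ω H2 H β r p s n h h' : ℝ} (hω : ω ≠ 0) (h2 : H2 ≠ 0) (hH : H ≠ 0) (hr : r ≠ 0)
    (hβ : 1 / 4 ≤ β ∧ β ≤ 4) (hbig : 1000 * |H| ≤ |ω| * |H2|) (e4 : h * h' = n * r - p * s)
    (oD : om (ω / r) ≠ 0) (o1 : om ((p - h * β) / (r * H2)) ≠ 0)
    (o2 : om ((s + h' / β) / (r * H2)) ≠ 0) (o7 : om (h / H) ≠ 0) (o8 : om (h' / H) ≠ 0) :
    0.586 ≤ n / (ω * H2 ^ 2) ∧ n / (ω * H2 ^ 2) ≤ 2.82 ∧
    89 / 90 ≤ p / (r * H2) ∧ p / (r * H2) ≤ 151 / 90 ∧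
    89 / 90 ≤ s / (r * H2) ∧ s / (r * H2) ≤ 151 / 90 := by
  have hβ0 : β ≠ 0 := by linarith [hβ.1]
  obtain ⟨k1, k2, k3, k4⟩ := nh_bd (om_ne oD) (om_ne o1) (om_ne o2) (om_ne o7) (om_ne o8)
    (lam_bd hω h2 hbig) hβ
  rw [nh_eq hω h2 hH hβ0 hr e4] at k3 k4
  have a1 : p / (r * H2) =
      (p - h * β) / (r * H2) + h / H * (H / (ω * H2)) * β * (ω / r) := by
    field_simp
    ring
  have a2 : s / (r * H2) =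
      (s + h' / β) / (r * H2) - h' / H * (H / (ω * H2)) * β⁻¹ * (ω / r) := by
    field_simp
    ring
  obtain ⟨p1, p2⟩ := abs_le.1 k1
  obtain ⟨q1, q2⟩ := abs_le.1 k2
  have b1 := om_ne o1
  have b2 := om_ne o2
  refine ⟨k3, k4, ?_, ?_, ?_, ?_⟩ <;> linarith [b1.1, b1.2, b2.1, b2.2]

lemma small {y lam σ b c : ℝ} (hy : 1 < y ∧ y < 5 / 3) (hl : |lam| ≤ 1 / 1000) (hs : σ * σ = 1)
    (hb : |b| < 1 / 100) (hc : 2 / 5 ≤ c) : |y * lam * σ * b * c⁻¹| ≤ 1 / 1000 := by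
  have h1 : |σ| = 1 := by
    have : |σ| * |σ| = 1 := by rw [← abs_mul, hs, abs_one]
    nlinarith [abs_nonneg σ]
  have hc0 : 0 < c := by linarith
  have h2 : c⁻¹ ≤ 5 / 2 := by
    rw [inv_le_comm₀ hc0 (by norm_num)]
    linarith
  rw [abs_mul, abs_mul, abs_mul, abs_mul, h1, abs_of_pos (by linarith [hy.1] : 0 < y),
    abs_of_pos (inv_pos.2 hc0)]
  calc y * |lam| * 1 * |b| * c⁻¹ ≤ 5 / 3 * (1 / 1000) * 1 * (1 / 100) * (5 / 2) := by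
        gcongr
        exact hy.2.le
    _ ≤ 1 / 1000 := by norm_num

lemma det_bd {α1 α2 β1 β2 : ℝ} (t1 : |α1 - 1| < 1 / 100) (t2 : |α2| < 1 / 100)
    (t3 : |β1| < 1 / 100) (t4 : |β2 - 32 / 25| < 1 / 100) :
    5 / 4 ≤ α1 * β2 - α2 * β1 ∧ α1 * β2 - α2 * β1 ≤ 4 / 3 := by
  obtain ⟨t1a, t1b⟩ := abs_lt.1 t1
  obtain ⟨t4a, t4b⟩ := abs_lt.1 t4
  have h1 : |α2 * β1| ≤ 1 / 100 * (1 / 100) := by
    rw [abs_mul]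
    gcongr
  obtain ⟨h2, h3⟩ := abs_le.1 h1
  have h4 : 99 / 100 * (127 / 100) ≤ α1 * β2 :=
    mul_le_mul (by linarith) (by linarith) (by norm_num) (by linarith)
  have h5 : α1 * β2 ≤ 101 / 100 * (129 / 100) :=
    mul_le_mul (by linarith) (by linarith) (by linarith) (by norm_num)
  constructor <;> linarith

lemma cn_of {A c u v : ℝ} (hA : 0 < A) (h1 : c ≤ u) (h2 : u ≤ 4 * c) (h3 : |v| ≤ u) :
    Cn (c * A) (u * A, v * A) := by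
  refine ⟨mul_le_mul_of_nonneg_right h1 hA.le, ?_, ?_⟩
  · rw [← mul_assoc]
    exact mul_le_mul_of_nonneg_right h2 hA.le
  · simp only
    rw [abs_mul, abs_of_pos hA]
    exact mul_le_mul_of_nonneg_right h3 hA.le

lemma rho_bd {β1 β2 ρ : ℝ} (t3 : |β1| < 1 / 100) (t4 : |β2 - 32 / 25| < 1 / 100)
    (r1 : ρ ≤ 1) (r2 : 3 / 5 ≤ ρ) :
    β2 * ρ ≤ 129 / 100 ∧ 76 / 100 ≤ β2 * ρ ∧ |β1 * ρ| ≤ 1 / 100 ∧ 2 / 5 ≤ β2 * ρ * ρ := by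
  obtain ⟨t4a, t4b⟩ := abs_lt.1 t4
  have h4 : 127 / 100 * (3 / 5) ≤ β2 * ρ :=
    mul_le_mul (by linarith) r2 (by norm_num) (by linarith)
  have h5 : β2 * ρ ≤ 129 / 100 * 1 :=
    mul_le_mul (by linarith) r1 (by linarith) (by norm_num)
  have h6 : 76 / 100 * (3 / 5) ≤ β2 * ρ * ρ :=
    mul_le_mul (by linarith) r2 (by norm_num) (by linarith)
  have h7 : |β1| * ρ ≤ 1 / 100 * 1 := mul_le_mul t3.le r1 (by linarith) (by norm_num)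
  refine ⟨by linarith, by linarith, ?_, by linarith⟩
  rw [abs_mul, abs_of_pos (by linarith : 0 < ρ)]
  linarith

lemma alg2 {A0 ω σ H2 H r p s h h' a1 a2 b1 b2 u1 w2 D : ℝ} (hA : 0 < A0)
    (hω : ω = σ * A0 ^ 2) (hs : σ * σ = 1) (h2 : H2 ≠ 0) (hH : H ≠ 0) (hr : r ≠ 0)
    (ha1 : a1 ≠ 0) (hb2 : b2 ≠ 0)
    (e1 : a1 * b2 - a2 * b1 = r * D) (e2 : r * u1 = p * a1 - h * b1)
    (e3 : r * w2 = h' * a2 + s * b2) :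
    b1 * σ = b1 * A0 / r * (r / ω) * A0 ∧ b2 * σ = b2 * A0 / r * (r / ω) * A0 ∧
    b1 * A0 / ω = b1 * A0 / r * (r / ω) ∧ b2 * A0 / ω = b2 * A0 / r * (r / ω) ∧
    D = a1 / A0 * (b2 * A0 / r) - a2 / A0 * (b1 * A0 / r) ∧
    u1 / a1 / H2 = p / (r * H2) - h / H * (H / (ω * H2)) * σ * (b1 * A0 / r) * (a1 / A0)⁻¹ ∧
    w2 / b2 / H2 = s / (r * H2) +
      h' / H * (H / (ω * H2)) * σ * (a2 / A0) * (b2 * A0 / r * (r / ω) * (r / ω))⁻¹ := by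
  have hs0 : σ ≠ 0 := by
    rintro rfl
    norm_num at hs
  have hu : u1 = (p * a1 - h * b1) / r := by
    field_simp
    linarith
  have hw : w2 = (h' * a2 + s * b2) / r := by
    field_simp
    linarith
  have hD : D = (a1 * b2 - a2 * b1) / r := by
    field_simp
    linarith
  subst hω
  refine ⟨?_, ?_, ?_, ?_, ?_, ?_, ?_⟩
  · field_simp
    linear_combination b1 * hs
  · field_simp
    linear_combination hs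
  · field_simp
  · field_simp
  · rw [hD]
    field_simp
  · rw [hu]
    field_simp
  · rw [hw]
    field_simp
    linear_combination (-(h' * a2)) * hs

/-- on the support of the left side all cut factors are one -/
lemma supp2 {A0 ω σ H2 H β r p s n h h' a1 a2 b1 b2 u1 w2 D : ℝ} (hA : 0 < A0)
    (hω : ω = σ * A0 ^ 2) (hs : σ * σ = 1) (h2 : H2 ≠ 0) (hH : H ≠ 0) (hr : r ≠ 0)
    (hβ : 1 / 4 ≤ β ∧ β ≤ 4) (hbig : 1000 * |H| ≤ |ω| * |H2|)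
    (e1 : a1 * b2 - a2 * b1 = r * D) (e2 : r * u1 = p * a1 - h * b1)
    (e3 : r * w2 = h' * a2 + s * b2) (e4 : h * h' = n * r - p * s)
    (oD : om (ω / r) ≠ 0) (o1 : om ((p - h * β) / (r * H2)) ≠ 0)
    (o2 : om ((s + h' / β) / (r * H2)) ≠ 0) (o7 : om (h / H) ≠ 0) (o8 : om (h' / H) ≠ 0)
    (ht : th (a1 / A0) (a2 / A0) (b1 * A0 / r) (b2 * A0 / r) ≠ 0) :
    Cn (A0 / 2) (a1, a2) ∧ Cn (A0 / 2) (b2 * σ, -(b1 * σ)) ∧ om D = 1 ∧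
    (15 / 16 ≤ u1 / a1 / H2 ∧ u1 / a1 / H2 ≤ 16 / 9) ∧
    (15 / 16 ≤ w2 / b2 / H2 ∧ w2 / b2 / H2 ≤ 16 / 9) ∧
    (|a1 / A0| ≤ 10 ∧ |a2 / A0| ≤ 10 ∧ |b1 * A0 / ω| ≤ 10 ∧ |b2 * A0 / ω| ≤ 10 ∧ |D| ≤ 10) ∧
    1 / 10 ≤ a1 / A0 ∧ 1 / 10 ≤ b2 * A0 / ω ∧ 1 / 10 ≤ D ∧ 1 / 10 ≤ r / ω := by
  have hs0 : σ ≠ 0 := by
    rintro rfl
    norm_num at hs
  have hω0 : ω ≠ 0 := by
    rw [hω]
    positivity
  obtain ⟨-, -, k1, k2, k3, k4⟩ := old_bd hω0 h2 hH hr hβ hbig e4 oD o1 o2 o7 o8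
  obtain ⟨t1, t2, t3, t4⟩ := th_ne ht
  have hl := lam_bd hω0 h2 hbig
  obtain ⟨d1, d2⟩ := om_ne oD
  have ha1 : a1 ≠ 0 := by
    rintro rfl
    norm_num at t1
  have hb2 : b2 ≠ 0 := by
    rintro rfl
    norm_num at t4
  obtain ⟨eb1, eb2, ey2, ey3, eD, e5, e6⟩ := alg2 hA hω hs h2 hH hr ha1 hb2 e1 e2 e3
  have hρ1 : r / ω = (ω / r)⁻¹ := by rw [inv_div]
  have r1 : r / ω ≤ 1 := by
    rw [hρ1]
    exact inv_le_one_of_one_le₀ d1.le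
  have r2 : 3 / 5 ≤ r / ω := by
    rw [hρ1, le_inv_comm₀ (by norm_num) (by linarith)]
    linarith
  obtain ⟨m1, m2, m3, m4⟩ := rho_bd t3 t4 r1 r2
  obtain ⟨D1, D2⟩ := det_bd t1 t2 t3 t4
  rw [← eD] at D1 D2
  obtain ⟨t1a, t1b⟩ := abs_lt.1 t1
  have s5 := abs_le.1 (small (om_ne o7) hl hs t3 (c := a1 / A0) (by linarith))
  have s6 := abs_le.1 (small (om_ne o8) hl hs t2 m4)
  have c1 := cn_of (c := 1 / 2) (u := a1 / A0) (v := a2 / A0) hA (by linarith) (by linarith)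
    (by linarith)
  have c2 := cn_of (c := 1 / 2) (u := b2 * A0 / r * (r / ω)) (v := -(b1 * A0 / r * (r / ω))) hA
    (by linarith) (by linarith) (by rw [abs_neg]; linarith)
  rw [div_mul_cancel₀ _ hA.ne', div_mul_cancel₀ _ hA.ne', one_div_mul_eq_div] at c1
  rw [neg_mul, ← eb1, ← eb2, one_div_mul_eq_div] at c2
  refine ⟨c1, c2, om_one D1 D2, ⟨?_, ?_⟩, ⟨?_, ?_⟩,
    ⟨?_, by linarith, by rw [ey2]; linarith, ?_, ?_⟩, by linarith, by rw [ey3]; linarith,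
    by linarith, by linarith⟩
  · rw [e5]
    linarith [s5.2]
  · rw [e5]
    linarith [s5.1]
  · rw [e6]
    linarith [s6.1]
  · rw [e6]
    linarith [s6.2]
  · rw [abs_le]
    constructor <;> linarith
  · rw [ey3, abs_le]
    constructor <;> linarith
  · rw [abs_le]
    constructor <;> linarith

lemma back_num {α1 α2 y2 y3 c ρ D : ℝ} (t1 : |α1 - 1| < 1 / 100) (t2 : |α2| < 1 / 100)
    (k3 : c ≤ y3) (hc : 0 < c) (k4 : |y2| ≤ y3) (hD : 1 < D ∧ D < 5 / 3)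
    (er : ρ * D = α1 * y3 - α2 * y2) : c / 2 ≤ ρ := by
  obtain ⟨t1a, t1b⟩ := abs_lt.1 t1
  have h1 : |α2 * y2| ≤ 1 / 100 * y3 := by
    rw [abs_mul]
    gcongr
  have h2 := (abs_le.1 h1).2
  have h3 : 99 / 100 * y3 ≤ α1 * y3 := mul_le_mul_of_nonneg_right (by linarith) (by linarith)
  by_contra hh
  have h4 : ρ * D ≤ c / 2 * D := mul_le_mul_of_nonneg_right (by linarith) (by linarith [hD.1])
  have h5 : c / 2 * D ≤ c / 2 * (5 / 3) := mul_le_mul_of_nonneg_left hD.2.le (by linarith)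
  linarith

/-- on the support of the right side every inverse is a true inverse -/
lemma back2 {A0 ω σ r a1 a2 b1 b2 D : ℝ} (hA : 0 < A0) (hω : ω = σ * A0 ^ 2) (hs : σ * σ = 1)
    (e1 : a1 * b2 - a2 * b1 = r * D) (hc : Cn (A0 / 2) (b2 * σ, -(b1 * σ))) (oD : om D ≠ 0)
    (t1 : |a1 / A0 - 1| < 1 / 100) (t2 : |a2 / A0| < 1 / 100) :
    r ≠ 0 ∧ 1 / 10 ≤ a1 / A0 ∧ 1 / 10 ≤ b2 * A0 / ω ∧ 1 / 10 ≤ D ∧ 1 / 10 ≤ r / ω := by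
  have hs0 : σ ≠ 0 := by
    rintro rfl
    norm_num at hs
  obtain ⟨c1, -, c3⟩ := hc
  simp only at c1 c3
  have hD := om_ne oD
  have ey3 : b2 * A0 / ω = b2 * σ / A0 := by
    rw [hω]
    field_simp
    linear_combination (-b2) * hs
  have k3 : 1 / 2 ≤ b2 * σ / A0 := by
    rw [le_div_iff₀ hA]
    linarith
  have er : r / ω * D = a1 / A0 * (b2 * σ / A0) - a2 / A0 * (b1 * σ / A0) := by
    rw [hω]
    field_simp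
    linear_combination (-1 : ℝ) * e1 - (a1 * b2 - a2 * b1) * hs
  have k4 : |b1 * σ / A0| ≤ b2 * σ / A0 := by
    rw [abs_neg] at c3
    rw [abs_div, abs_of_pos hA]
    exact div_le_div_of_nonneg_right c3 hA.le
  have k7 := back_num t1 t2 k3 (by norm_num) k4 hD er
  refine ⟨?_, by linarith [(abs_lt.1 t1).1], by rw [ey3]; linarith, by linarith [hD.1],
    by linarith⟩
  rintro rfl
  norm_num at k7

lemma ab10 {w : ℝ} (h1 : 0 ≤ w) (h2 : w ≤ 10) : |w| ≤ 10 := abs_le.2 ⟨by linarith, h2⟩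

lemma E_ne {ξ w : ℝ} (h : E ξ w ≠ 0) : om w ≠ 0 := by
  intro h1
  apply h
  rw [E, h1, Complex.ofReal_zero, zero_mul]

lemma cE_ne {ξ w : ℝ} (h : conj (E ξ w) ≠ 0) : om w ≠ 0 :=
  E_ne (ξ := ξ) fun h1 => h (by rw [h1, map_zero])

end Id

end Pool.Agent.MP_c853c5_nt.W

end

section

set_option autoImplicit false

open Finset MeasureTheory
open scoped FourierTransform SchwartzMap

namespace Pool.Agent.MP_c853c5_nt.W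

open Pool.Agent.MP_2a1f0e_nt Pool.Agent.MP_2a1f0e_nt.GM Pool.Agent.MP_2a1f0e_nt.DH

lemma contDiff_E_PoisZ (ξ : ℝ) : ContDiff ℝ (⊤ : ℕ∞) (E ξ) := by
  unfold E ex
  refine (Complex.ofRealCLM.contDiff.comp contDiff_om).mul ?_
  refine Complex.contDiff_exp.comp (contDiff_const.mul (Complex.ofRealCLM.contDiff.comp
    (f := fun z : ℝ => 2 * Real.pi * (ξ * z)) ?_))
  fun_prop

lemma supp_E_PoisZ (ξ : ℝ) : HasCompactSupport (E ξ) := by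
  refine HasCompactSupport.intro (isCompact_Icc (a := (1 : ℝ)) (b := 5 / 3)) fun x hx => ?_
  have h : om x = 0 := om_eq_zero (by
    by_contra h
    rw [not_or, not_le, not_le] at h
    exact hx ⟨h.1.le, h.2.le⟩)
  simp only [E, h, Complex.ofReal_zero, zero_mul]

/-- the bump times a character as a Schwartz function -/
noncomputable def ES (ξ : ℝ) : 𝓢(ℝ, ℂ) := (supp_E_PoisZ ξ).toSchwartzMap (contDiff_E_PoisZ ξ)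

lemma ES_apply (ξ z : ℝ) : ES ξ z = E ξ z := rfl

lemma ES_four (ξ y : ℝ) : (𝓕 (ES ξ) : 𝓢(ℝ, ℂ)) y = Eh ξ y := by
  rw [SchwartzMap.fourier_coe, Po.four_ex]
  unfold Eh FT1
  refine integral_congr_ae (Filter.Eventually.of_forall fun v => ?_)
  simp only [ES_apply]
  rw [mul_comm, mul_comm v y]

theorem pois1_stmt : Pois1Stmt := by
  intro ξ H c θ hH
  have h := Po.pois1 (ES ξ) hH c θ
  simp only [ES_apply, ES_four, mul_comm c] at h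
  rw [h]
  refine Summable.hasSum (Summable.of_norm ?_)
  obtain ⟨B, hB⟩ := Po.unif (𝓕 (ES ξ)) hH
  refine ((hB (-(H * θ))).1.mul_left |H|).congr fun n => ?_
  rw [ES_four, norm_mul, norm_mul, norm_ex, mul_one, Complex.norm_real, Real.norm_eq_abs, abs_abs]
  congr 3
  ring

theorem poisz_stmt : PoisZStmt := by
  intro q w β ξ₁ ξ₂ H2 H hq hw h2 hH
  have hb : ∃ x y z : ℤ, x * w.1 + y * w.2 + z * q = 1 := by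
    have h1 : IsCoprime ((ct w : ℕ) : ℤ) (q : ℤ) := Nat.isCoprime_iff_coprime.2 hw
    obtain ⟨a, b, hab⟩ := h1
    have h3 := Int.gcd_eq_gcd_ab w.1 w.2
    refine ⟨a * Int.gcdA w.1 w.2, a * Int.gcdB w.1 w.2, b, ?_⟩
    unfold ct at hab
    rw [h3] at hab
    linear_combination hab
  have hi : ∀ k : V, ind q (om2 w k) =
      if (q : ℤ) ∣ w.1 * k.2 - w.2 * k.1 then (1 : ℂ) else 0 := by
    intro k
    unfold ind iC om2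
    congr
  refine ⟨by simpa only [ES_four] using Po.sum_right (𝓕 (ES ξ₁)) (𝓕 (ES ξ₂)) h2 hH β q hq, ?_⟩
  have h := Po.pois2 (ES ξ₁) (ES ξ₂) h2 hH β q hq w.1 w.2 hb
  simp only [ES_apply, ES_four] at h
  rw [← tsum_mul_left] at h
  simp only [hi]
  calc _ = _ := tsum_congr fun k => mul_comm _ _
    _ = _ := h
    _ = _ := tsum_congr fun k => by ring

end Pool.Agent.MP_c853c5_nt.W

end

section

set_option autoImplicit false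

open Finset MeasureTheory
open scoped FourierTransform ContDiff RealInnerProductSpace

namespace Pool.Agent.MP_c853c5_nt.W.Sp

open Pool.Agent.MP_2a1f0e_nt

/-- uniform bound for derivatives in the second variable on a compact set -/
lemma slice_bd {P V E : Type} [NormedAddCommGroup P] [NormedSpace ℝ P] [NormedAddCommGroup V]
    [NormedSpace ℝ V] [NormedAddCommGroup E] [NormedSpace ℝ E]
    (B : P × V → E) (hB : ContDiff ℝ ∞ B) (KP : Set P) (KV : Set V) (hP : IsCompact KP)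
    (hV : IsCompact KV) (M : ℕ) :
    ∃ C : ℝ, 1 ≤ C ∧ ∀ j ≤ M, ∀ p ∈ KP, ∀ y ∈ KV,
      ‖iteratedFDeriv ℝ j (fun y => B (p, y)) y‖ ≤ C := by
  have h1 : ∀ j : ℕ, ∃ C : ℝ, ∀ w ∈ KP ×ˢ KV, ‖iteratedFDeriv ℝ j B w‖ ≤ C := fun j =>
    (hP.prod hV).exists_bound_of_continuousOn
      ((hB.continuous_iteratedFDeriv (m := j) (by exact_mod_cast le_top)).continuousOn)
  choose C hC using h1
  refine ⟨1 + ∑ j ∈ range (M + 1), |C j|, by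
    have : 0 ≤ ∑ j ∈ range (M + 1), |C j| := Finset.sum_nonneg fun j _ => abs_nonneg _
    linarith, fun j hj p hp y hy => ?_⟩
  have e1 : (fun y => B (p, y)) =
      (fun w => B ((p, 0) + w)) ∘ (ContinuousLinearMap.inr ℝ P V) := by
    funext y
    simp
  have hB' : ContDiff ℝ ∞ (fun w => B ((p, 0) + w)) :=
    hB.comp (contDiff_const.add contDiff_id)
  rw [e1, ContinuousLinearMap.iteratedFDeriv_comp_right _ hB' y (by exact_mod_cast le_top),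
    iteratedFDeriv_comp_add_left]
  refine (ContinuousMultilinearMap.norm_compContinuousLinearMap_le _ _).trans ?_
  have h2 : ∏ _i : Fin j, ‖ContinuousLinearMap.inr ℝ P V‖ ≤ 1 :=
    Finset.prod_le_one (fun _ _ => norm_nonneg _)
      (fun _ _ => ContinuousLinearMap.norm_inr_le_one ℝ P V)
  have h3 : ‖iteratedFDeriv ℝ j B ((p, 0) + ContinuousLinearMap.inr ℝ P V y)‖ ≤ C j := by
    apply hC
    simp [hp, hy]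
  have h4 : |C j| ≤ ∑ j ∈ range (M + 1), |C j| :=
    Finset.single_le_sum (f := fun j => |C j|) (fun _ _ => abs_nonneg _)
      (Finset.mem_range.2 (by omega))
  calc _ ≤ ‖iteratedFDeriv ℝ j B ((p, 0) + ContinuousLinearMap.inr ℝ P V y)‖ * 1 := by
        gcongr
    _ ≤ _ := by
        have := le_abs_self (C j)
        linarith

/-- derivative bound for the oscillating product -/
lemma prod_bd {P V : Type} [NormedAddCommGroup P] [NormedSpace ℝ P] [NormedAddCommGroup V]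
    [NormedSpace ℝ V]
    (A : P × V → ℂ) (ph : P × V → ℝ) (Om : ℝ → ℂ) (hA : ContDiff ℝ ∞ A) (hph : ContDiff ℝ ∞ ph)
    (hOm : ContDiff ℝ ∞ Om) (hB : ∀ j : ℕ, ∃ B : ℝ, ∀ x, ‖iteratedDeriv j Om x‖ ≤ B)
    (KP : Set P) (KV : Set V) (hP : IsCompact KP) (hV : IsCompact KV) (M : ℕ) :
    ∃ C : ℝ, 0 < C ∧ ∀ j ≤ M, ∀ p ∈ KP, ∀ xi : ℝ, ∀ y ∈ KV,
      ‖iteratedFDeriv ℝ j (fun y => A (p, y) * Om (xi * ph (p, y))) y‖ ≤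
        C * (1 + |xi|) ^ M := by
  obtain ⟨C1, h11, hC1⟩ := slice_bd A hA KP KV hP hV M
  obtain ⟨C2, h21, hC2⟩ := slice_bd ph hph KP KV hP hV M
  choose B hB using hB
  set B0 : ℝ := 1 + ∑ j ∈ range (M + 1), |B j| with hB0
  have hB1 : 1 ≤ B0 := by
    have : 0 ≤ ∑ j ∈ range (M + 1), |B j| := Finset.sum_nonneg fun j _ => abs_nonneg _
    linarith
  have hB2 : ∀ j ≤ M, ∀ x, ‖iteratedFDeriv ℝ j Om x‖ ≤ B0 := by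
    intro j hj x
    rw [norm_iteratedFDeriv_eq_norm_iteratedDeriv]
    have h4 : |B j| ≤ ∑ j ∈ range (M + 1), |B j| :=
      Finset.single_le_sum (f := fun j => |B j|) (fun _ _ => abs_nonneg _)
        (Finset.mem_range.2 (by omega))
    have := le_abs_self (B j)
    have := hB j x
    linarith
  refine ⟨2 ^ M * (C1 * (M.factorial * B0 * C2 ^ M)), by positivity, fun j hj p hp xi y hy => ?_⟩
  have hA' : ContDiff ℝ ∞ (fun y => A (p, y)) := hA.comp (contDiff_const.prodMk contDiff_id)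
  have hp' : ContDiff ℝ ∞ (fun y => ph (p, y)) := hph.comp (contDiff_const.prodMk contDiff_id)
  have hx' : ContDiff ℝ ∞ (fun y => xi * ph (p, y)) := contDiff_const.mul hp'
  have hD1 : 1 ≤ C2 * (1 + |xi|) := by
    have := abs_nonneg xi
    nlinarith
  have hO : ∀ i ≤ M, ‖iteratedFDeriv ℝ i (fun y => Om (xi * ph (p, y))) y‖ ≤
      M.factorial * B0 * (C2 * (1 + |xi|)) ^ M := by
    intro i hi
    have h := norm_iteratedFDeriv_comp_le (n := i) hOm hx' (by exact_mod_cast le_top) y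
      (C := B0) (D := C2 * (1 + |xi|)) (fun l hl => hB2 l (hl.trans hi) _) (fun l h1 hl => by
        have e : (fun y => xi * ph (p, y)) = xi • (fun y => ph (p, y)) := by
          funext y
          simp
        rw [e, iteratedFDeriv_const_smul_apply
          ((hp'.of_le (by exact_mod_cast le_top)).contDiffAt), norm_smul, Real.norm_eq_abs]
        have h5 := hC2 l (hl.trans hi) p hp y hy
        have h6 : C2 * (1 + |xi|) ≤ (C2 * (1 + |xi|)) ^ l := le_self_pow₀ hD1 (by omega)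
        have h7 := abs_nonneg xi
        have h8 : |xi| * ‖iteratedFDeriv ℝ l (fun y => ph (p, y)) y‖ ≤ |xi| * C2 := by gcongr
        nlinarith)
    refine h.trans ?_
    have h1 : (i.factorial : ℝ) ≤ M.factorial := by exact_mod_cast Nat.factorial_le hi
    have h2 : (C2 * (1 + |xi|)) ^ i ≤ (C2 * (1 + |xi|)) ^ M := pow_le_pow_right₀ hD1 hi
    gcongr
  have hO' : ContDiff ℝ ∞ (fun y => Om (xi * ph (p, y))) := hOm.comp hx'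
  refine (norm_iteratedFDeriv_mul_le (n := j) hA' hO' y (by exact_mod_cast le_top)).trans ?_
  calc _ ≤ ∑ i ∈ range (j + 1), (j.choose i : ℝ) *
          (C1 * (M.factorial * B0 * (C2 * (1 + |xi|)) ^ M)) := by
        refine Finset.sum_le_sum fun i hi => ?_
        have hi' : i ≤ j := Nat.lt_succ_iff.1 (Finset.mem_range.1 hi)
        rw [mul_assoc]
        gcongr
        · exact hC1 i (hi'.trans hj) p hp y hy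
        · exact hO (j - i) (by omega)
    _ = 2 ^ j * (C1 * (M.factorial * B0 * (C2 * (1 + |xi|)) ^ M)) := by
        rw [← Finset.sum_mul]
        congr 1
        exact_mod_cast Nat.sum_range_choose j
    _ ≤ 2 ^ M * (C1 * (M.factorial * B0 * (C2 * (1 + |xi|)) ^ M)) := by
        gcongr
        norm_num
    _ = _ := by
        rw [mul_pow]
        ring

/-- decay of the Fourier transform from derivative bounds on a compact support -/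
lemma four_bd {V : Type} [NormedAddCommGroup V] [InnerProductSpace ℝ V] [FiniteDimensional ℝ V]
    [MeasurableSpace V] [BorelSpace V] (KV : Set V) (hV : IsCompact KV) (M : ℕ) :
    ∃ C : ℝ, 0 < C ∧ ∀ (F : V → ℂ) (D : ℝ), 0 ≤ D → ContDiff ℝ ∞ F → (∀ y ∉ KV, F y = 0) →
      (∀ j ≤ M, ∀ y ∈ KV, ‖iteratedFDeriv ℝ j F y‖ ≤ D) →
      ∀ w, ‖𝓕 F w‖ ≤ C * D / (1 + ‖w‖) ^ M := by
  refine ⟨2 ^ M * (2 * (2 ^ M * (M + 1) * (volume.real KV + 1))), by positivity,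
    fun F D hD hF h0 hb w => ?_⟩
  have hts : tsupport F ⊆ KV :=
    closure_minimal (fun y hy => by
      by_contra h
      exact hy (h0 y h)) hV.isClosed
  have hc : HasCompactSupport F := hV.of_isClosed_subset (isClosed_tsupport F) hts
  have hz : ∀ j : ℕ, ∀ y ∉ KV, iteratedFDeriv ℝ j F y = 0 := by
    intro j y hy
    by_contra h
    exact hy (hts (support_iteratedFDeriv_subset j h))
  have hcont : ∀ j : ℕ, Continuous (iteratedFDeriv ℝ j F) := fun j =>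
    hF.continuous_iteratedFDeriv (m := j) (by exact_mod_cast le_top)
  have hint : ∀ k j : ℕ, Integrable (fun v : V => ‖v‖ ^ k * ‖iteratedFDeriv ℝ j F v‖) := by
    intro k j
    apply Continuous.integrable_of_hasCompactSupport
    · exact (continuous_norm.pow k).mul (hcont j).norm
    · exact (hc.iteratedFDeriv j).norm.mul_left
  have hI : ∀ j ≤ M, ∫ v, ‖iteratedFDeriv ℝ j F v‖ ≤ D * (volume.real KV + 1) := by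
    intro j hj
    have e : ∫ v, ‖iteratedFDeriv ℝ j F v‖ = ∫ v in KV, ‖iteratedFDeriv ℝ j F v‖ := by
      rw [setIntegral_eq_integral_of_forall_compl_eq_zero]
      intro y hy
      rw [hz j y hy, norm_zero]
    rw [e]
    have h1 := norm_setIntegral_le_of_norm_le_const (μ := volume) (s := KV)
      (f := fun v => ‖iteratedFDeriv ℝ j F v‖) (C := D) hV.measure_lt_top
      (fun y hy => by rw [norm_norm]; exact hb j hj y hy)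
    have h2 := (Real.le_norm_self _).trans h1
    nlinarith
  have hn : ∀ n ≤ M, ‖w‖ ^ n * ‖𝓕 F w‖ ≤ 2 ^ M * (M + 1) * (volume.real KV + 1) * D := by
    intro n hn
    have h := Real.pow_mul_norm_iteratedFDeriv_fourier_le (K := ⊤) (N := ⊤) hF
      (fun k j _ _ => hint k j) (k := 0) (n := n) le_top le_top w
    simp only [norm_iteratedFDeriv_zero, pow_zero, one_mul, Nat.cast_zero, mul_zero, zero_add,
      Finset.range_one, Finset.singleton_product, Finset.sum_map,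
      Function.Embedding.coeFn_mk] at h
    refine h.trans ?_
    have h1 : ∑ j ∈ range (n + 1), ∫ v, ‖iteratedFDeriv ℝ j F v‖ ≤
        (M + 1) * (D * (volume.real KV + 1)) := by
      calc _ ≤ ∑ _j ∈ range (n + 1), D * (volume.real KV + 1) :=
            Finset.sum_le_sum fun j hj => hI j (by
              have := Finset.mem_range.1 hj
              omega)
        _ = (n + 1) * (D * (volume.real KV + 1)) := by simp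
        _ ≤ _ := by
            have : (n : ℝ) ≤ M := by exact_mod_cast hn
            gcongr
    have h2 : (2 : ℝ) ^ n ≤ 2 ^ M := pow_le_pow_right₀ (by norm_num) hn
    calc _ ≤ (2 : ℝ) ^ M * ((M + 1) * (D * (volume.real KV + 1))) := by
          gcongr
          exact Finset.sum_nonneg fun j _ => integral_nonneg fun _ => norm_nonneg _
      _ = _ := by ring
  rw [le_div_iff₀ (by positivity)]
  have h0' := hn 0 (Nat.zero_le _)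
  have hM := hn M le_rfl
  have hp : (1 + ‖w‖) ^ M ≤ 2 ^ M * (1 + ‖w‖ ^ M) := by
    have h := add_pow_le (a := (1 : ℝ)) (b := ‖w‖) zero_le_one (norm_nonneg _) M
    rw [one_pow] at h
    refine h.trans ?_
    gcongr
    · norm_num
    · omega
  rw [pow_zero, one_mul] at h0'
  calc ‖𝓕 F w‖ * (1 + ‖w‖) ^ M ≤ ‖𝓕 F w‖ * (2 ^ M * (1 + ‖w‖ ^ M)) := by gcongr
    _ = 2 ^ M * (‖𝓕 F w‖ + ‖w‖ ^ M * ‖𝓕 F w‖) := by ring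
    _ ≤ 2 ^ M * (2 ^ M * (M + 1) * (volume.real KV + 1) * D +
          2 ^ M * (M + 1) * (volume.real KV + 1) * D) := by gcongr
    _ = _ := by ring

/-- uniform Fourier separation of variables -/
theorem sep {k n : ℕ} (A : (Fin k → ℝ) × (Fin n → ℝ) → ℂ) (ph : (Fin k → ℝ) × (Fin n → ℝ) → ℝ)
    (Om : ℝ → ℂ) (hA : ContDiff ℝ ∞ A) (hph : ContDiff ℝ ∞ ph) (hOm : ContDiff ℝ ∞ Om)
    (hB : ∀ j : ℕ, ∃ B : ℝ, ∀ x, ‖iteratedDeriv j Om x‖ ≤ B) (R : ℝ)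
    (hR : ∀ p y, R < ‖y‖ → A (p, y) = 0) (M : ℕ) :
    ∃ C : ℝ, 0 < C ∧ ∀ p : Fin k → ℝ, ‖p‖ ≤ R → ∀ xi : ℝ, ∃ c : (Fin n → ℝ) → ℂ,
      Continuous c ∧ Integrable c ∧ (∀ z, ‖c z‖ ≤ C * (1 + |xi|) ^ M / (1 + ‖z‖) ^ M) ∧
      ∀ y, A (p, y) * Om (xi * ph (p, y)) = ∫ z, c z * ex (∑ i, z i * y i) := by
  set L : EuclideanSpace ℝ (Fin n) ≃L[ℝ] (Fin n → ℝ) := EuclideanSpace.equiv (Fin n) ℝ with hL
  have hLc : ContDiff ℝ ∞ (fun w : (Fin k → ℝ) × EuclideanSpace ℝ (Fin n) => (w.1, L w.2)) :=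
    contDiff_fst.prodMk (L.contDiff.comp contDiff_snd)
  set KV : Set (EuclideanSpace ℝ (Fin n)) := L ⁻¹' Metric.closedBall 0 R with hKV
  have hV : IsCompact KV := L.toHomeomorph.isCompact_preimage.2 (isCompact_closedBall 0 R)
  obtain ⟨C1, hC1, h1⟩ := prod_bd (fun w => A (w.1, L w.2)) (fun w => ph (w.1, L w.2)) Om
    (hA.comp hLc) (hph.comp hLc) hOm hB (Metric.closedBall 0 R) KV (isCompact_closedBall 0 R) hV M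
  obtain ⟨C2, hC2, h2⟩ := four_bd KV hV M
  refine ⟨C2 * C1, by positivity, fun p hp xi => ?_⟩
  set F : EuclideanSpace ℝ (Fin n) → ℂ := fun y => A (p, L y) * Om (xi * ph (p, L y)) with hF
  have hq : ContDiff ℝ ∞ (fun y : EuclideanSpace ℝ (Fin n) => (p, L y)) :=
    contDiff_const.prodMk L.contDiff
  have hFc : ContDiff ℝ ∞ F :=
    (hA.comp hq).mul (hOm.comp (contDiff_const.mul (hph.comp hq)))
  have hF0 : ∀ y ∉ KV, F y = 0 := by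
    intro y hy
    have : R < ‖L y‖ := by
      simpa [hKV] using hy
    simp only [hF, hR p _ this, zero_mul]
  have hts : tsupport F ⊆ KV :=
    closure_minimal (fun y hy => by
      by_contra h
      exact hy (hF0 y h)) hV.isClosed
  have hc : HasCompactSupport F := hV.of_isClosed_subset (isClosed_tsupport F) hts
  have hb := h2 F (C1 * (1 + |xi|) ^ M) (by positivity) hFc hF0
    (fun j hj y hy => h1 j hj p (by simpa using hp) xi y hy)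
  set S := hc.toSchwartzMap hFc with hS
  have hSF : (S : EuclideanSpace ℝ (Fin n) → ℂ) = F := rfl
  have hFF : 𝓕 F = ((𝓕 S : SchwartzMap _ ℂ) : EuclideanSpace ℝ (Fin n) → ℂ) := by
    rw [SchwartzMap.fourier_coe, hSF]
  have hFi : Integrable (𝓕 F) := by
    rw [hFF]
    exact (𝓕 S).integrable
  have hFcont : Continuous (𝓕 F) := by
    rw [hFF]
    exact (𝓕 S).continuous
  have hmp : MeasurePreserving (@WithLp.toLp 2 (Fin n → ℝ)) := PiLp.volume_preserving_toLp (Fin n)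
  have hme : MeasurableEmbedding (@WithLp.toLp 2 (Fin n → ℝ)) :=
    (MeasurableEquiv.toLp 2 (Fin n → ℝ)).measurableEmbedding
  refine ⟨fun z => 𝓕 F (WithLp.toLp 2 z), hFcont.comp (PiLp.continuous_toLp 2 _),
    (hmp.integrable_comp_emb hme).2 hFi, fun z => ?_, fun y => ?_⟩
  · refine (hb _).trans ?_
    have hz : ‖z‖ ≤ ‖(WithLp.toLp 2 z : EuclideanSpace ℝ (Fin n))‖ := by
      refine (pi_norm_le_iff_of_nonneg (norm_nonneg _)).2 fun i => ?_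
      exact PiLp.norm_apply_le (WithLp.toLp 2 z : EuclideanSpace ℝ (Fin n)) i
    rw [← mul_assoc]
    gcongr
  · have hinv := (hFc.continuous.fourierInv_fourier_eq
      (hFc.continuous.integrable_of_hasCompactSupport hc) hFi)
    have e1 : A (p, y) * Om (xi * ph (p, y)) = F (WithLp.toLp 2 y) := rfl
    have e2 : F (WithLp.toLp 2 y) = 𝓕⁻ (𝓕 F) (WithLp.toLp 2 y) := by rw [hinv]
    rw [e1, e2, Real.fourierInv_eq', ← hmp.integral_comp hme]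
    refine integral_congr_ae (Filter.Eventually.of_forall fun z => ?_)
    simp only [smul_eq_mul]
    rw [mul_comm]
    congr 1
    unfold ex
    congr 1
    rw [mul_comm]
    congr 2
    simp [PiLp.inner_apply, mul_comm]

end Pool.Agent.MP_c853c5_nt.W.Sp

namespace Pool.Agent.MP_c853c5_nt.W

theorem sep_stmt : SepStmt := by
  intro k n A φ Ω R hA hφ hΩ hR M
  obtain ⟨C, hC, h⟩ := Sp.sep (fun p => (A p : ℂ)) φ Ω (Complex.ofRealCLM.contDiff.comp hA) hφ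
    hΩ.1 hΩ.2 R (fun p y hy => by simp only [hR (p, y) hy, Complex.ofReal_zero]) M
  refine ⟨C, hC, fun π ξ hπ => ?_⟩
  obtain ⟨c, h1, h2, h3, h4⟩ := h π hπ ξ
  exact ⟨c, h1.measurable, h2, h3, h4⟩

end Pool.Agent.MP_c853c5_nt.W

end
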