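import Mathlib
import Pool.Agent.Mg.C853.Gf25d0d

section

/-!
From upper Riemann sums to closed forms: trapezoids and volumes of boxes cut by a half space.
-/

set_option autoImplicit false

open Filter Topology

namespace Pool.Agent.MP_c853c5_nt.X

/-- a subadditive bound on intervals -/
structure Sub1 (P : ℝ → ℝ → ℝ → Prop) : Prop where
  split : ∀ l c h m m', l ≤ c → c ≤ h → P l c m → P c h m' → P l h (m + m')
  mono : ∀ l h m m', m ≤ m' → P l h m → P l h m'
  closed : ∀ l h m, (∀ ε, 0 < ε → P l h (m + ε)) → P l h m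

variable {P : ℝ → ℝ → ℝ → Prop} {L H : ℝ}

lemma Sub1.bisect (hP : Sub1 P) {T : ℝ → ℝ → ℝ} {δ : ℝ} (hδ : 0 < δ) (hL : L ≤ H)
    (hT : ∀ l h, L ≤ l → l ≤ h → h ≤ H → T l ((l + h) / 2) + T ((l + h) / 2) h ≤ T l h)
    (h0 : ∀ l h, L ≤ l → l ≤ h → h ≤ H → h - l ≤ δ → P l h (T l h)) : P L H (T L H) := by
  have key : ∀ n : ℕ, ∀ l h, L ≤ l → l ≤ h → h ≤ H → h - l ≤ 2 ^ n * δ → P l h (T l h) := by
    intro n
    induction n with
    | zero => simpa using h0
    | succ n ih =>
      intro l h h1 h2 h3 h4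
      rw [pow_succ] at h4
      exact hP.mono _ _ _ _ (hT l h h1 h2 h3) (hP.split l _ h _ _ (by linarith) (by linarith)
        (ih _ _ h1 (by linarith) (by linarith) (by linarith))
        (ih _ _ (by linarith) (by linarith) h3 (by linarith)))
  obtain ⟨n, hn⟩ := pow_unbounded_of_one_lt ((H - L) / δ) (one_lt_two (α := ℝ))
  exact key n L H le_rfl hL le_rfl ((div_lt_iff₀ hδ).1 hn).le

lemma Sub1.lim (hP : Sub1 P) {f : ℝ → ℝ} (hf : Continuous f) (h : ∀ δ, 0 < δ → P L H (f δ)) :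
    P L H (f 0) := by
  refine hP.closed _ _ _ fun ε hε => ?_
  have h1 : ∀ᶠ δ in 𝓝[>] (0 : ℝ), f δ < f 0 + ε :=
    ((hf.tendsto 0).eventually (gt_mem_nhds (by linarith))).filter_mono nhdsWithin_le_nhds
  obtain ⟨δ, h2, h3⟩ := (h1.and self_mem_nhdsWithin).exists
  exact hP.mono _ _ _ _ h2.le (h δ h3)

/-- the weight of an interval -/
noncomputable def gw (s p L H l h : ℝ) : ℝ := Real.exp (-(s * (l - L)) - p * (H - h))

lemma gw_le {s p l h δ : ℝ} (hs : 0 ≤ s) (hp : 0 ≤ p) (h1 : l ≤ h) (h2 : h - l ≤ δ) :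
    gw s p L H l h ≤ Real.exp ((s + p) * δ) * gw s p L H l l ∧
      gw s p L H l h ≤ Real.exp ((s + p) * δ) * gw s p L H h h := by
  unfold gw
  rw [← Real.exp_add, ← Real.exp_add]
  constructor <;> refine Real.exp_le_exp.2 ?_ <;>
    nlinarith [mul_le_mul_of_nonneg_left h2 hs, mul_le_mul_of_nonneg_left h2 hp,
      mul_nonneg hs (sub_nonneg.2 h1), mul_nonneg hp (sub_nonneg.2 h1)]

lemma gw_mid (s p l h : ℝ) :
    2 * gw s p L H ((l + h) / 2) ((l + h) / 2) ≤ gw s p L H l l + gw s p L H h h := by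
  have := convexOn_exp.2 (Set.mem_univ (-(s * (l - L)) - p * (H - l)))
    (Set.mem_univ (-(s * (h - L)) - p * (H - h))) (show (0 : ℝ) ≤ 1 / 2 by norm_num)
    (show (0 : ℝ) ≤ 1 / 2 by norm_num) (by norm_num)
  simp only [smul_eq_mul] at this
  unfold gw
  rw [show -(s * ((l + h) / 2 - L)) - p * (H - (l + h) / 2) =
    1 / 2 * (-(s * (l - L)) - p * (H - l)) + 1 / 2 * (-(s * (h - L)) - p * (H - h)) by ring]
  linarith

lemma gw_max {s p l : ℝ} (h1 : L ≤ l) (h2 : l ≤ H) :
    gw s p L H l l ≤ max (gw s p L H L L) (gw s p L H H H) := by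
  unfold gw
  rcases le_total s p with e | e
  · refine le_max_of_le_right (Real.exp_le_exp.2 ?_)
    nlinarith [mul_nonneg (sub_nonneg.2 e) (sub_nonneg.2 h2)]
  · refine le_max_of_le_left (Real.exp_le_exp.2 ?_)
    nlinarith [mul_nonneg (sub_nonneg.2 e) (sub_nonneg.2 h1)]

/-- the trapezoidal rule -/
lemma Sub1.trap (hP : Sub1 P) {K s p : ℝ} (hK : 0 ≤ K) (hs : 0 ≤ s) (hp : 0 ≤ p) (hL : L ≤ H)
    (h0 : ∀ l h, L ≤ l → l ≤ h → h ≤ H → P l h (K * ((h - l) * gw s p L H l h))) :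
    P L H (K * ((H - L) * (gw s p L H L L + gw s p L H H H) / 2)) := by
  have := hP.lim (L := L) (H := H) (f := fun δ => Real.exp ((s + p) * δ) *
    (K * ((H - L) * (gw s p L H L L + gw s p L H H H) / 2))) (by fun_prop) fun δ hδ =>
    hP.bisect (T := fun l h => Real.exp ((s + p) * δ) *
      (K * ((h - l) * (gw s p L H l l + gw s p L H h h) / 2))) hδ hL
      (fun l h _ h2 _ => ?_) fun l h h1 h2 h3 h4 => hP.mono _ _ _ _ ?_ (h0 l h h1 h2 h3)
  · simpa using this
  · rw [← mul_add, ← mul_add]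
    refine mul_le_mul_of_nonneg_left (mul_le_mul_of_nonneg_left ?_ hK) (Real.exp_pos _).le
    nlinarith [mul_le_mul_of_nonneg_left (gw_mid (L := L) (H := H) s p l h) (sub_nonneg.2 h2)]
  · obtain ⟨g1, g2⟩ := gw_le (L := L) (H := H) hs hp h2 h4
    rw [mul_left_comm (Real.exp _)]
    refine mul_le_mul_of_nonneg_left ?_ hK
    nlinarith [mul_le_mul_of_nonneg_left (add_le_add g1 g2) (sub_nonneg.2 h2)]

/-! ### truncated powers -/

/-- `σ ^ m / m!` for `σ ≥ 0`, zero otherwise -/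
noncomputable def tp : ℕ → ℝ → ℝ
  | 0, σ => if 0 ≤ σ then 1 else 0
  | m + 1, σ => max σ 0 ^ (m + 1) / (m + 1).factorial

lemma tp_deriv (m : ℕ) (σ : ℝ) : HasDerivAt (tp (m + 2)) (tp (m + 1) σ) σ := by
  have e : tp (m + 2) = fun σ : ℝ => max σ 0 ^ (m + 2) / ((m + 2).factorial : ℝ) := rfl
  have h1 : ∀ z : ℝ, HasDerivAt (fun σ : ℝ => σ ^ (m + 2) / ((m + 2).factorial : ℝ))
      (z ^ (m + 1) / (m + 1).factorial) z := fun z => by
    refine ((hasDerivAt_pow (m + 2) z).div_const ((m + 2).factorial : ℝ)).congr_deriv ?_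
    rw [Nat.factorial_succ (m + 1), show m + 2 - 1 = m + 1 from rfl]
    push_cast
    have : ((m + 1).factorial : ℝ) ≠ 0 := by positivity
    field_simp
    ring
  rw [e, tp]
  rcases lt_trichotomy σ 0 with h | rfl | h
  · rw [max_eq_right h.le, zero_pow (by omega), zero_div]
    refine (hasDerivAt_const σ (0 : ℝ)).congr_of_eventuallyEq ?_
    filter_upwards [gt_mem_nhds h] with z hz
    rw [max_eq_right hz.le, zero_pow (by omega), zero_div]
  · rw [max_self, ← hasDerivWithinAt_univ, ← Set.Iic_union_Ici (a := (0 : ℝ))]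
    refine HasDerivWithinAt.union ?_ ((h1 0).hasDerivWithinAt.congr (fun z hz => ?_) (by simp))
    · rw [zero_pow (by omega), zero_div]
      refine (hasDerivAt_const (0 : ℝ) (0 : ℝ)).hasDerivWithinAt.congr (fun z hz => ?_) (by simp)
      rw [max_eq_right hz, zero_pow (by omega), zero_div]
    · rw [max_eq_left hz]
  · rw [max_eq_left h.le]
    refine (h1 σ).congr_of_eventuallyEq ?_
    filter_upwards [lt_mem_nhds h] with z hz
    rw [max_eq_left hz.le]

/-- iterated differences -/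
noncomputable def dif : List ℝ → (ℝ → ℝ) → ℝ → ℝ
  | [], f, σ => f σ
  | x :: D, f, σ => dif D f σ - dif D f (σ - x)

lemma dif_deriv {f f' : ℝ → ℝ} (h : ∀ σ, HasDerivAt f (f' σ) σ) (D : List ℝ) :
    ∀ σ, HasDerivAt (dif D f) (dif D f' σ) σ := by
  induction D with
  | nil => exact h
  | cons x D ih => exact fun σ => (ih σ).sub ((ih (σ - x)).comp_sub_const σ x)

lemma tp_zero_mono : Monotone (tp 0) := fun a b h => by
  simp only [tp]
  split_ifs with h1 h2 <;> first | rfl | norm_num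
  exact h2 (h1.trans h)

lemma tp_mono : ∀ m, Monotone (tp m)
  | 0 => tp_zero_mono
  | m + 1 => fun a b h => by
    simp only [tp]
    gcongr

lemma dif_mono' (D : List ℝ) (hD : ∀ x ∈ D, 0 ≤ x) :
    ∀ m, D.length ≤ m → Monotone (dif D (tp m)) := by
  induction D with
  | nil => exact fun m _ => tp_mono m
  | cons x D ih =>
    intro m hm
    have h0 := hD x (by simp)
    have h1 := ih fun y hy => hD y (by simp [hy])
    rw [List.length_cons] at hm
    match m, hm with
    | 1, hm =>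
      obtain rfl : D = [] := List.length_eq_zero_iff.1 (by omega)
      intro a b h
      simp only [dif, tp, zero_add, pow_one, Nat.factorial_one, Nat.cast_one, div_one, max_def]
      split_ifs <;> linarith
    | m + 2, hm =>
      have h2 := dif_deriv (tp_deriv m) (x :: D)
      refine monotone_of_deriv_nonneg (fun σ => (h2 σ).differentiableAt) fun σ => ?_
      exact (sub_nonneg.2 (h1 (m + 1) (by omega) (by linarith))).trans_eq (h2 σ).deriv.symm

lemma dif_mono (D : List ℝ) (hD : ∀ x ∈ D, 0 ≤ x) : Monotone (dif D (tp D.length)) :=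
  dif_mono' D hD _ le_rfl

lemma dif_nonneg (D : List ℝ) (hD : ∀ x ∈ D, 0 ≤ x) (σ : ℝ) : 0 ≤ dif D (tp D.length) σ := by
  have z : ∀ (E : List ℝ) (m : ℕ) (σ : ℝ), (∀ x ∈ E, 0 ≤ x) → σ < 0 → dif E (tp m) σ = 0 := by
    intro E m
    induction E with
    | nil =>
      intro σ _ h
      cases m with
      | zero => exact if_neg h.not_ge
      | succ m => simp [dif, tp, max_eq_right h.le]
    | cons x E ih =>
      intro σ h1 h
      rw [dif, ih _ (fun y hy => h1 y (by simp [hy])) h,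
        ih _ (fun y hy => h1 y (by simp [hy])) (by linarith [h1 x (by simp)]), sub_zero]
  exact (z D _ (min σ (-1)) hD (by simp)).ge.trans (dif_mono D hD (min_le_left _ _))

lemma dif_step (D : List ℝ) (hD : ∀ x ∈ D, 0 ≤ x) (σ : ℝ) {x : ℝ} (hx : 0 ≤ x) :
    x * dif D (tp D.length) (σ - x) ≤
      dif D (tp (D.length + 1)) σ - dif D (tp (D.length + 1)) (σ - x) := by
  cases D with
  | nil =>
    simp only [dif, List.length_nil, tp, zero_add, pow_one, Nat.factorial_one,
      Nat.cast_one, div_one, max_def]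
    split_ifs <;> linarith
  | cons y D =>
    rcases hx.eq_or_lt with rfl | hx
    · simp
    have h2 := dif_deriv (tp_deriv D.length) (y :: D)
    obtain ⟨c, hc, e⟩ := exists_hasDerivAt_eq_slope _ _ (show σ - x < σ by linarith)
      (fun z _ => (h2 z).continuousAt.continuousWithinAt) fun z _ => h2 z
    have := dif_mono _ hD hc.1.le
    rw [sub_sub_cancel, eq_div_iff hx.ne'] at e
    simp only [List.length_cons] at this ⊢
    rw [← e, mul_comm]
    exact mul_le_mul_of_nonneg_right this hx.le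

/-- one more variable of the row; `u l - v h` with `u v = 0` is its least value on `[l, h]` -/
lemma Sub1.row (hP : Sub1 P) {K s p σ u v : ℝ} {D : List ℝ} (hD : ∀ x ∈ D, 0 ≤ x) (hK : 0 ≤ K)
    (hs : 0 ≤ s) (hp : 0 ≤ p) (hL : L ≤ H) (huv : (0 < u ∧ v = 0) ∨ (u = 0 ∧ 0 < v))
    (h0 : ∀ l h, L ≤ l → l ≤ h → h ≤ H →
      P l h (K * ((h - l) * gw s p L H l h) * dif D (tp D.length) (σ - (u * l - v * h)))) :
    P L H (K * (max (gw s p L H L L) (gw s p L H H H) / (u + v)) *
      dif ((u + v) * (H - L) :: D) (tp (D.length + 1)) (σ - (u * L - v * H))) := by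
  have c0 : 0 < u + v := by rcases huv with ⟨h1, h2⟩ | ⟨h1, h2⟩ <;> linarith
  set G := max (gw s p L H L L) (gw s p L H H H) with hG
  have G0 : 0 ≤ G := le_max_of_le_left (Real.exp_pos _).le
  have := hP.lim (L := L) (H := H) (f := fun δ => Real.exp ((s + p) * δ) * (K * G) *
    (dif [(u + v) * (H - L)] (dif D (tp (D.length + 1))) (σ - (u * L - v * H)) / (u + v) +
      δ * dif [(u + v) * (H - L)] (dif D (tp D.length)) (σ - (u * L - v * H)))) (by fun_prop)
    fun δ hδ => hP.bisect (T := fun l h => Real.exp ((s + p) * δ) * (K * G) *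
      (dif [(u + v) * (h - l)] (dif D (tp (D.length + 1))) (σ - (u * l - v * h)) / (u + v) +
        δ * dif [(u + v) * (h - l)] (dif D (tp D.length)) (σ - (u * l - v * h)))) hδ hL
      (fun l h _ h2 _ => le_of_eq ?_) fun l h h1 h2 h3 h4 => hP.mono _ _ _ _ ?_ (h0 l h h1 h2 h3)
  · convert this using 1
    simp only [dif, mul_zero, Real.exp_zero, zero_mul]
    ring
  · simp only [dif]
    rcases huv with ⟨-, rfl⟩ | ⟨rfl, -⟩ <;> ring_nf
  · obtain ⟨g1, -⟩ := gw_le (L := L) (H := H) hs hp h2 h4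
    have g2 : gw s p L H l h ≤ Real.exp ((s + p) * δ) * G := g1.trans
      (mul_le_mul_of_nonneg_left (gw_max h1 (h2.trans h3)) (Real.exp_pos _).le)
    have w0 := sub_nonneg.2 h2
    have g3 := dif_step D hD (σ - (u * l - v * h)) (mul_nonneg c0.le w0)
    have g4 := dif_mono D hD (sub_le_self (σ - (u * l - v * h)) (mul_nonneg c0.le w0))
    have g5 := dif_nonneg D hD (σ - (u * l - v * h))
    simp only [dif]
    generalize dif D (tp D.length) (σ - (u * l - v * h)) = a at *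
    generalize dif D (tp D.length) (σ - (u * l - v * h) - (u + v) * (h - l)) = b at *
    generalize dif D (tp (D.length + 1)) (σ - (u * l - v * h)) -
      dif D (tp (D.length + 1)) (σ - (u * l - v * h) - (u + v) * (h - l)) = d at *
    have g6 : (h - l) * b ≤ d / (u + v) := by
      rw [le_div_iff₀ c0]
      linarith
    have g7 : (h - l) * a ≤ d / (u + v) + δ * (a - b) := by
      nlinarith [mul_le_mul_of_nonneg_right h4 (sub_nonneg.2 g4)]
    calc K * ((h - l) * gw s p L H l h) * a = K * gw s p L H l h * ((h - l) * a) := by ring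
      _ ≤ K * (Real.exp ((s + p) * δ) * G) * (d / (u + v) + δ * (a - b)) :=
        mul_le_mul (mul_le_mul_of_nonneg_left g2 hK) g7 (mul_nonneg w0 g5) (by positivity)
      _ = _ := by ring

end Pool.Agent.MP_c853c5_nt.X

end

section

/-!
The closed form bound on a box, one coordinate at a time.
-/

set_option autoImplicit false

open Finset Function

namespace Pool.Agent.MP_c853c5_nt.X

/-- a subadditive bound on boxes -/
structure SubN (M : (ℕ → ℝ) → (ℕ → ℝ) → ℝ → Prop) : Prop where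
  split : ∀ lo hi j c m m', 1 ≤ j → M lo (update hi j c) m → M (update lo j c) hi m' →
    M lo hi (m + m')
  mono : ∀ lo hi m m', m ≤ m' → M lo hi m → M lo hi m'
  closed : ∀ lo hi m, (∀ ε, 0 < ε → M lo hi (m + ε)) → M lo hi m

/-- the box `[lo, hi]` lies in `[L, H]` and differs only in the coordinates `1, …, r` -/
def SubB (L H : ℕ → ℝ) (r : ℕ) (lo hi : ℕ → ℝ) : Prop :=
  (∀ j, 1 ≤ j → j ≤ r → L j ≤ lo j ∧ lo j ≤ hi j ∧ hi j ≤ H j) ∧
    ∀ j, j = 0 ∨ r < j → lo j = L j ∧ hi j = H j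

variable (L H s p u v : ℕ → ℝ)

/-- the final factor of a node -/
noncomputable def fac (j : ℕ) : ℝ :=
  if u j + v j = 0 then
    (H j - L j) * (gw (s j) (p j) (L j) (H j) (L j) (L j) + gw (s j) (p j) (L j) (H j) (H j) (H j)) / 2
  else max (gw (s j) (p j) (L j) (H j) (L j) (L j)) (gw (s j) (p j) (L j) (H j) (H j) (H j)) /
    (u j + v j)

/-- the steps of the differences -/
noncomputable def rowD : ℕ → List ℝ → List ℝ
  | 0, D => D
  | r + 1, D => rowD r (if u (r + 1) + v (r + 1) = 0 then D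
      else (u (r + 1) + v (r + 1)) * (H (r + 1) - L (r + 1)) :: D)

variable {L H s p u v}

theorem SubN.multi {M : (ℕ → ℝ) → (ℕ → ℝ) → ℝ → Prop} (hM : SubN M) (hs : ∀ j, 0 ≤ s j)
    (hp : ∀ j, 0 ≤ p j) (hu : ∀ j, 0 ≤ u j) (hv : ∀ j, 0 ≤ v j) (huv : ∀ j, u j = 0 ∨ v j = 0)
    (r : ℕ) : ∀ (K σ : ℝ) (D : List ℝ), (∀ j, 1 ≤ j → j ≤ r → L j ≤ H j) → 0 ≤ K →
      (∀ x ∈ D, 0 ≤ x) → (∀ lo hi, SubB L H r lo hi → M lo hi (K * (∏ j ∈ range r,
        (hi (j + 1) - lo (j + 1)) * gw (s (j + 1)) (p (j + 1)) (L (j + 1)) (H (j + 1))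
          (lo (j + 1)) (hi (j + 1))) * dif D (tp D.length)
        (σ - ∑ j ∈ range r, (u (j + 1) * lo (j + 1) - v (j + 1) * hi (j + 1))))) →
      M L H (K * (∏ j ∈ range r, fac L H s p u v (j + 1)) *
        dif (rowD L H u v r D) (tp (rowD L H u v r D).length)
          (σ - ∑ j ∈ range r, (u (j + 1) * L (j + 1) - v (j + 1) * H (j + 1)))) := by
  induction r with
  | zero =>
    intro K σ D _ _ _ h
    simpa [rowD] using h L H ⟨fun j h1 h2 => by omega, fun _ _ => ⟨rfl, rfl⟩⟩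
  | succ r ih =>
    intro K σ D hL hK hD h
    have w0 := hL (r + 1) (by omega) le_rfl
    have f0 : 0 ≤ fac L H s p u v (r + 1) := by
      have := sub_nonneg.2 w0
      have := hu (r + 1)
      have := hv (r + 1)
      unfold fac gw
      split_ifs <;> positivity
    have := ih (K * fac L H s p u v (r + 1)) (σ - (u (r + 1) * L (r + 1) - v (r + 1) * H (r + 1)))
      (if u (r + 1) + v (r + 1) = 0 then D
        else (u (r + 1) + v (r + 1)) * (H (r + 1) - L (r + 1)) :: D)
      (fun j h1 h2 => hL j h1 (by omega)) (mul_nonneg hK f0) (fun x hx => ?_) fun lo hi hb => ?_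
    · rw [rowD, prod_range_succ, sum_range_succ, mul_comm _ (fac L H s p u v (r + 1)), ← mul_assoc,
        add_comm (∑ j ∈ range r, _), ← sub_sub]
      exact this
    · split_ifs at hx
      · exact hD x hx
      · rcases List.mem_cons.1 hx with rfl | hx
        · exact mul_nonneg (add_nonneg (hu _) (hv _)) (sub_nonneg.2 w0)
        · exact hD x hx
    have hP : Sub1 fun l h m => M (update lo (r + 1) l) (update hi (r + 1) h) m :=
      ⟨fun l c h m m' _ _ g1 g2 => hM.split _ _ (r + 1) c _ _ (by omega)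
        (by rwa [update_idem]) (by rwa [update_idem]),
        fun _ _ _ _ => hM.mono _ _ _ _, fun _ _ _ => hM.closed _ _ _⟩
    set Q := ∏ j ∈ range r, (hi (j + 1) - lo (j + 1)) *
      gw (s (j + 1)) (p (j + 1)) (L (j + 1)) (H (j + 1)) (lo (j + 1)) (hi (j + 1)) with hQ
    set Z := ∑ j ∈ range r, (u (j + 1) * lo (j + 1) - v (j + 1) * hi (j + 1)) with hZ
    have Q0 : 0 ≤ Q := prod_nonneg fun j hj => mul_nonneg
      (sub_nonneg.2 (hb.1 _ (by omega) (by simpa using hj)).2.1) (Real.exp_pos _).le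
    have key : ∀ l h, L (r + 1) ≤ l → l ≤ h → h ≤ H (r + 1) →
        M (update lo (r + 1) l) (update hi (r + 1) h)
          (K * Q * ((h - l) * gw (s (r + 1)) (p (r + 1)) (L (r + 1)) (H (r + 1)) l h) *
            dif D (tp D.length) (σ - Z - (u (r + 1) * l - v (r + 1) * h))) := by
      intro l h' g1 g2 g3
      have e : ∀ (f : ℕ → ℝ) (c : ℝ), ∀ j ∈ range r, update f (r + 1) c (j + 1) = f (j + 1) :=
        fun f c j hj => update_of_ne (by simpa using (mem_range.1 hj).ne) _ _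
      have := h (update lo (r + 1) l) (update hi (r + 1) h') ⟨fun j g4 g5 => ?_, fun j g4 => ?_⟩
      · rw [prod_range_succ, sum_range_succ, update_self, update_self,
          prod_congr rfl fun j hj => by rw [e lo l j hj, e hi h' j hj],
          sum_congr rfl fun j hj => by rw [e lo l j hj, e hi h' j hj], ← sub_sub,
          ← mul_assoc] at this
        exact this
      · by_cases c : j = r + 1
        · rw [c, update_self, update_self]
          exact ⟨g1, g2, g3⟩
        · rw [update_of_ne c, update_of_ne c]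
          exact hb.1 j g4 (by omega)
      · rw [update_of_ne (by omega), update_of_ne (by omega)]
        exact hb.2 j (by omega)
    obtain ⟨e1, e2⟩ := hb.2 (r + 1) (by omega)
    have fin : ∀ m, M (update lo (r + 1) (L (r + 1))) (update hi (r + 1) (H (r + 1))) m →
        M lo hi m := fun m => by rw [← e1, ← e2, update_eq_self, update_eq_self]; exact id
    refine fin _ ?_
    unfold fac
    split_ifs with c
    · have c1 : u (r + 1) = 0 := by linarith [hu (r + 1), hv (r + 1)]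
      have c2 : v (r + 1) = 0 := by linarith
      simp only [c1, c2, zero_mul, sub_zero] at key ⊢
      have := hP.trap (K := K * Q * dif D (tp D.length) (σ - Z))
        (mul_nonneg (mul_nonneg hK Q0) (dif_nonneg D hD _)) (hs _) (hp _) w0
        fun l h g1 g2 g3 => by convert key l h g1 g2 g3 using 1; ring
      convert this using 1
      ring
    · have := hP.row hD (mul_nonneg hK Q0) (hs _) (hp _) w0 (by
        rcases huv (r + 1) with g | g
        · exact Or.inr ⟨g, (hv _).lt_of_ne fun e => c (by rw [g, ← e, add_zero])⟩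
        · exact Or.inl ⟨(hu _).lt_of_ne fun e => c (by rw [g, ← e, add_zero]), g⟩) key
      rw [List.length_cons, mul_right_comm K, sub_right_comm σ]
      exact this

end Pool.Agent.MP_c853c5_nt.X

end

section

/-!
Volumes of boxes cut by half spaces.
-/

set_option autoImplicit false

open Finset Function MeasureTheory

namespace Pool.Agent.MP_c853c5_nt.X

variable {r : ℕ} {lo hi L H a : ℕ → ℝ} {σ : ℝ}

/-- closed and half open boxes in the coordinates `1, …, r` -/
def Bc (r : ℕ) (lo hi : ℕ → ℝ) : Set (Fin r → ℝ) :=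
  Set.Icc (fun i => lo (i + 1)) fun i => hi (i + 1)

def Bo (r : ℕ) (lo hi : ℕ → ℝ) : Set (Fin r → ℝ) :=
  Set.pi Set.univ fun i => Set.Ioc (lo (i + 1)) (hi (i + 1))

def Hs (r : ℕ) (a : ℕ → ℝ) (σ : ℝ) : Set (Fin r → ℝ) := {z | ∑ i : Fin r, a (i + 1) * z i ≤ σ}

lemma mem_Bc {z : Fin r → ℝ} : z ∈ Bc r lo hi ↔ ∀ i : Fin r, lo (i + 1) ≤ z i ∧ z i ≤ hi (i + 1) :=
  ⟨fun h i => ⟨h.1 i, h.2 i⟩, fun h => ⟨fun i => (h i).1, fun i => (h i).2⟩⟩

lemma mem_Bo {z : Fin r → ℝ} : z ∈ Bo r lo hi ↔ ∀ i : Fin r, lo (i + 1) < z i ∧ z i ≤ hi (i + 1) :=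
  ⟨fun h i => h i trivial, fun h i _ => h i⟩

lemma Bo_sub : Bo r lo hi ⊆ Bc r lo hi := fun _ h =>
  mem_Bc.2 fun i => ⟨(mem_Bo.1 h i).1.le, (mem_Bo.1 h i).2⟩

lemma Bc_fin {X : Set (Fin r → ℝ)} (h : X ⊆ Bc r lo hi) : volume X ≠ ⊤ :=
  ((measure_mono h).trans_lt isCompact_Icc.measure_lt_top).ne

lemma vol_Bc (h : ∀ j, 1 ≤ j → j ≤ r → lo j ≤ hi j) :
    volume.real (Bc r lo hi) = ∏ j ∈ range r, (hi (j + 1) - lo (j + 1)) := by
  rw [← Fin.prod_univ_eq_prod_range (fun j => hi (j + 1) - lo (j + 1)) r]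
  exact Real.volume_Icc_pi_toReal fun i => h _ (by omega) (by omega)

lemma vol_Bo (h : ∀ j, 1 ≤ j → j ≤ r → lo j ≤ hi j) :
    volume.real (Bo r lo hi) = ∏ j ∈ range r, (hi (j + 1) - lo (j + 1)) := by
  rw [← Fin.prod_univ_eq_prod_range (fun j => hi (j + 1) - lo (j + 1)) r]
  exact Real.volume_pi_Ioc_toReal fun i => h _ (by omega) (by omega)

lemma Hs_meas : MeasurableSet (Hs r a σ) :=
  (isClosed_le (by fun_prop) continuous_const).measurableSet

lemma subN_vol (X : Set (Fin r → ℝ)) :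
    SubN fun lo hi m => volume.real (Bc r lo hi ∩ X) ≤ m := by
  refine ⟨fun lo hi j c m m' _ h1 h2 => le_trans ?_ (add_le_add h1 h2), fun _ _ _ _ h h' => h'.trans h,
    fun _ _ _ h => le_of_forall_pos_le_add h⟩
  refine le_trans (measureReal_mono (fun z hz => ?_) (measure_union_ne_top
    (Bc_fin Set.inter_subset_left) (Bc_fin Set.inter_subset_left))) (measureReal_union_le _ _)
  have g := mem_Bc.1 hz.1
  by_cases e : ∀ i : Fin r, (i : ℕ) + 1 = j → z i ≤ c
  · refine Or.inl ⟨mem_Bc.2 fun i => ⟨(g i).1, ?_⟩, hz.2⟩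
    by_cases q : (i : ℕ) + 1 = j
    · rw [q, update_self]
      exact e i q
    · rw [update_of_ne q]
      exact (g i).2
  · push Not at e
    obtain ⟨i0, e1, e2⟩ := e
    refine Or.inr ⟨mem_Bc.2 fun i => ⟨?_, (g i).2⟩, hz.2⟩
    by_cases q : (i : ℕ) + 1 = j
    · rw [q, update_self, show i = i0 from Fin.ext (by omega)]
      exact e2.le
    · rw [update_of_ne q]
      exact (g i).1

/-- the volume of a box cut by one row -/
theorem vol_hs {u v : ℕ → ℝ} (hu : ∀ j, 0 ≤ u j) (hv : ∀ j, 0 ≤ v j) (huv : ∀ j, u j = 0 ∨ v j = 0)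
    (hL : ∀ j, 1 ≤ j → j ≤ r → L j ≤ H j) :
    volume.real (Bc r L H ∩ Hs r (fun j => u j - v j) σ) ≤
      (∏ j ∈ range r, fac L H (fun _ => 0) (fun _ => 0) u v (j + 1)) *
        dif (rowD L H u v r []) (tp (rowD L H u v r []).length)
          (σ - ∑ j ∈ range r, (u (j + 1) * L (j + 1) - v (j + 1) * H (j + 1))) := by
  have := (subN_vol (Hs r (fun j => u j - v j) σ)).multi (L := L) (H := H) (s := fun _ => 0)
    (p := fun _ => 0) (fun _ => le_rfl) (fun _ => le_rfl) hu hv huv r 1 σ [] hL zero_le_one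
    (by simp) fun lo hi hb => ?_
  · rwa [one_mul] at this
  simp only [dif, List.length_nil, tp, gw, zero_mul, neg_zero, sub_zero, Real.exp_zero, mul_one,
    one_mul]
  split_ifs with c
  · rw [mul_one, ← vol_Bc fun j h1 h2 => (hb.1 j h1 h2).2.1]
    exact measureReal_mono Set.inter_subset_left (Bc_fin le_rfl)
  · rw [mul_zero, Set.eq_empty_of_forall_notMem (s := Bc r lo hi ∩ _) fun z hz => c ?_,
      measureReal_empty]
    rw [sub_nonneg, ← Fin.sum_univ_eq_sum_range
      (fun j => u (j + 1) * lo (j + 1) - v (j + 1) * hi (j + 1)) r]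
    refine le_trans (sum_le_sum fun i _ => ?_) hz.2
    obtain ⟨g1, g2⟩ := mem_Bc.1 hz.1 i
    nlinarith [mul_le_mul_of_nonneg_left g1 (hu (i + 1)), mul_le_mul_of_nonneg_left g2 (hv (i + 1))]

/-- one more row -/
lemma vol_step {X B A : Set (Fin r → ℝ)} (hB : volume B ≠ ⊤) (hX : X ⊆ B) (hA : MeasurableSet A) :
    volume.real (X ∩ A) + volume.real B ≤
      volume.real X + volume.real (B ∩ A) + volume.real ((B \ A) \ X) := by
  have h1 := measureReal_inter_add_sdiff (μ := volume) (s := X) hA (measure_ne_top_of_subset hX hB)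
  have h2 := measureReal_inter_add_sdiff (μ := volume) (s := B) hA hB
  have h3 : volume.real (B \ A) ≤ volume.real (X \ A) + volume.real ((B \ A) \ X) := by
    refine le_trans (measureReal_mono (fun z hz => ?_) (measure_ne_top_of_subset
      (Set.union_subset (Set.sdiff_subset.trans hX) (Set.sdiff_subset.trans Set.sdiff_subset)) hB))
      (measureReal_union_le _ _)
    by_cases e : z ∈ X
    exacts [Or.inl ⟨e, hz.2⟩, Or.inr ⟨hz, e⟩]
  linarith

/-- the coordinate `p` is replaced by the slack of a row -/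
noncomputable def shr (a : ℕ → ℝ) (σ : ℝ) (p : Fin r) (z : Fin r → ℝ) : Fin r → ℝ :=
  update z p (σ - ∑ i : Fin r, a (i + 1) * z i)

theorem vol_shr (p : Fin r) (X : Set (Fin r → ℝ)) :
    volume.real (shr a σ p '' X) = |a (p + 1)| * volume.real X := by
  set M : Matrix (Fin r) (Fin r) ℝ :=
    (1 : Matrix (Fin r) (Fin r) ℝ).updateRow p (∑ k : Fin r, (-a (k + 1)) • (1 : Matrix (Fin r) (Fin r) ℝ) k)
  have e : shr a σ p '' X = (fun z => z + Pi.single p σ) '' (Matrix.toLin' M '' X) := by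
    rw [Set.image_image]
    refine Set.image_congr fun z _ => funext fun i => ?_
    by_cases q : i = p
    · subst q
      simp [shr, M, Matrix.mulVec, dotProduct, Matrix.one_apply, sub_eq_neg_add]
    · simp [shr, M, Matrix.mulVec, dotProduct, Matrix.one_apply, q]
  rw [e, measureReal_def, Set.image_add_right, measure_preimage_add_right,
    Measure.addHaar_image_linearMap, LinearMap.det_toLin', Matrix.det_updateRow_sum,
    Matrix.det_one, ENNReal.toReal_mul, ENNReal.toReal_ofReal (abs_nonneg _), smul_eq_mul, mul_one,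
    abs_neg, measureReal_def]

/-- from small cells to the box; only the coordinates in `I` are cut -/
theorem SubN.fine {M : (ℕ → ℝ) → (ℕ → ℝ) → ℝ → Prop} (hM : SubN M) (I : ℕ → Prop) {δ K : ℝ}
    (hδ : 0 < δ) (hK : 0 ≤ K) {U : Set (Fin r → ℝ)} (hU : MeasurableSet U)
    (hL : ∀ j, 1 ≤ j → j ≤ r → L j ≤ H j)
    (h : ∀ lo hi, SubB L H r lo hi → (∀ j, ¬ I j → lo j = L j ∧ hi j = H j) →
      (∀ j, 1 ≤ j → j ≤ r → I j → hi j - lo j ≤ δ) → M lo hi (K * volume.real (Bo r lo hi ∩ U))) :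
    M L H (K * volume.real (Bo r L H ∩ U)) := by
  have key : ∀ n ≤ r, ∀ lo hi, SubB L H r lo hi → (∀ j, ¬ I j → lo j = L j ∧ hi j = H j) →
      (∀ j, n < j → j ≤ r → I j → hi j - lo j ≤ δ) → M lo hi (K * volume.real (Bo r lo hi ∩ U)) := by
    intro n
    induction n with
    | zero => exact fun _ => h
    | succ n ih =>
      intro hn lo hi h1 h2 h3
      by_cases c : I (n + 1)
      swap
      · exact ih (by omega) lo hi h1 h2 fun j g1 g2 g3 => h3 j
          (lt_of_le_of_ne g1 fun e => c (e ▸ g3)) g2 g3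
      obtain ⟨b1, b2, b3⟩ := h1.1 (n + 1) (by omega) hn
      have hP : Sub1 fun l h m => M (update lo (n + 1) l) (update hi (n + 1) h) m :=
        ⟨fun l c h m m' _ _ g1 g2 => hM.split _ _ (n + 1) c _ _ (by omega)
          (by rwa [update_idem]) (by rwa [update_idem]),
          fun _ _ _ _ => hM.mono _ _ _ _, fun _ _ _ => hM.closed _ _ _⟩
      have := hP.bisect (T := fun l h => K * volume.real
        (Bo r (update lo (n + 1) l) (update hi (n + 1) h) ∩ U)) hδ b2 (fun l h' _ g2 _ => ?_)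
        fun l h' g1 g2 g3 g4 => ih (by omega) _ _ ⟨fun j g5 g6 => ?_, fun j g5 => ?_⟩
          (fun j g5 => ?_) fun j g5 g6 g7 => ?_
      · simpa only [update_eq_self] using this
      · rw [← mul_add]
        refine mul_le_mul_of_nonneg_left ?_ hK
        have fin : ∀ lo hi, volume (Bo r lo hi ∩ U) ≠ ⊤ := fun _ _ =>
          Bc_fin (Set.inter_subset_left.trans Bo_sub)
        have ms : ∀ lo hi, MeasurableSet (Bo r lo hi ∩ U) := fun _ _ =>
          (MeasurableSet.univ_pi fun _ => measurableSet_Ioc).inter hU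
        rw [← measureReal_union (Set.disjoint_left.2 fun z g5 g6 => ?_) (ms _ _) (fin _ _) (fin _ _)]
        · refine measureReal_mono (Set.union_subset (fun z hz => ⟨mem_Bo.2 fun i => ?_, hz.2⟩)
            fun z hz => ⟨mem_Bo.2 fun i => ?_, hz.2⟩) (fin _ _) <;>
          · have := mem_Bo.1 hz.1 i
            by_cases q : (i : ℕ) + 1 = n + 1
            · rw [q, update_self, update_self] at this ⊢
              constructor <;> linarith [this.1, this.2]
            · rwa [update_of_ne q, update_of_ne q] at this ⊢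
        · have g7 := (mem_Bo.1 g5.1 ⟨n, hn⟩).2
          have g8 := (mem_Bo.1 g6.1 ⟨n, hn⟩).1
          rw [update_self] at g7 g8
          exact g7.not_gt g8
      · by_cases q : j = n + 1
        · rw [q, update_self, update_self]
          exact ⟨b1.trans g1, g2, g3.trans b3⟩
        · rw [update_of_ne q, update_of_ne q]
          exact h1.1 j g5 g6
      · rw [update_of_ne (by omega), update_of_ne (by omega)]
        exact h1.2 j g5
      · have q : j ≠ n + 1 := fun e => g5 (e ▸ c)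
        rw [update_of_ne q, update_of_ne q]
        exact h2 j g5
      · by_cases q : j = n + 1
        · rwa [q, update_self, update_self]
        · rw [update_of_ne q, update_of_ne q]
          exact h3 j (by omega) g6 g7
  exact key r le_rfl L H ⟨fun j g1 g2 => ⟨le_rfl, hL j g1 g2, le_rfl⟩, fun _ _ => ⟨rfl, rfl⟩⟩
    (fun _ _ => ⟨rfl, rfl⟩) fun j g1 g2 => absurd g2 g1.not_ge

/-- the trapezoidal rule on a smaller box -/
theorem SubN.cell {M : (ℕ → ℝ) → (ℕ → ℝ) → ℝ → Prop} (hM : SubN M) {s p : ℕ → ℝ} {K : ℝ}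
    (hs : ∀ j, 0 ≤ s j) (hp : ∀ j, 0 ≤ p j) (hK : 0 ≤ K)
    (h : ∀ lo hi, SubB L H r lo hi → M lo hi (K * ∏ j ∈ range r, (hi (j + 1) - lo (j + 1)) *
      gw (s (j + 1)) (p (j + 1)) (L (j + 1)) (H (j + 1)) (lo (j + 1)) (hi (j + 1))))
    (hb : SubB L H r lo hi) : M lo hi (K * ∏ j ∈ range r, (hi (j + 1) - lo (j + 1)) *
      (gw (s (j + 1)) (p (j + 1)) (L (j + 1)) (H (j + 1)) (lo (j + 1)) (lo (j + 1)) +
        gw (s (j + 1)) (p (j + 1)) (L (j + 1)) (H (j + 1)) (hi (j + 1)) (hi (j + 1))) / 2) := by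
  have e : ∀ j l h, gw (s j) (p j) (L j) (H j) l h =
      gw (s j) (p j) (L j) (H j) (lo j) (hi j) * gw (s j) (p j) (lo j) (hi j) l h := fun j l h => by
    unfold gw
    rw [← Real.exp_add]
    congr 1
    ring
  have z : ∀ n : ℕ, rowD lo hi (fun _ => 0) (fun _ => 0) n [] = [] := fun n => by
    induction n with
    | zero => rfl
    | succ n ih => rw [rowD, if_pos (by simp), ih]
  have := hM.multi (L := lo) (H := hi) (u := fun _ => 0) (v := fun _ => 0) hs hp
    (fun _ => le_rfl) (fun _ => le_rfl) (fun _ => Or.inl rfl) r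
    (K * ∏ j ∈ range r, gw (s (j + 1)) (p (j + 1)) (L (j + 1)) (H (j + 1)) (lo (j + 1)) (hi (j + 1)))
    0 [] (fun j h1 h2 => (hb.1 j h1 h2).2.1)
    (mul_nonneg hK (prod_nonneg fun _ _ => (Real.exp_pos _).le)) (by simp) fun l h' hc => ?_
  · rw [z] at this
    convert this using 1
    simp only [dif, List.length_nil, tp, zero_mul, sub_self, sum_const_zero, le_refl, if_true,
      mul_one, fac, add_zero]
    rw [mul_assoc, ← prod_mul_distrib]
    refine congrArg _ (prod_congr rfl fun j _ => ?_)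
    rw [e (j + 1) (lo (j + 1)) (lo (j + 1)), e (j + 1) (hi (j + 1)) (hi (j + 1))]
    ring
  · have := h l h' ⟨fun j h1 h2 => ⟨(hb.1 j h1 h2).1.trans (hc.1 j h1 h2).1, (hc.1 j h1 h2).2.1,
      (hc.1 j h1 h2).2.2.trans (hb.1 j h1 h2).2.2⟩,
      fun j h1 => ⟨(hc.2 j h1).1.trans (hb.2 j h1).1, (hc.2 j h1).2.trans (hb.2 j h1).2⟩⟩
    convert this using 1
    simp only [dif, List.length_nil, tp, zero_mul, sub_self, sum_const_zero, le_refl, if_true,
      mul_one]
    rw [mul_assoc, ← prod_mul_distrib]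
    refine congrArg _ (prod_congr rfl fun j _ => ?_)
    rw [e (j + 1) (l (j + 1)) (h' (j + 1))]
    ring

end Pool.Agent.MP_c853c5_nt.X

end

section

/-!
Tail bounds for the volume of a box below a hyperplane.
-/

set_option autoImplicit false

namespace Pool.Agent.MP_c853c5_nt.X

variable {f : ℝ → ℝ} {l : List ℝ} {H P W a b : ℝ}

lemma dif_perm {l' : List ℝ} (h : l.Perm l') : dif l f = dif l' f := by
  induction h with
  | nil => rfl
  | cons x _ ih => exact funext fun s => by rw [dif, dif, ih]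
  | swap x y l => exact funext fun s => by simp only [dif, sub_right_comm s x y]; ring
  | trans _ _ h1 h2 => exact h1.trans h2

lemma dif_neg (hl : ∀ x ∈ l, 0 ≤ x) (m : ℕ) : ∀ s ≤ 0, dif l (tp (m + 1)) s = 0 := by
  induction l with
  | nil => exact fun s h => by simp [dif, tp, max_eq_right h]
  | cons x l ih =>
    rw [List.forall_mem_cons] at hl
    exact fun s h => by rw [dif, ih hl.2 _ h, ih hl.2 _ (by linarith [hl.1]), sub_zero]

lemma dif_pos (hl : ∀ x ∈ l, 0 ≤ x) {m : ℕ} (hm : l.length ≤ m + 1) (s : ℝ) :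
    0 ≤ dif l (tp (m + 1)) s :=
  (dif_neg hl m _ (min_le_right s 0)).ge.trans (dif_mono' l hl _ hm (min_le_left _ _))

lemma le_of_der {f' : ℝ → ℝ} (h : ∀ u, HasDerivAt f (f' u) u) (hab : a ≤ b)
    (h0 : ∀ u, a < u → u < b → 0 ≤ f' u) : f a ≤ f b := by
  rcases hab.eq_or_lt with rfl | e
  · rfl
  obtain ⟨c, hc, g⟩ := exists_hasDerivAt_eq_slope f f' e
    (fun z _ => (h z).continuousAt.continuousWithinAt) fun z _ => h z
  have := h0 c hc.1 hc.2
  rw [g, le_div_iff₀ (sub_pos.2 e)] at this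
  linarith

lemma sym2 (l : List ℝ) : ∀ s, dif l (tp (l.length + 2)) s + dif l (tp (l.length + 2)) (l.sum - s) =
    l.prod * ((s - l.sum / 2) ^ 2 / 2 + (l.map fun x => x * x).sum / 24) := by
  induction l with
  | nil =>
    intro s
    simp only [dif, tp, List.length_nil, List.sum_nil, List.prod_nil, List.map_nil, zero_sub]
    rcases le_total s 0 with h | h
    · rw [max_eq_right h, max_eq_left (neg_nonneg.2 h)]
      norm_num [Nat.factorial]
    · rw [max_eq_left h, max_eq_right (neg_nonpos.2 h)]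
      norm_num [Nat.factorial]
  | cons x l ih =>
    have d := dif_deriv (tp_deriv (l.length + 1)) l
    have e : ∀ s, HasDerivAt (fun s => dif l (tp (l.length + 3)) s -
        dif l (tp (l.length + 3)) (l.sum - s) - l.prod * ((s - l.sum / 2) ^ 3 / 6 +
          (l.map fun x => x * x).sum / 24 * (s - l.sum / 2))) 0 s := fun s => by
      have i := (hasDerivAt_id s).sub_const (l.sum / 2)
      refine (((d s).sub ((d (l.sum - s)).comp_const_sub l.sum s)).sub
        ((((i.fun_pow 3).div_const 6).add (i.const_mul _)).const_mul l.prod)).congr_deriv ?_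
      rw [sub_neg_eq_add, ih]
      simp only [id]
      push_cast
      ring
    have c := is_const_of_deriv_eq_zero (fun s => (e s).differentiableAt) fun s => (e s).deriv
    intro s
    have g := c s (s - x)
    simp only [dif, List.length_cons, List.sum_cons, List.prod_cons, List.map_cons]
    rw [show x + l.sum - s = l.sum - (s - x) by ring, show l.sum - (s - x) - x = l.sum - s by ring]
    linear_combination g

lemma sym1 (l : List ℝ) (s : ℝ) : dif l (tp (l.length + 1)) s -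
    dif l (tp (l.length + 1)) (l.sum - s) = l.prod * (s - l.sum / 2) := by
  have d := dif_deriv (tp_deriv l.length) l
  have e := (d s).add ((d (l.sum - s)).comp_const_sub l.sum s)
  have i := (hasDerivAt_id s).sub_const (l.sum / 2)
  have e' := ((((i.fun_pow 2).div_const 2).add_const ((l.map fun x => x * x).sum / 24)).const_mul
    l.prod).congr_of_eventuallyEq (Filter.Eventually.of_forall (sym2 l))
  have := e.unique e'
  simp only [id] at this
  push_cast at this
  linear_combination this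

/-- the volume below the level `s` -/
noncomputable def vb (l : List ℝ) : ℝ → ℝ := dif l (tp l.length)

lemma sym0 (x : ℝ) (l : List ℝ) (s : ℝ) :
    vb (x :: l) s + vb (x :: l) ((x :: l).sum - s) = (x :: l).prod := by
  simp only [vb, dif, List.length_cons, List.sum_cons, List.prod_cons]
  rw [show x + l.sum - s = l.sum - (s - x) by ring, show l.sum - (s - x) - x = l.sum - s by ring]
  linear_combination sym1 l s - sym1 l (s - x)

lemma vb_lip (hl : ∀ x ∈ l, 0 ≤ x) (hW : W = 0 ∨ W ∈ l) (hab : a ≤ b) :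
    W * (vb l b - vb l a) ≤ l.prod * (b - a) := by
  classical
  rcases hW with rfl | hW
  · rw [zero_mul]
    exact mul_nonneg (List.prod_nonneg hl) (sub_nonneg.2 hab)
  have p := List.perm_cons_erase hW
  have m := dif_mono' (l.erase W) (fun x hx => hl x (List.mem_of_mem_erase hx)) _ (Nat.le_succ _)
  rw [vb, dif_perm p, p.length_eq, p.prod_eq, List.prod_cons, mul_assoc]
  refine mul_le_mul_of_nonneg_left ?_ (hl W hW)
  have h1 := m (sub_le_sub_right hab W)
  have h2 := m (sub_le_sub_left hab (l.erase W).sum)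
  simp only [dif, List.length_cons]
  linear_combination h1 + h2 + sym1 (l.erase W) b - sym1 (l.erase W) a

lemma cvx_inc (h : ConvexOn ℝ (Set.Iic H) f) {u v η : ℝ} (h1 : u ≤ v) (h2 : 0 ≤ η)
    (h3 : v + η ≤ H) : f (u + η) + f v ≤ f u + f (v + η) := by
  rcases h2.eq_or_lt with rfl | e
  · simp
  have w : 0 < v + η - u := by linarith
  have m1 : u ∈ Set.Iic H := show u ≤ H by linarith
  have c1 := div_nonneg (sub_nonneg.2 h1) w.le
  have c2 := div_nonneg h2 w.le
  have c3 : (v - u) / (v + η - u) + η / (v + η - u) = 1 := by field_simp; ring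
  have g1 := h.2 m1 h3 c1 c2 c3
  have g2 := h.2 m1 h3 c2 c1 (by rwa [add_comm])
  simp only [smul_eq_mul] at g1 g2
  rw [show (v - u) / (v + η - u) * u + η / (v + η - u) * (v + η) = u + η by field_simp; ring] at g1
  rw [show η / (v + η - u) * u + (v - u) / (v + η - u) * (v + η) = v by field_simp; ring] at g2
  linear_combination g1 + g2 + (f u + f (v + η)) * c3

lemma cvx_sym (h : ConvexOn ℝ (Set.Iic H) f) (hs : ∀ s, f s + f (2 * H - s) = P) {x : ℝ}
    (hx : 0 ≤ x) (hab : a ≤ b) (hb : b ≤ H + x / 2) : f a - f (a - x) ≤ f b - f (b - x) := by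
  rcases le_total b H with c | c
  · have := cvx_inc h (u := a - x) (v := a) (η := b - a) (by linarith) (by linarith) (by linarith)
    rw [show a - x + (b - a) = b - x by ring, add_sub_cancel] at this
    linarith
  rcases le_total H a with d | d
  · have := cvx_inc h (u := a - x) (v := 2 * H - b) (η := b - a) (by linarith) (by linarith)
      (by linarith)
    rw [show a - x + (b - a) = b - x by ring, show 2 * H - b + (b - a) = 2 * H - a by ring] at this
    linarith [hs a, hs b]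
  have g1 := cvx_inc h (u := a - x) (v := a) (η := H - a) (by linarith) (by linarith) (by linarith)
  have g2 := cvx_inc h (u := H - x) (v := 2 * H - b) (η := b - H) (by linarith) (by linarith)
    (by linarith)
  have g3 := hs H
  rw [show a - x + (H - a) = H - x by ring, add_sub_cancel] at g1
  rw [show H - x + (b - H) = b - x by ring, show 2 * H - b + (b - H) = H by ring] at g2
  rw [show 2 * H - H = H by ring] at g3
  linarith [hs b]

lemma vb_cvx (l : List ℝ) : ∀ x, (∀ y ∈ x :: l, 0 ≤ y) →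
    ConvexOn ℝ (Set.Iic ((x :: l).sum / 2)) (vb (x :: l)) := by
  induction l with
  | nil =>
    intro x hx
    have := hx x (by simp)
    refine ((convexOn_id (convex_Iic _)).sup (convexOn_const 0 (convex_Iic _))).congr fun s hs => ?_
    have : s - x ≤ 0 := by simp at hs; linarith
    simp [vb, dif, tp, this]
  | cons y l ih =>
    intro x hx
    rw [List.forall_mem_cons] at hx
    have d := dif_deriv (tp_deriv l.length) (x :: y :: l)
    refine MonotoneOn.convexOn_of_deriv (convex_Iic _)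
      (fun z _ => (d z).continuousAt.continuousWithinAt)
      (fun z _ => (d z).differentiableAt.differentiableWithinAt) fun a _ b hb hab => ?_
    have := interior_subset hb
    refine (d a).deriv.trans_le (le_trans ?_ (d b).deriv.ge)
    exact cvx_sym (ih y hx.2) (fun s => by rw [mul_div_cancel₀ _ two_ne_zero]; exact sym0 y l s)
      hx.1 hab (by simp only [Set.mem_Iic, List.sum_cons] at this ⊢; linarith)

lemma cvx_supp (h : ConvexOn ℝ (Set.Iic H) f) (ha : a < H) :
    ∃ m, ∀ u ≤ H, f a + m * (u - a) ≤ f u := by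
  have k : ∀ v ≤ H, a < v → ∀ z ∈ (fun u => (f a - f u) / (a - u)) '' Set.Iio a,
      z ≤ (f v - f a) / (v - a) := by
    rintro v h1 h2 _ ⟨u, hu, rfl⟩
    exact h.slope_mono_adjacent (hu.le.trans ha.le) h1 hu h2
  refine ⟨sSup ((fun u => (f a - f u) / (a - u)) '' Set.Iio a), fun u hu => ?_⟩
  rcases lt_trichotomy u a with c | rfl | c
  · have := le_csSup ⟨_, k H le_rfl ha⟩ ⟨u, c, rfl⟩
    simp only [div_le_iff₀ (sub_pos.2 c)] at this
    linarith
  · simp
  · have := csSup_le (Set.Nonempty.image _ Set.nonempty_Iio) (k u hu c)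
    rw [le_div_iff₀ (sub_pos.2 c)] at this
    linarith

/-- the inequality of Gauss -/
lemma vb_gauss {x t : ℝ} (hl : ∀ y ∈ x :: l, 0 ≤ y) (ht : 0 < t) :
    54 * t ^ 2 * vb (x :: l) ((x :: l).sum / 2 - t) ≤
      (x :: l).prod * ((x :: l).map fun y => y * y).sum := by
  have g := sym2 (x :: l) ((x :: l).sum / 2)
  rw [show (x :: l).sum - (x :: l).sum / 2 = (x :: l).sum / 2 by ring] at g
  obtain ⟨m, hm⟩ := cvx_supp (vb_cvx l x hl) (sub_lt_self _ ht)
  generalize (x :: l).sum / 2 = H at *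
  generalize vb (x :: l) (H - t) = F at *
  have i := fun c u : ℝ => (hasDerivAt_id u).sub_const c
  have h1 : ∀ u, H - 3 * t / 2 ≤ u → u ≤ H → 0 ≤ dif (x :: l) (tp (l.length + 2)) u -
      (F * (u - (H - 3 * t / 2)) + m * ((u - (H - t)) ^ 2 / 2 - t ^ 2 / 8)) := fun u u1 u2 => by
    have g1 := le_of_der (fun u => (dif_deriv (tp_deriv l.length) (x :: l) u).fun_sub
      (((i (H - 3 * t / 2) u).const_mul F).fun_add (((((i (H - t) u).fun_pow 2).div_const
        2).sub_const (t ^ 2 / 8)).const_mul m))) u1 fun v _ v2 => by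
      have := hm v (v2.le.trans u2)
      simp only [vb, List.length_cons, id] at this ⊢
      push_cast
      linear_combination this
    have g2 := dif_pos hl (m := l.length + 1) (by simp) (H - 3 * t / 2)
    simp only [id] at g1
    linear_combination g1 + g2
  have h2 := le_of_der (fun u => (dif_deriv (tp_deriv (l.length + 1)) (x :: l) u).sub
    ((((((i (H - 3 * t / 2) u).fun_pow 2).div_const 2).const_mul F).add
      (((((i (H - t) u).fun_pow 3).div_const 6).sub ((i (H - t) u).const_mul (t ^ 2 / 8))).const_mul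
        m)))) (show H - 3 * t / 2 ≤ H by linarith) fun v v1 v2 => by
    have := h1 v v1.le v2.le
    simp only [id]
    push_cast
    linear_combination this
  have h3 := dif_pos hl (m := l.length + 2) (by simp) (H - 3 * t / 2)
  simp only [Pi.sub_apply, Pi.add_apply, id, List.length_cons] at h2 g
  linear_combination 48 * h2 + 48 * h3 + 24 * g

lemma tail_gen {z : ℝ} (h : ConvexOn ℝ (Set.Iic H) f) (h0 : ∀ s ≤ 0, f s = 0) (hH : 2 * f H = P)
    (hP : ∀ s, f s ≤ P) (hL : ∀ u v, u ≤ v → W * (f v - f u) ≤ P * (v - u)) (hW : 0 ≤ W)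
    (z0 : 0 < z) (z1 : z ≤ H) (ha : 0 ≤ a) (hb : 0 ≤ b) (h1 : f z ≤ P * (a * z))
    (h2 : 1 ≤ a * (H + W / 2) + b * (H + W / 2 - z)) (s : ℝ) :
    f s ≤ P * (a * max s 0 + b * max (s - z) 0) := by
  have P0 : 0 ≤ P := (h0 0 le_rfl).ge.trans (hP 0)
  have cv : ∀ u v w, u ≤ v → v ≤ w → w ≤ H → f v * (w - u) ≤ f u * (w - v) + f w * (v - u) :=
    fun u v w g1 g2 g3 => by
      rcases g1.eq_or_lt with rfl | e1
      · simp
      rcases g2.eq_or_lt with rfl | e2
      · simp
      have := h.slope_mono_adjacent (x := u) (z := w) (g1.trans (g2.trans g3)) g3 e1 e2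
      rw [div_le_div_iff₀ (sub_pos.2 e1) (sub_pos.2 e2)] at this
      linarith
  rcases le_total s 0 with c | c
  · rw [h0 s c]
    positivity
  rw [max_eq_left c]
  rcases le_total s z with d | d
  · rw [max_eq_right (sub_nonpos.2 d), mul_zero, add_zero]
    have := cv 0 s z c d z1
    rw [h0 0 le_rfl] at this
    refine le_of_mul_le_mul_right ?_ z0
    nlinarith [mul_le_mul_of_nonneg_right h1 c]
  rw [max_eq_left (sub_nonneg.2 d)]
  rcases le_total (H + W / 2) s with e | e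
  · refine (hP s).trans (le_mul_of_one_le_right P0 (h2.trans ?_))
    gcongr
  rcases d.eq_or_lt with rfl | d'
  · simpa using h1
  have k : f s * (H + W / 2 - z) ≤ f z * (H + W / 2 - s) + P * (s - z) := by
    rcases le_total s H with g | g
    · linear_combination cv z s H d g le_rfl + 1 / 2 * hL z s d + (s - z) / 2 * hH
    rcases hW.eq_or_lt with rfl | w
    · rw [show s = H by linarith]
      nlinarith [mul_nonneg P0 (sub_nonneg.2 z1)]
    refine le_of_mul_le_mul_left ?_ w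
    have g1 := mul_le_mul_of_nonneg_right (hL H s g) (show 0 ≤ H + W / 2 - z by linarith)
    have g2 := mul_le_mul_of_nonneg_right (hL z H z1) (sub_nonneg.2 e)
    linear_combination g1 + g2 + W * (s - z) / 2 * hH
  refine le_of_mul_le_mul_right (k.trans ?_) (show 0 < H + W / 2 - z by linarith)
  linear_combination mul_le_mul_of_nonneg_right h1 (sub_nonneg.2 e) +
    mul_le_mul_of_nonneg_left h2 (mul_nonneg P0 (sub_nonneg.2 d))

/-- the bound with two slopes -/
theorem vb_tail {z : ℝ} (hl : ∀ x ∈ l, 0 ≤ x) (hW : W = 0 ∨ W ∈ l) (z0 : 0 < z)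
    (z1 : 2 * z < l.sum) (ha : 0 ≤ a) (hb : 0 ≤ b)
    (h1 : 1 ≤ a * l.sum ∨ 2 * (l.map fun x => x * x).sum ≤ a * (27 * z * (l.sum - 2 * z) ^ 2))
    (h2 : 2 ≤ a * (l.sum + W) + b * (l.sum + W - 2 * z)) (s : ℝ) :
    vb l s ≤ l.prod * (a * max s 0 + b * max (s - z) 0) := by
  obtain _ | ⟨x, l⟩ := l
  · simp at z1
    linarith
  have c := vb_cvx l x hl
  have e0 : ∀ s ≤ 0, vb (x :: l) s = 0 := dif_neg hl _
  have eH : 2 * vb (x :: l) ((x :: l).sum / 2) = (x :: l).prod := by
    have := sym0 x l ((x :: l).sum / 2)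
    rwa [show (x :: l).sum - (x :: l).sum / 2 = (x :: l).sum / 2 by ring, ← two_mul] at this
  have P0 := List.prod_nonneg hl
  refine tail_gen c e0 eH (fun s => ?_) (fun u v => vb_lip hl hW) (hW.elim Eq.ge (hl W)) z0
    (by linarith) ha hb ?_ (by linarith) s
  · linarith [sym0 x l s, show 0 ≤ vb (x :: l) _ from dif_nonneg _ hl ((x :: l).sum - s)]
  rcases h1 with h1 | h1
  · have := c.slope_mono_adjacent (x := 0) (y := z) (z := (x :: l).sum / 2)
      (show (0 : ℝ) ≤ _ by linarith) (Set.mem_Iic.2 le_rfl) z0 (by linarith)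
    rw [e0 0 le_rfl, div_le_div_iff₀ (by linarith) (by linarith)] at this
    refine le_of_mul_le_mul_right ?_ (show 0 < (x :: l).sum by linarith)
    linear_combination 2 * this + z * eH + mul_le_mul_of_nonneg_left h1 (mul_nonneg P0 z0.le)
  · have := vb_gauss hl (t := (x :: l).sum / 2 - z) (by linarith)
    rw [sub_sub_cancel] at this
    refine le_of_mul_le_mul_right ?_ (show 0 < 27 * ((x :: l).sum - 2 * z) ^ 2 by
      have := sub_pos.2 z1
      positivity)
    linear_combination 2 * this + mul_le_mul_of_nonneg_left h1 P0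

end Pool.Agent.MP_c853c5_nt.X

end

section

/-!
The tail of a sum of uniform variables with given sum and maximum of the widths.
-/

set_option autoImplicit false

namespace Pool.Agent.MP_c853c5_nt.X

/-- `(m+1)!` times the volume below the level `z` of the box with widths `W` (`m` times) and `r` -/
def extS (m W r z : ℕ) : ℤ := ∑ j ∈ Finset.range (m + 1),
  (-1) ^ j * (m.choose j : ℤ) * (((z - j * W) ^ (m + 1) : ℕ) - ((z - j * W - r) ^ (m + 1) : ℕ))

def tabU (i : ℕ) : ℕ := min (max (i + 1) 8) 64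

/-- slopes `A / 1024`, `B / 1024`, knot `z / 128` for the largest width in `[i / 64, (i + 1) / 64]` -/
def tabOK (i A B z : ℕ) : Prop := 0 < z ∧ z < 64 ∧
  extS (63 / tabU i) (2 * tabU i) (128 - 2 * (63 / tabU i * tabU i)) z * 131072 ≤
    (((63 / tabU i + 1).factorial * (2 * tabU i) ^ (63 / tabU i) *
      (128 - 2 * (63 / tabU i * tabU i)) * A * z : ℕ) : ℤ) ∧
  262144 ≤ A * (128 + 2 * i) + B * (128 + 2 * i - 2 * z)

instance (i A B z : ℕ) : Decidable (tabOK i A B z) := by unfold tabOK; infer_instance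

section peak

variable {R : List ℝ} {c : ℝ}

/-- the odd part of the first integral -/
noncomputable def prk (R : List ℝ) (c t : ℝ) : ℝ :=
  dif R (tp (R.length + 1)) (c + t) - dif R (tp (R.length + 1)) (c - t)

/-- the even part of the second integral -/
noncomputable def prK (R : List ℝ) (c t : ℝ) : ℝ :=
  dif R (tp (R.length + 2)) (c + t) + dif R (tp (R.length + 2)) (c - t)

lemma pr_even {x : ℝ} (hR : ∀ y ∈ x :: R, 0 ≤ y) (hc : c ≤ (x :: R).sum / 2) {t t' : ℝ}
    (h0 : 0 ≤ t) (h : t ≤ t') :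
    vb (x :: R) (c + t) + vb (x :: R) (c - t) ≤ vb (x :: R) (c + t') + vb (x :: R) (c - t') := by
  have hs : ∀ s, vb (x :: R) s + vb (x :: R) (2 * ((x :: R).sum / 2) - s) = (x :: R).prod :=
    fun s => by rw [mul_div_cancel₀ _ two_ne_zero]; exact sym0 x R s
  have cv := vb_cvx R x hR
  generalize (x :: R).sum / 2 = H at *
  rcases le_total (c + (t + t') / 2) H with e | e
  · have := cvx_sym cv hs (x := t' - t) (a := c - t) (b := c + t') (by linarith) (by linarith)
      (by linarith)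
    rw [show c - t - (t' - t) = c - t' by ring, show c + t' - (t' - t) = c + t by ring] at this
    linarith
  · have := cvx_sym cv hs (x := t' - t) (a := c - t) (b := 2 * H - (c + t)) (by linarith)
      (by linarith) (by linarith)
    rw [show c - t - (t' - t) = c - t' by ring,
      show 2 * H - (c + t) - (t' - t) = 2 * H - (c + t') by ring] at this
    linarith [hs (c + t), hs (c + t')]

lemma prk_mono (hR : ∀ y ∈ R, 0 ≤ y) (hc : c ≤ R.sum / 2) {t t' : ℝ} (h0 : 0 ≤ t) (h : t ≤ t') :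
    prk R c t * t' ≤ prk R c t' * t := by
  obtain _ | ⟨x, R⟩ := R
  · simp only [List.sum_nil, zero_div] at hc
    simp only [prk, dif, List.length_nil, tp, zero_add, pow_one, Nat.factorial_one, Nat.cast_one,
      div_one]
    rw [max_eq_right (show c - t ≤ 0 by linarith), max_eq_right (show c - t' ≤ 0 by linarith),
      sub_zero, sub_zero]
    rcases le_total (c + t) 0 with e | e
    · rw [max_eq_right e, zero_mul]
      positivity
    · rw [max_eq_left e, max_eq_left (by linarith)]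
      nlinarith [mul_nonneg (neg_nonneg.2 hc) (sub_nonneg.2 h)]
  have d := dif_deriv (tp_deriv R.length) (x :: R)
  have dk : ∀ u, HasDerivAt (prk (x :: R) c) (vb (x :: R) (c + u) + vb (x :: R) (c - u)) u :=
    fun u => (((d (c + u)).comp_const_add c u).sub ((d (c - u)).comp_const_sub c u)).congr_deriv
      (sub_neg_eq_add _ _)
  have m := fun (u v : ℝ) => pr_even hR hc (t := u) (t' := v)
  set g := vb (x :: R) (c + t) + vb (x :: R) (c - t)
  have h1 := le_of_der (fun u => ((hasDerivAt_id u).mul_const g).fun_sub (dk u)) h0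
    fun u u0 u1 => by linarith [m u t u0.le u1.le]
  have h2 := le_of_der (fun u => (dk u).fun_sub ((hasDerivAt_id u).mul_const g)) h
    fun u u0 _ => by linarith [m t u h0 u0.le]
  have h3 : prk (x :: R) c 0 = 0 := by simp [prk]
  simp only [id, h3] at h1 h2
  nlinarith [mul_le_mul_of_nonneg_right h2 h0, mul_le_mul_of_nonneg_right h1 (sub_nonneg.2 h)]

lemma pr_tang (hR : ∀ y ∈ R, 0 ≤ y) (hc : c ≤ R.sum / 2) {p : ℝ} (hp : 0 ≤ p) (t : ℝ) :
    (t ^ 2 - p ^ 2) * prk R c p ≤ 2 * p * (prK R c t - prK R c p) := by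
  have d := dif_deriv (tp_deriv R.length) R
  have dK : ∀ u, HasDerivAt (prK R c) (prk R c u) u := fun u =>
    (((d (c + u)).comp_const_add c u).add ((d (c - u)).comp_const_sub c u)).congr_deriv
      (sub_eq_add_neg _ _).symm
  have key : ∀ t, 0 ≤ t → (t ^ 2 - p ^ 2) * prk R c p ≤ 2 * p * (prK R c t - prK R c p) := by
    intro t ht
    rcases le_total t p with e | e
    · have := le_of_der (fun u => (((hasDerivAt_id u).fun_pow 2).mul_const (prk R c p)).fun_sub
        ((dK u).const_mul (2 * p))) e fun u u0 u1 => by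
          have := prk_mono hR hc (ht.trans u0.le) u1.le
          simp only [id]
          push_cast
          linarith
      simp only [id] at this
      linarith
    · have := le_of_der (fun u => ((dK u).const_mul (2 * p)).fun_sub
        (((hasDerivAt_id u).fun_pow 2).mul_const (prk R c p))) e fun u u0 _ => by
          have := prk_mono hR hc hp u0.le
          simp only [id]
          push_cast
          linarith
      simp only [id] at this
      linarith
  rcases le_total 0 t with e | e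
  · exact key t e
  · have := key (-t) (by linarith)
    rwa [neg_sq, show prK R c (-t) = prK R c t by
      simp only [prK, sub_neg_eq_add, ← sub_eq_add_neg, add_comm]] at this

lemma vb_two (x y s : ℝ) : vb (x :: y :: R) s =
    prK R (s - (x + y) / 2) ((x + y) / 2) - prK R (s - (x + y) / 2) ((x - y) / 2) := by
  simp only [vb, prK, dif, List.length_cons]
  rw [show s - (x + y) / 2 + (x + y) / 2 = s by ring,
    show s - (x + y) / 2 - (x + y) / 2 = s - x - y by ring,
    show s - (x + y) / 2 + (x - y) / 2 = s - y by ring,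
    show s - (x + y) / 2 - (x - y) / 2 = s - x by ring]
  ring

lemma pr_merge (hR : ∀ y ∈ R, 0 ≤ y) {x y s : ℝ} (h : 0 ≤ x + y) (hs : s ≤ (x + y + R.sum) / 2) :
    vb (x :: y :: R) s * (x + y) ≤ x * y * vb ((x + y) :: R) s := by
  have := pr_tang hR (c := s - (x + y) / 2) (by linarith) (p := (x + y) / 2) (by linarith)
    ((x - y) / 2)
  have e : vb ((x + y) :: R) s = prk R (s - (x + y) / 2) ((x + y) / 2) := by
    simp only [vb, prk, dif, List.length_cons]
    rw [show s - (x + y) / 2 + (x + y) / 2 = s by ring,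
      show s - (x + y) / 2 - (x + y) / 2 = s - (x + y) by ring]
  rw [vb_two, e]
  linarith

lemma pr_spread (hR : ∀ y ∈ R, 0 ≤ y) {x y V s : ℝ} (hx : x ≤ V) (hy : y ≤ V) (h0 : 0 ≤ V)
    (h : V ≤ x + y) (hs : s ≤ (x + y + R.sum) / 2) :
    vb (x :: y :: R) s * (V * (x + y - V)) ≤ x * y * vb (V :: (x + y - V) :: R) s := by
  rcases (show 0 ≤ V - (x + y) / 2 by linarith).eq_or_lt with e | e
  · obtain rfl : x = V := by linarith
    obtain rfl : y = x := by linarith
    rw [add_sub_cancel_right, mul_comm]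
  have t := pr_tang hR (c := s - (x + y) / 2) (by linarith) e.le
  have t1 := mul_le_mul_of_nonneg_right (t ((x - y) / 2)) (mul_nonneg h0 (sub_nonneg.2 h))
  have t2 := mul_le_mul_of_nonneg_right (t ((x + y) / 2))
    (mul_nonneg (sub_nonneg.2 hx) (sub_nonneg.2 hy))
  rw [vb_two, vb_two, show V + (x + y - V) = x + y by ring,
    show (V - (x + y - V)) / 2 = V - (x + y) / 2 by ring]
  refine le_of_mul_le_mul_left ?_ (show 0 < 2 * (V - (x + y) / 2) by linarith)
  linear_combination t1 + t2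

lemma vb_perm {l l' : List ℝ} (h : l.Perm l') : vb l = vb l' := by
  rw [vb, vb, dif_perm h, h.length_eq]

lemma pr_peak {V r s : ℝ} {m : ℕ} (hr : 0 < r) (hV : r ≤ V) (hs : s ≤ (m * V + r) / 2)
    (l : List ℝ) : ∀ (k : ℕ) (q : ℝ), (∀ y ∈ l, 0 < y ∧ y ≤ V) → 0 < q → q ≤ V →
      l.sum + k * V + q = m * V + r →
      vb (q :: (l ++ List.replicate k V)) s * (r * V ^ m) ≤
        q * (l.prod * V ^ k) * vb (r :: List.replicate m V) s := by
  have V0 : 0 < V := hr.trans_le hV
  induction l with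
  | nil =>
    intro k q _ q0 q1 e
    simp only [List.sum_nil, zero_add] at e
    have h1 : (k : ℝ) < m + 1 := lt_of_mul_lt_mul_right (by linarith) V0.le
    have h2 : (m : ℝ) < k + 1 := lt_of_mul_lt_mul_right (by linarith) V0.le
    obtain rfl : k = m := by
      norm_cast at h1 h2
      omega
    obtain rfl : q = r := by linarith
    simp [mul_comm]
  | cons y l ih =>
    intro k q hl q0 q1 e
    rw [List.forall_mem_cons] at hl
    obtain ⟨⟨y0, y1⟩, hl⟩ := hl
    have hR : ∀ z ∈ l ++ List.replicate k V, 0 ≤ z := fun z hz => by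
      rcases List.mem_append.1 hz with h | h
      · exact (hl z h).1.le
      · exact (List.eq_of_mem_replicate h).ge.trans' V0.le
    rw [List.sum_cons] at e
    have hs' : s ≤ (q + y + (l ++ List.replicate k V).sum) / 2 := by
      simp only [List.sum_append, List.sum_replicate, nsmul_eq_mul]
      linarith
    rw [List.cons_append, List.prod_cons]
    rcases le_or_gt (q + y) V with h | h
    · have g1 := mul_le_mul_of_nonneg_right (pr_merge hR (add_pos q0 y0).le hs')
        (show 0 ≤ r * V ^ m by positivity)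
      have g2 := mul_le_mul_of_nonneg_left (ih k (q + y) hl (add_pos q0 y0) h (by linarith))
        (mul_pos q0 y0).le
      refine le_of_mul_le_mul_right ?_ (add_pos q0 y0)
      linear_combination g1 + g2
    · have g1 := mul_le_mul_of_nonneg_right (pr_spread hR q1 y1 V0.le h.le hs')
        (show 0 ≤ r * V ^ m by positivity)
      have g2 := mul_le_mul_of_nonneg_left (ih (k + 1) (q + y - V) hl (by linarith) (by linarith)
        (by push_cast; linarith)) (mul_pos q0 y0).le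
      rw [show vb (V :: (q + y - V) :: (l ++ List.replicate k V)) =
        vb ((q + y - V) :: (l ++ List.replicate (k + 1) V)) from
          vb_perm ((List.Perm.swap _ _ _).trans (List.perm_middle.symm.cons _))] at g1
      refine le_of_mul_le_mul_right ?_ (mul_pos V0 (sub_pos.2 h))
      linear_combination g1 + g2

lemma dif_rep (f : ℝ → ℝ) (V : ℝ) (m : ℕ) : ∀ s, dif (List.replicate m V) f s =
    ∑ j ∈ Finset.range (m + 1), (m.choose j : ℝ) * ((-1) ^ j * f (s - j * V)) := by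
  induction m with
  | zero => simp [dif]
  | succ m ih =>
    intro s
    rw [List.replicate_succ, dif, ih, ih,
      Finset.sum_choose_succ_mul (fun j _ => (-1) ^ j * f (s - j * V)) m, sub_eq_add_neg,
      ← Finset.sum_neg_distrib]
    congr 1
    refine Finset.sum_congr rfl fun j _ => ?_
    rw [show s - V - j * V = s - ((j + 1 : ℕ) : ℝ) * V by push_cast; ring]
    ring

lemma max_nat {u : ℝ} (hu : 0 ≤ u) (a b : ℕ) : max (a * u - b * u) 0 = ((a - b : ℕ) : ℝ) * u := by
  rcases le_total a b with h | h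
  · rw [Nat.sub_eq_zero_of_le h, max_eq_right (sub_nonpos.2 (by gcongr))]
    simp
  · rw [Nat.cast_sub h, max_eq_left (sub_nonneg.2 (by gcongr)), sub_mul]

lemma vb_ext {u : ℝ} (hu : 0 ≤ u) (m W r z : ℕ) :
    (m + 1).factorial * vb (r * u :: List.replicate m (W * u)) (z * u) =
      extS m W r z * u ^ (m + 1) := by
  simp only [vb, dif, List.length_cons, List.length_replicate, dif_rep, extS, tp]
  push_cast [-Nat.cast_succ]
  rw [← Finset.sum_sub_distrib, Finset.mul_sum, Finset.sum_mul]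
  refine Finset.sum_congr rfl fun j _ => ?_
  have e1 := max_nat hu z (j * W)
  have e2 := max_nat hu z (j * W + r)
  rw [show (z : ℝ) * u - j * (W * u) = z * u - (j * W : ℕ) * u by push_cast; ring, e1,
    show (z : ℝ) * u - r * u - j * (W * u) = z * u - (j * W + r : ℕ) * u by push_cast; ring, e2,
    Nat.sub_sub]
  have : ((m + 1).factorial : ℝ) ≠ 0 := by positivity
  field_simp
  ring

end peak

theorem vb_tab {i A B z : ℕ} (h : tabOK i A B z) {l : List ℝ} (hl : ∀ y ∈ l, 0 ≤ y) {W : ℝ}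
    (hW : W ∈ l) (hu : ∀ y ∈ l, y ≤ W) (h0 : 0 < l.sum) (h1 : i * l.sum ≤ 64 * W)
    (h2 : 64 * W ≤ (i + 1) * l.sum) (s : ℝ) :
    vb l s ≤ l.prod * (A / (1024 * l.sum) * max s 0 +
      B / (1024 * l.sum) * max (s - z * l.sum / 128) 0) := by
  obtain ⟨z0, z1, h3, h4⟩ := h
  have WS : W ≤ l.sum := List.single_le_sum hl W hW
  have hU : 64 * W ≤ tabU i * l.sum := by
    rcases le_total (max (i + 1) 8) 64 with e | e
    · rw [tabU, min_eq_left e]
      refine h2.trans (mul_le_mul_of_nonneg_right ?_ h0.le)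
      exact_mod_cast le_max_left (i + 1) 8
    · rw [tabU, min_eq_right e]
      push_cast
      linarith
  have U0 : 0 < tabU i := by unfold tabU; omega
  generalize tabU i = U at *
  have m1 : 63 / U * U ≤ 63 := Nat.div_mul_le_self _ _
  have m2 : 63 < 63 / U * U + U := Nat.lt_div_mul_add U0
  generalize 63 / U = m at *
  obtain ⟨r, hr⟩ : ∃ r, 128 = 2 * (m * U) + r := Nat.exists_eq_add_of_le (by omega)
  rw [show 128 - 2 * (m * U) = r by omega] at h3
  have r0 : 0 < r := by omega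
  have r1 : (r : ℝ) ≤ (2 * U : ℕ) := by exact_mod_cast (by omega : r ≤ 2 * U)
  have hr' : (128 : ℝ) = 2 * (m * U) + r := by exact_mod_cast hr
  have z2 : (z : ℝ) < 64 := by exact_mod_cast z1
  have h5 : (262144 : ℝ) ≤ A * (128 + 2 * i) + B * (128 + 2 * i - 2 * z) := by
    have : ((128 + 2 * i - 2 * z : ℕ) : ℝ) = 128 + 2 * i - 2 * z := by
      rw [Nat.cast_sub (by omega)]
      push_cast
      rfl
    rw [← this]
    exact_mod_cast h4
  obtain _ | ⟨x, l⟩ := l
  · simp at hW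
  have c := vb_cvx l x hl
  have e0 : ∀ s ≤ 0, vb (x :: l) s = 0 := dif_neg hl _
  have eH : 2 * vb (x :: l) ((x :: l).sum / 2) = (x :: l).prod := by
    have := sym0 x l ((x :: l).sum / 2)
    rwa [show (x :: l).sum - (x :: l).sum / 2 = (x :: l).sum / 2 by ring, ← two_mul] at this
  have eP : ∀ s, vb (x :: l) s ≤ (x :: l).prod := fun s => by
    linarith [sym0 x l s, show 0 ≤ vb (x :: l) _ from dif_nonneg _ hl ((x :: l).sum - s)]
  have P0 := List.prod_nonneg hl
  refine tail_gen c e0 eH eP (fun u v => vb_lip hl (Or.inr hW)) (hl W hW) (by positivity)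
    (by nlinarith) (by positivity) (by positivity) ?_ ?_ s
  · rcases P0.eq_or_lt with e | e
    · exact (eP _).trans (by rw [← e, zero_mul])
    have hp : ∀ y ∈ x :: l, 0 < y := fun y hy => (hl y hy).lt_of_ne fun e' =>
      e.ne' (List.prod_eq_zero (e' ▸ hy))
    obtain ⟨u, hu'⟩ : ∃ u, (x :: l).sum = 128 * u := ⟨(x :: l).sum / 128, by ring⟩
    have u0 : 0 < u := by linarith
    have hV : ∀ y ∈ x :: l, y ≤ (2 * U : ℕ) * u := fun y hy => by
      have := hu y hy
      rw [hu'] at hU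
      push_cast
      linarith
    have eS : (x :: l).sum = m * ((2 * U : ℕ) * u) + r * u := by
      push_cast
      linear_combination u * hr' + hu'
    have g1 := pr_peak (m := m) (s := z * u) (show 0 < r * u by positivity)
      (mul_le_mul_of_nonneg_right r1 u0.le) (by rw [← eS]; nlinarith) l 0 x
      (fun y hy => ⟨hp y (by simp [hy]), hV y (by simp [hy])⟩) (hp x (by simp)) (hV x (by simp))
      (by rw [← eS]; simp [add_comm])
    have g2 := vb_ext u0.le m (2 * U) r z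
    have g3 : (extS m (2 * U) r z : ℝ) * 131072 ≤
        (m + 1).factorial * (2 * U : ℕ) ^ m * r * A * z := by exact_mod_cast h3
    simp only [List.replicate_zero, List.append_nil, pow_zero, mul_one, ← List.prod_cons] at g1
    rw [hu', show A / (1024 * (128 * u)) * (z * (128 * u) / 128) = A * z / 131072 by
      field_simp; ring, show z * (128 * u) / 128 = z * u by ring]
    have f0 : (0 : ℝ) < (m + 1).factorial := by positivity
    refine le_of_mul_le_mul_left ?_ (show 0 < (m + 1).factorial * (r * u * ((2 * U : ℕ) * u) ^ m) by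
      positivity)
    have g4 := mul_le_mul_of_nonneg_left g1 f0.le
    have g5 := mul_le_mul_of_nonneg_left g3 (show 0 ≤ (x :: l).prod * u ^ (m + 1) by positivity)
    rw [mul_pow] at g4 ⊢
    linear_combination g4 + (x :: l).prod * g2 + g5 / 131072
  · generalize (x :: l).sum = S at *
    rw [div_mul_eq_mul_div, div_mul_eq_mul_div, ← add_div, le_div_iff₀ (by positivity)]
    have g1 := mul_le_mul_of_nonneg_left h1 (show (0 : ℝ) ≤ A + B by positivity)
    have g2 := mul_le_mul_of_nonneg_right h5 h0.le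
    linear_combination g1 / 128 + g2 / 256

example : tabOK 20 352 2115 36 := by decide +kernel

end Pool.Agent.MP_c853c5_nt.X

end

section

set_option autoImplicit false

open Finset MeasureTheory
open scoped ComplexConjugate

namespace Pool.Agent.MP_c853c5_nt.W.Id

open Pool.Agent.MP_2a1f0e_nt Pool.Agent.MP_2a1f0e_nt.GM Pool.Agent.MP_2a1f0e_nt.DH

lemma good3 {A0 y1 y2 H' ca cb v1 v2 w1 w2 h' a1 a2 b1 b2 u1 s2 D : ℝ} (π : Fin 4 → ℝ)
    (y : Fin 9 → ℝ) (hA : 0 < A0) (h1 : 0 < y1) (h2 : 0 < y2) (hH : H' ≠ 0)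
    (e1 : a1 * b2 - a2 * b1 = -w1 * D) (e2 : -w1 * u1 = w2 * a1 - b1)
    (e3 : -w1 * s2 = h' * a2 + -v1 * b2) (e4 : h' = v1 * w2 - v2 * w1)
    (p0 : π 0 = ca) (p1 : π 1 = cb) (p2 : π 2 = 1 / A0 ^ 2) (p3 : π 3 = H' * A0 ^ 2 / (y1 * y2))
    (q0 : y 0 = a1 / A0) (q1 : y 1 = a2 / A0) (q2 : y 2 = b1 * A0 / -y2)
    (q3 : y 3 = b2 * A0 / -y2) (q4 : y 4 = D) (q5 : y 5 = u1 / a1 / 1)
    (q6 : y 6 = s2 / b2 / (y1 / y2)) (q8 : y 8 = h' / H') (g0 : 1 / 10 ≤ y 0)
    (g3 : 1 / 10 ≤ y 3) (g4 : 1 / 10 ≤ y 4) (gr : 1 / 10 ≤ w1 / y2) :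
    A3 (π, y) = th (a1 / A0) (a2 / A0) (b1 * A0 / -w1) (b2 * A0 / -w1) * cut y *
      (om (v1 / y1 * ca) * om (v2 / y1 * cb) * om (w1 / y2) * om (w2 / y2)) ∧
    ∀ (L : ℝ → ℝ) (T : ℝ), 1 / 10 ≤ v2 / y1 →
      T * H' / (y1 * y2) * f3 L (π, y) = T * (h' / (v2 * w1) * L (h' / (v2 * w1))) := by
  have hw1 : w1 ≠ 0 := by
    rintro rfl
    norm_num at gr
  have ha1 : a1 ≠ 0 := by
    rintro rfl
    rw [q0] at g0
    norm_num at g0
  have hb2 : b2 ≠ 0 := by
    rintro rfl
    rw [q3] at g3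
    norm_num at g3
  have hD : D ≠ 0 := by
    rw [q4] at g4
    linarith
  have hrh : rh (π, y) = w1 / y2 := by
    simp only [rh]
    rw [iv_eq g4, q0, q1, q2, q3, q4]
    field_simp
    linarith
  have hir : iv (rh (π, y)) = y2 / w1 := by rw [hrh, iv_eq gr, inv_div]
  have hu : u1 = -(w2 * a1 - b1) / w1 := by
    field_simp
    linarith
  have hs : s2 = -(h' * a2 + -v1 * b2) / w1 := by
    field_simp
    linarith
  have hph : ph3 (π, y) = w2 / y2 := by
    simp only [ph3]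
    rw [hrh, iv_eq g0, q0, q2, q5, p2, hu]
    field_simp
    ring
  have hv1 : v13 (π, y) = v1 / y1 := by
    simp only [v13]
    rw [hrh, iv_eq g3, q1, q3, q6, q8, p3, hs]
    field_simp
    ring
  have hv2 : v23 (π, y) = v2 / y1 := by
    simp only [v23]
    rw [hir, hph, hv1, q8, p3, p2, e4]
    field_simp
    ring
  refine ⟨?_, fun L T g => ?_⟩
  · simp only [A3, thA]
    rw [hir, hrh, hph, hv1, hv2, p0, p1, q0, q1, q2, q3]
    congr 3 <;> field_simp
  · have hv : v2 ≠ 0 := by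
      rintro rfl
      norm_num at g
    simp only [f3]
    rw [hir, hv2, iv_eq g, q8, p3, p2]
    have e : h' / H' * (H' * A0 ^ 2 / (y1 * y2)) * (1 / A0 ^ 2) * (v2 / y1)⁻¹ * (y2 / w1) =
        h' / (v2 * w1) := by field_simp
    rw [e]
    field_simp

lemma lift_bd {v c : ℝ} (h : om (v * c) ≠ 0) (h1 : 1 / 2 ≤ c) (h2 : c ≤ 1) :
    1 ≤ v ∧ v ≤ 10 / 3 := by
  obtain ⟨k1, k2⟩ := om_ne h
  have hv : 0 < v := by
    by_contra hh
    have : v * c ≤ 0 := mul_nonpos_of_nonpos_of_nonneg (not_lt.1 hh) (by linarith)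
    linarith
  have a1 := mul_le_mul_of_nonneg_left h1 hv.le
  have a2 := mul_le_mul_of_nonneg_left h2 hv.le
  constructor <;> linarith

lemma abs_mul_bd {a b A B : ℝ} (ha : |a| ≤ A) (hb : |b| ≤ B) : |a * b| ≤ A * B := by
  rw [abs_mul]
  exact mul_le_mul ha hb (abs_nonneg _) ((abs_nonneg _).trans ha)

lemma inv_bd {c m : ℝ} (hm : 0 < m) (h : m ≤ c) : |c⁻¹| ≤ m⁻¹ := by
  rw [abs_of_pos (inv_pos.2 (by linarith))]
  exact inv_anti₀ hm h

lemma alg3 {A0 y1 y2 H' v1 w1 w2 h' a1 a2 b1 b2 u1 s2 D : ℝ} (hA : 0 < A0) (h1 : 0 < y1)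
    (h2 : 0 < y2) (hH : H' ≠ 0) (hw1 : w1 ≠ 0) (ha1 : a1 ≠ 0) (hb2 : b2 ≠ 0)
    (e1 : a1 * b2 - a2 * b1 = -w1 * D) (e2 : -w1 * u1 = w2 * a1 - b1)
    (e3 : -w1 * s2 = h' * a2 + -v1 * b2) :
    b1 * -1 = b1 * A0 / -w1 * (w1 / y2) * (y2 / A0) ∧
    b2 * -1 = b2 * A0 / -w1 * (w1 / y2) * (y2 / A0) ∧
    b1 * A0 / -y2 = b1 * A0 / -w1 * (w1 / y2) ∧ b2 * A0 / -y2 = b2 * A0 / -w1 * (w1 / y2) ∧
    D = a1 / A0 * (b2 * A0 / -w1) - a2 / A0 * (b1 * A0 / -w1) ∧
    u1 / a1 = -(w2 / y2 * (w1 / y2)⁻¹) - b1 * A0 / -w1 * (a1 / A0)⁻¹ * (A0 ^ 2)⁻¹ ∧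
    s2 / b2 / (y1 / y2) = (v1 / y1 + h' / H' * (H' * A0 ^ 2 / (y1 * y2)) * (a2 / A0) *
      (b2 * A0 / -w1 * (w1 / y2))⁻¹) * (w1 / y2)⁻¹ := by
  have hu : u1 = -(w2 * a1 - b1) / w1 := by
    field_simp
    linarith
  have hs : s2 = -(h' * a2 + -v1 * b2) / w1 := by
    field_simp
    linarith
  have hD : D = -(a1 * b2 - a2 * b1) / w1 := by
    field_simp
    linarith
  refine ⟨?_, ?_, ?_, ?_, ?_, ?_, ?_⟩
  · field_simp
  · field_simp
  · field_simp
  · field_simp
  · rw [hD]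
    field_simp
    ring
  · rw [hu]
    field_simp
    ring
  · rw [hs]
    field_simp
    ring

lemma supp3 {A0 y1 y2 H' ca cb v1 v2 w1 w2 h' a1 a2 b1 b2 u1 s2 D : ℝ} (hA : 1 ≤ A0)
    (h1 : 0 < y1) (h2 : 0 < y2) (hH : H' ≠ 0) (hca : 1 / 2 ≤ ca ∧ ca ≤ 1)
    (hcb : 1 / 2 ≤ cb ∧ cb ≤ 1) (hμ : |H'| * A0 ^ 2 / (y1 * y2) ≤ 1 / 100)
    (e1 : a1 * b2 - a2 * b1 = -w1 * D) (e2 : -w1 * u1 = w2 * a1 - b1)
    (e3 : -w1 * s2 = h' * a2 + -v1 * b2)
    (o1 : om (v1 / y1 * ca) ≠ 0) (o2 : om (v2 / y1 * cb) ≠ 0) (o3 : om (w1 / y2) ≠ 0)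
    (o4 : om (w2 / y2) ≠ 0) (o8 : om (h' / H') ≠ 0)
    (ht : th (a1 / A0) (a2 / A0) (b1 * A0 / -w1) (b2 * A0 / -w1) ≠ 0) :
    Cn (A0 / 2) (a1, a2) ∧ Cn (y2 / A0) (b2 * -1, -(b1 * -1)) ∧ (5 / 4 ≤ D ∧ D ≤ 4 / 3) ∧
    |u1 / a1| ≤ 2 ∧ (135 / 256 ≤ s2 / b2 / (y1 / y2) ∧ s2 / b2 / (y1 / y2) ≤ 1024 / 243) ∧
    (|a1 / A0| ≤ 10 ∧ |a2 / A0| ≤ 10 ∧ |b1 * A0 / -y2| ≤ 10 ∧ |b2 * A0 / -y2| ≤ 10) ∧
    1 / 10 ≤ a1 / A0 ∧ 1 / 10 ≤ b2 * A0 / -y2 ∧ 1 / 10 ≤ v2 / y1 ∧
    |h' / (v2 * w1)| ≤ 1 / 2 := by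
  have hA0 : 0 < A0 := by linarith
  obtain ⟨t1, t2, t3, t4⟩ := th_ne ht
  obtain ⟨r1, r2⟩ := om_ne o3
  obtain ⟨f1, f2⟩ := om_ne o4
  obtain ⟨n1, n2⟩ := om_ne o8
  obtain ⟨l1, l2⟩ := lift_bd o1 hca.1 hca.2
  obtain ⟨l3, l4⟩ := lift_bd o2 hcb.1 hcb.2
  have hw1 : w1 ≠ 0 := by
    rintro rfl
    norm_num at r1
  have hv2 : v2 ≠ 0 := by
    rintro rfl
    norm_num at l3
  have ha1 : a1 ≠ 0 := by
    rintro rfl
    norm_num at t1
  have hb2 : b2 ≠ 0 := by
    rintro rfl
    norm_num at t4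
  obtain ⟨eb1, eb2, ey2, ey3, eD, e5, e6⟩ := alg3 hA0 h1 h2 hH hw1 ha1 hb2 e1 e2 e3
  have hD := det_bd t1 t2 t3 t4
  rw [← eD] at hD
  obtain ⟨t1a, t1b⟩ := abs_lt.1 t1
  obtain ⟨t4a, t4b⟩ := abs_lt.1 t4
  have m1 : 127 / 100 * 1 ≤ b2 * A0 / -w1 * (w1 / y2) :=
    mul_le_mul (by linarith) r1.le (by norm_num) (by linarith)
  have m2 : b2 * A0 / -w1 * (w1 / y2) ≤ 129 / 100 * (5 / 3) :=
    mul_le_mul (by linarith) r2.le (by linarith) (by norm_num)
  have m3 := abs_mul_bd t3.le (show |w1 / y2| ≤ 5 / 3 from abs_le.2 ⟨by linarith, r2.le⟩)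
  have hπ : |H' * A0 ^ 2 / (y1 * y2)| ≤ 1 / 100 := by
    rwa [abs_div, abs_mul, abs_of_pos (pow_pos hA0 2), abs_of_pos (mul_pos h1 h2)]
  have n3 : |h' / H'| ≤ 5 / 3 := abs_le.2 ⟨by linarith, n2.le⟩
  have i1 := inv_bd one_pos r1.le
  have i2 := inv_bd one_pos (one_le_pow₀ (n := 2) hA)
  have s1 := abs_le.1 (abs_mul_bd (show |w2 / y2| ≤ 5 / 3 from abs_le.2 ⟨by linarith, f2.le⟩) i1)
  have s2' := abs_le.1 (abs_mul_bd (abs_mul_bd t3.le
    (inv_bd (m := 1 / 2) (c := a1 / A0) (by norm_num) (by linarith))) i2)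
  have s3 := abs_le.1 (abs_mul_bd (abs_mul_bd (abs_mul_bd n3 hπ) t2.le)
    (inv_bd (m := 1) (c := b2 * A0 / -w1 * (w1 / y2)) one_pos (by linarith)))
  have j1 : (w1 / y2)⁻¹ ≤ 1 := inv_le_one_of_one_le₀ r1.le
  have j2 : 3 / 5 ≤ (w1 / y2)⁻¹ := by
    rw [le_inv_comm₀ (by norm_num) (by linarith)]
    linarith
  have c1 := cn_of (c := 1 / 2) (u := a1 / A0) (v := a2 / A0) hA0 (by linarith) (by linarith)
    (by linarith)
  have c2 := cn_of (c := 1) (u := b2 * A0 / -w1 * (w1 / y2)) (v := -(b1 * A0 / -w1 * (w1 / y2)))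
    (div_pos h2 hA0) (by linarith) (by linarith) (by rw [abs_neg]; linarith)
  rw [div_mul_cancel₀ _ hA0.ne', div_mul_cancel₀ _ hA0.ne', one_div_mul_eq_div] at c1
  rw [neg_mul, ← eb1, ← eb2, one_mul] at c2
  have ez : h' / (v2 * w1) =
      h' / H' * (H' * A0 ^ 2 / (y1 * y2)) * (A0 ^ 2)⁻¹ * (v2 / y1)⁻¹ * (w1 / y2)⁻¹ := by
    field_simp
  have s4 := abs_mul_bd (abs_mul_bd (abs_mul_bd (abs_mul_bd n3 hπ) i2) (inv_bd one_pos l3)) i1
  have u1' : 99 / 100 ≤ v1 / y1 + h' / H' * (H' * A0 ^ 2 / (y1 * y2)) * (a2 / A0) *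
      (b2 * A0 / -w1 * (w1 / y2))⁻¹ := by linarith [s3.1]
  have u2' : v1 / y1 + h' / H' * (H' * A0 ^ 2 / (y1 * y2)) * (a2 / A0) *
      (b2 * A0 / -w1 * (w1 / y2))⁻¹ ≤ 4 := by linarith [s3.2]
  have u3' := mul_le_mul u1' j2 (by norm_num) (by linarith)
  have u4' := mul_le_mul u2' j1 (by linarith) (by norm_num)
  refine ⟨c1, c2, hD, ?_, ⟨by rw [e6]; linarith, by rw [e6]; linarith⟩,
    ⟨?_, by linarith, by rw [ey2]; linarith, ?_⟩, by linarith,
    by rw [ey3]; linarith, by linarith, by rw [ez]; refine s4.trans (by norm_num)⟩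
  · rw [e5, abs_le]
    constructor <;> linarith [s1.1, s1.2, s2'.1, s2'.2]
  · rw [abs_le]
    constructor <;> linarith
  · rw [ey3, abs_le]
    constructor <;> linarith

lemma back3 {A0 y2 w1 a1 a2 b1 b2 D : ℝ} (hA : 0 < A0) (h2 : 0 < y2)
    (e1 : a1 * b2 - a2 * b1 = -w1 * D) (hc : Cn (y2 / A0) (b2 * -1, -(b1 * -1))) (oD : om D ≠ 0)
    (t1 : |a1 / A0 - 1| < 1 / 100) (t2 : |a2 / A0| < 1 / 100) :
    1 / 10 ≤ a1 / A0 ∧ 1 / 10 ≤ b2 * A0 / -y2 ∧ 1 / 10 ≤ D ∧ 1 / 10 ≤ w1 / y2 := by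
  obtain ⟨c1, -, c3⟩ := hc
  simp only at c1 c3
  have hD := om_ne oD
  have hq : 0 < A0 / y2 := div_pos hA h2
  have ey3 : b2 * A0 / -y2 = b2 * -1 * (A0 / y2) := by field_simp
  have ey2 : b1 * A0 / -y2 = b1 * -1 * (A0 / y2) := by field_simp
  have k3 : 1 ≤ b2 * A0 / -y2 := by
    rw [ey3]
    have := mul_le_mul_of_nonneg_right c1 hq.le
    rwa [show y2 / A0 * (A0 / y2) = 1 by field_simp] at this
  have k4 : |b1 * A0 / -y2| ≤ b2 * A0 / -y2 := by
    rw [abs_neg] at c3
    rw [ey2, ey3, abs_mul, abs_of_pos hq]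
    exact mul_le_mul_of_nonneg_right c3 hq.le
  have er : w1 / y2 * D = a1 / A0 * (b2 * A0 / -y2) - a2 / A0 * (b1 * A0 / -y2) := by
    field_simp
    linarith
  have k7 := back_num t1 t2 k3 one_pos k4 hD er
  exact ⟨by linarith [(abs_lt.1 t1).1], by linarith, by linarith [hD.1], by linarith⟩

end Pool.Agent.MP_c853c5_nt.W.Id

end

section

set_option autoImplicit false

open Finset MeasureTheory
open scoped ComplexConjugate

namespace Pool.Agent.MP_c853c5_nt.W

open Pool.Agent.MP_2a1f0e_nt Pool.Agent.MP_2a1f0e_nt.GM Pool.Agent.MP_2a1f0e_nt.DH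

open _root_.Pool.Agent.MP_c853c5_nt.W.Id

lemma ratio_Id3 {N a : ℕ} (hN : 1 ≤ N) (ha : a ∈ Icc N (2 * N)) :
    1 / 2 ≤ (N : ℝ) / a ∧ (N : ℝ) / a ≤ 1 := by
  obtain ⟨h1, h2⟩ := Finset.mem_Icc.1 ha
  have h3 : (N : ℝ) ≤ a := by exact_mod_cast h1
  have h4 : (a : ℝ) ≤ 2 * N := by exact_mod_cast h2
  have h5 : (1 : ℝ) ≤ N := by exact_mod_cast hN
  have h6 : (0 : ℝ) < a := by linarith
  rw [le_div_iff₀ h6, div_le_one h6]
  exact ⟨by linarith, h3⟩

theorem id3_stmt : Id3Stmt := by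
  intro L T y A₀ H' y₁ y₂ N a b e f z hL hy hA hH hN ha hb he hf hy1 hy2 hμ hz
  have hA0 : 0 < A₀ := by linarith
  have hca := ratio_Id3 hN ha
  have hcb := ratio_Id3 hN hb
  have hN0 : (0 : ℝ) < N := by exact_mod_cast hN
  have he0 : (0 : ℝ) < e := by exact_mod_cast he
  have hf0 : (0 : ℝ) < f := by exact_mod_cast hf
  have ha0 : (0 : ℝ) < a := by
    have := (Finset.mem_Icc.1 ha).1
    exact_mod_cast (by omega : 0 < a)
  have hb0 : (0 : ℝ) < b := by
    have := (Finset.mem_Icc.1 hb).1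
    exact_mod_cast (by omega : 0 < b)
  have h1 : 0 < y₁ := by rw [hy1]; positivity
  have h2 : 0 < y₂ := by rw [hy2]; positivity
  have hr : (rI z : ℝ) = -(z.2.2.1 : ℝ) := by
    simp only [rI, om2, hz.1]
    push_cast
    ring
  have hs : (sI z : ℝ) = -(z.2.1.1 : ℝ) := by
    simp only [sI, om2, hz.1]
    push_cast
    ring
  have eG : GT T y a b e f H' z = iC (hh z.1 = 1) * (iC (Prim z.2.1) * iC (Prim z.2.2)) *
      ((om ((z.2.1.1 : ℝ) / y₁ * (N / a)) * om ((z.2.1.2 : ℝ) / y₁ * (N / b)) *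
        om ((z.2.2.1 : ℝ) / y₂) * om ((z.2.2.2 : ℝ) / y₂) * om ((hh z.2 : ℝ) / H') : ℝ) : ℂ) *
      wh (T * Real.log (((z.2.1.1 : ℝ) * z.2.2.2) / ((z.2.1.2 : ℝ) * z.2.2.1))) := by
    have a1 : (z.2.1.1 : ℝ) / y₁ * (N / a) = e * z.2.1.1 / (a * y) := by
      rw [hy1]
      field_simp
    have a2 : (z.2.1.2 : ℝ) / y₁ * (N / b) = e * z.2.1.2 / (b * y) := by
      rw [hy1]
      field_simp
    have a3 : (z.2.2.1 : ℝ) / y₂ = f * z.2.2.1 / y := by
      rw [hy2]
      field_simp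
    have a4 : (z.2.2.2 : ℝ) / y₂ = f * z.2.2.2 / y := by
      rw [hy2]
      field_simp
    rw [a1, a2, a3, a4, GT, Gw, iC_and]
    push_cast
    ring
  constructor
  · intro h h0
    rw [eG] at h
    have h3 := Complex.ofReal_ne_zero.1 (right_ne_zero_of_mul (left_ne_zero_of_mul h))
    have h4 := right_ne_zero_of_mul (left_ne_zero_of_mul (left_ne_zero_of_mul h3))
    have h5 : (z.2.2.1 : ℝ) = 0 := by
      rw [h0] at hr
      simpa using hr
    rw [h5, zero_div] at h4
    exact h4 (om_eq_zero (Or.inl zero_le_one))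
  intro x
  have hω : -y₂ ≠ 0 := by linarith
  have hσ : sg (-y₂) = -1 := by
    rcases sg_cases hω with h | h
    · linarith [h.2]
    · exact h.1
  set Y := yv A₀ (-y₂) 1 (y₁ / y₂) 1 H' z x with hY
  set π := pi3 N a b A₀ y₁ y₂ H' with hπ
  have eR : ∑ j ∈ Ico (-3 : ℤ) 5,
      (kL A₀ 0 z.1 x * conj (k2 (y₂ / A₀) A₀ (-y₂) (y₁ / y₂) 0 H' j 0 z.2 x)) *
      ((A3 (π, Y) : ℂ) * wh (T * H' / (y₁ * y₂) * f3 L (π, Y))) =
      iC (SupL (A₀ / 2) z.1 x) * (iC (Prim z.2.1) * iC (Prim z.2.2)) *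
      (iC (Cn (y₂ / A₀) ((vx z.2.2 x).2 * -1, -((vx z.2.2 x).1 * -1))) *
        ((om (dt x) * (om ((hh z.2 : ℝ) / H') * A3 (π, Y)) : ℝ) : ℂ)) *
      ((om (dt x) * ∑ j ∈ Ico (-3 : ℤ) 5, om (tr z.2 x / (y₁ / y₂) / (4 / 3) ^ j) : ℝ) : ℂ) *
      wh (T * H' / (y₁ * y₂) * f3 L (π, Y)) := by
    push_cast
    simp only [Finset.mul_sum, Finset.sum_mul]
    refine Finset.sum_congr rfl fun j _ => ?_
    rw [k2_zero _ _ _ _ _ hω, hσ, E_zero, Complex.conj_ofReal]
    simp only [kL, Pi.zero_apply, zero_mul, add_zero, zero_div, ex_zero]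
    ring
  rw [eR, eG]
  by_cases hh1 : hh z.1 = 1
  swap
  · rw [iC_neg hh1, iC_neg (p := SupL (A₀ / 2) z.1 x) fun h => hh1 h.1]
    simp only [zero_mul]
  have hu : z.1.1 = (1, 0) := by
    have e1 : hh z.1 = z.1.1.1 := by simp [hh, om2, hz.1]
    have e2 := hz.2
    rw [← e1, hh1] at e2
    refine Prod.ext (by rw [← e1, hh1]) ?_
    have : |(1 : ℤ)| = 1 := rfl
    simp only
    omega
  have hp : (pI z : ℝ) = (z.2.2.2 : ℝ) := by
    simp only [pI, om2, hu]
    push_cast
    ring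
  have e1 := rel1 z x
  have e2 := rel2 z x
  have e3 := rel3 z x
  have e4 : (hh z.2 : ℝ) = (z.2.1.1 : ℝ) * z.2.2.2 - (z.2.1.2 : ℝ) * z.2.2.1 := by
    simp only [hh, om2]
    push_cast
    ring
  rw [hr] at e1 e2 e3
  rw [hp, hh1, Int.cast_one, one_mul] at e2
  rw [hs] at e3
  have G := fun g0 g3 g4 gr => good3 (ca := (N : ℝ) / a) (cb := (N : ℝ) / b) π Y hA0 h1 h2 hH
    e1 e2 e3 e4 rfl rfl rfl rfl rfl rfl rfl rfl rfl rfl rfl rfl g0 g3 g4 gr
  unfold th0
  rw [hr]
  by_cases hS : om ((z.2.1.1 : ℝ) / y₁ * (N / a)) ≠ 0 ∧ om ((z.2.1.2 : ℝ) / y₁ * (N / b)) ≠ 0 ∧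
      om ((z.2.2.1 : ℝ) / y₂) ≠ 0 ∧ om ((z.2.2.2 : ℝ) / y₂) ≠ 0 ∧ om ((hh z.2 : ℝ) / H') ≠ 0 ∧
      th ((vx z.1.2 x).1 / A₀) ((vx z.1.2 x).2 / A₀) ((vx z.2.2 x).1 * A₀ / -(z.2.2.1 : ℝ))
        ((vx z.2.2 x).2 * A₀ / -(z.2.2.1 : ℝ)) ≠ 0
  · obtain ⟨o1, o2, o3, o4, o8, ht⟩ := hS
    obtain ⟨c1, c2, c3, c5, c6, ⟨b0, b1, b2, b3⟩, g0, g3, gv, gz⟩ :=
      supp3 hA h1 h2 hH hca hcb hμ e1 e2 e3 o1 o2 o3 o4 o8 ht
    have q3 := om_ne o3
    have q8 := om_ne o8
    obtain ⟨a3, a4⟩ := G g0 g3 (le_trans (by norm_num) c3.1) (by linarith [q3.1])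
    have hcut : cut Y = 1 := by
      refine cut_one fun i => ?_
      fin_cases i
      · exact b0
      · exact b1
      · exact b2
      · exact b3
      · exact ab10 (le_trans (by norm_num) c3.1) (c3.2.trans (by norm_num))
      · show |tt z.1 x / 1| ≤ 10
        rw [div_one]
        exact c5.trans (by norm_num)
      · exact ab10 (le_trans (by norm_num) c6.1) (c6.2.trans (by norm_num))
      · show |(hh z.1 : ℝ) / 1| ≤ 10
        rw [hh1]
        norm_num
      · exact ab10 (le_trans (by norm_num) q8.1.le) (q8.2.le.trans (by norm_num))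
    have hSL : SupL (A₀ / 2) z.1 x := by
      refine ⟨hh1, ?_, by rw [hh1]; norm_num, c1, le_trans (by norm_num) c3.1,
        c3.2.trans (by norm_num), by rw [abs_one, mul_one]; exact c5, by rw [hh1]; norm_num,
        by rw [hh1]; norm_num⟩
      rw [hz.1]
      rfl
    have hv2 : (z.2.1.2 : ℝ) ≠ 0 := by
      intro h0
      rw [h0] at gv
      norm_num at gv
    have hw1 : (z.2.2.1 : ℝ) ≠ 0 := by
      intro h0
      rw [h0] at q3
      norm_num at q3
    have hlog : Real.log (((z.2.1.1 : ℝ) * z.2.2.2) / ((z.2.1.2 : ℝ) * z.2.2.1)) =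
        (hh z.2 : ℝ) / ((z.2.1.2 : ℝ) * z.2.2.1) *
          L ((hh z.2 : ℝ) / ((z.2.1.2 : ℝ) * z.2.2.1)) := by
      rw [← hL.2 _ gz]
      congr 1
      rw [e4]
      field_simp
      ring
    have s6 := eight c6.1 c6.2
    rw [iC_pos hh1, iC_pos hSL, iC_pos c2, a4 L T gv, hlog, a3, hcut, om_one c3.1 c3.2]
    unfold tr
    rw [s6]
    push_cast
    ring
  · have hL0 : ((om ((z.2.1.1 : ℝ) / y₁ * (N / a)) * om ((z.2.1.2 : ℝ) / y₁ * (N / b)) *
        om ((z.2.2.1 : ℝ) / y₂) * om ((z.2.2.2 : ℝ) / y₂) * om ((hh z.2 : ℝ) / H') : ℝ) : ℂ) *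
        (th ((vx z.1.2 x).1 / A₀) ((vx z.1.2 x).2 / A₀) ((vx z.2.2 x).1 * A₀ / -(z.2.2.1 : ℝ))
          ((vx z.2.2 x).2 * A₀ / -(z.2.2.1 : ℝ)) : ℂ) = 0 := by
      by_contra h
      simp only [mul_eq_zero, not_or, Complex.ofReal_eq_zero] at h
      exact hS ⟨h.1.1.1.1.1, h.1.1.1.1.2, h.1.1.1.2, h.1.1.2, h.1.2, h.2⟩
    have hR0 : iC (Cn (y₂ / A₀) ((vx z.2.2 x).2 * -1, -((vx z.2.2 x).1 * -1))) *
        ((om (dt x) * (om ((hh z.2 : ℝ) / H') * A3 (π, Y)) : ℝ) : ℂ) = 0 := by
      by_contra h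
      have hc2 := iC_ne (left_ne_zero_of_mul h)
      have h3 := Complex.ofReal_ne_zero.1 (right_ne_zero_of_mul h)
      have oD := left_ne_zero_of_mul h3
      have o8 := left_ne_zero_of_mul (right_ne_zero_of_mul h3)
      have hA3 := right_ne_zero_of_mul (right_ne_zero_of_mul h3)
      have ht : thA (π, Y) ≠ 0 := left_ne_zero_of_mul hA3
      obtain ⟨t1, t2, -⟩ := th_ne (left_ne_zero_of_mul ht)
      obtain ⟨g0, g3, g4, gr⟩ := back3 hA0 h2 e1 hc2 oD t1 t2
      obtain ⟨a3, -⟩ := G g0 g3 g4 gr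
      rw [a3] at hA3
      simp only [ne_eq, mul_eq_zero, not_or] at hA3
      exact hS ⟨hA3.2.1.1.1, hA3.2.1.1.2, hA3.2.1.2, hA3.2.2, o8, hA3.1.1⟩
    rw [hR0, mul_zero, zero_mul, zero_mul, mul_right_comm _ (wh _), mul_assoc (iC _ * _), hL0,
      mul_zero, zero_mul]

end Pool.Agent.MP_c853c5_nt.W

end
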