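import Pool.Agent.MP_c853c5_nt.Z.PDefs
import Mathlib
import Pool.Agent.MP_c853c5_nt.S.Basic
import Pool.Agent.Mg.C853.G342b30

section

/-!
The sum of reciprocals of the primes in an interval.
-/

set_option autoImplicit false

open Finset Filter

namespace Pool.Agent.MP_c853c5_nt.Z

/-- the sum of `1 / p` over the primes `y < p ≤ z` -/
noncomputable def rcp (y z : ℝ) : ℝ := ∑ p ∈ (Ioc ⌊y⌋₊ ⌊z⌋₊).filter Nat.Prime, 1 / (p : ℝ)

def MertStmt : Prop := ∀ ε : ℝ, 0 < ε → ∃ y₀ : ℝ, 2 ≤ y₀ ∧ ∀ y z : ℝ, y₀ ≤ y → y ≤ z →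
  |rcp y z - Real.log (Real.log z / Real.log y)| ≤ ε

lemma step_PMert {n : ℝ} (hn : 3 ≤ n) :
    |1 / (n + 1) / Real.log (n + 1) - (Real.log (Real.log (n + 1)) - Real.log (Real.log n))| ≤
      3 * (1 / n - 1 / (n + 1)) := by
  have n0 : 0 < n := by linarith
  have l1 : 1 ≤ Real.log n := by
    rw [Real.le_log_iff_exp_le n0]
    linarith [Real.exp_one_lt_d9]
  obtain ⟨a, ha⟩ : ∃ a, a = Real.log n := ⟨_, rfl⟩
  obtain ⟨c, hc⟩ : ∃ c, c = Real.log (n + 1) := ⟨_, rfl⟩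
  have d1 : c - a ≤ 1 / n := by
    rw [ha, hc, ← Real.log_div (by linarith) n0.ne']
    refine (Real.log_le_sub_one_of_pos (by positivity)).trans_eq ?_
    field_simp
    ring
  have d2 : 1 / (n + 1) ≤ c - a := by
    have := Real.log_le_sub_one_of_pos (show 0 < n / (n + 1) by positivity)
    rw [Real.log_div n0.ne' (by linarith), ← ha, ← hc] at this
    have e : n / (n + 1) - 1 = -(1 / (n + 1)) := by
      field_simp
      ring
    linarith
  rw [← ha] at l1
  rw [← ha, ← hc]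
  have p1 : 0 < 1 / (n + 1) := by positivity
  have a0 : 0 < a := by linarith
  have c1 : a ≤ c := by linarith
  have c0 : 0 < c := by linarith
  have u1 : Real.log c - Real.log a ≤ (c - a) / a := by
    rw [← Real.log_div c0.ne' a0.ne']
    refine (Real.log_le_sub_one_of_pos (by positivity)).trans_eq ?_
    field_simp
  have u2 : (c - a) / c ≤ Real.log c - Real.log a := by
    have := Real.log_le_sub_one_of_pos (show 0 < a / c by positivity)
    rw [Real.log_div a0.ne' c0.ne'] at this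
    have e : a / c - 1 = -((c - a) / c) := by
      field_simp
      ring
    linarith
  have u3 : 1 / (n + 1) / c ≤ (c - a) / c := div_le_div_of_nonneg_right d2 c0.le
  have u4 : (c - a) / a ≤ 1 / n / a := div_le_div_of_nonneg_right d1 a0.le
  have e1 : 1 / n - 1 / (n + 1) = 1 / n * (1 / (n + 1)) := by
    field_simp
    ring
  have u5 : 1 / n / a - 1 / (n + 1) / a ≤ 1 / n - 1 / (n + 1) := by
    rw [← sub_div]
    exact div_le_self (by rw [e1]; positivity) l1
  have u6 : 1 / (n + 1) / a - 1 / (n + 1) / c ≤ 1 / n - 1 / (n + 1) := by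
    have e2 : 1 / (n + 1) / a - 1 / (n + 1) / c = (c - a) / (a * c) * (1 / (n + 1)) := by
      field_simp
    rw [e1, e2]
    refine mul_le_mul_of_nonneg_right (le_trans (div_le_self (by linarith) ?_) d1) p1.le
    exact one_le_mul_of_one_le_of_one_le l1 (by linarith)
  have u7 : 0 ≤ 1 / n - 1 / (n + 1) := by rw [e1]; positivity
  rw [abs_le]
  constructor <;> linarith

lemma sum_PMert {N : ℕ} (hN : 3 ≤ N) (M : ℕ) (hM : N ≤ M) :
    |∑ n ∈ Ioc N M, 1 / (n : ℝ) / Real.log n - (Real.log (Real.log M) - Real.log (Real.log N))| ≤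
      3 * (1 / (N : ℝ) - 1 / M) := by
  induction M, hM using Nat.le_induction with
  | base => simp
  | succ M hM ih =>
    rw [sum_Ioc_succ_top hM]
    have h := step_PMert (n := M) (by exact_mod_cast hN.trans hM)
    push_cast
    rw [abs_le] at ih h ⊢
    constructor <;> linarith [ih.1, ih.2, h.1, h.2]

lemma sav_PMert : ∀ᶠ N : ℕ in atTop, sav N ≤ 1 / Real.log N ^ 2 := by
  have h1 : Tendsto (fun N : ℕ => Real.log N ^ (1 / 50 : ℝ)) atTop atTop :=
    (tendsto_rpow_atTop (by norm_num)).comp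
      (Real.tendsto_log_atTop.comp tendsto_natCast_atTop_atTop)
  have h2 := (Real.tendsto_pow_mul_exp_neg_atTop_nhds_zero 100).comp h1
  filter_upwards [h2.eventually (gt_mem_nhds one_pos), eventually_ge_atTop 2] with N h hN
  have l0 : 0 < Real.log N := Real.log_pos (by exact_mod_cast hN)
  have e : (Real.log N ^ (1 / 50 : ℝ)) ^ 100 = Real.log N ^ 2 := by
    rw [← Real.rpow_mul_natCast l0.le, ← Real.rpow_natCast]
    norm_num
  simp only [Function.comp, e] at h
  rw [le_div_iff₀ (by positivity), mul_comm]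
  exact h.le

lemma dyad_PMert (h : PnStmt) : ∃ N₀ : ℕ, 3 ≤ N₀ ∧ ∀ j N M : ℕ, N₀ ≤ N → N ≤ M → M ≤ 2 ^ j * N →
    |∑ p ∈ (Ioc N M).filter Nat.Prime, 1 / (p : ℝ) - ∑ n ∈ Ioc N M, 1 / (n : ℝ) / Real.log n| ≤
      6 / Real.log N := by
  obtain ⟨N₁, h⟩ := h
  obtain ⟨N₂, h2⟩ := eventually_atTop.1 sav_PMert
  refine ⟨max 3 (max N₁ N₂), le_max_left _ _, fun j => ?_⟩
  have one : ∀ N M : ℕ, max 3 (max N₁ N₂) ≤ N → N ≤ M → M ≤ 2 * N →
      |∑ p ∈ (Ioc N M).filter Nat.Prime, 1 / (p : ℝ) -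
        ∑ n ∈ Ioc N M, 1 / (n : ℝ) / Real.log n| ≤ 2 / Real.log N ^ 2 := by
    intro N M hN hM hM'
    have n3 : 3 ≤ N := (le_max_left _ _).trans hN
    have n0 : (0 : ℝ) < N := by exact_mod_cast (by omega : 0 < N)
    refine (h N M (fun n => 1 / (n : ℝ)) ((le_max_left _ _).trans ((le_max_right _ _).trans hN))
      hM hM' fun L hL => ⟨by positivity, ?_⟩).trans ?_
    · have : (0 : ℝ) < L := by exact_mod_cast (by omega : 0 < L)
      push_cast
      exact one_div_le_one_div_of_le this (by linarith)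
    · have := h2 N ((le_max_right _ _).trans ((le_max_right _ _).trans hN))
      calc 2 * (1 / (N : ℝ)) * (N * sav N) = 2 * sav N := by field_simp
        _ ≤ 2 * (1 / Real.log N ^ 2) := by linarith
        _ = _ := by ring
  have lg : ∀ N : ℕ, max 3 (max N₁ N₂) ≤ N → 1 ≤ Real.log N := fun N hN => by
    have n3 : (3 : ℝ) ≤ N := by exact_mod_cast (le_max_left _ _).trans hN
    rw [Real.le_log_iff_exp_le (by linarith)]
    linarith [Real.exp_one_lt_d9]
  have small : ∀ N M : ℕ, max 3 (max N₁ N₂) ≤ N → N ≤ M → M ≤ 2 * N →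
      |∑ p ∈ (Ioc N M).filter Nat.Prime, 1 / (p : ℝ) -
        ∑ n ∈ Ioc N M, 1 / (n : ℝ) / Real.log n| ≤ 6 / Real.log N := by
    intro N M hN hM hM'
    refine (one N M hN hM hM').trans ?_
    have := lg N hN
    rw [div_le_div_iff₀ (by positivity) (by positivity)]
    nlinarith
  induction j with
  | zero => exact fun N M hN hM hM' => small N M hN hM (by omega)
  | succ j ih =>
    intro N M hN hM hM'
    rcases le_total M (2 * N) with h1 | h1
    · exact small N M hN hM h1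
    have a1 := one N (2 * N) hN (by omega) le_rfl
    have a2 := ih (2 * N) M (by omega) h1 (by rw [pow_succ] at hM'; linarith)
    have l1 := lg N hN
    have n0 : (0 : ℝ) < N := by exact_mod_cast (by omega : 0 < N)
    have e : Real.log ((2 * N : ℕ) : ℝ) = Real.log 2 + Real.log N := by
      push_cast
      rw [Real.log_mul two_ne_zero n0.ne']
    rw [e] at a2
    have a3 : 2 / Real.log N ^ 2 + 6 / (Real.log 2 + Real.log N) ≤ 6 / Real.log N := by
      have b1 := Real.log_two_gt_d9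
      have b2 := Real.log_two_lt_d9
      rw [div_add_div _ _ (by positivity) (by positivity),
        div_le_div_iff₀ (by positivity) (by positivity)]
      have b3 : 0 ≤ Real.log N * (Real.log N * (6 * Real.log 2 - 2) - 2 * Real.log 2) :=
        mul_nonneg (by linarith) (by nlinarith)
      nlinarith
    rw [sum_filter, ← sum_Ioc_consecutive _ (by omega : N ≤ 2 * N) h1,
      ← sum_Ioc_consecutive _ (by omega : N ≤ 2 * N) h1, ← sum_filter, ← sum_filter]
    rw [abs_le] at a1 a2 ⊢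
    constructor <;> linarith [a1.1, a1.2, a2.1, a2.2]

lemma floor_PMert {y : ℝ} (hy : 3 ≤ y) :
    0 ≤ Real.log (Real.log y) - Real.log (Real.log (⌊y⌋₊ : ℝ)) ∧
      Real.log (Real.log y) - Real.log (Real.log (⌊y⌋₊ : ℝ)) ≤ 1 / Real.log (⌊y⌋₊ : ℝ) := by
  have n3 : (3 : ℝ) ≤ ⌊y⌋₊ := by exact_mod_cast Nat.le_floor (n := 3) (by exact_mod_cast hy)
  have h1 : (⌊y⌋₊ : ℝ) ≤ y := Nat.floor_le (by linarith)
  have h2 : y < ⌊y⌋₊ + 1 := Nat.lt_floor_add_one y
  have l0 : 0 < Real.log (⌊y⌋₊ : ℝ) := Real.log_pos (by linarith)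
  have l1 : Real.log (⌊y⌋₊ : ℝ) ≤ Real.log y := Real.log_le_log (by linarith) h1
  have l2 : Real.log y - Real.log (⌊y⌋₊ : ℝ) ≤ 1 := by
    rw [← Real.log_div (by linarith) (by linarith)]
    refine (Real.log_le_sub_one_of_pos (div_pos (by linarith) (by linarith))).trans ?_
    rw [sub_le_iff_le_add, div_le_iff₀ (by linarith)]
    linarith
  refine ⟨sub_nonneg.2 (Real.log_le_log l0 l1), ?_⟩
  rw [← Real.log_div (by linarith) l0.ne']
  refine (Real.log_le_sub_one_of_pos (div_pos (by linarith) l0)).trans ?_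
  rw [sub_le_iff_le_add, div_add_one l0.ne']
  exact div_le_div_of_nonneg_right (by linarith) l0.le

theorem pMert (h : PnStmt) : MertStmt := by
  obtain ⟨N₀, h3, h⟩ := dyad_PMert h
  intro ε hε
  refine ⟨N₀ + Real.exp (10 / ε) + 1, ?_, fun y z hy hz => ?_⟩
  · have : (3 : ℝ) ≤ N₀ := by exact_mod_cast h3
    linarith [Real.exp_pos (10 / ε)]
  have e0 := Real.exp_pos (10 / ε)
  have n3 : (3 : ℝ) ≤ N₀ := by exact_mod_cast h3
  have hN : N₀ ≤ ⌊y⌋₊ := Nat.le_floor (by linarith)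
  have hM : ⌊y⌋₊ ≤ ⌊z⌋₊ := Nat.floor_mono hz
  have a1 := h ⌊z⌋₊ _ _ hN hM ((Nat.lt_two_pow_self.le).trans
    (Nat.le_mul_of_pos_right _ (by omega)))
  have a2 := sum_PMert (h3.trans hN) _ hM
  obtain ⟨a3, a4⟩ := floor_PMert (y := y) (by linarith)
  obtain ⟨a5, a6⟩ := floor_PMert (y := z) (by linarith)
  have f1 : Real.exp (10 / ε) ≤ (⌊y⌋₊ : ℝ) := by linarith [Nat.lt_floor_add_one y]
  have f0 : (0 : ℝ) < (⌊y⌋₊ : ℝ) := by linarith
  have f2 : (⌊y⌋₊ : ℝ) ≤ (⌊z⌋₊ : ℝ) := by exact_mod_cast hM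
  have l1 : 10 / ε ≤ Real.log (⌊y⌋₊ : ℝ) := (Real.le_log_iff_exp_le f0).2 f1
  have l0 : 0 < Real.log (⌊y⌋₊ : ℝ) := lt_of_lt_of_le (by positivity) l1
  have l2 : 1 / Real.log (⌊y⌋₊ : ℝ) ≤ ε / 10 := by
    rw [div_le_iff₀ hε] at l1
    rw [div_le_iff₀ l0]
    linarith
  have l3 : 1 / Real.log (⌊z⌋₊ : ℝ) ≤ 1 / Real.log (⌊y⌋₊ : ℝ) :=
    one_div_le_one_div_of_le l0 (Real.log_le_log f0 f2)
  have l4 : 1 / (⌊y⌋₊ : ℝ) ≤ 1 / Real.log (⌊y⌋₊ : ℝ) :=
    one_div_le_one_div_of_le l0 ((Real.log_le_sub_one_of_pos f0).trans (by linarith))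
  have l5 : 0 ≤ 1 / (⌊z⌋₊ : ℝ) := by positivity
  have l6 : 6 / Real.log (⌊y⌋₊ : ℝ) = 6 * (1 / Real.log (⌊y⌋₊ : ℝ)) := by ring
  rw [rcp, Real.log_div (Real.log_pos (by linarith)).ne' (Real.log_pos (by linarith)).ne']
  rw [abs_le] at a1 a2 ⊢
  constructor <;> linarith [a1.1, a1.2, a2.1, a2.2]

end Pool.Agent.MP_c853c5_nt.Z

end

section

/-!
Upper bounds for the long smoothed sums.
-/

set_option autoImplicit false

open Finset Filter

namespace Pool.Agent.MP_c853c5_nt.L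

open Pool.Agent.MP_c853c5_nt.Z

/-- the smoothed sum of width `D` around `x` -/
noncomputable def SS (x D : ℝ) (f : ℕ → ℝ) : ℝ :=
  ∑ n ∈ Ioc ⌊x / 2⌋₊ ⌊2 * x⌋₊, f n * gg D (Real.log x - Real.log n)

/-- the long width -/
noncomputable def DB (x : ℝ) : ℝ := x ^ (-(1 / 1000) : ℝ)

/-- families of arithmetic functions -/
abbrev Fam : Type := ℝ → ArithmeticFunction ℝ

/-- the local density of `g` at `Y ∈ [x ^ a, x ^ b]` is at most `w / log x` -/
def Dens (g : Fam) (a b w : ℝ) : Prop := ∀ ε : ℝ, 0 < ε → ∀ᶠ x : ℝ in atTop, ∀ Y : ℝ,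
  x ^ a ≤ Y → Y ≤ x ^ b → SS Y (DB x) (g x) ≤ (w + ε) * (Y / Real.log x)

/-- the logarithmic mass of `f` is at most `μ` -/
def LM (f : Fam) (μ : ℝ) : Prop := ∀ ε : ℝ, 0 < ε → ∀ᶠ x : ℝ in atTop, ∀ X : ℕ,
  ∑ m ∈ Icc 1 X, f x m / m ≤ μ + ε

/-- `f` is nonnegative -/
def Pos (f : Fam) : Prop := ∀ᶠ x : ℝ in atTop, ∀ m, 0 ≤ f x m

/-- `f` is supported in `[x ^ a, x ^ b]` -/
def Sup (f : Fam) (a b : ℝ) : Prop := ∀ᶠ x : ℝ in atTop, ∀ m : ℕ, f x m ≠ 0 →
  x ^ a ≤ (m : ℝ) ∧ (m : ℝ) ≤ x ^ b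

/-- the indicator function of the primes -/
noncomputable def prm : ArithmeticFunction ℝ :=
  ⟨fun n => if n.Prime then 1 else 0, by simp [Nat.not_prime_zero]⟩

def ConvStmt : Prop := ∀ (x D : ℝ) (f g : ArithmeticFunction ℝ), 0 < x →
  SS x D ⇑(f * g) = ∑ m ∈ Icc 1 ⌊2 * x⌋₊, f m * SS (x / m) D g

def DConvStmt : Prop := ∀ (f g : Fam) (lo hi a b μ w : ℝ), 0 ≤ μ → 0 ≤ w → Pos f → Sup f lo hi →
  LM f μ → Dens g (a - hi) (b - lo) w → Dens (fun x => f x * g x) a b (μ * w)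

def LMulStmt : Prop := ∀ (f g : Fam) (μ ν : ℝ), 0 ≤ μ → 0 ≤ ν → Pos f → Pos g → LM f μ →
  LM g ν → LM (fun x => f x * g x) (μ * ν)

/-- primes above `x ^ c` -/
def DPrimeStmt : Prop := ∀ (g : Fam) (a b c : ℝ), 1 / 200 ≤ c →
  (∀ᶠ x : ℝ in atTop, ∀ n : ℕ, x ^ a / 2 < (n : ℝ) → (n : ℝ) ≤ 2 * x ^ b →
    g x n ≤ if n.Prime ∧ x ^ c ≤ (n : ℝ) then 1 else 0) →
  Dens g a b (1 / max a c)

/-- primes between `x ^ a` and `x ^ b` -/
def LPrimeStmt : Prop := ∀ (f : Fam) (a b : ℝ), 0 < a → a ≤ b →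
  (∀ᶠ x : ℝ in atTop, ∀ n : ℕ,
    f x n ≤ if n.Prime ∧ x ^ a < (n : ℝ) ∧ (n : ℝ) ≤ x ^ b then 1 else 0) →
  LM f (Real.log (b / a))

/-- the logarithmic mass from the density of a majorant -/
def LDensStmt : Prop := ∀ (f g : Fam) (a b a' b' w : ℝ), a' < a → a ≤ b → b < b' → 0 ≤ w →
  Pos g → (∀ᶠ x : ℝ in atTop, ∀ n, f x n ≤ g x n) → Sup f a b → Dens g a' b' w →
  LM f (w * (b - a))

/-- the long sum over primes -/
def LongStmt : Prop := ∀ ε : ℝ, 0 < ε → ∀ᶠ x : ℝ in atTop,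
  (1 - ε) * (x / Real.log x) ≤ SS x (DB x) prm

/-- from the short sum to a prime -/
def FinStmt : Prop := ∀ t c θ : ℝ, 0 < t → t < 1 → 0 < c → 1 - t < θ →
  (∀ᶠ x : ℝ in atTop, c * (x / Real.log x) ≤ SS x (x ^ (-t)) prm) →
  ∀ᶠ y : ℝ in atTop, ∃ p : ℕ, p.Prime ∧ y < p ∧ (p : ℝ) < y + y ^ θ

lemma gg_nonneg {D : ℝ} (h : 0 ≤ D) (z : ℝ) : 0 ≤ gg D z := by
  unfold gg
  positivity

lemma DB_pos {x : ℝ} (hx : 0 < x) : 0 < DB x := Real.rpow_pos_of_pos hx _

lemma mem_win {x : ℝ} (hx : 0 ≤ x) {n : ℕ} :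
    n ∈ Ioc ⌊x / 2⌋₊ ⌊2 * x⌋₊ ↔ x / 2 < (n : ℝ) ∧ (n : ℝ) ≤ 2 * x := by
  rw [mem_Ioc, Nat.floor_lt (by positivity), Nat.le_floor_iff (by positivity)]

lemma SS_mono {x D : ℝ} (hx : 0 ≤ x) (hD : 0 ≤ D) {f g : ℕ → ℝ}
    (h : ∀ n : ℕ, x / 2 < (n : ℝ) → (n : ℝ) ≤ 2 * x → f n ≤ g n) : SS x D f ≤ SS x D g :=
  sum_le_sum fun n hn => mul_le_mul_of_nonneg_right
    (h n ((mem_win hx).1 hn).1 ((mem_win hx).1 hn).2) (gg_nonneg hD _)

lemma SS_add (x D : ℝ) (f g : ℕ → ℝ) : SS x D (fun n => f n + g n) = SS x D f + SS x D g := by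
  simp only [SS, add_mul, sum_add_distrib]

lemma SS_zero (x D : ℝ) : SS x D (fun _ => 0) = 0 := by simp [SS]

lemma ev_pos : ∀ᶠ x : ℝ in atTop, 1 < x := eventually_gt_atTop 1

/-- monotonicity in the function -/
lemma Dens.mono {f g : Fam} {a b w : ℝ} (h : Dens g a b w)
    (hf : ∀ᶠ x : ℝ in atTop, ∀ n : ℕ, x ^ a / 2 < (n : ℝ) → (n : ℝ) ≤ 2 * x ^ b → f x n ≤ g x n) :
    Dens f a b w := fun ε hε => by
  filter_upwards [h ε hε, hf, ev_pos] with x h1 h2 hx Y ha hb
  have x0 : 0 < x := by linarith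
  have y0 : 0 < Y := (Real.rpow_pos_of_pos x0 a).trans_le ha
  exact (SS_mono y0.le (DB_pos x0).le fun n h3 h4 => h2 n (by linarith) (by linarith)).trans
    (h1 Y ha hb)

/-- monotonicity in the range and the bound -/
lemma Dens.weak {g : Fam} {a b w a' b' w' : ℝ} (h : Dens g a b w) (ha : a ≤ a') (hb : b' ≤ b)
    (hw : w ≤ w') : Dens g a' b' w' := fun ε hε => by
  filter_upwards [h ε hε, ev_pos] with x h1 hx Y h2 h3
  have y0 : 0 < Y := (Real.rpow_pos_of_pos (by linarith) a').trans_le h2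
  refine (h1 Y ((Real.rpow_le_rpow_of_exponent_le hx.le ha).trans h2)
    (h3.trans (Real.rpow_le_rpow_of_exponent_le hx.le hb))).trans ?_
  exact mul_le_mul_of_nonneg_right (by linarith) (div_nonneg y0.le (Real.log_pos hx).le)

lemma Dens.union {g : Fam} {a b c w : ℝ} (h : Dens g a b w) (h' : Dens g b c w) :
    Dens g a c w := fun ε hε => by
  filter_upwards [h ε hε, h' ε hε] with x h1 h2 Y h3 h4
  exact (le_total Y (x ^ b)).elim (h1 Y h3) fun h5 => h2 Y h5 h4

lemma Dens.add {f g : Fam} {a b v w : ℝ} (h : Dens f a b v) (h' : Dens g a b w) :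
    Dens (fun x => f x + g x) a b (v + w) := fun ε hε => by
  filter_upwards [h (ε / 2) (by linarith), h' (ε / 2) (by linarith)] with x h1 h2 Y h3 h4
  have e : SS Y (DB x) ⇑(f x + g x) = SS Y (DB x) (f x) + SS Y (DB x) (g x) := SS_add _ _ _ _
  rw [e]
  linarith [h1 Y h3 h4, h2 Y h3 h4]

lemma Dens.zero {g : Fam} {a b : ℝ}
    (h : ∀ᶠ x : ℝ in atTop, ∀ n : ℕ, x ^ a / 2 < (n : ℝ) → (n : ℝ) ≤ 2 * x ^ b → g x n ≤ 0) :
    Dens g a b 0 := fun ε hε => by
  filter_upwards [h, ev_pos] with x h2 hx Y ha hb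
  have x0 : 0 < x := by linarith
  have y0 : 0 < Y := (Real.rpow_pos_of_pos x0 a).trans_le ha
  refine ((SS_mono (g := fun _ => 0) y0.le (DB_pos x0).le fun n h3 h4 =>
    h2 n (by linarith) (by linarith)).trans_eq (SS_zero _ _)).trans ?_
  exact mul_nonneg (by linarith) (div_nonneg y0.le (Real.log_pos hx).le)

/-- an empty range -/
lemma Dens.empty (g : Fam) {a b : ℝ} (h : b < a) (w : ℝ) : Dens g a b w := fun _ _ => by
  filter_upwards [ev_pos] with x hx Y ha hb
  exact absurd (ha.trans hb) (Real.rpow_lt_rpow_of_exponent_lt hx h).not_ge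

lemma LM.mono {f g : Fam} {μ ν : ℝ} (h : LM g μ) (hf : ∀ᶠ x : ℝ in atTop, ∀ n, f x n ≤ g x n)
    (hμ : μ ≤ ν) : LM f ν := fun ε hε => by
  filter_upwards [h ε hε, hf] with x h1 h2 X
  exact (sum_le_sum fun n _ => div_le_div_of_nonneg_right (h2 n) (Nat.cast_nonneg n)).trans
    ((h1 X).trans (by linarith))

lemma LM.add {f g : Fam} {μ ν : ℝ} (h : LM f μ) (h' : LM g ν) :
    LM (fun x => f x + g x) (μ + ν) := fun ε hε => by
  filter_upwards [h (ε / 2) (by linarith), h' (ε / 2) (by linarith)] with x h1 h2 X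
  simp only [ArithmeticFunction.add_apply, add_div, sum_add_distrib]
  linarith [h1 X, h2 X]

lemma LM.one : LM (fun _ => 1) 1 := fun ε hε => Eventually.of_forall fun x X => by
  have : ∑ m ∈ Icc 1 X, (1 : ArithmeticFunction ℝ) m / (m : ℝ) ≤ 1 := by
    simp only [ArithmeticFunction.one_apply, ite_div, zero_div, sum_ite_eq']
    split_ifs <;> simp
  linarith

lemma Pos.mul {f g : Fam} (h : Pos f) (h' : Pos g) : Pos fun x => f x * g x := by
  filter_upwards [h, h'] with x h1 h2 m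
  rw [ArithmeticFunction.mul_apply]
  exact sum_nonneg fun p _ => mul_nonneg (h1 _) (h2 _)

lemma Pos.one : Pos fun _ => 1 := Eventually.of_forall fun _ m => by
  rw [ArithmeticFunction.one_apply]
  split_ifs <;> norm_num

lemma Sup.one : Sup (fun _ => 1) 0 0 := Eventually.of_forall fun x m hm => by
  rw [ArithmeticFunction.one_apply] at hm
  split_ifs at hm with h
  · simp [h]
  · exact absurd rfl hm

lemma Sup.mul {f g : Fam} {a b c d : ℝ} (h : Sup f a b) (h' : Sup g c d) :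
    Sup (fun x => f x * g x) (a + c) (b + d) := by
  filter_upwards [h, h', ev_pos] with x h1 h2 hx m hm
  have x0 : 0 < x := by linarith
  rw [ArithmeticFunction.mul_apply] at hm
  obtain ⟨p, hp, hne⟩ := exists_ne_zero_of_sum_ne_zero hm
  obtain ⟨a1, a2⟩ := h1 _ (left_ne_zero_of_mul hne)
  obtain ⟨a3, a4⟩ := h2 _ (right_ne_zero_of_mul hne)
  rw [← (Nat.mem_divisorsAntidiagonal.1 hp).1, Nat.cast_mul, Real.rpow_add x0, Real.rpow_add x0]
  exact ⟨mul_le_mul a1 a3 (by positivity) (by positivity),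
    mul_le_mul a2 a4 (by positivity) (by positivity)⟩

lemma Sup.weak {f : Fam} {a b a' b' : ℝ} (h : Sup f a b) (ha : a' ≤ a) (hb : b ≤ b') :
    Sup f a' b' := by
  filter_upwards [h, ev_pos] with x h1 hx m hm
  exact ⟨(Real.rpow_le_rpow_of_exponent_le hx.le ha).trans (h1 m hm).1,
    (h1 m hm).2.trans (Real.rpow_le_rpow_of_exponent_le hx.le hb)⟩

end Pool.Agent.MP_c853c5_nt.L

end

section

/-!
A majorant of the function of Buchstab and its primitive.
-/

set_option autoImplicit false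

namespace Pool.Agent.MP_c853c5_nt.L

/-- the limiting constant -/
noncomputable def cc : ℝ := 709 / 1250

/-- the decreasing majorant -/
noncomputable def qq (s : ℝ) : ℝ := max cc (1 / max s 1)

/-- the primitive of the majorant that vanishes at `1` -/
noncomputable def Om (s : ℝ) : ℝ := qq s * s - 1 - Real.log (qq s)

lemma cc_pos : 0 < cc := by unfold cc; norm_num

lemma cc_le_one : cc ≤ 1 := by unfold cc; norm_num

lemma cc_log : -Real.log cc ≤ cc := by
  rw [← Real.log_inv, Real.log_le_iff_le_exp (inv_pos.2 cc_pos)]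
  refine le_trans ?_ (Real.sum_le_exp_of_nonneg cc_pos.le 6)
  simp only [Finset.sum_range_succ, Finset.sum_range_zero, Nat.factorial, cc]
  norm_num

lemma cc_le_qq (s : ℝ) : cc ≤ qq s := le_max_left _ _

lemma qq_pos (s : ℝ) : 0 < qq s := cc_pos.trans_le (cc_le_qq s)

lemma qq_le_one (s : ℝ) : qq s ≤ 1 :=
  max_le cc_le_one (div_le_one_of_le₀ (le_max_right _ _) (zero_le_one.trans (le_max_right _ _)))

lemma qq_anti {s t : ℝ} (h : s ≤ t) : qq t ≤ qq s :=
  max_le_max le_rfl (one_div_le_one_div_of_le (zero_lt_one.trans_le (le_max_right _ _))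
    (max_le_max h le_rfl))

lemma inv_le_qq {s : ℝ} (h : 1 ≤ s) : 1 / s ≤ qq s := by
  rw [qq, max_eq_left h]
  exact le_max_right _ _

lemma qq_of_le {s : ℝ} (h : s ≤ 1) : qq s = 1 := by
  rw [qq, max_eq_right h, div_one, max_eq_right cc_le_one]

/-- tangent lines -/
lemma Om_le (s : ℝ) {q : ℝ} (h1 : cc ≤ q) (h2 : q ≤ 1) : Om s ≤ q * s - 1 - Real.log q := by
  have q0 := cc_pos.trans_le h1
  rcases le_total s 1 with h | h
  · rw [Om, qq_of_le h, Real.log_one]
    have := Real.log_le_sub_one_of_pos q0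
    nlinarith [mul_nonneg (sub_nonneg.2 h) (sub_nonneg.2 h2)]
  have s0 : 0 < s := by linarith
  rcases le_total cc (1 / s) with h3 | h3
  · have e : qq s = 1 / s := by rw [qq, max_eq_left h, max_eq_right h3]
    have := Real.log_le_sub_one_of_pos (mul_pos q0 s0)
    rw [Real.log_mul q0.ne' s0.ne'] at this
    rw [Om, e, one_div, Real.log_inv, inv_mul_cancel₀ s0.ne']
    linarith
  · have e : qq s = cc := by rw [qq, max_eq_left h, max_eq_left h3]
    have a1 := Real.log_le_sub_one_of_pos (div_pos q0 cc_pos)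
    rw [Real.log_div q0.ne' cc_pos.ne'] at a1
    rw [div_le_iff₀ s0] at h3
    have a2 : q / cc - 1 ≤ (q - cc) * s := by
      rw [div_sub_one cc_pos.ne', div_le_iff₀ cc_pos, mul_assoc]
      exact le_mul_of_one_le_right (by linarith) (by linarith)
    rw [Om, e]
    linarith

lemma Om_sub_ge (s t : ℝ) : qq s * (s - t) ≤ Om s - Om t := by
  have := Om_le t (cc_le_qq s) (qq_le_one s)
  rw [Om, mul_sub]
  linarith

lemma Om_mono {s t : ℝ} (h : t ≤ s) : Om t ≤ Om s := by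
  linarith [Om_sub_ge s t, mul_nonneg (qq_pos s).le (sub_nonneg.2 h)]

lemma Om_sub_le (s t : ℝ) : Om s - Om t ≤ qq t * (s - t) := by
  linarith [Om_sub_ge t s]

lemma Om_lip {s t d : ℝ} (hd : 0 ≤ d) (h : s - d ≤ t) : Om s - d ≤ Om t := by
  have h1 := Om_sub_le s (s - d)
  have h2 := Om_mono h
  have h3 := mul_le_of_le_one_left hd (qq_le_one (s - d))
  rw [sub_sub_cancel] at h1
  linarith

lemma Om_one : Om 1 = 0 := by
  rw [Om, qq_of_le le_rfl]
  simp

lemma Om_step (u : ℝ) : 1 + Om (u - 1) ≤ cc * u := by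
  linarith [Om_le (u - 1) le_rfl cc_le_one, cc_log]

lemma log_le_Om {s : ℝ} (h : 0 < s) : Real.log s ≤ Om s := by
  have := Real.log_le_sub_one_of_pos (mul_pos (qq_pos s) h)
  rw [Real.log_mul (qq_pos s).ne' h.ne'] at this
  rw [Om]
  linarith

end Pool.Agent.MP_c853c5_nt.L

end

section

/-!
The density of numbers with a restricted least prime factor.
-/

set_option autoImplicit false

open Finset Filter

namespace Pool.Agent.MP_c853c5_nt.L

open Pool.Agent.MP_c853c5_nt.S (Rough Blk bf)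

open Classical in
/-- the indicator function of a set of integers above one -/
noncomputable def ind (P : ℕ → Prop) : ArithmeticFunction ℝ :=
  ⟨fun n => if 1 < n ∧ P n then 1 else 0, by simp⟩

lemma ind_pos {P : ℕ → Prop} {n : ℕ} (h : 1 < n) (h' : P n) : ind P n = 1 := if_pos ⟨h, h'⟩

lemma ind_nonneg (P : ℕ → Prop) (n : ℕ) : 0 ≤ ind P n := by
  simp only [ind, ArithmeticFunction.coe_mk]
  split_ifs <;> norm_num

lemma ind_le {P : ℕ → Prop} {n : ℕ} {y : ℝ} (h0 : 0 ≤ y) (h : 1 < n → P n → 1 ≤ y) :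
    ind P n ≤ y := by
  simp only [ind, ArithmeticFunction.coe_mk]
  split_ifs with h1
  exacts [h h1.1 h1.2, h0]

/-- rough numbers -/
noncomputable def RR (a : ℝ) : Fam := fun x => ind (Rough x a)

/-- size in `(x ^ l, x ^ h]`, least prime factor in `(x ^ a, x ^ b]` -/
noncomputable def MM (l h a b : ℝ) : Fam := fun x =>
  ind fun n => (x ^ l < (n : ℝ) ∧ (n : ℝ) ≤ x ^ h) ∧ Rough x a n ∧ ¬ Rough x b n

/-- the same, composite -/
noncomputable def CC (a b : ℝ) : Fam := fun x =>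
  ind fun n => ¬ n.Prime ∧ Rough x a n ∧ ¬ Rough x b n

/-- primes -/
noncomputable def PB (a b : ℝ) : Fam := fun x =>
  ind fun n => n.Prime ∧ x ^ a < (n : ℝ) ∧ (n : ℝ) ≤ x ^ b

lemma ev_two {a b : ℝ} (h : a < b) : ∀ᶠ x : ℝ in atTop, 2 * x ^ a < x ^ b := by
  filter_upwards [(tendsto_rpow_atTop (sub_pos.2 h)).eventually_gt_atTop 2, ev_pos] with x h1 hx
  have x0 : 0 < x := by linarith
  have e : x ^ b = x ^ (b - a) * x ^ a := by rw [← Real.rpow_add x0, sub_add_cancel]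
  rw [e]
  exact mul_lt_mul_of_pos_right h1 (Real.rpow_pos_of_pos x0 a)

lemma minFac_le {x b : ℝ} {n : ℕ} (h : ¬ Rough x b n) : (n.minFac : ℝ) ≤ x ^ b := by
  unfold Rough at h
  push Not at h
  obtain ⟨p, h1, h2, h3⟩ := h
  exact le_trans (by exact_mod_cast Nat.minFac_le_of_dvd h1.two_le h2) h3

lemma CC_le (x a b : ℝ) (n : ℕ) : CC a b x n ≤ (PB a b x * RR a x) n := by
  rw [ArithmeticFunction.mul_apply]
  have h0 : ∀ p ∈ n.divisorsAntidiagonal, 0 ≤ PB a b x p.1 * RR a x p.2 := fun p _ =>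
    mul_nonneg (ind_nonneg _ _) (ind_nonneg _ _)
  refine ind_le (sum_nonneg h0) fun h1 ⟨h2, h3, h4⟩ => ?_
  have hp := Nat.minFac_prime h1.ne'
  obtain ⟨k, hk⟩ := Nat.minFac_dvd n
  have k1 : 1 < k := by
    rcases k with _ | _ | k
    · omega
    · exact absurd (by rw [hk, zero_add, mul_one]; exact hp) h2
    · omega
  refine le_trans (le_of_eq ?_) (single_le_sum h0 (a := (n.minFac, k))
    (Nat.mem_divisorsAntidiagonal.2 ⟨hk.symm, by omega⟩))
  rw [PB, RR, ind_pos hp.one_lt ⟨hp, h3 _ hp (Nat.minFac_dvd n), minFac_le h4⟩,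
    ind_pos k1 fun p h5 h6 => h3 p h5 (hk ▸ h6.mul_left _), one_mul]

lemma CC_split (x a b c : ℝ) (n : ℕ) : CC a c x n ≤ (CC a b x + CC b c x) n := by
  rw [ArithmeticFunction.add_apply]
  refine ind_le (add_nonneg (ind_nonneg _ _) (ind_nonneg _ _)) fun h1 ⟨h2, h3, h4⟩ => ?_
  by_cases h : Rough x b n
  · exact le_add_of_nonneg_of_le (ind_nonneg _ _) (ind_pos h1 ⟨h2, h, h4⟩).ge
  · exact le_add_of_le_of_nonneg (ind_pos h1 ⟨h2, h3, h⟩).ge (ind_nonneg _ _)

lemma sq_lt {x a : ℝ} (hx : 0 < x) {n : ℕ} (h1 : 1 < n) (h2 : ¬ n.Prime) (h3 : Rough x a n) :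
    x ^ (2 * a) < n := by
  have a1 := h3 _ (Nat.minFac_prime h1.ne') (Nat.minFac_dvd n)
  have a2 : ((n.minFac : ℕ) : ℝ) ^ 2 ≤ n := by
    exact_mod_cast Nat.minFac_sq_le_self (by omega) h2
  rw [mul_comm, Real.rpow_mul hx.le, Real.rpow_two]
  exact (pow_lt_pow_left₀ a1 (by positivity) two_ne_zero).trans_le a2

lemma CC_zero {a b γ₁ γ₂ : ℝ} (h : γ₂ < 2 * a) : Dens (CC a b) γ₁ γ₂ 0 := by
  refine Dens.zero ?_
  filter_upwards [ev_two h, ev_pos] with x h1 hx n _ h3
  exact ind_le le_rfl fun h4 ⟨h5, h6, _⟩ =>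
    absurd (h3.trans_lt h1) (sq_lt (by linarith) h4 h5 h6).not_gt

lemma MM_le {x : ℝ} (l h a b : ℝ) (n : ℕ) :
    MM l h a b x n ≤ (PB (max a l) b x + CC a b x) n := by
  rw [ArithmeticFunction.add_apply]
  refine ind_le (add_nonneg (ind_nonneg _ _) (ind_nonneg _ _)) fun h1 ⟨h2, h3, h4⟩ => ?_
  by_cases h : n.Prime
  · refine le_add_of_le_of_nonneg (ind_pos h1 ⟨h, ?_, h.minFac_eq ▸ minFac_le h4⟩).ge
      (ind_nonneg _ _)
    rcases max_choice a l with e | e <;> rw [e]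
    exacts [h3 n h dvd_rfl, h2.1]
  · exact le_add_of_nonneg_of_le (ind_nonneg _ _) (ind_pos h1 ⟨h, h3, h4⟩).ge

lemma rough_lt {x a : ℝ} {n : ℕ} (h1 : 1 < n) (h3 : Rough x a n) : x ^ a < n :=
  (h3 _ (Nat.minFac_prime h1.ne') (Nat.minFac_dvd n)).trans_le
    (by exact_mod_cast Nat.minFac_le (by omega))

lemma PB_pos (a b : ℝ) : Pos (PB a b) := Eventually.of_forall fun _ _ => ind_nonneg _ _

lemma PB_sup (a b : ℝ) : Sup (PB a b) a b := Eventually.of_forall fun x m hm => by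
  by_contra h
  exact hm (le_antisymm (ind_le le_rfl fun _ h2 => absurd ⟨h2.2.1.le, h2.2.2⟩ h) (ind_nonneg _ _))

lemma PB_lm (hP : LPrimeStmt) {a b : ℝ} (ha : 0 < a) (hab : a ≤ b) :
    LM (PB a b) (Real.log (b / a)) :=
  hP _ a b ha hab (Eventually.of_forall fun x n => ind_le (by split_ifs <;> norm_num)
    fun _ h => (if_pos h).ge)

lemma Dens.of_eps {g : Fam} {a b w : ℝ} (h : ∀ ε : ℝ, 0 < ε → Dens g a b (w + ε)) :
    Dens g a b w := fun ε hε => by
  filter_upwards [h (ε / 2) (by linarith) (ε / 2) (by linarith)] with x h1 Y h2 h3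
  exact (h1 Y h2 h3).trans_eq (by ring)

/-- from short ranges to long ranges -/
lemma Dens.of_local {g : Fam} {a b w : ℝ} (h : ∀ ε : ℝ, 0 < ε → ∃ η : ℝ, 0 < η ∧ ∀ γ₁ γ₂ : ℝ,
    a ≤ γ₁ → γ₁ ≤ γ₂ → γ₂ ≤ b → γ₂ - γ₁ ≤ η → Dens g γ₁ γ₂ (w + ε)) : Dens g a b w := by
  refine Dens.of_eps fun ε hε => ?_
  obtain ⟨η, hη, h⟩ := h ε hε
  have key : ∀ n : ℕ, ∀ γ : ℝ, γ ≤ b → γ - a ≤ n * η → Dens g a γ (w + ε) := by
    intro n
    induction n with
    | zero =>
      intro γ h1 h2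
      rcases lt_or_ge γ a with h3 | h3
      · exact Dens.empty g h3 _
      · exact h a γ le_rfl h3 h1 (by simp at h2; linarith)
    | succ n ih =>
      intro γ h1 h2
      rcases lt_or_ge γ a with h3 | h3
      · exact Dens.empty g h3 _
      rcases le_total (γ - a) η with h4 | h4
      · exact h a γ le_rfl h3 h1 h4
      · push_cast at h2
        exact (ih (γ - η) (by linarith) (by linarith)).union
          (h _ γ (by linarith) (by linarith) h1 (by linarith))
  obtain ⟨n, hn⟩ := exists_nat_ge ((b - a) / η)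
  exact key n b le_rfl ((div_le_iff₀ hη).1 hn)

/-- the inductive hypothesis -/
def Hyp (a B : ℝ) : Prop := ∀ a' β₁ β₂ : ℝ, a ≤ a' → β₂ ≤ B - a →
  Dens (RR a') β₁ β₂ (qq (β₁ / a') / a')

section

variable (hC : DConvStmt) (hP : LPrimeStmt) (hD : DPrimeStmt)
include hC hP

lemma chain {a B r γ₁ γ₂ : ℝ} (ha : 0 < a) (H : Hyp a B) (hr : 1 ≤ r) (h1 : 0 < γ₁)
    (h2 : γ₂ ≤ B) (J : ℕ) : Dens (CC a (a * r ^ J)) γ₁ γ₂
      (r * (Om (γ₁ / a - r) - Om (γ₁ / (a * r ^ J) - r)) / γ₁) := by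
  induction J with
  | zero =>
    rw [pow_zero, mul_one, sub_self, mul_zero, zero_div]
    exact Dens.zero (Eventually.of_forall fun x n _ _ => ind_le le_rfl fun _ h =>
      absurd h.2.1 h.2.2)
  | succ J ih =>
    obtain ⟨c, hc⟩ : ∃ c, c = a * r ^ J := ⟨_, rfl⟩
    have c1 : a ≤ c := hc ▸ le_mul_of_one_le_right ha.le (one_le_pow₀ hr)
    have c0 : 0 < c := ha.trans_le c1
    have r0 : 0 < r := by linarith
    rw [pow_succ, ← mul_assoc, ← hc]
    rw [← hc] at ih
    have c2 : c ≤ c * r := le_mul_of_one_le_right c0.le hr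
    have l1 := PB_lm hP c0 c2
    rw [mul_div_cancel_left₀ _ c0.ne'] at l1
    have d1 := hC (PB c (c * r)) (RR c) c (c * r) γ₁ γ₂ _ _ (Real.log_nonneg hr)
      (div_nonneg (qq_pos _).le c0.le) (PB_pos _ _) (PB_sup _ _) l1
      (H c _ _ c1 (by linarith))
    have d2 : Dens (CC c (c * r)) γ₁ γ₂ _ :=
      d1.mono (Eventually.of_forall fun x n _ _ => CC_le x _ _ n)
    refine ((ih.add d2).mono
      (Eventually.of_forall fun x n _ _ => CC_split x _ c _ n)).weak le_rfl le_rfl ?_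
    have e1 : (γ₁ - c * r) / c = γ₁ / c - r := by field_simp
    have a1 := Om_sub_ge (γ₁ / c - r) (γ₁ / (c * r) - r)
    have a2 := mul_le_mul_of_nonneg_right (Real.log_le_sub_one_of_pos r0)
      (div_nonneg (qq_pos (γ₁ / c - r)).le c0.le)
    have a3 : (r - 1) * (qq (γ₁ / c - r) / c) =
        r * (qq (γ₁ / c - r) * (γ₁ / c - r - (γ₁ / (c * r) - r))) / γ₁ := by
      field_simp
      ring
    have a4 := div_le_div_of_nonneg_right (mul_le_mul_of_nonneg_left a1 r0.le) h1.le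
    have a5 : r * (Om (γ₁ / a - r) - Om (γ₁ / (c * r) - r)) / γ₁ =
        r * (Om (γ₁ / a - r) - Om (γ₁ / c - r)) / γ₁ +
          r * (Om (γ₁ / c - r) - Om (γ₁ / (c * r) - r)) / γ₁ := by ring
    rw [e1]
    linarith

lemma chain' {a b B δ γ₁ γ₂ : ℝ} (ha : 0 < a) (hab : a ≤ b) (H : Hyp a B) (hδ : 0 < δ)
    (h1 : 0 < γ₁) (h2 : γ₂ ≤ B) : Dens (CC a b) γ₁ γ₂
      ((1 + δ) * (max 0 (Om (γ₁ / a - 1) - Om (γ₁ / b - 1)) + δ) / γ₁) := by
  obtain ⟨J, hJ⟩ := pow_unbounded_of_one_lt (b / a) (show 1 < 1 + δ by linarith)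
  have q1 : 1 ≤ b / a := (one_le_div ha).2 hab
  have J0 : J ≠ 0 := by
    rintro rfl
    rw [pow_zero] at hJ
    linarith
  obtain ⟨r, hr⟩ : ∃ r : ℝ, r = (b / a) ^ ((J : ℝ)⁻¹) := ⟨_, rfl⟩
  have r1 : 1 ≤ r := hr ▸ Real.one_le_rpow q1 (by positivity)
  have r2 : r ^ J = b / a := by rw [hr, Real.rpow_inv_natCast_pow (by linarith) J0]
  have r3 : r ≤ 1 + δ := le_of_pow_le_pow_left₀ J0 (by linarith) (r2 ▸ hJ.le)
  have := chain hC hP ha H r1 h1 h2 J
  rw [r2, mul_div_cancel₀ _ ha.ne'] at this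
  refine this.weak le_rfl le_rfl (div_le_div_of_nonneg_right ?_ h1.le)
  have a1 : Om (γ₁ / a - r) ≤ Om (γ₁ / a - 1) := Om_mono (by linarith)
  have a2 : Om (γ₁ / b - 1) - δ ≤ Om (γ₁ / b - r) := Om_lip hδ.le (by linarith)
  have a3 := le_max_right 0 (Om (γ₁ / a - 1) - Om (γ₁ / b - 1))
  have a4 := le_max_left 0 (Om (γ₁ / a - 1) - Om (γ₁ / b - 1))
  exact (mul_le_mul_of_nonneg_left (by linarith) (by linarith)).trans
    (mul_le_mul_of_nonneg_right r3 (by linarith))

include hD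

lemma blk_of_hyp {lo hi a b B β₁ β₂ w : ℝ} (ha : 1 / 200 ≤ a) (hab : a ≤ b) (H : Hyp a B)
    (hB : β₂ ≤ B) (hw : 0 ≤ w) (h : ∀ β, β₁ ≤ β → β ≤ β₂ → lo ≤ β → β ≤ hi → a ≤ β →
      (if β ≤ b then 1 else 0) + max 0 (Om (β / a - 1) - Om (max (β / b) 2 - 1)) ≤ w * β) :
    Dens (MM lo hi a b) β₁ β₂ w := by
  have a0 : 0 < a := by linarith
  obtain ⟨m, hm⟩ : ∃ m, m = max a lo := ⟨_, rfl⟩
  have m1 : a ≤ m := hm ▸ le_max_left _ _
  have m2 : lo ≤ m := hm ▸ le_max_right _ _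
  have hlt : ∀ (x : ℝ) (n : ℕ), 1 < n → (x ^ lo < (n : ℝ) ∧ (n : ℝ) ≤ x ^ hi) ∧ Rough x a n ∧
      ¬ Rough x b n → x ^ m < (n : ℝ) := fun x n h1 h2 => by
    rcases max_choice a lo with e | e <;> rw [hm, e]
    exacts [rough_lt h1 h2.2.1, h2.1.1]
  rcases lt_or_ge hi m with m3 | m3
  · refine (Dens.zero ?_).weak le_rfl le_rfl hw
    filter_upwards [ev_pos] with x hx n _ _
    exact ind_le le_rfl fun h4 h5 => absurd ((hlt x n h4 h5).trans_le h5.1.2)
      (Real.rpow_lt_rpow_of_exponent_lt hx m3).not_gt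
  refine Dens.of_local fun ε hε => ?_
  obtain ⟨δ, d0, d1, d2, d3⟩ : ∃ δ : ℝ, 0 < δ ∧ δ ≤ 1 ∧ δ ≤ a ∧
      δ * (2 * w + w / a + 2 * (3 / a + 1) / a) ≤ ε := by
    have hp : 0 < 2 * w + w / a + 2 * (3 / a + 1) / a := by positivity
    refine ⟨min (min 1 a) (ε / (2 * w + w / a + 2 * (3 / a + 1) / a)), by positivity,
      (min_le_left _ _).trans (min_le_left _ _), (min_le_left _ _).trans (min_le_right _ _), ?_⟩
    exact (le_div_iff₀ hp).1 (min_le_right _ _)
  refine ⟨δ, d0, fun γ₁ γ₂ g1 g2 g3 g4 => ?_⟩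
  rcases lt_or_ge γ₂ m with g5 | g5
  · refine (Dens.zero ?_).weak le_rfl le_rfl (by linarith)
    filter_upwards [ev_two g5] with x h1 n _ h3
    exact ind_le le_rfl fun h4 h5 => absurd (h3.trans_lt h1) (hlt x n h4 h5).not_gt
  rcases lt_or_ge hi γ₁ with g7 | g7
  · refine (Dens.zero ?_).weak le_rfl le_rfl (by linarith)
    filter_upwards [ev_two g7] with x h1 n h2 _
    exact ind_le le_rfl fun _ h5 => absurd h5.1.2 (by linarith)
  obtain ⟨β, hβ⟩ : ∃ β, β = max γ₁ m := ⟨_, rfl⟩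
  have b1 : γ₁ ≤ β := hβ ▸ le_max_left _ _
  have b2 : m ≤ β := hβ ▸ le_max_right _ _
  have b3 : β ≤ γ₂ := hβ ▸ max_le g2 g5
  have b0 : 0 < β := by linarith
  have hh := h β (by linarith) (by linarith) (by linarith) (hβ ▸ max_le g7 m3) (by linarith)
  obtain ⟨F, hF⟩ : ∃ F, F = max 0 (Om (β / a - 1) - Om (max (β / b) 2 - 1)) := ⟨_, rfl⟩
  rw [← hF] at hh
  have F0 : 0 ≤ F := hF ▸ le_max_left _ _
  have p1 : Dens (PB m b) γ₁ γ₂ ((if β ≤ b then 1 else 0) / β) := by
    split_ifs with hb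
    · rw [hβ]
      exact hD _ γ₁ γ₂ m (by linarith) (Eventually.of_forall fun x n _ _ =>
        ind_le (by split_ifs <;> norm_num) fun _ h => (if_pos ⟨h.1, h.2.1.le⟩).ge)
    · rw [zero_div]
      refine Dens.zero ?_
      rcases lt_max_iff.1 (hβ ▸ not_le.1 hb) with h1 | h1
      · filter_upwards [ev_two h1] with x h1 n h2 _
        exact ind_le le_rfl fun _ h5 => absurd h5.2.2 (by linarith)
      · filter_upwards [ev_pos] with x hx n _ _
        exact ind_le le_rfl fun _ h5 => absurd (h5.2.1.trans_le h5.2.2)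
          (Real.rpow_lt_rpow_of_exponent_lt hx h1).not_gt
  have p2 : Dens (CC a b) γ₁ γ₂ (F / β + ε) := by
    rcases lt_or_ge γ₂ (2 * a) with g6 | g6
    · exact (CC_zero g6).weak le_rfl le_rfl (by positivity)
    have g8 : a ≤ γ₁ := by linarith
    have g0 : 0 < γ₁ := by linarith
    obtain ⟨c, hc⟩ : ∃ c, c = min b (γ₂ / 2 + δ) := ⟨_, rfl⟩
    have c1 : a ≤ c := hc ▸ le_min hab (by linarith)
    have c2 : c ≤ b := hc ▸ min_le_left _ _
    have c3 : c ≤ γ₂ / 2 + δ := hc ▸ min_le_right _ _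
    have c0 : 0 < c := by linarith
    have q1 := chain' hC hP a0 c1 H d0 g0 (g3.trans hB)
    have q2 : Dens (CC c b) γ₁ γ₂ 0 := by
      rcases min_cases b (γ₂ / 2 + δ) with ⟨h1, -⟩ | ⟨h1, -⟩
      · rw [hc, h1]
        exact Dens.zero (Eventually.of_forall fun x n _ _ => ind_le le_rfl fun _ h =>
          absurd h.2.1 h.2.2)
      · exact CC_zero (by rw [hc, h1]; linarith)
    refine ((q1.add q2).mono
      (Eventually.of_forall fun x n _ _ => CC_split x _ c _ n)).weak le_rfl le_rfl ?_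
    have s0 : 0 ≤ 3 * δ / a := by positivity
    have s1 : max (β / b) 2 - 3 * δ / a ≤ γ₁ / c := by
      have t1 : 3 * δ / c ≤ 3 * δ / a := div_le_div_of_nonneg_left (by positivity) a0 c1
      have t2 : β / c ≤ γ₁ / c + 3 * δ / c := by
        rw [← add_div]
        exact div_le_div_of_nonneg_right (by linarith) c0.le
      have t3 : 2 ≤ γ₁ / c + 3 * δ / c := by
        rw [← add_div, le_div_iff₀ c0]
        linarith
      rw [sub_le_iff_le_add]
      exact max_le ((div_le_div_of_nonneg_left b0.le c0 c2).trans (by linarith)) (by linarith)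
    have s2 := Om_lip (s := max (β / b) 2 - 1) (t := γ₁ / c - 1) s0 (by linarith)
    have s2' : Om (γ₁ / a - 1) ≤ Om (β / a - 1) :=
      Om_mono (by linarith [div_le_div_of_nonneg_right b1 a0.le])
    have s3 : max 0 (Om (γ₁ / a - 1) - Om (γ₁ / c - 1)) ≤ F + 3 * δ / a := by
      have := le_max_right 0 (Om (β / a - 1) - Om (max (β / b) 2 - 1))
      exact max_le (by linarith) (by linarith)
    have s4 : F ≤ w * β := by
      have : (0 : ℝ) ≤ if β ≤ b then 1 else 0 := by split_ifs <;> norm_num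
      linarith
    have s5 : δ * (w / a + 2 * (3 / a + 1) / a) * a = δ * w + 2 * (3 * δ / a + δ) := by
      field_simp
    have s6 := mul_le_mul_of_nonneg_left g8
      (show 0 ≤ δ * (w / a + 2 * (3 / a + 1) / a) by positivity)
    have s7 := mul_le_mul_of_nonneg_right d3 g0.le
    have s8 := mul_le_mul_of_nonneg_left (s4.trans (mul_le_mul_of_nonneg_left
      (show β ≤ 2 * γ₁ by linarith) hw)) d0.le
    have s9 := mul_le_mul_of_nonneg_right d1 (show 0 ≤ 3 * δ / a + δ by positivity)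
    have s10 : F ≤ F / β * γ₁ + δ * w := by
      have t1 : F / β ≤ w := (div_le_iff₀ b0).2 s4
      have t2 : F = F / β * γ₁ + F / β * (β - γ₁) := by
        rw [← mul_add, add_sub_cancel, div_mul_cancel₀ _ b0.ne']
      have t3 : F / β * (β - γ₁) ≤ w * δ := mul_le_mul t1 (by linarith) (by linarith) hw
      linarith
    rw [add_zero, div_le_iff₀ g0]
    refine (mul_le_mul_of_nonneg_left (add_le_add_left s3 δ) (by linarith)).trans ?_
    linarith
  refine ((p1.add p2).mono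
    (Eventually.of_forall fun x n _ _ => hm ▸ MM_le lo hi a b n)).weak le_rfl le_rfl ?_
  rw [← add_assoc, ← add_div]
  exact add_le_add_left ((div_le_iff₀ b0).2 hh) _

lemma rough_all (k : ℕ) : ∀ a β₁ β₂ : ℝ, 1 / 200 ≤ a → β₂ ≤ k / 200 →
    Dens (RR a) β₁ β₂ (qq (β₁ / a) / a) := by
  induction k with
  | zero =>
    intro a β₁ β₂ ha hβ
    refine (Dens.zero ?_).weak le_rfl le_rfl (div_nonneg (qq_pos _).le (by linarith))
    filter_upwards [ev_two (show β₂ < a by simp at hβ; linarith)] with x h1 n _ h3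
    exact ind_le le_rfl fun h4 h5 => absurd (h3.trans_lt h1) (rough_lt h4 h5).not_gt
  | succ k ih =>
    intro a β₁ β₂ ha hβ
    have a0 : 0 < a := by linarith
    push_cast at hβ
    have m1 := le_max_left β₂ a
    have m2 := le_max_right β₂ a
    have := blk_of_hyp hC hP hD (lo := a) (hi := max β₂ a + 1) (a := a) (b := max β₂ a + 1)
      (B := β₂) (β₁ := β₁) (β₂ := β₂) (w := qq (β₁ / a) / a) ha (by linarith)
      (fun a' γ₁ γ₂ h1 h2 => ih a' γ₁ γ₂ (by linarith) (by linarith)) le_rfl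
      (div_nonneg (qq_pos _).le a0.le) fun β h1 h2 _ _ h3 => by
        have u1 : 1 ≤ β / a := (one_le_div a0).2 h3
        have u2 : β / (max β₂ a + 1) ≤ 2 := by
          rw [div_le_iff₀ (by linarith)]
          linarith
        have u3 : qq (β / a) ≤ qq (β₁ / a) := qq_anti (div_le_div_of_nonneg_right h1 a0.le)
        have u4 := (div_le_iff₀ (by linarith)).1 ((inv_le_qq u1).trans u3)
        have u5 := mul_le_mul_of_nonneg_right (cc_le_qq (β₁ / a)) (zero_le_one.trans u1)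
        have u6 := Om_step (β / a)
        rw [if_pos (by linarith), max_eq_right u2, show (2 : ℝ) - 1 = 1 by norm_num, Om_one,
          sub_zero, div_mul_eq_mul_div, mul_div_assoc, ← le_sub_iff_add_le']
        exact max_le (by linarith) (by linarith)
    refine this.mono ?_
    filter_upwards [ev_two (show β₂ < max β₂ a + 1 by linarith)] with x h1 n _ h3
    have x0 : 0 ≤ (n : ℝ) := Nat.cast_nonneg n
    exact ind_le (ind_nonneg _ _) fun h4 h5 => (ind_pos h4 ⟨⟨rough_lt h4 h5, by linarith⟩, h5,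
      fun h6 => absurd (h3.trans_lt h1) (rough_lt h4 h6).not_gt⟩).ge

/-- rough numbers -/
theorem dens_RR {a : ℝ} (ha : 1 / 200 ≤ a) (β₁ β₂ : ℝ) :
    Dens (RR a) β₁ β₂ (qq (β₁ / a) / a) := by
  obtain ⟨k, hk⟩ := exists_nat_ge (200 * β₂)
  exact rough_all hC hP hD k a β₁ β₂ ha (by linarith)

/-- numbers with the least prime factor in a range -/
theorem dens_MM {lo hi a b β₁ β₂ w : ℝ} (ha : 1 / 200 ≤ a) (hab : a ≤ b) (hw : 0 ≤ w)
    (h : ∀ β, β₁ ≤ β → β ≤ β₂ → lo ≤ β → β ≤ hi → a ≤ β → (if β ≤ b then 1 else 0) +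
      max 0 (Om (β / a - 1) - Om (max (β / b) 2 - 1)) ≤ w * β) :
    Dens (MM lo hi a b) β₁ β₂ w :=
  blk_of_hyp hC hP hD ha hab (B := β₂) (fun _ _ _ h1 _ => dens_RR hC hP hD (ha.trans h1) _ _)
    le_rfl hw h

end

end Pool.Agent.MP_c853c5_nt.L

end

section

/-!
Smoothed sums and logarithmic masses of convolutions.
-/

set_option autoImplicit false

open Finset Filter

namespace Pool.Agent.MP_c853c5_nt.L

open Pool.Agent.MP_c853c5_nt.Z

lemma swap_Conv (W : Finset ℕ) (N : ℕ) (hW : ∀ n ∈ W, 1 ≤ n ∧ n ≤ N) (F : ℕ → ℕ → ℝ) :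
    ∑ n ∈ W, ∑ p ∈ n.divisorsAntidiagonal, F p.1 p.2 =
      ∑ m ∈ Icc 1 N, ∑ k ∈ (Icc 1 N).filter (fun k => m * k ∈ W), F m k := by
  rw [sum_sigma', sum_sigma']
  refine sum_nbij' (fun z => ⟨z.2.1, z.2.2⟩) (fun z => ⟨z.1 * z.2, (z.1, z.2)⟩) ?_ ?_ ?_ ?_ ?_
  · rintro ⟨n, a, b⟩ hz
    simp only [mem_sigma, Nat.mem_divisorsAntidiagonal] at hz
    obtain ⟨h1, h2, h3⟩ := hz
    subst h2
    have h4 := hW _ h1
    have ha : 0 < a := Nat.pos_of_mul_pos_right h4.1
    have hb : 0 < b := Nat.pos_of_mul_pos_left h4.1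
    simp only [mem_sigma, mem_filter, mem_Icc]
    exact ⟨⟨ha, (Nat.le_mul_of_pos_right a hb).trans h4.2⟩,
      ⟨hb, (Nat.le_mul_of_pos_left b ha).trans h4.2⟩, h1⟩
  · rintro ⟨a, b⟩ hz
    simp only [mem_sigma, mem_filter, mem_Icc] at hz
    simp only [mem_sigma, Nat.mem_divisorsAntidiagonal, true_and]
    exact ⟨hz.2.2, by have := (hW _ hz.2.2).1; omega⟩
  · rintro ⟨n, a, b⟩ hz
    simp only [mem_sigma, Nat.mem_divisorsAntidiagonal] at hz
    obtain ⟨-, h2, -⟩ := hz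
    subst h2
    rfl
  · rintro ⟨a, b⟩ _
    rfl
  · rintro ⟨n, a, b⟩ _
    rfl

theorem conv : ConvStmt := by
  intro x D f g hx
  have hW : ∀ n ∈ Ioc ⌊x / 2⌋₊ ⌊2 * x⌋₊, 1 ≤ n ∧ n ≤ ⌊2 * x⌋₊ := fun n hn => by
    rw [mem_Ioc] at hn
    omega
  have e := swap_Conv _ _ hW fun m k => f m * (g k * gg D (Real.log x - Real.log (m * k : ℕ)))
  unfold SS
  refine (sum_congr rfl fun n _ => ?_).trans (e.trans (sum_congr rfl fun m hm => ?_))
  · rw [ArithmeticFunction.mul_apply, sum_mul]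
    refine sum_congr rfl fun p hp => ?_
    rw [(Nat.mem_divisorsAntidiagonal.1 hp).1, mul_assoc]
  · have m1 : (1 : ℝ) ≤ m := by exact_mod_cast (mem_Icc.1 hm).1
    have m0 : (0 : ℝ) < m := by linarith
    have y0 : 0 < x / m := div_pos hx m0
    rw [mul_sum]
    refine sum_congr ?_ fun k hk => ?_
    · ext k
      rw [mem_filter, mem_win hx.le, mem_win y0.le, mem_Icc, Nat.cast_mul,
        Nat.le_floor_iff (by positivity), ← mul_div_assoc, le_div_iff₀ m0, div_right_comm,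
        div_lt_iff₀ m0, mul_comm (k : ℝ) m]
      refine ⟨fun h => h.2, fun h => ⟨⟨?_, ?_⟩, h⟩⟩
      · rcases Nat.eq_zero_or_pos k with rfl | hk
        · have := h.1
          simp only [Nat.cast_zero, mul_zero] at this
          linarith
        · exact hk
      · have k0 : (0 : ℝ) ≤ k := Nat.cast_nonneg k
        nlinarith [h.2]
    · have k0 : (0 : ℝ) < k := lt_of_le_of_lt (by positivity) ((mem_win y0.le).1 hk).1
      rw [Nat.cast_mul, Real.log_mul m0.ne' k0.ne', Real.log_div hx.ne' m0.ne', sub_sub]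

lemma eps_Conv {μ w ε : ℝ} (hμ : 0 ≤ μ) (hw : 0 ≤ w) (hε : 0 < ε) :
    ∃ e : ℝ, 0 < e ∧ (μ + e) * (w + e) ≤ μ * w + ε := by
  have h0 : 0 < μ + w + 1 := by linarith
  refine ⟨min 1 (ε / (μ + w + 1)), lt_min one_pos (div_pos hε h0), ?_⟩
  have h1 : min 1 (ε / (μ + w + 1)) ≤ 1 := min_le_left _ _
  have h2 : min 1 (ε / (μ + w + 1)) * (μ + w + 1) ≤ ε := (le_div_iff₀ h0).1 (min_le_right _ _)
  have h3 : 0 < min 1 (ε / (μ + w + 1)) := lt_min one_pos (div_pos hε h0)
  nlinarith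

theorem dconv : DConvStmt := by
  intro f g lo hi a b μ w hμ hw hP hS hL hD ε hε
  obtain ⟨e, e0, he⟩ := eps_Conv hμ hw hε
  filter_upwards [hP, hS, hL e e0, hD e e0, ev_pos] with x h1 h2 h3 h4 hx Y ha hb
  have x0 : 0 < x := by linarith
  have y0 : 0 < Y := (Real.rpow_pos_of_pos x0 a).trans_le ha
  have l0 : 0 ≤ Y / Real.log x := div_nonneg y0.le (Real.log_pos hx).le
  have t : ∀ m ∈ Icc 1 ⌊2 * Y⌋₊, f x m * SS (Y / m) (DB x) (g x) ≤
      f x m / m * ((w + e) * (Y / Real.log x)) := fun m hm => by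
    rcases eq_or_ne (f x m) 0 with h | h
    · simp [h]
    obtain ⟨a1, a2⟩ := h2 m h
    have m0 : (0 : ℝ) < m := (Real.rpow_pos_of_pos x0 lo).trans_le a1
    have b1 : x ^ (a - hi) ≤ Y / m := by
      rw [Real.rpow_sub x0]
      exact div_le_div₀ y0.le ha m0 a2
    have b2 : Y / m ≤ x ^ (b - lo) := by
      rw [Real.rpow_sub x0]
      exact div_le_div₀ (Real.rpow_pos_of_pos x0 b).le hb (Real.rpow_pos_of_pos x0 lo) a1
    refine (mul_le_mul_of_nonneg_left (h4 _ b1 b2) (h1 m)).trans_eq ?_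
    ring
  refine (conv Y (DB x) (f x) (g x) y0).trans_le ((sum_le_sum t).trans ?_)
  rw [← sum_mul]
  refine (mul_le_mul_of_nonneg_right (h3 _) (mul_nonneg (by linarith) l0)).trans ?_
  rw [← mul_assoc]
  exact mul_le_mul_of_nonneg_right he l0

theorem lmul : LMulStmt := by
  intro f g μ ν hμ hν hf hg hL hM ε hε
  obtain ⟨e, e0, he⟩ := eps_Conv hμ hν hε
  filter_upwards [hf, hg, hL e e0, hM e e0] with x h1 h2 h3 h4 X
  have q := swap_Conv (Icc 1 X) X (fun n hn => mem_Icc.1 hn) fun m k => f x m / m * (g x k / k)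
  have q1 : ∑ n ∈ Icc 1 X, (f x * g x) n / (n : ℝ) =
      ∑ n ∈ Icc 1 X, ∑ p ∈ n.divisorsAntidiagonal, f x p.1 / p.1 * (g x p.2 / p.2) := by
    refine sum_congr rfl fun n _ => ?_
    rw [ArithmeticFunction.mul_apply, sum_div]
    refine sum_congr rfl fun p hp => ?_
    rw [← (Nat.mem_divisorsAntidiagonal.1 hp).1, Nat.cast_mul, mul_div_mul_comm]
  have n1 : ∀ m : ℕ, 0 ≤ f x m / m := fun m => div_nonneg (h1 m) (Nat.cast_nonneg m)
  have n2 : ∀ m : ℕ, 0 ≤ g x m / m := fun m => div_nonneg (h2 m) (Nat.cast_nonneg m)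
  have q2 : ∑ m ∈ Icc 1 X, ∑ k ∈ (Icc 1 X).filter (fun k => m * k ∈ Icc 1 X),
      f x m / m * (g x k / k) ≤ (∑ m ∈ Icc 1 X, f x m / m) * ∑ k ∈ Icc 1 X, g x k / k := by
    rw [sum_mul_sum]
    exact sum_le_sum fun m _ => sum_le_sum_of_subset_of_nonneg (filter_subset _ _)
      fun k _ _ => mul_nonneg (n1 m) (n2 k)
  refine (q1.trans q).trans_le (q2.trans (le_trans ?_ he))
  exact mul_le_mul (h3 X) (h4 X) (sum_nonneg fun k _ => n2 k) (by linarith)

end Pool.Agent.MP_c853c5_nt.L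

end

section

/-!
The density of primes and the long sum over primes.
-/

set_option autoImplicit false

open Finset Filter
open ArithmeticFunction (vonMangoldt)

namespace Pool.Agent.MP_c853c5_nt.L

open Pool.Agent.MP_c853c5_nt.Z

lemma key_DPrime (hS : SmStmt) (hZ : ZD (9 / 4)) (E : ℝ) (hE : 0 < E) : ∃ Y₀ : ℝ, ∀ Y : ℝ,
    Y₀ ≤ Y → 1 ≤ Real.log Y ∧ ∀ D : ℝ, Y ^ (-(2 / 5) : ℝ) ≤ D → D ≤ 1 / Real.log Y →
      |PP D (Real.log Y) - Y| ≤ E * Y := by
  have h := (hS (9 / 4) (3 / 5) le_rfl hZ (by norm_num) (by norm_num) E hE).and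
    ((Real.tendsto_log_atTop.eventually_ge_atTop 1).and ev_pos)
  obtain ⟨Y₀, h⟩ := eventually_atTop.1 h
  refine ⟨Y₀, fun Y hY => ?_⟩
  obtain ⟨h1, h2, h3⟩ := h Y hY
  refine ⟨h2, fun D h4 h5 => ?_⟩
  have y0 : 0 < Y := by linarith
  have h6 : Y ^ ((3 / 5 : ℝ) - 1) / Real.log Y ≤ D := by
    rw [show (3 / 5 : ℝ) - 1 = -(2 / 5) by norm_num]
    exact (div_le_self (Real.rpow_nonneg y0.le _) h2).trans h4
  have := h1 D h6 h5 (Real.log Y) ⟨by linarith, by linarith⟩
  rwa [Real.exp_log y0] at this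

lemma evlog_DPrime (K δ : ℝ) (hK : 0 < K) (hδ : 0 < δ) :
    ∀ᶠ x : ℝ in atTop, K * Real.log x ≤ x ^ δ := by
  have h := (isLittleO_log_rpow_atTop hδ).bound (inv_pos.2 hK)
  filter_upwards [h, ev_pos] with x h1 hx
  rw [Real.norm_eq_abs, Real.norm_eq_abs, abs_of_pos (Real.log_pos hx),
    abs_of_pos (Real.rpow_pos_of_pos (by linarith) _)] at h1
  calc K * Real.log x ≤ K * (K⁻¹ * x ^ δ) := mul_le_mul_of_nonneg_left h1 hK.le
    _ = x ^ δ := by field_simp

lemma evpow_DPrime (K δ : ℝ) (hδ : 0 < δ) : ∀ᶠ x : ℝ in atTop, K ≤ x ^ δ :=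
  (tendsto_rpow_atTop hδ).eventually_ge_atTop K

lemma DB_eq_DPrime {x : ℝ} (hx : 0 < x) : DB x = 1 / x ^ (1 / 1000 : ℝ) := by
  rw [DB, Real.rpow_neg hx.le, inv_eq_one_div]

lemma sum_le_DPrime {D : ℝ} (h : 0 < D) (h1 : D ≤ 1) (Y : ℝ) :
    SS Y D (fun n => vonMangoldt n) ≤ PP D (Real.log Y) :=
  Summable.sum_le_tsum _ (fun _ _ => mul_nonneg ArithmeticFunction.vonMangoldt_nonneg
    (gg_nonneg h.le _)) (summable_Sand h h1 _)

lemma SS_div_DPrime (Y D K : ℝ) (f : ℕ → ℝ) : SS Y D (fun n => f n / K) = SS Y D f / K := by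
  unfold SS
  rw [sum_div]
  exact sum_congr rfl fun n _ => by ring

theorem dprime (hS : SmStmt) (hZ : ZD (9 / 4)) : DPrimeStmt := by
  intro g a b c hc hg ε hε
  set m := max a c with hm
  have m0 : 0 < m := lt_of_lt_of_le (by linarith) (le_max_right a c)
  obtain ⟨Y₀, hY₀⟩ := key_DPrime hS hZ (ε * m / 2) (by positivity)
  filter_upwards [hg, ev_pos, evpow_DPrime Y₀ (1 / 400) (by norm_num),
    evpow_DPrime 2 (1 / 400) (by norm_num),
    evlog_DPrime (max b 1) (1 / 1000) (lt_of_lt_of_le one_pos (le_max_right b 1)) (by norm_num),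
    Real.tendsto_log_atTop.eventually_ge_atTop ((1 / m + ε) / (ε * m / 2))]
    with x h1 hx h2 h3 h4 h5 Y ha hb
  have x0 : 0 < x := by linarith
  have y0 : 0 < Y := (Real.rpow_pos_of_pos x0 a).trans_le ha
  have D0 := DB_pos x0
  set L := Real.log x with hL
  have L0 : 0 < L := Real.log_pos hx
  have hR : 0 ≤ (1 / m + ε) * (Y / L) := by positivity
  by_cases hc2 : 2 * Y < x ^ c
  · refine ((SS_mono (g := fun _ => 0) y0.le D0.le fun n k1 k2 => ?_).trans_eq
      (SS_zero _ _)).trans hR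
    refine (h1 n (by linarith) (by linarith)).trans (le_of_eq (if_neg fun k => ?_))
    linarith [k.2]
  have hY : x ^ (1 / 400 : ℝ) ≤ Y := by
    have e1 : x ^ (1 / 200 : ℝ) ≤ x ^ c := Real.rpow_le_rpow_of_exponent_le hx.le hc
    have e2 : x ^ (1 / 200 : ℝ) = x ^ (1 / 400 : ℝ) * x ^ (1 / 400 : ℝ) := by
      rw [← Real.rpow_add x0]
      norm_num
    nlinarith [not_lt.1 hc2]
  obtain ⟨k1, k2⟩ := hY₀ Y (h2.trans hY)
  have k3 : Y ^ (-(2 / 5) : ℝ) ≤ DB x := by
    calc Y ^ (-(2 / 5) : ℝ) ≤ (x ^ (1 / 400 : ℝ)) ^ (-(2 / 5) : ℝ) :=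
          Real.rpow_le_rpow_of_nonpos (Real.rpow_pos_of_pos x0 _) hY (by norm_num)
      _ = DB x := by
          rw [← Real.rpow_mul x0.le, DB]
          norm_num
  have k4 : DB x ≤ 1 / Real.log Y := by
    rw [DB_eq_DPrime x0]
    apply one_div_le_one_div_of_le (by linarith)
    calc Real.log Y ≤ Real.log (x ^ b) := Real.log_le_log y0 hb
      _ = b * L := Real.log_rpow x0 b
      _ ≤ max b 1 * L := mul_le_mul_of_nonneg_right (le_max_left b 1) L0.le
      _ ≤ _ := h4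
  have k5 : DB x ≤ 1 := k4.trans (by rw [div_le_one (by linarith)]; exact k1)
  have k6 := (abs_le.1 (k2 _ k3 k4)).2
  have h6 : 1 / m + ε ≤ L * (ε * m / 2) := (div_le_iff₀ (by positivity)).1 h5
  have h7 : 1 / m * m = 1 := by field_simp
  have h8 : 0 < 1 / m := by positivity
  have k7 : 0 < m * L - 1 := by
    have : ε * 2 ≤ ε * (m * L) := by nlinarith
    have := le_of_mul_le_mul_left this hε
    linarith
  have l2 : Real.log 2 ≤ 1 := by linarith [Real.log_two_lt_d9]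
  have k8 : SS Y (DB x) (g x) ≤ SS Y (DB x) fun n => vonMangoldt n / (m * L - 1) := by
    refine SS_mono y0.le D0.le fun n n1 n2 => (h1 n (by linarith) (by linarith)).trans ?_
    split_ifs with k
    · rw [ArithmeticFunction.vonMangoldt_apply_prime k.1, le_div_iff₀ k7, one_mul]
      have a1 : a * L - 1 ≤ Real.log n := by
        have : Real.log (x ^ a / 2) ≤ Real.log n :=
          Real.log_le_log (by positivity) (by linarith)
        rw [Real.log_div (by positivity) (by norm_num), Real.log_rpow x0] at this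
        linarith
      have a2 : c * L ≤ Real.log n := by
        have := Real.log_le_log (Real.rpow_pos_of_pos x0 c) k.2
        rwa [Real.log_rpow x0] at this
      rcases max_choice a c with e | e <;> rw [hm, e] <;> linarith
    · exact div_nonneg ArithmeticFunction.vonMangoldt_nonneg k7.le
  rw [SS_div_DPrime] at k8
  calc SS Y (DB x) (g x) ≤ (1 + ε * m / 2) * Y / (m * L - 1) := by
        refine k8.trans (div_le_div_of_nonneg_right ?_ k7.le)
        linarith [sum_le_DPrime D0 k5 Y]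
    _ ≤ (1 / m + ε) * (Y / L) := by
        rw [← mul_div_assoc, div_le_div_iff₀ k7 L0]
        have : (1 + ε * m / 2) * L ≤ (1 / m + ε) * (m * L - 1) := by
          have e : (1 / m + ε) * (m * L - 1) = 1 / m * m * L + ε * m * L - (1 / m + ε) := by ring
          rw [e, h7]
          linarith
        nlinarith

lemma tail_DPrime (C E : ℝ) (hC : 0 ≤ C) (hE : 0 < E) : ∀ᶠ x : ℝ in atTop,
    (DB x)⁻¹ * hh_Sand (DB x) (1 / 2) * Real.exp (2 * Real.log x + 1) * C ≤ E * x := by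
  filter_upwards [ev_pos, evlog_DPrime 8 (1 / 1000) (by norm_num) (by norm_num),
    eventually_ge_atTop (Real.exp 1 * C / E)] with x hx h1 h2
  have x0 : 0 < x := by linarith
  set y := x ^ (1 / 1000 : ℝ) with hy
  have y1 : 1 ≤ y := Real.one_le_rpow hx.le (by norm_num)
  have y2 : y ≤ Real.exp (Real.log x) := by
    rw [Real.exp_log x0]
    exact Real.rpow_le_self_of_one_le hx.le (by norm_num)
  have e1 : (DB x)⁻¹ = y := by rw [DB_eq_DPrime x0, one_div, inv_inv]
  have e2 : hh_Sand (DB x) (1 / 2) ≤ Real.exp (-(3 * Real.log x)) := by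
    rw [hh_Sand, DB_eq_DPrime x0, ← hy]
    apply Real.exp_le_exp.2
    apply neg_le_neg
    have : Real.pi * (1 / 2) ^ 2 / (2 * (1 / y) ^ 2) = Real.pi * y ^ 2 / 8 := by
      field_simp
      ring
    rw [this]
    have p3 := Real.pi_gt_three
    have y3 : y ≤ y ^ 2 := by nlinarith
    nlinarith
  rw [e1]
  calc y * hh_Sand (DB x) (1 / 2) * Real.exp (2 * Real.log x + 1) * C
      ≤ Real.exp (Real.log x) * Real.exp (-(3 * Real.log x)) *
          Real.exp (2 * Real.log x + 1) * C := by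
        have : 0 ≤ hh_Sand (DB x) (1 / 2) := (Real.exp_pos _).le
        gcongr
    _ = Real.exp 1 * C := by
        rw [← Real.exp_add, ← Real.exp_add]
        congr 2
        ring
    _ ≤ E * x := by
        rw [div_le_iff₀ hE] at h2
        linarith

lemma np_DPrime (E : ℝ) (hE : 0 < E) : ∀ᶠ x : ℝ in atTop,
    SS x (DB x) (fun n => if n.Prime then 0 else vonMangoldt n) ≤ E * x := by
  filter_upwards [ev_pos, evlog_DPrime 2 (1 / 1000) (by norm_num) (by norm_num),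
    evpow_DPrime (4 / E) (1 / 4) (by norm_num), eventually_ge_atTop 2] with x hx h1 h2 h3
  have x0 : 0 < x := by linarith
  have D0 := DB_pos x0
  set y := x ^ (1 / 1000 : ℝ) with hy
  set t := x ^ (1 / 4 : ℝ) with ht
  have y0 : 0 < y := Real.rpow_pos_of_pos x0 _
  have t0 : 0 < t := Real.rpow_pos_of_pos x0 _
  have e1 : (DB x)⁻¹ = y := by rw [DB_eq_DPrime x0, one_div, inv_inv]
  have e2 : y * y ≤ t := by
    rw [hy, ← Real.rpow_add x0]
    exact Real.rpow_le_rpow_of_exponent_le hx.le (by norm_num)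
  have e3 : t ^ 4 = x := by
    rw [ht, ← Real.rpow_natCast, ← Real.rpow_mul x0.le]
    norm_num
  have e4 : √(2 * x) ≤ 2 * t ^ 2 := by
    apply Real.sqrt_le_iff.2
    refine ⟨by positivity, ?_⟩
    nlinarith
  have e5 : Real.log (2 * x) ≤ y := by
    rw [Real.log_mul (by norm_num) x0.ne']
    have := Real.log_le_log (by norm_num) h3
    linarith
  have e6 : 0 ≤ Real.log (2 * x) := Real.log_nonneg (by linarith)
  have s1 : SS x (DB x) (fun n => if n.Prime then 0 else vonMangoldt n) ≤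
      (∑ n ∈ Ioc 0 ⌊2 * x⌋₊ with ¬n.Prime, vonMangoldt n) * y := by
    rw [sum_filter, sum_mul, SS]
    calc _ ≤ ∑ n ∈ Ioc ⌊x / 2⌋₊ ⌊2 * x⌋₊, (if ¬n.Prime then vonMangoldt n else 0) * y := by
          refine sum_le_sum fun n _ => ?_
          have g1 : gg (DB x) (Real.log x - Real.log n) ≤ y := by
            rw [gg, e1]
            apply mul_le_of_le_one_right y0.le
            apply Real.exp_le_one_iff.2
            have := Real.pi_pos
            have : 0 ≤ Real.pi * (Real.log x - Real.log n) ^ 2 / DB x ^ 2 := by positivity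
            linarith
          by_cases k : n.Prime
          · simp [k]
          · simp only [k, if_false, not_false_eq_true, if_true]
            exact mul_le_mul_of_nonneg_left g1 ArithmeticFunction.vonMangoldt_nonneg
      _ ≤ _ := by
          apply sum_le_sum_of_subset_of_nonneg (Ioc_subset_Ioc_left (Nat.zero_le _))
          intro n _ _
          apply mul_nonneg _ y0.le
          split_ifs
          · exact le_rfl
          · exact ArithmeticFunction.vonMangoldt_nonneg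
  rw [← Chebyshev.psi_sub_theta_eq_sum_not_prime] at s1
  have s2 := Chebyshev.psi_sub_theta_le (x := 2 * x) (by linarith)
  rw [div_le_iff₀ hE] at h2
  calc _ ≤ 2 * √(2 * x) * Real.log (2 * x) * y :=
        s1.trans (mul_le_mul_of_nonneg_right s2 y0.le)
    _ ≤ 2 * (2 * t ^ 2) * y * y := by gcongr
    _ = 4 * t ^ 2 * (y * y) := by ring
    _ ≤ (t * E) * t ^ 2 * t := by gcongr
    _ = E * x := by rw [← e3]; ring

theorem long (hS : SmStmt) (hZ : ZD (9 / 4)) : LongStmt := by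
  intro ε hε
  have hE : 0 < ε / 4 := by positivity
  obtain ⟨Y₀, hY₀⟩ := key_DPrime hS hZ (ε / 4) hE
  have hC : 0 ≤ ∑' n, ww_Sand n := tsum_nonneg fun n =>
    mul_nonneg ArithmeticFunction.vonMangoldt_nonneg (Real.exp_nonneg _)
  filter_upwards [ev_pos, eventually_ge_atTop Y₀, tail_DPrime _ _ hC hE, np_DPrime _ hE,
    evlog_DPrime 1 (1 / 1000) (by norm_num) (by norm_num),
    Real.tendsto_log_atTop.eventually_ge_atTop (1 / (ε / 4))] with x hx h1 h2 h3 h4 h5
  have x0 : 0 < x := by linarith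
  have D0 := DB_pos x0
  obtain ⟨k1, k2⟩ := hY₀ x h1
  set L := Real.log x with hL
  have L0 : 0 < L := by linarith
  have k3 : x ^ (-(2 / 5) : ℝ) ≤ DB x := Real.rpow_le_rpow_of_exponent_le hx.le (by norm_num)
  have k4 : DB x ≤ 1 / L := by
    rw [DB_eq_DPrime x0]
    exact one_div_le_one_div_of_le L0 (by linarith)
  have k5 : DB x ≤ 1 := k4.trans (by rw [div_le_one L0]; exact k1)
  have k6 := (abs_le.1 (k2 _ k3 k4)).1
  have l1 : 1 / 2 ≤ Real.log 2 := by linarith [Real.log_two_gt_d9]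
  have l2 : Real.log 2 ≤ 1 := by linarith [Real.log_two_lt_d9]
  have k7 := PP_le_Sand (d := 1 / 2) (v := L) D0 k5 (by norm_num) (Ioc ⌊x / 2⌋₊ ⌊2 * x⌋₊) (by
    intro n hn
    rw [mem_win x0.le, not_and_or, not_lt, not_le] at hn
    rcases n.eq_zero_or_pos with rfl | n0
    · rw [Nat.cast_zero, Real.log_zero, sub_zero, abs_of_pos L0]
      linarith
    have n1 : (0 : ℝ) < n := by exact_mod_cast n0
    rcases hn with hn | hn
    · have := Real.log_le_log n1 hn
      rw [Real.log_div x0.ne' (by norm_num)] at this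
      exact le_trans (by linarith) (le_abs_self _)
    · have := Real.log_le_log (by positivity) hn.le
      rw [Real.log_mul (by norm_num) x0.ne'] at this
      exact le_trans (by linarith) (neg_le_abs _))
  have h6 : 1 ≤ L * (ε / 4) := (div_le_iff₀ hE).1 h5
  have k8 : SS x (DB x) (fun n => vonMangoldt n) ≤
      SS x (DB x) (fun n => prm n / ((1 + ε / 4) * L)⁻¹) +
        SS x (DB x) (fun n => if n.Prime then 0 else vonMangoldt n) := by
    rw [← SS_add]
    refine SS_mono x0.le D0.le fun n n1 n2 => ?_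
    by_cases k : n.Prime
    · have e : prm n = 1 := if_pos k
      rw [e, if_pos k, add_zero, one_div, inv_inv, ArithmeticFunction.vonMangoldt_apply_prime k]
      have := Real.log_le_log (by linarith) n2
      rw [Real.log_mul (by norm_num) x0.ne'] at this
      linarith
    · have e : prm n = 0 := if_neg k
      rw [e, if_neg k, zero_div, zero_add]
  rw [SS_div_DPrime, div_inv_eq_mul] at k8
  have k9 : (1 - 3 * (ε / 4)) * x ≤ SS x (DB x) prm * ((1 + ε / 4) * L) := by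
    have : PP (DB x) L ≤ SS x (DB x) (fun n => vonMangoldt n) + ε / 4 * x :=
      k7.trans (add_le_add_right h2 _)
    linarith
  rw [← mul_div_assoc, div_le_iff₀ L0]
  refine le_of_mul_le_mul_right ?_ (show 0 < 1 + ε / 4 by positivity)
  have : (1 - ε) * (1 + ε / 4) ≤ 1 - 3 * (ε / 4) := by nlinarith
  nlinarith

end Pool.Agent.MP_c853c5_nt.L

end

section

set_option autoImplicit false

open Finset Filter MeasureTheory Topology

namespace Pool.Agent.MP_c853c5_nt.L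

open Pool.Agent.MP_c853c5_nt.Z

lemma point_LDens {D d v : ℝ} {g : ℕ → ℝ} (hD : 0 < D) (hd' : d ≤ 1 / 2) (hg : ∀ m, 0 ≤ g m)
    (S : Finset ℕ) (hS : ∀ m ∈ S, 1 ≤ m) :
    ∑ m ∈ S, Set.indicator (Set.Ioc (Real.log m - d) (Real.log m + d))
      (fun v => g m * ((1 - d) / m) * gg D (v - Real.log m)) v ≤
        SS (Real.exp v) D g * Real.exp (-v) := by
  classical
  have e2 : Real.exp d < 2 := by
    rw [← Real.exp_log (show (0 : ℝ) < 2 by norm_num)]
    exact Real.exp_lt_exp.2 (by linarith [Real.log_two_gt_d9])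
  have e3 : 1 - d ≤ Real.exp (-d) := by linarith [Real.add_one_le_exp (-d)]
  simp only [Set.indicator_apply]
  rw [← sum_filter, SS, sum_mul, Real.log_exp]
  refine (sum_le_sum (g := fun m : ℕ => g m * gg D (v - Real.log m) * Real.exp (-v))
    fun m hm => ?_).trans (sum_le_sum_of_subset_of_nonneg (fun m hm => ?_) fun m _ _ =>
      mul_nonneg (mul_nonneg (hg m) (gg_nonneg hD.le _)) (Real.exp_nonneg _))
  · obtain ⟨h1, -, h3⟩ := mem_filter.1 hm
    have m0 : (0 : ℝ) < m := by exact_mod_cast hS m h1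
    have a1 : Real.exp (-d) / m ≤ Real.exp (-v) := by
      rw [← Real.exp_log m0, ← Real.exp_sub]
      exact Real.exp_le_exp.2 (by linarith)
    have a2 : (1 - d) / m ≤ Real.exp (-v) := (div_le_div_of_nonneg_right e3 m0.le).trans a1
    rw [mul_right_comm]
    exact mul_le_mul_of_nonneg_left a2 (mul_nonneg (hg m) (gg_nonneg hD.le _))
  · obtain ⟨h1, h2, h3⟩ := mem_filter.1 hm
    have m0 : (0 : ℝ) < m := by exact_mod_cast hS m h1
    have a1 : Real.exp v ≤ m * Real.exp d := by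
      rw [← Real.exp_log m0, ← Real.exp_add]
      exact Real.exp_le_exp.2 h3
    have a2 : (m : ℝ) ≤ Real.exp v * Real.exp d := by
      rw [← Real.exp_log m0, ← Real.exp_add]
      exact Real.exp_le_exp.2 (by linarith)
    have a3 := mul_lt_mul_of_pos_left e2 m0
    have a4 := mul_lt_mul_of_pos_left e2 (Real.exp_pos v)
    rw [mem_win (Real.exp_nonneg v)]
    constructor <;> linarith

lemma core_LDens {D d α β B : ℝ} {g : ℕ → ℝ} (hD : 0 < D) (hd : 0 ≤ d) (hd' : d ≤ 1 / 2)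
    (hαβ : α ≤ β) (hg : ∀ m, 0 ≤ g m) (S : Finset ℕ)
    (hS : ∀ m ∈ S, 1 ≤ m ∧ α + d ≤ Real.log m ∧ Real.log m + d ≤ β)
    (hB : ∀ v, α ≤ v → v ≤ β → SS (Real.exp v) D g ≤ B * Real.exp v) :
    (1 - d) * (1 - 2 * hh_Sand D d) * ∑ m ∈ S, g m / m ≤ B * (β - α) := by
  have i1 : ∀ m : ℕ, Integrable (Set.indicator (Set.Ioc (Real.log m - d) (Real.log m + d))
      fun v => g m * ((1 - d) / m) * gg D (v - Real.log m)) := fun m =>
    IntegrableOn.integrable_indicator (cont_Sand D _ _).integrableOn_Ioc measurableSet_Ioc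
  have i2 : Integrable (Set.indicator (Set.Ioc α β) fun _ : ℝ => B) :=
    IntegrableOn.integrable_indicator continuous_const.integrableOn_Ioc measurableSet_Ioc
  have h1 := integral_mono (integrable_finsetSum S fun m _ => i1 m) i2 fun v => by
    by_cases hv : v ∈ Set.Ioc α β
    · rw [Set.indicator_of_mem hv]
      refine (point_LDens hD hd' hg S fun m hm => (hS m hm).1).trans ?_
      refine (mul_le_mul_of_nonneg_right (hB v hv.1.le hv.2) (Real.exp_nonneg _)).trans ?_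
      rw [mul_assoc, ← Real.exp_add, add_neg_cancel, Real.exp_zero, mul_one]
    · rw [Set.indicator_of_notMem hv]
      refine le_of_eq (sum_eq_zero fun m hm => Set.indicator_of_notMem (fun h => hv ?_) _)
      exact ⟨by linarith [h.1, (hS m hm).2.1], by linarith [h.2, (hS m hm).2.2]⟩
  rw [integral_finsetSum S fun m _ => i1 m, integral_indicator measurableSet_Ioc,
    ← intervalIntegral.integral_of_le hαβ, intervalIntegral.integral_const, smul_eq_mul,
    mul_comm] at h1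
  refine le_trans ?_ h1
  rw [mul_sum]
  refine sum_le_sum fun m _ => ?_
  rw [integral_indicator measurableSet_Ioc, ← intervalIntegral.integral_of_le (by linarith),
    intervalIntegral.integral_const_mul]
  have h2 := le_int_Sand hD (a := Real.log m - d) (b := Real.log m + d) (c := Real.log m) hd
    (by linarith) le_rfl
  have h3 : 0 ≤ g m * ((1 - d) / m) :=
    mul_nonneg (hg m) (div_nonneg (by linarith) (Nat.cast_nonneg m))
  refine le_trans (le_of_eq ?_) (mul_le_mul_of_nonneg_left h2 h3)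
  ring

lemma hh_LDens {e : ℝ} (he : 0 < e) : ∀ᶠ x : ℝ in atTop, 2 * hh_Sand (DB x) e ≤ e := by
  have h1 : Tendsto (fun x : ℝ => Real.pi * e ^ 2 / 2 * (x ^ (1 / 1000 : ℝ)) ^ 2) atTop atTop :=
    Tendsto.const_mul_atTop (by positivity)
      ((tendsto_pow_atTop two_ne_zero).comp (tendsto_rpow_atTop (by norm_num)))
  have h2 := (Real.tendsto_exp_neg_atTop_nhds_zero.comp h1).eventually
    (gt_mem_nhds (half_pos he))
  filter_upwards [h2, ev_pos] with x h hx
  have e1 : hh_Sand (DB x) e = Real.exp (-(Real.pi * e ^ 2 / 2 * (x ^ (1 / 1000 : ℝ)) ^ 2)) := by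
    have : 0 < x ^ (1 / 1000 : ℝ) := Real.rpow_pos_of_pos (by linarith) _
    rw [hh_Sand, DB, Real.rpow_neg (by linarith)]
    congr 2
    field_simp
  rw [e1]
  have h' : Real.exp (-(Real.pi * e ^ 2 / 2 * (x ^ (1 / 1000 : ℝ)) ^ 2)) < e / 2 := h
  linarith

lemma pick_LDens {p q w l ε : ℝ} (hp : 0 < p) (hq : 0 < q) (hε : 0 < ε) :
    ∃ e : ℝ, 0 < e ∧ e ≤ 1 / 2 ∧ e ≤ p ∧ e ≤ q ∧
      (w + e) * (l + 2 * e) ≤ (1 - e) * (1 - e) * (w * l + ε) := by
  have c : Continuous fun e : ℝ => (1 - e) * (1 - e) * (w * l + ε) - (w + e) * (l + 2 * e) := by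
    fun_prop
  have h1 : ∀ᶠ e : ℝ in 𝓝 0, 0 < (1 - e) * (1 - e) * (w * l + ε) - (w + e) * (l + 2 * e) :=
    (c.tendsto 0).eventually (lt_mem_nhds (by linarith))
  have h2 : ∀ᶠ e : ℝ in 𝓝 0, e < 1 / 2 := gt_mem_nhds (by norm_num)
  have h3 : ∀ᶠ e : ℝ in 𝓝 0, e < p := gt_mem_nhds hp
  have h4 : ∀ᶠ e : ℝ in 𝓝 0, e < q := gt_mem_nhds hq
  obtain ⟨e, ⟨a1, a2, a3, a4⟩, a5⟩ := (((h1.and (h2.and (h3.and h4))).filter_mono
    (nhdsWithin_le_nhds (s := Set.Ioi 0))).and self_mem_nhdsWithin).exists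
  exact ⟨e, a5, a2.le, a3.le, a4.le, by linarith⟩

theorem ldens : LDensStmt := by
  classical
  intro f g a b a' b' w ha hab hb hw hg hfg hf hD ε hε
  obtain ⟨e, e0, e1, e2, e3, e4⟩ := pick_LDens (w := w) (l := b - a) (sub_pos.2 ha) (sub_pos.2 hb) hε
  filter_upwards [hg, hfg, hf, hD e e0, hh_LDens e0, eventually_ge_atTop (Real.exp 1), ev_pos]
    with x h1 h2 h3 h4 h5 h6 hx X
  have x0 : 0 < x := by linarith
  have L1 : 1 ≤ Real.log x := by
    rw [← Real.log_exp 1]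
    exact Real.log_le_log (Real.exp_pos 1) h6
  have L0 : 0 < Real.log x := by linarith
  have eL : e ≤ e * Real.log x := le_mul_of_one_le_right e0.le L1
  obtain ⟨S, hS⟩ : ∃ S : Finset ℕ,
      S = (Icc 1 X).filter fun m : ℕ => x ^ a ≤ (m : ℝ) ∧ (m : ℝ) ≤ x ^ b := ⟨_, rfl⟩
  have k := core_LDens (α := (a - e) * Real.log x) (β := (b + e) * Real.log x)
    (B := (w + e) / Real.log x) (DB_pos x0) e0.le e1
    (mul_le_mul_of_nonneg_right (by linarith) L0.le) h1 S (fun m hm => by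
      rw [hS] at hm
      obtain ⟨m1, m2, m3⟩ := mem_filter.1 hm
      have m0 : (0 : ℝ) < m := by exact_mod_cast (mem_Icc.1 m1).1
      have a1 := Real.log_le_log (Real.rpow_pos_of_pos x0 a) m2
      have a2 := Real.log_le_log m0 m3
      rw [Real.log_rpow x0] at a1 a2
      exact ⟨(mem_Icc.1 m1).1, by linarith, by linarith⟩)
    fun v v1 v2 => by
      refine (h4 _ ?_ ?_).trans (le_of_eq (by ring))
      · rw [Real.rpow_def_of_pos x0]
        refine Real.exp_le_exp.2 (le_trans ?_ v1)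
        rw [mul_comm]
        exact mul_le_mul_of_nonneg_right (by linarith) L0.le
      · rw [Real.rpow_def_of_pos x0]
        refine Real.exp_le_exp.2 (v2.trans ?_)
        rw [mul_comm (Real.log x)]
        exact mul_le_mul_of_nonneg_right (by linarith) L0.le
  have e5 : (w + e) / Real.log x * ((b + e) * Real.log x - (a - e) * Real.log x) =
      (w + e) * (b - a + 2 * e) := by
    field_simp
    ring
  rw [e5] at k
  have s0 : 0 ≤ ∑ m ∈ S, g x m / m := sum_nonneg fun m _ => div_nonneg (h1 m) (Nat.cast_nonneg m)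
  have s1 : ∑ m ∈ Icc 1 X, f x m / m ≤ ∑ m ∈ S, g x m / m := by
    rw [hS, sum_filter]
    refine sum_le_sum fun m _ => ?_
    split_ifs with h
    · exact div_le_div_of_nonneg_right (h2 m) (Nat.cast_nonneg m)
    · rw [not_not.1 fun k => h (h3 m k), zero_div]
  have s2 : (1 - e) * (1 - e) * ∑ m ∈ S, g x m / m ≤
      (1 - e) * (1 - 2 * hh_Sand (DB x) e) * ∑ m ∈ S, g x m / m :=
    mul_le_mul_of_nonneg_right (mul_le_mul_of_nonneg_left (by linarith) (by linarith)) s0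
  have s3 : 0 < (1 - e) * (1 - e) := mul_pos (by linarith) (by linarith)
  exact s1.trans (le_of_mul_le_mul_left (s2.trans (k.trans e4)) s3)

end Pool.Agent.MP_c853c5_nt.L

end

section

set_option autoImplicit false

open Finset Filter

namespace Pool.Agent.MP_c853c5_nt.L

open Pool.Agent.MP_c853c5_nt.Z

lemma log_gap_Fin {a b : ℝ} (ha : 0 < a) (hab : a ≤ b) : (b - a) / b ≤ Real.log b - Real.log a := by
  have hb : 0 < b := ha.trans_le hab
  have h := Real.one_sub_inv_le_log_of_pos (div_pos hb ha)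
  rw [Real.log_div hb.ne' ha.ne', inv_div] at h
  rwa [sub_div, div_self hb.ne']

lemma log_far_Fin {x n d : ℝ} (hx : 0 < x) (hn : 0 < n) (hn2 : n ≤ 2 * x) (hd : 0 ≤ d)
    (h : n + d ≤ x ∨ x + d ≤ n) : d / (2 * x) ≤ |Real.log x - Real.log n| := by
  rcases h with h | h
  · refine le_trans ?_ ((log_gap_Fin hn (by linarith)).trans (le_abs_self _))
    exact div_le_div₀ (by linarith) (by linarith) hx (by linarith)
  · rw [abs_sub_comm]
    refine le_trans ?_ ((log_gap_Fin hx (by linarith)).trans (le_abs_self _))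
    exact div_le_div₀ (by linarith) (by linarith) hn hn2

lemma gg_le_Fin {x t z w : ℝ} (hx : 1 ≤ x) (ht : t ≤ 1) (hw : 0 ≤ w) (h : w ≤ |z| * x ^ t) :
    gg (x ^ (-t)) z ≤ x * Real.exp (-(3 * w ^ 2)) := by
  have x0 : 0 < x := by linarith
  unfold gg
  rw [Real.rpow_neg x0.le, inv_inv]
  refine mul_le_mul ?_ (Real.exp_le_exp.2 (neg_le_neg ?_)) (Real.exp_pos _).le x0.le
  · simpa using Real.rpow_le_rpow_of_exponent_le hx ht
  · have h1 : w ^ 2 ≤ z ^ 2 * (x ^ t) ^ 2 := by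
      have := pow_le_pow_left₀ hw h 2
      rwa [mul_pow, sq_abs] at this
    rw [inv_pow, div_inv_eq_mul, mul_assoc]
    exact mul_le_mul Real.pi_gt_three.le h1 (sq_nonneg _) Real.pi_pos.le

lemma ev_small_Fin {k c : ℝ} (hk : 0 < k) (hc : 0 < c) :
    ∀ᶠ y : ℝ in atTop, y ^ 2 * Real.exp (-(3 * (y ^ k / 6) ^ 2)) < c := by
  have h1 := (tendsto_rpow_mul_exp_neg_mul_atTop_nhds_zero (1 / k) (1 / 12) (by norm_num)).comp
    (tendsto_rpow_atTop (show 0 < 2 * k by linarith))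
  filter_upwards [h1.eventually (gt_mem_nhds hc), eventually_gt_atTop 0] with y h2 hy
  have e1 : (y ^ (2 * k)) ^ (1 / k) = y ^ 2 := by
    rw [← Real.rpow_mul hy.le, ← Real.rpow_natCast]
    congr 1
    field_simp
    norm_num
  have e2 : -(1 / 12) * y ^ (2 * k) = -(3 * (y ^ k / 6) ^ 2) := by
    rw [mul_comm 2 k, Real.rpow_mul hy.le, Real.rpow_two]
    ring
  simpa only [Function.comp, e1, e2] using h2

theorem fin : FinStmt := by
  intro t c θ ht ht1 hc hθ h
  obtain ⟨s, hs1, hsθ, hk⟩ : ∃ s : ℝ, s ≤ 1 ∧ s ≤ θ ∧ 0 < s - 1 + t :=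
    ⟨min θ 1, min_le_right _ _, min_le_left _ _, by
      have := lt_min hθ (show 1 - t < 1 by linarith)
      linarith⟩
  obtain ⟨x₀, hx₀⟩ := eventually_atTop.1 h
  filter_upwards [eventually_ge_atTop x₀, ev_pos,
    ev_small_Fin hk (show 0 < c / 5 by positivity)] with y hy0 hy hsm
  by_contra hne
  have y0 : 0 < y := by linarith
  have p0 : 0 < y ^ s := Real.rpow_pos_of_pos y0 s
  have p1 : y ^ s ≤ y := by simpa using Real.rpow_le_rpow_of_exponent_le hy.le hs1
  have p2 : y ^ s ≤ y ^ θ := Real.rpow_le_rpow_of_exponent_le hy.le hsθ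
  obtain ⟨x, hx⟩ : ∃ x : ℝ, x = y + y ^ s / 2 := ⟨_, rfl⟩
  have x1 : y ≤ x := by linarith
  have x2 : x ≤ 3 / 2 * y := by linarith
  have x0 : 0 < x := by linarith
  have x3 : 1 < x := by linarith
  obtain ⟨E, hE⟩ : ∃ E : ℝ, E = Real.exp (-(3 * (y ^ (s - 1 + t) / 6) ^ 2)) := ⟨_, rfl⟩
  have E0 : 0 < E := by rw [hE]; exact Real.exp_pos _
  rw [← hE] at hsm
  have a1 : ∀ n ∈ Ioc ⌊x / 2⌋₊ ⌊2 * x⌋₊,
      prm n * gg (x ^ (-t)) (Real.log x - Real.log n) ≤ x * E := by
    intro n hn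
    obtain ⟨n1, n2⟩ := (mem_win x0.le).1 hn
    change (if n.Prime then (1 : ℝ) else 0) * _ ≤ _
    split_ifs with hp
    · rw [one_mul, hE]
      refine gg_le_Fin x3.le ht1.le (by positivity) ?_
      have b1 : (n : ℝ) + y ^ s / 2 ≤ x ∨ x + y ^ s / 2 ≤ n := by
        rcases le_or_gt (n : ℝ) y with e | e
        · exact Or.inl (by linarith)
        · have : y + y ^ θ ≤ n := not_lt.1 fun e' => hne ⟨n, hp, e, e'⟩
          exact Or.inr (by linarith)
      have b2 := log_far_Fin x0 (by linarith) n2 (by positivity) b1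
      have b3 : y ^ s / y / 6 ≤ y ^ s / 2 / (2 * x) := by
        rw [div_div, div_div]
        exact div_le_div_of_nonneg_left p0.le (by positivity) (by linarith)
      have b4 : y ^ t ≤ x ^ t := Real.rpow_le_rpow y0.le x1 ht.le
      have b5 : y ^ (s - 1 + t) / 6 = y ^ s / y / 6 * y ^ t := by
        rw [Real.rpow_add y0, Real.rpow_sub_one y0.ne']
        ring
      rw [b5]
      exact mul_le_mul (b3.trans b2) b4 (by positivity) (abs_nonneg _)
    · rw [zero_mul]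
      positivity
  have a2 : ((Ioc ⌊x / 2⌋₊ ⌊2 * x⌋₊).card : ℝ) ≤ 2 * x := by
    rw [Nat.card_Ioc]
    exact (Nat.cast_le.2 (Nat.sub_le _ _)).trans (Nat.floor_le (by positivity))
  have a3 : SS x (x ^ (-t)) prm ≤ 2 * x * (x * E) := by
    refine (sum_le_card_nsmul _ _ _ a1).trans ?_
    rw [nsmul_eq_mul]
    exact mul_le_mul_of_nonneg_right a2 (by positivity)
  have a4 := (hx₀ x (hy0.trans x1)).trans a3
  have l0 : 0 < Real.log x := Real.log_pos x3
  have l1 : Real.log x ≤ x := (Real.log_le_sub_one_of_pos x0).trans (by linarith)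
  rw [← mul_div_assoc, div_le_iff₀ l0] at a4
  have a6 : c ≤ 2 * (x * E) * Real.log x := by
    refine le_of_mul_le_mul_right ?_ x0
    linarith
  have a7 : 2 * (x * E) * Real.log x ≤ 2 * (x * E) * x :=
    mul_le_mul_of_nonneg_left l1 (by positivity)
  have a8 : x ^ 2 * E ≤ (3 / 2 * y) ^ 2 * E :=
    mul_le_mul_of_nonneg_right (pow_le_pow_left₀ x0.le x2 2) E0.le
  have a9 : 0 < y ^ 2 * E := by positivity
  nlinarith

end Pool.Agent.MP_c853c5_nt.L

end
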