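import Pool.Agent.Mg.C853.G6aba3f
import Pool.Agent.Mg.C853.Gdf7c48

/-!
The long sum of a product of blocks: a computable upper bound.
-/

set_option autoImplicit false

open Finset Filter

namespace Pool.Agent.MP_c853c5_nt.L

open Pool.Agent.MP_c853c5_nt.S (Rough Blk bf Mass nn_bf bf_of_mem le_bf bf_le_one rough_one
  mass_zero)

/-- a block with sizes in units of `1 / S` -/
noncomputable def mkB (S lo hi a : ℕ) (b : Option ℕ) : Blk :=
  ⟨lo / S, hi / S, a / S, b.map fun c : ℕ => (c : ℝ) / S⟩

def wM (S a : ℕ) (b : Option ℕ) (m M : ℕ) : ℕ :=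
  if M < m then 0 else
    match b with
    | none => w0 S a m M
    | some c => if c < a then w0 S a m M else min (w0 S a m M) (w1 S a c m M)

lemma cast_max_div (p q S : ℕ) : ((max p q : ℕ) : ℝ) / S = max ((p : ℝ) / S) (q / S) := by
  rw [Nat.cast_max, max_div_div_right (Nat.cast_nonneg S)]

lemma cast_min_div (p q S : ℕ) : ((min p q : ℕ) : ℝ) / S = min ((p : ℝ) / S) (q / S) := by
  rw [Nat.cast_min, min_div_div_right (Nat.cast_nonneg S)]

lemma cast_div_le {p q : ℕ} (S : ℕ) (h : p ≤ q) : (p : ℝ) / S ≤ q / S := by gcongr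

variable {S : ℕ}

lemma wM_ge (hS : 0 < S) {lo hi a m M : ℕ} {b : Option ℕ} (ha : 0 < a) (hm : 0 < m) {β : ℝ}
    (h1 : (m : ℝ) / S ≤ β) (h2 : β ≤ (M : ℝ) / S) :
    GB (mkB S lo hi a b) β ≤ wM S a b m M / VV * β := by
  have S0 : (0 : ℝ) < S := by exact_mod_cast hS
  rw [div_le_iff₀ S0] at h1
  rw [le_div_iff₀ S0] at h2
  have e : ∀ c : ℕ, β / ((c : ℝ) / S) = β * S / c := fun c => by rw [div_div_eq_mul_div]
  have key : ∀ (G : ℝ) (w : ℕ), VV * S * G ≤ w * (β * S) → G ≤ w / VV * β := by
    intro G w h
    rw [div_mul_eq_mul_div, le_div_iff₀ VV_pos]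
    nlinarith
  have y0 : 0 ≤ β * S := (Nat.cast_nonneg m).trans h1
  have g0 := w0_ge (S := S) ha hm h1 h2
  unfold wM
  rw [if_neg (not_lt.2 (by exact_mod_cast h1.trans h2))]
  rcases b with _ | c
  · simp only [GB, mkB, Option.map_none, e]
    exact key _ _ g0
  simp only [GB, mkB, Option.map_some, e, le_div_iff₀ S0]
  have g1 : VV * S * ((if β * S ≤ c then 1 else 0) +
      max 0 (Om (β * S / a - 1) - Om (max (β * S / c) 2 - 1))) ≤ w0 S a m M * (β * S) := by
    refine (mul_le_mul_of_nonneg_left (add_le_add (by split_ifs <;> norm_num)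
      (max_le_max_left 0 (sub_le_self _ ?_))) (by positivity [VV_pos])).trans g0
    exact Om_one ▸ Om_mono (by linarith [le_max_right (β * S / c) 2])
  refine key _ _ ?_
  by_cases hc : c < a
  · rw [if_pos hc]
    exact g1
  · rw [if_neg hc, Nat.cast_min, min_mul_of_nonneg _ _ y0]
    exact le_min g1 (w1_ge ha (not_lt.1 hc) hm h1 h2)

lemma a_ge (hS : 0 < S) {a : ℕ} (ha : S ≤ 200 * a) : 1 / 200 ≤ (a : ℝ) / S := by
  rw [div_le_div_iff₀ (by norm_num) (by exact_mod_cast hS)]
  have : (S : ℝ) ≤ 200 * a := by exact_mod_cast ha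
  linarith

lemma dens_wM (hS : 0 < S) {lo hi a : ℕ} (b : Option ℕ) (ha : S ≤ 200 * a) {p q : ℕ} {β₁ β₂ : ℝ}
    (h1 : (p : ℝ) / S ≤ max β₁ 0) (h2 : β₂ ≤ (q : ℝ) / S) :
    Dens (fun x => bf x (mkB S lo hi a b)) β₁ β₂ (wM S a b (max p (max lo a)) (min q hi) / VV) := by
  refine dens_bf (a_ge hS ha) (by simp only [mkB]; positivity) (by positivity)
    fun β g1 g2 g3 g4 g5 => wM_ge hS (by omega) (by omega) ?_ ?_
  · rw [cast_max_div, cast_max_div]
    exact max_le (h1.trans (max_le g1 (le_trans (by simp only [mkB]; positivity) g3)))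
      (max_le g3 g5)
  · rw [cast_min_div]
    exact le_min (g2.trans h2) g4

def lgP (l u : ℕ) : ℕ := if u ≤ l then 0 else lgU 60 l u

lemma lgP_ge {l : ℕ} (hl : 0 < l) (u : ℕ) :
    Real.log ((((max l u : ℕ) : ℝ) / S) / ((l : ℝ) / S)) ≤ lgP l u / VV := by
  rcases Nat.eq_zero_or_pos S with rfl | hS
  · simp only [Nat.cast_zero, div_zero, Real.log_zero]
    positivity
  have S0 : (S : ℝ) ≠ 0 := by exact_mod_cast hS.ne'
  rw [div_div_div_cancel_right₀ S0, le_div_iff₀ VV_pos, mul_comm]
  unfold lgP
  split_ifs with e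
  · rw [max_eq_left e, div_self (by exact_mod_cast hl.ne')]
    simp
  · rw [max_eq_right (by omega)]
    exact lgU_ge 60 hl (by omega)

/-- the logarithmic mass of the sizes in `(l, u]` -/
def muN (S a : ℕ) (b : Option ℕ) (l u : ℕ) : ℕ :=
  if u ≤ max l a then 0 else if u ≤ 2 * a then
    match b with
    | none => lgP (max l a) u
    | some c => lgP (max l a) (min u c)
  else cd (wM S a b (max l a) u * (u - max l a)) S

lemma lm_muN (hS : 0 < S) {a : ℕ} (b : Option ℕ) (ha : S ≤ 200 * a) (l u : ℕ) :
    LM (fun x => bf x (mkB S l u a b)) (muN S a b l u / VV) := by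
  have S0 : (0 : ℝ) < S := by exact_mod_cast hS
  have hlo : 0 ≤ (mkB S l u a b).lo := by simp only [mkB]; positivity
  have e : max (mkB S l u a b).lo (mkB S l u a b).a = ((max l a : ℕ) : ℝ) / S :=
    (cast_max_div l a S).symm
  have m0 : 0 < max l a := by omega
  have le : ∀ᶠ x : ℝ in atTop, ∀ n, bf x (mkB S l u a b) n ≤ bf x (mkB S l u a b) n :=
    Eventually.of_forall fun _ _ => le_rfl
  unfold muN
  split_ifs with h1 h2
  · exact (lm_empty hlo (e ▸ cast_div_le S h1)).mono le (by simp)
  · have h3 : (mkB S l u a b).hi ≤ 2 * (mkB S l u a b).a := by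
      have := cast_div_le S h2
      push_cast at this
      exact this.trans_eq (mul_div_assoc _ _ _)
    have h4 : 0 < ((max l a : ℕ) : ℝ) / S := div_pos (by exact_mod_cast m0) S0
    rcases b with _ | c
    · exact (lm_prime hlo h3 h4 (cast_div_le S (le_max_left _ u)) e.ge
        (Or.inl (cast_div_le S (le_max_right _ u)))).mono le (lgP_ge m0 u)
    · refine (lm_prime hlo h3 h4 (cast_div_le S (le_max_left _ (min u c))) e.ge ?_).mono le
        (lgP_ge m0 _)
      rcases le_total u c with g | g
      · exact Or.inl (cast_div_le S (by omega))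
      · exact Or.inr ⟨_, rfl, cast_div_le S (by omega)⟩
  · refine (lm_gen (w := wM S a b (max l a) u / VV) (a_ge hS ha) hlo (by positivity)
      (e ▸ cast_div_le S (by omega)) fun β g1 g2 g3 => wM_ge hS (by omega) m0
        (e ▸ max_le g1 g3) g2).mono le ?_
    rw [e, le_div_iff₀ VV_pos]
    refine le_of_eq_of_le ?_ (le_cd _ _)
    rw [Nat.cast_mul, Nat.cast_sub (by omega)]
    simp only [mkB]
    have := VV_pos
    field_simp

lemma fx_muN (hS : 0 < S) {a : ℕ} (b : Option ℕ) (ha : S ≤ 200 * a) {l u r : ℕ} (h : u ≤ l + r) :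
    Fx (fun x => bf x (mkB S l u a b)) (l / S) (l / S + r / S) (muN S a b l u * (1 / VV)) :=
  ⟨pos_bf _, (sup_bf (by simp only [mkB]; positivity)).weak (le_max_left _ _)
    ((cast_div_le S h).trans_eq (by push_cast; ring)), by
      rw [mul_one_div]
      exact lm_muN hS b ha l u,
    by positivity⟩

/-- the masses of the cells of mesh `h` -/
def cells (S a : ℕ) (b : Option ℕ) (hi h : ℕ) : ℕ → ℕ → List ℕ
  | 0, _ => []
  | n + 1, l => if hi ≤ l + h then [muN S a b l hi]
      else muN S a b l (l + h) :: cells S a b hi h n (l + h)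

lemma dec_cells (hS : 0 < S) {a : ℕ} (b : Option ℕ) (ha : S ≤ 200 * a) {hi h r : ℕ} (n : ℕ) :
    ∀ l : ℕ, hi ≤ l + n * h → (h ≤ r ∨ hi ≤ l + r) →
      Dec (h / S) (r / S) (1 / VV) (cells S a b hi h n l) (fun x => bf x (mkB S l hi a b))
        (l / S) := by
  induction n with
  | zero =>
    intro l h1 _
    filter_upwards [ev_pos] with x hx n
    exact bf_le le_rfl fun hn => absurd (hn.2.1.trans_le hn.2.2.1)
      (Real.rpow_le_rpow_of_exponent_le hx.le (cast_div_le S (by omega))).not_gt
  | succ n ih =>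
    intro l h1 h2
    unfold cells
    split_ifs with e
    · exact ⟨_, fun _ => 0, fx_muN hS b ha (by omega), EL.of_eq fun _ => rfl,
        EL.of_eq fun _ => by simp⟩
    · have h3 := ih (l + h) (by rw [add_mul] at h1; omega) (by omega)
      rw [Nat.cast_add, add_div] at h3
      refine ⟨_, _, fx_muN hS b ha (by omega), h3, Eventually.of_forall fun x m => ?_⟩
      rw [ArithmeticFunction.add_apply]
      refine bf_le (add_nonneg (nn_bf _ _ _) (nn_bf _ _ _)) fun hm => ?_
      rcases le_or_gt (m : ℝ) (x ^ (((l + h : ℕ) : ℝ) / S)) with g | g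
      · rw [bf_of_mem (B := mkB S l (l + h) a b) ⟨hm.1, hm.2.1, g, hm.2.2.2⟩]
        linarith [nn_bf x (mkB S (l + h) hi a b) m]
      · rw [bf_of_mem (B := mkB S (l + h) hi a b) ⟨hm.1, g, hm.2.2⟩]
        linarith [nn_bf x (mkB S l (l + h) a b) m]

/-- a block; `neg` means that the lower end is `-1` -/
structure NB where
  neg : Bool
  lo : ℕ
  hi : ℕ
  a : ℕ
  b : Option ℕ

noncomputable def NB.blk (S : ℕ) (B : NB) : Blk :=
  ⟨if B.neg then -1 else B.lo / S, B.hi / S, B.a / S, B.b.map fun c : ℕ => (c : ℝ) / S⟩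

noncomputable def NB.pos (S : ℕ) (B : NB) : Fam := fun x => bf x (mkB S B.lo B.hi B.a B.b)

noncomputable def prP (S : ℕ) (L : List NB) : Fam := fun x => (L.map fun B => B.pos S x).prod

noncomputable def prB (S : ℕ) (L : List NB) : Fam := fun x => (L.map fun B => bf x (B.blk S)).prod

def NB.l (B : NB) : ℕ := max B.lo B.a

def NB.wd (B : NB) : ℕ := B.hi - B.l

def poly (S h : ℕ) : List NB → List ℕ
  | [] => [1]
  | B :: L => pmul (poly S h L) (cells S B.a B.b B.hi h (B.wd / h + 1) B.l)

def base : List NB → ℕ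
  | [] => 0
  | B :: L => B.l + base L

def tops : List NB → ℕ
  | [] => 0
  | B :: L => B.hi + tops L

def spr (h : ℕ) : List NB → ℕ
  | [] => 0
  | B :: L => min h B.wd + spr h L

def wmax : List NB → ℕ
  | [] => 0
  | B :: L => max B.wd (wmax L)

lemma pos_prP (L : List NB) : Pos (prP S L) := by
  induction L with
  | nil => exact Pos.one
  | cons B L ih => exact (pos_bf _).mul ih

lemma pos_prB (L : List NB) : Pos (prB S L) := by
  induction L with
  | nil => exact Pos.one
  | cons B L ih => exact (pos_bf _).mul ih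

lemma sup_prP (L : List NB) : Sup (prP S L) 0 (tops L / S) := by
  induction L with
  | nil => exact Sup.one.weak le_rfl (by simp [tops])
  | cons B L ih =>
    refine ((sup_bf (B := mkB S B.lo B.hi B.a B.b) (by simp only [mkB]; positivity)).mul ih).weak
      (by simp only [mkB]; positivity) ?_
    simp only [mkB, tops, Nat.cast_add, add_div, le_refl]

lemma dec_poly (hS : 0 < S) {h : ℕ} (h0 : 0 < h) (L : List NB) (hL : ∀ B ∈ L, S ≤ 200 * B.a) :
    Dec (h / S) (spr h L / S) ((1 / VV) ^ L.length) (poly S h L) (prP S L) (base L / S) := by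
  induction L with
  | nil =>
    simp only [spr, poly, base, Nat.cast_zero, zero_div, List.length_nil, pow_zero]
    exact Dec.one _
  | cons B L ih =>
    have h1 := dec_cells hS B.b (hL B (by simp)) (hi := B.hi) (h := h) (r := min h B.wd)
      (B.wd / h + 1) B.l (by
        have := Nat.lt_div_mul_add (a := B.wd) h0
        rw [add_mul]
        unfold NB.wd at *
        omega) (by unfold NB.wd; omega)
    have h2 := (ih fun C hC => hL C (by simp [hC])).mul (pos_prP L) _ _ _
      (h1.mono (f := B.pos S) ?_)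
    · simp only [spr, poly, base, Nat.cast_add, add_div, List.length_cons, pow_succ']
      exact h2
    filter_upwards [ev_pos] with x hx m
    refine le_bf (B := mkB S B.lo B.hi B.a B.b) (C := mkB S B.l B.hi B.a B.b)
      (fun m hm => ⟨hm.1, ?_, hm.2.2⟩) m
    have := lt_of_mem hx (by simp only [mkB]; positivity) hm
    simp only [mkB, NB.l, cast_max_div] at this ⊢
    exact this

def finN (S : ℕ) (B : NB) (h r : ℕ) : List ℕ → ℕ → ℕ
  | [], _ => 0
  | c :: v, p => c * wM S B.a B.b (max (S - (p + r)) B.l) (min (S - p) B.hi) + finN S B h r v (p + h)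

lemma mass_fin (hS : 0 < S) {B : NB} (ha : S ≤ 200 * B.a) {h r : ℕ} {s : ℝ} (v : List ℕ) :
    ∀ (f : Fam) (p : ℕ), Dec (h / S) (r / S) s v f (p / S) →
      Mass (fun x => f x * B.pos S x) (finN S B h r v p * s / VV) := by
  have S0 : (0 : ℝ) < S := by exact_mod_cast hS
  induction v with
  | nil =>
    intro f p H
    refine (EL.mul H (pos_bf _)).mass ?_
    simpa [finN] using mass_zero
  | cons c v ih =>
    intro f p ⟨f₀, f₁, h1, h2, h3⟩
    have h4 := ih f₁ (p + h) (by rwa [Nat.cast_add, add_div])
    have h5 := mass_of h1 (by positivity) (dens_wM hS (lo := B.lo) (hi := B.hi) B.b ha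
      (p := S - (p + r)) (q := S - p) ?_ ?_)
    · refine ((h3.mul (pos_bf _)).trans (EL.of_eq fun x => add_mul _ _ _)).mass
        ((h5.add h4).mono (le_of_eq ?_))
      simp only [finN, NB.l]
      push_cast
      ring
    · rcases le_total S (p + r) with g | g
      · simp [Nat.sub_eq_zero_of_le g]
      · refine le_max_of_le_left (le_of_eq ?_)
        rw [Nat.cast_sub g]
        push_cast
        field_simp
    · rw [le_div_iff₀ S0]
      refine le_of_eq_of_le ?_ (sub_le_cast S p)
      field_simp

def core0 (S h : ℕ) (B : NB) (L : List NB) : ℕ :=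
  cd (finN S B h (spr h L) (poly S h L) (base L)) (VV ^ L.length)

/-- the mass of a product of blocks without `1`; the density is taken from `B` -/
def core (S n : ℕ) (B : NB) (L : List NB) : ℕ :=
  if B.hi + tops L < S then 0 else core0 S (wmax L / n + 1) B L

lemma mass_core (hS : 0 < S) (n : ℕ) {B : NB} {L : List NB} (hL : ∀ C ∈ B :: L, S ≤ 200 * C.a) :
    Mass (prP S (B :: L)) (core S n B L / VV) := by
  unfold core
  split_ifs with e
  · refine (mass_short (sup_prP (B :: L)) ?_).mono (by simp)
    rw [div_lt_one (by exact_mod_cast hS)]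
    exact_mod_cast e
  · refine (EL.of_eq fun x => mul_comm _ _).mass ((mass_fin hS (hL B (by simp)) _ _ _
      (dec_poly hS (h := wmax L / n + 1) (Nat.succ_pos _) L
        fun C hC => hL C (by simp [hC]))).mono ?_)
    refine div_le_div_of_nonneg_right (le_of_eq_of_le ?_ (le_cd _ _)) VV_pos.le
    rw [one_div, inv_pow, Nat.cast_pow, div_eq_mul_inv]

/-- the widest block first -/
def pick (B : NB) (acc : List NB) : List NB → NB × List NB
  | [] => (B, acc)
  | C :: L => if C.wd ≤ B.wd then pick B (C :: acc) L else pick C (B :: acc) L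

lemma pick_perm (L : List NB) : ∀ (B : NB) (acc : List NB),
    ((pick B acc L).1 :: (pick B acc L).2).Perm (B :: (acc ++ L)) := by
  induction L with
  | nil => intro B acc; simp [pick]
  | cons C L ih =>
    intro B acc
    unfold pick
    split_ifs
    · exact (ih B _).trans (List.perm_middle.symm.cons B)
    · exact (ih C _).trans ((List.Perm.swap _ _ _).trans (List.perm_middle.symm.cons B))

def go (S n : ℕ) : List NB → List NB → ℕ
  | [], [] => 0
  | [], B :: acc => core S n (pick B [] acc).1 (pick B [] acc).2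
  | B :: L, acc => if B.neg then
        (if B.b.isNone then go S n L acc else 0) + go S n L (⟨false, 0, B.hi, B.a, B.b⟩ :: acc)
      else go S n L (B :: acc)

lemma mass_go (hS : 0 < S) (n : ℕ) (L : List NB) : ∀ acc : List NB,
    (∀ C ∈ L, S ≤ 200 * C.a) → (∀ C ∈ acc, S ≤ 200 * C.a) →
      Mass (fun x => prB S L x * prP S acc x) (go S n L acc / VV) := by
  induction L with
  | nil =>
    intro acc _ h2
    cases acc with
    | nil =>
      refine (EL.of_eq (g := fun _ => 1) fun x => by simp [prB, prP]).mass ?_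
      simpa [go] using mass_short Sup.one one_pos
    | cons B acc =>
      have p := pick_perm acc B []
      refine (EL.of_eq fun x => ?_).mass (mass_core hS n fun C hC => h2 C (p.mem_iff.1 hC))
      simpa [prB, prP] using (p.map fun B => B.pos S x).prod_eq.symm
  | cons B L ih =>
    intro acc h1 h2
    have hB := h1 B (by simp)
    have hL : ∀ C ∈ L, S ≤ 200 * C.a := fun C hC => h1 C (by simp [hC])
    have hp : Pos fun x => prB S L x * prP S acc x := (pos_prB L).mul (pos_prP acc)
    obtain ⟨ng, lo, hi, a, b⟩ := B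
    unfold go
    cases ng with
    | false =>
      refine (EL.of_eq fun x => ?_).mass (ih (_ :: acc) hL (List.forall_mem_cons.2 ⟨hB, h2⟩))
      simp only [prB, prP, List.map_cons, List.prod_cons, NB.pos, NB.blk, mkB, Bool.false_eq_true,
        if_false]
      ring
    | true =>
      have h3 := ih (⟨false, 0, hi, a, b⟩ :: acc) hL (List.forall_mem_cons.2 ⟨hB, h2⟩)
      have h4 : ∀ (x : ℝ) (m : ℕ), m ≠ 1 → bf x (NB.blk S ⟨true, lo, hi, a, b⟩) m ≤
          NB.pos S ⟨false, 0, hi, a, b⟩ x m := fun x m hm =>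
        bf_le (nn_bf _ _ _) fun h => (bf_of_mem (B := mkB S 0 hi a b) ⟨h.1, by
          have := h.1
          simp only [mkB, Nat.cast_zero, zero_div, Real.rpow_zero]
          exact_mod_cast (show 1 < m by omega), h.2.2⟩).ge
      rcases b with _ | c
      · have h5 : EL (fun x => bf x (NB.blk S ⟨true, lo, hi, a, none⟩))
            fun x => 1 + NB.pos S ⟨false, 0, hi, a, none⟩ x := by
          refine Eventually.of_forall fun x m => ?_
          rw [ArithmeticFunction.add_apply]
          by_cases e : m = 1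
          · rw [e, ArithmeticFunction.one_one]
            exact (bf_le_one _ _ _).trans (le_add_of_nonneg_right (nn_bf _ _ _))
          · rw [ArithmeticFunction.one_apply_ne e, zero_add]
            exact h4 x m e
        refine ((EL.of_eq fun x => ?_).trans ((h5.mul hp).trans (EL.of_eq fun x => ?_))).mass
          (((ih acc hL h2).add h3).mono (by simp [add_div]))
        · simp only [prB, List.map_cons, List.prod_cons, mul_assoc]
        · simp only [prP, List.map_cons, List.prod_cons]
          ring
      · have h5 : EL (fun x => bf x (NB.blk S ⟨true, lo, hi, a, some c⟩))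
            fun x => NB.pos S ⟨false, 0, hi, a, some c⟩ x := by
          refine Eventually.of_forall fun x m => ?_
          by_cases e : m = 1
          · exact bf_le (nn_bf _ _ _) fun h =>
              absurd (e ▸ rough_one x _) (h.2.2.2.2 _ rfl)
          · exact h4 x m e
        refine ((EL.of_eq fun x => ?_).trans ((h5.mul hp).trans (EL.of_eq fun x => ?_))).mass
          (h3.mono (by simp))
        · simp only [prB, List.map_cons, List.prod_cons, mul_assoc]
        · simp only [prP, List.map_cons, List.prod_cons]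
          ring

/-- an upper bound, in units of `1 / VV`, for the mass of a product of blocks; the widest fixed
block is cut into about `n` cells -/
def massN (S n : ℕ) (L : List NB) : ℕ := go S n L []

theorem massN_sound (hS : 0 < S) (n : ℕ) (L : List NB) (h : ∀ B ∈ L, S ≤ 200 * B.a) :
    Mass (fun x => (L.map fun B => bf x (B.blk S)).prod) (massN S n L / VV) :=
  (EL.of_eq fun x => by simp [prB, prP]).mass (mass_go hS n L [] h (by simp))

end Pool.Agent.MP_c853c5_nt.L
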