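import Pool.Agent.Mg.C853.G4e93ae
import Pool.Agent.MP_c853c5_nt.X.M2D
import Pool.Agent.Mg.C853.Gade651
import Pool.Agent.Mg.C853.Gdf7c48
import Pool.Agent.Mg.C853.G266d34

section

/-!
Soundness of the second order mass bound.
-/

set_option autoImplicit false

open Finset Filter

namespace Pool.Agent.MP_c853c5_nt.X

open Pool.Agent.MP_c853c5_nt.S Pool.Agent.MP_c853c5_nt.REG Pool.Agent.MP_c853c5_nt.L

/-! ### differences -/

lemma difN_eq (d : ℕ) (D : List ℕ) : D.length ≤ d + 1 → ∀ (s : ℕ) (σ : ℝ), (s : ℝ) / SC = max σ 0 →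
    (difN (d + 1) D s : ℝ) = (d + 1).factorial * SC ^ (d + 1) *
      dif (D.map fun x : ℕ => (x : ℝ) / SC) (tp (d + 1)) σ := by
  induction D with
  | nil =>
    intro _ s σ h
    have : ((d + 1).factorial : ℝ) ≠ 0 := by positivity
    have := SC_pos.ne'
    rw [show difN (d + 1) [] s = s ^ (d + 1) from rfl, List.map_nil, dif, tp, ← h, div_pow]
    push_cast
    field_simp
  | cons x D ih =>
    intro hl s σ h
    rw [List.length_cons] at hl
    have h1 := ih (by omega) s σ h
    have h2 := ih (by omega) (s - x) (σ - x / SC) (by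
      have x0 : (0 : ℝ) ≤ x / SC := by positivity
      rcases le_total s x with e | e
      · rw [Nat.sub_eq_zero_of_le e, max_eq_right]
        · simp
        · linarith [le_max_left σ 0, cast_div_le SC e]
      · rw [Nat.cast_sub e, sub_div, h]
        have := cast_div_le SC e
        rw [h] at this
        rcases le_total σ 0 with g | g
        · rw [max_eq_right g] at this ⊢
          rw [max_eq_right (by linarith)]
          linarith
        · rw [max_eq_left g] at this ⊢
          rw [max_eq_left (by linarith)])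
    have h3 : difN (d + 1) D (s - x) ≤ difN (d + 1) D s := by
      rw [← Nat.cast_le (α := ℝ), h1, h2]
      refine mul_le_mul_of_nonneg_left (dif_mono' _ (fun y hy => ?_) _ (by simp; omega)
        (sub_le_self _ (by positivity))) (by positivity)
      obtain ⟨z, -, rfl⟩ := List.mem_map.1 hy
      positivity
    rw [show difN (d + 1) (x :: D) s = cnd (Nat.beq s 0) 0
      (difN (d + 1) D s - force (s - x) (difN (d + 1) D)) from rfl, force_eq, cnd_eq, List.map_cons,
      dif, mul_sub, ← h1, ← h2]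
    split_ifs with e
    · rw [Nat.beq_eq] at e
      simp [e]
    · exact Nat.cast_sub h3

lemma difN_ge (D : List ℕ) (s : ℕ) (σ : ℝ) (h : (s : ℝ) / SC = max σ 0) :
    D.length.factorial * SC ^ D.length *
      dif (D.map fun x : ℕ => (x : ℝ) / SC) (tp D.length) σ ≤ difN D.length D s := by
  cases D with
  | nil =>
    rw [show difN ([] : List ℕ).length [] s = s ^ 0 from rfl]
    simp only [List.length_nil, List.map_nil, dif, tp]
    split_ifs <;> simp
  | cons x D => exact (difN_eq D.length (x :: D) le_rfl s σ h).ge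

lemma eU_ge (p : ℕ) {q : ℕ} (hq : 0 < q) : VV * Real.exp (-((p : ℝ) / q)) ≤ eU p q := by
  have q0 : (0 : ℝ) < q := by exact_mod_cast hq
  have h1 := Real.quadratic_le_exp_of_nonneg (x := (p : ℝ) / q) (by positivity)
  rw [eU, force_eq, Real.exp_neg]
  refine le_trans ?_ (le_cd _ _)
  refine (mul_le_mul_of_nonneg_left (inv_anti₀ (by positivity) h1) VV_pos.le).trans_eq ?_
  simp only [Nat.mul_eq, Nat.add_eq, VV_eq]
  push_cast
  field_simp
  ring

/-! ### the fields -/

variable {S : NS} {A : ℕ → Finset ℕ} {r : ℕ}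

/-- lower and upper bound of a block -/
def mW (W i : ℕ) : ℕ := fT W i % 4294967296

def uW (W i : ℕ) : ℕ := fT W i >>> 32

noncomputable def sW (k W t : ℕ) : ℝ :=
  if t < k ∧ 20000 ≤ mW W t then 2 * SC / ((mW W t + uW W t : ℕ) : ℝ) else 0

lemma sW_nn (k W t : ℕ) : 0 ≤ sW k W t := by
  unfold sW
  split_ifs <;> positivity

lemma loR_lt (i T : ℕ) : loR (get S.lo i) T < 16777216 := by
  have := get_lt S.lo i
  rw [loR, force_eq, mx_eq, Nat.pred_eq_sub_one, Nat.sub_eq]
  omega

lemma fT_mkW (hk : S.k ≤ 16) (V : ℕ) {i : ℕ} (hi : i < S.k) : fT (mkW S V S.k) i = wOf S V i := by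
  have e : ∀ n, mkW S V n = ∑ j ∈ range n, wOf S V j * (2 ^ 64) ^ j := fun n => by
    induction n with
    | zero => rfl
    | succ n ih => rw [sum_range_succ, ← ih, add_comm (mkW S V n), ← pow_mul, ← Nat.shiftLeft_eq]; rfl
  show mkW S V S.k >>> (64 * i) % 2 ^ 64 = _
  rw [Nat.shiftRight_eq_div_pow, pow_mul, e, fld_sum _ _ _ _ fun j => j, filter_eq',
    if_pos (mem_range.2 hi), sum_singleton]
  refine (sum_le_card_nsmul _ _ (2 ^ 57) fun j _ => ?_).trans_lt ?_
  · have := get_lt S.hi j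
    have := loR_lt (S := S) j (fT V j)
    rw [wOf, force_eq, Nat.add_eq, Nat.shiftLeft_eq', Nat.shiftLeft_eq, Nat.sub_eq]
    omega
  · rw [card_range, smul_eq_mul]
    omega

lemma lb_W (hr : S.k = r + 1) (hk : S.k ≤ 16) {i : ℕ} (hi : i < S.k) :
    Lb S i (mW (mkW S (chV S r) S.k) i / SC) (uW (mkW S (chV S r) S.k) i / SC)
      (sW S.k (mkW S (chV S r) S.k) i) := by
  have e := fT_eq hr hk i
  have l1 : ∑ j ∈ S.ch i, S.L j = ((∑ j ∈ chn S i, get S.lo j : ℕ) : ℝ) / SC := by
    rw [Nat.cast_sum, sum_div]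
    rfl
  have l2 : ∑ j ∈ S.ch i, S.H j = ((∑ j ∈ chn S i, get S.hi j : ℕ) : ℝ) / SC := by
    rw [Nat.cast_sum, sum_div]
    rfl
  have b := loR_lt (S := S) i (fT (chV S r) i)
  have b' := loR_ge (get S.lo i) (fT (chV S r) i)
  have e1 : mW (mkW S (chV S r) S.k) i = loR (get S.lo i) (fT (chV S r) i) := by
    rw [mW, fT_mkW hk _ hi, wOf, force_eq, Nat.add_eq, Nat.shiftLeft_eq', Nat.shiftLeft_eq]
    omega
  have e2 : uW (mkW S (chV S r) S.k) i = get S.hi i - fT (chV S r) i % 4294967296 := by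
    rw [uW, fT_mkW hk _ hi, wOf, force_eq, Nat.add_eq, Nat.shiftLeft_eq', Nat.shiftLeft_eq,
      Nat.shiftRight_eq_div_pow, Nat.sub_eq]
    show _ = get S.hi i - Nat.mod _ _
    omega
  have e3 : loR (get S.lo i) (fT (chV S r) i) = 19999 ∨
      loR (get S.lo i) (fT (chV S r) i) + 1 + ∑ j ∈ chn S i, get S.hi j ≤ get S.lo i := by
    rw [loR, force_eq, mx_eq, Nat.pred_eq_sub_one, Nat.sub_eq, Nat.shiftRight_eq,
      Nat.shiftRight_eq_div_pow]
    omega
  unfold sW
  rw [e1, e2]
  generalize loR (get S.lo i) (fT (chV S r) i) = m at *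
  have m0 : (19999 : ℝ) ≤ m := by exact_mod_cast b'
  have e4 : m ≠ 19999 → (m : ℝ) / SC < S.al S.L S.H i := fun c => by
    have c' : (m : ℝ) + 1 + (∑ j ∈ chn S i, get S.hi j : ℕ) ≤ get S.lo i := by
      exact_mod_cast e3.resolve_left c
    rw [NS.al, l2, NS.L, SC_eq_Mass]
    linarith
  refine ⟨by rw [SC_eq_Mass]; linarith, ?_, ?_⟩
  · rw [l1, NS.H]
    refine le_trans ?_ (X.sub_le_cast _ _)
    exact sub_le_sub_left (cast_div_le SC (by omega)) _
  · split_ifs with c
    · refine Or.inr ⟨e4 (by omega), div_pos (by linarith [SC_pos]) (by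
        exact_mod_cast (show 0 < m + _ by omega)), le_of_eq ?_⟩
      have := SC_pos.ne'
      have : (m : ℝ) + (get S.hi i - fT (chV S r) i % 4294967296 : ℕ) ≠ 0 := by positivity
      rw [Nat.cast_add]
      field_simp
    · have : m = 19999 := by omega
      exact Or.inl ⟨rfl, lt_max_of_lt_right (by rw [this, SC_eq_Mass]; norm_num)⟩

/-! ### the blocks -/

lemma rgh_spec {m U z y i l : ℕ} (hm : 0 < m) (hz : 0 < z) (hi : i < 32) (hl : l < 32) :
    (U : ℝ) / SC ≤ max ((m : ℝ) / SC) (z / SC) ∨ (rgh m U z y i l % 32 = i ∧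
      ((1 : ℝ) + max 0 (L.Om (U / SC / (z / SC) - 1))) / (m / SC) ≤
        ((rgh m U z y i l >>> 5 : ℕ) : ℝ) / VV) ∨
    (rgh m U z y i l % 32 = l ∧
      min 1 ((y : ℝ) / SC / (m / SC)) / (z / SC) ≤ ((rgh m U z y i l >>> 5 : ℕ) : ℝ) / VV ∧
      ((1 : ℝ) + max 0 (L.Om (U / SC / (z / SC) - 1))) / (U / SC) ≤
        ((rgh m U z y i l >>> 5 : ℕ) : ℝ) / VV) := by
  by_cases h : U ≤ z
  · exact Or.inl (le_max_of_le_right (cast_div_le SC h))
  right
  have m0 : (0 : ℝ) < m := by exact_mod_cast hm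
  have z0 : (0 : ℝ) < z := by exact_mod_cast hz
  have s0 := SC_pos.ne'
  have e : cnd (Nat.ble U (Nat.mul 2 z)) 1000000000 (gUR U z) = L.gU U z := by
    simp only [gUR, force_eq, cnd_eq, Nat.ble_eq, lgR_eq, L.gU]
    rfl
  have g := gU_ge hz (y := U) le_rfl
  have key : ∀ n : ℕ, 0 < n → ∀ c : ℕ, cd (L.gU U z * 1000000) n ≤ c →
      (1 + max 0 (L.Om (U / z - 1))) / (n / SC) ≤ (c : ℝ) / VV := fun n hn c hc => by
    have n0 : (0 : ℝ) < n := by exact_mod_cast hn
    have g1 := (le_cd _ _).trans (Nat.cast_le.2 hc)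
    rw [div_le_iff₀ n0] at g1
    rw [div_div_eq_mul_div, div_le_div_iff₀ n0 VV_pos, SC_eq_Mass]
    push_cast at g1
    linarith
  rw [div_div_div_cancel_right₀ s0, div_div_div_cancel_right₀ s0]
  simp only [rgh, force_eq, cnd_eq (Nat.ble U z), Nat.ble_eq, if_neg h, e]
  rw [cnd_eq]
  split_ifs with c
  · refine Or.inl ⟨by simp only [Nat.add_eq, Nat.mul_eq]; omega, key m hm _ ?_⟩
    simp only [Nat.add_eq, Nat.mul_eq, Nat.shiftRight_eq_div_pow]
    show cdR _ _ ≤ _
    omega
  · refine Or.inr ⟨by simp only [Nat.add_eq, Nat.mul_eq]; omega, ?_, key U (by omega) _ ?_⟩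
    · have g1 := le_cd (1000000000000000 * min m y) (m * z)
      rw [le_div_iff₀ VV_pos]
      refine le_trans (le_of_eq_of_le ?_ g1) (Nat.cast_le.2 ?_)
      · rw [← div_self m0.ne', min_div_div_right m0.le, SC_eq_Mass, VV_eq]
        push_cast
        field_simp
        ring
      · simp only [Nat.add_eq, Nat.mul_eq, Nat.sub_eq, Nat.shiftRight_eq_div_pow,
          show m - (m - y) = min m y by omega]
        show cdR _ _ ≤ _
        omega
    · simp only [Nat.add_eq, Nat.mul_eq, Nat.sub_eq, Nat.shiftRight_eq_div_pow]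
      show cdR _ _ ≤ _
      omega

lemma blk_ok (hI : Inv S A) (hr : S.k = r + 1) (hk : S.k ≤ 16) (h0 : S.L 0 ≤ S.H 0) {W : ℕ}
    (hl : ∀ j < S.k, Lb S j (mW W j / SC) (uW W j / SC) (sW S.k W j)) {i : ℕ} (hi : i < S.k) :
    Blk2 S A r (sW S.k W) i (blk S W i % 32) ((blk S W i >>> 5 : ℕ) / VV) := by
  have m0 : ∀ j < S.k, 0 < mW W j := fun j hj => by
    have := (hl j hj).ge
    by_contra c
    rw [show mW W j = 0 by omega] at this
    norm_num at this
  have e : blk S W i = if uW W i ≤ mW W i then 0 else if get S.kd i = 0 then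
      32 * cd 1000000000000000 (mW W i) + i else if get S.kd i ≤ 16 then
      rgh (mW W i) (uW W i) (mW W (get S.kd i - 1))
        (mW W (get S.kd i - 1) + (uW W (get S.kd i - 1) - mW W (get S.kd i - 1))) i (get S.kd i - 1)
      else rgh (mW W i) (uW W i) (get S.kd i) (get S.kd i) i 16 := by
    simp only [blk, force_eq, cnd_eq, Nat.ble_eq, Nat.beq_eq]
    rfl
  by_cases c1 : get S.kd i = 0
  · refine blk2_P hI hr h0 hl hi (by positivity) (by rw [NS.kind, kindOf, if_pos c1]) ?_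
    rw [e, if_pos c1]
    split_ifs with c
    · exact Or.inl (cast_div_le SC c)
    · refine Or.inr ⟨by omega, ?_⟩
      rw [Nat.shiftRight_eq_div_pow, show (32 * cd 1000000000000000 (mW W i) + i) / 2 ^ 5 =
        cd 1000000000000000 (mW W i) by omega, one_div_div, le_div_iff₀ VV_pos, VV_eq, SC_eq_Mass]
      refine le_of_eq_of_le ?_ (le_cd _ _)
      push_cast
      ring
  by_cases c2 : get S.kd i ≤ 16
  · have q : S.kind i = .L (get S.kd i - 1) := by rw [NS.kind, kindOf, if_neg c1, if_pos c2]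
    refine blk2_L hI hr h0 hl hi (by positivity) q ?_
    rw [e, if_neg c1, if_pos c2]
    split_ifs with c
    · exact Or.inl (le_max_of_le_left (cast_div_le SC c))
    · rw [← cast_max_div (uW W (get S.kd i - 1)), show max (uW W (get S.kd i - 1)) (mW W (get S.kd i - 1)) =
        mW W (get S.kd i - 1) + (uW W (get S.kd i - 1) - mW W (get S.kd i - 1)) by omega]
      exact rgh_spec (m0 i hi) (m0 _ ((hI.kv i hi).2 _ q).1) (by omega) (by omega)
  · refine blk2_R hI hr h0 hl hi (by positivity) (c := get S.kd i / SC)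
      (by rw [NS.kind, kindOf, if_neg c1, if_neg c2]) ?_
    rw [e, if_neg c1, if_neg c2]
    split_ifs with c
    · exact Or.inl (le_max_of_le_left (cast_div_le SC c))
    · refine (rgh_spec (m0 i hi) (by omega) (by omega) (by omega)).imp_right
        (Or.imp_right fun h => ⟨?_, h.2⟩)
      rw [h.1, sW, if_neg (by omega)]

lemma accB_eq (W n : ℕ) : ∀ K : ℕ → ℕ → ℕ, accB S W n K =
    K (∏ i ∈ range n, blk S W i >>> 5) (∑ i ∈ range n, 1 * 256 ^ (blk S W i % 32)) := by
  induction n with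
  | zero => exact fun _ => rfl
  | succ n ih =>
    intro K
    rw [show accB S W (n + 1) K = force (blk S W n) fun b => accB S W n fun p c =>
      K (p * b >>> 5) (c + one (8 * (b % 32))) from rfl, force_eq, ih, prod_range_succ,
      sum_range_succ, one_eq, pow_mul, one_mul (256 ^ (blk S W n % 32))]
    rfl

lemma eX_ge {W C t : ℕ} (ht : t < S.k) {lo hi : ℕ} (h : lo ≤ hi) :
    VV * Real.exp (-(((C >>> (8 * t) % 256 : ℕ) : ℝ) * sW S.k W t * ((hi : ℝ) / SC - lo / SC))) ≤
      eX W C t (hi - lo) := by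
  have e : eX W C t (hi - lo) = if C >>> (8 * t) % 256 = 0 then 1000000000 else
      if 20000 ≤ mW W t then eU (2 * (C >>> (8 * t) % 256 * (hi - lo))) (mW W t + uW W t)
      else 1000000000 := by
    simp only [eX, force_eq, cnd_eq, Nat.ble_eq, Nat.beq_eq]
    rfl
  rw [e, sW]
  by_cases c1 : C >>> (8 * t) % 256 = 0
  · simp [c1, VV]
  rw [if_neg c1]
  by_cases c2 : 20000 ≤ mW W t
  · rw [if_pos c2, if_pos ⟨ht, c2⟩]
    refine le_of_eq_of_le ?_ (eU_ge _ (by omega))
    have := SC_pos.ne'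
    rw [Nat.cast_mul, Nat.cast_mul, Nat.cast_sub h]
    congr 3
    push_cast
    field_simp
  · rw [if_neg c2, if_neg fun c => c2 c.2]
    simp [VV]

/-- the total slope of the block `t` -/
noncomputable def slp (k W C t : ℕ) : ℝ := ((C >>> (8 * t) % 256 : ℕ) : ℝ) * sW k W t

lemma nodeP_ge (hI : Inv S A) {W C : ℕ} (q : Rw) (hL : ∀ j < S.k, get S.lo j ≤ get S.hi j) (n : ℕ) :
    n < S.k → ∀ (D : List ℕ) (F e a b : ℕ) (K : ℝ), 0 < e → 0 ≤ K →
      K * e ≤ F * (D.length.factorial * SC ^ D.length) →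
      K * (∏ j ∈ range n, fac S.L S.H (slp S.k W C) (fun j => slp S.k W C (get S.par j)) q.u q.v
        (j + 1) / VV) * dif (rowD S.L S.H q.u q.v n (D.map fun x : ℕ => (x : ℝ) / SC))
        (tp (rowD S.L S.H q.u q.v n (D.map fun x : ℕ => (x : ℝ) / SC)).length)
        (((a : ℝ) - b) / SC - ∑ j ∈ range (n + 1), (q.u j * S.L j - q.v j * S.H j)) ≤
      nodeP S W C q.l1 q.l2 n D D.length F e a b := by
  have s0 := SC_pos.ne'
  induction n with
  | zero =>
    intro _ D F e a b K he hK h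
    have e0 : (0 : ℝ) < e := by exact_mod_cast he
    have e1 : nodeP S W C q.l1 q.l2 0 D D.length F e a b = cd (F * difN D.length D
        (a + (cntL 0 q.l2 - cntL 0 q.l1) * get S.hi 0 -
          (b + (cntL 0 q.l1 - cntL 0 q.l2) * get S.lo 0))) e := by
      simp only [nodeP, force_eq]
      rfl
    have g := difN_ge D (a + (cntL 0 q.l2 - cntL 0 q.l1) * get S.hi 0 -
      (b + (cntL 0 q.l1 - cntL 0 q.l2) * get S.lo 0))
      (((a : ℝ) - b) / SC - (q.u 0 * S.L 0 - q.v 0 * S.H 0)) (by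
        have e2 : ((a : ℝ) - b) / SC - (q.u 0 * S.L 0 - q.v 0 * S.H 0) =
            (((a + (cntL 0 q.l2 - cntL 0 q.l1) * get S.hi 0 : ℕ) : ℝ) -
              (b + (cntL 0 q.l1 - cntL 0 q.l2) * get S.lo 0 : ℕ)) / SC := by
          simp only [Rw.u, Rw.v, NS.L, NS.H, Nat.cast_add, Nat.cast_mul]
          ring
        rw [e2]
        generalize a + (cntL 0 q.l2 - cntL 0 q.l1) * get S.hi 0 = x
        generalize b + (cntL 0 q.l1 - cntL 0 q.l2) * get S.lo 0 = y
        rcases le_total x y with c | c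
        · rw [Nat.sub_eq_zero_of_le c, max_eq_right (div_nonpos_of_nonpos_of_nonneg
            (sub_nonpos.2 (Nat.cast_le.2 c)) SC_pos.le)]
          simp
        · rw [Nat.cast_sub c, max_eq_left (div_nonneg (sub_nonneg.2 (Nat.cast_le.2 c)) SC_pos.le)])
    have g0 := dif_nonneg (D.map fun x : ℕ => (x : ℝ) / SC) (fun y hy => by
      obtain ⟨z, -, rfl⟩ := List.mem_map.1 hy
      positivity) (((a : ℝ) - b) / SC - (q.u 0 * S.L 0 - q.v 0 * S.H 0))
    rw [e1, prod_range_zero, mul_one, rowD, zero_add, sum_range_one]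
    refine le_trans ?_ (le_cd _ _)
    rw [List.length_map] at g0 ⊢
    rw [le_div_iff₀ e0, Nat.cast_mul]
    nlinarith [mul_le_mul_of_nonneg_right h g0, mul_le_mul_of_nonneg_left g (Nat.cast_nonneg F)]
  | succ n ih =>
    intro hn D F e a b K he hK h
    have w0 := hL (n + 1) hn
    have g1 := eX_ge (W := W) (C := C) hn w0
    have g2 := eX_ge (W := W) (C := C) ((hI.par (n + 1) (by omega) hn).trans hn) w0
    have g3 : VV * gw (slp S.k W C (n + 1)) (slp S.k W C (get S.par (n + 1))) (S.L (n + 1))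
        (S.H (n + 1)) (S.H (n + 1)) (S.H (n + 1)) ≤
        eX W C (n + 1) (get S.hi (n + 1) - get S.lo (n + 1)) := by
      rw [gw, sub_self, mul_zero, sub_zero]
      exact g1
    have g4 : VV * gw (slp S.k W C (n + 1)) (slp S.k W C (get S.par (n + 1))) (S.L (n + 1))
        (S.H (n + 1)) (S.L (n + 1)) (S.L (n + 1)) ≤
        eX W C (get S.par (n + 1)) (get S.hi (n + 1) - get S.lo (n + 1)) := by
      rw [gw, sub_self, mul_zero, neg_zero, zero_sub]
      exact g2
    have g5 : S.H (n + 1) - S.L (n + 1) = ((get S.hi (n + 1) - get S.lo (n + 1) : ℕ) : ℝ) / SC := by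
      rw [Nat.cast_sub w0, sub_div]
      rfl
    have g6 : q.u (n + 1) + q.v (n + 1) = ((cntL (n + 1) q.l1 - cntL (n + 1) q.l2 +
        (cntL (n + 1) q.l2 - cntL (n + 1) q.l1) : ℕ) : ℝ) := (Nat.cast_add _ _).symm
    have e1 : nodeP S W C q.l1 q.l2 (n + 1) D D.length F e a b =
        if cntL (n + 1) q.l1 = cntL (n + 1) q.l2 then
          nodeP S W C q.l1 q.l2 n D D.length (F * ((get S.hi (n + 1) - get S.lo (n + 1)) *
            (eX W C (get S.par (n + 1)) (get S.hi (n + 1) - get S.lo (n + 1)) +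
              eX W C (n + 1) (get S.hi (n + 1) - get S.lo (n + 1)))))
            (e * 2000000000000000000000000) a b
        else nodeP S W C q.l1 q.l2 n ((cntL (n + 1) q.l1 - cntL (n + 1) q.l2 +
            (cntL (n + 1) q.l2 - cntL (n + 1) q.l1)) * (get S.hi (n + 1) - get S.lo (n + 1)) :: D)
          (D.length + 1) (F * (2 * (eX W C (get S.par (n + 1)) (get S.hi (n + 1) - get S.lo (n + 1))
            + (eX W C (n + 1) (get S.hi (n + 1) - get S.lo (n + 1)) -
              eX W C (get S.par (n + 1)) (get S.hi (n + 1) - get S.lo (n + 1))))))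
          (e * 2000000000000000000000000 * ((cntL (n + 1) q.l1 - cntL (n + 1) q.l2 +
            (cntL (n + 1) q.l2 - cntL (n + 1) q.l1)) * (D.length + 1)))
          (a + (cntL (n + 1) q.l2 - cntL (n + 1) q.l1) * get S.hi (n + 1))
          (b + (cntL (n + 1) q.l1 - cntL (n + 1) q.l2) * get S.lo (n + 1)) := by
      simp only [nodeP, force_eq, cnd_eq, Nat.beq_eq]
      rfl
    rw [e1, rowD, prod_range_succ, sum_range_succ _ (n + 1), mul_comm (∏ j ∈ range n, _),
      ← mul_assoc, add_comm (∑ j ∈ range (n + 1), _), ← sub_sub, fac, g5, g6]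
    simp only [Nat.cast_eq_zero]
    generalize hG : gw (slp S.k W C (n + 1)) (slp S.k W C (get S.par (n + 1))) (S.L (n + 1))
      (S.H (n + 1)) (S.H (n + 1)) (S.H (n + 1)) = G at *
    generalize hG' : gw (slp S.k W C (n + 1)) (slp S.k W C (get S.par (n + 1))) (S.L (n + 1))
      (S.H (n + 1)) (S.L (n + 1)) (S.L (n + 1)) = G' at *
    have G0 : 0 ≤ G := hG ▸ (Real.exp_pos _).le
    have G1 : 0 ≤ G' := hG' ▸ (Real.exp_pos _).le
    generalize eX W C (n + 1) (get S.hi (n + 1) - get S.lo (n + 1)) = x at *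
    generalize eX W C (get S.par (n + 1)) (get S.hi (n + 1) - get S.lo (n + 1)) = y at *
    generalize get S.hi (n + 1) - get S.lo (n + 1) = w at *
    have v0 := VV_pos
    by_cases c : cntL (n + 1) q.l1 = cntL (n + 1) q.l2
    · rw [if_pos c, if_pos (by omega), if_pos (by omega),
        show q.u (n + 1) * S.L (n + 1) - q.v (n + 1) * S.H (n + 1) = 0 by simp [Rw.u, Rw.v, c],
        sub_zero]
      refine ih (by omega) D _ _ a b _ (by omega) (by positivity) ?_
      have := mul_le_mul h (mul_le_mul_of_nonneg_left (add_le_add g4 g3) (Nat.cast_nonneg w))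
        (by positivity) (by positivity)
      push_cast
      rw [VV_eq, SC_eq_Mass] at *
      linarith
    · rw [if_neg c, if_neg (by omega), if_neg (by omega)]
      generalize hc : cntL (n + 1) q.l1 - cntL (n + 1) q.l2 +
        (cntL (n + 1) q.l2 - cntL (n + 1) q.l1) = u at *
      have u0 : 0 < u := by omega
      have u1 : (0 : ℝ) < u := by exact_mod_cast u0
      have := ih (by omega) (u * w :: D) (F * (2 * (y + (x - y))))
        (e * 2000000000000000000000000 * (u * (D.length + 1)))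
        (a + (cntL (n + 1) q.l2 - cntL (n + 1) q.l1) * get S.hi (n + 1))
        (b + (cntL (n + 1) q.l1 - cntL (n + 1) q.l2) * get S.lo (n + 1))
        (K * (max G' G / u / VV)) (by positivity) (by positivity) ?_
      · rw [List.map_cons, Nat.cast_mul u, mul_div_assoc (u : ℝ), List.length_cons] at this
        convert this using 4
        simp only [Rw.u, Rw.v, NS.L, NS.H, Nat.cast_add, Nat.cast_mul]
        ring
      · have g7 : VV * max G' G ≤ ((y + (x - y) : ℕ) : ℝ) := by
          rw [mul_max_of_nonneg _ _ v0.le, show y + (x - y) = max y x by omega, Nat.cast_max]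
          exact max_le_max g4 g3
        have := mul_le_mul_of_nonneg_right (mul_le_mul h g7 (by positivity) (by positivity))
          (show (0 : ℝ) ≤ 2 * SC * (D.length + 1) by positivity)
        rw [List.length_cons, Nat.factorial_succ, pow_succ, Nat.cast_mul F, Nat.cast_mul 2]
        generalize ((y + (x - y) : ℕ) : ℝ) = z at *
        refine le_of_eq_of_le ?_ (this.trans_eq ?_)
        · push_cast
          rw [VV_eq, SC_eq_Mass]
          field_simp
          ring
        · push_cast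
          ring

theorem m2_ok (hI : Inv S A) {q : Rw} (hq : ∀ a, Om S A a → q.ok (Y A a)) (hin : q.In S.k)
    (hl : M2 q S < INF) :
    Mass (SF S.k S.kind fun a => Om S A a ∧ ∀ j < S.k, 1 / 50 ≤ a j) ((M2 q S : ℝ) / 10 ^ 9) := by
  obtain ⟨g, e⟩ := grd_lt hl
  rw [Nat.ble_eq] at g
  obtain ⟨r, hr⟩ : ∃ r, S.k = r + 1 := ⟨S.k - 1, by have := hI.pos; omega⟩
  by_cases hz : ∀ j < S.k, get S.lo j ≤ get S.hi j
  swap
  · simp only [not_forall, not_le] at hz
    obtain ⟨j, hj, hz⟩ := hz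
    refine (mass_zero.of_le (Eventually.of_forall fun x n _ => ?_)).mono (by positivity)
    refine (SF_mono (Ω := fun _ => False) (fun a ha => ?_) x n).trans (by simp [SF])
    exact absurd ((ha.1.1 j hj).1.trans (ha.1.1 j hj).2)
      (div_lt_div_of_pos_right (Nat.cast_lt.2 hz) SC_pos).not_ge
  rw [M2, e, force_eq, force_eq, force_eq, accB_eq, force_eq, force_eq, forceL_eq, forceL_eq,
    show Nat.pred S.k = r by rw [hr]; rfl]
  set W := mkW S (chV S r) S.k
  set C := ∑ i ∈ range S.k, 1 * 256 ^ (blk S W i % 32) with hC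
  have hH : ∀ j < S.k, S.L j ≤ S.H j := fun j hj => cast_div_le SC (hz j hj)
  have h1 := mass2 hI hr (σ := sW S.k W) (R := fun i => ((blk S W i >>> 5 : ℕ) : ℝ) / VV)
    (s := slp S.k W C) (τ := fun i => blk S W i % 32) (fun i => by positivity)
    (fun i hi => blk_ok hI hr g (hH 0 hI.pos) (fun j hj => lb_W hr g hj) hi) (sW_nn _ _)
    (fun t => mul_nonneg (Nat.cast_nonneg _) (sW_nn _ _ _)) (fun t _ => le_of_eq ?_) hq hin
    fun j _ _ => hH j (by omega)
  · refine h1.mono ?_
    have h2 := nodeP_ge hI (W := W) (C := C) q hz r (by omega) []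
      (∏ i ∈ range S.k, blk S W i >>> 5) 1 q.c2 q.c1 _ one_pos
      (Nat.cast_nonneg (∏ i ∈ range S.k, blk S W i >>> 5)) (by simp)
    rw [← hr] at h2
    rw [le_div_iff₀ (by norm_num)]
    refine le_of_eq_of_le ?_ h2
    have v0 := VV_pos.ne'
    rw [prod_div_distrib, prod_div_distrib, prod_const, prod_const, card_range, card_range,
      Nat.cast_prod, show (VV : ℝ) ^ S.k = VV ^ r * 10 ^ 9 by rw [hr, pow_succ, VV_eq]; norm_num,
      List.map_nil]
    field_simp
  · rw [slp, Nat.shiftRight_eq_div_pow, pow_mul, hC, show 2 ^ 8 = 256 from rfl,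
      fld_sum 256 t (fun _ => 1) _ _ (by simp; omega), card_eq_sum_ones]

lemma selR_in {rs : List Rw} {k : ℕ} (h : ∀ r ∈ rs, r.In k) : ∀ m, (selR rs m).In k := by
  induction rs with
  | nil => exact fun _ => ⟨by simp [selR], by simp [selR]⟩
  | cons r rs ih =>
    intro m
    have := ih fun q hq => h q (by simp [hq])
    rw [show selR (r :: rs) m = cnd (bit m 0) (r.add (selR rs (Nat.shiftRight m 1)))
      (selR rs (Nat.shiftRight m 1)) from rfl, cnd_eq]
    split_ifs
    exacts [(h r (by simp)).add (this _), this _]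

theorem mn2_ok : MNok MN2 := by
  intro d S A hI hl
  rw [MN2, cnd_eq] at hl ⊢
  split_ifs at hl ⊢
  · exact mn_ok 0 S A hI hl
  · exact m2_ok hI (fun a ha => (selR_ok (fun r hr => ⟨ha.2 r hr, hI.rows r hr⟩) _).1)
      (selR_in hI.rows _) hl

end Pool.Agent.MP_c853c5_nt.X

end

section

/-!
The mass of the cells of a mask.
-/

set_option autoImplicit false

open Finset Filter

namespace Pool.Agent.MP_c853c5_nt.X

open Pool.Agent.MP_c853c5_nt.S Pool.Agent.MP_c853c5_nt.REG Pool.Agent.MP_c853c5_nt.L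

variable (g : Gr) (S : NS) (W C : ℕ)

noncomputable def gp (j : ℕ) : ℕ :=
  eX W C (get S.par j) (get S.hi j - get S.lo j) >>> 13 + 1

noncomputable def gq (j : ℕ) : ℕ := (eX W C j (get S.hi j - get S.lo j) +
  cdR ((eX W C j (get S.hi j - get S.lo j) - eX W C (get S.par j) (get S.hi j - get S.lo j)) *
    (get g.wd j - (get S.hi j - get S.lo j))) (get S.hi j - get S.lo j)) >>> 13 + 1

noncomputable def gw1 (j x : ℕ) : ℕ :=
  get g.h j <<< (13 - b3 g.bs j) * wx (b3 g.bs j) (gp S W C j) (gq g S W C j) x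

noncomputable def prW : ℕ → ℕ → ℕ → ℕ
  | 0, _, _ => 1
  | n + 1, j, c => gw1 g S W C j (c % 2 ^ b3 g.bs j) * prW n (j + 1) (c / 2 ^ b3 g.bs j)

variable {g S W C}

lemma off_add (bs j n : ℕ) : ∃ E, off bs (j + n) = off bs j + E := by
  induction n with
  | zero => exact ⟨0, rfl⟩
  | succ n ih =>
    obtain ⟨E, h⟩ := ih
    exact ⟨E + b3 bs (j + n), by rw [← add_assoc (off bs j), ← h, add_comm (off _ _)]; rfl⟩

lemma prW_eq (c n : ℕ) : ∀ j, prW g S W C n j (c / 2 ^ off g.bs j) =
    ∏ i ∈ range n, gw1 g S W C (j + i) (cx g.bs (j + i) c) := by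
  induction n with
  | zero => exact fun _ => rfl
  | succ n ih =>
    intro j
    rw [prW, Nat.div_div_eq_div_mul, ← pow_add, add_comm (off g.bs j),
      show b3 g.bs j + off g.bs j = off g.bs (j + 1) from rfl, ih, prod_range_succ', mul_comm]
    simp only [add_assoc, add_comm 1]
    rfl

lemma gL_eq {Z e : ℕ} (n : ℕ) : ∀ (j F m P E : ℕ) (v : ℕ → ℕ), off g.bs (j + n) = off g.bs j + E →
    0 < F → (∀ c, v c ≤ m) → Z = 2 ^ (F * 2 ^ E) - 1 →
    gL g S W C Z e n j F (pv F (2 ^ E) v) m P < INF →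
    gL g S W C Z e n j F (pv F (2 ^ E) v) m P =
      cdR (P * ∑ c ∈ range (2 ^ E), v c * prW g S W C n j c) e := by
  induction n with
  | zero =>
    intro j F m P E v h _ _ _ _
    obtain rfl : E = 0 := by simpa using h
    simp [gL, pv, prW]
  | succ n ih =>
    intro j F m P E v h hF hv hZ hl
    obtain ⟨E', h'⟩ := off_add g.bs (j + 1) n
    obtain rfl : E = E' + b3 g.bs j := by
      have : off g.bs (j + 1) = b3 g.bs j + off g.bs j := rfl
      rw [add_assoc, add_comm 1] at h'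
      omega
    have e1 : ∀ V, gL g S W C Z e (n + 1) j F V m P = if b3 g.bs j = 0 then
        gL g S W C Z e n (j + 1) F V m (P * get g.h j <<< (13 - b3 g.bs j) *
          (gp S W C j + gq g S W C j))
        else grd (Nat.beq ((m * (gp S W C j + gq g S W C j) <<< (2 * b3 g.bs j)) >>> F) 0)
          (ctr Z (b3 g.bs j) (gp S W C j) (gq g S W C j) F V fun F' V' => gL g S W C Z e n (j + 1)
            F' V' (m * (gp S W C j + gq g S W C j) <<< (2 * b3 g.bs j))
            (P * get g.h j <<< (13 - b3 g.bs j))) := fun V => by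
      simp only [gL, force_eq, cnd_eq, Nat.beq_eq]
      rfl
    rw [e1] at hl ⊢
    split_ifs at hl ⊢ with c
    · rw [c, add_zero] at hl hZ ⊢
      rw [ih _ _ _ _ _ _ h' hF hv hZ hl, mul_assoc, mul_assoc, mul_sum, mul_sum]
      refine congrArg (cdR · e) (congrArg _ (sum_congr rfl fun x _ => ?_))
      simp only [prW, gw1, c, wx, pow_zero, Nat.mod_one, Nat.div_one]
      ring
    · obtain ⟨g1, g2⟩ := grd_lt hl
      rw [Nat.beq_eq, Nat.shiftRight_eq_div_pow, Nat.div_eq_zero_iff_lt (by positivity),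
        Nat.shiftLeft_eq] at g1
      rw [g2, pow_add] at hl ⊢
      rw [pow_add] at hZ
      have e2 := fun K => ctr_eq (G := 2 ^ E') K hF hv g1
      rw [← hZ] at e2
      rw [e2] at hl ⊢
      rw [ih _ _ _ _ _ _ h' (by positivity) (fun c => ?_) (by rw [hZ]; congr 2; ring) hl, mul_assoc,
        sum_grp, mul_sum]
      · refine congrArg (cdR · e) (congrArg _ (sum_congr rfl fun y _ => ?_))
        rw [sum_mul, mul_sum]
        refine sum_congr rfl fun x hx => ?_
        rw [prW, gw1, mul_comm y, Nat.mul_add_mod, Nat.mod_eq_of_lt (mem_range.1 hx),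
          Nat.mul_add_div (by positivity), Nat.div_eq_of_lt (mem_range.1 hx), add_zero]
        ring
      · rw [Nat.shiftLeft_eq, ← sum_wx, mul_sum]
        exact sum_le_sum fun x _ => Nat.mul_le_mul_right _ (hv _)

/-- the chord -/
lemma gw_chord {s p L H y : ℝ} (h1 : L ≤ y) (h2 : y ≤ H) : gw s p L H y y * (H - L) ≤
    gw s p L H L L * (H - y) + gw s p L H H H * (y - L) := by
  rcases (h1.trans h2).eq_or_lt with e | e
  · rw [le_antisymm h2 (e ▸ h1), e]
    simp
  have w := sub_pos.2 e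
  have := convexOn_exp.2 (Set.mem_univ (-(s * (L - L)) - p * (H - L)))
    (Set.mem_univ (-(s * (H - L)) - p * (H - H))) (div_nonneg (sub_nonneg.2 h2) w.le)
    (div_nonneg (sub_nonneg.2 h1) w.le) (by field_simp; ring)
  simp only [smul_eq_mul] at this
  unfold gw
  rw [show -(s * (y - L)) - p * (H - y) = (H - y) / (H - L) * (-(s * (L - L)) - p * (H - L)) +
    (y - L) / (H - L) * (-(s * (H - L)) - p * (H - H)) by field_simp; ring, ← le_div_iff₀ w]
  refine this.trans_eq ?_
  field_simp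

/-- one cell of one node -/
lemma cell_le {s p L H h n x a b b' : ℝ} (hL : L < H) (hn : H - L ≤ h * n) (hx : 0 ≤ x)
    (hx' : x + 1 ≤ n) (ha : gw s p L H L L ≤ a) (hb : gw s p L H H H ≤ b') (b0 : 0 ≤ b)
    (hb' : (b' - a) * (h * n) ≤ (b - a) * (H - L)) :
    (min (L + (x + 1) * h) H - min (L + x * h) H) *
      (gw s p L H (min (L + x * h) H) (min (L + x * h) H) +
        gw s p L H (min (L + (x + 1) * h) H) (min (L + (x + 1) * h) H)) / 2 ≤
      h / (2 * n) * (a * (2 * (n - 1 - x) + 1) + b * (2 * x + 1)) := by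
  have n0 : 0 < n := by linarith
  have w := sub_pos.2 hL
  have h0 : 0 < h := (mul_pos_iff_of_pos_right n0).1 (w.trans_le hn)
  have a0 : 0 ≤ gw s p L H L L := (Real.exp_pos _).le
  have hn0 : 0 < h * n := mul_pos h0 n0
  have key : ∀ y, L ≤ y → y ≤ H →
      gw s p L H y y * (h * n) ≤ a * (h * n - (y - L)) + b * (y - L) := fun y y1 y2 => by
    have g1 := (gw_chord (s := s) (p := p) y1 y2).trans (add_le_add
      (mul_le_mul_of_nonneg_right ha (sub_nonneg.2 y2))
      (mul_le_mul_of_nonneg_right hb (sub_nonneg.2 y1)))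
    refine le_of_mul_le_mul_right ?_ w
    nlinarith [mul_le_mul_of_nonneg_right g1 hn0.le,
      mul_le_mul_of_nonneg_right hb' (sub_nonneg.2 y1)]
  have x0 : 0 ≤ x * h := mul_nonneg hx h0.le
  have x1 : (x + 1) * h ≤ h * n := by nlinarith
  have a1 := a0.trans ha
  rw [div_mul_eq_mul_div, le_div_iff₀ (by positivity)]
  rcases le_total H (L + x * h) with c | c
  · rw [min_eq_right c, min_eq_right (by nlinarith), sub_self]
    have : 0 ≤ n - 1 - x := by linarith
    simp only [zero_mul, zero_div]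
    positivity
  rw [min_eq_left c]
  have g1 := key (L + x * h) (by linarith) c
  have g2 := key (min (L + (x + 1) * h) H) (le_min (by nlinarith) hL.le) (min_le_right _ _)
  have g3 : L + x * h ≤ min (L + (x + 1) * h) H := le_min (by nlinarith) c
  have g4 := min_le_left (L + (x + 1) * h) H
  generalize min (L + (x + 1) * h) H = u at *
  generalize gw s p L H u u = G at *
  generalize gw s p L H (L + x * h) (L + x * h) = G' at *
  refine le_of_mul_le_mul_right ?_ h0
  have g5 := mul_le_mul_of_nonneg_left (add_le_add g1 g2) (sub_nonneg.2 g3)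
  have g6 := mul_nonneg (sub_nonneg.2 g4) (add_nonneg
    (mul_nonneg a1 (show 0 ≤ 2 * (h * n) - (u - L) - (x + 1) * h by linarith))
    (mul_nonneg b0 (show 0 ≤ u - L + (x + 1) * h by linarith)))
  nlinarith

variable {A : ℕ → Finset ℕ}

/-- the cell `c` inside the box -/
noncomputable def cLo (g : Gr) (S : NS) (c j : ℕ) : ℝ :=
  if j < S.k then min (S.L j + cx g.bs j c * (get g.h j / SC)) (S.H j) else S.L j

noncomputable def cHi (g : Gr) (S : NS) (c j : ℕ) : ℝ :=
  if 1 ≤ j ∧ j < S.k then min (S.L j + (cx g.bs j c + 1) * (get g.h j / SC)) (S.H j) else S.H j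

lemma shr_ge (e : ℕ) : (e : ℝ) ≤ 8192 * ((e >>> 13 + 1 : ℕ) : ℝ) := by
  exact_mod_cast (show e ≤ 8192 * (e >>> 13 + 1) by rw [Nat.shiftRight_eq_div_pow]; omega)

lemma node_le (hI : Inv S A) (hg : g.OK S) {j : ℕ} (h1 : 1 ≤ j) (hj : j < S.k)
    (w0 : get S.lo j ≤ get S.hi j) (c : ℕ) :
    (cHi g S c j - cLo g S c j) * (gw (slp S.k W C j) (slp S.k W C (get S.par j)) (S.L j) (S.H j)
      (cLo g S c j) (cLo g S c j) + gw (slp S.k W C j) (slp S.k W C (get S.par j)) (S.L j) (S.H j)
      (cHi g S c j) (cHi g S c j)) / 2 ≤ gw1 g S W C j (cx g.bs j c) / (2 * VV * SC) := by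
  rw [cHi, cLo, if_pos hj, if_pos ⟨h1, hj⟩]
  have s0 := SC_pos
  have v0 := VV_pos
  have x0 : (0 : ℝ) ≤ cx g.bs j c * (get g.h j / SC) := by positivity
  rcases w0.eq_or_lt with e | e
  · have : S.H j = S.L j := by rw [NS.H, NS.L, e]
    rw [this, min_eq_right (le_add_of_nonneg_right x0), min_eq_right (le_add_of_nonneg_right (by positivity)),
      sub_self, zero_mul, zero_div]
    positivity
  have g1 := eX_ge (W := W) (C := C) hj w0
  have g2 := eX_ge (W := W) (C := C) ((hI.par j h1 hj).trans hj) w0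
  have g3 : VV * gw (slp S.k W C j) (slp S.k W C (get S.par j)) (S.L j) (S.H j) (S.H j) (S.H j) ≤
      eX W C j (get S.hi j - get S.lo j) := by
    rw [gw, sub_self, mul_zero, sub_zero]
    exact g1
  have g4 : VV * gw (slp S.k W C j) (slp S.k W C (get S.par j)) (S.L j) (S.H j) (S.L j) (S.L j) ≤
      eX W C (get S.par j) (get S.hi j - get S.lo j) := by
    rw [gw, sub_self, mul_zero, neg_zero, zero_sub]
    exact g2
  have g5 : S.H j - S.L j = ((get S.hi j - get S.lo j : ℕ) : ℝ) / SC := by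
    rw [Nat.cast_sub w0, sub_div]
    rfl
  have b7 : b3 g.bs j < 8 := Nat.mod_lt _ (by norm_num)
  have x1 : cx g.bs j c + 1 ≤ 2 ^ b3 g.bs j := Nat.mod_lt _ (by positivity)
  have c1 : get S.hi j - get S.lo j ≤ get g.h j * 2 ^ b3 g.bs j := by
    have := hg.cov j h1 hj
    omega
  have w1 : (0 : ℝ) < ((get S.hi j - get S.lo j : ℕ) : ℝ) := Nat.cast_pos.2 (by omega)
  have c2 : ((get S.hi j - get S.lo j : ℕ) : ℝ) ≤ get g.h j * 2 ^ b3 g.bs j := by exact_mod_cast c1
  have p1 := shr_ge (eX W C (get S.par j) (get S.hi j - get S.lo j))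
  have q1 := shr_ge (eX W C j (get S.hi j - get S.lo j) +
    cdR ((eX W C j (get S.hi j - get S.lo j) - eX W C (get S.par j) (get S.hi j - get S.lo j)) *
    (get g.wd j - (get S.hi j - get S.lo j))) (get S.hi j - get S.lo j))
  have q2 := le_cd ((eX W C j (get S.hi j - get S.lo j) -
    eX W C (get S.par j) (get S.hi j - get S.lo j)) * (get g.wd j - (get S.hi j - get S.lo j)))
    (get S.hi j - get S.lo j)
  have q3 := L.sub_le_cast (eX W C j (get S.hi j - get S.lo j))
    (eX W C (get S.par j) (get S.hi j - get S.lo j))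
  rw [Nat.cast_add] at q1
  rw [Nat.cast_mul, hg.wd j hj, Nat.cast_sub c1, ← hg.wd j hj, div_le_iff₀ w1, hg.wd j hj,
    Nat.cast_mul, Nat.cast_pow, Nat.cast_ofNat, ← hg.wd j hj] at q2
  change _ ≤ 8192 * (gp S W C j : ℝ) at p1
  change _ + (cd _ _ : ℝ) ≤ 8192 * (gq g S W C j : ℝ) at q1
  have := cell_le (s := slp S.k W C j) (p := slp S.k W C (get S.par j)) (L := S.L j) (H := S.H j)
    (h := get g.h j / SC) (n := 2 ^ b3 g.bs j) (x := cx g.bs j c)
    (a := 8192 * gp S W C j / VV) (b := 8192 * gq g S W C j / VV)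
    (b' := eX W C j (get S.hi j - get S.lo j) / VV)
    (div_lt_div_of_pos_right (Nat.cast_lt.2 e) s0)
    (by rw [g5, div_mul_eq_mul_div]; exact div_le_div_of_nonneg_right c2 s0.le)
    (Nat.cast_nonneg _) (by exact_mod_cast x1) (by rw [le_div_iff₀ v0]; linarith)
    (by rw [le_div_iff₀ v0]; linarith) (by positivity) ?_
  · refine this.trans_eq ?_
    rw [gw1, wx, Nat.shiftLeft_eq]
    push_cast [Nat.cast_sub (show cx g.bs j c ≤ 2 ^ b3 g.bs j - 1 by omega),
      Nat.cast_sub (Nat.one_le_two_pow (n := b3 g.bs j))]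
    rw [show (8192 : ℝ) = 2 ^ (13 - b3 g.bs j) * 2 ^ b3 g.bs j by
      rw [← pow_add, Nat.sub_add_cancel (by omega)]; norm_num]
    field_simp
  · rw [g5, ← sub_div, ← sub_div, div_mul_eq_mul_div _ (SC : ℝ), div_mul_div_comm,
      div_mul_div_comm]
    refine div_le_div_of_nonneg_right ?_ (by positivity)
    nlinarith [mul_le_mul_of_nonneg_right q1 w1.le, mul_le_mul_of_nonneg_right q3 (sub_nonneg.2 c2),
      mul_le_mul_of_nonneg_right p1 (sub_nonneg.2 c2)]

theorem gdM_ok : MSok gdM := by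
  classical
  intro g S A m d hI hg hl
  obtain ⟨r, hr⟩ : ∃ r, S.k = r + 1 := ⟨S.k - 1, by have := hI.pos; omega⟩
  by_cases hz : ∀ j < S.k, get S.lo j ≤ get S.hi j
  swap
  · simp only [not_forall, not_le] at hz
    obtain ⟨j, hj, hz⟩ := hz
    refine (mass_zero.of_le (Eventually.of_forall fun x n _ => ?_)).mono (by positivity)
    refine (SF_mono (Ω := fun _ => False) (fun a ha => ?_) x n).trans (by simp [SF])
    exact absurd ((ha.1.1.1 j hj).1.trans (ha.1.1.1 j hj).2)
      (div_lt_div_of_pos_right (Nat.cast_lt.2 hz) SC_pos).not_ge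
  rw [gdM, force_eq, force_eq, force_eq, accB_eq, force_eq, force_eq, force_eq,
    show Nat.pred S.k = r by rw [hr]; rfl, hg.hO, one_eq] at hl ⊢
  set W := mkW S (chV S r) S.k
  set C := ∑ i ∈ range S.k, 1 * 256 ^ (blk S W i % 32) with hC
  set v := fun c => (m >>> 31 / 2 ^ (32 * c) % 2 ^ 32) &&& 1 with hv
  have e0 : Nat.land (Nat.shiftRight m 31) (pk (2 ^ g.B) fun _ => 1) = pv 32 (2 ^ g.B) v :=
    pv_land _ _ _ fun _ => by norm_num
  have o1 : off g.bs 1 = 0 := hg.b0
  rw [e0] at hl ⊢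
  rw [gL_eq r 1 32 1 _ g.B v (by rw [o1, zero_add, hg.hB, hr, add_comm]) (by norm_num)
    (fun c => Nat.and_le_right) (by rw [← Nat.shiftLeft_eq]; rfl) hl]
  have hH : ∀ j < S.k, S.L j ≤ S.H j := fun j hj => cast_div_le SC (hz j hj)
  have hR : (0 : ℝ) ≤ ∏ i ∈ range S.k, ((blk S W i >>> 5 : ℕ) : ℝ) / VV :=
    prod_nonneg fun i _ => by positivity
  have s0 : ∀ t, 0 ≤ slp S.k W C t := fun t => mul_nonneg (Nat.cast_nonneg _) (sW_nn _ _ _)
  have hb : ∀ c, SubB S.L S.H r (cLo g S c) (cHi g S c) := fun c => ⟨fun j h1 h2 => by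
      have := SC_pos
      rw [cLo, cHi, if_pos (by omega), if_pos ⟨h1, by omega⟩]
      exact ⟨le_min (le_add_of_nonneg_right (by positivity)) (hH j (by omega)),
        min_le_min_right _ (by gcongr; linarith), min_le_right _ _⟩,
    fun j h1 => ⟨by
      rw [cLo]
      split_ifs
      · rw [show j = 0 by omega, hg.h0]
        simpa using hH 0 hI.pos
      · rfl, if_neg (by omega)⟩⟩
  have h1 := Mass.sum ((range (2 ^ g.B)).filter (onM m)) fun c _ =>
    (subN_reg S A).cell (p := fun j => slp S.k W C (get S.par j)) s0 (fun _ => s0 _) hR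
      (fun lo hi => base2 hI hr (σ := sW S.k W) (τ := fun i => blk S W i % 32)
        (fun i => by positivity)
        (fun i hi => blk_ok hI hr hI.le (hH 0 hI.pos) (fun j hj => lb_W hr hI.le hj) hi)
        (sW_nn _ _) fun t _ => le_of_eq (by
          rw [slp, Nat.shiftRight_eq_div_pow, pow_mul, hC, show 2 ^ 8 = 256 from rfl, fld_sum 256 t
            (fun _ => 1) _ _ (by have := hI.le; simp; omega), card_eq_sum_ones])) (hb c)
  refine (h1.of_le (Eventually.of_forall fun x n _ => ?_)).mono ?_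
  · have e : ∀ (s : Finset ℕ) (F : ℕ → AF), (∑ i ∈ s, F i) n = ∑ i ∈ s, F i n := fun s F => by
      induction s using Finset.induction_on with
      | empty => rfl
      | insert a s ha ih => rw [sum_insert ha, sum_insert ha, ArithmeticFunction.add_apply, ih]
    rw [e]
    simp only [SF, ArithmeticFunction.coe_mk]
    rw [← Nat.cast_sum]
    refine Nat.cast_le.2 ((card_le_card fun μ hμ => ?_).trans card_biUnion_le)
    obtain ⟨g1, ⟨⟨g2, c, g3, g4, g5⟩, g6⟩, g7⟩ := mem_filter.1 hμ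
    refine mem_biUnion.2 ⟨c, mem_filter.2 ⟨mem_range.2 g3, g4⟩,
      mem_filter.2 ⟨g1, ⟨⟨g2, g6⟩, fun j j1 j2 => ?_⟩, g7⟩⟩
    obtain ⟨g8, g9⟩ := g5 j j1 j2
    rw [cLo, cHi, if_pos j2, if_pos ⟨j1, j2⟩]
    push_cast at g8 g9
    rw [add_div, mul_div_assoc] at g8 g9
    exact ⟨(min_le_left _ _).trans g8, le_min g9 (g2.1 j j2).2⟩
  · have v0 := VV_pos
    have := SC_pos
    rw [le_div_iff₀ (by norm_num), ← mul_sum]
    refine le_trans ?_ (le_cd _ _)
    have h2 : ∑ c ∈ (range (2 ^ g.B)).filter (onM m), ∏ j ∈ range r,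
        (gw1 g S W C (j + 1) (cx g.bs (j + 1) c) : ℝ) / (2 * VV * SC) ≤
        (∑ c ∈ range (2 ^ g.B), v c * prW g S W C r 1 c : ℕ) / (2 * VV * SC) ^ r := by
      rw [Nat.cast_sum, sum_div, sum_filter]
      refine sum_le_sum fun c _ => ?_
      split_ifs with q
      · have e1 : v c = 1 := by
          have q' : m.testBit (32 * c + 31) = true := q
          rw [Nat.testBit_eq_decide_div_mod_eq, decide_eq_true_eq] at q'
          rw [hv]
          simp only [Nat.and_one_is_mod]
          rwa [Nat.mod_mod_of_dvd _ (by norm_num), Nat.shiftRight_eq_div_pow,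
            Nat.div_div_eq_div_mul, ← pow_add, add_comm]
        have e2 := prW_eq (g := g) (S := S) (W := W) (C := C) c r 1
        rw [o1, pow_zero, Nat.div_one] at e2
        rw [e1, one_mul, e2, prod_div_distrib, prod_const, card_range, Nat.cast_prod]
        simp only [add_comm 1, le_refl]
      · positivity
    refine (mul_le_mul_of_nonneg_right (mul_le_mul_of_nonneg_left ((sum_le_sum fun c _ =>
      prod_le_prod (fun j hj => ?_) fun j hj => node_le hI hg (by omega)
        (by have := mem_range.1 hj; omega) (hz _ (by have := mem_range.1 hj; omega)) c).trans h2) hR)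
      (by norm_num)).trans_eq ?_
    · have := sub_nonneg.2 ((hb c).1 (j + 1) (by omega) (mem_range.1 hj)).2.1
      unfold gw
      positivity
    · rw [prod_div_distrib, prod_const, card_range, show (VV : ℝ) ^ S.k = VV ^ r * 10 ^ 9 by
        rw [hr, pow_succ, VV_eq]; norm_num, Nat.cast_mul, Nat.cast_prod,
        show Nat.pow 2000000000000000000000000 r = 2000000000000000000000000 ^ r from rfl,
        Nat.cast_pow, show ((2000000000000000000000000 : ℕ) : ℝ) = VV * (2 * VV * SC) by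
          rw [VV_eq, SC_eq_Mass]; norm_num, mul_pow (VV : ℝ)]
      field_simp

end Pool.Agent.MP_c853c5_nt.X

end

section

/-!
The mass of the part of a cell on one side of a hyperplane.
-/

set_option autoImplicit false

open Finset Filter Function

namespace Pool.Agent.MP_c853c5_nt.X

open Pool.Agent.MP_c853c5_nt.S Pool.Agent.MP_c853c5_nt.REG Pool.Agent.MP_c853c5_nt.L

def MQ (S : NS) (Q : Pt → Prop) (m : ℝ) : Prop := Mass (SF S.k S.kind Q) m

variable {g : Gr} {S : NS} {A : ℕ → Finset ℕ} {Q Q' : Pt → Prop} {m m' R : ℝ} {r W C : ℕ}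

lemma MQ.anti (h : MQ S Q' m) (e : ∀ a, Q a → Q' a) : MQ S Q m :=
  h.of_le (Eventually.of_forall fun x n _ => SF_mono e x n)

lemma MQ.zero (e : ∀ a, ¬ Q a) : MQ S Q 0 :=
  mass_zero.of_le (Eventually.of_forall fun x n _ =>
    (SF_mono (Ω := fun _ => False) e x n).trans (by simp [SF]))

lemma MQ.or (h : MQ S Q m) (h' : MQ S Q' m') : MQ S (fun a => Q a ∨ Q' a) (m + m') := by
  classical
  refine (h.add h').of_le (Eventually.of_forall fun x n _ => ?_)
  simp only [SF, ArithmeticFunction.add_apply, ArithmeticFunction.coe_mk]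
  rw [← Nat.cast_add]
  refine Nat.cast_le.2 ((card_le_card fun μ hμ => ?_).trans (card_union_le _ _))
  simp only [mem_union, mem_filter] at hμ ⊢
  tauto

lemma MQ.sum {P : ℕ → Pt → Prop} {w : ℕ → ℝ} (n : ℕ) (h : ∀ c < n, MQ S (P c) (w c)) :
    MQ S (fun a => ∃ c < n, P c a) (∑ c ∈ range n, w c) := by
  induction n with
  | zero => exact MQ.zero (by simp)
  | succ n ih =>
    rw [sum_range_succ]
    refine ((ih fun c hc => h c (by omega)).or (h n (by omega))).anti fun a ⟨c, h1, h2⟩ => ?_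
    rcases Nat.lt_succ_iff_lt_or_eq.1 h1 with e | rfl
    exacts [Or.inl ⟨c, e, h2⟩, Or.inr h2]

lemma subN_and (S : NS) (A : ℕ → Finset ℕ) (Q : Pt → Prop) :
    SubN fun lo hi m => MQ S (fun a => Reg S A lo hi a ∧ Q a) m := by
  refine ⟨fun lo hi j c m m' _ h1 h2 => (h1.or h2).anti fun a ⟨⟨g2, g3⟩, g4⟩ => ?_,
    fun _ _ _ _ h h' => h'.mono h, fun lo hi m h ε hε => ?_⟩
  · rcases le_total (Y A a j) c with e | e
    · refine Or.inl ⟨⟨g2, fun i i1 i2 => ⟨(g3 i i1 i2).1, ?_⟩⟩, g4⟩
      by_cases q : i = j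
      · rwa [q, update_self]
      · rw [update_of_ne q]
        exact (g3 i i1 i2).2
    · refine Or.inr ⟨⟨g2, fun i i1 i2 => ⟨?_, (g3 i i1 i2).2⟩⟩, g4⟩
      by_cases q : i = j
      · rwa [q, update_self]
      · rw [update_of_ne q]
        exact (g3 i i1 i2).1
  · simpa only [add_assoc, add_halves] using h (ε / 2) (by linarith) (ε / 2) (by linarith)

/-! ### the steps of a row -/

section

variable {L H u v : ℕ → ℝ}

lemma rowD_sum (φ : ℝ → ℝ) (h0 : φ 0 = 0) (r : ℕ) : ∀ D, ((rowD L H u v r D).map φ).sum =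
    ∑ j ∈ range r, φ ((u (j + 1) + v (j + 1)) * (H (j + 1) - L (j + 1))) + (D.map φ).sum := by
  induction r with
  | zero => simp [rowD]
  | succ r ih =>
    intro D
    rw [rowD, ih, sum_range_succ]
    split_ifs with c
    · rw [c, zero_mul, h0, add_zero]
    · rw [List.map_cons, List.sum_cons, add_assoc]

lemma rowD_prod (r : ℕ) : ∀ D, (∏ j ∈ range r, fac L H (fun _ => 0) (fun _ => 0) u v (j + 1)) *
    (rowD L H u v r D).prod = (∏ j ∈ range r, (H (j + 1) - L (j + 1))) * D.prod := by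
  induction r with
  | zero => simp [rowD]
  | succ r ih =>
    intro D
    rw [rowD, prod_range_succ, prod_range_succ, mul_right_comm, ih, fac]
    split_ifs with c
    · simp only [gw, zero_mul, neg_zero, sub_zero, Real.exp_zero]
      ring
    · simp only [gw, zero_mul, neg_zero, sub_zero, Real.exp_zero, max_self, List.prod_cons]
      field_simp

lemma rowD_mem (r : ℕ) : ∀ D x, x ∈ rowD L H u v r D ↔ x ∈ D ∨ ∃ j < r,
    u (j + 1) + v (j + 1) ≠ 0 ∧ x = (u (j + 1) + v (j + 1)) * (H (j + 1) - L (j + 1)) := by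
  induction r with
  | zero => simp [rowD]
  | succ r ih =>
    intro D x
    rw [rowD, ih, Nat.exists_lt_succ_right]
    split_ifs with c
    · simp [c]
    · simp only [List.mem_cons, ne_eq, c, not_false_eq_true, true_and]
      rw [or_comm (b := x ∈ D), or_assoc, or_comm (a := x = _)]

end

/-! ### the weights -/

/-- the ends of a cell -/
noncomputable def fL (g : Gr) (S : NS) (c j : ℕ) : ℝ :=
  ((get S.lo j + cx g.bs j c * get g.h j : ℕ) : ℝ) / SC

noncomputable def fH (g : Gr) (S : NS) (c j : ℕ) : ℝ :=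
  ((get S.lo j + (cx g.bs j c + 1) * get g.h j : ℕ) : ℝ) / SC

lemma fH_sub (c j : ℕ) : fH g S c j - fL g S c j = get g.h j / SC := by
  rw [fH, fL]
  push_cast
  ring

noncomputable def gdf (g : Gr) (S : NS) (W C j : ℕ) : ℕ :=
  gp S W C j - gq g S W C j + (gq g S W C j - gp S W C j)

/-- the largest weight on a cell -/
noncomputable def sp (g : Gr) (S : NS) (W C c j : ℕ) : ℝ :=
  8192 * ((wx (b3 g.bs j) (gp S W C j) (gq g S W C j) (cx g.bs j c) + gdf g S W C j : ℕ) : ℝ) /
    (2 * 2 ^ b3 g.bs j * VV)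

lemma node_sup (hI : Inv S A) (hg : g.OK S) {j : ℕ} (h1 : 1 ≤ j) (hj : j < S.k)
    (e : get S.lo j < get S.hi j) (c : ℕ) {y : ℝ} (y1 : fL g S c j ≤ y) (y2 : y ≤ fH g S c j)
    (y3 : y ≤ S.H j) :
    gw (slp S.k W C j) (slp S.k W C (get S.par j)) (S.L j) (S.H j) y y ≤ sp g S W C c j := by
  have s0 := SC_pos
  have v0 := VV_pos
  have w0 := e.le
  have g1 := eX_ge (W := W) (C := C) hj w0
  have g2 := eX_ge (W := W) (C := C) ((hI.par j h1 hj).trans hj) w0
  have g3 : VV * gw (slp S.k W C j) (slp S.k W C (get S.par j)) (S.L j) (S.H j) (S.H j) (S.H j) ≤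
      eX W C j (get S.hi j - get S.lo j) := by
    rw [gw, sub_self, mul_zero, sub_zero]
    exact g1
  have g4 : VV * gw (slp S.k W C j) (slp S.k W C (get S.par j)) (S.L j) (S.H j) (S.L j) (S.L j) ≤
      eX W C (get S.par j) (get S.hi j - get S.lo j) := by
    rw [gw, sub_self, mul_zero, neg_zero, zero_sub]
    exact g2
  have x1 : cx g.bs j c + 1 ≤ 2 ^ b3 g.bs j := Nat.mod_lt _ (by positivity)
  have c1 : get S.hi j - get S.lo j ≤ get g.h j * 2 ^ b3 g.bs j := by
    have := hg.cov j h1 hj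
    omega
  have w1 : (0 : ℝ) < ((get S.hi j - get S.lo j : ℕ) : ℝ) := Nat.cast_pos.2 (by omega)
  have c2 : ((get S.hi j - get S.lo j : ℕ) : ℝ) ≤ get g.h j * 2 ^ b3 g.bs j := by exact_mod_cast c1
  have p1 := shr_ge (eX W C (get S.par j) (get S.hi j - get S.lo j))
  have q1 := shr_ge (eX W C j (get S.hi j - get S.lo j) +
    cdR ((eX W C j (get S.hi j - get S.lo j) - eX W C (get S.par j) (get S.hi j - get S.lo j)) *
    (get g.wd j - (get S.hi j - get S.lo j))) (get S.hi j - get S.lo j))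
  have q2 := le_cd ((eX W C j (get S.hi j - get S.lo j) -
    eX W C (get S.par j) (get S.hi j - get S.lo j)) * (get g.wd j - (get S.hi j - get S.lo j)))
    (get S.hi j - get S.lo j)
  have q3 := L.sub_le_cast (eX W C j (get S.hi j - get S.lo j))
    (eX W C (get S.par j) (get S.hi j - get S.lo j))
  rw [Nat.cast_add] at q1
  rw [Nat.cast_mul, hg.wd j hj, Nat.cast_sub c1, ← hg.wd j hj, div_le_iff₀ w1, hg.wd j hj,
    Nat.cast_mul, Nat.cast_pow, Nat.cast_ofNat, ← hg.wd j hj] at q2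
  change _ ≤ 8192 * (gp S W C j : ℝ) at p1
  change _ + (cd _ _ : ℝ) ≤ 8192 * (gq g S W C j : ℝ) at q1
  obtain ⟨z, rfl⟩ : ∃ z, y = S.L j + z / SC := ⟨(y - S.L j) * SC, by field_simp; ring⟩
  have g5 : S.H j = S.L j + ((get S.hi j - get S.lo j : ℕ) : ℝ) / SC := by
    rw [Nat.cast_sub w0, sub_div, NS.H, NS.L]
    ring
  rw [fL, Nat.cast_add, add_div, ← NS.L, add_le_add_iff_left, div_le_div_iff_of_pos_right s0] at y1
  rw [fH, Nat.cast_add, add_div, ← NS.L, add_le_add_iff_left, div_le_div_iff_of_pos_right s0] at y2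
  have z0 : 0 ≤ z := (Nat.cast_nonneg _).trans y1
  have k := gw_chord (s := slp S.k W C j) (p := slp S.k W C (get S.par j))
    (le_add_of_nonneg_right (div_nonneg z0 s0.le)) y3
  have d1 : (gp S W C j : ℝ) - gq g S W C j ≤ gdf g S W C j :=
    (L.sub_le_cast _ _).trans (Nat.cast_le.2 (Nat.le_add_right _ _))
  have d2 : (gq g S W C j : ℝ) - gp S W C j ≤ gdf g S W C j :=
    (L.sub_le_cast _ _).trans (Nat.cast_le.2 (Nat.le_add_left _ _))
  rw [sp, wx, le_div_iff₀ (by positivity)]
  push_cast [Nat.cast_sub (show cx g.bs j c ≤ 2 ^ b3 g.bs j - 1 by omega),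
    Nat.cast_sub (Nat.one_le_two_pow (n := b3 g.bs j))] at y1 y2 ⊢
  generalize gw _ _ (S.L j) (S.H j) (S.L j + z / SC) _ = G at *
  generalize gw _ _ (S.L j) (S.H j) (S.H j) _ = G1 at *
  generalize gw _ _ (S.L j) (S.H j) (S.L j) _ = G2 at *
  rw [g5, add_le_add_iff_left, div_le_div_iff_of_pos_right s0] at y3
  rw [g5, add_sub_cancel_left, add_sub_cancel_left, add_sub_add_left_eq_sub, ← sub_div,
    ← mul_div_assoc, ← mul_div_assoc, ← mul_div_assoc, ← add_div,
    div_le_div_iff_of_pos_right s0] at k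
  have n0 : (0 : ℝ) < 2 ^ b3 g.bs j := by positivity
  generalize ((get S.hi j - get S.lo j : ℕ) : ℝ) = w at *
  generalize (get g.h j : ℝ) = h at *
  generalize (2 : ℝ) ^ b3 g.bs j = n at *
  generalize (cx g.bs j c : ℝ) = x at *
  generalize (gp S W C j : ℝ) = p at *
  generalize (gq g S W C j : ℝ) = q at *
  generalize (gdf g S W C j : ℝ) = d at *
  have hn : 0 < h * n := w1.trans_le c2
  have k1 : VV * G * w ≤ 8192 * p * (w - z) + eX W C j (get S.hi j - get S.lo j) * z := by
    linear_combination mul_le_mul_of_nonneg_left k v0.le + z * g3 +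
      mul_le_mul_of_nonneg_left (g4.trans p1) (sub_nonneg.2 y3)
  have k2 : (eX W C j (get S.hi j - get S.lo j) - 8192 * p) * (h * n) ≤ 8192 * (q - p) * w := by
    linear_combination w * q1 + q2 + mul_le_mul_of_nonneg_left q3 (sub_nonneg.2 c2) +
      mul_le_mul_of_nonneg_left p1 (sub_nonneg.2 c2)
  have k3 : VV * G * (h * n) ≤ 8192 * (p * (h * n) + (q - p) * z) := by
    refine le_of_mul_le_mul_right ?_ w1
    linear_combination h * n * k1 + z * k2
  have h0 : 0 < h := (mul_pos_iff_of_pos_right n0).1 hn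
  refine le_of_mul_le_mul_right ?_ h0
  linear_combination 2 * k3 + 8192 * mul_le_mul_of_nonneg_left d2 (sub_nonneg.2 y1) +
    8192 * mul_le_mul_of_nonneg_left d1 (sub_nonneg.2 y2)

/-- the weight of a cell -/
noncomputable def cw (g : Gr) (S : NS) (W C r c : ℕ) : ℝ :=
  ∏ j ∈ range r, (gw1 g S W C (j + 1) (cx g.bs (j + 1) c) : ℝ) / (2 * VV * SC)

/-- the largest weight against the mean weight -/
noncomputable def fj (g : Gr) (S : NS) (W C j : ℕ) : ℝ := 1 + gdf g S W C j /
  ((min (gp S W C j) (gq g S W C j) * 2 ^ (b3 g.bs j + 1) + gdf g S W C j : ℕ) : ℝ)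

lemma sp_le (c j : ℕ) : get g.h j / SC * sp g S W C c j ≤
    fj g S W C j * (gw1 g S W C j (cx g.bs j c) / (2 * VV * SC)) := by
  have s0 := SC_pos
  have v0 := VV_pos
  have b7 : b3 g.bs j < 8 := Nat.mod_lt _ (by norm_num)
  have x1 : cx g.bs j c + 1 ≤ 2 ^ b3 g.bs j := Nat.mod_lt _ (by positivity)
  have k : min (gp S W C j) (gq g S W C j) * 2 ^ (b3 g.bs j + 1) + gdf g S W C j ≤
      wx (b3 g.bs j) (gp S W C j) (gq g S W C j) (cx g.bs j c) := by
    obtain ⟨y, hy⟩ := Nat.exists_eq_add_of_le x1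
    rw [wx, gdf, pow_succ, hy, show cx g.bs j c + 1 + y - 1 - cx g.bs j c = y by omega]
    rcases le_total (gp S W C j) (gq g S W C j) with e | e
    · obtain ⟨d, hd⟩ := Nat.exists_eq_add_of_le e
      rw [min_eq_left e, Nat.sub_eq_zero_of_le e, hd, Nat.add_sub_cancel_left]
      nlinarith [Nat.zero_le (d * cx g.bs j c)]
    · obtain ⟨d, hd⟩ := Nat.exists_eq_add_of_le e
      rw [min_eq_right e, Nat.sub_eq_zero_of_le e, hd, Nat.add_sub_cancel_left]
      nlinarith [Nat.zero_le (d * y)]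
  have k0 : 0 < min (gp S W C j) (gq g S W C j) * 2 ^ (b3 g.bs j + 1) + gdf g S W C j :=
    Nat.add_pos_left (Nat.mul_pos (lt_min (Nat.succ_pos _) (Nat.succ_pos _)) (by positivity)) _
  rw [sp, fj, gw1, Nat.shiftLeft_eq]
  generalize min (gp S W C j) (gq g S W C j) * 2 ^ (b3 g.bs j + 1) + gdf g S W C j = M at *
  generalize wx (b3 g.bs j) (gp S W C j) (gq g S W C j) (cx g.bs j c) = w at *
  have k1 : (gdf g S W C j : ℝ) ≤ gdf g S W C j / M * w := by
    rw [div_mul_eq_mul_div, le_div_iff₀ (Nat.cast_pos.2 k0)]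
    exact mul_le_mul_of_nonneg_left (Nat.cast_le.2 k) (Nat.cast_nonneg _)
  push_cast
  rw [show (8192 : ℝ) = 2 ^ (13 - b3 g.bs j) * 2 ^ b3 g.bs j by
    rw [← pow_add, Nat.sub_add_cancel (by omega)]; norm_num]
  refine (le_of_eq ?_).trans ((mul_le_mul_of_nonneg_left (add_le_add_right k1 (w : ℝ))
    (show 0 ≤ get g.h j * 2 ^ (13 - b3 g.bs j) / (2 * VV * SC : ℝ) by positivity)).trans_eq ?_)
  · field_simp
  · ring

/-- the first order bound on the boxes of the state -/
structure GBs (g : Gr) (S : NS) (A : ℕ → Finset ℕ) (r W C : ℕ) (R : ℝ) : Prop where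
  hI : Inv S A
  hg : g.OK S
  hr : S.k = r + 1
  hz : ∀ j < S.k, get S.lo j ≤ get S.hi j
  hR : 0 ≤ R
  base : ∀ lo hi, SubB S.L S.H r lo hi → MQ S (Reg S A lo hi) (R * ∏ j ∈ range r,
    (hi (j + 1) - lo (j + 1)) * gw (slp S.k W C (j + 1)) (slp S.k W C (get S.par (j + 1)))
      (S.L (j + 1)) (S.H (j + 1)) (lo (j + 1)) (hi (j + 1)))

lemma gb_mk (hI : Inv S A) (hg : g.OK S) (hr : S.k = r + 1)
    (hz : ∀ j < S.k, get S.lo j ≤ get S.hi j) (hW : W = mkW S (chV S r) S.k) :
    GBs g S A r W (∑ i ∈ range S.k, 1 * 256 ^ (blk S W i % 32))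
      (∏ i ∈ range S.k, ((blk S W i >>> 5 : ℕ) : ℝ) / VV) :=
  ⟨hI, hg, hr, hz, prod_nonneg fun i _ => by positivity, fun lo hi =>
    base2 hI hr (σ := sW S.k W) (τ := fun i => blk S W i % 32) (fun i => by positivity)
      (fun i hi => blk_ok hI hr hI.le (cast_div_le SC (hz 0 hI.pos))
        (fun j hj => hW ▸ lb_W hr hI.le hj) hi)
      (sW_nn _ _) fun t _ => le_of_eq (by
        rw [slp, Nat.shiftRight_eq_div_pow, pow_mul, show 2 ^ 8 = 256 from rfl, fld_sum 256 t
          (fun _ => 1) _ _ (by have := hI.le; simp; omega), card_eq_sum_ones])⟩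

lemma slp_nn (k W C t : ℕ) : 0 ≤ slp k W C t := mul_nonneg (Nat.cast_nonneg _) (sW_nn _ _ _)

lemma L_le_fL (c j : ℕ) : S.L j ≤ fL g S c j := cast_div_le SC (Nat.le_add_right _ _)

lemma GBs.box (h : GBs g S A r W C R) {lo hi : ℕ → ℝ} {b : ℕ → ℝ}
    (h1 : ∀ j, 1 ≤ j → j ≤ r → S.L j ≤ lo j ∧ lo j ≤ hi j)
    (h2 : ∀ j, 1 ≤ j → j ≤ r → (min (hi j) (S.H j) - min (lo j) (S.H j)) *
      (gw (slp S.k W C j) (slp S.k W C (get S.par j)) (S.L j) (S.H j) (min (lo j) (S.H j))
        (min (lo j) (S.H j)) + gw (slp S.k W C j) (slp S.k W C (get S.par j)) (S.L j) (S.H j)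
        (min (hi j) (S.H j)) (min (hi j) (S.H j))) / 2 ≤ b j) :
    MQ S (Reg S A lo hi) (R * ∏ j ∈ range r, b (j + 1)) := by
  have hH : ∀ j ≤ r, S.L j ≤ S.H j := fun j hj => cast_div_le SC (h.hz j (h.hr ▸ by omega))
  have := (subN_reg S A).cell (p := fun j => slp S.k W C (get S.par j)) (slp_nn _ _ _)
    (fun _ => slp_nn _ _ _ _) h.hR h.base
    (lo := fun j => if 1 ≤ j ∧ j ≤ r then min (lo j) (S.H j) else S.L j)
    (hi := fun j => if 1 ≤ j ∧ j ≤ r then min (hi j) (S.H j) else S.H j)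
    ⟨fun j g1 g2 => by
      simp only [g1, g2, and_self, if_true]
      exact ⟨le_min (h1 j g1 g2).1 (hH j g2), min_le_min_right _ (h1 j g1 g2).2, min_le_right _ _⟩,
      fun j g1 => ⟨if_neg (by omega), if_neg (by omega)⟩⟩
  refine (MQ.anti this fun a ha => ⟨ha.1, fun j g1 g2 => ?_⟩).mono
    (mul_le_mul_of_nonneg_left (prod_le_prod (fun j hj => ?_) fun j hj => ?_) h.hR)
  · have g3 : j ≤ r := by have := h.hr; omega
    simp only [g1, g3, and_self, if_true]
    exact ⟨(min_le_left _ _).trans (ha.2 j g1 g2).1, le_min (ha.2 j g1 g2).2 (ha.1.1.1 j g2).2⟩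
  all_goals
    have g1 : 1 ≤ j + 1 := by omega
    have g2 : j + 1 ≤ r := mem_range.1 hj
    simp only [g1, g2, and_self, if_true]
  · have := sub_nonneg.2 (min_le_min_right (S.H (j + 1)) (h1 _ g1 g2).2)
    unfold gw
    positivity
  · exact h2 _ g1 g2

lemma fL_le (c j : ℕ) : fL g S c j ≤ fH g S c j :=
  sub_nonneg.1 ((fH_sub c j).symm ▸ div_nonneg (Nat.cast_nonneg _) SC_pos.le)

/-- the whole cell -/
theorem GBs.full (h : GBs g S A r W C R) (c : ℕ) :
    MQ S (Reg S A (fL g S c) (fH g S c)) (R * cw g S W C r c) :=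
  h.box (b := fun j => gw1 g S W C j (cx g.bs j c) / (2 * VV * SC))
    (fun j _ _ => ⟨L_le_fL c j, fL_le c j⟩) fun j g1 g2 => by
    have g3 : j < S.k := by have := h.hr; omega
    have := node_le (W := W) (C := C) h.hI h.hg g1 g3 (h.hz j g3) c
    rw [cHi, cLo, if_pos g3, if_pos ⟨g1, g3⟩] at this
    rw [fL, fH]
    push_cast
    rwa [add_div, add_div, mul_div_assoc _ (get g.h j : ℝ), mul_div_assoc _ (get g.h j : ℝ)]

/-- the part of the cell above a hyperplane -/
theorem GBs.row (h : GBs g S A r W C R) (c : ℕ) {u v x : ℕ → ℝ} (hu : ∀ j, 0 ≤ u j)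
    (hv : ∀ j, 0 ≤ v j) (huv : ∀ j, v j = 0 ∨ u j = 0) {κ w z a b δ : ℝ}
    (hx : ∀ j, x j = (v (j + 1) + u (j + 1)) * (get g.h (j + 1) / SC))
    (hw : w = 0 ∨ ∃ j < r, w = x j) (z0 : 0 < z) (z1 : 2 * z < ∑ j ∈ range r, x j)
    (ha : 0 ≤ a) (hb : 0 ≤ b) (h1 : 1 ≤ a * ∑ j ∈ range r, x j ∨ 2 * ∑ j ∈ range r, x j * x j ≤
      a * (27 * z * (∑ j ∈ range r, x j - 2 * z) ^ 2))
    (h2 : 2 ≤ a * (∑ j ∈ range r, x j + w) + b * (∑ j ∈ range r, x j + w - 2 * z))
    (hδ : u 0 * S.H 0 - v 0 * S.L 0 + ∑ j ∈ range r, (u (j + 1) * fH g S c (j + 1) -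
      v (j + 1) * fL g S c (j + 1)) - κ ≤ δ) :
    MQ S (fun y => Reg S A (fL g S c) (fH g S c) y ∧ κ ≤ ∑ j ∈ range S.k, (u j - v j) * Y A y j)
      (R * cw g S W C r c * (∏ j ∈ range r, fj g S W C (j + 1)) *
        (a * max δ 0 + b * max (δ - z) 0)) := by
  have sp0 : ∀ j, 0 ≤ sp g S W C c j := fun j => by
    have := VV_pos
    unfold sp
    positivity
  have K0 : 0 ≤ R * ∏ j ∈ range r, sp g S W C c (j + 1) :=
    mul_nonneg h.hR (prod_nonneg fun _ _ => sp0 _)
  have := (subN_and S A fun y => κ ≤ ∑ j ∈ range S.k, (u j - v j) * Y A y j).multi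
    (L := fL g S c) (H := fH g S c) (s := fun _ => 0) (p := fun _ => 0) (fun _ => le_rfl)
    (fun _ => le_rfl) hv hu huv r _ (u 0 * S.H 0 - v 0 * S.L 0 - κ) [] (fun j _ _ => fL_le c j) K0
    (by simp) fun lo hi hb => ?_
  · refine this.mono ?_
    have e1 := rowD_sum (L := fL g S c) (H := fH g S c) (u := v) (v := u) id rfl r []
    have e2 := rowD_sum (L := fL g S c) (H := fH g S c) (u := v) (v := u) (fun y => y * y)
      (by simp) r []
    have e3 := rowD_prod (L := fL g S c) (H := fH g S c) (u := v) (v := u) r []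
    have e4 := rowD_mem (L := fL g S c) (H := fH g S c) (u := v) (v := u) r []
    simp only [fH_sub, ← hx, List.map_nil, List.sum_nil, add_zero, List.map_id, id, List.prod_nil,
      mul_one, List.not_mem_nil, false_or] at e1 e2 e3 e4
    have x0 : ∀ j, 0 ≤ x j := fun j => (hx j).symm ▸
      mul_nonneg (add_nonneg (hv _) (hu _)) (div_nonneg (Nat.cast_nonneg _) SC_pos.le)
    have hD : ∀ y ∈ rowD (fL g S c) (fH g S c) v u r [], 0 ≤ y := fun y hy => by
      obtain ⟨j, _, _, rfl⟩ := (e4 y).1 hy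
      exact x0 j
    have t := vb_tail (W := w) hD (hw.elim Or.inl fun ⟨j, g1, g2⟩ => ?_) z0 (e1 ▸ z1) ha hb
      (by rwa [e1, e2]) (by rwa [e1]) δ
    · have f0 : 0 ≤ ∏ j ∈ range r, fac (fL g S c) (fH g S c) (fun _ => 0) (fun _ => 0) v u (j + 1) :=
        prod_nonneg fun j _ => by
          have := sub_nonneg.2 (fL_le (g := g) (S := S) c (j + 1))
          have := hu (j + 1)
          have := hv (j + 1)
          unfold fac gw
          split_ifs <;> positivity
      refine (mul_le_mul_of_nonneg_left ((dif_mono _ hD (le_trans (le_of_eq ?_) hδ)).trans t)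
        (mul_nonneg K0 f0)).trans ?_
      · simp only [sum_sub_distrib]
        ring
      rw [← mul_assoc, mul_assoc _ _ (List.prod _), e3, mul_assoc R, mul_assoc R (cw g S W C r c),
        cw, ← prod_mul_distrib, ← prod_mul_distrib]
      refine mul_le_mul_of_nonneg_right (mul_le_mul_of_nonneg_left (prod_le_prod
        (fun j _ => mul_nonneg (sp0 _) (div_nonneg (Nat.cast_nonneg _) SC_pos.le)) fun j _ => ?_)
        h.hR) (by positivity)
      rw [mul_comm, mul_comm _ (fj g S W C _)]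
      exact sp_le c _
    · by_cases e : v (j + 1) + u (j + 1) = 0
      · exact Or.inl (by rw [g2, hx, e, zero_mul])
      · exact Or.inr ((e4 _).2 ⟨j, g1, e, g2⟩)
  simp only [dif, List.length_nil, tp, gw, zero_mul, neg_zero, sub_zero, Real.exp_zero, mul_one]
  split_ifs with q
  · rw [mul_one, mul_assoc, ← prod_mul_distrib]
    refine (h.box (b := fun j => sp g S W C c j * (hi j - lo j))
      (fun j g1 g2 => ⟨(L_le_fL c j).trans (hb.1 j g1 g2).1, (hb.1 j g1 g2).2.1⟩)
      fun j g1 g2 => ?_).anti fun _ ha => ha.1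
    obtain ⟨g3, g4, g5⟩ := hb.1 j g1 g2
    rcases le_or_gt (S.H j) (lo j) with e | e
    · rw [min_eq_right e, min_eq_right (e.trans g4), sub_self, zero_mul, zero_div]
      exact mul_nonneg (sp0 _) (sub_nonneg.2 g4)
    have k := fun y => node_sup (W := W) (C := C) h.hI h.hg g1 (by have := h.hr; omega)
      (Nat.cast_lt.1 ((div_lt_div_iff_of_pos_right SC_pos).1
        (((L_le_fL c j).trans g3).trans_lt e))) c (y := y)
    have k1 := k _ g3 (g4.trans g5) e.le
    have k2 := k _ (g3.trans (le_min g4 e.le)) ((min_le_left _ _).trans g5) (min_le_right _ _)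
    rw [min_eq_left e.le]
    linear_combination 1 / 2 * mul_le_mul_of_nonneg_left (add_le_add k1 k2)
      (sub_nonneg.2 (le_min g4 e.le)) + mul_le_mul_of_nonneg_left (min_le_left (hi j) (S.H j)) (sp0 j)
  rw [mul_zero]
  refine MQ.zero fun y ⟨g1, g2⟩ => q ?_
  rw [h.hr, sum_range_succ'] at g2
  obtain ⟨g3, g4⟩ := g1.1.1.1 0 h.hI.pos
  have g5 : ∑ j ∈ range r, (v (j + 1) * lo (j + 1) - u (j + 1) * hi (j + 1)) ≤
      -∑ j ∈ range r, (u (j + 1) - v (j + 1)) * Y A y (j + 1) := by
    rw [← sum_neg_distrib]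
    refine sum_le_sum fun j hj => ?_
    obtain ⟨g6, g7⟩ := g1.2 (j + 1) (by omega) (by have := h.hr; have := mem_range.1 hj; omega)
    linear_combination mul_le_mul_of_nonneg_left g6 (hv _) + mul_le_mul_of_nonneg_left g7 (hu _)
  rw [NS.H, NS.L]
  linear_combination g2 + g5 + mul_le_mul_of_nonneg_left g3 (hv 0) +
    mul_le_mul_of_nonneg_left g4 (hu 0)

end Pool.Agent.MP_c853c5_nt.X

end
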