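import Pool.Agent.MP_c853c5_nt.X.GzD
import Pool.Agent.Mg.C853.G33b3ec
import Pool.Agent.MP_c853c5_nt.X.GyD
import Pool.Agent.MP_c853c5_nt.X.GvD
import Pool.Agent.Mg.C853.G915c67
import Pool.Agent.MP_c853c5_nt.X.GwD
import Pool.Agent.MP_c853c5_nt.X.ChY
import Pool.Agent.MP_c853c5_nt.X.MzD

section

/-!
The two forms of the mass of the cells agree.
-/

set_option autoImplicit false

open Finset

namespace Pool.Agent.MP_c853c5_nt.X

lemma loZ_eq : loZ = loR := by
  funext l T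
  have : ∀ x : ℕ, max x 20000 - 1 = Nat.add 19999 (Nat.sub x 20000) := fun x => by
    rw [Nat.add_eq, Nat.sub_eq]
    omega
  rw [loR, force_eq, mx_eq, Nat.pred_eq_sub_one, this]
  delta loZ
  rfl

lemma wZ_eq (S : NS) (V i : ℕ) : wZ (get S.lo i) (get S.hi i) (fT V i) = wOf S V i := by
  rw [wOf, force_eq, ← loZ_eq]
  delta wZ
  rfl

lemma mkZ_eq (S : NS) (V n : ℕ) : mkZ S.lo S.hi V n = mkW S V n := by
  simp only [mkZ, mkW, wZ_eq]

lemma lgZ_eq (k : ℕ) : lgZ k = lgR k := by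
  induction k with
  | zero => rfl
  | succ k ih =>
    funext l u
    show cnd _ _ (95310200 + lgZ k _ _) = force (11 * l) fun l' => force (10 * u) fun u' =>
      cnd (Nat.ble u' l') (lg0 l u) (95310200 + lgR k l' u')
    rw [force_eq, force_eq, ih]
    rfl

lemma gUZ_eq : gUZ = gUR := by
  funext M a
  rw [gUR, force_eq, gUZ, lgZ_eq]

lemma rgZ_eq : rgZ = rgh := by
  funext m U z y i l
  simp only [rgh, force_eq, rgZ, rg1, rg2, gUZ_eq]

lemma blZ_eq (S : NS) (W : ℕ) : blZ S.kd W = blk S W := by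
  funext i
  simp only [blk, force_eq, blZ, bl1, bl2, rgZ_eq]
  rfl

lemma accB_Z (S : NS) (W n : ℕ) : ∀ K, accB S W n K = K (acP S.kd W n) (acC S.kd W n) := by
  induction n with
  | zero => exact fun _ => rfl
  | succ n ih =>
    intro K
    show (force (blk S W n) fun b => accB S W n fun p c =>
      K (p * b >>> 5) (c + one (8 * (b % 32)))) = _
    rw [force_eq, ih, ← blZ_eq]
    rfl

lemma eZ_eq : eZ = eX := by
  funext W C t w
  simp only [eX, eU, force_eq, eZ, eY, eW, eV, cnd_eq, Nat.beq_eq, Nat.ble_eq]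
  generalize Nat.mod (Nat.shiftRight C (Nat.mul 8 t)) 256 = n
  rcases n with _ | n
  · simp
  · simp

lemma ctr_Z (Z b p q F V : ℕ) (K : ℕ → ℕ → ℕ) :
    ctr Z b p q F V K = K (F <<< b) (ctZ Z b p q F (F <<< b) V) := by
  rw [ctr, ctZ, wO, wX, rmp_pv, rmp_pv, rmp_pv, force_eq, Nat.shiftLeft_eq]
  rfl

lemma gLZ_eq (g : Gr) (S : NS) (W C Z e n : ℕ) :
    gLZ g.bs g.h g.wd S.par S.lo S.hi W C Z e n = gL g S W C Z e n := by
  simp only [gLZ, gL, force_eq, gS0, gS1, gS2, gS3, eZ_eq, ctr_Z]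
  rfl

theorem gdZ_eq : gdZ = gdM := by
  funext g S m d
  simp only [gdZ, gdW, gdM, force_eq, accB_Z, gLZ_eq, mkZ_eq]
  rfl

theorem gdZ_ok : MSok gdZ := gdZ_eq ▸ gdM_ok

end Pool.Agent.MP_c853c5_nt.X

end

section

/-!
The two forms of the rule with fractional lanes agree.
-/

set_option autoImplicit false

namespace Pool.Agent.MP_c853c5_nt.X

lemma gyN_eq (P Q md e : ℕ) (K : KN) (R : List Nr) :
    gyN P Q md e K (toNL e R) = gaN P Q md e K R := by
  induction R with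
  | nil => rfl
  | cons r R ih =>
    simp only [gyN, gaN, toNL, yP, yM, force_eq, fl] at ih ⊢
    simp only [ih]

lemma gyE_eq (g : Gr) (Z N : ℕ) (K : ℕ → ℕ → ℕ) : gyE g.T g.O Z N K = gaE g Z N K := by
  funext sx W e2 p q F
  simp only [gyE, gaE, yE0, yE1, yE2, yE3, force_eq, cdz, cdv]

lemma gyL_eq (x : Ga) (L : List Rw) : gyL x.g.T x.g.O x.Z x.N (toNL 0 x.R) L = gaL x L := by
  simp only [gyL, gaL, yL, gyN_eq, gyE_eq]

theorem ofY_eq : ofY = ofA := by
  funext p x _ S s K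
  simp only [ofY, ofA, gyL_eq]

lemma gqR_eq (par G : ℕ) (R : List Nr) :
    ∃ L, (∀ K, gqR par G R K = K L) ∧ gyR par G R = toNL 16 L := by
  induction R with
  | nil => exact ⟨[], fun _ => rfl, rfl⟩
  | cons r R ih =>
    obtain ⟨L, h1, h2⟩ := ih
    have e : ∀ K, gqR par G (r :: R) K = force (Nat.mul 12 (d4 G (Nat.div r.a 44))) fun a =>
        force (Nat.mul 12 (d4 G (get par (Nat.div r.a 44)))) fun b => cnd (Nat.beq a b)
          (gqR par G R K) (gqR par G R fun L => K (⟨a, b, r.h, r.up, r.lo, r.U⟩ :: L)) :=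
      fun _ => rfl
    have e' : gyR par G (r :: R) = yR r (gyR par G R) (Nat.mul 12 (d4 G (Nat.div r.a 44)))
      (Nat.mul 12 (d4 G (get par (Nat.div r.a 44)))) := rfl
    simp only [e, e', force_eq, h1, h2, yR]
    cases Nat.beq (Nat.mul 12 (d4 G (Nat.div r.a 44)))
      (Nat.mul 12 (d4 G (get par (Nat.div r.a 44))))
    exacts [⟨_, fun _ => rfl, rfl⟩, ⟨L, fun _ => rfl, rfl⟩]

lemma gyQ_eq (x : Ga) (w R g0 : ℕ) (L : List Nr) (K : ℕ → ℕ → ℕ → ℕ) (c : ℕ) :
    gyQ x.g.T x.g.O x.Z x.N w R g0 (toNL 16 L) K c = gqL x w R g0 L K c := by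
  simp only [gyQ, gqL, yQ0, yQ1, gyN_eq, gyE_eq, force_eq, rowQ, cnd]

theorem gqY_eq : gqY = gqI := by
  funext gd T x _ S s K
  obtain ⟨L, h1, h2⟩ := gqR_eq S.par (low (Nat.shiftRight s 16) (Nat.mul 4 S.k)) x.R.tail
  simp only [gqY, gqI, hdQ, yH0, yH1, yH2, yB, fqB, force_eq, h1, h2, gyQ_eq]

lemma gyU_eq (g : Gr) (S : NS) (W C n : ℕ) :
    gyU g.bs g.h g.wd S.par S.lo S.hi W C g.B n = gaU g S W C n := by
  simp only [gyU, gaU, yU0, yU1, yU2, yU3, force_eq, eZ_eq]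

lemma gyF_eq (g : Gr) (S : NS) (W C n p t c : ℕ) :
    gyF g S W C g.B n p t (Nat.shiftRight 65536 t) c = gaF g S W C n p t c := by
  simp only [gyF, gaF, force_eq, gLZ_eq]
  rfl

theorem gaY_eq : gaY = gaR := by
  funext IT _ ih sg S s
  simp only [gaY, gaR, yA0, force_eq, accB_Z, mkZ_eq]
  congr 2
  funext g
  simp only [yA1, yA2, force_eq, gyU_eq, gyLoop, gaLoop, gyF_eq]

end Pool.Agent.MP_c853c5_nt.X

end

section

/-!
The mass of the cells without long products has the same value.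
-/

set_option autoImplicit false

open Finset

namespace Pool.Agent.MP_c853c5_nt.X

variable {F N : ℕ} {u : ℕ → ℕ}

lemma pv_split (F N M : ℕ) (u : ℕ → ℕ) :
    pv F (N + M) u = 2 ^ (F * N) * pv F M (fun x => u (N + x)) + pv F N u := by
  rw [pv, sum_range_add, add_comm, pv, pv, mul_sum]
  exact congrArg (· + _) (sum_congr rfl fun c _ => by ring)

lemma pv_le {a : ℕ} (h : ∀ c, u c ≤ a) : pv F N u ≤ a * pv F N fun _ => 1 := by
  rw [pv, pv, mul_sum]
  exact sum_le_sum fun c _ => by rw [one_mul]; exact Nat.mul_le_mul_right _ (h c)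

lemma pv_one_lt {a : ℕ} (h : a < 2 ^ F) : a * (pv F N fun _ => 1) < 2 ^ (F * N) := by
  rw [← pv_geo]
  exact Nat.lt_succ_of_le (Nat.mul_le_mul_right _ (by omega))

lemma half_eq {a : ℕ} (h : ∀ c, u c ≤ a) (ha : a < 2 ^ F) :
    Nat.land (gM (F * N)) (pv F (N + N) u) = pv F N u ∧
      Nat.shiftRight (pv F (N + N) u) (F * N) = pv F N fun x => u (N + x) := by
  have g : pv F N u < 2 ^ (F * N) := (pv_le h).trans_lt (pv_one_lt ha)
  rw [pv_split, gM, one_eq]
  constructor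
  · show (2 ^ (F * N) - 1) &&& _ = _
    rw [Nat.and_comm, Nat.and_two_pow_sub_one_eq_mod, Nat.mul_add_mod, Nat.mod_eq_of_lt g]
  · rw [Nat.shiftRight_eq, Nat.shiftRight_eq_div_pow, Nat.mul_add_div (by positivity),
      Nat.div_eq_of_lt g, add_zero]

lemma hv_eq (s : ℕ) (K : ℕ → ℕ → ℕ) (b : ℕ) : ∀ (a c : ℕ → ℕ) (α β : ℕ), (∀ x, a x ≤ α) →
    (∀ x, c x ≤ β) → (β + α * 2 ^ b) * 2 ^ b < 2 ^ s →
    hv s K b (pv s (2 ^ b) a) (pv s (2 ^ b) c) =
      K (∑ x ∈ range (2 ^ b), a x) (∑ x ∈ range (2 ^ b), (c x + x * a x)) := by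
  induction b with
  | zero => intro a c α β _ _ _; simp [hv, pv]
  | succ b ih =>
    intro a c α β ha hc h
    have n0 : 1 ≤ 2 ^ b := Nat.one_le_two_pow
    rw [pow_succ] at h
    have e : ∀ A B, hv s K (b + 1) A B = hv1 (hv s K b) A B b (s * 2 ^ b) (gM (s * 2 ^ b))
        (Nat.shiftRight A (s * 2 ^ b)) := fun A B => by
      rw [← Nat.shiftLeft_eq]
      simp only [hv, force_eq]
      rfl
    have h0 := (Nat.le_mul_of_pos_right _ (by positivity)).trans_lt h
    have h1 := half_eq (F := s) (N := 2 ^ b) ha (by nlinarith)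
    have h2 := half_eq (F := s) (N := 2 ^ b) hc (by omega)
    rw [e, pow_succ, mul_two, hv1, h1.1, h1.2, h2.1, h2.2]
    have := ih (fun x => a x + a (2 ^ b + x)) (fun x => c x + c (2 ^ b + x) + a (2 ^ b + x) * 2 ^ b)
      (α + α) (β + β + α * 2 ^ b) (fun x => add_le_add (ha _) (ha _))
      (fun x => add_le_add (add_le_add (hc _) (hc _)) (Nat.mul_le_mul_right _ (ha _)))
      (by nlinarith [Nat.zero_le (α * 2 ^ b * 2 ^ b)])
    rw [sum_range_add, sum_range_add, ← sum_add_distrib, ← sum_add_distrib]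
    convert this using 2
    · simp only [pv, Nat.add_eq, add_mul, sum_add_distrib]
    · simp only [pv, Nat.add_eq, Nat.shiftLeft_eq', Nat.shiftLeft_eq, add_mul, sum_add_distrib,
        sum_mul, mul_right_comm]
    · exact sum_congr rfl fun x _ => by ring

lemma hf_eq (b p q : ℕ) (a : ℕ → ℕ) :
    hf b p q (∑ x ∈ range (2 ^ b), a x) (∑ x ∈ range (2 ^ b), (0 + x * a x)) =
      ∑ x ∈ range (2 ^ b), wx b p q x * a x := by
  simp only [hf, gM, one_eq, Nat.add_eq, Nat.mul_eq, Nat.sub_eq, mul_sum, ← sum_add_distrib]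
  refine Nat.sub_eq_of_eq_add ?_
  rw [← sum_add_distrib]
  refine sum_congr rfl fun y hy => ?_
  obtain ⟨z, hz⟩ := Nat.exists_eq_add_of_lt (mem_range.1 hy)
  rw [wx, Nat.succ_eq_add_one, pow_succ, hz, show y + z + 1 - 1 - y = z by omega,
    show (y + z + 1) * 2 - 1 = 2 * y + 2 * z + 1 by omega]
  rcases le_total p q with h | h <;> obtain ⟨d, rfl⟩ := Nat.exists_eq_add_of_le h <;>
    rw [Nat.sub_eq_zero_of_le h, Nat.add_sub_cancel_left] <;> ring

def WL.bits : WL → ℕ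
  | .nil => 0
  | .cons b _ _ r => r.bits + b

def WL.pr : WL → ℕ → ℕ
  | .nil, _ => 1
  | .cons b p q r, c => wx b p q (c % 2 ^ b) * r.pr (c / 2 ^ b)

def WL.Pos : WL → Prop
  | .nil => True
  | .cons _ p _ r => 1 ≤ p ∧ r.Pos

lemma rP_cons (b p q : ℕ) (r : WL) : rP (.cons b p q r) = (p + q) * 2 ^ (2 * b) * rP r := by
  rw [← Nat.shiftLeft_eq]
  rfl

lemma pr_grp (b p q : ℕ) (r : WL) (v : ℕ → ℕ) :
    ∑ c ∈ range (2 ^ (WL.cons b p q r).bits), v c * (WL.cons b p q r).pr c =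
      ∑ y ∈ range (2 ^ r.bits),
        (∑ x ∈ range (2 ^ b), v (y * 2 ^ b + x) * wx b p q x) * r.pr y := by
  rw [WL.bits, pow_add, sum_grp]
  refine sum_congr rfl fun y _ => ?_
  rw [sum_mul]
  refine sum_congr rfl fun x hx => ?_
  rw [WL.pr, mul_comm y, Nat.mul_add_mod, Nat.mod_eq_of_lt (mem_range.1 hx),
    Nat.mul_add_div (by positivity), Nat.div_eq_of_lt (mem_range.1 hx), add_zero, mul_assoc]

lemma sum_pr (L : WL) : ∑ c ∈ range (2 ^ L.bits), L.pr c = rP L := by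
  induction L with
  | nil => rfl
  | cons b p q r ih =>
    have := pr_grp b p q r fun _ => 1
    simp only [one_mul, sum_wx, ← mul_sum] at this
    rw [this, ih, rP_cons]

lemma rP_pos {L : WL} (h : L.Pos) : 1 ≤ rP L := by
  induction L with
  | nil => exact le_rfl
  | cons b p q r ih =>
    have := h.1
    have := ih h.2
    rw [rP_cons]
    exact Nat.mul_pos (by positivity) this

lemma tD_eq {μ : ℕ} {v : ℕ → ℕ} (hv' : ∀ c, v c ≤ μ) (L : WL) : ∀ N, L.Pos → μ * rP L < 2 ^ F →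
    tD (pv F (N * 2 ^ L.bits) v) L (F * N) =
      pv F N fun c => ∑ y ∈ range (2 ^ L.bits), v (y * N + c) * L.pr y := by
  induction L with
  | nil => intro N _ _; simp [tD, WL.bits, WL.pr]
  | cons b p q r ih =>
    intro N hp h
    have p1 := hp.1
    have n0 : 1 ≤ 2 ^ b := Nat.one_le_two_pow
    rw [rP_cons, two_mul, pow_add] at h
    have h1 : μ * rP r * 2 ^ b * 2 ^ b < 2 ^ F := by
      nlinarith [Nat.mul_le_mul_left (μ * rP r * 2 ^ b * 2 ^ b) (show 1 ≤ p + q by omega)]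
    have e := ih (N * 2 ^ b) hp.2 (((Nat.le_mul_of_pos_right _ n0).trans
      (Nat.le_mul_of_pos_right _ n0)).trans_lt h1)
    show hv (F * N) (hf b p q) b (tD _ r ((F * N) <<< b)) 0 = _
    rw [Nat.shiftLeft_eq, mul_assoc F, WL.bits, pow_add, mul_comm (2 ^ r.bits), ← mul_assoc N, e]
    set w := fun c => ∑ y ∈ range (2 ^ r.bits), v (y * (N * 2 ^ b) + c) * r.pr y
    have hw : ∀ c, w c ≤ μ * rP r := fun c => by
      rw [← sum_pr, mul_sum]
      exact sum_le_sum fun y _ => Nat.mul_le_mul_right _ (hv' _)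
    have e1 : pv F (N * 2 ^ b) w = pv (F * N) (2 ^ b) fun x => pv F N fun c => w (x * N + c) := by
      simp only [pv, sum_mul]
      rw [mul_comm N, sum_grp]
      exact sum_congr rfl fun x _ => sum_congr rfl fun c _ => by ring
    have e2 : 0 = pv (F * N) (2 ^ b) fun _ => 0 := by simp [pv]
    rw [e1, e2, hv_eq _ _ _ _ _ _ 0 (fun x => pv_le fun c => hw _) (fun _ => le_rfl)
      (by nlinarith [pv_one_lt (N := N) h1]), hf_eq]
    simp only [pv, mul_sum]
    rw [sum_comm]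
    refine sum_congr rfl fun c _ => ?_
    rw [mul_comm (2 ^ b), ← pow_add, ← WL.bits.eq_2 b p q, pr_grp b p q r fun z => v (z * N + c)]
    simp only [w, sum_mul, mul_sum]
    rw [sum_comm]
    refine sum_congr rfl fun y _ => sum_congr rfl fun x _ => ?_
    rw [show y * (N * 2 ^ b) + (x * N + c) = (y * 2 ^ b + x) * N + c by ring]
    ring

/-- from the bottom only -/
noncomputable def bU0 (Z : ℕ) (K : ℕ → ℕ) : WL → ℕ → ℕ → ℕ → ℕ
  | .nil, _, V, _ => K V
  | .cons b p q r, F, V, m => grd (Nat.beq ((m * fW b p q) >>> F) 0)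
      (bU0 Z K r (F <<< b) (ctZ Z b p q F (F <<< b) V) (m * fW b p q))

lemma grd_congr' {b : Bool} {x y : ℕ} (h : b = true → x = y) : grd b x = grd b y := by
  cases b
  exacts [rfl, h rfl]

lemma beq_shr (a F : ℕ) : Nat.beq (a >>> F) 0 = true ↔ a < 2 ^ F := by
  rw [Nat.beq_eq, Nat.shiftRight_eq_div_pow, Nat.div_eq_zero_iff_lt (by positivity)]

lemma bU0_eq {Z : ℕ} (K : ℕ → ℕ) (L : WL) : ∀ (F μ m : ℕ) (v : ℕ → ℕ), L.Pos → 0 < F →
    (∀ c, v c ≤ μ) → m ≤ μ → μ * rP L < 2 ^ F → Z = 2 ^ (F * 2 ^ L.bits) - 1 →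
    bU0 Z K L F (pv F (2 ^ L.bits) v) m = K (∑ c ∈ range (2 ^ L.bits), v c * L.pr c) := by
  induction L with
  | nil => intro F μ m v _ _ _ _ _ _; simp [bU0, pv, WL.bits, WL.pr]
  | cons b p q r ih =>
    intro F μ m v hp hF hv' hm h hZ
    have e0 : fW b p q = (p + q) * 2 ^ (2 * b) := Nat.shiftLeft_eq _ _
    rw [rP_cons, ← mul_assoc] at h
    have h1 := (Nat.le_mul_of_pos_right _ (rP_pos hp.2)).trans_lt h
    have h2 : m * fW b p q ≤ μ * ((p + q) * 2 ^ (2 * b)) := e0 ▸ Nat.mul_le_mul_right _ hm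
    have e := ctr_eq (G := 2 ^ r.bits) (fun _ V => V) hF hv' h1
    rw [WL.bits, pow_add] at hZ
    rw [← hZ, ctr_Z] at e
    rw [pr_grp, bU0, (beq_shr _ _).2 (h2.trans_lt h1), WL.bits, pow_add, e, Nat.shiftLeft_eq]
    refine ih _ _ _ _ hp.2 (by positivity) (fun c => ?_) h2 (h.trans_le (Nat.pow_le_pow_right
      two_pos (Nat.le_mul_of_pos_right _ (by positivity)))) (by rw [hZ]; congr 2; ring)
    rw [← sum_wx, mul_sum]
    exact sum_le_sum fun x _ => Nat.mul_le_mul_right _ (hv' _)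

lemma wM_eq (F b G : ℕ) (hF : 0 < F) : wM (2 ^ (F * (G * 2 ^ b)) - 1) F (F * 2 ^ b) =
    pv (F * 2 ^ b) G fun _ => 2 ^ F - 1 := by
  have f2 : 1 < 2 ^ (F * 2 ^ b) := Nat.one_lt_two_pow (by positivity)
  have e1 : wN (2 ^ (F * (G * 2 ^ b)) - 1) (F * 2 ^ b) = pv (F * 2 ^ b) G fun _ => 1 := by
    show _ / (one _ - 1) = _
    rw [one_eq, show F * (G * 2 ^ b) = F * 2 ^ b * G by ring, ← pv_geo, Nat.add_sub_cancel,
      Nat.mul_div_cancel_left _ (by omega)]
  show _ <<< F - _ = _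
  rw [e1, Nat.shiftLeft_eq, ← Nat.mul_sub_one, pv, pv, sum_mul]
  exact sum_congr rfl fun _ _ => by ring

lemma bU_eq {Z : ℕ} (K : ℕ → ℕ) (L : WL) : ∀ (f F m : ℕ) (v : ℕ → ℕ), L.Pos → 0 < F → f ≤ F →
    (∀ c, v c ≤ 2 ^ f - 1) → m ≤ 2 ^ f - 1 → Z = 2 ^ (F * 2 ^ L.bits) - 1 →
    bU Z K L f F (pv F (2 ^ L.bits) v) m = bU0 Z K L F (pv F (2 ^ L.bits) v) m := by
  induction L with
  | nil => exact fun _ _ _ _ _ _ _ _ _ _ => rfl
  | cons b p q r ih =>
    intro f F m v hp hF hf' hv' hm hZ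
    show Nat.rec (motive := fun _ => ℕ) (K (tD _ (.cons b p q r) F))
      (fun _ _ => bU1 (bU Z K r) Z F _ b p q (m * fW b p q)) (rP (.cons b p q r) >>> (F - f)) = _
    cases e : rP (.cons b p q r) >>> (F - f) with
    | zero =>
      have h : (2 ^ f - 1) * rP (.cons b p q r) < 2 ^ F := by
        have := (beq_shr _ _).1 (Nat.beq_eq ▸ e)
        rw [← Nat.add_sub_cancel' hf', pow_add]
        exact Nat.mul_lt_mul_of_le_of_lt (Nat.sub_le _ _) this (by positivity)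
      have e1 := tD_eq hv' _ 1 hp h
      rw [one_mul, mul_one] at e1
      rw [bU0_eq K _ _ _ _ _ hp hF hv' hm h hZ, e1]
      simp [pv]
    | succ n =>
      show bU1 _ _ _ _ _ _ _ _ = _
      rw [bU1, bU0, force_eq]
      refine grd_congr' fun g => ?_
      have g1 := (beq_shr _ _).1 g
      have f1 : F ≤ F * 2 ^ b := Nat.le_mul_of_pos_right _ (by positivity)
      rw [WL.bits, pow_add] at hZ
      have e2 := wM_eq F b (2 ^ r.bits) hF
      rw [← hZ] at e2
      rw [Nat.shiftLeft_eq', Nat.shiftLeft_eq, ctZ, e2, Nat.land_eq, pv_land _ _ _ fun _ =>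
        lt_of_lt_of_le (Nat.sub_lt (by positivity) one_pos) (Nat.pow_le_pow_right two_pos f1)]
      exact ih _ _ _ _ hp.2 (by positivity) f1 (fun c => Nat.and_le_right)
        (Nat.le_sub_one_of_lt g1) (by rw [hZ]; congr 2; ring)

variable (g : Gr) (S : NS) (W C : ℕ)

noncomputable def wl : ℕ → ℕ → WL
  | 0, _ => .nil
  | n + 1, j => if b3 g.bs j = 0 then wl n (j + 1)
      else .cons (b3 g.bs j) (gp S W C j) (gq g S W C j) (wl n (j + 1))

noncomputable def wp : ℕ → ℕ → ℕ → ℕ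
  | 0, _, P => P
  | n + 1, j, P => wp n (j + 1) (if b3 g.bs j = 0 then P * get g.h j <<< (13 - b3 g.bs j) *
      (gp S W C j + gq g S W C j) else P * get g.h j <<< (13 - b3 g.bs j))

lemma wlZ_eq (n : ℕ) : ∀ j P K, wlZ g.bs g.h g.wd S.par S.lo S.hi W C n j P K =
    K (wp g S W C n j P) (wl g S W C n j) := by
  induction n with
  | zero => exact fun _ _ _ => rfl
  | succ n ih =>
    intro j P K
    have e : wlZ g.bs g.h g.wd S.par S.lo S.hi W C (n + 1) j P K =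
        wl2 (wlZ g.bs g.h g.wd S.par S.lo S.hi W C n) K (j + 1)
          (P * get g.h j <<< (13 - b3 g.bs j)) (b3 g.bs j) (gp S W C j) (gq g S W C j) := by
      rw [gp, gq, ← eZ_eq]
      simp only [wlZ, force_eq]
      rfl
    rw [e, wl, wp]
    cases b3 g.bs j with
    | zero => exact ih _ _ _
    | succ b => exact ih _ _ _

lemma gL_wl (Z e n : ℕ) : ∀ j F V m P, gL g S W C Z e n j F V m P =
    bU0 Z (fun U => cdR (wp g S W C n j P * U) e) (wl g S W C n j) F V m := by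
  induction n with
  | zero => exact fun _ _ _ _ _ => rfl
  | succ n ih =>
    intro j F V m P
    have e1 : gL g S W C Z e (n + 1) j F V m P = if b3 g.bs j = 0 then
        gL g S W C Z e n (j + 1) F V m (P * get g.h j <<< (13 - b3 g.bs j) *
          (gp S W C j + gq g S W C j))
        else grd (Nat.beq ((m * (gp S W C j + gq g S W C j) <<< (2 * b3 g.bs j)) >>> F) 0)
          (ctr Z (b3 g.bs j) (gp S W C j) (gq g S W C j) F V fun F' V' => gL g S W C Z e n (j + 1)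
            F' V' (m * (gp S W C j + gq g S W C j) <<< (2 * b3 g.bs j))
            (P * get g.h j <<< (13 - b3 g.bs j))) := by
      simp only [gL, force_eq, cnd_eq, Nat.beq_eq]
      rfl
    rw [e1, wl, wp]
    split_ifs
    · exact ih _ _ _ _ _
    · rw [ctr_Z, ih, bU0]
      rfl

lemma wl_pos (n : ℕ) : ∀ j, (wl g S W C n j).Pos ∧
    off g.bs j + (wl g S W C n j).bits = off g.bs (j + n) := by
  induction n with
  | zero => exact fun _ => ⟨trivial, rfl⟩
  | succ n ih =>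
    intro j
    obtain ⟨h1, h2⟩ := ih (j + 1)
    have : off g.bs (j + 1) = b3 g.bs j + off g.bs j := rfl
    rw [wl, ← add_assoc, add_right_comm]
    split_ifs
    · exact ⟨h1, by omega⟩
    · exact ⟨⟨Nat.le_add_left _ _, h1⟩, by rw [WL.bits]; omega⟩

variable {g S}

lemma gLV_eq (hg : g.OK S) (hk : 1 ≤ S.k) (e P X : ℕ) {f m : ℕ} (hf' : f ≤ 31)
    (hm : m ≤ 2 ^ f - 1) :
    gLV g S W C (gZ g.B) e (S.k - 1) f (Nat.land X ((2 ^ f - 1) * g.O)) m P =
      gL g S W C (gZ g.B) e (S.k - 1) 1 32 (Nat.land X ((2 ^ f - 1) * g.O)) m P := by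
  obtain ⟨h1, h2⟩ := wl_pos g S W C (S.k - 1) 1
  have o1 : off g.bs 1 = 0 := hg.b0
  rw [o1, zero_add, Nat.add_sub_cancel' hk, ← hg.hB] at h2
  have e1 : (2 ^ f - 1) * g.O = pv 32 (2 ^ g.B) fun _ => 2 ^ f - 1 := by
    rw [hg.hO, pk, pv, mul_sum]
    simp
  rw [gLV, wlZ_eq, gL_wl, e1, Nat.land_eq, pv_land _ _ _ fun _ => lt_of_lt_of_le
    (Nat.sub_lt (by positivity) one_pos) (Nat.pow_le_pow_right two_pos (by omega)), ← h2]
  exact bU_eq _ _ _ _ _ _ h1 (by norm_num) (by omega) (fun c => Nat.and_le_right) hm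
    (by rw [gZ, one_eq, ← Nat.shiftLeft_eq]; rfl)

theorem gdV_ok : MSok gdV := fun g S A m d hI hg => by
  have e : gdV g S m d = gdZ g S m d := by
    have := gLV_eq (mkZ S.lo S.hi (chV S (S.k - 1)) S.k)
      (acC S.kd (mkZ S.lo S.hi (chV S (S.k - 1)) S.k) S.k) hg hI.pos
      (Nat.pow 2000000000000000000000000 (S.k - 1))
      (acP S.kd (mkZ S.lo S.hi (chV S (S.k - 1)) S.k) S.k) (Nat.shiftRight m 31) (f := 1) (m := 1)
      (by norm_num) (by norm_num)
    rw [show 2 ^ 1 - 1 = 1 from rfl, one_mul] at this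
    rw [gdV, gdU, gdZ, gdW, force_eq, force_eq, gLZ_eq]
    exact this
  rw [e]
  exact gdZ_ok g S A m d hI hg

lemma mkL_unif (lo hi bs n : ℕ) : ∀ j o, (∀ K, mkL lo hi bs n j o K = INF) ∨
    ∃ B h up wd L, ∀ K, mkL lo hi bs n j o K = K B h up wd L := by
  induction n with
  | zero => exact fun j o => Or.inr ⟨_, _, _, _, _, fun _ => rfl⟩
  | succ n ih =>
    intro j o
    have e : ∀ K, mkL lo hi bs (n + 1) j o K = mkT (mkL lo hi bs n) j o K (b3 bs j) (get lo j)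
        ((get hi j - get lo j + (one (b3 bs j) - 1)) >>> b3 bs j) (24 * j) := fun K =>
      force_eq (b3 bs j) fun b => mkT (mkL lo hi bs n) j o K b (get lo j)
        ((get hi j - get lo j + (one b - 1)) >>> b) (24 * j)
    simp only [e, mkT, force_eq]
    cases Nat.blt _ 16777215
    · exact Or.inl fun _ => rfl
    rcases ih (Nat.succ j) (Nat.add o (b3 bs j)) with h | ⟨B, h, up, wd, L, g⟩
    · exact Or.inl fun _ => h _
    · exact Or.inr ⟨_, _, _, _, _, fun _ => g _⟩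

lemma mkGr_congr {bs : ℕ} {K K' : Gr → ℕ} (hk : 1 ≤ S.k) (h : ∀ g : Gr, g.OK S → K g = K' g) :
    mkGr S bs K = mkGr S bs K' := by
  classical
  have u : (∀ K, mkGr S bs K = INF) ∨ ∃ g, ∀ K, mkGr S bs K = K g := by
    simp only [mkGr]
    cases Nat.beq (Nat.mod bs 8) 0
    · exact Or.inl fun _ => rfl
    rcases mkL_unif S.lo S.hi bs (Nat.pred S.k) 1 0 with a | ⟨B, a, up, wd, L, g⟩
    · exact Or.inl fun _ => a _
    simp only [g]
    cases Nat.ble B 16
    · exact Or.inl fun _ => rfl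
    · exact Or.inr ⟨_, fun _ => rfl⟩
  rcases u with u | ⟨g, u⟩
  · rw [u, u]
  obtain ⟨g', g1, g2⟩ := mk_ok S bs (fun x => if x = g then 0 else 1) hk (by
    rw [u, if_pos rfl]
    norm_num [INF])
  rw [u, if_pos rfl] at g2
  have e : g' = g := by
    by_contra c
    rw [if_neg c] at g2
    cases g2
  rw [u, u, h g (e ▸ g1)]

theorem gaV_eq (IT : BT AItem) (T : BT Rf) (ih : Rec) (sg : Bool) (hk : 1 ≤ S.k) (s : ℕ) :
    gaV IT T ih sg S s = gaR IT T ih sg S s := by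
  rw [← gaY_eq]
  refine congrArg (grd sg) (mkGr_congr hk fun g hg => ?_)
  simp only [yV1, yV2, yA1, yA2, force_eq]
  congr 1
  funext Z N R
  congr 1
  funext c
  rw [gvF, gyF, gLZ_eq]
  exact gLV_eq _ _ hg hk _ _ _ (f := 17) (by norm_num)
    ((Nat.shiftRight_le _ _).trans (by norm_num))

theorem gaV_ok {t : ℝ} {IT : BT AItem} (h : XTok t (gaR IT)) : XTok t (gaV IT) :=
  fun T ih hT hH sg S s hl A hI => by
  rw [gaV_eq IT T ih sg hI.pos] at hl ⊢
  exact h T ih hT hH sg S s hl A hI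

end Pool.Agent.MP_c853c5_nt.X

end

section

/-!
The rule with fractional lanes in one pass has the same value.
-/

set_option autoImplicit false

open Finset

namespace Pool.Agent.MP_c853c5_nt.X

lemma frc_eq (x : ℕ) (f : ℕ → ℕ) : frc x f = f x := rfl

lemma get_pr6 (p j : ℕ) : get (pr6 p) j = if j = 0 then 16 else get p j := by
  show (16 + (p >>> 24) <<< 24) >>> (24 * j) % 2 ^ 24 = _
  rw [get_eq, Nat.shiftLeft_eq, Nat.shiftRight_eq_div_pow, Nat.shiftRight_eq_div_pow,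
    Nat.shiftRight_eq_div_pow]
  split_ifs with h
  · rw [h]
    omega
  · obtain ⟨i, rfl⟩ := Nat.exists_eq_succ_of_ne_zero h
    rw [show 24 * i.succ = 24 + 24 * i by omega, pow_add, ← Nat.div_div_eq_div_mul,
      ← Nat.div_div_eq_div_mul, Nat.add_mul_div_right _ _ (by positivity)]
    norm_num

lemma chZ_eq (S : NS) (n : ℕ) : ∃ X, chZ (pr6 S.par) S.lo S.hi (n + 1) =
    chV S n + X * 2 ^ (64 * 16) := by
  induction n with
  | zero =>
    refine ⟨get S.hi 0 <<< 32 + get S.lo 0, ?_⟩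
    show _ <<< (64 * get (pr6 S.par) 0) + 0 = 0 + _
    rw [get_pr6, if_pos rfl]
    generalize 64 * 16 = y
    rw [Nat.shiftLeft_eq _ y, add_comm]
    rfl
  | succ n ih =>
    obtain ⟨X, h⟩ := ih
    refine ⟨X, ?_⟩
    show _ <<< (64 * get (pr6 S.par) (n + 1)) + chZ _ _ _ (n + 1) = _ + chV S n + _
    rw [h, get_pr6, if_neg n.succ_ne_zero, add_assoc]
    rfl

lemma fT_top (V X : ℕ) {i : ℕ} (h : i < 16) : fT (V + X * 2 ^ (64 * 16)) i = fT V i := by
  obtain ⟨d, e⟩ := Nat.exists_eq_add_of_lt h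
  show _ >>> (64 * i) % 2 ^ 64 = V >>> (64 * i) % 2 ^ 64
  rw [Nat.shiftRight_eq_div_pow, Nat.shiftRight_eq_div_pow, e,
    show X * 2 ^ (64 * (i + d + 1)) = X * 2 ^ (64 * d) * 2 ^ 64 * 2 ^ (64 * i) by ring,
    Nat.add_mul_div_right _ _ (by positivity), Nat.add_mul_mod_self_right]

lemma cO_eq {F : ℕ} (hF : 0 < F) (N : ℕ) : cO F (F * N) = pv F N fun _ => 1 := by
  have := Nat.one_lt_two_pow hF.ne'
  show (one _ - 1) / (one _ - 1) = _
  rw [one_eq, one_eq, ← pv_geo, Nat.add_sub_cancel, Nat.mul_div_cancel_left _ (by omega)]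

lemma pv_id (F N : ℕ) : (2 ^ F - 1) * pv F N id + (pv F N fun _ => 1) + 2 ^ (F * N) =
    N * 2 ^ (F * N) + 1 := by
  induction N with
  | zero => simp [pv]
  | succ N ih =>
    obtain ⟨y, hy⟩ : ∃ y, 2 ^ F = y + 1 := ⟨2 ^ F - 1, by have := Nat.one_le_two_pow (n := F); omega⟩
    simp only [pv, sum_range_succ, mul_add F, mul_one, pow_add, hy, Nat.add_sub_cancel, id] at ih ⊢
    linarith

lemma ctU_eq (Z b p q V : ℕ) {F : ℕ} (hF : 0 < F) :
    ctU Z b p q F (F <<< b) V = ctZ Z b p q F (F <<< b) V := by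
  have := Nat.one_lt_two_pow hF.ne'
  have e1 : cO F (F <<< b) = wO F b := by
    rw [Nat.shiftLeft_eq, cO_eq hF, wO, rmp_pv, one_mul]
  have e2 : cX F (F <<< b) b = wX F b := by
    have h := pv_id F (2 ^ b)
    have := Nat.le_mul_of_pos_left (2 ^ (F * 2 ^ b)) (Nat.two_pow_pos b)
    rw [wX, rmp_pv, zero_mul, zero_add, mul_one, cX, Nat.shiftLeft_eq, cO_eq hF]
    show 2 * (((one b - 1) <<< _ + 1 - _) / (one F - 1)) = _
    rw [one_eq, one_eq, Nat.shiftLeft_eq, Nat.sub_mul, one_mul,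
      show 2 ^ b * 2 ^ (F * 2 ^ b) - 2 ^ (F * 2 ^ b) + 1 - (pv F (2 ^ b) fun _ => 1) =
        (2 ^ F - 1) * pv F (2 ^ b) id by omega, Nat.mul_div_cancel_left _ (by omega)]
  rw [ctU, ctZ, e1, e2, Nat.land_eq, Nat.and_comm,
    show ∀ a, Nat.mul a V = Nat.mul V a from fun a => Nat.mul_comm a V]
  rfl

lemma cU_eq (Z : ℕ) (K : ℕ → ℕ) (L : WL) : ∀ f F V m, 0 < F →
    cU Z K L f F V m = bU Z K L f F V m := by
  induction L with
  | nil => exact fun _ _ _ _ _ => rfl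
  | cons b p q r ih =>
    intro f F V m hF
    have e : cU1 (cU Z K r) Z F V b p q (Nat.mul m (fW b p q)) =
        bU1 (bU Z K r) Z F V b p q (Nat.mul m (fW b p q)) := by
      rw [cU1, bU1, force_eq, force_eq, gz_eq (by rw [Nat.beq_eq]), Nat.shiftLeft_eq',
        ctU_eq _ _ _ _ _ hF, ih _ _ _ _ (by rw [Nat.shiftLeft_eq]; positivity)]
    exact congrArg (fun y => Nat.rec (motive := fun _ => ℕ) (K (tD V (.cons b p q r) F))
      (fun _ _ => y) (Nat.shiftRight (rP (.cons b p q r)) (Nat.sub F f))) e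

lemma fnA_eq (u : BT AItem) : ∀ i, (fnA u i).f = u.find i := by
  induction u with
  | lf x => exact fun _ => rfl
  | nd n l r il ir =>
    intro i
    show (cnd (Nat.blt i n) (fnA l i) (fnA r (Nat.sub i n))).f =
      cnd (Nat.blt i n) (l.find i) (r.find (Nat.sub i n))
    cases Nat.blt i n
    exacts [ir _, il _]

lemma gwLoop_eq {IT : BT AItem} {x : Ga} {T : ℕ} (h : T = x.g.T) (ih : Rec) (S : NS)
    (fin : ℕ → ℕ) (n : ℕ) : gwLoop IT x T ih S fin n = gyLoop IT x ih S fin n := by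
  simp only [gwLoop, gyLoop, force_eq, fnA_eq, h]

noncomputable def sB (bs : ℕ) : ℕ → ℕ → ℕ
  | 0, _ => 0
  | n + 1, j => b3 bs j + sB bs n (j + 1)

noncomputable def hK (lo hi bs j : ℕ) : ℕ := hJ (get hi j - get lo j) (b3 bs j)

noncomputable def vX (lo hi bs : ℕ) : ℕ → ℕ → ℕ
  | 0, _ => 0
  | n + 1, j => (get lo j + hK lo hi bs j <<< b3 bs j - 16777214) + vX lo hi bs n (j + 1)

lemma gz_add (a b x : ℕ) : gz (a + b) x = gz a (gz b x) := by
  cases a with
  | zero => rw [zero_add]; rfl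
  | succ a => rw [Nat.succ_add]; rfl

lemma mkL_uL (lo hi bs B n : ℕ) : ∀ j o K, B = o + sB bs n j → mkL lo hi bs n j o K =
    gz (vX lo hi bs n j) (K B (uL lo hi bs B n j o).h (uL lo hi bs B n j o).up
      (uL lo hi bs B n j o).wd (uL lo hi bs B n j o).L) := by
  induction n with
  | zero => exact fun j o K h => h ▸ rfl
  | succ n ih =>
    intro j o K h
    have e : mkL lo hi bs (n + 1) j o K =
        mkT (mkL lo hi bs n) j o K (b3 bs j) (get lo j) (hK lo hi bs j) (24 * j) :=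
      force_eq (b3 bs j) fun b => mkT (mkL lo hi bs n) j o K b (get lo j)
        ((get hi j - get lo j + (one b - 1)) >>> b) (24 * j)
    rw [e, mkT, force_eq, ih (Nat.succ j) (Nat.add o (b3 bs j)) _ (h.trans (add_assoc _ _ _).symm),
      vX, gz_add, ← gz_eq]
    · rfl
    · rw [Nat.blt_eq, Nat.add_eq, Nat.shiftLeft_eq']
      omega

lemma uL_get (lo hi bs B n : ℕ) : ∀ j o, vX lo hi bs n j = 0 →
    (2 ^ (24 * j) ∣ (uL lo hi bs B n j o).h ∧ 2 ^ (24 * j) ∣ (uL lo hi bs B n j o).wd) ∧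
      ∀ i, j ≤ i → i < j + n → get (uL lo hi bs B n j o).h i = hK lo hi bs i ∧
        get (uL lo hi bs B n j o).wd i = hK lo hi bs i <<< b3 bs i := by
  induction n with
  | zero => exact fun j o _ => ⟨⟨dvd_zero _, dvd_zero _⟩, fun i h1 h2 => by omega⟩
  | succ n ih =>
    intro j o h
    rw [vX] at h
    obtain ⟨⟨d1, d2⟩, g⟩ := ih (j + 1) (o + b3 bs j) (by omega)
    have a : hK lo hi bs j ≤ hK lo hi bs j <<< b3 bs j := Nat.le_shiftLeft
    obtain ⟨c1, c2, c3⟩ := Ln.get_low d1 (x := hK lo hi bs j) (by omega)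
    obtain ⟨c4, c5, c6⟩ := Ln.get_low d2 (x := hK lo hi bs j <<< b3 bs j) (by omega)
    refine ⟨⟨c1, c4⟩, fun i i1 i2 => ?_⟩
    rcases i1.eq_or_lt with rfl | i3
    · exact ⟨c2, c5⟩
    · exact ⟨(c3 i i3).trans (g i i3 (by omega)).1, (c6 i i3).trans (g i i3 (by omega)).2⟩

lemma mw2_zero (ih : IM) (K : KM) (j j' o x Z N P h l p q : ℕ) : mw2 ih K j j' o x Z N P 0 h l p q =
    mw3 ih K j j' o (o + 0) x Z N (P * (p + q)) 0 h l p q fun L => L := rfl

lemma mw2_succ (ih : IM) (K : KM) (j j' o x Z N P b h l p q : ℕ) :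
    mw2 ih K j j' o x Z N P (b + 1) h l p q =
      mw3 ih K j j' o (o + (b + 1)) x Z N P (b + 1) h l p q (.cons (b + 1) p q) :=
  force_eq (o + (b + 1)) fun o' => mw3 ih K j j' o o' x Z N P (b + 1) h l p q (.cons (b + 1) p q)

lemma mwL_eq (g : Gr) (S : NS) (par V W C n : ℕ) : ∀ j o x Z N P B, B = o + sB g.bs n j →
    ∃ Z2 N2 P2 R L, (∀ K, mwL g.bs par S.lo S.hi V C n j o x Z N P K =
      K B (x + vX S.lo S.hi g.bs n j) Z2 N2 P2 R L) ∧
    ((∀ i, j ≤ i → i < j + n → get g.h i = hK S.lo S.hi g.bs i ∧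
      get g.wd i = hK S.lo S.hi g.bs i <<< b3 g.bs i ∧ ∀ w, eI S.lo S.hi V C i w = eZ W C i w ∧
        eI S.lo S.hi V C (get par i) w = eZ W C (get S.par i) w) →
      (∀ K, gyU g.bs g.h g.wd S.par S.lo S.hi W C B n j o Z N K = K Z2 N2 R) ∧
        P2 = wp g S W C n j P ∧ L = wl g S W C n j) := by
  induction n with
  | zero => exact fun j o x Z N P B h => ⟨Z, N, P, [], .nil, fun _ => h ▸ rfl,
      fun _ => ⟨fun _ => rfl, rfl, rfl⟩⟩
  | succ n ih =>
    intro j o x Z N P B h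
    set b := b3 g.bs j with hb
    set w := get S.hi j - get S.lo j
    set p := eI S.lo S.hi V C (get par j) w >>> 13 + 1 with hp
    set q := (eI S.lo S.hi V C j w + cdR ((eI S.lo S.hi V C j w - eI S.lo S.hi V C (get par j) w) *
      (hJ w b <<< b - w)) w) >>> 13 + 1 with hq
    obtain ⟨Z2, N2, P2, R, L, h1, h2⟩ := ih (j + 1) (o + b)
      (x + (get S.lo j + hJ w b <<< b - 16777214)) (zU Z b (mn0 p q) (p - q + (q - p))) (N + one b)
      (if b = 0 then P * hJ w b <<< (13 - b) * (p + q) else P * hJ w b <<< (13 - b)) B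
      (h.trans (add_assoc _ _ _).symm)
    refine ⟨Z2, N2, P2, ⟨44 * j, 44 * j, hJ w b, get S.lo j + hJ w b, get S.lo j, gU B o b⟩ :: R,
      if b = 0 then L else .cons b p q L, fun K => ?_, fun H => ?_⟩
    · have e : mwL g.bs par S.lo S.hi V C (n + 1) j o x Z N P K =
          mw2 (mwL g.bs par S.lo S.hi V C n) K j (j + 1) o
            (x + (get S.lo j + hJ w b <<< b - 16777214)) Z N (P * hJ w b <<< (13 - b)) b (hJ w b)
            (get S.lo j) p q := by
        simp only [mwL, force_eq, frc_eq]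
        rfl
      rw [e, vX, ← add_assoc, hK, ← hb]
      clear_value b p q
      cases b with
      | zero =>
        rw [if_pos rfl] at h1
        rw [mw2_zero, if_pos rfl, mw3]
        exact h1 _
      | succ b =>
        rw [if_neg b.succ_ne_zero] at h1
        rw [mw2_succ, if_neg b.succ_ne_zero, mw3]
        exact h1 _
    · obtain ⟨g1, g2, g3⟩ := H j le_rfl (by omega)
      obtain ⟨g4, g5, g6⟩ := h2 fun i i1 i2 => H i (by omega) (by omega)
      have e1 : p = gp S W C j := by rw [hp, (g3 w).2, gp, eZ_eq]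
      have e2 : q = gq g S W C j := by rw [hq, (g3 w).1, (g3 w).2, gq, g2, eZ_eq]; rfl
      refine ⟨fun K => ?_, by rw [g5, wp, g1, e1, e2]; rfl, by rw [g6, wl, e1, e2]⟩
      have e : gyU g.bs g.h g.wd S.par S.lo S.hi W C B (n + 1) j o Z N K =
          yU2 (gyU g.bs g.h g.wd S.par S.lo S.hi W C B n) K j (o + b) Z N b (get g.h j)
            (get S.lo j) (gU B o b) (gp S W C j) (gq g S W C j) := by
        rw [gp, gq, ← eZ_eq]
        simp only [gyU, force_eq]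
        rfl
      rw [e, ← e1, ← e2, g1]
      exact g4 _

variable {S : NS} {A : ℕ → Finset ℕ}

lemma fT_Z (hI : Inv S A) {i : ℕ} (h : i < S.k) :
    Nat.mod (fT (mkZ S.lo S.hi (chV S (Nat.pred S.k)) S.k) i) 4294967296 =
      mI S.lo (chZ (pr6 S.par) S.lo S.hi S.k) i ∧
    Nat.shiftRight (fT (mkZ S.lo S.hi (chV S (Nat.pred S.k)) S.k) i) 32 =
      uI S.hi (chZ (pr6 S.par) S.lo S.hi S.k) i := by
  obtain ⟨X, e⟩ := chZ_eq S (Nat.pred S.k)
  rw [show Nat.pred S.k + 1 = S.k from Nat.succ_pred_eq_of_pos hI.pos] at e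
  have b := loR_lt (S := S) i (fT (chV S (Nat.pred S.k)) i)
  rw [mkZ_eq, fT_mkW hI.le _ h, mI, uI, e, fT_top _ _ (h.trans_le hI.le), wOf, force_eq, loZ_eq,
    Nat.shiftRight_eq, Nat.shiftRight_eq_div_pow, Nat.add_eq, Nat.shiftLeft_eq', Nat.shiftLeft_eq]
  refine ⟨?_, by omega⟩
  show _ % 4294967296 = _
  omega

lemma acW_eq (hI : Inv S A) {V W : ℕ} (hV : V = chZ (pr6 S.par) S.lo S.hi S.k)
    (hW : W = mkZ S.lo S.hi (chV S (Nat.pred S.k)) S.k) (n : ℕ) : n ≤ S.k → ∀ K,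
    acW S.kd S.lo S.hi V n K = K (acP S.kd W n) (acC S.kd W n) := by
  induction n with
  | zero => exact fun _ _ => rfl
  | succ n ih =>
    intro h K
    have e : bw1 S.kd S.lo S.hi V n (mI S.lo V n) (uI S.hi V n) = blZ S.kd W n := by
      have l := fun a b => (link_ok hI (i := n) h a b).2.1
      rw [blZ, bw1, bl1, hW, (fT_Z hI h).1, (fT_Z hI h).2, ← hV]
      generalize get S.kd n = q at l
      cases q with
      | zero => simp only [Nat.rec_zero, Nat.beq_refl, cnd_tt]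
      | succ q =>
        simp only [cnd_e, if_neg q.succ_ne_zero, show Nat.ble (q + 1) 16 = Nat.ble q 15 from rfl,
          Nat.sub_eq, Nat.add_sub_cancel]
        cases c : Nat.ble q 15
        · simp only [cnd_ff]
        · rw [Nat.ble_eq] at c
          have d := fT_Z hI (i := q) (l q.succ_ne_zero (by omega))
          simp only [cnd_tt, d.1, d.2, ← hV]
    show bw2 (acW S.kd S.lo S.hi V n) K _ = _
    rw [e, bw2, ih (by omega)]
    rfl

lemma eI_eq (hI : Inv S A) (C w : ℕ) {t : ℕ} (h : t < S.k) :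
    eI S.lo S.hi (chZ (pr6 S.par) S.lo S.hi S.k) C t w =
      eZ (mkZ S.lo S.hi (chV S (Nat.pred S.k)) S.k) C t w := by
  rw [eZ, (fT_Z hI h).1, (fT_Z hI h).2, eI, eY]
  generalize Nat.mod (Nat.shiftRight C (Nat.mul 8 t)) 256 = n
  cases n with
  | zero => rw [show ∀ m, Nat.mul m (Nat.sub 0 (Nat.sub 0 1)) = 0 from fun _ => rfl,
      show Nat.ble 20000 0 = false from rfl, cnd_ff, Nat.rec_zero]
  | succ n =>
    show cnd _ (eW (2 * (n + 1) * w) _) _ = cnd (Nat.ble _ (_ * (n + 1 - (n + 1 - 1)))) _ _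
    rw [show n + 1 - (n + 1 - 1) = 1 by omega, mul_one, mul_assoc]
    rfl

lemma gwF_eq (g : Gr) (S : NS) (W C B r p t m : ℕ) : gvF g S W C B r p t m =
    gwF (wl g S W C r 1) B g.O r (wp g S W C r 1 p) t m := funext fun c => by
  rw [gwF, cU_eq _ _ _ _ _ _ _ (by norm_num), gvF, gLV, wlZ_eq, pw2,
    show Nat.pred (one t) = gM t from Nat.pred_eq_sub_one]

theorem gaW_eq (IT : BT AItem) (T : BT Rf) (ih : Rec) (sg : Bool) (hI : Inv S A) (s : ℕ) :
    gaW IT T ih sg S s = gaR IT T ih sg S s := by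
  rw [← gaV_eq IT T ih sg hI.pos]
  refine congrArg (grd sg) ?_
  show wA1 IT ih S S.k (pr6 S.par) S.kd S.lo S.hi (Nat.pred S.k) _ _ _ = mkGr S _ _
  generalize hb : Nat.shiftLeft (Nat.mod s (one (Nat.mul 3 (Nat.pred S.k)))) 3 = bs
  generalize Nat.shiftRight s (Nat.mul 3 (Nat.pred S.k)) = v
  have b0 : Nat.beq (Nat.mod bs 8) 0 = true := by
    rw [← hb, Nat.beq_eq, Nat.shiftLeft_eq', Nat.shiftLeft_eq]
    exact Nat.mul_mod_left _ _
  set B := 0 + sB bs (Nat.pred S.k) 1 with hB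
  set g := grX B bs (get S.hi 0) (Nat.mod (gO B) 0) (Nat.mod (gT B) 0)
    (uL S.lo S.hi bs B (Nat.pred S.k) 1 0) with hg
  rw [wA1, acW_eq hI rfl rfl _ le_rfl, frc_eq, mkGr, b0, mkL_uL _ _ _ B _ _ _ _ hB]
  obtain ⟨Z, N, P, R, L, h1, h2⟩ := mwL_eq g S (pr6 S.par) _ _ _ _ 1 0 0 68719476736 1
    (acP S.kd (mkZ S.lo S.hi (chV S (Nat.pred S.k)) S.k) S.k) B hB
  refine (h1 _).trans ?_
  rw [zero_add, wA2, Nat.add_eq, gz_add]
  show gz (vX S.lo S.hi bs _ _) _ = gz _ _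
  cases e : vX S.lo S.hi bs (Nat.pred S.k) 1 with
  | succ _ => rfl
  | zero =>
    obtain ⟨g1, g2, g3⟩ := h2 fun i i1 i2 => by
      have i3 : i < S.k := by
        have := hI.pos
        rw [Nat.pred_eq_sub_one] at i2
        omega
      refine ⟨((uL_get _ _ _ B _ 1 0 e).2 i i1 i2).1, ((uL_get _ _ _ B _ 1 0 e).2 i i1 i2).2,
        fun w => ⟨eI_eq hI _ _ i3, ?_⟩⟩
      rw [get_pr6, if_neg (by omega)]
      exact eI_eq hI _ _ ((hI.par i i1 i3).trans i3)
    show gz (Nat.sub B 16) _ = grd (Nat.ble B 16) (yV1 IT ih S _ v _ g)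
    refine (gz_eq (by rw [Nat.ble_eq, Nat.sub_eq]; omega) _).trans (congrArg _ ?_)
    rw [yV1, yV2, force_eq, force_eq]
    refine Eq.trans ?_ (g1 _).symm
    have t1 : Nat.mod (gT B) 0 = g.T := by simp only [g, grX]
    have t2 : Nat.mod (gO B) 0 = g.O := by simp only [g, grX]
    have t3 : B = g.B := by simp only [g, grX]
    rw [wA3, ← hg, t1, t2, gwLoop_eq rfl, g2, g3, ← gwF_eq, ← t3]

theorem gaW_ok {t : ℝ} {IT : BT AItem} (h : XTok t (gaR IT)) : XTok t (gaW IT) :=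
  fun T ih hT hH sg S s hl A hI => by
  rw [gaW_eq IT T ih sg hI] at hl ⊢
  exact h T ih hT hH sg S s hl A hI

end Pool.Agent.MP_c853c5_nt.X

end

section

/-!
The two forms of the second order mass bound agree.
-/

set_option autoImplicit false

namespace Pool.Agent.MP_c853c5_nt.X

lemma ndZ_eq (S : NS) (W C : ℕ) (l1 l2 : List ℕ) (n : ℕ) :
    ndZ S.par S.lo S.hi W C l1 l2 n = nodeP S W C l1 l2 n := by
  simp only [ndZ, nodeP, force_eq, nd0, nd1, nd2, nd3, eZ_eq]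

theorem MNZ_eq : MNZ = MN2 := by
  funext d S
  simp only [MNZ, MN2, M2Z, M2, m2W, force_eq, accB_Z, ndZ_eq, mkZ_eq]
  rfl

theorem mnz_ok : MNok MNZ := MNZ_eq ▸ mn2_ok

end Pool.Agent.MP_c853c5_nt.X

end
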