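import Pool.Agent.MP_c853c5_nt.E.Basic
import Pool.Agent.MP_c853c5_nt.DS.Basic
import Pool.Agent.MP_88bd62_nt.U.KL

section

set_option autoImplicit false

open Finset Filter

namespace Pool.Agent.MP_c853c5_nt.E

open Pool.Agent.MP_2a1f0e_nt Pool.Agent.MP_2a1f0e_nt.GM Pool.Agent.MP_2a1f0e_nt.DH

lemma win_BoxF {δ γ : ℝ} (hδ : δ ≤ 1 / 10) (hγ : 0 < γ) : ∀ᶠ x : ℝ in atTop, ∀ τ : ℝ,
    1 / 3 ≤ τ → τ ≤ 1 / 2 → ∃ T : ℕ, 1 ≤ T ∧ (T : ℝ) ≤ x ^ (τ + γ) ∧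
      x ^ δ ≤ x ^ τ * Real.log x ^ 3 ∧ x ^ τ * Real.log x ^ 3 - x ^ δ ≤ T ∧
      x ^ τ * Real.log x ^ 3 ≤ x := by
  filter_upwards [ev_log_le 2 3 hγ, ev_log_le 1 3 one_half_pos, ev_le_log 1,
    eventually_ge_atTop 1] with x h1 h2 h3 h4 τ a1 a2
  have x0 : 0 < x := by linarith
  have b1 : 1 ≤ Real.log x ^ 3 := one_le_pow₀ h3
  have b2 : 1 ≤ x ^ τ := Real.one_le_rpow h4 (by linarith)
  have b3 : 1 ≤ x ^ τ * Real.log x ^ 3 := one_le_mul_of_one_le_of_one_le b2 b1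
  refine ⟨⌈x ^ τ * Real.log x ^ 3⌉₊, Nat.ceil_pos.2 (by linarith), ?_, ?_, ?_, ?_⟩
  · have := Nat.ceil_lt_add_one (zero_le_one.trans b3)
    rw [Real.rpow_add x0]
    nlinarith
  · exact (Real.rpow_le_rpow_of_exponent_le h4 (by linarith)).trans
      (le_mul_of_one_le_right (by linarith) b1)
  · linarith [Nat.le_ceil (x ^ τ * Real.log x ^ 3), Real.rpow_nonneg x0.le δ]
  · calc _ ≤ x ^ (1 / 2 : ℝ) * x ^ (1 / 2 : ℝ) :=
          mul_le_mul (Real.rpow_le_rpow_of_exponent_le h4 a2) (by linarith) (by linarith)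
            (by positivity)
      _ = x := by rw [← Real.rpow_add x0, add_halves, Real.rpow_one]

lemma card_BoxF {ι : Type} [Fintype ι] {N : ι → ℕ} (h : ∀ j, 1 ≤ N j) :
    ∏ j, ((Icc (N j) (2 * N j)).card : ℝ) ≤ 2 ^ Fintype.card ι * ∏ j, (N j : ℝ) := by
  refine (prod_le_prod (fun _ _ => Nat.cast_nonneg _) fun j _ => card_blk_le (h j)).trans_eq ?_
  rw [prod_mul_distrib, prod_const, card_univ]

theorem boxII_fix (hG : GridIIStmt) (hI : GrdStmt) (hT : TbStmt) : BoxIIStmt := by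
  intro ι _ _ K A η δ c₀ ia ib ic h1 h2 h3 hη hδ hδ' hc
  obtain ⟨γ, hγ, hG⟩ := hG ι K (A + 1) η c₀ ia ib ic h1 h2 h3 hη hc
  refine ⟨γ, hγ, ?_⟩
  filter_upwards [hG, hT δ hδ hδ', win_BoxF hδ' hγ, ev_le_log 2,
    ev_le_log (2 ^ Fintype.card ι * 8), ev_log_le 2 A (half_pos hδ), eventually_gt_atTop 0] with
    x hG hT hW l1 l2 l3 x0 τ v Δ Δ₀ b N c a1 a2 a3 a4 a5 a6 a7 a8 a9 a10 a11
  obtain ⟨T, t1, t2, t3, t4, t5⟩ := hW τ a1 a2
  have b1 := hI (fun t => ∏ j, ‖BP (N j) (c j) t‖) _ _ (x / Real.log x ^ (A + 1)) T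
    (continuous_finsetProd _ fun j _ => (continuous_BP _ _).norm)
    (fun t => prod_nonneg fun _ _ => norm_nonneg _) t3 t4 fun u S hS hm =>
      hG τ u b T N c S (by linarith) a2 a4 a5 t1 t2 a6 a7 a8 a9 a10 hS fun m h =>
        a11 _ (hm m h).1 ((hm m h).2.trans t5)
  refine (hT ι τ v Δ Δ₀ _ _ c a1 a2 a3 (fun j h => ?_) a10 ?_ b1).trans ?_
  · have := (a6 j).1
    have := (mem_Icc.1 h).1
    omega
  · refine (card_BoxF fun j => (a6 j).1).trans ?_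
    calc _ ≤ 2 ^ Fintype.card ι * (8 * x) := by gcongr
      _ = x * (2 ^ Fintype.card ι * 8) := by ring
      _ ≤ _ := by gcongr
  · have p : 0 < Real.log x ^ A := pow_pos (by linarith) A
    have e1 : x / Real.log x ^ (A + 1) ≤ x / (2 * Real.log x ^ A) := by
      rw [pow_succ']
      gcongr
    have e2 : x ^ (1 - δ / 2) ≤ x / (2 * Real.log x ^ A) := by
      rw [Real.rpow_sub x0, Real.rpow_one]
      gcongr
    calc _ ≤ x / (2 * Real.log x ^ A) + x / (2 * Real.log x ^ A) := add_le_add e1 e2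
      _ = _ := by field_simp; norm_num

theorem boxI_fix (hG : GridIStmt) (hA : AvStmt) (hI : GrdStmt) (hT : TbStmt) : BoxIStmt := by
  intro ι _ _ K η δ hη h1 hδ hδ'
  obtain ⟨γ, hγ, hG⟩ := hG ι K η hη h1
  refine ⟨γ / 4, by positivity, ?_⟩
  filter_upwards [hG, hA δ γ hδ hγ, hT δ hδ hδ', win_BoxF hδ' hγ,
    ev_le_log (2 ^ Fintype.card ι * 8), eventually_ge_atTop 1] with
    x hG hA hT hW l1 x1 τ v Δ Δ₀ y a b N c a1 a2 a3 a4 a5 a6 a7 a8 a9 a10 a11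
  have x0 : 0 < x := by linarith
  obtain ⟨T, t1, t2, t3, t4, -⟩ := hW τ a1 a2
  have p1 : 1 ≤ ∏ j, (N j : ℝ) := by
    exact_mod_cast one_le_prod' fun j _ => (a6 j).1
  obtain ⟨L, s1, s2, s3⟩ := hA τ a y a1 a2 a7
    ((le_mul_of_one_le_right (by linarith) p1).trans a10) a8 a9
  have b1 := hI (fun t => ‖ZS y t‖ * ∏ j, ‖BP (N j) (c j) t‖) _ _ (x ^ (1 - η / 2)) T
    ((continuous_ZS y).norm.mul (continuous_finsetProd _ fun j _ => (continuous_BP _ _).norm))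
    (fun t => mul_nonneg (norm_nonneg _) (prod_nonneg fun _ _ => norm_nonneg _)) t3 t4
    fun u S hS hm => hG τ u y (av τ a) b T L N c S (fun m => ‖ZS y (u + m)‖) (by linarith) a2
      (av_nonneg _ _) ((av_le (by linarith) a).trans (by linarith)) a4 a5 t1 t2
      (fun j => ⟨(a6 j).1, (a6 j).2.trans (Real.rpow_le_rpow_of_exponent_le x1 (by linarith))⟩)
      s1 s2 (by linarith) a10 a11 hS (fun _ _ => norm_nonneg _) (s3 u S fun m h => by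
        rw [abs_of_nonneg ((Real.rpow_nonneg x0.le δ).trans (hm m h).1)]
        exact hm m h)
  refine hT (Option ι) τ v Δ Δ₀ (x ^ (1 - η / 2)) _ _ a1 a2 a3 (fun o h => ?_) (fun o n => ?_)
    ?_ ?_
  · rcases o with _ | j
    · exact Nat.not_lt_zero _ (mem_Ioc.1 h).1
    · have := (a6 j).1
      have := (mem_Icc.1 h).1
      omega
  · rcases o with _ | j
    exacts [abs_oc_le y n, a11 j n]
  · rw [Fintype.prod_option]
    change ((Ioc ⌊y⌋₊ (2 * ⌊y⌋₊)).card : ℝ) * ∏ j, ((Icc (N j) (2 * N j)).card : ℝ) ≤ _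
    rw [Nat.card_Ioc, show 2 * ⌊y⌋₊ - ⌊y⌋₊ = ⌊y⌋₊ by omega]
    calc _ ≤ y * (2 ^ Fintype.card ι * ∏ j, (N j : ℝ)) :=
          mul_le_mul (Nat.floor_le (by linarith)) (card_BoxF fun j => (a6 j).1) (by positivity)
            (by linarith)
      _ = 2 ^ Fintype.card ι * (y * ∏ j, (N j : ℝ)) := by ring
      _ ≤ 2 ^ Fintype.card ι * (8 * x) := by gcongr
      _ = x * (2 ^ Fintype.card ι * 8) := by ring
      _ ≤ _ := by gcongr
  · simp only [Fintype.prod_option]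
    exact b1

end Pool.Agent.MP_c853c5_nt.E

end

section

set_option autoImplicit false

open Finset Filter

namespace Pool.Agent.MP_c853c5_nt.E

open Pool.Agent.MP_2a1f0e_nt Pool.Agent.MP_2a1f0e_nt.GM Pool.Agent.MP_2a1f0e_nt.DH

lemma sq_DOne (N : ℕ) (V : ℝ) : (√(N : ℝ) * V) ^ 2 = N * V ^ 2 := by
  rw [mul_pow, Real.sq_sqrt (Nat.cast_nonneg N)]

lemma mv_DOne {C : ℝ} (hC : ∀ (N T : ℕ) (V : ℝ) (b : ℕ → ℂ), 1 ≤ N → 0 < V →
      (∀ n, ‖b n‖ ≤ 1) → (DH.cnt N b T V : ℝ) * V ^ 2 ≤ C * (((N : ℝ) + T) * N))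
    (N T : ℕ) (V : ℝ) (b : ℕ → ℂ) (hN : 1 ≤ N) (hV : 0 < V) (hb : ∀ n, ‖b n‖ ≤ 1) :
    (cnt N b T (√N * V) : ℝ) ≤ C * (((T : ℝ) + N) / V ^ 2) := by
  have hN0 : (0 : ℝ) < N := by exact_mod_cast hN
  have h := hC N T (√N * V) b hN (by positivity) hb
  rw [sq_DOne] at h
  rw [← mul_div_assoc, le_div_iff₀ (by positivity)]
  refine le_of_mul_le_mul_right ?_ hN0
  linarith

lemma mass_DOne (N T : ℕ) (b : ℕ → ℂ) {W : ℝ} (hW : 0 ≤ W) :
    (cnt N b T W : ℝ) * W ^ 2 ≤ Mass N b (Icc 0 (T : ℤ)) W := by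
  unfold cnt Mass
  rw [← nsmul_eq_mul]
  exact card_nsmul_le_sum _ _ _ fun t ht => pow_le_pow_left₀ hW (mem_filter.1 ht).2 2

theorem d1_stmt (hM : Z.MvStmt) : DLV Bd1 := by
  obtain ⟨C, hC0, hC⟩ := hM
  intro ε hε
  refine ⟨C, hC0, fun N T V b hN hT hV hb => (mv_DOne hC N T V b hN hV hb).trans ?_⟩
  have hN1 : (1 : ℝ) ≤ N := by exact_mod_cast hN
  have hT1 : (1 : ℝ) ≤ T := by exact_mod_cast hT
  have h1 : 1 ≤ ((N : ℝ) * T) ^ ε :=
    Real.one_le_rpow (one_le_mul_of_one_le_of_one_le hN1 hT1) hε.le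
  unfold Bd1
  exact mul_le_mul_of_nonneg_right (le_mul_of_one_le_right hC0.le h1) (by positivity)

lemma mid_DOne {K ε : ℝ} {N T : ℕ} {V : ℝ} {b : ℕ → ℂ} (hN : 1 ≤ N) (hV : 0 < V)
    (h : Mass N b (Icc 0 (T : ℤ)) (√N * V) ≤
      K * (N : ℝ) ^ ε * ((N : ℝ) ^ 2 + T * (N : ℝ) ^ 4 / (√N * V) ^ 4)) :
    (cnt N b T (√N * V) : ℝ) ≤ K * (N : ℝ) ^ ε * Bd2 N T V := by
  have hN0 : (0 : ℝ) < N := by exact_mod_cast hN
  have h1 := (mass_DOne N T b (W := √N * V) (by positivity)).trans h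
  have h2 : (√(N : ℝ) * V) ^ 4 = (N * V ^ 2) ^ 2 := by
    rw [← sq_DOne]
    ring
  rw [h2, sq_DOne] at h1
  refine le_of_mul_le_mul_right (h1.trans_eq ?_) (show 0 < (N : ℝ) * V ^ 2 by positivity)
  unfold Bd2
  field_simp

lemma top_DOne {C : ℝ} (hC0 : 0 < C) (hC : ∀ (N T : ℕ) (V : ℝ) (b : ℕ → ℂ), 1 ≤ N → 0 < V →
      (∀ n, ‖b n‖ ≤ 1) → (DH.cnt N b T V : ℝ) * V ^ 2 ≤ C * (((N : ℝ) + T) * N))
    (hS : Z.SplStmt) {N T : ℕ} {V Δ : ℝ} {b : ℕ → ℂ} (hN : 1 ≤ N) (hT : N ^ 2 ≤ T) (hV : 0 < V)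
    (hb : ∀ n, ‖b n‖ ≤ 1) (hΔ : DivB ((2 * N) ^ 3) Δ) :
    (cnt N b T (√N * V) : ℝ) ≤ 540 * C * Δ ^ 6 * ((T : ℝ) * N / V ^ 6) := by
  have hN1 : (1 : ℝ) ≤ N := by exact_mod_cast hN
  have hN0 : (0 : ℝ) < N := by linarith
  have hT2 : (N : ℝ) ^ 2 ≤ T := by exact_mod_cast hT
  have hT0 : (0 : ℝ) ≤ T := Nat.cast_nonneg T
  have hΔ0 : 0 < Δ := by linarith [hΔ.1]
  obtain ⟨c, hc, h⟩ := hS N 3 T Δ (√N * V) b hN (by norm_num) hΔ (by positivity) hb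
  have h' : (cnt N b T (√N * V) : ℝ) ≤ ∑ i ∈ range 3,
      (cnt (2 ^ i * N ^ 3) (c i) T ((√N * V) ^ 3 / (((3 : ℕ) : ℝ) * Δ ^ 3)) : ℝ) := by
    exact_mod_cast h
  refine h'.trans ((sum_le_card_nsmul _ _ (180 * C * Δ ^ 6 * ((T : ℝ) * N / V ^ 6))
    fun i hi => ?_).trans (le_of_eq ?_))
  · have h2 : (2 : ℝ) ^ i ≤ 4 := by
      calc (2 : ℝ) ^ i ≤ 2 ^ 2 := pow_le_pow_right₀ (by norm_num) (by have := mem_range.1 hi; omega)
        _ = 4 := by norm_num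
    have h3 := hC (2 ^ i * N ^ 3) T ((√N * V) ^ 3 / (((3 : ℕ) : ℝ) * Δ ^ 3)) (c i)
      (Nat.one_le_iff_ne_zero.2 (by positivity)) (by positivity) (hc i)
    have h4 : ((√(N : ℝ) * V) ^ 3 / (((3 : ℕ) : ℝ) * Δ ^ 3)) ^ 2 =
        (N : ℝ) ^ 3 * V ^ 6 / (9 * Δ ^ 6) := by
      rw [div_pow, ← pow_mul, show 3 * 2 = 2 * 3 by norm_num, pow_mul, sq_DOne]
      push_cast
      ring
    rw [h4] at h3
    have h5 : (N : ℝ) ^ 3 ≤ T * N := by
      calc (N : ℝ) ^ 3 = (N : ℝ) ^ 2 * N := by ring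
        _ ≤ (T : ℝ) * N := by gcongr
    have h6 : (T : ℝ) ≤ T * N := le_mul_of_one_le_right hT0 hN1
    have h7 : (((2 ^ i * N ^ 3 : ℕ) : ℝ) + T) * ((2 ^ i * N ^ 3 : ℕ) : ℝ) ≤
        (4 * (T * N) + T * N) * (4 * (N : ℝ) ^ 3) := by
      push_cast
      gcongr
    refine le_of_mul_le_mul_right ((h3.trans (mul_le_mul_of_nonneg_left h7 hC0.le)).trans_eq ?_)
      (show 0 < (N : ℝ) ^ 3 * V ^ 6 / (9 * Δ ^ 6) by positivity)
    field_simp
    ring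
  · rw [card_range, nsmul_eq_mul]
    push_cast
    ring

theorem d2_stmt (hM : Z.MvStmt) (hS : Z.SplStmt) (hB : GM.B2Stmt) : DLV Bd2 := by
  obtain ⟨C, hC0, hC⟩ := hM
  intro ε hε
  obtain ⟨K, hK0, hK⟩ := hB ε hε
  obtain ⟨D, hD1, hD⟩ := exists_DivB (show 0 < ε / 18 by positivity)
  have hD0 : 0 < D := by linarith
  have hA : 0 < 540 * C * D ^ 6 * (2 : ℝ) ^ ε := by positivity
  refine ⟨2 * C + K + 540 * C * D ^ 6 * (2 : ℝ) ^ ε, by positivity,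
    fun N T V b hN hT hV hb => ?_⟩
  have hN1 : (1 : ℝ) ≤ N := by exact_mod_cast hN
  have hT1 : (1 : ℝ) ≤ T := by exact_mod_cast hT
  have h0 : 1 ≤ (N : ℝ) ^ ε := Real.one_le_rpow hN1 hε.le
  have h1 : (N : ℝ) ^ ε ≤ ((N : ℝ) * T) ^ ε :=
    Real.rpow_le_rpow (by positivity) (le_mul_of_one_le_right (by positivity) hT1) hε.le
  have hB1 : (N : ℝ) / V ^ 2 ≤ Bd2 N T V := le_add_of_nonneg_right (by positivity)
  have hB2 : (T : ℝ) * N / V ^ 6 ≤ Bd2 N T V := le_add_of_nonneg_left (by positivity)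
  have hB0 : 0 ≤ Bd2 N T V := le_trans (by positivity) hB1
  have key : ∀ A : ℝ, A ≤ 2 * C + K + 540 * C * D ^ 6 * (2 : ℝ) ^ ε →
      (cnt N b T (√N * V) : ℝ) ≤ A * (N : ℝ) ^ ε * Bd2 N T V →
      (cnt N b T (√N * V) : ℝ) ≤
        (2 * C + K + 540 * C * D ^ 6 * (2 : ℝ) ^ ε) * ((N : ℝ) * T) ^ ε * Bd2 N T V :=
    fun A hA' h => h.trans (by gcongr)
  rcases le_total T N with hTN | hNT
  · refine key (2 * C) (by linarith) ((mv_DOne hC N T V b hN hV hb).trans ?_)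
    have h2 : (T : ℝ) ≤ N := by exact_mod_cast hTN
    calc C * (((T : ℝ) + N) / V ^ 2) ≤ C * (((N : ℝ) + N) / V ^ 2) := by gcongr
      _ = 2 * C * 1 * ((N : ℝ) / V ^ 2) := by ring
      _ ≤ _ := by gcongr
  rcases le_total T (N ^ 2) with hT2 | hT2
  · exact key K (by linarith)
      (mid_DOne hN hV (hK N T hN hNT hT2 b hb _ (by positivity)))
  · refine key (540 * C * D ^ 6 * (2 : ℝ) ^ ε) (by linarith)
      ((top_DOne hC0 hC hS hN hT2 hV hb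
        (hD ((2 * N) ^ 3) (Nat.one_le_iff_ne_zero.2 (by positivity)))).trans ?_)
    have h2 : (D * ((((2 * N) ^ 3 : ℕ) : ℝ)) ^ (ε / 18)) ^ 6 =
        D ^ 6 * (2 : ℝ) ^ ε * (N : ℝ) ^ ε := by
      rw [mul_pow, mul_assoc, ← Real.mul_rpow (by norm_num) (by positivity)]
      congr 1
      push_cast
      rw [← Real.rpow_natCast, ← Real.rpow_natCast, ← Real.rpow_mul (by positivity),
        ← Real.rpow_mul (by positivity)]
      congr 1
      push_cast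
      ring
    rw [h2]
    calc 540 * C * (D ^ 6 * (2 : ℝ) ^ ε * (N : ℝ) ^ ε) * ((T : ℝ) * N / V ^ 6)
        = 540 * C * D ^ 6 * (2 : ℝ) ^ ε * (N : ℝ) ^ ε * ((T : ℝ) * N / V ^ 6) := by ring
      _ ≤ _ := by gcongr

end Pool.Agent.MP_c853c5_nt.E

end

section

set_option autoImplicit false

open Finset Filter

namespace Pool.Agent.MP_c853c5_nt.E

open Pool.Agent.MP_2a1f0e_nt Pool.Agent.MP_2a1f0e_nt.GM Pool.Agent.MP_2a1f0e_nt.DH

lemma lv_DThree {N T : ℕ} {V Z : ℝ} {b : ℕ → ℂ}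
    (h : ∀ W : Finset ℝ, (∀ t ∈ W, 0 ≤ t ∧ t ≤ T) → (∀ s ∈ W, ∀ t ∈ W, s ≠ t → 1 ≤ |s - t|) →
      (∀ t ∈ W, V ≤ ‖DP N b t‖) → (W.card : ℝ) ≤ Z) : (cnt N b T V : ℝ) ≤ Z := by
  classical
  rw [cnt, ← card_image_of_injective _ (Int.cast_injective (α := ℝ))]
  refine h _ ?_ ?_ ?_
  · simp only [forall_mem_image, mem_filter, mem_Icc]
    exact fun t ht => ⟨by exact_mod_cast ht.1.1, by exact_mod_cast ht.1.2⟩
  · simp only [forall_mem_image]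
    intro s _ t _ hst
    have : s - t ≠ 0 := sub_ne_zero.2 fun h => hst (by rw [h])
    exact_mod_cast Int.one_le_abs this
  · simp only [forall_mem_image, mem_filter]
    exact fun t ht => ht.2

lemma w2_DThree {n : ℝ} (hn : 0 ≤ n) (V : ℝ) : (√n * V) ^ 2 = n * V ^ 2 := by
  rw [mul_pow, Real.sq_sqrt hn]

lemma w4_DThree {n : ℝ} (hn : 0 ≤ n) (V : ℝ) : (√n * V) ^ 4 = n ^ 2 * V ^ 4 := by
  rw [show (4 : ℕ) = 2 * 2 from rfl, pow_mul, w2_DThree hn, mul_pow, ← pow_mul]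

lemma w6_DThree {n : ℝ} (hn : 0 ≤ n) (V : ℝ) : (√n * V) ^ 6 = n ^ 3 * V ^ 6 := by
  rw [show (6 : ℕ) = 2 * 3 from rfl, pow_mul, w2_DThree hn, mul_pow, ← pow_mul]

lemma fin_DThree {x c K P B B' : ℝ} (h : x ≤ c * B') (h0 : 0 ≤ B') (h1 : B' ≤ B) (h2 : c ≤ K * P)
    (h3 : 0 ≤ K * P) : x ≤ K * P * B :=
  h.trans (mul_le_mul h2 h1 h0 h3)

lemma short_DThree {C : ℝ} {N T : ℕ} {V : ℝ} {b : ℕ → ℂ} (hC : 0 < C) (hN : 1 ≤ N) (hT : T ≤ N)
    (hV : 0 < V) (h : (cnt N b T (√N * V) : ℝ) * (√N * V) ^ 2 ≤ C * (((N : ℝ) + T) * N)) :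
    (cnt N b T (√N * V) : ℝ) ≤ 2 * C * (N / V ^ 2) := by
  have n0 : (0 : ℝ) < N := by exact_mod_cast hN
  have t1 : (T : ℝ) ≤ N := by exact_mod_cast hT
  rw [w2_DThree n0.le] at h
  rw [← mul_div_assoc, le_div_iff₀ (by positivity)]
  refine le_of_mul_le_mul_right ?_ n0
  have := mul_le_mul_of_nonneg_left (mul_le_mul_of_nonneg_right t1 n0.le) hC.le
  linarith

lemma pw_DThree {N T : ℕ} (hN : 1 ≤ N) (hT : 1 ≤ T) {ε : ℝ} (hε : 0 < ε) :
    1 ≤ (N : ℝ) ^ ε ∧ (N : ℝ) ^ ε ≤ ((N : ℝ) * T) ^ ε := by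
  have n1 : (1 : ℝ) ≤ N := by exact_mod_cast hN
  have t1 : (1 : ℝ) ≤ T := by exact_mod_cast hT
  exact ⟨Real.one_le_rpow n1 hε.le,
    Real.rpow_le_rpow (by linarith) (le_mul_of_one_le_right (by linarith) t1) hε.le⟩

theorem d3_stmt (hM : Z.MvStmt) (h : Z.LVe (50 / 21)) : DLV Bd3 := by
  obtain ⟨C, hC, hM⟩ := hM
  intro ε hε
  obtain ⟨K, hK⟩ := h ε hε
  refine ⟨2 * C + |K|, by positivity, fun N T V b hN hT hV hb => ?_⟩
  have n0 : (0 : ℝ) < N := by exact_mod_cast hN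
  have w0 : 0 < √(N : ℝ) * V := by positivity
  obtain ⟨p1, p2⟩ := pw_DThree hN hT hε
  have k0 := abs_nonneg K
  rcases le_total T N with hTN | hNT
  · refine fin_DThree (short_DThree hC hN hTN hV (hM N T _ b hN w0 hb)) (by positivity)
      (le_add_of_nonneg_right (by positivity)) ?_ (by positivity)
    exact (le_add_of_nonneg_right k0).trans (le_mul_of_one_le_right (by positivity) (p1.trans p2))
  · refine fin_DThree (lv_DThree (hK N T _ hN (by exact_mod_cast hNT) w0 b hb)) (by positivity)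
      (le_of_eq ?_) (mul_le_mul (by linarith [le_abs_self K]) p2 (by positivity) (by positivity))
      (by positivity)
    rw [w2_DThree n0.le, w4_DThree n0.le, Bd3, show (50 / 21 : ℝ) = 8 / 21 + 2 by norm_num,
      Real.rpow_add n0, Real.rpow_two]
    field_simp
    ring

lemma long_DThree {C Δ : ℝ} {N T : ℕ} {V : ℝ} {b : ℕ → ℂ} (hC : 0 < C)
    (hM : ∀ (N T : ℕ) (V : ℝ) (b : ℕ → ℂ), 1 ≤ N → 0 < V → (∀ n, ‖b n‖ ≤ 1) →
      (cnt N b T V : ℝ) * V ^ 2 ≤ C * (((N : ℝ) + T) * N)) (hS : Z.SplStmt) (hN : 1 ≤ N)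
    (hT : N ^ 2 ≤ T) (hV : 0 < V) (hb : ∀ n, ‖b n‖ ≤ 1) (hΔ : DivB ((2 * N) ^ 2) Δ) :
    (cnt N b T (√N * V) : ℝ) ≤ 48 * C * Δ ^ 4 * (T / V ^ 4) := by
  have n0 : (0 : ℝ) < N := by exact_mod_cast hN
  have t1 : (N : ℝ) ^ 2 ≤ T := by exact_mod_cast hT
  have d0 : 0 < Δ := one_pos.trans_le hΔ.1
  obtain ⟨c, hc, h1⟩ := hS N 2 T Δ (√N * V) b hN (by norm_num) hΔ (by positivity) hb
  have key : ∀ (i : ℕ) (M : ℕ), 1 ≤ M → M ≤ 2 * N ^ 2 →
      (cnt M (c i) T ((√N * V) ^ 2 / ((2 : ℕ) * Δ ^ 2)) : ℝ) ≤ 24 * C * Δ ^ 4 * (T / V ^ 4) := by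
    intro i M m1 m2
    have h2 := hM M T ((√N * V) ^ 2 / ((2 : ℕ) * Δ ^ 2)) (c i) m1 (by positivity) (hc i)
    have m3 : (M : ℝ) ≤ 2 * (N : ℝ) ^ 2 := by exact_mod_cast m2
    have h3 : C * (((M : ℝ) + T) * M) ≤ C * ((3 * T) * (2 * (N : ℝ) ^ 2)) := by
      gcongr
      linarith
    refine ((le_div_iff₀ (by positivity)).2 (h2.trans h3)).trans_eq ?_
    rw [w2_DThree n0.le]
    push_cast
    field_simp
    ring
  have p0 : 1 ≤ N ^ 2 := Nat.one_le_pow _ _ hN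
  have a0 := key 0 (2 ^ 0 * N ^ 2) (by omega) (by omega)
  have a1 := key 1 (2 ^ 1 * N ^ 2) (by omega) (by omega)
  rw [sum_range_succ, sum_range_one] at h1
  have h2 : (cnt N b T (√N * V) : ℝ) ≤
      (cnt (2 ^ 0 * N ^ 2) (c 0) T ((√N * V) ^ 2 / ((2 : ℕ) * Δ ^ 2)) : ℝ) +
        (cnt (2 ^ 1 * N ^ 2) (c 1) T ((√N * V) ^ 2 / ((2 : ℕ) * Δ ^ 2)) : ℝ) := by
    rw [← Nat.cast_add]
    exact Nat.cast_le.2 h1
  linarith

theorem d4_stmt (hM : Z.MvStmt) (hS : Z.SplStmt) (h : RfIn) : DLV Bd4 := by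
  obtain ⟨C, hC, hM⟩ := hM
  intro ε hε
  obtain ⟨K, hK⟩ := h ε hε
  obtain ⟨Cd, cd, hd⟩ := DH.exists_DivB (ε := ε / 4) (by positivity)
  have q0 : 0 < 48 * C * (Cd ^ 4 * (4 : ℝ) ^ ε) := by positivity
  refine ⟨2 * C + |K| + 48 * C * (Cd ^ 4 * (4 : ℝ) ^ ε), by positivity,
    fun N T V b hN hT hV hb => ?_⟩
  have n0 : (0 : ℝ) < N := by exact_mod_cast hN
  have t0 : (0 : ℝ) < T := by exact_mod_cast hT
  have w0 : 0 < √(N : ℝ) * V := by positivity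
  obtain ⟨p1, p2⟩ := pw_DThree hN hT hε
  have k0 := abs_nonneg K
  rcases le_total T N with hTN | hNT
  · refine fin_DThree (short_DThree hC hN hTN hV (hM N T _ b hN w0 hb)) (by positivity)
      (le_add_of_nonneg_right (by positivity)) ?_ (by positivity)
    exact le_trans (by linarith) (le_mul_of_one_le_right (by positivity) (p1.trans p2))
  rcases le_total T (N ^ 2) with h2 | h2
  · refine fin_DThree (lv_DThree (hK N T _ hN (by exact_mod_cast hNT) (by exact_mod_cast h2) w0 b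
      hb)) (by positivity) ?_
      (mul_le_mul (by linarith [le_abs_self K]) p2 (by positivity) (by positivity)) (by positivity)
    have e : (N : ℝ) ^ 2 / (√N * V) ^ 2 +
        (N : ℝ) ^ (26 / 7 : ℝ) * (T : ℝ) ^ (1 / 7 : ℝ) / (√N * V) ^ 4 + T / V ^ 4 = Bd4 N T V := by
      rw [w2_DThree n0.le, w4_DThree n0.le, Bd4, show (26 / 7 : ℝ) = 12 / 7 + 2 by norm_num,
        Real.rpow_add n0, Real.rpow_two]
      field_simp
      ring
    rw [← e]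
    exact le_add_of_nonneg_right (by positivity)
  · have h3 : (2 * N) ^ 2 ≤ 4 * (N * T) := by
      rw [mul_pow]
      exact Nat.mul_le_mul_left 4 (h2.trans (Nat.le_mul_of_pos_left T hN))
    have h4 := DH.DivB_mono (hd (4 * (N * T)) (Nat.mul_pos (by norm_num) (Nat.mul_pos hN hT))) h3
    refine fin_DThree (long_DThree hC hM hS hN h2 hV hb h4) (by positivity) ?_ ?_ (by positivity)
    · rw [Bd4, add_div, ← add_assoc]
      exact le_add_of_nonneg_left (by positivity)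
    · have e : (Cd * ((4 * (N * T) : ℕ) : ℝ) ^ (ε / 4)) ^ 4 =
          Cd ^ 4 * (4 : ℝ) ^ ε * ((N : ℝ) * T) ^ ε := by
        rw [mul_pow, ← Real.rpow_mul_natCast (Nat.cast_nonneg _), mul_assoc,
          ← Real.mul_rpow (by norm_num) (by positivity)]
        push_cast
        rw [div_mul_cancel₀ ε (by norm_num)]
      rw [e, ← mul_assoc]
      exact mul_le_mul_of_nonneg_right (by linarith) (by positivity)

theorem d5_stmt (h : SqIn) : DLV Bd5 := by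
  intro ε hε
  obtain ⟨K, k0, hK⟩ := h ε hε
  refine ⟨K, k0, fun N T V b hN hT hV hb => ?_⟩
  have n0 : (0 : ℝ) < N := by exact_mod_cast hN
  obtain ⟨p1, p2⟩ := pw_DThree hN hT hε
  refine fin_DThree (hK N T _ b hN (by positivity) hb) (by positivity) (le_of_eq ?_)
    (mul_le_mul_of_nonneg_left p2 k0.le) (by positivity)
  rw [w4_DThree n0.le, w6_DThree n0.le, Bd5]
  field_simp

end Pool.Agent.MP_c853c5_nt.E

end

section

set_option autoImplicit false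

open Finset Filter

namespace Pool.Agent.MP_c853c5_nt.E

open Pool.Agent.MP_2a1f0e_nt Pool.Agent.MP_2a1f0e_nt.GM Pool.Agent.MP_2a1f0e_nt.DH

lemma term_Exp {x A a v E : ℝ} (hx : 1 < x) (k : ℕ) (hA : A ≤ x ^ a) (h : a - v * k ≤ E) :
    A / (x ^ v) ^ k ≤ x ^ E := by
  have h0 : 0 < x := by linarith
  rw [← Real.rpow_natCast, ← Real.rpow_mul h0.le]
  refine (div_le_div_of_nonneg_right hA (by positivity)).trans ?_
  rw [← Real.rpow_sub h0]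
  exact Real.rpow_le_rpow_of_exponent_le hx.le h

lemma pow_Exp {x A a p : ℝ} (hx : 1 < x) (h0 : 0 ≤ A) (hA : A ≤ x ^ a) (hp : 0 ≤ p) :
    A ^ p ≤ x ^ (a * p) := by
  rw [Real.rpow_mul (by linarith)]
  exact Real.rpow_le_rpow h0 hA hp

lemma mul_Exp {x A B a b : ℝ} (hx : 1 < x) (hA : A ≤ x ^ a) (h0 : 0 ≤ B) (hB : B ≤ x ^ b) :
    A * B ≤ x ^ (a + b) := by
  have h1 : 0 < x := by linarith
  rw [Real.rpow_add h1]
  exact mul_le_mul hA hB h0 (by positivity)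

lemma gen_Exp {B : ℝ → ℝ → ℝ → ℝ} (h : SLV B) {D ε : ℝ} (hD : 0 < D) (hε : 0 < ε) :
    ∀ᶠ x : ℝ in atTop, ∀ (V r E : ℝ) (L T : ℕ) (c : ℕ → ℂ) (W : Finset ℤ), 1 ≤ L → 1 ≤ T →
      0 < V → (L : ℝ) * T ≤ x ^ D → (∀ m, ‖c m‖ ≤ 1) → W ⊆ Icc 0 (T : ℤ) →
      x ^ (r + ε) ≤ W.card → W.card * V ≤ ∑ t ∈ W, ‖NP L c t‖ →
      B L T V ≤ 3 * x ^ (E + ε / 3) → r ≤ E := by
  obtain ⟨K, hK, h⟩ := h (ε / 3 / D) (by positivity)
  filter_upwards [ev_const_le (3 * K) (show 0 < ε / 3 by positivity), eventually_gt_atTop 1]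
    with x h1 hx V r E L T c W hL hT hV hLT hc hW hr hs hB
  have h0 : 0 < x := by linarith
  have h2 := pow_Exp hx (by positivity) hLT (show 0 ≤ ε / 3 / D by positivity)
  rw [mul_div_cancel₀ _ hD.ne'] at h2
  have h3 : x ^ (r + ε) ≤ x ^ (E + ε) :=
    calc x ^ (r + ε) ≤ K * ((L : ℝ) * T) ^ (ε / 3 / D) * B L T V :=
          hr.trans (h L T V c W hL hT hV hc hW hs)
      _ ≤ K * ((L : ℝ) * T) ^ (ε / 3 / D) * (3 * x ^ (E + ε / 3)) := by gcongr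
      _ ≤ K * x ^ (ε / 3) * (3 * x ^ (E + ε / 3)) := by gcongr
      _ = 3 * K * (x ^ (ε / 3) * x ^ (E + ε / 3)) := by ring
      _ ≤ x ^ (ε / 3) * (x ^ (ε / 3) * x ^ (E + ε / 3)) := by gcongr
      _ = x ^ (E + ε) := by
          rw [← Real.rpow_add h0, ← Real.rpow_add h0]
          congr 1
          ring
  have := (Real.rpow_le_rpow_left_iff hx).1 h3
  linarith

theorem exp_stmt (h1 : SLV Bd1) (h2 : SLV Bd2) (h3 : SLV Bd3) (h4 : SLV Bd4) (h5 : SLV Bd5) :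
    ExpStmt := by
  intro D ε hε
  obtain ⟨γ, g0, g1, g2⟩ : ∃ γ : ℝ, 0 < γ ∧ γ ≤ 1 ∧ γ ≤ ε / 30 :=
    ⟨min 1 (ε / 30), by positivity, min_le_left _ _, min_le_right _ _⟩
  have hD : 0 < |D| + 3 := by positivity
  refine ⟨γ, g0, ?_⟩
  filter_upwards [gen_Exp h1 hD hε, gen_Exp h2 hD hε, gen_Exp h3 hD hε, gen_Exp h4 hD hε,
    gen_Exp h5 hD hε, eventually_gt_atTop 1]
    with x k1 k2 k3 k4 k5 hx τ n w r L T c W _ t1 _ n1 hL l1 hT s1 hc hW hr hs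
  have h0 : 0 < x := by linarith
  have l0 : (0 : ℝ) ≤ L := Nat.cast_nonneg _
  have s0 : (0 : ℝ) ≤ T := Nat.cast_nonneg _
  have hV : 0 < x ^ (w - γ) := by positivity
  have hLT : (L : ℝ) * T ≤ x ^ (|D| + 3) := (mul_Exp hx l1 s0 s1).trans
    (Real.rpow_le_rpow_of_exponent_le hx.le (by linarith [le_abs_self D]))
  have two : ∀ {a b E : ℝ}, a ≤ x ^ E → b ≤ x ^ E → a + b ≤ 3 * x ^ E := fun {a b E} ha hb => by
    have : 0 < x ^ E := by positivity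
    linarith
  have three : ∀ {a b d E : ℝ}, a ≤ x ^ E → b ≤ x ^ E → d ≤ x ^ E → a + (b + d) ≤ 3 * x ^ E :=
    fun ha hb hd => by linarith
  refine ⟨k1 _ r _ L T c W hL hT hV hLT hc hW hr hs ?_,
    k2 _ r _ L T c W hL hT hV hLT hc hW hr hs ?_, k3 _ r _ L T c W hL hT hV hLT hc hW hr hs ?_,
    k4 _ r _ L T c W hL hT hV hLT hc hW hr hs ?_, k5 _ r _ L T c W hL hT hV hLT hc hW hr hs ?_⟩
  · rw [Bd1, add_div]
    refine two (term_Exp hx 2 s1 ?_) (term_Exp hx 2 l1 ?_) <;> push_cast <;>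
      linarith [le_max_left τ n, le_max_right τ n]
  · rw [Bd2]
    refine two (term_Exp hx 2 l1 ?_) (term_Exp hx 6 (mul_Exp hx s1 l0 l1) ?_) <;> push_cast <;>
      linarith [le_max_left (n - 2 * w) (τ + n - 6 * w), le_max_right (n - 2 * w) (τ + n - 6 * w)]
  · rw [Bd3, add_div, Real.sqrt_eq_rpow]
    obtain ⟨a1, a2⟩ := max_le_iff.1 (le_refl (max (n - 2 * w)
      (max (τ / 2 + n - 4 * w) (τ + 8 / 21 * n - 4 * w))))
    obtain ⟨a2, a3⟩ := max_le_iff.1 a2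
    refine three (term_Exp hx 2 l1 ?_)
      (term_Exp hx 4 (mul_Exp hx (pow_Exp hx s0 s1 (by norm_num)) l0 l1) ?_)
      (term_Exp hx 4 (mul_Exp hx s1 (by positivity) (pow_Exp hx l0 l1 (by norm_num))) ?_) <;>
      push_cast <;> linarith
  · rw [Bd4, add_div]
    obtain ⟨a1, a2⟩ := max_le_iff.1 (le_refl (max (n - 2 * w)
      (12 / 7 * max n (τ / 2) + τ / 7 - 4 * w)))
    refine three (term_Exp hx 2 l1 ?_)
      (term_Exp hx 4 (mul_Exp hx (pow_Exp hx l0 l1 (by norm_num)) (by positivity)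
        (pow_Exp hx s0 s1 (by norm_num))) ?_) (term_Exp hx 4 s1 ?_) <;>
      push_cast <;> linarith [le_max_left n (τ / 2), le_max_right n (τ / 2)]
  · rw [Bd5, add_div, sq]
    obtain ⟨a1, a2⟩ := max_le_iff.1 (le_refl (max (2 * n - 4 * w)
      (max (3 / 4 * τ + n - 6 * w) (τ - 6 * w))))
    obtain ⟨a2, a3⟩ := max_le_iff.1 a2
    refine three (term_Exp hx 4 (mul_Exp hx l1 l0 l1) ?_)
      (term_Exp hx 6 (mul_Exp hx (pow_Exp hx s0 s1 (by norm_num)) l0 l1) ?_)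
      (term_Exp hx 6 s1 ?_) <;> push_cast <;> linarith

end Pool.Agent.MP_c853c5_nt.E

end

section

set_option autoImplicit false
open Finset Filter
namespace Pool.Agent.MP_c853c5_nt.E
open Pool.Agent.MP_2a1f0e_nt Pool.Agent.MP_2a1f0e_nt.GM Pool.Agent.MP_2a1f0e_nt.DH

lemma split_GridII {ι : Type} [Fintype ι] [DecidableEq ι] {a b c : ι} (hab : a ≠ b)
    (hac : a ≠ c) (hbc : b ≠ c) (f : ι → ℝ) :
    ∏ j, f j = f a * (f b * (f c * ∏ j ∈ ((univ.erase a).erase b).erase c, f j)) := by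
  rw [mul_prod_erase _ f (mem_erase.2 ⟨hbc.symm, mem_erase.2 ⟨hac.symm, mem_univ c⟩⟩),
    mul_prod_erase _ f (mem_erase.2 ⟨hab.symm, mem_univ b⟩), mul_prod_erase _ f (mem_univ a)]

lemma on_GridII {ι : Type} [Fintype ι] [DecidableEq ι] {a b c : ι} (hab : a ≠ b)
    (hac : a ≠ c) (hbc : b ≠ c) (S : Finset ℤ) (f : ι → ℤ → ℝ) (N : ι → ℝ) {H q : ℝ}
    (hH : 0 ≤ H) (hq : 0 < q) (hN : ∀ j, 0 ≤ N j) (h0 : ∀ j m, 0 ≤ f j m)
    (h1 : ∀ j m, f j m ≤ 2 * N j) (ha : ∑ m ∈ S, f a m ^ 2 ≤ H * N a ^ 2)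
    (hb : ∑ m ∈ S, f b m ^ 2 ≤ H * N b ^ 2) (hc : ∀ m ∈ S, f c m ≤ N c / q) :
    ∑ m ∈ S, ∏ j, f j m ≤ H / q * ∏ j, (2 * N j) := by
  set R := ∏ j ∈ ((univ.erase a).erase b).erase c, (2 * N j) with hR
  have hR0 : 0 ≤ R := prod_nonneg fun j _ => by have := hN j; positivity
  have hNa := hN a
  have hNb := hN b
  have hNc := hN c
  have e1 : ∑ m ∈ S, f a m * f b m ≤ H * N a * N b := by
    refine le_of_sq_le_sq ((sum_mul_sq_le_sq_mul_sq S _ _).trans ?_) (by positivity)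
    refine (mul_le_mul ha hb (sum_nonneg fun _ _ => sq_nonneg _) (by positivity)).trans ?_
    exact le_of_eq (by ring)
  have e2 : ∑ m ∈ S, ∏ j, f j m ≤ (∑ m ∈ S, f a m * f b m) * (N c / q * R) := by
    rw [sum_mul]
    refine sum_le_sum fun m hm => ?_
    rw [split_GridII hab hac hbc fun j => f j m, ← mul_assoc]
    refine mul_le_mul_of_nonneg_left ?_ (mul_nonneg (h0 a m) (h0 b m))
    exact mul_le_mul (hc m hm) (prod_le_prod (fun j _ => h0 j m) fun j _ => h1 j m)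
      (prod_nonneg fun j _ => h0 j m) (by positivity)
  refine e2.trans ((mul_le_mul_of_nonneg_right e1 (by positivity)).trans ?_)
  rw [split_GridII hab hac hbc fun j => 2 * N j, ← hR]
  have e3 : 0 ≤ H / q * (N a * N b * N c * R) := by positivity
  have e4 : H * N a * N b * (N c / q * R) = H / q * (N a * N b * N c * R) := by ring
  have e5 : H / q * (2 * N a * (2 * N b * (2 * N c * R))) =
      8 * (H / q * (N a * N b * N c * R)) := by ring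
  rw [e4, e5]
  linarith

theorem gridII_stmt (hC : CoreStmt) (hS : SelfStmt) (hH : HalStmt) : GridIIStmt := by
  classical
  intro ι _ K A η c₀ ia ib ic hab hac hbc hη hc₀
  obtain ⟨rH, C, hr, hC0, hH⟩ := hH c₀ hc₀
  obtain ⟨ε, hε, e1, e2, e3⟩ : ∃ ε : ℝ, 0 < ε ∧ ε ≤ rH / 2 ∧ ε ≤ η * (rH / 2) / 2 ∧ ε ≤ 1 / 2 :=
    ⟨min (rH / 2) (min (η * (rH / 2) / 2) (1 / 2)), by positivity, min_le_left _ _,
      (min_le_right _ _).trans (min_le_left _ _), (min_le_right _ _).trans (min_le_right _ _)⟩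
  obtain ⟨g, hg, hgε, hC⟩ := hC ι K ε hε
  obtain ⟨D, hD, hD1⟩ : ∃ D : ℝ, D = 2 ^ Fintype.card ι * 8 ∧ 1 ≤ D :=
    ⟨_, rfl, by linarith [one_le_pow₀ (n := Fintype.card ι) (show (1 : ℝ) ≤ 2 by norm_num)]⟩
  refine ⟨g / 2, by positivity, ?_⟩
  filter_upwards [hH, hC, eventually_gt_atTop 1, ev_const_le 2 (half_pos hg),
    ev_log_le (4 * D) A hε, ev_le_log (2 * C * D)] with x hH hC hx h2 h3 h4
  intro τ u b T N c S hτ0 hτ1 hb hE hT hTx hN hP ha hb' hc hS' hic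
  have hx0 : 0 < x := by linarith
  have hl : 0 < Real.log x := Real.log_pos hx
  have hN0 : ∀ j, (0 : ℝ) < N j := fun j => by exact_mod_cast (hN j).1
  have hTx' : (T : ℝ) ≤ x := by
    refine hTx.trans ((Real.rpow_le_rpow_of_exponent_le hx.le ?_).trans_eq (Real.rpow_one x))
    linarith
  obtain ⟨S₀, s1, s2, s3⟩ := hC (fun _ _ => True) τ η (1 / 2) (rH / 2) b T (fun j => 2 * N j) S
    (fun j m => ‖BP (N j) (c j) (u + m)‖ / √((2 * N j : ℕ) : ℝ)) hτ0 (by linarith) hη.le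
    (by positivity) hb hE.toX hT
    (hTx.trans (Real.rpow_le_rpow_of_exponent_le hx.le (by linarith)))
    (fun j => ⟨by have := (hN j).1; omega, by
      rw [show b j + g = g / 2 + (b j + g / 2) by ring, Real.rpow_add hx0]
      push_cast
      exact mul_le_mul h2 (hN j).2 (hN0 j).le (Real.rpow_nonneg hx0.le _)⟩)
    hS' (fun j t _ => by positivity)
    (fun j => (hS S (Icc (N j) (2 * N j)) (c j) (2 * N j) u (by have := (hN j).1; omega)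
      (Icc_subset_Icc (hN j).1 le_rfl) (hc j)).mono zero_le_one zero_le_one
      (by rw [one_mul]; exact Real.one_le_rpow hx.le hg.le)
      fun t _ => ⟨by positivity, (one_mul _).ge⟩)
    (fun _ _ _ _ _ _ => trivial)
  have hP2 : ∏ j, (2 * (N j : ℝ)) ≤ D * x := by
    rw [prod_mul_distrib, prod_const, card_univ, hD, mul_assoc]
    exact mul_le_mul_of_nonneg_left hP (by positivity)
  have hcard : (S₀.card : ℝ) ≤ x ^ rH :=
    s2.trans (Real.rpow_le_rpow_of_exponent_le hx.le (by linarith))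
  have k1 := on_GridII hab hac hbc S₀ (fun j m => ‖BP (N j) (c j) (u + m)‖) (fun j => (N j : ℝ))
    (H := C * Real.log x) (q := Real.log x ^ (A + 2)) (by positivity) (by positivity)
    (fun j => (hN0 j).le) (fun _ _ => norm_nonneg _) (fun j m => norm_BP_le (hN j).1 (hc j) _)
    ((hH (N ia) T (c ia) u S₀ ha hTx' (s1.trans hS') hcard (hc ia)).trans_eq (by ring))
    ((hH (N ib) T (c ib) u S₀ hb' hTx' (s1.trans hS') hcard (hc ib)).trans_eq (by ring))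
    fun m hm => hic m (s1 hm)
  have k2 : C * Real.log x / Real.log x ^ (A + 2) * ∏ j, (2 * (N j : ℝ)) ≤
      x / Real.log x ^ A / 2 := by
    refine (mul_le_mul_of_nonneg_left hP2 (by positivity)).trans ?_
    have e : C * Real.log x / Real.log x ^ (A + 2) * (D * x) =
        x / Real.log x ^ A / 2 * (2 * C * D / Real.log x) := by
      field_simp
      ring
    rw [e]
    exact mul_le_of_le_one_right (by positivity) ((div_le_one hl).2 h4)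
  set Q := ∏ j, √((2 * N j : ℕ) : ℝ) with hQ
  have hQ0 : 0 ≤ Q := prod_nonneg fun _ _ => Real.sqrt_nonneg _
  have hQ1 : Q ≤ D * x ^ (1 / 2 : ℝ) := by
    refine le_of_sq_le_sq ?_ (by positivity)
    have q1 : Q ^ 2 = ∏ j, (2 * (N j : ℝ)) := by
      rw [hQ, ← prod_pow]
      refine prod_congr rfl fun j _ => ?_
      rw [Real.sq_sqrt (Nat.cast_nonneg _)]
      push_cast
      rfl
    have q2 : (x ^ (1 / 2 : ℝ)) ^ 2 = x := by
      rw [← Real.sqrt_eq_rpow, Real.sq_sqrt hx0.le]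
    rw [q1, mul_pow, q2]
    exact hP2.trans (mul_le_mul_of_nonneg_right (by nlinarith) hx0.le)
  have k3 : ∑ m ∈ S \ S₀, ∏ j, ‖BP (N j) (c j) (u + m)‖ =
      Q * ∑ m ∈ S \ S₀, ∏ j, ‖BP (N j) (c j) (u + m)‖ / √((2 * N j : ℕ) : ℝ) := by
    rw [mul_sum]
    refine sum_congr rfl fun m _ => ?_
    rw [hQ, ← prod_mul_distrib]
    refine prod_congr rfl fun j _ => ?_
    have : 0 < √((2 * N j : ℕ) : ℝ) := Real.sqrt_pos.2 (by have := hN0 j; push_cast; positivity)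
    field_simp
  have k4 : x ^ (1 / 2 - η * (rH / 2) + ε) + 1 ≤ 2 * x ^ (1 / 2 - ε) := by
    have a1 : x ^ (1 / 2 - η * (rH / 2) + ε) ≤ x ^ (1 / 2 - ε) :=
      Real.rpow_le_rpow_of_exponent_le hx.le (by linarith)
    have a2 : 1 ≤ x ^ (1 / 2 - ε) := Real.one_le_rpow hx.le (by linarith)
    linarith
  have k5 : D * x ^ (1 / 2 : ℝ) * (2 * x ^ (1 / 2 - ε)) ≤ x / Real.log x ^ A / 2 := by
    have a1 : x ^ (1 / 2 : ℝ) * x ^ (1 / 2 - ε) * x ^ ε = x := by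
      rw [← Real.rpow_add hx0, ← Real.rpow_add hx0,
        show (1 / 2 + (1 / 2 - ε) + ε : ℝ) = 1 by ring, Real.rpow_one]
    have a2 : 0 ≤ x ^ (1 / 2 : ℝ) * x ^ (1 / 2 - ε) := by positivity
    have a3 := mul_le_mul_of_nonneg_left h3 a2
    rw [a1] at a3
    rw [le_div_iff₀ two_pos, le_div_iff₀ (by positivity)]
    linarith
  have k6 := mul_le_mul hQ1 (s3.trans k4)
    (sum_nonneg fun m _ => prod_nonneg fun j _ => by positivity) (by positivity)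
  rw [← sum_sdiff s1, k3]
  linarith

end Pool.Agent.MP_c853c5_nt.E

end

section

set_option autoImplicit false

open Finset Filter

namespace Pool.Agent.MP_c853c5_nt.E

open Pool.Agent.MP_2a1f0e_nt Pool.Agent.MP_2a1f0e_nt.GM Pool.Agent.MP_2a1f0e_nt.DH

theorem term_Reg {a V lam : ℝ} {k : ℕ} (ha : 0 ≤ a) (hV : 0 < V) (hl : 1 ≤ lam) (h2 : 2 ≤ k)
    (h6 : k ≤ 6) :
    a / (V / lam) ^ k ≤ lam ^ 6 * (a / V ^ k) ∧ a / (lam * V) ^ k ≤ a / V ^ k / lam ^ 2 := by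
  have hl0 : 0 < lam := one_pos.trans_le hl
  have h0 : 0 ≤ a / V ^ k := by positivity
  constructor
  · have e : a / (V / lam) ^ k = lam ^ k * (a / V ^ k) := by
      rw [div_pow]
      field_simp
    rw [e]
    exact mul_le_mul_of_nonneg_right (pow_le_pow_right₀ hl h6) h0
  · have e : a / (lam * V) ^ k = a / V ^ k / lam ^ k := by
      rw [mul_pow]
      field_simp
    rw [e]
    exact div_le_div_of_nonneg_left h0 (by positivity) (pow_le_pow_right₀ hl h2)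

theorem two_Reg {B : ℝ → ℝ → ℝ → ℝ} (f g : ℝ → ℝ → ℝ) (k m : ℕ) (k2 : 2 ≤ k) (k6 : k ≤ 6)
    (m2 : 2 ≤ m) (m6 : m ≤ 6) (hB : ∀ L T V, B L T V = f L T / V ^ k + g L T / V ^ m)
    (hf : ∀ L L' T, 1 ≤ L → L ≤ L' → 1 ≤ T → 0 ≤ f L T ∧ f L T ≤ f L' T)
    (hg : ∀ L L' T, 1 ≤ L → L ≤ L' → 1 ≤ T → 0 ≤ g L T ∧ g L T ≤ g L' T) : Reg B := by
  constructor
  · intro L L' T V h1 h2 h3 hV
    obtain ⟨a1, a2⟩ := hf L L' T h1 h2 h3
    obtain ⟨b1, b2⟩ := hg L L' T h1 h2 h3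
    rw [hB, hB]
    exact ⟨by positivity, by gcongr⟩
  · intro L T V lam h1 h3 hV hl
    obtain ⟨a1, a2⟩ := term_Reg (hf L L T h1 le_rfl h3).1 hV hl k2 k6
    obtain ⟨b1, b2⟩ := term_Reg (hg L L T h1 le_rfl h3).1 hV hl m2 m6
    rw [hB, hB, hB, mul_add, add_div]
    exact ⟨add_le_add a1 b1, add_le_add a2 b2⟩

theorem reg_stmt : RegStmt := by
  refine ⟨two_Reg (fun _ T => T) (fun L _ => L) 2 2 le_rfl (by norm_num) le_rfl (by norm_num)
      (fun L T V => add_div _ _ _) ?_ ?_,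
    two_Reg (fun L _ => L) (fun L T => T * L) 2 6 le_rfl (by norm_num) (by norm_num) le_rfl
      (fun L T V => rfl) ?_ ?_,
    two_Reg (fun L _ => L) (fun L T => √T * L + T * L ^ (8 / 21 : ℝ)) 2 4 le_rfl (by norm_num)
      (by norm_num) (by norm_num) (fun L T V => rfl) ?_ ?_,
    two_Reg (fun L _ => L) (fun L T => L ^ (12 / 7 : ℝ) * T ^ (1 / 7 : ℝ) + T) 2 4 le_rfl
      (by norm_num) (by norm_num) (by norm_num) (fun L T V => rfl) ?_ ?_,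
    two_Reg (fun L _ => L ^ 2) (fun L T => T ^ (3 / 4 : ℝ) * L + T) 4 6 (by norm_num)
      (by norm_num) (by norm_num) le_rfl (fun L T V => rfl) ?_ ?_⟩ <;>
  · intro L L' T h1 h2 h3
    have hL : 0 ≤ L := zero_le_one.trans h1
    have hT : 0 ≤ T := zero_le_one.trans h3
    exact ⟨by positivity, by gcongr⟩

end Pool.Agent.MP_c853c5_nt.E

end

section

set_option autoImplicit false

open Finset Filter Real
open scoped ComplexConjugate

namespace Pool.Agent.MP_c853c5_nt.DS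

open Pool.Agent.MP_88bd62_nt.U (ex)

lemma am_Cmp2 {X Δ Γ n n' : ℝ} (hX : 0 < X) (hΓ : 0 < Γ) (hn : 0 < n) (hn' : 0 < n') :
    √(n * n') / X * am X Δ Γ n n' 0 =
      √(n' / n) * Z.gg (√(Γ ^ 2 + (n' / n) ^ 2 * Δ ^ 2)) (n' / n - 1) := by
  obtain ⟨z, rfl⟩ : ∃ z, n' = n * z := ⟨n' / n, by field_simp⟩
  rw [mul_div_cancel_left₀ _ hn.ne']
  have h0 : 0 < Γ ^ 2 + z ^ 2 * Δ ^ 2 := by positivity
  have h1 : dd Δ Γ n (n * z) = n ^ 2 * (Γ ^ 2 + z ^ 2 * Δ ^ 2) := by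
    unfold dd
    ring
  have h2 : √(n * (n * z)) = n * √z := by
    rw [← mul_assoc, Real.sqrt_mul (mul_self_nonneg n), Real.sqrt_mul_self hn.le]
  have h3 : π * (n - n * z) ^ 2 / (n ^ 2 * (Γ ^ 2 + z ^ 2 * Δ ^ 2)) =
      π * (z - 1) ^ 2 / (Γ ^ 2 + z ^ 2 * Δ ^ 2) := by
    field_simp
    ring
  have h4 : 0 < √(Γ ^ 2 + z ^ 2 * Δ ^ 2) := Real.sqrt_pos.2 h0
  unfold am Z.gg
  rw [h1, h2, h3, Real.sq_sqrt h0.le, Real.sqrt_mul (sq_nonneg n), Real.sqrt_sq hn.le]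
  simp only [Int.cast_zero, ne_eq, OfNat.ofNat_ne_zero, not_false_eq_true, zero_pow, mul_zero,
    zero_mul, zero_div, neg_zero, Real.exp_zero, mul_one]
  field_simp

lemma exp_Cmp2 {p q m : ℝ} (hp : m ≤ p) (hq : m ≤ q) :
    |Real.exp (-p) - Real.exp (-q)| ≤ |p - q| * Real.exp (-m) := by
  have key : ∀ {p q : ℝ}, m ≤ p → p ≤ q →
      |Real.exp (-p) - Real.exp (-q)| ≤ (q - p) * Real.exp (-m) := by
    intro p q h1 h2
    have h3 : Real.exp (-q) ≤ Real.exp (-p) := Real.exp_le_exp.2 (by linarith)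
    have h4 : Real.exp (-p) ≤ Real.exp (-m) := Real.exp_le_exp.2 (by linarith)
    have h5 : Real.exp (-q) = Real.exp (-p) * Real.exp (-(q - p)) := by
      rw [← Real.exp_add]
      congr 1
      ring
    have h6 := mul_le_mul_of_nonneg_left (Real.add_one_le_exp (-(q - p))) (Real.exp_pos (-p)).le
    have h7 := mul_le_mul_of_nonneg_left h4 (sub_nonneg.2 h2)
    rw [abs_of_nonneg (by linarith)]
    linarith
  rcases le_total p q with h | h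
  · rw [abs_sub_comm p q, abs_of_nonneg (sub_nonneg.2 h)]
    exact key hp h
  · rw [abs_sub_comm, abs_of_nonneg (sub_nonneg.2 h)]
    exact key hq h

lemma gg_Cmp2 {s σ y : ℝ} (hs : 0 < s) (hσ : 0 < σ) (h1 : s ^ 2 ≤ 2 * σ ^ 2)
    (h2 : σ ^ 2 ≤ 2 * s ^ 2) (h3 : |σ ^ 2 - s ^ 2| ≤ 2 * |y| * s ^ 2) :
    |Z.gg σ y - Z.gg s y| ≤ 36 := by
  obtain ⟨u, hu0, hu⟩ : ∃ u : ℝ, 0 ≤ u ∧ |y| = u * s := ⟨|y| / s, by positivity, by field_simp⟩
  have hy : y ^ 2 = u ^ 2 * s ^ 2 := by rw [← sq_abs, hu, mul_pow]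
  have hπ := Real.pi_gt_three
  have hπ' := Real.pi_le_four
  have a1 : u ^ 2 ≤ π * y ^ 2 / σ ^ 2 := by
    rw [le_div_iff₀ (by positivity), hy]
    calc u ^ 2 * σ ^ 2 ≤ u ^ 2 * (2 * s ^ 2) := by gcongr
      _ = 2 * (u ^ 2 * s ^ 2) := by ring
      _ ≤ π * (u ^ 2 * s ^ 2) := by
          gcongr
          linarith
  have a2 : u ^ 2 ≤ π * y ^ 2 / s ^ 2 := by
    rw [le_div_iff₀ (by positivity), hy]
    exact le_mul_of_one_le_left (by positivity) (by linarith)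
  have a3 : s ≤ 2 * σ := le_of_pow_le_pow_left₀ (n := 2) (by norm_num) (by positivity)
    (by nlinarith [sq_nonneg σ])
  have b1 : |σ⁻¹ - s⁻¹| ≤ 4 * u := by
    have e : σ⁻¹ - s⁻¹ = -(σ ^ 2 - s ^ 2) / (σ * s * (σ + s)) := by
      field_simp
      ring
    rw [e, abs_div, abs_neg, abs_of_pos (show 0 < σ * s * (σ + s) by positivity),
      div_le_iff₀ (by positivity)]
    calc |σ ^ 2 - s ^ 2| ≤ 2 * |y| * s ^ 2 := h3
      _ = 2 * u * s * (s * s) := by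
          rw [hu]
          ring
      _ ≤ 2 * u * s * (2 * σ * (σ + s)) := by
          gcongr
          linarith
      _ = _ := by ring
  have b2 : |π * y ^ 2 / σ ^ 2 - π * y ^ 2 / s ^ 2| ≤ 16 * u ^ 3 * s := by
    have e : π * y ^ 2 / σ ^ 2 - π * y ^ 2 / s ^ 2 = -(σ ^ 2 - s ^ 2) * (π * u ^ 2 / σ ^ 2) := by
      rw [hy]
      field_simp
      ring
    rw [e, abs_mul, abs_neg, abs_of_nonneg (show 0 ≤ π * u ^ 2 / σ ^ 2 by positivity)]
    calc |σ ^ 2 - s ^ 2| * (π * u ^ 2 / σ ^ 2)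
        ≤ 2 * (u * s) * (2 * σ ^ 2) * (4 * u ^ 2 / σ ^ 2) := by
          gcongr
          rw [← hu]
          exact h3.trans (by gcongr)
      _ = _ := by
          field_simp
          ring
  have c0 := Real.quadratic_le_exp_of_nonneg (sq_nonneg u)
  have c1 : u * Real.exp (-u ^ 2) ≤ 1 := by
    rw [Real.exp_neg, ← div_eq_mul_inv, div_le_one (Real.exp_pos _)]
    nlinarith [sq_nonneg (u - 1), sq_nonneg (u ^ 2)]
  have c2 : u ^ 3 * Real.exp (-u ^ 2) ≤ 2 := by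
    rw [Real.exp_neg, ← div_eq_mul_inv, div_le_iff₀ (Real.exp_pos _)]
    nlinarith [sq_nonneg (u ^ 2 - u), sq_nonneg u, sq_nonneg (u ^ 2)]
  have e : Z.gg σ y - Z.gg s y = (σ⁻¹ - s⁻¹) * Real.exp (-(π * y ^ 2 / σ ^ 2)) +
      s⁻¹ * (Real.exp (-(π * y ^ 2 / σ ^ 2)) - Real.exp (-(π * y ^ 2 / s ^ 2))) := by
    unfold Z.gg
    ring
  have d1 : |(σ⁻¹ - s⁻¹) * Real.exp (-(π * y ^ 2 / σ ^ 2))| ≤ 4 * u * Real.exp (-u ^ 2) := by
    rw [abs_mul, abs_of_pos (Real.exp_pos _)]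
    gcongr
  have d2 : |s⁻¹ * (Real.exp (-(π * y ^ 2 / σ ^ 2)) - Real.exp (-(π * y ^ 2 / s ^ 2)))| ≤
      16 * u ^ 3 * Real.exp (-u ^ 2) := by
    rw [abs_mul, abs_of_pos (inv_pos.2 hs), inv_mul_le_iff₀ hs]
    refine (exp_Cmp2 a1 a2).trans ((mul_le_mul_of_nonneg_right b2 (Real.exp_pos _).le).trans_eq ?_)
    ring
  rw [e]
  refine (abs_add_le _ _).trans ?_
  linarith

theorem cmp2_stmt (h0 : Cmp0Stmt) : Cmp2Stmt := by
  obtain ⟨C, hC0, hC⟩ := h0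
  refine ⟨C + 72, by linarith, fun X Δ Γ n n' hX hΔ hΔΓ hΓ1 hn hn' => ?_⟩
  have hΓ : 0 < Γ := hΔ.trans_le hΔΓ
  have hz : 0 < n' / n := by positivity
  have hl : ∀ s : ℝ, Z.gg s (Real.log n - Real.log n') = Z.gg s (Real.log (n' / n)) := by
    intro s
    unfold Z.gg
    rw [Real.log_div hn'.ne' hn.ne', ← neg_sub, neg_sq]
  rw [am_Cmp2 hX hΓ hn hn', hl]
  generalize n' / n = z at hz
  have hsq : Δ ^ 2 ≤ Γ ^ 2 := by gcongr
  have hs0 : 0 < Δ ^ 2 + Γ ^ 2 := by positivity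
  have hσ0 : 0 < Γ ^ 2 + z ^ 2 * Δ ^ 2 := by positivity
  have hs := Real.sq_sqrt hs0.le
  have hσ := Real.sq_sqrt hσ0.le
  have hs1 := Real.sqrt_pos.2 hs0
  have hσ1 := Real.sqrt_pos.2 hσ0
  have hs2 : Γ ≤ √(Δ ^ 2 + Γ ^ 2) := Real.le_sqrt_of_sq_le (by linarith [sq_nonneg Δ])
  have hσ2 : Γ ≤ √(Γ ^ 2 + z ^ 2 * Δ ^ 2) :=
    Real.le_sqrt_of_sq_le (le_add_of_nonneg_right (by positivity))
  obtain ⟨k1, k2⟩ := hC z _ hz hs1 (Real.sqrt_le_one.2 (by nlinarith))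
  generalize √(Δ ^ 2 + Γ ^ 2) = s at hs hs1 hs2 k1 k2
  generalize √(Γ ^ 2 + z ^ 2 * Δ ^ 2) = σ at hσ hσ1 hσ2
  have hΔ2 : 0 < Δ ^ 2 := by positivity
  refine ⟨fun hy => ?_, fun δ hδ0 hδ1 hδ => ⟨?_, (k2 δ hδ0 hδ1 hδ).1.trans ?_⟩⟩
  · obtain ⟨hy1, hy2⟩ := abs_le.1 hy
    have a1 : z ^ 2 * Δ ^ 2 ≤ 9 / 4 * Δ ^ 2 := by
      gcongr
      nlinarith
    have a2 : 0 ≤ z ^ 2 * Δ ^ 2 := by positivity
    have a3 : |σ ^ 2 - s ^ 2| ≤ 2 * |z - 1| * s ^ 2 := by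
      have e : σ ^ 2 - s ^ 2 = (z - 1) * ((z + 1) * Δ ^ 2) := by
        rw [hs, hσ]
        ring
      rw [e, abs_mul, abs_of_pos (show 0 < (z + 1) * Δ ^ 2 by positivity), mul_comm 2, mul_assoc]
      refine mul_le_mul_of_nonneg_left ?_ (abs_nonneg _)
      have := mul_le_mul_of_nonneg_right (show z + 1 ≤ 4 by linarith) hΔ2.le
      linarith
    have a4 := gg_Cmp2 hs1 hσ1 (by linarith) (by linarith) a3
    have a5 : √z ≤ 2 := Real.sqrt_le_iff.2 ⟨by norm_num, by linarith⟩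
    have a6 : |√z * (Z.gg σ (z - 1) - Z.gg s (z - 1))| ≤ 2 * 36 := by
      rw [abs_mul, abs_of_nonneg (Real.sqrt_nonneg z)]
      gcongr
    have a7 := abs_le.1 (k1 hy)
    have a8 := abs_le.1 a6
    rw [abs_le]
    constructor <;> linarith [a7.1, a7.2, a8.1, a8.2]
  · have a1 : δ ^ 2 ≤ (z - 1) ^ 2 := by
      rw [← sq_abs (z - 1)]
      gcongr
    have a2 : δ ^ 2 * (1 + z ^ 2) ≤ 4 * (z - 1) ^ 2 := by
      have b1 : 1 + z ^ 2 ≤ 3 + 2 * (z - 1) ^ 2 := by nlinarith [sq_nonneg (z - 2)]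
      have b2 := mul_le_mul_of_nonneg_left b1 (sq_nonneg δ)
      have b3 : δ ^ 2 * (z - 1) ^ 2 ≤ 1 / 4 * (z - 1) ^ 2 := by
        gcongr
        nlinarith
      nlinarith [sq_nonneg (z - 1)]
    have a3 : δ ^ 2 / (4 * Γ ^ 2) ≤ π * (z - 1) ^ 2 / σ ^ 2 := by
      rw [div_le_div_iff₀ (by positivity) (by positivity), hσ]
      calc δ ^ 2 * (Γ ^ 2 + z ^ 2 * Δ ^ 2) ≤ δ ^ 2 * (Γ ^ 2 + z ^ 2 * Γ ^ 2) := by gcongr
        _ = δ ^ 2 * (1 + z ^ 2) * Γ ^ 2 := by ring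
        _ ≤ 4 * (z - 1) ^ 2 * Γ ^ 2 := by gcongr
        _ = 1 * (z - 1) ^ 2 * (4 * Γ ^ 2) := by ring
        _ ≤ π * (z - 1) ^ 2 * (4 * Γ ^ 2) := by
            gcongr
            linarith [Real.pi_gt_three]
    unfold Z.gg
    calc √z * (σ⁻¹ * Real.exp (-(π * (z - 1) ^ 2 / σ ^ 2)))
        = 1 / σ * √z * Real.exp (-(π * (z - 1) ^ 2 / σ ^ 2)) := by ring
      _ ≤ _ := by
          gcongr
          linarith
  · have a1 : s ^ 2 ≤ 4 * Γ ^ 2 := by linarith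
    gcongr
    linarith

end Pool.Agent.MP_c853c5_nt.DS

end

section

set_option autoImplicit false

open Finset Filter Real
open scoped ComplexConjugate

namespace Pool.Agent.MP_c853c5_nt.DS

open Pool.Agent.MP_88bd62_nt.U (ex)

lemma triv_Exp2 (φ : ℕ → ℝ) (i S : ℕ) : ‖∑ s ∈ Ico i S, ex (φ s)‖ ≤ S := by
  refine (norm_sum_le _ _).trans ?_
  simp only [norm_ex, sum_const, Nat.card_Ico, nsmul_eq_mul, mul_one]
  exact_mod_cast Nat.sub_le S i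

lemma conj_Exp2 (Y ρ : ℝ) (i S : ℕ) :
    ‖∑ s ∈ Ico i S, ex (Y / (s + ρ))‖ = ‖∑ s ∈ Ico i S, ex (-|Y| / (s + ρ))‖ := by
  rcases le_total 0 Y with h | h
  · rw [abs_of_nonneg h, ← Complex.norm_conj, map_sum]
    simp only [conj_ex, neg_div]
  · rw [abs_of_nonpos h, neg_neg]

lemma del_Exp2 (y : ℝ) {ρ : ℝ} (hρ : 1 ≤ ρ) (n : ℕ) :
    -y / (((n + 1 : ℕ) : ℝ) + ρ) - -y / (n + ρ) = y / ((n + ρ) * (n + 1 + ρ)) := by
  have : (0 : ℝ) ≤ n := Nat.cast_nonneg n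
  have h1 : (n : ℝ) + ρ ≠ 0 := by positivity
  have h2 : (n : ℝ) + 1 + ρ ≠ 0 := by positivity
  push_cast
  field_simp
  ring

lemma del2_Exp2 (y : ℝ) {ρ : ℝ} (hρ : 1 ≤ ρ) (n : ℕ) :
    (-y / (((n + 1 : ℕ) : ℝ) + ρ) - -y / (n + ρ)) -
      (-y / (((n + 2 : ℕ) : ℝ) + ρ) - -y / (((n + 1 : ℕ) : ℝ) + ρ)) =
      2 * y / ((n + ρ) * (n + 1 + ρ) * (n + 2 + ρ)) := by
  have : (0 : ℝ) ≤ n := Nat.cast_nonneg n
  have h1 : (n : ℝ) + ρ ≠ 0 := by positivity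
  have h2 : (n : ℝ) + 1 + ρ ≠ 0 := by positivity
  have h3 : (n : ℝ) + 2 + ρ ≠ 0 := by positivity
  push_cast
  field_simp
  ring

lemma del_le_Exp2 {y ρ : ℝ} (hy : 0 ≤ y) (hρ : 1 ≤ ρ) (n : ℕ) :
    y / ((n + ρ) * (n + 1 + ρ)) ≤ y / ρ ^ 2 := by
  have : (0 : ℝ) ≤ n := Nat.cast_nonneg n
  refine div_le_div_of_nonneg_left hy (by positivity) ?_
  rw [sq]
  exact mul_le_mul (by linarith) (by linarith) (by linarith) (by linarith)

lemma caseB_Exp2 {y ρ w : ℝ} {i S : ℕ} (hρ : 1 ≤ ρ) (hw : 1 ≤ w) (hS : ρ + S ≤ w * ρ)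
    (h1 : ρ ≤ y) (h2 : y ≤ ρ ^ 2 / 2) :
    ‖∑ s ∈ Ico i S, ex (-y / (s + ρ))‖ ≤ w ^ 2 * (ρ ^ 2 / (ρ + y)) + 1 := by
  have hy : 0 < y := by linarith
  have hwρ : 0 < w * ρ := by positivity
  have key := Pool.Agent.MP_88bd62_nt.U.stKL (fun s => -y / (s + ρ)) (fun _ => 1) i S 0
    (y / (w * ρ) ^ 2) (1 / 2) (by positivity) (by norm_num) (fun n _ hn => ?_)
    (fun n _ _ => ?_) (fun _ _ => ⟨zero_le_one, le_rfl⟩)
  · simp only [Complex.ofReal_one, one_mul] at key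
    refine key.trans (add_le_add ?_ ?_)
    · have e1 : 1 / (π * (y / (w * ρ) ^ 2)) = w ^ 2 * (ρ ^ 2 / (π * y)) := by
        field_simp
      rw [e1]
      refine mul_le_mul_of_nonneg_left
        (div_le_div_of_nonneg_left (by positivity) (by positivity) ?_) (by positivity)
      nlinarith [pi_gt_three]
    · rw [div_le_one (by positivity)]
      linarith [pi_gt_three]
  · have hn' : (n : ℝ) + 1 ≤ S := by exact_mod_cast hn
    have : (0 : ℝ) ≤ n := Nat.cast_nonneg n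
    simp only [del_Exp2 y hρ n, Int.cast_zero, zero_add]
    constructor
    · refine div_le_div_of_nonneg_left hy.le (by positivity) ?_
      rw [sq]
      exact mul_le_mul (by linarith) (by linarith) (by linarith) hwρ.le
    · refine (del_le_Exp2 hy.le hρ n).trans ?_
      rw [div_le_iff₀ (by positivity)]
      linarith
  · have : (0 : ℝ) ≤ n := Nat.cast_nonneg n
    have h := del2_Exp2 y hρ n
    have h0 : 0 ≤ 2 * y / ((n + ρ) * (n + 1 + ρ) * (n + 2 + ρ)) := by positivity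
    linarith

lemma caseD_Exp2 {C : ℝ} (hC : 0 < C)
    (hD : ∀ (φ : ℕ → ℝ) (A B : ℕ) (lam V : ℝ), 0 < lam → 0 ≤ V →
      (∀ n, A ≤ n → n < B → φ (n + 2) - φ (n + 1) + lam ≤ φ (n + 1) - φ n) →
      (φ (A + 1) - φ A) - (φ (B + 1) - φ B) ≤ V →
      ‖∑ n ∈ Ico A B, ex (φ n)‖ ≤ C * (V + 1) * (1 / √lam + 1))
    {y ρ w F : ℝ} {i S : ℕ} (hρ : 1 ≤ ρ) (hw : 1 ≤ w) (hS : ρ + S ≤ w * ρ) (hF : y ≤ F * ρ)
    (h1 : ρ ^ 2 / 2 ≤ y) (h2 : y ≤ ρ ^ 3) :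
    ‖∑ s ∈ Ico i S, ex (-y / (s + ρ))‖ ≤ 3 * C * (w ^ 2 * √F + √F) := by
  have hρ2 : 0 < ρ ^ 2 := by positivity
  have hy : 0 < y := by linarith
  have hwρ : 1 ≤ w * ρ := one_le_mul_of_one_le_of_one_le hw hρ
  have hF0 : y / ρ ≤ F := by rwa [div_le_iff₀ (by positivity)]
  have hF1 : 0 ≤ F := le_trans (by positivity) hF0
  have hl : 0 < y / (w * ρ) ^ 3 := by positivity
  have key := hD (fun s => -y / (s + ρ)) i S (y / (w * ρ) ^ 3) (y / ρ ^ 2) hl (by positivity)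
    (fun n _ hn => ?_) ?_
  · have hV : 1 / 2 ≤ y / ρ ^ 2 := by
      rw [le_div_iff₀ hρ2]
      linarith
    have a1 : y / ρ ^ 2 * (1 / √(y / (w * ρ) ^ 3)) ≤ w ^ 2 * √F := by
      refine (pow_le_pow_iff_left₀ (by positivity) (by positivity) two_ne_zero).1 ?_
      rw [mul_pow, mul_pow (w ^ 2), div_pow 1, sq_sqrt hl.le, sq_sqrt hF1]
      have e : (y / ρ ^ 2) ^ 2 * (1 ^ 2 / (y / (w * ρ) ^ 3)) = w ^ 3 * (y / ρ) := by
        field_simp
      rw [e, ← pow_mul]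
      exact mul_le_mul (pow_le_pow_right₀ hw (by norm_num)) hF0 (by positivity) (by positivity)
    have a2 : y / ρ ^ 2 ≤ √F := by
      refine le_sqrt_of_sq_le (le_trans ?_ hF0)
      have e : (y / ρ ^ 2) ^ 2 = y / ρ * (y / ρ ^ 3) := by
        field_simp
      rw [e]
      exact mul_le_of_le_one_right (by positivity) (div_le_one_of_le₀ h2 (by positivity))
    refine key.trans ?_
    generalize y / ρ ^ 2 = V at hV a1 a2
    have hu : 0 ≤ 1 / √(y / (w * ρ) ^ 3) := by positivity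
    generalize 1 / √(y / (w * ρ) ^ 3) = u at a1 hu
    calc C * (V + 1) * (u + 1) ≤ C * (3 * V) * (u + 1) := by gcongr; linarith
      _ = 3 * C * (V * u + V) := by ring
      _ ≤ _ := by gcongr
  · have hn' : (n : ℝ) + 1 ≤ S := by exact_mod_cast hn
    have : (0 : ℝ) ≤ n := Nat.cast_nonneg n
    have h := del2_Exp2 y hρ n
    have h0 : y / (w * ρ) ^ 3 ≤ 2 * y / ((n + ρ) * (n + 1 + ρ) * (n + 2 + ρ)) := by
      have e : y / (w * ρ) ^ 3 = 2 * y / ((w * ρ) * (w * ρ) * (2 * (w * ρ))) := by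
        field_simp
      rw [e]
      refine div_le_div_of_nonneg_left (by positivity) (by positivity) ?_
      gcongr <;> linarith
    linarith
  · have hi := del_le_Exp2 hy.le hρ i
    have : (0 : ℝ) ≤ S := Nat.cast_nonneg S
    have h0 : 0 ≤ y / ((S + ρ) * (S + 1 + ρ)) := by positivity
    simp only [del_Exp2 y hρ]
    linarith

theorem exp2_stmt (hD : D2Stmt) : Exp2Stmt := by
  obtain ⟨C, hC, hD⟩ := hD
  refine ⟨6 * C + 2, by positivity, fun Y ρ w F i S hρ hw hS hF => ?_⟩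
  have hy : 0 ≤ |Y| := abs_nonneg Y
  have ea : ρ * fm ρ Y = ρ ^ 2 / (ρ + |Y|) := by
    rw [fm, sq, mul_div_assoc]
  rw [conj_Exp2, ea]
  generalize |Y| = y at hy hF
  have ht : ‖∑ s ∈ Ico i S, ex (-y / (s + ρ))‖ ≤ w * ρ :=
    (triv_Exp2 (fun s => -y / (s + ρ)) i S).trans (by linarith)
  have hc : 1 ≤ √ρ := one_le_sqrt.2 hρ
  have ha : 0 ≤ ρ ^ 2 / (ρ + y) := by positivity
  have hb : 0 ≤ √F := sqrt_nonneg F
  have w1 : w ≤ w ^ 4 := le_self_pow₀ hw (by norm_num)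
  have w2 : w ^ 2 ≤ w ^ 4 := pow_le_pow_right₀ hw (by norm_num)
  have w0 : 1 ≤ w ^ 4 := hw.trans w1
  have hB := fun h1 h2 => caseB_Exp2 (y := y) (i := i) hρ hw hS h1 h2
  have hDd := fun h1 h2 => caseD_Exp2 hC hD (y := y) (i := i) hρ hw hS hF h1 h2
  have hA : y ≤ ρ → ρ ≤ 2 * (ρ ^ 2 / (ρ + y)) := fun h => by
    rw [← mul_div_assoc, le_div_iff₀ (by positivity)]
    nlinarith
  have hCc : ρ ^ 3 ≤ y → ρ ≤ √F := fun h => by
    refine le_sqrt_of_sq_le (le_of_mul_le_mul_right ?_ (by linarith : 0 < ρ))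
    nlinarith
  generalize ‖∑ s ∈ Ico i S, ex (-y / (s + ρ))‖ = T at ht hB hDd
  generalize ρ ^ 2 / (ρ + y) = a at ha hB hA
  generalize √F = b at hb hDd hCc
  generalize √ρ = c at hc
  have hWa : 0 ≤ w ^ 4 * a := by positivity
  have hWb : 0 ≤ w ^ 4 * b := by positivity
  have hWc : 1 ≤ w ^ 4 * c := one_le_mul_of_one_le_of_one_le w0 hc
  have hCa : 0 ≤ C * (w ^ 4 * a) := by positivity
  have hCb : 0 ≤ C * (w ^ 4 * b) := by positivity
  have hCc' : 0 ≤ C * (w ^ 4 * c) := by positivity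
  have e : (6 * C + 2) * w ^ 4 * (a + b + c) = 6 * (C * (w ^ 4 * a)) + 6 * (C * (w ^ 4 * b)) +
      6 * (C * (w ^ 4 * c)) + 2 * (w ^ 4 * a) + 2 * (w ^ 4 * b) + 2 * (w ^ 4 * c) := by ring
  rw [e]
  rcases le_total y ρ with h1 | h1
  · have : w * ρ ≤ w ^ 4 * (2 * a) := mul_le_mul w1 (hA h1) (by linarith) (by linarith)
    linarith
  rcases le_total y (ρ ^ 2 / 2) with h2 | h2
  · have := hB h1 h2
    have : w ^ 2 * a ≤ w ^ 4 * a := mul_le_mul_of_nonneg_right w2 ha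
    linarith
  rcases le_total y (ρ ^ 3) with h3 | h3
  · have h4 := hDd h2 h3
    have h5 : w ^ 2 * b ≤ w ^ 4 * b := mul_le_mul_of_nonneg_right w2 hb
    have h6 : b ≤ w ^ 4 * b := le_mul_of_one_le_left hb w0
    have h7 : 3 * C * (w ^ 2 * b + b) ≤ 3 * C * (w ^ 4 * b + w ^ 4 * b) := by gcongr
    linarith
  · have : w * ρ ≤ w ^ 4 * b := mul_le_mul w1 (hCc h3) (by linarith) (by linarith)
    linarith

end Pool.Agent.MP_c853c5_nt.DS

end
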