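import Pool.Agent.Mg.C853.Gee9e08
import Pool.Agent.Mg.C853.G50a3e6

section

set_option autoImplicit false

open Finset
open scoped ComplexConjugate

namespace Pool.Agent.MP_2a1f0e_nt.RF

open GM

lemma split_Block {lam S g m : ℝ} (hl : 0 < lam) (hg : 0 < g) (hm : g ≤ m) :
    S ≤ lam / √g + √((if lam ^ 2 < m * S ^ 2 then m * S ^ 2 else 0) / g) := by
  have hsg : 0 < √g := Real.sqrt_pos.2 hg
  have h1 : g * S ^ 2 ≤ m * S ^ 2 := mul_le_mul_of_nonneg_right hm (sq_nonneg S)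
  split_ifs with h
  · have : S ≤ √(m * S ^ 2 / g) := Real.le_sqrt_of_sq_le ((le_div_iff₀' hg).2 h1)
    have : 0 < lam / √g := div_pos hl hsg
    linarith
  · have : S ≤ lam / √g := by
      rw [le_div_iff₀ hsg]
      refine abs_le_of_sq_le_sq' ?_ hl.le |>.2
      rw [mul_pow, Real.sq_sqrt hg.le]
      linarith [not_lt.1 h]
    have := Real.sqrt_nonneg ((0 : ℝ) / g)
    linarith

noncomputable def F_Block (q g J : ℕ) (lam : ℝ) (r : ℕ) (ψ : DirichletCharacter ℂ r) : ℝ :=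
  ∑ e ∈ (q / r).divisors,
    if lam ^ 2 < ((g * e : ℕ) : ℝ) * ‖Sc r ψ (J / (g * e))‖ ^ 2 then
      ((g * e : ℕ) : ℝ) * ‖Sc r ψ (J / (g * e))‖ ^ 2 else 0

lemma F_nonneg_Block (q g J : ℕ) (lam : ℝ) (r : ℕ) (ψ : DirichletCharacter ℂ r) :
    0 ≤ F_Block q g J lam r ψ :=
  sum_nonneg fun _ _ => by split_ifs <;> positivity

lemma Sc_le_Block (hP : PrimStmt) {q g : ℕ} (J : ℕ) {Δ lam : ℝ} (hq : 1 ≤ q) (hg : 1 ≤ g)
    (hl : 0 < lam) (hΔ : (q.divisors.card : ℝ) ≤ Δ) (χ : DirichletCharacter ℂ q) :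
    ‖Sc q χ (J / g)‖ ≤
      Δ * (lam / √(g : ℝ)) + √(Δ / g * F_Block q g J lam χ.conductor χ.primitiveCharacter) := by
  have hg0 : (0 : ℝ) < g := by exact_mod_cast hg
  have hc : (((q / χ.conductor).divisors.card : ℕ) : ℝ) ≤ Δ := by
    refine le_trans ?_ hΔ
    exact_mod_cast card_le_card (Nat.divisors_subset_of_dvd (by omega)
      (Nat.div_dvd_of_dvd χ.conductor_dvd_level))
  refine (hP q _ χ hq).trans ((sum_le_sum fun e he => split_Block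
    (m := ((g * e : ℕ) : ℝ)) hl hg0 ?_).trans ?_)
  · exact_mod_cast Nat.le_mul_of_pos_right g (Nat.pos_of_mem_divisors he)
  rw [sum_add_distrib, sum_const, nsmul_eq_mul]
  refine add_le_add (mul_le_mul_of_nonneg_right hc (by positivity)) (Real.le_sqrt_of_sq_le ?_)
  refine sq_sum_le_card_mul_sum_sq.trans ?_
  rw [div_mul_eq_mul_div, mul_div_assoc, F_Block, sum_div]
  refine mul_le_mul hc (le_of_eq (sum_congr rfl fun e _ => ?_)) (sum_nonneg fun _ _ => sq_nonneg _)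
    ((Nat.cast_nonneg _).trans hc)
  rw [Real.sq_sqrt (by split_ifs <;> positivity), Nat.div_div_eq_div_mul]

open Classical in
lemma sumF_Block (hF : FibStmt) {q g : ℕ} (J : ℕ) (lam : ℝ) (hq : 1 ≤ q) (hg : 1 ≤ g) :
    ∑ χ ∈ (univ : Finset (DirichletCharacter ℂ q)).erase 1,
      F_Block q g J lam χ.conductor χ.primitiveCharacter ≤ BadQ J lam (g * q) := by
  refine (hF q (F_Block q g J lam) hq (F_nonneg_Block q g J lam)).trans ?_
  have h1 : ∑ r ∈ q.divisors.erase 1, ∑ ψ ∈ prim r, F_Block q g J lam r ψ =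
      ∑ e ∈ q.divisors, ∑ r ∈ (q / e).divisors.erase 1, Bad J lam (g * e) r := by
    rw [← sum_comm' (s := q.divisors.erase 1) (t := fun r => (q / r).divisors)]
    · refine sum_congr rfl fun r _ => ?_
      simp only [F_Block, Bad]
      rw [sum_comm]
    · intro r e
      have key : ∀ a b : ℕ, a ∣ q → b ∣ q / a → (b ∣ q ∧ a ∣ q / b ∧ q / b ≠ 0) := fun a b ha hb => by
        have h2 : a * b ∣ q := Nat.mul_dvd_of_dvd_div ha hb
        have h3 : b ∣ q := Dvd.dvd.trans (Dvd.intro_left a rfl) h2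
        refine ⟨h3, (Nat.dvd_div_iff_mul_dvd h3).2 (by rwa [mul_comm]), ?_⟩
        exact (Nat.div_pos (Nat.le_of_dvd hq h3) (Nat.pos_of_dvd_of_pos h3 hq)).ne'
      simp only [mem_erase, Nat.mem_divisors]
      constructor
      · rintro ⟨⟨a, b, c⟩, d, _⟩
        obtain ⟨k1, k2, k3⟩ := key r e b d
        exact ⟨⟨a, k2, k3⟩, k1, c⟩
      · rintro ⟨⟨a, b, _⟩, d, c⟩
        obtain ⟨k1, k2, k3⟩ := key e r d b
        exact ⟨⟨a, k1, c⟩, k2, k3⟩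
  have h2 : ∑ e ∈ q.divisors, ∑ r ∈ (q / e).divisors.erase 1, Bad J lam (g * e) r =
      ∑ m ∈ q.divisors.image (fun e => g * e),
        ∑ r ∈ (g * q / m).divisors.erase 1, Bad J lam m r := by
    rw [sum_image fun a _ b _ h => Nat.eq_of_mul_eq_mul_left hg h]
    refine sum_congr rfl fun e _ => ?_
    rw [Nat.mul_div_mul_left _ _ hg]
  rw [h1, h2, BadQ]
  refine sum_le_sum_of_subset_of_nonneg (fun m hm => ?_) fun _ _ _ =>
    sum_nonneg fun _ _ => Bad_nonneg _ _ _ _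
  obtain ⟨e, he, rfl⟩ := mem_image.1 hm
  exact Nat.mem_divisors.2 ⟨Nat.mul_dvd_mul_left g (Nat.dvd_of_mem_divisors he), by positivity⟩

theorem block_stmt (hO : OrthStmt) (hE : ExpStmt) (hP : PrimStmt) (hF : FibStmt) : BlockStmt := by
  classical
  intro q g J e₀ ι κ s s' ξ ζ α β mA mB nA Δ lam hq hg hl hΔ he hξ hζ hn hA hB
  have hφ : (0 : ℝ) < q.totient := by exact_mod_cast Nat.totient_pos.2 hq
  have hg0 : (0 : ℝ) < g := by exact_mod_cast hg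
  have hΔ0 : 0 ≤ Δ := (Nat.cast_nonneg _).trans hΔ
  have hn0 : 0 ≤ nA := (Nat.cast_nonneg _).trans hn
  have hA0 : 0 ≤ mA := by simpa using hA ∅ (empty_subset _) (by simp)
  have hB0 : 0 ≤ mB := by simpa using hB ∅ (empty_subset _) (by simp)
  have hQ0 := BadQ_nonneg J lam (g * q)
  obtain ⟨A, hAd⟩ : ∃ A : DirichletCharacter ℂ q → ℂ,
      A = fun χ => ∑ i ∈ s, α i * χ (ξ i : ZMod q) := ⟨_, rfl⟩
  obtain ⟨B, hBd⟩ : ∃ B : DirichletCharacter ℂ q → ℂ,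
      B = fun χ => ∑ i ∈ s', β i * χ (ζ i : ZMod q) := ⟨_, rfl⟩
  obtain ⟨a, ha⟩ : ∃ a : ℝ, a = ∑ i ∈ s, ‖α i‖ ^ 2 := ⟨_, rfl⟩
  obtain ⟨b, hb⟩ : ∃ b : ℝ, b = ∑ i ∈ s', ‖β i‖ ^ 2 := ⟨_, rfl⟩
  obtain ⟨U, hU⟩ : ∃ U : Finset (DirichletCharacter ℂ q), U = univ.erase 1 := ⟨_, rfl⟩
  have ha0 : 0 ≤ a := ha ▸ sum_nonneg fun _ _ => sq_nonneg _
  have hb0 : 0 ≤ b := hb ▸ sum_nonneg fun _ _ => sq_nonneg _
  have h1 : (∑ i ∈ s, ∑ i' ∈ s',
      ((cnt (J / g) q (e₀ * ξ i * ζ i') : ℂ) - (cop (J / g) q : ℂ) / (q.totient : ℂ)) *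
        (α i * β i')) * (q.totient : ℂ) =
      ∑ χ ∈ U, χ (-1) * χ (e₀ : ZMod q) * conj (Sc q χ (J / g)) * (A χ * B χ) := by
    simp only [hAd, hBd, sum_mul_sum]
    simp only [mul_sum]
    rw [sum_comm (s := U), sum_mul]
    refine sum_congr rfl fun i hi => ?_
    rw [sum_comm (s := U), sum_mul]
    refine sum_congr rfl fun i' hi' => ?_
    rw [mul_right_comm, hE q _ _ hq
      (Nat.Coprime.mul_left (Nat.Coprime.mul_left he (hξ i hi)) (hζ i' hi')), hU, sum_mul]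
    refine sum_congr (by congr) fun χ _ => ?_
    rw [Nat.cast_mul, Nat.cast_mul, map_mul, map_mul]
    ring
  have oA : √(∑ χ ∈ U, ‖A χ‖ ^ 2) ≤ √(q.totient * mA * a) := by
    refine Real.sqrt_le_sqrt (le_trans ?_ (ha ▸ hO q ι s ξ α mA hq hA))
    rw [hAd]
    exact sum_le_sum_of_subset_of_nonneg (subset_univ _) fun _ _ _ => sq_nonneg _
  have oB : √(∑ χ ∈ U, ‖B χ‖ ^ 2) ≤ √(q.totient * mB * b) := by
    refine Real.sqrt_le_sqrt (le_trans ?_ (hb ▸ hO q κ s' ζ β mB hq hB))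
    rw [hBd]
    exact sum_le_sum_of_subset_of_nonneg (subset_univ _) fun _ _ _ => sq_nonneg _
  have tA : ∀ χ, ‖A χ‖ ≤ √(nA * a) := fun χ => by
    refine Real.le_sqrt_of_sq_le ?_
    have : ‖A χ‖ ≤ ∑ i ∈ s, ‖α i‖ := by
      rw [hAd]
      refine (norm_sum_le _ _).trans (sum_le_sum fun i _ => ?_)
      rw [norm_mul]
      exact mul_le_of_le_one_right (norm_nonneg _) (χ.norm_le_one _)
    refine (pow_le_pow_left₀ (norm_nonneg _) this 2).trans (sq_sum_le_card_mul_sum_sq.trans ?_)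
    rw [← ha]
    exact mul_le_mul_of_nonneg_right hn ha0
  have oF : √(∑ χ ∈ U, √(Δ / g * F_Block q g J lam χ.conductor χ.primitiveCharacter) ^ 2) ≤
      √(Δ / g * BadQ J lam (g * q)) := by
    refine Real.sqrt_le_sqrt ?_
    rw [sum_congr rfl fun χ _ => Real.sq_sqrt
      (mul_nonneg (by positivity) (F_nonneg_Block q g J lam _ _)), ← mul_sum]
    refine mul_le_mul_of_nonneg_left ?_ (by positivity)
    rw [hU]
    convert sumF_Block hF J lam hq hg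
  have h2 : ‖∑ χ ∈ U, χ (-1) * χ (e₀ : ZMod q) * conj (Sc q χ (J / g)) * (A χ * B χ)‖ ≤
      Δ * (lam / √(g : ℝ)) * (√(q.totient * mA * a) * √(q.totient * mB * b)) +
        √(nA * a) * (√(Δ / g * BadQ J lam (g * q)) * √(q.totient * mB * b)) := by
    have g1 := (Real.sum_mul_le_sqrt_mul_sqrt U (fun χ => ‖A χ‖) fun χ => ‖B χ‖).trans
      (mul_le_mul oA oB (Real.sqrt_nonneg _) (Real.sqrt_nonneg _))
    have g2 := (Real.sum_mul_le_sqrt_mul_sqrt U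
      (fun χ => √(Δ / g * F_Block q g J lam χ.conductor χ.primitiveCharacter))
      fun χ => ‖B χ‖).trans (mul_le_mul oF oB (Real.sqrt_nonneg _) (Real.sqrt_nonneg _))
    refine le_trans ?_ (add_le_add (mul_le_mul_of_nonneg_left g1 (by positivity))
      (mul_le_mul_of_nonneg_left g2 (Real.sqrt_nonneg _)))
    rw [mul_sum, mul_sum, ← sum_add_distrib]
    refine (norm_sum_le _ _).trans (sum_le_sum fun χ _ => ?_)
    have k1 : ‖χ (-1) * χ (e₀ : ZMod q) * conj (Sc q χ (J / g))‖ ≤ ‖Sc q χ (J / g)‖ := by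
      rw [norm_mul, norm_mul, Complex.norm_conj]
      exact mul_le_of_le_one_left (norm_nonneg _)
        (mul_le_one₀ (χ.norm_le_one _) (norm_nonneg _) (χ.norm_le_one _))
    have k2 := k1.trans (Sc_le_Block hP J hq hg hl hΔ χ)
    rw [norm_mul, norm_mul (A χ)]
    refine (mul_le_mul_of_nonneg_right k2 (by positivity)).trans ?_
    rw [add_mul]
    refine add_le_add le_rfl ?_
    rw [mul_left_comm]
    exact mul_le_mul_of_nonneg_right (tA χ) (by positivity)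
  rw [← h1, norm_mul, Complex.norm_natCast] at h2
  rw [← ha, ← hb]
  refine le_of_mul_le_mul_right (h2.trans (le_of_eq ?_)) hφ
  have hs : √(q.totient : ℝ) * √(q.totient : ℝ) = q.totient := Real.mul_self_sqrt hφ.le
  have hs0 : √(q.totient : ℝ) ≠ 0 := (Real.sqrt_pos.2 hφ).ne'
  have hs1 : √(g : ℝ) ≠ 0 := (Real.sqrt_pos.2 hg0).ne'
  rw [Real.sqrt_div' _ (mul_nonneg hφ.le hg0.le), Real.sqrt_mul' _ hQ0, Real.sqrt_mul' _ hQ0]
  simp only [Real.sqrt_mul, Real.sqrt_div, mul_nonneg, hφ.le, hΔ0, hn0, hA0, hB0]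
  generalize √(q.totient : ℝ) = w at hs hs0 ⊢
  rw [← hs]
  field_simp

end Pool.Agent.MP_2a1f0e_nt.RF

end

section

set_option autoImplicit false

open Finset
open scoped ComplexConjugate

namespace Pool.Agent.MP_2a1f0e_nt.RF

open GM

theorem XiB_mono_Hp {J C X : ℕ} {E E' Y : ℝ} (h : XiB J C X E Y) (hE : E ≤ E') (hY : 0 ≤ Y) :
    XiB J C X E' Y := by
  unfold XiB at h ⊢
  refine h.trans ?_
  gcongr

/-- one level of the iteration -/
theorem one_Hp {c : ℝ} (hc : 0 < c)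
    (hX : ∀ (J C X κ : ℕ) (Y Δ : ℝ), 1 ≤ C → 1 ≤ X → 1 ≤ Y →
      Y ^ 6 * (C : ℝ) ^ 2 ≤ J → 2 ≤ κ → 2 * (X : ℝ) ≤ Y ^ (4 * κ - 1) → DivB (J ^ κ) Δ →
        XiB J C X (c * Δ ^ κ * (1 + Real.log X) ^ 2) Y)
    {N T C ρ K X' κ : ℕ} {E Y Δ : ℝ} (hN : 1 ≤ N) (hNT : N ≤ T) (hTN : T ≤ N ^ 2)
    (hC : 1 ≤ C) (hρ : 1 ≤ ρ) (hK : 1 ≤ K) (hY : 1 ≤ Y) (hκ : 2 ≤ κ)
    (hKE : 200 * (K : ℝ) ≤ E) (hρE : (ρ : ℝ) ≤ E)
    (hρY : 2 * (ρ : ℝ) * Y ^ 7 * T ≤ (N : ℝ) ^ 2)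
    (hX1 : 400 * K * N * (C + C * ρ) ≤ X') (hX2 : C * (C * ρ) * N ^ 2 ≤ X')
    (hX3 : 2 * (X' : ℝ) ≤ Y ^ (4 * κ - 1)) (hD : DivB (X' ^ κ) Δ)
    (hE1 : Δ ^ κ * (1 + Real.log X') ^ 2 ≤ E) (hE2 : c * (Δ ^ κ * (1 + Real.log X') ^ 2) ≤ E) :
    Hp N T ⌊(C : ℝ) * (C * ρ : ℕ) * (N : ℝ) ^ 2 / (T * Y)⌋₊ C (C * ρ) K E Y := by
  set J := ⌊(C : ℝ) * (C * ρ : ℕ) * (N : ℝ) ^ 2 / (T * Y)⌋₊ with hJ
  set X := 400 * K * N * (C + C * ρ) with hXd
  have hT1 : (1 : ℝ) ≤ T := by exact_mod_cast hN.trans hNT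
  have hC1 : (1 : ℝ) ≤ C := by exact_mod_cast hC
  have hρ1 : (1 : ℝ) ≤ ρ := by exact_mod_cast hρ
  have hTY : (1 : ℝ) ≤ T * Y := one_le_mul_of_one_le_of_one_le hT1 hY
  have hC' : 1 ≤ C * ρ := Nat.mul_pos hC hρ
  have hC1' : (1 : ℝ) ≤ (C * ρ : ℕ) := by exact_mod_cast hC'
  have hE : 1 ≤ E := hρ1.trans hρE
  have hJ1 : (J : ℝ) ≤ (C : ℝ) * (C * ρ : ℕ) * (N : ℝ) ^ 2 / (T * Y) :=
    Nat.floor_le (by positivity)
  have hJ2 : (C : ℝ) * (C * ρ : ℕ) * (N : ℝ) ^ 2 / (T * Y) < J + 1 := Nat.lt_floor_add_one _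
  have hY6 : 1 ≤ Y ^ 6 * ((C * ρ : ℕ) : ℝ) ^ 2 :=
    one_le_mul_of_one_le_of_one_le (one_le_pow₀ hY) (one_le_pow₀ hC1')
  have hJL' : Y ^ 6 * ((C * ρ : ℕ) : ℝ) ^ 2 ≤ J := by
    have : 2 * (Y ^ 6 * ((C * ρ : ℕ) : ℝ) ^ 2) ≤
        (C : ℝ) * (C * ρ : ℕ) * (N : ℝ) ^ 2 / (T * Y) := by
      rw [le_div_iff₀ (by positivity)]
      calc _ = (C : ℝ) * (C * ρ : ℕ) * (2 * (ρ : ℝ) * Y ^ 7 * T) := by
            push_cast
            ring
        _ ≤ _ := by gcongr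
    linarith
  have hCC : (C : ℝ) ≤ (C * ρ : ℕ) := by exact_mod_cast Nat.le_mul_of_pos_right C hρ
  have hJL : Y ^ 6 * (C : ℝ) ^ 2 ≤ J := le_trans (by gcongr) hJL'
  have hJX : J ≤ X' := by
    refine le_trans ?_ hX2
    have : (J : ℝ) ≤ ((C * (C * ρ) * N ^ 2 : ℕ) : ℝ) := by
      refine hJ1.trans ((div_le_self (by positivity) hTY).trans (le_of_eq ?_))
      push_cast
      ring
    exact_mod_cast this
  have hX0 : 1 ≤ X := Nat.mul_pos (Nat.mul_pos (by omega) hN) (by omega)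
  have hX0' : (1 : ℝ) ≤ X := by exact_mod_cast hX0
  have hXX : (X : ℝ) ≤ X' := by exact_mod_cast hX1
  have hl0 : 0 ≤ Real.log X := Real.log_nonneg hX0'
  have hl1 : Real.log X ≤ Real.log X' := Real.log_le_log (by linarith) hXX
  have hΔ : 1 ≤ Δ := hD.1
  have hΔκ : Δ ≤ Δ ^ κ := le_self_pow₀ hΔ (by omega)
  have hL : 1 + Real.log X' ≤ (1 + Real.log X') ^ 2 := le_self_pow₀ (by linarith) two_ne_zero
  have hDJ : DivB (J ^ κ) Δ := divB_mono hD (Nat.pow_le_pow_left hJX _) le_rfl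
  have hE3 : c * Δ ^ κ * (1 + Real.log X) ^ 2 ≤ E := by
    refine le_trans ?_ hE2
    rw [mul_assoc]
    gcongr
  have hX4 : 2 * (X : ℝ) ≤ Y ^ (4 * κ - 1) := le_trans (by linarith) hX3
  refine ⟨hN, hNT, hTN, hC, hC', hK, ?_, hY, hKE, ?_, ?_, ?_, hJL, hJL', ?_, ?_, ?_, ?_, ?_⟩
  · exact_mod_cast hY6.trans hJL'
  · push_cast
    rw [mul_comm]
    gcongr
  · exact hCC.trans (le_mul_of_one_le_left (by positivity) hE)
  · rw [le_div_iff₀ (by positivity)] at hJ1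
    linarith
  · refine le_trans ?_ hρY
    have : 0 ≤ (T : ℝ) * Y ^ 7 := by positivity
    nlinarith
  · refine divB_mono hD (hX1.trans (Nat.le_self_pow (by omega) _)) ?_
    refine le_trans ?_ hE1
    exact hΔκ.trans (le_mul_of_one_le_right (by positivity) (by linarith))
  · refine le_trans ?_ hE1
    refine le_trans ?_ (le_mul_of_one_le_left (by positivity) (hΔ.trans hΔκ))
    linarith
  · exact XiB_mono_Hp (hX J C X κ Y Δ hC hX0 hY hJL hκ hX4 hDJ) hE3 (by linarith)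
  · exact XiB_mono_Hp (hX J (C * ρ) X κ Y Δ hC' hX0 hY hJL' hκ hX4 hDJ) hE3 (by linarith)

theorem hp_stmt (hX : XiStmt) (hG : GrowStmt) : HpStmt := by
  obtain ⟨c, hc, hX⟩ := hX
  intro η hη
  set n := ⌈1 / η⌉₊ with hn
  have hηn : 1 ≤ η * n := by
    have := Nat.le_ceil (1 / η)
    rw [div_le_iff₀ hη] at this
    linarith
  set B : ℕ := 1600 * 200 ^ n + 2 * n + 2 with hB
  set κ : ℕ := n * (2 * B + 1) + 2 with hκ
  have hB1 : 1 ≤ B := by omega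
  obtain ⟨A', hA', hG⟩ := hG η B κ hη (by exact_mod_cast hB1)
  have h200 : (0 : ℝ) < 200 ^ n := by positivity
  have hcA : 0 < c * A' := by positivity
  refine ⟨n, 400 * 200 ^ n + 2 + A' + c * A', by linarith, ?_⟩
  intro N T E Y hN hNT hTN hY hYT hE
  have hN1 : (1 : ℝ) ≤ N := by exact_mod_cast (by omega : 1 ≤ N)
  have hN2 : (2 : ℝ) ≤ N := by exact_mod_cast hN
  have hNT' : (N : ℝ) ≤ T := by exact_mod_cast hNT
  set w : ℝ := (N : ℝ) ^ η with hw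
  have hw1 : 1 ≤ w := Real.one_le_rpow hN1 hη.le
  have hY1 : 1 ≤ Y := hw1.trans hY
  have hwn : (N : ℝ) ≤ w ^ n := by
    rw [hw, ← Real.rpow_natCast, ← Real.rpow_mul (by positivity)]
    calc (N : ℝ) = (N : ℝ) ^ (1 : ℝ) := (Real.rpow_one _).symm
      _ ≤ _ := Real.rpow_le_rpow_of_exponent_le hN1 hηn
  set ρ := ⌈w⌉₊ with hρ
  have hρ1 : w ≤ ρ := Nat.le_ceil w
  have hρ2 : (ρ : ℝ) < w + 1 := Nat.ceil_lt_add_one (by linarith)
  have hρ3 : 1 ≤ ρ := by exact_mod_cast hw1.trans hρ1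
  have hw4 : 4 * w ≤ N := by
    have h7 : 1 ≤ Y ^ 7 := one_le_pow₀ hY1
    have : 4 * w * N ≤ (N : ℝ) * N := by
      calc 4 * w * N = 4 * w * 1 * N := by ring
        _ ≤ 4 * w * Y ^ 7 * T := by gcongr
        _ ≤ _ := hYT
        _ = _ := by ring
    exact le_of_mul_le_mul_right this (by linarith)
  have hρN : ρ ≤ N := by
    have : (ρ : ℝ) ≤ N := by linarith
    exact_mod_cast this
  have hX' : 1 ≤ B * N ^ B := Nat.mul_pos hB1 (Nat.pow_pos (by omega))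
  obtain ⟨Δ, hD, hΔ⟩ := hG N (B * N ^ B) (by omega) hX' (by
    push_cast
    rw [Real.rpow_natCast])
  have e1 : 400 * 200 ^ n ≤ E := by
    refine le_trans ?_ hE
    refine le_trans ?_ (le_mul_of_one_le_right (by positivity) hw1)
    linarith
  have e2 : 2 * w ≤ E := by
    refine le_trans ?_ hE
    gcongr
    linarith
  have e3 : A' * w ≤ E := by
    refine le_trans ?_ hE
    gcongr
    linarith
  have e4 : c * A' * w ≤ E := by
    refine le_trans ?_ hE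
    gcongr
    linarith
  have hX3 : 2 * ((B * N ^ B : ℕ) : ℝ) ≤ Y ^ (4 * κ - 1) := by
    have a1 : 2 * (B * N ^ B) ≤ N ^ (2 * B + 1) := by
      have b1 : B ≤ N ^ B := (Nat.lt_two_pow_self).le.trans (Nat.pow_le_pow_left hN _)
      calc 2 * (B * N ^ B) ≤ N * (N ^ B * N ^ B) := by gcongr
        _ = _ := by ring
    have a2 : (N : ℝ) ≤ Y ^ n := hwn.trans (by gcongr)
    calc 2 * ((B * N ^ B : ℕ) : ℝ) ≤ (N : ℝ) ^ (2 * B + 1) := by exact_mod_cast a1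
      _ ≤ (Y ^ n) ^ (2 * B + 1) := by gcongr
      _ = Y ^ (n * (2 * B + 1)) := by rw [pow_mul]
      _ ≤ _ := pow_le_pow_right₀ hY1 (by omega)
  refine ⟨ρ, fun i => ⌊((ρ ^ i : ℕ) : ℝ) * (ρ ^ i * ρ : ℕ) * (N : ℝ) ^ 2 / (T * Y)⌋₊, hρ3, ?_,
    fun i hi => ?_⟩
  · have : N ≤ ρ ^ n := by
      have : (N : ℝ) ≤ (ρ : ℝ) ^ n := hwn.trans (by gcongr)
      exact_mod_cast this
    calc T ≤ N ^ 2 := hTN
      _ = N * N := by ring
      _ ≤ _ := Nat.mul_le_mul_left _ this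
  · have p1 : ρ ^ i * ρ ≤ N ^ n := by
      rw [← pow_succ]
      exact (Nat.pow_le_pow_left hρN _).trans (Nat.pow_le_pow_right (by omega) hi)
    have p0 : ρ ^ i ≤ N ^ n := (Nat.le_mul_of_pos_right _ hρ3).trans p1
    have p2 : 200 ^ i ≤ 200 ^ n := Nat.pow_le_pow_right (by norm_num) hi.le
    have p3 : N ^ (2 * n + 2) ≤ N ^ B := Nat.pow_le_pow_right (by omega) (by omega)
    have p4 : N ^ (n + 1) ≤ N ^ B := Nat.pow_le_pow_right (by omega) (by omega)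
    rw [pow_succ]
    refine one_Hp hc hX (X' := B * N ^ B) (κ := κ) (Δ := Δ) (by omega) hNT hTN
      (Nat.pow_pos hρ3) hρ3 (Nat.mul_pos (by norm_num) (by positivity)) hY1 (by omega) ?_
      (by linarith) ?_ ?_ ?_ hX3 hD (hΔ.trans e3) ?_
    · have : ((200 : ℝ)) ^ i ≤ 200 ^ n := by exact_mod_cast p2
      push_cast
      linarith
    · refine le_trans ?_ hYT
      have : 2 * (ρ : ℝ) ≤ 4 * w := by linarith
      gcongr
    · calc 400 * (2 * 200 ^ i) * N * (ρ ^ i + ρ ^ i * ρ)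
          ≤ 400 * (2 * 200 ^ n) * N * (N ^ n + N ^ n) := by gcongr
        _ = 1600 * 200 ^ n * N ^ (n + 1) := by ring
        _ ≤ _ := Nat.mul_le_mul (by omega) p4
    · calc ρ ^ i * (ρ ^ i * ρ) * N ^ 2 ≤ N ^ n * N ^ n * N ^ 2 := by gcongr
        _ = 1 * N ^ (2 * n + 2) := by ring
        _ ≤ _ := Nat.mul_le_mul hB1 p3
    · refine le_trans ?_ e4
      rw [mul_assoc]
      gcongr

end Pool.Agent.MP_2a1f0e_nt.RF

end

section

set_option autoImplicit false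

open Finset
open scoped ComplexConjugate

namespace Pool.Agent.MP_2a1f0e_nt.RF

open GM

theorem parseval_LS0 {κ ι : Type*} [Fintype κ] [Fintype ι] [DecidableEq ι] (g : κ → ι → ℂ)
    (w : ι → ℝ)
    (h : ∀ b b', ∑ k, g k b * conj (g k b') = if b = b' then (w b : ℂ) else 0) (x : ι → ℂ) :
    ∑ k, ‖∑ b, g k b * x b‖ ^ 2 = ∑ b, w b * ‖x b‖ ^ 2 := by
  apply Complex.ofReal_injective
  push_cast
  simp only [← Complex.mul_conj', map_sum, map_mul, Finset.sum_mul_sum]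
  rw [Finset.sum_comm]
  refine Finset.sum_congr rfl fun b _ => ?_
  rw [Finset.sum_comm]
  have : ∀ b', ∑ k, g k b * x b * (conj (g k b') * conj (x b')) =
      (∑ k, g k b * conj (g k b')) * (x b * conj (x b')) := fun b' => by
    rw [Finset.sum_mul]; exact Finset.sum_congr rfl fun k _ => by ring
  simp [this, h]

section

open scoped Classical

variable {d : ℕ} [NeZero d]

theorem norm_chi_LS0 (χ : DirichletCharacter ℂ d) (b : ZMod d) :
    ‖χ b‖ ^ 2 = if IsUnit b then 1 else 0 := by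
  split_ifs with h
  · obtain ⟨u, rfl⟩ := h
    rw [χ.unit_norm_eq_one, one_pow]
  · simp [χ.map_nonunit h]

theorem norm_gauss_LS0 {χ : DirichletCharacter ℂ d} (hχ : χ.IsPrimitive) :
    ‖gaussSum χ ZMod.stdAddChar‖ ^ 2 = d := by
  have h := parseval_LS0 (fun n b : ZMod d => ZMod.stdAddChar (n * b)) (fun _ => (d : ℝ))
    (fun b b' => by
      have := AddChar.sum_mulShift (b - b') (ZMod.isPrimitive_stdAddChar d)
      simp only [← AddChar.map_neg_eq_conj, ← AddChar.map_add_eq_mul, ← sub_eq_add_neg, ← mul_sub]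
      rw [this]
      simp [sub_eq_zero]) χ
  have e : ∀ n : ZMod d, ∑ b, ZMod.stdAddChar (n * b) * χ b =
      χ⁻¹ n * gaussSum χ ZMod.stdAddChar := fun n => by
    rw [← gaussSum_mulShift_of_isPrimitive _ hχ, gaussSum]
    exact Finset.sum_congr rfl fun b _ => by rw [AddChar.mulShift_apply, mul_comm]
  simp only [e, norm_mul, mul_pow, norm_chi_LS0, ← Finset.sum_mul, ← Finset.mul_sum] at h
  have hp : (0 : ℝ) < ∑ b : ZMod d, if IsUnit b then 1 else 0 :=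
    Finset.sum_pos' (fun b _ => by positivity) ⟨1, mem_univ _, by simp⟩
  rw [mul_comm] at h
  exact mul_right_cancel₀ hp.ne' h

theorem orth_LS0 (b b' : ZMod d) : ∑ χ : DirichletCharacter ℂ d, χ⁻¹ b * conj (χ⁻¹ b') =
    if b = b' then (((if IsUnit b then Nat.totient d else 0 : ℝ)) : ℂ) else 0 := by
  by_cases hb : IsUnit b
  · obtain ⟨u, rfl⟩ := hb
    have : ∀ χ : DirichletCharacter ℂ d, χ⁻¹ u * conj (χ⁻¹ b') = χ (↑u⁻¹ * b') := fun χ => by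
      rw [map_mul, map_units_inv, MulChar.inv_apply_eq_inv', ← Complex.star_def,
        MulChar.star_apply', inv_inv]
    simp only [this, DirichletCharacter.sum_characters_eq, Units.inv_mul_eq_one]
    simp
  · simp [MulChar.map_nonunit _ hb, hb]

theorem sum_red_LS0 (f : ZMod d → ℝ) :
    ∑ b : ZMod d, (if IsUnit b then f b else 0) =
      ∑ b ∈ (range d).filter fun b => Nat.Coprime b d, f b := by
  rw [Finset.sum_filter]
  refine Finset.sum_nbij' (fun b => b.val) (fun n => (n : ZMod d)) (fun b _ => ?_)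
    (fun _ _ => mem_univ _) (fun b _ => by simp) (fun n hn => ?_) (fun b _ => ?_)
  · simpa using b.val_lt
  · exact ZMod.val_cast_of_lt (by simpa using hn)
  · simp [← ZMod.isUnit_iff_coprime]

theorem gauss_LS0 (N : ℕ) (a : ℕ → ℂ) :
    ∑ χ ∈ prim d, ‖∑ n ∈ Icc 1 N, a n * χ (n : ZMod d)‖ ^ 2 ≤
      ∑ b ∈ (range d).filter fun b => Nat.Coprime b d,
        ‖∑ n ∈ Icc 1 N, a n * ZMod.stdAddChar ((n : ZMod d) * (b : ZMod d))‖ ^ 2 := by
  have hd' : (0 : ℝ) < d := by exact_mod_cast Nat.pos_of_ne_zero (NeZero.ne d)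
  have h := parseval_LS0 _ _ (orth_LS0 (d := d))
    fun b => ∑ n ∈ Icc 1 N, a n * ZMod.stdAddChar ((n : ZMod d) * b)
  simp only [ite_mul, zero_mul, sum_red_LS0] at h
  rw [← Finset.mul_sum] at h
  have h2 : (Nat.totient d : ℝ) ≤ d := by exact_mod_cast Nat.totient_le d
  refine le_of_mul_le_mul_left (le_trans ?_ (mul_le_mul_of_nonneg_right h2
    (sum_nonneg fun _ _ => by positivity))) hd'
  rw [← h, Finset.mul_sum]
  refine le_trans (le_of_eq (Finset.sum_congr rfl fun χ hχ => ?_))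
    (Finset.sum_le_sum_of_subset_of_nonneg (subset_univ (prim d)) fun _ _ _ => by positivity)
  have hp : χ⁻¹.IsPrimitive := by
    have := mem_prim.1 hχ
    rwa [DirichletCharacter.isPrimitive_def, DirichletCharacter.conductor_inv] at *
  rw [← norm_gauss_LS0 hp, ← mul_pow, ← norm_mul]
  congr 2
  simp only [Finset.mul_sum]
  rw [Finset.sum_comm]
  refine Finset.sum_congr rfl fun n _ => ?_
  have := gaussSum_mulShift_of_isPrimitive ZMod.stdAddChar hp (n : ZMod d)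
  rw [inv_inv] at this
  rw [mul_comm, mul_assoc, ← this, gaussSum, Finset.mul_sum]
  exact Finset.sum_congr rfl fun b _ => by rw [AddChar.mulShift_apply]; ring

end

theorem sum_LS0 {M : Type} [AddCommMonoid M] (L : ℕ) (F : ℕ → M) :
    ∑ t ∈ IT L, (if 1 ≤ t ∧ t ≤ L then F t.toNat else 0) = ∑ n ∈ Icc 1 L, F n := by
  rw [← sum_filter]
  refine sum_nbij' (fun t => t.toNat) (fun n => (n : ℤ)) (fun t ht => ?_) (fun n hn => ?_)
    (fun t ht => ?_) (fun n _ => by simp) fun t _ => rfl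
  · simp only [mem_filter, mem_IT, mem_Icc] at ht ⊢
    omega
  · simp only [mem_filter, mem_IT, mem_Icc] at hn ⊢
    omega
  · simp only [mem_filter, mem_IT] at ht ⊢
    omega

theorem trig_LS0 {d : ℕ} [NeZero d] (L : ℕ) (a : ℕ → ℂ) (b : ℕ) :
    trig L (fun t => if 1 ≤ t ∧ t ≤ L then a t.toNat else 0) (2 * Real.pi * ((b : ℝ) / d)) =
      ∑ n ∈ Icc 1 L, a n * ZMod.stdAddChar ((n : ZMod d) * (b : ZMod d)) := by
  rw [← sum_LS0, trig]
  refine sum_congr rfl fun t _ => ?_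
  split_ifs with h
  · obtain ⟨n, rfl⟩ := Int.eq_ofNat_of_zero_le (show 0 ≤ t by omega)
    have := ZMod.stdAddChar_coe (N := d) ((n * b : ℕ) : ℤ)
    push_cast at this
    rw [Int.toNat_natCast, this]
    congr 2
    push_cast
    ring
  · exact zero_mul _

theorem cm_LS0 (hF : FareyStmt) (R L : ℕ) (hL : 1 ≤ L) :
    CM ((range R ×ˢ Icc 1 R).filter fun p => p.1 < p.2 ∧ Nat.Coprime p.1 p.2)
      (fun p : ℕ × ℕ => 2 * Real.pi * ((p.1 : ℝ) / p.2)) L (2 * (1 + 1 / L * (R : ℝ) ^ 2)) := by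
  classical
  intro l s' hs hk
  have hL' : (1 : ℝ) ≤ L := by exact_mod_cast hL
  have hw : (0 : ℝ) ≤ 1 / L := by positivity
  have hw1 : (1 : ℝ) / L ≤ 1 := by rw [div_le_one (by positivity)]; exact hL'
  have hpi := Real.pi_gt_three
  obtain ⟨f, hf⟩ : ∃ f, f = l / (2 * Real.pi) := ⟨_, rfl⟩
  have hl : l = 2 * Real.pi * f := by rw [hf]; field_simp
  have key : ∀ α : ℝ, ((s'.filter fun p : ℕ × ℕ =>
      α ≤ (p.1 : ℝ) / p.2 ∧ (p.1 : ℝ) / p.2 ≤ α + 1 / L).card : ℝ) ≤ 1 + 1 / L * (R : ℝ) ^ 2 :=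
    fun α => hF _ R α _ hw fun p hp => by
      obtain ⟨h1, h2⟩ := mem_filter.1 hp
      have h3 := hs h1
      simp only [mem_filter, mem_product, mem_Icc] at h3
      exact ⟨h3.2.2, h3.1.2.1, by exact_mod_cast h3.1.2.2, h2⟩
  have hsub : s' ⊆ (s'.filter fun p : ℕ × ℕ => Int.fract f ≤ (p.1 : ℝ) / p.2 ∧
      (p.1 : ℝ) / p.2 ≤ Int.fract f + 1 / L) ∪ s'.filter fun p : ℕ × ℕ =>
      Int.fract f - 1 ≤ (p.1 : ℝ) / p.2 ∧ (p.1 : ℝ) / p.2 ≤ Int.fract f - 1 + 1 / L := by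
    intro p hp
    obtain ⟨k, k1, k2⟩ := hk p hp
    beta_reduce at k1 k2
    have h3 := hs hp
    simp only [mem_filter, mem_product, mem_Icc] at h3
    have p0 : (0 : ℝ) < p.2 := by exact_mod_cast h3.1.2.1
    have x0 : 0 ≤ (p.1 : ℝ) / p.2 := by positivity
    have x1 : (p.1 : ℝ) / p.2 < 1 := by rw [div_lt_one p0]; exact_mod_cast h3.2.1
    simp only [mem_union, mem_filter, hp, true_and]
    generalize (p.1 : ℝ) / p.2 = x at *
    generalize (1 : ℝ) / L = w at *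
    have a1 : f + k ≤ x := by
      by_contra hc
      nlinarith
    have a2 : x ≤ f + k + w := by
      by_contra hc
      nlinarith
    have b0 := Int.fract_nonneg f
    have b1 := Int.fract_lt_one f
    have b2 := Int.floor_add_fract f
    have c1 : ⌊f⌋ + k < 1 := by
      have : ((⌊f⌋ + k : ℤ) : ℝ) < (1 : ℤ) := by push_cast; linarith
      exact_mod_cast this
    have c2 : -2 < ⌊f⌋ + k := by
      have : ((-2 : ℤ) : ℝ) < (⌊f⌋ + k : ℤ) := by push_cast; linarith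
      exact_mod_cast this
    rcases (by omega : ⌊f⌋ + k = 0 ∨ ⌊f⌋ + k = -1) with h | h
    · have : (⌊f⌋ : ℝ) + k = 0 := by exact_mod_cast h
      exact Or.inl ⟨by linarith, by linarith⟩
    · have : (⌊f⌋ : ℝ) + k = -1 := by exact_mod_cast h
      exact Or.inr ⟨by linarith, by linarith⟩
  have h1 := (Nat.cast_le (α := ℝ)).2 ((card_le_card hsub).trans (card_union_le _ _))
  push_cast at h1
  linarith [key (Int.fract f), key (Int.fract f - 1)]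

theorem ls0_stmt (hL : LSStmt) (hF : FareyStmt) : LS0Stmt := by
  obtain ⟨c, hc, h⟩ := hL
  refine ⟨2 * c, by positivity, fun R L a => ?_⟩
  rcases Nat.eq_zero_or_pos L with rfl | hL
  · simp
  have hL' : (0 : ℝ) < L := by exact_mod_cast hL
  have h1 := h _ _ _ L _ hL (cm_LS0 hF R L hL) fun t => if 1 ≤ t ∧ t ≤ L then a t.toNat else 0
  have e1 : ∑ t ∈ IT L, ‖if 1 ≤ t ∧ t ≤ (L : ℤ) then a t.toNat else 0‖ ^ 2 =
      ∑ n ∈ Icc 1 L, ‖a n‖ ^ 2 := by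
    rw [← sum_LS0]
    exact sum_congr rfl fun t _ => by split_ifs <;> simp
  rw [e1, sum_finset_product_right _ (Icc 1 R) (fun r => (range r).filter fun b => Nat.Coprime b r)
    (fun p => by
      simp only [mem_filter, mem_product, mem_Icc, mem_range]
      exact ⟨fun h => ⟨h.1.2, h.2⟩, fun h => ⟨⟨by omega, h.1⟩, h.2⟩⟩)] at h1
  refine le_trans (sum_le_sum fun r hr => ?_) (h1.trans (le_of_eq ?_))
  · have : NeZero r := ⟨by have := (mem_Icc.1 hr).1; omega⟩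
    simp only [trig_LS0]
    exact gauss_LS0 L a
  · field_simp
    ring

end Pool.Agent.MP_2a1f0e_nt.RF

end

section

set_option autoImplicit false

open Finset
open scoped ComplexConjugate

namespace Pool.Agent.MP_2a1f0e_nt.RF

open GM

/-- the triangular weight -/
noncomputable def wF_Big (T : ℕ) (t : ℤ) : ℝ := (2 * (T : ℝ) - |(t : ℝ)|) / (2 * T)

theorem wF_mem_Big {T : ℕ} (hT : 1 ≤ T) {t : ℤ} (ht : t ∈ IT T) :
    0 ≤ wF_Big T t ∧ wF_Big T t ≤ 1 := by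
  have hT' : (1 : ℝ) ≤ T := by exact_mod_cast hT
  rw [mem_IT] at ht
  have h1 : |(t : ℝ)| ≤ 2 * T := by
    have a1 : (-(2 * T : ℤ) : ℝ) < t := by exact_mod_cast ht.1
    have a2 : (t : ℝ) < (2 * T : ℤ) := by exact_mod_cast ht.2
    push_cast at a1 a2
    rw [abs_le]
    constructor <;> linarith
  have h2 : 0 ≤ |(t : ℝ)| := abs_nonneg _
  unfold wF_Big
  constructor
  · apply div_nonneg <;> linarith
  · rw [div_le_one (by linarith)]
    linarith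

theorem normSq_DP_Big (N : ℕ) (b : ℕ → ℂ) (t : ℝ) :
    ((‖DP N b t‖ ^ 2 : ℝ) : ℂ) = ∑ x ∈ Icc N (2 * N), ∑ x' ∈ Icc N (2 * N),
      b x * conj (b x') *
        Complex.exp (Complex.I * (t : ℂ) * ((Real.log x - Real.log x' : ℝ) : ℂ)) := by
  have h : ((‖DP N b t‖ ^ 2 : ℝ) : ℂ) = DP N b t * conj (DP N b t) := by
    rw [Complex.mul_conj, Complex.normSq_eq_norm_sq]
  rw [h]
  unfold DP
  rw [map_sum, sum_mul_sum]
  refine sum_congr rfl fun x _ => sum_congr rfl fun x' _ => ?_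
  rw [map_mul, conj_pw]
  unfold pw
  have : Complex.exp (Complex.I * (t : ℂ) * ((Real.log x - Real.log x' : ℝ) : ℂ)) =
      Complex.exp (Complex.I * (t : ℂ) * ((Real.log (x : ℝ) : ℝ) : ℂ)) *
        Complex.exp (Complex.I * ((-t : ℝ) : ℂ) * ((Real.log (x' : ℝ) : ℝ) : ℂ)) := by
    rw [← Complex.exp_add]
    congr 1
    push_cast
    ring
  rw [this]
  ring

theorem fu_full_Big (N T : ℕ) (b : ℕ → ℂ) (u : ℝ) :
    fu T (fun t => wF_Big T t * ‖DP N b t‖ ^ 2) u =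
      ∑ x ∈ Icc N (2 * N), ∑ x' ∈ Icc N (2 * N),
        b x * conj (b x') * fu T (wF_Big T) (u + Real.log x - Real.log x') := by
  unfold fu trig
  simp only [mul_sum]
  rw [sum_comm]
  have key : ∀ t : ℤ, (((wF_Big T t * ‖DP N b t‖ ^ 2 : ℝ) : ℂ)) *
      Complex.exp (Complex.I * (t : ℂ) * (u : ℂ)) =
      ∑ x ∈ Icc N (2 * N), ∑ x' ∈ Icc N (2 * N), b x * conj (b x') *
        (((wF_Big T t : ℝ) : ℂ) * Complex.exp (Complex.I * (t : ℂ) *
          ((u + Real.log x - Real.log x' : ℝ) : ℂ))) := by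
    intro t
    rw [Complex.ofReal_mul, normSq_DP_Big, mul_sum, sum_mul]
    refine sum_congr rfl fun x _ => ?_
    rw [mul_sum, sum_mul]
    refine sum_congr rfl fun x' _ => ?_
    have : Complex.exp (Complex.I * (t : ℂ) * ((u + Real.log x - Real.log x' : ℝ) : ℂ)) =
        Complex.exp (Complex.I * (((t : ℝ)) : ℂ) * ((Real.log x - Real.log x' : ℝ) : ℂ)) *
          Complex.exp (Complex.I * (t : ℂ) * (u : ℂ)) := by
      rw [← Complex.exp_add]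
      congr 1
      push_cast
      ring
    rw [this]
    ring
  simp only [key]
  rw [sum_comm]
  conv_rhs => rw [sum_comm]
  refine sum_congr rfl fun x _ => ?_
  rw [sum_comm]

theorem fu_diff_Big {N T : ℕ} (hT : 1 ≤ T) (b : ℕ → ℂ) (V u : ℝ) :
    ‖fu T (gw N T b V) u - fu T (fun t => wF_Big T t * ‖DP N b t‖ ^ 2) u‖ ≤
      Mass N b (IT T) V := by
  unfold fu trig Mass
  rw [← sum_sub_distrib, sum_filter]
  refine (norm_sum_le _ _).trans (sum_le_sum fun t ht => ?_)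
  rw [← sub_mul, norm_mul]
  have e1 : ‖Complex.exp (Complex.I * (t : ℂ) * (u : ℂ))‖ = 1 := by
    have : Complex.I * (t : ℂ) * (u : ℂ) = (((t : ℝ) * u : ℝ) : ℂ) * Complex.I := by
      push_cast
      ring
    rw [this, Complex.norm_exp_ofReal_mul_I]
  rw [e1, mul_one, ← Complex.ofReal_sub, Complex.norm_real, Real.norm_eq_abs]
  obtain ⟨w0, w1⟩ := wF_mem_Big hT ht
  have hg : gw N T b V t = wF_Big T t * (if ‖DP N b t‖ < V then ‖DP N b t‖ ^ 2 else 0) := rfl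
  rw [hg]
  by_cases h : ‖DP N b t‖ < V
  · rw [if_pos h, if_neg (not_le.2 h), sub_self, abs_zero]
  · rw [if_neg h, if_pos (not_lt.1 h), mul_zero, zero_sub, abs_neg,
      abs_of_nonneg (by positivity)]
    exact mul_le_of_le_one_left (by positivity) w1

theorem log_diff_Big {N x x' : ℕ} (hN : 1 ≤ N) (hx : x ∈ Icc N (2 * N))
    (hx' : x' ∈ Icc N (2 * N)) : Real.log x - Real.log x' ≤ 0.7 := by
  rw [mem_Icc] at hx hx'
  have hN' : (1 : ℝ) ≤ N := by exact_mod_cast hN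
  have a1 : (N : ℝ) ≤ x := by exact_mod_cast hx.1
  have a2 : (x : ℝ) ≤ 2 * N := by exact_mod_cast hx.2
  have a3 : (N : ℝ) ≤ x' := by exact_mod_cast hx'.1
  have h1 : Real.log x ≤ Real.log (2 * x') := Real.log_le_log (by linarith) (by linarith)
  rw [Real.log_mul (by norm_num) (by linarith)] at h1
  have := Real.log_two_lt_d9
  linarith

theorem maj_nonneg_Big (N T : ℕ) (u : ℝ) : 0 ≤ maj N T u :=
  sum_nonneg fun _ _ => mul_nonneg (by positivity) (kp_pos _).le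

theorem red_Big (u : ℝ) : |u - 2 * Real.pi * (round (u / (2 * Real.pi)) : ℤ)| ≤ Real.pi := by
  have hp := Real.pi_pos
  have h := abs_sub_round (u / (2 * Real.pi))
  have e : u - 2 * Real.pi * (round (u / (2 * Real.pi)) : ℤ) =
      2 * Real.pi * (u / (2 * Real.pi) - (round (u / (2 * Real.pi)) : ℤ)) := by
    field_simp
  rw [e, abs_mul, abs_of_pos (by positivity : 0 < 2 * Real.pi)]
  nlinarith

theorem CM_shift_Big {ι : Type} {s : Finset ι} {u : ι → ℝ} {T : ℕ} {μ : ℝ} (h : CM s u T μ)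
    (k : ι → ℤ) : CM s (fun i => u i - 2 * Real.pi * k i) T μ := by
  intro l s' hs hl
  refine h l s' hs fun i hi => ?_
  obtain ⟨m, h1, h2⟩ := hl i hi
  refine ⟨k i + m, ?_, ?_⟩
  · push_cast
    linarith
  · push_cast
    linarith

theorem point_Big {c₁ c₂ : ℝ} (h₁ : 0 < c₁)
    (hK : ∀ (T : ℕ) (u : ℝ), 1 ≤ T → |u| ≤ 4 →
      ‖fu T (fun t => (2 * (T : ℝ) - |(t : ℝ)|) / (2 * T)) u‖ ≤ c₁ * T * kp (T * u))
    (hP : ∀ (N T : ℕ) (u : ℝ), 1 ≤ N → N ≤ T → T ≤ N ^ 2 →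
      ∑ x ∈ Icc N (2 * N), ∑ x' ∈ Icc N (2 * N),
        kp (T * (u + Real.log x - Real.log x')) ≤ c₂ * ((N : ℝ) ^ 2 / T + maj N T u))
    {N T : ℕ} {b : ℕ → ℂ} (V : ℝ) (hN : 1 ≤ N) (hNT : N ≤ T) (hTN : T ≤ N ^ 2)
    (hb : ∀ n, ‖b n‖ ≤ 1) {u : ℝ} (hu : |u| ≤ Real.pi) :
    ‖fu T (gw N T b V) u‖ ≤
      Mass N b (IT T) V + c₁ * c₂ * (N : ℝ) ^ 2 + c₁ * c₂ * T * maj N T u := by
  have hT : 1 ≤ T := hN.trans hNT
  have hT' : (0 : ℝ) < T := by exact_mod_cast hT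
  have d := fu_diff_Big (N := N) hT b V u
  have f : ‖fu T (fun t => wF_Big T t * ‖DP N b t‖ ^ 2) u‖ ≤
      c₁ * T * (c₂ * ((N : ℝ) ^ 2 / T + maj N T u)) := by
    rw [fu_full_Big]
    refine le_trans ?_ (mul_le_mul_of_nonneg_left (hP N T u hN hNT hTN) (by positivity))
    rw [mul_sum]
    refine (norm_sum_le _ _).trans (sum_le_sum fun x hx => ?_)
    rw [mul_sum]
    refine (norm_sum_le _ _).trans (sum_le_sum fun x' hx' => ?_)
    have l1 := log_diff_Big hN hx hx'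
    have l2 := log_diff_Big hN hx' hx
    have hpi := Real.pi_lt_d2
    have hu4 : |u + Real.log x - Real.log x'| ≤ 4 := by
      rw [abs_le] at hu ⊢
      constructor <;> linarith [hu.1, hu.2]
    have k := hK T _ hT hu4
    rw [norm_mul, norm_mul, Complex.norm_conj]
    have hbb : ‖b x‖ * ‖b x'‖ ≤ 1 := mul_le_one₀ (hb x) (norm_nonneg _) (hb x')
    exact (mul_le_of_le_one_left (norm_nonneg _) hbb).trans k
  have e : c₁ * T * (c₂ * ((N : ℝ) ^ 2 / T + maj N T u)) =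
      c₁ * c₂ * (N : ℝ) ^ 2 + c₁ * c₂ * T * maj N T u := by
    field_simp
  have t := norm_le_norm_sub_add (fu T (gw N T b V) u)
    (fu T (fun t => wF_Big T t * ‖DP N b t‖ ^ 2) u)
  linarith

theorem big_stmt (hK : KerStmt) (hP : PrsStmt) (hM : MajStmt) : BigStmt := by
  obtain ⟨c₁, h₁, hK⟩ := hK
  obtain ⟨c₂, h₂, hP⟩ := hP
  obtain ⟨c₃, h₃, hM⟩ := hM
  refine ⟨2 * (c₁ * c₂) + 4 * (c₁ * c₂) ^ 2 * c₃, by positivity, ?_⟩
  intro N T b V Ms hN hNT hTN hb hMs ι s u μ hc hbig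
  set u' : ι → ℝ := fun i => u i - 2 * Real.pi * (round (u i / (2 * Real.pi)) : ℤ) with hu'
  have hc' : CM s u' T μ := CM_shift_Big hc fun i => round (u i / (2 * Real.pi))
  have hm := hM N T ι s u' μ hN hNT hTN hc'
  have hμ := hc.nonneg
  have hM0 := Mass_nonneg N b (IT T) V
  have hcc : 0 < c₁ * c₂ := mul_pos h₁ h₂
  have hlog : 0 ≤ 1 + Real.log N := by
    have := Real.log_natCast_nonneg N
    linarith
  have pt1 : ∀ i ∈ s, ‖fu T (gw N T b V) (u i)‖ ^ 2 ≤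
      4 * (c₁ * c₂) ^ 2 * (T : ℝ) ^ 2 * maj N T (u' i) ^ 2 := by
    intro i hi
    have e : fu T (gw N T b V) (u' i) = fu T (gw N T b V) (u i) := trig_per _ _ _ _
    have p := point_Big h₁ hK hP V hN hNT hTN hb (red_Big (u i))
    change ‖fu T (gw N T b V) (u' i)‖ ≤
      Mass N b (IT T) V + c₁ * c₂ * (N : ℝ) ^ 2 + c₁ * c₂ * T * maj N T (u' i) at p
    rw [e] at p
    have q := hbig i hi
    have r : 0 ≤ 4 * (c₁ * c₂) ^ 2 * c₃ * (N : ℝ) ^ 2 := by positivity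
    have z : ‖fu T (gw N T b V) (u i)‖ ≤ 2 * (c₁ * c₂) * T * maj N T (u' i) := by
      nlinarith
    calc ‖fu T (gw N T b V) (u i)‖ ^ 2 ≤ (2 * (c₁ * c₂) * T * maj N T (u' i)) ^ 2 :=
          pow_le_pow_left₀ (norm_nonneg _) z 2
      _ = _ := by ring
  calc ∑ i ∈ s, ‖fu T (gw N T b V) (u i)‖ ^ 2
      ≤ ∑ i ∈ s, 4 * (c₁ * c₂) ^ 2 * (T : ℝ) ^ 2 * maj N T (u' i) ^ 2 := sum_le_sum pt1
    _ = 4 * (c₁ * c₂) ^ 2 * (T : ℝ) ^ 2 * ∑ i ∈ s, maj N T (u' i) ^ 2 := by rw [mul_sum]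
    _ ≤ 4 * (c₁ * c₂) ^ 2 * (T : ℝ) ^ 2 * (c₃ * μ * (N : ℝ) ^ 2 * (1 + Real.log N)) :=
        mul_le_mul_of_nonneg_left hm (by positivity)
    _ = 4 * (c₁ * c₂) ^ 2 * c₃ * ((T : ℝ) ^ 2 * (N : ℝ) ^ 2 * (1 + Real.log N) * μ) := by ring
    _ ≤ (2 * (c₁ * c₂) + 4 * (c₁ * c₂) ^ 2 * c₃) *
          ((T : ℝ) ^ 2 * (N : ℝ) ^ 2 * (1 + Real.log N) * μ) :=
        mul_le_mul_of_nonneg_right (by linarith) (by positivity)
    _ = _ := by ring

end Pool.Agent.MP_2a1f0e_nt.RF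

end

section

set_option autoImplicit false

open Finset
open scoped ComplexConjugate

namespace Pool.Agent.MP_2a1f0e_nt.RF

open GM

theorem class_Count (a L m : ℕ) (t : Finset ℕ) (_hm : 1 ≤ m) (ht : t ⊆ Icc a (a + L))
    (h : ∀ x ∈ t, ∀ x' ∈ t, x ≡ x' [MOD m]) : (t.card : ℝ) ≤ 1 + (L : ℝ) / m := by
  have h1 : t.card ≤ (range (L / m + 1)).card := by
    refine card_le_card_of_injOn (fun x => (x - a) / m) ?_ ?_
    · intro x hx
      have := mem_Icc.1 (ht hx)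
      simp only [coe_range, Set.mem_Iio]
      exact Nat.lt_succ_of_le (Nat.div_le_div_right (by omega))
    · intro x hx x' hx' e
      have h2 := mem_Icc.1 (ht hx)
      have h3 := mem_Icc.1 (ht hx')
      have h4 : x - a ≡ x' - a [MOD m] := by
        have h5 := h x hx x' hx'
        apply Nat.ModEq.add_right_cancel' a
        rwa [Nat.sub_add_cancel h2.1, Nat.sub_add_cancel h3.1]
      have h6 := Nat.div_add_mod (x - a) m
      have h7 := Nat.div_add_mod (x' - a) m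
      have e' : (x - a) / m = (x' - a) / m := e
      have h8 : (x - a) % m = (x' - a) % m := h4
      rw [e', h8] at h6
      omega
  rw [card_range] at h1
  have h2 : ((L / m : ℕ) : ℝ) ≤ (L : ℝ) / m := Nat.cast_div_le
  have h3 : (t.card : ℝ) ≤ ((L / m + 1 : ℕ) : ℝ) := by exact_mod_cast h1
  push_cast at h3
  linarith

theorem mult_Count (X m : ℕ) (t : Finset ℕ) (ht : t ⊆ Icc 1 X) (h : ∀ x ∈ t, m ∣ x) :
    (t.card : ℝ) ≤ (X : ℝ) / m := by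
  have h1 : t ⊆ (Ioc 0 X).filter fun x => m ∣ x := by
    intro x hx
    have := mem_Icc.1 (ht hx)
    exact mem_filter.2 ⟨mem_Ioc.2 ⟨by omega, this.2⟩, h x hx⟩
  have h2 := card_le_card h1
  rw [Nat.Ioc_filter_dvd_card_eq_div] at h2
  have h3 : ((X / m : ℕ) : ℝ) ≤ (X : ℝ) / m := Nat.cast_div_le
  exact le_trans (by exact_mod_cast h2) h3

theorem red_Count (c Q m : ℕ) (X : ℝ) (hX : 0 ≤ X) (hQ : 1 ≤ Q) (hm : m ∣ Q) :
    1 ≤ m / Nat.gcd m c ∧ X / ((m / Nat.gcd m c : ℕ) : ℝ) ≤ X * Nat.gcd c Q / m := by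
  have hm0 : 0 < m := Nat.pos_of_dvd_of_pos hm hQ
  have hg : 0 < Nat.gcd m c := Nat.gcd_pos_of_pos_left _ hm0
  have h1 : 1 ≤ m / Nat.gcd m c :=
    Nat.div_pos (Nat.le_of_dvd hm0 (Nat.gcd_dvd_left _ _)) hg
  refine ⟨h1, ?_⟩
  have h2 : Nat.gcd m c ≤ Nat.gcd c Q :=
    Nat.le_of_dvd (Nat.gcd_pos_of_pos_right _ hQ)
      (Nat.dvd_gcd (Nat.gcd_dvd_right _ _) ((Nat.gcd_dvd_left _ _).trans hm))
  have h3 : m ≤ Nat.gcd c Q * (m / Nat.gcd m c) := by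
    calc m = Nat.gcd m c * (m / Nat.gcd m c) :=
          (Nat.mul_div_cancel' (Nat.gcd_dvd_left _ _)).symm
      _ ≤ _ := Nat.mul_le_mul_right _ h2
  have h4 : (m : ℝ) ≤ (Nat.gcd c Q : ℝ) * ((m / Nat.gcd m c : ℕ) : ℝ) := by exact_mod_cast h3
  have h5 : (0 : ℝ) < ((m / Nat.gcd m c : ℕ) : ℝ) := by exact_mod_cast h1
  have h6 : (0 : ℝ) < m := by exact_mod_cast hm0
  rw [div_le_div_iff₀ h5 h6, mul_assoc]
  exact mul_le_mul_of_nonneg_left h4 hX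

theorem one_Count (N c Q d q : ℕ) (t : Finset ℕ) (hN : 1 ≤ N) (hQ : 1 ≤ Q) (hd : d * q ∣ Q)
    (ht : t ⊆ Icc N (2 * N)) (h : ∀ x ∈ t, Nat.gcd (c * x) Q = d) :
    (t.card : ℝ) ≤ 3 * N * Nat.gcd c Q / d ∧
      ((∀ x ∈ t, ∀ x' ∈ t, c * x / d ≡ c * x' / d [MOD q]) →
        (t.card : ℝ) ≤ 1 + N * Nat.gcd c Q / (d * q)) := by
  have hdQ : d ∣ Q := (Dvd.intro _ rfl).trans hd
  have hd0 : 0 < d := Nat.pos_of_dvd_of_pos hdQ hQ
  have hdx : ∀ x ∈ t, d ∣ c * x := fun x hx => h x hx ▸ Nat.gcd_dvd_left _ _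
  constructor
  · have h1 := red_Count c Q d ((2 * N : ℕ) : ℝ) (Nat.cast_nonneg _) hQ hdQ
    have h2 := mult_Count (2 * N) (d / Nat.gcd d c) t
      (ht.trans (Icc_subset_Icc hN le_rfl)) (fun x hx => by
        have h3 : c * x ≡ c * 0 [MOD d] := by
          rw [mul_zero]
          exact (Nat.modEq_zero_iff_dvd).2 (hdx x hx)
        exact (Nat.modEq_zero_iff_dvd).1 (h3.cancel_left_div_gcd hd0))
    refine (h2.trans h1.2).trans ?_
    push_cast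
    gcongr
    norm_num
  · intro hc
    have h1 := red_Count c Q (d * q) (N : ℝ) (Nat.cast_nonneg _) hQ hd
    have h2 := class_Count N N (d * q / Nat.gcd (d * q) c) t h1.1
      (by rwa [← two_mul]) (fun x hx x' hx' => by
        have h3 := (hc x hx x' hx').mul_left' (c := d)
        rw [Nat.mul_div_cancel' (hdx x hx), Nat.mul_div_cancel' (hdx x' hx')] at h3
        exact h3.cancel_left_div_gcd (Nat.pos_of_dvd_of_pos hd hQ))
    have h3 := h1.2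
    push_cast at h3 h2 ⊢
    linarith

theorem fib_Count (N C' : ℕ) (Δ : ℝ) (t : Finset (ℕ × ℕ)) (hN : 1 ≤ N) (_hC : 1 ≤ C')
    (hΔ : DivB (4 * N * C') Δ) (ht : t ⊆ Ico C' (2 * C') ×ˢ Icc N (2 * N)) :
    t.image (fun a => a.1 * a.2) ⊆ Icc 1 (4 * N * C') ∧
      (t.card : ℝ) ≤ Δ * (t.image (fun a => a.1 * a.2)).card := by
  have h1 : t.image (fun a => a.1 * a.2) ⊆ Icc 1 (4 * N * C') := by
    intro n hn
    obtain ⟨a, ha, rfl⟩ := mem_image.1 hn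
    have h2 := mem_product.1 (ht ha)
    have h3 := mem_Ico.1 h2.1
    have h4 := mem_Icc.1 h2.2
    refine mem_Icc.2 ⟨Nat.mul_pos (by omega) (by omega), ?_⟩
    calc a.1 * a.2 ≤ (2 * C') * (2 * N) := Nat.mul_le_mul h3.2.le h4.2
      _ = 4 * N * C' := by ring
  refine ⟨h1, ?_⟩
  rw [card_eq_sum_card_image (fun a : ℕ × ℕ => a.1 * a.2) t]
  push_cast
  rw [mul_comm, ← nsmul_eq_mul]
  refine sum_le_card_nsmul _ _ _ fun n hn => ?_
  have h2 := mem_Icc.1 (h1 hn)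
  refine le_trans ?_ (hΔ.2 n h2.2)
  have h3 : (t.filter fun a => a.1 * a.2 = n).card ≤ n.divisors.card := by
    refine card_le_card_of_injOn (fun a => a.1) ?_ ?_
    · intro a ha
      have h4 := (mem_filter.1 ha).2
      exact Nat.mem_divisors.2 ⟨Dvd.intro _ h4, by omega⟩
    · intro a ha a' ha' e
      have h4 := (mem_filter.1 ha).2
      have h5 := (mem_filter.1 ha').2
      have e' : a.1 = a'.1 := e
      have h6 : a.1 ≠ 0 := by
        intro h0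
        rw [h0] at h4
        omega
      refine Prod.ext e' ?_
      rw [← e', ← h4] at h5
      exact (Nat.eq_of_mul_eq_mul_left (Nat.pos_of_ne_zero h6) h5).symm
  exact_mod_cast h3

theorem two_Count (N C' d q : ℕ) (Δ : ℝ) (t : Finset (ℕ × ℕ)) (hN : 1 ≤ N) (hC : 1 ≤ C')
    (hd : 1 ≤ d) (hq : 1 ≤ q) (hΔ : DivB (4 * N * C') Δ)
    (ht : t ⊆ Ico C' (2 * C') ×ˢ Icc N (2 * N)) (h : ∀ a ∈ t, d ∣ a.1 * a.2) :
    (t.card : ℝ) ≤ Δ * (4 * N * C' / d) ∧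
      ((∀ a ∈ t, ∀ a' ∈ t, a.1 * a.2 / d ≡ a'.1 * a'.2 / d [MOD q]) →
        (t.card : ℝ) ≤ Δ * (1 + 4 * N * C' / (d * q))) := by
  obtain ⟨h1, h2⟩ := fib_Count N C' Δ t hN hC hΔ ht
  have hΔ0 : 0 ≤ Δ := zero_le_one.trans hΔ.1
  constructor
  · have h3 := mult_Count (4 * N * C') d _ h1 (fun n hn => by
      obtain ⟨a, ha, rfl⟩ := mem_image.1 hn
      exact h a ha)
    push_cast at h3
    exact h2.trans (mul_le_mul_of_nonneg_left h3 hΔ0)
  · intro hc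
    have h3 := class_Count 0 (4 * N * C') (d * q) (t.image (fun a => a.1 * a.2))
      (Nat.mul_pos hd hq) (h1.trans (Icc_subset_Icc (Nat.zero_le _) (by omega)))
      (fun n hn n' hn' => by
        obtain ⟨a, ha, rfl⟩ := mem_image.1 hn
        obtain ⟨a', ha', rfl⟩ := mem_image.1 hn'
        have h3 := (hc a ha a' ha').mul_left' (c := d)
        rwa [Nat.mul_div_cancel' (h a ha), Nat.mul_div_cancel' (h a' ha')] at h3)
    push_cast at h3
    exact h2.trans (mul_le_mul_of_nonneg_left h3 hΔ0)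

theorem three_Count (C Q : ℕ) (hQ : 1 ≤ Q) :
    ∑ c ∈ Ico C (2 * C), (Nat.gcd c Q : ℝ) ≤ 3 * C * Q.divisors.card := by
  rcases Nat.eq_zero_or_pos C with rfl | hC
  · simp
  have h1 : ∀ c ∈ Ico C (2 * C),
      (Nat.gcd c Q : ℝ) ≤ ∑ e ∈ Q.divisors, if e ∣ c then (e : ℝ) else 0 := by
    intro c _
    have h2 : Nat.gcd c Q ∈ Q.divisors :=
      Nat.mem_divisors.2 ⟨Nat.gcd_dvd_right _ _, by omega⟩
    have h3 := single_le_sum (f := fun e : ℕ => if e ∣ c then (e : ℝ) else 0)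
      (fun e _ => by split_ifs <;> positivity) h2
    simpa [Nat.gcd_dvd_left] using h3
  refine (sum_le_sum h1).trans ?_
  rw [sum_comm, mul_comm (3 * (C : ℝ)), ← nsmul_eq_mul]
  refine sum_le_card_nsmul _ _ _ fun e he => ?_
  have he0 : 0 < e := Nat.pos_of_mem_divisors he
  have he1 : (0 : ℝ) < e := by exact_mod_cast he0
  rw [← sum_filter, sum_const, nsmul_eq_mul]
  have h2 := mult_Count (2 * C) e ((Ico C (2 * C)).filter fun c => e ∣ c)
    (fun c hc => by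
      have := mem_Ico.1 (mem_filter.1 hc).1
      exact mem_Icc.2 ⟨by omega, this.2.le⟩) (fun c hc => (mem_filter.1 hc).2)
  rw [le_div_iff₀ he1] at h2
  push_cast at h2
  have h3 : (0 : ℝ) ≤ C := Nat.cast_nonneg _
  linarith

theorem count_stmt : CountStmt :=
  ⟨fun N c Q d q t hN _ hQ hd ht h => one_Count N c Q d q t hN hQ hd ht h,
    fun N C' d q Δ t hN hC hd hq hΔ ht h => two_Count N C' d q Δ t hN hC hd hq hΔ ht h,
    three_Count⟩

end Pool.Agent.MP_2a1f0e_nt.RF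

end

section

set_option autoImplicit false

open Finset

namespace Pool.Agent.MP_2a1f0e_nt

lemma pow_eq_sum {N : ℕ} (hN : 1 ≤ N) (b : ℕ → ℂ) (k t : ℕ) :
    ‖∑ a ∈ Icc N (2 * N), b a * nit t a‖ ^ (2 * k) =
      ‖∑ n ∈ Icc (N ^ k) ((2 * N) ^ k), (tr N b ^ k) n * nit t n‖ ^ 2 := by
  rw [tr_pow_sum hN b (nit t) (nit_mul t) (nit_one t) k, norm_pow, ← pow_mul, mul_comm k 2]

lemma sum_tr_pow {N : ℕ} (hN : 1 ≤ N) (b : ℕ → ℂ) (k : ℕ) :
    ∑ n ∈ Icc (N ^ k) ((2 * N) ^ k), (tr N (fun n => ‖b n‖) ^ k) n =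
      (∑ a ∈ Icc N (2 * N), ‖b a‖) ^ k := by
  have := tr_pow_sum hN (fun n => ‖b n‖) (fun _ => (1 : ℝ)) (by simp) rfl k
  simpa using this

lemma supp_ratio {N k n m : ℕ} (hn : n ∈ Icc (N ^ k) ((2 * N) ^ k))
    (hm : m ∈ Icc (N ^ k) ((2 * N) ^ k)) : n ≤ 2 ^ k * m := by
  rw [mem_Icc] at hn hm
  calc n ≤ (2 * N) ^ k := hn.2
    _ = 2 ^ k * N ^ k := mul_pow _ _ _
    _ ≤ _ := Nat.mul_le_mul_left _ hm.1

lemma moment_low {N k T X : ℕ} (hN : 1 ≤ N) (hk : 1 ≤ k) (hT : N ^ k ≤ T) (b : ℕ → ℂ)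
    (hb : ∀ n, ‖b n‖ ≤ 1) {τ : ℝ} (hτ1 : 1 ≤ τ) (hX : (2 * N) ^ k ≤ X)
    (hτ : ∀ n ≤ X, (n.divisors.card : ℝ) ≤ τ) :
    ∑ t ∈ Icc 1 T, ‖∑ a ∈ Icc N (2 * N), b a * nit t a‖ ^ (2 * k) ≤
      8 * k * (2 + 4 * 2 ^ (k + 1)) * (τ ^ k * (T * (∑ a ∈ Icc N (2 * N), ‖b a‖) ^ k)) := by
  have hNk : 1 ≤ N ^ k := Nat.one_le_pow _ _ hN
  simp_rw [pow_eq_sum hN b k]
  set S := Icc (N ^ k) ((2 * N) ^ k) with hS
  set u : ℕ → ℝ := fun n => (tr N (fun n => ‖b n‖) ^ k) n with hu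
  have h1 := mv_kernel S (fun n => (tr N b ^ k) n) u (fun n _ => tr_pow_norm N b k n) k T hk
    (hNk.trans hT) (((2 * N) ^ k : ℕ) : ℝ) (2 ^ (k + 1)) (by positivity)
    (by
      have : (N : ℝ) ^ k ≤ T := by exact_mod_cast hT
      push_cast
      rw [mul_pow, pow_succ]
      have : (0 : ℝ) < 2 ^ k := by positivity
      nlinarith)
    (fun n hn => hNk.trans (mem_Icc.1 hn).1)
    (fun n hn => by exact_mod_cast (mem_Icc.1 hn).2)
    (fun n hn m hm => supp_ratio hn hm)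
  have h2 := kernel_schur S u (H := 2 ^ (k + 1)) (by positivity)
  have h3 : ∑ n ∈ S, u n ^ 2 ≤ τ ^ k * (∑ a ∈ Icc N (2 * N), ‖b a‖) ^ k := by
    rw [← sum_tr_pow hN b k, mul_sum]
    refine sum_le_sum fun n hn => ?_
    have a1 := tr_pow_le N b hb hτ1 hτ k n ((mem_Icc.1 hn).2.trans hX)
    have a2 := tr_pow_nonneg N b k n
    simp only [hu]
    nlinarith
  refine h1.trans ?_
  calc 8 * (k : ℝ) * T * ∑ n ∈ S, ∑ m ∈ S, u n * u m * kp (((n : ℝ) - m) / 2 ^ (k + 1))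
      ≤ 8 * (k : ℝ) * T * ((2 + 4 * 2 ^ (k + 1)) * (τ ^ k * (∑ a ∈ Icc N (2 * N), ‖b a‖) ^ k)) := by
        apply mul_le_mul_of_nonneg_left _ (by positivity)
        exact h2.trans (mul_le_mul_of_nonneg_left h3 (by positivity))
    _ = _ := by ring

lemma moment_high {N k j m T : ℕ} (hN : 1 ≤ N) (hjm : j + m = k + 1) (hj : 2 * j ≤ k + 1)
    (hT1 : 1 ≤ T) (hT : T ≤ (2 * N) ^ (k + 1)) (b : ℕ → ℂ)
    (hb : ∀ n, ‖b n‖ ≤ 1) {τ : ℝ} (hτ1 : 1 ≤ τ)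
    (hτ : ∀ n ≤ (2 * N) ^ (k + 1), (n.divisors.card : ℝ) ≤ τ) :
    ∑ t ∈ Icc 1 T, ‖∑ a ∈ Icc N (2 * N), b a * nit t a‖ ^ (2 * (k + 1)) ≤
      144 * (k + 1) * (6 * τ ^ m * (((2 * N : ℝ) ^ (k + 1) / (N : ℝ) ^ j) *
        (∑ a ∈ Icc N (2 * N), ‖b a‖) ^ (k + 1 + j)) +
        1296 * 2 ^ j * τ ^ (2 * m + 1 + j) * (T * ((2 * N : ℝ) ^ (k + 1) / (N : ℝ) ^ j) *
          (∑ a ∈ Icc N (2 * N), ‖b a‖) ^ j)) := by
  have hNk : 1 ≤ N ^ (k + 1) := Nat.one_le_pow _ _ hN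
  have hNj : 1 ≤ N ^ j := Nat.one_le_pow _ _ hN
  have hN' : (1 : ℝ) ≤ N := by exact_mod_cast hN
  simp_rw [pow_eq_sum hN b (k + 1)]
  set X := (2 * N) ^ (k + 1) with hX
  set M := ∑ a ∈ Icc N (2 * N), ‖b a‖ with hM
  have hM0 : 0 ≤ M := sum_nonneg fun _ _ => norm_nonneg _
  set S := Icc (N ^ (k + 1)) X with hS
  set A := Icc (N ^ j) ((2 * N) ^ j) with hA
  set u : ℕ → ℝ := fun n => (tr N (fun n => ‖b n‖) ^ (k + 1)) n with hu
  set α : ℕ → ℝ := fun n => (tr N (fun n => ‖b n‖) ^ j) n with hα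
  set H : ℕ := 2 * X / T + 1 with hH
  have hH1 : 1 ≤ H := Nat.le_add_left 1 _
  have hX1 : 1 ≤ X := hT1.trans hT
  have hTH1 : 2 * X ≤ T * H := (Nat.lt_mul_div_succ (2 * X) hT1).le
  have hTH2 : T * H ≤ 3 * X := by
    have := Nat.mul_div_le (2 * X) T
    rw [hH, mul_add]
    omega
  have hH3 : H ≤ 3 * X := by nlinarith
  have hP2 : ((2 * N) ^ j) ^ 2 ≤ X := by
    rw [← pow_mul, hX]
    exact Nat.pow_le_pow_right (by omega) (by omega)
  have hP2' : (2 * N) ^ j ≤ X := by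
    rw [hX]
    exact Nat.pow_le_pow_right (by omega) (by omega)
  have hH' : (1 : ℝ) ≤ H := by exact_mod_cast hH1
  have hS1 : ∀ n ∈ S, 1 ≤ n := fun n hn => hNk.trans (mem_Icc.1 hn).1
  have hSY : ∀ n ∈ S, n + H ≤ X + H := fun n hn => Nat.add_le_add_right (mem_Icc.1 hn).2 _
  have h1 := mv_kernel S (fun n => (tr N b ^ (k + 1)) n) u
    (fun n _ => tr_pow_norm N b (k + 1) n) (k + 1) T (by omega) hT1 (X : ℝ) H (by linarith)
    (by exact_mod_cast hTH1) hS1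
    (fun n hn => by exact_mod_cast (mem_Icc.1 hn).2)
    (fun n hn m hm => supp_ratio hn hm)
  have hu0 : ∀ n ∈ S, 0 ≤ u n := fun n _ => tr_pow_nonneg N b _ n
  have hα0 : ∀ n ∈ A, 0 ≤ α n := fun n _ => tr_pow_nonneg N b _ n
  have h2 := kernel_window S u hu0 hH1 hS1 hSY
  have h3 := dispersion S A u α hu0 hα0 (Λ := τ ^ m) (by positivity)
    (fun n hn => by
      have := tr_pow_add_le N b hb hτ1 hτ j m n (mem_Icc.1 hn).2
      rw [hjm] at this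
      exact this) hS1 hSY
  have h4 := variance A α hα0 (am := τ ^ j)
    (fun a ha => tr_pow_le N b hb hτ1 hτ j a ((mem_Icc.1 ha).2.trans hP2'))
    hNj (Nat.one_le_pow _ _ (by omega)) (fun a ha => (mem_Icc.1 ha).1)
    (fun a ha => (mem_Icc.1 ha).2) (τ := τ) (fun a ha => hτ a ((mem_Icc.1 ha).2.trans hP2'))
    hH1 (Y := X + H) (by omega)
  have e1 : ∑ n ∈ S, u n = M ^ (k + 1) := sum_tr_pow hN b (k + 1)
  have e2 : ∑ n ∈ A, α n = M ^ j := sum_tr_pow hN b j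
  have hσ : ∑ a ∈ A, α a / a ≤ M ^ j / (N : ℝ) ^ j := by
    rw [← e2, sum_div]
    refine sum_le_sum fun a ha => ?_
    apply div_le_div_of_nonneg_left (hα0 a ha) (by positivity)
    exact_mod_cast (mem_Icc.1 ha).1
  rw [e1] at h3
  rw [e2] at h4
  have hY : 2 * ((X + H : ℕ) : ℝ) + (((2 * N) ^ j : ℕ) : ℝ) ^ 2 ≤ 9 * X := by
    have : 2 * (X + H) + ((2 * N) ^ j) ^ 2 ≤ 9 * X := by omega
    exact_mod_cast this
  have e3 : 6 * H * τ * τ ^ j * (((2 * N) ^ j : ℕ) : ℝ) / ((N ^ j : ℕ) : ℝ) ^ 2 * M ^ j =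
      H * (6 * τ ^ (1 + j) * 2 ^ j / (N : ℝ) ^ j * M ^ j) := by
    push_cast
    rw [mul_pow]
    field_simp
    ring
  rw [e3] at h4
  have h5 := h4.trans (mul_le_mul_of_nonneg_right (mul_le_mul_of_nonneg_left hY (by norm_num))
    (by positivity))
  set Z := ∑ n ∈ S, ∑ m ∈ S, u n * u m * kp (((n : ℝ) - m) / H) with hZ
  have h6 : (H : ℝ) * Z ≤ H * (18 * (2 * τ ^ m * (M ^ j / (N : ℝ) ^ j) * H * M ^ (k + 1) +
      (τ ^ m) ^ 2 * (24 * (9 * X) * (6 * τ ^ (1 + j) * 2 ^ j / (N : ℝ) ^ j * M ^ j)))) := by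
    refine h2.trans ?_
    have a1 : 2 * τ ^ m * (∑ a ∈ A, α a / a) * (H : ℝ) ^ 2 * M ^ (k + 1) ≤
        2 * τ ^ m * (M ^ j / (N : ℝ) ^ j) * (H : ℝ) ^ 2 * M ^ (k + 1) := by gcongr
    have a2 := mul_le_mul_of_nonneg_left h5 (by positivity : (0 : ℝ) ≤ (τ ^ m) ^ 2)
    have a3 := h3.trans (add_le_add a1 a2)
    refine (mul_le_mul_of_nonneg_left a3 (by norm_num)).trans (le_of_eq ?_)
    ring
  have h7 := le_of_mul_le_mul_left h6 (by linarith)
  have hTH : (T : ℝ) * H ≤ 3 * X := by exact_mod_cast hTH2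
  have hXe : (X : ℝ) = (2 * N : ℝ) ^ (k + 1) := by rw [hX]; push_cast; ring
  refine h1.trans ?_
  rw [← hXe]
  calc 8 * ((k + 1 : ℕ) : ℝ) * T * Z
      ≤ 8 * ((k + 1 : ℕ) : ℝ) * T * (18 * (2 * τ ^ m * (M ^ j / (N : ℝ) ^ j) * H * M ^ (k + 1) +
        (τ ^ m) ^ 2 * (24 * (9 * X) * (6 * τ ^ (1 + j) * 2 ^ j / (N : ℝ) ^ j * M ^ j)))) :=
        mul_le_mul_of_nonneg_left h7 (by positivity)
    _ = 144 * (k + 1) * (2 * τ ^ m * (M ^ (k + 1 + j) / (N : ℝ) ^ j) * (T * H) +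
        1296 * 2 ^ j * τ ^ (2 * m + 1 + j) * (T * (X / (N : ℝ) ^ j) * M ^ j)) := by
        push_cast
        ring
    _ ≤ 144 * (k + 1) * (2 * τ ^ m * (M ^ (k + 1 + j) / (N : ℝ) ^ j) * (3 * X) +
        1296 * 2 ^ j * τ ^ (2 * m + 1 + j) * (T * (X / (N : ℝ) ^ j) * M ^ j)) := by gcongr
    _ = _ := by ring

end Pool.Agent.MP_2a1f0e_nt

end

section

set_option autoImplicit false

open Finset
open scoped ComplexConjugate

namespace Pool.Agent.MP_2a1f0e_nt.RF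

open GM

lemma DP_nat_MV (N : ℕ) (b : ℕ → ℂ) (t : ℕ) :
    DP N b (t : ℝ) = ∑ a ∈ Icc N (2 * N), b a * nit t a := by
  unfold DP pw nit
  simp

lemma sum_int_MV (T : ℕ) (f : ℝ → ℝ) :
    ∑ t ∈ Icc 0 (T : ℤ), f (t : ℝ) = f 0 + ∑ t ∈ Icc 1 T, f (t : ℝ) := by
  induction T with
  | zero => simp
  | succ n ih =>
    have h1 : Icc 0 ((n + 1 : ℕ) : ℤ) = insert ((n + 1 : ℕ) : ℤ) (Icc 0 (n : ℤ)) := by
      ext x
      simp only [mem_Icc, mem_insert]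
      omega
    rw [h1, sum_insert (by simp only [mem_Icc]; omega), ih, sum_Icc_succ_top (by omega)]
    push_cast
    ring

lemma sum_norm_MV {N : ℕ} (hN : 1 ≤ N) {b : ℕ → ℂ} (hb : ∀ n, ‖b n‖ ≤ 1) :
    ∑ a ∈ Icc N (2 * N), ‖b a‖ ≤ 2 * N := by
  have h := sum_le_card_nsmul (Icc N (2 * N)) (fun a => ‖b a‖) 1 fun a _ => hb a
  rw [Nat.card_Icc, nsmul_eq_mul, mul_one] at h
  refine h.trans ?_
  have : 2 * N + 1 - N ≤ 2 * N := by omega
  exact_mod_cast this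

theorem mv_stmt : MVStmt := by
  intro ε hε
  obtain ⟨C, hC1, hC⟩ := divisor_bound (ε := ε / 4) (by positivity)
  refine ⟨16 + 2176 * (C ^ 2 * (4 : ℝ) ^ (ε / 2)), by positivity, ?_⟩
  intro N T hN hNT hTN b hb
  have hN' : (1 : ℝ) ≤ N := by exact_mod_cast hN
  have hNT' : (N : ℝ) ≤ T := by exact_mod_cast hNT
  set τ : ℝ := C * ((4 : ℝ) * (N : ℝ) ^ 2) ^ (ε / 4) with hτ
  have h4 : (1 : ℝ) ≤ 4 * (N : ℝ) ^ 2 := by nlinarith
  have hτ1 : 1 ≤ τ := by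
    have : (1 : ℝ) ≤ ((4 : ℝ) * (N : ℝ) ^ 2) ^ (ε / 4) := Real.one_le_rpow h4 (by positivity)
    nlinarith
  have hdiv : ∀ n ≤ (2 * N) ^ 2, (n.divisors.card : ℝ) ≤ τ := by
    intro n hn
    refine (hC n).trans (mul_le_mul_of_nonneg_left ?_ (by linarith))
    apply Real.rpow_le_rpow (Nat.cast_nonneg _) _ (by positivity)
    have : (n : ℝ) ≤ ((2 * N : ℕ) : ℝ) ^ 2 := by exact_mod_cast hn
    push_cast at this
    linarith
  have hτ2 : τ ^ 2 = C ^ 2 * (4 : ℝ) ^ (ε / 2) * (N : ℝ) ^ ε := by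
    rw [hτ, mul_pow, ← Real.rpow_natCast (((4 : ℝ) * (N : ℝ) ^ 2) ^ (ε / 4)) 2,
      ← Real.rpow_mul (by positivity), Real.mul_rpow (by norm_num) (by positivity),
      ← Real.rpow_natCast (N : ℝ) 2, ← Real.rpow_mul (by positivity)]
    have e1 : ε / 4 * ((2 : ℕ) : ℝ) = ε / 2 := by push_cast; ring
    have e2 : ((2 : ℕ) : ℝ) * (ε / 2) = ε := by push_cast; ring
    rw [e1, e2]
    ring
  have hNe : (1 : ℝ) ≤ (N : ℝ) ^ ε := Real.one_le_rpow hN' hε.le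
  have hM := sum_norm_MV hN hb
  have hM0 : 0 ≤ ∑ a ∈ Icc N (2 * N), ‖b a‖ := sum_nonneg fun _ _ => norm_nonneg _
  have h0 : ‖DP N b 0‖ ≤ 2 * N := (norm_DP_le N b hb 0).trans (by linarith)
  have hK : (16 + 2176 * (C ^ 2 * (4 : ℝ) ^ (ε / 2))) * (N : ℝ) ^ ε =
      16 * (N : ℝ) ^ ε + 2176 * τ ^ 2 := by rw [hτ2]; ring
  rw [hK]
  constructor
  · rw [sum_int_MV T fun t => ‖DP N b t‖ ^ 2]
    simp only [DP_nat_MV]
    have h1 := moment_low (k := 1) (T := T) (X := (2 * N) ^ 2) hN le_rfl (by simpa using hNT) b hb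
      hτ1 (Nat.pow_le_pow_right (by omega) (by norm_num)) hdiv
    norm_num at h1
    have h2 : ‖DP N b 0‖ ^ 2 ≤ (2 * N) ^ 2 := pow_le_pow_left₀ (norm_nonneg _) h0 2
    have h3 : τ * (T * ∑ a ∈ Icc N (2 * N), ‖b a‖) ≤ τ ^ 2 * (T * (2 * N)) := by
      have : τ ≤ τ ^ 2 := by nlinarith
      gcongr
    have h5 : (N : ℝ) ^ 2 ≤ (N : ℝ) ^ ε * (T * N) := by
      have : (N : ℝ) ^ 2 ≤ T * N := by nlinarith
      have h6 : (0 : ℝ) ≤ T * N := by positivity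
      nlinarith
    have h7 : 0 ≤ τ ^ 2 * ((T : ℝ) * N) := by positivity
    have h8 : 0 ≤ (N : ℝ) ^ ε * ((T : ℝ) * N) := by positivity
    nlinarith
  · have hsub : ∑ t ∈ Icc 0 (T : ℤ), ‖DP N b t‖ ^ 4 ≤
        ∑ t ∈ Icc 0 ((N ^ 2 : ℕ) : ℤ), ‖DP N b t‖ ^ 4 :=
      sum_le_sum_of_subset_of_nonneg (Icc_subset_Icc le_rfl (by exact_mod_cast hTN))
        fun _ _ _ => by positivity
    refine hsub.trans ?_
    rw [sum_int_MV (N ^ 2) fun t => ‖DP N b t‖ ^ 4]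
    simp only [DP_nat_MV]
    have h1 := moment_low (k := 2) (T := N ^ 2) (X := (2 * N) ^ 2) hN (by norm_num) le_rfl b hb
      hτ1 le_rfl hdiv
    norm_num at h1
    have h2 : ‖DP N b 0‖ ^ 4 ≤ (2 * N) ^ 4 := pow_le_pow_left₀ (norm_nonneg _) h0 4
    have h3 : τ ^ 2 * ((N : ℝ) ^ 2 * (∑ a ∈ Icc N (2 * N), ‖b a‖) ^ 2) ≤
        τ ^ 2 * ((N : ℝ) ^ 2 * (2 * N) ^ 2) := by gcongr
    have h5 : (N : ℝ) ^ 4 ≤ (N : ℝ) ^ ε * (N : ℝ) ^ 4 := by
      have h6 : (0 : ℝ) ≤ (N : ℝ) ^ 4 := by positivity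
      nlinarith
    nlinarith

end Pool.Agent.MP_2a1f0e_nt.RF

end
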