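import Pool.Agent.Mg.C853.G6e22ef

section

set_option autoImplicit false
open Finset MeasureTheory
open scoped ENNReal ComplexConjugate
namespace Pool.Agent.MP_c853c5_nt.W
open Pool.Agent.MP_2a1f0e_nt Pool.Agent.MP_2a1f0e_nt.GM Pool.Agent.MP_2a1f0e_nt.DH

lemma moeb_Blk (u : V) :
    iC (Prim u) = ∑ e ∈ (ct u).divisors, ((ArithmeticFunction.moebius e : ℤ) : ℂ) := by
  have h := congrArg (fun f : ArithmeticFunction ℤ => f (ct u))
    ArithmeticFunction.moebius_mul_coe_zeta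
  simp only [ArithmeticFunction.coe_mul_zeta_apply, ArithmeticFunction.one_apply] at h
  rw [← Int.cast_sum, h]
  by_cases hu : ct u = 1
  · rw [iC_pos (show Prim u from hu), if_pos hu, Int.cast_one]
  · rw [iC_neg (show ¬Prim u from hu), if_neg hu, Int.cast_zero]

lemma norm_kap_Blk (e : ℕ) (p : Prop) :
    ‖((ArithmeticFunction.moebius e : ℤ) : ℂ) * iC p‖ ≤ 1 := by
  rw [norm_mul, Complex.norm_intCast]
  refine mul_le_one₀ ?_ (norm_nonneg _) (norm_iC_le p)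
  exact_mod_cast ArithmeticFunction.abs_moebius_le_one

lemma gcd_le_Blk {e t : ℕ} (ht : 1 ≤ t) (q : ℕ) : Nat.gcd (e * t) q ≤ Nat.gcd e q * t := by
  rcases Nat.eq_zero_or_pos (Nat.gcd e q) with h | h
  · obtain ⟨rfl, rfl⟩ := Nat.gcd_eq_zero_iff.1 h
    simp
  · refine Nat.le_of_dvd (Nat.mul_pos h ht) ?_
    rw [← Nat.gcd_mul_right]
    exact Nat.dvd_gcd (Nat.gcd_dvd_left _ _) ((Nat.gcd_dvd_right _ _).mul_right t)

theorem blk_stmt (hP : PdlStmt) (hC : ContStmt) : BlkStmt := by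
  rintro η hη hη1 ⟨m₁, h₁⟩ ⟨m₂, h₂⟩
  refine ⟨m₁ + m₂, fun ε hε => ?_⟩
  obtain ⟨K₁, hK₁, h₁⟩ := h₁ ε hε
  obtain ⟨K₂, hK₂, h₂⟩ := h₂ (ε / 2) (half_pos hε)
  obtain ⟨C, hC1, hD⟩ := exD 1 5 3 (half_pos hε)
  refine ⟨4 * K₁ + 8 * C * K₂, by positivity, fun μ hμ d Λ Q hd => ?_⟩
  have hΛ := hd.one_le
  have hΛ0 : 0 < Λ := by linarith
  obtain ⟨X, Δ, hX, hX1, hΔ⟩ := hD Λ hΛ
  rw [pow_one] at hX1
  have hQ : 1 ≤ Q := hd.2.2.2.2.2.1
  have hQΛ : (Q : ℝ) ≤ Λ := hd.2.2.2.2.2.2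
  have hQ0 : (0 : ℝ) < Q := by exact_mod_cast hQ
  have hg : Measurable d.g := hd.2.1.1
  have hPP := d.PP_nonneg
  have hDD := d.DD_nonneg
  have hXX := d.XX_nonneg
  have hxi := d.one_le_xi
  obtain ⟨M, hM1, hM2⟩ : ∃ M : ℕ, 2 * |d.H| ≤ M ∧ M ≤ X := by
    refine ⟨⌈2 * |d.H|⌉₊, Nat.le_ceil _, Nat.ceil_le.2 ?_⟩
    linarith [hd.2.2.2.2.1]
  obtain ⟨κ₁, hκ₁⟩ : ∃ κ : ℕ → ℕ → ℂ, κ = fun q e => ((ArithmeticFunction.moebius e : ℤ) : ℂ) *
    iC ((Q : ℝ) * (e : ℝ) ^ 2 < d.PP * (Nat.gcd e q : ℝ)) := ⟨_, rfl⟩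
  obtain ⟨κ₂, hκ₂⟩ : ∃ κ : ℕ → ℕ → ℂ, κ = fun q e => ((ArithmeticFunction.moebius e : ℤ) : ℂ) *
    iC (¬(Q : ℝ) * (e : ℝ) ^ 2 < d.PP * (Nat.gcd e q : ℝ)) := ⟨_, rfl⟩
  obtain ⟨R, hR⟩ : ∃ R : ℝ, R = d.DD * (Q + |d.H2|) + d.XX * (Q : ℝ) ^ η := ⟨_, rfl⟩
  have hR0 : 0 ≤ R := by rw [hR]; positivity
  have tail := h₁ μ hμ d Λ Q (fun q k => ∑ e ∈ k.divisors, κ₂ q e) 1 hd zero_le_one
    (fun q k _ => (norm_sum_le _ _).trans ((sum_le_card_nsmul _ _ 1 fun e _ => by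
      rw [hκ₂]; exact norm_kap_Blk e _).trans (by simp)))
    (fun q k hk hne => by
      obtain ⟨e, he, h0⟩ := exists_ne_zero_of_sum_ne_zero hne
      rw [hκ₂] at h0
      have h1 := not_lt.1 (iC_ne_zero (right_ne_zero_of_mul h0))
      obtain ⟨t, rfl⟩ := Nat.dvd_of_mem_divisors he
      have ht : 1 ≤ t := Nat.pos_of_mul_pos_left hk
      have ht' : (1 : ℝ) ≤ t := by exact_mod_cast ht
      have h2 : (Nat.gcd (e * t) q : ℝ) ≤ Nat.gcd e q * t := by exact_mod_cast gcd_le_Blk ht q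
      calc d.PP * (Nat.gcd (e * t) q : ℝ) ≤ d.PP * (Nat.gcd e q * t) :=
            mul_le_mul_of_nonneg_left h2 hPP
        _ = d.PP * Nat.gcd e q * t := by ring
        _ ≤ Q * (e : ℝ) ^ 2 * (t : ℝ) ^ 2 :=
            mul_le_mul h1 (by nlinarith) (by positivity) (by positivity)
        _ = _ := by push_cast; ring)
  have head := hP μ Q M X Δ (K₂ * Λ ^ (ε / 2) * d.xi ^ m₂ * R)
    (fun q x w => ∑ e ∈ Icc 1 M, κ₁ q e * vf (q / Nat.gcd e q) Prod.fst (pa (d.sc e)) x w)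
    (fun q e x w => κ₁ q e * vf (q / Nat.gcd e q) Prod.fst (pa (d.sc e)) x w)
    (fun e q' => LN μ q' Prod.fst (pa (d.sc e)))
    (fun e g => (Q : ℝ) * (e : ℝ) ^ 2 < d.PP * (g : ℝ) ∧ g < 2 * Q) hQ hX
    (by exact_mod_cast (show (2 : ℝ) * Q ≤ X by linarith)) hM2 (by positivity)
    (fun _ _ _ _ _ => rfl)
    (fun q hq e _ => ⟨(MF_vf _ _ (measurable_pa (d := d.sc e) hg)).const_mul _,
      fun x => (per_vf _ _ _ x).const_mul _, by
        have hq' := mem_Ico.1 hq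
        by_cases h : (Q : ℝ) * (e : ℝ) ^ 2 < d.PP * (Nat.gcd e q : ℝ)
        · rw [iE_pos ⟨h, (Nat.gcd_le_right e (by omega)).trans_lt hq'.2⟩]
          have := LF_mul_le μ (q / Nat.gcd e q) (vf (q / Nat.gcd e q) Prod.fst (pa (d.sc e)))
            (a := fun _ => κ₁ q e) (B := 1) fun _ => by rw [hκ₁]; exact norm_kap_Blk e _
          rwa [one_pow, ENNReal.ofReal_one] at this
        · have := LF_mul_le μ (q / Nat.gcd e q) (vf (q / Nat.gcd e q) Prod.fst (pa (d.sc e)))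
            (a := fun _ => κ₁ q e) (B := 0) fun _ => by
              simp only [hκ₁, iC_neg h, mul_zero, norm_zero, le_refl]
          rw [zero_pow two_ne_zero, ENNReal.ofReal_zero, zero_mul] at this
          exact this.trans zero_le⟩)
    (fun e he g hge hS => by
      have he1 : 1 ≤ e := (mem_Icc.1 he).1
      have he' : (1 : ℝ) ≤ e := by exact_mod_cast he1
      have hg1 : 1 ≤ g := Nat.pos_of_dvd_of_pos hge he1
      have hg' : (0 : ℝ) < g := by exact_mod_cast hg1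
      obtain ⟨c1, c2, c3, c4⟩ := cq_facts hQ hg1
      have c5 : g * cq Q g ≤ 2 * Q := by
        rcases le_total g Q with h | h
        · omega
        · have : cq Q g < 2 := Nat.lt_of_mul_lt_mul_left (a := g) (by omega)
          rw [show cq Q g = 1 by omega]
          omega
      have c6 : (g : ℝ) * cq Q g ≤ 2 * Q := by exact_mod_cast c5
      have c7 : (cq Q g : ℝ) ≤ Q := by exact_mod_cast c2
      refine (h₂ μ hμ (d.sc e) Λ (cq Q g) (hd.sc he1 c1 c2) ?_).trans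
        (ENNReal.ofReal_le_ofReal ?_)
      · rw [Dat.sc_PP, ← mul_div_assoc, le_div_iff₀ (by positivity)]
        refine le_of_mul_le_mul_left ?_ hg'
        have := mul_le_mul_of_nonneg_right c6 (sq_nonneg (e : ℝ))
        linarith [hS.1]
      · rw [Dat.sc_DD, Dat.sc_XX, mul_div_assoc]
        refine mul_le_mul_of_nonneg_left ?_ (show 0 ≤ K₂ * Λ ^ (ε / 2) * d.xi ^ m₂ by positivity)
        have a1 : |(d.sc e).H2| ≤ |d.H2| := by
          change |d.H2 / e| ≤ _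
          rw [abs_div, Nat.abs_cast]
          exact div_le_self (abs_nonneg _) he'
        have a2 : (cq Q g : ℝ) ^ η ≤ (Q : ℝ) ^ η :=
          Real.rpow_le_rpow (Nat.cast_nonneg _) c7 hη.le
        rw [hR, div_mul_eq_mul_div, div_mul_eq_mul_div, ← add_div]
        gcongr)
  have split : ∀ q ∈ Ico Q (2 * Q), LN μ q Prod.fst (pk d) ≤
      2 * LN μ q Prod.fst (fun P x => (∑ e ∈ (ct P.1).divisors, κ₂ q e) * pa d P x) +
      2 * LF μ q fun x w =>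
        ∑ e ∈ Icc 1 M, κ₁ q e * vf (q / Nat.gcd e q) Prod.fst (pa (d.sc e)) x w := by
    intro q hq
    have hq1 : 1 ≤ q := hQ.trans (mem_Ico.1 hq).1
    refine LF_add_le μ q (MF_vf _ _ fun P => (measurable_pa hg P).const_mul _)
      fun x => ⟨0, fun w _ => ?_⟩
    have e0 : pk d = fun P x =>
        (∑ e ∈ (ct P.1).divisors, ((ArithmeticFunction.moebius e : ℤ) : ℂ)) * pa d P x := by
      funext P x
      rw [pk, moeb_Blk]
    rw [e0, (hC d q M _ x w hq1 hd.1 hd.2.1 hM1).2, (hC d q M _ x w hq1 hd.1 hd.2.1 hM1).2,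
      add_zero, ← sum_add_distrib]
    refine sum_congr rfl fun e _ => ?_
    rw [← add_mul, hκ₁, hκ₂]
    beta_reduce
    rw [← mul_add, add_comm (iC _), iC_add_not, mul_one]
  refine (sum_le_sum split).trans ?_
  rw [sum_add_distrib, ← mul_sum, ← mul_sum]
  refine (add_le_add (mul_le_mul_right tail 2) (mul_le_mul_right head 2)).trans ?_
  have hΔ0 : 0 ≤ Δ := zero_le_one.trans hX.1
  rw [← ENNReal.ofReal_ofNat, ← ENNReal.ofReal_mul zero_le_two, ← ENNReal.ofReal_mul zero_le_two,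
    ← ENNReal.ofReal_add (by positivity) (by positivity), ← hR]
  refine ENNReal.ofReal_le_ofReal ?_
  have a1 : d.xi ^ m₁ ≤ d.xi ^ (m₁ + m₂) := pow_le_pow_right₀ hxi (Nat.le_add_right _ _)
  have a2 : d.xi ^ m₂ ≤ d.xi ^ (m₁ + m₂) := pow_le_pow_right₀ hxi (Nat.le_add_left _ _)
  have a3 : d.DD * Q + d.XX * (Q : ℝ) ^ η ≤ R := by
    rw [hR]
    nlinarith [mul_nonneg hDD (abs_nonneg d.H2)]
  have a4 : Λ ^ ε = Λ ^ (ε / 2) * Λ ^ (ε / 2) := by rw [← Real.rpow_add hΛ0, add_halves]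
  have b1 : K₁ * Λ ^ ε * d.xi ^ m₁ * ((1 + 1) * (d.DD * Q + d.XX * (Q : ℝ) ^ η)) ≤
      K₁ * Λ ^ ε * d.xi ^ (m₁ + m₂) * ((1 + 1) * R) := by gcongr
  have b2 : 4 * Δ ^ 5 * (K₂ * Λ ^ (ε / 2) * d.xi ^ m₂ * R) ≤
      4 * (C * Λ ^ (ε / 2)) * (K₂ * Λ ^ (ε / 2) * d.xi ^ (m₁ + m₂) * R) := by gcongr
  rw [a4] at b1 ⊢
  linarith

theorem dy_stmt : DyStmt := by
  rintro η hη hη1 ⟨m, h⟩
  refine ⟨m, fun ε hε => ?_⟩
  obtain ⟨K, hK, h⟩ := h (ε / 2) (half_pos hε)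
  obtain ⟨C, hC1, hD⟩ := exD 1 1 1 (half_pos hε)
  refine ⟨C * K, by positivity, fun μ hμ d Λ Q hd => ?_⟩
  have hΛ := hd.one_le
  have hΛ0 : 0 < Λ := by linarith
  obtain ⟨X, Δ, hX, hX1, hΔ⟩ := hD Λ hΛ
  rw [pow_one, one_mul] at hX1
  rw [pow_one] at hΔ
  have hQ : 1 ≤ Q := hd.2.2.2.2.2.1
  have hQΛ : (Q : ℝ) ≤ Λ := hd.2.2.2.2.2.2
  have hDD := d.DD_nonneg
  have hXX := d.XX_nonneg
  have hxi := d.one_le_xi
  have hL := DivB_log hX (show Q ≤ X by exact_mod_cast hQΛ.trans hX1)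
  obtain ⟨Z, hZ⟩ : ∃ Z : ℝ,
    Z = K * Λ ^ (ε / 2) * d.xi ^ m * (d.DD * (Q + |d.H2|) + d.XX * (Q : ℝ) ^ η) := ⟨_, rfl⟩
  have hZ0 : 0 ≤ Z := by rw [hZ]; positivity
  rw [← sum_fiberwise_of_maps_to (t := range (Nat.log 2 Q + 1)) (g := Nat.log 2)
    fun q hq => mem_range.2 (Nat.lt_succ_of_le (Nat.log_mono_right (mem_Icc.1 hq).2))]
  refine (sum_le_card_nsmul _ _ (ENNReal.ofReal Z) fun j hj => ?_).trans ?_
  · have h1 : 2 ^ j ≤ Q := (Nat.pow_le_pow_right two_pos (Nat.le_of_lt_succ (mem_range.1 hj))).trans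
      (Nat.pow_log_le_self 2 (by omega))
    have h2 : ((2 ^ j : ℕ) : ℝ) ≤ Q := by exact_mod_cast h1
    refine (sum_le_sum_of_subset fun q hq => ?_).trans ((h μ hμ d Λ (2 ^ j) ⟨hd.1, hd.2.1,
      hd.2.2.1, hd.2.2.2.1, hd.2.2.2.2.1, Nat.one_le_two_pow, h2.trans hQΛ⟩).trans
      (ENNReal.ofReal_le_ofReal ?_))
    · obtain ⟨hq1, rfl⟩ := mem_filter.1 hq
      refine mem_Ico.2 ⟨Nat.pow_log_le_self 2 (by have := (mem_Icc.1 hq1).1; omega), ?_⟩
      rw [← pow_succ']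
      exact Nat.lt_pow_succ_log_self one_lt_two q
    · rw [hZ]
      gcongr
  · rw [card_range, nsmul_eq_mul, ← ENNReal.ofReal_natCast,
      ← ENNReal.ofReal_mul (Nat.cast_nonneg _)]
    refine ENNReal.ofReal_le_ofReal ?_
    have a4 : Λ ^ ε = Λ ^ (ε / 2) * Λ ^ (ε / 2) := by rw [← Real.rpow_add hΛ0, add_halves]
    push_cast
    refine (mul_le_mul_of_nonneg_right (hL.trans hΔ) hZ0).trans_eq ?_
    rw [a4, hZ]
    ring

end Pool.Agent.MP_c853c5_nt.W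

end

section

set_option autoImplicit false

open Finset MeasureTheory
open scoped ENNReal ComplexConjugate

namespace Pool.Agent.MP_c853c5_nt.W

open Pool.Agent.MP_2a1f0e_nt Pool.Agent.MP_2a1f0e_nt.GM Pool.Agent.MP_2a1f0e_nt.DH

lemma icc_CntB {x : ℝ} {k : ℤ} (h : |(k : ℝ)| ≤ x) : k ∈ Icc (-⌊x⌋) ⌊x⌋ := by
  have h1 : |k| ≤ ⌊x⌋ := Int.le_floor.2 (by rwa [Int.cast_abs])
  exact mem_Icc.2 (abs_le.1 h1)

lemma card_icc_CntB {H : ℝ} (hH : 1 / 2 ≤ H) :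
    ((Icc (-⌊2 * H⌋) ⌊2 * H⌋).card : ℝ) ≤ 6 * H := by
  have h0 : 0 ≤ ⌊2 * H⌋ := Int.floor_nonneg.2 (by linarith)
  have h1 : ((Icc (-⌊2 * H⌋) ⌊2 * H⌋).card : ℤ) = 2 * ⌊2 * H⌋ + 1 := by
    rw [Int.card_Icc]; omega
  have h2 : (⌊2 * H⌋ : ℝ) ≤ 2 * H := Int.floor_le _
  have h3 : ((Icc (-⌊2 * H⌋) ⌊2 * H⌋).card : ℝ) = 2 * ⌊2 * H⌋ + 1 := by exact_mod_cast h1
  linarith

lemma cnt_CntB (hG : GcdStmt) {H Y : ℝ} (hH : 1 / 2 ≤ H) (hY : 0 ≤ Y) (S : Finset (Pr × Pr))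
    (key : Pr × Pr → ℤ × ℤ × ℤ × ℤ) (val : Pr × Pr → ℤ) (a n : ℤ × ℤ × ℤ × ℤ → ℤ)
    (h1 : ∀ z ∈ S, H ≤ |((key z).1 : ℝ)| ∧ |((key z).1 : ℝ)| ≤ 2 * H ∧
      |((key z).2.1 : ℝ)| ≤ 2 * H ∧ |((key z).2.2.1 : ℝ)| ≤ 2 * H ∧ |(key z).2.2.2| ≤ 1 ∧
      Int.gcd (key z).1 (a (key z)) = 1 ∧ |(val z : ℝ)| ≤ Y ∧
      (key z).1 ∣ a (key z) * val z - n (key z))
    (h2 : ∀ z ∈ S, ∀ z' ∈ S, key z = key z' → val z = val z' → z = z') :
    (S.card : ℝ) ≤ 648 * H ^ 3 * (2 * Y / H + 1) := by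
  classical
  have hH0 : 0 < H := by linarith
  set I : Finset ℤ := Icc (-⌊2 * H⌋) ⌊2 * H⌋ with hI
  set K : Finset (ℤ × ℤ × ℤ × ℤ) := I ×ˢ I ×ˢ I ×ˢ Icc (-1 : ℤ) 1 with hK
  have hmap : ∀ z ∈ S, key z ∈ K := by
    intro z hz
    obtain ⟨-, b1, b2, b3, b4, -⟩ := h1 z hz
    simp only [hK, mem_product]
    exact ⟨icc_CntB b1, icc_CntB b2, icc_CntB b3, mem_Icc.2 (abs_le.1 b4)⟩
  have hIc : (I.card : ℝ) ≤ 6 * H := card_icc_CntB hH
  have hKc : (K.card : ℝ) ≤ 648 * H ^ 3 := by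
    have e : K.card = I.card * (I.card * (I.card * 3)) := by
      simp only [hK, card_product]; rfl
    rw [e]; push_cast
    have h0 : (0 : ℝ) ≤ I.card := Nat.cast_nonneg _
    calc (I.card : ℝ) * (I.card * (I.card * 3)) ≤ 6 * H * (6 * H * (6 * H * 3)) := by gcongr
      _ = 648 * H ^ 3 := by ring
  have hfib : ∀ k ∈ K, ((S.filter fun z => key z = k).card : ℝ) ≤ 2 * Y / H + 1 := by
    intro k _
    rcases (S.filter fun z => key z = k).eq_empty_or_nonempty with he | ⟨z0, hz0⟩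
    · rw [he, card_empty, Nat.cast_zero]; positivity
    · obtain ⟨hz0S, hz0k⟩ := mem_filter.1 hz0
      obtain ⟨b0, -, -, -, -, bg, -, -⟩ := h1 z0 hz0S
      rw [hz0k] at b0 bg
      have hk0 : k.1 ≠ 0 := by
        intro h0
        rw [h0, Int.cast_zero, abs_zero] at b0
        linarith
      have hinj : Set.InjOn val (S.filter fun z => key z = k : Finset _) := by
        intro z hz z' hz' hv
        obtain ⟨hzS, hzk⟩ := mem_filter.1 (mem_coe.1 hz)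
        obtain ⟨hzS', hzk'⟩ := mem_filter.1 (mem_coe.1 hz')
        exact h2 z hzS z' hzS' (hzk.trans hzk'.symm) hv
      rw [← card_image_of_injOn hinj]
      have h5 := hG.2.2.2.2.1 k.1 (a k) (n k) Y ((S.filter fun z => key z = k).image val) hk0 bg hY
        (by
          intro s hs
          obtain ⟨z, hz, rfl⟩ := mem_image.1 hs
          obtain ⟨hzS, hzk⟩ := mem_filter.1 hz
          obtain ⟨-, -, -, -, -, -, c1, c2⟩ := h1 z hzS
          rw [hzk] at c2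
          exact ⟨c1, c2⟩)
      refine h5.trans ?_
      gcongr
  have hsum : (S.card : ℝ) = ∑ k ∈ K, ((S.filter fun z => key z = k).card : ℝ) := by
    rw [card_eq_sum_card_fiberwise (f := key) (t := K) (fun z hz => hmap z hz)]
    push_cast; rfl
  rw [hsum]
  calc ∑ k ∈ K, ((S.filter fun z => key z = k).card : ℝ) ≤ ∑ _k ∈ K, (2 * Y / H + 1) :=
        sum_le_sum hfib
    _ = K.card * (2 * Y / H + 1) := by rw [sum_const, nsmul_eq_mul]
    _ ≤ 648 * H ^ 3 * (2 * Y / H + 1) := by gcongr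

lemma caseS_CntB {z : Pr × Pr} (ho : IsOrb z) (hv : Prim z.2.1) (hs : sI z = 0) :
    z.2.1.1 = 0 ∧ |z.2.1.2| = 1 ∧ |rI z| = |hh z.2| ∧ |nI z| = |hh z.1| := by
  obtain ⟨⟨⟨h, d⟩, w⟩, ⟨⟨v1, v2⟩, ⟨x1, x2⟩⟩⟩ := z
  obtain ⟨hw, -, -⟩ := ho
  simp only at hw
  subst hw
  simp only [sI, om2, zero_mul, one_mul, zero_sub, neg_eq_zero] at hs
  subst hs
  have e1 : |v2| = 1 := by
    simp only [Prim, ct, Int.gcd_zero_left] at hv
    rw [Int.abs_eq_natAbs, hv]; rfl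
  refine ⟨rfl, e1, ?_, ?_⟩
  · simp only [rI, hh, om2, zero_mul, one_mul, zero_sub, abs_neg, abs_mul, e1]
  · simp only [nI, hh, om2, mul_zero, mul_one, sub_zero, abs_mul, e1]

/-- the sign of the second anchor -/
noncomputable def sgn_CntB (z : Pr × Pr) : ℤ := if z.2.2 = z.1.1 then 1 else -1

lemma caseP_CntB {z : Pr × Pr} (ho : IsOrb z) (hu : Prim z.1.1) (hv : Prim z.2.2)
    (hp : pI z = 0) : (sgn_CntB z = 1 ∨ sgn_CntB z = -1) ∧
      z.2.2 = (sgn_CntB z * z.1.1.1, sgn_CntB z * z.1.1.2) ∧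
      |rI z| = |hh z.1| ∧ |nI z| = |hh z.2| := by
  have hpar := prim_par hu hv hp
  have hne := isOrb_hh_ne ho
  have hpl := plucker z
  have hA : (sgn_CntB z = 1 ∨ sgn_CntB z = -1) ∧
      z.2.2 = (sgn_CntB z * z.1.1.1, sgn_CntB z * z.1.1.2) := by
    unfold sgn_CntB
    split_ifs with hc
    · exact ⟨Or.inl rfl, by rw [hc]; simp⟩
    · refine ⟨Or.inr rfl, ?_⟩
      rcases hpar with h | h
      · exact absurd h hc
      · rw [h]; ext <;> simp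
  have hr : |rI z| = |hh z.1| := by
    rw [isOrb_hh ho, rI, ho.1, hA.2]
    rcases hA.1 with h | h <;> simp [om2, h]
  refine ⟨hA.1, hA.2, hr, ?_⟩
  rw [hp, zero_mul, sub_zero] at hpl
  have h1 : |hh z.1| * |hh z.2| = |hh z.1| * |nI z| := by
    rw [← abs_mul, hpl, abs_mul, hr, mul_comm]
  exact (mul_left_cancel₀ (abs_ne_zero.2 hne) h1).symm

lemma term_CntB {H2 H A B : ℝ} {n r : ℤ} (hH : 1 / 2 ≤ |H|) (hA : 0 ≤ A) (hB : 0 ≤ B)
    (hn : |H| ≤ |(n : ℝ)|) (hr : |H| ≤ |(r : ℝ)|) :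
    (A + B / |(n : ℝ)|) * vb H2 H r ≤ (A + B / |H|) * (1 / |H|) := by
  have hH0 : 0 < |H| := by linarith
  have hr0 : r ≠ 0 := by
    intro h0
    rw [h0, Int.cast_zero, abs_zero] at hr
    linarith
  rw [vb, if_neg hr0]
  gcongr

lemma absc_CntB {a b : ℤ} (h : |a| = |b|) : |(a : ℝ)| = |(b : ℝ)| := by exact_mod_cast h

lemma dle_CntB {z : Pr × Pr} (ho : IsOrb z) : |(z.1.1.2 : ℝ)| ≤ |(z.1.1.1 : ℝ)| := by
  have h : |z.1.1.2| ≤ |z.1.1.1| := by rw [abs_of_nonneg ho.2.1]; exact ho.2.2.le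
  exact_mod_cast h

lemma cardS_CntB (hG : GcdStmt) {α H2 H R₀ : ℝ} (hH : 1 / 2 ≤ |H|) (S : Finset (Pr × Pr))
    (hS : ∀ z ∈ S, Cs α H2 H R₀ z ∧ sI z = 0) :
    (S.card : ℝ) ≤ 648 * |H| ^ 3 * (2 * (4 * |H| * |H2| + 8 * |H|) / |H| + 1) := by
  refine cnt_CntB hG hH (by positivity) S (fun z => (z.1.1.1, z.1.1.2, z.2.2.1, z.2.1.2)) pI
    (fun _ => 1) (fun k => -(k.2.1 * k.2.2.1)) ?_ ?_
  · intro z hz
    obtain ⟨⟨ho, -, hv, -, hI, -⟩, hs⟩ := hS z hz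
    obtain ⟨-, c2, c3, -⟩ := caseS_CntB ho hv hs
    obtain ⟨-, -, b1, b2, -, b4, -, b6, -, -⟩ := hI
    have hd := dle_CntB ho
    have hr := absc_CntB c3
    have hx : |(z.2.2.1 : ℝ)| = |(rI z : ℝ)| := by
      apply absc_CntB
      rw [rI, ho.1]; simp [om2]
    rw [isOrb_hh ho] at b1 b2
    refine ⟨b1, b2, hd.trans b2, ?_, c2.le, Int.gcd_one_right _, ?_, ?_⟩
    · show |(z.2.2.1 : ℝ)| ≤ 2 * |H|
      rw [hx, hr]; exact b4
    · refine b6.trans ?_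
      rw [hr]
      have := mul_le_mul_of_nonneg_right b4 (abs_nonneg H2)
      linarith
    · exact ⟨z.2.2.2, by simp only [pI, om2]; ring⟩
  · intro z hz z' hz' hk hval
    obtain ⟨⟨ho, -, hv, -, -, -⟩, hs⟩ := hS z hz
    obtain ⟨⟨ho', -, hv', -, -, -⟩, hs'⟩ := hS z' hz'
    obtain ⟨c1, -⟩ := caseS_CntB ho hv hs
    obtain ⟨c1', -⟩ := caseS_CntB ho' hv' hs'
    have hne := isOrb_hh_ne ho
    rw [isOrb_hh ho] at hne
    simp only [Prod.mk.injEq] at hk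
    obtain ⟨k1, k2, k3, k4⟩ := hk
    have ht : z.2.2.2 = z'.2.2.2 := by
      simp only [pI, om2] at hval
      rw [← k1, ← k2, ← k3] at hval
      exact mul_left_cancel₀ hne (by linarith)
    refine Prod.ext (Prod.ext (Prod.ext k1 k2) (ho.1.trans ho'.1.symm))
      (Prod.ext (Prod.ext (c1.trans c1'.symm) k4) (Prod.ext k3 ht))

lemma cardP_CntB (hG : GcdStmt) {α H2 H R₀ : ℝ} (hH : 1 / 2 ≤ |H|) (S : Finset (Pr × Pr))
    (hS : ∀ z ∈ S, Cs α H2 H R₀ z ∧ pI z = 0) :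
    (S.card : ℝ) ≤ 648 * |H| ^ 3 * (2 * (4 * |H| * |H2| + 8 * |H|) / |H| + 1) := by
  refine cnt_CntB hG hH (by positivity) S (fun z => (z.1.1.1, z.1.1.2, hh z.2, sgn_CntB z))
    (fun z => z.2.1.1) (fun k => k.2.1) (fun k => k.2.2.2 * k.2.2.1) ?_ ?_
  · intro z hz
    obtain ⟨⟨ho, hu, -, hv, hI, -⟩, hp⟩ := hS z hz
    obtain ⟨c1, c2, c3, -⟩ := caseP_CntB ho hu hv hp
    obtain ⟨-, -, b1, b2, -, b4, -, -, b7, -⟩ := hI
    have hd := dle_CntB ho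
    have hr := absc_CntB c3
    have hx : |(z.2.1.1 : ℝ)| = |(sI z : ℝ)| := by
      apply absc_CntB
      rw [sI, ho.1]; simp [om2]
    rw [← hr] at b2
    have b2' := b2
    rw [hr, isOrb_hh ho] at b2
    rw [isOrb_hh ho] at b1
    refine ⟨b1, b2, hd.trans b2, b4, ?_, hu, ?_, ?_⟩
    · show |sgn_CntB z| ≤ 1
      rcases c1 with h | h <;> simp [h]
    · show |(z.2.1.1 : ℝ)| ≤ _
      rw [hx]
      refine b7.trans ?_
      have := mul_le_mul_of_nonneg_right b2' (abs_nonneg H2)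
      linarith
    · refine ⟨z.2.1.2, ?_⟩
      show z.1.1.2 * z.2.1.1 - sgn_CntB z * hh z.2 = z.1.1.1 * z.2.1.2
      rw [hh, c2]
      rcases c1 with h | h <;> simp only [om2, h] <;> ring
  · intro z hz z' hz' hk hval
    obtain ⟨⟨ho, hu, -, hv, -, -⟩, hp⟩ := hS z hz
    obtain ⟨⟨ho', hu', -, hv', -, -⟩, hp'⟩ := hS z' hz'
    obtain ⟨c1, c2, -⟩ := caseP_CntB ho hu hv hp
    obtain ⟨-, c2', -⟩ := caseP_CntB ho' hu' hv' hp'
    have hne := isOrb_hh_ne ho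
    rw [isOrb_hh ho] at hne
    simp only [Prod.mk.injEq] at hk
    obtain ⟨k1, k2, k3, k4⟩ := hk
    have hv2 : z.2.2 = z'.2.2 := by rw [c2, c2', k1, k2, k4]
    have hval' : z.2.1.1 = z'.2.1.1 := hval
    have ht : z.2.1.2 = z'.2.1.2 := by
      simp only [hh, om2] at k3
      rw [← hv2, ← hval', c2] at k3
      simp only at k3
      refine mul_left_cancel₀ hne ?_
      rcases c1 with h | h <;> rw [h] at k3 <;> linarith
    exact Prod.ext (Prod.ext (Prod.ext k1 k2) (ho.1.trans ho'.1.symm))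
      (Prod.ext (Prod.ext hval' ht) hv2)

lemma num_CntB {x y A B W : ℝ} (hx : 1 / 2 ≤ x) (hy : 0 ≤ y) (hA : 0 ≤ A) (hB : 0 ≤ B)
    (hW : 0 ≤ W) :
    2 * (648 * x ^ 3 * (2 * (4 * x * y + 8 * x) / x + 1)) * ((A + B / x) * (1 / x)) ≤
      44064 * ((y * x + x ^ 2) * (B + A * (1 + y * x + W))) := by
  have hx0 : 0 < x := by linarith
  have e : 2 * (648 * x ^ 3 * (2 * (4 * x * y + 8 * x) / x + 1)) * ((A + B / x) * (1 / x)) =
      1296 * (A * ((8 * y + 17) * x ^ 2) + B * ((8 * y + 17) * x)) := by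
    field_simp
    ring
  have h1 : (8 * y + 17) * x ≤ 34 * (y * x + x ^ 2) := by nlinarith [mul_nonneg hy hx0.le]
  have h2 : (8 * y + 17) * x ^ 2 ≤ 34 * ((y * x + x ^ 2) * (1 + y * x + W)) := by
    have a1 : 0 ≤ y * x := mul_nonneg hy hx0.le
    have a2 : x ^ 2 * (1 + y * x) ≤ (y * x + x ^ 2) * (1 + y * x + W) := by
      apply mul_le_mul <;> first | positivity | linarith
    have a3 : y * x ^ 2 * (1 / 2) ≤ y * x ^ 2 * x := by gcongr
    nlinarith [sq_nonneg x, mul_nonneg hy (sq_nonneg x)]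
  have h3 := mul_le_mul_of_nonneg_left h1 hB
  have h4 := mul_le_mul_of_nonneg_left h2 hA
  rw [e]
  nlinarith

theorem cntB_stmt (hG : GcdStmt) : CntBStmt := by
  classical
  intro ε hε
  refine ⟨44064, by norm_num, ?_⟩
  intro Λ α H2 H R₀ A B S hBd hR hA hB hS
  have hΛ : 1 ≤ Λ ^ ε := Real.one_le_rpow hBd.1 hε.le
  have hF : 0 ≤ (|H2| * |H| + H ^ 2) * (B + A * (1 + |H2| * |H| + H2 ^ 2 * R₀)) := by positivity
  rcases S.eq_empty_or_nonempty with he | ⟨z0, hz0⟩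
  · rw [he, sum_empty]; positivity
  have hH : 1 / 2 ≤ |H| := (hS z0 hz0).1.2.2.2.2.1.half
  have hterm : ∀ z ∈ S, (A + B / |(nI z : ℝ)|) * vb H2 H (rI z) ≤ (A + B / |H|) * (1 / |H|) := by
    intro z hz
    obtain ⟨⟨ho, hu, hv, hv', hI, -⟩, -, hT⟩ := hS z hz
    obtain ⟨-, -, b1, -, b3, -⟩ := hI
    rcases mul_eq_zero.1 hT with hp | hs
    · obtain ⟨-, -, c3, c4⟩ := caseP_CntB ho hu hv' hp
      exact term_CntB hH hA hB (by rw [absc_CntB c4]; exact b3) (by rw [absc_CntB c3]; exact b1)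
    · obtain ⟨-, -, c3, c4⟩ := caseS_CntB ho hv hs
      exact term_CntB hH hA hB (by rw [absc_CntB c4]; exact b1) (by rw [absc_CntB c3]; exact b3)
  have hc1 := cardS_CntB hG hH (S.filter fun z => sI z = 0) (α := α) (H2 := H2) (R₀ := R₀)
    fun z hz => ⟨(hS z (mem_filter.1 hz).1).1, (mem_filter.1 hz).2⟩
  have hc2 := cardP_CntB hG hH (S.filter fun z => ¬sI z = 0) (α := α) (H2 := H2) (R₀ := R₀)
    fun z hz => ⟨(hS z (mem_filter.1 hz).1).1,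
      (mul_eq_zero.1 (hS z (mem_filter.1 hz).1).2.2).resolve_right (mem_filter.1 hz).2⟩
  have hc : (S.card : ℝ) ≤
      2 * (648 * |H| ^ 3 * (2 * (4 * |H| * |H2| + 8 * |H|) / |H| + 1)) := by
    have e := card_filter_add_card_filter_not (s := S) (fun z => sI z = 0)
    have e' : ((S.filter fun z => sI z = 0).card : ℝ) + (S.filter fun z => ¬sI z = 0).card =
        S.card := by exact_mod_cast e
    linarith
  have hnum := num_CntB (W := H2 ^ 2 * R₀) hH (abs_nonneg H2) hA hB (by positivity)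
  rw [sq_abs] at hnum
  calc ∑ z ∈ S, (A + B / |(nI z : ℝ)|) * vb H2 H (rI z)
      ≤ ∑ _z ∈ S, (A + B / |H|) * (1 / |H|) := sum_le_sum hterm
    _ = S.card * ((A + B / |H|) * (1 / |H|)) := by rw [sum_const, nsmul_eq_mul]
    _ ≤ 2 * (648 * |H| ^ 3 * (2 * (4 * |H| * |H2| + 8 * |H|) / |H| + 1)) *
        ((A + B / |H|) * (1 / |H|)) := by gcongr
    _ ≤ 44064 * 1 * ((|H2| * |H| + H ^ 2) * (B + A * (1 + |H2| * |H| + H2 ^ 2 * R₀))) := by
        rw [mul_one 44064]; exact hnum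
    _ ≤ _ := by gcongr

end Pool.Agent.MP_c853c5_nt.W

end

section

set_option autoImplicit false
open Finset MeasureTheory
open scoped ENNReal ComplexConjugate
namespace Pool.Agent.MP_c853c5_nt.W
open Pool.Agent.MP_2a1f0e_nt Pool.Agent.MP_2a1f0e_nt.GM Pool.Agent.MP_2a1f0e_nt.DH

lemma split_Er (W : ℕ → ℝ) (M : ℕ) {n : ℤ} (hn : n ≠ 0)
    (h : ∀ d ∈ n.natAbs.divisors, M < d → W d = 0) :
    ∑ q ∈ Icc 1 M, (W q : ℂ) * dl q n =
      ((∑ d ∈ n.natAbs.divisors, W d - ∑ q ∈ Icc 1 M, W q / psiD q : ℝ) : ℂ) := by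
  have k : ∑ q ∈ (Icc 1 M).filter (· ∣ n.natAbs), W q = ∑ d ∈ n.natAbs.divisors, W d := by
    refine sum_subset (fun d hd => Nat.mem_divisors.2 ⟨(mem_filter.1 hd).2, by simpa using hn⟩)
      fun d hd hd' => h d hd (lt_of_not_ge fun e => hd' ?_)
    exact mem_filter.2 ⟨mem_Icc.2 ⟨Nat.pos_of_mem_divisors hd, e⟩, Nat.dvd_of_mem_divisors hd⟩
  rw [← k, sum_filter, ← sum_sub_distrib, Complex.ofReal_sum]
  refine sum_congr rfl fun q _ => ?_
  unfold dl ind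
  split_ifs with e
  · rw [iC_pos (Int.natCast_dvd.2 e)]
    push_cast
    ring
  · rw [iC_neg fun e' => e (Int.natCast_dvd.1 e')]
    push_cast
    ring

lemma nu_eq_Er {Q : ℕ} (hQ : 1 ≤ Q) {n : ℤ} (hn : n ≠ 0) : nuQ Q n =
    ((∑ d ∈ n.natAbs.divisors, Wt ((d : ℝ) / Q) -
      ∑ q ∈ Icc 1 (3 * Q), Wt ((q : ℝ) / Q) / psiD q : ℝ) : ℂ) := by
  refine split_Er (fun q => Wt ((q : ℝ) / Q)) _ hn fun d _ hd => Wt_eq_zero (Or.inr ?_)
  have h1 : (0 : ℝ) < Q := by exact_mod_cast hQ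
  have h2 : (3 : ℝ) * Q < d := by exact_mod_cast hd
  rw [le_div_iff₀ h1]
  linarith

lemma swp_eq_Er (Q : ℕ) {Cm : ℕ} {n : ℤ} (hn : n ≠ 0) (h : |(n : ℝ)| ≤ Cm) : swp Q Cm n =
    ((∑ d ∈ n.natAbs.divisors, Wt ((d : ℝ) / Q) -
      ∑ q ∈ Icc 1 Cm, Wt (|(n : ℝ)| / (q * Q)) / psiD q : ℝ) : ℂ) := by
  have e : ((n.natAbs : ℕ) : ℝ) = |(n : ℝ)| := by rw [Nat.cast_natAbs, Int.cast_abs]
  have h1 : n.natAbs ≤ Cm := by exact_mod_cast e.trans_le h
  rw [← Nat.sum_div_divisors, sum_congr rfl (g := fun q : ℕ => Wt (|(n : ℝ)| / (q * Q)))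
    fun d hd => by
      rw [Nat.cast_div (Nat.dvd_of_mem_divisors hd)
        (Nat.cast_ne_zero.2 (Nat.pos_of_mem_divisors hd).ne'), e, div_div]]
  exact split_Er (fun q => Wt (|(n : ℝ)| / (q * Q))) _ hn fun d hd hd' =>
    absurd ((Nat.divisor_le hd).trans h1) (not_le.2 hd')

lemma triv_Er (W : ℕ → ℝ) (M : ℕ) (n : ℤ) : ‖∑ q ∈ Icc 1 M, (Wt (W q) : ℂ) * dl q n‖ ≤ M := by
  refine (norm_sum_le _ _).trans ((sum_le_card_nsmul _ _ 1 fun q hq => ?_).trans_eq (by simp))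
  rw [norm_mul, Complex.norm_real, Real.norm_of_nonneg (Wt_nonneg _)]
  exact mul_le_one₀ (Wt_le_one _) (norm_nonneg _) (norm_dl_le (mem_Icc.1 hq).1 n)

theorem nu_stmt : NuStmt := by
  intro Q Cm n hQ
  have h1 : (0 : ℝ) < Q := by exact_mod_cast hQ
  refine ⟨by exact_mod_cast triv_Er (fun q => (q : ℝ) / Q) (3 * Q) n, fun hn => ?_,
    sum_eq_zero fun c _ => ?_, triv_Er _ Cm n⟩
  · rw [nu_eq_Er hQ hn, Complex.norm_real]
    refine (norm_sub_le _ _).trans (add_le_add ?_ ?_)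
    · refine (norm_sum_le _ _).trans ((sum_le_card_nsmul _ _ 1 fun q _ => ?_).trans_eq (by simp))
      rw [Real.norm_of_nonneg (Wt_nonneg _)]
      exact Wt_le_one _
    · refine (norm_sum_le _ _).trans ((sum_le_card_nsmul _ _ (1 / (3 / 4 * (Q : ℝ)))
        fun q hq => ?_).trans_eq ?_)
      · have h2 := one_le_psiD (mem_Icc.1 hq).1
        rw [Real.norm_of_nonneg (div_nonneg (Wt_nonneg _) (by linarith))]
        rcases le_total ((q : ℝ) / Q) (3 / 4) with h3 | h3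
        · rw [Wt_eq_zero (Or.inl h3), zero_div]
          positivity
        · exact div_le_div₀ zero_le_one (Wt_le_one _) (by positivity)
            (((le_div_iff₀ h1).1 h3).trans (le_psiD q))
      · rw [Nat.card_Icc, Nat.add_sub_cancel, nsmul_eq_mul]
        push_cast
        field_simp
  · rw [Int.cast_zero, abs_zero, zero_div, Wt_eq_zero (Or.inl (by norm_num)), Complex.ofReal_zero,
      zero_mul]

lemma swap_Er (F : ℕ → ℕ → ℝ) {M D : ℕ} (h : M ≤ D) :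
    ∑ q ∈ Icc 1 M, ∑ e ∈ q.divisors, F e q = ∑ e ∈ Icc 1 D, ∑ k ∈ Icc 1 (M / e), F e (e * k) := by
  rw [sum_sigma', sum_sigma']
  refine sum_nbij' (fun x => ⟨x.2, x.1 / x.2⟩) (fun x => ⟨x.1 * x.2, x.1⟩) ?_ ?_ ?_ ?_ ?_
  · rintro ⟨q, e⟩ hx
    simp only [mem_sigma, mem_Icc] at hx ⊢
    have h1 := Nat.pos_of_mem_divisors hx.2
    have h2 := Nat.divisor_le hx.2
    exact ⟨⟨h1, by omega⟩, Nat.div_pos h2 h1, Nat.div_le_div_right hx.1.2⟩
  · rintro ⟨e, k⟩ hx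
    simp only [mem_sigma, mem_Icc, Nat.mem_divisors] at hx ⊢
    have h1 := Nat.mul_pos hx.1.1 hx.2.1
    exact ⟨⟨h1, mul_comm k e ▸ (Nat.le_div_iff_mul_le hx.1.1).1 hx.2.2⟩, dvd_mul_right _ _, h1.ne'⟩
  · rintro ⟨q, e⟩ hx
    simp only [mem_sigma] at hx
    simp only [Nat.mul_div_cancel' (Nat.dvd_of_mem_divisors hx.2)]
  · rintro ⟨e, k⟩ hx
    simp only [mem_sigma, mem_Icc] at hx
    simp only [Nat.mul_div_cancel_left k hx.1.1]
  · rintro ⟨q, e⟩ hx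
    simp only [mem_sigma] at hx
    simp only [Nat.mul_div_cancel' (Nat.dvd_of_mem_divisors hx.2)]

/-- the coefficient of the inner sums -/
noncomputable def cf_Er (e : ℕ) : ℝ := (ArithmeticFunction.moebius e : ℝ) / psiD e / e

lemma exp_Er (hP : PsmStmt) (W : ℕ → ℝ) {M D : ℕ} (h : M ≤ D) :
    ∑ q ∈ Icc 1 M, W q / psiD q =
      ∑ e ∈ Icc 1 D, cf_Er e * ∑ k ∈ Icc 1 (M / e), W (e * k) / k := by
  have k := swap_Er (fun e q => (ArithmeticFunction.moebius e : ℝ) / psiD e * (W q / q)) h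
  refine (sum_congr rfl fun q hq => ?_).trans (k.trans (sum_congr rfl fun e _ => ?_))
  · have h1 := (mem_Icc.1 hq).1
    have h2 : (q : ℝ) ≠ 0 := by positivity
    rw [← sum_mul, ← hP q h1]
    field_simp
  · rw [mul_sum]
    refine sum_congr rfl fun k _ => ?_
    rw [cf_Er, Nat.cast_mul]
    ring

lemma abs_cf_Er {e : ℕ} (he : 1 ≤ e) : |cf_Er e| ≤ ((e : ℝ) ^ 2)⁻¹ := by
  have h1 : (0 : ℝ) < e := by exact_mod_cast he
  have h2 := le_psiD e
  rw [cf_Er, div_div, abs_div, abs_of_pos (mul_pos (h1.trans_le h2) h1), ← one_div, sq]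
  exact div_le_div₀ zero_le_one (by exact_mod_cast ArithmeticFunction.abs_moebius_le_one)
    (by positivity) (mul_le_mul_of_nonneg_right h2 h1.le)

lemma bd_Er {X : ℕ} {Δ C y : ℝ} (hX : DivB X Δ) (hC : 0 < C) (hy : 0 < y) (hy' : y ≤ X)
    (R : ℕ → ℝ) (h : ∀ e : ℕ, 1 ≤ e → |R e| ≤ C * min 1 (1 / (y / e))) (D : ℕ) :
    |∑ e ∈ Icc 1 D, cf_Er e * R e| ≤ 4 * C * Δ * (1 / y) := by
  have k1 : ∑ e ∈ Icc 1 X, |cf_Er e * R e| ≤ C / y * (2 * Δ) := by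
    refine le_trans ?_ (mul_le_mul_of_nonneg_left (harm_le hX le_rfl) (by positivity))
    rw [mul_sum]
    refine sum_le_sum fun e he => ?_
    have h1 := (mem_Icc.1 he).1
    have h2 : (e : ℝ) ≠ 0 := by positivity
    rw [abs_mul]
    exact (mul_le_mul (abs_cf_Er h1) ((h e h1).trans (mul_le_mul_of_nonneg_left (min_le_right _ _)
      hC.le)) (abs_nonneg _) (by positivity)).trans_eq (by field_simp)
  have k2 : ∑ e ∈ Ioo X (D + 1), |cf_Er e * R e| ≤ C * (2 / y) := by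
    refine le_trans ?_ (mul_le_mul_of_nonneg_left ((sum_Ioo_inv_sq_le X (D + 1)).trans
      (div_le_div_of_nonneg_left zero_le_two hy (by linarith))) hC.le)
    rw [mul_sum]
    refine sum_le_sum fun e he => ?_
    have h1 : 1 ≤ e := by have := (mem_Ioo.1 he).1; omega
    rw [abs_mul]
    exact (mul_le_mul (abs_cf_Er h1) ((h e h1).trans (mul_le_mul_of_nonneg_left (min_le_left _ _)
      hC.le)) (abs_nonneg _) (by positivity)).trans_eq (by ring)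
  have k3 : Icc 1 D ⊆ Icc 1 X ∪ Ioo X (D + 1) := fun e he => by
    simp only [mem_union, mem_Icc, mem_Ioo] at he ⊢
    omega
  have k4 : Disjoint (Icc 1 X) (Ioo X (D + 1)) := disjoint_left.2 fun e h1 h2 => by
    simp only [mem_Icc, mem_Ioo] at h1 h2
    omega
  refine (abs_sum_le_sum_abs _ _).trans
    ((sum_le_sum_of_subset_of_nonneg k3 fun _ _ _ => abs_nonneg _).trans ?_)
  rw [sum_union k4]
  have k5 := mul_le_mul_of_nonneg_left hX.1 (by positivity : 0 ≤ C * (2 / y))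
  refine (add_le_add k1 (k2.trans ((mul_one _).ge.trans k5))).trans_eq (by ring)

lemma div_le_Er (M : ℕ) {e : ℕ} (he : 1 ≤ e) : (M : ℝ) / e ≤ (M / e : ℕ) + 1 := by
  rw [div_le_iff₀ (by exact_mod_cast he), mul_comm]
  exact_mod_cast (Nat.lt_mul_div_succ M he).le

theorem er_stmt (hR : RsStmt) (hP : PsmStmt) : ErStmt := by
  intro ε hε
  obtain ⟨C, I, hC, hR⟩ := hR
  obtain ⟨C', hC', hD⟩ := exD 1 1 1 hε
  refine ⟨4 * C * C', by positivity, fun Λ Q Cm n hQ hQ' hn hn' hm => ?_⟩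
  have h1 : (1 : ℝ) ≤ Q := by exact_mod_cast hQ
  have h2 : 0 < |(n : ℝ)| := abs_pos.2 (Int.cast_ne_zero.2 hn)
  obtain ⟨X, Δ, hX, h3, h4⟩ := hD Λ (h1.trans hQ')
  rw [pow_one, one_mul] at h3
  rw [pow_one] at h4
  have k1 := bd_Er hX hC (y := Q) (by positivity) (hQ'.trans h3)
    (fun e => ∑ k ∈ Icc 1 (3 * Q / e), Wt (((e * k : ℕ) : ℝ) / Q) / k - I) (fun e he => by
      have h5 : (0 : ℝ) < e := by exact_mod_cast he
      refine le_trans (le_of_eq ?_) (hR (Q / e) (3 * Q / e) (by positivity) ?_).1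
      · congr 2
        refine sum_congr rfl fun k _ => ?_
        rw [div_div_eq_mul_div, Nat.cast_mul, mul_comm]
      · refine le_trans (le_of_eq ?_) (div_le_Er (3 * Q) he)
        push_cast
        ring) (max (3 * Q) Cm)
  have k2 := bd_Er hX hC (y := |(n : ℝ)| / Q) (by positivity)
    ((div_le_self h2.le h1).trans (hn'.trans h3))
    (fun e => ∑ k ∈ Icc 1 (Cm / e), Wt (|(n : ℝ)| / ((e * k : ℕ) * Q)) / k - I) (fun e he => by
      have h5 : (0 : ℝ) < e := by exact_mod_cast he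
      refine le_trans (le_of_eq ?_) (hR (|(n : ℝ)| / Q / e) (Cm / e) (by positivity) ?_).2
      · congr 2
        refine sum_congr rfl fun k _ => ?_
        rw [div_div, div_div, Nat.cast_mul, mul_comm]
      · refine le_trans ?_ (div_le_Er Cm he)
        rw [← mul_div_assoc]
        exact div_le_div_of_nonneg_right ((mul_le_mul_of_nonneg_left (div_le_self h2.le h1)
          (by norm_num)).trans hm) h5.le) (max (3 * Q) Cm)
  rw [nu_eq_Er hQ hn, swp_eq_Er Q hn (by linarith), ← Complex.ofReal_sub, Complex.norm_real,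
    Real.norm_eq_abs, sub_sub_sub_cancel_left,
    exp_Er hP (fun q => Wt ((q : ℝ) / Q)) (le_max_left _ Cm),
    exp_Er hP (fun q => Wt (|(n : ℝ)| / (q * Q))) (le_max_right (3 * Q) Cm)]
  simp only [mul_sub, sum_sub_distrib] at k1 k2
  rw [← sub_sub_sub_cancel_right _ _ (∑ e ∈ Icc 1 (max (3 * Q) Cm), cf_Er e * I)]
  refine (abs_sub _ _).trans ((add_le_add k2 k1).trans ?_)
  rw [one_div_div, ← mul_add, mul_assoc _ C']
  gcongr

end Pool.Agent.MP_c853c5_nt.W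

end

section

set_option autoImplicit false
open Finset MeasureTheory
open scoped ENNReal ComplexConjugate
namespace Pool.Agent.MP_c853c5_nt.W
open Pool.Agent.MP_2a1f0e_nt Pool.Agent.MP_2a1f0e_nt.GM Pool.Agent.MP_2a1f0e_nt.DH

noncomputable def mm_R1 (r : ℝ) (j : ℕ) : MM := ((r, -(-1 + j * r ^ 2) / r), (0, 1 / r))

noncomputable def nn_R1 (r : ℝ) (j : ℕ) (b : R2) : R2 :=
  (b.1 / r, (-1 + j * r ^ 2) * b.1 / r + b.2 * r)

noncomputable def fl_R1 (r : ℝ) (a : R2) : ℕ := ⌊(a.2 / a.1 + 1) / r ^ 2⌋₊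

noncomputable def dj_R1 (d : Dat) (r : ℝ) (j : ℕ) : Dat :=
  ⟨fun b => d.g (nn_R1 r j b) * iC (fl_R1 r (nn_R1 r j b) = j), d.al * r, d.x1, d.x2, d.H2, d.H⟩

lemma dt_mm_R1 {r : ℝ} (hr : 0 < r) (j : ℕ) : dt (mm_R1 r j) = 1 := by
  simp only [dt, mm_R1]
  field_simp
  ring

lemma nn_rt_R1 {r : ℝ} (hr : 0 < r) (j : ℕ) (a : R2) : nn_R1 r j (rt (mm_R1 r j) a) = a := by
  refine Prod.ext ?_ ?_
  · simp only [nn_R1, rt, mm_R1]
    field_simp
    ring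
  · simp only [nn_R1, rt, mm_R1]
    field_simp
    ring

lemma tt_rm_R1 {r : ℝ} (hr : 0 < r) (j : ℕ) (P : Pr) (x : MM) :
    tt P (rm (mm_R1 r j) x) = tt P x := by
  simp only [tt, vx_rm, rt, mm_R1, mul_zero, add_zero]
  exact mul_div_mul_right _ _ hr.ne'

lemma meas_nn_R1 (r : ℝ) (j : ℕ) : Measurable (nn_R1 r j) := by
  unfold nn_R1
  fun_prop

lemma meas_fl_R1 (r : ℝ) : Measurable (fl_R1 r) := by
  unfold fl_R1
  exact Measurable.nat_floor (by fun_prop)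

lemma adm_R1 {d : Dat} (h0 : 0 < d.al) (hd : Adm d.al d.g) {r : ℝ} (hr : 0 < r) (j : ℕ) :
    Adm (dj_R1 d r j).al (dj_R1 d r j).g := by
  refine ⟨?_, fun b => ?_, fun b hb => ?_⟩
  · exact (hd.1.comp (meas_nn_R1 r j)).mul (measurable_iC
      (((meas_fl_R1 r).comp (meas_nn_R1 r j)) (measurableSet_singleton j)))
  · exact (norm_mul_le _ _).trans (mul_le_one₀ (hd.2.1 _) (norm_nonneg _) (norm_iC_le _))
  · obtain ⟨h1, h2, h3⟩ := hd.2.2 _ (left_ne_zero_of_mul hb)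
    have h4 : fl_R1 r (nn_R1 r j b) = j := iC_ne_zero (right_ne_zero_of_mul hb)
    have ha : 0 < (nn_R1 r j b).1 := h0.trans_le h1
    have h5 : 0 ≤ ((nn_R1 r j b).2 / (nn_R1 r j b).1 + 1) / r ^ 2 := by
      have : -1 ≤ (nn_R1 r j b).2 / (nn_R1 r j b).1 := by
        rw [le_div_iff₀ ha]
        linarith [(abs_le.1 h3).1]
      exact div_nonneg (by linarith) (sq_nonneg r)
    obtain ⟨h6, h7⟩ := (Nat.floor_eq_iff h5).1 h4
    have e1 : (nn_R1 r j b).1 = b.1 / r := rfl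
    have hb1 : 0 < b.1 := by
      rw [e1] at ha
      exact (div_pos_iff_of_pos_right hr).1 ha
    have e2 : ((nn_R1 r j b).2 / (nn_R1 r j b).1 + 1) / r ^ 2 = j + b.2 / b.1 := by
      simp only [nn_R1]
      field_simp
      ring
    rw [e2] at h6 h7
    rw [e1] at h1 h2
    have h8 : 0 ≤ b.2 / b.1 := by linarith
    have h9 : b.2 / b.1 < 1 := by linarith
    rw [le_div_iff₀ hb1, zero_mul] at h8
    rw [div_lt_one hb1] at h9
    refine ⟨(le_div_iff₀ hr).1 h1, ?_, ?_⟩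
    · have := (div_le_iff₀ hr).1 h2
      change b.1 ≤ 4 * (d.al * r)
      linarith
    · rw [abs_of_nonneg h8]
      exact h9.le

lemma pk_sum_R1 {d : Dat} (h0 : 0 < d.al) (hd : Adm d.al d.g) {r : ℝ} (hr : 0 < r) (P : Pr)
    (x : MM) : pk d P x =
      ∑ j ∈ range (⌊2 / r ^ 2⌋₊ + 1), pk (dj_R1 d r j) P (rm (mm_R1 r j) x) := by
  have e : ∀ j, pk (dj_R1 d r j) P (rm (mm_R1 r j) x) =
      pk d P x * iC (fl_R1 r (vx P.2 x) = j) := fun j => by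
    simp only [pk, pa, dj_R1, vx_rm, nn_rt_R1 hr, dt_rm, dt_mm_R1 hr, tt_rm_R1 hr, mul_one]
    ring
  simp only [e, ← Finset.mul_sum]
  by_cases hg : d.g (vx P.2 x) = 0
  · simp [pk, pa, hg]
  obtain ⟨h1, -, h3⟩ := hd.2.2 _ hg
  have ha : 0 < (vx P.2 x).1 := h0.trans_le h1
  have hm : fl_R1 r (vx P.2 x) ∈ range (⌊2 / r ^ 2⌋₊ + 1) := by
    rw [Finset.mem_range, Nat.lt_succ_iff]
    refine Nat.floor_le_floor (div_le_div_of_nonneg_right ?_ (sq_nonneg r))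
    have : (vx P.2 x).2 / (vx P.2 x).1 ≤ 1 := (div_le_one ha).2 (abs_le.1 h3).2
    linarith
  rw [Finset.sum_eq_single_of_mem _ hm fun j _ hj => iC_neg fun h => hj h.symm, iC_pos rfl,
    mul_one]

lemma vf_sum_R1 (hF : FinStmt) {d : Dat} (h0 : 0 < d.al) (hd : Adm d.al d.g) {r : ℝ} (hr : 0 < r)
    (q : ℕ) (x : MM) (w : V) : vf q Prod.fst (pk d) x w =
      ∑ j ∈ range (⌊2 / r ^ 2⌋₊ + 1),
        vf q Prod.fst (pk (dj_R1 d r j)) (rm (mm_R1 r j) x) w := by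
  unfold vf
  rw [← Summable.tsum_finsetSum]
  · refine tsum_congr fun P => ?_
    rw [pk_sum_R1 h0 hd hr, Finset.sum_mul]
  · intro j _
    refine summable_of_hasFiniteSupport ((hF (d.al * r) d.H2 d.H (rm (mm_R1 r j) x)
      (mul_pos h0 hr)).subset fun P hP => ?_)
    exact pa_supA (d := dj_R1 d r j) (adm_R1 h0 hd hr j)
      (right_ne_zero_of_mul (left_ne_zero_of_mul hP))

lemma LN_le_R1 (hR : RtStmt) (hF : FinStmt) {μ : Measure MM} (hμ : UM μ) {d : Dat}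
    (h0 : 0 < d.al) (hd : Adm d.al d.g) {r : ℝ} (hr : 0 < r) (q : ℕ) :
    LN μ q Prod.fst (pk d) ≤ ENNReal.ofReal ((⌊2 / r ^ 2⌋₊ + 1 : ℕ) : ℝ) *
      ∑ j ∈ range (⌊2 / r ^ 2⌋₊ + 1),
        LN (μ.map (rm (mm_R1 r j))) q Prod.fst (pk (dj_R1 d r j)) := by
  have h := LF_sum_le μ q (range (⌊2 / r ^ 2⌋₊ + 1)) (k := vf q Prod.fst (pk d))
    (f := fun j x w => vf q Prod.fst (pk (dj_R1 d r j)) (rm (mm_R1 r j) x) w)
    (b := fun _ => 1) (fun _ _ => one_pos)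
    (fun j _ w => (MF_vf q Prod.fst (measurable_pk (adm_R1 h0 hd hr j).1) w).comp
      (continuous_rm _).measurable)
    (fun x w _ => vf_sum_R1 hF h0 hd hr q x w)
  simp only [Finset.sum_const, Finset.card_range, nsmul_eq_mul, mul_one, div_one,
    ENNReal.ofReal_one, one_mul] at h
  refine h.trans (le_of_eq ?_)
  congr 1
  refine Finset.sum_congr rfl fun j _ => ?_
  exact ((hR μ _ hμ (dt_mm_R1 hr j)).2 fun x =>
    ENNReal.ofReal (NV q (vf q Prod.fst (pk (dj_R1 d r j)) x))).symm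

theorem r1_stmt (hR : RtStmt) (hF : FinStmt) : R1Stmt := by
  intro η hη _ ⟨m, hm⟩
  refine ⟨m, fun ε hε => ?_⟩
  obtain ⟨K, hK, h⟩ := hm ε hε
  refine ⟨9 * K, by positivity, fun μ hμ d Λ Q hok => ?_⟩
  have hQ : (0 : ℝ) < Q := by exact_mod_cast hok.2.2.2.2.2.1
  have hΛ : 0 < Λ := zero_lt_one.trans_le hok.one_le
  have hxi : 0 < d.xi := zero_lt_one.trans_le d.one_le_xi
  have hP := d.PP_nonneg
  have hD := d.DD_nonneg
  have hXX := d.XX_nonneg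
  have hA : 0 ≤ K * Λ ^ ε * d.xi ^ m * (1 + d.PP / Q) := by positivity
  have hDQ : 0 ≤ d.DD * Q := by positivity
  have hXQ : 0 ≤ d.XX * (Q : ℝ) ^ (η / (1 + η)) := by positivity
  by_cases hc : d.X ^ (1 + η) ≤ Q
  · refine (h μ hμ d Λ Q hok hc).trans (ENNReal.ofReal_le_ofReal ?_)
    nlinarith [mul_nonneg hA hDQ, mul_nonneg hA hXQ]
  rw [not_le] at hc
  have h1η : 0 < 1 + η := by linarith
  have hX : 0 < d.X := by
    rcases d.X_nonneg.eq_or_lt with h0 | h0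
    · rw [← h0, Real.zero_rpow h1η.ne'] at hc
      linarith
    · exact h0
  have hH : d.H ≠ 0 := by
    intro h0
    simp [Dat.X, h0] at hX
  set Y : ℝ := (Q : ℝ) ^ (1 / (1 + η)) with hY
  have hY0 : 0 < Y := Real.rpow_pos_of_pos hQ _
  have hYQ : Y ^ (1 + η) = Q := by
    rw [hY, ← Real.rpow_mul hQ.le, one_div_mul_cancel h1η.ne', Real.rpow_one]
  have hYX : Y ≤ d.X := by
    rw [← hYQ] at hc
    exact ((Real.rpow_lt_rpow_iff hY0.le hX.le h1η).1 hc).le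
  have hYe : Y * (Q : ℝ) ^ (η / (1 + η)) = Q := by
    rw [hY, ← Real.rpow_add hQ, ← add_div, div_self h1η.ne', Real.rpow_one]
  set r : ℝ := √(Y / d.X) with hr
  have hr0 : 0 < r := Real.sqrt_pos.2 (div_pos hY0 hX)
  have hr2 : r ^ 2 = Y / d.X := Real.sq_sqrt (div_pos hY0 hX).le
  have hr21 : r ^ 2 ≤ 1 := by
    rw [hr2]
    exact (div_le_one hX).2 hYX
  have hr1 : r ≤ 1 := by nlinarith
  set n : ℕ := ⌊2 / r ^ 2⌋₊ + 1 with hn
  have hn3 : (n : ℝ) * r ^ 2 ≤ 3 := by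
    have h1 : (⌊2 / r ^ 2⌋₊ : ℝ) ≤ 2 / r ^ 2 := Nat.floor_le (by positivity)
    rw [le_div_iff₀ (by positivity)] at h1
    rw [hn]
    push_cast
    linarith
  have hj : ∀ j ∈ range n, ∑ q ∈ Ico Q (2 * Q),
      LN (μ.map (rm (mm_R1 r j))) q Prod.fst (pk (dj_R1 d r j)) ≤
      ENNReal.ofReal (K * Λ ^ ε * d.xi ^ m * (1 + d.PP / Q) * (d.DD * Q) * r ^ 2) := by
    intro j _
    have hokj : (dj_R1 d r j).ok Λ Q :=
      ⟨mul_pos hok.1 hr0, adm_R1 hok.1 hok.2.1 hr0 j,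
        (mul_le_of_le_one_right hok.1.le hr1).trans hok.2.2.1, hok.2.2.2⟩
    have hXj : (dj_R1 d r j).X = Y := by
      have e : (dj_R1 d r j).X = d.X * r ^ 2 := by
        simp only [Dat.X, dj_R1]
        ring
      rw [e, hr2]
      field_simp
    refine (h _ (hR μ _ hμ (dt_mm_R1 hr0 j)).1 _ Λ Q hokj (by rw [hXj, hYQ])).trans
      (le_of_eq ?_)
    congr 1
    simp only [Dat.xi, Dat.PP, Dat.DD, dj_R1]
    ring
  calc ∑ q ∈ Ico Q (2 * Q), LN μ q Prod.fst (pk d)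
      ≤ ∑ q ∈ Ico Q (2 * Q), ENNReal.ofReal (n : ℝ) * ∑ j ∈ range n,
          LN (μ.map (rm (mm_R1 r j))) q Prod.fst (pk (dj_R1 d r j)) :=
        Finset.sum_le_sum fun q _ => LN_le_R1 hR hF hμ hok.1 hok.2.1 hr0 q
    _ = ENNReal.ofReal (n : ℝ) * ∑ j ∈ range n, ∑ q ∈ Ico Q (2 * Q),
          LN (μ.map (rm (mm_R1 r j))) q Prod.fst (pk (dj_R1 d r j)) := by
        rw [← Finset.mul_sum, Finset.sum_comm]
    _ ≤ ENNReal.ofReal (n : ℝ) * ∑ j ∈ range n,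
          ENNReal.ofReal (K * Λ ^ ε * d.xi ^ m * (1 + d.PP / Q) * (d.DD * Q) * r ^ 2) := by
        gcongr with j hjn
        exact hj j hjn
    _ = ENNReal.ofReal ((n : ℝ) * (n *
          (K * Λ ^ ε * d.xi ^ m * (1 + d.PP / Q) * (d.DD * Q) * r ^ 2))) := by
        rw [Finset.sum_const, Finset.card_range, nsmul_eq_mul,
          ENNReal.ofReal_mul (Nat.cast_nonneg n), ENNReal.ofReal_mul (Nat.cast_nonneg n),
          ENNReal.ofReal_natCast]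
    _ ≤ _ := by
        refine ENNReal.ofReal_le_ofReal ?_
        have e1 : d.DD * Q = d.XX * (Q : ℝ) ^ (η / (1 + η)) * r ^ 2 := by
          rw [d.XX_eq hH, hr2]
          nth_rewrite 1 [← hYe]
          field_simp
        have e2 : ((n : ℝ) * r ^ 2) ^ 2 ≤ 9 := by
          have : 0 ≤ (n : ℝ) * r ^ 2 := by positivity
          nlinarith
        have e3 : (n : ℝ) * (n *
            (K * Λ ^ ε * d.xi ^ m * (1 + d.PP / Q) * (d.DD * Q) * r ^ 2)) =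
            ((n : ℝ) * r ^ 2) ^ 2 * (K * Λ ^ ε * d.xi ^ m * (1 + d.PP / Q) *
              (d.XX * (Q : ℝ) ^ (η / (1 + η)))) := by
          rw [e1]
          ring
        rw [e3]
        nlinarith [mul_nonneg hA hDQ, mul_le_mul_of_nonneg_right e2 (mul_nonneg hA hXQ)]

end Pool.Agent.MP_c853c5_nt.W

end
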