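import Pool.Agent.MP_2a1f0e_nt.GM2.Defs
import Pool.Agent.Mg.C853.G9b677c
import Pool.Agent.Mg.C853.G1ee557

section

set_option autoImplicit false
open Finset
namespace Pool.Agent.MP_2a1f0e_nt.GM2
open GM

/-- the square of a trigonometric polynomial -/
noncomputable def P_CV (D : Finset ℤ) (c : ℤ → ℂ) (θ : ℝ) : ℝ :=
  ‖∑ t ∈ D, c t * Complex.exp (Complex.I * ((t : ℝ) : ℂ) * (θ : ℂ))‖ ^ 2

lemma cont_CV (D : Finset ℤ) (c : ℤ → ℂ) : Continuous (P_CV D c) := by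
  unfold P_CV
  fun_prop

lemma orth_CV (k : ℤ) (α : ℝ) :
    ∫ θ in α..(α + 4 * Real.pi), Complex.exp (Complex.I * (k : ℂ) * (θ : ℂ)) =
      if k = 0 then (4 * Real.pi : ℂ) else 0 := by
  split_ifs with h
  · subst h
    simp
  · rw [integral_exp_mul_complex (mul_ne_zero Complex.I_ne_zero (Int.cast_ne_zero.2 h))]
    have e : Complex.I * (k : ℂ) * ((α + 4 * Real.pi : ℝ) : ℂ) =
        Complex.I * (k : ℂ) * (α : ℂ) + (2 * k : ℤ) * (2 * Real.pi * Complex.I) := by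
      push_cast
      ring
    rw [e, Complex.exp_add, Complex.exp_int_mul_two_pi_mul_I, mul_one, sub_self, zero_div]

lemma sq_CV (D : Finset ℤ) (c : ℤ → ℂ) (θ : ℝ) : ((P_CV D c θ : ℝ) : ℂ) =
    ∑ t ∈ D, ∑ u ∈ D, (c t * (starRingEnd ℂ) (c u)) *
      Complex.exp (Complex.I * ((t - u : ℤ) : ℂ) * (θ : ℂ)) := by
  rw [P_CV, Complex.ofReal_pow, ← Complex.mul_conj', map_sum, sum_mul_sum]
  refine sum_congr rfl fun t _ => sum_congr rfl fun u _ => ?_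
  rw [map_mul, ← Complex.exp_conj, map_mul, map_mul, Complex.conj_I,
    Complex.conj_ofReal, Complex.conj_ofReal, mul_mul_mul_comm, ← Complex.exp_add]
  congr 2
  push_cast
  ring

lemma pars_CV (D : Finset ℤ) (c : ℤ → ℂ) (α : ℝ) :
    ∫ θ in α..(α + 4 * Real.pi), P_CV D c θ = 4 * Real.pi * N2 D c := by
  apply Complex.ofReal_injective
  rw [← intervalIntegral.integral_ofReal, N2]
  simp only [sq_CV]
  rw [intervalIntegral.integral_finsetSum fun t _ =>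
    Continuous.intervalIntegrable (by fun_prop) _ _]
  push_cast
  rw [mul_sum]
  refine sum_congr rfl fun t ht => ?_
  rw [intervalIntegral.integral_finsetSum fun u _ =>
    Continuous.intervalIntegrable (by fun_prop) _ _, sum_eq_single_of_mem t ht]
  · rw [intervalIntegral.integral_const_mul, ← Int.cast_sub, orth_CV, if_pos (sub_self t),
      Complex.mul_conj']
    ring
  · intro u _ hu
    rw [intervalIntegral.integral_const_mul, ← Int.cast_sub, orth_CV,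
      if_neg (sub_ne_zero.2 hu.symm), mul_zero]

lemma abs_CV (D : Finset ℤ) (c : ℤ → ℂ) {α β : ℝ} (h : |β - α| ≤ 12) :
    |∫ θ in α..β, P_CV D c θ| ≤ 4 * Real.pi * N2 D c := by
  wlog hab : α ≤ β generalizing α β
  · rw [intervalIntegral.integral_symm, abs_neg]
    exact this (abs_sub_comm α β ▸ h) (le_of_not_ge hab)
  rw [abs_of_nonneg (intervalIntegral.integral_nonneg (f := P_CV D c) hab fun _ _ => sq_nonneg _),
    ← pars_CV D c α]
  exact intervalIntegral.integral_mono_interval le_rfl hab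
    (by linarith [(abs_le.1 h).2, Real.pi_gt_three])
    (Filter.Eventually.of_forall fun θ => sq_nonneg _) ((cont_CV D c).intervalIntegrable _ _)

lemma sub_CV (D : Finset ℤ) (c : ℤ → ℂ) {ψ ψ' : ℝ → ℝ} {z₀ z₁ ε m : ℝ} (hz : z₀ ≤ z₁)
    (h1 : ∀ z ∈ Set.Icc z₀ z₁, HasDerivAt ψ (ψ' z) z) (h2 : ContinuousOn ψ' (Set.Icc z₀ z₁))
    (hε : |ε| ≤ 1) (hm : 0 ≤ m) (h3 : ∀ z ∈ Set.Icc z₀ z₁, 1 ≤ m * (ε * ψ' z))
    (h4 : |ψ z₁ - ψ z₀| ≤ 12) :
    ∫ z in z₀..z₁, P_CV D c (ψ z) ≤ 4 * Real.pi * m * N2 D c := by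
  have hψ : ContinuousOn (P_CV D c ∘ ψ) (Set.Icc z₀ z₁) :=
    (cont_CV D c).comp_continuousOn fun z hz => (h1 z hz).continuousAt.continuousWithinAt
  have e := intervalIntegral.integral_comp_mul_deriv (Set.uIcc_of_le hz ▸ h1)
    (Set.uIcc_of_le hz ▸ h2) (cont_CV D c)
  have h5 : ∫ z in z₀..z₁, P_CV D c (ψ z) ≤
      ∫ z in z₀..z₁, m * ε * ((P_CV D c ∘ ψ) z * ψ' z) := by
    refine intervalIntegral.integral_mono_on hz (hψ.intervalIntegrable_of_Icc hz)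
      ((continuousOn_const.mul (hψ.mul h2)).intervalIntegrable_of_Icc hz) fun z hz => ?_
    have := le_mul_of_one_le_right (show 0 ≤ P_CV D c (ψ z) from sq_nonneg _) (h3 z hz)
    simp only [Function.comp_apply]
    linarith
  rw [intervalIntegral.integral_const_mul, e, mul_assoc] at h5
  have h6 := (le_abs_self _).trans ((abs_mul _ _).le.trans
    (mul_le_mul hε (abs_CV D c h4) (abs_nonneg _) zero_le_one))
  have := mul_le_mul_of_nonneg_left h6 hm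
  linarith

lemma log_CV {a x y : ℝ} (ha : 0 < a) (hx : x ∈ Set.Icc (a / 6) (6 * a))
    (hy : y ∈ Set.Icc (a / 6) (6 * a)) : Real.log x - Real.log y ≤ 6 := by
  have hx0 : 0 < x := by linarith [hx.1]
  have hy0 : 0 < y := by linarith [hy.1]
  have he : (36 : ℝ) ≤ Real.exp 6 := by
    have := Real.sum_le_exp_of_nonneg (x := 6) (by norm_num) 4
    simp only [sum_range_succ, Nat.factorial] at this
    norm_num at this
    linarith
  rw [← Real.log_div hx0.ne' hy0.ne', Real.log_le_iff_le_exp (div_pos hx0 hy0)]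
  refine le_trans ((div_le_iff₀ hy0).2 ?_) he
  linarith [hx.2, hy.1]

theorem cv_stmt : CVStmt := by
  refine ⟨4 * Real.pi * 72, by positivity, fun a b κ σ z₀ z₁ hL D c => ?_⟩
  have hp := fun z (hz : z ∈ Set.Icc z₀ z₁) => hL.pos hz
  obtain ⟨a0, a1, b0, b1, hσ, hκ, hz, hm⟩ := hL
  have m0 := hm z₀ ⟨le_rfl, hz⟩
  have m1 := hm z₁ ⟨hz, le_rfl⟩
  have l1 := log_CV a0 m0.1 m1.1
  have l2 := log_CV a0 m1.1 m0.1
  have l3 := log_CV b0 m0.2 m1.2
  have l4 := log_CV b0 m1.2 m0.2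
  have hw : ∀ z, HasDerivAt (fun z => κ + σ * z) σ z := fun z => by
    simpa using ((hasDerivAt_id z).const_mul σ).const_add κ
  have cw : ContinuousOn (fun z => κ + σ * z) (Set.Icc z₀ z₁) := by fun_prop
  refine ⟨?_, ?_, ?_⟩
  · refine sub_CV D c (ε := 1) hz (fun z h => Real.hasDerivAt_log (hp z h).1.ne')
      (continuousOn_id.inv₀ fun z h => (hp z h).1.ne') abs_one.le (by norm_num) (fun z h => ?_)
      (abs_le.2 ⟨by linarith, by linarith⟩)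
    rw [one_mul, ← div_eq_mul_inv, one_le_div (hp z h).1]
    linarith [(hm z h).1.2]
  · have := sub_CV D c (ε := -σ) (m := 72) hz (fun z h => ((hw z).log (hp z h).2.ne').fun_neg)
      (continuousOn_const.div cw fun z h => (hp z h).2.ne').neg
      (by rcases hσ with rfl | rfl <;> simp) (by norm_num) (fun z h => by
        have e : σ * σ = 1 := by rcases hσ with rfl | rfl <;> simp
        rw [neg_mul_neg, ← mul_div_assoc, e, mul_one_div, one_le_div (hp z h).2]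
        linarith [(hm z h).2.2]) (abs_le.2 ⟨by linarith, by linarith⟩)
    refine le_of_eq_of_le (intervalIntegral.integral_congr fun z _ => ?_) this
    simp only [P_CV, pw, Complex.ofReal_neg, mul_neg, neg_mul]
  · obtain ⟨ε, hs, he⟩ : ∃ ε : ℝ, |ε| ≤ 1 ∧ |κ| = -ε * κ := by
      rcases abs_cases κ with h | h
      · exact ⟨-1, by simp, by linarith [h.1]⟩
      · exact ⟨1, by simp, by linarith [h.1]⟩
    have := sub_CV D c (ψ := fun z => Real.log (κ + σ * z) - Real.log z) (ε := ε)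
      (m := 72 * (a * b)) hz
      (fun z h => ((hw z).log (hp z h).2.ne').fun_sub (Real.hasDerivAt_log (hp z h).1.ne'))
      ((continuousOn_const.div cw fun z h => (hp z h).2.ne').sub
        (continuousOn_id.inv₀ fun z h => (hp z h).1.ne'))
      hs (by positivity) (fun z h => by
        obtain ⟨p1, p2⟩ := hp z h
        have e : ε * (σ / (κ + σ * z) - z⁻¹) = |κ| / (z * (κ + σ * z)) := by
          rw [he]
          field_simp
          ring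
        rw [e, ← mul_div_assoc, one_le_div (mul_pos p1 p2)]
        have := mul_le_mul (hm z h).1.2 (hm z h).2.2 p2.le (by positivity)
        have := mul_le_mul_of_nonneg_left hκ (mul_pos a0 b0).le
        linarith) (abs_le.2 ⟨by linarith, by linarith⟩)
    refine le_of_eq_of_le (intervalIntegral.integral_congr fun z h => ?_) (this.trans_eq (by ring))
    rw [Set.uIcc_of_le hz] at h
    simp only [P_CV, pw, Real.log_div (hp z h).2.ne' (hp z h).1.ne']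

lemma cs_CV {f g : ℝ → ℝ} {z₀ z₁ A B : ℝ} (hz : z₀ ≤ z₁) (hf : ContinuousOn f (Set.Icc z₀ z₁))
    (hg : ContinuousOn g (Set.Icc z₀ z₁)) (hA : ∫ z in z₀..z₁, f z ^ 2 ≤ A)
    (hB : ∫ z in z₀..z₁, g z ^ 2 ≤ B) : ∫ z in z₀..z₁, f z * g z ≤ √A * √B := by
  have h0 : 0 ≤ A := (intervalIntegral.integral_nonneg hz fun _ _ => sq_nonneg _).trans hA
  have i1 : IntervalIntegrable (fun z => f z ^ 2) MeasureTheory.volume z₀ z₁ :=
    (hf.pow 2).intervalIntegrable_of_Icc hz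
  have i2 : IntervalIntegrable (fun z => f z * g z) MeasureTheory.volume z₀ z₁ :=
    (hf.mul hg).intervalIntegrable_of_Icc hz
  have i3 : IntervalIntegrable (fun z => g z ^ 2) MeasureTheory.volume z₀ z₁ :=
    (hg.pow 2).intervalIntegrable_of_Icc hz
  have h := discrim_le_zero (a := A) (b := 2 * ∫ z in z₀..z₁, f z * g z) (c := B) fun t => by
    have h1 : 0 ≤ ∫ z in z₀..z₁, (t ^ 2 * f z ^ 2 + 2 * t * (f z * g z) + g z ^ 2) :=
      intervalIntegral.integral_nonneg hz fun z _ => by nlinarith [sq_nonneg (t * f z + g z)]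
    rw [intervalIntegral.integral_add ((i1.const_mul _).add (i2.const_mul _)) i3,
      intervalIntegral.integral_add (i1.const_mul _) (i2.const_mul _),
      intervalIntegral.integral_const_mul, intervalIntegral.integral_const_mul] at h1
    nlinarith [mul_le_mul_of_nonneg_left hA (sq_nonneg t)]
  rw [← Real.sqrt_mul h0]
  refine Real.le_sqrt_of_sq_le ?_
  rw [discrim] at h
  linarith

theorem gl2_stmt (h : CVStmt) : GL2Stmt := by
  obtain ⟨C, hC, h⟩ := h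
  refine ⟨C, hC, fun a b κ σ z₀ z₁ hL D u v => ?_⟩
  have hz := hL.2.2.2.2.2.2.1
  have c1 : ∀ ρ : ℝ, ContinuousOn (fun z => pw z ρ) (Set.Icc z₀ z₁) := fun ρ =>
    (continuousOn_pw ρ).mono fun z hz => (hL.pos hz).1
  have c2 : ∀ ρ : ℝ, ContinuousOn (fun z => pw (κ + σ * z) ρ) (Set.Icc z₀ z₁) := fun ρ =>
    (continuousOn_pw ρ).comp (by fun_prop) fun z hz => (hL.pos hz).2
  have c3 : ∀ ρ₁ ρ₂ : ℤ, ContinuousOn
      (fun z => u ρ₁ * pw z ρ₁ * (v ρ₂ * pw (κ + σ * z) (-(ρ₂ : ℝ)))) (Set.Icc z₀ z₁) :=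
    fun _ _ => (continuousOn_const.mul (c1 _)).mul (continuousOn_const.mul (c2 _))
  have e : Bil D u v (fun ρ₁ ρ₂ => Gam κ σ z₀ z₁ ρ₁ ρ₂) = ∫ z in z₀..z₁,
      (∑ ρ ∈ D, u ρ * pw z ρ) * ∑ ρ ∈ D, v ρ * pw (κ + σ * z) (-(ρ : ℝ)) := by
    simp only [sum_mul_sum]
    rw [intervalIntegral.integral_finsetSum fun ρ _ =>
      (continuousOn_finsetSum _ fun _ _ => c3 _ _).intervalIntegrable_of_Icc hz]
    refine sum_congr rfl fun ρ₁ _ => ?_
    rw [intervalIntegral.integral_finsetSum fun ρ _ => (c3 _ _).intervalIntegrable_of_Icc hz]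
    refine sum_congr rfl fun ρ₂ _ => ?_
    simp only [Gam]
    rw [← intervalIntegral.integral_const_mul]
    exact intervalIntegral.integral_congr fun z _ => mul_mul_mul_comm _ _ _ _
  rw [e]
  refine (intervalIntegral.norm_integral_le_integral_norm hz).trans ?_
  simp only [norm_mul]
  refine (cs_CV hz (continuousOn_finsetSum _ fun _ _ => continuousOn_const.mul (c1 _)).norm
    (continuousOn_finsetSum _ fun _ _ => continuousOn_const.mul (c2 _)).norm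
    (h a b κ σ z₀ z₁ hL D u).1 (h a b κ σ z₀ z₁ hL D v).2.1).trans_eq ?_
  rw [Real.sqrt_mul hC.le, Real.sqrt_mul hC.le, mul_mul_mul_comm, Real.mul_self_sqrt hC.le,
    mul_assoc]

end Pool.Agent.MP_2a1f0e_nt.GM2

end

section

set_option autoImplicit false

open Finset

namespace Pool.Agent.MP_2a1f0e_nt.GM2

open GM

open MeasureTheory

lemma series_Red {α : Type*} [MeasurableSpace α] {μ : Measure α} {F : α → ℂ} {G : ℤ → α → ℝ}
    {d : ℤ → ℝ} {Y : ℝ} (hd : Summable d) (d0 : ∀ k, 0 ≤ d k) (hG : ∀ k, Integrable (G k) μ)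
    (G0 : ∀ k x, 0 ≤ G k x) (hY : ∀ k, ∫ x, G k x ∂μ ≤ Y)
    (hF : ∀ᵐ x ∂μ, ∃ f : ℤ → ℂ, HasSum f (F x) ∧ ∀ k, ‖f k‖ ≤ d k * G k x) :
    ‖∫ x, F x ∂μ‖ ≤ (∑' k, d k) * Y := by
  have Y0 : 0 ≤ Y := (integral_nonneg (G0 0)).trans (hY 0)
  rw [← ENNReal.ofReal_le_ofReal_iff (mul_nonneg (tsum_nonneg d0) Y0), ofReal_norm,
    ← tsum_mul_right, ENNReal.ofReal_tsum_of_nonneg (fun k => mul_nonneg (d0 k) Y0)
      (hd.mul_right Y)]
  calc ‖∫ x, F x ∂μ‖ₑ ≤ ∫⁻ x, ‖F x‖ₑ ∂μ := enorm_integral_le_lintegral_enorm F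
    _ ≤ ∫⁻ x, ∑' k, ENNReal.ofReal (d k * G k x) ∂μ := by
      refine lintegral_mono_ae (hF.mono fun x hx => ?_)
      obtain ⟨f, h1, h2⟩ := hx
      rw [← h1.tsum_eq]
      refine enorm_tsum_le_tsum_enorm.trans (ENNReal.tsum_le_tsum fun k => ?_)
      rw [← ofReal_norm]
      exact ENNReal.ofReal_le_ofReal (h2 k)
    _ = ∑' k, ∫⁻ x, ENNReal.ofReal (d k * G k x) ∂μ :=
      lintegral_tsum fun k => ((hG k).const_mul _).aemeasurable.ennreal_ofReal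
    _ ≤ _ := by
      refine ENNReal.tsum_le_tsum fun k => ?_
      rw [← ofReal_integral_eq_lintegral_ofReal ((hG k).const_mul _)
        (Filter.Eventually.of_forall fun x => mul_nonneg (d0 k) (G0 k x)), integral_const_mul]
      exact ENNReal.ofReal_le_ofReal (mul_le_mul_of_nonneg_left (hY k) (d0 k))

lemma box_Red {E : Type*} [NormedAddCommGroup E] [NormedSpace ℝ E] {a b c d : ℝ} (hab : a ≤ b)
    (hcd : c ≤ d) (f : ℝ → ℝ → E)
    (hf : ContinuousOn (fun p : ℝ × ℝ => f p.1 p.2) (Set.Icc a b ×ˢ Set.Icc c d)) :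
    Integrable (fun p : ℝ × ℝ => f p.1 p.2)
      (((volume : Measure ℝ).prod volume).restrict (Set.Ioc a b ×ˢ Set.Ioc c d)) ∧
    ∫ z in a..b, ∫ w in c..d, f z w = ∫ p, f p.1 p.2
      ∂(((volume : Measure ℝ).prod volume).restrict (Set.Ioc a b ×ˢ Set.Ioc c d)) := by
  have h : IntegrableOn (fun p : ℝ × ℝ => f p.1 p.2) (Set.Ioc a b ×ˢ Set.Ioc c d)
      ((volume : Measure ℝ).prod volume) :=
    (hf.integrableOn_compact (isCompact_Icc.prod isCompact_Icc)).mono_set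
      (Set.prod_mono Set.Ioc_subset_Icc_self Set.Ioc_subset_Icc_self)
  refine ⟨h, ?_⟩
  rw [setIntegral_prod _ h, intervalIntegral.integral_of_le hab]
  simp only [intervalIntegral.integral_of_le hcd]

lemma sum_Red {α ι : Type*} [MeasurableSpace α] {μ : Measure α} {s : Finset ι} {f : ι → α → ℂ}
    {I : ι → ℂ} (h : ∀ i ∈ s, Integrable (f i) μ ∧ I i = ∫ x, f i x ∂μ) :
    Integrable (fun x => ∑ i ∈ s, f i x) μ ∧ ∑ i ∈ s, I i = ∫ x, ∑ i ∈ s, f i x ∂μ :=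
  ⟨integrable_finsetSum _ fun i hi => (h i hi).1, by
    rw [integral_finsetSum _ fun i hi => (h i hi).1]
    exact sum_congr rfl fun i hi => (h i hi).2⟩

lemma cont_R4_Red {α : Type*} [TopologicalSpace α] [FirstCountableTopology α] {u : ℝ}
    (hu : u ∈ Set.Icc (1 / 2 : ℝ) 1) {p q ξ : α → ℝ} (hp : Continuous p) (hq : Continuous q)
    (hξ : Continuous ξ) : Continuous fun x => R4 u (p x) (q x) (ξ x) := by
  have e : ∀ p q ξ : ℝ, R4 u p q ξ = ∫ r in (0 : ℝ)..5,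
      ((r ^ 2 * Wt (r * u) * Wt (r * p) * Wt (r * q) : ℝ) : ℂ) * ex (-(ξ * r)) := by
    intro p q ξ
    symm
    apply intervalIntegral.integral_eq_integral_of_support_subset
    intro r hr
    have hW : Wt (r * u) ≠ 0 := fun h0 => hr (by simp [h0])
    obtain ⟨a1, a2⟩ := mem_of_Wt_ne_zero hW
    have h0 : 0 < r := by
      by_contra hc
      nlinarith [hu.1, not_lt.1 hc]
    exact ⟨h0, by nlinarith [hu.1]⟩
  simp only [e]
  apply intervalIntegral.continuous_parametric_intervalIntegral_of_continuous'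
  have h1 := continuous_Wt
  have h2 := continuous_ex
  unfold Function.uncurry
  fun_prop

lemma mem_Red {M M₃ n : ℕ} (h1 : 1 ≤ M) (h3 : 1 ≤ M₃) (hn : n ∈ Ico M (2 * M)) {z : ℝ}
    (hz : z ∈ Set.Icc ((M : ℝ) / M₃ / 6) (6 * (M / M₃))) :
    z * M₃ / n ∈ Set.Icc (1 / 12 : ℝ) 6 := by
  obtain ⟨a1, a2⟩ := mem_Ico.1 hn
  have b0 : (0 : ℝ) < M := by exact_mod_cast h1
  have b1 : (M : ℝ) ≤ n := by exact_mod_cast a1
  have b2 : (n : ℝ) ≤ 2 * M := by exact_mod_cast a2.le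
  have b3 : (0 : ℝ) < M₃ := by exact_mod_cast h3
  obtain ⟨c1, c2⟩ := hz
  rw [div_right_comm, div_le_iff₀ b3] at c1
  rw [← mul_div_assoc, le_div_iff₀ b3] at c2
  constructor
  · rw [le_div_iff₀ (by linarith)]
    linarith
  · rw [div_le_iff₀ (by linarith)]
    linarith

lemma memu_Red {M n : ℕ} (h1 : 1 ≤ M) (hn : n ∈ Ico M (2 * M)) :
    (M : ℝ) / n ∈ Set.Icc (1 / 2 : ℝ) 1 := by
  obtain ⟨a1, a2⟩ := mem_Ico.1 hn
  have b0 : (0 : ℝ) < M := by exact_mod_cast h1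
  have b1 : (M : ℝ) ≤ n := by exact_mod_cast a1
  have b2 : (n : ℝ) ≤ 2 * M := by exact_mod_cast a2.le
  constructor
  · rw [le_div_iff₀ (by linarith)]
    linarith
  · rw [div_le_iff₀ (by linarith)]
    linarith

lemma FT3_Red (s : Finset ℤ) (g : ℤ → ℝ) {v w : ℝ} (hv : v ≠ 0) (hw : w ≠ 0) (K R : ℂ) :
    ∑ a ∈ s, ∑ b ∈ s, ∑ c ∈ s, ((g a * g b * g c : ℝ) : ℂ) *
      (K * (pw v ((a : ℝ) - b) * pw w ((b : ℝ) - c) * R)) =
      K * (FT s g v * FT s g (w / v) * FT s g w⁻¹) * R := by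
  unfold FT
  rw [sum_mul_sum, sum_mul, mul_sum, sum_mul]
  refine sum_congr rfl fun a _ => ?_
  rw [sum_mul, mul_sum, sum_mul]
  refine sum_congr rfl fun b _ => ?_
  rw [mul_sum, mul_sum, sum_mul]
  refine sum_congr rfl fun c _ => ?_
  rw [pw_div hw hv, pw_inv, sub_eq_add_neg, sub_eq_add_neg, pw_add, pw_add]
  push_cast
  ring

theorem red_stmt (hK : Key2Stmt) (hR : RexpStmt) (hP : PsiStmt) : RedStmt := by
  obtain ⟨c, hc, hR⟩ := hR
  obtain ⟨C, hC, hP⟩ := hP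
  have t0 : 0 ≤ ∑' k : ℤ, ‖c k‖ * (1 + |(k : ℝ)|) ^ 2 := tsum_nonneg fun k => by positivity
  refine ⟨C * (∑' k : ℤ, ‖c k‖ * (1 + |(k : ℝ)|) ^ 2 + 1), by positivity, ?_⟩
  intro N M₁ M₂ M₃ S₁ S₂ S₃ e₁ e₂ e₃ Y s g h₁ h₂ h₃ hY
  have m1 : (0 : ℝ) < M₁ := by exact_mod_cast h₁.1
  have m2 : (0 : ℝ) < M₂ := by exact_mod_cast h₂.1
  have m3 : (0 : ℝ) < M₃ := by exact_mod_cast h₃.1
  have a1 : (0 : ℝ) < M₁ / M₃ := by positivity
  have a2 : (0 : ℝ) < M₂ / M₃ := by positivity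
  have b1 : (M₁ : ℝ) / M₃ / 6 ≤ 6 * (M₁ / M₃) := by linarith
  have b2 : (M₂ : ℝ) / M₃ / 6 ≤ 6 * (M₂ / M₃) := by linarith
  have Y0 : 0 ≤ Y := le_trans (intervalIntegral.integral_nonneg b1 fun z _ =>
    intervalIntegral.integral_nonneg b2 fun w _ =>
      mul_nonneg (kp_pos _).le (Hf_nonneg _ _ _ _ _ _ _ _)) (hY 0 fun n _ => by simp)
  have z0 : ∀ p ∈ Set.Icc ((M₁ : ℝ) / M₃ / 6) (6 * (M₁ / M₃)) ×ˢ
      Set.Icc ((M₂ : ℝ) / M₃ / 6) (6 * (M₂ / M₃)), 0 < p.1 := fun p hp => by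
    linarith [hp.1.1]
  have w0 : ∀ p ∈ Set.Icc ((M₁ : ℝ) / M₃ / 6) (6 * (M₁ / M₃)) ×ˢ
      Set.Icc ((M₂ : ℝ) / M₃ / 6) (6 * (M₂ / M₃)), 0 < p.2 := fun p hp => by
    linarith [hp.2.1]
  have n0 : ∀ {M : ℕ} {S : Finset ℕ}, Dy M S → ∀ n ∈ S, (0 : ℝ) < n := fun h n hn => by
    exact_mod_cast h.one_le n hn
  have eQ : Qb N s g S₁ S₂ S₃ e₁ e₂ e₃ = ∫ p : ℝ × ℝ,
      ∑ n₁ ∈ S₁, ∑ n₂ ∈ S₂, ∑ n₃ ∈ S₃, ∑ a ∈ s, ∑ b ∈ s, ∑ c ∈ s, ((g a * g b * g c : ℝ) : ℂ) *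
        ((((M₃ : ℝ) ^ 3 / (n₁ * n₂ * n₃) : ℝ) : ℂ) *
          (pw (p.1 * n₃ / n₁) ((a : ℝ) - b) * pw (p.2 * n₃ / n₂) ((b : ℝ) - c) *
            R4 (M₃ / n₃) (p.1 * M₃ / n₁) (p.2 * M₃ / n₂)
              (M₃ * (e₁ * N * p.1 + e₂ * N * p.2 + e₃ * N))))
      ∂(((volume : Measure ℝ).prod volume).restrict
        (Set.Ioc ((M₁ : ℝ) / M₃ / 6) (6 * (M₁ / M₃)) ×ˢ
          Set.Ioc ((M₂ : ℝ) / M₃ / 6) (6 * (M₂ / M₃)))) := by
    refine (sum_Red fun n₁ k₁ => sum_Red fun n₂ k₂ => sum_Red fun n₃ k₃ => sum_Red fun a _ =>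
      sum_Red fun b _ => sum_Red fun c _ => ?_).2
    obtain ⟨i1, i2⟩ := box_Red b1 b2 (fun z w =>
      pw (z * n₃ / n₁) ((a : ℝ) - b) * pw (w * n₃ / n₂) ((b : ℝ) - c) *
        R4 (M₃ / n₃) (z * M₃ / n₁) (w * M₃ / n₂) (M₃ * (e₁ * N * z + e₂ * N * w + e₃ * N)))
      ((((continuousOn_pw _).comp (by fun_prop) fun p hp =>
          div_pos (mul_pos (z0 p hp) (n0 h₃ _ k₃)) (n0 h₁ _ k₁)).mul
        ((continuousOn_pw _).comp (by fun_prop) fun p hp =>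
          div_pos (mul_pos (w0 p hp) (n0 h₃ _ k₃)) (n0 h₂ _ k₂))).mul
        (cont_R4_Red (memu_Red h₃.1 (h₃.2 k₃)) (by fun_prop) (by fun_prop)
          (by fun_prop)).continuousOn)
    refine ⟨(i1.const_mul _).const_mul _, ?_⟩
    rw [integral_const_mul, integral_const_mul, ← i2,
      hK M₁ M₂ M₃ n₁ n₂ n₃ _ _ _ _ _ _ (h₁.2 k₁) (h₂.2 k₂) (h₃.2 k₃) (by ring)]
  let γ : ℤ → ℕ → ℂ := fun k n => (((M₃ : ℝ) / n : ℝ) : ℂ) * pw ((M₃ : ℝ) / n) k
  have hγ : ∀ k, ∀ n ∈ S₃, ‖γ k n‖ ≤ 1 := fun k n hn => by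
    have := memu_Red h₃.1 (h₃.2 hn)
    rw [norm_mul, norm_pw, mul_one, Complex.norm_real, Real.norm_of_nonneg (by linarith [this.1])]
    exact this.2
  have hG := fun k => box_Red b1 b2 (fun z w =>
    kp ((N : ℝ) * M₃ * (e₁ * z + e₂ * w + e₃)) * Hf s g S₁ S₂ S₃ (γ k) z w)
    ((continuous_kp.comp (by fun_prop)).continuousOn.mul
      (continuousOn_Hf s g h₁.one_le h₂.one_le h₃.one_le (γ k) continuousOn_fst continuousOn_snd
        z0 w0))
  rw [eQ]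
  refine (series_Red (Y := Y)
    (hc.mul_left (C * ((M₃ : ℝ) ^ 2 / (M₁ * M₂)))) (fun k => by positivity) (fun k => (hG k).1)
    (fun k p => mul_nonneg (kp_pos _).le (Hf_nonneg _ _ _ _ _ _ _ _))
    (fun k => (hG k).2.symm.le.trans (hY _ (hγ k))) ?_).trans ?_
  · refine (ae_restrict_mem (measurableSet_Ioc.prod measurableSet_Ioc)).mono fun p hp => ?_
    obtain ⟨z, w⟩ := p
    have hz : z ∈ Set.Icc _ _ := Set.Ioc_subset_Icc_self hp.1
    have hw : w ∈ Set.Icc _ _ := Set.Ioc_subset_Icc_self hp.2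
    have z1 : 0 < z := z0 (z, w) ⟨hz, hw⟩
    have w1 : 0 < w := w0 (z, w) ⟨hz, hw⟩
    simp only
    rw [show (M₃ : ℝ) * (e₁ * N * z + e₂ * N * w + e₃ * N) =
      (N : ℝ) * M₃ * (e₁ * z + e₂ * w + e₃) by ring]
    generalize (N : ℝ) * M₃ * (e₁ * z + e₂ * w + e₃) = ξ
    refine ⟨fun k => ∑ n₁ ∈ S₁, ∑ n₂ ∈ S₂,
      c k * (((M₃ : ℝ) ^ 2 / (n₁ * n₂) : ℝ) : ℂ) * Psi k (z * M₃ / n₁) (w * M₃ / n₂) ξ *
        (FT s g (w / z * n₁ / n₂) * Inn s g S₃ (γ k) z w n₁ n₂),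
      hasSum_sum fun n₁ k₁ => hasSum_sum fun n₂ k₂ => ?_, fun k => ?_⟩
    · simp only [Inn, mul_sum S₃]
      refine hasSum_sum fun n₃ k₃ => ?_
      have p1 := n0 h₁ _ k₁
      have p2 := n0 h₂ _ k₂
      have p3 := n0 h₃ _ k₃
      rw [FT3_Red s g (by positivity) (by positivity),
        show w * n₃ / n₂ / (z * n₃ / n₁) = w / z * n₁ / n₂ by field_simp, inv_div]
      refine Eq.mp (congrArg₂ (HasSum · ·) (funext fun k => ?_) rfl)
        ((hR _ _ (w * M₃ / n₂) ξ (memu_Red h₃.1 (h₃.2 k₃))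
          (mem_Red h₁.1 h₃.1 (h₁.2 k₁) hz)).mul_left _)
      rw [show (M₃ : ℝ) ^ 3 / (n₁ * n₂ * n₃) = (M₃ : ℝ) ^ 2 / (n₁ * n₂) * (M₃ / n₃) by field_simp,
        Complex.ofReal_mul]
      simp only [γ]
      ring
    · unfold Hf
      rw [← mul_assoc, mul_sum]
      refine norm_sum_le_of_le _ fun n₁ k₁ => ?_
      rw [mul_sum]
      refine norm_sum_le_of_le _ fun n₂ k₂ => ?_
      have p1 : (M₁ : ℝ) ≤ n₁ := by exact_mod_cast (mem_Ico.1 (h₁.2 k₁)).1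
      have p2 : (M₂ : ℝ) ≤ n₂ := by exact_mod_cast (mem_Ico.1 (h₂.2 k₂)).1
      have p3 := hP k _ _ ξ (mem_Red h₁.1 h₃.1 (h₁.2 k₁) hz) (mem_Red h₂.1 h₃.1 (h₂.2 k₂) hw)
      have p4 : (M₃ : ℝ) ^ 2 / (n₁ * n₂) ≤ (M₃ : ℝ) ^ 2 / (M₁ * M₂) := by gcongr
      rw [norm_mul, norm_mul, norm_mul, norm_mul, Complex.norm_real,
        Real.norm_of_nonneg (by positivity)]
      refine mul_le_mul_of_nonneg_right ?_ (by positivity)
      calc _ ≤ ‖c k‖ * ((M₃ : ℝ) ^ 2 / (M₁ * M₂)) * (C * (1 + |(k : ℝ)|) ^ 2 * kp ξ) := by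
            gcongr
        _ = _ := by ring
  · rw [tsum_mul_left]
    refine mul_le_mul_of_nonneg_right ?_ Y0
    have : 0 ≤ C * ((M₃ : ℝ) ^ 2 / (M₁ * M₂)) := by positivity
    linarith

end Pool.Agent.MP_2a1f0e_nt.GM2

end
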