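import Pool.Agent.MP_2a1f0e_nt.GM2.Defs
import Pool.Agent.Mg.C853.G3e49c7
import Pool.Agent.MP_2a1f0e_nt.GM.Cub

section

set_option autoImplicit false

open Finset

namespace Pool.Agent.MP_2a1f0e_nt.GM3

open GM GM2

/-- `L1` norm of `FT` over one period in the logarithmic variable -/
noncomputable def N1 (s : Finset ℤ) (g : ℤ → ℝ) : ℝ :=
  ∫ u in (-Real.pi)..Real.pi, ‖FT s g (Real.exp u)‖

/-- the right side of the improved cubic bound -/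
noncomputable def W3 (N M : ℕ) (Δ B X y : ℝ) : ℝ :=
  Δ ^ 10 * y ^ 57 * (X * √X) + M * Δ * B * X + (M : ℝ) ^ 3 * B * X / N +
    M * Δ * B * √(R2 N M Δ) * (B + y ^ 3 * √X) * √X + (M : ℝ) ^ 2 * Δ * B ^ 3 * R2 N M Δ

/-- peak dominated frequency -/
def Pk (C : ℝ) (M : ℕ) (u : ℝ) : Prop := ‖KK M u‖ ≤ C * (M * kp u)

/-- splitting by convex minimisation -/
def KktStmt : Prop := ∀ (s : Finset ℤ) (g : ℤ → ℝ) (A μ : ℝ), 0 < A → 0 < μ →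
  ∃ f e h : ℤ → ℝ, (∀ t, t ∉ s → f t = 0) ∧ (∀ t, t ∉ s → h t = 0) ∧
    (∀ t ∈ s, g t = f t + e t + h t) ∧
    ∑ t ∈ s, f t ^ 2 + 2 * A * N1 s e + 2 * μ * ∑ t ∈ s, |h t| ≤ ∑ t ∈ s, g t ^ 2 ∧
    (∀ d : ℤ → ℝ, ∑ t ∈ s, f t * d t ≤ A * N1 s d) ∧ ∀ t ∈ s, |f t| ≤ μ

/-- `L1` norm of a shifted Dirichlet kernel -/
def DirStmt : Prop := ∃ C : ℝ, 0 < C ∧ ∀ L : ℕ, 1 ≤ L → ∀ x α : ℝ,
  N1 (Io L) (fun t => Real.cos ((t : ℝ) * x + α)) ≤ C * ((Nat.log 2 L : ℝ) + 1)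

def NOneStmt : Prop := ∃ C : ℝ, 0 < C ∧ ∀ (s : Finset ℤ) (g : ℤ → ℝ),
  II (fun v => ‖FT s g v‖) ≤ C * N1 s g

def Dec3Stmt : Prop := ∃ C : ℝ, 1 ≤ C ∧ ∀ (L : ℕ) (g : ℤ → ℝ) (A μ X : ℝ), 1 ≤ L → 0 < A →
  0 < μ → ∑ t ∈ Io L, g t ^ 2 ≤ X → ∃ f h : ℤ → ℝ, Sup L f ∧ ∑ t ∈ Io L, f t ^ 2 ≤ X ∧
    (∀ v, ‖FT (Io L) f v‖ ≤ C * ((Nat.log 2 L : ℝ) + 1) * A) ∧ (∀ t, |f t| ≤ μ) ∧
    ∑ t ∈ Io L, |h t| ≤ X / μ ∧
    II (fun v => ‖FT (Io L) (fun t => g t - f t - h t) v‖) ≤ C * (X / A)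

def KsupStmt : Prop := ∃ C : ℝ, 0 < C ∧ ∀ N M : ℕ, 1 ≤ N → ∀ u : ℤ,
  ‖Kb N M (u : ℝ)‖ ^ 2 ≤ C * (N * M)

def HOneStmt : Prop := ∃ C : ℝ, 0 < C ∧ ∀ (N M : ℕ) (Δ : ℝ), 1 ≤ N → DivB ((3 * N + 1) * M) Δ →
  ∀ (s : Finset ℤ) (a : ℤ → ℝ) (t : ℤ),
    ∑ n ∈ Icc 1 (3 * N), Wt ((n : ℝ) / N) *
      ‖∑ b ∈ s, (a b : ℂ) * Kb N M ((t : ℝ) - b) * pw (n : ℝ) b‖ ^ 2 ≤
      C * (N : ℝ) ^ 2 * M * Δ * ∑ b ∈ s, a b ^ 2

/-- signed bilinear bound -/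
def HStmt : Prop := ∃ C : ℝ, 0 < C ∧ ∀ (N M : ℕ) (Δ E X : ℝ) (s : Finset ℤ) (h a b : ℤ → ℝ),
  1 ≤ N → DivB ((3 * N + 1) * M) Δ → 0 ≤ E → HE N M s E → ∑ t ∈ s, a t ^ 2 ≤ X →
  ∑ t ∈ s, b t ^ 2 ≤ X →
  ‖Q33 N M s h a b‖ ≤ C * ((N : ℝ) ^ 2 * M * Δ + E * (N * M)) * (∑ t ∈ s, |h t|) * X

def Err3Stmt : Prop := ∃ C : ℝ, 0 < C ∧ ∀ (N M : ℕ) (Δ E A X E₁ H : ℝ) (s : Finset ℤ)
  (g f h : ℤ → ℝ), 1 ≤ N → DivB ((3 * N + 1) * M) Δ → 0 ≤ E → HE N M s E → 0 ≤ A →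
  ∑ t ∈ s, g t ^ 2 ≤ X → ∑ t ∈ s, f t ^ 2 ≤ X → (∀ v, ‖FT s g v‖ ≤ A) → (∀ v, ‖FT s f v‖ ≤ A) →
  II (fun v => ‖FT s (fun t => g t - f t - h t) v‖) ≤ E₁ → ∑ t ∈ s, |h t| ≤ H →
  ‖Q3 N M s g - Q3 N M s f‖ ≤
    C * ((N : ℝ) ^ 2 * ((M : ℝ) ^ 2 * E₁ * X + M * Δ * √(E₁ * (A + H)) * A * √X) +
      ((N : ℝ) ^ 2 * M * Δ + E * (N * M)) * H * X)

/-- pointwise bound, almost square root of the frequency -/
def OscStmt : Prop := ∃ C : ℝ, 1 ≤ C ∧ ∀ M : ℕ, 1 ≤ M → ∀ (u : ℤ) (z : ℝ), 1 ≤ z →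
  1 + |(u : ℝ)| ≤ z ^ 20 → ‖KK M (u : ℝ)‖ ≤ C * (M * kp u + z ^ 11)

def Near3Stmt : Prop := ∃ C : ℝ, 1 ≤ C ∧ ∀ y : ℝ, 1 ≤ y → ∀ M₁ M₂ : ℕ, 1 ≤ M₁ →
  (M₁ : ℝ) ≤ y ^ 30 → 1 ≤ M₂ → (M₂ : ℝ) ≤ y ^ 30 → ∀ ρ₁ ρ₂ : ℤ,
    C * y ^ 49 < ‖KK M₁ (-(ρ₁ : ℝ))‖ * ‖KK M₂ ρ₂‖ →
    (Pk C M₁ (-(ρ₁ : ℝ)) ∧ Pk C M₂ ρ₂) ∨ (Pk C M₁ (-(ρ₁ : ℝ)) ∧ y ^ 30 ≤ |(ρ₂ : ℝ)|) ∨
      (y ^ 30 ≤ |(ρ₁ : ℝ)| ∧ Pk C M₂ ρ₂) ∨ y ^ 44 ≤ max |(ρ₁ : ℝ)| |(ρ₂ : ℝ)|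

def Mid3Stmt : Prop := ∃ C : ℝ, 0 < C ∧ ∀ (y Δ : ℝ) (M R X : ℕ), 1 ≤ y → 1 ≤ M →
  (M : ℝ) ≤ y ^ 30 → (R : ℝ) ≤ 8 * y ^ 180 → 729 * y ^ 180 ≤ X → DivB X Δ →
  ∑ ρ ∈ Io R, (if y ^ 30 ≤ |(ρ : ℝ)| then ‖KK M ρ‖ ^ 2 / (1 + |(ρ : ℝ)|) else 0) ≤
    C * Δ ^ 7 * y ^ 30 ∧
  ∑ ρ ∈ Io R, (if y ^ 30 ≤ |(ρ : ℝ)| then ‖KK M (-(ρ : ℝ))‖ ^ 2 / (1 + |(ρ : ℝ)|) else 0) ≤
    C * Δ ^ 7 * y ^ 30

def Far3Stmt : Prop := ∃ C : ℝ, 0 < C ∧ ∀ (y lam Δ : ℝ) (M₁ M₂ R X : ℕ), 1 ≤ y → 1 ≤ M₁ →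
  (M₁ : ℝ) ≤ y ^ 30 → 1 ≤ M₂ → (M₂ : ℝ) ≤ y ^ 30 → (R : ℝ) ≤ 8 * y ^ 180 → 729 * y ^ 180 ≤ X →
  DivB X Δ → y ^ 49 ≤ lam →
  ∑ ρ₁ ∈ Io R, ∑ ρ₂ ∈ Io R,
    (if lam < ‖KK M₁ (-(ρ₁ : ℝ))‖ * ‖KK M₂ ρ₂‖ ∧ y ^ 44 ≤ max |(ρ₁ : ℝ)| |(ρ₂ : ℝ)| then
      (‖KK M₁ (-(ρ₁ : ℝ))‖ * ‖KK M₂ ρ₂‖) ^ 2 / (1 + |(ρ₁ : ℝ)| + |(ρ₂ : ℝ)|) else 0) ≤
    C * Δ ^ 13 * lam ^ 2

def BB3Stmt : Prop := ∃ C : ℝ, 0 < C ∧ ∀ (y Δ a b κ σ z₀ z₁ Y G : ℝ) (M₁ M₂ R X : ℕ)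
  (I : Finset (ℕ × ℕ)) (u : ℕ × ℕ → ℤ → ℂ), 1 ≤ y → 1 ≤ M₁ →
  (M₁ : ℝ) ≤ y ^ 30 → 1 ≤ M₂ → (M₂ : ℝ) ≤ y ^ 30 → (R : ℝ) ≤ 8 * y ^ 180 → 729 * y ^ 180 ≤ X →
  DivB X Δ → Line a b κ σ z₀ z₁ → ∑ i ∈ I, N2 (Io R) (u i) ≤ Y →
  (∀ ρ, ∑ i ∈ I, ‖u i ρ‖ ^ 2 ≤ G) →
  ∑ i ∈ I, ‖Bf R M₁ M₂ κ σ z₀ z₁ (u i)‖ ≤ C * (Δ ^ 7 * y ^ 49 * Y + y ^ 60 * G)

/-- bound along one segment -/
def Seg3Stmt : Prop := ∃ C : ℝ, 0 < C ∧ ∀ (y Δ X k a b κ σ z₀ z₁ : ℝ) (L M₁ M₂ M₃ Xd : ℕ)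
  (S₁ S₂ S₃ : Finset ℕ) (γ : ℕ → ℂ) (g : ℤ → ℝ), 1 ≤ y → 1 ≤ k → Dy M₁ S₁ → Dy M₂ S₂ →
  Dy M₃ S₃ → (M₁ : ℝ) ≤ y ^ 30 → (M₂ : ℝ) ≤ y ^ 30 → (M₃ : ℝ) ≤ y ^ 30 → (L : ℝ) ≤ 4 * y ^ 180 →
  729 * y ^ 180 ≤ Xd → DivB Xd Δ → Sup L g → ∑ t ∈ Io L, g t ^ 2 ≤ X →
  (∀ t, |g t| ≤ √X / y ^ 18) → (∀ v, ‖FT (Io L) g v‖ ≤ k * (y ^ 3 * √X)) →
  (∀ n ∈ S₃, ‖γ n‖ ≤ 1) → Line a b κ σ z₀ z₁ →
  (∫ z in z₀..z₁, Hf (Io L) g S₁ S₂ S₃ γ z (κ + σ * z)) ^ 2 ≤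
    C * (M₁ * M₂ * (a * b)) * (k ^ 2 * Δ ^ 8 * y ^ 114 * X ^ 3)

def Blk3Stmt : Prop := ∃ C : ℝ, 0 < C ∧ ∀ (y Δ X k e₁ e₂ e₃ : ℝ) (N L M₁ M₂ M₃ Xd : ℕ)
  (S₁ S₂ S₃ : Finset ℕ) (g : ℤ → ℝ), 1 ≤ y → 1 ≤ k → 1 ≤ N → Dy M₁ S₁ → Dy M₂ S₂ → Dy M₃ S₃ →
  M₁ ≤ M₃ → M₂ ≤ M₃ → (M₃ : ℝ) ≤ y ^ 30 → Sg e₁ → Sg e₂ → Sg e₃ → (L : ℝ) ≤ 4 * y ^ 180 →
  729 * y ^ 180 ≤ Xd → DivB Xd Δ → Sup L g → ∑ t ∈ Io L, g t ^ 2 ≤ X →
  (∀ t, |g t| ≤ √X / y ^ 18) → (∀ v, ‖FT (Io L) g v‖ ≤ k * (y ^ 3 * √X)) →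
  ‖Qb N (Io L) g S₁ S₂ S₃ e₁ e₂ e₃‖ ≤ C * (k ^ 3 * Δ ^ 4 * y ^ 57 * (X * √X) / N)

def Q4Stmt : Prop := ∃ C : ℝ, 0 < C ∧ ∀ (N M T Xd : ℕ) (Δ B X y E₀ : ℝ) (ν : ℤ → ℝ), 1 ≤ N →
  1 ≤ M → 1 ≤ T → 1 ≤ y → (M : ℝ) ≤ y ^ 30 → (T : ℝ) ≤ y ^ 180 → (3 * N + 1) * M ≤ Xd →
  729 * y ^ 180 ≤ Xd → DivB Xd Δ → 0 ≤ B → 1 ≤ E₀ → HE N M (Io (2 * (2 * T))) (E₀ * N) →
  (∀ v ∈ Set.Icc (1 / 9 : ℝ) (82 / 9), ‖FT (Io (2 * T)) ν v‖ ≤ B * (1 + rho N M v)) →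
  ∑ t ∈ Io (2 * T), ν t ^ 2 ≤ X →
  ‖Q3 N M (Io (2 * T)) ν‖ ≤ C * E₀ * (N : ℝ) ^ 2 * W3 N M Δ B X y

def Num3Stmt : Prop := ∀ δ C : ℝ, 0 < δ → 1 ≤ C → ∃ K : ℝ, 0 < K ∧
  ∀ (N T M : ℕ) (Δ B X y : ℝ), 1 ≤ N → N ≤ T → T ^ 23 ≤ N ^ 28 → 1 ≤ y → y ^ 30 = M →
    (M : ℝ) ≤ C * (N : ℝ) ^ δ * (T / N) → 1 ≤ Δ → Δ ≤ C * (N : ℝ) ^ δ → 0 ≤ B →
    B ≤ C * (N : ℝ) ^ δ * (N : ℝ) ^ 2 → 0 ≤ X →
    X ^ 3 ≤ C * (N : ℝ) ^ 3 *
      ((N : ℝ) ^ 2 * W3 N M Δ B X y + (N : ℝ) ^ δ * (T * (N : ℝ) ^ 3) * X) →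
    X ≤ K * (N : ℝ) ^ (8 * δ) * (√T * (N : ℝ) ^ 3)

def B4Stmt : Prop := ∀ ε : ℝ, 0 < ε → ∃ K : ℝ, 0 < K ∧ ∀ N T : ℕ, 1 ≤ N → N ≤ T →
  T ^ 23 ≤ N ^ 28 → ∀ b : ℕ → ℂ, (∀ n, ‖b n‖ ≤ 1) → ∀ V : ℝ, 0 < V →
    Mass N b (Icc 0 (T : ℤ)) V ≤ K * (N : ℝ) ^ ε * ((N : ℝ) ^ 2 + √T * (N : ℝ) ^ 3 / V ^ 2)

def Int3Stmt : Prop := ∀ ε : ℝ, 0 < ε → ∃ K : ℝ, 0 < K ∧ ∀ N T : ℕ, 1 ≤ N → N ≤ T →
  ∀ b : ℕ → ℂ, (∀ n, ‖b n‖ ≤ 1) → ∀ V : ℝ, 0 < V →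
    Mass N b (Icc 0 (T : ℤ)) V ≤ K * (N : ℝ) ^ ε *
      ((N : ℝ) ^ 2 + (√T * (N : ℝ) ^ 3 + T * (N : ℝ) ^ (55 / 23 : ℝ)) / V ^ 2)

def Final3Stmt : Prop := ∀ ε : ℝ, 0 < ε → ∃ K : ℝ, ∀ (N : ℕ) (T V : ℝ), 1 ≤ N → (N : ℝ) ≤ T →
  0 < V → ∀ b : ℕ → ℂ, (∀ n, ‖b n‖ ≤ 1) → ∀ W : Finset ℝ, (∀ t ∈ W, 0 ≤ t ∧ t ≤ T) →
    (∀ s ∈ W, ∀ t ∈ W, s ≠ t → 1 ≤ |s - t|) → (∀ t ∈ W, V ≤ ‖DP N b t‖) →
    (W.card : ℝ) ≤ K * (N : ℝ) ^ ε * ((N : ℝ) ^ 2 / V ^ 2 + √T * (N : ℝ) ^ 3 / V ^ 4 +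
      T * (N : ℝ) ^ (55 / 23 : ℝ) / V ^ 4)

lemma N1_nonneg (s : Finset ℤ) (g : ℤ → ℝ) : 0 ≤ N1 s g :=
  intervalIntegral.integral_nonneg (by linarith [Real.pi_pos]) fun _ _ => norm_nonneg _

lemma continuous_FT_exp (s : Finset ℤ) (g : ℤ → ℝ) : Continuous fun u => FT s g (Real.exp u) :=
  (continuousOn_FT s g).comp_continuous Real.continuous_exp fun u => Real.exp_pos u

lemma HE_mono {N M : ℕ} {I I' : Finset ℤ} {E : ℝ} (h : HE N M I E) (hI : I' ⊆ I) : HE N M I' E :=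
  fun s hs => (sum_le_sum_of_subset_of_nonneg hI fun _ _ _ => norm_nonneg _).trans (h s (hI hs))

lemma HS_mono {N M : ℕ} {b : ℕ → ℂ} {I I' : Finset ℤ} {S : ℝ} (h : HS N M b I S) (hI : I' ⊆ I) :
    HS N M b I' S :=
  fun s hs => (sum_le_sum_of_subset_of_nonneg hI fun _ _ _ => by positivity).trans (h s (hI hs))

end Pool.Agent.MP_2a1f0e_nt.GM3

end

section

set_option autoImplicit false

open Finset

namespace Pool.Agent.MP_2a1f0e_nt.GM2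

open GM

lemma far_BB (D : Finset ℤ) (a : ℤ → ℝ) (w : ℤ → ℤ → ℝ) (W : ℝ) (hW : 0 ≤ W)
    (h : ∑ r ∈ D, ∑ s ∈ D, w r s ^ 2 ≤ W ^ 2) :
    ∑ r ∈ D, ∑ s ∈ D, a r * a s * w r s ≤ (∑ r ∈ D, a r ^ 2) * W := by
  have h0 : 0 ≤ ∑ r ∈ D, a r ^ 2 := sum_nonneg fun _ _ => sq_nonneg _
  have h1 := sum_mul_sq_le_sq_mul_sq (D ×ˢ D) (fun p => a p.1 * a p.2) (fun p => w p.1 p.2)
  rw [sum_product, sum_product, sum_product] at h1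
  have h2 : ∑ r ∈ D, ∑ s ∈ D, (a r * a s) ^ 2 = (∑ r ∈ D, a r ^ 2) ^ 2 := by
    rw [sq (∑ r ∈ D, a r ^ 2), sum_mul_sum]
    exact sum_congr rfl fun r _ => sum_congr rfl fun s _ => by ring
  simp only at h1
  rw [h2] at h1
  refine (le_abs_self _).trans (abs_le_of_sq_le_sq ?_ (mul_nonneg h0 hW))
  rw [mul_pow]
  exact h1.trans (mul_le_mul_of_nonneg_left h (sq_nonneg _))

lemma near_BB {ι : Type*} (I : Finset ι) (D : Finset ℤ) (a : ι → ℤ → ℝ) (s t : ℤ → ℝ)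
    (P : ℤ → Prop) [DecidablePred P] (G : ℝ) (hs : ∀ r, 0 ≤ s r) (ht : ∀ r, 0 ≤ t r)
    (h : ∀ r, ∑ i ∈ I, a i r ^ 2 ≤ G) :
    ∑ i ∈ I, ∑ r ∈ D, ∑ q ∈ D, (if P r ∧ P q then a i r * a i q * (s r * t q) else 0) ≤
      G * ((∑ r ∈ D.filter P, s r) * ∑ q ∈ D.filter P, t q) := by
  rw [sum_comm, sum_filter, sum_filter, sum_mul_sum, mul_sum]
  refine sum_le_sum fun r _ => ?_
  rw [sum_comm, mul_sum]
  refine sum_le_sum fun q _ => ?_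
  by_cases h1 : P r
  · by_cases h2 : P q
    · simp only [h1, h2, and_self, if_true]
      rw [← sum_mul]
      refine mul_le_mul_of_nonneg_right ?_ (mul_nonneg (hs r) (ht q))
      have h3 : ∑ i ∈ I, a i r * a i q ≤ ∑ i ∈ I, (a i r ^ 2 + a i q ^ 2) / 2 :=
        sum_le_sum fun i _ => by nlinarith [sq_nonneg (a i r - a i q)]
      rw [← sum_div, sum_add_distrib] at h3
      linarith [h r, h q]
    · simp [h2]
  · simp [h1]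

lemma N2_conj_BB (D : Finset ℤ) (u : ℤ → ℂ) :
    N2 D (fun ρ => (starRingEnd ℂ) (u ρ)) = N2 D u := by
  simp [N2]

lemma pow_J_BB {y lam : ℝ} {X : ℕ} (hy : 1 ≤ y) (hX : 729 * y ^ 36 ≤ X) (hl : 1 ≤ lam) :
    (3 * y ^ 6) ^ 2 ≤ 2 ^ (Nat.log 2 X + 1) * lam := by
  have h1 : (X : ℝ) < 2 ^ (Nat.log 2 X + 1) := by
    exact_mod_cast Nat.lt_pow_succ_log_self (b := 2) (by norm_num) X
  have h2 : y ^ 12 ≤ y ^ 36 := pow_le_pow_right₀ hy (by norm_num)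
  have h3 : 0 ≤ y ^ 12 := by positivity
  have h4 : (3 * y ^ 6) ^ 2 = 9 * y ^ 12 := by ring
  have h5 : (2 : ℝ) ^ (Nat.log 2 X + 1) ≤ 2 ^ (Nat.log 2 X + 1) * lam :=
    le_mul_of_one_le_right (by positivity) hl
  linarith

lemma split_BB {a b t g lam c : ℝ} {P Q : Prop} [Decidable P] [Decidable Q] (ha : 0 ≤ a)
    (hb : 0 ≤ b) (ht : 0 ≤ t) (hg : 0 ≤ g) (hc : g ≤ c) (h : lam < t → P ∨ Q) :
    (if lam < t then a * b * t * g else 0) ≤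
      a * b * (if lam < t ∧ Q then t * g else 0) + c * (if P then a * b * t else 0) := by
  have h1 : 0 ≤ a * b * t := by positivity
  have h2 : 0 ≤ c := hg.trans hc
  have h3 : 0 ≤ a * b * (if lam < t ∧ Q then t * g else 0) := by
    split_ifs <;> positivity
  have h4 : 0 ≤ c * (if P then a * b * t else 0) := by
    split_ifs <;> positivity
  by_cases h5 : lam < t
  · rw [if_pos h5]
    rcases h h5 with h6 | h6
    · rw [if_pos h6]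
      have := mul_le_mul_of_nonneg_left hc h1
      linarith
    · rw [if_pos (And.intro h5 h6)] at h3 ⊢
      linarith
  · rw [if_neg h5]
    linarith

lemma wsq_BB {t g c m : ℝ} {P : Prop} [Decidable P] (hm : 0 < m) (h : g ^ 2 * m ≤ c) :
    (if P then t * g else 0) ^ 2 ≤ c * (if P then t ^ 2 / m else 0) := by
  split_ifs
  · have h1 : g ^ 2 ≤ c / m := (le_div_iff₀ hm).2 h
    calc (t * g) ^ 2 = t ^ 2 * g ^ 2 := by ring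
      _ ≤ t ^ 2 * (c / m) := mul_le_mul_of_nonneg_left h1 (sq_nonneg _)
      _ = c * (t ^ 2 / m) := by ring
  · simp

theorem bb_stmt (hB : BilStmt) (h2 : GL2Stmt) (hG : GamStmt) (hK : KKStmt) (hN : NearStmt)
    (hF : FarStmt) : BBStmt := by
  obtain ⟨C2, hC2, h2⟩ := h2
  obtain ⟨CG, hCG, hG⟩ := hG
  obtain ⟨CK, -, hK⟩ := hK
  obtain ⟨Cn, hCn, hN⟩ := hN
  obtain ⟨CF, hCF, hF⟩ := hF
  have hCn0 : 0 < Cn := by linarith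
  refine ⟨4 * Cn * C2 + √(CG * CF) * Cn + (CG + 1) * Cn ^ 2, by positivity, ?_⟩
  intro y Δ a b κ σ z₀ z₁ Y G M₁ M₂ R X I u hy hM₁ hM₁' hM₂ hM₂' hR hX hD hL hY hGG
  obtain ⟨hNa, hNb⟩ := hN y hy
  have hΔ : 1 ≤ Δ := hD.1
  have hy0 : 0 < y := by linarith
  have hy10 : 1 ≤ y ^ 10 := one_le_pow₀ hy
  have hlam : y ^ 10 ≤ Cn * y ^ 10 := le_mul_of_one_le_left (by positivity) hCn
  have hG0 : 0 ≤ G := (sum_nonneg fun _ _ => sq_nonneg _).trans (hGG 0)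
  have hY0 : 0 ≤ Y := (sum_nonneg fun _ _ => N2_nonneg _ _).trans hY
  have hJ : ((Nat.log 2 X + 1 : ℕ) : ℝ) + 1 ≤ 2 * Δ := by
    have := DivB_log hD le_rfl
    push_cast
    linarith
  have hΔ7 : Δ ≤ Δ ^ 7 := le_self_pow₀ hΔ (by norm_num)
  have hgam : ∀ r q : ℝ, ‖Gam κ σ z₀ z₁ r q‖ ≤ CG + 1 := fun r q => by
    have h1 := hG a b κ σ z₀ z₁ hL r q
    have h3 : ‖Gam κ σ z₀ z₁ r q‖ ^ 2 ≤ ‖Gam κ σ z₀ z₁ r q‖ ^ 2 * (1 + |r| + |q|) :=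
      le_mul_of_one_le_right (sq_nonneg _) (by linarith [abs_nonneg r, abs_nonneg q])
    nlinarith [sq_nonneg (‖Gam κ σ z₀ z₁ r q‖ - 1)]
  have hW : ∑ r ∈ Io R, ∑ q ∈ Io R,
      (if Cn * y ^ 10 < ‖KK M₁ (-(r : ℝ))‖ * ‖KK M₂ q‖ ∧ y ^ 4 ≤ max |(r : ℝ)| |(q : ℝ)| then
        ‖KK M₁ (-(r : ℝ))‖ * ‖KK M₂ q‖ * ‖Gam κ σ z₀ z₁ r q‖ else 0) ^ 2 ≤
      (√(CG * CF) * Δ ^ 7 * (Cn * y ^ 10)) ^ 2 := by
    have h1 := hF y (Cn * y ^ 10) Δ M₁ M₂ R X hy hM₁ hM₁' hM₂ hM₂' hR hX hD hlam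
    have h3 := mul_le_mul_of_nonneg_left h1 hCG.le
    rw [mul_sum] at h3
    refine le_trans (sum_le_sum fun r _ => ?_) (h3.trans ?_)
    · rw [mul_sum]
      exact sum_le_sum fun q _ => wsq_BB (by positivity) (hG a b κ σ z₀ z₁ hL r q)
    · have h4 : Δ ^ 13 ≤ Δ ^ 14 := pow_le_pow_right₀ hΔ (by norm_num)
      have h5 : √(CG * CF) ^ 2 = CG * CF := Real.sq_sqrt (by positivity)
      calc CG * (CF * Δ ^ 13 * (Cn * y ^ 10) ^ 2)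
          = CG * CF * (Cn * y ^ 10) ^ 2 * Δ ^ 13 := by ring
        _ ≤ CG * CF * (Cn * y ^ 10) ^ 2 * Δ ^ 14 :=
          mul_le_mul_of_nonneg_left h4 (by positivity)
        _ = √(CG * CF) ^ 2 * (Cn * y ^ 10) ^ 2 * Δ ^ 14 := by rw [h5]
        _ = _ := by ring
  have key : ∀ i ∈ I, ‖Bf R M₁ M₂ κ σ z₀ z₁ (u i)‖ ≤
      (4 * Cn * C2 + √(CG * CF) * Cn) * (Δ ^ 7 * y ^ 10) * N2 (Io R) (u i) +
      (CG + 1) * ∑ r ∈ Io R, ∑ q ∈ Io R, (if |(r : ℝ)| ≤ y ∧ |(q : ℝ)| ≤ y then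
        ‖u i r‖ * ‖u i q‖ * (‖KK M₁ (-(r : ℝ))‖ * ‖KK M₂ q‖) else 0) := by
    intro i _
    have h1 := hB (Io R) (u i) (fun ρ => (starRingEnd ℂ) (u i ρ)) (fun ρ => KK M₁ (-(ρ : ℝ)))
      (fun ρ => KK M₂ ρ) (fun ρ₁ ρ₂ => Gam κ σ z₀ z₁ ρ₁ ρ₂) C2 (Cn * y ^ 10) (3 * y ^ 6)
      (Nat.log 2 X + 1) hC2.le (by positivity) (by positivity)
      (h2 a b κ σ z₀ z₁ hL (Io R))
      (fun ρ _ => (hK M₁ hM₁ _).2.trans (by linarith))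
      (fun ρ _ => (hK M₂ hM₂ _).2.trans (by linarith))
      (pow_J_BB hy hX (hy10.trans hlam))
    have hn := N2_nonneg (Io R) (u i)
    rw [N2_conj_BB, mul_assoc _ (√(N2 (Io R) (u i))), Real.mul_self_sqrt hn] at h1
    simp only [Complex.norm_conj] at h1
    have h3 := far_BB (Io R) (fun r => ‖u i r‖) _ _ (by positivity) hW
    have h4 : ∑ r ∈ Io R, ∑ q ∈ Io R, (if Cn * y ^ 10 < ‖KK M₁ (-(r : ℝ))‖ * ‖KK M₂ q‖ then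
        ‖u i r‖ * ‖u i q‖ * (‖KK M₁ (-(r : ℝ))‖ * ‖KK M₂ q‖) * ‖Gam κ σ z₀ z₁ r q‖ else 0) ≤
        ∑ r ∈ Io R, ∑ q ∈ Io R, ‖u i r‖ * ‖u i q‖ *
          (if Cn * y ^ 10 < ‖KK M₁ (-(r : ℝ))‖ * ‖KK M₂ q‖ ∧ y ^ 4 ≤ max |(r : ℝ)| |(q : ℝ)| then
            ‖KK M₁ (-(r : ℝ))‖ * ‖KK M₂ q‖ * ‖Gam κ σ z₀ z₁ r q‖ else 0) +
        (CG + 1) * ∑ r ∈ Io R, ∑ q ∈ Io R, (if |(r : ℝ)| ≤ y ∧ |(q : ℝ)| ≤ y then
          ‖u i r‖ * ‖u i q‖ * (‖KK M₁ (-(r : ℝ))‖ * ‖KK M₂ q‖) else 0) := by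
      rw [mul_sum, ← sum_add_distrib]
      refine sum_le_sum fun r _ => ?_
      rw [mul_sum, ← sum_add_distrib]
      exact sum_le_sum fun q _ => split_BB (norm_nonneg _) (norm_nonneg _) (by positivity)
        (norm_nonneg _) (hgam r q) (hNb M₁ M₂ hM₁ hM₁' hM₂ hM₂' r q)
    have h5 : 2 * (Cn * y ^ 10) * (((Nat.log 2 X + 1 : ℕ) : ℝ) + 1) * C2 * N2 (Io R) (u i) ≤
        4 * Cn * C2 * (Δ ^ 7 * y ^ 10) * N2 (Io R) (u i) := by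
      refine mul_le_mul_of_nonneg_right ?_ hn
      have h6 : ((Nat.log 2 X + 1 : ℕ) : ℝ) + 1 ≤ 2 * Δ ^ 7 := by linarith
      calc 2 * (Cn * y ^ 10) * (((Nat.log 2 X + 1 : ℕ) : ℝ) + 1) * C2
          = 2 * (Cn * y ^ 10) * C2 * (((Nat.log 2 X + 1 : ℕ) : ℝ) + 1) := by ring
        _ ≤ 2 * (Cn * y ^ 10) * C2 * (2 * Δ ^ 7) := mul_le_mul_of_nonneg_left h6 (by positivity)
        _ = _ := by ring
    have h6 : (∑ r ∈ Io R, ‖u i r‖ ^ 2) * (√(CG * CF) * Δ ^ 7 * (Cn * y ^ 10)) =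
        √(CG * CF) * Cn * (Δ ^ 7 * y ^ 10) * N2 (Io R) (u i) := by
      unfold N2
      ring
    have h7 : ‖Bf R M₁ M₂ κ σ z₀ z₁ (u i)‖ ≤ _ := h1
    linarith
  have hnear := near_BB I (Io R) (fun i r => ‖u i r‖) (fun r => ‖KK M₁ (-(r : ℝ))‖)
    (fun q => ‖KK M₂ q‖) (fun r : ℤ => |(r : ℝ)| ≤ y) G (fun _ => norm_nonneg _)
    (fun _ => norm_nonneg _) hGG
  have h8 : (∑ r ∈ (Io R).filter (fun r : ℤ => |(r : ℝ)| ≤ y), ‖KK M₁ (-(r : ℝ))‖) *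
      ∑ q ∈ (Io R).filter (fun r : ℤ => |(r : ℝ)| ≤ y), ‖KK M₂ q‖ ≤ Cn * y ^ 6 * (Cn * y ^ 6) :=
    mul_le_mul (hNa M₁ hM₁ hM₁' _).2 (hNa M₂ hM₂ hM₂' _).1
      (sum_nonneg fun _ _ => norm_nonneg _) (by positivity)
  have h9 := hnear.trans (mul_le_mul_of_nonneg_left h8 hG0)
  refine (sum_le_sum key).trans ?_
  rw [sum_add_distrib, ← mul_sum, ← mul_sum]
  have h10 := mul_le_mul_of_nonneg_left h9 (show 0 ≤ CG + 1 by positivity)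
  have h11 := mul_le_mul_of_nonneg_left hY
    (show 0 ≤ (4 * Cn * C2 + √(CG * CF) * Cn) * (Δ ^ 7 * y ^ 10) by positivity)
  have h12 : 0 ≤ (4 * Cn * C2 + √(CG * CF) * Cn) * (y ^ 12 * G) := by positivity
  have h13 : 0 ≤ (CG + 1) * Cn ^ 2 * (Δ ^ 7 * y ^ 10 * Y) := by positivity
  refine (add_le_add h11 h10).trans ?_
  have h14 : (4 * Cn * C2 + √(CG * CF) * Cn + (CG + 1) * Cn ^ 2) *
      (Δ ^ 7 * y ^ 10 * Y + y ^ 12 * G) =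
      (4 * Cn * C2 + √(CG * CF) * Cn) * (Δ ^ 7 * y ^ 10) * Y +
      (CG + 1) * (G * (Cn * y ^ 6 * (Cn * y ^ 6))) +
      (4 * Cn * C2 + √(CG * CF) * Cn) * (y ^ 12 * G) +
      (CG + 1) * Cn ^ 2 * (Δ ^ 7 * y ^ 10 * Y) := by ring
  linarith

end Pool.Agent.MP_2a1f0e_nt.GM2

end

section

set_option autoImplicit false

open Finset

namespace Pool.Agent.MP_2a1f0e_nt.GM3

open GM GM2

lemma split_BB3 {a b s t p p' g lam c : ℝ} (ha : 0 ≤ a) (hb : 0 ≤ b) (ht : 0 ≤ t)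
    (hp : 0 ≤ p) (hp' : 0 ≤ p') (hg : 0 ≤ g) (hc : g ≤ c) :
    (if lam < s * t then a * b * (s * t) * g else 0) ≤
      a * b * (if lam < s * t ∧ ¬(s ≤ p ∧ t ≤ p') then s * t * g else 0) +
        c * (a * b * (p * p')) := by
  have h2 : 0 ≤ c := hg.trans hc
  have h4 : 0 ≤ c * (a * b * (p * p')) := by positivity
  by_cases h5 : lam < s * t
  · rw [if_pos h5]
    by_cases h6 : s ≤ p ∧ t ≤ p'
    · rw [if_neg fun h => h.2 h6, mul_zero, zero_add, mul_comm c]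
      have := h6.1
      have := h6.2
      gcongr
    · rw [if_pos ⟨h5, h6⟩]
      linarith
  · rw [if_neg h5, if_neg fun h => h5 h.1]
    linarith

lemma wsq_BB3 {s t p p' g c lam m m' : ℝ} {A A' B : Prop} [Decidable A] [Decidable A']
    [Decidable B] (hs : 0 ≤ s) (ht : 0 ≤ t) (hm : 0 ≤ m) (hm' : 0 ≤ m')
    (hg : g ^ 2 * (1 + m + m') ≤ c)
    (h : lam < s * t → (s ≤ p ∧ t ≤ p') ∨ (s ≤ p ∧ A') ∨ (A ∧ t ≤ p') ∨ B) :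
    (if lam < s * t ∧ ¬(s ≤ p ∧ t ≤ p') then s * t * g else 0) ^ 2 ≤
      c * (p ^ 2 * (if A' then t ^ 2 / (1 + m') else 0) +
        (if A then s ^ 2 / (1 + m) else 0) * p' ^ 2 +
        if lam < s * t ∧ B then (s * t) ^ 2 / (1 + m + m') else 0) := by
  have hc : 0 ≤ c := le_trans (by positivity) hg
  have h1 : 0 ≤ p ^ 2 * (if A' then t ^ 2 / (1 + m') else 0) := by split_ifs <;> positivity
  have h2 : 0 ≤ (if A then s ^ 2 / (1 + m) else 0) * p' ^ 2 := by split_ifs <;> positivity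
  have h3 : 0 ≤ if lam < s * t ∧ B then (s * t) ^ 2 / (1 + m + m') else 0 := by
    split_ifs <;> positivity
  refine (wsq_BB (by positivity) hg).trans (mul_le_mul_of_nonneg_left ?_ hc)
  by_cases h4 : lam < s * t ∧ ¬(s ≤ p ∧ t ≤ p')
  · rw [if_pos h4]
    rcases h h4.1 with h5 | ⟨h5, h6⟩ | ⟨h6, h5⟩ | h5
    · exact absurd h5 h4.2
    · rw [if_pos h6]
      have : (s * t) ^ 2 / (1 + m + m') ≤ p ^ 2 * (t ^ 2 / (1 + m')) := by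
        rw [mul_pow, mul_div_assoc]
        gcongr
        linarith
      linarith
    · rw [if_pos h6]
      have : (s * t) ^ 2 / (1 + m + m') ≤ s ^ 2 / (1 + m) * p' ^ 2 := by
        rw [mul_pow, mul_div_right_comm, add_right_comm]
        gcongr
        linarith
      linarith
    · rw [if_pos (And.intro h4.1 h5)]
      linarith
  · rw [if_neg h4]
    linarith

theorem bb3_stmt (hB : BilStmt) (h2 : GL2Stmt) (hG : GamStmt) (hK : KKStmt) (hN : Near3Stmt)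
    (hM : Mid3Stmt) (hF : Far3Stmt) : BB3Stmt := by
  obtain ⟨C2, hC2, h2⟩ := h2
  obtain ⟨CG, hCG, hG⟩ := hG
  obtain ⟨CK, -, hK⟩ := hK
  obtain ⟨Cn, hCn, hN⟩ := hN
  obtain ⟨CM, hCM, hM⟩ := hM
  obtain ⟨CF, hCF, hF⟩ := hF
  have hCn0 : 0 < Cn := by linarith
  obtain ⟨E, hE0, hE⟩ : ∃ E : ℝ, 0 ≤ E ∧ E ^ 2 = CG * (12 * CM + CF) :=
    ⟨_, Real.sqrt_nonneg _, Real.sq_sqrt (by positivity)⟩
  refine ⟨4 * Cn * C2 + E * Cn + (CG + 1) * (36 * Cn ^ 2), by positivity, ?_⟩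
  intro y Δ a b κ σ z₀ z₁ Y G M₁ M₂ R X I u hy hM₁ hM₁' hM₂ hM₂' hR hX hD hL hY hGG
  have hΔ : 1 ≤ Δ := hD.1
  have hy0 : 0 < y := by linarith
  have hy10 : 1 ≤ y ^ 49 := one_le_pow₀ hy
  have hlam : y ^ 49 ≤ Cn * y ^ 49 := le_mul_of_one_le_left (by positivity) hCn
  have hG0 : 0 ≤ G := (sum_nonneg fun _ _ => sq_nonneg _).trans (hGG 0)
  have hY0 : 0 ≤ Y := (sum_nonneg fun _ _ => N2_nonneg _ _).trans hY
  have h12 : 0 ≤ (4 * Cn * C2 + E * Cn) * (y ^ 60 * G) :=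
    mul_nonneg (by positivity) (mul_nonneg (pow_nonneg hy0.le _) hG0)
  have h13 : 0 ≤ (CG + 1) * (36 * Cn ^ 2) * (Δ ^ 7 * y ^ 49 * Y) := by positivity
  have hJ : ((Nat.log 2 X + 1 : ℕ) : ℝ) + 1 ≤ 2 * Δ ^ 7 := by
    have := DivB_log hD le_rfl
    have : Δ ≤ Δ ^ 7 := le_self_pow₀ hΔ (by norm_num)
    push_cast
    linarith
  have hS : (3 * y ^ 30) ^ 2 ≤ 2 ^ (Nat.log 2 X + 1) * (Cn * y ^ 49) := by
    have := pow_J_BB (one_le_pow₀ hy : 1 ≤ y ^ 5) (X := X) (by rwa [← pow_mul]) (hy10.trans hlam)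
    rwa [← pow_mul] at this
  have hgam : ∀ r q : ℝ, ‖Gam κ σ z₀ z₁ r q‖ ≤ CG + 1 := fun r q => by
    have h1 := hG a b κ σ z₀ z₁ hL r q
    have h3 : ‖Gam κ σ z₀ z₁ r q‖ ^ 2 ≤ ‖Gam κ σ z₀ z₁ r q‖ ^ 2 * (1 + |r| + |q|) :=
      le_mul_of_one_le_right (sq_nonneg _) (by linarith [abs_nonneg r, abs_nonneg q])
    nlinarith [sq_nonneg (‖Gam κ σ z₀ z₁ r q‖ - 1)]
  obtain ⟨p, hp⟩ : ∃ p : ℤ → ℝ, ∀ r, p r = Cn * y ^ 30 * kp r := ⟨_, fun _ => rfl⟩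
  have p0 : ∀ r, 0 ≤ p r := fun r => by
    have := kp_pos r
    rw [hp]
    positivity
  have p1 : ∑ r ∈ Io R, p r ≤ Cn * y ^ 30 * 6 := by
    simp only [hp]
    rw [← mul_sum]
    exact mul_le_mul_of_nonneg_left (sum_kp_KOne _) (by positivity)
  have p2 : ∑ r ∈ Io R, p r ^ 2 ≤ Cn * y ^ 30 * (Cn * y ^ 30 * 6) := by
    refine le_trans ?_ (mul_le_mul_of_nonneg_left p1 (by positivity))
    rw [mul_sum]
    refine sum_le_sum fun r _ => ?_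
    rw [sq]
    refine mul_le_mul_of_nonneg_right ?_ (p0 r)
    rw [hp]
    exact mul_le_of_le_one_right (by positivity) (kp_le_one _)
  have p3 : ∀ (M : ℕ) (r : ℤ) (v : ℝ), (M : ℝ) ≤ y ^ 30 → kp v = kp r → Pk Cn M v →
      ‖KK M v‖ ≤ p r := fun M r v h e h' => by
    have := kp_pos r
    rw [hp, mul_assoc]
    refine le_trans h' ?_
    rw [e]
    gcongr
  have hW : ∑ r ∈ Io R, ∑ q ∈ Io R,
      (if Cn * y ^ 49 < ‖KK M₁ (-(r : ℝ))‖ * ‖KK M₂ q‖ ∧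
        ¬(‖KK M₁ (-(r : ℝ))‖ ≤ p r ∧ ‖KK M₂ q‖ ≤ p q) then
        ‖KK M₁ (-(r : ℝ))‖ * ‖KK M₂ q‖ * ‖Gam κ σ z₀ z₁ r q‖ else 0) ^ 2 ≤
      (E * Δ ^ 7 * (Cn * y ^ 49)) ^ 2 := by
    have h1 := hF y (Cn * y ^ 49) Δ M₁ M₂ R X hy hM₁ hM₁' hM₂ hM₂' hR hX hD hlam
    have h3 := mul_le_mul p2 (hM y Δ M₂ R X hy hM₂ hM₂' hR hX hD).1
      (sum_nonneg fun _ _ => by split_ifs <;> positivity) (by positivity)
    have h4 := mul_le_mul (hM y Δ M₁ R X hy hM₁ hM₁' hR hX hD).2 p2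
      (sum_nonneg fun _ _ => sq_nonneg _) (by positivity)
    rw [sum_mul_sum] at h3 h4
    have h5 := mul_le_mul_of_nonneg_left (add_le_add (add_le_add h3 h4) h1) hCG.le
    rw [← sum_add_distrib, ← sum_add_distrib, mul_sum] at h5
    refine le_trans (sum_le_sum fun r _ => ?_) (h5.trans ?_)
    · rw [← sum_add_distrib, ← sum_add_distrib, mul_sum]
      refine sum_le_sum fun q _ => wsq_BB3 (norm_nonneg _) (norm_nonneg _) (abs_nonneg _)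
        (abs_nonneg _) (hG a b κ σ z₀ z₁ hL r q) fun h => ?_
      have e1 := p3 M₁ r _ hM₁' (kp_neg r)
      have e2 := p3 M₂ q _ hM₂' rfl
      exact (hN y hy M₁ M₂ hM₁ hM₁' hM₂ hM₂' r q h).imp (And.imp e1 e2)
        (Or.imp (And.imp_left e1) (Or.imp_left (And.imp_right e2)))
    · have h6 : Δ ^ 13 ≤ Δ ^ 14 := pow_le_pow_right₀ hΔ (by norm_num)
      have h7 : Δ ^ 7 ≤ Δ ^ 14 := pow_le_pow_right₀ hΔ (by norm_num)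
      have h8 : y ^ 90 ≤ y ^ 98 := pow_le_pow_right₀ hy (by norm_num)
      calc _ = CG * Cn ^ 2 * (12 * CM * (Δ ^ 7 * y ^ 90) + CF * (Δ ^ 13 * y ^ 98)) := by ring
        _ ≤ CG * Cn ^ 2 * (12 * CM * (Δ ^ 14 * y ^ 98) + CF * (Δ ^ 14 * y ^ 98)) := by gcongr
        _ = E ^ 2 * (Δ ^ 7 * (Cn * y ^ 49)) ^ 2 := by rw [hE]; ring
        _ = _ := by ring
  have key : ∀ i ∈ I, ‖Bf R M₁ M₂ κ σ z₀ z₁ (u i)‖ ≤
      (4 * Cn * C2 + E * Cn) * (Δ ^ 7 * y ^ 49) * N2 (Io R) (u i) +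
      (CG + 1) * ∑ r ∈ Io R, ∑ q ∈ Io R, ‖u i r‖ * ‖u i q‖ * (p r * p q) := by
    intro i _
    have h1 := hB (Io R) (u i) (fun ρ => (starRingEnd ℂ) (u i ρ)) (fun ρ => KK M₁ (-(ρ : ℝ)))
      (fun ρ => KK M₂ ρ) (fun ρ₁ ρ₂ => Gam κ σ z₀ z₁ ρ₁ ρ₂) C2 (Cn * y ^ 49) (3 * y ^ 30)
      (Nat.log 2 X + 1) hC2.le (by positivity) (by positivity)
      (h2 a b κ σ z₀ z₁ hL (Io R))
      (fun ρ _ => (hK M₁ hM₁ _).2.trans (by linarith))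
      (fun ρ _ => (hK M₂ hM₂ _).2.trans (by linarith)) hS
    have hn := N2_nonneg (Io R) (u i)
    rw [N2_conj_BB, mul_assoc _ (√(N2 (Io R) (u i))), Real.mul_self_sqrt hn] at h1
    simp only [Complex.norm_conj] at h1
    have h3 := far_BB (Io R) (fun r => ‖u i r‖) _ _ (by positivity) hW
    have h4 := sum_le_sum (s := Io R) fun r _ => sum_le_sum (s := Io R) fun q _ =>
      split_BB3 (lam := Cn * y ^ 49) (s := ‖KK M₁ (-(r : ℝ))‖) (norm_nonneg (u i r))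
        (norm_nonneg (u i q))
        (norm_nonneg (KK M₂ q)) (p0 r) (p0 q) (norm_nonneg _)
        (hgam r q)
    simp only [sum_add_distrib, ← mul_sum _ _ (CG + 1)] at h4
    have h5 : 2 * (Cn * y ^ 49) * (((Nat.log 2 X + 1 : ℕ) : ℝ) + 1) * C2 * N2 (Io R) (u i) ≤
        2 * (Cn * y ^ 49) * (2 * Δ ^ 7) * C2 * N2 (Io R) (u i) := by gcongr
    have h7 : ‖Bf R M₁ M₂ κ σ z₀ z₁ (u i)‖ ≤ _ := h1
    change _ ≤ N2 (Io R) (u i) * _ at h3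
    linarith
  have hnear := near_BB I (Io R) (fun i r => ‖u i r‖) p p (fun _ => True) G p0 p0 hGG
  simp only [and_self, if_true, filter_true] at hnear
  have h9 := hnear.trans (mul_le_mul_of_nonneg_left
    (mul_le_mul p1 p1 (sum_nonneg fun r _ => p0 r) (by positivity)) hG0)
  refine (sum_le_sum key).trans ?_
  rw [sum_add_distrib, ← mul_sum, ← mul_sum]
  have h10 := mul_le_mul_of_nonneg_left h9 (show 0 ≤ CG + 1 by positivity)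
  have h11 := mul_le_mul_of_nonneg_left hY
    (show 0 ≤ (4 * Cn * C2 + E * Cn) * (Δ ^ 7 * y ^ 49) by positivity)
  refine (add_le_add h11 h10).trans ?_
  linarith

end Pool.Agent.MP_2a1f0e_nt.GM3

end

section

set_option autoImplicit false

open Finset

namespace Pool.Agent.MP_2a1f0e_nt.GM3

open GM GM2

lemma mink_HOne {ι : Type*} (s : Finset ι) (f : ℤ → ι → ℂ) (F : ι → ℂ) (d : ℤ → ℝ)
    (g : ℤ → ι → ℝ) (B : ℝ) (hd : Summable d) (d0 : ∀ k, 0 ≤ d k)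
    (hf : ∀ i ∈ s, HasSum (fun k => f k i) (F i)) (hg : ∀ k, ∀ i ∈ s, ‖f k i‖ ≤ d k * g k i)
    (hB : ∀ k, ∑ i ∈ s, g k i ^ 2 ≤ B) : ∑ i ∈ s, ‖F i‖ ^ 2 ≤ (∑' k, d k) ^ 2 * B := by
  have B0 : 0 ≤ B := (sum_nonneg fun _ _ => sq_nonneg _).trans (hB 0)
  have Q0 : 0 ≤ ∑ i ∈ s, ‖F i‖ ^ 2 := sum_nonneg fun _ _ => sq_nonneg _
  have h1 : HasSum (fun k => ∑ i ∈ s, f k i * (starRingEnd ℂ) (F i))
      (∑ i ∈ s, F i * (starRingEnd ℂ) (F i)) := hasSum_sum fun i hi => (hf i hi).mul_right _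
  have h2 : ∑ i ∈ s, F i * (starRingEnd ℂ) (F i) = ((∑ i ∈ s, ‖F i‖ ^ 2 : ℝ) : ℂ) := by
    rw [Complex.ofReal_sum]
    exact sum_congr rfl fun i _ => by rw [Complex.mul_conj, Complex.normSq_eq_norm_sq]
  have h3 := h1.norm_le_of_bounded (hd.hasSum.mul_right (√B * √(∑ i ∈ s, ‖F i‖ ^ 2))) fun k => by
    refine (norm_sum_le _ _).trans ?_
    have h4 : ∑ i ∈ s, ‖f k i * (starRingEnd ℂ) (F i)‖ ≤ d k * ∑ i ∈ s, g k i * ‖F i‖ := by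
      rw [mul_sum]
      refine sum_le_sum fun i hi => ?_
      rw [norm_mul, Complex.norm_conj, ← mul_assoc]
      exact mul_le_mul_of_nonneg_right (hg k i hi) (norm_nonneg _)
    refine h4.trans (mul_le_mul_of_nonneg_left ((Real.sum_mul_le_sqrt_mul_sqrt _ _ _).trans ?_)
      (d0 k))
    exact mul_le_mul_of_nonneg_right (Real.sqrt_le_sqrt (hB k)) (Real.sqrt_nonneg _)
  rw [h2, Complex.norm_real, Real.norm_of_nonneg Q0] at h3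
  generalize ∑ i ∈ s, ‖F i‖ ^ 2 = Q at *
  have e1 := Real.mul_self_sqrt Q0
  have e2 := Real.mul_self_sqrt B0
  generalize ∑' k, d k = D at *
  nlinarith [sq_nonneg (D * √B - √Q)]

lemma bes_HOne (hB : BesStmt) {ψ : ℝ → ℂ} (hψ : ContinuousOn ψ (Set.Icc (1 / 9 : ℝ) (82 / 9)))
    (S : Finset ℤ) :
    ∑ ξ ∈ S, ‖∫ v in (1 / 9 : ℝ)..(82 / 9), ψ v * ex ((ξ : ℝ) * v)‖ ^ 2 ≤
      36 * II fun v => ‖ψ v‖ ^ 2 := by
  have c1 : ContinuousOn (fun v => (ψ v).re) (Set.Icc (1 / 9 : ℝ) (82 / 9)) :=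
    Complex.continuous_re.comp_continuousOn hψ
  have c2 : ContinuousOn (fun v => (ψ v).im) (Set.Icc (1 / 9 : ℝ) (82 / 9)) :=
    Complex.continuous_im.comp_continuousOn hψ
  have h1 := hB _ c1 S
  have h2 := hB _ c2 S
  have h3 : II (fun v => (ψ v).re ^ 2) ≤ II fun v => ‖ψ v‖ ^ 2 :=
    II_mono (c1.pow 2) (hψ.norm.pow 2) fun v _ =>
      sq_le_sq' (neg_le_of_abs_le (Complex.abs_re_le_norm _)) (Complex.re_le_norm _)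
  have h4 : II (fun v => (ψ v).im ^ 2) ≤ II fun v => ‖ψ v‖ ^ 2 :=
    II_mono (c2.pow 2) (hψ.norm.pow 2) fun v _ =>
      sq_le_sq' (neg_le_of_abs_le (Complex.abs_im_le_norm _)) (Complex.im_le_norm _)
  have hi : ∀ {g : ℝ → ℝ}, ContinuousOn g (Set.Icc (1 / 9 : ℝ) (82 / 9)) → ∀ ξ : ℝ,
      IntervalIntegrable (fun v => (g v : ℂ) * ex (ξ * v)) MeasureTheory.volume
        (1 / 9 : ℝ) (82 / 9) := fun hg ξ =>
    ContinuousOn.intervalIntegrable_of_Icc (by norm_num)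
      ((Complex.continuous_ofReal.comp_continuousOn hg).mul
        (continuous_ex.comp (continuous_const.mul continuous_id)).continuousOn)
  have h5 : ∀ ξ ∈ S, ‖∫ v in (1 / 9 : ℝ)..(82 / 9), ψ v * ex ((ξ : ℝ) * v)‖ ^ 2 ≤
      2 * ‖∫ v in (1 / 9 : ℝ)..(82 / 9), ((ψ v).re : ℂ) * ex ((ξ : ℝ) * v)‖ ^ 2 +
      2 * ‖∫ v in (1 / 9 : ℝ)..(82 / 9), ((ψ v).im : ℂ) * ex ((ξ : ℝ) * v)‖ ^ 2 := fun ξ _ => by
    have e : ∫ v in (1 / 9 : ℝ)..(82 / 9), ψ v * ex ((ξ : ℝ) * v) =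
        (∫ v in (1 / 9 : ℝ)..(82 / 9), ((ψ v).re : ℂ) * ex ((ξ : ℝ) * v)) +
        Complex.I * ∫ v in (1 / 9 : ℝ)..(82 / 9), ((ψ v).im : ℂ) * ex ((ξ : ℝ) * v) := by
      rw [← intervalIntegral.integral_const_mul,
        ← intervalIntegral.integral_add (hi c1 _) ((hi c2 _).const_mul _)]
      refine intervalIntegral.integral_congr fun v _ => ?_
      linear_combination (-ex ((ξ : ℝ) * v)) * Complex.re_add_im (ψ v)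
    rw [e]
    generalize ∫ v in (1 / 9 : ℝ)..(82 / 9), ((ψ v).re : ℂ) * ex ((ξ : ℝ) * v) = p
    generalize ∫ v in (1 / 9 : ℝ)..(82 / 9), ((ψ v).im : ℂ) * ex ((ξ : ℝ) * v) = q
    have h6 := norm_add_le p (Complex.I * q)
    rw [norm_mul, Complex.norm_I, one_mul] at h6
    have h7 := pow_le_pow_left₀ (norm_nonneg _) h6 2
    nlinarith [sq_nonneg (‖p‖ - ‖q‖)]
  refine (sum_le_sum h5).trans ?_
  rw [sum_add_distrib, ← mul_sum, ← mul_sum]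
  linarith

lemma scale_HOne {u : ℝ} (hu : Wt u ≠ 0) (w ξ : ℝ) : HH w ξ = (u : ℂ) * pw u w *
    ∫ y in (1 / 9 : ℝ)..(82 / 9), (Wt (u * y) : ℂ) * (pw y w * ex (-(ξ * u) * y)) := by
  obtain ⟨u1, u2⟩ := mem_of_Wt_ne_zero hu
  have hr : 0 < u := by linarith
  have hr' : (u : ℂ) ≠ 0 := by exact_mod_cast hr.ne'
  have h1 := MeasureTheory.Measure.integral_comp_mul_left
    (fun x : ℝ => (Wt x : ℂ) * pw x w * ex (-(ξ * x))) u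
  rw [intervalIntegral.integral_of_le (by norm_num),
    MeasureTheory.setIntegral_eq_integral_of_forall_compl_eq_zero fun y hy => ?_]
  · have h2 : ∀ y : ℝ, (Wt (u * y) : ℂ) * pw (u * y) w * ex (-(ξ * (u * y))) =
        pw u w * ((Wt (u * y) : ℂ) * (pw y w * ex (-(ξ * u) * y))) := fun y => by
      by_cases hv : y = 0
      · have h0 : Wt 0 = 0 := Wt_eq_zero (Or.inl (by norm_num))
        simp [hv, h0]
      · rw [pw_mul hr.ne' hv, show -(ξ * (u * y)) = -(ξ * u) * y by ring]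
        ring
    simp only [h2] at h1
    rw [MeasureTheory.integral_const_mul, abs_of_pos (inv_pos.2 hr), Complex.real_smul] at h1
    rw [mul_assoc, h1]
    unfold HH
    push_cast
    field_simp
  · have h0 : Wt (u * y) = 0 := by
      by_contra h
      obtain ⟨a1, a2⟩ := mem_of_Wt_ne_zero h
      refine hy ⟨?_, ?_⟩
      · by_contra hc
        nlinarith [not_lt.1 hc]
      · by_contra hc
        nlinarith [not_le.1 hc]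
    simp [h0]

lemma series_HOne {c : ℤ → ℂ} (hc : Summable fun k => ‖c k‖)
    (h2 : ∀ t ∈ Set.Icc (1 / 16 : ℝ) 27, HasSum (fun k : ℤ => c k * pw t k) (Wt t : ℂ))
    {u : ℝ} (hu : Wt u ≠ 0) {φ : ℝ → ℂ} (hφ : ContinuousOn φ (Set.Icc (1 / 9 : ℝ) (82 / 9))) :
    HasSum (fun k : ℤ => c k * pw u k * ∫ y in (1 / 9 : ℝ)..(82 / 9), pw y k * φ y)
      (∫ y in (1 / 9 : ℝ)..(82 / 9), (Wt (u * y) : ℂ) * φ y) := by
  obtain ⟨u1, u2⟩ := mem_of_Wt_ne_zero hu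
  have hs : Set.uIoc (1 / 9 : ℝ) (82 / 9) ⊆ Set.Icc (1 / 9 : ℝ) (82 / 9) := by
    rw [Set.uIoc_of_le (by norm_num)]
    exact Set.Ioc_subset_Icc_self
  simp only [← intervalIntegral.integral_const_mul]
  refine intervalIntegral.hasSum_integral_of_dominated_convergence (fun k y => ‖c k‖ * ‖φ y‖)
    (fun k => ?_) (fun k => Filter.Eventually.of_forall fun y _ => ?_)
    (Filter.Eventually.of_forall fun y _ => hc.mul_right _) ?_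
    (Filter.Eventually.of_forall fun y hy => ?_)
  · exact ((continuousOn_const.mul (((continuousOn_pw k).mono Icc_sub_Ioi).mul hφ)).mono
      hs).aestronglyMeasurable measurableSet_uIoc
  · rw [norm_mul, norm_mul, norm_mul, norm_pw, norm_pw, mul_one, one_mul]
  · simp only [tsum_mul_right]
    exact ContinuousOn.intervalIntegrable_of_Icc (by norm_num) (continuousOn_const.mul hφ.norm)
  · obtain ⟨y1, y2⟩ := hs hy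
    have k1 := (h2 (u * y) ⟨by nlinarith, by nlinarith⟩).mul_right (φ y)
    have k2 : (fun k : ℤ => c k * pw (u * y) k * φ y) =
        fun k : ℤ => c k * pw u k * (pw y k * φ y) := by
      funext k
      rw [pw_mul (by linarith : 0 < u).ne' (by linarith : 0 < y).ne']
      ring
    rwa [k2] at k1

/-- the function expanded by Bessel -/
noncomputable def psi_HOne (s : Finset ℤ) (a : ℤ → ℝ) (w : ℝ) (y : ℝ) : ℂ :=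
  pw y w * FT s a y⁻¹

lemma cont_HOne (s : Finset ℤ) (a : ℤ → ℝ) (w : ℝ) :
    ContinuousOn (psi_HOne s a w) (Set.Icc (1 / 9 : ℝ) (82 / 9)) :=
  ((continuousOn_pw w).mono Icc_sub_Ioi).mul (continuousOn_FT_comp s a
    (continuousOn_id.inv₀ fun _ hy => (Icc_sub_Ioi hy).ne') fun _ hy =>
      inv_pos.2 (Icc_sub_Ioi hy))

lemma int_HOne {φ : ℝ → ℂ} (hφ : ContinuousOn φ (Set.Icc (1 / 9 : ℝ) (82 / 9))) (ξ : ℝ) :
    IntervalIntegrable (fun v => φ v * ex (ξ * v)) MeasureTheory.volume (1 / 9 : ℝ) (82 / 9) :=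
  ContinuousOn.intervalIntegrable_of_Icc (by norm_num)
    (hφ.mul (continuous_ex.comp (continuous_const.mul continuous_id)).continuousOn)

lemma rep_HOne {N n : ℕ} (hN : 1 ≤ N) (hu : Wt ((n : ℝ) / N) ≠ 0) (M : ℕ) (s : Finset ℤ)
    (a : ℤ → ℝ) (t : ℤ) :
    ∑ b ∈ s, (a b : ℂ) * Kb N M ((t : ℝ) - b) * pw (n : ℝ) b =
      (n : ℂ) * pw (n : ℝ) t * ∑ m ∈ Ms M, ∫ y in (1 / 9 : ℝ)..(82 / 9),
        (Wt ((n : ℝ) / N * y) : ℂ) * (psi_HOne s a t y * ex (((-(n : ℤ) * m : ℤ) : ℝ) * y)) := by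
  have n0 : (0 : ℝ) < N := by exact_mod_cast hN
  have u0 : (0 : ℝ) < (n : ℝ) / N := by linarith [(mem_of_Wt_ne_zero hu).1]
  have cW : Continuous fun y : ℝ => (Wt ((n : ℝ) / N * y) : ℂ) :=
    Complex.continuous_ofReal.comp (continuous_Wt.comp (continuous_const.mul continuous_id))
  have e1 : ∀ w : ℝ, pw (N : ℝ) w * pw ((n : ℝ) / N) w = pw (n : ℝ) w := fun w => by
    rw [← pw_mul n0.ne' u0.ne', mul_div_cancel₀ _ n0.ne']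
  have e2 : (N : ℂ) * (((n : ℝ) / N : ℝ) : ℂ) = n := by
    have : (N : ℂ) ≠ 0 := by exact_mod_cast n0.ne'
    push_cast
    field_simp
  have e3 : ∀ m : ℤ, -((m : ℝ) * N * ((n : ℝ) / N)) = ((-(n : ℤ) * m : ℤ) : ℝ) := fun m => by
    push_cast
    field_simp
  simp only [Kb, scale_HOne hu, e3, mul_sum, sum_mul]
  rw [sum_comm]
  refine sum_congr rfl fun m _ => ?_
  have e4 : ∀ y, (Wt ((n : ℝ) / N * y) : ℂ) *
      (psi_HOne s a t y * ex (((-(n : ℤ) * m : ℤ) : ℝ) * y)) = ∑ b ∈ s, (a b : ℂ) *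
        ((Wt ((n : ℝ) / N * y) : ℂ) * (pw y ((t : ℝ) - b) * ex (((-(n : ℤ) * m : ℤ) : ℝ) * y))) :=
    fun y => by
      simp only [psi_HOne, FT, pw_inv, mul_sum, sum_mul]
      refine sum_congr rfl fun b _ => ?_
      rw [sub_eq_add_neg, pw_add]
      ring
  simp only [e4]
  rw [intervalIntegral.integral_finsetSum fun b _ => ?_, mul_sum]
  · refine sum_congr rfl fun b _ => ?_
    rw [intervalIntegral.integral_const_mul]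
    have e5 : pw (n : ℝ) t = pw (N : ℝ) ((t : ℝ) - b) * pw ((n : ℝ) / N) ((t : ℝ) - b) *
        pw (n : ℝ) b := by rw [e1, ← pw_add, sub_add_cancel]
    rw [e5, ← e2]
    ring
  · exact ContinuousOn.intervalIntegrable_of_Icc (by norm_num) (continuousOn_const.mul
      (cW.continuousOn.mul (((continuousOn_pw _).mono Icc_sub_Ioi).mul
        (continuous_ex.comp (continuous_const.mul continuous_id)).continuousOn)))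

theorem hOne_stmt (hF : FouStmt) (hB : BesStmt) (hD : DivStmt) (hP : ParStmt) : HOneStmt := by
  obtain ⟨c, h1, h2⟩ := hF
  have hc : Summable fun k : ℤ => ‖c k‖ := by
    refine Summable.of_nonneg_of_le (fun _ => norm_nonneg _) (fun k => ?_) h1
    exact le_mul_of_one_le_right (norm_nonneg _)
      (one_le_pow₀ (le_add_of_nonneg_right (abs_nonneg _)))
  refine ⟨9 * (4 * (36 * 60)) * ((∑' k : ℤ, ‖c k‖) ^ 2 + 1), by positivity,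
    fun N M Δ hN hΔ s a t => ?_⟩
  have Δ0 : 0 ≤ Δ := zero_le_one.trans hΔ.1
  have A0 : 0 ≤ ∑ b ∈ s, a b ^ 2 := sum_nonneg fun _ _ => sq_nonneg _
  set G : ℤ → ℤ → ℂ := fun k ξ =>
    ∫ y in (1 / 9 : ℝ)..(82 / 9), psi_HOne s a ((k : ℝ) + t) y * ex ((ξ : ℝ) * y) with hG
  have key := mink_HOne ((Icc 1 (3 * N)).filter fun n : ℕ => Wt ((n : ℝ) / N) ≠ 0)
    (fun k n => c k * pw ((n : ℝ) / N) k * ∑ m ∈ Ms M, G k (-(n : ℤ) * m))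
    (fun n => ∑ m ∈ Ms M, ∫ y in (1 / 9 : ℝ)..(82 / 9),
      (Wt ((n : ℝ) / N * y) : ℂ) * (psi_HOne s a t y * ex (((-(n : ℤ) * m : ℤ) : ℝ) * y)))
    (fun k => ‖c k‖) (fun k n => ‖∑ m ∈ Ms M, G k (-(n : ℤ) * m)‖)
    (4 * M * Δ * (36 * (60 * ∑ b ∈ s, a b ^ 2))) hc (fun _ => norm_nonneg _)
    (fun n hn => by
      simp only [mul_sum]
      refine hasSum_sum fun m _ => ?_
      have h3 := series_HOne hc h2 (mem_filter.1 hn).2 ((cont_HOne s a t).mul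
        (continuous_ex.comp (continuous_const.mul continuous_id)).continuousOn
          (g := fun y => ex (((-(n : ℤ) * m : ℤ) : ℝ) * y)))
      have e : ∀ (k : ℤ) (y : ℝ), pw y k * (psi_HOne s a t y * ex (((-(n : ℤ) * m : ℤ) : ℝ) * y)) =
          psi_HOne s a ((k : ℝ) + t) y * ex (((-(n : ℤ) * m : ℤ) : ℝ) * y) := fun k y => by
        simp only [psi_HOne, pw_add]
        ring
      simpa only [Pi.mul_apply, e] using h3)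
    (fun k n _ => by rw [norm_mul, norm_mul, norm_pw, mul_one])
    (fun k => by
      have h3 := hD (3 * N + 1) M Δ hΔ (G k)
      have h4 := bes_HOne hB (cont_HOne s a ((k : ℝ) + t))
        (Icc (-(((3 * N + 1) * M : ℕ) : ℤ)) (((3 * N + 1) * M : ℕ) : ℤ))
      have h5 : (fun v => ‖psi_HOne s a ((k : ℝ) + t) v‖ ^ 2) = fun v => ‖FT s a v‖ ^ 2 := by
        funext v
        rw [psi_HOne, norm_mul, norm_pw, one_mul, norm_FT_inv]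
      rw [h5] at h4
      refine le_trans ?_ (h3.trans (mul_le_mul_of_nonneg_left (h4.trans
        (mul_le_mul_of_nonneg_left (hP s a) (by norm_num))) (by positivity)))
      rw [← sum_image (g := fun n : ℕ => -(n : ℤ))
        (f := fun l : ℤ => ‖∑ m ∈ Ms M, G k (l * m)‖ ^ 2) fun x _ y _ h => by simpa using h]
      refine sum_le_sum_of_subset_of_nonneg (fun l hl => ?_) fun _ _ _ => sq_nonneg _
      obtain ⟨n, hn, rfl⟩ := mem_image.1 hl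
      have := mem_Icc.1 (mem_filter.1 hn).1
      rw [mem_erase, mem_Ioo]
      omega)
  rw [← sum_filter_of_ne (p := fun n : ℕ => Wt ((n : ℝ) / N) ≠ 0)
    fun n _ h => left_ne_zero_of_mul h]
  have h6 := mul_le_mul_of_nonneg_left key (by positivity : 0 ≤ 9 * (N : ℝ) ^ 2)
  rw [mul_sum] at h6
  refine le_trans (sum_le_sum fun n hn => ?_) (h6.trans ?_)
  · obtain ⟨n1, n2⟩ := mem_filter.1 hn
    have n3 : (n : ℝ) ≤ 3 * N := by exact_mod_cast (mem_Icc.1 n1).2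
    rw [rep_HOne hN n2, norm_mul, norm_mul, norm_pw, mul_one, Complex.norm_natCast, mul_pow,
      ← mul_assoc]
    refine mul_le_mul_of_nonneg_right ?_ (sq_nonneg _)
    have n4 := pow_le_pow_left₀ (Nat.cast_nonneg n) n3 2
    have n5 := mul_le_of_le_one_left (sq_nonneg (n : ℝ)) (Wt_le_one ((n : ℝ) / N))
    linarith
  · have h7 : 0 ≤ (N : ℝ) ^ 2 * M * Δ * ∑ b ∈ s, a b ^ 2 := by positivity
    nlinarith

end Pool.Agent.MP_2a1f0e_nt.GM3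

end

section

set_option autoImplicit false

open Finset

namespace Pool.Agent.MP_2a1f0e_nt.GM3

open GM GM2

lemma gram_HSt (N : ℕ) (I : Finset ℤ) (x z : ℤ → ℂ) :
    ∑ p ∈ I, ∑ q ∈ I, x p * KK N ((p : ℝ) - q) * (starRingEnd ℂ) (z q) =
      ∑ n ∈ Icc 1 (3 * N), (Wt ((n : ℝ) / N) : ℂ) * ((∑ p ∈ I, x p * pw (n : ℝ) p) *
        (starRingEnd ℂ) (∑ q ∈ I, z q * pw (n : ℝ) q)) := by
  have h1 : ∀ n : ℕ, (Wt ((n : ℝ) / N) : ℂ) * ((∑ p ∈ I, x p * pw (n : ℝ) p) *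
        (starRingEnd ℂ) (∑ q ∈ I, z q * pw (n : ℝ) q)) = ∑ p ∈ I, ∑ q ∈ I,
        x p * ((Wt ((n : ℝ) / N) : ℂ) * pw (n : ℝ) ((p : ℝ) - q)) * (starRingEnd ℂ) (z q) := by
    intro n
    rw [map_sum, sum_mul_sum, mul_sum]
    refine sum_congr rfl fun p _ => ?_
    rw [mul_sum]
    refine sum_congr rfl fun q _ => ?_
    rw [pw_sub, map_mul]
    ring
  simp only [h1]
  rw [sum_comm (s := Icc 1 (3 * N))]
  refine sum_congr rfl fun p _ => ?_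
  rw [sum_comm (s := Icc 1 (3 * N))]
  refine sum_congr rfl fun q _ => ?_
  rw [KK, mul_sum, sum_mul]

lemma main_HSt (N : ℕ) (I : Finset ℤ) (x z : ℤ → ℂ) (Y : ℝ)
    (hx : ∑ n ∈ Icc 1 (3 * N), Wt ((n : ℝ) / N) * ‖∑ p ∈ I, x p * pw (n : ℝ) p‖ ^ 2 ≤ Y)
    (hz : ∑ n ∈ Icc 1 (3 * N), Wt ((n : ℝ) / N) * ‖∑ p ∈ I, z p * pw (n : ℝ) p‖ ^ 2 ≤ Y) :
    ‖∑ p ∈ I, ∑ q ∈ I, x p * KK N ((p : ℝ) - q) * (starRingEnd ℂ) (z q)‖ ≤ Y := by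
  rw [gram_HSt]
  refine (norm_sum_le _ _).trans ?_
  have h : ∑ n ∈ Icc 1 (3 * N), ‖(Wt ((n : ℝ) / N) : ℂ) * ((∑ p ∈ I, x p * pw (n : ℝ) p) *
        (starRingEnd ℂ) (∑ q ∈ I, z q * pw (n : ℝ) q))‖ ≤
      ∑ n ∈ Icc 1 (3 * N), (Wt ((n : ℝ) / N) * ‖∑ p ∈ I, x p * pw (n : ℝ) p‖ ^ 2 / 2 +
        Wt ((n : ℝ) / N) * ‖∑ p ∈ I, z p * pw (n : ℝ) p‖ ^ 2 / 2) := by
    refine sum_le_sum fun n _ => ?_
    rw [norm_mul, norm_mul, Complex.norm_conj, Complex.norm_real, Real.norm_eq_abs,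
      abs_of_nonneg (Wt_nonneg _)]
    have h0 := Wt_nonneg ((n : ℝ) / N)
    have h2 := mul_nonneg h0
      (sq_nonneg (‖∑ p ∈ I, x p * pw (n : ℝ) p‖ - ‖∑ p ∈ I, z p * pw (n : ℝ) p‖))
    nlinarith
  rw [sum_add_distrib, ← sum_div, ← sum_div] at h
  linarith

lemma schur_HSt (N M : ℕ) (I : Finset ℤ) (E : ℝ) (hE0 : 0 ≤ E) (hE : HE N M I E) (x z : ℤ → ℂ)
    (Y : ℝ) (hx : ∑ p ∈ I, ‖x p‖ ^ 2 ≤ Y) (hz : ∑ p ∈ I, ‖z p‖ ^ 2 ≤ Y) :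
    ‖∑ p ∈ I, ∑ q ∈ I,
      x p * (KK N ((p : ℝ) - q) - Kb N M ((p : ℝ) - q)) * (starRingEnd ℂ) (z q)‖ ≤ E * Y := by
  have h1 : ‖∑ p ∈ I, ∑ q ∈ I,
      x p * (KK N ((p : ℝ) - q) - Kb N M ((p : ℝ) - q)) * (starRingEnd ℂ) (z q)‖ ≤
      ∑ p ∈ I, ∑ q ∈ I, (‖x p‖ ^ 2 * ‖KK N ((p : ℝ) - q) - Kb N M ((p : ℝ) - q)‖ / 2 +
        ‖z q‖ ^ 2 * ‖KK N ((q : ℝ) - p) - Kb N M ((q : ℝ) - p)‖ / 2) := by
    refine (norm_sum_le _ _).trans (sum_le_sum fun p _ => ?_)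
    refine (norm_sum_le _ _).trans (sum_le_sum fun q _ => ?_)
    rw [norm_mul, norm_mul, Complex.norm_conj, norm_K1_sub N M (q : ℝ) p]
    have h2 := mul_nonneg (norm_nonneg (KK N ((p : ℝ) - q) - Kb N M ((p : ℝ) - q)))
      (sq_nonneg (‖x p‖ - ‖z q‖))
    nlinarith
  have h2 : ∀ y : ℤ → ℂ, ∑ p ∈ I, ‖y p‖ ^ 2 ≤ Y →
      ∑ p ∈ I, ∑ q ∈ I, ‖y p‖ ^ 2 * ‖KK N ((p : ℝ) - q) - Kb N M ((p : ℝ) - q)‖ / 2 ≤
        E * Y / 2 := by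
    intro y hy
    calc _ ≤ ∑ p ∈ I, ‖y p‖ ^ 2 * E / 2 := by
          refine sum_le_sum fun p hp => ?_
          rw [← sum_div, ← mul_sum]
          exact div_le_div_of_nonneg_right
            (mul_le_mul_of_nonneg_left (hE p hp) (sq_nonneg _)) (by norm_num)
      _ = E * (∑ p ∈ I, ‖y p‖ ^ 2) / 2 := by
          rw [← sum_div, ← sum_mul, mul_comm]
      _ ≤ _ := div_le_div_of_nonneg_right (mul_le_mul_of_nonneg_left hy hE0) (by norm_num)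
  simp only [sum_add_distrib] at h1
  have h3 := h2 x hx
  have h4 := h2 z hz
  rw [sum_comm] at h4
  linarith

theorem h_stmt (h1 : HOneStmt) (hK : KsupStmt) : HStmt := by
  obtain ⟨C₁, hC₁, h1⟩ := h1
  obtain ⟨C₂, hC₂, hK⟩ := hK
  refine ⟨C₁ + C₂, by positivity, fun N M Δ E X s h a b hN hΔ hE0 hE ha hb => ?_⟩
  have hX : 0 ≤ X := (sum_nonneg fun _ _ => sq_nonneg _).trans ha
  have hΔ0 : 0 ≤ Δ := zero_le_one.trans hΔ.1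
  have hw : ∀ (g : ℤ → ℝ) (t : ℤ), ∑ p ∈ s, g p ^ 2 ≤ X →
      ∑ n ∈ Icc 1 (3 * N), Wt ((n : ℝ) / N) *
        ‖∑ p ∈ s, (g p : ℂ) * Kb N M ((t : ℝ) - p) * pw (n : ℝ) p‖ ^ 2 ≤
        C₁ * (N : ℝ) ^ 2 * M * Δ * X := fun g t hg =>
    (h1 N M Δ hN hΔ s g t).trans (mul_le_mul_of_nonneg_left hg (by positivity))
  have hs : ∀ (g : ℤ → ℝ) (t : ℤ), ∑ p ∈ s, g p ^ 2 ≤ X →
      ∑ p ∈ s, ‖(g p : ℂ) * Kb N M ((t : ℝ) - p)‖ ^ 2 ≤ C₂ * (N * M) * X := by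
    intro g t hg
    calc _ ≤ ∑ p ∈ s, C₂ * (N * M) * g p ^ 2 := by
          refine sum_le_sum fun p _ => ?_
          have k := hK N M hN (t - p)
          push_cast at k
          rw [norm_mul, mul_pow, Complex.norm_real, Real.norm_eq_abs, sq_abs, mul_comm]
          exact mul_le_mul_of_nonneg_right k (sq_nonneg _)
      _ = C₂ * (N * M) * ∑ p ∈ s, g p ^ 2 := by rw [mul_sum]
      _ ≤ _ := mul_le_mul_of_nonneg_left hg (by positivity)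
  have hS : ∀ t : ℤ, ‖∑ p ∈ s, ∑ q ∈ s, (a p : ℂ) * Kb N M ((t : ℝ) - p) * Kb N M ((p : ℝ) - q) *
      (starRingEnd ℂ) ((b q : ℂ) * Kb N M ((t : ℝ) - q))‖ ≤
      (C₁ + C₂) * ((N : ℝ) ^ 2 * M * Δ + E * (N * M)) * X := by
    intro t
    have k1 := main_HSt N s (fun p => (a p : ℂ) * Kb N M ((t : ℝ) - p))
      (fun p => (b p : ℂ) * Kb N M ((t : ℝ) - p)) _ (hw a t ha) (hw b t hb)
    have k2 := schur_HSt N M s E hE0 hE (fun p => (a p : ℂ) * Kb N M ((t : ℝ) - p))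
      (fun p => (b p : ℂ) * Kb N M ((t : ℝ) - p)) _ (hs a t ha) (hs b t hb)
    have k3 : ∑ p ∈ s, ∑ q ∈ s, (a p : ℂ) * Kb N M ((t : ℝ) - p) * Kb N M ((p : ℝ) - q) *
        (starRingEnd ℂ) ((b q : ℂ) * Kb N M ((t : ℝ) - q)) =
        ∑ p ∈ s, ∑ q ∈ s, (a p : ℂ) * Kb N M ((t : ℝ) - p) * KK N ((p : ℝ) - q) *
          (starRingEnd ℂ) ((b q : ℂ) * Kb N M ((t : ℝ) - q)) -
        ∑ p ∈ s, ∑ q ∈ s, (a p : ℂ) * Kb N M ((t : ℝ) - p) *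
          (KK N ((p : ℝ) - q) - Kb N M ((p : ℝ) - q)) *
          (starRingEnd ℂ) ((b q : ℂ) * Kb N M ((t : ℝ) - q)) := by
      rw [← sum_sub_distrib]
      refine sum_congr rfl fun p _ => ?_
      rw [← sum_sub_distrib]
      exact sum_congr rfl fun q _ => by ring
    rw [k3]
    refine (norm_sub_le _ _).trans ((add_le_add k1 k2).trans ?_)
    have p1 : 0 ≤ C₂ * ((N : ℝ) ^ 2 * M * Δ * X) := by positivity
    have p2 : 0 ≤ C₁ * (E * (N * M) * X) := by positivity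
    nlinarith
  have hQ : Q33 N M s h a b = ∑ t ∈ s, (h t : ℂ) * ∑ p ∈ s, ∑ q ∈ s,
      (a p : ℂ) * Kb N M ((t : ℝ) - p) * Kb N M ((p : ℝ) - q) *
        (starRingEnd ℂ) ((b q : ℂ) * Kb N M ((t : ℝ) - q)) := by
    unfold Q33
    refine sum_congr rfl fun t _ => ?_
    rw [mul_sum]
    refine sum_congr rfl fun p _ => ?_
    rw [mul_sum]
    refine sum_congr rfl fun q _ => ?_
    rw [map_mul, conj_Kb, Complex.conj_ofReal, neg_sub]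
    push_cast
    ring
  rw [hQ]
  refine (norm_sum_le _ _).trans ?_
  calc _ ≤ ∑ t ∈ s, |h t| * ((C₁ + C₂) * ((N : ℝ) ^ 2 * M * Δ + E * (N * M)) * X) := by
        refine sum_le_sum fun t _ => ?_
        rw [norm_mul, Complex.norm_real, Real.norm_eq_abs]
        exact mul_le_mul_of_nonneg_left (hS t) (abs_nonneg _)
    _ = _ := by
        rw [← sum_mul]
        ring

end Pool.Agent.MP_2a1f0e_nt.GM3

end

section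

set_option autoImplicit false

open Finset

namespace Pool.Agent.MP_2a1f0e_nt.GM2

open GM

lemma sum_cut_QTwo {β : Type} [AddCommMonoid β] {s s' : Finset ℤ} (h : s ⊆ s') (ν : ℤ → ℝ)
    (F : ℝ → ℤ → β) (h0 : ∀ t, F 0 t = 0) :
    ∑ t ∈ s', F (if t ∈ s then ν t else 0) t = ∑ t ∈ s, F (ν t) t := by
  rw [← sum_subset h fun t _ ht => by rw [if_neg ht, h0]]
  exact sum_congr rfl fun t ht => by rw [if_pos ht]

lemma Q3_cut_QTwo (N M : ℕ) {s s' : Finset ℤ} (h : s ⊆ s') (ν : ℤ → ℝ) :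
    Q3 N M s' (fun t => if t ∈ s then ν t else 0) = Q3 N M s ν := by
  unfold Q3
  rw [← sum_subset h fun t _ ht => by simp [if_neg ht]]
  refine sum_congr rfl fun a ha => ?_
  rw [← sum_subset h fun t _ ht => by simp [if_neg ht]]
  refine sum_congr rfl fun b hb => ?_
  rw [← sum_subset h fun t _ ht => by simp [if_neg ht]]
  refine sum_congr rfl fun c hc => ?_
  simp only [if_pos ha, if_pos hb, if_pos hc]

theorem q2_stmt (hD : DecStmt) (hE : ErrStmt) (hP : PartStmt) (hB : Blk2Stmt) : Q2Stmt := by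
  obtain ⟨CD, hCD, hD⟩ := hD
  obtain ⟨CE, hCE, hE⟩ := hE
  obtain ⟨CB, hCB, hB⟩ := hB
  refine ⟨CE * (CD + 3) + 8 * CB, by positivity, ?_⟩
  intro N M T Xd Δ B X x ν hN hM hT hx hMx hTx hNM hXd hΔ hB0 hν hX hsup
  have hX0 : 0 ≤ X := (sum_nonneg fun t _ => sq_nonneg _).trans hX
  have hΔ1 := hΔ.1
  have hΔ0 : 0 ≤ Δ := by linarith
  have hx0 : 0 < x := by linarith
  have hN0 : (0 : ℝ) < N := by exact_mod_cast hN
  have hR : 0 ≤ R2 N M Δ := by unfold R2; positivity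
  have p1 : 0 ≤ Δ ^ 7 * x ^ 71 * (X * √X) := by positivity
  have p2 : 0 ≤ M * Δ * B * X := by positivity
  have p3 : 0 ≤ (M : ℝ) ^ 3 * B * X / N := by positivity
  have p4 : 0 ≤ M * Δ * B * √(R2 N M Δ) * (B + x ^ 6 * √X) * √X := by positivity
  have p5 : 0 ≤ (M : ℝ) ^ 2 * Δ * B ^ 3 * R2 N M Δ := by positivity
  rcases hX0.eq_or_lt with rfl | hXp
  · have h0 : Q3 N M (Io (2 * T)) ν = 0 := by
      refine sum_eq_zero fun a ha => sum_eq_zero fun b _ => sum_eq_zero fun c _ => ?_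
      have h1 : ν a = 0 := by simpa using hsup a ha
      simp [h1]
    rw [h0, norm_zero, W2]
    positivity
  have hr : 0 < √X := Real.sqrt_pos.2 hXp
  have hA : 0 < x ^ 6 * √X := by positivity
  have hXA : X / (x ^ 6 * √X) = √X / x ^ 6 := by
    rw [div_eq_div_iff hA.ne' (by positivity), mul_left_comm, Real.mul_self_sqrt hX0, mul_comm]
  have hsub : Io (2 * T) ⊆ Io (2 * (2 * T)) := fun t ht => by
    rw [mem_Io] at ht ⊢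
    push_cast at ht ⊢
    omega
  set ν' : ℤ → ℝ := fun t => if t ∈ Io (2 * T) then ν t else 0 with hν'
  have e1 : ∑ t ∈ Io (2 * T), ν' t ^ 2 ≤ X :=
    (sum_cut_QTwo subset_rfl ν (fun y _ => y ^ 2) fun _ => by simp).trans_le hX
  have e2 : ∑ t ∈ Io (2 * (2 * T)), ν' t ^ 2 ≤ X :=
    (sum_cut_QTwo hsub ν (fun y _ => y ^ 2) fun _ => by simp).trans_le hX
  have e3 : ∀ v, FT (Io (2 * (2 * T))) ν' v = FT (Io (2 * T)) ν v := fun v =>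
    sum_cut_QTwo hsub ν (fun y t => (y : ℂ) * pw v (t : ℝ)) fun _ => by simp
  obtain ⟨g, g1, g2, g3, g4, g5⟩ :=
    hD (2 * T) ν' _ X (by omega) hA (fun t ht => if_neg ht) e1
  have g6 : ∀ t, |g t| ≤ 2 * √X / x ^ 6 := fun t => by
    have h1 : |ν' t| ≤ √X / x ^ 6 := by
      simp only [hν']
      split_ifs with h
      · exact hsup t h
      · rw [abs_zero]
        positivity
    have h2 := g4 t
    rw [hXA] at h2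
    have h3 := abs_sub_abs_le_abs_sub (g t) (ν' t)
    rw [abs_sub_comm] at h3
    rw [mul_div_assoc]
    linarith
  have k1 := hE N M Δ B _ X _ _ ν' g hN hM (DivB_mono hΔ hNM) hB0 (by positivity)
    (fun v hv => by rw [e3]; exact hν v hv) e2 g3 g2 g5
  have k2 := hP N M (Io (2 * (2 * T))) g (CB * (Δ ^ 4 * x ^ 71 * (X * √X) / N)) (by positivity)
    fun M₁ M₂ M₃ S₁ S₂ S₃ e₁ e₂ e₃ d1 d2 d3 l1 l2 l3 s1 s2 s3 =>
      hB x Δ X e₁ e₂ e₃ N _ M₁ M₂ M₃ Xd S₁ S₂ S₃ g hx hN d1 d2 d3 l1 l2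
        ((Nat.cast_le.2 l3).trans hMx) s1 s2 s3 (by push_cast; linarith) hXd hΔ g1 g3 g6 g2
  rw [Q3_cut_QTwo N M hsub, hXA] at k1
  have hlog := DivB_log hΔ ((Nat.le_mul_of_pos_left M hN).trans hNM)
  have k3 : ‖Q3 N M (Io (2 * (2 * T))) g‖ ≤ 8 * CB * (N : ℝ) ^ 2 * (Δ ^ 7 * x ^ 71 * (X * √X)) := by
    refine k2.trans (le_trans (mul_le_mul_of_nonneg_right (mul_le_mul_of_nonneg_right
      (mul_le_mul_of_nonneg_left (pow_le_pow_left₀ (by positivity) hlog 3) (by norm_num))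
      (by positivity)) (by positivity)) (le_of_eq ?_))
    field_simp
  have b1 : (M : ℝ) ^ 2 * (CD * (√X / x ^ 6)) * X ≤ CD * (Δ ^ 7 * x ^ 71 * (X * √X)) := by
    have h1 : (M : ℝ) ^ 2 / x ^ 6 ≤ Δ ^ 7 * x ^ 71 := by
      rw [div_le_iff₀ (by positivity), mul_assoc, ← pow_add]
      refine (pow_le_pow_left₀ (by positivity) hMx 2).trans ?_
      rw [← pow_mul]
      exact (pow_le_pow_right₀ hx (by norm_num)).trans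
        (le_mul_of_one_le_left (by positivity) (one_le_pow₀ hΔ1))
    calc _ = CD * ((M : ℝ) ^ 2 / x ^ 6 * (X * √X)) := by ring
      _ ≤ _ := by gcongr
  have b2 : M * Δ * (x ^ 6 * √X) * X ≤ Δ ^ 7 * x ^ 71 * (X * √X) := by
    have h1 : (M : ℝ) * x ^ 6 ≤ x ^ 71 := by
      refine (mul_le_mul_of_nonneg_right hMx (by positivity)).trans ?_
      rw [← pow_add]
      exact pow_le_pow_right₀ hx (by norm_num)
    have h2 : Δ ≤ Δ ^ 7 := le_self_pow₀ hΔ1 (by norm_num)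
    calc _ = Δ * (M * x ^ 6) * (X * √X) := by ring
      _ ≤ _ := by gcongr
  have b3 : M * Δ * B * √(R2 N M Δ) * (B + 3 * (x ^ 6 * √X)) * √X ≤
      3 * (M * Δ * B * √(R2 N M Δ) * (B + x ^ 6 * √X) * √X) := by
    calc _ ≤ M * Δ * B * √(R2 N M Δ) * (3 * (B + x ^ 6 * √X)) * √X := by
          gcongr
          linarith
      _ = _ := by ring
  have hW : Δ ^ 7 * x ^ 71 * (X * √X) ≤ W2 N M Δ B X x := by
    rw [W2]
    linarith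
  have b4 : (M : ℝ) ^ 2 * (CD * (√X / x ^ 6)) * X + M * Δ * (B + 3 * (x ^ 6 * √X)) * X +
      (M : ℝ) ^ 3 * B * X / N + M * Δ * B * √(R2 N M Δ) * (B + 3 * (x ^ 6 * √X)) * √X +
      (M : ℝ) ^ 2 * Δ * B ^ 3 * R2 N M Δ ≤ (CD + 3) * W2 N M Δ B X x := by
    have h1 := mul_le_mul_of_nonneg_left hW hCD.le
    have h2 : M * Δ * (B + 3 * (x ^ 6 * √X)) * X =
        M * Δ * B * X + 3 * (M * Δ * (x ^ 6 * √X) * X) := by ring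
    rw [add_mul CD, h2]
    have h3 : W2 N M Δ B X x = Δ ^ 7 * x ^ 71 * (X * √X) + M * Δ * B * X +
        (M : ℝ) ^ 3 * B * X / N + M * Δ * B * √(R2 N M Δ) * (B + x ^ 6 * √X) * √X +
        (M : ℝ) ^ 2 * Δ * B ^ 3 * R2 N M Δ := rfl
    linarith
  have k4 := k1.trans (mul_le_mul_of_nonneg_left b4 (by positivity))
  have k5 := k3.trans (mul_le_mul_of_nonneg_left hW (by positivity))
  have k6 := norm_le_norm_sub_add (Q3 N M (Io (2 * T)) ν) (Q3 N M (Io (2 * (2 * T))) g)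
  linarith

end Pool.Agent.MP_2a1f0e_nt.GM2

end

section

set_option autoImplicit false

open Finset

namespace Pool.Agent.MP_2a1f0e_nt.GM3

open GM GM2

lemma one_Q4 {M Δ y : ℝ} (hM0 : 0 ≤ M) (hM : M ≤ y ^ 30) (hy : 1 ≤ y) (hΔ : 1 ≤ Δ) :
    M ^ 2 / y ^ 3 ≤ Δ ^ 10 * y ^ 57 := by
  rw [div_le_iff₀ (by positivity), mul_assoc, ← pow_add]
  refine (pow_le_pow_left₀ hM0 hM 2).trans ?_
  rw [← pow_mul]
  exact le_mul_of_one_le_left (by positivity) (one_le_pow₀ hΔ)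

lemma two_Q4 {M Δ y : ℝ} (hM0 : 0 ≤ M) (hM : M ≤ y ^ 30) (hy : 1 ≤ y) (hΔ : 1 ≤ Δ) {i j : ℕ}
    (hi : i ≤ 10) (hj : j ≤ 27) : Δ ^ i * (M * y ^ j) ≤ Δ ^ 10 * y ^ 57 := by
  refine mul_le_mul (pow_le_pow_right₀ hΔ hi)
    ((mul_le_mul_of_nonneg_right hM (by positivity)).trans ?_) (by positivity) (by positivity)
  rw [← pow_add]
  exact pow_le_pow_right₀ hy (by omega)

lemma sqrt_Q4 {C k y r : ℝ} (hC : C ≤ k) (hk : 1 ≤ k) (hy : 1 ≤ y) (hr : 0 ≤ r) :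
    √(C * (r / y ^ 3) * (k * (y ^ 3 * r) + y ^ 18 * r)) ≤ 2 * k * y ^ 8 * r := by
  have y0 : 0 < y := by linarith
  refine Real.sqrt_le_iff.2 ⟨by positivity, ?_⟩
  have e : C * (r / y ^ 3) * (k * (y ^ 3 * r) + y ^ 18 * r) = C * (k + y ^ 15) * r ^ 2 := by
    field_simp
  have h1 : k ≤ k * y ^ 16 := le_mul_of_one_le_right (by linarith) (one_le_pow₀ hy)
  have h2 : y ^ 15 ≤ k * y ^ 16 :=
    (pow_le_pow_right₀ hy (by norm_num)).trans (le_mul_of_one_le_left (by positivity) hk)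
  have h3 : C * (k + y ^ 15) ≤ k * (4 * (k * y ^ 16)) :=
    mul_le_mul hC (by linarith) (by positivity) (by linarith)
  rw [e]
  exact (mul_le_mul_of_nonneg_right h3 (sq_nonneg r)).trans_eq (by ring)

lemma err_Q4 {N M Δ y r X C E₀ : ℝ} (hM0 : 0 ≤ M) (hM : M ≤ y ^ 30) (hy : 1 ≤ y) (hΔ : 1 ≤ Δ)
    (hr : 0 ≤ r) (hX : r * r = X) (hC : 1 ≤ C) (hE : 1 ≤ E₀) :
    N ^ 2 * (M ^ 2 * (C * (r / y ^ 3)) * X +
      M * Δ * √(C * (r / y ^ 3) * (3 * C * Δ * (y ^ 3 * r) + y ^ 18 * r)) *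
        (3 * C * Δ * (y ^ 3 * r)) * r) + (N ^ 2 * M * Δ + E₀ * N * (N * M)) * (y ^ 18 * r) * X ≤
      (C + 18 * C ^ 2 + 2) * (E₀ * N ^ 2 * (Δ ^ 10 * y ^ 57 * (X * r))) := by
  have y0 : 0 < y := by linarith
  have d0 : 0 < Δ := by linarith
  have c0 : 0 < C := by linarith
  have x0 : 0 ≤ X * r := by rw [← hX]; positivity
  have hk : C ≤ 3 * C * Δ := by nlinarith
  have b1 : M ^ 2 * (C * (r / y ^ 3)) * X ≤ C * (Δ ^ 10 * y ^ 57 * (X * r)) := by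
    have := one_Q4 hM0 hM hy hΔ
    calc _ = C * (M ^ 2 / y ^ 3 * (X * r)) := by ring
      _ ≤ _ := by gcongr
  have b2 : M * Δ * √(C * (r / y ^ 3) * (3 * C * Δ * (y ^ 3 * r) + y ^ 18 * r)) *
      (3 * C * Δ * (y ^ 3 * r)) * r ≤ 18 * C ^ 2 * (Δ ^ 10 * y ^ 57 * (X * r)) := by
    have h1 := sqrt_Q4 hk (hC.trans hk) hy hr
    have h2 := two_Q4 hM0 hM hy hΔ (i := 3) (j := 11) (by norm_num) (by norm_num)
    calc _ ≤ M * Δ * (2 * (3 * C * Δ) * y ^ 8 * r) * (3 * C * Δ * (y ^ 3 * r)) * r := by gcongr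
      _ = 18 * C ^ 2 * (Δ ^ 3 * (M * y ^ 11) * (X * r)) := by rw [← hX]; ring
      _ ≤ _ := by gcongr
  have b3 : (N ^ 2 * M * Δ + E₀ * N * (N * M)) * (y ^ 18 * r) * X ≤
      2 * (E₀ * N ^ 2 * (Δ ^ 10 * y ^ 57 * (X * r))) := by
    have h1 := two_Q4 hM0 hM hy hΔ (i := 1) (j := 18) (by norm_num) (by norm_num)
    have h2 : Δ + E₀ ≤ 2 * (E₀ * Δ) := by nlinarith
    calc _ = (Δ + E₀) * (N ^ 2 * (M * y ^ 18) * (X * r)) := by ring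
      _ ≤ 2 * (E₀ * Δ) * (N ^ 2 * (M * y ^ 18) * (X * r)) := by gcongr
      _ = 2 * (E₀ * N ^ 2 * (Δ ^ 1 * (M * y ^ 18) * (X * r))) := by ring
      _ ≤ _ := by gcongr
  have b4 := mul_le_mul_of_nonneg_left (add_le_add b1 b2) (sq_nonneg N)
  have b5 : N ^ 2 * (C * (Δ ^ 10 * y ^ 57 * (X * r)) + 18 * C ^ 2 * (Δ ^ 10 * y ^ 57 * (X * r))) ≤
      (C + 18 * C ^ 2) * (E₀ * N ^ 2 * (Δ ^ 10 * y ^ 57 * (X * r))) := by
    calc _ = (C + 18 * C ^ 2) * (1 * N ^ 2 * (Δ ^ 10 * y ^ 57 * (X * r))) := by ring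
      _ ≤ _ := by gcongr
  linarith

theorem q4_stmt (hD : DecStmt) (hE : ErrStmt) (hD3 : Dec3Stmt) (hE3 : Err3Stmt) (hP : PartStmt)
    (hB : Blk3Stmt) : Q4Stmt := by
  obtain ⟨CD, hCD, hD⟩ := hD
  obtain ⟨CE, hCE, hE⟩ := hE
  obtain ⟨C3, hC3, hD3⟩ := hD3
  obtain ⟨CF, hCF, hE3⟩ := hE3
  obtain ⟨CB, hCB, hB⟩ := hB
  have hC0 : 0 < C3 := by linarith
  refine ⟨CE * (CD + 3) + CF * (C3 + 18 * C3 ^ 2 + 2) + 216 * CB * C3 ^ 3, by positivity, ?_⟩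
  intro N M T Xd Δ B X x E₀ ν hN hM hT hx hMx hTx hNM hXd hΔ hB0 hE0 hHE hν hX
  have hX0 : 0 ≤ X := (sum_nonneg fun t _ => sq_nonneg _).trans hX
  have hΔ1 := hΔ.1
  have hΔ0 : 0 ≤ Δ := by linarith
  have hx0 : 0 < x := by linarith
  have hE1 : 0 < E₀ := by linarith
  have hN0 : (0 : ℝ) < N := by exact_mod_cast hN
  have hR : 0 ≤ R2 N M Δ := by unfold R2; positivity
  have p1 : 0 ≤ Δ ^ 10 * x ^ 57 * (X * √X) := by positivity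
  have p2 : 0 ≤ M * Δ * B * X := by positivity
  have p3 : 0 ≤ (M : ℝ) ^ 3 * B * X / N := by positivity
  have p4 : 0 ≤ M * Δ * B * √(R2 N M Δ) * (B + x ^ 3 * √X) * √X := by positivity
  have p5 : 0 ≤ (M : ℝ) ^ 2 * Δ * B ^ 3 * R2 N M Δ := by positivity
  rcases hX0.eq_or_lt with rfl | hXp
  · have h0 : Q3 N M (Io (2 * T)) ν = 0 := by
      refine sum_eq_zero fun a ha => sum_eq_zero fun b _ => sum_eq_zero fun c _ => ?_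
      have h1 : ν a = 0 := pow_eq_zero_iff two_ne_zero |>.1 (le_antisymm
        ((single_le_sum (f := fun t => ν t ^ 2) (fun t _ => sq_nonneg _) ha).trans hX)
        (sq_nonneg _))
      simp [h1]
    rw [h0, norm_zero, W3]
    positivity
  have hr : 0 < √X := Real.sqrt_pos.2 hXp
  have hA : 0 < x ^ 3 * √X := by positivity
  have hXA : X / (x ^ 3 * √X) = √X / x ^ 3 := by
    rw [div_eq_div_iff hA.ne' (by positivity), mul_left_comm, Real.mul_self_sqrt hX0, mul_comm]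
  have hXμ : X / (√X / x ^ 18) = x ^ 18 * √X := by
    rw [div_div_eq_mul_div, div_eq_iff hr.ne', mul_assoc, Real.mul_self_sqrt hX0, mul_comm]
  have hsub : Io (2 * T) ⊆ Io (2 * (2 * T)) := fun t ht => by
    rw [mem_Io] at ht ⊢
    push_cast at ht ⊢
    omega
  set ν' : ℤ → ℝ := fun t => if t ∈ Io (2 * T) then ν t else 0 with hν'
  have e1 : ∑ t ∈ Io (2 * T), ν' t ^ 2 ≤ X :=
    (sum_cut_QTwo subset_rfl ν (fun y _ => y ^ 2) fun _ => by simp).trans_le hX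
  have e2 : ∑ t ∈ Io (2 * (2 * T)), ν' t ^ 2 ≤ X :=
    (sum_cut_QTwo hsub ν (fun y _ => y ^ 2) fun _ => by simp).trans_le hX
  have e3 : ∀ v, FT (Io (2 * (2 * T))) ν' v = FT (Io (2 * T)) ν v := fun v =>
    sum_cut_QTwo hsub ν (fun y t => (y : ℂ) * pw v (t : ℝ)) fun _ => by simp
  obtain ⟨g, -, g2, g3, -, g5⟩ :=
    hD (2 * T) ν' _ X (by omega) hA (fun t ht => if_neg ht) e1
  have hNM' : N * M ≤ Xd := (Nat.mul_le_mul_right M (by omega)).trans hNM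
  have k1 := hE N M Δ B _ X _ _ ν' g hN hM (DivB_mono hΔ hNM') hB0 (by positivity)
    (fun v hv => by rw [e3]; exact hν v hv) e2 g3 g2 g5
  rw [Q3_cut_QTwo N M hsub, hXA] at k1
  obtain ⟨f, h, f1, f2, f3, f4, f5, f6⟩ :=
    hD3 (2 * (2 * T)) g _ (√X / x ^ 18) X (by omega) hA (by positivity) g3
  rw [hXμ] at f5
  rw [hXA] at f6
  have hL : ((2 * (2 * T) : ℕ) : ℝ) ≤ 4 * x ^ 180 := by
    push_cast
    linarith
  have hlogL := DivB_log hΔ (Y := 2 * (2 * T)) (by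
    have : 0 ≤ x ^ 180 := by positivity
    exact_mod_cast (by linarith : ((2 * (2 * T) : ℕ) : ℝ) ≤ Xd))
  have hk3 : 3 ≤ 3 * C3 * Δ := by nlinarith
  have f7 : ∀ v, ‖FT (Io (2 * (2 * T))) f v‖ ≤ 3 * C3 * Δ * (x ^ 3 * √X) := fun v =>
    (f3 v).trans (mul_le_mul_of_nonneg_right (by nlinarith) hA.le)
  have g7 : ∀ v, ‖FT (Io (2 * (2 * T))) g v‖ ≤ 3 * C3 * Δ * (x ^ 3 * √X) := fun v =>
    (g2 v).trans (mul_le_mul_of_nonneg_right hk3 hA.le)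
  have k0 := (hE3 N M Δ _ _ X _ _ _ g f h hN (DivB_mono hΔ hNM) (by positivity) hHE
    (by positivity) g3 f2 g7 f7 f6 f5).trans (mul_le_mul_of_nonneg_left
      (err_Q4 (Nat.cast_nonneg M) hMx hx hΔ1 hr.le (Real.mul_self_sqrt hX0) hC3 hE0) hCF.le)
  have k2 := hP N M (Io (2 * (2 * T))) f
    (CB * ((3 * C3 * Δ) ^ 3 * Δ ^ 4 * x ^ 57 * (X * √X) / N)) (by positivity)
    fun M₁ M₂ M₃ S₁ S₂ S₃ e₁ e₂ e₃ d1 d2 d3 l1 l2 l3 s1 s2 s3 =>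
      hB x Δ X _ e₁ e₂ e₃ N _ M₁ M₂ M₃ Xd S₁ S₂ S₃ f hx (by linarith) hN d1 d2 d3 l1 l2
        ((Nat.cast_le.2 l3).trans hMx) s1 s2 s3 hL hXd hΔ f1 f2 f4 f7
  have hlog := DivB_log hΔ ((Nat.le_mul_of_pos_left M hN).trans hNM')
  have k3 : ‖Q3 N M (Io (2 * (2 * T))) f‖ ≤
      216 * CB * C3 ^ 3 * ((N : ℝ) ^ 2 * (Δ ^ 10 * x ^ 57 * (X * √X))) := by
    refine k2.trans (le_trans (mul_le_mul_of_nonneg_right (mul_le_mul_of_nonneg_right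
      (mul_le_mul_of_nonneg_left (pow_le_pow_left₀ (by positivity) hlog 3) (by norm_num))
      (by positivity)) (by positivity)) (le_of_eq ?_))
    field_simp
    ring
  have b1 : (M : ℝ) ^ 2 * (CD * (√X / x ^ 3)) * X ≤ CD * (Δ ^ 10 * x ^ 57 * (X * √X)) := by
    have h1 := one_Q4 (Nat.cast_nonneg M) hMx hx hΔ1
    calc _ = CD * ((M : ℝ) ^ 2 / x ^ 3 * (X * √X)) := by ring
      _ ≤ _ := by gcongr
  have b2 : M * Δ * (x ^ 3 * √X) * X ≤ Δ ^ 10 * x ^ 57 * (X * √X) := by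
    have h1 := two_Q4 (Nat.cast_nonneg M) hMx hx hΔ1 (i := 1) (j := 3) (by norm_num) (by norm_num)
    calc _ = Δ ^ 1 * (M * x ^ 3) * (X * √X) := by ring
      _ ≤ _ := by gcongr
  have b3 : M * Δ * B * √(R2 N M Δ) * (B + 3 * (x ^ 3 * √X)) * √X ≤
      3 * (M * Δ * B * √(R2 N M Δ) * (B + x ^ 3 * √X) * √X) := by
    calc _ ≤ M * Δ * B * √(R2 N M Δ) * (3 * (B + x ^ 3 * √X)) * √X := by
          gcongr
          linarith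
      _ = _ := by ring
  have hW : Δ ^ 10 * x ^ 57 * (X * √X) ≤ W3 N M Δ B X x := by
    rw [W3]
    linarith
  have b4 : (M : ℝ) ^ 2 * (CD * (√X / x ^ 3)) * X + M * Δ * (B + 3 * (x ^ 3 * √X)) * X +
      (M : ℝ) ^ 3 * B * X / N + M * Δ * B * √(R2 N M Δ) * (B + 3 * (x ^ 3 * √X)) * √X +
      (M : ℝ) ^ 2 * Δ * B ^ 3 * R2 N M Δ ≤ (CD + 3) * W3 N M Δ B X x := by
    have h1 := mul_le_mul_of_nonneg_left hW hCD.le
    have h2 : M * Δ * (B + 3 * (x ^ 3 * √X)) * X =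
        M * Δ * B * X + 3 * (M * Δ * (x ^ 3 * √X) * X) := by ring
    rw [add_mul CD, h2]
    have h3 : W3 N M Δ B X x = Δ ^ 10 * x ^ 57 * (X * √X) + M * Δ * B * X +
        (M : ℝ) ^ 3 * B * X / N + M * Δ * B * √(R2 N M Δ) * (B + x ^ 3 * √X) * √X +
        (M : ℝ) ^ 2 * Δ * B ^ 3 * R2 N M Δ := rfl
    linarith
  have k4 := k1.trans (mul_le_mul_of_nonneg_left b4 (by positivity))
  have k6 := norm_le_norm_sub_add (Q3 N M (Io (2 * T)) ν) (Q3 N M (Io (2 * (2 * T))) g)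
  have k7 := norm_le_norm_sub_add (Q3 N M (Io (2 * (2 * T))) g) (Q3 N M (Io (2 * (2 * T))) f)
  have hW0 := p1.trans hW
  generalize W3 N M Δ B X x = W at *
  generalize Δ ^ 10 * x ^ 57 * (X * √X) = P at *
  have c1 : CE * (N : ℝ) ^ 2 * ((CD + 3) * W) ≤ CE * (CD + 3) * (E₀ * (N : ℝ) ^ 2 * W) := by
    calc _ = CE * (CD + 3) * (1 * (N : ℝ) ^ 2 * W) := by ring
      _ ≤ _ := by gcongr
  have c2 : CF * ((C3 + 18 * C3 ^ 2 + 2) * (E₀ * (N : ℝ) ^ 2 * P)) ≤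
      CF * ((C3 + 18 * C3 ^ 2 + 2) * (E₀ * (N : ℝ) ^ 2 * W)) := by gcongr
  have c3 : 216 * CB * C3 ^ 3 * ((N : ℝ) ^ 2 * P) ≤
      216 * CB * C3 ^ 3 * (E₀ * (N : ℝ) ^ 2 * W) := by
    calc _ = 216 * CB * C3 ^ 3 * (1 * (N : ℝ) ^ 2 * P) := by ring
      _ ≤ _ := by gcongr
  linarith

end Pool.Agent.MP_2a1f0e_nt.GM3

end
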