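import Pool.Agent.MP_2a1f0e_nt.GM2.Defs
import Pool.Agent.Mg.C853.G3e49c7
import Pool.Agent.Mg.C853.Gcbec5d

section

set_option autoImplicit false

open Finset

namespace Pool.Agent.MP_2a1f0e_nt.GM2

open GM

lemma triv_KKb (M : ℕ) (u : ℝ) : ‖KK M u‖ ≤ 3 * M := by
  refine (norm_sum_le _ _).trans ((sum_le_card_nsmul _ _ 1 fun n _ => ?_).trans_eq ?_)
  · rw [norm_mul, norm_pw, mul_one, Complex.norm_real, Real.norm_of_nonneg (Wt_nonneg _)]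
    exact Wt_le_one _
  · simp

lemma neg_KKb (M : ℕ) (u : ℝ) : ‖KK M (-u)‖ = ‖KK M u‖ := by
  rw [← conj_KK, Complex.norm_conj]

lemma pt_KKb {M r : ℝ} {m : ℤ} (hr0 : 0 < r) (hr : r ≤ M) (hm : m ≠ 0) :
    M * (r / |(m : ℝ) * M|) ^ 2 ≤ 2 * r * kp (m : ℝ) := by
  have hM : 0 < M := hr0.trans_le hr
  have h1 : (1 : ℝ) ≤ (m : ℝ) ^ 2 := by
    have : (1 : ℝ) ≤ |(m : ℝ)| := by exact_mod_cast Int.one_le_abs hm
    rw [← sq_abs]
    nlinarith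
  have e : M * (r / |(m : ℝ) * M|) ^ 2 = r * (r / M) / (m : ℝ) ^ 2 := by
    rw [div_pow, sq_abs]
    field_simp
  have h2 : r * (r / M) ≤ r := mul_le_of_le_one_right hr0.le ((div_le_one hM).2 hr)
  rw [e, kp, mul_one_div]
  refine (div_le_div_of_nonneg_right h2 (by positivity)).trans ?_
  rw [div_le_div_iff₀ (by positivity) (by positivity)]
  nlinarith

theorem kk_stmt (hD : DecayStmt) (hZ : ZeroStmt) (hP : PoisStmt) : KKStmt := by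
  obtain ⟨C, hC, hd⟩ := hD 2
  obtain ⟨C0, hC0, hz⟩ := hZ
  refine ⟨C0 + 12 * C + 3, by linarith, fun M hM u => ⟨?_, triv_KKb M u⟩⟩
  have hM0 : (0 : ℝ) < M := by exact_mod_cast hM
  have hk : 0 ≤ M * kp u := mul_nonneg hM0.le (kp_pos u).le
  have hr : 0 < 1 + |u| := by positivity
  rcases le_total (1 + |u|) M with h | h
  · have hn : ∀ ξ : ℝ, ‖(M : ℂ) * pw (M : ℝ) u * HH u ξ‖ = M * ‖HH u ξ‖ := fun ξ => by
      rw [norm_mul, norm_mul, norm_pw, mul_one, Complex.norm_natCast]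
    have key := tail_KOne (hP M hM u) ∅ (A := C0 * (M * kp u)) (B := C * (2 * (1 + |u|)))
      (by positivity) (by positivity)
      (by
        rw [hn, Int.cast_zero, zero_mul, mul_left_comm]
        exact mul_le_mul_of_nonneg_left (hz _) hM0.le)
      fun m hm _ => by
        rw [hn]
        refine (mul_le_mul_of_nonneg_left
          (hd _ _ (mul_ne_zero (Int.cast_ne_zero.2 hm) hM0.ne')) hM0.le).trans ?_
        rw [mul_left_comm, mul_assoc C]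
        exact mul_le_mul_of_nonneg_left (pt_KKb hr h hm) hC.le
    rw [sum_empty, sub_zero] at key
    nlinarith [mul_nonneg hC.le hk, mul_nonneg hC0.le hr.le]
  · nlinarith [triv_KKb M u, mul_nonneg hC.le hk, mul_nonneg hC0.le hr.le, mul_nonneg hC0.le hk,
      mul_nonneg hC.le hr.le]

lemma card_KKb {y : ℝ} (hy : 1 ≤ y) (D : Finset ℤ) :
    ((D.filter fun ρ : ℤ => |(ρ : ℝ)| ≤ y).card : ℝ) ≤ 3 * y := by
  have h1 : (D.filter fun ρ : ℤ => |(ρ : ℝ)| ≤ y) ⊆ Icc (-(⌊y⌋₊ : ℤ)) ⌊y⌋₊ := fun ρ hρ => by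
    have h2 : ((ρ.natAbs : ℕ) : ℝ) ≤ y := by
      rw [Nat.cast_natAbs, Int.cast_abs]
      exact (mem_filter.1 hρ).2
    have h3 := Nat.le_floor h2
    rw [mem_Icc]
    omega
  have h4 : (Icc (-(⌊y⌋₊ : ℤ)) ⌊y⌋₊).card = 2 * ⌊y⌋₊ + 1 := by
    rw [Int.card_Icc]
    omega
  have h5 := (Nat.cast_le (α := ℝ)).2 ((card_le_card h1).trans_eq h4)
  have h6 := Nat.floor_le (zero_le_one.trans hy)
  push_cast at h5
  linarith

theorem near_stmt (h : KKStmt) : NearStmt := by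
  obtain ⟨C, hC, hk⟩ := h
  refine ⟨12 * C, by linarith, fun y hy => ⟨fun M hM hMy D => ?_, ?_⟩⟩
  · simp only [neg_KKb, and_self]
    have h1 : ∑ ρ ∈ D.filter (fun ρ : ℤ => |(ρ : ℝ)| ≤ y), ‖KK M ρ‖ ≤
        ∑ ρ ∈ D.filter (fun ρ : ℤ => |(ρ : ℝ)| ≤ y), C * (M * kp (ρ : ℝ) + 2 * y) :=
      sum_le_sum fun ρ hρ => (hk M hM ρ).1.trans (mul_le_mul_of_nonneg_left
        (by linarith [(mem_filter.1 hρ).2]) (by linarith))
    rw [← mul_sum, sum_add_distrib, ← mul_sum, sum_const, nsmul_eq_mul] at h1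
    have h2 := mul_le_mul_of_nonneg_left (sum_kp_KOne (D.filter fun ρ : ℤ => |(ρ : ℝ)| ≤ y))
      (Nat.cast_nonneg (α := ℝ) M)
    have h3 := mul_le_mul_of_nonneg_right (card_KKb hy D) (by linarith : 0 ≤ 2 * y)
    have h4 : y ^ 2 ≤ y ^ 6 := pow_le_pow_right₀ hy (by norm_num)
    refine h1.trans ((mul_le_mul_of_nonneg_left (?_ : _ ≤ 12 * y ^ 6) (by linarith)).trans_eq ?_)
    · nlinarith
    · ring
  · have y0 : 0 < y := by linarith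
    have mid : ∀ M : ℕ, 1 ≤ M → (M : ℝ) ≤ y ^ 6 → ∀ ρ : ℝ, y < |ρ| → |ρ| < y ^ 4 →
        ‖KK M ρ‖ ≤ C * (3 * y ^ 4) := fun M hM hMy ρ h1 h2 => by
      refine (hk M hM ρ).1.trans (mul_le_mul_of_nonneg_left ?_ (by linarith))
      have h3 : M * kp ρ ≤ y ^ 4 := by
        have h4 : y ^ 2 ≤ ρ ^ 2 := by
          rw [← sq_abs ρ]
          exact pow_le_pow_left₀ y0.le h1.le 2
        rw [kp, mul_one_div, div_le_iff₀ (by positivity)]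
        nlinarith [pow_pos y0 4]
      linarith [one_le_pow₀ (n := 4) hy]
    intro M₁ M₂ m1 n1 m2 n2 ρ₁ ρ₂ hlt
    rw [neg_KKb] at hlt
    by_contra hn
    rw [not_or, not_le, max_lt_iff, not_and_or, not_le, not_le] at hn
    obtain ⟨h1, h2, h3⟩ := hn
    have t1 : ‖KK M₁ ρ₁‖ ≤ 3 * y ^ 6 := by linarith [triv_KKb M₁ ρ₁]
    have t2 : ‖KK M₂ ρ₂‖ ≤ 3 * y ^ 6 := by linarith [triv_KKb M₂ ρ₂]
    have p : 0 ≤ C * y ^ 10 := by positivity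
    rcases h1 with h1 | h1
    · have := mul_le_mul (mid M₁ m1 n1 ρ₁ h1 h2) t2 (norm_nonneg _) (by positivity)
      nlinarith
    · have := mul_le_mul t1 (mid M₂ m2 n2 ρ₂ h1 h3) (norm_nonneg _) (by positivity)
      nlinarith

end Pool.Agent.MP_2a1f0e_nt.GM2

end

section

set_option autoImplicit false

open Finset

namespace Pool.Agent.MP_2a1f0e_nt.GM2

open GM

lemma KK_eq_Far {M : ℕ} (hM : 1 ≤ M) (u : ℝ) : KK M u =
    ∑ n ∈ (Icc 1 (3 * M)).filter (fun n => 3 * M ≤ 4 * n),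
      (Wt ((n : ℝ) / M) : ℂ) * pw (n : ℝ) u := by
  unfold KK
  refine (sum_filter_of_ne fun n _ hn => ?_).symm
  by_contra h
  have h1 : (4 * n : ℝ) ≤ 3 * M := by exact_mod_cast (not_le.1 h).le
  have h2 : (0 : ℝ) < M := by exact_mod_cast hM
  rw [Wt_eq_zero (Or.inl (by rw [div_le_iff₀ h2]; linarith))] at hn
  simp at hn

lemma mom_Far (h : MomStmt) : ∃ C : ℝ, 0 < C ∧ ∀ (y Δ : ℝ) (M X k P : ℕ), 1 ≤ y → 1 ≤ M →
    (M : ℝ) ≤ y ^ 6 → 729 * y ^ 36 ≤ X → DivB X Δ → 1 ≤ k → k ≤ 5 →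
    ∑ ρ ∈ Icc (-(P : ℤ)) P, ‖KK M ρ‖ ^ (2 * k) ≤
      C * Δ ^ 6 * ((P + 243 * (y ^ (2 * k)) ^ 3) * (243 * (y ^ (2 * k)) ^ 3)) := by
  obtain ⟨C, hC, h⟩ := h
  refine ⟨C, hC, fun y Δ M X k P hy hM hMy hX hD k1 k5 => ?_⟩
  have hΔ : 0 ≤ Δ := zero_le_one.trans hD.1
  have e1 : ((3 * M : ℕ) : ℝ) ^ k ≤ 243 * (y ^ (2 * k)) ^ 3 := by
    have h3 : (3 : ℝ) ^ k ≤ 3 ^ 5 := pow_le_pow_right₀ (by norm_num) k5
    calc ((3 * M : ℕ) : ℝ) ^ k = 3 ^ k * (M : ℝ) ^ k := by push_cast; rw [mul_pow]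
      _ ≤ 3 ^ 5 * (y ^ 6) ^ k := by gcongr
      _ = 243 * (y ^ (2 * k)) ^ 3 := by rw [← pow_mul, ← pow_mul]; ring
  have e2 : (3 * M) ^ k ≤ X := by
    have h3 : (y ^ (2 * k)) ^ 3 ≤ y ^ 36 := by
      rw [← pow_mul]
      exact pow_le_pow_right₀ hy (by omega)
    have h4 : 0 ≤ y ^ 36 := by positivity
    have h5 : ((3 * M : ℕ) : ℝ) ^ k ≤ X := by linarith
    exact_mod_cast h5
  simp only [KK_eq_Far hM]
  refine (h k (3 * M) P X Δ _ (fun n => (Wt ((n : ℝ) / M) : ℂ)) k1 (by omega) (fun n _ => ?_)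
    (fun n hn => ?_) e2 hD).trans (by gcongr)
  · rw [Complex.norm_real, Real.norm_of_nonneg (Wt_nonneg _)]
    exact Wt_le_one _
  · rw [mem_filter, mem_Icc] at hn
    exact ⟨hn.1.1, hn.1.2, hn.2⟩

lemma piece_Far (a b : ℤ → ℝ) (ha : ∀ ρ, 0 ≤ a ρ) (hb : ∀ ρ, 0 ≤ b ρ) (I : Finset ℤ)
    (F : Finset (ℤ × ℤ)) (k : ℕ) (P q lam D : ℝ) (hk : 1 ≤ k) (hq : 0 < q) (hl : 0 < lam)
    (h1 : q ^ 10 ≤ lam ^ (2 * k)) (h2 : q ^ 2 ≤ 2 * P) (h3 : P ≤ 8 * q ^ 4)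
    (hA : ∑ ρ ∈ I, a ρ ^ (2 * k) ≤ D * ((2 * P + 243 * q ^ 3) * (243 * q ^ 3)))
    (hB : ∑ ρ ∈ I, b ρ ^ (2 * k) ≤ D * ((2 * P + 243 * q ^ 3) * (243 * q ^ 3)))
    (hF : ∀ p ∈ F, p ∈ I ×ˢ I ∧ lam < a p.1 * b p.2 ∧ P ≤ 1 + |(p.1 : ℝ)| + |(p.2 : ℝ)|) :
    ∑ p ∈ F, (a p.1 * b p.2) ^ 2 / (1 + |(p.1 : ℝ)| + |(p.2 : ℝ)|) ≤
      243 ^ 2 * (64 + 4 * 243 ^ 2) * D ^ 2 * lam ^ 2 := by
  have hP : 0 < P := by nlinarith [pow_pos hq 2]
  have hA0 : 0 ≤ ∑ ρ ∈ I, a ρ ^ (2 * k) := sum_nonneg fun ρ _ => pow_nonneg (ha ρ) _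
  have hB0 : 0 ≤ ∑ ρ ∈ I, b ρ ^ (2 * k) := sum_nonneg fun ρ _ => pow_nonneg (hb ρ) _
  have h4 : (2 * P + 243 * q ^ 3) ^ 2 ≤ (64 + 4 * 243 ^ 2) * (q ^ 4 * P) := by
    have h5 := mul_le_mul_of_nonneg_right h3 hP.le
    have h6 := mul_le_mul_of_nonneg_left h2 (pow_pos hq 4).le
    nlinarith [sq_nonneg (2 * P - 243 * q ^ 3)]
  calc _ ≤ ∑ p ∈ F, lam ^ 2 / (q ^ 10 * P) * (a p.1 ^ (2 * k) * b p.2 ^ (2 * k)) := by
        refine sum_le_sum fun p hp => ?_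
        obtain ⟨-, h5, h6⟩ := hF p hp
        rw [← mul_pow]
        generalize a p.1 * b p.2 = t at h5
        have h7 : (t / lam) ^ 2 ≤ (t / lam) ^ (2 * k) :=
          pow_le_pow_right₀ ((one_le_div hl).2 h5.le) (by omega)
        have ht : 0 < t := hl.trans h5
        calc t ^ 2 / (1 + |(p.1 : ℝ)| + |(p.2 : ℝ)|) ≤ t ^ 2 / P := by gcongr
          _ = lam ^ 2 / P * (t / lam) ^ 2 := by field_simp
          _ ≤ lam ^ 2 / P * (t ^ (2 * k) / lam ^ (2 * k)) := by rw [← div_pow t]; gcongr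
          _ ≤ lam ^ 2 / P * (t ^ (2 * k) / q ^ 10) := by gcongr
          _ = _ := by field_simp
    _ ≤ ∑ p ∈ I ×ˢ I, lam ^ 2 / (q ^ 10 * P) * (a p.1 ^ (2 * k) * b p.2 ^ (2 * k)) :=
        sum_le_sum_of_subset_of_nonneg (fun p hp => (hF p hp).1) fun p _ _ => by
          have := ha p.1
          have := hb p.2
          positivity
    _ = lam ^ 2 / (q ^ 10 * P) * ((∑ ρ ∈ I, a ρ ^ (2 * k)) * ∑ ρ ∈ I, b ρ ^ (2 * k)) := by
        rw [← mul_sum, sum_mul_sum, sum_product]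
    _ ≤ lam ^ 2 / (q ^ 10 * P) * (D * ((2 * P + 243 * q ^ 3) * (243 * q ^ 3)) *
          (D * ((2 * P + 243 * q ^ 3) * (243 * q ^ 3)))) :=
        mul_le_mul_of_nonneg_left (mul_le_mul hA hB hB0 (hA0.trans hA)) (by positivity)
    _ = 243 ^ 2 * D ^ 2 * lam ^ 2 / (q ^ 4 * P) * (2 * P + 243 * q ^ 3) ^ 2 := by field_simp
    _ ≤ 243 ^ 2 * D ^ 2 * lam ^ 2 / (q ^ 4 * P) * ((64 + 4 * 243 ^ 2) * (q ^ 4 * P)) := by gcongr
    _ = _ := by field_simp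

lemma choose_Far {y P : ℝ} (hy : 1 ≤ y) (h1 : y ^ 4 ≤ 2 * P) (h2 : P ≤ 8 * y ^ 36) :
    ∃ k : ℕ, 1 ≤ k ∧ k ≤ 5 ∧ (y ^ (2 * k)) ^ 2 ≤ 2 * P ∧ P ≤ 8 * (y ^ (2 * k)) ^ 4 := by
  have h0 : ∀ n, 0 ≤ y ^ n := fun n => by positivity
  have h3 : y ^ 20 ≤ y ^ 32 := pow_le_pow_right₀ hy (by norm_num)
  have h4 : y ^ 36 ≤ y ^ 40 := pow_le_pow_right₀ hy (by norm_num)
  simp only [← pow_mul]
  rcases le_total P (y ^ 8) with a | a
  · exact ⟨1, by norm_num, by norm_num, h1, by norm_num; linarith [h0 8]⟩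
  rcases le_total P (y ^ 16) with b | b
  · exact ⟨2, by norm_num, by norm_num, by norm_num; linarith [h0 8],
      by norm_num; linarith [h0 16]⟩
  rcases le_total P (y ^ 32) with c | c
  · exact ⟨4, by norm_num, by norm_num, by norm_num; linarith [h0 16],
      by norm_num; linarith [h0 32]⟩
  · exact ⟨5, by norm_num, by norm_num, by norm_num; linarith [h0 32], by norm_num; linarith⟩

theorem far_stmt (h : MomStmt) : FarStmt := by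
  obtain ⟨C, hC, h⟩ := mom_Far h
  refine ⟨243 ^ 2 * (64 + 4 * 243 ^ 2) * C ^ 2, by positivity,
    fun y lam Δ M₁ M₂ R X hy m1 m2 m3 m4 hR hX hD hl => ?_⟩
  have hn : ∀ u : ℝ, ‖KK M₁ (-u)‖ = ‖KK M₁ u‖ := fun u => by
    rw [← conj_KK, Complex.norm_conj]
  have hy0 : 0 < y := by linarith
  have hl0 : 0 < lam := (pow_pos hy0 10).trans_le hl
  have hc : ∀ p : ℤ × ℤ, ((max p.1.natAbs p.2.natAbs : ℕ) : ℝ) = max |(p.1 : ℝ)| |(p.2 : ℝ)| :=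
    fun p => by rw [Nat.cast_max, Nat.cast_natAbs, Nat.cast_natAbs, Int.cast_abs, Int.cast_abs]
  have hm : ∀ p ∈ Io R ×ˢ Io R, max p.1.natAbs p.2.natAbs ≤ R := fun p hp => by
    rw [mem_product, mem_Io, mem_Io] at hp
    omega
  have hRX : R ≤ X := by
    have : (R : ℝ) ≤ X := by linarith [pow_pos hy0 36]
    exact_mod_cast this
  simp only [hn]
  rw [← sum_product', ← sum_filter, ← sum_fiberwise_of_maps_to (t := range (Nat.log 2 X + 1))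
    (g := fun p : ℤ × ℤ => Nat.log 2 (max p.1.natAbs p.2.natAbs)) fun p hp =>
      mem_range.2 (Nat.lt_succ_of_le (Nat.log_mono_right ((hm p (mem_filter.1 hp).1).trans hRX)))]
  refine (sum_le_card_nsmul _ _ (243 ^ 2 * (64 + 4 * 243 ^ 2) * (C * Δ ^ 6) ^ 2 * lam ^ 2)
    fun j _ => ?_).trans ?_
  swap
  · rw [card_range, nsmul_eq_mul, Nat.cast_succ]
    exact (mul_le_mul_of_nonneg_right (DivB_log hD le_rfl) (by positivity)).trans_eq (by ring)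
  set F := ((Io R ×ˢ Io R).filter fun p : ℤ × ℤ => lam < ‖KK M₁ p.1‖ * ‖KK M₂ p.2‖ ∧
    y ^ 4 ≤ max |(p.1 : ℝ)| |(p.2 : ℝ)|).filter
      fun p : ℤ × ℤ => Nat.log 2 (max p.1.natAbs p.2.natAbs) = j with hF
  have key : ∀ p ∈ F, p ∈ Io R ×ˢ Io R ∧ lam < ‖KK M₁ p.1‖ * ‖KK M₂ p.2‖ ∧
      y ^ 4 ≤ max |(p.1 : ℝ)| |(p.2 : ℝ)| ∧ 2 ^ j ≤ max p.1.natAbs p.2.natAbs ∧
      max p.1.natAbs p.2.natAbs < 2 * 2 ^ j := fun p hp => by
    rw [hF, mem_filter, mem_filter] at hp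
    obtain ⟨⟨p1, p2, p3⟩, rfl⟩ := hp
    refine ⟨p1, p2, p3, Nat.pow_log_le_self 2 fun e => ?_, ?_⟩
    · rw [← hc, e, Nat.cast_zero] at p3
      exact absurd (pow_pos hy0 4) (not_lt.2 p3)
    · rw [← pow_succ']
      exact Nat.lt_pow_succ_log_self (by norm_num) _
  rcases F.eq_empty_or_nonempty with e | ⟨p₀, hp₀⟩
  · rw [e, sum_empty]
    positivity
  obtain ⟨q1, -, q3, q4, q5⟩ := key p₀ hp₀
  obtain ⟨k, k1, k5, k2, k3⟩ := choose_Far (P := (2 ^ j : ℕ)) hy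
    (by rw [← hc] at q3; exact q3.trans (by exact_mod_cast q5.le))
    (le_trans (by exact_mod_cast q4.trans (hm p₀ q1)) hR)
  have hA := h y Δ M₁ X k (2 * 2 ^ j) hy m1 m2 hX hD k1 k5
  have hB := h y Δ M₂ X k (2 * 2 ^ j) hy m3 m4 hX hD k1 k5
  rw [Nat.cast_mul (α := ℝ), Nat.cast_ofNat] at hA hB
  refine piece_Far (fun ρ => ‖KK M₁ ρ‖) (fun ρ => ‖KK M₂ ρ‖) (fun _ => norm_nonneg _)
    (fun _ => norm_nonneg _) _ F k _ _ lam _ k1 (by positivity) hl0 ?_ k2 k3 hA hB fun p hp => ?_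
  · rw [← pow_mul, mul_comm, pow_mul]
    gcongr
  · obtain ⟨-, p2, -, p4, p5⟩ := key p hp
    refine ⟨?_, p2, ?_⟩
    · rw [mem_product, mem_Icc, mem_Icc]
      omega
    · have p6 : ((2 ^ j : ℕ) : ℝ) ≤ max |(p.1 : ℝ)| |(p.2 : ℝ)| := by
        rw [← hc]
        exact_mod_cast p4
      have := abs_nonneg (p.1 : ℝ)
      have := abs_nonneg (p.2 : ℝ)
      exact p6.trans (max_le (by linarith) (by linarith))

end Pool.Agent.MP_2a1f0e_nt.GM2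

end

section

set_option autoImplicit false

open Finset

namespace Pool.Agent.MP_2a1f0e_nt.GM3

open GM GM2

lemma key_Near3 {C C' s : ℝ} (hC' : 2 * C ≤ C') (hs : 1 ≤ s) {M : ℕ} {u : ℤ} (n : ℕ)
    (h : ∀ z : ℝ, 1 ≤ z → 1 + |(u : ℝ)| ≤ z ^ 20 → ‖KK M (u : ℝ)‖ ≤ C * (M * kp u + z ^ 11))
    (hu : |(u : ℝ)| < s ^ (20 * n)) (hP : ¬ Pk C' M u) :
    ‖KK M (u : ℝ)‖ ≤ 4096 * C * s ^ (11 * n) := by
  have h1 : 1 ≤ s ^ n := one_le_pow₀ hs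
  have h2 : 1 ≤ s ^ (20 * n) := one_le_pow₀ hs
  have h3 := h (2 * s ^ n) (by linarith) (by
    rw [mul_pow, ← pow_mul, mul_comm n]
    norm_num
    linarith)
  rw [mul_pow, ← pow_mul, mul_comm n] at h3
  have hk : 0 ≤ M * kp u := mul_nonneg (Nat.cast_nonneg M) (kp_pos _).le
  have h4 := mul_le_mul_of_nonneg_right hC' hk
  rw [Pk, not_le] at hP
  generalize s ^ (11 * n) = t at h3 ⊢
  norm_num at h3
  nlinarith

theorem near3_stmt (hO : OscStmt) (hK : KKStmt) : Near3Stmt := by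
  obtain ⟨C, hC, h⟩ := hO
  obtain ⟨_, -, hk⟩ := hK
  have c1 : C ≤ C ^ 2 := le_self_pow₀ hC two_ne_zero
  refine ⟨4096 ^ 2 * C ^ 2, by nlinarith, fun y hy M₁ M₂ m1 n1 m2 n2 ρ₁ ρ₂ hlt => ?_⟩
  obtain ⟨s, hs, rfl⟩ : ∃ s : ℝ, 1 ≤ s ∧ y = s ^ 10 :=
    ⟨y ^ ((10 : ℕ) : ℝ)⁻¹, Real.one_le_rpow hy (by positivity),
      (Real.rpow_inv_natCast_pow (by linarith) (by norm_num)).symm⟩
  simp only [← pow_mul] at n1 n2 hlt ⊢
  have c2 : 2 * C ≤ 4096 ^ 2 * C ^ 2 := by nlinarith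
  have k1 : ∀ n, |(ρ₁ : ℝ)| < s ^ (20 * n) → ¬ Pk (4096 ^ 2 * C ^ 2) M₁ (-(ρ₁ : ℝ)) →
      ‖KK M₁ (-(ρ₁ : ℝ))‖ ≤ 4096 * C * s ^ (11 * n) := fun n hu hP => by
    have := key_Near3 c2 hs n (h M₁ m1 (-ρ₁)) (by rwa [Int.cast_neg, abs_neg])
      (by rwa [Int.cast_neg])
    rwa [Int.cast_neg] at this
  have k2 : ∀ n, |(ρ₂ : ℝ)| < s ^ (20 * n) → ¬ Pk (4096 ^ 2 * C ^ 2) M₂ ρ₂ →
      ‖KK M₂ ρ₂‖ ≤ 4096 * C * s ^ (11 * n) := fun n => key_Near3 c2 hs n (h M₂ m2 ρ₂)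
  have t1 : ‖KK M₁ (-(ρ₁ : ℝ))‖ ≤ 3 * s ^ (10 * 30) := by linarith [(hk M₁ m1 (-(ρ₁ : ℝ))).2]
  have t2 : ‖KK M₂ ρ₂‖ ≤ 3 * s ^ (10 * 30) := by linarith [(hk M₂ m2 ρ₂).2]
  have s0 : 0 < s := by linarith
  have e1 : s ^ (11 * 22) * s ^ (11 * 22) ≤ s ^ (10 * 49) := by
    rw [← pow_add]
    exact pow_le_pow_right₀ hs (by norm_num)
  have e2 : s ^ (10 * 30) * s ^ (11 * 15) ≤ s ^ (10 * 49) := by
    rw [← pow_add]
    exact pow_le_pow_right₀ hs (by norm_num)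
  have e3 : 3 * s ^ (10 * 30) * (4096 * C * s ^ (11 * 15)) ≤ 4096 ^ 2 * C ^ 2 * s ^ (10 * 49) :=
    calc _ = 3 * 4096 * C * (s ^ (10 * 30) * s ^ (11 * 15)) := by
          generalize s ^ (10 * 30) = a
          generalize s ^ (11 * 15) = b
          ring
      _ ≤ _ := mul_le_mul (by nlinarith) e2 (by positivity) (by positivity)
  by_contra hn
  simp only [not_or, not_le, max_lt_iff, not_and] at hn
  obtain ⟨h1, h2, h3, h4, h5⟩ := hn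
  refine absurd hlt (not_lt.2 ?_)
  by_cases p1 : Pk (4096 ^ 2 * C ^ 2) M₁ (-(ρ₁ : ℝ))
  · exact (mul_le_mul t1 (k2 15 (h2 p1) (h1 p1)) (norm_nonneg _) (by positivity)).trans e3
  by_cases p2 : Pk (4096 ^ 2 * C ^ 2) M₂ ρ₂
  · rw [mul_comm]
    exact (mul_le_mul t2 (k1 15 (not_le.1 fun h => h3 h p2) p1) (norm_nonneg _)
      (by positivity)).trans e3
  · refine (mul_le_mul (k1 22 h4 p1) (k2 22 h5 p2) (norm_nonneg _) (by positivity)).trans ?_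
    calc _ = 4096 ^ 2 * C ^ 2 * (s ^ (11 * 22) * s ^ (11 * 22)) := by
          generalize s ^ (11 * 22) = a
          ring
      _ ≤ _ := mul_le_mul_of_nonneg_left e1 (by positivity)

theorem mid3_stmt (hM : MomStmt) : Mid3Stmt := by
  obtain ⟨C, hC, h⟩ := hM
  refine ⟨24 * C, by positivity, fun y Δ M R X hy m1 m2 hR hX hD => ?_⟩
  simp only [neg_KKb, and_self]
  have hΔ : 0 ≤ Δ := zero_le_one.trans hD.1
  have hy0 : 0 < y := by linarith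
  have h30 : y ^ 30 ≤ y ^ 180 := pow_le_pow_right₀ hy (by norm_num)
  have p30 := pow_pos hy0 30
  have hc : ∀ ρ : ℤ, ((ρ.natAbs : ℕ) : ℝ) = |(ρ : ℝ)| := fun ρ => by
    rw [Nat.cast_natAbs, Int.cast_abs]
  have hm : ∀ ρ ∈ Io R, ρ.natAbs ≤ R := fun ρ hρ => by
    rw [mem_Io] at hρ
    omega
  have hRX : R ≤ X := by
    have : (R : ℝ) ≤ X := by linarith
    exact_mod_cast this
  have hMX : (3 * M) ^ 1 ≤ X := by
    have : ((3 * M : ℕ) : ℝ) ≤ X := by push_cast; linarith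
    rw [pow_one]
    exact_mod_cast this
  have mom : ∀ P : ℕ, ∑ ρ ∈ Icc (-(P : ℤ)) P, ‖KK M ρ‖ ^ 2 ≤
      C * Δ ^ 6 * ((P + 3 * M) * (3 * M)) := fun P => by
    simp only [KK_eq_Far m1]
    have := h 1 (3 * M) P X Δ ((Icc 1 (3 * M)).filter (fun n => 3 * M ≤ 4 * n))
      (fun n => (Wt ((n : ℝ) / M) : ℂ)) le_rfl (by omega) (fun n _ => by
        rw [Complex.norm_real, Real.norm_of_nonneg (Wt_nonneg _)]
        exact Wt_le_one _) (fun n hn => by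
        rw [mem_filter, mem_Icc] at hn
        exact ⟨hn.1.1, hn.1.2, hn.2⟩) hMX hD
    rwa [mul_one, pow_one, Nat.cast_mul, Nat.cast_ofNat] at this
  rw [← sum_filter, ← sum_fiberwise_of_maps_to (t := range (Nat.log 2 X + 1))
    (g := fun ρ : ℤ => Nat.log 2 ρ.natAbs) fun p hp =>
      mem_range.2 (Nat.lt_succ_of_le (Nat.log_mono_right ((hm p (mem_filter.1 hp).1).trans hRX)))]
  refine (sum_le_card_nsmul _ _ (24 * C * Δ ^ 6 * y ^ 30) fun j _ => ?_).trans ?_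
  swap
  · rw [card_range, nsmul_eq_mul, Nat.cast_succ]
    refine (mul_le_mul_of_nonneg_right (DivB_log hD le_rfl) (by positivity)).trans_eq ?_
    generalize y ^ 30 = a
    ring
  set F := ((Io R).filter fun ρ : ℤ => y ^ 30 ≤ |(ρ : ℝ)|).filter
      fun ρ : ℤ => Nat.log 2 ρ.natAbs = j with hF
  have key : ∀ ρ ∈ F, y ^ 30 ≤ |(ρ : ℝ)| ∧ 2 ^ j ≤ ρ.natAbs ∧ ρ.natAbs < 2 * 2 ^ j :=
    fun ρ hρ => by
      rw [hF, mem_filter, mem_filter] at hρ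
      obtain ⟨⟨-, p3⟩, rfl⟩ := hρ
      refine ⟨p3, Nat.pow_log_le_self 2 fun e => ?_, ?_⟩
      · rw [← hc, e, Nat.cast_zero] at p3
        exact absurd p30 (not_lt.2 p3)
      · rw [← pow_succ']
        exact Nat.lt_pow_succ_log_self (by norm_num) _
  rcases F.eq_empty_or_nonempty with e | ⟨p₀, hp₀⟩
  · rw [e, sum_empty]
    positivity
  obtain ⟨q1, -, q3⟩ := key p₀ hp₀
  set P : ℝ := ((2 ^ j : ℕ) : ℝ) with hP
  have P0 : 0 < P := by positivity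
  have q4 : y ^ 30 ≤ 2 * P := by
    rw [← hc] at q1
    exact q1.trans (by rw [hP]; exact_mod_cast q3.le)
  have hA := mom (2 * 2 ^ j)
  rw [Nat.cast_mul (α := ℝ), Nat.cast_ofNat, ← hP] at hA
  calc _ ≤ ∑ ρ ∈ F, ‖KK M ρ‖ ^ 2 / P := sum_le_sum fun ρ hρ => by
        have : P ≤ |(ρ : ℝ)| := by
          rw [← hc, hP]
          exact_mod_cast (key ρ hρ).2.1
        gcongr
        linarith
    _ ≤ ∑ ρ ∈ Icc (-((2 * 2 ^ j : ℕ) : ℤ)) (2 * 2 ^ j : ℕ), ‖KK M ρ‖ ^ 2 / P :=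
        sum_le_sum_of_subset_of_nonneg (fun ρ hρ => by
          have := (key ρ hρ).2.2
          rw [mem_Icc]
          omega) fun _ _ _ => by positivity
    _ ≤ C * Δ ^ 6 * ((2 * P + 3 * M) * (3 * M)) / P := by
        rw [← sum_div]
        gcongr
    _ ≤ C * Δ ^ 6 * ((8 * P) * (3 * y ^ 30)) / P := by
        gcongr
        linarith
    _ = _ := by
        generalize y ^ 30 = a
        field_simp
        ring

end Pool.Agent.MP_2a1f0e_nt.GM3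

end
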