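import Pool.Agent.MP_2a1f0e_nt.GM2.Defs

section

set_option autoImplicit false

open Finset

namespace Pool.Agent.MP_2a1f0e_nt.GM2

open GM

lemma cs_Core {ι : Type} (I : Finset ι) (A B : ι → ℝ → ℝ) {z₀ z₁ : ℝ} (h : z₀ ≤ z₁)
    (hA : ∀ i ∈ I, ContinuousOn (A i) (Set.Icc z₀ z₁))
    (hB : ∀ i ∈ I, ContinuousOn (B i) (Set.Icc z₀ z₁)) :
    (∫ z in z₀..z₁, ∑ i ∈ I, A i z * B i z) ^ 2 ≤
      (∫ z in z₀..z₁, ∑ i ∈ I, A i z ^ 2) * ∫ z in z₀..z₁, ∑ i ∈ I, B i z ^ 2 := by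
  have i1 : IntervalIntegrable (fun z => ∑ i ∈ I, A i z ^ 2) MeasureTheory.volume z₀ z₁ :=
    (continuousOn_finsetSum _ fun i hi => (hA i hi).pow 2).intervalIntegrable_of_Icc h
  have i2 : IntervalIntegrable (fun z => ∑ i ∈ I, A i z * B i z) MeasureTheory.volume z₀ z₁ :=
    (continuousOn_finsetSum _ fun i hi => (hA i hi).mul (hB i hi)).intervalIntegrable_of_Icc h
  have i3 : IntervalIntegrable (fun z => ∑ i ∈ I, B i z ^ 2) MeasureTheory.volume z₀ z₁ :=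
    (continuousOn_finsetSum _ fun i hi => (hB i hi).pow 2).intervalIntegrable_of_Icc h
  have key := discrim_le_zero (a := ∫ z in z₀..z₁, ∑ i ∈ I, A i z ^ 2)
    (b := -2 * ∫ z in z₀..z₁, ∑ i ∈ I, A i z * B i z)
    (c := ∫ z in z₀..z₁, ∑ i ∈ I, B i z ^ 2) fun t => by
    have h1 : 0 ≤ ∫ z in z₀..z₁, ((t * t) * ∑ i ∈ I, A i z ^ 2 +
        (-2 * t) * ∑ i ∈ I, A i z * B i z + ∑ i ∈ I, B i z ^ 2) :=
      intervalIntegral.integral_nonneg h fun z _ => by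
        rw [mul_sum, mul_sum, ← sum_add_distrib, ← sum_add_distrib]
        exact sum_nonneg fun i _ => by nlinarith [sq_nonneg (t * A i z - B i z)]
    rw [intervalIntegral.integral_add ((i1.const_mul _).add (i2.const_mul _)) i3,
      intervalIntegral.integral_add (i1.const_mul _) (i2.const_mul _),
      intervalIntegral.integral_const_mul, intervalIntegral.integral_const_mul] at h1
    linarith
  rw [discrim] at key
  linarith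

lemma sub_Core {M : ℕ} {S : Finset ℕ} (h : Dy M S) (f : ℕ → ℝ) (hf : ∀ n, 0 ≤ f n) :
    ∑ n ∈ S, f n ≤ ∑ n ∈ Icc 1 (3 * M), Wt ((n : ℝ) / M) * f n := by
  have hM : (0 : ℝ) < M := by exact_mod_cast h.1
  refine le_of_eq_of_le (sum_congr rfl fun n hn => ?_) (sum_le_sum_of_subset_of_nonneg
    (fun n hn => ?_) fun n _ _ => mul_nonneg (Wt_nonneg _) (hf n))
  · obtain ⟨h1, h2⟩ := mem_Ico.1 (h.2 hn)
    rw [Wt_eq_one ((one_le_div hM).2 (by exact_mod_cast h1))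
      ((div_le_iff₀ hM).2 (by exact_mod_cast h2.le)), one_mul]
  · obtain ⟨h1, h2⟩ := mem_Ico.1 (h.2 hn)
    have := h.1
    rw [mem_Icc]
    omega

theorem core_stmt (h : CVStmt) : CoreStmt := by
  obtain ⟨C, hC, h⟩ := h
  refine ⟨C, hC, fun a b κ σ z₀ z₁ X M₁ M₂ S₁ S₂ S₃ γ s g hL h1 h2 h3 hX => ?_⟩
  have hz : z₀ ≤ z₁ := hL.2.2.2.2.2.2.1
  have ha : 0 < a := hL.1
  have hb : 0 < b := hL.2.2.1
  have cz : ContinuousOn (fun z : ℝ => z) (Set.Icc z₀ z₁) := continuousOn_id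
  have cw : ContinuousOn (fun z : ℝ => κ + σ * z) (Set.Icc z₀ z₁) := by fun_prop
  have p1 : ∀ i ∈ S₁ ×ˢ S₂, (0 : ℝ) < i.1 ∧ (0 : ℝ) < i.2 := fun i hi =>
    ⟨by exact_mod_cast h1.one_le _ (mem_product.1 hi).1,
      by exact_mod_cast h2.one_le _ (mem_product.1 hi).2⟩
  have cA : ∀ i ∈ S₁ ×ˢ S₂, ContinuousOn
      (fun z => ‖FT s g ((κ + σ * z) / z * i.1 / i.2)‖) (Set.Icc z₀ z₁) := fun i hi =>
    (continuousOn_FT_comp s g (((cw.div cz fun p hp => (hL.pos hp).1.ne').mul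
      continuousOn_const).div_const _) fun p hp => div_pos (mul_pos
        (div_pos (hL.pos hp).2 (hL.pos hp).1) (p1 i hi).1) (p1 i hi).2).norm
  have cB : ∀ n₁ n₂ : ℕ, 1 ≤ n₁ → 1 ≤ n₂ → ContinuousOn
      (fun z => ‖Inn s g S₃ γ z (κ + σ * z) n₁ n₂‖) (Set.Icc z₀ z₁) := fun n₁ n₂ a1 a2 =>
    (continuousOn_Inn s g h3 γ cz cw (fun p hp => (hL.pos hp).1) (fun p hp => (hL.pos hp).2)
      a1 a2).norm
  have cB' : ∀ i ∈ S₁ ×ˢ S₂, ContinuousOn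
      (fun z => ‖Inn s g S₃ γ z (κ + σ * z) i.1 i.2‖) (Set.Icc z₀ z₁) := fun i hi =>
    cB _ _ (h1.one_le _ (mem_product.1 hi).1) (h2.one_le _ (mem_product.1 hi).2)
  have cs := cs_Core (S₁ ×ˢ S₂) _ _ hz cA cB'
  have hX0 : 0 ≤ X := (sum_nonneg fun _ _ => sq_nonneg _).trans hX
  have e1 : ∫ z in z₀..z₁, ∑ i ∈ S₁ ×ˢ S₂, ‖FT s g ((κ + σ * z) / z * i.1 / i.2)‖ ^ 2 ≤
      C * (M₁ * M₂ * (a * b) * X) := by
    refine le_of_eq_of_le (intervalIntegral.integral_finsetSum fun i hi =>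
      ((cA i hi).pow 2).intervalIntegrable_of_Icc hz)
      ((sum_le_card_nsmul _ _ (C * (a * b) * X) fun i hi => ?_).trans ?_)
    · refine le_of_eq_of_le ?_ ((h a b κ σ z₀ z₁ hL s fun t =>
        (g t : ℂ) * pw ((i.1 : ℝ) / i.2) t).2.2.trans (mul_le_mul_of_nonneg_left
          (le_of_eq_of_le ?_ hX) (by positivity)))
      · refine intervalIntegral.integral_congr fun z hz' => ?_
        rw [Set.uIcc_of_le hz] at hz'
        simp only [FT]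
        congr 2
        refine sum_congr rfl fun t _ => ?_
        rw [mul_div_assoc _ (i.1 : ℝ), pw_mul (div_pos (hL.pos hz').2 (hL.pos hz').1).ne'
          (div_pos (p1 i hi).1 (p1 i hi).2).ne']
        ring
      · exact sum_congr rfl fun t _ => by
          rw [norm_mul, norm_pw, mul_one, Complex.norm_real, Real.norm_eq_abs, sq_abs]
    · have c1 : ((S₁ ×ˢ S₂).card : ℝ) ≤ M₁ * M₂ := by
        rw [card_product]
        exact_mod_cast Nat.mul_le_mul h1.card_le h2.card_le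
      rw [nsmul_eq_mul]
      refine (mul_le_mul_of_nonneg_right c1 (by positivity)).trans (le_of_eq (by ring))
  have e2 : ∫ z in z₀..z₁, ∑ i ∈ S₁ ×ˢ S₂, ‖Inn s g S₃ γ z (κ + σ * z) i.1 i.2‖ ^ 2 ≤
      I2 s g M₁ M₂ S₃ γ κ σ z₀ z₁ := by
    refine intervalIntegral.integral_mono_on hz ((continuousOn_finsetSum _ fun i hi =>
      (cB' i hi).pow 2).intervalIntegrable_of_Icc hz) ((continuousOn_finsetSum _ fun n₁ a1 =>
      continuousOn_finsetSum _ fun n₂ a2 => continuousOn_const.mul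
        ((cB _ _ (mem_Icc.1 a1).1 (mem_Icc.1 a2).1).pow 2)).intervalIntegrable_of_Icc hz)
      fun z _ => ?_
    rw [sum_product]
    refine (sum_le_sum fun n₁ _ => sub_Core h2 _ fun _ => sq_nonneg _).trans
      ((sub_Core h1 _ fun _ => sum_nonneg fun _ _ => mul_nonneg (Wt_nonneg _) (sq_nonneg _)).trans
        (le_of_eq ?_))
    simp only [mul_sum, mul_assoc]
  simp only [Hf, ← sum_product']
  exact cs.trans (mul_le_mul e1 e2 (intervalIntegral.integral_nonneg hz fun _ _ =>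
    sum_nonneg fun _ _ => sq_nonneg _) (by positivity))

end Pool.Agent.MP_2a1f0e_nt.GM2

end

section

set_option autoImplicit false

open Finset

namespace Pool.Agent.MP_2a1f0e_nt.GM2

open GM

lemma reidx_Exp {L : ℕ} {g : ℤ → ℝ} (hg : Sup L g) {a : ℤ} (ha : a ∈ Io L) (F : ℤ → ℂ) :
    ∑ t ∈ Io L, (g t : ℂ) * F t = ∑ ρ ∈ Io (2 * L), (g (a - ρ) : ℂ) * F (a - ρ) := by
  have h1 : ∑ ρ ∈ Io (2 * L), (g (a - ρ) : ℂ) * F (a - ρ) =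
      ∑ t ∈ (Io (2 * L)).image (fun ρ => a - ρ), (g t : ℂ) * F t :=
    (sum_image (f := fun t => (g t : ℂ) * F t) fun x _ y _ h => sub_right_injective h).symm
  rw [h1]
  refine sum_subset (fun t ht => mem_image.2 ⟨a - t, ?_, sub_sub_cancel a t⟩) fun t _ ht => ?_
  · rw [mem_Io] at ha ht ⊢
    push_cast
    omega
  · rw [hg t ht, Complex.ofReal_zero, zero_mul]

lemma base_Exp {L : ℕ} {g : ℤ → ℝ} (hg : Sup L g) {x : ℝ} (hx : x ≠ 0) {n n' : ℕ} (hn : 1 ≤ n)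
    (hn' : 1 ≤ n') : FT (Io L) g (x * n) * (starRingEnd ℂ) (FT (Io L) g (x * n')) =
      ∑ ρ ∈ Io (2 * L), pw x ρ * Fh L g (n, n') ρ := by
  have h0 : (n : ℝ) ≠ 0 := Nat.cast_ne_zero.2 (by omega)
  have h0' : (n' : ℝ) ≠ 0 := Nat.cast_ne_zero.2 (by omega)
  have h1 : (starRingEnd ℂ) (FT (Io L) g (x * n')) =
      ∑ t ∈ Io L, (g t : ℂ) * pw (x * n') (-(t : ℝ)) := by
    rw [FT, map_sum]
    exact sum_congr rfl fun t _ => by rw [map_mul, Complex.conj_ofReal, conj_pw]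
  simp only [Fh, mul_sum]
  rw [h1, FT, sum_mul, sum_comm]
  refine sum_congr rfl fun a ha => ?_
  rw [reidx_Exp hg ha fun t => pw (x * n') (-(t : ℝ)), mul_sum]
  refine sum_congr rfl fun ρ _ => ?_
  have h2 : pw x ρ = pw x a * pw x (-((a : ℝ) - ρ)) := by
    rw [← pw_add]
    congr 1
    ring
  rw [pw_mul hx h0, pw_mul hx h0', h2]
  push_cast
  ring

lemma swap_Exp {α β ι : Type} (T₁ : Finset α) (T₂ : Finset β) (I : Finset ι) (W₁ : α → ℂ)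
    (W₂ : β → ℂ) (c : ι → ℂ) (A : ι → α → ℂ) (B : ι → β → ℂ) :
    ∑ a ∈ T₁, ∑ b ∈ T₂, W₁ a * W₂ b * ∑ i ∈ I, c i * (A i a * B i b) =
      ∑ i ∈ I, c i * ((∑ a ∈ T₁, W₁ a * A i a) * ∑ b ∈ T₂, W₂ b * B i b) := by
  simp only [sum_mul_sum]
  simp only [mul_sum]
  refine Eq.trans (sum_congr rfl fun a _ => sum_comm.trans ?_) sum_comm
  exact sum_congr rfl fun i _ => sum_congr rfl fun b _ => by ring

lemma kk_Exp (M : ℕ) (D : Finset ℤ) (c : ℤ → ℂ) (e : ℤ → ℝ) :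
    ∑ n ∈ Icc 1 (3 * M), (Wt ((n : ℝ) / M) : ℂ) * ∑ ρ ∈ D, c ρ * pw (n : ℝ) (e ρ) =
      ∑ ρ ∈ D, c ρ * KK M (e ρ) := by
  simp only [KK, mul_sum]
  rw [sum_comm]
  exact sum_congr rfl fun ρ _ => sum_congr rfl fun n _ => by ring

lemma inn_Exp {L : ℕ} {g : ℤ → ℝ} (hg : Sup L g) {S : Finset ℕ} (hS : ∀ n ∈ S, 1 ≤ n)
    (γ : ℕ → ℂ) {z w : ℝ} (hz : z ≠ 0) (hw : w ≠ 0) {n₁ n₂ : ℕ} (h1 : 1 ≤ n₁) (h2 : 1 ≤ n₂) :
    ((‖Inn (Io L) g S γ z w n₁ n₂‖ ^ 2 : ℝ) : ℂ) = ∑ i ∈ S ×ˢ S,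
      γ i.1 * (starRingEnd ℂ) (γ i.2) *
        ((∑ ρ ∈ Io (2 * L), pw z ρ * Fh L g i ρ * pw (n₁ : ℝ) (-(ρ : ℝ))) *
          ∑ ρ ∈ Io (2 * L), pw w (-(ρ : ℝ)) * (starRingEnd ℂ) (Fh L g i ρ) * pw (n₂ : ℝ) ρ) := by
  have a1 : (n₁ : ℝ) ≠ 0 := Nat.cast_ne_zero.2 (by omega)
  have a2 : (n₂ : ℝ) ≠ 0 := Nat.cast_ne_zero.2 (by omega)
  rw [Complex.ofReal_pow, ← Complex.mul_conj', Inn, map_sum, sum_mul_sum, sum_product]
  refine sum_congr rfl fun n hn => sum_congr rfl fun n' hn' => ?_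
  have e1 : ∀ m : ℕ, z * m / n₁ = z / n₁ * m := fun m => by ring
  have e2 : ∀ m : ℕ, FT (Io L) g (n₂ / (w * m)) =
      (starRingEnd ℂ) (FT (Io L) g (w / n₂ * m)) := fun m => by
    rw [conj_FT, div_mul_eq_mul_div, inv_div]
  have b1 := base_Exp hg (div_ne_zero hz a1) (hS n hn) (hS n' hn')
  have b2 := congrArg (starRingEnd ℂ) (base_Exp hg (div_ne_zero hw a2) (hS n hn) (hS n' hn'))
  have c1 : ∑ ρ ∈ Io (2 * L), pw z ρ * Fh L g (n, n') ρ * pw (n₁ : ℝ) (-(ρ : ℝ)) =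
      ∑ ρ ∈ Io (2 * L), pw (z / n₁) ρ * Fh L g (n, n') ρ :=
    sum_congr rfl fun ρ _ => by rw [pw_div hz a1]; ring
  have c2 : ∑ ρ ∈ Io (2 * L), pw w (-(ρ : ℝ)) * (starRingEnd ℂ) (Fh L g (n, n') ρ) *
      pw (n₂ : ℝ) ρ = (starRingEnd ℂ) (∑ ρ ∈ Io (2 * L), pw (w / n₂) ρ * Fh L g (n, n') ρ) := by
    rw [map_sum]
    exact sum_congr rfl fun ρ _ => by rw [map_mul, conj_pw, pw_div hw a2, neg_neg]; ring
  rw [c1, c2, ← b1, ← b2, e1, e1, e2, e2]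
  simp only [map_mul]
  ring

lemma point_Exp {L : ℕ} {g : ℤ → ℝ} (hg : Sup L g) {S : Finset ℕ} (hS : ∀ n ∈ S, 1 ≤ n)
    (γ : ℕ → ℂ) (M₁ M₂ : ℕ) {z w : ℝ} (hz : z ≠ 0) (hw : w ≠ 0) :
    ((∑ n₁ ∈ Icc 1 (3 * M₁), ∑ n₂ ∈ Icc 1 (3 * M₂), Wt ((n₁ : ℝ) / M₁) * Wt ((n₂ : ℝ) / M₂) *
      ‖Inn (Io L) g S γ z w n₁ n₂‖ ^ 2 : ℝ) : ℂ) = ∑ i ∈ S ×ˢ S,
      γ i.1 * (starRingEnd ℂ) (γ i.2) * ∑ ρ₁ ∈ Io (2 * L), ∑ ρ₂ ∈ Io (2 * L),
        Fh L g i ρ₁ * KK M₁ (-(ρ₁ : ℝ)) * ((starRingEnd ℂ) (Fh L g i ρ₂) * KK M₂ ρ₂) *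
          (pw z ρ₁ * pw w (-(ρ₂ : ℝ))) := by
  simp only [Complex.ofReal_sum, Complex.ofReal_mul]
  rw [sum_congr rfl fun n₁ h1 => sum_congr rfl fun n₂ h2 => by
    rw [inn_Exp hg hS γ hz hw (mem_Icc.1 h1).1 (mem_Icc.1 h2).1], swap_Exp]
  refine sum_congr rfl fun i _ => ?_
  rw [kk_Exp, kk_Exp, sum_mul_sum]
  exact congrArg _ (sum_congr rfl fun ρ₁ _ => sum_congr rfl fun ρ₂ _ => by ring)

lemma int_Exp {ι : Type} (s : Finset ι) {a b : ℝ} (f : ι → ℝ → ℂ)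
    (h : ∀ i, ContinuousOn (f i) (Set.uIcc a b)) :
    ∫ z in a..b, ∑ i ∈ s, f i z = ∑ i ∈ s, ∫ z in a..b, f i z :=
  intervalIntegral.integral_finsetSum fun i _ => (h i).intervalIntegrable

theorem exp_stmt : ExpStmt := by
  intro a b κ σ z₀ z₁ L M₁ M₂ S γ g hl hg hS hγ
  have hu : Set.uIcc z₀ z₁ = Set.Icc z₀ z₁ := Set.uIcc_of_le hl.2.2.2.2.2.2.1
  have hE : ∀ (c : ℂ) (ρ₁ ρ₂ : ℝ), ContinuousOn (fun z => c * (pw z ρ₁ * pw (κ + σ * z) ρ₂))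
      (Set.uIcc z₀ z₁) := fun c ρ₁ ρ₂ => by
    rw [hu]
    exact continuousOn_const.mul (((continuousOn_pw ρ₁).mono fun z hz => (hl.pos hz).1).mul
      ((continuousOn_pw ρ₂).comp (f := fun z => κ + σ * z) (by fun_prop)
        fun z hz => (hl.pos hz).2))
  have key : ((I2 (Io L) g M₁ M₂ S γ κ σ z₀ z₁ : ℝ) : ℂ) = ∑ i ∈ S ×ˢ S,
      γ i.1 * (starRingEnd ℂ) (γ i.2) * Bf (2 * L) M₁ M₂ κ σ z₀ z₁ (Fh L g i) := by
    rw [I2, ← intervalIntegral.integral_ofReal, intervalIntegral.integral_congr fun z hz =>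
      point_Exp hg hS γ M₁ M₂ (hl.pos (hu ▸ hz)).1.ne' (hl.pos (hu ▸ hz)).2.ne']
    refine (int_Exp _ _ fun i => ?_).trans (sum_congr rfl fun i _ => ?_)
    · exact continuousOn_const.mul (continuousOn_finsetSum _ fun ρ₁ _ =>
        continuousOn_finsetSum _ fun ρ₂ _ => hE _ _ _)
    rw [intervalIntegral.integral_const_mul, Bf, Bil]
    refine congrArg _ ((int_Exp _ _ fun ρ₁ => ?_).trans (sum_congr rfl fun ρ₁ _ => ?_))
    · exact continuousOn_finsetSum _ fun ρ₂ _ => hE _ _ _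
    exact (int_Exp _ _ fun ρ₂ => hE _ _ _).trans
      (sum_congr rfl fun ρ₂ _ => intervalIntegral.integral_const_mul _ _)
  refine (le_abs_self _).trans ?_
  rw [← Real.norm_eq_abs, ← Complex.norm_real, key]
  refine (norm_sum_le _ _).trans (sum_le_sum fun i hi => ?_)
  rw [norm_mul, norm_mul, Complex.norm_conj]
  exact mul_le_of_le_one_left (norm_nonneg _)
    (mul_le_one₀ (hγ _ (mem_product.1 hi).1) (norm_nonneg _) (hγ _ (mem_product.1 hi).2))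

end Pool.Agent.MP_2a1f0e_nt.GM2

end

section

set_option autoImplicit false

open Finset

namespace Pool.Agent.MP_2a1f0e_nt.GM2

open GM

open MeasureTheory in
lemma swap_Shear {F : ℝ × ℝ → ℝ} (hF : Integrable F (volume.prod volume)) (σ : ℝ) :
    ∫ z, ∫ w, F (z, w) = ∫ κ, ∫ z, F (z, κ + σ * z) ∧
      Integrable fun κ => ∫ z, F (z, κ + σ * z) := by
  have hm : MeasurePreserving (fun p : ℝ × ℝ => (id p.1, p.2 + σ * p.1)) (volume.prod volume)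
      (volume.prod volume) :=
    (MeasurePreserving.id volume).skew_product (g := fun z κ : ℝ => κ + σ * z) (by fun_prop)
      (.of_forall fun z => map_add_right_eq_self volume (σ * z))
  have hI := hm.integrable_comp_of_integrable hF
  refine ⟨?_, hI.integral_prod_right⟩
  rw [← integral_integral_swap (f := fun z κ => F (z, κ + σ * z)) hI]
  exact integral_congr_ae (.of_forall fun z =>
    (integral_add_right_eq_self (fun w => F (z, w)) (σ * z)).symm)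

open MeasureTheory in
lemma box_Shear {a a' b b' : ℝ} (ha : a ≤ a') (hb : b ≤ b') (φ : ℝ → ℝ → ℝ) :
    ∫ z in a..a', ∫ w in b..b', φ z w = ∫ z, ∫ w,
      (Set.Icc a a' ×ˢ Set.Icc b b').indicator (fun p : ℝ × ℝ => φ p.1 p.2) (z, w) := by
  simp only [intervalIntegral.integral_of_le ha, intervalIntegral.integral_of_le hb,
    ← integral_Icc_eq_integral_Ioc, ← integral_indicator measurableSet_Icc]
  refine integral_congr_ae (.of_forall fun z => ?_)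
  by_cases hz : z ∈ Set.Icc a a'
  · simp only [Set.indicator_of_mem hz]
    refine integral_congr_ae (.of_forall fun w => ?_)
    by_cases hw : w ∈ Set.Icc b b'
    · simp only [Set.indicator_of_mem hw, Set.indicator_of_mem (Set.mk_mem_prod hz hw)]
    · simp only [Set.indicator, Set.mem_prod, hw, and_false, if_false]
  · simp only [Set.indicator, Set.mem_prod, hz, false_and, if_false, integral_zero]

lemma slice_Shear {σ : ℝ} (hσ : Sg σ) (a a' b b' κ : ℝ) : ∃ z₀ z₁ : ℝ, ∀ z,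
    z ∈ Set.Icc z₀ z₁ ↔ z ∈ Set.Icc a a' ∧ κ + σ * z ∈ Set.Icc b b' := by
  rcases hσ with rfl | rfl
  · refine ⟨max a (b - κ), min a' (b' - κ), fun z => ?_⟩
    simp only [Set.mem_Icc, max_le_iff, le_min_iff]
    constructor <;> rintro ⟨⟨_, _⟩, _, _⟩ <;> refine ⟨⟨?_, ?_⟩, ?_, ?_⟩ <;> linarith
  · refine ⟨max a (κ - b'), min a' (κ - b), fun z => ?_⟩
    simp only [Set.mem_Icc, max_le_iff, le_min_iff]
    constructor <;> rintro ⟨⟨_, _⟩, _, _⟩ <;> refine ⟨⟨?_, ?_⟩, ?_, ?_⟩ <;> linarith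

open MeasureTheory in
lemma kp_Shear {L : ℝ} (hL : 0 < L) (c : ℝ) :
    Integrable (fun x => kp (L * (x + c))) ∧ ∫ x, kp (L * (x + c)) ≤ 4 / L := by
  have e : kp = fun x => (1 + x ^ 2)⁻¹ := funext fun x => one_div _
  refine ⟨((e ▸ integrable_inv_one_add_sq : Integrable kp).comp_mul_left' hL.ne').comp_add_right c,
    ?_⟩
  rw [integral_add_right_eq_self (fun x => kp (L * x)) c, Measure.integral_comp_mul_left, e,
    integral_univ_inv_one_add_sq, abs_of_pos (inv_pos.2 hL), smul_eq_mul, div_eq_inv_mul]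
  exact mul_le_mul_of_nonneg_left Real.pi_le_four (inv_pos.2 hL).le

lemma small_Shear {L c κ : ℝ} (hL : 0 < L) (hc : Sg c) (h : |κ| < 1 / 2) :
    kp (L * (κ + c)) ≤ 4 / L ^ 2 := by
  obtain ⟨h1, h2⟩ := abs_lt.1 h
  have h3 : 1 / 4 ≤ (κ + c) ^ 2 := by rcases hc with rfl | rfl <;> nlinarith
  rw [kp, div_le_div_iff₀ (by positivity) (by positivity), mul_pow]
  nlinarith [mul_le_mul_of_nonneg_left h3 (sq_nonneg L)]

open MeasureTheory in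
theorem shear_stmt : ShearStmt := by
  intro a b L Y₀ Y₁ e₁ e₂ e₃ H a0 a1 b0 b1 hL s1 s2 s3 hY hc h0 hY0 hl
  have ha : a / 6 ≤ 6 * a := by linarith
  have hb : b / 6 ≤ 6 * b := by linarith
  have hσ : Sg (-(e₁ * e₂)) := by
    rcases s1 with rfl | rfl <;> rcases s2 with rfl | rfl <;> simp [Sg]
  have hc3 : Sg (e₂ * e₃) := by
    rcases s2 with rfl | rfl <;> rcases s3 with rfl | rfl <;> simp [Sg]
  have hk : ∀ z κ, kp (L * (e₁ * z + e₂ * (κ + -(e₁ * e₂) * z) + e₃)) = kp (L * (κ + e₂ * e₃)) :=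
    fun z κ => by
      unfold kp
      rcases s2 with rfl | rfl <;> ring
  set B := Set.Icc (a / 6) (6 * a) ×ˢ Set.Icc (b / 6) (6 * b) with hB
  have hK : IsCompact B := isCompact_Icc.prod isCompact_Icc
  have hc' : ContinuousOn (fun p : ℝ × ℝ => H p.1 p.2) B := hc.mono fun p hp =>
    ⟨lt_of_lt_of_le (by positivity) hp.1.1, lt_of_lt_of_le (by positivity) hp.2.1⟩
  have i1 : Integrable (B.indicator fun p : ℝ × ℝ => H p.1 p.2) (volume.prod volume) :=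
    (hc'.integrableOn_compact hK).integrable_indicator hK.measurableSet
  have i2 : Integrable (B.indicator fun p : ℝ × ℝ =>
      kp (L * (e₁ * p.1 + e₂ * p.2 + e₃)) * H p.1 p.2) (volume.prod volume) :=
    (((continuous_kp.comp (by fun_prop)).continuousOn.mul hc').integrableOn_compact
      hK).integrable_indicator hK.measurableSet
  obtain ⟨u1, u2⟩ := swap_Shear i1 (-(e₁ * e₂))
  obtain ⟨v1, v2⟩ := swap_Shear i2 (-(e₁ * e₂))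
  obtain ⟨k1, k2⟩ := kp_Shear hL (e₂ * e₃)
  have area : ∫ z in (a / 6)..(6 * a), ∫ w in (b / 6)..(6 * b), H z w ≤ 36 * (a * b) * Y₀ := by
    have hY₀ : 0 ≤ Y₀ := (h0 0 0).trans (hY0 0 0)
    refine (le_abs_self _).trans ((intervalIntegral.norm_integral_le_of_norm_le_const
      fun z _ => intervalIntegral.norm_integral_le_of_norm_le_const (C := Y₀) fun w _ => by
        rw [Real.norm_of_nonneg (h0 z w)]; exact hY0 z w).trans ?_)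
    rw [abs_of_nonneg (sub_nonneg.2 ha), abs_of_nonneg (sub_nonneg.2 hb)]
    nlinarith [mul_nonneg (mul_pos a0 b0).le hY₀]
  rw [box_Shear ha hb, u1] at area
  rw [box_Shear ha hb, v1]
  have key : ∀ κ, ∫ z, B.indicator (fun p : ℝ × ℝ =>
      kp (L * (e₁ * p.1 + e₂ * p.2 + e₃)) * H p.1 p.2) (z, κ + -(e₁ * e₂) * z) ≤
      Y₁ * kp (L * (κ + e₂ * e₃)) +
        4 / L ^ 2 * ∫ z, B.indicator (fun p : ℝ × ℝ => H p.1 p.2) (z, κ + -(e₁ * e₂) * z) := by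
    intro κ
    simp only [Set.indicator_mul_right, hk, integral_const_mul]
    have p0 : 0 ≤ ∫ z, B.indicator (fun p : ℝ × ℝ => H p.1 p.2) (z, κ + -(e₁ * e₂) * z) :=
      integral_nonneg fun z => Set.indicator_nonneg (fun p _ => h0 p.1 p.2) _
    have p1 := (kp_pos (L * (κ + e₂ * e₃))).le
    rcases lt_or_ge |κ| (1 / 2) with h | h
    · exact le_add_of_nonneg_of_le (mul_nonneg hY p1)
        (mul_le_mul_of_nonneg_right (small_Shear hL hc3 h) p0)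
    · refine le_add_of_le_of_nonneg ?_ (mul_nonneg (by positivity) p0)
      rw [mul_comm]
      refine mul_le_mul_of_nonneg_right ?_ p1
      obtain ⟨z₀, z₁, hz⟩ := slice_Shear hσ (a / 6) (6 * a) (b / 6) (6 * b) κ
      have e : ∀ z, B.indicator (fun p : ℝ × ℝ => H p.1 p.2) (z, κ + -(e₁ * e₂) * z) =
          (Set.Icc z₀ z₁).indicator (fun z => H z (κ + -(e₁ * e₂) * z)) z := fun z => by
        simp only [Set.indicator, hB, Set.mem_prod, hz]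
      simp only [e, integral_indicator measurableSet_Icc]
      rcases le_or_gt z₀ z₁ with h1 | h1
      · rw [integral_Icc_eq_integral_Ioc, ← intervalIntegral.integral_of_le h1]
        exact hl _ _ _ _ ⟨a0, a1, b0, b1, hσ, h, h1, fun z => (hz z).1⟩
      · rwa [Set.Icc_eq_empty_of_lt h1, setIntegral_empty]
  refine (integral_mono v2 ((k1.const_mul Y₁).add (u2.const_mul (4 / L ^ 2))) key).trans ?_
  simp only [Pi.add_apply]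
  rw [integral_add (k1.const_mul Y₁) (u2.const_mul _), integral_const_mul, integral_const_mul]
  refine (add_le_add (mul_le_mul_of_nonneg_left k2 hY)
    (mul_le_mul_of_nonneg_left area (by positivity))).trans (le_of_eq (by ring))

end Pool.Agent.MP_2a1f0e_nt.GM2

end

section

set_option autoImplicit false
open Finset
namespace Pool.Agent.MP_2a1f0e_nt.GM2
open GM

theorem one_Num2 {W τ n x : ℝ} (hW : 1 ≤ W) (hn : 1 ≤ n) (hτ : 1 ≤ τ) (h3 : τ ^ 3 ≤ n ^ 2)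
    (hx : 0 ≤ x) (hM : x ^ 36 * n ^ 2 ≤ W * τ ^ 4) : x ^ 12 * τ ^ 2 ≤ W * n ^ 2 := by
  refine le_of_pow_le_pow_left₀ (n := 3) (by norm_num) (by positivity)
    (le_of_mul_le_mul_right ?_ (show 0 < n ^ 2 by positivity))
  calc _ = x ^ 36 * n ^ 2 * τ ^ 6 := by ring
    _ ≤ W * τ ^ 4 * τ ^ 6 := by gcongr
    _ = W ^ 1 * τ ^ 10 := by ring
    _ ≤ W ^ 3 * τ ^ 12 := by gcongr <;> norm_num
    _ = W ^ 3 * (τ ^ 3) ^ 4 := by ring
    _ ≤ W ^ 3 * (n ^ 2) ^ 4 := by gcongr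
    _ = _ := by ring

theorem two_Num2 {W τ n x : ℝ} (hW : 1 ≤ W) (hn : 1 ≤ n) (hτ : 1 ≤ τ) (h : τ ^ 176 ≤ n ^ 106)
    (hx : 0 ≤ x) (hM : x ^ 36 * n ^ 2 ≤ W * τ ^ 4) : n * x ^ 71 ≤ W ^ 2 * τ ^ 3 := by
  refine le_of_pow_le_pow_left₀ (n := 36) (by norm_num) (by positivity)
    (le_of_mul_le_mul_right ?_ (show 0 < n ^ 106 by positivity))
  calc _ = (x ^ 36 * n ^ 2) ^ 71 := by ring
    _ ≤ (W * τ ^ 4) ^ 71 := by gcongr
    _ = W ^ 71 * τ ^ 108 * τ ^ 176 := by ring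
    _ ≤ W ^ 72 * τ ^ 108 * n ^ 106 := by gcongr; norm_num
    _ = _ := by ring

theorem three_Num2 {W τ n x : ℝ} (hW : 1 ≤ W) (hn : 1 ≤ n) (hτ : 1 ≤ τ) (h4 : τ ^ 4 ≤ n ^ 3)
    (hx : 0 ≤ x) (hM : x ^ 36 * n ^ 2 ≤ W * τ ^ 4) : τ ^ 2 * x ^ 6 ≤ W * n ^ 2 := by
  refine le_of_pow_le_pow_left₀ (n := 6) (by norm_num) (by positivity)
    (le_of_mul_le_mul_right ?_ (show 0 < n ^ 2 by positivity))
  calc _ = x ^ 36 * n ^ 2 * τ ^ 12 := by ring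
    _ ≤ W * τ ^ 4 * τ ^ 12 := by gcongr
    _ = W ^ 1 * (τ ^ 4) ^ 4 := by ring
    _ ≤ W ^ 6 * (n ^ 3) ^ 4 := by gcongr; norm_num
    _ = W ^ 6 * n ^ 12 := by ring
    _ ≤ W ^ 6 * n ^ 14 := by gcongr; norm_num
    _ = _ := by ring

theorem core_Num2 {C P W τ n x y M Δ B s : ℝ} (hC : 1 ≤ C) (hP : P ≤ W) (hW : 1 ≤ W) (hn : 0 < n)
    (hτ : 0 < τ) (h1 : τ ≤ n) (h3 : τ ^ 3 ≤ n ^ 2) (h4 : τ ^ 4 ≤ n ^ 3) (hx : 0 ≤ x) (hy : 0 ≤ y)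
    (hM0 : 0 ≤ M) (hM : M * n ^ 2 ≤ W * τ ^ 4) (hΔ0 : 0 ≤ Δ) (hΔ : Δ ≤ W) (hB0 : 0 ≤ B)
    (hB : B ≤ W * n ^ 4) (hs0 : 0 ≤ s) (hs : s * n ^ 2 ≤ 2 * W * τ ^ 2)
    (x1 : n * x ^ 71 ≤ W ^ 2 * τ ^ 3) (x2 : τ ^ 2 * x ^ 6 ≤ W * n ^ 2)
    (h : y ^ 6 ≤ C * (n ^ 10 * (Δ ^ 7 * x ^ 71 * y ^ 3) + n ^ 10 * (M * Δ * B * y ^ 2) +
      n ^ 8 * (M ^ 3 * B * y ^ 2) + n ^ 10 * (M * Δ * B ^ 2 * s * y) +
      n ^ 10 * (M * Δ * B * s * x ^ 6 * y ^ 2) + n ^ 10 * (M ^ 2 * Δ * B ^ 3 * s ^ 2) +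
      P * (τ * n ^ 3) ^ 4 * y ^ 2)) :
    y ≤ 12 * C * W ^ 3 * (τ * n ^ 3) := by
  have hz : 0 < τ * n ^ 3 := by positivity
  have q3 : 1 ≤ W ^ 3 := one_le_pow₀ hW
  have hCW : 1 ≤ 12 * C := by linarith
  by_contra hc
  rw [not_le] at hc
  have hzy : τ * n ^ 3 ≤ y :=
    (le_mul_of_one_le_left hz.le (one_le_mul_of_one_le_of_one_le hCW q3)).trans hc.le
  have hy0 : 0 < y := hz.trans_le hzy
  have t0 : (τ * n ^ 3) ^ 4 * y ^ 2 ≤ (τ * n ^ 3) ^ 3 * y ^ 3 :=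
    calc _ = (τ * n ^ 3) ^ 3 * ((τ * n ^ 3) * y ^ 2) := by ring
      _ ≤ (τ * n ^ 3) ^ 3 * (y * y ^ 2) := by gcongr
      _ = _ := by ring
  have t1 : n ^ 10 * (Δ ^ 7 * x ^ 71 * y ^ 3) ≤ W ^ 9 * ((τ * n ^ 3) ^ 3 * y ^ 3) :=
    calc _ = Δ ^ 7 * (n * x ^ 71) * (n ^ 9 * y ^ 3) := by ring
      _ ≤ W ^ 7 * (W ^ 2 * τ ^ 3) * (n ^ 9 * y ^ 3) := by gcongr
      _ = _ := by ring
  have t2 : n ^ 10 * (M * Δ * B * y ^ 2) ≤ W ^ 9 * ((τ * n ^ 3) ^ 3 * y ^ 3) :=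
    calc _ = n ^ 8 * (M * n ^ 2) * Δ * B * y ^ 2 := by ring
      _ ≤ n ^ 8 * (W * τ ^ 4) * W * (W * n ^ 4) * y ^ 2 := by gcongr
      _ = W ^ 3 * ((τ * n ^ 3) ^ 4 * y ^ 2) := by ring
      _ ≤ _ := by gcongr; norm_num
  have t3 : n ^ 8 * (M ^ 3 * B * y ^ 2) ≤ W ^ 9 * ((τ * n ^ 3) ^ 3 * y ^ 3) :=
    calc _ = n ^ 2 * (M * n ^ 2) ^ 3 * B * y ^ 2 := by ring
      _ ≤ n ^ 2 * (W * τ ^ 4) ^ 3 * (W * n ^ 4) * y ^ 2 := by gcongr
      _ = W ^ 4 * ((τ ^ 4) ^ 2 * (τ ^ 4 * n ^ 6 * y ^ 2)) := by ring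
      _ ≤ W ^ 4 * ((n ^ 3) ^ 2 * (τ ^ 4 * n ^ 6 * y ^ 2)) := by gcongr
      _ = W ^ 4 * ((τ * n ^ 3) ^ 4 * y ^ 2) := by ring
      _ ≤ _ := by gcongr; norm_num
  have t4 : n ^ 10 * (M * Δ * B ^ 2 * s * y) ≤ 2 * W ^ 9 * ((τ * n ^ 3) ^ 3 * y ^ 3) :=
    calc _ = n ^ 6 * (M * n ^ 2) * Δ * B ^ 2 * (s * n ^ 2) * y := by ring
      _ ≤ n ^ 6 * (W * τ ^ 4) * W * (W * n ^ 4) ^ 2 * (2 * W * τ ^ 2) * y := by gcongr
      _ = 2 * W ^ 5 * (τ * (τ ^ 5 * n ^ 14 * y)) := by ring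
      _ ≤ 2 * W ^ 9 * (n * (τ ^ 5 * n ^ 14 * y)) := by gcongr; norm_num
      _ = 2 * W ^ 9 * ((τ * n ^ 3) ^ 3 * ((τ * n ^ 3) ^ 2 * y)) := by ring
      _ ≤ 2 * W ^ 9 * ((τ * n ^ 3) ^ 3 * (y ^ 2 * y)) := by gcongr
      _ = _ := by ring
  have t5 : n ^ 10 * (M * Δ * B * s * x ^ 6 * y ^ 2) ≤ 2 * W ^ 9 * ((τ * n ^ 3) ^ 3 * y ^ 3) :=
    calc _ = n ^ 6 * (M * n ^ 2) * Δ * B * (s * n ^ 2) * x ^ 6 * y ^ 2 := by ring
      _ ≤ n ^ 6 * (W * τ ^ 4) * W * (W * n ^ 4) * (2 * W * τ ^ 2) * x ^ 6 * y ^ 2 := by gcongr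
      _ = 2 * W ^ 4 * ((τ ^ 2 * x ^ 6) * (τ ^ 4 * n ^ 10 * y ^ 2)) := by ring
      _ ≤ 2 * W ^ 4 * ((W * n ^ 2) * (τ ^ 4 * n ^ 10 * y ^ 2)) := by gcongr
      _ = 2 * W ^ 5 * ((τ * n ^ 3) ^ 4 * y ^ 2) := by ring
      _ ≤ _ := by gcongr; norm_num
  have t6 : n ^ 10 * (M ^ 2 * Δ * B ^ 3 * s ^ 2) ≤ 4 * W ^ 9 * ((τ * n ^ 3) ^ 3 * y ^ 3) :=
    calc _ = n ^ 2 * (M * n ^ 2) ^ 2 * Δ * B ^ 3 * (s * n ^ 2) ^ 2 := by ring
      _ ≤ n ^ 2 * (W * τ ^ 4) ^ 2 * W * (W * n ^ 4) ^ 3 * (2 * W * τ ^ 2) ^ 2 := by gcongr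
      _ = 4 * W ^ 8 * ((τ ^ 3) ^ 2 * (τ ^ 6 * n ^ 14)) := by ring
      _ ≤ 4 * W ^ 9 * ((n ^ 2) ^ 2 * (τ ^ 6 * n ^ 14)) := by gcongr; norm_num
      _ = 4 * W ^ 9 * ((τ * n ^ 3) ^ 3 * (τ * n ^ 3) ^ 3) := by ring
      _ ≤ _ := by gcongr
  have t7 : P * (τ * n ^ 3) ^ 4 * y ^ 2 ≤ W ^ 9 * ((τ * n ^ 3) ^ 3 * y ^ 3) := by
    rw [mul_assoc]
    gcongr
    exact hP.trans (le_self_pow₀ hW (by norm_num))
  have t8 : y ^ 3 * y ^ 3 ≤ (12 * C * W ^ 3 * (τ * n ^ 3)) ^ 3 * y ^ 3 :=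
    calc _ = y ^ 6 := by ring
      _ ≤ _ := h
      _ ≤ C * (12 * W ^ 9 * ((τ * n ^ 3) ^ 3 * y ^ 3)) :=
        mul_le_mul_of_nonneg_left (by linarith) (by linarith)
      _ = (12 * C) ^ 1 * (W ^ 9 * ((τ * n ^ 3) ^ 3 * y ^ 3)) := by ring
      _ ≤ (12 * C) ^ 3 * (W ^ 9 * ((τ * n ^ 3) ^ 3 * y ^ 3)) := by gcongr; norm_num
      _ = _ := by ring
  exact absurd (le_of_pow_le_pow_left₀ (by norm_num) (by positivity)
    (le_of_mul_le_mul_right t8 (by positivity))) (not_le.2 hc)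

theorem sq_Num2 {W τ n M Δ : ℝ} (hW : 1 ≤ W) (hn : 0 < n) (hτ : 0 < τ) (h1 : τ ≤ n)
    (hM0 : 0 ≤ M) (hM : M * n ^ 2 ≤ W * τ ^ 4) (hΔ0 : 0 ≤ Δ) (hΔ : Δ ≤ W) :
    √(M ^ 2 / (n ^ 2) ^ 2 + M * Δ / n ^ 2) * n ^ 2 ≤ 2 * W * τ ^ 2 := by
  rw [← le_div_iff₀ (by positivity)]
  refine Real.sqrt_le_iff.2 ⟨by positivity, ?_⟩
  have a1 : M ^ 2 / (n ^ 2) ^ 2 ≤ (W * τ ^ 2 / n ^ 2) ^ 2 := by
    rw [div_pow]
    refine div_le_div_of_nonneg_right (le_of_mul_le_mul_right ?_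
      (show 0 < n ^ 4 by positivity)) (by positivity)
    calc _ = (M * n ^ 2) ^ 2 := by ring
      _ ≤ (W * τ ^ 4) ^ 2 := by gcongr
      _ = (W * τ ^ 2) ^ 2 * τ ^ 4 := by ring
      _ ≤ _ := by gcongr
  have a2 : M * Δ / n ^ 2 ≤ (W * τ ^ 2 / n ^ 2) ^ 2 := by
    rw [div_pow, div_le_div_iff₀ (by positivity) (by positivity)]
    calc _ = M * n ^ 2 * Δ * n ^ 2 := by ring
      _ ≤ W * τ ^ 4 * W * n ^ 2 := by gcongr
      _ = _ := by ring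
  have a3 : (2 * W * τ ^ 2 / n ^ 2) ^ 2 = 4 * (W * τ ^ 2 / n ^ 2) ^ 2 := by ring
  have a4 := sq_nonneg (W * τ ^ 2 / n ^ 2)
  linarith

theorem num2_stmt : Num2Stmt := by
  intro δ C hδ hC
  refine ⟨144 * C ^ 8, by positivity,
    fun N T M Δ B X x hN hT h5 hx exM hM hΔ1 hΔ hB0 hB hX h => ?_⟩
  have hN1 : (1 : ℝ) ≤ N := by exact_mod_cast hN
  have hT1 : (1 : ℝ) ≤ T := by exact_mod_cast hN.trans hT
  have h5' : (T : ℝ) ^ 44 ≤ (N : ℝ) ^ 53 := by exact_mod_cast h5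
  have hP : 1 ≤ (N : ℝ) ^ δ := Real.one_le_rpow hN1 hδ.le
  have e6 : (N : ℝ) ^ (6 * δ) = ((N : ℝ) ^ δ) ^ 6 := by
    rw [mul_comm, Real.rpow_mul (by linarith)]
    exact_mod_cast Real.rpow_natCast _ 6
  rw [e6]
  have hM0 : (0 : ℝ) ≤ M := Nat.cast_nonneg M
  unfold W2 R2 at h
  generalize (N : ℝ) ^ δ = P at *
  generalize (M : ℝ) = M at *
  obtain ⟨n, hn, en⟩ : ∃ n : ℝ, 1 ≤ n ∧ (N : ℝ) = n ^ 2 :=
    ⟨√N, Real.one_le_sqrt.2 hN1, (Real.sq_sqrt (by linarith)).symm⟩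
  obtain ⟨τ, hτ, eT⟩ : ∃ τ : ℝ, 1 ≤ τ ∧ (T : ℝ) = (τ ^ 2) ^ 2 :=
    ⟨√(√T), Real.one_le_sqrt.2 (Real.one_le_sqrt.2 hT1), by
      rw [Real.sq_sqrt (Real.sqrt_nonneg _), Real.sq_sqrt (by linarith)]⟩
  obtain ⟨y, hy, rfl⟩ : ∃ y : ℝ, 0 ≤ y ∧ X = y ^ 2 :=
    ⟨√X, Real.sqrt_nonneg _, (Real.sq_sqrt hX).symm⟩
  rw [en, eT] at h hM h5' ⊢
  rw [en] at hB
  rw [Real.sqrt_sq hy] at h
  rw [Real.sqrt_sq (by positivity)]
  have hW : 1 ≤ C * P := one_le_mul_of_one_le_of_one_le hC hP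
  have hPW : P ≤ C * P := le_mul_of_one_le_left (by linarith) hC
  have hn0 : 0 < n := by linarith
  have hτ0 : 0 < τ := by linarith
  have hx0 : 0 ≤ x := by linarith
  have h6 : τ ^ 176 ≤ n ^ 106 := by
    rwa [← pow_mul, ← pow_mul, ← pow_mul] at h5'
  have h3 : τ ^ 3 ≤ n ^ 2 :=
    le_of_pow_le_pow_left₀ (n := 176) (by norm_num) (by positivity) (by
      calc _ = (τ ^ 176) ^ 3 := by rw [← pow_mul, ← pow_mul]
        _ ≤ (n ^ 106) ^ 3 := by gcongr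
        _ ≤ _ := by
          rw [← pow_mul, ← pow_mul]
          exact pow_le_pow_right₀ hn (by norm_num))
  have h1 : τ ≤ n := le_of_pow_le_pow_left₀ (n := 2) (by norm_num) hn0.le
    ((pow_le_pow_right₀ hτ (by norm_num)).trans h3)
  have h4 : τ ^ 4 ≤ n ^ 3 := by
    rw [pow_succ τ 3, pow_succ n 2]
    gcongr
  have hM' : M * n ^ 2 ≤ C * P * τ ^ 4 := by
    rw [← mul_div_assoc, le_div_iff₀ (by positivity)] at hM
    exact hM.trans_eq (by ring)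
  have hMx : x ^ 36 * n ^ 2 ≤ C * P * τ ^ 4 := exM ▸ hM'
  have hfin : 144 * C ^ 8 * P ^ 6 * (τ ^ 2 * (n ^ 2) ^ 3) =
      (12 * C * (C * P) ^ 3 * (τ * n ^ 3)) ^ 2 := by ring
  rw [hfin]
  rcases h with h | h
  · have h7 := one_Num2 hW hn hτ h3 hx0 hMx
    have h8 : 1 ≤ (12 * C) ^ 2 := one_le_pow₀ (by linarith)
    calc _ ≤ _ := h
      _ = x ^ 12 * τ ^ 2 * (τ ^ 2 * n ^ 4) := by ring
      _ ≤ C * P * n ^ 2 * (τ ^ 2 * n ^ 4) := by gcongr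
      _ = 1 * (C * P) ^ 1 * (τ * n ^ 3) ^ 2 := by ring
      _ ≤ (12 * C) ^ 2 * (C * P) ^ 6 * (τ * n ^ 3) ^ 2 := by gcongr; norm_num
      _ = _ := by ring
  · have hs := sq_Num2 hW hn0 hτ0 h1 hM0 hM' (by linarith) hΔ
    have hR : 0 ≤ M ^ 2 / (n ^ 2) ^ 2 + M * Δ / n ^ 2 := by positivity
    have hs2 := Real.sq_sqrt hR
    have hs0 := Real.sqrt_nonneg (M ^ 2 / (n ^ 2) ^ 2 + M * Δ / n ^ 2)
    generalize √(M ^ 2 / (n ^ 2) ^ 2 + M * Δ / n ^ 2) = s at h hs hs2 hs0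
    rw [← hs2] at h
    refine pow_le_pow_left₀ hy (core_Num2 hC hPW hW hn0 hτ0 h1 h3 h4 hx0 hy hM0 hM' (by linarith)
      hΔ hB0 (hB.trans_eq (by ring)) hs0 hs (two_Num2 hW hn hτ h6 hx0 hMx)
      (three_Num2 hW hn hτ h4 hx0 hMx) ?_) 2
    calc _ = (y ^ 2) ^ 3 := by ring
      _ ≤ _ := h
      _ = _ := by field_simp; ring

end Pool.Agent.MP_2a1f0e_nt.GM2

end
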