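import Pool.Agent.MP_2a1f0e_nt.GM2.Defs
import Pool.Agent.Mg.C853.G9b677c
import Pool.Agent.Mg.C853.G68ddeb
import Pool.Agent.Mg.C853.Gcbec5d
import Pool.Agent.Mg.C853.G00b911
import Pool.Agent.Mg.C853.G7d18f3
import Pool.Agent.Mg.C853.G8db7e4
import Pool.Agent.Mg.C853.G3e49c7
import Pool.Agent.Mg.C853.G68ed1d
import Pool.Agent.Mg.C853.G521fc3
import Pool.Agent.Mg.C853.G9ab33a
import Pool.Agent.Mg.C853.G37d82f
import Pool.Agent.Mg.C853.Gc3ea83
import Pool.Agent.Mg.C853.Gdc52fa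

section

set_option autoImplicit false

open Finset

namespace Pool.Agent.MP_2a1f0e_nt.GM2

open GM

theorem n2_le_Bil (D : Finset ℤ) (u u' : ℤ → ℂ) {c : ℝ} (hc : 0 ≤ c)
    (h : ∀ ρ ∈ D, ‖u' ρ‖ ≤ c * ‖u ρ‖) : √(N2 D u') ≤ c * √(N2 D u) := by
  rw [← Real.sqrt_sq hc, ← Real.sqrt_mul (sq_nonneg c)]
  refine Real.sqrt_le_sqrt ?_
  rw [N2, N2, mul_sum]
  refine sum_le_sum fun ρ hρ => ?_
  rw [← mul_pow]
  exact pow_le_pow_left₀ (norm_nonneg _) (h ρ hρ) 2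

theorem lev_Bil {x a : ℝ} {J : ℕ} (h : x ≤ 2 ^ J * a) :
    ∃ i ≤ J, x ≤ 2 ^ i * a ∧ (i ≠ 0 → 2 ^ i * a < 2 * x) := by
  classical
  have hx : ∃ i : ℕ, x ≤ 2 ^ i * a := ⟨J, h⟩
  refine ⟨Nat.find hx, Nat.find_min' hx h, Nat.find_spec hx, fun h0 => ?_⟩
  obtain ⟨k, hk⟩ := Nat.exists_eq_succ_of_ne_zero h0
  have := not_le.1 (Nat.find_min hx (hk ▸ Nat.lt_succ_self k))
  rw [hk, pow_succ]
  linarith

theorem bil_stmt : BilStmt := by
  intro D u v s₁ s₂ Γ K lam S J hK hl hS hB h₁ h₂ hJ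
  classical
  have hJ' : S ≤ 2 ^ J * (lam / S) := by
    rw [← mul_div_assoc, le_div_iff₀ hS, ← sq]
    exact hJ
  choose! lev hle hup hlo using fun ρ (hρ : ρ ∈ D) => lev_Bil ((h₁ ρ hρ).trans hJ')
  let U : ℕ → ℤ → ℂ := fun i ρ => if lev ρ = i then u ρ * s₁ ρ else 0
  let V : ℕ → ℤ → ℂ := fun i ρ => if ‖s₂ ρ‖ ≤ 2 * S / 2 ^ i then v ρ * s₂ ρ else 0
  have e : Bil D (fun ρ => u ρ * s₁ ρ) (fun ρ => v ρ * s₂ ρ) Γ =
      ∑ i ∈ range (J + 1), Bil D (U i) (V i) Γ + ∑ ρ₁ ∈ D, ∑ ρ₂ ∈ D,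
        if ‖s₂ ρ₂‖ ≤ 2 * S / 2 ^ lev ρ₁ then 0 else u ρ₁ * s₁ ρ₁ * (v ρ₂ * s₂ ρ₂) * Γ ρ₁ ρ₂ := by
    simp only [Bil]
    rw [sum_comm (s := range (J + 1)), ← sum_add_distrib]
    refine sum_congr rfl fun ρ₁ hρ => ?_
    rw [sum_comm (s := range (J + 1)), ← sum_add_distrib]
    refine sum_congr rfl fun ρ₂ _ => ?_
    rw [sum_eq_single (lev ρ₁) (fun i _ hi => by simp [U, hi.symm])
      fun h => absurd (mem_range.2 (Nat.lt_succ_of_le (hle ρ₁ hρ))) h]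
    simp only [U, V, if_true]
    split_ifs <;> simp
  rw [e]
  refine norm_add_le_of_le ?_ ?_
  · refine (norm_sum_le_of_le _ (n := fun _ => 2 * lam * K * √(N2 D u) * √(N2 D v))
      fun i _ => (hB _ _).trans ?_).trans_eq ?_
    · have a₁ : √(N2 D (U i)) ≤ 2 ^ i * (lam / S) * √(N2 D u) :=
        n2_le_Bil D _ _ (by positivity) fun ρ hρ => by
          simp only [U]
          split_ifs with h
          · rw [norm_mul, mul_comm, ← h]
            exact mul_le_mul_of_nonneg_right (hup ρ hρ) (norm_nonneg _)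
          · rw [norm_zero]
            positivity
      have a₂ : √(N2 D (V i)) ≤ 2 * S / 2 ^ i * √(N2 D v) :=
        n2_le_Bil D _ _ (by positivity) fun ρ _ => by
          simp only [V]
          split_ifs with h
          · rw [norm_mul, mul_comm]
            exact mul_le_mul_of_nonneg_right h (norm_nonneg _)
          · rw [norm_zero]
            positivity
      refine (mul_le_mul (mul_le_mul_of_nonneg_left a₁ hK) a₂ (Real.sqrt_nonneg _)
        (by positivity)).trans_eq ?_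
      field_simp
    · rw [sum_const, card_range, nsmul_eq_mul]
      push_cast
      ring
  · refine norm_sum_le_of_le _ fun ρ₁ hρ₁ => norm_sum_le_of_le _ fun ρ₂ hρ₂ => ?_
    by_cases h : ‖s₂ ρ₂‖ ≤ 2 * S / 2 ^ lev ρ₁
    · rw [if_pos h, norm_zero]
      split_ifs <;> positivity
    · have h0 : lev ρ₁ ≠ 0 := fun h0 => h (by
        rw [h0, pow_zero, div_one]
        linarith [h₂ ρ₂ hρ₂])
      have h3 := mul_lt_mul'' (hlo ρ₁ hρ₁ h0) (not_le.1 h) (by positivity) (by positivity)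
      have h4 : 2 ^ lev ρ₁ * (lam / S) * (2 * S / 2 ^ lev ρ₁) = 2 * lam := by field_simp
      rw [if_neg h, if_pos (by linarith)]
      simp only [norm_mul]
      exact le_of_eq (by ring)

end Pool.Agent.MP_2a1f0e_nt.GM2

end

section

set_option autoImplicit false

open Finset

namespace Pool.Agent.MP_2a1f0e_nt.GM2

open GM

open scoped FourierTransform

lemma exp_ge_Fou {y : ℝ} (hy : 1 ≤ y) : 64 ≤ Real.exp (2 * Real.pi * y) := by
  have h1 : 2 ≤ Real.exp 1 := by linarith [Real.add_one_le_exp 1]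
  have h2 : ((6 : ℕ) : ℝ) * 1 ≤ 2 * Real.pi * y := by
    push_cast
    nlinarith [Real.pi_gt_three]
  calc (64 : ℝ) = 2 ^ 6 := by norm_num
    _ ≤ Real.exp 1 ^ 6 := pow_le_pow_left₀ (by norm_num) h1 6
    _ = Real.exp ((6 : ℕ) * 1) := (Real.exp_nat_mul 1 6).symm
    _ ≤ _ := Real.exp_le_exp.2 h2

lemma Wt_exp_Fou {t y : ℝ} (ht : t ∈ Set.Icc (1 / 16 : ℝ) 27) (hy : 1 ≤ y ∨ y ≤ -1) :
    Wt (t * Real.exp (2 * Real.pi * y)) = 0 := by
  obtain ⟨h0, h1⟩ := ht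
  rcases hy with hy | hy
  · exact Wt_eq_zero (Or.inr (by nlinarith [exp_ge_Fou hy]))
  · have h2 := exp_ge_Fou (y := -y) (by linarith)
    have h3 : Real.exp (2 * Real.pi * y) * Real.exp (2 * Real.pi * -y) = 1 := by
      rw [← Real.exp_add]
      simp
    have h4 := Real.exp_pos (2 * Real.pi * y)
    have h5 : Real.exp (2 * Real.pi * y) ≤ 1 / 64 := by nlinarith
    exact Wt_eq_zero (Or.inl (by nlinarith))

lemma exists_schwartz_Fou : ∃ f : SchwartzMap ℝ ℂ,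
    ∀ y, f y = (Wt (Real.exp (2 * Real.pi * y)) : ℂ) := by
  have h1 : HasCompactSupport fun y : ℝ => (Wt (Real.exp (2 * Real.pi * y)) : ℂ) :=
    HasCompactSupport.intro (isCompact_Icc (a := (-1 : ℝ)) (b := 1)) fun y hy => by
      have := Wt_exp_Fou (t := 1) (y := y) ⟨by norm_num, by norm_num⟩ (by
        by_contra h
        push Not at h
        exact hy ⟨h.2.le, h.1.le⟩)
      rw [one_mul] at this
      rw [this, Complex.ofReal_zero]
  have h2 : ContDiff ℝ (⊤ : ℕ∞) fun y : ℝ => (Wt (Real.exp (2 * Real.pi * y)) : ℂ) :=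
    Complex.ofRealCLM.contDiff.comp (contDiff_Wt.comp
      (Real.contDiff_exp.comp (contDiff_const.mul contDiff_id)))
  exact ⟨h1.toSchwartzMap h2, fun _ => rfl⟩

lemma summable_Fou (g : SchwartzMap ℝ ℂ) :
    Summable fun k : ℤ => ‖g k‖ * (1 + |(k : ℝ)|) ^ 2 := by
  obtain ⟨C, hC⟩ : ∃ C : ℝ, ∀ x : ℝ, (1 + |x|) ^ 4 * ‖g x‖ ≤ C :=
    ⟨_, fun x => by
      simpa only [norm_iteratedFDeriv_zero, Real.norm_eq_abs] using
        SchwartzMap.one_add_le_sup_seminorm_apply (𝕜 := ℝ) (m := (4, 0)) (k := 4) (n := 0)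
          le_rfl le_rfl g x⟩
  have hk : Summable fun k : ℤ => kp (k : ℝ) := by
    refine summable_of_sum_le (c := 2 + 4 * 1) (fun k => (kp_pos _).le) fun s => ?_
    simpa only [sub_zero, div_one] using sum_kp_sep s (fun k : ℤ => (k : ℝ))
      (fun i _ j _ h => by
        rw [← Int.cast_sub, ← Int.cast_abs]
        exact_mod_cast Int.one_le_abs (sub_ne_zero.2 h)) 0 one_pos
  refine Summable.of_nonneg_of_le (fun k => by positivity) (fun k => ?_) (hk.mul_left C)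
  rw [kp, mul_one_div, le_div_iff₀ (by positivity)]
  refine le_trans ?_ (hC k)
  have h1 : 1 + (k : ℝ) ^ 2 ≤ (1 + |(k : ℝ)|) ^ 2 := by
    rw [← sq_abs]
    nlinarith [abs_nonneg (k : ℝ)]
  calc ‖g k‖ * (1 + |(k : ℝ)|) ^ 2 * (1 + (k : ℝ) ^ 2)
      ≤ ‖g k‖ * (1 + |(k : ℝ)|) ^ 2 * (1 + |(k : ℝ)|) ^ 2 := by gcongr
    _ = _ := by ring

theorem fou_stmt : FouStmt := by
  obtain ⟨f, hf⟩ := exists_schwartz_Fou
  have hs := summable_Fou (𝓕 f)
  refine ⟨fun k => 𝓕 f k, hs, fun t ht => ?_⟩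
  have t0 : 0 < t := by linarith [ht.1]
  have h1 : Summable fun k : ℤ => 𝓕 f k * pw t k := by
    refine Summable.of_norm_bounded hs fun k => ?_
    rw [norm_mul, norm_pw]
    exact mul_le_mul_of_nonneg_left (one_le_pow₀ (by linarith [abs_nonneg (k : ℝ)]))
      (norm_nonneg _)
  have h2 := f.tsum_eq_tsum_fourier (Real.log t / (2 * Real.pi))
  have h3 : ∀ y : ℝ, f (Real.log t / (2 * Real.pi) + y) =
      (Wt (t * Real.exp (2 * Real.pi * y)) : ℂ) := fun y => by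
    rw [hf, mul_add, mul_div_cancel₀ _ (by positivity), Real.exp_add, Real.exp_log t0]
  have h4 : ∀ k : ℤ, fourier k ((Real.log t / (2 * Real.pi) : ℝ) : UnitAddCircle) = pw t k := by
    intro k
    rw [fourier_coe_apply, pw]
    congr 1
    have : (Real.pi : ℂ) ≠ 0 := by exact_mod_cast Real.pi_ne_zero
    push_cast
    field_simp
  simp only [h3, h4] at h2
  rw [tsum_eq_single 0 fun n hn => by
    rw [Wt_exp_Fou ht (by
      rcases lt_or_gt_of_ne hn with h | h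
      · exact Or.inr (by exact_mod_cast (by omega : n ≤ -1))
      · exact Or.inl (by exact_mod_cast (by omega : 1 ≤ n))), Complex.ofReal_zero]] at h2
  simp only [Int.cast_zero, mul_zero, Real.exp_zero, mul_one] at h2
  rw [h2]
  exact h1.hasSum

end Pool.Agent.MP_2a1f0e_nt.GM2

end

section

set_option autoImplicit false

open Finset

namespace Pool.Agent.MP_2a1f0e_nt.GM2

open GM

lemma triv_Gam {a b κ σ z₀ z₁ : ℝ} (hl : Line a b κ σ z₀ z₁) (ρ₁ ρ₂ : ℝ) :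
    ‖Gam κ σ z₀ z₁ ρ₁ ρ₂‖ ^ 2 ≤ 36 := by
  obtain ⟨a0, a1, -, -, -, -, hz, h⟩ := hl
  have h0 := (h z₀ ⟨le_rfl, hz⟩).1.1
  have h1 := (h z₁ ⟨hz, le_rfl⟩).1.2
  have : ‖Gam κ σ z₀ z₁ ρ₁ ρ₂‖ ≤ 1 * |z₁ - z₀| :=
    intervalIntegral.norm_integral_le_of_norm_le_const fun z _ => by
      rw [norm_mul, norm_pw, norm_pw, mul_one]
  rw [one_mul, abs_of_nonneg (by linarith)] at this
  have h2 : ‖Gam κ σ z₀ z₁ ρ₁ ρ₂‖ ≤ 6 := by linarith
  nlinarith [norm_nonneg (Gam κ σ z₀ z₁ ρ₁ ρ₂)]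

lemma subst_Gam {a b κ σ z₀ z₁ : ℝ} (hl : Line a b κ σ z₀ z₁) (ρ₁ ρ₂ : ℝ) :
    Gam κ σ z₀ z₁ ρ₁ ρ₂ = ∫ x in Real.log z₀..Real.log z₁, ((Real.exp x : ℝ) : ℂ) *
      Complex.exp (Complex.I * ((ρ₁ * x - ρ₂ * Real.log (κ + σ * Real.exp x) : ℝ) : ℂ)) := by
  have hz : z₀ ≤ z₁ := hl.2.2.2.2.2.2.1
  have p0 := (hl.pos ⟨le_rfl, hz⟩).1
  have p1 := (hl.pos ⟨hz, le_rfl⟩).1
  have hlog : Real.log z₀ ≤ Real.log z₁ := Real.log_le_log p0 hz
  have key := intervalIntegral.integral_deriv_smul_comp' (a := Real.log z₀) (b := Real.log z₁)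
    (f := Real.exp) (f' := Real.exp) (g := fun z => pw z ρ₁ * pw (κ + σ * z) (-ρ₂))
    (fun x _ => Real.hasDerivAt_exp x) Real.continuous_exp.continuousOn (by
      have hs : Real.exp '' Set.uIcc (Real.log z₀) (Real.log z₁) ⊆ Set.Icc z₀ z₁ := by
        rintro _ ⟨x, hx, rfl⟩
        rw [Set.uIcc_of_le hlog] at hx
        exact ⟨(Real.log_le_iff_le_exp p0).1 hx.1, (Real.le_log_iff_exp_le p1).1 hx.2⟩
      refine ContinuousOn.mono ?_ hs
      refine ((continuousOn_pw ρ₁).mono fun z h => (hl.pos h).1).mul ?_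
      exact (continuousOn_pw (-ρ₂)).comp (by fun_prop) fun z h => (hl.pos h).2)
  rw [Real.exp_log p0, Real.exp_log p1] at key
  rw [Gam, ← key]
  refine intervalIntegral.integral_congr fun x _ => ?_
  simp only [Function.comp_apply, Complex.real_smul, pw, Real.log_exp]
  rw [← Complex.exp_add]
  congr 2
  push_cast
  ring

lemma two_Gam (h : VdcStmt) {a b κ σ z₀ z₁ : ℝ} (hl : Line a b κ σ z₀ z₁) (ρ₁ ρ₂ : ℝ) :
    ‖Gam κ σ z₀ z₁ ρ₁ ρ₂‖ ^ 2 * |ρ₂| ≤ 36 * 44 ^ 2 * 432 := by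
  rcases eq_or_ne ρ₂ 0 with rfl | r0
  · rw [abs_zero, mul_zero]
    norm_num
  have hr : 0 < |ρ₂| := abs_pos.2 r0
  have hl' := hl
  obtain ⟨a0, a1, b0, b1, hσ, hκ, hz, hb⟩ := hl'
  have p0 := (hl.pos ⟨le_rfl, hz⟩).1
  have p1 := (hl.pos ⟨hz, le_rfl⟩).1
  have hlog : Real.log z₀ ≤ Real.log z₁ := Real.log_le_log p0 hz
  have hm : ∀ x ∈ Set.Icc (Real.log z₀) (Real.log z₁), Real.exp x ∈ Set.Icc z₀ z₁ := fun x hx =>
    ⟨(Real.log_le_iff_le_exp p0).1 hx.1, (Real.le_log_iff_exp_le p1).1 hx.2⟩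
  have hw : ∀ x ∈ Set.Icc (Real.log z₀) (Real.log z₁), κ + σ * Real.exp x ≠ 0 := fun x hx =>
    (hl.pos (hm x hx)).2.ne'
  obtain ⟨ε, hε, he⟩ : ∃ ε : ℝ, Sg ε ∧ ε * -(ρ₂ * σ * κ) = |ρ₂| * |κ| := by
    have e : |-(ρ₂ * σ * κ)| = |ρ₂| * |κ| := by
      rw [abs_neg, abs_mul, abs_mul]
      rcases hσ with rfl | rfl <;> simp
    rcases le_total 0 (-(ρ₂ * σ * κ)) with h | h
    · exact ⟨1, Or.inl rfl, by rw [one_mul, ← e, abs_of_nonneg h]⟩
    · exact ⟨-1, Or.inr rfl, by rw [← e, abs_of_nonpos h]; ring⟩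
  set K : ℝ := |ρ₂| * a / (432 * b ^ 2) with hK
  have K0 : 0 < K := by positivity
  have hd : ∀ x, HasDerivAt (fun x => κ + σ * Real.exp x) (σ * Real.exp x) x := fun x =>
    ((Real.hasDerivAt_exp x).const_mul σ).const_add κ
  have key := h (fun x => ρ₁ * x - ρ₂ * Real.log (κ + σ * Real.exp x))
    (fun x => ρ₁ - ρ₂ * (σ * Real.exp x / (κ + σ * Real.exp x)))
    (fun x => -(ρ₂ * σ * κ) * Real.exp x / (κ + σ * Real.exp x) ^ 2)
    (fun x => ((Real.exp x : ℝ) : ℂ)) (fun x => ((Real.exp x : ℝ) : ℂ)) (6 * a) (√K) ε _ _ hlog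
    (Real.sqrt_pos.2 K0) hε
    (fun x hx => by
      have := ((hasDerivAt_id x).const_mul ρ₁).sub (((hd x).log (hw x hx)).const_mul ρ₂)
      rw [mul_one] at this
      exact this)
    (fun x hx => by
      have := ((((Real.hasDerivAt_exp x).const_mul σ).div (hd x) (hw x hx)).const_mul
        ρ₂).const_sub ρ₁
      refine this.congr_deriv ?_
      have := hw x hx
      field_simp
      ring)
    (ContinuousOn.div (by fun_prop) (by fun_prop) fun x hx => pow_ne_zero 2 (hw x hx))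
    (fun x _ => (Real.hasDerivAt_exp x).ofReal_comp)
    (Complex.continuous_ofReal.comp Real.continuous_exp).continuousOn
    (fun x hx => by
      rw [Complex.norm_real, Real.norm_eq_abs, abs_of_pos (Real.exp_pos x)]
      exact (hb _ (hm x hx)).1.2)
    (fun x hx => by
      rw [Complex.norm_real, Real.norm_eq_abs, abs_of_pos (Real.exp_pos x)]
      exact (hb _ (hm x hx)).1.2)
    (fun x hx => by
      obtain ⟨⟨u1, -⟩, -, u2⟩ := hb _ (hm x hx)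
      have w0 := (hl.pos (hm x hx)).2
      rw [Real.sq_sqrt K0.le, ← mul_div_assoc, ← mul_assoc, he, hK,
        div_le_div_iff₀ (by positivity) (by positivity)]
      have v1 : (κ + σ * Real.exp x) ^ 2 ≤ (6 * b) ^ 2 := pow_le_pow_left₀ w0.le u2 2
      have v2 : 1 / 2 * (a / 6) ≤ |κ| * Real.exp x :=
        mul_le_mul hκ u1 (by positivity) (abs_nonneg _)
      calc |ρ₂| * a * (κ + σ * Real.exp x) ^ 2 ≤ |ρ₂| * a * (6 * b) ^ 2 := by gcongr
        _ = |ρ₂| * (1 / 2 * (a / 6)) * (432 * b ^ 2) := by ring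
        _ ≤ |ρ₂| * (|κ| * Real.exp x) * (432 * b ^ 2) := by gcongr
        _ = _ := by ring)
  rw [← subst_Gam hl] at key
  have hlen : Real.log z₁ - Real.log z₀ ≤ 35 := by
    rw [← Real.log_div p1.ne' p0.ne']
    have := Real.log_le_sub_one_of_pos (div_pos p1 p0)
    have h2 : z₁ / z₀ ≤ 36 := by
      rw [div_le_iff₀ p0]
      linarith [(hb z₀ ⟨le_rfl, hz⟩).1.1, (hb z₁ ⟨hz, le_rfl⟩).1.2]
    linarith
  have k2 : ‖Gam κ σ z₀ z₁ ρ₁ ρ₂‖ ≤ 6 * a * 44 / √K := by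
    refine key.trans ?_
    have := Real.pi_le_four
    gcongr
    linarith
  have k3 : ‖Gam κ σ z₀ z₁ ρ₁ ρ₂‖ ^ 2 ≤ (6 * a * 44) ^ 2 / K := by
    have := pow_le_pow_left₀ (norm_nonneg _) k2 2
    rwa [div_pow, Real.sq_sqrt K0.le] at this
  have k4 : (6 * a * 44) ^ 2 / K * |ρ₂| = 36 * 44 ^ 2 * 432 * (a * b ^ 2) := by
    rw [hK]
    field_simp
    ring
  have k5 : a * b ^ 2 ≤ 1 := mul_le_one₀ a1 (by positivity) (pow_le_one₀ b0.le b1)
  calc _ ≤ (6 * a * 44) ^ 2 / K * |ρ₂| := by gcongr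
    _ ≤ _ := by rw [k4]; linarith

lemma swap_Gam {a b κ σ z₀ z₁ : ℝ} (hl : Line a b κ σ z₀ z₁) (ρ₁ ρ₂ : ℝ) :
    ∃ κ' w₀ w₁ : ℝ, Line b a κ' σ w₀ w₁ ∧
      Gam κ σ z₀ z₁ ρ₁ ρ₂ = Gam κ' σ w₀ w₁ (-ρ₂) (-ρ₁) := by
  obtain ⟨a0, a1, b0, b1, hσ, hκ, hz, hb⟩ := hl
  rcases hσ with rfl | rfl
  · refine ⟨-κ, κ + z₀, κ + z₁, ⟨b0, b1, a0, a1, Or.inl rfl, by rwa [abs_neg], by linarith,
      fun w hw => ?_⟩, ?_⟩
    · obtain ⟨h1, h2⟩ := hb (w - κ) ⟨by linarith [hw.1], by linarith [hw.2]⟩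
      exact ⟨by rwa [show κ + 1 * (w - κ) = w by ring] at h2,
        by rwa [show -κ + 1 * w = w - κ by ring]⟩
    · rw [Gam, Gam, ← intervalIntegral.integral_comp_add_left]
      refine intervalIntegral.integral_congr fun z _ => ?_
      simp only [neg_neg, one_mul, neg_add_cancel_left]
      rw [mul_comm]
  · refine ⟨κ, κ - z₁, κ - z₀, ⟨b0, b1, a0, a1, Or.inr rfl, hκ, by linarith,
      fun w hw => ?_⟩, ?_⟩
    · obtain ⟨h1, h2⟩ := hb (κ - w) ⟨by linarith [hw.2], by linarith [hw.1]⟩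
      exact ⟨by rwa [show κ + -1 * (κ - w) = w by ring] at h2,
        by rwa [show κ + -1 * w = κ - w by ring]⟩
    · rw [Gam, Gam, ← intervalIntegral.integral_comp_sub_left]
      refine intervalIntegral.integral_congr fun z _ => ?_
      simp only [neg_neg]
      rw [mul_comm, show κ + -1 * (κ - z) = z by ring, show κ + -1 * z = κ - z by ring]

theorem gam_stmt (h : VdcStmt) : GamStmt := by
  refine ⟨36 + 2 * (36 * 44 ^ 2 * 432), by norm_num, fun a b κ σ z₀ z₁ hl ρ₁ ρ₂ => ?_⟩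
  have h0 := triv_Gam hl ρ₁ ρ₂
  have h2 := two_Gam h hl ρ₁ ρ₂
  obtain ⟨κ', w₀, w₁, hl', e⟩ := swap_Gam hl ρ₁ ρ₂
  have h1 := two_Gam h hl' (-ρ₂) (-ρ₁)
  rw [← e, abs_neg] at h1
  rw [mul_add, mul_add, mul_one]
  linarith

end Pool.Agent.MP_2a1f0e_nt.GM2

end

section

set_option autoImplicit false

open Finset

namespace Pool.Agent.MP_2a1f0e_nt.GM2

open GM

lemma expand_GY (L : ℕ) (g : ℤ → ℝ) (S : Finset ℕ) (ρ : ℤ) :
    ∑ i ∈ S ×ˢ S, ‖Fh L g i ρ‖ ^ 2 = ∑ a ∈ Io L, ∑ b ∈ Io L, g a * g (a - ρ) * (g b * g (b - ρ)) *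
      ‖∑ n ∈ S, pw (n : ℝ) ((a - b : ℤ) : ℝ)‖ ^ 2 := by
  apply Complex.ofReal_injective
  simp only [Complex.ofReal_sum, Complex.ofReal_mul (_ * _), Complex.ofReal_pow,
    ← Complex.mul_conj', Fh, map_sum, sum_mul_sum]
  simp only [mul_sum]
  rw [sum_comm]
  refine sum_congr rfl fun a _ => ?_
  rw [sum_comm]
  refine sum_congr rfl fun b _ => ?_
  rw [sum_product]
  refine sum_congr rfl fun n _ => sum_congr rfl fun m _ => ?_
  have e1 : pw (n : ℝ) ((a - b : ℤ) : ℝ) = pw n a * pw n (-(b : ℝ)) := by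
    rw [← pw_add]; push_cast; rfl
  have e2 : pw (m : ℝ) (-((a - b : ℤ) : ℝ)) = pw m (-((a : ℝ) - ρ)) * pw m ((b : ℝ) - ρ) := by
    rw [← pw_add]; push_cast; ring_nf
  simp only [map_mul, conj_pw, Complex.conj_ofReal, neg_neg, e1, e2]
  ring

lemma reindex_GY {L : ℕ} {f : ℤ → ℝ} (hf : Sup L f) {a : ℤ} (ha : a ∈ Io L) (F : ℤ → ℝ) :
    ∑ b ∈ Io L, f b * F (a - b) = ∑ p ∈ Io (2 * L), f (a - p) * F p := by
  refine sum_of_injOn (fun b => a - b) (fun _ _ _ _ e => sub_right_injective e)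
    (fun b hb => ?_) (fun p _ hp => ?_) fun b _ => by rw [sub_sub_cancel]
  · rw [mem_coe, mem_Io] at *
    push_cast
    omega
  · rw [hf _ fun h => hp ⟨a - p, h, sub_sub_cancel a p⟩, zero_mul]

lemma conv_GY {L : ℕ} {f : ℤ → ℝ} (hf : Sup L f) (F : ℤ → ℝ) :
    ∑ a ∈ Io L, ∑ b ∈ Io L, f a * f b * F (a - b) =
      ∑ p ∈ Io (2 * L), (∑ a ∈ Io L, f a * f (a - p)) * F p := by
  simp only [sum_mul, mul_assoc]
  rw [sum_comm (s := Io (2 * L))]
  refine sum_congr rfl fun a ha => ?_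
  rw [← mul_sum, ← mul_sum, reindex_GY hf ha]

lemma shift_GY {L : ℕ} {f : ℤ → ℝ} (hf : Sup L f) (h0 : ∀ t, 0 ≤ f t) {e : ℤ → ℤ}
    (he : Function.Injective e) (D : Finset ℤ) : ∑ a ∈ D, f (e a) ≤ ∑ t ∈ Io L, f t := by
  rw [← sum_image (f := f) he.injOn,
    sum_subset (subset_union_right (s₁ := D.image e)) fun t _ ht => hf t ht]
  exact sum_le_sum_of_subset_of_nonneg subset_union_left fun t _ _ => h0 t

lemma am_GY {L : ℕ} {f : ℤ → ℝ} (hf : Sup L f) (p : ℤ) :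
    ∑ a ∈ Io L, |f a * f (a - p)| ≤ ∑ t ∈ Io L, f t ^ 2 := by
  have h1 := shift_GY (L := L) (f := fun t => f t ^ 2) (fun t ht => by simp [hf t ht])
    (fun t => sq_nonneg _) (sub_left_injective (b := p)) (Io L)
  have h2 : ∑ a ∈ Io L, |f a * f (a - p)| ≤ ∑ a ∈ Io L, (f a ^ 2 + f (a - p) ^ 2) / 2 :=
    sum_le_sum fun a _ => abs_le.2
      ⟨by nlinarith [sq_nonneg (f a + f (a - p))], by nlinarith [sq_nonneg (f a - f (a - p))]⟩
  rw [← sum_div, sum_add_distrib] at h2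
  linarith

lemma holder_GY (D : Finset ℤ) (w T : ℤ → ℝ) {K₁ K₀ Z : ℝ} (hw : ∀ p, 0 ≤ w p) (hT : ∀ p, 0 ≤ T p)
    (h1 : ∑ p ∈ D, w p ≤ K₁) (h0 : ∀ p, w p ≤ K₀) (hZ : ∑ p ∈ D, T p ^ 6 ≤ Z) :
    (∑ p ∈ D, w p * T p) ^ 6 ≤ K₁ ^ 5 * K₀ * Z := by
  have hW : 0 ≤ ∑ p ∈ D, w p := sum_nonneg fun p _ => hw p
  have hK : 0 ≤ K₀ := (hw 0).trans (h0 0)
  have h2 : (∑ p ∈ D, w p * T p) ^ 6 ≤ (∑ p ∈ D, w p) ^ 5 * ∑ p ∈ D, w p * T p ^ 6 := by
    rcases hW.eq_or_lt with h | h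
    · rw [sum_eq_zero fun p hp => by
        rw [(sum_eq_zero_iff_of_nonneg fun p _ => hw p).1 h.symm p hp, zero_mul], ← h]
      simp
    · have h3 := Real.pow_arith_mean_le_arith_mean_pow D (fun p => w p / ∑ p ∈ D, w p) T
        (fun p _ => div_nonneg (hw p) hW) (by rw [← sum_div, div_self h.ne']) (fun p _ => hT p) 6
      simp only [div_mul_eq_mul_div, ← sum_div] at h3
      rw [div_pow, div_le_iff₀ (pow_pos h 6)] at h3
      refine h3.trans_eq ?_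
      field_simp
  have h4 : ∑ p ∈ D, w p * T p ^ 6 ≤ K₀ * Z := by
    refine le_trans ?_ (mul_le_mul_of_nonneg_left hZ hK)
    rw [mul_sum]
    exact sum_le_sum fun p _ => mul_le_mul_of_nonneg_right (h0 p) (pow_nonneg (hT p) 6)
  rw [mul_assoc]
  exact h2.trans (mul_le_mul (pow_le_pow_left₀ hW h1 5) h4
    (sum_nonneg fun p _ => mul_nonneg (hw p) (pow_nonneg (hT p) 6)) (pow_nonneg (hW.trans h1) 5))

theorem gy_stmt (h : P4Stmt) : GYStmt := by
  intro L g S X θ A Z hg hX hθ hA hZ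
  have hX0 : 0 ≤ X := (sum_nonneg fun t _ => sq_nonneg (g t)).trans hX
  have hZ' : ∑ p ∈ Io (2 * L), (‖∑ n ∈ S, pw (n : ℝ) p‖ ^ 2) ^ 6 ≤ Z := by
    simpa only [← pow_mul] using hZ
  refine ⟨fun ρ => ?_, ?_⟩
  · have hf : Sup L fun a => g a * g (a - ρ) := fun t ht => by simp [hg t ht]
    have h1 : ∑ a ∈ Io L, |g a * g (a - ρ)| ≤ X := (am_GY hg ρ).trans hX
    have h2 := holder_GY (Io (2 * L))
      (fun p => ∑ a ∈ Io L, |g a * g (a - ρ) * (g (a - p) * g (a - p - ρ))|)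
      (fun p : ℤ => ‖∑ n ∈ S, pw (n : ℝ) p‖ ^ 2) (K₁ := X ^ 2) (K₀ := θ ^ 2 * X)
      (fun p => sum_nonneg fun _ _ => abs_nonneg _) (fun p => sq_nonneg _) ?_ (fun p => ?_) hZ'
    · refine le_trans (pow_le_pow_left₀ (sum_nonneg fun _ _ => sq_nonneg _) ?_ 6)
        (h2.trans_eq (by ring))
      rw [expand_GY, conv_GY hf fun p : ℤ => ‖∑ n ∈ S, pw (n : ℝ) p‖ ^ 2]
      exact sum_le_sum fun p _ => mul_le_mul_of_nonneg_right
        (sum_le_sum fun a _ => le_abs_self _) (sq_nonneg _)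
    · rw [sum_comm, sq]
      refine le_trans (sum_le_sum fun a _ => ?_)
        ((sum_mul _ _ _).symm.trans_le (mul_le_mul_of_nonneg_right h1 hX0))
      simp only [abs_mul (_ * _), ← mul_sum]
      exact mul_le_mul_of_nonneg_left ((shift_GY (f := fun a => |g a * g (a - ρ)|)
        (fun t ht => by simp [hg t ht]) (fun _ => abs_nonneg _) (sub_right_injective (b := a))
        _).trans h1) (abs_nonneg _)
    · refine (am_GY hf p).trans (le_trans ?_ (mul_le_mul_of_nonneg_left hX (sq_nonneg θ)))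
      rw [mul_sum]
      refine sum_le_sum fun a _ => ?_
      rw [mul_pow, mul_comm]
      exact mul_le_mul_of_nonneg_right (sq_le_sq' (abs_le.1 (hθ _)).1 (abs_le.1 (hθ _)).2)
        (sq_nonneg _)
  · have h2 := holder_GY (Io (2 * L)) (fun p => (∑ a ∈ Io L, g a * g (a - p)) ^ 2)
      (fun p : ℤ => ‖∑ n ∈ S, pw (n : ℝ) p‖ ^ 2) (K₁ := A ^ 2 * X) (K₀ := X ^ 2)
      (fun p => sq_nonneg _) (fun p => sq_nonneg _)
      ((h L g A _ hg hA).trans (mul_le_mul_of_nonneg_left hX (sq_nonneg A)))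
      (fun p => sq_le_sq' (abs_le.1 ((abs_sum_le_sum_abs _ _).trans ((am_GY hg p).trans hX))).1
        (abs_le.1 ((abs_sum_le_sum_abs _ _).trans ((am_GY hg p).trans hX))).2) hZ'
    refine le_trans (le_of_eq ?_) (h2.trans_eq (by ring))
    congr 1
    simp only [N2, sq (∑ a ∈ Io L, _), mul_assoc (∑ a ∈ Io L, _)]
    rw [sum_comm, ← conv_GY hg fun p : ℤ =>
      (∑ a ∈ Io L, g a * g (a - p)) * ‖∑ n ∈ S, pw (n : ℝ) p‖ ^ 2]
    simp only [expand_GY]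
    rw [sum_comm]
    refine sum_congr rfl fun a ha => ?_
    rw [sum_comm]
    refine sum_congr rfl fun b _ => ?_
    have h3 := reindex_GY hg ha fun ρ => g (b - ρ)
    have h4 : ∑ c ∈ Io L, g c * g (c - (a - b)) = ∑ c ∈ Io L, g c * g (b - (a - c)) :=
      sum_congr rfl fun c _ => by rw [show c - (a - b) = b - (a - c) by ring]
    rw [h4, h3, sum_mul, mul_sum]
    exact sum_congr rfl fun ρ _ => by ring

end Pool.Agent.MP_2a1f0e_nt.GM2

end

section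

set_option autoImplicit false

open Finset

namespace Pool.Agent.MP_2a1f0e_nt.GM2

open GM

lemma mem_Key2 {r v : ℝ} (h1 : Wt r ≠ 0) (h2 : Wt (r * v) ≠ 0) : 1 / 3 < v ∧ v < 3 := by
  obtain ⟨a1, a2⟩ := mem_of_Wt_ne_zero h1
  obtain ⟨b1, b2⟩ := mem_of_Wt_ne_zero h2
  constructor
  · by_contra hc
    push Not at hc
    nlinarith
  · by_contra hc
    push Not at hc
    nlinarith

lemma supp_Key2 {v w η : ℝ} (h : Three.R3 v w η ≠ 0) :
    (1 / 3 < v ∧ v < 3) ∧ (1 / 3 < w ∧ w < 3) := by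
  by_contra hc
  apply h
  rw [Three.R3_eq]
  have : ∀ r, Three.rad v w η r = 0 := by
    intro r
    by_contra h0
    apply hc
    have h1 : Wt r ≠ 0 := fun e => h0 (by simp [Three.rad, e])
    have h2 : Wt (r * v) ≠ 0 := fun e => h0 (by simp [Three.rad, e])
    have h3 : Wt (r * w) ≠ 0 := fun e => h0 (by simp [Three.rad, e])
    exact ⟨mem_Key2 h1 h2, mem_Key2 h1 h3⟩
  simp [this]

lemma enlarge_Key2 (F : ℝ → ℝ → ℂ)
    (hF : ∀ v w, F v w ≠ 0 → (1 / 3 < v ∧ v < 3) ∧ (1 / 3 < w ∧ w < 3)) {a b c d : ℝ}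
    (ha : a ≤ 1 / 3) (hb : 3 ≤ b) (hc : c ≤ 1 / 3) (hd : 3 ≤ d) :
    ∫ v in a..b, ∫ w in c..d, F v w = ∫ v, ∫ w, F v w := by
  have e1 : ∀ v, ∫ w in c..d, F v w = ∫ w, F v w := by
    intro v
    apply intervalIntegral.integral_eq_integral_of_support_subset
    intro w hw
    obtain ⟨-, h1, h2⟩ := hF v w hw
    exact ⟨by linarith, by linarith⟩
  simp_rw [e1]
  apply intervalIntegral.integral_eq_integral_of_support_subset
  intro v hv
  have : ∃ w, F v w ≠ 0 := by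
    by_contra h0
    push Not at h0
    apply hv
    simp [h0]
  obtain ⟨w, hw⟩ := this
  obtain ⟨⟨h1, h2⟩, -⟩ := hF v w hw
  exact ⟨by linarith, by linarith⟩

lemma scale_Key2 {u : ℝ} (hu : 0 < u) (v w η : ℝ) :
    Three.R3 v w η = ((u ^ 3 : ℝ) : ℂ) * R4 u (u * v) (u * w) (η * u) := by
  rw [Three.R3_eq]
  have e1 := MeasureTheory.Measure.integral_comp_mul_right (Three.rad v w η) u
  have e2 : ∫ r, Three.rad v w η (r * u) = ((u ^ 2 : ℝ) : ℂ) * R4 u (u * v) (u * w) (η * u) := by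
    unfold R4
    rw [← MeasureTheory.integral_const_mul]
    congr 1
    funext r
    unfold Three.rad
    rw [show r * u * v = r * (u * v) by ring, show r * u * w = r * (u * w) by ring,
      show η * (r * u) = η * u * r by ring]
    push_cast
    ring
  rw [e2, abs_of_pos (inv_pos.2 hu), Complex.real_smul] at e1
  have h0 : (u : ℂ) ≠ 0 := by exact_mod_cast hu.ne'
  generalize R4 u (u * v) (u * w) (η * u) = Z at e1 ⊢
  push_cast at e1 ⊢
  field_simp at e1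
  linear_combination -e1

lemma pc_Key2 (v w η al be : ℝ) :
    Three.pc v al * Three.pc w be * Three.R3 v w η = pw v al * pw w be * Three.R3 v w η := by
  by_cases h : Three.R3 v w η = 0
  · simp [h]
  obtain ⟨⟨h1, -⟩, h2, -⟩ := supp_Key2 h
  rw [Three.pc_eq (by linarith), Three.pc_eq (by linarith)]

lemma range_Key2 {M n M' n' : ℝ} (hM : 0 < M) (hM' : 0 < M') (h1 : M ≤ n) (h2 : n ≤ 2 * M)
    (h3 : M' ≤ n') (h4 : n' ≤ 2 * M') :
    M / M' / 6 * (n' / n) ≤ 1 / 3 ∧ 3 ≤ 6 * (M / M') * (n' / n) := by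
  have hn : 0 < n := by linarith
  constructor
  · rw [show M / M' / 6 * (n' / n) = (M * n') / (6 * (M' * n)) by field_simp,
      div_le_div_iff₀ (by positivity) (by norm_num)]
    nlinarith [mul_le_mul h1 h4 (by linarith) hn.le]
  · rw [show 6 * (M / M') * (n' / n) = (6 * (M * n')) / (M' * n) by field_simp,
      le_div_iff₀ (by positivity)]
    nlinarith [mul_le_mul h3 h2 hn.le (by linarith)]

theorem key2_stmt : Key2Stmt := by
  intro M₁ M₂ M₃ n₁ n₂ n₃ al be ga x₁ x₂ x₃ h1 h2 h3 h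
  rw [mem_Ico] at h1 h2 h3
  have m1 : (0 : ℝ) < M₁ := by exact_mod_cast (by omega : 0 < M₁)
  have m2 : (0 : ℝ) < M₂ := by exact_mod_cast (by omega : 0 < M₂)
  have m3 : (0 : ℝ) < M₃ := by exact_mod_cast (by omega : 0 < M₃)
  have a1 : (M₁ : ℝ) ≤ n₁ := by exact_mod_cast h1.1
  have a2 : (M₂ : ℝ) ≤ n₂ := by exact_mod_cast h2.1
  have a3 : (M₃ : ℝ) ≤ n₃ := by exact_mod_cast h3.1
  have b1 : (n₁ : ℝ) ≤ 2 * M₁ := by exact_mod_cast h1.2.le
  have b2 : (n₂ : ℝ) ≤ 2 * M₂ := by exact_mod_cast h2.2.le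
  have b3 : (n₃ : ℝ) ≤ 2 * M₃ := by exact_mod_cast h3.2.le
  have p1 : (0 : ℝ) < n₁ := by linarith
  have p2 : (0 : ℝ) < n₂ := by linarith
  have p3 : (0 : ℝ) < n₃ := by linarith
  obtain ⟨r1, r2⟩ := range_Key2 m1 m3 a1 b1 a3 b3
  obtain ⟨r3, r4⟩ := range_Key2 m2 m3 a2 b2 a3 b3
  set F : ℝ → ℝ → ℂ := fun v w => pw v al * pw w be *
    Three.R3 v w (x₁ * n₁ * v + x₂ * n₂ * w + x₃ * n₃) with hF
  have sF : ∀ v w, F v w ≠ 0 → (1 / 3 < v ∧ v < 3) ∧ (1 / 3 < w ∧ w < 3) := by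
    intro v w h0
    refine supp_Key2 (η := x₁ * n₁ * v + x₂ * n₂ * w + x₃ * n₃) fun e => h0 ?_
    simp [hF, e]
  rw [Three.key h]
  simp_rw [pc_Key2]
  have e1 := enlarge_Key2 F sF le_rfl le_rfl le_rfl le_rfl
  have e2 := enlarge_Key2 F sF r1 r2 r3 r4
  change ∫ v in (1 / 3 : ℝ)..3, ∫ w in (1 / 3 : ℝ)..3, F v w = _
  rw [e1, ← e2, ← intervalIntegral.smul_integral_comp_mul_right]
  simp_rw [← intervalIntegral.smul_integral_comp_mul_right (c := (n₃ : ℝ) / n₂)]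
  have e3 : ∀ z w : ℝ, F (z * (n₃ / n₁)) (w * (n₃ / n₂)) = ((((M₃ : ℝ) / n₃) ^ 3 : ℝ) : ℂ) *
      (pw (z * n₃ / n₁) al * pw (w * n₃ / n₂) be *
          R4 (M₃ / n₃) (z * M₃ / n₁) (w * M₃ / n₂) (M₃ * (x₁ * z + x₂ * w + x₃))) := by
    intro z w
    simp only [hF]
    rw [scale_Key2 (div_pos m3 p3),
      show (M₃ : ℝ) / n₃ * (z * (n₃ / n₁)) = z * M₃ / n₁ by field_simp,
      show (M₃ : ℝ) / n₃ * (w * (n₃ / n₂)) = w * M₃ / n₂ by field_simp,
      show (x₁ * n₁ * (z * (n₃ / n₁)) + x₂ * n₂ * (w * (n₃ / n₂)) + x₃ * n₃) * ((M₃ : ℝ) / n₃) =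
        M₃ * (x₁ * z + x₂ * w + x₃) by field_simp,
      ← mul_div_assoc, ← mul_div_assoc]
    ring
  simp_rw [e3, intervalIntegral.integral_const_mul, Complex.real_smul,
    intervalIntegral.integral_const_mul]
  have c1 : (n₁ : ℂ) ≠ 0 := by exact_mod_cast p1.ne'
  have c2 : (n₂ : ℂ) ≠ 0 := by exact_mod_cast p2.ne'
  have c3 : (n₃ : ℂ) ≠ 0 := by exact_mod_cast p3.ne'
  rw [← mul_assoc, ← mul_assoc]
  congr 1
  push_cast
  field_simp

end Pool.Agent.MP_2a1f0e_nt.GM2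

end

section

set_option autoImplicit false

open Finset

namespace Pool.Agent.MP_2a1f0e_nt.GM2

open GM

lemma comm3_Part {α β : Type*} (X : Finset α) (s : Finset β) (f : α → β → β → β → ℂ) :
    ∑ x ∈ X, ∑ a ∈ s, ∑ b ∈ s, ∑ c ∈ s, f x a b c =
      ∑ a ∈ s, ∑ b ∈ s, ∑ c ∈ s, ∑ x ∈ X, f x a b c := by
  rw [sum_comm]
  refine sum_congr rfl fun a _ => ?_
  rw [sum_comm]
  refine sum_congr rfl fun b _ => ?_
  rw [sum_comm]

lemma comm33_Part {α β : Type*} (X Y Z : Finset α) (s : Finset β) (G : β → β → β → ℂ)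
    (f₁ f₂ f₃ : α → β → β → β → ℂ) :
    ∑ x ∈ X, ∑ y ∈ Y, ∑ z ∈ Z, ∑ a ∈ s, ∑ b ∈ s, ∑ c ∈ s,
        G a b c * (f₁ x a b c * f₂ y a b c * f₃ z a b c) =
      ∑ a ∈ s, ∑ b ∈ s, ∑ c ∈ s, G a b c *
        ((∑ x ∈ X, f₁ x a b c) * (∑ y ∈ Y, f₂ y a b c) * ∑ z ∈ Z, f₃ z a b c) := by
  rw [sum_congr rfl fun x _ => sum_congr rfl fun y _ => comm3_Part Z s _,
    sum_congr rfl fun x _ => comm3_Part Y s _, comm3_Part X s]
  refine sum_congr rfl fun a _ => sum_congr rfl fun b _ => sum_congr rfl fun c _ => ?_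
  rw [sum_mul_sum, sum_mul, mul_sum]
  refine sum_congr rfl fun x _ => ?_
  rw [sum_mul, mul_sum]
  refine sum_congr rfl fun y _ => ?_
  rw [mul_sum, mul_sum]

/-- a block of the kernel -/
noncomputable def Hs_Part (N : ℕ) (S : Finset ℕ) (e u : ℝ) : ℂ := ∑ n ∈ S, HH u (e * N * n)

lemma Qb_eq_Part (N : ℕ) (s : Finset ℤ) (g : ℤ → ℝ) (S₁ S₂ S₃ : Finset ℕ) (e₁ e₂ e₃ : ℝ) :
    Qb N s g S₁ S₂ S₃ e₁ e₂ e₃ = ∑ a ∈ s, ∑ b ∈ s, ∑ c ∈ s, ((g a * g b * g c : ℝ) : ℂ) *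
      (Hs_Part N S₁ e₁ ((a : ℝ) - b) * Hs_Part N S₂ e₂ ((b : ℝ) - c) *
        Hs_Part N S₃ e₃ ((c : ℝ) - a)) :=
  comm33_Part S₁ S₂ S₃ s (fun a b c => ((g a * g b * g c : ℝ) : ℂ))
    (fun n a b _ => HH ((a : ℝ) - b) (e₁ * N * n)) (fun n _ b c => HH ((b : ℝ) - c) (e₂ * N * n))
    (fun n a _ c => HH ((c : ℝ) - a) (e₃ * N * n))

lemma Qb_rot_Part (N : ℕ) (s : Finset ℤ) (g : ℤ → ℝ) (S₁ S₂ S₃ : Finset ℕ) (e₁ e₂ e₃ : ℝ) :
    Qb N s g S₁ S₂ S₃ e₁ e₂ e₃ = Qb N s g S₂ S₃ S₁ e₂ e₃ e₁ := by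
  rw [Qb_eq_Part, Qb_eq_Part, sum_comm]
  refine sum_congr rfl fun b _ => ?_
  rw [sum_comm]
  refine sum_congr rfl fun c _ => sum_congr rfl fun a _ => ?_
  push_cast
  ring

/-- the dyadic block -/
def Bl_Part (M j : ℕ) : Finset ℕ := (Ico (2 ^ j) (2 * 2 ^ j)).filter (· ≤ M)

lemma Dy_Bl_Part (M j : ℕ) : Dy (2 ^ j) (Bl_Part M j) :=
  ⟨Nat.one_le_two_pow, filter_subset _ _⟩

lemma sum_Icc_Part (M : ℕ) (F : ℕ → ℂ) :
    ∑ n ∈ Icc 1 M, F n = ∑ j ∈ range (Nat.log 2 M + 1), ∑ n ∈ Bl_Part M j, F n := by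
  rw [← sum_fiberwise_of_maps_to (s := Icc 1 M) (t := range (Nat.log 2 M + 1))
    (g := Nat.log 2) fun n hn => mem_range.2 (Nat.lt_succ_of_le
      (Nat.log_mono_right (mem_Icc.1 hn).2))]
  refine sum_congr rfl fun j _ => sum_congr ?_ fun _ _ => rfl
  ext n
  simp only [Bl_Part, mem_filter, mem_Icc, mem_Ico]
  constructor
  · rintro ⟨⟨h1, h2⟩, rfl⟩
    have a1 := Nat.pow_log_le_self 2 (show n ≠ 0 by omega)
    have a2 := Nat.lt_pow_succ_log_self (b := 2) (by norm_num) n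
    rw [pow_succ] at a2
    exact ⟨⟨a1, by omega⟩, h2⟩
  · rintro ⟨⟨h1, h2⟩, h3⟩
    have : 1 ≤ 2 ^ j := Nat.one_le_two_pow
    exact ⟨⟨by omega, h3⟩, Nat.log_eq_of_pow_le_of_lt_pow h1 (by rw [pow_succ]; omega)⟩

lemma sum_Ms_Part (M : ℕ) (F : ℤ → ℂ) :
    ∑ m ∈ Ms M, F m = ∑ n ∈ Icc 1 M, F n + ∑ n ∈ Icc 1 M, F (-n) := by
  induction M with
  | zero => simp [Ms]
  | succ M ih =>
    have e : Ms (M + 1) = insert ((M + 1 : ℕ) : ℤ) (insert (-((M + 1 : ℕ) : ℤ)) (Ms M)) := by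
      ext m
      simp only [mem_insert, mem_Ms]
      omega
    rw [e, sum_insert, sum_insert, ih, sum_Icc_succ_top (by omega), sum_Icc_succ_top (by omega)]
    · ring
    · rw [mem_Ms]; omega
    · simp only [mem_insert, mem_Ms]; omega

/-- the index set of signed blocks -/
def Ix_Part (M : ℕ) : Finset (Bool × ℕ) := univ ×ˢ range (Nat.log 2 M + 1)

/-- the sign -/
def sg_Part (b : Bool) : ℝ := if b then 1 else -1

lemma Sg_Part (b : Bool) : Sg (sg_Part b) := by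
  cases b
  · exact Or.inr rfl
  · exact Or.inl rfl

lemma sum_HH_Part (N M : ℕ) (u : ℝ) : ∑ m ∈ Ms M, HH u ((m : ℝ) * N) =
    ∑ p ∈ Ix_Part M, Hs_Part N (Bl_Part M p.2) (sg_Part p.1) u := by
  rw [sum_Ms_Part, Ix_Part, sum_product, Fintype.sum_bool, sum_Icc_Part, sum_Icc_Part]
  congr 1
  · refine sum_congr rfl fun j _ => sum_congr rfl fun n _ => ?_
    congr 1
    simp only [sg_Part, if_true]
    push_cast
    ring
  · refine sum_congr rfl fun j _ => sum_congr rfl fun n _ => ?_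
    congr 1
    simp only [sg_Part, Bool.false_eq_true, if_false]
    push_cast
    ring

lemma Q3_eq_Part (N M : ℕ) (s : Finset ℤ) (g : ℤ → ℝ) :
    Q3 N M s g = (N : ℂ) ^ 3 * ∑ p ∈ Ix_Part M, ∑ q ∈ Ix_Part M, ∑ r ∈ Ix_Part M,
      Qb N s g (Bl_Part M p.2) (Bl_Part M q.2) (Bl_Part M r.2)
        (sg_Part p.1) (sg_Part q.1) (sg_Part r.1) := by
  simp only [Qb_eq_Part]
  rw [comm33_Part (Ix_Part M) (Ix_Part M) (Ix_Part M) s
    (fun a b c => ((g a * g b * g c : ℝ) : ℂ))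
    (fun p a b _ => Hs_Part N (Bl_Part M p.2) (sg_Part p.1) ((a : ℝ) - b))
    (fun p _ b c => Hs_Part N (Bl_Part M p.2) (sg_Part p.1) ((b : ℝ) - c))
    (fun p a _ c => Hs_Part N (Bl_Part M p.2) (sg_Part p.1) ((c : ℝ) - a))]
  unfold Q3
  rw [mul_sum]
  refine sum_congr rfl fun a _ => ?_
  rw [mul_sum]
  refine sum_congr rfl fun b _ => ?_
  rw [mul_sum]
  refine sum_congr rfl fun c _ => ?_
  have hp : pw (N : ℝ) ((a : ℝ) - b) * pw (N : ℝ) ((b : ℝ) - c) * pw (N : ℝ) ((c : ℝ) - a) = 1 := by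
    rw [← pw_add, ← pw_add, show (a : ℝ) - b + ((b : ℝ) - c) + ((c : ℝ) - a) = 0 by ring, pw_zero]
  rw [← sum_HH_Part, ← sum_HH_Part, ← sum_HH_Part]
  unfold Kb
  linear_combination ((g a * g b * g c : ℝ) : ℂ) * (N : ℂ) ^ 3 *
    ((∑ m ∈ Ms M, HH ((a : ℝ) - b) ((m : ℝ) * N)) * (∑ m ∈ Ms M, HH ((b : ℝ) - c) ((m : ℝ) * N)) *
      ∑ m ∈ Ms M, HH ((c : ℝ) - a) ((m : ℝ) * N)) * hp

theorem part_stmt : PartStmt := by
  intro N M s g Z hZ h
  rcases Nat.eq_zero_or_pos M with rfl | hM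
  · have : Q3 N 0 s g = 0 := by simp [Q3, Kb, Ms]
    rw [this, norm_zero]
    positivity
  have hle : ∀ p ∈ Ix_Part M, 2 ^ p.2 ≤ M := fun p hp => by
    have h1 : p.2 ≤ Nat.log 2 M := Nat.lt_succ_iff.1 (mem_range.1 (mem_product.1 hp).2)
    exact (Nat.pow_le_pow_right (by norm_num) h1).trans (Nat.pow_log_le_self 2 hM.ne')
  have key : ∀ p ∈ Ix_Part M, ∀ q ∈ Ix_Part M, ∀ r ∈ Ix_Part M,
      ‖Qb N s g (Bl_Part M p.2) (Bl_Part M q.2) (Bl_Part M r.2)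
        (sg_Part p.1) (sg_Part q.1) (sg_Part r.1)‖ ≤ Z := by
    intro p hp q hq r hr
    by_cases h1 : 2 ^ p.2 ≤ 2 ^ r.2 ∧ 2 ^ q.2 ≤ 2 ^ r.2
    · exact h _ _ _ _ _ _ _ _ _ (Dy_Bl_Part M _) (Dy_Bl_Part M _) (Dy_Bl_Part M _) h1.1 h1.2
        (hle r hr) (Sg_Part _) (Sg_Part _) (Sg_Part _)
    by_cases h2 : 2 ^ q.2 ≤ 2 ^ p.2
    · rw [Qb_rot_Part]
      exact h _ _ _ _ _ _ _ _ _ (Dy_Bl_Part M _) (Dy_Bl_Part M _) (Dy_Bl_Part M _) h2
        (by omega) (hle p hp) (Sg_Part _) (Sg_Part _) (Sg_Part _)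
    · rw [← Qb_rot_Part]
      exact h _ _ _ _ _ _ _ _ _ (Dy_Bl_Part M _) (Dy_Bl_Part M _) (Dy_Bl_Part M _)
        (by omega) (by omega) (hle q hq) (Sg_Part _) (Sg_Part _) (Sg_Part _)
  have hc : ((Ix_Part M).card : ℝ) = 2 * ((Nat.log 2 M : ℝ) + 1) := by
    simp [Ix_Part]
  have hb : ‖∑ p ∈ Ix_Part M, ∑ q ∈ Ix_Part M, ∑ r ∈ Ix_Part M,
      Qb N s g (Bl_Part M p.2) (Bl_Part M q.2) (Bl_Part M r.2)
        (sg_Part p.1) (sg_Part q.1) (sg_Part r.1)‖ ≤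
      ∑ p ∈ Ix_Part M, ∑ q ∈ Ix_Part M, ∑ r ∈ Ix_Part M, Z :=
    (norm_sum_le _ _).trans (sum_le_sum fun p hp => (norm_sum_le _ _).trans
      (sum_le_sum fun q hq => (norm_sum_le _ _).trans (sum_le_sum fun r hr => key p hp q hq r hr)))
  simp only [sum_const, nsmul_eq_mul, hc] at hb
  rw [Q3_eq_Part, norm_mul, norm_pow, Complex.norm_natCast]
  calc _ ≤ (N : ℝ) ^ 3 * (2 * ((Nat.log 2 M : ℝ) + 1) * (2 * ((Nat.log 2 M : ℝ) + 1) *
        (2 * ((Nat.log 2 M : ℝ) + 1) * Z))) := by gcongr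
    _ = _ := by ring

end Pool.Agent.MP_2a1f0e_nt.GM2

end

section

set_option autoImplicit false
open Finset
namespace Pool.Agent.MP_2a1f0e_nt.GM2
open GM

lemma F_eq_PFour (s : Finset ℤ) (g : ℤ → ℝ) (θ : ℝ) : F_Par s g θ = FT s g (Real.exp θ) := by
  have h : FT s g (Real.exp θ) = F_Par s g (Real.log (Real.exp θ)) := rfl
  rw [h, Real.log_exp]

lemma sq_PFour {L : ℕ} {g : ℤ → ℝ} (hg : Sup L g) (θ : ℝ) :
    F_Par (Io (2 * L)) (fun p => ∑ a ∈ Io L, g a * g (a - p)) θ =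
      ((‖F_Par (Io L) g θ‖ ^ 2 : ℝ) : ℂ) := by
  rw [sq_Par, F_Par]
  simp only [Complex.ofReal_sum, sum_mul]
  rw [sum_comm]
  refine sum_congr rfl fun a ha => ?_
  symm
  refine sum_of_injOn (fun u => a - u) (fun u _ v _ h => sub_right_injective h) ?_ ?_ ?_
  · intro u hu
    rw [mem_coe, mem_Io] at hu ⊢
    rw [mem_Io] at ha
    push_cast
    omega
  · intro p _ hp
    have h : a - p ∉ Io L := fun h => hp ⟨a - p, h, by simp⟩
    simp [hg _ h]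
  · intro u _
    simp

theorem p4_stmt : P4Stmt := by
  intro L g A D hg hA
  have h0 : ∀ p, p ∉ Io (2 * L) → ∑ a ∈ Io L, g a * g (a - p) = 0 := by
    intro p hp
    refine sum_eq_zero fun a ha => ?_
    have h : a - p ∉ Io L := by
      rw [mem_Io] at ha hp ⊢
      push_cast at hp
      omega
    rw [hg _ h, mul_zero]
  have h1 : ∑ p ∈ D, (∑ a ∈ Io L, g a * g (a - p)) ^ 2 ≤
      ∑ p ∈ Io (2 * L), (∑ a ∈ Io L, g a * g (a - p)) ^ 2 := by
    refine (sum_le_sum_of_subset_of_nonneg (subset_union_left (s₂ := Io (2 * L)))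
      fun _ _ _ => sq_nonneg _).trans_eq (sum_subset subset_union_right fun p _ hp => ?_).symm
    rw [h0 p hp]
    simp
  refine h1.trans (le_of_mul_le_mul_left ?_ Real.two_pi_pos)
  rw [← pars_Par, mul_left_comm, ← pars_Par, ← intervalIntegral.integral_const_mul]
  refine intervalIntegral.integral_mono_on (by linarith [Real.pi_pos])
    (((cont_Par _ _).norm.pow 2).intervalIntegrable _ _)
    ((continuous_const.mul ((cont_Par _ _).norm.pow 2)).intervalIntegrable _ _) fun θ _ => ?_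
  rw [sq_PFour hg, Complex.norm_real, Real.norm_eq_abs, sq_abs, sq (‖F_Par (Io L) g θ‖ ^ 2)]
  refine mul_le_mul_of_nonneg_right (pow_le_pow_left₀ (norm_nonneg _) ?_ 2) (sq_nonneg _)
  rw [F_eq_PFour]
  exact hA _

end Pool.Agent.MP_2a1f0e_nt.GM2

end

section

set_option autoImplicit false

open Finset

namespace Pool.Agent.MP_2a1f0e_nt.GM2

open GM

lemma four_Psi {a b B : ℝ} (hab : a ≤ b) {φ φ₁ φ₂ : ℝ → ℂ}
    (a1 : ∀ x ∈ Set.Icc a b, HasDerivAt φ (φ₁ x) x)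
    (a2 : ∀ x ∈ Set.Icc a b, HasDerivAt φ₁ (φ₂ x) x) (a3 : ContinuousOn φ₂ (Set.Icc a b))
    (za : φ a = 0) (zb : φ b = 0) (z1a : φ₁ a = 0) (z1b : φ₁ b = 0)
    (h0 : ∀ x ∈ Set.Icc a b, ‖φ x‖ ≤ B) (h2 : ∀ x ∈ Set.Icc a b, ‖φ₂ x‖ ≤ B) (η : ℝ) :
    ‖∫ r in a..b, φ r * ex (-η * r)‖ ≤ 2 * (B * (b - a)) * kp η := by
  have c1 : ContinuousOn φ (Set.Icc a b) := fun x hx => (a1 x hx).continuousAt.continuousWithinAt
  have c0 : ContinuousOn (fun r : ℝ => ex (-η * r)) (Set.Icc a b) :=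
    (continuous_ex.comp (continuous_const.mul continuous_id)).continuousOn
  have bd : ∀ ψ : ℝ → ℂ, (∀ x ∈ Set.Icc a b, ‖ψ x‖ ≤ B) →
      ‖∫ r in a..b, ψ r * ex (-η * r)‖ ≤ B * (b - a) := fun ψ hψ => by
    refine (intervalIntegral.norm_integral_le_of_norm_le_const (C := B) fun x hx => ?_).trans
      (le_of_eq (by rw [abs_of_nonneg (sub_nonneg.2 hab)]))
    rw [norm_mul, norm_ex, mul_one]
    rw [Set.uIoc_of_le hab] at hx
    exact hψ x (Set.Ioc_subset_Icc_self hx)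
  set c : ℂ := 2 * Real.pi * Complex.I * ((-η : ℝ) : ℂ) with hc
  have i1 : IntervalIntegrable (fun r => c ^ 2 * (φ r * ex (-η * r))) MeasureTheory.volume a b :=
    (continuousOn_const.mul (c1.mul c0)).intervalIntegrable_of_Icc hab
  have i2 : IntervalIntegrable (fun r => φ₂ r * ex (-η * r)) MeasureTheory.volume a b :=
    (a3.mul c0).intervalIntegrable_of_Icc hab
  have e1 : ∫ r in a..b, (c ^ 2 * (φ r * ex (-η * r)) - φ₂ r * ex (-η * r)) =
      (c * φ b - φ₁ b) * ex (-η * b) - (c * φ a - φ₁ a) * ex (-η * a) := by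
    refine intervalIntegral.integral_eq_sub_of_hasDerivAt
      (f := fun r : ℝ => (c * φ r - φ₁ r) * ex (-η * r)) (fun x hx => ?_) (i1.sub i2)
    rw [Set.uIcc_of_le hab] at hx
    refine ((((a1 x hx).const_mul c).sub (a2 x hx)).mul (hasDerivAt_ex (-η) x)).congr_deriv ?_
    simp only [Pi.sub_apply, ← hc]
    ring
  rw [za, zb, z1a, z1b, intervalIntegral.integral_sub i1 i2,
    intervalIntegral.integral_const_mul] at e1
  simp only [mul_zero, sub_zero, zero_mul, sub_eq_zero] at e1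
  have k1 := bd φ h0
  have k2 := bd φ₂ h2
  have k3 : η ^ 2 ≤ ‖c‖ ^ 2 := by
    have : ‖c‖ = 2 * Real.pi * |η| := by
      rw [hc, norm_mul, norm_mul, norm_mul, Complex.norm_I, Complex.norm_real, Complex.norm_real,
        Real.norm_of_nonneg Real.pi_pos.le, Real.norm_eq_abs, abs_neg]
      simp
    rw [this, mul_pow, sq_abs]
    refine le_mul_of_one_le_left (sq_nonneg _) (one_le_pow₀ ?_)
    linarith [Real.pi_gt_three]
  rw [← e1, norm_mul, norm_pow] at k2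
  rw [kp, mul_one_div, le_div_iff₀ (by positivity)]
  have k4 := mul_le_mul_of_nonneg_right k3 (norm_nonneg (∫ r in a..b, φ r * ex (-η * r)))
  linarith

lemma main_Psi {A : ℝ} {g : ℝ → ℝ} (h : Bd_Rad A g) (hs : ∀ x, x ≤ 1 / 8 ∨ 27 ≤ x → g x = 0)
    (k η : ℝ) : ‖∫ r : ℝ, ((r ^ 2 * g r : ℝ) : ℂ) * pw r k * ex (-(η * r))‖ ≤
      56 * (900 * A) * (1 + |k|) ^ 2 * kp η := by
  have hA := nonneg_Rad h
  obtain ⟨g₁, g₂, a1, a2, a3, a4⟩ := h
  have c1 : Continuous g := continuous_iff_continuousAt.2 fun x => (a1 x).continuousAt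
  have c2 : Continuous g₁ := continuous_iff_continuousAt.2 fun x => (a2 x).continuousAt
  have z0 : g₁ (1 / 16) = 0 :=
    (a1 _).unique ((hasDerivAt_const (1 / 16 : ℝ) (0 : ℝ)).congr_of_eventuallyEq
      ((eventually_le_nhds (by norm_num : (1 / 16 : ℝ) < 1 / 8)).mono fun x hx => hs x (Or.inl hx)))
  have z3 : g₁ 28 = 0 := (a1 28).unique ((hasDerivAt_const (28 : ℝ) (0 : ℝ)).congr_of_eventuallyEq
    ((eventually_ge_nhds (by norm_num : (27 : ℝ) < 28)).mono fun x hx => hs x (Or.inr hx)))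
  have e0 : ∫ r : ℝ, ((r ^ 2 * g r : ℝ) : ℂ) * pw r k * ex (-(η * r)) =
      ∫ r in (1 / 16 : ℝ)..28, ((r : ℂ) ^ 2 * g r * pw r k) * ex (-η * r) := by
    simp only [neg_mul, Complex.ofReal_mul, Complex.ofReal_pow]
    refine (intervalIntegral.integral_eq_integral_of_support_subset fun x hx => ?_).symm
    by_contra hc
    apply hx
    rw [Set.mem_Ioc, not_and_or, not_lt, not_le] at hc
    simp only [hs x (hc.imp (fun h => by linarith) fun h => by linarith), Complex.ofReal_zero,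
      zero_mul, mul_zero]
  have hk := abs_nonneg k
  have n1 : ‖1 + Complex.I * k‖ ≤ 1 + |k| := (norm_add_le _ _).trans (by simp)
  have n2 : ‖2 + Complex.I * k‖ ≤ 2 * (1 + |k|) :=
    (norm_add_le _ _).trans (by simp only [Complex.norm_ofNat, norm_mul, Complex.norm_I,
      Complex.norm_real, Real.norm_eq_abs]; linarith)
  have hK : 1 + |k| ≤ (1 + |k|) ^ 2 := by nlinarith
  have hK1 : 1 ≤ (1 + |k|) ^ 2 := by linarith
  have hx0 : ∀ x ∈ Set.Icc (1 / 16 : ℝ) 28, x ≠ 0 := fun x hx =>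
    (lt_of_lt_of_le (by norm_num) hx.1 : 0 < x).ne'
  have nx : ∀ x ∈ Set.Icc (1 / 16 : ℝ) 28, ‖(x : ℂ)‖ ≤ 28 := fun x hx => by
    rw [Complex.norm_real, Real.norm_of_nonneg (by linarith [hx.1])]
    exact hx.2
  have ng : ∀ {y : ℝ}, |y| ≤ A → ‖(y : ℂ)‖ ≤ A := fun hy => by
    rwa [Complex.norm_real, Real.norm_eq_abs]
  have hid : ∀ x : ℝ, HasDerivAt (fun r : ℝ => (r : ℂ)) 1 x := fun x => by
    simpa using (hasDerivAt_id x).ofReal_comp
  rw [e0]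
  refine (four_Psi (B := 900 * A * (1 + |k|) ^ 2) (by norm_num)
    (φ := fun r : ℝ => (r : ℂ) ^ 2 * g r * pw r k)
    (φ₁ := fun r : ℝ => ((2 + Complex.I * k) * (r * g r) + (r : ℂ) ^ 2 * g₁ r) * pw r k)
    (φ₂ := fun r : ℝ => ((2 + Complex.I * k) * (1 + Complex.I * k) * g r +
      2 * (2 + Complex.I * k) * (r * g₁ r) + (r : ℂ) ^ 2 * g₂ r) * pw r k)
    (fun x hx => ?_) (fun x hx => ?_) ?_ ?_ ?_ ?_ ?_ (fun x hx => ?_) (fun x hx => ?_) η).trans ?_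
  · have x0 : (x : ℂ) ≠ 0 := Complex.ofReal_ne_zero.2 (hx0 x hx)
    refine ((((hid x).pow 2).mul (a1 x).ofReal_comp).mul (hasDerivAt_pw (hx0 x hx) k)).congr_deriv ?_
    simp only [Pi.mul_apply, Pi.pow_apply]
    field_simp
    ring
  · have x0 : (x : ℂ) ≠ 0 := Complex.ofReal_ne_zero.2 (hx0 x hx)
    refine (((((hid x).mul (a1 x).ofReal_comp).const_mul (2 + Complex.I * k)).add
      (((hid x).pow 2).mul (a2 x).ofReal_comp)).mul (hasDerivAt_pw (hx0 x hx) k)).congr_deriv ?_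
    simp only [Pi.mul_apply, Pi.pow_apply, Pi.add_apply]
    field_simp
    ring
  · refine ContinuousOn.mul (Continuous.continuousOn (by fun_prop))
      ((continuousOn_pw k).mono fun x hx => ?_)
    exact lt_of_lt_of_le (by norm_num) hx.1
  · simp only [hs (1 / 16) (by norm_num), Complex.ofReal_zero, mul_zero, zero_mul]
  · simp [hs 28 (by norm_num)]
  · simp only [hs (1 / 16) (by norm_num), z0, Complex.ofReal_zero, mul_zero, zero_mul, add_zero]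
  · simp [hs 28 (by norm_num), z3]
  · rw [norm_mul, norm_pw, mul_one, norm_mul, norm_pow]
    have := mul_le_mul (pow_le_pow_left₀ (norm_nonneg _) (nx x hx) 2) (ng (a4 x).1)
      (norm_nonneg _) (by norm_num)
    nlinarith
  · rw [norm_mul, norm_pw, mul_one]
    refine (norm_add₃_le ..).trans ?_
    simp only [norm_mul, norm_pow, Complex.norm_ofNat]
    have t0 := mul_le_mul (mul_le_mul n2 n1 (norm_nonneg _) (by positivity)) (ng (a4 x).1)
      (norm_nonneg _) (by positivity)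
    have t1 := mul_le_mul n2 (mul_le_mul (nx x hx) (ng (a4 x).2.1) (norm_nonneg _) (by norm_num))
      (by positivity) (by positivity)
    have t2 := mul_le_mul (pow_le_pow_left₀ (norm_nonneg _) (nx x hx) 2) (ng (a4 x).2.2)
      (norm_nonneg _) (by norm_num)
    have t3 := mul_le_mul_of_nonneg_left hK hA
    have t4 := mul_le_mul_of_nonneg_left hK1 hA
    nlinarith
  · refine mul_le_mul_of_nonneg_right ?_ (kp_pos η).le
    have : 0 ≤ A * (1 + |k|) ^ 2 := by positivity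
    nlinarith

theorem psi_stmt : PsiStmt := by
  have hW : ContDiff ℝ 2 Wt := contDiff_Wt (n := 2)
  obtain ⟨A, h0⟩ := exists_Rad hW hasCompactSupport_Wt
  have p0 := nonneg_Rad h0
  have hs : ∀ p ∈ Set.Icc (1 / 12 : ℝ) 6, Bd_Rad (9 * (9 * A)) fun r => Wt (r * p) := fun p hp => by
    have := scale_Rad (v := p / 2) (scale_Rad (v := 2) h0 (by norm_num))
      (abs_le.2 ⟨by linarith [hp.1], by linarith [hp.2]⟩)
    simpa only [mul_assoc, div_mul_cancel₀ p (two_ne_zero' ℝ)] using this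
  refine ⟨56 * (900 * (4 * (9 * (9 * A) * (9 * (9 * A))))) + 1, by positivity,
    fun k p q ξ hp hq => ?_⟩
  have h := main_Psi (mul_Rad (hs p hp) (hs q hq)) (fun x hx => by
    rw [Wt_eq_zero (x := x * p), zero_mul]
    rcases hx with hx | hx
    · left
      rcases le_total x 0 with h | h
      · nlinarith [hp.1]
      · nlinarith [hp.2]
    · right
      nlinarith [hp.1]) k ξ
  unfold Psi
  simp only [← mul_assoc] at h ⊢
  refine h.trans (mul_le_mul_of_nonneg_right (mul_le_mul_of_nonneg_right (by linarith)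
    (by positivity)) (kp_pos ξ).le)

end Pool.Agent.MP_2a1f0e_nt.GM2

end

section

set_option autoImplicit false

open Finset

namespace Pool.Agent.MP_2a1f0e_nt.GM2

open GM

lemma mem_Rexp {p r : ℝ} (hp : p ∈ Set.Icc (1 / 12 : ℝ) 6) (h : Wt (r * p) ≠ 0) :
    r ∈ Set.Icc (1 / 8 : ℝ) 27 := by
  obtain ⟨h1, h2⟩ := mem_of_Wt_ne_zero h
  obtain ⟨p1, p2⟩ := hp
  have h0 : 0 < r := by
    by_contra h
    have := mul_nonpos_of_nonpos_of_nonneg (not_lt.1 h) (by linarith : 0 ≤ p)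
    linarith
  constructor <;> nlinarith

lemma int_Rexp {p : ℝ} (hp : p ∈ Set.Icc (1 / 12 : ℝ) 6) (q : ℝ) :
    MeasureTheory.Integrable fun r : ℝ => r ^ 2 * Wt (r * p) * Wt (r * q) := by
  have := continuous_Wt
  refine Continuous.integrable_of_hasCompactSupport (by fun_prop)
    (HasCompactSupport.intro (isCompact_Icc (a := (1 / 8 : ℝ)) (b := 27)) fun r hr => ?_)
  have h : Wt (r * p) = 0 := by
    by_contra h
    exact hr (mem_Rexp hp h)
  rw [h, mul_zero, zero_mul]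

theorem rexp_stmt (h : FouStmt) : RexpStmt := by
  obtain ⟨c, h1, h2⟩ := h
  refine ⟨c, h1, fun u p q ξ hu hp => ?_⟩
  have hc : Summable fun k : ℤ => ‖c k‖ := by
    refine Summable.of_nonneg_of_le (fun _ => norm_nonneg _) (fun k => ?_) h1
    exact le_mul_of_one_le_right (norm_nonneg _)
      (one_le_pow₀ (le_add_of_nonneg_right (abs_nonneg _)))
  have hG := int_Rexp hp q
  have hn : ∀ (k : ℤ) (r : ℝ), ‖c k * pw u k *
      (((r ^ 2 * Wt (r * p) * Wt (r * q) : ℝ) : ℂ) * pw r k * ex (-(ξ * r)))‖ =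
      ‖c k‖ * ‖r ^ 2 * Wt (r * p) * Wt (r * q)‖ := fun k r => by
    rw [norm_mul, norm_mul, norm_mul, norm_mul, norm_pw, norm_pw, norm_ex, Complex.norm_real,
      mul_one, mul_one, mul_one]
  have key := MeasureTheory.hasSum_integral_of_summable_integral_norm
    (μ := MeasureTheory.volume) (F := fun (k : ℤ) (r : ℝ) => c k * pw u k *
      (((r ^ 2 * Wt (r * p) * Wt (r * q) : ℝ) : ℂ) * pw r k * ex (-(ξ * r))))
    (fun k => by
      refine (hG.norm.const_mul ‖c k‖).mono' ?_ (Filter.Eventually.of_forall fun r => (hn k r).le)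
      have k1 := continuous_Wt
      have k2 := continuous_ex
      have k3 : Continuous fun r : ℝ => ((r ^ 2 * Wt (r * p) * Wt (r * q) : ℝ) : ℂ) := by fun_prop
      have k4 : Continuous fun r : ℝ => ex (-(ξ * r)) := by fun_prop
      exact (measurable_const.mul ((k3.measurable.mul (measurable_pw k)).mul
        k4.measurable)).aestronglyMeasurable)
    (by
      simp only [hn, MeasureTheory.integral_const_mul]
      exact hc.mul_right _)
  have e : ∀ r : ℝ, ∑' k : ℤ, c k * pw u k *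
      (((r ^ 2 * Wt (r * p) * Wt (r * q) : ℝ) : ℂ) * pw r k * ex (-(ξ * r))) =
      ((r ^ 2 * Wt (r * u) * Wt (r * p) * Wt (r * q) : ℝ) : ℂ) * ex (-(ξ * r)) := fun r => by
    by_cases h0 : Wt (r * p) = 0
    · simp [h0]
    obtain ⟨r1, r2⟩ := mem_Rexp hp h0
    obtain ⟨u1, u2⟩ := hu
    have k1 := (h2 (r * u) ⟨by nlinarith, by nlinarith⟩).mul_right
      (((r ^ 2 * Wt (r * p) * Wt (r * q) : ℝ) : ℂ) * ex (-(ξ * r)))
    have k2 : (fun k : ℤ => c k * pw u k *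
        (((r ^ 2 * Wt (r * p) * Wt (r * q) : ℝ) : ℂ) * pw r k * ex (-(ξ * r)))) =
        fun k : ℤ => c k * pw (r * u) k *
          (((r ^ 2 * Wt (r * p) * Wt (r * q) : ℝ) : ℂ) * ex (-(ξ * r))) := by
      funext k
      rw [pw_mul (by linarith : 0 < r).ne' (by linarith : 0 < u).ne']
      ring
    rw [k2, k1.tsum_eq]
    push_cast
    ring
  simp only [e, MeasureTheory.integral_const_mul] at key
  exact key

end Pool.Agent.MP_2a1f0e_nt.GM2

end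

section

set_option autoImplicit false

namespace Pool.Agent.MP_2a1f0e_nt.GM2

open MeasureTheory Set Real Filter Topology

theorem vdc_all : VdcStmt := by
  intro φ φ' φ'' a a' A L ε α β hαβ hL hε h1 h2 h3 ha ha' hA hA' hφ
  have mα : α ∈ Icc α β := left_mem_Icc.2 hαβ
  have mβ : β ∈ Icc α β := right_mem_Icc.2 hαβ
  have hu : uIcc α β = Icc α β := uIcc_of_le hαβ
  have hA0 : 0 ≤ A := (norm_nonneg _).trans (hA α mα)
  have c0 : ContinuousOn φ (Icc α β) := fun x hx => (h1 x hx).continuousAt.continuousWithinAt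
  have c1 : ContinuousOn φ' (Icc α β) := fun x hx => (h2 x hx).continuousAt.continuousWithinAt
  have ca : ContinuousOn a (Icc α β) := fun x hx => (ha x hx).continuousAt.continuousWithinAt
  have hD : ∀ x, 0 < φ' x ^ 2 + L ^ 2 := fun x => by positivity
  let w : ℝ → ℝ := fun x => φ' x / (φ' x ^ 2 + L ^ 2)
  let w' : ℝ → ℝ := fun x => φ'' x * (L ^ 2 - φ' x ^ 2) / (φ' x ^ 2 + L ^ 2) ^ 2
  have hw : ∀ x ∈ Icc α β, HasDerivAt w (w' x) x := by
    intro x hx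
    have := (h2 x hx).div (((h2 x hx).pow 2).add_const (L ^ 2)) (hD x).ne'
    refine this.congr_deriv ?_
    simp only [w', Pi.pow_apply]
    congr 1
    simp; ring
  have cw : ContinuousOn w (Icc α β) := fun x hx => (hw x hx).continuousAt.continuousWithinAt
  have cw' : ContinuousOn w' (Icc α β) := by
    unfold w'
    exact ContinuousOn.div (by fun_prop) (by fun_prop) fun x _ => (pow_pos (hD x) 2).ne'
  have bw : ∀ x, |w x| ≤ 1 / (2 * L) := by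
    intro x
    simp only [w]
    rw [abs_div, abs_of_pos (hD x), div_le_div_iff₀ (hD x) (by positivity)]
    nlinarith [sq_nonneg (|φ' x| - L), sq_abs (φ' x)]
  let E : ℝ → ℂ := fun x => Complex.exp (Complex.I * φ x)
  have hE : ∀ x ∈ Icc α β, HasDerivAt E (E x * (Complex.I * φ' x)) x := fun x hx =>
    ((h1 x hx).ofReal_comp.const_mul Complex.I).cexp
  have nE : ∀ x, ‖E x‖ = 1 := fun x => by
    simp only [E]; rw [mul_comm, Complex.norm_exp_ofReal_mul_I]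
  have cE : ContinuousOn E (Icc α β) := fun x hx => (hE x hx).continuousAt.continuousWithinAt
  let Ψ : ℝ → ℂ := fun x => -Complex.I * (E x * (a x * w x))
  let R : ℝ → ℂ := fun x => Complex.I * (E x * (a' x * w x + a x * w' x)) +
    a x * E x * ((L ^ 2 / (φ' x ^ 2 + L ^ 2) : ℝ) : ℂ)
  have cR : ContinuousOn R (Icc α β) := by
    have : ContinuousOn (fun x => L ^ 2 / (φ' x ^ 2 + L ^ 2)) (Icc α β) :=
      ContinuousOn.div (by fun_prop) (by fun_prop) fun x _ => (hD x).ne'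
    have o := Complex.continuous_ofReal
    exact (continuousOn_const.mul (cE.mul ((ha'.mul (o.comp_continuousOn cw)).add
      (ca.mul (o.comp_continuousOn cw'))))).add ((ca.mul cE).mul (o.comp_continuousOn this))
  have hΨ : ∀ x ∈ Icc α β, HasDerivAt Ψ (a x * E x - R x) x := by
    intro x hx
    have := ((hE x hx).mul ((ha x hx).mul (hw x hx).ofReal_comp)).const_mul (-Complex.I)
    refine this.congr_deriv ?_
    have hD' : ((φ' x ^ 2 + L ^ 2 : ℝ) : ℂ) ≠ 0 := by exact_mod_cast (hD x).ne'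
    have e1 : ((L ^ 2 / (φ' x ^ 2 + L ^ 2) : ℝ) : ℂ) = 1 - φ' x * w x := by
      have : L ^ 2 / (φ' x ^ 2 + L ^ 2) = 1 - φ' x * w x := by
        have := hD x
        simp only [w]; field_simp; ring
      rw [this]; push_cast; ring
    simp only [R, e1, Pi.mul_apply]
    linear_combination (-(E x * φ' x * a x * w x)) * Complex.I_mul_I
  have hint := intervalIntegral.integral_eq_sub_of_hasDerivAt (fun x hx => hΨ x (hu ▸ hx))
    (((ca.mul cE).sub cR).intervalIntegrable_of_Icc hαβ)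
  rw [intervalIntegral.integral_sub (f := fun y => a y * E y) ((ca.mul cE).intervalIntegrable_of_Icc hαβ)
    (cR.intervalIntegrable_of_Icc hαβ)] at hint
  have bΨ : ∀ x ∈ Icc α β, ‖Ψ x‖ ≤ A / (2 * L) := by
    intro x hx
    simp only [Ψ, norm_mul, norm_neg, Complex.norm_I, nE, one_mul, Complex.norm_real,
      Real.norm_eq_abs]
    calc ‖a x‖ * |w x| ≤ A * (1 / (2 * L)) := by gcongr; exacts [hA x hx, bw x]
      _ = _ := by ring
  let B : ℝ → ℝ := fun x => A / (2 * L) * x + 2 * A * (ε * (arctan (φ' x / L) / L))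
  let B' : ℝ → ℝ := fun x => A / (2 * L) + 2 * A * (ε * φ'' x / (φ' x ^ 2 + L ^ 2))
  have hB : ∀ x ∈ Icc α β, HasDerivAt B (B' x) x := by
    intro x hx
    have := ((hasDerivAt_id x).const_mul (A / (2 * L))).add
      ((((((h2 x hx).div_const L).arctan).div_const L).const_mul ε).const_mul (2 * A))
    refine this.congr_deriv ?_
    have := hD x
    simp only [B']
    field_simp
    ring
  have cB' : ContinuousOn B' (Icc α β) := by
    have : ContinuousOn (fun x => ε * φ'' x / (φ' x ^ 2 + L ^ 2)) (Icc α β) :=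
      ContinuousOn.div (by fun_prop) (by fun_prop) fun x _ => (hD x).ne'
    exact continuousOn_const.add (continuousOn_const.mul this)
  have hintB := intervalIntegral.integral_eq_sub_of_hasDerivAt (fun x hx => hB x (hu ▸ hx))
    (cB'.intervalIntegrable_of_Icc hαβ)
  have bR : ∀ x ∈ Icc α β, ‖R x‖ ≤ B' x := by
    intro x hx
    have hx' := hφ x hx
    have hDx := hD x
    have habs : |φ'' x| = ε * φ'' x := by
      have : 0 < ε * φ'' x := lt_of_lt_of_le (by positivity) hx'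
      rcases hε with rfl | rfl
      · rw [one_mul] at this ⊢; exact abs_of_pos this
      · rw [neg_one_mul] at this ⊢; exact abs_of_neg (by linarith)
    have bw' : |w' x| ≤ ε * φ'' x / (φ' x ^ 2 + L ^ 2) := by
      simp only [w']
      rw [abs_div, abs_mul, habs, abs_of_pos (pow_pos hDx 2), div_le_div_iff₀ (pow_pos hDx 2) hDx]
      have : |L ^ 2 - φ' x ^ 2| ≤ φ' x ^ 2 + L ^ 2 := by
        rw [abs_le]; constructor <;> nlinarith [sq_nonneg L, sq_nonneg (φ' x)]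
      have h0 : 0 ≤ ε * φ'' x := le_trans (by positivity) hx'
      calc ε * φ'' x * |L ^ 2 - φ' x ^ 2| * (φ' x ^ 2 + L ^ 2)
          ≤ ε * φ'' x * (φ' x ^ 2 + L ^ 2) * (φ' x ^ 2 + L ^ 2) := by gcongr
        _ = _ := by ring
    have b3 : L ^ 2 / (φ' x ^ 2 + L ^ 2) ≤ ε * φ'' x / (φ' x ^ 2 + L ^ 2) := by gcongr
    calc ‖R x‖ ≤ ‖Complex.I * (E x * (a' x * w x + a x * w' x))‖ +
          ‖a x * E x * ((L ^ 2 / (φ' x ^ 2 + L ^ 2) : ℝ) : ℂ)‖ := norm_add_le _ _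
      _ ≤ (‖a' x‖ * |w x| + ‖a x‖ * |w' x|) + ‖a x‖ * (L ^ 2 / (φ' x ^ 2 + L ^ 2)) := by
          gcongr
          · rw [norm_mul, norm_mul, Complex.norm_I, nE, one_mul, one_mul]
            refine (norm_add_le _ _).trans (le_of_eq ?_)
            simp only [norm_mul, Complex.norm_real, Real.norm_eq_abs]
          · rw [norm_mul, norm_mul, nE, mul_one, Complex.norm_real,
              Real.norm_of_nonneg (by positivity)]
      _ ≤ (A * (1 / (2 * L)) + A * (ε * φ'' x / (φ' x ^ 2 + L ^ 2))) +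
            A * (ε * φ'' x / (φ' x ^ 2 + L ^ 2)) := by
          gcongr
          exacts [hA' x hx, bw x, hA x hx, hA x hx]
      _ = B' x := by simp only [B']; ring
  have bI : ‖∫ x in α..β, R x‖ ≤ B β - B α := by
    rw [← hintB]
    exact intervalIntegral.norm_integral_le_of_norm_le hαβ
      (Eventually.of_forall fun x hx => bR x (Ioc_subset_Icc_self hx))
      (cB'.intervalIntegrable_of_Icc hαβ)
  have bB : B β - B α ≤ A * (β - α) / (2 * L) + 2 * A * (π / L) := by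
    have e1 : B β - B α = A * (β - α) / (2 * L) +
        2 * A * (ε * (arctan (φ' β / L) - arctan (φ' α / L)) / L) := by
      simp only [B]; ring
    rw [e1]
    gcongr
    have a1 := arctan_lt_pi_div_two (φ' β / L)
    have a2 := arctan_lt_pi_div_two (φ' α / L)
    have a3 := neg_pi_div_two_lt_arctan (φ' β / L)
    have a4 := neg_pi_div_two_lt_arctan (φ' α / L)
    rcases hε with rfl | rfl <;> linarith
  have : ∫ x in α..β, a x * E x = (Ψ β - Ψ α) + ∫ x in α..β, R x := by rw [← hint]; ring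
  change ‖∫ x in α..β, a x * E x‖ ≤ _
  rw [this]
  calc ‖(Ψ β - Ψ α) + ∫ x in α..β, R x‖ ≤ (‖Ψ β‖ + ‖Ψ α‖) + ‖∫ x in α..β, R x‖ :=
        (norm_add_le _ _).trans (by gcongr; exact norm_sub_le _ _)
    _ ≤ (A / (2 * L) + A / (2 * L)) + (A * (β - α) / (2 * L) + 2 * A * (π / L)) := by
        gcongr
        exacts [bΨ β mβ, bΨ α mα, bI.trans bB]
    _ ≤ _ := by
        have : 0 ≤ A * (β - α) / (2 * L) := by
          have := sub_nonneg.2 hαβ; positivity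
        have e : A * (1 + (β - α) + 2 * π) / L = (A / (2 * L) + A / (2 * L)) +
          (A * (β - α) / (2 * L) + 2 * A * (π / L)) + A * (β - α) / (2 * L) := by
          field_simp; ring
        rw [e]; linarith

end Pool.Agent.MP_2a1f0e_nt.GM2

end

section

set_option autoImplicit false

open Finset

namespace Pool.Agent.MP_2a1f0e_nt.GM3

open GM GM2

lemma norm_FT_Dec3 (s : Finset ℤ) (f : ℤ → ℝ) (v : ℝ) :
    ∃ α : ℝ, ‖FT s f v‖ = ∑ t ∈ s, f t * Real.cos ((t : ℝ) * Real.log v + α) := by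
  obtain ⟨α, hα⟩ : ∃ α : ℝ, FT s f v * Complex.exp (α * Complex.I) = (‖FT s f v‖ : ℝ) := by
    refine ⟨-Complex.arg (FT s f v), ?_⟩
    conv_lhs => rw [← Complex.norm_mul_exp_arg_mul_I (FT s f v), mul_assoc]
    rw [Complex.norm_mul_exp_arg_mul_I, ← Complex.exp_add]
    simp
  refine ⟨α, ?_⟩
  rw [← Complex.ofReal_re ‖FT s f v‖, ← hα, FT, sum_mul, Complex.re_sum]
  refine sum_congr rfl fun t _ => ?_
  rw [mul_assoc, Complex.re_ofReal_mul, pw, ← Complex.exp_add, ← Complex.exp_ofReal_mul_I_re]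
  congr 3
  push_cast
  ring

theorem dec3_stmt (hK : KktStmt) (hD : DirStmt) (hN : NOneStmt) : Dec3Stmt := by
  obtain ⟨CD, hCD, hD⟩ := hD
  obtain ⟨CN, hCN, hN⟩ := hN
  refine ⟨1 + CD + CN, by linarith, fun L g A μ X hL hA hμ hX => ?_⟩
  obtain ⟨f, e, h, h1, -, h3, h4, h5, h6⟩ := hK (Io L) g A μ hA hμ
  have p1 : 0 ≤ ∑ t ∈ Io L, f t ^ 2 := sum_nonneg fun _ _ => sq_nonneg _
  have p2 : 0 ≤ A * N1 (Io L) e := mul_nonneg hA.le (N1_nonneg _ _)
  have p3 : 0 ≤ μ * ∑ t ∈ Io L, |h t| := mul_nonneg hμ.le (sum_nonneg fun _ _ => abs_nonneg _)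
  refine ⟨f, h, h1, by linarith, fun v => ?_, fun t => ?_, ?_, ?_⟩
  · obtain ⟨α, hα⟩ := norm_FT_Dec3 (Io L) f v
    rw [hα]
    refine (h5 _).trans ((mul_le_mul_of_nonneg_left (hD L hL _ α) hA.le).trans ?_)
    rw [mul_comm A]
    gcongr
    linarith
  · by_cases ht : t ∈ Io L
    · exact h6 t ht
    · rw [h1 t ht, abs_zero]
      exact hμ.le
  · rw [le_div_iff₀ hμ]
    linarith
  · have e1 : (fun v => ‖FT (Io L) (fun t => g t - f t - h t) v‖) = fun v => ‖FT (Io L) e v‖ := by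
      funext v
      refine congrArg _ (sum_congr rfl fun t ht => ?_)
      beta_reduce
      rw [h3 t ht, show f t + e t + h t - f t - h t = e t by ring]
    have e2 : N1 (Io L) e ≤ X / A := by
      rw [le_div_iff₀ hA]
      linarith
    rw [e1]
    exact (hN _ _).trans (mul_le_mul (by linarith) e2 (N1_nonneg _ _) (by positivity))

end Pool.Agent.MP_2a1f0e_nt.GM3

end

section

set_option autoImplicit false
open Finset
namespace Pool.Agent.MP_2a1f0e_nt.GM3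
open GM GM2

/-- the Dirichlet kernel -/
noncomputable def D_Dir (L : ℕ) (u : ℝ) : ℂ :=
  ∑ t ∈ Io L, Complex.exp (Complex.I * ((t : ℝ) : ℂ) * (u : ℂ))

lemma cont_Dir (L : ℕ) : Continuous fun u => ‖D_Dir L u‖ := by
  unfold D_Dir
  fun_prop

lemma per_Dir (L : ℕ) : Function.Periodic (fun u => ‖D_Dir L u‖) (2 * Real.pi) := fun u => by
  unfold D_Dir
  refine congrArg norm (sum_congr rfl fun t _ => ?_)
  rw [← mul_one (Complex.exp (_ * (u : ℂ))), ← Complex.exp_int_mul_two_pi_mul_I t,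
    ← Complex.exp_add]
  congr 1
  push_cast
  ring

lemma gs_Dir (L : ℕ) (u : ℝ) :
    ‖D_Dir L u‖ = ‖gs ((L : ℤ) - -(L : ℤ) - 1).toNat (u / (2 * Real.pi))‖ := by
  have h : D_Dir L u = ex ((-(L : ℝ) + 1) * (u / (2 * Real.pi))) *
      gs ((L : ℤ) - -(L : ℤ) - 1).toNat (u / (2 * Real.pi)) := by
    unfold D_Dir gs Io
    rw [Int.Ioo_eq_finset_map, sum_map, mul_sum]
    refine sum_congr rfl fun r _ => ?_
    rw [← ex_add, ex]
    congr 1
    have : (Real.pi : ℂ) ≠ 0 := by exact_mod_cast Real.pi_ne_zero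
    simp only [Function.Embedding.trans_apply, Nat.castEmbedding_apply, addLeftEmbedding_apply]
    push_cast
    field_simp
  rw [h, norm_mul, norm_ex, one_mul]

lemma bd_Dir (L : ℕ) {u : ℝ} (hu : u ∈ Set.Icc (-Real.pi) Real.pi) :
    ‖D_Dir L u‖ ≤ 6 * L / (1 + L * |u|) := by
  have hp := Real.pi_pos
  have h0 : |u / (2 * Real.pi)| = |u| / (2 * Real.pi) := by
    rw [abs_div, abs_of_pos (a := 2 * Real.pi) (by positivity)]
  have h1 : |u / (2 * Real.pi)| ≤ 1 / 2 := by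
    rw [h0, div_le_iff₀ (by positivity)]
    linarith [abs_le.2 hu]
  rw [gs_Dir, le_div_iff₀ (by positivity)]
  have hn : (((L : ℤ) - -(L : ℤ) - 1).toNat : ℝ) ≤ 2 * L := by
    exact_mod_cast (show ((L : ℤ) - -(L : ℤ) - 1).toNat ≤ 2 * L by omega)
  generalize ((L : ℤ) - -(L : ℤ) - 1).toNat = n at hn
  have h2 : ‖gs n (u / (2 * Real.pi))‖ ≤ n :=
    (norm_sum_le _ _).trans (by simp [norm_ex])
  have h3 := mul_le_mul_of_nonneg_left (norm_ex_sub_one h1) (norm_nonneg (gs n (u / (2 * Real.pi))))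
  rw [← norm_mul, gs_mul, h0] at h3
  have h4 := h3.trans (norm_sub_le _ _)
  rw [norm_ex, norm_one, ← mul_div_assoc, ← mul_div_assoc, div_le_iff₀ (by positivity)] at h4
  have h5 : ‖gs n (u / (2 * Real.pi))‖ * |u| ≤ 4 := by linarith [Real.pi_le_four]
  have h6 := mul_le_mul_of_nonneg_left h5 (Nat.cast_nonneg (α := ℝ) L)
  linarith

lemma int_Dir (L : ℕ) :
    ∫ u in (-Real.pi)..Real.pi, ‖D_Dir L u‖ ≤ 12 * Real.log (1 + L * Real.pi) := by
  have hp := Real.pi_pos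
  have hc : Continuous fun u : ℝ => 6 * (L : ℝ) / (1 + L * |u|) :=
    continuous_const.div (by fun_prop) fun u => by positivity
  have h1 : ∫ u in (0 : ℝ)..Real.pi, 6 * (L : ℝ) / (1 + L * |u|) =
      6 * Real.log (1 + L * Real.pi) := by
    rw [intervalIntegral.integral_eq_sub_of_hasDerivAt (f := fun u => 6 * Real.log (1 + L * u))
      (fun u hu => ?_) (hc.intervalIntegrable _ _)]
    · simp
    · rw [Set.uIcc_of_le hp.le] at hu
      have h0 := hu.1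
      rw [abs_of_nonneg h0, mul_div_assoc]
      have := (((hasDerivAt_id u).const_mul (L : ℝ)).const_add 1).log
        (show 1 + (L : ℝ) * u ≠ 0 by positivity)
      rw [mul_one] at this
      exact this.const_mul 6
  have h2 : ∫ u in (-Real.pi)..0, 6 * (L : ℝ) / (1 + L * |u|) =
      6 * Real.log (1 + L * Real.pi) := by
    have := intervalIntegral.integral_comp_neg (a := 0) (b := Real.pi)
      fun u : ℝ => 6 * (L : ℝ) / (1 + L * |u|)
    simp only [abs_neg, neg_zero] at this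
    rw [← this, h1]
  refine (intervalIntegral.integral_mono_on (by linarith) ((cont_Dir L).intervalIntegrable _ _)
    (hc.intervalIntegrable _ _) fun u hu => bd_Dir L hu).trans_eq ?_
  rw [← intervalIntegral.integral_add_adjacent_intervals (b := 0) (hc.intervalIntegrable _ _)
    (hc.intervalIntegrable _ _), h1, h2]
  ring

lemma shift_Dir (L : ℕ) (x : ℝ) : ∫ u in (-Real.pi)..Real.pi, ‖D_Dir L (u + x)‖ =
    ∫ u in (-Real.pi)..Real.pi, ‖D_Dir L u‖ := by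
  have h := (per_Dir L).intervalIntegral_add_eq (-Real.pi + x) (-Real.pi)
  rw [intervalIntegral.integral_comp_add_right fun u => ‖D_Dir L u‖,
    show Real.pi + x = -Real.pi + x + 2 * Real.pi by ring, h,
    show -Real.pi + 2 * Real.pi = Real.pi by ring]

lemma pt_Dir (L : ℕ) (x α u : ℝ) :
    ‖FT (Io L) (fun t => Real.cos ((t : ℝ) * x + α)) (Real.exp u)‖ ≤
      ‖D_Dir L (u + x)‖ + ‖D_Dir L (u + -x)‖ := by
  have h : 2 * FT (Io L) (fun t => Real.cos ((t : ℝ) * x + α)) (Real.exp u) =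
      Complex.exp (α * Complex.I) * D_Dir L (u + x) +
        Complex.exp ((-α : ℝ) * Complex.I) * D_Dir L (u + -x) := by
    unfold FT D_Dir pw
    rw [mul_sum, mul_sum, mul_sum, ← sum_add_distrib]
    refine sum_congr rfl fun t _ => ?_
    rw [Real.log_exp, ← mul_assoc, Complex.ofReal_cos, Complex.two_cos, add_mul]
    simp only [← Complex.exp_add]
    congr 2 <;> push_cast <;> ring
  have h1 := (congrArg norm h).le.trans (norm_add_le _ _)
  rw [norm_mul, norm_mul, norm_mul, Complex.norm_exp_ofReal_mul_I, Complex.norm_exp_ofReal_mul_I,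
    Complex.norm_two] at h1
  linarith [norm_nonneg (D_Dir L (u + x)), norm_nonneg (D_Dir L (u + -x))]

theorem dir_stmt : DirStmt := by
  refine ⟨96, by norm_num, fun L hL x α => ?_⟩
  have hp := Real.pi_pos
  have c : ∀ y : ℝ, Continuous fun u => ‖D_Dir L (u + y)‖ := fun y =>
    (cont_Dir L).comp (continuous_add_const y)
  have h1 := intervalIntegral.integral_mono_on (μ := MeasureTheory.volume)
    (show -Real.pi ≤ Real.pi by linarith)
    ((continuous_FT_exp _ _).norm.intervalIntegrable _ _)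
    (((c x).add (c (-x))).intervalIntegrable _ _) fun u _ => pt_Dir L x α u
  simp only [Pi.add_apply] at h1
  rw [intervalIntegral.integral_add ((c x).intervalIntegrable _ _)
    ((c (-x)).intervalIntegrable _ _), shift_Dir, shift_Dir] at h1
  have h2 := int_Dir L
  have h3 : (L : ℝ) ≤ 2 ^ (Nat.log 2 L + 1) := by
    exact_mod_cast (Nat.lt_pow_succ_log_self one_lt_two L).le
  have h4 : (1 : ℝ) ≤ L := by exact_mod_cast hL
  have h5 : Real.log (1 + L * Real.pi) ≤ Real.log (2 ^ (Nat.log 2 L + 4)) := by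
    refine Real.log_le_log (by positivity) ?_
    rw [show Nat.log 2 L + 4 = Nat.log 2 L + 1 + 3 by ring, pow_add]
    nlinarith [Real.pi_le_four]
  rw [Real.log_pow] at h5
  push_cast at h5
  have h6 : Real.log 2 ≤ 1 := by linarith [Real.log_le_sub_one_of_pos two_pos]
  have h7 : (0 : ℝ) ≤ Nat.log 2 L := Nat.cast_nonneg _
  have h8 := mul_le_mul_of_nonneg_left h6 (show (0 : ℝ) ≤ Nat.log 2 L + 4 by linarith)
  unfold N1
  linarith

theorem nOne_stmt : NOneStmt := by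
  refine ⟨82 / 9, by norm_num, fun s g => ?_⟩
  have hc : Continuous fun θ => ‖F_Par s g θ‖ := (cont_Par s g).norm
  have hab : (1 / 9 : ℝ) ≤ 82 / 9 := by norm_num
  have hpos : ∀ x ∈ Set.uIcc (1 / 9 : ℝ) (82 / 9), x ≠ 0 := fun x hx => by
    rw [Set.uIcc_of_le hab] at hx
    linarith [hx.1]
  have hlog : ContinuousOn Real.log (Set.uIcc (1 / 9 : ℝ) (82 / 9)) :=
    Real.continuousOn_log.mono hpos
  have hinv : ContinuousOn (fun x : ℝ => x⁻¹) (Set.uIcc (1 / 9 : ℝ) (82 / 9)) :=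
    continuousOn_inv₀.mono hpos
  have h1 := intervalIntegral.integral_comp_mul_deriv (a := (1 / 9 : ℝ)) (b := 82 / 9)
    (fun x hx => Real.hasDerivAt_log (hpos x hx)) hinv hc
  have h2 : II (fun v => ‖FT s g v‖) ≤ ∫ x in (1 / 9 : ℝ)..(82 / 9),
      82 / 9 * (((fun θ => ‖F_Par s g θ‖) ∘ Real.log) x * x⁻¹) := by
    refine intervalIntegral.integral_mono_on hab
      (hc.comp_continuousOn hlog).intervalIntegrable
      (continuousOn_const.mul ((hc.comp_continuousOn hlog).mul hinv)).intervalIntegrable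
      fun x hx => ?_
    have hx0 : 0 < x := by linarith [hx.1]
    change ‖F_Par s g (Real.log x)‖ ≤ 82 / 9 * (‖F_Par s g (Real.log x)‖ * x⁻¹)
    rw [mul_left_comm]
    refine le_mul_of_one_le_right (by positivity) ?_
    rw [← div_eq_mul_inv, one_le_div hx0]
    exact hx.2
  rw [intervalIntegral.integral_const_mul, h1] at h2
  have he : (82 / 9 : ℝ) ≤ Real.exp 3 := by
    have := Real.sum_le_exp_of_nonneg (x := 3) (by norm_num) 4
    simp only [sum_range_succ, Nat.factorial] at this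
    norm_num at this
    linarith
  have hu : Real.log (82 / 9) ≤ Real.pi :=
    ((Real.log_le_iff_le_exp (by norm_num)).2 he).trans Real.pi_gt_three.le
  have hl : -Real.pi ≤ Real.log (1 / 9) := by
    rw [one_div, Real.log_inv, neg_le_neg_iff]
    exact (Real.log_le_log (by norm_num) (by norm_num)).trans hu
  have h3 := intervalIntegral.integral_mono_interval (μ := MeasureTheory.volume) hl
    (Real.log_le_log (by norm_num) hab) hu
    (Filter.Eventually.of_forall fun θ => norm_nonneg (F_Par s g θ)) (hc.intervalIntegrable _ _)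
  have h4 : N1 s g = ∫ θ in (-Real.pi)..Real.pi, ‖F_Par s g θ‖ := by
    simp only [N1, FT, pw, F_Par, Real.log_exp]
  linarith

end Pool.Agent.MP_2a1f0e_nt.GM3

end

section

set_option autoImplicit false

open Finset

namespace Pool.Agent.MP_2a1f0e_nt.GM3

open GM GM2

lemma add_Err3 (N M : ℕ) (s : Finset ℤ) (d h a b : ℤ → ℝ) :
    Q33 N M s d a b = Q33 N M s (fun t => d t - h t) a b + Q33 N M s h a b := by
  unfold Q33
  simp only [← sum_add_distrib]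
  refine sum_congr rfl fun x _ => sum_congr rfl fun y _ => sum_congr rfl fun z _ => ?_
  push_cast
  ring

open MeasureTheory in
lemma two_Err3 (N M : ℕ) {e p q : ℝ → ℝ} (he : Nice e) (hp : Nice p) (hq : Nice q) :
    2 * Tr3 N M e p q ≤ Tr3 N M e (fun v => p v ^ 2) (fun _ => 1) +
      Tr3 N M e (fun _ => 1) (fun v => q v ^ 2) := by
  have i1 := int_Err N M he (sq_Err hp) one_Err
  have i2 := int_Err N M he one_Err (sq_Err hq)
  rw [tr_eq_Err N M he hp hq, tr_eq_Err N M he (sq_Err hp) one_Err,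
    tr_eq_Err N M he one_Err (sq_Err hq), ← integral_add' i1 i2, ← integral_const_mul]
  refine integral_mono ((int_Err N M he hp hq).const_mul 2) (i1.add i2) fun z => ?_
  have h := mul_nonneg (mul_nonneg (he.2.1 z.1) (sq_nonneg (p (z.2 / z.1) - q z.2)))
    (kp3_nonneg N M z.1 z.2)
  simp only [Pi.add_apply]
  linarith

lemma pb_Err3 {N M : ℕ} {Δ A X E₁ H : ℝ} {e p : ℝ → ℝ} (hΔ : 0 ≤ Δ) (hA : 0 ≤ A) (hH : 0 ≤ H)
    (hX : 0 ≤ X) (he : Nice e) (hp : Nice p) (h1 : II e ≤ E₁) (h2 : ∀ v, e v ≤ 2 * A + H)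
    (h3 : II (fun v => p v ^ 2) ≤ 60 * X) (h4 : ∀ v, p v ≤ A) :
    PB N M Δ e (fun v => p v ^ 2) ≤
      60 * ((M : ℝ) ^ 2 * E₁ * X + M * Δ * √(E₁ * (A + H)) * A * √X) / N := by
  have c2 : ∀ {a}, Nice a → ContinuousOn (fun v => a v ^ 2) (Set.Icc (1 / 9 : ℝ) (82 / 9)) :=
    fun h => (h.1.pow 2).mono Icc_sub_Ioi
  have e0 : 0 ≤ II e := II_nonneg he.2.1
  have hE : 0 ≤ E₁ := e0.trans h1
  have p0 : 0 ≤ II fun v => p v ^ 2 := II_nonneg fun _ => sq_nonneg _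
  have d1 : √(II fun v => e v ^ 2) ≤ 2 * √(E₁ * (A + H)) := by
    have := II_mono (g := fun v => (2 * A + H) * e v) (c2 he)
      (continuousOn_const.mul (he.1.mono Icc_sub_Ioi)) fun v _ => by
        rw [sq]; exact mul_le_mul_of_nonneg_right (h2 v) (he.2.1 v)
    rw [II_mul_Err] at this
    refine Real.sqrt_le_iff.2 ⟨by positivity, this.trans ?_⟩
    rw [mul_pow, Real.sq_sqrt (by positivity)]
    nlinarith [mul_le_mul_of_nonneg_left h1 (show 0 ≤ 2 * A + H by positivity),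
      mul_nonneg hE hA, mul_nonneg hE hH]
  have d2 : √(II fun v => (p v ^ 2) ^ 2) ≤ 8 * A * √X := by
    have := II_mono (g := fun v => A ^ 2 * p v ^ 2) (c2 (sq_Err hp))
      (continuousOn_const.mul (c2 hp)) fun v _ => by
        rw [sq (p v ^ 2)]
        exact mul_le_mul_of_nonneg_right (pow_le_pow_left₀ (hp.2.1 v) (h4 v) 2) (sq_nonneg _)
    rw [II_mul_Err] at this
    refine Real.sqrt_le_iff.2 ⟨by positivity, this.trans ?_⟩
    rw [mul_pow, mul_pow, Real.sq_sqrt hX]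
    linarith [mul_le_mul_of_nonneg_left h3 (sq_nonneg A), mul_nonneg (sq_nonneg A) hX]
  calc PB N M Δ e (fun v => p v ^ 2)
      ≤ (M : ℝ) ^ 2 / N * E₁ * (60 * X) + M * Δ / N * (2 * √(E₁ * (A + H))) * (8 * A * √X) := by
        unfold PB; gcongr
    _ = (60 * ((M : ℝ) ^ 2 * E₁ * X) + 16 * (M * Δ * √(E₁ * (A + H)) * A * √X)) / N := by ring
    _ ≤ _ := by
        rw [mul_add 60]
        gcongr
        norm_num

theorem err3_stmt (h3 : Three3Stmt) (hT : Tri2Stmt) (hPar : ParStmt) (hH : HStmt) :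
    Err3Stmt := by
  obtain ⟨C₃, c₃, h3⟩ := h3
  obtain ⟨C₄, c₄, hT⟩ := hT
  obtain ⟨C₅, c₅, hH⟩ := hH
  refine ⟨3 * (60 * C₃ * C₄ + C₅), by positivity,
    fun N M Δ E A X E₁ H s g f h hN hD hE hHE hA hg hf kg kf hE₁ hh => ?_⟩
  have hX : 0 ≤ X := (sum_nonneg fun _ _ => sq_nonneg _).trans hg
  have hΔ : 0 ≤ Δ := zero_le_one.trans hD.1
  have hH0 : 0 ≤ H := (sum_nonneg fun _ _ => abs_nonneg _).trans hh
  have hE0 : 0 ≤ E₁ := (II_nonneg fun _ => norm_nonneg _).trans hE₁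
  have hN0 : (0 : ℝ) < N := by exact_mod_cast hN
  have hD' : DivB (N * M) Δ := DivB_mono hD (Nat.mul_le_mul_right _ (by omega))
  have ne := FT_Err s fun t => g t - f t - h t
  have ke : ∀ v, ‖FT s (fun t => g t - f t - h t) v‖ ≤ 2 * A + H := fun v => by
    rw [FT_sub_Err s (fun t => g t - f t), FT_sub_Err]
    linarith [norm_sub_le (FT s g v - FT s f v) (FT s h v), norm_sub_le (FT s g v) (FT s f v),
      kg v, kf v, norm_FT_le s h v]
  obtain ⟨W, hW⟩ : ∃ W, W = (M : ℝ) ^ 2 * E₁ * X + M * Δ * √(E₁ * (A + H)) * A * √X := ⟨_, rfl⟩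
  obtain ⟨V, hV⟩ : ∃ V, V = (N : ℝ) ^ 2 * M * Δ + E * (N * M) := ⟨_, rfl⟩
  have W0 : 0 ≤ W := by rw [hW]; positivity
  have V0 : 0 ≤ V := by rw [hV]; positivity
  have key : ∀ a b : ℤ → ℝ, ∑ t ∈ s, a t ^ 2 ≤ X → ∑ t ∈ s, b t ^ 2 ≤ X → (∀ v, ‖FT s a v‖ ≤ A) →
      (∀ v, ‖FT s b v‖ ≤ A) → ‖Q33 N M s (fun t => g t - f t) a b‖ ≤
        (60 * C₃ * C₄ + C₅) * ((N : ℝ) ^ 2 * W + V * H * X) := fun a b ha hb ka kb => by
    have pa := pb_Err3 (N := N) (M := M) hΔ hA hH0 hX ne (FT_Err s a) hE₁ ke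
      ((hPar s a).trans (mul_le_mul_of_nonneg_left ha (by norm_num))) ka
    have pb := pb_Err3 (N := N) (M := M) hΔ hA hH0 hX ne (FT_Err s b) hE₁ ke
      ((hPar s b).trans (mul_le_mul_of_nonneg_left hb (by norm_num))) kb
    rw [← hW] at pa pb
    have t1 := (hT N M Δ hN hD' _ _ ne (sq_Err (FT_Err s a))).1.trans
      (mul_le_mul_of_nonneg_left pa c₄.le)
    have t2 := (hT N M Δ hN hD' _ _ ne (sq_Err (FT_Err s b))).2.1.trans
      (mul_le_mul_of_nonneg_left pb c₄.le)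
    have t3 := two_Err3 N M ne (FT_Err s a) (FT_Err s b)
    have t4 := (h3 N M hN s (fun t => g t - f t - h t) a b).trans (mul_le_mul_of_nonneg_left
      (show _ ≤ C₄ * (60 * W / N) by linarith) (by positivity))
    have t5 := hH N M Δ E X s h a b hN hD hE hHE ha hb
    rw [← hV] at t5
    have t6 : C₅ * V * (∑ t ∈ s, |h t|) * X ≤ C₅ * V * H * X := by gcongr
    have t7 : C₃ * (N : ℝ) ^ 3 * (C₄ * (60 * W / N)) = 60 * C₃ * C₄ * ((N : ℝ) ^ 2 * W) := by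
      field_simp
    have t8 : 0 ≤ 60 * C₃ * C₄ * (V * H * X) := by positivity
    have t9 : 0 ≤ C₅ * ((N : ℝ) ^ 2 * W) := by positivity
    rw [add_Err3 N M s _ h]
    refine (norm_add_le _ _).trans ?_
    linarith
  rw [split_Err, ← hW, ← hV]
  refine ((norm_add_le _ _).trans (add_le_add ((norm_add_le _ _).trans (add_le_add
    (key g g hg hg kg kg) (key g f hg hf kg kf))) (key f f hf hf kf kf))).trans (le_of_eq ?_)
  ring

end Pool.Agent.MP_2a1f0e_nt.GM3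

end

section

set_option autoImplicit false

open Finset

namespace Pool.Agent.MP_2a1f0e_nt.GM3

open GM GM2

lemma mom_Far3 (h : MomStmt) : ∃ C : ℝ, 0 < C ∧ ∀ (y Δ : ℝ) (M X k P : ℕ), 1 ≤ y → 1 ≤ M →
    (M : ℝ) ≤ y ^ 30 → 729 * y ^ 180 ≤ X → DivB X Δ → 1 ≤ k → k ≤ 5 →
    ∑ ρ ∈ Icc (-(P : ℤ)) P, ‖KK M ρ‖ ^ (2 * k) ≤
      C * Δ ^ 6 * ((P + 243 * (y ^ (2 * k)) ^ 15) * (243 * (y ^ (2 * k)) ^ 15)) := by
  obtain ⟨C, hC, h⟩ := h
  refine ⟨C, hC, fun y Δ M X k P hy hM hMy hX hD k1 k5 => ?_⟩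
  have hΔ : 0 ≤ Δ := zero_le_one.trans hD.1
  have e1 : ((3 * M : ℕ) : ℝ) ^ k ≤ 243 * (y ^ (2 * k)) ^ 15 := by
    have h3 : (3 : ℝ) ^ k ≤ 3 ^ 5 := pow_le_pow_right₀ (by norm_num) k5
    calc ((3 * M : ℕ) : ℝ) ^ k = 3 ^ k * (M : ℝ) ^ k := by push_cast; rw [mul_pow]
      _ ≤ 3 ^ 5 * (y ^ 30) ^ k := by gcongr
      _ = 243 * (y ^ (2 * k)) ^ 15 := by rw [← pow_mul, ← pow_mul]; ring
  have e2 : (3 * M) ^ k ≤ X := by
    have h3 : (y ^ (2 * k)) ^ 15 ≤ y ^ 180 := by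
      rw [← pow_mul]
      exact pow_le_pow_right₀ hy (by omega)
    have h4 : 0 ≤ y ^ 180 := by positivity
    have h5 : ((3 * M : ℕ) : ℝ) ^ k ≤ X := by linarith
    exact_mod_cast h5
  simp only [KK_eq_Far hM]
  refine (h k (3 * M) P X Δ _ (fun n => (Wt ((n : ℝ) / M) : ℂ)) k1 (by omega) (fun n _ => ?_)
    (fun n hn => ?_) e2 hD).trans (by gcongr)
  · rw [Complex.norm_real, Real.norm_of_nonneg (Wt_nonneg _)]
    exact Wt_le_one _
  · rw [mem_filter, mem_Icc] at hn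
    exact ⟨hn.1.1, hn.1.2, hn.2⟩

lemma piece_Far3 (a b : ℤ → ℝ) (ha : ∀ ρ, 0 ≤ a ρ) (hb : ∀ ρ, 0 ≤ b ρ) (I : Finset ℤ)
    (F : Finset (ℤ × ℤ)) (k : ℕ) (P u v w lam D : ℝ) (hk : 1 ≤ k) (hu : 0 < u) (hv : 0 < v)
    (hw : 0 < w) (hl : 0 < lam) (h0 : v ^ 2 = u * w) (h1 : v ^ 2 * w ≤ lam ^ (2 * k))
    (h2 : u ≤ 2 * P) (h3 : P ≤ 8 * w)
    (hA : ∑ ρ ∈ I, a ρ ^ (2 * k) ≤ D * ((2 * P + 243 * v) * (243 * v)))
    (hB : ∑ ρ ∈ I, b ρ ^ (2 * k) ≤ D * ((2 * P + 243 * v) * (243 * v)))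
    (hF : ∀ p ∈ F, p ∈ I ×ˢ I ∧ lam < a p.1 * b p.2 ∧ P ≤ 1 + |(p.1 : ℝ)| + |(p.2 : ℝ)|) :
    ∑ p ∈ F, (a p.1 * b p.2) ^ 2 / (1 + |(p.1 : ℝ)| + |(p.2 : ℝ)|) ≤
      243 ^ 2 * (64 + 4 * 243 ^ 2) * D ^ 2 * lam ^ 2 := by
  have hP : 0 < P := by linarith
  have hA0 : 0 ≤ ∑ ρ ∈ I, a ρ ^ (2 * k) := sum_nonneg fun ρ _ => pow_nonneg (ha ρ) _
  have hB0 : 0 ≤ ∑ ρ ∈ I, b ρ ^ (2 * k) := sum_nonneg fun ρ _ => pow_nonneg (hb ρ) _
  have h4 : (2 * P + 243 * v) ^ 2 ≤ (64 + 4 * 243 ^ 2) * (w * P) := by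
    have h5 := mul_le_mul_of_nonneg_right h3 hP.le
    have h6 := mul_le_mul_of_nonneg_left h2 hw.le
    nlinarith [sq_nonneg (2 * P - 243 * v)]
  calc _ ≤ ∑ p ∈ F, lam ^ 2 / ((v ^ 2 * w) * P) * (a p.1 ^ (2 * k) * b p.2 ^ (2 * k)) := by
        refine sum_le_sum fun p hp => ?_
        obtain ⟨-, h5, h6⟩ := hF p hp
        rw [← mul_pow]
        generalize a p.1 * b p.2 = t at h5
        have h7 : (t / lam) ^ 2 ≤ (t / lam) ^ (2 * k) :=
          pow_le_pow_right₀ ((one_le_div hl).2 h5.le) (by omega)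
        have ht : 0 < t := hl.trans h5
        calc t ^ 2 / (1 + |(p.1 : ℝ)| + |(p.2 : ℝ)|) ≤ t ^ 2 / P := by gcongr
          _ = lam ^ 2 / P * (t / lam) ^ 2 := by field_simp
          _ ≤ lam ^ 2 / P * (t ^ (2 * k) / lam ^ (2 * k)) := by rw [← div_pow t]; gcongr
          _ ≤ lam ^ 2 / P * (t ^ (2 * k) / (v ^ 2 * w)) := by gcongr
          _ = _ := by field_simp
    _ ≤ ∑ p ∈ I ×ˢ I, lam ^ 2 / ((v ^ 2 * w) * P) * (a p.1 ^ (2 * k) * b p.2 ^ (2 * k)) :=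
        sum_le_sum_of_subset_of_nonneg (fun p hp => (hF p hp).1) fun p _ _ => by
          have := ha p.1
          have := hb p.2
          positivity
    _ = lam ^ 2 / ((v ^ 2 * w) * P) * ((∑ ρ ∈ I, a ρ ^ (2 * k)) * ∑ ρ ∈ I, b ρ ^ (2 * k)) := by
        rw [← mul_sum, sum_mul_sum, sum_product]
    _ ≤ lam ^ 2 / ((v ^ 2 * w) * P) * (D * ((2 * P + 243 * v) * (243 * v)) *
          (D * ((2 * P + 243 * v) * (243 * v)))) :=
        mul_le_mul_of_nonneg_left (mul_le_mul hA hB hB0 (hA0.trans hA)) (by positivity)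
    _ = 243 ^ 2 * D ^ 2 * lam ^ 2 / (w * P) * (2 * P + 243 * v) ^ 2 := by field_simp
    _ ≤ 243 ^ 2 * D ^ 2 * lam ^ 2 / (w * P) * ((64 + 4 * 243 ^ 2) * (w * P)) := by gcongr
    _ = _ := by field_simp

lemma choose_Far3 {y P : ℝ} (hy : 1 ≤ y) (h1 : y ^ 44 ≤ 2 * P) (h2 : P ≤ 8 * y ^ 180) :
    ∃ k : ℕ, 1 ≤ k ∧ k ≤ 5 ∧ (y ^ (2 * k)) ^ 11 ≤ 2 * P ∧ P ≤ 8 * (y ^ (2 * k)) ^ 19 := by
  have h0 : ∀ n, 0 ≤ y ^ n := fun n => by positivity
  have h3 : y ^ 66 ≤ y ^ 76 := pow_le_pow_right₀ hy (by norm_num)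
  have h4 : y ^ 110 ≤ y ^ 114 := pow_le_pow_right₀ hy (by norm_num)
  have h5 : y ^ 180 ≤ y ^ 190 := pow_le_pow_right₀ hy (by norm_num)
  simp only [← pow_mul]
  rcases le_total P (y ^ 76) with a | a
  · exact ⟨2, by norm_num, by norm_num, h1, by norm_num; linarith [h0 76]⟩
  rcases le_total P (y ^ 114) with b | b
  · exact ⟨3, by norm_num, by norm_num, by norm_num; linarith [h0 76],
      by norm_num; linarith [h0 114]⟩
  · exact ⟨5, by norm_num, by norm_num, by norm_num; linarith [h0 114], by norm_num; linarith⟩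

theorem far3_stmt (hM : MomStmt) : Far3Stmt := by
  obtain ⟨C, hC, h⟩ := mom_Far3 hM
  refine ⟨243 ^ 2 * (64 + 4 * 243 ^ 2) * C ^ 2, by positivity,
    fun y lam Δ M₁ M₂ R X hy m1 m2 m3 m4 hR hX hD hl => ?_⟩
  have hn : ∀ u : ℝ, ‖KK M₁ (-u)‖ = ‖KK M₁ u‖ := fun u => by
    rw [← conj_KK, Complex.norm_conj]
  have hy0 : 0 < y := by linarith
  have hl0 : 0 < lam := (pow_pos hy0 49).trans_le hl
  have hc : ∀ p : ℤ × ℤ, ((max p.1.natAbs p.2.natAbs : ℕ) : ℝ) = max |(p.1 : ℝ)| |(p.2 : ℝ)| :=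
    fun p => by rw [Nat.cast_max, Nat.cast_natAbs, Nat.cast_natAbs, Int.cast_abs, Int.cast_abs]
  have hm : ∀ p ∈ Io R ×ˢ Io R, max p.1.natAbs p.2.natAbs ≤ R := fun p hp => by
    rw [mem_product, mem_Io, mem_Io] at hp
    omega
  have hRX : R ≤ X := by
    have : (R : ℝ) ≤ X := by linarith [pow_pos hy0 180]
    exact_mod_cast this
  simp only [hn]
  rw [← sum_product', ← sum_filter, ← sum_fiberwise_of_maps_to (t := range (Nat.log 2 X + 1))
    (g := fun p : ℤ × ℤ => Nat.log 2 (max p.1.natAbs p.2.natAbs)) fun p hp =>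
      mem_range.2 (Nat.lt_succ_of_le (Nat.log_mono_right ((hm p (mem_filter.1 hp).1).trans hRX)))]
  refine (sum_le_card_nsmul _ _ (243 ^ 2 * (64 + 4 * 243 ^ 2) * (C * Δ ^ 6) ^ 2 * lam ^ 2)
    fun j _ => ?_).trans ?_
  swap
  · rw [card_range, nsmul_eq_mul, Nat.cast_succ]
    exact (mul_le_mul_of_nonneg_right (DivB_log hD le_rfl) (by positivity)).trans_eq (by ring)
  set F := ((Io R ×ˢ Io R).filter fun p : ℤ × ℤ => lam < ‖KK M₁ p.1‖ * ‖KK M₂ p.2‖ ∧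
    y ^ 44 ≤ max |(p.1 : ℝ)| |(p.2 : ℝ)|).filter
      fun p : ℤ × ℤ => Nat.log 2 (max p.1.natAbs p.2.natAbs) = j with hF
  have key : ∀ p ∈ F, p ∈ Io R ×ˢ Io R ∧ lam < ‖KK M₁ p.1‖ * ‖KK M₂ p.2‖ ∧
      y ^ 44 ≤ max |(p.1 : ℝ)| |(p.2 : ℝ)| ∧ 2 ^ j ≤ max p.1.natAbs p.2.natAbs ∧
      max p.1.natAbs p.2.natAbs < 2 * 2 ^ j := fun p hp => by
    rw [hF, mem_filter, mem_filter] at hp
    obtain ⟨⟨p1, p2, p3⟩, rfl⟩ := hp
    refine ⟨p1, p2, p3, Nat.pow_log_le_self 2 fun e => ?_, ?_⟩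
    · rw [← hc, e, Nat.cast_zero] at p3
      exact absurd (pow_pos hy0 44) (not_lt.2 p3)
    · rw [← pow_succ']
      exact Nat.lt_pow_succ_log_self (by norm_num) _
  rcases F.eq_empty_or_nonempty with e | ⟨p₀, hp₀⟩
  · rw [e, sum_empty]
    positivity
  obtain ⟨q1, -, q3, q4, q5⟩ := key p₀ hp₀
  obtain ⟨k, k1, k5, k2, k3⟩ := choose_Far3 (P := (2 ^ j : ℕ)) hy
    (by rw [← hc] at q3; exact q3.trans (by exact_mod_cast q5.le))
    (le_trans (by exact_mod_cast q4.trans (hm p₀ q1)) hR)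
  have hA := h y Δ M₁ X k (2 * 2 ^ j) hy m1 m2 hX hD k1 k5
  have hB := h y Δ M₂ X k (2 * 2 ^ j) hy m3 m4 hX hD k1 k5
  rw [Nat.cast_mul (α := ℝ), Nat.cast_ofNat] at hA hB
  refine piece_Far3 (fun ρ => ‖KK M₁ ρ‖) (fun ρ => ‖KK M₂ ρ‖) (fun _ => norm_nonneg _)
    (fun _ => norm_nonneg _) _ F k _ _ _ _ lam _ k1 (by positivity) (by positivity) (by positivity)
    hl0 ?_ ?_ k2 k3 hA hB fun p hp => ?_
  · rw [← pow_mul, ← pow_add]
  · rw [← pow_mul, ← pow_add, ← pow_mul, mul_comm, pow_mul]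
    exact pow_le_pow_left₀ (by positivity) hl _
  · obtain ⟨-, p2, -, p4, p5⟩ := key p hp
    refine ⟨?_, p2, ?_⟩
    · rw [mem_product, mem_Icc, mem_Icc]
      omega
    · have p6 : ((2 ^ j : ℕ) : ℝ) ≤ max |(p.1 : ℝ)| |(p.2 : ℝ)| := by
        rw [← hc]
        exact_mod_cast p4
      have := abs_nonneg (p.1 : ℝ)
      have := abs_nonneg (p.2 : ℝ)
      exact p6.trans (max_le (by linarith) (by linarith))

end Pool.Agent.MP_2a1f0e_nt.GM3

end

section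

set_option autoImplicit false
open Finset
namespace Pool.Agent.MP_2a1f0e_nt.GM3
open GM GM2

lemma FT_exp_Kkt (s : Finset ℤ) (e : ℤ → ℝ) (u : ℝ) : FT s e (Real.exp u) =
    ∑ t ∈ s, (e t : ℂ) * Complex.exp (Complex.I * ((t : ℝ) : ℂ) * (u : ℂ)) := by
  simp only [FT, pw, Real.log_exp]

lemma cont_Kkt (s : Finset ℤ) : Continuous (N1 s) := by
  refine intervalIntegral.continuous_parametric_intervalIntegral_of_continuous'
    (f := fun e u => ‖FT s e (Real.exp u)‖) ?_ _ _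
  simp only [FT_exp_Kkt, Function.uncurry_def]
  fun_prop

lemma congr_Kkt {s : Finset ℤ} {e e' : ℤ → ℝ} (h : ∀ t ∈ s, e t = e' t) : N1 s e = N1 s e' := by
  have : ∀ v, FT s e v = FT s e' v := fun v => sum_congr rfl fun t ht => by rw [h t ht]
  simp only [N1, this]

lemma add_Kkt (s : Finset ℤ) (e d : ℤ → ℝ) {c : ℝ} (hc : 0 ≤ c) :
    N1 s (fun t => e t + c * d t) ≤ N1 s e + c * N1 s d := by
  have i := fun e => (continuous_FT_exp s e).norm.intervalIntegrable (μ := MeasureTheory.volume)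
    (-Real.pi) Real.pi
  rw [N1, N1, N1, ← intervalIntegral.integral_const_mul,
    ← intervalIntegral.integral_add (i e) ((i d).const_mul c)]
  refine intervalIntegral.integral_mono_on (by linarith [Real.pi_pos]) (i _)
    ((i e).add ((i d).const_mul c)) fun u _ => ?_
  have : FT s (fun t => e t + c * d t) (Real.exp u) =
      FT s e (Real.exp u) + c * FT s d (Real.exp u) := by
    simp only [FT, mul_sum, ← sum_add_distrib]
    exact sum_congr rfl fun t _ => by push_cast; ring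
  rw [this]
  refine (norm_add_le _ _).trans_eq ?_
  rw [norm_mul, Complex.norm_real, Real.norm_of_nonneg hc]

lemma coer_Kkt {s : Finset ℤ} (e : ℤ → ℝ) {t : ℤ} (ht : t ∈ s) : |e t| ≤ N1 s e := by
  have h1 : ∫ u in (-Real.pi)..Real.pi, FT s e (Real.exp u) *
      Complex.exp (Complex.I * ((-t : ℤ) : ℂ) * (u : ℂ)) = (e t * (2 * Real.pi) : ℝ) := by
    have h2 : ∀ u : ℝ, FT s e (Real.exp u) * Complex.exp (Complex.I * ((-t : ℤ) : ℂ) * (u : ℂ)) =
        ∑ a ∈ s, (e a : ℂ) * Complex.exp (Complex.I * ((a - t : ℤ) : ℂ) * (u : ℂ)) := fun u => by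
      rw [FT_exp_Kkt, sum_mul]
      refine sum_congr rfl fun a _ => ?_
      rw [mul_assoc, ← Complex.exp_add]
      congr 2
      push_cast
      ring
    simp only [h2]
    rw [intervalIntegral.integral_finsetSum fun a _ =>
      Continuous.intervalIntegrable (by fun_prop) _ _, sum_eq_single_of_mem t ht]
    · rw [intervalIntegral.integral_const_mul, orth_Par, if_pos (sub_self t)]
      push_cast
      rfl
    · intro a _ ha
      rw [intervalIntegral.integral_const_mul, orth_Par, if_neg (sub_ne_zero.2 ha), mul_zero]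
  have h3 := intervalIntegral.norm_integral_le_integral_norm (μ := MeasureTheory.volume)
    (f := fun u : ℝ => FT s e (Real.exp u) * Complex.exp (Complex.I * ((-t : ℤ) : ℂ) * (u : ℂ)))
    (by linarith [Real.pi_pos] : -Real.pi ≤ Real.pi)
  have h4 : ∀ u : ℝ, ‖Complex.exp (Complex.I * ((-t : ℤ) : ℂ) * (u : ℂ))‖ = 1 := fun u => by
    rw [Complex.norm_exp]
    simp
  simp only [h1, norm_mul, h4, mul_one, Complex.norm_real, Real.norm_eq_abs] at h3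
  refine (le_mul_of_one_le_right (abs_nonneg _) ?_).trans h3
  rw [abs_two, abs_of_pos Real.pi_pos]
  linarith [Real.pi_gt_three]

lemma lim_Kkt {a b c : ℝ} (hc : 0 ≤ c) (h : ∀ ε, 0 < ε → 2 * ε * a ≤ ε ^ 2 * c + 2 * ε * b) :
    a ≤ b := by
  refine le_of_forall_pos_le_add fun η hη => ?_
  have h1 : 0 < η / (c + 1) := by positivity
  have h2 := h _ h1
  have h3 : η / (c + 1) * c ≤ η := by
    rw [div_mul_eq_mul_div, div_le_iff₀ (by positivity)]
    nlinarith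
  refine le_of_mul_le_mul_left ?_ h1
  nlinarith

/-- the functional that is minimised -/
noncomputable def F_Kkt (s : Finset ℤ) (g : ℤ → ℝ) (A μ : ℝ) (p : (ℤ → ℝ) × (ℤ → ℝ)) : ℝ :=
  ∑ t ∈ s, (g t - p.1 t - p.2 t) ^ 2 + 2 * A * N1 s p.1 + 2 * μ * ∑ t ∈ s, |p.2 t|

lemma min_Kkt (s : Finset ℤ) (g : ℤ → ℝ) {A μ : ℝ} (hA : 0 < A) (hμ : 0 < μ) :
    ∃ p, F_Kkt s g A μ p ≤ ∑ t ∈ s, g t ^ 2 ∧ ∀ q, F_Kkt s g A μ p ≤ F_Kkt s g A μ q := by
  classical
  have hc : Continuous (F_Kkt s g A μ) := by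
    have := cont_Kkt s
    unfold F_Kkt
    fun_prop
  have h0 : F_Kkt s g A μ 0 = ∑ t ∈ s, g t ^ 2 := by simp [F_Kkt, N1, FT]
  generalize hG : ∑ t ∈ s, g t ^ 2 = G at h0
  have G0 : 0 ≤ G := hG ▸ sum_nonneg fun _ _ => sq_nonneg _
  have R0 : 0 ≤ G / A + G / μ := by positivity
  have hz : (0 : ℤ → ℝ) ∈ Set.Icc (fun _ => -(G / A + G / μ)) fun _ => G / A + G / μ :=
    ⟨fun _ => neg_nonpos.2 R0, fun _ => R0⟩
  obtain ⟨p, -, hp⟩ := (isCompact_Icc.prod isCompact_Icc).exists_isMinOn ⟨0, hz, hz⟩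
    hc.continuousOn
  have h1 : F_Kkt s g A μ p ≤ G := h0 ▸ hp ⟨hz, hz⟩
  refine ⟨p, h1, fun q => ?_⟩
  rcases le_total G (F_Kkt s g A μ q) with h | h
  · exact h1.trans h
  have key : ∀ e : ℤ → ℝ, (∀ t ∈ s, |e t| ≤ G / A + G / μ) → (fun t => if t ∈ s then e t else 0) ∈
      Set.Icc (fun _ => -(G / A + G / μ)) fun _ => G / A + G / μ := fun e he =>
    ⟨fun t => by
      by_cases ht : t ∈ s
      · simpa only [if_pos ht] using (abs_le.1 (he t ht)).1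
      · simpa only [if_neg ht] using neg_nonpos.2 R0, fun t => by
      by_cases ht : t ∈ s
      · simpa only [if_pos ht] using (abs_le.1 (he t ht)).2
      · simpa only [if_neg ht] using R0⟩
  have a1 : 0 ≤ ∑ t ∈ s, (g t - q.1 t - q.2 t) ^ 2 := sum_nonneg fun _ _ => sq_nonneg _
  have a2 := mul_nonneg hA.le (N1_nonneg s q.1)
  have a3 : 0 ≤ μ * ∑ t ∈ s, |q.2 t| := by positivity
  unfold F_Kkt at h
  refine (hp (a := (fun t => if t ∈ s then q.1 t else 0, fun t => if t ∈ s then q.2 t else 0))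
    ⟨key _ fun t ht => ?_, key _ fun t ht => ?_⟩).trans_eq ?_
  · refine le_add_of_le_of_nonneg ((le_div_iff₀' hA).2 ?_) (by positivity)
    linarith [mul_le_mul_of_nonneg_left (coer_Kkt q.1 ht) hA.le]
  · refine le_add_of_nonneg_of_le (by positivity) ((le_div_iff₀' hμ).2 ?_)
    linarith [mul_le_mul_of_nonneg_left
      (single_le_sum (f := fun t => |q.2 t|) (fun _ _ => abs_nonneg _) ht) hμ.le]
  · unfold F_Kkt
    rw [congr_Kkt (e' := q.1) fun t ht => if_pos ht, sum_congr rfl fun t ht => by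
      simp only [if_pos ht]; rfl, sum_congr (f := fun t => |if t ∈ s then q.2 t else 0|) rfl
        fun t ht => by rw [if_pos ht]]

theorem kkt_stmt : KktStmt := by
  classical
  intro s g A μ hA hμ
  obtain ⟨⟨e, h⟩, h1, h2⟩ := min_Kkt s g hA hμ
  have sq : ∀ (d : ℤ → ℝ) (ε : ℝ), ∑ t ∈ s, (g t - e t - h t - ε * d t) ^ 2 =
      ∑ t ∈ s, (g t - e t - h t) ^ 2 - 2 * ε * ∑ t ∈ s, (g t - e t - h t) * d t +
        ε ^ 2 * ∑ t ∈ s, d t ^ 2 := fun d ε => by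
    simp only [mul_sum, ← sum_sub_distrib, ← sum_add_distrib]
    exact sum_congr rfl fun t _ => by ring
  have k1 : ∀ d : ℤ → ℝ, ∑ t ∈ s, (g t - e t - h t) * d t ≤ A * N1 s d := fun d =>
    lim_Kkt (sum_nonneg fun t (_ : t ∈ s) => sq_nonneg (d t)) fun ε hε => by
      have a1 := h2 (fun t => e t + ε * d t, h)
      have a2 := mul_le_mul_of_nonneg_left (add_Kkt s e d hε.le) hA.le
      have a3 := sq d ε
      simp only [F_Kkt, ← sub_sub, sub_right_comm _ (ε * _)] at a1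
      linarith
  have k2 : ∀ d : ℤ → ℝ, ∑ t ∈ s, (g t - e t - h t) * d t ≤ μ * ∑ t ∈ s, |d t| := fun d =>
    lim_Kkt (sum_nonneg fun t (_ : t ∈ s) => sq_nonneg (d t)) fun ε hε => by
      have a1 := h2 (e, fun t => h t + ε * d t)
      have a2 : ∑ t ∈ s, |h t + ε * d t| ≤ ∑ t ∈ s, |h t| + ε * ∑ t ∈ s, |d t| := by
        rw [mul_sum, ← sum_add_distrib]
        exact sum_le_sum fun t _ => (abs_add_le _ _).trans_eq (by rw [abs_mul, abs_of_pos hε])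
      have a3 := sq d ε
      have a4 := mul_le_mul_of_nonneg_left a2 hμ.le
      simp only [F_Kkt, ← sub_sub] at a1
      linarith
  refine ⟨fun t => if t ∈ s then g t - e t - h t else 0, e, fun t => if t ∈ s then h t else 0,
    fun t ht => if_neg ht, fun t ht => if_neg ht, fun t ht => by simp only [if_pos ht]; ring, ?_, fun d => ?_,
    fun t ht => ?_⟩
  · refine le_of_eq_of_le ?_ h1
    exact congrArg₂ _ (congrArg₂ _ (sum_congr rfl fun t ht => by simp only [if_pos ht]) rfl)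
      (congrArg _ (sum_congr rfl fun t ht => by simp only [if_pos ht]))
  · exact (sum_congr rfl fun t ht => by simp only [if_pos ht]).trans_le (k1 d)
  · have := k2 (Pi.single t (g t - e t - h t))
    rw [sum_eq_single_of_mem t ht fun a _ ha => by rw [Pi.single_eq_of_ne ha, mul_zero],
      sum_eq_single_of_mem t ht fun a _ ha => by rw [Pi.single_eq_of_ne ha, abs_zero],
      Pi.single_eq_same, ← abs_mul_abs_self] at this
    simp only [if_pos ht]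
    by_contra hc
    nlinarith [not_le.1 hc]

end Pool.Agent.MP_2a1f0e_nt.GM3

end

section

set_option autoImplicit false
open Finset
namespace Pool.Agent.MP_2a1f0e_nt.GM3
open GM GM2

theorem two_Num3 {W τ n x : ℝ} (hW : 1 ≤ W) (hn : 1 ≤ n) (hτ : 1 ≤ τ) (h : τ ^ 46 ≤ n ^ 28)
    (hx : 0 ≤ x) (hM : x ^ 30 * n ^ 2 ≤ W * τ ^ 4) : n * x ^ 57 ≤ W ^ 2 * τ ^ 3 := by
  refine le_of_pow_le_pow_left₀ (n := 10) (by norm_num) (by positivity)
    (le_of_mul_le_mul_right ?_ (show 0 < n ^ 28 by positivity))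
  calc _ = (x ^ 30 * n ^ 2) ^ 19 := by ring
    _ ≤ (W * τ ^ 4) ^ 19 := by gcongr
    _ = W ^ 19 * τ ^ 30 * τ ^ 46 := by ring
    _ ≤ W ^ 20 * τ ^ 30 * n ^ 28 := by gcongr; norm_num
    _ = _ := by ring

theorem three_Num3 {W τ n x : ℝ} (hW : 1 ≤ W) (hn : 1 ≤ n) (hτ : 1 ≤ τ) (h4 : τ ^ 4 ≤ n ^ 3)
    (hx : 0 ≤ x) (hM : x ^ 30 * n ^ 2 ≤ W * τ ^ 4) : τ ^ 2 * x ^ 3 ≤ W * n ^ 2 := by
  refine le_of_pow_le_pow_left₀ (n := 10) (by norm_num) (by positivity)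
    (le_of_mul_le_mul_right ?_ (show 0 < n ^ 2 by positivity))
  calc _ = x ^ 30 * n ^ 2 * τ ^ 20 := by ring
    _ ≤ W * τ ^ 4 * τ ^ 20 := by gcongr
    _ = W ^ 1 * (τ ^ 4) ^ 6 := by ring
    _ ≤ W ^ 10 * (n ^ 3) ^ 6 := by gcongr; norm_num
    _ = W ^ 10 * n ^ 18 := by ring
    _ ≤ W ^ 10 * n ^ 22 := by gcongr; norm_num
    _ = _ := by ring

theorem core_Num3 {C P W τ n x y M Δ B s : ℝ} (hC : 1 ≤ C) (hP : P ≤ W) (hW : 1 ≤ W) (hn : 0 < n)
    (hτ : 0 < τ) (h1 : τ ≤ n) (h3 : τ ^ 3 ≤ n ^ 2) (h4 : τ ^ 4 ≤ n ^ 3) (hx : 0 ≤ x) (hy : 0 ≤ y)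
    (hM0 : 0 ≤ M) (hM : M * n ^ 2 ≤ W * τ ^ 4) (hΔ0 : 0 ≤ Δ) (hΔ : Δ ≤ W) (hB0 : 0 ≤ B)
    (hB : B ≤ W * n ^ 4) (hs0 : 0 ≤ s) (hs : s * n ^ 2 ≤ 2 * W * τ ^ 2)
    (x1 : n * x ^ 57 ≤ W ^ 2 * τ ^ 3) (x2 : τ ^ 2 * x ^ 3 ≤ W * n ^ 2)
    (h : y ^ 6 ≤ C * (n ^ 10 * (Δ ^ 10 * x ^ 57 * y ^ 3) + n ^ 10 * (M * Δ * B * y ^ 2) +
      n ^ 8 * (M ^ 3 * B * y ^ 2) + n ^ 10 * (M * Δ * B ^ 2 * s * y) +
      n ^ 10 * (M * Δ * B * s * x ^ 3 * y ^ 2) + n ^ 10 * (M ^ 2 * Δ * B ^ 3 * s ^ 2) +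
      P * (τ * n ^ 3) ^ 4 * y ^ 2)) :
    y ≤ 12 * C * W ^ 4 * (τ * n ^ 3) := by
  have hz : 0 < τ * n ^ 3 := by positivity
  have q3 : 1 ≤ W ^ 4 := one_le_pow₀ hW
  have hCW : 1 ≤ 12 * C := by linarith
  by_contra hc
  rw [not_le] at hc
  have hzy : τ * n ^ 3 ≤ y :=
    (le_mul_of_one_le_left hz.le (one_le_mul_of_one_le_of_one_le hCW q3)).trans hc.le
  have hy0 : 0 < y := hz.trans_le hzy
  have t0 : (τ * n ^ 3) ^ 4 * y ^ 2 ≤ (τ * n ^ 3) ^ 3 * y ^ 3 :=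
    calc _ = (τ * n ^ 3) ^ 3 * ((τ * n ^ 3) * y ^ 2) := by ring
      _ ≤ (τ * n ^ 3) ^ 3 * (y * y ^ 2) := by gcongr
      _ = _ := by ring
  have t1 : n ^ 10 * (Δ ^ 10 * x ^ 57 * y ^ 3) ≤ W ^ 12 * ((τ * n ^ 3) ^ 3 * y ^ 3) :=
    calc _ = Δ ^ 10 * (n * x ^ 57) * (n ^ 9 * y ^ 3) := by ring
      _ ≤ W ^ 10 * (W ^ 2 * τ ^ 3) * (n ^ 9 * y ^ 3) := by gcongr
      _ = _ := by ring
  have t2 : n ^ 10 * (M * Δ * B * y ^ 2) ≤ W ^ 12 * ((τ * n ^ 3) ^ 3 * y ^ 3) :=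
    calc _ = n ^ 8 * (M * n ^ 2) * Δ * B * y ^ 2 := by ring
      _ ≤ n ^ 8 * (W * τ ^ 4) * W * (W * n ^ 4) * y ^ 2 := by gcongr
      _ = W ^ 3 * ((τ * n ^ 3) ^ 4 * y ^ 2) := by ring
      _ ≤ _ := by gcongr; norm_num
  have t3 : n ^ 8 * (M ^ 3 * B * y ^ 2) ≤ W ^ 12 * ((τ * n ^ 3) ^ 3 * y ^ 3) :=
    calc _ = n ^ 2 * (M * n ^ 2) ^ 3 * B * y ^ 2 := by ring
      _ ≤ n ^ 2 * (W * τ ^ 4) ^ 3 * (W * n ^ 4) * y ^ 2 := by gcongr
      _ = W ^ 4 * ((τ ^ 4) ^ 2 * (τ ^ 4 * n ^ 6 * y ^ 2)) := by ring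
      _ ≤ W ^ 4 * ((n ^ 3) ^ 2 * (τ ^ 4 * n ^ 6 * y ^ 2)) := by gcongr
      _ = W ^ 4 * ((τ * n ^ 3) ^ 4 * y ^ 2) := by ring
      _ ≤ _ := by gcongr; norm_num
  have t4 : n ^ 10 * (M * Δ * B ^ 2 * s * y) ≤ 2 * W ^ 12 * ((τ * n ^ 3) ^ 3 * y ^ 3) :=
    calc _ = n ^ 6 * (M * n ^ 2) * Δ * B ^ 2 * (s * n ^ 2) * y := by ring
      _ ≤ n ^ 6 * (W * τ ^ 4) * W * (W * n ^ 4) ^ 2 * (2 * W * τ ^ 2) * y := by gcongr
      _ = 2 * W ^ 5 * (τ * (τ ^ 5 * n ^ 14 * y)) := by ring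
      _ ≤ 2 * W ^ 12 * (n * (τ ^ 5 * n ^ 14 * y)) := by gcongr; norm_num
      _ = 2 * W ^ 12 * ((τ * n ^ 3) ^ 3 * ((τ * n ^ 3) ^ 2 * y)) := by ring
      _ ≤ 2 * W ^ 12 * ((τ * n ^ 3) ^ 3 * (y ^ 2 * y)) := by gcongr
      _ = _ := by ring
  have t5 : n ^ 10 * (M * Δ * B * s * x ^ 3 * y ^ 2) ≤ 2 * W ^ 12 * ((τ * n ^ 3) ^ 3 * y ^ 3) :=
    calc _ = n ^ 6 * (M * n ^ 2) * Δ * B * (s * n ^ 2) * x ^ 3 * y ^ 2 := by ring
      _ ≤ n ^ 6 * (W * τ ^ 4) * W * (W * n ^ 4) * (2 * W * τ ^ 2) * x ^ 3 * y ^ 2 := by gcongr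
      _ = 2 * W ^ 4 * ((τ ^ 2 * x ^ 3) * (τ ^ 4 * n ^ 10 * y ^ 2)) := by ring
      _ ≤ 2 * W ^ 4 * ((W * n ^ 2) * (τ ^ 4 * n ^ 10 * y ^ 2)) := by gcongr
      _ = 2 * W ^ 5 * ((τ * n ^ 3) ^ 4 * y ^ 2) := by ring
      _ ≤ _ := by gcongr; norm_num
  have t6 : n ^ 10 * (M ^ 2 * Δ * B ^ 3 * s ^ 2) ≤ 4 * W ^ 12 * ((τ * n ^ 3) ^ 3 * y ^ 3) :=
    calc _ = n ^ 2 * (M * n ^ 2) ^ 2 * Δ * B ^ 3 * (s * n ^ 2) ^ 2 := by ring
      _ ≤ n ^ 2 * (W * τ ^ 4) ^ 2 * W * (W * n ^ 4) ^ 3 * (2 * W * τ ^ 2) ^ 2 := by gcongr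
      _ = 4 * W ^ 8 * ((τ ^ 3) ^ 2 * (τ ^ 6 * n ^ 14)) := by ring
      _ ≤ 4 * W ^ 12 * ((n ^ 2) ^ 2 * (τ ^ 6 * n ^ 14)) := by gcongr; norm_num
      _ = 4 * W ^ 12 * ((τ * n ^ 3) ^ 3 * (τ * n ^ 3) ^ 3) := by ring
      _ ≤ _ := by gcongr
  have t7 : P * (τ * n ^ 3) ^ 4 * y ^ 2 ≤ W ^ 12 * ((τ * n ^ 3) ^ 3 * y ^ 3) := by
    rw [mul_assoc]
    gcongr
    exact hP.trans (le_self_pow₀ hW (by norm_num))
  have t8 : y ^ 3 * y ^ 3 ≤ (12 * C * W ^ 4 * (τ * n ^ 3)) ^ 3 * y ^ 3 :=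
    calc _ = y ^ 6 := by ring
      _ ≤ _ := h
      _ ≤ C * (12 * W ^ 12 * ((τ * n ^ 3) ^ 3 * y ^ 3)) :=
        mul_le_mul_of_nonneg_left (by linarith) (by linarith)
      _ = (12 * C) ^ 1 * (W ^ 12 * ((τ * n ^ 3) ^ 3 * y ^ 3)) := by ring
      _ ≤ (12 * C) ^ 3 * (W ^ 12 * ((τ * n ^ 3) ^ 3 * y ^ 3)) := by gcongr; norm_num
      _ = _ := by ring
  exact absurd (le_of_pow_le_pow_left₀ (by norm_num) (by positivity)
    (le_of_mul_le_mul_right t8 (by positivity))) (not_le.2 hc)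

theorem num3_stmt : Num3Stmt := by
  intro δ C hδ hC
  refine ⟨144 * C ^ 10, by positivity,
    fun N T M Δ B X x hN hT h5 hx exM hM hΔ1 hΔ hB0 hB hX h => ?_⟩
  have hN1 : (1 : ℝ) ≤ N := by exact_mod_cast hN
  have hT1 : (1 : ℝ) ≤ T := by exact_mod_cast hN.trans hT
  have h5' : (T : ℝ) ^ 23 ≤ (N : ℝ) ^ 28 := by exact_mod_cast h5
  have hP : 1 ≤ (N : ℝ) ^ δ := Real.one_le_rpow hN1 hδ.le
  have e6 : (N : ℝ) ^ (8 * δ) = ((N : ℝ) ^ δ) ^ 8 := by
    rw [mul_comm, Real.rpow_mul (by linarith)]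
    exact_mod_cast Real.rpow_natCast _ 8
  rw [e6]
  have hM0 : (0 : ℝ) ≤ M := Nat.cast_nonneg M
  unfold W3 R2 at h
  generalize (N : ℝ) ^ δ = P at *
  generalize (M : ℝ) = M at *
  obtain ⟨n, hn, en⟩ : ∃ n : ℝ, 1 ≤ n ∧ (N : ℝ) = n ^ 2 :=
    ⟨√N, Real.one_le_sqrt.2 hN1, (Real.sq_sqrt (by linarith)).symm⟩
  obtain ⟨τ, hτ, eT⟩ : ∃ τ : ℝ, 1 ≤ τ ∧ (T : ℝ) = (τ ^ 2) ^ 2 :=
    ⟨√(√T), Real.one_le_sqrt.2 (Real.one_le_sqrt.2 hT1), by
      rw [Real.sq_sqrt (Real.sqrt_nonneg _), Real.sq_sqrt (by linarith)]⟩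
  obtain ⟨y, hy, rfl⟩ : ∃ y : ℝ, 0 ≤ y ∧ X = y ^ 2 :=
    ⟨√X, Real.sqrt_nonneg _, (Real.sq_sqrt hX).symm⟩
  rw [en, eT] at h hM h5' ⊢
  rw [en] at hB
  rw [Real.sqrt_sq hy] at h
  rw [Real.sqrt_sq (by positivity)]
  have hW : 1 ≤ C * P := one_le_mul_of_one_le_of_one_le hC hP
  have hPW : P ≤ C * P := le_mul_of_one_le_left (by linarith) hC
  have hn0 : 0 < n := by linarith
  have hτ0 : 0 < τ := by linarith
  have hx0 : 0 ≤ x := by linarith
  have h6 : τ ^ 46 ≤ n ^ 28 :=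
    le_of_pow_le_pow_left₀ (n := 2) (by norm_num) (by positivity) (by
      rw [← pow_mul, ← pow_mul, ← pow_mul] at h5'
      rwa [← pow_mul, ← pow_mul])
  have h3 : τ ^ 3 ≤ n ^ 2 :=
    le_of_pow_le_pow_left₀ (n := 46) (by norm_num) (by positivity) (by
      calc _ = (τ ^ 46) ^ 3 := by rw [← pow_mul, ← pow_mul]
        _ ≤ (n ^ 28) ^ 3 := by gcongr
        _ ≤ _ := by
          rw [← pow_mul, ← pow_mul]
          exact pow_le_pow_right₀ hn (by norm_num))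
  have h1 : τ ≤ n := le_of_pow_le_pow_left₀ (n := 2) (by norm_num) hn0.le
    ((pow_le_pow_right₀ hτ (by norm_num)).trans h3)
  have h4 : τ ^ 4 ≤ n ^ 3 := by
    rw [pow_succ τ 3, pow_succ n 2]
    gcongr
  have hM' : M * n ^ 2 ≤ C * P * τ ^ 4 := by
    rw [← mul_div_assoc, le_div_iff₀ (by positivity)] at hM
    exact hM.trans_eq (by ring)
  have hMx : x ^ 30 * n ^ 2 ≤ C * P * τ ^ 4 := exM ▸ hM'
  have hfin : 144 * C ^ 10 * P ^ 8 * (τ ^ 2 * (n ^ 2) ^ 3) =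
      (12 * C * (C * P) ^ 4 * (τ * n ^ 3)) ^ 2 := by ring
  rw [hfin]
  have hs := sq_Num2 hW hn0 hτ0 h1 hM0 hM' (by linarith) hΔ
  have hR : 0 ≤ M ^ 2 / (n ^ 2) ^ 2 + M * Δ / n ^ 2 := by positivity
  have hs2 := Real.sq_sqrt hR
  have hs0 := Real.sqrt_nonneg (M ^ 2 / (n ^ 2) ^ 2 + M * Δ / n ^ 2)
  generalize √(M ^ 2 / (n ^ 2) ^ 2 + M * Δ / n ^ 2) = s at h hs hs2 hs0
  rw [← hs2] at h
  refine pow_le_pow_left₀ hy (core_Num3 hC hPW hW hn0 hτ0 h1 h3 h4 hx0 hy hM0 hM' (by linarith)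
    hΔ hB0 (hB.trans_eq (by ring)) hs0 hs (two_Num3 hW hn hτ h6 hx0 hMx)
    (three_Num3 hW hn hτ h4 hx0 hMx) ?_) 2
  calc _ = (y ^ 2) ^ 3 := by ring
    _ ≤ _ := h
    _ = _ := by field_simp; ring

end Pool.Agent.MP_2a1f0e_nt.GM3

end

section

set_option autoImplicit false

open Finset

namespace Pool.Agent.MP_2a1f0e_nt.GM3

open GM GM2

theorem ksup_stmt (h2 : TwoStmt) (hR : RhoStmt) : KsupStmt := by
  obtain ⟨C, hC, h2⟩ := h2
  obtain ⟨C', hC', hR⟩ := hR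
  refine ⟨C * C', by positivity, fun N M hN u => ?_⟩
  have hN0 : (0 : ℝ) < N := by exact_mod_cast hN
  have h3 := h2 N M hN {u} fun _ => 1
  have h4 : (fun v => ‖FT {u} (fun _ => 1) v‖ * rho N M v) = rho N M := funext fun v => by
    rw [FT, sum_singleton, Complex.ofReal_one, one_mul, norm_pw, one_mul]
  have h5 : DivB (N * M) (((N * M : ℕ) : ℝ) + 1) := ⟨by
    have := Nat.cast_nonneg (α := ℝ) (N * M)
    linarith, fun n hn => by
      have h6 : (n.divisors.card : ℝ) ≤ ((N * M : ℕ) : ℝ) := by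
        exact_mod_cast (Nat.card_divisors_le_self n).trans hn
      linarith⟩
  rw [sum_singleton, one_mul, h4] at h3
  refine h3.trans ((mul_le_mul_of_nonneg_left (hR N M _ hN h5).1 (by positivity)).trans_eq ?_)
  field_simp

lemma pt_Osc {M r z : ℝ} {m : ℤ} (hM : 1 ≤ M) (hz : 1 ≤ z) (hr0 : 0 ≤ r) (hr : r ≤ z ^ 20)
    (hm0 : m ≠ 0) (hm : z ^ 22 ≤ |(m : ℝ)| * M) : M * (r / |(m : ℝ) * M|) ^ 22 ≤ 2 * kp (m : ℝ) := by
  have hM0 : 0 < M := by linarith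
  have z0 : 0 < z := by linarith
  have h1 : (1 : ℝ) ≤ |(m : ℝ)| := by exact_mod_cast Int.one_le_abs hm0
  rw [abs_mul, abs_of_pos hM0, kp, ← sq_abs (m : ℝ)]
  generalize |(m : ℝ)| = a at h1 hm
  have ha : 0 < a * M := by positivity
  have h2 : r / (a * M) * (a * M) ≤ z ^ 20 := by rwa [div_mul_cancel₀ _ ha.ne']
  have h3 : r / (a * M) * z ^ 2 ≤ 1 := by
    rw [div_mul_eq_mul_div, div_le_one ha]
    calc r * z ^ 2 ≤ z ^ 20 * z ^ 2 := by gcongr
      _ = z ^ 22 := by ring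
      _ ≤ _ := hm
  have h0 : 0 ≤ r / (a * M) := by positivity
  generalize r / (a * M) = x at h0 h2 h3
  have h4 : (x * z ^ 2) ^ 20 ≤ 1 := pow_le_one₀ (by positivity) h3
  have h5 : (x * (a * M)) ^ 2 ≤ (z ^ 20) ^ 2 := pow_le_pow_left₀ (by positivity) h2 2
  have h6 : x ^ 22 * (a * M) ^ 2 * z ^ 40 ≤ 1 * z ^ 40 :=
    calc x ^ 22 * (a * M) ^ 2 * z ^ 40 = (x * z ^ 2) ^ 20 * (x * (a * M)) ^ 2 := by ring
      _ ≤ 1 * (z ^ 20) ^ 2 := mul_le_mul h4 h5 (by positivity) zero_le_one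
      _ = 1 * z ^ 40 := by ring
  have h7 : x ^ 22 * (a * M) ^ 2 ≤ 1 := le_of_mul_le_mul_right h6 (by positivity)
  have h8 : 0 ≤ x ^ 22 := by positivity
  rw [mul_one_div, le_div_iff₀ (by positivity)]
  generalize x ^ 22 = y at h7 h8
  have h9 : 1 ≤ a ^ 2 := one_le_pow₀ h1
  calc M * y * (1 + a ^ 2) ≤ M * M * y * (2 * a ^ 2) := by
        refine mul_le_mul (mul_le_mul_of_nonneg_right ?_ h8) (by linarith) (by positivity)
          (by positivity)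
        exact le_mul_of_one_le_right hM0.le hM
    _ = 2 * (y * (a * M) ^ 2) := by ring
    _ ≤ 2 := by linarith

theorem osc_stmt (hD : DecayStmt) (hZ : ZeroStmt) (hP : PoisStmt) (hK : KsupStmt) : OscStmt := by
  obtain ⟨C, hC, hd⟩ := hD 22
  obtain ⟨C0, hC0, hz⟩ := hZ
  obtain ⟨CK, hCK, hK⟩ := hK
  refine ⟨C0 + 12 * C + CK + 1, by linarith, fun M hM u z hz1 hu => ?_⟩
  have hM1 : (1 : ℝ) ≤ M := by exact_mod_cast hM
  have hM0 : (0 : ℝ) < M := by linarith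
  have hk : 0 ≤ M * kp (u : ℝ) := mul_nonneg hM0.le (kp_pos _).le
  have hn : ∀ ξ : ℝ, ‖(M : ℂ) * pw (M : ℝ) u * HH u ξ‖ = M * ‖HH u ξ‖ := fun ξ => by
    rw [norm_mul, norm_mul, norm_pw, mul_one, Complex.norm_natCast]
  have z11 : 1 ≤ z ^ 11 := one_le_pow₀ hz1
  have hq : 0 ≤ z ^ 22 / M := by positivity
  have key := tail_KOne (hP M hM u) (Ms ⌊z ^ 22 / M⌋₊) (A := C0 * (M * kp (u : ℝ))) (B := C * 2)
    (by positivity) (by positivity)
    (by
      rw [hn, Int.cast_zero, zero_mul, mul_left_comm]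
      exact mul_le_mul_of_nonneg_left (hz _) hM0.le)
    fun m hm0 hm => by
      have h1 : ((⌊z ^ 22 / M⌋₊ : ℕ) : ℝ) + 1 ≤ |(m : ℝ)| := by
        have h1 : ((⌊z ^ 22 / M⌋₊ : ℕ) : ℤ) + 1 ≤ |m| := by
          rw [mem_Ms] at hm
          rw [le_abs]
          omega
        exact_mod_cast h1
      have h2 : z ^ 22 ≤ |(m : ℝ)| * M :=
        (div_le_iff₀ hM0).1 ((Nat.lt_floor_add_one _).le.trans h1)
      rw [hn]
      refine (mul_le_mul_of_nonneg_left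
        (hd _ _ (mul_ne_zero (Int.cast_ne_zero.2 hm0) hM0.ne')) hM0.le).trans ?_
      rw [mul_left_comm, mul_assoc C]
      exact mul_le_mul_of_nonneg_left (pt_Osc hM1 hz1 (by positivity) hu hm0 h2) hC.le
  rw [← mul_sum] at key
  have h3 : ‖Kb M ⌊z ^ 22 / M⌋₊ (u : ℝ)‖ ≤ (CK + 1) * z ^ 11 := by
    refine (pow_le_pow_iff_left₀ (norm_nonneg _) (by positivity) two_ne_zero).1
      ((hK M _ hM u).trans ?_)
    have h6 : (M : ℝ) * (⌊z ^ 22 / M⌋₊ : ℕ) ≤ z ^ 22 := by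
      rw [mul_comm]
      exact (le_div_iff₀ hM0).1 (Nat.floor_le hq)
    calc CK * ((M : ℝ) * (⌊z ^ 22 / M⌋₊ : ℕ)) ≤ (CK + 1) ^ 2 * z ^ 22 :=
          mul_le_mul (by nlinarith) h6 (by positivity) (by positivity)
      _ = _ := by ring
  have h4 := norm_le_insert' (KK M (u : ℝ)) (Kb M ⌊z ^ 22 / M⌋₊ (u : ℝ))
  have h5 : ‖KK M (u : ℝ) - Kb M ⌊z ^ 22 / M⌋₊ (u : ℝ)‖ ≤ C0 * (M * kp (u : ℝ)) + 6 * (C * 2) := key
  nlinarith [mul_nonneg hC.le hk, mul_nonneg hCK.le hk, mul_le_mul_of_nonneg_left z11 hC.le,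
    mul_le_mul_of_nonneg_left z11 hC0.le]

end Pool.Agent.MP_2a1f0e_nt.GM3

end

section

set_option autoImplicit false

namespace Pool.Agent.MP_2a1f0e_nt.GM3

open GM GM2

theorem ksup_all : KsupStmt := ksup_stmt (two_stmt rad_stmt phMaj_stmt) rho_all

theorem kk_all3 : KKStmt := kk_stmt decay_stmt zero_stmt (pois_stmt decay_stmt)

theorem osc_all : OscStmt := osc_stmt decay_stmt zero_stmt (pois_stmt decay_stmt) ksup_all

theorem h_all : HStmt := h_stmt (hOne_stmt fou_stmt bes_stmt div_stmt par_stmt) ksup_all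

theorem bb3_all : BB3Stmt :=
  bb3_stmt bil_stmt (gl2_stmt cv_stmt) (gam_stmt vdc_all) kk_all3 (near3_stmt osc_all kk_all3)
    (mid3_stmt mom_stmt) (far3_stmt mom_stmt)

theorem blk3_all : Blk3Stmt :=
  blk3_stmt (red_stmt key2_stmt (rexp_stmt fou_stmt) psi_stmt) shear_stmt
    (seg3_stmt (core_stmt cv_stmt) exp_stmt bb3_all (gy_stmt p4_stmt) mom_stmt)

theorem q4_all : Q4Stmt :=
  q4_stmt dec_stmt
    (err_stmt (three3_stmt rad_stmt) (tri2_stmt phMaj_stmt pair_all) rho_all par_stmt)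
    (dec3_stmt kkt_stmt dir_stmt nOne_stmt)
    (err3_stmt (three3_stmt rad_stmt) (tri2_stmt phMaj_stmt pair_all) par_stmt h_all)
    part_stmt blk3_all

theorem b4_all : B4Stmt := b4_stmt setup_all hux_stmt cub_stmt q4_all pt_all num3_stmt b1_all

theorem int3_all : Int3Stmt := int3_stmt b4_all b2_all blk_stmt

theorem final3_all : Final3Stmt := final3_stmt int3_all tay_stmt

end Pool.Agent.MP_2a1f0e_nt.GM3

end
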