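import Pool.Agent.Mg.C853.G8af4af
import Pool.Agent.Mg.C853.G9b677c

set_option autoImplicit false

open Finset

namespace Pool.Agent.MP_2a1f0e_nt.GM4

open GM GM2 GM3

lemma sub_TVb {e : ℝ} (he : Sg e) (S : Finset ℕ) : ∃ s : Finset ℤ,
    (∀ F : ℝ → ℝ, ∑ n ∈ S, F (e * n) = ∑ a ∈ s, F a) ∧ ∀ M, Dy M S → s ⊆ Ms (2 * M) := by
  rcases he with rfl | rfl
  · refine ⟨S.image fun n : ℕ => (n : ℤ), fun F => ?_, fun M hM a ha => ?_⟩
    · rw [sum_image fun a _ b _ h => by exact_mod_cast h]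
      simp
    · obtain ⟨n, hn, rfl⟩ := mem_image.1 ha
      have h1 := mem_Ico.1 (hM.2 hn)
      have h2 := hM.1
      rw [mem_Ms]
      omega
  · refine ⟨S.image fun n : ℕ => -(n : ℤ), fun F => ?_, fun M hM a ha => ?_⟩
    · rw [sum_image fun a _ b _ h => by
        have h' : -(a : ℤ) = -(b : ℤ) := h
        omega]
      simp
    · obtain ⟨n, hn, rfl⟩ := mem_image.1 ha
      have h1 := mem_Ico.1 (hM.2 hn)
      have h2 := hM.1
      rw [mem_Ms]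
      omega

lemma pt_TVb {C : ℝ} (hC : 0 < C) {N : ℕ} (h : ∀ (y : ℝ) (s : Finset ℤ),
    ∑ a ∈ s, kp ((N : ℝ) * (y + a)) ≤ C * Ph N y) {M₂ M₃ : ℕ} (S₁ : Finset ℕ) {S₂ S₃ : Finset ℕ}
    {e₁ e₂ e₃ : ℝ} (d2 : Dy M₂ S₂) (d3 : Dy M₃ S₃) (s1 : Sg e₁) (s2 : Sg e₂) (s3 : Sg e₃) {v : ℝ}
    (hv : 1 / 12 ≤ v) (w : ℝ) :
    ∑ n₁ ∈ S₁, ∑ n₂ ∈ S₂, ∑ n₃ ∈ S₃, kp ((N : ℝ) * (e₁ * n₁ * v + e₂ * n₂ * w + e₃ * n₃)) ≤
      144 * C * ∑ m ∈ Ms (2 * M₃), ∑ m' ∈ Ms (2 * M₂),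
        Ph N ((m : ℝ) * v⁻¹ + (m' : ℝ) * (w / v)) := by
  have hv0 : 0 < v := by positivity
  obtain ⟨t1, a1, -⟩ := sub_TVb s1 S₁
  obtain ⟨t2, a2, b2⟩ := sub_TVb s2 S₂
  obtain ⟨t3, a3, b3⟩ := sub_TVb s3 S₃
  have key : ∀ p q : ℝ, ∑ n₁ ∈ S₁, kp ((N : ℝ) * (e₁ * n₁ * v + p * w + q)) ≤
      144 * C * Ph N (q * v⁻¹ + p * (w / v)) := fun p q => by
    rw [a1 fun x => kp ((N : ℝ) * (x * v + p * w + q)), mul_assoc]
    refine le_trans ?_ (mul_le_mul_of_nonneg_left (h _ t1) (by norm_num))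
    rw [mul_sum]
    refine sum_le_sum fun a _ => ?_
    have e : (N : ℝ) * ((a : ℝ) * v + p * w + q) =
        v * ((N : ℝ) * (q * v⁻¹ + p * (w / v) + (a : ℝ))) := by
      field_simp
      ring
    rw [e]
    refine (kp_mul_le (A := 12) (by norm_num) (by rw [abs_of_pos hv0]; linarith) _).trans_eq ?_
    norm_num
  rw [sum_comm, sum_congr rfl fun _ _ => sum_comm, sum_comm]
  calc _ ≤ ∑ n₃ ∈ S₃, ∑ n₂ ∈ S₂, 144 * C * Ph N (e₃ * n₃ * v⁻¹ + e₂ * n₂ * (w / v)) :=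
        sum_le_sum fun _ _ => sum_le_sum fun _ _ => key _ _
    _ = 144 * C * ∑ m ∈ t3, ∑ m' ∈ t2, Ph N ((m : ℝ) * v⁻¹ + (m' : ℝ) * (w / v)) := by
        rw [← a3 fun x => ∑ m' ∈ t2, Ph N (x * v⁻¹ + (m' : ℝ) * (w / v)), mul_sum]
        refine sum_congr rfl fun n _ => ?_
        rw [← a2 fun x => Ph N (e₃ * n * v⁻¹ + x * (w / v)), mul_sum]
    _ ≤ _ := by
        refine mul_le_mul_of_nonneg_left ?_ (by positivity)
        refine (sum_le_sum fun m _ => sum_le_sum_of_subset_of_nonneg (b2 _ d2)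
          fun _ _ _ => Ph_nonneg _ _).trans ?_
        exact sum_le_sum_of_subset_of_nonneg (b3 _ d3) fun _ _ _ =>
          sum_nonneg fun _ _ => Ph_nonneg _ _

lemma le_IW_TVb {f : ℝ → ℝ} {a b : ℝ} (ha : 1 / 144 ≤ a) (hab : a ≤ b) (hb : b ≤ 144)
    (hf : ∀ x, 0 ≤ f x) (hc : Continuous f) : ∫ x in a..b, f x ≤ IW f :=
  intervalIntegral.integral_mono_interval ha hab (by linarith) (MeasureTheory.ae_of_all _ hf)
    (hc.intervalIntegrable _ _)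

lemma IW_congr_TVb {f g : ℝ → ℝ} (h : ∀ x, 1 / 144 ≤ x → f x = g x) : IW f = IW g :=
  intervalIntegral.integral_congr fun x hx => h x (by
    rw [Set.uIcc_of_le (by norm_num)] at hx
    exact hx.1)

lemma IW_nonneg_TVb {f : ℝ → ℝ} (hf : ∀ v, 0 ≤ f v) : 0 ≤ IW f :=
  intervalIntegral.integral_nonneg (by norm_num) fun v _ => hf v

lemma inv_cont_TVb {K : ℝ → ℝ} (hK : Continuous K) :
    ContinuousOn (fun v : ℝ => K v⁻¹ * (v ^ 2)⁻¹) (Set.Icc (1 / 12) 12) := by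
  have h : ∀ x ∈ Set.Icc (1 / 12 : ℝ) 12, x ≠ 0 := fun x hx => by
    have := hx.1
    positivity
  exact (hK.comp_continuousOn (continuousOn_id.inv₀ h)).mul
    ((continuousOn_id.pow 2).inv₀ fun x hx => pow_ne_zero 2 (h x hx))

lemma inv_int_TVb {K : ℝ → ℝ} (hK : Continuous K) :
    ∫ v in (1 / 12 : ℝ)..12, K v⁻¹ * (v ^ 2)⁻¹ = ∫ v in (1 / 12 : ℝ)..12, K v := by
  have h : ∀ x ∈ Set.uIcc (1 / 12 : ℝ) 12, x ≠ 0 := fun x hx => by
    rw [Set.uIcc_of_le (by norm_num)] at hx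
    have := hx.1
    positivity
  have h1 := intervalIntegral.integral_comp_mul_deriv (f := fun x : ℝ => x⁻¹)
    (f' := fun x : ℝ => -(x ^ 2)⁻¹) (fun x hx => hasDerivAt_inv (h x hx))
    (((continuousOn_id.pow 2).inv₀ fun x hx => pow_ne_zero 2 (h x hx)).neg) hK
  simp only [Function.comp_apply, mul_neg, intervalIntegral.integral_neg] at h1
  rw [show ((1 / 12 : ℝ))⁻¹ = 12 by norm_num, show ((12 : ℝ))⁻¹ = 1 / 12 by norm_num,
    intervalIntegral.integral_symm (1 / 12) 12] at h1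
  exact neg_injective h1

lemma int_le_TVb {f H : ℝ → ℝ} {b v : ℝ} (hf : ∀ x, 0 ≤ f x) (c2 : Continuous H)
    (n2 : ∀ x, 0 ≤ H x) (hb : 0 ≤ b) (hv : v ∈ Set.Icc (1 / 12 : ℝ) 12)
    (h : ∀ w ∈ Set.Icc (1 / 12 : ℝ) 12, f w ≤ b * H (w / v)) :
    ∫ w in (1 / 12 : ℝ)..12, f w ≤ 12 * b * IW H := by
  obtain ⟨hv1, hv2⟩ := hv
  have hv0 : 0 < v := by positivity
  have c4 : Continuous fun w => b * H (w / v) := by fun_prop
  refine (mono_Sym (by norm_num) hf c4.continuousOn h).trans ?_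
  rw [intervalIntegral.integral_const_mul, intervalIntegral.integral_comp_div H hv0.ne',
    smul_eq_mul]
  have d2 := le_IW_TVb (a := 1 / 12 / v) (b := 12 / v) (by rw [le_div_iff₀ hv0]; linarith)
    (div_le_div_of_nonneg_right (by norm_num) hv0.le) (by rw [div_le_iff₀ hv0]; linarith) n2 c2
  have d4 := (mul_le_mul_of_nonneg_left d2 hv0.le).trans
    (mul_le_mul_of_nonneg_right hv2 (IW_nonneg_TVb n2))
  have d6 := mul_le_mul_of_nonneg_left d4 hb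
  linarith

lemma main_TVb {C : ℝ} {k R : ℝ → ℝ → ℝ} {g h : ℝ → ℝ} (hC : 0 < C)
    (hR : Continuous fun p : ℝ × ℝ => R p.1 p.2) (R0 : ∀ v w, 0 ≤ R v w)
    (k0 : ∀ v w, 0 ≤ k v w) (h2 : ∀ v, 1 / 12 ≤ v → ∀ w, k v w ≤ C * R v⁻¹ (w / v))
    (hg : Per g) (hh : Per h) :
    ∫ v in (1 / 12 : ℝ)..12, ∫ w in (1 / 12 : ℝ)..12, g (w / v) * h v * 1 * k v w ≤
      1728 * C * IW fun v => IW fun w => h v⁻¹ * g w * R v w := by
  have ex : ∀ f : ℝ → ℝ, Per f → ∃ ψ : ℝ → ℝ, Continuous ψ ∧ (∀ x, 0 ≤ ψ x) ∧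
      ∀ x, 1 / 144 ≤ x → f x = ψ x := fun f hf =>
    ⟨fun x => f (max x (1 / 144)), hf.1.comp_continuous (continuous_id.max continuous_const)
      fun x => lt_max_of_lt_right (show (0 : ℝ) < 1 / 144 by norm_num), fun x => hf.2.1 _,
      fun x hx => congrArg f (max_eq_left hx).symm⟩
  obtain ⟨ψ, hψ, hψ0, he⟩ := ex _ hh.inv
  obtain ⟨χ, hχ, hχ0, hf⟩ := ex _ hg
  obtain ⟨K, hK⟩ : ∃ K : ℝ → ℝ, ∀ y, K y = ψ y * IW fun x => χ x * R y x := ⟨_, fun _ => rfl⟩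
  have c0 : Continuous fun p : ℝ × ℝ => χ p.2 * R p.1 p.2 := (hχ.comp continuous_snd).fun_mul hR
  have c1 : ∀ y : ℝ, Continuous fun x => χ x * R y x := fun y =>
    hχ.fun_mul (hR.comp (Continuous.prodMk_right y))
  have n1 : ∀ y x : ℝ, 0 ≤ χ x * R y x := fun y x => mul_nonneg (hχ0 _) (R0 _ _)
  have hKc : Continuous K := funext hK ▸ hψ.fun_mul
    (intervalIntegral.continuous_parametric_intervalIntegral_of_continuous'
      (f := fun y x => χ x * R y x) c0 _ _)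
  have hK0 : ∀ y, 0 ≤ K y := fun y => hK y ▸ mul_nonneg (hψ0 y) (IW_nonneg_TVb (n1 y))
  have hP : (IW fun v => IW fun w => h v⁻¹ * g w * R v w) = IW K := by
    refine IW_congr_TVb fun v hv => ?_
    rw [hK]
    refine (IW_congr_TVb fun w hw => ?_).trans (intervalIntegral.integral_const_mul _ _)
    rw [he v hv, hf w hw, mul_assoc]
  have h4 := mul_le_mul_of_nonneg_left
    (le_IW_TVb (a := 1 / 12) (b := 12) (by norm_num) (by norm_num) (by norm_num) hK0 hKc) hC.le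
  rw [hP]
  have c2 : ContinuousOn (fun v => 1728 * C * (K v⁻¹ * (v ^ 2)⁻¹)) (Set.Icc (1 / 12 : ℝ) 12) :=
    continuousOn_const.fun_mul (inv_cont_TVb hKc)
  have n2 : ∀ v w, 0 ≤ g (w / v) * h v * 1 * k v w := fun v w =>
    mul_nonneg (mul_nonneg (mul_nonneg (hg.2.1 _) (hh.2.1 _)) zero_le_one) (k0 _ _)
  refine (mono_Sym (by norm_num) (fun v => intervalIntegral.integral_nonneg (by norm_num)
    fun w _ => n2 v w) c2 fun v hv => ?_).trans ?_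
  · have hv0 : 0 < v := lt_of_lt_of_le (by norm_num) hv.1
    refine (int_le_TVb (b := h v * C) (n2 v) (c1 v⁻¹) (n1 v⁻¹)
      (mul_nonneg (hh.2.1 v) hC.le) hv fun w hw => ?_).trans ?_
    · have b1 : 1 / 144 ≤ w / v := by
        rw [le_div_iff₀ hv0]
        linarith [hw.1, hv.2]
      have b2 := mul_le_mul_of_nonneg_left (h2 v hv.1 w)
        (mul_nonneg (hg.2.1 (w / v)) (hh.2.1 v))
      rw [← hf _ b1]
      linarith
    · obtain ⟨hv1, hv2⟩ := hv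
      have e2 : h v = ψ v⁻¹ := by
        rw [← he, inv_inv]
        rw [le_inv_comm₀ (by norm_num) hv0]
        linarith
      have e3 : 1 ≤ 144 * (v ^ 2)⁻¹ := by
        rw [← div_eq_mul_inv, le_div_iff₀ (by positivity)]
        nlinarith
      have e4 := mul_le_mul_of_nonneg_left e3 (mul_nonneg hC.le (hK0 v⁻¹))
      have e6 : C * K v⁻¹ = C * (h v * IW fun x => χ x * R v⁻¹ x) := by rw [hK, e2]
      linarith
  · rw [intervalIntegral.integral_const_mul, inv_int_TVb hKc]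
    linarith

lemma sq_TVb {x y c : ℝ} (hc : 0 ≤ c) (h : x ≤ c * y) : √x ≤ √c * √y := by
  rw [← Real.sqrt_mul hc]
  exact Real.sqrt_le_sqrt h

theorem tvb_stmt (hM : PhMajStmt) (hP : PairWStmt) (hI : IWStmt) : TVbStmt := by
  obtain ⟨C, hC, hM⟩ := hM
  obtain ⟨C', hC', hP⟩ := hP
  obtain ⟨c, hc, hI⟩ := hI
  refine ⟨1728 * (144 * C) * (C' * (4 * c ^ 2 + 2 * c)), by positivity,
    fun N M₂ M₃ S₁ S₂ S₃ e₁ e₂ e₃ Δ g h hN d2 d3 s1 s2 s3 D2 D3 hg hh => ?_⟩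
  have s : Set.Icc (1 / 144 : ℝ) (1 / 144 + 144) ⊆ Set.Ioi 0 := fun x hx =>
    lt_of_lt_of_le (show (0 : ℝ) < 1 / 144 by norm_num) hx.1
  have hR : Continuous fun p : ℝ × ℝ => ∑ m ∈ Ms (2 * M₃), ∑ m' ∈ Ms (2 * M₂),
      Ph N ((m : ℝ) * p.1 + (m' : ℝ) * p.2) :=
    continuous_finsetSum _ fun m _ => continuous_finsetSum _ fun m' _ =>
      (continuous_Ph N).comp (by fun_prop)
  have h1 := main_TVb (C := 144 * C) (k := fun v w => ∑ n₁ ∈ S₁, ∑ n₂ ∈ S₂, ∑ n₃ ∈ S₃,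
      kp ((N : ℝ) * (e₁ * n₁ * v + e₂ * n₂ * w + e₃ * n₃)))
    (R := fun v w => ∑ m ∈ Ms (2 * M₃), ∑ m' ∈ Ms (2 * M₂), Ph N ((m : ℝ) * v + (m' : ℝ) * w))
    (by positivity) hR (fun _ _ => sum_nonneg fun _ _ => sum_nonneg fun _ _ => Ph_nonneg _ _)
    (fun _ _ => sum_nonneg fun _ _ => sum_nonneg fun _ _ => sum_nonneg fun _ _ => (kp_pos _).le)
    (fun v hv w => pt_TVb hC (hM N hN) S₁ d2 d3 s1 s2 s3 hv w) hg hh
  have h2 := hP N (2 * M₃) (2 * M₂) Δ hN D3 D2 (fun v => h v⁻¹) g (hh.inv.1.mono s) (hg.1.mono s)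
    hh.inv.2.1 hg.2.1
  refine h1.trans ?_
  rw [mul_assoc _ (C' * _)]
  refine mul_le_mul_of_nonneg_left (h2.trans ?_) (by positivity)
  rw [mul_assoc C']
  refine mul_le_mul_of_nonneg_left ?_ hC'.le
  have a1 := (hI h hh).2
  have a2 := (hI g hg).1
  have a3 := sq_TVb hc.le (hI _ (hh.pow 2)).2
  have a4 := sq_TVb hc.le (hI _ (hg.pow 2)).1
  have m1 := hg.mo_nonneg
  have m2 := hh.mo_nonneg
  have i2 := IW_nonneg_TVb hg.2.1
  have hΔ : 0 ≤ Δ := zero_le_one.trans D2.1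
  have e1 : √(((2 * M₃ : ℕ) : ℝ) * ((2 * M₂ : ℕ) : ℝ)) = 2 * √((M₂ : ℝ) * M₃) := by
    rw [show ((2 * M₃ : ℕ) : ℝ) * ((2 * M₂ : ℕ) : ℝ) = 2 ^ 2 * ((M₂ : ℝ) * M₃) by push_cast; ring,
      Real.sqrt_mul (by norm_num), Real.sqrt_sq (by norm_num)]
  have e2 : √c * √c = c := Real.mul_self_sqrt hc.le
  rw [e1]
  unfold PB4
  calc _ ≤ ((2 * M₃ : ℕ) : ℝ) * ((2 * M₂ : ℕ) : ℝ) / N * (c * mo h) * (c * mo g) +
        2 * √((M₂ : ℝ) * M₃) * Δ / N * (√c * √(mo fun v => h v ^ 2)) *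
          (√c * √(mo fun v => g v ^ 2)) := by gcongr
    _ = 4 * c ^ 2 * ((M₂ : ℝ) * M₃ * mo g * mo h / N) + 2 * (√c * √c) *
          (√((M₂ : ℝ) * M₃) * Δ * √(mo fun v => g v ^ 2) * √(mo fun v => h v ^ 2) / N) := by
        push_cast
        ring
    _ ≤ _ := by
        rw [e2, add_div]
        have p1 : 0 ≤ (M₂ : ℝ) * M₃ * mo g * mo h / N := by positivity
        have p2 : 0 ≤ √((M₂ : ℝ) * M₃) * Δ * √(mo fun v => g v ^ 2) *
          √(mo fun v => h v ^ 2) / N := by positivity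
        have p3 := mul_nonneg hc.le p1
        have p4 := mul_nonneg (sq_nonneg c) p2
        linarith

end Pool.Agent.MP_2a1f0e_nt.GM4
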