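import Pool.Agent.Mg.C853.G8af4af

set_option autoImplicit false

open Finset

namespace Pool.Agent.MP_2a1f0e_nt.GM4

open GM GM2 GM3

lemma pt_Shp {x y₁ y₂ A B θ : ℝ} (hx : 0 ≤ x) (h1 : 0 ≤ y₁) (h2 : 0 ≤ y₂) (hA : 0 ≤ A)
    (hB : 0 ≤ B) (hθ : 0 < θ) :
    max (x - A) 0 * y₁ * y₂ ≤
      θ / 2 * (max (x - A) 0 * min y₁ (2 * B) ^ 2 * 1) +
      1 / (2 * θ) * (max (x - A) 0 * 1 * min y₂ (2 * B) ^ 2) +
      1 / 2 * (x ^ 2 * max (y₁ - 2 * B) 0 * 1) + 1 / 2 * (1 * max (y₁ - 2 * B) 0 * y₂ ^ 2) +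
      1 / 2 * (x ^ 2 * 1 * max (y₂ - 2 * B) 0) + 1 / 2 * (1 * y₁ ^ 2 * max (y₂ - 2 * B) 0) := by
  set ε := max (x - A) 0 with hε
  set p₁ := min y₁ (2 * B) with hp₁
  set p₂ := min y₂ (2 * B) with hp₂
  set q₁ := max (y₁ - 2 * B) 0 with hq₁
  set q₂ := max (y₂ - 2 * B) 0 with hq₂
  have e0 : 0 ≤ ε := le_max_right _ _
  have ex : ε ≤ x := max_le (by linarith) hx
  have d1 : y₁ = p₁ + q₁ := by
    rcases le_total y₁ (2 * B) with h | h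
    · rw [hp₁, hq₁, min_eq_left h, max_eq_right (by linarith)]; ring
    · rw [hp₁, hq₁, min_eq_right h, max_eq_left (by linarith)]; ring
  have d2 : y₂ = p₂ + q₂ := by
    rcases le_total y₂ (2 * B) with h | h
    · rw [hp₂, hq₂, min_eq_left h, max_eq_right (by linarith)]; ring
    · rw [hp₂, hq₂, min_eq_right h, max_eq_left (by linarith)]; ring
  have p10 : 0 ≤ p₁ := le_min h1 (by linarith)
  have p1y : p₁ ≤ y₁ := min_le_left _ _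
  have q10 : 0 ≤ q₁ := le_max_right _ _
  have q20 : 0 ≤ q₂ := le_max_right _ _
  have a1 : p₁ * p₂ ≤ θ / 2 * p₁ ^ 2 + 1 / (2 * θ) * p₂ ^ 2 := by
    have : θ / 2 * p₁ ^ 2 + 1 / (2 * θ) * p₂ ^ 2 - p₁ * p₂ = (θ * p₁ - p₂) ^ 2 / (2 * θ) := by
      field_simp
      ring
    have h' : 0 ≤ (θ * p₁ - p₂) ^ 2 / (2 * θ) := by positivity
    linarith
  have a2 : ε * y₂ ≤ (x ^ 2 + y₂ ^ 2) / 2 := by
    have : ε * y₂ ≤ x * y₂ := mul_le_mul_of_nonneg_right ex h2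
    nlinarith [sq_nonneg (x - y₂)]
  have a3 : ε * p₁ ≤ (x ^ 2 + y₁ ^ 2) / 2 := by
    have : ε * p₁ ≤ x * y₁ := mul_le_mul ex p1y p10 hx
    nlinarith [sq_nonneg (x - y₁)]
  have b1 := mul_le_mul_of_nonneg_left a1 e0
  have b2 := mul_le_mul_of_nonneg_left a2 q10
  have b3 := mul_le_mul_of_nonneg_left a3 q20
  have e : ε * y₁ * y₂ = ε * (p₁ * p₂) + q₁ * (ε * y₂) + q₂ * (ε * p₁) := by
    calc ε * y₁ * y₂ = ε * (p₁ + q₁) * y₂ := by rw [← d1]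
      _ = ε * p₁ * y₂ + q₁ * (ε * y₂) := by ring
      _ = ε * p₁ * (p₂ + q₂) + q₁ * (ε * y₂) := by rw [← d2]
      _ = _ := by ring
  rw [e]
  linarith

lemma six_Shp {N M₁ M₂ M₃ : ℕ} {e₁ e₂ e₃ : ℝ} (h1 : 1 ≤ M₁) (h2 : 1 ≤ M₂) (h3 : 1 ≤ M₃)
    {F F₁ F₂ F₃ F₄ F₅ F₆ : ℝ → ℝ → ℝ} (k₁ k₂ k₃ k₄ k₅ k₆ : ℝ) (q : CQ F) (q₁ : CQ F₁) (q₂ : CQ F₂)
    (q₃ : CQ F₃) (q₄ : CQ F₄) (q₅ : CQ F₅) (q₆ : CQ F₆)
    (h : ∀ z w, F z w ≤ k₁ * F₁ z w + k₂ * F₂ z w + k₃ * F₃ z w + k₄ * F₄ z w + k₅ * F₅ z w +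
      k₆ * F₆ z w) :
    BX N M₁ M₂ M₃ e₁ e₂ e₃ F ≤ k₁ * BX N M₁ M₂ M₃ e₁ e₂ e₃ F₁ + k₂ * BX N M₁ M₂ M₃ e₁ e₂ e₃ F₂ +
      k₃ * BX N M₁ M₂ M₃ e₁ e₂ e₃ F₃ + k₄ * BX N M₁ M₂ M₃ e₁ e₂ e₃ F₄ +
      k₅ * BX N M₁ M₂ M₃ e₁ e₂ e₃ F₅ + k₆ * BX N M₁ M₂ M₃ e₁ e₂ e₃ F₆ := by
  have c1 := (cq_const k₁).mul q₁
  have c2 := (cq_const k₂).mul q₂
  have c3 := (cq_const k₃).mul q₃
  have c4 := (cq_const k₄).mul q₄
  have c5 := (cq_const k₅).mul q₅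
  have c6 := (cq_const k₆).mul q₆
  refine (BX_mono h1 h2 h3 q (((((c1.add c2).add c3).add c4).add c5).add c6)
    fun z w _ _ => h z w).trans_eq ?_
  rw [BX_add h1 h2 h3 ((((c1.add c2).add c3).add c4).add c5) c6,
    BX_add h1 h2 h3 (((c1.add c2).add c3).add c4) c5, BX_add h1 h2 h3 ((c1.add c2).add c3) c4,
    BX_add h1 h2 h3 (c1.add c2) c3, BX_add h1 h2 h3 c1 c2, BX_const_mul k₁, BX_const_mul k₂,
    BX_const_mul k₃, BX_const_mul k₄, BX_const_mul k₅, BX_const_mul k₆]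

lemma tb_Shp {N M₁ M₂ M₃ : ℕ} {S₁ S₂ S₃ : Finset ℕ} {e₁ e₂ e₃ : ℝ}
    (hk : Bk M₁ M₂ M₃ S₁ S₂ S₃ e₁ e₂ e₃) {φ ε p q r o : ℝ → ℝ} (hφ : Per φ) (pe : Per ε)
    (pp : Per p) (pq : Per q) (p2 : Per r) (po : Per o) (k₁ k₂ k₃ : ℝ)
    (h : ∀ a b c, ε a * φ b * φ c ≤ k₁ * (ε a * p b * o c) + k₂ * (ε a * o b * p c) +
      k₃ * (r a * q b * o c) + k₃ * (o a * q b * r c) + k₃ * (r a * o b * q c) +
      k₃ * (o a * r b * q c)) :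
    TB N M₁ M₂ M₃ S₁ S₂ S₃ e₁ e₂ e₃ ε φ φ ≤
      k₁ * TB N M₁ M₂ M₃ S₁ S₂ S₃ e₁ e₂ e₃ ε p o + k₂ * TB N M₁ M₂ M₃ S₁ S₂ S₃ e₁ e₂ e₃ ε o p +
      k₃ * TB N M₁ M₂ M₃ S₁ S₂ S₃ e₁ e₂ e₃ r q o + k₃ * TB N M₁ M₂ M₃ S₁ S₂ S₃ e₁ e₂ e₃ o q r +
      k₃ * TB N M₁ M₂ M₃ S₁ S₂ S₃ e₁ e₂ e₃ r o q + k₃ * TB N M₁ M₂ M₃ S₁ S₂ S₃ e₁ e₂ e₃ o r q := by
  obtain ⟨h1, h2, h3⟩ := hk.one
  have d1 := hk.1
  have d2 := hk.2.1
  have d3 := hk.2.2.1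
  refine six_Shp h1 h2 h3 _ _ _ _ _ _ (cq_TB d1 d2 d3 pe hφ hφ) (cq_TB d1 d2 d3 pe pp po)
    (cq_TB d1 d2 d3 pe po pp) (cq_TB d1 d2 d3 p2 pq po) (cq_TB d1 d2 d3 po pq p2)
    (cq_TB d1 d2 d3 p2 po pq) (cq_TB d1 d2 d3 po p2 pq) fun z w => ?_
  simp only [mul_sum]
  simp only [← sum_add_distrib]
  exact sum_le_sum fun n₁ _ => sum_le_sum fun n₂ _ => sum_le_sum fun n₃ _ => h _ _ _

lemma split_Shp {N M₁ M₂ M₃ : ℕ} {S₁ S₂ S₃ : Finset ℕ} {e₁ e₂ e₃ : ℝ}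
    (hk : Bk M₁ M₂ M₃ S₁ S₂ S₃ e₁ e₂ e₃) {φ : ℝ → ℝ} (hφ : Per φ) {A B θ : ℝ} (hA : 0 ≤ A)
    (hB : 0 ≤ B) (hθ : 0 < θ) :
    TB N M₁ M₂ M₃ S₁ S₂ S₃ e₁ e₂ e₃ (fun v => max (φ v - A) 0) φ φ ≤
      θ / 2 * TB N M₁ M₂ M₃ S₁ S₂ S₃ e₁ e₂ e₃ (fun v => max (φ v - A) 0)
        (fun v => min (φ v) (2 * B) ^ 2) (fun _ => 1) +
      1 / (2 * θ) * TB N M₁ M₂ M₃ S₁ S₂ S₃ e₁ e₂ e₃ (fun v => max (φ v - A) 0)
        (fun _ => 1) (fun v => min (φ v) (2 * B) ^ 2) +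
      1 / 2 * TB N M₁ M₂ M₃ S₁ S₂ S₃ e₁ e₂ e₃ (fun v => φ v ^ 2)
        (fun v => max (φ v - 2 * B) 0) (fun _ => 1) +
      1 / 2 * TB N M₁ M₂ M₃ S₁ S₂ S₃ e₁ e₂ e₃ (fun _ => 1)
        (fun v => max (φ v - 2 * B) 0) (fun v => φ v ^ 2) +
      1 / 2 * TB N M₁ M₂ M₃ S₁ S₂ S₃ e₁ e₂ e₃ (fun v => φ v ^ 2)
        (fun _ => 1) (fun v => max (φ v - 2 * B) 0) +
      1 / 2 * TB N M₁ M₂ M₃ S₁ S₂ S₃ e₁ e₂ e₃ (fun _ => 1)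
        (fun v => φ v ^ 2) (fun v => max (φ v - 2 * B) 0) :=
  tb_Shp hk hφ (hφ.max A) ((hφ.min (A := 2 * B) (by linarith)).pow 2) (hφ.max (2 * B))
    (hφ.pow 2) per_one _ _ _ fun a b c => pt_Shp (hφ.2.1 a) (hφ.2.1 b) (hφ.2.1 c) hA hB hθ

lemma main_Shp {φ : ℝ → ℝ} (hφ : Per φ) {P Q : ℕ} {θ s m t Δ B X : ℝ} (hs : 0 < s)
    (ht : 1 ≤ t) (hm : 0 ≤ m) (hΔ : 1 ≤ Δ) (hB : 0 ≤ B) (hX : 0 < X)
    (hmo : mo (fun v => φ v ^ 2) ≤ 2 * Real.pi * X)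
    (h1 : θ * ((P : ℝ) * Q) ≤ s * m ^ 2) (h2 : θ * √((P : ℝ) * Q) ≤ m) :
    θ * PB4 P Q Δ (fun v => max (φ v - s * (t * √X)) 0) (fun v => min (φ v) (2 * B) ^ 2) ≤
      40 * Δ ^ 3 * (m ^ 2 / t * (X * √X) + m * B * X) := by
  have hsx : 0 < √X := Real.sqrt_pos.2 hX
  have hA : 0 < s * (t * √X) := by positivity
  have pe := hφ.max (s * (t * √X))
  have pm := hφ.min (A := 2 * B) (by linarith)
  have pp := pm.pow 2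
  have p2 := hφ.pow 2
  have hpi : Real.pi ≤ 3.15 := Real.pi_lt_d2.le
  have pi0 := Real.pi_pos
  have a1 : mo (fun v => max (φ v - s * (t * √X)) 0) ≤ 2 * Real.pi * X / (s * (t * √X)) := by
    have : mo (fun v => max (φ v - s * (t * √X)) 0) ≤
        mo (fun v => (s * (t * √X))⁻¹ * φ v ^ 2) := by
      refine mo_mono pe ((per_const (by positivity)).mul p2) fun v _ => ?_
      refine max_le ?_ (by positivity)
      rw [inv_mul_eq_div, le_div_iff₀ hA]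
      nlinarith [sq_nonneg (φ v - s * (t * √X)), hφ.2.1 v, mul_nonneg (hφ.2.1 v) hA.le]
    rw [mo_const_mul, inv_mul_eq_div] at this
    exact this.trans (by gcongr)
  have a2 : mo (fun v => min (φ v) (2 * B) ^ 2) ≤ 2 * Real.pi * X :=
    (mo_mono pp p2 fun v _ => pow_le_pow_left₀ (pm.2.1 v) (min_le_left _ _) 2).trans hmo
  have a3 : mo (fun v => max (φ v - s * (t * √X)) 0 ^ 2) ≤ 2 * Real.pi * X :=
    (mo_mono (pe.pow 2) p2 fun v _ => pow_le_pow_left₀ (pe.2.1 v)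
      (max_le (by linarith) (hφ.2.1 v)) 2).trans hmo
  have a4 : mo (fun v => (min (φ v) (2 * B) ^ 2) ^ 2) ≤ (2 * B) ^ 2 * (2 * Real.pi * X) := by
    have : mo (fun v => (min (φ v) (2 * B) ^ 2) ^ 2) ≤ mo (fun v => (2 * B) ^ 2 * φ v ^ 2) := by
      refine mo_mono (pp.pow 2) ((per_const (by positivity)).mul p2) fun v _ => ?_
      rw [sq (min (φ v) (2 * B) ^ 2)]
      exact mul_le_mul (pow_le_pow_left₀ (pm.2.1 v) (min_le_right _ _) 2)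
        (pow_le_pow_left₀ (pm.2.1 v) (min_le_left _ _) 2) (by positivity) (by positivity)
    rw [mo_const_mul] at this
    exact this.trans (by gcongr)
  have b3 := Real.sqrt_le_sqrt a3
  have b4 := Real.sqrt_le_sqrt a4
  rw [Real.sqrt_mul (by positivity), Real.sqrt_sq (by positivity)] at b4
  have n1 := pe.mo_nonneg
  have n2 := pp.mo_nonneg
  have sq1 : √(2 * Real.pi * X) * √(2 * Real.pi * X) = 2 * Real.pi * X :=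
    Real.mul_self_sqrt (by positivity)
  have sq2 : √X * √X = X := Real.mul_self_sqrt hX.le
  have D3 : Δ ≤ Δ ^ 3 := le_self_pow₀ hΔ (by norm_num)
  have D1 : 1 ≤ Δ ^ 3 := hΔ.trans D3
  have t1 : θ * ((P : ℝ) * Q * mo (fun v => max (φ v - s * (t * √X)) 0) *
      mo (fun v => min (φ v) (2 * B) ^ 2)) ≤ 40 * Δ ^ 3 * (m ^ 2 / t * (X * √X)) := by
    calc _ = θ * ((P : ℝ) * Q) * mo (fun v => max (φ v - s * (t * √X)) 0) *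
          mo (fun v => min (φ v) (2 * B) ^ 2) := by ring
      _ ≤ s * m ^ 2 * (2 * Real.pi * X / (s * (t * √X))) * (2 * Real.pi * X) := by gcongr
      _ = 4 * Real.pi ^ 2 * (m ^ 2 / t * (X * √X)) := by
          have : X * √X = X * X / √X := by
            rw [eq_div_iff hsx.ne', mul_assoc, sq2]
          rw [this]
          field_simp
          ring
      _ ≤ 40 * Δ ^ 3 * (m ^ 2 / t * (X * √X)) := by
          have : 4 * Real.pi ^ 2 ≤ 40 * Δ ^ 3 := by nlinarith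
          gcongr
  have t2 : θ * (√((P : ℝ) * Q) * Δ * √(mo fun v => max (φ v - s * (t * √X)) 0 ^ 2) *
      √(mo fun v => (min (φ v) (2 * B) ^ 2) ^ 2)) ≤ 40 * Δ ^ 3 * (m * B * X) := by
    calc _ = θ * √((P : ℝ) * Q) * Δ * √(mo fun v => max (φ v - s * (t * √X)) 0 ^ 2) *
          √(mo fun v => (min (φ v) (2 * B) ^ 2) ^ 2) := by ring
      _ ≤ m * Δ ^ 3 * √(2 * Real.pi * X) * (2 * B * √(2 * Real.pi * X)) := by gcongr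
      _ = 2 * (√(2 * Real.pi * X) * √(2 * Real.pi * X)) * (Δ ^ 3 * (m * B)) := by ring
      _ = 4 * Real.pi * (Δ ^ 3 * (m * B * X)) := by rw [sq1]; ring
      _ ≤ 40 * (Δ ^ 3 * (m * B * X)) := by
          have : 4 * Real.pi ≤ 40 := by linarith
          gcongr
      _ = _ := by ring
  unfold PB4
  rw [mul_add, mul_add]
  exact add_le_add t1 t2

lemma peak_Shp {φ : ℝ → ℝ} (hφ : Per φ) {P Q : ℕ} {m Δ B X : ℝ} (hm : 1 ≤ m) (hΔ : 1 ≤ Δ)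
    (hB : 0 ≤ B) (hX : 0 < X) (hmo : mo (fun v => φ v ^ 2) ≤ 2 * Real.pi * X)
    (h1 : m * mo (fun v => max (φ v - 2 * B) 0) ≤ Δ * B)
    (h2 : m * mo (fun v => max (φ v ^ 2 - 4 * B ^ 2) 0) ≤ Δ * X) (h3 : ∀ v, φ v ≤ Δ * m * B)
    (hP : (P : ℝ) ≤ m) (hQ : (Q : ℝ) ≤ m) :
    PB4 P Q Δ (fun v => φ v ^ 2) (fun v => max (φ v - 2 * B) 0) ≤ 40 * Δ ^ 3 * (m * B * X) := by
  have pq := hφ.max (2 * B)
  have p2 := hφ.pow 2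
  have hpi : Real.pi ≤ 3.15 := Real.pi_lt_d2.le
  have pi0 := Real.pi_pos
  have m0 : 0 < m := by linarith
  have D3 : Δ ≤ Δ ^ 3 := le_self_pow₀ hΔ (by norm_num)
  have D1 : 1 ≤ Δ ^ 3 := hΔ.trans D3
  have a1 : mo (fun v => max (φ v - 2 * B) 0 ^ 2) ≤ Δ * X / m := by
    rw [le_div_iff₀ m0, mul_comm]
    refine le_trans (mul_le_mul_of_nonneg_left (mo_mono (pq.pow 2) (p2.max (4 * B ^ 2))
      fun v _ => ?_) m0.le) h2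
    rcases le_total (φ v) (2 * B) with h | h
    · rw [max_eq_right (by linarith : φ v - 2 * B ≤ 0)]
      simp
    · rw [max_eq_left (by linarith : 0 ≤ φ v - 2 * B)]
      refine le_trans ?_ (le_max_left _ _)
      nlinarith
  have a2 : mo (fun v => (φ v ^ 2) ^ 2) ≤ 60 * Δ ^ 3 * m * B ^ 2 * X := by
    have c1 : Per fun v => 8 * B ^ 2 * φ v ^ 2 := (per_const (by positivity)).mul p2
    have c2 : Per fun v => 2 * (Δ * m * B) ^ 2 * max (φ v - 2 * B) 0 ^ 2 :=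
      (per_const (by positivity)).mul (pq.pow 2)
    have : mo (fun v => (φ v ^ 2) ^ 2) ≤ mo (fun v => 8 * B ^ 2 * φ v ^ 2 +
        2 * (Δ * m * B) ^ 2 * max (φ v - 2 * B) 0 ^ 2) := by
      refine mo_mono (p2.pow 2) (c1.add c2) fun v _ => ?_
      have f0 := hφ.2.1 v
      have f1 : φ v ^ 2 ≤ (Δ * m * B) ^ 2 := pow_le_pow_left₀ f0 (h3 v) 2
      have f2 : φ v ^ 2 ≤ 8 * B ^ 2 + 2 * max (φ v - 2 * B) 0 ^ 2 := by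
        rcases le_total (φ v) (2 * B) with h | h
        · nlinarith [sq_nonneg (max (φ v - 2 * B) 0)]
        · rw [max_eq_left (by linarith : 0 ≤ φ v - 2 * B)]
          nlinarith [sq_nonneg (φ v - 4 * B)]
      have f3 := mul_le_mul_of_nonneg_left f2 (sq_nonneg (φ v))
      have f4 := mul_le_mul_of_nonneg_right f1 (sq_nonneg (max (φ v - 2 * B) 0))
      nlinarith
    rw [mo_add c1 c2, mo_const_mul, mo_const_mul] at this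
    have g1 : 8 * B ^ 2 * mo (fun v => φ v ^ 2) ≤ 8 * B ^ 2 * (2 * Real.pi * X) := by gcongr
    have g2 : 2 * (Δ * m * B) ^ 2 * mo (fun v => max (φ v - 2 * B) 0 ^ 2) ≤
        2 * (Δ * m * B) ^ 2 * (Δ * X / m) := by gcongr
    have g3 : 2 * (Δ * m * B) ^ 2 * (Δ * X / m) = 2 * (Δ ^ 3 * m * (B ^ 2 * X)) := by
      field_simp
    have g4 : B ^ 2 * X ≤ Δ ^ 3 * m * (B ^ 2 * X) :=
      le_mul_of_one_le_left (by positivity) (one_le_mul_of_one_le_of_one_le D1 hm)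
    have g5 : 8 * B ^ 2 * (2 * Real.pi * X) ≤ 51 * (B ^ 2 * X) := by
      have : 0 ≤ B ^ 2 * X := by positivity
      nlinarith
    have g6 : 0 ≤ Δ ^ 3 * m * (B ^ 2 * X) := by positivity
    nlinarith
  have n1 := pq.mo_nonneg
  have n2 := p2.mo_nonneg
  have n3 := (pq.pow 2).mo_nonneg
  have n4 := (p2.pow 2).mo_nonneg
  have s1 : √((P : ℝ) * Q) ≤ m := by
    rw [Real.sqrt_le_left m0.le, sq]
    gcongr
  have s2 : √(mo fun v => (φ v ^ 2) ^ 2) * √(mo fun v => max (φ v - 2 * B) 0 ^ 2) ≤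
      8 * Δ ^ 2 * B * X := by
    rw [← Real.sqrt_mul n4, Real.sqrt_le_left (by positivity)]
    calc _ ≤ 60 * Δ ^ 3 * m * B ^ 2 * X * (Δ * X / m) := by gcongr
      _ = 60 * (Δ ^ 2 * B * X) ^ 2 := by field_simp
      _ ≤ 64 * (Δ ^ 2 * B * X) ^ 2 := by gcongr; norm_num
      _ = _ := by ring
  have t1 : (P : ℝ) * Q * mo (fun v => φ v ^ 2) * mo (fun v => max (φ v - 2 * B) 0) ≤
      7 * (Δ ^ 3 * (m * B * X)) := by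
    calc _ ≤ m * m * (2 * Real.pi * X) * mo (fun v => max (φ v - 2 * B) 0) := by gcongr
      _ = 2 * Real.pi * (m * X) * (m * mo (fun v => max (φ v - 2 * B) 0)) := by ring
      _ ≤ 7 * (m * X) * (Δ ^ 3 * B) := by
          have : 2 * Real.pi ≤ 7 := by linarith
          have h1' := h1.trans (mul_le_mul_of_nonneg_right D3 hB)
          gcongr
      _ = _ := by ring
  have t2 : √((P : ℝ) * Q) * Δ * √(mo fun v => (φ v ^ 2) ^ 2) *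
      √(mo fun v => max (φ v - 2 * B) 0 ^ 2) ≤ 8 * (Δ ^ 3 * (m * B * X)) := by
    calc _ = √((P : ℝ) * Q) * Δ * (√(mo fun v => (φ v ^ 2) ^ 2) *
          √(mo fun v => max (φ v - 2 * B) 0 ^ 2)) := by ring
      _ ≤ m * Δ * (8 * Δ ^ 2 * B * X) := by gcongr
      _ = _ := by ring
  have : 0 ≤ Δ ^ 3 * (m * B * X) := by positivity
  unfold PB4
  linarith

lemma comm_Shp (P Q : ℕ) (Δ : ℝ) (g h : ℝ → ℝ) : PB4 P Q Δ g h = PB4 P Q Δ h g := by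
  unfold PB4
  ring

theorem shp_stmt (hB : BPStmt) (hM : MoStmt) : ShpStmt := by
  obtain ⟨C, C0, hC⟩ := hB
  refine ⟨120 * C, by positivity, ?_⟩
  intro N L M₁ M₂ M₃ S₁ S₂ S₃ e₁ e₂ e₃ m t Δ B X ν hk hm3 hD hdiv
  obtain ⟨a1, -, a3, a4, a5, a6, a7, a8, a9, a10, a11, -, -⟩ := hD
  obtain ⟨hφ, hmo⟩ := hM L ν
  obtain ⟨h1, h2, h3⟩ := hk.one
  have pi0 := Real.pi_pos
  have hmo' : mo (fun v => ph L ν v ^ 2) ≤ 2 * Real.pi * X := by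
    rw [hmo]
    gcongr
  have m1 : 1 ≤ m := le_trans (by nlinarith) a4
  have r1 : (0 : ℝ) < M₁ := by exact_mod_cast h1
  have r2 : (0 : ℝ) < M₂ := by exact_mod_cast h2
  have r3 : (0 : ℝ) < M₃ := by exact_mod_cast h3
  have hm1 : (M₁ : ℝ) ≤ m := le_trans (by exact_mod_cast hk.2.2.2.1) hm3
  have hm2 : (M₂ : ℝ) ≤ m := le_trans (by exact_mod_cast hk.2.2.2.2.1) hm3
  obtain ⟨s₁, s10, e1⟩ : ∃ s : ℝ, 0 < s ∧ (M₁ : ℝ) = s ^ 2 :=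
    ⟨√(M₁ : ℝ), Real.sqrt_pos.2 r1, (Real.sq_sqrt r1.le).symm⟩
  obtain ⟨s₂, s20, e2⟩ : ∃ s : ℝ, 0 < s ∧ (M₂ : ℝ) = s ^ 2 :=
    ⟨√(M₂ : ℝ), Real.sqrt_pos.2 r2, (Real.sq_sqrt r2.le).symm⟩
  obtain ⟨s₃, s30, e3⟩ : ∃ s : ℝ, 0 < s ∧ (M₃ : ℝ) = s ^ 2 :=
    ⟨√(M₃ : ℝ), Real.sqrt_pos.2 r3, (Real.sq_sqrt r3.le).symm⟩
  have hab := ab_pos h1 h2 h3
  have sab : √(ab M₁ M₂ M₃) = s₁ * s₂ / s₃ ^ 2 := by
    rw [Real.sqrt_eq_iff_mul_self_eq hab.le (by positivity)]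
    unfold ab
    rw [e1, e2, e3]
    field_simp
  have s23 : √((M₂ : ℝ) * M₃) = s₂ * s₃ := by
    rw [e2, e3, ← mul_pow, Real.sqrt_sq (by positivity)]
  have s13 : √((M₁ : ℝ) * M₃) = s₁ * s₃ := by
    rw [e1, e3, ← mul_pow, Real.sqrt_sq (by positivity)]
  have hs : 0 < √(ab M₁ M₂ M₃) := Real.sqrt_pos.2 hab
  have hθ : 0 < s₁ / s₂ := by positivity
  have u3 : (s₃ ^ 2) ^ 2 ≤ m ^ 2 := pow_le_pow_left₀ (by positivity) (e3 ▸ hm3) 2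
  have k1 := main_Shp hφ (P := M₂) (Q := M₃) (θ := s₁ / s₂) (m := m) (B := B) hs a3
    (by linarith) a5 a6 a7 hmo' (by
      rw [sab, e2, e3]
      calc s₁ / s₂ * (s₂ ^ 2 * s₃ ^ 2) = s₁ * s₂ / s₃ ^ 2 * (s₃ ^ 2) ^ 2 := by field_simp
        _ ≤ _ := by gcongr) (by
      rw [s23]
      have : s₁ / s₂ * (s₂ * s₃) = s₁ * s₃ := by field_simp
      rw [this]
      nlinarith [sq_nonneg (s₁ - s₃)])
  have k2 := main_Shp hφ (P := M₁) (Q := M₃) (θ := 1 / (s₁ / s₂)) (m := m) (B := B)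
    hs a3 (by linarith) a5 a6 a7 hmo' (by
      rw [sab, e1, e3]
      calc 1 / (s₁ / s₂) * (s₁ ^ 2 * s₃ ^ 2) = s₁ * s₂ / s₃ ^ 2 * (s₃ ^ 2) ^ 2 := by field_simp
        _ ≤ _ := by gcongr) (by
      rw [s13]
      have : 1 / (s₁ / s₂) * (s₁ * s₃) = s₂ * s₃ := by field_simp
      rw [this]
      nlinarith [sq_nonneg (s₂ - s₃)])
  have k3 := peak_Shp hφ m1 a5 a6 a7 hmo' a9 a10 a11 hm2 hm3
  have k4 := peak_Shp hφ m1 a5 a6 a7 hmo' a9 a10 a11 hm1 hm2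
  have k5 := peak_Shp hφ m1 a5 a6 a7 hmo' a9 a10 a11 hm1 hm3
  have hA : 0 ≤ √(ab M₁ M₂ M₃) * (t * √X) := by positivity
  have pe := hφ.max (√(ab M₁ M₂ M₃) * (t * √X))
  have pp := (hφ.min (A := 2 * B) (by linarith)).pow 2
  have pq := hφ.max (2 * B)
  have p2 := hφ.pow 2
  have b1 := (hC N M₁ M₂ M₃ S₁ S₂ S₃ e₁ e₂ e₃ Δ _ _ a1 hk hdiv pe pp).2.1
  have b2 := (hC N M₁ M₂ M₃ S₁ S₂ S₃ e₁ e₂ e₃ Δ _ _ a1 hk hdiv pe pp).2.2.1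
  have b3 := (hC N M₁ M₂ M₃ S₁ S₂ S₃ e₁ e₂ e₃ Δ _ _ a1 hk hdiv p2 pq).2.1
  have b4 := (hC N M₁ M₂ M₃ S₁ S₂ S₃ e₁ e₂ e₃ Δ _ _ a1 hk hdiv pq p2).1
  have b5 := (hC N M₁ M₂ M₃ S₁ S₂ S₃ e₁ e₂ e₃ Δ _ _ a1 hk hdiv p2 pq).2.2.1
  have b6 := (hC N M₁ M₂ M₃ S₁ S₂ S₃ e₁ e₂ e₃ Δ _ _ a1 hk hdiv p2 pq).1
  rw [comm_Shp] at b4
  refine (split_Shp (N := N) hk hφ hA a6 hθ).trans ?_
  have w0 : 0 ≤ C * (ab M₁ M₂ M₃ / N) := by positivity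
  have z0 : 0 ≤ 40 * Δ ^ 3 * (m ^ 2 / t * (X * √X)) := by positivity
  set R := 40 * Δ ^ 3 * (m ^ 2 / t * (X * √X) + m * B * X) with hR
  have kk : 40 * Δ ^ 3 * (m * B * X) ≤ R := by
    rw [hR]
    linarith
  have c1 := (mul_le_mul_of_nonneg_left b1 hθ.le).trans
    (le_of_eq_of_le (by ring) (mul_le_mul_of_nonneg_left k1 w0))
  have c2 := (mul_le_mul_of_nonneg_left b2 (by positivity : 0 ≤ 1 / (s₁ / s₂))).trans
    (le_of_eq_of_le (by ring) (mul_le_mul_of_nonneg_left k2 w0))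
  have c3 := b3.trans (le_of_eq_of_le (by ring) (mul_le_mul_of_nonneg_left (k3.trans kk) w0))
  have c4 := b4.trans (le_of_eq_of_le (by ring) (mul_le_mul_of_nonneg_left (k4.trans kk) w0))
  have c5 := b5.trans (le_of_eq_of_le (by ring) (mul_le_mul_of_nonneg_left (k5.trans kk) w0))
  have c6 := b6.trans (le_of_eq_of_le (by ring) (mul_le_mul_of_nonneg_left (k4.trans kk) w0))
  have ee : 1 / (2 * (s₁ / s₂)) = 1 / 2 * (1 / (s₁ / s₂)) := by field_simp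
  have ef : 120 * C * Δ ^ 3 * (ab M₁ M₂ M₃ / N * (m ^ 2 / t * (X * √X) + m * B * X)) =
      3 * (C * (ab M₁ M₂ M₃ / N) * R) := by
    rw [hR]
    ring
  rw [ee, ef]
  linarith

end Pool.Agent.MP_2a1f0e_nt.GM4
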