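import Pool.Agent.MP_2a1f0e_nt.GM2.Defs
import Pool.Agent.Mg.C853.Gcbec5d

section

set_option autoImplicit false

open Finset

namespace Pool.Agent.MP_2a1f0e_nt.GM2

open GM

lemma root_Seg {U K c t : ℝ} (hK : 1 ≤ K) (hc : c ≤ K) (ht : 0 ≤ t) (h : U ^ 6 ≤ c * t ^ 6) :
    U ≤ K * t := by
  have h1 : K ≤ K ^ 6 := le_self_pow₀ hK (by norm_num)
  have h2 : U ^ 6 ≤ (K * t) ^ 6 := by
    rw [mul_pow]
    exact h.trans (mul_le_mul_of_nonneg_right (hc.trans h1) (by positivity))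
  exact le_of_pow_le_pow_left₀ (by norm_num) (by positivity) h2

theorem seg_stmt (hC : CoreStmt) (hE : ExpStmt) (hB : BBStmt) (hG : GYStmt) (hM : MomStmt) :
    SegStmt := by
  obtain ⟨CC, CC0, hC⟩ := hC
  obtain ⟨CB, CB0, hB⟩ := hB
  obtain ⟨CM, CM0, hM⟩ := hM
  set K : ℝ := 1 + 3 ^ 10 * 4608 * CM with hK
  have K1 : 1 ≤ K := by rw [hK]; nlinarith
  refine ⟨CC * (CB * (2 * K)), by positivity, ?_⟩
  intro x Δ X a b κ σ z₀ z₁ L M₁ M₂ M₃ Xd S₁ S₂ S₃ γ g hx d1 d2 d3 m1 m2 m3 hL hXd hΔ hS hX hθ hA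
    hγ hl
  have x0 : 0 < x := by linarith
  have X0 : 0 ≤ X := (sum_nonneg fun _ _ => sq_nonneg _).trans hX
  have Δ1 : 1 ≤ Δ := hΔ.1
  have Δ0 : 0 ≤ Δ := by linarith
  have e6 : (x ^ 6) ^ 6 = x ^ 36 := by ring
  have e36 : (x ^ 6) ^ 36 = x ^ 216 := by ring
  have p216 : 0 < x ^ 216 := by positivity
  have hY : (((2 * M₃ : ℕ) : ℝ)) ^ 6 ≤ 64 * x ^ 216 := by
    have : ((M₃ : ℝ)) ^ 6 ≤ (x ^ 36) ^ 6 := pow_le_pow_left₀ (by positivity) m3 6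
    calc (((2 * M₃ : ℕ) : ℝ)) ^ 6 = 64 * (M₃ : ℝ) ^ 6 := by push_cast; ring
      _ ≤ 64 * (x ^ 36) ^ 6 := by linarith
      _ = 64 * x ^ 216 := by ring
  have hYn : (2 * M₃) ^ 6 ≤ Xd := by
    have : (((2 * M₃ : ℕ) : ℝ)) ^ 6 ≤ (Xd : ℝ) := by linarith
    exact_mod_cast this
  have hR : (((2 * L : ℕ) : ℝ)) ≤ 8 * x ^ 216 := by push_cast; linarith
  have hm := hM 6 (2 * M₃) (2 * L) Xd Δ S₃ (fun _ => 1) (by norm_num) le_rfl (by simp)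
    (fun n hn => by
      have h1 := mem_Ico.1 (d3.2 hn)
      have h2 := d3.1
      omega) hYn hΔ
  have hZ : ∑ p ∈ Io (2 * L), ‖∑ n ∈ S₃, pw (n : ℝ) p‖ ^ 12 ≤ 4608 * CM * Δ ^ 6 * x ^ 432 := by
    calc ∑ p ∈ Io (2 * L), ‖∑ n ∈ S₃, pw (n : ℝ) p‖ ^ 12
        ≤ ∑ p ∈ Icc (-((2 * L : ℕ) : ℤ)) ((2 * L : ℕ) : ℤ), ‖∑ n ∈ S₃, pw (n : ℝ) p‖ ^ 12 :=
          sum_le_sum_of_subset_of_nonneg Ioo_subset_Icc_self fun _ _ _ => by positivity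
      _ ≤ CM * Δ ^ 6 * ((((2 * L : ℕ) : ℝ) + (((2 * M₃ : ℕ) : ℝ)) ^ 6) *
          (((2 * M₃ : ℕ) : ℝ)) ^ 6) := by simpa only [one_mul] using hm
      _ ≤ CM * Δ ^ 6 * ((8 * x ^ 216 + 64 * x ^ 216) * (64 * x ^ 216)) := by gcongr
      _ = 4608 * CM * Δ ^ 6 * x ^ 432 := by ring
  obtain ⟨g1, g2⟩ := hG L g S₃ X _ _ _ hS hX hθ hA hZ
  have sq : √X ^ 2 = X := Real.sq_sqrt X0
  have hG' : ∀ ρ, ∑ i ∈ S₃ ×ˢ S₃, ‖Fh L g i ρ‖ ^ 2 ≤ K * (X ^ 2 * Δ * x ^ 70) := by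
    intro ρ
    refine root_Seg (c := 4 * 4608 * CM) K1 (by rw [hK]; nlinarith) (by positivity)
      ((g1 ρ).trans (le_of_eq ?_))
    rw [div_pow, mul_pow, sq]
    field_simp
    ring
  have hY' : ∑ i ∈ S₃ ×ˢ S₃, N2 (Io (2 * L)) (Fh L g i) ≤ K * (X ^ 2 * Δ * x ^ 82) := by
    refine root_Seg (c := 3 ^ 10 * 4608 * CM) K1 (by rw [hK]; linarith) (by positivity)
      (g2.trans (le_of_eq ?_))
    have : √X ^ 10 = X ^ 5 := by rw [show 10 = 2 * 5 from rfl, pow_mul, sq]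
    rw [mul_pow, mul_pow, this]
    ring
  have hb := hB (x ^ 6) Δ a b κ σ z₀ z₁ _ _ M₁ M₂ (2 * L) Xd (S₃ ×ˢ S₃) (Fh L g)
    (one_le_pow₀ hx) d1.1 (by rwa [e6]) d2.1 (by rwa [e6]) (by rwa [e36]) (by rwa [e36]) hΔ hl
    hY' hG'
  have he := hE a b κ σ z₀ z₁ L M₁ M₂ S₃ γ g hl hS d3.one_le hγ
  have hc := hC a b κ σ z₀ z₁ X M₁ M₂ S₁ S₂ S₃ γ (Io L) g hl d1 d2 d3.one_le hX
  have a0 : 0 < a := hl.1
  have b0 : 0 < b := hl.2.2.1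
  have hΔ8 : Δ ≤ Δ ^ 8 := le_self_pow₀ Δ1 (by norm_num)
  have h2 : Δ ^ 7 * (x ^ 6) ^ 10 * (K * (X ^ 2 * Δ * x ^ 82)) +
      (x ^ 6) ^ 12 * (K * (X ^ 2 * Δ * x ^ 70)) ≤ 2 * K * (Δ ^ 8 * x ^ 142 * X ^ 2) := by
    calc _ = K * (x ^ 142 * X ^ 2) * (Δ ^ 8 + Δ) := by ring
      _ ≤ K * (x ^ 142 * X ^ 2) * (Δ ^ 8 + Δ ^ 8) :=
          mul_le_mul_of_nonneg_left (by linarith)
            (mul_nonneg (by linarith) (mul_nonneg (pow_nonneg x0.le _) (sq_nonneg _)))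
      _ = _ := by ring
  calc _ ≤ _ := hc
    _ ≤ CC * (M₁ * M₂ * (a * b) * X) * (CB * (2 * K * (Δ ^ 8 * x ^ 142 * X ^ 2))) := by
        gcongr
        exact he.trans (hb.trans (by gcongr))
    _ = _ := by ring

end Pool.Agent.MP_2a1f0e_nt.GM2

end

section

set_option autoImplicit false

open Finset

namespace Pool.Agent.MP_2a1f0e_nt.GM2

open GM

lemma Hf_le_Blk2 (s : Finset ℤ) (g : ℤ → ℝ) {M₁ M₂ M₃ : ℕ} {S₁ S₂ S₃ : Finset ℕ} (h1 : Dy M₁ S₁)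
    (h2 : Dy M₂ S₂) (h3 : Dy M₃ S₃) {γ : ℕ → ℂ} (hγ : ∀ n ∈ S₃, ‖γ n‖ ≤ 1) {A : ℝ}
    (hA : ∀ v, ‖FT s g v‖ ≤ A) (z w : ℝ) :
    Hf s g S₁ S₂ S₃ γ z w ≤ M₁ * (M₂ * (A * (M₃ * (A * A)))) := by
  have A0 : 0 ≤ A := (norm_nonneg _).trans (hA 0)
  have key : ∀ {M : ℕ} {S : Finset ℕ}, Dy M S → ∀ (f : ℕ → ℝ) (Y : ℝ), 0 ≤ Y →
      (∀ n ∈ S, f n ≤ Y) → ∑ n ∈ S, f n ≤ M * Y := fun h f Y Y0 hf => by
    refine (sum_le_card_nsmul _ _ _ hf).trans ?_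
    rw [nsmul_eq_mul]
    exact mul_le_mul_of_nonneg_right (by exact_mod_cast h.card_le) Y0
  refine key h1 _ _ (by positivity) fun n₁ _ => key h2 _ _ (by positivity) fun n₂ _ => ?_
  refine mul_le_mul (hA _) ((norm_sum_le _ _).trans (key h3 _ _ (by positivity) fun n hn => ?_))
    (norm_nonneg _) A0
  rw [norm_mul, norm_mul]
  refine mul_le_mul ?_ (hA _) (norm_nonneg _) A0
  exact (mul_le_of_le_one_left (norm_nonneg _) (hγ n hn)).trans (hA _)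

lemma num_Blk2 {x Δ Z K N a b c : ℝ} (hx : 1 ≤ x) (hΔ : 1 ≤ Δ) (hZ : 0 ≤ Z) (hN : 1 ≤ N)
    (ha : 1 ≤ a) (hb : 1 ≤ b) (hac : a ≤ c) (hbc : b ≤ c) (hc : c ≤ x ^ 36) :
    c ^ 2 / (a * b) * (4 * (K * (a * b / c) * (Δ ^ 4 * x ^ 71 * Z)) / (N * c) +
      144 * (a / c * (b / c)) * (27 * (a * b * c) * (x ^ 18 * Z)) / (N * c) ^ 2) ≤
      (4 * K + 3888) * (Δ ^ 4 * x ^ 71 * Z / N) := by
  have a0 : 0 < a := by linarith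
  have b0 : 0 < b := by linarith
  have c0 : 0 < c := by linarith
  have N0 : 0 < N := by linarith
  have e : c ^ 2 / (a * b) * (4 * (K * (a * b / c) * (Δ ^ 4 * x ^ 71 * Z)) / (N * c) +
      144 * (a / c * (b / c)) * (27 * (a * b * c) * (x ^ 18 * Z)) / (N * c) ^ 2) =
      4 * K * (Δ ^ 4 * x ^ 71 * Z / N) + 3888 * ((a / c * b / N * x ^ 18) * Z / N) := by
    field_simp
    ring
  have h1 : a / c * b / N ≤ x ^ 36 :=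
    (div_le_self (by positivity) hN).trans
      ((mul_le_of_le_one_left b0.le ((div_le_one c0).2 hac)).trans (hbc.trans hc))
  have h2 : a / c * b / N * x ^ 18 ≤ Δ ^ 4 * x ^ 71 :=
    calc a / c * b / N * x ^ 18 ≤ x ^ 36 * x ^ 18 := by gcongr
      _ = x ^ 54 := by ring
      _ ≤ x ^ 71 := pow_le_pow_right₀ hx (by norm_num)
      _ ≤ Δ ^ 4 * x ^ 71 := le_mul_of_one_le_left (by positivity) (one_le_pow₀ hΔ)
  rw [e, add_mul]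
  gcongr

theorem blk2_stmt (hR : RedStmt) (hS : ShearStmt) (hG : SegStmt) : Blk2Stmt := by
  obtain ⟨CR, CR0, hR⟩ := hR
  obtain ⟨CG, CG0, hG⟩ := hG
  refine ⟨CR * (4 * (CG + 1) + 3888), by positivity, ?_⟩
  intro x Δ X e₁ e₂ e₃ N L M₁ M₂ M₃ Xd S₁ S₂ S₃ g hx hN h1 h2 h3 h13 h23 hM s1 s2 s3 hL hXd hD
    hsup hX hg hF
  have X0 : 0 ≤ X := (sum_nonneg fun _ _ => sq_nonneg _).trans hX
  have a1 : (1 : ℝ) ≤ M₁ := by exact_mod_cast h1.1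
  have a2 : (1 : ℝ) ≤ M₂ := by exact_mod_cast h2.1
  have a3 : (1 : ℝ) ≤ M₃ := by exact_mod_cast h3.1
  have aN : (1 : ℝ) ≤ N := by exact_mod_cast hN
  have b1 : (M₁ : ℝ) ≤ M₃ := by exact_mod_cast h13
  have b2 : (M₂ : ℝ) ≤ M₃ := by exact_mod_cast h23
  have hΔ : 1 ≤ Δ := hD.1
  have sq : √X * √X = X := Real.mul_self_sqrt X0
  have key := hR N M₁ M₂ M₃ S₁ S₂ S₃ e₁ e₂ e₃
    (4 * ((CG + 1) * ((M₁ : ℝ) * M₂ / M₃) * (Δ ^ 4 * x ^ 71 * (X * √X))) / (N * M₃) +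
      144 * ((M₁ : ℝ) / M₃ * (M₂ / M₃)) * (27 * (M₁ * M₂ * M₃) * (x ^ 18 * (X * √X))) /
        (N * M₃) ^ 2) (Io L) g h1 h2 h3 fun γ hγ => by
    refine hS _ _ _ _ _ e₁ e₂ e₃ (Hf (Io L) g S₁ S₂ S₃ γ) (by positivity)
      (div_le_one_of_le₀ b1 (by positivity)) (by positivity)
      (div_le_one_of_le₀ b2 (by positivity)) (by positivity) s1 s2 s3 (by positivity)
      (continuousOn_Hf _ g h1.one_le h2.one_le h3.one_le γ continuousOn_fst continuousOn_snd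
        (fun p hp => hp.1) fun p hp => hp.2) (Hf_nonneg _ g _ _ _ γ) (fun z w => ?_)
      fun κ σ z₀ z₁ hl => ?_
    · refine (Hf_le_Blk2 _ g h1 h2 h3 hγ hF z w).trans_eq ?_
      linear_combination (27 * (M₁ * M₂ * M₃) * x ^ 18 * √X) * sq
    · refine (abs_le_of_sq_le_sq' ((hG x Δ X _ _ κ σ z₀ z₁ L M₁ M₂ M₃ Xd S₁ S₂ S₃ γ g hx h1 h2 h3
        (b1.trans hM) (b2.trans hM) hM hL hXd hD hsup hX hg hF hγ hl).trans ?_)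
        (by positivity)).2
      have e : ((CG + 1) * ((M₁ : ℝ) * M₂ / M₃) * (Δ ^ 4 * x ^ 71 * (X * √X))) ^ 2 =
          (CG + 1) ^ 2 * (M₁ * M₂ * ((M₁ : ℝ) / M₃ * (M₂ / M₃))) *
            (Δ ^ 8 * x ^ 142 * (X ^ 2 * (√X * √X))) := by ring
      rw [e, sq, ← pow_succ]
      gcongr
      nlinarith
  refine key.trans ?_
  rw [mul_assoc, mul_assoc CR]
  exact mul_le_mul_of_nonneg_left
    (num_Blk2 hx hΔ (by positivity) aN a1 a2 b1 b2 hM) CR0.le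

end Pool.Agent.MP_2a1f0e_nt.GM2

end

section

set_option autoImplicit false
open Finset
namespace Pool.Agent.MP_2a1f0e_nt.GM3
open GM GM2

theorem seg3_stmt (hC : CoreStmt) (hE : ExpStmt) (hB : BB3Stmt) (hG : GYStmt) (hM : MomStmt) :
    Seg3Stmt := by
  obtain ⟨CC, CC0, hC⟩ := hC
  obtain ⟨CB, CB0, hB⟩ := hB
  obtain ⟨CM, CM0, hM⟩ := hM
  set K : ℝ := 1 + 4608 * CM with hK
  have K1 : 1 ≤ K := by rw [hK]; linarith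
  refine ⟨CC * (CB * (2 * K)), by positivity, ?_⟩
  intro x Δ X k a b κ σ z₀ z₁ L M₁ M₂ M₃ Xd S₁ S₂ S₃ γ g hx hk d1 d2 d3 m1 m2 m3 hL hXd hΔ hS hX
    hθ hA hγ hl
  have x0 : 0 < x := by linarith
  have X0 : 0 ≤ X := (sum_nonneg fun _ _ => sq_nonneg _).trans hX
  have Δ1 : 1 ≤ Δ := hΔ.1
  have Δ0 : 0 ≤ Δ := by linarith
  have p180 : 0 < x ^ 180 := by positivity
  have hY : (((2 * M₃ : ℕ) : ℝ)) ^ 6 ≤ 64 * x ^ 180 := by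
    have : ((M₃ : ℝ)) ^ 6 ≤ (x ^ 30) ^ 6 := pow_le_pow_left₀ (by positivity) m3 6
    calc (((2 * M₃ : ℕ) : ℝ)) ^ 6 = 64 * (M₃ : ℝ) ^ 6 := by push_cast; ring
      _ ≤ 64 * (x ^ 30) ^ 6 := by linarith
      _ = 64 * x ^ 180 := by ring
  have hYn : (2 * M₃) ^ 6 ≤ Xd := by
    have : (((2 * M₃ : ℕ) : ℝ)) ^ 6 ≤ (Xd : ℝ) := by linarith
    exact_mod_cast this
  have hR : (((2 * L : ℕ) : ℝ)) ≤ 8 * x ^ 180 := by push_cast; linarith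
  have hm := hM 6 (2 * M₃) (2 * L) Xd Δ S₃ (fun _ => 1) (by norm_num) le_rfl (by simp)
    (fun n hn => by
      have h1 := mem_Ico.1 (d3.2 hn)
      have h2 := d3.1
      omega) hYn hΔ
  have hZ : ∑ p ∈ Io (2 * L), ‖∑ n ∈ S₃, pw (n : ℝ) p‖ ^ 12 ≤ 4608 * CM * Δ ^ 6 * x ^ 360 := by
    calc ∑ p ∈ Io (2 * L), ‖∑ n ∈ S₃, pw (n : ℝ) p‖ ^ 12
        ≤ ∑ p ∈ Icc (-((2 * L : ℕ) : ℤ)) ((2 * L : ℕ) : ℤ), ‖∑ n ∈ S₃, pw (n : ℝ) p‖ ^ 12 :=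
          sum_le_sum_of_subset_of_nonneg Ioo_subset_Icc_self fun _ _ _ => by positivity
      _ ≤ CM * Δ ^ 6 * ((((2 * L : ℕ) : ℝ) + (((2 * M₃ : ℕ) : ℝ)) ^ 6) *
          (((2 * M₃ : ℕ) : ℝ)) ^ 6) := by simpa only [one_mul] using hm
      _ ≤ CM * Δ ^ 6 * ((8 * x ^ 180 + 64 * x ^ 180) * (64 * x ^ 180)) := by gcongr
      _ = 4608 * CM * Δ ^ 6 * x ^ 360 := by ring
  obtain ⟨g1, g2⟩ := hG L g S₃ X _ _ _ hS hX hθ hA hZ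
  have sq : √X ^ 2 = X := Real.sq_sqrt X0
  have hG' : ∀ ρ, ∑ i ∈ S₃ ×ˢ S₃, ‖Fh L g i ρ‖ ^ 2 ≤ K * (X ^ 2 * Δ * x ^ 54) := by
    intro ρ
    refine root_Seg (c := 4608 * CM) K1 (by rw [hK]; linarith) (by positivity)
      ((g1 ρ).trans (le_of_eq ?_))
    rw [div_pow, sq]
    field_simp
  have hY' : ∑ i ∈ S₃ ×ˢ S₃, N2 (Io (2 * L)) (Fh L g i) ≤ K * (k ^ 2 * X ^ 2 * Δ * x ^ 65) := by
    refine root_Seg (c := 4608 * CM) K1 (by rw [hK]; linarith) (by positivity) (g2.trans ?_)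
    have : √X ^ 10 = X ^ 5 := by rw [show 10 = 2 * 5 from rfl, pow_mul, sq]
    rw [mul_pow, mul_pow, this]
    calc _ = k ^ 10 * (4608 * CM * (X ^ 2 * Δ * x ^ 65) ^ 6) := by ring
      _ ≤ k ^ 12 * (4608 * CM * (X ^ 2 * Δ * x ^ 65) ^ 6) := by gcongr; norm_num
      _ = _ := by ring
  have hb := hB x Δ a b κ σ z₀ z₁ _ _ M₁ M₂ (2 * L) Xd (S₃ ×ˢ S₃) (Fh L g)
    hx d1.1 m1 d2.1 m2 hR hXd hΔ hl hY' hG'
  have he := hE a b κ σ z₀ z₁ L M₁ M₂ S₃ γ g hl hS d3.one_le hγ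
  have hc := hC a b κ σ z₀ z₁ X M₁ M₂ S₁ S₂ S₃ γ (Io L) g hl d1 d2 d3.one_le hX
  have a0 : 0 < a := hl.1
  have b0 : 0 < b := hl.2.2.1
  have hΔ8 : Δ ≤ k ^ 2 * Δ ^ 8 := (le_self_pow₀ Δ1 (by norm_num)).trans
    (le_mul_of_one_le_left (by positivity) (one_le_pow₀ hk))
  have h2 : Δ ^ 7 * x ^ 49 * (K * (k ^ 2 * X ^ 2 * Δ * x ^ 65)) +
      x ^ 60 * (K * (X ^ 2 * Δ * x ^ 54)) ≤ 2 * K * (k ^ 2 * Δ ^ 8 * x ^ 114 * X ^ 2) := by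
    calc _ = K * (x ^ 114 * X ^ 2) * (k ^ 2 * Δ ^ 8 + Δ) := by ring
      _ ≤ K * (x ^ 114 * X ^ 2) * (k ^ 2 * Δ ^ 8 + k ^ 2 * Δ ^ 8) :=
          mul_le_mul_of_nonneg_left (by linarith)
            (mul_nonneg (by linarith) (mul_nonneg (pow_nonneg x0.le _) (sq_nonneg _)))
      _ = _ := by ring
  calc _ ≤ _ := hc
    _ ≤ CC * (M₁ * M₂ * (a * b) * X) *
        (CB * (2 * K * (k ^ 2 * Δ ^ 8 * x ^ 114 * X ^ 2))) := by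
        gcongr
        exact he.trans (hb.trans (by gcongr))
    _ = _ := by ring

lemma num_Seg3 {x k Δ Z K N a b c : ℝ} (hx : 1 ≤ x) (hk : 1 ≤ k) (hΔ : 1 ≤ Δ) (hZ : 0 ≤ Z)
    (hK : 0 ≤ K) (hN : 1 ≤ N) (ha : 1 ≤ a) (hb : 1 ≤ b) (hac : a ≤ c) (hbc : b ≤ c)
    (hc : c ≤ x ^ 30) :
    c ^ 2 / (a * b) * (4 * (K * (a * b / c) * (k * Δ ^ 4 * x ^ 57 * Z)) / (N * c) +
      144 * (a / c * (b / c)) * ((a * b * c) * (k ^ 3 * x ^ 9 * Z)) / (N * c) ^ 2) ≤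
      (4 * K + 144) * (k ^ 3 * Δ ^ 4 * x ^ 57 * Z / N) := by
  have a0 : 0 < a := by linarith
  have b0 : 0 < b := by linarith
  have c0 : 0 < c := by linarith
  have N0 : 0 < N := by linarith
  have e : c ^ 2 / (a * b) * (4 * (K * (a * b / c) * (k * Δ ^ 4 * x ^ 57 * Z)) / (N * c) +
      144 * (a / c * (b / c)) * ((a * b * c) * (k ^ 3 * x ^ 9 * Z)) / (N * c) ^ 2) =
      4 * K * (k * Δ ^ 4 * x ^ 57 * Z / N) +
        144 * (k ^ 3 * (a / c * b / N * x ^ 9) * Z / N) := by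
    field_simp
  have h1 : a / c * b / N ≤ x ^ 30 :=
    (div_le_self (by positivity) hN).trans
      ((mul_le_of_le_one_left b0.le ((div_le_one c0).2 hac)).trans (hbc.trans hc))
  have h2 : a / c * b / N * x ^ 9 ≤ Δ ^ 4 * x ^ 57 :=
    calc a / c * b / N * x ^ 9 ≤ x ^ 30 * x ^ 9 := by gcongr
      _ = x ^ 39 := by ring
      _ ≤ x ^ 57 := pow_le_pow_right₀ hx (by norm_num)
      _ ≤ Δ ^ 4 * x ^ 57 := le_mul_of_one_le_left (by positivity) (one_le_pow₀ hΔ)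
  have h3 : k ≤ k ^ 3 := le_self_pow₀ hk (by norm_num)
  rw [e, add_mul]
  refine add_le_add (by gcongr) ?_
  rw [mul_assoc (k ^ 3) (Δ ^ 4)]
  gcongr

theorem blk3_stmt (hR : RedStmt) (hS : ShearStmt) (hG : Seg3Stmt) : Blk3Stmt := by
  obtain ⟨CR, CR0, hR⟩ := hR
  obtain ⟨CG, CG0, hG⟩ := hG
  refine ⟨CR * (4 * (CG + 1) + 144), by positivity, ?_⟩
  intro x Δ X k e₁ e₂ e₃ N L M₁ M₂ M₃ Xd S₁ S₂ S₃ g hx hk hN h1 h2 h3 h13 h23 hM s1 s2 s3 hL hXd hD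
    hsup hX hg hF
  have X0 : 0 ≤ X := (sum_nonneg fun _ _ => sq_nonneg _).trans hX
  have a1 : (1 : ℝ) ≤ M₁ := by exact_mod_cast h1.1
  have a2 : (1 : ℝ) ≤ M₂ := by exact_mod_cast h2.1
  have a3 : (1 : ℝ) ≤ M₃ := by exact_mod_cast h3.1
  have aN : (1 : ℝ) ≤ N := by exact_mod_cast hN
  have b1 : (M₁ : ℝ) ≤ M₃ := by exact_mod_cast h13
  have b2 : (M₂ : ℝ) ≤ M₃ := by exact_mod_cast h23
  have hΔ : 1 ≤ Δ := hD.1
  have sq : √X * √X = X := Real.mul_self_sqrt X0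
  have key := hR N M₁ M₂ M₃ S₁ S₂ S₃ e₁ e₂ e₃
    (4 * ((CG + 1) * ((M₁ : ℝ) * M₂ / M₃) * (k * Δ ^ 4 * x ^ 57 * (X * √X))) / (N * M₃) +
      144 * ((M₁ : ℝ) / M₃ * (M₂ / M₃)) * ((M₁ * M₂ * M₃) * (k ^ 3 * x ^ 9 * (X * √X))) /
        (N * M₃) ^ 2) (Io L) g h1 h2 h3 fun γ hγ => by
    refine hS _ _ _ _ _ e₁ e₂ e₃ (Hf (Io L) g S₁ S₂ S₃ γ) (by positivity)
      (div_le_one_of_le₀ b1 (by positivity)) (by positivity)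
      (div_le_one_of_le₀ b2 (by positivity)) (by positivity) s1 s2 s3 (by positivity)
      (continuousOn_Hf _ g h1.one_le h2.one_le h3.one_le γ continuousOn_fst continuousOn_snd
        (fun p hp => hp.1) fun p hp => hp.2) (Hf_nonneg _ g _ _ _ γ) (fun z w => ?_)
      fun κ σ z₀ z₁ hl => ?_
    · refine (Hf_le_Blk2 _ g h1 h2 h3 hγ hF z w).trans_eq ?_
      linear_combination ((M₁ * M₂ * M₃) * k ^ 3 * x ^ 9 * √X) * sq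
    · refine (abs_le_of_sq_le_sq' ((hG x Δ X k _ _ κ σ z₀ z₁ L M₁ M₂ M₃ Xd S₁ S₂ S₃ γ g hx hk h1 h2
        h3 (b1.trans hM) (b2.trans hM) hM hL hXd hD hsup hX hg hF hγ hl).trans ?_)
        (by positivity)).2
      have e : ((CG + 1) * ((M₁ : ℝ) * M₂ / M₃) * (k * Δ ^ 4 * x ^ 57 * (X * √X))) ^ 2 =
          (CG + 1) ^ 2 * (M₁ * M₂ * ((M₁ : ℝ) / M₃ * (M₂ / M₃))) *
            (k ^ 2 * Δ ^ 8 * x ^ 114 * (X ^ 2 * (√X * √X))) := by ring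
      rw [e, sq, ← pow_succ]
      gcongr
      nlinarith
  refine key.trans ?_
  rw [mul_assoc, mul_assoc CR]
  exact mul_le_mul_of_nonneg_left
    (num_Seg3 hx hk hΔ (by positivity) (by positivity) aN a1 a2 b1 b2 hM) CR0.le

end Pool.Agent.MP_2a1f0e_nt.GM3

end
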