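import Pool.Agent.Mg.C853.G8af4af
import Pool.Agent.Mg.C853.G1e26e7
import Pool.Agent.Mg.C853.G68ed1d
import Pool.Agent.Mg.C853.Gdc52fa
import Pool.Agent.Mg.C853.Gc3ea83
import Pool.Agent.Mg.C853.G9b677c
import Pool.Agent.MP_2a1f0e_nt.GM.Pt
import Pool.Agent.Mg.C853.G2a2cf1
import Pool.Agent.Mg.C853.G8db7e4
import Pool.Agent.Mg.C853.Gfe9d6c
import Pool.Agent.MP_2a1f0e_nt.GM2.BThree
import Pool.Agent.Mg.C853.G7d18f3
import Pool.Agent.Mg.C853.G727f74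
import Pool.Agent.Mg.C853.Ge4969e
import Pool.Agent.Mg.C853.Gd4f23d
import Pool.Agent.Mg.C853.G7909fe

section

set_option autoImplicit false

open Finset

namespace Pool.Agent.MP_2a1f0e_nt.GM4

open GM GM2 GM3

lemma exp_Dat {θ : ℝ} (h : θ ≤ Real.pi) : Real.exp θ ≤ 24 := by
  have h1 : Real.exp θ ≤ Real.exp 1 ^ 3 * Real.exp 0.15 := by
    rw [← Real.exp_nat_mul, ← Real.exp_add]
    exact Real.exp_le_exp.2 (by push_cast; linarith [Real.pi_lt_d2])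
  have h2 := Real.exp_bound_div_one_sub_of_interval' (x := 0.15) (by norm_num) (by norm_num)
  have h3 := Real.exp_one_lt_d9
  refine h1.trans (le_trans (b := 2.72 ^ 3 * (1 / (1 - 0.15))) ?_ (by norm_num))
  gcongr
  linarith

lemma mo_Dat {g G : ℝ → ℝ} (hg : Per g) (hG : Continuous G) (c : ℝ)
    (h1 : ∀ v ∈ Set.Icc (1 / 9 : ℝ) (82 / 9), g v ≤ c * G v)
    (h2 : ∀ θ ∈ Set.Icc (-Real.pi) Real.pi, Real.exp θ ∉ Set.Icc (1 / 9 : ℝ) (82 / 9) →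
      g (Real.exp θ) ≤ 0) : mo g ≤ 9 * c * II G := by
  have hab : Real.log (1 / 9) ≤ Real.log (82 / 9) := Real.log_le_log (by norm_num) (by norm_num)
  have he : (82 / 9 : ℝ) ≤ Real.exp 3 := by
    have := Real.sum_le_exp_of_nonneg (x := 3) (by norm_num) 4
    simp only [sum_range_succ, Nat.factorial] at this
    norm_num at this
    linarith
  have hu : Real.log (82 / 9) ≤ Real.pi :=
    ((Real.log_le_iff_le_exp (by norm_num)).2 he).trans Real.pi_gt_three.le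
  have hl : -Real.pi ≤ Real.log (1 / 9) := by
    rw [one_div, Real.log_inv, neg_le_neg_iff]
    exact (Real.log_le_log (by norm_num) (by norm_num)).trans hu
  have i := fun a b => hg.cont.intervalIntegrable (μ := MeasureTheory.volume) a b
  have a1 := intervalIntegral.integral_mono_on_of_le_Ioo hl (i _ _)
    (intervalIntegrable_const (c := (0 : ℝ))) fun θ h => h2 θ ⟨h.1.le, by linarith [h.2]⟩
      fun k => ((Real.lt_log_iff_exp_lt (by norm_num)).1 h.2).not_ge k.1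
  have a2 := intervalIntegral.integral_mono_on_of_le_Ioo hu (i _ _)
    (intervalIntegrable_const (c := (0 : ℝ))) fun θ h => h2 θ ⟨by linarith [h.1], h.2.le⟩
      fun k => ((Real.log_lt_iff_lt_exp (by norm_num)).1 h.1).not_ge k.2
  have a3 := intervalIntegral.integral_comp_mul_deriv (a := Real.log (1 / 9))
    (b := Real.log (82 / 9)) (fun x _ => Real.hasDerivAt_exp x) Real.continuous_exp.continuousOn hG
  rw [Real.exp_log (by norm_num), Real.exp_log (by norm_num)] at a3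
  have a4 := intervalIntegral.integral_mono_on hab (i _ _)
    ((continuous_const.mul ((hG.comp Real.continuous_exp).mul
      Real.continuous_exp)).intervalIntegrable _ _)
    (g := fun θ => 9 * c * ((G ∘ Real.exp) θ * Real.exp θ)) fun θ h => by
      have b1 := (Real.log_le_iff_le_exp (by norm_num)).1 h.1
      have b2 := h1 _ ⟨b1, (Real.le_log_iff_exp_le (by norm_num)).1 h.2⟩
      have b3 := (hg.2.1 _).trans b2
      simp only [Function.comp]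
      nlinarith
  rw [intervalIntegral.integral_const_mul, a3] at a4
  rw [intervalIntegral.integral_zero] at a1 a2
  rw [mo, ← intervalIntegral.integral_add_adjacent_intervals (i _ (Real.log (1 / 9))) (i _ _),
    ← intervalIntegral.integral_add_adjacent_intervals (i _ (Real.log (82 / 9))) (i _ Real.pi), II]
  linarith

theorem dat_stmt (hR : RhoStmt) : DatStmt := by
  obtain ⟨C, hC, hR⟩ := hR
  refine ⟨18 * C + 5, by linarith, ?_⟩
  intro N M L t Δ B X ν hN hL ht htM hD hM hB hX h1 h2 h3 h4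
  obtain ⟨r1, r2⟩ := hR N M Δ hN hD
  have hΔ := hD.1
  have hN0 : (0 : ℝ) < N := by exact_mod_cast hN
  have hM1 : (1 : ℝ) ≤ M := (one_le_pow₀ ht).trans htM
  have k1 : Δ ≤ (18 * C + 5) * Δ := by nlinarith
  have k2 : 18 * C + 5 ≤ (18 * C + 5) * Δ := by nlinarith
  have out : ∀ θ ∈ Set.Icc (-Real.pi) Real.pi, Real.exp θ ∉ Set.Icc (1 / 9 : ℝ) (82 / 9) →
      ph L ν (Real.exp θ) ≤ B := fun θ h k => by
    by_cases k1 : 1 / 9 ≤ Real.exp θ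
    · exact h2 _ ⟨by linarith [not_le.1 fun e => k ⟨k1, e⟩], exp_Dat h.2⟩
    · rw [← ph_inv]
      refine h2 _ ⟨?_, ?_⟩
      · rw [le_inv_comm₀ (by norm_num) (Real.exp_pos _)]
        linarith
      · rw [← Real.exp_neg]
        exact exp_Dat (by linarith [h.1])
  refine ⟨hN, hL, ht, htM, hΔ.trans k1, hB, hX, h3, ?_, ?_, fun v => ?_, ?_, ?_⟩
  · have a := mo_Dat ((per_ph L ν).max (2 * B)) (continuous_rho N M) B
      (fun v hv => max_le (by linarith [show ph L ν v ≤ _ from h1 v hv])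
        (mul_nonneg hB (rho_nonneg N M v)))
      fun θ h k => max_le (by linarith [out θ h k]) le_rfl
    calc _ ≤ M * (9 * B * (C * (M / N))) := by
          gcongr
          exact a.trans (by gcongr)
      _ = 9 * C * ((M : ℝ) ^ 2 / N) * B := by ring
      _ ≤ (18 * C + 5) * Δ * B := by
          gcongr
          · linarith
          · exact (div_le_iff₀ hN0).2 hM
  · have a := mo_Dat (((per_ph L ν).pow 2).max (4 * B ^ 2)) ((continuous_rho N M).pow 2)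
      (2 * B ^ 2) (fun v hv => max_le (by
        have := pow_le_pow_left₀ (ph_nonneg L ν v) (h1 v hv) 2
        simp only [Pi.pow_apply]
        nlinarith [sq_nonneg (B * (1 - rho N M v)), sq_nonneg B])
        (mul_nonneg (by positivity) (sq_nonneg (rho N M v))))
      fun θ h k => max_le (by
        linarith [pow_le_pow_left₀ (ph_nonneg L ν _) (out θ h k) 2, sq_nonneg B]) le_rfl
    calc _ ≤ M * (9 * (2 * B ^ 2) * (C * R2 N M Δ)) := by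
          gcongr
          exact a.trans (mul_le_mul_of_nonneg_left r2 (by positivity))
      _ = 18 * C * (M * B ^ 2 * R2 N M Δ) := by ring
      _ ≤ 18 * C * X := by gcongr
      _ ≤ _ := mul_le_mul_of_nonneg_right (by linarith) hX.le
  · obtain ⟨θ, h, e⟩ := (per_ph L ν).periodic.exists_mem_Ico Real.two_pi_pos (Real.log v)
      (-Real.pi)
    have e' : ph L ν v = ph L ν (Real.exp (Real.log v)) := by simp only [ph, FT, pw, Real.log_exp]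
    have b : ph L ν (Real.exp θ) ≤ B * (1 + 4 * M) := by
      by_cases k : Real.exp θ ∈ Set.Icc (1 / 9 : ℝ) (82 / 9)
      · exact (h1 _ k).trans (by gcongr; exact rho_le N M _)
      · exact (out θ ⟨h.1, by linarith [h.2]⟩ k).trans (le_mul_of_one_le_right hB (by linarith))
    calc _ ≤ B * (1 + 4 * M) := (e'.trans e).trans_le b
      _ ≤ B * (5 * M) := by
          gcongr
          linarith
      _ = 5 * M * B := by ring
      _ ≤ _ := by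
          gcongr
          linarith
  · have a : (M : ℝ) / N ≤ R2 N M Δ :=
      le_add_of_nonneg_of_le (by positivity) (by gcongr; nlinarith)
    calc _ ≤ M * M * B ^ 2 := by gcongr
      _ = N * (M * B ^ 2 * (M / N)) := by field_simp
      _ ≤ N * X := by
          gcongr
          exact le_trans (by gcongr) h4
      _ ≤ _ := by
          gcongr
          exact le_mul_of_one_le_left hN0.le (hΔ.trans k1)
  · calc _ ≤ (M : ℝ) ^ 2 := by nlinarith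
      _ ≤ Δ * N := hM
      _ ≤ _ := by gcongr

end Pool.Agent.MP_2a1f0e_nt.GM4

end

section

set_option autoImplicit false

open Finset

namespace Pool.Agent.MP_2a1f0e_nt.GM4

open GM GM2 GM3

lemma orth_EEp (k : ℤ) :
    ∫ θ in (-Real.pi)..Real.pi, Complex.exp (Complex.I * (k : ℂ) * (θ : ℂ)) =
      if k = 0 then (2 * Real.pi : ℂ) else 0 := by
  split_ifs with h
  · subst h
    simp [two_mul]
  · rw [integral_exp_mul_complex (mul_ne_zero Complex.I_ne_zero (Int.cast_ne_zero.2 h))]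
    have e : Complex.I * (k : ℂ) * ((Real.pi : ℝ) : ℂ) =
        Complex.I * (k : ℂ) * ((-Real.pi : ℝ) : ℂ) + k * (2 * Real.pi * Complex.I) := by
      push_cast
      ring
    rw [e, Complex.exp_add, Complex.exp_int_mul_two_pi_mul_I, mul_one, sub_self, zero_div]

lemma pars_EEp (D : Finset ℤ) (c : ℤ → ℂ) :
    ∫ θ in (-Real.pi)..Real.pi, P_CV D c θ = 2 * Real.pi * N2 D c := by
  apply Complex.ofReal_injective
  rw [← intervalIntegral.integral_ofReal, N2]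
  simp only [sq_CV]
  rw [intervalIntegral.integral_finsetSum fun t _ =>
    Continuous.intervalIntegrable (by fun_prop) _ _]
  push_cast
  rw [mul_sum]
  refine sum_congr rfl fun t ht => ?_
  rw [intervalIntegral.integral_finsetSum fun u _ =>
    Continuous.intervalIntegrable (by fun_prop) _ _, sum_eq_single_of_mem t ht]
  · rw [intervalIntegral.integral_const_mul, ← Int.cast_sub, orth_EEp, if_pos (sub_self t),
      Complex.mul_conj']
    ring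
  · intro u _ hu
    rw [intervalIntegral.integral_const_mul, ← Int.cast_sub, orth_EEp,
      if_neg (sub_ne_zero.2 hu.symm), mul_zero]

lemma pw_EEp (θ : ℝ) {n : ℕ} (hn : 1 ≤ n) (u : ℝ) :
    pw (Real.exp θ * n) u = Complex.exp (Complex.I * (u : ℂ) * (θ : ℂ)) * pw n u := by
  rw [pw_mul (Real.exp_pos θ).ne' (Nat.cast_ne_zero.2 (by omega)), pw, Real.log_exp]

lemma sum_EEp (D : Finset ℤ) (ν : ℤ → ℝ) (S : Finset ℕ) (hS : ∀ n ∈ S, 1 ≤ n) (θ θ' : ℝ) :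
    ‖∑ n ∈ S, FT D ν (Real.exp θ * n) * (starRingEnd ℂ) (FT D ν (Real.exp θ' * n))‖ ^ 2 =
      P_CV D (fun b => (starRingEnd ℂ) (∑ a ∈ D, ((ν a * ν b : ℝ) : ℂ) * SS S ((a : ℝ) - b) *
        Complex.exp (Complex.I * ((a : ℝ) : ℂ) * (θ : ℂ)))) θ' := by
  rw [P_CV, ← Complex.norm_conj (∑ t ∈ D, _), map_sum]
  congr 2
  simp only [map_mul, Complex.conj_conj, FT, SS, map_sum, sum_mul, mul_sum]
  rw [sum_comm]
  refine sum_congr rfl fun b _ => ?_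
  rw [sum_comm]
  refine sum_congr rfl fun a _ => sum_congr rfl fun n hn => ?_
  rw [pw_EEp θ (hS n hn), pw_EEp θ' (hS n hn), pw_sub, map_mul, Complex.conj_ofReal]
  push_cast
  ring

theorem eep_stmt : EEpStmt := by
  intro L ν S hS
  simp only [sum_EEp _ ν S hS, pars_EEp, N2, Complex.norm_conj]
  rw [intervalIntegral.integral_const_mul]
  have h := fun b : ℤ => pars_EEp (Io L) fun a => ((ν a * ν b : ℝ) : ℂ) * SS S ((a : ℝ) - b)
  unfold P_CV at h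
  rw [intervalIntegral.integral_finsetSum fun b _ =>
    Continuous.intervalIntegrable (by fun_prop) _ _]
  simp only [h]
  rw [← mul_sum, ← mul_assoc, ← sq, DH.EE, sum_comm]
  congr 1
  refine sum_congr rfl fun b _ => sum_congr rfl fun a _ => ?_
  rw [norm_mul, Complex.norm_real, mul_pow, Real.norm_eq_abs, sq_abs, mul_pow]

end Pool.Agent.MP_2a1f0e_nt.GM4

end

section

set_option autoImplicit false

open Finset

namespace Pool.Agent.MP_2a1f0e_nt.GM4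

open GM GM2 GM3

lemma mom_Far4 (h : MomStmt) : ∃ C : ℝ, 0 < C ∧ ∀ (y Δ : ℝ) (M X k P : ℕ), 1 ≤ y → 1 ≤ M →
    (M : ℝ) ≤ y ^ 5 → 729 * y ^ 30 ≤ X → DivB X Δ → 1 ≤ k → k ≤ 5 →
    ∑ ρ ∈ Icc (-(P : ℤ)) P, ‖KK M ρ‖ ^ (2 * k) ≤
      C * Δ ^ 6 * ((P + 243 * (y ^ k) ^ 5) * (243 * (y ^ k) ^ 5)) := by
  obtain ⟨C, hC, h⟩ := h
  refine ⟨C, hC, fun y Δ M X k P hy hM hMy hX hD k1 k5 => ?_⟩
  have hΔ : 0 ≤ Δ := zero_le_one.trans hD.1
  have e1 : ((3 * M : ℕ) : ℝ) ^ k ≤ 243 * (y ^ k) ^ 5 := by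
    have h3 : (3 : ℝ) ^ k ≤ 3 ^ 5 := pow_le_pow_right₀ (by norm_num) k5
    calc ((3 * M : ℕ) : ℝ) ^ k = 3 ^ k * (M : ℝ) ^ k := by push_cast; rw [mul_pow]
      _ ≤ 3 ^ 5 * (y ^ 5) ^ k := by gcongr
      _ = 243 * (y ^ k) ^ 5 := by rw [← pow_mul, ← pow_mul]; ring
  have e2 : (3 * M) ^ k ≤ X := by
    have h3 : (y ^ k) ^ 5 ≤ y ^ 30 := by
      rw [← pow_mul]
      exact pow_le_pow_right₀ hy (by omega)
    have h4 : 0 ≤ y ^ 30 := by positivity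
    have h5 : ((3 * M : ℕ) : ℝ) ^ k ≤ X := by linarith
    exact_mod_cast h5
  simp only [KK_eq_Far hM]
  refine (h k (3 * M) P X Δ _ (fun n => (Wt ((n : ℝ) / M) : ℂ)) k1 (by omega) (fun n _ => ?_)
    (fun n hn => ?_) e2 hD).trans (by gcongr)
  · rw [Complex.norm_real, Real.norm_of_nonneg (Wt_nonneg _)]
    exact Wt_le_one _
  · rw [mem_filter, mem_Icc] at hn
    exact ⟨hn.1.1, hn.1.2, hn.2⟩

lemma choose_Far4 {y P : ℝ} (hy : 1 ≤ y) (h1 : y ^ 8 ≤ 2 * P) (h2 : P ≤ 8 * y ^ 30) :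
    ∃ k : ℕ, 1 ≤ k ∧ k ≤ 5 ∧ (y ^ k) ^ 4 ≤ 2 * P ∧ P ≤ 8 * (y ^ k) ^ 6 := by
  have h0 : ∀ n, 0 ≤ y ^ n := fun n => by positivity
  have h3 : y ^ 16 ≤ y ^ 18 := pow_le_pow_right₀ hy (by norm_num)
  have h4 : y ^ 20 ≤ y ^ 24 := pow_le_pow_right₀ hy (by norm_num)
  simp only [← pow_mul]
  rcases le_total P (y ^ 12) with a | a
  · exact ⟨2, by norm_num, by norm_num, h1, by norm_num; linarith [h0 12]⟩
  rcases le_total P (y ^ 18) with b | b
  · exact ⟨3, by norm_num, by norm_num, by norm_num; linarith [h0 12],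
      by norm_num; linarith [h0 18]⟩
  rcases le_total P (y ^ 24) with c | c
  · exact ⟨4, by norm_num, by norm_num, by norm_num; linarith [h0 18],
      by norm_num; linarith [h0 24]⟩
  · exact ⟨5, by norm_num, by norm_num, by norm_num; linarith [h0 24], by norm_num; linarith⟩

theorem far4_stmt (hM : MomStmt) : Far4Stmt := by
  obtain ⟨C, hC, h⟩ := mom_Far4 hM
  refine ⟨243 ^ 2 * (64 + 4 * 243 ^ 2) * C ^ 2, by positivity,
    fun y lam Δ M₁ M₂ R X hy m1 m2 m3 m4 hR hX hD hl => ?_⟩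
  have hn : ∀ u : ℝ, ‖KK M₁ (-u)‖ = ‖KK M₁ u‖ := fun u => by
    rw [← conj_KK, Complex.norm_conj]
  have hy0 : 0 < y := by linarith
  have hl0 : 0 < lam := (pow_pos hy0 8).trans_le hl
  have hc : ∀ p : ℤ × ℤ, ((max p.1.natAbs p.2.natAbs : ℕ) : ℝ) = max |(p.1 : ℝ)| |(p.2 : ℝ)| :=
    fun p => by rw [Nat.cast_max, Nat.cast_natAbs, Nat.cast_natAbs, Int.cast_abs, Int.cast_abs]
  have hm : ∀ p ∈ Io R ×ˢ Io R, max p.1.natAbs p.2.natAbs ≤ R := fun p hp => by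
    rw [mem_product, mem_Io, mem_Io] at hp
    omega
  have hRX : R ≤ X := by
    have : (R : ℝ) ≤ X := by linarith [pow_pos hy0 30]
    exact_mod_cast this
  simp only [hn]
  rw [← sum_product', ← sum_filter, ← sum_fiberwise_of_maps_to (t := range (Nat.log 2 X + 1))
    (g := fun p : ℤ × ℤ => Nat.log 2 (max p.1.natAbs p.2.natAbs)) fun p hp =>
      mem_range.2 (Nat.lt_succ_of_le (Nat.log_mono_right ((hm p (mem_filter.1 hp).1).trans hRX)))]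
  refine (sum_le_card_nsmul _ _ (243 ^ 2 * (64 + 4 * 243 ^ 2) * (C * Δ ^ 6) ^ 2 * lam ^ 2)
    fun j _ => ?_).trans ?_
  swap
  · rw [card_range, nsmul_eq_mul, Nat.cast_succ]
    exact (mul_le_mul_of_nonneg_right (DivB_log hD le_rfl) (by positivity)).trans_eq (by ring)
  set F := ((Io R ×ˢ Io R).filter fun p : ℤ × ℤ => lam < ‖KK M₁ p.1‖ * ‖KK M₂ p.2‖ ∧
    y ^ 8 ≤ max |(p.1 : ℝ)| |(p.2 : ℝ)|).filter
      fun p : ℤ × ℤ => Nat.log 2 (max p.1.natAbs p.2.natAbs) = j with hF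
  have key : ∀ p ∈ F, p ∈ Io R ×ˢ Io R ∧ lam < ‖KK M₁ p.1‖ * ‖KK M₂ p.2‖ ∧
      y ^ 8 ≤ max |(p.1 : ℝ)| |(p.2 : ℝ)| ∧ 2 ^ j ≤ max p.1.natAbs p.2.natAbs ∧
      max p.1.natAbs p.2.natAbs < 2 * 2 ^ j := fun p hp => by
    rw [hF, mem_filter, mem_filter] at hp
    obtain ⟨⟨p1, p2, p3⟩, rfl⟩ := hp
    refine ⟨p1, p2, p3, Nat.pow_log_le_self 2 fun e => ?_, ?_⟩
    · rw [← hc, e, Nat.cast_zero] at p3
      exact absurd (pow_pos hy0 8) (not_lt.2 p3)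
    · rw [← pow_succ']
      exact Nat.lt_pow_succ_log_self (by norm_num) _
  rcases F.eq_empty_or_nonempty with e | ⟨p₀, hp₀⟩
  · rw [e, sum_empty]
    positivity
  obtain ⟨q1, -, q3, q4, q5⟩ := key p₀ hp₀
  obtain ⟨k, k1, k5, k2, k3⟩ := choose_Far4 (P := (2 ^ j : ℕ)) hy
    (by rw [← hc] at q3; exact q3.trans (by exact_mod_cast q5.le))
    (le_trans (by exact_mod_cast q4.trans (hm p₀ q1)) hR)
  have hA := h y Δ M₁ X k (2 * 2 ^ j) hy m1 m2 hX hD k1 k5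
  have hB := h y Δ M₂ X k (2 * 2 ^ j) hy m3 m4 hX hD k1 k5
  rw [Nat.cast_mul (α := ℝ), Nat.cast_ofNat] at hA hB
  refine piece_Far3 (fun ρ => ‖KK M₁ ρ‖) (fun ρ => ‖KK M₂ ρ‖) (fun _ => norm_nonneg _)
    (fun _ => norm_nonneg _) _ F k _ _ _ _ lam _ k1 (by positivity) (by positivity) (by positivity)
    hl0 ?_ ?_ k2 k3 hA hB fun p hp => ?_
  · rw [← pow_mul, ← pow_add]
  · have e : ((y ^ k) ^ 5) ^ 2 * (y ^ k) ^ 6 = (y ^ 8) ^ (2 * k) := by ring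
    rw [e]
    exact pow_le_pow_left₀ (by positivity) hl _
  · obtain ⟨-, p2, -, p4, p5⟩ := key p hp
    refine ⟨?_, p2, ?_⟩
    · rw [mem_product, mem_Icc, mem_Icc]
      omega
    · have p6 : ((2 ^ j : ℕ) : ℝ) ≤ max |(p.1 : ℝ)| |(p.2 : ℝ)| := by
        rw [← hc]
        exact_mod_cast p4
      have := abs_nonneg (p.1 : ℝ)
      have := abs_nonneg (p.2 : ℝ)
      exact p6.trans (max_le (by linarith) (by linarith))

end Pool.Agent.MP_2a1f0e_nt.GM4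

end

section

set_option autoImplicit false

open Finset

namespace Pool.Agent.MP_2a1f0e_nt.GM4

open GM GM2 GM3

lemma len_Gam4 {a b κ σ z₀ z₁ : ℝ} (hl : Line a b κ σ z₀ z₁) (ρ₁ ρ₂ : ℝ) :
    ‖Gam κ σ z₀ z₁ ρ₁ ρ₂‖ ≤ 6 * a := by
  obtain ⟨a0, a1, -, -, -, -, hz, h⟩ := hl
  have h0 := (h z₀ ⟨le_rfl, hz⟩).1.1
  have h1 := (h z₁ ⟨hz, le_rfl⟩).1.2
  have : ‖Gam κ σ z₀ z₁ ρ₁ ρ₂‖ ≤ 1 * |z₁ - z₀| :=
    intervalIntegral.norm_integral_le_of_norm_le_const fun z _ => by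
      rw [norm_mul, norm_pw, norm_pw, mul_one]
  rw [one_mul, abs_of_nonneg (by linarith)] at this
  linarith

lemma two_Gam4 (h : VdcStmt) {a b κ σ z₀ z₁ : ℝ} (hl : Line a b κ σ z₀ z₁) (ρ₁ ρ₂ : ℝ) :
    ‖Gam κ σ z₀ z₁ ρ₁ ρ₂‖ ^ 2 * |ρ₂| ≤ 36 * 44 ^ 2 * 432 * (a * b) := by
  rcases eq_or_ne ρ₂ 0 with rfl | r0
  · rw [abs_zero, mul_zero]
    exact mul_nonneg (by norm_num) (mul_pos hl.1 hl.2.2.1).le
  have hr : 0 < |ρ₂| := abs_pos.2 r0
  have hl' := hl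
  obtain ⟨a0, a1, b0, b1, hσ, hκ, hz, hb⟩ := hl'
  have p0 := (hl.pos ⟨le_rfl, hz⟩).1
  have p1 := (hl.pos ⟨hz, le_rfl⟩).1
  have hlog : Real.log z₀ ≤ Real.log z₁ := Real.log_le_log p0 hz
  have hm : ∀ x ∈ Set.Icc (Real.log z₀) (Real.log z₁), Real.exp x ∈ Set.Icc z₀ z₁ := fun x hx =>
    ⟨(Real.log_le_iff_le_exp p0).1 hx.1, (Real.le_log_iff_exp_le p1).1 hx.2⟩
  have hw : ∀ x ∈ Set.Icc (Real.log z₀) (Real.log z₁), κ + σ * Real.exp x ≠ 0 := fun x hx =>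
    (hl.pos (hm x hx)).2.ne'
  obtain ⟨ε, hε, he⟩ : ∃ ε : ℝ, Sg ε ∧ ε * -(ρ₂ * σ * κ) = |ρ₂| * |κ| := by
    have e : |-(ρ₂ * σ * κ)| = |ρ₂| * |κ| := by
      rw [abs_neg, abs_mul, abs_mul]
      rcases hσ with rfl | rfl <;> simp
    rcases le_total 0 (-(ρ₂ * σ * κ)) with h | h
    · exact ⟨1, Or.inl rfl, by rw [one_mul, ← e, abs_of_nonneg h]⟩
    · exact ⟨-1, Or.inr rfl, by rw [← e, abs_of_nonpos h]; ring⟩
  set K : ℝ := |ρ₂| * a / (432 * b ^ 2) with hK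
  have K0 : 0 < K := by positivity
  have hd : ∀ x, HasDerivAt (fun x => κ + σ * Real.exp x) (σ * Real.exp x) x := fun x =>
    ((Real.hasDerivAt_exp x).const_mul σ).const_add κ
  have key := h (fun x => ρ₁ * x - ρ₂ * Real.log (κ + σ * Real.exp x))
    (fun x => ρ₁ - ρ₂ * (σ * Real.exp x / (κ + σ * Real.exp x)))
    (fun x => -(ρ₂ * σ * κ) * Real.exp x / (κ + σ * Real.exp x) ^ 2)
    (fun x => ((Real.exp x : ℝ) : ℂ)) (fun x => ((Real.exp x : ℝ) : ℂ)) (6 * a) (√K) ε _ _ hlog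
    (Real.sqrt_pos.2 K0) hε
    (fun x hx => by
      have := ((hasDerivAt_id x).const_mul ρ₁).sub (((hd x).log (hw x hx)).const_mul ρ₂)
      rw [mul_one] at this
      exact this)
    (fun x hx => by
      have := ((((Real.hasDerivAt_exp x).const_mul σ).div (hd x) (hw x hx)).const_mul
        ρ₂).const_sub ρ₁
      refine this.congr_deriv ?_
      have := hw x hx
      field_simp
      ring)
    (ContinuousOn.div (by fun_prop) (by fun_prop) fun x hx => pow_ne_zero 2 (hw x hx))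
    (fun x _ => (Real.hasDerivAt_exp x).ofReal_comp)
    (Complex.continuous_ofReal.comp Real.continuous_exp).continuousOn
    (fun x hx => by
      rw [Complex.norm_real, Real.norm_eq_abs, abs_of_pos (Real.exp_pos x)]
      exact (hb _ (hm x hx)).1.2)
    (fun x hx => by
      rw [Complex.norm_real, Real.norm_eq_abs, abs_of_pos (Real.exp_pos x)]
      exact (hb _ (hm x hx)).1.2)
    (fun x hx => by
      obtain ⟨⟨u1, -⟩, -, u2⟩ := hb _ (hm x hx)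
      have w0 := (hl.pos (hm x hx)).2
      rw [Real.sq_sqrt K0.le, ← mul_div_assoc, ← mul_assoc, he, hK,
        div_le_div_iff₀ (by positivity) (by positivity)]
      have v1 : (κ + σ * Real.exp x) ^ 2 ≤ (6 * b) ^ 2 := pow_le_pow_left₀ w0.le u2 2
      have v2 : 1 / 2 * (a / 6) ≤ |κ| * Real.exp x :=
        mul_le_mul hκ u1 (by positivity) (abs_nonneg _)
      calc |ρ₂| * a * (κ + σ * Real.exp x) ^ 2 ≤ |ρ₂| * a * (6 * b) ^ 2 := by gcongr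
        _ = |ρ₂| * (1 / 2 * (a / 6)) * (432 * b ^ 2) := by ring
        _ ≤ |ρ₂| * (|κ| * Real.exp x) * (432 * b ^ 2) := by gcongr
        _ = _ := by ring)
  rw [← subst_Gam hl] at key
  have hlen : Real.log z₁ - Real.log z₀ ≤ 35 := by
    rw [← Real.log_div p1.ne' p0.ne']
    have := Real.log_le_sub_one_of_pos (div_pos p1 p0)
    have h2 : z₁ / z₀ ≤ 36 := by
      rw [div_le_iff₀ p0]
      linarith [(hb z₀ ⟨le_rfl, hz⟩).1.1, (hb z₁ ⟨hz, le_rfl⟩).1.2]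
    linarith
  have k2 : ‖Gam κ σ z₀ z₁ ρ₁ ρ₂‖ ≤ 6 * a * 44 / √K := by
    refine key.trans ?_
    have := Real.pi_le_four
    gcongr
    linarith
  have k3 : ‖Gam κ σ z₀ z₁ ρ₁ ρ₂‖ ^ 2 ≤ (6 * a * 44) ^ 2 / K := by
    have := pow_le_pow_left₀ (norm_nonneg _) k2 2
    rwa [div_pow, Real.sq_sqrt K0.le] at this
  have k4 : (6 * a * 44) ^ 2 / K * |ρ₂| = 36 * 44 ^ 2 * 432 * (a * b ^ 2) := by
    rw [hK]
    field_simp
    ring
  have k5 : a * b ^ 2 ≤ a * b := by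
    rw [sq, ← mul_assoc]
    exact mul_le_of_le_one_right (mul_pos a0 b0).le b1
  calc _ ≤ (6 * a * 44) ^ 2 / K * |ρ₂| := by gcongr
    _ ≤ _ := by rw [k4]; linarith

theorem gam4_stmt (h : VdcStmt) : Gam4Stmt := by
  refine ⟨36 + 2 * (36 * 44 ^ 2 * 432), by norm_num, fun a b κ σ z₀ z₁ hl ρ₁ ρ₂ => ?_⟩
  have h2 := two_Gam4 h hl ρ₁ ρ₂
  have h3 := len_Gam4 hl ρ₁ ρ₂
  obtain ⟨κ', w₀, w₁, hl', e⟩ := swap_Gam hl ρ₁ ρ₂
  have h1 := two_Gam4 h hl' (-ρ₂) (-ρ₁)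
  have h4 := len_Gam4 hl' (-ρ₂) (-ρ₁)
  rw [← e] at h4
  rw [← e, abs_neg, mul_comm b] at h1
  have h0 := mul_le_mul h3 h4 (norm_nonneg _) (by linarith [hl.1])
  rw [mul_add, mul_add, mul_one]
  linarith

lemma cv_Gam4 {a b κ σ z₀ z₁ : ℝ} (hL : Line a b κ σ z₀ z₁) (D : Finset ℤ) (c : ℤ → ℂ) :
    ∫ z in z₀..z₁, ‖∑ ρ ∈ D, c ρ * pw z ρ‖ ^ 2 ≤ 4 * Real.pi * (6 * a) * N2 D c ∧
    ∫ z in z₀..z₁, ‖∑ ρ ∈ D, c ρ * pw (κ + σ * z) (-(ρ : ℝ))‖ ^ 2 ≤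
      4 * Real.pi * (6 * b) * N2 D c := by
  have hp := fun z (hz : z ∈ Set.Icc z₀ z₁) => hL.pos hz
  obtain ⟨a0, a1, b0, b1, hσ, hκ, hz, hm⟩ := hL
  have m0 := hm z₀ ⟨le_rfl, hz⟩
  have m1 := hm z₁ ⟨hz, le_rfl⟩
  have l1 := log_CV a0 m0.1 m1.1
  have l2 := log_CV a0 m1.1 m0.1
  have l3 := log_CV b0 m0.2 m1.2
  have l4 := log_CV b0 m1.2 m0.2
  have hw : ∀ z, HasDerivAt (fun z => κ + σ * z) σ z := fun z => by
    simpa using ((hasDerivAt_id z).const_mul σ).const_add κ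
  have cw : ContinuousOn (fun z => κ + σ * z) (Set.Icc z₀ z₁) := by fun_prop
  refine ⟨?_, ?_⟩
  · refine sub_CV D c (ε := 1) hz (fun z h => Real.hasDerivAt_log (hp z h).1.ne')
      (continuousOn_id.inv₀ fun z h => (hp z h).1.ne') abs_one.le (by positivity) (fun z h => ?_)
      (abs_le.2 ⟨by linarith, by linarith⟩)
    rw [one_mul, ← div_eq_mul_inv, one_le_div (hp z h).1]
    linarith [(hm z h).1.2]
  · have := sub_CV D c (ε := -σ) (m := 6 * b) hz (fun z h => ((hw z).log (hp z h).2.ne').fun_neg)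
      (continuousOn_const.div cw fun z h => (hp z h).2.ne').neg
      (by rcases hσ with rfl | rfl <;> simp) (by positivity) (fun z h => by
        have e : σ * σ = 1 := by rcases hσ with rfl | rfl <;> simp
        rw [neg_mul_neg, ← mul_div_assoc, e, mul_one_div, one_le_div (hp z h).2]
        linarith [(hm z h).2.2]) (abs_le.2 ⟨by linarith, by linarith⟩)
    refine le_of_eq_of_le (intervalIntegral.integral_congr fun z _ => ?_) this
    simp only [P_CV, pw, Complex.ofReal_neg, mul_neg, neg_mul]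

theorem gl4_stmt : GL4Stmt := by
  refine ⟨24 * Real.pi, by positivity, fun a b κ σ z₀ z₁ hL D u v => ?_⟩
  have hz := hL.2.2.2.2.2.2.1
  have c1 : ∀ ρ : ℝ, ContinuousOn (fun z => pw z ρ) (Set.Icc z₀ z₁) := fun ρ =>
    (continuousOn_pw ρ).mono fun z hz => (hL.pos hz).1
  have c2 : ∀ ρ : ℝ, ContinuousOn (fun z => pw (κ + σ * z) ρ) (Set.Icc z₀ z₁) := fun ρ =>
    (continuousOn_pw ρ).comp (by fun_prop) fun z hz => (hL.pos hz).2
  have c3 : ∀ ρ₁ ρ₂ : ℤ, ContinuousOn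
      (fun z => u ρ₁ * pw z ρ₁ * (v ρ₂ * pw (κ + σ * z) (-(ρ₂ : ℝ)))) (Set.Icc z₀ z₁) :=
    fun _ _ => (continuousOn_const.mul (c1 _)).mul (continuousOn_const.mul (c2 _))
  have e : Bil D u v (fun ρ₁ ρ₂ => Gam κ σ z₀ z₁ ρ₁ ρ₂) = ∫ z in z₀..z₁,
      (∑ ρ ∈ D, u ρ * pw z ρ) * ∑ ρ ∈ D, v ρ * pw (κ + σ * z) (-(ρ : ℝ)) := by
    simp only [sum_mul_sum]
    rw [intervalIntegral.integral_finsetSum fun ρ _ =>
      (continuousOn_finsetSum _ fun _ _ => c3 _ _).intervalIntegrable_of_Icc hz]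
    refine sum_congr rfl fun ρ₁ _ => ?_
    rw [intervalIntegral.integral_finsetSum fun ρ _ => (c3 _ _).intervalIntegrable_of_Icc hz]
    refine sum_congr rfl fun ρ₂ _ => ?_
    simp only [Gam]
    rw [← intervalIntegral.integral_const_mul]
    exact intervalIntegral.integral_congr fun z _ => mul_mul_mul_comm _ _ _ _
  rw [e]
  refine (intervalIntegral.norm_integral_le_integral_norm hz).trans ?_
  simp only [norm_mul]
  refine (cs_CV hz (continuousOn_finsetSum _ fun _ _ => continuousOn_const.mul (c1 _)).norm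
    (continuousOn_finsetSum _ fun _ _ => continuousOn_const.mul (c2 _)).norm
    (cv_Gam4 hL D u).1 (cv_Gam4 hL D v).2).trans_eq ?_
  have p0 : 0 ≤ 24 * Real.pi := by positivity
  rw [show 4 * Real.pi * (6 * a) * N2 D u = 24 * Real.pi * (a * N2 D u) by ring,
    show 4 * Real.pi * (6 * b) * N2 D v = 24 * Real.pi * (b * N2 D v) by ring,
    Real.sqrt_mul p0, Real.sqrt_mul p0, mul_mul_mul_comm, Real.mul_self_sqrt p0,
    Real.sqrt_mul hL.1.le, Real.sqrt_mul hL.1.le, Real.sqrt_mul hL.2.2.1.le]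
  ring

end Pool.Agent.MP_2a1f0e_nt.GM4

end

section

set_option autoImplicit false

open Finset

namespace Pool.Agent.MP_2a1f0e_nt.GM4

open GM GM2 GM3

lemma col_Htp {ι : Type} (s : Finset ι) (k : ι → ℤ) (a : ι → ℂ) (R : ℕ) (U : ℝ → ℂ)
    (hk : ∀ i ∈ s, k i ∈ Io R) (h : ∀ x : ℝ, 0 < x → U x = ∑ i ∈ s, a i * pw x (k i)) :
    ∃ d : ℤ → ℂ, TP R U d := by
  refine ⟨fun ρ => ∑ i ∈ s with k i = ρ, a i, fun x hx => ?_⟩
  rw [h x hx, ← sum_fiberwise_of_maps_to hk]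
  refine sum_congr rfl fun ρ _ => ?_
  rw [sum_mul]
  exact sum_congr rfl fun i hi => by rw [(mem_filter.1 hi).2]

theorem tpm_stmt : TPmStmt := by
  intro R R' U U' c c' h h'
  refine col_Htp (Io R ×ˢ Io R') (fun p => p.1 + p.2) (fun p => c p.1 * c' p.2) _ _
    (fun p hp => ?_) fun x hx => ?_
  · simp only [mem_product, mem_Io] at hp ⊢
    push_cast
    omega
  · rw [h x hx, h' x hx, sum_mul_sum, sum_product]
    refine sum_congr rfl fun a _ => sum_congr rfl fun b _ => ?_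
    push_cast
    rw [pw_add]
    ring

lemma orth_Htp (k : ℤ) :
    ∫ θ in (-Real.pi)..Real.pi, Complex.exp (Complex.I * (k : ℂ) * (θ : ℂ)) =
      if k = 0 then (2 * Real.pi : ℂ) else 0 := by
  split_ifs with h
  · subst h
    simp [two_mul]
  · rw [integral_exp_mul_complex (mul_ne_zero Complex.I_ne_zero (Int.cast_ne_zero.2 h))]
    have e : Complex.I * (k : ℂ) * ((Real.pi : ℝ) : ℂ) =
        Complex.I * (k : ℂ) * ((-Real.pi : ℝ) : ℂ) + k * (2 * Real.pi * Complex.I) := by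
      push_cast
      ring
    rw [e, Complex.exp_add, Complex.exp_int_mul_two_pi_mul_I, mul_one, sub_self, zero_div]

lemma coef_Htp (D : Finset ℤ) (c : ℤ → ℂ) {t : ℤ} (k : ℤ → ℤ) (ht : t ∈ D)
    (hk : ∀ u, k u = 0 ↔ u = t) :
    ∫ θ in (-Real.pi)..Real.pi, ∑ u ∈ D, c u * Complex.exp (Complex.I * (k u : ℂ) * (θ : ℂ)) =
      2 * Real.pi * c t := by
  rw [intervalIntegral.integral_finsetSum fun u _ =>
    Continuous.intervalIntegrable (by fun_prop) _ _, sum_eq_single_of_mem t ht]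
  · rw [intervalIntegral.integral_const_mul, orth_Htp, if_pos ((hk t).2 rfl), mul_comm]
  · intro u _ hu
    rw [intervalIntegral.integral_const_mul, orth_Htp, if_neg fun e => hu ((hk u).1 e), mul_zero]

theorem tpp_stmt : TPpStmt := by
  intro R U c h
  refine ⟨?_, fun ρ hρ => ?_⟩
  · have e : mo (fun x => ‖U x‖ ^ 2) = ∫ θ in (-Real.pi)..Real.pi, P_CV (Io R) c θ := by
      unfold mo P_CV
      simp only [h _ (Real.exp_pos _), pw_exp]
    rw [e]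
    apply Complex.ofReal_injective
    rw [← intervalIntegral.integral_ofReal, N2]
    simp only [sq_CV]
    rw [intervalIntegral.integral_finsetSum fun t _ =>
      Continuous.intervalIntegrable (by fun_prop) _ _, sum_congr rfl fun t ht =>
        coef_Htp (Io R) (fun u => c t * (starRingEnd ℂ) (c u)) (fun u => t - u) ht
          fun u => by omega]
    push_cast
    rw [mul_sum]
    exact sum_congr rfl fun t _ => by rw [Complex.mul_conj']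
  · rw [← coef_Htp (Io R) c (fun u => u - ρ) hρ fun u => by omega]
    refine intervalIntegral.integral_congr fun θ _ => ?_
    simp only [h _ (Real.exp_pos _), pw_exp, sum_mul]
    refine sum_congr rfl fun u _ => ?_
    rw [mul_assoc (c u), ← Complex.exp_add]
    congr 2
    push_cast
    ring

theorem htp_stmt : HtpStmt := by
  intro L ν S hS1
  refine ⟨per_hS L ν hS1, col_Htp (S ×ˢ Io L ×ˢ Io L) (fun p => p.2.1 - p.2.2)
    (fun p => (ν p.2.1 : ℂ) * ν p.2.2 * pw p.1 ((p.2.1 : ℝ) - p.2.2)) _ _ (fun p hp => ?_)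
    fun x hx => ?_, fun D x hx => ?_⟩
  · simp only [mem_product, mem_Io] at hp ⊢
    push_cast
    omega
  · unfold hS ph
    rw [Complex.ofReal_sum, sum_product]
    refine sum_congr rfl fun n hn => ?_
    have h0 : (n : ℝ) ≠ 0 := by exact_mod_cast (Nat.one_le_iff_ne_zero.1 (hS1 n hn))
    rw [Complex.ofReal_pow, ← Complex.mul_conj', FT, map_sum, sum_mul_sum, sum_product]
    refine sum_congr rfl fun a _ => sum_congr rfl fun b _ => ?_
    rw [map_mul, Complex.conj_ofReal, mul_mul_mul_comm, ← pw_sub, pw_mul hx.ne' h0]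
    push_cast
    ring
  · unfold cv hS
    simp only [mul_sum]
    rw [intervalIntegral.integral_finsetSum
      (f := fun (n : ℕ) t => kc D t * ph L ν (x * Real.exp (-t) * n) ^ 2) fun n hn =>
      Continuous.intervalIntegrable ((continuous_kc D).mul ((((per_ph L ν).scale (c := (n : ℝ))
        (by exact_mod_cast hS1 n hn)).pow 2).cont_mul hx)) _ _]
    refine sum_congr rfl fun n _ => ?_
    simp only [mul_right_comm x]

end Pool.Agent.MP_2a1f0e_nt.GM4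

end

section

set_option autoImplicit false

open Finset

namespace Pool.Agent.MP_2a1f0e_nt.GM4

open GM GM2 GM3

lemma inn_I4 (L : ℕ) (ν : ℤ → ℝ) {S : Finset ℕ} {γ : ℕ → ℂ} (hγ : ∀ n ∈ S, ‖γ n‖ ≤ 1) (z w : ℝ)
    (n₁ n₂ : ℕ) : ‖Inn (Io L) ν S γ z w n₁ n₂‖ ^ 2 ≤ hS L ν S (z / n₁) * hS L ν S (w / n₂) := by
  refine le_trans (pow_le_pow_left₀ (norm_nonneg _) ?_ 2) (sum_mul_sq_le_sq_mul_sq S _ _)
  refine (norm_sum_le _ _).trans (sum_le_sum fun n hn => ?_)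
  have e1 : z * n / n₁ = z / n₁ * n := by ring
  have e2 : (n₂ : ℝ) / (w * n) = (w / n₂ * n)⁻¹ := by
    rw [div_mul_eq_mul_div, inv_div]
  rw [norm_mul, norm_mul, e1, e2, norm_FT_inv, mul_assoc]
  exact mul_le_of_le_one_left (mul_nonneg (norm_nonneg _) (norm_nonneg _)) (hγ n hn)

lemma row_I4 {L M₃ M : ℕ} {ν : ℤ → ℝ} {S : Finset ℕ} {K F : ℝ} {χ : ℝ → ℝ} (hM : 1 ≤ M)
    (hS3 : S.card ≤ M₃) (hF : ∀ v, ph L ν v ≤ F) (h : Wg L ν S (K / M) χ) {x : ℝ} (hx : 0 < x) :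
    M * (χ x * hS L ν S x) ^ 2 ≤ K * (M₃ * F ^ 2) := by
  have h1 := (h.2 x hx).2.2
  have h0 := hS_nonneg L ν S x
  have hM' : (0 : ℝ) < M := by exact_mod_cast hM
  have h2 : hS L ν S x ≤ M₃ * F ^ 2 := by
    refine (sum_le_card_nsmul S _ (F ^ 2) fun n _ =>
      pow_le_pow_left₀ (ph_nonneg _ _ _) (hF _) 2).trans ?_
    rw [nsmul_eq_mul]
    exact mul_le_mul_of_nonneg_right (by exact_mod_cast hS3) (sq_nonneg _)
  rw [le_div_iff₀ hM'] at h1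
  calc _ = χ x ^ 2 * hS L ν S x * M * hS L ν S x := by ring
    _ ≤ _ := mul_le_mul h1 h2 h0 (le_trans (by positivity) h1)

lemma am_I4 {a b c p q W : ℝ} (ha : 0 < a) (hb : 0 < b) (hac : a ≤ c) (hbc : b ≤ c)
    (h1 : a * p ^ 2 ≤ W) (h2 : b * q ^ 2 ≤ W) : p * q ≤ c * W / (a * b) := by
  have hW : 0 ≤ W := le_trans (by positivity) h1
  have hc : 0 < c := ha.trans_le hac
  rw [le_div_iff₀ (by positivity)]
  refine le_of_sq_le_sq (a := _) ?_ (by positivity)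
  calc _ = a * b * (a * p ^ 2 * (b * q ^ 2)) := by ring
    _ ≤ c * c * (W * W) := by gcongr
    _ = _ := by ring

lemma top_I4 {L M₁ M₂ M₃ : ℕ} {ν : ℤ → ℝ} {S₁ S₂ S₃ : Finset ℕ} {K F : ℝ} {χ₁ χ₂ : ℝ → ℝ}
    {γ : ℕ → ℂ} (d1 : Dy M₁ S₁) (d2 : Dy M₂ S₂) (d3 : Dy M₃ S₃) (l1 : M₁ ≤ M₃) (l2 : M₂ ≤ M₃)
    (hγ : ∀ n ∈ S₃, ‖γ n‖ ≤ 1) (hF : ∀ v, ph L ν v ≤ F) (hK : 0 ≤ K)
    (w1 : Wg L ν S₃ (K / M₁) χ₁) (w2 : Wg L ν S₃ (K / M₂) χ₂) {z w : ℝ} (hz : 0 < z)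
    (hw : 0 < w) : Sq2 L ν S₁ S₂ S₃ γ χ₁ χ₂ z w ≤ M₃ * (K * (M₃ * F ^ 2)) := by
  have a1 : (0 : ℝ) < M₁ := by exact_mod_cast d1.1
  have a2 : (0 : ℝ) < M₂ := by exact_mod_cast d2.1
  have c1 : (S₁.card : ℝ) ≤ M₁ := by exact_mod_cast d1.card_le
  have c2 : (S₂.card : ℝ) ≤ M₂ := by exact_mod_cast d2.card_le
  calc _ ≤ ∑ n₁ ∈ S₁, ∑ n₂ ∈ S₂, M₃ * (K * (M₃ * F ^ 2)) / (M₁ * M₂) := by
        refine sum_le_sum fun n₁ h1 => sum_le_sum fun n₂ h2 => ?_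
        have x1 := div_pos hz (Dy.pos d1 h1)
        have x2 := div_pos hw (Dy.pos d2 h2)
        refine le_trans ?_ (am_I4 a1 a2 (by exact_mod_cast l1) (by exact_mod_cast l2)
          (row_I4 d1.1 d3.card_le hF w1 x1) (row_I4 d2.1 d3.card_le hF w2 x2))
        rw [mul_mul_mul_comm]
        exact mul_le_mul_of_nonneg_left (inn_I4 L ν hγ z w n₁ n₂)
          (mul_pos (w1.2 _ x1).1 (w2.2 _ x2).1).le
    _ = S₁.card * (S₂.card * (M₃ * (K * (M₃ * F ^ 2)) / (M₁ * M₂))) := by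
        simp only [sum_const, nsmul_eq_mul]
    _ ≤ M₁ * (M₂ * (M₃ * (K * (M₃ * F ^ 2)) / (M₁ * M₂))) := by gcongr
    _ = _ := by field_simp

lemma seg_I4 {a b c k X Δ Q : ℝ} (ha : 0 < a) (hb : 0 < b) (hac : a ≤ c) (hbc : b ≤ c)
    (hk : 1 ≤ k) (hX : 0 < X) (hΔ : 1 ≤ Δ) (hQ : 0 ≤ Q) :
    Δ * √(a / c * (b / c)) * (Q * (√(k * (c ^ 2 * X / a) * (c * X)) *
      √(k * (c ^ 2 * X / b) * (c * X))) + a * b * (Δ * Q * X ^ 2)) ≤
      2 * k * Δ ^ 2 * Q * (c ^ 2 * X ^ 2) := by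
  have hc : 0 < c := ha.trans_le hac
  have e1 : √(a / c * (b / c)) * (√(k * (c ^ 2 * X / a) * (c * X)) *
      √(k * (c ^ 2 * X / b) * (c * X))) = k * (c ^ 2 * X ^ 2) := by
    rw [← Real.sqrt_mul (by positivity), ← Real.sqrt_mul (by positivity),
      Real.sqrt_eq_iff_mul_self_eq (by positivity) (by positivity)]
    field_simp
  have e2 : √(a / c * (b / c)) ≤ 1 := Real.sqrt_le_one.2
    (mul_le_one₀ ((div_le_one hc).2 hac) (by positivity) ((div_le_one hc).2 hbc))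
  calc _ = Δ * Q * (√(a / c * (b / c)) * (√(k * (c ^ 2 * X / a) * (c * X)) *
      √(k * (c ^ 2 * X / b) * (c * X)))) + Δ ^ 2 * Q * X ^ 2 * (√(a / c * (b / c)) * (a * b)) := by
        ring
    _ ≤ Δ ^ 2 * Q * (k * (c ^ 2 * X ^ 2)) + Δ ^ 2 * Q * X ^ 2 * (k * (c * c)) := by
        rw [e1]
        gcongr
        · nlinarith
        · exact e2.trans hk
    _ = _ := by ring

lemma end_I4 {a b c k X Δ m t B N : ℝ} (ha : 0 < a) (hb : 0 < b) (hac : a ≤ c) (hbc : b ≤ c)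
    (hk : 1 ≤ k) (hX : 0 < X) (hΔ : 1 ≤ Δ) (ht : 1 ≤ t) (hN : 0 < N) (hm : c ≤ m)
    (h : m * t ^ 2 * B ^ 2 ≤ Δ * N * X) :
    4 * (2 * k * Δ ^ 2 * (m ^ 2 / t ^ 2) * (c ^ 2 * X ^ 2)) / (N * c) +
      144 * (a / c * (b / c)) * (c * (k * (c ^ 2 * X) * (c * (Δ * m * B) ^ 2))) / (N * c) ^ 2 ≤
      152 * k * Δ ^ 3 * (m ^ 2 / t ^ 2 * (c * X ^ 2 / N)) := by
  have hc : 0 < c := ha.trans_le hac
  have e2 : a / c * (b / c) ≤ 1 :=
    mul_le_one₀ ((div_le_one hc).2 hac) (by positivity) ((div_le_one hc).2 hbc)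
  have e3 : c * t ^ 2 * B ^ 2 ≤ Δ * N * X := le_trans (by gcongr) h
  calc _ = 8 * k * Δ ^ 2 * (m ^ 2 / t ^ 2 * (c * X ^ 2 / N)) * 1 +
        144 * k * Δ ^ 2 * (m ^ 2 / t ^ 2 * (c * X / N ^ 2)) *
          (a / c * (b / c) * (c * t ^ 2 * B ^ 2)) := by
        field_simp
        ring
    _ ≤ 8 * k * Δ ^ 2 * (m ^ 2 / t ^ 2 * (c * X ^ 2 / N)) * Δ +
        144 * k * Δ ^ 2 * (m ^ 2 / t ^ 2 * (c * X / N ^ 2)) * (1 * (Δ * N * X)) := by gcongr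
    _ = _ := by
        field_simp
        ring

theorem i4_stmt (hS : ShearStmt) (hE : Exp4Stmt) (hG : GY4Stmt) : I4Stmt := by
  refine ⟨152, by norm_num, ?_⟩
  intro N L M₁ M₂ M₃ S₁ S₂ S₃ e₁ e₂ e₃ m t Δ B X k ν γ χ₁ χ₂ bk hm dat bb gh hγ hk w1 w2
  obtain ⟨d1, d2, d3, l1, l2, s1, s2, s3⟩ := bk
  obtain ⟨hN, -, ht, -, hΔ, -, hX, hν, -, -, hF, hB, -⟩ := dat
  have a1 : (0 : ℝ) < M₁ := by exact_mod_cast d1.1
  have a2 : (0 : ℝ) < M₂ := by exact_mod_cast d2.1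
  have a3 : (0 : ℝ) < M₃ := by exact_mod_cast d3.1
  have a0 : (0 : ℝ) < N := by exact_mod_cast hN
  have b1 : (M₁ : ℝ) ≤ M₃ := by exact_mod_cast l1
  have b2 : (M₂ : ℝ) ≤ M₃ := by exact_mod_cast l2
  have c3 : (S₃.card : ℝ) ≤ M₃ := by exact_mod_cast d3.card_le
  obtain ⟨u, u1, u2, u3⟩ := hG L ν S₃ _ X χ₁ d3.one_le w1 hν
  obtain ⟨v, v1, v2, v3⟩ := hG L ν S₃ _ X χ₂ d3.one_le w2 hν
  have g := gh S₃ fun n hn => ⟨d3.one_le n hn, by
    have : (n : ℝ) ≤ 2 * M₃ := by exact_mod_cast (mem_Ico.1 (d3.2 hn)).2.le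
    linarith⟩
  have cq := cq_Sq2 d1 d2 d3 L ν γ w1.cont w2.cont
  refine le_trans ?_ (end_I4 a1 a2 b1 b2 hk hX hΔ ht a0 hm hB)
  rw [BX_congr d1.1 d2.1 d3.1 (G := fun z w =>
    if 0 < z ∧ 0 < w then Sq2 L ν S₁ S₂ S₃ γ χ₁ χ₂ z w else 0) fun z w hz hw =>
      (if_pos ⟨hz, hw⟩).symm]
  refine hS _ _ _ _ _ e₁ e₂ e₃ _ (by positivity) ((div_le_one a3).2 b1) (by positivity)
    ((div_le_one a3).2 b2) (by positivity) s1 s2 s3 (by positivity)
    (ContinuousOn.congr cq fun p hp => if_pos hp) (fun z w => ?_) (fun z w => ?_)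
    fun κ σ z₀ z₁ ln => ?_
  · split_ifs with h
    · exact sum_nonneg fun n₁ h1 => sum_nonneg fun n₂ h2 => mul_nonneg (mul_pos
        (w1.2 _ (div_pos h.1 (Dy.pos d1 h1))).1 (w2.2 _ (div_pos h.2 (Dy.pos d2 h2))).1).le
        (sq_nonneg _)
    · exact le_rfl
  · split_ifs with h
    · rw [← mul_div_assoc] at w1 w2
      exact top_I4 d1 d2 d3 l1 l2 hγ hF (by positivity) w1 w2 h.1 h.2
    · positivity
  · have e : ∫ z in z₀..z₁, (if 0 < z ∧ 0 < κ + σ * z then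
        Sq2 L ν S₁ S₂ S₃ γ χ₁ χ₂ z (κ + σ * z) else 0) =
        ∫ z in z₀..z₁, Sq2 L ν S₁ S₂ S₃ γ χ₁ χ₂ z (κ + σ * z) := by
      refine intervalIntegral.integral_congr fun z hz => ?_
      rw [Set.uIcc_of_le ln.2.2.2.2.2.2.1] at hz
      exact if_pos (ln.pos hz)
    rw [e]
    refine (hE _ _ κ σ z₀ z₁ L (6 * L) M₁ M₂ S₁ S₂ S₃ γ ν χ₁ χ₂ u v ln d1 d2 d3.one_le hγ
      (fun x hx => (w1.2 x hx).1.le) (fun x hx => (w2.2 x hx).1.le) w1.cont w2.cont u1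
      v1).trans ?_
    refine le_trans (bb M₁ M₂ _ _ κ σ z₀ z₁ _ _ _ _ u v d1.1 (b1.trans hm) d2.1 (b2.trans hm) ln
      (by positivity) (u2.trans ?_) (v2.trans ?_) (fun ρ h => (u3 ρ h).trans g)
      fun ρ h => (v3 ρ h).trans g) (seg_I4 a1 a2 b1 b2 hk hX hΔ (by positivity))
    · gcongr
    · gcongr

end Pool.Agent.MP_2a1f0e_nt.GM4

end

section

set_option autoImplicit false
open Finset
namespace Pool.Agent.MP_2a1f0e_nt.GM4
open GM GM2 GM3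

lemma small_Int4 {y V T T₁ : ℝ} (hy : 1 ≤ y) (hV : 0 < V) (h4 : V ^ 2 ≤ y ^ 34)
    (h1 : T₁ ≤ y ^ 26) (h2 : y ^ 26 ≤ 2 * T₁) (h3 : T₁ ≤ T) :
    (T / T₁ + 1) * ((y ^ 21) ^ 2 + √T₁ * (y ^ 21) ^ 3 / V ^ 2) ≤ 8 * (T * y ^ 50 / V ^ 2) := by
  have hy0 : 0 < y := by linarith
  have h6 : 0 < y ^ 26 := by positivity
  have hT₁ : 0 < T₁ := by linarith
  have a1 : √T₁ ≤ y ^ 13 := Real.sqrt_le_iff.2 ⟨by positivity, by rw [← pow_mul]; exact h1⟩
  have a2 : (y ^ 21) ^ 2 ≤ y ^ 76 / V ^ 2 := by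
    rw [le_div_iff₀ (by positivity)]
    calc (y ^ 21) ^ 2 * V ^ 2 ≤ (y ^ 21) ^ 2 * y ^ 34 := by gcongr
      _ = y ^ 76 := by rw [← pow_mul, ← pow_add]
  have a3 : √T₁ * (y ^ 21) ^ 3 / V ^ 2 ≤ y ^ 76 / V ^ 2 := by
    calc √T₁ * (y ^ 21) ^ 3 / V ^ 2 ≤ y ^ 13 * (y ^ 21) ^ 3 / V ^ 2 := by gcongr
      _ = y ^ 76 / V ^ 2 := by rw [← pow_mul, ← pow_add]
  have hT : 0 < T := by linarith
  have a4 : T / T₁ + 1 ≤ 4 * T / y ^ 26 := by
    have b1 : 1 ≤ T / T₁ := (one_le_div hT₁).2 h3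
    have b2 : T / T₁ ≤ 2 * T / y ^ 26 := by
      rw [div_le_div_iff₀ hT₁ h6]
      calc T * y ^ 26 ≤ T * (2 * T₁) := by gcongr
        _ = 2 * T * T₁ := by ring
    have b3 : 4 * T / y ^ 26 = 2 * (2 * T / y ^ 26) := by ring
    linarith
  have e : y ^ 76 = y ^ 26 * y ^ 50 := by rw [← pow_add]
  calc (T / T₁ + 1) * ((y ^ 21) ^ 2 + √T₁ * (y ^ 21) ^ 3 / V ^ 2)
      ≤ (4 * T / y ^ 26) * (y ^ 76 / V ^ 2 + y ^ 76 / V ^ 2) := by gcongr
    _ = 8 * (T * y ^ 50 / V ^ 2) := by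
      rw [e]
      generalize y ^ 26 = p at h6
      generalize y ^ 50 = q
      field_simp
      ring

lemma quart_Int4 {y V : ℝ} (hy : 1 ≤ y) (hV : 0 < V) (h4 : y ^ 34 ≤ V ^ 2) :
    (y ^ 21) ^ 4 / V ^ 4 ≤ y ^ 50 / V ^ 2 := by
  have hy0 : 0 < y := by linarith
  rw [div_le_div_iff₀ (by positivity) (by positivity)]
  have e : (y ^ 21) ^ 4 = y ^ 50 * y ^ 34 := by rw [← pow_mul, ← pow_add]
  calc (y ^ 21) ^ 4 * V ^ 2 = y ^ 50 * V ^ 2 * y ^ 34 := by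
        rw [e]; exact mul_right_comm _ _ _
    _ ≤ y ^ 50 * V ^ 2 * V ^ 2 := by gcongr
    _ = y ^ 50 * V ^ 4 := by rw [mul_assoc, ← pow_add]

lemma long_Int4 {y V T : ℝ} (hy : 1 ≤ y) (hV : 0 < V) (h4 : y ^ 34 ≤ V ^ 2)
    (h5 : V ≤ 2 * y ^ 21) (hT : (y ^ 21) ^ 2 ≤ T) :
    (T / (y ^ 21) ^ 2 + 1) * ((y ^ 21) ^ 2 + (y ^ 21) ^ 2 * (y ^ 21) ^ 4 / V ^ 4) ≤
      10 * (T * y ^ 50 / V ^ 2) := by
  have hy0 : 0 < y := by linarith
  have hT0 : 0 < T := lt_of_lt_of_le (by positivity) hT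
  have a1 : T / (y ^ 21) ^ 2 + 1 ≤ 2 * (T / (y ^ 21) ^ 2) := by
    have : 1 ≤ T / (y ^ 21) ^ 2 := (one_le_div (by positivity)).2 hT
    linarith
  have a2 := quart_Int4 hy hV h4
  have a3 : 1 ≤ 4 * (y ^ 50 / V ^ 2) := by
    rw [← mul_div_assoc, one_le_div (by positivity)]
    calc V ^ 2 ≤ (2 * y ^ 21) ^ 2 := by gcongr
      _ = 4 * y ^ 42 := by rw [mul_pow, ← pow_mul]; norm_num
      _ ≤ 4 * y ^ 50 := by gcongr; norm_num
  have hp : 0 < y ^ 21 := by positivity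
  have hq : 0 < y ^ 50 := by positivity
  generalize y ^ 21 = p at *
  generalize y ^ 50 = q at *
  calc (T / p ^ 2 + 1) * (p ^ 2 + p ^ 2 * p ^ 4 / V ^ 4)
      ≤ 2 * (T / p ^ 2) * (p ^ 2 + p ^ 2 * p ^ 4 / V ^ 4) := by gcongr
    _ = 2 * T * (1 + p ^ 4 / V ^ 4) := by field_simp
    _ ≤ 2 * T * (4 * (q / V ^ 2) + q / V ^ 2) := by gcongr
    _ = 10 * (T * q / V ^ 2) := by ring

theorem int4_stmt (h5 : B5Stmt) (h2 : B2Stmt) (hB : BlkStmt) : Int4Stmt := by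
  intro ε hε
  obtain ⟨K₁, hK₁, h1⟩ := h5 ε hε
  obtain ⟨K₂, hK₂, h2⟩ := h2 ε hε
  refine ⟨8 * K₁ + 10 * K₂, by positivity, fun N T hN hT b hb V hV => ?_⟩
  have hN' : (1 : ℝ) ≤ N := by exact_mod_cast hN
  have hN0 : (0 : ℝ) < N := by linarith
  obtain ⟨y, hy, hNy, h12⟩ :
      ∃ y : ℝ, 1 ≤ y ∧ (N : ℝ) = y ^ 21 ∧ (N : ℝ) ^ (50 / 21 : ℝ) = y ^ 50 := by
    refine ⟨(N : ℝ) ^ (1 / 21 : ℝ), Real.one_le_rpow hN' (by norm_num), ?_, ?_⟩
    · rw [← Real.rpow_natCast, ← Real.rpow_mul hN0.le]; norm_num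
    · rw [← Real.rpow_natCast, ← Real.rpow_mul hN0.le]; norm_num
  have hy0 : 0 < y := by linarith
  have hP : 0 < (N : ℝ) ^ ε := Real.rpow_pos_of_pos hN0 ε
  rw [h12, add_div]
  have hG : 0 ≤ (T : ℝ) * y ^ 50 / V ^ 2 := by positivity
  have hA : 0 ≤ √(T : ℝ) * (N : ℝ) ^ 3 / V ^ 2 := by positivity
  have hN2 : 0 ≤ (N : ℝ) ^ 2 := by positivity
  have key : ∀ k Z : ℝ, 0 ≤ k → k ≤ 8 * K₁ + 10 * K₂ →
      Z ≤ (N : ℝ) ^ 2 + (√T * (N : ℝ) ^ 3 / V ^ 2 + T * y ^ 50 / V ^ 2) →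
      k * (N : ℝ) ^ ε * Z ≤ (8 * K₁ + 10 * K₂) * (N : ℝ) ^ ε *
        ((N : ℝ) ^ 2 + (√T * (N : ℝ) ^ 3 / V ^ 2 + T * y ^ 50 / V ^ 2)) := by
    intro k Z hk hk' hZ
    refine (mul_le_mul_of_nonneg_left hZ (by positivity)).trans ?_
    gcongr
  by_cases c1 : T ^ 21 ≤ N ^ 26
  · exact (h1 N T hN hT c1 b hb V hV).trans (key _ _ hK₁.le (by linarith) (by linarith))
  have hT6 : y ^ 26 < T := by
    refine lt_of_pow_lt_pow_left₀ 21 (Nat.cast_nonneg T) ?_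
    have : ((N : ℝ)) ^ 26 < (T : ℝ) ^ 21 := by exact_mod_cast not_le.1 c1
    rw [hNy] at this
    calc (y ^ 26) ^ 21 = (y ^ 21) ^ 26 := by rw [← pow_mul, ← pow_mul]
      _ < _ := this
  rcases le_total (V ^ 2) (y ^ 34) with c2 | c2
  · have a1 : N ≤ ⌊y ^ 26⌋₊ := Nat.le_floor (by rw [hNy]; gcongr; norm_num)
    have a2 : (⌊y ^ 26⌋₊ : ℝ) ≤ y ^ 26 := Nat.floor_le (by positivity)
    have a3 : ⌊y ^ 26⌋₊ ^ 21 ≤ N ^ 26 := by
      have : (⌊y ^ 26⌋₊ : ℝ) ^ 21 ≤ (N : ℝ) ^ 26 := by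
        calc (⌊y ^ 26⌋₊ : ℝ) ^ 21 ≤ (y ^ 26) ^ 21 := by gcongr
          _ = (N : ℝ) ^ 26 := by rw [hNy, ← pow_mul, ← pow_mul]
      exact_mod_cast this
    have a4 : y ^ 26 ≤ 2 * (⌊y ^ 26⌋₊ : ℝ) := by
      have b1 := Nat.lt_floor_add_one (y ^ 26)
      have b2 : (1 : ℝ) ≤ ⌊y ^ 26⌋₊ := by exact_mod_cast hN.trans a1
      linarith
    refine (hB N T _ V _ hN (hN.trans a1) (fun b hb => h1 N _ hN a1 a3 b hb V hV) b hb).trans ?_
    refine le_trans ?_ (key (8 * K₁) (T * y ^ 50 / V ^ 2) (by positivity) (by linarith)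
      (by linarith))
    have := mul_le_mul_of_nonneg_left (small_Int4 hy hV c2 a2 a4 (a2.trans hT6.le))
      (mul_pos hK₁ hP).le
    rw [← hNy] at this
    linarith
  by_cases c3 : T ≤ N ^ 2
  · refine (h2 N T hN hT c3 b hb V hV).trans (key _ _ hK₂.le (by linarith) ?_)
    have := mul_le_mul_of_nonneg_left (quart_Int4 hy hV c2) (Nat.cast_nonneg (α := ℝ) T)
    rw [← hNy, ← mul_div_assoc, ← mul_div_assoc] at this
    linarith
  by_cases c4 : V ≤ 2 * y ^ 21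
  · have a1 : N ≤ N ^ 2 := Nat.le_self_pow two_ne_zero N
    refine (hB N T _ V _ hN (hN.trans a1)
      (fun b hb => h2 N _ hN a1 le_rfl b hb V hV) b hb).trans ?_
    refine le_trans ?_ (key (10 * K₂) (T * y ^ 50 / V ^ 2) (by positivity) (by linarith)
      (by linarith))
    have a2 : (y ^ 21) ^ 2 ≤ (T : ℝ) := by
      rw [← hNy]; exact_mod_cast (not_le.1 c3).le
    have := mul_le_mul_of_nonneg_left (long_Int4 hy hV c2 c4 a2) (mul_pos hK₂ hP).le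
    rw [← hNy] at this
    push_cast
    linarith
  · have : Mass N b (Icc 0 (T : ℤ)) V = 0 := by
      unfold Mass
      rw [filter_false_of_mem, sum_empty]
      intro t _ h
      have := norm_DP_le N b hb t
      rw [← hNy] at c4
      exact c4 (by linarith)
    rw [this]
    positivity

theorem final4_stmt (hI : Int4Stmt) (hT : TayStmt) : Final4Stmt := by
  intro ε hε
  obtain ⟨K, hK, h⟩ := hI ε hε
  refine ⟨36 * 36 * K, fun N T V hN hNT hV b hb W hW hsep hWV => ?_⟩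
  have hT0 : 0 ≤ T := (Nat.cast_nonneg N).trans hNT
  have h1 : (⌊T⌋₊ : ℝ) ≤ T := Nat.floor_le hT0
  have h2 := hT N ⌊T⌋₊ V _ hN hV
    (fun b hb => h N ⌊T⌋₊ hN (Nat.le_floor hNT) b hb (V / 6) (by positivity)) b hb W
    (fun t ht => ⟨(hW t ht).1, (hW t ht).2.trans_lt (Nat.lt_floor_add_one T)⟩) hsep hWV
  have h3 : (W.card : ℝ) * V ^ 2 ≤ ∑ t ∈ W, ‖DP N b t‖ ^ 2 := by
    rw [← nsmul_eq_mul]
    exact card_nsmul_le_sum W _ _ fun t ht => pow_le_pow_left₀ hV.le (hWV t ht) 2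
  have h4 : √(⌊T⌋₊ : ℝ) * (N : ℝ) ^ 3 + ⌊T⌋₊ * (N : ℝ) ^ (50 / 21 : ℝ) ≤
      √T * (N : ℝ) ^ 3 + T * (N : ℝ) ^ (50 / 21 : ℝ) := by gcongr
  have h5 : (N : ℝ) ^ 2 +
      (√(⌊T⌋₊ : ℝ) * (N : ℝ) ^ 3 + ⌊T⌋₊ * (N : ℝ) ^ (50 / 21 : ℝ)) / (V / 6) ^ 2
      ≤ 36 * ((N : ℝ) ^ 2 + (√T * (N : ℝ) ^ 3 + T * (N : ℝ) ^ (50 / 21 : ℝ)) / V ^ 2) := by
    have e : (V / 6) ^ 2 = V ^ 2 / 36 := by ring
    rw [e, div_div_eq_mul_div, mul_div_right_comm]
    have := div_le_div_of_nonneg_right h4 (sq_nonneg V)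
    nlinarith [sq_nonneg (N : ℝ)]
  have h6 : 0 ≤ K * (N : ℝ) ^ ε := by positivity
  have h7 := (h3.trans h2).trans
    (mul_le_mul_of_nonneg_left (mul_le_mul_of_nonneg_left h5 h6) (by norm_num))
  rw [← le_div_iff₀ (by positivity)] at h7
  refine h7.trans_eq ?_
  field_simp
  ring

end Pool.Agent.MP_2a1f0e_nt.GM4

end

section

set_option autoImplicit false

open Finset

namespace Pool.Agent.MP_2a1f0e_nt.GM4

open GM GM2 GM3

lemma period_IWs {F : ℝ → ℝ} (h : Function.Periodic F (2 * Real.pi)) (s : ℝ) :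
    ∫ θ in s..(s + 2 * Real.pi), F θ = ∫ θ in (-Real.pi)..Real.pi, F θ := by
  have := h.intervalIntegral_add_eq s (-Real.pi)
  rwa [show -Real.pi + 2 * Real.pi = Real.pi by ring] at this

lemma three_IWs {g : ℝ → ℝ} (h : Per g) :
    ∫ θ in (-(3 * Real.pi))..(3 * Real.pi), g (Real.exp θ) = 3 * mo g := by
  have a1 := period_IWs h.periodic (-(3 * Real.pi))
  have a2 := period_IWs h.periodic Real.pi
  rw [show -(3 * Real.pi) + 2 * Real.pi = -Real.pi by ring] at a1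
  rw [show Real.pi + 2 * Real.pi = 3 * Real.pi by ring] at a2
  rw [← intervalIntegral.integral_add_adjacent_intervals (b := -Real.pi)
      (h.cont.intervalIntegrable _ _) (h.cont.intervalIntegrable _ _),
    ← intervalIntegral.integral_add_adjacent_intervals (a := -Real.pi) (b := Real.pi)
      (h.cont.intervalIntegrable _ _) (h.cont.intervalIntegrable _ _), a1, a2, mo]
  ring

lemma exp_pow_IWs (k : ℕ) : (2.7 : ℝ) ^ k ≤ Real.exp k := by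
  have h := Real.exp_one_gt_d9
  have : Real.exp k = Real.exp 1 ^ k := by rw [← Real.exp_nat_mul, mul_one]
  rw [this]
  exact pow_le_pow_left₀ (by norm_num) (by linarith) k

lemma iw_le_IWs {g : ℝ → ℝ} (h : Per g) : IW g ≤ 435 * mo g := by
  have hpi := Real.pi_gt_three
  have e9 : (145 : ℝ) ≤ Real.exp 9 := by
    have := exp_pow_IWs 9
    push_cast at this
    linarith [show (145 : ℝ) ≤ 2.7 ^ 9 by norm_num]
  obtain ⟨α, hα⟩ : ∃ α : ℝ, α = Real.log (1 / 144) := ⟨_, rfl⟩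
  obtain ⟨β, hβ⟩ : ∃ β : ℝ, β = Real.log (1 / 144 + 144) := ⟨_, rfl⟩
  have eα : Real.exp α = 1 / 144 := by rw [hα, Real.exp_log (by norm_num)]
  have eβ : Real.exp β = 1 / 144 + 144 := by rw [hβ, Real.exp_log (by norm_num)]
  have hαβ : α ≤ β := by
    rw [← Real.exp_le_exp, eα, eβ]
    norm_num
  have hβ9 : β ≤ 9 := by
    rw [← Real.exp_le_exp, eβ]
    linarith
  have hα9 : -9 ≤ α := by
    rw [← Real.exp_le_exp, eα, Real.exp_neg, one_div]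
    exact inv_anti₀ (by norm_num) (by linarith)
  have k1 : IW g = ∫ θ in α..β, g (Real.exp θ) * Real.exp θ := by
    have := intervalIntegral.integral_comp_mul_deriv' (a := α) (b := β) (f := Real.exp)
      (f' := Real.exp) (g := g) (fun x _ => Real.hasDerivAt_exp x)
      Real.continuous_exp.continuousOn
      (h.1.mono fun y hy => by
        obtain ⟨x, -, rfl⟩ := hy
        exact Real.exp_pos x)
    rw [eα, eβ] at this
    exact this.symm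
  have k2 : ∫ θ in α..β, g (Real.exp θ) * Real.exp θ ≤ ∫ θ in α..β, 145 * g (Real.exp θ) := by
    refine intervalIntegral.integral_mono_on hαβ
      ((h.cont.mul Real.continuous_exp).intervalIntegrable _ _)
      ((continuous_const.mul h.cont).intervalIntegrable _ _) fun θ hθ => ?_
    have := Real.exp_le_exp.2 hθ.2
    rw [mul_comm]
    exact mul_le_mul_of_nonneg_right (by linarith) (h.2.1 _)
  have k3 : ∫ θ in α..β, g (Real.exp θ) ≤
      ∫ θ in (-(3 * Real.pi))..(3 * Real.pi), g (Real.exp θ) :=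
    intervalIntegral.integral_mono_interval (by linarith) hαβ (by linarith)
      (Filter.Eventually.of_forall fun θ => h.2.1 _) (h.cont.intervalIntegrable _ _)
  rw [three_IWs h] at k3
  rw [intervalIntegral.integral_const_mul] at k2
  linarith

theorem iw_stmt : IWStmt := by
  refine ⟨435, by norm_num, fun g h => ⟨iw_le_IWs h, ?_⟩⟩
  have := iw_le_IWs h.inv
  rwa [mo_inv] at this

theorem mo_stmt : MoStmt := by
  intro L ν
  refine ⟨per_ph L ν, ?_⟩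
  have hp := (per_ph L ν).pow 2
  have e : ∀ θ : ℝ, ph L ν (Real.exp θ) ^ 2 = P_CV (Io L) (fun t => (ν t : ℂ)) θ := fun θ => by
    simp only [ph, FT, P_CV, pw_exp]
  have a1 := period_IWs hp.periodic (-Real.pi)
  have a2 := period_IWs hp.periodic (-Real.pi + 2 * Real.pi)
  have a3 := pars_CV (Io L) (fun t => (ν t : ℂ)) (-Real.pi)
  simp only [← e] at a3
  rw [← intervalIntegral.integral_add_adjacent_intervals (b := -Real.pi + 2 * Real.pi)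
    (hp.cont.intervalIntegrable _ _) (hp.cont.intervalIntegrable _ _),
    show -Real.pi + 4 * Real.pi = -Real.pi + 2 * Real.pi + 2 * Real.pi by ring, a1, a2] at a3
  have a4 : N2 (Io L) (fun t => (ν t : ℂ)) = ∑ a ∈ Io L, ν a ^ 2 :=
    sum_congr rfl fun a _ => by rw [Complex.norm_real, Real.norm_eq_abs, sq_abs]
  rw [a4] at a3
  unfold mo
  linarith

lemma gs_le_IWs (L : ℕ) {x : ℝ} (h1 : 1 / 8 ≤ x) (h2 : x ≤ 7 / 8) : ‖gs L x‖ ≤ 4 := by
  have k1 : 1 / 2 ≤ ‖ex x - 1‖ := by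
    rcases le_total x (1 / 2) with h | h
    · have := norm_ex_sub_one (x := x) (by rw [abs_of_pos (by linarith)]; exact h)
      rw [abs_of_pos (by linarith)] at this
      linarith
    · have := norm_ex_sub_one (x := x + ((-1 : ℤ) : ℝ)) (by
        push_cast
        rw [abs_of_neg (by linarith)]
        linarith)
      rw [ex_add, ex_int, mul_one] at this
      push_cast at this
      rw [abs_of_neg (by linarith)] at this
      linarith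
  have k2 : ‖gs L x‖ * ‖ex x - 1‖ ≤ 2 := by
    rw [← norm_mul, gs_mul]
    refine (norm_sub_le _ _).trans ?_
    rw [norm_ex, norm_one]
    norm_num
  have := mul_le_mul_of_nonneg_left k1 (norm_nonneg (gs L x))
  linarith

lemma theta_IWs {N a a' : ℕ} (hN : 1 ≤ N) (ha : a ∈ Icc N (2 * N)) (ha' : a' ∈ Icc N (2 * N))
    {v : ℝ} (hv : v ∈ Set.Icc (9 : ℝ) 24) :
    1 ≤ Real.log v + Real.log a - Real.log a' ∧ Real.log v + Real.log a - Real.log a' ≤ 4 := by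
  obtain ⟨h1, h2⟩ := mem_Icc.1 ha
  obtain ⟨h3, h4⟩ := mem_Icc.1 ha'
  have hN' : (1 : ℝ) ≤ N := by exact_mod_cast hN
  have h1' : (N : ℝ) ≤ a := by exact_mod_cast h1
  have h2' : (a : ℝ) ≤ 2 * N := by exact_mod_cast h2
  have h3' : (N : ℝ) ≤ a' := by exact_mod_cast h3
  have h4' : (a' : ℝ) ≤ 2 * N := by exact_mod_cast h4
  obtain ⟨hv1, hv2⟩ := hv
  have hvp : 0 < v := by linarith
  have hap : (0 : ℝ) < a := by linarith
  have hap' : (0 : ℝ) < a' := by linarith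
  have e4 : (48 : ℝ) ≤ Real.exp 4 := by
    have := exp_pow_IWs 4
    push_cast at this
    linarith [show (48 : ℝ) ≤ 2.7 ^ 4 by norm_num]
  have e1 := Real.exp_one_lt_d9
  have k1 : Real.log (v * a) ≤ Real.log (Real.exp 4 * a') :=
    Real.log_le_log (by positivity) (by nlinarith)
  have k2 : Real.log (Real.exp 1 * a') ≤ Real.log (v * a) :=
    Real.log_le_log (by positivity) (by nlinarith)
  rw [Real.log_mul hvp.ne' hap.ne', Real.log_mul (Real.exp_pos _).ne' hap'.ne', Real.log_exp]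
    at k1 k2
  constructor <;> linarith

theorem ptW_stmt : PtWStmt := by
  refine ⟨64, by norm_num, fun N L hN hL b hb v hv => ?_⟩
  have e := expand_Pt triang_stmt N L b 0 v
  simp only [zero_add] at e
  rw [e]
  have hL' : (1 : ℝ) ≤ L := by exact_mod_cast hL
  have hN' : (1 : ℝ) ≤ N := by exact_mod_cast hN
  have hpi := Real.pi_gt_three
  have hpi' := Real.pi_lt_four
  have key : ∀ a ∈ Icc N (2 * N), ∀ a' ∈ Icc N (2 * N),
      ‖(b a * pw (a : ℝ) ((0 : ℤ) : ℝ)) * (starRingEnd ℂ) (b a' * pw (a' : ℝ) ((0 : ℤ) : ℝ)) /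
        (L : ℂ) * ((‖gs L ((Real.log v + Real.log a - Real.log a') / (2 * Real.pi))‖ ^ 2 : ℝ) : ℂ)‖
        ≤ 16 := by
    intro a ha a' ha'
    obtain ⟨t1, t2⟩ := theta_IWs hN ha ha' hv
    have g1 := gs_le_IWs L (x := (Real.log v + Real.log a - Real.log a') / (2 * Real.pi))
      (by rw [le_div_iff₀ (by positivity)]; linarith)
      (by rw [div_le_iff₀ (by positivity)]; linarith)
    have g2 := pow_le_pow_left₀ (norm_nonneg _) g1 2
    rw [norm_mul, norm_div, norm_mul, Complex.norm_conj, norm_mul, norm_mul, norm_pw, norm_pw,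
      mul_one, mul_one, Complex.norm_natCast, Complex.norm_real, Real.norm_eq_abs,
      abs_of_nonneg (sq_nonneg _)]
    have g3 : ‖b a‖ * ‖b a'‖ / (L : ℝ) ≤ 1 := by
      rw [div_le_one (by positivity)]
      exact (mul_le_one₀ (hb a) (norm_nonneg _) (hb a')).trans hL'
    have g4 := mul_le_mul g3 g2 (sq_nonneg _) zero_le_one
    linarith
  have hc : ((Icc N (2 * N)).card : ℝ) ≤ 2 * N := by
    rw [Nat.card_Icc, show 2 * N + 1 - N = N + 1 by omega]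
    push_cast
    linarith
  refine (norm_sum_le _ _).trans ((sum_le_card_nsmul _ _ (2 * (N : ℝ) * 16) fun a ha =>
    (norm_sum_le _ _).trans ((sum_le_card_nsmul _ _ 16 (key a ha)).trans ?_)).trans ?_)
  · rw [nsmul_eq_mul]
    linarith
  · rw [nsmul_eq_mul]
    nlinarith

end Pool.Agent.MP_2a1f0e_nt.GM4

end

section

set_option autoImplicit false

open Finset

namespace Pool.Agent.MP_2a1f0e_nt.GM4

open GM GM2 GM3

lemma opt_J0 {x p q : ℝ} (hp : 0 ≤ p) (hq : 0 ≤ q)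
    (h : ∀ τ : ℝ, 0 < τ → x ≤ (τ * p + q / τ) / 2) : x ≤ √p * √q := by
  refine le_of_forall_pos_le_add fun ε hε => ?_
  have a0 := Real.sqrt_nonneg p
  have b0 := Real.sqrt_nonneg q
  have a2 := Real.mul_self_sqrt hp
  have b2 := Real.mul_self_sqrt hq
  generalize √p = a at *
  generalize √q = b at *
  subst a2 b2
  obtain ⟨δ, hδ, hd⟩ : ∃ δ : ℝ, 0 < δ ∧ δ * (a + b) ≤ ε := by
    refine ⟨ε / (a + b + 1), by positivity, ?_⟩
    rw [div_mul_eq_mul_div, div_le_iff₀ (by positivity)]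
    nlinarith
  have h1 := h ((b + δ) / (a + δ)) (by positivity)
  have h2 : (b + δ) / (a + δ) * (a * a) ≤ (b + δ) * a := by
    rw [div_mul_eq_mul_div, div_le_iff₀ (by positivity)]
    have : 0 ≤ (b + δ) * a * δ := by positivity
    nlinarith
  have h3 : b * b / ((b + δ) / (a + δ)) ≤ (a + δ) * b := by
    rw [div_div_eq_mul_div, div_le_iff₀ (by positivity)]
    have : 0 ≤ (a + δ) * b * δ := by positivity
    nlinarith
  nlinarith

theorem cs_stmt : CSStmt := by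
  intro N M₁ M₂ M₃ e₁ e₂ e₃ F G H K h1 h2 h3 hF hG hH hK h
  have hF' : CQ F := hF
  have hG' : CQ G := hG
  have hH' : CQ H := hH
  have hK' : CQ K := hK
  rw [← sub_le_iff_le_add]
  refine opt_J0 (BX_nonneg h1 h2 h3 fun z w hz hw => (h z w 1 hz hw one_pos).1)
    (BX_nonneg h1 h2 h3 fun z w hz hw => (h z w 1 hz hw one_pos).2.1) fun τ hτ => ?_
  have c1 : CQ fun z w => τ / 2 * G z w := (cq_const _).mul hG'
  have c2 : CQ fun z w => 1 / (2 * τ) * H z w := (cq_const _).mul hH'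
  have k := BX_mono (N := N) (e₁ := e₁) (e₂ := e₂) (e₃ := e₃) h1 h2 h3 hF' ((c1.add c2).add hK')
    fun z w hz hw => (h z w τ hz hw hτ).2.2.trans (le_of_eq (by field_simp))
  rw [BX_add h1 h2 h3 (c1.add c2) hK', BX_add h1 h2 h3 c1 c2, BX_const_mul, BX_const_mul] at k
  rw [sub_le_iff_le_add]
  refine k.trans (le_of_eq ?_)
  field_simp

lemma line_J0 {C a b κ σ z₀ z₁ X p q : ℝ} (hC : 0 < C) (hL : Line a b κ σ z₀ z₁) (L : ℕ)
    (ν : ℤ → ℝ) (hp : 0 < p) (hq : 0 < q) (hX : ∑ t ∈ Io L, ν t ^ 2 ≤ X)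
    (h : ∀ (D : Finset ℤ) (c : ℤ → ℂ),
      ∫ z in z₀..z₁, ‖∑ ρ ∈ D, c ρ * pw ((κ + σ * z) / z) ρ‖ ^ 2 ≤ C * (a * b) * N2 D c) :
    ∫ z in z₀..z₁, ph L ν ((κ + σ * z) / z * p / q) ^ 2 ≤ C * (a * b) * X := by
  have hz : z₀ ≤ z₁ := hL.2.2.2.2.2.2.1
  have ha : 0 < a := hL.1
  have hb : 0 < b := hL.2.2.1
  refine le_of_eq_of_le ?_ ((h (Io L) fun t => (ν t : ℂ) * pw (p / q) t).trans
    (mul_le_mul_of_nonneg_left (le_of_eq_of_le ?_ hX) (by positivity)))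
  · refine intervalIntegral.integral_congr fun z hz' => ?_
    rw [Set.uIcc_of_le hz] at hz'
    simp only [ph, FT]
    congr 2
    refine sum_congr rfl fun t _ => ?_
    rw [mul_div_assoc _ p, pw_mul (div_pos (hL.pos hz').2 (hL.pos hz').1).ne' (div_pos hp hq).ne']
    ring
  · exact sum_congr rfl fun t _ => by
      rw [norm_mul, norm_pw, mul_one, Complex.norm_real, Real.norm_eq_abs, sq_abs]

lemma dsum_J0 {M₁ M₂ : ℕ} {S₁ S₂ : Finset ℕ} (h1 : Dy M₁ S₁) (h2 : Dy M₂ S₂) {f : ℕ → ℕ → ℝ}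
    {Y : ℝ} (hY : 0 ≤ Y) (h : ∀ n₁ ∈ S₁, ∀ n₂ ∈ S₂, f n₁ n₂ ≤ Y) :
    ∑ n₁ ∈ S₁, ∑ n₂ ∈ S₂, f n₁ n₂ ≤ M₁ * M₂ * Y := by
  have c1 : (S₁.card : ℝ) ≤ M₁ := by exact_mod_cast h1.card_le
  have c2 : (S₂.card : ℝ) ≤ M₂ := by exact_mod_cast h2.card_le
  refine (sum_le_card_nsmul _ _ (M₂ * Y) fun n₁ a =>
    (sum_le_card_nsmul _ _ Y (h n₁ a)).trans ?_).trans ?_
  · rw [nsmul_eq_mul]
    exact mul_le_mul_of_nonneg_right c2 hY
  · rw [nsmul_eq_mul, mul_assoc]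
    exact mul_le_mul_of_nonneg_right c1 (by positivity)

theorem j0_stmt (hS : ShearStmt) (hC : CVStmt) : J0Stmt := by
  obtain ⟨C, hC0, hC⟩ := hC
  refine ⟨4 * C + 144, by positivity, fun N L M₁ M₂ M₃ S₁ S₂ S₃ e₁ e₂ e₃ A X ν hN hB hA hX => ?_⟩
  obtain ⟨o1, o2, o3⟩ := hB.one
  obtain ⟨d1, d2, -, l1, l2, s1, s2, s3⟩ := hB
  have hX0 : 0 ≤ X := (sum_nonneg fun _ _ => sq_nonneg _).trans hX
  have m1 : (0 : ℝ) < M₁ := by exact_mod_cast o1
  have m2 : (0 : ℝ) < M₂ := by exact_mod_cast o2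
  have m3 : (0 : ℝ) < M₃ := by exact_mod_cast o3
  have n0 : (0 : ℝ) < N := by exact_mod_cast hN
  have hP : Per fun v => min (ph L ν v) A ^ 2 := ((per_ph L ν).min hA).pow 2
  have hQ : Per fun v => ph L ν v ^ 2 := (per_ph L ν).pow 2
  have hm : ∀ v, 0 ≤ min (ph L ν v) A := fun v => le_min (ph_nonneg L ν v) hA
  have cq : CQ fun z w => ∑ n₁ ∈ S₁, ∑ n₂ ∈ S₂, min (ph L ν (w / z * n₁ / n₂)) A ^ 2 :=
    cq_sum _ fun _ a => cq_sum _ fun _ b => cq_u hP.1 (Dy.pos d1 a) (Dy.pos d2 b)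
  have key := hS ((M₁ : ℝ) / M₃) ((M₂ : ℝ) / M₃) ((N : ℝ) * M₃) (M₁ * M₂ * A ^ 2)
    (M₁ * M₂ * (C * ((M₁ : ℝ) / M₃ * ((M₂ : ℝ) / M₃)) * X)) e₁ e₂ e₃
    (fun z w => ∑ n₁ ∈ S₁, ∑ n₂ ∈ S₂, min (ph L ν (w / z * n₁ / n₂)) A ^ 2) (by positivity)
    ((div_le_one m3).2 (by exact_mod_cast l1)) (by positivity)
    ((div_le_one m3).2 (by exact_mod_cast l2)) (by positivity) s1 s2 s3 (by positivity) cq
    (fun z w => sum_nonneg fun _ _ => sum_nonneg fun _ _ => sq_nonneg _)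
    (fun z w => dsum_J0 d1 d2 (sq_nonneg _) fun _ _ _ _ =>
      pow_le_pow_left₀ (hm _) (min_le_right _ _) 2) fun κ σ z₀ z₁ hL => ?_
  · refine key.trans ?_
    have e1 : 4 * (M₁ * M₂ * (C * ((M₁ : ℝ) / M₃ * ((M₂ : ℝ) / M₃)) * X)) / ((N : ℝ) * M₃) =
        4 * C * (ab M₁ M₂ M₃ ^ 2 * (M₃ * X / N)) := by
      unfold ab
      field_simp
    have e2 : 144 * ((M₁ : ℝ) / M₃ * ((M₂ : ℝ) / M₃)) * (M₁ * M₂ * A ^ 2) / ((N : ℝ) * M₃) ^ 2 =
        144 * (ab M₁ M₂ M₃ ^ 2 * (A ^ 2 / (N : ℝ) ^ 2)) := by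
      unfold ab
      field_simp
    rw [e1, e2, mul_assoc (4 * C + 144), mul_add]
    have p1 : 0 ≤ ab M₁ M₂ M₃ ^ 2 * (M₃ * X / N) := by positivity
    have p2 : 0 ≤ ab M₁ M₂ M₃ ^ 2 * (A ^ 2 / (N : ℝ) ^ 2) := by positivity
    nlinarith [mul_nonneg hC0.le p2]
  · have hz : z₀ ≤ z₁ := hL.2.2.2.2.2.2.1
    have ci : ∀ {g : ℝ → ℝ}, Per g → ∀ n₁ ∈ S₁, ∀ n₂ ∈ S₂, IntervalIntegrable
        (fun z => g ((κ + σ * z) / z * n₁ / n₂)) MeasureTheory.volume z₀ z₁ := by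
      intro g hg n₁ a n₂ b
      refine ContinuousOn.intervalIntegrable_of_Icc hz (hg.1.comp ?_ fun p hp => ?_)
      · have cz : ContinuousOn (fun z : ℝ => z) (Set.Icc z₀ z₁) := continuousOn_id
        have cw : ContinuousOn (fun z : ℝ => κ + σ * z) (Set.Icc z₀ z₁) := by fun_prop
        exact ((cw.div cz fun p hp => (hL.pos hp).1.ne').mul continuousOn_const).div_const _
      · exact div_pos (mul_pos (div_pos (hL.pos hp).2 (hL.pos hp).1) (Dy.pos d1 a)) (Dy.pos d2 b)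
    rw [intervalIntegral.integral_finsetSum fun n₁ a => by
      have := IntervalIntegrable.sum S₂ fun n₂ b => ci hP n₁ a n₂ b
      rwa [Finset.sum_fn] at this]
    refine (sum_le_sum fun n₁ a => le_of_eq
      (intervalIntegral.integral_finsetSum fun n₂ b => ci hP n₁ a n₂ b)).trans
      (dsum_J0 d1 d2 (by positivity) fun n₁ a n₂ b => ?_)
    refine (intervalIntegral.integral_mono_on hz (ci hP n₁ a n₂ b) (ci hQ n₁ a n₂ b)
      fun z _ => pow_le_pow_left₀ (hm _) (min_le_left _ _) 2).trans ?_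
    exact line_J0 hC0 hL L ν (Dy.pos d1 a) (Dy.pos d2 b) hX fun D c => (hC _ _ _ _ _ _ hL D c).2.2

end Pool.Agent.MP_2a1f0e_nt.GM4

end

section

set_option autoImplicit false

open Finset

namespace Pool.Agent.MP_2a1f0e_nt.GM4

open GM GM2 GM3

lemma num1_J4 {P Q R α s r t x B Δ N C g₁ a₁ g₂ a₂ : ℝ} (hP : 0 < P) (hQ : 0 < Q) (hR : 0 < R)
    (hα : α = P * Q / R ^ 2) (hs : 0 ≤ s) (hr0 : 0 ≤ r) (hr : r * s ≤ Q) (hx : 0 < x) (ht : 0 ≤ t)
    (hB : 0 ≤ B) (hΔ : 1 ≤ Δ) (hN : 0 < N) (hC : 0 ≤ C) (b1 : 0 ≤ a₁) (b2 : 0 ≤ a₂)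
    (h1 : g₁ ≤ 9 * x ^ 2) (h2 : a₁ ≤ C * (9 * x ^ 2)) (h3 : g₂ ≤ s * (t * x) * (3 * x))
    (h4 : a₂ ≤ C * (6 * B * x)) :
    P / (R ^ 2 * x ^ 2) * (α / N * (Q * R * g₁ * a₁ + r * Δ * g₂ * a₂)) ≤
      81 * C * (Δ * α ^ 2 * ((R * x ^ 2 + t * x * B) / N)) := by
  have h0 : 0 < α := by
    rw [hα]
    positivity
  have hΔ0 : 0 ≤ Δ := by linarith
  calc _ ≤ P / (R ^ 2 * x ^ 2) * (α / N * (Q * R * (9 * x ^ 2) * (C * (9 * x ^ 2)) +
          r * Δ * (s * (t * x) * (3 * x)) * (C * (6 * B * x)))) := by gcongr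
    _ = C * α / N * (81 * (P * Q / R ^ 2) * 1 * (R * x ^ 2) +
          18 * (P * (r * s) / R ^ 2) * Δ * (t * x * B)) := by field_simp; ring
    _ ≤ C * α / N * (81 * (P * Q / R ^ 2) * Δ * (R * x ^ 2) +
          81 * (P * Q / R ^ 2) * Δ * (t * x * B)) := by gcongr; norm_num
    _ = _ := by rw [← hα]; ring

lemma num2_J4 {P R α s t x B Δ N C m b : ℝ} (hP : 0 < P) (hPR : P ≤ R) (h0 : 0 ≤ α)
    (hs : s ^ 2 = α) (hx : 0 < x) (ht : 0 ≤ t) (htm : t ^ 2 ≤ m)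
    (hB : 0 ≤ B) (hΔ : 1 ≤ Δ) (hN : 0 < N) (hC : 0 ≤ C) (b0 : 0 ≤ b) (hb : m * b ≤ C * (Δ * x ^ 2)) :
    P / (R ^ 2 * x ^ 2) * (s * (t * x)) ^ 2 * (α / N * (P * R * b)) ≤
      C * (Δ * α ^ 2 * ((R * x ^ 2 + t * x * B) / N)) := by
  have hR : 0 < R := hP.trans_le hPR
  have hΔ0 : 0 ≤ Δ := by linarith
  calc _ = α ^ 2 / N * ((P / R) ^ 2 * R * (t ^ 2 * b)) := by
        rw [mul_pow, hs]
        field_simp
    _ ≤ α ^ 2 / N * (1 ^ 2 * R * (C * (Δ * x ^ 2))) := by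
        have h1 := (mul_le_mul_of_nonneg_right htm b0).trans hb
        have h2 := (div_le_one hR).2 hPR
        gcongr α ^ 2 / N * (?_ ^ 2 * R * ?_)
    _ = C * (Δ * α ^ 2 * ((R * x ^ 2 + 0) / N)) := by ring
    _ ≤ _ := by gcongr; positivity

lemma num0_J4 {R α s t x B Δ N : ℝ} (hR : 1 ≤ R) (h1 : α ≤ 1) (hs : s ^ 2 = α) (hx : 0 < x)
    (ht : 0 ≤ t) (htN : t ^ 2 ≤ Δ * N) (hB : 0 ≤ B) (hΔ : 1 ≤ Δ) (hN : 0 < N) :
    α ^ 2 * (R * x ^ 2 / N + (s * (t * x)) ^ 2 / N ^ 2) ≤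
      2 * (Δ * α ^ 2 * ((R * x ^ 2 + t * x * B) / N)) := by
  have h0 : 0 ≤ α := hs ▸ sq_nonneg s
  have hΔ0 : 0 ≤ Δ := by linarith
  calc _ = α ^ 2 * (1 * (R * x ^ 2 / N) + α * t ^ 2 * (1 * x ^ 2) / N ^ 2) := by
        rw [mul_pow, hs]
        ring
    _ ≤ α ^ 2 * (Δ * (R * x ^ 2 / N) + 1 * (Δ * N) * (R * x ^ 2) / N ^ 2) := by gcongr
    _ = 2 * (Δ * α ^ 2 * ((R * x ^ 2 + 0) / N)) := by field_simp; ring
    _ ≤ _ := by gcongr; positivity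

lemma root_J4 {P Q R α : ℝ} (hP : 0 < P) (hQ : 0 < Q) (hPR : P ≤ R) (hα : α = P * Q / R ^ 2) :
    √(Q * R) * √α ≤ Q := by
  have hR : 0 < R := hP.trans_le hPR
  rw [← Real.sqrt_mul (by positivity), Real.sqrt_le_left hQ.le, hα]
  calc Q * R * (P * Q / R ^ 2) = P / R * Q ^ 2 := by field_simp
    _ ≤ 1 * Q ^ 2 := by gcongr; exact (div_le_one hR).2 hPR
    _ = _ := one_mul _

lemma sq_mo_J4 {g : ℝ → ℝ} (hg : Per g) {β μ y : ℝ} (hβ : ∀ v, 0 < v → g v ≤ β) (h0 : 0 ≤ β)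
    (hμ : mo g ≤ μ) (hy : 0 ≤ y) (h : β * μ ≤ y ^ 2) : √(mo fun v => g v ^ 2) ≤ y := by
  rw [Real.sqrt_le_left hy]
  refine (mo_mono (hg.pow 2) ((per_const h0).mul hg) fun v hv => ?_).trans ?_
  · rw [sq]
    exact mul_le_mul_of_nonneg_right (hβ v hv) (hg.2.1 v)
  · rw [mo_const_mul]
    exact (mul_le_mul_of_nonneg_left hμ h0).trans h

lemma cq_div_J4 {F : ℝ → ℝ → ℝ} (hF : CQ F) (c : ℝ) : CQ fun z w => F z w / c :=
  ContinuousOn.div_const hF c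

lemma pt_J4 (S : Finset ℕ) {g A H₁ H₂ : ℝ} {a b a' b' : ℕ → ℝ} (hg : g ≤ A)
    (h1 : 0 ≤ H₁) (h2 : 0 ≤ H₂) (hb : ∀ n, 0 ≤ b n) (hb' : ∀ n, 0 ≤ b' n) :
    g * (1 + (∑ n ∈ S, (a n + b n)) / H₁ + (∑ n ∈ S, (a' n + b' n)) / H₂) ≤
      g + H₁⁻¹ * ∑ n ∈ S, g * a n * 1 + H₁⁻¹ * A * ∑ n ∈ S, 1 * b n * 1 +
        H₂⁻¹ * ∑ n ∈ S, g * 1 * a' n + H₂⁻¹ * A * ∑ n ∈ S, 1 * 1 * b' n := by
  simp only [mul_one, one_mul, sum_add_distrib, ← mul_sum]
  have c1 := mul_le_mul_of_nonneg_right hg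
    (mul_nonneg (inv_nonneg.2 h1) (sum_nonneg fun n (_ : n ∈ S) => hb n))
  have c2 := mul_le_mul_of_nonneg_right hg
    (mul_nonneg (inv_nonneg.2 h2) (sum_nonneg fun n (_ : n ∈ S) => hb' n))
  rw [div_eq_inv_mul, div_eq_inv_mul]
  linarith

theorem j4_stmt (h0 : J0Stmt) (hB : BPStmt) (hC : CvStmt) (hH : HtpStmt) (hM : MoStmt) :
    J4Stmt := by
  obtain ⟨C0, p0, h0⟩ := h0
  obtain ⟨CB, pB, hB⟩ := hB
  obtain ⟨Cc, pC, hC⟩ := hC
  refine ⟨2 * C0 + 164 * CB * Cc, by positivity, ?_⟩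
  intro N L M₁ M₂ M₃ S₁ S₂ S₃ e₁ e₂ e₃ m t Δ B X ν hk hm hD hd
  obtain ⟨a1, a2, a3, a4, a5, a6, a7, a8, -, a10, -, -, a13⟩ := hD
  obtain ⟨m1, m2, m3⟩ := hk.one
  have k0 := h0 N L M₁ M₂ M₃ S₁ S₂ S₃ e₁ e₂ e₃ (√(ab M₁ M₂ M₃) * (t * √X)) X ν a1 hk
    (by positivity) a8
  have kB := fun g h => hB N M₁ M₂ M₃ S₁ S₂ S₃ e₁ e₂ e₃ Δ g h a1 hk hd
  obtain ⟨d1, d2, d3, l1, l2, -⟩ := hk
  obtain ⟨x, hx, rfl⟩ : ∃ x, 0 < x ∧ X = x ^ 2 :=
    ⟨√X, Real.sqrt_pos.2 a7, (Real.sq_sqrt a7.le).symm⟩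
  rw [Real.sqrt_sq hx.le] at k0 ⊢
  have r1 : (0 : ℝ) < M₁ := by exact_mod_cast m1
  have r2 : (0 : ℝ) < M₂ := by exact_mod_cast m2
  have r3 : (1 : ℝ) ≤ M₃ := by exact_mod_cast m3
  have r4 : (M₁ : ℝ) ≤ M₃ := by exact_mod_cast l1
  have r5 : (M₂ : ℝ) ≤ M₃ := by exact_mod_cast l2
  have rN : (0 : ℝ) < N := by exact_mod_cast a1
  have t0 : 0 ≤ t := by linarith
  have hα : ab M₁ M₂ M₃ = M₁ * M₂ / (M₃ : ℝ) ^ 2 := by
    rw [ab]
    ring
  have hα' : ab M₁ M₂ M₃ = M₂ * M₁ / (M₃ : ℝ) ^ 2 := by rw [hα, mul_comm]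
  have α0 := (ab_pos m1 m2 m3).le
  have α1 : ab M₁ M₂ M₃ ≤ 1 := by
    rw [hα, div_le_one (by positivity), sq]
    gcongr
  have hs := Real.sq_sqrt α0
  have s0 := Real.sqrt_nonneg (ab M₁ M₂ M₃)
  have q1 := root_J4 r1 r2 r4 hα
  have q2 := root_J4 r2 r1 r5 hα'
  generalize √(ab M₁ M₂ M₃) = s at *
  have A0 : 0 ≤ s * (t * x) := by positivity
  have B0 : 0 ≤ 4 * B ^ 2 := by positivity
  have pφ := (per_ph L ν).pow 2
  have mφ : mo (fun v => ph L ν v ^ 2) ≤ 9 * x ^ 2 := by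
    rw [(hM L ν).2]
    exact mul_le_mul (by linarith [Real.pi_lt_four]) a8 (sum_nonneg fun _ _ => sq_nonneg _)
      (by norm_num)
  have pg := ((per_ph L ν).min A0).pow 2
  have hg : ∀ v, min (ph L ν v) (s * (t * x)) ^ 2 ≤ (s * (t * x)) ^ 2 := fun v =>
    pow_le_pow_left₀ (le_min (ph_nonneg L ν v) A0) (min_le_right _ _) 2
  have mg : mo (fun v => min (ph L ν v) (s * (t * x)) ^ 2) ≤ 9 * x ^ 2 :=
    (mo_mono pg pφ fun v _ =>
      pow_le_pow_left₀ (le_min (ph_nonneg L ν v) A0) (min_le_left _ _) 2).trans mφ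
  have sg := sq_mo_J4 pg (fun v _ => hg v) (sq_nonneg _) mg (y := s * (t * x) * (3 * x))
    (by positivity) (le_of_eq (by ring))
  obtain ⟨pa, ma, ha⟩ := hC (2 * L) _ (pφ.min B0)
  obtain ⟨pb, mb, -⟩ := hC (2 * L) _ (pφ.max (4 * B ^ 2))
  have ma' := ma.trans (mul_le_mul_of_nonneg_left
    ((mo_mono (pφ.min B0) pφ fun v _ => min_le_left _ _).trans mφ) pC.le)
  have sa := sq_mo_J4 pa (ha _ fun v _ => min_le_right _ _) (by positivity) ma'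
    (y := Cc * (6 * B * x)) (by positivity) (le_of_eq (by ring))
  have mb' := (mul_le_mul_of_nonneg_left mb ((sq_nonneg t).trans a4)).trans
    ((mul_left_comm _ _ _).trans_le (mul_le_mul_of_nonneg_left a10 pC.le))
  obtain ⟨ph1, -, hcv⟩ := hH L ν S₃ d3.one_le
  have pc := (hC (2 * L) _ ph1).1
  have hsp : ∀ y : ℝ, 0 < y → cv (2 * L) (fun v => ph L ν v ^ 2) y =
      cv (2 * L) (fun v => min (ph L ν v ^ 2) (4 * B ^ 2)) y +
        cv (2 * L) (fun v => max (ph L ν v ^ 2 - 4 * B ^ 2) 0) y := fun y hy => by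
    rw [← cv_add _ (pφ.min B0) (pφ.max _) hy]
    congr 1
    funext v
    rcases le_total (ph L ν v ^ 2) (4 * B ^ 2) with h | h
    · rw [min_eq_left h, max_eq_right (sub_nonpos.2 h), add_zero]
    · rw [min_eq_right h, max_eq_left (sub_nonneg.2 h), add_sub_cancel]
  have hrow : ∀ (y : ℝ) (n : ℕ), 0 < y → (0 : ℝ) < n → cv (2 * L) (hS L ν S₃) (y / n) =
      ∑ k ∈ S₃, (cv (2 * L) (fun v => min (ph L ν v ^ 2) (4 * B ^ 2)) (y * k / n) +
        cv (2 * L) (fun v => max (ph L ν v ^ 2 - 4 * B ^ 2) 0) (y * k / n)) := fun y n hy hn => by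
    rw [hcv _ _ (div_pos hy hn)]
    refine sum_congr rfl fun k hk => ?_
    rw [div_mul_eq_mul_div, hsp _ (div_pos (mul_pos hy (Dy.pos d3 hk)) hn)]
  generalize cv (2 * L) (fun v => min (ph L ν v ^ 2) (4 * B ^ 2)) = ga at *
  generalize cv (2 * L) (fun v => max (ph L ν v ^ 2 - 4 * B ^ 2) 0) = gb at *
  have c0 : CQ fun z w => ∑ n₁ ∈ S₁, ∑ n₂ ∈ S₂,
      min (ph L ν (w / z * n₁ / n₂)) (s * (t * x)) ^ 2 :=
    cq_sum _ fun _ a => cq_sum _ fun _ b => cq_u pg.1 (Dy.pos d1 a) (Dy.pos d2 b)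
  have c1 := (cq_const ((M₃ : ℝ) ^ 2 * x ^ 2 / M₁)⁻¹).mul (cq_TB d1 d2 d3 pg pa per_one)
  have c2 := (cq_const (((M₃ : ℝ) ^ 2 * x ^ 2 / M₁)⁻¹ * (s * (t * x)) ^ 2)).mul
    (cq_TB d1 d2 d3 per_one pb per_one)
  have c3 := (cq_const ((M₃ : ℝ) ^ 2 * x ^ 2 / M₂)⁻¹).mul (cq_TB d1 d2 d3 pg per_one pa)
  have c4 := (cq_const (((M₃ : ℝ) ^ 2 * x ^ 2 / M₂)⁻¹ * (s * (t * x)) ^ 2)).mul
    (cq_TB d1 d2 d3 per_one per_one pb)
  refine (BX_mono m1 m2 m3 (cq_sum _ fun _ a => cq_sum _ fun _ b =>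
    (cq_u pg.1 (Dy.pos d1 a) (Dy.pos d2 b)).mul (((cq_const 1).add
      (cq_div_J4 (cq_z' pc.1 (Dy.pos d1 a)) _)).add
      (cq_div_J4 (cq_w' pc.1 (Dy.pos d2 b)) _)))
    ((((c0.add c1).add c2).add c3).add c4) fun z w hz hw => ?_).trans ?_
  · simp only [mul_sum S₁, mul_sum S₂, ← sum_add_distrib (s := S₁), ← sum_add_distrib (s := S₂)]
    refine sum_le_sum fun n₁ a => sum_le_sum fun n₂ b => ?_
    rw [hrow z n₁ hz (Dy.pos d1 a), hrow w n₂ hw (Dy.pos d2 b)]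
    exact pt_J4 S₃ (hg _) (by positivity) (by positivity) (fun _ => pb.2.1 _) fun _ => pb.2.1 _
  rw [BX_add m1 m2 m3 (((c0.add c1).add c2).add c3) c4, BX_add m1 m2 m3 ((c0.add c1).add c2) c3,
    BX_add m1 m2 m3 (c0.add c1) c2, BX_add m1 m2 m3 c0 c1, BX_const_mul, BX_const_mul,
    BX_const_mul, BX_const_mul, inv_div, inv_div]
  obtain ⟨-, k1, k3, -⟩ := kB _ _ pg pa
  obtain ⟨-, -, -, k2, k4⟩ := kB _ _ pg pb
  have n0 := mul_le_mul_of_nonneg_left (num0_J4 r3 α1 hs hx t0 a13 a6 a5 rN) p0.le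
  have n1 := mul_le_mul_of_nonneg_left (num1_J4 r1 r2 (by linarith) hα s0 (Real.sqrt_nonneg _) q1
    hx t0 a6 a5 rN pC.le pa.mo_nonneg (Real.sqrt_nonneg _) mg ma' sg sa) pB.le
  have n3 := mul_le_mul_of_nonneg_left (num1_J4 r2 r1 (by linarith) hα' s0 (Real.sqrt_nonneg _) q2
    hx t0 a6 a5 rN pC.le pa.mo_nonneg (Real.sqrt_nonneg _) mg ma' sg sa) pB.le
  have n2 := mul_le_mul_of_nonneg_left
    (num2_J4 r1 r4 α0 hs hx t0 a4 a6 a5 rN pC.le pb.mo_nonneg mb') pB.le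
  have n4 := mul_le_mul_of_nonneg_left
    (num2_J4 r2 r5 α0 hs hx t0 a4 a6 a5 rN pC.le pb.mo_nonneg mb') pB.le
  have j1 := mul_le_mul_of_nonneg_left k1 (show 0 ≤ M₁ / ((M₃ : ℝ) ^ 2 * x ^ 2) by positivity)
  have j3 := mul_le_mul_of_nonneg_left k3 (show 0 ≤ M₂ / ((M₃ : ℝ) ^ 2 * x ^ 2) by positivity)
  have j2 := mul_le_mul_of_nonneg_left k2
    (show 0 ≤ M₁ / ((M₃ : ℝ) ^ 2 * x ^ 2) * (s * (t * x)) ^ 2 by positivity)
  have j4 := mul_le_mul_of_nonneg_left k4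
    (show 0 ≤ M₂ / ((M₃ : ℝ) ^ 2 * x ^ 2) * (s * (t * x)) ^ 2 by positivity)
  rw [mul_left_comm _ CB] at j1 j2 j3 j4
  rw [mul_assoc C0] at k0
  refine (add_le_add (add_le_add (add_le_add (add_le_add (k0.trans n0) (j1.trans n1))
    (j2.trans n2)) (j3.trans n3)) (j4.trans n4)).trans_eq ?_
  ring

end Pool.Agent.MP_2a1f0e_nt.GM4

end

section

set_option autoImplicit false

open Finset

namespace Pool.Agent.MP_2a1f0e_nt.GM4

open GM GM2 GM3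

/-- the Fejer kernel without normalisation -/
noncomputable def G_Jack (D : ℕ) (t : ℝ) : ℝ := ‖gs D (t / (2 * Real.pi))‖ ^ 2

lemma ex_Jack (u t : ℝ) : ex (u * (t / (2 * Real.pi))) = Complex.exp (Complex.I * u * t) := by
  have : (Real.pi : ℂ) ≠ 0 := by exact_mod_cast Real.pi_ne_zero
  unfold ex
  congr 1
  push_cast
  field_simp

lemma exp_Jack (D : ℕ) (t : ℝ) : (G_Jack D t : ℂ) =
    ∑ u ∈ Io D, ((((D : ℝ) - |(u : ℝ)|) : ℝ) : ℂ) * Complex.exp (Complex.I * u * t) := by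
  rw [G_Jack, ← triang_stmt D]
  refine sum_congr rfl fun u _ => ?_
  rw [ex_Jack, Complex.ofReal_intCast]

lemma cont_Jack (D : ℕ) : Continuous (G_Jack D) :=
  ((continuous_gs D).comp (continuous_id.div_const _)).norm.pow 2

lemma orth_Jack {u : ℤ} (hu : u ≠ 0) :
    ∫ t in (-Real.pi)..Real.pi, Complex.exp (Complex.I * u * t) = 0 := by
  rw [integral_exp_mul_complex (mul_ne_zero Complex.I_ne_zero (Int.cast_ne_zero.2 hu)),
    show Complex.I * u * (Real.pi : ℝ) =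
      Complex.I * u * ((-Real.pi : ℝ) : ℂ) + u * (2 * Real.pi * Complex.I) by push_cast; ring,
    Complex.exp_add, Complex.exp_int_mul_two_pi_mul_I, mul_one, sub_self, zero_div]

lemma int_Jack {D : ℕ} (hD : 1 ≤ D) :
    ∫ t in (-Real.pi)..Real.pi, G_Jack D t = 2 * Real.pi * D := by
  apply Complex.ofReal_injective
  rw [← intervalIntegral.integral_ofReal]
  simp only [exp_Jack]
  rw [intervalIntegral.integral_finsetSum fun u _ => Continuous.intervalIntegrable (by fun_prop) _ _,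
    sum_eq_single_of_mem 0 (mem_Io.2 (by omega)) fun u _ hu => by
      rw [intervalIntegral.integral_const_mul, orth_Jack hu, mul_zero]]
  simp [two_mul]

lemma le_Jack (D : ℕ) (t : ℝ) : G_Jack D t * (1 + (D : ℝ) ^ 2 * ch t) ≤ 5 * (D : ℝ) ^ 2 := by
  have h1 : G_Jack D t ≤ (D : ℝ) ^ 2 := pow_le_pow_left₀ (norm_nonneg _) (norm_gs_le _ _) 2
  have h2 : ‖ex (t / (2 * Real.pi)) - 1‖ ^ 2 = ch t := by
    have := ex_Jack 1 t
    rw [one_mul, Complex.ofReal_one, mul_one, mul_comm Complex.I] at this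
    rw [this, Complex.sq_norm, Complex.normSq_apply, Complex.sub_re, Complex.sub_im,
      Complex.exp_ofReal_mul_I_re, Complex.exp_ofReal_mul_I_im, Complex.one_re, Complex.one_im, ch]
    linear_combination Real.sin_sq_add_cos_sq t
  have h3 : G_Jack D t * ch t ≤ 2 ^ 2 := by
    rw [G_Jack, ← h2, ← mul_pow, ← norm_mul, gs_mul]
    refine pow_le_pow_left₀ (norm_nonneg _) ((norm_sub_le _ _).trans ?_) 2
    rw [norm_ex, norm_one]
    norm_num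
  nlinarith [mul_le_mul_of_nonneg_left h3 (sq_nonneg (D : ℝ))]

lemma ge_Jack {D : ℕ} (hD : 1 ≤ D) {t : ℝ} (ht : |t| ≤ 1 / D) :
    ((D : ℝ) / 2) ^ 2 ≤ G_Jack D t := by
  have d0 : (0 : ℝ) < D := by exact_mod_cast hD
  refine pow_le_pow_left₀ (by positivity) (le_trans ?_ (Complex.re_le_norm _)) 2
  rw [gs, Complex.re_sum]
  refine le_trans (le_of_eq ?_) (card_nsmul_le_sum _ _ (1 / 2) fun r hr => ?_)
  · rw [card_range, nsmul_eq_mul]
    ring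
  · have h1 : (r : ℝ) ≤ D := by exact_mod_cast (mem_range.1 hr).le
    have h2 : |r * t| ≤ 1 := by
      rw [abs_mul, Nat.abs_cast]
      exact (mul_le_mul h1 ht (abs_nonneg _) d0.le).trans (le_of_eq (by field_simp))
    rw [ex_Jack, mul_assoc, mul_comm, ← Complex.ofReal_mul, Complex.exp_ofReal_mul_I_re]
    have h3 := Real.one_sub_sq_div_two_le_cos (x := r * t)
    have h4 : (r * t) ^ 2 ≤ 1 := (sq_le_one_iff_abs_le_one _).2 h2
    linarith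

lemma low_Jack {D : ℕ} (hD : 1 ≤ D) :
    (D : ℝ) ^ 3 / 8 ≤ ∫ t in (-Real.pi)..Real.pi, G_Jack D t ^ 2 := by
  have d1 : (1 : ℝ) ≤ D := by exact_mod_cast hD
  have h0 : (0 : ℝ) < 1 / D := by positivity
  have h1 : 1 / (D : ℝ) ≤ Real.pi :=
    ((div_le_one (by linarith)).2 d1).trans (by linarith [Real.pi_gt_three])
  have hc := (cont_Jack D).pow 2
  refine le_trans ?_ (intervalIntegral.integral_mono_interval (neg_le_neg h1) (by linarith) h1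
    (Filter.Eventually.of_forall fun t => sq_nonneg _) (hc.intervalIntegrable _ _))
  refine le_trans (le_of_eq ?_) (intervalIntegral.integral_mono_on (by linarith)
    (continuous_const.intervalIntegrable _ _) (hc.intervalIntegrable _ _) fun t ht =>
      pow_le_pow_left₀ (sq_nonneg _) (ge_Jack hD (abs_le.2 ht)) 2)
  rw [intervalIntegral.integral_const, smul_eq_mul]
  field_simp
  ring

theorem jack_stmt : JackStmt := by
  refine ⟨80 * Real.pi, by positivity, fun D hD => ?_⟩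
  have d0 : (0 : ℝ) < D := by exact_mod_cast hD
  have h1 := low_Jack hD
  obtain ⟨c, hc⟩ : ∃ c, c = ∫ t in (-Real.pi)..Real.pi, G_Jack D t ^ 2 := ⟨_, rfl⟩
  rw [← hc] at h1
  have c0 : 0 < c := lt_of_lt_of_le (by positivity) h1
  refine ⟨fun t => c⁻¹ * G_Jack D t ^ 2, fun j => (c⁻¹ : ℝ) *
    ∑ p ∈ Io D ×ˢ Io D with p.1 + p.2 = j,
      ((((D : ℝ) - |(p.1 : ℝ)|) : ℝ) : ℂ) * ((((D : ℝ) - |(p.2 : ℝ)|) : ℝ) : ℂ),
    fun t => ?_, fun t => by positivity, ?_, ?_⟩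
  · simp only [mul_assoc _ _ (Complex.exp _), ← mul_sum, sum_mul]
    rw [Complex.ofReal_mul, Complex.ofReal_pow, exp_Jack, pow_two, sum_mul_sum, ← sum_product',
      ← sum_fiberwise_of_maps_to (t := Io (2 * D)) (g := fun p : ℤ × ℤ => p.1 + p.2)
        fun p hp => by
          have h1 := mem_Io.1 (mem_product.1 hp).1
          have h2 := mem_Io.1 (mem_product.1 hp).2
          exact mem_Io.2 (by push_cast; omega)]
    congr 1
    refine sum_congr rfl fun j _ => sum_congr rfl fun p hp => ?_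
    rw [← (mem_filter.1 hp).2, Int.cast_add, mul_add, add_mul, Complex.exp_add]
    ring
  · rw [intervalIntegral.integral_const_mul, ← hc, inv_mul_cancel₀ c0.ne']
  · have hG := cont_Jack D
    have hch := continuous_ch
    refine (intervalIntegral.integral_mono_on (g := fun t => c⁻¹ * (5 * (D : ℝ) ^ 2) * G_Jack D t)
      neg_pi_le (Continuous.intervalIntegrable (by fun_prop) _ _)
      (Continuous.intervalIntegrable (by fun_prop) _ _) fun t _ => ?_).trans ?_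
    · have h2 : 0 ≤ c⁻¹ * G_Jack D t := mul_nonneg (by positivity) (sq_nonneg _)
      exact le_trans (le_of_eq (by ring))
        ((mul_le_mul_of_nonneg_left (le_Jack D t) h2).trans (le_of_eq (by ring)))
    · rw [intervalIntegral.integral_const_mul, int_Jack hD, mul_assoc, inv_mul_le_iff₀ c0]
      nlinarith [mul_le_mul_of_nonneg_right h1 Real.pi_pos.le]

end Pool.Agent.MP_2a1f0e_nt.GM4

end

section

set_option autoImplicit false
open Finset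
namespace Pool.Agent.MP_2a1f0e_nt.GM4
open GM GM2 GM3

lemma four_Jut4 {A : ℕ} {Δ : ℝ} (hD : DivB (A ^ 4) Δ) (S : Finset ℕ)
    (hS : ∀ n ∈ S, 1 ≤ n ∧ n ≤ A) : ∃ d : ℕ → ℂ,
      (∀ l ∈ Icc 1 (A ^ 4), ‖d l‖ ≤ (A : ℝ) ^ 2 * Δ ^ 3 * DH.hf l) ∧
      (fun u => SS S u ^ 4) = DH.PP (A ^ 4) d := by
  classical
  have h24 : A ^ 2 ≤ A ^ 4 := by
    rcases Nat.eq_zero_or_pos A with h | h
    · simp [h]
    · exact Nat.pow_le_pow_right h (by norm_num)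
  have hΔ : 0 ≤ Δ := zero_le_one.trans hD.1
  have hc : ∀ l ∈ Icc 1 A, ‖(if l ∈ S then (1 : ℂ) else 0)‖ ≤ √A * DH.hf l := fun l hl => by
    obtain ⟨h1, h2⟩ := Finset.mem_Icc.1 hl
    have l0 : (0 : ℝ) < l := by exact_mod_cast h1
    have h3 : 1 ≤ √A * DH.hf l := by
      rw [DH.hf, mul_one_div, one_le_div (Real.sqrt_pos.2 l0)]
      exact Real.sqrt_le_sqrt (by exact_mod_cast h2)
    refine le_trans ?_ h3
    split_ifs <;> simp
  have e : ∀ u, SS S u = DH.PP A (fun l => if l ∈ S then (1 : ℂ) else 0) u := fun u => by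
    simp only [SS, DH.PP, ite_mul, one_mul, zero_mul, Finset.sum_ite_mem]
    rw [Finset.inter_eq_right.2 fun n hn => Finset.mem_Icc.2 (hS n hn)]
  obtain ⟨c, h1, h2⟩ := DH.prod_PowZ (A := A) (B := A) (L := A ^ 2) (pow_two A).ge
    (DH.DivB_mono hD h24) (Real.sqrt_nonneg _) (Real.sqrt_nonneg _) hc hc
  rw [Real.mul_self_sqrt (Nat.cast_nonneg _)] at h1
  obtain ⟨d, h3, h4⟩ := DH.prod_PowZ (A := A ^ 2) (B := A ^ 2) (by rw [← pow_add]) hD
    (by positivity) (by positivity) h1 h1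
  refine ⟨d, fun l hl => (h3 l hl).trans_eq (by ring), funext fun u => ?_⟩
  rw [← h4, ← h2, ← e]
  ring

theorem jut4_stmt (hP : DH.PosStmt) (hJ : DH.JutStmt) : Jut4Stmt := by
  intro δ hδ
  have hε : 0 < δ / 140 := by positivity
  obtain ⟨CJ, cj, hJ⟩ := hJ _ hε
  obtain ⟨Cd, cd, hd⟩ := DH.exists_DivB hε
  refine ⟨1 + 256 * Cd ^ 6 * CJ * 16 ^ (δ / 20), le_add_of_nonneg_right (by positivity),
    fun y M L hy hM hL S hS g hg => ?_⟩
  have y0 : 0 < y := by linarith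
  have eL : (((2 * M) ^ 4 : ℕ) : ℝ) = 16 * y ^ 20 := by
    push_cast
    rw [← hM]
    ring
  have y20 : 1 ≤ y ^ 20 := one_le_pow₀ hy
  have L1 : 1 ≤ (2 * M) ^ 4 := by
    have : (1 : ℝ) ≤ (((2 * M) ^ 4 : ℕ) : ℝ) := by rw [eL]; linarith
    exact_mod_cast this
  obtain ⟨d, h1, h2⟩ := four_Jut4 (hd _ L1) S fun n hn => ⟨(hS n hn).1, by
    have := (hS n hn).2
    rw [hM] at this
    exact_mod_cast this⟩
  have hD : (2 * L) ^ 2 ≤ ((2 * M) ^ 4) ^ 3 := by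
    have : (((2 * L) ^ 2 : ℕ) : ℝ) ≤ ((((2 * M) ^ 4) ^ 3 : ℕ) : ℝ) := by
      rw [Nat.cast_pow ((2 * M) ^ 4), eL]
      push_cast
      calc (2 * (L : ℝ)) ^ 2 ≤ (2 * y ^ 30) ^ 2 := by gcongr
        _ = 4 * y ^ 60 := by ring
        _ ≤ 4096 * y ^ 60 := by gcongr; norm_num
        _ = _ := by ring
    exact_mod_cast this
  have hdi : DH.Diam (Io L) (2 * L) := fun a ha b hb => by
    have := Finset.mem_Ioo.1 ha
    have := Finset.mem_Ioo.1 hb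
    push_cast
    exact abs_le.2 ⟨by omega, by omega⟩
  have h3 := hJ _ _ (Io L) g L1 hD hdi fun x _ => hg x
  have h4 := DH.EE_le_ZZ hP (by positivity) le_rfl h1 (Io L) g
  have e2 : ((2 * M : ℕ) : ℝ) ^ 2 = 4 * y ^ 10 := by
    push_cast
    rw [← hM]
    ring
  have e3 : ((16 * y ^ 20) ^ (δ / 140)) ^ 7 = 16 ^ (δ / 20) * y ^ δ := by
    rw [← Real.rpow_mul_natCast (by positivity), Real.mul_rpow (by norm_num) (by positivity),
      ← Real.rpow_natCast y, ← Real.rpow_mul y0.le]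
    congr 2 <;> push_cast <;> ring
  rw [eL] at h3 h4
  rw [e2] at h4
  rw [h2]
  have s1 : 0 ≤ ∑ a ∈ Io L, g a ^ 2 := Finset.sum_nonneg fun _ _ => sq_nonneg _
  generalize ∑ a ∈ Io L, g a ^ 2 = P at *
  generalize ∑ a ∈ Io L, g a = Q at *
  have w0 : 0 ≤ (16 * y ^ 20) ^ (δ / 140) := by positivity
  generalize (16 * y ^ 20) ^ (δ / 140) = w at *
  have c0 : 0 ≤ Cd := by linarith
  calc _ ≤ (4 * y ^ 10 * (Cd * w) ^ 3) ^ 2 * (CJ * w * (16 * y ^ 20 * P + Q ^ 2)) :=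
        h4.trans (mul_le_mul_of_nonneg_left h3 (sq_nonneg _))
    _ = Cd ^ 6 * CJ * w ^ 7 * (256 * (y ^ 40 * P) + 16 * (y ^ 20 * Q ^ 2)) := by ring
    _ ≤ Cd ^ 6 * CJ * w ^ 7 * (256 * (y ^ 40 * P) + 256 * (y ^ 20 * Q ^ 2)) := by
        gcongr; norm_num
    _ = 256 * Cd ^ 6 * CJ * 16 ^ (δ / 20) * y ^ δ * (y ^ 40 * P + y ^ 20 * Q ^ 2) := by
        rw [e3]; ring
    _ ≤ _ := by gcongr; linarith

theorem set4_stmt (hO : Osc4Stmt) (hJ : Jut4Stmt) : Set4Stmt := by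
  intro δ C₀ hδ hδ1 c0
  obtain ⟨CO, co, hO⟩ := hO δ hδ
  obtain ⟨CJ, cj, hJ⟩ := hJ δ hδ
  obtain ⟨Cd, cd, hd⟩ := DH.exists_DivB (ε := δ / 6) (by positivity)
  have c00 : 0 < C₀ := by linarith
  obtain ⟨C, a1, a2, a3, a4⟩ : ∃ C : ℝ, Cd * (731 * C₀ ^ 6) ^ (δ / 6) ≤ C ∧ CO * C₀ ^ δ ≤ C ∧
      CJ * C₀ ^ δ ≤ C ∧ C₀ ^ 2 ≤ C := by
    have b1 : 0 ≤ Cd * (731 * C₀ ^ 6) ^ (δ / 6) := by positivity
    have b2 : 0 ≤ CO * C₀ ^ δ := by positivity
    have b3 : 0 ≤ CJ * C₀ ^ δ := by positivity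
    have b4 : 0 ≤ C₀ ^ 2 := by positivity
    exact ⟨Cd * (731 * C₀ ^ 6) ^ (δ / 6) + CO * C₀ ^ δ + CJ * C₀ ^ δ + C₀ ^ 2, by linarith,
      by linarith, by linarith, by linarith⟩
  refine ⟨C, (one_le_pow₀ c0).trans a4, fun N T M y hN hNT hT hy hM hMT hTy => ?_⟩
  have n1 : (1 : ℝ) ≤ N := by exact_mod_cast hN
  have n0 : (0 : ℝ) < N := by linarith
  have p0 : 0 < (N : ℝ) ^ δ := by positivity
  have t1 : (1 : ℝ) ≤ T / N := (one_le_div n0).2 (by exact_mod_cast hNT)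
  have t2 : ((T : ℝ) / N) ^ 21 ≤ (N : ℝ) ^ 5 := by
    rw [div_pow, div_le_iff₀ (by positivity), ← pow_add]
    exact_mod_cast hT
  have p4 : ((N : ℝ) ^ δ) ^ 4 ≤ N := by
    rw [← Real.rpow_mul_natCast n0.le]
    exact (Real.rpow_le_rpow_of_exponent_le n1 (by push_cast; linarith)).trans_eq
      (Real.rpow_one _)
  have k2 : (N : ℝ) ^ δ * (T / N) ^ 2 ≤ N := by
    refine le_of_pow_le_pow_left₀ (n := 84) (by norm_num) n0.le ?_
    calc ((N : ℝ) ^ δ * (T / N) ^ 2) ^ 84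
        = (((N : ℝ) ^ δ) ^ 4) ^ 21 * (((T : ℝ) / N) ^ 21) ^ 8 := by ring
      _ ≤ (N : ℝ) ^ 21 * ((N : ℝ) ^ 5) ^ 8 := by gcongr
      _ = (N : ℝ) ^ 61 := by ring
      _ ≤ _ := pow_le_pow_right₀ n1 (by norm_num)
  have k1 : (N : ℝ) ^ δ * (T / N) ≤ N :=
    (mul_le_mul_of_nonneg_left (le_self_pow₀ t1 two_ne_zero) p0.le).trans k2
  have m1 : (M : ℝ) ≤ C₀ * N := by
    refine hMT.trans ?_
    rw [mul_assoc]
    exact mul_le_mul_of_nonneg_left k1 c00.le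
  have y5 : y ≤ M := hM ▸ le_self_pow₀ hy (by norm_num)
  have yd : y ^ δ ≤ C₀ ^ δ * (N : ℝ) ^ δ := by
    rw [← Real.mul_rpow c00.le n0.le]
    exact Real.rpow_le_rpow (by linarith) (y5.trans m1) hδ.le
  have up : ∀ c : ℝ, 1 ≤ c → c * C₀ ^ δ ≤ C → c * y ^ δ ≤ C * (N : ℝ) ^ δ := fun c h1 h2 => by
    calc c * y ^ δ ≤ c * (C₀ ^ δ * (N : ℝ) ^ δ) := mul_le_mul_of_nonneg_left yd (by linarith)
      _ = c * C₀ ^ δ * (N : ℝ) ^ δ := by ring
      _ ≤ _ := mul_le_mul_of_nonneg_right h2 p0.le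
  have M1 : 1 ≤ M := by exact_mod_cast hy.trans y5
  refine ⟨DivB_up (hd _ (le_add_left (Nat.mul_pos (by norm_num) (Nat.pow_pos M1)))) ?_,
    (hO y hy).up (up _ co a2), (hJ y M _ hy hM hTy).up (up _ cj a3), ?_⟩
  · have x1 : ((N * (2 * M) + 729 * M ^ 6 : ℕ) : ℝ) ≤ 731 * C₀ ^ 6 * (N : ℝ) ^ 6 := by
      have m2 : (M : ℝ) ^ 6 ≤ C₀ ^ 6 * (N : ℝ) ^ 6 :=
        (pow_le_pow_left₀ (Nat.cast_nonneg _) m1 6).trans_eq (mul_pow _ _ _)
      have m3 : (N : ℝ) * M ≤ C₀ ^ 6 * (N : ℝ) ^ 6 := by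
        calc (N : ℝ) * M ≤ N * (C₀ * N) := by gcongr
          _ = C₀ ^ 1 * (N : ℝ) ^ 2 := by ring
          _ ≤ C₀ ^ 6 * (N : ℝ) ^ 6 := by gcongr <;> first | assumption | norm_num
      push_cast
      linarith
    have x2 := Real.rpow_le_rpow (Nat.cast_nonneg _) x1 (by positivity : 0 ≤ δ / 6)
    rw [Real.mul_rpow (by positivity) (by positivity), ← Real.rpow_natCast (N : ℝ) 6,
      ← Real.rpow_mul n0.le, show ((6 : ℕ) : ℝ) * (δ / 6) = δ by push_cast; ring] at x2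
    calc _ ≤ Cd * ((731 * C₀ ^ 6) ^ (δ / 6) * (N : ℝ) ^ δ) :=
          mul_le_mul_of_nonneg_left x2 (by linarith)
      _ = Cd * (731 * C₀ ^ 6) ^ (δ / 6) * (N : ℝ) ^ δ := by ring
      _ ≤ _ := mul_le_mul_of_nonneg_right a1 p0.le
  · calc (M : ℝ) ^ 2 ≤ (C₀ * (N : ℝ) ^ δ * (T / N)) ^ 2 := by gcongr
      _ = C₀ ^ 2 * (N : ℝ) ^ δ * ((N : ℝ) ^ δ * (T / N) ^ 2) := by ring
      _ ≤ _ := by
          have : 0 ≤ C := (sq_nonneg _).trans a4
          gcongr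

end Pool.Agent.MP_2a1f0e_nt.GM4

end

section

set_option autoImplicit false
open Finset
namespace Pool.Agent.MP_2a1f0e_nt.GM4
open GM GM2 GM3

theorem one_Num4 {W τ n y : ℝ} (hW : 1 ≤ W) (hn : 1 ≤ n) (hτ : 1 ≤ τ) (h : τ ^ 21 ≤ n ^ 13)
    (hy : 0 ≤ y) (hM : y ^ 5 * n ≤ W * τ ^ 2) : y ^ 8 * τ ≤ W ^ 2 * n := by
  refine le_of_pow_le_pow_left₀ (n := 5) (by norm_num) (by positivity)
    (le_of_mul_le_mul_right ?_ (show 0 < n ^ 8 by positivity))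
  calc _ = (y ^ 5 * n) ^ 8 * τ ^ 5 := by ring
    _ ≤ (W * τ ^ 2) ^ 8 * τ ^ 5 := by gcongr
    _ = W ^ 8 * τ ^ 21 := by ring
    _ ≤ W ^ 10 * n ^ 13 := by gcongr; norm_num
    _ = _ := by ring

theorem two_Num4 {W τ n M Δ B : ℝ} (hW : 1 ≤ W) (hn : 1 ≤ n) (hτ : 1 ≤ τ) (h : τ ^ 21 ≤ n ^ 13)
    (hM0 : 0 ≤ M) (hM : M * n ≤ W * τ ^ 2) (hΔ0 : 0 ≤ Δ) (hΔ : Δ ≤ W) (hB0 : 0 ≤ B)
    (hB : B ≤ W * n ^ 2) :
    M * B ^ 2 * (M ^ 2 / n ^ 2 + M * Δ / n) ≤ 2 * W ^ 5 * (τ * n ^ 3) := by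
  have hn0 : 0 < n := by linarith
  have h5 : τ ^ 5 ≤ n ^ 4 :=
    le_of_pow_le_pow_left₀ (n := 21) (by norm_num) (by positivity) (by
      calc _ = (τ ^ 21) ^ 5 := by rw [← pow_mul, ← pow_mul]
        _ ≤ (n ^ 13) ^ 5 := by gcongr
        _ ≤ _ := by
          rw [← pow_mul, ← pow_mul]
          exact pow_le_pow_right₀ hn (by norm_num))
  have h3 : τ ^ 3 ≤ n ^ 2 :=
    le_of_pow_le_pow_left₀ (n := 7) (by norm_num) (by positivity) (by
      rw [← pow_mul, ← pow_mul]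
      exact h.trans (pow_le_pow_right₀ hn (by norm_num)))
  refine le_of_mul_le_mul_right ?_ (show 0 < n ^ 5 by positivity)
  calc _ = B ^ 2 * (M * n) ^ 3 + B ^ 2 * (M * n) ^ 2 * Δ * n ^ 2 := by field_simp
    _ ≤ (W * n ^ 2) ^ 2 * (W * τ ^ 2) ^ 3 + (W * n ^ 2) ^ 2 * (W * τ ^ 2) ^ 2 * W * n ^ 2 := by
      gcongr
    _ = W ^ 5 * τ * n ^ 4 * τ ^ 5 + W ^ 5 * τ * n ^ 6 * τ ^ 3 := by ring
    _ ≤ W ^ 5 * τ * n ^ 4 * n ^ 4 + W ^ 5 * τ * n ^ 6 * n ^ 2 := by gcongr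
    _ = _ := by ring

theorem three_Num4 {W τ n y u : ℝ} (hW : 1 ≤ W) (hn : 1 ≤ n) (hτ : 1 ≤ τ) (h : τ ^ 21 ≤ n ^ 13)
    (hy : 0 ≤ y) (hM : y ^ 5 * n ≤ W * τ ^ 2) (hu0 : 0 ≤ u) (hu : u ^ 2 = τ * n ^ 3) :
    n ^ 5 * y ^ 9 ≤ W ^ 2 * u ^ 3 := by
  refine le_of_pow_le_pow_left₀ (n := 10) (by norm_num) (by positivity)
    (le_of_mul_le_mul_right ?_ (show 0 < n ^ 18 by positivity))
  calc _ = n ^ 50 * (y ^ 5 * n) ^ 18 := by ring
    _ ≤ n ^ 50 * (W * τ ^ 2) ^ 18 := by gcongr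
    _ = W ^ 18 * (τ ^ 15 * n ^ 50) * τ ^ 21 := by ring
    _ ≤ W ^ 20 * (τ ^ 15 * n ^ 50) * n ^ 13 := by gcongr; norm_num
    _ = W ^ 20 * (τ * n ^ 3) ^ 15 * n ^ 18 := by ring
    _ = _ := by rw [← hu]; ring

theorem core_Num4 {C P W τ n y z Δ B : ℝ} (hC0 : 0 ≤ C) (hC : C ≤ W) (hP : P ≤ W) (hW : 1 ≤ W)
    (hn : 1 ≤ n) (hτ : 1 ≤ τ) (h21 : τ ^ 21 ≤ n ^ 13) (hy : 0 ≤ y) (hz : 0 ≤ z)
    (hM : y ^ 5 * n ≤ W * τ ^ 2) (hΔ0 : 0 ≤ Δ) (hΔ : Δ ≤ W) (hB0 : 0 ≤ B) (hB : B ≤ W * n ^ 2)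
    (h : (z ^ 2) ^ 3 ≤ C * n ^ 3 * (n ^ 2 * (Δ ^ 54 * (y ^ 9 * (z ^ 2 * z) + y ^ 5 * B * z ^ 2)) +
      P * (τ ^ 2 * n ^ 3) * z ^ 2)) :
    z ^ 2 ≤ 9 * W ^ 38 * (τ * n ^ 3) := by
  have hpos : 0 < τ * n ^ 3 := by positivity
  obtain ⟨u, hu0, hu⟩ : ∃ u : ℝ, 0 < u ∧ u ^ 2 = τ * n ^ 3 :=
    ⟨√(τ * n ^ 3), Real.sqrt_pos.2 hpos, Real.sq_sqrt hpos.le⟩
  have q19 : 1 ≤ W ^ 19 := one_le_pow₀ hW
  have hfin : 9 * W ^ 38 * (τ * n ^ 3) = (3 * W ^ 19 * u) ^ 2 := by rw [← hu]; ring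
  rw [hfin]
  refine pow_le_pow_left₀ hz ?_ 2
  by_contra hc
  rw [not_le] at hc
  have huz : u ≤ z := (le_mul_of_one_le_left hu0.le (by linarith)).trans hc.le
  have hz0 : 0 < z := hu0.trans_le huz
  have x1 := three_Num4 hW hn hτ h21 hy hM hu0.le hu
  have t0 : τ ^ 2 * n ^ 6 * z ^ 2 ≤ u ^ 3 * z ^ 3 :=
    calc _ = (τ * n ^ 3) ^ 2 * z ^ 2 := by ring
      _ = u ^ 3 * (u * z ^ 2) := by rw [← hu]; ring
      _ ≤ u ^ 3 * (z * z ^ 2) := by gcongr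
      _ = _ := by ring
  have t1 : Δ ^ 54 * (n ^ 5 * y ^ 9) * z ^ 3 ≤ W ^ 56 * (u ^ 3 * z ^ 3) :=
    calc _ ≤ W ^ 54 * (W ^ 2 * u ^ 3) * z ^ 3 := by gcongr
      _ = _ := by ring
  have t2 : Δ ^ 54 * (y ^ 5 * n) * B * n ^ 4 * z ^ 2 ≤ W ^ 56 * (u ^ 3 * z ^ 3) :=
    calc _ ≤ W ^ 54 * (W * τ ^ 2) * (W * n ^ 2) * n ^ 4 * z ^ 2 := by gcongr
      _ = W ^ 56 * (τ ^ 2 * n ^ 6 * z ^ 2) := by ring
      _ ≤ _ := by gcongr
  have t3 : P * (τ ^ 2 * n ^ 6 * z ^ 2) ≤ W ^ 56 * (u ^ 3 * z ^ 3) := by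
    gcongr
    exact hP.trans (le_self_pow₀ hW (by norm_num))
  have t8 : z ^ 3 * z ^ 3 ≤ (3 * W ^ 19 * u) ^ 3 * z ^ 3 :=
    calc _ = (z ^ 2) ^ 3 := by ring
      _ ≤ _ := h
      _ = C * (Δ ^ 54 * (n ^ 5 * y ^ 9) * z ^ 3 + Δ ^ 54 * (y ^ 5 * n) * B * n ^ 4 * z ^ 2 +
          P * (τ ^ 2 * n ^ 6 * z ^ 2)) := by ring
      _ ≤ C * (3 * (W ^ 56 * (u ^ 3 * z ^ 3))) :=
        mul_le_mul_of_nonneg_left (by linarith) hC0
      _ ≤ W * (27 * (W ^ 56 * (u ^ 3 * z ^ 3))) := by gcongr; norm_num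
      _ = _ := by ring
  exact absurd (le_of_pow_le_pow_left₀ (by norm_num) (by positivity)
    (le_of_mul_le_mul_right t8 (by positivity))) (not_le.2 hc)

theorem num4_stmt : Num4Stmt := by
  intro δ C hδ hC
  refine ⟨9 * C ^ 40, by positivity,
    fun N T M Δ B X y hN hT h5 hy eyM hM hΔ1 hΔ hB0 hB hX h => ?_⟩
  have hN1 : (1 : ℝ) ≤ N := by exact_mod_cast hN
  have hT1 : (1 : ℝ) ≤ T := by exact_mod_cast hN.trans hT
  have h5' : (T : ℝ) ^ 21 ≤ (N : ℝ) ^ 26 := by exact_mod_cast h5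
  have hP : 1 ≤ (N : ℝ) ^ δ := Real.one_le_rpow hN1 hδ.le
  have e6 : (N : ℝ) ^ (40 * δ) = ((N : ℝ) ^ δ) ^ 40 := by
    rw [mul_comm, Real.rpow_mul (by linarith)]
    exact_mod_cast Real.rpow_natCast _ 40
  rw [e6]
  have hM0 : (0 : ℝ) ≤ M := Nat.cast_nonneg M
  unfold R2 at h
  generalize (N : ℝ) ^ δ = P at *
  generalize (M : ℝ) = M at *
  generalize (N : ℝ) = n at *
  obtain ⟨τ, hτ, eT⟩ : ∃ τ : ℝ, 1 ≤ τ ∧ (T : ℝ) = τ ^ 2 :=
    ⟨√T, Real.one_le_sqrt.2 hT1, (Real.sq_sqrt (by linarith)).symm⟩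
  obtain ⟨z, hz, rfl⟩ : ∃ z : ℝ, 0 ≤ z ∧ X = z ^ 2 :=
    ⟨√X, Real.sqrt_nonneg _, (Real.sq_sqrt hX).symm⟩
  rw [eT] at h hM h5' ⊢
  rw [Real.sqrt_sq hz] at h
  rw [Real.sqrt_sq (by linarith)]
  have hW : 1 ≤ C * P := one_le_mul_of_one_le_of_one_le hC hP
  have hPW : P ≤ C * P := le_mul_of_one_le_left (by linarith) hC
  have hCW : C ≤ C * P := le_mul_of_one_le_right (by linarith) hP
  have hn0 : 0 < n := by linarith
  have hτ0 : 0 < τ := by linarith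
  have hy0 : 0 ≤ y := by linarith
  have h21 : τ ^ 21 ≤ n ^ 13 :=
    le_of_pow_le_pow_left₀ (n := 2) (by norm_num) (by positivity) (by
      rw [← pow_mul] at h5'
      rwa [← pow_mul, ← pow_mul])
  have hM' : M * n ≤ C * P * τ ^ 2 := by
    rwa [← mul_div_assoc, le_div_iff₀ hn0] at hM
  have hMy : y ^ 5 * n ≤ C * P * τ ^ 2 := eyM ▸ hM'
  have hfin : 9 * C ^ 40 * P ^ 40 * (τ * n ^ 3) = 9 * (C * P) ^ 40 * (τ * n ^ 3) := by ring
  rw [hfin]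
  generalize C * P = W at *
  rcases h with h | h | h
  · have x1 := one_Num4 hW hN1 hτ h21 hy0 hMy
    calc _ ≤ _ := h
      _ = y ^ 8 * τ * (τ * n ^ 2) := by ring
      _ ≤ W ^ 2 * n * (τ * n ^ 2) := by gcongr
      _ = 1 * W ^ 2 * (τ * n ^ 3) := by ring
      _ ≤ _ := by gcongr <;> norm_num
  · calc _ ≤ _ := h
      _ ≤ _ := two_Num4 hW hN1 hτ h21 hM0 hM' (by linarith) hΔ hB0 hB
      _ ≤ _ := by gcongr <;> norm_num
  · calc _ ≤ _ := core_Num4 (by linarith) hCW hPW hW hN1 hτ h21 hy0 hz hMy (by linarith) hΔ hB0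
          hB h
      _ ≤ _ := by gcongr; norm_num

end Pool.Agent.MP_2a1f0e_nt.GM4

end

section

set_option autoImplicit false

open Finset

namespace Pool.Agent.MP_2a1f0e_nt.GM4

open GM GM2 GM3

lemma pt_Osc4 {M r q w : ℝ} {m : ℤ} {j : ℕ} (hM : 1 ≤ M) (hw : 0 < w) (hr0 : 0 ≤ r)
    (hr : r ≤ 2 * q) (hj : q ≤ w ^ j) (hm0 : m ≠ 0) (hm : q * w ^ 2 ≤ |(m : ℝ)| * M) :
    M * (r / |(m : ℝ) * M|) ^ (j + 2) ≤ 8 * 2 ^ j * kp (m : ℝ) := by
  have hM0 : 0 < M := by linarith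
  have h1 : (1 : ℝ) ≤ |(m : ℝ)| := by exact_mod_cast Int.one_le_abs hm0
  rw [abs_mul, abs_of_pos hM0, kp, ← sq_abs (m : ℝ)]
  generalize |(m : ℝ)| = a at h1 hm
  have ha : 0 < a * M := by positivity
  have h2 : r / (a * M) * (a * M) ≤ 2 * w ^ j := by
    rw [div_mul_cancel₀ _ ha.ne']
    linarith
  have h3 : r / (a * M) * w ^ 2 ≤ 2 := by
    rw [div_mul_eq_mul_div, div_le_iff₀ ha]
    calc r * w ^ 2 ≤ 2 * q * w ^ 2 := by gcongr
      _ = 2 * (q * w ^ 2) := by ring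
      _ ≤ _ := by linarith
  have h0 : 0 ≤ r / (a * M) := by positivity
  generalize r / (a * M) = x at h0 h2 h3
  have h4 : (x * w ^ 2) ^ j ≤ 2 ^ j := pow_le_pow_left₀ (by positivity) h3 j
  have h5 : (x * (a * M)) ^ 2 ≤ (2 * w ^ j) ^ 2 := pow_le_pow_left₀ (by positivity) h2 2
  have h7 : x ^ (j + 2) * (a * M) ^ 2 ≤ 4 * 2 ^ j :=
    calc x ^ (j + 2) * (a * M) ^ 2 = x ^ j * (x * (a * M)) ^ 2 := by ring
      _ ≤ x ^ j * (2 * w ^ j) ^ 2 := mul_le_mul_of_nonneg_left h5 (by positivity)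
      _ = 4 * (x * w ^ 2) ^ j := by ring
      _ ≤ _ := by linarith
  have h8 : 0 ≤ x ^ (j + 2) := by positivity
  rw [mul_one_div, le_div_iff₀ (by positivity)]
  generalize x ^ (j + 2) = y at h7 h8
  have h9 : 1 ≤ a ^ 2 := one_le_pow₀ h1
  calc M * y * (1 + a ^ 2) ≤ M * M * y * (2 * a ^ 2) := by
        refine mul_le_mul (mul_le_mul_of_nonneg_right ?_ h8) (by linarith) (by positivity)
          (by positivity)
        exact le_mul_of_one_le_right hM0.le hM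
    _ = 2 * (y * (a * M) ^ 2) := by ring
    _ ≤ _ := by linarith

theorem osc4_stmt (hD : DecayStmt) (hZ : ZeroStmt) (hP : PoisStmt) (hK : KsupStmt) :
    Osc4Stmt := by
  intro δ hδ
  obtain ⟨j, hj⟩ := exists_nat_ge (8 / δ)
  rw [div_le_iff₀ hδ] at hj
  obtain ⟨C, hC, hd⟩ := hD (j + 2)
  obtain ⟨C0, hC0, hz⟩ := hZ
  obtain ⟨CK, hCK, hK⟩ := hK
  have hB : (0 : ℝ) < C * (8 * 2 ^ j) := by positivity
  refine ⟨C0 + 6 * (C * (8 * 2 ^ j)) + CK + 1, by linarith, fun y hy M hM u hu => ?_⟩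
  have hy0 : 0 < y := by linarith
  have hw : 1 ≤ y ^ δ := Real.one_le_rpow hy hδ.le
  have hw8 : y ^ 8 ≤ (y ^ δ) ^ j := by
    rw [← Real.rpow_natCast, ← Real.rpow_natCast, ← Real.rpow_mul hy0.le]
    refine Real.rpow_le_rpow_of_exponent_le hy ?_
    rw [mul_comm]
    exact_mod_cast hj
  generalize y ^ δ = w at hw hw8
  have hM1 : (1 : ℝ) ≤ M := by exact_mod_cast hM
  have hM0 : (0 : ℝ) < M := by linarith
  have hk : 0 ≤ M * kp (u : ℝ) := mul_nonneg hM0.le (kp_pos _).le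
  have hn : ∀ ξ : ℝ, ‖(M : ℂ) * pw (M : ℝ) u * HH u ξ‖ = M * ‖HH u ξ‖ := fun ξ => by
    rw [norm_mul, norm_mul, norm_pw, mul_one, Complex.norm_natCast]
  have y4 : 1 ≤ y ^ 4 := one_le_pow₀ hy
  have y8 : 1 ≤ y ^ 8 := one_le_pow₀ hy
  have hq : 0 ≤ y ^ 8 * w ^ 2 / M := by positivity
  have key := tail_KOne (hP M hM u) (Ms ⌊y ^ 8 * w ^ 2 / M⌋₊) (A := C0 * (M * kp (u : ℝ)))
    (B := C * (8 * 2 ^ j)) (by positivity) (by positivity)
    (by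
      rw [hn, Int.cast_zero, zero_mul, mul_left_comm]
      exact mul_le_mul_of_nonneg_left (hz _) hM0.le)
    fun m hm0 hm => by
      have h1 : ((⌊y ^ 8 * w ^ 2 / M⌋₊ : ℕ) : ℝ) + 1 ≤ |(m : ℝ)| := by
        have h1 : ((⌊y ^ 8 * w ^ 2 / M⌋₊ : ℕ) : ℤ) + 1 ≤ |m| := by
          rw [mem_Ms] at hm
          rw [le_abs]
          omega
        exact_mod_cast h1
      have h2 : y ^ 8 * w ^ 2 ≤ |(m : ℝ)| * M :=
        (div_le_iff₀ hM0).1 ((Nat.lt_floor_add_one _).le.trans h1)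
      rw [hn]
      refine (mul_le_mul_of_nonneg_left
        (hd _ _ (mul_ne_zero (Int.cast_ne_zero.2 hm0) hM0.ne')) hM0.le).trans ?_
      rw [mul_left_comm, mul_assoc C]
      exact mul_le_mul_of_nonneg_left (pt_Osc4 hM1 (by linarith) (by positivity)
        (by linarith) hw8 hm0 h2) hC.le
  rw [← mul_sum] at key
  have h3 : ‖Kb M ⌊y ^ 8 * w ^ 2 / M⌋₊ (u : ℝ)‖ ≤ (CK + 1) * (y ^ 4 * w) := by
    refine (pow_le_pow_iff_left₀ (norm_nonneg _) (by positivity) two_ne_zero).1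
      ((hK M _ hM u).trans ?_)
    have h6 : (M : ℝ) * (⌊y ^ 8 * w ^ 2 / M⌋₊ : ℕ) ≤ y ^ 8 * w ^ 2 := by
      rw [mul_comm]
      exact (le_div_iff₀ hM0).1 (Nat.floor_le hq)
    calc CK * ((M : ℝ) * (⌊y ^ 8 * w ^ 2 / M⌋₊ : ℕ)) ≤ (CK + 1) ^ 2 * (y ^ 8 * w ^ 2) :=
          mul_le_mul (by nlinarith) h6 (by positivity) (by positivity)
      _ = _ := by ring
  have h4 := norm_le_insert' (KK M (u : ℝ)) (Kb M ⌊y ^ 8 * w ^ 2 / M⌋₊ (u : ℝ))
  have h5 : ‖KK M (u : ℝ) - Kb M ⌊y ^ 8 * w ^ 2 / M⌋₊ (u : ℝ)‖ ≤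
      C0 * (M * kp (u : ℝ)) + 6 * (C * (8 * 2 ^ j)) := key
  generalize C * (8 * 2 ^ j) = B at hB h5 ⊢
  generalize (M : ℝ) * kp (u : ℝ) = k at hk h5 ⊢
  have e1 : k ≤ w * k := le_mul_of_one_le_left hk hw
  have e2 : 1 ≤ y ^ 4 * w := one_le_mul_of_one_le_of_one_le y4 hw
  have e3 : (C0 + 6 * B + CK + 1) * w * (k + y ^ 4) =
      (C0 + 6 * B + CK + 1) * (w * k) + (C0 + 6 * B + CK + 1) * (y ^ 4 * w) := by ring
  rw [e3]
  generalize y ^ 4 * w = t at e2 h3 ⊢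
  generalize w * k = k' at e1 ⊢
  have e4 : C0 * k ≤ (C0 + 6 * B + CK + 1) * k' :=
    mul_le_mul (by linarith) e1 hk (by positivity)
  nlinarith [mul_le_mul_of_nonneg_left e2 hB.le, mul_nonneg hC0.le (zero_le_one.trans e2)]

lemma key_Osc4 {y Δ C : ℝ} (hC : 2 ≤ C) (hΔ : 1 ≤ Δ) (h : OscB y Δ) {M : ℕ} (hM : 1 ≤ M) {u : ℤ}
    (hu : |(u : ℝ)| < y ^ 8) (hP : ¬ Pk (C * Δ) M u) : ‖KK M (u : ℝ)‖ ≤ 2 * Δ * y ^ 4 := by
  have h1 := h M hM u hu.le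
  have hk : 0 ≤ M * kp u := mul_nonneg (Nat.cast_nonneg M) (kp_pos _).le
  rw [Pk, not_le] at hP
  have h2 := mul_le_mul_of_nonneg_right hC (mul_nonneg (zero_le_one.trans hΔ) hk)
  nlinarith

theorem near4_stmt (hO : OscStmt) (hK : KKStmt) : Near4Stmt := by
  obtain ⟨C, hC, h⟩ := hO
  obtain ⟨_, -, hk⟩ := hK
  refine ⟨12288 * C, by linarith, fun y Δ hy hΔ ho M₁ M₂ m1 n1 m2 n2 ρ₁ ρ₂ hlt => ?_⟩
  have c2 : 2 * C ≤ 12288 * C * Δ := by nlinarith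
  have key : ∀ M : ℕ, 1 ≤ M → ∀ u : ℤ, |(u : ℝ)| < y ^ 5 → ¬ Pk (12288 * C * Δ) M u →
      ‖KK M (u : ℝ)‖ ≤ 4096 * C * y ^ 3 := fun M hM u hu hP => by
    obtain ⟨s, hs, rfl⟩ : ∃ s : ℝ, 1 ≤ s ∧ y = s ^ 4 :=
      ⟨y ^ ((4 : ℕ) : ℝ)⁻¹, Real.one_le_rpow hy (by positivity),
        (Real.rpow_inv_natCast_pow (by linarith) (by norm_num)).symm⟩
    simp only [← pow_mul] at hu ⊢
    exact (key_Near3 c2 hs 1 (h M hM u) hu hP).trans
      (mul_le_mul_of_nonneg_left (pow_le_pow_right₀ hs (by norm_num)) (by positivity))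
  have t1 : ‖KK M₁ (-(ρ₁ : ℝ))‖ ≤ 3 * y ^ 5 := by linarith [(hk M₁ m1 (-(ρ₁ : ℝ))).2]
  have t2 : ‖KK M₂ ρ₂‖ ≤ 3 * y ^ 5 := by linarith [(hk M₂ m2 ρ₂).2]
  have y0 : 0 < y := by linarith
  have d2 : 1 ≤ Δ ^ 2 := one_le_pow₀ hΔ
  have e3 : 3 * y ^ 5 * (4096 * C * y ^ 3) ≤ 12288 * C * Δ ^ 2 * y ^ 8 :=
    calc _ = 12288 * C * 1 * y ^ 8 := by ring
      _ ≤ _ := by gcongr
  by_contra hn
  simp only [not_or, not_le, max_lt_iff, not_and] at hn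
  obtain ⟨h1, h2, h3, h4, h5⟩ := hn
  refine absurd hlt (not_lt.2 ?_)
  by_cases p1 : Pk (12288 * C * Δ) M₁ (-(ρ₁ : ℝ))
  · exact (mul_le_mul t1 (key M₂ m2 ρ₂ (h2 p1) (h1 p1)) (norm_nonneg _) (by positivity)).trans e3
  by_cases p2 : Pk (12288 * C * Δ) M₂ ρ₂
  · have := key M₁ m1 (-ρ₁) (by
      rw [Int.cast_neg, abs_neg]
      exact not_le.1 fun h => h3 h p2) (by rwa [Int.cast_neg])
    rw [Int.cast_neg] at this
    rw [mul_comm]
    exact (mul_le_mul t2 this (norm_nonneg _) (by positivity)).trans e3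
  · have := key_Osc4 (C := 12288 * C) (by linarith) hΔ ho m1 (u := -ρ₁)
      (by rwa [Int.cast_neg, abs_neg]) (by rwa [Int.cast_neg])
    rw [Int.cast_neg] at this
    refine (mul_le_mul this (key_Osc4 (by linarith) hΔ ho m2 h5 p2) (norm_nonneg _)
      (by positivity)).trans ?_
    calc _ = 4 * Δ ^ 2 * y ^ 8 := by ring
      _ ≤ _ := by
        gcongr
        linarith

end Pool.Agent.MP_2a1f0e_nt.GM4

end

section

set_option autoImplicit false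

open Finset

namespace Pool.Agent.MP_2a1f0e_nt.GM4

open GM GM2 GM3

lemma cont_Rep (L : ℕ) : Continuous fun t : ℝ => ‖gs L (t / (2 * Real.pi))‖ ^ 2 :=
  ((continuous_gs L).comp (continuous_id.div_const _)).norm.pow 2

lemma bd_Rep (D : ℕ) (t : ℝ) : ‖gs (2 * D) (t / (2 * Real.pi))‖ ^ 2 ≤ 8 * D * kc D t := by
  have h0 := ch_nonneg t
  have h1 : ‖gs (2 * D) (t / (2 * Real.pi))‖ ≤ 2 * D :=
    (norm_sum_le _ _).trans (by simp [norm_ex])
  have h2 : ‖ex (t / (2 * Real.pi)) - 1‖ ^ 2 = ch t := by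
    rw [ex, mul_div_cancel₀ _ (by positivity), Complex.norm_exp_I_mul_ofReal_sub_one,
      Real.norm_eq_abs, sq_abs, mul_pow, Real.sin_sq_eq_half_sub, mul_div_cancel₀ _ two_ne_zero, ch]
    ring
  have h3 : ‖gs (2 * D) (t / (2 * Real.pi))‖ * ‖ex (t / (2 * Real.pi)) - 1‖ ≤ 2 := by
    rw [← norm_mul, gs_mul]
    refine (norm_sub_le _ _).trans ?_
    rw [norm_ex, norm_one]
    norm_num
  have h4 := pow_le_pow_left₀ (by positivity) h3 2
  have h5 := pow_le_pow_left₀ (norm_nonneg _) h1 2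
  rw [mul_pow, h2] at h4
  rw [kc, ← mul_div_assoc, le_div_iff₀ (by positivity)]
  nlinarith [mul_le_mul_of_nonneg_left h4 (sq_nonneg (D : ℝ))]

lemma int_Rep {D L : ℕ} (hL : D ≤ L) {h : ℝ → ℝ} {c : ℤ → ℂ} (hc : TP D (fun x => (h x : ℂ)) c)
    {x : ℝ} (hx : 0 < x) :
    ((∫ t in (-Real.pi)..Real.pi, ‖gs L (t / (2 * Real.pi))‖ ^ 2 * h (x * Real.exp (-t)) : ℝ) : ℂ) =
      ∑ ρ ∈ Io D, c ρ * pw x ρ * ((L : ℝ) - |(ρ : ℝ)| : ℝ) * (2 * Real.pi) := by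
  have e : ∀ t : ℝ, ((‖gs L (t / (2 * Real.pi))‖ ^ 2 * h (x * Real.exp (-t)) : ℝ) : ℂ) =
      ∑ ρ ∈ Io D, ∑ u ∈ Io L, c ρ * pw x ρ * ((L : ℝ) - |(u : ℝ)| : ℝ) *
        Complex.exp (Complex.I * ((u - ρ : ℤ) : ℂ) * t) := fun t => by
    have h1 : (h (x * Real.exp (-t)) : ℂ) = _ := hc _ (by positivity)
    rw [Complex.ofReal_mul, ← triang_stmt, h1, mul_comm, sum_mul_sum]
    refine sum_congr rfl fun ρ _ => sum_congr rfl fun u _ => ?_
    have : Complex.exp (Complex.I * ((u - ρ : ℤ) : ℂ) * t) =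
        pw (Real.exp (-t)) ρ * ex (u * (t / (2 * Real.pi))) := by
      rw [pw_exp, ex, ← Complex.exp_add, mul_left_comm _ (u : ℝ),
        mul_div_cancel₀ _ (by positivity)]
      congr 1
      push_cast
      ring
    rw [pw_mul hx.ne' (Real.exp_pos _).ne', this]
    ring
  rw [← intervalIntegral.integral_ofReal]
  simp only [e]
  rw [intervalIntegral.integral_finsetSum fun t _ =>
    Continuous.intervalIntegrable (by fun_prop) _ _]
  refine sum_congr rfl fun ρ hρ => ?_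
  rw [intervalIntegral.integral_finsetSum fun u _ =>
    Continuous.intervalIntegrable (by fun_prop) _ _, sum_eq_single_of_mem ρ]
  · rw [intervalIntegral.integral_const_mul, orth_Par, if_pos (sub_self ρ)]
  · rw [Io, mem_Ioo] at hρ ⊢
    omega
  · intro u _ hu
    rw [intervalIntegral.integral_const_mul, orth_Par, if_neg (sub_ne_zero.2 hu), mul_zero]

theorem rep_stmt : RepStmt := by
  refine ⟨2, two_pos, fun D hD h c hc h0 x hx => ?_⟩
  have hD' : (0 : ℝ) < D := by exact_mod_cast hD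
  have hh : Continuous fun t => h (x * Real.exp (-t)) :=
    ((Complex.continuous_re.comp_continuousOn hc.cont).congr fun x _ => by simp :
      ContinuousOn h (Set.Ioi 0)).comp_continuous (by fun_prop)
      fun t => mul_pos hx (Real.exp_pos _)
  have h1 : (∫ t in (-Real.pi)..Real.pi,
        ‖gs (2 * D) (t / (2 * Real.pi))‖ ^ 2 * h (x * Real.exp (-t))) -
      ∫ t in (-Real.pi)..Real.pi, ‖gs D (t / (2 * Real.pi))‖ ^ 2 * h (x * Real.exp (-t)) =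
      2 * Real.pi * D * h x := by
    apply Complex.ofReal_injective
    have h2 : (h x : ℂ) = _ := hc x hx
    rw [Complex.ofReal_sub, int_Rep (by omega) hc hx, int_Rep le_rfl hc hx, ← sum_sub_distrib,
      Complex.ofReal_mul, h2, mul_sum]
    refine sum_congr rfl fun ρ _ => ?_
    push_cast
    ring
  have h2 : 0 ≤ ∫ t in (-Real.pi)..Real.pi,
      ‖gs D (t / (2 * Real.pi))‖ ^ 2 * h (x * Real.exp (-t)) :=
    intervalIntegral.integral_nonneg neg_pi_le fun t _ => mul_nonneg (sq_nonneg _) (h0 _)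
  have h3 : ∫ t in (-Real.pi)..Real.pi,
      ‖gs (2 * D) (t / (2 * Real.pi))‖ ^ 2 * h (x * Real.exp (-t)) ≤ 8 * D * cv D h x := by
    rw [cv, ← intervalIntegral.integral_const_mul]
    refine intervalIntegral.integral_mono_on neg_pi_le
      (((cont_Rep _).mul hh).intervalIntegrable _ _)
      ((continuous_const.mul ((continuous_kc D).mul hh)).intervalIntegrable _ _) fun t _ => ?_
    rw [← mul_assoc]
    exact mul_le_mul_of_nonneg_right (bd_Rep D t) (h0 _)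
  refine le_of_mul_le_mul_left ?_ hD'
  nlinarith [mul_nonneg (mul_nonneg hD'.le (h0 x)) (sub_nonneg.2 Real.two_le_pi)]

end Pool.Agent.MP_2a1f0e_nt.GM4

end

section

set_option autoImplicit false

namespace Pool.Agent.MP_2a1f0e_nt.GM4

open GM GM2 GM3

theorem pairW_all : PairWStmt := pairW_stmt phExp_stmt besW_stmt div_stmt

theorem bp_all : BPStmt :=
  bp_stmt chg_stmt swp_stmt (tva_stmt phMaj_stmt pairW_all iw_stmt)
    (tvb_stmt phMaj_stmt pairW_all iw_stmt) (tvo_stmt iw_stmt)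

theorem wt_all : WtStmt := wt_stmt jack_stmt rep_stmt mod_stmt cv4_stmt htp_stmt

theorem blk4_all : Blk4Stmt :=
  blk4_stmt (red_stmt key2_stmt (rexp_stmt fou_stmt) psi_stmt) wt_all cs_stmt
    (j4_stmt (j0_stmt shear_stmt cv_stmt) bp_all cv4_stmt htp_stmt mo_stmt)
    (i4_stmt shear_stmt exp4_stmt (gy4_stmt tpm_stmt tpp_stmt eep_stmt mo_stmt))
    (shp_stmt bp_all mo_stmt) cv4_stmt

theorem q5_all : Q5Stmt := q5_stmt part_stmt blk4_all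

theorem osc4_all : Osc4Stmt := osc4_stmt decay_stmt zero_stmt (pois_stmt decay_stmt) ksup_all

theorem bb4_all : BB4Stmt :=
  bb4_stmt bil_stmt gl4_stmt (gam4_stmt vdc_all) kk_all3 (near4_stmt osc_all kk_all3)
    (mid3_stmt mom_stmt) (far4_stmt mom_stmt)

theorem q6_all : Q6Stmt := q6_stmt q5_all (dat_stmt rho_all) bb4_all g4_stmt

theorem b5_all : B5Stmt :=
  b5_stmt setup_all hux_stmt cub_stmt q6_all pt_all ptW_stmt
    (set4_stmt osc4_all (jut4_stmt DH.pos_stmt DH.jut_all)) num4_stmt b1_all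

theorem int4_all : Int4Stmt := int4_stmt b5_all b2_all blk_stmt

theorem final4_all : Final4Stmt := final4_stmt int4_all tay_stmt

end Pool.Agent.MP_2a1f0e_nt.GM4

end
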