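import Pool.Agent.Mg.C853.G6e22ef

section

/-!
One piece of the dual packet is a superposition of packets.
-/

set_option autoImplicit false

open Finset MeasureTheory
open scoped ENNReal ComplexConjugate

namespace Pool.Agent.MP_c853c5_nt.W

open Pool.Agent.MP_2a1f0e_nt Pool.Agent.MP_2a1f0e_nt.GM Pool.Agent.MP_2a1f0e_nt.DH

/-- the data of the packets -/
def Dz_Piece (d : Dat) (H' T' : ℝ) (ζ : ℝ × ℝ) : Dat := ⟨d.g, d.al, ζ.2, ζ.1, T', H'⟩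

/-- the weight -/
noncomputable def wt_Piece (M : ℕ) (ζ : ℝ × ℝ) : ℝ := 1 / ((1 + |ζ.1|) * (1 + |ζ.2|)) ^ M

lemma wt_pos_Piece (M : ℕ) (ζ : ℝ × ℝ) : 0 < wt_Piece M ζ := by
  unfold wt_Piece
  positivity

lemma wt_meas_Piece (M : ℕ) : Measurable (wt_Piece M) := by
  unfold wt_Piece
  fun_prop

lemma wt_xi_Piece (m : ℕ) (ζ : ℝ × ℝ) {y : ℝ} (h0 : 0 ≤ y) (h : y ≤ (1 + |ζ.1|) * (1 + |ζ.2|)) :
    wt_Piece (m + 2) ζ * y ^ m ≤ wt_Piece 2 ζ := by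
  unfold wt_Piece
  rw [div_mul_eq_mul_div, one_mul, div_le_div_iff₀ (by positivity) (by positivity), one_mul,
    pow_add]
  gcongr

lemma wt_int_Piece : Integrable (wt_Piece 2) := by
  have h : Integrable fun t : ℝ => 1 / (1 + |t|) ^ 2 := by
    refine (integrable_one_add_norm (E := ℝ) (μ := volume) (r := 2) (by simp)).congr
      (Filter.Eventually.of_forall fun t => ?_)
    beta_reduce
    rw [Real.rpow_neg (by positivity), Real.rpow_two, one_div, Real.norm_eq_abs]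
  refine (h.mul_prod h).congr (Filter.Eventually.of_forall fun ζ => ?_)
  simp only [wt_Piece, mul_pow, div_mul_div_comm, one_mul]

lemma meas_Piece {d : Dat} (h : Measurable d.g) (H' T' : ℝ) (P : Pr) :
    Measurable fun p : (ℝ × ℝ) × MM => pa (Dz_Piece d H' T' p.1) P p.2 :=
  (((measurable_const.mul (h.comp ((continuous_vx P.2).measurable.comp measurable_snd))).mul
    (Complex.measurable_ofReal.comp (measurable_om.comp
      (continuous_dt.measurable.comp measurable_snd)))).mul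
    (measurable_E measurable_fst.snd (((measurable_tt P).comp measurable_snd).div_const _))).mul
    (measurable_E measurable_fst.fst (measurable_const (a := (hh P : ℝ) / H')))

lemma ident_Piece (d : Dat) (q : ℕ) {H' T' : ℝ} (hH : H' ≠ 0) (hT : T' ≠ 0) {c₁ c₂ : ℝ → ℂ}
    (h1 : ∀ z : ℝ, (om z : ℂ) * Eh d.x1 (d.H2 * H' / q * z) = ∫ ζ : ℝ, c₁ ζ * E ζ z)
    (h2 : ∀ z : ℝ, (om z : ℂ) * Eh d.x2 (-(d.H * T' / q) * z) = ∫ ζ : ℝ, c₂ ζ * E ζ z)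
    (P : Pr) (x : MM) : pc d q H' T' P x = ∫ ζ : ℝ × ℝ,
      ((d.PP / q : ℝ) : ℂ) * (c₁ ζ.1 * c₂ ζ.2) * pa (Dz_Piece d H' T' ζ) P x := by
  have e1 := h1 ((hh P : ℝ) / H')
  have e2 := h2 (tt P x / T')
  rw [show d.H2 * H' / q * ((hh P : ℝ) / H') = d.H2 * (hh P : ℝ) / q by field_simp] at e1
  rw [show -(d.H * T' / q) * (tt P x / T') = -(d.H * tt P x / q) by field_simp] at e2
  have e3 : ∀ ζ : ℝ × ℝ, ((d.PP / q : ℝ) : ℂ) * (c₁ ζ.1 * c₂ ζ.2) * pa (Dz_Piece d H' T' ζ) P x =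
      iC (Prim P.2 ∧ hh P ≠ 0) * d.g (vx P.2 x) * (om (dt x) : ℂ) * ((d.PP / q : ℝ) : ℂ) *
        ((c₁ ζ.1 * E ζ.1 ((hh P : ℝ) / H')) * (c₂ ζ.2 * E ζ.2 (tt P x / T'))) := fun ζ => by
    by_cases c : hh P = 0
    · simp only [pa, Dz_Piece, c, Int.cast_zero, zero_div, E_zero, mul_zero, zero_mul]
    · rw [iC_and, iC_pos c]
      simp only [pa, Dz_Piece]
      ring
  simp only [e3]
  rw [integral_const_mul, Measure.volume_eq_prod,
    integral_prod_mul (fun t => c₁ t * E t ((hh P : ℝ) / H')) fun t => c₂ t * E t (tt P x / T'),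
    ← e1, ← e2]
  simp only [pc, pd]
  push_cast
  ring

lemma mink_Piece (hM : MinkIStmt) (hF : FinStmt) {μ : Measure MM} (hμ : SFinite μ) {d : Dat}
    (h0 : 0 < d.al) (hd : Adm d.al d.g) (q : ℕ) {H' T' : ℝ} {Ψ : Pk} {c : ℝ × ℝ → ℂ}
    (hc : Integrable c) (h : ∀ P x, Ψ P x = ∫ ζ, c ζ * pa (Dz_Piece d H' T' ζ) P x)
    {a : ℝ × ℝ → ℝ} {B : ℝ} (a1 : Measurable a) (a2 : Integrable a) (a3 : ∫ ζ, a ζ ≤ B)
    (a4 : ∀ ζ, ‖c ζ‖ ≤ a ζ) : LN μ q Prod.fst Ψ ≤ ENNReal.ofReal B *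
      ∫⁻ ζ, ENNReal.ofReal (a ζ) * LN μ q Prod.fst (pa (Dz_Piece d H' T' ζ)) := by
  refine hM (ℝ × ℝ) μ hμ q _ (fun ζ => vf q Prod.fst (pa (Dz_Piece d H' T' ζ))) c a B
    (fun w => measurable_vf q Prod.fst (meas_Piece hd.1 H' T') w) a1 a2 a3 a4 fun x w _ => ?_
  have z : ∀ ζ, ∀ P ∉ (hF d.al T' H' x h0).toFinset, pa (Dz_Piece d H' T' ζ) P x = 0 :=
    fun ζ P hP => by_contra fun k =>
      hP ((Set.Finite.mem_toFinset _).2 (pa_supA (d := Dz_Piece d H' T' ζ) hd k))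
  have e1 : ∀ ζ, c ζ * vf q Prod.fst (pa (Dz_Piece d H' T' ζ)) x w =
      ∑ P ∈ (hF d.al T' H' x h0).toFinset,
        c ζ * pa (Dz_Piece d H' T' ζ) P x * ind q (om2 w P.1) := fun ζ => by
    rw [vf, tsum_eq_sum fun P hP => by rw [z ζ P hP, zero_mul], mul_sum]
    simp only [mul_assoc]
  have e2 : ∀ P, Integrable fun ζ => c ζ * pa (Dz_Piece d H' T' ζ) P x * ind q (om2 w P.1) :=
    fun P => (hc.mul_bdd ((meas_Piece hd.1 H' T' P).comp
      (measurable_id.prodMk measurable_const)).aestronglyMeasurable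
      (Filter.Eventually.of_forall fun ζ =>
        norm_pa_le (d := Dz_Piece d H' T' ζ) hd.2.1 P x)).mul_const _
  simp only [e1]
  refine ⟨integrable_finsetSum _ fun P _ => e2 P, ?_⟩
  rw [integral_finsetSum _ fun P _ => e2 P, vf, tsum_eq_sum (s := (hF d.al T' H' x h0).toFinset)
    fun P hP => by simp only [h, z _ P hP, mul_zero, integral_zero, zero_mul]]
  exact sum_congr rfl fun P _ => by rw [h, integral_mul_const]

lemma coef_Piece {C ξ X l L t u : ℝ} {M : ℕ} (hC : 0 < C) (hX : 1 + |ξ| ≤ X) (hL : 0 ≤ L)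
    (hl : L ≤ 2 * |l|) (h : u ≤ C * (1 + |ξ|) ^ (M + 3) / ((1 + |l|) ^ 3 * (1 + |t|) ^ M)) :
    u ≤ 8 * C * X ^ (M + 3) / (1 + L) ^ 3 / (1 + |t|) ^ M := by
  have h0 : 0 ≤ X := le_trans (by positivity) hX
  refine h.trans ?_
  rw [← div_div]
  refine div_le_div_of_nonneg_right ?_ (by positivity)
  rw [div_le_div_iff₀ (by positivity) (by positivity)]
  have h1 : (1 + L) ^ 3 ≤ (2 * (1 + |l|)) ^ 3 := by
    gcongr
    linarith
  calc C * (1 + |ξ|) ^ (M + 3) * (1 + L) ^ 3 ≤ C * X ^ (M + 3) * (2 * (1 + |l|)) ^ 3 := by gcongr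
    _ = _ := by ring

lemma num_Piece (d : Dat) {H' T' Q s : ℝ} (ζ : ℝ × ℝ) (hQ : 0 < Q) (hs : 0 ≤ s) :
    (d.PP / Q) ^ 2 * ((Dz_Piece d H' T' ζ).DD * Q + (Dz_Piece d H' T' ζ).XX * s) ≤
      ((1 + |d.H2| * |H'| / Q) * (1 + |d.H| * |T'| / Q)) ^ 2 * (d.DD * Q + d.XX * s) := by
  obtain ⟨l₁, h1⟩ : ∃ l, l = |d.H2| * |H'| / Q := ⟨_, rfl⟩
  obtain ⟨l₂, h2⟩ : ∃ l, l = |d.H| * |T'| / Q := ⟨_, rfl⟩
  have p1 : 0 ≤ l₁ := by rw [h1]; positivity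
  have p2 : 0 ≤ l₂ := by rw [h2]; positivity
  have e1 : (d.PP / Q) ^ 2 * (Dz_Piece d H' T' ζ).DD =
      d.al ^ 2 * (l₁ * l₂ * d.PP + l₁ ^ 2 * d.H ^ 2) := by
    simp only [Dat.DD, Dat.PP, Dz_Piece, h1, h2]
    rw [← sq_abs H', ← sq_abs d.H]
    ring
  have e2 : (d.PP / Q) ^ 2 * (Dz_Piece d H' T' ζ).XX =
      d.al ^ 4 * (l₂ ^ 2 * d.H2 ^ 2 + l₁ * l₂ * d.PP) := by
    simp only [Dat.XX, Dat.PP, Dz_Piece, h1, h2]
    rw [← sq_abs T', ← sq_abs d.H2]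
    ring
  have p3 := mul_nonneg p1 p2
  have k0 : 1 ≤ (1 + l₁) * (1 + l₂) := by nlinarith
  have k1 : l₁ * l₂ ≤ ((1 + l₁) * (1 + l₂)) ^ 2 := by nlinarith
  have k2 : l₁ ^ 2 ≤ ((1 + l₁) * (1 + l₂)) ^ 2 := pow_le_pow_left₀ p1 (by nlinarith) 2
  have k3 : l₂ ^ 2 ≤ ((1 + l₁) * (1 + l₂)) ^ 2 := pow_le_pow_left₀ p2 (by nlinarith) 2
  have p4 := d.PP_nonneg
  rw [← h1, ← h2, mul_add, ← mul_assoc, ← mul_assoc, e1, e2]
  calc _ ≤ d.al ^ 2 * (((1 + l₁) * (1 + l₂)) ^ 2 * d.PP + ((1 + l₁) * (1 + l₂)) ^ 2 * d.H ^ 2) * Q +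
        d.al ^ 4 * (((1 + l₁) * (1 + l₂)) ^ 2 * d.H2 ^ 2 + ((1 + l₁) * (1 + l₂)) ^ 2 * d.PP) *
          s := by gcongr
    _ = _ := by
      simp only [Dat.DD, Dat.XX]
      ring

lemma size_Piece {a b c Λ Q L : ℝ} (hQ : 0 < Q) (ha : 0 ≤ a) (hb : b ≤ Λ) (hc : 0 ≤ c)
    (h : Q ≤ 2 * (a * b)) (hΛ : 0 ≤ Λ) (hL : a * c / Q ≤ L) : c ≤ 2 * L * Λ := by
  have h1 : c ≤ 2 * (a * c / Q) * Λ := by
    rw [show 2 * (a * c / Q) * Λ = 2 * (a * Λ) * c / Q by ring, le_div_iff₀ hQ, mul_comm]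
    exact mul_le_mul_of_nonneg_right (h.trans (by gcongr)) hc
  exact h1.trans (by gcongr)

theorem piece_stmt (hC : Co1Stmt) (hM : MinkIStmt) (hF : FinStmt) : PieceStmt := by
  rintro η - - ⟨m, hm⟩
  refine ⟨4 * (m + 5), fun ε hε => ?_⟩
  obtain ⟨K, hK, hm⟩ := hm (min ε 1) (lt_min hε one_pos)
  obtain ⟨C, hC0, hC⟩ := hC (m + 2) 3
  obtain ⟨J, hJ0, hJ⟩ : ∃ J : ℝ, 0 < J ∧ ∫ ζ, wt_Piece 2 ζ ≤ J :=
    ⟨|∫ ζ, wt_Piece 2 ζ| + 1, by positivity, by linarith [le_abs_self (∫ ζ, wt_Piece 2 ζ)]⟩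
  refine ⟨4 * (64 * C ^ 2 * J) ^ 2 * K, by positivity, ?_⟩
  intro μ hμ d Λ Q H' T' hd _ hQP hH hT
  have hΛ := hd.one_le
  obtain ⟨d0, d1, d2, d3, d4, d5, d6⟩ := hd
  have hQ : (0 : ℝ) < Q := by exact_mod_cast d5
  have hxi := d.one_le_xi
  have hPP := d.PP_nonneg
  obtain ⟨l₁, h1⟩ : ∃ l, l = |d.H2| * |H'| / Q := ⟨_, rfl⟩
  obtain ⟨l₂, h2⟩ : ∃ l, l = |d.H| * |T'| / Q := ⟨_, rfl⟩
  have p1 : 0 ≤ l₁ := by rw [h1]; positivity
  have p2 : 0 ≤ l₂ := by rw [h2]; positivity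
  have p3 := mul_nonneg p1 p2
  obtain ⟨L, hL⟩ : ∃ L, L = (1 + l₁) * (1 + l₂) := ⟨_, rfl⟩
  have L1 : 1 ≤ L := by rw [hL]; nlinarith
  have hΛ' : Λ ≤ 2 * L * Λ := by nlinarith
  obtain ⟨a₀, ha₀⟩ : ∃ a, a = d.PP / Q * (64 * C ^ 2 * d.xi ^ (2 * (m + 5)) / L ^ 3) := ⟨_, rfl⟩
  have a0 : 0 ≤ a₀ := by rw [ha₀]; positivity
  have hw : ∀ ζ, wt_Piece (m + 2) ζ ≤ wt_Piece 2 ζ := fun ζ => by
    have := wt_xi_Piece m ζ zero_le_one
      (one_le_mul_of_one_le_of_one_le (by linarith [abs_nonneg ζ.1]) (by linarith [abs_nonneg ζ.2]))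
    rwa [one_pow, mul_one] at this
  have hi : Integrable (wt_Piece (m + 2)) :=
    wt_int_Piece.mono' (wt_meas_Piece _).aestronglyMeasurable
      (Filter.Eventually.of_forall fun ζ => by
        rw [Real.norm_of_nonneg (wt_pos_Piece _ ζ).le]
        exact hw ζ)
  have step : ∀ q ∈ Ico Q (2 * Q), LN μ q Prod.fst (pc d q H' T') ≤ ENNReal.ofReal (a₀ * J) *
      ∫⁻ ζ, ENNReal.ofReal (a₀ * wt_Piece (m + 2) ζ) *
        LN μ q Prod.fst (pa (Dz_Piece d H' T' ζ)) := by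
    intro q hq
    have q1 : (Q : ℝ) ≤ q := by exact_mod_cast (mem_Ico.1 hq).1
    have q2 : (q : ℝ) ≤ 2 * Q := by exact_mod_cast (mem_Ico.1 hq).2.le
    have q0 : (0 : ℝ) < q := hQ.trans_le q1
    obtain ⟨c₁, -, i1, b1, e1⟩ := hC d.x1 (d.H2 * H' / q)
    obtain ⟨c₂, -, i2, b2, e2⟩ := hC d.x2 (-(d.H * T' / q))
    have half : ∀ y : ℝ, 0 ≤ y → y / Q ≤ 2 * (y / q) := fun y hy => by
      rw [mul_div_assoc', div_le_div_iff₀ hQ q0]
      nlinarith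
    refine mink_Piece hM hF hμ.1 d0 d1 q ((i1.mul_prod i2).const_mul _)
      (ident_Piece d q hH hT e1 e2) ((wt_meas_Piece _).const_mul _) (hi.const_mul _) ?_ fun ζ => ?_
    · rw [integral_const_mul]
      exact mul_le_mul_of_nonneg_left ((integral_mono hi wt_int_Piece hw).trans hJ) a0
    · have k1 := coef_Piece (X := d.xi) (L := l₁) hC0
        (by rw [Dat.xi]; linarith [abs_nonneg d.x2]) p1 (by
          rw [h1, abs_div, abs_mul, abs_of_pos q0]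
          exact half _ (by positivity)) (b1 ζ.1)
      have k2 := coef_Piece (X := d.xi) (L := l₂) hC0
        (by rw [Dat.xi]; linarith [abs_nonneg d.x1]) p2 (by
          rw [h2, abs_neg, abs_div, abs_mul, abs_of_pos q0]
          exact half _ (by positivity)) (b2 ζ.2)
      rw [norm_mul, norm_mul, Complex.norm_real, Real.norm_of_nonneg (by positivity)]
      refine (mul_le_mul (div_le_div_of_nonneg_left hPP hQ q1)
        (mul_le_mul k1 k2 (norm_nonneg _) (by positivity)) (by positivity)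
        (by positivity)).trans_eq ?_
      rw [ha₀, hL, wt_Piece, mul_pow, mul_pow]
      field_simp
      ring
  obtain ⟨Z, hZ⟩ : ∃ Z, Z = K * (2 * L * Λ) ^ min ε 1 * ((1 + |T'| * |H'| / Q) *
      ((Dz_Piece d H' T' 0).DD * Q + (Dz_Piece d H' T' 0).XX * (Q : ℝ) ^ η)) := ⟨_, rfl⟩
  have z1 := (Dz_Piece d H' T' 0).DD_nonneg
  have z2 := (Dz_Piece d H' T' 0).XX_nonneg
  have z0 : 0 ≤ Z := by rw [hZ]; positivity
  have s1 : |T'| ≤ 2 * L * Λ :=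
    size_Piece hQ (abs_nonneg d.H) d3 (abs_nonneg T') (by rwa [mul_comm |d.H|])
      (by linarith) (by rw [← h2, hL]; nlinarith)
  have s2 : |H'| ≤ 2 * L * Λ := size_Piece hQ (abs_nonneg d.H2) d4 (abs_nonneg H') hQP
    (by linarith) (by rw [← h1, hL]; nlinarith)
  have inner : ∀ ζ : ℝ × ℝ, ∑ q ∈ Ico Q (2 * Q), ENNReal.ofReal (a₀ * wt_Piece (m + 2) ζ) *
      LN μ q Prod.fst (pa (Dz_Piece d H' T' ζ)) ≤ ENNReal.ofReal (a₀ * Z * wt_Piece 2 ζ) := by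
    intro ζ
    have k := hm μ hμ (Dz_Piece d H' T' ζ) (2 * L * Λ) Q (fun _ _ => 1) (|T'| * |H'| / Q)
      ⟨d0, d1, d2.trans hΛ', s1, s2, d5, d6.trans hΛ'⟩ (by positivity)
      (fun q k hk => by
        rw [norm_one]
        exact_mod_cast card_pos.2 ⟨1, Nat.one_mem_divisors.2 (by omega)⟩)
      (fun q k hk _ => by
        rw [div_mul_cancel₀ _ hQ.ne']
        refine mul_le_mul_of_nonneg_left ?_ (Dat.PP_nonneg _)
        exact_mod_cast (Nat.gcd_le_left q hk).trans (Nat.le_self_pow two_ne_zero k))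
    simp only [one_mul] at k
    have w0 := wt_pos_Piece (m + 2) ζ
    rw [← mul_sum]
    refine (mul_le_mul_right k _).trans ?_
    rw [← ENNReal.ofReal_mul (by positivity)]
    refine ENNReal.ofReal_le_ofReal ?_
    have k2 := wt_xi_Piece m ζ (zero_le_one.trans (Dz_Piece d H' T' ζ).one_le_xi) (by
      show 1 + |ζ.2| + |ζ.1| ≤ _
      nlinarith [mul_nonneg (abs_nonneg ζ.1) (abs_nonneg ζ.2)])
    refine le_trans (le_of_eq ?_) (mul_le_mul_of_nonneg_left k2 (mul_nonneg a0 z0))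
    rw [hZ]
    simp only [Dat.DD, Dat.XX, Dat.PP, Dz_Piece]
    ring
  refine (sum_le_sum step).trans ?_
  rw [← mul_sum]
  refine (mul_le_mul_right ((sum_lintegral_le _ _ _).trans (lintegral_mono inner)) _).trans ?_
  rw [← ofReal_integral_eq_lintegral_ofReal (wt_int_Piece.const_mul _)
    (Filter.Eventually.of_forall fun ζ => mul_nonneg (mul_nonneg a0 z0) (wt_pos_Piece 2 ζ).le),
    ← ENNReal.ofReal_mul (by positivity), integral_const_mul]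
  refine ENNReal.ofReal_le_ofReal ?_
  have n1 := num_Piece d (H' := H') (T' := T') 0 hQ (Real.rpow_nonneg hQ.le η)
  rw [← h1, ← h2, ← hL] at n1
  have n2 : (2 * L * Λ) ^ min ε 1 ≤ 2 * L * Λ ^ ε := by
    rw [Real.mul_rpow (by positivity) (by positivity)]
    exact mul_le_mul ((Real.rpow_le_rpow_of_exponent_le (by linarith) (min_le_right _ _)).trans_eq
      (Real.rpow_one _)) (Real.rpow_le_rpow_of_exponent_le hΛ (min_le_left _ _)) (by positivity)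
      (by positivity)
  have n3 : 1 + |T'| * |H'| / Q ≤ 2 * L := by
    have : |T'| * |H'| / Q ≤ 2 * (l₁ * l₂) := by
      rw [h1, h2, show 2 * (|d.H2| * |H'| / Q * (|d.H| * |T'| / Q)) =
        |T'| * |H'| / Q * (2 * d.PP / Q) by rw [Dat.PP]; ring]
      exact le_mul_of_one_le_right (by positivity) ((one_le_div hQ).2 hQP)
    rw [hL]
    nlinarith
  rw [← h1, ← h2, ← mul_pow, ← hL]
  have y1 := d.DD_nonneg
  have y2 := d.XX_nonneg
  calc a₀ * J * (a₀ * Z * ∫ ζ, wt_Piece 2 ζ) ≤ a₀ * J * (a₀ * Z * J) := by gcongr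
    _ = (64 * C ^ 2 * J * d.xi ^ (2 * (m + 5)) / L ^ 3) ^ 2 * K * ((2 * L * Λ) ^ min ε 1 *
        ((1 + |T'| * |H'| / Q) * ((d.PP / Q) ^ 2 * ((Dz_Piece d H' T' 0).DD * Q +
          (Dz_Piece d H' T' 0).XX * (Q : ℝ) ^ η)))) := by
      rw [ha₀, hZ]
      ring
    _ ≤ (64 * C ^ 2 * J * d.xi ^ (2 * (m + 5)) / L ^ 3) ^ 2 * K * (2 * L * Λ ^ ε *
        (2 * L * (L ^ 2 * (d.DD * Q + d.XX * (Q : ℝ) ^ η)))) := by gcongr
    _ = _ := by
      field_simp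
      ring

end Pool.Agent.MP_c853c5_nt.W

end

section

/-! The decomposition of the top sums according to the size of the determinant. -/

set_option autoImplicit false

open Finset MeasureTheory
open scoped ENNReal ComplexConjugate

namespace Pool.Agent.MP_c853c5_nt.W

open Pool.Agent.MP_2a1f0e_nt Pool.Agent.MP_2a1f0e_nt.GM Pool.Agent.MP_2a1f0e_nt.DH

/-- the part of the partition of unity that is left -/
noncomputable def tl_TopSum (I : ℕ) (h : ℤ) : ℝ :=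
  if h = 0 then 0 else 1 - psi (|(h : ℝ)| / (4 / 5 * (4 / 3) ^ I))

lemma abs_tl_TopSum (I : ℕ) (h : ℤ) : |tl_TopSum I h| ≤ 1 := by
  unfold tl_TopSum
  split_ifs
  · simp
  · rw [abs_le]
    constructor <;> linarith [psi_nonneg (|(h : ℝ)| / (4 / 5 * (4 / 3) ^ I)),
      psi_le_one (|(h : ℝ)| / (4 / 5 * (4 / 3) ^ I))]

lemma tl_ne_TopSum {I : ℕ} {h : ℤ} (k : tl_TopSum I h ≠ 0) : 4 / 5 * (4 / 3) ^ I ≤ |(h : ℝ)| := by
  by_contra hn
  refine k ?_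
  unfold tl_TopSum
  rw [psi_eq_one ((div_le_one (by positivity)).2 (not_le.1 hn).le)]
  simp

lemma part_TopSum (I : ℕ) (h : ℤ) : iC (h = 0) + (tl_TopSum I h : ℂ) +
    ∑ s ∈ univ ×ˢ range I, (om ((h : ℝ) / Ts (4 / 5) s) : ℂ) = 1 := by
  by_cases h0 : h = 0
  · subst h0
    simp [iC_pos, tl_TopSum, om_zero]
  · have h1 : (1 : ℝ) ≤ |(h : ℝ)| := by exact_mod_cast Int.one_le_abs h0
    have e : ∑ s ∈ univ ×ˢ range I, om ((h : ℝ) / Ts (4 / 5) s) =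
        ∑ i ∈ range I, om (|(h : ℝ)| / (4 / 5 * (4 / 3) ^ i)) := by
      rw [sum_product_right]
      refine sum_congr rfl fun i _ => ?_
      have p : (0 : ℝ) < 4 / 5 * (4 / 3) ^ i := by positivity
      simp only [Fintype.sum_bool, Ts, if_true, one_mul, Bool.false_eq_true, if_false, neg_mul,
        div_neg]
      rcases le_total 0 (h : ℝ) with k | k
      · have : 0 ≤ (h : ℝ) / (4 / 5 * (4 / 3) ^ i) := by positivity
        rw [abs_of_nonneg k, om_eq_zero (x := -_) (Or.inl (by linarith)), add_zero]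
      · have : (h : ℝ) / (4 / 5 * (4 / 3) ^ i) ≤ 0 := div_nonpos_of_nonpos_of_nonneg k p.le
        rw [abs_of_nonpos k, om_eq_zero (x := _ / _) (Or.inl (by linarith)), zero_add, neg_div]
    rw [iC_neg h0, ← Complex.ofReal_sum, e, om_tel, tl_TopSum, if_neg h0,
      psi_eq_zero (x := |(h : ℝ)| / (4 / 5)) (by rw [le_div_iff₀ (by norm_num)]; linarith)]
    push_cast
    ring

lemma ts_TopSum (T y : ℝ) (a b e f M I : ℕ) :
    TS T y a b e f M (fun P => iC (Nat.Coprime (ap a e) (ap b e)) *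
      ind (ap a e * ap b e) (om2 ((ap a e : ℤ), (ap b e : ℤ)) P.1)) =
    iC (Nat.Coprime (ap a e) (ap b e)) * ((1 / psiD (ap a e * ap b e) : ℝ) : ℂ) *
        TS T y a b e f M (fun _ => 1) +
      TS T y a b e f M (fun P => iC (hh P = 0) * dlT a b e P) +
      TS T y a b e f M (fun P => dlT a b e P * (tl_TopSum I (hh P) : ℂ)) +
      ∑ s ∈ univ ×ˢ range I,
        TS T y a b e f M fun P => dlT a b e P * (om ((hh P : ℝ) / Ts (4 / 5) s) : ℂ) := by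
  unfold TS
  rw [sum_comm, mul_sum, ← sum_add_distrib, ← sum_add_distrib, ← sum_add_distrib]
  refine sum_congr rfl fun P _ => ?_
  have k := part_TopSum I (hh P)
  rw [← mul_sum, ← mul_sum, eq_sub_of_add_eq' k]
  simp only [dlT, dl]
  ring

lemma lev_TopSum {a b : ℕ} (e : ℕ) (ha : 1 ≤ a) (hb : 1 ≤ b) :
    ‖iC (Nat.Coprime (ap a e) (ap b e)) * ((1 / psiD (ap a e * ap b e) : ℝ) : ℂ)‖ ≤
      (Nat.gcd a e : ℝ) / a * ((Nat.gcd b e : ℝ) / b) := by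
  have key : ∀ c : ℕ, 1 ≤ c → 0 < (ap c e : ℝ) ∧ (Nat.gcd c e : ℝ) / c = 1 / ap c e := by
    intro c hc
    have g0 : 0 < Nat.gcd c e := Nat.gcd_pos_of_pos_left _ hc
    have e1 : (ap c e : ℝ) = c / Nat.gcd c e :=
      Nat.cast_div (Nat.gcd_dvd_left _ _) (Nat.cast_ne_zero.2 g0.ne')
    rw [e1, one_div_div]
    exact ⟨by positivity, rfl⟩
  obtain ⟨p1, e1⟩ := key a ha
  obtain ⟨p2, e2⟩ := key b hb
  have l := le_psiD (ap a e * ap b e)
  push_cast at l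
  have p3 := mul_pos p1 p2
  rw [norm_mul, Complex.norm_real, Real.norm_of_nonneg (one_div_pos.2 (p3.trans_le l)).le, e1, e2,
    one_div_mul_one_div]
  exact (mul_le_of_le_one_left (one_div_pos.2 (p3.trans_le l)).le (norm_iC_le _)).trans
    (one_div_le_one_div_of_le p3 l)

lemma ef_TopSum {T y g c₁ c₃ c₄ : ℝ} {N M e f I : ℕ} (hN : 1 ≤ N) (hc : 0 ≤ c₁)
    (hg : ∑ a ∈ Icc N (2 * N), (Nat.gcd a e : ℝ) / a ≤ g)
    (h1 : ∀ a ∈ Icc N (2 * N), ∀ b ∈ Icc N (2 * N), ‖TS T y a b e f M fun _ => 1‖ ≤ c₁)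
    (h3 : ∀ a ∈ Icc N (2 * N), ∀ b ∈ Icc N (2 * N), ∀ κ : Pr → ℂ, (∀ P, ‖κ P‖ ≤ 1) →
      (∀ P, κ P ≠ 0 → 4 / 5 * (4 / 3) ^ I ≤ |(hh P : ℝ)|) → ‖TS T y a b e f M κ‖ ≤ c₃)
    (h4 : ∀ s : Bool × ℕ, s.2 < I → ∑ a ∈ Icc N (2 * N), ∑ b ∈ Icc N (2 * N),
      ‖TS T y a b e f M fun P => dlT a b e P * (om ((hh P : ℝ) / Ts (4 / 5) s) : ℂ)‖ ≤ c₄) :
    ∑ a ∈ Icc N (2 * N), ∑ b ∈ Icc N (2 * N),
      ‖TS T y a b e f M fun P => iC (Nat.Coprime (ap a e) (ap b e)) *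
        ind (ap a e * ap b e) (om2 ((ap a e : ℤ), (ap b e : ℤ)) P.1)‖ ≤
    ∑ a ∈ Icc N (2 * N), ∑ b ∈ Icc N (2 * N),
      ‖TS T y a b e f M fun P => iC (hh P = 0) * dlT a b e P‖ +
      (g ^ 2 * c₁ + ((N : ℝ) + 1) ^ 2 * c₃ + 2 * I * c₄) := by
  have step : ∀ a ∈ Icc N (2 * N), ∀ b ∈ Icc N (2 * N),
      ‖TS T y a b e f M fun P => iC (Nat.Coprime (ap a e) (ap b e)) *
        ind (ap a e * ap b e) (om2 ((ap a e : ℤ), (ap b e : ℤ)) P.1)‖ ≤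
      (Nat.gcd a e : ℝ) / a * ((Nat.gcd b e : ℝ) / b) * c₁ +
        ‖TS T y a b e f M fun P => iC (hh P = 0) * dlT a b e P‖ + c₃ +
        ∑ s ∈ univ ×ˢ range I,
          ‖TS T y a b e f M fun P => dlT a b e P * (om ((hh P : ℝ) / Ts (4 / 5) s) : ℂ)‖ := by
    intro a ha b hb
    have a1 : 1 ≤ a := hN.trans (mem_Icc.1 ha).1
    have b1 : 1 ≤ b := hN.trans (mem_Icc.1 hb).1
    rw [ts_TopSum T y a b e f M I]
    refine norm_add_le_of_le (norm_add_le_of_le (norm_add_le_of_le ?_ le_rfl) ?_) (norm_sum_le _ _)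
    · rw [norm_mul]
      exact mul_le_mul (lev_TopSum e a1 b1) (h1 a ha b hb) (norm_nonneg _) (by positivity)
    · refine h3 a ha b hb _ (fun P => ?_) fun P k => tl_ne_TopSum fun k' => k (by simp [k'])
      rw [norm_mul, Complex.norm_real]
      exact mul_le_one₀ (norm_dlT_le a1 b1 P) (norm_nonneg _) (abs_tl_TopSum _ _)
  refine (sum_le_sum fun a ha => sum_le_sum fun b hb => step a ha b hb).trans ?_
  simp only [sum_add_distrib]
  have s1 : ∑ a ∈ Icc N (2 * N), ∑ b ∈ Icc N (2 * N),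
      (Nat.gcd a e : ℝ) / a * ((Nat.gcd b e : ℝ) / b) * c₁ ≤ g ^ 2 * c₁ := by
    simp only [← sum_mul]
    rw [← sum_mul_sum, ← sq]
    exact mul_le_mul_of_nonneg_right (pow_le_pow_left₀ (by positivity) hg 2) hc
  have s3 : ∑ a ∈ Icc N (2 * N), ∑ b ∈ Icc N (2 * N), c₃ = ((N : ℝ) + 1) ^ 2 * c₃ := by
    simp only [sum_const, Nat.card_Icc, show 2 * N + 1 - N = N + 1 by omega, nsmul_eq_mul]
    push_cast
    ring
  have s4 : ∑ a ∈ Icc N (2 * N), ∑ b ∈ Icc N (2 * N), ∑ s ∈ univ ×ˢ range I,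
      ‖TS T y a b e f M fun P => dlT a b e P * (om ((hh P : ℝ) / Ts (4 / 5) s) : ℂ)‖ ≤
      2 * I * c₄ := by
    rw [sum_congr rfl fun a _ => sum_comm, sum_comm]
    refine (sum_le_card_nsmul _ _ c₄ fun s hs => h4 s (mem_range.1 (mem_product.1 hs).2)).trans ?_
    simp
  linarith

lemma comm_TopSum (R J : Finset ℕ) (F : ℕ → ℕ → ℕ → ℕ → ℝ) :
    ∑ a ∈ R, ∑ b ∈ R, ∑ e ∈ J, ∑ f ∈ J, F a b e f =
      ∑ e ∈ J, ∑ f ∈ J, ∑ a ∈ R, ∑ b ∈ R, F a b e f :=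
  calc _ = ∑ p ∈ R ×ˢ R, ∑ q ∈ J ×ˢ J, F p.1 p.2 q.1 q.2 := by simp only [sum_product]
    _ = ∑ q ∈ J ×ˢ J, ∑ p ∈ R ×ˢ R, F p.1 p.2 q.1 q.2 := sum_comm
    _ = _ := by simp only [sum_product]

lemma exI_TopSum {B Δ : ℝ} {X : ℕ} (hX : DivB X Δ) (hB : B ≤ 4 / 5 * X) :
    ∃ I : ℕ, (I : ℝ) ≤ 3 * Δ ∧ B ≤ 4 / 5 * (4 / 3) ^ I ∧ ∀ i < I, 4 / 5 * (4 / 3 : ℝ) ^ i ≤ B := by
  classical
  have h1 : B < 4 / 5 * (4 / 3) ^ (3 * (Nat.log 2 X + 1)) := by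
    have h2 : (X : ℝ) < 2 ^ (Nat.log 2 X + 1) := by
      exact_mod_cast Nat.lt_pow_succ_log_self one_lt_two X
    have h3 : (2 : ℝ) ^ (Nat.log 2 X + 1) ≤ (4 / 3) ^ (3 * (Nat.log 2 X + 1)) := by
      rw [pow_mul]
      exact pow_le_pow_left₀ (by norm_num) (by norm_num) _
    linarith
  have ex : ∃ I : ℕ, B < 4 / 5 * (4 / 3) ^ I := ⟨_, h1⟩
  refine ⟨Nat.find ex, ?_, (Nat.find_spec ex).le, fun i hi => not_lt.1 (Nat.find_min ex hi)⟩
  have h4 : (Nat.find ex : ℝ) ≤ (3 * (Nat.log 2 X + 1) : ℕ) := by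
    exact_mod_cast Nat.find_min' ex h1
  have h5 := DivB_log hX le_rfl
  push_cast at h4
  linarith

lemma abs_Ts_TopSum (s : Bool × ℕ) : |Ts (4 / 5) s| = 4 / 5 * (4 / 3) ^ s.2 := by
  have p : (0 : ℝ) < 4 / 5 * (4 / 3) ^ s.2 := by positivity
  unfold Ts
  split_ifs
  · rw [one_mul, abs_of_pos p]
  · rw [neg_one_mul, abs_neg, abs_of_pos p]

end Pool.Agent.MP_c853c5_nt.W

end

section

/-! The summation at the top level. -/

set_option autoImplicit false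

open Finset MeasureTheory
open scoped ENNReal ComplexConjugate

namespace Pool.Agent.MP_c853c5_nt.W

open Pool.Agent.MP_2a1f0e_nt Pool.Agent.MP_2a1f0e_nt.GM Pool.Agent.MP_2a1f0e_nt.DH

lemma norm_Zo_TopSum {y : ℝ} (hy : 0 < y) (t : ℝ) : ‖Zo y t‖ ≤ 2 * y := by
  refine (norm_sum_le _ _).trans ((sum_le_card_nsmul _ _ 1 fun n _ => ?_).trans ?_)
  · rw [norm_mul, norm_pw, mul_one]
    exact norm_om_le _
  · simpa using Nat.floor_le (show 0 ≤ 2 * y by linarith)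

lemma small_TopSum {N : ℕ} {T y : ℝ} {α : ℕ → ℂ} (hT : 1 ≤ T) (hT' : T ≤ 10 ^ 8) (hy : 0 < y)
    (hy' : y ≤ 2 * T) (hN : 1 ≤ N) (hN' : (N : ℝ) ≤ 2 * T) (hα : ∀ n, ‖α n‖ ≤ 1) :
    ∫ t in T..(2 * T), ‖Zo y t‖ ^ 4 * ‖DP N α t‖ ^ 2 ≤ 10 ^ 27 * (T * (y ^ 2 * N)) := by
  have n1 : (1 : ℝ) ≤ N := by exact_mod_cast hN
  have h := intervalIntegral.norm_integral_le_of_norm_le_const (a := T) (b := 2 * T)
    (f := fun t => ‖Zo y t‖ ^ 4 * ‖DP N α t‖ ^ 2) (C := (2 * y) ^ 4 * (2 * N) ^ 2) fun t _ => by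
      rw [Real.norm_of_nonneg (by positivity)]
      have h1 := norm_Zo_TopSum hy t
      have h2 : ‖DP N α t‖ ≤ 2 * N := (norm_DP_le N α hα t).trans (by linarith)
      gcongr
  rw [abs_of_nonneg (by linarith)] at h
  refine ((le_abs_self _).trans h).trans ?_
  have h3 : y ^ 2 * N ≤ (2 * 10 ^ 8) ^ 2 * (2 * 10 ^ 8) := by
    have : y ≤ 2 * 10 ^ 8 := by linarith
    have : (N : ℝ) ≤ 2 * 10 ^ 8 := by linarith
    gcongr
  have h4 : 0 ≤ T * (y ^ 2 * N) := by positivity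
  calc _ = 64 * (y ^ 2 * N) * (T * (y ^ 2 * N)) := by ring
    _ ≤ _ := mul_le_mul_of_nonneg_right (by linarith) h4

lemma red_TopSum (hE : ExpStmt) {N : ℕ} {T : ℝ} (y : ℝ) {α : ℕ → ℂ} (hT : 0 < T) (hN : 1 ≤ N)
    (hα : ∀ n, ‖α n‖ ≤ 1) : ∫ t in T..(2 * T), ‖Zo y t‖ ^ 4 * ‖DP N α t‖ ^ 2 ≤
      T * ∑ a ∈ Icc N (2 * N), ∑ b ∈ Icc N (2 * N), ‖Q4 T y a b‖ := by
  obtain ⟨h1, h2⟩ := hE N T y α hN hT
  rw [intervalIntegral.integral_of_le (by linarith)]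
  calc _ = ∫ t in Set.Ioc T (2 * T), Wt (t / T) * (‖Zo y t‖ ^ 4 * ‖DP N α t‖ ^ 2) :=
        setIntegral_congr_fun measurableSet_Ioc fun t ht => by
          rw [Wt_eq_one ((one_le_div hT).2 ht.1.le) ((div_le_iff₀ hT).2 ht.2), one_mul]
    _ ≤ ∫ t, Wt (t / T) * (‖Zo y t‖ ^ 4 * ‖DP N α t‖ ^ 2) :=
        setIntegral_le_integral h1 (Filter.Eventually.of_forall fun t =>
          mul_nonneg (Wt_nonneg _) (by positivity))
    _ ≤ _ := by
        refine (le_abs_self _).trans ?_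
        rw [← Real.norm_eq_abs, ← Complex.norm_real, h2, norm_mul, Complex.norm_real,
          Real.norm_of_nonneg hT.le]
        refine mul_le_mul_of_nonneg_left ((norm_sum_le _ _).trans (sum_le_sum fun a _ =>
          (norm_sum_le _ _).trans (sum_le_sum fun b _ => ?_))) hT.le
        rw [norm_mul, norm_mul, Complex.norm_conj]
        exact mul_le_of_le_one_left (norm_nonneg _) (mul_le_one₀ (hα a) (norm_nonneg _) (hα b))

lemma n1_TopSum {T : ℝ} (T0 : 0 < T) (n : ℝ) : T * ((n ^ 2 + √T) / √T) = T + √T * n ^ 2 := by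
  have s0 : 0 < √T := Real.sqrt_pos.2 T0
  have := Real.mul_self_sqrt T0.le
  field_simp
  nlinarith

lemma n2_TopSum {T m p : ℝ} (h1 : 1 ≤ T) (a1 : m ≤ 4 * p + 1) (a2 : p ≤ 2 * T * (2 * T)) :
    m ≤ 20 * T ^ 2 := by nlinarith

lemma n3_TopSum {T m x : ℝ} (h1 : 1 ≤ T) (a1 : m ≤ 20 * T ^ 2) (a2 : 20 * T ^ 3 ≤ x) :
    m ≤ x := by nlinarith [sq_nonneg T]

lemma n4_TopSum {T n : ℝ} (h1 : 1 ≤ T) (a0 : 1 ≤ n) (a1 : n ≤ 2 * T) :
    (n + 1) ^ 2 ≤ 9 * T ^ 2 := by nlinarith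

lemma n5_TopSum {i Δ : ℝ} (h1 : 1 ≤ Δ) (a1 : i ≤ 3 * Δ) : i ≤ 3 * Δ ^ 2 := by nlinarith

theorem topSum_stmt (hE : ExpStmt) (hR : RepStmt) (hD : DiagStmt) (hL : Lev1Stmt)
    (hT : TailStmt) (hG : GcdStmt) : TopSumStmt := by
  intro hP ε hε
  obtain ⟨η, -, hη, m, hP⟩ := hP (ε / 12) (by positivity)
  obtain ⟨K, hK, hP⟩ := hP (ε / 6) (by positivity)
  obtain ⟨CD, hCD, hD⟩ := hD (ε / 2) (by positivity)
  obtain ⟨CL, hCL, hL⟩ := hL (ε / 2) (by positivity)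
  obtain ⟨δ, hδ, hδ1, hδ2⟩ : ∃ δ : ℝ, 0 < δ ∧ δ ≤ 1 / 4 ∧ m * δ ≤ ε / 6 := by
    refine ⟨min (1 / 4) (ε / 6 / (m + 1)), by positivity, min_le_left _ _, ?_⟩
    refine (mul_le_mul_of_nonneg_left (min_le_right _ _) (Nat.cast_nonneg m)).trans ?_
    rw [mul_div_assoc', div_le_iff₀ (by positivity)]
    nlinarith
  obtain ⟨CT, hCT, hT⟩ := hT δ hδ
  obtain ⟨C₀, hC₀, hX⟩ := exD 3 4 20 (half_pos hε)
  refine ⟨10 ^ 27 + (CD + 3600 * CT + 16 * CL + 24 * K) * C₀, by positivity,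
    fun N T y α h1 hy hy' hN hN' hα => ?_⟩
  have T0 : 0 < T := by linarith
  have n1 : (1 : ℝ) ≤ N := by exact_mod_cast hN
  have s0 : 0 < √T := Real.sqrt_pos.2 T0
  obtain ⟨Wd, hW1, hW2, hW3⟩ : ∃ Wd : ℝ, 1 ≤ Wd ∧
      Wd = (1 + y ^ 2 / T) ^ 2 * (((N : ℝ) ^ 2 + √T) / √T) ∧
      T * (N * y ^ 2 * Wd) = (T + √T * (N : ℝ) ^ 2) * (y ^ 2 * N) * (1 + y ^ 2 / T) ^ 2 := by
    refine ⟨_, one_le_mul_of_one_le_of_one_le (one_le_pow₀ (le_add_of_nonneg_right (by positivity)))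
      ((one_le_div s0).2 (le_add_of_nonneg_left (by positivity))), rfl, ?_⟩
    rw [← n1_TopSum T0]
    ring
  rw [← hW3]
  have u1 : 1 ≤ T ^ ε := Real.one_le_rpow h1 hε.le
  have Z0 : 0 < (N : ℝ) * y ^ 2 := by positivity
  have Z1 : (N : ℝ) * y ^ 2 ≤ N * y ^ 2 * Wd := le_mul_of_one_le_right Z0.le hW1
  rcases le_total T (10 ^ 8) with hs | hs
  · refine (small_TopSum h1 hs hy hy' hN hN' hα).trans ?_
    refine mul_le_mul (le_trans ?_ (le_mul_of_one_le_right (by positivity) u1))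
      (mul_le_mul_of_nonneg_left (by linarith) T0.le) (by positivity) (by positivity)
    exact le_add_of_nonneg_right (by positivity)
  obtain ⟨X, Δ, hΔ, hX1, hX2⟩ := hX T h1
  have d1 : 1 ≤ Δ := hΔ.1
  obtain ⟨M, hM⟩ : ∃ M : ℕ, Rg T y N M := by
    refine ⟨⌈4 * N * y⌉₊, h1, hy, hy', hN, hN', Nat.le_ceil _, ?_⟩
    have a1 := (Nat.ceil_lt_add_one (show 0 ≤ 4 * N * y by positivity)).le
    have a2 : (N : ℝ) * y ≤ 2 * T * (2 * T) := by gcongr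
    exact n2_TopSum h1 (by rwa [mul_assoc] at a1 ⊢) a2
  have M1 : (M : ℝ) ≤ 20 * T ^ 2 := hM.2.2.2.2.2.2
  have MX : M ≤ X := by
    have : (M : ℝ) ≤ X := n3_TopSum h1 M1 hX1
    exact_mod_cast this
  set U := T ^ (ε / 2) with hU
  have U1 : 1 ≤ U := Real.one_le_rpow h1 (by positivity)
  have key : ∀ e ∈ Icc 1 M, ∀ f ∈ Icc 1 M, ∑ a ∈ Icc N (2 * N), ∑ b ∈ Icc N (2 * N),
      ‖TS T y a b e f M fun P => iC (Nat.Coprime (ap a e) (ap b e)) *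
        ind (ap a e * ap b e) (om2 ((ap a e : ℤ), (ap b e : ℤ)) P.1)‖ ≤
      ∑ a ∈ Icc N (2 * N), ∑ b ∈ Icc N (2 * N),
        ‖TS T y a b e f M fun P => iC (hh P = 0) * dlT a b e P‖ +
        (9 * T ^ 2 * (CT * y ^ 2 / T ^ 6) +
          (4 * CL + 6 * K) * Δ ^ 2 * U * (N * y ^ 2 * Wd) * (1 / e * (1 / f))) := by
    intro e he f hf
    have e1 := (mem_Icc.1 he).1
    have f1 := (mem_Icc.1 hf).1
    have e1' : (1 : ℝ) ≤ e := by exact_mod_cast e1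
    have f1' : (1 : ℝ) ≤ f := by exact_mod_cast f1
    have eq : (N : ℝ) * y / e * (y / f) = N * y ^ 2 * (1 / e * (1 / f)) := by ring
    have v0 : (0 : ℝ) < 1 / e * (1 / f) := by positivity
    have v1 : (1 : ℝ) / e * (1 / f) ≤ 1 :=
      mul_le_one₀ ((div_le_one (by linarith)).2 e1') (by positivity)
        ((div_le_one (by linarith)).2 f1')
    obtain ⟨I, hI1, hI2, hI3⟩ := exI_TopSum (B := T ^ δ * (N * y / e * (y / f)) / T) hΔ (by
      have b1 : T ^ δ ≤ T := by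
        simpa using Real.rpow_le_rpow_of_exponent_le h1 (show δ ≤ 1 by linarith)
      have b2 : (N : ℝ) * y ^ 2 ≤ 2 * T * (2 * T) ^ 2 := by gcongr
      have b3 : (N : ℝ) * y / e * (y / f) ≤ 8 * T ^ 3 := by
        rw [eq]
        exact (mul_le_of_le_one_right Z0.le v1).trans (by linarith)
      have b4 : T ^ δ * (N * y / e * (y / f)) / T ≤ 8 * T ^ 3 := by
        rw [div_le_iff₀ T0, mul_comm (8 * T ^ 3)]
        gcongr
      linarith [pow_pos T0 3])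
    refine (ef_TopSum (I := I) (g := 2 * Δ) (c₁ := CL * U * (N * y / e * (y / f)))
      (c₃ := CT * y ^ 2 / T ^ 6) (c₄ := K * U * (N * y / e * (y / f) * Wd)) hN (by positivity)
      ((hG.2.2.1 e N e1 hN).trans (by linarith [hΔ.2 e ((mem_Icc.1 he).2.trans MX)]))
      (fun a ha b hb => hL T y N M a b e f hM ha hb e1 f1)
      (fun a ha b hb κ k1 k2 => hT T y N M a b e f κ hM ha hb e1 f1 k1
        fun P k => hI2.trans (k2 P k)) fun s hs' => ?_).trans (add_le_add le_rfl ?_)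
    · refine (hP δ T y _ N M e f hδ hδ1 hs hM he hf ?_ ?_).trans ?_
      · rw [abs_Ts_TopSum]
        exact le_mul_of_one_le_right (by norm_num) (one_le_pow₀ (by norm_num))
      · rw [abs_Ts_TopSum]
        exact hI3 _ hs'
      · rw [hW2, mul_assoc (N * y / e * (y / f))]
        refine mul_le_mul_of_nonneg_right (mul_le_mul_of_nonneg_left
          (Real.rpow_le_rpow_of_exponent_le h1 (by linarith)) hK.le) (by positivity)
    · have c1 : ((N : ℝ) + 1) ^ 2 * (CT * y ^ 2 / T ^ 6) ≤ 9 * T ^ 2 * (CT * y ^ 2 / T ^ 6) :=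
        mul_le_mul_of_nonneg_right (n4_TopSum h1 n1 hN') (by positivity)
      have c2 : (2 * Δ) ^ 2 * (CL * U * (N * y / e * (y / f))) ≤
          4 * CL * Δ ^ 2 * U * (N * y ^ 2 * Wd) * (1 / e * (1 / f)) :=
        calc _ = 4 * CL * Δ ^ 2 * U * (N * y ^ 2) * (1 / e * (1 / f)) := by rw [eq]; ring
          _ ≤ _ := by gcongr
      have c3 : 2 * I * (K * U * (N * y / e * (y / f) * Wd)) ≤
          6 * K * Δ ^ 2 * U * (N * y ^ 2 * Wd) * (1 / e * (1 / f)) :=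
        calc _ = 2 * K * I * U * (N * y ^ 2 * Wd) * (1 / e * (1 / f)) := by rw [eq]; ring
          _ ≤ 2 * K * (3 * Δ ^ 2) * U * (N * y ^ 2 * Wd) * (1 / e * (1 / f)) := by
              have := n5_TopSum d1 hI1
              gcongr
          _ = _ := by ring
      linarith
  have hS : ∑ a ∈ Icc N (2 * N), ∑ b ∈ Icc N (2 * N), ‖Q4 T y a b‖ ≤
      (CD + 3600 * CT + 16 * CL + 24 * K) * Δ ^ 4 * U * (N * y ^ 2 * Wd) := by
    refine (sum_le_sum fun a ha => sum_le_sum fun b hb => (hR T y N M a b hM ha hb).symm ▸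
      (norm_sum_le _ _).trans (sum_le_sum fun e _ => norm_sum_le _ _)).trans ?_
    rw [comm_TopSum]
    refine (sum_le_sum fun e he => sum_le_sum fun f hf => key e he f hf).trans ?_
    simp only [sum_add_distrib]
    rw [← comm_TopSum]
    have t1 := hD T y N M hM
    have t2 : ∑ e ∈ Icc 1 M, ∑ f ∈ Icc 1 M, 9 * T ^ 2 * (CT * y ^ 2 / T ^ 6) ≤
        3600 * CT * y ^ 2 := by
      simp only [sum_const, Nat.card_Icc, Nat.add_sub_cancel, nsmul_eq_mul]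
      calc _ ≤ 20 * T ^ 2 * (20 * T ^ 2 * (9 * T ^ 2 * (CT * y ^ 2 / T ^ 6))) := by gcongr
        _ = _ := by field_simp; ring
    have t3 : ∑ e ∈ Icc 1 M, ∑ f ∈ Icc 1 M,
        (4 * CL + 6 * K) * Δ ^ 2 * U * (N * y ^ 2 * Wd) * (1 / (e : ℝ) * (1 / (f : ℝ))) ≤
        (16 * CL + 24 * K) * Δ ^ 4 * U * (N * y ^ 2 * Wd) := by
      simp only [← mul_sum]
      rw [← sum_mul]
      have := harm_le hΔ MX
      calc _ ≤ (4 * CL + 6 * K) * Δ ^ 2 * U * (N * y ^ 2 * Wd) * (2 * Δ * (2 * Δ)) := by gcongr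
        _ = _ := by ring
    have d4 : 1 ≤ Δ ^ 4 := one_le_pow₀ d1
    have t4 : CD * U * (N * y ^ 2) ≤ CD * Δ ^ 4 * U * (N * y ^ 2 * Wd) :=
      calc _ = CD * 1 * U * (N * y ^ 2) := by ring
        _ ≤ _ := by gcongr
    have t5 : 3600 * CT * y ^ 2 ≤ 3600 * CT * Δ ^ 4 * U * (N * y ^ 2 * Wd) :=
      calc _ = 3600 * CT * 1 * 1 * (1 * y ^ 2 * 1) := by ring
        _ ≤ _ := by gcongr
    linarith
  refine (red_TopSum hE y T0 hN hα).trans ((mul_le_mul_of_nonneg_left hS T0.le).trans ?_)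
  have hUU : U * U = T ^ ε := by rw [hU, ← Real.rpow_add T0, add_halves]
  calc _ = (CD + 3600 * CT + 16 * CL + 24 * K) * Δ ^ 4 * U * (T * (N * y ^ 2 * Wd)) := by ring
    _ ≤ (CD + 3600 * CT + 16 * CL + 24 * K) * (C₀ * U) * U * (T * (N * y ^ 2 * Wd)) := by gcongr
    _ = (CD + 3600 * CT + 16 * CL + 24 * K) * C₀ * T ^ ε * (T * (N * y ^ 2 * Wd)) := by
        rw [← hUU]; ring
    _ ≤ _ := by
        gcongr
        exact le_add_of_nonneg_left (by positivity)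

end Pool.Agent.MP_c853c5_nt.W

end
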