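import Pool.Agent.Mg.C853.G6e22ef

section

set_option autoImplicit false

open Finset MeasureTheory
open scoped ENNReal ComplexConjugate

namespace Pool.Agent.MP_c853c5_nt.W

open Pool.Agent.MP_2a1f0e_nt Pool.Agent.MP_2a1f0e_nt.GM Pool.Agent.MP_2a1f0e_nt.DH

lemma fibZ_CntA {ι : Type*} (T : Finset ι) (W : ι → ℝ) (f : ι → ℤ) (Y : ℝ) (c : ℕ → ℝ)
    (hc0 : ∀ m, 0 ≤ c m) (hf : ∀ z ∈ T, f z ≠ 0 ∧ |(f z : ℝ)| ≤ Y)
    (hc : ∀ z₀ ∈ T, ∑ z ∈ T.filter (fun z => f z = f z₀), W z ≤ c (f z₀).natAbs) :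
    ∑ z ∈ T, W z ≤ 2 * ∑ m ∈ Icc 1 ⌊Y⌋₊, c m := by
  classical
  rw [← sum_fiberwise_of_maps_to (t := T.image f) (g := f) fun z hz => mem_image_of_mem f hz]
  have h1 : ∑ k ∈ T.image f, ∑ z ∈ T.filter (fun z => f z = k), W z ≤
      ∑ k ∈ T.image f, c k.natAbs := sum_le_sum fun k hk => by
    obtain ⟨z₀, hz, rfl⟩ := mem_image.1 hk
    exact hc z₀ hz
  refine h1.trans ?_
  have h2 : T.image f ⊆ (Icc 1 ⌊Y⌋₊).image (fun m : ℕ => (m : ℤ)) ∪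
      (Icc 1 ⌊Y⌋₊).image (fun m : ℕ => -(m : ℤ)) := by
    intro k hk
    obtain ⟨z, hz, rfl⟩ := mem_image.1 hk
    have h3 : (f z).natAbs ∈ Icc 1 ⌊Y⌋₊ := mem_Icc.2 ⟨Int.natAbs_pos.2 (hf z hz).1,
      Nat.le_floor (by rw [Nat.cast_natAbs, Int.cast_abs]; exact (hf z hz).2)⟩
    rcases Int.natAbs_eq (f z) with e | e
    · exact mem_union_left _ (mem_image.2 ⟨_, h3, e.symm⟩)
    · exact mem_union_right _ (mem_image.2 ⟨_, h3, e.symm⟩)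
  refine (sum_le_sum_of_subset_of_nonneg h2 fun _ _ _ => hc0 _).trans ?_
  refine (le_add_of_nonneg_right (sum_nonneg fun _ _ => hc0 _)).trans
    (sum_union_inter.trans_le ?_)
  rw [sum_image fun a _ b _ h => by exact_mod_cast h,
    sum_image fun a _ b _ h => by exact_mod_cast neg_injective h]
  simp only [Int.natAbs_natCast, Int.natAbs_neg]
  linarith

lemma fibC_CntA {ι : Type*} (T : Finset ι) (f : ι → ℤ) (Y : ℝ) (c : ℕ → ℝ)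
    (hc0 : ∀ m, 0 ≤ c m) (hf : ∀ z ∈ T, f z ≠ 0 ∧ |(f z : ℝ)| ≤ Y)
    (hc : ∀ z₀ ∈ T, ((T.filter fun z => f z = f z₀).card : ℝ) ≤ c (f z₀).natAbs) :
    (T.card : ℝ) ≤ 2 * ∑ m ∈ Icc 1 ⌊Y⌋₊, c m := by
  have h := fibZ_CntA T (fun _ => 1) f Y c hc0 hf fun z hz => by simpa using hc z hz
  simpa using h

lemma sum_const_CntA {Y c : ℝ} (hY : 0 ≤ Y) (hc : 0 ≤ c) : ∑ _m ∈ Icc 1 ⌊Y⌋₊, c ≤ Y * c := by
  rw [sum_const, Nat.card_Icc, Nat.add_sub_cancel, nsmul_eq_mul]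
  exact mul_le_mul_of_nonneg_right (Nat.floor_le hY) hc

lemma nat_le_CntA {k : ℤ} {X : ℕ} (h : |(k : ℝ)| ≤ X) : k.natAbs ≤ X := by
  rw [← Int.cast_abs, ← Nat.cast_natAbs] at h
  exact_mod_cast h

/-- all invariants fixed -/
lemma levA_CntA (hG : GcdStmt) (T : Finset (Pr × Pr)) (h n r p s : ℤ)
    (hT : ∀ z ∈ T, IsOrb z ∧ hh z.1 = h ∧ nI z = n ∧ rI z = r ∧ pI z = p ∧ sI z = s) :
    T.card ≤ Int.gcd h n := by
  rcases T.eq_empty_or_nonempty with rfl | ⟨z₀, hz₀⟩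
  · simp
  have hh0 : h ≠ 0 := (hT z₀ hz₀).2.1 ▸ isOrb_hh_ne (hT z₀ hz₀).1
  have key : ∀ z ∈ T, z.1.2 = (0, 1) ∧ z.1.1.1 = h ∧ z.2.1.1 = -s ∧ z.2.2.1 = -r ∧
      h * z.2.1.2 = n - z.1.1.2 * s ∧ h * z.2.2.2 = p - z.1.1.2 * r := by
    intro z hz
    obtain ⟨a1, a2, a3, a4, a5, a6⟩ := hT z hz
    rw [isOrb_hh a1] at a2
    simp only [nI, rI, pI, sI, om2, a1.1, a2] at a3 a4 a5 a6
    have b1 : z.2.1.1 = -s := by linarith
    have b2 : z.2.2.1 = -r := by linarith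
    rw [b1] at a3
    rw [b2] at a5
    exact ⟨a1.1, a2, b1, b2, by linarith, by linarith⟩
  have h1 : T.card ≤ ((Ico 0 |h|).filter fun d => h ∣ s * d - n).card := by
    refine card_le_card_of_injOn (fun z => z.1.1.2) (fun z hz => ?_) fun z hz z' hz' e => ?_
    · obtain ⟨-, a2, -, -, a5, -⟩ := key z hz
      have a1 := (hT z hz).1
      refine mem_coe.2 (mem_filter.2 ⟨mem_Ico.2 ⟨a1.2.1, a2 ▸ a1.2.2⟩, -z.2.1.2, ?_⟩)
      show s * z.1.1.2 - n = _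
      linarith
    · obtain ⟨a1, a2, a3, a4, a5, a6⟩ := key z hz
      obtain ⟨b1, b2, b3, b4, b5, b6⟩ := key z' hz'
      have e' : z.1.1.2 = z'.1.1.2 := e
      rw [e', ← b5] at a5
      rw [e', ← b6] at a6
      exact Prod.ext (Prod.ext (Prod.ext (a2.trans b2.symm) e') (a1.trans b1.symm))
        (Prod.ext (Prod.ext (a3.trans b3.symm) (mul_left_cancel₀ hh0 a5))
          (Prod.ext (a4.trans b4.symm) (mul_left_cancel₀ hh0 a6)))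
  refine h1.trans ((hG.2.2.2.1 h s n hh0).trans (Nat.le_of_dvd (Int.gcd_pos_of_ne_zero_left _ hh0)
    (Int.dvd_gcd (Int.gcd_dvd_left _ _) ?_)))
  have e : n = h * z₀.2.1.2 + z₀.1.1.2 * s := by linarith [(key z₀ hz₀).2.2.2.2.1]
  rw [e]
  exact ((Int.gcd_dvd_left _ _).mul_right _).add ((Int.gcd_dvd_right _ _).mul_left _)

/-- the conditions on the orbits -/
def Q_CntA (α H2 H R₀ : ℝ) (z : Pr × Pr) : Prop :=
  Cs α H2 H R₀ z ∧ nI z ≠ 0 ∧ pI z * sI z ≠ 0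

section Lev

variable {Λ α H2 H R₀ Δ : ℝ} {X : ℕ}

lemma r_le_CntA (hB : Bd Λ α H2 H) {r : ℝ} (h : r ≤ 32 * α ^ 2) : r ≤ 32 * Λ ^ 2 :=
  h.trans (by have := hB.2.1; have := hB.2.2.1; gcongr)

lemma Y_le_CntA (hB : Bd Λ α H2 H) (hX : 6000 * Λ ^ 6 ≤ X) {r : ℝ} (h0 : 0 ≤ r)
    (h : r ≤ 32 * α ^ 2) : 4 * H2 ^ 2 * r + 32 * (|H2| * |H|) ≤ X := by
  have h1 := r_le_CntA hB h
  obtain ⟨a1, -, -, a4, a5⟩ := hB
  have h2 : 4 * H2 ^ 2 * r ≤ 4 * Λ ^ 2 * (32 * Λ ^ 2) := by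
    rw [← sq_abs H2]
    gcongr
  have h3 : |H2| * |H| ≤ Λ * Λ := by gcongr
  have h4 : Λ ^ 2 ≤ Λ ^ 6 := pow_le_pow_right₀ a1 (by norm_num)
  have h5 : Λ ^ 4 ≤ Λ ^ 6 := pow_le_pow_right₀ a1 (by norm_num)
  have h6 : 0 ≤ Λ ^ 6 := by positivity
  nlinarith

lemma levB_CntA (hG : GcdStmt) (hD : DivB X Δ) (hB : Bd Λ α H2 H) (hX : 6000 * Λ ^ 6 ≤ X)
    (T : Finset (Pr × Pr)) (h h' n r : ℤ)
    (hT : ∀ z ∈ T, Q_CntA α H2 H R₀ z ∧ hh z.1 = h ∧ hh z.2 = h' ∧ nI z = n ∧ rI z = r) :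
    (T.card : ℝ) ≤ 2 * Δ * Int.gcd h n := by
  rcases T.eq_empty_or_nonempty with rfl | ⟨z₀, hz₀⟩
  · have := hD.1
    rw [card_empty, Nat.cast_zero]
    positivity
  have h1 : T.card ≤ Int.gcd h n * (T.image fun z => (pI z, sI z)).card := by
    refine card_le_mul_card_image T _ fun k _ => levA_CntA hG _ h n r k.1 k.2 fun z hz => ?_
    obtain ⟨a1, a2⟩ := mem_filter.1 hz
    obtain ⟨b1, b2, -, b4, b5⟩ := hT z a1
    exact ⟨b1.1.1, b2, b4, b5, congrArg Prod.fst a2, congrArg Prod.snd a2⟩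
  have hm : ∀ z ∈ T, pI z * sI z = n * r - h * h' := fun z hz => by
    obtain ⟨-, b2, b3, b4, b5⟩ := hT z hz
    have := plucker z
    rw [b2, b3, b4, b5] at this
    linarith
  have h2 := hG.2.2.2.2.2 (pI z₀ * sI z₀) (T.image fun z => (pI z, sI z)) (hT z₀ hz₀).1.2.2
    fun k hk => by
      obtain ⟨z, hz, rfl⟩ := mem_image.1 hk
      exact (hm z hz).trans (hm z₀ hz₀).symm
  have h3 : (pI z₀ * sI z₀).natAbs ≤ X := by
    refine nat_le_CntA ?_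
    obtain ⟨-, -, -, -, -, -, c1, c2, c3, -⟩ := (hT z₀ hz₀).1.1.2.2.2.2.1
    have c4 := r_le_CntA hB c1
    obtain ⟨a1, -, -, a4, a5⟩ := hB
    have c5 : 2 * |(rI z₀ : ℝ)| * |H2| + 8 * |H| ≤ 72 * Λ ^ 3 := by
      have d1 : 2 * |(rI z₀ : ℝ)| * |H2| ≤ 2 * (32 * Λ ^ 2) * Λ := by gcongr
      have d2 : Λ ≤ Λ ^ 3 := le_self_pow₀ a1 (by norm_num)
      nlinarith
    have c6 : |(pI z₀ : ℝ)| * |(sI z₀ : ℝ)| ≤ 72 * Λ ^ 3 * (72 * Λ ^ 3) :=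
      mul_le_mul (c2.trans c5) (c3.trans c5) (abs_nonneg _) (by positivity)
    have c7 : 0 ≤ Λ ^ 6 := by positivity
    rw [Int.cast_mul, abs_mul]
    nlinarith
  have h4 : ((T.image fun z => (pI z, sI z)).card : ℝ) ≤ 2 * Δ := by
    have := hD.2 _ h3
    have h5 : ((T.image fun z => (pI z, sI z)).card : ℝ) ≤
        2 * ((pI z₀ * sI z₀).natAbs.divisors.card : ℝ) := by exact_mod_cast h2
    linarith
  have h5 : (T.card : ℝ) ≤ Int.gcd h n * ((T.image fun z => (pI z, sI z)).card : ℝ) := by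
    exact_mod_cast h1
  rw [mul_comm]
  exact h5.trans (mul_le_mul_of_nonneg_left h4 (Nat.cast_nonneg _))

lemma levC_CntA (hG : GcdStmt) (hD : DivB X Δ) (hB : Bd Λ α H2 H) (hX : 6000 * Λ ^ 6 ≤ X)
    (T : Finset (Pr × Pr)) (h n r : ℤ)
    (hT : ∀ z ∈ T, Q_CntA α H2 H R₀ z ∧ hh z.1 = h ∧ nI z = n ∧ rI z = r) :
    (T.card : ℝ) ≤ 8 * |H| * Δ * Int.gcd h n := by
  have hΔ := hD.1
  refine (fibC_CntA T (fun z => hh z.2) (2 * |H|) (fun _ => 2 * Δ * Int.gcd h n)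
    (fun _ => by positivity) (fun z hz => ?_) fun z₀ _ => ?_).trans ?_
  · obtain ⟨-, c2, -, -, -, c6, -⟩ := (hT z hz).1.1.2.2.2.2.1
    exact ⟨c2, c6⟩
  · refine levB_CntA (R₀ := R₀) hG hD hB hX _ h (hh z₀.2) n r fun z hz => ?_
    obtain ⟨a1, a2⟩ := mem_filter.1 hz
    obtain ⟨b1, b2, b3, b4⟩ := hT z a1
    exact ⟨b1, b2, a2, b3, b4⟩
  · have := sum_const_CntA (Y := 2 * |H|) (c := 2 * Δ * Int.gcd h n) (by positivity)
      (by positivity)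
    linarith

lemma levD_CntA (hG : GcdStmt) (hD : DivB X Δ) (hB : Bd Λ α H2 H) (hX : 6000 * Λ ^ 6 ≤ X)
    (T : Finset (Pr × Pr)) (n r : ℤ)
    (hT : ∀ z ∈ T, Q_CntA α H2 H R₀ z ∧ nI z = n ∧ rI z = r) :
    (T.card : ℝ) ≤ 32 * Δ ^ 2 * H ^ 2 := by
  have hΔ := hD.1
  rcases T.eq_empty_or_nonempty with rfl | ⟨z₁, hz₁⟩
  · rw [card_empty, Nat.cast_zero]
    positivity
  have hn0 : 1 ≤ n.natAbs := Int.natAbs_pos.2 ((hT z₁ hz₁).2.1 ▸ (hT z₁ hz₁).1.2.1)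
  have hnX : n.natAbs ≤ X := by
    obtain ⟨-, -, -, -, -, -, c1, -, -, c4⟩ := (hT z₁ hz₁).1.1.2.2.2.2.1
    rw [← (hT z₁ hz₁).2.1]
    exact nat_le_CntA (c4.trans (Y_le_CntA hB hX (abs_nonneg _) c1))
  refine (fibC_CntA T (fun z => hh z.1) (2 * |H|)
    (fun m => 8 * |H| * Δ * Nat.gcd m n.natAbs) (fun _ => by positivity) (fun z hz => ?_)
    fun z₀ _ => ?_).trans ?_
  · obtain ⟨c1, -, -, c4, -⟩ := (hT z hz).1.1.2.2.2.2.1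
    exact ⟨c1, c4⟩
  · refine levC_CntA (R₀ := R₀) hG hD hB hX _ (hh z₀.1) n r fun z hz => ?_
    obtain ⟨a1, a2⟩ := mem_filter.1 hz
    obtain ⟨b1, b3, b4⟩ := hT z a1
    exact ⟨b1, a2, b3, b4⟩
  · rw [← mul_sum]
    have h1 := hG.2.1 n.natAbs ⌊2 * |H|⌋₊ hn0
    have h2 : (n.natAbs.divisors.card : ℝ) * ⌊2 * |H|⌋₊ ≤ Δ * (2 * |H|) :=
      mul_le_mul (hD.2 _ hnX) (Nat.floor_le (by positivity)) (Nat.cast_nonneg _) (by positivity)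
    have h3 := mul_le_mul_of_nonneg_left (h1.trans h2) (show 0 ≤ 8 * |H| * Δ by positivity)
    rw [← sq_abs H]
    nlinarith

lemma levE_CntA (hG : GcdStmt) (hD : DivB X Δ) (hB : Bd Λ α H2 H) (hX : 6000 * Λ ^ 6 ≤ X)
    {A B : ℝ} (hA : 0 ≤ A) (hB' : 0 ≤ B) (T : Finset (Pr × Pr)) (r : ℤ)
    (hT : ∀ z ∈ T, Q_CntA α H2 H R₀ z ∧ rI z = r) :
    ∑ z ∈ T, (A + B / |(nI z : ℝ)|) ≤ 64 * Δ ^ 2 * H ^ 2 *
      (A * (4 * H2 ^ 2 * |(r : ℝ)| + 32 * (|H2| * |H|)) + 2 * B * Δ) := by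
  have hΔ := hD.1
  rcases T.eq_empty_or_nonempty with rfl | ⟨z₁, hz₁⟩
  · rw [sum_empty]
    positivity
  have hY : 4 * H2 ^ 2 * |(r : ℝ)| + 32 * (|H2| * |H|) ≤ X := by
    obtain ⟨-, -, -, -, -, -, c1, -⟩ := (hT z₁ hz₁).1.1.2.2.2.2.1
    rw [← (hT z₁ hz₁).2]
    exact Y_le_CntA hB hX (abs_nonneg _) c1
  have hY0 : 0 ≤ 4 * H2 ^ 2 * |(r : ℝ)| + 32 * (|H2| * |H|) := by positivity
  refine (fibZ_CntA T _ nI (4 * H2 ^ 2 * |(r : ℝ)| + 32 * (|H2| * |H|))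
    (fun m => 32 * Δ ^ 2 * H ^ 2 * (A + B * (1 / (m : ℝ)))) (fun _ => by positivity)
    (fun z hz => ?_) fun z₀ _ => ?_).trans ?_
  · obtain ⟨-, -, -, -, -, -, -, -, -, c4⟩ := (hT z hz).1.1.2.2.2.2.1
    exact ⟨(hT z hz).1.2.1, (hT z hz).2 ▸ c4⟩
  · rw [sum_congr rfl fun z hz => by rw [(mem_filter.1 hz).2], sum_const, nsmul_eq_mul,
      Nat.cast_natAbs, Int.cast_abs, mul_one_div]
    refine mul_le_mul_of_nonneg_right
      (levD_CntA (R₀ := R₀) hG hD hB hX _ (nI z₀) r fun z hz => ?_) (by positivity)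
    obtain ⟨a1, a2⟩ := mem_filter.1 hz
    exact ⟨(hT z a1).1, a2, (hT z a1).2⟩
  · rw [← mul_sum, sum_add_distrib, ← mul_sum]
    have h1 := sum_const_CntA hY0 hA
    have h2 := mul_le_mul_of_nonneg_left
      (harm_le hD (Nat.floor_le_of_le hY)) hB'
    have h3 := mul_le_mul_of_nonneg_left (add_le_add h1 h2)
      (show 0 ≤ 32 * Δ ^ 2 * H ^ 2 by positivity)
    linarith

lemma levF_CntA (hG : GcdStmt) (hD : DivB X Δ) (hB : Bd Λ α H2 H) (hX : 6000 * Λ ^ 6 ≤ X)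
    (hR : 0 ≤ R₀) {A B : ℝ} (hA : 0 ≤ A) (hB' : 0 ≤ B) (S : Finset (Pr × Pr))
    (hS : ∀ z ∈ S, Q_CntA α H2 H R₀ z) :
    ∑ z ∈ S, (A + B / |(nI z : ℝ)|) * vb H2 H (rI z) ≤
      8192 * Δ ^ 4 * ((|H2| * |H| + H ^ 2) * (B + A * (1 + |H2| * |H| + H2 ^ 2 * R₀))) := by
  have hΔ := hD.1
  have hP : 0 ≤ |H2| * |H| := by positivity
  set M := B + A * (1 + |H2| * |H| + H2 ^ 2 * R₀) with hM
  have m1 : 0 ≤ A * (|H2| * |H|) := by positivity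
  have m2 : 0 ≤ A * (H2 ^ 2 * R₀) := by positivity
  have m3 : B + A * (|H2| * |H|) + A * (H2 ^ 2 * R₀) ≤ M := by rw [hM]; nlinarith
  have m4 : A * (32 * (|H2| * |H|)) + 2 * B * Δ ≤ 32 * Δ * (B + A * (|H2| * |H|)) := by
    nlinarith [mul_nonneg m1 (sub_nonneg.2 hΔ), mul_nonneg hB' (zero_le_one.trans hΔ)]
  have hM0 : 0 ≤ M := by linarith
  rw [← sum_filter_add_sum_filter_not S fun z => rI z = 0]
  have h1 : ∑ z ∈ S.filter (fun z => rI z = 0), (A + B / |(nI z : ℝ)|) * vb H2 H (rI z) ≤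
      8192 * Δ ^ 4 * (|H2| * |H| * M) := by
    rw [sum_congr rfl fun z hz => by rw [(mem_filter.1 hz).2, vb, if_pos rfl], ← sum_mul]
    have h2 := levE_CntA (R₀ := R₀) hG hD hB hX hA hB' (S.filter fun z => rI z = 0) 0
      fun z hz => ⟨hS z (mem_filter.1 hz).1, (mem_filter.1 hz).2⟩
    rw [Int.cast_zero, abs_zero, mul_zero, zero_add] at h2
    have h3 : H ^ 2 * (|H2| / |H|) = |H2| * |H| := by
      rcases eq_or_ne H 0 with rfl | h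
      · simp
      · rw [← sq_abs H]
        have := abs_ne_zero.2 h
        field_simp
    have h4 : Δ ^ 3 ≤ Δ ^ 4 := pow_le_pow_right₀ hΔ (by norm_num)
    calc _ ≤ 64 * Δ ^ 2 * H ^ 2 * (32 * Δ * M) * (|H2| / |H|) := by
          refine mul_le_mul_of_nonneg_right (h2.trans ?_) (by positivity)
          refine mul_le_mul_of_nonneg_left (m4.trans ?_) (by positivity)
          exact mul_le_mul_of_nonneg_left (by linarith) (by positivity)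
      _ = 2048 * Δ ^ 3 * (H ^ 2 * (|H2| / |H|) * M) := by ring
      _ ≤ _ := by
          rw [h3]
          gcongr
          norm_num
  have h2 : ∑ z ∈ S.filter (fun z => ¬rI z = 0), (A + B / |(nI z : ℝ)|) * vb H2 H (rI z) ≤
      8192 * Δ ^ 4 * (H ^ 2 * M) := by
    have hYX : min R₀ (32 * α ^ 2) ≤ X := by
      have a1 := r_le_CntA hB (min_le_right R₀ _)
      have a2 : Λ ^ 2 ≤ Λ ^ 6 := pow_le_pow_right₀ hB.1 (by norm_num)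
      have a3 : 0 ≤ Λ ^ 6 := by have := hB.1; positivity
      linarith
    have hY0 : 0 ≤ min R₀ (32 * α ^ 2) := le_min hR (by positivity)
    refine (fibZ_CntA _ _ rI (min R₀ (32 * α ^ 2))
      (fun m => 64 * Δ ^ 2 * H ^ 2 * (4 * A * H2 ^ 2 +
        (A * (32 * (|H2| * |H|)) + 2 * B * Δ) * (1 / (m : ℝ)))) (fun _ => by positivity)
      (fun z hz => ?_) fun z₀ hz₀ => ?_).trans ?_
    · obtain ⟨a1, a2⟩ := mem_filter.1 hz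
      obtain ⟨-, -, -, -, -, -, c1, -⟩ := (hS z a1).1.2.2.2.2.1
      exact ⟨a2, le_min (hS z a1).1.2.2.2.2.2 c1⟩
    · have hr := (mem_filter.1 hz₀).2
      rw [sum_congr rfl fun z hz => by rw [(mem_filter.1 hz).2, vb, if_neg hr], ← sum_mul,
        Nat.cast_natAbs, Int.cast_abs]
      have h3 := levE_CntA (R₀ := R₀) hG hD hB hX hA hB'
        ((S.filter fun z => ¬rI z = 0).filter fun z => rI z = rI z₀) (rI z₀)
        fun z hz => ⟨hS z (mem_filter.1 (mem_filter.1 hz).1).1, (mem_filter.1 hz).2⟩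
      refine (mul_le_mul_of_nonneg_right h3 (by positivity)).trans_eq ?_
      have h4 : |(rI z₀ : ℝ)| ≠ 0 := abs_ne_zero.2 (Int.cast_ne_zero.2 hr)
      field_simp
      ring
    · rw [← mul_sum, sum_add_distrib, ← mul_sum _ _ (A * (32 * (|H2| * |H|)) + 2 * B * Δ)]
      have a1 := (sum_const_CntA hY0 (show 0 ≤ 4 * A * H2 ^ 2 by positivity)).trans
        (mul_le_mul_of_nonneg_right (min_le_left _ _) (by positivity))
      have a2 := mul_le_mul m4 (harm_le hD (Nat.floor_le_of_le hYX))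
        (sum_nonneg fun _ _ => by positivity) (by positivity)
      have a3 : R₀ * (4 * A * H2 ^ 2) + 32 * Δ * (B + A * (|H2| * |H|)) * (2 * Δ) ≤
          64 * Δ ^ 2 * M := by
        have b1 : 1 ≤ Δ ^ 2 := one_le_pow₀ hΔ
        have b2 := mul_le_mul_of_nonneg_left m3 (show 0 ≤ 64 * Δ ^ 2 by positivity)
        nlinarith [mul_nonneg m2 (sub_nonneg.2 b1)]
      have a4 := mul_le_mul_of_nonneg_left ((add_le_add a1 a2).trans a3)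
        (show 0 ≤ 64 * Δ ^ 2 * H ^ 2 by positivity)
      linarith
  linarith

end Lev

theorem cntA_stmt (hG : GcdStmt) : CntAStmt := by
  intro ε hε
  obtain ⟨C, hC, h⟩ := exD 6 4 6000 hε
  refine ⟨8192 * C, by positivity, fun Λ α H2 H R₀ A B S hB hR hA hB' hS => ?_⟩
  obtain ⟨X, Δ, hD, hX, hΔ⟩ := h Λ hB.1
  refine (levF_CntA hG hD hB hX hR hA hB' S hS).trans
    (mul_le_mul_of_nonneg_right ?_ (by positivity))
  linarith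

end Pool.Agent.MP_c853c5_nt.W

end

section

/-!
The quadruple sum, sorted by the contents of two integer vectors.
-/

set_option autoImplicit false

open Finset MeasureTheory
open scoped ENNReal ComplexConjugate

namespace Pool.Agent.MP_c853c5_nt.W

open Pool.Agent.MP_2a1f0e_nt Pool.Agent.MP_2a1f0e_nt.GM Pool.Agent.MP_2a1f0e_nt.DH

/-- primitive vectors in a box -/
noncomputable def PB_Rep (M : ℕ) : Finset V :=
  (Icc (1 : ℤ) M ×ˢ Icc (1 : ℤ) M).filter fun v => ct v = 1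

lemma mem_PB_Rep {M : ℕ} {v : V} : v ∈ PB_Rep M ↔
    (1 ≤ v.1 ∧ v.1 ≤ M) ∧ (1 ≤ v.2 ∧ v.2 ≤ M) ∧ ct v = 1 := by
  simp only [PB_Rep, mem_filter, mem_product, mem_Icc, and_assoc]

lemma Bx_Rep (M : ℕ) : Bx M = PB_Rep M ×ˢ PB_Rep M :=
  filter_product (fun v : V => ct v = 1) fun v : V => ct v = 1

lemma ct_mul_Rep (e : ℕ) {v : V} (h : ct v = 1) : ct ((e : ℤ) * v.1, (e : ℤ) * v.2) = e := by
  unfold ct at h ⊢
  rw [Int.gcd_mul_left, h, mul_one, Int.natAbs_natCast]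

/-- sorting a box by the content -/
lemma dec_Rep (M : ℕ) (g : V → ℂ) (h : ∀ c, g c ≠ 0 → c.1 ≤ M ∧ c.2 ≤ M) :
    ∑ e ∈ Icc 1 M, ∑ v ∈ PB_Rep M, g ((e : ℤ) * v.1, (e : ℤ) * v.2) =
      ∑ c ∈ Icc (1 : ℤ) M ×ˢ Icc (1 : ℤ) M, g c := by
  rw [← sum_product' (f := fun (e : ℕ) (v : V) => g ((e : ℤ) * v.1, (e : ℤ) * v.2))]
  refine sum_bij_ne_zero (fun p _ _ => ((p.1 : ℤ) * p.2.1, (p.1 : ℤ) * p.2.2))
    (fun p hp hg => ?_) (fun p hp _ p' hp' _ e => ?_) (fun c hc _ => ?_) fun _ _ _ => rfl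
  · rw [mem_product, mem_Icc, mem_PB_Rep] at hp
    have he : (1 : ℤ) ≤ p.1 := by exact_mod_cast hp.1.1
    rw [mem_product, mem_Icc, mem_Icc]
    exact ⟨⟨one_le_mul_of_one_le_of_one_le he hp.2.1.1, (h _ hg).1⟩,
      one_le_mul_of_one_le_of_one_le he hp.2.2.1.1, (h _ hg).2⟩
  · rw [mem_product, mem_Icc, mem_PB_Rep] at hp hp'
    have e1 : p.1 = p'.1 := by
      rw [← ct_mul_Rep p.1 hp.2.2.2, ← ct_mul_Rep p'.1 hp'.2.2.2, e]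
    have he : (p.1 : ℤ) ≠ 0 := by
      have := hp.1.1
      omega
    rw [← e1, Prod.mk.injEq] at e
    exact Prod.ext e1 (Prod.ext (mul_left_cancel₀ he e.1) (mul_left_cancel₀ he e.2))
  · rw [mem_product, mem_Icc, mem_Icc] at hc
    have hpos : 0 < Int.gcd c.1 c.2 := Int.gcd_pos_of_ne_zero_left _ (by omega)
    obtain ⟨e, v₁, v₂, he, hv, e1, e2⟩ := Int.exists_gcd_one' hpos
    have he' : (1 : ℤ) ≤ e := by exact_mod_cast he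
    have p1 : 0 < v₁ := by
      by_contra hn
      nlinarith [hc.1.1]
    have p2 : 0 < v₂ := by
      by_contra hn
      nlinarith [hc.2.1]
    have hce : ((e : ℤ) * v₁, (e : ℤ) * v₂) = c :=
      Prod.ext ((mul_comm _ _).trans e1.symm) ((mul_comm _ _).trans e2.symm)
    refine ⟨(e, (v₁, v₂)), ?_, by rwa [hce], hce⟩
    rw [mem_product, mem_Icc, mem_PB_Rep]
    have : (e : ℤ) ≤ M := by nlinarith [hc.1.2]
    exact ⟨⟨he, by exact_mod_cast this⟩, ⟨p1, by nlinarith [hc.1.2]⟩,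
      ⟨p2, by nlinarith [hc.2.2]⟩, hv⟩

/-- multiples in a box -/
lemma lin_Rep {M Y a b : ℕ} (ha : 1 ≤ a) (hb : 1 ≤ b) (h1 : a * Y ≤ M) (h2 : b * Y ≤ M)
    (g : V → ℂ) (h : ∀ c, g c ≠ 0 →
      (a : ℤ) ∣ c.1 ∧ (b : ℤ) ∣ c.2 ∧ c.1 ≤ a * Y ∧ c.2 ≤ b * Y) :
    ∑ c ∈ Icc (1 : ℤ) M ×ˢ Icc (1 : ℤ) M, g c =
      ∑ k ∈ Icc 1 Y, ∑ l ∈ Icc 1 Y, g ((a : ℤ) * k, (b : ℤ) * l) := by
  have ha' : (1 : ℤ) ≤ a := by exact_mod_cast ha
  have hb' : (1 : ℤ) ≤ b := by exact_mod_cast hb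
  have h1' : (a : ℤ) * Y ≤ M := by exact_mod_cast h1
  have h2' : (b : ℤ) * Y ≤ M := by exact_mod_cast h2
  rw [← sum_product' (f := fun (k l : ℕ) => g ((a : ℤ) * k, (b : ℤ) * l))]
  symm
  refine sum_bij_ne_zero (fun p _ _ => ((a : ℤ) * p.1, (b : ℤ) * p.2))
    (fun p hp hg => ?_) (fun p _ _ p' _ _ e => ?_) (fun c hc hg => ?_) fun _ _ _ => rfl
  · rw [mem_product, mem_Icc, mem_Icc] at hp ⊢
    have p1 : (1 : ℤ) ≤ p.1 := by exact_mod_cast hp.1.1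
    have p2 : (1 : ℤ) ≤ p.2 := by exact_mod_cast hp.2.1
    exact ⟨⟨one_le_mul_of_one_le_of_one_le ha' p1, (h _ hg).2.2.1.trans h1'⟩,
      one_le_mul_of_one_le_of_one_le hb' p2, (h _ hg).2.2.2.trans h2'⟩
  · rw [Prod.mk.injEq] at e
    have e1 := mul_left_cancel₀ (by omega : (a : ℤ) ≠ 0) e.1
    have e2 := mul_left_cancel₀ (by omega : (b : ℤ) ≠ 0) e.2
    exact Prod.ext (by exact_mod_cast e1) (by exact_mod_cast e2)
  · rw [mem_product, mem_Icc, mem_Icc] at hc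
    obtain ⟨⟨k, hk⟩, ⟨l, hl⟩, h3, h4⟩ := h c hg
    have p1 : 0 < k := by
      by_contra hn
      nlinarith [hc.1.1]
    have p2 : 0 < l := by
      by_contra hn
      nlinarith [hc.2.1]
    have q1 : k ≤ Y := by
      rw [hk] at h3
      exact le_of_mul_le_mul_left h3 (by omega)
    have q2 : l ≤ Y := by
      rw [hl] at h4
      exact le_of_mul_le_mul_left h4 (by omega)
    lift k to ℕ using p1.le
    lift l to ℕ using p2.le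
    have hce : ((a : ℤ) * k, (b : ℤ) * l) = c := Prod.ext hk.symm hl.symm
    refine ⟨(k, l), ?_, by rwa [hce], hce⟩
    rw [mem_product, mem_Icc, mem_Icc]
    exact ⟨⟨by omega, by omega⟩, by omega, by omega⟩

lemma comb_Rep {M Y a b : ℕ} (ha : 1 ≤ a) (hb : 1 ≤ b) (h1 : a * Y ≤ M) (h2 : b * Y ≤ M)
    (g : V → ℂ) (h : ∀ c, g c ≠ 0 →
      (a : ℤ) ∣ c.1 ∧ (b : ℤ) ∣ c.2 ∧ c.1 ≤ a * Y ∧ c.2 ≤ b * Y) :
    ∑ e ∈ Icc 1 M, ∑ v ∈ PB_Rep M, g ((e : ℤ) * v.1, (e : ℤ) * v.2) =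
      ∑ k ∈ Icc 1 Y, ∑ l ∈ Icc 1 Y, g ((a : ℤ) * k, (b : ℤ) * l) := by
  have h1' : (a : ℤ) * Y ≤ M := by exact_mod_cast h1
  have h2' : (b : ℤ) * Y ≤ M := by exact_mod_cast h2
  rw [dec_Rep M g fun c hc => ⟨(h c hc).2.2.1.trans h1', (h c hc).2.2.2.trans h2'⟩,
    lin_Rep ha hb h1 h2 g h]

/-- the divisibility condition on a primitive vector -/
lemma dvd_Rep {a b : ℕ} (e : ℕ) (ha : 1 ≤ a) (hb : 1 ≤ b) {v : V} (hv : ct v = 1) :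
    (Nat.Coprime (ap a e) (ap b e) ∧
      ((ap a e * ap b e : ℕ) : ℤ) ∣ om2 ((ap a e : ℤ), (ap b e : ℤ)) v) ↔
    ((a : ℤ) ∣ (e : ℤ) * v.1 ∧ (b : ℤ) ∣ (e : ℤ) * v.2) := by
  rw [dvd_mul_iff_div ha, dvd_mul_iff_div hb, Nat.gcd_comm e a, Nat.gcd_comm e b]
  change _ ↔ ((ap a e : ℤ) ∣ v.1 ∧ (ap b e : ℤ) ∣ v.2)
  generalize ap a e = a', ap b e = b'
  simp only [om2, Nat.cast_mul]
  constructor
  · rintro ⟨hc, hd⟩
    have hc' : IsCoprime (a' : ℤ) (b' : ℤ) := Nat.isCoprime_iff_coprime.2 hc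
    constructor
    · have h1 : (a' : ℤ) ∣ a' * v.2 - b' * v.1 := (dvd_mul_right _ _).trans hd
      have h2 : (a' : ℤ) ∣ b' * v.1 := by
        have := (dvd_mul_right (a' : ℤ) v.2).sub h1
        rwa [sub_sub_cancel] at this
      exact hc'.dvd_of_dvd_mul_left h2
    · have h1 : (b' : ℤ) ∣ a' * v.2 - b' * v.1 := (dvd_mul_left _ _).trans hd
      have h2 : (b' : ℤ) ∣ a' * v.2 := by
        have := h1.add (dvd_mul_right (b' : ℤ) v.1)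
        rwa [sub_add_cancel] at this
      exact hc'.symm.dvd_of_dvd_mul_left h2
  · rintro ⟨h1, h2⟩
    have hp : IsCoprime v.1 v.2 := prim_iff.1 hv
    refine ⟨Nat.isCoprime_iff_coprime.1
      ((hp.of_isCoprime_of_dvd_left h1).of_isCoprime_of_dvd_right h2),
      (mul_dvd_mul_left _ h2).sub ?_⟩
    rw [mul_comm]
    exact mul_dvd_mul_left _ h1

/-- the summand as a function of two vectors -/
noncomputable def Ph_Rep (T y : ℝ) (a b : ℕ) (c c' : V) : ℂ :=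
  ((om ((c.1 : ℝ) / (a * y)) * om ((c.2 : ℝ) / (b * y)) *
      om ((c'.1 : ℝ) / y) * om ((c'.2 : ℝ) / y) : ℝ) : ℂ) *
    wh (T * Real.log (((c.1 : ℝ) * c'.2) / ((c.2 : ℝ) * c'.1))) *
    iC ((a : ℤ) ∣ c.1 ∧ (b : ℤ) ∣ c.2)

lemma le_Rep {y : ℝ} (hy : 0 < y) {a : ℕ} (ha : 1 ≤ a) {c : ℤ} (hd : (a : ℤ) ∣ c)
    (h : om ((c : ℝ) / (a * y)) ≠ 0) : c ≤ a * ⌊2 * y⌋₊ := by
  obtain ⟨k, rfl⟩ := hd
  have ha' : (0 : ℝ) < a := by exact_mod_cast ha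
  have h1 := om_mem h
  rw [Int.cast_mul, Int.cast_natCast, mul_div_mul_left _ _ ha'.ne', lt_div_iff₀ hy,
    div_lt_iff₀ hy] at h1
  have hk : (0 : ℤ) ≤ k := by
    have : (0 : ℝ) ≤ k := by linarith [h1.1]
    exact_mod_cast this
  lift k to ℕ using hk
  refine mul_le_mul_of_nonneg_left ?_ (Nat.cast_nonneg _)
  have : k ≤ ⌊2 * y⌋₊ := Nat.le_floor (by
    have := h1.2
    rw [Int.cast_natCast] at this
    linarith)
  exact_mod_cast this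

lemma sup_Rep {T y : ℝ} (hy : 0 < y) {a b : ℕ} (ha : 1 ≤ a) (hb : 1 ≤ b) {c c' : V}
    (h : Ph_Rep T y a b c c' ≠ 0) :
    ((a : ℤ) ∣ c.1 ∧ (b : ℤ) ∣ c.2 ∧ c.1 ≤ a * ⌊2 * y⌋₊ ∧ c.2 ≤ b * ⌊2 * y⌋₊) ∧
    (((1 : ℕ) : ℤ) ∣ c'.1 ∧ ((1 : ℕ) : ℤ) ∣ c'.2 ∧ c'.1 ≤ (1 : ℕ) * ⌊2 * y⌋₊ ∧
      c'.2 ≤ (1 : ℕ) * ⌊2 * y⌋₊) := by
  have h1 := iC_ne_zero (right_ne_zero_of_mul h)
  have h2 := Complex.ofReal_ne_zero.1 (left_ne_zero_of_mul (left_ne_zero_of_mul h))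
  simp only [mul_ne_zero_iff] at h2
  have d : ∀ c : ℤ, ((1 : ℕ) : ℤ) ∣ c := fun c => by simp
  refine ⟨⟨h1.1, h1.2, le_Rep hy ha h1.1 h2.1.1.1, le_Rep hy hb h1.2 h2.1.1.2⟩, d _, d _,
    le_Rep hy le_rfl (d _) ?_, le_Rep hy le_rfl (d _) ?_⟩
  · rw [Nat.cast_one, one_mul]
    exact h2.1.2
  · rw [Nat.cast_one, one_mul]
    exact h2.2

lemma term_Rep (T y : ℝ) {a b e f : ℕ} (ha : 1 ≤ a) (hb : 1 ≤ b) (he : 1 ≤ e) (hf : 1 ≤ f)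
    {v : V} (hv : ct v = 1) (w : V) :
    Gw T y a b e f (v, w) * (iC (Nat.Coprime (ap a e) (ap b e)) *
      ind (ap a e * ap b e) (om2 ((ap a e : ℤ), (ap b e : ℤ)) v)) =
    Ph_Rep T y a b ((e : ℤ) * v.1, (e : ℤ) * v.2) ((f : ℤ) * w.1, (f : ℤ) * w.2) := by
  have he' : (e : ℝ) ≠ 0 := by
    have : (0 : ℝ) < e := by exact_mod_cast he
    exact this.ne'
  have hf' : (f : ℝ) ≠ 0 := by
    have : (0 : ℝ) < f := by exact_mod_cast hf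
    exact this.ne'
  rw [ind, ← iC_and, iC_congr (dvd_Rep e ha hb hv), Gw, Ph_Rep]
  simp only [Int.cast_mul, Int.cast_natCast]
  rw [show (e : ℝ) * v.1 * (f * w.2) / (e * v.2 * (f * w.1)) = v.1 * w.2 / (v.2 * w.1) by
    rw [mul_mul_mul_comm, mul_mul_mul_comm (e : ℝ) v.2, mul_div_mul_left _ _ (mul_ne_zero he' hf')]]

lemma top_Rep (T y : ℝ) {a b : ℕ} (ha : 1 ≤ a) (hb : 1 ≤ b) (k₁ l₂ k₂ l₁ : ℕ) :
    Ph_Rep T y a b ((a : ℤ) * k₁, (b : ℤ) * l₂) (((1 : ℕ) : ℤ) * k₂, ((1 : ℕ) : ℤ) * l₁) =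
    ((om ((k₁ : ℝ) / y) * om ((l₂ : ℝ) / y) * om ((k₂ : ℝ) / y) * om ((l₁ : ℝ) / y) : ℝ) : ℂ) *
      wh (T * Real.log (((a : ℝ) * k₁ * l₁) / ((b : ℝ) * l₂ * k₂))) := by
  have ha' : (a : ℝ) ≠ 0 := by
    have : (0 : ℝ) < a := by exact_mod_cast ha
    exact this.ne'
  have hb' : (b : ℝ) ≠ 0 := by
    have : (0 : ℝ) < b := by exact_mod_cast hb
    exact this.ne'
  rw [Ph_Rep, iC_pos ⟨dvd_mul_right _ _, dvd_mul_right _ _⟩, mul_one]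
  simp only [Int.cast_mul, Int.cast_natCast, Nat.cast_one, one_mul]
  rw [mul_div_mul_left _ _ ha', mul_div_mul_left _ _ hb']

theorem rep_stmt : RepStmt := by
  intro T y N M a b hR ha hb
  obtain ⟨-, hy, -, hN, -, hM, -⟩ := hR
  rw [mem_Icc] at ha hb
  have ha1 : 1 ≤ a := hN.trans ha.1
  have hb1 : 1 ≤ b := hN.trans hb.1
  have hY : 2 * N * ⌊2 * y⌋₊ ≤ M := by
    have h1 : (⌊2 * y⌋₊ : ℝ) ≤ 2 * y := Nat.floor_le (by positivity)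
    have h2 : (2 * N : ℝ) * ⌊2 * y⌋₊ ≤ 2 * N * (2 * y) :=
      mul_le_mul_of_nonneg_left h1 (by positivity)
    have h3 : (2 * N : ℝ) * ⌊2 * y⌋₊ ≤ M := by linarith
    exact_mod_cast h3
  have hA : a * ⌊2 * y⌋₊ ≤ M := (Nat.mul_le_mul_right _ ha.2).trans hY
  have hB : b * ⌊2 * y⌋₊ ≤ M := (Nat.mul_le_mul_right _ hb.2).trans hY
  have h1 : 1 * ⌊2 * y⌋₊ ≤ M := (Nat.mul_le_mul_right _ ha1).trans hA
  symm
  calc ∑ e ∈ Icc 1 M, ∑ f ∈ Icc 1 M, TS T y a b e f M (fun P =>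
        iC (Nat.Coprime (ap a e) (ap b e)) *
          ind (ap a e * ap b e) (om2 ((ap a e : ℤ), (ap b e : ℤ)) P.1))
      = ∑ e ∈ Icc 1 M, ∑ v ∈ PB_Rep M, ∑ f ∈ Icc 1 M, ∑ w ∈ PB_Rep M,
          Ph_Rep T y a b ((e : ℤ) * v.1, (e : ℤ) * v.2) ((f : ℤ) * w.1, (f : ℤ) * w.2) := by
        refine sum_congr rfl fun e he => ?_
        rw [sum_comm]
        refine sum_congr rfl fun f hf => ?_
        rw [TS, Bx_Rep, sum_product]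
        exact sum_congr rfl fun v hv => sum_congr rfl fun w _ =>
          term_Rep T y ha1 hb1 (mem_Icc.1 he).1 (mem_Icc.1 hf).1 (mem_PB_Rep.1 hv).2.2 w
    _ = ∑ e ∈ Icc 1 M, ∑ v ∈ PB_Rep M, ∑ k₂ ∈ Icc 1 ⌊2 * y⌋₊, ∑ l₁ ∈ Icc 1 ⌊2 * y⌋₊,
          Ph_Rep T y a b ((e : ℤ) * v.1, (e : ℤ) * v.2)
            (((1 : ℕ) : ℤ) * k₂, ((1 : ℕ) : ℤ) * l₁) :=
        sum_congr rfl fun e _ => sum_congr rfl fun v _ =>
          comb_Rep le_rfl le_rfl h1 h1 _ fun c hc => (sup_Rep hy ha1 hb1 hc).2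
    _ = ∑ k₁ ∈ Icc 1 ⌊2 * y⌋₊, ∑ l₂ ∈ Icc 1 ⌊2 * y⌋₊, ∑ k₂ ∈ Icc 1 ⌊2 * y⌋₊,
          ∑ l₁ ∈ Icc 1 ⌊2 * y⌋₊, Ph_Rep T y a b ((a : ℤ) * k₁, (b : ℤ) * l₂)
            (((1 : ℕ) : ℤ) * k₂, ((1 : ℕ) : ℤ) * l₁) := by
        refine comb_Rep ha1 hb1 hA hB (fun c => ∑ k₂ ∈ Icc 1 ⌊2 * y⌋₊, ∑ l₁ ∈ Icc 1 ⌊2 * y⌋₊,
          Ph_Rep T y a b c (((1 : ℕ) : ℤ) * k₂, ((1 : ℕ) : ℤ) * l₁)) fun c hc => ?_
        obtain ⟨k, -, hk⟩ := exists_ne_zero_of_sum_ne_zero hc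
        obtain ⟨l, -, hl⟩ := exists_ne_zero_of_sum_ne_zero hk
        exact (sup_Rep hy ha1 hb1 hl).1
    _ = Q4 T y a b :=
        sum_congr rfl fun k₁ _ => sum_congr rfl fun l₂ _ => sum_congr rfl fun k₂ _ =>
          sum_congr rfl fun l₁ _ => top_Rep T y ha1 hb1 k₁ l₂ k₂ l₁

end Pool.Agent.MP_c853c5_nt.W

end
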