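import Pool.Agent.Mg.C853.G6e22ef

section

/-!
The diagonal terms at the top level.
-/

set_option autoImplicit false

open Finset MeasureTheory
open scoped ENNReal ComplexConjugate

namespace Pool.Agent.MP_c853c5_nt.W

open Pool.Agent.MP_2a1f0e_nt Pool.Agent.MP_2a1f0e_nt.GM Pool.Agent.MP_2a1f0e_nt.DH

open Classical in
noncomputable def iR_Diag (p : Prop) : ℝ := if p then 1 else 0

lemma iR_pos_Diag {p : Prop} (h : p) : iR_Diag p = 1 := if_pos h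

lemma iR_nonneg_Diag (p : Prop) : 0 ≤ iR_Diag p := by
  unfold iR_Diag
  split_ifs <;> norm_num

lemma sum_iR_le_Diag {ι : Type*} (s t : Finset ι) (p : ι → Prop) (h : ∀ i ∈ s, p i → i ∈ t) :
    ∑ i ∈ s, iR_Diag (p i) ≤ t.card := by
  classical
  unfold iR_Diag
  rw [sum_boole, Nat.cast_le]
  exact card_le_card fun i hi => h i (mem_filter.1 hi).1 (mem_filter.1 hi).2

lemma sum_dvd_Diag {X : ℕ} {Δ : ℝ} (h : DivB X Δ) (s : Finset ℕ) {n : ℤ} (h0 : 0 < n)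
    (hn : n ≤ X) : ∑ a ∈ s, iR_Diag ((a : ℤ) ∣ n) ≤ Δ := by
  refine (sum_iR_le_Diag s n.natAbs.divisors _ fun a _ ha => ?_).trans (h.2 _ (by omega))
  exact Nat.mem_divisors.2 ⟨Int.natCast_dvd.1 ha, by omega⟩

lemma sum_le_Diag (M : ℕ) {f y : ℝ} (hf : 0 < f) (hy : 0 < y) :
    ∑ v ∈ Icc (1 : ℤ) M, iR_Diag (f * v ≤ 2 * y) ≤ 2 * y / f := by
  have h0 : 0 ≤ 2 * y / f := by positivity
  refine (sum_iR_le_Diag _ (Icc (1 : ℤ) ⌊2 * y / f⌋) _ fun v hv h => ?_).trans ?_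
  · refine mem_Icc.2 ⟨(mem_Icc.1 hv).1, Int.le_floor.2 ?_⟩
    rw [le_div_iff₀ hf]
    linarith
  · have h1 : (((Icc (1 : ℤ) ⌊2 * y / f⌋).card : ℤ) : ℝ) = (⌊2 * y / f⌋ : ℤ) := by
      rw [Int.card_Icc, add_sub_cancel_right, Int.toNat_of_nonneg (Int.floor_nonneg.2 h0)]
    rw [Int.cast_natCast] at h1
    rw [h1]
    exact Int.floor_le _

lemma inv_ap_Diag {a : ℕ} (ha : 1 ≤ a) (e : ℕ) :
    1 ≤ ap a e ∧ 1 / (ap a e : ℝ) = (Nat.gcd a e : ℝ) / a := by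
  have hg : 0 < Nat.gcd a e := Nat.gcd_pos_of_pos_left _ ha
  refine ⟨Nat.div_pos (Nat.gcd_le_left _ ha) hg, ?_⟩
  rw [ap, Nat.cast_div (Nat.gcd_dvd_left a e) (by positivity), one_div_div]

lemma norm_dlT_Diag {a b : ℕ} (ha : 1 ≤ a) (hb : 1 ≤ b) (e : ℕ) (P : Pr) :
    ‖dlT a b e P‖ ≤ iR_Diag ((a : ℤ) ∣ e * P.1.1) * iR_Diag ((b : ℤ) ∣ e * P.1.2) +
      (Nat.gcd a e : ℝ) / a * ((Nat.gcd b e : ℝ) / b) := by
  have h0 := mul_nonneg (iR_nonneg_Diag ((a : ℤ) ∣ e * P.1.1))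
    (iR_nonneg_Diag ((b : ℤ) ∣ e * P.1.2))
  obtain ⟨a1, a2⟩ := inv_ap_Diag ha e
  obtain ⟨b1, b2⟩ := inv_ap_Diag hb e
  by_cases hc : Nat.Coprime (ap a e) (ap b e)
  swap
  · rw [dlT, iC_neg hc, zero_mul, norm_zero]
    positivity
  rw [dlT, iC_pos hc, one_mul, dl]
  refine norm_sub_le_of_le ?_ ?_
  · by_cases hd : ((ap a e * ap b e : ℕ) : ℤ) ∣ om2 ((ap a e : ℤ), (ap b e : ℤ)) P.1
    swap
    · rw [ind, iC_neg hd, norm_zero]
      exact h0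
    have hc' : IsCoprime (ap a e : ℤ) (ap b e : ℤ) := Nat.isCoprime_iff_coprime.2 hc
    rw [Nat.cast_mul, om2] at hd
    have h1 : (a : ℤ) ∣ e * P.1.1 := by
      rw [dvd_mul_iff_div ha, Nat.gcd_comm]
      exact hc'.dvd_of_dvd_mul_left
        ((dvd_sub_right (dvd_mul_right _ _)).1 ((dvd_mul_right _ _).trans hd))
    have h2 : (b : ℤ) ∣ e * P.1.2 := by
      rw [dvd_mul_iff_div hb, Nat.gcd_comm]
      exact hc'.symm.dvd_of_dvd_mul_left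
        ((dvd_sub_left (dvd_mul_right _ _)).1 ((dvd_mul_left _ _).trans hd))
    rw [iR_pos_Diag h1, iR_pos_Diag h2, one_mul]
    exact norm_ind_le _ _
  · have h1 := le_psiD (ap a e * ap b e)
    have h2 : (0 : ℝ) < (ap a e * ap b e : ℕ) := by positivity
    rw [Complex.norm_real, Real.norm_of_nonneg (one_div_nonneg.2 (h2.le.trans h1)), ← a2, ← b2,
      one_div_mul_one_div, ← Nat.cast_mul]
    exact one_div_le_one_div_of_le h2 h1

lemma norm_Gw_Diag {C : ℝ} (hC : ∀ s, ‖wh s‖ ≤ C) {N a : ℕ} (b e : ℕ) {f : ℕ} (T : ℝ) {y : ℝ}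
    (hy : 0 < y) (hN : 1 ≤ N) (ha : a ∈ Icc N (2 * N)) {v : V} (hv : 1 ≤ v.1) :
    ‖Gw T y a b e f (v, v)‖ ≤ C * (iR_Diag (e ≤ 4 * N * f) *
      (iR_Diag ((f : ℝ) * v.1 ≤ 2 * y) * iR_Diag ((f : ℝ) * v.2 ≤ 2 * y))) := by
  have hC0 : 0 ≤ C := (norm_nonneg _).trans (hC 0)
  by_cases h : Gw T y a b e f (v, v) = 0
  · rw [h, norm_zero]
    exact mul_nonneg hC0 (mul_nonneg (iR_nonneg_Diag _)
      (mul_nonneg (iR_nonneg_Diag _) (iR_nonneg_Diag _)))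
  have h1 := Complex.ofReal_ne_zero.1 (left_ne_zero_of_mul h)
  simp only [mul_ne_zero_iff] at h1
  obtain ⟨⟨⟨h1, -⟩, h3⟩, h4⟩ := h1
  obtain ⟨a1, a2⟩ := mem_Icc.1 ha
  have a3 : (0 : ℝ) < a := by exact_mod_cast hN.trans a1
  have a4 : (a : ℝ) ≤ 2 * N := by exact_mod_cast a2
  have v1 : (1 : ℝ) ≤ v.1 := by exact_mod_cast hv
  have k1 := (div_lt_iff₀ (by positivity)).1 (om_mem h1).2
  have k2 := (lt_div_iff₀ hy).1 (om_mem h3).1
  have k3 := (div_lt_iff₀ hy).1 (om_mem h3).2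
  have k4 := (div_lt_iff₀ hy).1 (om_mem h4).2
  have k5 : e ≤ 4 * N * f := by
    have hN' : (0 : ℝ) ≤ N := Nat.cast_nonneg N
    have k6 : (e : ℝ) * v.1 ≤ 4 * N * f * v.1 := by
      have k7 := mul_le_mul_of_nonneg_right a4 hy.le
      have k8 := mul_le_mul_of_nonneg_left k2.le hN'
      have k9 := mul_nonneg hN' hy.le
      nlinarith
    exact_mod_cast le_of_mul_le_mul_right k6 (by linarith)
  rw [iR_pos_Diag k5, iR_pos_Diag (by linarith), iR_pos_Diag (by linarith), Gw, norm_mul]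
  simp only [mul_one]
  refine (mul_le_of_le_one_left (norm_nonneg _) ?_).trans (hC _)
  push_cast
  simp only [norm_mul]
  exact mul_le_one₀ (mul_le_one₀ (mul_le_one₀ (norm_om_le _) (norm_nonneg _) (norm_om_le _))
    (norm_nonneg _) (norm_om_le _)) (norm_nonneg _) (norm_om_le _)

lemma norm_TS_Diag (T y : ℝ) (a b e f M : ℕ) :
    ‖TS T y a b e f M fun P => iC (hh P = 0) * dlT a b e P‖ ≤
      ∑ v ∈ Icc (1 : ℤ) M ×ˢ Icc (1 : ℤ) M, ‖Gw T y a b e f (v, v)‖ * ‖dlT a b e (v, v)‖ := by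
  set B := Icc (1 : ℤ) M ×ˢ Icc (1 : ℤ) M with hB
  calc _ ≤ ∑ P ∈ Bx M,
        if P.1 = P.2 then ‖Gw T y a b e f (P.1, P.1)‖ * ‖dlT a b e (P.1, P.1)‖ else 0 := by
        refine norm_sum_le_of_le _ fun P hP => ?_
        obtain ⟨hP, p1, p2⟩ := mem_filter.1 hP
        dsimp only
        by_cases h : hh P = 0
        · have h1 : P.2 = P.1 := by
            refine (prim_par p1 p2 h).resolve_right fun h2 => ?_
            have h3 := (mem_Icc.1 (mem_product.1 (mem_product.1 hP).1).1).1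
            have h4 := (mem_Icc.1 (mem_product.1 (mem_product.1 hP).2).1).1
            rw [h2, Prod.fst_neg] at h4
            omega
          have h2 : (P.1, P.1) = P := Prod.ext rfl h1.symm
          rw [if_pos h1.symm, iC_pos h, one_mul, norm_mul, h2]
        · rw [iC_neg h, zero_mul, mul_zero, norm_zero]
          positivity
    _ ≤ ∑ P ∈ B ×ˢ B,
        if P.1 = P.2 then ‖Gw T y a b e f (P.1, P.1)‖ * ‖dlT a b e (P.1, P.1)‖ else 0 :=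
        sum_le_sum_of_subset_of_nonneg (filter_subset _ _) fun _ _ _ => by positivity
    _ = _ := by
        rw [sum_product]
        exact sum_congr rfl fun v hv => by simp only [sum_ite_eq, if_pos hv]

theorem diag_stmt (hG : GcdStmt) (hW : WhStmt) : DiagStmt := by
  intro ε hε
  obtain ⟨C, hC, hw⟩ := hW.2.2 0
  simp only [pow_zero, div_one] at hw
  obtain ⟨C', hC', hD⟩ := exD 4 3 400 hε
  refine ⟨160 * C * C', by positivity, fun T y N M ⟨hT, hy, _, hN, _, _, hM⟩ => ?_⟩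
  obtain ⟨X, Δ, hΔ, hX, hΔ'⟩ := hD T hT
  have hΔ0 : 0 ≤ Δ := zero_le_one.trans hΔ.1
  have hMX : M * M ≤ X := by
    have h1 : (M : ℝ) * M ≤ 20 * T ^ 2 * (20 * T ^ 2) :=
      mul_le_mul hM hM (Nat.cast_nonneg M) (by positivity)
    have h2 : (M : ℝ) * M ≤ X := by linarith
    exact_mod_cast h2
  have hMX' : M ≤ X := (Nat.le_mul_self M).trans hMX
  set B := Icc (1 : ℤ) M ×ˢ Icc (1 : ℤ) M with hB
  set I := Icc N (2 * N) with hI
  let χ : ℕ → ℕ → V → ℝ := fun e f v => C * (iR_Diag (e ≤ 4 * N * f) *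
    (iR_Diag ((f : ℝ) * v.1 ≤ 2 * y) * iR_Diag ((f : ℝ) * v.2 ≤ 2 * y)))
  have hχ : ∀ e f v, 0 ≤ χ e f v := fun e f v => mul_nonneg hC.le (mul_nonneg (iR_nonneg_Diag _)
    (mul_nonneg (iR_nonneg_Diag _) (iR_nonneg_Diag _)))
  have h1 : ∀ e ∈ Icc 1 M, ∀ v ∈ B, ∑ a ∈ I, ∑ b ∈ I, ‖dlT a b e (v, v)‖ ≤ 5 * Δ ^ 2 := by
    intro e he v hv
    obtain ⟨e1, e2⟩ := mem_Icc.1 he
    have hd : ∀ w ∈ Icc (1 : ℤ) M, ∑ a ∈ I, iR_Diag ((a : ℤ) ∣ e * w) ≤ Δ := by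
      intro w hw
      obtain ⟨w1, w2⟩ := mem_Icc.1 hw
      refine sum_dvd_Diag hΔ I (by positivity) ?_
      calc (e : ℤ) * w ≤ M * M := by gcongr
        _ ≤ X := by exact_mod_cast hMX
    have hg : ∑ a ∈ I, (Nat.gcd a e : ℝ) / a ≤ 2 * Δ :=
      (hG.2.2.1 e N e1 hN).trans (by linarith [hΔ.2 e (e2.trans hMX')])
    have hg0 : 0 ≤ ∑ a ∈ I, (Nat.gcd a e : ℝ) / a := sum_nonneg fun _ _ => by positivity
    calc _ ≤ ∑ a ∈ I, ∑ b ∈ I, (iR_Diag ((a : ℤ) ∣ e * v.1) * iR_Diag ((b : ℤ) ∣ e * v.2) +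
          (Nat.gcd a e : ℝ) / a * ((Nat.gcd b e : ℝ) / b)) :=
          sum_le_sum fun a ha => sum_le_sum fun b hb =>
            norm_dlT_Diag (hN.trans (mem_Icc.1 ha).1) (hN.trans (mem_Icc.1 hb).1) e (v, v)
      _ = (∑ a ∈ I, iR_Diag ((a : ℤ) ∣ e * v.1)) * (∑ b ∈ I, iR_Diag ((b : ℤ) ∣ e * v.2)) +
          (∑ a ∈ I, (Nat.gcd a e : ℝ) / a) * ∑ b ∈ I, (Nat.gcd b e : ℝ) / b := by
          simp only [sum_add_distrib, sum_mul_sum]
      _ ≤ Δ * Δ + 2 * Δ * (2 * Δ) :=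
          add_le_add (mul_le_mul (hd _ (mem_product.1 hv).1) (hd _ (mem_product.1 hv).2)
            (sum_nonneg fun _ _ => iR_nonneg_Diag _) hΔ0) (mul_le_mul hg hg hg0 (by positivity))
      _ = _ := by ring
  have h2 : ∀ f ∈ Icc 1 M, ∑ e ∈ Icc 1 M, ∑ v ∈ B, χ e f v ≤ 16 * C * (N * y ^ 2) * (1 / f) := by
    intro f hf
    have f1 : (0 : ℝ) < f := by exact_mod_cast (mem_Icc.1 hf).1
    have k1 := sum_le_Diag M f1 hy
    have k0 : 0 ≤ ∑ v ∈ Icc (1 : ℤ) M, iR_Diag ((f : ℝ) * v ≤ 2 * y) :=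
      sum_nonneg fun _ _ => iR_nonneg_Diag _
    have k2 : ∑ e ∈ Icc 1 M, iR_Diag (e ≤ 4 * N * f) ≤ 4 * N * f := by
      refine (sum_iR_le_Diag _ (Icc 1 (4 * N * f)) _ fun e he h =>
        mem_Icc.2 ⟨(mem_Icc.1 he).1, h⟩).trans ?_
      simp
    calc _ = C * ((∑ e ∈ Icc 1 M, iR_Diag (e ≤ 4 * N * f)) *
          ((∑ v ∈ Icc (1 : ℤ) M, iR_Diag ((f : ℝ) * v ≤ 2 * y)) *
            ∑ v ∈ Icc (1 : ℤ) M, iR_Diag ((f : ℝ) * v ≤ 2 * y))) := by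
          rw [sum_mul_sum (Icc (1 : ℤ) M), sum_mul]
          simp only [hB, sum_product, mul_sum, χ]
      _ ≤ C * (4 * N * f * (2 * y / f * (2 * y / f))) := by gcongr
      _ = _ := by field_simp; ring
  calc _ ≤ ∑ a ∈ I, ∑ b ∈ I, ∑ e ∈ Icc 1 M, ∑ f ∈ Icc 1 M, ∑ v ∈ B,
        χ e f v * ‖dlT a b e (v, v)‖ := by
        refine sum_le_sum fun a ha => sum_le_sum fun b _ => sum_le_sum fun e _ =>
          sum_le_sum fun f _ => (norm_TS_Diag T y a b e f M).trans (sum_le_sum fun v hv => ?_)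
        exact mul_le_mul_of_nonneg_right
          (norm_Gw_Diag hw b e T hy hN ha (mem_Icc.1 (mem_product.1 hv).1).1) (norm_nonneg _)
    _ = ∑ f ∈ Icc 1 M, ∑ e ∈ Icc 1 M, ∑ v ∈ B,
        χ e f v * ∑ a ∈ I, ∑ b ∈ I, ‖dlT a b e (v, v)‖ := by
        simp only [mul_sum]
        rw [sum_comm (s := Icc 1 M) (t := Icc 1 M)]
        simp only [sum_comm (s := I) (t := Icc 1 M), sum_comm (s := I) (t := B)]
    _ ≤ ∑ f ∈ Icc 1 M, (∑ e ∈ Icc 1 M, ∑ v ∈ B, χ e f v) * (5 * Δ ^ 2) := by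
        simp only [sum_mul]
        exact sum_le_sum fun f _ => sum_le_sum fun e he => sum_le_sum fun v hv =>
          mul_le_mul_of_nonneg_left (h1 e he v hv) (hχ e f v)
    _ ≤ ∑ f ∈ Icc 1 M, 16 * C * (N * y ^ 2) * (1 / f) * (5 * Δ ^ 2) :=
        sum_le_sum fun f hf => mul_le_mul_of_nonneg_right (h2 f hf) (by positivity)
    _ = 16 * C * (N * y ^ 2) * (∑ f ∈ Icc 1 M, 1 / (f : ℝ)) * (5 * Δ ^ 2) := by
        rw [mul_sum, sum_mul]
    _ ≤ 16 * C * (N * y ^ 2) * (2 * Δ) * (5 * Δ ^ 2) := by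
        have := harm_le hΔ hMX'
        gcongr
    _ = 160 * C * Δ ^ 3 * (N * y ^ 2) := by ring
    _ ≤ 160 * C * (C' * T ^ ε) * (N * y ^ 2) := by gcongr
    _ = _ := by ring

end Pool.Agent.MP_c853c5_nt.W

end

section

set_option autoImplicit false

open Finset MeasureTheory
open scoped ENNReal ComplexConjugate

namespace Pool.Agent.MP_c853c5_nt.W

open Pool.Agent.MP_2a1f0e_nt Pool.Agent.MP_2a1f0e_nt.GM Pool.Agent.MP_2a1f0e_nt.DH

lemma int_Disc {g : ℝ → ℝ} (hg : Measurable g) {B : ℝ} (hB : ∀ u, |g u| ≤ B) (t : ℝ) :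
    Integrable fun u => kp (u - t) * g u :=
  (integrable_kp.comp_sub_right t).mul_bdd (c := B) hg.aestronglyMeasurable
    (Filter.Eventually.of_forall hB)

lemma cs_Disc {g : ℝ → ℝ} (hg : Measurable g) {B : ℝ} (hB : ∀ u, |g u| ≤ B) (t : ℝ) :
    (∫ u, kp (u - t) * g u) ^ 2 ≤ Real.pi * ∫ u, kp (u - t) * g u ^ 2 := by
  have h1 := int_Disc hg hB t
  have h2 := int_Disc (hg.pow_const 2) (B := B ^ 2) (fun u => by
    rw [abs_pow]; exact pow_le_pow_left₀ (abs_nonneg _) (hB u) 2) t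
  have h3 : Integrable fun u => kp (u - t) := integrable_kp.comp_sub_right t
  have h4 : ∫ u, kp (u - t) = Real.pi := by rw [integral_sub_right_eq_self, integral_kp]
  set I := ∫ u, kp (u - t) * g u with hI
  have h5 := integral_mono (h1.const_mul (2 * (I / Real.pi)))
    (h2.add (h3.const_mul ((I / Real.pi) ^ 2))) fun u => by
      have := mul_nonneg (kp_pos (u - t)).le (sq_nonneg (g u - I / Real.pi))
      simp only [Pi.add_apply]
      nlinarith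
  simp only [Pi.add_apply] at h5
  rw [integral_add h2 (h3.const_mul _), integral_const_mul, integral_const_mul, h4, ← hI] at h5
  have hp := Real.pi_pos
  have e : Real.pi * (2 * (I / Real.pi) * I - (I / Real.pi) ^ 2 * Real.pi) = I ^ 2 := by
    field_simp
    ring
  rw [← e]
  exact mul_le_mul_of_nonneg_left (by linarith) hp.le

lemma card_Disc {T : ℝ} (hT : 2 ≤ T) {S : Finset ℝ} (h1 : ∀ t ∈ S, T ≤ t ∧ t ≤ 2 * T)
    (h2 : ∀ s ∈ S, ∀ t ∈ S, s ≠ t → 1 ≤ |s - t|) : (S.card : ℝ) ≤ 10 * T := by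
  have h := sum_kp_sep S (fun t => t) h2 T (L := T) (by linarith)
  have h3 := card_nsmul_le_sum S (fun t => kp ((t - T) / T)) (1 / 2) fun t ht => by
    have h4 : (t - T) / T ≤ 1 := by
      rw [div_le_one (by linarith)]
      linarith [(h1 t ht).2]
    have h5 : 0 ≤ (t - T) / T := div_nonneg (by linarith [(h1 t ht).1]) (by linarith)
    exact one_div_le_one_div_of_le (by positivity) (by nlinarith)
  rw [nsmul_eq_mul] at h3
  linarith

/-- from a reproducing inequality to a bound on well spaced points -/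
lemma abs_Disc {G : ℝ → ℝ} (hG : Continuous G) {B C T : ℝ} (h0 : ∀ u, 0 ≤ G u)
    (hB : ∀ u, G u ≤ B) (hT : 2 ≤ T)
    (hr : ∀ t, G t ≤ C * ∫ u, kp (u - t) * (G u / (1 + |u - t|) ^ 2)) {S : Finset ℝ}
    (h1 : ∀ t ∈ S, T ≤ t ∧ t ≤ 2 * T) (h2 : ∀ s ∈ S, ∀ t ∈ S, s ≠ t → 1 ≤ |s - t|) :
    ∑ t ∈ S, G t ^ 2 ≤ C ^ 2 * Real.pi *
      (6 * (∫ u in (T / 2)..(4 * T), G u ^ 2) + 160 * Real.pi * (B ^ 2 / T ^ 3)) := by
  set H : ℝ → ℝ := (Set.Ioc (T / 2) (4 * T)).indicator fun u => G u ^ 2 with hH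
  have hB0 : 0 ≤ B := (h0 0).trans (hB 0)
  have hG2 : ∀ u, G u ^ 2 ≤ B ^ 2 := fun u => pow_le_pow_left₀ (h0 u) (hB u) 2
  have hH0 : ∀ u, 0 ≤ H u := fun u => Set.indicator_nonneg (fun _ _ => sq_nonneg _) u
  have hHm : Measurable H := (hG.measurable.pow_const 2).indicator measurableSet_Ioc
  have hHb : ∀ u, |H u| ≤ B ^ 2 := fun u => by
    rw [abs_of_nonneg (hH0 u)]
    exact (Set.indicator_le_self' (fun _ _ => sq_nonneg _) u).trans (hG2 u)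
  have hHi : Integrable H := (integrable_indicator_iff measurableSet_Ioc).2
    ((hG.pow 2).integrableOn_Icc.mono_set Set.Ioc_subset_Icc_self)
  have hp := Real.pi_pos
  have hT0 : 0 < T := by linarith
  have key : ∀ t ∈ S, G t ^ 2 ≤ C ^ 2 * Real.pi *
      ((∫ u, kp (u - t) * H u) + Real.pi * (16 * B ^ 2 / T ^ 4)) := fun t ht => by
    have hm : Measurable fun u => G u / (1 + |u - t|) ^ 2 := by fun_prop
    have hle : ∀ u, G u / (1 + |u - t|) ^ 2 ≤ G u := fun u =>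
      div_le_self (h0 u) (one_le_pow₀ (by linarith [abs_nonneg (u - t)]))
    have hb : ∀ u, |G u / (1 + |u - t|) ^ 2| ≤ B := fun u => by
      rw [abs_of_nonneg (div_nonneg (h0 u) (sq_nonneg _))]
      exact (hle u).trans (hB u)
    have h3 := cs_Disc hm hb t
    have h4 : ∫ u, kp (u - t) * (G u / (1 + |u - t|) ^ 2) ^ 2 ≤
        (∫ u, kp (u - t) * H u) + Real.pi * (16 * B ^ 2 / T ^ 4) := by
      have h5 : Integrable fun u => kp (u - t) := integrable_kp.comp_sub_right t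
      have h6 : ∫ u, kp (u - t) = Real.pi := by rw [integral_sub_right_eq_self, integral_kp]
      rw [← h6, ← integral_mul_const, ← integral_add (int_Disc hHm hHb t) (h5.mul_const _)]
      refine integral_mono (int_Disc (hm.pow_const 2) (B := B ^ 2) (fun u => by
        rw [abs_pow]; exact pow_le_pow_left₀ (abs_nonneg _) (hb u) 2) t)
        ((int_Disc hHm hHb t).add (h5.mul_const _)) fun u => ?_
      beta_reduce
      rw [← mul_add]
      refine mul_le_mul_of_nonneg_left ?_ (kp_pos _).le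
      by_cases hu : u ∈ Set.Ioc (T / 2) (4 * T)
      · rw [hH, Set.indicator_of_mem hu]
        exact le_add_of_le_of_nonneg
          (pow_le_pow_left₀ (div_nonneg (h0 u) (sq_nonneg _)) (hle u) 2) (by positivity)
      · have h7 : T / 2 ≤ 1 + |u - t| := by
          rw [Set.mem_Ioc, not_and_or, not_lt, not_le] at hu
          rcases hu with hu | hu
          · linarith [neg_abs_le (u - t), (h1 t ht).1]
          · linarith [le_abs_self (u - t), (h1 t ht).2]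
        refine le_add_of_nonneg_of_le (hH0 u) ?_
        rw [div_pow, show 16 * B ^ 2 / T ^ 4 = B ^ 2 / ((T / 2) ^ 2) ^ 2 by field_simp; ring]
        have h8 := hG2 u
        gcongr
    calc G t ^ 2 ≤ (C * ∫ u, kp (u - t) * (G u / (1 + |u - t|) ^ 2)) ^ 2 :=
          pow_le_pow_left₀ (h0 t) (hr t) 2
      _ ≤ _ := by
          rw [mul_pow, mul_assoc]
          exact mul_le_mul_of_nonneg_left
            (h3.trans (mul_le_mul_of_nonneg_left h4 hp.le)) (sq_nonneg _)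
  refine (sum_le_sum key).trans ?_
  rw [← mul_sum, sum_add_distrib, sum_const, nsmul_eq_mul]
  refine mul_le_mul_of_nonneg_left (add_le_add ?_ ?_) (by positivity)
  · rw [← integral_finsetSum _ fun t _ => int_Disc hHm hHb t,
      intervalIntegral.integral_of_le (by linarith), ← integral_indicator measurableSet_Ioc,
      ← integral_const_mul]
    refine integral_mono (integrable_finsetSum _ fun t _ => int_Disc hHm hHb t)
      (hHi.const_mul 6) fun u => ?_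
    beta_reduce
    rw [← sum_mul]
    refine mul_le_mul_of_nonneg_right ?_ (hH0 u)
    have h8 := sum_kp_sep S (fun t => t) h2 u (L := 1) one_pos
    refine le_trans (le_of_eq (sum_congr rfl fun t _ => ?_)) (h8.trans (by norm_num))
    rw [div_one, ← kp_neg, neg_sub]
  · refine (mul_le_mul_of_nonneg_right (card_Disc hT h1 h2) (by positivity)).trans_eq ?_
    field_simp
    ring

noncomputable def bp_Disc : ContDiffBump (15 / 4 : ℝ) := ⟨11 / 4, 13 / 4, by norm_num, by norm_num⟩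

/-- the reproducing inequality for polynomials with frequencies in `[X, 6 X]` -/
lemma rep_Disc (hM : MelAStmt) : ∃ C : ℝ, 0 < C ∧ ∀ {ι : Type} (J : Finset ι) (c : ι → ℂ)
    (x : ι → ℝ) (X : ℝ) (F : ℝ → ℂ), 0 < X → (∀ i ∈ J, 0 < x i) →
    (∀ i ∈ J, c i ≠ 0 → 1 ≤ x i / X ∧ x i / X ≤ 6) → (∀ t, F t = ∑ i ∈ J, c i * pw (x i) t) →
    ∀ t, ‖F t‖ ≤ C * ∫ u, kp (u - t) * (‖F u‖ / (1 + |u - t|) ^ 2) := by
  obtain ⟨C, hC, φ, hφ, hb, he⟩ := hM bp_Disc (1 / 2) 7 (by norm_num) bp_Disc.contDiff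
    (fun x hx => bp_Disc.zero_of_le_dist (by
      change (13 / 4 : ℝ) ≤ _
      rw [Real.dist_eq]
      rcases hx with hx | hx
      · linarith [neg_abs_le (x - 15 / 4)]
      · linarith [le_abs_self (x - 15 / 4)])) 4
  have hb' : ∀ ξ, ‖φ ξ‖ ≤ C * (kp ξ / (1 + |ξ|) ^ 2) := fun ξ => by
    refine (hb ξ).trans ?_
    rw [kp, div_div, mul_one_div]
    refine div_le_div_of_nonneg_left hC.le (by positivity) ?_
    have h1 : 1 + ξ ^ 2 ≤ (1 + |ξ|) ^ 2 := by nlinarith [abs_nonneg ξ, sq_abs ξ]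
    calc (1 + ξ ^ 2) * (1 + |ξ|) ^ 2 ≤ (1 + |ξ|) ^ 2 * (1 + |ξ|) ^ 2 := by gcongr
      _ = _ := by ring
  have hφi : Integrable φ := (integrable_kp.const_mul C).mono' hφ.aestronglyMeasurable
    (Filter.Eventually.of_forall fun ξ => (hb' ξ).trans (mul_le_mul_of_nonneg_left
      (div_le_self (kp_pos ξ).le (one_le_pow₀ (by linarith [abs_nonneg ξ]))) hC.le))
  refine ⟨C, hC, fun J c x X F hX hx hc hF t => ?_⟩
  have hFc : Continuous F := by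
    rw [funext hF]
    exact continuous_finsetSum _ fun i _ => continuous_const.mul (continuous_pw _)
  have hFb : ∀ u, ‖F u‖ ≤ ∑ i ∈ J, ‖c i‖ := fun u => by
    rw [hF]
    refine (norm_sum_le _ _).trans_eq (sum_congr rfl fun i _ => ?_)
    rw [norm_mul, norm_pw, mul_one]
  have key : F t = ∫ ξ, φ ξ * (pw X (-ξ) * F (ξ + t)) := by
    simp only [hF, mul_sum]
    have hcc : ∀ i, Continuous fun ξ : ℝ => pw X (-ξ) * (c i * pw (x i) (ξ + t)) := fun i =>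
      ((continuous_pw X).comp continuous_neg).mul (continuous_const.mul
        ((continuous_pw _).comp (continuous_id.add continuous_const)))
    rw [integral_finsetSum _ fun i _ => hφi.mul_bdd (c := ‖c i‖) (hcc i).aestronglyMeasurable
      (Filter.Eventually.of_forall fun ξ => by
        rw [norm_mul, norm_mul, norm_pw, norm_pw, one_mul, mul_one])]
    refine sum_congr rfl fun i hi => ?_
    have e : ∀ ξ : ℝ, φ ξ * (pw X (-ξ) * (c i * pw (x i) (ξ + t))) =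
        φ ξ * pw (x i / X) ξ * (c i * pw (x i) t) := fun ξ => by
      rw [pw_div (hx i hi).ne' hX.ne', pw_add]
      ring
    simp only [e]
    rw [integral_mul_const, ← he _ (div_pos (hx i hi) hX)]
    by_cases h0 : c i = 0
    · rw [h0, zero_mul, mul_zero]
    · rw [bp_Disc.one_of_mem_closedBall, Complex.ofReal_one, one_mul]
      rw [Metric.mem_closedBall, Real.dist_eq, abs_le]
      change -(11 / 4 : ℝ) ≤ _ ∧ _ ≤ (11 / 4 : ℝ)
      constructor <;> linarith [(hc i hi h0).1, (hc i hi h0).2]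
  have hi := int_Disc (g := fun u => ‖F u‖ / (1 + |u - t|) ^ 2) (by fun_prop) (fun u => by
    rw [abs_of_nonneg (by positivity)]
    exact (div_le_self (norm_nonneg _) (one_le_pow₀ (by linarith [abs_nonneg (u - t)]))).trans
      (hFb u)) t
  rw [key, ← integral_const_mul, ← integral_add_right_eq_self
    (fun u => C * (kp (u - t) * (‖F u‖ / (1 + |u - t|) ^ 2))) t]
  refine norm_integral_le_of_norm_le ((hi.const_mul C).comp_add_right t)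
    (Filter.Eventually.of_forall fun ξ => ?_)
  rw [norm_mul, norm_mul, norm_pw, one_mul, add_sub_cancel_right]
  refine (mul_le_mul_of_nonneg_right (hb' ξ) (norm_nonneg _)).trans_eq ?_
  ring

lemma normZo_Disc {y : ℝ} (hy : 0 < y) (t : ℝ) : ‖Zo y t‖ ≤ 2 * y :=
  (norm_PP_le (L := ⌊2 * y⌋₊) (c := fun n => (om ((n : ℝ) / y) : ℂ)) (B := 1)
    (fun _ _ => norm_om_le _) t).trans (by rw [mul_one]; exact Nat.floor_le (by positivity))

lemma cmp_Disc {T T' y ε : ℝ} (n : ℝ) (hT : 0 < T) (hε : 0 < ε) (h1 : T / 2 ≤ T')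
    (h2 : T' ≤ 2 * T) {z : ℝ} (hz : 0 ≤ z) :
    T' ^ ε * ((T' + √T' * n ^ 2) * z * (1 + y ^ 2 / T') ^ 2) ≤
      8 * 2 ^ ε * (T ^ ε * ((T + √T * n ^ 2) * z * (1 + y ^ 2 / T) ^ 2)) := by
  have h0 : 0 < T' := by linarith
  have a1 : T' ^ ε ≤ 2 ^ ε * T ^ ε := by
    rw [← Real.mul_rpow zero_le_two hT.le]
    exact Real.rpow_le_rpow h0.le h2 hε.le
  have a2 : √T' ≤ 2 * √T := by
    rw [Real.sqrt_le_left (by positivity), mul_pow, Real.sq_sqrt hT.le]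
    linarith
  have a3 : T' + √T' * n ^ 2 ≤ 2 * (T + √T * n ^ 2) := by nlinarith [sq_nonneg n]
  have a4 : 1 + y ^ 2 / T' ≤ 2 * (1 + y ^ 2 / T) := by
    have : y ^ 2 / T' ≤ y ^ 2 / (T / 2) := by gcongr
    rw [div_div_eq_mul_div, mul_div_right_comm] at this
    linarith
  calc _ ≤ (2 ^ ε * T ^ ε) * ((2 * (T + √T * n ^ 2)) * z * (2 * (1 + y ^ 2 / T)) ^ 2) := by
        gcongr
    _ = _ := by ring

theorem disc_stmt (hM : MelAStmt) : DiscStmt := by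
  intro hW ε hε
  obtain ⟨C, hC, hr⟩ := rep_Disc hM
  obtain ⟨K, hK, hI⟩ := hW ε hε
  have hp := Real.pi_pos
  refine ⟨C ^ 2 * Real.pi * (6 * (3 * (K * (8 * 2 ^ ε))) + 160 * Real.pi * 64), by positivity,
    fun N T y α S hT hy hyT hN hNT hα h1 h2 => ?_⟩
  have hT0 : 0 < T := by linarith
  have hN' : (1 : ℝ) ≤ N := by exact_mod_cast hN
  have hF : ∀ t, Zo y t ^ 2 * DP N α t =
      ∑ i ∈ (Icc 1 ⌊2 * y⌋₊ ×ˢ Icc 1 ⌊2 * y⌋₊) ×ˢ Icc N (2 * N),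
        ((om ((i.1.1 : ℝ) / y) : ℂ) * (om ((i.1.2 : ℝ) / y) : ℂ) * α i.2) *
          pw ((i.1.1 : ℝ) * i.1.2 * i.2) t := fun t => by
    rw [sq, Zo, DP, sum_mul_sum, ← sum_product', sum_mul_sum, ← sum_product']
    refine sum_congr rfl fun i hi => ?_
    simp only [mem_product, mem_Icc] at hi
    have a1 : (i.1.1 : ℝ) ≠ 0 := Nat.cast_ne_zero.2 (by omega)
    have a2 : (i.1.2 : ℝ) ≠ 0 := Nat.cast_ne_zero.2 (by omega)
    have a3 : (i.2 : ℝ) ≠ 0 := Nat.cast_ne_zero.2 (by omega)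
    rw [pw_mul (mul_ne_zero a1 a2) a3, pw_mul a1 a2]
    ring
  have hrep := hr _ _ _ (y ^ 2 * N) (fun t => Zo y t ^ 2 * DP N α t) (by positivity)
    (fun i hi => by
      simp only [mem_product, mem_Icc] at hi
      have a1 : (0 : ℝ) < i.1.1 := Nat.cast_pos.2 (by omega)
      have a2 : (0 : ℝ) < i.1.2 := Nat.cast_pos.2 (by omega)
      have a3 : (0 : ℝ) < i.2 := Nat.cast_pos.2 (by omega)
      positivity)
    (fun i hi hc => by
      simp only [mem_product, mem_Icc] at hi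
      simp only [mul_ne_zero_iff, Complex.ofReal_ne_zero] at hc
      obtain ⟨a1, a2⟩ := om_mem hc.1.1
      obtain ⟨b1, b2⟩ := om_mem hc.1.2
      have c1 : 1 ≤ (i.2 : ℝ) / N := (one_le_div (by linarith)).2 (by exact_mod_cast hi.2.1)
      have c2 : (i.2 : ℝ) / N ≤ 2 := (div_le_iff₀ (by linarith)).2 (by exact_mod_cast hi.2.2)
      rw [show (i.1.1 : ℝ) * i.1.2 * i.2 / (y ^ 2 * N) = i.1.1 / y * (i.1.2 / y) * (i.2 / N) by
        field_simp]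
      constructor
      · exact one_le_mul_of_one_le_of_one_le (one_le_mul_of_one_le_of_one_le a1.le b1.le) c1
      · calc _ ≤ (5 / 3 : ℝ) * (5 / 3) * 2 := by gcongr
          _ ≤ 6 := by norm_num) hF
  have hc : Continuous fun t => ‖Zo y t ^ 2 * DP N α t‖ := by
    rw [show (fun t => ‖Zo y t ^ 2 * DP N α t‖) = _ from funext fun t => congrArg _ (hF t)]
    exact (continuous_finsetSum _ fun i _ => continuous_const.mul (continuous_pw _)).norm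
  have hB : ∀ t, ‖Zo y t ^ 2 * DP N α t‖ ≤ 8 * (y ^ 2 * N) := fun t => by
    rw [norm_mul, norm_pow]
    calc _ ≤ (2 * y) ^ 2 * (N + N) := by
          gcongr
          · exact normZo_Disc hy t
          · exact (norm_DP_le N α hα t).trans (by linarith)
      _ = _ := by ring
  have e : ∀ t, ‖Zo y t ^ 2 * DP N α t‖ ^ 2 = ‖Zo y t‖ ^ 4 * ‖DP N α t‖ ^ 2 := fun t => by
    rw [norm_mul, norm_pow]
    ring
  have h3 := abs_Disc hc (fun _ => norm_nonneg _) hB hT hrep h1 h2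
  have hc2 : Continuous fun t => ‖Zo y t‖ ^ 4 * ‖DP N α t‖ ^ 2 := by
    rw [← funext e]
    exact hc.pow 2
  simp only [e] at h3
  set R := T ^ ε * ((T + √T * (N : ℝ) ^ 2) * (y ^ 2 * N) * (1 + y ^ 2 / T) ^ 2) with hR
  have h4 : ∀ T', T / 2 ≤ T' → T' ≤ 2 * T →
      ∫ t in T'..(2 * T'), ‖Zo y t‖ ^ 4 * ‖DP N α t‖ ^ 2 ≤ K * (8 * 2 ^ ε) * R := fun T' a b => by
    refine (hI N T' y α (by linarith) hy (by linarith) hN (by linarith) hα).trans ?_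
    rw [mul_assoc K, mul_assoc K]
    exact mul_le_mul_of_nonneg_left (cmp_Disc N hT0 hε a b (z := y ^ 2 * N) (by positivity)) hK.le
  have h5 : ∫ t in (T / 2)..(4 * T), ‖Zo y t‖ ^ 4 * ‖DP N α t‖ ^ 2 ≤
      3 * (K * (8 * 2 ^ ε)) * R := by
    have a1 := h4 (T / 2) le_rfl (by linarith)
    have a2 := h4 T (by linarith) (by linarith)
    have a3 := h4 (2 * T) (by linarith) le_rfl
    rw [show 2 * (T / 2) = T by ring] at a1
    rw [show 2 * (2 * T) = 4 * T by ring] at a3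
    rw [← intervalIntegral.integral_add_adjacent_intervals (b := T) (hc2.intervalIntegrable _ _)
      (hc2.intervalIntegrable _ _), ← intervalIntegral.integral_add_adjacent_intervals
      (a := T) (b := 2 * T) (hc2.intervalIntegrable _ _) (hc2.intervalIntegrable _ _)]
    linarith
  have h6 : (8 * (y ^ 2 * N)) ^ 2 / T ^ 3 ≤ 64 * R := by
    have a1 : y ^ 2 * N ≤ T ^ 3 := by
      calc y ^ 2 * N ≤ T ^ 2 * T := by gcongr
        _ = _ := by ring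
    have a2 : y ^ 2 * N ≤ R := by
      calc y ^ 2 * N = 1 * (1 * (y ^ 2 * N) * 1) := by ring
        _ ≤ R := by
          rw [hR]
          gcongr
          · exact Real.one_le_rpow (by linarith) hε.le
          · exact le_add_of_le_of_nonneg (by linarith) (by positivity)
          · exact one_le_pow₀ (le_add_of_nonneg_right (by positivity))
    rw [div_le_iff₀ (by positivity)]
    calc (8 * (y ^ 2 * N)) ^ 2 = 64 * (y ^ 2 * N) * (y ^ 2 * N) := by ring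
      _ ≤ 64 * R * T ^ 3 := by gcongr
  refine h3.trans ?_
  rw [mul_assoc _ (T ^ ε), ← hR, mul_assoc (C ^ 2 * Real.pi)]
  refine mul_le_mul_of_nonneg_left ?_ (by positivity)
  have h7 := mul_le_mul_of_nonneg_left h6 (show 0 ≤ 160 * Real.pi by positivity)
  linarith

end Pool.Agent.MP_c853c5_nt.W

end

section

/-!
The dual packet is the sum of its pieces: bound for all vectors at large area.
-/

set_option autoImplicit false

open Finset MeasureTheory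
open scoped ENNReal ComplexConjugate

namespace Pool.Agent.MP_c853c5_nt.W

open Pool.Agent.MP_2a1f0e_nt Pool.Agent.MP_2a1f0e_nt.GM Pool.Agent.MP_2a1f0e_nt.DH

lemma prod_Dual {ι κ : Type} {f : ι → ℝ} {g : κ → ℝ} {A B : ℝ} (f0 : ∀ i, 0 ≤ f i)
    (g0 : ∀ i, 0 ≤ g i) (hf : Summable f ∧ ∑' i, f i ≤ A) (hg : Summable g ∧ ∑' i, g i ≤ B) :
    (Summable fun z : ι × κ => f z.1 * g z.2) ∧ ∑' z : ι × κ, f z.1 * g z.2 ≤ A * B := by
  have h := hf.1.mul_of_nonneg hg.1 f0 g0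
  refine ⟨h, ?_⟩
  rw [← hf.1.tsum_mul_tsum hg.1 h]
  exact mul_le_mul hf.2 hg.2 (tsum_nonneg g0) ((tsum_nonneg f0).trans hf.2)

lemma bool_Dual {a : ℕ → ℝ} {S : ℝ} (a0 : ∀ i, 0 ≤ a i) (h : Summable a ∧ ∑' i, a i ≤ S) :
    (Summable fun s : Bool × ℕ => a s.2) ∧ ∑' s : Bool × ℕ, a s.2 ≤ 2 * S := by
  have h1 := prod_Dual (f := fun _ : Bool => (1 : ℝ)) (A := 2) (fun _ => zero_le_one) a0
    ⟨(hasSum_fintype _).summable, by rw [tsum_fintype, Fintype.sum_bool]; norm_num⟩ h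
  simpa only [one_mul] using h1

lemma opt_Dual {ι : Type} {g : ι → ℝ} {B : ℝ} (h : Summable g ∧ ∑' i, g i ≤ B) :
    (Summable fun o : Option ι => o.elim 1 g) ∧ ∑' o : Option ι, o.elim 1 g ≤ 1 + B := by
  have h1 : HasSum (fun o : Option ι => o.elim 1 g) (∑' i, g i + 1) := by
    rw [← (Equiv.optionEquivSumPUnit.{0} ι).symm.hasSum_iff]
    exact HasSum.sum h.1.hasSum (hasSum_unique _)
  exact ⟨h1.summable, by rw [h1.tsum_eq]; linarith [h.2]⟩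

lemma core_Dual (hM : MinkSStmt) {ι : Type} [Countable ι] (μ : Measure MM) (J : Finset ℕ)
    (f : ℕ → Fld) (fs : ℕ → ι → Fld) {b : ι → ℝ} {B W : ℝ} (hW : 0 ≤ W)
    (hm : ∀ q s, MF (fs q s)) (hb : ∀ s, 0 < b s) (hs : Summable b ∧ ∑' s, b s ≤ B)
    (hH : ∀ q ∈ J, ∀ x w, HasSum (fun s => fs q s x w) (f q x w))
    (hU : ∀ s, ∑ q ∈ J, LF μ q (fs q s) ≤ ENNReal.ofReal (W * b s ^ 2)) :
    ∑ q ∈ J, LF μ q (f q) ≤ ENNReal.ofReal (B ^ 2 * W) := by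
  have hB : 0 ≤ B := (tsum_nonneg fun s => (hb s).le).trans hs.2
  calc ∑ q ∈ J, LF μ q (f q)
      ≤ ∑ q ∈ J, ENNReal.ofReal B * ∑' s, ENNReal.ofReal (1 / b s) * LF μ q (fs q s) :=
        sum_le_sum fun q hq => hM ι μ q (f q) (fs q) b B (hm q) hb hs.1 hs.2
          fun x w _ => hH q hq x w
    _ = ENNReal.ofReal B * ∑' s, ENNReal.ofReal (1 / b s) * ∑ q ∈ J, LF μ q (fs q s) := by
        rw [← mul_sum, ← Summable.tsum_finsetSum fun _ _ => ENNReal.summable]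
        simp only [mul_sum]
    _ ≤ ENNReal.ofReal B * ∑' s, ENNReal.ofReal (W * b s) := by
        refine mul_le_mul_right (ENNReal.tsum_le_tsum fun s =>
          (mul_le_mul_right (hU s) _).trans_eq ?_) _
        rw [← ENNReal.ofReal_mul (one_div_pos.2 (hb s)).le]
        congr 1
        have := (hb s).ne'
        field_simp
    _ ≤ ENNReal.ofReal (B ^ 2 * W) := by
        rw [← ENNReal.ofReal_tsum_of_nonneg (fun s => mul_nonneg hW (hb s).le) (hs.1.mul_left W),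
          ← ENNReal.ofReal_mul hB, tsum_mul_left]
        refine ENNReal.ofReal_le_ofReal ?_
        calc B * (W * ∑' s, b s) ≤ B * (W * B) :=
              mul_le_mul_of_nonneg_left (mul_le_mul_of_nonneg_left hs.2 hW) hB
          _ = B ^ 2 * W := by ring

lemma abs_Ts_Dual {c : ℝ} (hc : 0 < c) (s : Bool × ℕ) : |Ts c s| = c * (4 / 3) ^ s.2 := by
  have h : (0 : ℝ) < c * (4 / 3) ^ s.2 := by positivity
  unfold Ts
  split_ifs
  · rw [one_mul, abs_of_pos h]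
  · rw [neg_one_mul, abs_neg, abs_of_pos h]

lemma Ts_ne_Dual {c : ℝ} (hc : 0 < c) (s : Bool × ℕ) : Ts c s ≠ 0 := by
  rw [← abs_pos, abs_Ts_Dual hc]
  positivity

lemma pd_Dual (hT : TermStmt) (hP : PartStmt) (hF : PoisFStmt) (hM : MinkSStmt) (hS : ScStmt)
    {η : ℝ} (hA : APp η) : ∃ m : ℕ, 4 ≤ m ∧ ∀ ε : ℝ, 0 < ε → ∃ K : ℝ, 0 < K ∧
      ∀ μ : Measure MM, UM μ → ∀ (d : Dat) (Λ : ℝ) (Q : ℕ), d.ok Λ Q → 1 / 2 ≤ |d.H| →
        (Q : ℝ) ≤ 2 * d.PP → ∑ q ∈ Ico Q (2 * Q), LN μ q Prod.fst (pd d q) ≤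
          ENNReal.ofReal (K * Λ ^ ε * d.xi ^ m * (d.DD * Q + d.XX * (Q : ℝ) ^ η)) := by
  obtain ⟨m, hm⟩ := hA
  obtain ⟨K2, hK2, h2⟩ := hT
  refine ⟨max m 16, le_max_of_le_right (by norm_num), fun ε hε => ?_⟩
  obtain ⟨K1, hK1, h1⟩ := hm (ε / 5) (by positivity)
  obtain ⟨C, hC, h3⟩ := hS (ε / 5) (by positivity)
  refine ⟨(2 * C * (1 + 2 * C)) ^ 2 * (K1 + K2), by positivity, fun μ hμ d Λ Q hd hH hQ => ?_⟩
  have hΛ := hd.one_le
  have hQ1 : (1 : ℝ) ≤ Q := by exact_mod_cast hd.2.2.2.2.2.1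
  have hQΛ := hd.2.2.2.2.2.2
  have hHΛ := hd.2.2.2.2.1
  have hL : 1 ≤ Λ ^ (ε / 5) := Real.one_le_rpow hΛ (by positivity)
  have hL5 : Λ ^ ε = (Λ ^ (ε / 5)) ^ 5 := by
    rw [← Real.rpow_natCast, ← Real.rpow_mul (by linarith)]
    congr 1
    push_cast
    ring
  have hT0 : 0 < 1 / Λ ^ 16 := by positivity
  have hc1 : 1 ≤ 3 * Λ ^ 17 * (|d.H2| * (4 / 5) / Q) := by
    have k1 : (Q : ℝ) ≤ 2 * (|d.H2| * Λ) := hQ.trans (by
      unfold Dat.PP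
      gcongr)
    have k2 : Λ ≤ Λ ^ 17 := le_self_pow₀ hΛ (by norm_num)
    rw [← mul_div_assoc, le_div_iff₀ (by linarith)]
    nlinarith [mul_le_mul_of_nonneg_left k2 (abs_nonneg d.H2), abs_nonneg d.H2]
  have hc2 : 1 ≤ 3 * Λ ^ 17 * (|d.H| * (1 / Λ ^ 16) / Q) := by
    rw [show 3 * Λ ^ 17 * (|d.H| * (1 / Λ ^ 16) / Q) = 3 * Λ * |d.H| / Q by field_simp,
      le_div_iff₀ (by linarith)]
    nlinarith
  have s1 := h3 Λ _ hΛ hc1
  have s2 := h3 Λ _ hΛ hc2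
  have p1 : ∀ i : ℕ, 0 < 1 + |d.H2| * (4 / 5) / Q * (4 / 3) ^ i := fun i => by positivity
  have p2 : ∀ i : ℕ, 0 < 1 + |d.H| * (1 / Λ ^ 16) / Q * (4 / 3) ^ i := fun i => by positivity
  have q2 : ∀ o : Option (Bool × ℕ), (0 : ℝ) <
      o.elim 1 fun s => 1 / (1 + |d.H| * (1 / Λ ^ 16) / Q * (4 / 3) ^ s.2) := by
    rintro (_ | s)
    · exact one_pos
    · exact one_div_pos.2 (p2 _)
  have hs := prod_Dual (fun s : Bool × ℕ => (one_div_pos.2 (p1 s.2)).le) (fun o => (q2 o).le)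
    (bool_Dual (fun i => (one_div_pos.2 (p1 i)).le) s1)
    (opt_Dual (bool_Dual (fun i => (one_div_pos.2 (p2 i)).le) s2))
  have hD := d.DD_nonneg
  have hX := d.XX_nonneg
  have hx := d.one_le_xi
  have hZ : 0 ≤ d.DD * Q + d.XX * (Q : ℝ) ^ η := by positivity
  have hc := core_Dual hM μ (Ico Q (2 * Q)) (fun q => vf q Prod.fst (pd d q))
    (fun q (s : Ix) => vf q Prod.fst (pcs d q (1 / Λ ^ 16) s))
    (W := (K1 + K2) * Λ ^ (ε / 5) * d.xi ^ max m 16 * (d.DD * Q + d.XX * (Q : ℝ) ^ η))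
    (by positivity) ?_ (fun s => mul_pos (one_div_pos.2 (p1 s.1.2)) (q2 s.2)) hs ?_ ?_
  · refine hc.trans (ENNReal.ofReal_le_ofReal ?_)
    rw [hL5]
    generalize Λ ^ (ε / 5) = L at hL
    have k : 2 * (C * L) * (1 + 2 * (C * L)) ≤ 2 * C * (1 + 2 * C) * L ^ 2 := by
      nlinarith [mul_le_mul_of_nonneg_left hL (show 0 ≤ C * L by positivity)]
    calc _ ≤ (2 * C * (1 + 2 * C) * L ^ 2) ^ 2 *
          ((K1 + K2) * L * d.xi ^ max m 16 * (d.DD * Q + d.XX * (Q : ℝ) ^ η)) := by gcongr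
      _ = _ := by ring
  · rintro q ⟨s, _ | s'⟩
    · exact MF_vf q _ (measurable_tm hd.2.1.1 q _ _)
    · exact MF_vf q _ (measurable_pc hd.2.1.1 q _ _)
  · intro q hq x w
    exact hP d q _ x w hT0 (hF d q x (hd.2.2.2.2.2.1.trans (mem_Ico.1 hq).1) hd.1 hd.2.1).1
  · rintro ⟨s, _ | s'⟩
    · refine (h2 μ hμ d Λ Q _ hd hH hQ (Ts_ne_Dual (by norm_num) s)).trans
        (ENNReal.ofReal_le_ofReal ?_)
      rw [abs_Ts_Dual (by norm_num), show |d.H2| * (4 / 5 * (4 / 3) ^ s.2) / Q =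
        |d.H2| * (4 / 5) / Q * (4 / 3) ^ s.2 by ring]
      have k := p1 s.2
      simp only [Option.elim_none, mul_one]
      generalize 1 + |d.H2| * (4 / 5) / Q * (4 / 3) ^ s.2 = u at k
      calc _ = K2 * 1 * d.xi ^ 16 * (d.DD * Q) * (1 / u) ^ 2 := by ring
        _ ≤ _ := by
          gcongr
          · linarith
          · exact le_max_right _ _
          · exact le_add_of_nonneg_right (by positivity)
    · refine (h1 μ hμ d Λ Q _ _ hd hH hQ (Ts_ne_Dual (by norm_num) s) (Ts_ne_Dual hT0 s')).trans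
        (ENNReal.ofReal_le_ofReal ?_)
      rw [abs_Ts_Dual (by norm_num), abs_Ts_Dual hT0, show |d.H2| * (4 / 5 * (4 / 3) ^ s.2) / Q =
        |d.H2| * (4 / 5) / Q * (4 / 3) ^ s.2 by ring,
        show |d.H| * (1 / Λ ^ 16 * (4 / 3) ^ s'.2) / Q =
        |d.H| * (1 / Λ ^ 16) / Q * (4 / 3) ^ s'.2 by ring]
      have k := p1 s.2
      have k' := p2 s'.2
      simp only [Option.elim_some]
      generalize 1 + |d.H2| * (4 / 5) / Q * (4 / 3) ^ s.2 = u at k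
      generalize 1 + |d.H| * (1 / Λ ^ 16) / Q * (4 / 3) ^ s'.2 = v at k'
      calc _ = K1 * Λ ^ (ε / 5) * d.xi ^ m * (d.DD * Q + d.XX * (Q : ℝ) ^ η) *
            (1 / u * (1 / v)) ^ 2 := by ring
        _ ≤ _ := by
          gcongr
          · linarith
          · exact le_max_left _ _

theorem dual_stmt (hT : TermStmt) (hP : PartStmt) (hF : PoisFStmt) (hL : LineLStmt)
    (hM : MinkSStmt) (hS : ScStmt) : DualStmt := by
  intro η hη _ hA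
  obtain ⟨m, hm4, hm⟩ := pd_Dual hT hP hF hM hS hA
  refine ⟨m, fun ε hε => ?_⟩
  obtain ⟨K1, hK1, h1⟩ := hm ε hε
  obtain ⟨K2, hK2, h2⟩ := hL ε hε
  refine ⟨2 * K1 + 2 * K2, by positivity, fun μ hμ d Λ Q hd hQ => ?_⟩
  rcases lt_or_ge |d.H| (1 / 2) with hH | hH
  · rw [pa_eq_zero hd.2.1 (Or.inl hH)]
    simp only [LN_zero, sum_const_zero, zero_le]
  have hΛ := hd.one_le
  have hQ1 : (1 : ℝ) ≤ Q := by exact_mod_cast hd.2.2.2.2.2.1
  have hD := d.DD_nonneg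
  have hX := d.XX_nonneg
  have hx := d.one_le_xi
  have hL0 : 0 < Λ ^ ε := by positivity
  have hQη : 1 ≤ (Q : ℝ) ^ η := Real.one_le_rpow hQ1 hη.le
  calc ∑ q ∈ Ico Q (2 * Q), LN μ q Prod.fst (pa d)
      ≤ ∑ q ∈ Ico Q (2 * Q), (2 * LN μ q Prod.fst (pd d q) + 2 * LF μ q (lnF d q)) :=
        sum_le_sum fun q hq => LF_add_le μ q (MF_vf q _ (measurable_pd hd.2.1.1 q)) fun x =>
          (hF d q x (hd.2.2.2.2.2.1.trans (mem_Ico.1 hq).1) hd.1 hd.2.1).2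
    _ ≤ 2 * ENNReal.ofReal (K1 * Λ ^ ε * d.xi ^ m * (d.DD * Q + d.XX * (Q : ℝ) ^ η)) +
          2 * ENNReal.ofReal (K2 * Λ ^ ε * d.xi ^ 4 * (d.DD * |d.H2| + d.XX)) := by
        rw [sum_add_distrib, ← mul_sum, ← mul_sum]
        exact add_le_add (mul_le_mul_right (h1 μ hμ d Λ Q hd hH hQ) _)
          (mul_le_mul_right (h2 μ hμ d Λ Q hd hH) _)
    _ ≤ _ := by
        rw [← ENNReal.ofReal_ofNat 2, ← ENNReal.ofReal_mul zero_le_two,
          ← ENNReal.ofReal_mul zero_le_two, ← ENNReal.ofReal_add (by positivity) (by positivity)]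
        refine ENNReal.ofReal_le_ofReal ?_
        have a1 : K1 * Λ ^ ε * d.xi ^ m * (d.DD * Q + d.XX * (Q : ℝ) ^ η) ≤
            K1 * Λ ^ ε * d.xi ^ m * (d.DD * (Q + |d.H2|) + d.XX * (Q : ℝ) ^ η) := by
          gcongr
          exact le_add_of_nonneg_right (abs_nonneg _)
        have a2 : K2 * Λ ^ ε * d.xi ^ 4 * (d.DD * |d.H2| + d.XX * 1) ≤
            K2 * Λ ^ ε * d.xi ^ m * (d.DD * (Q + |d.H2|) + d.XX * (Q : ℝ) ^ η) := by
          gcongr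
          exact le_add_of_nonneg_left (by linarith)
        rw [mul_one] at a2
        linarith

end Pool.Agent.MP_c853c5_nt.W

end

section

set_option autoImplicit false

open Finset MeasureTheory
open scoped ENNReal ComplexConjugate

namespace Pool.Agent.MP_c853c5_nt.W

open Pool.Agent.MP_2a1f0e_nt Pool.Agent.MP_2a1f0e_nt.GM Pool.Agent.MP_2a1f0e_nt.DH

/-- the weight at the complementary level `c` -/
noncomputable def Gc_Fix (d : Dat) (Z : MM) (Q c : ℕ) (z : Pr × Pr) : ℂ :=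
  Fz d Z z * (Wt (|(nI z : ℝ)| / (c * Q)) : ℂ)

lemma pow_Fix {i : ℤ} (hi : i ∈ Icc (-1 : ℤ) 1) :
    0 < (4 / 3 : ℝ) ^ i ∧ (4 / 3 : ℝ) ^ i ≤ 4 / 3 := by
  refine ⟨by positivity, ?_⟩
  have := zpow_le_zpow_right₀ (a := (4 / 3 : ℝ)) (by norm_num) (Finset.mem_Icc.1 hi).2
  rwa [zpow_one] at this

lemma H2_Fix (H2 : ℝ) {i : ℤ} (hi : i ∈ Icc (-1 : ℤ) 1) :
    |H2 * (4 / 3) ^ i| ≤ 4 / 3 * |H2| := by
  obtain ⟨h1, h2⟩ := pow_Fix hi
  rw [abs_mul, abs_of_pos h1, mul_comm]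
  exact mul_le_mul_of_nonneg_right h2 (abs_nonneg _)

lemma pi_Fix {d : Dat} {Z : MM} {Q c : ℕ} (hα : 0 < d.al) (h1 : Cn d.al Z.1) (h2 : Cn d.al Z.2)
    (hb : BigZ d Z) (hω : dt Z ≠ 0) (hH2 : d.H2 ≠ 0) (k1 : 1 / 4 ≤ pi2 d Z Q c 3)
    (k2 : pi2 d Z Q c 3 ≤ 4) : ‖pi2 d Z Q c‖ ≤ 11 := by
  refine (pi_norm_le_iff_of_nonneg (by norm_num)).2 fun i => ?_
  rw [Real.norm_eq_abs]
  fin_cases i
  · show |d.H / (dt Z * d.H2)| ≤ 11
    rw [abs_div, abs_mul, div_le_iff₀ (mul_pos (abs_pos.2 hω) (abs_pos.2 hH2))]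
    have : 1000 * |d.H| ≤ |dt Z| * |d.H2| := hb
    linarith [abs_nonneg d.H]
  · show |sg (dt Z)| ≤ 11
    rw [abs_sg hω]
    norm_num
  · show |Z.2.1 / Z.1.1| ≤ 11
    have h0 : 0 < Z.1.1 := by linarith [h1.1]
    have h3 : 0 < Z.2.1 := by linarith [h2.1]
    rw [abs_of_pos (div_pos h3 h0), div_le_iff₀ h0]
    linarith [h1.1, h2.2.1]
  · exact abs_le.2 ⟨le_trans (by norm_num) k1, k2.trans (by norm_num)⟩

lemma one_Fix (hR : RtStmt) (hS : ShpStmt) (hM : MidStmt) (hC : ChStmt) (hI : Id2Stmt)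
    {μ : Measure MM} (hμ : UM μ) {d : Dat} {Z : MM} {Q c : ℕ} (hα : 0 < d.al)
    (h1 : Cn d.al Z.1) (h2 : Cn d.al Z.2) (hb : BigZ d Z) (hQ : 1 ≤ Q) (hc : 1 ≤ c)
    (hω : dt Z ≠ 0) (hH2 : d.H2 ≠ 0) (hH : d.H ≠ 0) {cc : (Fin 9 → ℝ) → ℂ}
    {W : (Fin 9 → ℝ) → ℝ} (hm : Measurable cc) (hi : Integrable cc) (hW : ∀ ζ, ‖cc ζ‖ ≤ W ζ)
    (hrep : ∀ y, (A2 (pi2 d Z Q c, y) : ℂ) * ex (d.x1 * f2 (pi2 d Z Q c, y)) =
      ∫ ζ, cc ζ * ex (∑ i, ζ i * y i)) :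
    (Summable fun z : Orb => ‖Gc_Fix d Z Q c z.1‖) ∧
    ENNReal.ofReal c0 * ‖∑' z : Orb, dl c (nI z.1) * Gc_Fix d Z Q c z.1‖ₑ ≤
      ∑ j ∈ Icc (-1 : ℤ) 1 ×ˢ Icc (-1 : ℤ) 1, ∫⁻ ζ, ENNReal.ofReal (1 / dt Z ^ 2 * W ζ) *
        (LN μ c Prod.fst (pk (ch1 (√|dt Z| / 2) √|dt Z| d.H2 d.x2 d.H j.1 ζ)) +
          LN (μ.map (rm (rot (sg (dt Z))))) c Prod.fst
            (pk (ch2 (√|dt Z| / 2) (|dt Z| / √|dt Z|) d.H2 d.x2 d.H j.2 ζ))) := by
  have hA : 0 < √|dt Z| := Real.sqrt_pos.2 (abs_pos.2 hω)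
  have hA2 : 0 < √|dt Z| / 2 := by linarith
  have hj : ∀ i ∈ Icc (-1 : ℤ) 1, 5 / 6 * |d.H2 * (4 / 3) ^ i| ≤ |2 * d.H2| := by
    intro i hi
    have := H2_Fix d.H2 hi
    rw [abs_mul 2, abs_two]
    linarith [abs_nonneg d.H2]
  obtain ⟨s1, s2⟩ := hM μ hμ (ℤ × ℤ) (Icc (-1 : ℤ) 1 ×ˢ Icc (-1 : ℤ) 1) 9 c Prod.fst Prod.fst
    (Sup (√|dt Z| / 2) (2 * d.H2) d.H)
    (fun P x => Sup (√|dt Z| / 2) (2 * d.H2) d.H P (rm (rot (sg (dt Z))) x))
    (fun j => k1 (√|dt Z| / 2) √|dt Z| d.H2 d.x2 d.H j.1)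
    (fun j => k2 (√|dt Z| / 2) √|dt Z| (dt Z) d.H2 d.x2 d.H j.2)
    (fun ζ => ((1 / dt Z ^ 2 : ℝ) : ℂ) * cc ζ) √|dt Z| 1 (Gc_Fix d Z Q c) hc
    ((hS μ hμ _ hA2).1 _ _) ((hS μ hμ _ hA2).2.1 _ _ _ (dt_rot hω)) hA one_pos
    (hm.const_mul _) (hi.const_mul _)
    (fun j hj' ζ => ⟨((hC.2.1 _ _ _ _ _ _ _ _ hω (hj _ (Finset.mem_product.1 hj').1)).1 ζ).1,
      ((hC.2.1 _ _ _ _ _ _ _ _ hω (hj _ (Finset.mem_product.1 hj').2)).1 ζ).2⟩)
    (fun j hj' P => ⟨((hC.2.1 _ _ _ _ _ _ _ _ hω (hj _ (Finset.mem_product.1 hj').1)).2 P).1,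
      ((hC.2.1 _ _ _ _ _ _ _ _ hω (hj _ (Finset.mem_product.1 hj').2)).2 P).2⟩)
    (fun z _ h => ((hI d Z Q c z hα h1 h2 hb hQ hc).1 h).2.2.2.1)
    (fun z _ x => by
      rw [Gc_Fix, (hI d Z Q c z hα h1 h2 hb hQ hc).2 hω hH2 hH x]
      refine Finset.sum_congr rfl fun j _ => ?_
      rw [hrep, ← integral_const_mul]
      refine integral_congr_ae (Filter.Eventually.of_forall fun ζ => ?_)
      simp only
      rw [← hC.2.2.2.1 _ _ _ _ _ _ _ _ _ _ _ _ ζ z x hω hA]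
      ring)
  refine ⟨s1, s2.trans (Finset.sum_le_sum fun j _ => lintegral_mono fun ζ => ?_)⟩
  rw [inv_one, ENNReal.ofReal_one, one_mul, one_mul]
  refine mul_le_mul' ?_ (add_le_add ?_ (le_of_eq ?_))
  · rw [← ofReal_norm, norm_mul, Complex.norm_real, Real.norm_of_nonneg (by positivity)]
    exact ENNReal.ofReal_le_ofReal (mul_le_mul_of_nonneg_left (hW ζ) (by positivity))
  · exact LN_mul_le μ c Prod.fst _ (a := fun x => ex (ζ 4 * dt x)) fun x => (norm_ex _).le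
  · rw [LN, LN, LF, LF, (hR μ _ hμ (dt_rot hω)).2]
    rfl

lemma num_Fix {d d' : Dat} {ω η : ℝ} {Q Q' : ℕ} (hη : 0 ≤ η) (hω : ω ≠ 0)
    (hal : d'.al ^ 2 = |ω| / 4) (hH2 : |d'.H2| ≤ 4 / 3 * |d.H2|) (hH : d'.H = d.H)
    (hQ : (Q' : ℝ) ≤ d.CC Q) :
    d'.DD * (Q' + |d'.H2|) + d'.XX * (Q' : ℝ) ^ η ≤
      ω ^ 2 * ((d.PP + d.H ^ 2) * (d.CC Q + |d.H2|) / |ω| + (d.H2 ^ 2 + d.PP) * d.CC Q ^ η) := by
  have h0 : 0 < |ω| := abs_pos.2 hω
  have hP : d'.PP ≤ 4 / 3 * d.PP := by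
    rw [Dat.PP, Dat.PP, hH, ← mul_assoc]
    exact mul_le_mul_of_nonneg_right hH2 (abs_nonneg _)
  have hP0 := d.PP_nonneg
  have hP1 := d'.PP_nonneg
  have hC0 := d.CC_nonneg Q
  have a0 := abs_nonneg d.H2
  have a1 := abs_nonneg d'.H2
  have hq : d'.H2 ^ 2 ≤ 16 / 9 * d.H2 ^ 2 := by
    rw [← sq_abs d'.H2, ← sq_abs d.H2]
    nlinarith
  have hD : d'.DD ≤ |ω| / 3 * (d.PP + d.H ^ 2) := by
    rw [Dat.DD, hal, hH]
    nlinarith [sq_nonneg d.H]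
  have hX : d'.XX ≤ ω ^ 2 * (d.H2 ^ 2 + d.PP) := by
    rw [Dat.XX, show d'.al ^ 4 = (d'.al ^ 2) ^ 2 by ring, hal, div_pow, sq_abs]
    nlinarith [sq_nonneg ω, sq_nonneg d.H2, mul_nonneg (sq_nonneg ω) hP0,
      mul_nonneg (sq_nonneg ω) (sq_nonneg d.H2),
      mul_le_mul_of_nonneg_left (add_le_add hq hP) (sq_nonneg ω)]
  have hr : (Q' : ℝ) ^ η ≤ d.CC Q ^ η := Real.rpow_le_rpow (Nat.cast_nonneg _) hQ hη
  have e : ω ^ 2 * ((d.PP + d.H ^ 2) * (d.CC Q + |d.H2|) / |ω|) =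
      |ω| / 3 * (d.PP + d.H ^ 2) * (3 * (d.CC Q + |d.H2|)) := by
    rw [← sq_abs ω]
    field_simp
  rw [mul_add (ω ^ 2), e, ← mul_assoc (ω ^ 2)]
  have := d'.DD_nonneg
  have := d'.XX_nonneg
  gcongr
  linarith

lemma xi_Fix (d : Dat) (ζ : Fin 9 → ℝ) {u v : ℝ} {i : ℤ} (hi : i ∈ Icc (-1 : ℤ) 1) (a b : Fin 9)
    (hu : |u| = |ζ a * (4 / 3) ^ i|) (hv : |v| ≤ |d.x2| + |ζ b|) :
    1 + |u| + |v| ≤ 4 * (d.xi * (1 + ‖ζ‖)) := by
  have h1 : |ζ a| ≤ ‖ζ‖ := norm_le_pi_norm ζ a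
  have h2 : |ζ b| ≤ ‖ζ‖ := norm_le_pi_norm ζ b
  have h3 := H2_Fix (ζ a) hi
  have h4 := norm_nonneg ζ
  have h5 := abs_nonneg d.x1
  have h6 := abs_nonneg d.x2
  rw [hu, Dat.xi]
  nlinarith [mul_nonneg h4 h5, mul_nonneg h4 h6]

end Pool.Agent.MP_c853c5_nt.W

end

section

set_option autoImplicit false

open Finset MeasureTheory
open scoped ENNReal ComplexConjugate

namespace Pool.Agent.MP_c853c5_nt.W

open Pool.Agent.MP_2a1f0e_nt Pool.Agent.MP_2a1f0e_nt.GM Pool.Agent.MP_2a1f0e_nt.DH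

lemma dt_Fix {α : ℝ} {Z : MM} (hα : 0 < α) (h1 : Cn α Z.1) (h2 : Cn α Z.2) :
    |dt Z| ≤ 32 * α ^ 2 := by
  have a1 : |Z.1.1| ≤ 4 * α := abs_le.2 ⟨by linarith [h1.1], h1.2.1⟩
  have a2 : |Z.2.1| ≤ 4 * α := abs_le.2 ⟨by linarith [h2.1], h2.2.1⟩
  have a3 : |Z.1.2| ≤ 4 * α := h1.2.2.trans h1.2.1
  have a4 : |Z.2.2| ≤ 4 * α := h2.2.2.trans h2.2.1
  have b1 : |Z.1.1 * Z.2.2| ≤ 4 * α * (4 * α) := by
    rw [abs_mul]
    gcongr
  have b2 : |Z.1.2 * Z.2.1| ≤ 4 * α * (4 * α) := by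
    rw [abs_mul]
    gcongr
  have := abs_sub (Z.1.1 * Z.2.2) (Z.1.2 * Z.2.1)
  unfold dt
  linarith

lemma child_Fix {η ε K : ℝ} {m : ℕ} (hη : 0 ≤ η) (hK : 0 < K) {μ : Measure MM}
    (h : ∀ (d : Dat) (Λ : ℝ) (Q : ℕ), d.ok Λ Q →
      ∑ q ∈ Icc 1 Q, LN μ q Prod.fst (pk d) ≤ ENNReal.ofReal (K * Λ ^ ε * d.xi ^ m *
        (d.DD * (Q + |d.H2|) + d.XX * (Q : ℝ) ^ η)))
    {d d' : Dat} {Λ ω X : ℝ} {Q Q' : ℕ} (hd : d.ok Λ Q) (hω : ω ≠ 0) (hω' : |ω| ≤ 32 * d.al ^ 2)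
    (hal : d'.al = √|ω| / 2) (hg : Adm d'.al d'.g) (hH2 : |d'.H2| ≤ 4 / 3 * |d.H2|)
    (hH : d'.H = d.H) (hQ1 : 1 ≤ Q') (hQ : (Q' : ℝ) ≤ d.CC Q) (hx : d'.xi ≤ X) :
    ∑ q ∈ Icc 1 Q', LN μ q Prod.fst (pk d') ≤ ENNReal.ofReal (K * (128 * Λ ^ 4) ^ ε * X ^ m *
      (ω ^ 2 * ((d.PP + d.H ^ 2) * (d.CC Q + |d.H2|) / |ω| +
        (d.H2 ^ 2 + d.PP) * d.CC Q ^ η))) := by
  have hΛ := hd.one_le
  obtain ⟨hα, -, k1, k2, k3, k4, -⟩ := hd
  have l1 : Λ ≤ Λ ^ 4 := le_self_pow₀ hΛ (by norm_num)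
  have hA : 0 < √|ω| := Real.sqrt_pos.2 (abs_pos.2 hω)
  have hA2 : √|ω| ≤ 6 * d.al := by
    rw [Real.sqrt_le_left (by positivity)]
    nlinarith [sq_nonneg d.al]
  have hC : d.CC Q ≤ 128 * Λ ^ 4 := by
    have q1 : (1 : ℝ) ≤ Q := by exact_mod_cast k4
    have q2 : d.H2 ^ 2 ≤ Λ ^ 2 := by
      rw [← sq_abs]
      gcongr
    calc d.CC Q ≤ 128 * d.al ^ 2 * d.H2 ^ 2 := div_le_self (by positivity) q1
      _ ≤ 128 * Λ ^ 2 * Λ ^ 2 := by gcongr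
      _ = _ := by ring
  have hok : d'.ok (128 * Λ ^ 4) Q' :=
    ⟨by rw [hal]; linarith, hg, by rw [hal]; linarith, by linarith, by rw [hH]; linarith, hQ1,
      hQ.trans hC⟩
  refine (h d' _ Q' hok).trans (ENNReal.ofReal_le_ofReal ?_)
  have hn := num_Fix (η := η) hη hω (d := d) (d' := d')
    (by rw [hal, div_pow, Real.sq_sqrt (abs_nonneg _)]; norm_num) hH2 hH hQ
  have := d'.DD_nonneg
  have := d'.XX_nonneg
  have := d'.one_le_xi
  have : 0 ≤ X := by linarith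
  gcongr

theorem fix_stmt (hU : UmStmt) (hR : RtStmt) (hS : ShpStmt) (hT : ThStmt) (hM : MidStmt)
    (hP : SepStmt) (hA : AmpStmt) (hW : WhStmt) (hC : ChStmt) (hI : Id2Stmt) : FixStmt := by
  classical
  intro η hη0 _ hAP
  obtain ⟨m0, hm0⟩ := hAP
  obtain ⟨μ, hμ⟩ := hU
  obtain ⟨C, hC0, hsep⟩ := hP 4 9 A2 f2 ex 11 hA.1 hA.2.1 hW.1
    (fun p hp => (hA.2.2.2.2 p hp).1) (m0 + 10)
  obtain ⟨B, hB0, hB⟩ := exists_intK 9
  have hc0 := hT.1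
  refine ⟨m0 + (m0 + 10), fun ε hε => ?_⟩
  obtain ⟨K, hK, hKb⟩ := hm0 (ε / 4) (by linarith)
  refine ⟨9 * (2 * C * K * 128 ^ (ε / 4) * 4 ^ m0 * B) / c0, by positivity,
    fun d Λ Q Cm Z hd h1 h2 hb => ?_⟩
  have hα := hd.1
  have hQ : 1 ≤ Q := hd.2.2.2.2.2.1
  have hΛ := hd.one_le
  set Gd := (Icc 1 Cm).filter fun c => ∃ z, Gc_Fix d Z Q c z ≠ 0 with hGd
  have e0 : ∀ z : Pr × Pr, swp Q Cm (nI z) * Fz d Z z =
      ∑ c ∈ Gd, dl c (nI z) * Gc_Fix d Z Q c z := by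
    intro z
    rw [hGd, Finset.sum_filter_of_ne, swp, Finset.sum_mul]
    · refine Finset.sum_congr rfl fun c _ => ?_
      rw [Gc_Fix]
      ring
    · exact fun c _ h => ⟨z, right_ne_zero_of_mul h⟩
  simp only [e0]
  rcases Gd.eq_empty_or_nonempty with hE | ⟨c1, hc1⟩
  · simp [hE]
  have hin : ∀ c ∈ Gd, 1 ≤ c ∧ 1 ≤ |dt Z| ∧ d.H2 ≠ 0 ∧ d.H ≠ 0 ∧ 1 / 4 ≤ pi2 d Z Q c 3 ∧
      pi2 d Z Q c 3 ≤ 4 := by
    intro c hc
    obtain ⟨k1, z, hz⟩ := Finset.mem_filter.1 hc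
    have k2 := (Finset.mem_Icc.1 k1).1
    obtain ⟨a1, a2, a3, -, a5, a6⟩ := (hI d Z Q c z hα h1 h2 hb hQ k2).1 hz
    exact ⟨k2, a1, a2, a3, a5, a6⟩
  obtain ⟨-, hω1, hH2, hH, -⟩ := hin c1 hc1
  have hω : dt Z ≠ 0 := abs_pos.1 (by linarith)
  have hω' := dt_Fix hα h1 h2
  have hQ0 : (0 : ℝ) < Q := by exact_mod_cast hQ
  set Q' : ℕ := ⌊4 * |dt Z| * d.H2 ^ 2 / Q⌋₊ with hQ'
  have hsub : Gd ⊆ Icc 1 Q' := by
    intro c hc
    obtain ⟨a0, -, -, -, a5, -⟩ := hin c hc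
    refine Finset.mem_Icc.2 ⟨a0, Nat.le_floor ?_⟩
    have c0' : (0 : ℝ) < c := by exact_mod_cast a0
    have a6 : 1 / 4 ≤ |dt Z| * d.H2 ^ 2 / (c * Q) := a5
    rw [le_div_iff₀ (by positivity)] at a6
    rw [le_div_iff₀ hQ0]
    linarith
  have hQ1 : 1 ≤ Q' := by
    have := Finset.mem_Icc.1 (hsub hc1)
    omega
  have hQC : (Q' : ℝ) ≤ d.CC Q := by
    refine (Nat.floor_le (by positivity)).trans (div_le_div_of_nonneg_right ?_ hQ0.le)
    nlinarith [sq_nonneg d.H2]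
  set R : ℝ := (d.PP + d.H ^ 2) * (d.CC Q + |d.H2|) / |dt Z| +
    (d.H2 ^ 2 + d.PP) * d.CC Q ^ η with hRdef
  have hR0 : 0 ≤ R := by
    have := d.PP_nonneg
    have := d.CC_nonneg Q
    positivity
  have hxi := d.one_le_xi
  set W : (Fin 9 → ℝ) → ℝ := fun ζ => C * (1 + |d.x1|) ^ (m0 + 10) / (1 + ‖ζ‖) ^ (m0 + 10)
    with hWdef
  have hone := fun c (hc : c ∈ Gd) => by
    obtain ⟨a0, -, -, -, a5, a6⟩ := hin c hc
    have hs := hsep (pi2 d Z Q c) d.x1 (pi_Fix hα h1 h2 hb hω hH2 a5 a6)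
    exact one_Fix hR hS hM hC hI hμ hα h1 h2 hb hQ a0 hω hH2 hH (W := W) hs.choose_spec.1
      hs.choose_spec.2.1 hs.choose_spec.2.2.1 hs.choose_spec.2.2.2
  have hμ' := (hR μ _ hμ (dt_rot hω)).1
  set T : ℝ := 2 * C * K * 128 ^ (ε / 4) * 4 ^ m0 * (Λ ^ ε * d.xi ^ (m0 + (m0 + 10)) * R)
    with hTdef
  have hT0 : 0 ≤ T := by positivity
  have key : ∀ j ∈ Icc (-1 : ℤ) 1 ×ˢ Icc (-1 : ℤ) 1,
      ∑ c ∈ Gd, ∫⁻ ζ, ENNReal.ofReal (1 / dt Z ^ 2 * W ζ) *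
        (LN μ c Prod.fst (pk (ch1 (√|dt Z| / 2) √|dt Z| d.H2 d.x2 d.H j.1 ζ)) +
          LN (μ.map (rm (rot (sg (dt Z))))) c Prod.fst
            (pk (ch2 (√|dt Z| / 2) (|dt Z| / √|dt Z|) d.H2 d.x2 d.H j.2 ζ))) ≤
      ENNReal.ofReal (T * B) := by
    intro j hj
    obtain ⟨j1, j2⟩ := Finset.mem_product.1 hj
    refine (sum_lintegral_le _ _ _).trans ?_
    rw [ENNReal.ofReal_mul hT0]
    refine le_trans ?_ (mul_le_mul' le_rfl hB)
    rw [← lintegral_const_mul' _ _ ENNReal.ofReal_ne_top]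
    refine lintegral_mono fun ζ => ?_
    rw [← Finset.mul_sum, Finset.sum_add_distrib]
    have b1 := child_Fix hη0.le hK (hKb μ hμ) hd hω hω'
      (d' := ch1 (√|dt Z| / 2) √|dt Z| d.H2 d.x2 d.H j.1 ζ) rfl (hC.1 _ _ _ _ _ _ _).1
      (H2_Fix _ j1) rfl hQ1 hQC (xi_Fix d ζ j1 5 7 rfl (abs_add_le _ _))
    have b2 := child_Fix hη0.le hK (hKb _ hμ') hd hω hω'
      (d' := ch2 (√|dt Z| / 2) (|dt Z| / √|dt Z|) d.H2 d.x2 d.H j.2 ζ) rfl (hC.1 _ _ _ _ _ _ _).2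
      (H2_Fix _ j2) rfl hQ1 hQC (xi_Fix d ζ j2 6 8 (abs_neg _) (abs_sub _ _))
    have b3 := add_le_add ((Finset.sum_le_sum_of_subset hsub).trans b1)
      ((Finset.sum_le_sum_of_subset hsub).trans b2)
    refine (mul_le_mul' le_rfl b3).trans ?_
    rw [← ENNReal.ofReal_add (by positivity) (by positivity),
      ← ENNReal.ofReal_mul (by positivity), ← ENNReal.ofReal_mul hT0]
    refine ENNReal.ofReal_le_ofReal ?_
    have n0 : 0 < 1 + ‖ζ‖ := by positivity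
    have r1 : (128 * Λ ^ 4) ^ (ε / 4) = 128 ^ (ε / 4) * Λ ^ ε := by
      rw [Real.mul_rpow (by norm_num) (by positivity), ← Real.rpow_natCast Λ 4,
        ← Real.rpow_mul (by linarith)]
      congr 2
      push_cast
      ring
    have r2 : (1 + |d.x1|) ^ (m0 + 10) ≤ d.xi ^ (m0 + 10) := by
      have : 1 + |d.x1| ≤ d.xi := le_add_of_nonneg_right (abs_nonneg _)
      gcongr
    rw [r1, ← hRdef]
    calc _ = 2 * C * K * 128 ^ (ε / 4) * 4 ^ m0 *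
          (Λ ^ ε * (d.xi ^ m0 * (1 + |d.x1|) ^ (m0 + 10)) * R) * (1 / (1 + ‖ζ‖) ^ (9 + 1)) := by
          simp only [hWdef, mul_pow, pow_add (1 + ‖ζ‖) m0 10]
          field_simp
          ring
      _ ≤ _ := by
          rw [hTdef, pow_add d.xi m0]
          gcongr
  have hsum : ∀ c ∈ Gd, Summable fun z : Orb => dl c (nI z.1) * Gc_Fix d Z Q c z.1 := by
    intro c hc
    refine Summable.of_norm_bounded (hone c hc).1 fun z => ?_
    rw [norm_mul]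
    exact mul_le_of_le_one_left (norm_nonneg _) (norm_dl_le (hin c hc).1 _)
  rw [Summable.tsum_finsetSum hsum, iE_pos hω1, one_mul]
  have fin : ENNReal.ofReal c0 * ‖∑ c ∈ Gd, ∑' z : Orb, dl c (nI z.1) * Gc_Fix d Z Q c z.1‖ₑ ≤
      ENNReal.ofReal (9 * (T * B)) := by
    refine (mul_le_mul' le_rfl (enorm_sum_le _ _)).trans ?_
    rw [Finset.mul_sum]
    refine (Finset.sum_le_sum fun c hc => (hone c hc).2).trans ?_
    rw [Finset.sum_comm]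
    refine (Finset.sum_le_sum key).trans (le_of_eq ?_)
    have e9 : (Icc (-1 : ℤ) 1 ×ˢ Icc (-1 : ℤ) 1).card = 9 := by decide
    rw [Finset.sum_const, ENNReal.ofReal_mul (p := 9) (by norm_num), nsmul_eq_mul, e9]
    norm_num
  have hne : ENNReal.ofReal c0 ≠ 0 := (ENNReal.ofReal_pos.2 hc0).ne'
  refine (ENNReal.mul_le_mul_iff_right hne ENNReal.ofReal_ne_top).1 (fin.trans (le_of_eq ?_))
  rw [← ENNReal.ofReal_mul hc0.le]
  congr 1
  rw [hTdef]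
  field_simp

end Pool.Agent.MP_c853c5_nt.W

end
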