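import Pool.Agent.MP_2a1f0e_nt.DH.Basic
import Pool.Agent.Mg.C853.G1ee557
import Pool.Agent.Mg.C853.G68ddeb
import Pool.Agent.Mg.C853.G428425
import Pool.Agent.Mg.C853.G3e49c7
import Pool.Agent.Mg.C853.G2a2cf1
import Pool.Agent.Mg.C853.Gbf849f
import Pool.Agent.MP_2a1f0e_nt.GM.Pt
import Pool.Agent.Mg.C853.Gfe9d6c
import Pool.Agent.Mg.C853.G50a3e6

section

set_option autoImplicit false
open Finset
namespace Pool.Agent.MP_2a1f0e_nt.DH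
open Pool.Agent.MP_2a1f0e_nt.GM

lemma rpow_SetA {L a n δ : ℝ} (k : ℕ) (hL : 0 ≤ L) (ha : 1 ≤ a) (hn : 0 ≤ n) (h0 : 0 ≤ δ)
    (h1 : δ ≤ 1) (h : L ≤ a * n ^ k) : L ^ δ ≤ a * (n ^ δ) ^ k := by
  refine (Real.rpow_le_rpow hL h h0).trans ?_
  rw [Real.mul_rpow (by linarith) (by positivity), ← Real.rpow_natCast, ← Real.rpow_natCast,
    ← Real.rpow_mul hn, ← Real.rpow_mul hn, mul_comm δ]
  refine mul_le_mul_of_nonneg_right ?_ (by positivity)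
  simpa using Real.rpow_le_rpow_of_exponent_le ha h1

theorem setA_stmt (hK : K1Stmt) (hM : MomStmt) (hB : KbJStmt) (hJ : JutStmt) : SetAStmt := by
  intro ε hε
  set δ := min ε 1 / 10 with hδ
  have hm0 : 0 < min ε 1 := lt_min hε one_pos
  have δ0 : 0 < δ := by positivity
  have δ1 : δ ≤ 1 := by linarith [min_le_right ε 1]
  obtain ⟨E, hE, hK⟩ := hK δ δ0
  obtain ⟨C₁, hC₁, hM⟩ := hM δ δ0
  obtain ⟨C₂, hC₂, hB⟩ := hB
  obtain ⟨C₃, hC₃, hJ⟩ := hJ δ δ0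
  obtain ⟨c, hc, hD⟩ := exists_DivB δ0
  have hs3 := Real.sqrt_nonneg C₃
  have hp1 : 0 ≤ C₁ * 625 ^ 2 := by positivity
  have hp2 : 0 ≤ 625 * C₂ * c * √C₃ := by positivity
  refine ⟨1 + E + C₁ * 625 ^ 2 + 625 * C₂ * c * √C₃, by linarith, fun N H hN hNH hH => ?_⟩
  have n1 : (1 : ℝ) ≤ N := by exact_mod_cast hN
  have nH : (N : ℝ) ≤ H := by exact_mod_cast hNH
  have H3 : (H : ℝ) ^ 3 ≤ (N : ℝ) ^ 4 := by exact_mod_cast hH
  have n0 : (0 : ℝ) < N := by linarith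
  have H0 : (0 : ℝ) < H := by linarith
  set y := (N : ℝ) ^ δ with hy
  have y1 : 1 ≤ y := Real.one_le_rpow n1 δ0.le
  have yN : y ≤ N := by simpa using Real.rpow_le_rpow_of_exponent_le n1 δ1
  have y10 : y ^ 10 ≤ (N : ℝ) ^ ε := by
    rw [hy, ← Real.rpow_natCast, ← Real.rpow_mul n0.le]
    refine Real.rpow_le_rpow_of_exponent_le n1 ?_
    push_cast
    linarith [min_le_left ε 1]
  have H2 : (H : ℝ) ≤ (N : ℝ) ^ 2 := by
    refine (pow_le_pow_iff_left₀ H0.le (by positivity) three_ne_zero).1 (H3.trans ?_)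
    rw [← pow_mul]
    exact pow_le_pow_right₀ n1 (by norm_num)
  set h := (H : ℝ) ^ (2 / 3 : ℝ) with hh
  have h1 : 1 ≤ h := Real.one_le_rpow (by linarith) (by norm_num)
  have h3 : h ^ 3 = (H : ℝ) ^ 2 := by
    rw [hh, ← Real.rpow_natCast, ← Real.rpow_mul H0.le, ← Real.rpow_natCast]
    norm_num
  have hN' : h ≤ N := by
    refine (pow_le_pow_iff_left₀ (by linarith) n0.le (n := 9) (by norm_num)).1 ?_
    calc h ^ 9 = ((H : ℝ) ^ 3) ^ 2 := by rw [show 9 = 3 * 3 from rfl, pow_mul, h3]; ring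
      _ ≤ ((N : ℝ) ^ 4) ^ 2 := pow_le_pow_left₀ (by positivity) H3 2
      _ ≤ (N : ℝ) ^ 9 := by
        rw [← pow_mul]
        exact pow_le_pow_right₀ n1 (by norm_num)
  set q := (H : ℝ) / N with hq
  have q1 : 1 ≤ q := (one_le_div n0).2 nH
  have q4 : q ^ 4 ≤ H := by
    rw [hq, div_pow, div_le_iff₀ (by positivity), pow_succ', mul_le_mul_iff_right₀ H0]
    exact H3
  have q2 : q ^ 2 ≤ h := by
    rw [hq, div_pow, div_le_iff₀ (by positivity), ← h3, pow_succ', mul_le_mul_iff_right₀ (by linarith)]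
    exact pow_le_pow_left₀ (by linarith) hN' 2
  have yq : 1 ≤ y * q := one_le_mul_of_one_le_of_one_le y1 q1
  obtain ⟨M, M1, M2⟩ : ∃ M : ℕ, 4 * (y * q) ≤ M ∧ (M : ℝ) ≤ 5 * (y * q) :=
    ⟨⌈4 * (y * q)⌉₊, Nat.le_ceil _, by linarith [Nat.ceil_lt_add_one (a := 4 * (y * q)) (by linarith)]⟩
  have Nε : 0 ≤ (N : ℝ) ^ ε := by positivity
  refine ⟨M, ?_, fun ξ => ?_, fun g hg => ?_⟩
  · refine (hK N M (2 * H) hN (by omega) ?_ ?_).trans
      (mul_le_mul_of_nonneg_right (by linarith) n0.le)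
    · have : H ≤ N ^ 2 := by exact_mod_cast H2
      omega
    · refine le_trans (le_of_eq ?_) (mul_le_mul_of_nonneg_left M1 n0.le)
      rw [hq]
      push_cast
      field_simp
      ring
  · have y4 : 1 ≤ y ^ 4 := one_le_pow₀ y1
    have hL : ((max (M ^ 4) (3 * H) : ℕ) : ℝ) ≤ 625 * y ^ 4 * H := by
      push_cast
      refine max_le ?_ (by nlinarith)
      calc (M : ℝ) ^ 4 ≤ (5 * (y * q)) ^ 4 := pow_le_pow_left₀ (by positivity) M2 4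
        _ = 625 * y ^ 4 * q ^ 4 := by ring
        _ ≤ _ := by gcongr
    have hL' : ((max (M ^ 4) (3 * H) : ℕ) : ℝ) ^ δ ≤ 625 * y ^ 6 := by
      refine rpow_SetA 6 (by positivity) (by norm_num) n0.le δ0.le δ1 (hL.trans ?_)
      calc 625 * y ^ 4 * H ≤ 625 * (N : ℝ) ^ 4 * (N : ℝ) ^ 2 := by gcongr
        _ = _ := by ring
    refine ((hM M (max (M ^ 4) (3 * H)) H ξ (by omega) (le_max_right _ _)).2
      (le_max_left _ _)).trans ?_
    calc _ ≤ C₁ * (625 * y ^ 6) * (625 * y ^ 4 * H) := by gcongr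
      _ = C₁ * 625 ^ 2 * y ^ 10 * H := by ring
      _ ≤ _ := by gcongr; linarith
  · set L := max (M ^ 2) ⌈2 * h⌉₊ with hLd
    have y2 : 1 ≤ y ^ 2 := one_le_pow₀ y1
    have L0 : 2 * h ≤ L := (Nat.le_ceil _).trans (by exact_mod_cast le_max_right _ _)
    have L1 : 1 ≤ L := by
      have : (1 : ℝ) ≤ L := by linarith
      exact_mod_cast this
    have hL : (L : ℝ) ≤ 25 * y ^ 2 * h := by
      rw [hLd]
      push_cast
      refine max_le ?_ ?_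
      · calc (M : ℝ) ^ 2 ≤ (5 * (y * q)) ^ 2 := pow_le_pow_left₀ (by positivity) M2 2
          _ = 25 * y ^ 2 * q ^ 2 := by ring
          _ ≤ _ := by gcongr
      · nlinarith [Nat.ceil_lt_add_one (a := 2 * h) (by linarith)]
    have hL' : (L : ℝ) ^ δ ≤ 25 * y ^ 3 := by
      refine rpow_SetA 3 (by positivity) (by norm_num) n0.le δ0.le δ1 (hL.trans ?_)
      calc 25 * y ^ 2 * h ≤ 25 * (N : ℝ) ^ 2 * N := by gcongr
        _ = _ := by ring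
    have hD3 : (2 * H) ^ 2 ≤ L ^ 3 := by
      have : (((2 * H) ^ 2 : ℕ) : ℝ) ≤ ((L ^ 3 : ℕ) : ℝ) := by
        push_cast
        refine le_trans ?_ (pow_le_pow_left₀ (by linarith) L0 3)
        rw [mul_pow, mul_pow, h3]
        nlinarith [sq_nonneg (H : ℝ)]
      exact_mod_cast this
    have hd : Diam (Icc (-(H : ℤ)) H) (2 * H) := by
      intro a ha b hb
      rw [mem_Icc] at ha hb
      rw [abs_le]
      push_cast
      omega
    have e1 := hB N M L _ (Icc (-(H : ℤ)) H) g hN (le_max_left _ _) (hD L L1) fun x _ => hg x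
    have e2 := hJ L (2 * H) (Icc (-(H : ℤ)) H) g L1 hD3 hd fun x _ => hg x
    set G₁ := ∑ d ∈ Icc (-(H : ℤ)) H, g d with hG₁
    set G₂ := ∑ d ∈ Icc (-(H : ℤ)) H, g d ^ 2 with hG₂
    have g1 : 0 ≤ G₁ := sum_nonneg fun x _ => hg x
    have g2 : 0 ≤ G₂ := sum_nonneg fun x _ => sq_nonneg _
    have hX : 0 ≤ h * G₂ + G₁ ^ 2 := by positivity
    have e3 : L * G₂ + G₁ ^ 2 ≤ 25 * y ^ 3 * (h * G₂ + G₁ ^ 2) := by
      have y3 : y ^ 2 ≤ y ^ 3 := pow_le_pow_right₀ y1 (by norm_num)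
      have a1 : (L : ℝ) * G₂ ≤ 25 * y ^ 3 * h * G₂ := by
        refine mul_le_mul_of_nonneg_right (hL.trans ?_) g2
        gcongr
      have a2 : 1 * G₁ ^ 2 ≤ 25 * y ^ 3 * G₁ ^ 2 :=
        mul_le_mul_of_nonneg_right (by linarith) (sq_nonneg _)
      linarith
    have e4 : √(EE (Icc (-(H : ℤ)) H) g (ZZ L)) ≤ 25 * y ^ 3 * (√C₃ * √(h * G₂ + G₁ ^ 2)) := by
      rw [← Real.sqrt_mul hC₃.le, ← Real.sqrt_sq (x := 25 * y ^ 3) (by positivity),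
        ← Real.sqrt_mul (by positivity)]
      refine Real.sqrt_le_sqrt (e2.trans ?_)
      calc _ ≤ C₃ * (25 * y ^ 3) * (25 * y ^ 3 * (h * G₂ + G₁ ^ 2)) := by gcongr
        _ = _ := by ring
    have y6 : y ^ 6 ≤ (N : ℝ) ^ ε := (pow_le_pow_right₀ y1 (by norm_num)).trans y10
    refine e1.trans ?_
    calc _ ≤ C₂ * N * (c * (25 * y ^ 3)) * G₁ * (25 * y ^ 3 * (√C₃ * √(h * G₂ + G₁ ^ 2))) := by
          gcongr
      _ = 625 * C₂ * c * √C₃ * y ^ 6 * N * G₁ * √(h * G₂ + G₁ ^ 2) := by ring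
      _ ≤ _ := by gcongr; linarith

end Pool.Agent.MP_2a1f0e_nt.DH

end

section

set_option autoImplicit false

open Finset

namespace Pool.Agent.MP_2a1f0e_nt.DH

open Pool.Agent.MP_2a1f0e_nt.GM

open scoped ComplexConjugate InnerProductSpace

lemma swap_Spec {α γ : Type} (W : Finset α) (J : Finset γ) (β : γ → α → ℂ) :
    ∑ t ∈ W, ∑ t' ∈ W, ‖∑ j ∈ J, conj (β j t) * β j t'‖ ^ 2 =
      ∑ j ∈ J, ∑ k ∈ J, ‖∑ t ∈ W, conj (β j t) * β k t‖ ^ 2 := by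
  apply Complex.ofReal_injective
  simp only [Complex.ofReal_sum, Complex.ofReal_pow, ← Complex.mul_conj', map_sum, map_mul,
    Complex.conj_conj, sum_mul_sum]
  calc _ = ∑ t ∈ W, ∑ j ∈ J, ∑ k ∈ J, ∑ t' ∈ W,
        conj (β j t) * β j t' * (β k t * conj (β k t')) := by
        refine sum_congr rfl fun t _ => ?_
        rw [sum_comm]
        exact sum_congr rfl fun j _ => sum_comm
    _ = _ := by
        rw [sum_comm]
        refine sum_congr rfl fun j _ => ?_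
        rw [sum_comm]
        exact sum_congr rfl fun k _ => sum_congr rfl fun t _ => sum_congr rfl fun t' _ => by ring

lemma diag_Spec {α : Type} (W : Finset α) (y : α → ℂ) :
    ∑ t ∈ W, conj (y t) * y t = ((∑ t ∈ W, ‖y t‖ ^ 2 : ℝ) : ℂ) := by
  simp only [Complex.conj_mul', Complex.ofReal_sum, Complex.ofReal_pow]

lemma cs_Spec {α : Type} (s : Finset α) (G K : α → α → ℂ) :
    (∑ d ∈ s, ∑ e ∈ s, G d e * K d e).re ≤
      √(∑ d ∈ s, ∑ e ∈ s, ‖G d e‖ ^ 2) * √(∑ d ∈ s, ∑ e ∈ s, ‖K d e‖ ^ 2) := by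
  simp only [← sum_product']
  refine ((Complex.re_le_norm _).trans (norm_sum_le _ _)).trans ?_
  simp only [norm_mul]
  exact Real.sum_mul_le_sqrt_mul_sqrt _ _ _

lemma core_Spec {α J : Type} [Fintype J] [DecidableEq J] (s : Finset α) (x : J → α → ℂ)
    (μ c : J → ℝ) (G : α → α → ℂ) {lam : ℝ} (hl : 0 ≤ lam) (hc : ∀ j, 0 ≤ c j)
    (hμ : ∀ j, 0 ≤ μ j)
    (hO : ∀ j k, ∑ d ∈ s, conj (x j d) * x k d = if j = k then (μ j : ℂ) else 0)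
    (hH : ∀ j, μ j ^ 2 - (∑ d ∈ s, ∑ e ∈ s, conj (x j d) * x j e * G d e).re ≤ lam * μ j) :
    ∑ j, μ j * c j ≤ lam * ∑ j, c j + √(∑ d ∈ s, ∑ e ∈ s, ‖G d e‖ ^ 2) * √(∑ j, c j ^ 2) := by
  have hw : ∀ j, 0 ≤ c j / μ j := fun j => div_nonneg (hc j) (hμ j)
  have h1 : ∀ j, μ j * c j ≤ lam * c j +
      c j / μ j * (∑ d ∈ s, ∑ e ∈ s, conj (x j d) * x j e * G d e).re := fun j => by
    rcases (hμ j).eq_or_lt with h | h
    · rw [← h, div_zero, zero_mul, zero_mul, add_zero]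
      exact mul_nonneg hl (hc j)
    · have h2 := mul_le_mul_of_nonneg_left (hH j) (hw j)
      have e1 : c j / μ j * μ j ^ 2 = μ j * c j := by field_simp
      have e2 : c j / μ j * (lam * μ j) = lam * c j := by field_simp
      rw [mul_sub, e1, e2] at h2
      linarith
  obtain ⟨β, hβ⟩ : ∃ β : J → α → ℂ, ∀ j d, β j d = (√(c j / μ j) : ℝ) * x j d :=
    ⟨_, fun _ _ => rfl⟩
  have e3 : ∀ j d e, conj (β j d) * β j e = (c j / μ j : ℝ) * (conj (x j d) * x j e) :=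
    fun j d e => by
      rw [hβ, hβ, map_mul, Complex.conj_ofReal, mul_mul_mul_comm, ← Complex.ofReal_mul,
        Real.mul_self_sqrt (hw j)]
  have h2 : ∑ j, c j / μ j * (∑ d ∈ s, ∑ e ∈ s, conj (x j d) * x j e * G d e).re =
      (∑ d ∈ s, ∑ e ∈ s, G d e * ∑ j, conj (β j d) * β j e).re := by
    simp only [← Complex.re_ofReal_mul, ← Complex.re_sum, e3, mul_sum]
    congr 1
    rw [sum_comm]
    refine sum_congr rfl fun d _ => ?_
    rw [sum_comm]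
    exact sum_congr rfl fun e _ => sum_congr rfl fun j _ => by ring
  have h3 : ∑ d ∈ s, ∑ e ∈ s, ‖∑ j, conj (β j d) * β j e‖ ^ 2 ≤ ∑ j, c j ^ 2 := by
    rw [swap_Spec]
    refine sum_le_sum fun j _ => ?_
    rw [sum_eq_single j (fun k _ hk => ?_) (fun h => (h (mem_univ j)).elim)]
    · simp only [e3, ← mul_sum, hO, if_true]
      rw [← Complex.ofReal_mul, Complex.norm_real, Real.norm_eq_abs, sq_abs]
      refine pow_le_pow_left₀ (mul_nonneg (hw j) (hμ j)) ?_ 2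
      rcases (hμ j).eq_or_lt with h | h
      · rw [← h, mul_zero]
        exact hc j
      · rw [div_mul_cancel₀ _ h.ne']
    · simp only [hβ, map_mul, mul_mul_mul_comm (conj _) (conj (x j _)), ← mul_sum, hO,
        if_neg hk.symm, mul_zero, norm_zero]
      norm_num
  refine (sum_le_sum fun j _ => h1 j).trans ?_
  rw [sum_add_distrib, ← mul_sum, h2]
  exact add_le_add_right ((cs_Spec s G _).trans
    (mul_le_mul_of_nonneg_left (Real.sqrt_le_sqrt h3) (Real.sqrt_nonneg _))) _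

lemma abs_Spec {E α γ : Type} [NormedAddCommGroup E] [InnerProductSpace ℂ E]
    [FiniteDimensional ℂ E] (s : Finset α) (W : Finset γ) (a : α → E) (b : γ → E)
    (G : α → α → ℂ) {lam : ℝ} (hl : 0 ≤ lam)
    (h : ∀ x : α → ℂ, ‖∑ d ∈ s, ∑ e ∈ s, conj (x d) * x e * (⟪a d, a e⟫_ℂ - G d e)‖ ≤
      lam * ∑ d ∈ s, ‖x d‖ ^ 2) :
    ∑ t ∈ W, ∑ d ∈ s, ‖⟪a d, b t⟫_ℂ‖ ^ 2 ≤ lam * ∑ t ∈ W, ‖b t‖ ^ 2 +
      √(∑ d ∈ s, ∑ e ∈ s, ‖G d e‖ ^ 2) * √(∑ t ∈ W, ∑ t' ∈ W, ‖⟪b t, b t'⟫_ℂ‖ ^ 2) := by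
  obtain ⟨M, hM⟩ : ∃ M : E →ₗ[ℂ] E, ∀ v, M v = ∑ d ∈ s, ⟪a d, v⟫_ℂ • a d :=
    ⟨∑ d ∈ s, (innerSL ℂ (a d)).toLinearMap.smulRight (a d), fun v => by
      simp [LinearMap.sum_apply]⟩
  have hin : ∀ u v, ⟪u, M v⟫_ℂ = ∑ d ∈ s, conj ⟪a d, u⟫_ℂ * ⟪a d, v⟫_ℂ := fun u v => by
    simp only [hM, inner_sum, inner_smul_right, inner_conj_symm, mul_comm]
  have hs : M.IsSymmetric := fun u v => by
    rw [← inner_conj_symm, hin, hin]
    simp only [map_sum, map_mul, Complex.conj_conj, mul_comm]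
  obtain ⟨n, e, μ, he⟩ : ∃ (n : ℕ) (e : OrthonormalBasis (Fin n) ℂ E) (μ : Fin n → ℝ),
      ∀ j, M (e j) = (μ j : ℂ) • e j :=
    ⟨_, hs.eigenvectorBasis rfl, hs.eigenvalues rfl, hs.apply_eigenvectorBasis rfl⟩
  have hO : ∀ j k, ∑ d ∈ s, conj ⟪a d, e j⟫_ℂ * ⟪a d, e k⟫_ℂ =
      if j = k then (μ j : ℂ) else 0 := fun j k => by
    rw [← hin, he, inner_smul_right, orthonormal_iff_ite.1 e.orthonormal]
    split_ifs with hjk
    · rw [hjk, mul_one]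
    · rw [mul_zero]
  have hμ : ∀ j, μ j = ∑ d ∈ s, ‖⟪a d, e j⟫_ℂ‖ ^ 2 := fun j => by
    apply Complex.ofReal_injective
    rw [← diag_Spec, hO, if_pos rfl]
  have hQ : ∀ j, ∑ d ∈ s, ∑ d' ∈ s, conj ⟪a d, e j⟫_ℂ * ⟪a d', e j⟫_ℂ * ⟪a d, a d'⟫_ℂ =
      ((μ j ^ 2 : ℝ) : ℂ) := fun j => by
    have h1 : ⟪M (e j), M (e j)⟫_ℂ = ((μ j ^ 2 : ℝ) : ℂ) := by
      rw [he, inner_smul_left, inner_smul_right, orthonormal_iff_ite.1 e.orthonormal,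
        if_pos rfl, Complex.conj_ofReal]
      push_cast
      ring
    rw [← h1, hM, sum_inner]
    simp only [inner_sum, inner_smul_left, inner_smul_right, mul_assoc, mul_left_comm]
  have hL : ∀ v, ∑ d ∈ s, ‖⟪a d, v⟫_ℂ‖ ^ 2 = ∑ j, μ j * ‖⟪e j, v⟫_ℂ‖ ^ 2 := fun v => by
    apply Complex.ofReal_injective
    rw [← diag_Spec, ← hin, ← e.sum_inner_mul_inner, Complex.ofReal_sum]
    refine sum_congr rfl fun j _ => ?_
    rw [← hs, he, inner_smul_left, Complex.conj_ofReal, ← inner_conj_symm v, mul_left_comm,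
      Complex.conj_mul']
    push_cast
    rfl
  have key := core_Spec s (fun j d => ⟪a d, e j⟫_ℂ) μ (fun j => ∑ t ∈ W, ‖⟪e j, b t⟫_ℂ‖ ^ 2) G hl
    (fun j => sum_nonneg fun _ _ => sq_nonneg _)
    (fun j => (hμ j).symm ▸ sum_nonneg fun _ _ => sq_nonneg _) hO fun j => by
      have h1 := (Complex.re_le_norm _).trans (h fun d => ⟪a d, e j⟫_ℂ)
      simp only [mul_sub, sum_sub_distrib, hQ, Complex.sub_re, Complex.ofReal_re] at h1
      rwa [← hμ] at h1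
  have e1 : ∑ t ∈ W, ∑ d ∈ s, ‖⟪a d, b t⟫_ℂ‖ ^ 2 = ∑ j, μ j * ∑ t ∈ W, ‖⟪e j, b t⟫_ℂ‖ ^ 2 := by
    simp only [hL, mul_sum]
    exact sum_comm
  have e2 : ∑ j, ∑ t ∈ W, ‖⟪e j, b t⟫_ℂ‖ ^ 2 = ∑ t ∈ W, ‖b t‖ ^ 2 := by
    rw [sum_comm]
    simp only [e.sum_sq_norm_inner_right]
  have e3 : ∑ j, (∑ t ∈ W, ‖⟪e j, b t⟫_ℂ‖ ^ 2) ^ 2 ≤ ∑ t ∈ W, ∑ t' ∈ W, ‖⟪b t, b t'⟫_ℂ‖ ^ 2 := by
    have h1 := swap_Spec W univ fun j t => ⟪e j, b t⟫_ℂ
    simp only [inner_conj_symm (b _) (e _), e.sum_inner_mul_inner] at h1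
    rw [h1]
    refine sum_le_sum fun j _ => le_trans (le_of_eq ?_)
      (single_le_sum (fun _ _ => sq_nonneg _) (mem_univ j))
    simp only [← inner_conj_symm (b _) (e _)]
    rw [diag_Spec, Complex.norm_real, Real.norm_eq_abs, sq_abs]
  rw [e1, ← e2]
  exact key.trans (add_le_add_right
    (mul_le_mul_of_nonneg_left (Real.sqrt_le_sqrt e3) (Real.sqrt_nonneg _)) _)

theorem spec_stmt : SpecStmt := by
  intro S s W A B G lam hl h
  obtain ⟨v, hv⟩ : ∃ v : (ℕ → ℤ → ℂ) → ℤ → EuclideanSpace ℂ S, ∀ U d n, v U d n = U n d :=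
    ⟨fun U d => WithLp.toLp 2 fun n => U n d, fun _ _ _ => rfl⟩
  have hi : ∀ U V d e, ⟪v U d, v V e⟫_ℂ = ∑ n ∈ S, conj (U n d) * V n e := fun U V d e => by
    rw [PiLp.inner_apply, ← sum_coe_sort S]
    exact sum_congr rfl fun n _ => by rw [RCLike.inner_apply, mul_comm, hv, hv]
  have hn : ∀ U d, ‖v U d‖ ^ 2 = ∑ n ∈ S, ‖U n d‖ ^ 2 := fun U d => by
    rw [EuclideanSpace.norm_sq_eq, ← sum_coe_sort S]
    simp only [hv]
  simpa only [hi, hn] using abs_Spec s W (v A) (v B) G hl (by simpa only [hi] using h)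

end Pool.Agent.MP_2a1f0e_nt.DH

end

section

set_option autoImplicit false

open Finset

namespace Pool.Agent.MP_2a1f0e_nt.DH

open Pool.Agent.MP_2a1f0e_nt.GM

lemma conj_mul_Bil (α β : ℂ) (x u v : ℝ) :
    (starRingEnd ℂ) (α * pw x u) * (β * pw x v) = (starRingEnd ℂ) α * β * pw x (v - u) := by
  rw [map_mul, pw_sub]
  ring

lemma sqrt_sq_Bil {a : ℝ} (ha : 0 ≤ a) : ((√a : ℝ) : ℂ) * ((√a : ℝ) : ℂ) = a := by
  rw [← Complex.ofReal_mul, Real.mul_self_sqrt ha]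

lemma row_Bil {H : ℕ} {f : ℝ → ℝ} (hf : ∀ u, 0 ≤ f u) {d : ℤ} (hd : d ∈ Icc (-(H : ℤ)) H) :
    ∑ e ∈ Icc (-(H : ℤ)) H, f ((e : ℝ) - d) ≤
      ∑ u ∈ Icc (-((2 * H : ℕ) : ℤ)) ((2 * H : ℕ) : ℤ), f (u : ℝ) := by
  have h1 : ∑ e ∈ Icc (-(H : ℤ)) H, f ((e : ℝ) - d) =
      ∑ u ∈ (Icc (-(H : ℤ)) H).image (fun e => e - d), f (u : ℝ) := by
    rw [sum_image fun a _ b _ h => by simpa using h]
    simp only [Int.cast_sub]
  rw [h1]
  refine sum_le_sum_of_subset_of_nonneg (fun u hu => ?_) fun _ _ _ => hf _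
  obtain ⟨e, he, rfl⟩ := mem_image.1 hu
  rw [mem_Icc] at he hd ⊢
  push_cast
  omega

theorem bil_stmt (hS : SpecStmt) (hP : PosStmt) : BilStmt := by
  intro N M H E Z b W g hN hb hg hE
  have hE0 : 0 ≤ E := (sum_nonneg fun _ _ => norm_nonneg _).trans hE
  have hZ0 : 0 ≤ Z := (hg 0).1.trans (hg 0).2
  have hN0 : (0 : ℝ) < N := by exact_mod_cast hN
  obtain ⟨bt, hbt⟩ : ∃ bt : ℕ → ℂ, bt = fun n => if n ∈ Icc N (2 * N) then b n else 0 := ⟨_, rfl⟩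
  have hsub : Icc N (2 * N) ⊆ Icc 1 (3 * N) := Icc_subset_Icc hN (by omega)
  have hW : ∀ n ∈ Icc N (2 * N), Wt ((n : ℝ) / N) = 1 := fun n hn => by
    rw [mem_Icc] at hn
    refine Wt_eq_one ((one_le_div hN0).2 (by exact_mod_cast hn.1)) ((div_le_iff₀ hN0).2 ?_)
    exact_mod_cast hn.2
  have hbt1 : ∀ n, ‖bt n‖ ^ 2 ≤ if n ∈ Icc N (2 * N) then 1 else 0 := fun n => by
    rw [hbt]
    dsimp only
    split_ifs
    · exact pow_le_one₀ (norm_nonneg _) (hb n)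
    · simp
  have h := hS (Icc 1 (3 * N)) (Icc (-(H : ℤ)) H) W
    (fun n d => ((√(Wt ((n : ℝ) / N)) : ℝ) : ℂ) * ((√(g d) : ℝ) : ℂ) * pw (n : ℝ) d)
    (fun n t => bt n * pw (n : ℝ) t)
    (fun d e => ((√(g d) : ℝ) : ℂ) * ((√(g e) : ℝ) : ℂ) * Kb N M ((e : ℝ) - d)) (E * Z)
    (mul_nonneg hE0 hZ0) (fun x => ?_)
  · refine le_trans (le_of_eq ?_) (h.trans (add_le_add ?_ (mul_le_mul (le_of_eq ?_) ?_
      (Real.sqrt_nonneg _) (Real.sqrt_nonneg _))))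
    · refine sum_congr rfl fun t _ => sum_congr rfl fun d _ => ?_
      have e : ∑ n ∈ Icc 1 (3 * N), (starRingEnd ℂ) (((√(Wt ((n : ℝ) / N)) : ℝ) : ℂ) *
          ((√(g d) : ℝ) : ℂ) * pw (n : ℝ) d) * (bt n * pw (n : ℝ) t) =
          ((√(g d) : ℝ) : ℂ) * DP N b ((t - d : ℤ) : ℝ) := by
        rw [DP, mul_sum, ← sum_subset hsub fun n _ hn => by simp only [hbt, if_neg hn, zero_mul, mul_zero]]
        refine sum_congr rfl fun n hn => ?_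
        rw [conj_mul_Bil, hW n hn, hbt]
        simp only [if_pos hn, Real.sqrt_one, Complex.ofReal_one, one_mul, Complex.conj_ofReal,
          Int.cast_sub, mul_assoc]
      rw [e, norm_mul, mul_pow, Complex.norm_real, Real.norm_eq_abs, sq_abs, Real.sq_sqrt (hg d).1]
    · have e : ∀ t ∈ W, ∑ n ∈ Icc 1 (3 * N), ‖bt n * pw (n : ℝ) t‖ ^ 2 ≤ 2 * N := fun t _ => by
        simp only [norm_mul, norm_pw, mul_one]
        refine (sum_le_sum fun n _ => hbt1 n).trans ?_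
        rw [sum_ite_mem, inter_eq_right.2 hsub, sum_const, Nat.card_Icc, nsmul_eq_mul, mul_one]
        exact_mod_cast (by omega : 2 * N + 1 - N ≤ 2 * N)
      have e2 := sum_le_card_nsmul _ _ _ e
      rw [nsmul_eq_mul] at e2
      exact (mul_le_mul_of_nonneg_left e2 (mul_nonneg hE0 hZ0)).trans_eq (by ring)
    · congr 1
      refine sum_congr rfl fun d _ => sum_congr rfl fun e _ => ?_
      rw [norm_mul, norm_mul, mul_pow, mul_pow, Complex.norm_real, Complex.norm_real,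
        Real.norm_eq_abs, Real.norm_eq_abs, sq_abs, sq_abs, Real.sq_sqrt (hg d).1,
        Real.sq_sqrt (hg e).1, norm_Kb_sub]
    · refine Real.sqrt_le_sqrt (le_trans (le_of_eq ?_) (hP (3 * N) (3 * N)
        (fun n => (starRingEnd ℂ) (bt n) * bt n) (fun n => Wt ((n : ℝ) / N)) W (fun _ => 1) le_rfl
        (fun n _ => ?_) fun n _ => Wt_nonneg _))
      · rw [EE, sum_comm]
        refine sum_congr rfl fun t _ => sum_congr rfl fun t' _ => ?_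
        simp only [conj_mul_Bil, one_mul, PP]
      · rw [norm_mul, Complex.norm_conj, ← sq]
        refine (hbt1 n).trans ?_
        split_ifs with hn
        · exact (hW n hn).ge
        · exact Wt_nonneg _
  · have e : ∀ d e : ℤ, ∑ n ∈ Icc 1 (3 * N), (starRingEnd ℂ) (((√(Wt ((n : ℝ) / N)) : ℝ) : ℂ) *
          ((√(g d) : ℝ) : ℂ) * pw (n : ℝ) d) * (((√(Wt ((n : ℝ) / N)) : ℝ) : ℂ) *
          ((√(g e) : ℝ) : ℂ) * pw (n : ℝ) e) =
          ((√(g d) : ℝ) : ℂ) * ((√(g e) : ℝ) : ℂ) * KK N ((e : ℝ) - d) := fun d e => by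
      rw [KK, mul_sum]
      refine sum_congr rfl fun n _ => ?_
      rw [conj_mul_Bil, map_mul, Complex.conj_ofReal, Complex.conj_ofReal]
      linear_combination (((√(g d) : ℝ) : ℂ) * ((√(g e) : ℝ) : ℂ) * pw (n : ℝ) ((e : ℝ) - d)) *
        sqrt_sq_Bil (Wt_nonneg ((n : ℝ) / N))
    have h1 := schur (Icc (-(H : ℤ)) H) (fun d => ‖x d‖ * √(g d))
      (fun d e => ‖KK N ((e : ℝ) - d) - Kb N M ((e : ℝ) - d)‖) (fun _ _ _ _ => norm_nonneg _)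
      (fun d _ e _ => norm_K1_sub N M _ _) E fun d hd =>
        (row_Bil (f := fun u => ‖KK N u - Kb N M u‖) (fun _ => norm_nonneg _) hd).trans hE
    refine (norm_sum_le _ _).trans ((sum_le_sum fun d _ => (norm_sum_le _ _).trans
      (le_of_eq (sum_congr rfl fun e' _ => ?_))).trans (h1.trans ?_))
    · rw [e, ← mul_sub]
      simp only [norm_mul, Complex.norm_conj, Complex.norm_real,
        Real.norm_of_nonneg (Real.sqrt_nonneg _)]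
      ring
    · rw [mul_assoc, Finset.mul_sum _ _ Z]
      refine mul_le_mul_of_nonneg_left (sum_le_sum fun d _ => ?_) hE0
      rw [mul_pow, Real.sq_sqrt (hg d).1, mul_comm]
      exact mul_le_mul_of_nonneg_right (hg d).2 (sq_nonneg _)

end Pool.Agent.MP_2a1f0e_nt.DH

end

section

set_option autoImplicit false
open Finset
namespace Pool.Agent.MP_2a1f0e_nt.DH
open Pool.Agent.MP_2a1f0e_nt.GM

lemma block_Pr {N : ℕ} (hN : 1 ≤ N) {b : ℕ → ℂ} (hb : ∀ n, ‖b n‖ ≤ 1) {V : ℝ} (hV : 0 ≤ V)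
    (F : Finset ℤ) (hF : ∀ t ∈ F, V ≤ ‖DP N b t‖) :
    (F.card : ℝ) ^ 2 * V ^ 2 ≤ 2 * N * ∑ s ∈ F, ∑ t ∈ F, ‖KK N ((s : ℝ) - t)‖ := by
  choose ψ hψ1 hψ2 using fun t : ℤ =>
    Complex.exists_norm_eq_mul_self ((starRingEnd ℂ) (DP N b t))
  obtain ⟨c, hc⟩ : ∃ c : ℕ → ℂ, ∀ n, c n = ∑ t ∈ F, ψ t * (starRingEnd ℂ) (pw (n : ℝ) t) :=
    ⟨_, fun _ => rfl⟩
  have hq := quad_Hux N F ψ
  simp only [← hc] at hq
  have hN' : (1 : ℝ) ≤ N := by exact_mod_cast hN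
  have e1 : ((∑ t ∈ F, ‖DP N b t‖ : ℝ) : ℂ) =
      ∑ n ∈ Icc N (2 * N), (starRingEnd ℂ) (b n) * c n := by
    push_cast
    simp only [hc, mul_sum]
    rw [sum_comm]
    refine sum_congr rfl fun t _ => ?_
    rw [← Complex.norm_conj, hψ2 t, DP, map_sum, mul_sum]
    refine sum_congr rfl fun n _ => ?_
    rw [map_mul]
    ring
  have h0 : 0 ≤ ∑ t ∈ F, ‖DP N b t‖ := sum_nonneg fun _ _ => norm_nonneg _
  have e2 : ∑ t ∈ F, ‖DP N b t‖ ≤ ∑ n ∈ Icc N (2 * N), ‖c n‖ := by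
    rw [← abs_of_nonneg h0, ← Real.norm_eq_abs, ← Complex.norm_real, e1]
    refine (norm_sum_le _ _).trans (sum_le_sum fun n _ => ?_)
    rw [norm_mul, Complex.norm_conj]
    exact mul_le_of_le_one_left (norm_nonneg _) (hb n)
  have e3 : (∑ n ∈ Icc N (2 * N), ‖c n‖) ^ 2 ≤ (N + 1) * ∑ n ∈ Icc N (2 * N), ‖c n‖ ^ 2 := by
    have := sq_sum_le_card_mul_sum_sq (s := Icc N (2 * N)) (f := fun n => ‖c n‖)
    rw [Nat.card_Icc, show 2 * N + 1 - N = N + 1 by omega] at this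
    exact_mod_cast this
  have e4 : ∑ n ∈ Icc N (2 * N), ‖c n‖ ^ 2
      ≤ ∑ n ∈ Icc 1 (3 * N), Wt ((n : ℝ) / N) * ‖c n‖ ^ 2 := by
    refine le_trans (le_of_eq (sum_congr rfl fun n hn => ?_))
      (sum_le_sum_of_subset_of_nonneg (Icc_subset_Icc hN (by omega : 2 * N ≤ 3 * N))
        fun n _ _ => mul_nonneg (Wt_nonneg _) (sq_nonneg _))
    obtain ⟨h1, h2⟩ := mem_Icc.1 hn
    rw [Wt_eq_one, one_mul]
    · rw [le_div_iff₀ (by linarith), one_mul]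
      exact_mod_cast h1
    · rw [div_le_iff₀ (by linarith)]
      exact_mod_cast h2
  have e5 : 0 ≤ ∑ n ∈ Icc N (2 * N), ‖c n‖ ^ 2 := sum_nonneg fun _ _ => sq_nonneg _
  have e6 : ∑ n ∈ Icc 1 (3 * N), Wt ((n : ℝ) / N) * ‖c n‖ ^ 2 ≤
      ∑ s ∈ F, ∑ t ∈ F, ‖KK N ((s : ℝ) - t)‖ := by
    refine (le_abs_self _).trans ?_
    rw [← Real.norm_eq_abs, ← Complex.norm_real, ← hq]
    refine (norm_sum_le _ _).trans (sum_le_sum fun s _ => ?_)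
    refine (norm_sum_le _ _).trans (sum_le_sum fun t _ => le_of_eq ?_)
    rw [norm_mul, norm_mul, Complex.norm_conj, hψ1, hψ1, one_mul, mul_one]
  have e7 : (F.card : ℝ) * V ≤ ∑ t ∈ F, ‖DP N b t‖ := by
    have := card_nsmul_le_sum F (fun t : ℤ => ‖DP N b t‖) V hF
    rwa [nsmul_eq_mul] at this
  calc _ = ((F.card : ℝ) * V) ^ 2 := by ring
    _ ≤ (∑ n ∈ Icc N (2 * N), ‖c n‖) ^ 2 := pow_le_pow_left₀ (by positivity) (e7.trans e2) 2
    _ ≤ (N + 1) * ∑ n ∈ Icc N (2 * N), ‖c n‖ ^ 2 := e3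
    _ ≤ _ := mul_le_mul (by linarith) (e4.trans e6) e5 (by linarith)

lemma fib_Pr (W K : Finset ℤ) (q : ℤ → ℤ) (hq : ∀ t ∈ W, q t ∈ K) (f : ℤ × ℤ → ℝ) :
    ∑ p ∈ (W ×ˢ W).filter (fun p => q p.1 = q p.2), f p =
      ∑ k ∈ K, ∑ s ∈ W.filter (fun t => q t = k), ∑ t ∈ W.filter (fun t => q t = k), f (s, t) := by
  rw [← sum_fiberwise_of_maps_to (s := (W ×ˢ W).filter (fun p => q p.1 = q p.2)) (t := K)
    (g := fun p => q p.1) (fun p hp => hq _ (mem_product.1 (mem_filter.1 hp).1).1)]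
  refine sum_congr rfl fun k _ => ?_
  rw [← sum_product']
  refine sum_congr ?_ fun _ _ => rfl
  ext p
  simp only [mem_filter, mem_product]
  constructor
  · rintro ⟨⟨⟨h1, h2⟩, h3⟩, h4⟩
    exact ⟨⟨h1, h4⟩, h2, h3 ▸ h4⟩
  · rintro ⟨⟨h1, h4⟩, h2, h3⟩
    exact ⟨⟨⟨h1, h2⟩, h4.trans h3.symm⟩, h4⟩

theorem pr_stmt : PrStmt := by
  intro N T H b V W hN hH hb hV hW hWV
  have hH' : (0 : ℤ) < H := by exact_mod_cast hH
  have hq : ∀ t ∈ W, t / (H : ℤ) ∈ Icc (0 : ℤ) ((T : ℤ) / H) := fun t ht => by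
    obtain ⟨h1, h2⟩ := mem_Icc.1 (hW ht)
    exact mem_Icc.2 ⟨Int.ediv_nonneg h1 hH'.le, Int.ediv_le_ediv hH' h2⟩
  have hcard : (((W ×ˢ W).filter (fun p => p.1 / (H : ℤ) = p.2 / (H : ℤ))).card : ℝ) =
      ∑ k ∈ Icc (0 : ℤ) ((T : ℤ) / H), ((W.filter (fun t => t / (H : ℤ) = k)).card : ℝ) ^ 2 := by
    have := fib_Pr W _ (fun t => t / (H : ℤ)) hq fun _ => 1
    simp only [sum_const, nsmul_eq_mul, mul_one] at this
    rw [this]
    exact sum_congr rfl fun k _ => by ring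
  refine ⟨(W ×ˢ W).filter (fun p => p.1 / (H : ℤ) = p.2 / (H : ℤ)), fun p hp => ?_, ?_, ?_⟩
  · obtain ⟨h1, h2⟩ := mem_filter.1 hp
    obtain ⟨h3, h4⟩ := mem_product.1 h1
    refine ⟨h3, h4, ?_⟩
    have a1 := Int.mul_ediv_add_emod p.1 (H : ℤ)
    have a2 := Int.mul_ediv_add_emod p.2 (H : ℤ)
    have a3 := Int.emod_nonneg p.1 hH'.ne'
    have a4 := Int.emod_nonneg p.2 hH'.ne'
    have a5 := Int.emod_lt_of_pos p.1 hH'
    have a6 := Int.emod_lt_of_pos p.2 hH'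
    rw [h2] at a1
    rw [abs_le]
    constructor <;> linarith
  · rw [hcard]
    have h1 : (W.card : ℝ) =
        ∑ k ∈ Icc (0 : ℤ) ((T : ℤ) / H), ((W.filter (fun t => t / (H : ℤ) = k)).card : ℝ) := by
      exact_mod_cast card_eq_sum_card_fiberwise (f := fun t => t / (H : ℤ)) hq
    rw [h1]
    refine (sq_sum_le_card_mul_sum_sq).trans
      (mul_le_mul_of_nonneg_right ?_ (sum_nonneg fun _ _ => sq_nonneg _))
    have h2 : (Icc (0 : ℤ) ((T : ℤ) / H)).card = T / H + 1 := by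
      rw [Int.card_Icc, ← Int.natCast_ediv]
      generalize T / H = m
      omega
    rw [h2]
    push_cast
    have := Nat.cast_div_le (α := ℝ) (m := T) (n := H)
    linarith
  · rw [hcard, fib_Pr W _ (fun t => t / (H : ℤ)) hq fun p => ‖KK N ((p.1 : ℝ) - p.2)‖,
      sum_mul, mul_sum]
    exact sum_le_sum fun k _ => block_Pr hN hb hV _ fun t ht => hWV t (mem_filter.1 ht).1

end Pool.Agent.MP_2a1f0e_nt.DH

end

section

set_option autoImplicit false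

open Finset

namespace Pool.Agent.MP_2a1f0e_nt.DH

open Pool.Agent.MP_2a1f0e_nt.GM

lemma inj_Lev (H : ℕ) (W : Finset ℤ) (P : Finset (ℤ × ℤ))
    (hP : ∀ p ∈ P, p.1 ∈ W ∧ p.2 ∈ W ∧ |p.1 - p.2| ≤ (H : ℤ)) (k : ℤ → ℤ → ℝ)
    (hk : ∀ t d, 0 ≤ k t d) :
    ∑ p ∈ P, k p.1 (p.1 - p.2) ≤ ∑ t ∈ W, ∑ d ∈ Icc (-(H : ℤ)) H, k t d := by
  rw [← Finset.sum_product']
  have hinj : Set.InjOn (fun p : ℤ × ℤ => (p.1, p.1 - p.2)) (P : Set (ℤ × ℤ)) := by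
    intro p _ q _ h
    simp only [Prod.mk.injEq] at h
    apply Prod.ext h.1
    omega
  have h1 : ∑ p ∈ P, k p.1 (p.1 - p.2) =
      ∑ q ∈ P.image (fun p : ℤ × ℤ => (p.1, p.1 - p.2)), k q.1 q.2 := by
    rw [Finset.sum_image hinj]
  rw [h1]
  apply Finset.sum_le_sum_of_subset_of_nonneg
  · intro q hq
    obtain ⟨p, hp, rfl⟩ := Finset.mem_image.1 hq
    obtain ⟨h1, _, h3⟩ := hP p hp
    rw [abs_le] at h3
    simp only [Finset.mem_product, Finset.mem_Icc]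
    exact ⟨h1, h3.1, h3.2⟩
  · intro q _ _
    exact hk _ _

lemma pow7_Lev (x Z : ℝ) (hZ : 0 < Z) (h : Z ≤ x) : x ≤ x ^ 8 / Z ^ 7 := by
  rw [le_div_iff₀ (by positivity)]
  have h0 : 0 ≤ x := le_trans hZ.le h
  have : Z ^ 7 ≤ x ^ 7 := pow_le_pow_left₀ hZ.le h 7
  calc x * Z ^ 7 ≤ x * x ^ 7 := mul_le_mul_of_nonneg_left this h0
    _ = x ^ 8 := by ring

lemma pow6_Lev (x Z : ℝ) (hZ : 0 < Z) (h : Z ≤ x) : x ^ 2 ≤ x ^ 8 / Z ^ 6 := by
  rw [le_div_iff₀ (by positivity)]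
  have : Z ^ 6 ≤ x ^ 6 := pow_le_pow_left₀ hZ.le h 6
  calc x ^ 2 * Z ^ 6 ≤ x ^ 2 * x ^ 6 := mul_le_mul_of_nonneg_left this (by positivity)
    _ = x ^ 8 := by ring

theorem lev_stmt : LevStmt := by
  classical
  intro H z D W P V Z₁ Z₂ Y hz hV hZ₁ hZ₂ hY hP hD
  set g : ℤ → ℝ := fun d => if Z₁ ≤ z d ∧ z d < Z₂ then z d else 0 with hg
  set h : ℤ → ℝ := fun d => if Z₂ ≤ z d then z d else 0 with hh
  have hg0 : ∀ d, 0 ≤ g d := by
    intro d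
    simp only [hg]
    split_ifs
    · exact hz d
    · exact le_rfl
  have hh0 : ∀ d, 0 ≤ h d := by
    intro d
    simp only [hh]
    split_ifs
    · exact hz d
    · exact le_rfl
  have hz8 : ∀ d, 0 ≤ z d ^ 8 := fun d => pow_nonneg (hz d) 8
  refine ⟨g, ?_, ?_, ?_, ?_⟩
  · intro d
    refine ⟨hg0 d, ?_⟩
    simp only [hg]
    split_ifs with c
    · exact c.2.le
    · exact hZ₂.le
  · calc ∑ d ∈ Icc (-(H : ℤ)) H, g d ≤ ∑ d ∈ Icc (-(H : ℤ)) H, z d ^ 8 / Z₁ ^ 7 := by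
          apply Finset.sum_le_sum
          intro d _
          simp only [hg]
          split_ifs with c
          · exact pow7_Lev _ _ hZ₁ c.1
          · exact div_nonneg (hz8 d) (by positivity)
      _ = (∑ d ∈ Icc (-(H : ℤ)) H, z d ^ 8) / Z₁ ^ 7 := by rw [Finset.sum_div]
      _ ≤ Y / Z₁ ^ 7 := div_le_div_of_nonneg_right hY (by positivity)
  · calc ∑ d ∈ Icc (-(H : ℤ)) H, g d ^ 2 ≤ ∑ d ∈ Icc (-(H : ℤ)) H, z d ^ 8 / Z₁ ^ 6 := by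
          apply Finset.sum_le_sum
          intro d _
          simp only [hg]
          split_ifs with c
          · exact pow6_Lev _ _ hZ₁ c.1
          · have := div_nonneg (hz8 d) (show (0 : ℝ) ≤ Z₁ ^ 6 by positivity)
            simpa using this
      _ = (∑ d ∈ Icc (-(H : ℤ)) H, z d ^ 8) / Z₁ ^ 6 := by rw [Finset.sum_div]
      _ ≤ Y / Z₁ ^ 6 := div_le_div_of_nonneg_right hY (by positivity)
  · have hsplit : ∀ d, z d ≤ Z₁ + h d + g d := by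
      intro d
      have a1 := hg0 d
      have a2 := hh0 d
      by_cases c2 : Z₂ ≤ z d
      · have : h d = z d := by simp only [hh, if_pos c2]
        linarith
      · by_cases c1 : Z₁ ≤ z d
        · have : g d = z d := by simp only [hg, if_pos (And.intro c1 (not_le.1 c2))]
          linarith
        · linarith [not_le.1 c1]
    have hH : ∑ d ∈ Icc (-(H : ℤ)) H, h d ≤ Y / Z₂ ^ 7 := by
      calc ∑ d ∈ Icc (-(H : ℤ)) H, h d ≤ ∑ d ∈ Icc (-(H : ℤ)) H, z d ^ 8 / Z₂ ^ 7 := by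
            apply Finset.sum_le_sum
            intro d _
            simp only [hh]
            split_ifs with c
            · exact pow7_Lev _ _ hZ₂ c
            · exact div_nonneg (hz8 d) (by positivity)
        _ = (∑ d ∈ Icc (-(H : ℤ)) H, z d ^ 8) / Z₂ ^ 7 := by rw [Finset.sum_div]
        _ ≤ Y / Z₂ ^ 7 := div_le_div_of_nonneg_right hY (by positivity)
    have e1 : ∑ p ∈ P, h (p.1 - p.2) ≤ W.card * Y / Z₂ ^ 7 := by
      calc ∑ p ∈ P, h (p.1 - p.2) ≤ ∑ t ∈ W, ∑ d ∈ Icc (-(H : ℤ)) H, h d :=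
            inj_Lev H W P hP (fun _ d => h d) (fun _ d => hh0 d)
        _ ≤ ∑ t ∈ W, Y / Z₂ ^ 7 := Finset.sum_le_sum fun _ _ => hH
        _ = W.card * Y / Z₂ ^ 7 := by
            rw [Finset.sum_const, nsmul_eq_mul, mul_div_assoc]
    have e2 : ∑ p ∈ P, g (p.1 - p.2) ≤
        (∑ t ∈ W, ∑ d ∈ Icc (-(H : ℤ)) H, g d * D (t - d) ^ 2) / V ^ 2 := by
      rw [le_div_iff₀ (by positivity), Finset.sum_mul]
      calc ∑ p ∈ P, g (p.1 - p.2) * V ^ 2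
          ≤ ∑ p ∈ P, g (p.1 - p.2) * D (p.1 - (p.1 - p.2)) ^ 2 := by
            apply Finset.sum_le_sum
            intro p hp
            apply mul_le_mul_of_nonneg_left _ (hg0 _)
            rw [sub_sub_cancel]
            exact pow_le_pow_left₀ hV.le (hD _ (hP p hp).2.1) 2
        _ ≤ ∑ t ∈ W, ∑ d ∈ Icc (-(H : ℤ)) H, g d * D (t - d) ^ 2 :=
            inj_Lev H W P hP (fun t d => g d * D (t - d) ^ 2)
              (fun t d => mul_nonneg (hg0 d) (sq_nonneg _))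
    calc ∑ p ∈ P, z (p.1 - p.2) ≤ ∑ p ∈ P, (Z₁ + h (p.1 - p.2) + g (p.1 - p.2)) :=
          Finset.sum_le_sum fun p _ => hsplit _
      _ = P.card * Z₁ + ∑ p ∈ P, h (p.1 - p.2) + ∑ p ∈ P, g (p.1 - p.2) := by
          rw [Finset.sum_add_distrib, Finset.sum_add_distrib, Finset.sum_const, nsmul_eq_mul]
      _ ≤ _ := by linarith

end Pool.Agent.MP_2a1f0e_nt.DH

end

section

set_option autoImplicit false

open Finset

namespace Pool.Agent.MP_2a1f0e_nt.DH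

open Pool.Agent.MP_2a1f0e_nt.GM

lemma off_Master {G₁ G₂ h Z c : ℝ} (h1 : 0 ≤ G₁) (hh : 0 < h) (hZ : 0 < Z) (hc : 1 ≤ c)
    (e1 : G₁ ≤ c * (h ^ 12 / Z ^ 7)) (e2 : G₂ ≤ c * (h ^ 12 / Z ^ 6)) :
    G₁ * √(h ^ 8 * G₂ + G₁ ^ 2) ≤ (c * (h ^ 12 / Z ^ 7 + h ^ 11 / Z ^ 5)) ^ 2 := by
  have hr : 0 ≤ c * (h ^ 10 / Z ^ 3) := by positivity
  have h2 : h ^ 8 * G₂ ≤ (c * (h ^ 10 / Z ^ 3)) ^ 2 := by
    calc h ^ 8 * G₂ ≤ h ^ 8 * (c * (h ^ 12 / Z ^ 6)) := by gcongr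
      _ = c * (h ^ 10 / Z ^ 3) ^ 2 := by field_simp
      _ ≤ c ^ 2 * (h ^ 10 / Z ^ 3) ^ 2 := by
          gcongr
          nlinarith
      _ = _ := by ring
  have h3 : √(h ^ 8 * G₂ + G₁ ^ 2) ≤ c * (h ^ 10 / Z ^ 3) + G₁ := by
    refine Real.sqrt_le_iff.2 ⟨by positivity, ?_⟩
    nlinarith [mul_nonneg hr h1]
  have hp : 0 ≤ c * (h ^ 12 / Z ^ 7) := by positivity
  have hq : 0 ≤ c * (h ^ 11 / Z ^ 5) := by positivity
  calc G₁ * √(h ^ 8 * G₂ + G₁ ^ 2)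
      ≤ c * (h ^ 12 / Z ^ 7) * (c * (h ^ 10 / Z ^ 3) + c * (h ^ 12 / Z ^ 7)) :=
        mul_le_mul e1 (h3.trans (by linarith)) (Real.sqrt_nonneg _) hp
    _ = (c * (h ^ 11 / Z ^ 5)) ^ 2 + (c * (h ^ 12 / Z ^ 7)) ^ 2 := by field_simp
    _ ≤ _ := by nlinarith [mul_nonneg hp hq]

lemma pairs_Master {H : ℕ} {W : Finset ℤ} {P : Finset (ℤ × ℤ)}
    (hP : ∀ p ∈ P, p.1 ∈ W ∧ p.2 ∈ W ∧ |p.1 - p.2| ≤ (H : ℤ)) (k : ℤ → ℝ) (hk : ∀ d, 0 ≤ k d) :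
    ∑ p ∈ P, k (p.1 - p.2) ≤
      W.card * ∑ u ∈ Icc (-((2 * H : ℕ) : ℤ)) ((2 * H : ℕ) : ℤ), k u := by
  have inj : Set.InjOn (fun p : ℤ × ℤ => (p.1, p.1 - p.2)) P := fun p _ q _ h => by
    simp only [Prod.mk.injEq] at h
    exact Prod.ext h.1 (by omega)
  have e := sum_image (s := P) (g := fun p : ℤ × ℤ => (p.1, p.1 - p.2)) (f := fun q => k q.2) inj
  rw [← e]
  calc _ ≤ ∑ q ∈ W ×ˢ Icc (-((2 * H : ℕ) : ℤ)) ((2 * H : ℕ) : ℤ), k q.2 := by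
        refine sum_le_sum_of_subset_of_nonneg (fun q hq => ?_) fun q _ _ => hk _
        obtain ⟨p, hp, rfl⟩ := mem_image.1 hq
        obtain ⟨a1, -, a3⟩ := hP p hp
        rw [abs_le] at a3
        refine mem_product.2 ⟨a1, mem_Icc.2 ⟨?_, ?_⟩⟩ <;> push_cast <;> omega
    _ = _ := by
        rw [sum_product]
        simp only [sum_const, nsmul_eq_mul]

theorem master_stmt (hA : SetAStmt) (hB : SetBStmt) (hV : AvgStmt) (hQ : BilStmt)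
    (hP : PrStmt) (hL : LevStmt) : MasterStmt := by
  intro ε hε
  obtain ⟨CA, hCA, hA⟩ := hA (ε / 3) (by positivity)
  obtain ⟨CB, hCB, hB⟩ := hB (ε / 3) (by positivity)
  obtain ⟨CV, hCV, hV⟩ := hV
  obtain ⟨κ, hκ⟩ : ∃ κ : ℝ, κ = 4 * CV + 1 := ⟨_, rfl⟩
  have hκ1 : 1 ≤ κ := by linarith
  have hκ7 : 1 ≤ κ ^ 7 := one_le_pow₀ hκ1
  refine ⟨(4 + 8 * CV) * (CA ^ 2 * CB * κ ^ 7), one_le_mul_of_one_le_of_one_le (by linarith)
    (one_le_mul_of_one_le_of_one_le (one_le_mul_of_one_le_of_one_le (one_le_pow₀ hCA) hCB) hκ7),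
    fun N H T hN hNH hH hT b hb V Z hV0 hZ W hW hlow => ?_⟩
  have hN1 : (1 : ℝ) ≤ N := by exact_mod_cast hN
  have hN0 : (0 : ℝ) < N := by linarith
  have hH1 : 1 ≤ H := hN.trans hNH
  have hH0 : (0 : ℝ) < H := by exact_mod_cast hH1
  obtain ⟨M, k1, k2, k3⟩ := hA N H hN hNH hH
  have k4 := hB N T hN hT W hW
  obtain ⟨P, p1, p2, p3⟩ := hP N T H b V W hN hH1 hb hV0.le hW hlow
  obtain ⟨y, hy⟩ : ∃ y : ℝ, y = (N : ℝ) ^ (ε / 3) := ⟨_, rfl⟩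
  have hy1 : 1 ≤ y := hy ▸ Real.one_le_rpow hN1 (by positivity)
  have hy3 : (N : ℝ) ^ ε = y ^ 3 := by
    rw [hy, ← Real.rpow_mul_natCast hN0.le]
    congr 1
    push_cast
    ring
  rw [← hy] at k2 k3 k4
  obtain ⟨n, hn⟩ : ∃ n : ℝ, n = √N := ⟨_, rfl⟩
  have hn0 : 0 < n := hn ▸ Real.sqrt_pos.2 hN0
  have hn2 : (N : ℝ) = n ^ 2 := by rw [hn, Real.sq_sqrt hN0.le]
  have hnk : ∀ (k : ℕ) (r : ℝ), r = k / 2 → (N : ℝ) ^ r = n ^ k := fun k r hr => by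
    rw [hn, Real.sqrt_eq_rpow, ← Real.rpow_mul_natCast hN0.le, hr]
    congr 1
    ring
  obtain ⟨h, hh⟩ : ∃ h : ℝ, h = (H : ℝ) ^ (1 / 12 : ℝ) := ⟨_, rfl⟩
  have hh0 : 0 < h := hh ▸ Real.rpow_pos_of_pos hH0 _
  have hhk : ∀ (k : ℕ) (r : ℝ), r = k / 12 → (H : ℝ) ^ r = h ^ k := fun k r hr => by
    rw [hh, ← Real.rpow_mul_natCast hH0.le, hr]
    congr 1
    ring
  have h12 : (H : ℝ) = h ^ 12 := by rw [← hhk 12 1 (by norm_num), Real.rpow_one]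
  rw [hhk 8 (2 / 3) (by norm_num)] at k3
  unfold RHS
  rw [hnk 7 (7 / 2) (by norm_num), hnk 3 (3 / 2) (by norm_num), hnk 5 (5 / 2) (by norm_num),
    hhk 11 (11 / 12) (by norm_num), hy3]
  obtain ⟨Z₀, hZ₀⟩ : ∃ Z₀ : ℝ, Z₀ = V ^ 2 / n ^ 3 := ⟨_, rfl⟩
  have hZ₀0 : 0 < Z₀ := by rw [hZ₀]; positivity
  rw [← hZ₀]
  obtain ⟨R, hR⟩ : ∃ R : ℝ, R = W.card := ⟨_, rfl⟩
  have hR0 : 0 ≤ R := hR ▸ Nat.cast_nonneg _
  obtain ⟨Pc, hPc⟩ : ∃ Pc : ℝ, Pc = P.card := ⟨_, rfl⟩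
  have hPc0 : 0 ≤ Pc := hPc ▸ Nat.cast_nonneg _
  obtain ⟨a, ha⟩ : ∃ a : ℝ, a = CA * y := ⟨_, rfl⟩
  have ha1 : 1 ≤ a := ha ▸ one_le_mul_of_one_le_of_one_le hCA hy1
  have haC : CA ≤ a := ha ▸ le_mul_of_one_le_right (by linarith) hy1
  obtain ⟨β, hβ⟩ : ∃ β : ℝ, β = CB * y := ⟨_, rfl⟩
  have hβ1 : 1 ≤ β := hβ ▸ one_le_mul_of_one_le_of_one_le hCB hy1
  obtain ⟨c, hc⟩ : ∃ c : ℝ, c = a * κ ^ 7 := ⟨_, rfl⟩
  have hc1 : 1 ≤ c := hc ▸ one_le_mul_of_one_le_of_one_le ha1 hκ7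
  obtain ⟨Y, hY⟩ : ∃ Y : ℝ, Y = h ^ 12 / Z₀ ^ 7 + h ^ 11 / Z₀ ^ 5 := ⟨_, rfl⟩
  have hY0 : 0 ≤ Y := by rw [hY]; positivity
  rw [← ha] at k2 k3
  rw [← hβ, ← hR] at k4
  rw [← hR, ← hPc] at p2
  rw [← hPc] at p3
  rw [← hR]
  have q1 : √(EE W (fun _ => 1) (KK N)) ≤ β * (n ^ 2 * √R + R * n) := by
    refine Real.sqrt_le_iff.2 ⟨by positivity, k4.trans ?_⟩
    have e : (β * (n ^ 2 * √R + R * n)) ^ 2 =
        β ^ 2 * (R * (n ^ 2) ^ 2 + R ^ 2 * n ^ 2 + 2 * n ^ 3 * R * √R) := by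
      have := Real.sq_sqrt hR0
      linear_combination β ^ 2 * n ^ 4 * this
    rw [e, hn2]
    have : 0 ≤ 2 * n ^ 3 * R * √R := by positivity
    exact mul_le_mul (by nlinarith) (by linarith) (by positivity) (by positivity)
  have q2 : ∀ ξ : ℝ, ∑ p ∈ P, (1 : ℝ) * ‖ZZ M ((p.1 : ℝ) - p.2 + ξ)‖ ≤
      Pc * (Z₀ / κ) + R * (a * H) / Z ^ 7 +
        (2 * (a * N) * Z * N * R + a * n * (c * Y) * (β * (n ^ 2 * √R + R * n))) / V ^ 2 := by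
    intro ξ
    obtain ⟨g, g1, g2, g3, g4⟩ := hL H (fun d => ‖ZZ M ((d : ℝ) + ξ)‖) (fun t => ‖DP N b t‖) W P
      V (Z₀ / κ) Z (a * H) (fun _ => norm_nonneg _) hV0 (by positivity) hZ (k2 ξ) p1 hlow
    have g5 := hQ N M H (a * N) Z b W g hN hb g1 (k1.trans (by gcongr))
    rw [← hR, ← hPc] at g4
    rw [← hR] at g5
    have g6 := off_Master (G₁ := ∑ d ∈ Icc (-(H : ℤ)) H, g d)
      (G₂ := ∑ d ∈ Icc (-(H : ℤ)) H, g d ^ 2) (sum_nonneg fun d _ => (g1 d).1) hh0 hZ₀0 hc1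
      (g2.trans (le_of_eq (by rw [hc, h12]; field_simp)))
      (g3.trans (by
        have e : a * H / (Z₀ / κ) ^ 6 = a * κ ^ 6 * (h ^ 12 / Z₀ ^ 6) := by
          rw [h12]
          field_simp
        rw [e, hc]
        gcongr
        norm_num))
    rw [← hY] at g6
    have g7 : √(EE (Icc (-(H : ℤ)) H) g (Kb N M)) ≤ a * n * (c * Y) := by
      refine Real.sqrt_le_iff.2 ⟨by positivity, (k3 g fun d => (g1 d).1).trans ?_⟩
      rw [mul_assoc (a * N), mul_pow, mul_pow a n, hn2]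
      exact mul_le_mul (mul_le_mul_of_nonneg_right (by nlinarith) (by positivity)) g6
        (mul_nonneg (sum_nonneg fun d _ => (g1 d).1) (Real.sqrt_nonneg _)) (by positivity)
    have g8 := mul_le_mul g7 q1 (Real.sqrt_nonneg _) (by positivity)
    simp only [one_mul]
    simp only [Int.cast_sub] at g4 g5
    refine g4.trans ?_
    gcongr
    linarith
  have q3 := hV N M hN (ℤ × ℤ) P (fun _ => 1) (fun p => (p.1 : ℝ) - p.2) _
    (fun _ _ => zero_le_one) q2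
  simp only [one_mul] at q3
  rw [← hn] at q3
  have q4 := pairs_Master p1 (fun u => ‖KK N (u : ℝ) - Kb N M (u : ℝ)‖) fun _ => norm_nonneg _
  simp only [Int.cast_sub] at q4
  rw [← hR] at q4
  have q5 : ∑ p ∈ P, ‖KK N ((p.1 : ℝ) - p.2)‖ ≤
      ∑ p ∈ P, ‖KK N ((p.1 : ℝ) - p.2) - Kb N M ((p.1 : ℝ) - p.2)‖ +
        ∑ p ∈ P, ‖Kb N M ((p.1 : ℝ) - p.2)‖ := by
    rw [← sum_add_distrib]
    exact sum_le_sum fun p _ => norm_le_norm_sub_add _ _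
  have q6 : R * ∑ u ∈ Icc (-((2 * H : ℕ) : ℤ)) ((2 * H : ℕ) : ℤ),
      ‖KK N (u : ℝ) - Kb N M (u : ℝ)‖ ≤ R * (a * N) :=
    mul_le_mul_of_nonneg_left (k1.trans (by gcongr)) hR0
  have q7 := p3.trans (mul_le_mul_of_nonneg_left (q5.trans (add_le_add (q4.trans q6) q3))
    (by positivity))
  have q8 : 2 * N * (CV * n * (Pc * (Z₀ / κ))) ≤ Pc * V ^ 2 / 2 := by
    have e : 2 * N * (CV * n * (Pc * (Z₀ / κ))) = Pc * V ^ 2 * (2 * CV / κ) := by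
      rw [hn2, hZ₀]
      field_simp
    rw [e, div_eq_mul_one_div (Pc * V ^ 2)]
    refine mul_le_mul_of_nonneg_left ?_ (by positivity)
    rw [div_le_div_iff₀ (by positivity) (by norm_num)]
    linarith
  obtain ⟨t1, ht1⟩ : ∃ t : ℝ, t = (N : ℝ) ^ 2 * R := ⟨_, rfl⟩
  obtain ⟨t2, ht2⟩ : ∃ t : ℝ, t = n ^ 7 * R * Z / V ^ 2 := ⟨_, rfl⟩
  obtain ⟨t3, ht3⟩ : ∃ t : ℝ, t = n ^ 3 * R * H / Z ^ 7 := ⟨_, rfl⟩
  obtain ⟨t4, ht4⟩ : ∃ t : ℝ, t = ((N : ℝ) ^ 3 * √R + n ^ 5 * R) / V ^ 2 *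
    (H / Z₀ ^ 7 + h ^ 11 / Z₀ ^ 5) := ⟨_, rfl⟩
  have s1 : 0 ≤ t1 := by rw [ht1]; positivity
  have s2 : 0 ≤ t2 := by rw [ht2]; positivity
  have s3 : 0 ≤ t3 := by rw [ht3]; positivity
  have s4 : 0 ≤ t4 := by rw [ht4]; positivity
  rw [← ht1, ← ht2, ← ht3, ← ht4]
  have q9 : Pc * V ^ 2 ≤ 4 * a * t1 + 8 * CV * a * t2 + 4 * CV * a * t3 +
      4 * CV * (a * c * β) * t4 := by
    have e : 2 * N * (R * (a * N) + CV * n * (Pc * (Z₀ / κ) + R * (a * H) / Z ^ 7 +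
        (2 * (a * N) * Z * N * R + a * n * (c * Y) * (β * (n ^ 2 * √R + R * n))) / V ^ 2)) =
        2 * N * (CV * n * (Pc * (Z₀ / κ))) + (2 * a * t1 + 4 * CV * a * t2 + 2 * CV * a * t3 +
          2 * CV * (a * c * β) * t4) := by
      rw [ht1, ht2, ht3, ht4, hY, ← h12, hn2]
      ring
    rw [e] at q7
    linarith
  obtain ⟨D, hD⟩ : ∃ D : ℝ, D = a * c * β := ⟨_, rfl⟩
  have haD : a ≤ D := by
    rw [hD, mul_assoc]
    exact le_mul_of_one_le_right (by linarith) (one_le_mul_of_one_le_of_one_le hc1 hβ1)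
  have eD : (4 + 8 * CV) * (CA ^ 2 * CB * κ ^ 7) * y ^ 3 = (4 + 8 * CV) * D := by
    rw [hD, hc, hβ, ha]
    ring
  rw [eD]
  rw [← hD] at q9
  have q10 : Pc * V ^ 2 ≤ (4 + 8 * CV) * D * (t1 + t2 + t3 + t4) := by
    have hD0 : 0 ≤ D := by linarith
    have u1 := mul_le_mul_of_nonneg_right haD s1
    have u2 := mul_le_mul_of_nonneg_left (mul_le_mul_of_nonneg_right haD s2) hCV.le
    have u3 := mul_le_mul_of_nonneg_left (mul_le_mul_of_nonneg_right haD s3) hCV.le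
    have v1 := mul_nonneg hCV.le (mul_nonneg hD0 s1)
    have v2 := mul_nonneg hD0 s2
    have v3 := mul_nonneg hD0 s3
    have v4 := mul_nonneg hD0 s4
    have v5 := mul_nonneg hCV.le v3
    have v6 := mul_nonneg hCV.le v4
    linarith
  calc R ^ 2 * V ^ 2 ≤ ((T : ℝ) / H + 1) * Pc * V ^ 2 := by gcongr
    _ = ((T : ℝ) / H + 1) * (Pc * V ^ 2) := by ring
    _ ≤ ((T : ℝ) / H + 1) * ((4 + 8 * CV) * D * (t1 + t2 + t3 + t4)) := by gcongr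
    _ = _ := by ring

end Pool.Agent.MP_2a1f0e_nt.DH

end

section

set_option autoImplicit false

open Finset

namespace Pool.Agent.MP_2a1f0e_nt.DH

open Pool.Agent.MP_2a1f0e_nt.GM

open Real in
lemma rhs_Nu (n t h v r : ℝ) :
    exp t / exp h * RHS (exp n) (exp h) (exp v) (exp r) (exp ((h + 2 * v - 2 * n) / 8)) =
      exp r * exp v ^ 2 * (exp (t - h + 2 * n - 2 * v) +
        2 * exp (t - 7 / 8 * h + 13 / 4 * n - 15 / 4 * v) + exp (t + 27 / 2 * n - 18 * v - r / 2) +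
        exp (t - h / 12 + 21 / 2 * n - 14 * v - r / 2) + exp (t + 13 * n - 18 * v) +
        exp (t - h / 12 + 10 * n - 14 * v)) := by
  unfold RHS
  simp only [two_mul (exp _), ← exp_mul, ← exp_nat_mul, ← exp_half, mul_add, add_mul, add_div,
    ← exp_add, ← exp_sub]
  push_cast
  ring_nf

lemma lin_Nu {n t h v l r c σ u : ℝ} (h1 : n * (6 / 5) ≤ t) (h2 : t ≤ n * (3 / 2))
    (h3 : t ≤ h ∨ n * (4 / 3) ≤ c + h) (h4 : 7 / 9 ≤ σ) (h5 : σ ≤ 5 / 6) (hl : 0 ≤ l) (hc : 0 ≤ c)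
    (hv : n * σ ≤ l + v) (hu : u = 18 * l + t * (2 - 2 * σ)) (hr : u ≤ r) :
    t - h + 2 * n - 2 * v ≤ c + u ∧ t - 7 / 8 * h + 13 / 4 * n - 15 / 4 * v ≤ c + u ∧
      t + 27 / 2 * n - 18 * v - r / 2 ≤ c + u ∧
      t - h / 12 + 21 / 2 * n - 14 * v - r / 2 ≤ c + u ∧ t + 13 * n - 18 * v ≤ c + u ∧
      t - h / 12 + 10 * n - 14 * v ≤ c + u := by
  have a1 := mul_nonneg (sub_nonneg.2 h4) (sub_nonneg.2 h1)
  have a2 := mul_nonneg (sub_nonneg.2 h4) (sub_nonneg.2 h2)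
  have a3 := mul_nonneg (sub_nonneg.2 h5) (sub_nonneg.2 h1)
  have a4 := mul_nonneg (sub_nonneg.2 h5) (sub_nonneg.2 h2)
  rcases h3 with h3 | h3 <;> refine ⟨?_, ?_, ?_, ?_, ?_, ?_⟩ <;> linarith

open Real in
theorem nu_stmt : NuStmt := by
  intro N T H V R K lam σ hN h1 h2 hH hHT h3 h4 h5 hl hV hv hK hR hZ
  have hT : 0 < T := hH.trans_le hHT
  by_contra hc
  push Not at hc
  have hU : 0 < lam ^ 18 * T ^ (2 - 2 * σ) := by positivity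
  have hRU : lam ^ 18 * T ^ (2 - 2 * σ) ≤ R := by nlinarith
  obtain ⟨n, rfl⟩ : ∃ n, N = exp n := ⟨_, (exp_log (by linarith)).symm⟩
  obtain ⟨t, rfl⟩ : ∃ t, T = exp t := ⟨_, (exp_log hT).symm⟩
  obtain ⟨h, rfl⟩ : ∃ h, H = exp h := ⟨_, (exp_log hH).symm⟩
  obtain ⟨v, rfl⟩ : ∃ v, V = exp v := ⟨_, (exp_log hV).symm⟩
  obtain ⟨l, rfl⟩ : ∃ l, lam = exp l := ⟨_, (exp_log (by linarith)).symm⟩
  obtain ⟨r, rfl⟩ : ∃ r, R = exp r := ⟨_, (exp_log (hU.trans_le hRU)).symm⟩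
  have e2 : exp (log 2) = 2 := exp_log two_pos
  have eU : exp l ^ 18 * exp t ^ (2 - 2 * σ) = exp (18 * l + t * (2 - 2 * σ)) := by
    rw [← exp_mul, ← exp_nat_mul, ← exp_add]; norm_num
  rw [mul_assoc, eU] at hc
  rw [eU, exp_le_exp] at hRU
  rw [← exp_mul, exp_le_exp] at h1 h2
  rw [← exp_mul, ← exp_add, exp_le_exp] at hv
  rw [← e2, ← exp_mul, ← exp_add, exp_le_exp, exp_le_exp] at h3
  obtain ⟨b1, b2, b3, b4, b5, b6⟩ := lin_Nu h1 h2 h3 h4 h5 (one_le_exp_iff.1 hl)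
    (log_nonneg one_le_two) hv rfl hRU
  generalize 18 * l + t * (2 - 2 * σ) = u at *
  rw [← exp_le_exp, exp_add (log 2), e2] at b1 b2 b3 b4 b5 b6
  have hz := hZ _ (exp_pos ((h + 2 * v - 2 * n) / 8))
  have e := rhs_Nu n t h v r
  have h6 : 1 ≤ exp t / exp h := (one_le_div hH).2 hHT
  have h7 : 0 ≤ RHS (exp n) (exp h) (exp v) (exp r) (exp ((h + 2 * v - 2 * n) / 8)) := by
    unfold RHS
    positivity
  generalize RHS (exp n) (exp h) (exp v) (exp r) (exp ((h + 2 * v - 2 * n) / 8)) = X at hz e h7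
  have hp : 0 < exp r * exp v ^ 2 := by positivity
  have h8 : exp t / exp h * X ≤ exp r * exp v ^ 2 * (14 * exp u) := by
    rw [e]
    exact mul_le_mul_of_nonneg_left (by linarith) hp.le
  have h9 : exp r * exp v ^ 2 * exp r ≤ exp r * exp v ^ 2 * (K * (28 * exp u)) := by
    have h10 : (exp t / exp h + 1) * X ≤ 2 * (exp r * exp v ^ 2 * (14 * exp u)) := by
      nlinarith [mul_le_mul_of_nonneg_right h6 h7]
    nlinarith [mul_le_mul_of_nonneg_left h10 (show 0 ≤ K by linarith)]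
  have h11 := le_of_mul_le_mul_left h9 hp
  nlinarith [mul_pos (show 0 < K by linarith) (exp_pos u)]

end Pool.Agent.MP_2a1f0e_nt.DH

end

section

set_option autoImplicit false

open Finset

namespace Pool.Agent.MP_2a1f0e_nt.DH

open Pool.Agent.MP_2a1f0e_nt.GM

lemma cnt_Iv (N : ℕ) (b : ℕ → ℂ) (T : ℕ) {V : ℝ} (hV : 0 ≤ V) :
    (cnt N b T V : ℝ) * V ^ 2 ≤ Mass N b (Icc 0 (T : ℤ)) V := by
  unfold cnt Mass
  rw [← nsmul_eq_mul]
  exact card_nsmul_le_sum _ _ _ fun t ht => pow_le_pow_left₀ hV (mem_filter.1 ht).2 2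

lemma num_Iv {n t σ lam V c R K : ℝ} (hn : 1 ≤ n) (hnt : n ≤ t) (htc : t ≤ n ^ c)
    (hc : c * (2 * σ - 1) ≤ 6 * σ - 4) (h1 : 7 / 9 ≤ σ) (h2 : σ ≤ 1) (hl : 1 ≤ lam) (hV : 0 < V)
    (ha : n ^ σ ≤ lam * V) (hK : 0 ≤ K) (h : R * V ^ 2 ≤ K * (n ^ 2 + t * n ^ 4 / V ^ 4)) :
    R ≤ 2 * K * lam ^ 18 * t ^ (2 - 2 * σ) := by
  have n0 : 0 < n := by linarith
  have t0 : 0 < t := by linarith
  have l0 : 0 < lam := by linarith
  have a0 : 0 < n ^ σ := Real.rpow_pos_of_pos n0 _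
  have u0 : 0 < t ^ (2 - 2 * σ) := Real.rpow_pos_of_pos t0 _
  have e1 : n ^ 2 = n ^ (2 - 2 * σ) * (n ^ σ) ^ 2 := by
    rw [← Real.rpow_natCast (n ^ σ), ← Real.rpow_mul n0.le, ← Real.rpow_add n0,
      ← Real.rpow_natCast n]
    congr 1
    push_cast
    ring
  have e2 : n ^ (6 * σ - 4) * n ^ 4 = (n ^ σ) ^ 6 := by
    rw [← Real.rpow_natCast (n ^ σ), ← Real.rpow_mul n0.le, ← Real.rpow_natCast n,
      ← Real.rpow_add n0]
    congr 1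
    push_cast
    ring
  have e3 : t = t ^ (2 - 2 * σ) * t ^ (2 * σ - 1) := by
    rw [← Real.rpow_add t0, show 2 - 2 * σ + (2 * σ - 1) = 1 by ring, Real.rpow_one]
  have i1 : n ^ (2 - 2 * σ) ≤ t ^ (2 - 2 * σ) := Real.rpow_le_rpow n0.le hnt (by linarith)
  have i2 : t ^ (2 * σ - 1) ≤ n ^ (6 * σ - 4) := by
    refine (Real.rpow_le_rpow t0.le htc (by linarith)).trans ?_
    rw [← Real.rpow_mul n0.le]
    exact Real.rpow_le_rpow_of_exponent_le hn hc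
  have l2 : lam ^ 2 ≤ lam ^ 18 := pow_le_pow_right₀ hl (by norm_num)
  have l6 : lam ^ 6 ≤ lam ^ 18 := pow_le_pow_right₀ hl (by norm_num)
  have j1 : n ^ 2 ≤ lam ^ 18 * t ^ (2 - 2 * σ) * V ^ 2 := by
    calc n ^ 2 = n ^ (2 - 2 * σ) * (n ^ σ) ^ 2 := e1
      _ ≤ t ^ (2 - 2 * σ) * (lam * V) ^ 2 := by gcongr
      _ = lam ^ 2 * t ^ (2 - 2 * σ) * V ^ 2 := by ring
      _ ≤ _ := by gcongr
  have j2 : t * n ^ 4 / V ^ 4 ≤ lam ^ 18 * t ^ (2 - 2 * σ) * V ^ 2 := by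
    rw [div_le_iff₀ (by positivity)]
    calc t * n ^ 4 = t ^ (2 - 2 * σ) * t ^ (2 * σ - 1) * n ^ 4 := by rw [← e3]
      _ ≤ t ^ (2 - 2 * σ) * n ^ (6 * σ - 4) * n ^ 4 := by gcongr
      _ = t ^ (2 - 2 * σ) * (n ^ σ) ^ 6 := by rw [mul_assoc, e2]
      _ ≤ t ^ (2 - 2 * σ) * (lam * V) ^ 6 := by gcongr
      _ = lam ^ 6 * (t ^ (2 - 2 * σ) * V ^ 6) := by ring
      _ ≤ lam ^ 18 * (t ^ (2 - 2 * σ) * V ^ 6) := by gcongr
      _ = _ := by ring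
  refine le_of_mul_le_mul_right (h.trans ?_) (show 0 < V ^ 2 by positivity)
  calc K * (n ^ 2 + t * n ^ 4 / V ^ 4) ≤ K * (lam ^ 18 * t ^ (2 - 2 * σ) * V ^ 2 +
        lam ^ 18 * t ^ (2 - 2 * σ) * V ^ 2) := by gcongr
    _ = _ := by ring

theorem iv_stmt (hM : MasterStmt) (hN : NuStmt) (hB : B2Stmt) : IvStmt := by
  intro ε hε
  obtain ⟨C, C1, hM⟩ := hM ε hε
  obtain ⟨K, K0, hB⟩ := hB ε hε
  refine ⟨2 * K + 100 * C, by positivity, ?_⟩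
  intro N T hN1 hNT hT σ lam V h1 h2 hl hV ha b hb
  have n1 : (1 : ℝ) ≤ N := by exact_mod_cast hN1
  have nt : (N : ℝ) ≤ T := by exact_mod_cast hNT
  have n0 : (0 : ℝ) < N := by linarith
  have t0 : (0 : ℝ) < T := by linarith
  have l0 : 0 < lam := by linarith
  have e1 : 1 ≤ (N : ℝ) ^ ε := Real.one_le_rpow n1 hε.le
  have u0 : 0 < (T : ℝ) ^ (2 - 2 * σ) := Real.rpow_pos_of_pos t0 _
  have t32 : (T : ℝ) ≤ (N : ℝ) ^ (3 / 2 : ℝ) := by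
    refine le_of_pow_le_pow_left₀ two_ne_zero (by positivity) ?_
    rw [← Real.rpow_natCast ((N : ℝ) ^ (3 / 2 : ℝ)), ← Real.rpow_mul n0.le,
      show (3 / 2 : ℝ) * (2 : ℕ) = (3 : ℕ) by norm_num, Real.rpow_natCast]
    exact_mod_cast hT
  have hT2 : T ≤ N ^ 2 := by
    refine le_of_pow_le_pow_left₀ two_ne_zero (Nat.zero_le _) (hT.trans ?_)
    rw [← pow_mul]
    exact pow_le_pow_right₀ hN1 (by norm_num)
  have cA : ∀ c : ℝ, (T : ℝ) ≤ (N : ℝ) ^ c → c * (2 * σ - 1) ≤ 6 * σ - 4 →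
      (cnt N b T V : ℝ) ≤ (2 * K + 100 * C) * (N : ℝ) ^ ε * lam ^ 18 * (T : ℝ) ^ (2 - 2 * σ) := by
    intro c hc hc'
    refine (num_Iv n1 nt hc hc' h1 h2 hl hV ha (K := K * (N : ℝ) ^ ε) (by positivity)
      ((cnt_Iv N b T hV.le).trans (hB N T hN1 hNT hT2 b hb V hV))).trans ?_
    rw [← mul_assoc]
    gcongr
    linarith
  by_cases c1 : 5 / 6 ≤ σ
  · exact cA _ t32 (by linarith)
  by_cases c2 : (T : ℝ) ≤ (N : ℝ) ^ (6 / 5 : ℝ)
  · exact cA _ c2 (by linarith)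
  have x1 : (N : ℝ) ≤ (N : ℝ) ^ (4 / 3 : ℝ) := by
    conv_lhs => rw [← Real.rpow_one N]
    exact Real.rpow_le_rpow_of_exponent_le n1 (by norm_num)
  set x : ℝ := (N : ℝ) ^ (4 / 3 : ℝ) with hx
  have x0 : 0 ≤ x := by linarith
  have x3 : x ^ 3 = (N : ℝ) ^ 4 := by
    rw [hx, ← Real.rpow_natCast ((N : ℝ) ^ (4 / 3 : ℝ)), ← Real.rpow_mul n0.le,
      show (4 / 3 : ℝ) * (3 : ℕ) = (4 : ℕ) by norm_num, Real.rpow_natCast]
  have f1 : N ≤ ⌊x⌋₊ := Nat.le_floor x1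
  set H : ℕ := min T ⌊x⌋₊ with hH
  have H1 : N ≤ H := le_min hNT f1
  have H2 : H ≤ T := min_le_left _ _
  have H3 : H ^ 3 ≤ N ^ 4 := by
    have a1 : (H : ℝ) ≤ x := (Nat.cast_le.2 (min_le_right _ _)).trans (Nat.floor_le x0)
    have a2 : (H : ℝ) ^ 3 ≤ (N : ℝ) ^ 4 := x3 ▸ pow_le_pow_left₀ (by positivity) a1 3
    exact_mod_cast a2
  have H4 : (T : ℝ) ≤ H ∨ x ≤ 2 * H := by
    rcases le_total T ⌊x⌋₊ with h | h
    · left; rw [hH, min_eq_left h]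
    · right
      rw [hH, min_eq_right h]
      have a1 := Nat.lt_floor_add_one x
      have a2 : (1 : ℝ) ≤ ⌊x⌋₊ := by exact_mod_cast hN1.trans f1
      linarith
  have H0 : (0 : ℝ) < H := by exact_mod_cast lt_of_lt_of_le hN1 H1
  have key := hN N T H V (cnt N b T V) (C * (N : ℝ) ^ ε) lam σ n1 (not_le.1 c2).le t32 H0
    (by exact_mod_cast H2) H4 h1 (not_le.1 c1).le hl hV ha (one_le_mul_of_one_le_of_one_le C1 e1)
    (Nat.cast_nonneg _) fun Z hZ => hM N H T hN1 H1 H3 hT b hb V Z hV hZ _ (filter_subset _ _)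
      fun t ht => (mem_filter.1 ht).2
  refine key.trans ?_
  rw [← mul_assoc]
  gcongr
  linarith

end Pool.Agent.MP_2a1f0e_nt.DH

end

section

set_option autoImplicit false

namespace Pool.Agent.MP_2a1f0e_nt.DH

open Pool.Agent.MP_2a1f0e_nt.GM

theorem kone_all : K1Stmt := k1_stmt decay_stmt zero_stmt (pois_stmt decay_stmt)

theorem btwo_all : B2Stmt :=
  b2_stmt (setup_stmt kone_all (s_stmt (two_stmt rad_stmt phMaj_stmt)
    (pt_stmt triang_stmt phExp_stmt phMaj_stmt) (rho_stmt phExp_stmt bes_stmt div_stmt))) hux_stmt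

theorem avg_all : AvgStmt := avg_stmt (refl_stmt (fub_stmt mel_stmt) gam_stmt)

theorem kbJ_all : KbJStmt := kbJ_stmt avg_all powZ_stmt pos_stmt

theorem jut_all : JutStmt :=
  jut_stmt kone_all (len_stmt id_stmt pos_stmt) sq_stmt kbJ_all pos_stmt

theorem mom_all : MomStmt := mom_stmt jut_all powZ_stmt pos_stmt

theorem master_all : MasterStmt :=
  master_stmt (setA_stmt kone_all mom_all kbJ_all jut_all) (setB_stmt pos_stmt jut_all) avg_all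
    (bil_stmt spec_stmt pos_stmt) pr_stmt lev_stmt

theorem iv_all : IvStmt := iv_stmt master_all nu_stmt btwo_all

theorem pow_all : PowStmt := pow_stmt iv_all

theorem lv_all : LVStmt := lv_stmt iv_all pow_all ty_stmt

end Pool.Agent.MP_2a1f0e_nt.DH

end
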