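import Pool.Agent.MP_2a1f0e_nt.DH.Basic
import Pool.Agent.Mg.C853.G68ddeb
import Pool.Agent.Mg.C853.Gfe9d6c
import Pool.Agent.Mg.C853.G3e49c7
import Pool.Agent.MP_c853c5_nt.E.Basic

section

/-!
Reflection of smooth zeta sums, with rapid decay.
-/

set_option autoImplicit false

open Finset

namespace Pool.Agent.MP_c853c5_nt.R

open Pool.Agent.MP_2a1f0e_nt Pool.Agent.MP_2a1f0e_nt.GM Pool.Agent.MP_2a1f0e_nt.DH

/-- a smooth weight that vanishes outside `(a, b)`, where `0 < a` -/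
structure Sup (f : ℝ → ℝ) (a b : ℝ) : Prop where
  pos : 0 < a
  sm : ContDiff ℝ (⊤ : ℕ∞) f
  z : ∀ x, x ≤ a ∨ b ≤ x → f x = 0

/-- the smooth zeta sum on the critical line -/
noncomputable def SZ (f : ℝ → ℝ) (y : ℝ) (L : ℕ) (t : ℝ) : ℂ :=
  PP L (fun l => ((f ((l : ℝ) / y) * hf (l : ℝ) : ℝ) : ℂ)) t

/-- pointwise reflection -/
def PtStmt : Prop := ∀ (f : ℝ → ℝ) (a b : ℝ), Sup f a b → ∀ j : ℕ, ∃ C : ℝ, 0 < C ∧
  ∀ (y : ℝ) (L M : ℕ) (t : ℝ), 1 ≤ y → b * y ≤ L →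
    ‖SZ f y L t‖ ≤ C * ((∫ ξ : ℝ, kp ξ * ‖ZZ M (t + ξ)‖) + √y / (1 + |t|) ^ j +
      √y * ((1 + |t|) / y) ^ 2 * ((1 + |t|) / (y * (M + 1))) ^ j)

/-- pointwise reflection at the scale `x` -/
def ScStmt : Prop := ∀ (f : ℝ → ℝ) (a b : ℝ), Sup f a b → ∀ d A : ℝ, 0 < d → ∃ C : ℝ, 0 < C ∧
  ∀ (x y T : ℝ) (L M : ℕ) (t : ℝ), 1 ≤ y → y ≤ x → b * y ≤ L → T ≤ x →
    T * x ^ d ≤ y * (M + 1) → x ^ d ≤ |t| → |t| ≤ T →
    ‖SZ f y L t‖ ≤ C * (∫ ξ : ℝ, kp ξ * ‖ZZ M (t + ξ)‖) + C * x ^ (-A)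

/-- On the set `U`, the function `F` is controlled in every weighted first moment by a Dirichlet
polynomial of length `L` with coefficients at most `K * l ^ (-1/2)`, up to the error `η`. -/
def Av (U : Set ℝ) (F : ℝ → ℂ) (L : ℕ) (K η : ℝ) : Prop :=
  ∀ (ι : Type) (s : Finset ι) (w u : ι → ℝ), (∀ i ∈ s, 0 ≤ w i) → (∀ i ∈ s, u i ∈ U) →
    ∃ c : ℕ → ℂ, (∀ l, ‖c l‖ ≤ K * hf (l : ℝ)) ∧
      ∑ i ∈ s, w i * ‖F (u i)‖ ≤ ∑ i ∈ s, w i * ‖PP L c (u i)‖ + η * ∑ i ∈ s, w i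

/-- the reflected avatar of a smooth zeta sum -/
def AvStmt : Prop := ∀ (f : ℝ → ℝ) (a b : ℝ), Sup f a b → ∀ d A : ℝ, 0 < d → ∃ C : ℝ, 1 ≤ C ∧
  ∀ (x y T : ℝ) (L M : ℕ), 1 ≤ y → y ≤ x → b * y ≤ L → T ≤ x → T * x ^ d ≤ y * (M + 1) →
    Av {t | x ^ d ≤ |t| ∧ |t| ≤ T} (SZ f y L) M C (C * x ^ (-A))

/-- power saving for a smooth zeta sum -/
def SavStmt : Prop := ∀ (f : ℝ → ℝ) (a b : ℝ), Sup f a b → ∀ k : ℕ, ∃ C δ : ℝ, 0 < C ∧ 0 < δ ∧
  ∀ (y : ℝ) (L : ℕ) (t : ℝ), 1 ≤ y → b * y ≤ L → |t| ≤ y ^ k →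
    ‖SZ f y L t‖ ≤ C * √y * (1 / (1 + |t|) + y ^ (-δ))

lemma Sup.ev {f : ℝ → ℝ} {a b : ℝ} (h : Sup f a b) {x : ℝ} (hx : x < a) :
    f =ᶠ[nhds x] fun _ => 0 := by
  filter_upwards [Iio_mem_nhds hx] with z hz
  exact h.z z (Or.inl (le_of_lt hz))

lemma Sup.cs {f : ℝ → ℝ} {a b : ℝ} (h : Sup f a b) : HasCompactSupport f :=
  HasCompactSupport.intro (isCompact_Icc (a := a) (b := b)) fun x hx => h.z x (by
    rw [Set.mem_Icc, not_and_or, not_le, not_le] at hx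
    exact hx.imp le_of_lt le_of_lt)

lemma Sup.cl {f : ℝ → ℝ} {a b : ℝ} (h : Sup f a b) : Cl_Decay f :=
  ⟨h.sm, h.cs, notMem_tsupport_iff_eventuallyEq.2 (h.ev h.pos)⟩

lemma Sup.mem {f : ℝ → ℝ} {a b : ℝ} (h : Sup f a b) {x : ℝ} (hx : f x ≠ 0) : a < x ∧ x < b := by
  by_contra hc
  rw [not_and_or, not_lt, not_lt] at hc
  exact hx (h.z x hc)

/-- product with a function that is smooth on the positive axis -/
lemma Sup.mul {f g : ℝ → ℝ} {a b : ℝ} (h : Sup f a b)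
    (hg : ∀ x, 0 < x → ContDiffAt ℝ (⊤ : ℕ∞) g x) : Sup (fun x => f x * g x) a b := by
  refine ⟨h.pos, contDiff_iff_contDiffAt.2 fun x => ?_, fun x hx => by rw [h.z x hx, zero_mul]⟩
  by_cases hx : 0 < x
  · exact h.sm.contDiffAt.mul (hg x hx)
  · refine (contDiffAt_const (c := (0 : ℝ))).congr_of_eventuallyEq ?_
    filter_upwards [h.ev ((not_lt.1 hx).trans_lt h.pos)] with z hz
    rw [hz, zero_mul]

lemma Sup.mul_hf {f : ℝ → ℝ} {a b : ℝ} (h : Sup f a b) : Sup (fun x => f x * hf x) a b :=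
  h.mul fun _ hx => contDiffAt_const.div (Real.contDiffAt_sqrt hx.ne') (Real.sqrt_pos.2 hx).ne'

lemma Sup.mul_log {f : ℝ → ℝ} {a b : ℝ} (h : Sup f a b) :
    Sup (fun x => f x * Real.log x) a b :=
  h.mul fun _ hx => Real.contDiffAt_log.2 hx.ne'

lemma sup_om : Sup om 1 (5 / 3) := ⟨one_pos, contDiff_om, fun _ hx => om_eq_zero hx⟩

lemma sup_Wt : Sup Wt (3 / 4) (9 / 4) := ⟨by norm_num, contDiff_Wt, fun _ hx => Wt_eq_zero hx⟩

end Pool.Agent.MP_c853c5_nt.R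

end

section

/-!
Poisson summation for a general weight, and decay of all orders of the zero frequency.
-/

set_option autoImplicit false

open Finset
open scoped FourierTransform

namespace Pool.Agent.MP_c853c5_nt.R

open Pool.Agent.MP_2a1f0e_nt Pool.Agent.MP_2a1f0e_nt.GM Pool.Agent.MP_2a1f0e_nt.DH

/-- the oscillatory integral -/
noncomputable def HG (f : ℝ → ℝ) (u ξ : ℝ) : ℂ := ∫ x : ℝ, G_Decay f u ξ x

lemma zero_all (j : ℕ) : ∀ φ : ℝ → ℝ, Cl_Decay φ → ∃ C : ℝ, 0 < C ∧ ∀ u : ℝ,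
    ‖HG φ u 0‖ ≤ C / (1 + |u|) ^ j := by
  induction j with
  | zero =>
    intro φ _
    obtain ⟨C, hC, h1⟩ := bound_Decay φ
    exact ⟨C, hC, fun u => by simpa [HG] using h1 u 0⟩
  | succ j ih =>
    intro φ h
    obtain ⟨C, hC, h1⟩ := ih _ h.der.mul
    refine ⟨2 * C, by positivity, fun u => ?_⟩
    have e := congrArg norm (h.step u)
    rw [norm_mul, norm_neg] at e
    have h2 : ‖(1 : ℂ) + Complex.I * u‖ ^ 2 = 1 + u ^ 2 := by
      rw [Complex.sq_norm, Complex.normSq_apply]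
      simp
      ring
    have h3 : 1 + |u| ≤ 2 * ‖(1 : ℂ) + Complex.I * u‖ := by
      refine le_of_pow_le_pow_left₀ (n := 2) (by norm_num) (by positivity) ?_
      rw [mul_pow, h2]
      nlinarith [sq_abs u, sq_nonneg (|u| - 1), abs_nonneg u]
    have h4 := h1 u
    unfold HG at h4 ⊢
    rw [← e, le_div_iff₀ (by positivity)] at h4
    rw [le_div_iff₀ (by positivity), pow_succ]
    have h5 : 0 ≤ ‖∫ x, G_Decay φ u 0 x‖ * (1 + |u|) ^ j := by positivity
    nlinarith [mul_le_mul_of_nonneg_left h3 h5]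

lemma cont_pw {f : ℝ → ℝ} {a b : ℝ} (h : Sup f a b) (u : ℝ) :
    Continuous fun y : ℝ => (f y : ℂ) * pw y u := by
  refine continuous_iff_continuousAt.2 fun y => ?_
  by_cases hy : 0 < y
  · exact (Complex.continuous_ofReal.comp h.sm.continuous).continuousAt.mul
      ((continuousOn_pw u).continuousAt (Ioi_mem_nhds hy))
  · have h1 : (fun y : ℝ => (f y : ℂ) * pw y u) =ᶠ[nhds y] fun _ => 0 := by
      filter_upwards [h.ev ((not_lt.1 hy).trans_lt h.pos)] with z hz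
      rw [hz, Complex.ofReal_zero, zero_mul]
    exact continuousAt_const.congr h1.symm

theorem pois {g : ℝ → ℝ} {a b : ℝ} (h : Sup g a b) {y : ℝ} (hy : 1 ≤ y) {L : ℕ}
    (hL : b * y ≤ L) (u : ℝ) :
    HasSum (fun m : ℤ => (y : ℂ) * pw y u * HG g u ((m : ℝ) * y))
      (PP L (fun l => (g ((l : ℝ) / y) : ℂ)) u) := by
  have hy0 : (0 : ℝ) < y := by linarith
  let f : ℝ → ℂ := fun x => pw y u * ((g (x / y) : ℂ) * pw (x / y) u)
  have hc : Continuous f := continuous_const.mul ((cont_pw h u).comp (continuous_id.div_const _))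
  have h0 : ∀ x : ℝ, x ≤ 0 ∨ (L : ℝ) < x → f x = 0 := fun x hx => by
    have h1 : g (x / y) = 0 := h.z _ (hx.imp
      (fun h2 => (div_nonpos_of_nonpos_of_nonneg h2 hy0.le).trans h.pos.le)
      fun h2 => by rw [le_div_iff₀ hy0]; linarith)
    simp only [f, h1, Complex.ofReal_zero, zero_mul, mul_zero]
  have hf : f =O[Filter.cocompact ℝ] fun x : ℝ => |x| ^ (-(2 : ℝ)) := by
    have h1 : f =ᶠ[Filter.cocompact ℝ] fun _ => 0 := by
      filter_upwards [(isCompact_Icc (a := (0 : ℝ)) (b := L)).compl_mem_cocompact] with x hx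
      refine h0 x ?_
      by_contra h1
      rw [not_or, not_le, not_lt] at h1
      exact hx ⟨h1.1.le, h1.2⟩
    exact (Asymptotics.isBigO_zero _ _).congr' h1.symm Filter.EventuallyEq.rfl
  have hF : ∀ m : ℤ, 𝓕 f m = (y : ℂ) * pw y u * HG g u ((m : ℝ) * y) := fun m => by
    have h1 := MeasureTheory.Measure.integral_comp_div
      (fun z : ℝ => (g z : ℂ) * pw z u * ex (-((m : ℝ) * y * z))) y
    rw [abs_of_pos hy0, Complex.real_smul] at h1
    rw [Real.fourier_real_eq_integral_exp_smul, HG, mul_comm (y : ℂ), mul_assoc]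
    unfold G_Decay
    rw [← h1, ← MeasureTheory.integral_const_mul]
    refine congrArg _ (funext fun x => ?_)
    have e : ex (-((m : ℝ) * y * (x / y))) =
        Complex.exp (((-2 * Real.pi * x * m : ℝ) : ℂ) * Complex.I) := by
      rw [ex, mul_comm Complex.I]
      congr 3
      field_simp
    rw [e, smul_eq_mul]
    simp only [f]
    ring
  have hs : Summable fun m : ℤ => (y : ℂ) * pw y u * HG g u ((m : ℝ) * y) := by
    obtain ⟨C, hC, hb⟩ := decay_Decay 2 g h.cl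
    refine Summable.mul_left _ (Summable.of_norm_bounded_eventually
      ((Real.summable_one_div_int_pow.2 one_lt_two).mul_left (C * (1 + |u|) ^ 2)) ?_)
    filter_upwards [(Set.finite_singleton (0 : ℤ)).compl_mem_cofinite] with m hm
    have hm' : (m : ℝ) ≠ 0 := Int.cast_ne_zero.2 hm
    refine (hb u _ (mul_ne_zero hm' hy0.ne')).trans ?_
    rw [div_pow, sq_abs, mul_assoc, mul_one_div, mul_pow]
    have h1 : (0 : ℝ) < (m : ℝ) ^ 2 := by positivity
    gcongr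
    exact le_mul_of_one_le_right h1.le (one_le_pow₀ hy)
  have h1 := Real.tsum_eq_tsum_fourier_of_rpow_decay_of_summable hc one_lt_two hf
    (by simpa only [hF] using hs) 0
  simp only [zero_add, hF, QuotientAddGroup.mk_zero, fourier_eval_zero, mul_one] at h1
  have h2 : ∑' n : ℤ, f n = PP L (fun l => (g ((l : ℝ) / y) : ℂ)) u := by
    rw [tsum_eq_sum (s := (Icc 1 L).map Nat.castEmbedding), sum_map, PP]
    · refine sum_congr rfl fun n hn => ?_
      have hn' : (n : ℝ) ≠ 0 := Nat.cast_ne_zero.2 (by have := (mem_Icc.1 hn).1; omega)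
      have e : pw (n : ℝ) u = pw y u * pw ((n : ℝ) / y) u := by
        rw [← pw_mul hy0.ne' (div_ne_zero hn' hy0.ne'), mul_div_cancel₀ _ hy0.ne']
      rw [e]
      simp only [f, Nat.castEmbedding_apply, Int.cast_natCast]
      ring
    · intro n hn
      refine h0 _ ?_
      by_contra h3
      rw [not_or, not_le, not_lt] at h3
      have h4 : 0 < n := by exact_mod_cast h3.1
      have h5 : n ≤ L := by exact_mod_cast h3.2
      refine hn (mem_map.2 ⟨n.toNat, mem_Icc.2 ⟨by omega, by omega⟩, ?_⟩)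
      exact Int.toNat_of_nonneg h4.le
  rw [← h2, h1]
  exact hs.hasSum

end Pool.Agent.MP_c853c5_nt.R

end

section

/-!
The reflection inequality for a general weight.
-/

set_option autoImplicit false

open Finset

namespace Pool.Agent.MP_c853c5_nt.R

open Pool.Agent.MP_2a1f0e_nt Pool.Agent.MP_2a1f0e_nt.GM Pool.Agent.MP_2a1f0e_nt.DH MeasureTheory

/-- the oscillatory integral with a complex frequency -/
noncomputable def Hz (g : ℝ → ℝ) (u : ℝ) (z : ℂ) : ℂ :=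
  ∫ x : ℝ, (g x : ℂ) * pw x u * Complex.exp (-(z * x))

lemma fub {g : ℝ → ℝ} {a b : ℝ} (hg : Sup g a b) : ∃ C : ℝ, 0 < C ∧ ∃ φ : ℝ → ℂ,
    (∀ ξ, ‖φ ξ‖ ≤ C * kp ξ) ∧
    ∀ (u : ℝ) (r : ℂ), 0 < r.re → Integrable (fun ξ : ℝ => φ ξ * GI r (u + ξ)) ∧
      ∀ k : ℝ, 0 < k → Hz g u (k * r) =
        ∫ ξ : ℝ, φ ξ * GI r (u + ξ) * ((hf k : ℂ) * pw k (-(u + ξ))) := by
  obtain ⟨C, hC, h⟩ := mel_stmt g a b hg.pos hg.sm hg.z
  obtain ⟨φ, hc, hb, hφ⟩ := h ((1 / 2 : ℝ) : ℂ) (by rw [Complex.norm_real]; norm_num)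
  refine ⟨C, hC, φ, hb, fun u r hr => ⟨?_, fun k hk => ?_⟩⟩
  · simpa only [Function.uncurry, integral_const_mul, GI] using
      (int_Fub hc hb u hr).integral_prod_right
  have hr' : 0 < ((k : ℂ) * r).re := by
    rw [Complex.re_ofReal_mul]
    exact mul_pos hk hr
  have h1 := integral_integral_swap (int_Fub hc hb u hr')
  simp only [mul_assoc (φ _), ← scale_Fub r _ hk]
  rw [Hz, ← setIntegral_eq_integral_of_forall_compl_eq_zero (s := Set.Ioi 0) fun x hx => by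
    rw [hg.z x (Or.inl ((not_lt.1 hx).trans hg.pos.le))]
    simp]
  refine Eq.trans (setIntegral_congr_fun measurableSet_Ioi fun x hx => ?_)
    (h1.trans (by simp only [integral_const_mul, GI]))
  have h2 := hφ x hx
  have h3 : (hf x : ℂ) * (x : ℂ) ^ ((1 / 2 : ℝ) : ℂ) = 1 := by
    rw [← Complex.ofReal_cpow (le_of_lt hx), ← Real.sqrt_eq_rpow, ← Complex.ofReal_mul, hf,
      one_div_mul_cancel (Real.sqrt_pos.2 hx).ne', Complex.ofReal_one]
  have h4 : ∀ ξ, φ ξ * ((hf x : ℂ) * pw x (u + ξ) * Complex.exp (-(k * r * x))) =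
      (hf x : ℂ) * pw x u * Complex.exp (-(k * r * x)) * (φ ξ * pw x ξ) := fun ξ => by
    rw [pw_add]
    ring
  simp only [h4, integral_const_mul, ← h2]
  linear_combination -(g x : ℂ) * pw x u * Complex.exp (-(k * r * x)) * h3

lemma int_Hz {g : ℝ → ℝ} {a b : ℝ} (hg : Sup g a b) (u : ℝ) (z : ℂ) :
    Integrable fun x : ℝ => (g x : ℂ) * pw x u * Complex.exp (-(z * x)) := by
  have h1 : Integrable fun x : ℝ => (g x : ℂ) * Complex.exp (-(z * x)) := by
    refine Continuous.integrable_of_hasCompactSupport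
      ((Complex.continuous_ofReal.comp hg.sm.continuous).mul (by fun_prop)) ?_
    exact (hg.cs.comp_left (g := Complex.ofReal) Complex.ofReal_zero).mul_right
  refine (h1.mul_bdd (measurable_pw u).aestronglyMeasurable
    (Filter.Eventually.of_forall fun x => (norm_pw x u).le)).congr
    (Filter.Eventually.of_forall fun x => ?_)
  dsimp only
  ring

lemma HG_eq (g : ℝ → ℝ) (u ξ : ℝ) :
    HG g u ξ = Hz g u (((2 * Real.pi * ξ : ℝ) : ℂ) * Complex.I) := by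
  unfold HG Hz G_Decay ex
  congr 1
  funext x
  congr 2
  push_cast
  ring

lemma lim_Hz {g : ℝ → ℝ} {a b : ℝ} (hg : Sup g a b) (u e y : ℝ) (he : 0 ≤ e) :
    ‖Hz g u ((y : ℂ) * Complex.I) - Hz g u (e + (y : ℂ) * Complex.I)‖ ≤
      e * (|b| * ∫ x, |g x|) := by
  rw [Hz, Hz, ← integral_sub (int_Hz hg _ _) (int_Hz hg _ _), ← mul_assoc, ← integral_const_mul]
  refine norm_integral_le_of_norm_le (hg.cl.int.abs.const_mul _)
    (Filter.Eventually.of_forall fun x => ?_)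
  by_cases h : g x = 0
  · simp [h]
  obtain ⟨h1, h2⟩ := hg.mem h
  have h0 := hg.pos
  have e1 : Complex.exp (-((y : ℂ) * Complex.I * x)) -
      Complex.exp (-((e + (y : ℂ) * Complex.I) * x)) =
      Complex.exp (((-(y * x) : ℝ) : ℂ) * Complex.I) * ((1 - Real.exp (-(e * x)) : ℝ) : ℂ) := by
    push_cast
    rw [mul_sub, mul_one, ← Complex.exp_add]
    congr 2 <;> ring
  have h3 : Real.exp (-(e * x)) ≤ 1 := Real.exp_le_one_iff.2 (by nlinarith)
  have h4 := Real.add_one_le_exp (-(e * x))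
  rw [← mul_sub, e1, norm_mul, norm_mul, norm_mul, norm_pw, Complex.norm_exp_ofReal_mul_I,
    Complex.norm_real, Complex.norm_real, Real.norm_eq_abs,
    Real.norm_of_nonneg (sub_nonneg.2 h3), mul_one, one_mul, mul_comm]
  refine mul_le_mul_of_nonneg_right ?_ (abs_nonneg _)
  nlinarith [mul_le_mul_of_nonneg_left (h2.le.trans (le_abs_self b)) he]

lemma side {g : ℝ → ℝ} {a b : ℝ} (hg : Sup g a b) : ∃ C : ℝ, 0 < C ∧ ∀ (y : ℝ) (M : ℕ), 0 < y →
    ∀ u σ : ℝ, |σ| = 1 → ‖∑ m ∈ Icc 1 M, HG g u (σ * m * y)‖ ≤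
      C * hf y * ∫ ξ : ℝ, kp ξ * ‖ZZ M (u + ξ)‖ := by
  obtain ⟨C, hC, φ, hφ, h⟩ := fub hg
  refine ⟨C, hC, fun y M hy u σ hσ => ?_⟩
  have key : ∀ r : ℂ, 0 < r.re → 2 * Real.pi ≤ ‖r‖ →
      ‖∑ m ∈ Icc 1 M, Hz g u ((((m : ℝ) * y : ℝ) : ℂ) * r)‖ ≤
        C * hf y * ∫ ξ : ℝ, kp ξ * ‖ZZ M (u + ξ)‖ := by
    intro r h1 h2
    obtain ⟨hi, he⟩ := h u r h1
    have hm : ∀ m ∈ Icc 1 M, (0 : ℝ) < m := fun m hm => by
      exact_mod_cast (mem_Icc.1 hm).1
    have hk : ∀ k : ℝ, Integrable fun ξ : ℝ =>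
        φ ξ * GI r (u + ξ) * ((hf k : ℂ) * pw k (-(u + ξ))) := fun k =>
      hi.mul_bdd (c := hf k) (continuous_const.mul ((continuous_pw _).comp
          (continuous_const.add continuous_id).neg)).aestronglyMeasurable
        (Filter.Eventually.of_forall fun ξ => by
          rw [norm_mul, norm_pw, mul_one, Complex.norm_real, Real.norm_of_nonneg (hf_nonneg _)])
    rw [sum_congr rfl fun (m : ℕ) hm' => he _ (mul_pos (hm m hm') hy),
      ← integral_finsetSum _ fun (m : ℕ) _ => hk ((m : ℝ) * y), ← integral_const_mul]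
    refine norm_integral_le_of_norm_le ((int_kpZ_Refl M u).const_mul _)
      (Filter.Eventually.of_forall fun ξ => ?_)
    have e : ∑ m ∈ Icc 1 M, ((hf ((m : ℝ) * y) : ℝ) : ℂ) * pw ((m : ℝ) * y) (-(u + ξ)) =
        (hf y : ℂ) * pw y (-(u + ξ)) * ZZ M (-(u + ξ)) := by
      rw [ZZ, PP, mul_sum]
      refine sum_congr rfl fun m hm' => ?_
      rw [hf_mul (hm m hm').le, pw_mul (hm m hm').ne' hy.ne']
      push_cast
      ring
    rw [← mul_sum, e, norm_mul, norm_mul, norm_mul, norm_mul, norm_pw, norm_ZZ_neg,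
      Complex.norm_real, Real.norm_of_nonneg (hf_nonneg _), mul_one]
    have h3 : ‖φ ξ‖ * ‖GI r (u + ξ)‖ ≤ C * kp ξ :=
      (mul_le_of_le_one_right (norm_nonneg _) (gam_stmt r _ h1 h2)).trans (hφ ξ)
    exact (mul_le_mul_of_nonneg_right h3 (mul_nonneg (hf_nonneg _) (norm_nonneg _))).trans_eq
      (by ring)
  have hW : 0 ≤ |b| * ∫ x, |g x| :=
    mul_nonneg (abs_nonneg _) (integral_nonneg fun x => abs_nonneg _)
  obtain ⟨D, hD, hD0⟩ : ∃ D : ℝ, D = ∑ m ∈ Icc 1 M, (m : ℝ) * y * (|b| * ∫ x, |g x|) ∧ 0 ≤ D :=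
    ⟨_, rfl, sum_nonneg fun m _ => by positivity⟩
  refine le_of_forall_pos_le_add fun ε hε => ?_
  have he : 0 < ε / (D + 1) := by positivity
  have h1 := key (((ε / (D + 1) : ℝ) : ℂ) + ((2 * Real.pi * σ : ℝ) : ℂ) * Complex.I)
    (by
      rw [Complex.add_re, Complex.ofReal_re, Complex.re_ofReal_mul, Complex.I_re, mul_zero, add_zero]
      exact he)
    (by
      refine le_trans (le_of_eq ?_) (Complex.abs_im_le_norm _)
      rw [Complex.add_im, Complex.ofReal_im, Complex.im_ofReal_mul, Complex.I_im, mul_one,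
        zero_add, abs_mul, hσ, mul_one, abs_of_pos (by positivity)])
  refine (norm_le_norm_add_norm_sub' _ _).trans (add_le_add h1 ?_)
  rw [← sum_sub_distrib]
  refine (norm_sum_le _ _).trans ((sum_le_sum
    (g := fun m : ℕ => ε / (D + 1) * ((m : ℝ) * y * (|b| * ∫ x, |g x|))) fun m _ => ?_).trans ?_)
  · have h2 := lim_Hz hg u ((m : ℝ) * y * (ε / (D + 1))) (2 * Real.pi * (σ * m * y))
      (by positivity)
    rw [HG_eq]
    refine (le_of_eq ?_).trans (h2.trans_eq (by ring))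
    congr 3
    push_cast
    ring
  · rw [← mul_sum, ← hD, div_mul_eq_mul_div, div_le_iff₀ (by positivity)]
    nlinarith

lemma SZ_eq (f : ℝ → ℝ) {y : ℝ} (hy : 0 < y) (L : ℕ) (t : ℝ) :
    SZ f y L t = (hf y : ℂ) * PP L (fun l => ((f ((l : ℝ) / y) * hf ((l : ℝ) / y) : ℝ) : ℂ)) t := by
  rw [SZ, ← PP_smul]
  congr 1
  funext l
  have e : hf (l : ℝ) = hf y * hf ((l : ℝ) / y) := by
    rw [← hf_mul hy.le, mul_div_cancel₀ _ hy.ne']
  rw [e]
  push_cast
  ring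

theorem pt_stmt : PtStmt := by
  intro f a b hf0 j
  have hg := hf0.mul_hf
  obtain ⟨C1, hC1, h1⟩ := side hg
  obtain ⟨C2, hC2, h2⟩ := zero_all j _ hg.cl
  obtain ⟨C3, hC3, h3⟩ := decay_Decay (j + 2) _ hg.cl
  refine ⟨2 * C1 + C2 + 12 * C3, by positivity, fun y L M t hy hL => ?_⟩
  have hy0 : 0 < y := by linarith
  set g : ℝ → ℝ := fun x => f x * hf x with hgd
  have hn : ∀ z : ℂ, ‖(y : ℂ) * pw y t * z‖ = y * ‖z‖ := fun z => by
    rw [norm_mul, norm_mul, norm_pw, mul_one, Complex.norm_real, Real.norm_of_nonneg hy0.le]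
  set I := ∫ ξ : ℝ, kp ξ * ‖ZZ M (t + ξ)‖ with hI
  have hI0 : 0 ≤ I := integral_nonneg fun ξ => mul_nonneg (kp_pos ξ).le (norm_nonneg _)
  set r := 1 + |t| with hr
  have hr0 : 0 < r := by positivity
  set q := (r / y) ^ 2 * (r / (y * (M + 1))) ^ j with hq
  have hq0 : 0 ≤ q := by positivity
  have key := tail_KOne (pois hg hy hL t) (Ms M) (A := y * (C2 / r ^ j))
    (B := y * (C3 * (2 * q))) (by positivity) (by positivity)
    (by
      rw [hn, Int.cast_zero, zero_mul]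
      exact mul_le_mul_of_nonneg_left (h2 t) hy0.le)
    (fun m hm0 hm => by
      have hm1 : (M : ℝ) + 1 ≤ |(m : ℝ)| := by
        have h4 : (M : ℤ) + 1 ≤ |m| := by
          rw [mem_Ms] at hm
          rw [le_abs]
          omega
        exact_mod_cast h4
      have hm2 : (1 : ℝ) ≤ |(m : ℝ)| := by exact_mod_cast Int.one_le_abs hm0
      rw [hn, mul_assoc, mul_assoc]
      refine mul_le_mul_of_nonneg_left ((h3 _ _ (mul_ne_zero (Int.cast_ne_zero.2 hm0)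
        hy0.ne')).trans (mul_le_mul_of_nonneg_left ?_ hC3.le)) hy0.le
      have h5 : r / |(m : ℝ) * y| ≤ r / (y * (M + 1)) := by
        rw [abs_mul, abs_of_pos hy0, mul_comm _ y]
        gcongr
      have h6 : (r / |(m : ℝ) * y|) ^ 2 ≤ 2 * (r / y) ^ 2 * kp (m : ℝ) := by
        have h7 : (1 : ℝ) ≤ (m : ℝ) ^ 2 := by
          rw [← sq_abs]
          nlinarith
        have h8 : 1 / (m : ℝ) ^ 2 ≤ 2 * kp (m : ℝ) := by
          rw [kp, mul_one_div, div_le_div_iff₀ (by positivity) (by positivity)]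
          linarith
        calc (r / |(m : ℝ) * y|) ^ 2 = (r / y) ^ 2 * (1 / (m : ℝ) ^ 2) := by
              rw [div_pow, sq_abs, div_pow]
              field_simp
          _ ≤ (r / y) ^ 2 * (2 * kp (m : ℝ)) := by gcongr
          _ = _ := by ring
      have h9 : 0 ≤ r / |(m : ℝ) * y| := by positivity
      rw [pow_add]
      exact (mul_le_mul (pow_le_pow_left₀ h9 h5 j) h6 (by positivity) (by positivity)).trans_eq
        (by rw [hq]; ring))
  have h4 := h1 y M hy0 t 1 abs_one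
  have h5 := h1 y M hy0 t (-1) (by rw [abs_neg, abs_one])
  simp only [one_mul, neg_mul] at h4 h5
  have h6 : ‖∑ m ∈ Ms M, (y : ℂ) * pw y t * HG g t ((m : ℝ) * y)‖ ≤
      y * (2 * (C1 * hf y * I)) := by
    rw [← mul_sum, hn, sum_Ms_Refl]
    simp only [Int.cast_neg, Int.cast_natCast, neg_mul]
    exact mul_le_mul_of_nonneg_left ((norm_add_le _ _).trans ((add_le_add h4 h5).trans_eq
      (by ring))) hy0.le
  have h7 := (norm_le_norm_add_norm_sub' _ _).trans (add_le_add h6 key)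
  have h8 : hf y * y = √y := by
    rw [hf, one_div_mul_eq_div, Real.div_sqrt]
  have h9 : hf y * y * hf y = 1 := by
    rw [mul_right_comm, ← sq, hf_sq hy0.le, one_div_mul_cancel hy0.ne']
  rw [SZ_eq f hy0, norm_mul, Complex.norm_real, Real.norm_of_nonneg (hf_nonneg _)]
  refine (mul_le_mul_of_nonneg_left h7 (hf_nonneg y)).trans ?_
  have e : hf y * (y * (2 * (C1 * hf y * I)) + (y * (C2 / r ^ j) + 6 * (y * (C3 * (2 * q))))) =
      2 * C1 * I * (hf y * y * hf y) + C2 * (hf y * y / r ^ j) + 12 * C3 * (hf y * y * q) := by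
    ring
  rw [e, h9, h8, mul_assoc (√y), ← hq]
  have p1 : 0 ≤ √y / r ^ j := by positivity
  have p2 : 0 ≤ √y * q := by positivity
  generalize √y / r ^ j = P at p1 ⊢
  generalize √y * q = Q at p2 ⊢
  nlinarith [mul_nonneg hC1.le p1, mul_nonneg hC1.le p2, mul_nonneg hC2.le hI0,
    mul_nonneg hC2.le p2, mul_nonneg hC3.le hI0, mul_nonneg hC3.le p1]

end Pool.Agent.MP_c853c5_nt.R

end

section

/-!
The reflected avatar.
-/

set_option autoImplicit false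

open Finset

namespace Pool.Agent.MP_c853c5_nt.R

open Pool.Agent.MP_2a1f0e_nt Pool.Agent.MP_2a1f0e_nt.GM Pool.Agent.MP_2a1f0e_nt.DH MeasureTheory

theorem sc_stmt : ScStmt := by
  intro f a b hf0 d A hd
  obtain ⟨j, hj⟩ := exists_nat_ge ((A + 3) / d)
  rw [div_le_iff₀ hd] at hj
  obtain ⟨C, hC, h⟩ := pt_stmt f a b hf0 j
  refine ⟨C * (1 + 4 * 2 ^ j), by positivity, fun x y T L M t hy hyx hL hT hM ht1 ht2 => ?_⟩
  have hx : 1 ≤ x := hy.trans hyx
  have hx0 : 0 < x := by linarith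
  have hy0 : 0 < y := by linarith
  have hp : 1 ≤ x ^ d := Real.one_le_rpow hx hd.le
  have hI0 : 0 ≤ ∫ ξ : ℝ, kp ξ * ‖ZZ M (t + ξ)‖ :=
    integral_nonneg fun ξ => mul_nonneg (kp_pos ξ).le (norm_nonneg _)
  have hs : √y ≤ x := (Real.sqrt_le_left hy0.le |>.2 (by nlinarith)).trans hyx
  have hA : 0 < x ^ (-A) := Real.rpow_pos_of_pos hx0 _
  have hk : x ^ 3 ≤ x ^ (-A) * (x ^ d) ^ j := by
    rw [← Real.rpow_natCast, ← Real.rpow_mul_natCast hx0.le, ← Real.rpow_add hx0]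
    exact Real.rpow_le_rpow_of_exponent_le hx (by push_cast; linarith)
  have h1 : √y / (1 + |t|) ^ j ≤ x ^ (-A) := by
    rw [div_le_iff₀ (by positivity)]
    calc √y ≤ x ^ 3 := hs.trans (le_self_pow₀ hx (by norm_num))
      _ ≤ x ^ (-A) * (x ^ d) ^ j := hk
      _ ≤ x ^ (-A) * (1 + |t|) ^ j := by gcongr; linarith
  have h2 : √y * ((1 + |t|) / y) ^ 2 * ((1 + |t|) / (y * (M + 1))) ^ j ≤ 4 * 2 ^ j * x ^ (-A) := by
    have h3 : (1 + |t|) / y ≤ 2 * x := by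
      rw [div_le_iff₀ hy0]
      nlinarith
    have h4 : (1 + |t|) / (y * (M + 1)) ≤ 2 / x ^ d := by
      rw [div_le_div_iff₀ (by positivity) (by positivity)]
      nlinarith
    calc _ ≤ x * (2 * x) ^ 2 * (2 / x ^ d) ^ j := by gcongr
      _ = 4 * 2 ^ j * (x ^ 3 / (x ^ d) ^ j) := by rw [div_pow]; ring
      _ ≤ 4 * 2 ^ j * x ^ (-A) := by
        gcongr
        rw [div_le_iff₀ (by positivity)]
        exact hk
  refine (h y L M t hy hL).trans ?_
  have h5 : (0 : ℝ) ≤ 4 * 2 ^ j := by positivity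
  nlinarith [mul_nonneg (mul_nonneg hC.le h5) hI0, mul_le_mul_of_nonneg_left h1 hC.le,
    mul_le_mul_of_nonneg_left h2 hC.le]

lemma exists_shift {G : ℝ → ℝ} (hi : Integrable fun ξ => kp ξ * G ξ) (h0 : ∀ ξ, 0 ≤ G ξ) :
    ∃ ξ, ∫ ξ, kp ξ * G ξ ≤ 8 * G ξ := by
  by_contra hc
  push Not at hc
  have h1 : ∫ ξ, kp ξ * G ξ ≤ ∫ ξ, kp ξ * ((∫ ξ, kp ξ * G ξ) / 8) :=
    integral_mono hi (integrable_kp.mul_const _) fun ξ =>
      mul_le_mul_of_nonneg_left (by linarith [hc ξ]) (kp_pos ξ).le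
  rw [integral_mul_const, integral_kp] at h1
  have h2 := hc 0
  have h3 := h0 0
  nlinarith [Real.pi_le_four]

theorem av_stmt : AvStmt := by
  intro f a b hf0 d A hd
  obtain ⟨C, hC, h⟩ := sc_stmt f a b hf0 d A hd
  refine ⟨8 * C + 1, by linarith, fun x y T L M hy hyx hL hT hM ι s w u hw hu => ?_⟩
  have hA : 0 < x ^ (-A) := Real.rpow_pos_of_pos (by linarith) _
  have hi : ∀ i ∈ s, Integrable fun ξ => w i * (kp ξ * ‖ZZ M (u i + ξ)‖) := fun i _ =>
    (int_kpZ_Refl M (u i)).const_mul _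
  have e : (fun ξ => kp ξ * ∑ i ∈ s, w i * ‖ZZ M (u i + ξ)‖) =
      fun ξ => ∑ i ∈ s, w i * (kp ξ * ‖ZZ M (u i + ξ)‖) := by
    funext ξ
    rw [mul_sum]
    exact sum_congr rfl fun i _ => by ring
  obtain ⟨ξ, hξ⟩ := exists_shift (G := fun ξ => ∑ i ∈ s, w i * ‖ZZ M (u i + ξ)‖)
    (e ▸ integrable_finsetSum _ hi) fun ξ => sum_nonneg fun i hi' =>
      mul_nonneg (hw i hi') (norm_nonneg _)
  rw [e, integral_finsetSum _ hi] at hξ
  simp only [integral_const_mul] at hξ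
  refine ⟨fun l => ((8 * C : ℝ) : ℂ) * ((hf (l : ℝ) : ℂ) * pw (l : ℝ) ξ), fun l => ?_, ?_⟩
  · rw [norm_mul, norm_mul, norm_pw, mul_one, Complex.norm_real, Complex.norm_real,
      Real.norm_of_nonneg (hf_nonneg _), Real.norm_of_nonneg (by positivity)]
    nlinarith [hf_nonneg (l : ℝ)]
  have e2 : ∀ v, ‖PP M (fun l => ((8 * C : ℝ) : ℂ) * ((hf (l : ℝ) : ℂ) * pw (l : ℝ) ξ)) v‖ =
      8 * C * ‖ZZ M (v + ξ)‖ := fun v => by
    rw [PP_smul, ← PP_add, norm_mul, Complex.norm_real, Real.norm_of_nonneg (by positivity), ZZ]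
  simp only [e2]
  have h1 : ∑ i ∈ s, w i * ‖SZ f y L (u i)‖ ≤
      ∑ i ∈ s, (C * (w i * ∫ ξ, kp ξ * ‖ZZ M (u i + ξ)‖) + C * x ^ (-A) * w i) :=
    sum_le_sum fun i hi' => (mul_le_mul_of_nonneg_left
      (h x y T L M (u i) hy hyx hL hT hM (hu i hi').1 (hu i hi').2) (hw i hi')).trans_eq (by ring)
  rw [sum_add_distrib, ← mul_sum, ← mul_sum] at h1
  have h2 : ∑ i ∈ s, w i * (8 * C * ‖ZZ M (u i + ξ)‖) =
      C * (8 * ∑ i ∈ s, w i * ‖ZZ M (u i + ξ)‖) := by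
    rw [mul_sum, mul_sum]
    exact sum_congr rfl fun i _ => by ring
  have h3 : 0 ≤ ∑ i ∈ s, w i := sum_nonneg hw
  rw [h2]
  nlinarith [mul_le_mul_of_nonneg_left hξ hC.le, mul_nonneg hA.le h3,
    mul_nonneg hC.le (mul_nonneg hA.le h3)]

end Pool.Agent.MP_c853c5_nt.R

end

section

set_option autoImplicit false

open Finset Filter

namespace Pool.Agent.MP_c853c5_nt.E

open Pool.Agent.MP_2a1f0e_nt Pool.Agent.MP_2a1f0e_nt.GM Pool.Agent.MP_2a1f0e_nt.DH MeasureTheory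

lemma ZS_eq_Av {y : ℝ} (hy : 5 ≤ y) (t : ℝ) :
    ZS y t = (√y : ℝ) * R.SZ (fun x => om x * √x) y (2 * ⌊y⌋₊) t := by
  have hy0 : 0 < y := by linarith
  rw [ZS, FP, R.SZ, PP, mul_sum]
  have hs : Ioc ⌊y⌋₊ (2 * ⌊y⌋₊) ⊆ Icc 1 (2 * ⌊y⌋₊) := fun l hl => by
    rw [mem_Ioc] at hl
    exact mem_Icc.2 ⟨by omega, hl.2⟩
  rw [sum_subset hs fun l _ hl => by
    have h : oc y l = 0 := by
      by_contra h
      exact hl (mem_of_oc_ne_zero hy h)
    rw [h, Complex.ofReal_zero, zero_mul]]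
  refine sum_congr rfl fun l hl => ?_
  have hl0 : (0 : ℝ) < l := by exact_mod_cast (mem_Icc.1 hl).1
  have e : oc y l = √y * (om ((l : ℝ) / y) * √((l : ℝ) / y) * hf (l : ℝ)) := by
    have h1 := Real.sqrt_pos.2 hl0
    have h2 := Real.sqrt_pos.2 hy0
    rw [oc, hf, Real.sqrt_div hl0.le]
    field_simp
  rw [e]
  push_cast
  ring

/-- moments of an average -/
lemma mom_Av (L m : ℕ) (hm : 1 ≤ m) (t : ℝ) :
    Integrable (fun ξ : ℝ => kp ξ * ‖ZZ L (t + ξ)‖ ^ m) ∧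
    4 * ((∫ ξ : ℝ, kp ξ * ‖ZZ L (t + ξ)‖) / 8) ^ m ≤ ∫ ξ : ℝ, kp ξ * ‖ZZ L (t + ξ)‖ ^ m := by
  have hi : Integrable (fun ξ : ℝ => kp ξ * ‖ZZ L (t + ξ)‖ ^ m) :=
    integrable_kp.mul_bdd (c := (L : ℝ) ^ m)
      (((continuous_ZZ L).comp (continuous_const.add continuous_id)).norm.pow
        m).aestronglyMeasurable
      (Eventually.of_forall fun _ => by
        rw [norm_pow, norm_norm]
        exact pow_le_pow_left₀ (norm_nonneg _) (norm_ZZ_le L _) m)
  refine ⟨hi, ?_⟩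
  obtain ⟨n, rfl⟩ : ∃ n, m = n + 1 := ⟨m - 1, by omega⟩
  set I := ∫ ξ : ℝ, kp ξ * ‖ZZ L (t + ξ)‖ with hI
  have hI0 : 0 ≤ I := integral_nonneg fun ξ => mul_nonneg (kp_pos ξ).le (norm_nonneg _)
  have h1 : ∫ ξ : ℝ, (I / 8) ^ n * (kp ξ * ‖ZZ L (t + ξ)‖) ≤
      ∫ ξ : ℝ, (kp ξ * (I / 8) ^ (n + 1) + kp ξ * ‖ZZ L (t + ξ)‖ ^ (n + 1)) := by
    refine integral_mono ((int_kpZ_Refl L t).const_mul _) ((integrable_kp.mul_const _).add hi)
      fun ξ => ?_
    have h2 : (I / 8) ^ n * ‖ZZ L (t + ξ)‖ ≤ (I / 8) ^ (n + 1) + ‖ZZ L (t + ξ)‖ ^ (n + 1) := by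
      rcases le_total (I / 8) ‖ZZ L (t + ξ)‖ with h | h
      · refine le_add_of_nonneg_of_le (by positivity) ?_
        rw [pow_succ]
        gcongr
      · refine le_add_of_le_of_nonneg ?_ (by positivity)
        rw [pow_succ]
        gcongr
    have h3 := mul_le_mul_of_nonneg_left h2 (kp_pos ξ).le
    dsimp only
    linarith
  rw [integral_const_mul, integral_add (integrable_kp.mul_const _) hi, integral_mul_const,
    integral_kp, ← hI] at h1
  have h4 : 0 ≤ (I / 8) ^ (n + 1) := by positivity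
  have h5 : (I / 8) ^ n * I = 8 * (I / 8) ^ (n + 1) := by ring
  nlinarith [Real.pi_le_four]

/-- an average of shifted zeta sums plus a constant is dominated -/
lemma dom_Av (S : Finset ℤ) {L : ℕ} (hL : 1 ≤ L) (u : ℝ) {E : ℝ} (hE : 8 ≤ E) :
    Dom S (fun m => (∫ ξ : ℝ, kp ξ * ‖ZZ L (u + m + ξ)‖) + E) L (2 * (4 * E)) := by
  refine Dom.of_sup (by linarith) fun w m B hm hw hB => ?_
  have h1 : ∑ t ∈ S, w t ≤ B := by
    simpa [NP_one hL] using hB (fun n => if n = 1 then 1 else 0) fun n => by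
      split_ifs <;> simp
  have h2 : ∑ t ∈ S, w t * ∫ ξ : ℝ, kp ξ * ‖ZZ L (u + t + ξ)‖ ^ m ≤ Real.pi * B := by
    simp only [← integral_const_mul]
    have hi : ∀ t ∈ S, Integrable fun ξ : ℝ => w t * (kp ξ * ‖ZZ L (u + t + ξ)‖ ^ m) :=
      fun t _ => (mom_Av L m hm (u + t)).1.const_mul _
    rw [← integral_finsetSum _ hi, ← integral_kp, ← integral_mul_const]
    refine integral_mono (integrable_finsetSum _ hi) (integrable_kp.mul_const _) fun ξ => ?_
    have h3 := hB (fun n => 1 * pw (n : ℝ) (u + ξ)) fun n => by rw [one_mul, norm_pw]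
    refine le_trans (le_of_eq ?_) (mul_le_mul_of_nonneg_left h3 (kp_pos ξ).le)
    rw [mul_sum]
    refine sum_congr rfl fun t _ => ?_
    rw [← NP_add, ← ZZ_eq_NP, show (t : ℝ) + (u + ξ) = u + t + ξ by ring]
    ring
  have hB0 : 0 ≤ B := (sum_nonneg hw).trans h1
  have h3 : ∀ t ∈ S, w t * ((∫ ξ : ℝ, kp ξ * ‖ZZ L (u + t + ξ)‖) + E) ^ m ≤
      (2 * E) ^ m * (w t * (∫ ξ : ℝ, kp ξ * ‖ZZ L (u + t + ξ)‖ ^ m) / 4 + w t) := fun t ht => by
    have h4 := (mom_Av L m hm (u + t)).2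
    have hI0 : 0 ≤ ∫ ξ : ℝ, kp ξ * ‖ZZ L (u + t + ξ)‖ :=
      integral_nonneg fun ξ => mul_nonneg (kp_pos ξ).le (norm_nonneg _)
    generalize (∫ ξ : ℝ, kp ξ * ‖ZZ L (u + t + ξ)‖) = I at h4 hI0 ⊢
    generalize (∫ ξ : ℝ, kp ξ * ‖ZZ L (u + t + ξ)‖ ^ m) = J at h4 ⊢
    have h5 : (I + E) ^ m ≤ (2 * E) ^ m * ((I / 8) ^ m + 1) := by
      rcases le_total (I / 8) 1 with h | h
      · refine (pow_le_pow_left₀ (by positivity) (show I + E ≤ 2 * E by linarith) m).trans ?_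
        exact le_mul_of_one_le_right (by positivity) (le_add_of_nonneg_left (by positivity))
      · refine (pow_le_pow_left₀ (by positivity)
          (show I + E ≤ 2 * E * (I / 8) by nlinarith) m).trans ?_
        rw [mul_pow]
        gcongr
        linarith
    have h6 : (0 : ℝ) ≤ (2 * E) ^ m := by positivity
    calc w t * (I + E) ^ m ≤ w t * ((2 * E) ^ m * (J / 4 + 1)) :=
          mul_le_mul_of_nonneg_left (h5.trans (mul_le_mul_of_nonneg_left (by linarith) h6))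
            (hw t ht)
      _ = _ := by ring
  refine (sum_le_sum h3).trans ?_
  rw [← mul_sum, sum_add_distrib, ← sum_div]
  have h7 : 2 * (2 * E) ^ m ≤ (4 * E) ^ m := by
    rw [show 4 * E = 2 * (2 * E) by ring, mul_pow 2 (2 * E)]
    gcongr
    exact le_self_pow₀ one_le_two (by omega)
  have h8 : (0 : ℝ) ≤ (2 * E) ^ m := by positivity
  have h9 := mul_le_mul_of_nonneg_right Real.pi_le_four hB0
  nlinarith [mul_le_mul_of_nonneg_right h7 hB0, mul_le_mul_of_nonneg_left (h2.trans h9) h8,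
    mul_le_mul_of_nonneg_left h1 h8]

lemma self_Av (S : Finset ℤ) {y : ℝ} (hy : 5 ≤ y) (u : ℝ) :
    Dom S (fun m => ‖ZS y (u + m)‖ / √y) (2 * ⌊y⌋₊) 2 := by
  intro w m hw
  have hy0 : 0 < y := by linarith
  have hs := Real.sqrt_pos.2 hy0
  refine ⟨fun n => ((om ((n : ℝ) / y) * √((n : ℝ) / y) / 2 : ℝ) : ℂ) * pw (n : ℝ) u,
    fun n => ?_, le_of_eq ?_⟩
  · rw [norm_mul, norm_pw, mul_one, Complex.norm_real, Real.norm_eq_abs]
    by_cases h : oc y n = 0
    · rw [oc] at h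
      simp [h]
    have h1 := (oc_ne_zero hy0 h).2
    have h2 : √((n : ℝ) / y) ≤ 2 := by
      rw [Real.sqrt_le_left (by norm_num), div_le_iff₀ hy0]
      linarith
    have h3 : |om ((n : ℝ) / y)| ≤ 1 := abs_oc_le y n
    rw [abs_div, abs_mul, abs_of_nonneg (Real.sqrt_nonneg _), abs_two]
    nlinarith [abs_nonneg (om ((n : ℝ) / y)), Real.sqrt_nonneg ((n : ℝ) / y)]
  rw [mul_sum]
  refine sum_congr rfl fun t _ => ?_
  have e : R.SZ (fun x => om x * √x) y (2 * ⌊y⌋₊) (u + t) = (2 : ℂ) * NP (2 * ⌊y⌋₊)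
      (fun n => ((om ((n : ℝ) / y) * √((n : ℝ) / y) / 2 : ℝ) : ℂ) * pw (n : ℝ) u) t := by
    rw [← NP_add, add_comm (t : ℝ), NP, ← PP_smul, R.SZ]
    congr 1
    funext l
    push_cast
    ring
  dsimp only
  rw [ZS_eq_Av hy, e, norm_mul, norm_mul, Complex.norm_real, Real.norm_of_nonneg hs.le,
    mul_div_cancel_left₀ _ hs.ne', Complex.norm_two, mul_pow]
  ring

theorem av_stmt : AvStmt := by
  intro δ γ hδ hγ
  have hd : 0 < min δ (γ / 4) / 2 := by positivity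
  obtain ⟨C, hC, h⟩ := R.sc_stmt _ _ _
    (R.sup_om.mul (g := fun x => √x) fun _ hx => Real.contDiffAt_sqrt hx.ne') _ 0 hd
  filter_upwards [eventually_ge_atTop (8 : ℝ), ev_log_le 2 3 (half_pos hγ), ev_log_le 1 3 one_pos,
    ev_const_le 2 (half_pos hγ), ev_const_le (C * 64) hγ, ev_le_log 1]
    with x hx e1 e2 e3 e4 e5 τ a y hτ hτ' hy hyx h1 h2
  have hx0 : 0 < x := by linarith
  have hx1 : 1 ≤ x := by linarith
  have hy0 : 0 < y := by linarith
  have h3 := Nat.floor_le hy0.le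
  have h4 := Nat.lt_floor_add_one y
  have h5 : 5 ≤ ⌊y⌋₊ := Nat.le_floor (by exact_mod_cast hy)
  have h6 : (5 : ℝ) ≤ ⌊y⌋₊ := by exact_mod_cast h5
  have e6 : x ^ (γ / 2) ≤ x ^ γ := Real.rpow_le_rpow_of_exponent_le hx1 (by linarith)
  rcases le_total a (τ - a) with ha | ha
  · refine ⟨2 * ⌊y⌋₊, by omega, ?_, fun u S _ => (self_Av S hy u).mono (lam := 1) (by norm_num)
      zero_le_one (by linarith) fun m _ => ⟨by positivity, (one_mul _).ge⟩⟩
    have h7 : a ≤ av τ a := le_max_of_le_right (le_min le_rfl ha)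
    calc ((2 * ⌊y⌋₊ : ℕ) : ℝ) ≤ x ^ (γ / 2) * x ^ (a + γ / 4) := by
          push_cast
          exact mul_le_mul e3 (h3.trans h2) (by positivity) (by positivity)
      _ ≤ _ := by
          rw [← Real.rpow_add hx0]
          exact Real.rpow_le_rpow_of_exponent_le hx1 (by linarith)
  set T := x ^ τ * Real.log x ^ 3 with hT
  have hT0 : 0 < T := by positivity
  have hq : 0 < T * x ^ (γ / 4) / y := by positivity
  refine ⟨⌈T * x ^ (γ / 4) / y⌉₊, Nat.ceil_pos.2 hq, ?_, fun u S hS => ?_⟩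
  · have h7 : τ - a ≤ av τ a := le_max_of_le_right (le_min ha le_rfl)
    have h8 : 2 * (T * x ^ (γ / 4) / y) ≤ x ^ (av τ a + γ) := by
      rw [← mul_div_assoc, div_le_iff₀ hy0]
      calc 2 * (T * x ^ (γ / 4)) = 2 * Real.log x ^ 3 * (x ^ τ * x ^ (γ / 4)) := by ring
        _ ≤ x ^ (γ / 2) * (x ^ τ * x ^ (γ / 4)) := by gcongr
        _ ≤ x ^ (av τ a + γ) * x ^ (a - γ / 4) := by
          rw [← Real.rpow_add hx0, ← Real.rpow_add hx0, ← Real.rpow_add hx0]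
          exact Real.rpow_le_rpow_of_exponent_le hx1 (by linarith)
        _ ≤ _ := by gcongr
    have h9 : x ^ (γ / 2) ≤ x ^ (av τ a + γ) :=
      Real.rpow_le_rpow_of_exponent_le hx1 (by linarith [av_nonneg τ a])
    linarith [Nat.ceil_lt_add_one hq.le]
  have e7 : (x ^ 2) ^ (min δ (γ / 4) / 2) = x ^ min δ (γ / 4) := by
    rw [← Real.rpow_natCast, ← Real.rpow_mul hx0.le]
    congr 1
    push_cast
    ring
  refine (dom_Av S (Nat.ceil_pos.2 hq) u le_rfl).mono (by norm_num) hC.le (by linarith)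
    fun m hm => ⟨by positivity, ?_⟩
  have hs := Real.sqrt_pos.2 hy0
  have h7 := h (x ^ 2) y T (2 * ⌊y⌋₊) ⌈T * x ^ (γ / 4) / y⌉₊ (u + m) (by linarith) (by nlinarith)
    (by push_cast; linarith)
    (by
      have h8 : x ^ τ ≤ x ^ (1 : ℝ) := Real.rpow_le_rpow_of_exponent_le hx1 (by linarith)
      rw [Real.rpow_one] at h8 e2
      rw [hT, sq]
      exact mul_le_mul h8 (by linarith) (by positivity) hx0.le)
    (by
      have h8 := Nat.le_ceil (T * x ^ (γ / 4) / y)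
      rw [div_le_iff₀ hy0] at h8
      have h9 : x ^ min δ (γ / 4) ≤ x ^ (γ / 4) :=
        Real.rpow_le_rpow_of_exponent_le hx1 (min_le_right _ _)
      rw [e7]
      nlinarith)
    (e7 ▸ (Real.rpow_le_rpow_of_exponent_le hx1 (min_le_left _ _)).trans (hS m hm).1)
    (hS m hm).2
  rw [neg_zero, Real.rpow_zero] at h7
  rw [ZS_eq_Av hy, norm_mul, Complex.norm_real, Real.norm_of_nonneg hs.le,
    mul_div_cancel_left₀ _ hs.ne']
  linarith

end Pool.Agent.MP_c853c5_nt.E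

end

section

/-!
Reflection with a weighted dual sum.
-/

set_option autoImplicit false

open Finset

namespace Pool.Agent.MP_c853c5_nt.R

open Pool.Agent.MP_2a1f0e_nt Pool.Agent.MP_2a1f0e_nt.GM Pool.Agent.MP_2a1f0e_nt.DH MeasureTheory

/-- the weighted zeta sum -/
noncomputable def ZW (M : ℕ) (c : ℕ → ℝ) (t : ℝ) : ℂ :=
  PP M (fun l => ((c l * hf (l : ℝ) : ℝ) : ℂ)) t

lemma norm_PP_neg (M : ℕ) (c : ℕ → ℝ) (u : ℝ) :
    ‖PP M (fun l => (c l : ℂ)) (-u)‖ = ‖PP M (fun l => (c l : ℂ)) u‖ := by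
  rw [← Complex.norm_conj (PP M _ u)]
  unfold PP
  rw [map_sum]
  congr 1
  refine sum_congr rfl fun l _ => ?_
  rw [map_mul, conj_pw, Complex.conj_ofReal]

lemma int_kp_bdd {G : ℝ → ℝ} {B : ℝ} (hG : Continuous G) (hB : ∀ t, |G t| ≤ B) (u : ℝ) :
    Integrable fun ξ : ℝ => kp ξ * G (u + ξ) :=
  integrable_kp.mul_bdd (hG.comp (continuous_const.add continuous_id)).aestronglyMeasurable
    (Filter.Eventually.of_forall fun _ => hB _)

lemma norm_ZW_le (M : ℕ) {c : ℕ → ℝ} (hc : ∀ m, 0 ≤ c m ∧ c m ≤ 1) (t : ℝ) : ‖ZW M c t‖ ≤ M := by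
  have := norm_PP_le (L := M) (c := fun l => ((c l * hf (l : ℝ) : ℝ) : ℂ)) (B := 1) (fun l hl => by
    rw [Complex.norm_real, Real.norm_of_nonneg (mul_nonneg (hc l).1 (hf_nonneg _))]
    exact mul_le_one₀ (hc l).2 (hf_nonneg _) (hf_le_one (by exact_mod_cast (mem_Icc.1 hl).1))) t
  simpa [ZW] using this

lemma int_ZW (M : ℕ) {c : ℕ → ℝ} (hc : ∀ m, 0 ≤ c m ∧ c m ≤ 1) (u : ℝ) :
    Integrable fun ξ : ℝ => kp ξ * ‖ZW M c (u + ξ)‖ :=
  int_kp_bdd (G := fun t => ‖ZW M c t‖) (continuous_PP _ _).norm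
    (fun t => (abs_norm _).trans_le (norm_ZW_le M hc t)) u

lemma sideW {g : ℝ → ℝ} {a b : ℝ} (hg : Sup g a b) : ∃ C : ℝ, 0 < C ∧
    ∀ (y : ℝ) (M : ℕ) (c : ℕ → ℝ), 0 < y → (∀ m, 0 ≤ c m ∧ c m ≤ 1) →
    ∀ u σ : ℝ, |σ| = 1 → ‖∑ m ∈ Icc 1 M, (c m : ℂ) * HG g u (σ * m * y)‖ ≤
      C * hf y * ∫ ξ : ℝ, kp ξ * ‖ZW M c (u + ξ)‖ := by
  obtain ⟨C, hC, φ, hφ, h⟩ := fub hg
  refine ⟨C, hC, fun y M c hy hc u σ hσ => ?_⟩
  have key : ∀ r : ℂ, 0 < r.re → 2 * Real.pi ≤ ‖r‖ →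
      ‖∑ m ∈ Icc 1 M, (c m : ℂ) * Hz g u ((((m : ℝ) * y : ℝ) : ℂ) * r)‖ ≤
        C * hf y * ∫ ξ : ℝ, kp ξ * ‖ZW M c (u + ξ)‖ := by
    intro r h1 h2
    obtain ⟨hi, he⟩ := h u r h1
    have hm : ∀ m ∈ Icc 1 M, (0 : ℝ) < m := fun m hm => by
      exact_mod_cast (mem_Icc.1 hm).1
    have hk : ∀ k : ℝ, Integrable fun ξ : ℝ =>
        φ ξ * GI r (u + ξ) * ((hf k : ℂ) * pw k (-(u + ξ))) := fun k =>
      hi.mul_bdd (c := hf k) (continuous_const.mul ((continuous_pw _).comp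
          (continuous_const.add continuous_id).neg)).aestronglyMeasurable
        (Filter.Eventually.of_forall fun ξ => by
          rw [norm_mul, norm_pw, mul_one, Complex.norm_real, Real.norm_of_nonneg (hf_nonneg _)])
    rw [sum_congr rfl fun (m : ℕ) hm' => by
        rw [he _ (mul_pos (hm m hm') hy), ← integral_const_mul],
      ← integral_finsetSum _ fun (m : ℕ) _ => (hk ((m : ℝ) * y)).const_mul _,
      ← integral_const_mul]
    refine norm_integral_le_of_norm_le ((int_ZW M hc u).const_mul _)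
      (Filter.Eventually.of_forall fun ξ => ?_)
    have e : ∑ m ∈ Icc 1 M, (c m : ℂ) * (φ ξ * GI r (u + ξ) *
        (((hf ((m : ℝ) * y) : ℝ) : ℂ) * pw ((m : ℝ) * y) (-(u + ξ)))) =
        φ ξ * GI r (u + ξ) * ((hf y : ℂ) * pw y (-(u + ξ)) * ZW M c (-(u + ξ))) := by
      rw [ZW, PP, mul_sum, mul_sum]
      refine sum_congr rfl fun m hm' => ?_
      rw [hf_mul (hm m hm').le, pw_mul (hm m hm').ne' hy.ne']
      push_cast
      ring
    rw [e, norm_mul, norm_mul, norm_mul, norm_mul, norm_pw, ZW, norm_PP_neg,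
      Complex.norm_real, Real.norm_of_nonneg (hf_nonneg _), mul_one]
    have h3 : ‖φ ξ‖ * ‖GI r (u + ξ)‖ ≤ C * kp ξ :=
      (mul_le_of_le_one_right (norm_nonneg _) (gam_stmt r _ h1 h2)).trans (hφ ξ)
    exact (mul_le_mul_of_nonneg_right h3 (mul_nonneg (hf_nonneg _) (norm_nonneg _))).trans_eq
      (by rw [ZW]; ring)
  have hW : 0 ≤ |b| * ∫ x, |g x| :=
    mul_nonneg (abs_nonneg _) (integral_nonneg fun x => abs_nonneg _)
  obtain ⟨D, hD, hD0⟩ : ∃ D : ℝ, D = ∑ m ∈ Icc 1 M, (m : ℝ) * y * (|b| * ∫ x, |g x|) ∧ 0 ≤ D :=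
    ⟨_, rfl, sum_nonneg fun m _ => by positivity⟩
  refine le_of_forall_pos_le_add fun ε hε => ?_
  have he : 0 < ε / (D + 1) := by positivity
  have h1 := key (((ε / (D + 1) : ℝ) : ℂ) + ((2 * Real.pi * σ : ℝ) : ℂ) * Complex.I)
    (by
      rw [Complex.add_re, Complex.ofReal_re, Complex.re_ofReal_mul, Complex.I_re, mul_zero, add_zero]
      exact he)
    (by
      refine le_trans (le_of_eq ?_) (Complex.abs_im_le_norm _)
      rw [Complex.add_im, Complex.ofReal_im, Complex.im_ofReal_mul, Complex.I_im, mul_one,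
        zero_add, abs_mul, hσ, mul_one, abs_of_pos (by positivity)])
  refine (norm_le_norm_add_norm_sub' _ _).trans (add_le_add h1 ?_)
  rw [← sum_sub_distrib]
  refine (norm_sum_le _ _).trans ((sum_le_sum
    (g := fun m : ℕ => ε / (D + 1) * ((m : ℝ) * y * (|b| * ∫ x, |g x|))) fun m _ => ?_).trans ?_)
  · have h2 := lim_Hz hg u ((m : ℝ) * y * (ε / (D + 1))) (2 * Real.pi * (σ * m * y))
      (by positivity)
    rw [← mul_sub, norm_mul, Complex.norm_real, Real.norm_of_nonneg (hc m).1, HG_eq]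
    refine (mul_le_of_le_one_left (norm_nonneg _) (hc m).2).trans
      ((le_of_eq ?_).trans (h2.trans_eq (by ring)))
    congr 3
    push_cast
    ring
  · rw [← mul_sum, ← hD, div_mul_eq_mul_div, div_le_iff₀ (by positivity)]
    nlinarith

/-- pointwise reflection with a weighted dual sum -/
theorem pt_w {f : ℝ → ℝ} {a b : ℝ} (hf0 : Sup f a b) (j : ℕ) : ∃ C : ℝ, 0 < C ∧
    ∀ (y : ℝ) (L M M' : ℕ) (c : ℕ → ℝ) (t : ℝ), 1 ≤ y → b * y ≤ L → M ≤ M' →
      (∀ m, 0 ≤ c m ∧ c m ≤ 1) → (∀ m, m ≤ M → c m = 1) →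
      ‖SZ f y L t‖ ≤ C * ((∫ ξ : ℝ, kp ξ * ‖ZW M' c (t + ξ)‖) + √y / (1 + |t|) ^ j +
        √y * ((1 + |t|) / y) ^ 2 * ((1 + |t|) / (y * (M + 1))) ^ j) := by
  have hg := hf0.mul_hf
  obtain ⟨C1, hC1, h1⟩ := sideW hg
  obtain ⟨C2, hC2, h2⟩ := zero_all j _ hg.cl
  obtain ⟨C3, hC3, h3⟩ := decay_Decay (j + 2) _ hg.cl
  refine ⟨2 * C1 + C2 + 12 * C3, by positivity, fun y L M M' c t hy hL hM hc hc1 => ?_⟩
  have hy0 : 0 < y := by linarith
  set g : ℝ → ℝ := fun x => f x * hf x with hgd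
  have hn : ∀ z : ℂ, ‖(y : ℂ) * pw y t * z‖ = y * ‖z‖ := fun z => by
    rw [norm_mul, norm_mul, norm_pw, mul_one, Complex.norm_real, Real.norm_of_nonneg hy0.le]
  set I := ∫ ξ : ℝ, kp ξ * ‖ZW M' c (t + ξ)‖ with hI
  have hI0 : 0 ≤ I := integral_nonneg fun ξ => mul_nonneg (kp_pos ξ).le (norm_nonneg _)
  set r := 1 + |t| with hr
  have hr0 : 0 < r := by positivity
  set q := (r / y) ^ 2 * (r / (y * (M + 1))) ^ j with hq
  have hq0 : 0 ≤ q := by positivity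
  set F : ℤ → ℂ := fun m => (y : ℂ) * pw y t * HG g t ((m : ℝ) * y) with hF
  have hs : HasSum (fun m => if m ∈ Ms M' then (c m.natAbs : ℂ) * F m else 0)
      (∑ m ∈ Ms M', (c m.natAbs : ℂ) * F m) := by
    have h4 : HasSum (fun m => if m ∈ Ms M' then (c m.natAbs : ℂ) * F m else 0)
        (∑ m ∈ Ms M', if m ∈ Ms M' then (c m.natAbs : ℂ) * F m else 0) :=
      hasSum_sum_of_ne_finset_zero fun m hm => if_neg hm
    rwa [sum_congr rfl fun m hm => if_pos hm] at h4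
  have hle : ∀ m, ‖F m - if m ∈ Ms M' then (c m.natAbs : ℂ) * F m else 0‖ ≤ ‖F m‖ := fun m => by
    split_ifs
    · rw [← one_sub_mul, norm_mul, ← Complex.ofReal_one, ← Complex.ofReal_sub, Complex.norm_real,
        Real.norm_of_nonneg (sub_nonneg.2 (hc _).2)]
      exact mul_le_of_le_one_left (norm_nonneg _) (by linarith [(hc m.natAbs).1])
    · rw [sub_zero]
  have key := tail_KOne ((pois hg hy hL t).sub hs) (Ms M) (A := y * (C2 / r ^ j))
    (B := y * (C3 * (2 * q))) (by positivity) (by positivity)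
    ((hle 0).trans (by
      rw [hF]
      dsimp only
      rw [hn, Int.cast_zero, zero_mul]
      exact mul_le_mul_of_nonneg_left (h2 t) hy0.le))
    (fun m hm0 hm => (hle m).trans (by
      have hm1 : (M : ℝ) + 1 ≤ |(m : ℝ)| := by
        have h4 : (M : ℤ) + 1 ≤ |m| := by
          rw [mem_Ms] at hm
          rw [le_abs]
          omega
        exact_mod_cast h4
      have hm2 : (1 : ℝ) ≤ |(m : ℝ)| := by exact_mod_cast Int.one_le_abs hm0
      rw [hF]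
      dsimp only
      rw [hn, mul_assoc, mul_assoc]
      refine mul_le_mul_of_nonneg_left ((h3 _ _ (mul_ne_zero (Int.cast_ne_zero.2 hm0)
        hy0.ne')).trans (mul_le_mul_of_nonneg_left ?_ hC3.le)) hy0.le
      have h5 : r / |(m : ℝ) * y| ≤ r / (y * (M + 1)) := by
        rw [abs_mul, abs_of_pos hy0, mul_comm _ y]
        gcongr
      have h6 : (r / |(m : ℝ) * y|) ^ 2 ≤ 2 * (r / y) ^ 2 * kp (m : ℝ) := by
        have h7 : (1 : ℝ) ≤ (m : ℝ) ^ 2 := by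
          rw [← sq_abs]
          nlinarith
        have h8 : 1 / (m : ℝ) ^ 2 ≤ 2 * kp (m : ℝ) := by
          rw [kp, mul_one_div, div_le_div_iff₀ (by positivity) (by positivity)]
          linarith
        calc (r / |(m : ℝ) * y|) ^ 2 = (r / y) ^ 2 * (1 / (m : ℝ) ^ 2) := by
              rw [div_pow, sq_abs, div_pow]
              field_simp
          _ ≤ (r / y) ^ 2 * (2 * kp (m : ℝ)) := by gcongr
          _ = _ := by ring
      have h9 : 0 ≤ r / |(m : ℝ) * y| := by positivity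
      rw [pow_add]
      exact (mul_le_mul (pow_le_pow_left₀ h9 h5 j) h6 (by positivity) (by positivity)).trans_eq
        (by rw [hq]; ring)))
  have hz : ∑ m ∈ Ms M, (F m - if m ∈ Ms M' then (c m.natAbs : ℂ) * F m else 0) = 0 :=
    sum_eq_zero fun m hm => by
      rw [mem_Ms] at hm
      rw [if_pos (mem_Ms.2 (by omega)), hc1 _ (by omega), Complex.ofReal_one, one_mul, sub_self]
  rw [hz, sub_zero] at key
  have h4 := h1 y M' c hy0 hc t 1 abs_one
  have h5 := h1 y M' c hy0 hc t (-1) (by rw [abs_neg, abs_one])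
  simp only [one_mul, neg_mul] at h4 h5
  have h6 : ‖∑ m ∈ Ms M', (c m.natAbs : ℂ) * F m‖ ≤ y * (2 * (C1 * hf y * I)) := by
    simp only [hF, mul_left_comm (c _ : ℂ)]
    rw [← mul_sum, hn, sum_Ms_Refl]
    simp only [Int.cast_neg, Int.cast_natCast, neg_mul, Int.natAbs_neg, Int.natAbs_natCast]
    exact mul_le_mul_of_nonneg_left ((norm_add_le _ _).trans ((add_le_add h4 h5).trans_eq
      (by ring))) hy0.le
  have h7 := (norm_le_norm_add_norm_sub' _ _).trans (add_le_add h6 key)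
  have h8 : hf y * y = √y := by
    rw [hf, one_div_mul_eq_div, Real.div_sqrt]
  have h9 : hf y * y * hf y = 1 := by
    rw [mul_right_comm, ← sq, hf_sq hy0.le, one_div_mul_cancel hy0.ne']
  rw [SZ_eq f hy0, norm_mul, Complex.norm_real, Real.norm_of_nonneg (hf_nonneg _)]
  refine (mul_le_mul_of_nonneg_left h7 (hf_nonneg y)).trans ?_
  have e : hf y * (y * (2 * (C1 * hf y * I)) + (y * (C2 / r ^ j) + 6 * (y * (C3 * (2 * q))))) =
      2 * C1 * I * (hf y * y * hf y) + C2 * (hf y * y / r ^ j) + 12 * C3 * (hf y * y * q) := by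
    ring
  rw [e, h9, h8, mul_assoc (√y), ← hq]
  have p1 : 0 ≤ √y / r ^ j := by positivity
  have p2 : 0 ≤ √y * q := by positivity
  generalize √y / r ^ j = P at p1 ⊢
  generalize √y * q = Q at p2 ⊢
  nlinarith [mul_nonneg hC1.le p1, mul_nonneg hC1.le p2, mul_nonneg hC2.le hI0,
    mul_nonneg hC2.le p2, mul_nonneg hC3.le hI0, mul_nonneg hC3.le p1]

end Pool.Agent.MP_c853c5_nt.R

end
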