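import Pool.Agent.Mg.C853.G6e22ef

section

set_option autoImplicit false

open Finset MeasureTheory
open scoped ENNReal ComplexConjugate

namespace Pool.Agent.MP_c853c5_nt.W

open Pool.Agent.MP_2a1f0e_nt Pool.Agent.MP_2a1f0e_nt.GM Pool.Agent.MP_2a1f0e_nt.DH

noncomputable def u_Lev1 (Y t : ℝ) (n : ℤ) : ℂ := (om ((n : ℝ) / Y) : ℂ) * pw (n : ℝ) t

noncomputable def Zp_Lev1 (M : ℕ) (A B t : ℝ) : ℂ :=
  ∑ v ∈ (Icc (1 : ℤ) M ×ˢ Icc (1 : ℤ) M).filter (fun v : V => ct v = 1),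
    u_Lev1 A t v.1 * conj (u_Lev1 B t v.2)

noncomputable def G_Lev1 (M m : ℕ) (Y t : ℝ) : ℂ :=
  ∑ n ∈ Icc (1 : ℤ) M, iC ((m : ℤ) ∣ n) * u_Lev1 Y t n

lemma cont_u_Lev1 (Y : ℝ) (n : ℤ) : Continuous fun t => u_Lev1 Y t n :=
  continuous_const.mul (continuous_pw _)

lemma cont_Zo_Lev1 (Y : ℝ) : Continuous (Zo Y) :=
  continuous_finsetSum _ fun _ _ => continuous_const.mul (continuous_pw _)

lemma G_eq_Lev1 {M m : ℕ} {Y : ℝ} (t : ℝ) (hm : 1 ≤ m) (hY : 0 < Y) (hM : 2 * Y ≤ M) :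
    G_Lev1 M m Y t = pw (m : ℝ) t * Zo (Y / m) t := by
  have hm' : (0 : ℝ) < m := by exact_mod_cast hm
  rw [Zo, mul_sum, G_Lev1]
  symm
  refine sum_of_injOn (fun k : ℕ => (m : ℤ) * k) ?_ ?_ ?_ ?_
  · intro k _ k' _ h
    have h1 : (m : ℤ) ≠ 0 := by exact_mod_cast (by omega : m ≠ 0)
    exact_mod_cast mul_left_cancel₀ h1 h
  · intro k hk
    rw [mem_coe, mem_Icc] at hk ⊢
    beta_reduce
    have h1 : (k : ℝ) ≤ 2 * (Y / m) := (Nat.le_floor_iff (by positivity)).1 hk.2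
    rw [← mul_div_assoc, le_div_iff₀ hm'] at h1
    have h2 : ((m * k : ℕ) : ℝ) ≤ M := by push_cast; linarith
    have h3 : m * k ≤ M := by exact_mod_cast h2
    have h4 : 1 ≤ m * k := Nat.mul_pos hm hk.1
    exact ⟨by exact_mod_cast h4, by exact_mod_cast h3⟩
  · intro n hn hn'
    by_contra h0
    obtain ⟨k, rfl⟩ := iC_ne_zero (left_ne_zero_of_mul h0)
    have h1 := om_mem (Complex.ofReal_ne_zero.1 (left_ne_zero_of_mul (right_ne_zero_of_mul h0)))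
    rw [lt_div_iff₀ hY, div_lt_iff₀ hY] at h1
    push_cast at h1
    have h2 : (0 : ℝ) < k := by
      by_contra hk
      nlinarith [h1.1, not_lt.1 hk]
    have h3 : 0 < k := by exact_mod_cast h2
    lift k to ℕ using h3.le
    refine hn' ⟨k, ?_, rfl⟩
    rw [mem_coe, mem_Icc]
    refine ⟨by exact_mod_cast h3, Nat.le_floor ?_⟩
    rw [← mul_div_assoc, le_div_iff₀ hm']
    push_cast at h1
    linarith [h1.2]
  · intro k hk
    have h1 : (0 : ℝ) < k := by exact_mod_cast (mem_Icc.1 hk).1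
    rw [iC_pos (dvd_mul_right _ _), one_mul, u_Lev1]
    push_cast
    rw [pw_mul hm'.ne' h1.ne', show (k : ℝ) / (Y / m) = m * k / Y by field_simp]
    ring

lemma mob_Lev1 {M : ℕ} {v : V} (hv : v ∈ Icc (1 : ℤ) M ×ˢ Icc (1 : ℤ) M) :
    iC (ct v = 1) = ∑ m ∈ Icc 1 M, ((ArithmeticFunction.moebius m : ℤ) : ℂ) *
      (iC ((m : ℤ) ∣ v.1) * iC ((m : ℤ) ∣ v.2)) := by
  rw [mem_product, mem_Icc, mem_Icc] at hv
  have h0 : ct v ≠ 0 := fun h => by
    have := (Int.gcd_eq_zero_iff.1 h).1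
    omega
  have h1 : ct v ≤ M := by
    have := Int.le_of_dvd (by omega) (ct_dvd_one v)
    omega
  have h2 : ∑ m ∈ (ct v).divisors, ArithmeticFunction.moebius m = if ct v = 1 then 1 else 0 := by
    rw [← ArithmeticFunction.coe_mul_zeta_apply, ArithmeticFunction.moebius_mul_coe_zeta,
      ArithmeticFunction.one_apply]
  have h3 : iC (ct v = 1) = ∑ m ∈ (ct v).divisors, ((ArithmeticFunction.moebius m : ℤ) : ℂ) := by
    rw [← Int.cast_sum, h2]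
    by_cases h : ct v = 1
    · rw [iC_pos h, if_pos h, Int.cast_one]
    · rw [iC_neg h, if_neg h, Int.cast_zero]
  have h4 : ∀ m : ℕ, ((m : ℤ) ∣ v.1 ∧ (m : ℤ) ∣ v.2) ↔ m ∣ ct v := fun m =>
    ⟨fun h => Int.dvd_gcd h.1 h.2, fun h =>
      ⟨(Int.natCast_dvd_natCast.2 h).trans (ct_dvd_one v),
        (Int.natCast_dvd_natCast.2 h).trans (ct_dvd_two v)⟩⟩
  rw [h3]
  refine sum_subset_zero_on_sdiff ?_ ?_ ?_
  · intro m hm
    exact mem_Icc.2 ⟨Nat.pos_of_mem_divisors hm, (Nat.divisor_le hm).trans h1⟩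
  · intro m hm
    rw [← iC_and, iC_neg, mul_zero]
    rw [h4]
    exact fun h => (mem_sdiff.1 hm).2 (Nat.mem_divisors.2 ⟨h, h0⟩)
  · intro m hm
    rw [← iC_and, iC_pos ((h4 m).2 (Nat.dvd_of_mem_divisors hm)), mul_one]

lemma Zp_eq_Lev1 (M : ℕ) (A B t : ℝ) : Zp_Lev1 M A B t =
    ∑ m ∈ Icc 1 M, ((ArithmeticFunction.moebius m : ℤ) : ℂ) *
      (G_Lev1 M m A t * conj (G_Lev1 M m B t)) := by
  have h1 : Zp_Lev1 M A B t = ∑ v ∈ Icc (1 : ℤ) M ×ˢ Icc (1 : ℤ) M,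
      iC (ct v = 1) * (u_Lev1 A t v.1 * conj (u_Lev1 B t v.2)) := by
    rw [Zp_Lev1, sum_filter]
    refine sum_congr rfl fun v _ => ?_
    by_cases h : ct v = 1
    · rw [iC_pos h, if_pos h, one_mul]
    · rw [iC_neg h, if_neg h, zero_mul]
  rw [h1, sum_congr rfl fun v hv => by rw [mob_Lev1 hv, sum_mul], sum_comm]
  refine sum_congr rfl fun m _ => ?_
  simp only [G_Lev1, map_sum, map_mul, conj_iC]
  rw [sum_mul_sum, ← sum_product', mul_sum]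
  exact sum_congr rfl fun v _ => by ring

lemma norm_Zp_Lev1 {M : ℕ} {A B : ℝ} (t : ℝ) (hA : 0 < A) (hB : 0 < B) (hA' : 2 * A ≤ M)
    (hB' : 2 * B ≤ M) :
    ‖Zp_Lev1 M A B t‖ ≤ ∑ m ∈ Icc 1 M, ‖Zo (A / m) t‖ * ‖Zo (B / m) t‖ := by
  rw [Zp_eq_Lev1]
  refine (norm_sum_le _ _).trans (sum_le_sum fun m hm => ?_)
  have hm1 := (mem_Icc.1 hm).1
  rw [G_eq_Lev1 t hm1 hA hA', G_eq_Lev1 t hm1 hB hB', norm_mul, norm_mul, Complex.norm_conj,
    norm_mul, norm_mul, norm_pw, one_mul, one_mul]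
  refine mul_le_of_le_one_left (by positivity) ?_
  rw [Complex.norm_intCast]
  exact_mod_cast ArithmeticFunction.abs_moebius_le_one

lemma Gw_eq_Lev1 (T y : ℝ) (a b e f : ℕ) {P : Pr} (h1 : 1 ≤ P.1.1) (h2 : 1 ≤ P.1.2)
    (h3 : 1 ≤ P.2.1) (h4 : 1 ≤ P.2.2) :
    Gw T y a b e f P = ∫ s : ℝ, (Wt s : ℂ) *
      ((u_Lev1 (a * y / e) (s * T) P.1.1 * conj (u_Lev1 (b * y / e) (s * T) P.1.2)) *
        conj (u_Lev1 (y / f) (s * T) P.2.1 * conj (u_Lev1 (y / f) (s * T) P.2.2))) := by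
  have k : ∀ n : ℤ, 1 ≤ n → (n : ℝ) ≠ 0 := fun n hn => by exact_mod_cast (by omega : n ≠ 0)
  have d : ∀ p q r : ℝ, p / (q / r) = r * p / q := fun p q r => by
    rw [div_div_eq_mul_div, mul_comm]
  rw [Gw, wh, ← integral_const_mul]
  refine integral_congr_ae (Filter.Eventually.of_forall fun s => ?_)
  have e1 : Complex.exp (Complex.I * (s : ℂ) *
      ((T * Real.log (((P.1.1 : ℝ) * P.2.2) / ((P.1.2 : ℝ) * P.2.1)) : ℝ) : ℂ)) =
      pw (((P.1.1 : ℝ) * P.2.2) / ((P.1.2 : ℝ) * P.2.1)) (s * T) := by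
    rw [pw]; congr 1; push_cast; ring
  beta_reduce
  rw [e1, div_eq_mul_inv ((P.1.1 : ℝ) * P.2.2), pw_mul (mul_ne_zero (k _ h1) (k _ h4))
    (inv_ne_zero (mul_ne_zero (k _ h2) (k _ h3))), pw_inv, pw_mul (k _ h1) (k _ h4),
    pw_mul (k _ h2) (k _ h3)]
  simp only [u_Lev1, map_mul, Complex.conj_ofReal, conj_pw, neg_neg, d]
  push_cast
  ring

lemma TS_eq_Lev1 (T y : ℝ) (a b e f M : ℕ) : (TS T y a b e f M fun _ => 1) =
    ∫ s : ℝ, (Wt s : ℂ) * (Zp_Lev1 M (a * y / e) (b * y / e) (s * T) *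
      conj (Zp_Lev1 M (y / f) (y / f) (s * T))) := by
  have hW : HasCompactSupport fun s : ℝ => (Wt s : ℂ) :=
    hasCompactSupport_Wt.comp_left Complex.ofReal_zero
  have hc : ∀ (Y : ℝ) (n : ℤ), Continuous fun s : ℝ => u_Lev1 Y (s * T) n := fun Y n =>
    (cont_u_Lev1 Y n).comp (continuous_id.mul continuous_const)
  rw [TS, sum_congr rfl fun P hP => by
    have h := (mem_filter.1 hP).1
    simp only [mem_product, mem_Icc] at h
    rw [mul_one, Gw_eq_Lev1 T y a b e f h.1.1.1 h.1.2.1 h.2.1.1 h.2.2.1],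
    ← integral_finsetSum]
  swap
  · exact fun P _ => Continuous.integrable_of_hasCompactSupport
      ((Complex.continuous_ofReal.comp continuous_Wt).mul
        (((hc _ _).mul (Complex.continuous_conj.comp (hc _ _))).mul
          (Complex.continuous_conj.comp ((hc _ _).mul (Complex.continuous_conj.comp (hc _ _))))))
      hW.mul_right
  refine integral_congr_ae (Filter.Eventually.of_forall fun s => ?_)
  beta_reduce
  rw [← mul_sum, Zp_Lev1, Zp_Lev1, map_sum, sum_mul_sum, ← sum_product', Bx,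
    filter_product (fun v : V => ct v = 1) fun v : V => ct v = 1]

lemma pair_Lev1 {p q K L c A B : ℝ} (hpq : p ≤ q) (hL : 0 < L) (hc : 0 < c)
    (h1 : ∫ t in p..q, ‖Zo A t‖ ^ 4 ≤ K * L ^ 2) (h2 : ∫ t in p..q, ‖Zo B t‖ ^ 4 ≤ K * L ^ 2)
    (h3 : ∫ t in p..q, ‖Zo c t‖ ^ 4 ≤ K * c ^ 2) :
    ∫ t in p..q, ‖Zo A t‖ * ‖Zo B t‖ * (‖Zo c t‖ * ‖Zo c t‖) ≤ K * (L * c) := by
  have i4 : ∀ Y : ℝ, IntervalIntegrable (fun t => ‖Zo Y t‖ ^ 4) volume p q := fun Y =>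
    ((cont_Zo_Lev1 Y).norm.pow 4).intervalIntegrable _ _
  have hw : 0 < c / L := div_pos hc hL
  have hw' : 0 < L / c := div_pos hL hc
  have hww : c / L * (L / c) = 1 := by field_simp
  calc _ ≤ ∫ t in p..q, (c / L / 4 * ‖Zo A t‖ ^ 4 + c / L / 4 * ‖Zo B t‖ ^ 4 +
        L / c / 2 * ‖Zo c t‖ ^ 4) := by
        refine intervalIntegral.integral_mono_on hpq
          ((((cont_Zo_Lev1 A).norm.mul (cont_Zo_Lev1 B).norm).mul
            ((cont_Zo_Lev1 c).norm.mul (cont_Zo_Lev1 c).norm)).intervalIntegrable _ _)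
          ((((i4 A).const_mul _).add ((i4 B).const_mul _)).add ((i4 c).const_mul _))
          fun t _ => ?_
        generalize ‖Zo A t‖ = x₁
        generalize ‖Zo B t‖ = x₂
        generalize ‖Zo c t‖ = x₃
        generalize c / L = w at hw hww
        generalize L / c = w' at hw' hww
        have k1 : w' * (w * (x₁ * x₂) - x₃ ^ 2) ^ 2 =
            w * (x₁ * x₂) ^ 2 - 2 * (x₁ * x₂ * (x₃ * x₃)) + w' * x₃ ^ 4 := by
          linear_combination (w * (x₁ * x₂) ^ 2 - 2 * (x₁ * x₂ * (x₃ * x₃))) * hww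
        have k2 := mul_nonneg hw'.le (sq_nonneg (w * (x₁ * x₂) - x₃ ^ 2))
        have k3 := mul_nonneg hw.le (sq_nonneg (x₁ ^ 2 - x₂ ^ 2))
        linarith
    _ = c / L / 4 * (∫ t in p..q, ‖Zo A t‖ ^ 4) + c / L / 4 * (∫ t in p..q, ‖Zo B t‖ ^ 4) +
        L / c / 2 * ∫ t in p..q, ‖Zo c t‖ ^ 4 := by
        rw [intervalIntegral.integral_add (((i4 A).const_mul _).add ((i4 B).const_mul _))
          ((i4 c).const_mul _), intervalIntegral.integral_add ((i4 A).const_mul _)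
          ((i4 B).const_mul _), intervalIntegral.integral_const_mul,
          intervalIntegral.integral_const_mul, intervalIntegral.integral_const_mul]
    _ ≤ c / L / 4 * (K * L ^ 2) + c / L / 4 * (K * L ^ 2) + L / c / 2 * (K * c ^ 2) := by gcongr
    _ = K * (L * c) := by field_simp; ring

theorem lev1_stmt (hM : M4Stmt) : Lev1Stmt := by
  intro ε hε
  obtain ⟨C, hC, h4⟩ := hM (ε / 2) (half_pos hε)
  obtain ⟨D, hD, hd⟩ := exD 2 2 20 (half_pos hε)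
  refine ⟨8 * C * D, by positivity, ?_⟩
  intro T y N M a b e f hR ha hb he hf
  obtain ⟨hT, hy, hyT, hN, hNT, hNM, hMT⟩ := hR
  obtain ⟨X, Δ, hX, hXT, hΔ⟩ := hd T hT
  have hMX : M ≤ X := by exact_mod_cast hMT.trans hXT
  have hH := harm_le hX hMX
  have hT0 : 0 < T := by linarith
  have hN' : (1 : ℝ) ≤ N := by exact_mod_cast hN
  have he' : (1 : ℝ) ≤ e := by exact_mod_cast he
  have hf' : (1 : ℝ) ≤ f := by exact_mod_cast hf
  have hab : ∀ a : ℕ, a ∈ Icc N (2 * N) → 0 < a * y / e ∧ a * y / e ≤ 2 * (N * y / e) :=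
    fun a ha => by
      have h1 : (N : ℝ) ≤ a := by exact_mod_cast (mem_Icc.1 ha).1
      have h2 : (a : ℝ) ≤ 2 * N := by exact_mod_cast (mem_Icc.1 ha).2
      have h3 : (0 : ℝ) < a := by linarith
      refine ⟨by positivity, ?_⟩
      rw [← mul_div_assoc, ← mul_assoc]
      gcongr
  obtain ⟨hA, hA'⟩ := hab a ha
  obtain ⟨hB, hB'⟩ := hab b hb
  have hL : N * y / e ≤ N * y := div_le_self (by positivity) he'
  have hL0 : 0 < N * y / e := by positivity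
  have hc : y / f ≤ y := div_le_self hy.le hf'
  have hc0 : 0 < y / f := by positivity
  have hNy : N * y ≤ 4 * T ^ 2 := by nlinarith
  have hyN : y ≤ N * y := le_mul_of_one_le_left hy.le hN'
  rw [TS_eq_Lev1]
  generalize a * y / e = A at hA hA' ⊢
  generalize b * y / e = B at hB hB' ⊢
  generalize N * y / e = L at hA' hB' hL hL0 ⊢
  generalize y / f = c at hc hc0 ⊢
  have hK : 0 ≤ C * T ^ (ε / 2) * T := by positivity
  have h5 : ∀ (Y Z : ℝ) (m : ℕ), 1 ≤ m → 0 < Y → Y ≤ Z → Z ≤ 2 * (N * y) →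
      ∫ t in (T / 2)..(3 * T), ‖Zo (Y / m) t‖ ^ 4 ≤ C * T ^ (ε / 2) * T * (Z / m) ^ 2 :=
    fun Y Z m hm hY hYZ hZ => by
      have hm' : (1 : ℝ) ≤ m := by exact_mod_cast hm
      refine (h4 T (Y / m) hT (by positivity)
        ((div_le_self hY.le hm').trans (by linarith))).trans ?_
      rw [← mul_assoc]
      gcongr
  have hcont : ∀ m m' : ℕ, Continuous fun t =>
      ‖Zo (A / m) t‖ * ‖Zo (B / m) t‖ * (‖Zo (c / m') t‖ * ‖Zo (c / m') t‖) := fun m m' =>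
    ((cont_Zo_Lev1 _).norm.mul (cont_Zo_Lev1 _).norm).mul
      ((cont_Zo_Lev1 _).norm.mul (cont_Zo_Lev1 _).norm)
  set R : ℝ → ℝ := fun t => ∑ z ∈ Icc 1 M ×ˢ Icc 1 M,
    ‖Zo (A / z.1) t‖ * ‖Zo (B / z.1) t‖ * (‖Zo (c / z.2) t‖ * ‖Zo (c / z.2) t‖) with hR
  have hRc : Continuous R := continuous_finsetSum _ fun z _ => hcont z.1 z.2
  have h6 : ∫ t in (T / 2)..(3 * T), R t ≤
      C * T ^ (ε / 2) * T * (2 * L * c) * (∑ m ∈ Icc 1 M, 1 / (m : ℝ)) ^ 2 := by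
    rw [hR, intervalIntegral.integral_finsetSum fun z _ => (hcont z.1 z.2).intervalIntegrable _ _,
      sq (∑ m ∈ Icc 1 M, 1 / (m : ℝ)), sum_mul_sum, ← sum_product', mul_sum]
    refine sum_le_sum fun z hz => ?_
    obtain ⟨h1, h2⟩ := mem_product.1 hz
    have h1' := (mem_Icc.1 h1).1
    have h2' := (mem_Icc.1 h2).1
    have k1 : (0 : ℝ) < z.1 := by exact_mod_cast h1'
    have k2 : (0 : ℝ) < z.2 := by exact_mod_cast h2'
    refine (pair_Lev1 (by linarith) (by positivity : 0 < 2 * L / z.1) (by positivity)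
      (h5 A _ _ h1' hA hA' (by linarith)) (h5 B _ _ h1' hB hB' (by linarith))
      (h5 c c _ h2' hc0 le_rfl (by linarith))).trans_eq ?_
    ring
  rw [← intervalIntegral.integral_eq_integral_of_support_subset (a := 1 / 2) (b := 3) fun s hs =>
    by
      have h := mem_of_Wt_ne_zero (Complex.ofReal_ne_zero.1 (left_ne_zero_of_mul hs))
      exact ⟨by linarith [h.1], by linarith [h.2]⟩]
  refine (intervalIntegral.norm_integral_le_of_norm_le (g := fun s => R (s * T)) (by norm_num)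
    (Filter.Eventually.of_forall fun s _ => ?_)
    ((hRc.comp (continuous_id.mul continuous_const)).intervalIntegrable _ _)).trans ?_
  · rw [norm_mul, norm_mul, Complex.norm_conj, Complex.norm_real,
      Real.norm_of_nonneg (Wt_nonneg s)]
    refine (mul_le_of_le_one_left (by positivity) (Wt_le_one s)).trans ?_
    refine (mul_le_mul (norm_Zp_Lev1 _ hA hB (by linarith) (by linarith))
      (norm_Zp_Lev1 _ hc0 hc0 (by linarith) (by linarith)) (norm_nonneg _)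
      (by positivity)).trans_eq ?_
    rw [sum_mul_sum, ← sum_product']
  rw [intervalIntegral.integral_comp_mul_right R hT0.ne', smul_eq_mul,
    show 1 / 2 * T = T / 2 by ring]
  have h7 : (∑ m ∈ Icc 1 M, 1 / (m : ℝ)) ^ 2 ≤ 4 * (D * T ^ (ε / 2)) :=
    (pow_le_pow_left₀ (by positivity) hH 2).trans (by linarith)
  have h8 : T ^ ε = T ^ (ε / 2) * T ^ (ε / 2) := by rw [← Real.rpow_add hT0, add_halves]
  calc T⁻¹ * ∫ t in (T / 2)..(3 * T), R t
      ≤ T⁻¹ * (C * T ^ (ε / 2) * T * (2 * L * c) * (4 * (D * T ^ (ε / 2)))) := by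
        gcongr
        exact h6.trans (by gcongr)
    _ = 8 * C * D * T ^ ε * (L * c) := by rw [h8]; field_simp; ring

end Pool.Agent.MP_c853c5_nt.W

end

section

set_option autoImplicit false

open Finset MeasureTheory
open scoped ENNReal ComplexConjugate

namespace Pool.Agent.MP_c853c5_nt.W

open Pool.Agent.MP_2a1f0e_nt Pool.Agent.MP_2a1f0e_nt.GM Pool.Agent.MP_2a1f0e_nt.DH

lemma sup_LineL {d : Dat} (hd : Adm d.al d.g) {G : Pr} {x : MM}
    (h : iC (An G x) * d.g (vx G.2 x) * (om (dt x) : ℂ) ≠ 0) : SupL d.al G x := by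
  simp only [mul_ne_zero_iff] at h
  obtain ⟨h1, h2, h3⟩ := iC_ne_zero h.1.1
  obtain ⟨h4, h5⟩ := om_mem (Complex.ofReal_ne_zero.1 h.2)
  refine ⟨h1, prim_two_of_hh h1, by rw [h1]; exact one_ne_zero, hd.2.2 _ h.1.2, h4.le,
    by linarith, ?_, ?_, ?_⟩
  · rw [abs_of_nonneg h2, abs_one]; linarith
  · rw [h1]; simp
  · rw [h1]; simp

lemma pt_LineL (hF : FinStmt) {d : Dat} (h0 : 0 < d.al) (hd : Adm d.al d.g) {q : ℕ} (hq : 1 ≤ q)
    {c : ℕ → ℝ} (hc : ∀ g ∈ q.divisors,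
      ‖((d.PP / q : ℝ) : ℂ) * (Eh d.x1 0 * Rl d.x2 d.H g)‖ ≤ c g) (x : MM) (w : V) :
    ‖lnF d q x w‖ ≤ ‖∑ g ∈ q.divisors,
      (c g : ℂ) * vf g Prod.snd (fun G x => iC (SupL d.al G x)) x w‖ := by
  classical
  have hS := hF d.al 1 1 x h0
  have e : ∀ g : ℕ, vf g Prod.snd (fun G x => iC (SupL d.al G x)) x w =
      ((∑ G ∈ hS.toFinset, ‖iC (SupL d.al G x) * ind g (om2 w G.2)‖ : ℝ) : ℂ) := fun g => by
    unfold vf
    beta_reduce
    rw [tsum_eq_sum (s := hS.toFinset) fun G hG => by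
      rw [iC_neg fun h => hG (hS.mem_toFinset.2 h.2), zero_mul], Complex.ofReal_sum]
    refine sum_congr rfl fun G _ => ?_
    rw [ind, ← iC_and]
    by_cases h : SupL d.al G x ∧ (g : ℤ) ∣ om2 w G.2
    · rw [iC_pos h]; simp
    · rw [iC_neg h]; simp
  have hc0 : ∀ g ∈ q.divisors, 0 ≤ c g := fun g hg => (norm_nonneg _).trans (hc g hg)
  have key : ∀ G : Pr, ‖iC (An G x) * d.g (vx G.2 x) * (om (dt x) : ℂ) * ((d.PP / q : ℝ) : ℂ) *
      (Eh d.x1 0 * Rl d.x2 d.H (Int.gcd (om2 w G.2) q))‖ ≤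
      ∑ g ∈ q.divisors, c g * ‖iC (SupL d.al G x) * ind g (om2 w G.2)‖ := fun G => by
    by_cases h : iC (An G x) * d.g (vx G.2 x) * (om (dt x) : ℂ) = 0
    · rw [h, zero_mul, zero_mul, norm_zero]
      exact sum_nonneg fun g hg => mul_nonneg (hc0 g hg) (norm_nonneg _)
    have hg : Int.gcd (om2 w G.2) q ∈ q.divisors :=
      Nat.mem_divisors.2 ⟨Int.natCast_dvd_natCast.1 (Int.gcd_dvd_right _ _), by omega⟩
    refine le_trans ?_ (single_le_sum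
      (f := fun g => c g * ‖iC (SupL d.al G x) * ind g (om2 w G.2)‖)
      (fun g hg => mul_nonneg (hc0 g hg) (norm_nonneg _)) hg)
    rw [iC_pos (sup_LineL hd h), ind, iC_pos (Int.gcd_dvd_left _ _), mul_one, norm_one, mul_one,
      mul_assoc, norm_mul]
    refine (mul_le_of_le_one_left (norm_nonneg _) ?_).trans (hc _ hg)
    rw [norm_mul, norm_mul]
    exact mul_le_one₀ (mul_le_one₀ (norm_iC_le _) (norm_nonneg _) (hd.2.1 _)) (norm_nonneg _)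
      (norm_om_le _)
  unfold lnF
  rw [tsum_eq_sum (s := hS.toFinset) fun G hG => by
    rw [show iC (An G x) * d.g (vx G.2 x) * (om (dt x) : ℂ) = 0 from
      by_contra fun h => hG (hS.mem_toFinset.2 (sup_LineL hd h).2), zero_mul, zero_mul]]
  refine (norm_sum_le_of_le _ fun G _ => key G).trans ?_
  simp only [e, ← Complex.ofReal_mul, ← Complex.ofReal_sum, Complex.norm_real, Real.norm_eq_abs]
  rw [sum_comm]
  simp only [← mul_sum]
  exact le_abs_self _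

lemma nv_LineL (hP : PbStmt) {q X : ℕ} {Δ : ℝ} (hq : 1 ≤ q) (hD : DivB X Δ) (hX : q ≤ X)
    (c : ℕ → ℝ) {f : V → ℂ} {e : ℕ → V → ℂ} (he : ∀ g, Per g (e g))
    (h : ∀ w, ‖f w‖ ≤ ‖∑ g ∈ q.divisors, (c g : ℂ) * e g w‖) :
    NV q f ≤ ∑ g ∈ q.divisors, Δ ^ 2 * c g ^ 2 * (q / g) * NC g (e g) 0 := by
  have h1 := NC_sum_le q q.divisors (fun g w => (c g : ℂ) * e g w) (fun _ => 0)
    (b := fun _ => 1) fun _ _ => one_pos
  simp only [sum_const_zero, div_one, sum_const, nsmul_eq_mul, mul_one] at h1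
  refine (NV_le_NC q f 0).trans ((NC_mono fun w _ => h w).trans (h1.trans ?_))
  rw [mul_sum]
  refine sum_le_sum fun g hg => ?_
  obtain ⟨k, hk⟩ := Nat.dvd_of_mem_divisors hg
  have hg0 : 1 ≤ g := Nat.pos_of_mem_divisors hg
  have hk0 : 1 ≤ k := Nat.pos_of_ne_zero fun h => by rw [h] at hk; omega
  have h2 := NC_mul q (c g) (e g) 0
  rw [mul_zero, Complex.norm_real, Real.norm_eq_abs, sq_abs] at h2
  have h3 := hP k g (e g) 0 hk0 hg0 (he g)
  rw [mul_comm k g, ← hk] at h3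
  have h4 : (q : ℝ) / g = k := by
    rw [hk, Nat.cast_mul, mul_div_cancel_left₀ _ (by positivity)]
  have h5 := hD.2 q hX
  have h6 := hD.2 k ((Nat.le_of_dvd hq ⟨g, by rw [hk, mul_comm]⟩).trans hX)
  have h7 := NC_nonneg g (e g) 0
  have h8 := NC_nonneg q (e g) 0
  have h9 : 0 ≤ Δ := zero_le_one.trans hD.1
  rw [h2, h4]
  calc (q.divisors.card : ℝ) * (c g ^ 2 * NC q (e g) 0)
      ≤ Δ * (c g ^ 2 * (k * Δ * NC g (e g) 0)) := by
        gcongr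
        exact h3.trans (by gcongr)
    _ = _ := by ring

lemma lf_LineL (μ : Measure MM) (q : ℕ) {f : Fld} {e : ℕ → Fld} (he : ∀ g, MF (e g))
    {a b : ℕ → ℝ} (ha : ∀ g, 0 ≤ a g) (hb : ∀ g, 0 ≤ b g)
    (h : ∀ x, NV q (f x) ≤ ∑ g ∈ q.divisors, a g * NC g (e g x) 0)
    (hL : ∀ g ∈ q.divisors, L0 μ g (e g) ≤ ENNReal.ofReal (b g)) :
    LF μ q f ≤ ENNReal.ofReal (∑ g ∈ q.divisors, a g * b g) := by
  calc LF μ q f ≤ ∫⁻ x, ∑ g ∈ q.divisors,
        ENNReal.ofReal (a g) * ENNReal.ofReal (NC g (e g x) 0) ∂μ := by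
        refine lintegral_mono fun x => (ENNReal.ofReal_le_ofReal (h x)).trans_eq ?_
        rw [ENNReal.ofReal_sum_of_nonneg fun g _ => mul_nonneg (ha g) (NC_nonneg _ _ _)]
        exact sum_congr rfl fun g _ => ENNReal.ofReal_mul (ha g)
    _ = ∑ g ∈ q.divisors, ENNReal.ofReal (a g) * L0 μ g (e g) := by
        rw [lintegral_finsetSum _ fun g _ =>
          (measurable_NC g (he g) measurable_const).ennreal_ofReal.const_mul _]
        exact sum_congr rfl fun g _ => lintegral_const_mul' _ _ ENNReal.ofReal_ne_top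
    _ ≤ _ := by
        rw [ENNReal.ofReal_sum_of_nonneg fun g _ => mul_nonneg (ha g) (hb g)]
        refine sum_le_sum fun g hg => ?_
        rw [ENNReal.ofReal_mul (ha g)]
        exact mul_le_mul_right (hL g hg) _

lemma cnt_LineL (Q : ℕ) (hQ : 1 ≤ Q) {a : ℕ → ℝ} (ha : ∀ g, 0 ≤ a g) :
    ∑ q ∈ Ico Q (2 * Q), ∑ g ∈ q.divisors, a g / q ≤ ∑ g ∈ Icc 1 (2 * Q), 2 * a g / g := by
  have hQ' : (0 : ℝ) < Q := by exact_mod_cast hQ
  calc ∑ q ∈ Ico Q (2 * Q), ∑ g ∈ q.divisors, a g / q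
      ≤ ∑ q ∈ Ico Q (2 * Q), ∑ g ∈ Icc 1 (2 * Q), if g ∣ q then a g / Q else 0 := by
        refine sum_le_sum fun q hq => ?_
        obtain ⟨h1, h2⟩ := mem_Ico.1 hq
        rw [← sum_filter]
        refine (sum_le_sum fun g _ => div_le_div_of_nonneg_left (ha g) hQ'
          (by exact_mod_cast h1)).trans (sum_le_sum_of_subset_of_nonneg (fun g hg => ?_)
          fun g _ _ => div_nonneg (ha g) hQ'.le)
        exact mem_filter.2 ⟨mem_Icc.2 ⟨Nat.pos_of_mem_divisors hg,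
          (Nat.divisor_le hg).trans h2.le⟩, Nat.dvd_of_mem_divisors hg⟩
    _ ≤ _ := by
        rw [sum_comm]
        refine sum_le_sum fun g hg => ?_
        have hg' : (0 : ℝ) < g := by exact_mod_cast (mem_Icc.1 hg).1
        rw [← sum_filter, sum_const, nsmul_eq_mul]
        have h1 : ((Ico Q (2 * Q)).filter fun q => g ∣ q).card ≤ 2 * Q / g := by
          rw [← Nat.Ioc_filter_dvd_card_eq_div]
          refine card_le_card (filter_subset_filter _ fun q hq => ?_)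
          obtain ⟨h1, h2⟩ := mem_Ico.1 hq
          exact mem_Ioc.2 ⟨by omega, h2.le⟩
        have h2 : (((Ico Q (2 * Q)).filter fun q => g ∣ q).card : ℝ) ≤ 2 * Q / g := by
          refine (Nat.cast_le.2 h1).trans (Nat.cast_div_le.trans_eq ?_)
          push_cast; rfl
        refine (mul_le_mul_of_nonneg_right h2 (div_nonneg (ha g) hQ'.le)).trans_eq ?_
        field_simp

lemma min_LineL {h g : ℝ} (hh : 0 < h) (hg : 1 ≤ g) :
    (h * min 1 (g / h) / g) ^ 2 ≤ 1 ∧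
      (h * min 1 (g / h) / g) ^ 2 ≤ 4 * h ^ 2 * (1 / (g - 1 + h) - 1 / (g + h)) := by
  have e : h * min 1 (g / h) = min h g := by
    rw [mul_min_of_nonneg _ _ hh.le, mul_one, mul_div_cancel₀ _ hh.ne']
  rw [e]
  have h1 := min_le_left h g
  have h2 := min_le_right h g
  have h3 : 0 < min h g := lt_min hh (by linarith)
  generalize min h g = t at h1 h2 h3
  have g0 : 0 < g := by linarith
  have g1 : 0 < g - 1 + h := by linarith
  have g2 : 0 < g + h := by linarith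
  refine ⟨pow_le_one₀ (by positivity) ((div_le_one g0).2 h2), ?_⟩
  have h4 : t / g ≤ 2 * h / (g + h) := by
    rw [div_le_div_iff₀ g0 g2]; nlinarith
  refine (pow_le_pow_left₀ (by positivity) h4 2).trans ?_
  rw [show 1 / (g - 1 + h) - 1 / (g + h) = 1 / ((g - 1 + h) * (g + h)) by field_simp; ring,
    div_pow, mul_one_div, show (2 * h) ^ 2 = 4 * h ^ 2 by ring]
  exact div_le_div_of_nonneg_left (by positivity) (by positivity) (by nlinarith)

lemma summin_LineL {h : ℝ} (hh : 0 < h) (M : ℕ) :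
    ∑ g ∈ Icc 1 M, (h * min 1 ((g : ℝ) / h) / g) ^ 2 ≤ 4 * h := by
  have k : ∑ g ∈ Icc 1 M, (h * min 1 ((g : ℝ) / h) / g) ^ 2 ≤
      4 * h ^ 2 * (1 / h - 1 / (M + h)) := by
    induction M with
    | zero => simp
    | succ M ih =>
      rw [sum_Icc_succ_top (by omega)]
      have := (min_LineL hh (g := ((M + 1 : ℕ) : ℝ)) (by exact_mod_cast Nat.succ_pos M)).2
      rw [show ((M + 1 : ℕ) : ℝ) - 1 = M by push_cast; ring] at this
      linarith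
  refine k.trans ?_
  have : 0 ≤ 4 * h ^ 2 * (1 / (M + h)) := by positivity
  rw [mul_sub, show 4 * h ^ 2 * (1 / h) = 4 * h by field_simp]
  linarith

lemma real_LineL {d : Dat} (hH : 0 < |d.H|) {Q X : ℕ} {Δ : ℝ} (hQ : 1 ≤ Q) (hD : DivB X Δ)
    (hX : 2 * Q ≤ X) :
    ∑ q ∈ Ico Q (2 * Q), ∑ g ∈ q.divisors, (d.PP / q * min 1 ((g : ℝ) / |d.H|)) ^ 2 * (q / g) *
      (d.al ^ 2 * (1 + d.al ^ 2 / g)) ≤ 8 * Δ * (d.DD * |d.H2| + d.XX) := by
  have h1 := cnt_LineL Q hQ (a := fun g => (d.PP * min 1 ((g : ℝ) / |d.H|)) ^ 2 / g *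
    (d.al ^ 2 * (1 + d.al ^ 2 / g))) fun g => by positivity
  refine le_trans (le_of_eq (sum_congr rfl fun q hq => sum_congr rfl fun g _ => ?_)) (h1.trans ?_)
  · have : (q : ℝ) ≠ 0 := Nat.cast_ne_zero.2 (by have := (mem_Ico.1 hq).1; omega)
    field_simp
  have h2 : ∀ g ∈ Icc 1 (2 * Q), 2 * ((d.PP * min 1 ((g : ℝ) / |d.H|)) ^ 2 / g *
      (d.al ^ 2 * (1 + d.al ^ 2 / g))) / g ≤
      2 * d.al ^ 2 * d.H2 ^ 2 * (|d.H| * min 1 ((g : ℝ) / |d.H|) / g) ^ 2 +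
        2 * d.al ^ 4 * d.H2 ^ 2 * (1 / g) := fun g hg => by
    have g1 : (1 : ℝ) ≤ g := by exact_mod_cast (mem_Icc.1 hg).1
    have h3 := (min_LineL hH g1).1
    have e : 2 * ((d.PP * min 1 ((g : ℝ) / |d.H|)) ^ 2 / g * (d.al ^ 2 * (1 + d.al ^ 2 / g))) / g =
        2 * d.al ^ 2 * d.H2 ^ 2 * (|d.H| * min 1 ((g : ℝ) / |d.H|) / g) ^ 2 +
        2 * d.al ^ 4 * d.H2 ^ 2 * (1 / g) * (|d.H| * min 1 ((g : ℝ) / |d.H|) / g) ^ 2 := by
      rw [Dat.PP, ← sq_abs d.H2]; ring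
    rw [e]
    exact add_le_add le_rfl (mul_le_of_le_one_right (by positivity) h3)
  refine (sum_le_sum h2).trans ?_
  rw [sum_add_distrib, ← mul_sum, ← mul_sum]
  have h3 := summin_LineL hH (2 * Q)
  have h4 := harm_le hD hX
  have h5 : d.al ^ 2 * d.H2 ^ 2 * |d.H| ≤ d.DD * |d.H2| := by
    rw [Dat.DD, Dat.PP, ← sq_abs d.H2]
    have : 0 ≤ d.al ^ 2 * d.H ^ 2 * |d.H2| := by positivity
    linarith
  have h6 : d.al ^ 4 * d.H2 ^ 2 ≤ d.XX := by
    rw [Dat.XX]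
    have := d.PP_nonneg
    have : 0 ≤ d.al ^ 4 * d.PP := by positivity
    linarith
  have h7 : 0 ≤ d.DD * |d.H2| := mul_nonneg d.DD_nonneg (abs_nonneg _)
  have h8 := d.XX_nonneg
  have h9 := hD.1
  calc _ ≤ 2 * d.al ^ 2 * d.H2 ^ 2 * (4 * |d.H|) + 2 * d.al ^ 4 * d.H2 ^ 2 * (2 * Δ) := by gcongr
    _ = 8 * (d.al ^ 2 * d.H2 ^ 2 * |d.H|) + 4 * Δ * (d.al ^ 4 * d.H2 ^ 2) := by ring
    _ ≤ 8 * (d.DD * |d.H2|) + 4 * Δ * d.XX := by gcongr
    _ ≤ _ := by nlinarith [mul_nonneg (sub_nonneg.2 h9) h7, mul_nonneg (sub_nonneg.2 h9) h8]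

theorem lineL_stmt (hB : LineBStmt) (hE : EhStmt) (hP : PbStmt) (hL : LeftStmt) (hF : FinStmt) :
    LineLStmt := by
  intro ε hε
  obtain ⟨CB, hCB, hB⟩ := hB
  obtain ⟨CE, hCE, hE⟩ := hE 0
  obtain ⟨CL, hCL, hL⟩ := hL (ε / 2) (half_pos hε)
  obtain ⟨CD, hCD, hD⟩ := exD 1 3 2 (half_pos hε)
  refine ⟨8 * (CE * CB) ^ 2 * CL * CD, by positivity, fun μ hμ d Λ Q hd hH => ?_⟩
  have hΛ := hd.one_le
  obtain ⟨X, Δ, hX, h2, h3⟩ := hD Λ hΛ
  obtain ⟨h0, hA, hα, -, -, hQ, hQΛ⟩ := hd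
  have hQX : 2 * Q ≤ X := by
    have : ((2 * Q : ℕ) : ℝ) ≤ X := by push_cast; rw [pow_one] at h2; linarith
    exact_mod_cast this
  have hH0 : 0 < |d.H| := by linarith
  have hΔ := hX.1
  have hξ := d.one_le_xi
  have hPP := d.PP_nonneg
  have hpw : 0 < Λ ^ (ε / 2) := Real.rpow_pos_of_pos (by linarith) _
  have k : ∀ q ∈ Ico Q (2 * Q), LF μ q (lnF d q) ≤ ENNReal.ofReal (∑ g ∈ q.divisors,
      Δ ^ 2 * (CE * CB * d.xi ^ 2 * (d.PP / q * min 1 ((g : ℝ) / |d.H|))) ^ 2 * (q / g) *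
        (CL * Λ ^ (ε / 2) * (d.al ^ 2 * (1 + d.al ^ 2 / g)))) := fun q hq => by
    obtain ⟨q1, q2⟩ := mem_Ico.1 hq
    refine lf_LineL μ q (e := fun g => vf g Prod.snd fun G x => iC (SupL d.al G x))
      (fun g => MF_vf g _ fun G => measurable_iC (measurableSet_SupL _ G))
      (fun g => by positivity) (fun g => by positivity)
      (fun x => nv_LineL hP (by omega) hX (by omega) _ (fun g => per_vf g _ _ x)
        (pt_LineL hF h0 hA (by omega) (fun g hg => ?_) x))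
      fun g hg => (hL μ hμ Λ d.al _ hΛ h0 hα (fun _ _ => norm_iC_le _)
        fun _ _ h => iC_ne_zero h).2 g (Nat.pos_of_mem_divisors hg)
    have e1 := hE d.x1 0
    rw [pow_zero, pow_zero, mul_one, div_one] at e1
    have e2 := hB d.x2 d.H g (Nat.pos_of_mem_divisors hg) (abs_pos.1 hH0)
    have e3 : 1 + |d.x2| ≤ d.xi := by unfold Dat.xi; linarith [abs_nonneg d.x1]
    have e4 : 0 ≤ min 1 ((g : ℝ) / |d.H|) := by positivity
    rw [norm_mul, norm_mul, Complex.norm_real, Real.norm_of_nonneg (by positivity)]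
    calc d.PP / q * (‖Eh d.x1 0‖ * ‖Rl d.x2 d.H g‖)
        ≤ d.PP / q * (CE * (CB * d.xi ^ 2 * min 1 ((g : ℝ) / |d.H|))) := by
          gcongr
          exact e2.trans (by gcongr)
      _ = _ := by ring
  refine (sum_le_sum k).trans ?_
  rw [← ENNReal.ofReal_sum_of_nonneg fun q _ => sum_nonneg fun g _ => by positivity]
  refine ENNReal.ofReal_le_ofReal ?_
  have h4 := real_LineL hH0 hQ hX hQX
  have h5 : 0 ≤ d.DD * |d.H2| + d.XX :=
    add_nonneg (mul_nonneg d.DD_nonneg (abs_nonneg _)) d.XX_nonneg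
  have h6 : Λ ^ ε = Λ ^ (ε / 2) * Λ ^ (ε / 2) := by
    rw [← Real.rpow_add (by linarith), add_halves]
  calc _ = Δ ^ 2 * (CE * CB) ^ 2 * d.xi ^ 4 * CL * Λ ^ (ε / 2) *
        ∑ q ∈ Ico Q (2 * Q), ∑ g ∈ q.divisors, (d.PP / q * min 1 ((g : ℝ) / |d.H|)) ^ 2 *
          (q / g) * (d.al ^ 2 * (1 + d.al ^ 2 / g)) := by
        simp only [mul_sum]
        exact sum_congr rfl fun q _ => sum_congr rfl fun g _ => by ring
    _ ≤ Δ ^ 2 * (CE * CB) ^ 2 * d.xi ^ 4 * CL * Λ ^ (ε / 2) *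
        (8 * Δ * (d.DD * |d.H2| + d.XX)) := by gcongr
    _ = Δ ^ 3 * (8 * (CE * CB) ^ 2 * d.xi ^ 4 * CL * Λ ^ (ε / 2) * (d.DD * |d.H2| + d.XX)) := by
        ring
    _ ≤ CD * Λ ^ (ε / 2) *
        (8 * (CE * CB) ^ 2 * d.xi ^ 4 * CL * Λ ^ (ε / 2) * (d.DD * |d.H2| + d.XX)) := by gcongr
    _ = _ := by rw [h6]; ring

end Pool.Agent.MP_c853c5_nt.W

end

section

set_option autoImplicit false

open Finset MeasureTheory
open scoped ENNReal ComplexConjugate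

namespace Pool.Agent.MP_c853c5_nt.W

open Pool.Agent.MP_2a1f0e_nt Pool.Agent.MP_2a1f0e_nt.GM Pool.Agent.MP_2a1f0e_nt.DH

lemma inj_PoisF {G : Pr} (h : hh G = 1) :
    Function.Injective fun k : V => ((vg k G, G.2) : Pr) := by
  intro k k' e
  have e1 : vg k G = vg k' G := congrArg Prod.fst e
  simp only [vg, Prod.mk.injEq] at e1
  simp only [hh, om2] at h
  obtain ⟨a, b⟩ := e1
  refine Prod.ext ?_ ?_
  · linear_combination G.2.2 * a - G.2.1 * b - (k.1 - k'.1) * h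
  · linear_combination G.1.1 * b - G.1.2 * a - (k.2 - k'.2) * h

lemma hh_PoisF {G : Pr} (h : hh G = 1) (k : V) : hh ((vg k G, G.2) : Pr) = k.1 := by
  simp only [hh, om2, vg] at h ⊢
  linear_combination k.1 * h

lemma tt_PoisF {G : Pr} {x : MM} (h : (vx G.2 x).1 ≠ 0) (k : V) :
    tt ((vg k G, G.2) : Pr) x = k.2 + k.1 * tt G x := by
  have e : (vx (vg k G) x).1 = k.2 * (vx G.2 x).1 + k.1 * (vx G.1 x).1 := by
    simp only [vx, vg]; push_cast; ring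
  simp only [tt]
  rw [e]
  field_simp

lemma om2_PoisF (G : Pr) (w k : V) :
    om2 w (vg k G) = om2 ((om2 w G.2, om2 G.1 w) : V) k := by
  simp only [om2, vg]
  ring

lemma ct_PoisF {G : Pr} (h : hh G = 1) (w : V) :
    ct ((om2 w G.2, om2 G.1 w) : V) = ct w := by
  rw [← ct_vg h]
  congr 1
  simp only [hh, om2, vg] at h ⊢
  refine Prod.ext ?_ ?_
  · linear_combination w.1 * h
  · linear_combination w.2 * h

/-- unfolding along the anchors -/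
lemma unf_PoisF (hA : AnchStmt) {M : Type} [AddCommMonoid M] [TopologicalSpace M]
    [ContinuousAdd M] (x : MM) (T : V → Prop) (A : Finset Pr)
    (hT : ∀ v, T v → (vx v x).1 ≠ 0) (hm : ∀ G, G ∈ A ↔ An G x ∧ T G.2) (F : Pr → M)
    (hF : ∀ P, F P ≠ 0 → Prim P.2 ∧ T P.2) (s : Pr → M)
    (hs : ∀ G ∈ A, HasSum (fun k : V => F (vg k G, G.2)) (s G)) : HasSum F (∑ G ∈ A, s G) := by
  classical
  have h1 : ∀ G ∈ A, HasSum ((Set.range fun k : V => ((vg k G, G.2) : Pr)).indicator F) (s G) := by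
    intro G hG
    refine ((inj_PoisF ((hm G).1 hG).1.1).hasSum_iff fun P hP => Set.indicator_of_notMem hP _).1 ?_
    have e : ((Set.range fun k : V => ((vg k G, G.2) : Pr)).indicator F) ∘
        (fun k : V => ((vg k G, G.2) : Pr)) = fun k : V => F (vg k G, G.2) :=
      funext fun k => Set.indicator_of_mem (Set.mem_range_self k) _
    rw [e]
    exact hs G hG
  have e : (fun P => ∑ G ∈ A,
      (Set.range fun k : V => ((vg k G, G.2) : Pr)).indicator F P) = F := by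
    funext P
    by_cases h0 : F P = 0
    · rw [h0]
      exact sum_eq_zero fun G _ => Set.indicator_apply_eq_zero.2 fun _ => h0
    obtain ⟨h2, h3⟩ := hF P h0
    obtain ⟨w, ⟨hw1, hw2⟩, hu⟩ := hA x P h2 (hT _ h3)
    have hw : w.1 ∈ A := (hm _).2 ⟨hw1, by rw [hw2] at h3; exact h3⟩
    rw [sum_eq_single_of_mem w.1 hw]
    · exact Set.indicator_of_mem (Set.mem_range.2 ⟨w.2, hw2.symm⟩) _
    · intro G hG hne
      refine Set.indicator_of_notMem ?_ _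
      rintro ⟨k, hk⟩
      exact hne (congrArg Prod.fst (hu (G, k) ⟨((hm G).1 hG).1, hk.symm⟩))
  have h2 := hasSum_sum h1
  rwa [e] at h2

/-- the terms with `k.1 = 0` -/
lemma line_PoisF (q : ℕ) (hq : 1 ≤ q) (n : ℤ) (ξ H : ℝ) (a : ℂ)
    (hs : Summable fun j : ℤ => a * Eh ξ (-(H * j / q))) :
    ∑' j : ℤ, a * Eh ξ (-(H * j / q)) * ind q (n * j) =
      a * Eh ξ 0 + a * Rl ξ H (Int.gcd n q) := by
  classical
  have hg : 0 < Nat.gcd n.natAbs q := Nat.gcd_pos_of_pos_right _ hq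
  have eg : Int.gcd n q = Nat.gcd n.natAbs q := by simp [Int.gcd]
  rw [eg]
  obtain ⟨q', hq'⟩ := Nat.gcd_dvd_right n.natAbs q
  have hd : ∀ j : ℤ, (q : ℤ) ∣ n * j ↔ (q' : ℤ) ∣ j := fun j => by
    have h := dvd_mul_iff_div (m := n.natAbs) hq j
    rw [Nat.div_eq_of_eq_mul_right hg hq'] at h
    rw [← h, Int.natCast_natAbs]
    rcases abs_choice n with e | e
    · rw [e]
    · rw [e, neg_mul, dvd_neg]
  generalize Nat.gcd n.natAbs q = g at hg hq'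
  have hq0 : (q' : ℤ) ≠ 0 := by
    rintro h
    have : q' = 0 := by exact_mod_cast h
    rw [this] at hq'
    omega
  have hi : Function.Injective fun i : ℤ => (q' : ℤ) * i := fun _ _ h => mul_left_cancel₀ hq0 h
  have hr : (q' : ℝ) ≠ 0 := by exact_mod_cast hq0
  have hg' : (g : ℝ) ≠ 0 := by exact_mod_cast hg.ne'
  have e1 : ∀ i : ℤ, H * (((q' : ℤ) * i : ℤ) : ℝ) / q = H * i / g := fun i => by
    rw [hq']; push_cast; field_simp
  have h1 : Summable fun i : ℤ => a * Eh ξ (-(H * i / g)) :=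
    (hs.comp_injective hi).congr fun i => by simp only [Function.comp, e1]
  rw [← hi.tsum_eq (f := fun j : ℤ => a * Eh ξ (-(H * j / q)) * ind q (n * j))]
  · have e2 : ∀ i : ℤ, a * Eh ξ (-(H * (((q' : ℤ) * i : ℤ) : ℝ) / q)) * ind q (n * (q' * i)) =
        a * Eh ξ (-(H * i / g)) := fun i => by
      rw [e1, ind, iC_pos ((hd _).2 (dvd_mul_right _ _)), mul_one]
    rw [tsum_congr e2, h1.tsum_eq_add_tsum_ite 0, Rl, ← tsum_mul_left]
    congr 1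
    · simp
    · refine tsum_congr fun i => ?_
      by_cases h : i = 0
      · rw [if_pos h, iC_neg (not_not.2 h), zero_mul, mul_zero]
      · rw [if_neg h, iC_pos h, one_mul]
  · intro j hj
    obtain ⟨i, hi⟩ := (hd j).1 (iC_ne_zero (right_ne_zero_of_mul hj))
    exact ⟨i, hi.symm⟩

/-- splitting the dual sum -/
lemma split_PoisF (q : ℕ) (hq : 1 ≤ q) (w : V) (β ξ₁ ξ₂ H2 H : ℝ) (c : ℂ)
    (hs : Summable fun k : V => ‖Eh ξ₁ (H2 * k.1 / q) * Eh ξ₂ (-(H * (k.2 + k.1 * β) / q))‖) :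
    ∑' k : V, c * (Eh ξ₁ (H2 * k.1 / q) * Eh ξ₂ (-(H * (k.2 + k.1 * β) / q))) * ind q (om2 w k) =
      ∑' k : V, iC (k.1 ≠ 0) * c * (Eh ξ₁ (H2 * k.1 / q) * Eh ξ₂ (-(H * (k.2 + k.1 * β) / q))) *
        ind q (om2 w k) + c * (Eh ξ₁ 0 * Rl ξ₂ H (Int.gcd w.1 q)) + c * (Eh ξ₁ 0 * Eh ξ₂ 0) := by
  have hb : ∀ p : V → Prop, Summable fun k : V => iC (p k) * c *
      (Eh ξ₁ (H2 * k.1 / q) * Eh ξ₂ (-(H * (k.2 + k.1 * β) / q))) * ind q (om2 w k) := fun p => by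
    refine Summable.of_norm_bounded (hs.mul_left ‖c‖) fun k => ?_
    rw [norm_mul, norm_mul, norm_mul]
    refine (mul_le_of_le_one_right (by positivity) (norm_iC_le _)).trans ?_
    exact mul_le_mul_of_nonneg_right (mul_le_of_le_one_left (norm_nonneg _) (norm_iC_le _))
      (norm_nonneg _)
  have hi : Function.Injective fun j : ℤ => ((0, j) : V) := fun _ _ h => congrArg Prod.snd h
  have h1 : Summable fun j : ℤ => c * Eh ξ₁ 0 * Eh ξ₂ (-(H * j / q)) := by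
    refine (((hs.of_norm).comp_injective hi).mul_left c).congr fun j => ?_
    simp [mul_assoc]
  have h2 := line_PoisF q hq w.1 ξ₂ H _ h1
  have h3 : ∑' k : V, iC (¬k.1 ≠ 0) * c *
      (Eh ξ₁ (H2 * k.1 / q) * Eh ξ₂ (-(H * (k.2 + k.1 * β) / q))) * ind q (om2 w k) =
      ∑' j : ℤ, c * Eh ξ₁ 0 * Eh ξ₂ (-(H * j / q)) * ind q (w.1 * j) := by
    rw [← hi.tsum_eq]
    · refine tsum_congr fun j => ?_
      rw [iC_pos (not_not.2 rfl)]
      simp [om2, mul_assoc]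
    · intro k hk
      have h0 := iC_ne_zero (left_ne_zero_of_mul (left_ne_zero_of_mul (left_ne_zero_of_mul hk)))
      exact ⟨k.2, Prod.ext (not_not.1 h0).symm rfl⟩
  rw [add_assoc, ← mul_assoc c, ← mul_assoc c, add_comm (c * _ * Rl _ _ _), ← h2, ← h3,
    ← (hb fun k => k.1 ≠ 0).tsum_add (hb fun k => ¬k.1 ≠ 0)]
  refine tsum_congr fun k => ?_
  rw [← add_mul, ← add_mul, ← add_mul, iC_add_not, one_mul]

lemma nrm_PoisF (a b c : ℂ) (p : Prop) : ‖a * (iC p * b * c)‖ ≤ ‖a‖ * ‖b‖ * ‖c‖ := by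
  rw [norm_mul, norm_mul, norm_mul, mul_assoc ‖a‖]
  refine mul_le_mul_of_nonneg_left ?_ (norm_nonneg _)
  exact mul_le_mul_of_nonneg_right (mul_le_of_le_one_left (norm_nonneg _) (norm_iC_le _))
    (norm_nonneg _)

lemma unf2_PoisF (hA : AnchStmt) (x : MM) (T : V → Prop) (A : Finset Pr)
    (hT : ∀ v, T v → (vx v x).1 ≠ 0) (hm : ∀ G, G ∈ A ↔ An G x ∧ T G.2) (q : ℕ) (w : V) (Ψ : Pk)
    (hF : ∀ P, Ψ P x ≠ 0 → Prim P.2 ∧ T P.2)
    (hs : Summable fun P => Ψ P x * ind q (om2 w P.1)) :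
    vf q Prod.fst Ψ x w = ∑ G ∈ A, ∑' k : V, Ψ (vg k G, G.2) x *
      ind q (om2 ((om2 w G.2, om2 G.1 w) : V) k) := by
  refine (unf_PoisF hA x T A hT hm (fun P => Ψ P x * ind q (om2 w P.1))
    (fun P h => hF P (left_ne_zero_of_mul h)) _ fun G hG => ?_).tsum_eq
  have h1 := (hs.comp_injective (inj_PoisF ((hm G).1 hG).1.1)).hasSum
  simp only [Function.comp_def, om2_PoisF] at h1 ⊢
  exact h1

theorem poisF_stmt (hA : AnchStmt) (hF : FinStmt) (hP : PoisZStmt) : PoisFStmt := by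
  intro d q x hq hal hd
  by_cases h0 : d.H2 = 0 ∨ d.H = 0
  · have h1 : pa d = 0 := pa_eq_zero hd (h0.symm.imp_left fun h => by rw [h]; norm_num)
    have h2 : d.PP = 0 := by rcases h0 with h | h <;> simp [Dat.PP, h]
    have h3 : pd d q = 0 := by funext P x; simp [pd, h2]
    refine ⟨by simp [h3], 0, fun w _ => ?_⟩
    simp [vf, lnF, h1, h2, h3]
  rw [not_or] at h0
  set T : V → Prop := fun v => d.g (vx v x) ≠ 0 ∧ om (dt x) ≠ 0 with hTd
  have hT : ∀ v, T v → (vx v x).1 ≠ 0 := fun v hv => (hal.trans_le (hd.2.2 _ hv.1).1).ne'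
  have hfin : {G : Pr | An G x ∧ T G.2}.Finite := by
    refine (hF d.al 1 1 x hal).subset ?_
    rintro G ⟨⟨h1, h2, h3⟩, h4, h5⟩
    have h6 := om_mem h5
    refine ⟨prim_two_of_hh h1, by rw [h1]; exact one_ne_zero, hd.2.2 _ h4, h6.1.le,
      by linarith [h6.2], ?_, ?_, ?_⟩
    · rw [abs_of_nonneg h2, abs_one]; linarith
    · rw [h1, Int.cast_one]
    · rw [h1, Int.cast_one, abs_one]; norm_num
  have hm : ∀ G, G ∈ hfin.toFinset ↔ An G x ∧ T G.2 := fun G => hfin.mem_toFinset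
  generalize hfin.toFinset = A at hm
  have hpd : ∀ P, pd d q P x ≠ 0 → Prim P.2 ∧ T P.2 := fun P h => by
    simp only [pd, mul_ne_zero_iff] at h
    exact ⟨(iC_ne_zero h.1.1.1.1).1, h.1.1.1.2, Complex.ofReal_ne_zero.1 h.1.1.2⟩
  have hpa : ∀ P, pa d P x ≠ 0 → Prim P.2 ∧ T P.2 := fun P h => by
    simp only [pa, mul_ne_zero_iff] at h
    exact ⟨iC_ne_zero h.1.1.1.1, h.1.1.1.2, Complex.ofReal_ne_zero.1 h.1.1.2⟩
  have epd : ∀ G ∈ A, ∀ k : V, pd d q (vg k G, G.2) x =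
      d.g (vx G.2 x) * (om (dt x) : ℂ) * (iC (k.1 ≠ 0) * ((|d.H2| * |d.H| / q : ℝ) : ℂ) *
        (Eh d.x1 (d.H2 * k.1 / q) * Eh d.x2 (-(d.H * (k.2 + k.1 * tt G x) / q)))) := by
    intro G hG k
    obtain ⟨h1, h2⟩ := (hm G).1 hG
    rw [pd, hh_PoisF h1.1, tt_PoisF (hT _ h2), iC_and, iC_pos (prim_two_of_hh h1.1), Dat.PP]
    ring
  have epa : ∀ G ∈ A, ∀ k : V, pa d (vg k G, G.2) x = d.g (vx G.2 x) * (om (dt x) : ℂ) *
      (E d.x1 ((k.2 + k.1 * tt G x) / d.H2) * E d.x2 (k.1 / d.H)) := by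
    intro G hG k
    obtain ⟨h1, h2⟩ := (hm G).1 hG
    rw [pa, hh_PoisF h1.1, tt_PoisF (hT _ h2), iC_pos (prim_two_of_hh h1.1)]
    ring
  have hone : Nat.Coprime (ct ((1, 0) : V)) q := by simp [ct]
  have hS : Summable fun P => ‖pd d q P x‖ := by
    refine (unf_PoisF hA x T A hT hm (fun P => ‖pd d q P x‖) (fun P h => hpd P (norm_ne_zero_iff.1 h))
      (fun G => ∑' k : V, ‖pd d q (vg k G, G.2) x‖) fun G hG => Summable.hasSum ?_).summable
    have h1 := (hP q (1, 0) (tt G x) d.x1 d.x2 d.H2 d.H hq hone h0.1 h0.2).1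
    refine Summable.of_nonneg_of_le (fun _ => norm_nonneg _) (fun k => ?_)
      (h1.mul_left (‖d.g (vx G.2 x) * (om (dt x) : ℂ)‖ * ‖((|d.H2| * |d.H| / q : ℝ) : ℂ)‖))
    rw [epd G hG]
    exact nrm_PoisF _ _ _ _
  refine ⟨hS, ∑ G ∈ A, d.g (vx G.2 x) * (om (dt x) : ℂ) *
    (((|d.H2| * |d.H| / q : ℝ) : ℂ) * (Eh d.x1 0 * Eh d.x2 0)), fun w hw => ?_⟩
  have hSa : Summable fun P => pa d P x * ind q (om2 w P.1) :=
    summable_of_hasFiniteSupport ((hF d.al d.H2 d.H x hal).subset fun P h =>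
      pa_supA hd (left_ne_zero_of_mul h))
  have hSd : Summable fun P => pd d q P x * ind q (om2 w P.1) := by
    refine Summable.of_norm_bounded hS fun P => ?_
    rw [norm_mul]
    exact mul_le_of_le_one_right (norm_nonneg _) (norm_iC_le _)
  have h1 := unf2_PoisF hA x T A hT hm q w _ hpa hSa
  have h2 := unf2_PoisF hA x T A hT hm q w _ hpd hSd
  have h3 : lnF d q x w = ∑ G ∈ A, d.g (vx G.2 x) * (om (dt x) : ℂ) *
      (((|d.H2| * |d.H| / q : ℝ) : ℂ) * (Eh d.x1 0 * Rl d.x2 d.H (Int.gcd (om2 w G.2) q))) := by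
    rw [lnF, tsum_eq_sum (s := A)]
    · refine sum_congr rfl fun G hG => ?_
      rw [iC_pos ((hm G).1 hG).1, Dat.PP]
      ring
    · intro G hG
      by_contra h
      simp only [mul_ne_zero_iff] at h
      exact hG ((hm G).2 ⟨iC_ne_zero h.1.1.1.1, h.1.1.1.2, Complex.ofReal_ne_zero.1 h.1.1.2⟩)
  rw [h1, h2, h3, ← sum_add_distrib, ← sum_add_distrib]
  refine sum_congr rfl fun G hG => ?_
  have h4 := ((hm G).1 hG).1.1
  have h5 : Nat.Coprime (ct ((om2 w G.2, om2 G.1 w) : V)) q := by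
    rw [ct_PoisF h4]; exact (mem_PQ.1 hw).2.2
  obtain ⟨h6, h7⟩ := hP q _ (tt G x) d.x1 d.x2 d.H2 d.H hq h5 h0.1 h0.2
  rw [split_PoisF q hq _ _ _ _ _ _ _ h6] at h7
  simp only [epa G hG, epd G hG, mul_assoc (d.g (vx G.2 x) * (om (dt x) : ℂ)), tsum_mul_left]
  rw [h7]
  ring

end Pool.Agent.MP_c853c5_nt.W

end

section

set_option autoImplicit false

open Finset MeasureTheory
open scoped ENNReal ComplexConjugate

namespace Pool.Agent.MP_c853c5_nt.W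

open Pool.Agent.MP_2a1f0e_nt Pool.Agent.MP_2a1f0e_nt.GM Pool.Agent.MP_2a1f0e_nt.DH

/-- the inner product over a part of the space -/
noncomputable def Jp_R2 (d : Dat) (p : MM → Prop) (z : Pr × Pr) : ℂ :=
  ∫ x, iC (p x) * (pk d z.1 x * conj (pk d z.2 x))

lemma lint_R2 {d : Dat} (hd : Adm d.al d.g) (p : MM → Prop) (z : Pr × Pr) :
    ∫⁻ x, ‖iC (p x) * (pk d z.1 x * conj (pk d z.2 x))‖ₑ ≤
      vol (Sup d.al d.H2 d.H) (Sup d.al d.H2 d.H) z := by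
  have hP := pac_pk' hd
  refine le_trans (lintegral_mono fun x => enorm_le_iE ?_ fun h => ?_) (lintegral_iE volume
    ((measurableSet_Sup _ _ _ z.1).inter (measurableSet_Sup _ _ _ z.2))).le
  · rw [norm_mul, norm_mul, Complex.norm_conj]
    exact mul_le_one₀ (norm_iC_le _) (by positivity)
      (mul_le_one₀ (hP.bd _ _) (norm_nonneg _) (hP.bd _ _))
  · have h1 := right_ne_zero_of_mul h
    exact ⟨hP.sp _ _ (left_ne_zero_of_mul h1),
      hP.sp _ _ ((map_ne_zero _).1 (right_ne_zero_of_mul h1))⟩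

lemma Jp_le_R2 {d : Dat} (hd : Adm d.al d.g) (p : MM → Prop) (z : Pr × Pr) :
    ‖Jp_R2 d p z‖ₑ ≤ vol (Sup d.al d.H2 d.H) (Sup d.al d.H2 d.H) z :=
  (enorm_integral_le_lintegral_enorm _).trans (lint_R2 hd p z)

lemma integ_R2 {d : Dat} (hd : Adm d.al d.g) {p : MM → Prop} (hp : MeasurableSet {x | p x})
    {z : Pr × Pr} (hv : vol (Sup d.al d.H2 d.H) (Sup d.al d.H2 d.H) z ≠ ⊤) :
    Integrable fun x => iC (p x) * (pk d z.1 x * conj (pk d z.2 x)) :=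
  ⟨((measurable_iC hp).mul ((measurable_pk hd.1 _).mul
    (Complex.continuous_conj.measurable.comp (measurable_pk hd.1 _)))).aestronglyMeasurable,
    (lint_R2 hd p z).trans_lt (lt_top_iff_ne_top.2 hv)⟩

lemma big_R2 (d : Dat) (G : Pr) : MeasurableSet {x | BigZ d (act G x)} :=
  measurableSet_le measurable_const
    ((continuous_dt.comp (continuous_act G)).abs.measurable.mul_const _)

lemma split_R2 {d : Dat} (hd : Adm d.al d.g) {z : Pr × Pr}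
    (hv : vol (Sup d.al d.H2 d.H) (Sup d.al d.H2 d.H) z ≠ ⊤) :
    ∫ x, pk d z.1 x * conj (pk d z.2 x) =
      Jp_R2 d (fun x => ¬BigZ d (act (z.1.2, z.2.2) x)) z + Jb d z := by
  rw [Jp_R2, Jb, ← integral_add (integ_R2 hd (p := fun x => ¬BigZ d (act (z.1.2, z.2.2) x))
    (big_R2 d _).compl hv) (integ_R2 hd (big_R2 d _) hv)]
  refine integral_congr_ae (Filter.Eventually.of_forall fun x => ?_)
  beta_reduce
  rw [← add_mul, add_comm, iC_add_not, one_mul]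

lemma small_R2 {d : Dat} (hd : Adm d.al d.g) (h2 : d.H2 ≠ 0) (z : Pr × Pr) :
    ‖Jp_R2 d (fun x => ¬BigZ d (act (z.1.2, z.2.2) x)) z‖ₑ ≤
      iE (|(rI z : ℝ)| ≤ 1000 * |d.H| / |d.H2|) *
        vol (Sup d.al d.H2 d.H) (Sup d.al d.H2 d.H) z := by
  by_cases h : |(rI z : ℝ)| ≤ 1000 * |d.H| / |d.H2|
  · rw [iE_pos h, one_mul]
    exact Jp_le_R2 hd _ z
  have e : ∀ x, iC (¬BigZ d (act (z.1.2, z.2.2) x)) * (pk d z.1 x * conj (pk d z.2 x)) = 0 := by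
    intro x
    by_contra h0
    have h1 := iC_ne_zero (left_ne_zero_of_mul h0)
    have h3 := ((pac_pk' hd).sp _ _ (left_ne_zero_of_mul (right_ne_zero_of_mul h0))).2.2.2.2.1
    have h4 : 0 < |d.H2| := abs_pos.2 h2
    apply h
    rw [BigZ, dt_act, abs_mul, abs_of_nonneg (zero_le_one.trans h3), not_le] at h1
    rw [le_div_iff₀ h4]
    refine le_trans ?_ h1.le
    exact mul_le_mul_of_nonneg_right (le_mul_of_one_le_right (abs_nonneg _) h3) h4.le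
  simp [Jp_R2, e]

lemma rad_R2 (hI : InvStmt) {α : ℝ} (hα : 0 < α) (H2 H : ℝ) (z : Pr × Pr) :
    vol (Sup α H2 H) (Sup α H2 H) z ≤
      iE (|(rI z : ℝ)| ≤ 32 * α ^ 2) * vol (Sup α H2 H) (Sup α H2 H) z := by
  by_cases h : |(rI z : ℝ)| ≤ 32 * α ^ 2
  · rw [iE_pos h, one_mul]
  have e : {x | Sup α H2 H z.1 x ∧ Sup α H2 H z.2 x} = ∅ :=
    Set.eq_empty_of_forall_notMem fun x hx =>
      h (hI α H2 H z x hα hx.1.2 hx.2.2).2.2.2.2.2.2.1
  rw [vol, e, measure_empty]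
  exact zero_le

lemma summ_R2 {v : Orb → ℝ≥0∞} (hv : ∑' z, v z ≠ ⊤) {F c : Orb → ℂ} {B : ℝ}
    (hF : ∀ z, ‖F z‖ₑ ≤ v z) (hc : ∀ z, ‖c z‖ ≤ B) : Summable fun z => c z * F z := by
  have h1 : Summable fun z => ‖F z‖ := by
    have h2 : ∑' z, ‖F z‖ₑ ≠ ⊤ := ne_top_of_le_ne_top hv (ENNReal.tsum_le_tsum hF)
    simp only [enorm_eq_nnnorm] at h2
    rw [ENNReal.tsum_coe_ne_top_iff_summable, ← NNReal.summable_coe] at h2
    exact h2
  refine Summable.of_norm_bounded (h1.mul_left B) fun z => ?_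
  rw [norm_mul]
  exact mul_le_mul_of_nonneg_right (hc z) (norm_nonneg _)

lemma ser_R2 {v : Orb → ℝ≥0∞} {p : Orb → Prop} {F c : Orb → ℂ}
    (hF : ∀ z, ‖F z‖ₑ ≤ iE (p z) * v z) :
    ‖∑' z, c z * F z‖ₑ ≤ ∑' z, iE (p z) * ENNReal.ofReal ‖c z‖ * v z := by
  refine enorm_tsum_le_tsum_enorm.trans (ENNReal.tsum_le_tsum fun z => ?_)
  rw [enorm_mul, ofReal_norm_eq_enorm, mul_comm (iE _), mul_assoc]
  exact mul_le_mul_right (hF z) _

lemma pos_R2 (hS : ShpStmt) (hO : OsStmt) {μ : Measure MM} (hμ : UM μ) {d : Dat} (hα : 0 < d.al)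
    (hd : Adm d.al d.g) {Q : ℕ} (hQ : 1 ≤ Q) :
    ∑ q ∈ Ico Q (2 * Q), LN μ q Prod.fst (pk d) ≤
      ‖∑' z : Orb, nuQ Q (nI z.1) * ∫ x, pk d z.1.1 x * conj (pk d z.1.2 x)‖ₑ := by
  have hs := (hS μ hμ d.al hα).1 d.H2 d.H
  obtain ⟨hv, ho⟩ := hO μ hμ _ _ _ _ hs hs
  have hP := pac_pk' hd
  have hJ : ∀ z : Orb, ‖∫ x, pk d z.1.1 x * conj (pk d z.1.2 x)‖ₑ ≤
      vol (Sup d.al d.H2 d.H) (Sup d.al d.H2 d.H) z.1 := fun z => by
    have := Jp_le_R2 hd (fun _ => True) z.1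
    simpa only [Jp_R2, iC_pos trivial, one_mul] using this
  have e : ∑' z : Orb, nuQ Q (nI z.1) * ∫ x, pk d z.1.1 x * conj (pk d z.1.2 x) =
      ∑ q ∈ Icc 1 (3 * Q), (Wt ((q : ℝ) / Q) : ℂ) * OS (dl q) Prod.fst Prod.fst (pk d) (pk d) := by
    simp only [nuQ, sum_mul, OS, ← tsum_mul_left]
    rw [Summable.tsum_finsetSum]
    · exact sum_congr rfl fun q _ => tsum_congr fun z => mul_assoc _ _ _
    · intro q hq
      refine summ_R2 hv hJ (B := 1) fun z => ?_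
      rw [norm_mul, Complex.norm_real, Real.norm_of_nonneg (Wt_nonneg _)]
      exact mul_le_one₀ (Wt_le_one _) (norm_nonneg _) (norm_dl_le (mem_Icc.1 hq).1 _)
  have hQ' : (0 : ℝ) < Q := by exact_mod_cast hQ
  have hsub : Ico Q (2 * Q) ⊆ Icc 1 (3 * Q) := fun q hq => by
    rw [mem_Ico] at hq
    rw [mem_Icc]
    omega
  have h0 : ∀ q ∈ Icc 1 (3 * Q), 0 ≤ (OS (dl q) Prod.fst Prod.fst (pk d) (pk d)).re :=
    fun q hq => ((ho q _ _ (mem_Icc.1 hq).1 hP hP).2 rfl rfl).1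
  rw [e, ← ofReal_norm_eq_enorm, sum_congr rfl fun q hq =>
    ((ho q _ _ (mem_Icc.1 (hsub hq)).1 hP hP).2 rfl rfl).2,
    ← ENNReal.ofReal_sum_of_nonneg fun q hq => h0 q (hsub hq)]
  refine ENNReal.ofReal_le_ofReal (le_trans ?_ (Complex.re_le_norm _))
  rw [Complex.re_sum]
  simp only [Complex.re_ofReal_mul]
  refine le_trans (le_of_eq (sum_congr rfl fun q hq => ?_)) (sum_le_sum_of_subset_of_nonneg hsub
    fun q hq _ => mul_nonneg (Wt_nonneg _) (h0 q hq))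
  rw [mem_Ico] at hq
  rw [Wt_eq_one, one_mul]
  · rw [le_div_iff₀ hQ', one_mul]
    exact_mod_cast hq.1
  · rw [div_le_iff₀ hQ']
    exact_mod_cast hq.2.le

/-- the three parts -/
lemma three_R2 (hS : ShpStmt) (hO : OsStmt) (hI : InvStmt) (hN : NuStmt) {μ : Measure MM}
    (hμ : UM μ) {d : Dat} (hα : 0 < d.al) (hd : Adm d.al d.g) (h2 : d.H2 ≠ 0) {Q : ℕ}
    (hQ : 1 ≤ Q) (Cm : ℕ) :
    ∑ q ∈ Ico Q (2 * Q), LN μ q Prod.fst (pk d) ≤
      ∑' z : Orb, iE (|(rI z.1 : ℝ)| ≤ 1000 * |d.H| / |d.H2|) *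
          ENNReal.ofReal ‖nuQ Q (nI z.1)‖ * vol (Sup d.al d.H2 d.H) (Sup d.al d.H2 d.H) z.1 +
        ∑' z : Orb, iE (|(rI z.1 : ℝ)| ≤ 32 * d.al ^ 2) *
          ENNReal.ofReal ‖nuQ Q (nI z.1) - swp Q Cm (nI z.1)‖ *
            vol (Sup d.al d.H2 d.H) (Sup d.al d.H2 d.H) z.1 +
        ‖∑' z : Orb, swp Q Cm (nI z.1) * Jb d z.1‖ₑ := by
  have hs := (hS μ hμ d.al hα).1 d.H2 d.H
  have hv := (hO μ hμ _ _ _ _ hs hs).1
  have hb : ∀ z : Orb, ‖Jb d z.1‖ₑ ≤ vol (Sup d.al d.H2 d.H) (Sup d.al d.H2 d.H) z.1 :=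
    fun z => Jp_le_R2 hd _ z.1
  have s1 := summ_R2 hv
    (fun z => Jp_le_R2 hd (fun x => ¬BigZ d (act (z.1.1.2, z.1.2.2) x)) z.1)
    fun z => (hN Q Cm (nI z.1) hQ).1
  have s2 := summ_R2 hv hb (c := fun z => nuQ Q (nI z.1) - swp Q Cm (nI z.1)) fun z =>
    (norm_sub_le _ _).trans (add_le_add (hN Q Cm (nI z.1) hQ).1 (hN Q Cm (nI z.1) hQ).2.2.2)
  have s3 := summ_R2 hv hb fun z => (hN Q Cm (nI z.1) hQ).2.2.2
  refine (pos_R2 hS hO hμ hα hd hQ).trans ?_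
  have e : ∑' z : Orb, nuQ Q (nI z.1) * ∫ x, pk d z.1.1 x * conj (pk d z.1.2 x) =
      ∑' z : Orb, nuQ Q (nI z.1) * Jp_R2 d (fun x => ¬BigZ d (act (z.1.1.2, z.1.2.2) x)) z.1 +
        ∑' z : Orb, (nuQ Q (nI z.1) - swp Q Cm (nI z.1)) * Jb d z.1 +
        ∑' z : Orb, swp Q Cm (nI z.1) * Jb d z.1 := by
    rw [← s1.tsum_add s2, ← (s1.add s2).tsum_add s3]
    refine tsum_congr fun z => ?_
    rw [split_R2 hd (ENNReal.ne_top_of_tsum_ne_top hv z)]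
    ring
  rw [e]
  refine (enorm_add_le _ _).trans (add_le_add ((enorm_add_le _ _).trans (add_le_add ?_ ?_)) le_rfl)
  · exact ser_R2 fun z => small_R2 hd h2 z.1
  · exact ser_R2 fun z => (hb z).trans (rad_R2 hI hα _ _ z.1)

end Pool.Agent.MP_c853c5_nt.W

end

section

set_option autoImplicit false

open Finset MeasureTheory
open scoped ENNReal ComplexConjugate

namespace Pool.Agent.MP_c853c5_nt.W

open Pool.Agent.MP_2a1f0e_nt Pool.Agent.MP_2a1f0e_nt.GM Pool.Agent.MP_2a1f0e_nt.DH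

lemma half_R2 {Λ ε : ℝ} (hΛ : 1 ≤ Λ) : Λ ^ (ε / 2) * Λ ^ (ε / 2) = Λ ^ ε := by
  rw [← Real.rpow_add (by linarith), add_halves]

lemma first_R2 (hT : TrivStmt) (hN : NuStmt) {ε : ℝ} (hε : 0 < ε) : ∃ K : ℝ, 0 < K ∧
    ∀ (d : Dat) (Λ : ℝ) (Q : ℕ), d.ok Λ Q → d.H2 ≠ 0 →
    ∑' z : Orb, iE (|(rI z.1 : ℝ)| ≤ 1000 * |d.H| / |d.H2|) *
        ENNReal.ofReal ‖nuQ Q (nI z.1)‖ * vol (Sup d.al d.H2 d.H) (Sup d.al d.H2 d.H) z.1 ≤
      ENNReal.ofReal (K * Λ ^ ε * (d.DD * (Q + d.PP))) := by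
  obtain ⟨C, hC, hT⟩ := hT (ε / 2) (half_pos hε)
  obtain ⟨C', hC', hD⟩ := exD 4 1 160 (half_pos hε)
  refine ⟨C * (5005 * C'), by positivity, fun d Λ Q hd h2 => ?_⟩
  have hΛ := hd.one_le
  have hQ := hd.2.2.2.2.2.1
  have hQ' : (1 : ℝ) ≤ Q := by exact_mod_cast hQ
  obtain ⟨X, Δ, d1, d2, d3⟩ := hD Λ hΛ
  have h1 := d1.1
  rw [pow_one] at d3
  refine (hT Λ d.al d.H2 d.H _ (Δ + 4) 0 (3 * Q) (fun n => ‖nuQ Q n‖) hd.bd (by positivity)
    (by linarith) le_rfl (by positivity) (hN Q 0 0 hQ).1 fun n hn hb => ?_).trans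
    (ENNReal.ofReal_le_ofReal ?_)
  · rw [zero_div, add_zero]
    refine ((hN Q 0 n hQ).2.1 hn).trans (add_le_add (d1.2 _ ?_) le_rfl)
    have : ((n.natAbs : ℕ) : ℝ) ≤ X := by
      rw [Nat.cast_natAbs, Int.cast_abs]
      exact hb.trans d2
    exact_mod_cast this
  · have h3 : 0 < |d.H2| := abs_pos.2 h2
    have e : d.H2 ^ 2 * (1000 * |d.H| / |d.H2|) = 1000 * d.PP := by
      rw [Dat.PP, ← sq_abs]
      field_simp
    have hP := d.PP_nonneg
    have hDD := d.DD_nonneg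
    rw [e]
    change C * Λ ^ (ε / 2) * (d.DD * (3 * Q + 0 + (Δ + 4) * (1 + d.PP + 1000 * d.PP))) ≤ _
    have k : 3 * (Q : ℝ) + 0 + (Δ + 4) * (1 + d.PP + 1000 * d.PP) ≤ 5005 * Δ * (Q + d.PP) := by
      nlinarith [mul_nonneg (sub_nonneg.2 h1) hP, mul_nonneg (sub_nonneg.2 h1) (sub_nonneg.2 hQ')]
    calc _ ≤ C * Λ ^ (ε / 2) * (d.DD * (5005 * (C' * Λ ^ (ε / 2)) * (Q + d.PP))) := by
          gcongr
          refine k.trans ?_
          gcongr
      _ = _ := by rw [← half_R2 (ε := ε) hΛ]; ring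

lemma sq_R2 {d : Dat} (h : d.H ≠ 0) : d.H2 ^ 2 * d.al ^ 2 = d.PP * d.X := by
  have h1 : |d.H| ≠ 0 := abs_ne_zero.2 h
  rw [Dat.PP, Dat.X, ← sq_abs d.H2]
  field_simp

lemma second_R2 (hT : TrivStmt) (hE : ErStmt) (hN : NuStmt) {ε : ℝ} (hε : 0 < ε) :
    ∃ K : ℝ, 0 < K ∧ ∀ (d : Dat) (Λ : ℝ) (Q : ℕ), d.ok Λ Q → d.H ≠ 0 → d.X ≤ Q →
    ∑' z : Orb, iE (|(rI z.1 : ℝ)| ≤ 32 * d.al ^ 2) *
        ENNReal.ofReal ‖nuQ Q (nI z.1) - swp Q ⌈480 * Λ ^ 4⌉₊ (nI z.1)‖ *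
          vol (Sup d.al d.H2 d.H) (Sup d.al d.H2 d.H) z.1 ≤
      ENNReal.ofReal (K * Λ ^ ε * (d.DD * (Q + d.PP))) := by
  obtain ⟨C, hC, hT⟩ := hT (ε / 2) (half_pos hε)
  obtain ⟨C', hC', hE⟩ := hE (ε / 8) (by positivity)
  refine ⟨C * (3 + 33 * (C' * 160 ^ (ε / 8))), by positivity, fun d Λ Q hd h2 hX => ?_⟩
  have hΛ := hd.one_le
  have hQ := hd.2.2.2.2.2.1
  have hQ' : (1 : ℝ) ≤ Q := by exact_mod_cast hQ
  have h4 : Λ ≤ Λ ^ 4 := le_self_pow₀ hΛ (by norm_num)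
  have eD : C' * (160 * Λ ^ 4) ^ (ε / 8) = C' * 160 ^ (ε / 8) * Λ ^ (ε / 2) := by
    rw [Real.mul_rpow (by norm_num) (by positivity), ← Real.rpow_natCast,
      ← Real.rpow_mul (by linarith), mul_assoc]
    congr 3
    push_cast
    ring
  have l1 : 1 ≤ Λ ^ (ε / 2) := Real.one_le_rpow hΛ (half_pos hε).le
  generalize hD : C' * 160 ^ (ε / 8) = D at eD ⊢
  have D0 : 0 < D := by rw [← hD]; positivity
  refine (hT Λ d.al d.H2 d.H _ (D * Λ ^ (ε / 2) / Q) (D * Λ ^ (ε / 2) * Q) (3 * Q)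
    (fun n => ‖nuQ Q n - swp Q ⌈480 * Λ ^ 4⌉₊ n‖) hd.bd (by positivity) (by positivity)
    (by positivity) (by positivity) ?_ fun n hn hb => ?_).trans (ENNReal.ofReal_le_ofReal ?_)
  · beta_reduce
    rw [(hN Q _ 0 hQ).2.2.1, sub_zero]
    exact (hN Q 0 0 hQ).1
  · refine (hE (160 * Λ ^ 4) Q _ n hQ (by linarith [hd.2.2.2.2.2.2]) hn hb
      (le_trans (by linarith) (Nat.le_ceil _))).trans_eq ?_
    rw [eD]
    ring
  · have hP := d.PP_nonneg
    have hDD := d.DD_nonneg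
    have e : d.H2 ^ 2 * (32 * d.al ^ 2) = 32 * (d.PP * d.X) := by rw [← sq_R2 h2]; ring
    rw [e]
    change C * Λ ^ (ε / 2) * (d.DD * (3 * Q + D * Λ ^ (ε / 2) * Q +
      D * Λ ^ (ε / 2) / Q * (1 + d.PP + 32 * (d.PP * d.X)))) ≤ _
    have k1 : 1 + d.PP + 32 * (d.PP * d.X) ≤ Q * (Q + 33 * d.PP) := by
      nlinarith [mul_le_mul_of_nonneg_left hX hP, mul_nonneg (sub_nonneg.2 hQ') hP]
    have k2 : D * Λ ^ (ε / 2) / Q * (1 + d.PP + 32 * (d.PP * d.X)) ≤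
        D * Λ ^ (ε / 2) * (Q + 33 * d.PP) := by
      calc _ ≤ D * Λ ^ (ε / 2) / Q * (Q * (Q + 33 * d.PP)) := by gcongr
        _ = _ := by field_simp
    have k3 : 3 * (Q : ℝ) + D * Λ ^ (ε / 2) * Q +
        D * Λ ^ (ε / 2) / Q * (1 + d.PP + 32 * (d.PP * d.X)) ≤
        (3 + 33 * D) * Λ ^ (ε / 2) * (Q + d.PP) := by
      have m1 : 0 ≤ D * Λ ^ (ε / 2) * Q := by positivity
      have m2 : 0 ≤ Λ ^ (ε / 2) * d.PP := by positivity
      have m3 : (Q : ℝ) ≤ Λ ^ (ε / 2) * Q := le_mul_of_one_le_left (by linarith) l1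
      nlinarith
    calc _ ≤ C * Λ ^ (ε / 2) * (d.DD * ((3 + 33 * D) * Λ ^ (ε / 2) * (Q + d.PP))) := by gcongr
      _ = _ := by rw [← half_R2 (ε := ε) hΛ]; ring

lemma third_R2 {d : Dat} {Q : ℕ} {η : ℝ} (hη : 0 < η) (hη' : η ≤ 1) (hQ : 1 ≤ Q)
    (h : 1 / 2 ≤ |d.H|) (hX : d.X ≤ Q) (hX' : d.X ^ (1 + η) ≤ Q) :
    d.DD * (d.CC Q + |d.H2|) + d.XX * d.CC Q ^ η ≤ 258 * (d.DD * (Q + d.PP)) := by
  have h0 : d.H ≠ 0 := abs_pos.1 (by linarith)
  have hQ' : (0 : ℝ) < Q := by exact_mod_cast hQ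
  have hP := d.PP_nonneg
  have hDD := d.DD_nonneg
  have hX0 := d.X_nonneg
  have e : d.CC Q = d.X * (128 * d.PP / Q) := by
    rw [Dat.CC, mul_assoc, mul_comm (d.al ^ 2), sq_R2 h0]
    ring
  have k1 : d.CC Q ≤ 128 * d.PP := by
    rw [e]
    calc _ ≤ Q * (128 * d.PP / Q) := by gcongr
      _ = _ := by field_simp
  have k2 : |d.H2| ≤ 2 * d.PP := by
    rw [Dat.PP]
    nlinarith [abs_nonneg d.H2]
  have k3 : (128 * d.PP / Q) ^ η ≤ 1 + 128 * d.PP / Q := by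
    have p : 0 ≤ 128 * d.PP / Q := by positivity
    rcases le_total (128 * d.PP / Q) 1 with a | a
    · linarith [Real.rpow_le_one p a hη.le]
    · have := Real.rpow_le_rpow_of_exponent_le a hη'
      rw [Real.rpow_one] at this
      linarith
  have k4 : d.X * d.CC Q ^ η ≤ Q + 128 * d.PP := by
    rw [e, Real.mul_rpow hX0 (by positivity), ← mul_assoc, ← Real.rpow_one_add' hX0 (by linarith)]
    calc _ ≤ Q * (1 + 128 * d.PP / Q) := by gcongr
      _ = _ := by field_simp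
  rw [d.XX_eq h0, mul_assoc, ← mul_add, mul_left_comm]
  exact mul_le_mul_of_nonneg_left (by linarith) hDD

theorem r2_stmt (hS : ShpStmt) (hO : OsStmt) (hI : InvStmt) (hT : TrivStmt) (hE : ErStmt)
    (hN : NuStmt) : R2Stmt := by
  rintro η hη hη' ⟨m, hP⟩
  refine ⟨m, fun ε hε => ?_⟩
  obtain ⟨K₁, k1, h1⟩ := first_R2 hT hN hε
  obtain ⟨K₂, k2, h2⟩ := second_R2 hT hE hN hε
  obtain ⟨K₃, k3, h3⟩ := hP ε hε
  refine ⟨K₁ + K₂ + K₃ * 258, by positivity, fun μ hμ d Λ Q hd hX' => ?_⟩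
  by_cases h0 : |d.H| < 1 / 2 ∨ d.H2 = 0
  · simp only [pk_eq_zero hd.2.1 h0, LN_zero, sum_const_zero]
    exact zero_le
  rw [not_or, not_lt] at h0
  have hΛ := hd.one_le
  have hQ := hd.2.2.2.2.2.1
  have hQ' : (1 : ℝ) ≤ Q := by exact_mod_cast hQ
  have hH : d.H ≠ 0 := abs_pos.1 (by linarith [h0.1])
  have hX : d.X ≤ Q := by
    rcases le_total d.X 1 with a | a
    · exact a.trans hQ'
    · exact (Real.self_le_rpow_of_one_le a (by linarith)).trans hX'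
  have hP := d.PP_nonneg
  have hDD := d.DD_nonneg
  have x1 : 1 ≤ d.xi ^ m := one_le_pow₀ d.one_le_xi
  have l0 : 0 ≤ Λ ^ ε := by positivity
  have k := third_R2 hη hη' hQ h0.1 hX hX'
  refine (three_R2 hS hO hI hN hμ hd.1 hd.2.1 h0.2 hQ ⌈480 * Λ ^ 4⌉₊).trans
    ((add_le_add (add_le_add (h1 d Λ Q hd h0.2) (h2 d Λ Q hd hH hX)) ((h3 d Λ Q _ hd).trans
      (ENNReal.ofReal_le_ofReal (mul_le_mul_of_nonneg_left k (by positivity))))).trans ?_)
  rw [← ENNReal.ofReal_add (by positivity) (by positivity),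
    ← ENNReal.ofReal_add (by positivity) (by positivity)]
  refine ENNReal.ofReal_le_ofReal ?_
  have e : (1 + d.PP / Q) * (d.DD * Q) = d.DD * (Q + d.PP) := by field_simp
  rw [e]
  have p : 0 ≤ d.DD * (Q + d.PP) := by positivity
  generalize d.DD * (Q + d.PP) = W at p ⊢
  have m1 := mul_le_mul_of_nonneg_left x1 (show 0 ≤ (K₁ + K₂) * Λ ^ ε * W by positivity)
  linarith

end Pool.Agent.MP_c853c5_nt.W

end
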