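import Pool.Agent.Mg.C853.G6e22ef

set_option autoImplicit false

open Finset MeasureTheory
open scoped ENNReal ComplexConjugate

namespace Pool.Agent.MP_c853c5_nt.W

open Pool.Agent.MP_2a1f0e_nt Pool.Agent.MP_2a1f0e_nt.GM Pool.Agent.MP_2a1f0e_nt.DH

lemma num_TM {T s u y y₁ y₂ n h H qe τ : ℝ} (hs : 0 < s) (hT : s ^ 2 = T) (hu : 1 ≤ u)
    (h1 : 0 < y₁) (h2 : 0 < y₂) (hy : y₂ ≤ y) (hn : 1 ≤ n) (hh : 0 ≤ h) (ha : h * y₂ ≤ 4 * y₁)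
    (hb : h ≤ 5 * u * n * (y ^ 2 / T)) (hH : 0 ≤ H) (hc : H ≤ u * (y₁ * y₂) / T) (hq : 0 ≤ qe)
    (hd : qe ≤ 16 * τ) (hτ : 1 ≤ τ) :
    y₂ ^ 2 / s * (h * H + H ^ 2) * (4 * n + h) + (y₂ ^ 2 / s) ^ 2 * (h ^ 2 + h * H) * qe ≤
      y₁ * y₂ / T * (256 * u ^ 3 * τ * (y₁ * y₂ * (1 + y ^ 2 / T) ^ 2 * ((n + s) / s))) := by
  have hT0 : 0 < T := by rw [← hT]; positivity
  have hv : 0 ≤ y ^ 2 / T := by positivity
  have hy2 : y₂ ^ 2 ≤ y ^ 2 / T * T := by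
    rw [div_mul_cancel₀ _ hT0.ne']; gcongr
  generalize y ^ 2 / T = v at hb hv hy2 ⊢
  have e1 : y₂ ^ 2 * (h * H) ≤ 4 * u * (y₁ * y₂) ^ 2 / T :=
    calc y₂ ^ 2 * (h * H) = (h * y₂) * y₂ * H := by ring
      _ ≤ (4 * y₁) * y₂ * (u * (y₁ * y₂) / T) := by gcongr
      _ = _ := by ring
  have e2 : y₂ ^ 2 * H ^ 2 ≤ v * u ^ 2 * (y₁ * y₂) ^ 2 / T :=
    calc y₂ ^ 2 * H ^ 2 ≤ (v * T) * (u * (y₁ * y₂) / T) ^ 2 := by gcongr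
      _ = _ := by field_simp
  have e3 : y₂ ^ 2 * (y₂ ^ 2 * h ^ 2) ≤ 16 * (y₁ * y₂) ^ 2 :=
    calc y₂ ^ 2 * (y₂ ^ 2 * h ^ 2) = y₂ ^ 2 * (h * y₂) ^ 2 := by ring
      _ ≤ y₂ ^ 2 * (4 * y₁) ^ 2 := by gcongr
      _ = _ := by ring
  have e4 : y₂ ^ 2 * (y₂ ^ 2 * (h * H)) ≤ 4 * u * v * (y₁ * y₂) ^ 2 :=
    calc y₂ ^ 2 * (y₂ ^ 2 * (h * H)) ≤ (v * T) * (4 * u * (y₁ * y₂) ^ 2 / T) := by gcongr
      _ = _ := by field_simp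
  have hp : 0 < (y₁ * y₂) ^ 2 / T := by positivity
  have e0 : (y₁ * y₂) ^ 2 = (y₁ * y₂) ^ 2 / T * T := (div_mul_cancel₀ _ hT0.ne').symm
  have e5 : y₂ ^ 2 * (h * H + H ^ 2) ≤ 4 * u ^ 2 * (1 + v) * ((y₁ * y₂) ^ 2 / T) := by
    have k : 4 * u + v * u ^ 2 ≤ 4 * u ^ 2 * (1 + v) := by
      nlinarith [mul_nonneg hv (sq_nonneg u)]
    calc _ ≤ (4 * u + v * u ^ 2) * ((y₁ * y₂) ^ 2 / T) := by
          rw [mul_add]; refine (add_le_add e1 e2).trans_eq (by ring)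
      _ ≤ _ := by gcongr
  have e6 : 4 * n + h ≤ 9 * u * n * (1 + v) := by
    nlinarith [mul_nonneg (mul_nonneg (zero_le_one.trans hu) (zero_le_one.trans hn)) hv,
      mul_le_mul_of_nonneg_right hu (zero_le_one.trans hn)]
  have e7 : y₂ ^ 2 * (y₂ ^ 2 * (h ^ 2 + h * H)) ≤ 16 * u * (1 + v) * (y₁ * y₂) ^ 2 := by
    have k : 16 + 4 * u * v ≤ 16 * u * (1 + v) := by
      nlinarith [mul_nonneg (zero_le_one.trans hu) hv]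
    calc _ ≤ (16 + 4 * u * v) * (y₁ * y₂) ^ 2 := by
          rw [mul_add, mul_add]; refine (add_le_add e3 e4).trans_eq (by ring)
      _ ≤ _ := by gcongr
  have k1 : u ≤ u ^ 3 := le_self_pow₀ hu (by norm_num)
  have k2 : 1 + v ≤ (1 + v) ^ 2 := le_self_pow₀ (by linarith) (by norm_num)
  calc _ = y₂ ^ 2 * (h * H + H ^ 2) * (4 * n + h) / s +
        y₂ ^ 2 * (y₂ ^ 2 * (h ^ 2 + h * H)) * qe / T := by rw [← hT]; ring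
    _ ≤ 4 * u ^ 2 * (1 + v) * ((y₁ * y₂) ^ 2 / T) * (9 * u * n * (1 + v)) / s +
        16 * u * (1 + v) * (y₁ * y₂) ^ 2 * (16 * τ) / T := by gcongr
    _ = (y₁ * y₂) ^ 2 / T * (36 * 1 * (u ^ 3 * (1 + v) ^ 2) * (n / s) +
        256 * τ * (u * (1 + v))) := by ring
    _ ≤ (y₁ * y₂) ^ 2 / T * (256 * τ * (u ^ 3 * (1 + v) ^ 2) * (n / s) +
        256 * τ * (u ^ 3 * (1 + v) ^ 2)) := by gcongr; norm_num
    _ = _ := by field_simp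

lemma left_TM (hG : GcdStmt) {N e X : ℕ} {Δ s : ℝ} (hN : 1 ≤ N) (he : 1 ≤ e) (hD : DivB X Δ)
    (h1 : e ≤ X) (hs : 0 ≤ s) :
    ∑ p ∈ Icc N (2 * N) ×ˢ Icc N (2 * N), s / 4 * (1 + s / 4 / (ap p.1 e * ap p.2 e : ℝ)) ≤
      Δ ^ 3 * (s * ((N : ℝ) ^ 2 + s)) := by
  have h2 : ∑ a ∈ Icc N (2 * N), 1 / (ap a e : ℝ) ≤ 2 * Δ := by
    refine le_trans (le_of_eq (sum_congr rfl fun a ha => ?_))
      ((hG.2.2.1 e N he hN).trans (by linarith [hD.2 e h1]))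
    have h3 : (1 : ℝ) ≤ ap a e := by exact_mod_cast ap_pos_TM (hN.trans (mem_Icc.1 ha).1) e
    have h4 : (0 : ℝ) < Nat.gcd a e := by exact_mod_cast Nat.gcd_pos_of_pos_right _ he
    have h5 : (a : ℝ) = ap a e * Nat.gcd a e := by exact_mod_cast (ap_mul_TM a e).symm
    rw [div_eq_div_iff (by linarith) (by rw [h5]; positivity)]
    linarith
  have h6 : ∑ p ∈ Icc N (2 * N) ×ˢ Icc N (2 * N), 1 / (ap p.1 e * ap p.2 e : ℝ) ≤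
      (2 * Δ) * (2 * Δ) := by
    have h7 : 0 ≤ ∑ a ∈ Icc N (2 * N), 1 / (ap a e : ℝ) := sum_nonneg fun _ _ => by positivity
    refine le_trans (le_of_eq ?_) (mul_le_mul h2 h2 h7 (h7.trans h2))
    rw [sum_mul_sum, sum_product]
    exact sum_congr rfl fun _ _ => sum_congr rfl fun _ _ => by rw [one_div_mul_one_div]
  have h8 : ∑ p ∈ Icc N (2 * N) ×ˢ Icc N (2 * N), s / 4 * (1 + s / 4 / (ap p.1 e * ap p.2 e : ℝ)) =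
      s / 4 * (((N : ℝ) + 1) ^ 2 + s / 4 *
        ∑ p ∈ Icc N (2 * N) ×ˢ Icc N (2 * N), 1 / (ap p.1 e * ap p.2 e : ℝ)) := by
    rw [← mul_sum, sum_add_distrib, mul_sum, sum_const, card_product, Nat.card_Icc,
      show 2 * N + 1 - N = N + 1 by omega]
    congr 2
    · simp [sq]
    · exact sum_congr rfl fun _ _ => by ring
  have hN' : (1 : ℝ) ≤ N := by exact_mod_cast hN
  have h9 : 1 ≤ Δ ^ 3 := one_le_pow₀ hD.1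
  have h10 : Δ ^ 2 ≤ Δ ^ 3 := pow_le_pow_right₀ hD.1 (by norm_num)
  rw [h8]
  calc _ ≤ s / 4 * ((2 * (N : ℝ)) ^ 2 + s / 4 * ((2 * Δ) * (2 * Δ))) := by gcongr; linarith
    _ = s * (1 * (N : ℝ) ^ 2 + Δ ^ 2 * (s / 4)) := by ring
    _ ≤ s * (Δ ^ 3 * (N : ℝ) ^ 2 + Δ ^ 3 * s) := by gcongr; linarith
    _ = _ := by ring

lemma xi_TM (α B H2 H : ℝ) {j : ℤ} (hj : j ∈ Ico (-3 : ℤ) 5) (ζ : Fin 9 → ℝ) :
    (ch2 α B H2 0 H j ζ).xi ≤ 5 * (1 + ‖ζ‖) ∧ |(ch2 α B H2 0 H j ζ).H2| ≤ 4 * |H2| := by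
  have h3 : ((4 : ℝ) / 3) ^ j ≤ (4 / 3) ^ (4 : ℤ) :=
    zpow_le_zpow_right₀ (by norm_num) (by rw [mem_Ico] at hj; omega)
  have h4 : (0 : ℝ) < (4 / 3) ^ j := by positivity
  have h5 : |ζ 6| ≤ ‖ζ‖ := norm_le_pi_norm ζ 6
  have h6 : |ζ 8| ≤ ‖ζ‖ := norm_le_pi_norm ζ 8
  simp only [ch2, Dat.xi, abs_neg, abs_mul, abs_of_pos h4, zero_sub]
  norm_num at h3
  constructor <;> nlinarith [abs_nonneg (ζ 6), abs_nonneg H2, norm_nonneg ζ]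

lemma set_TM {T δ : ℝ} (hT : 10 ^ 8 ≤ T) (hδ : 0 < δ) (hδ1 : δ ≤ 1 / 4) :
    ∃ s A₀ u : ℝ, √T = s ∧ T ^ δ = u ∧ s ^ 2 = T ∧ 0 < s ∧ A₀ ^ 2 = s ∧ 100 ≤ A₀ ∧ 1 ≤ u ∧
      u ≤ A₀ ∧ A₀ ≤ T ∧ 160 * T ^ 3 ≤ T ^ 4 ∧ T ≤ T ^ 3 ∧ T ^ 2 ≤ T ^ 3 := by
  have hT1 : 1 ≤ T := by linarith
  have hT0 : 0 < T := by linarith
  have h1 : √T ^ 2 = T := Real.sq_sqrt hT0.le
  have h2 : 10 ^ 4 ≤ √T := Real.le_sqrt_of_sq_le (by linarith)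
  have h3 : √(√T) ^ 2 = √T := Real.sq_sqrt (by linarith)
  have h4 : 100 ≤ √(√T) := Real.le_sqrt_of_sq_le (by linarith)
  refine ⟨√T, √(√T), T ^ δ, rfl, rfl, h1, by linarith, h3, h4, Real.one_le_rpow hT1 hδ.le, ?_,
    by nlinarith, by nlinarith [pow_pos hT0 3], le_self_pow₀ hT1 (by norm_num),
    pow_le_pow_right₀ hT1 (by norm_num)⟩
  rw [Real.sqrt_eq_rpow, Real.sqrt_eq_rpow, ← Real.rpow_mul hT0.le]
  exact Real.rpow_le_rpow_of_exponent_le hT1 (by linarith)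

lemma mu_TM {T s A₀ u H' p : ℝ} (hsT : s ^ 2 = T) (hs : 0 < s) (hAs : A₀ ^ 2 = s)
    (hA : 100 ≤ A₀) (hu : 1 ≤ u) (huA : u ≤ A₀) (hp : 0 < p) (hH : |H'| ≤ u * p / T) :
    |H'| * A₀ ^ 2 / p ≤ 1 / 100 ∧ 1 + |T * H' / p| ≤ 2 * u := by
  have hT0 : 0 < T := by rw [← hsT]; positivity
  have hH3 : |H'| / p ≤ u / T := by
    rw [div_le_iff₀ hp]; exact hH.trans_eq (by ring)
  constructor
  · calc _ = |H'| / p * s := by rw [hAs]; ring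
      _ ≤ A₀ / T * s :=
        mul_le_mul_of_nonneg_right (hH3.trans (div_le_div_of_nonneg_right huA hT0.le)) hs.le
      _ = 1 / A₀ := by rw [← hsT, ← hAs]; field_simp
      _ ≤ _ := by gcongr
  · rw [abs_div, abs_mul, abs_of_pos hT0, abs_of_pos hp, mul_div_assoc]
    have := mul_le_mul_of_nonneg_left hH3 hT0.le
    rw [mul_div_cancel₀ _ hT0.ne'] at this
    linarith

lemma pow_TM {T ε η : ℝ} {N : ℕ} (hT1 : 1 ≤ T) (hη : 0 < η) (hη1 : η ≤ 1)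
    (hN : (N : ℝ) ≤ 2 * T) : 1 ≤ T ^ (2 * η) ∧ (T ^ 4) ^ (ε / 8) = T ^ (ε / 2) ∧
    ((4 * N ^ 2 : ℕ) : ℝ) ^ η ≤ 16 * T ^ (2 * η) ∧ 4 * (N : ℝ) ^ 2 ≤ 16 * T ^ 2 := by
  have hT0 : 0 < T := by linarith
  have hN4 : 4 * (N : ℝ) ^ 2 ≤ 16 * T ^ 2 := by nlinarith [Nat.cast_nonneg (α := ℝ) N]
  refine ⟨Real.one_le_rpow hT1 (by positivity), ?_, ?_, hN4⟩
  · rw [← Real.rpow_natCast, ← Real.rpow_mul hT0.le]; congr 1; push_cast; ring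
  push_cast
  calc _ ≤ (16 * T ^ 2) ^ η := by gcongr
    _ = 16 ^ η * T ^ (2 * η) := by
      rw [Real.mul_rpow (by norm_num) (by positivity), Real.rpow_mul hT0.le, Real.rpow_two]
    _ ≤ 16 ^ (1 : ℝ) * T ^ (2 * η) := by gcongr; norm_num
    _ = _ := by rw [Real.rpow_one]

lemma rng_TM {T y u y₁ y₂ H N e f : ℝ} (hT1 : 1 ≤ T) (hy : 0 < y) (hy2 : y ≤ 2 * T) (hN : 1 ≤ N)
    (hN2 : N ≤ 2 * T) (he : 1 ≤ e) (hf : 1 ≤ f) (hf2 : f ≤ 20 * T ^ 2) (h1 : y₁ = N * y / e)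
    (h2 : y₂ = y / f) (hu1 : 1 ≤ u) (hu : u ≤ T) (hH1 : 4 / 5 ≤ H) (hH2 : H ≤ u * (y₁ * y₂) / T) :
    0 < y₁ ∧ 0 < y₂ ∧ y₂ ≤ y ∧ y₁ / y₂ ≤ 40 * T ^ 3 ∧ H ≤ 8 * T ^ 3 ∧
      4 * (y₁ / y₂) ≤ 5 * u * N ^ 2 * (y ^ 2 / T) := by
  have hT0 : 0 < T := by linarith
  have hy1 : 0 < y₁ := by rw [h1]; positivity
  have hy2' : 0 < y₂ := by rw [h2]; positivity
  have hy3 : y₂ ≤ y := by rw [h2]; exact div_le_self hy.le hf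
  have hy4 : y₁ ≤ N * y := by rw [h1]; exact div_le_self (by positivity) he
  have hr : y₁ / y₂ ≤ N * f := by
    rw [div_le_iff₀ hy2', h2, mul_assoc, mul_div_cancel₀ _ (by positivity)]; exact hy4
  have k : y₁ * y₂ * f ≤ N * y ^ 2 := by
    rw [h2, mul_assoc, div_mul_cancel₀ _ (by positivity)]; nlinarith
  have hfu : f ≤ 5 / 4 * u * N * (y ^ 2 / T) :=
    calc f = 5 / 4 * (4 / 5 * f) := by ring
      _ ≤ 5 / 4 * (u * (y₁ * y₂) / T * f) := by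
        have := hH1.trans hH2
        gcongr 5 / 4 * (?_ * f)
      _ = 5 / 4 * u * (y₁ * y₂ * f) / T := by ring
      _ ≤ 5 / 4 * u * (N * y ^ 2) / T := by gcongr
      _ = _ := by ring
  refine ⟨hy1, hy2', hy3, hr.trans ?_, hH2.trans ?_, ?_⟩
  · calc N * f ≤ (2 * T) * (20 * T ^ 2) := by gcongr
      _ = _ := by ring
  · rw [div_le_iff₀ hT0]
    calc u * (y₁ * y₂) ≤ T * ((2 * T * (2 * T)) * (2 * T)) := by
          gcongr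
          · exact hy4.trans (by gcongr)
          · linarith
      _ = _ := by ring
  · calc _ ≤ 4 * (N * (5 / 4 * u * N * (y ^ 2 / T))) := by
          gcongr; exact hr.trans (by gcongr)
      _ = _ := by ring

/-- the children -/
lemma kids_TM (hC : ChStmt) {ν : Measure MM} {K Λ η T s A₀ u y y₁ y₂ H' τ : ℝ} {m N : ℕ}
    (hm : ∀ (d : Dat) (Q : ℕ), d.ok (T ^ 4) Q → ∑ q ∈ Icc 1 Q, LN ν q Prod.fst (pk d) ≤
      ENNReal.ofReal (K * Λ * d.xi ^ m * (d.DD * (Q + |d.H2|) + d.XX * (Q : ℝ) ^ η)))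
    (hK : 0 < K) (hΛ : 0 < Λ) (hs : 0 < s) (hsT : s ^ 2 = T) (hAs : A₀ ^ 2 = s) (hA : 100 ≤ A₀)
    (hu : 1 ≤ u) (hN : (1 : ℝ) ≤ N) (hy1 : 0 < y₁) (hy2 : 0 < y₂) (hy : y₂ ≤ y) (hy' : y ≤ 2 * T)
    (h1 : y₁ / y₂ ≤ 40 * T ^ 3) (h2 : |H'| ≤ 8 * T ^ 3)
    (h3 : 4 * (y₁ / y₂) ≤ 5 * u * N ^ 2 * (y ^ 2 / T)) (h4 : |H'| ≤ u * (y₁ * y₂) / T)
    (h5 : 160 * T ^ 3 ≤ T ^ 4) (h6 : T ≤ T ^ 3) (h7 : T ^ 2 ≤ T ^ 3)
    (h8 : 4 * (N : ℝ) ^ 2 ≤ 16 * T ^ 2) (hτ : 1 ≤ τ) (hq : ((4 * N ^ 2 : ℕ) : ℝ) ^ η ≤ 16 * τ)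
    {j : ℤ} (hj : j ∈ Ico (-3 : ℤ) 5) (ζ : Fin 9 → ℝ) :
    ∑ q ∈ Icc 1 (4 * N ^ 2), LN ν q Prod.fst
        (pk (ch2 (y₂ / A₀) (|-y₂| / A₀) (y₁ / y₂) 0 H' j ζ)) ≤
      ENNReal.ofReal (y₁ * y₂ / T * (K * Λ * (5 * (1 + ‖ζ‖)) ^ m * (256 * u ^ 3 * τ *
        (y₁ * y₂ * (1 + y ^ 2 / T) ^ 2 * (((N : ℝ) ^ 2 + s) / s))))) := by
  have hT0 : 0 < T := by rw [← hsT]; positivity
  have hN2 : (1 : ℝ) ≤ (N : ℝ) ^ 2 := one_le_pow₀ hN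
  obtain ⟨k1, k2⟩ := xi_TM (y₂ / A₀) (|-y₂| / A₀) (y₁ / y₂) H' hj ζ
  rw [abs_of_pos (div_pos hy1 hy2)] at k2
  have k3 : 1 ≤ 4 * N ^ 2 := by exact_mod_cast (by linarith : (1 : ℝ) ≤ 4 * (N : ℝ) ^ 2)
  have k4 : y₂ / A₀ ≤ T ^ 4 := (div_le_self hy2.le (by linarith)).trans (by linarith)
  refine (hm _ (4 * N ^ 2) ⟨by show 0 < y₂ / A₀; positivity, (hC.1 _ _ _ _ _ j ζ).2, k4,
    by linarith, by show |H'| ≤ _; linarith, k3, by push_cast; linarith⟩).trans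
      (ENNReal.ofReal_le_ofReal ?_)
  have k5 := num_TM (h := |(ch2 (y₂ / A₀) (|-y₂| / A₀) (y₁ / y₂) 0 H' j ζ).H2|) (H := |H'|)
    (n := (N : ℝ) ^ 2) hs hsT hu hy1 hy2 hy hN2 (abs_nonneg _)
    (by rw [← le_div_iff₀ hy2]; exact k2.trans_eq (by ring)) (k2.trans h3)
    (abs_nonneg _) h4 (by positivity) hq hτ
  rw [sq_abs, sq_abs] at k5
  have k6 : (y₂ / A₀) ^ 2 = y₂ ^ 2 / s := by rw [div_pow, hAs]
  have k7 : (y₂ / A₀) ^ 4 = (y₂ ^ 2 / s) ^ 2 := by rw [← k6]; ring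
  have k8 := (ch2 (y₂ / A₀) (|-y₂| / A₀) (y₁ / y₂) 0 H' j ζ).one_le_xi
  calc _ ≤ K * Λ * (5 * (1 + ‖ζ‖)) ^ m * (y₁ * y₂ / T * (256 * u ^ 3 * τ *
        (y₁ * y₂ * (1 + y ^ 2 / T) ^ 2 * (((N : ℝ) ^ 2 + s) / s)))) := by
        refine mul_le_mul (by gcongr) (le_trans (le_of_eq ?_) k5) ?_ (by positivity)
        · rw [← k7, ← k6]; push_cast; rfl
        · have := (ch2 (y₂ / A₀) (|-y₂| / A₀) (y₁ / y₂) 0 H' j ζ).DD_nonneg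
          have := (ch2 (y₂ / A₀) (|-y₂| / A₀) (y₁ / y₂) 0 H' j ζ).XX_nonneg
          positivity
    _ = _ := by ring

lemma lf_TM (hG : GcdStmt) {N e X : ℕ} {Δ s T y p C : ℝ} (hN : 1 ≤ N) (he : 1 ≤ e)
    (hD : DivB X Δ) (h1 : e ≤ X) (hs : 0 < s) (hsT : s ^ 2 = T) (hp : 0 < p) (hC : 0 ≤ C) :
    p / T * ∑ z ∈ Icc N (2 * N) ×ˢ Icc N (2 * N), C *
      (s / 4 * (1 + s / 4 / (ap z.1 e * ap z.2 e : ℝ))) ≤
      Δ ^ 3 * (C * (p * (1 + y ^ 2 / T) ^ 2 * (((N : ℝ) ^ 2 + s) / s))) := by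
  have hT0 : 0 < T := by rw [← hsT]; positivity
  have k1 := left_TM hG hN he hD h1 hs.le
  have k2 : 1 ≤ (1 + y ^ 2 / T) ^ 2 := one_le_pow₀ (le_add_of_nonneg_right (by positivity))
  have k4 := zero_le_one.trans hD.1
  rw [← mul_sum]
  calc _ ≤ p / T * (C * (Δ ^ 3 * (s * ((N : ℝ) ^ 2 + s)))) := by gcongr
    _ = Δ ^ 3 * (C * (p * 1 * (((N : ℝ) ^ 2 + s) / s))) := by
      rw [← hsT]; field_simp
    _ ≤ _ := by gcongr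

lemma pi_TM {N a b : ℕ} {A₀ y₁ y₂ H' : ℝ} (hN : 1 ≤ N) (ha : N ≤ a) (hb : N ≤ b) (hA : 100 ≤ A₀)
    (hp : 0 < y₁ * y₂) (hm : |H'| * A₀ ^ 2 / (y₁ * y₂) ≤ 1 / 100) :
    ‖pi3 N a b A₀ y₁ y₂ H'‖ ≤ 11 := by
  have hN' : (1 : ℝ) ≤ N := by exact_mod_cast hN
  have k : ∀ a : ℕ, N ≤ a → |(N : ℝ) / a| ≤ 11 := fun a ha => by
    have : (N : ℝ) ≤ a := by exact_mod_cast ha
    rw [abs_of_nonneg (by positivity), div_le_iff₀ (by linarith)]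
    linarith
  refine (pi_norm_le_iff_of_nonneg (by norm_num)).2 fun i => ?_
  fin_cases i
  · exact k _ ha
  · exact k _ hb
  · show |1 / A₀ ^ 2| ≤ 11
    rw [abs_of_nonneg (by positivity), div_le_iff₀ (by positivity)]
    nlinarith
  · show |H' * A₀ ^ 2 / (y₁ * y₂)| ≤ 11
    rw [abs_div, abs_mul, abs_of_pos hp, abs_of_nonneg (sq_nonneg A₀)]
    linarith

lemma fin_TM {Cs u κ Δ Cl K Λ τ Z S r : ℝ} {m : ℕ} (hCs : 0 ≤ Cs) (hu : 1 ≤ u) (hκ : 0 < κ)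
    (hΔ : 0 ≤ Δ) (hCl : 0 ≤ Cl) (hΛ : 0 ≤ Λ) (hτ : 1 ≤ τ) (hZ : 0 ≤ Z) (hr : 0 ≤ r)
    (hS : κ * S ≤ Δ ^ 3 * (Cl * Λ * Z)) :
    Cs * (2 * u) ^ (m + 10) / (1 + r) ^ (m + 10) * (κ * S + κ⁻¹ * (Δ ^ 3 *
      (κ * (K * Λ * (5 * (1 + r)) ^ m * (256 * u ^ 3 * τ * Z))))) ≤
      Cs * (2 * u) ^ (m + 10) * 5 ^ m * (Δ ^ 3 * Λ * ((Cl + 256 * K) * (u ^ 3 * τ)) * Z) *
        (1 / (1 + r) ^ 10) := by
  have k1 : 1 ≤ (5 * (1 + r)) ^ m := one_le_pow₀ (by linarith)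
  have k2 : 1 ≤ u ^ 3 * τ := one_le_mul_of_one_le_of_one_le (one_le_pow₀ hu) hτ
  calc _ ≤ Cs * (2 * u) ^ (m + 10) / (1 + r) ^ (m + 10) *
        (Δ ^ 3 * (Cl * Λ * Z) * ((5 * (1 + r)) ^ m * (u ^ 3 * τ)) +
          Δ ^ 3 * (K * Λ * (5 * (1 + r)) ^ m * (256 * u ^ 3 * τ * Z))) := by
        refine mul_le_mul_of_nonneg_left (add_le_add (hS.trans (le_mul_of_one_le_right
          (by positivity) (one_le_mul_of_one_le_of_one_le k1 k2))) (le_of_eq ?_))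
          (by positivity)
        field_simp
    _ = _ := by
        rw [mul_pow 5, pow_add (1 + r)]
        field_simp

theorem topMid_stmt (hU : UmStmt) (hR : RtStmt) (hS : ShpStmt) (hT : ThStmt) (hM : MidStmt)
    (hP : SepStmt) (hA : AmpStmt) (hW : WhStmt) (hL : LgStmt) (hC : ChStmt) (hI : Id3Stmt)
    (hF : LeftStmt) (hG : GcdStmt) : TopMidStmt := by
  intro η hη hη1 ⟨m, hm⟩
  obtain ⟨μ, hμ⟩ := hU
  obtain ⟨L, hL⟩ := hL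
  obtain ⟨Cs, hCs, hP⟩ := hP 4 9 A3 (f3 L) wh 11 hA.2.2.1 (hA.2.2.2.1 L hL.1) hW.2.1
    (fun p hp => (hA.2.2.2.2 p hp).2) (m + 10)
  obtain ⟨B, hB, hK⟩ := exists_intK 9
  refine ⟨m + 13, fun ε hε => ?_⟩
  obtain ⟨K, hK0, hm⟩ := hm (ε / 8) (by positivity)
  obtain ⟨Cl, hCl, hF⟩ := hF (ε / 8) (by positivity)
  obtain ⟨Cd, hCd, hD⟩ := exD 2 3 20 (show 0 < ε / 2 by positivity)
  have hc0 := hT.1
  refine ⟨8 * (Cs * 2 ^ (m + 10) * 5 ^ m * (Cd * (Cl + 256 * K)) * B) / c0, by positivity,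
    fun δ T y H' N M e f hδ hδ1 hT8 hg he hf hH1 hH2 => ?_⟩
  obtain ⟨hT1, hy, hy2, hN, hN2, -, hM2⟩ := id hg
  obtain ⟨X, Δ, hD, hX, hΔ⟩ := hD T hT1
  obtain ⟨s, A₀, u, hs, hu, hsT, hs0, hAs, hA1, hu1, huA, hAT, hT4, hT3, hT2⟩ :=
    set_TM hT8 hδ hδ1
  obtain ⟨hτ, hΛ, hq, hN4⟩ := pow_TM (ε := ε) hT1 hη hη1 hN2
  rw [mem_Icc] at he hf
  have hT0 : 0 < T := zero_lt_one.trans_le hT1
  have hN' : (1 : ℝ) ≤ N := by exact_mod_cast hN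
  have heX : e ≤ X := by
    exact_mod_cast ((show (e : ℝ) ≤ M by exact_mod_cast he.2).trans hM2).trans hX
  have hNX : 4 * N ^ 2 ≤ X := by
    exact_mod_cast (hN4.trans (by gcongr; norm_num)).trans hX
  obtain ⟨y₁, h1⟩ : ∃ y₁, y₁ = N * y / e := ⟨_, rfl⟩
  obtain ⟨y₂, h2⟩ : ∃ y₂, y₂ = y / f := ⟨_, rfl⟩
  rw [← h1, ← h2] at hH2 ⊢
  rw [hs]
  rw [hu] at hH2
  obtain ⟨hy1, hy2', hy3, g1, g2, g3⟩ := rng_TM hT1 hy hy2 hN' hN2 (by exact_mod_cast he.1)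
    (by exact_mod_cast hf.1) ((show (f : ℝ) ≤ M by exact_mod_cast hf.2).trans hM2) h1 h2 hu1
    (huA.trans hAT) hH1 hH2
  have hH0 : H' ≠ 0 := abs_pos.1 (lt_of_lt_of_le (by norm_num) hH1)
  have hp : 0 < y₁ * y₂ := mul_pos hy1 hy2'
  obtain ⟨hmu, hlam⟩ := mu_TM hsT hs0 hAs hA1 hu1 huA hp hH2
  have hμ' := (hR μ _ hμ (dt_rot (neg_ne_zero.2 hy2'.ne'))).1
  have hΛ0 : 0 < T ^ (ε / 2) := by positivity
  have hch := fun j hj ζ => kids_TM hC (Λ := T ^ (ε / 2)) (fun d Q h => hΛ ▸ hm _ hμ' d _ Q h)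
    hK0 hΛ0 hs0 hsT hAs hA1 hu1 hN' hy1 hy2' hy3 hy2 g1 g2 g3 hH2 hT4 hT3 hT2 hN4 hτ hq
    (j := j) hj ζ
  have hlf := lf_TM hG (y := y) (C := Cl * T ^ (ε / 2)) hN he.1 hD heX hs0 hsT hp (by positivity)
  have hZ0 : 0 < y₁ * y₂ * (1 + y ^ 2 / T) ^ 2 * (((N : ℝ) ^ 2 + s) / s) := by positivity
  generalize y₁ * y₂ * (1 + y ^ 2 / T) ^ 2 * (((N : ℝ) ^ 2 + s) / s) = Z at hch hlf hZ0 ⊢
  have hκ : 0 < y₁ * y₂ / T := by positivity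
  obtain ⟨Wc, hWc⟩ : ∃ Wc, Wc = Cs * (2 * u) ^ (m + 10) * 5 ^ m *
    (Δ ^ 3 * T ^ (ε / 2) * ((Cl + 256 * K) * (u ^ 3 * T ^ (2 * η))) * Z) := ⟨_, rfl⟩
  have hΔ0 := zero_le_one.trans hD.1
  have hu0 := zero_lt_one.trans_le hu1
  have hA0 : (1 : ℝ) ≤ A₀ := le_trans (by norm_num) hA1
  have hW0 : 0 ≤ Wc := by rw [hWc]; positivity
  have main : ENNReal.ofReal c0 * ∑ p ∈ Icc N (2 * N) ×ˢ Icc N (2 * N),
      ‖TS T y p.1 p.2 e f M fun P => dlT p.1 p.2 e P * (om ((hh P : ℝ) / H') : ℂ)‖ₑ ≤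
      ENNReal.ofReal (8 * (Wc * B)) := by
    rw [mul_sum]
    refine (sum_le_sum fun p hp' => one_TM hR hS hM hC hI hμ hL (κ := y₁ * y₂ / T)
      (w := fun ζ => Cs * (2 * u) ^ (m + 10) / (1 + ‖ζ‖) ^ (m + 10))
      (Lb := Cl * T ^ (ε / 2) * (s / 4 * (1 + s / 4 / (ap p.1 e * ap p.2 e : ℝ)))) hg
      (mem_product.1 hp').1 (mem_product.1 hp').2 he.1 hf.1 hA0 hH0 h1 h2 hmu hκ
      ?_ fun hc ζ => ?_).trans ?_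
    · obtain ⟨ha, hb⟩ := mem_product.1 hp'
      obtain ⟨c, c1, c2, c3, c4⟩ := hP (pi3 N p.1 p.2 A₀ y₁ y₂ H') (T * H' / (y₁ * y₂))
        (pi_TM hN (mem_Icc.1 ha).1 (mem_Icc.1 hb).1 hA1 hp hmu)
      exact ⟨c, c1, c2, fun ζ => (c3 ζ).trans (by gcongr), c4⟩
    · obtain ⟨ha, hb⟩ := mem_product.1 hp'
      have k := (hC.2.2.1 A₀).1 ζ
      refine ((hF μ hμ (T ^ 4) (A₀ / 2) _ (one_le_pow₀ hT1) (by positivity)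
        ((half_le_self (by positivity)).trans (hAT.trans (le_self_pow₀ hT1 (by norm_num))))
        k.bd k.sp).1 _ _ (ap_pos_TM (hN.trans (mem_Icc.1 ha).1) e)
        (ap_pos_TM (hN.trans (mem_Icc.1 hb).1) e) hc).trans_eq ?_
      rw [hΛ, show (A₀ / 2) ^ 2 = s / 4 by rw [← hAs]; ring]
    rw [sum_comm]
    refine (sum_le_card_nsmul _ _ (ENNReal.ofReal (Wc * B)) fun j hj => ?_).trans_eq ?_
    swap
    · rw [show (Ico (-3 : ℤ) 5).card = 8 by decide, nsmul_eq_mul,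
        ENNReal.ofReal_mul (by norm_num : (0 : ℝ) ≤ 8), ENNReal.ofReal_ofNat, Nat.cast_ofNat]
    refine (sum_lintegral_le _ _ _).trans ?_
    rw [ENNReal.ofReal_mul hW0]
    refine le_trans (lintegral_mono fun ζ => ?_) ((lintegral_const_mul' _ _
      ENNReal.ofReal_ne_top).le.trans (mul_le_mul_right hK _))
    rw [← mul_sum, sum_add_distrib, ← mul_sum, ← mul_sum, ← ENNReal.ofReal_sum_of_nonneg
      fun _ _ => by positivity]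
    refine (mul_le_mul_right (add_le_add le_rfl (mul_le_mul_right ((mult_TM hN he.1 hD heX hNX
      _).trans (mul_le_mul_right (hch j hj ζ) _)) _)) _).trans ?_
    rw [← ENNReal.ofReal_mul hκ.le, ← ENNReal.ofReal_mul (by positivity),
      ← ENNReal.ofReal_mul (by positivity), ← ENNReal.ofReal_add (mul_nonneg hκ.le
        (sum_nonneg fun _ _ => by positivity)) (by positivity),
      ← ENNReal.ofReal_mul (by positivity), ← ENNReal.ofReal_mul hW0, hWc]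
    exact ENNReal.ofReal_le_ofReal (fin_TM hCs.le hu1 hκ hΔ0 hCl.le hΛ0.le hτ hZ0.le
      (norm_nonneg ζ) hlf)
  rw [← sum_product' (f := fun a b => ‖TS T y a b e f M fun P =>
    dlT a b e P * (om ((hh P : ℝ) / H') : ℂ)‖)]
  simp only [← ofReal_norm_eq_enorm] at main
  rw [← ENNReal.ofReal_sum_of_nonneg fun _ _ => norm_nonneg _, ← ENNReal.ofReal_mul hc0.le,
    ENNReal.ofReal_le_ofReal_iff (by positivity), ← le_div_iff₀' hc0] at main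
  refine main.trans ?_
  have e1 : T ^ (ε + 2 * η + ((m + 13 : ℕ) : ℝ) * δ) =
      T ^ (ε / 2) * T ^ (ε / 2) * T ^ (2 * η) * u ^ (m + 13) := by
    rw [← hu, ← Real.rpow_mul_natCast hT0.le, ← Real.rpow_add hT0, ← Real.rpow_add hT0,
      ← Real.rpow_add hT0]
    congr 1
    ring
  rw [e1, hWc]
  calc _ ≤ 8 * (Cs * (2 * u) ^ (m + 10) * 5 ^ m * (Cd * T ^ (ε / 2) * T ^ (ε / 2) *
        ((Cl + 256 * K) * (u ^ 3 * T ^ (2 * η))) * Z) * B) / c0 := by gcongr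
    _ = _ := by ring

end Pool.Agent.MP_c853c5_nt.W
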