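import Pool.Agent.Mg.C853.G6e22ef
import Pool.Agent.Mg.C853.G94aeb3
import Pool.Agent.Mg.C853.G727f74
import Pool.Agent.Mg.C853.Gf25d0d
import Pool.Agent.Mg.C853.G1a02c6
import Pool.Agent.Mg.C853.G307a8b
import Pool.Agent.Mg.C853.G493181
import Pool.Agent.Mg.C853.G3d1320
import Pool.Agent.Mg.C853.G266d34
import Pool.Agent.Mg.C853.Ga11c5a
import Pool.Agent.Mg.C853.G2b7592
import Pool.Agent.Mg.C853.Gabaa5d

section

set_option autoImplicit false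

open Finset MeasureTheory
open scoped ENNReal ComplexConjugate

namespace Pool.Agent.MP_c853c5_nt.W

open Pool.Agent.MP_2a1f0e_nt Pool.Agent.MP_2a1f0e_nt.GM Pool.Agent.MP_2a1f0e_nt.DH

lemma adm_Ch (α : ℝ) {φ : R2 → ℝ} (hφ : Measurable φ) : Adm α fun a => iC (Cn α a) * ex (φ a) :=
  ⟨(measurable_iC (measurableSet_Cn α)).mul (continuous_ex.measurable.comp hφ),
    fun a => by rw [norm_mul, norm_ex, mul_one]; exact norm_iC_le _,
    fun a h => iC_ne_zero (left_ne_zero_of_mul h)⟩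

lemma adm1_Ch (α A₀ H2 ξ H : ℝ) (i : ℤ) (ζ : Fin 9 → ℝ) : Adm α (ch1 α A₀ H2 ξ H i ζ).g :=
  adm_Ch α (by fun_prop)

lemma adm2_Ch (α A₀ H2 ξ H : ℝ) (i : ℤ) (ζ : Fin 9 → ℝ) : Adm α (ch2 α A₀ H2 ξ H i ζ).g :=
  adm_Ch α (by fun_prop)

lemma can_Ch (a t H : ℝ) (i : ℤ) :
    a * (4 / 3) ^ i * (t / (H * (4 / 3) ^ i)) = a * (t / H) := by
  rw [mul_assoc, ← mul_div_assoc, mul_comm H, mul_div_mul_left _ _ (zpow_ne_zero _ (by norm_num))]

lemma k1_Ch (α A₀ H2 ξ H : ℝ) (i : ℤ) (ζ : Fin 9 → ℝ) (P : Pr) (x : MM) :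
    k1 α A₀ H2 ξ H i ζ P x = k1 α A₀ H2 ξ H i 0 P x *
      ex ((ζ 0 * (vx P.2 x).1 + ζ 1 * (vx P.2 x).2) / A₀ + ζ 4 * dt x + ζ 5 * (tt P x / H2) +
        ζ 7 * ((hh P : ℝ) / H)) := by
  simp only [k1, pk, pa, ch1, E, can_Ch, Pi.zero_apply, zero_mul, add_zero, zero_div, ex_zero,
    add_mul, ex_add]
  ring

lemma kL_Ch (A₀ : ℝ) (ζ : Fin 9 → ℝ) (P : Pr) (x : MM) :
    kL A₀ ζ P x = kL A₀ 0 P x *
      ex ((ζ 0 * (vx P.2 x).1 + ζ 1 * (vx P.2 x).2) / A₀ + ζ 4 * dt x + ζ 5 * (tt P x / 1) +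
        ζ 7 * ((hh P : ℝ) / 1)) := by
  simp only [kL, Pi.zero_apply, zero_mul, add_zero, zero_div, ex_zero, mul_one, div_one]

lemma k2_Ch (α A₀ H2 ξ H : ℝ) {ω : ℝ} (hω : ω ≠ 0) (j : ℤ) (ζ : Fin 9 → ℝ) (P : Pr) (x : MM) :
    k2 α A₀ ω H2 ξ H j ζ P x = k2 α A₀ ω H2 ξ H j 0 P x *
      ex (-(ζ 2 * ((vx P.2 x).1 * A₀ / ω) + ζ 3 * ((vx P.2 x).2 * A₀ / ω) + ζ 6 * (tr P x / H2) +
        ζ 8 * ((hh P : ℝ) / H))) := by
  have h0 : sg ω ≠ 0 := abs_ne_zero.1 (by rw [abs_sg hω]; exact one_ne_zero)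
  have h1 : sg ω / |ω| = 1 / ω := by
    rw [div_eq_div_iff (abs_ne_zero.2 hω) hω, one_mul, sg_mul hω]
  have e1 : tt P (rm (rot (sg ω)) x) = tr P x := by
    simp only [tt, tr, vx_rm, rt, rot, mul_zero, zero_add]
    exact mul_div_mul_right _ _ h0
  have e2 : (ζ 3 * (vx P.2 (rm (rot (sg ω)) x)).1 - ζ 2 * (vx P.2 (rm (rot (sg ω)) x)).2) /
      (|ω| / A₀) = ζ 2 * ((vx P.2 x).1 * A₀ / ω) + ζ 3 * ((vx P.2 x).2 * A₀ / ω) := by
    simp only [vx_rm, rt, rot, div_div_eq_mul_div]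
    linear_combination (ζ 2 * (vx P.2 x).1 * A₀ + ζ 3 * (vx P.2 x).2 * A₀) * h1
  have e3 : ∀ a : ℝ, (ξ - a) * ((hh P : ℝ) / H) =
      ξ * ((hh P : ℝ) / H) + -(a * ((hh P : ℝ) / H)) := fun a => by ring
  simp only [k2, pk, pa, ch2, E, e1, e2, e3, neg_mul, can_Ch, Pi.zero_apply, zero_mul, sub_zero,
    zero_div, neg_zero, ex_zero, neg_add, ex_add]
  ring

lemma sum_Ch (A₀ ω Ha2 Hb2 Ha Hb : ℝ) (ζ : Fin 9 → ℝ) (z : Pr × Pr) (x : MM) :
    ∑ l, ζ l * yv A₀ ω Ha2 Hb2 Ha Hb z x l =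
      ((ζ 0 * (vx z.1.2 x).1 + ζ 1 * (vx z.1.2 x).2) / A₀ + ζ 4 * dt x + ζ 5 * (tt z.1 x / Ha2) +
        ζ 7 * ((hh z.1 : ℝ) / Ha)) +
      (ζ 2 * ((vx z.2.2 x).1 * A₀ / ω) + ζ 3 * ((vx z.2.2 x).2 * A₀ / ω) +
        ζ 6 * (tr z.2 x / Hb2) + ζ 8 * ((hh z.2 : ℝ) / Hb)) := by
  have e : ∑ l, ζ l * yv A₀ ω Ha2 Hb2 Ha Hb z x l = ζ 0 * ((vx z.1.2 x).1 / A₀) +
      ζ 1 * ((vx z.1.2 x).2 / A₀) + ζ 2 * ((vx z.2.2 x).1 * A₀ / ω) +
      ζ 3 * ((vx z.2.2 x).2 * A₀ / ω) + ζ 4 * dt x + ζ 5 * (tt z.1 x / Ha2) +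
      ζ 6 * (tr z.2 x / Hb2) + ζ 7 * ((hh z.1 : ℝ) / Ha) + ζ 8 * ((hh z.2 : ℝ) / Hb) := by
    rw [Fin.sum_univ_castSucc, Fin.sum_univ_eight]
    rfl
  rw [e]
  ring

lemma meas1_Ch (A₀ H2 H : ℝ) (P : Pr) : Measurable fun p : (Fin 9 → ℝ) × MM =>
    ex ((p.1 0 * (vx P.2 p.2).1 + p.1 1 * (vx P.2 p.2).2) / A₀ + p.1 4 * dt p.2 +
      p.1 5 * (tt P p.2 / H2) + p.1 7 * ((hh P : ℝ) / H)) := by
  have h1 := (continuous_vx P.2).measurable
  have h2 := continuous_dt.measurable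
  have h3 := measurable_tt P
  exact continuous_ex.measurable.comp (by fun_prop)

lemma meas2_Ch (A₀ ω H2 H : ℝ) (P : Pr) : Measurable fun p : (Fin 9 → ℝ) × MM =>
    ex (-(p.1 2 * ((vx P.2 p.2).1 * A₀ / ω) + p.1 3 * ((vx P.2 p.2).2 * A₀ / ω) +
      p.1 6 * (tr P p.2 / H2) + p.1 8 * ((hh P : ℝ) / H))) := by
  have h1 := (continuous_vx P.2).measurable
  have h2 : Measurable (tr P) :=
    (continuous_vx P.1).snd.measurable.div (continuous_vx P.2).snd.measurable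
  exact continuous_ex.measurable.comp (by fun_prop)

lemma pac1_Ch (α A₀ ξ H : ℝ) {H2 H2' : ℝ} {i : ℤ} (h : 5 / 6 * |H2 * (4 / 3) ^ i| ≤ |H2'|)
    (ζ : Fin 9 → ℝ) : Pac (Sup α H2' H) (k1 α A₀ H2 ξ H i ζ) := by
  have p := pac_pk (d := ch1 α A₀ H2 ξ H i ζ) (adm1_Ch α A₀ H2 ξ H i ζ) h
  refine ⟨fun P => (continuous_ex.comp (continuous_const.mul continuous_dt)).measurable.mul
    (p.meas P), fun P G x hG => ?_, fun P x => ?_, fun P x hx => p.sp P x (right_ne_zero_of_mul hx)⟩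
  · rw [k1, k1, p.inv P G x hG, dt_act, hG, Int.cast_one, one_mul]
  · rw [k1, norm_mul, norm_ex, one_mul]
    exact p.bd P x

lemma pac2_Ch (α A₀ ω ξ H : ℝ) {H2 H2' : ℝ} {i : ℤ} (h : 5 / 6 * |H2 * (4 / 3) ^ i| ≤ |H2'|)
    (ζ : Fin 9 → ℝ) :
    Pac (fun P x => Sup α H2' H P (rm (rot (sg ω)) x)) (k2 α A₀ ω H2 ξ H i ζ) := by
  have p := pac_pk (d := ch2 α (|ω| / A₀) H2 ξ H i ζ) (adm2_Ch α _ H2 ξ H i ζ) h
  refine ⟨fun P => (p.meas P).comp (continuous_rm _).measurable, fun P G x hG => ?_,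
    fun P x => p.bd P _, fun P x hx => p.sp P _ hx⟩
  rw [k2, k2, p.inv P G _ hG, act_rm]

lemma measL_Ch (A₀ : ℝ) (P : Pr) : Measurable fun p : (Fin 9 → ℝ) × MM => kL A₀ p.1 P p.2 := by
  have h := meas1_Ch A₀ 1 1 P
  simp only [div_one] at h
  exact (((measurable_iC (measurableSet_SupL (A₀ / 2) P)).mul (Complex.measurable_ofReal.comp
    (measurable_om.comp continuous_dt.measurable))).comp measurable_snd).mul h

lemma pacL_Ch (A₀ : ℝ) (ζ : Fin 9 → ℝ) : Pac (SupL (A₀ / 2)) (kL A₀ ζ) := by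
  refine ⟨fun P => Measurable.of_uncurry_left (f := fun ζ x => kL A₀ ζ P x) (measL_Ch A₀ P),
    fun P G x hG => ?_, fun P x => ?_,
    fun P x hx => iC_ne_zero (left_ne_zero_of_mul (left_ne_zero_of_mul hx))⟩
  · rw [kL, kL, iC_congr (supL_inv _ P x hG), dt_act, tt_pg, hh_pg, hG, Int.cast_one, one_mul,
      mul_one, show (pg P G).2 = vg P.2 G from rfl, vx_vg]
  · rw [kL, norm_mul, norm_ex, mul_one, norm_mul]
    exact mul_le_one₀ (norm_iC_le _) (norm_nonneg _) (norm_om_le _)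

theorem ch_stmt : ChStmt := by
  refine ⟨fun α A₀ H2 ξ H i ζ => ⟨adm1_Ch α A₀ H2 ξ H i ζ, adm2_Ch α A₀ H2 ξ H i ζ⟩,
    fun α A₀ ω H2 ξ H H2' i hω h => ⟨fun ζ => ⟨pac1_Ch α A₀ ξ H h ζ, pac2_Ch α A₀ ω ξ H h ζ⟩,
      fun P => ⟨?_, ?_⟩⟩, fun A₀ => ⟨pacL_Ch A₀, measL_Ch A₀⟩,
    fun α β A₀ ω Ha2 Hb2 ξ ξ' Ha Hb i j ζ z x hω _ => ?_,
    fun β A₀ ω Hb2 ξ' Hb j ζ z x hω _ => ?_⟩
  · rw [funext fun p : (Fin 9 → ℝ) × MM => k1_Ch α A₀ H2 ξ H i p.1 P p.2]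
    exact (((pac1_Ch α A₀ ξ H h 0).meas P).comp measurable_snd).mul (meas1_Ch A₀ H2 H P)
  · rw [funext fun p : (Fin 9 → ℝ) × MM => k2_Ch α A₀ H2 ξ H hω i p.1 P p.2]
    exact (((pac2_Ch α A₀ ω ξ H h 0).meas P).comp measurable_snd).mul (meas2_Ch A₀ ω H2 H P)
  · rw [k1_Ch α A₀ Ha2 ξ Ha i ζ, k2_Ch β A₀ Hb2 ξ' Hb hω j ζ, sum_Ch, ex_add, map_mul, conj_ex,
      neg_neg]
    ring
  · rw [kL_Ch A₀ ζ, k2_Ch β A₀ Hb2 ξ' Hb hω j ζ, sum_Ch, ex_add, map_mul, conj_ex, neg_neg]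
    ring

end Pool.Agent.MP_c853c5_nt.W

end

section

set_option autoImplicit false

open Finset MeasureTheory
open scoped ENNReal ComplexConjugate

namespace Pool.Agent.MP_c853c5_nt.W

open Pool.Agent.MP_2a1f0e_nt Pool.Agent.MP_2a1f0e_nt.GM Pool.Agent.MP_2a1f0e_nt.DH

/-- nonzero integers of size at most `M` -/
noncomputable def J_CntC (M : ℕ) : Finset ℤ := (Icc (-(M : ℤ)) M).erase 0

lemma mem_CntC {M : ℕ} {a : ℤ} : a ∈ J_CntC M ↔ a ≠ 0 ∧ |a| ≤ M := by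
  simp only [J_CntC, mem_erase, mem_Icc, abs_le]

lemma sum_CntC (M : ℕ) (f : ℕ → ℝ) :
    ∑ a ∈ J_CntC M, f a.natAbs = 2 * ∑ m ∈ Icc 1 M, f m := by
  induction M with
  | zero => simp [J_CntC]
  | succ M ih =>
    have e : J_CntC (M + 1) = insert ((M : ℤ) + 1) (insert (-((M : ℤ) + 1)) (J_CntC M)) := by
      ext a
      simp only [mem_insert, mem_CntC, abs_le]
      push_cast
      omega
    rw [e, sum_insert, sum_insert, ih, sum_Icc_succ_top (by omega), Int.natAbs_neg,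
      show ((M : ℤ) + 1).natAbs = M + 1 by omega]
    · ring
    · simp only [mem_CntC, abs_le]
      omega
    · simp only [mem_insert, mem_CntC, abs_le]
      omega

lemma card_CntC (M : ℕ) : ((J_CntC M).card : ℝ) = 2 * M := by
  simpa using sum_CntC M fun _ => 1

lemma memf_CntC {Y : ℝ} {a : ℤ} (h0 : a ≠ 0) (h : |(a : ℝ)| ≤ Y) : a ∈ J_CntC ⌊Y⌋₊ := by
  refine mem_CntC.2 ⟨h0, ?_⟩
  rw [← Int.natCast_natAbs, Nat.cast_le, Nat.le_floor_iff ((abs_nonneg _).trans h),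
    Nat.cast_natAbs, Int.cast_abs]
  exact h

/-- the orbit with given parameters -/
def ph_CntC (h d σ a b : ℤ) : Pr × Pr := (((h, d), (0, 1)), ((σ * h, σ * d), (a, b)))

lemma par_CntC {α H2 H R₀ : ℝ} {z : Pr × Pr} (hz : Cs α H2 H R₀ z) (hn : nI z = 0) :
    ∃ σ ∈ ({1, -1} : Finset ℤ), ∃ h d a b : ℤ, z = ph_CntC h d σ a b ∧ 0 ≤ d ∧ d < |h| ∧
      h ∈ J_CntC ⌊2 * |H|⌋₊ ∧ h * b - d * a ∈ J_CntC ⌊2 * |H|⌋₊ := by
  obtain ⟨⟨o1, o2, o3⟩, p1, p2, -, ⟨i1, i2, -, i4, -, i6, -⟩, -⟩ := hz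
  obtain ⟨⟨⟨h, d⟩, u'⟩, v, a, b⟩ := z
  dsimp only at o1 o2 o3 p1 p2 i1 i2 i4 i6
  subst o1
  have e : hh ((h, d), (0, 1)) = h := by simp [hh, om2]
  rw [e] at i1 i4
  rcases prim_par p1 p2 hn with k | k <;> subst k
  · refine ⟨1, by simp, h, d, a, b, by simp [ph_CntC], o2, o3, memf_CntC i1 i4, memf_CntC i2 i6⟩
  · have e2 : hh (-(h, d), (a, b)) = -(h * b - d * a) := by simp [hh, om2]; ring
    rw [e2] at i2 i6
    rw [Int.cast_neg, abs_neg] at i6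
    exact ⟨-1, by simp, h, d, a, b, by simp [ph_CntC], o2, o3, memf_CntC i1 i4,
      memf_CntC (neg_ne_zero.1 i2) i6⟩

theorem cntC_stmt (hG : GcdStmt) : CntCStmt := by
  classical
  intro ε hε
  obtain ⟨C, hC, hD⟩ := exD 2 2 32 hε
  refine ⟨128 * C, by positivity, fun Λ α H2 H R₀ S hB hS => ?_⟩
  obtain ⟨hΛ, hα, hαΛ, -, -⟩ := hB
  obtain ⟨X, Δ, hΔ, hX, hC2⟩ := hD Λ hΛ
  have hΛε : 1 ≤ Λ ^ ε := Real.one_le_rpow hΛ hε.le
  set M := ⌊2 * |H|⌋₊ with hM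
  set R := ⌊32 * α ^ 2⌋₊ with hR
  have hM' : (M : ℝ) ≤ 2 * |H| := Nat.floor_le (by positivity)
  have hRX : R ≤ X := by
    have : (R : ℝ) ≤ 32 * α ^ 2 := Nat.floor_le (by positivity)
    have h2 : α ^ 2 ≤ Λ ^ 2 := by gcongr
    exact_mod_cast (show (R : ℝ) ≤ X by linarith)
  have hM2 : (M : ℝ) * M ≤ 4 * H ^ 2 := by
    rw [← sq_abs H]
    nlinarith [Nat.cast_nonneg (α := ℝ) M]
  have hv : ∀ r, 0 ≤ vb H2 H r := fun r => by unfold vb; split_ifs <;> positivity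
  have h0 : ∑ z ∈ S with rI z = 0, vb H2 H (rI z) ≤ 32 * (|H2| * |H|) := by
    have s : S.filter (fun z => rI z = 0) ⊆
        ((J_CntC M ×ˢ Ico (0 : ℤ) M) ×ˢ (({1, -1} : Finset ℤ) ×ˢ ({1, -1} : Finset ℤ))).image
          fun t => ph_CntC t.1.1 t.1.2 t.2.1 0 t.2.2 := by
      intro z hz
      obtain ⟨z1, z2⟩ := mem_filter.1 hz
      obtain ⟨σ, hσ, h, d, a, b, rfl, d0, d1, hh1, -⟩ := par_CntC (hS z z1).1 (hS z z1).2
      have p : Prim (a, b) := (hS _ z1).1.2.2.2.1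
      have a0 : a = 0 := by simpa [rI, ph_CntC, om2] using z2
      subst a0
      have hb : b.natAbs = 1 := by simpa [Prim, ct] using p
      refine mem_image.2 ⟨((h, d), (σ, b)), mem_product.2 ⟨mem_product.2 ⟨hh1,
        mem_Ico.2 ⟨d0, d1.trans_le (mem_CntC.1 hh1).2⟩⟩, mem_product.2 ⟨hσ, ?_⟩⟩, rfl⟩
      simp only [mem_insert, mem_singleton]
      omega
    have c : ((S.filter fun z => rI z = 0).card : ℝ) ≤ 32 * |H| ^ 2 := by
      have := (card_le_card s).trans card_image_le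
      rw [card_product, card_product, card_product, card_pair (by norm_num), Int.card_Ico,
        sub_zero, Int.toNat_natCast] at this
      have h2 : ((S.filter fun z => rI z = 0).card : ℝ) ≤ (J_CntC M).card * M * (2 * 2) := by
        exact_mod_cast this
      rw [card_CntC] at h2
      rw [sq_abs]
      linarith
    rw [sum_congr rfl (g := fun _ => |H2| / |H|) fun z hz => by
      rw [vb, if_pos (mem_filter.1 hz).2], sum_const, nsmul_eq_mul]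
    refine (mul_le_mul_of_nonneg_right c (by positivity)).trans ?_
    rcases eq_or_ne |H| 0 with k | k
    · simp [k]
    · exact le_of_eq (by field_simp)
  have h1 : ∑ z ∈ S with ¬rI z = 0, vb H2 H (rI z) ≤ 128 * Δ ^ 2 * H ^ 2 := by
    have s : S.filter (fun z => ¬rI z = 0) ⊆
        ((J_CntC R ×ˢ J_CntC M ×ˢ ({1, -1} : Finset ℤ) ×ˢ J_CntC M).sigma fun t =>
          (Ico 0 |t.2.1|).filter fun d => t.2.1 ∣ t.1 * d - t.2.2.2).image
          fun t => ph_CntC t.1.2.1 t.2 t.1.2.2.1 (-t.1.1)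
            ((t.1.2.2.2 - t.2 * t.1.1) / t.1.2.1) := by
      intro z hz
      obtain ⟨z1, z2⟩ := mem_filter.1 hz
      have hr := memf_CntC z2 (hS z z1).1.2.2.2.2.1.2.2.2.2.2.2.1
      obtain ⟨σ, hσ, h, d, a, b, rfl, d0, d1, hh1, hp⟩ := par_CntC (hS z z1).1 (hS z z1).2
      have e : rI (ph_CntC h d σ a b) = -a := by simp [rI, ph_CntC, om2]
      rw [e] at hr
      refine mem_image.2 ⟨⟨(-a, h, σ, h * b - d * a), d⟩, mem_sigma.2 ⟨mem_product.2 ⟨hr,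
        mem_product.2 ⟨hh1, mem_product.2 ⟨hσ, hp⟩⟩⟩, mem_filter.2 ⟨mem_Ico.2 ⟨d0, d1⟩,
          ⟨-b, by ring⟩⟩⟩, ?_⟩
      dsimp only
      rw [neg_neg, show h * b - d * a - d * -a = h * b by ring,
        Int.mul_ediv_cancel_left _ (mem_CntC.1 hh1).1]
    refine (sum_le_sum_of_subset_of_nonneg s fun _ _ _ => hv _).trans ?_
    refine (sum_image_le_of_nonneg fun _ _ => hv _).trans ?_
    rw [sum_sigma, sum_product]
    refine (sum_le_sum (g := fun r : ℤ => 32 * Δ * H ^ 2 * (1 / (r.natAbs : ℝ))) fun r hr => ?_).trans ?_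
    · obtain ⟨r0, r1⟩ := mem_CntC.1 hr
      have e : ∀ h d σ b, vb H2 H (rI (ph_CntC h d σ (-r) b)) = 1 / (r.natAbs : ℝ) := by
        intro h d σ b
        rw [show rI (ph_CntC h d σ (-r) b) = r by simp [rI, ph_CntC, om2], vb, if_neg r0,
          Nat.cast_natAbs, Int.cast_abs]
      simp only [e, sum_const, nsmul_eq_mul]
      rw [← sum_mul, sum_product]
      refine mul_le_mul_of_nonneg_right ?_ (by positivity)
      refine (sum_le_sum (g := fun h : ℤ => 4 * M * (Nat.gcd h.natAbs r.natAbs : ℝ))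
        fun h hh1 => ?_).trans ?_
      · refine (sum_le_card_nsmul _ _ (Nat.gcd h.natAbs r.natAbs : ℝ) fun t _ => ?_).trans ?_
        · exact_mod_cast hG.2.2.2.1 h r t.2 (mem_CntC.1 hh1).1
        · rw [card_product, card_pair (by norm_num), nsmul_eq_mul]
          push_cast
          rw [card_CntC]
          exact le_of_eq (by ring)
      · rw [← mul_sum, sum_CntC M fun m => (Nat.gcd m r.natAbs : ℝ)]
        have g1 := hG.2.1 r.natAbs M (by omega)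
        have g2 := hΔ.2 r.natAbs (by rw [abs_le] at r1; omega)
        have g3 : (r.natAbs.divisors.card : ℝ) * M ≤ Δ * M := by gcongr
        calc 4 * (M : ℝ) * (2 * ∑ m ∈ Icc 1 M, (Nat.gcd m r.natAbs : ℝ))
            ≤ 4 * M * (2 * (Δ * M)) := by gcongr; exact g1.trans g3
          _ = 8 * Δ * (M * M) := by ring
          _ ≤ 8 * Δ * (4 * H ^ 2) := by have := hΔ.1; gcongr
          _ = _ := by ring
    · rw [← mul_sum, sum_CntC R fun m => 1 / (m : ℝ)]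
      have := hΔ.1
      calc 32 * Δ * H ^ 2 * (2 * ∑ m ∈ Icc 1 R, 1 / (m : ℝ))
          ≤ 32 * Δ * H ^ 2 * (2 * (2 * Δ)) := by gcongr; exact harm_le hΔ hRX
        _ = _ := by ring
  rw [← sum_filter_add_sum_filter_not S fun z => rI z = 0]
  have k1 : 1 ≤ C * Λ ^ ε := one_le_mul_of_one_le_of_one_le hC hΛε
  have k2 : 0 ≤ |H2| * |H| := by positivity
  nlinarith [mul_le_mul_of_nonneg_right hC2 (sq_nonneg H), mul_le_mul_of_nonneg_right k1 k2]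

end Pool.Agent.MP_c853c5_nt.W

end

section

set_option autoImplicit false

open Finset MeasureTheory
open scoped ENNReal ComplexConjugate

namespace Pool.Agent.MP_c853c5_nt.W

open Pool.Agent.MP_2a1f0e_nt Pool.Agent.MP_2a1f0e_nt.GM Pool.Agent.MP_2a1f0e_nt.DH

lemma inj_CntL {z w : Pr × Pr} (hz : z.1 = ((1, 0), (0, 1))) (hw : w.1 = ((1, 0), (0, 1)))
    (h1 : rI z = rI w) (h2 : nI z = nI w) (h3 : pI z = pI w) (h4 : sI z = sI w) : z = w := by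
  simp only [rI, nI, pI, sI, om2, hz, hw] at h1 h2 h3 h4
  refine Prod.ext (hz.trans hw.symm) (Prod.ext (Prod.ext ?_ ?_) (Prod.ext ?_ ?_)) <;> omega

lemma harm_CntL (R : Finset ℤ) (M : ℕ) (h : ∀ r ∈ R, r ≠ 0 ∧ r.natAbs ≤ M) :
    ∑ r ∈ R, 1 / |(r : ℝ)| ≤ 2 * ∑ m ∈ Icc 1 M, 1 / (m : ℝ) := by
  have h1 : R ⊆ (Icc 1 M).image (fun m : ℕ => (m : ℤ)) ∪ (Icc 1 M).image (fun m : ℕ => -(m : ℤ)) := by
    intro r hr
    obtain ⟨h2, h3⟩ := h r hr
    simp only [mem_union, mem_image, mem_Icc]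
    rcases le_total 0 r with h4 | h4
    · exact Or.inl ⟨r.natAbs, ⟨by omega, h3⟩, by omega⟩
    · exact Or.inr ⟨r.natAbs, ⟨by omega, h3⟩, by omega⟩
  refine (sum_le_sum_of_subset_of_nonneg h1 fun _ _ _ => by positivity).trans ?_
  have h2 := sum_union_inter (s₁ := (Icc 1 M).image (fun m : ℕ => (m : ℤ)))
    (s₂ := (Icc 1 M).image (fun m : ℕ => -(m : ℤ))) (f := fun r : ℤ => 1 / |(r : ℝ)|)
  rw [sum_image (fun a _ b _ hab => by simpa using hab),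
    sum_image (fun a _ b _ hab => by simpa using hab)] at h2
  simp only [Int.cast_natCast, Int.cast_neg, abs_neg, Nat.abs_cast] at h2
  have h3 : 0 ≤ ∑ r ∈ (Icc 1 M).image (fun m : ℕ => (m : ℤ)) ∩
      (Icc 1 M).image (fun m : ℕ => -(m : ℤ)), 1 / |(r : ℝ)| :=
    sum_nonneg fun _ _ => by positivity
  linarith

lemma small_CntL (S : Finset (Pr × Pr)) (h : ∀ z ∈ S, z.1 = ((1, 0), (0, 1)) ∧ |rI z| ≤ 1 ∧
    |nI z| ≤ 4 * |rI z| + 32 ∧ |pI z| ≤ 2 * |rI z| + 8 ∧ |sI z| ≤ 2 * |rI z| + 8) :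
    ∑ z ∈ S, vb 1 1 (rI z) ≤ 96579 := by
  have h0 : ∀ A B : ℤ, (∀ z ∈ S, |rI z| ≤ A ∧ |nI z| ≤ 36 * A ∧ |pI z| ≤ B ∧ |sI z| ≤ B) →
      S.card ≤ (A + 1 - -A).toNat * ((36 * A + 1 - -(36 * A)).toNat *
        ((B + 1 - -B).toNat * (B + 1 - -B).toNat)) := by
    intro A B h'
    have h1 := card_le_card_of_injOn (s := S)
      (t := Icc (-A) A ×ˢ Icc (-(36 * A)) (36 * A) ×ˢ Icc (-B) B ×ˢ Icc (-B) B)
      (fun z => (rI z, nI z, pI z, sI z)) (fun z hz => by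
        obtain ⟨h2, h3, h4, h5⟩ := h' z hz
        simp only [coe_product, Set.mem_prod, coe_Icc, Set.mem_Icc, ← abs_le]
        exact ⟨h2, h3, h4, h5⟩) fun z hz w hw e => by
        simp only [Prod.mk.injEq] at e
        exact inj_CntL (h z hz).1 (h w hw).1 e.1 e.2.1 e.2.2.1 e.2.2.2
    simpa only [card_product, Int.card_Icc] using h1
  have h1 : S.card ≤ 96579 := h0 1 10 fun z hz => by
    obtain ⟨-, h2, h3, h4, h5⟩ := h z hz
    omega
  have h2 : (S.card : ℝ) ≤ 96579 := by exact_mod_cast h1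
  refine (sum_le_card_nsmul S _ 1 fun z _ => ?_).trans (by simpa using h2)
  unfold vb
  split_ifs with h3
  · simp
  · rw [div_le_one (by positivity)]
    exact_mod_cast Int.one_le_abs h3

lemma fib_CntL (hG : GcdStmt) {X : ℕ} {Δ : ℝ} (hD : DivB X Δ) {b : ℕ} (hb : 1 ≤ b) {r : ℤ}
    (hr : 2 ≤ |r|) (hX : 36 * r ^ 2 + 1 ≤ X) (S : Finset (Pr × Pr))
    (h : ∀ z ∈ S, z.1 = ((1, 0), (0, 1)) ∧ rI z = r ∧ |nI z| ≤ 36 * |r| ∧ (b : ℤ) ∣ nI z ∧
      pI z * sI z = nI z * r - 1) :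
    (S.card : ℝ) ≤ (72 * |(r : ℝ)| / b + 1) * (2 * Δ) := by
  classical
  have h1 : ((S.image nI).card : ℝ) ≤ 2 * (36 * |(r : ℝ)|) / |((b : ℤ) : ℝ)| + 1 := by
    refine hG.2.2.2.2.1 b 1 0 _ _ (by omega) (by simp) (by positivity) fun s hs => ?_
    obtain ⟨z, hz, rfl⟩ := mem_image.1 hs
    exact ⟨by exact_mod_cast (h z hz).2.2.1, by simpa using (h z hz).2.2.2.1⟩
  rw [Int.cast_natCast, Nat.abs_cast, ← mul_assoc, show (2 : ℝ) * 36 = 72 by norm_num] at h1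
  have h2 : ∀ n ∈ S.image nI, ((S.filter fun z => nI z = n).card : ℝ) ≤ 2 * Δ := by
    intro n hn
    obtain ⟨z₀, hz₀, rfl⟩ := mem_image.1 hn
    have h3 : nI z₀ * r - 1 ≠ 0 := fun e => by
      have h4 : r ∣ 1 := Dvd.intro_left _ (by linarith)
      have := Int.le_of_dvd one_pos ((abs_dvd _ _).2 h4)
      omega
    have h4 : (nI z₀ * r - 1).natAbs ≤ X := by
      have h5 := abs_sub (nI z₀ * r) 1
      rw [abs_mul, abs_one] at h5
      have h6 := mul_le_mul_of_nonneg_right (h z₀ hz₀).2.2.1 (abs_nonneg r)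
      have h7 := sq_abs r
      zify
      nlinarith
    have h5 := hG.2.2.2.2.2 _ ((S.filter fun z => nI z = nI z₀).image fun z => (pI z, sI z)) h3
      fun k hk => by
        obtain ⟨z, hz, rfl⟩ := mem_image.1 hk
        rw [mem_filter] at hz
        rw [← hz.2]
        exact (h z hz.1).2.2.2.2
    rw [card_image_of_injOn fun z hz w hw e => by
      rw [mem_coe, mem_filter] at hz hw
      simp only [Prod.mk.injEq] at e
      exact inj_CntL (h z hz.1).1 (h w hw.1).1 ((h z hz.1).2.1.trans (h w hw.1).2.1.symm)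
        (hz.2.trans hw.2.symm) e.1 e.2] at h5
    have h6 : ((S.filter fun z => nI z = nI z₀).card : ℝ) ≤
        2 * ((nI z₀ * r - 1).natAbs.divisors.card : ℝ) := by exact_mod_cast h5
    linarith [hD.2 _ h4]
  rw [card_eq_sum_card_image nI S, Nat.cast_sum]
  refine (sum_le_card_nsmul _ _ _ h2).trans ?_
  rw [nsmul_eq_mul]
  exact mul_le_mul_of_nonneg_right h1 (by linarith [hD.1])

theorem cntL_stmt (hG : GcdStmt) : CntLStmt := by
  classical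
  intro ε hε
  obtain ⟨C, hC, hE⟩ := exD 4 2 40000 hε
  refine ⟨110000 * C, by positivity, fun Λ α a b S hΛ hα hαΛ ha hb hS => ?_⟩
  obtain ⟨X, Δ, hD, hX, hΔ⟩ := hE Λ hΛ
  have hΔ1 := hD.1
  have ha0 : (0 : ℝ) < a := Nat.cast_pos.2 ha
  have hb0 : (0 : ℝ) < b := Nat.cast_pos.2 hb
  have h0 : ∀ z ∈ S, z.1 = ((1, 0), (0, 1)) ∧ |(rI z : ℝ)| ≤ 32 * α ^ 2 ∧
      |nI z| ≤ 4 * |rI z| + 32 ∧ |pI z| ≤ 2 * |rI z| + 8 ∧ |sI z| ≤ 2 * |rI z| + 8 ∧
      pI z * sI z = nI z * rI z - 1 := by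
    intro z hz
    obtain ⟨h1, h2, h3, ⟨-, -, -, -, -, -, h4, h5, h6, h7⟩, -, -⟩ := hS z hz
    have h8 := plucker z
    rw [h2, h3] at h8
    simp only [abs_one, mul_one, one_pow] at h5 h6 h7
    exact ⟨isOrb_one h1 h2, h4, by exact_mod_cast h7, by exact_mod_cast h5, by exact_mod_cast h6,
      by linarith⟩
  have hα2 : α ^ 2 ≤ Λ ^ 2 := by gcongr
  have hΛ2 : 1 ≤ Λ ^ 2 := one_le_pow₀ hΛ
  have hΛ4 : Λ ^ 4 = Λ ^ 2 * Λ ^ 2 := by ring
  have h1 := small_CntL (S.filter fun z => |rI z| ≤ 1) fun z hz => by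
    rw [mem_filter] at hz
    obtain ⟨h1, -, h2, h3, h4, -⟩ := h0 z hz.1
    exact ⟨h1, hz.2, h2, h3, h4⟩
  set S₂ := S.filter fun z => ¬ |rI z| ≤ 1 with hS₂
  have hR : ∀ r ∈ S₂.image rI, 2 ≤ |r| ∧ |(r : ℝ)| ≤ 32 * α ^ 2 ∧ (a : ℤ) ∣ r := by
    intro r hr
    obtain ⟨z, hz, rfl⟩ := mem_image.1 hr
    rw [mem_filter] at hz
    exact ⟨by omega, (h0 z hz.1).2.1, (hS z hz.1).2.2.2.2.1⟩
  have h2 : ∀ r ∈ S₂.image rI, (S₂.filter fun z => rI z = r).card • vb 1 1 r ≤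
      144 * Δ / b + 2 * Δ * (1 / |(r : ℝ)|) := by
    intro r hr
    obtain ⟨r1, r2, -⟩ := hR r hr
    have r0 : r ≠ 0 := fun e => by simp [e] at r1
    have r3 : (0 : ℝ) < |(r : ℝ)| := by positivity
    have h3 := fib_CntL hG hD hb r1 (by
      have h4 : (36 * (r : ℝ) ^ 2 + 1 : ℝ) ≤ X := by
        have h5 : |(r : ℝ)| ^ 2 ≤ (32 * Λ ^ 2) ^ 2 := by gcongr; linarith
        rw [sq_abs] at h5
        nlinarith
      exact_mod_cast h4) (S₂.filter fun z => rI z = r) fun z hz => by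
        rw [mem_filter, mem_filter] at hz
        obtain ⟨h1, -, h2, -, -, h3⟩ := h0 z hz.1.1
        rw [hz.2] at h2 h3
        exact ⟨h1, hz.2, by omega, (hS z hz.1.1).2.2.2.2.2, h3⟩
    rw [nsmul_eq_mul, vb, if_neg r0]
    refine (mul_le_mul_of_nonneg_right h3 (by positivity)).trans (le_of_eq ?_)
    field_simp
    ring
  have h3 : ((S₂.image rI).card : ℝ) ≤ 64 * α ^ 2 / a := by
    have h4 := hG.2.2.2.2.1 a 1 0 (32 * α ^ 2) (insert 0 (S₂.image rI)) (by omega) (by simp)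
      (by positivity) fun s hs => by
        rcases mem_insert.1 hs with rfl | hs
        · simp
          positivity
        · exact ⟨(hR s hs).2.1, by simpa using (hR s hs).2.2⟩
    rw [card_insert_of_notMem fun e => by simpa using (hR 0 e).1, Int.cast_natCast, Nat.abs_cast,
      ← mul_assoc, show (2 : ℝ) * 32 = 64 by norm_num] at h4
    push_cast at h4
    linarith
  have h4 : ∑ r ∈ S₂.image rI, 1 / |(r : ℝ)| ≤ 4 * Δ := by
    refine (harm_CntL _ X fun r hr => ?_).trans (by linarith [harm_le hD le_rfl])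
    obtain ⟨r1, r2, -⟩ := hR r hr
    refine ⟨fun e => by simp [e] at r1, ?_⟩
    have h5 : |(r : ℝ)| ≤ X := by nlinarith
    zify
    exact_mod_cast h5
  have h5 : ∑ z ∈ S₂, vb 1 1 (rI z) ≤ 9216 * Δ * (α ^ 2 / (a * b)) + 8 * Δ ^ 2 := by
    rw [sum_comp (vb 1 1) rI]
    refine (sum_le_sum h2).trans ?_
    rw [sum_add_distrib, ← mul_sum, sum_const, nsmul_eq_mul]
    have h6 := mul_le_mul_of_nonneg_right h3 (by positivity : 0 ≤ 144 * Δ / b)
    have h7 := mul_le_mul_of_nonneg_left h4 (by positivity : 0 ≤ 2 * Δ)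
    have h8 : 64 * α ^ 2 / a * (144 * Δ / b) = 9216 * Δ * (α ^ 2 / (a * b)) := by
      field_simp
      ring
    linarith
  rw [← sum_filter_add_sum_filter_not S fun z => |rI z| ≤ 1]
  have h6 : 0 ≤ α ^ 2 / (a * b) := by positivity
  have h7 : Δ ≤ Δ ^ 2 := by nlinarith
  have h8 := mul_le_mul_of_nonneg_right (h7.trans hΔ) h6
  have h9 : 0 ≤ C * Λ ^ ε * (α ^ 2 / (a * b)) := by positivity
  nlinarith

end Pool.Agent.MP_c853c5_nt.W

end

section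

set_option autoImplicit false

open Finset MeasureTheory
open scoped ENNReal ComplexConjugate

namespace Pool.Agent.MP_c853c5_nt.W

open Pool.Agent.MP_2a1f0e_nt Pool.Agent.MP_2a1f0e_nt.GM Pool.Agent.MP_2a1f0e_nt.DH

open scoped FourierTransform

lemma norm_int_Co1 {f : ℝ → ℂ} {a b B : ℝ} (hab : a ≤ b) (h0 : ∀ z, f z ≠ 0 → a ≤ z ∧ z ≤ b)
    (hB : ∀ z, a ≤ z → z ≤ b → ‖f z‖ ≤ B) : ‖∫ z, f z‖ ≤ B * (b - a) := by
  rw [← setIntegral_eq_integral_of_forall_compl_eq_zero (s := Set.Icc a b)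
    fun x hx => by_contra fun h => hx (h0 x h)]
  have := norm_setIntegral_le_of_norm_le_const (μ := volume) (s := Set.Icc a b) (f := f) (C := B)
    (by simp) fun x hx => hB x hx.1 hx.2
  rwa [Real.volume_real_Icc_of_le hab] at this

lemma FT1_eq_Co1 (f : ℝ → ℂ) : FT1 f = 𝓕 f := by
  funext y
  rw [Real.fourier_real_eq_integral_exp_smul, FT1]
  congr 1
  funext z
  rw [smul_eq_mul, mul_comm, ex]
  congr 2
  push_cast
  ring

lemma inv_Co1 {f : ℝ → ℂ} (hc : Continuous f) (hf : Integrable f) (h' : Integrable (FT1 f))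
    (z : ℝ) : f z = ∫ y : ℝ, FT1 f y * ex (y * z) := by
  rw [FT1_eq_Co1] at h' ⊢
  conv_lhs => rw [← hc.fourierInv_fourier_eq hf h']
  rw [Real.fourierInv_eq']
  congr 1
  funext y
  rw [smul_eq_mul, mul_comm, ex]
  congr 2
  simp only [RCLike.inner_apply, conj_trivial]
  push_cast
  ring

lemma meas_FT1_Co1 {f : ℝ → ℂ} (hc : Continuous f) : Measurable (FT1 f) := by
  have h : Continuous fun p : ℝ × ℝ => f p.2 * ex (-(p.1 * p.2)) :=
    (hc.comp continuous_snd).mul (continuous_ex.comp (continuous_fst.mul continuous_snd).neg)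
  exact (h.stronglyMeasurable.integral_prod_right' (ν := volume)).measurable

/-- the cut-off dilated transform -/
noncomputable def G_Co1 (ξ l z : ℝ) : ℂ := (Wt z : ℂ) * Eh ξ (l * z)

lemma norm_Wt_Co1 (z : ℝ) : ‖(Wt z : ℂ)‖ ≤ 1 := by
  rw [Complex.norm_real, Real.norm_of_nonneg (Wt_nonneg z)]
  exact Wt_le_one z

lemma hcs_Wt_Co1 : HasCompactSupport fun z : ℝ => (Wt z : ℂ) :=
  hasCompactSupport_Wt.comp_left (g := fun x : ℝ => (x : ℂ)) Complex.ofReal_zero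

lemma cont_Wt_Co1 : Continuous fun z : ℝ => (Wt z : ℂ) :=
  Complex.continuous_ofReal.comp continuous_Wt

lemma cont_G_Co1 (h : F1Stmt) (ξ l : ℝ) : Continuous (G_Co1 ξ l) :=
  cont_Wt_Co1.mul ((h (E ξ) (contDiff_E ξ) (hasCompactSupport_E ξ)).1.comp
    (continuous_const.mul continuous_id))

lemma int_G_Co1 (h : F1Stmt) (ξ l : ℝ) : Integrable (G_Co1 ξ l) :=
  (cont_G_Co1 h ξ l).integrable_of_hasCompactSupport hcs_Wt_Co1.mul_right

lemma fub_Co1 (ξ l ζ : ℝ) :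
    FT1 (G_Co1 ξ l) ζ = ∫ y : ℝ, E ξ y * FT1 (fun z => (Wt z : ℂ)) (ζ + l * y) := by
  have hE : Integrable (E ξ) :=
    (contDiff_E ξ).continuous.integrable_of_hasCompactSupport (hasCompactSupport_E ξ)
  have hW : Integrable fun z : ℝ => (Wt z : ℂ) :=
    cont_Wt_Co1.integrable_of_hasCompactSupport hcs_Wt_Co1
  have hI : Integrable (Function.uncurry fun z y : ℝ =>
      (Wt z : ℂ) * E ξ y * ex (-((ζ + l * y) * z))) (volume.prod volume) := by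
    refine (hW.mul_prod hE).mul_bdd (c := 1) ?_ (Filter.Eventually.of_forall fun p => ?_)
    · exact (continuous_ex.comp (((continuous_const.add (continuous_const.mul continuous_snd)).mul
        continuous_fst).neg)).aestronglyMeasurable
    · exact (norm_ex _).le
  have h1 : FT1 (G_Co1 ξ l) ζ =
      ∫ z : ℝ, ∫ y : ℝ, (Wt z : ℂ) * E ξ y * ex (-((ζ + l * y) * z)) := by
    rw [FT1]
    congr 1
    funext z
    rw [G_Co1, Eh, FT1, ← integral_const_mul, ← integral_mul_const]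
    congr 1
    funext y
    rw [show -((ζ + l * y) * z) = -(l * z * y) + -(ζ * z) by ring, ex_add]
    ring
  rw [h1, integral_integral_swap hI]
  congr 1
  funext y
  rw [FT1, ← integral_const_mul]
  congr 1
  funext z
  ring

lemma bd1_Co1 (hE : EhStmt) (A : ℕ) : ∃ C : ℝ, 0 < C ∧ ∀ ξ l ζ : ℝ,
    ‖FT1 (G_Co1 ξ l) ζ‖ ≤ C * (1 + |ξ|) ^ A / (1 + |l|) ^ A := by
  obtain ⟨C, hC, h⟩ := hE A
  refine ⟨C * 2 ^ A * (3 / 2), by positivity, fun ξ l ζ => ?_⟩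
  have := norm_int_Co1 (f := fun z => G_Co1 ξ l z * ex (-(ζ * z))) (a := 3 / 4) (b := 9 / 4)
    (B := C * 2 ^ A * (1 + |ξ|) ^ A / (1 + |l|) ^ A) (by norm_num) (fun z hz => by
      have h1 : Wt z ≠ 0 := fun h0 => hz (by simp [G_Co1, h0])
      exact ⟨(mem_of_Wt_ne_zero h1).1.le, (mem_of_Wt_ne_zero h1).2.le⟩) (fun z h1 _ => by
      rw [norm_mul, norm_ex, mul_one, G_Co1, norm_mul]
      refine (mul_le_of_le_one_left (norm_nonneg _) (norm_Wt_Co1 z)).trans ((h ξ _).trans ?_)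
      have h2 : 1 + |l| ≤ 2 * (1 + |l * z|) := by
        rw [abs_mul, abs_of_nonneg (by linarith : 0 ≤ z)]
        nlinarith [abs_nonneg l]
      have h3 : (1 + |l|) ^ A ≤ 2 ^ A * (1 + |l * z|) ^ A := by
        rw [← mul_pow]
        exact pow_le_pow_left₀ (by positivity) h2 A
      rw [div_le_div_iff₀ (by positivity) (by positivity)]
      calc C * (1 + |ξ|) ^ A * (1 + |l|) ^ A
          ≤ C * (1 + |ξ|) ^ A * (2 ^ A * (1 + |l * z|) ^ A) := by gcongr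
        _ = _ := by ring)
  rw [FT1]
  refine this.trans (le_of_eq ?_)
  ring

lemma bd2_Co1 (h : F1Stmt) (A : ℕ) : ∃ C : ℝ, 0 < C ∧ ∀ ξ l ζ : ℝ,
    ‖FT1 (G_Co1 ξ l) ζ‖ ≤ C * (1 + |l|) ^ A / (1 + |ζ|) ^ A := by
  obtain ⟨C, hC, hb⟩ := (h (fun z => (Wt z : ℂ))
    (Complex.ofRealCLM.contDiff.comp contDiff_Wt) hcs_Wt_Co1).2.1 A
  refine ⟨C * 2 ^ A * (2 / 3), by positivity, fun ξ l ζ => ?_⟩
  have := norm_int_Co1 (f := fun y => E ξ y * FT1 (fun z => (Wt z : ℂ)) (ζ + l * y)) (a := 1)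
    (b := 5 / 3) (B := C * 2 ^ A * (1 + |l|) ^ A / (1 + |ζ|) ^ A) (by norm_num) (fun z hz => by
      have h1 : E ξ z ≠ 0 := left_ne_zero_of_mul hz
      exact ⟨(E_mem h1).1.le, (E_mem h1).2.le⟩) (fun z h1 h1' => by
      rw [norm_mul]
      refine (mul_le_of_le_one_left (norm_nonneg _) (norm_E_le ξ z)).trans ((hb _).trans ?_)
      have h4 : |ζ| ≤ |ζ + l * z| + |l| * z := by
        have := abs_sub (ζ + l * z) (l * z)
        rwa [add_sub_cancel_right, abs_mul, abs_of_nonneg (by linarith : 0 ≤ z)] at this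
      have h2 : 1 + |ζ| ≤ 2 * (1 + |l|) * (1 + |ζ + l * z|) := by
        nlinarith [abs_nonneg l, abs_nonneg (ζ + l * z),
          mul_nonneg (abs_nonneg l) (abs_nonneg (ζ + l * z))]
      have h3 : (1 + |ζ|) ^ A ≤ 2 ^ A * (1 + |l|) ^ A * (1 + |ζ + l * z|) ^ A := by
        rw [← mul_pow, ← mul_pow]
        exact pow_le_pow_left₀ (by positivity) h2 A
      rw [div_le_div_iff₀ (by positivity) (by positivity)]
      calc C * (1 + |ζ|) ^ A
          ≤ C * (2 ^ A * (1 + |l|) ^ A * (1 + |ζ + l * z|) ^ A) := by gcongr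
        _ = _ := by ring)
  rw [fub_Co1]
  refine this.trans (le_of_eq ?_)
  ring

lemma int_c_Co1 (h : F1Stmt) (ξ l : ℝ) : Integrable (FT1 (G_Co1 ξ l)) := by
  obtain ⟨C, hC, hb⟩ := bd2_Co1 h 2
  refine (integrable_inv_one_add_sq.const_mul (C * (1 + |l|) ^ 2)).mono'
    (meas_FT1_Co1 (cont_G_Co1 h ξ l)).aestronglyMeasurable
    (Filter.Eventually.of_forall fun ζ => (hb ξ l ζ).trans ?_)
  rw [← div_eq_mul_inv]
  refine div_le_div_of_nonneg_left (by positivity) (by positivity) ?_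
  nlinarith [abs_nonneg ζ, sq_abs ζ]

theorem co1_stmt (h : F1Stmt) (hE : EhStmt) (hW : WhStmt) : Co1Stmt := by
  intro M A
  obtain ⟨C1, hC1, h1⟩ := bd1_Co1 hE (2 * (M + A))
  obtain ⟨C2, hC2, h2⟩ := bd2_Co1 h (2 * M)
  refine ⟨C1 + C2, by positivity, fun ξ l => ⟨FT1 (G_Co1 ξ l), meas_FT1_Co1 (cont_G_Co1 h ξ l),
    int_c_Co1 h ξ l, fun ζ => ?_, fun z => ?_⟩⟩
  · refine (pow_le_pow_iff_left₀ (norm_nonneg _) (by positivity) two_ne_zero).1 ?_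
    have h4 := mul_le_mul (h1 ξ l ζ) (h2 ξ l ζ) (norm_nonneg _) (by positivity)
    rw [← sq] at h4
    refine h4.trans ?_
    have h5 : C1 * (1 + |ξ|) ^ (2 * (M + A)) / (1 + |l|) ^ (2 * (M + A)) *
        (C2 * (1 + |l|) ^ (2 * M) / (1 + |ζ|) ^ (2 * M)) =
        C1 * C2 * ((1 + |ξ|) ^ (M + A) / ((1 + |l|) ^ A * (1 + |ζ|) ^ M)) ^ 2 := by
      have : (1 + |l|) ≠ 0 := by positivity
      have : (1 + |ζ|) ≠ 0 := by positivity
      field_simp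
      ring
    rw [h5, mul_div_assoc, mul_pow]
    gcongr
    nlinarith [mul_pos hC1 hC2]
  · have h3 : (om z : ℂ) * Eh ξ (l * z) = om z * G_Co1 ξ l z := by
      by_cases h0 : om z = 0
      · simp [h0]
      · rw [G_Co1, Wt_eq_one (om_mem h0).1.le (by linarith [(om_mem h0).2]), Complex.ofReal_one,
          one_mul]
    rw [h3, inv_Co1 (cont_G_Co1 h ξ l) (int_G_Co1 h ξ l) (int_c_Co1 h ξ l) z,
      ← integral_const_mul]
    congr 1
    funext ζ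
    rw [E]
    ring

end Pool.Agent.MP_c853c5_nt.W

end

section

set_option autoImplicit false

open Finset MeasureTheory
open scoped ENNReal ComplexConjugate

namespace Pool.Agent.MP_c853c5_nt.W

open Pool.Agent.MP_2a1f0e_nt Pool.Agent.MP_2a1f0e_nt.GM Pool.Agent.MP_2a1f0e_nt.DH

/-- the integers of absolute value at most `Y` -/
noncomputable def box_Crude (Y : ℝ) : Finset ℤ := Icc (-⌊Y⌋) ⌊Y⌋

lemma mem_box_Crude {Y : ℝ} {a : ℤ} (h : |(a : ℝ)| ≤ Y) : a ∈ box_Crude Y := by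
  have h1 : |a| ≤ ⌊Y⌋ := Int.le_floor.2 (by exact_mod_cast h)
  exact mem_Icc.2 (abs_le.1 h1)

lemma card_box_Crude {Y : ℝ} (h : 1 ≤ Y) : ((box_Crude Y).card : ℝ) ≤ 3 * Y := by
  have h0 : 0 ≤ ⌊Y⌋ := Int.floor_nonneg.2 (by linarith)
  have h1 : ((box_Crude Y).card : ℤ) = 2 * ⌊Y⌋ + 1 := by
    rw [box_Crude, Int.card_Icc, Int.toNat_of_nonneg (by omega)]
    ring
  have h2 : ((box_Crude Y).card : ℝ) = 2 * (⌊Y⌋ : ℝ) + 1 := by exact_mod_cast h1
  linarith [Int.floor_le Y]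

/-- a box that contains all orbits -/
noncomputable def all_Crude (Λ : ℝ) : Finset (Pr × Pr) :=
  ((box_Crude (2 * Λ) ×ˢ box_Crude (2 * Λ)) ×ˢ {((0 : ℤ), (1 : ℤ))}) ×ˢ
    ((box_Crude (72 * Λ ^ 3) ×ˢ box_Crude (304 * Λ ^ 4)) ×ˢ
      (box_Crude (32 * Λ ^ 2) ×ˢ box_Crude (136 * Λ ^ 3)))

lemma card_all_Crude {Λ : ℝ} (h : 1 ≤ Λ) :
    ((all_Crude Λ).card : ℝ) ≤ 3 ^ 6 * (2 * 2 * 72 * 304 * 32 * 136) * Λ ^ 14 := by
  have h2 : 1 ≤ Λ ^ 2 := one_le_pow₀ h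
  have h3 : 1 ≤ Λ ^ 3 := one_le_pow₀ h
  have h4 : 1 ≤ Λ ^ 4 := one_le_pow₀ h
  have a1 := card_box_Crude (Y := 2 * Λ) (by linarith)
  have a2 := card_box_Crude (Y := 72 * Λ ^ 3) (by linarith)
  have a3 := card_box_Crude (Y := 304 * Λ ^ 4) (by linarith)
  have a4 := card_box_Crude (Y := 32 * Λ ^ 2) (by linarith)
  have a5 := card_box_Crude (Y := 136 * Λ ^ 3) (by linarith)
  simp only [all_Crude, card_product, card_singleton, mul_one, Nat.cast_mul]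
  calc _ ≤ (3 * (2 * Λ)) * (3 * (2 * Λ)) * ((3 * (72 * Λ ^ 3)) * (3 * (304 * Λ ^ 4)) *
        ((3 * (32 * Λ ^ 2)) * (3 * (136 * Λ ^ 3)))) := by gcongr
    _ = _ := by ring

lemma mem_all_Crude {Λ α H2 H : ℝ} (hB : Bd Λ α H2 H) {z : Pr × Pr} (hO : IsOrb z)
    (hz : InvB α H2 H z) : z ∈ all_Crude Λ := by
  obtain ⟨⟨⟨h, d⟩, u⟩, ⟨s, v⟩, ⟨r, w⟩⟩ := z
  obtain ⟨hu, hd0, hd1⟩ := hO
  simp only at hu hd0 hd1
  subst hu
  obtain ⟨hΛ, hα, hαΛ, h2, h1⟩ := hB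
  obtain ⟨h0, -, -, hh', -, -, hr, hp, hs, hn⟩ := hz
  simp only [hh, om2, rI, pI, sI, nI, mul_one, mul_zero, sub_zero, zero_mul, one_mul, zero_sub,
    Int.cast_neg, abs_neg, Int.cast_sub, Int.cast_mul] at h0 hh' hr hp hs hn
  have p2 : Λ ≤ Λ ^ 2 := le_self_pow₀ hΛ (by norm_num)
  have p3 : Λ ≤ Λ ^ 3 := le_self_pow₀ hΛ (by norm_num)
  have p4 : Λ ^ 2 ≤ Λ ^ 4 := pow_le_pow_right₀ hΛ (by norm_num)
  have b1 : |(h : ℝ)| ≤ 2 * Λ := by linarith
  have b0 : (1 : ℝ) ≤ |(h : ℝ)| := by exact_mod_cast Int.one_le_abs h0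
  have b2 : |(d : ℝ)| ≤ 2 * Λ := by
    refine le_trans ?_ b1
    have : |d| ≤ |h| := by rw [abs_of_nonneg hd0]; exact hd1.le
    exact_mod_cast this
  have b3 : |(r : ℝ)| ≤ 32 * Λ ^ 2 := hr.trans (by gcongr)
  have k1 : 2 * |(r : ℝ)| * |H2| + 8 * |H| ≤ 72 * Λ ^ 3 := by
    calc 2 * |(r : ℝ)| * |H2| + 8 * |H| ≤ 2 * (32 * Λ ^ 2) * Λ + 8 * Λ ^ 3 := by
          gcongr
          exact h1.trans p3
      _ = _ := by ring
  have b4 : |(s : ℝ)| ≤ 72 * Λ ^ 3 := hs.trans k1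
  have k2 : 4 * H2 ^ 2 * |(r : ℝ)| + 32 * (|H2| * |H|) ≤ 160 * Λ ^ 4 := by
    rw [← sq_abs H2]
    calc 4 * |H2| ^ 2 * |(r : ℝ)| + 32 * (|H2| * |H|)
        ≤ 4 * Λ ^ 2 * (32 * Λ ^ 2) + 32 * (Λ * Λ) := by gcongr
      _ ≤ _ := by nlinarith
  have key : ∀ a b Y Z : ℝ, |h * a - d * b| ≤ Y → |b| ≤ Z → |a| ≤ Y + 2 * Λ * Z := by
    intro a b Y Z e1 e2
    have e3 : |h * a| ≤ |h * a - d * b| + |d * b| := by
      simpa using abs_add_le (h * a - d * b) (d * b)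
    rw [abs_mul, abs_mul] at e3
    have e4 : |(d : ℝ)| * |b| ≤ 2 * Λ * Z := by gcongr
    have e5 : |a| ≤ |(h : ℝ)| * |a| := le_mul_of_one_le_left (abs_nonneg _) b0
    linarith
  have b5 : |(v : ℝ)| ≤ 304 * Λ ^ 4 := (key _ _ _ _ (hn.trans k2) b4).trans_eq (by ring)
  have b6 : |(w : ℝ)| ≤ 136 * Λ ^ 3 := (key _ _ _ _ (hp.trans k1) b3).trans_eq (by ring)
  simp only [all_Crude, mem_product, mem_singleton]
  exact ⟨⟨⟨mem_box_Crude b1, mem_box_Crude b2⟩, trivial⟩,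
    ⟨mem_box_Crude b4, mem_box_Crude b5⟩, mem_box_Crude b3, mem_box_Crude b6⟩

theorem crude_stmt (hU : UnfStmt) (hI : InvStmt) (hV : Vol1Stmt) : CrudeStmt := by
  refine ⟨3 ^ 6 * (2 * 2 * 72 * 304 * 32 * 136) * 192, by norm_num, fun μ hμ Λ α H2 H hB => ?_⟩
  have hα := hB.2.1
  have hm : ∀ z : Pr × Pr, MeasurableSet {x | SupA α H2 H z.1 x ∧ SupA α H2 H z.2 x} := fun z =>
    (measurableSet_SupA α H2 H z.1).inter (measurableSet_SupA α H2 H z.2)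
  have e1 : LL μ (SupA α H2 H) =
      ∫⁻ x, ∑' z : Pr × Pr, iE (SupA α H2 H z.1 x ∧ SupA α H2 H z.2 x) ∂μ := by
    refine lintegral_congr fun x => ?_
    rw [ENNReal.tsum_prod (f := fun P P' => iE (SupA α H2 H P x ∧ SupA α H2 H P' x)), sq,
      ← ENNReal.tsum_mul_right]
    refine tsum_congr fun P => ?_
    rw [← ENNReal.tsum_mul_left]
    exact tsum_congr fun P' => (iE_and _ _).symm
  rw [e1, hU μ hμ (fun z x => iE (SupA α H2 H z.1 x ∧ SupA α H2 H z.2 x))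
    (fun z => measurable_iE (hm z))
    (fun z G x hG => iE_congr (and_congr (supA_inv α H2 H z.1 x hG) (supA_inv α H2 H z.2 x hG)))
    (fun z x hx => by
      obtain ⟨h1, -⟩ := iE_ne_zero hx
      exact ⟨h1.1, h1.2.1, by linarith [h1.2.2.2.1]⟩)]
  refine tsum_Orb_le (f := fun z => ∫⁻ x, iE (SupA α H2 H z.1 x ∧ SupA α H2 H z.2 x))
    fun S hS => ?_
  have h1 : ∀ z ∈ S, InvB α H2 H z := fun z hz => by
    have h2 := (hS z hz).2
    rw [lintegral_iE _ (hm z)] at h2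
    obtain ⟨x, hx⟩ := nonempty_of_measure_ne_zero h2
    exact hI α H2 H z x hα hx.1 hx.2
  have h2 : ∀ z ∈ S, ∫⁻ x, iE (SupA α H2 H z.1 x ∧ SupA α H2 H z.2 x) ≤
      ENNReal.ofReal (192 * (α ^ 2 * |H2|)) := fun z hz => by
    rw [lintegral_iE _ (hm z)]
    refine (measure_mono fun x hx => hx.1).trans
      ((hV α H2 H z.1 hα (hS z hz).1.1).trans (ENNReal.ofReal_le_ofReal ?_))
    have h3 := (h1 z hz).half
    calc 96 * α ^ 2 * (|H2| / |H|) ≤ 96 * α ^ 2 * (|H2| / (1 / 2)) := by gcongr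
      _ = _ := by ring
  have h3 : (S.card : ℝ) ≤ 3 ^ 6 * (2 * 2 * 72 * 304 * 32 * 136) * Λ ^ 14 :=
    le_trans (by exact_mod_cast card_le_card fun z hz => mem_all_Crude hB (hS z hz).1 (h1 z hz))
      (card_all_Crude hB.1)
  refine (sum_le_card_nsmul _ _ _ h2).trans ?_
  rw [nsmul_eq_mul, ← ENNReal.ofReal_natCast, ← ENNReal.ofReal_mul (Nat.cast_nonneg _)]
  refine ENNReal.ofReal_le_ofReal ?_
  calc (S.card : ℝ) * (192 * (α ^ 2 * |H2|))
      ≤ 3 ^ 6 * (2 * 2 * 72 * 304 * 32 * 136) * Λ ^ 14 * (192 * (α ^ 2 * |H2|)) := by gcongr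
    _ = _ := by ring

end Pool.Agent.MP_c853c5_nt.W

end

section

set_option autoImplicit false
open Finset MeasureTheory
open scoped ENNReal ComplexConjugate
namespace Pool.Agent.MP_c853c5_nt.W
open Pool.Agent.MP_2a1f0e_nt Pool.Agent.MP_2a1f0e_nt.GM Pool.Agent.MP_2a1f0e_nt.DH

lemma sum_le_Gcd (S : Finset ℕ) {q : ℕ} (hq : 1 ≤ q) (F : ℕ → ℝ) (hF : ∀ m, 0 ≤ F m) (B : ℝ)
    (h : ∀ g : ℕ, 1 ≤ g → ∃ T : Finset ℕ, (∀ k, g * k ∈ S → k ∈ T) ∧
      ∑ k ∈ T, (g : ℝ) * F (g * k) ≤ B) :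
    ∑ m ∈ S, (Nat.gcd m q : ℝ) * F m ≤ (q.divisors.card : ℝ) * B := by
  rw [← sum_fiberwise_of_maps_to (t := q.divisors) (g := fun m => Nat.gcd m q)
    fun m _ => Nat.mem_divisors.2 ⟨Nat.gcd_dvd_right _ _, by omega⟩, ← nsmul_eq_mul]
  refine sum_le_card_nsmul _ _ _ fun g hg => ?_
  have h1 := Nat.pos_of_mem_divisors hg
  obtain ⟨T, h2, h3⟩ := h g h1
  refine le_trans ?_ h3
  rw [← sum_image (s := T) (g := fun k => g * k) (f := fun m => (g : ℝ) * F m)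
    fun a _ b _ e => Nat.eq_of_mul_eq_mul_left h1 e,
    sum_congr rfl (g := fun m => (g : ℝ) * F m) fun m hm => by rw [(mem_filter.1 hm).2]]
  refine sum_le_sum_of_subset_of_nonneg (fun m hm => ?_) fun m _ _ =>
    mul_nonneg (Nat.cast_nonneg _) (hF m)
  obtain ⟨h4, h5⟩ := mem_filter.1 hm
  obtain ⟨k, rfl⟩ : g ∣ m := h5 ▸ Nat.gcd_dvd_left m q
  exact mem_image_of_mem _ (h2 k h4)

lemma cancel_Gcd {g : ℕ} (hg : 1 ≤ g) (k : ℕ) : (g : ℝ) * (1 / ((g * k : ℕ) : ℝ)) = 1 / k := by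
  have : (g : ℝ) ≠ 0 := by positivity
  rw [Nat.cast_mul, one_div, mul_inv, mul_inv_cancel_left₀ this, one_div]

lemma card_le_Gcd (S : Finset ℤ) {r : ℤ} (hr : 0 < r) {L : ℝ} (hL : 0 ≤ L)
    (h : ∀ s ∈ S, ∀ t ∈ S, r ∣ s - t ∧ (s : ℝ) - t ≤ L) : (S.card : ℝ) ≤ L / r + 1 := by
  have hr' : (0 : ℝ) < r := by exact_mod_cast hr
  rcases S.eq_empty_or_nonempty with rfl | hS
  · rw [card_empty, Nat.cast_zero]
    positivity
  have hm := S.min'_mem hS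
  have k : S ⊆ (range (⌊L / r⌋₊ + 1)).image fun k : ℕ => S.min' hS + r * k := by
    intro s hs
    obtain ⟨⟨c, hc⟩, h2⟩ := h s hs _ hm
    have h3 := S.min'_le s hs
    have h4 : 0 ≤ c := nonneg_of_mul_nonneg_right (by omega) hr
    lift c to ℕ using h4
    refine mem_image.2 ⟨c, mem_range.2 (Nat.lt_succ_of_le (Nat.le_floor ?_)), by omega⟩
    rw [le_div_iff₀ hr', mul_comm]
    refine le_trans (le_of_eq ?_) h2
    exact_mod_cast hc.symm
  have k2 := (card_le_card k).trans card_image_le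
  rw [card_range] at k2
  have k3 := Nat.floor_le (div_nonneg hL hr'.le)
  have k4 : (S.card : ℝ) ≤ ⌊L / r⌋₊ + 1 := by exact_mod_cast k2
  linarith

theorem gcd_stmt : GcdStmt := by
  refine ⟨fun q M hq => ?_, fun n M hn => ?_, fun e N he hN => ?_, fun h a n hh => ?_,
    fun r a n Y S hr hg hY hS => ?_, fun m S hm hS => ?_⟩
  · simp only [div_eq_mul_one_div (Nat.gcd _ q : ℝ)]
    refine sum_le_Gcd _ hq (fun m => 1 / (m : ℝ)) (fun m => by positivity) _ fun g hg =>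
      ⟨Icc 1 M, fun k hk => ?_, (sum_congr rfl fun k _ => cancel_Gcd hg k).le⟩
    rw [mem_Icc] at hk ⊢
    exact ⟨Nat.pos_of_mul_pos_left hk.1, (Nat.le_mul_of_pos_left k hg).trans hk.2⟩
  · have := sum_le_Gcd (Icc 1 M) hn (fun _ => 1) (fun _ => zero_le_one) M fun g hg =>
      ⟨Icc 1 (M / g), fun k hk => ?_, ?_⟩
    · simpa using this
    · rw [mem_Icc] at hk ⊢
      exact ⟨Nat.pos_of_mul_pos_left hk.1, (Nat.le_div_iff_mul_le hg).2 (mul_comm g k ▸ hk.2)⟩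
    · rw [sum_const, Nat.card_Icc, Nat.add_sub_cancel, nsmul_eq_mul, mul_one]
      exact_mod_cast Nat.div_mul_le_self M g
  · simp only [div_eq_mul_one_div (Nat.gcd _ e : ℝ)]
    rw [mul_comm (2 : ℝ)]
    refine sum_le_Gcd _ he (fun m => 1 / (m : ℝ)) (fun m => by positivity) _ fun g hg =>
      ⟨Icc ((N - 1) / g + 1) (2 * ((N - 1) / g + 1)), fun k hk => ?_, ?_⟩
    · rw [mem_Icc] at hk ⊢
      have h1 := Nat.lt_mul_div_succ (N - 1) hg
      refine ⟨(Nat.div_lt_iff_lt_mul hg).2 (by rw [mul_comm]; omega),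
        Nat.le_of_mul_le_mul_left (hk.2.trans ?_) hg⟩
      rw [mul_left_comm]
      omega
    · obtain ⟨c, hc⟩ : ∃ c, c = (N - 1) / g := ⟨_, rfl⟩
      rw [← hc, sum_congr rfl fun k _ => cancel_Gcd hg k]
      refine (sum_le_card_nsmul _ _ (1 / ((c + 1 : ℕ) : ℝ)) fun k hk => ?_).trans ?_
      · exact one_div_le_one_div_of_le (by positivity) (by exact_mod_cast (mem_Icc.1 hk).1)
      · rw [Nat.card_Icc, nsmul_eq_mul, mul_one_div, div_le_iff₀ (by positivity)]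
        exact_mod_cast (by omega)
  · have h1 : 0 < Int.gcd h a := Int.gcd_pos_of_ne_zero_left a hh
    obtain ⟨h', a', h2, h3, h4⟩ := Int.exists_gcd_one h1
    obtain ⟨g, hg⟩ : ∃ g, g = Int.gcd h a := ⟨_, rfl⟩
    rw [← hg] at h1 h3 h4 ⊢
    have h5 : h' ≠ 0 := fun e => hh (by rw [h3, e, zero_mul])
    have h6 : 0 < |h'| := abs_pos.2 h5
    have h7 : (0 : ℝ) < |h'| := by exact_mod_cast h6
    have h8 : |h| = |h'| * g := by rw [h3, abs_mul, Nat.abs_cast]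
    have k := card_le_Gcd ((Ico 0 |h|).filter fun d => h ∣ a * d - n) h6
      (L := ((|h| - 1 : ℤ) : ℝ)) (by exact_mod_cast (by have := abs_pos.2 hh; omega))
      fun s hs t ht => ?_
    · have k2 : ((|h| - 1 : ℤ) : ℝ) / (|h'| : ℤ) < g := by
        rw [div_lt_iff₀ (by exact_mod_cast h6), mul_comm]
        exact_mod_cast (by omega)
      exact Nat.lt_succ_iff.1 (by exact_mod_cast k.trans_lt (add_lt_add_left k2 1))
    · simp only [mem_filter, mem_Ico] at hs ht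
      refine ⟨(abs_dvd _ _).2 (Int.dvd_of_dvd_mul_right_of_gcd_one (b := a') ?_ h2),
        by exact_mod_cast (by omega)⟩
      have k3 := dvd_sub hs.2 ht.2
      rw [show a * s - n - (a * t - n) = a' * (s - t) * g by rw [h4]; ring, h3] at k3
      exact Int.dvd_of_mul_dvd_mul_right (by omega) k3
  · rw [← Int.cast_abs]
    refine card_le_Gcd S (abs_pos.2 hr) (by positivity) fun s hs t ht =>
      ⟨(abs_dvd _ _).2 (Int.dvd_of_dvd_mul_right_of_gcd_one (b := a) ?_ hg), ?_⟩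
    · have k3 := dvd_sub (hS s hs).2 (hS t ht).2
      rwa [show a * s - n - (a * t - n) = a * (s - t) by ring] at k3
    · linarith [(abs_le.1 (hS s hs).1).2, (abs_le.1 (hS t ht).1).1]
  · have k : m.divisors.card = 2 * m.natAbs.divisors.card := by
      rw [Int.divisors, card_disjUnion, card_map, card_map, two_mul]
    rw [← k]
    refine card_le_card_of_injOn Prod.fst (fun x hx => ?_) fun x hx y hy e => ?_
    · exact mem_coe.2 (Int.mem_divisors.2 ⟨⟨x.2, (hS x hx).symm⟩, hm⟩)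
    · have h1 := hS x hx
      have h2 := hS y hy
      refine Prod.ext e (mul_left_cancel₀ (a := y.1) (fun z => hm ?_) ?_)
      · rw [← h2, z, zero_mul]
      · rw [h2, ← e, h1]

end Pool.Agent.MP_c853c5_nt.W

end

section

/-!
The fourth moment of a smooth zeta sum.
-/

set_option autoImplicit false

open Finset MeasureTheory
open scoped ENNReal ComplexConjugate

namespace Pool.Agent.MP_c853c5_nt.W

open Pool.Agent.MP_2a1f0e_nt Pool.Agent.MP_2a1f0e_nt.GM Pool.Agent.MP_2a1f0e_nt.DH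

lemma grid_M4 {F : ℝ → ℝ} (hF : Continuous F) (h0 : ∀ t, 0 ≤ F t) {H : ℕ} {B a b : ℝ}
    (ha : 0 ≤ a) (hab : a ≤ b) (hb : b ≤ H)
    (h : ∀ ξ : ℝ, ∑ d ∈ Icc (-(H : ℤ)) H, F (d + ξ) ≤ B) : ∫ t in a..b, F t ≤ B := by
  refine (intervalIntegral.integral_mono_interval ha hab hb (ae_of_all _ h0)
    (hF.intervalIntegrable _ _)).trans ?_
  have e := intervalIntegral.sum_integral_adjacent_intervals (f := F) (μ := volume)
    (a := fun k : ℕ => (k : ℝ)) (n := H) fun _ _ => hF.intervalIntegrable _ _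
  have e1 : ∀ k : ℕ, ∫ t in (k : ℝ)..((k + 1 : ℕ) : ℝ), F t = ∫ t in (0 : ℝ)..1, F (k + t) :=
    fun k => by rw [intervalIntegral.integral_comp_add_left, add_zero, Nat.cast_succ]
  have c : ∀ k : ℕ, Continuous fun t => F (k + t) := fun k => by fun_prop
  rw [Nat.cast_zero] at e
  rw [← e, sum_congr rfl fun k _ => e1 k,
    ← intervalIntegral.integral_finsetSum fun k _ => (c k).intervalIntegrable _ _]
  refine (intervalIntegral.integral_mono_on zero_le_one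
    ((continuous_finsetSum _ fun k _ => c k).intervalIntegrable _ _)
    (continuous_const.intervalIntegrable _ _) fun ξ _ => le_trans ?_ (h ξ)).trans_eq (by simp)
  have e2 := sum_image (s := range H) (g := fun k : ℕ => (k : ℤ)) (f := fun d : ℤ => F (d + ξ))
    fun _ _ _ _ e => Nat.cast_injective e
  simp only [Int.cast_natCast] at e2
  rw [← e2]
  refine sum_le_sum_of_subset_of_nonneg (fun d hd => ?_) fun _ _ _ => h0 _
  obtain ⟨k, hk, rfl⟩ := mem_image.1 hd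
  have := mem_range.1 hk
  rw [mem_Icc]
  omega

lemma poly_M4 {ε : ℝ} (hε : 0 < ε) : ∃ C : ℝ, 0 < C ∧ ∀ (M L H : ℕ) (K ξ : ℝ) (c : ℕ → ℂ),
    1 ≤ L → 3 * H ≤ L → M ^ 2 ≤ L → 0 ≤ K → (∀ l ∈ Icc 1 M, ‖c l‖ ≤ K * hf l) →
    ∑ d ∈ Icc (-(H : ℤ)) H, ‖PP M c (d + ξ)‖ ^ 4 ≤ C * (L : ℝ) ^ ε * K ^ 4 * L := by
  have hε' : 0 < ε / 3 := by positivity
  obtain ⟨C, hC, h⟩ := mean_Mom jut_all pos_stmt hε'
  obtain ⟨a, ha, hD⟩ := exists_DivB hε'
  refine ⟨C * a ^ 2, by positivity, fun M L H K ξ c hL hH hM hK hc => ?_⟩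
  have hc' : ∀ l ∈ Icc 1 M, ‖c l * pw (l : ℝ) ξ‖ ≤ K * hf l := fun l hl => by
    rw [norm_mul, norm_pw, mul_one]
    exact hc l hl
  obtain ⟨d, d1, d2⟩ := prod_PowZ (by rwa [← sq]) (hD L hL) hK hK hc' hc'
  have e : (L : ℝ) ^ ε = ((L : ℝ) ^ (ε / 3)) ^ 3 := by
    rw [← Real.rpow_natCast, ← Real.rpow_mul (Nat.cast_nonneg L)]
    congr 1
    push_cast
    ring
  refine le_trans (le_of_eq (sum_congr rfl fun x _ => ?_))
    ((h L H _ d hL hH (by positivity) d1).trans_eq (by rw [e]; ring))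
  rw [← d2, ← PP_add, norm_mul]
  ring

lemma set_M4 {ε : ℝ} (hε : 0 < ε) : ∃ η C : ℝ, 0 < η ∧ 0 < C ∧ ∀ T : ℝ, 12 ≤ T → ∃ H : ℕ,
    3 * T ≤ H ∧ T ^ η ≤ T / 2 ∧ ∀ (M : ℕ) (K ξ : ℝ) (c : ℕ → ℂ),
      (M : ℝ) ^ 2 ≤ 9 * T * (T ^ η) ^ 2 → 0 ≤ K → (∀ l ∈ Icc 1 M, ‖c l‖ ≤ K * hf l) →
      ∑ d ∈ Icc (-(H : ℤ)) H, ‖PP M c (d + ξ)‖ ^ 4 ≤ C * T ^ ε * (T * K ^ 4) := by
  obtain ⟨η, η0, η1, η2⟩ : ∃ η : ℝ, 0 < η ∧ η ≤ 1 / 2 ∧ η * 6 ≤ ε :=
    ⟨min (1 / 2) (ε / 6), by positivity, min_le_left _ _, by linarith [min_le_right (1 / 2) (ε / 6)]⟩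
  obtain ⟨C, hC, h⟩ := poly_M4 η0
  refine ⟨η, 22 * C, η0, by positivity, fun T hT => ?_⟩
  have T0 : 0 < T := by linarith
  have T1 : 1 ≤ T := by linarith
  have q1 : 1 ≤ T ^ η := Real.one_le_rpow T1 η0.le
  have q2 : T ^ η ≤ T / 2 := by
    refine (Real.rpow_le_rpow_of_exponent_le T1 η1).trans ?_
    rw [← Real.sqrt_eq_rpow, Real.sqrt_le_left (by positivity)]
    nlinarith
  have q3 : (T ^ η) ^ 6 ≤ T ^ ε := by
    rw [← Real.rpow_natCast, ← Real.rpow_mul T0.le]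
    exact Real.rpow_le_rpow_of_exponent_le T1 (by push_cast; linarith)
  refine ⟨⌈3 * T⌉₊, Nat.le_ceil _, q2, fun M K ξ c hM hK hc => ?_⟩
  have q4 : T ≤ T * (T ^ η) ^ 2 := le_mul_of_one_le_right T0.le (one_le_pow₀ q1)
  have a1 := Nat.ceil_lt_add_one (show 0 ≤ 3 * T by positivity)
  have a2 := Nat.ceil_lt_add_one (show 0 ≤ 9 * T * (T ^ η) ^ 2 by positivity)
  have a3 : M ^ 2 ≤ ⌈9 * T * (T ^ η) ^ 2⌉₊ := by exact_mod_cast hM.trans (Nat.le_ceil _)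
  have a4 : 0 < ⌈3 * T⌉₊ := Nat.ceil_pos.2 (by positivity)
  obtain ⟨L, hL⟩ : ∃ L, L = ⌈9 * T * (T ^ η) ^ 2⌉₊ + 3 * ⌈3 * T⌉₊ := ⟨_, rfl⟩
  have a5 : (L : ℝ) ≤ 22 * (T * (T ^ η) ^ 2) := by
    rw [hL]
    push_cast
    linarith
  have a6 : (L : ℝ) ≤ T ^ 4 := by
    have b1 : (T ^ η) ^ 2 ≤ (T / 2) ^ 2 := by gcongr
    nlinarith [mul_le_mul_of_nonneg_left b1 T0.le,
      mul_le_mul_of_nonneg_left hT (show 0 ≤ T ^ 3 by positivity), pow_pos T0 3]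
  have a7 : (L : ℝ) ^ η ≤ (T ^ η) ^ 4 := by
    rw [Real.rpow_pow_comm T0.le]
    exact Real.rpow_le_rpow (Nat.cast_nonneg _) a6 η0.le
  refine (h M L _ K ξ c (by omega) (by omega) (by omega) hK hc).trans ?_
  calc C * (L : ℝ) ^ η * K ^ 4 * L ≤ C * (T ^ η) ^ 4 * K ^ 4 * (22 * (T * (T ^ η) ^ 2)) := by
        gcongr
    _ = 22 * C * (T ^ η) ^ 6 * (T * K ^ 4) := by ring
    _ ≤ _ := by gcongr

lemma Zo_eq_M4 {y : ℝ} (hy : 0 < y) (t : ℝ) :
    Zo y t = (√y : ℝ) * R.SZ (fun x => om x * √x) y ⌊2 * y⌋₊ t := by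
  rw [Zo, R.SZ, PP, mul_sum]
  refine sum_congr rfl fun l hl => ?_
  have hl0 : (0 : ℝ) < l := by exact_mod_cast (mem_Icc.1 hl).1
  have e : om ((l : ℝ) / y) = √y * (om ((l : ℝ) / y) * √((l : ℝ) / y) * hf (l : ℝ)) := by
    have h1 := Real.sqrt_pos.2 hl0
    have h2 := Real.sqrt_pos.2 hy
    rw [hf, Real.sqrt_div hl0.le]
    field_simp
  rw [← mul_assoc, ← Complex.ofReal_mul, ← e]

lemma cont_M4 (M : ℕ) : Continuous fun t : ℝ => ∫ ξ : ℝ, kp ξ * ‖ZZ M (t + ξ)‖ ^ 4 := by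
  refine continuous_of_dominated (bound := fun ξ => kp ξ * (M : ℝ) ^ 4)
    (fun t => (E.mom_Av M 4 (by norm_num) t).1.aestronglyMeasurable)
    (fun t => ae_of_all _ fun ξ => ?_) (integrable_kp.mul_const _) (ae_of_all _ fun ξ => ?_)
  · rw [Real.norm_of_nonneg (mul_nonneg (kp_pos ξ).le (by positivity))]
    exact mul_le_mul_of_nonneg_left (pow_le_pow_left₀ (norm_nonneg _) (norm_ZZ_le M _) 4)
      (kp_pos ξ).le
  · exact continuous_const.mul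
      (((continuous_ZZ M).comp (continuous_id.add continuous_const)).norm.pow 4)

lemma avg_M4 {M H : ℕ} {B : ℝ}
    (h : ∀ ξ : ℝ, ∑ d ∈ Icc (-(H : ℤ)) H, ‖ZZ M (d + ξ)‖ ^ 4 ≤ B) (θ : ℝ) :
    ∑ d ∈ Icc (-(H : ℤ)) H, ∫ ξ : ℝ, kp ξ * ‖ZZ M (d + θ + ξ)‖ ^ 4 ≤ 4 * B := by
  have hi : ∀ d ∈ Icc (-(H : ℤ)) H, Integrable fun ξ : ℝ => kp ξ * ‖ZZ M (d + θ + ξ)‖ ^ 4 :=
    fun d _ => (E.mom_Av M 4 (by norm_num) _).1
  have B0 : 0 ≤ B := (sum_nonneg fun _ _ => by positivity).trans (h 0)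
  rw [← integral_finsetSum _ hi]
  refine (integral_mono (integrable_finsetSum _ hi) (integrable_kp.mul_const B) fun ξ => ?_).trans ?_
  · simp only [← mul_sum, add_assoc]
    exact mul_le_mul_of_nonneg_left (h _) (kp_pos ξ).le
  · rw [integral_mul_const, integral_kp]
    exact mul_le_mul_of_nonneg_right Real.pi_le_four B0

theorem m4_stmt : M4Stmt := by
  intro ε hε
  obtain ⟨η, C, η0, hC, h⟩ := set_M4 hε
  obtain ⟨A, hA, hs⟩ := R.sc_stmt _ _ _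
    (R.sup_om.mul (g := fun x => √x) fun _ hx => Real.contDiffAt_sqrt hx.ne') (η / 3) 0
    (by positivity)
  refine ⟨40 * 1152 ^ 2 + 4 * C + 8 * A ^ 4 * (4096 * C + 3), by positivity,
    fun T y T1 hy hyT => ?_⟩
  have T0 : 0 < T := by linarith
  have hT : T / 2 ≤ 3 * T := by linarith
  have e1 : 1 ≤ T ^ ε := Real.one_le_rpow T1 hε.le
  have u0 : 0 < T * y ^ 2 := by positivity
  have u1 : T * y ^ 2 ≤ T ^ ε * (T * y ^ 2) := le_mul_of_one_le_left u0.le e1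
  have cZ : Continuous fun t => ‖Zo y t‖ ^ 4 :=
    (continuous_PP ⌊2 * y⌋₊ fun n => (om ((n : ℝ) / y) : ℂ)).norm.pow 4
  have f1 : (⌊2 * y⌋₊ : ℝ) ≤ 2 * y := Nat.floor_le (by positivity)
  have fin : ∀ D : ℝ, D ≤ 40 * 1152 ^ 2 + 4 * C + 8 * A ^ 4 * (4096 * C + 3) →
      ∫ t in (T / 2)..(3 * T), ‖Zo y t‖ ^ 4 ≤ D * (T ^ ε * (T * y ^ 2)) →
      ∫ t in (T / 2)..(3 * T), ‖Zo y t‖ ^ 4 ≤
        (40 * 1152 ^ 2 + 4 * C + 8 * A ^ 4 * (4096 * C + 3)) * T ^ ε * (T * y ^ 2) :=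
    fun D h1 h2 => h2.trans ((mul_le_mul_of_nonneg_right h1 (by positivity)).trans_eq (by ring))
  have p1 : 0 ≤ 8 * A ^ 4 * (4096 * C + 3) := by positivity
  rcases le_or_gt y 1152 with y1 | y1
  · refine fin (40 * 1152 ^ 2) (by linarith) ?_
    have b1 : ∀ t, ‖Zo y t‖ ^ 4 ≤ 16 * 1152 ^ 2 * y ^ 2 := fun t => by
      have b2 : ‖Zo y t‖ ≤ 2 * y := (norm_PP_le (L := ⌊2 * y⌋₊)
        (c := fun n => (om ((n : ℝ) / y) : ℂ)) (fun l _ => norm_om_le _) t).trans (by linarith)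
      have b3 : y ^ 2 ≤ 1152 ^ 2 := by gcongr
      calc ‖Zo y t‖ ^ 4 ≤ (2 * y) ^ 4 := by gcongr
        _ = 16 * y ^ 2 * y ^ 2 := by ring
        _ ≤ _ := by gcongr
    refine (intervalIntegral.integral_mono_on hT (cZ.intervalIntegrable _ _)
      (continuous_const.intervalIntegrable _ _) fun t _ => b1 t).trans ?_
    rw [intervalIntegral.integral_const, smul_eq_mul]
    linarith
  have T2 : 12 ≤ T := by nlinarith
  obtain ⟨H, hH, q2, hm⟩ := h T T2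
  have q1 : 1 ≤ T ^ η := Real.one_le_rpow T1 η0.le
  rcases le_or_gt (y ^ 2) T with y2 | y2
  · refine fin (4 * C) (by linarith) ?_
    refine (grid_M4 cZ (fun _ => by positivity) (by positivity) hT hH fun ξ =>
      hm ⌊2 * y⌋₊ (√(2 * y)) ξ (fun n => (om ((n : ℝ) / y) : ℂ)) ?_ (Real.sqrt_nonneg _)
        fun l hl => (norm_om_le _).trans ?_).trans_eq ?_
    · have b1 : (⌊2 * y⌋₊ : ℝ) ^ 2 ≤ (2 * y) ^ 2 := by gcongr
      nlinarith [le_mul_of_one_le_right T0.le (one_le_pow₀ q1 : 1 ≤ (T ^ η) ^ 2)]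
    · have l0 : (0 : ℝ) < l := by exact_mod_cast (mem_Icc.1 hl).1
      have l1 : (l : ℝ) ≤ ⌊2 * y⌋₊ := by exact_mod_cast (mem_Icc.1 hl).2
      rw [hf, mul_one_div, one_le_div (Real.sqrt_pos.2 l0)]
      exact Real.sqrt_le_sqrt (l1.trans f1)
    · rw [show 4 = 2 * 2 from rfl, pow_mul, Real.sq_sqrt (by positivity)]
      ring
  refine fin (8 * A ^ 4 * (4096 * C + 3)) (by linarith) ?_
  obtain ⟨M, hM⟩ : ∃ M, M = ⌊3 * T * T ^ η / y⌋₊ := ⟨_, rfl⟩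
  have m1 : (M : ℝ) * y ≤ 3 * T * T ^ η :=
    (le_div_iff₀ hy).1 (hM ▸ Nat.floor_le (by positivity))
  have m2 : 3 * T * T ^ η ≤ (M + 1) * y := ((div_lt_iff₀ hy).1 (hM ▸ Nat.lt_floor_add_one _)).le
  have m3 : (M : ℝ) ^ 2 ≤ 9 * T * (T ^ η) ^ 2 := by
    have b1 : ((M : ℝ) * y) ^ 2 ≤ (3 * T * T ^ η) ^ 2 := by gcongr
    refine le_of_mul_le_mul_right ?_ T0
    nlinarith [mul_le_mul_of_nonneg_left y2.le (sq_nonneg (M : ℝ))]
  have e3 : (T ^ 3) ^ (η / 3) = T ^ η := by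
    rw [← Real.rpow_natCast, ← Real.rpow_mul T0.le]
    congr 1
    push_cast
    ring
  have g1 := grid_M4 (cont_M4 M)
    (fun t => integral_nonneg fun ξ => mul_nonneg (kp_pos ξ).le (by positivity))
    (by positivity) hT hH (avg_M4 fun ξ => hm M 1 ξ _ m3 zero_le_one fun l _ => by
      rw [Complex.norm_real, Real.norm_of_nonneg (hf_nonneg _), one_mul])
  have b1 : ∀ t ∈ Set.Icc (T / 2) (3 * T), ‖Zo y t‖ ^ 4 ≤
      8 * A ^ 4 * y ^ 2 * (1024 * (∫ ξ : ℝ, kp ξ * ‖ZZ M (t + ξ)‖ ^ 4) + 1) := fun t ht => by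
    have t0 : 0 < t := by linarith [ht.1]
    have T3 : 12 * T ^ 2 ≤ T ^ 3 := by nlinarith [mul_le_mul_of_nonneg_left T2 (sq_nonneg T)]
    have b2 := hs (T ^ 3) y (3 * T) ⌊2 * y⌋₊ M t (by linarith) (by nlinarith)
      (by linarith [Nat.lt_floor_add_one (2 * y)]) (by nlinarith) (by rw [e3]; linarith)
      (by rw [e3, abs_of_pos t0]; linarith [ht.1]) (by rw [abs_of_pos t0]; exact ht.2)
    have b3 := (E.mom_Av M 4 (by norm_num) t).2
    have b4 : 0 ≤ ∫ ξ : ℝ, kp ξ * ‖ZZ M (t + ξ)‖ :=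
      integral_nonneg fun ξ => mul_nonneg (kp_pos ξ).le (norm_nonneg _)
    rw [neg_zero, Real.rpow_zero, ← mul_add] at b2
    generalize (∫ ξ : ℝ, kp ξ * ‖ZZ M (t + ξ)‖) = I at b2 b3 b4
    generalize (∫ ξ : ℝ, kp ξ * ‖ZZ M (t + ξ)‖ ^ 4) = J at b3 ⊢
    have b5 : (I + 1) ^ 4 ≤ 8 * (1024 * J + 1) := by
      have := add_pow_le b4 zero_le_one 4
      norm_num at this
      linarith
    rw [Zo_eq_M4 hy, norm_mul, Complex.norm_real, Real.norm_of_nonneg (Real.sqrt_nonneg _),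
      mul_pow, show 4 = 2 * 2 from rfl, pow_mul (√y), Real.sq_sqrt hy.le]
    calc y ^ 2 * _ ^ 4 ≤ y ^ 2 * (A * (I + 1)) ^ 4 := by gcongr
      _ = y ^ 2 * A ^ 4 * (I + 1) ^ 4 := by ring
      _ ≤ y ^ 2 * A ^ 4 * (8 * (1024 * J + 1)) := by gcongr
      _ = _ := by ring
  have c1 : Continuous fun t : ℝ => 1024 * ∫ ξ : ℝ, kp ξ * ‖ZZ M (t + ξ)‖ ^ 4 :=
    continuous_const.mul (cont_M4 M)
  have c2 : Continuous fun t : ℝ =>
      8 * A ^ 4 * y ^ 2 * (1024 * (∫ ξ : ℝ, kp ξ * ‖ZZ M (t + ξ)‖ ^ 4) + 1) :=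
    continuous_const.mul (c1.add continuous_const)
  refine (intervalIntegral.integral_mono_on hT (cZ.intervalIntegrable _ _)
    (c2.intervalIntegrable _ _) b1).trans ?_
  rw [intervalIntegral.integral_const_mul, intervalIntegral.integral_add
    (c1.intervalIntegrable _ _) (continuous_const.intervalIntegrable _ _),
    intervalIntegral.integral_const_mul, intervalIntegral.integral_const, smul_eq_mul]
  have g2 : 1024 * (∫ t in (T / 2)..(3 * T), ∫ ξ : ℝ, kp ξ * ‖ZZ M (t + ξ)‖ ^ 4) +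
      (3 * T - T / 2) * 1 ≤ (4096 * C + 3) * (T ^ ε * T) := by
    linarith [le_mul_of_one_le_left T0.le e1]
  exact (mul_le_mul_of_nonneg_left g2 (by positivity)).trans_eq (by ring)

end Pool.Agent.MP_c853c5_nt.W

end

section

set_option autoImplicit false
open Finset MeasureTheory
open scoped ENNReal ComplexConjugate
namespace Pool.Agent.MP_c853c5_nt.W
open Pool.Agent.MP_2a1f0e_nt Pool.Agent.MP_2a1f0e_nt.GM Pool.Agent.MP_2a1f0e_nt.DH

lemma enorm_le_Mid {S₁ S₂ : Pr → MM → Prop} {Ψ₁ Ψ₂ : Pk} (h1 : Pac S₁ Ψ₁) (h2 : Pac S₂ Ψ₂)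
    (z : Pr × Pr) (x : MM) : ‖Ψ₁ z.1 x * conj (Ψ₂ z.2 x)‖ₑ ≤ iE (S₁ z.1 x ∧ S₂ z.2 x) := by
  refine enorm_le_iE ?_ fun h => ⟨h1.sp _ _ (left_ne_zero_of_mul h), h2.sp _ _ fun e => ?_⟩
  · rw [norm_mul, Complex.norm_conj]
    exact mul_le_one₀ (h1.bd _ _) (norm_nonneg _) (h2.bd _ _)
  · rw [e, map_zero, mul_zero] at h
    exact h rfl

lemma norm_int_le_Mid {S₁ S₂ : Pr → MM → Prop} {Ψ₁ Ψ₂ : Pk} (h1 : Pac S₁ Ψ₁) (h2 : Pac S₂ Ψ₂)
    {z : Pr × Pr} (hm : MeasurableSet {x | S₁ z.1 x ∧ S₂ z.2 x}) (hv : vol S₁ S₂ z ≠ ⊤) :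
    ‖∫ x, Ψ₁ z.1 x * conj (Ψ₂ z.2 x)‖ ≤ (vol S₁ S₂ z).toReal := by
  rw [← toReal_enorm]
  refine ENNReal.toReal_mono hv ((enorm_integral_le_lintegral_enorm _).trans ?_)
  exact (lintegral_mono (enorm_le_Mid h1 h2 z)).trans_eq (lintegral_iE _ hm)

lemma integrable_Mid {n : ℕ} {S₁ S₂ : Pr → MM → Prop} {Ψ₁ Ψ₂ : (Fin n → ℝ) → Pk}
    {c : (Fin n → ℝ) → ℂ} (hc : Measurable c) (hi : Integrable c)
    (h : ∀ ζ, Pac S₁ (Ψ₁ ζ) ∧ Pac S₂ (Ψ₂ ζ)) {z : Pr × Pr}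
    (m1 : Measurable fun p : (Fin n → ℝ) × MM => Ψ₁ p.1 z.1 p.2)
    (m2 : Measurable fun p : (Fin n → ℝ) × MM => Ψ₂ p.1 z.2 p.2)
    (hm : MeasurableSet {x | S₁ z.1 x ∧ S₂ z.2 x}) (hv : vol S₁ S₂ z ≠ ⊤) :
    Integrable (fun p : (Fin n → ℝ) × MM => c p.1 * (Ψ₁ p.1 z.1 p.2 * conj (Ψ₂ p.1 z.2 p.2)))
      (volume.prod volume) := by
  refine ⟨((hc.comp measurable_fst).mul
    (m1.mul (Complex.continuous_conj.measurable.comp m2))).aestronglyMeasurable, ?_⟩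
  calc ∫⁻ p : (Fin n → ℝ) × MM, ‖c p.1 * (Ψ₁ p.1 z.1 p.2 * conj (Ψ₂ p.1 z.2 p.2))‖ₑ
        ∂(volume.prod volume)
      ≤ ∫⁻ p : (Fin n → ℝ) × MM, ‖c p.1‖ₑ * iE (S₁ z.1 p.2 ∧ S₂ z.2 p.2)
        ∂(volume.prod volume) := by
        refine lintegral_mono fun p => ?_
        rw [enorm_mul]
        exact mul_le_mul_right (enorm_le_Mid (h p.1).1 (h p.1).2 z p.2) _
    _ = (∫⁻ ζ, ‖c ζ‖ₑ) * vol S₁ S₂ z := by
        rw [lintegral_prod_mul (f := fun ζ => ‖c ζ‖ₑ) (g := fun x => iE (S₁ z.1 x ∧ S₂ z.2 x))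
          hc.enorm.aemeasurable (measurable_iE hm).aemeasurable, lintegral_iE _ hm, vol]
    _ < ⊤ := ENNReal.mul_lt_top hi.2 hv.lt_top

theorem mid_stmt (hO : OsStmt) (hT : ThStmt) : MidStmt := by
  intro μ hμ ι J n q pt₁ pt₂ S₁ S₂ Ψ₁ Ψ₂ c A₀ κ G hq s1 s2 hA hκ hc hi hP hM hr hG
  obtain ⟨hfin, hOS⟩ := hO μ hμ pt₁ pt₂ S₁ S₂ s1 s2
  have hm : ∀ z : Pr × Pr, MeasurableSet {x | S₁ z.1 x ∧ S₂ z.2 x} := fun z =>
    (s1.meas z.1).inter (s2.meas z.2)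
  have hv : ∀ z : Orb, vol S₁ S₂ z.1 ≠ ⊤ := fun z => ENNReal.ne_top_of_tsum_ne_top hfin z
  have hs : Summable fun z : Orb => (vol S₁ S₂ z.1).toReal := ENNReal.summable_toReal hfin
  have hF := fun j (hj : j ∈ J) (z : Orb) =>
    integrable_Mid hc hi (hP j hj) (hM j hj z.1.1).1 (hM j hj z.1.2).2 (hm z.1) (hv z)
  set I : ι → Orb → (Fin n → ℝ) → ℂ := fun j z ζ =>
    ∫ x, Ψ₁ j ζ z.1.1 x * conj (Ψ₂ j ζ z.1.2 x) with hI
  have hIi : ∀ j ∈ J, ∀ z : Orb, Integrable fun ζ => c ζ * I j z ζ := fun j hj z => by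
    simpa only [integral_const_mul] using (hF j hj z).integral_prod_left
  have hIb : ∀ j ∈ J, ∀ (z : Orb) (a : ℂ), ‖a‖ ≤ 1 →
      ∫ ζ, ‖a * (c ζ * I j z ζ)‖ ≤ (∫ ζ, ‖c ζ‖) * (vol S₁ S₂ z.1).toReal := by
    intro j hj z a ha
    rw [← integral_mul_const]
    refine integral_mono ((hIi j hj z).const_mul a).norm (hi.norm.mul_const _) fun ζ => ?_
    have := norm_int_le_Mid (hP j hj ζ).1 (hP j hj ζ).2 (hm z.1) (hv z)
    calc ‖a * (c ζ * I j z ζ)‖ = ‖a‖ * (‖c ζ‖ * ‖I j z ζ‖) := by rw [norm_mul, norm_mul]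
      _ ≤ 1 * (‖c ζ‖ * (vol S₁ S₂ z.1).toReal) := by gcongr
      _ = _ := one_mul _
  have key : ∀ z : Orb, (c0 : ℂ) * G z.1 = ∑ j ∈ J, ∫ ζ, c ζ * I j z ζ := by
    intro z
    have e1 : ∫ x, G z.1 * (th0 A₀ z.1 x : ℂ) = (c0 : ℂ) * G z.1 := by
      by_cases h0 : G z.1 = 0
      · simp [h0]
      · rw [integral_const_mul, integral_complex_ofReal,
          (hT.2 A₀ z.1 hA (hr z.1 z.2 h0)).2, mul_comm]
    rw [← e1, integral_congr_ae (ae_of_all _ (hG z.1 z.2)),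
      integral_finsetSum _ fun j hj => (hF j hj z).integral_prod_right]
    refine sum_congr rfl fun j hj => ?_
    rw [← integral_integral_swap (f := fun ζ x =>
      c ζ * (Ψ₁ j ζ z.1.1 x * conj (Ψ₂ j ζ z.1.2 x))) (hF j hj z)]
    simp only [integral_const_mul, hI]
  have hsum : Summable fun z : Orb => ‖G z.1‖ := by
    refine Summable.of_nonneg_of_le (fun z => norm_nonneg _) (fun z => ?_)
      (hs.mul_left (c0⁻¹ * (J.card * ∫ ζ, ‖c ζ‖)))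
    rw [mul_assoc, le_inv_mul_iff₀ hT.1, mul_assoc, ← nsmul_eq_mul]
    have e : c0 * ‖G z.1‖ = ‖(c0 : ℂ) * G z.1‖ := by
      rw [norm_mul, Complex.norm_real, Real.norm_of_nonneg hT.1.le]
    rw [e, key z]
    refine (norm_sum_le _ _).trans (sum_le_card_nsmul _ _ _ fun j hj => ?_)
    refine (norm_integral_le_integral_norm _).trans ?_
    simpa only [one_mul] using hIb j hj z 1 norm_one.le
  refine ⟨hsum, ?_⟩
  have hH : ∀ j ∈ J, HasSum
      (fun z : Orb => dl q (om2 (pt₁ z.1.1) (pt₂ z.1.2)) * ∫ ζ, c ζ * I j z ζ)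
      (∫ ζ, c ζ * OS (dl q) pt₁ pt₂ (Ψ₁ j ζ) (Ψ₂ j ζ)) := by
    intro j hj
    have := hasSum_integral_of_summable_integral_norm
      (F := fun (z : Orb) ζ => dl q (om2 (pt₁ z.1.1) (pt₂ z.1.2)) * (c ζ * I j z ζ))
      (fun z => (hIi j hj z).const_mul _)
      (Summable.of_nonneg_of_le (fun z => integral_nonneg fun ζ => norm_nonneg _)
        (fun z => hIb j hj z _ (norm_dl_le hq _)) (hs.mul_left _))
    simp only [integral_const_mul] at this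
    simpa only [mul_left_comm (dl q _), tsum_mul_left, OS] using this
  have e : (c0 : ℂ) * ∑' z : Orb, dl q (om2 (pt₁ z.1.1) (pt₂ z.1.2)) * G z.1 =
      ∑ j ∈ J, ∫ ζ, c ζ * OS (dl q) pt₁ pt₂ (Ψ₁ j ζ) (Ψ₂ j ζ) := by
    rw [← (hasSum_sum hH).tsum_eq, ← tsum_mul_left]
    refine tsum_congr fun z => ?_
    rw [mul_left_comm, key z, mul_sum]
  have e2 : ENNReal.ofReal c0 = ‖(c0 : ℂ)‖ₑ := by
    rw [← ofReal_norm, Complex.norm_real, Real.norm_of_nonneg hT.1.le]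
  rw [e2, ← enorm_mul, e]
  refine (enorm_sum_le _ _).trans (sum_le_sum fun j hj => ?_)
  refine (enorm_integral_le_lintegral_enorm _).trans (lintegral_mono fun ζ => ?_)
  rw [enorm_mul]
  exact mul_le_mul_right ((hOS q _ _ hq (hP j hj ζ).1 (hP j hj ζ).2).1 κ hκ) _

end Pool.Agent.MP_c853c5_nt.W

end

section

set_option autoImplicit false

open Finset MeasureTheory
open scoped ENNReal ComplexConjugate

namespace Pool.Agent.MP_c853c5_nt.W

open Pool.Agent.MP_2a1f0e_nt Pool.Agent.MP_2a1f0e_nt.GM Pool.Agent.MP_2a1f0e_nt.DH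

lemma dt_le_Out {α : ℝ} {Z : MM} (hα : 0 < α) (h1 : Cn α Z.1) (h2 : Cn α Z.2) :
    |dt Z| ≤ 32 * α ^ 2 := by
  obtain ⟨a1, a2, a3⟩ := h1
  obtain ⟨b1, b2, b3⟩ := h2
  unfold dt
  have e1 : |Z.1.1 * Z.2.2| ≤ (4 * α) * (4 * α) := by
    rw [abs_mul]
    exact mul_le_mul (by rw [abs_of_pos (by linarith)]; exact a2) (b3.trans b2) (abs_nonneg _)
      (by positivity)
  have e2 : |Z.1.2 * Z.2.1| ≤ (4 * α) * (4 * α) := by
    rw [abs_mul]
    exact mul_le_mul (a3.trans a2) (by rw [abs_of_pos (by linarith)]; exact b2) (abs_nonneg _)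
      (by positivity)
  have := abs_sub (Z.1.1 * Z.2.2) (Z.1.2 * Z.2.1)
  nlinarith

lemma swap_Out (hU : UmStmt) (hS : ShpStmt) (hO : OsStmt) (hC : ChgStmt) (hN : NuStmt)
    (d : Dat) (Q Cm : ℕ) (hα : 0 < d.al) (hd : Adm d.al d.g) (hQ : 1 ≤ Q) :
    ∑' z : Orb, swp Q Cm (nI z.1) * Jb d z.1 =
      ∫ Z : MM, iC (BigZ d Z) * (d.g Z.1 * conj (d.g Z.2)) *
        ∑' z : Orb, swp Q Cm (nI z.1) * Fz d Z z.1 := by
  obtain ⟨μ, hμ⟩ := hU
  have hv := (hO μ hμ _ _ _ _ ((hS μ hμ d.al hα).1 d.H2 d.H) ((hS μ hμ d.al hα).1 d.H2 d.H)).1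
  have h1 := integral_tsum (μ := (volume : Measure MM))
    (f := fun (z : Orb) (Z : MM) => swp Q Cm (nI z.1) *
      (iC (BigZ d Z) * (d.g Z.1 * conj (d.g Z.2)) * Fz d Z z.1))
    (fun z => (((hC d z.1 hα hd).1).const_mul _).aestronglyMeasurable) (by
      refine ne_top_of_le_ne_top (ENNReal.mul_ne_top (ENNReal.natCast_ne_top Cm) hv) ?_
      rw [← ENNReal.tsum_mul_left]
      refine ENNReal.tsum_le_tsum fun z => ?_
      simp_rw [enorm_mul (swp Q Cm (nI z.1))]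
      rw [lintegral_const_mul' _ _ enorm_ne_top]
      refine mul_le_mul' ?_ (hC d z.1 hα hd).2.2
      rw [← ofReal_norm, ← ENNReal.ofReal_natCast]
      exact ENNReal.ofReal_le_ofReal (hN Q Cm (nI z.1) hQ).2.2.2)
  simp_rw [integral_const_mul] at h1
  rw [tsum_congr fun z : Orb => by rw [(hC d z.1 hα hd).2.1], ← h1]
  refine integral_congr_ae (Filter.Eventually.of_forall fun Z => ?_)
  simp only
  rw [← tsum_mul_left]
  exact tsum_congr fun z => by ring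

theorem out_stmt (hU : UmStmt) (hS : ShpStmt) (hO : OsStmt) (hC : ChgStmt) (hN : NuStmt)
    (hZ : VolZStmt) (hL : LogVStmt) : OutStmt := by
  intro η _ _ ⟨m, hm⟩
  refine ⟨m, fun ε hε => ?_⟩
  obtain ⟨K, hK, hF⟩ := hm (ε / 2) (by positivity)
  obtain ⟨C, hC0, hL'⟩ := hL (ε / 2) (by positivity)
  refine ⟨K * (C + 4608), by positivity, fun d Λ Q Cm hok => ?_⟩
  have hΛ := hok.one_le
  obtain ⟨hα, hd, hαΛ, -, -, hQ, -⟩ := id hok
  have hxi := d.one_le_xi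
  have hPP := d.PP_nonneg
  have hCC := d.CC_nonneg Q
  have hCη : 0 ≤ d.CC Q ^ η := Real.rpow_nonneg hCC _
  have hΛε : 1 ≤ Λ ^ (ε / 2) := Real.one_le_rpow hΛ (by positivity)
  set a := K * Λ ^ (ε / 2) * d.xi ^ m * ((d.PP + d.H ^ 2) * (d.CC Q + |d.H2|)) with ha
  set b := K * Λ ^ (ε / 2) * d.xi ^ m * ((d.H2 ^ 2 + d.PP) * d.CC Q ^ η) with hb
  have ha0 : 0 ≤ a := by positivity
  have hb0 : 0 ≤ b := by positivity
  have hpt : ∀ Z : MM, ‖iC (BigZ d Z) * (d.g Z.1 * conj (d.g Z.2)) *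
      ∑' z : Orb, swp Q Cm (nI z.1) * Fz d Z z.1‖ₑ ≤
      ENNReal.ofReal a * (iE (Cn d.al Z.1 ∧ Cn d.al Z.2 ∧ 1 ≤ |dt Z|) *
        ENNReal.ofReal (1 / |dt Z|)) +
      ENNReal.ofReal b * iE (Cn d.al Z.1 ∧ Cn d.al Z.2 ∧ |dt Z| ≤ 32 * d.al ^ 2) := fun Z => by
    by_cases h0 : iC (BigZ d Z) * (d.g Z.1 * conj (d.g Z.2)) = 0
    · rw [h0, zero_mul, enorm_zero]
      exact zero_le
    have hB : BigZ d Z := iC_ne_zero (left_ne_zero_of_mul h0)
    have h1 : Cn d.al Z.1 := hd.2.2 _ (left_ne_zero_of_mul (right_ne_zero_of_mul h0))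
    have h2 : Cn d.al Z.2 := hd.2.2 _ (by
      simpa using right_ne_zero_of_mul (right_ne_zero_of_mul h0))
    have h3 : ‖iC (BigZ d Z) * (d.g Z.1 * conj (d.g Z.2))‖ₑ ≤ 1 := by
      rw [← ofReal_norm, ENNReal.ofReal_le_one, norm_mul, norm_mul, Complex.norm_conj]
      exact mul_le_one₀ (norm_iC_le _) (by positivity)
        (mul_le_one₀ (hd.2.1 _) (norm_nonneg _) (hd.2.1 _))
    rw [enorm_mul]
    refine (mul_le_mul' h3 (hF d Λ Q Cm Z hok h1 h2 hB)).trans ?_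
    rw [one_mul]
    by_cases h4 : 1 ≤ |dt Z|
    · rw [iE_pos h4, iE_pos ⟨h1, h2, h4⟩, iE_pos ⟨h1, h2, dt_le_Out hα h1 h2⟩, one_mul, one_mul,
        mul_one, ← ENNReal.ofReal_mul ha0, ← ENNReal.ofReal_add (by positivity) hb0]
      refine ENNReal.ofReal_le_ofReal (le_of_eq ?_)
      rw [ha, hb]
      ring
    · rw [iE_neg h4, zero_mul]
      exact zero_le
  have hms : MeasurableSet {Z : MM | Cn d.al Z.1 ∧ Cn d.al Z.2 ∧ |dt Z| ≤ 32 * d.al ^ 2} :=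
    (measurable_fst (measurableSet_Cn d.al)).inter
      ((measurable_snd (measurableSet_Cn d.al)).inter
        (measurableSet_le continuous_dt.abs.measurable measurable_const))
  rw [swap_Out hU hS hO hC hN d Q Cm hα hd hQ]
  refine (enorm_integral_le_lintegral_enorm _).trans ((lintegral_mono hpt).trans ?_)
  rw [lintegral_add_right _ ((measurable_iE hms).const_mul _),
    lintegral_const_mul' _ _ ENNReal.ofReal_ne_top,
    lintegral_const_mul' _ _ ENNReal.ofReal_ne_top, lintegral_iE _ hms]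
  refine (add_le_add (mul_le_mul' le_rfl (hL' Λ d.al hΛ hα hαΛ))
    (mul_le_mul' le_rfl (hZ d.al _ hα))).trans ?_
  rw [← ENNReal.ofReal_mul ha0, ← ENNReal.ofReal_mul hb0,
    ← ENNReal.ofReal_add (by positivity) (by positivity)]
  refine ENNReal.ofReal_le_ofReal ?_
  have e : Λ ^ ε = Λ ^ (ε / 2) * Λ ^ (ε / 2) := by
    rw [← Real.rpow_add (by linarith)]
    congr 1
    ring
  have e1 : a * (C * Λ ^ (ε / 2) * d.al ^ 2) =
      C * (K * Λ ^ ε * d.xi ^ m * (d.DD * (d.CC Q + |d.H2|))) := by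
    rw [ha, e, Dat.DD]
    ring
  have e2 : b * (144 * d.al ^ 2 * (32 * d.al ^ 2)) =
      4608 * (K * Λ ^ (ε / 2) * d.xi ^ m * (d.XX * d.CC Q ^ η)) := by
    rw [hb, Dat.XX]
    ring
  have hD := d.DD_nonneg
  have hX := d.XX_nonneg
  have e3 : K * Λ ^ (ε / 2) * d.xi ^ m * (d.XX * d.CC Q ^ η) ≤
      K * Λ ^ ε * d.xi ^ m * (d.XX * d.CC Q ^ η) := by
    gcongr
    linarith
  have e4 : 0 ≤ K * Λ ^ ε * d.xi ^ m * (d.XX * d.CC Q ^ η) := by positivity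
  have e5 : 0 ≤ K * Λ ^ ε * d.xi ^ m * (d.DD * (d.CC Q + |d.H2|)) := by positivity
  rw [e1, e2]
  have e6 : K * (C + 4608) * Λ ^ ε * d.xi ^ m * (d.DD * (d.CC Q + |d.H2|) + d.XX * d.CC Q ^ η) =
      (C + 4608) * (K * Λ ^ ε * d.xi ^ m * (d.DD * (d.CC Q + |d.H2|))) +
        (C + 4608) * (K * Λ ^ ε * d.xi ^ m * (d.XX * d.CC Q ^ η)) := by ring
  rw [e6]
  nlinarith [mul_nonneg hC0.le e4]

end Pool.Agent.MP_c853c5_nt.W

end

section

set_option autoImplicit false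

open Finset MeasureTheory
open scoped ENNReal ComplexConjugate

namespace Pool.Agent.MP_c853c5_nt.W

open Pool.Agent.MP_2a1f0e_nt Pool.Agent.MP_2a1f0e_nt.GM Pool.Agent.MP_2a1f0e_nt.DH

lemma lip_Rs {φ : ℝ → ℝ} (hs : ∀ x ≠ 0, ContDiffAt ℝ 1 φ x) (h0 : ∀ z ≤ 1 / 3, φ z = 0)
    (h1 : ∀ z, 9 / 4 ≤ z → φ z = 0) : ∃ L, LipschitzWith L φ := by
  refine ContDiff.lipschitzWith_of_hasCompactSupport (𝕂 := ℝ) (n := 1) ?_ ?_ one_ne_zero
  · refine HasCompactSupport.intro (isCompact_Icc (a := 0) (b := 9 / 4)) fun x hx => ?_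
    rw [Set.mem_Icc, not_and_or, not_le, not_le] at hx
    rcases hx with hx | hx
    · exact h0 x (by linarith)
    · exact h1 x hx.le
  · refine contDiff_iff_contDiffAt.2 fun x => ?_
    by_cases hx : x = 0
    · refine (contDiffAt_const (c := (0 : ℝ))).congr_of_eventuallyEq ?_
      filter_upwards [Iio_mem_nhds (show x < 1 / 3 by rw [hx]; norm_num)] with z hz
      exact h0 z (le_of_lt hz)
    · exact hs x hx

lemma riem_Rs {φ : ℝ → ℝ} {L : NNReal} (hL : LipschitzWith L φ) (h1 : ∀ z, 9 / 4 ≤ z → φ z = 0)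
    {Y : ℝ} {M : ℕ} (hY : 2 ≤ Y) (hM : 3 * Y ≤ M + 1) :
    |∑ k ∈ Icc 1 M, φ ((k : ℝ) / Y) / Y - ∫ x in Set.Ioi (0 : ℝ), φ x| ≤ 3 * L * (1 / Y) := by
  have hY0 : 0 < Y := by linarith
  obtain ⟨N, hN1, hN2⟩ : ∃ N : ℕ, 9 / 4 * Y ≤ N ∧ (N : ℝ) ≤ 9 / 4 * Y + 1 :=
    ⟨⌈9 / 4 * Y⌉₊, Nat.le_ceil _, (Nat.ceil_lt_add_one (by positivity)).le⟩
  have hNM : N ≤ M + 1 := by
    have : (N : ℝ) ≤ (M + 1 : ℕ) := by push_cast; linarith
    exact_mod_cast this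
  have hNM' : N ≤ M := by
    have : (N : ℝ) < (M + 1 : ℕ) := by push_cast; linarith
    have h2 : N < M + 1 := by exact_mod_cast this
    omega
  have e1 : ∑ k ∈ Icc 1 M, φ ((k : ℝ) / Y) / Y =
      ∑ k ∈ range N, φ (((k + 1 : ℕ) : ℝ) / Y) / Y := by
    rw [← sum_subset (Icc_subset_Icc_right hNM') fun k hk hk' => ?_]
    · rw [range_eq_Ico, sum_Ico_add' (fun k : ℕ => φ ((k : ℝ) / Y) / Y) 0 N 1]
      rfl
    · rw [mem_Icc] at hk hk'
      have h2 : (N : ℝ) ≤ k := by exact_mod_cast (by omega : N ≤ k)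
      rw [h1 _ (by rw [le_div_iff₀ hY0]; linarith), zero_div]
  have hc := hL.continuous
  have e2 : ∫ x in Set.Ioi (0 : ℝ), φ x =
      ∑ k ∈ range N, ∫ x in ((k : ℝ) / Y)..(((k + 1 : ℕ) : ℝ) / Y), φ x := by
    rw [intervalIntegral.sum_integral_adjacent_intervals (a := fun k : ℕ => (k : ℝ) / Y)
      fun k _ => hc.intervalIntegrable _ _, Nat.cast_zero, zero_div,
      intervalIntegral.integral_of_le (by positivity)]
    refine setIntegral_eq_of_subset_of_forall_sdiff_eq_zero measurableSet_Ioi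
      Set.Ioc_subset_Ioi_self fun x hx => h1 x ?_
    have h2 : (N : ℝ) / Y < x := not_le.1 fun h => hx.2 ⟨hx.1, h⟩
    have h3 : 9 / 4 ≤ (N : ℝ) / Y := by rw [le_div_iff₀ hY0]; exact hN1
    linarith
  rw [e1, e2, ← sum_sub_distrib]
  have key : ∀ k ∈ range N, |φ (((k + 1 : ℕ) : ℝ) / Y) / Y -
      ∫ x in ((k : ℝ) / Y)..(((k + 1 : ℕ) : ℝ) / Y), φ x| ≤ L * (1 / Y) * (1 / Y) := by
    intro k _
    have e3 : ((k + 1 : ℕ) : ℝ) / Y - k / Y = 1 / Y := by push_cast; ring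
    have h4 : (0 : ℝ) < 1 / Y := by positivity
    have e4 : φ (((k + 1 : ℕ) : ℝ) / Y) / Y -
        ∫ x in ((k : ℝ) / Y)..(((k + 1 : ℕ) : ℝ) / Y), φ x =
        ∫ x in ((k : ℝ) / Y)..(((k + 1 : ℕ) : ℝ) / Y), (φ (((k + 1 : ℕ) : ℝ) / Y) - φ x) := by
      rw [intervalIntegral.integral_sub intervalIntegrable_const (hc.intervalIntegrable _ _),
        intervalIntegral.integral_const, e3, smul_eq_mul]
      ring
    rw [e4, ← Real.norm_eq_abs]
    refine (intervalIntegral.norm_integral_le_of_norm_le_const (C := L * (1 / Y))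
      fun x hx => ?_).trans (by rw [e3, abs_of_pos h4])
    rw [Set.uIoc_of_le (by linarith)] at hx
    rw [← dist_eq_norm]
    refine (hL.dist_le_mul _ _).trans (mul_le_mul_of_nonneg_left ?_ L.2)
    rw [Real.dist_eq, abs_le]
    constructor <;> linarith [hx.1, hx.2]
  refine (abs_sum_le_sum_abs _ _).trans ((sum_le_card_nsmul _ _ _ key).trans ?_)
  rw [card_range, nsmul_eq_mul]
  have h5 : (N : ℝ) * (1 / Y) ≤ 3 := by
    rw [mul_one_div, div_le_iff₀ hY0]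
    linarith
  have h6 : (0 : ℝ) ≤ L * (1 / Y) := by positivity
  nlinarith

lemma small_Rs {f : ℕ → ℝ} (h0 : ∀ k, 0 ≤ f k) (h1 : ∀ k, f k ≤ 1) (h2 : ∀ k, 5 ≤ k → f k = 0)
    (M : ℕ) : |∑ k ∈ Icc 1 M, f k / k| ≤ 4 := by
  rw [abs_of_nonneg (sum_nonneg fun k _ => div_nonneg (h0 k) (Nat.cast_nonneg k))]
  rw [← sum_filter_add_sum_filter_not (Icc 1 M) (fun k => k ≤ 4),
    sum_eq_zero (s := (Icc 1 M).filter fun k => ¬k ≤ 4) fun k hk => by
      rw [h2 k (by have := (mem_filter.1 hk).2; omega), zero_div], add_zero]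
  have h3 : ((Icc 1 M).filter fun k => k ≤ 4).card ≤ 4 := by
    refine (card_le_card (t := Icc 1 4) fun k hk => ?_).trans (by simp)
    rw [mem_filter, mem_Icc] at hk
    exact mem_Icc.2 ⟨hk.1.1, hk.2⟩
  refine (sum_le_card_nsmul _ _ 1 fun k hk => ?_).trans ?_
  · have h4 : (1 : ℝ) ≤ k := by exact_mod_cast (mem_Icc.1 (mem_filter.1 hk).1).1
    rw [div_le_one (by linarith)]
    exact (h1 k).trans h4
  · rw [nsmul_eq_mul, mul_one]
    exact_mod_cast h3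

lemma int_Rs : ∫ x in Set.Ioi (0 : ℝ), Wt x⁻¹ / x = ∫ x in Set.Ioi (0 : ℝ), Wt x / x := by
  rw [← integral_comp_rpow_Ioi (fun x => Wt x / x) (p := -1) (by norm_num)]
  refine setIntegral_congr_fun measurableSet_Ioi fun x hx => ?_
  have hx0 : 0 < x := hx
  simp only [smul_eq_mul]
  rw [Real.rpow_neg_one, show (-1 - 1 : ℝ) = -(2 : ℕ) by norm_num, Real.rpow_neg hx0.le,
    Real.rpow_natCast]
  field_simp
  norm_num

theorem rs_stmt : RsStmt := by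
  have z1 : ∀ z : ℝ, 9 / 4 ≤ z → Wt z / z = 0 := fun z hz => by
    rw [Wt_eq_zero (Or.inr hz), zero_div]
  have z2 : ∀ z : ℝ, 9 / 4 ≤ z → Wt z⁻¹ / z = 0 := fun z hz => by
    rw [Wt_eq_zero (Or.inl (by rw [inv_le_comm₀ (by linarith) (by norm_num)]; linarith)), zero_div]
  obtain ⟨L₁, hL₁⟩ := lip_Rs (φ := fun z => Wt z / z)
    (fun x hx => (contDiff_Wt (n := 1)).contDiffAt.div contDiffAt_id hx)
    (fun z hz => by rw [Wt_eq_zero (Or.inl (by linarith)), zero_div]) z1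
  obtain ⟨L₂, hL₂⟩ := lip_Rs (φ := fun z => Wt z⁻¹ / z)
    (fun x hx => ((contDiff_Wt (n := 1)).contDiffAt.comp x (contDiffAt_inv ℝ hx)).div
      contDiffAt_id hx)
    (fun z hz => by
      rcases le_or_gt z 0 with h | h
      · rw [Wt_eq_zero (Or.inl ((inv_nonpos.2 h).trans (by norm_num))), zero_div]
      · rw [Wt_eq_zero (Or.inr (by rw [le_inv_comm₀ (by norm_num) h]; linarith)), zero_div]) z2
  obtain ⟨I, hI⟩ : ∃ I, I = ∫ x in Set.Ioi (0 : ℝ), Wt x / x := ⟨_, rfl⟩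
  have p1 := L₁.2
  have p2 := L₂.2
  have p3 := abs_nonneg I
  refine ⟨3 * L₁ + 3 * L₂ + 2 * (4 + |I|), I, by positivity, fun Y M hY hM => ?_⟩
  rcases le_total 2 Y with h2 | h2
  · have hm : min 1 (1 / Y) = 1 / Y := min_eq_right (by rw [div_le_one hY]; linarith)
    have h4 : (0 : ℝ) ≤ 1 / Y := by positivity
    have a1 := riem_Rs hL₁ z1 h2 hM
    have a2 := riem_Rs hL₂ z2 h2 hM
    rw [int_Rs] at a2
    rw [← hI] at a1 a2
    have e1 : ∑ k ∈ Icc 1 M, Wt ((k : ℝ) / Y) / k =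
        ∑ k ∈ Icc 1 M, Wt ((k : ℝ) / Y) / ((k : ℝ) / Y) / Y :=
      sum_congr rfl fun k _ => by rw [div_div, div_mul_cancel₀ _ hY.ne']
    have e2 : ∑ k ∈ Icc 1 M, Wt (Y / (k : ℝ)) / k =
        ∑ k ∈ Icc 1 M, Wt ((k : ℝ) / Y)⁻¹ / ((k : ℝ) / Y) / Y :=
      sum_congr rfl fun k _ => by rw [div_div, div_mul_cancel₀ _ hY.ne', inv_div]
    rw [hm, e1, e2]
    refine ⟨a1.trans (mul_le_mul_of_nonneg_right ?_ h4),
      a2.trans (mul_le_mul_of_nonneg_right ?_ h4)⟩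
    · have : (0 : ℝ) ≤ L₂ := p2
      linarith
    · have : (0 : ℝ) ≤ L₁ := p1
      linarith
  · have hm : 1 / 2 ≤ min 1 (1 / Y) :=
      le_min (by norm_num) (one_div_le_one_div_of_le hY h2)
    have a1 := small_Rs (f := fun k => Wt ((k : ℝ) / Y)) (fun _ => Wt_nonneg _)
      (fun _ => Wt_le_one _) (fun k hk => Wt_eq_zero (Or.inr (by
        have : (5 : ℝ) ≤ k := by exact_mod_cast hk
        rw [le_div_iff₀ hY]
        linarith))) M
    have a2 := small_Rs (f := fun k => Wt (Y / (k : ℝ))) (fun _ => Wt_nonneg _)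
      (fun _ => Wt_le_one _) (fun k hk => Wt_eq_zero (Or.inl (by
        have : (5 : ℝ) ≤ k := by exact_mod_cast hk
        rw [div_le_iff₀ (by linarith)]
        linarith))) M
    have q1 : (0 : ℝ) ≤ L₁ := p1
    have q2 : (0 : ℝ) ≤ L₂ := p2
    have b : 4 + |I| ≤ (3 * L₁ + 3 * L₂ + 2 * (4 + |I|)) * min 1 (1 / Y) := by nlinarith
    exact ⟨(abs_sub _ _).trans (by linarith), (abs_sub _ _).trans (by linarith)⟩

end Pool.Agent.MP_c853c5_nt.W

end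

section

set_option autoImplicit false

open Finset MeasureTheory
open scoped ENNReal ComplexConjugate

namespace Pool.Agent.MP_c853c5_nt.W

open Pool.Agent.MP_2a1f0e_nt Pool.Agent.MP_2a1f0e_nt.GM Pool.Agent.MP_2a1f0e_nt.DH

lemma rt_rt_Rt {m : MM} (h : dt m = 1) (a : R2) :
    rt ((m.2.2, -m.1.2), (-m.2.1, m.1.1)) (rt m a) = a ∧
      rt m (rt ((m.2.2, -m.1.2), (-m.2.1, m.1.1)) a) = a := by
  unfold dt at h
  constructor
  · ext
    · simp only [rt]; linear_combination a.1 * h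
    · simp only [rt]; linear_combination a.2 * h
  · ext
    · simp only [rt]; linear_combination a.1 * h
    · simp only [rt]; linear_combination a.2 * h

/-- right multiplication as a measurable equivalence -/
def rmE_Rt {m : MM} (h : dt m = 1) : MM ≃ᵐ MM where
  toFun := rm m
  invFun := rm ((m.2.2, -m.1.2), (-m.2.1, m.1.1))
  left_inv _ := Prod.ext (rt_rt_Rt h _).1 (rt_rt_Rt h _).1
  right_inv _ := Prod.ext (rt_rt_Rt h _).2 (rt_rt_Rt h _).2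
  measurable_toFun := (continuous_rm m).measurable
  measurable_invFun := (continuous_rm _).measurable

theorem rt_stmt (hC : CoVStmt) : RtStmt := by
  intro μ m hμ hm
  have h2 : ∀ F : MM → ℝ≥0∞, ∫⁻ x, F x ∂(μ.map (rm m)) = ∫⁻ x, F (rm m x) ∂μ :=
    fun F => lintegral_map_equiv F (rmE_Rt hm)
  refine ⟨⟨?_, fun f hf h0 => ?_⟩, h2⟩
  · have := hμ.1
    infer_instance
  · rw [h2]
    simp_rw [act_rm]
    rw [hμ.2 (fun x => f (rm m x)) (hf.comp (continuous_rm m).measurable)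
      (fun x hx => h0 _ (by rw [dt_rm, hx, zero_mul])), hC.2 m hm f]

end Pool.Agent.MP_c853c5_nt.W

end

section

set_option autoImplicit false

open Finset MeasureTheory
open scoped ENNReal ComplexConjugate

namespace Pool.Agent.MP_c853c5_nt.W

open Pool.Agent.MP_2a1f0e_nt Pool.Agent.MP_2a1f0e_nt.GM Pool.Agent.MP_2a1f0e_nt.DH

lemma NV_le_Term {q : ℕ} (hq : 1 ≤ q) {f : V → ℂ} {Y : ℝ≥0∞} (h : ∀ w, ‖f w‖ₑ ≤ Y) :
    ENNReal.ofReal (NV q f) ≤ ENNReal.ofReal ((q : ℝ) ^ 2) * Y ^ 2 := by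
  have q0 : (0 : ℝ) < q := by exact_mod_cast hq
  by_cases hY : Y = ⊤
  · rw [hY, ENNReal.top_pow (by norm_num),
      ENNReal.mul_top (ENNReal.ofReal_pos.2 (by positivity)).ne']
    exact le_top
  · have h1 : ∀ w ∈ PQ q, ‖f w‖ ≤ Y.toReal := fun w _ => by
      rw [← toReal_enorm]
      exact ENNReal.toReal_mono hY (h w)
    refine (ENNReal.ofReal_le_ofReal ((NV_le_NC q f 0).trans (NC_le_sq hq h1))).trans_eq ?_
    rw [ENNReal.ofReal_mul (sq_nonneg _), ENNReal.ofReal_pow ENNReal.toReal_nonneg,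
      ENNReal.ofReal_toReal hY]

lemma LN_le_Term (μ : Measure MM) {q : ℕ} (hq : 1 ≤ q) (pt : Pr → V) {Ψ : Pk}
    {S : Pr → MM → Prop} {A : ℝ} (hA : 0 ≤ A) (h : ∀ P x, Ψ P x ≠ 0 → S P x ∧ ‖Ψ P x‖ ≤ A) :
    LN μ q pt Ψ ≤ ENNReal.ofReal ((q : ℝ) ^ 2 * A ^ 2) * LL μ S := by
  rw [LN, LF, LL, ← lintegral_const_mul' _ _ ENNReal.ofReal_ne_top]
  refine lintegral_mono fun x => ?_
  refine (NV_le_Term hq (Y := ENNReal.ofReal A * ∑' P : Pr, iE (S P x)) fun w => ?_).trans_eq ?_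
  · rw [← ENNReal.tsum_mul_left]
    refine enorm_tsum_le_tsum_enorm.trans (ENNReal.tsum_le_tsum fun P => ?_)
    by_cases e : Ψ P x = 0
    · rw [e, zero_mul, enorm_zero]
      exact zero_le
    · rw [iE_pos (h P x e).1, mul_one, ← ofReal_norm, norm_mul]
      exact ENNReal.ofReal_le_ofReal
        ((mul_le_of_le_one_right (norm_nonneg _) (norm_ind_le _ _)).trans (h P x e).2)
  · rw [mul_pow, ENNReal.ofReal_mul (sq_nonneg _), ENNReal.ofReal_pow hA, mul_assoc]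

lemma sup_Term {d : Dat} (hd : Adm d.al d.g) {q : ℕ} {H' T₀ : ℝ} (hT : 0 < T₀) {P : Pr} {x : MM}
    (h : tm d q H' T₀ P x ≠ 0) : SupA d.al T₀ H' P x := by
  simp only [tm, pd, mul_ne_zero_iff, Complex.ofReal_ne_zero] at h
  obtain ⟨⟨⟨⟨⟨h1, h2⟩, h3⟩, -⟩, -⟩, h4, h5⟩ := h
  obtain ⟨-, h6, h7⟩ := abs_of_mem (om_mem h4)
  have h8 : |tt P x| / T₀ < 5 / 4 := not_le.1 fun e => h5 (psi_eq_zero e)
  rw [div_lt_iff₀ hT] at h8
  refine ⟨(iC_ne_zero h1).1, (iC_ne_zero h1).2, hd.2.2 _ h2, (om_mem h3).1.le,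
    by linarith [(om_mem h3).2], ?_, h6.le, by linarith [abs_nonneg H']⟩
  rw [abs_of_pos hT]
  linarith

lemma amp_Term {d : Dat} (hd : Adm d.al d.g) {q Q : ℕ} (hQ : 1 ≤ Q) (hq : q ∈ Ico Q (2 * Q))
    {H' T₀ C₈ C₀ : ℝ} (hC : 0 < C₈) (h8 : ∀ ξ y : ℝ, ‖Eh ξ y‖ ≤ C₈ * (1 + |ξ|) ^ 8 / (1 + |y|) ^ 8)
    (h0 : ∀ ξ y : ℝ, ‖Eh ξ y‖ ≤ C₀) {P : Pr} {x : MM} (hP : |H'| ≤ |(hh P : ℝ)|) :
    ‖tm d q H' T₀ P x‖ ≤
      d.PP / Q * (C₈ * d.xi ^ 8 / ((1 + |d.H2| * |H'| / Q) / 2) ^ 8 * C₀) := by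
  have Q0 : (0 : ℝ) < Q := by exact_mod_cast hQ
  have q1 : (Q : ℝ) ≤ q := by exact_mod_cast (mem_Ico.1 hq).1
  have q2 : (q : ℝ) ≤ 2 * Q := by exact_mod_cast (mem_Ico.1 hq).2.le
  have q0 : (0 : ℝ) < q := Q0.trans_le q1
  have hPP := d.PP_nonneg
  have hxi := d.one_le_xi
  have a1 : ‖iC (Prim P.2 ∧ hh P ≠ 0) * d.g (vx P.2 x) * (om (dt x) : ℂ)‖ ≤ 1 := by
    rw [norm_mul, norm_mul]
    exact mul_le_one₀ (mul_le_one₀ (norm_iC_le _) (norm_nonneg _) (hd.2.1 _)) (norm_nonneg _)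
      (norm_om_le _)
  have a2 : ‖((d.PP / q : ℝ) : ℂ)‖ ≤ d.PP / Q := by
    rw [Complex.norm_real, Real.norm_of_nonneg (by positivity)]
    exact div_le_div_of_nonneg_left hPP Q0 q1
  have a3 : ‖((om ((hh P : ℝ) / H') * psi (|tt P x| / T₀) : ℝ) : ℂ)‖ ≤ 1 := by
    rw [Complex.norm_real, Real.norm_of_nonneg (mul_nonneg (om_nonneg _) (psi_nonneg _))]
    exact mul_le_one₀ (om_le_one _) (psi_nonneg _) (psi_le_one _)
  have a4 : |d.H2| * |H'| / Q / 2 ≤ |d.H2 * (hh P : ℝ) / q| := by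
    rw [abs_div, abs_mul, Nat.abs_cast, div_div]
    exact div_le_div₀ (by positivity) (mul_le_mul_of_nonneg_left hP (abs_nonneg _)) q0
      (by linarith)
  have a5 : ‖Eh d.x1 (d.H2 * (hh P : ℝ) / q)‖ ≤
      C₈ * d.xi ^ 8 / ((1 + |d.H2| * |H'| / Q) / 2) ^ 8 := by
    refine (h8 _ _).trans (div_le_div₀ (by positivity) ?_ (by positivity) ?_)
    · refine mul_le_mul_of_nonneg_left (pow_le_pow_left₀ (by positivity) ?_ 8) hC.le
      unfold Dat.xi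
      linarith [abs_nonneg d.x2]
    · exact pow_le_pow_left₀ (by positivity) (by linarith) 8
  rw [tm, pd, norm_mul, norm_mul, norm_mul, norm_mul (Eh _ _)]
  refine (mul_le_of_le_one_right (by positivity) a3).trans (mul_le_mul
    ((mul_le_of_le_one_left (norm_nonneg _) a1).trans a2)
    (mul_le_mul a5 (h0 _ _) (norm_nonneg _) (by positivity)) (by positivity) (by positivity))

theorem term_stmt (hE : EhStmt) (hC : CrudeStmt) : TermStmt := by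
  obtain ⟨C₈, c8, h8⟩ := hE 8
  obtain ⟨C₀, c0, h0⟩ := hE 0
  obtain ⟨C, c1, h1⟩ := hC
  simp only [pow_zero, mul_one, div_one] at h0
  refine ⟨2 ^ 32 * (C₈ ^ 2 * C₀ ^ 2 * C), by positivity, fun μ hμ d Λ Q H' hd _ hQP _ => ?_⟩
  have L1 := hd.one_le
  obtain ⟨a0, hA, a1, a2, a3, hQ, -⟩ := hd
  have Q0 : (0 : ℝ) < Q := by exact_mod_cast hQ
  have L0 : 0 < Λ := by linarith
  have T0 : 0 < 1 / Λ ^ 16 := by positivity
  have hPP := d.PP_nonneg
  have hxi := d.one_le_xi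
  have hDD := d.DD_nonneg
  have key := fun q (hq : q ∈ Ico Q (2 * Q)) => LN_le_Term μ (hQ.trans (mem_Ico.1 hq).1) Prod.fst
    (Ψ := tm d q H' (1 / Λ ^ 16)) (S := SupA d.al (1 / Λ ^ 16) H') (by positivity)
    fun P x e => ⟨sup_Term hA T0 e, amp_Term hA hQ hq c8 h8 h0 (sup_Term hA T0 e).2.2.2.2.2.2.1⟩
  obtain ⟨l, hl⟩ : ∃ l : ℝ, l = |d.H2| * |H'| / Q := ⟨_, rfl⟩
  rw [← hl] at key ⊢
  have l0 : 0 ≤ l := by rw [hl]; positivity
  have b1 : |H'| ≤ 2 * Λ * l := by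
    rw [hl, ← mul_div_assoc, le_div_iff₀ Q0]
    have e1 := mul_le_mul_of_nonneg_left hQP (abs_nonneg H')
    have e2 := mul_le_mul_of_nonneg_left a3 (show 0 ≤ |d.H2| * |H'| by positivity)
    unfold Dat.PP at e1
    linarith
  have b2 : Λ ≤ 2 * Λ * (1 + l) := by nlinarith
  have b3 := h1 μ hμ (2 * Λ * (1 + l)) d.al (1 / Λ ^ 16) H' ⟨L1.trans b2, a0, a1.trans b2, by
    rw [abs_of_pos T0]
    exact ((div_le_one (by positivity)).2 (one_le_pow₀ L1)).trans (L1.trans b2), by linarith⟩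
  rw [abs_of_pos T0] at b3
  have b4 : d.PP ^ 2 * d.al ^ 2 ≤ Λ ^ 2 * d.DD := by
    have e1 : d.PP ^ 2 ≤ Λ ^ 2 * (d.PP + d.H ^ 2) := by
      have e2 : d.PP ^ 2 = |d.H2| ^ 2 * d.H ^ 2 := by rw [Dat.PP, mul_pow, sq_abs d.H]
      rw [e2]
      exact mul_le_mul (pow_le_pow_left₀ (abs_nonneg _) a2 2) (by linarith) (sq_nonneg _)
        (sq_nonneg _)
    have := mul_le_mul_of_nonneg_right e1 (sq_nonneg d.al)
    unfold Dat.DD
    linarith
  refine (sum_le_card_nsmul _ _ (ENNReal.ofReal (2 ^ 32 * (C₈ ^ 2 * C₀ ^ 2 * C) * d.xi ^ 16 *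
    (d.DD / (1 + l) ^ 2))) fun q hq => ?_).trans_eq ?_
  · have q2 : (q : ℝ) ≤ 2 * Q := by exact_mod_cast (mem_Ico.1 hq).2.le
    refine (key q hq).trans ((mul_le_mul_right b3 _).trans ?_)
    rw [← ENNReal.ofReal_mul (by positivity)]
    refine ENNReal.ofReal_le_ofReal ?_
    calc _ ≤ (2 * (Q : ℝ)) ^ 2 * (d.PP / Q * (C₈ * d.xi ^ 8 / ((1 + l) / 2) ^ 8 * C₀)) ^ 2 *
          (C * (2 * Λ * (1 + l)) ^ 14 * (d.al ^ 2 * (1 / Λ ^ 16))) := by gcongr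
      _ = 2 ^ 32 * (C₈ ^ 2 * C₀ ^ 2 * C) * d.xi ^ 16 *
          (d.PP ^ 2 * d.al ^ 2 / Λ ^ 2 / (1 + l) ^ 2) := by
          field_simp
      _ ≤ _ := by
          gcongr
          rw [div_le_iff₀ (by positivity)]
          linarith
  · rw [Nat.card_Ico, show 2 * Q - Q = Q by omega, nsmul_eq_mul, ← ENNReal.ofReal_natCast,
      ← ENNReal.ofReal_mul Q0.le]
    congr 1
    ring

end Pool.Agent.MP_c853c5_nt.W

end

section

set_option autoImplicit false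
open Finset MeasureTheory
open scoped ENNReal ComplexConjugate
namespace Pool.Agent.MP_c853c5_nt.W
open Pool.Agent.MP_2a1f0e_nt Pool.Agent.MP_2a1f0e_nt.GM Pool.Agent.MP_2a1f0e_nt.DH

/-- the adjugate -/
def iv_Um (G : Pr) : Pr := ((G.2.2, -G.1.2), (-G.2.1, G.1.1))

lemma iv_iv_Um (G : Pr) : iv_Um (iv_Um G) = G := by
  simp only [iv_Um, neg_neg]

lemma hh_iv_Um (G : Pr) : hh (iv_Um G) = hh G := by
  simp only [iv_Um, hh, om2]; ring

lemma pg_iv_Um {H : Pr} (h : hh H = 1) (G : Pr) : pg (pg G H) (iv_Um H) = G := by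
  simp only [hh, om2] at h
  refine Prod.ext (Prod.ext ?_ ?_) (Prod.ext ?_ ?_) <;> simp only [pg, vg, iv_Um]
  · linear_combination G.1.1 * h
  · linear_combination G.1.2 * h
  · linear_combination G.2.1 * h
  · linear_combination G.2.2 * h

lemma act_one_Um (x : MM) : act ((1, 0), (0, 1)) x = x := by
  simp [act, vx]

lemma act_iv_Um {G : Pr} (h : hh G = 1) (x : MM) : act (iv_Um G) (act G x) = x := by
  have h' : (G.1.1 : ℝ) * G.2.2 - G.1.2 * G.2.1 = 1 := by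
    simp only [hh, om2] at h
    exact_mod_cast h
  refine Prod.ext (Prod.ext ?_ ?_) (Prod.ext ?_ ?_) <;> simp only [act, vx, iv_Um] <;> push_cast
  · linear_combination x.1.1 * h'
  · linear_combination x.1.2 * h'
  · linear_combination x.2.1 * h'
  · linear_combination x.2.2 * h'

lemma fin_vec_Um {x : MM} (hx : dt x ≠ 0) (R : ℝ) : {u : V | ‖vx u x‖ ≤ R}.Finite := by
  obtain ⟨M, hM⟩ := exists_int_gt (2 * (R * ‖x‖) / |dt x|)
  have hd : 0 < |dt x| := abs_pos.2 hx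
  rw [div_lt_iff₀ hd] at hM
  refine ((Set.finite_Icc (-M) M).prod (Set.finite_Icc (-M) M)).subset fun u hu => ?_
  have hu' : ‖vx u x‖ ≤ R := hu
  have hR : 0 ≤ R := (norm_nonneg _).trans hu'
  have a1 : |(vx u x).1| ≤ R := (norm_fst_le (vx u x)).trans hu'
  have a2 : |(vx u x).2| ≤ R := (norm_snd_le (vx u x)).trans hu'
  have b1 : |x.1.1| ≤ ‖x‖ := (norm_fst_le x.1).trans (norm_fst_le x)
  have b2 : |x.1.2| ≤ ‖x‖ := (norm_snd_le x.1).trans (norm_fst_le x)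
  have b3 : |x.2.1| ≤ ‖x‖ := (norm_fst_le x.2).trans (norm_snd_le x)
  have b4 : |x.2.2| ≤ ‖x‖ := (norm_snd_le x.2).trans (norm_snd_le x)
  have key : ∀ (n : ℤ) (a b c d : ℝ), (n : ℝ) * dt x = a * b - c * d → |a| ≤ R → |b| ≤ ‖x‖ →
      |c| ≤ R → |d| ≤ ‖x‖ → n ∈ Set.Icc (-M) M := by
    intro n a b c d e ha hb hc hd'
    have h1 : |(n : ℝ)| * |dt x| ≤ 2 * (R * ‖x‖) := by
      rw [← abs_mul, e]
      refine (abs_sub _ _).trans ?_
      rw [abs_mul, abs_mul]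
      linarith [mul_le_mul ha hb (abs_nonneg _) hR, mul_le_mul hc hd' (abs_nonneg _) hR]
    have h2 : |(n : ℝ)| ≤ M := le_of_mul_le_mul_right (h1.trans hM.le) hd
    have h3 : |n| ≤ M := by exact_mod_cast h2
    exact abs_le.1 h3
  exact ⟨key u.1 _ _ _ _ (by simp only [vx, dt]; ring) a1 b4 a2 b3,
    key u.2 _ _ _ _ (by simp only [vx, dt]; ring) a2 b1 a1 b2⟩

lemma fin_Um {x : MM} (hx : dt x ≠ 0) : {G : Pr | hh G = 1 ∧ ‖act G x‖ ≤ ‖x‖}.Finite :=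
  ((fin_vec_Um hx ‖x‖).prod (fin_vec_Um hx ‖x‖)).subset fun G hG =>
    ⟨(norm_fst_le (act G x)).trans hG.2, (norm_snd_le (act G x)).trans hG.2⟩

/-- points of minimal norm in the orbit -/
def Mn_Um (x : MM) : Prop := ∀ G : Pr, hh G = 1 → ‖x‖ ≤ ‖act G x‖

lemma meas_Mn_Um : Measurable fun x => iE (Mn_Um x) := by
  refine measurable_iE ?_
  simp only [Mn_Um, Set.setOf_forall]
  exact MeasurableSet.iInter fun G => MeasurableSet.iInter fun _ =>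
    measurableSet_le continuous_norm.measurable (continuous_act G).norm.measurable

/-- the number of minimal points -/
noncomputable def S_Um (x : MM) : ℝ≥0∞ := ∑' G : Pr, iE (hh G = 1) * iE (Mn_Um (act G x))

lemma meas_S_Um : Measurable S_Um :=
  Measurable.ennreal_tsum fun G => (meas_Mn_Um.comp (continuous_act G).measurable).const_mul _

lemma S_act_Um {H : Pr} (h : hh H = 1) (x : MM) : S_Um (act H x) = S_Um x := by
  let e : Pr ≃ Pr := ⟨fun G => pg G H, fun G => pg G (iv_Um H), pg_iv_Um h, fun G => by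
    have := pg_iv_Um ((hh_iv_Um H).trans h) G
    rwa [iv_iv_Um] at this⟩
  unfold S_Um
  rw [← e.tsum_eq fun G => iE (hh G = 1) * iE (Mn_Um (act G x))]
  refine tsum_congr fun G => ?_
  change _ = iE (hh (pg G H) = 1) * iE (Mn_Um (act (pg G H) x))
  rw [hh_pg, h, mul_one, act_pg]

lemma S_ne_zero_Um {x : MM} (hx : dt x ≠ 0) : S_Um x ≠ 0 := by
  obtain ⟨G, hG, hmin⟩ := Set.exists_min_image _ (fun G => ‖act G x‖) (fin_Um hx)
    ⟨((1, 0), (0, 1)), rfl, (congrArg norm (act_one_Um x)).le⟩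
  have h1 : Mn_Um (act G x) := by
    intro H hH
    rw [← act_pg]
    rcases le_total ‖act (pg H G) x‖ ‖x‖ with h | h
    · exact hmin _ ⟨by rw [hh_pg, hH, hG.1, mul_one], h⟩
    · exact hG.2.trans h
  intro h0
  have := ENNReal.tsum_eq_zero.1 h0 G
  rw [iE_pos hG.1, iE_pos h1, one_mul] at this
  exact one_ne_zero this

lemma S_ne_top_Um {x : MM} (hx : dt x ≠ 0) : S_Um x ≠ ⊤ := by
  unfold S_Um
  rw [tsum_eq_sum (s := (fin_Um hx).toFinset) fun G hG => ?_]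
  · exact ENNReal.sum_ne_top.2 fun G _ => ENNReal.mul_ne_top (iE_ne_top _) (iE_ne_top _)
  · rw [← iE_and]
    refine iE_neg fun h => hG ((fin_Um hx).mem_toFinset.2 ⟨h.1, ?_⟩)
    have := h.2 (iv_Um G) ((hh_iv_Um G).trans h.1)
    rwa [act_iv_Um h.1] at this

lemma part_Um {y : MM} (hy : dt y ≠ 0) :
    ∑' G : Pr, iE (hh G = 1) * (iE (Mn_Um (act (iv_Um G) y)) / S_Um (act (iv_Um G) y)) = 1 := by
  let e : Pr ≃ Pr := ⟨iv_Um, iv_Um, iv_iv_Um, iv_iv_Um⟩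
  have h1 : ∀ G : Pr, iE (hh G = 1) * (iE (Mn_Um (act (iv_Um G) y)) / S_Um (act (iv_Um G) y)) =
      iE (hh (e G) = 1) * iE (Mn_Um (act (e G) y)) * (S_Um y)⁻¹ := by
    intro G
    change _ = iE (hh (iv_Um G) = 1) * iE (Mn_Um (act (iv_Um G) y)) * (S_Um y)⁻¹
    rw [hh_iv_Um]
    by_cases h : hh G = 1
    · rw [S_act_Um ((hh_iv_Um G).trans h), div_eq_mul_inv, mul_assoc]
    · rw [iE_neg h, zero_mul, zero_mul, zero_mul]
  rw [tsum_congr h1, ENNReal.tsum_mul_right,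
    e.tsum_eq fun G => iE (hh G = 1) * iE (Mn_Um (act G y))]
  exact ENNReal.mul_inv_cancel (S_ne_zero_Um hy) (S_ne_top_Um hy)

theorem um_stmt (hC : CoVStmt) : UmStmt := by
  obtain ⟨w, hw⟩ : ∃ w : MM → ℝ≥0∞, w = fun x => iE (Mn_Um x) / S_Um x := ⟨_, rfl⟩
  have hm : Measurable w := by
    rw [hw]
    exact meas_Mn_Um.div meas_S_Um
  refine ⟨volume.withDensity w, inferInstance, fun f hf h0 => ?_⟩
  have m1 : ∀ G : Pr, Measurable fun x => iE (hh G = 1) * f (act G x) := fun G =>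
    (hf.comp (continuous_act G).measurable).const_mul _
  have m2 : ∀ G : Pr, Measurable fun y => iE (hh G = 1) * w (act (iv_Um G) y) * f y := fun G =>
    ((hm.comp (continuous_act _).measurable).const_mul _).mul hf
  have step : ∀ G : Pr, ∫⁻ x, iE (hh G = 1) * f (act G x) ∂(volume.withDensity w) =
      ∫⁻ y, iE (hh G = 1) * w (act (iv_Um G) y) * f y := by
    intro G
    by_cases h : hh G = 1
    · have h1 := (hC.1 G (by rw [h]; exact one_ne_zero)).1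
        fun y => iE (hh G = 1) * w (act (iv_Um G) y) * f y
      rw [show ENNReal.ofReal (1 / (hh G : ℝ) ^ 2) = 1 by rw [h]; simp, one_mul] at h1
      rw [lintegral_withDensity_eq_lintegral_mul _ hm (m1 G), ← h1]
      refine lintegral_congr fun x => ?_
      rw [Pi.mul_apply, act_iv_Um h]
      ring
    · simp only [iE_neg h, zero_mul, lintegral_zero]
  rw [lintegral_tsum fun G => (m1 G).aemeasurable, tsum_congr step,
    ← lintegral_tsum fun G => (m2 G).aemeasurable]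
  refine lintegral_congr fun y => ?_
  rw [ENNReal.tsum_mul_right]
  by_cases hy : dt y = 0
  · rw [h0 y hy, mul_zero]
  · rw [hw, part_Um hy, one_mul]

end Pool.Agent.MP_c853c5_nt.W

end

section

set_option autoImplicit false

open Finset MeasureTheory
open scoped ENNReal ComplexConjugate

namespace Pool.Agent.MP_c853c5_nt.W

open Pool.Agent.MP_2a1f0e_nt Pool.Agent.MP_2a1f0e_nt.GM Pool.Agent.MP_2a1f0e_nt.DH

lemma slice_VolZ {X Y : Type*} [MeasurableSpace X] [MeasurableSpace Y] (μ : Measure X)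
    (ν : Measure Y) [SFinite ν] {s : Set (X × Y)} (hs : MeasurableSet s) {T : Set X}
    (hT : MeasurableSet T) {c : ℝ≥0∞} (h1 : ∀ p ∈ s, p.1 ∈ T)
    (h2 : ∀ x ∈ T, ν (Prod.mk x ⁻¹' s) ≤ c) : μ.prod ν s ≤ c * μ T := by
  rw [Measure.prod_apply hs, ← setLIntegral_const T c, ← lintegral_indicator hT]
  refine lintegral_mono fun x => ?_
  by_cases hx : x ∈ T
  · rw [Set.indicator_of_mem hx]
    exact h2 x hx
  · have : Prod.mk x ⁻¹' s = ∅ := Set.eq_empty_of_forall_notMem fun y hy => hx (h1 _ hy)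
    simp [this]

lemma meas_VolZ (α Ω : ℝ) : MeasurableSet {Z : MM | Cn α Z.1 ∧ Cn α Z.2 ∧ |dt Z| ≤ Ω} :=
  (measurable_fst (measurableSet_Cn α)).inter ((measurable_snd (measurableSet_Cn α)).inter
    (measurableSet_le continuous_dt.abs.measurable measurable_const))

theorem volZ_stmt : VolZStmt := by
  intro α Ω hα
  have hs := meas_VolZ α Ω
  have h1 := slice_VolZ (volume : Measure R2) (volume : Measure R2) hs
    (T := Set.Icc α (4 * α) ×ˢ Set.Icc (-(4 * α)) (4 * α) ∩ {A | Cn α A})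
    ((measurableSet_Icc.prod measurableSet_Icc).inter (measurableSet_Cn α))
    (c := ENNReal.ofReal (2 * Ω / α) * ENNReal.ofReal (3 * α))
    (fun p hp => ⟨⟨⟨hp.1.1, hp.1.2.1⟩, abs_le.1 (hp.1.2.2.trans hp.1.2.1)⟩, hp.1⟩) (by
      intro A hA
      have hA1 : α ≤ A.1 := hA.2.1
      have hA0 : 0 < A.1 := hα.trans_le hA1
      have h2 := slice_VolZ (volume : Measure ℝ) (volume : Measure ℝ)
        (measurable_prodMk_left (x := A) hs) (T := Set.Icc α (4 * α)) measurableSet_Icc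
        (c := ENNReal.ofReal (2 * Ω / α)) (fun p hp => ⟨hp.2.1.1, hp.2.1.2.1⟩) (by
          intro b _
          have h3 : Prod.mk b ⁻¹' (Prod.mk A ⁻¹' {Z : MM | Cn α Z.1 ∧ Cn α Z.2 ∧ |dt Z| ≤ Ω}) ⊆
              Set.Icc (A.2 * b / A.1 - Ω / α) (A.2 * b / A.1 + Ω / α) := by
            intro y hy
            have h4 : |A.1 * y - A.2 * b| ≤ Ω := hy.2.2
            have h5 : |y - A.2 * b / A.1| ≤ Ω / α := by
              rw [show y - A.2 * b / A.1 = (A.1 * y - A.2 * b) / A.1 by field_simp, abs_div,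
                abs_of_pos hA0]
              exact div_le_div₀ ((abs_nonneg _).trans h4) h4 hα hA1
            rw [abs_le] at h5
            exact ⟨by linarith [h5.1], by linarith [h5.2]⟩
          refine (measure_mono h3).trans (le_of_eq ?_)
          rw [Real.volume_Icc]
          congr 1
          ring)
      rw [Real.volume_Icc, show 4 * α - α = 3 * α by ring] at h2
      exact h2)
  refine h1.trans ((mul_le_mul_right (measure_mono Set.inter_subset_left) _).trans (le_of_eq ?_))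
  rw [Measure.volume_eq_prod, Measure.prod_prod, Real.volume_Icc, Real.volume_Icc, mul_comm,
    mul_comm (ENNReal.ofReal (2 * Ω / α)), ← ENNReal.ofReal_mul (by linarith),
    ← ENNReal.ofReal_mul (by linarith), ← ENNReal.ofReal_mul (by nlinarith)]
  congr 1
  field_simp
  ring

lemma dt_le_VolZ {α : ℝ} {Z : MM} (h1 : Cn α Z.1) (h2 : Cn α Z.2) : |dt Z| ≤ 32 * α ^ 2 := by
  have a1 : |Z.1.1| ≤ 4 * α := by
    rw [abs_of_nonneg ((abs_nonneg _).trans h1.2.2)]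
    exact h1.2.1
  have a2 : |Z.1.2| ≤ 4 * α := h1.2.2.trans h1.2.1
  have b1 : |Z.2.1| ≤ 4 * α := by
    rw [abs_of_nonneg ((abs_nonneg _).trans h2.2.2)]
    exact h2.2.1
  have b2 : |Z.2.2| ≤ 4 * α := h2.2.2.trans h2.2.1
  have h0 : 0 ≤ 4 * α := (abs_nonneg _).trans a1
  refine (abs_sub _ _).trans ?_
  rw [abs_mul, abs_mul]
  have c1 := mul_le_mul a1 b2 (abs_nonneg _) h0
  have c2 := mul_le_mul a2 b1 (abs_nonneg _) h0
  linarith

theorem logV_stmt (h : VolZStmt) : LogVStmt := by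
  intro ε hε
  obtain ⟨C, hC, hD⟩ := exD 2 1 32 hε
  refine ⟨288 * C, by positivity, fun Λ α hΛ hα hαΛ => ?_⟩
  obtain ⟨X, Δ, d1, d2, d3⟩ := hD Λ hΛ
  have hJ := DivB_log d1 (le_refl X)
  have hp : ∀ Z : MM, iE (Cn α Z.1 ∧ Cn α Z.2 ∧ 1 ≤ |dt Z|) * ENNReal.ofReal (1 / |dt Z|) ≤
      ∑ j ∈ range (Nat.log 2 X + 1),
        iE (Cn α Z.1 ∧ Cn α Z.2 ∧ |dt Z| ≤ 2 ^ (j + 1)) * ENNReal.ofReal (1 / 2 ^ j) := by
    intro Z
    by_cases hZ : Cn α Z.1 ∧ Cn α Z.2 ∧ 1 ≤ |dt Z|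
    · have t1 : |dt Z| ≤ X := by
        have := dt_le_VolZ hZ.1 hZ.2.1
        have : α ^ 2 ≤ Λ ^ 2 := by gcongr
        linarith
      have t2 : ⌊|dt Z|⌋₊ ≤ X := Nat.floor_le_of_le t1
      have t3 : ⌊|dt Z|⌋₊ ≠ 0 := (Nat.floor_pos.2 hZ.2.2).ne'
      have t4 : (2 : ℝ) ^ Nat.log 2 ⌊|dt Z|⌋₊ ≤ |dt Z| := by
        refine le_trans ?_ (Nat.floor_le (abs_nonneg _))
        exact_mod_cast Nat.pow_log_le_self 2 t3
      have t5 : |dt Z| ≤ 2 ^ (Nat.log 2 ⌊|dt Z|⌋₊ + 1) := by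
        refine (Nat.lt_floor_add_one _).le.trans ?_
        exact_mod_cast Nat.lt_pow_succ_log_self one_lt_two _
      refine le_trans ?_ (single_le_sum (f := fun j =>
        iE (Cn α Z.1 ∧ Cn α Z.2 ∧ |dt Z| ≤ 2 ^ (j + 1)) * ENNReal.ofReal (1 / 2 ^ j))
        (fun _ _ => zero_le) (mem_range.2 (Nat.lt_succ_of_le (Nat.log_mono_right t2))))
      rw [iE_pos hZ, iE_pos ⟨hZ.1, hZ.2.1, t5⟩, one_mul, one_mul]
      exact ENNReal.ofReal_le_ofReal (one_div_le_one_div_of_le (by positivity) t4)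
    · rw [iE_neg hZ, zero_mul]
      exact zero_le
  refine (lintegral_mono hp).trans ?_
  rw [lintegral_finsetSum _ fun j _ => (measurable_iE (meas_VolZ α _)).mul_const _]
  have hj : ∀ j ∈ range (Nat.log 2 X + 1), ∫⁻ Z : MM,
      iE (Cn α Z.1 ∧ Cn α Z.2 ∧ |dt Z| ≤ 2 ^ (j + 1)) * ENNReal.ofReal (1 / 2 ^ j) ≤
      ENNReal.ofReal (288 * α ^ 2) := by
    intro j _
    rw [lintegral_mul_const _ (measurable_iE (meas_VolZ α _)), lintegral_iE _ (meas_VolZ α _)]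
    refine (mul_le_mul_left (h α _ hα) _).trans (le_of_eq ?_)
    rw [← ENNReal.ofReal_mul (by positivity)]
    congr 1
    field_simp
    ring
  refine (sum_le_card_nsmul _ _ _ hj).trans ?_
  rw [card_range, nsmul_eq_mul, ← ENNReal.ofReal_natCast, ← ENNReal.ofReal_mul (Nat.cast_nonneg _)]
  refine ENNReal.ofReal_le_ofReal ?_
  push_cast
  rw [pow_one] at d3
  have := mul_le_mul_of_nonneg_right (hJ.trans d3) (by positivity : 0 ≤ 288 * α ^ 2)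
  linarith

end Pool.Agent.MP_c853c5_nt.W

end

section

set_option autoImplicit false

namespace Pool.Agent.MP_c853c5_nt.W

theorem um_all : UmStmt := um_stmt cov_stmt
theorem rt_all : RtStmt := rt_stmt cov_stmt
theorem unf_all : UnfStmt := unf_stmt orb_stmt
theorem os_all : OsStmt := os_stmt unf_all (unfC_stmt unf_all) (grs_stmt card_stmt gram_stmt)
theorem th_all : ThStmt := th_stmt cov_stmt
theorem mid_all : MidStmt := mid_stmt os_all th_all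
theorem rough_all : RoughStmt := rough_stmt unf_all gram_stmt
theorem pdl_all : PdlStmt := pdl_stmt pb_stmt gcd_stmt
theorem eh_all : EhStmt := eh_stmt f1_stmt
theorem wh_all : WhStmt := wh_stmt f1_stmt
theorem vol_all : VolStmt := vol_stmt cov_stmt volZ_stmt vol1_stmt
theorem triv_all : TrivStmt :=
  triv_stmt inv_stmt vol_all (cntA_stmt gcd_stmt) (cntB_stmt gcd_stmt) (cntC_stmt gcd_stmt)
theorem crude_all : CrudeStmt := crude_stmt unf_all inv_stmt vol1_stmt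
theorem shp_all : ShpStmt := shp_stmt rt_all crude_all
theorem left_all : LeftStmt := left_stmt rough_all shp_all inv_stmt vol_all (cntL_stmt gcd_stmt)
theorem cont_all : ContStmt := cont_stmt fin_stmt
theorem dual_all : DualStmt :=
  dual_stmt (term_stmt eh_all crude_all) part_stmt (poisF_stmt anch_stmt fin_stmt poisz_stmt)
    (lineL_stmt (lineB_stmt eh_all pois1_stmt) eh_all pb_stmt left_all fin_stmt) minkS_stmt sc_stmt

/-- from one dyadic block to all levels -/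
theorem aps_of_ap {η : ℝ} (h0 : 0 < η) (h1 : η ≤ 1) (h : AP η) : APs η := by
  have hl := all_stmt pdl_all cont_all η h0 h1 h
  exact dy_stmt η h0 h1 (blk_stmt pdl_all cont_all η h0 h1 hl (dual_all η h0 h1
    (piece_stmt (co1_stmt f1_stmt eh_all wh_all) minkI_stmt fin_stmt η h0 h1 hl)))

/-- one step of the iteration -/
theorem ap_step {η : ℝ} (h0 : 0 < η) (h1 : η ≤ 1) (h : AP η) : AP (η / (1 + η)) :=
  r1_stmt rt_all fin_stmt η h0 h1
    (r2_stmt shp_all os_all inv_stmt triv_all (er_stmt rs_stmt psm_stmt) nu_stmt η h0 h1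
      (out_stmt um_all shp_all os_all (chg_stmt cov_stmt) nu_stmt volZ_stmt
        (logV_stmt volZ_stmt) η h0 h1
        (fix_stmt um_all rt_all shp_all th_all mid_all sep_stmt amp_stmt wh_all ch_stmt id2_stmt
          η h0 h1 (aps_of_ap h0 h1 h))))

theorem inv_le_one (k : ℕ) : 1 / ((k : ℝ) + 1) ≤ 1 :=
  div_le_one_of_le₀ (by linarith [Nat.cast_nonneg (α := ℝ) k]) (by positivity)

theorem ap_all (k : ℕ) : AP (1 / ((k : ℝ) + 1)) := by
  induction k with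
  | zero => simpa [BaseStmt] using base_stmt rough_all shp_all triv_all inv_stmt
  | succ k ih =>
    have h := ap_step (by positivity) (inv_le_one k) ih
    rwa [show 1 / ((k : ℝ) + 1) / (1 + 1 / ((k : ℝ) + 1)) = 1 / (((k + 1 : ℕ) : ℝ) + 1) by
      push_cast; field_simp] at h

/-- the twisted fourth moment, mean form -/
theorem wattI_all : WattI := by
  refine topSum_stmt exp_stmt rep_stmt (diag_stmt gcd_stmt wh_all) (lev1_stmt m4_stmt)
    (tail_stmt wh_all) gcd_stmt fun η₀ h => ?_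
  obtain ⟨k, hk⟩ := exists_nat_one_div_lt h
  exact ⟨_, by positivity, hk.le, topMid_stmt um_all rt_all shp_all th_all mid_all sep_stmt amp_stmt
    wh_all lg_stmt ch_stmt id3_stmt left_all gcd_stmt _ (by positivity) (inv_le_one k)
    (aps_of_ap (by positivity) (inv_le_one k) (ap_all k))⟩

/-- the twisted fourth moment on a well spaced set -/
theorem wattD_all : WattD := disc_stmt (melA_stmt f1_stmt) wattI_all

end Pool.Agent.MP_c853c5_nt.W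

end
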