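import Pool.Agent.MP_c853c5_nt.DS.Basic
import Pool.Agent.MP_c853c5_nt.DU.Defs

section

set_option autoImplicit false
open Finset Filter Real
open scoped ComplexConjugate
namespace Pool.Agent.MP_c853c5_nt.DS
open Pool.Agent.MP_88bd62_nt.U (ex)

theorem one_Cyc (D : Finset ℕ) (B a : ℕ) : cyc D B 1 a = ∅ := by
  refine Finset.eq_empty_of_forall_notMem fun l hl => ?_
  simp only [cyc, paths, Finset.mem_filter, Finset.mem_biUnion, Finset.mem_image,
    Finset.mem_singleton, Finset.mem_product, Finset.mem_erase] at hl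
  obtain ⟨⟨e, ⟨⟨hne, -⟩, -⟩, l', rfl, rfl⟩, h1, -⟩ := hl
  exact hne h1

theorem zero_Cyc (D : Finset ℕ) (n a : ℕ) : cyc D 0 (n + 1) a = ∅ := by
  have h : hs 0 = ∅ := by simp [hs]
  simp [cyc, paths, h]

theorem pow_Cyc (n B H : ℕ) (hBH : B ≤ H) :
    B * ((4 * H) ^ ((n + 1) / 2) * (4 * B) ^ ((n + 1 + 1) / 2)) ≤
      4 ^ (n + 1) * (H ^ ((n + 2) / 2) * B ^ ((n + 2 + 1) / 2)) := by
  obtain ⟨m, rfl | rfl⟩ := Nat.even_or_odd' n
  · rw [show (2 * m + 1) / 2 = m by omega, show (2 * m + 1 + 1) / 2 = m + 1 by omega,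
      show (2 * m + 2 + 1) / 2 = m + 1 by omega, mul_pow, mul_pow]
    calc B * (4 ^ m * H ^ m * (4 ^ (m + 1) * B ^ (m + 1)))
        ≤ H * (4 ^ m * H ^ m * (4 ^ (m + 1) * B ^ (m + 1))) := Nat.mul_le_mul_right _ hBH
      _ = _ := by ring
  · rw [show (2 * m + 1 + 1) / 2 = m + 1 by omega, show (2 * m + 1 + 1 + 1) / 2 = m + 1 by omega,
      show (2 * m + 1 + 2 + 1) / 2 = m + 2 by omega, mul_pow, mul_pow]
    exact le_of_eq (by ring)

theorem cyc_stmt (hT : TreeStmt) (hR : RecStmt) : CycStmt := by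
  intro n
  induction n using Nat.twoStepInduction with
  | zero =>
    refine ⟨1, fun K B H D _ _ _ _ a _ => ?_⟩
    simpa [cyc, paths] using Finset.card_filter_le ({[]} : Finset (List (ℕ × ℤ))) _
  | one => exact ⟨0, fun K B H D _ _ _ _ a _ => by simp [one_Cyc]⟩
  | more n ih0 ih1 =>
    obtain ⟨C0, h0⟩ := ih0
    obtain ⟨C1, h1⟩ := ih1
    obtain ⟨C2, h2⟩ := hT (n + 2)
    refine ⟨C2 + (n + 2) * (2 * C0 + 2 * C1 * 4 ^ (n + 1)), fun K B H D hD hK hBH hDH a ha => ?_⟩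
    rcases Nat.eq_zero_or_pos B with rfl | hB
    · simp [zero_Cyc]
    have hp : 1 ≤ 4 ^ n := Nat.one_le_pow _ _ (by norm_num)
    have e3 : 4 ^ (n + 2 + 1) * B = 64 * (4 ^ n * B) := by ring
    have hnB : B ≤ 4 ^ n * B := Nat.le_mul_of_pos_left _ hp
    have k0 : 4 ^ (n + 1) * B < K := by
      have : 4 ^ (n + 1) * B = 4 * (4 ^ n * B) := by ring
      omega
    have k1 : 4 ^ (n + 1 + 1) * (4 * B) < K := by
      have : 4 ^ (n + 1 + 1) * (4 * B) = 64 * (4 ^ n * B) := by ring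
      omega
    have a0 := h0 K B H D hD k0 hBH hDH a ha
    have a1 := h1 K (4 * B) (4 * H) D hD k1 (by omega) (by omega) a ha
    have a2 := h2 K B H ((n + 2) / 2) D hD (by omega) hB hBH hDH (by omega) a ha
    have a3 := hR K B n D hD (by omega) a ha
    rw [show n + 2 - (n + 2) / 2 = (n + 2 + 1) / 2 by omega] at a2
    have hs1 := Finset.card_filter_add_card_filter_not (s := cyc D B (n + 2) a)
      (fun l => (n + 2) / 2 < nw a l)
    have hs2 : ((cyc D B (n + 2) a).filter fun l => ¬ (n + 2) / 2 < nw a l).card ≤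
        ((paths D B (n + 2) a).filter fun l => vl a l = 0 ∧ nw a l ≤ (n + 2) / 2).card := by
      refine Finset.card_le_card fun l hl => ?_
      simp only [cyc, Finset.mem_filter, not_lt] at hl ⊢
      exact ⟨hl.1.1, hl.1.2.2, hl.2⟩
    set M := H ^ ((n + 2) / 2) * B ^ ((n + 2 + 1) / 2) with hM
    have b0 : D.card * (2 * B) * (cyc D B n a).card ≤ 2 * C0 * M := by
      refine (Nat.mul_le_mul (Nat.mul_le_mul_right _ hDH) a0).trans (le_of_eq ?_)
      rw [hM, show (n + 2) / 2 = n / 2 + 1 by omega,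
        show (n + 2 + 1) / 2 = (n + 1) / 2 + 1 by omega]
      ring
    have b1 : 2 * B * (cyc D (4 * B) (n + 1) a).card ≤ 2 * C1 * 4 ^ (n + 1) * M := by
      refine (Nat.mul_le_mul_left _ a1).trans ?_
      calc 2 * B * (C1 * (4 * H) ^ ((n + 1) / 2) * (4 * B) ^ ((n + 1 + 1) / 2))
          = 2 * C1 * (B * ((4 * H) ^ ((n + 1) / 2) * (4 * B) ^ ((n + 1 + 1) / 2))) := by ring
        _ ≤ 2 * C1 * (4 ^ (n + 1) * M) := Nat.mul_le_mul_left _ (pow_Cyc n B H hBH)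
        _ = _ := by ring
    have b2 := a3.trans (Nat.mul_le_mul_left (n + 2) (Nat.add_le_add b0 b1))
    calc (cyc D B (n + 2) a).card
        ≤ (n + 2) * (2 * C0 * M + 2 * C1 * 4 ^ (n + 1) * M) +
          C2 * H ^ ((n + 2) / 2) * B ^ ((n + 2 + 1) / 2) := by
          rw [← hs1]
          exact Nat.add_le_add b2 (hs2.trans a2)
      _ = _ := by
          rw [hM]
          ring

end Pool.Agent.MP_c853c5_nt.DS

end

section

/-!
The third derivative test for reciprocal phases.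
-/

set_option autoImplicit false

open Finset Filter Real
open scoped ComplexConjugate BigOperators

namespace Pool.Agent.MP_c853c5_nt.DS

open Pool.Agent.MP_88bd62_nt.U (ex)

lemma norm_expect_Exp3 {ι : Type*} (s : Finset ι) (f : ι → ℂ) :
    ‖𝔼 i ∈ s, f i‖ ≤ 𝔼 i ∈ s, ‖f i‖ := RCLike.norm_expect_le (K := ℂ)

lemma sq_norm_Exp3 {ι : Type*} (s : Finset ι) (f : ι → ℂ) :
    ‖𝔼 i ∈ s, f i‖ ^ 2 = 𝔼 i ∈ s, 𝔼 j ∈ s, (f i * conj (f j)).re := by
  have hc : conj (𝔼 i ∈ s, f i) = 𝔼 i ∈ s, conj (f i) := by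
    simp only [expect_eq_sum_div_card, map_div₀, map_sum, map_natCast]
  have : ((‖𝔼 i ∈ s, f i‖ ^ 2 : ℝ) : ℂ) = 𝔼 i ∈ s, 𝔼 j ∈ s, f i * conj (f j) := by
    rw [← expect_mul_expect, ← hc, Complex.mul_conj, Complex.normSq_eq_norm_sq]
  have h := congrArg Complex.re this
  rw [Complex.ofReal_re, Complex.re_expect] at h
  rw [h]
  exact expect_congr rfl fun i _ => Complex.re_expect _ _

lemma pow_expect_Exp3 {ι : Type*} (s : Finset ι) {f : ι → ℝ} (h0 : ∀ i ∈ s, 0 ≤ f i) :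
    (𝔼 i ∈ s, f i) ^ 2 ≤ 𝔼 i ∈ s, f i ^ 2 := by
  rcases s.eq_empty_or_nonempty with rfl | hs
  · simp
  · have hc : (0 : ℝ) < s.card := by exact_mod_cast hs.card_pos
    have := Real.pow_arith_mean_le_arith_mean_pow s (fun _ => (s.card : ℝ)⁻¹) f
      (fun _ _ => by positivity) (by simp [hc.ne']) h0 2
    simpa only [expect_eq_sum_div_card, div_eq_inv_mul, mul_sum] using this

lemma shift_Exp3 {u : ℕ → ℂ} (hu : ∀ n, ‖u n‖ ≤ 1) (L h : ℕ) :
    ‖𝔼 x ∈ range L, u x - 𝔼 x ∈ range L, u (x + h)‖ ≤ 2 * h / L := by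
  have e1 := sum_range_add u L h
  have e2 := sum_range_add u h L
  rw [add_comm h L, e1] at e2
  have e3 : ∑ x ∈ range L, u x - ∑ x ∈ range L, u (x + h) =
      ∑ x ∈ range h, u x - ∑ x ∈ range h, u (L + x) := by
    simp only [add_comm _ h]
    linear_combination e2
  have b : ∀ v : ℕ → ℂ, (∀ n, ‖v n‖ ≤ 1) → ‖∑ x ∈ range h, v x‖ ≤ h := fun v hv =>
    (norm_sum_le _ _).trans (by simpa using sum_le_card_nsmul (range h) _ 1 fun x _ => hv x)
  rw [expect_eq_sum_div_card, expect_eq_sum_div_card, ← sub_div, e3, norm_div, card_range,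
    Complex.norm_natCast]
  refine div_le_div_of_nonneg_right ((norm_sub_le _ _).trans ?_) (Nat.cast_nonneg _)
  linarith [b u hu, b (fun x => u (L + x)) fun n => hu _]

lemma vdc_Exp3 {u : ℕ → ℂ} (hu : ∀ n, ‖u n‖ ≤ 1) {L M : ℕ} (hM : 1 ≤ M) {τ : ℝ} (hτ : 0 ≤ τ)
    (h : 𝔼 a ∈ range M, 𝔼 b ∈ range M, ‖𝔼 x ∈ range L, u (x + a) * conj (u (x + b))‖ ≤ τ ^ 2) :
    ‖𝔼 x ∈ range L, u x‖ ≤ τ + 2 * M / L := by
  have hne : (range M).Nonempty := nonempty_range_iff.2 (by omega)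
  have h1 : ‖𝔼 x ∈ range L, u x - 𝔼 a ∈ range M, 𝔼 x ∈ range L, u (x + a)‖ ≤ 2 * M / L := by
    rw [← expect_const hne (𝔼 x ∈ range L, u x), ← expect_sub_distrib]
    refine (norm_expect_Exp3 _ _).trans (expect_le hne fun a ha => (shift_Exp3 hu L a).trans ?_)
    have : (a : ℝ) ≤ M := by exact_mod_cast (mem_range.1 ha).le
    gcongr
  have h2 : ‖𝔼 a ∈ range M, 𝔼 x ∈ range L, u (x + a)‖ ≤ τ := by
    refine (pow_le_pow_iff_left₀ (norm_nonneg _) hτ two_ne_zero).1 (le_trans ?_ h)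
    rw [expect_comm]
    refine (pow_le_pow_left₀ (norm_nonneg _) (norm_expect_Exp3 _ _) 2).trans
      ((pow_expect_Exp3 _ fun _ _ => norm_nonneg _).trans ?_)
    simp only [sq_norm_Exp3]
    rw [expect_comm]
    refine expect_le_expect fun a _ => ?_
    rw [expect_comm]
    refine expect_le_expect fun b _ => ?_
    rw [← Complex.re_expect]
    exact Complex.re_le_norm _
  have := norm_le_norm_sub_add (𝔼 x ∈ range L, u x) (𝔼 a ∈ range M, 𝔼 x ∈ range L, u (x + a))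
  linarith

lemma norm_neg_Exp3 (s : Finset ℕ) (ψ : ℕ → ℝ) :
    ‖∑ x ∈ s, ex (-ψ x)‖ = ‖∑ x ∈ s, ex (ψ x)‖ := by
  simp only [← conj_ex]
  rw [← map_sum, Complex.norm_conj]

lemma second_Exp3 {y v d W : ℝ} (hy : 0 ≤ y) (hv : 0 < v) (hd : 0 ≤ d) (hW : v + d + 2 ≤ W) :
    -(y / (v + 2) - y / (v + 2 + d)) - -(y / (v + 1) - y / (v + 1 + d)) + 2 * y * d / W ^ 4 ≤
      -(y / (v + 1) - y / (v + 1 + d)) - -(y / v - y / (v + d)) := by
  have h1 : 2 * y * d / W ^ 4 ≤ 2 * y * d / (v * (v + d) * (v + 1) * (v + 2)) := by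
    have hW0 : 0 < W := by linarith
    refine div_le_div_of_nonneg_left (by positivity) (by positivity) ?_
    calc v * (v + d) * (v + 1) * (v + 2) ≤ W * W * W * W := by
          gcongr <;> linarith
      _ = W ^ 4 := by ring
  have h2 : 2 * y / ((v + d) * (v + 1 + d) * (v + 2 + d)) ≤
      2 * y / ((v + d) * (v + 1) * (v + 2)) := by
    refine div_le_div_of_nonneg_left (by positivity) (by positivity) ?_
    gcongr (v + d) * ?_ * ?_ <;> linarith
  have h3 : y / v - 2 * (y / (v + 1)) + y / (v + 2) = 2 * y / (v * (v + 1) * (v + 2)) := by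
    field_simp
    ring
  have h4 : y / (v + d) - 2 * (y / (v + 1 + d)) + y / (v + 2 + d) =
      2 * y / ((v + d) * (v + 1 + d) * (v + 2 + d)) := by
    field_simp
    ring
  have h5 : 2 * y / (v * (v + 1) * (v + 2)) - 2 * y / ((v + d) * (v + 1) * (v + 2)) =
      2 * y * d / (v * (v + d) * (v + 1) * (v + 2)) := by
    field_simp
    ring
  linarith

lemma first_Exp3 {y v d : ℝ} (hy : 0 ≤ y) (hv : 0 < v) (hd : 0 ≤ d) :
    0 ≤ -(y / (v + 1) - y / (v + 1 + d)) - -(y / v - y / (v + d)) ∧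
      -(y / (v + 1) - y / (v + 1 + d)) - -(y / v - y / (v + d)) ≤ 2 * y * d / v ^ 3 := by
  have h1 : -(y / (v + 1) - y / (v + 1 + d)) - -(y / v - y / (v + d)) =
      y * d / (v * (v + 1) * (v + 1 + d)) + y * d / (v * (v + d) * (v + 1 + d)) := by
    field_simp
    ring
  rw [h1]
  refine ⟨by positivity, ?_⟩
  have h2 : y * d / (v * (v + 1) * (v + 1 + d)) ≤ y * d / (v * v * v) := by
    gcongr <;> linarith
  have h3 : y * d / (v * (v + d) * (v + 1 + d)) ≤ y * d / (v * v * v) := by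
    gcongr <;> linarith
  have h4 : 2 * y * d / v ^ 3 = y * d / (v * v * v) + y * d / (v * v * v) := by ring
  linarith

lemma num_Exp3 {r g w d : ℝ} (hg : 1 ≤ g) (hgr : g ≤ r) (hw : 1 ≤ w) (hd : 1 ≤ d)
    (hdg : d * g ^ 2 ≤ 2 * r ^ 2) :
    (2 * (r ^ 2 * g ^ 6) * d / (r ^ 2) ^ 3 + 1) *
        (1 / √(2 * (r ^ 2 * g ^ 6) * d / (5 * w * r ^ 2) ^ 4) + 1) ≤
      105 * w ^ 2 * g ^ 2 + 25 * w ^ 2 * r ^ 3 / g ^ 3 * (1 / √d) := by
  have hr : 0 < r := by linarith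
  obtain ⟨s, hs, rfl⟩ : ∃ s : ℝ, 1 ≤ s ∧ d = s ^ 2 :=
    ⟨√d, Real.one_le_sqrt.2 hd, (Real.sq_sqrt (by linarith)).symm⟩
  rw [Real.sqrt_sq (by linarith : 0 ≤ s)]
  have h1 : g ^ 3 * s / (25 * w ^ 2 * r ^ 3) ≤
      √(2 * (r ^ 2 * g ^ 6) * s ^ 2 / (5 * w * r ^ 2) ^ 4) := by
    refine Real.le_sqrt_of_sq_le ?_
    have e : 2 * (r ^ 2 * g ^ 6) * s ^ 2 / (5 * w * r ^ 2) ^ 4 =
        2 * (g ^ 3 * s / (25 * w ^ 2 * r ^ 3)) ^ 2 := by
      field_simp
      ring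
    rw [e]
    linarith [sq_nonneg (g ^ 3 * s / (25 * w ^ 2 * r ^ 3))]
  have h2 : 1 / √(2 * (r ^ 2 * g ^ 6) * s ^ 2 / (5 * w * r ^ 2) ^ 4) ≤
      25 * w ^ 2 * r ^ 3 / g ^ 3 * (1 / s) := by
    refine (one_div_le_one_div_of_le (by positivity) h1).trans_eq ?_
    field_simp
  have h3 : s * g ≤ 2 * r := by
    refine le_of_pow_le_pow_left₀ two_ne_zero (by positivity) ?_
    rw [mul_pow, mul_pow]
    linarith [sq_nonneg r]
  have h4 : 2 * (r ^ 2 * g ^ 6) * s ^ 2 / (r ^ 2) ^ 3 ≤ 4 * g ^ 2 := by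
    rw [div_le_iff₀ (by positivity)]
    calc 2 * (r ^ 2 * g ^ 6) * s ^ 2 = 2 * r ^ 2 * g ^ 2 * g ^ 2 * (s ^ 2 * g ^ 2) := by ring
      _ ≤ 2 * r ^ 2 * g ^ 2 * r ^ 2 * (2 * r ^ 2) := by gcongr
      _ = _ := by ring
  have h5 : 2 * (r ^ 2 * g ^ 6) * s ^ 2 / (r ^ 2) ^ 3 * (25 * w ^ 2 * r ^ 3 / g ^ 3 * (1 / s)) ≤
      100 * w ^ 2 * g ^ 2 := by
    have e : 2 * (r ^ 2 * g ^ 6) * s ^ 2 / (r ^ 2) ^ 3 * (25 * w ^ 2 * r ^ 3 / g ^ 3 * (1 / s)) =
        50 * w ^ 2 * g ^ 2 * (s * g) / r := by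
      field_simp
      ring
    rw [e, div_le_iff₀ hr]
    calc 50 * w ^ 2 * g ^ 2 * (s * g) ≤ 50 * w ^ 2 * g ^ 2 * (2 * r) := by gcongr
      _ = _ := by ring
  have h6 : 1 ≤ w ^ 2 := one_le_pow₀ hw
  have h7 : 1 ≤ g ^ 2 := one_le_pow₀ hg
  have h8 : g ^ 2 ≤ w ^ 2 * g ^ 2 := le_mul_of_one_le_left (by positivity) h6
  calc _ ≤ (2 * (r ^ 2 * g ^ 6) * s ^ 2 / (r ^ 2) ^ 3 + 1) *
        (25 * w ^ 2 * r ^ 3 / g ^ 3 * (1 / s) + 1) := by gcongr
    _ ≤ _ := by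
      rw [add_mul, mul_add, mul_one, one_mul]
      nlinarith

lemma sum_inj_Exp3 {M : ℕ} {f : ℕ → ℕ} (h1 : ∀ b ∈ range M, f b ≤ M)
    (h2 : ∀ b b', f b ≠ 0 → f b' ≠ 0 → f b = f b' → b = b') :
    ∑ b ∈ range M, 1 / √(f b : ℝ) ≤ 2 * √M := by
  rw [← sum_filter_of_ne (p := fun b => f b ≠ 0) (fun b _ hb h0 => hb (by simp [h0])),
    ← sum_image (g := f) (f := fun n : ℕ => 1 / √(n : ℝ))
      fun b hb b' hb' e => h2 b b' (mem_filter.1 hb).2 (mem_filter.1 hb').2 e]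
  refine le_trans (sum_le_sum_of_subset_of_nonneg (fun n hn => ?_) fun _ _ _ => by positivity)
    (E.sum_hf_le M)
  obtain ⟨b, hb, rfl⟩ := mem_image.1 hn
  rw [mem_filter] at hb
  exact mem_Icc.2 ⟨Nat.one_le_iff_ne_zero.2 hb.2, h1 b hb.1⟩

theorem exp3_stmt (hD : D2Stmt) : Exp3Stmt := by
  obtain ⟨C, hC, hD⟩ := hD
  refine ⟨1 + 205 * C + 4, by positivity, fun Y ρ w i S hρ hw hS hY => ?_⟩
  obtain ⟨r, hr, rfl⟩ : ∃ r : ℝ, 1 ≤ r ∧ ρ = r ^ 2 :=
    ⟨√ρ, Real.one_le_sqrt.2 hρ, (Real.sq_sqrt (by linarith)).symm⟩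
  have hr0 : 0 < r := by linarith
  rw [Real.sqrt_sq hr0.le] at hY ⊢
  obtain ⟨g, hg0, hg, hy⟩ : ∃ g : ℝ, 0 ≤ g ∧ (|Y| / r ^ 2) ^ (1 / 6 : ℝ) = g ∧
      |Y| = r ^ 2 * g ^ 6 := by
    refine ⟨_, by positivity, rfl, ?_⟩
    rw [← Real.rpow_natCast _ 6, ← Real.rpow_mul (by positivity)]
    norm_num
    field_simp
  rw [hg]
  clear hg
  have hgr : r ≤ g ^ 2 := by
    refine le_of_pow_le_pow_left₀ (n := 3) (by norm_num) (by positivity) ?_
    refine le_of_mul_le_mul_left ?_ (by positivity : 0 < r ^ 2)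
    calc r ^ 2 * r ^ 3 = (r ^ 2) ^ 2 * r := by ring
      _ ≤ r ^ 2 * g ^ 6 := hy ▸ hY
      _ = _ := by ring
  have hg1 : 1 ≤ g := by nlinarith
  have hw4 : w ≤ w ^ 4 := le_self_pow₀ hw (by norm_num)
  rcases le_or_gt S i with hi | hi
  · rw [Ico_eq_empty_of_le hi, sum_empty, norm_zero]
    positivity
  obtain ⟨L, rfl⟩ : ∃ L, S = i + L := ⟨S - i, by omega⟩
  have hL : 0 < L := by omega
  have hL0 : (0 : ℝ) < L := by exact_mod_cast hL
  have hi0 : (0 : ℝ) ≤ i := Nat.cast_nonneg i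
  push_cast at hS
  have hLw : (L : ℝ) ≤ w * r ^ 2 := by nlinarith
  rw [sum_Ico_eq_sum_range, Nat.add_sub_cancel_left]
  rcases le_or_gt r g with hc | hc
  · refine (norm_sum_le _ _).trans ?_
    simp only [norm_ex, sum_const, card_range, nsmul_eq_mul, mul_one]
    calc (L : ℝ) ≤ 1 * w * (r * r) := by linarith
      _ ≤ (1 + 205 * C + 4) * w ^ 4 * (g * r) := by
        gcongr
        linarith
  have hq : 1 ≤ r ^ 2 / g ^ 2 := by
    rw [le_div_iff₀ (by positivity), one_mul]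
    gcongr
  obtain ⟨M, hM1, hM2⟩ : ∃ M : ℕ, r ^ 2 / g ^ 2 ≤ M ∧ (M : ℝ) ≤ 2 * (r ^ 2 / g ^ 2) :=
    ⟨_, Nat.le_ceil _, by linarith [Nat.ceil_lt_add_one (by positivity : 0 ≤ r ^ 2 / g ^ 2)]⟩
  have hM0 : (1 : ℝ) ≤ M := hq.trans hM1
  have hM : 1 ≤ M := by exact_mod_cast hM0
  have hMg : M * g ^ 2 ≤ 2 * r ^ 2 := by
    rwa [← mul_div_assoc, le_div_iff₀ (by positivity)] at hM2
  have hMr : (M : ℝ) ≤ 2 * r := by
    refine le_of_mul_le_mul_right ?_ hr0
    calc (M : ℝ) * r ≤ M * g ^ 2 := by gcongr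
      _ ≤ _ := by linarith
  have hpair : ∀ (a d : ℕ), 1 ≤ d → a + d ≤ M →
      ‖∑ x ∈ range L, ex (Y / (x + (i + a + r ^ 2)) - Y / (x + (i + a + r ^ 2) + d))‖ ≤
        C * (105 * w ^ 2 * g ^ 2 + 25 * w ^ 2 * r ^ 3 / g ^ 3 * (1 / √d)) := by
    intro a d hd had
    have hd1 : (1 : ℝ) ≤ d := by exact_mod_cast hd
    have had' : (a : ℝ) + d ≤ M := by exact_mod_cast had
    have ha0 : (0 : ℝ) ≤ a := Nat.cast_nonneg a
    have hy0 : 0 ≤ r ^ 2 * g ^ 6 := by positivity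
    have hrr : r ≤ r ^ 2 := le_self_pow₀ hr (by norm_num)
    have hwr : r ^ 2 ≤ w * r ^ 2 := le_mul_of_one_le_left (by positivity) hw
    have key := hD (fun x : ℕ => -(r ^ 2 * g ^ 6 / (x + (i + a + r ^ 2)) -
        r ^ 2 * g ^ 6 / (x + (i + a + r ^ 2) + d))) 0 L
      (2 * (r ^ 2 * g ^ 6) * d / (5 * w * r ^ 2) ^ 4) (2 * (r ^ 2 * g ^ 6) * d / (r ^ 2) ^ 3)
      (by positivity) (by positivity) (fun n _ hn => by
        have hn' : (n : ℝ) ≤ L := by exact_mod_cast hn.le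
        have := second_Exp3 (v := n + (i + a + r ^ 2)) (d := d) (W := 5 * w * r ^ 2) hy0
          (by positivity) (by positivity) (by linarith)
        push_cast
        rw [add_right_comm (n : ℝ) 2, add_right_comm (n : ℝ) 1]
        exact this) (by
        have h1 := (first_Exp3 (v := i + a + r ^ 2) (d := d) hy0 (by positivity)
          (by positivity)).2
        have h2 := (first_Exp3 (v := L + (i + a + r ^ 2)) (d := d) hy0 (by positivity)
          (by positivity)).1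
        have h3 : 2 * (r ^ 2 * g ^ 6) * d / (i + a + r ^ 2) ^ 3 ≤
            2 * (r ^ 2 * g ^ 6) * d / (r ^ 2) ^ 3 := by
          gcongr
          linarith
        push_cast
        rw [zero_add, add_comm 1, add_right_comm (L : ℝ) 1]
        linarith)
    rw [← range_eq_Ico, mul_assoc] at key
    have key' := key.trans (mul_le_mul_of_nonneg_left
      (num_Exp3 hg1 hc.le hw hd1 (by nlinarith [sq_nonneg g])) hC.le)
    rcases abs_choice Y with e | e
    · rw [norm_neg_Exp3, ← hy, e] at key'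
      exact key'
    · rw [← hy, e] at key'
      simpa only [neg_div, neg_sub_neg, neg_sub] using key'
  have hne : (range M).Nonempty := nonempty_range_iff.2 (by omega)
  have hsq : r / g ≤ √M := Real.le_sqrt_of_sq_le (by rwa [div_pow])
  have hvdc := vdc_Exp3 (u := fun x : ℕ => ex (Y / (((i + x : ℕ) : ℝ) + r ^ 2)))
    (fun n => (norm_ex _).le) (L := L) hM (τ := (1 + 205 * C) * w ^ 2 * (g * r) / L)
    (by positivity) (expect_le hne fun a ha => ?_)
  · rw [expect_eq_sum_div_card, norm_div, card_range, Complex.norm_natCast, ← add_div,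
      div_le_div_iff_of_pos_right hL0] at hvdc
    refine hvdc.trans ?_
    have h1 : w ^ 2 ≤ w ^ 4 := pow_le_pow_right₀ hw (by norm_num)
    have h2 : r ≤ w ^ 4 * (g * r) :=
      calc r = 1 * (1 * r) := by ring
        _ ≤ w ^ 4 * (g * r) := by
          gcongr
          linarith
    have h3 : (1 + 205 * C) * w ^ 2 * (g * r) ≤ (1 + 205 * C) * w ^ 4 * (g * r) := by gcongr
    linarith
  have hb : ∀ b ∈ range M, ‖𝔼 x ∈ range L, ex (Y / (((i + (x + a) : ℕ) : ℝ) + r ^ 2)) *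
      conj (ex (Y / (((i + (x + b) : ℕ) : ℝ) + r ^ 2)))‖ ≤ (if a = b then 1 else 0) +
        C / L * (105 * w ^ 2 * g ^ 2 + 25 * w ^ 2 * r ^ 3 / g ^ 3 *
          (1 / √((b - a : ℕ) : ℝ) + 1 / √((a - b : ℕ) : ℝ))) := by
    intro b hb
    rw [mem_range] at ha hb
    simp only [conj_ex, ← ex_add]
    rcases lt_trichotomy a b with h | h | h
    · obtain ⟨d, rfl⟩ : ∃ d, b = a + d := ⟨b - a, by omega⟩
      rw [if_neg h.ne, zero_add, Nat.add_sub_cancel_left, Nat.sub_eq_zero_of_le h.le,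
        expect_eq_sum_div_card, norm_div, card_range, Complex.norm_natCast, div_mul_eq_mul_div]
      refine div_le_div_of_nonneg_right (le_of_eq_of_le ?_
        ((hpair a d (by omega) hb.le).trans_eq (by simp))) hL0.le
      congr 1
      refine sum_congr rfl fun x _ => ?_
      push_cast
      congr 2 <;> ring
    · subst h
      rw [if_pos rfl]
      refine le_add_of_le_of_nonneg ((norm_expect_Exp3 _ _).trans ?_) (by positivity)
      exact expect_le (nonempty_range_iff.2 hL.ne') fun x _ => (norm_ex _).le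
    · obtain ⟨d, rfl⟩ : ∃ d, a = b + d := ⟨a - b, by omega⟩
      rw [if_neg h.ne', zero_add, Nat.add_sub_cancel_left, Nat.sub_eq_zero_of_le h.le,
        expect_eq_sum_div_card, norm_div, card_range, Complex.norm_natCast, div_mul_eq_mul_div]
      refine div_le_div_of_nonneg_right (le_of_eq_of_le ?_
        ((hpair b d (by omega) ha.le).trans_eq (by simp))) hL0.le
      rw [← norm_neg_Exp3]
      congr 1
      refine sum_congr rfl fun x _ => ?_
      push_cast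
      congr 1
      ring
  refine (expect_le_expect hb).trans ?_
  have s1 := sum_inj_Exp3 (M := M) (f := fun b => b - a)
    (fun b hb => by rw [mem_range] at hb; omega) fun b b' h1 h2 h3 => by omega
  have s2 := sum_inj_Exp3 (M := M) (f := fun b => a - b)
    (fun b _ => by rw [mem_range] at ha; omega) fun b b' h1 h2 h3 => by omega
  have hM0' : (0 : ℝ) < M := by linarith
  rw [expect_eq_sum_div_card, card_range, sum_add_distrib, sum_ite_eq, if_pos ha, ← mul_sum,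
    sum_add_distrib, sum_const, card_range, nsmul_eq_mul, ← mul_sum, sum_add_distrib,
    div_le_iff₀ hM0']
  have hs : √(M : ℝ) * √M = M := Real.mul_self_sqrt hM0'.le
  have h1 : 25 * w ^ 2 * r ^ 3 / g ^ 3 * (4 * √M) ≤ M * (100 * w ^ 2 * g ^ 2) := by
    have k1 : r ≤ √M * g := by rwa [div_le_iff₀ (by positivity)] at hsq
    rw [div_mul_eq_mul_div, div_le_iff₀ (by positivity)]
    calc 25 * w ^ 2 * r ^ 3 * (4 * √M) = 100 * w ^ 2 * √M * (r * r * r) := by ring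
      _ ≤ 100 * w ^ 2 * √M * (g ^ 2 * g ^ 2 * (√M * g)) := by gcongr
      _ = √M * √M * (100 * w ^ 2 * g ^ 2) * g ^ 3 := by ring
      _ = _ := by rw [hs]
  have h2 : C / L * (M * (105 * w ^ 2 * g ^ 2) + 25 * w ^ 2 * r ^ 3 / g ^ 3 *
      (∑ b ∈ range M, 1 / √((b - a : ℕ) : ℝ) + ∑ b ∈ range M, 1 / √((a - b : ℕ) : ℝ))) ≤
      C / L * (M * (205 * w ^ 2 * g ^ 2)) := by
    refine mul_le_mul_of_nonneg_left ?_ (by positivity)
    have := mul_le_mul_of_nonneg_left (add_le_add s1 s2)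
      (by positivity : 0 ≤ 25 * w ^ 2 * r ^ 3 / g ^ 3)
    linarith
  refine (add_le_add_right h2 1).trans ?_
  have h3 : r ^ 2 ≤ M * g ^ 2 := by rwa [div_le_iff₀ (by positivity)] at hM1
  have e : ((1 + 205 * C) * w ^ 2 * (g * r) / L) ^ 2 * M =
      (1 + 205 * C) ^ 2 * (w ^ 4 * g ^ 2 * r ^ 2 * M) / L ^ 2 := by ring
  rw [e, le_div_iff₀ (by positivity)]
  have h4 : (L : ℝ) ^ 2 ≤ w ^ 4 * g ^ 2 * r ^ 2 * M :=
    calc (L : ℝ) ^ 2 ≤ (w * r ^ 2) ^ 2 := by gcongr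
      _ = w ^ 2 * r ^ 2 * r ^ 2 := by ring
      _ ≤ w ^ 4 * r ^ 2 * (M * g ^ 2) := by
        gcongr
        norm_num
      _ = _ := by ring
  have h5 : C / L * (M * (205 * w ^ 2 * g ^ 2)) * L ^ 2 ≤
      205 * C * (w ^ 4 * g ^ 2 * r ^ 2 * M) :=
    calc C / L * (M * (205 * w ^ 2 * g ^ 2)) * L ^ 2 = 205 * C * (w ^ 2 * g ^ 2 * M * L) := by
          field_simp
      _ ≤ 205 * C * (w ^ 2 * g ^ 2 * M * (w * r ^ 2)) := by gcongr
      _ = 205 * C * (w ^ 3 * g ^ 2 * r ^ 2 * M) := by ring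
      _ ≤ _ := by
        gcongr
        norm_num
  have h6 : (1 + 205 * C) * (w ^ 4 * g ^ 2 * r ^ 2 * M) ≤
      (1 + 205 * C) ^ 2 * (w ^ 4 * g ^ 2 * r ^ 2 * M) :=
    mul_le_mul_of_nonneg_right (le_self_pow₀ (by linarith) two_ne_zero) (by positivity)
  linarith

end Pool.Agent.MP_c853c5_nt.DS

end

section

set_option autoImplicit false

open Finset Filter Real
open scoped ComplexConjugate

namespace Pool.Agent.MP_c853c5_nt.DS

open Pool.Agent.MP_88bd62_nt.U (ex)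

lemma conv_Op {s : ℕ → ℝ} (h0 : ∀ n, 0 ≤ s n) (h : ∀ n, s (n + 1) ^ 2 ≤ s n * s (n + 2)) (n : ℕ) :
    s 1 * s n ≤ s 0 * s (n + 1) := by
  induction n with
  | zero => exact (mul_comm _ _).le
  | succ n ih =>
    rcases (h0 (n + 1)).eq_or_lt with e | e
    · rw [← e, mul_zero]
      exact mul_nonneg (h0 0) (h0 _)
    · refine le_of_mul_le_mul_right ?_ e
      have h1 := mul_le_mul_of_nonneg_left (h n) (h0 1)
      have h2 := mul_le_mul_of_nonneg_right ih (h0 (n + 2))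
      nlinarith

lemma pow_Op {s : ℕ → ℝ} (h0 : ∀ n, 0 ≤ s n) (h : ∀ n, s (n + 1) ^ 2 ≤ s n * s (n + 2)) (n : ℕ) :
    s 1 ^ (n + 1) ≤ s 0 ^ n * s (n + 1) := by
  induction n with
  | zero => simp
  | succ n ih =>
    calc s 1 ^ (n + 1 + 1) = s 1 * s 1 ^ (n + 1) := by ring
      _ ≤ s 1 * (s 0 ^ n * s (n + 1)) := mul_le_mul_of_nonneg_left ih (h0 1)
      _ = s 0 ^ n * (s 1 * s (n + 1)) := by ring
      _ ≤ s 0 ^ n * (s 0 * s (n + 1 + 1)) :=
          mul_le_mul_of_nonneg_left (conv_Op h0 h _) (pow_nonneg (h0 0) n)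
      _ = s 0 ^ (n + 1) * s (n + 1 + 1) := by ring

lemma shift_Op {D : Finset ℕ} {G : ℕ → ℕ → ℝ} (hG : ∀ a b, G a b = G b a) (f g : ℕ → ℝ) :
    ∑ a ∈ D, (∑ b ∈ D, G a b * f b) * g a = ∑ a ∈ D, f a * ∑ b ∈ D, G a b * g b := by
  simp only [sum_mul, mul_sum]
  rw [sum_comm]
  exact sum_congr rfl fun a _ => sum_congr rfl fun b _ => by rw [hG b a]; ring

theorem op_stmt : OpStmt := by
  intro D G α r hr hG hα
  obtain ⟨n, rfl⟩ : ∃ n, r = n + 1 := ⟨r - 1, by omega⟩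
  obtain ⟨v, hv⟩ : ∃ v : ℕ → ℕ → ℝ, ∀ m a, v m a = ∑ k ∈ D, mp D G m a k * α k :=
    ⟨_, fun _ _ => rfl⟩
  have v0 : ∀ a ∈ D, v 0 a = α a := fun a ha => by
    simp only [hv, mp, ite_mul, one_mul, zero_mul, sum_ite_eq, if_pos ha]
  have v1 : ∀ m a, v (m + 1) a = ∑ b ∈ D, G a b * v m b := fun m a => by
    simp only [hv, mp, sum_mul, mul_sum]
    rw [sum_comm]
    exact sum_congr rfl fun b _ => sum_congr rfl fun k _ => mul_assoc _ _ _
  obtain ⟨s, hs⟩ : ∃ s : ℕ → ℝ, ∀ m, s m = ∑ a ∈ D, v m a ^ 2 := ⟨_, fun _ => rfl⟩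
  have h0 : ∀ m, 0 ≤ s m := fun m => hs m ▸ sum_nonneg fun _ _ => sq_nonneg _
  have h1 : ∀ m, s (m + 1) ^ 2 ≤ s m * s (m + 2) := fun m => by
    have e : s (m + 1) = ∑ a ∈ D, v m a * v (m + 2) a := by
      have e1 := shift_Op (D := D) hG (v m) (v (m + 1))
      simp only [← v1] at e1
      rw [← e1, hs]
      exact sum_congr rfl fun a _ => sq _
    rw [e, hs, hs]
    exact sum_mul_sq_le_sq_mul_sq _ _ _
  have e0 : s 0 = ∑ a ∈ D, α a ^ 2 := by
    rw [hs]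
    exact sum_congr rfl fun a ha => by rw [v0 a ha]
  have h2 : s 0 ≤ D.card := by
    rw [e0]
    refine (sum_le_card_nsmul _ _ 1 fun a _ => (sq_le_one_iff_abs_le_one _).2 (hα a)).trans ?_
    simp
  have h3 : (∑ a ∈ D, ∑ b ∈ D, α a * α b * G a b) ^ 2 ≤ s 0 * s 1 := by
    have e : ∑ a ∈ D, ∑ b ∈ D, α a * α b * G a b = ∑ a ∈ D, v 0 a * v 1 a :=
      sum_congr rfl fun a ha => by
        rw [v1 0 a, mul_sum, v0 a ha]
        exact sum_congr rfl fun b hb => by rw [v0 b hb]; ring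
    rw [e, hs, hs]
    exact sum_mul_sq_le_sq_mul_sq _ _ _
  have h4 : s (n + 1) ≤ (∑ a ∈ D, ∑ k ∈ D, mp D G (n + 1) a k ^ 2) * s 0 := by
    rw [hs, sum_mul, e0]
    exact sum_le_sum fun a _ => hv _ a ▸ sum_mul_sq_le_sq_mul_sq _ _ _
  have h5 : 0 ≤ ∑ a ∈ D, ∑ k ∈ D, mp D G (n + 1) a k ^ 2 :=
    sum_nonneg fun _ _ => sum_nonneg fun _ _ => sq_nonneg _
  generalize ∑ a ∈ D, ∑ k ∈ D, mp D G (n + 1) a k ^ 2 = M at h4 h5
  have h6 := h0 0
  calc |∑ a ∈ D, ∑ b ∈ D, α a * α b * G a b| ^ (2 * (n + 1))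
      = ((∑ a ∈ D, ∑ b ∈ D, α a * α b * G a b) ^ 2) ^ (n + 1) := by rw [pow_mul, sq_abs]
    _ ≤ (s 0 * s 1) ^ (n + 1) := pow_le_pow_left₀ (sq_nonneg _) h3 _
    _ = s 0 ^ (n + 1) * s 1 ^ (n + 1) := mul_pow _ _ _
    _ ≤ s 0 ^ (n + 1) * (s 0 ^ n * (M * s 0)) :=
        mul_le_mul_of_nonneg_left ((pow_Op h0 h1 n).trans
          (mul_le_mul_of_nonneg_left h4 (pow_nonneg h6 n))) (pow_nonneg h6 _)
    _ = s 0 ^ (2 * (n + 1)) * M := by ring
    _ ≤ (D.card : ℝ) ^ (2 * (n + 1)) * M := by gcongr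

end Pool.Agent.MP_c853c5_nt.DS

end

section

set_option autoImplicit false
open Finset Filter Real
open scoped ComplexConjugate
namespace Pool.Agent.MP_c853c5_nt.DS
open Pool.Agent.MP_88bd62_nt.U (ex)

/-- the reversed path -/
def rv_Pair : ℕ → List (ℕ × ℤ) → List (ℕ × ℤ)
  | _, [] => []
  | a, e :: l => rv_Pair e.1 l ++ [(a, -e.2)]

lemma length_rv_Pair (a : ℕ) (l : List (ℕ × ℤ)) : (rv_Pair a l).length = l.length := by
  induction l generalizing a with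
  | nil => rfl
  | cons e l ih => simp [rv_Pair, ih]

lemma lst_rv_Pair (a : ℕ) (l : List (ℕ × ℤ)) : lst (lst a l) (rv_Pair a l) = a := by
  cases l with
  | nil => rfl
  | cons e l => simp [rv_Pair, lst_append, lst]

lemma vl_rv_Pair (a : ℕ) (l : List (ℕ × ℤ)) : vl (lst a l) (rv_Pair a l) = - vl a l := by
  induction l generalizing a with
  | nil => simp [rv_Pair, vl]
  | cons e l ih =>
    simp only [rv_Pair, lst, vl_append, ih, lst_rv_Pair, vl]
    push_cast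
    rw [mul_comm (e.1 : ℚ)]
    ring

lemma rv_append_Pair (a : ℕ) (l l' : List (ℕ × ℤ)) :
    rv_Pair a (l ++ l') = rv_Pair (lst a l) l' ++ rv_Pair a l := by
  induction l generalizing a with
  | nil => simp [rv_Pair, lst]
  | cons e l ih => simp [rv_Pair, lst, ih]

lemma rv_rv_Pair (a : ℕ) (l : List (ℕ × ℤ)) : rv_Pair (lst a l) (rv_Pair a l) = l := by
  induction l generalizing a with
  | nil => rfl
  | cons e l ih => simp [rv_Pair, lst, rv_append_Pair, ih, lst_rv_Pair]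

lemma rv_mem_Pair {D : Finset ℕ} {B n a : ℕ} {l : List (ℕ × ℤ)} (ha : a ∈ D)
    (h : l ∈ paths D B n a) : rv_Pair a l ∈ paths D B n (lst a l) := by
  induction l generalizing a n with
  | nil => exact h
  | cons e l ih =>
    obtain rfl : n = l.length + 1 := (length_of_mem_paths h).symm
    obtain ⟨h1, h2, h3, h4⟩ := cons_mem_paths.1 h
    have h5 := ih h2 h4
    rw [← length_rv_Pair e.1 l] at h5 ⊢
    refine append_mem_paths.2 ⟨h5, ?_⟩
    rw [lst, lst_rv_Pair]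
    refine cons_mem_paths.2 ⟨h1.symm, ha, ?_, mem_paths_zero.2 rfl⟩
    rw [mem_hs] at h3 ⊢
    exact ⟨neg_ne_zero.2 h3.1, by simpa using h3.2⟩

theorem pair_stmt : PairStmt := by
  intro B n D a ha
  refine card_le_card_of_injOn (fun p => p.1 ++ rv_Pair a p.2) ?_ ?_
  · intro p hp
    simp only [coe_filter, mem_product, Set.mem_ofPred_eq] at hp
    obtain ⟨⟨h1, h2⟩, h3, h4⟩ := hp
    have e := length_of_mem_paths h1
    simp only [cyc, coe_filter, Set.mem_ofPred_eq]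
    refine ⟨?_, ?_, ?_⟩
    · have : p.1 ++ rv_Pair a p.2 ∈ paths D B (p.1.length + n) a :=
        append_mem_paths.2 ⟨by rwa [e], by rw [h3]; exact rv_mem_Pair ha h2⟩
      rwa [e, ← two_mul] at this
    · rw [lst_append, h3, lst_rv_Pair]
    · rw [vl_append, h3, vl_rv_Pair, h4, add_neg_cancel]
  · intro p hp q hq hpq
    simp only [coe_filter, mem_product, Set.mem_ofPred_eq] at hp hq
    obtain ⟨k1, k2⟩ := List.append_inj hpq
      ((length_of_mem_paths hp.1.1).trans (length_of_mem_paths hq.1.1).symm)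
    refine Prod.ext k1 ?_
    rw [← rv_rv_Pair a p.2, ← rv_rv_Pair a q.2, k2, ← hp.2.1, ← hq.2.1, k1]

end Pool.Agent.MP_c853c5_nt.DS

end

section

set_option autoImplicit false
open Finset Filter Real
open scoped ComplexConjugate
namespace Pool.Agent.MP_c853c5_nt.DS
open Pool.Agent.MP_88bd62_nt.U (ex)

theorem path_stmt : PathStmt := by
  intro D B G f h0 h1 n
  induction n with
  | zero =>
    intro a _ k
    rw [mp, paths, sum_filter, sum_singleton, lst, wt]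
    split_ifs <;> simp
  | succ n ih =>
    intro a ha k
    rw [mp, sum_filter, sum_paths_succ, ← add_sum_erase D _ ha, h0 a ha, zero_mul, zero_add]
    push_cast
    refine sum_congr rfl fun b hb => ?_
    obtain ⟨b1, b2⟩ := mem_erase.1 hb
    rw [h1 a ha b b2 b1.symm, ih b b2 k, sum_mul]
    refine sum_congr rfl fun h _ => ?_
    rw [sum_filter, mul_sum]
    refine sum_congr rfl fun l _ => ?_
    rw [mul_ite, mul_zero]
    rfl

end Pool.Agent.MP_c853c5_nt.DS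

end

section

/-!
A closed path of value zero with many new vertices comes from a shorter one.
-/

set_option autoImplicit false

open Finset Filter Real
open scoped ComplexConjugate

namespace Pool.Agent.MP_c853c5_nt.DS

open Pool.Agent.MP_88bd62_nt.U (ex)

lemma once_Rec {a : ℕ} {l : List (ℕ × ℤ)} (h : l.length / 2 < nw a l) :
    ∃ k, k ≠ a ∧ (l.map Prod.fst).count k = 1 := by
  by_contra c
  push Not at c
  have h1 : ∑ _k ∈ (l.map Prod.fst).toFinset.erase a, 2 ≤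
      ∑ k ∈ (l.map Prod.fst).toFinset.erase a, (l.map Prod.fst).count k := by
    refine sum_le_sum fun k hk => ?_
    have h2 := c k (mem_erase.1 hk).1
    have h3 := List.count_pos_iff.2 (List.mem_toFinset.1 (mem_erase.1 hk).2)
    omega
  have h4 : ∑ k ∈ (l.map Prod.fst).toFinset.erase a, (l.map Prod.fst).count k ≤
      ∑ k ∈ (l.map Prod.fst).toFinset, (l.map Prod.fst).count k :=
    sum_le_sum_of_subset (erase_subset _ _)
  rw [List.sum_toFinset_count_eq_length, List.length_map] at h4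
  rw [sum_const, smul_eq_mul] at h1
  unfold nw at h
  omega

lemma split_Rec {k : ℕ} {l : List (ℕ × ℤ)} (h : (l.map Prod.fst).count k = 1) :
    ∃ (l₁ l₂ : List (ℕ × ℤ)) (z : ℤ), l = l₁ ++ (k, z) :: l₂ ∧ (∀ e ∈ l₁, e.1 ≠ k) ∧
      ∀ e ∈ l₂, e.1 ≠ k := by
  obtain ⟨⟨k', z⟩, h1, rfl⟩ := List.mem_map.1 (List.count_pos_iff.1 (h ▸ Nat.one_pos :
    0 < (l.map Prod.fst).count k))
  obtain ⟨l₁, l₂, rfl⟩ := List.append_of_mem h1
  rw [List.map_append, List.map_cons, List.count_append, List.count_cons_self] at h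
  have h0 : (l₁.map Prod.fst).count k' + ((l₂.map Prod.fst).count k' + 1) = 1 := h
  have h2 : (l₁.map Prod.fst).count k' = 0 := by omega
  have h3 : (l₂.map Prod.fst).count k' = 0 := by omega
  exact ⟨l₁, l₂, z, rfl,
    fun e he c => List.count_eq_zero.1 h2 (List.mem_map.2 ⟨e, he, c⟩),
    fun e he c => List.count_eq_zero.1 h3 (List.mem_map.2 ⟨e, he, c⟩)⟩

lemma vert_Rec {D : Finset ℕ} {B n a : ℕ} {l : List (ℕ × ℤ)} (h : l ∈ paths D B n a) :
    (∀ e ∈ l, e.1 ∈ D) ∧ (a ∈ D → lst a l ∈ D) := by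
  induction n generalizing a l with
  | zero => simp [mem_paths_zero.1 h, lst]
  | succ n ih =>
    cases l with
    | nil => exact absurd h nil_not_mem_paths
    | cons e l =>
      obtain ⟨-, h1, -, h2⟩ := cons_mem_paths.1 h
      exact ⟨List.forall_mem_cons.2 ⟨h1, (ih h2).1⟩, fun _ => (ih h2).2 h1⟩

lemma den_Rec {k : ℕ} (hk : k.Prime) (m : List (ℕ × ℤ)) (b : ℕ) (hb : ¬ k ∣ b)
    (hm : ∀ e ∈ m, ¬ k ∣ e.1) : ∃ (N : ℕ) (z : ℤ), ¬ k ∣ N ∧ vl b m * N = z := by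
  induction m generalizing b with
  | nil => exact ⟨1, 0, hk.not_dvd_one, by simp [vl]⟩
  | cons e m ih =>
    obtain ⟨h1, h2⟩ := List.forall_mem_cons.1 hm
    obtain ⟨N, z, h3, h4⟩ := ih e.1 h1 h2
    refine ⟨b * e.1 * N, e.2 * N + z * b * e.1,
      hk.not_dvd_mul (hk.not_dvd_mul hb h1) h3, ?_⟩
    have a1 : (b : ℚ) ≠ 0 := Nat.cast_ne_zero.2 fun c => hb (c ▸ dvd_zero k)
    have a2 : (e.1 : ℚ) ≠ 0 := Nat.cast_ne_zero.2 fun c => h1 (c ▸ dvd_zero k)
    rw [vl]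
    push_cast
    rw [← h4]
    field_simp

lemma small_Rec {p : ℕ} {z : ℤ} (h : (p : ℤ) ∣ z) (hz : |z| < p) : z = 0 :=
  Int.eq_zero_of_abs_lt_dvd h hz

lemma dvd_Rec {p q : ℕ} (hp : p.Prime) (hq : ¬ p ∣ q) {z : ℤ} (h : (p : ℤ) ∣ z * q) :
    (p : ℤ) ∣ z :=
  ((Nat.prime_iff_prime_int.1 hp).dvd_or_dvd h).resolve_right fun c =>
    hq (Int.natCast_dvd_natCast.1 c)

/-- the relation between a path and the shorter path, when two steps are merged -/
def Rel_Rec (K a : ℕ) (l : List (ℕ × ℤ)) (t : ℕ × ℤ × List (ℕ × ℤ)) : Prop :=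
  ∃ (l₁ l₂ : List (ℕ × ℤ)) (k k' : ℕ) (h' j : ℤ), l = l₁ ++ (k, t.2.1) :: (k', h') :: l₂ ∧
    t.2.2 = l₁ ++ (k', j) :: l₂ ∧ l₁.length = t.1 ∧
    t.2.1 * k' + h' * (lst a l₁ : ℕ) = j * k ∧ (lst a l₁).Prime ∧ K ≤ lst a l₁ ∧ j ≠ 0 ∧
    |j| < K ∧ K ≤ k ∧ k < 2 * K

lemma uniq_Rec {K a : ℕ} {l l' : List (ℕ × ℤ)} {t : ℕ × ℤ × List (ℕ × ℤ)}
    (h : Rel_Rec K a l t) (h' : Rel_Rec K a l' t) : l = l' := by
  obtain ⟨l₁, l₂, k, k', z, j, rfl, a1, a2, a3, a4, a5, a6, a7, a8, a9⟩ := h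
  obtain ⟨m₁, m₂, q, q', w, i, rfl, b1, b2, b3, -, -, -, -, b8, b9⟩ := h'
  obtain ⟨rfl, e⟩ := List.append_inj (a1.symm.trans b1) (a2.trans b2.symm)
  obtain ⟨e1, rfl⟩ := List.cons.inj e
  obtain ⟨rfl, rfl⟩ := Prod.mk.inj e1
  have e2 : j * ((k : ℤ) - q) = (lst a l₁ : ℕ) * (z - w) := by linear_combination b3 - a3
  have e3 : (k : ℤ) - q = 0 := by
    rcases (Nat.prime_iff_prime_int.1 a4).dvd_or_dvd (Dvd.intro _ e2.symm) with c | c
    · exact absurd (small_Rec c (a7.trans_le (by exact_mod_cast a5))) a6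
    · exact small_Rec c (by rw [abs_lt]; constructor <;> omega)
  have e4 : k = q := by omega
  rw [e3, mul_zero] at e2
  have e5 : z = w := by
    have := (mul_eq_zero.1 e2.symm).resolve_left (by exact_mod_cast a4.ne_zero)
    omega
  rw [e4, e5]

lemma main_Rec {K B n a : ℕ} {D : Finset ℕ} (hD : PrK K D) (hB : 4 * B < K) (ha : a ∈ D)
    {l : List (ℕ × ℤ)} (hl : l ∈ cyc D B (n + 2) a) (hn : (n + 2) / 2 < nw a l) :
    (∃ t ∈ range (n + 2) ×ˢ ((D ×ˢ hs B) ×ˢ cyc D B n a),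
      t.2.2.take t.1 ++ t.2.1 :: (lst a (t.2.2.take t.1), -t.2.1.2) :: t.2.2.drop t.1 = l) ∨
    ∃ t ∈ range (n + 2) ×ˢ (hs B ×ˢ cyc D (4 * B) (n + 1) a), Rel_Rec K a l t := by
  obtain ⟨h1, h2, h3⟩ := mem_filter.1 hl
  have hlen := length_of_mem_paths h1
  obtain ⟨k, hka, hc⟩ := once_Rec (hlen ▸ hn : l.length / 2 < nw a l)
  obtain ⟨l₁, l₃, z, rfl, n1, n3⟩ := split_Rec hc
  cases l₃ with
  | nil => exact absurd (by rw [← h2, lst_append]; rfl) hka
  | cons e l₂ =>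
  obtain ⟨k', z'⟩ := e
  obtain rfl : n = l₁.length + l₂.length := by
    simp only [List.length_append, List.length_cons] at hlen
    omega
  rw [add_assoc] at h1
  obtain ⟨p1, p2⟩ := append_mem_paths.1 h1
  obtain ⟨c1, c2, c3, p3⟩ := cons_mem_paths.1 p2
  obtain ⟨d1, d2, d3, p4⟩ := cons_mem_paths.1 p3
  obtain ⟨p, hp⟩ : ∃ p, p = lst a l₁ := ⟨_, rfl⟩
  have hpD : p ∈ D := hp ▸ (vert_Rec p1).2 ha
  rw [lst_append] at h2
  rw [vl_append, ← hp] at h3
  rw [← hp] at c1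
  simp only [lst, vl] at h2 h3 c1 c2 c3 d1 d2 d3 p4
  obtain ⟨k1, k2, k3⟩ := hD k c2
  obtain ⟨q1, q2, q3⟩ := hD k' d2
  obtain ⟨r1, r2, r3⟩ := hD p hpD
  have nd : ∀ q ∈ D, q ≠ k → ¬ k ∣ q := fun q hq hne c =>
    hne ((Nat.prime_dvd_prime_iff_eq k1 (hD q hq).1).1 c).symm
  obtain ⟨N₁, z₁, u1, u2⟩ := den_Rec k1 l₁ a (nd a ha hka.symm)
    fun e he => nd _ ((vert_Rec p1).1 e he) (n1 e he)
  obtain ⟨N₂, z₂, v1, v2⟩ := den_Rec k1 l₂ k' (nd k' d2 d1)
    fun e he => nd _ ((vert_Rec p4).1 e he) (n3 e (List.mem_cons_of_mem _ he))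
  have k0 : (k : ℚ) ≠ 0 := Nat.cast_ne_zero.2 k1.ne_zero
  have q0 : (k' : ℚ) ≠ 0 := Nat.cast_ne_zero.2 q1.ne_zero
  have r0 : (p : ℚ) ≠ 0 := Nat.cast_ne_zero.2 r1.ne_zero
  have e1 : (z : ℚ) / (p * k) + z' / (k * k') = (z * k' + z' * p) / (p * k * k') := by
    field_simp
  obtain ⟨j, hj⟩ : (k : ℤ) ∣ z * k' + z' * p := by
    refine dvd_Rec k1 u1 (dvd_Rec k1 v1 ⟨-((z₁ * N₂ + z₂ * N₁) * p * k'), ?_⟩)
    have e2 : ((z : ℚ) * k' + z' * p) / (p * k * k') = -(vl a l₁ + vl k' l₂) := by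
      rw [← e1]
      linarith
    rw [div_eq_iff (by positivity)] at e2
    have e3 : ((z : ℚ) * k' + z' * p) * N₁ * N₂ = k * -((z₁ * N₂ + z₂ * N₁) * p * k') := by
      rw [e2, ← u2, ← v2]
      ring
    exact_mod_cast e3
  have e4 : (z : ℚ) / (p * k) + z' / (k * k') = j / (p * k') := by
    have e5 : (z : ℚ) * k' + z' * p = k * j := by exact_mod_cast hj
    rw [e1, e5]
    field_simp
  obtain ⟨z0, zB⟩ := mem_hs.1 c3
  obtain ⟨w0, wB⟩ := mem_hs.1 d3
  have hi : l₁.length ∈ range (l₁.length + l₂.length + 2) := mem_range.2 (by omega)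
  by_cases hj0 : j = 0
  · left
    subst hj0
    have e6 : p = k' := by
      by_contra c
      refine z0 (small_Rec (dvd_Rec r1 (q := k') (fun c' =>
        c ((Nat.prime_dvd_prime_iff_eq r1 q1).1 c')) ⟨-z', by linear_combination hj⟩) ?_)
      omega
    subst e6
    have e7 : z' = -z := by
      have e8 : (z + z') * p = 0 := by linear_combination hj
      have := (mul_eq_zero.1 e8).resolve_right (by exact_mod_cast r1.ne_zero)
      omega
    refine ⟨(l₁.length, (k, z), l₁ ++ l₂), mem_product.2 ⟨hi, mem_product.2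
      ⟨mem_product.2 ⟨c2, c3⟩, mem_filter.2 ⟨append_mem_paths.2 ⟨p1, hp ▸ p4⟩, ?_, ?_⟩⟩⟩, ?_⟩
    · rw [lst_append, ← hp, h2]
    · rw [vl_append, ← hp]
      rw [Int.cast_zero, zero_div] at e4
      linarith
    · simp only [List.take_left', List.drop_left']
      rw [← hp, e7]
  · right
    have e6 : k' ≠ p := by
      rintro rfl
      have e7 : z + z' = 0 := by
        refine small_Rec (dvd_Rec k1 (nd _ d2 d1) ⟨j, by linear_combination hj⟩) ?_
        have := abs_add_le z z'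
        omega
      have e8 : (k : ℤ) * j = 0 := by linear_combination (k' : ℤ) * e7 - hj
      exact hj0 ((mul_eq_zero.1 e8).resolve_left (by exact_mod_cast k1.ne_zero))
    have e9 : |j| ≤ ((4 * B : ℕ) : ℤ) := by
      have f1 : (k : ℤ) * |j| ≤ |z| * k' + |z'| * p := by
        have := abs_add_le (z * k') (z' * p)
        rwa [hj, abs_mul, abs_mul, abs_mul, Nat.abs_cast, Nat.abs_cast, Nat.abs_cast] at this
      have f2 : |z| * k' ≤ B * (2 * K) :=
        mul_le_mul zB (by exact_mod_cast q3.le) (by positivity) (by positivity)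
      have f3 : |z'| * p ≤ B * (2 * K) :=
        mul_le_mul wB (by exact_mod_cast r3.le) (by positivity) (by positivity)
      have f4 : (K : ℤ) * |j| ≤ k * |j| :=
        mul_le_mul_of_nonneg_right (by exact_mod_cast k2) (abs_nonneg j)
      have f5 : (0 : ℤ) < K := by exact_mod_cast (by omega : 0 < K)
      push_cast
      exact le_of_mul_le_mul_left (by linarith) f5
    have hB4 : B ≤ 4 * B := by omega
    refine ⟨(l₁.length, z, l₁ ++ (k', j) :: l₂), mem_product.2 ⟨hi, mem_product.2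
      ⟨c3, mem_filter.2 ⟨?_, ?_, ?_⟩⟩⟩, l₁, l₂, k, k', z', j, rfl, rfl, rfl, ?_, hp ▸ r1, hp ▸ r2,
      hj0, e9.trans_lt (by exact_mod_cast hB), k2, k3⟩
    · rw [add_assoc]
      exact append_mem_paths.2 ⟨paths_mono hB4 p1,
        cons_mem_paths.2 ⟨hp ▸ e6, d2, mem_hs.2 ⟨hj0, e9⟩, paths_mono hB4 p4⟩⟩
    · rw [lst_append]
      exact h2
    · rw [vl_append, ← hp]
      simp only [vl]
      linarith
    · rw [← hp, mul_comm j]
      exact hj

theorem rec_stmt : RecStmt := by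
  classical
  intro K B n D hD hB a ha
  obtain ⟨S, hS⟩ : ∃ S, S = (cyc D B (n + 2) a).filter fun l => (n + 2) / 2 < nw a l := ⟨_, rfl⟩
  have h1 : S ⊆ (range (n + 2) ×ˢ ((D ×ˢ hs B) ×ˢ cyc D B n a)).image (fun t =>
      t.2.2.take t.1 ++ t.2.1 :: (lst a (t.2.2.take t.1), -t.2.1.2) :: t.2.2.drop t.1) ∪
      S.filter fun l => ∃ t ∈ range (n + 2) ×ˢ (hs B ×ˢ cyc D (4 * B) (n + 1) a),
        Rel_Rec K a l t := by
    intro l hl
    have h2 := mem_filter.1 (hS ▸ hl)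
    exact mem_union.2 ((main_Rec hD hB ha h2.1 h2.2).imp mem_image.2 fun c => mem_filter.2 ⟨hl, c⟩)
  have h3 := card_le_card_of_forall_subsingleton (Rel_Rec K a)
    (s := S.filter fun l => ∃ t ∈ range (n + 2) ×ˢ (hs B ×ˢ cyc D (4 * B) (n + 1) a),
      Rel_Rec K a l t) (t := range (n + 2) ×ˢ (hs B ×ˢ cyc D (4 * B) (n + 1) a))
    (fun l hl => (mem_filter.1 hl).2) fun t _ l hl l' hl' => uniq_Rec hl.2 hl'.2
  have h4 := ((card_le_card h1).trans (card_union_le _ _)).trans (add_le_add card_image_le h3)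
  simp only [card_product, card_range, card_hs] at h4
  rw [← hS, mul_add]
  exact h4

end Pool.Agent.MP_c853c5_nt.DS

end

section

set_option autoImplicit false

open Finset Filter Real
open scoped ComplexConjugate

namespace Pool.Agent.MP_c853c5_nt.DS

open Pool.Agent.MP_88bd62_nt.U (ex)

lemma side_Schur {η : ℝ} (hη : 0 < η) (d : ℚ → ℝ) (S : Finset ℚ) (h1 : ∀ x ∈ S, η ≤ d x)
    (h2 : ∀ x ∈ S, ∀ y ∈ S, x ≠ y → η ≤ |d x - d y|) :
    (∀ y, η ≤ y → (∀ x ∈ S, d x + η ≤ y) → (S.card + 1) * η ≤ y) ∧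
      ∑ x ∈ S, 1 / d x ≤ 1 / η * (harmonic S.card : ℝ) := by
  induction S using Finset.induction_on_max_value d with
  | empty => exact ⟨fun y hy _ => by simpa using hy, by simp⟩
  | insert a s ha hm ih =>
    obtain ⟨i1, i2⟩ := ih (fun x hx => h1 x (mem_insert_of_mem hx))
      fun x hx y hy => h2 x (mem_insert_of_mem hx) y (mem_insert_of_mem hy)
    have h3 := i1 (d a) (h1 a (mem_insert_self _ _)) fun x hx => by
      have := h2 a (mem_insert_self _ _) x (mem_insert_of_mem hx) fun e => ha (e ▸ hx)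
      rw [abs_of_nonneg (sub_nonneg.2 (hm x hx))] at this
      linarith
    rw [card_insert_of_notMem ha, sum_insert ha, harmonic_succ]
    push_cast
    refine ⟨fun y _ hy => by linarith [hy a (mem_insert_self _ _)], ?_⟩
    have h4 : 1 / d a ≤ 1 / η * ((s.card : ℝ) + 1)⁻¹ := by
      rw [← one_div, div_mul_div_comm, one_mul, mul_comm]
      exact one_div_le_one_div_of_le (by positivity) h3
    linarith

lemma half_Schur {θ η : ℝ} (hθ : 0 < θ) (hη : 0 < η) (d : ℚ → ℝ) (S : Finset ℚ) {n : ℕ}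
    (hn : S.card ≤ n) (h1 : ∀ x ∈ S, η ≤ d x)
    (h2 : ∀ x ∈ S, ∀ y ∈ S, x ≠ y → η ≤ |d x - d y|) :
    ∑ x ∈ S, θ / (θ + d x) ≤ θ / η * (1 + Real.log (n + 1)) := by
  have h3 : (harmonic S.card : ℝ) ≤ 1 + Real.log (n + 1) := by
    refine (harmonic_le_one_add_log _).trans (add_le_add le_rfl ?_)
    rcases S.card.eq_zero_or_pos with h | h
    · rw [h, Nat.cast_zero, Real.log_zero]
      exact Real.log_nonneg (by linarith [(Nat.cast_nonneg n : (0 : ℝ) ≤ n)])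
    · exact Real.log_le_log (by exact_mod_cast h) (by exact_mod_cast hn.trans n.le_succ)
  calc _ ≤ ∑ x ∈ S, θ * (1 / d x) := sum_le_sum fun x hx => by
        rw [mul_one_div]
        exact div_le_div_of_nonneg_left hθ.le (hη.trans_le (h1 x hx)) (by linarith)
    _ ≤ θ * (1 / η * (1 + Real.log (n + 1))) := by
        rw [← mul_sum]
        exact mul_le_mul_of_nonneg_left ((side_Schur hη d S h1 h2).2.trans
          (mul_le_mul_of_nonneg_left h3 (by positivity))) hθ.le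
    _ = _ := by ring

lemma row_Schur {θ η : ℝ} (hθ : 0 < θ) (hη : 0 < η) (V : Finset ℚ) {n : ℕ} (hn : V.card ≤ n)
    (h : ∀ x ∈ V, ∀ y ∈ V, x ≠ y → η ≤ |(x : ℝ) - y|) {v : ℚ} (hv : v ∈ V) :
    ∑ x ∈ V, fm θ ((v : ℝ) - x) ≤ 1 + 2 * (θ / η) * (1 + Real.log (n + 1)) := by
  have a1 := half_Schur hθ hη (fun x => (v : ℝ) - x) (V.filter (· < v))
    ((card_filter_le _ _).trans hn) (fun x hx => by
      obtain ⟨b, c⟩ := mem_filter.1 hx
      have := h v hv x b c.ne'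
      rwa [abs_of_pos (sub_pos.2 (by exact_mod_cast c))] at this) fun x hx y hy e => by
      rw [sub_sub_sub_cancel_left]
      exact h y (mem_filter.1 hy).1 x (mem_filter.1 hx).1 e.symm
  have a2 := half_Schur hθ hη (fun x => (x : ℝ) - v) (V.filter (v < ·))
    ((card_filter_le _ _).trans hn) (fun x hx => by
      obtain ⟨b, c⟩ := mem_filter.1 hx
      have := h x b v hv c.ne'
      rwa [abs_of_pos (sub_pos.2 (by exact_mod_cast c))] at this) fun x hx y hy e => by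
      rw [sub_sub_sub_cancel_right]
      exact h x (mem_filter.1 hx).1 y (mem_filter.1 hy).1 e
  have a3 : ∑ x ∈ V, fm θ ((v : ℝ) - x) = ∑ x ∈ V, ((if x = v then 1 else 0) +
      (if x < v then θ / (θ + ((v : ℝ) - x)) else 0) +
      if v < x then θ / (θ + ((x : ℝ) - v)) else 0) := sum_congr rfl fun x _ => by
    unfold fm
    rcases lt_trichotomy x v with c | c | c
    · rw [if_neg c.ne, if_pos c, if_neg c.not_gt, abs_of_pos (sub_pos.2 (by exact_mod_cast c))]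
      ring
    · simp [c, hθ.ne']
    · rw [if_neg c.ne', if_neg c.not_gt, if_pos c, abs_sub_comm,
        abs_of_pos (sub_pos.2 (by exact_mod_cast c))]
      ring
  rw [a3, sum_add_distrib, sum_add_distrib, sum_ite_eq', if_pos hv, ← sum_filter, ← sum_filter]
  linarith

theorem schur_stmt : SchurStmt := by
  intro ι L ψ θ η hθ hη h
  obtain ⟨c, hc⟩ : ∃ c : ℚ → ℝ, ∀ v, c v = ((L.filter fun a => ψ a = v).card : ℝ) :=
    ⟨_, fun _ => rfl⟩
  have key : ∀ g : ℚ → ℝ, ∑ i ∈ L, g (ψ i) = ∑ v ∈ L.image ψ, c v * g v := fun g => by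
    rw [sum_comp g ψ]
    exact sum_congr rfl fun v _ => by rw [hc, nsmul_eq_mul]
  have e1 : (((L ×ˢ L).filter fun p => ψ p.1 = ψ p.2).card : ℝ) =
      ∑ v ∈ L.image ψ, c v * c v := by
    rw [← key c, card_filter, Nat.cast_sum, sum_product_right]
    exact sum_congr rfl fun j _ => by rw [hc, card_filter, Nat.cast_sum]
  have e2 : ∑ i ∈ L, ∑ j ∈ L, fm θ ((ψ i : ℝ) - ψ j) =
      ∑ v ∈ L.image ψ, ∑ w ∈ L.image ψ, c v * c w * fm θ ((v : ℝ) - w) := by
    rw [key fun v => ∑ j ∈ L, fm θ ((v : ℝ) - ψ j)]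
    refine sum_congr rfl fun v _ => ?_
    rw [key fun w => fm θ ((v : ℝ) - w), mul_sum]
    exact sum_congr rfl fun w _ => (mul_assoc _ _ _).symm
  have e3 : ∑ v ∈ L.image ψ, ∑ w ∈ L.image ψ, c w * c w * fm θ ((v : ℝ) - w) =
      ∑ v ∈ L.image ψ, ∑ w ∈ L.image ψ, c v * c v * fm θ ((v : ℝ) - w) := by
    rw [sum_comm]
    exact sum_congr rfl fun v _ => sum_congr rfl fun w _ => by rw [fm, fm, abs_sub_comm]
  have e4 : 2 * ∑ v ∈ L.image ψ, ∑ w ∈ L.image ψ, c v * c w * fm θ ((v : ℝ) - w) ≤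
      ∑ v ∈ L.image ψ, ∑ w ∈ L.image ψ, c v * c v * fm θ ((v : ℝ) - w) +
      ∑ v ∈ L.image ψ, ∑ w ∈ L.image ψ, c w * c w * fm θ ((v : ℝ) - w) := by
    rw [mul_sum, ← sum_add_distrib]
    refine sum_le_sum fun v _ => ?_
    rw [mul_sum, ← sum_add_distrib]
    exact sum_le_sum fun w _ => by
      nlinarith [mul_nonneg (sq_nonneg (c v - c w)) (fm_pos hθ ((v : ℝ) - w)).le]
  have e5 : ∑ v ∈ L.image ψ, ∑ w ∈ L.image ψ, c v * c v * fm θ ((v : ℝ) - w) ≤
      (1 + 2 * (θ / η) * (1 + Real.log (L.card + 1))) * ∑ v ∈ L.image ψ, c v * c v := by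
    rw [mul_sum]
    refine sum_le_sum fun v hv => ?_
    rw [← mul_sum, mul_comm]
    refine mul_le_mul_of_nonneg_right (row_Schur hθ hη _ card_image_le ?_ hv) (mul_self_nonneg _)
    simp only [mem_image]
    rintro _ ⟨i, hi, rfl⟩ _ ⟨j, hj, rfl⟩ e
    exact h i hi j hj e
  rw [e1, e2]
  linarith

end Pool.Agent.MP_c853c5_nt.DS

end

section

/-!
Values of paths: size, separation and number.
-/

set_option autoImplicit false

open Finset Filter Real
open scoped ComplexConjugate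

namespace Pool.Agent.MP_c853c5_nt.DS

open Pool.Agent.MP_88bd62_nt.U (ex)

lemma size_Sep {K B : ℕ} {D : Finset ℕ} (hD : PrK K D) (n : ℕ) : ∀ a ∈ D, ∀ l ∈ paths D B n a,
    lst a l ∈ D ∧ |(vl a l : ℝ)| ≤ n * B / (K : ℝ) ^ 2 := by
  induction n with
  | zero =>
    intro a ha l hl
    rw [mem_paths_zero.1 hl]
    exact ⟨ha, by simp [vl]⟩
  | succ n ih =>
    intro a ha l hl
    cases l with
    | nil => exact absurd hl nil_not_mem_paths
    | cons e l =>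
      obtain ⟨-, h2, h3, h4⟩ := cons_mem_paths.1 hl
      obtain ⟨h5, h6⟩ := ih _ h2 l h4
      refine ⟨h5, ?_⟩
      have hK : (0 : ℝ) < K := by
        have := (hD a ha).2.2
        exact_mod_cast (by omega : 0 < K)
      have k1 : (K : ℝ) ≤ a := by exact_mod_cast (hD a ha).2.1
      have k2 : (K : ℝ) ≤ e.1 := by exact_mod_cast (hD _ h2).2.1
      have k3 : |(e.2 : ℝ) / (a * e.1)| ≤ B / (K : ℝ) ^ 2 := by
        rw [abs_div, abs_of_nonneg (a := (a : ℝ) * e.1) (by positivity)]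
        exact div_le_div₀ (Nat.cast_nonneg _) (abs_le_of_hs h3) (by positivity) (by nlinarith)
      simp only [vl]
      push_cast
      refine (abs_add_le _ _).trans ((add_le_add k3 h6).trans_eq ?_)
      ring

lemma den_Sep {K B : ℕ} {D : Finset ℕ} (hD : PrK K D) (n : ℕ) : ∀ a ∈ D,
    ∀ l ∈ paths D B (n + 1) a, ∃ (z : ℤ) (m : ℕ), 1 ≤ m ∧ m ≤ (2 * K) ^ n ∧
      vl a l * (a * lst a l * m) = z := by
  induction n with
  | zero =>
    intro a ha l hl
    cases l with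
    | nil => exact absurd hl nil_not_mem_paths
    | cons e l =>
      obtain ⟨-, h2, -, h4⟩ := cons_mem_paths.1 hl
      have k1 : (a : ℚ) ≠ 0 := by exact_mod_cast (hD a ha).1.ne_zero
      have k2 : (e.1 : ℚ) ≠ 0 := by exact_mod_cast (hD _ h2).1.ne_zero
      refine ⟨e.2, 1, le_rfl, by simp, ?_⟩
      rw [mem_paths_zero.1 h4]
      simp only [vl, lst]
      field_simp
      simp
  | succ n ih =>
    intro a ha l hl
    cases l with
    | nil => exact absurd hl nil_not_mem_paths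
    | cons e l =>
      obtain ⟨-, h2, -, h4⟩ := cons_mem_paths.1 hl
      obtain ⟨z, m, h5, h6, h7⟩ := ih _ h2 l h4
      have k1 : (a : ℚ) ≠ 0 := by exact_mod_cast (hD a ha).1.ne_zero
      have k2 : (e.1 : ℚ) ≠ 0 := by exact_mod_cast (hD _ h2).1.ne_zero
      refine ⟨e.2 * lst e.1 l * m + a * z, e.1 * m, Nat.mul_pos (hD _ h2).1.pos h5, ?_, ?_⟩
      · rw [pow_succ']
        exact Nat.mul_le_mul (hD _ h2).2.2.le h6
      · simp only [vl, lst]
        push_cast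
        rw [← h7]
        field_simp

lemma step_Sep (B : ℕ) (D : Finset ℕ) (k n a : ℕ) :
    ((paths D B (n + 1) a).filter fun l => lst a l = k).card =
      ∑ b ∈ D.erase a, 2 * B * ((paths D B n b).filter fun l => lst b l = k).card := by
  rw [card_filter, sum_paths_succ]
  refine sum_congr rfl fun b _ => ?_
  rw [card_filter, ← card_hs, ← smul_eq_mul, ← sum_const]
  rfl

lemma count_Sep (B : ℕ) (D : Finset ℕ) (k n : ℕ) : ∀ a : ℕ,
    ((paths D B (n + 1) a).filter fun l => lst a l = k).card ≤ D.card ^ n * (2 * B) ^ (n + 1) := by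
  induction n with
  | zero =>
    intro a
    have e : ∀ b, ((paths D B 0 b).filter fun l => lst b l = k).card = if b = k then 1 else 0 :=
      fun b => by
        rw [card_filter, paths, sum_singleton]
        rfl
    rw [step_Sep]
    simp only [e, mul_ite, mul_one, mul_zero, sum_ite_eq', pow_zero, one_mul, zero_add, pow_one]
    split_ifs <;> omega
  | succ n ih =>
    intro a
    rw [step_Sep]
    refine (sum_le_card_nsmul _ _ _ fun b _ => Nat.mul_le_mul_left _ (ih b)).trans ?_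
    rw [smul_eq_mul]
    exact (Nat.mul_le_mul_right _ card_erase_le).trans_eq (by ring)

theorem sep_stmt : SepStmt := by
  intro K B n D hD a ha
  refine ⟨size_Sep hD n a ha, fun l hl l' hl' hn he hne => ?_, fun k => count_Sep B D k n a⟩
  obtain ⟨n, rfl⟩ : ∃ m, n = m + 1 := ⟨n - 1, by omega⟩
  obtain ⟨z, m, h1, h2, h3⟩ := den_Sep hD n a ha l hl
  obtain ⟨z', m', h1', h2', h3'⟩ := den_Sep hD n a ha l' hl'
  have hc := hD _ (size_Sep hD _ a ha l hl).1
  have hA := hD a ha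
  rw [← he] at h3'
  have k0 : 0 < a * lst a l * m * m' := Nat.mul_pos (Nat.mul_pos (Nat.mul_pos hA.1.pos hc.1.pos) h1) h1'
  have k1 : a * lst a l * m * m' ≤ (2 * K) ^ (2 * (n + 1)) :=
    (Nat.mul_le_mul (Nat.mul_le_mul (Nat.mul_le_mul hA.2.2.le hc.2.2.le) h2) h2').trans_eq
      (by ring)
  have k2 : (vl a l - vl a l') * ((a * lst a l * m * m' : ℕ) : ℚ) = ((z * m' - z' * m : ℤ) : ℚ) := by
    push_cast
    rw [← h3, ← h3']
    ring
  have k3 : z * m' - z' * m ≠ 0 := fun e => by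
    rw [e, Int.cast_zero, mul_eq_zero, sub_eq_zero] at k2
    exact k2.elim hne (by exact_mod_cast k0.ne')
  have k4 : (1 : ℝ) ≤ |((z * m' - z' * m : ℤ) : ℝ)| := by exact_mod_cast Int.one_le_abs k3
  have k5 : ((vl a l : ℝ) - vl a l') * ((a * lst a l * m * m' : ℕ) : ℝ) =
      ((z * m' - z' * m : ℤ) : ℝ) := by exact_mod_cast k2
  have k6 : ((a * lst a l * m * m' : ℕ) : ℝ) ≤ (2 * K : ℝ) ^ (2 * (n + 1)) := by exact_mod_cast k1
  have k7 : (0 : ℝ) < ((a * lst a l * m * m' : ℕ) : ℝ) := by exact_mod_cast k0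
  rw [← k5, abs_mul, abs_of_pos k7] at k4
  rw [div_le_iff₀ (k7.trans_le k6)]
  exact k4.trans (mul_le_mul_of_nonneg_left k6 (abs_nonneg _))

end Pool.Agent.MP_c853c5_nt.DS

end

section

set_option autoImplicit false

open Finset Filter Real
open scoped ComplexConjugate

namespace Pool.Agent.MP_c853c5_nt.DS

open Pool.Agent.MP_88bd62_nt.U (ex)

lemma wt_tw_Sum (g : ℕ → ℕ → ℤ → ℂ) (X t : ℝ) (a : ℕ) (l : List (ℕ × ℤ)) :
    wt (fun a b h => g a b h * ex (h * X / (a * b * t))) a l =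
      wt g a l * ex (X * (vl a l : ℝ) / t) := by
  induction l generalizing a with
  | nil => simp [wt, vl, ex_zero]
  | cons e l ih =>
    have h : X * (vl a (e :: l) : ℝ) / t =
        e.2 * X / (a * e.1 * t) + X * (vl e.1 l : ℝ) / t := by
      simp only [vl]
      push_cast
      ring
    rw [h, ex_add]
    simp only [wt, ih]
    ring

lemma nv_wt_Sum {D : Finset ℕ} {B S : ℕ} {V : ℝ} {f : ℕ → ℕ → ℕ → ℤ → ℂ}
    (hV : ∀ a ∈ D, ∀ b ∈ D, ∀ h ∈ hs B, nv S (fun s => f s a b h) ≤ V) (n : ℕ) :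
    ∀ a ∈ D, ∀ l ∈ paths D B n a, nv S (fun s => wt (f s) a l) ≤ V ^ n := by
  induction n with
  | zero =>
    intro a _ l hl
    rw [mem_paths_zero.1 hl]
    simp [wt, nv_const]
  | succ n ih =>
    intro a ha l hl
    cases l with
    | nil => exact absurd hl nil_not_mem_paths
    | cons e l =>
      obtain ⟨-, h2, h3, h4⟩ := cons_mem_paths.1 hl
      rw [pow_succ']
      exact nv_mul_le (hV a ha e.1 h2 e.2 h3) (ih e.1 h2 l h4)

lemma sq_le_Sum {ι : Type} (L : Finset ι) (S : ℕ) (m : ℕ → ℝ) (u : ℕ → ι → ℂ) (v : ι → ℝ)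
    (ρ W : ℝ) (Z : ι → ι → ℝ) (hm : ∀ s, (m s : ℂ) = ∑ l ∈ L, u s l * ex (v l / (s + ρ)))
    (hu : ∀ l ∈ L, nv S (fun s => u s l) ≤ W)
    (hZ : ∀ l ∈ L, ∀ l' ∈ L, ∀ i, ‖∑ s ∈ Ico i S, ex ((v l - v l') / (s + ρ))‖ ≤ Z l l') :
    ∑ s ∈ range S, m s ^ 2 ≤ W ^ 2 * ∑ l ∈ L, ∑ l' ∈ L, Z l l' := by
  have e1 : ∀ s, ((m s ^ 2 : ℝ) : ℂ) =
      ∑ l ∈ L, ∑ l' ∈ L, u s l * conj (u s l') * ex ((v l - v l') / (s + ρ)) := by
    intro s
    have h : ((m s ^ 2 : ℝ) : ℂ) = (m s : ℂ) * conj (m s : ℂ) := by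
      rw [Complex.conj_ofReal]
      push_cast
      ring
    rw [h, hm s, map_sum, sum_mul_sum]
    refine sum_congr rfl fun l _ => sum_congr rfl fun l' _ => ?_
    rw [map_mul, conj_ex, show (v l - v l') / (s + ρ) = v l / (s + ρ) + -(v l' / (s + ρ)) by ring,
      ex_add]
    ring
  have e2 : ((∑ s ∈ range S, m s ^ 2 : ℝ) : ℂ) = ∑ l ∈ L, ∑ l' ∈ L,
      ∑ s ∈ range S, u s l * conj (u s l') * ex ((v l - v l') / (s + ρ)) := by
    rw [Complex.ofReal_sum, sum_congr rfl fun s _ => e1 s, sum_comm]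
    exact sum_congr rfl fun l _ => sum_comm
  have h1 : ∑ s ∈ range S, m s ^ 2 ≤ ‖((∑ s ∈ range S, m s ^ 2 : ℝ) : ℂ)‖ := by
    rw [Complex.norm_real, Real.norm_eq_abs]
    exact le_abs_self _
  refine h1.trans ?_
  rw [e2, mul_sum]
  refine (norm_sum_le _ _).trans (sum_le_sum fun l hl => ?_)
  rw [mul_sum]
  refine (norm_sum_le _ _).trans (sum_le_sum fun l' hl' => ?_)
  refine (nv_abel (fun s => u s l * conj (u s l')) _ (hZ l hl l' hl')).trans ?_
  refine mul_le_mul_of_nonneg_right ?_ ((norm_nonneg _).trans (hZ l hl l' hl' 0))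
  rw [sq]
  exact nv_mul_le (hu l hl) ((nv_conj S fun s => u s l').trans_le (hu l' hl'))

lemma log_card_Sum {c H n : ℕ} {w : ℝ} (hc : c ≤ H ^ n * (2 * H) ^ (n + 1))
    (hw : Real.log (2 * H + 1) ≤ w) : Real.log (c + 1) ≤ (2 * n + 1) * w := by
  have h1 : H ^ n * (2 * H) ^ (n + 1) ≤ (2 * H) ^ (2 * n + 1) := by
    rw [show 2 * n + 1 = n + (n + 1) by ring, pow_add (2 * H) n (n + 1)]
    gcongr
    omega
  have h2 : (2 * H) ^ (2 * n + 1) < (2 * H + 1) ^ (2 * n + 1) :=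
    Nat.pow_lt_pow_left (Nat.lt_succ_self _) (by omega)
  have h3 : ((c : ℝ) + 1) ≤ (2 * H + 1) ^ (2 * n + 1) := by
    have : c + 1 ≤ (2 * H + 1) ^ (2 * n + 1) := by omega
    exact_mod_cast this
  refine (Real.log_le_log (by positivity) h3).trans ?_
  rw [Real.log_pow]
  push_cast
  gcongr

lemma fib_Sum (D : Finset ℕ) (B n a : ℕ) :
    ∑ k ∈ D, ((((paths D B n a).filter fun l => lst a l = k) ×ˢ
      ((paths D B n a).filter fun l => lst a l = k)).filter fun p => vl a p.1 = vl a p.2).card ≤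
    (((paths D B n a) ×ˢ (paths D B n a)).filter
      fun p => lst a p.1 = lst a p.2 ∧ vl a p.1 = vl a p.2).card := by
  refine le_trans (le_of_eq ?_) (card_filter_le _ fun p => lst a p.1 ∈ D)
  rw [← sum_card_fiberwise_eq_card_filter]
  refine sum_congr rfl fun k _ => congrArg card ?_
  ext p
  simp only [mem_filter, mem_product]
  constructor
  · rintro ⟨⟨⟨h1, h2⟩, h3, h4⟩, h5⟩
    exact ⟨⟨⟨h1, h3⟩, h2.trans h4.symm, h5⟩, h2⟩
  · rintro ⟨⟨⟨h1, h3⟩, h2, h5⟩, h4⟩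
    exact ⟨⟨⟨h1, h4⟩, h3, h2.symm.trans h4⟩, h5⟩

theorem sum_stmt (hP : PathStmt) (hE : ExpStmt) (hS : SchurStmt) (hD : SepStmt) (hA : PairStmt)
    (hC : CycStmt) : SumStmt := by
  intro r hr
  obtain ⟨n, rfl⟩ : ∃ n, r = n + 1 := ⟨r - 1, by omega⟩
  obtain ⟨C, hC0, hE⟩ := hE
  obtain ⟨C', hC⟩ := hC (2 * (n + 1))
  refine ⟨C * ((4 * n + 5) * C' + 4 ^ (n + 1)), by positivity, ?_⟩
  intro K B H S D X ρ w V F G f hK hB hBH hDH hX hρ hw hSw hθ hlog hF hG0 hG hV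
  have hK0 : (0 : ℝ) < K := by
    have : 0 < K := by omega
    exact_mod_cast this
  have hρ0 : 0 < ρ := by linarith
  have hw0 : 0 < w := by linarith
  have hF0 : 0 ≤ F := by
    by_contra hc
    have h1 : F * ρ * K ^ 2 < 0 :=
      mul_neg_of_neg_of_pos (mul_neg_of_neg_of_pos (not_le.1 hc) hρ0) (by positivity)
    have h2 : (0 : ℝ) ≤ 2 * (n + 1 : ℕ) * B * X := by positivity
    linarith
  have hz : 0 ≤ zb F ρ + √ρ := add_nonneg (zb_nonneg hF0 ρ) (Real.sqrt_nonneg _)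
  set N : ℝ := (H : ℝ) ^ n * (2 * B) ^ (n + 1) with hN
  have hV0 : 0 ≤ V ^ (2 * (n + 1)) := by
    rw [pow_mul']
    positivity
  have key : ∀ a ∈ D, ∀ k : ℕ, ∑ s ∈ range S, mp D (G s) (n + 1) a k ^ 2 ≤
      V ^ (2 * (n + 1)) * (C * w ^ 4) * (ρ * ((4 * n + 5) * w ^ 2) *
        ((((((paths D B (n + 1) a).filter fun l => lst a l = k) ×ˢ
          ((paths D B (n + 1) a).filter fun l => lst a l = k)).filter
            fun p => vl a p.1 = vl a p.2).card : ℕ) : ℝ) + N ^ 2 * (zb F ρ + √ρ)) := by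
    intro a ha k
    set L := (paths D B (n + 1) a).filter fun l => lst a l = k with hL
    obtain ⟨d1, d2, -⟩ := hD K B (n + 1) D hK a ha
    have d3 := (hD K B n D hK a ha).2.2 k
    rw [← hL] at d3
    have hcard : (L.card : ℝ) ≤ N := by
      have : L.card ≤ H ^ n * (2 * B) ^ (n + 1) := d3.trans (by gcongr)
      rw [hN]
      exact_mod_cast this
    have hlc : Real.log (L.card + 1) ≤ (2 * n + 1) * w :=
      log_card_Sum (d3.trans (by gcongr)) hlog
    have h1 := sq_le_Sum L S (fun s => mp D (G s) (n + 1) a k) (fun s l => wt (f s) a l)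
      (fun l => X * (vl a l : ℝ)) ρ (V ^ (n + 1))
      (fun l l' => C * w ^ 4 * (ρ * fm (ρ / X) ((vl a l : ℝ) - vl a l') + (zb F ρ + √ρ)))
      (fun s => by
        rw [hP D B (G s) _ (hG0 s) (hG s) (n + 1) a ha k]
        exact sum_congr rfl fun l _ => wt_tw_Sum (f s) X (s + ρ) a l)
      (fun l hl => nv_wt_Sum hV (n + 1) a ha l (mem_filter.1 hl).1)
      (fun l hl l' hl' i => by
        rw [← mul_sub, ← fm_mul hX, ← add_assoc]
        refine hE _ ρ w F i S hρ hw hSw ?_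
        have a1 := (d1 l (mem_filter.1 hl).1).2
        have a2 := (d1 l' (mem_filter.1 hl').1).2
        have a3 := abs_sub (vl a l : ℝ) (vl a l')
        have a4 : X * (2 * (((n + 1 : ℕ) : ℝ) * B / (K : ℝ) ^ 2)) ≤ F * ρ := by
          rw [show X * (2 * (((n + 1 : ℕ) : ℝ) * B / (K : ℝ) ^ 2)) =
            2 * (n + 1 : ℕ) * B * X / (K : ℝ) ^ 2 by ring, div_le_iff₀ (by positivity)]
          exact hF
        rw [abs_mul, abs_of_pos hX]
        exact (mul_le_mul_of_nonneg_left (by linarith) hX.le).trans a4)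
    have h2 := hS _ L (vl a) (ρ / X) (1 / (2 * K : ℝ) ^ (2 * (n + 1))) (by positivity)
      (by positivity) (fun l hl l' hl' hne => d2 l (mem_filter.1 hl).1 l' (mem_filter.1 hl').1
        (by omega) ((mem_filter.1 hl).2.trans (mem_filter.1 hl').2.symm) hne)
    have h3 : ρ / X / (1 / (2 * K : ℝ) ^ (2 * (n + 1))) ≤ w := by
      rw [div_div_eq_mul_div, div_one, div_mul_eq_mul_div, div_le_iff₀ hX]
      exact hθ
    have h4 : 1 + 2 * (ρ / X / (1 / (2 * K : ℝ) ^ (2 * (n + 1)))) *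
        (1 + Real.log (L.card + 1)) ≤ (4 * n + 5) * w ^ 2 := by
      have b1 : 0 ≤ Real.log (L.card + 1) :=
        Real.log_nonneg (by linarith [Nat.cast_nonneg (α := ℝ) L.card])
      have b2 : 2 * (ρ / X / (1 / (2 * K : ℝ) ^ (2 * (n + 1)))) * (1 + Real.log (L.card + 1)) ≤
          2 * w * (1 + (2 * n + 1) * w) := by gcongr
      nlinarith
    have h5 := h2.trans (mul_le_mul_of_nonneg_right h4 (Nat.cast_nonneg _))
    refine h1.trans ?_
    rw [← pow_mul, mul_comm (n + 1) 2, mul_assoc]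
    refine mul_le_mul_of_nonneg_left ?_ hV0
    generalize zb F ρ + √ρ = z at hz ⊢
    simp only [← mul_sum, sum_add_distrib, sum_const, nsmul_eq_mul]
    refine mul_le_mul_of_nonneg_left (add_le_add ?_ ?_) (by positivity)
    · rw [mul_assoc]
      exact mul_le_mul_of_nonneg_left h5 hρ0.le
    · rw [← mul_assoc, ← sq]
      gcongr
  have hDH' : (D.card : ℝ) ≤ H := by exact_mod_cast hDH
  have key2 : ∀ a ∈ D, ∑ k ∈ D, ∑ s ∈ range S, mp D (G s) (n + 1) a k ^ 2 ≤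
      V ^ (2 * (n + 1)) * (C * w ^ 4) * (ρ * ((4 * n + 5) * w ^ 2) *
        (C' * H ^ (n + 1) * B ^ (n + 1)) + H * (N ^ 2 * (zb F ρ + √ρ))) := by
    intro a ha
    refine (sum_le_sum fun k _ => key a ha k).trans ?_
    generalize zb F ρ + √ρ = z at hz ⊢
    simp only [← mul_sum, sum_add_distrib, sum_const, nsmul_eq_mul]
    refine mul_le_mul_of_nonneg_left (add_le_add ?_ ?_) (by positivity)
    · refine mul_le_mul_of_nonneg_left ?_ (by positivity)
      have c1 := (fib_Sum D B (n + 1) a).trans ((hA B (n + 1) D a ha).trans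
        (hC K B H D hK hB hBH hDH a ha))
      rw [show 2 * (n + 1) / 2 = n + 1 by omega, show (2 * (n + 1) + 1) / 2 = n + 1 by omega] at c1
      exact_mod_cast c1
    · rw [mul_left_comm]
      exact mul_le_mul_of_nonneg_right hDH' (by positivity)
  rw [sum_comm]
  refine (sum_le_sum fun a ha => (sum_comm.trans_le (key2 a ha))).trans ?_
  rw [sum_const, nsmul_eq_mul]
  refine (mul_le_mul_of_nonneg_right hDH' (by positivity)).trans ?_
  have hw2 : 1 ≤ w ^ 2 := one_le_pow₀ hw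
  set A₁ : ℝ := ρ * H ^ (n + 1 + 1) * B ^ (n + 1) with hA₁
  set A₂ : ℝ := (H : ℝ) ^ (2 * (n + 1)) * B ^ (2 * (n + 1)) * (zb F ρ + √ρ) with hA₂
  have p1 : 0 ≤ A₁ := by positivity
  have p2 : 0 ≤ A₂ := by positivity
  have e1 : (H : ℝ) * (V ^ (2 * (n + 1)) * (C * w ^ 4) * (ρ * ((4 * n + 5) * w ^ 2) *
      (C' * H ^ (n + 1) * B ^ (n + 1)) + H * (N ^ 2 * (zb F ρ + √ρ)))) =
      C * w ^ 4 * V ^ (2 * (n + 1)) * ((4 * n + 5) * C' * w ^ 2 * A₁ + 4 ^ (n + 1) * A₂) := by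
    rw [hA₁, hA₂, hN, show (4 : ℝ) ^ (n + 1) = (2 ^ (n + 1)) ^ 2 by
      rw [← pow_mul, mul_comm, pow_mul]; norm_num]
    ring
  have e2 : C * ((4 * n + 5) * C' + 4 ^ (n + 1)) * w ^ 6 * V ^ (2 * (n + 1)) * (A₁ + A₂) =
      C * w ^ 4 * V ^ (2 * (n + 1)) *
        (((4 * n + 5) * C' + 4 ^ (n + 1)) * w ^ 2 * (A₁ + A₂)) := by ring
  rw [e1, e2]
  refine mul_le_mul_of_nonneg_left ?_ (by positivity)
  have q1 : (0 : ℝ) ≤ (4 * n + 5) * C' * w ^ 2 * A₂ := by positivity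
  have q2 : (0 : ℝ) ≤ 4 ^ (n + 1) * w ^ 2 * A₁ := by positivity
  have q3 : (4 : ℝ) ^ (n + 1) * A₂ ≤ 4 ^ (n + 1) * (w ^ 2 * A₂) :=
    mul_le_mul_of_nonneg_left (le_mul_of_one_le_left p2 hw2) (by positivity)
  nlinarith

end Pool.Agent.MP_c853c5_nt.DS

end

section

set_option autoImplicit false

open Finset Filter Real
open scoped ComplexConjugate

namespace Pool.Agent.MP_c853c5_nt.DS

open Pool.Agent.MP_88bd62_nt.U (ex)

/-- few vertices outside `U`, and the value is integral at the primes outside `U` -/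
def Gd_Tree (D U : Finset ℕ) (j a : ℕ) (q : ℚ) (l : List (ℕ × ℤ)) : Prop :=
  ((l.map Prod.fst).toFinset \ U).card ≤ j ∧ ∀ p ∈ D, p ∉ U → padicNorm p (vl a l - q) ≤ 1

open Classical in
noncomputable def cnt_Tree (D : Finset ℕ) (B n a : ℕ) (U : Finset ℕ) (j : ℕ) (q : ℚ) : ℕ :=
  ∑ l ∈ paths D B n a, if Gd_Tree D U j a q l then 1 else 0

lemma old_Tree {D U : Finset ℕ} {j a k : ℕ} {q : ℚ} {h : ℤ} {m : List (ℕ × ℤ)} (hk : k ∈ U)
    (hg : Gd_Tree D U j a q ((k, h) :: m)) :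
    Gd_Tree D U j k (q - (h : ℚ) / ((a : ℚ) * k)) m := by
  refine ⟨?_, fun p hp hpU => ?_⟩
  · have h1 := hg.1
    rwa [List.map_cons, List.toFinset_cons, insert_sdiff_of_mem _ hk] at h1
  · have h1 := hg.2 p hp hpU
    have e : vl a ((k, h) :: m) - q = vl k m - (q - (h : ℚ) / ((a : ℚ) * k)) := by
      simp only [vl]
      ring
    rwa [e] at h1

lemma card_new_Tree {U : Finset ℕ} {k : ℕ} (V : Finset ℕ) (hk : k ∉ U) :
    (insert k V \ U).card = (V \ insert k U).card + 1 := by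
  have e : insert k V \ U = insert k (V \ insert k U) := by
    ext p
    simp only [mem_sdiff, mem_insert]
    by_cases hp : p = k
    · simp [hp, hk]
    · simp [hp]
  rw [e, card_insert_of_notMem (by simp)]

lemma new_Tree {K : ℕ} {D U : Finset ℕ} (hD : PrK K D) {j a k : ℕ} {q : ℚ} {h : ℤ}
    {m : List (ℕ × ℤ)} (haD : a ∈ D) (ha : a ∈ U) (hkD : k ∈ D) (hk : k ∉ U)
    (hg : Gd_Tree D U j a q ((k, h) :: m)) :
    1 ≤ j ∧ Gd_Tree D (insert k U) (j - 1) k q m := by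
  have h1 := hg.1
  rw [List.map_cons, List.toFinset_cons, card_new_Tree _ hk] at h1
  refine ⟨by omega, by omega, fun p hp hpU => ?_⟩
  rw [mem_insert, not_or] at hpU
  have _ : Fact p.Prime := ⟨(hD p hp).1⟩
  have _ : Fact a.Prime := ⟨(hD a haD).1⟩
  have _ : Fact k.Prime := ⟨(hD k hkD).1⟩
  have hpa : p ≠ a := fun e => hpU.2 (e ▸ ha)
  have h2 := hg.2 p hp hpU.2
  have h3 : padicNorm p ((h : ℚ) / ((a : ℚ) * k)) ≤ 1 := by
    rw [padicNorm.div, padicNorm.mul, padicNorm.padicNorm_of_prime_of_ne hpa,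
      padicNorm.padicNorm_of_prime_of_ne hpU.1, mul_one, div_one]
    exact padicNorm.of_int h
  have e : vl k m - q = (vl a ((k, h) :: m) - q) - (h : ℚ) / ((a : ℚ) * k) := by
    simp only [vl]
    ring
  rw [e]
  exact padicNorm.sub.trans (max_le h2 h3)

lemma uniq_Tree {K B : ℕ} {D U : Finset ℕ} (hD : PrK K D) (hB : 2 * B < K) {j a k : ℕ} {q : ℚ}
    {h h' : ℤ} {m : List (ℕ × ℤ)} (haD : a ∈ D) (ha : a ∈ U) (hkD : k ∈ D) (hk : k ∉ U)
    (hh : h ∈ hs B) (hh' : h' ∈ hs B) (hg : Gd_Tree D U j a q ((k, h) :: m))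
    (hg' : Gd_Tree D U j a q ((k, h') :: m)) : h = h' := by
  have _ : Fact a.Prime := ⟨(hD a haD).1⟩
  have hkp : Fact k.Prime := ⟨(hD k hkD).1⟩
  have hka : k ≠ a := fun e => hk (e ▸ ha)
  have h1 := padicNorm.sub.trans (max_le (hg.2 k hkD hk) (hg'.2 k hkD hk))
  have e : (vl a ((k, h) :: m) - q) - (vl a ((k, h') :: m) - q) =
      ((h - h' : ℤ) : ℚ) / ((a : ℚ) * k) := by
    simp only [vl]
    push_cast
    ring
  have hk1 : (1 : ℚ) < k := by exact_mod_cast hkp.out.one_lt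
  rw [e, padicNorm.div, padicNorm.mul, padicNorm.padicNorm_of_prime_of_ne hka, one_mul,
    padicNorm.padicNorm_p_of_prime, div_le_one (by positivity)] at h1
  have h2 : (k : ℤ) ∣ h - h' :=
    (padicNorm.int_lt_one_iff _).1 (h1.trans_lt (inv_lt_one_of_one_lt₀ hk1))
  have h3 := (mem_hs.1 hh).2
  have h4 := (mem_hs.1 hh').2
  have h5 := (hD k hkD).2.1
  have h6 : |h - h'| < (k : ℤ) := by
    rw [abs_le] at h3 h4
    rw [abs_lt]
    omega
  exact sub_eq_zero.1 (Int.eq_zero_of_abs_lt_dvd h2 h6)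

lemma main_Tree (n : ℕ) : ∀ u : ℕ, ∃ c : ℕ, ∀ (K B H : ℕ) (D : Finset ℕ), PrK K D → 2 * B < K →
    B ≤ H → D.card ≤ H → ∀ (U : Finset ℕ) (a j : ℕ) (q : ℚ), a ∈ D → a ∈ U → U.card ≤ u →
      cnt_Tree D B n a U j q * B ^ j ≤ c * H ^ j * B ^ n := by
  classical
  induction n with
  | zero =>
    intro u
    refine ⟨1, fun K B H D _ _ hBH _ U a j q _ _ _ => ?_⟩
    have h1 : cnt_Tree D B 0 a U j q ≤ 1 := by
      rw [cnt_Tree, paths, sum_singleton]
      split_ifs <;> simp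
    rw [pow_zero, mul_one]
    exact Nat.mul_le_mul h1 (Nat.pow_le_pow_left hBH j)
  | succ n ih =>
    intro u
    obtain ⟨c₁, hc₁⟩ := ih u
    obtain ⟨c₂, hc₂⟩ := ih (u + 1)
    refine ⟨2 * u * c₁ + c₂, fun K B H D hD hB hBH hH U a j q haD ha hU => ?_⟩
    have hold : ∀ k ∈ D, k ∈ U → (∑ h ∈ hs B, ∑ m ∈ paths D B n k,
        if Gd_Tree D U j a q ((k, h) :: m) then 1 else 0) * B ^ j ≤
          2 * B * (c₁ * H ^ j * B ^ n) := by
      intro k hkD hk
      rw [sum_mul, ← card_hs, ← smul_eq_mul]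
      refine sum_le_card_nsmul _ _ _ fun h _ => le_trans (Nat.mul_le_mul_right _ ?_)
        (hc₁ K B H D hD hB hBH hH U k j (q - (h : ℚ) / ((a : ℚ) * k)) hkD hk hU)
      refine sum_le_sum fun m _ => ?_
      by_cases hg : Gd_Tree D U j a q ((k, h) :: m)
      · rw [if_pos hg, if_pos (old_Tree hk hg)]
      · rw [if_neg hg]
        exact Nat.zero_le _
    have hnew : ∀ k ∈ D, k ∉ U → (∑ h ∈ hs B, ∑ m ∈ paths D B n k,
        if Gd_Tree D U j a q ((k, h) :: m) then 1 else 0) * B ^ j ≤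
          if j = 0 then 0 else c₂ * H ^ (j - 1) * B ^ (n + 1) := by
      intro k hkD hk
      by_cases hj : j = 0
      · rw [if_pos hj, sum_eq_zero, zero_mul]
        refine fun h _ => sum_eq_zero fun m _ => if_neg fun hg => ?_
        have := (new_Tree hD haD ha hkD hk hg).1
        omega
      · obtain ⟨i, rfl⟩ := Nat.exists_eq_succ_of_ne_zero hj
        have h1 := hc₂ K B H D hD hB hBH hH (insert k U) k i q hkD (mem_insert_self _ _)
          ((card_insert_le _ _).trans (by omega))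
        have h2 : (∑ h ∈ hs B, ∑ m ∈ paths D B n k,
            if Gd_Tree D U (i + 1) a q ((k, h) :: m) then 1 else 0) ≤
              cnt_Tree D B n k (insert k U) i q := by
          rw [sum_comm]
          refine sum_le_sum fun m _ => ?_
          rw [← card_filter]
          split_ifs with hm
          · refine card_le_one.2 fun h hh h' hh' => ?_
            rw [mem_filter] at hh hh'
            exact uniq_Tree hD hB haD ha hkD hk hh.1 hh'.1 hh.2 hh'.2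
          · rw [Nat.le_zero, card_eq_zero, filter_eq_empty_iff]
            exact fun h _ hg => hm (new_Tree hD haD ha hkD hk hg).2
        rw [if_neg hj, Nat.succ_eq_add_one, Nat.add_sub_cancel, pow_succ, pow_succ, ← mul_assoc,
          ← mul_assoc]
        exact Nat.mul_le_mul_right _ ((Nat.mul_le_mul_right _ h2).trans h1)
    rw [cnt_Tree, sum_paths_succ, sum_mul, ← sum_filter_add_sum_filter_not _ (· ∈ U)]
    have h1 := sum_le_card_nsmul ((D.erase a).filter (· ∈ U)) _ _ fun k hk =>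
      hold k (mem_of_mem_erase (mem_filter.1 hk).1) (mem_filter.1 hk).2
    have h2 := sum_le_card_nsmul ((D.erase a).filter (· ∉ U)) _ _ fun k hk =>
      hnew k (mem_of_mem_erase (mem_filter.1 hk).1) (mem_filter.1 hk).2
    have h3 : ((D.erase a).filter (· ∈ U)).card ≤ u :=
      (card_le_card fun k hk => (mem_filter.1 hk).2).trans hU
    have h4 : ((D.erase a).filter (· ∉ U)).card ≤ H :=
      (card_le_card fun k hk => mem_of_mem_erase (mem_filter.1 hk).1).trans hH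
    rw [smul_eq_mul] at h1 h2
    have h5 : H * (if j = 0 then 0 else c₂ * H ^ (j - 1) * B ^ (n + 1)) ≤
        c₂ * H ^ j * B ^ (n + 1) := by
      split_ifs with hj
      · simp
      · obtain ⟨i, rfl⟩ := Nat.exists_eq_succ_of_ne_zero hj
        rw [Nat.succ_eq_add_one, Nat.add_sub_cancel]
        exact le_of_eq (by ring)
    refine (add_le_add (h1.trans (Nat.mul_le_mul_right _ h3))
      ((h2.trans (Nat.mul_le_mul_right _ h4)).trans h5)).trans (le_of_eq ?_)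
    ring

theorem tree_stmt : TreeStmt := by
  classical
  intro n
  obtain ⟨c, hc⟩ := main_Tree n 1
  refine ⟨c, fun K B H j D hD hB hB1 hBH hH hj a ha => ?_⟩
  have h1 := hc K B H D hD hB hBH hH {a} a j 0 ha (mem_singleton_self _) (by simp)
  have h2 : ((paths D B n a).filter fun l => vl a l = 0 ∧ nw a l ≤ j).card ≤
      cnt_Tree D B n a {a} j 0 := by
    rw [card_filter]
    refine sum_le_sum fun l _ => ?_
    by_cases hl : vl a l = 0 ∧ nw a l ≤ j
    · rw [if_pos hl, if_pos]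
      refine ⟨?_, fun p _ _ => ?_⟩
      · rw [sdiff_singleton_eq_erase]
        exact hl.2
      · rw [hl.1, sub_zero, padicNorm.zero]
        exact zero_le_one
    · rw [if_neg hl]
      exact Nat.zero_le _
  have e : c * H ^ j * B ^ n = c * H ^ j * B ^ (n - j) * B ^ j := by
    rw [mul_assoc _ (B ^ (n - j)), ← pow_add, Nat.sub_add_cancel hj]
  rw [e] at h1
  exact h2.trans (Nat.le_of_mul_le_mul_right h1 (by positivity))

end Pool.Agent.MP_c853c5_nt.DS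

end

section

set_option autoImplicit false

open Finset Filter Real MeasureTheory

namespace Pool.Agent.MP_c853c5_nt.DU

theorem symm_FormU (X : ℝ) (B : ℕ) (y : ℝ) (a b : ℕ) : Gm X B y a b = Gm X B y b a := by
  unfold Gm
  by_cases h : a = b
  · rw [if_pos h, if_pos h.symm]
  · rw [if_neg h, if_neg (Ne.symm h), mul_comm (a : ℝ)]

theorem form_stmt (hO : DU.OpStmt) (hT : TrStmt) (hA : AmStmt) (hR : RepStmt) : FormStmt := by
  intro r hr
  obtain ⟨CT, hCT, hT⟩ := hT r hr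
  obtain ⟨CA, hCA, hA⟩ := hA
  refine ⟨CA + 4 * CA ^ 2 * CT, by positivity, ?_⟩
  intro K P Λ B D X Δ w l α hD hB hX hΔ hΔ' hP hΛ hs hw hXK hlog hl hα
  have hK : 1 ≤ K := by omega
  have hK' : (0 : ℝ) < K := by exact_mod_cast hK
  have hP' : (0 : ℝ) < P := by exact_mod_cast hP
  have hw0 : 0 < w := by linarith
  have hc : (D.card : ℝ) ≤ K := by exact_mod_cast hD.card_le
  obtain ⟨t1, t2⟩ := hT K B D X (4 * K / P) w hD hB hX (by positivity) hw (by
    have e : w * (X * (4 * K / P)) = 4 * (w * (X * K)) / P := by ring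
    rw [e, le_div_iff₀ hP']
    have : 0 < w * (X * K) := by positivity
    linarith) hlog
  have hA' := fun a (ha : a ∈ D) =>
    hA Δ K P Λ a α hΔ hΔ' hK hP hΛ (hD a ha).2.1 (hD a ha).2.2 hs hα
  obtain ⟨r1, r2⟩ := hR X Δ B D (Icc P (Λ * P)) α hX hΔ (fun a ha => (hD a ha).1.pos)
    fun p hp => lt_of_lt_of_le hP (mem_Icc.1 hp).1
  set b : ℝ := CA * Λ * (1 + P * Δ) / (K * Δ) with hb
  set L : ℝ := l ^ (2 * r - 1) with hL
  have hL0 : 0 < L := by positivity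
  have i1 : Integrable fun y => ∑ a ∈ D, Am Δ (Icc P (Λ * P)) α y a ^ 2 :=
    integrable_finsetSum _ fun a ha => (hA' a ha).2.1
  have s1 : ∫ y, ∑ a ∈ D, Am Δ (Icc P (Λ * P)) α y a ^ 2 ≤ CA * Λ ^ 2 * (1 + P * Δ) / Δ := by
    rw [integral_finsetSum _ fun a ha => (hA' a ha).2.1]
    refine (sum_le_card_nsmul _ _ _ fun a ha => (hA' a ha).2.2).trans ?_
    rw [nsmul_eq_mul]
    refine (mul_le_mul_of_nonneg_right hc (by positivity)).trans_eq ?_
    field_simp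
  have s2 : ∀ y, ∑ a ∈ D, Am Δ (Icc P (Λ * P)) α y a ^ 2 ≤
      K * b ^ 2 * Real.exp (-(π * y ^ 2 / (4 * K / P) ^ 2)) := by
    intro y
    have e1 : Real.exp (-(π * y ^ 2 / (4 * K / P) ^ 2)) ≤ 1 :=
      Real.exp_le_one_iff.2 (neg_nonpos.2 (by positivity))
    have e0 := Real.exp_pos (-(π * y ^ 2 / (4 * K / P) ^ 2))
    refine (sum_le_card_nsmul _ _ (b ^ 2 * Real.exp (-(π * y ^ 2 / (4 * K / P) ^ 2)))
      fun a ha => ?_).trans ?_
    · rw [← sq_abs]
      refine (pow_le_pow_left₀ (abs_nonneg _) ((hA' a ha).1 y) 2).trans ?_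
      rw [mul_pow]
      exact mul_le_mul_of_nonneg_left (by nlinarith) (sq_nonneg _)
    · rw [nsmul_eq_mul, mul_assoc]
      exact mul_le_mul_of_nonneg_right hc (by positivity)
  have key : |∫ y, ∑ a ∈ D, ∑ b ∈ D, Am Δ (Icc P (Λ * P)) α y a * Am Δ (Icc P (Λ * P)) α y b *
      Gm X B y a b| ≤ l * (CA * Λ ^ 2 * (1 + P * Δ) / Δ) +
        K * b ^ 2 / L * (CT * w ^ 2 * (4 * K / P) * (K ^ (r + 1) * B ^ r)) := by
    rw [← Real.norm_eq_abs]
    refine (norm_integral_le_of_norm_le ((i1.const_mul l).add (t1.const_mul (K * b ^ 2 / L)))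
      (.of_forall fun y => ?_)).trans ?_
    · rw [Real.norm_eq_abs]
      refine (hO D (Gm X B y) (Am Δ (Icc P (Λ * P)) α y) r l hr hl (symm_FormU X B y)).trans ?_
      have h0 : 0 ≤ (∑ a ∈ D, ∑ k ∈ D, DS.mp D (Gm X B y) r a k ^ 2) / L := by positivity
      have h1 := mul_le_mul_of_nonneg_right (s2 y) h0
      rw [mul_add, Pi.add_apply, mul_comm _ l]
      refine add_le_add le_rfl (h1.trans_eq ?_)
      ring
    · simp only [Pi.add_apply]
      rw [integral_add (i1.const_mul l) (t1.const_mul (K * b ^ 2 / L)), integral_const_mul,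
        integral_const_mul]
      exact add_le_add (mul_le_mul_of_nonneg_left s1 hl.le)
        (mul_le_mul_of_nonneg_left t2 (by positivity))
  rw [r2, abs_mul, abs_of_pos hX]
  refine (mul_le_mul_of_nonneg_left key hX.le).trans ?_
  have e : X * (l * (CA * Λ ^ 2 * (1 + P * Δ) / Δ) +
      K * b ^ 2 / L * (CT * w ^ 2 * (4 * K / P) * (K ^ (r + 1) * B ^ r))) =
      CA * (Λ ^ 2 * X * (l * (1 + P * Δ) / Δ)) + 4 * CA ^ 2 * CT * (Λ ^ 2 * X *
        (w ^ 2 * (1 + P * Δ) ^ 2 * (K ^ (r + 1) * B ^ r) / (P * Δ ^ 2 * L))) := by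
    rw [hb]
    field_simp
  rw [e]
  have p1 : 0 ≤ (Λ : ℝ) ^ 2 * X * (l * (1 + P * Δ) / Δ) := by positivity
  have p2 : 0 ≤ (Λ : ℝ) ^ 2 * X *
      (w ^ 2 * (1 + P * Δ) ^ 2 * (K ^ (r + 1) * B ^ r) / (P * Δ ^ 2 * L)) := by positivity
  have p3 : 0 ≤ 4 * CA ^ 2 * CT := by positivity
  nlinarith [mul_nonneg hCA.le p2, mul_nonneg p3 p1]

end Pool.Agent.MP_c853c5_nt.DU

end

section

set_option autoImplicit false

open Finset Filter Real MeasureTheory

namespace Pool.Agent.MP_c853c5_nt.DU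

lemma gauss_IntU {A : ℝ} (hA : 0 < A) (c ξ : ℝ) :
    (Integrable fun y : ℝ => Real.exp (-(π * A * (y - c) ^ 2)) * Real.cos (2 * π * (ξ * y))) ∧
    ∫ y : ℝ, Real.exp (-(π * A * (y - c) ^ 2)) * Real.cos (2 * π * (ξ * y)) =
      (√A)⁻¹ * Real.exp (-(π * ξ ^ 2 / A)) * Real.cos (2 * π * (ξ * c)) := by
  have hA' : (A : ℂ) ≠ 0 := by exact_mod_cast hA.ne'
  have hπ : (π : ℂ) ≠ 0 := by exact_mod_cast Real.pi_ne_zero
  have hb : (-(π * A) : ℂ).re < 0 := by
    have : 0 < π * A := by positivity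
    simpa using this
  have h1 := integrable_cexp_quadratic' hb (2 * π * A * c + 2 * π * ξ * Complex.I)
    (-(π * A * c ^ 2))
  have h2 := integral_cexp_quadratic hb (2 * π * A * c + 2 * π * ξ * Complex.I)
    (-(π * A * c ^ 2))
  have h3 : ∀ y : ℝ, Real.exp (-(π * A * (y - c) ^ 2)) * Real.cos (2 * π * (ξ * y)) =
      (Complex.exp (-(π * A) * (y : ℂ) ^ 2 + (2 * π * A * c + 2 * π * ξ * Complex.I) * y +
        -(π * A * c ^ 2))).re := fun y => by
    have e : (-(π * A) * (y : ℂ) ^ 2 + (2 * π * A * c + 2 * π * ξ * Complex.I) * y +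
        -(π * A * c ^ 2)) = ((-(π * A * (y - c) ^ 2) : ℝ) : ℂ) +
          ((2 * π * (ξ * y) : ℝ) : ℂ) * Complex.I := by
      push_cast
      ring
    rw [e, Complex.exp_add, ← Complex.ofReal_exp, Complex.re_ofReal_mul,
      Complex.exp_ofReal_mul_I_re]
  have h4 : (π / - -(π * A) : ℂ) ^ (1 / 2 : ℂ) = (((√A)⁻¹ : ℝ) : ℂ) := by
    have e : (π / - -(π * A) : ℂ) = ((A⁻¹ : ℝ) : ℂ) := by
      push_cast
      field_simp
    rw [e, ← Real.sqrt_inv, Real.sqrt_eq_rpow, Complex.ofReal_cpow (inv_pos.2 hA).le]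
    norm_num
  have h5 : (-(π * A * c ^ 2) - (2 * π * A * c + 2 * π * ξ * Complex.I) ^ 2 / (4 * -(π * A)) : ℂ) =
      ((-(π * ξ ^ 2 / A) : ℝ) : ℂ) + ((2 * π * (ξ * c) : ℝ) : ℂ) * Complex.I := by
    push_cast
    field_simp
    linear_combination (4 * (ξ : ℂ) ^ 2) * Complex.I_mul_I
  simp_rw [h3]
  refine ⟨h1.re, ?_⟩
  have h6 := integral_re h1
  simp only [RCLike.re_to_complex] at h6
  rw [h6, h2, h4, h5, Complex.exp_add, ← Complex.ofReal_exp, Complex.re_ofReal_mul,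
    Complex.re_ofReal_mul, Complex.exp_ofReal_mul_I_re, mul_assoc (√A)⁻¹]

theorem int_stmt : IntStmt := by
  intro X Δ a b p q h hX hΔ ha hb hp hq
  have hd := DS.dd_pos (Δ := Δ) (a * q) hΔ (mul_pos hb hp)
  set d := DS.dd Δ Δ (b * p) (a * q) with hdd
  set A := d / (a * b * Δ * Δ) ^ 2 with hAd
  have hA : 0 < A := by positivity
  set c := DS.ct X Δ Δ (b * p) (a * q) * (a * b) / X with hc
  set E := Real.exp (-(π * (b * p - a * q) ^ 2 / d)) with hE
  have hsA : √A = √d / (a * b * Δ * Δ) := by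
    rw [hAd, Real.sqrt_div hd.le, Real.sqrt_sq (by positivity)]
  have hsd : 0 < √d := Real.sqrt_pos.2 hd
  have h1 : ∀ y : ℝ, Z.gg Δ (y * p / a - 1) * Z.gg Δ (y * q / b - 1) *
      Real.cos (2 * π * (h * X * y / (a * b))) = (Δ * Δ)⁻¹ * E *
        (Real.exp (-(π * A * (y - c) ^ 2)) * Real.cos (2 * π * (h * X / (a * b) * y))) := by
    intro y
    rw [← mul_assoc, div_mul_eq_mul_div]
    congr 1
    unfold Z.gg
    rw [hE, mul_assoc ((Δ * Δ)⁻¹), ← Real.exp_add, mul_mul_mul_comm, ← Real.exp_add, mul_inv]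
    congr 2
    rw [hAd, hc, DS.ct, ← hdd]
    field_simp
    rw [hdd, DS.dd]
    ring
  obtain ⟨h2, h3⟩ := gauss_IntU hA c (h * X / (a * b))
  simp_rw [h1]
  refine ⟨h2.const_mul _, ?_⟩
  have e1 : π * (h * X / (a * b)) ^ 2 / A = π * (h : ℝ) ^ 2 * (X * Δ * Δ) ^ 2 / d := by
    rw [hAd]
    field_simp
  have e2 : h * X / (a * b) * c = h * DS.ct X Δ Δ (b * p) (a * q) := by
    rw [hc]
    field_simp
  rw [integral_const_mul, h3, e1, e2, hsA, DS.am, ← hdd, ← hE]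
  field_simp

end Pool.Agent.MP_c853c5_nt.DU

end

section

/-!
The main term.
-/

set_option autoImplicit false

open Finset Filter Real

namespace Pool.Agent.MP_c853c5_nt.DU

open DS

theorem main_stmt (hM : DT.MainStmt) (hL : LongStmt) (hD : DT.DiagStmt) : MainStmt := by
  intro r Λ μ hr hΛ hμ
  have hr0 : (2 : ℝ) ≤ r := by exact_mod_cast hr
  have hΛ' : (1 : ℝ) ≤ Λ := by exact_mod_cast hΛ
  obtain ⟨ν₁, h1, e1⟩ := hM r Λ μ hr hΛ hμ
  obtain ⟨ν₂, h2, e2⟩ := hL r Λ μ hr hΛ hμ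
  obtain ⟨ν, hν, n1, n2, n3⟩ : ∃ ν : ℝ, 0 < ν ∧ ν ≤ ν₁ ∧ 2 * ν ≤ ν₂ ∧ 2 * ν ≤ 1 / 800 :=
    ⟨min ν₁ (min (ν₂ / 2) (1 / 1600)), by positivity, min_le_left _ _,
      by linarith [min_le_right ν₁ (min (ν₂ / 2) (1 / 1600)), min_le_left (ν₂ / 2) (1 / 1600)],
      by linarith [min_le_right ν₁ (min (ν₂ / 2) (1 / 1600)), min_le_right (ν₂ / 2) (1 / 1600)]⟩
  refine ⟨ν, hν, ?_⟩
  filter_upwards [e1, e2, eventually_ge_atTop (1 : ℝ), E.ev_le_log 1, E.ev_const_le 2 hν,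
    E.ev_log_le (72 * (Λ : ℝ) ^ 3) 2 (show (0 : ℝ) < 1 / 800 by norm_num)]
    with x e1 e2 hx hl c1 c2 X Δ Γ K P D b c G hW hP hb hc
  have hx0 : 0 < x := by linarith
  have hΔ : 0 < Δ := (Real.rpow_pos_of_pos hx0 _).trans_le G.d1
  have hX : 0 < X := lt_of_lt_of_le (by linarith) G.x1
  have hK : (0 : ℝ) < K := by exact_mod_cast G.k1
  have hP0 : (0 : ℝ) < P := by exact_mod_cast G.p1
  have up : ∀ {s t : ℝ}, s ≤ t → x ^ s ≤ x ^ t := fun h => Real.rpow_le_rpow_of_exponent_le hx h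
  have hL1 := one_le_Lm X Δ K P
  rcases G.h1 with h | h
  · exact (e1 X Δ Γ K P D b c ⟨G.x1, G.x2, G.d1, G.d2, G.k1, G.p1, h.1, G.h2, G.h3, h.2, G.h5,
      G.h6, G.h7, G.h8, G.h9⟩ hW hP hb hc).trans
      (mul_le_mul_of_nonneg_left (up (neg_le_neg n1)) (by positivity))
  have hα : ∀ u : ℕ × ℕ, |b u.1 * c u.2| ≤ 1 := fun u => by
    rw [abs_mul]
    exact mul_le_one₀ (hb _) (abs_nonneg _) (hc _)
  have a1 := e2 X Δ K P D _ G h hP hα
  have a2 := hD X Δ K P Λ (bb x X Δ Λ K P) (hh x Δ Λ K P) D _ hX hΔ G.k1 G.p1 hP hα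
  have hc1 : 1 ≤ 3 * (Λ : ℝ) * Real.log x := by nlinarith
  have hB : (bb x X Δ Λ K P : ℝ) ≤ 3 * Λ * Real.log x * Lm X Δ K P :=
    (Nat.floor_le (by positivity)).trans
      (mul_le_mul_of_nonneg_left (le_Lm X Δ K P) (by positivity))
  have hE : 1 ≤ (K : ℝ) * P * Δ := by
    by_contra h0
    have b1 : ((K : ℝ) * P * Δ) ^ (r - 1) < 1 :=
      pow_lt_one₀ (by positivity) (not_le.1 h0) (by omega)
    have b2 : 1 ≤ Lm X Δ K P ^ r * x ^ μ :=
      one_le_mul_of_one_le_of_one_le (one_le_pow₀ hL1) (Real.one_le_rpow hx hμ.le)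
    linarith [G.h2]
  have hH : (hh x Δ Λ K P : ℝ) ≤ 2 * (3 * Λ * Real.log x) * (K * P * Δ) := by
    have : (hh x Δ Λ K P : ℝ) ≤ 3 * Λ * Real.log x * (K * P * Δ) + 1 :=
      (Nat.ceil_lt_add_one (by positivity)).le
    nlinarith
  have a3 : 4 * Λ * X * (hh x Δ Λ K P : ℝ) * (bb x X Δ Λ K P : ℝ) / (Δ * K) ≤
      X * (K * P) * x ^ (-(2 * ν)) := by
    have z0 : 0 < x ^ (1 / 800 : ℝ) := by positivity
    have z1 : x ^ (1 / 400 : ℝ) = x ^ (1 / 800 : ℝ) * x ^ (1 / 800 : ℝ) := by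
      rw [← Real.rpow_add hx0]
      norm_num
    have z2 : (x ^ (1 / 800 : ℝ))⁻¹ ≤ x ^ (-(2 * ν)) := by
      rw [← Real.rpow_neg hx0.le]
      exact up (neg_le_neg n3)
    have h5 := G.h5
    rw [z1] at h5
    generalize x ^ (1 / 800 : ℝ) = z at *
    calc _ ≤ 4 * Λ * X * (2 * (3 * Λ * Real.log x) * (K * P * Δ)) *
          (3 * Λ * Real.log x * Lm X Δ K P) / (Δ * K) := by gcongr
      _ = X * P * (72 * Λ ^ 3 * Real.log x ^ 2) * Lm X Δ K P := by
          field_simp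
          ring
      _ ≤ X * P * z * Lm X Δ K P := by gcongr
      _ = X * P * (Lm X Δ K P * (z * z)) * z⁻¹ := by field_simp
      _ ≤ X * P * K * x ^ (-(2 * ν)) := by gcongr
      _ = _ := by ring
  have a4 : X * (K * P) * x ^ (-ν₂) ≤ X * (K * P) * x ^ (-(2 * ν)) :=
    mul_le_mul_of_nonneg_left (up (neg_le_neg n2)) (by positivity)
  have a5 : 2 * x ^ (-(2 * ν)) ≤ x ^ (-ν) := by
    have e : x ^ (-ν) = x ^ ν * x ^ (-(2 * ν)) := by
      rw [← Real.rpow_add hx0]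
      congr 1
      ring
    rw [e]
    exact mul_le_mul_of_nonneg_right c1 (by positivity)
  have a6 := mul_le_mul_of_nonneg_left a5 (show 0 ≤ X * ((K : ℝ) * P) by positivity)
  change |S0 x X Δ Λ K P D b c| ≤ _
  unfold S0
  rw [abs_le] at a1 a2 ⊢
  constructor <;> linarith [a1.1, a1.2, a2.1, a2.2]

end Pool.Agent.MP_c853c5_nt.DU

end

section

set_option autoImplicit false

open Finset Filter Real MeasureTheory

namespace Pool.Agent.MP_c853c5_nt.DU

open Pool.Agent.MP_c853c5_nt.DS (mp pow_Op shift_Op)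

lemma pow_OpU (D : Finset ℕ) {G : ℕ → ℕ → ℝ} (α : ℕ → ℝ) (n : ℕ) (hG : ∀ a b, G a b = G b a) :
    |∑ a ∈ D, ∑ b ∈ D, α a * α b * G a b| ^ (2 * (n + 1)) ≤
      (∑ a ∈ D, α a ^ 2) ^ (2 * (n + 1)) * ∑ a ∈ D, ∑ k ∈ D, mp D G (n + 1) a k ^ 2 := by
  obtain ⟨v, hv⟩ : ∃ v : ℕ → ℕ → ℝ, ∀ m a, v m a = ∑ k ∈ D, mp D G m a k * α k :=
    ⟨_, fun _ _ => rfl⟩
  have v0 : ∀ a ∈ D, v 0 a = α a := fun a ha => by
    simp only [hv, mp, ite_mul, one_mul, zero_mul, sum_ite_eq, if_pos ha]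
  have v1 : ∀ m a, v (m + 1) a = ∑ b ∈ D, G a b * v m b := fun m a => by
    simp only [hv, mp, sum_mul, mul_sum]
    rw [sum_comm]
    exact sum_congr rfl fun b _ => sum_congr rfl fun k _ => mul_assoc _ _ _
  obtain ⟨s, hs⟩ : ∃ s : ℕ → ℝ, ∀ m, s m = ∑ a ∈ D, v m a ^ 2 := ⟨_, fun _ => rfl⟩
  have h0 : ∀ m, 0 ≤ s m := fun m => hs m ▸ sum_nonneg fun _ _ => sq_nonneg _
  have h1 : ∀ m, s (m + 1) ^ 2 ≤ s m * s (m + 2) := fun m => by
    have e : s (m + 1) = ∑ a ∈ D, v m a * v (m + 2) a := by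
      have e1 := shift_Op (D := D) hG (v m) (v (m + 1))
      simp only [← v1] at e1
      rw [← e1, hs]
      exact sum_congr rfl fun a _ => sq _
    rw [e, hs, hs]
    exact sum_mul_sq_le_sq_mul_sq _ _ _
  have e0 : s 0 = ∑ a ∈ D, α a ^ 2 := by
    rw [hs]
    exact sum_congr rfl fun a ha => by rw [v0 a ha]
  have h3 : (∑ a ∈ D, ∑ b ∈ D, α a * α b * G a b) ^ 2 ≤ s 0 * s 1 := by
    have e : ∑ a ∈ D, ∑ b ∈ D, α a * α b * G a b = ∑ a ∈ D, v 0 a * v 1 a :=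
      sum_congr rfl fun a ha => by
        rw [v1 0 a, mul_sum, v0 a ha]
        exact sum_congr rfl fun b hb => by rw [v0 b hb]; ring
    rw [e, hs, hs]
    exact sum_mul_sq_le_sq_mul_sq _ _ _
  have h4 : s (n + 1) ≤ (∑ a ∈ D, ∑ k ∈ D, mp D G (n + 1) a k ^ 2) * s 0 := by
    rw [hs, sum_mul, e0]
    exact sum_le_sum fun a _ => hv _ a ▸ sum_mul_sq_le_sq_mul_sq _ _ _
  generalize ∑ a ∈ D, ∑ k ∈ D, mp D G (n + 1) a k ^ 2 = M at h4
  have h6 := h0 0
  rw [← e0]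
  calc |∑ a ∈ D, ∑ b ∈ D, α a * α b * G a b| ^ (2 * (n + 1))
      = ((∑ a ∈ D, ∑ b ∈ D, α a * α b * G a b) ^ 2) ^ (n + 1) := by rw [pow_mul, sq_abs]
    _ ≤ (s 0 * s 1) ^ (n + 1) := pow_le_pow_left₀ (sq_nonneg _) h3 _
    _ = s 0 ^ (n + 1) * s 1 ^ (n + 1) := mul_pow _ _ _
    _ ≤ s 0 ^ (n + 1) * (s 0 ^ n * (M * s 0)) :=
        mul_le_mul_of_nonneg_left ((pow_Op h0 h1 n).trans
          (mul_le_mul_of_nonneg_left h4 (pow_nonneg h6 n))) (pow_nonneg h6 _)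
    _ = s 0 ^ (2 * (n + 1)) * M := by ring

lemma fin_OpU {t s M l : ℝ} {k : ℕ} (hs : 0 ≤ s) (hM : 0 ≤ M) (hl : 0 < l)
    (h : t ^ (k + 1) ≤ s ^ (k + 1) * M) : t ≤ s * (l + M / l ^ k) := by
  have h1 : 0 ≤ s * (M / l ^ k) := by positivity
  rw [mul_add]
  rcases le_or_gt t (s * l) with a | a
  · linarith
  have h2 : 0 ≤ s * l := by positivity
  have ht : 0 < t := h2.trans_lt a
  rcases hs.eq_or_lt with e | e
  · rw [← e, zero_pow (Nat.succ_ne_zero k), zero_mul] at h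
    exact absurd h (not_le.2 (pow_pos ht _))
  have h3 : s ^ k * (t * l ^ k) ≤ s ^ k * (s * M) :=
    calc s ^ k * (t * l ^ k) = (s * l) ^ k * t := by rw [mul_pow]; ring
      _ ≤ t ^ k * t := mul_le_mul_of_nonneg_right (pow_le_pow_left₀ h2 a.le k) ht.le
      _ = t ^ (k + 1) := (pow_succ t k).symm
      _ ≤ s ^ (k + 1) * M := h
      _ = s ^ k * (s * M) := by ring
  have h4 : t ≤ s * (M / l ^ k) := by
    rw [← mul_div_assoc, le_div_iff₀ (pow_pos hl k)]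
    exact le_of_mul_le_mul_left h3 (pow_pos e k)
  linarith

theorem op_stmt : DU.OpStmt := by
  intro D G α r l hr hl hG
  obtain ⟨n, rfl⟩ : ∃ n, r = n + 1 := ⟨r - 1, by omega⟩
  have h := pow_OpU D α n hG
  have e : 2 * (n + 1) = (2 * (n + 1) - 1) + 1 := by omega
  refine fin_OpU (sum_nonneg fun _ _ => sq_nonneg _)
    (sum_nonneg fun _ _ => sum_nonneg fun _ _ => sq_nonneg _) hl ?_
  rw [← e]
  exact h

end Pool.Agent.MP_c853c5_nt.DU

end

section

/-!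
The quadratic form as an integral.
-/

set_option autoImplicit false

open Finset Filter Real MeasureTheory

namespace Pool.Agent.MP_c853c5_nt.DU

open DS (am ct rb hs)

/-- the integrand of one pair -/
noncomputable def ff_RepU (X Δ : ℝ) (B : ℕ) (u v : ℕ × ℕ) (y : ℝ) : ℝ :=
  if u.1 = v.1 then 0 else ∑ h ∈ hs B, ((u.1 : ℝ) * v.1)⁻¹ *
    (Z.gg Δ (y * u.2 / u.1 - 1) * Z.gg Δ (y * v.2 / v.1 - 1) *
      Real.cos (2 * π * (h * X * y / ((u.1 : ℝ) * v.1))))

theorem pt_RepU (X Δ : ℝ) (B : ℕ) (D R : Finset ℕ) (α : ℕ × ℕ → ℝ) (y : ℝ) :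
    ∑ a ∈ D, ∑ b ∈ D, Am Δ R α y a * Am Δ R α y b * Gm X B y a b =
      ∑ u ∈ D ×ˢ R, ∑ v ∈ D ×ˢ R, α u * α v * ff_RepU X Δ B u v y := by
  simp only [sum_product]
  refine sum_congr rfl fun a _ => ?_
  rw [sum_comm]
  refine sum_congr rfl fun b _ => ?_
  unfold Am
  rw [mul_sum, mul_sum, sum_mul_sum, sum_mul]
  refine sum_congr rfl fun p _ => ?_
  rw [sum_mul]
  refine sum_congr rfl fun q _ => ?_
  unfold Gm ff_RepU
  dsimp only
  split_ifs
  · rw [mul_zero, mul_zero]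
  · rw [mul_sum, mul_sum]
    refine sum_congr rfl fun h _ => ?_
    rw [mul_inv]
    ring

theorem one_RepU (hI : IntStmt) {X Δ : ℝ} (B : ℕ) {u v : ℕ × ℕ} (hX : 0 < X) (hΔ : 0 < Δ)
    (a : 0 < u.1) (b : 0 < v.1) (p : 0 < u.2) (q : 0 < v.2) :
    Integrable (ff_RepU X Δ B u v) ∧ X * ∫ y, ff_RepU X Δ B u v y = G2 X Δ B u v := by
  have k := fun h : ℤ => hI X Δ u.1 v.1 u.2 v.2 h hX hΔ (Nat.cast_pos.2 a) (Nat.cast_pos.2 b)
    (Nat.cast_pos.2 p) (Nat.cast_pos.2 q)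
  unfold ff_RepU G2 rb
  split_ifs
  · simp
  · refine ⟨integrable_finsetSum _ fun h _ => (k h).1.const_mul _, ?_⟩
    rw [integral_finsetSum _ fun h _ => (k h).1.const_mul _, mul_sum]
    refine sum_congr rfl fun h _ => ?_
    rw [integral_const_mul, ← mul_assoc, ← div_eq_mul_inv, (k h).2]

theorem rep_stmt (hI : IntStmt) : RepStmt := by
  intro X Δ B D R α hX hΔ hD hR
  have k := fun u (hu : u ∈ D ×ˢ R) v (hv : v ∈ D ×ˢ R) => one_RepU hI B hX hΔ
    (hD _ (mem_product.1 hu).1) (hD _ (mem_product.1 hv).1) (hR _ (mem_product.1 hu).2)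
    (hR _ (mem_product.1 hv).2)
  have k2 := fun u (hu : u ∈ D ×ˢ R) => integrable_finsetSum (D ×ˢ R) fun v hv =>
    (k u hu v hv).1.const_mul (α u * α v)
  simp only [pt_RepU]
  refine ⟨integrable_finsetSum _ k2, ?_⟩
  rw [integral_finsetSum _ k2, mul_sum]
  refine sum_congr rfl fun u hu => ?_
  rw [integral_finsetSum _ fun v hv => (k u hu v hv).1.const_mul (α u * α v), mul_sum]
  refine sum_congr rfl fun v hv => ?_
  rw [integral_const_mul, ← (k u hu v hv).2]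
  ring

end Pool.Agent.MP_c853c5_nt.DU

end

section

/-!
The mean value of the square of the norm of a power.
-/

set_option autoImplicit false

open Finset Filter Real MeasureTheory
open scoped ComplexConjugate

namespace Pool.Agent.MP_c853c5_nt.DU

open Pool.Agent.MP_88bd62_nt.U (ex)
open DS (mp PrK hs fm wt vl lst paths)

lemma exp_le_TrU (s : ℝ) : Real.exp (-(π * s ^ 2)) ≤ 2 / (1 + |s|) := by
  have h1 := Real.add_one_le_exp (π * s ^ 2)
  have h2 : s ^ 2 ≤ π * s ^ 2 := le_mul_of_one_le_left (sq_nonneg s) (by linarith [pi_gt_three])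
  rw [Real.exp_neg, inv_eq_one_div, div_le_div_iff₀ (Real.exp_pos _) (by positivity)]
  nlinarith [sq_abs s, sq_nonneg (|s| - 1)]

lemma gauss_TrU {Y : ℝ} (hY : 0 < Y) (ξ : ℝ) :
    (Integrable fun y : ℝ => Real.exp (-(π * y ^ 2 / Y ^ 2)) * Real.cos (2 * π * (ξ * y))) ∧
    ∫ y : ℝ, Real.exp (-(π * y ^ 2 / Y ^ 2)) * Real.cos (2 * π * (ξ * y)) ≤
      2 * Y * fm (1 / Y) ξ := by
  have hb : 0 < π / Y ^ 2 := by positivity
  have hb' : 0 < (((π / Y ^ 2 : ℝ) : ℂ)).re := by rwa [Complex.ofReal_re]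
  have e : ∀ y : ℝ, Real.exp (-(π * y ^ 2 / Y ^ 2)) * Real.cos (2 * π * (ξ * y)) =
      RCLike.re (Complex.exp (Complex.I * ((2 * π * ξ : ℝ) : ℂ) * y) *
        Complex.exp (-((π / Y ^ 2 : ℝ) : ℂ) * y ^ 2)) := fun y => by
    rw [show Complex.I * ((2 * π * ξ : ℝ) : ℂ) * y = ((2 * π * (ξ * y) : ℝ) : ℂ) * Complex.I by
        push_cast; ring,
      show -((π / Y ^ 2 : ℝ) : ℂ) * y ^ 2 = ((-(π * y ^ 2 / Y ^ 2) : ℝ) : ℂ) by push_cast; ring,
      ← Complex.ofReal_exp, RCLike.re_to_complex, Complex.re_mul_ofReal,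
      Complex.exp_ofReal_mul_I_re, mul_comm]
  have hi : Integrable fun y : ℝ => Complex.exp (Complex.I * ((2 * π * ξ : ℝ) : ℂ) * y) *
      Complex.exp (-((π / Y ^ 2 : ℝ) : ℂ) * y ^ 2) := by
    refine (integrable_cexp_neg_mul_sq hb').bdd_mul (c := 1) (by fun_prop)
      (Eventually.of_forall fun y => le_of_eq ?_)
    rw [show Complex.I * ((2 * π * ξ : ℝ) : ℂ) * y = ((2 * π * (ξ * y) : ℝ) : ℂ) * Complex.I by
      push_cast; ring, Complex.norm_exp_ofReal_mul_I]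
  simp only [e]
  refine ⟨hi.re, ?_⟩
  rw [integral_re hi, fourierIntegral_gaussian hb']
  have e1 : ((π : ℂ) / ((π / Y ^ 2 : ℝ) : ℂ)) ^ (1 / 2 : ℂ) = (Y : ℂ) := by
    have : ((π : ℂ) / ((π / Y ^ 2 : ℝ) : ℂ)) = ((Y ^ 2 : ℝ) : ℂ) := by
      rw [← Complex.ofReal_div]
      congr 1
      field_simp
    rw [this, show (1 / 2 : ℂ) = ((1 / 2 : ℝ) : ℂ) by push_cast; rfl,
      ← Complex.ofReal_cpow (sq_nonneg Y), ← Real.sqrt_eq_rpow, Real.sqrt_sq hY.le]
  have e2 : -((2 * π * ξ : ℝ) : ℂ) ^ 2 / (4 * ((π / Y ^ 2 : ℝ) : ℂ)) =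
      ((-(π * (Y * ξ) ^ 2) : ℝ) : ℂ) := by
    have : -(π * (Y * ξ) ^ 2) = -(2 * π * ξ) ^ 2 / (4 * (π / Y ^ 2)) := by
      field_simp
      ring
    rw [this]
    push_cast
    rfl
  rw [e1, e2, ← Complex.ofReal_exp, ← Complex.ofReal_mul, RCLike.re_to_complex, Complex.ofReal_re,
    ← DS.fm_mul hY]
  refine (mul_le_mul_of_nonneg_left (exp_le_TrU _) hY.le).trans_eq ?_
  unfold fm
  ring

lemma sq_TrU {ι : Type} (L : Finset ι) (m : ℝ) (v : ι → ℝ) (hm : (m : ℂ) = ∑ l ∈ L, ex (v l)) :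
    m ^ 2 = ∑ l ∈ L, ∑ l' ∈ L, Real.cos (2 * π * (v l - v l')) := by
  have h : ((m ^ 2 : ℝ) : ℂ) = (m : ℂ) * conj (m : ℂ) := by
    rw [Complex.conj_ofReal]
    push_cast
    ring
  rw [← Complex.ofReal_re (m ^ 2), h, hm, map_sum, sum_mul_sum, Complex.re_sum]
  refine sum_congr rfl fun l _ => ?_
  rw [Complex.re_sum]
  refine sum_congr rfl fun l' _ => ?_
  rw [DS.conj_ex, ← DS.ex_add, ← sub_eq_add_neg, ex, Complex.exp_ofReal_mul_I_re]

lemma Gm_TrU (X y : ℝ) (B : ℕ) {a b : ℕ} (hab : a ≠ b) :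
    (Gm X B y a b : ℂ) = ∑ h ∈ hs B, ex (h * X * y / ((a : ℝ) * b)) := by
  have h0 : ∑ h ∈ hs B, Real.sin (2 * π * (h * X * y / ((a : ℝ) * b))) = 0 := by
    refine sum_involution (fun h _ => -h) (fun h _ => ?_) (fun h hh _ => ?_) (fun h hh => ?_)
      fun h _ => neg_neg h
    · rw [Int.cast_neg, neg_mul, neg_mul, neg_div, mul_neg, Real.sin_neg, add_neg_cancel]
    · have := (DS.mem_hs.1 hh).1
      omega
    · rw [DS.mem_hs] at hh ⊢
      exact ⟨neg_ne_zero.2 hh.1, by rw [abs_neg]; exact hh.2⟩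
  simp only [DS.ex_eq]
  rw [sum_add_distrib, ← sum_mul, ← Complex.ofReal_sum, ← Complex.ofReal_sum, h0, Gm, if_neg hab,
    Complex.ofReal_zero, zero_mul, add_zero]

lemma wt_TrU (X y : ℝ) (a : ℕ) (l : List (ℕ × ℤ)) :
    wt (fun a b h => ex (h * X * y / ((a : ℝ) * b))) a l = ex (X * (vl a l : ℝ) * y) := by
  induction l generalizing a with
  | nil => simp [wt, vl, DS.ex_zero]
  | cons e l ih =>
    have h : X * (vl a (e :: l) : ℝ) * y =
        e.2 * X * y / (a * e.1) + X * (vl e.1 l : ℝ) * y := by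
      simp only [vl]
      push_cast
      ring
    rw [h, DS.ex_add]
    simp only [wt, ih]

lemma sum_TrU {ι : Type} (s : Finset ι) (f : ι → ℝ → ℝ) (c : ι → ℝ) (E : ℝ → ℝ)
    (h : ∀ i ∈ s, (Integrable fun y => E y * f i y) ∧ ∫ y, E y * f i y ≤ c i) :
    (Integrable fun y => E y * ∑ i ∈ s, f i y) ∧ ∫ y, E y * ∑ i ∈ s, f i y ≤ ∑ i ∈ s, c i := by
  simp only [mul_sum]
  refine ⟨integrable_finsetSum s fun i hi => (h i hi).1, ?_⟩
  rw [integral_finsetSum s fun i hi => (h i hi).1]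
  exact sum_le_sum fun i hi => (h i hi).2

theorem tr_stmt : TrStmt := by
  intro r hr
  obtain ⟨n, rfl⟩ : ∃ n, r = n + 1 := ⟨r - 1, by omega⟩
  obtain ⟨C', hC⟩ := DS.cyc_stmt DS.tree_stmt DS.rec_stmt (2 * (n + 1))
  refine ⟨2 * (4 * n + 5) * (C' + 1), by positivity, ?_⟩
  intro K B D X Y w hK hB hX hY hw hθ hlog
  have hBK : B ≤ K := by
    have : 1 * B ≤ 4 ^ (2 * (n + 1) + 1) * B :=
      Nat.mul_le_mul_right _ (Nat.one_le_pow _ _ (by norm_num))
    omega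
  have hDK := hK.card_le
  have hK0 : (0 : ℝ) < K := by
    have : 0 < K := by omega
    exact_mod_cast this
  have hw0 : 0 < w := by linarith
  have key : ∀ a ∈ D, ∀ k ∈ D, (Integrable fun y : ℝ => Real.exp (-(π * y ^ 2 / Y ^ 2)) *
      mp D (Gm X B y) (n + 1) a k ^ 2) ∧
      ∫ y : ℝ, Real.exp (-(π * y ^ 2 / Y ^ 2)) * mp D (Gm X B y) (n + 1) a k ^ 2 ≤
      2 * Y * ((4 * n + 5) * w ^ 2) *
        ((((((paths D B (n + 1) a).filter fun l => lst a l = k) ×ˢ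
          ((paths D B (n + 1) a).filter fun l => lst a l = k)).filter
            fun p => vl a p.1 = vl a p.2).card : ℕ) : ℝ) := by
    intro a ha k _
    set L := (paths D B (n + 1) a).filter fun l => lst a l = k with hL
    obtain ⟨-, d2, -⟩ := DS.sep_stmt K B (n + 1) D hK a ha
    have d3 := (DS.sep_stmt K B n D hK a ha).2.2 k
    rw [← hL] at d3
    have hlc : Real.log (L.card + 1) ≤ (2 * n + 1) * w :=
      DS.log_card_Sum (d3.trans (by gcongr)) hlog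
    have e : ∀ y : ℝ, mp D (Gm X B y) (n + 1) a k ^ 2 = ∑ l ∈ L, ∑ l' ∈ L,
        Real.cos (2 * π * (X * ((vl a l : ℝ) - vl a l') * y)) := fun y => by
      rw [sq_TrU L _ (fun l => X * (vl a l : ℝ) * y) (by
        rw [DS.path_stmt D B (Gm X B y) _ (fun a _ => if_pos rfl)
          (fun a _ b _ hab => Gm_TrU X y B hab) (n + 1) a ha k]
        exact sum_congr rfl fun l _ => wt_TrU X y a l)]
      simp only [mul_sub, sub_mul]
    simp only [e]
    obtain ⟨h0, h1⟩ := sum_TrU L _ _ (fun y => Real.exp (-(π * y ^ 2 / Y ^ 2))) fun l _ =>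
      sum_TrU L _ _ (fun y => Real.exp (-(π * y ^ 2 / Y ^ 2))) fun l' _ =>
        gauss_TrU hY (X * ((vl a l : ℝ) - vl a l'))
    refine ⟨h0, h1.trans ?_⟩
    have h2 := DS.schur_stmt _ L (vl a) (1 / Y / X) (1 / (2 * K : ℝ) ^ (2 * (n + 1)))
      (by positivity) (by positivity) (fun l hl l' hl' hne => d2 l (mem_filter.1 hl).1 l'
        (mem_filter.1 hl').1 (by omega) ((mem_filter.1 hl).2.trans (mem_filter.1 hl').2.symm) hne)
    have h3 : 1 / Y / X / (1 / (2 * K : ℝ) ^ (2 * (n + 1))) ≤ w := by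
      rw [div_div_eq_mul_div, div_one, div_div, div_mul_eq_mul_div, div_le_iff₀ (by positivity),
        one_mul, mul_comm Y X]
      exact hθ
    have h4 : 1 + 2 * (1 / Y / X / (1 / (2 * K : ℝ) ^ (2 * (n + 1)))) *
        (1 + Real.log (L.card + 1)) ≤ (4 * n + 5) * w ^ 2 := by
      have b1 : 0 ≤ Real.log (L.card + 1) :=
        Real.log_nonneg (by linarith [Nat.cast_nonneg (α := ℝ) L.card])
      have b2 : 2 * (1 / Y / X / (1 / (2 * K : ℝ) ^ (2 * (n + 1)))) *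
          (1 + Real.log (L.card + 1)) ≤ 2 * w * (1 + (2 * n + 1) * w) := by gcongr
      nlinarith
    have h5 := h2.trans (mul_le_mul_of_nonneg_right h4 (Nat.cast_nonneg _))
    simp only [DS.fm_mul hX, ← mul_sum]
    rw [mul_assoc (2 * Y)]
    exact mul_le_mul_of_nonneg_left h5 (by positivity)
  obtain ⟨h0, h1⟩ := sum_TrU D _ _ (fun y => Real.exp (-(π * y ^ 2 / Y ^ 2))) fun a ha =>
    sum_TrU D _ _ (fun y => Real.exp (-(π * y ^ 2 / Y ^ 2))) (key a ha)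
  refine ⟨h0, h1.trans ?_⟩
  have hDK' : (D.card : ℝ) ≤ K := by exact_mod_cast hDK
  refine (sum_le_sum (g := fun _ => 2 * Y * ((4 * n + 5) * w ^ 2) *
    (C' * K ^ (n + 1) * B ^ (n + 1))) fun a ha => ?_).trans ?_
  · rw [← mul_sum]
    refine mul_le_mul_of_nonneg_left ?_ (by positivity)
    have c1 := (DS.fib_Sum D B (n + 1) a).trans ((DS.pair_stmt B (n + 1) D a ha).trans
      (hC K B K D hK hB hBK hDK a ha))
    rw [show 2 * (n + 1) / 2 = n + 1 by omega, show (2 * (n + 1) + 1) / 2 = n + 1 by omega] at c1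
    exact_mod_cast c1
  · rw [sum_const, nsmul_eq_mul]
    refine (mul_le_mul_of_nonneg_right hDK' (by positivity)).trans ?_
    have e : (K : ℝ) * (2 * Y * ((4 * n + 5) * w ^ 2) * (C' * K ^ (n + 1) * B ^ (n + 1))) =
        2 * (4 * n + 5) * C' * w ^ 2 * Y * (K ^ (n + 1 + 1) * B ^ (n + 1)) := by ring
    rw [e]
    gcongr
    linarith

end Pool.Agent.MP_c853c5_nt.DU

end
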