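import Pool.Agent.Mg.C853.G186451
import Pool.Agent.Mg.C853.G266d34
import Pool.Agent.Mg.C853.Gb2cc72
import Pool.Agent.MP_c853c5_nt.X.GtD
import Pool.Agent.Mg.C853.G915c67

section

/-!
The grid rule with fractions of cells and a table of tails.
-/

set_option autoImplicit false

open Finset

namespace Pool.Agent.MP_c853c5_nt.X

open Pool.Agent.MP_c853c5_nt.S Pool.Agent.MP_c853c5_nt.REG Pool.Agent.MP_c853c5_nt.L Ln

variable {S : NS} {A : ℕ → Finset ℕ} {t R : ℝ} {x : Ga} {w : ℕ → ℝ} {g : Gr} {r W C : ℕ}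

/-- the part of the cell above a hyperplane, for any bound of the tail -/
theorem GBs.row2 (h : GBs g S A r W C R) (c : ℕ) {u v x : ℕ → ℝ} (hu : ∀ j, 0 ≤ u j)
    (hv : ∀ j, 0 ≤ v j) (huv : ∀ j, v j = 0 ∨ u j = 0) {κ δ φ : ℝ}
    (hx : ∀ j, x j = (v (j + 1) + u (j + 1)) * (get g.h (j + 1) / SC)) (φ0 : 0 ≤ φ)
    (ht : ∀ l : List ℝ, (∀ y ∈ l, 0 ≤ y) → l.sum = ∑ j ∈ range r, x j →
      (∀ y, y ∈ l ↔ ∃ j < r, v (j + 1) + u (j + 1) ≠ 0 ∧ y = x j) → vb l δ ≤ l.prod * φ)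
    (hδ : u 0 * S.H 0 - v 0 * S.L 0 + ∑ j ∈ range r, (u (j + 1) * fH g S c (j + 1) -
      v (j + 1) * fL g S c (j + 1)) - κ ≤ δ) :
    MQ S (fun y => Reg S A (fL g S c) (fH g S c) y ∧ κ ≤ ∑ j ∈ range S.k, (u j - v j) * Y A y j)
      (R * cw g S W C r c * (∏ j ∈ range r, fj g S W C (j + 1)) * φ) := by
  have sp0 : ∀ j, 0 ≤ sp g S W C c j := fun j => by
    have := VV_pos
    unfold sp
    positivity
  have K0 : 0 ≤ R * ∏ j ∈ range r, sp g S W C c (j + 1) :=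
    mul_nonneg h.hR (prod_nonneg fun _ _ => sp0 _)
  have := (subN_and S A fun y => κ ≤ ∑ j ∈ range S.k, (u j - v j) * Y A y j).multi
    (L := fL g S c) (H := fH g S c) (s := fun _ => 0) (p := fun _ => 0) (fun _ => le_rfl)
    (fun _ => le_rfl) hv hu huv r _ (u 0 * S.H 0 - v 0 * S.L 0 - κ) [] (fun j _ _ => fL_le c j) K0
    (by simp) fun lo hi hb => ?_
  · refine this.mono ?_
    have e1 := rowD_sum (L := fL g S c) (H := fH g S c) (u := v) (v := u) id rfl r []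
    have e3 := rowD_prod (L := fL g S c) (H := fH g S c) (u := v) (v := u) r []
    have e4 := rowD_mem (L := fL g S c) (H := fH g S c) (u := v) (v := u) r []
    simp only [fH_sub, ← hx, List.map_nil, List.sum_nil, add_zero, List.map_id, id, List.prod_nil,
      mul_one, List.not_mem_nil, false_or] at e1 e3 e4
    have hD : ∀ y ∈ rowD (fL g S c) (fH g S c) v u r [], 0 ≤ y := fun y hy => by
      obtain ⟨j, _, _, rfl⟩ := (e4 y).1 hy
      exact (hx j).symm ▸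
        mul_nonneg (add_nonneg (hv _) (hu _)) (div_nonneg (Nat.cast_nonneg _) SC_pos.le)
    have f0 : 0 ≤ ∏ j ∈ range r, fac (fL g S c) (fH g S c) (fun _ => 0) (fun _ => 0) v u (j + 1) :=
      prod_nonneg fun j _ => by
        have := sub_nonneg.2 (fL_le (g := g) (S := S) c (j + 1))
        have := hu (j + 1)
        have := hv (j + 1)
        unfold fac gw
        split_ifs <;> positivity
    refine (mul_le_mul_of_nonneg_left ((dif_mono _ hD (le_trans (le_of_eq ?_) hδ)).trans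
      (ht _ hD e1 e4)) (mul_nonneg K0 f0)).trans ?_
    · simp only [sum_sub_distrib]
      ring
    rw [← mul_assoc, mul_assoc _ _ (List.prod _), e3, mul_assoc R, mul_assoc R (cw g S W C r c),
      cw, ← prod_mul_distrib, ← prod_mul_distrib]
    refine mul_le_mul_of_nonneg_right (mul_le_mul_of_nonneg_left (prod_le_prod
      (fun j _ => mul_nonneg (sp0 _) (div_nonneg (Nat.cast_nonneg _) SC_pos.le)) fun j _ => ?_)
      h.hR) φ0
    rw [mul_comm, mul_comm _ (fj g S W C _)]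
    exact sp_le c _
  simp only [dif, List.length_nil, tp, gw, zero_mul, neg_zero, sub_zero, Real.exp_zero, mul_one]
  split_ifs with q
  · rw [mul_one, mul_assoc, ← prod_mul_distrib]
    refine (h.box (b := fun j => sp g S W C c j * (hi j - lo j))
      (fun j g1 g2 => ⟨(L_le_fL c j).trans (hb.1 j g1 g2).1, (hb.1 j g1 g2).2.1⟩)
      fun j g1 g2 => ?_).anti fun _ ha => ha.1
    obtain ⟨g3, g4, g5⟩ := hb.1 j g1 g2
    rcases le_or_gt (S.H j) (lo j) with e | e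
    · rw [min_eq_right e, min_eq_right (e.trans g4), sub_self, zero_mul, zero_div]
      exact mul_nonneg (sp0 _) (sub_nonneg.2 g4)
    have k := fun y => node_sup (W := W) (C := C) h.hI h.hg g1 (by have := h.hr; omega)
      (Nat.cast_lt.1 ((div_lt_div_iff_of_pos_right SC_pos).1
        (((L_le_fL c j).trans g3).trans_lt e))) c (y := y)
    have k1 := k _ g3 (g4.trans g5) e.le
    have k2 := k _ (g3.trans (le_min g4 e.le)) ((min_le_left _ _).trans g5) (min_le_right _ _)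
    rw [min_eq_left e.le]
    linear_combination 1 / 2 * mul_le_mul_of_nonneg_left (add_le_add k1 k2)
      (sub_nonneg.2 (le_min g4 e.le)) + mul_le_mul_of_nonneg_left (min_le_left (hi j) (S.H j)) (sp0 j)
  rw [mul_zero]
  refine MQ.zero fun y ⟨g1, g2⟩ => q ?_
  rw [h.hr, sum_range_succ'] at g2
  obtain ⟨g3, g4⟩ := g1.1.1.1 0 h.hI.pos
  have g5 : ∑ j ∈ range r, (v (j + 1) * lo (j + 1) - u (j + 1) * hi (j + 1)) ≤
      -∑ j ∈ range r, (u (j + 1) - v (j + 1)) * Y A y (j + 1) := by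
    rw [← sum_neg_distrib]
    refine sum_le_sum fun j hj => ?_
    obtain ⟨g6, g7⟩ := g1.2 (j + 1) (by omega) (by have := h.hr; have := mem_range.1 hj; omega)
    linear_combination mul_le_mul_of_nonneg_left g6 (hv _) + mul_le_mul_of_nonneg_left g7 (hu _)
  rw [NS.H, NS.L]
  linear_combination g2 + g5 + mul_le_mul_of_nonneg_left g3 (hv 0) +
    mul_le_mul_of_nonneg_left g4 (hu 0)

/-! ### the table -/

def tA (i : ℕ) : ℕ := tbA >>> (128 * i + 44) % 16384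
def tB (i : ℕ) : ℕ := tbA >>> (128 * i + 84) % 16384
def tK (i : ℕ) : ℕ := tbZ >>> (128 * i) % 64

lemma tab_ok : ∀ i < 65, tabOK i (tA i) (tB i) (tK i) := by decide +kernel

lemma tb_eq : tbA = pw 128 (fun i => tA i * 2 ^ 44 + tB i * 2 ^ 84) 65 ∧ tbZ = pw 128 tK 65 := by
  decide +kernel

/-- the fields of an entry -/
lemma zT_get {z i s b : ℕ} (hz : z < 2 ^ 26) (hi : i < 65) (h : s + b ≤ 128) :
    (z * tbA + tbZ) >>> (i <<< 7) >>> s % 2 ^ b =
      (tK i + z * tA i * 2 ^ 44 + z * tB i * 2 ^ 84) >>> s % 2 ^ b := by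
  have k : ∀ a, a < 16384 → z * a < 2 ^ 40 := fun a ha =>
    (Nat.mul_lt_mul'' hz ha).trans_eq (by norm_num)
  rw [tb_eq.1, mul_comm, pw_mul, tb_eq.2, pw_add, ← Nat.shiftRight_add, Nat.shiftLeft_eq,
    mul_comm i]
  refine (pw_get (w := 128) (fun r _ => ?_) hi h).trans (by congr 2; ring)
  have h1 := k (tA r) (Nat.mod_lt _ (by norm_num))
  have h2 := k (tB r) (Nat.mod_lt _ (by norm_num))
  have h3 : tK r < 64 := Nat.mod_lt _ (by norm_num)
  rw [add_mul, mul_right_comm, mul_right_comm (tB r), mul_comm (tA r), mul_comm (tB r)]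
  omega

/-- the bound of the tail for the sum `s` and the maximum `m` of the widths -/
noncomputable def tl (s m : ℕ) (δ : ℝ) : ℝ :=
  tA (64 * m / s) / s * max δ 0 + tB (64 * m / s) / s * max (δ - tK (64 * m / s) * s / 128) 0

structure GX2 (x : Ga) (S : NS) (A : ℕ → Finset ℕ) (w : ℕ → ℝ) : Prop where
  gx : GX x S A w
  w0 : ∀ c, 0 ≤ w c
  hN : ∀ j < S.k, ∀ c, cx x.g.bs j c ≤ x.N
  row : ∀ (c : ℕ) (u v : ℕ → ℕ) (κ δ : ℝ) (s m : ℕ), (∀ j, v j = 0 ∨ u j = 0) →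
    s = ∑ j ∈ range S.k, (v j + u j) * get x.g.h j → 0 < s →
    (∃ j < S.k, m = (v j + u j) * get x.g.h j) → (∀ j < S.k, (v j + u j) * get x.g.h j ≤ m) →
    ∑ j ∈ range S.k, ((u j : ℝ) * get x.g.up j - v j * get S.lo j +
      (u j - v j) * (get x.g.h j * cx x.g.bs j c)) - κ ≤ δ →
    MQ S (fun y => Reg S A (fL x.g S c) (fH x.g S c) y ∧
      κ / SC ≤ ∑ j ∈ range S.k, ((u j : ℝ) - v j) * Y A y j) (x.Z / 2 ^ 30 * tl s m δ * w c)

lemma GBs.row3 (h : GBs g S A r W C R) {Z : ℕ}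
    (hZ : 2 ^ 36 * ∏ j ∈ range r, fj g S W C (j + 1) ≤ Z) (c : ℕ) (u v : ℕ → ℕ) (κ δ : ℝ) (s m : ℕ)
    (huv : ∀ j, v j = 0 ∨ u j = 0) (hs : s = ∑ j ∈ range S.k, (v j + u j) * get g.h j) (s0 : 0 < s)
    (h1 : ∃ j < S.k, m = (v j + u j) * get g.h j) (h2 : ∀ j < S.k, (v j + u j) * get g.h j ≤ m)
    (hδ : ∑ j ∈ range S.k, ((u j : ℝ) * get g.up j - v j * get S.lo j +
      (u j - v j) * (get g.h j * cx g.bs j c)) - κ ≤ δ) :
    MQ S (fun y => Reg S A (fL g S c) (fH g S c) y ∧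
      κ / SC ≤ ∑ j ∈ range S.k, ((u j : ℝ) - v j) * Y A y j)
      (Z / 2 ^ 30 * tl s m δ * (R * cw g S W C r c / 2 ^ 16)) := by
  have hg := h.hg
  have S0 := SC_pos
  have s1 : (0 : ℝ) < s := Nat.cast_pos.2 s0
  have hx : ∀ j, ((v j : ℝ) + u j) * (get g.h j / SC) = ((v j + u j) * get g.h j : ℕ) / SC :=
    fun j => by push_cast; ring
  have t0 : 0 ≤ tl s m δ := by unfold tl; positivity
  obtain ⟨j, j1, j2⟩ := h1
  have m1 : m ≤ s := hs ▸ j2 ▸ single_le_sum (f := fun j => (v j + u j) * get g.h j)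
    (fun _ _ => Nat.zero_le _) (mem_range.2 j1)
  have m0 : m ≠ 0 := fun e => s0.ne' (hs.trans (sum_eq_zero fun i hi =>
    Nat.le_zero.1 (e ▸ h2 i (mem_range.1 hi))))
  rw [h.hr, sum_range_succ', hg.h0, mul_zero, add_zero] at hs
  refine (h.row2 c (u := fun j => u j) (v := fun j => v j) (fun _ => Nat.cast_nonneg _)
    (fun _ => Nat.cast_nonneg _) (by simpa using huv) (δ := δ / SC) (φ := tl s m δ / 1024)
    (fun _ => rfl) (by positivity) (fun l l0 l1 l2 => ?_) ?_).mono ?_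
  · simp only [hx] at l1 l2
    rw [← sum_div, ← Nat.cast_sum, ← hs] at l1
    have i1 : ((64 * m / s : ℕ) : ℝ) * s ≤ 64 * m := by exact_mod_cast Nat.div_mul_le_self _ _
    have i2 : (64 : ℝ) * m ≤ ((64 * m / s : ℕ) + 1) * s := by
      exact_mod_cast ((Nat.div_lt_iff_lt_mul s0).1 (Nat.lt_succ_self _)).le
    refine (vb_tab (tab_ok (64 * m / s) ((Nat.div_lt_iff_lt_mul s0).2 (by omega))) l0
      (W := m / SC) ((l2 _).2 ?_) (fun y hy => ?_) (l1 ▸ by positivity) ?_ ?_ _).trans_eq ?_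
    · obtain _ | j := j
      · exact absurd (by rw [j2, hg.h0, mul_zero]) m0
      refine ⟨j, by have := h.hr; omega, fun e => m0 ?_, by rw [j2]⟩
      rw [j2, show v (j + 1) + u (j + 1) = 0 by exact_mod_cast e, zero_mul]
    · obtain ⟨i, i3, -, rfl⟩ := (l2 y).1 hy
      exact div_le_div_of_nonneg_right (Nat.cast_le.2 (h2 _ (by have := h.hr; omega))) S0.le
    · rw [l1, ← mul_div_assoc, ← mul_div_assoc]
      exact div_le_div_of_nonneg_right i1 S0.le
    · rw [l1, ← mul_div_assoc, ← mul_div_assoc]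
      exact div_le_div_of_nonneg_right i2 S0.le
    · have k : ∀ y : ℝ, max (y / SC) 0 = max y 0 / SC := fun y => by
        rw [← max_div_div_right S0.le, zero_div]
      rw [l1, tl, show δ / SC - tK (64 * m / s) * (s / SC) / 128 =
        (δ - tK (64 * m / s) * s / 128) / SC by ring, k, k]
      field_simp
  · rw [h.hr, sum_range_succ', hg.h0, hg.up0, sum_congr (g := fun j => ((u (j + 1) : ℝ) *
      fH g S c (j + 1) - v (j + 1) * fL g S c (j + 1)) * SC) rfl fun j hj => by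
        rw [hg.up _ (by omega) (by have := h.hr; have := mem_range.1 hj; omega), fH, fL]
        push_cast
        field_simp
        ring, ← sum_mul] at hδ
    rw [le_div_iff₀ S0, NS.H, NS.L]
    refine le_trans (le_of_eq ?_) hδ
    push_cast
    field_simp
    ring
  · have := mul_le_mul_of_nonneg_left hZ (mul_nonneg (mul_nonneg h.hR
      (cw_nn (g := g) (S := S) (W := W) (C := C) (r := r) c)) t0)
    linear_combination this / 2 ^ 46

/-! ### the rule -/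

def AOK2 (t : ℝ) (p : AItem) : Prop := ∀ (x : Ga) (ih : Rec) (S : NS) (A : ℕ → Finset ℕ)
  (w : ℕ → ℝ) (s : ℕ) (K : ℕ → ℕ → ℕ), (∀ sg S s, Val t sg S (ih sg S s)) → GX2 x S A w →
  p x ih S s K < INF → ∃ (N : Pt → Prop) (ν : ℕ → ℕ) (u l : ℕ),
    p x ih S s K = l + K (pk (2 ^ x.g.B) ν) u ∧ (∀ (Ω : Pt → Prop) (l' : ℝ),
      (∀ a, Ω a → Om S A a) → H true t S.k S.kind (fun a => Ω a ∧ N a) l' →
      H true t S.k S.kind Ω ((l : ℝ) / 10 ^ 9 + l')) ∧ ∀ c < 2 ^ x.g.B, ν c < 2 ^ 31 ∧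
      MQ S (fun a => (Reg S A (fL x.g S c) (fH x.g S c) a ∧ idx x.g S (Y A a) = c) ∧ N a)
        (ν c * w c)

theorem AOK.two {p : AItem} (h : AOK t p) : AOK2 t p :=
  fun x ih S A w s K hH hx => h x ih S A w s K hH hx.gx

lemma gaLoop_ok2 {IT : BT AItem} (hT : IT.All (AOK2 t)) {ih : Rec}
    (hH : ∀ sg S s, Val t sg S (ih sg S s)) (h : GX2 x S A w) {fin : ℕ → ℕ}
    (hf : ∀ ν : ℕ → ℕ, (∀ c < 2 ^ x.g.B, ν c ≤ 65536) → fin (pk (2 ^ x.g.B) ν) < INF →
      ∑ c ∈ range (2 ^ x.g.B), ν c * w c ≤ (fin (pk (2 ^ x.g.B) ν) : ℝ) / 10 ^ 9) (n : ℕ) :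
    ∀ (ν : ℕ → ℕ) (N : Pt → Prop) (s : ℕ), (∀ c < 2 ^ x.g.B, ν c ≤ 65536 ∧ MQ S
      (fun a => (Reg S A (fL x.g S c) (fH x.g S c) a ∧ idx x.g S (Y A a) = c) ∧ N a) (ν c * w c)) →
      gaLoop IT x ih S fin n (pk (2 ^ x.g.B) ν) s < INF →
      H true t S.k S.kind (fun a => Om S A a ∧ N a)
        ((gaLoop IT x ih S fin n (pk (2 ^ x.g.B) ν) s : ℝ) / 10 ^ 9) := by
  have hg := h.gx.hg
  induction n with
  | zero =>
    exact fun ν N s h1 hl => drop0 (((MQ.sum _ fun c hc => (h1 c hc).2).anti fun a ha =>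
      ⟨_, (idx_ok hg ha.1.1.1).1, ⟨⟨⟨ha.1.1, ha.2⟩, (idx_ok hg ha.1.1.1).2⟩, rfl⟩, ha.1.2⟩).mono
      (hf ν (fun c hc => (h1 c hc).1) hl))
  | succ n IH =>
    intro ν N s h1 hl
    have e : gaLoop IT x ih S fin (n + 1) (pk (2 ^ x.g.B) ν) s = IT.find (Nat.mod s 16) x ih S
        (Nat.shiftRight s 4) fun a u =>
          gaLoop IT x ih S fin n (mnL x.g.T (pk (2 ^ x.g.B) ν) a) u := by
      simp only [gaLoop, force_eq]
    rw [e] at hl ⊢
    obtain ⟨N', ν', u, l, e1, h2, h3⟩ := hT.find _ x ih S A w _ _ hH h hl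
    rw [e1, mnL_eq hg (fun c hc => (h1 c hc).1.trans_lt (by norm_num))
      fun c hc => (h3 c hc).1] at hl ⊢
    rw [Nat.cast_add, add_div]
    refine h2 _ _ (fun _ ha => ha.1) ((IH _ (fun a => N a ∧ N' a) u (fun c hc =>
      ⟨(min_le_left _ _).trans (h1 c hc).1, ?_⟩) (lt_of_le_of_lt le_add_self hl)).anti
      fun a ha => ⟨ha.1.1, ha.1.2, ha.2⟩)
    rcases min_choice (ν c) (ν' c) with q | q <;> rw [q]
    exacts [(h1 c hc).2.anti fun a ha => ⟨ha.1, ha.2.1⟩, (h3 c hc).2.anti fun a ha => ⟨ha.1, ha.2.2⟩]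

theorem gaR_ok2 {IT : BT AItem} (hT : IT.All (AOK2 t)) : XTok t (gaR IT) :=
  fun _ ih _ hH sg S s hl A hI => by
  obtain ⟨r, hr⟩ : ∃ r, S.k = r + 1 := ⟨S.k - 1, by have := hI.pos; omega⟩
  by_cases hz : ∀ j < S.k, get S.lo j ≤ get S.hi j
  swap
  · simp only [not_forall, not_le] at hz
    obtain ⟨j, hj, hz⟩ := hz
    exact fun Q h1 h2 => (xEmpty sg t _ _ Q h1 fun a ha => ⟨absurd (((h2 a ha).1.1 j hj).1.trans
      ((h2 a ha).1.1 j hj).2) (div_lt_div_of_pos_right (Nat.cast_lt.2 hz) SC_pos).not_ge,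
      (h2 a ha).2⟩).mono (by positivity)
  simp only [gaR, force_eq, show Nat.pred S.k = r by rw [hr]; rfl] at hl ⊢
  obtain ⟨rfl, e1⟩ := grd_lt hl
  rw [e1] at hl ⊢
  obtain ⟨g, hg, e2⟩ := mk_ok S _ _ hI.pos hl
  rw [e2, accB_eq] at hl ⊢
  have hb := gb_mk hI hg hr hz rfl
  generalize mkW S (chV S r) S.k = W at *
  generalize ∑ i ∈ range S.k, 1 * 256 ^ (blk S W i % 32) = C at *
  have o1 : off g.bs 1 = 0 := hg.b0
  obtain ⟨Z, N, e3, g1, g2, g3, g4⟩ := gaU_ok hg W C r 1 68719476736 1 _ le_rfl (by omega)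
  rw [o1] at e3
  rw [e3] at hl ⊢
  have e4 : Nat.shiftRight g.T 15 = pk (2 ^ g.B) fun _ => 65536 := by
    rw [Nat.shiftRight_eq, Nat.shiftRight_eq_div_pow, hg.hT]
    refine Nat.div_eq_of_eq_mul_right (Nat.two_pow_pos _) ?_
    rw [pk_smul]
    rfl
  rw [e4] at hl ⊢
  rw [prod_div_distrib, prod_const, card_range, ← Nat.cast_prod] at hb
  have hf : ∀ c, MQ S (Reg S A (fL g S c) (fH g S c)) ((65536 : ℕ) *
      ((∏ i ∈ range S.k, blk S W i >>> 5 : ℕ) / VV ^ S.k * cw g S W C r c / 2 ^ 16)) := fun c =>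
    (hb.full c).mono (le_of_eq (by push_cast; ring))
  have hZ : 2 ^ 36 * ∏ j ∈ range r, fj g S W C (j + 1) ≤ Z := by
    simp only [add_comm 1] at g1
    exact le_trans (le_of_eq (by norm_num)) g1
  have hN : ∀ j < S.k, ∀ c, cx g.bs j c ≤ N := fun j hj c => (cx_lt _ _ _).le.trans (by
    cases j with
    | zero => rwa [hg.b0]
    | succ j => exact add_comm 1 j ▸ g4 j (by omega))
  refine (gaLoop_ok2 (x := ⟨g, Z, N, _⟩) hT hH ⟨⟨hI, hg, hf, ?_, fun ρ hρ P Q md e p q K => ?_⟩,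
    fun c => div_nonneg (mul_nonneg hb.hR (cw_nn c)) (by norm_num), hN, hb.row3 hZ⟩
    (fun ν h1 h2 => gaF_ok hg hr (Nat.mod_lt _ (by norm_num)) h1 h2) _ _ (fun _ => True) _
    (fun c _ => ⟨le_rfl, (hf c).anti fun a ha => ha.1.1⟩) hl).anti fun a ha => ⟨ha, trivial⟩
  · show _ = (List.range S.k).map (nrO g S)
    rw [hr, List.range_eq_range', List.range'_succ, List.map_cons, nrO, hg.h0, hg.up0,
      pk_congr (g := fun _ => 0) fun c _ => by rw [cx, hg.b0, pow_zero, Nat.mod_one], pk_zero]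
  · obtain ⟨v, b, e5, h1⟩ := rowA hb (Z := Z) (by omega) hZ g3 hN hρ P Q md e (p + 1) q K
    refine ⟨v, b, e5, List.forall_mem_singleton.2 ((Lip.sum _ fun j hj =>
      (lip_Y hI (mem_range.1 hj)).mul _).sub (Lip.const _ _)), fun hb => ?_⟩
    obtain ⟨ν, e6, h2⟩ := h1 hb
    refine ⟨ν, e6, fun c hc => ⟨(h2 c hc).1, (h2 c hc).2.anti fun a ha => ⟨ha.1, ?_⟩⟩⟩
    obtain ⟨f, f1, f2⟩ := ha.2
    rw [List.mem_singleton.1 f1, fN] at f2
    push_cast
    linear_combination f2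

theorem gaT_ok {IT : BT AItem} (hT : IT.All (AOK2 t)) : XTok t (gaW IT) := gaW_ok (gaR_ok2 hT)

/-! ### lanes on a small grid -/

/-- the excess of the lanes over `2 ^ 31` -/
lemma clq {n : ℕ} {E : ℕ → ℕ} (h : ∀ c < n, E c < 2 ^ 32) :
    pk n E &&& ((pk n E &&& pk n fun _ => 2 ^ 31) - (pk n E &&& pk n fun _ => 2 ^ 31) >>> 31) =
      pk n fun c => E c - 2 ^ 31 := by
  have e : (pk n E &&& pk n fun _ => 2 ^ 31) = 2 ^ 31 * pk n fun c => E c / 2 ^ 31 := by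
    rw [pk_smul]
    refine (pw_land (w := 32) (by norm_num) h fun _ _ => by norm_num).trans (pk_congr fun c hc => ?_)
    have := h c hc
    rw [Nat.and_two_pow, Nat.testBit_eq_decide_div_mod_eq]
    by_cases q : E c / 2 ^ 31 % 2 = 1 <;> simp only [q, decide_true, decide_false, Bool.toNat_true,
      Bool.toNat_false] <;> omega
  rw [e, Nat.shiftRight_eq_div_pow, Nat.mul_div_cancel_left _ (Nat.two_pow_pos _), pk_smul,
    pk_sub fun c _ => by omega]
  refine (pw_land (w := 32) (by norm_num) h fun c hc => by have := h c hc; omega).trans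
    (pk_congr fun c hc => ?_)
  have := h c hc
  rcases le_or_gt (2 ^ 31) (E c) with q | q
  · rw [show 2 ^ 31 * (E c / 2 ^ 31) - E c / 2 ^ 31 = 2 ^ 31 - 1 by omega,
      Nat.and_two_pow_sub_one_eq_mod]
    omega
  · rw [show 2 ^ 31 * (E c / 2 ^ 31) - E c / 2 ^ 31 = 0 by omega, Nat.and_zero]
    omega

lemma cv_eq {n τ : ℕ} (hτ : τ ≤ 30) {ν : ℕ → ℕ} (h : ∀ c < n, ν c < 2 ^ 31) :
    cv1' τ (Nat.mul (gM τ) (pk n fun _ => 1)) (pk n ν) =
      pk n fun c => (ν c + (2 ^ τ - 1)) / 2 ^ τ := by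
  have p : 2 ^ τ ≤ 2 ^ 30 := Nat.pow_le_pow_right two_pos hτ
  have e : Nat.mul (gM τ) (pk n fun _ => 1) = pk n fun _ => 2 ^ τ - 1 := by
    rw [Nat.mul_eq, pk_smul, gM, one_eq]
    simp only [mul_one, Nat.sub_eq]
  rw [e]
  show (pk n ν + pk n _ - ((pk n ν + pk n _) &&& pk n _)) >>> τ = _
  rw [pk_add, show pk n (fun c => ν c + (2 ^ τ - 1)) &&& pk n (fun _ => 2 ^ τ - 1) = pk n
    fun c => (ν c + (2 ^ τ - 1)) % 2 ^ τ from (pw_land (w := 32) (by norm_num)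
      (fun c hc => by have := h c hc; omega) fun _ _ => by omega).trans (pk_congr fun c _ =>
      Nat.and_two_pow_sub_one_eq_mod _ _), pk_sub fun c _ => Nat.mod_le _ _,
    Nat.shiftRight_eq_div_pow]
  refine Nat.div_eq_of_eq_mul_right (Nat.two_pow_pos _) ?_
  rw [pk_smul]
  exact pk_congr fun c _ => Nat.sub_eq_of_eq_add (Nat.div_add_mod _ _).symm

/-- lanes on `n` cells; the cell `c` of the grid lies over the cell `l c` -/
def LB (g : Gr) (S : NS) (A : ℕ → Finset ℕ) (w : ℕ → ℝ) (n : ℕ) (l : ℕ → ℕ) (F : List (Pt → ℝ))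
    (v b : ℕ) : Prop :=
  (∀ f ∈ F, Lip S.k f) ∧ (b < 2 ^ 31 → ∃ ν : ℕ → ℕ, v = pk n ν ∧ (∀ c < n, ν c ≤ b) ∧
    ∀ c < 2 ^ g.B, MQ S (fun a => Reg S A (fL g S c) (fH g S c) a ∧ ∃ f ∈ F, -(1 / SC) ≤ f a)
      (ν (l c) * w c))

section

variable {n : ℕ} {l : ℕ → ℕ} {F : List (Pt → ℝ)} {v b : ℕ}

lemma LB.nil : LB g S A w n l [] 0 0 := ⟨by simp, fun _ => ⟨fun _ => 0, (pk_zero _).symm,
  fun _ _ => le_rfl, fun c _ => (MQ.zero (by simp)).mono (by simp)⟩⟩

lemma LB.cons {f : Pt → ℝ} {u d e : ℕ} (h : LB g S A w n l [f] v b) (h' : LB g S A w n l F u d)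
    (he : b + d ≤ e) : LB g S A w n l (f :: F) (v + u) e := by
  refine ⟨List.forall_mem_cons.2 ⟨h.1 f (by simp), h'.1⟩, fun c => ?_⟩
  obtain ⟨ν, rfl, h1, h2⟩ := h.2 (by omega)
  obtain ⟨ν', rfl, h3, h4⟩ := h'.2 (by omega)
  refine ⟨_, pk_add _ _ _, fun c hc => (add_le_add (h1 c hc) (h3 c hc)).trans he, fun c hc => ?_⟩
  rw [Nat.cast_add, add_mul]
  refine ((h2 c hc).or (h4 c hc)).anti fun a ha => ?_
  rw [List.exists_mem_cons_iff, and_or_left] at ha
  exact ha.imp_left fun q => ⟨q.1, f, List.mem_cons_self, q.2⟩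

lemma LB.la {τ : ℕ} {E : ℕ → ℕ} (h : LB g S A (fun c => w c / 2 ^ τ) n l F v b) (hb : b < 2 ^ 31)
    (hτ : τ ≤ 30) (w0 : ∀ c, 0 ≤ w c) (hl : ∀ c < 2 ^ g.B, l c < n)
    (hE : ∀ f : ℕ → ℕ, (∀ c < n, f c < 2 ^ 31) → E (pk n f) = pk (2 ^ g.B) fun c => f (l c)) :
    LA g S A w F (E (cv1' τ (Nat.mul (gM τ) (pk n fun _ => 1)) v)) b := by
  obtain ⟨ν, rfl, h1, h2⟩ := h.2 hb
  have p := Nat.two_pow_pos τ
  have k : ∀ c, (ν c + (2 ^ τ - 1)) / 2 ^ τ ≤ ν c := fun c => Nat.le_of_lt_succ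
    ((Nat.div_lt_iff_lt_mul p).2 (by have := Nat.le_mul_of_pos_right (ν c) p; rw [Nat.succ_mul]; omega))
  rw [cv_eq hτ fun c hc => (h1 c hc).trans_lt hb, hE _ fun c hc => ((k c).trans (h1 c hc)).trans_lt hb]
  refine ⟨h.1, fun _ => ⟨_, rfl, fun c hc => ⟨(k _).trans (h1 _ (hl c hc)), (h2 c hc).mono ?_⟩⟩⟩
  rw [mul_div_assoc', mul_div_right_comm]
  refine mul_le_mul_of_nonneg_right ((div_le_iff₀ (by positivity)).2 ?_) (w0 c)
  have := Nat.div_add_mod (ν (l c) + (2 ^ τ - 1)) (2 ^ τ)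
  have := Nat.mod_lt (ν (l c) + (2 ^ τ - 1)) p
  exact_mod_cast (show ν (l c) ≤ (ν (l c) + (2 ^ τ - 1)) / 2 ^ τ * 2 ^ τ by rw [mul_comm]; omega)

end

/-- the lanes of a row dominate the tail -/
lemma tl_le {τ s m a b y y' : ℕ} {μ δ : ℝ} (hτ : τ ≤ 30) (s0 : 0 < s) (μ0 : 0 ≤ μ)
    (ha : (zX x τ * tA (64 * m / s) : ℕ) ≤ a * μ * s) (hb : (zX x τ * tB (64 * m / s) : ℕ) ≤ b * μ * s)
    (h1 : μ * δ ≤ y) (h2 : μ * (δ - tK (64 * m / s) * s / 128) ≤ y') {c : ℝ} (c0 : 0 ≤ c) :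
    x.Z / 2 ^ 30 * tl s m δ * c ≤ (a * y + b * y' : ℕ) * (c / 2 ^ τ) := by
  have s1 : (0 : ℝ) < s := Nat.cast_pos.2 s0
  have hz : (x.Z : ℝ) / 2 ^ 30 ≤ zX x τ / 2 ^ τ := by
    have : x.Z ≤ zX x τ * 2 ^ (30 - τ) :=
      ((Nat.div_lt_iff_lt_mul (Nat.two_pow_pos _)).1 (Nat.lt_succ_of_le
        (Nat.shiftRight_eq_div_pow _ _).ge)).le
    rw [div_le_div_iff₀ (by positivity) (by positivity), show (2 : ℝ) ^ 30 = 2 ^ (30 - τ) * 2 ^ τ by
      rw [← pow_add, Nat.sub_add_cancel hτ], ← mul_assoc]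
    exact mul_le_mul_of_nonneg_right (by exact_mod_cast this) (by positivity)
  have k : ∀ (T a y : ℕ) (δ : ℝ), (zX x τ * T : ℕ) ≤ a * μ * s → μ * δ ≤ y →
      zX x τ * (T / s * max δ 0) ≤ a * y := fun T a y δ h1 h2 => by
    rw [← mul_assoc, ← mul_div_assoc, ← Nat.cast_mul]
    refine (mul_le_mul_of_nonneg_right ((div_le_iff₀ s1).2 h1) (le_max_right _ _)).trans ?_
    rw [mul_assoc, mul_max_of_nonneg _ _ μ0, mul_zero]
    exact mul_le_mul_of_nonneg_left (max_le h2 (Nat.cast_nonneg _)) (Nat.cast_nonneg _)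
  rw [mul_div_assoc', mul_div_right_comm]
  refine mul_le_mul_of_nonneg_right ((mul_le_mul_of_nonneg_right hz
    (by unfold tl; positivity)).trans ?_) c0
  rw [div_mul_eq_mul_div, tl, mul_add, Nat.cast_add, Nat.cast_mul, Nat.cast_mul]
  exact div_le_div_of_nonneg_right (add_le_add (k _ _ _ _ ha h1) (k _ _ _ _ hb h2)) (by positivity)

end Pool.Agent.MP_c853c5_nt.X

end

section

/-!
The rows of a provider with the table of tails.
-/

set_option autoImplicit false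

open Finset

namespace Pool.Agent.MP_c853c5_nt.X

open Pool.Agent.MP_c853c5_nt.S Pool.Agent.MP_c853c5_nt.REG Pool.Agent.MP_c853c5_nt.L Ln

variable {S : NS} {A : ℕ → Finset ℕ} {t : ℝ} {x : Ga} {w : ℕ → ℝ}

lemma gz_lt {v y : ℕ} (h : gz v y < INF) : v = 0 ∧ gz v y = y := by
  cases v with
  | zero => exact ⟨rfl, rfl⟩
  | succ v => exact absurd h (lt_irrefl _)

lemma mod_eq (a b : ℕ) : Nat.mod a b = a % b := rfl

lemma div_eq (a b : ℕ) : Nat.div a b = a / b := rfl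

/-- the maximum of the widths -/
def mxL (P Q md : ℕ) (l : List Nr) (m : ℕ) : ℕ := l.foldl (fun m r => max m (gaX P Q md r)) m

lemma gaN_max (P Q md e : ℕ) (K : KN) (l : List Nr) : ∀ sx m e2 p q F,
    gaN P Q md e K l sx m e2 p q F =
      gaN P Q md e (fun sx _ => K sx (mxL P Q md l m)) l sx m e2 p q F := by
  induction l with
  | nil => exact fun _ _ _ _ _ _ => rfl
  | cons r l ih =>
    intro sx m e2 p q F
    have e1 : gaX P Q md r + (m - gaX P Q md r) = max m (gaX P Q md r) := by omega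
    have e2 : mxL P Q md (r :: l) m = mxL P Q md l (max m (gaX P Q md r)) := rfl
    rw [gaN_cons, gaN_cons, e1, e2]
    split_ifs with c1 c2
    · rw [show gaX P Q md r = 0 by rw [gaX, c1, c2, add_zero, zero_mul], Nat.max_zero]
      exact ih ..
    · exact ih ..
    · exact ih ..

lemma mxL_ok (P Q md : ℕ) (l : List Nr) : ∀ m, m ≤ mxL P Q md l m ∧
    (∀ r ∈ l, gaX P Q md r ≤ mxL P Q md l m) ∧
    (mxL P Q md l m = m ∨ ∃ r ∈ l, mxL P Q md l m = gaX P Q md r) := by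
  induction l with
  | nil => exact fun m => ⟨le_rfl, by simp, Or.inl rfl⟩
  | cons r l ih =>
    intro m
    obtain ⟨h1, h2, h3⟩ := ih (max m (gaX P Q md r))
    rw [show mxL P Q md (r :: l) m = mxL P Q md l (max m (gaX P Q md r)) from rfl]
    simp only [List.mem_cons, forall_eq_or_imp, exists_eq_or_imp]
    exact ⟨(le_max_left _ _).trans h1, ⟨(le_max_right _ _).trans h1, h2⟩, h3.elim (fun c =>
      (max_choice m _).imp c.trans fun d => Or.inl (c.trans d)) fun c => Or.inr (Or.inr c)⟩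

lemma zT_ok {τ i e : ℕ} (hz : zX x τ < 2 ^ 26) (hi : i < 65) (he : e = zT x τ >>> (i <<< 7)) :
    e % 64 = tK i ∧ e >>> 58 % 67108864 = zX x τ * tA i / 16384 ∧
      e >>> 98 % 67108864 = zX x τ * tB i / 16384 ∧ e >>> 44 % 2 ^ 40 = zX x τ * tA i ∧
      e >>> 84 % 2 ^ 40 = zX x τ * tB i := by
  have k : ∀ a, a < 16384 → zX x τ * a < 2 ^ 40 := fun a ha =>
    (Nat.mul_lt_mul'' hz ha).trans_eq (by norm_num)
  have h1 := k (tA i) (Nat.mod_lt _ (by norm_num))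
  have h2 := k (tB i) (Nat.mod_lt _ (by norm_num))
  have h3 : tK i < 64 := Nat.mod_lt _ (by norm_num)
  have g := fun s b h => zT_get (s := s) (b := b) hz hi h
  rw [show (zX x τ * tbA + tbZ) >>> (i <<< 7) = e from he.symm] at g
  generalize zX x τ * tA i = a at *
  generalize zX x τ * tB i = b at *
  have g1 : (tK i + a * 2 ^ 44 + b * 2 ^ 84) >>> 44 = a + b * 2 ^ 40 := by
    rw [Nat.shiftRight_eq_div_pow]
    omega
  have g2 : (tK i + a * 2 ^ 44 + b * 2 ^ 84) >>> 84 = b := by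
    rw [Nat.shiftRight_eq_div_pow]
    omega
  refine ⟨(g 0 6 (by norm_num)).trans ?_, (g 58 26 (by norm_num)).trans ?_,
    (g 98 26 (by norm_num)).trans ?_, (g 44 40 (by norm_num)).trans ?_,
    (g 84 40 (by norm_num)).trans ?_⟩
  · rw [Nat.shiftRight_zero]
    omega
  · rw [Nat.shiftRight_add _ 44 14, g1, Nat.shiftRight_eq_div_pow]
    omega
  · rw [Nat.shiftRight_add _ 84 14, g2, Nat.shiftRight_eq_div_pow]
    omega
  · omega
  · omega

theorem rowTG (h : GX2 x S A w) {τ : ℕ} (hτ : τ ≤ 30) (P Q md p0 q0 : ℕ) (K : ℕ → ℕ → ℕ) :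
    ∃ v b, gaN P Q md 0 (tGE x.g.T x.g.O (zT x τ) x.N K) x.R 0 0 0 (p0 + 1) q0 (fun _ V => V) =
      K v b ∧ (zX x τ < 2 ^ 26 → LB x.g S A (fun c => w c / 2 ^ τ) (2 ^ x.g.B) id
        [fN S A (nrO x.g S) P Q md 0 p0 q0] v b) := by
  have hg := h.gx.hg
  have hI := h.gx.hI
  obtain ⟨-, m1, m2⟩ := mxL_ok P Q md x.R 0
  rw [gaN_max]
  generalize mxL P Q md x.R 0 = m at *
  rw [h.gx.hR] at m1 m2 ⊢
  obtain ⟨_, F, h1, -, h3⟩ := gaN_eq (P := P) (Q := Q) (md := md) (ρ := nrO x.g S) 0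
    (fun sx _ => tGE x.g.T x.g.O (zT x τ) x.N K sx m) (List.range S.k)
    (fun _ _ => rfl) 0 0 0 (p0 + 1) q0 (fun _ V => V) (fun _ _ => 0) (fun _ _ => 0) fun _ _ _ => rfl
  simp only [lsum_range, zero_add, List.mem_range, List.mem_map, forall_exists_index, and_imp,
    forall_apply_eq_imp_iff₂, exists_exists_and_eq_and, add_zero, mul_zero] at h1 h3 m1 m2
  rw [h1]
  refine ⟨_, _, rfl, fun hz => ⟨List.forall_mem_singleton.2 ((Lip.sum _ fun j hj =>
    (lip_Y hI (mem_range.1 hj)).mul _).sub (Lip.const _ _)), fun hb => ?_⟩⟩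
  set ρ := nrO x.g S
  set sx := ∑ j ∈ range S.k, gaX P Q md (ρ j) with hsx
  set p := p0 + 1 + ∑ j ∈ range S.k, dP P Q md (ρ j) * (ρ j).up with hp
  set q := q0 + ∑ j ∈ range S.k, dN P Q md (ρ j) * (ρ j).lo with hq
  have m3 : ∃ j < S.k, m = gaX P Q md (ρ j) :=
    m2.elim (fun c => ⟨0, hI.pos, by have := m1 0 hI.pos; omega⟩) id
  have m4 : m ≤ sx := by
    obtain ⟨j, j1, rfl⟩ := m3
    exact single_le_sum (f := fun j => gaX P Q md (ρ j)) (fun _ _ => Nat.zero_le _) (mem_range.2 j1)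
  simp only [Nat.add_eq, Nat.mul_eq, Nat.sub_eq, Nat.shiftRight_eq, Nat.shiftLeft_eq', Nat.land_eq,
    Nat.succ_eq_add_one, mod_eq, div_eq] at hb ⊢
  have s1 : 0 < sx := by
    rw [Nat.shiftLeft_eq (1 - sx)] at hb
    omega
  rw [Nat.shiftLeft_eq m, mul_comm m, show 2 ^ 6 = 64 from rfl] at hb ⊢
  obtain ⟨t1, t2, t3, -⟩ := zT_ok (i := 64 * m / sx) hz ((Nat.div_lt_iff_lt_mul s1).2 (by omega)) rfl
  rw [t2, t3] at hb ⊢
  rw [t1]
  have μ1 : 17179869184 ≤ (17179869184 / sx + 1) * sx :=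
    ((Nat.div_lt_iff_lt_mul s1).1 (Nat.lt_succ_self _)).le
  generalize 17179869184 / sx + 1 = μ at *
  generalize ha : ((p - q) * μ) >>> 20 + 1 = a at hb ⊢
  generalize hb' : ((q - p) * μ) >>> 20 = b at hb ⊢
  have b2 : ∑ j ∈ range S.k, (gaP P Q md μ (ρ j) + gaM P Q md μ (ρ j)) ≤ (μ * sx) >>> 20 + 16 := by
    refine le_trans (sum_le_sum (g := fun j => gaX P Q md (ρ j) * μ / 2 ^ 20 + 1) fun j _ => ?_) ?_
    · unfold gaP gaM
      rw [Nat.shiftRight_eq_div_pow]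
      split_ifs <;> omega
    rw [sum_add_distrib, sum_const, card_range, smul_eq_mul, mul_one, Nat.shiftRight_eq_div_pow]
    refine add_le_add ((Nat.le_div_iff_mul_le (by norm_num)).2 ?_) hI.le
    rw [hsx, mul_sum, sum_mul]
    exact sum_le_sum fun j _ => (Nat.div_mul_le_self _ _).trans_eq (mul_comm _ _)
  have b3 : ∀ c, ∑ j ∈ range S.k, gaP P Q md μ (ρ j) * cx x.g.bs j c +
      ∑ j ∈ range S.k, gaM P Q md μ (ρ j) * cx x.g.bs j c ≤ x.N * ((μ * sx) >>> 20 + 16) :=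
    fun c => by
      refine le_trans ?_ (Nat.mul_le_mul_left x.N b2)
      rw [← sum_add_distrib, mul_sum]
      refine sum_le_sum fun j hj => ?_
      rw [← add_mul, mul_comm]
      exact Nat.mul_le_mul_right _ (h.hN j (mem_range.1 hj) c)
  generalize x.N * ((μ * sx) >>> 20 + 16) = M at *
  have k0 : tK (64 * m / sx) < 64 := Nat.mod_lt _ (by norm_num)
  have α1 : zX x τ * tA (64 * m / sx) ≤ (zX x τ * tA (64 * m / sx) / 16384 + 1) * 16384 := by omega
  have β1 : zX x τ * tB (64 * m / sx) ≤ (zX x τ * tB (64 * m / sx) / 16384 + 1) * 16384 := by omega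
  have b1 : a + M - b < 2 ^ 31 := lt_of_le_of_lt ((Nat.le_mul_of_pos_left _ (Nat.succ_pos _)).trans
    (Nat.le_add_right _ _)) hb
  generalize zX x τ * tA (64 * m / sx) / 16384 + 1 = α at *
  generalize zX x τ * tB (64 * m / sx) / 16384 + 1 = β at *
  rw [hg.hO, hg.hT, pk_smul, h3 μ _ fun c _ => by have := b3 c; omega, Nat.shiftLeft_eq, pk_smul,
    pk_sub fun c _ => by have := b3 c; omega, clq fun c _ => by have := b3 c; omega,
    clq fun c _ => by have := b3 c; omega, pk_smul, pk_smul, pk_add]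
  refine ⟨_, rfl, fun c _ => ?_, fun c _ => ?_⟩
  · have := b3 c
    refine le_trans ?_ (Nat.le_add_right _ _)
    rw [add_mul]
    exact add_le_add (Nat.mul_le_mul_left _ (by omega)) (Nat.mul_le_mul_left _ (by omega))
  set δ : ℝ := p - q + ∑ j ∈ range S.k, ((dP P Q md (ρ j) : ℝ) - dN P Q md (ρ j)) *
    ((ρ j).h * cx x.g.bs j c) with hδ
  refine ((h.row c (fun j => dP P Q md (ρ j)) (fun j => dN P Q md (ρ j)) (q0 - p0 - 1) δ sx m
    (fun j => by unfold dP dN; omega) hsx s1 m3 m1 (le_of_eq ?_)).anti fun a ha => ⟨ha.1, ?_⟩).mono ?_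
  · rw [hδ, hp, hq, sum_add_distrib, sum_sub_distrib]
    push_cast
    simp only [ρ, nrO]
    ring
  · obtain ⟨f, f1, f2⟩ := ha.2
    rw [List.mem_singleton.1 f1, fN] at f2
    push_cast at f2
    linear_combination f2
  have k : μ / 2 ^ 20 * δ ≤ (a : ℝ) - b + (∑ j ∈ range S.k, gaP P Q md μ (ρ j) * cx x.g.bs j c : ℕ) -
      (∑ j ∈ range S.k, gaM P Q md μ (ρ j) * cx x.g.bs j c : ℕ) := by
    have g1 := (shr_le ((p - q) * μ)).2
    have g2 := (shr_le ((q - p) * μ)).1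
    rw [ha, Nat.cast_mul] at g1
    rw [hb', Nat.cast_mul] at g2
    rw [hδ, mul_add, mul_sum, add_sub_assoc, Nat.cast_sum, Nat.cast_sum, ← sum_sub_distrib]
    refine add_le_add (by rw [← (sub_cast p q).1]; linear_combination g1 + g2)
      (sum_le_sum fun j _ => ?_)
    have g4 := shr_le (gaX P Q md (ρ j) * μ)
    have g5 : (0 : ℝ) ≤ cx x.g.bs j c := Nat.cast_nonneg _
    unfold gaP gaM
    split_ifs with c1
    · have := mul_le_mul_of_nonneg_right g4.1 g5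
      rw [Nat.cast_mul _ μ, gaX] at this
      rw [Nat.cast_mul, Nat.cast_mul, gaX]
      simp only [c1, Nat.cast_mul, Nat.cast_add, Nat.cast_zero] at this ⊢
      linear_combination this
    · have c2 : dN P Q md (ρ j) = 0 := by
        unfold dP dN at *
        omega
      have := mul_le_mul_of_nonneg_right g4.2 g5
      rw [Nat.cast_mul _ μ, gaX] at this
      rw [Nat.cast_mul, Nat.cast_mul, gaX]
      simp only [c2, Nat.cast_mul, Nat.cast_add, Nat.cast_zero] at this ⊢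
      linear_combination this
  have b4 := b3 c
  have μ2 : (2 : ℝ) ^ 14 ≤ μ / 2 ^ 20 * sx := by
    have : (17179869184 : ℝ) ≤ μ * sx := by exact_mod_cast μ1
    linear_combination this / 2 ^ 20
  have k3 : ∀ y z : ℕ, y ≤ z * 16384 → (y : ℝ) ≤ z * (μ / 2 ^ 20) * sx := fun y z hy => by
    have : (y : ℝ) ≤ z * 16384 := by exact_mod_cast hy
    linear_combination this + mul_le_mul_of_nonneg_left μ2 (Nat.cast_nonneg z)
  refine tl_le hτ s1 (by positivity) (k3 _ _ α1) (k3 _ _ β1) (k.trans ?_) ?_ (h.w0 c)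
  all_goals
    simp only [id, mul_one]
    generalize ∑ j ∈ range S.k, gaP P Q md μ (ρ j) * cx x.g.bs j c = X at *
    generalize ∑ j ∈ range S.k, gaM P Q md μ (ρ j) * cx x.g.bs j c = X' at *
    generalize tK (64 * m / sx) = z at *
  · have : (a : ℤ) - b + X - X' ≤ (2147483648 + a - b + X - X' - 2 ^ 31 : ℕ) := by omega
    exact_mod_cast this
  · have : (a : ℤ) - b + X - X' - z * 128 ≤
      (2147483648 + a - b + X - X' - z * 2 ^ 7 - 2 ^ 31 : ℕ) := by omega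
    have : (a : ℝ) - b + X - X' - z * 128 ≤
      (2147483648 + a - b + X - X' - z * 2 ^ 7 - 2 ^ 31 : ℕ) := by exact_mod_cast this
    linear_combination this + k + mul_le_mul_of_nonneg_left μ2 (Nat.cast_nonneg z) / 128

lemma tL_ok (h : GX2 x S A w) {τ : ℕ} (hτ : τ ≤ 30) (L : List Rw) (hL : ∀ r ∈ L, r.In S.k) :
    ∀ K : ℕ → ℕ → ℕ, ∃ v b F, tL x.g.T x.g.O (zT x τ) x.N (toNL 0 x.R) L K = K v b ∧
      (zX x τ < 2 ^ 26 → LB x.g S A (fun c => w c / 2 ^ τ) (2 ^ x.g.B) id F v b) ∧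
      (b < 2 ^ 31 → ∀ a, (∀ f ∈ F, f a ≤ 0) → ∀ r ∈ L, r.ok (Y A a)) := by
  induction L with
  | nil => exact fun K => ⟨0, 0, [], rfl, fun _ => LB.nil, by simp⟩
  | cons r L ih =>
    intro K
    rw [List.forall_mem_cons] at hL
    obtain ⟨v, b, e1, h1⟩ := rowTG h hτ (pkV r.l1) (pkV r.l2) 17592186044416 r.c1 r.c2 fun v b =>
      tL x.g.T x.g.O (zT x τ) x.N (toNL 0 x.R) L fun u c => K (v + u)
        (b + c + (pkV r.l1 + pkV r.l2) >>> 717)
    obtain ⟨u, d, F, e2, h2, h3⟩ := ih hL.2 fun u c => K (v + u)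
      (b + c + (pkV r.l1 + pkV r.l2) >>> 717)
    rw [← gyN_eq] at e1
    refine ⟨_, _, _, e1.trans e2, fun c => (h1 c).cons (h2 c) (Nat.le_add_right _ _), fun c a ha => ?_⟩
    rw [List.forall_mem_cons] at ha ⊢
    refine ⟨?_, h3 (((Nat.le_add_left _ _).trans (Nat.le_add_right _ _)).trans_lt c) a ha.2⟩
    have g1 := (Nat.le_add_left _ _).trans_lt c
    rw [pkV_eq, pkV_eq] at g1
    have g2 : ∑ j ∈ range 16, cntL j r.l1 + ∑ j ∈ range 16, cntL j r.l2 < 2 ^ 44 :=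
      shr_big (n := 44 * 16) (k := 13) g1
    have g3 := ha.1
    rw [fN, sum_congr rfl fun j hj => by
      have j1 := (mem_range.1 hj).trans_le h.gx.hI.le
      rw [show (dP (pkV r.l1) (pkV r.l2) 17592186044416 (nrO x.g S j) : ℝ) -
        dN (pkV r.l1) (pkV r.l2) 17592186044416 (nrO x.g S j) =
        f44 (pkV r.l1) j - f44 (pkV r.l2) j from (sub_cast _ _).1, pkV_eq, pkV_eq,
        f44_PV (by omega) j1, f44_PV (by omega) j1, sub_mul], sum_sub_distrib] at g3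
    rw [Rw.ok, sum_cnt _ hL.1.1, sum_cnt _ hL.1.2]
    rw [Nat.cast_zero, zero_mul, sub_zero, sub_div] at g3
    linarith

theorem ofT_ok {p : Prov} (hp : Prok t p) : AOK2 t (ofT p) := fun x _ S A w s K _ h hl => by
  rw [ofT, frc_eq] at hl ⊢
  obtain ⟨L, u, e, h1, h2⟩ := hp true S A _ _ h.gx.hI hl
  have hτ : Nat.mod s 16 ≤ 30 := (Nat.mod_lt s (by norm_num : 0 < 16)).le.trans (by norm_num)
  rw [e] at hl ⊢
  obtain ⟨v, b, F, e1, h3, h4⟩ := tL_ok h hτ L h1 _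
  rw [e1] at hl ⊢
  obtain ⟨g1, g2⟩ := gz_lt hl
  simp only [Nat.add_eq, Nat.shiftRight_eq, Nat.shiftRight_eq_div_pow] at g1
  have g3 : b < 2 ^ 31 := by omega
  rw [g2, h.gx.hg.hO]
  obtain ⟨N, ν, e2, h5⟩ := ((h3 (by omega)).la (E := id) g3 hτ h.w0 (fun _ c => c)
    fun _ _ => rfl).item g3 h.gx.hI (h2.anti fun a ha => ⟨ha.1, h4 g3 a ha.2⟩)
  exact ⟨N, ν, u, 0, by rw [← e2, zero_add]; rfl, h5⟩

theorem ia6_ok {i2 i3 iu i8 j2 j3 : AItem} (h2 : AOK2 t i2) (h3 : AOK2 t i3) (hu : AOK2 t iu)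
    (h8 : AOK2 t i8) (g2 : AOK2 t j2) (g3 : AOK2 t j3) : (ia6 i2 i3 iu i8 j2 j3).All (AOK2 t) :=
  ⟨⟨⟨ofT_ok (killP_ok t), ofT_ok (smallP_ok t), (ofI_ok (childI_ok lt_ok t)).two⟩, h2, hu⟩, ⟨h3, h8⟩,
    (ofI_ok (killI_ok lt_ok t)).two, g2, g3⟩

end Pool.Agent.MP_c853c5_nt.X

end

section

/-!
The nodes of a polytope and the small grid.
-/

set_option autoImplicit false

open Finset

namespace Pool.Agent.MP_c853c5_nt.X

open Pool.Agent.MP_c853c5_nt.S Pool.Agent.MP_c853c5_nt.REG Ln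

variable {S : NS} {q : PQ} {g : Gr}

lemma land_mask (x s b : ℕ) : x &&& ((2 ^ b - 1) * 2 ^ s) = x >>> s % 2 ^ b * 2 ^ s := by
  rw [← Nat.shiftLeft_eq, ← Nat.shiftLeft_eq]
  refine Nat.eq_of_testBit_eq fun i => ?_
  rw [Nat.testBit_and, Nat.testBit_shiftLeft, Nat.testBit_shiftLeft, Nat.testBit_mod_two_pow,
    Nat.testBit_shiftRight, Nat.testBit_two_pow_sub_one]
  by_cases e : s ≤ i
  · rw [Nat.add_sub_cancel' e]
    simp [e, Bool.and_comm]
  · simp [e]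

lemma lab4 (G j : ℕ) : (G <<< 4) >>> (4 * j) >>> 4 = G >>> (4 * j) := by
  rw [← Nat.shiftRight_add, add_comm, Nat.shiftRight_add, Nat.shiftLeft_shiftRight]

/-- the number of a pair of groups -/
lemma pair_eq (G i j : ℕ) : (((G <<< 4) >>> (4 * i) ^^^ (G <<< 4) >>> (4 * j)) &&& 240) *
    (((G <<< 4) >>> (4 * j) &&& 240) + 1) = (d4 G i ^^^ d4 G j) * 16 * (d4 G j * 16 + 1) := by
  rw [show 240 = (2 ^ 4 - 1) * 2 ^ 4 from rfl, land_mask, land_mask, Nat.shiftRight_xor_distrib,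
    Nat.xor_mod_two_pow, lab4, lab4]
  rfl

lemma pair_ok : ∀ a < 16, ∀ b < 16, a ≠ b → (a ^^^ b) * 16 * (b * 16 + 1) =
    ((a ^^^ b) * 16 * (b * 16 + 1) - 1) + 1 ∧ nA ((a ^^^ b) * 16 * (b * 16 + 1) - 1) = a ∧
    nP ((a ^^^ b) * 16 * (b * 16 + 1) - 1) = b := by decide +kernel

lemma pw_sh (hw : 76 ≤ q.w) (s : ℕ) : Nat.shiftLeft (mQ q) s = pw q.w (fun _ => 2 ^ s) q.n := by
  rw [Nat.shiftLeft_eq', Nat.shiftLeft_eq, mQ_eq (by omega), pw_mul]
  simp only [one_mul]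

lemma pw_tQ (hw : 76 ≤ q.w) : tQ q = pw q.w (fun _ => 2 ^ 74) q.n := pw_sh hw 74

lemma lt_w76 (hw : 76 ≤ q.w) {x : ℕ} (h : x < 2 ^ 76) : x < 2 ^ q.w :=
  h.trans_le (Nat.pow_le_pow_right two_pos hw)

/-- the maximum of the fields -/
lemma mxV_eq (hw : 76 ≤ q.w) {μ y : ℕ → ℕ} (h1 : ∀ r < q.n, μ r < 2 ^ 30)
    (h2 : ∀ r < q.n, y r < 2 ^ 30) : mxV (tQ q) (pw q.w (fun r => y r * 2 ^ 44) q.n)
      (pw q.w (fun r => 2 ^ 74 + μ r * 2 ^ 44) q.n - pw q.w (fun r => y r * 2 ^ 44) q.n) =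
    pw q.w (fun r => 2 ^ 74 + max (μ r) (y r) * 2 ^ 44) q.n := by
  have b : ∀ r < q.n, 2 ^ 74 + μ r * 2 ^ 44 - y r * 2 ^ 44 < 2 ^ q.w := fun r hr =>
    lt_w76 hw (by have := h1 r hr; omega)
  have e : pw q.w (fun r => 2 ^ 74 + μ r * 2 ^ 44 - y r * 2 ^ 44) q.n &&&
      pw q.w (fun _ => 2 ^ 74) q.n =
      pw q.w (fun r => if y r ≤ μ r then 2 ^ 44 else 0) q.n * 2 ^ 30 := by
    rw [pw_land (by omega) b fun _ _ => lt_w76 hw (by norm_num), pw_mul]
    refine pw_congr fun r hr => ?_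
    have := h1 r hr
    have := h2 r hr
    rw [Nat.and_two_pow, Nat.testBit_eq_decide_div_mod_eq]
    split_ifs
    · rw [decide_eq_true (by omega)]
      rfl
    · rw [decide_eq_false (by omega)]
      rfl
  rw [pw_sub fun r hr => by have := h2 r hr; omega, pw_tQ hw, mxV]
  simp only [Nat.add_eq, Nat.land_eq, Nat.sub_eq, Nat.shiftRight_eq]
  rw [e, Nat.shiftRight_eq_div_pow, Nat.mul_div_cancel _ (Nat.two_pow_pos _), pw_mul,
    pw_sub fun r _ => Nat.le_mul_of_pos_right _ (Nat.two_pow_pos _),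
    pw_land (by omega) b fun r _ => lt_w76 hw (by split_ifs <;> norm_num), pw_add, pw_add]
  refine pw_congr fun r hr => ?_
  have := h1 r hr
  have := h2 r hr
  split_ifs
  · rw [show 2 ^ 44 * 2 ^ 30 - 2 ^ 44 = (2 ^ 30 - 1) * 2 ^ 44 by norm_num, land_mask,
      Nat.shiftRight_eq_div_pow]
    omega
  · rw [zero_mul, Nat.sub_self, Nat.and_zero]
    omega

/-- the offsets in the small grid -/
noncomputable def ro (bs par G : ℕ) : ℕ → ℕ
  | 0 => 0
  | m + 1 => if d4 G (m + 1) = d4 G (get par (m + 1)) then ro bs par G m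
      else ro bs par G m + b3 bs (m + 1)

lemma ro_le (bs par G m n : ℕ) : ro bs par G m ≤ ro bs par G (m + n) ∧
    ro bs par G (m + n) + off bs (m + 1) ≤ ro bs par G m + off bs (m + n + 1) := by
  induction n with
  | zero => exact ⟨le_rfl, le_rfl⟩
  | succ n ih =>
    rw [← add_assoc, X.off_succ _ (m + n + 1), ro]
    split_ifs <;> omega

/-- the shift of a cell of the small grid -/
noncomputable def hY (g : Gr) (par G c j : ℕ) : ℕ :=
  get g.h j * (c / 2 ^ ro g.bs par G (j - 1) % 2 ^ b3 g.bs j)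

/-- the width of a node in a row -/
def xw (q : PQ) (g : Gr) (par G r j : ℕ) : ℕ :=
  (uQ q (d4 G j) r - uQ q (d4 G (get par j)) r + (uQ q (d4 G (get par j)) r - uQ q (d4 G j) r)) *
    get g.h j

structure TS where
  γ : ℕ
  P : ℕ
  Q : ℕ
  A : ℕ
  W : ℕ
  U : ℕ
  L : ℕ → ℕ → ℕ
  E : ℕ → ℕ → ℕ
  F : ℕ → ℕ → ℕ

def TS.ap (s : TS) (K : KT) (o : ℕ) : ℕ := K o s.γ s.P s.Q s.A s.W s.U s.L s.E s.F

def ESp (X : ℕ → ℕ → ℕ) (B C o p : ℕ) (l : ℕ → ℕ) : Prop := ∀ f : ℕ → ℕ,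
  (∀ c < 2 ^ C, f c < 2 ^ 31) →
    X B (pk (2 ^ C) f) = pk (2 ^ (p + (C - o))) fun c => f (l c + 2 ^ o * (c / 2 ^ p))

/-- the state after the nodes `1, …, m` -/
structure StT (q : PQ) (g : Gr) (S : NS) (G C P m : ℕ) (s : TS) : Prop where
  hP : s.P = P + pw q.w (fun r => sNeg q S.par G m r (fLo S)) q.n
  hQ : s.Q = pw q.w (fun r => sPos q S.par G m r (fUp g) + sPos q S.par G m r (fHi S) * 2 ^ 36) q.n
  hA : s.A = pw q.w (fun r => (∑ j ∈ Ico 1 (m + 1), xw q g S.par G r j) * 2 ^ 44) q.n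
  hW : ∃ μ : ℕ → ℕ, s.W = pw q.w (fun r => 2 ^ 74 + μ r * 2 ^ 44) q.n ∧ ∀ r, μ r < 2 ^ 26 ∧
    (∀ j ∈ Ico 1 (m + 1), xw q g S.par G r j ≤ μ r) ∧
    (μ r = 0 ∨ ∃ j ∈ Ico 1 (m + 1), μ r = xw q g S.par G r j)
  hL : ∃ (us : ℕ → ℕ) (ps : ℕ → ℕ → ℕ), s.U = pk (2 ^ C) us ∧ ∀ r < q.n,
    (∀ V, s.L (2 ^ (q.w * r)) V = V + pk (2 ^ C) (ps r)) ∧ ∀ c,
      ps r c + sNeg q S.par G m r (hY g S.par G c) = 64 * us c + sPos q S.par G m r (hY g S.par G c)
  hE : ∃ l : ℕ → ℕ, s.γ ≤ off g.bs (m + 1) ∧ (∀ c, l c < 2 ^ ro g.bs S.par G m) ∧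
    (∀ c, l (c % 2 ^ (off g.bs (m + 1) - s.γ)) = l c) ∧
    (∀ j ∈ Ico 1 (m + 1), d4 G j ≠ d4 G (get S.par j) → ∀ c y,
      hY g S.par G (l c + 2 ^ ro g.bs S.par G m * y) j = hX g c j) ∧
    ESp s.E g.B C (ro g.bs S.par G m) (off g.bs (m + 1)) l ∧
    ESp s.F g.B C (ro g.bs S.par G m) (off g.bs (m + 1) - s.γ) l

lemma StT.zero (hw : 76 ≤ q.w) (hg : g.OK S) (G C P : ℕ) :
    StT q g S G C P 0 ⟨0, P, 0, 0, tQ q, 0, fun _ V => V, fun _ V => V, fun _ V => V⟩ := by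
  have o1 : off g.bs 1 = 0 := hg.b0
  have e : ESp (fun _ V => V) g.B C 0 0 fun _ => 0 := fun f _ => by simp
  refine ⟨by simp [sNeg, pw], by simp [sPos, pw], by simp [pw],
    ⟨fun _ => 0, by simp [pw_tQ hw], by simp⟩,
    ⟨fun _ => 0, fun _ _ => 0, (pk_zero _).symm, by simp [sPos, sNeg, pk_zero]⟩,
    fun _ => 0, Nat.zero_le _, by simp, by simp, by simp, ?_⟩
  rw [zero_add, o1]
  exact ⟨e, e⟩

variable {G C P m : ℕ} {s : TS}

lemma Ico_top {p : ℕ → Prop} (h : ∀ j ∈ Ico 1 (m + 1), p j) (h' : p (m + 1)) :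
    ∀ j ∈ Ico 1 (m + 1 + 1), p j := fun j hj => by
  rw [mem_Ico] at hj
  rcases Nat.lt_succ_iff_lt_or_eq.1 hj.2 with e | rfl
  exacts [h j (mem_Ico.2 ⟨hj.1, e⟩), h']

lemma StT.skip (h : StT q g S G C P m s) (c : d4 G (m + 1) = d4 G (get S.par (m + 1)))
    (h1 : ro g.bs S.par G m ≤ C) (h2 : off g.bs (m + 1 + 1) + (C - ro g.bs S.par G m) ≤ g.B) :
    StT q g S G C P (m + 1) ⟨s.γ + b3 g.bs (m + 1), s.P, s.Q, s.A, s.W, s.U, s.L, fun B V =>
      ins B (off g.bs (m + 1) - s.γ) (s.γ + b3 g.bs (m + 1)) (C - ro g.bs S.par G m) (s.F B V),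
      s.F⟩ := by
  have e1 : ∀ r f, sPos q S.par G (m + 1) r f = sPos q S.par G m r f := fun r f => by
    rw [sPos_succ, c, Nat.sub_self, zero_mul, zero_add]
  have e2 : ∀ r f, sNeg q S.par G (m + 1) r f = sNeg q S.par G m r f := fun r f => by
    rw [sNeg_succ, c, Nat.sub_self, zero_mul, zero_add]
  have e3 : ∀ r, xw q g S.par G r (m + 1) = 0 := fun r => by
    rw [xw, c, Nat.sub_self, add_zero, zero_mul]
  have e4 : ro g.bs S.par G (m + 1) = ro g.bs S.par G m := if_pos c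
  obtain ⟨μ, w1, w2⟩ := h.hW
  obtain ⟨l, l1, l2, l3, l4, -, l5⟩ := h.hE
  have e5 := X.off_succ g.bs (m + 1)
  have e6 : off g.bs (m + 1 + 1) - (s.γ + b3 g.bs (m + 1)) = off g.bs (m + 1) - s.γ := by omega
  refine ⟨by simpa only [e2] using h.hP, by simpa only [e1] using h.hQ,
    by simpa only [sum_Ico_succ_top (Nat.le_add_left 1 m), e3, add_zero] using h.hA,
    ⟨μ, w1, fun r => ⟨(w2 r).1, Ico_top (w2 r).2.1 (e3 r ▸ Nat.zero_le _), (w2 r).2.2.imp_right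
      fun ⟨j, j1, j2⟩ => ⟨j, Ico_subset_Ico_right (Nat.le_succ _) j1, j2⟩⟩⟩,
    by simpa only [e1, e2] using h.hL, l, by dsimp only; omega, ?_⟩
  rw [e4, e6]
  refine ⟨l2, l3, Ico_top l4 (absurd c), fun f hf => ?_, l5⟩
  generalize ro g.bs S.par G m = o at *
  generalize hp : off g.bs (m + 1) - s.γ = p at *
  dsimp only
  rw [l5 f hf, ins_eq (by omega) fun c hc => hf _ ?_, show p + (s.γ + b3 g.bs (m + 1)) =
    off g.bs (m + 1 + 1) by omega]
  · refine pk_congr fun c _ => ?_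
    rw [← l3, Nat.add_mul_mod_self_left, Nat.mod_mod, l3, Nat.add_mul_div_left _ _
      (Nat.two_pow_pos _), Nat.div_eq_of_lt (Nat.mod_lt _ (Nat.two_pow_pos _)), zero_add]
  · have g1 : c / 2 ^ p + 1 ≤ 2 ^ (C - o) :=
      (Nat.div_lt_iff_lt_mul (Nat.two_pow_pos _)).2 (by rwa [← pow_add, add_comm])
    have g2 := Nat.mul_le_mul_left (2 ^ o) g1
    have := l2 c
    rw [← pow_add, Nat.add_sub_cancel' h1, mul_add] at g2
    omega

lemma StT.act (hw : 76 ≤ q.w) (h : StT q g S G C P m s)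
    (c : d4 G (m + 1) ≠ d4 G (get S.par (m + 1))) (h1 : ro g.bs S.par G m + b3 g.bs (m + 1) ≤ C)
    (h2 : C ≤ 16) (h3 : get g.h (m + 1) < 2 ^ 20) {n x u : ℕ} (ha : nA n = d4 G (m + 1))
    (hb : nP n = d4 G (get S.par (m + 1))) (hx : x = aJ q n * get g.h (m + 1) <<< 44)
    (hu : u = get g.h (m + 1) * gU C (ro g.bs S.par G m) (b3 g.bs (m + 1))) :
    StT q g S G C P (m + 1) ⟨0, s.P + sJ q n * fLo S (m + 1),
      s.Q + dJ q n * (fUp g (m + 1) + fHi S (m + 1) <<< 36), s.A + x, mxV (tQ q) x (s.W - x),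
      u + s.U, fun y V => xJ q n / y % 128 * u + s.L y V, s.E, s.E⟩ := by
  have w4 : 44 ≤ q.w := by omega
  have e4 : ro g.bs S.par G (m + 1) = ro g.bs S.par G m + b3 g.bs (m + 1) := if_neg c
  have e5 := X.off_succ g.bs (m + 1)
  obtain ⟨μ, w1, w2⟩ := h.hW
  obtain ⟨us, ps, u1, u2⟩ := h.hL
  obtain ⟨l, l1, l2, l3, l4, l5, -⟩ := h.hE
  have x1 : x = pw q.w (fun r => xw q g S.par G r (m + 1) * 2 ^ 44) q.n := by
    rw [hx, aJ, dJ, sJ, ha, hb, dQ_eq w4, sQ_eq w4, Nat.add_eq, pw_add, pw_mul, Nat.shiftLeft_eq]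
    simp only [xw, mul_assoc]
  have x2 : ∀ r, xw q g S.par G r (m + 1) < 2 ^ 26 := fun r => by
    have := uQ_lt q (d4 G (m + 1)) r
    have := uQ_lt q (d4 G (get S.par (m + 1))) r
    exact (Nat.mul_lt_mul'' (c := 64) (by omega) h3).trans_eq (by norm_num)
  have u3 : u = pk (2 ^ C) fun c => hY g S.par G c (m + 1) := by
    rw [hu, gU_eq h2 h1, pk_smul]
    rfl
  refine ⟨?_, ?_, ?_, ⟨fun r => max (μ r) (xw q g S.par G r (m + 1)), ?_, fun r =>
    ⟨max_lt (w2 r).1 (x2 r), Ico_top (fun j hj => le_max_of_le_left ((w2 r).2.1 j hj))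
      (le_max_right _ _), (max_choice _ _).elim (fun e => (w2 r).2.2.imp e.trans fun ⟨j, j1, j2⟩ =>
        ⟨j, Ico_subset_Ico_right (Nat.le_succ _) j1, e.trans j2⟩) fun e => Or.inr ⟨_, by simp, e⟩⟩⟩,
    ⟨fun c => hY g S.par G c (m + 1) + us c, fun r c => (uQ q (d4 G (m + 1)) r + 64 -
      uQ q (d4 G (get S.par (m + 1))) r) * hY g S.par G c (m + 1) + ps r c, ?_, fun r hr =>
      ⟨fun V => ?_, fun c => ?_⟩⟩,
    fun c => l c + 2 ^ ro g.bs S.par G m * cx g.bs (m + 1) c, Nat.zero_le _, ?_⟩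
  · simp only [h.hP, sJ, ha, hb, sQ_eq w4, pw_mul, add_assoc, pw_add, sNeg_succ, add_comm]
  · simp only [h.hQ, dJ, ha, hb, dQ_eq w4, pw_mul, pw_add, sPos_succ, Nat.shiftLeft_eq]
    exact pw_congr fun r _ => by ring
  · simp only [h.hA, x1, pw_add, sum_Ico_succ_top (Nat.le_add_left 1 m), add_mul]
  · dsimp only
    rw [w1, x1]
    exact mxV_eq hw (fun r _ => (w2 r).1.trans (by norm_num)) fun r _ => (x2 r).trans (by norm_num)
  · rw [u3, u1, pk_add]
  · dsimp only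
    rw [(u2 r hr).1, xJ, ha, hb, xQ_eq w4, show 128 = 2 ^ 7 from rfl, pw_fld (by omega)
      (fun r _ => by have := uQ_lt q (d4 G (m + 1)) r; omega) hr, u3, pk_smul, add_left_comm, pk_add]
  · have h3 := (u2 r hr).2 c
    have h4 := uQ_lt q (d4 G (get S.par (m + 1))) r
    rw [sPos_succ, sNeg_succ]
    beta_reduce
    generalize uQ q (d4 G (m + 1)) r = a at *
    generalize uQ q (d4 G (get S.par (m + 1))) r = b at *
    have : (a + 64 - b) * hY g S.par G c (m + 1) + (b - a) * hY g S.par G c (m + 1) =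
        64 * hY g S.par G c (m + 1) + (a - b) * hY g S.par G c (m + 1) := by
      rw [← add_mul, ← add_mul]
      congr 1
      omega
    omega
  have k : ∀ c y, l c + 2 ^ ro g.bs S.par G m * cx g.bs (m + 1) c +
      2 ^ ro g.bs S.par G (m + 1) * y =
      l c + 2 ^ ro g.bs S.par G m * (cx g.bs (m + 1) c + 2 ^ b3 g.bs (m + 1) * y) := fun c y => by
    rw [e4]
    ring
  have k' : ESp s.E g.B C (ro g.bs S.par G (m + 1)) (off g.bs (m + 1 + 1))
      fun c => l c + 2 ^ ro g.bs S.par G m * cx g.bs (m + 1) c := fun f hf => by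
    rw [l5 f hf, show off g.bs (m + 1 + 1) + (C - ro g.bs S.par G (m + 1)) =
      off g.bs (m + 1) + (C - ro g.bs S.par G m) by omega]
    refine pk_congr fun c _ => ?_
    rw [k, e5, pow_add, ← Nat.div_div_eq_div_mul, cx, Nat.mod_add_div]
  refine ⟨fun c => ?_, fun c => ?_, Ico_top (fun j hj d c y => by rw [k, l4 j hj d]) fun _ c y => ?_,
    k', k'⟩
  · have := Nat.mul_le_mul_left (2 ^ ro g.bs S.par G m) (Nat.succ_le_of_lt (cx_lt g.bs (m + 1) c))
    have := l2 c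
    rw [e4, pow_add]
    rw [Nat.mul_succ] at *
    beta_reduce
    omega
  · dsimp only
    rw [Nat.sub_zero, ← l3, Nat.mod_mod_of_dvd _ (pow_dvd_pow 2 (by omega)), l3, cx, cx, e5, pow_add,
      Nat.mod_mul_right_div_self, Nat.mod_mod]
  · rw [k, hY, hX, Nat.add_sub_cancel, Nat.add_mul_div_left _ _ (Nat.two_pow_pos _),
      Nat.div_eq_of_lt (l2 c), zero_add, Nat.add_mul_mod_self_left,
      Nat.mod_eq_of_lt (cx_lt _ _ _)]

/-- the cells are narrow and away from zero -/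
def Nrw (g : Gr) (S : NS) (m : ℕ) : Prop :=
  ∀ j ∈ Ico 1 (m + 1), 16 ≤ get S.lo j ∧ get g.h j * 2 ^ b3 g.bs j < 2 ^ 20

noncomputable def ovs (g : Gr) (S : NS) (m : ℕ) : ℕ :=
  ∑ j ∈ Ico 1 (m + 1), (get S.lo j + get g.h j * 2 ^ b3 g.bs j - get S.hi j)

lemma tN_cons (T G : ℕ) (K : ℕ → ℕ → ℕ → KT) (a p l c h H b t : ℕ) (r : N2) (o : ℕ) :
    s.ap (tN q T G C K (N2.cons a p l c h H b t r)) o = Nat.rec (motive := fun _ => ℕ)
      (TS.ap ⟨s.γ + b, s.P, s.Q, s.A, s.W, s.U, s.L,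
        fun B V => ins B (t - s.γ) (s.γ + b) (C - o) (s.F B V), s.F⟩ (tN q T G C K r) o)
      (fun n _ => TS.ap ⟨0, s.P + sJ q n * l, s.Q + dJ q n * c, s.A + aJ q n * H,
        mxV T (aJ q n * H) (s.W - aJ q n * H), h * gU C o b + s.U,
        fun y V => xJ q n / y % 128 * (h * gU C o b) + s.L y V, s.E, s.E⟩ (tN q T G C K r) (o + b))
      (((G >>> a ^^^ G >>> p) &&& 240) * ((G >>> p &&& 240) + 1)) := rfl

lemma tN_ok (hg : g.OK S) (K : ℕ → ℕ → ℕ → KT) (n : ℕ) : ∀ (m v : ℕ) (s : TS),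
    m + n + 1 = S.k → (v = 0 → Nrw g S m) →
    (76 ≤ q.w → Nrw g S (m + n) → C = ro g.bs S.par G (m + n) → StT q g S G C P m s) →
    ∃ (v' : ℕ) (s' : TS),
      s.ap (tN q (tQ q) (G <<< 4) C K (mkN S.par S.hi g.bs ((List.range' (m + 1) n).map (nrO g S))
        (off g.bs (m + 1)) v (ovs g S m))) (ro g.bs S.par G m) =
      s'.ap (K v' (8796093022209 + 63 * ovs g S (m + n)) g.B) (ro g.bs S.par G (m + n)) ∧
      (v' = 0 → Nrw g S (m + n)) ∧
      (76 ≤ q.w → Nrw g S (m + n) → C = ro g.bs S.par G (m + n) → StT q g S G C P (m + n) s') := by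
  induction n with
  | zero => exact fun m v s h1 h2 h3 => ⟨v, s, by rw [hg.hB, ← h1]; rfl, h2, h3⟩
  | succ n ih =>
    intro m v s h1 h2 h3
    have e0 : m + (n + 1) = m + 1 + n := by omega
    have e1 : ∀ j R o v c, mkN S.par S.hi g.bs (nrO g S j :: R) o v c = N2.cons (4 * j)
        (4 * get S.par j) (fLo S j) (fUp g j + fHi S j <<< 36) (get g.h j) (get g.h j <<< 44)
        (b3 g.bs j) o (mkN S.par S.hi g.bs R (o + b3 g.bs j)
          (v + (16 - get S.lo j + (get g.h j <<< b3 g.bs j) >>> 20))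
          (c + (get S.lo j + get g.h j <<< b3 g.bs j - get S.hi j))) := fun j R o v c => by
      show n20 _ _ _ _ o v c (44 * j / 44) _ _ _ = _
      rw [Nat.mul_div_cancel_left _ (by norm_num)]
      rfl
    have e2 : ovs g S m + (get S.lo (m + 1) + get g.h (m + 1) <<< b3 g.bs (m + 1) -
        get S.hi (m + 1)) = ovs g S (m + 1) := by
      rw [ovs, ovs, sum_Ico_succ_top (Nat.le_add_left 1 m), Nat.shiftLeft_eq]
    have e3 := ro_le g.bs S.par G (m + 1) n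
    have e4 : off g.bs (m + 1 + n + 1) = g.B := by rw [hg.hB, ← h1, e0]
    have e5 := ro_le g.bs S.par G 0 (m + 1 + n)
    rw [e0] at h3 ⊢
    rw [List.range'_succ, List.map_cons, e1, e2, ← X.off_succ]
    have h4 : v + (16 - get S.lo (m + 1) + (get g.h (m + 1) <<< b3 g.bs (m + 1)) >>> 20) = 0 →
        Nrw g S (m + 1) := fun e => by
      rw [Nat.shiftLeft_eq, Nat.shiftRight_eq_div_pow] at e
      exact Ico_top (h2 (by omega)) (by omega)
    generalize v + _ = v at h4 ⊢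
    rw [tN_cons, pair_eq]
    by_cases c : d4 G (m + 1) = d4 G (get S.par (m + 1))
    · have e7 : ro g.bs S.par G (m + 1) = ro g.bs S.par G m := if_pos c
      obtain ⟨v', s', g1, g2⟩ := ih (m + 1) v _ (by omega) h4 fun w a b => (h3 w a b).skip c
        (by omega) (by omega)
      refine ⟨v', s', Eq.trans ?_ g1, g2⟩
      rw [e7, c, Nat.xor_self, zero_mul, zero_mul]
      rfl
    · have e7 : ro g.bs S.par G (m + 1) = ro g.bs S.par G m + b3 g.bs (m + 1) := if_neg c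
      obtain ⟨p1, p2, p3⟩ := pair_ok (d4 G (m + 1)) (Nat.mod_lt _ (by norm_num))
        (d4 G (get S.par (m + 1))) (Nat.mod_lt _ (by norm_num)) c
      rw [p1]
      generalize _ * 16 * _ - 1 = z at p2 p3 ⊢
      obtain ⟨v', s', g1, g2⟩ := ih (m + 1) v _ (by omega) h4 fun w a b => (h3 w a b).act w c
        (by omega) (by have := hg.b16; rw [zero_add, ro] at e5; omega) (lt_of_le_of_lt
          (Nat.le_mul_of_pos_right _ (Nat.two_pow_pos _)) (a _ (by simp)).2) p2 p3 rfl rfl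
      refine ⟨v', s', Eq.trans ?_ g1, g2⟩
      rw [e7]

end Pool.Agent.MP_c853c5_nt.X

end

section

/-!
Soundness of the rows of a polytope on the small grid.
-/

set_option autoImplicit false

open Finset

namespace Pool.Agent.MP_c853c5_nt.X

open Pool.Agent.MP_c853c5_nt.S Pool.Agent.MP_c853c5_nt.REG Pool.Agent.MP_c853c5_nt.L Ln

variable {S : NS} {A : ℕ → Finset ℕ} {t : ℝ} {x : Ga} {w : ℕ → ℝ} {q : PQ} {g : Gr}

section

variable (T O U : ℕ) (L : ℕ → ℕ → ℕ) (Y Y' Z c : ℕ)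

def rV (b : ℕ) : ℕ := tR0 (fun _ u _ => u) T O U L Y Y' Z c 0 0 0 b

def rB (b : ℕ) : ℕ := tR0 (fun _ _ d => d) T O U L Y Y' Z c 0 0 0 b

lemma tR0_eq (nx : ℕ → ℕ → ℕ → ℕ) (X u d b : ℕ) : tR0 nx T O U L Y Y' Z c X u d b =
    nx X (rV T O U L Y Y' Z c b + u) (rB T O U L Y Y' Z c b + d) := by
  simp only [rV, rB, tR0, tR1, tR2, tR3, Nat.add_eq, add_zero]

lemma tR_ok (K : ℕ → ℕ → ℕ) (k : ℕ) : ∀ X u d, tR T O U L Y Y' Z c K k X u d < INF →
    ∃ u' d', tR T O U L Y Y' Z c K k X u d = K u' d' ∧ ∀ (n : ℕ) (l : ℕ → ℕ) (f : ℕ → Pt → ℝ)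
      (F : List (Pt → ℝ)), LB g S A w n l F u d → (∀ i, X.testBit i = true →
        LB g S A w n l [f i] (rV T O U L Y Y' Z c (2 ^ i)) (rB T O U L Y Y' Z c (2 ^ i))) →
      ∃ F', LB g S A w n l F' u' d' ∧ (∀ φ ∈ F, φ ∈ F') ∧ ∀ i, X.testBit i = true → f i ∈ F' := by
  induction k with
  | zero => exact fun _ _ _ h => absurd h (lt_irrefl _)
  | succ k ih =>
    intro X u d h
    cases X with
    | zero => exact ⟨u, d, rfl, fun _ _ _ F h1 _ => ⟨F, h1, fun _ c => c, by simp⟩⟩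
    | succ X =>
      obtain ⟨i, b1, b2⟩ := low_bit X.succ_ne_zero
      rw [Nat.succ_sub_one] at b1 b2
      have e : tR T O U L Y Y' Z c K (k + 1) (X + 1) u d = tR0 (tR T O U L Y Y' Z c K k) T O U L Y Y'
        Z c ((X + 1) &&& X) u d (X + 1 - ((X + 1) &&& X)) := rfl
      rw [e, b1, tR0_eq] at h ⊢
      obtain ⟨u', d', h1, h2⟩ := ih _ _ _ h
      have b3 : (X + 1).testBit i = true := by
        by_contra c
        rw [show (X + 1) &&& X = X + 1 from Nat.eq_of_testBit_eq fun j => (em (j = i)).elim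
          (fun e => by rw [e, Nat.testBit_and, Bool.eq_false_iff.2 c, Bool.false_and]) (b2 j),
          Nat.sub_self] at b1
        exact (Nat.two_pow_pos i).ne b1
      refine ⟨u', d', h1, fun n l f F g1 g2 => ?_⟩
      obtain ⟨F', g3, g4, g5⟩ := h2 n l f _ ((g2 i b3).cons g1 le_rfl) fun j hj => g2 j (by
        rw [Nat.testBit_and, Bool.and_eq_true] at hj
        exact hj.1)
      exact ⟨F', g3, fun φ c => g4 φ (List.mem_cons_of_mem _ c), fun j hj => (em (j = i)).elim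
        (fun e => g4 _ (e ▸ List.mem_cons_self)) fun e => g5 j ((b2 j e).trans hj)⟩

end

lemma rowR (h : GX2 x S A w) {τ n U y y' c b z z' m s : ℕ} {l us ps po ng u v : ℕ → ℕ}
    {L : ℕ → ℕ → ℕ} {κ : ℝ} {f : Pt → ℝ} (hτ : τ ≤ 30) (hz : zX x τ < 2 ^ 26)
    (y1 : y / b % 17592186044416 = z) (y2 : y / b &&& 75557863708322137374720 = 64 * m * 2 ^ 44)
    (y3 : y' / b % 17592186044416 = z') (y4 : y' / b &&& 18889465913886394810368 = s * 2 ^ 44)
    (hU : U = 64 * pk n us) (hL : ∀ V, L b V = V + pk n ps)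
    (hp : ∀ c, ps c + ng c = 64 * us c + po c) (b1 : ∀ c, z + ng c + s ≤ 8798240505857)
    (b2 : ∀ c', 8796093022209 + po c' + z' ≤ c + z) (huv : ∀ j, v j = 0 ∨ u j = 0)
    (hs : s = ∑ j ∈ range S.k, (v j + u j) * get x.g.h j) (s0 : 0 < s)
    (m1 : ∃ j < S.k, m = (v j + u j) * get x.g.h j) (m2 : ∀ j < S.k, (v j + u j) * get x.g.h j ≤ m)
    (hδ : ∀ c, ∑ j ∈ range S.k, ((u j : ℝ) * get x.g.up j - v j * get S.lo j +
      (u j - v j) * (get x.g.h j * cx x.g.bs j c)) - κ ≤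
      (8796093022209 + po (l c) : ℕ) - (z + ng (l c) : ℕ)) (f1 : Lip S.k f)
    (f2 : ∀ a, -(1 / SC) ≤ f a → κ / SC ≤ ∑ j ∈ range S.k, ((u j : ℝ) - v j) * Y A a j) :
    LB x.g S A (fun c => w c / 2 ^ τ) n l [f]
      (rV (pk n fun _ => 2 ^ 31) (pk n fun _ => 1) U L y y' (zT x τ) c b)
      (rB (pk n fun _ => 2 ^ 31) (pk n fun _ => 1) U L y y' (zT x τ) c b) := by
  refine ⟨List.forall_mem_singleton.2 f1, fun hb => ?_⟩
  have m4 : m ≤ s := by
    obtain ⟨j, j1, rfl⟩ := m1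
    exact hs ▸ single_le_sum (f := fun j => (v j + u j) * get x.g.h j) (fun _ _ => Nat.zero_le _)
      (mem_range.2 j1)
  obtain ⟨t1, -, -, t2, t3⟩ := zT_ok (i := 64 * m / s) hz ((Nat.div_lt_iff_lt_mul s0).2 (by omega)) rfl
  have p := Nat.two_pow_pos 44
  have e : ∀ y : ℕ, y &&& 19342813113816474609254400 = y >>> 44 % 2 ^ 40 * 2 ^ 44 :=
    fun y => land_mask y 44 40
  have e' : ∀ y : ℕ, y >>> 40 >>> 44 = y >>> 84 := fun y => (Nat.shiftRight_add y 40 44).symm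
  simp only [rV, rB, tR0, tR1, tR2, tR3, Nat.add_eq, Nat.mul_eq, Nat.sub_eq, Nat.shiftRight_eq,
    Nat.shiftLeft_eq', Nat.land_eq, Nat.succ_eq_add_one, mod_eq, div_eq, add_zero, y1, y2, y3, y4,
    Nat.mul_div_mul_right _ _ p, e, e', t1, t2, t3] at hb ⊢
  have α1 : zX x τ * tA (64 * m / s) ≤ (zX x τ * tA (64 * m / s) / s + 1) * s :=
    ((Nat.div_lt_iff_lt_mul s0).1 (Nat.lt_succ_self _)).le
  have β1 : zX x τ * tB (64 * m / s) ≤ (zX x τ * tB (64 * m / s) / s + 1) * s :=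
    ((Nat.div_lt_iff_lt_mul s0).1 (Nat.lt_succ_self _)).le
  have b3 : c - z' < 2 ^ 31 := (Nat.le_mul_of_pos_left _ (Nat.succ_pos _)).trans_lt hb
  generalize zX x τ * tA (64 * m / s) / s + 1 = α at *
  generalize zX x τ * tB (64 * m / s) / s + 1 = β at *
  have k0 : tK (64 * m / s) * s ≤ 64 * s :=
    Nat.mul_le_mul_right _ (Nat.mod_lt _ (by norm_num : 0 < 64)).le
  have k1 : (tK (64 * m / s) * (s * 2 ^ 44)) >>> 51 = tK (64 * m / s) * s / 128 := by
    rw [← mul_assoc, Nat.shiftRight_eq_div_pow, show 2 ^ 51 = 128 * 2 ^ 44 by norm_num,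
      Nat.mul_div_mul_right _ _ p]
  have k2 := fun c => And.intro (hp c) (And.intro (b1 c) (b2 c))
  rw [k1, hL, hU, pk_smul, pk_smul, pk_smul, pk_add, pk_sub fun c _ => by have := k2 c; omega,
    pk_sub fun c _ => by have := k2 c; omega, clq fun c _ => by have := k2 c; omega,
    clq fun c _ => by have := k2 c; omega, pk_smul, pk_smul, pk_add]
  refine ⟨_, rfl, fun c _ => ?_, fun c _ => ?_⟩
  · have := k2 c
    rw [add_mul]
    exact add_le_add (Nat.mul_le_mul_left _ (by omega)) (Nat.mul_le_mul_left _ (by omega))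
  refine ((h.row c u v κ _ s m huv hs s0 m1 m2 (hδ c)).anti fun a ha => ⟨ha.1, ?_⟩).mono
    (tl_le (μ := 1) hτ s0 zero_le_one (by rw [mul_one]; exact_mod_cast α1)
      (by rw [mul_one]; exact_mod_cast β1) ?_ ?_ (h.w0 c))
  · obtain ⟨φ, g1, g2⟩ := ha.2
    exact f2 a (List.mem_singleton.1 g1 ▸ g2)
  all_goals
    have := k2 (l c)
    rw [one_mul]
  · have : ((8796093022209 + po (l c) : ℕ) : ℤ) - (z + ng (l c) : ℕ) ≤
      ((8798240505857 - z) * 1 + ps (l c) - 64 * us (l c) - 2 ^ 31 : ℕ) := by omega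
    exact_mod_cast this
  · have g1 : ((tK (64 * m / s) * s / 128 : ℕ) : ℝ) ≤ tK (64 * m / s) * s / 128 :=
      Nat.cast_div_le.trans_eq (by push_cast; rfl)
    generalize tK (64 * m / s) * s / 128 = a at *
    have : ((8796093022209 + po (l c) : ℕ) : ℤ) - (z + ng (l c) : ℕ) - a ≤
      ((8798240505857 - z) * 1 + ps (l c) - 64 * us (l c) - a * 1 - 2 ^ 31 : ℕ) := by omega
    exact (sub_le_sub_left g1 _).trans (by exact_mod_cast this)

lemma cut36 (hw : 76 ≤ q.w) {a b : ℕ → ℕ} (ha : ∀ r, a r < 2 ^ 36) (hb : ∀ r, b r < 2 ^ 36) :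
    pw q.w (fun r => a r + b r * 2 ^ 36) q.n &&& fQ q = pw q.w a q.n ∧
    pw q.w (fun r => a r + b r * 2 ^ 36) q.n >>> 36 &&& fQ q = pw q.w b q.n := by
  have e : fQ q = pw q.w (fun _ => 2 ^ 36 - 1) q.n := by
    rw [fQ, mQ_eq (by omega), Nat.mul_eq, pw_mul]
    exact pw_congr fun _ _ => by norm_num
  have l : ∀ r < q.n, a r + b r * 2 ^ 36 < 2 ^ q.w := fun r _ =>
    lt_w76 hw (by have := ha r; have := hb r; omega)
  rw [e, pw_cut (by omega) (by omega), pw_cut (by omega) (by omega)]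
  refine ⟨pw_congr fun r hr => ?_, pw_congr fun r hr => ?_⟩
  · rw [← add_zero (q.w * r), pw_get l hr (by omega), Nat.shiftRight_zero]
    have := ha r
    omega
  · rw [← Nat.shiftRight_add, add_comm 36, pw_get l hr (by omega), Nat.shiftRight_eq_div_pow]
    have := ha r
    have := hb r
    omega

lemma cut44 (hw : 76 ≤ q.w) {a b : ℕ → ℕ} {k r : ℕ} (hk : k ≤ 32) (ha : ∀ r, a r < 2 ^ 44)
    (hb : ∀ r, b r < 2 ^ k) (hr : r < q.n) :
    pw q.w (fun r => a r + b r * 2 ^ 44) q.n / 2 ^ (q.w * r) % 17592186044416 = a r ∧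
    pw q.w (fun r => a r + b r * 2 ^ 44) q.n / 2 ^ (q.w * r) &&& (2 ^ k - 1) * 2 ^ 44 =
      b r * 2 ^ 44 := by
  have p : 2 ^ k ≤ 2 ^ 32 := Nat.pow_le_pow_right two_pos hk
  have l : ∀ r < q.n, a r + b r * 2 ^ 44 < 2 ^ q.w := fun r _ =>
    lt_w76 hw (by have := ha r; have := hb r; omega)
  have := ha r
  rw [land_mask, ← Nat.shiftRight_eq_div_pow, ← Nat.shiftRight_add, pw_get l hr (by omega),
    ← add_zero (q.w * r), show 17592186044416 = 2 ^ 44 by norm_num, pw_get l hr (by omega),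
    Nat.shiftRight_zero, Nat.shiftRight_eq_div_pow, show (a r + b r * 2 ^ 44) / 2 ^ 44 = b r by omega,
    Nat.mod_eq_of_lt (hb r)]
  exact ⟨by omega, rfl⟩

lemma pk_sh (n s : ℕ) : Nat.shiftLeft (pk n fun _ => 1) s = pk n fun _ => 2 ^ s := by
  rw [Nat.shiftLeft_eq', Nat.shiftLeft_eq, mul_comm, pk_smul]
  simp only [mul_one]

lemma gT_pk (C : ℕ) : gT C = pk (2 ^ C) fun _ => 2 ^ 31 :=
  (congrArg (Nat.shiftLeft · 31) (gO_eq C)).trans (pk_sh _ 31)

lemma sum_k (hk : 1 ≤ S.k) {M : Type} [AddCommMonoid M] {f f' : ℕ → M} (h0 : f 0 = 0)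
    (h : ∀ j ∈ Ico 1 (S.k - 1 + 1), f j = f' j) :
    ∑ j ∈ range S.k, f j = ∑ j ∈ Ico 1 (S.k - 1 + 1), f' j := by
  rw [← sum_congr rfl h, Nat.sub_add_cancel hk, range_eq_Ico, sum_eq_sum_Ico_succ_bot hk, h0, zero_add]

theorem gtI_of {τ : ℕ} (hτ : τ ≤ 30) {gd : NS → ℕ → ℕ → ℕ} {gd' : NS → ℕ → ℕ → Bool} {T : BT PQ}
    (hT : T.All (PQ.Gd t gd')) (hd : ∀ S G m, S.k ≤ 16 → gd S G m = 0 →
      gd' S G m = true ∧ ∀ j < S.k, d4 G j < m) : AOK2 t (gtI τ gd T) := fun x _ S A w s K _ h hl => by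
  have hI := h.gx.hI
  have hg := h.gx.hg
  have k1 := hI.pos
  have k2 := hI.le
  rw [gtI, frc_eq, frc_eq] at hl ⊢
  obtain ⟨-, h3⟩ := hT.find (Nat.mod s 65536)
  generalize T.find (Nat.mod s 65536) = q at *
  generalize Nat.mod (Nat.shiftRight s 21) (fO4 S) = G at *
  generalize Nat.mod (Nat.shiftRight s 16) 32 = C at *
  generalize Nat.shiftRight (Nat.shiftRight s 21) (fW4 S) = s at *
  have e0 : nX x S = mkN S.par S.hi x.g.bs ((List.range' (0 + 1) (S.k - 1)).map (nrO x.g S))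
      (off x.g.bs (0 + 1)) 0 (ovs x.g S 0) := by
    rw [nX, h.gx.hR, ← List.map_tail, List.range_eq_range', List.tail_range',
      show off x.g.bs (0 + 1) = 0 from hg.b0]
    rfl
  obtain ⟨v, σ, e1, g1, g2⟩ := tN_ok (G := G) (C := C) (P := zQ q (d4 G 0)) hg (tE0 (fun u => K u s) q
    (zT x τ) τ (vQ q + zX x τ >>> 26 + gd S G q.k) C) (S.k - 1) 0 0 _ (by omega)
    (fun _ _ c => by simp at c) fun w _ _ => StT.zero w hg G C _
  rw [← e0, zero_add] at e1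
  rw [zero_add] at g1 g2
  rw [show tH gd q x S (fun u => K u s) τ G C = _ from e1] at hl ⊢
  simp only [TS.ap, tE0, tE1] at hl ⊢
  obtain ⟨u, d, e2, g3⟩ := tR_ok (g := x.g) (S := S) (A := A) (w := fun c => w c / 2 ^ τ)
    _ _ _ _ _ _ _ _ _ _ _ _ _ hl
  rw [e2] at hl ⊢
  obtain ⟨g4, e3⟩ := gz_lt hl
  rw [e3]
  clear e1 e2 e3 hl e0
  simp only [Nat.add_eq, Nat.add_eq_zero_iff, Nat.xor_eq, Nat.xor_eq_zero_iff, Nat.shiftRight_eq,
    Nat.land_eq, Nat.sub_eq, Nat.shiftLeft_eq'] at g3 g4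
  obtain ⟨⟨⟨⟨⟨v1, v2⟩, v3⟩, v4⟩, v5⟩, v6, v7⟩ := g4
  rw [Nat.shiftRight_eq_div_pow] at v2 v6
  have hq : okQ q = true ∧ 76 ≤ q.w := by
    rw [vQ, cnd_eq, Nat.sub_eq] at v1
    split_ifs at v1 with c
    exact ⟨c, by omega⟩
  have hw := hq.2
  have w4 : 44 ≤ q.w := by omega
  have hN := g1 v4
  obtain ⟨hP, hQ, hA, ⟨μ, hW, hμ⟩, ⟨us, ps, hU, hL⟩, l, -, l1, -, l2, l3, -⟩ := g2 hw hN v5.symm
  obtain ⟨d1, d2⟩ := hd _ _ _ k2 v3
  have m1 : ∀ {j}, j ∈ Ico 1 (S.k - 1 + 1) → 1 ≤ j ∧ j < S.k := fun h => by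
    have := mem_Ico.1 h
    omega
  have a1 := fun r => sNeg_le (q := q) (par := S.par) (G := G) (m := S.k - 1) (r := r)
    (c := 16777232) (f := fLo S) (by omega) fun j _ => by
      have := get_lt S.lo j
      show get S.lo j - 16 ≤ _
      omega
  have a2 := fun r => sPos_le (q := q) (par := S.par) (G := G) (m := S.k - 1) (r := r)
    (c := 16777232) (f := fUp x.g) (by omega) fun j _ => Nat.add_le_add_right (get_lt _ j).le 16
  have a3 := fun r => sPos_le (q := q) (par := S.par) (G := G) (m := S.k - 1) (r := r)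
    (c := 16777232) (f := fHi S) (by omega) fun j _ => Nat.add_le_add_right (get_lt _ j).le 16
  have a4 := rowQ_lt q.w q.R
  have a5 := uQ_lt q (d4 G 0)
  have a6 : ∀ r, ∑ j ∈ Ico 1 (S.k - 1 + 1), xw q x.g S.par G r j < 2 ^ 30 := fun r =>
    (sum_le_card_nsmul _ _ _ (hμ r).2.1).trans_lt (by
      rw [Nat.card_Ico, smul_eq_mul]
      exact (Nat.mul_lt_mul'' (c := 16) (by omega) (hμ r).1).trans_eq (by norm_num))
  obtain ⟨c1, c2⟩ := cut36 hw (a := fun r => sPos q S.par G (S.k - 1) r (fUp x.g))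
    (b := fun r => sPos q S.par G (S.k - 1) r (fHi S)) (fun r => by have := a2 r; omega)
    fun r => by have := a3 r; omega
  obtain ⟨z, hz⟩ : ∃ z : (ℕ → ℕ) → ℕ → ℕ, ∀ f r, z f r = (rowQ q.w q.R r).2 + 8796093022208 -
    uQ q (d4 G 0) r * 1000000 + sNeg q S.par G (S.k - 1) r (fLo S) -
    sPos q S.par G (S.k - 1) r f := ⟨_, fun _ _ => rfl⟩
  have z1 : ∀ f r, z f r < 2 ^ 44 := fun f r => by
    have := a1 r
    have := a4 r
    rw [hz]
    omega
  have z2 : ∀ f, (∀ r, sPos q S.par G (S.k - 1) r f ≤ 945 * 16777232) →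
      σ.P - pw q.w (fun r => sPos q S.par G (S.k - 1) r f) q.n = pw q.w (z f) q.n := fun f hf => by
    rw [hP, zQ_eq w4, pw_add, pw_sub fun r _ => by have := hf r; have := a5 r; omega]
    exact pw_congr fun r _ => (hz f r).symm
  have e4 : mQ q ^^^ (pw q.w (z (fHi S)) q.n >>> 43 &&& mQ q) =
      pw q.w (fun r => if z (fHi S) r < 2 ^ 43 then 1 else 0) q.n := by
    rw [mQ_eq w4, pw_mask (fun r _ => lt_w w4 (z1 _ r)) (by omega), pw_xor (by omega)
      (fun r _ => lt_w w4 (by omega)) fun r _ => lt_w w4 (by omega)]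
    refine pw_congr fun r _ => ?_
    have := z1 (fHi S) r
    rw [Nat.shiftRight_eq_div_pow]
    split_ifs
    · rw [show z (fHi S) r / 2 ^ 43 % 2 = 0 by omega]
      rfl
    · rw [show z (fHi S) r / 2 ^ 43 % 2 = 1 by omega]
      rfl
  have e5 : (σ.W - tQ q) <<< 6 = pw q.w (fun r => 64 * μ r * 2 ^ 44) q.n := by
    rw [hW, pw_tQ hw, pw_sub fun r _ => Nat.le_add_right _ _, Nat.shiftLeft_eq, pw_mul]
    exact pw_congr fun r _ => by omega
  rw [hQ, c1, c2, z2 _ a2, z2 _ a3, e4, e5, hA, pw_add, pw_add] at g3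
  rw [hQ, c2, z2 _ a3, e4] at v7
  have b0 : ∀ r < q.n, (if z (fHi S) r < 2 ^ 43 then 1 else 0) < 2 ^ q.w := fun r _ =>
    lt_w w4 (by split_ifs <;> omega)
  have b1 : ∀ r < q.n, z (fHi S) r < 2 ^ 43 →
      (pw q.w (fun r => if z (fHi S) r < 2 ^ 43 then 1 else 0) q.n).testBit (q.w * r) = true :=
    fun r hr c => by
      rw [← add_zero (q.w * r), pw_bit b0 r (by omega), decide_eq_true hr, if_pos c]
      rfl
  have hu := fun r (hr : r < q.n) j (hj : j < S.k) => okQ_ok w4 hq.1 hr (d2 j hj)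
  obtain ⟨F, f1, -, f2⟩ := g3 (2 ^ C) l (fun i => fN S A (nrT x.g S G) (rowQ q.w q.R (i / q.w)).1
      (rowQ q.w q.R (i / q.w)).1 4096 16 (Nat.mul (dg (rowQ q.w q.R (i / q.w)).1
      (Nat.mul 12 (d4 G 0))) 1000000) (rowQ q.w q.R (i / q.w)).2) [] LB.nil fun i hi => by
    obtain ⟨r, hr, c, rfl⟩ : ∃ r < q.n, z (fHi S) r < 2 ^ 43 ∧ i = q.w * r := by
      rw [← Nat.div_add_mod i q.w, pw_bit b0 _ (Nat.mod_lt _ (by omega)), Bool.and_eq_true,
        decide_eq_true_iff] at hi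
      obtain ⟨hr, i1⟩ := hi
      split_ifs at i1 with c
      · exact ⟨_, hr, c, by
          rw [← Nat.div_add_mod i q.w, Nat.testBit_one_eq_true_iff_self_eq_zero.1 i1, add_zero,
            Nat.mul_div_cancel_left _ (by omega)]⟩
      · simp at i1
    rw [Nat.mul_div_cancel_left r (by omega), gT_pk, gO_eq]
    have μ0 : μ r ≠ 0 := fun e => by
      have := b1 r hr c
      rw [← v7, Nat.testBit_and, Nat.testBit_shiftRight, add_comm, hW,
        show m4Q q = _ from pw_sh hw 44,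
        pw_sub fun r _ => by omega, pw_bit (fun r _ => lt_w76 hw (by have := (hμ r).1; omega)) r
          (by omega), e, show (2 ^ 74 + 0 * 2 ^ 44 - 2 ^ 44 : ℕ).testBit 74 = false by decide] at this
      simp at this
    obtain ⟨j0, j1, j2⟩ := (hμ r).2.2.resolve_left μ0
    generalize hy : rowQ q.w q.R r = y
    have e : ∀ j ∈ Ico 1 (S.k - 1 + 1), dP y.1 y.1 4096 (nrT x.g S G j) =
        uQ q (d4 G j) r - uQ q (d4 G (get S.par j)) r ∧ dN y.1 y.1 4096 (nrT x.g S G j) =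
        uQ q (d4 G (get S.par j)) r - uQ q (d4 G j) r := fun j hj => by
      obtain ⟨j1, j2⟩ := m1 hj
      rw [← hu r hr j j2, ← hu r hr _ ((hI.par j j1 j2).trans j2), hy, nrT, if_neg (by omega)]
      exact ⟨rfl, rfl⟩
    have e0 : dP y.1 y.1 4096 (nrT x.g S G 0) = 0 ∧ dN y.1 y.1 4096 (nrT x.g S G 0) = 0 :=
      ⟨Nat.sub_self _, Nat.sub_self _⟩
    have ex : ∀ j ∈ Ico 1 (S.k - 1 + 1), (dN y.1 y.1 4096 (nrT x.g S G j) +
        dP y.1 y.1 4096 (nrT x.g S G j)) * get x.g.h j = xw q x.g S.par G r j := fun j hj => by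
      rw [(e j hj).1, (e j hj).2, add_comm, xw]
    have x1 : ∀ c, ∀ j ∈ Ico 1 (S.k - 1 + 1), hY x.g S.par G c j + get x.g.h j ≤
        get x.g.h j * 2 ^ b3 x.g.bs j := fun c j _ =>
      (Nat.mul_succ _ _).ge.trans (Nat.mul_le_mul_left _ (Nat.mod_lt _ (Nat.two_pow_pos _)))
    have u1 := fun a => uQ_lt q a r
    have b2 := a1 r
    have b3 := a2 r
    have b4 := a3 r
    have b5 := a5 r
    have b6 := hz (fHi S) r
    have b7 := hz (fUp x.g) r
    refine rowR h (m := μ r) (us := us) (ps := ps r)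
      (po := fun c => sPos q S.par G (S.k - 1) r (hY x.g S.par G c))
      (ng := fun c => sNeg q S.par G (S.k - 1) r (hY x.g S.par G c))
      (u := fun j => dP y.1 y.1 4096 (nrT x.g S G j)) (v := fun j => dN y.1 y.1 4096 (nrT x.g S G j))
      (κ := y.2 - uQ q (d4 G 0) r * 1000000 - 16 * ∑ j ∈ range S.k,
        ((dP y.1 y.1 4096 (nrT x.g S G j) : ℝ) + dN y.1 y.1 4096 (nrT x.g S G j)) - 1) hτ (by omega)
      (cut44 hw (k := 32) le_rfl (z1 _) (fun r => by have := (hμ r).1; omega) hr).1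
      (cut44 hw (k := 32) le_rfl (z1 _) (fun r => by have := (hμ r).1; omega) hr).2
      (cut44 hw (k := 30) (by norm_num) (z1 _) a6 hr).1
      (cut44 hw (k := 30) (by norm_num) (z1 _) a6 hr).2
      (by rw [hU, Nat.shiftLeft_eq, mul_comm]) (hL r hr).1 (hL r hr).2 (fun c => ?_) (fun c => ?_)
      (fun j => by unfold dP dN; omega) (sum_k k1 (by rw [e0.1, e0.2, add_zero, zero_mul]) ex).symm
      (lt_of_lt_of_le (by omega) (single_le_sum (fun _ _ => Nat.zero_le _) j1))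
      ⟨j0, (m1 j1).2, j2.trans (ex _ j1).symm⟩ (fun j hj => ?_) (fun c => ?_)
      ((Lip.sum _ fun j hj => (lip_Y hI (mem_range.1 hj)).mul _).sub (Lip.const _ _)) fun a ha => ?_
    · have g5 : sPos q S.par G (S.k - 1) r (fHi S) + sNeg q S.par G (S.k - 1) r (hY x.g S.par G c) ≤
          sPos q S.par G (S.k - 1) r (fUp x.g) + ∑ j ∈ Ico 1 (S.k - 1 + 1), 63 * 1048576 := by
        rw [sPos, sPos, sNeg, ← sum_add_distrib, ← sum_add_distrib]
        refine sum_le_sum fun j hj => ?_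
        have g6 := x1 c j hj
        have g7 := (hN j hj).2
        have g8 := hg.cov j (m1 hj).1 (m1 hj).2
        have g9 := Nat.mul_le_mul_left (uQ q (d4 G j) r - uQ q (d4 G (get S.par j)) r)
          (show fHi S j ≤ fUp x.g j + 1048576 by
            show get S.hi j + 16 ≤ get x.g.up j + 16 + _
            rw [hg.up j (m1 hj).1 (m1 hj).2]
            omega)
        have := Nat.mul_le_mul_left (uQ q (d4 G (get S.par j)) r - uQ q (d4 G j) r)
          (show hY x.g S.par G c j ≤ 1048576 by omega)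
        have := u1 (d4 G j)
        have := u1 (d4 G (get S.par j))
        rw [mul_add] at g9
        omega
      rw [sum_const, Nat.card_Ico, smul_eq_mul] at g5
      have := a6 r
      omega
    · have g5 : sPos q S.par G (S.k - 1) r (hY x.g S.par G c) + sPos q S.par G (S.k - 1) r (fUp x.g) ≤
          63 * ovs x.g S (S.k - 1) + sPos q S.par G (S.k - 1) r (fHi S) := by
        rw [sPos, sPos, sPos, ovs, mul_sum, ← sum_add_distrib, ← sum_add_distrib]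
        refine sum_le_sum fun j hj => ?_
        have g6 := x1 c j hj
        rw [← mul_add]
        refine (Nat.mul_le_mul_left _ (show _ ≤ get S.lo j + get x.g.h j * 2 ^ X.b3 x.g.bs j -
          get S.hi j + fHi S j from ?_)).trans ((mul_add _ _ _).trans_le (Nat.add_le_add_right
          (Nat.mul_le_mul_right _ (by have := u1 (d4 G j); omega)) _))
        show _ + (get x.g.up j + 16) ≤ _ + (get S.hi j + 16)
        rw [hg.up j (m1 hj).1 (m1 hj).2]
        omega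
      omega
    · rcases Nat.eq_zero_or_pos j with rfl | j3
      · rw [e0.1, e0.2, add_zero, zero_mul]
        exact Nat.zero_le _
      · have j4 : j ∈ Ico 1 (S.k - 1 + 1) := mem_Ico.2 ⟨j3, by omega⟩
        exact (ex j j4).trans_le ((hμ r).2.1 j j4)
    · have g5 : ((z (fUp x.g) r + uQ q (d4 G 0) r * 1000000 + sPos q S.par G (S.k - 1) r (fUp x.g) :
          ℕ) : ℝ) = (y.2 + 8796093022208 + sNeg q S.par G (S.k - 1) r (fLo S) : ℕ) := by
        rw [← hy, Nat.cast_inj]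
        omega
      have g6 := sum_k (M := ℝ) k1 (f := fun j => (dP y.1 y.1 4096 (nrT x.g S G j) : ℝ) *
          get x.g.up j - dN y.1 y.1 4096 (nrT x.g S G j) * get S.lo j +
          (dP y.1 y.1 4096 (nrT x.g S G j) - dN y.1 y.1 4096 (nrT x.g S G j)) *
          (get x.g.h j * cx x.g.bs j c) + 16 * (dP y.1 y.1 4096 (nrT x.g S G j) +
          dN y.1 y.1 4096 (nrT x.g S G j)))
        (f' := fun j => ((uQ q (d4 G j) r - uQ q (d4 G (get S.par j)) r) * fUp x.g j : ℕ) +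
          ((uQ q (d4 G j) r - uQ q (d4 G (get S.par j)) r) * hY x.g S.par G (l c) j : ℕ) -
          ((uQ q (d4 G (get S.par j)) r - uQ q (d4 G j) r) * fLo S j : ℕ) -
          ((uQ q (d4 G (get S.par j)) r - uQ q (d4 G j) r) * hY x.g S.par G (l c) j : ℕ))
        (by simp [e0]) fun j hj => by
          rw [(e j hj).1, (e j hj).2]
          by_cases d : d4 G j = d4 G (get S.par j)
          · simp [d]
          have g7 := l2 j hj d c 0
          rw [mul_zero, add_zero] at g7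
          rw [g7, ← show fLo S j + 16 = get S.lo j from Nat.sub_add_cancel (hN j hj).1,
            show fUp x.g j = get x.g.up j + 16 from rfl, hX]
          simp only [Nat.cast_mul, Nat.cast_add, Nat.cast_ofNat]
          ring
      rw [sum_add_distrib, ← mul_sum, sum_sub_distrib, sum_sub_distrib,
        sum_add_distrib (s := Ico _ _),
        ← Nat.cast_sum, ← Nat.cast_sum, ← Nat.cast_sum, ← Nat.cast_sum] at g6
      simp only [Nat.cast_add, Nat.cast_mul, Nat.cast_ofNat] at g5 ⊢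
      rw [sPos, sNeg] at *
      linarith
    · rw [fN, show dg y.1 (Nat.mul 12 (d4 G 0)) = uQ q (d4 G 0) r from hy ▸ hu r hr 0 k1,
        Nat.mul_eq] at ha
      push_cast at ha
      linear_combination ha
  have d3 : d < 2 ^ 31 := by omega
  have e6 : off x.g.bs (S.k - 1 + 1) = x.g.B := by rw [hg.hB, Nat.sub_add_cancel k1]
  rw [v5] at l1 l3
  rw [gO_eq]
  obtain ⟨N, ν, e7, h5⟩ := (f1.la (E := σ.E x.g.B) d3 hτ h.w0 (fun c _ => l1 c) fun f hf => by
    rw [l3 f hf, e6, Nat.sub_self, add_zero]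
    exact pk_congr fun c hc => by rw [Nat.div_eq_of_lt hc, mul_zero, add_zero]).item d3 hI
      ((h3 true S A G hI d1).anti fun a ha r hr => by
    by_cases c : z (fHi S) r < 2 ^ 43
    · have := ha.2 _ (f2 _ (b1 r hr c))
      rw [Nat.mul_div_cancel_left _ (by omega)] at this
      exact fN_pr hI G _ this
    refine pr_of (lo := fLo S) (hi := fHi S) hI (hu r hr) (fun j hj => ?_) ?_
    · obtain ⟨j1, j2⟩ := mem_Ico.1 hj
      rw [show fLo S j + 16 = get S.lo j from Nat.sub_add_cancel (hN j (mem_Ico.2 ⟨j1, by omega⟩)).1,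
        show fHi S j = get S.hi j + 16 from rfl, Nat.cast_add, add_div, Nat.cast_ofNat]
      exact ⟨(ha.1.1 j j2).1, add_le_add_left (ha.1.1 j j2).2 _⟩
    · have := a5 r
      rw [hz] at c
      omega)
  exact ⟨N, ν, s, 0, by rw [← e7, zero_add], h5⟩

lemma lbz_ok {G m : ℕ} (h : lbz G m = 0) : lbl G m = true := Nat.beq_eq.mpr h

lemma g2z_ok {G m : ℕ} (h : g2z S G m = 0) : g2f S G m = true := by
  obtain ⟨h1, h2⟩ := Nat.add_eq_zero_iff.1 h
  rw [g2f, band_eq, lbz_ok h2, Bool.and_true]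
  by_contra c
  simp only [hasP, anyN_iff, Nat.beq_eq, not_exists, not_and] at c
  rw [pM, prM_eq, pw_congr (g := fun _ => 0) fun j hj => if_neg (c j hj)] at h1
  simp [pw] at h1

lemma g3z_ok {G m : ℕ} (h : g3z S G m = 0) : g3f S G m = true := by
  obtain ⟨h1, h2⟩ := Nat.add_eq_zero_iff.1 h
  obtain ⟨h3, h4⟩ := Nat.add_eq_zero_iff.1 h2
  rw [g3f, on1, band_eq, band_eq, lbz_ok h1, Nat.beq_eq.mpr h3, Nat.blt_eq.mpr (Nat.sub_eq_zero_iff_le.1 h4)]
  rfl

theorem gt2_ok {τ : ℕ} (hτ : τ ≤ 30) {T : BT PQ} (hT : T.All (PQ.Gd t g2)) :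
    AOK2 t (gtI τ g2z T) :=
  gtI_of hτ (gd2f hT) fun S G m k c => ⟨g2z_ok c, g2f_lt S G m k (g2z_ok c)⟩

theorem gt3_ok {τ : ℕ} (hτ : τ ≤ 30) {T : BT PQ} (hT : T.All (PQ.Gd t g3)) :
    AOK2 t (gtI τ g3z T) :=
  gtI_of hτ (gd3f hT) fun S G m k c => ⟨g3z_ok c, g3f_lt S G m k (g3z_ok c)⟩

end Pool.Agent.MP_c853c5_nt.X

end
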