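import Pool.Agent.MP_c853c5_nt.E.Basic
import Pool.Agent.Mg.C853.G132190
import Pool.Agent.Mg.C853.Gfe9d6c
import Pool.Agent.MP_c853c5_nt.R.WDefs
import Pool.Agent.Mg.C853.G94aeb3
import Pool.Agent.Mg.C853.Gf25d0d
import Pool.Agent.Mg.C853.G3c1b7b
import Pool.Agent.MP_c853c5_nt.E.Tr

section

set_option autoImplicit false

open Finset Filter

namespace Pool.Agent.MP_c853c5_nt.E

open Pool.Agent.MP_2a1f0e_nt Pool.Agent.MP_2a1f0e_nt.GM Pool.Agent.MP_2a1f0e_nt.DH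

theorem core_stmt (hC : ConStmt) (hL : LevStmt) : CoreStmt := by
  intro ι _ K ε hε
  set k : ℝ := (Fintype.card ι : ℝ) with hk
  have hk0 : 0 ≤ k := Nat.cast_nonneg _
  set e : ℝ := min 1 (ε / (2 * k + 2)) with he
  have he0 : 0 < e := lt_min one_pos (by positivity)
  have he1 : e ≤ 1 := min_le_left _ _
  have he2 : (2 * k + 2) * e ≤ ε := by
    have : e ≤ ε / (2 * k + 2) := min_le_right _ _
    rwa [le_div_iff₀ (by positivity), mul_comm] at this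
  have he3 : 2 * e ≤ ε := by nlinarith
  obtain ⟨g, hg, hC⟩ := hC ι K e he0
  obtain ⟨Q, hQ, hL⟩ := hL ι e he0 he1
  have hγ0 : 0 < min g (e / 4) := lt_min hg (by positivity)
  have hγ1 : min g (e / 4) ≤ g := min_le_left _ _
  have hγ2 : min g (e / 4) ≤ e / 4 := min_le_right _ _
  generalize min g (e / 4) = γ at hγ0 hγ1 hγ2
  refine ⟨γ, hγ0, by linarith, ?_⟩
  filter_upwards [hC, eventually_gt_atTop 1, ev_const_le Q he0,
    ev_const_le 2 (show 0 < e / 2 by positivity)] with x hC hx hQx h2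
  intro X τ η s ρ b T L S φ hτ0 hτ1 hη hρ hb hE hT1 hT hLx hS hφ hD hX
  have hx0 : 0 < x := by linarith
  have hm : ∀ {a c : ℝ}, a ≤ c → x ^ a ≤ x ^ c := fun h =>
    Real.rpow_le_rpow_of_exponent_le hx.le h
  have hp : ∀ a : ℝ, 0 < x ^ a := fun a => Real.rpow_pos_of_pos hx0 a
  have hcard : (S.card : ℝ) ≤ x ^ (τ + e) := by
    have h1 : S.card ≤ T + 1 := by
      refine (card_le_card hS).trans ?_
      rw [Int.card_Icc]
      omega
    have h3 : (S.card : ℝ) ≤ 2 * T := by exact_mod_cast (by omega : S.card ≤ 2 * T)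
    calc (S.card : ℝ) ≤ 2 * T := h3
      _ ≤ x ^ (e / 2) * x ^ (τ + γ) :=
          mul_le_mul h2 hT (Nat.cast_nonneg _) (hp _).le
      _ = x ^ (e / 2 + (τ + γ)) := (Real.rpow_add hx0 _ _).symm
      _ ≤ _ := hm (by linarith)
  have hφ' : ∀ j, ∀ t ∈ S, 0 ≤ φ j t ∧ φ j t ≤ x ^ (b j / 2 + e) := by
    intro j t ht
    refine ⟨hφ j t ht, ((hD j).le (hp γ).le ht).trans ?_⟩
    have h1 : √(L j : ℝ) ≤ x ^ ((b j + γ) / 2) := by
      refine Real.sqrt_le_iff.2 ⟨(hp _).le, (hLx j).2.trans (le_of_eq ?_)⟩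
      rw [sq, ← Real.rpow_add hx0]
      congr 1
      ring
    calc x ^ γ * (2 * √(L j : ℝ)) ≤ x ^ γ * (x ^ (e / 2) * x ^ ((b j + γ) / 2)) :=
          mul_le_mul_of_nonneg_left (mul_le_mul h2 h1 (Real.sqrt_nonneg _) (hp _).le) (hp _).le
      _ = x ^ (γ + (e / 2 + (b j + γ) / 2)) := by
          rw [← Real.rpow_add hx0, ← Real.rpow_add hx0]
      _ ≤ _ := hm (by linarith)
  obtain ⟨S₀, hS₀, h1, h3⟩ := hL x τ η s ρ (fun j => b j / 2) S φ
    (fun r v => Cons K τ b r v ∧ X r v) hx hτ1 hη hρ (fun j => by linarith [(hb j).2]) hcard hφ'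
    (fun W r v hW hv hr =>
      ⟨hC τ b T L S φ hτ0 hτ1 hb hT1 (hT.trans (hm (by linarith)))
        (fun j => ⟨(hLx j).1, (hLx j).2.trans (hm (by linarith))⟩) hS hφ
        (fun j => (hD j).mono (hp γ).le zero_le_one (by rw [one_mul]; exact hm hγ1)
          fun t ht => ⟨hφ j t ht, by rw [one_mul]⟩) W r v hW hv hr,
        hX W r v hW hv ((hm (by linarith)).trans hr)⟩)
    (fun r v h0 h1 h2 h3 => hE r v h0 h1 h2 h3.1 h3.2)
  refine ⟨S₀, hS₀, h1.trans ?_, h3.trans (add_le_add ?_ le_rfl)⟩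
  · calc Q * x ^ (ρ + e) ≤ x ^ e * x ^ (ρ + e) := mul_le_mul_of_nonneg_right hQx (hp _).le
      _ = x ^ (e + (ρ + e)) := (Real.rpow_add hx0 _ _).symm
      _ ≤ _ := hm (by linarith)
  · calc Q * x ^ (s - η * ρ + (2 * k + 1) * e)
        ≤ x ^ e * x ^ (s - η * ρ + (2 * k + 1) * e) := mul_le_mul_of_nonneg_right hQx (hp _).le
      _ = x ^ (e + (s - η * ρ + (2 * k + 1) * e)) := (Real.rpow_add hx0 _ _).symm
      _ ≤ _ := hm (by linarith)

end Pool.Agent.MP_c853c5_nt.E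

end

section

/-!
An integral is bounded by the sums over shifted integer grids.
-/

set_option autoImplicit false

open Finset Filter

namespace Pool.Agent.MP_c853c5_nt.E

open Pool.Agent.MP_2a1f0e_nt Pool.Agent.MP_2a1f0e_nt.GM Pool.Agent.MP_2a1f0e_nt.DH

lemma cont_Grd {f : ℝ → ℝ} (hf : Continuous f) (n : ℕ) :
    Continuous fun u : ℝ => ∑ m ∈ range n, f (u + m) :=
  continuous_finsetSum _ fun _ _ => hf.comp (continuous_id.add continuous_const)

lemma fold_Grd {f : ℝ → ℝ} (hf : Continuous f) (a : ℝ) (n : ℕ) :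
    ∫ t in a..a + n, f t = ∫ u in a..a + 1, ∑ m ∈ range n, f (u + m) := by
  induction n with
  | zero => simp
  | succ n ih =>
    have h1 : Continuous fun u : ℝ => f (u + n) := hf.comp (continuous_id.add continuous_const)
    simp only [sum_range_succ]
    rw [intervalIntegral.integral_add ((cont_Grd hf n).intervalIntegrable _ _)
      (h1.intervalIntegrable _ _), ← ih, intervalIntegral.integral_comp_add_right,
      intervalIntegral.integral_add_adjacent_intervals (hf.intervalIntegrable _ _)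
        (hf.intervalIntegrable _ _), Nat.cast_succ, add_right_comm, add_assoc]

lemma le_Grd {g : ℝ → ℝ} (hg : Continuous g) {a b B : ℝ} (hab : a ≤ b)
    (h : ∀ u, a ≤ u → u ≤ b → g u ≤ B) : ∫ u in a..b, g u ≤ (b - a) * B := by
  have := intervalIntegral.integral_mono_on hab (hg.intervalIntegrable (μ := MeasureTheory.volume) _ _)
    (continuous_const.intervalIntegrable _ _) fun u hu => h u hu.1 hu.2
  rwa [intervalIntegral.integral_const, smul_eq_mul] at this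

theorem grd_stmt : GrdStmt := by
  intro f T₁ T₂ B T hf _ h12 hT h
  obtain ⟨q, hq1, hq2⟩ : ∃ q : ℕ, (q : ℝ) ≤ T₂ - T₁ ∧ T₂ - T₁ < q + 1 :=
    ⟨_, Nat.floor_le (by linarith), Nat.lt_floor_add_one _⟩
  have hqT : q ≤ T := by exact_mod_cast hq1.trans hT
  have key : ∀ (n : ℕ) (u : ℝ), n ≤ q + 1 → T₁ ≤ u → u + n ≤ T₂ + 1 →
      ∑ m ∈ range n, f (u + m) ≤ B := by
    intro n u hn h1 h2
    have := h u ((range n).map Nat.castEmbedding) (fun m hm => ?_) fun m hm => ?_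
    · simpa only [sum_map, Nat.castEmbedding_apply, Int.cast_natCast] using this
    · obtain ⟨k, hk, rfl⟩ := mem_map.1 hm
      have := mem_range.1 hk
      rw [Nat.castEmbedding_apply, mem_Icc]
      omega
    · obtain ⟨k, hk, rfl⟩ := mem_map.1 hm
      have h3 : (k : ℝ) + 1 ≤ n := by exact_mod_cast mem_range.1 hk
      have h4 : (0 : ℝ) ≤ k := Nat.cast_nonneg k
      rw [Nat.castEmbedding_apply, Int.cast_natCast]
      constructor <;> linarith
  have h1 : Continuous fun u : ℝ => f (u + q) := hf.comp (continuous_id.add continuous_const)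
  have e1 := le_Grd (cont_Grd hf (q + 1)) (a := T₁) (b := T₂ - q) (B := B) (by linarith)
    fun u h1 h2 => key _ u le_rfl h1 (by push_cast; linarith)
  have e2 := le_Grd (cont_Grd hf q) (a := T₂ - q) (b := T₁ + 1) (B := B) (by linarith)
    fun u h1 h2 => key _ u (Nat.le_succ q) (by linarith) (by linarith)
  simp only [sum_range_succ] at e1
  rw [intervalIntegral.integral_add ((cont_Grd hf q).intervalIntegrable _ _)
    (h1.intervalIntegrable _ _), intervalIntegral.integral_comp_add_right, sub_add_cancel] at e1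
  rw [← intervalIntegral.integral_add_adjacent_intervals (b := T₁ + q) (hf.intervalIntegrable _ _)
    (hf.intervalIntegrable _ _), fold_Grd hf,
    ← intervalIntegral.integral_add_adjacent_intervals (b := T₂ - q)
      ((cont_Grd hf q).intervalIntegrable _ _) ((cont_Grd hf q).intervalIntegrable _ _)]
  linarith

end Pool.Agent.MP_c853c5_nt.E

end

section

set_option autoImplicit false

open Finset Filter

namespace Pool.Agent.MP_c853c5_nt.E

open Pool.Agent.MP_2a1f0e_nt Pool.Agent.MP_2a1f0e_nt.GM Pool.Agent.MP_2a1f0e_nt.DH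

theorem self_stmt : SelfStmt := by
  intro S s c L u hL hs hc w m _
  have hL0 : (0 : ℝ) < √(L : ℝ) := Real.sqrt_pos.2 (by exact_mod_cast hL)
  refine ⟨fun n => if n ∈ s then ((c n * (√(n : ℝ) / √(L : ℝ)) : ℝ) : ℂ) * pw (n : ℝ) u else 0,
    fun n => ?_, le_of_eq ?_⟩
  · beta_reduce
    split_ifs with h
    · rw [norm_mul, norm_pw, mul_one, Complex.norm_real, Real.norm_eq_abs, abs_mul,
        abs_of_nonneg (show 0 ≤ √(n : ℝ) / √(L : ℝ) by positivity)]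
      refine mul_le_one₀ (hc n) (by positivity) ((div_le_one hL0).2 (Real.sqrt_le_sqrt ?_))
      exact_mod_cast (mem_Icc.1 (hs h)).2
    · simp
  · rw [one_pow, one_mul]
    refine sum_congr rfl fun t _ => ?_
    have e : NP L (fun n => if n ∈ s then
        ((c n * (√(n : ℝ) / √(L : ℝ)) : ℝ) : ℂ) * pw (n : ℝ) u else 0) t =
        FP s c (u + t) / ((√(L : ℝ) : ℝ) : ℂ) := by
      unfold NP DH.PP FP
      rw [← sum_subset hs fun n _ hn => by simp [hn], sum_div]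
      refine sum_congr rfl fun n hn => ?_
      have h1 : (0 : ℝ) < √(n : ℝ) := Real.sqrt_pos.2 (by exact_mod_cast (mem_Icc.1 (hs hn)).1)
      have h2 : ((√(n : ℝ) : ℝ) : ℂ) ≠ 0 := by exact_mod_cast h1.ne'
      have h3 : ((√(L : ℝ) : ℝ) : ℂ) ≠ 0 := by exact_mod_cast hL0.ne'
      beta_reduce
      rw [if_pos hn, pw_add, hf]
      push_cast
      field_simp
    rw [e, norm_div, Complex.norm_real, Real.norm_of_nonneg hL0.le]

lemma schur_Hal (W : Finset ℤ) (a : ℤ → ℝ) (κ : ℤ → ℤ → ℝ) (R : ℝ) (hs : ∀ s t, κ s t = κ t s)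
    (h0 : ∀ s t, 0 ≤ κ s t) (hR : ∀ s ∈ W, ∑ t ∈ W, κ s t ≤ R) :
    ∑ s ∈ W, ∑ t ∈ W, a s * a t * κ s t ≤ R * ∑ s ∈ W, a s ^ 2 := by
  have h1 : ∑ s ∈ W, ∑ t ∈ W, a s ^ 2 * κ s t ≤ R * ∑ s ∈ W, a s ^ 2 := by
    rw [mul_sum]
    refine sum_le_sum fun s hs => ?_
    rw [← mul_sum, mul_comm]
    exact mul_le_mul_of_nonneg_right (hR s hs) (sq_nonneg _)
  have h2 : ∑ s ∈ W, ∑ t ∈ W, a t ^ 2 * κ s t = ∑ s ∈ W, ∑ t ∈ W, a s ^ 2 * κ s t := by
    rw [sum_comm]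
    exact sum_congr rfl fun s _ => sum_congr rfl fun t _ => by rw [hs]
  have h3 : 2 * ∑ s ∈ W, ∑ t ∈ W, a s * a t * κ s t ≤
      ∑ s ∈ W, ∑ t ∈ W, a s ^ 2 * κ s t + ∑ s ∈ W, ∑ t ∈ W, a t ^ 2 * κ s t := by
    rw [mul_sum, ← sum_add_distrib]
    refine sum_le_sum fun s _ => ?_
    rw [mul_sum, ← sum_add_distrib]
    refine sum_le_sum fun t _ => ?_
    nlinarith [mul_nonneg (sq_nonneg (a s - a t)) (h0 s t)]
  linarith

/-- the duality bound -/
lemma sq_Hal {N : ℕ} (hN : 1 ≤ N) (S : Finset ℤ) {c : ℕ → ℝ} (hc : ∀ n, |c n| ≤ 1) (u : ℝ)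
    (κ : ℤ → ℤ → ℝ) (R : ℝ) (hR0 : 0 ≤ R) (hs : ∀ s t, κ s t = κ t s) (h0 : ∀ s t, 0 ≤ κ s t)
    (hR : ∀ s ∈ S, ∑ t ∈ S, κ s t ≤ R)
    (hκ : ∀ s ∈ S, ∀ t ∈ S, 1 + ‖Z.ES N (2 * N) ((s : ℝ) - t)‖ ≤ κ s t) :
    ∑ m ∈ S, ‖BP N c (u + m)‖ ^ 2 ≤ 2 * N * R := by
  have key := Z.dual_Hal (Icc N (2 * N)) S (fun n => (c n : ℂ))
    (fun s n => ((‖BP N c (u + s)‖ : ℝ) : ℂ) * pw (n : ℝ) (u + s))
    (fun s t => ‖BP N c (u + s)‖ * ‖BP N c (u + t)‖ * κ s t) fun s hs t ht => by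
      have e : ∑ n ∈ Icc N (2 * N), ((‖BP N c (u + s)‖ : ℝ) : ℂ) * pw (n : ℝ) (u + s) *
          (starRingEnd ℂ) (((‖BP N c (u + t)‖ : ℝ) : ℂ) * pw (n : ℝ) (u + t)) =
          ((‖BP N c (u + s)‖ * ‖BP N c (u + t)‖ : ℝ) : ℂ) * ∑ n ∈ Icc N (2 * N),
            pw (n : ℝ) (u + s) * (starRingEnd ℂ) (pw (n : ℝ) (u + t)) := by
        rw [mul_sum]
        refine sum_congr rfl fun n _ => ?_
        rw [map_mul, Complex.conj_ofReal]
        push_cast
        ring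
      rw [e, norm_mul, Complex.norm_real, Real.norm_of_nonneg (by positivity)]
      refine mul_le_mul_of_nonneg_left ((Z.inner_PTop hN _ _).trans ?_) (by positivity)
      rw [add_sub_add_left_eq_sub]
      exact hκ s hs t ht
  have e : ∑ s ∈ S, ‖∑ n ∈ Icc N (2 * N),
      (c n : ℂ) * (((‖BP N c (u + s)‖ : ℝ) : ℂ) * pw (n : ℝ) (u + s))‖ =
      ∑ m ∈ S, ‖BP N c (u + m)‖ ^ 2 := by
    refine sum_congr rfl fun s _ => ?_
    have e1 : ∑ n ∈ Icc N (2 * N),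
        (c n : ℂ) * (((‖BP N c (u + s)‖ : ℝ) : ℂ) * pw (n : ℝ) (u + s)) =
        ((‖BP N c (u + s)‖ : ℝ) : ℂ) * BP N c (u + s) := by
      rw [show ((‖BP N c (u + s)‖ : ℝ) : ℂ) * BP N c (u + s) = ((‖BP N c (u + s)‖ : ℝ) : ℂ) *
        ∑ n ∈ Icc N (2 * N), (c n : ℂ) * pw (n : ℝ) (u + s) from rfl, mul_sum]
      exact sum_congr rfl fun n _ => mul_left_comm _ _ _
    rw [e1, norm_mul, Complex.norm_real, norm_norm, sq]
  have a2 : ∑ n ∈ Icc N (2 * N), ‖(c n : ℂ)‖ ^ 2 ≤ 2 * (N : ℝ) := by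
    refine (sum_le_card_nsmul _ _ 1 fun n _ => pow_le_one₀ (norm_nonneg _) ?_).trans ?_
    · rw [Complex.norm_real]
      exact hc n
    · rw [nsmul_eq_mul, mul_one]
      exact card_blk_le hN
  have a3 := schur_Hal S (fun s => ‖BP N c (u + s)‖) κ R hs h0 hR
  rw [e] at key
  have a0 : 0 ≤ ∑ m ∈ S, ‖BP N c (u + m)‖ ^ 2 := sum_nonneg fun _ _ => sq_nonneg _
  have a4 := key.trans (mul_le_mul a2 a3 (sum_nonneg fun s _ => sum_nonneg fun t _ =>
    mul_nonneg (by positivity) (h0 s t)) (by positivity))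
  generalize ∑ m ∈ S, ‖BP N c (u + m)‖ ^ 2 = X at a0 a4
  rcases a0.eq_or_lt with h | h
  · rw [← h]
    positivity
  · refine le_of_mul_le_mul_right ?_ h
    calc X * X = X ^ 2 := (sq X).symm
      _ ≤ _ := a4
      _ = _ := by ring

theorem hal_stmt (hK : Z.KerStmt) : HalStmt := by
  intro c₀ hc₀
  obtain ⟨C0, δ, hC0, hδ, hδ1, hK⟩ := hK (⌈1 / c₀⌉₊ + 1) (by omega)
  refine ⟨c₀ * δ, 120 + 2 * (1 + C0), by positivity, by positivity, ?_⟩
  filter_upwards [eventually_ge_atTop (2 : ℝ), ev_le_log 1] with x hx hl N T c u S hN hT hS hcard hc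
  have hx1 : (1 : ℝ) ≤ x := by linarith
  have hx0 : (0 : ℝ) ≤ x := by linarith
  have hN1 : (1 : ℝ) ≤ N := (Real.one_le_rpow hx1 hc₀.le).trans hN
  have hN' : 1 ≤ N := by exact_mod_cast hN1
  have hN0 : (0 : ℝ) < N := by linarith
  have hP : 1 ≤ (N : ℝ) ^ (1 - δ) := Real.one_le_rpow hN1 (by linarith)
  have hW : ∀ s ∈ S, 0 ≤ s ∧ s ≤ T := fun s hs => mem_Icc.1 (hS hs)
  have hxk : x ≤ (N : ℝ) ^ (⌈1 / c₀⌉₊ + 1) := by
    have h1 : 1 ≤ c₀ * ((⌈1 / c₀⌉₊ + 1 : ℕ) : ℝ) := by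
      have h2 := Nat.le_ceil (1 / c₀)
      rw [div_le_iff₀ hc₀] at h2
      push_cast
      nlinarith
    calc x = x ^ (1 : ℝ) := (Real.rpow_one x).symm
      _ ≤ x ^ (c₀ * ((⌈1 / c₀⌉₊ + 1 : ℕ) : ℝ)) := Real.rpow_le_rpow_of_exponent_le hx1 h1
      _ = (x ^ c₀) ^ (⌈1 / c₀⌉₊ + 1) := by rw [Real.rpow_mul hx0, Real.rpow_natCast]
      _ ≤ _ := pow_le_pow_left₀ (by positivity) hN _
  have hc2 : (S.card : ℝ) * (N : ℝ) ^ (1 - δ) ≤ N := by
    have h1 : (S.card : ℝ) ≤ (N : ℝ) ^ δ := by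
      refine hcard.trans ?_
      rw [Real.rpow_mul hx0]
      exact Real.rpow_le_rpow (by positivity) hN hδ.le
    calc _ ≤ (N : ℝ) ^ δ * (N : ℝ) ^ (1 - δ) := mul_le_mul_of_nonneg_right h1 (by positivity)
      _ = N := by rw [← Real.rpow_add hN0, add_sub_cancel, Real.rpow_one]
  have hlog : Real.log (T + 2) ≤ 2 * Real.log x := by
    have h1 : (0 : ℝ) ≤ T := Nat.cast_nonneg T
    calc _ ≤ Real.log (x ^ 2) := Real.log_le_log (by linarith) (by nlinarith)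
      _ = _ := by rw [Real.log_pow]; norm_num
  have key := sq_Hal hN' S hc u
    (fun s t => 5 * N * (1 / (1 + |(s : ℝ) - t|)) + (1 + C0) * (N : ℝ) ^ (1 - δ))
    ((60 + (1 + C0)) * N * Real.log x) (by positivity) (fun s t => by rw [abs_sub_comm])
    (fun s t => by positivity) (fun s hs => by
      rw [sum_add_distrib, sum_const, nsmul_eq_mul, ← mul_sum, mul_left_comm]
      have h1 := mul_le_mul_of_nonneg_left ((Z.sum_PTop S T hW hs).trans
        (mul_le_mul_of_nonneg_left hlog (by norm_num))) (show (0 : ℝ) ≤ 5 * N by positivity)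
      have h2 := mul_le_mul_of_nonneg_left (hc2.trans (le_mul_of_one_le_right hN0.le hl))
        (show (0 : ℝ) ≤ 1 + C0 by positivity)
      linarith) fun s hs t ht => by
      have h1 := hW s hs
      have h2 := hW t ht
      have h3 : |s - t| ≤ (T : ℤ) := abs_le.2 ⟨by omega, by omega⟩
      have h4 : |(s : ℝ) - t| ≤ T := by exact_mod_cast h3
      have h5 := hK N (2 * N) ((s : ℝ) - t) hN' (by omega) le_rfl (h4.trans (hT.trans hxk))
      rw [mul_one_div]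
      linarith
  refine key.trans (le_of_eq ?_)
  ring

end Pool.Agent.MP_c853c5_nt.E

end

section

set_option autoImplicit false
open Finset Filter
namespace Pool.Agent.MP_c853c5_nt.E
open Pool.Agent.MP_2a1f0e_nt Pool.Agent.MP_2a1f0e_nt.GM Pool.Agent.MP_2a1f0e_nt.DH

lemma fib_Lev {κ : Type} [DecidableEq κ] (I : Finset κ) (T : Finset ℤ) (g : ℤ → κ) (f : ℤ → ℝ)
    {B : ℝ} (hB : 0 ≤ B) (hm : ∀ t ∈ T, g t ∈ I)
    (h : ∀ t₀ ∈ T, ∑ t ∈ T.filter (fun t => g t = g t₀), f t ≤ B) :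
    ∑ t ∈ T, f t ≤ (I.card + 1) * B := by
  rw [← sum_fiberwise_of_maps_to hm]
  refine (sum_le_card_nsmul _ _ B fun i _ => ?_).trans (by rw [nsmul_eq_mul]; linarith)
  rcases (T.filter fun t => g t = i).eq_empty_or_nonempty with e | ⟨t₀, ht⟩
  · rw [e, sum_empty]
    exact hB
  · obtain ⟨h1, rfl⟩ := mem_filter.1 ht
    exact h t₀ h1

lemma prod_Lev {ι : Type} [Fintype ι] {x : ℝ} (hx : 1 < x) (f w : ι → ℝ) (h0 : ∀ j, 0 ≤ f j)
    (h : ∀ j, f j ≤ x ^ w j) : ∏ j, f j ≤ x ^ ∑ j, w j := by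
  rw [Real.rpow_sum_of_pos (by linarith)]
  exact prod_le_prod (fun j _ => h0 j) fun j _ => h j

lemma idx_Lev {x ε y u : ℝ} (hx : 1 < x) (hε : 0 < ε) (hy : 0 < y) (hu : y ≤ x ^ (u + ε)) :
    x ^ (ε * (⌊Real.logb x y / ε⌋ - 1)) ≤ y ∧ y ≤ x ^ (ε * (⌊Real.logb x y / ε⌋ - 1) + 2 * ε) ∧
      ε * (⌊Real.logb x y / ε⌋ - 1) ≤ u := by
  have h1 := (le_div_iff₀ hε).1 (Int.floor_le (Real.logb x y / ε))
  have h2 := (div_lt_iff₀ hε).1 (Int.lt_floor_add_one (Real.logb x y / ε))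
  have h3 := (Real.logb_le_iff_le_rpow hx hy).2 hu
  exact ⟨(Real.le_logb_iff_rpow_le hx hy).1 (by linarith),
    (Real.logb_le_iff_le_rpow hx hy).1 (by linarith), by linarith⟩

theorem lev_stmt : LevStmt := by
  classical
  intro ι _ ε hε hε1
  obtain ⟨D, hD⟩ : ∃ D : ℝ, D = 2 * Fintype.card ι + 2 := ⟨_, rfl⟩
  obtain ⟨I, hI⟩ : ∃ I : Finset (ι → ℤ),
    I = Fintype.piFinset fun _ => Icc ⌊-D / ε⌋ ⌊2 / ε⌋ := ⟨_, rfl⟩
  refine ⟨I.card + 1, by positivity, fun x τ η s ρ u S φ G hx hτ hη hρ hu hS hφ hG hE => ?_⟩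
  have hx0 : 0 < x := by linarith
  obtain ⟨g, hg⟩ : ∃ g : ℤ → ι → ℤ, g = fun t j => ⌊Real.logb x (φ j t) / ε⌋ := ⟨_, rfl⟩
  obtain ⟨H, hH⟩ : ∃ H : Finset ℤ, H = S.filter fun t => ∀ j, x ^ (-D) ≤ φ j t := ⟨_, rfl⟩
  have hHS : H ⊆ S := hH ▸ filter_subset _ _
  have h2 : ∀ j, ∀ t ∈ S, φ j t ≤ x ^ (2 : ℝ) := fun j t ht =>
    (hφ j t ht).2.trans (Real.rpow_le_rpow_of_exponent_le hx.le (by linarith [hu j]))
  have hlow : ∀ j, ∀ t ∈ H, x ^ (-D) ≤ φ j t := fun j t ht => by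
    rw [hH] at ht
    exact (mem_filter.1 ht).2 j
  have hpos : ∀ j, ∀ t ∈ H, 0 < φ j t := fun j t ht =>
    (Real.rpow_pos_of_pos hx0 _).trans_le (hlow j t ht)
  have hm : ∀ t ∈ H, g t ∈ I := fun t ht => by
    rw [hI, hg, Fintype.mem_piFinset]
    intro j
    refine mem_Icc.2 ⟨Int.floor_le_floor ?_, Int.floor_le_floor ?_⟩
    · exact div_le_div_of_nonneg_right
        ((Real.le_logb_iff_rpow_le hx (hpos j t ht)).2 (hlow j t ht)) hε.le
    · exact div_le_div_of_nonneg_right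
        ((Real.logb_le_iff_le_rpow hx (hpos j t ht)).2 (h2 j t (hHS ht))) hε.le
  obtain ⟨S₀, hS₀⟩ : ∃ S₀ : Finset ℤ, S₀ = H.filter fun t₀ =>
    ((H.filter fun t => g t = g t₀).card : ℝ) < x ^ (ρ + ε) := ⟨_, rfl⟩
  have h0 : S₀ ⊆ H := hS₀ ▸ filter_subset _ _
  refine ⟨S₀, h0.trans hHS, ?_, ?_⟩
  · have := fib_Lev I S₀ g (fun _ => 1) (B := x ^ (ρ + ε)) (by positivity)
      (fun t ht => hm t (h0 ht)) fun t₀ ht₀ => by
        rw [sum_const, nsmul_eq_mul, mul_one]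
        have a1 := card_le_card (filter_subset_filter (fun t => g t = g t₀) h0)
        rw [hS₀] at ht₀
        exact le_trans (by exact_mod_cast a1) (mem_filter.1 ht₀).2.le
    rwa [sum_const, nsmul_eq_mul, mul_one] at this
  rw [← sum_filter_add_sum_filter_not (S \ S₀) fun t => t ∈ H]
  refine add_le_add (fib_Lev I _ g _ (by positivity) (fun t ht => hm t (mem_filter.1 ht).2)
    fun t₀ ht₀ => ?_) ?_
  · obtain ⟨b1, b2⟩ := mem_filter.1 ht₀
    obtain ⟨W, hW⟩ : ∃ W : Finset ℤ, W = H.filter fun t => g t = g t₀ := ⟨_, rfl⟩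
    have b3 : x ^ (ρ + ε) ≤ W.card := by
      by_contra hc
      exact (mem_sdiff.1 b1).2 (by rw [hS₀]; exact mem_filter.2 ⟨b2, hW ▸ not_le.1 hc⟩)
    have b4 : (0 : ℝ) < W.card := (Real.rpow_pos_of_pos hx0 _).trans_le b3
    have hWH : W ⊆ H := hW ▸ filter_subset _ _
    have b5 : ∀ j, ∀ t ∈ W, x ^ (ε * (g t₀ j - 1)) ≤ φ j t ∧
        φ j t ≤ x ^ (ε * (g t₀ j - 1) + 2 * ε) ∧ ε * (g t₀ j - 1) ≤ u j := fun j t ht => by
      have e : g t = g t₀ := by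
        rw [hW] at ht
        exact (mem_filter.1 ht).2
      rw [← e, hg]
      exact idx_Lev hx hε (hpos j t (hWH ht)) (hφ j t (hHS (hWH ht))).2
    have b6 : t₀ ∈ W := by
      rw [hW]
      exact mem_filter.2 ⟨b2, rfl⟩
    obtain ⟨r, hr⟩ : ∃ r : ℝ, r = Real.logb x W.card - ε := ⟨_, rfl⟩
    have b7 : x ^ (r + ε) = W.card := by
      rw [hr, sub_add_cancel, Real.rpow_logb hx0 hx.ne' b4]
    have b8 : ρ ≤ r := by
      have := (Real.le_logb_iff_rpow_le hx b4).2 b3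
      linarith
    have b9 : r ≤ τ := by
      have a1 : (W.card : ℝ) ≤ S.card := by exact_mod_cast card_le_card (hWH.trans hHS)
      have := (Real.logb_le_iff_le_rpow hx b4).2 (a1.trans hS)
      linarith
    have c1 := hE r _ (hρ.trans b8) b9 (fun j => (b5 j t₀ b6).2.2)
      (hG W r _ (hWH.trans hHS) (fun j t ht => (b5 j t ht).1) b7.le)
    have c2 : (((S \ S₀).filter fun t => t ∈ H).filter fun t => g t = g t₀) ⊆ W := by
      rw [hW]
      exact filter_subset_filter _ fun t ht => (mem_filter.1 ht).2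
    refine (sum_le_sum_of_subset_of_nonneg c2 fun t ht _ =>
      prod_nonneg fun j _ => (hpos j t (hWH ht)).le).trans ?_
    refine (sum_le_card_nsmul _ _ _ fun t ht => prod_Lev hx _ _
      (fun j => (hpos j t (hWH ht)).le) fun j => (b5 j t ht).2.1).trans ?_
    rw [nsmul_eq_mul, ← b7, ← Real.rpow_add hx0, sum_add_distrib, sum_const, card_univ,
      nsmul_eq_mul]
    refine Real.rpow_le_rpow_of_exponent_le hx.le ?_
    nlinarith [mul_le_mul_of_nonneg_left b8 hη]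
  · refine (sum_le_card_nsmul _ _ (x ^ (-2 : ℝ)) fun t ht => ?_).trans ?_
    · obtain ⟨b1, b2⟩ := mem_filter.1 ht
      have b3 := (mem_sdiff.1 b1).1
      rw [hH, mem_filter, not_and, not_forall] at b2
      obtain ⟨i, hi⟩ := b2 b3
      refine (prod_Lev hx _ (fun j => 2 + if j = i then -D else 0) (fun j => (hφ j t b3).1)
        fun j => ?_).trans (le_of_eq ?_)
      · split_ifs with e
        · rw [e]
          exact (not_le.1 hi).le.trans (Real.rpow_le_rpow_of_exponent_le hx.le (by linarith))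
        · rw [add_zero]
          exact h2 j t b3
      · rw [sum_add_distrib, sum_const, card_univ, nsmul_eq_mul, sum_ite_eq', if_pos (mem_univ _),
          hD]
        congr 1
        ring
    · have a1 : ((((S \ S₀).filter fun t => t ∉ H).card : ℕ) : ℝ) ≤ S.card := by
        exact_mod_cast card_le_card ((filter_subset _ _).trans sdiff_subset)
      rw [nsmul_eq_mul]
      refine (mul_le_mul_of_nonneg_right (a1.trans hS) (by positivity)).trans ?_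
      rw [← Real.rpow_add hx0]
      exact Real.rpow_le_one_of_one_le_of_nonpos hx.le (by linarith)

end Pool.Agent.MP_c853c5_nt.E

end

section

set_option autoImplicit false

open Finset Filter

namespace Pool.Agent.MP_c853c5_nt.E

open Pool.Agent.MP_2a1f0e_nt Pool.Agent.MP_2a1f0e_nt.GM Pool.Agent.MP_2a1f0e_nt.DH

lemma coef_le_Prod {L : ℕ} {c : ℕ → ℂ} (hc : ∀ n, ‖c n‖ ≤ 1) :
    ∀ l ∈ Icc 1 L, ‖(hf (l : ℝ) : ℂ) * c l‖ ≤ 1 * hf l := fun l _ => by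
  rw [norm_mul, one_mul, Complex.norm_real, Real.norm_of_nonneg (hf_nonneg _)]
  exact mul_le_of_le_one_right (hf_nonneg _) (hc l)

theorem mul_stmt : MulStmt := by
  intro L L' Δ c c' hD hc hc'
  have hΔ : 0 < Δ := zero_lt_one.trans_le hD.1
  obtain ⟨d, h1, h2⟩ := prod_PowZ (A := L) (B := L') le_rfl hD zero_le_one zero_le_one
    (coef_le_Prod hc) (coef_le_Prod hc')
  have hp : ∀ l ∈ Icc 1 (L * L'), 0 < hf (l : ℝ) := fun l hl =>
    hf_pos (by exact_mod_cast (mem_Icc.1 hl).1)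
  refine ⟨fun l => if l ∈ Icc 1 (L * L') then d l / ((Δ * hf (l : ℝ) : ℝ) : ℂ) else 0,
    fun l => ?_, fun t => ?_⟩
  · beta_reduce
    split_ifs with hl
    · have h3 := mul_pos hΔ (hp l hl)
      rw [norm_div, Complex.norm_real, Real.norm_of_nonneg h3.le, div_le_one h3]
      simpa using h1 l hl
    · simp
  · unfold NP
    rw [h2, ← PP_smul]
    unfold PP
    refine sum_congr rfl fun l hl => ?_
    have h3 : (Δ : ℂ) ≠ 0 := Complex.ofReal_ne_zero.2 hΔ.ne'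
    have h4 : (hf (l : ℝ) : ℂ) ≠ 0 := Complex.ofReal_ne_zero.2 (hp l hl).ne'
    beta_reduce
    rw [if_pos hl, Complex.ofReal_mul]
    field_simp

lemma pow_Prod (h : MulStmt) {L₀ L : ℕ} (hL : 1 ≤ L) {Δ : ℝ} {c₀ c : ℕ → ℂ}
    (hc₀ : ∀ n, ‖c₀ n‖ ≤ 1) (hc : ∀ n, ‖c n‖ ≤ 1) (m : ℕ) (hD : DivB (L₀ * L ^ m) Δ) :
    ∃ d : ℕ → ℂ, (∀ n, ‖d n‖ ≤ 1) ∧
      ∀ t : ℝ, NP L₀ c₀ t * NP L c t ^ m = (Δ : ℂ) ^ m * NP (L₀ * L ^ m) d t := by
  induction m with
  | zero => exact ⟨c₀, hc₀, fun t => by simp⟩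
  | succ m ih =>
    obtain ⟨d, h1, h2⟩ := ih (DivB_mono hD
      (Nat.mul_le_mul_left _ (Nat.pow_le_pow_right hL (Nat.le_succ m))))
    have e : L₀ * L ^ (m + 1) = L₀ * L ^ m * L := by ring
    rw [e] at hD ⊢
    obtain ⟨d', h3, h4⟩ := h _ _ Δ d c hD h1 hc
    refine ⟨d', h3, fun t => ?_⟩
    rw [pow_succ, ← mul_assoc, h2, mul_assoc, h4]
    ring

lemma ind_Prod (h : MulStmt) {ι : Type} {S : Finset ℤ} {φ : ι → ℤ → ℝ} {L κ : ι → ℕ}
    {Δ Δ' : ℝ} (hL : ∀ j, 1 ≤ L j) (hΔ : 0 ≤ Δ) (hφ : ∀ j, ∀ t ∈ S, 0 ≤ φ j t)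
    (hd : ∀ j, Dom S (φ j) (L j) Δ) (A : Finset ι) :
    DivB (∏ j ∈ A, L j ^ κ j) Δ' → ∀ w : ℤ → ℝ, (∀ t ∈ S, 0 ≤ w t) →
      ∃ c : ℕ → ℂ, (∀ n, ‖c n‖ ≤ 1) ∧ ∑ t ∈ S, w t * ∏ j ∈ A, φ j t ^ κ j ≤
        (Δ * Δ') ^ (∑ j ∈ A, κ j) * ∑ t ∈ S, w t * ‖NP (∏ j ∈ A, L j ^ κ j) c t‖ := by
  classical
  induction A using Finset.induction_on with
  | empty =>
    intro _ w _
    refine ⟨fun n => if n = 1 then 1 else 0, fun n => ?_, ?_⟩
    · beta_reduce
      split_ifs <;> simp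
    · simp only [prod_empty, sum_empty, pow_zero, one_mul, NP_one le_rfl, norm_one, le_refl]
  | insert j A hj ih =>
    intro hD w hw
    rw [prod_insert hj, mul_comm] at hD
    have hΔ' : 0 ≤ Δ' := zero_le_one.trans hD.1
    obtain ⟨d, h1, h2⟩ := ih (DivB_mono hD (Nat.le_mul_of_pos_right _ (pow_pos (hL j) _)))
      (fun t => w t * φ j t ^ κ j) fun t ht => mul_nonneg (hw t ht) (pow_nonneg (hφ j t ht) _)
    obtain ⟨c, h3, h4⟩ := hd j (fun t => w t * ‖NP (∏ j ∈ A, L j ^ κ j) d t‖) (κ j)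
      fun t ht => mul_nonneg (hw t ht) (norm_nonneg _)
    obtain ⟨d', h5, h6⟩ := pow_Prod h (hL j) h1 h3 (κ j) hD
    refine ⟨d', h5, ?_⟩
    simp only [prod_insert hj, sum_insert hj]
    rw [mul_comm (L j ^ κ j)]
    have h7 : ∑ t ∈ S, w t * ‖NP (∏ j ∈ A, L j ^ κ j) d t‖ * ‖NP (L j) c t‖ ^ κ j =
        Δ' ^ κ j * ∑ t ∈ S, w t * ‖NP ((∏ j ∈ A, L j ^ κ j) * L j ^ κ j) d' t‖ := by
      rw [mul_sum]
      refine sum_congr rfl fun t _ => ?_
      rw [mul_assoc, ← norm_pow, ← norm_mul, h6, norm_mul, norm_pow, Complex.norm_real,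
        Real.norm_of_nonneg hΔ']
      ring
    rw [h7] at h4
    calc ∑ t ∈ S, w t * (φ j t ^ κ j * ∏ j ∈ A, φ j t ^ κ j)
        = ∑ t ∈ S, w t * φ j t ^ κ j * ∏ j ∈ A, φ j t ^ κ j :=
          sum_congr rfl fun t _ => (mul_assoc _ _ _).symm
      _ ≤ (Δ * Δ') ^ (∑ j ∈ A, κ j) *
          ∑ t ∈ S, w t * ‖NP (∏ j ∈ A, L j ^ κ j) d t‖ * φ j t ^ κ j :=
          h2.trans_eq (congrArg _ (sum_congr rfl fun t _ => mul_right_comm _ _ _))
      _ ≤ (Δ * Δ') ^ (∑ j ∈ A, κ j) * (Δ ^ κ j * (Δ' ^ κ j *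
          ∑ t ∈ S, w t * ‖NP ((∏ j ∈ A, L j ^ κ j) * L j ^ κ j) d' t‖)) :=
          mul_le_mul_of_nonneg_left h4 (by positivity)
      _ = _ := by
          rw [pow_add, mul_pow Δ Δ' (κ j)]
          ring

theorem prod_stmt (h : MulStmt) : ProdStmt := by
  intro ι _ S W φ L κ Δ Δ' hW hL hΔ hφ hd hD
  obtain ⟨c, h1, h2⟩ := ind_Prod h hL hΔ hφ hd univ hD (fun t => if t ∈ W then 1 else 0)
    fun t _ => by split_ifs <;> norm_num
  refine ⟨c, h1, ?_⟩
  simp only [ite_mul, one_mul, zero_mul, sum_ite_mem, inter_eq_right.2 hW] at h2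
  exact h2

end Pool.Agent.MP_c853c5_nt.E

end

section

set_option autoImplicit false

open Finset Filter

namespace Pool.Agent.MP_c853c5_nt.E

open Pool.Agent.MP_2a1f0e_nt Pool.Agent.MP_2a1f0e_nt.GM Pool.Agent.MP_2a1f0e_nt.DH

/-- dyadic decomposition -/
lemma dec_Slv (L : ℕ) {c : ℕ → ℂ} (hc : ∀ n, ‖c n‖ ≤ 1) :
    ∃ b : ℕ → ℕ → ℂ, (∀ i n, ‖b i n‖ ≤ 1) ∧ ∀ t : ℝ, NP L c t =
      ∑ i ∈ range (Nat.log 2 L + 1), (hf ((2 ^ i : ℕ) : ℝ) : ℂ) * DP (2 ^ i) (b i) t := by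
  have hp : ∀ i : ℕ, 0 < hf ((2 ^ i : ℕ) : ℝ) := fun i => hf_pos (by positivity)
  refine ⟨fun i n => if n ∈ Icc 1 L ∧ Nat.log 2 n = i then
    ((hf (n : ℝ) / hf ((2 ^ i : ℕ) : ℝ) : ℝ) : ℂ) * c n else 0, fun i n => ?_, fun t => ?_⟩
  · dsimp only
    split_ifs with h
    · rw [norm_mul, Complex.norm_real, Real.norm_of_nonneg (div_nonneg (hf_nonneg _) (hp i).le)]
      refine mul_le_one₀ ((div_le_one (hp i)).2 (hf_anti (by positivity) ?_)) (norm_nonneg _) (hc n)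
      have h1 := (mem_Icc.1 h.1).1
      rw [← h.2]
      exact_mod_cast Nat.pow_log_le_self 2 (by omega : n ≠ 0)
    · simp
  · unfold NP PP DP
    rw [← sum_fiberwise_of_maps_to (s := Icc 1 L) (t := range (Nat.log 2 L + 1))
      (g := Nat.log 2) fun n hn => mem_range.2
        (Nat.lt_succ_of_le (Nat.log_mono_right (mem_Icc.1 hn).2))]
    refine sum_congr rfl fun i _ => ?_
    have e : (Icc 1 L).filter (fun n => Nat.log 2 n = i) =
        (Icc (2 ^ i) (2 * 2 ^ i)).filter fun n => n ∈ Icc 1 L ∧ Nat.log 2 n = i := by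
      ext n
      simp only [mem_filter]
      refine ⟨fun h => ⟨?_, h⟩, fun h => h.2⟩
      have h1 := (mem_Icc.1 h.1).1
      have h2 := Nat.pow_log_le_self 2 (by omega : n ≠ 0)
      have h3 := Nat.lt_pow_succ_log_self (by norm_num : 1 < 2) n
      rw [h.2] at h2 h3
      rw [pow_succ] at h3
      exact mem_Icc.2 ⟨h2, by omega⟩
    rw [e, sum_filter, mul_sum]
    refine sum_congr rfl fun n _ => ?_
    beta_reduce
    split_ifs with h
    · have h0 : (hf ((2 ^ i : ℕ) : ℝ) : ℂ) ≠ 0 := Complex.ofReal_ne_zero.2 (hp i).ne'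
      rw [Complex.ofReal_div]
      field_simp
    · simp

/-- a large value of the sum is a large value of a block -/
lemma lev_Slv {I T : ℕ} (hI : 0 < I) (b : ℕ → ℕ → ℂ) (F : ℝ → ℂ)
    (hF : ∀ t : ℝ, F t = ∑ i ∈ range I, (hf ((2 ^ i : ℕ) : ℝ) : ℂ) * DP (2 ^ i) (b i) t)
    {W : Finset ℤ} (hW : W ⊆ Icc 0 (T : ℤ)) (U : ℝ) :
    (W.filter fun t : ℤ => U ≤ ‖F t‖).card ≤
      ∑ i ∈ range I, DH.cnt (2 ^ i) (b i) T (√((2 ^ i : ℕ) : ℝ) * (U / I)) := by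
  refine le_trans (card_le_card fun t ht => ?_) card_biUnion_le
  rw [mem_filter] at ht
  have h0 : (I : ℝ) ≠ 0 := by positivity
  have h1 : ∑ _i ∈ range I, U / I ≤
      ∑ i ∈ range I, hf ((2 ^ i : ℕ) : ℝ) * ‖DP (2 ^ i) (b i) t‖ := by
    rw [sum_const, card_range, nsmul_eq_mul, mul_div_cancel₀ _ h0]
    refine ht.2.trans ?_
    rw [hF]
    refine (norm_sum_le _ _).trans (sum_le_sum fun i _ => ?_)
    rw [norm_mul, Complex.norm_real, Real.norm_of_nonneg (hf_nonneg _)]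
  obtain ⟨i, hi, h2⟩ := exists_le_of_sum_le (nonempty_range_iff.2 hI.ne') h1
  refine mem_biUnion.2 ⟨i, hi, mem_filter.2 ⟨hW ht.1, ?_⟩⟩
  have h3 : 0 < √((2 ^ i : ℕ) : ℝ) := Real.sqrt_pos.2 (by positivity)
  rw [hf, one_div, ← div_eq_inv_mul, le_div_iff₀ h3] at h2
  rwa [mul_comm]

lemma min_Slv (y : ℝ) {a : ℝ} (J : ℕ) :
    min y (2 ^ J * a) ≤ a + ∑ j ∈ range J, if 2 ^ j * a ≤ y then 2 ^ j * a else 0 := by
  induction J with
  | zero => simp
  | succ J ih =>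
    rw [sum_range_succ]
    split_ifs with h
    · rw [min_eq_right h] at ih
      have := min_le_right y (2 ^ (J + 1) * a)
      rw [pow_succ] at this ⊢
      linarith
    · rw [min_eq_left (not_le.1 h).le] at ih
      have := min_le_left y (2 ^ (J + 1) * a)
      linarith

/-- from an average to the level sets -/
lemma cake_Slv (W : Finset ℤ) (f : ℤ → ℝ) {a M : ℝ} (ha : 0 < a) (hM : 0 ≤ M)
    (h : ∀ j : ℕ, ((W.filter fun t => 2 ^ j * a ≤ f t).card : ℝ) ≤ M / (2 ^ j) ^ 2)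
    (hW : W.card * (2 * a) ≤ ∑ t ∈ W, f t) : (W.card : ℝ) ≤ 2 * M := by
  obtain ⟨J, hJ⟩ := pow_unbounded_of_one_lt ((∑ t ∈ W, |f t|) / a) (by norm_num : (1 : ℝ) < 2)
  rw [div_lt_iff₀ ha] at hJ
  have h1 : ∑ t ∈ W, f t ≤
      ∑ t ∈ W, (a + ∑ j ∈ range J, if 2 ^ j * a ≤ f t then 2 ^ j * a else 0) :=
    sum_le_sum fun t ht => by
      have h2 := min_Slv (f t) (a := a) J
      rwa [min_eq_left ((le_abs_self _).trans
        ((single_le_sum (f := fun t => |f t|) (fun _ _ => abs_nonneg _) ht).trans hJ.le))] at h2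
  rw [sum_add_distrib, sum_comm, sum_const, nsmul_eq_mul] at h1
  have h2 : ∑ j ∈ range J, ∑ t ∈ W, (if 2 ^ j * a ≤ f t then 2 ^ j * a else 0) ≤
      ∑ j ∈ range J, M * a * (1 / 2) ^ j := sum_le_sum fun j _ => by
    rw [← sum_filter, sum_const, nsmul_eq_mul]
    refine (mul_le_mul_of_nonneg_right (h j) (by positivity)).trans_eq ?_
    rw [one_div, inv_pow]
    field_simp
  rw [← mul_sum] at h2
  have h3 := mul_le_mul_of_nonneg_left (sum_geometric_two_le J) (show 0 ≤ M * a by positivity)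
  refine le_of_mul_le_mul_right ?_ ha
  linarith

theorem slv_stmt : SlvStmt := by
  intro B hB hD ε hε
  obtain ⟨K, hK, hD⟩ := hD (ε / 2) (by positivity)
  obtain ⟨C, hC, hl⟩ := exists_log_le (show 0 < ε / 14 by positivity)
  refine ⟨128 * C ^ 7 * K, by positivity, fun L T V c W hL hT hV hc hW h => ?_⟩
  obtain ⟨b, hb, hF⟩ := dec_Slv L hc
  have hL' : (1 : ℝ) ≤ L := by exact_mod_cast hL
  have hT' : (1 : ℝ) ≤ T := by exact_mod_cast hT
  set I := Nat.log 2 L + 1 with hI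
  have hI1 : (1 : ℝ) ≤ I := by exact_mod_cast Nat.succ_pos _
  have hB0 : ∀ U : ℝ, 0 < U → 0 ≤ B L T U := fun U hU => (hB.1 L L T U hL' le_rfl hT' hU).1
  have h1 : ∀ U : ℝ, 0 < U → ((W.filter fun t : ℤ => U ≤ ‖NP L c t‖).card : ℝ) ≤
      I ^ 7 * (K * ((L : ℝ) * T) ^ (ε / 2)) * B L T U := by
    intro U hU
    have h2 := lev_Slv (Nat.succ_pos _) b (NP L c) hF hW U
    have h3 : ∑ i ∈ range I, (DH.cnt (2 ^ i) (b i) T (√((2 ^ i : ℕ) : ℝ) * (U / I)) : ℝ) ≤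
        ∑ _i ∈ range I, K * ((L : ℝ) * T) ^ (ε / 2) * (I ^ 6 * B L T U) := by
      refine sum_le_sum fun i hi => ?_
      have h4 : 2 ^ i ≤ L := (Nat.pow_le_pow_right (by norm_num)
        (Nat.lt_succ_iff.1 (mem_range.1 hi))).trans (Nat.pow_log_le_self 2 (by omega))
      have h5 : ((2 ^ i : ℕ) : ℝ) ≤ L := by exact_mod_cast h4
      have h6 : (1 : ℝ) ≤ ((2 ^ i : ℕ) : ℝ) := by exact_mod_cast Nat.one_le_two_pow
      have h7 := hB.1 _ _ T (U / I) h6 h5 hT' (by positivity)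
      refine (hD (2 ^ i) T (U / I) (b i) Nat.one_le_two_pow hT (by positivity) (hb i)).trans ?_
      refine mul_le_mul ?_ (h7.2.trans (hB.2 L T U I hL' hT' hU hI1).1) h7.1 (by positivity)
      gcongr
    rw [sum_const, card_range, nsmul_eq_mul] at h3
    refine le_trans (by exact_mod_cast h2) (h3.trans_eq (by ring))
  have h2 := cake_Slv W (fun t => ‖NP L c t‖) (a := V / 2)
    (M := I ^ 7 * (K * ((L : ℝ) * T) ^ (ε / 2)) * B L T (V / 2)) (by positivity)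
    (mul_nonneg (by positivity) (hB0 _ (by positivity))) (fun j => by
      refine (h1 _ (by positivity)).trans ?_
      rw [mul_div_assoc]
      exact mul_le_mul_of_nonneg_left (hB.2 L T (V / 2) (2 ^ j) hL' hT' (by positivity)
        (one_le_pow₀ (by norm_num))).2 (by positivity))
    (by rwa [mul_div_cancel₀ _ (two_ne_zero' ℝ)])
  have h3 := (hB.2 L T V 2 hL' hT' hV (by norm_num)).1
  have h4 : (I : ℝ) ^ 7 ≤ C ^ 7 * ((L : ℝ) * T) ^ (ε / 2) := by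
    have h5 : (I : ℝ) ≤ C * (L : ℝ) ^ (ε / 14) := by
      rw [hI]
      push_cast
      exact hl L hL
    refine (pow_le_pow_left₀ (by positivity) h5 7).trans ?_
    rw [mul_pow, ← Real.rpow_natCast ((L : ℝ) ^ (ε / 14)), ← Real.rpow_mul (by positivity),
      show ε / 14 * ((7 : ℕ) : ℝ) = ε / 2 by push_cast; ring]
    gcongr
    exact le_mul_of_one_le_right (by positivity) hT'
  have h5 : ((L : ℝ) * T) ^ ε = ((L : ℝ) * T) ^ (ε / 2) * ((L : ℝ) * T) ^ (ε / 2) := by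
    rw [← Real.rpow_add (by positivity), add_halves]
  have h6 := hB0 V hV
  have h7 := hB0 (V / 2) (by positivity)
  calc (W.card : ℝ) ≤ 2 * (I ^ 7 * (K * ((L : ℝ) * T) ^ (ε / 2)) * B L T (V / 2)) := h2
    _ ≤ 2 * (C ^ 7 * ((L : ℝ) * T) ^ (ε / 2) * (K * ((L : ℝ) * T) ^ (ε / 2)) *
        (2 ^ 6 * B L T V)) := by gcongr
    _ = _ := by rw [h5]; ring

end Pool.Agent.MP_c853c5_nt.E

end

section

set_option autoImplicit false

open Finset Filter

namespace Pool.Agent.MP_c853c5_nt.E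

open Pool.Agent.MP_2a1f0e_nt Pool.Agent.MP_2a1f0e_nt.GM Pool.Agent.MP_2a1f0e_nt.DH

lemma prod_Tb {ι : Type} [Fintype ι] [DecidableEq ι] (s : ι → Finset ℕ) (c : ι → ℕ → ℝ)
    (h0 : ∀ j, 0 ∉ s j) (t : ℝ) :
    ∏ j, FP (s j) (c j) t = ∑ n ∈ Fintype.piFinset s, ((∏ j, c j (n j) : ℝ) : ℂ) *
      Complex.exp (Complex.I * (t : ℂ) * ((Real.log ((∏ j, n j : ℕ) : ℝ) : ℝ) : ℂ)) := by
  unfold FP
  rw [prod_univ_sum]
  refine sum_congr rfl fun n hn => ?_
  have h1 : ∀ j ∈ (univ : Finset ι), ((n j : ℕ) : ℝ) ≠ 0 := fun j _ e =>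
    h0 j (Nat.cast_eq_zero.1 e ▸ Fintype.mem_piFinset.1 hn j)
  rw [prod_mul_distrib, Nat.cast_prod, Real.log_prod h1, Complex.ofReal_prod, Complex.ofReal_sum,
    mul_sum, Complex.exp_sum]
  rfl

lemma err_Tb {x τ δ Δ Δ₀ : ℝ} (hx : 1 < x) (hδ : 0 < δ) (hδ' : δ ≤ 1 / 10) (hτ : τ ≤ 1 / 2)
    (hW : Wd x τ δ Δ Δ₀) (h1 : 16 * Real.pi ≤ Real.log x)
    (h2 : Real.log x ^ 2 ≤ x ^ (1 / 2 : ℝ)) :
    Δ₀ ^ 2 * (x ^ δ) ^ 3 + Real.exp (-(Δ ^ 2 * (x ^ τ * Real.log x ^ 3) ^ 2 / (8 * Real.pi))) / Δ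
      ≤ 2 * x ^ (-δ) := by
  obtain ⟨w1, w2, w3⟩ := hW
  have x0 : 0 < x := by linarith
  have l0 : 0 < Real.log x := Real.log_pos hx
  have p0 : 0 < x ^ τ := Real.rpow_pos_of_pos x0 _
  have hπ := Real.pi_pos
  rw [Real.rpow_neg x0.le] at w1
  have d0 : 0 < Δ := lt_of_lt_of_le (by positivity) w1
  have e1 : Δ₀ ^ 2 * (x ^ δ) ^ 3 ≤ x ^ (-δ) := by
    have e : x ^ (-δ) = (x ^ (-(2 * δ))) ^ 2 * (x ^ δ) ^ 3 := by
      rw [← Real.rpow_natCast, ← Real.rpow_natCast, ← Real.rpow_mul x0.le, ← Real.rpow_mul x0.le,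
        ← Real.rpow_add x0]
      congr 1
      push_cast
      ring
    rw [e]
    exact mul_le_mul_of_nonneg_right (pow_le_pow_left₀ (d0.le.trans w2) w3 2) (by positivity)
  have e2 : Real.log x ≤ Δ * (x ^ τ * Real.log x ^ 3) := by
    refine le_trans (le_of_eq ?_) (mul_le_mul_of_nonneg_right w1 (by positivity))
    field_simp
  have e3 : 2 * Real.log x ≤ Δ ^ 2 * (x ^ τ * Real.log x ^ 3) ^ 2 / (8 * Real.pi) := by
    rw [le_div_iff₀ (by positivity), ← mul_pow]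
    have := pow_le_pow_left₀ l0.le e2 2
    nlinarith
  have e4 : Real.exp (-(Δ ^ 2 * (x ^ τ * Real.log x ^ 3) ^ 2 / (8 * Real.pi))) ≤
      x ^ (-2 : ℝ) := by
    rw [Real.rpow_def_of_pos x0 (-2)]
    exact Real.exp_le_exp.2 (by linarith)
  have e5 : x ^ (-1 : ℝ) ≤ Δ := by
    refine le_trans ?_ w1
    rw [Real.rpow_neg_one, le_div_iff₀ (by positivity), inv_mul_eq_div, div_le_iff₀ x0,
      inv_mul_eq_div, le_div_iff₀ p0]
    calc Real.log x ^ 2 * x ^ τ ≤ x ^ (1 / 2 : ℝ) * x ^ (1 / 2 : ℝ) :=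
          mul_le_mul h2 (Real.rpow_le_rpow_of_exponent_le hx.le hτ) p0.le (by positivity)
      _ = x := by rw [← Real.rpow_add x0]; norm_num
  have e6 : x ^ (-2 : ℝ) ≤ x ^ (-δ) * Δ := by
    refine le_trans ?_ (mul_le_mul_of_nonneg_left e5 (by positivity))
    rw [← Real.rpow_add x0]
    exact Real.rpow_le_rpow_of_exponent_le hx.le (by linarith)
  have e7 := (div_le_iff₀ d0).2 (e4.trans e6)
  linarith

theorem tb_stmt (h : TrStmt) : TbStmt := by
  obtain ⟨C, hC, h⟩ := h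
  intro δ hδ hδ'
  filter_upwards [eventually_gt_atTop 1, ev_le_log (16 * Real.pi), ev_le_log 1,
    ev_log_le 1 2 (show (0 : ℝ) < 1 / 2 by norm_num), ev_log_le (2 * C) 1 (half_pos hδ)]
    with x hx h1 h1' h2 h3
  intro ι _ _ τ v Δ Δ₀ B s c hτ hτ' hW h0 hc hM hB
  have x0 : 0 < x := by linarith
  have l0 : 0 < Real.log x := Real.log_pos hx
  rw [one_mul] at h2
  rw [pow_one] at h3
  have d0 : 0 < Δ := lt_of_lt_of_le (by positivity) hW.1
  have hT : x ^ δ ≤ x ^ τ * Real.log x ^ 3 :=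
    (Real.rpow_le_rpow_of_exponent_le hx.le (by linarith)).trans
      (le_mul_of_one_le_right (by positivity) (one_le_pow₀ h1'))
  have hS : ∑ n ∈ Fintype.piFinset s, |∏ j, c j (n j)| ≤ x * Real.log x := by
    refine le_trans (sum_le_card_nsmul _ _ 1 fun n _ => ?_) ?_
    · rw [abs_prod]
      exact prod_le_one (fun _ _ => abs_nonneg _) fun j _ => hc j _
    · rwa [nsmul_eq_mul, mul_one, Fintype.card_piFinset, Nat.cast_prod]
  have key := h (ι → ℕ) (Fintype.piFinset s) (fun n => ∏ j, c j (n j))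
    (fun n => Real.log ((∏ j, n j : ℕ) : ℝ)) (fun t => ∏ j, FP (s j) (c j) t) v Δ Δ₀ (x ^ δ)
    (x ^ τ * Real.log x ^ 3) (x * Real.log x) B d0 hW.2.1 (by positivity) hT hS
    (prod_Tb s c h0) (by simpa only [norm_prod] using hB)
  refine key.trans (add_le_add le_rfl ?_)
  calc _ ≤ C * (x * Real.log x) * (2 * x ^ (-δ)) :=
        mul_le_mul_of_nonneg_left (err_Tb hx hδ hδ' hτ' hW h1 h2) (by positivity)
    _ = 2 * C * Real.log x * (x ^ (1 : ℝ) * x ^ (-δ)) := by rw [Real.rpow_one]; ring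
    _ ≤ x ^ (δ / 2) * (x ^ (1 : ℝ) * x ^ (-δ)) := mul_le_mul_of_nonneg_right h3 (by positivity)
    _ = x ^ (1 - δ / 2) := by
        rw [← Real.rpow_add x0, ← Real.rpow_add x0]
        congr 1
        ring

end Pool.Agent.MP_c853c5_nt.E

end

section

/-!
Rules for the mixed moments.
-/

set_option autoImplicit false

open Finset Filter

namespace Pool.Agent.MP_c853c5_nt.R

open Pool.Agent.MP_2a1f0e_nt Pool.Agent.MP_2a1f0e_nt.GM Pool.Agent.MP_2a1f0e_nt.DH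
open Pool.Agent.MP_c853c5_nt.E MeasureTheory

variable {F G : ℝ → ℝ} {a b : ℝ} {L : ℕ} {Ω Ω' : ℝ}

lemma WB.nonneg (h : WB G a b L Ω) : 0 ≤ Ω := by
  simpa using h 0 ∅ (fun _ => 0) (by simp) (by simp)

lemma WB.weak {a' b' : ℝ} (h : WB G a b L Ω) (ha : a ≤ a') (hb : b' ≤ b) (hΩ : Ω ≤ Ω') :
    WB G a' b' L Ω' := fun u S c hc hS =>
  (h u S c hc fun m hm => ⟨ha.trans (hS m hm).1, (hS m hm).2.trans hb⟩).trans hΩ

lemma WB.mono {lam : ℝ} (h : WB G a b L Ω)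
    (hF : ∀ t, a ≤ t → t ≤ b → 0 ≤ F t ∧ F t ≤ lam * G t) : WB F a b L (lam ^ 4 * Ω) := by
  intro u S c hc hS
  refine le_trans ?_ (mul_le_mul_of_nonneg_left (h u S c hc hS) (by positivity))
  rw [mul_sum]
  refine sum_le_sum fun m hm => ?_
  obtain ⟨h1, h2⟩ := hF _ (hS m hm).1 (hS m hm).2
  rw [← mul_assoc, ← mul_pow]
  exact mul_le_mul_of_nonneg_right (pow_le_pow_left₀ h1 h2 4) (by positivity)

lemma WB.union {d : ℝ} (h : WB G a b L Ω) (h' : WB G b d L Ω') : WB G a d L (Ω + Ω') := by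
  intro u S c hc hS
  rw [← sum_filter_add_sum_filter_not S fun m : ℤ => u + m ≤ b]
  exact add_le_add
    (h u _ c hc fun m hm => ⟨(hS m (mem_filter.1 hm).1).1, (mem_filter.1 hm).2⟩)
    (h' u _ c hc fun m hm => ⟨(not_le.1 (mem_filter.1 hm).2).le, (hS m (mem_filter.1 hm).1).2⟩)

lemma WB.sum {ι : Type} (J : Finset ι) {H : ι → ℝ → ℝ} (h0 : ∀ j ∈ J, ∀ t, 0 ≤ H j t)
    (h : ∀ j ∈ J, WB (H j) a b L Ω) :
    WB (fun t => ∑ j ∈ J, H j t) a b L ((J.card : ℝ) ^ 4 * Ω) := by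
  intro u S c hc hS
  calc _ ≤ ∑ m ∈ S, ((J.card : ℝ) ^ 3 * ∑ j ∈ J, H j (u + m) ^ 4) * ‖NP L c m‖ ^ 2 :=
        sum_le_sum fun m _ => mul_le_mul_of_nonneg_right
          (pow_sum_le_card_mul_sum_pow (fun j hj => h0 j hj _) 3) (by positivity)
    _ = (J.card : ℝ) ^ 3 * ∑ j ∈ J, ∑ m ∈ S, H j (u + m) ^ 4 * ‖NP L c m‖ ^ 2 := by
        rw [sum_comm, mul_sum]
        exact sum_congr rfl fun m _ => by rw [mul_assoc, sum_mul]
    _ ≤ (J.card : ℝ) ^ 3 * (J.card • Ω) :=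
        mul_le_mul_of_nonneg_left (sum_le_card_nsmul _ _ _ fun j hj => h j hj u S c hc hS)
          (by positivity)
    _ = _ := by rw [nsmul_eq_mul]; ring

lemma WB.add (hF : ∀ t, 0 ≤ F t) (hG : ∀ t, 0 ≤ G t) (h : WB F a b L Ω) (h' : WB G a b L Ω) :
    WB (fun t => F t + G t) a b L (16 * Ω) := by
  have := WB.sum (univ : Finset Bool) (H := fun j => cond j F G)
    (fun j _ t => by cases j; exacts [hG t, hF t]) fun j _ => by cases j; exacts [h', h]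
  simp only [Fintype.sum_bool, card_univ, Fintype.card_bool, cond] at this
  norm_num at this
  exact this

lemma jen_WB {B : ℝ} (hc : Continuous G) (hG : ∀ t, 0 ≤ G t ∧ G t ≤ B) (t : ℝ) :
    Integrable (fun ξ : ℝ => kp ξ * G (t + ξ) ^ 4) ∧
    (∫ ξ : ℝ, kp ξ * G (t + ξ)) ^ 4 ≤ 1024 * ∫ ξ : ℝ, kp ξ * G (t + ξ) ^ 4 := by
  have hi : Integrable (fun ξ : ℝ => kp ξ * G (t + ξ) ^ 4) :=
    int_kp_bdd (G := fun t => G t ^ 4) (B := B ^ 4) (hc.pow 4) (fun s => by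
      rw [abs_of_nonneg (by positivity)]
      exact pow_le_pow_left₀ (hG s).1 (hG s).2 4) t
  have hi1 := int_kp_bdd hc (fun s => (abs_of_nonneg (hG s).1).trans_le (hG s).2) t
  refine ⟨hi, ?_⟩
  set I := ∫ ξ : ℝ, kp ξ * G (t + ξ) with hI
  have hI0 : 0 ≤ I := integral_nonneg fun ξ => mul_nonneg (kp_pos ξ).le (hG _).1
  have h1 : ∫ ξ : ℝ, (I / 8) ^ 3 * (kp ξ * G (t + ξ)) ≤
      ∫ ξ : ℝ, (kp ξ * (I / 8) ^ 4 + kp ξ * G (t + ξ) ^ 4) := by
    refine integral_mono (hi1.const_mul _) ((integrable_kp.mul_const _).add hi) fun ξ => ?_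
    have h0 := (hG (t + ξ)).1
    have h2 : (I / 8) ^ 3 * G (t + ξ) ≤ (I / 8) ^ 4 + G (t + ξ) ^ 4 := by
      rcases le_total (I / 8) (G (t + ξ)) with h | h
      · refine le_add_of_nonneg_of_le (by positivity) ?_
        rw [pow_succ _ 3]
        gcongr
      · refine le_add_of_le_of_nonneg ?_ (by positivity)
        rw [pow_succ _ 3]
        gcongr
    have h3 := mul_le_mul_of_nonneg_left h2 (kp_pos ξ).le
    dsimp only
    linarith
  rw [integral_const_mul, integral_add (integrable_kp.mul_const _) hi, integral_mul_const,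
    integral_kp, ← hI] at h1
  have h4 : 0 ≤ (I / 8) ^ 4 := by positivity
  have h5 : (I / 8) ^ 3 * I = 8 * (I / 8) ^ 4 := by ring
  have h6 : I ^ 4 = 4096 * (I / 8) ^ 4 := by ring
  nlinarith [Real.pi_le_four]

/-- an average of shifts -/
lemma WB.shift {B R Q : ℝ} (hc : Continuous G) (hG : ∀ t, 0 ≤ G t ∧ G t ≤ B) (hR : 0 < R)
    (hQ : B ^ 4 ≤ Q * R) (h : WB G (a - R) (b + R) L Ω) (h1 : WB (fun _ => 1) a b L Ω) :
    WB (fun t => ∫ ξ : ℝ, kp ξ * G (t + ξ)) a b L (8192 * (1 + Q) * Ω) := by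
  intro u S c hc' hS
  have hΩ := h.nonneg
  have hQ0 : 0 ≤ Q := nonneg_of_mul_nonneg_left ((by positivity : 0 ≤ B ^ 4).trans hQ) hR
  have hi : ∀ m ∈ S, Integrable fun ξ : ℝ => kp ξ * G (u + m + ξ) ^ 4 * ‖NP L c m‖ ^ 2 :=
    fun m _ => (jen_WB hc hG _).1.mul_const _
  have hk : Integrable fun ξ : ℝ => kp (ξ / R) := integrable_kp.comp_div hR.ne'
  have h2 : ∫ ξ : ℝ, ∑ m ∈ S, kp ξ * G (u + m + ξ) ^ 4 * ‖NP L c m‖ ^ 2 ≤
      ∫ ξ : ℝ, (kp ξ * Ω + kp (ξ / R) * (2 * Q / R * Ω)) := by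
    refine integral_mono (integrable_finsetSum _ hi)
      ((integrable_kp.mul_const _).add (hk.mul_const _)) fun ξ => ?_
    have k1 := kp_pos ξ
    have k2 := kp_pos (ξ / R)
    simp only [mul_assoc (kp ξ)]
    rw [← mul_sum]
    rcases le_total |ξ| R with h3 | h3
    · refine le_add_of_le_of_nonneg (mul_le_mul_of_nonneg_left ?_ k1.le) (by positivity)
      have h4 := h (u + ξ) S c hc' fun m hm => by
        constructor <;> linarith [(hS m hm).1, (hS m hm).2, (abs_le.1 h3).1, (abs_le.1 h3).2]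
      simpa only [add_right_comm u ξ] using h4
    · refine le_add_of_nonneg_of_le (by positivity) ?_
      have h4 : ∑ m ∈ S, G (u + m + ξ) ^ 4 * ‖NP L c m‖ ^ 2 ≤ Q * R * Ω := by
        refine le_trans ?_ (mul_le_mul_of_nonneg_left (h1 u S c hc' hS) (by positivity))
        rw [mul_sum]
        refine sum_le_sum fun m _ => ?_
        rw [one_pow, one_mul]
        exact mul_le_mul_of_nonneg_right
          ((pow_le_pow_left₀ (hG _).1 (hG _).2 4).trans hQ) (by positivity)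
      have h5 : kp ξ * R ^ 2 ≤ 2 * kp (ξ / R) := by
        have h6 : R ^ 2 ≤ ξ ^ 2 := by
          rw [← sq_abs ξ]
          gcongr
        rw [kp, kp, div_pow, one_add_div (by positivity), one_div_div, one_div_mul_eq_div,
          ← mul_div_assoc, div_le_div_iff₀ (by positivity) (by positivity)]
        nlinarith [mul_le_mul_of_nonneg_left h6 (sq_nonneg R), sq_nonneg R]
      calc _ ≤ kp ξ * (Q * R * Ω) := mul_le_mul_of_nonneg_left h4 k1.le
        _ = kp ξ * R ^ 2 * (Q / R * Ω) := by field_simp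
        _ ≤ 2 * kp (ξ / R) * (Q / R * Ω) := by gcongr
        _ = _ := by ring
  rw [integral_finsetSum _ hi, integral_add (integrable_kp.mul_const _) (hk.mul_const _),
    integral_mul_const, integral_mul_const, Measure.integral_comp_div kp R, integral_kp,
    abs_of_pos hR, smul_eq_mul] at h2
  have h3 : ∑ m ∈ S, (∫ ξ : ℝ, kp ξ * G (u + m + ξ)) ^ 4 * ‖NP L c m‖ ^ 2 ≤
      1024 * ∑ m ∈ S, ∫ ξ : ℝ, kp ξ * G (u + m + ξ) ^ 4 * ‖NP L c m‖ ^ 2 := by
    rw [mul_sum]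
    refine sum_le_sum fun m _ => ?_
    rw [integral_mul_const, ← mul_assoc]
    exact mul_le_mul_of_nonneg_right (jen_WB hc hG _).2 (by positivity)
  have h4 : R * Real.pi * (2 * Q / R * Ω) = Real.pi * (2 * (Q * Ω)) := by field_simp
  rw [h4] at h2
  have h5 := mul_nonneg hQ0 hΩ
  nlinarith [Real.pi_le_four, mul_le_mul_of_nonneg_right Real.pi_le_four hΩ,
    mul_le_mul_of_nonneg_right Real.pi_le_four h5]

lemma continuous_Zo (y : ℝ) : Continuous (Zo y) := continuous_PP _ _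

lemma norm_Zo_le {y : ℝ} (hy : 0 ≤ y) (t : ℝ) : ‖Zo y t‖ ≤ 2 * y := by
  have := norm_PP_le (L := ⌊2 * y⌋₊) (c := fun n => (om ((n : ℝ) / y) : ℂ)) (B := 1)
    (fun l _ => by
      rw [Complex.norm_real]
      exact abs_oc_le y l) t
  rw [mul_one] at this
  exact this.trans (Nat.floor_le (by positivity))

lemma div_Zo_le {y : ℝ} (hy : 0 < y) (t : ℝ) : ‖Zo y t‖ / √y ≤ 2 * √y := by
  rw [div_le_iff₀ (Real.sqrt_pos.2 hy), mul_assoc, Real.mul_self_sqrt hy.le]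
  exact norm_Zo_le hy.le t

lemma card_WB {S : Finset ℤ} {u T : ℝ} (hT : 1 ≤ T)
    (hS : ∀ m ∈ S, T ≤ u + m ∧ u + m ≤ 2 * T) : (S.card : ℝ) ≤ 2 * T := by
  have h1 : S ⊆ Icc ⌈T - u⌉ ⌊2 * T - u⌋ := fun m hm => mem_Icc.2
    ⟨Int.ceil_le.2 (by linarith [(hS m hm).1]), Int.le_floor.2 (by linarith [(hS m hm).2])⟩
  have h2 := card_le_card h1
  rw [Int.card_Icc] at h2
  have h3 : ((⌊2 * T - u⌋ + 1 - ⌈T - u⌉ : ℤ) : ℝ) ≤ 2 * T := by
    push_cast
    linarith [Int.floor_le (2 * T - u), Int.le_ceil (T - u)]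
  rcases le_total (⌊2 * T - u⌋ + 1 - ⌈T - u⌉) 0 with h | h
  · rw [Int.toNat_of_nonpos h] at h2
    have : (S.card : ℝ) ≤ 0 := by exact_mod_cast h2
    linarith
  · have h4 : (S.card : ℤ) ≤ ⌊2 * T - u⌋ + 1 - ⌈T - u⌉ := by omega
    exact le_trans (by exact_mod_cast h4) h3

/-- one dyadic range of heights -/
lemma base_WB (hW : WattIn) {ε : ℝ} (hε : 0 < ε) : ∃ C : ℝ, 1 ≤ C ∧
    ∀ (T T' y Λ : ℝ) (L : ℕ), 2 ≤ T → T ≤ T' → 1 ≤ Λ → Λ ≤ T → 0 < y → y ^ 2 ≤ T * Λ → 1 ≤ L →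
      (L : ℝ) ≤ √T' * Λ →
      WB (fun t => ‖Zo y t‖ / √y) T (2 * T) L
        (C * ((Nat.log 2 L : ℝ) + 1) ^ 2 * T' ^ ε * Λ ^ 2 * (T' + √T' * (L : ℝ) ^ 2)) := by
  obtain ⟨C, hC, h⟩ := hW ε hε
  refine ⟨4 * C + 128, by linarith, fun T T' y Λ L hT hT' hΛ hΛ' hy hy' hL hL' u S c hc hS => ?_⟩
  obtain ⟨β, hβ, hF⟩ := dec_Slv L hc
  have hT0 : 0 < T := by linarith
  have e1 : 1 ≤ T' ^ ε := Real.one_le_rpow (by linarith) hε.le
  have e2 : ∀ t, (‖Zo y t‖ / √y) ^ 4 = ‖Zo y t‖ ^ 4 / y ^ 2 := fun t => by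
    rw [div_pow, show √y ^ 4 = (√y ^ 2) ^ 2 by ring, Real.sq_sqrt hy.le]
  have key : ∀ i ∈ range (Nat.log 2 L + 1), ∑ m ∈ S, (‖Zo y (u + m)‖ / √y) ^ 4 *
      ‖(hf ((2 ^ i : ℕ) : ℝ) : ℂ) * DP (2 ^ i) (β i) m‖ ^ 2 ≤
      (4 * C + 128) * T' ^ ε * Λ ^ 2 * (T' + √T' * (L : ℝ) ^ 2) := by
    intro i hi
    have h4 : 2 ^ i ≤ L := (Nat.pow_le_pow_right (by norm_num)
      (Nat.lt_succ_iff.1 (mem_range.1 hi))).trans (Nat.pow_log_le_self 2 (by omega))
    have h5 : 1 ≤ 2 ^ i := Nat.one_le_two_pow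
    generalize 2 ^ i = N at h4 h5
    have h6 : (N : ℝ) ≤ L := by exact_mod_cast h4
    have h7 : (1 : ℝ) ≤ N := by exact_mod_cast h5
    have e3 : ∀ z : ℂ, ‖(hf (N : ℝ) : ℂ) * z‖ ^ 2 = ‖z‖ ^ 2 / N := fun z => by
      rw [norm_mul, mul_pow, Complex.norm_real, Real.norm_of_nonneg (hf_nonneg _),
        hf_sq (by positivity), one_div_mul_eq_div]
    have p1 : 0 ≤ T' + √T' * (L : ℝ) ^ 2 := by
      have : 0 ≤ T' := by linarith
      positivity
    simp only [e3]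
    rcases le_total (N : ℝ) T with h8 | h8
    · have h9 := h T y u N (fun n => β i n * pw (n : ℝ) (-u)) S hT hy
        (le_of_pow_le_pow_left₀ (n := 2) (by norm_num) hT0.le (by nlinarith)) h5 h8
        (fun n => by rw [norm_mul, norm_pw, mul_one]; exact hβ i n) hS
      have e4 : ∀ m : ℤ, DP N (fun n => β i n * pw (n : ℝ) (-u)) (u + m) = DP N (β i) m :=
        fun m => sum_congr rfl fun n _ => by
          rw [mul_assoc, ← pw_add, neg_add_cancel_left]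
      simp only [e4] at h9
      simp only [e2, div_mul_div_comm]
      rw [← sum_div, div_le_iff₀ (by positivity)]
      refine h9.trans ?_
      have a1 : 1 + y ^ 2 / T ≤ 2 * Λ := by
        have : y ^ 2 / T ≤ Λ := by rwa [div_le_iff₀' hT0]
        linarith
      calc _ ≤ C * T' ^ ε * (T' + √T' * (L : ℝ) ^ 2) * y ^ 2 * N * (2 * Λ) ^ 2 := by gcongr
        _ = 4 * C * T' ^ ε * Λ ^ 2 * (T' + √T' * (L : ℝ) ^ 2) * (y ^ 2 * N) := by ring
        _ ≤ _ := by gcongr; linarith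
    · have a1 : ∀ m ∈ S, (‖Zo y (u + m)‖ / √y) ^ 4 * (‖DP N (β i) m‖ ^ 2 / N) ≤
          16 * (T * Λ) * (4 * N) := fun m _ => by
        refine mul_le_mul ?_ ?_ (by positivity) (by positivity)
        · refine (pow_le_pow_left₀ (by positivity) (div_Zo_le hy _) 4).trans ?_
          rw [mul_pow, show √y ^ 4 = (√y ^ 2) ^ 2 by ring, Real.sq_sqrt hy.le]
          linarith
        · have a2 : ‖DP N (β i) m‖ ≤ 2 * N := by
            refine (norm_sum_le _ _).trans ((sum_le_card_nsmul _ _ 1 fun n _ => ?_).trans ?_)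
            · rw [norm_mul, norm_pw, mul_one]
              exact hβ i n
            · rw [nsmul_eq_mul, mul_one]
              exact card_blk_le h5
          rw [div_le_iff₀ (by positivity)]
          nlinarith [norm_nonneg (DP N (β i) m)]
      refine (sum_le_card_nsmul _ _ _ a1).trans ?_
      rw [nsmul_eq_mul]
      calc _ ≤ 2 * T * (16 * (T * Λ) * (4 * N)) := by
            gcongr
            exact card_WB (by linarith) hS
        _ = 128 * T * T * N * Λ := by ring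
        _ ≤ 128 * (√T' * Λ) * L * L * Λ := by
            have a2 : T ≤ L := h8.trans h6
            have a3 : T ≤ √T' * Λ := a2.trans hL'
            gcongr
        _ = 128 * 1 * Λ ^ 2 * (0 + √T' * (L : ℝ) ^ 2) := by ring
        _ ≤ _ := by gcongr <;> linarith
  simp only [hF]
  calc _ ≤ ∑ m ∈ S, (‖Zo y (u + m)‖ / √y) ^ 4 * (((Nat.log 2 L : ℝ) + 1) *
        ∑ i ∈ range (Nat.log 2 L + 1),
          ‖(hf ((2 ^ i : ℕ) : ℝ) : ℂ) * DP (2 ^ i) (β i) m‖ ^ 2) := by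
        refine sum_le_sum fun m _ => mul_le_mul_of_nonneg_left ?_ (by positivity)
        refine (pow_le_pow_left₀ (norm_nonneg _) (norm_sum_le _ _) 2).trans
          (sq_sum_le_card_mul_sum_sq.trans_eq ?_)
        rw [card_range]
        push_cast
        rfl
    _ = ((Nat.log 2 L : ℝ) + 1) * ∑ i ∈ range (Nat.log 2 L + 1), ∑ m ∈ S,
        (‖Zo y (u + m)‖ / √y) ^ 4 * ‖(hf ((2 ^ i : ℕ) : ℝ) : ℂ) * DP (2 ^ i) (β i) m‖ ^ 2 := by
        rw [sum_comm, mul_sum]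
        exact sum_congr rfl fun m _ => by rw [mul_left_comm, mul_sum]
    _ ≤ ((Nat.log 2 L : ℝ) + 1) * ((range (Nat.log 2 L + 1)).card •
        ((4 * C + 128) * T' ^ ε * Λ ^ 2 * (T' + √T' * (L : ℝ) ^ 2))) :=
        mul_le_mul_of_nonneg_left (sum_le_card_nsmul _ _ _ key) (by positivity)
    _ = _ := by
        rw [nsmul_eq_mul, card_range]
        push_cast
        ring

end Pool.Agent.MP_c853c5_nt.R

end

section

/-!
The mixed moment for a long smooth factor.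
-/

set_option autoImplicit false

open Finset Filter

namespace Pool.Agent.MP_c853c5_nt.R

open Pool.Agent.MP_2a1f0e_nt Pool.Agent.MP_2a1f0e_nt.GM Pool.Agent.MP_2a1f0e_nt.DH
open Pool.Agent.MP_c853c5_nt.E MeasureTheory

lemma om_Wt (x : ℝ) : om x = om x * Wt x := by
  by_cases h : x ≤ 1 ∨ 5 / 3 ≤ x
  · rw [om_eq_zero h, zero_mul]
  · rw [not_or, not_le, not_le] at h
    rw [Wt_eq_one h.1.le (by linarith [h.2]), mul_one]

lemma cut_Wm {y : ℝ} (hy : 0 < y) {L : ℕ} (hL : ⌊2 * y⌋₊ ≤ L) (F : ℕ → ℂ) :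
    ∑ n ∈ Icc 1 L, (om ((n : ℝ) / y) : ℂ) * F n =
      ∑ n ∈ Icc 1 ⌊2 * y⌋₊, (om ((n : ℝ) / y) : ℂ) * F n := by
  refine (sum_subset (Icc_subset_Icc_right hL) fun n hn hn' => ?_).symm
  have h1 : ⌊2 * y⌋₊ < n := by
    rw [mem_Icc] at hn hn'
    omega
  rw [Nat.floor_lt (by positivity)] at h1
  rw [om_eq_zero (Or.inr (by rw [le_div_iff₀ hy]; linarith)), Complex.ofReal_zero, zero_mul]

/-- the factor `n ^ (-1/2)` is removed -/
lemma mel_Wm : ∃ C : ℝ, 0 < C ∧ ∀ (y : ℝ) (L : ℕ) (t : ℝ), 0 < y → ⌊2 * y⌋₊ ≤ L →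
    ‖SZ om y L t‖ ≤ C * ∫ ξ : ℝ, kp ξ * (‖Zo y (t + ξ)‖ / √y) := by
  obtain ⟨C, hC, h⟩ := mel_stmt _ _ _ sup_Wt.mul_hf.pos sup_Wt.mul_hf.sm sup_Wt.mul_hf.z
  obtain ⟨φ, hφ, hb, he⟩ := h 0 (by simp)
  refine ⟨C, hC, fun y L t hy hL => ?_⟩
  have hi : ∀ n : ℕ, Integrable fun ξ : ℝ =>
      φ ξ * (pw y (-ξ) * ((om ((n : ℝ) / y) : ℂ) * pw (n : ℝ) (t + ξ))) := fun n =>
    ((integrable_kp.const_mul C).mul_const 1).mono'
      (hφ.mul (((continuous_pw y).comp continuous_neg).mul (continuous_const.mul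
        ((continuous_pw _).comp (continuous_const.add continuous_id))))).aestronglyMeasurable
      (Eventually.of_forall fun ξ => by
        rw [norm_mul, norm_mul, norm_mul, norm_pw, norm_pw, one_mul, mul_one, Complex.norm_real]
        exact mul_le_mul (hb ξ) (abs_oc_le y n) (norm_nonneg _) (mul_nonneg hC.le (kp_pos ξ).le))
  have key : SZ om y L t = (hf y : ℂ) * ∫ ξ : ℝ, φ ξ * (pw y (-ξ) * Zo y (t + ξ)) := by
    unfold SZ Zo PP
    simp only [mul_sum, Complex.ofReal_mul, mul_assoc (om _ : ℂ)]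
    rw [integral_finsetSum _ fun n _ => hi n, mul_sum, cut_Wm hy hL]
    refine sum_congr rfl fun n hn => ?_
    have hn0 : (0 : ℝ) < n := by exact_mod_cast (mem_Icc.1 hn).1
    have e : ∀ ξ : ℝ, φ ξ * (pw y (-ξ) * ((om ((n : ℝ) / y) : ℂ) * pw (n : ℝ) (t + ξ))) =
        φ ξ * pw ((n : ℝ) / y) ξ * ((om ((n : ℝ) / y) : ℂ) * pw (n : ℝ) t) := by
      intro ξ
      rw [pw_div hn0.ne' hy.ne', pw_add]
      ring
    have e1 : hf (n : ℝ) = hf y * hf ((n : ℝ) / y) := by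
      rw [← hf_mul hy.le, mul_div_cancel₀ _ hy.ne']
    simp only [e]
    rw [integral_mul_const, ← he _ (div_pos hn0 hy), Complex.cpow_zero, e1]
    conv_lhs => rw [om_Wt]
    push_cast
    ring
  have hc : Continuous fun s => ‖Zo y s‖ / √y := (continuous_Zo y).norm.div_const _
  rw [key, ← integral_const_mul, ← integral_const_mul]
  refine norm_integral_le_of_norm_le ((int_kp_bdd hc (fun s =>
    (abs_of_nonneg (by positivity)).trans_le (div_Zo_le hy s)) t).const_mul C)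
    (Eventually.of_forall fun ξ => ?_)
  rw [norm_mul, norm_mul, norm_mul, norm_pw, one_mul, Complex.norm_real,
    Real.norm_of_nonneg (hf_nonneg _), hf, one_div_mul_eq_div, mul_div_assoc, ← mul_assoc]
  exact mul_le_mul_of_nonneg_right (hb ξ) (by positivity)

/-- the scales of the partition of unity -/
noncomputable def yj (j : ℕ) : ℝ := 4 / 5 * (4 / 3) ^ j

lemma yj_pos (j : ℕ) : 0 < yj j := by unfold yj; positivity

lemma yj_mono {i j : ℕ} (h : i ≤ j) : yj i ≤ yj j :=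
  mul_le_mul_of_nonneg_left (pow_le_pow_right₀ (by norm_num) h) (by norm_num)

lemma tel_Wm (J : ℕ) {m : ℝ} (hm : 1 ≤ m) : psi (m / yj J) = ∑ j ∈ range J, om (m / yj j) := by
  induction J with
  | zero => exact psi_eq_zero (by rw [le_div_iff₀ (yj_pos 0), yj]; linarith)
  | succ J ih =>
    rw [sum_range_succ, ← ih, om, add_sub_cancel]
    congr 1
    rw [yj, yj, pow_succ]
    field_simp

lemma ZW_Wm (J M : ℕ) (t : ℝ) :
    ZW M (fun m => psi (m / yj J)) t = ∑ j ∈ range J, SZ om (yj j) M t := by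
  unfold ZW SZ PP
  rw [sum_comm]
  refine sum_congr rfl fun m hm => ?_
  dsimp only
  rw [tel_Wm J (by exact_mod_cast (mem_Icc.1 hm).1), sum_mul, Complex.ofReal_sum, sum_mul]

lemma one_Wm (t : ℝ) : 1 ≤ ‖Zo (4 / 5) t‖ / √(4 / 5) := by
  have e : Zo (4 / 5) t = 1 := by
    rw [Zo, PP, show ⌊2 * (4 / 5 : ℝ)⌋₊ = 1 by rw [Nat.floor_eq_iff (by norm_num)]; norm_num,
      Icc_self, sum_singleton, Nat.cast_one, pw_one, om, psi_eq_one (by norm_num),
      psi_eq_zero (by norm_num)]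
    simp
  rw [e, norm_one, le_div_iff₀ (by positivity), one_mul]
  exact Real.sqrt_le_one.2 (by norm_num)

lemma ZS_Wm {y : ℝ} (hy : 5 ≤ y) (t : ℝ) : ZS y t = Zo y t := by
  unfold ZS FP Zo PP
  refine sum_subset (fun l hl => ?_) fun l _ hl => ?_
  · rw [mem_Ioc] at hl
    refine mem_Icc.2 ⟨by omega, hl.2.trans (Nat.le_floor ?_)⟩
    push_cast
    linarith [Nat.floor_le (show 0 ≤ y by linarith)]
  · have h : oc y l = 0 := by
      by_contra h
      exact hl (mem_of_oc_ne_zero hy h)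
    rw [h, Complex.ofReal_zero, zero_mul]

lemma sqrt_ZW {M : ℕ} {c : ℕ → ℝ} (hc : ∀ m, 0 ≤ c m ∧ c m ≤ 1) (t : ℝ) :
    ‖ZW M c t‖ ≤ 2 * √M := by
  have e : ZW M c t = NP M (fun m => (c m : ℂ)) t := by
    simp only [ZW, NP, Complex.ofReal_mul, mul_comm]
  rw [e]
  exact norm_NP_le M (fun m => by
    rw [Complex.norm_real, Real.norm_of_nonneg (hc m).1]
    exact (hc m).2) t

/-- one range of heights -/
lemma ht_Wm (j : ℕ) : ∃ C : ℝ, 1 ≤ C ∧ ∀ (T P y Ω J₀ : ℝ) (L : ℕ), 1 ≤ P → P ≤ T → 5 ≤ y →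
    √y * (17 * T) ≤ P ^ j → 1 ≤ J₀ → (∀ n : ℕ, (4 / 3 : ℝ) ^ n ≤ 5 * T * P → (n : ℝ) + 1 ≤ J₀) →
    (∀ y' : ℝ, 0 < y' → y' ^ 2 ≤ T * (36 * P ^ 2) →
      WB (fun t => ‖Zo y' t‖ / √y') T (4 * T) L Ω) →
    WB (fun t => ‖ZS y t‖ / √y) (4 / 3 * T) (8 / 3 * T) L (C * (P * J₀) ^ 4 * Ω) := by
  obtain ⟨C1, hC1, h1⟩ := mel_Wm
  obtain ⟨C2, hC2, h2⟩ := pt_w (sup_om.mul (g := fun x => √x)
    fun _ hx => Real.contDiffAt_sqrt hx.ne') j
  set κ : ℝ := 8192 * 13825 with hκ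
  have hκ1 : 1 ≤ κ := by norm_num [hκ]
  refine ⟨1 + C2 ^ 4 * (16 * (κ * ((1 + C1 ^ 4) * κ))), le_add_of_nonneg_right (by positivity),
    fun T P y Ω J₀ L hP hT hy hE hJ hJ' H => ?_⟩
  have hT1 : 1 ≤ T := hP.trans hT
  have hy0 : 0 < y := by linarith
  have hP2 : 1 ≤ P ^ 2 := one_le_pow₀ hP
  have o1 : WB (fun _ => 1) T (4 * T) L Ω := by
    have := (H (4 / 5) (by norm_num) (by nlinarith)).mono (lam := 1) (F := fun _ => 1)
      fun t _ _ => ⟨zero_le_one, by rw [one_mul]; exact one_Wm t⟩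
    rwa [one_pow, one_mul] at this
  have hΩ := o1.nonneg
  have hPJ : 1 ≤ (P * J₀) ^ 4 := one_le_pow₀ (one_le_mul_of_one_le_of_one_le hP hJ)
  rcases le_total (y ^ 2) T with hc | hc
  · simp only [ZS_Wm hy]
    refine (H y hy0 (by nlinarith)).weak (by linarith) (by linarith) ?_
    exact le_mul_of_one_le_left hΩ (one_le_mul_of_one_le_of_one_le
      (le_add_of_nonneg_right (by positivity)) hPJ)
  have s0 : 1 ≤ √T := Real.one_le_sqrt.2 hT1
  have s1 : √T ≤ y := Real.sqrt_le_iff.2 ⟨hy0.le, hc⟩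
  have s2 : √T * √T = T := Real.mul_self_sqrt (by linarith)
  obtain ⟨n, n1, n2⟩ := exists_nat_pow_near (x := 5 * √T * P) (y := (4 / 3 : ℝ)) (by nlinarith)
    (by norm_num)
  have n3 : ((n + 1 : ℕ) : ℝ) ≤ J₀ := by
    push_cast
    exact hJ' n (n1.trans (by gcongr; nlinarith))
  have y1 : 4 * √T * P ≤ yj (n + 1) := by
    rw [yj]
    linarith
  have y2 : yj (n + 1) ≤ 6 * √T * P := by
    rw [yj, pow_succ]
    nlinarith
  have y3 : ∀ i, i ≤ n + 1 → yj i ^ 2 ≤ T * (36 * P ^ 2) := fun i hi => by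
    refine (pow_le_pow_left₀ (yj_pos i).le ((yj_mono hi).trans y2) 2).trans_eq ?_
    rw [mul_pow, mul_pow, Real.sq_sqrt (by linarith)]
    ring
  generalize n + 1 = J at n3 y1 y2 y3
  set M' := ⌊2 * yj J⌋₊ with hM'
  set c : ℕ → ℝ := fun m => psi (m / yj J) with hcd
  have c1 : ∀ m, 0 ≤ c m ∧ c m ≤ 1 := fun m => ⟨psi_nonneg _, psi_le_one _⟩
  have q1 : 8192 * (1 + 13824 * P ^ 2) ≤ κ * P ^ 2 := by rw [hκ]; linarith
  have a1 : ∀ i ∈ range J, WB (fun t => ‖SZ om (yj i) M' t‖) (7 / 6 * T) (17 / 6 * T) L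
      ((1 + C1 ^ 4) * (κ * P ^ 2 * Ω)) := fun i hi => by
    have hi' := (mem_range.1 hi).le
    have b1 := WB.shift (G := fun t => ‖Zo (yj i) t‖ / √(yj i)) (a := 7 / 6 * T)
      (b := 17 / 6 * T) (R := T / 6) (Q := 13824 * P ^ 2)
      ((continuous_Zo _).norm.div_const _) (fun t => ⟨by positivity, div_Zo_le (yj_pos i) t⟩)
      (by linarith)
      (by
        rw [mul_pow, show √(yj i) ^ 4 = (√(yj i) ^ 2) ^ 2 by ring, Real.sq_sqrt (yj_pos i).le]
        nlinarith [y3 i hi'])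
      ((H _ (yj_pos i) (y3 i hi')).weak (by linarith) (by linarith) le_rfl)
      (o1.weak (by linarith) (by linarith) le_rfl)
    refine (b1.mono fun t _ _ => ⟨norm_nonneg _, h1 _ M' t (yj_pos i)
      (Nat.floor_le_floor (by linarith [yj_mono hi']))⟩).weak le_rfl le_rfl ?_
    gcongr
    exact le_add_of_nonneg_left zero_le_one
  set Ω₁ := J₀ ^ 4 * ((1 + C1 ^ 4) * (κ * P ^ 2 * Ω)) with hΩ₁
  have w1 : Ω ≤ Ω₁ := by
    rw [hΩ₁, ← mul_assoc, ← mul_assoc]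
    refine le_mul_of_one_le_left hΩ (one_le_mul_of_one_le_of_one_le
      (one_le_mul_of_one_le_of_one_le (one_le_pow₀ hJ) (le_add_of_nonneg_right (by positivity)))
      (one_le_mul_of_one_le_of_one_le hκ1 hP2))
  have a2 : WB (fun t => ‖ZW M' c t‖) (7 / 6 * T) (17 / 6 * T) L Ω₁ := by
    refine ((WB.sum (range J) (fun _ _ _ => norm_nonneg _) a1).mono (lam := 1) fun t _ _ =>
      ⟨norm_nonneg _, by rw [one_mul, hcd, ZW_Wm]; exact norm_sum_le _ _⟩).weak le_rfl le_rfl ?_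
    rw [one_pow, one_mul, card_range, hΩ₁]
    gcongr
  have m1 : (M' : ℝ) ≤ 2 * yj J := Nat.floor_le (by linarith [yj_pos J])
  have a3 := WB.shift (G := fun t => ‖ZW M' c t‖) (a := 4 / 3 * T) (b := 8 / 3 * T) (R := T / 6)
    (Q := 13824 * P ^ 2) (continuous_PP _ _).norm (fun t => ⟨norm_nonneg _, sqrt_ZW c1 t⟩)
    (by linarith)
    (by
      rw [mul_pow, show √(M' : ℝ) ^ 4 = (√(M' : ℝ) ^ 2) ^ 2 by ring,
        Real.sq_sqrt (Nat.cast_nonneg _)]
      nlinarith [y3 J le_rfl, pow_le_pow_left₀ (Nat.cast_nonneg _) m1 2])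
    (a2.weak (by linarith) (by linarith) le_rfl) (o1.weak (by linarith) (by linarith) w1)
  have hΩ1 : 0 ≤ Ω₁ := hΩ.trans w1
  have a4 := WB.add (Ω := κ * P ^ 2 * Ω₁)
    (fun t => integral_nonneg fun ξ => mul_nonneg (kp_pos ξ).le (norm_nonneg _))
    (fun _ => zero_le_one) (a3.weak le_rfl le_rfl (by gcongr))
    (o1.weak (by linarith) (by linarith) (w1.trans (le_mul_of_one_le_left hΩ1
      (one_le_mul_of_one_le_of_one_le hκ1 hP2))))
  refine (a4.mono (lam := C2) fun t t1 t2 => ⟨by positivity, ?_⟩).weak le_rfl le_rfl ?_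
  · have t0 : 0 ≤ t := by linarith
    have k := h2 y (2 * ⌊y⌋₊) ⌊yj J⌋₊ M' c t (by linarith)
      (by
        have : (5 : ℝ) ≤ (⌊y⌋₊ : ℕ) := by exact_mod_cast Nat.le_floor (by exact_mod_cast hy)
        push_cast
        linarith [Nat.lt_floor_add_one y])
      (Nat.floor_le_floor (by linarith [yj_pos J])) c1 fun m hm => psi_eq_one (by
        rw [div_le_one (yj_pos J)]
        exact (Nat.le_floor_iff (yj_pos J).le).1 hm)
    rw [ZS_eq_Av hy, norm_mul, Complex.norm_real, Real.norm_of_nonneg (Real.sqrt_nonneg _),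
      mul_div_cancel_left₀ _ (Real.sqrt_pos.2 hy0).ne']
    refine k.trans (mul_le_mul_of_nonneg_left ?_ hC2.le)
    rw [add_assoc, abs_of_nonneg t0]
    refine add_le_add le_rfl ?_
    have p0 : 0 < P ^ j := by positivity
    have b1 : √y / (1 + t) ^ j ≤ √y * T / P ^ j := by
      gcongr
      · exact le_mul_of_one_le_right (Real.sqrt_nonneg _) hT1
      · linarith
    have b2 : ((1 + t) / y) ^ 2 ≤ 16 * T := by
      rw [div_pow, div_le_iff₀ (by positivity)]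
      nlinarith
    have b3 : (1 + t) / (y * (⌊yj J⌋₊ + 1)) ≤ 1 / P := by
      rw [div_le_div_iff₀ (by positivity) (by positivity)]
      have b4 : √T * (4 * √T * P) ≤ y * (⌊yj J⌋₊ + 1) :=
        mul_le_mul s1 (y1.trans (Nat.lt_floor_add_one _).le) (by positivity) hy0.le
      nlinarith
    have b5 : √y * ((1 + t) / y) ^ 2 * ((1 + t) / (y * (⌊yj J⌋₊ + 1))) ^ j ≤
        √y * (16 * T) / P ^ j := by
      rw [div_eq_mul_one_div _ (P ^ j), ← one_div_pow]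
      gcongr
    refine (add_le_add b1 b5).trans ?_
    rw [← add_div, div_le_one p0]
    linarith
  · rw [hΩ₁]
    calc _ = C2 ^ 4 * (16 * (κ * ((1 + C1 ^ 4) * κ))) * (P * J₀) ^ 4 * Ω := by ring
      _ ≤ _ := by gcongr; linarith

end Pool.Agent.MP_c853c5_nt.R

end

section

/-!
The mixed moment at all heights.
-/

set_option autoImplicit false

open Finset Filter

namespace Pool.Agent.MP_c853c5_nt.R

open Pool.Agent.MP_2a1f0e_nt Pool.Agent.MP_2a1f0e_nt.GM Pool.Agent.MP_2a1f0e_nt.DH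
open Pool.Agent.MP_c853c5_nt.E

lemma lg_WmS {q X : ℝ} {n : ℕ} (hq : 4 / 3 ≤ q) (h : q ^ n ≤ X) : (n : ℝ) ≤ 4 * Real.log X := by
  have h1 := Real.log_le_log (by positivity)
    ((pow_le_pow_left₀ (by norm_num) hq n).trans h)
  have h2 := Real.one_sub_inv_le_log_of_pos (show (0 : ℝ) < 4 / 3 by norm_num)
  rw [Real.log_pow] at h1
  nlinarith [Nat.cast_nonneg (α := ℝ) n]

lemma dy_WmS {G : ℝ → ℝ} {a H Ω : ℝ} {L : ℕ} (ha : 0 < a)
    (h : ∀ i : ℕ, a * 2 ^ i ≤ H → WB G (a * 2 ^ i) (a * 2 ^ (i + 1)) L Ω) (i : ℕ)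
    (hi : a * 2 ^ i ≤ H) : WB G a (a * 2 ^ (i + 1)) L ((i + 1) * Ω) := by
  induction i with
  | zero => simpa using h 0 hi
  | succ i ih =>
    refine ((ih (le_trans ?_ hi)).union (h _ hi)).weak le_rfl le_rfl (le_of_eq ?_)
    · gcongr
      · norm_num
      · omega
    · push_cast
      ring

lemma n1_WmS {p q : ℝ} (h : p ≤ q) (h' : 48 ≤ q) : 36 * p ≤ 3 / 4 * (q * q) := by nlinarith

lemma n2_WmS {x : ℝ} (h : 136 ≤ x) : 8 * x * (17 * x) ≤ x ^ 3 := by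
  nlinarith [mul_nonneg (sub_nonneg.2 h) (sq_nonneg x)]

lemma n3_WmS {s l : ℝ} (hs : 0 ≤ s) (hl : 1 ≤ l) :
    s ≤ √(2 * (s * s * l)) ∧ √(2 * (s * s * l)) ≤ 2 * l * s := by
  have h := mul_nonneg hs hs
  exact ⟨Real.le_sqrt_of_sq_le (by nlinarith),
    Real.sqrt_le_iff.2 ⟨by positivity, by nlinarith [mul_nonneg h (sub_nonneg.2 hl)]⟩⟩

theorem wm_stmt (hW : WattIn) : WmStmt := by
  intro δ ε hδ hδ' hε
  obtain ⟨d, hd, d1, d2⟩ : ∃ d : ℝ, 0 < d ∧ 4 * d ≤ δ ∧ 32 * d ≤ ε :=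
    ⟨min (δ / 4) (ε / 32), by positivity, by linarith [min_le_left (δ / 4) (ε / 32)],
      by linarith [min_le_right (δ / 4) (ε / 32)]⟩
  obtain ⟨j, hj⟩ := exists_nat_ge (3 / d)
  rw [div_le_iff₀ hd] at hj
  obtain ⟨C1, hC1, h1⟩ := ht_Wm j
  obtain ⟨C2, hC2, h2⟩ := base_WB hW (show 0 < ε / 4 by positivity)
  refine ⟨d, hd, ?_⟩
  filter_upwards [eventually_ge_atTop 136, ev_const_le 48 (half_pos hδ),
    ev_log_le 2 3 one_half_pos, ev_le_log 1,
    ev_log_le (5 * (C1 * (13 ^ 4 * (2 * (C2 * (25 * (36 ^ 2 * 2))))))) 10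
      (show 0 < ε / 4 by positivity)] with x x1 x2 x3 x4 x5 τ y L hτ hτ' hy hy' hL hL'
  have x0 : 0 < x := by linarith only [x1]
  have mono : ∀ {a a' : ℝ}, a ≤ a' → x ^ a ≤ x ^ a' := fun h =>
    Real.rpow_le_rpow_of_exponent_le (by linarith only [x1]) h
  obtain ⟨l, hl⟩ : ∃ l, l = Real.log x := ⟨_, rfl⟩
  obtain ⟨P, hP⟩ : ∃ P, P = x ^ d := ⟨_, rfl⟩
  rw [← hl] at x3 x4 x5 ⊢
  obtain ⟨H, hH⟩ : ∃ H, H = x ^ τ * l ^ 3 := ⟨_, rfl⟩
  have l3 : 1 ≤ l ^ 3 := one_le_pow₀ x4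
  have P1 : 1 ≤ P := hP ▸ Real.one_le_rpow (by linarith only [x1]) hd.le
  have pw1 : ∀ (n : ℕ) {a : ℝ}, d * n ≤ a → P ^ n ≤ x ^ a := fun n a h => by
    rw [hP, ← Real.rpow_mul_natCast x0.le]
    exact mono h
  have P2 : P ^ 2 ≤ x ^ (δ / 2) := pw1 2 (by push_cast; linarith only [d1])
  have e1 : x ^ δ = x ^ (δ / 2) * x ^ (δ / 2) := by rw [← Real.rpow_add x0, add_halves]
  have e2 : x ^ τ = x ^ (τ / 2) * x ^ (τ / 2) := by rw [← Real.rpow_add x0, add_halves]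
  have a0 : 0 < x ^ δ := by positivity
  have t0 : 0 < x ^ τ := by positivity
  have a1 : 36 * P ^ 2 ≤ 3 / 4 * x ^ δ := e1 ▸ n1_WmS P2 x2
  have H1 : x ^ τ ≤ H := hH ▸ le_mul_of_one_le_right t0.le l3
  have H0 : 0 < H := t0.trans_le H1
  have H2 : 2 * H ≤ x := by
    calc _ = x ^ τ * (2 * l ^ 3) := by rw [hH]; ring
      _ ≤ x ^ (1 / 2 : ℝ) * x ^ (1 / 2 : ℝ) := mul_le_mul (mono hτ') x3 (by positivity)
          (by positivity)
      _ = x := by rw [← Real.rpow_add x0, add_halves, Real.rpow_one]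
  obtain ⟨H3, H4⟩ := n3_WmS (Real.rpow_nonneg x0.le (τ / 2)) l3
  rw [← e2, ← hH] at H3 H4
  have b4 : 1 ≤ P ^ 2 := one_le_pow₀ P1
  have P3 : P ≤ 36 * P ^ 2 := by linarith only [b4, le_self_pow₀ P1 two_ne_zero]
  have L1 : (L : ℝ) ≤ √(2 * H) * (36 * P ^ 2) := by
    refine hL'.trans ?_
    rw [Real.rpow_add x0, ← hP]
    gcongr
  have L2 : (L : ℝ) ≤ x :=
    hL'.trans ((mono (by linarith only [hτ', d1, hδ'])).trans_eq (Real.rpow_one x))
  obtain ⟨Ω, hΩ⟩ : ∃ Ω, Ω = C2 * ((Nat.log 2 L : ℝ) + 1) ^ 2 * (2 * H) ^ (ε / 4) *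
    (36 * P ^ 2) ^ 2 * (2 * H + √(2 * H) * (L : ℝ) ^ 2) := ⟨_, rfl⟩
  have key : ∀ i : ℕ, x ^ δ * 2 ^ i ≤ H → WB (fun t => ‖ZS y t‖ / √y) (x ^ δ * 2 ^ i)
      (x ^ δ * 2 ^ (i + 1)) L (C1 * (P * (13 * l)) ^ 4 * (Ω + Ω)) := fun i hi => by
    have b1 : x ^ δ ≤ x ^ δ * 2 ^ i := le_mul_of_one_le_right a0.le (one_le_pow₀ one_le_two)
    have b2 : x ^ δ * 2 ^ (i + 1) = 2 * (x ^ δ * 2 ^ i) := by ring
    rw [b2]
    generalize x ^ δ * 2 ^ i = A at hi b1
    obtain ⟨T, rfl⟩ : ∃ T, A = 4 / 3 * T := ⟨3 / 4 * A, by ring⟩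
    have b3 : 36 * P ^ 2 ≤ T := by linarith only [a1, b1]
    have b5 : T ≤ H := by linarith only [hi, b3, b4]
    have b6 : T ≤ x := by linarith only [b5, H2, H0]
    have b7 : 2 ≤ T := by linarith only [b3, b4]
    have b8 : 1 ≤ 36 * P ^ 2 := by linarith only [b4]
    refine (h1 T P y (Ω + Ω) (13 * l) L P1 (P3.trans b3) hy ?_ (by linarith only [x4])
      (fun n hn => ?_) fun y' p1 p2 => ?_).weak le_rfl (le_of_eq (by ring)) le_rfl
    · have c1 : √y ≤ 8 * x := (Real.sqrt_le_left (by linarith only [hy]) |>.2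
        (le_self_pow₀ (by linarith only [hy]) two_ne_zero)).trans hy'
      calc _ ≤ 8 * x * (17 * x) := by gcongr
        _ ≤ x ^ 3 := n2_WmS x1
        _ ≤ _ := by
          rw [hP, ← Real.rpow_mul_natCast x0.le, ← Real.rpow_natCast]
          exact mono (by push_cast; linarith only [hj])
    · have c0 : P ≤ x := (P3.trans b3).trans b6
      have c1 := lg_WmS le_rfl (hn.trans (show _ ≤ x ^ 3 by
        calc 5 * T * P ≤ x * x * x := by
              gcongr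
              linarith only [x1]
          _ = _ := by ring))
      rw [Real.log_pow, ← hl] at c1
      push_cast at c1
      linarith only [c1, x4]
    · rw [hΩ]
      exact ((h2 T (2 * H) y' _ L b7 (by linarith only [b5, H0]) b8 b3 p1 p2 hL L1).union
        (h2 (2 * T) (2 * H) y' _ L (by linarith only [b7]) (by linarith only [b5]) b8
          (by linarith only [b3, b7]) p1 (p2.trans (mul_le_mul_of_nonneg_right
            (by linarith only [b7]) (by positivity))) hL L1)).weak le_rfl (le_of_eq (by ring)) le_rfl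
  obtain ⟨I, I1, I2⟩ := exists_nat_pow_near (x := H / x ^ δ) (y := (2 : ℝ))
    ((one_le_div a0).2 ((mono (by linarith only [hτ, hδ'])).trans H1)) one_lt_two
  rw [le_div_iff₀' a0] at I1
  rw [div_lt_iff₀' a0] at I2
  rw [← hH]
  refine (dy_WmS a0 key I I1).weak le_rfl I2.le ?_
  have c1 : (I : ℝ) + 1 ≤ 5 * l := by
    have := lg_WmS (q := 2) (X := x) (n := I) (by norm_num) ((le_mul_of_one_le_left
      (by positivity) (Real.one_le_rpow (by linarith only [x1]) hδ.le)).trans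
        (I1.trans (by linarith only [H2, H0])))
    linarith only [this, hl, x4]
  have c2 : (Nat.log 2 L : ℝ) + 1 ≤ 5 * l := by
    have := lg_WmS (q := 2) (X := x) (n := Nat.log 2 L) (by norm_num) (le_trans
      (by exact_mod_cast Nat.pow_log_le_self 2 (by omega)) L2)
    linarith only [this, hl, x4]
  have c3 : (2 * H) ^ (ε / 4) ≤ x ^ (ε / 4) :=
    Real.rpow_le_rpow (by positivity) H2 (by positivity)
  have c4 : 2 * H + √(2 * H) * (L : ℝ) ^ 2 ≤ 2 * l ^ 3 * (x ^ τ + x ^ (τ / 2) * (L : ℝ) ^ 2) :=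
    (add_le_add le_rfl (mul_le_mul_of_nonneg_right H4 (sq_nonneg (L : ℝ)))).trans_eq
      (by rw [hH]; ring)
  have c5 : P ^ 8 ≤ x ^ (ε / 4) := pw1 8 (by push_cast; linarith only [d2])
  have c6 : x ^ (ε / 4) * x ^ (ε / 4) * x ^ (ε / 4) ≤ x ^ ε := by
    rw [← Real.rpow_add x0, ← Real.rpow_add x0]
    exact mono (by linarith only [hε])
  have l0 : 0 < l := by linarith only [x4]
  have c7 : Ω ≤ C2 * (5 * l) ^ 2 * x ^ (ε / 4) * (36 * P ^ 2) ^ 2 *
      (2 * l ^ 3 * (x ^ τ + x ^ (τ / 2) * (L : ℝ) ^ 2)) := by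
    rw [hΩ]
    gcongr
  have c8 : 0 ≤ Ω := by rw [hΩ]; positivity
  calc _ ≤ 5 * l * (C1 * (P * (13 * l)) ^ 4 * (2 * (C2 * (5 * l) ^ 2 * x ^ (ε / 4) *
        (36 * P ^ 2) ^ 2 * (2 * l ^ 3 * (x ^ τ + x ^ (τ / 2) * (L : ℝ) ^ 2))))) := by
        rw [← two_mul]
        gcongr
    _ = 5 * (C1 * (13 ^ 4 * (2 * (C2 * (25 * (36 ^ 2 * 2)))))) * l ^ 10 * P ^ 8 * x ^ (ε / 4) *
        (x ^ τ + x ^ (τ / 2) * (L : ℝ) ^ 2) := by ring
    _ ≤ x ^ (ε / 4) * x ^ (ε / 4) * x ^ (ε / 4) * (x ^ τ + x ^ (τ / 2) * (L : ℝ) ^ 2) := by gcongr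
    _ ≤ _ := by gcongr

end Pool.Agent.MP_c853c5_nt.R

end

section

/-!
The twisted fourth moment on a grid.
-/

set_option autoImplicit false

open Finset

namespace Pool.Agent.MP_c853c5_nt.R

theorem wattIn_of (h : W.WattD) : WattIn := by
  intro ε hε
  obtain ⟨C, hC, h⟩ := h ε hε
  refine ⟨C, hC, fun T y u N α S hT hy hy' hN hN' hα hS => ?_⟩
  have hi : Function.Injective fun m : ℤ => u + m := fun a b hab =>
    Int.cast_injective (add_left_cancel hab)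
  have := h N T y α (S.map ⟨_, hi⟩) hT hy hy' hN hN' hα
    (fun t ht => by
      obtain ⟨m, hm, rfl⟩ := mem_map.1 ht
      exact hS m hm)
    (fun s hs t ht hst => by
      obtain ⟨a, -, rfl⟩ := mem_map.1 hs
      obtain ⟨b, -, rfl⟩ := mem_map.1 ht
      have h1 : a - b ≠ 0 := fun h1 => hst (by rw [sub_eq_zero.1 h1])
      change 1 ≤ |u + a - (u + b)|
      rw [add_sub_add_left_eq_sub]
      exact_mod_cast Int.one_le_abs h1)
  rw [sum_map] at this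
  exact this.trans_eq (by ring)

end Pool.Agent.MP_c853c5_nt.R

end

section

/-!
Type I with the twisted fourth moment.
-/

set_option autoImplicit false

namespace Pool.Agent.MP_c853c5_nt.R

open Pool.Agent.MP_c853c5_nt.E

theorem e1dW_exp (hE : E.ExpStmt) (h : W.WattD) : E1DW :=
  e1dW_of (wm_stmt (wattIn_of h)) (prod_stmt mul_stmt) (con_stmt hE (prod_stmt mul_stmt))
    (core_stmt (con_stmt hE (prod_stmt mul_stmt)) lev_stmt) self_stmt E.av_stmt grd_stmt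
    (tb_stmt tr_stmt)

theorem e12dW_exp (hE : E.ExpStmt) (h : W.WattD) : E12DW :=
  e12dW_of (wm_stmt (wattIn_of h)) (prod_stmt mul_stmt) (con_stmt hE (prod_stmt mul_stmt))
    (core_stmt (con_stmt hE (prod_stmt mul_stmt)) lev_stmt) self_stmt E.av_stmt grd_stmt
    (tb_stmt tr_stmt)

end Pool.Agent.MP_c853c5_nt.R

end
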