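import Pool.Agent.Mg.C853.Gf25d0d

section

set_option autoImplicit false

open Finset MeasureTheory
open scoped ENNReal ComplexConjugate

namespace Pool.Agent.MP_c853c5_nt.W

open Pool.Agent.MP_2a1f0e_nt Pool.Agent.MP_2a1f0e_nt.GM Pool.Agent.MP_2a1f0e_nt.DH

/-! ### indicators -/

lemma iE_pos {p : Prop} (h : p) : iE p = 1 := by simp [iE, h]
lemma iE_neg {p : Prop} (h : ¬p) : iE p = 0 := by simp [iE, h]
lemma iC_pos {p : Prop} (h : p) : iC p = 1 := by simp [iC, h]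
lemma iC_neg {p : Prop} (h : ¬p) : iC p = 0 := by simp [iC, h]
lemma iE_le_one (p : Prop) : iE p ≤ 1 := by by_cases h : p <;> simp [iE, h]
lemma iE_ne_top (p : Prop) : iE p ≠ ⊤ := by by_cases h : p <;> simp [iE, h]
lemma iE_ne_zero {p : Prop} (h : iE p ≠ 0) : p := by_contra fun hp => h (iE_neg hp)
lemma iC_ne_zero {p : Prop} (h : iC p ≠ 0) : p := by_contra fun hp => h (iC_neg hp)
lemma iE_mono {p q : Prop} (h : p → q) : iE p ≤ iE q := by
  by_cases hp : p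
  · rw [iE_pos hp, iE_pos (h hp)]
  · rw [iE_neg hp]; exact zero_le
lemma iE_congr {p q : Prop} (h : p ↔ q) : iE p = iE q := by rw [propext h]
lemma iC_congr {p q : Prop} (h : p ↔ q) : iC p = iC q := by rw [propext h]
lemma iE_and (p q : Prop) : iE (p ∧ q) = iE p * iE q := by
  by_cases hp : p <;> by_cases hq : q <;> simp [iE, hp, hq]
lemma iC_and (p q : Prop) : iC (p ∧ q) = iC p * iC q := by
  by_cases hp : p <;> by_cases hq : q <;> simp [iC, hp, hq]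
lemma norm_iC_le (p : Prop) : ‖iC p‖ ≤ 1 := by by_cases h : p <;> simp [iC, h]
lemma enorm_iC (p : Prop) : ‖iC p‖ₑ = iE p := by by_cases h : p <;> simp [iC, iE, h]
lemma conj_iC (p : Prop) : conj (iC p) = iC p := by by_cases h : p <;> simp [iC, h]
lemma iC_add_not (p : Prop) : iC p + iC (¬p) = 1 := by by_cases h : p <;> simp [iC, h]

lemma measurable_iE {X : Type*} [MeasurableSpace X] {p : X → Prop} (h : MeasurableSet {x | p x}) :
    Measurable fun x => iE (p x) := by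
  classical
  exact Measurable.ite h measurable_const measurable_const

lemma measurable_iC {X : Type*} [MeasurableSpace X] {p : X → Prop} (h : MeasurableSet {x | p x}) :
    Measurable fun x => iC (p x) := by
  classical
  exact Measurable.ite h measurable_const measurable_const

lemma lintegral_iE {X : Type*} [MeasurableSpace X] (μ : Measure X) {p : X → Prop}
    (h : MeasurableSet {x | p x}) : ∫⁻ x, iE (p x) ∂μ = μ {x | p x} := by
  rw [← lintegral_indicator_one h]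
  refine lintegral_congr fun x => ?_
  by_cases hx : p x
  · rw [iE_pos hx, Set.indicator_of_mem (show x ∈ {x | p x} from hx)]; rfl
  · rw [iE_neg hx, Set.indicator_of_notMem (show x ∉ {x | p x} from hx)]

lemma enorm_le_iE {c : ℂ} {p : Prop} (h1 : ‖c‖ ≤ 1) (h2 : c ≠ 0 → p) : ‖c‖ₑ ≤ iE p := by
  by_cases h : p
  · rw [iE_pos h, ← ofReal_norm_eq_enorm]
    exact ENNReal.ofReal_le_one.2 h1
  · have : c = 0 := by_contra fun hc => h (h2 hc)
    simp [this]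

/-! ### algebra -/

lemma om2_vg (u v : V) (G : Pr) : om2 (vg u G) (vg v G) = om2 u v * hh G := by
  simp only [om2, vg, hh]; ring

lemma om2_self (u : V) : om2 u u = 0 := by simp only [om2]; ring

lemma om2_swap (u v : V) : om2 u v = -om2 v u := by simp only [om2]; ring

lemma hh_pg (P G : Pr) : hh (pg P G) = hh P * hh G := om2_vg _ _ _

lemma vg_vg (u : V) (P G : Pr) : vg u (pg P G) = vg (vg u P) G := by
  simp only [vg, pg, Prod.mk.injEq]; constructor <;> ring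

lemma vx_vg (u : V) (G : Pr) (x : MM) : vx (vg u G) x = vx u (act G x) := by
  simp only [vx, vg, act, Prod.mk.injEq]; constructor <;> (push_cast; ring)

lemma act_pg (P G : Pr) (x : MM) : act (pg P G) x = act P (act G x) := by
  simp only [act, pg, vx_vg]

lemma dt_act (G : Pr) (x : MM) : dt (act G x) = (hh G : ℝ) * dt x := by
  simp only [dt, act, vx, hh, om2]; push_cast; ring

lemma dt_rm (m x : MM) : dt (rm m x) = dt x * dt m := by
  simp only [dt, rm, rt]; ring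

lemma vx_rm (u : V) (m x : MM) : vx u (rm m x) = rt m (vx u x) := by
  simp only [vx, rm, rt, Prod.mk.injEq]; constructor <;> ring

lemma act_rm (G : Pr) (m x : MM) : act G (rm m x) = rm m (act G x) := by
  simp only [act, rm, vx_rm]
  rw [← vx_rm, ← vx_rm]; rfl

lemma tt_pg (P G : Pr) (x : MM) : tt (pg P G) x = tt P (act G x) := by
  simp only [tt, pg, vx_vg]

lemma plucker (z : Pr × Pr) : hh z.1 * hh z.2 = nI z * rI z - pI z * sI z := by
  simp only [hh, nI, rI, pI, sI, om2]; ring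

/-- `r u = p u' - h v'`, first coordinate at `x` -/
lemma ru_one (z : Pr × Pr) (x : MM) : (rI z : ℝ) * (vx z.1.1 x).1 =
    (pI z : ℝ) * (vx z.1.2 x).1 - (hh z.1 : ℝ) * (vx z.2.2 x).1 := by
  simp only [hh, rI, pI, om2, vx]; push_cast; ring

lemma rv_one (z : Pr × Pr) (x : MM) : (rI z : ℝ) * (vx z.2.1 x).1 =
    (hh z.2 : ℝ) * (vx z.1.2 x).1 + (sI z : ℝ) * (vx z.2.2 x).1 := by
  simp only [hh, rI, sI, om2, vx]; push_cast; ring

lemma rv_two (z : Pr × Pr) (x : MM) : (rI z : ℝ) * (vx z.2.1 x).2 =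
    (hh z.2 : ℝ) * (vx z.1.2 x).2 + (sI z : ℝ) * (vx z.2.2 x).2 := by
  simp only [hh, rI, sI, om2, vx]; push_cast; ring

lemma om2_dt (u v : V) (x : MM) : (om2 u v : ℝ) * dt x =
    (vx u x).1 * (vx v x).2 - (vx u x).2 * (vx v x).1 := by
  simp only [om2, vx, dt]; push_cast; ring

lemma sg_mul {ω : ℝ} (h : ω ≠ 0) : sg ω * ω = |ω| := by
  have : |ω| ≠ 0 := abs_ne_zero.2 h
  unfold sg
  field_simp
  rw [sq_abs]

lemma sg_sq {ω : ℝ} (h : ω ≠ 0) : sg ω ^ 2 = 1 := by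
  have : |ω| ≠ 0 := abs_ne_zero.2 h
  unfold sg
  field_simp
  rw [sq_abs]

lemma abs_sg {ω : ℝ} (h : ω ≠ 0) : |sg ω| = 1 := by
  rw [sg, abs_div, abs_abs, div_self (abs_ne_zero.2 h)]

lemma dt_rot {ω : ℝ} (h : ω ≠ 0) : dt (rot (sg ω)) = 1 := by
  simp only [dt, rot]; nlinarith [sg_sq h]

/-! ### primitive vectors -/

lemma ct_dvd_one (u : V) : (ct u : ℤ) ∣ u.1 := Int.gcd_dvd_left _ _
lemma ct_dvd_two (u : V) : (ct u : ℤ) ∣ u.2 := Int.gcd_dvd_right _ _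

lemma prim_iff {u : V} : Prim u ↔ IsCoprime u.1 u.2 := Int.isCoprime_iff_gcd_eq_one.symm

lemma prim_iff_exists {u : V} : Prim u ↔ ∃ v : V, om2 v u = 1 := by
  rw [prim_iff]
  constructor
  · rintro ⟨a, b, h⟩
    exact ⟨(b, -a), by simp only [om2]; linarith⟩
  · rintro ⟨v, h⟩
    exact ⟨-v.2, v.1, by simp only [om2] at h; linarith⟩

lemma prim_two_of_hh {G : Pr} (h : hh G = 1) : Prim G.2 := prim_iff_exists.2 ⟨G.1, h⟩

lemma prim_one_of_hh {G : Pr} (h : hh G = 1) : Prim G.1 :=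
  prim_iff_exists.2 ⟨-G.2, by simp only [hh, om2, Prod.fst_neg, Prod.snd_neg] at h ⊢; linarith⟩

lemma ct_vg {G : Pr} (h : hh G = 1) (u : V) : ct (vg u G) = ct u := by
  apply Nat.dvd_antisymm
  · have h1 := ct_dvd_one (vg u G)
    have h2 := ct_dvd_two (vg u G)
    have e1 : u.1 = (vg u G).1 * G.2.2 - (vg u G).2 * G.2.1 := by
      simp only [hh, om2, vg] at h ⊢; linear_combination (-u.1) * h
    have e2 : u.2 = (vg u G).2 * G.1.1 - (vg u G).1 * G.1.2 := by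
      simp only [hh, om2, vg] at h ⊢; linear_combination (-u.2) * h
    refine Int.dvd_gcd ?_ ?_
    · rw [e1]; exact (h1.mul_right _).sub (h2.mul_right _)
    · rw [e2]; exact (h2.mul_right _).sub (h1.mul_right _)
  · have h1 := ct_dvd_one u
    have h2 := ct_dvd_two u
    exact Int.dvd_gcd ((h1.mul_right _).add (h2.mul_right _))
      ((h1.mul_right _).add (h2.mul_right _))

lemma prim_vg {G : Pr} (h : hh G = 1) (u : V) : Prim (vg u G) ↔ Prim u := by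
  rw [Prim, ct_vg h, Prim]

lemma Prim.coprime {u : V} (h : Prim u) (q : ℕ) : Nat.Coprime (ct u) q := by
  rw [show ct u = 1 from h]; exact Nat.coprime_one_left q

/-- parallel primitive vectors -/
lemma prim_par {u v : V} (hu : Prim u) (hv : Prim v) (h : om2 u v = 0) : v = u ∨ v = -u := by
  obtain ⟨a, ha⟩ := prim_iff_exists.1 hu
  obtain ⟨b, hb⟩ := prim_iff_exists.1 hv
  have e1 : v.1 = om2 a v * u.1 := by
    simp only [om2] at h ha ⊢; linear_combination (-v.1) * ha - a.1 * h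
  have e2 : v.2 = om2 a v * u.2 := by
    simp only [om2] at h ha ⊢; linear_combination (-v.2) * ha - a.2 * h
  have e3 : om2 a v * om2 b u = 1 := by
    rw [← hb]
    conv_rhs => rw [om2, e1, e2]
    simp only [om2]; ring
  rcases Int.eq_one_or_neg_one_of_mul_eq_one e3 with k | k
  · left; rw [k, one_mul] at e1 e2; exact Prod.ext e1 e2
  · right; rw [k, neg_one_mul] at e1 e2; exact Prod.ext e1 e2

/-- a vector on the line of `w` modulo `q` -/
lemma lin_mod {q : ℕ} {w u : V} (hw : Nat.Coprime (ct w) q) (h : (q : ℤ) ∣ om2 w u) :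
    ∃ k : ℤ, (q : ℤ) ∣ u.1 - k * w.1 ∧ (q : ℤ) ∣ u.2 - k * w.2 := by
  obtain ⟨s, c, hs⟩ : IsCoprime (ct w : ℤ) (q : ℤ) := Nat.isCoprime_iff_coprime.2 hw
  have hg : (ct w : ℤ) = w.1 * Int.gcdA w.1 w.2 + w.2 * Int.gcdB w.1 w.2 := Int.gcd_eq_gcd_ab _ _
  obtain ⟨n, hn⟩ := h
  rw [hg] at hs
  simp only [om2] at hn
  refine ⟨s * (u.1 * Int.gcdA w.1 w.2 + u.2 * Int.gcdB w.1 w.2),
    ⟨c * u.1 - s * Int.gcdB w.1 w.2 * n, ?_⟩, ⟨c * u.2 + s * Int.gcdA w.1 w.2 * n, ?_⟩⟩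
  · linear_combination (-u.1) * hs - s * Int.gcdB w.1 w.2 * hn
  · linear_combination (-u.2) * hs + s * Int.gcdA w.1 w.2 * hn

lemma mem_PQ {q : ℕ} {w : V} : w ∈ PQ q ↔
    (0 ≤ w.1 ∧ w.1 < q) ∧ (0 ≤ w.2 ∧ w.2 < q) ∧ Nat.Coprime (ct w) q := by
  simp only [PQ, mem_filter, mem_product, mem_Ico, and_assoc]

lemma card_PQ_le (q : ℕ) : (PQ q).card ≤ q ^ 2 := by
  refine (card_filter_le _ _).trans ?_
  simp [sq]

lemma dvd_mul_iff_div {q m : ℕ} (hq : 1 ≤ q) (n : ℤ) :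
    (q : ℤ) ∣ (m : ℤ) * n ↔ ((q / Nat.gcd m q : ℕ) : ℤ) ∣ n := by
  have hg : 0 < Nat.gcd m q := Nat.gcd_pos_of_pos_right _ hq
  obtain ⟨m', hm⟩ := Nat.gcd_dvd_left m q
  obtain ⟨q', hq'⟩ := Nat.gcd_dvd_right m q
  have hc : Nat.Coprime q' m' := by
    have := Nat.coprime_div_gcd_div_gcd hg
    rw [Nat.div_eq_of_eq_mul_right hg hm, Nat.div_eq_of_eq_mul_right hg hq'] at this
    exact this.symm
  rw [Nat.div_eq_of_eq_mul_right hg hq']
  generalize Nat.gcd m q = g at hg hm hq'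
  subst hm hq'
  push_cast
  rw [mul_assoc, mul_dvd_mul_iff_left (by exact_mod_cast hg.ne')]
  exact ⟨fun h => (Nat.isCoprime_iff_coprime.2 hc).dvd_of_dvd_mul_left h, fun h => h.mul_left _⟩

lemma isOrb_hh {z : Pr × Pr} (h : IsOrb z) : hh z.1 = z.1.1.1 := by
  simp only [hh, om2, h.1]; ring

lemma isOrb_hh_ne {z : Pr × Pr} (h : IsOrb z) : hh z.1 ≠ 0 := by
  rw [isOrb_hh h]
  exact abs_pos.1 (h.2.1.trans_lt h.2.2)

lemma isOrb_one {z : Pr × Pr} (h : IsOrb z) (h1 : hh z.1 = 1) : z.1 = ((1, 0), (0, 1)) := by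
  rw [isOrb_hh h] at h1
  obtain ⟨h2, h3, h4⟩ := h
  rw [h1, abs_one] at h4
  exact Prod.ext (Prod.ext h1 (by simp only; omega)) h2

/-! ### weights -/

lemma om_nonneg (x : ℝ) : 0 ≤ om x := by
  by_cases h : x ≤ 1
  · rw [om_eq_zero (Or.inl h)]
  · exact sub_nonneg.2 (psi_anti (by linarith))

lemma om_le_one (x : ℝ) : om x ≤ 1 := by
  unfold om; linarith [psi_le_one (3 / 4 * x), psi_nonneg x]

lemma om_mem {x : ℝ} (h : om x ≠ 0) : 1 < x ∧ x < 5 / 3 := by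
  by_contra hc
  rw [not_and_or, not_lt, not_lt] at hc
  exact h (om_eq_zero hc)

lemma om_eq_one {x : ℝ} (h1 : 5 / 4 ≤ x) (h2 : x ≤ 4 / 3) : om x = 1 := by
  unfold om; rw [psi_eq_one (by linarith), psi_eq_zero h1, sub_zero]

lemma om_zero : om 0 = 0 := om_eq_zero (Or.inl zero_le_one)

lemma continuous_om : Continuous om := contDiff_om.continuous

lemma measurable_om : Measurable om := continuous_om.measurable

lemma norm_om_le (x : ℝ) : ‖(om x : ℂ)‖ ≤ 1 := by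
  rw [Complex.norm_real, Real.norm_of_nonneg (om_nonneg x)]; exact om_le_one x

lemma om_step (z c : ℝ) : om (z / c) = psi (z / (c * (4 / 3))) - psi (z / c) := by
  unfold om; congr 2; ring

/-- telescoping -/
lemma om_tel (z c : ℝ) (I : ℕ) : ∑ i ∈ range I, om (z / (c * (4 / 3) ^ i)) =
    psi (z / (c * (4 / 3) ^ I)) - psi (z / c) := by
  induction I with
  | zero => simp
  | succ I ih => rw [sum_range_succ, ih, om_step, pow_succ, mul_assoc]; ring

lemma om_three {z : ℝ} (h1 : 15 / 16 ≤ z) (h2 : z ≤ 16 / 9) :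
    ∑ i ∈ Icc (-1 : ℤ) 1, om (z / (4 / 3) ^ i) = 1 := by
  have h := om_tel z (3 / 4) 3
  rw [psi_eq_one (by rw [div_le_one (by norm_num)]; linarith),
    psi_eq_zero (by rw [le_div_iff₀ (by norm_num)]; linarith)] at h
  rw [show Icc (-1 : ℤ) 1 = {-1, 0, 1} by decide, sum_insert (by decide), sum_insert (by decide),
    sum_singleton]
  simp only [sum_range_succ, sum_range_zero] at h
  norm_num at h ⊢
  linarith

lemma om_eight {z : ℝ} (h1 : 135 / 256 ≤ z) (h2 : z ≤ 4) :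
    ∑ i ∈ Ico (-3 : ℤ) 5, om (z / (4 / 3) ^ i) = 1 := by
  have h := om_tel z (27 / 64) 8
  rw [psi_eq_one (by rw [div_le_one (by norm_num)]; norm_num; linarith),
    psi_eq_zero (by rw [le_div_iff₀ (by norm_num)]; linarith)] at h
  rw [show Ico (-3 : ℤ) 5 = {-3, -2, -1, 0, 1, 2, 3, 4} by decide, sum_insert (by decide),
    sum_insert (by decide), sum_insert (by decide), sum_insert (by decide),
    sum_insert (by decide), sum_insert (by decide), sum_insert (by decide), sum_singleton]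
  simp only [sum_range_succ, sum_range_zero] at h
  norm_num at h ⊢
  linarith

lemma norm_E_le (ξ z : ℝ) : ‖E ξ z‖ ≤ 1 := by
  rw [E, norm_mul, norm_ex, mul_one]; exact norm_om_le z

lemma E_mem {ξ z : ℝ} (h : E ξ z ≠ 0) : 1 < z ∧ z < 5 / 3 :=
  om_mem fun h0 => h (by rw [E, h0, Complex.ofReal_zero, zero_mul])

lemma E_zero (ξ : ℝ) : E ξ 0 = 0 := by rw [E, om_zero, Complex.ofReal_zero, zero_mul]

lemma E_add (ξ ζ z : ℝ) : E (ξ + ζ) z = E ξ z * ex (ζ * z) := by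
  rw [E, E, add_mul, ex_add, mul_assoc]

lemma continuous_E : Continuous fun p : ℝ × ℝ => E p.1 p.2 :=
  (Complex.continuous_ofReal.comp (continuous_om.comp continuous_snd)).mul
    (continuous_ex.comp (continuous_fst.mul continuous_snd))

lemma measurable_E {X : Type*} [MeasurableSpace X] {f g : X → ℝ} (hf : Measurable f)
    (hg : Measurable g) : Measurable fun x => E (f x) (g x) :=
  (Complex.measurable_ofReal.comp (measurable_om.comp hg)).mul
    (continuous_ex.measurable.comp (hf.mul hg))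

lemma contDiff_ex : ContDiff ℝ (⊤ : ℕ∞) ex := by
  unfold ex
  refine Complex.contDiff_exp.comp (contDiff_const.mul ?_)
  exact Complex.ofRealCLM.contDiff.comp (contDiff_const.mul contDiff_id)

lemma contDiff_E (ξ : ℝ) : ContDiff ℝ (⊤ : ℕ∞) (E ξ) :=
  (Complex.ofRealCLM.contDiff.comp contDiff_om).mul
    (contDiff_ex.comp (contDiff_const.mul contDiff_id))

lemma hasCompactSupport_E (ξ : ℝ) : HasCompactSupport (E ξ) :=
  HasCompactSupport.intro (isCompact_Icc (a := 1) (b := 5 / 3)) fun x hx => by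
    by_contra h
    exact hx ⟨(E_mem h).1.le, (E_mem h).2.le⟩

lemma measurable_Eh (ξ : ℝ) : Measurable (Eh ξ) := by
  have h : Continuous fun p : ℝ × ℝ => E ξ p.2 * ex (-(p.1 * p.2)) :=
    ((contDiff_E ξ).continuous.comp continuous_snd).mul
      (continuous_ex.comp (continuous_fst.mul continuous_snd).neg)
  exact (h.stronglyMeasurable.integral_prod_right' (ν := volume)).measurable

lemma abs_of_mem {a b : ℝ} (h : 1 < a / b ∧ a / b < 5 / 3) :
    b ≠ 0 ∧ |b| < |a| ∧ |a| < 5 / 3 * |b| := by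
  have hb : b ≠ 0 := by
    rintro rfl
    rw [div_zero] at h
    linarith [h.1]
  have hb' : 0 < |b| := abs_pos.2 hb
  have e : a / b = |a| / |b| := by rw [← abs_div, abs_of_pos (by linarith [h.1])]
  rw [e, lt_div_iff₀ hb', div_lt_iff₀ hb', one_mul] at h
  exact ⟨hb, h.1, h.2⟩

lemma bb_nonneg (x : ℝ) : 0 ≤ bb x := bmp.nonneg
lemma bb_le_one (x : ℝ) : bb x ≤ 1 := bmp.le_one
lemma contDiff_bb : ContDiff ℝ (⊤ : ℕ∞) bb := bmp.contDiff

lemma bb_mem {x : ℝ} (h : bb x ≠ 0) : |x| < 1 / 100 := by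
  have : x ∈ Function.support bmp := h
  rw [bmp.support_eq, Metric.mem_ball, dist_zero_right, Real.norm_eq_abs] at this
  exact this

lemma th_mem {a₁ a₂ b₁ b₂ : ℝ} (h : th a₁ a₂ b₁ b₂ ≠ 0) : |a₁ - 1| < 1 / 100 ∧ |a₂| < 1 / 100 ∧
    |b₁| < 1 / 100 ∧ |b₂ - 32 / 25| < 1 / 100 := by
  simp only [th, mul_ne_zero_iff] at h
  exact ⟨bb_mem h.1.1.1, bb_mem h.1.1.2, bb_mem h.1.2, bb_mem h.2⟩

lemma iv_eq {x : ℝ} (h : 1 / 10 ≤ x) : iv x = x⁻¹ := by
  rw [iv, Real.smoothTransition.one_of_one_le (by linarith), one_mul]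

lemma contDiff_iv : ContDiff ℝ (⊤ : ℕ∞) iv := by
  refine contDiff_iff_contDiffAt.2 fun x => ?_
  by_cases hx : x = 0
  · refine (contDiffAt_const (c := (0 : ℝ))).congr_of_eventuallyEq ?_
    filter_upwards [Iio_mem_nhds (show x < 1 / 20 by rw [hx]; norm_num)] with z hz
    rw [iv, Real.smoothTransition.zero_of_nonpos (by linarith [Set.mem_Iio.1 hz]), zero_mul]
  · exact (Real.smoothTransition.contDiff.comp (by fun_prop)).contDiffAt.mul
      (contDiffAt_inv ℝ hx)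

lemma cut_eq_one {y : Fin 9 → ℝ} (h : ∀ i, |y i| ≤ 10) : cut y = 1 :=
  prod_eq_one fun i _ => bmq.one_of_mem_closedBall (by
    rw [Metric.mem_closedBall, dist_zero_right, Real.norm_eq_abs]; exact h i)

/-! ### arithmetic -/

lemma le_psiD (q : ℕ) : (q : ℝ) ≤ psiD q :=
  le_mul_of_one_le_right (Nat.cast_nonneg _)
    (Finset.one_le_prod fun p _ => le_add_of_nonneg_right (by positivity))

lemma one_le_psiD {q : ℕ} (hq : 1 ≤ q) : 1 ≤ psiD q :=
  (show (1 : ℝ) ≤ q by exact_mod_cast hq).trans (le_psiD q)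

lemma norm_ind_le (q : ℕ) (n : ℤ) : ‖ind q n‖ ≤ 1 := norm_iC_le _

lemma norm_dl_le {q : ℕ} (hq : 1 ≤ q) (n : ℤ) : ‖dl q n‖ ≤ 1 := by
  have h1 := one_le_psiD hq
  have h2 : 0 ≤ 1 / psiD q := by positivity
  have h3 : 1 / psiD q ≤ 1 := by rw [div_le_one (by linarith)]; exact h1
  unfold dl ind
  by_cases h : (q : ℤ) ∣ n
  · rw [iC_pos h, ← Complex.ofReal_one, ← Complex.ofReal_sub, Complex.norm_real,
      Real.norm_of_nonneg (by linarith)]
    linarith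
  · rw [iC_neg h, zero_sub, norm_neg, Complex.norm_real, Real.norm_of_nonneg h2]; exact h3

lemma norm_dlT_le {a b e : ℕ} (ha : 1 ≤ a) (hb : 1 ≤ b) (P : Pr) : ‖dlT a b e P‖ ≤ 1 := by
  have h1 : ∀ a : ℕ, 1 ≤ a → 1 ≤ ap a e := fun a ha =>
    Nat.div_pos (Nat.gcd_le_left _ ha) (Nat.gcd_pos_of_pos_left _ ha)
  rw [dlT, norm_mul]
  exact mul_le_one₀ (norm_iC_le _) (norm_nonneg _)
    (norm_dl_le (Nat.mul_pos (h1 a ha) (h1 b hb)) _)

lemma DivB_log {X Y : ℕ} {Δ : ℝ} (h : DivB X Δ) (hY : Y ≤ X) : (Nat.log 2 Y : ℝ) + 1 ≤ Δ := by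
  rcases Nat.eq_zero_or_pos Y with rfl | h0
  · simpa using h.1
  have h1 := h.2 _ ((Nat.pow_log_le_self 2 h0.ne').trans hY)
  rw [Nat.divisors_prime_pow Nat.prime_two, card_map, card_range] at h1
  exact_mod_cast h1

lemma harm_le {X M : ℕ} {Δ : ℝ} (h : DivB X Δ) (hM : M ≤ X) :
    ∑ m ∈ Icc 1 M, 1 / (m : ℝ) ≤ 2 * Δ := by
  rcases Nat.eq_zero_or_pos M with rfl | h0
  · simpa using zero_le_one.trans h.1
  have h1 : ∑ m ∈ Icc 1 M, 1 / (m : ℝ) ≤ 1 + Real.log M := by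
    have := harmonic_le_one_add_log M
    rw [harmonic_eq_sum_Icc] at this
    push_cast at this
    simpa only [one_div] using this
  have h2 : Real.log M ≤ ((Nat.log 2 M : ℝ) + 1) * Real.log 2 := by
    have h3 : (M : ℝ) ≤ 2 ^ (Nat.log 2 M + 1) := by
      exact_mod_cast (Nat.lt_pow_succ_log_self one_lt_two M).le
    have := Real.log_le_log (by exact_mod_cast h0) h3
    rwa [Real.log_pow, Nat.cast_add, Nat.cast_one] at this
  have h4 : Real.log 2 ≤ 1 := by linarith [Real.log_two_lt_d9]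
  have h5 := DivB_log h hM
  nlinarith [h.1, Nat.cast_nonneg (α := ℝ) (Nat.log 2 M)]

/-- a divisor bound up to `B * Λ ^ k` whose `j`-th power is at most `C * Λ ^ ε` -/
lemma exD (k j : ℕ) (B : ℝ) {ε : ℝ} (hε : 0 < ε) : ∃ C : ℝ, 1 ≤ C ∧ ∀ Λ : ℝ, 1 ≤ Λ →
    ∃ (X : ℕ) (Δ : ℝ), DivB X Δ ∧ B * Λ ^ k ≤ X ∧ Δ ^ j ≤ C * Λ ^ ε := by
  have hη : 0 < ε / ((k + 1) * (j + 1)) := by positivity
  obtain ⟨C, hC, h⟩ := exists_DivB hη
  set η := ε / ((k + 1) * (j + 1)) with hηe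
  have hB : 1 ≤ |B| + 1 := by linarith [abs_nonneg B]
  refine ⟨(C * (|B| + 2) ^ η) ^ j, one_le_pow₀ (one_le_mul_of_one_le_of_one_le hC
    (Real.one_le_rpow (by linarith) hη.le)), fun Λ hΛ => ?_⟩
  have hk : 1 ≤ Λ ^ k := one_le_pow₀ hΛ
  have h1 : 1 ≤ (|B| + 1) * Λ ^ k := one_le_mul_of_one_le_of_one_le hB hk
  have h2 : 1 ≤ ⌈(|B| + 1) * Λ ^ k⌉₊ := Nat.one_le_ceil_iff.2 (by linarith)
  refine ⟨_, _, h _ h2, le_trans ?_ (Nat.le_ceil _), ?_⟩
  · nlinarith [le_abs_self B]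
  have h3 : (⌈(|B| + 1) * Λ ^ k⌉₊ : ℝ) ≤ (|B| + 2) * Λ ^ k := by
    linarith [(Nat.ceil_lt_add_one (by linarith : 0 ≤ (|B| + 1) * Λ ^ k)).le]
  have h4 : ((Λ ^ k) ^ η) ^ j ≤ Λ ^ ε := by
    rw [← Real.rpow_natCast Λ k, ← Real.rpow_mul (by linarith), ← Real.rpow_mul_natCast
      (by linarith)]
    refine Real.rpow_le_rpow_of_exponent_le hΛ ?_
    rw [hηe, mul_div_assoc', div_mul_eq_mul_div, div_le_iff₀ (by positivity)]
    nlinarith [Nat.cast_nonneg (α := ℝ) k, Nat.cast_nonneg (α := ℝ) j,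
      mul_nonneg hε.le (Nat.cast_nonneg (α := ℝ) k), mul_nonneg hε.le (Nat.cast_nonneg (α := ℝ) j)]
  calc (C * (⌈(|B| + 1) * Λ ^ k⌉₊ : ℝ) ^ η) ^ j ≤ (C * ((|B| + 2) * Λ ^ k) ^ η) ^ j := by gcongr
    _ = (C * (|B| + 2) ^ η) ^ j * ((Λ ^ k) ^ η) ^ j := by
      rw [Real.mul_rpow (by linarith) (by linarith), ← mul_assoc, mul_pow]
    _ ≤ _ := by gcongr

end Pool.Agent.MP_c853c5_nt.W

end

section

set_option autoImplicit false

open Finset MeasureTheory Filter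
open scoped ENNReal ComplexConjugate

namespace Pool.Agent.MP_c853c5_nt.W

open Pool.Agent.MP_2a1f0e_nt Pool.Agent.MP_2a1f0e_nt.GM Pool.Agent.MP_2a1f0e_nt.DH

/-! ### measurability -/

lemma continuous_vx (u : V) : Continuous (vx u) := by unfold vx; fun_prop
lemma continuous_act (G : Pr) : Continuous (act G) := (continuous_vx _).prodMk (continuous_vx _)
lemma continuous_dt : Continuous dt := by unfold dt; fun_prop
lemma continuous_rt (m : MM) : Continuous (rt m) := by unfold rt; fun_prop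
lemma continuous_rm (m : MM) : Continuous (rm m) := by unfold rm rt; fun_prop

lemma measurable_tt (P : Pr) : Measurable (tt P) :=
  (continuous_vx P.1).fst.measurable.div (continuous_vx P.2).fst.measurable

lemma measurableSet_Cn (α : ℝ) : MeasurableSet {a : R2 | Cn α a} :=
  (measurableSet_le measurable_const measurable_fst).inter
    ((measurableSet_le measurable_fst measurable_const).inter
      (measurableSet_le (continuous_snd.abs.measurable) measurable_fst))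

lemma measurableSet_SupA (α H2 H : ℝ) (P : Pr) : MeasurableSet {x | SupA α H2 H P x} :=
  (MeasurableSet.const _).inter ((MeasurableSet.const _).inter
    (((continuous_vx P.2).measurable (measurableSet_Cn α)).inter
    ((measurableSet_le measurable_const continuous_dt.measurable).inter
    ((measurableSet_le continuous_dt.measurable measurable_const).inter
    ((measurableSet_le (continuous_abs.measurable.comp (measurable_tt P)) measurable_const).inter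
    ((MeasurableSet.const _).inter (MeasurableSet.const _)))))))

lemma measurableSet_Sup (α H2 H : ℝ) (P : Pr) : MeasurableSet {x | Sup α H2 H P x} :=
  (MeasurableSet.const _).inter (measurableSet_SupA α H2 H P)

lemma measurableSet_SupL (α : ℝ) (P : Pr) : MeasurableSet {x | SupL α P x} :=
  (MeasurableSet.const _).inter (measurableSet_SupA α 1 1 P)

lemma measurableSet_An (G : Pr) : MeasurableSet {x | An G x} :=
  (MeasurableSet.const _).inter ((measurableSet_le measurable_const (measurable_tt G)).inter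
    (measurableSet_lt (measurable_tt G) measurable_const))

lemma measurable_ctsum {X ι : Type*} [MeasurableSpace X] [Countable ι] {f : ι → X → ℂ}
    (hf : ∀ i, Measurable (f i)) : Measurable fun x => ∑' i, f i x := by
  have hs : MeasurableSet {x | ∑' i, ‖f i x‖ₑ ≠ ⊤} :=
    ((Measurable.ennreal_tsum fun i => (hf i).enorm) (measurableSet_singleton ⊤)).compl
  have hi : ∀ x, ∑' i, ‖f i x‖ₑ ≠ ⊤ ↔ Summable fun i => f i x := fun x => by
    rw [← summable_norm_iff]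
    simp only [enorm_eq_nnnorm]
    rw [ENNReal.tsum_coe_ne_top_iff_summable, ← NNReal.summable_coe]
    rfl
  refine measurable_of_tendsto_metrizable' (atTop : Filter (Finset ι))
    (f := fun t => Set.indicator {x | ∑' i, ‖f i x‖ₑ ≠ ⊤} fun x => ∑ i ∈ t, f i x)
    (fun t => (Finset.measurable_sum t fun i _ => hf i).indicator hs) ?_
  refine tendsto_pi_nhds.2 fun x => ?_
  by_cases hx : x ∈ {x | ∑' i, ‖f i x‖ₑ ≠ ⊤}
  · simp only [Set.indicator_of_mem hx]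
    exact ((hi x).1 hx).hasSum
  · simp only [Set.indicator_of_notMem hx]
    rw [tsum_eq_zero_of_not_summable fun h => hx ((hi x).2 h)]
    exact tendsto_const_nhds

lemma measurable_vf {X : Type*} [MeasurableSpace X] (q : ℕ) (pt : Pr → V) {F : Pr → X → ℂ}
    (hF : ∀ P, Measurable (F P)) (w : V) :
    Measurable fun x => ∑' P : Pr, F P x * ind q (om2 w (pt P)) :=
  measurable_ctsum fun P => (hF P).mul_const _

lemma MF_vf (q : ℕ) (pt : Pr → V) {Ψ : Pk} (h : ∀ P, Measurable (Ψ P)) : MF (vf q pt Ψ) :=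
  fun w => measurable_vf q pt h w

lemma MF.const_mul {f : Fld} (h : MF f) (c : ℂ) : MF fun x w => c * f x w :=
  fun w => (h w).const_mul c

lemma measurable_NC {X : Type*} [MeasurableSpace X] (q : ℕ) {f : X → V → ℂ} {c : X → ℂ}
    (hf : ∀ w, Measurable fun x => f x w) (hc : Measurable c) :
    Measurable fun x => NC q (f x) (c x) :=
  (Finset.measurable_sum _ fun w _ => ((hf w).sub hc).norm.pow_const 2).div_const _

lemma measurable_av {X : Type*} [MeasurableSpace X] (q : ℕ) {f : X → V → ℂ}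
    (hf : ∀ w, Measurable fun x => f x w) : Measurable fun x => av q (f x) :=
  (Finset.measurable_sum _ fun w _ => hf w).div_const _

lemma measurable_NV {X : Type*} [MeasurableSpace X] (q : ℕ) {f : X → V → ℂ}
    (hf : ∀ w, Measurable fun x => f x w) : Measurable fun x => NV q (f x) :=
  measurable_NC q hf (measurable_av q hf)

/-! ### the class -/

lemma measurable_pa {d : Dat} (h : Measurable d.g) (P : Pr) : Measurable (pa d P) :=
  ((((h.comp (continuous_vx P.2).measurable).const_mul _).mul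
    (Complex.measurable_ofReal.comp (measurable_om.comp continuous_dt.measurable))).mul
    (measurable_E measurable_const ((measurable_tt P).div_const _))).mul_const _

lemma measurable_pk {d : Dat} (h : Measurable d.g) (P : Pr) : Measurable (pk d P) :=
  (measurable_pa h P).const_mul _

lemma measurable_pd {d : Dat} (h : Measurable d.g) (q : ℕ) (P : Pr) : Measurable (pd d q P) :=
  ((((h.comp (continuous_vx P.2).measurable).const_mul _).mul
    (Complex.measurable_ofReal.comp (measurable_om.comp continuous_dt.measurable))).mul_const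
    _).mul (((measurable_Eh _).comp
      (((measurable_tt P).const_mul _).div_const _).neg).const_mul _)

lemma measurable_pc {d : Dat} (h : Measurable d.g) (q : ℕ) (H' T' : ℝ) (P : Pr) :
    Measurable (pc d q H' T' P) :=
  (measurable_pd h q P).mul (Complex.measurable_ofReal.comp
    ((measurable_om.comp ((measurable_tt P).div_const _)).const_mul _))

lemma measurable_tm {d : Dat} (h : Measurable d.g) (q : ℕ) (H' T₀ : ℝ) (P : Pr) :
    Measurable (tm d q H' T₀ P) :=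
  (measurable_pd h q P).mul (Complex.measurable_ofReal.comp
    ((contDiff_psi.continuous.measurable.comp
      ((continuous_abs.measurable.comp (measurable_tt P)).div_const _)).const_mul _))

lemma MF_lnF {d : Dat} (h : Measurable d.g) (q : ℕ) : MF (lnF d q) := fun w =>
  measurable_ctsum fun G => ((((measurable_iC (measurableSet_An G)).mul
    (h.comp (continuous_vx G.2).measurable)).mul
    (Complex.measurable_ofReal.comp (measurable_om.comp continuous_dt.measurable))).mul_const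
    _).mul_const _

lemma pa_inv (d : Dat) (P : Pr) {G : Pr} (x : MM) (h : hh G = 1) :
    pa d (pg P G) x = pa d P (act G x) := by
  simp only [pa, tt_pg, hh_pg, dt_act, h, mul_one, Int.cast_one, one_mul]
  rw [show (pg P G).2 = vg P.2 G from rfl, vx_vg, iC_congr (prim_vg h _)]

lemma pk_inv (d : Dat) (P : Pr) {G : Pr} (x : MM) (h : hh G = 1) :
    pk d (pg P G) x = pk d P (act G x) := by
  simp only [pk, pa_inv d P x h]
  rw [show (pg P G).1 = vg P.1 G from rfl, iC_congr (prim_vg h _)]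

lemma supA_inv (α H2 H : ℝ) (P : Pr) {G : Pr} (x : MM) (h : hh G = 1) :
    SupA α H2 H (pg P G) x ↔ SupA α H2 H P (act G x) := by
  simp only [SupA, tt_pg, hh_pg, dt_act, h, mul_one, Int.cast_one, one_mul]
  rw [show (pg P G).2 = vg P.2 G from rfl, vx_vg, prim_vg h]

lemma sup_inv (α H2 H : ℝ) (P : Pr) {G : Pr} (x : MM) (h : hh G = 1) :
    Sup α H2 H (pg P G) x ↔ Sup α H2 H P (act G x) := by
  rw [Sup, Sup, supA_inv α H2 H P x h, show (pg P G).1 = vg P.1 G from rfl, prim_vg h]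

lemma supL_inv (α : ℝ) (P : Pr) {G : Pr} (x : MM) (h : hh G = 1) :
    SupL α (pg P G) x ↔ SupL α P (act G x) := by
  rw [SupL, SupL, supA_inv α 1 1 P x h, hh_pg, h, mul_one]

lemma norm_pa_le {d : Dat} (h : ∀ a, ‖d.g a‖ ≤ 1) (P : Pr) (x : MM) : ‖pa d P x‖ ≤ 1 := by
  simp only [pa, norm_mul]
  exact mul_le_one₀ (mul_le_one₀ (mul_le_one₀ (mul_le_one₀ (norm_iC_le _) (norm_nonneg _) (h _))
    (norm_nonneg _) (norm_om_le _)) (norm_nonneg _) (norm_E_le _ _)) (norm_nonneg _)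
    (norm_E_le _ _)

lemma norm_pk_le {d : Dat} (h : ∀ a, ‖d.g a‖ ≤ 1) (P : Pr) (x : MM) : ‖pk d P x‖ ≤ 1 := by
  rw [pk, norm_mul]
  exact mul_le_one₀ (norm_iC_le _) (norm_nonneg _) (norm_pa_le h P x)

/-- the exact support of `pa` -/
lemma pa_mem {d : Dat} {P : Pr} {x : MM} (h : pa d P x ≠ 0) : Prim P.2 ∧ d.g (vx P.2 x) ≠ 0 ∧
    (1 < dt x ∧ dt x < 5 / 3) ∧ (1 < tt P x / d.H2 ∧ tt P x / d.H2 < 5 / 3) ∧
    (1 < (hh P : ℝ) / d.H ∧ (hh P : ℝ) / d.H < 5 / 3) := by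
  simp only [pa, mul_ne_zero_iff] at h
  exact ⟨iC_ne_zero h.1.1.1.1, h.1.1.1.2, om_mem (Complex.ofReal_ne_zero.1 h.1.1.2), E_mem h.1.2,
    E_mem h.2⟩

lemma pa_sup {d : Dat} (hd : Adm d.al d.g) {H2' : ℝ} (h2 : 5 / 6 * |d.H2| ≤ |H2'|) {P : Pr}
    {x : MM} (h : pa d P x ≠ 0) : SupA d.al H2' d.H P x := by
  obtain ⟨h1, h3, h4, h5, h6⟩ := pa_mem h
  obtain ⟨-, -, h7⟩ := abs_of_mem h5
  obtain ⟨h8, h9, h10⟩ := abs_of_mem h6
  refine ⟨h1, fun h0 => ?_, hd.2.2 _ h3, h4.1.le, by linarith [h4.2], by linarith, h9.le,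
    by linarith [abs_nonneg d.H]⟩
  rw [h0, Int.cast_zero, abs_zero] at h9
  linarith [abs_nonneg d.H]

lemma pa_supA {d : Dat} (hd : Adm d.al d.g) {P : Pr} {x : MM} (h : pa d P x ≠ 0) :
    SupA d.al d.H2 d.H P x := pa_sup hd (by linarith [abs_nonneg d.H2]) h

lemma pac_pk {d : Dat} (hd : Adm d.al d.g) {H2' : ℝ} (h2 : 5 / 6 * |d.H2| ≤ |H2'|) :
    Pac (Sup d.al H2' d.H) (pk d) :=
  ⟨measurable_pk hd.1, fun P _ x h => pk_inv d P x h, norm_pk_le hd.2.1, fun P x h =>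
    ⟨iC_ne_zero (left_ne_zero_of_mul h), pa_sup hd h2 (right_ne_zero_of_mul h)⟩⟩

lemma pac_pk' {d : Dat} (hd : Adm d.al d.g) : Pac (Sup d.al d.H2 d.H) (pk d) :=
  pac_pk hd (by linarith [abs_nonneg d.H2])

lemma SupA.half {α H2 H : ℝ} {P : Pr} {x : MM} (h : SupA α H2 H P x) : 1 / 2 ≤ |H| := by
  have h1 : (1 : ℝ) ≤ |(hh P : ℝ)| := by exact_mod_cast Int.one_le_abs h.2.1
  linarith [h.2.2.2.2.2.2.2]

lemma InvB.half {α H2 H : ℝ} {z : Pr × Pr} (h : InvB α H2 H z) : 1 / 2 ≤ |H| := by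
  have h1 : (1 : ℝ) ≤ |(hh z.1 : ℝ)| := by exact_mod_cast Int.one_le_abs h.1
  linarith [h.2.2.2.1]

lemma pa_eq_zero {d : Dat} (hd : Adm d.al d.g) (h : |d.H| < 1 / 2 ∨ d.H2 = 0) : pa d = 0 := by
  funext P x
  by_contra h0
  rcases h with h | h
  · linarith [(pa_supA hd h0).half]
  · exact (abs_of_mem (pa_mem h0).2.2.2.1).1 h

lemma pk_eq_zero {d : Dat} (hd : Adm d.al d.g) (h : |d.H| < 1 / 2 ∨ d.H2 = 0) : pk d = 0 := by
  funext P x
  simp [pk, pa_eq_zero hd h]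

lemma Dat.PP_nonneg (d : Dat) : 0 ≤ d.PP := by unfold Dat.PP; positivity
lemma Dat.DD_nonneg (d : Dat) : 0 ≤ d.DD := by
  have := d.PP_nonneg
  unfold Dat.DD; positivity
lemma Dat.XX_nonneg (d : Dat) : 0 ≤ d.XX := by
  have := d.PP_nonneg
  unfold Dat.XX; positivity
lemma Dat.X_nonneg (d : Dat) : 0 ≤ d.X := by unfold Dat.X; positivity
lemma Dat.CC_nonneg (d : Dat) (Q : ℕ) : 0 ≤ d.CC Q := by unfold Dat.CC; positivity
lemma Dat.one_le_xi (d : Dat) : 1 ≤ d.xi := by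
  unfold Dat.xi; linarith [abs_nonneg d.x1, abs_nonneg d.x2]

lemma Dat.XX_eq (d : Dat) (h : d.H ≠ 0) : d.XX = d.DD * d.X := by
  have h1 : |d.H| ≠ 0 := abs_ne_zero.2 h
  unfold Dat.XX Dat.DD Dat.X Dat.PP
  rw [← sq_abs d.H, ← sq_abs d.H2]
  field_simp

lemma Dat.ok.one_le {d : Dat} {Λ : ℝ} {Q : ℕ} (h : d.ok Λ Q) : 1 ≤ Λ :=
  (show (1 : ℝ) ≤ Q by exact_mod_cast h.2.2.2.2.2.1).trans h.2.2.2.2.2.2

lemma Dat.ok.bd {d : Dat} {Λ : ℝ} {Q : ℕ} (h : d.ok Λ Q) : Bd Λ d.al d.H2 d.H :=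
  ⟨h.one_le, h.1, h.2.2.1, h.2.2.2.1, h.2.2.2.2.1⟩

lemma Dat.sc_PP (d : Dat) (m : ℕ) : (d.sc m).PP = d.PP / (m : ℝ) ^ 2 := by
  simp only [Dat.sc, Dat.PP, abs_div, Nat.abs_cast]; ring

lemma Dat.sc_DD (d : Dat) (m : ℕ) : (d.sc m).DD = d.DD / (m : ℝ) ^ 2 := by
  rw [Dat.DD, Dat.sc_PP]; simp only [Dat.sc, Dat.DD]; ring

lemma Dat.sc_XX (d : Dat) (m : ℕ) : (d.sc m).XX = d.XX / (m : ℝ) ^ 2 := by
  rw [Dat.XX, Dat.sc_PP]; simp only [Dat.sc, Dat.XX]; ring

lemma Dat.ok.sc {d : Dat} {Λ : ℝ} {Q Q' m : ℕ} (h : d.ok Λ Q) (hm : 1 ≤ m) (h1 : 1 ≤ Q')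
    (h2 : Q' ≤ Q) : (d.sc m).ok Λ Q' := by
  have hm' : (1 : ℝ) ≤ m := by exact_mod_cast hm
  have k : ∀ a : ℝ, |a / m| ≤ |a| := fun a => by
    rw [abs_div, Nat.abs_cast]; exact div_le_self (abs_nonneg _) hm'
  exact ⟨h.1, h.2.1, h.2.2.1, (k _).trans h.2.2.2.1, (k _).trans h.2.2.2.2.1, h1,
    (show (Q' : ℝ) ≤ Q by exact_mod_cast h2).trans h.2.2.2.2.2.2⟩

lemma cq_facts {Q g : ℕ} (hQ : 1 ≤ Q) (hg : 1 ≤ g) :
    1 ≤ cq Q g ∧ cq Q g ≤ Q ∧ Q ≤ g * cq Q g ∧ g * cq Q g < Q + g := by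
  have h1 := Nat.div_add_mod (Q + g - 1) g
  have h2 := Nat.mod_lt (Q + g - 1) hg
  have h3 : Q ≤ g * cq Q g := by unfold cq; omega
  have h4 : g * cq Q g < Q + g := by unfold cq; omega
  refine ⟨Nat.pos_of_ne_zero fun h => by rw [h] at h3; omega, ?_, h3, h4⟩
  by_contra hc
  have : g * (Q + 1) ≤ g * cq Q g := Nat.mul_le_mul_left _ (by omega)
  nlinarith

/-! ### the quadratic forms -/

lemma NC_nonneg (q : ℕ) (f : V → ℂ) (c : ℂ) : 0 ≤ NC q f c := by unfold NC; positivity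

lemma NV_nonneg (q : ℕ) (f : V → ℂ) : 0 ≤ NV q f := NC_nonneg _ _ _

lemma av_congr {q : ℕ} {f g : V → ℂ} (h : ∀ w ∈ PQ q, f w = g w) : av q f = av q g := by
  rw [av, av, sum_congr rfl h]

lemma NC_congr {q : ℕ} {f g : V → ℂ} (h : ∀ w ∈ PQ q, f w = g w) (c : ℂ) :
    NC q f c = NC q g c := by
  rw [NC, NC, sum_congr rfl fun w hw => by rw [h w hw]]

lemma NV_congr {q : ℕ} {f g : V → ℂ} (h : ∀ w ∈ PQ q, f w = g w) : NV q f = NV q g := by
  rw [NV, NV, av_congr h, NC_congr h]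

lemma sum_sub_av (q : ℕ) (f : V → ℂ) : ∑ w ∈ PQ q, (f w - av q f) = 0 := by
  rw [sum_sub_distrib, sum_const, nsmul_eq_mul, av]
  by_cases h : (PQ q).card = 0
  · simp [card_eq_zero.1 h]
  · rw [mul_div_cancel₀ _ (Nat.cast_ne_zero.2 h), sub_self]

lemma NV_le_NC (q : ℕ) (f : V → ℂ) (c : ℂ) : NV q f ≤ NC q f c := by
  unfold NV NC
  refine div_le_div_of_nonneg_right ?_ (Nat.cast_nonneg _)
  have h : ∀ w, ‖f w - av q f‖ ^ 2 + 2 * ((f w - av q f) * conj (av q f - c)).re ≤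
      ‖f w - c‖ ^ 2 := fun w => by
    rw [show f w - c = (f w - av q f) + (av q f - c) by ring, ← Complex.normSq_eq_norm_sq,
      ← Complex.normSq_eq_norm_sq, Complex.normSq_add]
    linarith [Complex.normSq_nonneg (av q f - c)]
  refine le_trans (le_of_eq ?_) (sum_le_sum fun w _ => h w)
  rw [sum_add_distrib, ← mul_sum, ← Complex.re_sum, ← sum_mul, sum_sub_av]
  simp

lemma NC_mul (q : ℕ) (a : ℂ) (f : V → ℂ) (c : ℂ) :
    NC q (fun w => a * f w) (a * c) = ‖a‖ ^ 2 * NC q f c := by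
  simp only [NC, ← mul_sub, norm_mul, mul_pow, ← mul_sum, mul_div_assoc]

lemma av_mul (q : ℕ) (a : ℂ) (f : V → ℂ) : av q (fun w => a * f w) = a * av q f := by
  simp only [av, ← mul_sum, mul_div_assoc]

lemma NV_mul (q : ℕ) (a : ℂ) (f : V → ℂ) : NV q (fun w => a * f w) = ‖a‖ ^ 2 * NV q f := by
  rw [NV, av_mul, NC_mul, NV]

lemma NV_add_const_le (q : ℕ) (f : V → ℂ) (c : ℂ) : NV q (fun w => f w + c) ≤ NV q f :=
  (NV_le_NC q _ (av q f + c)).trans_eq (by simp only [NC, NV, add_sub_add_right_eq_sub])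

lemma NC_mono {q : ℕ} {f g : V → ℂ} (h : ∀ w ∈ PQ q, ‖f w‖ ≤ ‖g w‖) : NC q f 0 ≤ NC q g 0 := by
  unfold NC
  refine div_le_div_of_nonneg_right (sum_le_sum fun w hw => ?_) (Nat.cast_nonneg _)
  rw [sub_zero, sub_zero]
  exact pow_le_pow_left₀ (norm_nonneg _) (h w hw) 2

lemma NC_le_sq {q : ℕ} (hq : 1 ≤ q) {f : V → ℂ} {B : ℝ} (h : ∀ w ∈ PQ q, ‖f w‖ ≤ B) :
    NC q f 0 ≤ (q : ℝ) ^ 2 * B ^ 2 := by
  have h1 : (1 : ℝ) ≤ q.totient := by exact_mod_cast Nat.totient_pos.2 hq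
  refine (div_le_self (by positivity) h1).trans ?_
  refine (sum_le_card_nsmul _ _ (B ^ 2) fun w hw => ?_).trans ?_
  · rw [sub_zero]; exact pow_le_pow_left₀ (norm_nonneg _) (h w hw) 2
  · rw [nsmul_eq_mul]
    exact mul_le_mul_of_nonneg_right (by exact_mod_cast card_PQ_le q) (sq_nonneg _)

/-- weighted Cauchy inequality -/
lemma NC_sum_le {ι : Type*} (q : ℕ) (J : Finset ι) (f : ι → V → ℂ) (c : ι → ℂ) {b : ι → ℝ}
    (hb : ∀ j ∈ J, 0 < b j) : NC q (fun w => ∑ j ∈ J, f j w) (∑ j ∈ J, c j) ≤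
      (∑ j ∈ J, b j) * ∑ j ∈ J, NC q (f j) (c j) / b j := by
  have h : ∀ w, ‖∑ j ∈ J, f j w - ∑ j ∈ J, c j‖ ^ 2 ≤
      (∑ j ∈ J, b j) * ∑ j ∈ J, ‖f j w - c j‖ ^ 2 / b j := fun w => by
    rw [← sum_sub_distrib]
    refine (pow_le_pow_left₀ (norm_nonneg _) (norm_sum_le _ _) 2).trans ?_
    refine sum_sq_le_sum_mul_sum_of_sq_le_mul J (fun j hj => (hb j hj).le)
      (fun j hj => div_nonneg (sq_nonneg _) (hb j hj).le) fun j hj => ?_
    rw [mul_div_cancel₀ _ (hb j hj).ne']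
  unfold NC
  refine (div_le_div_of_nonneg_right (sum_le_sum fun w _ => h w) (Nat.cast_nonneg _)).trans_eq ?_
  rw [← mul_sum, sum_comm, mul_div_assoc, sum_div]
  congr 1
  refine sum_congr rfl fun j _ => ?_
  rw [← sum_div, div_right_comm]

lemma NV_sum_le {ι : Type*} (q : ℕ) (J : Finset ι) (f : ι → V → ℂ) {b : ι → ℝ}
    (hb : ∀ j ∈ J, 0 < b j) :
    NV q (fun w => ∑ j ∈ J, f j w) ≤ (∑ j ∈ J, b j) * ∑ j ∈ J, NV q (f j) / b j :=
  (NV_le_NC q _ _).trans (NC_sum_le q J f (fun j => av q (f j)) hb)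

lemma NV_add_le (q : ℕ) (f g : V → ℂ) : NV q (fun w => f w + g w) ≤ 2 * NV q f + 2 * NV q g := by
  have h := NV_sum_le q (univ : Finset Bool) (fun j => if j then f else g) (b := fun _ => 1)
    fun _ _ => one_pos
  simp only [Fintype.sum_bool, if_true, Bool.false_eq_true, if_false, div_one] at h
  linarith

lemma BV_self (q : ℕ) (f : V → ℂ) : BV q f f = (NV q f : ℂ) := by
  simp only [BV, NV, NC, Complex.mul_conj, Complex.normSq_eq_norm_sq]
  push_cast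
  rfl

lemma norm_BV_le (q : ℕ) (f g : V → ℂ) {κ : ℝ} (hκ : 0 < κ) :
    ‖BV q f g‖ ≤ κ * NV q f + κ⁻¹ * NV q g := by
  unfold BV NV NC
  rw [norm_div, Complex.norm_natCast, ← mul_div_assoc, ← mul_div_assoc, ← add_div, mul_sum,
    mul_sum, ← sum_add_distrib]
  refine div_le_div_of_nonneg_right ((norm_sum_le _ _).trans (sum_le_sum fun w _ => ?_))
    (Nat.cast_nonneg _)
  rw [norm_mul, Complex.norm_conj]
  generalize ‖f w - av q f‖ = a
  generalize ‖g w - av q g‖ = b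
  have h1 : κ * κ⁻¹ = 1 := mul_inv_cancel₀ hκ.ne'
  have h2 : 0 < κ⁻¹ := inv_pos.2 hκ
  have h3 : κ⁻¹ * (κ * a - b / 2) ^ 2 = κ * a ^ 2 - a * b + κ⁻¹ * b ^ 2 / 4 := by
    linear_combination (κ * a ^ 2 - a * b) * h1
  nlinarith [mul_nonneg h2.le (sq_nonneg (κ * a - b / 2)), mul_nonneg h2.le (sq_nonneg b)]

lemma per_vf (q : ℕ) (pt : Pr → V) (Ψ : Pk) (x : MM) : Per q (vf q pt Ψ x) := by
  intro w w' h1 h2
  refine tsum_congr fun P => ?_
  congr 1
  refine iC_congr ((Int.dvd_iff_dvd_of_dvd_sub ?_))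
  rw [show om2 w (pt P) - om2 w' (pt P) = (w.1 - w'.1) * (pt P).2 - (w.2 - w'.2) * (pt P).1 by
    simp only [om2]; ring]
  exact (h1.mul_right _).sub (h2.mul_right _)

lemma Per.const_mul {q : ℕ} {f : V → ℂ} (h : Per q f) (c : ℂ) : Per q fun w => c * f w :=
  fun w w' h1 h2 => by simp only [h w w' h1 h2]

/-! ### integrals -/

lemma LF_congr {μ : Measure MM} {q : ℕ} {f g : Fld} (h : ∀ x, ∀ w ∈ PQ q, f x w = g x w) :
    LF μ q f = LF μ q g := lintegral_congr fun x => by rw [NV_congr (h x)]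

lemma LF_le_L0 (μ : Measure MM) (q : ℕ) (f : Fld) : LF μ q f ≤ L0 μ q f :=
  lintegral_mono fun _ => ENNReal.ofReal_le_ofReal (NV_le_NC _ _ _)

lemma LN_zero (μ : Measure MM) (q : ℕ) (pt : Pr → V) : LN μ q pt 0 = 0 := by
  simp [LN, LF, vf, NV, NC, av]

lemma LF_mul_le (μ : Measure MM) (q : ℕ) (f : Fld) {a : MM → ℂ} {B : ℝ} (h : ∀ x, ‖a x‖ ≤ B) :
    LF μ q (fun x w => a x * f x w) ≤ ENNReal.ofReal (B ^ 2) * LF μ q f := by
  rw [LF, LF, ← lintegral_const_mul' _ _ ENNReal.ofReal_ne_top]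
  refine lintegral_mono fun x => ?_
  rw [← ENNReal.ofReal_mul (sq_nonneg _), NV_mul]
  exact ENNReal.ofReal_le_ofReal (mul_le_mul_of_nonneg_right
    (pow_le_pow_left₀ (norm_nonneg _) (h x) 2) (NV_nonneg _ _))

lemma LN_mul_le (μ : Measure MM) (q : ℕ) (pt : Pr → V) (Ψ : Pk) {a : MM → ℂ}
    (h : ∀ x, ‖a x‖ ≤ 1) : LN μ q pt (fun P x => a x * Ψ P x) ≤ LN μ q pt Ψ := by
  have h1 := LF_mul_le μ q (vf q pt Ψ) h
  rw [one_pow, ENNReal.ofReal_one, one_mul] at h1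
  refine le_trans (le_of_eq (LF_congr fun x w _ => ?_)) h1
  simp only [vf, mul_assoc, tsum_mul_left]

lemma LF_add_le (μ : Measure MM) (q : ℕ) {f g k : Fld} (hf : MF f)
    (h : ∀ x, ∃ c : ℂ, ∀ w ∈ PQ q, k x w = f x w + g x w + c) :
    LF μ q k ≤ 2 * LF μ q f + 2 * LF μ q g := by
  rw [LF, LF, LF, ← lintegral_const_mul' _ _ ENNReal.ofNat_ne_top,
    ← lintegral_const_mul' _ _ ENNReal.ofNat_ne_top,
    ← lintegral_add_left ((measurable_NV q hf).ennreal_ofReal.const_mul _)]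
  refine lintegral_mono fun x => ?_
  obtain ⟨c, hc⟩ := h x
  have h1 := (NV_congr hc).trans_le ((NV_add_const_le q _ c).trans (NV_add_le q (f x) (g x)))
  refine (ENNReal.ofReal_le_ofReal h1).trans (ENNReal.ofReal_add_le.trans_eq ?_)
  rw [ENNReal.ofReal_mul zero_le_two, ENNReal.ofReal_mul zero_le_two, ENNReal.ofReal_ofNat]

lemma sum_lintegral_le {X ι : Type*} [MeasurableSpace X] (μ : Measure X) (J : Finset ι)
    (f : ι → X → ℝ≥0∞) : ∑ j ∈ J, ∫⁻ x, f j x ∂μ ≤ ∫⁻ x, ∑ j ∈ J, f j x ∂μ := by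
  classical
  induction J using Finset.induction_on with
  | empty => simp
  | insert a s ha ih =>
    simp only [sum_insert ha]
    exact (add_le_add le_rfl ih).trans (le_lintegral_add _ _)

/-- weighted Cauchy inequality for fields -/
lemma LF_sum_le {ι : Type*} (μ : Measure MM) (q : ℕ) (J : Finset ι) {k : Fld} {f : ι → Fld}
    {b : ι → ℝ} (hb : ∀ j ∈ J, 0 < b j) (hf : ∀ j ∈ J, MF (f j))
    (h : ∀ x, ∀ w ∈ PQ q, k x w = ∑ j ∈ J, f j x w) :
    LF μ q k ≤ ENNReal.ofReal (∑ j ∈ J, b j) *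
      ∑ j ∈ J, ENNReal.ofReal (1 / b j) * LF μ q (f j) := by
  simp only [LF, ← lintegral_const_mul' _ _ ENNReal.ofReal_ne_top]
  rw [← lintegral_finsetSum _ fun j hj =>
    (measurable_NV q (hf j hj)).ennreal_ofReal.const_mul _,
    ← lintegral_const_mul' _ _ ENNReal.ofReal_ne_top]
  refine lintegral_mono fun x => ?_
  refine (ENNReal.ofReal_le_ofReal ((NV_congr (h x)).trans_le
    (NV_sum_le q J (fun j => f j x) hb))).trans_eq ?_
  rw [ENNReal.ofReal_mul (sum_nonneg fun j hj => (hb j hj).le), ENNReal.ofReal_sum_of_nonneg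
    fun j hj => div_nonneg (NV_nonneg _ _) (hb j hj).le]
  congr 1
  refine sum_congr rfl fun j hj => ?_
  rw [← ENNReal.ofReal_mul (div_nonneg zero_le_one (hb j hj).le), one_div_mul_eq_div]

lemma exists_intK (n : ℕ) : ∃ B : ℝ, 0 < B ∧
    ∫⁻ ζ : Fin n → ℝ, ENNReal.ofReal (1 / (1 + ‖ζ‖) ^ (n + 1)) ≤ ENNReal.ofReal B := by
  have h := integrable_one_add_norm (E := Fin n → ℝ) (μ := volume) (r := (n + 1 : ℕ))
    (by simp)
  have h2 : ∫⁻ ζ : Fin n → ℝ, ENNReal.ofReal (1 / (1 + ‖ζ‖) ^ (n + 1)) ≠ ⊤ := by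
    refine (lt_of_le_of_lt (le_of_eq (lintegral_congr fun ζ => ?_)) h.2).ne
    beta_reduce
    rw [Real.rpow_neg (by positivity), Real.rpow_natCast, Real.enorm_eq_ofReal (by positivity),
      one_div]
  refine ⟨_ + 1, ?_, (ENNReal.ofReal_toReal h2).symm.le.trans
    (ENNReal.ofReal_le_ofReal (le_add_of_nonneg_right zero_le_one))⟩
  positivity

lemma tsum_Orb_le {f : Pr × Pr → ℝ≥0∞} {B : ℝ≥0∞}
    (h : ∀ S : Finset (Pr × Pr), (∀ z ∈ S, IsOrb z ∧ f z ≠ 0) → ∑ z ∈ S, f z ≤ B) :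
    ∑' z : Orb, f z.1 ≤ B := by
  classical
  rw [ENNReal.tsum_eq_iSup_sum]
  refine iSup_le fun s => ?_
  refine (sum_map s (Function.Embedding.subtype _) f).symm.trans_le ?_
  rw [← sum_filter_ne_zero]
  refine h _ fun z hz => ⟨?_, (mem_filter.1 hz).2⟩
  obtain ⟨a, -, rfl⟩ := mem_map.1 (mem_filter.1 hz).1
  exact a.2

end Pool.Agent.MP_c853c5_nt.W

end

section

/-!
From primitive vectors to all vectors, with a coefficient that depends on the content.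
-/

set_option autoImplicit false

open Finset MeasureTheory
open scoped ENNReal ComplexConjugate

namespace Pool.Agent.MP_c853c5_nt.W

open Pool.Agent.MP_2a1f0e_nt Pool.Agent.MP_2a1f0e_nt.GM Pool.Agent.MP_2a1f0e_nt.DH

lemma blk_All {η Y : ℝ} (hη : 0 < η) (d : Dat) {Q g k : ℕ} (hQ : 1 ≤ Q) (hg : 1 ≤ g)
    (hk : 1 ≤ k) (hY : 0 ≤ Y) (hS : d.PP * (g : ℝ) ≤ Y * Q * (k : ℝ) ^ 2) :
    (1 + (d.sc k).PP / (cq Q g : ℕ)) *
        ((d.sc k).DD * (cq Q g : ℕ) + (d.sc k).XX * ((cq Q g : ℕ) : ℝ) ^ η) ≤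
      (1 + Y) * (d.DD * Q + d.XX * (Q : ℝ) ^ η) / (k : ℝ) ^ 2 := by
  obtain ⟨h1, h2, h3, -⟩ := cq_facts hQ hg
  have c1 : (1 : ℝ) ≤ (cq Q g : ℕ) := by exact_mod_cast h1
  have c2 : ((cq Q g : ℕ) : ℝ) ≤ Q := by exact_mod_cast h2
  have c3 : (Q : ℝ) ≤ g * (cq Q g : ℕ) := by exact_mod_cast h3
  have g0 : (0 : ℝ) < g := by exact_mod_cast hg
  have k0 : (0 : ℝ) < k := by exact_mod_cast hk
  have c0 : (0 : ℝ) < (cq Q g : ℕ) := by linarith
  have hD := d.DD_nonneg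
  have hX := d.XX_nonneg
  have e1 : (d.sc k).PP / (cq Q g : ℕ) ≤ Y := by
    rw [Dat.sc_PP, div_div, div_le_iff₀ (by positivity)]
    have : Y * Q * (k : ℝ) ^ 2 ≤ Y * (g * (cq Q g : ℕ)) * (k : ℝ) ^ 2 := by gcongr
    have h4 : d.PP * (g : ℝ) ≤ Y * ((k : ℝ) ^ 2 * (cq Q g : ℕ)) * g := by
      refine hS.trans (this.trans_eq ?_)
      ring
    exact le_of_mul_le_mul_right h4 g0
  have e2 : (d.sc k).DD * (cq Q g : ℕ) + (d.sc k).XX * ((cq Q g : ℕ) : ℝ) ^ η ≤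
      (d.DD * Q + d.XX * (Q : ℝ) ^ η) / (k : ℝ) ^ 2 := by
    rw [Dat.sc_DD, Dat.sc_XX, div_mul_eq_mul_div, div_mul_eq_mul_div, ← add_div]
    gcongr
  have e3 : 0 ≤ (d.sc k).DD * (cq Q g : ℕ) + (d.sc k).XX * ((cq Q g : ℕ) : ℝ) ^ η := by
    have := (d.sc k).DD_nonneg
    have := (d.sc k).XX_nonneg
    positivity
  rw [mul_div_assoc]
  exact mul_le_mul (by linarith) e2 e3 (by linarith)

theorem all_stmt (hP : PdlStmt) (hC : ContStmt) : AllStmt := by
  intro η hη _ hA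
  obtain ⟨m, hA⟩ := hA
  refine ⟨m, fun ε hε => ?_⟩
  obtain ⟨K, hK, hA⟩ := hA (ε / 2) (by linarith)
  obtain ⟨C, hC1, hD⟩ := exD 1 7 4 (show 0 < ε / 2 by linarith)
  refine ⟨4 * C * K, by positivity, ?_⟩
  intro μ hμ d Λ Q lam Y hd hY hl hl'
  have hΛ := hd.one_le
  obtain ⟨X, Δ, hDiv, hX, hΔ⟩ := hD Λ hΛ
  have hd' := hd
  obtain ⟨d1, d2, -, -, d5, d6, d7⟩ := hd'
  rw [pow_one] at hX
  have Δ0 : 0 ≤ Δ := by linarith [hDiv.1]
  have hM : ⌈2 * |d.H|⌉₊ ≤ X := Nat.ceil_le.2 (by linarith)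
  have hQX : 2 * Q ≤ X := by
    have : (2 : ℝ) * Q ≤ X := by linarith
    exact_mod_cast this
  obtain ⟨R, hR⟩ : ∃ R : ℝ, R = (1 + Y) * (d.DD * Q + d.XX * (Q : ℝ) ^ η) := ⟨_, rfl⟩
  have hDD := d.DD_nonneg
  have hXX := d.XX_nonneg
  have hxi : 0 ≤ d.xi := by linarith [d.one_le_xi]
  have R0 : 0 ≤ R := by
    rw [hR]
    positivity
  have Λ0 : 0 < Λ := by linarith
  have h := hP μ Q ⌈2 * |d.H|⌉₊ X Δ (Δ ^ 2 * (K * Λ ^ (ε / 2) * d.xi ^ m * R))
    (fun q => vf q Prod.fst fun P x => lam q (ct P.1) * pa d P x)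
    (fun q k x w => lam q k * vf (q / Nat.gcd k q) Prod.fst (pk (d.sc k)) x w)
    (fun k q' => ENNReal.ofReal (Δ ^ 2) * LN μ q' Prod.fst (pk (d.sc k)))
    (fun k g => d.PP * (g : ℝ) ≤ Y * Q * (k : ℝ) ^ 2) d6 hDiv hQX hM (by positivity)
    (fun q hq x w _ => (hC d q _ (lam q) x w (d6.trans (mem_Ico.1 hq).1) d1 d2
      (Nat.le_ceil _)).1) ?_ ?_
  · refine h.trans (ENNReal.ofReal_le_ofReal ?_)
    rw [← hR]
    have e : Λ ^ ε = Λ ^ (ε / 2) * Λ ^ (ε / 2) := by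
      rw [← Real.rpow_add Λ0, add_halves]
    calc _ = 4 * Δ ^ 7 * (K * Λ ^ (ε / 2) * d.xi ^ m * R) := by ring
      _ ≤ 4 * (C * Λ ^ (ε / 2)) * (K * Λ ^ (ε / 2) * d.xi ^ m * R) := by gcongr
      _ = _ := by
        rw [e]
        ring
  · intro q _ k hk
    have k1 := (mem_Icc.1 hk).1
    refine ⟨(MF_vf _ _ (measurable_pk (d := d.sc k) d2.1)).const_mul _,
      fun x => (per_vf _ _ _ x).const_mul _, ?_⟩
    by_cases h0 : lam q k = 0
    · refine (LF_mul_le μ _ _ (a := fun _ => lam q k) (B := 0) fun _ => by simp [h0]).trans ?_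
      simp
    · rw [iE_pos (hl' q k k1 h0), one_mul]
      exact LF_mul_le μ _ _ (a := fun _ => lam q k) fun _ =>
        (hl q k k1).trans (hDiv.2 k ((mem_Icc.1 hk).2.trans hM))
  · intro k hk g hg hS
    have k1 := (mem_Icc.1 hk).1
    have g1 : 1 ≤ g := Nat.pos_of_dvd_of_pos hg k1
    obtain ⟨h1, h2, -, -⟩ := cq_facts d6 g1
    have h3 := hA μ hμ (d.sc k) Λ (cq Q g) (hd.sc k1 h1 h2)
    have h4 := blk_All hη d d6 g1 k1 hY hS
    rw [← hR] at h4
    rw [← mul_sum]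
    refine (mul_le_mul_right h3 _).trans ?_
    rw [← ENNReal.ofReal_mul (by positivity)]
    refine ENNReal.ofReal_le_ofReal ?_
    have e : (d.sc k).xi = d.xi := rfl
    rw [e, mul_div_assoc, mul_div_assoc]
    gcongr

end Pool.Agent.MP_c853c5_nt.W

end

section

set_option autoImplicit false
open Finset MeasureTheory
open scoped ENNReal ComplexConjugate
namespace Pool.Agent.MP_c853c5_nt.W
open Pool.Agent.MP_2a1f0e_nt Pool.Agent.MP_2a1f0e_nt.GM Pool.Agent.MP_2a1f0e_nt.DH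

noncomputable def nu_Base (Q : ℕ) (n : ℤ) : ℝ :=
  (((Ico Q (2 * Q)).filter fun q : ℕ => (q : ℤ) ∣ n).card : ℝ)

lemma sum_iE_Base (Q : ℕ) (n : ℤ) :
    ∑ q ∈ Ico Q (2 * Q), iE ((q : ℤ) ∣ n) = ENNReal.ofReal (nu_Base Q n) := by
  rw [nu_Base, ENNReal.ofReal_natCast, card_filter]
  push_cast
  refine sum_congr rfl fun q _ => ?_
  by_cases h : (q : ℤ) ∣ n
  · rw [iE_pos h, if_pos h]
  · rw [iE_neg h, if_neg h]

lemma nu_zero_Base (Q : ℕ) : nu_Base Q 0 ≤ Q := by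
  unfold nu_Base
  have h := card_filter_le (Ico Q (2 * Q)) fun q : ℕ => (q : ℤ) ∣ 0
  rw [Nat.card_Ico] at h
  exact_mod_cast h.trans (by omega)

lemma nu_le_Base (Q : ℕ) {n : ℤ} (hn : n ≠ 0) : nu_Base Q n ≤ (n.natAbs.divisors.card : ℝ) := by
  unfold nu_Base
  refine Nat.cast_le.2 (card_le_card fun q hq => ?_)
  exact Nat.mem_divisors.2 ⟨Int.natCast_dvd.1 (mem_filter.1 hq).2, Int.natAbs_ne_zero.2 hn⟩

lemma vol_Base (hI : InvStmt) {α H2 H : ℝ} (hα : 0 < α) (z : Pr × Pr) :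
    vol (Sup α H2 H) (Sup α H2 H) z ≤
      iE (|(rI z : ℝ)| ≤ 32 * α ^ 2) * vol (Sup α H2 H) (Sup α H2 H) z := by
  by_cases h : |(rI z : ℝ)| ≤ 32 * α ^ 2
  · rw [iE_pos h, one_mul]
  · have e : {x | Sup α H2 H z.1 x ∧ Sup α H2 H z.2 x} = ∅ :=
      Set.eq_empty_of_forall_notMem fun x hx =>
        h (hI α H2 H z x hα hx.1.2 hx.2.2).2.2.2.2.2.2.1
    rw [vol, e, measure_empty]
    exact zero_le

lemma alg_Base (d : Dat) {Q Δ : ℝ} (hQ : 1 ≤ Q) (hΔ : 1 ≤ Δ) :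
    d.al ^ 2 * (|d.H2| * |d.H| + d.H ^ 2) *
        (Q + 0 + Δ * (1 + |d.H2| * |d.H| + d.H2 ^ 2 * (32 * d.al ^ 2))) ≤
      32 * Δ * ((1 + d.PP / Q) * (d.DD * Q + d.XX * Q)) := by
  have hQ0 : Q ≠ 0 := (zero_lt_one.trans_le hQ).ne'
  have e1 : (1 + d.PP / Q) * (d.DD * Q + d.XX * Q) =
      d.DD * Q + d.DD * d.PP + d.XX * Q + d.XX * d.PP := by
    field_simp
    ring
  have e2 : d.DD * (d.H2 ^ 2 * d.al ^ 2) = d.XX * d.PP := by
    unfold Dat.DD Dat.XX Dat.PP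
    rw [← sq_abs d.H, ← sq_abs d.H2]
    ring
  have e3 : d.al ^ 2 * (|d.H2| * |d.H| + d.H ^ 2) *
      (Q + 0 + Δ * (1 + |d.H2| * |d.H| + d.H2 ^ 2 * (32 * d.al ^ 2))) =
      d.DD * Q + Δ * (d.DD + d.DD * d.PP + 32 * (d.DD * (d.H2 ^ 2 * d.al ^ 2))) := by
    unfold Dat.DD Dat.PP
    ring
  rw [e1, e3, e2]
  have hD := d.DD_nonneg
  have hX := d.XX_nonneg
  have hP := d.PP_nonneg
  have h1 : d.DD ≤ d.DD * Q := le_mul_of_one_le_right hD hQ
  have h2 : 0 ≤ d.DD * d.PP := mul_nonneg hD hP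
  have h3 : 0 ≤ d.XX * Q := mul_nonneg hX (by linarith only [hQ])
  have h4 : d.DD * Q ≤ Δ * (d.DD * Q) := le_mul_of_one_le_left (hD.trans h1) hΔ
  have h5 : d.DD * Q + (d.DD + d.DD * d.PP + 32 * (d.XX * d.PP)) ≤
      32 * (d.DD * Q + d.DD * d.PP + d.XX * Q + d.XX * d.PP) := by
    linarith only [h1, h2, h3, hD]
  have h6 := mul_le_mul_of_nonneg_left h5 (zero_le_one.trans hΔ)
  linarith only [h4, h6]

theorem base_stmt (hR : RoughStmt) (hS : ShpStmt) (hT : TrivStmt) (hI : InvStmt) : BaseStmt := by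
  refine ⟨0, fun ε hε => ?_⟩
  have hε2 : 0 < ε / 2 := by positivity
  obtain ⟨C, hC, hT⟩ := hT (ε / 2) hε2
  obtain ⟨C', hC', hD⟩ := exD 4 1 160 hε2
  refine ⟨32 * C * C', by positivity, fun μ hμ d Λ Q hd => ?_⟩
  have hΛ := hd.one_le
  obtain ⟨X, Δ, hX, hXΛ, hΔ⟩ := hD Λ hΛ
  have hQ : 1 ≤ Q := hd.2.2.2.2.2.1
  have hQ' : (1 : ℝ) ≤ Q := by exact_mod_cast hQ
  have hpac := pac_pk' hd.2.1
  have h1 : ∑ q ∈ Ico Q (2 * Q), LN μ q Prod.fst (pk d) ≤
      ∑ q ∈ Ico Q (2 * Q), ∑' z : Orb, iE ((q : ℤ) ∣ nI z.1) *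
        vol (Sup d.al d.H2 d.H) (Sup d.al d.H2 d.H) z.1 :=
    sum_le_sum fun q hq => (LF_le_L0 μ q _).trans
      (hR μ hμ q Prod.fst _ (pk d) (hQ.trans (mem_Ico.1 hq).1) ((hS μ hμ d.al hd.1).1 d.H2 d.H)
        hpac.bd hpac.sp)
  rw [← Summable.tsum_finsetSum fun _ _ => ENNReal.summable] at h1
  have h2 : ∑' z : Orb, ∑ q ∈ Ico Q (2 * Q), iE ((q : ℤ) ∣ nI z.1) *
        vol (Sup d.al d.H2 d.H) (Sup d.al d.H2 d.H) z.1 ≤
      ∑' z : Orb, iE (|(rI z.1 : ℝ)| ≤ 32 * d.al ^ 2) * ENNReal.ofReal (nu_Base Q (nI z.1)) *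
        vol (Sup d.al d.H2 d.H) (Sup d.al d.H2 d.H) z.1 := by
    refine ENNReal.tsum_le_tsum fun z => ?_
    rw [← sum_mul, sum_iE_Base, mul_comm (iE _), mul_assoc]
    exact mul_le_mul_right (vol_Base hI hd.1 z.1) _
  have h3 := hT Λ d.al d.H2 d.H (32 * d.al ^ 2) Δ 0 Q (nu_Base Q) hd.bd (by positivity)
    (zero_le_one.trans hX.1) le_rfl (Nat.cast_nonneg Q) (nu_zero_Base Q) fun n hn hnΛ => by
      rw [zero_div, add_zero]
      refine (nu_le_Base Q hn).trans (hX.2 _ ?_)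
      have h4 : ((n.natAbs : ℕ) : ℝ) ≤ X := by
        rw [Nat.cast_natAbs, Int.cast_abs]
        exact hnΛ.trans hXΛ
      exact_mod_cast h4
  refine ((h1.trans h2).trans h3).trans (ENNReal.ofReal_le_ofReal ?_)
  rw [pow_zero, mul_one, Real.rpow_one]
  have hp : 0 ≤ Λ ^ (ε / 2) := Real.rpow_nonneg (zero_le_one.trans hΛ) _
  have hY : 0 ≤ (1 + d.PP / Q) * (d.DD * Q + d.XX * Q) := by
    have := d.DD_nonneg
    have := d.XX_nonneg
    have := d.PP_nonneg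
    positivity
  have hsq : Λ ^ ε = Λ ^ (ε / 2) * Λ ^ (ε / 2) := by
    rw [← Real.rpow_add (zero_lt_one.trans_le hΛ), add_halves]
  rw [pow_one] at hΔ
  calc C * Λ ^ (ε / 2) * (d.al ^ 2 * (|d.H2| * |d.H| + d.H ^ 2) *
        ((Q : ℝ) + 0 + Δ * (1 + |d.H2| * |d.H| + d.H2 ^ 2 * (32 * d.al ^ 2))))
      ≤ C * Λ ^ (ε / 2) * (32 * Δ * ((1 + d.PP / Q) * (d.DD * Q + d.XX * Q))) :=
        mul_le_mul_of_nonneg_left (alg_Base d hQ' hX.1) (by positivity)
    _ ≤ C * Λ ^ (ε / 2) * (32 * (C' * Λ ^ (ε / 2)) * ((1 + d.PP / Q) * (d.DD * Q + d.XX * Q))) :=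
        mul_le_mul_of_nonneg_left (mul_le_mul_of_nonneg_right
          (mul_le_mul_of_nonneg_left hΔ (by norm_num)) hY) (by positivity)
    _ = 32 * C * C' * Λ ^ ε * ((1 + d.PP / Q) * (d.DD * Q + d.XX * Q)) := by
        rw [hsq]; ring

end Pool.Agent.MP_c853c5_nt.W

end

section

/-!
The number of primitive pairs modulo `q`.
-/

set_option autoImplicit false

open Finset MeasureTheory
open scoped ENNReal ComplexConjugate

namespace Pool.Agent.MP_c853c5_nt.W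

open Pool.Agent.MP_2a1f0e_nt Pool.Agent.MP_2a1f0e_nt.GM Pool.Agent.MP_2a1f0e_nt.DH

lemma mult_Card {q e : ℕ} (he : 0 < e) (h : e ∣ q) :
    ∑ x ∈ Ico (0 : ℤ) q, (if (e : ℤ) ∣ x then (1 : ℝ) else 0) = (q : ℝ) / e := by
  obtain ⟨k, rfl⟩ := h
  have he' : (0 : ℤ) < e := by exact_mod_cast he
  have h1 := Int.Ico_filter_dvd_card 0 ((e * k : ℕ) : ℤ) he'
  have e0 : (e : ℚ) ≠ 0 := by exact_mod_cast he.ne'
  have e1 : (((e * k : ℕ) : ℤ) : ℚ) / ((e : ℤ) : ℚ) = ((k : ℤ) : ℚ) := by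
    push_cast
    field_simp
  rw [e1, Int.ceil_intCast] at h1
  simp only [Int.cast_zero, zero_div, Int.ceil_zero, sub_zero] at h1
  rw [max_eq_left (Int.natCast_nonneg k)] at h1
  have h2 : ((Ico (0 : ℤ) ((e * k : ℕ) : ℤ)).filter fun x => (e : ℤ) ∣ x).card = k := by
    exact_mod_cast h1
  rw [sum_boole, h2]
  have e2 : (e : ℝ) ≠ 0 := by exact_mod_cast he.ne'
  push_cast
  field_simp

lemma prod_dvd_Card {t : Finset ℕ} (ht : ∀ p ∈ t, p.Prime) (n : ℕ) :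
    (∏ p ∈ t, p) ∣ n ↔ ∀ p ∈ t, p ∣ n :=
  ⟨fun h _ hp => (dvd_prod_of_mem _ hp).trans h, fun h =>
    Finset.prod_primes_dvd n (fun p hp => (ht p hp).prime) h⟩

lemma sub_Card {q : ℕ} {t : Finset ℕ} (ht : t ⊆ q.primeFactors) :
    ∑ w ∈ Ico (0 : ℤ) q ×ˢ Ico (0 : ℤ) q,
      ∏ p ∈ t, (-(if p ∣ ct w then (1 : ℝ) else 0)) =
      (q : ℝ) ^ 2 * ∏ p ∈ t, (-(1 / (p : ℝ) ^ 2)) := by
  have hp : ∀ p ∈ t, p.Prime := fun p h => Nat.prime_of_mem_primeFactors (ht h)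
  have he : 0 < ∏ p ∈ t, p := prod_pos fun p h => (hp p h).pos
  have hd : (∏ p ∈ t, p) ∣ q :=
    (prod_dvd_prod_of_subset _ _ (fun p => p) ht).trans (Nat.prod_primeFactors_dvd q)
  obtain ⟨I, hI⟩ : ∃ I : ℤ → ℝ, I = fun x => if ((∏ p ∈ t, p : ℕ) : ℤ) ∣ x then (1 : ℝ) else 0 :=
    ⟨_, rfl⟩
  have e1 : ∀ w : V, ∏ p ∈ t, (-(if p ∣ ct w then (1 : ℝ) else 0)) = (-1) ^ t.card *
      (I w.1 * I w.2) := by
    intro w
    rw [hI, prod_neg, prod_boole, ite_zero_mul_ite_zero, mul_one]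
    congr 1
    refine if_congr ?_ rfl rfl
    rw [← prod_dvd_Card hp, ct, ← Int.natCast_dvd_natCast, Int.dvd_coe_gcd_iff]
  have e2 : ∑ x ∈ Ico (0 : ℤ) q, I x = (q : ℝ) / (∏ p ∈ t, p : ℕ) := by
    rw [hI]
    exact mult_Card he hd
  simp only [e1]
  rw [← mul_sum, sum_product' (f := fun x y => I x * I y), prod_neg, ← sum_mul_sum, e2,
    prod_div_distrib, prod_const_one, prod_pow]
  push_cast
  ring

lemma cop_Card {q : ℕ} (hq : 1 ≤ q) (n : ℕ) :
    (if Nat.Coprime n q then (1 : ℝ) else 0) =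
      ∏ p ∈ q.primeFactors, (1 + -(if p ∣ n then (1 : ℝ) else 0)) := by
  by_cases h : Nat.Coprime n q
  · rw [if_pos h]
    refine (prod_eq_one fun p hp => ?_).symm
    have h1 := Nat.prime_of_mem_primeFactors hp
    have h2 := Nat.dvd_of_mem_primeFactors hp
    rw [if_neg fun h3 => h1.one_lt.ne' (Nat.eq_one_of_dvd_coprimes h h3 h2)]
    simp
  · rw [if_neg h]
    obtain ⟨p, h1, h2, h3⟩ := Nat.Prime.not_coprime_iff_dvd.1 h
    refine (prod_eq_zero (Nat.mem_primeFactors.2 ⟨h1, h3, by omega⟩) ?_).symm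
    rw [if_pos h2]
    simp

theorem card_stmt : CardStmt := by
  intro q hq
  have h1 : ((PQ q).card : ℝ) =
      (q : ℝ) ^ 2 * ∏ p ∈ q.primeFactors, (1 + -(1 / (p : ℝ) ^ 2)) := by
    rw [PQ, ← sum_boole]
    simp only [cop_Card hq, prod_one_add]
    rw [sum_comm, mul_sum]
    exact sum_congr rfl fun t ht => sub_Card (mem_powerset.1 ht)
  have h2 : (q.totient : ℝ) = q * ∏ p ∈ q.primeFactors, (1 - (p : ℝ)⁻¹) := by
    have := congrArg (fun x : ℚ => (x : ℝ)) (Nat.totient_eq_mul_prod_factors q)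
    push_cast at this
    exact this
  rw [h1, h2, psiD, mul_mul_mul_comm, ← prod_mul_distrib, ← sq]
  congr 1
  refine prod_congr rfl fun p _ => ?_
  ring

end Pool.Agent.MP_c853c5_nt.W

end

section

set_option autoImplicit false

open Finset MeasureTheory
open scoped ENNReal ComplexConjugate

namespace Pool.Agent.MP_c853c5_nt.W

open Pool.Agent.MP_2a1f0e_nt Pool.Agent.MP_2a1f0e_nt.GM Pool.Agent.MP_2a1f0e_nt.DH

lemma meas_Chg (d : Dat) (z : Pr × Pr) (hg : Measurable d.g) :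
    Measurable fun Z : MM => iC (BigZ d Z) * (d.g Z.1 * conj (d.g Z.2)) * Fz d Z z := by
  have hb : Measurable fun Z : MM => Z.2.1 / Z.1.1 :=
    (measurable_fst.comp measurable_snd).div (measurable_fst.comp measurable_fst)
  refine ((measurable_iC (measurableSet_le measurable_const
    (continuous_dt.abs.measurable.mul_const _))).mul ((hg.comp measurable_fst).mul
      (Complex.continuous_conj.measurable.comp (hg.comp measurable_snd)))).mul ?_
  unfold Fz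
  refine ((measurable_const.mul (Complex.measurable_ofReal.comp (measurable_const.mul
    ((measurable_om.comp (continuous_dt.measurable.div_const _)).pow_const 2)))).mul
    ((measurable_E measurable_const ((measurable_const.sub (hb.const_mul _)).div_const _)).mul
      measurable_const)).mul (Complex.continuous_conj.measurable.comp
    ((measurable_E measurable_const ((measurable_const.add
      (measurable_const.div hb)).div_const _)).mul measurable_const))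

lemma key_Chg (d : Dat) (z : Pr × Pr) (h0 : 0 < d.al) (hd : Adm d.al d.g) (hr : rI z ≠ 0)
    (x : MM) : iC (BigZ d (act (z.1.2, z.2.2) x)) * (pk d z.1 x * conj (pk d z.2 x)) =
      (((rI z : ℝ) ^ 2 : ℝ) : ℂ) * (iC (BigZ d (act (z.1.2, z.2.2) x)) *
        (d.g (act (z.1.2, z.2.2) x).1 * conj (d.g (act (z.1.2, z.2.2) x).2)) *
        Fz d (act (z.1.2, z.2.2) x) z) := by
  have a1 : (act (z.1.2, z.2.2) x).1 = vx z.1.2 x := rfl
  have a2 : (act (z.1.2, z.2.2) x).2 = vx z.2.2 x := rfl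
  by_cases g1 : d.g (vx z.1.2 x) = 0
  · simp [pk, pa, a1, g1]
  by_cases g2 : d.g (vx z.2.2 x) = 0
  · simp [pk, pa, a2, g2]
  have ha : (vx z.1.2 x).1 ≠ 0 := (h0.trans_le (hd.2.2 _ g1).1).ne'
  have hb : (vx z.2.2 x).1 ≠ 0 := (h0.trans_le (hd.2.2 _ g2).1).ne'
  have hr' : (rI z : ℝ) ≠ 0 := Int.cast_ne_zero.2 hr
  have e1 : dt (act (z.1.2, z.2.2) x) / (rI z : ℝ) = dt x := by
    rw [dt_act]
    exact mul_div_cancel_left₀ _ hr'
  have e2 : ((pI z : ℝ) - (hh z.1 : ℝ) * ((vx z.2.2 x).1 / (vx z.1.2 x).1)) /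
      ((rI z : ℝ) * d.H2) = tt z.1 x / d.H2 := by
    rw [← mul_div_mul_left (tt z.1 x) d.H2 hr', tt, ← mul_div_assoc (rI z : ℝ), ru_one]
    congr 1
    field_simp
  have e3 : ((sI z : ℝ) + (hh z.2 : ℝ) / ((vx z.2.2 x).1 / (vx z.1.2 x).1)) /
      ((rI z : ℝ) * d.H2) = tt z.2 x / d.H2 := by
    rw [← mul_div_mul_left (tt z.2 x) d.H2 hr', tt, ← mul_div_assoc (rI z : ℝ), rv_one]
    congr 1
    field_simp
    ring
  have hc : ((rI z : ℝ) : ℂ) ≠ 0 := Complex.ofReal_ne_zero.2 hr'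
  rw [Fz, a1, a2, e1, e2, e3]
  simp only [pk, pa, iC_and, map_mul, conj_iC, Complex.conj_ofReal, Complex.ofReal_mul,
    Complex.ofReal_pow, Complex.ofReal_div, Complex.ofReal_one]
  generalize ((rI z : ℝ) : ℂ) = r at hc ⊢
  have k : r ^ 2 * (1 / r ^ 2) = 1 := mul_one_div_cancel (pow_ne_zero 2 hc)
  generalize 1 / r ^ 2 = s at k ⊢
  refine (one_mul _).symm.trans ?_
  rw [← k]
  ring

theorem chg_stmt (hC : CoVStmt) : ChgStmt := by
  intro d z h0 hd
  refine ⟨meas_Chg d z hd.1, ?_⟩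
  by_cases hr : rI z = 0
  · have hF : ∀ Z : MM, Fz d Z z = 0 := fun Z => by simp [Fz, hr]
    refine ⟨?_, by simp [hF]⟩
    simp only [hF, mul_zero, integral_zero, Jb]
    refine (integral_congr_ae (Filter.Eventually.of_forall fun x => ?_)).trans
      (integral_zero _ _)
    by_cases hb : BigZ d (act (z.1.2, z.2.2) x)
    · have e : hh (z.1.2, z.2.2) = 0 := hr
      rw [BigZ, dt_act, e] at hb
      simp only [Int.cast_zero, zero_mul, abs_zero] at hb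
      simp [pk_eq_zero hd (Or.inl (by linarith))]
    · simp [iC_neg hb]
  obtain ⟨c1, c2, -⟩ := hC.1 (z.1.2, z.2.2) hr
  have e : hh (z.1.2, z.2.2) = rI z := rfl
  rw [e] at c1 c2
  have hr' : (rI z : ℝ) ≠ 0 := Int.cast_ne_zero.2 hr
  have hp : 0 < (rI z : ℝ) ^ 2 := by positivity
  constructor
  · rw [Jb]
    simp only [key_Chg d z h0 hd hr]
    rw [integral_const_mul,
      c2 fun Z => iC (BigZ d Z) * (d.g Z.1 * conj (d.g Z.2)) * Fz d Z z, ← mul_assoc,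
      ← Complex.ofReal_mul, mul_one_div_cancel hp.ne', Complex.ofReal_one, one_mul]
  · have c3 := c1 fun Z => ‖iC (BigZ d Z) * (d.g Z.1 * conj (d.g Z.2)) * Fz d Z z‖ₑ
    have c4 := congrArg (fun t => ENNReal.ofReal ((rI z : ℝ) ^ 2) * t) c3
    beta_reduce at c4
    rw [← mul_assoc, ← ENNReal.ofReal_mul hp.le, mul_one_div_cancel hp.ne', ENNReal.ofReal_one,
      one_mul, ← lintegral_const_mul' _ _ ENNReal.ofReal_ne_top] at c4
    rw [← c4, vol, ← lintegral_iE volume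
      (p := fun x => Sup d.al d.H2 d.H z.1 x ∧ Sup d.al d.H2 d.H z.2 x)
      ((measurableSet_Sup _ _ _ z.1).inter (measurableSet_Sup _ _ _ z.2))]
    refine lintegral_mono fun x => ?_
    have hP := pac_pk' hd
    have k : ‖iC (BigZ d (act (z.1.2, z.2.2) x)) * (pk d z.1 x * conj (pk d z.2 x))‖ₑ ≤
        iE (Sup d.al d.H2 d.H z.1 x ∧ Sup d.al d.H2 d.H z.2 x) := by
      refine enorm_le_iE ?_ fun h => ?_
      · rw [norm_mul, norm_mul, Complex.norm_conj]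
        exact mul_le_one₀ (norm_iC_le _) (by positivity)
          (mul_le_one₀ (hP.bd _ _) (norm_nonneg _) (hP.bd _ _))
      · have h2 := right_ne_zero_of_mul h
        exact ⟨hP.sp _ _ (left_ne_zero_of_mul h2),
          hP.sp _ _ fun h3 => right_ne_zero_of_mul h2 (by rw [h3, map_zero])⟩
    rw [key_Chg d z h0 hd hr, enorm_mul] at k
    refine le_trans (le_of_eq ?_) k
    beta_reduce
    congr 1
    rw [← ofReal_norm, Complex.norm_real, Real.norm_of_nonneg hp.le]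

end Pool.Agent.MP_c853c5_nt.W

end

section

/-! Linear changes of variables on the space of matrices. -/

set_option autoImplicit false

open Finset MeasureTheory
open scoped ENNReal ComplexConjugate

namespace Pool.Agent.MP_c853c5_nt.W

open Pool.Agent.MP_2a1f0e_nt Pool.Agent.MP_2a1f0e_nt.GM Pool.Agent.MP_2a1f0e_nt.DH

lemma gen_CoV (L : MM →ₗ[ℝ] MM) {c : ℝ} (hc : c ≠ 0) (hL : LinearMap.det L = c ^ 2) :
    ∃ e : MM ≃ᵐ MM, (∀ x, e x = L x) ∧
      Measure.map e volume = ENNReal.ofReal (1 / c ^ 2) • (volume : Measure MM) := by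
  have h0 : LinearMap.det L ≠ 0 := hL ▸ pow_ne_zero 2 hc
  have _ : (volume : Measure R2).IsAddHaarMeasure :=
    inferInstanceAs ((volume : Measure ℝ).prod (volume : Measure ℝ)).IsAddHaarMeasure
  have _ : (volume : Measure MM).IsAddHaarMeasure :=
    inferInstanceAs ((volume : Measure R2).prod (volume : Measure R2)).IsAddHaarMeasure
  refine ⟨(L.equivOfDetNeZero h0).toContinuousLinearEquiv.toHomeomorph.toMeasurableEquiv,
    fun _ => rfl, ?_⟩
  have h1 := Measure.map_linearMap_addHaar_eq_smul_addHaar (volume : Measure MM) h0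
  rw [hL, abs_of_nonneg (by positivity), ← one_div] at h1
  exact h1

lemma rm_CoV (m : MM) : ∃ L : MM →ₗ[ℝ] MM, LinearMap.det L = dt m ^ 2 ∧ ∀ x, L x = rm m x := by
  let A : R2 →ₗ[ℝ] R2 := Matrix.toLin (Module.Basis.finTwoProd ℝ) (Module.Basis.finTwoProd ℝ)
    !![m.1.1, m.2.1; m.1.2, m.2.2]
  have hA : ∀ a, A a = rt m a := fun a => by
    simp only [A, Matrix.toLin_finTwoProd_apply, rt, mul_comm]
  refine ⟨A.prodMap A, ?_, fun x => ?_⟩
  · rw [LinearMap.det_prodMap, LinearMap.det_toLin, Matrix.det_fin_two_of, dt]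
    ring
  · rw [LinearMap.prodMap_apply, hA, hA, rm]

lemma act_CoV (P : Pr) :
    ∃ L : MM →ₗ[ℝ] MM, LinearMap.det L = (hh P : ℝ) ^ 2 ∧ ∀ x, L x = act P x := by
  obtain ⟨L, h1, h2⟩ := rm_CoV ((P.1.1, P.2.1), (P.1.2, P.2.2))
  let e : MM ≃ₗ[ℝ] MM := LinearEquiv.prodProdProdComm ℝ ℝ ℝ ℝ ℝ
  refine ⟨(e : MM →ₗ[ℝ] MM) ∘ₗ L ∘ₗ (e.symm : MM →ₗ[ℝ] MM), ?_, fun x => ?_⟩
  · rw [LinearMap.det_conj, h1]
    simp only [dt, hh, om2, Int.cast_sub, Int.cast_mul]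
    ring
  · change e (L ((x.1.1, x.2.1), (x.1.2, x.2.2))) = _
    rw [h2]
    simp only [act, vx, rm, rt, e, LinearEquiv.prodProdProdComm_apply, mul_comm]

theorem cov_stmt : CoVStmt := by
  refine ⟨fun P hP => ?_, fun m hm f => ?_⟩
  · obtain ⟨L, h1, h2⟩ := act_CoV P
    obtain ⟨e, h3, h4⟩ := gen_CoV L (Int.cast_ne_zero.2 hP) h1
    have h5 : ∀ x, act P x = e x := fun x => by rw [h3, h2]
    have h6 : (0 : ℝ) ≤ 1 / (hh P : ℝ) ^ 2 := by positivity
    simp only [h5]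
    refine ⟨fun f => ?_, fun f => ?_, fun f => ?_, fun f hf => ?_⟩
    · rw [← lintegral_map_equiv f e, h4, lintegral_smul_measure, smul_eq_mul]
    · rw [← integral_map_equiv e f, h4, integral_smul_measure, ENNReal.toReal_ofReal h6,
        Complex.real_smul]
    · rw [← integral_map_equiv e f, h4, integral_smul_measure, ENNReal.toReal_ofReal h6,
        smul_eq_mul]
    · refine (integrable_map_equiv e f).1 ?_
      rw [h4]
      exact hf.smul_measure ENNReal.ofReal_ne_top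
  · obtain ⟨L, h1, h2⟩ := rm_CoV m
    obtain ⟨e, h3, h4⟩ := gen_CoV L (hm ▸ one_ne_zero) h1
    have h5 : ∀ x, rm m x = e x := fun x => by rw [h3, h2]
    simp only [h5]
    rw [← lintegral_map_equiv f e, h4, hm, one_pow, div_one, ENNReal.ofReal_one, one_smul]

end Pool.Agent.MP_c853c5_nt.W

end

section

/-! Splitting a packet according to the content of the point. -/

set_option autoImplicit false

open Finset MeasureTheory
open scoped ENNReal ComplexConjugate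

namespace Pool.Agent.MP_c853c5_nt.W

open Pool.Agent.MP_2a1f0e_nt Pool.Agent.MP_2a1f0e_nt.GM Pool.Agent.MP_2a1f0e_nt.DH

/-- the first vector is multiplied by `m` -/
def sm_Cont (m : ℕ) (P : Pr) : Pr := (((m : ℤ) * P.1.1, (m : ℤ) * P.1.2), P.2)

lemma inj_Cont {m : ℕ} (hm : 1 ≤ m) : Function.Injective (sm_Cont m) := by
  intro P P' h
  have h0 : (m : ℤ) ≠ 0 := by omega
  obtain ⟨h1, h2⟩ := Prod.mk.inj h
  obtain ⟨h3, h4⟩ := Prod.mk.inj h1
  exact Prod.ext (Prod.ext (mul_left_cancel₀ h0 h3) (mul_left_cancel₀ h0 h4)) h2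

lemma range_Cont {m : ℕ} {P : Pr} (h : m ∣ ct P.1) : P ∈ Set.range (sm_Cont m) := by
  obtain ⟨a, ha⟩ := (Int.natCast_dvd_natCast.2 h).trans (ct_dvd_one P.1)
  obtain ⟨b, hb⟩ := (Int.natCast_dvd_natCast.2 h).trans (ct_dvd_two P.1)
  exact ⟨((a, b), P.2), Prod.ext (Prod.ext ha.symm hb.symm) rfl⟩

lemma ct_Cont (m : ℕ) (P : Pr) : ct (sm_Cont m P).1 = m * ct P.1 := by
  simp only [ct, sm_Cont, Int.gcd_mul_left, Int.natAbs_natCast]

lemma pa_Cont (d : Dat) (m : ℕ) (P : Pr) (x : MM) : pa d (sm_Cont m P) x = pa (d.sc m) P x := by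
  have h1 : tt (sm_Cont m P) x / d.H2 = tt P x / (d.H2 / m) := by
    simp only [tt, sm_Cont, vx, Int.cast_mul, Int.cast_natCast, div_div_eq_mul_div]
    ring
  have h2 : (hh (sm_Cont m P) : ℝ) / d.H = (hh P : ℝ) / (d.H / m) := by
    simp only [hh, om2, sm_Cont, Int.cast_mul, Int.cast_sub, Int.cast_natCast, div_div_eq_mul_div]
    ring
  rw [pa, h1, h2]
  rfl

lemma ind_Cont {q : ℕ} (hq : 1 ≤ q) (m : ℕ) (w : V) (P : Pr) :
    ind q (om2 w (sm_Cont m P).1) = ind (q / Nat.gcd m q) (om2 w P.1) := by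
  have h : om2 w (sm_Cont m P).1 = m * om2 w P.1 := by
    simp only [om2, sm_Cont]
    ring
  rw [h]
  exact iC_congr (dvd_mul_iff_div hq _)

lemma mem_Cont {α H2 H : ℝ} {M : ℕ} (hM : 2 * |H| ≤ M) {P : Pr} {x : MM}
    (h : SupA α H2 H P x) : ct P.1 ∈ Icc 1 M := by
  have h1 : (ct P.1 : ℤ) ∣ hh P :=
    ((ct_dvd_one P.1).mul_right _).sub ((ct_dvd_two P.1).mul_right _)
  have h2 : (ct P.1 : ℤ) ≤ |hh P| := Int.le_of_dvd (abs_pos.2 h.2.1) ((dvd_abs _ _).2 h1)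
  have h3 : |hh P| ≤ (M : ℤ) := by exact_mod_cast h.2.2.2.2.2.2.2.trans hM
  refine mem_Icc.2 ⟨Nat.pos_of_ne_zero fun h0 => h.2.1 ?_, by omega⟩
  rwa [h0, Nat.cast_zero, zero_dvd_iff] at h1

lemma gen_Cont (hF : FinStmt) {d : Dat} {q M : ℕ} (κ a : ℕ → ℂ) (T : ℕ → ℕ → Prop) (x : MM)
    (w : V) (hq : 1 ≤ q) (h0 : 0 < d.al) (hd : Adm d.al d.g) (hM : 2 * |d.H| ≤ M)
    (hT : ∀ m c, T m c → m ∣ c) (ha : ∀ c ∈ Icc 1 M, a c = ∑ m ∈ Icc 1 M, κ m * iC (T m c)) :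
    vf q Prod.fst (fun P x => a (ct P.1) * pa d P x) x w = ∑ m ∈ Icc 1 M, κ m *
      vf (q / Nat.gcd m q) Prod.fst (fun P x => iC (T m (m * ct P.1)) * pa (d.sc m) P x) x w := by
  have e : ∀ P : Pr, a (ct P.1) * pa d P x * ind q (om2 w P.1) =
      ∑ m ∈ Icc 1 M, κ m * (iC (T m (ct P.1)) * pa d P x * ind q (om2 w P.1)) := fun P => by
    by_cases h : pa d P x = 0
    · simp only [h, mul_zero, zero_mul, sum_const_zero]
    · rw [ha _ (mem_Cont hM (pa_supA hd h)), sum_mul, sum_mul]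
      simp only [mul_assoc]
  unfold vf
  simp only [e]
  rw [Summable.tsum_finsetSum fun m _ => summable_of_hasFiniteSupport
    ((hF d.al d.H2 d.H x h0).subset fun P hP => pa_supA hd
      (right_ne_zero_of_mul (left_ne_zero_of_mul (right_ne_zero_of_mul hP))))]
  refine sum_congr rfl fun m hm => ?_
  rw [tsum_mul_left, ← (inj_Cont (mem_Icc.1 hm).1).tsum_eq fun P hP =>
    range_Cont (hT _ _ (iC_ne_zero (left_ne_zero_of_mul (left_ne_zero_of_mul hP))))]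
  simp only [ct_Cont, pa_Cont, ind_Cont hq]

theorem cont_stmt (hF : FinStmt) : ContStmt := by
  intro d q M κ x w hq h0 hd hM
  constructor
  · rw [gen_Cont hF κ κ (fun m c => c = m) x w hq h0 hd hM (fun m c h => h ▸ dvd_rfl)
      fun c hc => by
        rw [sum_eq_single_of_mem c hc fun m _ hm => by rw [iC_neg hm.symm, mul_zero], iC_pos rfl,
          mul_one]]
    refine sum_congr rfl fun m hm => ?_
    have e : ∀ u : V, iC (m * ct u = m) = iC (Prim u) := fun u =>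
      iC_congr (Nat.mul_eq_left (Nat.one_le_iff_ne_zero.1 (mem_Icc.1 hm).1))
    simp only [e]
    rfl
  · rw [gen_Cont hF κ (fun c => ∑ e ∈ c.divisors, κ e) (fun m c => m ∣ c) x w hq h0 hd hM
      (fun m c h => h) fun c hc => by
        obtain ⟨h1, h2⟩ := mem_Icc.1 hc
        have hs : c.divisors ⊆ Icc 1 M := fun m hm => mem_Icc.2
          ⟨Nat.pos_of_mem_divisors hm, (Nat.divisor_le hm).trans h2⟩
        rw [← sum_subset hs fun m _ hm => by
          rw [iC_neg fun k => hm (Nat.mem_divisors.2 ⟨k, by omega⟩), mul_zero]]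
        exact sum_congr rfl fun m hm => by rw [iC_pos (Nat.dvd_of_mem_divisors hm), mul_one]]
    refine sum_congr rfl fun m _ => ?_
    simp only [iC_pos (dvd_mul_right m _), one_mul]

end Pool.Agent.MP_c853c5_nt.W

end

section

set_option autoImplicit false

open Finset MeasureTheory
open scoped ENNReal ComplexConjugate

namespace Pool.Agent.MP_c853c5_nt.W

open Pool.Agent.MP_2a1f0e_nt Pool.Agent.MP_2a1f0e_nt.GM Pool.Agent.MP_2a1f0e_nt.DH

lemma supp_Exp {T : ℝ} (hT : 0 < T) : HasCompactSupport fun t : ℝ => Wt (t / T) :=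
  HasCompactSupport.intro (isCompact_Icc (a := 0) (b := 3 * T)) fun t ht => by
    refine Wt_eq_zero ?_
    rcases not_and_or.1 ht with h | h
    · exact Or.inl ((div_nonpos_of_nonpos_of_nonneg (not_le.1 h).le hT.le).trans (by norm_num))
    · exact Or.inr (by rw [le_div_iff₀ hT]; linarith [not_le.1 h])

lemma cont_Exp (T : ℝ) : Continuous fun t : ℝ => Wt (t / T) :=
  continuous_Wt.comp (continuous_id.div_const T)

lemma integrable_Exp {T : ℝ} (hT : 0 < T) {F : ℝ → ℂ} (hF : Continuous F) :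
    Integrable fun t : ℝ => (Wt (t / T) : ℂ) * F t :=
  ((Complex.continuous_ofReal.comp (cont_Exp T)).mul hF).integrable_of_hasCompactSupport
    ((supp_Exp hT).comp_left (g := fun x : ℝ => (x : ℂ)) Complex.ofReal_zero).mul_right

lemma int_sum_Exp {T : ℝ} (hT : 0 < T) (s : Finset ℕ) {F : ℕ → ℝ → ℂ}
    (hF : ∀ i, Continuous (F i)) :
    ∫ t : ℝ, (Wt (t / T) : ℂ) * ∑ i ∈ s, F i t = ∑ i ∈ s, ∫ t : ℝ, (Wt (t / T) : ℂ) * F i t := by
  simp only [mul_sum]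
  exact integral_finsetSum _ fun i _ => integrable_Exp hT (hF i)

lemma int_pw_Exp {T : ℝ} (hT : 0 < T) (c : ℂ) (X : ℝ) :
    ∫ t : ℝ, (Wt (t / T) : ℂ) * (c * pw X t) = T * (c * wh (T * Real.log X)) := by
  have h := Measure.integral_comp_div
    (fun s : ℝ => (Wt s : ℂ) * Complex.exp (Complex.I * (s : ℂ) * ((T * Real.log X : ℝ) : ℂ))) T
  rw [abs_of_pos hT, Complex.real_smul] at h
  rw [mul_left_comm, wh, ← h, ← integral_const_mul]
  refine integral_congr_ae (Filter.Eventually.of_forall fun t => ?_)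
  have hT' : (T : ℂ) ≠ 0 := Complex.ofReal_ne_zero.2 hT.ne'
  have e : Complex.I * ((t / T : ℝ) : ℂ) * ((T * Real.log X : ℝ) : ℂ) =
      Complex.I * (t : ℂ) * ((Real.log X : ℝ) : ℂ) := by
    push_cast
    field_simp
  simp only [e, pw]
  ring

lemma six_Exp (A B : Finset ℕ) (f g p q : ℕ → ℂ) :
    ∑ a ∈ A, ∑ b ∈ A, ∑ k₁ ∈ B, ∑ l₂ ∈ B, ∑ k₂ ∈ B, ∑ l₁ ∈ B,
      f a * (g b * (p k₁ * (q l₂ * (q k₂ * p l₁)))) =
    (∑ a ∈ A, f a) * ((∑ b ∈ A, g b) * ((∑ k ∈ B, p k) * ((∑ k ∈ B, q k) *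
      ((∑ k ∈ B, q k) * ∑ k ∈ B, p k)))) := by
  simp only [← mul_sum, ← sum_mul]

lemma point_Exp {N : ℕ} (hN : 1 ≤ N) (y : ℝ) (α : ℕ → ℂ) (t : ℝ) :
    ((‖Zo y t‖ ^ 4 * ‖DP N α t‖ ^ 2 : ℝ) : ℂ) = ∑ a ∈ Icc N (2 * N), ∑ b ∈ Icc N (2 * N),
      ∑ k₁ ∈ Icc 1 ⌊2 * y⌋₊, ∑ l₂ ∈ Icc 1 ⌊2 * y⌋₊, ∑ k₂ ∈ Icc 1 ⌊2 * y⌋₊, ∑ l₁ ∈ Icc 1 ⌊2 * y⌋₊,
        α a * conj (α b) *
          ((om ((k₁ : ℝ) / y) * om ((l₂ : ℝ) / y) * om ((k₂ : ℝ) / y) * om ((l₁ : ℝ) / y) : ℝ) :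
            ℂ) * pw (((a : ℝ) * k₁ * l₁) / ((b : ℝ) * l₂ * k₂)) t := by
  have h := six_Exp (Icc N (2 * N)) (Icc 1 ⌊2 * y⌋₊) (fun n => α n * pw (n : ℝ) t)
    (fun n => conj (α n * pw (n : ℝ) t)) (fun n => (om ((n : ℝ) / y) : ℂ) * pw (n : ℝ) t)
    (fun n => conj ((om ((n : ℝ) / y) : ℂ) * pw (n : ℝ) t))
  rw [← map_sum, ← map_sum] at h
  change _ = DP N α t * (conj (DP N α t) * (Zo y t * (conj (Zo y t) *
    (conj (Zo y t) * Zo y t)))) at h
  have e : ((‖Zo y t‖ ^ 4 * ‖DP N α t‖ ^ 2 : ℝ) : ℂ) = DP N α t * (conj (DP N α t) *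
      (Zo y t * (conj (Zo y t) * (conj (Zo y t) * Zo y t)))) := by
    have h1 := Complex.mul_conj' (Zo y t)
    have h2 := Complex.mul_conj' (DP N α t)
    push_cast
    rw [show (‖Zo y t‖ : ℂ) ^ 4 = (‖Zo y t‖ : ℂ) ^ 2 * (‖Zo y t‖ : ℂ) ^ 2 by ring, ← h1, ← h2]
    ring
  rw [e, ← h]
  have n0 : ∀ {n M M' : ℕ}, 1 ≤ M → n ∈ Icc M M' → (n : ℝ) ≠ 0 := fun h1 h2 =>
    Nat.cast_ne_zero.2 (by have := (mem_Icc.1 h2).1; omega)
  refine sum_congr rfl fun a ha => sum_congr rfl fun b hb => sum_congr rfl fun k₁ hk₁ =>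
    sum_congr rfl fun l₂ hl₂ => sum_congr rfl fun k₂ hk₂ => sum_congr rfl fun l₁ hl₁ => ?_
  have a0 := n0 hN ha
  have b0 := n0 hN hb
  have c0 := n0 le_rfl hk₁
  have d0 := n0 le_rfl hl₂
  have e0 := n0 le_rfl hk₂
  have f0 := n0 le_rfl hl₁
  rw [pw_div (mul_ne_zero (mul_ne_zero a0 c0) f0) (mul_ne_zero (mul_ne_zero b0 d0) e0),
    pw_mul (mul_ne_zero a0 c0) f0, pw_mul a0 c0, pw_mul (mul_ne_zero b0 d0) e0, pw_mul b0 d0]
  simp only [map_mul, conj_pw, Complex.conj_ofReal]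
  push_cast
  ring

theorem exp_stmt : ExpStmt := by
  intro N T y α hN hT
  have cZ : Continuous (Zo y) :=
    continuous_finsetSum _ fun n _ => (continuous_pw _).const_mul _
  have cD : Continuous (DP N α) :=
    continuous_finsetSum _ fun n _ => (continuous_pw _).const_mul _
  refine ⟨((cont_Exp T).mul ((cZ.norm.pow 4).mul (cD.norm.pow 2))).integrable_of_hasCompactSupport
    (supp_Exp hT).mul_right, ?_⟩
  rw [← integral_complex_ofReal]
  simp only [Complex.ofReal_mul (Wt _), point_Exp hN, Q4, mul_sum (Icc _ _) _ (T : ℂ),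
    mul_sum (Icc _ _) _ (α _ * _)]
  have cp : ∀ (c : ℂ) (X : ℝ), Continuous fun t => c * pw X t := fun c X =>
    (continuous_pw _).const_mul _
  rw [int_sum_Exp hT _ fun _ => continuous_finsetSum _ fun _ _ => continuous_finsetSum _
    fun _ _ => continuous_finsetSum _ fun _ _ => continuous_finsetSum _ fun _ _ =>
    continuous_finsetSum _ fun _ _ => cp _ _]
  refine sum_congr rfl fun a _ => ?_
  rw [int_sum_Exp hT _ fun _ => continuous_finsetSum _ fun _ _ => continuous_finsetSum _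
    fun _ _ => continuous_finsetSum _ fun _ _ => continuous_finsetSum _ fun _ _ => cp _ _]
  refine sum_congr rfl fun b _ => ?_
  rw [int_sum_Exp hT _ fun _ => continuous_finsetSum _ fun _ _ => continuous_finsetSum _
    fun _ _ => continuous_finsetSum _ fun _ _ => cp _ _]
  refine sum_congr rfl fun k₁ _ => ?_
  rw [int_sum_Exp hT _ fun _ => continuous_finsetSum _ fun _ _ => continuous_finsetSum _
    fun _ _ => cp _ _]
  refine sum_congr rfl fun l₂ _ => ?_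
  rw [int_sum_Exp hT _ fun _ => continuous_finsetSum _ fun _ _ => cp _ _]
  refine sum_congr rfl fun k₂ _ => ?_
  rw [int_sum_Exp hT _ fun _ => cp _ _]
  refine sum_congr rfl fun l₁ _ => ?_
  rw [int_pw_Exp hT, mul_assoc (α a * _)]

end Pool.Agent.MP_c853c5_nt.W

end

section

set_option autoImplicit false

open Finset MeasureTheory
open scoped ENNReal ComplexConjugate

namespace Pool.Agent.MP_c853c5_nt.W

open Pool.Agent.MP_2a1f0e_nt Pool.Agent.MP_2a1f0e_nt.GM Pool.Agent.MP_2a1f0e_nt.DH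
open scoped FourierTransform SchwartzMap

lemma four_F1 (f : ℝ → ℂ) (w : ℝ) : 𝓕 f w = FT1 f w := by
  rw [Real.fourier_real_eq_integral_exp_smul]
  refine integral_congr_ae (Filter.Eventually.of_forall fun v => ?_)
  simp only [smul_eq_mul]
  rw [mul_comm]
  congr 1
  unfold ex
  rw [mul_comm]
  congr 3
  ring

lemma dec_F1 (f : 𝓢(ℝ, ℂ)) (A : ℕ) : ∃ C : ℝ, 0 < C ∧ ∀ x, ‖f x‖ ≤ C / (1 + |x|) ^ A := by
  refine ⟨2 ^ A * (Finset.Iic ((A, 0) : ℕ × ℕ)).sup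
    (fun m => SchwartzMap.seminorm ℝ m.1 m.2) f + 1, by positivity, fun x => ?_⟩
  have h := SchwartzMap.one_add_le_sup_seminorm_apply (𝕜 := ℝ) (m := (A, 0)) (k := A) (n := 0)
    le_rfl le_rfl f x
  rw [norm_iteratedFDeriv_zero, Real.norm_eq_abs] at h
  rw [le_div_iff₀ (by positivity), mul_comm]
  exact h.trans (le_add_of_nonneg_right zero_le_one)

theorem f1_stmt : F1Stmt := by
  intro f hf hc
  have e : ∀ y, FT1 f y = (𝓕 (hc.toSchwartzMap hf) : 𝓢(ℝ, ℂ)) y := fun y => by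
    rw [SchwartzMap.fourier_coe, ← four_F1]
    rfl
  refine ⟨?_, fun A => ?_, fun z => ?_⟩
  · rw [funext e]
    exact (𝓕 (hc.toSchwartzMap hf) : 𝓢(ℝ, ℂ)).continuous
  · simp only [e]
    exact dec_F1 _ A
  · have h := (hc.toSchwartzMap hf).continuous.fourierInv_fourier_eq
      (hc.toSchwartzMap hf).integrable (𝓕 (hc.toSchwartzMap hf) : 𝓢(ℝ, ℂ)).integrable
    have h1 : f z = 𝓕⁻ (𝓕 f) z := (congrFun h z).symm
    rw [h1, Real.fourierInv_eq_fourier_neg, four_F1, FT1]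
    refine integral_congr_ae (Filter.Eventually.of_forall fun y => ?_)
    simp only [four_F1]
    congr 2
    ring

lemma shift_F1 (ξ y : ℝ) : Eh ξ y = FT1 (E 0) (y - ξ) := by
  refine integral_congr_ae (Filter.Eventually.of_forall fun z => ?_)
  have h := E_add 0 ξ z
  rw [zero_add] at h
  simp only [h]
  rw [mul_assoc, ← ex_add]
  congr 2
  ring

theorem eh_stmt (h : F1Stmt) : EhStmt := by
  intro A
  obtain ⟨C, hC, hb⟩ := (h (E 0) (contDiff_E 0) (hasCompactSupport_E 0)).2.1 A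
  refine ⟨C, hC, fun ξ y => ?_⟩
  rw [shift_F1]
  refine (hb _).trans ?_
  rw [div_le_div_iff₀ (by positivity) (by positivity), mul_assoc, ← mul_pow]
  have h1 : |y| ≤ |ξ| + |y - ξ| := by
    have := abs_add_le ξ (y - ξ)
    rwa [add_sub_cancel] at this
  have h2 : 1 + |y| ≤ (1 + |ξ|) * (1 + |y - ξ|) := by
    nlinarith [abs_nonneg ξ, abs_nonneg (y - ξ), mul_nonneg (abs_nonneg ξ) (abs_nonneg (y - ξ))]
  gcongr

end Pool.Agent.MP_c853c5_nt.W

end

section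

set_option autoImplicit false

open Finset MeasureTheory
open scoped ENNReal ComplexConjugate

namespace Pool.Agent.MP_c853c5_nt.W

open Pool.Agent.MP_2a1f0e_nt Pool.Agent.MP_2a1f0e_nt.GM Pool.Agent.MP_2a1f0e_nt.DH

lemma cop_Gram {q : ℕ} {y : V} :
    Nat.Coprime (ct y) q ↔ ∃ a b c : ℤ, a * y.1 + b * y.2 + c * q = 1 := by
  rw [← Nat.isCoprime_iff_coprime]
  constructor
  · rintro ⟨s, c, hs⟩
    have hg : (ct y : ℤ) = y.1 * Int.gcdA y.1 y.2 + y.2 * Int.gcdB y.1 y.2 := Int.gcd_eq_gcd_ab _ _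
    rw [hg] at hs
    exact ⟨s * Int.gcdA y.1 y.2, s * Int.gcdB y.1 y.2, c, by linear_combination hs⟩
  · rintro ⟨a, b, c, h⟩
    obtain ⟨m, hm⟩ := ct_dvd_one y
    obtain ⟨n, hn⟩ := ct_dvd_two y
    exact ⟨a * m + b * n, c, by linear_combination h - a * hm - b * hn⟩

lemma trans_Gram {q : ℕ} {w u v : V} (hw : Nat.Coprime (ct w) q) (h1 : (q : ℤ) ∣ om2 w u)
    (h2 : (q : ℤ) ∣ om2 w v) : (q : ℤ) ∣ om2 u v := by
  obtain ⟨k, ⟨m, hm⟩, ⟨n, hn⟩⟩ := lin_mod hw h1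
  obtain ⟨r, hr⟩ := h2
  simp only [om2] at hr ⊢
  exact ⟨k * r + m * v.2 - n * v.1, by linear_combination k * hr + v.2 * hm - v.1 * hn⟩

lemma swap_Gram {q : ℕ} {u v : V} (h : (q : ℤ) ∣ om2 u v) : (q : ℤ) ∣ om2 v u := by
  rw [om2_swap]
  exact h.neg_right

lemma card_Gram {q : ℕ} (hq : 1 ≤ q) {y : V} (hy : Nat.Coprime (ct y) q) :
    q.totient = ((PQ q).filter fun w => (q : ℤ) ∣ om2 w y).card := by
  have hq0 : (0 : ℤ) < q := by exact_mod_cast hq
  obtain ⟨a, b, c, h⟩ := cop_Gram.1 hy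
  rw [Nat.totient_eq_card_coprime]
  refine card_nbij (fun l : ℕ => (((l : ℤ) * y.1) % q, ((l : ℤ) * y.2) % q)) (fun l hl => ?_)
    (fun l hl l' hl' e => ?_) fun w hw => ?_
  · obtain ⟨t, s, hs⟩ := Nat.isCoprime_iff_coprime.2 (mem_filter.1 (mem_coe.1 hl)).2
    have e1 := Int.emod_def ((l : ℤ) * y.1) q
    have e2 := Int.emod_def ((l : ℤ) * y.2) q
    refine mem_coe.2 (mem_filter.2 ⟨mem_PQ.2 ⟨⟨Int.emod_nonneg _ hq0.ne', Int.emod_lt_of_pos _ hq0⟩,
      ⟨Int.emod_nonneg _ hq0.ne', Int.emod_lt_of_pos _ hq0⟩, cop_Gram.2 ⟨s * a, s * b,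
        t + s * l * c + s * a * ((l : ℤ) * y.1 / q) + s * b * ((l : ℤ) * y.2 / q), ?_⟩⟩,
      ((l : ℤ) * y.2 / q) * y.1 - ((l : ℤ) * y.1 / q) * y.2, ?_⟩)
    · linear_combination hs + s * l * h + s * a * e1 + s * b * e2
    · simp only [om2]
      linear_combination y.2 * e1 - y.1 * e2
  · have h1 := mem_range.1 (mem_filter.1 (mem_coe.1 hl)).1
    have h2 := mem_range.1 (mem_filter.1 (mem_coe.1 hl')).1
    obtain ⟨m, hm⟩ := Int.ModEq.dvd (congrArg Prod.fst e)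
    obtain ⟨n, hn⟩ := Int.ModEq.dvd (congrArg Prod.snd e)
    have h3 : (q : ℤ) ∣ (l' : ℤ) - l :=
      ⟨a * m + b * n + c * (l' - l), by linear_combination a * hm + b * hn - (l' - l : ℤ) * h⟩
    exact Nat.ModEq.eq_of_lt_of_lt (Nat.modEq_iff_dvd.2 h3) h1 h2
  · obtain ⟨h1, h2⟩ := mem_filter.1 (mem_coe.1 hw)
    obtain ⟨h3, h4, h5⟩ := mem_PQ.1 h1
    obtain ⟨k, ⟨m, hm⟩, ⟨n, hn⟩⟩ := lin_mod hy (swap_Gram h2)
    obtain ⟨a', b', c', h'⟩ := cop_Gram.1 h5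
    obtain ⟨l, hl⟩ := Int.eq_ofNat_of_zero_le (Int.emod_nonneg k hq0.ne')
    have h6 := Int.emod_lt_of_pos k hq0
    have e := Int.emod_def k q
    rw [hl] at h6 e
    refine ⟨l, mem_coe.2 (mem_filter.2 ⟨mem_range.2 (by exact_mod_cast h6),
      Nat.isCoprime_iff_coprime.1 ⟨c' + a' * (m + k / q * y.1) + b' * (n + k / q * y.2),
        a' * y.1 + b' * y.2, ?_⟩⟩), Prod.ext ?_ ?_⟩
    · linear_combination h' - a' * hm - b' * hn + (a' * y.1 + b' * y.2) * e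
    · refine Eq.trans (Int.modEq_iff_dvd.2 ⟨m + k / q * y.1, ?_⟩) (Int.emod_eq_of_lt h3.1 h3.2)
      linear_combination hm - y.1 * e
    · refine Eq.trans (Int.modEq_iff_dvd.2 ⟨n + k / q * y.2, ?_⟩) (Int.emod_eq_of_lt h4.1 h4.2)
      linear_combination hn - y.2 * e

theorem gram_stmt : GramStmt := by
  intro q hq y y' hy _
  have h1 : ∀ w ∈ PQ q, ind q (om2 w y) * ind q (om2 w y') =
      (if (q : ℤ) ∣ om2 w y then 1 else 0) * ind q (om2 y y') := by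
    intro w hw
    unfold ind
    split_ifs with h
    · rw [iC_pos h]
      congr 1
      exact iC_congr ⟨trans_Gram (mem_PQ.1 hw).2.2 h, trans_Gram hy (swap_Gram h)⟩
    · rw [iC_neg h, zero_mul, zero_mul]
  rw [sum_congr rfl h1, ← sum_mul, sum_boole, ← card_Gram hq hy]

end Pool.Agent.MP_c853c5_nt.W

end

section

set_option autoImplicit false
open Finset MeasureTheory
open scoped ENNReal ComplexConjugate
namespace Pool.Agent.MP_c853c5_nt.W
open Pool.Agent.MP_2a1f0e_nt Pool.Agent.MP_2a1f0e_nt.GM Pool.Agent.MP_2a1f0e_nt.DH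

lemma sum_ind_Grs (hG : GramStmt) {q : ℕ} (hq : 1 ≤ q) {y : V} (hy : Prim y) :
    ∑ w ∈ PQ q, ind q (om2 w y) = (q.totient : ℂ) := by
  have h := hG q hq y y (hy.coprime q) (hy.coprime q)
  have h0 : ind q (om2 y y) = 1 := by
    rw [om2_self]
    exact iC_pos (dvd_zero _)
  rw [h0, mul_one] at h
  rw [← h]
  refine Finset.sum_congr rfl fun w _ => ?_
  unfold ind
  rw [← iC_and]
  exact iC_congr (and_self_iff.symm)

lemma summ_Grs {a : Pr → ℂ} (ha : Summable fun P => ‖a P‖) {c : Pr → ℂ} (hc : ∀ P, ‖c P‖ ≤ 1) :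
    Summable fun P => ‖a P * c P‖ :=
  Summable.of_nonneg_of_le (fun _ => norm_nonneg _)
    (fun P => (norm_mul_le _ _).trans (mul_le_of_le_one_right (norm_nonneg _) (hc P))) ha

lemma card_Grs (hC : CardStmt) {q : ℕ} (hq : 1 ≤ q) :
    ((PQ q).card : ℂ) = (q.totient : ℂ) * (psiD q : ℂ) := by
  exact_mod_cast hC q hq

lemma sub_av_Grs (hC : CardStmt) (hG : GramStmt) {q : ℕ} (hq : 1 ≤ q) (pt : Pr → V) {a : Pr → ℂ}
    (ha : Summable fun P => ‖a P‖) (hp : ∀ P, a P ≠ 0 → Prim (pt P)) (w : V) :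
    (∑' P : Pr, a P * ind q (om2 w (pt P))) -
      av q (fun w => ∑' P : Pr, a P * ind q (om2 w (pt P))) =
      ∑' P : Pr, a P * dl q (om2 w (pt P)) := by
  have hφ : (q.totient : ℂ) ≠ 0 := by exact_mod_cast (Nat.totient_pos.2 hq).ne'
  have hψ : (psiD q : ℂ) ≠ 0 := by exact_mod_cast (zero_lt_one.trans_le (one_le_psiD hq)).ne'
  have hs : ∀ w, Summable fun P => a P * ind q (om2 w (pt P)) := fun w =>
    (summ_Grs ha fun P => norm_ind_le q _).of_norm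
  have h1 : ∑ w ∈ PQ q, ∑' P : Pr, a P * ind q (om2 w (pt P)) =
      (∑' P : Pr, a P) * (q.totient : ℂ) := by
    rw [← Summable.tsum_finsetSum fun w _ => hs w, ← tsum_mul_right]
    refine tsum_congr fun P => ?_
    by_cases h0 : a P = 0
    · simp [h0]
    · rw [← Finset.mul_sum, sum_ind_Grs hG hq (hp P h0)]
  have h2 : av q (fun w => ∑' P : Pr, a P * ind q (om2 w (pt P))) =
      ∑' P : Pr, a P * ((1 / psiD q : ℝ) : ℂ) := by
    rw [av, h1, card_Grs hC hq, tsum_mul_right]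
    push_cast
    field_simp
  rw [h2, ← Summable.tsum_sub (hs w) (ha.of_norm.mul_right _)]
  exact tsum_congr fun P => by rw [dl, mul_sub]

lemma conj_dl_Grs (q : ℕ) (n : ℤ) : conj (dl q n) = dl q n := by
  rw [dl, map_sub, Complex.conj_ofReal, ind, conj_iC]

lemma sum_dl_Grs (hC : CardStmt) (hG : GramStmt) {q : ℕ} (hq : 1 ≤ q) {y y' : V} (hy : Prim y)
    (hy' : Prim y') :
    ∑ w ∈ PQ q, dl q (om2 w y) * dl q (om2 w y') = (q.totient : ℂ) * dl q (om2 y y') := by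
  have hψ : (psiD q : ℂ) ≠ 0 := by exact_mod_cast (zero_lt_one.trans_le (one_le_psiD hq)).ne'
  have e : ∀ w, dl q (om2 w y) * dl q (om2 w y') =
      ind q (om2 w y) * ind q (om2 w y') - ((1 / psiD q : ℝ) : ℂ) * ind q (om2 w y) -
        ((1 / psiD q : ℝ) : ℂ) * ind q (om2 w y') + ((1 / psiD q : ℝ) : ℂ) ^ 2 := fun w => by
    simp only [dl]
    ring
  simp only [e, Finset.sum_add_distrib, Finset.sum_sub_distrib, ← Finset.mul_sum,
    Finset.sum_const, nsmul_eq_mul]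
  rw [hG q hq y y' (hy.coprime q) (hy'.coprime q), sum_ind_Grs hG hq hy, sum_ind_Grs hG hq hy',
    card_Grs hC hq, dl]
  push_cast
  field_simp
  ring

lemma abs_Grs {ι κ : Type} (S : Finset κ) (f g : κ → ι → ℂ) (hf : ∀ w, Summable fun P => ‖f w P‖)
    (hg : ∀ w, Summable fun P => ‖g w P‖) :
    ∑ w ∈ S, (∑' P, f w P) * conj (∑' P, g w P) =
      ∑' z : ι × ι, ∑ w ∈ S, f w z.1 * conj (g w z.2) := by
  have hg' : ∀ w, Summable fun P => ‖conj (g w P)‖ := fun w => by simpa using hg w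
  rw [Summable.tsum_finsetSum fun w _ => summable_mul_of_summable_norm (hf w) (hg' w)]
  refine Finset.sum_congr rfl fun w _ => ?_
  rw [Complex.conj_tsum, tsum_mul_tsum_of_summable_norm (hf w) (hg' w)]

theorem grs_stmt (hC : CardStmt) (hG : GramStmt) : GrsStmt := by
  intro q hq pt₁ pt₂ a b ha hb hpa hpb
  have hφ : (q.totient : ℂ) ≠ 0 := by exact_mod_cast (Nat.totient_pos.2 hq).ne'
  have sa : ∀ w, Summable fun P => ‖a P * dl q (om2 w (pt₁ P))‖ := fun w =>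
    summ_Grs ha fun P => norm_dl_le hq _
  have sb : ∀ w, Summable fun P => ‖b P * dl q (om2 w (pt₂ P))‖ := fun w =>
    summ_Grs hb fun P => norm_dl_le hq _
  rw [BV]
  simp only [sub_av_Grs hC hG hq pt₁ ha hpa, sub_av_Grs hC hG hq pt₂ hb hpb]
  rw [abs_Grs (PQ q) (fun w P => a P * dl q (om2 w (pt₁ P)))
    (fun w P => b P * dl q (om2 w (pt₂ P))) sa sb, ← tsum_div_const]
  refine tsum_congr fun z => ?_
  by_cases h1 : a z.1 = 0
  · simp [h1]
  by_cases h2 : b z.2 = 0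
  · simp [h2]
  have e : ∀ w, (a z.1 * dl q (om2 w (pt₁ z.1))) * conj (b z.2 * dl q (om2 w (pt₂ z.2))) =
      (a z.1 * conj (b z.2)) * (dl q (om2 w (pt₁ z.1)) * dl q (om2 w (pt₂ z.2))) := fun w => by
    rw [map_mul, conj_dl_Grs]
    ring
  simp only [e, ← Finset.mul_sum]
  rw [sum_dl_Grs hC hG hq (hpa _ h1) (hpb _ h2)]
  field_simp

end Pool.Agent.MP_c853c5_nt.W

end

section

set_option autoImplicit false

open Finset MeasureTheory
open scoped ENNReal ComplexConjugate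

namespace Pool.Agent.MP_c853c5_nt.W

open Pool.Agent.MP_2a1f0e_nt Pool.Agent.MP_2a1f0e_nt.GM Pool.Agent.MP_2a1f0e_nt.DH

lemma nu_Inv (z : Pr × Pr) (x : MM) : (nI z : ℝ) * (vx z.1.2 x).1 =
    (sI z : ℝ) * (vx z.1.1 x).1 + (hh z.1 : ℝ) * (vx z.2.1 x).1 := by
  simp only [hh, nI, sI, om2, vx]; push_cast; ring

lemma bd_Inv {y c d A a b S T C D : ℝ} (hA : 0 < A) (h : y * A = c * a + d * b)
    (ha : |a| ≤ S * A) (hb : |b| ≤ T * A) (hc : |c| ≤ C) (hd : |d| ≤ D) :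
    |y| ≤ C * S + D * T := by
  refine le_of_mul_le_mul_right ?_ hA
  have h1 : |c * a| ≤ C * (S * A) := by
    rw [abs_mul]
    exact mul_le_mul hc ha (abs_nonneg _) ((abs_nonneg _).trans hc)
  have h2 : |d * b| ≤ D * (T * A) := by
    rw [abs_mul]
    exact mul_le_mul hd hb (abs_nonneg _) ((abs_nonneg _).trans hd)
  have h3 : |y| * A = |c * a + d * b| := by rw [← h, abs_mul, abs_of_pos hA]
  linarith [abs_add_le (c * a) (d * b)]

lemma tt_Inv {P : Pr} {x : MM} {S : ℝ} (h0 : 0 < (vx P.2 x).1) (h : |tt P x| ≤ S) :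
    |(vx P.1 x).1| ≤ S * (vx P.2 x).1 := by
  rwa [tt, abs_div, abs_of_pos h0, div_le_iff₀ h0] at h

theorem inv_stmt : InvStmt := by
  rintro α H2 H z x hα ⟨-, a1, ⟨a2, a3, a4⟩, a5, -, a6, a7, a8⟩
    ⟨-, b1, ⟨b2, b3, b4⟩, -, -, b6, b7, b8⟩
  have hA : 0 < (vx z.1.2 x).1 := by linarith
  have hB : 0 < (vx z.2.2 x).1 := by linarith
  have c1 := tt_Inv hA a6
  have c2 := tt_Inv hB b6
  have c3 : |(vx z.2.2 x).1| ≤ 4 * (vx z.1.2 x).1 := by rw [abs_of_pos hB]; linarith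
  have c4 : |(vx z.1.2 x).1| ≤ 4 * (vx z.2.2 x).1 := by rw [abs_of_pos hA]; linarith
  have hs : |(sI z : ℝ)| ≤ 2 * |(rI z : ℝ)| * |H2| + 8 * |H| := by
    have := bd_Inv (y := sI z) (c := rI z) (d := -(hh z.2 : ℝ)) hB
      (by linarith [rv_one z x]) c2 c4 le_rfl ((abs_neg _).trans_le b8)
    linarith
  refine ⟨a1, b1, a7, a8, b7, b8, ?_, ?_, hs, ?_⟩
  · have h1 := om2_dt z.1.2 z.2.2 x
    have h2 : |(rI z : ℝ)| * dt x =
        |(vx z.1.2 x).1 * (vx z.2.2 x).2 - (vx z.1.2 x).2 * (vx z.2.2 x).1| := by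
      rw [← h1, abs_mul, abs_of_pos (show 0 < dt x by linarith), rI]
    have h3 : |(vx z.1.2 x).1 * (vx z.2.2 x).2| ≤ 4 * α * (4 * α) := by
      rw [abs_mul, abs_of_pos hA]
      exact mul_le_mul a3 (b4.trans b3) (abs_nonneg _) (by linarith)
    have h4 : |(vx z.1.2 x).2 * (vx z.2.2 x).1| ≤ 4 * α * (4 * α) := by
      rw [abs_mul, abs_of_pos hB]
      exact mul_le_mul (a4.trans a3) b3 hB.le (by linarith)
    have h5 := le_mul_of_one_le_right (abs_nonneg (rI z : ℝ)) a5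
    linarith [abs_sub ((vx z.1.2 x).1 * (vx z.2.2 x).2) ((vx z.1.2 x).2 * (vx z.2.2 x).1)]
  · have := bd_Inv (y := pI z) (c := rI z) (d := hh z.1) hA
      (by linarith [ru_one z x]) c1 c3 le_rfl a8
    linarith
  · have c5 : |(vx z.2.1 x).1| ≤ 8 * |H2| * (vx z.1.2 x).1 := by
      rw [abs_of_pos hB] at c3
      nlinarith [abs_nonneg H2]
    have := bd_Inv hA (nu_Inv z x) c1 c5 hs a8
    rw [← sq_abs H2]
    linarith

lemma box_Inv (R : ℝ) {x : MM} (h : 1 ≤ dt x) :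
    {w : V | |(vx w x).1| ≤ R ∧ |(vx w x).2| ≤ R}.Finite := by
  obtain ⟨n, hn⟩ := exists_nat_ge (R * (|x.1.1| + |x.1.2| + |x.2.1| + |x.2.2|))
  refine ((Set.finite_Icc (-n : ℤ) n).prod (Set.finite_Icc (-n : ℤ) n)).subset ?_
  rintro w ⟨h1, h2⟩
  have hD : 0 < dt x := by linarith
  have hR : 0 ≤ R := (abs_nonneg _).trans h1
  have k : ∀ s : ℝ, |s| ≤ |s| * dt x := fun s => le_mul_of_one_le_right (abs_nonneg _) h
  have e1 := bd_Inv (y := w.1) (c := (vx w x).1) (d := -(vx w x).2) hD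
    (by simp only [vx, dt]; ring) (k x.2.2) (k x.2.1) h1 ((abs_neg _).trans_le h2)
  have e2 := bd_Inv (y := w.2) (c := (vx w x).2) (d := -(vx w x).1) hD
    (by simp only [vx, dt]; ring) (k x.1.1) (k x.1.2) h2 ((abs_neg _).trans_le h1)
  have m : ∀ s : ℝ, 0 ≤ R * |s| := fun s => mul_nonneg hR (abs_nonneg s)
  have f1 : |w.1| ≤ n := by
    exact_mod_cast (show |(w.1 : ℝ)| ≤ n by linarith [m x.1.1, m x.1.2])
  have f2 : |w.2| ≤ n := by
    exact_mod_cast (show |(w.2 : ℝ)| ≤ n by linarith [m x.2.1, m x.2.2])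
  exact ⟨abs_le.1 f1, abs_le.1 f2⟩

theorem fin_stmt : FinStmt := by
  intro α H2 H x hα
  by_cases h : 1 ≤ dt x
  swap
  · exact Set.finite_empty.subset fun P hP => h hP.2.2.2.1
  have hb := box_Inv (4 * α + 8 * |H2| * α + 4 * |H| / α) h
  refine (hb.prod hb).subset ?_
  rintro P ⟨-, -, ⟨a2, a3, a4⟩, -, a5, a6, -, a8⟩
  have hA : 0 < (vx P.2 x).1 := by linarith
  have c1 := tt_Inv hA a6
  have p1 : 0 ≤ 8 * |H2| * α := by positivity
  have p2 : 0 ≤ 4 * |H| / α := by positivity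
  have c2 : |(vx P.1 x).1| ≤ 8 * |H2| * α := by nlinarith [abs_nonneg H2]
  have c3 : |dt x| ≤ 2 / α * (vx P.2 x).1 := by
    rw [abs_of_pos (by linarith), div_mul_eq_mul_div, le_div_iff₀ hα]
    nlinarith
  have c0 : (hh P : ℝ) * dt x = _ := om2_dt P.1 P.2 x
  have c4 := bd_Inv (y := (vx P.1 x).2) (c := (vx P.1 x).1) (d := -(hh P : ℝ)) (b := dt x) hA
    (by linarith) (a4.trans_eq (one_mul _).symm) c3 c2 ((abs_neg _).trans_le a8)
  have c5 : 2 * |H| * (2 / α) = 4 * |H| / α := by ring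
  refine ⟨⟨by linarith, by linarith⟩, ?_, by linarith⟩
  rw [abs_of_pos hA]
  linarith

end Pool.Agent.MP_c853c5_nt.W

end

section

/-!
The trivial bound for packets supported on matrices of determinant one.
-/

set_option autoImplicit false

open Finset MeasureTheory
open scoped ENNReal ComplexConjugate

namespace Pool.Agent.MP_c853c5_nt.W

open Pool.Agent.MP_2a1f0e_nt Pool.Agent.MP_2a1f0e_nt.GM Pool.Agent.MP_2a1f0e_nt.DH

lemma vb_nonneg_Left (H2 H : ℝ) (r : ℤ) : 0 ≤ vb H2 H r := by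
  unfold vb
  split_ifs <;> positivity

lemma core_Left (hI : InvStmt) (hV : VolStmt) (hL : CntLStmt) {ε : ℝ} (hε : 0 < ε) :
    ∃ C : ℝ, 0 < C ∧ ∀ (Λ α : ℝ) (a b : ℕ) (D : Pr × Pr → Prop), 1 ≤ Λ → 0 < α → α ≤ Λ →
      1 ≤ a → 1 ≤ b → (∀ z, D z → (a : ℤ) ∣ rI z ∧ (b : ℤ) ∣ nI z) →
      ∑' z : Orb, iE (D z.1) * vol (SupL α) (SupL α) z.1 ≤
        ENNReal.ofReal (C * Λ ^ ε * (α ^ 2 * (1 + α ^ 2 / (a * b)))) := by
  obtain ⟨C, hC, hL⟩ := hL ε hε
  refine ⟨288 * C, by positivity, fun Λ α a b D hΛ hα hαΛ ha hb hD => ?_⟩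
  refine tsum_Orb_le (f := fun z => iE (D z) * vol (SupL α) (SupL α) z) fun S hS => ?_
  have h1 := hL Λ α a b S hΛ hα hαΛ ha hb fun z hz => by
    obtain ⟨ho, hz0⟩ := hS z hz
    obtain ⟨x, hx1, hx2⟩ := nonempty_of_measure_ne_zero (right_ne_zero_of_mul hz0)
    exact ⟨ho, hx1.1, hx2.1, hI α 1 1 z x hα hx1.2 hx2.2,
      hD z (iE_ne_zero (left_ne_zero_of_mul hz0))⟩
  calc ∑ z ∈ S, iE (D z) * vol (SupL α) (SupL α) z
      ≤ ∑ z ∈ S, ENNReal.ofReal (288 * α ^ 2 * vb 1 1 (rI z)) := by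
        refine sum_le_sum fun z hz => (mul_le_of_le_one_left' (iE_le_one _)).trans ?_
        exact le_trans (measure_mono fun x hx => And.intro hx.1.2 hx.2.2)
          (hV α 1 1 z hα (hS z hz).1)
    _ = ENNReal.ofReal (288 * α ^ 2 * ∑ z ∈ S, vb 1 1 (rI z)) := by
        rw [mul_sum, ENNReal.ofReal_sum_of_nonneg fun z _ =>
          mul_nonneg (by positivity) (vb_nonneg_Left _ _ _)]
    _ ≤ _ := by
        refine ENNReal.ofReal_le_ofReal ?_
        refine (mul_le_mul_of_nonneg_left h1 (by positivity)).trans (le_of_eq ?_)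
        ring

lemma dvd_Left {a b : ℕ} (hab : Nat.Coprime a b) (z : Pr × Pr)
    (h : ((a * b : ℕ) : ℤ) ∣ om2 (vg ((a : ℤ), (b : ℤ)) z.1) (vg ((a : ℤ), (b : ℤ)) z.2)) :
    (a : ℤ) ∣ rI z ∧ (b : ℤ) ∣ nI z := by
  have e : om2 (vg ((a : ℤ), (b : ℤ)) z.1) (vg ((a : ℤ), (b : ℤ)) z.2) =
      (a : ℤ) ^ 2 * nI z + (b : ℤ) ^ 2 * rI z + (a : ℤ) * b * (pI z + sI z) := by
    simp only [om2, vg, nI, pI, sI, rI]
    ring
  have hc : IsCoprime (a : ℤ) (b : ℤ) := Nat.isCoprime_iff_coprime.2 hab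
  rw [e, Nat.cast_mul, dvd_add_left (dvd_mul_right _ _)] at h
  constructor
  · have h1 := (dvd_mul_right (a : ℤ) b).trans h
    rw [dvd_add_right ((dvd_pow_self (a : ℤ) two_ne_zero).mul_right _)] at h1
    exact (hc.pow_right (n := 2)).dvd_of_dvd_mul_left h1
  · have h1 := (dvd_mul_left (b : ℤ) a).trans h
    rw [dvd_add_left ((dvd_pow_self (b : ℤ) two_ne_zero).mul_right _)] at h1
    exact (hc.symm.pow_right (n := 2)).dvd_of_dvd_mul_left h1

theorem left_stmt (hR : RoughStmt) (hS : ShpStmt) (hI : InvStmt) (hV : VolStmt)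
    (hL : CntLStmt) : LeftStmt := by
  intro ε hε
  obtain ⟨C, hC, H⟩ := core_Left hI hV hL hε
  refine ⟨C, hC, fun μ hμ Λ α Ψ hΛ hα hαΛ h1 h2 => ⟨fun a b ha hb hab => ?_, fun g hg => ?_⟩⟩
  · refine (LF_le_L0 _ _ _).trans ((hR μ hμ (a * b) _ (SupL α) Ψ (Nat.mul_pos ha hb)
      ((hS μ hμ α hα).2.2.1 a b hab) h1 h2).trans ?_)
    exact H Λ α a b _ hΛ hα hαΛ ha hb (dvd_Left hab)
  · refine (hR μ hμ g _ (SupL α) Ψ hg (hS μ hμ α hα).2.2.2 h1 h2).trans ?_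
    have h3 := H Λ α g 1 (fun z => (g : ℤ) ∣ rI z) hΛ hα hαΛ hg le_rfl fun z hz =>
      ⟨hz, one_dvd _⟩
    rw [Nat.cast_one, mul_one] at h3
    exact h3

end Pool.Agent.MP_c853c5_nt.W

end

section

set_option autoImplicit false

open Finset MeasureTheory
open scoped ENNReal ComplexConjugate

namespace Pool.Agent.MP_c853c5_nt.W

open Pool.Agent.MP_2a1f0e_nt Pool.Agent.MP_2a1f0e_nt.GM Pool.Agent.MP_2a1f0e_nt.DH

lemma dsl_Lg {w : ℝ} (hw : |w| < 1) :
    ContDiffAt ℝ (⊤ : ℕ∞) (dslope (fun z : ℝ => Real.log (1 + z)) 0) w := by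
  have h1 : 0 < 1 + w := by linarith [(abs_lt.1 hw).1]
  have ha : AnalyticAt ℝ (fun z : ℝ => Real.log (1 + z)) w :=
    (analyticAt_const.add analyticAt_id).log h1
  rcases eq_or_ne w 0 with rfl | h0
  · obtain ⟨p, hp⟩ := ha
    exact hp.has_fpower_series_dslope_fslope.analyticAt.contDiffAt
  · refine ContDiffAt.congr_of_eventuallyEq ?_ (dslope_eventuallyEq_slope_of_ne _ h0)
    have e : slope (fun z : ℝ => Real.log (1 + z)) 0 = fun z : ℝ => Real.log (1 + z) / z := by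
      funext z
      rw [slope_def_field]
      simp
    rw [e]
    exact ha.contDiffAt.div contDiffAt_id h0

theorem lg_stmt : LgStmt := by
  let χ : ContDiffBump (0 : ℝ) := ⟨1 / 2, 3 / 4, by norm_num, by norm_num⟩
  have hχ : ContDiff ℝ (⊤ : ℕ∞) fun z : ℝ => χ z * z := χ.contDiff.mul contDiff_id
  have hlt : ∀ z : ℝ, |χ z * z| < 1 := fun z => by
    rcases lt_or_ge |z| (3 / 4) with h | h
    · rw [abs_mul, abs_of_nonneg χ.nonneg]
      exact (mul_le_of_le_one_left (abs_nonneg _) χ.le_one).trans_lt (by linarith)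
    · rw [χ.zero_of_le_dist (by rwa [Real.dist_0_eq_abs]), zero_mul, abs_zero]
      exact one_pos
  refine ⟨fun z => dslope (fun z : ℝ => Real.log (1 + z)) 0 (χ z * z), ?_, fun z hz => ?_⟩
  · exact contDiff_iff_contDiffAt.2 fun z =>
      ContDiffAt.comp (f := fun z : ℝ => χ z * z) z (dsl_Lg (hlt z)) hχ.contDiffAt
  · have e : χ z = 1 :=
      χ.one_of_mem_closedBall (by rwa [Metric.mem_closedBall, Real.dist_0_eq_abs])
    have := sub_smul_dslope (fun z : ℝ => Real.log (1 + z)) 0 z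
    simp only [sub_zero, smul_eq_mul, add_zero, Real.log_one] at this
    simp only [e, one_mul]
    exact this.symm

lemma inv_le_Lg {t θ : ℝ} (ht : 0 < t) (h0 : 0 ≤ θ) (h1 : θ ≤ 1) : 1 / (1 + t) ≤ t ^ (-θ) := by
  rcases le_total t 1 with h | h
  · refine le_trans ?_ (Real.one_le_rpow_of_pos_of_le_one_of_nonpos ht h (neg_nonpos.2 h0))
    rw [div_le_one (by linarith)]
    linarith
  · refine le_trans ?_ (Real.rpow_le_rpow_of_exponent_le h (neg_le_neg h1))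
    rw [Real.rpow_neg_one, ← one_div]
    exact one_div_le_one_div_of_le ht (by linarith)

theorem sc_stmt : ScStmt := by
  intro ε hε
  obtain ⟨θ, h0, h1, h2⟩ : ∃ θ : ℝ, 0 < θ ∧ θ ≤ 1 ∧ 17 * θ ≤ ε :=
    ⟨min 1 (ε / 17), lt_min one_pos (by positivity), min_le_left _ _,
      by linarith [min_le_right 1 (ε / 17)]⟩
  obtain ⟨q, hq⟩ : ∃ q : ℝ, q = (4 / 3 : ℝ) ^ (-θ) := ⟨_, rfl⟩
  have q0 : 0 ≤ q := hq ▸ Real.rpow_nonneg (by norm_num) _
  have q1 : q < 1 := hq ▸ Real.rpow_lt_one_of_one_lt_of_neg (by norm_num) (neg_lt_zero.2 h0)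
  have q2 : 0 < (1 - q)⁻¹ := inv_pos.2 (by linarith)
  refine ⟨3 * (1 - q)⁻¹, by positivity, fun Λ c hΛ hc => ?_⟩
  have hL : 0 < 3 * Λ ^ 17 := by positivity
  have c0 : 0 < c := by
    by_contra h
    nlinarith [mul_nonneg hL.le (neg_nonneg.2 (not_lt.1 h))]
  have hb : ∀ i : ℕ, 1 / (1 + c * (4 / 3) ^ i) ≤ c ^ (-θ) * q ^ i := fun i => by
    refine (inv_le_Lg (by positivity) h0.le h1).trans (le_of_eq ?_)
    rw [Real.mul_rpow c0.le (by positivity), hq, ← Real.rpow_natCast, ← Real.rpow_natCast,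
      ← Real.rpow_mul (by norm_num), ← Real.rpow_mul (by norm_num), mul_comm (-θ)]
  have hs : Summable fun i : ℕ => c ^ (-θ) * q ^ i :=
    (summable_geometric_of_lt_one q0 q1).mul_left _
  have hs' : Summable fun i : ℕ => 1 / (1 + c * (4 / 3) ^ i) :=
    Summable.of_nonneg_of_le (fun i => by positivity) hb hs
  refine ⟨hs', (hs'.tsum_le_tsum hb hs).trans ?_⟩
  rw [tsum_mul_left, tsum_geometric_of_lt_one q0 q1]
  have k1 : c ^ (-θ) ≤ (3 * Λ ^ 17) ^ θ := by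
    rw [Real.rpow_neg c0.le, ← Real.inv_rpow c0.le]
    refine Real.rpow_le_rpow (inv_pos.2 c0).le ?_ h0.le
    rw [inv_eq_one_div, div_le_iff₀ c0]
    exact hc
  have k2 : (3 * Λ ^ 17) ^ θ ≤ 3 * Λ ^ ε := by
    rw [Real.mul_rpow (by norm_num) (by positivity), ← Real.rpow_natCast,
      ← Real.rpow_mul (by linarith)]
    refine mul_le_mul ?_ (Real.rpow_le_rpow_of_exponent_le hΛ (by exact_mod_cast h2))
      (by positivity) (by norm_num)
    exact (Real.rpow_le_rpow_of_exponent_le (by norm_num) h1).trans (Real.rpow_one 3).le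
  have k3 := mul_le_mul_of_nonneg_right (k1.trans k2) q2.le
  linarith

end Pool.Agent.MP_c853c5_nt.W

end

section

set_option autoImplicit false

open Finset MeasureTheory
open scoped ENNReal ComplexConjugate

namespace Pool.Agent.MP_c853c5_nt.W

open Pool.Agent.MP_2a1f0e_nt Pool.Agent.MP_2a1f0e_nt.GM Pool.Agent.MP_2a1f0e_nt.DH

lemma dual_LineB (ξ : ℝ) {h : ℝ} (h1 : |h| < 1) : ‖∑' k : ℤ, E ξ (k / h)‖ ≤ 4 * |h| := by
  have a : ∀ k : ℤ, k ∉ ({1, -1} : Finset ℤ) → E ξ (k / h) = 0 := fun k hk => by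
    by_contra hn
    obtain ⟨-, a1, a2⟩ := abs_of_mem (E_mem hn)
    have a3 : (0 : ℝ) < |(k : ℝ)| := (abs_nonneg h).trans_lt a1
    have a4 : |(k : ℝ)| < 2 := by linarith
    have a5 : 0 < |k| := by exact_mod_cast a3
    have a6 : |k| < 2 := by exact_mod_cast a4
    simp only [mem_insert, mem_singleton] at hk
    rcases abs_cases k with a7 | a7 <;> omega
  have b : ∀ k ∈ ({1, -1} : Finset ℤ), ‖E ξ (k / h)‖ ≤ 2 * |h| := fun k hk => by
    by_cases hn : E ξ (k / h) = 0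
    · rw [hn, norm_zero]
      positivity
    · obtain ⟨-, -, a2⟩ := abs_of_mem (E_mem hn)
      have a3 : |(k : ℝ)| = 1 := by
        simp only [mem_insert, mem_singleton] at hk
        rcases hk with rfl | rfl <;> simp
      linarith [norm_E_le ξ (k / h), abs_nonneg h]
  rw [tsum_eq_sum a, sum_pair (by decide)]
  linarith [norm_add_le (E ξ (((1 : ℤ) : ℝ) / h)) (E ξ (((-1 : ℤ) : ℝ) / h)), b 1 (by simp),
    b (-1) (by simp)]

lemma small_LineB (hP : Pois1Stmt) (ξ : ℝ) {h : ℝ} (h0 : h ≠ 0) (h1 : |h| < 1) :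
    ‖∑' k : ℤ, iC (k ≠ 0) * Eh ξ (h * k)‖ ≤ 4 + ‖Eh ξ 0‖ := by
  have p : (0 : ℝ) < |h| := abs_pos.2 h0
  have a := (hP ξ h 0 0 h0).mul_left (((|h| : ℝ) : ℂ))⁻¹
  have e0 : ex 0 = 1 := by simp [ex]
  simp only [sub_zero, mul_zero, zero_mul, add_zero, e0, mul_one,
    inv_mul_cancel_left₀ (Complex.ofReal_ne_zero.2 p.ne')] at a
  have b := hasSum_ite_sub_hasSum a 0
  have c : ∑' k : ℤ, iC (k ≠ 0) * Eh ξ (h * k) =
      ∑' k : ℤ, if k = 0 then 0 else Eh ξ (h * k) := tsum_congr fun k => by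
    by_cases hk : k = 0 <;> simp [iC, hk]
  rw [c, b.tsum_eq, Int.cast_zero, mul_zero]
  refine (norm_sub_le _ _).trans (add_le_add_left ?_ _)
  rw [norm_mul, norm_inv, Complex.norm_real, norm_abs_eq_norm, Real.norm_eq_abs,
    inv_mul_le_iff₀ p, mul_comm]
  exact dual_LineB ξ h1

lemma large_LineB {ξ h B : ℝ} (hB : ∀ y, ‖Eh ξ y‖ ≤ B / (1 + |y|) ^ 2) (h1 : 1 ≤ |h|) :
    ‖∑' k : ℤ, iC (k ≠ 0) * Eh ξ (h * k)‖ ≤ B / |h| * ∑' k : ℤ, 1 / (k : ℝ) ^ 2 := by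
  have B0 : 0 ≤ B := by simpa using (norm_nonneg _).trans (hB 0)
  refine tsum_of_norm_bounded
    ((Real.summable_one_div_int_pow.2 one_lt_two).hasSum.mul_left _) fun k => ?_
  by_cases hk : k = 0
  · simp [iC, hk]
  have k0 : (0 : ℝ) < (k : ℝ) ^ 2 := by positivity
  have e : iC (k ≠ 0) = 1 := by simp [iC, hk]
  rw [e, one_mul, div_mul_div_comm, mul_one]
  refine (hB _).trans (div_le_div_of_nonneg_left B0 (by positivity) ?_)
  rw [abs_mul, ← sq_abs (k : ℝ)]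
  have := mul_nonneg (abs_nonneg h) (abs_nonneg (k : ℝ))
  nlinarith [mul_le_mul_of_nonneg_right h1 (mul_nonneg (abs_nonneg h) (sq_nonneg |(k : ℝ)|))]

theorem lineB_stmt (hE : EhStmt) (hP : Pois1Stmt) : LineBStmt := by
  obtain ⟨C, C0, hC⟩ := hE 2
  have S0 : 0 ≤ ∑' k : ℤ, 1 / (k : ℝ) ^ 2 := tsum_nonneg fun k => by positivity
  refine ⟨4 + C + C * ∑' k : ℤ, 1 / (k : ℝ) ^ 2, by positivity, fun ξ H g hg hH => ?_⟩
  have g0 : (0 : ℝ) < g := by exact_mod_cast hg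
  have p : 0 < |H| := abs_pos.2 hH
  have e : Rl ξ H g = ∑' k : ℤ, iC (k ≠ 0) * Eh ξ (-H / g * k) :=
    tsum_congr fun k => by congr 2; ring
  have a : |-H / g| = |H| / g := by rw [abs_div, abs_neg, abs_of_pos g0]
  have x1 : 1 ≤ (1 + |ξ|) ^ 2 := one_le_pow₀ (by linarith [abs_nonneg ξ])
  have := mul_nonneg C0.le S0
  rw [e]
  rcases lt_or_ge |H| g with h | h
  · rw [min_eq_left ((one_le_div p).2 h.le), mul_one]
    refine (small_LineB hP ξ (div_ne_zero (neg_ne_zero.2 hH) g0.ne')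
      (by rwa [a, div_lt_one g0])).trans ?_
    have h2 := hC ξ 0
    simp only [abs_zero, add_zero, one_pow, div_one] at h2
    nlinarith
  · rw [min_eq_right ((div_le_one p).2 h)]
    refine (large_LineB (hC ξ) (by rwa [a, one_le_div g0])).trans ?_
    rw [a, div_div_eq_mul_div, mul_div_assoc, mul_right_comm]
    refine mul_le_mul_of_nonneg_right ?_ (by positivity)
    nlinarith

end Pool.Agent.MP_c853c5_nt.W

end

section

/-! Mellin inversion for smooth functions with compact support in the positive reals. -/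

set_option autoImplicit false

open Finset MeasureTheory
open scoped ENNReal ComplexConjugate

namespace Pool.Agent.MP_c853c5_nt.W

open Pool.Agent.MP_2a1f0e_nt Pool.Agent.MP_2a1f0e_nt.GM Pool.Agent.MP_2a1f0e_nt.DH

theorem melA_stmt (h : F1Stmt) : MelAStmt := by
  intro f a b ha hf hz A
  have hpi : (0 : ℝ) < 2 * Real.pi := Real.two_pi_pos
  have hF : ContDiff ℝ (⊤ : ℕ∞) fun u : ℝ => ((f (Real.exp u) : ℝ) : ℂ) :=
    Complex.ofRealCLM.contDiff.comp (hf.comp Real.contDiff_exp)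
  have hs : HasCompactSupport fun u : ℝ => ((f (Real.exp u) : ℝ) : ℂ) := by
    refine HasCompactSupport.intro (isCompact_Icc (a := Real.log a) (b := b)) fun u hu => ?_
    rw [hz, Complex.ofReal_zero]
    rw [Set.mem_Icc, not_and_or, not_le, not_le] at hu
    rcases hu with hu | hu
    · exact Or.inl ((Real.lt_log_iff_exp_lt ha).1 hu).le
    · exact Or.inr (by linarith [Real.add_one_le_exp u])
  obtain ⟨c1, hb, hi⟩ := h _ hF hs
  obtain ⟨C, hC, hb⟩ := hb A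
  set F : ℝ → ℂ := FT1 fun u : ℝ => ((f (Real.exp u) : ℝ) : ℂ) with hFdef
  refine ⟨C * 8 ^ A, by positivity,
    fun ξ => (((2 * Real.pi)⁻¹ : ℝ) : ℂ) * F (ξ / (2 * Real.pi)), by fun_prop,
    fun ξ => ?_, fun x hx => ?_⟩
  · rw [norm_mul, Complex.norm_real, Real.norm_of_nonneg (by positivity)]
    refine (mul_le_of_le_one_left (norm_nonneg _) (inv_le_one_of_one_le₀ ?_)).trans
      ((hb _).trans ?_)
    · linarith [Real.pi_gt_three]
    · have e : 1 + |ξ| ≤ 8 * (1 + |ξ / (2 * Real.pi)|) := by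
        have e1 : |ξ| = 2 * Real.pi * |ξ / (2 * Real.pi)| := by
          rw [abs_div, abs_of_pos hpi, mul_div_cancel₀ _ hpi.ne']
        have e2 := abs_nonneg (ξ / (2 * Real.pi))
        nlinarith [Real.pi_le_four]
      rw [div_le_div_iff₀ (by positivity) (by positivity), mul_assoc, ← mul_pow]
      gcongr
  · have k := Measure.integral_comp_div
      (fun w : ℝ => (((2 * Real.pi)⁻¹ : ℝ) : ℂ) * F w * pw x (2 * Real.pi * w)) (2 * Real.pi)
    simp only [mul_div_cancel₀ _ hpi.ne'] at k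
    have k1 := hi (Real.log x)
    rw [Real.exp_log hx] at k1
    rw [k, k1, ← integral_smul, abs_of_pos hpi]
    refine integral_congr_ae (Filter.Eventually.of_forall fun w => ?_)
    have e : ((2 * Real.pi : ℝ) : ℂ) * (((2 * Real.pi)⁻¹ : ℝ) : ℂ) = 1 := by
      rw [← Complex.ofReal_mul, mul_inv_cancel₀ hpi.ne', Complex.ofReal_one]
    simp only [Complex.real_smul, pw_eq_ex]
    rw [← mul_assoc, ← mul_assoc, e, one_mul]
    congr 2
    field_simp

end Pool.Agent.MP_c853c5_nt.W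

end

section

set_option autoImplicit false

open Finset MeasureTheory
open scoped ENNReal ComplexConjugate

namespace Pool.Agent.MP_c853c5_nt.W

open Pool.Agent.MP_2a1f0e_nt Pool.Agent.MP_2a1f0e_nt.GM Pool.Agent.MP_2a1f0e_nt.DH

lemma cs_MinkI {S : Type} [MeasurableSpace S] (ν : Measure S) {A U : S → ℝ≥0∞}
    (hA : Measurable A) (hU : Measurable U) :
    (∫⁻ s, A s * U s ∂ν) ^ 2 ≤ (∫⁻ s, A s ∂ν) * ∫⁻ s, A s * U s ^ 2 ∂ν := by
  have k : ∀ x : ℝ≥0∞, (x ^ (1 / 2 : ℝ)) ^ 2 = x := fun x => by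
    rw [← ENNReal.rpow_natCast, ← ENNReal.rpow_mul]
    norm_num
  have k' : ∀ x : ℝ≥0∞, (x ^ 2) ^ (1 / 2 : ℝ) = x := fun x => by
    rw [← ENNReal.rpow_natCast, ← ENNReal.rpow_mul]
    norm_num
  have h := ENNReal.lintegral_mul_norm_pow_le (μ := ν) hA.aemeasurable
    (hA.fun_mul (hU.pow_const 2)).aemeasurable (p := 1 / 2) (q := 1 / 2) (by norm_num) (by norm_num)
    (by norm_num)
  have e : ∀ s, A s ^ (1 / 2 : ℝ) * (A s * U s ^ 2) ^ (1 / 2 : ℝ) = A s * U s := fun s => by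
    rw [ENNReal.mul_rpow_of_nonneg _ _ (by norm_num), ← mul_assoc, ← sq, k, k']
  simp only [e] at h
  refine (pow_le_pow_left' h 2).trans_eq ?_
  rw [mul_pow, k, k]

lemma nv_MinkI (q : ℕ) (g : V → ℂ) : ENNReal.ofReal (NV q g) =
    ∑ w ∈ PQ q, ENNReal.ofReal (q.totient : ℝ)⁻¹ * ‖g w - av q g‖ₑ ^ 2 := by
  rw [NV, NC, div_eq_inv_mul, ENNReal.ofReal_mul (by positivity),
    ENNReal.ofReal_sum_of_nonneg fun _ _ => by positivity, mul_sum]
  refine sum_congr rfl fun w _ => ?_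
  rw [ENNReal.ofReal_pow (norm_nonneg _), ofReal_norm]

lemma pt_MinkI {S : Type} [MeasurableSpace S] (ν : Measure S) (q : ℕ) (f : V → ℂ)
    (fs : S → V → ℂ) (c : S → ℂ) {A : S → ℝ≥0∞} (hm : ∀ w, Measurable fun s => fs s w)
    (hA : Measurable A) (hc : ∀ s, ‖c s‖ₑ ≤ A s)
    (h : ∀ w ∈ PQ q, Integrable (fun s => c s * fs s w) ν ∧ f w = ∫ s, c s * fs s w ∂ν) :
    ENNReal.ofReal (NV q f) ≤ (∫⁻ s, A s ∂ν) * ∫⁻ s, A s * ENNReal.ofReal (NV q (fs s)) ∂ν := by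
  have e : (fun s => c s * av q (fs s)) =
      fun s => (∑ w ∈ PQ q, c s * fs s w) / ((PQ q).card : ℂ) := funext fun s => (av_mul _ _ _).symm
  have h1 : Integrable (fun s => c s * av q (fs s)) ν := by
    rw [e]
    exact (integrable_finsetSum _ fun w hw => (h w hw).1).div_const _
  have h2 : av q f = ∫ s, c s * av q (fs s) ∂ν := by
    rw [e, integral_div, integral_finsetSum _ fun w hw => (h w hw).1, av,
      sum_congr rfl fun w hw => (h w hw).2]
  have hU : ∀ w, Measurable fun s => ‖fs s w - av q (fs s)‖ₑ := fun w =>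
    ((hm w).sub (measurable_av q hm)).enorm
  simp only [nv_MinkI, mul_sum]
  rw [lintegral_finsetSum _ fun w _ => hA.fun_mul (((hU w).pow_const 2).const_mul _), mul_sum]
  refine sum_le_sum fun w hw => ?_
  simp only [mul_left_comm (A _)]
  rw [lintegral_const_mul _ (hA.fun_mul ((hU w).pow_const 2)), mul_left_comm]
  refine mul_le_mul_right (le_trans (pow_le_pow_left' ?_ 2) (cs_MinkI ν hA (hU w))) _
  rw [(h w hw).2, h2, ← integral_sub (h w hw).1 h1]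
  refine (enorm_integral_le_lintegral_enorm _).trans (lintegral_mono fun s => ?_)
  rw [← mul_sub, enorm_mul]
  exact mul_le_mul_left (hc s) _

theorem minkI_stmt : MinkIStmt := by
  intro S _ _ μ hμ q f fs c a B hm ha hi hB hc h
  have hA : Measurable fun s => ENNReal.ofReal (a s) := ha.ennreal_ofReal
  have h1 : ∫⁻ s, ENNReal.ofReal (a s) ≤ ENNReal.ofReal B := by
    rw [← ofReal_integral_eq_lintegral_ofReal hi
      (ae_of_all _ fun s => (norm_nonneg _).trans (hc s))]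
    exact ENNReal.ofReal_le_ofReal hB
  have h2 : Measurable fun p : S × MM => ENNReal.ofReal (NV q (fs p.1 p.2)) :=
    (measurable_NV q hm).ennreal_ofReal
  have h3 : ∫⁻ s, ENNReal.ofReal (a s) * LF μ q (fs s) =
      ∫⁻ x, (∫⁻ s, ENNReal.ofReal (a s) * ENNReal.ofReal (NV q (fs s x))) ∂μ := by
    rw [← lintegral_lintegral_swap ((hA.comp measurable_fst).mul h2).aemeasurable]
    exact lintegral_congr fun s => (lintegral_const_mul' _ _ ENNReal.ofReal_ne_top).symm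
  rw [h3, ← lintegral_const_mul' _ _ ENNReal.ofReal_ne_top]
  refine lintegral_mono fun x => ?_
  refine (pt_MinkI volume q (f x) (fun s => fs s x) c
    (fun w => (hm w).comp measurable_prodMk_right) hA (fun s => ?_) (h x)).trans
    (mul_le_mul_left h1 _)
  rw [← ofReal_norm]
  exact ENNReal.ofReal_le_ofReal (hc s)

end Pool.Agent.MP_c853c5_nt.W

end

section

/-!
The weighted inequality of Cauchy for series.
-/

set_option autoImplicit false

open Finset MeasureTheory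
open scoped ENNReal ComplexConjugate

namespace Pool.Agent.MP_c853c5_nt.W

open Pool.Agent.MP_2a1f0e_nt Pool.Agent.MP_2a1f0e_nt.GM Pool.Agent.MP_2a1f0e_nt.DH

lemma tend_MinkS {ι : Type} (q : ℕ) {f : V → ℂ} {fs : ι → V → ℂ}
    (h : ∀ w ∈ PQ q, HasSum (fun s => fs s w) (f w)) :
    Filter.Tendsto (fun t : Finset ι => NV q fun w => ∑ s ∈ t, fs s w) Filter.atTop
      (nhds (NV q f)) := by
  have h1 : Filter.Tendsto (fun t : Finset ι => av q fun w => ∑ s ∈ t, fs s w) Filter.atTop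
      (nhds (av q f)) := (tendsto_finsetSum _ fun w hw => h w hw).div_const _
  exact (tendsto_finsetSum _ fun w hw =>
    ((Filter.Tendsto.sub (h w hw) h1).norm.pow 2)).div_const _

lemma point_MinkS {ι : Type} (q : ℕ) {f : V → ℂ} {fs : ι → V → ℂ} {b : ι → ℝ} {B : ℝ}
    (hb : ∀ s, 0 < b s) (hs : Summable b) (hB : ∑' s, b s ≤ B)
    (h : ∀ w ∈ PQ q, HasSum (fun s => fs s w) (f w)) :
    ENNReal.ofReal (NV q f) ≤
      ENNReal.ofReal B * ∑' s, ENNReal.ofReal (1 / b s) * ENNReal.ofReal (NV q (fs s)) := by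
  refine le_of_tendsto' (ENNReal.tendsto_ofReal (tend_MinkS q h)) fun t => ?_
  refine (ENNReal.ofReal_le_ofReal (NV_sum_le q t fs fun j _ => hb j)).trans ?_
  rw [ENNReal.ofReal_mul (sum_nonneg fun j _ => (hb j).le),
    ENNReal.ofReal_sum_of_nonneg (f := fun j => NV q (fs j) / b j)
      fun j _ => div_nonneg (NV_nonneg _ _) (hb j).le]
  refine mul_le_mul' (ENNReal.ofReal_le_ofReal
    ((hs.sum_le_tsum t fun j _ => (hb j).le).trans hB))
    (le_trans (le_of_eq (sum_congr rfl fun j _ => ?_)) (ENNReal.sum_le_tsum t))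
  rw [← ENNReal.ofReal_mul (one_div_pos.2 (hb j)).le, one_div_mul_eq_div]

theorem minkS_stmt : MinkSStmt := by
  intro ι _ μ q f fs b B hf hb hs hB h
  simp only [LF, ← lintegral_const_mul' _ _ ENNReal.ofReal_ne_top]
  rw [← lintegral_tsum fun s =>
      ((measurable_NV q (hf s)).ennreal_ofReal.const_mul _).aemeasurable,
    ← lintegral_const_mul' _ _ ENNReal.ofReal_ne_top]
  exact lintegral_mono fun x => point_MinkS q hb hs hB (h x)

end Pool.Agent.MP_c853c5_nt.W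

end

section

set_option autoImplicit false

open Finset MeasureTheory
open scoped ENNReal ComplexConjugate

namespace Pool.Agent.MP_c853c5_nt.W

open Pool.Agent.MP_2a1f0e_nt Pool.Agent.MP_2a1f0e_nt.GM Pool.Agent.MP_2a1f0e_nt.DH

lemma coord_Orb {G : Pr} (h : hh G = 1) (u : V) : vg (om2 u G.2, om2 G.1 u) G = u := by
  simp only [hh, om2] at h
  refine Prod.ext ?_ ?_
  · simp only [vg, om2]; linear_combination u.1 * h
  · simp only [vg, om2]; linear_combination u.2 * h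

lemma vg_inj_Orb {G : Pr} (h : hh G = 1) {u v : V} (e : vg u G = vg v G) : u = v := by
  have e1 := congrArg Prod.fst e
  have e2 := congrArg Prod.snd e
  simp only [hh, om2, vg] at h e1 e2
  refine Prod.ext ?_ ?_
  · linear_combination G.2.2 * e1 - G.2.1 * e2 - (u.1 - v.1) * h
  · linear_combination G.1.1 * e2 - G.1.2 * e1 - (u.2 - v.2) * h

lemma vg_base_Orb (G : Pr) : vg (0, 1) G = G.2 := by simp [vg]

lemma shift_Orb {a b u : V} (ha : om2 a u = 1) (hb : om2 b u = 1) :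
    ∃ k : ℤ, b = (a.1 + k * u.1, a.2 + k * u.2) := by
  refine ⟨om2 a b, ?_⟩
  have := coord_Orb (G := (a, u)) ha b
  rw [hb] at this
  conv_lhs => rw [← this]
  simp only [vg, one_mul]

lemma om2_shift_Orb (a u v : V) (k : ℤ) :
    om2 (a.1 + k * u.1, a.2 + k * u.2) v = om2 a v + k * om2 u v := by
  simp only [om2]; ring

lemma tt_shift_Orb (a u : V) (k : ℤ) {x : MM} (h : (vx u x).1 ≠ 0) :
    tt ((a.1 + k * u.1, a.2 + k * u.2), u) x = tt (a, u) x + k := by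
  simp only [tt]
  rw [div_add' _ _ _ h]
  congr 1
  simp only [vx]
  push_cast
  ring

theorem orb_stmt : OrbStmt := by
  rintro ⟨⟨u, u'⟩, v, v'⟩ hp h0
  refine existsUnique_of_exists_of_unique ?_ ?_
  · obtain ⟨a, ha⟩ := prim_iff_exists.1 hp
    change om2 a u' = 1 at ha
    change om2 u u' ≠ 0 at h0
    obtain ⟨b, hb, hd⟩ : ∃ b : V, om2 b u' = 1 ∧ om2 b u = om2 a u % om2 u u' := by
      refine ⟨(a.1 + om2 a u / om2 u u' * u'.1, a.2 + om2 a u / om2 u u' * u'.2), ?_, ?_⟩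
      · rw [om2_shift_Orb, om2_self, ha, mul_zero, add_zero]
      · rw [om2_shift_Orb, om2_swap u' u, Int.emod_def]; ring
    have hG : hh (b, u') = 1 := hb
    refine ⟨((((om2 u u', om2 b u), (0, 1)), ((om2 v u', om2 b v), (om2 v' u', om2 b v'))),
      (b, u')), ⟨rfl, ?_, ?_⟩, hG, ?_⟩
    · change 0 ≤ om2 b u
      rw [hd]
      exact Int.emod_nonneg _ h0
    · change om2 b u < |om2 u u'|
      rw [hd]
      exact Int.emod_lt_abs _ h0
    · exact Prod.ext (Prod.ext (coord_Orb hG u).symm (vg_base_Orb (b, u')).symm)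
        (Prod.ext (coord_Orb hG v).symm (coord_Orb hG v').symm)
  · rintro ⟨⟨⟨⟨h₁, d₁⟩, e₁⟩, Q₁⟩, a₁, b₁⟩ ⟨⟨⟨⟨h₂, d₂⟩, e₂⟩, Q₂⟩, a₂, b₂⟩
      ⟨⟨he₁, l₁, r₁⟩, hG₁, z₁⟩ ⟨⟨he₂, l₂, r₂⟩, hG₂, z₂⟩
    simp only at he₁ he₂ l₁ l₂ r₁ r₂ hG₁ hG₂
    subst he₁ he₂
    have z := z₁.symm.trans z₂
    simp only [pg, Prod.mk.injEq, vg_base_Orb] at z
    obtain ⟨⟨y1, rfl⟩, y2, y3⟩ := z
    obtain ⟨k, rfl⟩ := shift_Orb (a := a₁) (b := a₂) (u := b₁) hG₁ hG₂
    have y4 : vg (h₁, d₁) (a₁, b₁) = vg (h₂, d₂ + k * h₂) (a₁, b₁) := by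
      rw [y1]
      simp only [vg, Prod.mk.injEq]
      constructor <;> ring
    obtain ⟨rfl, rfl⟩ := Prod.mk.inj (vg_inj_Orb hG₁ y4)
    have hk : k = 0 := by
      have h5 : |k * h₁| < |h₁| := abs_lt.2 ⟨by linarith, by linarith⟩
      rw [abs_mul] at h5
      have h6 : |k| < 1 := by
        by_contra hc
        nlinarith [not_lt.1 hc, abs_nonneg h₁]
      exact Int.abs_lt_one_iff.1 h6
    subst hk
    simp only [zero_mul, add_zero] at y2 y3 ⊢
    rw [Prod.ext (vg_inj_Orb hG₁ y2) (vg_inj_Orb hG₁ y3)]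

theorem anch_stmt : AnchStmt := by
  rintro x ⟨u, u'⟩ hp h0
  change (vx u' x).1 ≠ 0 at h0
  refine existsUnique_of_exists_of_unique ?_ ?_
  · obtain ⟨a, ha⟩ := prim_iff_exists.1 hp
    change om2 a u' = 1 at ha
    obtain ⟨b, hb, hd⟩ : ∃ b : V, om2 b u' = 1 ∧ tt (b, u') x = Int.fract (tt (a, u') x) := by
      refine ⟨(a.1 + (-⌊tt (a, u') x⌋) * u'.1, a.2 + (-⌊tt (a, u') x⌋) * u'.2), ?_, ?_⟩
      · rw [om2_shift_Orb, om2_self, ha, mul_zero, add_zero]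
      · rw [tt_shift_Orb _ _ _ h0, Int.fract, Int.cast_neg, sub_eq_add_neg]
    have hG : hh (b, u') = 1 := hb
    refine ⟨((b, u'), (om2 u u', om2 b u)), ⟨hG, ?_, ?_⟩, Prod.ext (coord_Orb hG u).symm rfl⟩
    · change 0 ≤ tt (b, u') x
      rw [hd]
      exact Int.fract_nonneg _
    · change tt (b, u') x < 1
      rw [hd]
      exact Int.fract_lt_one _
  · rintro ⟨⟨a₁, b₁⟩, w₁⟩ ⟨⟨a₂, b₂⟩, w₂⟩ ⟨⟨hG₁, l₁, r₁⟩, z₁⟩ ⟨⟨hG₂, l₂, r₂⟩, z₂⟩
    simp only [Prod.mk.injEq] at hG₁ hG₂ l₁ l₂ r₁ r₂ z₁ z₂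
    obtain ⟨y1, rfl⟩ := z₁
    obtain ⟨y2, rfl⟩ := z₂
    obtain ⟨k, rfl⟩ := shift_Orb (a := a₁) (b := a₂) (u := u') hG₁ hG₂
    rw [tt_shift_Orb _ _ _ h0] at l₂ r₂
    have hk : k = 0 := by
      have h5 : |(k : ℝ)| < 1 := abs_lt.2 ⟨by linarith, by linarith⟩
      exact Int.abs_lt_one_iff.1 (by exact_mod_cast h5)
    subst hk
    simp only [zero_mul, add_zero] at y2 ⊢
    rw [vg_inj_Orb hG₁ (y1.symm.trans y2)]

end Pool.Agent.MP_c853c5_nt.W

end

section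

/-!
Orbital sums as integrals of the pairing of two fields.
-/

set_option autoImplicit false

open Finset MeasureTheory
open scoped ENNReal ComplexConjugate

namespace Pool.Agent.MP_c853c5_nt.W

open Pool.Agent.MP_2a1f0e_nt Pool.Agent.MP_2a1f0e_nt.GM Pool.Agent.MP_2a1f0e_nt.DH

lemma meas_Os {μ : Measure MM} {pt : Pr → V} {S : Pr → MM → Prop} (h : Shp μ pt S) :
    Measurable fun x => (∑' P : Pr, iE (S P x)) ^ 2 :=
  (Measurable.tsum fun P => measurable_iE (h.meas P)).pow_const 2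

lemma vol_Os (hU : UnfStmt) {μ : Measure MM} (hμ : UM μ) {pt₁ pt₂ : Pr → V}
    {S₁ S₂ : Pr → MM → Prop} (h₁ : Shp μ pt₁ S₁) (h₂ : Shp μ pt₂ S₂) :
    ∑' z : Orb, vol S₁ S₂ z.1 ≠ ⊤ := by
  have hm : ∀ z : Pr × Pr, MeasurableSet {x | S₁ z.1 x ∧ S₂ z.2 x} := fun z =>
    (h₁.meas z.1).inter (h₂.meas z.2)
  have e := hU μ hμ (fun z x => iE (S₁ z.1 x ∧ S₂ z.2 x)) (fun z => measurable_iE (hm z))
    (fun z G x hG => iE_congr (and_congr (h₁.inv _ G x hG) (h₂.inv _ G x hG))) fun z x hz => by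
      obtain ⟨a, b, c, -⟩ := h₁.sup _ x (iE_ne_zero hz).1
      exact ⟨a, b, c⟩
  have e2 : ∑' z : Orb, vol S₁ S₂ z.1 = ∑' z : Orb, ∫⁻ x, iE (S₁ z.1.1 x ∧ S₂ z.1.2 x) :=
    tsum_congr fun z => (lintegral_iE _ (hm z.1)).symm
  rw [e2, ← e]
  refine ne_top_of_le_ne_top (ENNReal.add_ne_top.2 ⟨h₁.fin, h₂.fin⟩) ?_
  rw [LL, LL, ← lintegral_add_left (meas_Os h₁)]
  refine lintegral_mono fun x => ?_
  have e3 : ∑' z : Pr × Pr, iE (S₁ z.1 x ∧ S₂ z.2 x) =
      (∑' P : Pr, iE (S₁ P x)) * ∑' P : Pr, iE (S₂ P x) := by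
    rw [ENNReal.tsum_prod', ← ENNReal.tsum_mul_right]
    exact tsum_congr fun P => by simp only [iE_and, ENNReal.tsum_mul_left]
  simp only [e3, sq]
  rcases le_total (∑' P : Pr, iE (S₁ P x)) (∑' P : Pr, iE (S₂ P x)) with h | h
  · exact (mul_le_mul_left h _).trans le_add_self
  · exact (mul_le_mul_right h _).trans le_self_add

lemma sum_Os {μ : Measure MM} {pt : Pr → V} {S : Pr → MM → Prop} (h : Shp μ pt S) {Ψ : Pk}
    (hΨ : Pac S Ψ) : ∀ᵐ x ∂μ, Summable fun P => ‖Ψ P x‖ := by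
  filter_upwards [ae_lt_top (meas_Os h) h.fin] with x hx
  refine tsum_enorm_ne_top_iff_summable_norm.1 (ne_top_of_le_ne_top
    (fun e => ?_) (ENNReal.tsum_le_tsum fun P => enorm_le_iE (hΨ.bd P x) (hΨ.sp P x)))
  rw [e] at hx
  simp at hx

lemma int_Os (hU : UnfStmt) (hC : UnfCStmt) (hG : GrsStmt) {μ : Measure MM} (hμ : UM μ)
    {pt₁ pt₂ : Pr → V} {S₁ S₂ : Pr → MM → Prop} (h₁ : Shp μ pt₁ S₁) (h₂ : Shp μ pt₂ S₂) {q : ℕ}
    {Ψ₁ Ψ₂ : Pk} (hq : 1 ≤ q) (p₁ : Pac S₁ Ψ₁) (p₂ : Pac S₂ Ψ₂) :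
    Integrable (fun x => BV q (vf q pt₁ Ψ₁ x) (vf q pt₂ Ψ₂ x)) μ ∧
      OS (dl q) pt₁ pt₂ Ψ₁ Ψ₂ = ∫ x, BV q (vf q pt₁ Ψ₁ x) (vf q pt₂ Ψ₂ x) ∂μ := by
  have hs : ∀ (z : Pr × Pr) x, dl q (om2 (pt₁ z.1) (pt₂ z.2)) * (Ψ₁ z.1 x * conj (Ψ₂ z.2 x)) ≠ 0 →
      S₁ z.1 x ∧ S₂ z.2 x := fun z x hz =>
    ⟨p₁.sp _ x (left_ne_zero_of_mul (right_ne_zero_of_mul hz)), p₂.sp _ x fun e =>
      right_ne_zero_of_mul (right_ne_zero_of_mul hz) (by rw [e, map_zero])⟩
  obtain ⟨i1, i2⟩ := hC μ hμ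
    (fun z x => dl q (om2 (pt₁ z.1) (pt₂ z.2)) * (Ψ₁ z.1 x * conj (Ψ₂ z.2 x)))
    (fun z => ((p₁.meas z.1).mul
      (Complex.continuous_conj.measurable.comp (p₂.meas z.2))).const_mul _)
    (fun z G x hG => by
      simp only [h₁.eqv, h₂.eqv, om2_vg, hG, mul_one, p₁.inv _ G x hG, p₂.inv _ G x hG])
    (fun z x hz => by
      obtain ⟨a, b, c, -⟩ := h₁.sup _ x (hs z x hz).1
      exact ⟨a, b, c⟩)
    (ne_top_of_le_ne_top (vol_Os hU hμ h₁ h₂) (ENNReal.tsum_le_tsum fun z => by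
      refine (lintegral_mono fun x => enorm_le_iE ?_ (hs z.1 x)).trans
        (lintegral_iE _ ((h₁.meas z.1.1).inter (h₂.meas z.1.2))).le
      rw [norm_mul, norm_mul, Complex.norm_conj]
      exact mul_le_one₀ (norm_dl_le hq _) (by positivity)
        (mul_le_one₀ (p₁.bd _ x) (norm_nonneg _) (p₂.bd _ x))))
  have e : (fun x => ∑' z : Pr × Pr,
      dl q (om2 (pt₁ z.1) (pt₂ z.2)) * (Ψ₁ z.1 x * conj (Ψ₂ z.2 x))) =ᵐ[μ]
      fun x => BV q (vf q pt₁ Ψ₁ x) (vf q pt₂ Ψ₂ x) := by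
    filter_upwards [sum_Os h₁ p₁, sum_Os h₂ p₂] with x a b
    exact (hG q hq pt₁ pt₂ (fun P => Ψ₁ P x) (fun P => Ψ₂ P x) a b
      (fun P hP => (h₁.sup P x (p₁.sp P x hP)).2.2.2)
      fun P hP => (h₂.sup P x (p₂.sp P x hP)).2.2.2).symm
  refine ⟨i1.congr e, ?_⟩
  rw [← integral_congr_ae e, i2, OS]
  exact tsum_congr fun z => (integral_const_mul _ _).symm

theorem os_stmt (hU : UnfStmt) (hC : UnfCStmt) (hG : GrsStmt) : OsStmt := by
  intro μ hμ pt₁ pt₂ S₁ S₂ h₁ h₂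
  refine ⟨vol_Os hU hμ h₁ h₂, fun q Ψ₁ Ψ₂ hq p₁ p₂ => ?_⟩
  obtain ⟨i1, i2⟩ := int_Os hU hC hG hμ h₁ h₂ hq p₁ p₂
  rw [i2]
  refine ⟨fun κ hκ => (enorm_integral_le_lintegral_enorm _).trans ?_, ?_⟩
  · have m1 := (measurable_NV q (MF_vf q pt₁ p₁.meas)).ennreal_ofReal
    have m2 := (measurable_NV q (MF_vf q pt₂ p₂.meas)).ennreal_ofReal
    rw [LN, LN, LF, LF, ← lintegral_const_mul _ m1, ← lintegral_const_mul _ m2,
      ← lintegral_add_left (m1.const_mul _)]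
    refine lintegral_mono fun x => ?_
    have hκ' : 0 ≤ κ⁻¹ := (inv_pos.2 hκ).le
    rw [← ENNReal.ofReal_mul hκ.le, ← ENNReal.ofReal_mul hκ', ← ENNReal.ofReal_add
      (mul_nonneg hκ.le (NV_nonneg _ _)) (mul_nonneg hκ' (NV_nonneg _ _)), ← ofReal_norm]
    exact ENNReal.ofReal_le_ofReal (norm_BV_le q _ _ hκ)
  · rintro rfl rfl
    simp only [BV_self] at i1 ⊢
    rw [integral_complex_ofReal, Complex.ofReal_re]
    refine ⟨integral_nonneg fun x => NV_nonneg _ _, ?_⟩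
    rw [ofReal_integral_eq_lintegral_ofReal (by simpa using i1.re)
      (Filter.Eventually.of_forall fun x => NV_nonneg _ _), LN, LF]

end Pool.Agent.MP_c853c5_nt.W

end

section

/-!
Smooth decomposition of the dual packet.
-/

set_option autoImplicit false

open Finset MeasureTheory
open scoped ENNReal ComplexConjugate

namespace Pool.Agent.MP_c853c5_nt.W

open Pool.Agent.MP_2a1f0e_nt Pool.Agent.MP_2a1f0e_nt.GM Pool.Agent.MP_2a1f0e_nt.DH

lemma fin_Part {c : ℝ} (hc : 0 < c) (t : ℝ) : ∃ S : Finset (Bool × ℕ),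
    (∀ s, s ∉ S → om (t / Ts c s) = 0) ∧ ∑ s ∈ S, om (t / Ts c s) = 1 - psi (|t| / c) := by
  obtain ⟨I, hI⟩ := pow_unbounded_of_one_lt (|t| / c) (show (1 : ℝ) < 4 / 3 by norm_num)
  rw [div_lt_iff₀ hc, mul_comm] at hI
  have h1 : ∀ (z : ℝ) (i : ℕ), z ≤ |t| → I ≤ i → z / (c * (4 / 3) ^ i) ≤ 1 := by
    intro z i hz hi
    rw [div_le_one (by positivity)]
    exact (hz.trans hI.le).trans
      (mul_le_mul_of_nonneg_left (pow_le_pow_right₀ (by norm_num) hi) hc.le)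
  have e1 : ∀ i : ℕ, t / Ts c (true, i) = t / (c * (4 / 3) ^ i) := fun i => by simp [Ts]
  have e2 : ∀ i : ℕ, t / Ts c (false, i) = -t / (c * (4 / 3) ^ i) := fun i => by
    simp [Ts, div_neg, neg_div]
  refine ⟨univ ×ˢ range I, ?_, ?_⟩
  · rintro ⟨b, i⟩ hs
    have hi : I ≤ i := by simpa using hs
    refine om_eq_zero (Or.inl ?_)
    cases b
    · rw [e2]
      exact h1 _ _ (neg_le_abs t) hi
    · rw [e1]
      exact h1 _ _ (le_abs_self t) hi
  · rw [sum_product, Fintype.sum_bool]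
    simp only [e1, e2]
    rw [om_tel, om_tel, psi_eq_one (h1 _ _ (le_abs_self t) le_rfl),
      psi_eq_one (h1 _ _ (neg_le_abs t) le_rfl)]
    rcases le_total 0 t with h | h
    · rw [abs_of_nonneg h, psi_eq_one (x := -t / c)
        ((div_nonpos_of_nonpos_of_nonneg (by linarith) hc.le).trans zero_le_one)]
      ring
    · rw [abs_of_nonpos h, psi_eq_one (x := t / c)
        ((div_nonpos_of_nonpos_of_nonneg h hc.le).trans zero_le_one)]
      ring

lemma int_Part {h : ℤ} (hh : h ≠ 0) : HasSum (fun s : Bool × ℕ => om (h / Ts (4 / 5) s)) 1 := by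
  obtain ⟨S, h1, h2⟩ := fin_Part (show (0 : ℝ) < 4 / 5 by norm_num) h
  have : (1 : ℝ) ≤ |(h : ℝ)| := by exact_mod_cast Int.one_le_abs hh
  rw [psi_eq_zero (by rw [le_div_iff₀ (by norm_num)]; linarith), sub_zero] at h2
  rw [← h2]
  exact hasSum_sum_of_ne_finset_zero h1

/-- the second factor of the weights -/
noncomputable def wo_Part (c t : ℝ) (o : Option (Bool × ℕ)) : ℝ :=
  o.elim (psi (|t| / c)) fun s => om (t / Ts c s)

lemma wo_nonneg_Part (c t : ℝ) (o : Option (Bool × ℕ)) : 0 ≤ wo_Part c t o := by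
  cases o
  · exact psi_nonneg _
  · exact om_nonneg _

lemma opt_Part {c : ℝ} (hc : 0 < c) (t : ℝ) : HasSum (wo_Part c t) 1 := by
  obtain ⟨S, h1, h2⟩ := fin_Part hc t
  have e : ∑ o ∈ insertNone S, wo_Part c t o = 1 := by
    rw [sum_insertNone]
    change psi (|t| / c) + ∑ s ∈ S, om (t / Ts c s) = 1
    rw [h2]
    ring
  rw [← e]
  refine hasSum_sum_of_ne_finset_zero fun o ho => ?_
  cases o with
  | none => exact absurd none_mem_insertNone ho
  | some s => exact h1 s fun hs => ho (some_mem_insertNone.2 hs)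

lemma swap_Part {ι κ : Type} (f : κ → ℂ) (w : ι → κ → ℝ) (hf : Summable fun P => ‖f P‖)
    (hw0 : ∀ s P, 0 ≤ w s P) (hw : ∀ P, f P ≠ 0 → HasSum (fun s => w s P) 1) :
    HasSum (fun s => ∑' P, f P * (w s P : ℂ)) (∑' P, f P) := by
  have a1 : ∀ P, HasSum (fun s => f P * (w s P : ℂ)) (f P) := by
    intro P
    by_cases h : f P = 0
    · simp [h]
    · have := (Complex.hasSum_ofReal.2 (hw P h)).mul_left (f P)
      rwa [Complex.ofReal_one, mul_one] at this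
  have a2 : ∀ P, HasSum (fun s => ‖f P * (w s P : ℂ)‖) ‖f P‖ := by
    intro P
    by_cases h : f P = 0
    · simp [h]
    · have := (hw P h).mul_left ‖f P‖
      simpa only [mul_one, norm_mul, Complex.norm_real, Real.norm_of_nonneg (hw0 _ _)] using this
  have a3 : Summable fun p : κ × ι => f p.1 * (w p.2 p.1 : ℂ) := by
    refine Summable.of_norm ((summable_prod_of_nonneg fun _ => norm_nonneg _).2 ⟨fun P => ?_, ?_⟩)
    · exact (a2 P).summable
    · exact hf.congr fun P => (a2 P).tsum_eq.symm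
  have a4 := a3.hasSum.prod_fiberwise a1
  rw [a4.tsum_eq]
  have a5 : HasSum (fun p : ι × κ => f p.2 * (w p.1 p.2 : ℂ))
      (∑' p : κ × ι, f p.1 * (w p.2 p.1 : ℂ)) :=
    (Equiv.prodComm κ ι).hasSum_iff.1 a3.hasSum
  exact a5.prod_fiberwise fun s => (a5.summable.prod_factor s).hasSum

theorem part_stmt : PartStmt := by
  intro d q T₀ x w hT hs
  have key := swap_Part (ι := Ix) (fun P => pd d q P x * ind q (om2 w P.1))
    (fun s P => om ((hh P : ℝ) / Ts (4 / 5) s.1) * wo_Part T₀ (tt P x) s.2)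
    (hs.of_nonneg_of_le (fun _ => norm_nonneg _) fun P => by
      rw [norm_mul]
      exact mul_le_of_le_one_right (norm_nonneg _) (norm_iC_le _))
    (fun s P => mul_nonneg (om_nonneg _) (wo_nonneg_Part _ _ _))
    (fun P hP => by
      have h0 : hh P ≠ 0 := fun h => hP (by
        simp only [pd]
        rw [iC_neg fun h' => h'.2 h]
        simp)
      have := (int_Part h0).mul (opt_Part hT (tt P x)) ((int_Part h0).summable.mul_of_nonneg
        (opt_Part hT (tt P x)).summable (fun _ => om_nonneg _) (wo_nonneg_Part _ _))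
      rwa [mul_one] at this)
  have e : (fun s : Ix => vf q Prod.fst (pcs d q T₀ s) x w) = fun s : Ix => ∑' P : Pr,
      pd d q P x * ind q (om2 w P.1) *
        ((om ((hh P : ℝ) / Ts (4 / 5) s.1) * wo_Part T₀ (tt P x) s.2 : ℝ) : ℂ) := by
    funext s
    obtain ⟨s, o⟩ := s
    refine tsum_congr fun P => ?_
    cases o
    · exact mul_right_comm _ _ _
    · exact mul_right_comm _ _ _
  rw [e]
  exact key

end Pool.Agent.MP_c853c5_nt.W

end

section

set_option autoImplicit false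

open Finset MeasureTheory
open scoped ENNReal ComplexConjugate

namespace Pool.Agent.MP_c853c5_nt.W

open Pool.Agent.MP_2a1f0e_nt Pool.Agent.MP_2a1f0e_nt.GM Pool.Agent.MP_2a1f0e_nt.DH

/-- reduction of both coordinates -/
def red_Pb (q : ℕ) (w : V) : V := (w.1 % q, w.2 % q)

lemma red_mem_Pb {g q : ℕ} (hq : 1 ≤ q) {w : V} (hw : w ∈ PQ (g * q)) : red_Pb q w ∈ PQ q := by
  have hq0 : (0 : ℤ) < q := by exact_mod_cast hq
  refine mem_PQ.2 ⟨⟨Int.emod_nonneg _ hq0.ne', Int.emod_lt_of_pos _ hq0⟩,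
    ⟨Int.emod_nonneg _ hq0.ne', Int.emod_lt_of_pos _ hq0⟩, ?_⟩
  refine Nat.coprime_of_dvd fun p hp h1 h2 => ?_
  have h3 : (p : ℤ) ∣ q := Int.natCast_dvd_natCast.2 h2
  have h4 : (p : ℤ) ∣ ct (red_Pb q w) := Int.natCast_dvd_natCast.2 h1
  have hk : ∀ a : ℤ, (p : ℤ) ∣ a % q → (p : ℤ) ∣ a := fun a ha => by
    rw [← Int.emod_add_mul_ediv a q]
    exact ha.add (h3.mul_right _)
  have h5 : (p : ℤ) ∣ w.1 := hk _ (h4.trans (ct_dvd_one _))
  have h6 : (p : ℤ) ∣ w.2 := hk _ (h4.trans (ct_dvd_two _))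
  have h7 : p ∣ ct w := Int.dvd_gcd h5 h6
  have h8 := Nat.dvd_gcd h7 (h2.mul_left g)
  rw [(mem_PQ.1 hw).2.2] at h8
  exact hp.one_lt.ne' (Nat.dvd_one.1 h8)

lemma card_fib_Pb {g q : ℕ} (hq : 1 ≤ q) (v : V) :
    ((PQ (g * q)).filter fun w => red_Pb q w = v).card ≤ g ^ 2 := by
  have hq0 : (0 : ℤ) < q := by exact_mod_cast hq
  have hd : ∀ a : ℤ, 0 ≤ a → a < (g * q : ℕ) → a / q ∈ Ico (0 : ℤ) g := fun a h0 h1 =>
    mem_Ico.2 ⟨Int.ediv_nonneg h0 hq0.le, Int.ediv_lt_of_lt_mul hq0 (by exact_mod_cast h1)⟩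
  refine (card_le_card_of_injOn (t := Ico (0 : ℤ) g ×ˢ Ico (0 : ℤ) g)
    (fun w => (w.1 / q, w.2 / q)) (fun w hw => ?_) fun w hw w' hw' e => ?_).trans ?_
  · obtain ⟨h1, h2, -⟩ := mem_PQ.1 (mem_filter.1 (mem_coe.1 hw)).1
    exact mem_coe.2 (mem_product.2 ⟨hd _ h1.1 h1.2, hd _ h2.1 h2.2⟩)
  · have e2 : red_Pb q w = red_Pb q w' :=
      (mem_filter.1 (mem_coe.1 hw)).2.trans (mem_filter.1 (mem_coe.1 hw')).2.symm
    have a1 : w.1 % q = w'.1 % q := congrArg Prod.fst e2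
    have a2 : w.2 % q = w'.2 % q := congrArg Prod.snd e2
    have b1 : w.1 / q = w'.1 / q := congrArg Prod.fst e
    have b2 : w.2 / q = w'.2 / q := congrArg Prod.snd e
    refine Prod.ext ?_ ?_
    · rw [← Int.emod_add_mul_ediv w.1 q, a1, b1, Int.emod_add_mul_ediv]
    · rw [← Int.emod_add_mul_ediv w.2 q, a2, b2, Int.emod_add_mul_ediv]
  · simp [sq]

lemma le_tau_phi_Pb {g : ℕ} (hg : 1 ≤ g) : g ≤ g.divisors.card * g.totient := by
  calc g = ∑ e ∈ g.divisors, e.totient := (Nat.sum_totient g).symm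
    _ ≤ g.divisors.card • g.totient := sum_le_card_nsmul _ _ _ fun e he =>
        Nat.le_of_dvd (Nat.totient_pos.2 hg) (Nat.totient_dvd_of_dvd (Nat.dvd_of_mem_divisors he))
    _ = _ := smul_eq_mul _ _

theorem pb_stmt : PbStmt := by
  intro g q f c hg hq hf
  have h1 : ∑ w ∈ PQ (g * q), ‖f w - c‖ ^ 2 ≤ (g : ℝ) ^ 2 * ∑ w ∈ PQ q, ‖f w - c‖ ^ 2 := by
    rw [← sum_fiberwise_of_maps_to (fun w hw => red_mem_Pb hq hw), mul_sum]
    refine sum_le_sum fun v _ => ?_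
    refine (sum_le_card_nsmul _ _ (‖f v - c‖ ^ 2) fun w hw => le_of_eq ?_).trans ?_
    · rw [← (mem_filter.1 hw).2, hf w (red_Pb q w) (Int.dvd_self_sub_emod) (Int.dvd_self_sub_emod)]
    · rw [nsmul_eq_mul]
      exact mul_le_mul_of_nonneg_right (by exact_mod_cast card_fib_Pb hq v) (sq_nonneg _)
  have h2 : (g.totient : ℝ) * q.totient ≤ (g * q).totient := by
    exact_mod_cast Nat.totient_super_multiplicative g q
  have h3 : (g : ℝ) ≤ g.divisors.card * g.totient := by exact_mod_cast le_tau_phi_Pb hg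
  have p1 : (0 : ℝ) < g.totient := by exact_mod_cast Nat.totient_pos.2 hg
  have p2 : (0 : ℝ) < q.totient := by exact_mod_cast Nat.totient_pos.2 hq
  have p3 : 0 ≤ ∑ w ∈ PQ q, ‖f w - c‖ ^ 2 := by positivity
  unfold NC
  calc (∑ w ∈ PQ (g * q), ‖f w - c‖ ^ 2) / ((g * q).totient : ℝ)
      ≤ (g : ℝ) ^ 2 * (∑ w ∈ PQ q, ‖f w - c‖ ^ 2) / (g.totient * q.totient) := by gcongr
    _ = g * g * (∑ w ∈ PQ q, ‖f w - c‖ ^ 2) / (g.totient * q.totient) := by rw [sq]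
    _ ≤ g * (g.divisors.card * g.totient) * (∑ w ∈ PQ q, ‖f w - c‖ ^ 2) /
        (g.totient * q.totient) := by gcongr
    _ = _ := by field_simp

end Pool.Agent.MP_c853c5_nt.W

end

section

set_option autoImplicit false
open Finset MeasureTheory
open scoped ENNReal ComplexConjugate
namespace Pool.Agent.MP_c853c5_nt.W
open Pool.Agent.MP_2a1f0e_nt Pool.Agent.MP_2a1f0e_nt.GM Pool.Agent.MP_2a1f0e_nt.DH

lemma lf_pull_Pdl (hP : PbStmt) (μ : Measure MM) {g q' : ℕ} (hg : 1 ≤ g) (hq : 1 ≤ q')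
    (f : Fld) (hf : ∀ x, Per q' (f x)) :
    LF μ (g * q') f ≤ ENNReal.ofReal (g * (g.divisors.card : ℝ)) * LF μ q' f := by
  rw [LF, LF, ← lintegral_const_mul' _ _ ENNReal.ofReal_ne_top]
  refine lintegral_mono fun x => ?_
  rw [← ENNReal.ofReal_mul (by positivity)]
  exact ENNReal.ofReal_le_ofReal ((NV_le_NC _ _ _).trans (hP g q' (f x) _ hg hq (hf x)))

lemma fiber_Pdl {Q m : ℕ} (hQ : 1 ≤ Q) (hm : 1 ≤ m) (F : ℕ → ℕ → ℝ≥0∞) :
    ∑ q ∈ Ico Q (2 * Q), F (Nat.gcd m q) (q / Nat.gcd m q) ≤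
      ∑ g ∈ m.divisors, ∑ q' ∈ Ico (cq Q g) (2 * cq Q g), F g q' := by
  classical
  have hi : Set.InjOn (fun q => (⟨Nat.gcd m q, q / Nat.gcd m q⟩ : Σ _ : ℕ, ℕ))
      (Ico Q (2 * Q) : Finset ℕ) := by
    intro a _ b _ h
    simp only [Sigma.mk.injEq, heq_eq_eq] at h
    rw [← Nat.mul_div_cancel' (Nat.gcd_dvd_right m a), h.2, h.1,
      Nat.mul_div_cancel' (Nat.gcd_dvd_right m b)]
  rw [sum_sigma', ← sum_image (f := fun p : Σ _ : ℕ, ℕ => F p.1 p.2) hi]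
  refine sum_le_sum_of_subset fun p hp => ?_
  obtain ⟨q, hq, rfl⟩ := mem_image.1 hp
  have hg : 1 ≤ Nat.gcd m q := Nat.gcd_pos_of_pos_left _ hm
  obtain ⟨-, -, h3, h4⟩ := cq_facts hQ hg
  have he := Nat.mul_div_cancel' (Nat.gcd_dvd_right m q)
  obtain ⟨h1, h2⟩ := mem_Ico.1 hq
  refine mem_sigma.2 ⟨Nat.mem_divisors.2 ⟨Nat.gcd_dvd_left _ _, by omega⟩, mem_Ico.2 ⟨?_, ?_⟩⟩
  · show cq Q (Nat.gcd m q) ≤ q / Nat.gcd m q
    refine Nat.le_of_lt_succ (Nat.lt_of_mul_lt_mul_left (a := Nat.gcd m q) ?_)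
    rw [Nat.mul_succ]; omega
  · show q / Nat.gcd m q < 2 * cq Q (Nat.gcd m q)
    refine Nat.lt_of_mul_lt_mul_left (a := Nat.gcd m q) ?_
    rw [Nat.mul_left_comm]; omega

theorem pdl_stmt (hP : PbStmt) (hG : GcdStmt) : PdlStmt := by
  intro μ Q M X Δ Z f fm U S hQ hΔ hQX hMX hZ hf hfm hU
  have hΔ0 : 0 ≤ Δ := zero_le_one.trans hΔ.1
  have hH := harm_le hΔ hMX
  have h1 : ∀ q ∈ Ico Q (2 * Q), LF μ q (f q) ≤ ENNReal.ofReal (2 * Δ ^ 2) *
      ∑ m ∈ Icc 1 M, ENNReal.ofReal (m * Δ) *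
        (iE (S m (Nat.gcd m q)) * U m (q / Nat.gcd m q)) := by
    intro q hq
    obtain ⟨hq1, hq2⟩ := mem_Ico.1 hq
    have hq0 : 1 ≤ q := hQ.trans hq1
    refine (LF_sum_le μ q (Icc 1 M) (b := fun m => (Nat.gcd m q : ℝ) / m) ?_
      (fun m hm => (hfm q hq m hm).1) (hf q hq)).trans (mul_le_mul' ?_ (sum_le_sum ?_))
    · intro m hm
      have : 0 < m := (mem_Icc.1 hm).1
      have : 0 < Nat.gcd m q := Nat.gcd_pos_of_pos_left _ this
      positivity
    · refine ENNReal.ofReal_le_ofReal ((hG.1 q M hq0).trans ?_)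
      have := hΔ.2 q (by omega)
      calc _ ≤ Δ * (2 * Δ) := mul_le_mul this hH (by positivity) hΔ0
        _ = _ := by ring
    · intro m hm
      have hm0 : 0 < m := (mem_Icc.1 hm).1
      have hg : 0 < Nat.gcd m q := Nat.gcd_pos_of_pos_left _ hm0
      have he := Nat.mul_div_cancel' (Nat.gcd_dvd_right m q)
      have hq' : 1 ≤ q / Nat.gcd m q := Nat.div_pos (Nat.le_of_dvd hq0 (Nat.gcd_dvd_right m q)) hg
      have h2 := lf_pull_Pdl hP μ hg hq' (fm q m) (hfm q hq m hm).2.1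
      rw [he] at h2
      refine (mul_le_mul' le_rfl (h2.trans (mul_le_mul' le_rfl (hfm q hq m hm).2.2))).trans ?_
      rw [← mul_assoc, ← ENNReal.ofReal_mul (by positivity)]
      refine mul_le_mul' (ENNReal.ofReal_le_ofReal ?_) le_rfl
      have h3 := hΔ.2 (Nat.gcd m q)
        ((Nat.le_of_dvd hm0 (Nat.gcd_dvd_left m q)).trans ((mem_Icc.1 hm).2.trans hMX))
      have hg' : (0 : ℝ) < Nat.gcd m q := by exact_mod_cast hg
      have hm' : (0 : ℝ) < m := by exact_mod_cast hm0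
      calc _ = m * ((Nat.gcd m q).divisors.card : ℝ) := by field_simp
        _ ≤ _ := by gcongr
  have h2 : ∀ m ∈ Icc 1 M, ∑ q ∈ Ico Q (2 * Q), ENNReal.ofReal (m * Δ) *
      (iE (S m (Nat.gcd m q)) * U m (q / Nat.gcd m q)) ≤
      ENNReal.ofReal (Δ ^ 2 * Z * (1 / (m : ℝ))) := by
    intro m hm
    have hm0 : 0 < m := (mem_Icc.1 hm).1
    have hm' : (0 : ℝ) < m := by exact_mod_cast hm0
    rw [← mul_sum]
    have h3 := fiber_Pdl hQ hm0 fun g q' => iE (S m g) * U m q'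
    have h4 : ∑ g ∈ m.divisors, ∑ q' ∈ Ico (cq Q g) (2 * cq Q g), iE (S m g) * U m q' ≤
        ∑ _g ∈ m.divisors, ENNReal.ofReal (Z / (m : ℝ) ^ 2) := by
      refine sum_le_sum fun g hg => ?_
      rw [← mul_sum]
      by_cases hS : S m g
      · rw [iE_pos hS, one_mul]; exact hU m hm g (Nat.dvd_of_mem_divisors hg) hS
      · rw [iE_neg hS, zero_mul]; exact zero_le
    rw [← ENNReal.ofReal_sum_of_nonneg fun _ _ => by positivity, sum_const, nsmul_eq_mul] at h4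
    refine (mul_le_mul' le_rfl (h3.trans h4)).trans ?_
    rw [← ENNReal.ofReal_mul (by positivity)]
    refine ENNReal.ofReal_le_ofReal ?_
    have h5 := hΔ.2 m ((mem_Icc.1 hm).2.trans hMX)
    calc _ ≤ m * Δ * (Δ * (Z / (m : ℝ) ^ 2)) := by gcongr
      _ = _ := by field_simp
  refine (sum_le_sum h1).trans ?_
  rw [← mul_sum, sum_comm]
  refine (mul_le_mul' le_rfl (sum_le_sum h2)).trans ?_
  rw [← ENNReal.ofReal_sum_of_nonneg fun _ _ => by positivity, ← mul_sum,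
    ← ENNReal.ofReal_mul (by positivity)]
  refine ENNReal.ofReal_le_ofReal ?_
  calc _ ≤ 2 * Δ ^ 2 * (Δ ^ 2 * Z * (2 * Δ)) := by gcongr
    _ = _ := by ring

end Pool.Agent.MP_c853c5_nt.W

end

section

set_option autoImplicit false

open Finset MeasureTheory
open scoped ENNReal ComplexConjugate

namespace Pool.Agent.MP_c853c5_nt.W

open Pool.Agent.MP_2a1f0e_nt Pool.Agent.MP_2a1f0e_nt.GM Pool.Agent.MP_2a1f0e_nt.DH

lemma psiD_mul_Psm {m n : ℕ} (h : m.Coprime n) : psiD (m * n) = psiD m * psiD n := by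
  unfold psiD
  rw [h.primeFactors_mul, prod_union h.disjoint_primeFactors]
  push_cast
  ring

theorem psm_stmt : PsmStmt := by
  intro q hq
  have hq0 : q ≠ 0 := by omega
  let f : ArithmeticFunction ℝ := ⟨fun n => 1 / psiD n, by simp [psiD]⟩
  have hfa : ∀ n, f n = 1 / psiD n := fun _ => rfl
  have hf : f.IsMultiplicative := by
    refine ⟨by simp [hfa, psiD], fun {m n} h => ?_⟩
    rw [hfa, hfa, hfa, psiD_mul_Psm h, one_div_mul_one_div]
  have hp : ∀ p ∈ q.primeFactors, p.Prime := fun p hp => Nat.prime_of_mem_primeFactors hp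
  have hpf : (∏ p ∈ q.primeFactors, p).primeFactors = q.primeFactors := Nat.primeFactors_prod hp
  have hsq : Squarefree (∏ p ∈ q.primeFactors, p) := by
    refine Finset.squarefree_prod_of_pairwise_isCoprime (fun a ha b hb hab => ?_)
      fun p h => (hp p h).squarefree
    exact Nat.coprime_iff_isRelPrime.1 ((Nat.coprime_primes (hp a ha) (hp b hb)).2 hab)
  have h1 := hf.prodPrimeFactors_one_sub_of_squarefree f hsq
  rw [hpf] at h1
  have h2 : ∑ d ∈ (∏ p ∈ q.primeFactors, p).divisors, (ArithmeticFunction.moebius d : ℝ) * f d =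
      ∑ e ∈ q.divisors, (ArithmeticFunction.moebius e : ℝ) / psiD e := by
    rw [sum_congr rfl fun d _ => by rw [hfa, mul_one_div]]
    refine sum_subset (Nat.divisors_subset_of_dvd hq0 (Nat.prod_primeFactors_dvd q))
      fun e he hne => ?_
    have h3 : ¬ Squarefree e := fun hs => hne <| Nat.mem_divisors.2 ⟨by
      rw [← Nat.prod_primeFactors_of_squarefree hs]
      exact prod_dvd_prod_of_subset _ _ _
        (Nat.primeFactors_mono (Nat.dvd_of_mem_divisors he) hq0), hsq.ne_zero⟩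
    rw [ArithmeticFunction.moebius_eq_zero_of_not_squarefree h3, Int.cast_zero, zero_div]
  rw [← h2, ← h1, psiD, div_mul_cancel_left₀ (Nat.cast_ne_zero.2 hq0), ← prod_inv_distrib]
  refine prod_congr rfl fun p h => ?_
  have h4 : (0 : ℝ) < p := Nat.cast_pos.2 (hp p h).pos
  rw [hfa, psiD, (hp p h).primeFactors, prod_singleton]
  field_simp
  ring

end Pool.Agent.MP_c853c5_nt.W

end

section

/-!
The rough bound for the field of a packet.
-/

set_option autoImplicit false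

open Finset MeasureTheory
open scoped ENNReal ComplexConjugate

namespace Pool.Agent.MP_c853c5_nt.W

open Pool.Agent.MP_2a1f0e_nt Pool.Agent.MP_2a1f0e_nt.GM Pool.Agent.MP_2a1f0e_nt.DH

lemma gram_Rough (hG : GramStmt) {q : ℕ} (hq : 1 ≤ q) {y y' : V} (h : Prim y) (h' : Prim y') :
    ∑ w ∈ PQ q, iE ((q : ℤ) ∣ om2 w y) * iE ((q : ℤ) ∣ om2 w y') =
      iE ((q : ℤ) ∣ om2 y y') * (q.totient : ℝ≥0∞) := by
  obtain ⟨N, h1, h2⟩ : ∃ N : Prop → ℕ, (∀ p, iC p = N p) ∧ ∀ p, iE p = N p := by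
    classical
    exact ⟨fun p => if p then 1 else 0, fun p => by by_cases h : p <;> simp [iC, h],
      fun p => by by_cases h : p <;> simp [iE, h]⟩
  have k := hG q hq y y' (h.coprime q) (h'.coprime q)
  simp only [ind, h1] at k
  simp only [h2]
  rw [mul_comm]
  exact_mod_cast k

lemma point_Rough (hG : GramStmt) {q : ℕ} (hq : 1 ≤ q) {pt : Pr → V} {S : Pr → Prop}
    {a : Pr → ℂ} (h1 : ∀ P, ‖a P‖ ≤ 1) (h2 : ∀ P, a P ≠ 0 → S P) (h3 : ∀ P, S P → Prim (pt P)) :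
    ENNReal.ofReal (NC q (fun w => ∑' P : Pr, a P * ind q (om2 w (pt P))) 0) ≤
      ∑' z : Pr × Pr, iE ((q : ℤ) ∣ om2 (pt z.1) (pt z.2)) * iE (S z.1 ∧ S z.2) := by
  have k1 : ∀ w, ‖∑' P : Pr, a P * ind q (om2 w (pt P))‖ₑ ≤
      ∑' P : Pr, iE (S P) * iE ((q : ℤ) ∣ om2 w (pt P)) := fun w =>
    enorm_tsum_le_tsum_enorm.trans (ENNReal.tsum_le_tsum fun P => by
      rw [enorm_mul, ind, enorm_iC]
      exact mul_le_mul_left (enorm_le_iE (h1 P) (h2 P)) _)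
  have k2 : ∀ w, ENNReal.ofReal (‖(∑' P : Pr, a P * ind q (om2 w (pt P))) - 0‖ ^ 2) ≤
      ∑' z : Pr × Pr, iE (S z.1 ∧ S z.2) *
        (iE ((q : ℤ) ∣ om2 w (pt z.1)) * iE ((q : ℤ) ∣ om2 w (pt z.2))) := fun w => by
    rw [sub_zero, ENNReal.ofReal_pow (norm_nonneg _), ofReal_norm, sq]
    refine (mul_le_mul' (k1 w) (k1 w)).trans_eq ?_
    rw [ENNReal.tsum_prod' (α := Pr) (β := Pr), ← ENNReal.tsum_mul_right]
    refine tsum_congr fun P => ?_
    rw [← ENNReal.tsum_mul_left]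
    refine tsum_congr fun P' => ?_
    rw [iE_and]
    ring
  have k3 : (0 : ℝ) < q.totient := by exact_mod_cast Nat.totient_pos.2 hq
  rw [NC, ENNReal.ofReal_div_of_pos k3, ENNReal.ofReal_natCast,
    ENNReal.ofReal_sum_of_nonneg fun _ _ => by positivity]
  refine ENNReal.div_le_of_le_mul ((sum_le_sum fun w _ => k2 w).trans ?_)
  rw [← Summable.tsum_finsetSum fun _ _ => ENNReal.summable, ← ENNReal.tsum_mul_right]
  refine ENNReal.tsum_le_tsum fun z => ?_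
  rw [← mul_sum]
  by_cases c : S z.1 ∧ S z.2
  · rw [gram_Rough hG hq (h3 _ c.1) (h3 _ c.2)]
    exact le_of_eq (by ring)
  · rw [iE_neg c, zero_mul]
    exact zero_le

theorem rough_stmt (hU : UnfStmt) (hG : GramStmt) : RoughStmt := by
  intro μ hμ q pt S Ψ hq hS h1 h2
  have hm : ∀ z : Pr × Pr, MeasurableSet {x | S z.1 x ∧ S z.2 x} := fun z =>
    (hS.meas z.1).inter (hS.meas z.2)
  refine (lintegral_mono fun x => point_Rough hG hq (S := fun P => S P x) (fun P => h1 P x)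
    (fun P => h2 P x) fun P h => (hS.sup P x h).2.2.2).trans_eq ?_
  rw [hU μ hμ (fun z x => iE ((q : ℤ) ∣ om2 (pt z.1) (pt z.2)) * iE (S z.1 x ∧ S z.2 x))
    (fun z => (measurable_iE (hm z)).const_mul _)
    (fun z G x hG => by
      simp only [hS.eqv, om2_vg, hG, mul_one, hS.inv _ G x hG])
    fun z x h => by
      have := hS.sup _ x (iE_ne_zero (right_ne_zero_of_mul h)).1
      exact ⟨this.1, this.2.1, this.2.2.1⟩]
  refine tsum_congr fun z => ?_
  rw [lintegral_const_mul _ (measurable_iE (hm z.1)), lintegral_iE _ (hm z.1), vol]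

end Pool.Agent.MP_c853c5_nt.W

end

section

set_option autoImplicit false

open Finset MeasureTheory
open scoped ENNReal ComplexConjugate

namespace Pool.Agent.MP_c853c5_nt.W

open Pool.Agent.MP_2a1f0e_nt Pool.Agent.MP_2a1f0e_nt.GM Pool.Agent.MP_2a1f0e_nt.DH

lemma fin_Shp (hC : CrudeStmt) {μ : Measure MM} (hμ : UM μ) {α : ℝ} (hα : 0 < α) (H2 H : ℝ)
    {S : Pr → MM → Prop} (h : ∀ P x, S P x → SupA α H2 H P x) : LL μ S ≠ ⊤ := by
  obtain ⟨C, -, hC⟩ := hC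
  have h1 := abs_nonneg H2
  have h2 := abs_nonneg H
  refine ne_top_of_le_ne_top ENNReal.ofReal_ne_top (le_trans ?_
    (hC μ hμ (1 + α + |H2| + |H|) α H2 H (by
      unfold Bd
      refine ⟨?_, ?_, ?_, ?_, ?_⟩ <;> linarith)))
  exact lintegral_mono fun x => pow_le_pow_left' (ENNReal.tsum_le_tsum fun P => iE_mono (h P x)) 2

theorem shp_stmt (hR : RtStmt) (hC : CrudeStmt) : ShpStmt := by
  intro μ hμ α hα
  have d0 : ∀ {H2 H : ℝ} {P : Pr} {x : MM}, SupA α H2 H P x → dt x ≠ 0 := fun h =>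
    (one_pos.trans_le h.2.2.2.1).ne'
  refine ⟨fun H2 H => ⟨fun _ _ => rfl, fun P G x h => sup_inv α H2 H P x h,
      measurableSet_Sup α H2 H, fun P x h => ⟨h.2.1, h.2.2.1, d0 h.2, h.1⟩,
      fin_Shp hC hμ hα H2 H fun _ _ h => h.2⟩,
    fun H2 H m hm => ⟨fun _ _ => rfl, fun P G x h => ?_,
      fun P => (continuous_rm m).measurable (measurableSet_Sup α H2 H P),
      fun P x h => ⟨h.2.1, h.2.2.1, ?_, h.1⟩, ?_⟩,
    fun a b hab => ⟨vg_vg _, fun P G x h => supL_inv α P x h, measurableSet_SupL α,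
      fun P x h => ⟨h.2.1, h.2.2.1, d0 h.2, (prim_vg h.1 _).2 ?_⟩,
      fin_Shp hC hμ hα 1 1 fun _ _ h => h.2⟩,
    fun _ _ => rfl, fun P G x h => supL_inv α P x h, measurableSet_SupL α,
      fun P x h => ⟨h.2.1, h.2.2.1, d0 h.2, h.2.1⟩, fin_Shp hC hμ hα 1 1 fun _ _ h => h.2⟩
  · rw [sup_inv α H2 H P _ h, act_rm]
  · have h1 := d0 h.2
    rwa [dt_rm, hm, mul_one] at h1
  · obtain ⟨h1, h2⟩ := hR μ m hμ hm
    have h3 := fin_Shp hC h1 hα H2 H (S := Sup α H2 H) fun _ _ h => h.2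
    rwa [LL, h2] at h3
  · exact (Int.gcd_natCast_natCast a b).trans hab

end Pool.Agent.MP_c853c5_nt.W

end

section

set_option autoImplicit false

open Finset MeasureTheory
open scoped ENNReal ComplexConjugate

namespace Pool.Agent.MP_c853c5_nt.W

open Pool.Agent.MP_2a1f0e_nt Pool.Agent.MP_2a1f0e_nt.GM Pool.Agent.MP_2a1f0e_nt.DH

lemma log_Tail {X Y W : ℝ} (hX : 0 < X) (hY : 0 < Y) (h1 : X ≤ W) (h2 : Y ≤ W) :
    |X - Y| ≤ W * |Real.log (X / Y)| := by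
  have h3 := Real.one_sub_inv_le_log_of_pos (div_pos hX hY)
  have h4 := Real.log_le_sub_one_of_pos (div_pos hX hY)
  have h5 := mul_le_mul_of_nonneg_left (h3.trans (le_abs_self _)) hX.le
  have h6 := mul_le_mul_of_nonneg_left ((neg_abs_le _).trans h4) hY.le
  have e1 : X * (1 - (X / Y)⁻¹) = X - Y := by field_simp
  have e2 : Y * (X / Y - 1) = X - Y := by field_simp
  have h7 := mul_le_mul_of_nonneg_right h1 (abs_nonneg (Real.log (X / Y)))
  have h8 := mul_le_mul_of_nonneg_right h2 (abs_nonneg (Real.log (X / Y)))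
  exact abs_le.2 ⟨by linarith, by linarith⟩

lemma om_Tail {e u c d : ℝ} (he : 0 < e) (hc : 0 < c) (hd : c ≤ d) (h : om (e * u / c) ≠ 0) :
    u ≤ 5 / 3 * (d / e) := by
  have h1 := (om_mem h).2
  rw [div_lt_iff₀ hc] at h1
  rw [← mul_div_assoc, le_div_iff₀ he]
  linarith

lemma card_Tail (M : ℕ) : (Bx M).card ≤ M ^ 4 := by
  refine (card_filter_le _ _).trans ?_
  simp only [card_product, Int.card_Icc, add_sub_cancel_right, Int.toNat_natCast]
  exact le_of_eq (by ring)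

theorem tail_stmt (hW : WhStmt) : TailStmt := by
  intro δ hδ
  obtain ⟨A, hA⟩ := exists_nat_ge (14 / δ)
  obtain ⟨C, hC, hw⟩ := hW.2.2 A
  refine ⟨20 ^ 4 * (3 * C * 6 ^ A), by positivity, ?_⟩
  rintro T y N M a b e f κ ⟨hT, hy, -, hN, -, -, hM⟩ ha hb he hf h1 h2
  have hT0 : 0 < T := by linarith
  have he0 : (0 : ℝ) < e := by exact_mod_cast he
  have hf0 : (1 : ℝ) ≤ f := by exact_mod_cast hf
  have hN0 : (0 : ℝ) < N := by exact_mod_cast hN
  have hab : ∀ c ∈ Icc N (2 * N), 0 < (c : ℝ) * y ∧ (c : ℝ) * y ≤ 2 * (N * y) := fun c hc => by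
    have k1 : (N : ℝ) ≤ c := by exact_mod_cast (mem_Icc.1 hc).1
    have k2 : (c : ℝ) ≤ 2 * N := by exact_mod_cast (mem_Icc.1 hc).2
    exact ⟨mul_pos (by linarith) hy, by nlinarith⟩
  have key : ∀ P ∈ Bx M, ‖Gw T y a b e f P * κ P‖ ≤ 3 * C * 6 ^ A * y ^ 2 / T ^ 14 := by
    intro P hP
    by_cases h0 : Gw T y a b e f P * κ P = 0
    · rw [h0, norm_zero]
      positivity
    have h3 := h2 P (right_ne_zero_of_mul h0)
    have h4 := left_ne_zero_of_mul (left_ne_zero_of_mul h0)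
    rw [Complex.ofReal_ne_zero] at h4
    simp only [mul_ne_zero_iff] at h4
    obtain ⟨⟨⟨o1, o2⟩, o3⟩, o4⟩ := h4
    simp only [Bx, mem_filter, mem_product, mem_Icc] at hP
    obtain ⟨⟨⟨⟨p1, -⟩, p2, -⟩, ⟨p3, -⟩, p4, -⟩, -⟩ := hP
    have q1 : (1 : ℝ) ≤ P.1.1 := by exact_mod_cast p1
    have q2 : (1 : ℝ) ≤ P.1.2 := by exact_mod_cast p2
    have q3 : (1 : ℝ) ≤ P.2.1 := by exact_mod_cast p3
    have q4 : (1 : ℝ) ≤ P.2.2 := by exact_mod_cast p4
    have r1 := om_Tail he0 (hab a ha).1 (hab a ha).2 o1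
    have r2 := om_Tail he0 (hab b hb).1 (hab b hb).2 o2
    have r3 := om_Tail (by linarith) hy le_rfl o3
    have r4 := om_Tail (by linarith) hy le_rfl o4
    have r5 : y / f ≤ y := div_le_self hy.le hf0
    have r6 : 1 ≤ 3 * y ^ 2 := by nlinarith
    rw [mul_div_assoc (2 : ℝ)] at r1 r2
    have y1 : 0 < N * y / e := by positivity
    have y2 : 0 < y / f := by positivity
    have y3 := mul_pos y1 y2
    have s1 := mul_le_mul r1 r4 (by linarith) (by linarith)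
    have s2 := mul_le_mul r2 r3 (by linarith) (by linarith)
    have s3 := log_Tail (X := (P.1.1 : ℝ) * P.2.2) (Y := (P.1.2 : ℝ) * P.2.1)
      (W := 6 * (N * y / e * (y / f))) (by positivity) (by positivity) (by linarith) (by linarith)
    have s4 : (hh P : ℝ) = (P.1.1 : ℝ) * P.2.2 - (P.1.2 : ℝ) * P.2.1 := by
      simp only [hh, om2]; push_cast; ring
    set L := Real.log ((P.1.1 : ℝ) * P.2.2 / ((P.1.2 : ℝ) * P.2.1)) with hL
    have s5 : T ^ δ ≤ 6 * (1 + |T * L|) := by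
      rw [s4, div_le_iff₀ hT0] at h3
      have s6 := h3.trans (mul_le_mul_of_nonneg_right s3 hT0.le)
      have s7 : T ^ δ ≤ 6 * (T * |L|) := le_of_mul_le_mul_right (by linarith) y3
      rw [abs_mul, abs_of_pos hT0]
      linarith
    have s8 : T ^ 14 ≤ 6 ^ A * (1 + |T * L|) ^ A := by
      rw [← mul_pow]
      refine le_trans ?_ (pow_le_pow_left₀ (by positivity) s5 A)
      rw [← Real.rpow_mul_natCast hT0.le, ← Real.rpow_natCast]
      refine Real.rpow_le_rpow_of_exponent_le hT ?_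
      rw [div_le_iff₀ hδ] at hA
      push_cast
      linarith
    have s9 : ‖Gw T y a b e f P * κ P‖ ≤ ‖wh (T * L)‖ := by
      rw [norm_mul, Gw, norm_mul]
      refine (mul_le_of_le_one_right (by positivity) (h1 P)).trans
        (mul_le_of_le_one_left (norm_nonneg _) ?_)
      push_cast
      simp only [norm_mul]
      exact mul_le_one₀ (mul_le_one₀ (mul_le_one₀ (norm_om_le _) (norm_nonneg _) (norm_om_le _))
        (norm_nonneg _) (norm_om_le _)) (norm_nonneg _) (norm_om_le _)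
    refine s9.trans ((hw _).trans ?_)
    rw [div_le_div_iff₀ (by positivity) (by positivity)]
    calc C * T ^ 14 ≤ C * (6 ^ A * (1 + |T * L|) ^ A) * 1 := by
          rw [mul_one]
          exact mul_le_mul_of_nonneg_left s8 hC.le
      _ ≤ C * (6 ^ A * (1 + |T * L|) ^ A) * (3 * y ^ 2) :=
          mul_le_mul_of_nonneg_left r6 (by positivity)
      _ = _ := by ring
  refine (norm_sum_le _ _).trans ((sum_le_card_nsmul _ _ _ key).trans ?_)
  have h5 : ((Bx M).card : ℝ) ≤ (20 * T ^ 2) ^ 4 :=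
    le_trans (by exact_mod_cast card_Tail M) (pow_le_pow_left₀ (Nat.cast_nonneg M) hM 4)
  rw [nsmul_eq_mul]
  refine (mul_le_mul_of_nonneg_right h5 (by positivity)).trans (le_of_eq ?_)
  field_simp

end Pool.Agent.MP_c853c5_nt.W

end

section

set_option autoImplicit false

open Finset MeasureTheory
open scoped ENNReal ComplexConjugate

namespace Pool.Agent.MP_c853c5_nt.W

open Pool.Agent.MP_2a1f0e_nt Pool.Agent.MP_2a1f0e_nt.GM Pool.Agent.MP_2a1f0e_nt.DH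

lemma one_Th {k : ℝ} (hk : k ≠ 0) (c : ℝ) : Integrable (fun t : ℝ => bb (t * k - c)) ∧
    ∫ t : ℝ, bb (t * k - c) = |k⁻¹| * ∫ t : ℝ, bb t := by
  have h : Integrable bb := bmp.integrable
  refine ⟨(h.comp_sub_right c).comp_mul_right' hk, ?_⟩
  rw [Measure.integral_comp_mul_right (fun t => bb (t - c)) k, integral_sub_right_eq_self,
    smul_eq_mul]

lemma two_Th {α β : Type} [MeasureSpace α] [MeasureSpace β] [SFinite (volume : Measure α)]
    [SFinite (volume : Measure β)] {f : α → ℝ} {g : β → ℝ} (hf : Integrable f)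
    (hg : Integrable g) : Integrable (fun z : α × β => f z.1 * g z.2) ∧
      ∫ z : α × β, f z.1 * g z.2 = (∫ x, f x) * ∫ y, g y := by
  rw [Measure.volume_eq_prod]
  exact ⟨hf.mul_prod hg, integral_prod_mul f g⟩

theorem th_stmt (hC : CoVStmt) : ThStmt := by
  refine ⟨pow_pos bmp.integral_pos 4, fun A₀ z hA hr => ?_⟩
  have hr' : (rI z : ℝ) ≠ 0 := by exact_mod_cast hr
  have k1 : A₀⁻¹ ≠ 0 := inv_ne_zero hA.ne'
  have k2 : A₀ / (rI z : ℝ) ≠ 0 := div_ne_zero hA.ne' hr'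
  obtain ⟨a1, b1⟩ := one_Th k1 1
  obtain ⟨a2, b2⟩ := one_Th k1 0
  obtain ⟨a3, b3⟩ := one_Th k2 0
  obtain ⟨a4, b4⟩ := one_Th k2 (32 / 25)
  obtain ⟨a5, b5⟩ := two_Th a1 a2
  obtain ⟨a6, b6⟩ := two_Th a3 a4
  obtain ⟨a7, b7⟩ := two_Th a5 a6
  obtain ⟨-, -, h3, h4⟩ := hC.1 (z.1.2, z.2.2) hr
  have e : th0 A₀ z = fun x => (fun Z : MM => (bb (Z.1.1 * A₀⁻¹ - 1) * bb (Z.1.2 * A₀⁻¹ - 0)) *
      (bb (Z.2.1 * (A₀ / (rI z : ℝ)) - 0) * bb (Z.2.2 * (A₀ / (rI z : ℝ)) - 32 / 25)))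
      (act (z.1.2, z.2.2) x) := by
    funext x
    simp only [th0, th, act, sub_zero, div_eq_mul_inv, mul_assoc]
  rw [e]
  refine ⟨h4 _ a7, (h3 _).trans ?_⟩
  rw [b7, b5, b6, b1, b2, b3, b4, c0, show hh (z.1.2, z.2.2) = rI z from rfl, inv_inv, inv_div,
    abs_div, abs_of_pos hA, ← sq_abs (rI z : ℝ)]
  have h5 : |(rI z : ℝ)| ≠ 0 := abs_ne_zero.2 hr'
  field_simp

end Pool.Agent.MP_c853c5_nt.W

end

section

set_option autoImplicit false

open Finset MeasureTheory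
open scoped ENNReal ComplexConjugate

namespace Pool.Agent.MP_c853c5_nt.W

open Pool.Agent.MP_2a1f0e_nt Pool.Agent.MP_2a1f0e_nt.GM Pool.Agent.MP_2a1f0e_nt.DH

lemma box_TM {c Y M : ℝ} {v : ℤ} (hc : 1 ≤ c) (hY : 0 < Y) (hM : 2 * Y ≤ M)
    (h : om (c * v / Y) ≠ 0) : 1 ≤ v ∧ (v : ℝ) ≤ M := by
  obtain ⟨h1, h2⟩ := om_mem h
  rw [lt_div_iff₀ hY] at h1
  rw [div_lt_iff₀ hY] at h2
  have h3 : (0 : ℝ) < v := by
    by_contra h4
    nlinarith [mul_nonneg (zero_le_one.trans hc) (neg_nonneg.2 (not_lt.1 h4))]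
  exact ⟨by exact_mod_cast h3, by nlinarith⟩

lemma ap_pos_TM {a : ℕ} (ha : 1 ≤ a) (e : ℕ) : 1 ≤ ap a e :=
  Nat.div_pos (Nat.gcd_le_left _ ha) (Nat.gcd_pos_of_pos_left _ ha)

lemma ap_mul_TM (a e : ℕ) : ap a e * Nat.gcd a e = a := Nat.div_mul_cancel (Nat.gcd_dvd_left a e)

lemma ts_eq_TM {T y : ℝ} (H' : ℝ) {N M a b e f : ℕ} (hR : Rg T y N M) (ha : a ∈ Icc N (2 * N))
    (hb : b ∈ Icc N (2 * N)) (he : 1 ≤ e) (hf : 1 ≤ f) (hc : Nat.Coprime (ap a e) (ap b e)) :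
    (TS T y a b e f M fun P => dlT a b e P * (om ((hh P : ℝ) / H') : ℂ)) =
      ∑' z : Orb, dl (ap a e * ap b e)
        (om2 (vg ((ap a e : ℤ), (ap b e : ℤ)) z.1.1) (Prod.fst z.1.2)) * GT T y a b e f H' z.1 := by
  obtain ⟨-, hy, -, hN, -, hM, -⟩ := hR
  rw [mem_Icc] at ha hb
  have hN' : (1 : ℝ) ≤ N := by exact_mod_cast hN
  have k : ∀ a : ℕ, N ≤ a ∧ a ≤ 2 * N → 0 < (a : ℝ) * y ∧ 2 * ((a : ℝ) * y) ≤ M := fun a ha => by
    have h1 : (N : ℝ) ≤ a := by exact_mod_cast ha.1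
    have h2 : (a : ℝ) ≤ 2 * N := by exact_mod_cast ha.2
    exact ⟨mul_pos (by linarith) hy, by nlinarith⟩
  have ky : 2 * y ≤ M := by nlinarith
  let ι : Pr → Orb := fun P => ⟨(((1, 0), (0, 1)), P), by simp [IsOrb]⟩
  have hι : Function.Injective ι := fun P P' h => congrArg (fun z : Orb => z.1.2) h
  rw [← hι.tsum_eq, tsum_eq_sum (s := Bx M), TS]
  · refine sum_congr rfl fun P hP => ?_
    have hP' := (mem_filter.1 hP).2
    have e1 : vg ((ap a e : ℤ), (ap b e : ℤ)) ((1, 0), (0, 1)) = ((ap a e : ℤ), (ap b e : ℤ)) := by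
      simp [vg]
    simp only [ι, GT, dlT, e1]
    rw [iC_pos hc, iC_pos (show hh (((1, 0), (0, 1)) : Pr) = 1 by decide),
      iC_pos (show Prim P.1 ∧ Prim P.2 from hP')]
    ring
  · intro P hP
    by_contra h0
    have h1 := right_ne_zero_of_mul h0
    simp only [ι, GT, Gw, mul_ne_zero_iff, Complex.ofReal_ne_zero] at h1
    obtain ⟨⟨⟨-, h2⟩, ⟨⟨⟨h3, h4⟩, h5⟩, h6⟩, -⟩, -⟩ := h1
    have he' : (1 : ℝ) ≤ e := by exact_mod_cast he
    have hf' : (1 : ℝ) ≤ f := by exact_mod_cast hf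
    have g3 := box_TM he' (k a ha).1 (k a ha).2 h3
    have g4 := box_TM he' (k b hb).1 (k b hb).2 h4
    have g5 := box_TM hf' hy ky h5
    have g6 := box_TM hf' hy ky h6
    refine hP (mem_filter.2 ⟨?_, iC_ne_zero h2⟩)
    simp only [mem_product, mem_Icc]
    exact ⟨⟨⟨g3.1, by exact_mod_cast g3.2⟩, g4.1, by exact_mod_cast g4.2⟩,
      ⟨g5.1, by exact_mod_cast g5.2⟩, g6.1, by exact_mod_cast g6.2⟩
  · intro z hz
    have h1 := right_ne_zero_of_mul hz
    simp only [GT, mul_ne_zero_iff] at h1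
    exact ⟨z.1.2, Subtype.ext (Prod.ext (isOrb_one z.2 (iC_ne_zero h1.1.1.1)).symm rfl)⟩

/-- multiplicity of the level -/
lemma mult_TM {N e X : ℕ} {Δ : ℝ} (hN : 1 ≤ N) (he : 1 ≤ e) (hD : DivB X Δ) (h1 : e ≤ X)
    (h2 : 4 * N ^ 2 ≤ X) (U : ℕ → ℝ≥0∞) :
    ∑ p ∈ Icc N (2 * N) ×ˢ Icc N (2 * N), U (ap p.1 e * ap p.2 e) ≤
      ENNReal.ofReal (Δ ^ 3) * ∑ q ∈ Icc 1 (4 * N ^ 2), U q := by
  have hm : ∀ p ∈ Icc N (2 * N) ×ˢ Icc N (2 * N), ap p.1 e * ap p.2 e ∈ Icc 1 (4 * N ^ 2) := by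
    intro p hp
    simp only [mem_product, mem_Icc] at hp ⊢
    refine ⟨Nat.mul_pos (ap_pos_TM (by omega) e) (ap_pos_TM (by omega) e), ?_⟩
    calc ap p.1 e * ap p.2 e ≤ (2 * N) * (2 * N) :=
          Nat.mul_le_mul ((Nat.div_le_self _ _).trans hp.1.2) ((Nat.div_le_self _ _).trans hp.2.2)
      _ = 4 * N ^ 2 := by ring
  rw [← sum_fiberwise_of_maps_to hm, mul_sum]
  refine sum_le_sum fun q hq => ?_
  rw [sum_congr rfl fun p hp => by rw [(mem_filter.1 hp).2], sum_const, nsmul_eq_mul]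
  refine mul_le_mul_left ?_ _
  rw [mem_Icc] at hq
  have h3 : ((Icc N (2 * N) ×ˢ Icc N (2 * N)).filter fun p => ap p.1 e * ap p.2 e = q).card ≤
      (q.divisors ×ˢ e.divisors ×ˢ e.divisors).card := by
    refine card_le_card_of_injOn (fun p => (ap p.1 e, Nat.gcd p.1 e, Nat.gcd p.2 e))
      (fun p hp => ?_) fun p hp p' hp' h => ?_
    · have h4 := (mem_filter.1 hp).2
      simp only [coe_product, Set.mem_prod, mem_coe, Nat.mem_divisors]
      exact ⟨⟨Dvd.intro _ h4, by omega⟩, ⟨Nat.gcd_dvd_right _ _, by omega⟩,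
        Nat.gcd_dvd_right _ _, by omega⟩
    · have h4 := (mem_filter.1 hp).2
      have h5 := (mem_filter.1 hp').2
      simp only [Prod.mk.injEq] at h
      have h6 : 0 < ap p.1 e := Nat.pos_of_ne_zero fun h0 => by rw [h0] at h4; omega
      have h7 : ap p.2 e = ap p'.2 e :=
        Nat.eq_of_mul_eq_mul_left h6 (by rw [h4, h.1, h5])
      refine Prod.ext ?_ ?_
      · rw [← ap_mul_TM p.1 e, h.1, h.2.1, ap_mul_TM]
      · rw [← ap_mul_TM p.2 e, h7, h.2.2, ap_mul_TM]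
  rw [← ENNReal.ofReal_natCast]
  refine ENNReal.ofReal_le_ofReal (le_trans (Nat.cast_le.2 h3) ?_)
  rw [card_product, card_product]
  push_cast
  have h8 := hD.2 q (hq.2.trans h2)
  have h9 := hD.2 e h1
  have h0 := zero_le_one.trans hD.1
  calc _ ≤ Δ * (Δ * Δ) := by gcongr
    _ = Δ ^ 3 := by ring

/-- one pair `(a, b)` -/
lemma one_TM (hR : RtStmt) (hS : ShpStmt) (hM : MidStmt) (hC : ChStmt) (hI : Id3Stmt)
    {μ : Measure MM} (hμ : UM μ) {L : ℝ → ℝ} (hL : IsLg L) {T y A₀ H' y₁ y₂ κ Lb : ℝ}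
    {N M a b e f : ℕ} {w : (Fin 9 → ℝ) → ℝ} (hg : Rg T y N M) (ha : a ∈ Icc N (2 * N))
    (hb : b ∈ Icc N (2 * N)) (he : 1 ≤ e) (hf : 1 ≤ f) (hA : 1 ≤ A₀) (hH : H' ≠ 0)
    (h1 : y₁ = N * y / e) (h2 : y₂ = y / f) (hm : |H'| * A₀ ^ 2 / (y₁ * y₂) ≤ 1 / 100)
    (hκ : 0 < κ)
    (hc : ∃ c : (Fin 9 → ℝ) → ℂ, Measurable c ∧ Integrable c ∧ (∀ ζ, ‖c ζ‖ ≤ w ζ) ∧
      ∀ v, (A3 (pi3 N a b A₀ y₁ y₂ H', v) : ℂ) *
        wh (T * H' / (y₁ * y₂) * f3 L (pi3 N a b A₀ y₁ y₂ H', v)) =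
          ∫ ζ, c ζ * ex (∑ i, ζ i * v i))
    (hl : Nat.Coprime (ap a e) (ap b e) → ∀ ζ, LN μ (ap a e * ap b e)
      (vg ((ap a e : ℤ), (ap b e : ℤ))) (kL A₀ ζ) ≤ ENNReal.ofReal Lb) :
    ENNReal.ofReal c0 * ‖TS T y a b e f M fun P => dlT a b e P * (om ((hh P : ℝ) / H') : ℂ)‖ₑ ≤
      ∑ j ∈ Ico (-3 : ℤ) 5, ∫⁻ ζ, ENNReal.ofReal (w ζ) *
        (ENNReal.ofReal κ * ENNReal.ofReal Lb + ENNReal.ofReal κ⁻¹ *
          LN (μ.map (rm (rot (sg (-y₂))))) (ap a e * ap b e) Prod.fst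
            (pk (ch2 (y₂ / A₀) (|-y₂| / A₀) (y₁ / y₂) 0 H' j ζ))) := by
  by_cases hp : Nat.Coprime (ap a e) (ap b e)
  swap
  · simp [TS, dlT, iC_neg hp]
  obtain ⟨c, hc1, hc2, hc3, hc4⟩ := hc
  have hy := hg.2.1
  have hN := hg.2.2.2.1
  have hy2 : 0 < y₂ := by rw [h2]; positivity
  have hω : -y₂ ≠ 0 := by linarith
  have hA0 : 0 < A₀ := by linarith
  have hq : 1 ≤ ap a e * ap b e := Nat.mul_pos (ap_pos_TM (hN.trans (mem_Icc.1 ha).1) e)
    (ap_pos_TM (hN.trans (mem_Icc.1 hb).1) e)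
  have hj : ∀ j ∈ Ico (-3 : ℤ) 5, 5 / 6 * |y₁ / y₂ * (4 / 3) ^ j| ≤ |3 * (y₁ / y₂)| := by
    intro j hj
    have h3 : ((4 : ℝ) / 3) ^ j ≤ (4 / 3) ^ (4 : ℤ) :=
      zpow_le_zpow_right₀ (by norm_num) (by rw [mem_Ico] at hj; omega)
    rw [abs_mul, abs_mul, abs_of_pos (by positivity : (0 : ℝ) < (4 / 3) ^ j)]
    norm_num at h3 ⊢
    nlinarith [abs_nonneg (y₁ / y₂)]
  have key := hM μ hμ ℤ (Ico (-3) 5) 9 (ap a e * ap b e) (vg ((ap a e : ℤ), (ap b e : ℤ)))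
    Prod.fst (SupL (A₀ / 2))
    (fun P x => Sup (y₂ / A₀) (3 * (y₁ / y₂)) H' P (rm (rot (sg (-y₂))) x))
    (fun _ ζ => kL A₀ ζ) (fun j ζ => k2 (y₂ / A₀) A₀ (-y₂) (y₁ / y₂) 0 H' j ζ) c A₀ κ
    (GT T y a b e f H') hq ((hS μ hμ _ (by positivity)).2.2.1 _ _ hp)
    ((hS μ hμ _ (by positivity)).2.1 _ _ _ (dt_rot hω)) hA0 hκ hc1 hc2
    (fun j h ζ => ⟨(hC.2.2.1 A₀).1 ζ, ((hC.2.1 _ _ _ _ _ _ _ j hω (hj j h)).1 ζ).2⟩)
    (fun j h P => ⟨(hC.2.2.1 A₀).2 P, ((hC.2.1 _ _ _ _ _ _ _ j hω (hj j h)).2 P).2⟩)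
    (fun z hz => (hI L T y A₀ H' y₁ y₂ N a b e f z hL hy hA hH hN ha hb he hf h1 h2 hm hz).1)
    (fun z hz x => by
      rw [(hI L T y A₀ H' y₁ y₂ N a b e f z hL hy hA hH hN ha hb he hf h1 h2 hm hz).2 x]
      refine sum_congr rfl fun j _ => ?_
      rw [hc4, ← integral_const_mul]
      refine integral_congr_ae (Filter.Eventually.of_forall fun ζ => ?_)
      beta_reduce
      rw [← hC.2.2.2.2 _ A₀ (-y₂) _ _ _ j ζ z x hω hA0]
      ring)
  rw [ts_eq_TM H' hg ha hb he hf hp]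
  refine key.2.trans (sum_le_sum fun j _ => lintegral_mono fun ζ => ?_)
  refine mul_le_mul' ?_ (add_le_add (mul_le_mul_right (hl hp ζ) _) (le_of_eq ?_))
  · rw [← ofReal_norm_eq_enorm]
    exact ENNReal.ofReal_le_ofReal (hc3 ζ)
  · congr 1
    rw [LN, LN, LF, LF, (hR μ _ hμ (dt_rot hω)).2]
    rfl

end Pool.Agent.MP_c853c5_nt.W

end

section

/-!
The trivial bound for a weighted sum over orbits.
-/

set_option autoImplicit false

open Finset MeasureTheory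
open scoped ENNReal ComplexConjugate

namespace Pool.Agent.MP_c853c5_nt.W

open Pool.Agent.MP_2a1f0e_nt Pool.Agent.MP_2a1f0e_nt.GM Pool.Agent.MP_2a1f0e_nt.DH

lemma vb_nonneg_Triv (H2 H : ℝ) (r : ℤ) : 0 ≤ vb H2 H r := by
  unfold vb
  split_ifs <;> positivity

lemma n_le_Triv {Λ α H2 H : ℝ} (hb : Bd Λ α H2 H) {z : Pr × Pr} (h : InvB α H2 H z) :
    |(nI z : ℝ)| ≤ 160 * Λ ^ 4 := by
  obtain ⟨h1, h2, h3, h4, h5⟩ := hb
  obtain ⟨-, -, -, -, -, -, h6, -, -, h7⟩ := h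
  have a1 : α ^ 2 ≤ Λ ^ 2 := by gcongr
  have a2 : H2 ^ 2 ≤ Λ ^ 2 := by
    rw [← sq_abs]
    gcongr
  have a3 : |H2| * |H| ≤ Λ * Λ := mul_le_mul h4 h5 (abs_nonneg _) (by linarith)
  have a4 : H2 ^ 2 * |(rI z : ℝ)| ≤ Λ ^ 2 * (32 * Λ ^ 2) :=
    mul_le_mul a2 (by linarith) (abs_nonneg _) (by positivity)
  have a5 : Λ ^ 2 ≤ Λ ^ 4 := pow_le_pow_right₀ h1 (by norm_num)
  nlinarith

theorem triv_stmt (hI : InvStmt) (hV : VolStmt) (hA : CntAStmt) (hB : CntBStmt)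
    (hC : CntCStmt) : TrivStmt := by
  intro ε hε
  obtain ⟨C₁, c1, hA⟩ := hA ε hε
  obtain ⟨C₂, c2, hB⟩ := hB ε hε
  obtain ⟨C₃, c3, hC⟩ := hC ε hε
  refine ⟨288 * (C₁ + C₂ + C₃), by positivity,
    fun Λ α H2 H R₀ A B B₀ ν hb hR hA0 hB0 hB₀ h0 h1 => ?_⟩
  refine tsum_Orb_le (f := fun z => iE (|(rI z : ℝ)| ≤ R₀) * ENNReal.ofReal (ν (nI z)) *
    vol (Sup α H2 H) (Sup α H2 H) z) fun S hS => ?_
  have α0 := hb.2.1
  have hcs : ∀ z ∈ S, Cs α H2 H R₀ z := fun z hz => by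
    obtain ⟨h2, h3⟩ := hS z hz
    obtain ⟨x, x1, x2⟩ := nonempty_of_measure_ne_zero (right_ne_zero_of_mul h3)
    exact ⟨h2, x1.1, x2.1, x2.2.1, hI α H2 H z x α0 x1.2 x2.2,
      iE_ne_zero (left_ne_zero_of_mul (left_ne_zero_of_mul h3))⟩
  obtain ⟨g, hg⟩ : ∃ g : Pr × Pr → ℝ, ∀ z,
    g z = if nI z = 0 then B₀ else A + B / |(nI z : ℝ)| := ⟨_, fun _ => rfl⟩
  have g0 : ∀ z, 0 ≤ g z := fun z => by
    rw [hg]
    split_ifs <;> positivity
  have g1 : ∀ z ∈ S, ν (nI z) ≤ g z := fun z hz => by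
    rw [hg]
    split_ifs with h
    · rwa [h]
    · exact h1 _ h (n_le_Triv hb (hcs z hz).2.2.2.2.1)
  have v0 := vb_nonneg_Triv H2 H
  refine (sum_le_sum (g := fun z => ENNReal.ofReal (288 * α ^ 2 * (g z * vb H2 H (rI z))))
    fun z hz => ?_).trans ?_
  · refine (mul_le_mul' (mul_le_mul' (iE_le_one _) (ENNReal.ofReal_le_ofReal (g1 z hz)))
      (le_trans (measure_mono fun x hx => And.intro hx.1.2 hx.2.2)
        (hV α H2 H z α0 (hcs z hz).1))).trans_eq ?_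
    rw [one_mul, ← ENNReal.ofReal_mul (g0 z), mul_left_comm]
  rw [← ENNReal.ofReal_sum_of_nonneg
    (f := fun z => 288 * α ^ 2 * (g z * vb H2 H (rI z)))
    fun z _ => mul_nonneg (by positivity) (mul_nonneg (g0 z) (v0 _)), ← mul_sum]
  refine ENNReal.ofReal_le_ofReal ?_
  have a1 := hA Λ α H2 H R₀ A B ((S.filter fun z => ¬ nI z = 0).filter
    fun z => ¬ pI z * sI z = 0) hb hR hA0 hB0 fun z hz =>
      ⟨hcs z (mem_filter.1 (mem_filter.1 hz).1).1, (mem_filter.1 (mem_filter.1 hz).1).2,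
        (mem_filter.1 hz).2⟩
  have a2 := hB Λ α H2 H R₀ A B ((S.filter fun z => ¬ nI z = 0).filter
    fun z => pI z * sI z = 0) hb hR hA0 hB0 fun z hz =>
      ⟨hcs z (mem_filter.1 (mem_filter.1 hz).1).1, (mem_filter.1 (mem_filter.1 hz).1).2,
        (mem_filter.1 hz).2⟩
  have a3 := mul_le_mul_of_nonneg_left (hC Λ α H2 H R₀ (S.filter fun z => nI z = 0) hb
    fun z hz => ⟨hcs z (mem_filter.1 hz).1, (mem_filter.1 hz).2⟩) hB₀
  have e : ∑ z ∈ S, g z * vb H2 H (rI z) =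
      B₀ * ∑ z ∈ S.filter fun z => nI z = 0, vb H2 H (rI z) +
        ∑ z ∈ S.filter fun z => ¬ nI z = 0, (A + B / |(nI z : ℝ)|) * vb H2 H (rI z) := by
    rw [← sum_filter_add_sum_filter_not S fun z => nI z = 0, mul_sum]
    congr 1
    · exact sum_congr rfl fun z hz => by rw [hg, if_pos (mem_filter.1 hz).2]
    · exact sum_congr rfl fun z hz => by rw [hg, if_neg (mem_filter.1 hz).2]
  rw [← sum_filter_add_sum_filter_not (S.filter fun z => ¬ nI z = 0)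
    fun z => pI z * sI z = 0] at e
  have l0 : 0 ≤ Λ ^ ε := Real.rpow_nonneg (by linarith [hb.1]) _
  have d0 : 0 ≤ Λ ^ ε * (|H2| * |H| + H ^ 2) := by positivity
  have u0 : 0 ≤ B + A * (1 + |H2| * |H| + H2 ^ 2 * R₀) := by positivity
  have key : ∑ z ∈ S, g z * vb H2 H (rI z) ≤ (C₁ + C₂ + C₃) * (Λ ^ ε * (|H2| * |H| + H ^ 2)) *
      (B₀ + (B + A * (1 + |H2| * |H| + H2 ^ 2 * R₀))) := by
    linarith [mul_nonneg c1.le (mul_nonneg d0 hB₀), mul_nonneg c2.le (mul_nonneg d0 hB₀),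
      mul_nonneg c3.le (mul_nonneg d0 u0)]
  exact (mul_le_mul_of_nonneg_left key (by positivity)).trans_eq (by ring)

end Pool.Agent.MP_c853c5_nt.W

end

section

set_option autoImplicit false

open Finset MeasureTheory
open scoped ENNReal ComplexConjugate

namespace Pool.Agent.MP_c853c5_nt.W

open Pool.Agent.MP_2a1f0e_nt Pool.Agent.MP_2a1f0e_nt.GM Pool.Agent.MP_2a1f0e_nt.DH

lemma tsum_Unf (hO : OrbStmt) (F : Pr × Pr → ℝ≥0∞)
    (hF : ∀ z, F z ≠ 0 → Prim z.1.2 ∧ hh z.1 ≠ 0) :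
    ∑' z : Pr × Pr, F z =
      ∑' z : Orb, ∑' G : Pr, iE (hh G = 1) * F (pg z.1.1 G, pg z.1.2 G) := by
  classical
  let Φ : Orb × {G : Pr // hh G = 1} → Pr × Pr := fun w => (pg w.1.1.1 w.2.1, pg w.1.1.2 w.2.1)
  have hinj : Function.Injective Φ := by
    rintro ⟨⟨z, hz⟩, ⟨G, hG⟩⟩ ⟨⟨z', hz'⟩, ⟨G', hG'⟩⟩ h
    have h1 : Prim (pg z.1 G, pg z.2 G).1.2 := by
      refine (prim_vg hG _).2 ?_
      rw [hz.1]
      rfl
    have h2 : hh (pg z.1 G, pg z.2 G).1 ≠ 0 := by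
      change hh (pg z.1 G) ≠ 0
      rw [hh_pg, hG, mul_one]
      exact isOrb_hh_ne hz
    have h3 := (hO _ h1 h2).unique (y₁ := (z, G)) (y₂ := (z', G')) ⟨hz, hG, rfl⟩ ⟨hz', hG', h⟩
    obtain ⟨rfl, rfl⟩ := Prod.mk.inj h3
    rfl
  have hsup : Function.support F ⊆ Set.range Φ := by
    intro z hz
    obtain ⟨w, ⟨h1, h2, h3⟩, -⟩ := hO z (hF z hz).1 (hF z hz).2
    exact ⟨(⟨w.1, h1⟩, ⟨w.2, h2⟩), h3.symm⟩
  rw [← hinj.tsum_eq hsup, ENNReal.tsum_prod']
  refine tsum_congr fun z => ?_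
  have h := tsum_subtype {G : Pr | hh G = 1} fun G => F (pg z.1.1 G, pg z.1.2 G)
  refine h.trans (tsum_congr fun G => ?_)
  by_cases hG : hh G = 1
  · rw [Set.indicator_of_mem (by exact hG), iE_pos hG, one_mul]
  · rw [Set.indicator_of_notMem (by exact hG), iE_neg hG, zero_mul]

theorem unf_stmt (hO : OrbStmt) : UnfStmt := by
  intro μ hμ f hm hinv hsup
  have h1 : ∀ x, ∑' z : Pr × Pr, f z x =
      ∑' z : Orb, ∑' G : Pr, iE (hh G = 1) * f z.1 (act G x) := by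
    intro x
    rw [tsum_Unf hO (fun z => f z x) fun z hz => ⟨(hsup z x hz).1, (hsup z x hz).2.1⟩]
    refine tsum_congr fun z => tsum_congr fun G => ?_
    by_cases hG : hh G = 1
    · rw [hinv z.1 G x hG]
    · rw [iE_neg hG, zero_mul, zero_mul]
  simp only [h1]
  have h2 : ∀ z : Orb, Measurable fun x => ∑' G : Pr, iE (hh G = 1) * f z.1 (act G x) :=
    fun z => Measurable.tsum fun G => ((hm z.1).comp (continuous_act G).measurable).const_mul _
  rw [lintegral_tsum fun z : Orb => (h2 z).aemeasurable]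
  refine tsum_congr fun z => hμ.2 _ (hm z.1) fun x hx => ?_
  by_contra h
  exact (hsup z.1 x h).2.2 hx

end Pool.Agent.MP_c853c5_nt.W

end

section

/-!
Unfolding for complex valued functions.
-/

set_option autoImplicit false

open Finset MeasureTheory
open scoped ENNReal ComplexConjugate

namespace Pool.Agent.MP_c853c5_nt.W

open Pool.Agent.MP_2a1f0e_nt Pool.Agent.MP_2a1f0e_nt.GM Pool.Agent.MP_2a1f0e_nt.DH

section

variable {μ : Measure MM} {f : Pr × Pr → MM → ℂ}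

lemma comp_UnfC (hU : UnfStmt) (hμ : UM μ) (hm : ∀ z, Measurable (f z))
    (hi : ∀ (z : Pr × Pr) G x, hh G = 1 → f (pg z.1 G, pg z.2 G) x = f z (act G x))
    (hs : ∀ z x, f z x ≠ 0 → Prim z.1.2 ∧ hh z.1 ≠ 0 ∧ dt x ≠ 0) {L : ℂ → ℝ≥0∞}
    (hL : Measurable L) (h0 : L 0 = 0) :
    ∑' z : Pr × Pr, ∫⁻ x, L (f z x) ∂μ = ∑' z : Orb, ∫⁻ x, L (f z.1 x) := by
  rw [← lintegral_tsum (f := fun z x => L (f z x)) fun z => (hL.comp (hm z)).aemeasurable]
  exact hU μ hμ (fun z x => L (f z x)) (fun z => hL.comp (hm z))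
    (fun z G x h => by rw [hi z G x h]) fun z x h => hs z x fun e => h (by rw [e, h0])

lemma pos_UnfC (hU : UnfStmt) (hμ : UM μ) (hm : ∀ z, Measurable (f z))
    (hi : ∀ (z : Pr × Pr) G x, hh G = 1 → f (pg z.1 G, pg z.2 G) x = f z (act G x))
    (hs : ∀ z x, f z x ≠ 0 → Prim z.1.2 ∧ hh z.1 ≠ 0 ∧ dt x ≠ 0)
    (hf : ∑' z : Orb, ∫⁻ x, ‖f z.1 x‖ₑ ≠ ⊤) (L : ℂ →L[ℝ] ℝ) (hL : ∀ c, L c ≤ ‖c‖) :
    ∃ T : ℝ, HasSum (fun z : Pr × Pr => (∫⁻ x, ENNReal.ofReal (L (f z x)) ∂μ).toReal) T ∧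
      HasSum (fun z : Orb => (∫⁻ x, ENNReal.ofReal (L (f z.1 x))).toReal) T := by
  have H := comp_UnfC hU hμ hm hi hs (L := fun c => ENNReal.ofReal (L c))
    L.continuous.measurable.ennreal_ofReal (by simp)
  have h2 : ∑' z : Orb, ∫⁻ x, ENNReal.ofReal (L (f z.1 x)) ≠ ⊤ := by
    refine ne_top_of_le_ne_top hf (ENNReal.tsum_le_tsum fun z => lintegral_mono fun x => ?_)
    rw [← ofReal_norm]
    exact ENNReal.ofReal_le_ofReal (hL _)
  have h1 := H.trans_ne h2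
  refine ⟨_, ENNReal.hasSum_toReal h1, ?_⟩
  rw [← ENNReal.tsum_toReal_eq (ENNReal.ne_top_of_tsum_ne_top h1), H,
    ENNReal.tsum_toReal_eq (ENNReal.ne_top_of_tsum_ne_top h2)]
  exact ENNReal.hasSum_toReal h2

lemma lin_UnfC {X : Type*} [MeasurableSpace X] {ν : Measure X} {g : X → ℂ} (hm : Measurable g)
    (h : ∫⁻ x, ‖g x‖ₑ ∂ν ≠ ⊤) (L : ℂ →L[ℝ] ℝ) :
    L (∫ x, g x ∂ν) = (∫⁻ x, ENNReal.ofReal (L (g x)) ∂ν).toReal -
      (∫⁻ x, ENNReal.ofReal ((-L) (g x)) ∂ν).toReal := by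
  have hg : Integrable g ν := ⟨hm.aestronglyMeasurable, h.lt_top⟩
  rw [← L.integral_comp_comm hg]
  exact integral_eq_lintegral_pos_part_sub_lintegral_neg_part (L.integrable_comp hg)

end

theorem unfC_stmt (hU : UnfStmt) : UnfCStmt := by
  intro μ hμ f hm hi hs hf
  have h1 : ∑' z : Pr × Pr, ∫⁻ x, ‖f z x‖ₑ ∂μ ≠ ⊤ :=
    (comp_UnfC hU hμ hm hi hs (L := fun c => ‖c‖ₑ) measurable_enorm enorm_zero).trans_ne hf
  refine ⟨⟨(measurable_ctsum hm).aestronglyMeasurable, ?_⟩, ?_⟩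
  · refine lt_of_le_of_lt (lintegral_mono fun x => enorm_tsum_le_tsum_enorm) ?_
    rw [lintegral_tsum fun z => (hm z).enorm.aemeasurable]
    exact h1.lt_top
  · have key : ∀ L : ℂ →L[ℝ] ℝ, (∀ c, |L c| ≤ ‖c‖) →
        ∃ T : ℝ, HasSum (fun z : Pr × Pr => L (∫ x, f z x ∂μ)) T ∧
          HasSum (fun z : Orb => L (∫ x, f z.1 x)) T := by
      intro L hL
      obtain ⟨T, a1, a2⟩ := pos_UnfC hU hμ hm hi hs hf L fun c => (le_abs_self _).trans (hL c)
      obtain ⟨T', b1, b2⟩ := pos_UnfC hU hμ hm hi hs hf (-L) fun c => (neg_le_abs _).trans (hL c)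
      refine ⟨T - T', ?_, ?_⟩
      · simp only [fun z => lin_UnfC (hm z) (ENNReal.ne_top_of_tsum_ne_top h1 z) L]
        exact a1.sub b1
      · simp only [fun z : Orb => lin_UnfC (hm z.1) (ENNReal.ne_top_of_tsum_ne_top hf z) L]
        exact a2.sub b2
    obtain ⟨T, a1, a2⟩ := key Complex.reCLM Complex.abs_re_le_norm
    obtain ⟨T', b1, b2⟩ := key Complex.imCLM Complex.abs_im_le_norm
    rw [integral_tsum (fun z => (hm z).aestronglyMeasurable) h1,
      ((Complex.hasSum_iff _ ⟨T, T'⟩).2 ⟨a1, b1⟩).tsum_eq,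
      ((Complex.hasSum_iff _ ⟨T, T'⟩).2 ⟨a2, b2⟩).tsum_eq]

end Pool.Agent.MP_c853c5_nt.W

end

section

set_option autoImplicit false

open Finset MeasureTheory
open scoped ENNReal ComplexConjugate

namespace Pool.Agent.MP_c853c5_nt.W

open Pool.Agent.MP_2a1f0e_nt Pool.Agent.MP_2a1f0e_nt.GM Pool.Agent.MP_2a1f0e_nt.DH

lemma slice_Vol {b₁ : ℝ} (hb : 0 < b₁) (b₂ c ρ : ℝ) :
    volume {a : R2 | |a.1 - c| ≤ ρ ∧ 1 ≤ a.1 * b₂ - a.2 * b₁ ∧ a.1 * b₂ - a.2 * b₁ ≤ 2} ≤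
      ENNReal.ofReal (2 * ρ / b₁) := by
  have hm : MeasurableSet
      {a : R2 | |a.1 - c| ≤ ρ ∧ 1 ≤ a.1 * b₂ - a.2 * b₁ ∧ a.1 * b₂ - a.2 * b₁ ≤ 2} :=
    by measurability
  rw [Measure.volume_eq_prod, Measure.prod_apply hm]
  refine (lintegral_mono (g := (Set.Icc (c - ρ) (c + ρ)).indicator
    fun _ => ENNReal.ofReal (1 / b₁)) fun t => ?_).trans ?_
  · by_cases ht : t ∈ Set.Icc (c - ρ) (c + ρ)
    · rw [Set.indicator_of_mem ht]
      refine (measure_mono (t := Set.Icc ((t * b₂ - 2) / b₁) ((t * b₂ - 1) / b₁))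
        fun s hs => ?_).trans ?_
      · obtain ⟨-, h1, h2⟩ := hs
        refine ⟨(div_le_iff₀ hb).2 ?_, (le_div_iff₀ hb).2 ?_⟩
        · dsimp only at h2
          linarith
        · dsimp only at h1
          linarith
      · rw [Real.volume_Icc]
        refine le_of_eq (congrArg _ ?_)
        ring
    · rw [Set.indicator_of_notMem ht]
      refine le_of_eq (measure_mono_null (t := ∅) (fun s hs => ht ?_) measure_empty)
      have h1 := abs_le.1 hs.1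
      dsimp only at h1
      exact ⟨by linarith [h1.1], by linarith [h1.2]⟩
  · rw [lintegral_indicator_const measurableSet_Icc, Real.volume_Icc,
      ← ENNReal.ofReal_mul (by positivity)]
    refine le_of_eq (congrArg _ ?_)
    ring

theorem vol1_stmt : Vol1Stmt := by
  rintro α H2 H ⟨⟨h, d⟩, v⟩ hα hP
  dsimp only at hP
  subst hP
  have hh1 : hh ((h, d), (0, 1)) = h := by simp [hh, om2]
  have hv : ∀ x : MM, vx (0, 1) x = x.2 := fun x => by simp [vx]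
  rw [Measure.volume_eq_prod, Measure.prod_apply_symm (measurableSet_SupA α H2 H _)]
  refine (lintegral_mono (g := (Set.Icc α (4 * α) ×ˢ Set.Icc (-(4 * α)) (4 * α)).indicator
    fun _ => ENNReal.ofReal (4 * (|H2| / |H|))) fun b => ?_).trans ?_
  · rcases Set.eq_empty_or_nonempty
      ((fun a : R2 => (a, b)) ⁻¹' {x : MM | SupA α H2 H ((h, d), (0, 1)) x}) with he | ⟨a₀, ha₀⟩
    · dsimp only
      rw [he, measure_empty]
      exact zero_le
    have hH := SupA.half ha₀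
    obtain ⟨-, h0, hcn, -, -, -, hHh, -⟩ := ha₀
    rw [hh1] at h0 hHh
    dsimp only at hcn
    rw [hv] at hcn
    obtain ⟨c1, c2, c3⟩ := hcn
    dsimp only at c1 c2 c3
    have hb : 0 < b.1 := hα.trans_le c1
    have h0' : (h : ℝ) ≠ 0 := by exact_mod_cast h0
    have h0'' : 0 < |(h : ℝ)| := abs_pos.2 h0'
    have c4 := abs_le.1 c3
    rw [Set.indicator_of_mem
      (show b ∈ Set.Icc α (4 * α) ×ˢ Set.Icc (-(4 * α)) (4 * α) from
        ⟨⟨c1, c2⟩, by linarith [c4.1], by linarith [c4.2]⟩)]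
    refine (measure_mono fun a ha => ?_).trans ((slice_Vol hb b.2 (-(d * b.1) / h)
      (2 * |H2| * b.1 / |(h : ℝ)|)).trans (ENNReal.ofReal_le_ofReal ?_))
    · obtain ⟨-, -, -, h1, h2, h3, -, -⟩ := ha
      refine ⟨?_, h1, h2⟩
      have e : a.1 - -(d * b.1) / h = tt ((h, d), (0, 1)) (a, b) * b.1 / h := by
        simp only [tt, vx, Int.cast_zero, Int.cast_one, zero_mul, one_mul, zero_add]
        field_simp
        ring
      rw [e, abs_div, abs_mul, abs_of_pos hb]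
      gcongr
    · have e : 2 * (2 * |H2| * b.1 / |(h : ℝ)|) / b.1 = 4 * (|H2| / |(h : ℝ)|) := by
        field_simp
        ring
      rw [e]
      gcongr
  · rw [lintegral_indicator_const (measurableSet_Icc.prod measurableSet_Icc),
      Measure.volume_eq_prod, Measure.prod_prod, Real.volume_Icc, Real.volume_Icc,
      ← ENNReal.ofReal_mul (by linarith), ← ENNReal.ofReal_mul (by positivity)]
    refine le_of_eq (congrArg _ ?_)
    ring

theorem vol_stmt (hC : CoVStmt) (hZ : VolZStmt) (h1 : Vol1Stmt) : VolStmt := by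
  intro α H2 H z hα hz
  rw [vol, vb]
  split_ifs with hr
  · refine (measure_mono fun x hx => hx.1).trans ((h1 α H2 H z.1 hα hz.1).trans
      (ENNReal.ofReal_le_ofReal ?_))
    gcongr
    norm_num
  · have hr' : (rI z : ℝ) ≠ 0 := by exact_mod_cast hr
    have hr'' : 0 < |(rI z : ℝ)| := abs_pos.2 hr'
    have hm : MeasurableSet {Z : MM | Cn α Z.1 ∧ Cn α Z.2 ∧ |dt Z| ≤ 2 * |(rI z : ℝ)|} :=
      (measurable_fst (measurableSet_Cn α)).inter ((measurable_snd (measurableSet_Cn α)).inter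
        (measurableSet_le continuous_dt.abs.measurable measurable_const))
    have h2 := (hC.1 (z.1.2, z.2.2) hr).1
      fun Z => iE (Cn α Z.1 ∧ Cn α Z.2 ∧ |dt Z| ≤ 2 * |(rI z : ℝ)|)
    have h5 := lintegral_iE volume ((continuous_act (z.1.2, z.2.2)).measurable hm)
    rw [lintegral_iE _ hm] at h2
    refine (measure_mono fun x hx => ?_).trans ((h5.symm.trans h2).le.trans ?_)
    · refine ⟨hx.1.2.2.1, hx.2.2.2.1, ?_⟩
      have h3 := hx.1.2.2.2.1
      have h4 := hx.1.2.2.2.2.1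
      rw [dt_act, abs_mul, abs_of_nonneg (by linarith : 0 ≤ dt x), mul_comm]
      exact mul_le_mul_of_nonneg_right h4 (abs_nonneg _)
    · refine (mul_le_mul_right (hZ α _ hα) _).trans ?_
      rw [← ENNReal.ofReal_mul (by positivity)]
      refine le_of_eq (congrArg _ ?_)
      change 1 / (rI z : ℝ) ^ 2 * _ = _
      rw [← sq_abs (rI z : ℝ)]
      field_simp
      ring

end Pool.Agent.MP_c853c5_nt.W

end

section

/-! Bounded derivatives of the exponential and of the transform of the weight. -/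

set_option autoImplicit false

open Finset MeasureTheory
open scoped ENNReal ComplexConjugate

namespace Pool.Agent.MP_c853c5_nt.W

open Pool.Agent.MP_2a1f0e_nt Pool.Agent.MP_2a1f0e_nt.GM Pool.Agent.MP_2a1f0e_nt.DH

lemma bdd_Wh (F : ℕ → ℝ → ℂ) (h1 : ∀ j s, HasDerivAt (F j) (F (j + 1) s) s)
    (h2 : ∀ j, ∃ B : ℝ, ∀ s, ‖F j s‖ ≤ B) : Bdd (F 0) := by
  have e : ∀ j, iteratedDeriv j (F 0) = F j := fun j => by
    induction j with
    | zero => exact iteratedDeriv_zero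
    | succ j ih =>
      rw [iteratedDeriv_succ, ih]
      exact funext fun s => (h1 j s).deriv
  refine ⟨contDiff_of_differentiable_iteratedDeriv fun m _ => ?_, fun j => ?_⟩
  · rw [e]
    exact fun s => (h1 m s).differentiableAt
  · rw [e]
    exact h2 j

lemma ex_Wh : Bdd ex := by
  have h := bdd_Wh (fun j s => (2 * Real.pi * Complex.I) ^ j * ex (1 * s)) (fun j s =>
    ((hasDerivAt_ex 1 s).const_mul _).congr_deriv (by
      rw [Complex.ofReal_one]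
      ring)) fun j => ⟨‖(2 * Real.pi * Complex.I) ^ j‖, fun s => by
        rw [norm_mul, norm_ex, mul_one]⟩
  simpa only [pow_zero, one_mul] using h

/-- the integrand -/
noncomputable def G_Wh (j : ℕ) (y s : ℝ) : ℂ :=
  (Wt s : ℂ) * (Complex.I * s) ^ j * Complex.exp (Complex.I * (s : ℂ) * (y : ℂ))

lemma norm_G_Wh (j : ℕ) (y s : ℝ) : ‖G_Wh j y s‖ = Wt s * |s| ^ j := by
  rw [G_Wh, mul_assoc Complex.I, ← Complex.ofReal_mul, norm_mul, Complex.norm_exp_I_mul_ofReal,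
    mul_one, norm_mul, norm_pow, norm_mul, Complex.norm_I, one_mul, Complex.norm_real,
    Complex.norm_real, Real.norm_of_nonneg (Wt_nonneg s), Real.norm_eq_abs]

lemma cont_G_Wh (j : ℕ) (y : ℝ) : Continuous (G_Wh j y) := by
  have := continuous_Wt
  unfold G_Wh
  fun_prop

lemma int_Wh (j : ℕ) : Integrable fun s : ℝ => Wt s * |s| ^ j :=
  (continuous_Wt.mul (continuous_abs.pow j)).integrable_of_hasCompactSupport
    hasCompactSupport_Wt.mul_right

lemma der_G_Wh (j : ℕ) (y s : ℝ) : HasDerivAt (fun y => G_Wh j y s) (G_Wh (j + 1) y s) y := by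
  have h1 : HasDerivAt (fun y : ℝ => (y : ℂ)) 1 y := Complex.ofRealCLM.hasDerivAt
  refine (((h1.const_mul (Complex.I * s)).cexp).const_mul
    ((Wt s : ℂ) * (Complex.I * s) ^ j)).congr_deriv ?_
  rw [G_Wh]
  ring

lemma whb_Wh : Bdd wh := by
  have h := bdd_Wh (fun j y => ∫ s, G_Wh j y s) (fun j y =>
    (hasDerivAt_integral_of_dominated_loc_of_deriv_le (F := G_Wh j) (F' := G_Wh (j + 1))
      (s := Set.univ) Filter.univ_mem
      (.of_forall fun x => (cont_G_Wh j x).aestronglyMeasurable)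
      ((int_Wh j).mono' (cont_G_Wh j y).aestronglyMeasurable
        (.of_forall fun s => (norm_G_Wh j y s).le))
      (cont_G_Wh (j + 1) y).aestronglyMeasurable
      (.of_forall fun s x _ => (norm_G_Wh (j + 1) x s).le) (int_Wh (j + 1))
      (.of_forall fun s x _ => der_G_Wh j x s)).2)
    fun j => ⟨∫ s : ℝ, Wt s * |s| ^ j, fun y => by
      refine (norm_integral_le_integral_norm _).trans (le_of_eq ?_)
      simp only [norm_G_Wh]⟩
  have e : (fun y => ∫ s, G_Wh 0 y s) = wh := by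
    funext y
    simp only [G_Wh, pow_zero, mul_one, wh]
  rwa [e] at h

theorem wh_stmt (h : F1Stmt) : WhStmt := by
  refine ⟨ex_Wh, whb_Wh, fun A => ?_⟩
  obtain ⟨C, hC, h1⟩ := (h (fun s => (Wt s : ℂ)) (Complex.ofRealCLM.contDiff.comp contDiff_Wt)
    (hasCompactSupport_Wt.comp_left (g := fun t : ℝ => (t : ℂ)) Complex.ofReal_zero)).2.1 A
  have hπ : 1 ≤ 2 * Real.pi := by linarith [Real.two_le_pi]
  refine ⟨C * (2 * Real.pi) ^ A, by positivity, fun s => ?_⟩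
  have e : wh s = FT1 (fun s => (Wt s : ℂ)) (-(s / (2 * Real.pi))) := by
    unfold wh FT1 ex
    refine integral_congr_ae (.of_forall fun z => ?_)
    have e1 : 2 * Real.pi * -(-(s / (2 * Real.pi)) * z) = z * s := by field_simp
    simp only [e1, Complex.ofReal_mul, mul_assoc]
  rw [e]
  refine (h1 _).trans ?_
  rw [div_le_div_iff₀ (by positivity) (by positivity), mul_assoc, ← mul_pow, abs_neg, abs_div,
    abs_of_pos (by positivity : 0 < 2 * Real.pi), mul_add, mul_div_cancel₀ _ (by positivity)]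
  gcongr
  linarith

end Pool.Agent.MP_c853c5_nt.W

end
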