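import Pool.Agent.MP_c853c5_nt.S.Defs
import Pool.Agent.Mg.C853.G277bf8
import Pool.Agent.Mg.C853.Ga580b9
import Pool.Agent.MP_c853c5_nt.S.Basic
import Pool.Agent.MP_c853c5_nt.E.Basic
import Pool.Agent.Mg.C853.G342b30
import Pool.Agent.Mg.C853.G6aba3f
import Pool.Agent.MP_c853c5_nt.S.Defs2

section

/-!
The steps from the dyadic type I and type II bounds to the sifted leaves.
-/

set_option autoImplicit false

open Finset Filter

namespace Pool.Agent.MP_c853c5_nt.B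

open Pool.Agent.MP_c853c5_nt.S

/-- the constant function one on the positive integers -/
noncomputable def zt : AF := (ArithmeticFunction.zeta : ArithmeticFunction ℝ)

/-- the part of `g` in `[2 ^ i, 2 ^ (i + 1))` -/
noncomputable def dy (i : ℕ) (g : AF) : AF :=
  ⟨fun n => if 2 ^ i ≤ n ∧ n < 2 * 2 ^ i then g n else 0, by simp⟩

/-- the primes in `(x ^ κ, x ^ z]` -/
noncomputable def pz (x κ z : ℝ) : AF := prI ⌊x ^ κ⌋₊ ⌊x ^ z⌋₊

/-- the total weight of the window -/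
def ZetaStmt : Prop := ∃ C : ℝ, 0 < C ∧ ∀ Y D : ℝ, 0 < Y → 0 < D → D ≤ 1 →
  |SS Y D zt - Y| ≤ C * (Y * D + 1 / D)

/-- numbers divisible by a large square -/
def BadStmt : Prop := ∀ t κ : ℝ, t < 1 / 2 → 0 < κ → ∃ δ : ℝ, 0 < δ ∧ ∀ᶠ x : ℝ in atTop,
  ∀ (Δ : ℝ) (f : AF), x ^ (-t) ≤ Δ → Δ ≤ 1 →
    (∀ n : ℕ, (n : ℝ) ≤ 2 * x → |f n| ≤ x ^ δ) →
    (∀ n : ℕ, (n : ℝ) ≤ 2 * x → f n ≠ 0 → ∃ p : ℕ, x ^ κ < p ∧ p ^ 2 ∣ n) →
    |SS x Δ f| ≤ x ^ (1 - δ)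

/-- type I for a dyadic box times sieve weights times the free variable -/
def TIStmt : Prop := ∀ (ι : Type) [Fintype ι] (τ t η C : ℝ) (K : ℕ), 1 / 3 ≤ t → t < τ →
  τ ≤ 1 / 2 → 0 < η → η ≤ 1 / 1000 → 1 ≤ C → ∀ᶠ x : ℝ in atTop,
    ∀ (a : ι → ℝ) (b : ℝ) (N : ι → ℕ) (g : ι → AF) (lam : AF),
      (∀ i, 0 ≤ a i ∧ a i ≤ 1) → b ≤ 1 → E1pt τ η K a b → (∀ i, Slot (N i) (g i)) →
      (∀ i, (N i : ℝ) ≤ C * x ^ a i) → x ^ b * ∏ i, (N i : ℝ) ≤ C * x →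
      x ≤ C * (x ^ b * ∏ i, (N i : ℝ)) → (∀ d, |lam d| ≤ 1) →
      (∀ d : ℕ, lam d ≠ 0 → (d : ℝ) ≤ x ^ min (η / 20) ((τ - t) / 4)) →
      |Dl t x ((∏ i, g i) * (lam * zt))| ≤ x ^ (1 - η / 10)

/-- type II for a dyadic box times a free bounded factor -/
def T2Stmt : Prop := ∀ (ι : Type) [Fintype ι] (τ t η C : ℝ) (K A : ℕ), 1 / 3 ≤ t → t < τ →
  τ ≤ 1 / 2 → 0 < η → 1 ≤ C → ∀ᶠ x : ℝ in atTop,
    ∀ (pr : ι → Prop) (a : ι → ℝ) (b : ℝ) (N : ι → ℕ) (g : ι → AF) (h : AF),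
      (∀ i, 0 ≤ a i ∧ a i ≤ 1) → 0 ≤ b → b ≤ 1 →
      E2pt τ η K (fun o : Option ι => o.elim False pr) (fun o => o.elim b a) →
      (∀ i, Slot (N i) (g i)) → (∀ i, x ^ a i ≤ C * N i ∧ (N i : ℝ) ≤ C * x ^ a i) →
      (∀ i, pr i → ∃ P Q : ℕ, g i = prI P Q) → x ^ b * ∏ i, (N i : ℝ) ≤ C * x →
      x ≤ C * (x ^ b * ∏ i, (N i : ℝ)) → (∀ d, |h d| ≤ 1) →
      |Dl t x ((∏ i, g i) * h)| ≤ x / Real.log x ^ A

/-- the long sum of the error of the fundamental lemma -/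
def MassStmt : Prop := ∀ ε : ℝ, 0 < ε → ∀ᶠ x : ℝ in atTop, ∀ (G e : AF) (D : ℕ) (w μ : ℝ),
  0 ≤ w → (∀ m, 0 ≤ G m) → (∀ m : ℕ, G m ≠ 0 → (m : ℝ) ≤ x ^ (19 / 20 : ℝ)) →
    ∑ m ∈ Icc 1 ⌊2 * x⌋₊, G m / m ≤ μ → (∀ d, |e d| ≤ 1) → (∀ d, e d ≠ 0 → d ≤ D) →
    (D : ℝ) ≤ x ^ (1 / 20000 : ℝ) → ∑ d ∈ Icc 1 D, e d / d ≤ w / Real.log x →
    SB x (G * (e * zt)) ≤ μ * (w + ε) * (x / Real.log x)

/-- rough numbers have bounded logarithmic mass -/
def LMStmt : Prop := ∃ M : ℝ, 1 ≤ M ∧ L.LM (fun x => bf x (fr (1 / 100))) M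

/-- the body of `DustOK` for `j` small primes -/
def DustAt {r : ℕ} (τ η η' κ z : ℝ) (K : ℕ) (B : Fin r → Blk) (j : ℕ) : Prop :=
  ∀ (a : Fin r → ℝ) (q : Fin j → ℝ) (b : ℝ), InBox B a → (∀ i, κ ≤ q i ∧ q i ≤ z) →
    0 ≤ b → ∑ i, a i + ∑ i, q i + b = 1 →
    E1pt τ η K (Sum.elim a q) b ∨
      E2pt τ η' K
        (fun o : Option (Fin r ⊕ Fin j) =>
          o.elim False (Sum.elim (fun i => (B i).IsP) fun _ => True))
        (fun o => o.elim b (Sum.elim a q))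

/-- one term of the inclusion-exclusion -/
def TermStmt : Prop := ∃ M : ℝ, 1 ≤ M ∧ ∀ (τ t η η' κ z ε : ℝ) (K r j i : ℕ) (B : Fin r → Blk),
  1 / 3 ≤ t → t < τ → τ ≤ 1 / 2 → 0 < η → η ≤ 1 / 1000 → 0 < η' → 0 < κ → κ ≤ z → 0 < ε →
  13 ≤ i → κ * (4 * i + 6) ≤ min (η / 20) ((τ - t) / 4) → (∀ l, 1 / 100 ≤ (B l).a) →
  DustAt τ η η' κ z K B j → ∀ᶠ x : ℝ in atTop,
    |Dl t x ((∏ l, bf x (B l)) * (pz x κ z ^ j * bf x (fr κ)))| ≤
      (M ^ r * Real.log (z / κ) ^ j * (2 ^ 27 / 4 ^ i / κ) + ε) * (x / Real.log x)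

end Pool.Agent.MP_c853c5_nt.B

end

section

/-!
Type II leaves from the dyadic type II bound.
-/

set_option autoImplicit false

open Finset Filter

namespace Pool.Agent.MP_c853c5_nt.S.L2

open Pool.Agent.MP_c853c5_nt.B

lemma dy_apply (i : ℕ) (g : AF) (n : ℕ) :
    dy i g n = if 2 ^ i ≤ n ∧ n < 2 * 2 ^ i then g n else 0 := rfl

lemma dy_ne {i : ℕ} {g : AF} {n : ℕ} (h : dy i g n ≠ 0) :
    (2 ^ i ≤ n ∧ n < 2 * 2 ^ i) ∧ g n ≠ 0 := by
  rw [dy_apply] at h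
  split_ifs at h with h1
  · exact ⟨h1, h⟩
  · exact (h rfl).elim

lemma slot_dy (i : ℕ) {g : AF} (hg : ∀ n, |g n| ≤ 1) : Slot (2 ^ i) (dy i g) := by
  refine ⟨Nat.one_le_two_pow, fun n => ?_, fun n h => (dy_ne h).1⟩
  rw [dy_apply]
  split_ifs
  · exact hg n
  · simp

lemma sum_dy (g : AF) {L n : ℕ} (hn : n < 2 ^ L) : (∑ i ∈ range L, dy i g) n = g n := by
  rw [AF_sum]
  rcases Nat.eq_zero_or_pos n with rfl | h0
  · simp
  have h1 : Nat.log 2 n < L := (Nat.log_lt_iff_lt_pow one_lt_two h0.ne').2 hn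
  rw [sum_eq_single (Nat.log 2 n) (fun i _ hi => ?_) fun h => (h (mem_range.2 h1)).elim]
  · rw [dy_apply, if_pos ⟨Nat.pow_log_le_self 2 h0.ne', by
      rw [← pow_succ']
      exact Nat.lt_pow_succ_log_self one_lt_two n⟩]
  · rw [dy_apply, if_neg]
    rintro ⟨a, b⟩
    exact hi (Nat.log_eq_of_pow_le_of_lt_pow a (by rwa [pow_succ'])).symm

lemma prod_congr_lt {ι : Type} (s : Finset ι) {f g : ι → AF} {X : ℕ}
    (h : ∀ i ∈ s, ∀ n, n < X → f i n = g i n) :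
    ∀ n, n < X → (∏ i ∈ s, f i) n = (∏ i ∈ s, g i) n := by
  classical
  induction s using Finset.induction_on with
  | empty => intro n _; rfl
  | insert i s hi ih =>
    intro n hn
    rw [prod_insert hi, prod_insert hi, ArithmeticFunction.mul_apply,
      ArithmeticFunction.mul_apply]
    refine sum_congr rfl fun a ha => ?_
    rw [h i (mem_insert_self _ _) _ ((Nat.divisor_le
        (Nat.fst_mem_divisors_of_mem_antidiagonal ha)).trans_lt hn),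
      ih (fun j hj => h j (mem_insert_of_mem hj)) _ ((Nat.divisor_le
        (Nat.snd_mem_divisors_of_mem_antidiagonal ha)).trans_lt hn)]

/-- the dyadic decomposition of a product -/
lemma prod_dy {ι : Type} [Fintype ι] [DecidableEq ι] (g : ι → AF) {L n : ℕ} (hn : n < 2 ^ L) :
    (∏ i, g i) n = (∑ k ∈ Fintype.piFinset fun _ : ι => range L, ∏ i, dy (k i) (g i)) n := by
  rw [← prod_univ_sum (fun _ : ι => range L) fun i k => dy k (g i)]
  exact prod_congr_lt _ (fun i _ m hm => (sum_dy (g i) hm).symm) n hn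

lemma proj_down {ι : Type} [Fintype ι] {l α : ι → ℝ} {s : ℝ} (h : ∀ i, l i ≤ α i)
    (h1 : ∑ i, l i ≤ s) (h2 : s ≤ ∑ i, α i) :
    ∃ a : ι → ℝ, ∑ i, a i = s ∧ ∀ i, l i ≤ a i ∧ a i ≤ α i ∧ α i - a i ≤ ∑ i, α i - s := by
  have key : ∀ a : ι → ℝ, ∑ i, a i = s → (∀ i, a i ≤ α i) →
      ∀ i, α i - a i ≤ ∑ i, α i - s := by
    intro a ha hb i
    rw [← ha, ← sum_sub_distrib]
    exact single_le_sum (f := fun i => α i - a i) (fun j _ => sub_nonneg.2 (hb j)) (mem_univ i)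
  rcases (h1.trans h2).eq_or_lt with e | e
  · have e1 : ∑ i, α i = s := le_antisymm (e ▸ h1) h2
    exact ⟨α, e1, fun i => ⟨h i, le_rfl, key α e1 (fun _ => le_rfl) i⟩⟩
  · set c := (s - ∑ i, l i) / (∑ i, α i - ∑ i, l i) with hc
    have c0 : 0 ≤ c := div_nonneg (by linarith) (by linarith)
    have c1 : c ≤ 1 := (div_le_one (by linarith)).2 (by linarith)
    have e1 : ∑ i, (l i + c * (α i - l i)) = s := by
      rw [sum_add_distrib, ← mul_sum, sum_sub_distrib, hc, div_mul_cancel₀ _ (by linarith)]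
      ring
    have e2 : ∀ i, l i + c * (α i - l i) ≤ α i := fun i => by nlinarith [h i]
    exact ⟨_, e1, fun i => ⟨by nlinarith [h i], e2 i, key _ e1 e2 i⟩⟩

/-- projection of a point of a box to a hyperplane that meets the box -/
lemma proj {ι : Type} [Fintype ι] {l u α : ι → ℝ} {s : ℝ} (h : ∀ i, l i ≤ α i ∧ α i ≤ u i)
    (h1 : ∑ i, l i ≤ s) (h2 : s ≤ ∑ i, u i) :
    ∃ a : ι → ℝ, ∑ i, a i = s ∧ ∀ i, l i ≤ a i ∧ a i ≤ u i ∧ |α i - a i| ≤ |∑ i, α i - s| := by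
  rcases le_total s (∑ i, α i) with e | e
  · obtain ⟨a, a1, a2⟩ := proj_down (fun i => (h i).1) h1 e
    refine ⟨a, a1, fun i => ⟨(a2 i).1, (a2 i).2.1.trans (h i).2, ?_⟩⟩
    rw [abs_of_nonneg (sub_nonneg.2 (a2 i).2.1), abs_of_nonneg (sub_nonneg.2 e)]
    exact (a2 i).2.2
  · obtain ⟨a, a1, a2⟩ := proj_down (l := fun i => -u i) (α := fun i => -α i) (s := -s)
      (fun i => neg_le_neg (h i).2) (by rw [sum_neg_distrib]; linarith)
      (by rw [sum_neg_distrib]; linarith)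
    refine ⟨fun i => -a i, by rw [sum_neg_distrib]; linarith, fun i => ?_⟩
    obtain ⟨b1, b2, b3⟩ := a2 i
    rw [sum_neg_distrib] at b3
    refine ⟨by linarith [(h i).1], by linarith, ?_⟩
    rw [abs_of_nonpos (by linarith), abs_of_nonpos (by linarith)]
    linarith

lemma dy_prI (i P Q : ℕ) : dy i (prI P Q) = prI (max P (2 ^ i - 1)) (min Q (2 * 2 ^ i - 1)) := by
  ext n
  rw [dy_apply]
  change (if _ then (if _ then (1 : ℝ) else 0) else 0) = if _ then (1 : ℝ) else 0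
  have h : 1 ≤ 2 ^ i := Nat.one_le_two_pow
  rw [← ite_and]
  refine if_congr ?_ rfl rfl
  rw [max_lt_iff, le_min_iff]
  constructor
  · rintro ⟨⟨a, b⟩, c, d, e⟩
    exact ⟨⟨c, by omega⟩, ⟨d, by omega⟩, e⟩
  · rintro ⟨⟨a, b⟩, ⟨c, d⟩, e⟩
    exact ⟨⟨by omega, by omega⟩, a, c, e⟩

lemma ev_const_le (c : ℝ) {δ : ℝ} (hδ : 0 < δ) : ∀ᶠ x : ℝ in atTop, c ≤ x ^ δ :=
  (tendsto_rpow_atTop hδ).eventually_ge_atTop c

/-- a nominal point in the closed box with total size one -/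
lemma nominal {ι : Type} [Fintype ι] (l u : ι → ℝ) : ∀ᶠ x : ℝ in atTop, ∀ m : ι → ℝ,
    (∀ i, x ^ l i ≤ m i ∧ m i ≤ x ^ u i) → x / 2 < ∏ i, m i → ∏ i, m i ≤ 2 * x →
    ∃ a : ι → ℝ, ∑ i, a i = 1 ∧
      ∀ i, l i ≤ a i ∧ a i ≤ u i ∧ x ^ a i ≤ 2 * m i ∧ m i ≤ 2 * x ^ a i := by
  have e1 : ∀ᶠ x : ℝ in atTop, 1 < ∑ i, l i → 3 ≤ x ^ (∑ i, l i - 1) := by
    by_cases h : 1 < ∑ i, l i
    · exact (ev_const_le 3 (sub_pos.2 h)).mono fun _ h _ => h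
    · exact Eventually.of_forall fun _ h' => (h h').elim
  have e2 : ∀ᶠ x : ℝ in atTop, ∑ i, u i < 1 → 2 ≤ x ^ (1 - ∑ i, u i) := by
    by_cases h : ∑ i, u i < 1
    · exact (ev_const_le 2 (sub_pos.2 h)).mono fun _ h _ => h
    · exact Eventually.of_forall fun _ h' => (h h').elim
  filter_upwards [e1, e2, eventually_gt_atTop 1] with x e1 e2 hx m hm h1 h2
  have x0 : 0 < x := by linarith
  have lx := Real.log_pos hx
  have m0 : ∀ i, 0 < m i := fun i => (Real.rpow_pos_of_pos x0 _).trans_le (hm i).1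
  have hl : ∑ i, l i ≤ 1 := by
    by_contra h
    have a1 := e1 (not_le.1 h)
    have a2 : x ^ (∑ i, l i) ≤ ∏ i, m i := by
      rw [Real.rpow_sum_of_pos x0]
      exact prod_le_prod (fun i _ => (Real.rpow_pos_of_pos x0 _).le) fun i _ => (hm i).1
    rw [Real.rpow_sub_one x0.ne', le_div_iff₀ x0] at a1
    linarith
  have hu : 1 ≤ ∑ i, u i := by
    by_contra h
    have a1 := e2 (not_le.1 h)
    have a2 : ∏ i, m i ≤ x ^ (∑ i, u i) := by
      rw [Real.rpow_sum_of_pos x0]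
      exact prod_le_prod (fun i _ => (m0 i).le) fun i _ => (hm i).2
    rw [Real.rpow_sub x0, Real.rpow_one, le_div_iff₀ (Real.rpow_pos_of_pos x0 _)] at a1
    linarith
  obtain ⟨a, a1, a2⟩ := proj (l := l) (u := u) (α := fun i => Real.logb x (m i)) (s := 1)
    (fun i => ⟨(Real.le_logb_iff_rpow_le hx (m0 i)).2 (hm i).1,
      (Real.logb_le_iff_le_rpow hx (m0 i)).2 (hm i).2⟩) hl hu
  have p0 : 0 < ∏ i, m i := prod_pos fun i _ => m0 i
  have a3 : |∑ i, Real.logb x (m i) - 1| ≤ Real.logb x 2 := by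
    rw [← Real.logb_prod _ _ fun i _ => (m0 i).ne']
    have b1 := Real.logb_le_logb_of_le hx p0 h2
    have b2 := Real.logb_le_logb_of_le hx (half_pos x0) h1.le
    rw [Real.logb_mul two_ne_zero x0.ne', Real.logb_self_eq_one hx] at b1
    rw [Real.logb_div x0.ne' two_ne_zero, Real.logb_self_eq_one hx] at b2
    exact abs_le.2 ⟨by linarith, by linarith⟩
  refine ⟨a, a1, fun i => ?_⟩
  obtain ⟨b1, b2, b3⟩ := a2 i
  obtain ⟨b4, b5⟩ := abs_le.1 (b3.trans a3)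
  have b6 := Real.rpow_logb x0 hx.ne' (m0 i)
  have b7 := Real.rpow_logb x0 hx.ne' two_pos
  refine ⟨b1, b2, ?_, ?_⟩
  · calc x ^ a i ≤ x ^ (Real.logb x 2 + Real.logb x (m i)) :=
          Real.rpow_le_rpow_of_exponent_le hx.le (by linarith)
      _ = _ := by rw [Real.rpow_add x0, b6, b7]
  · calc m i = x ^ Real.logb x (m i) := b6.symm
      _ ≤ x ^ (Real.logb x 2 + a i) := Real.rpow_le_rpow_of_exponent_le hx.le (by linarith)
      _ = _ := by rw [Real.rpow_add x0, b7]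

lemma bf_prime {B : Blk} (hB : B.IsP) {x : ℝ} (hx : 1 ≤ x) :
    bf x B = prI (max ⌊x ^ B.lo⌋₊ ⌊x ^ B.a⌋₊) ⌊x ^ B.hi⌋₊ := by
  ext n
  have x0 : ∀ c : ℝ, 0 ≤ x ^ c := fun c => Real.rpow_nonneg (by linarith) c
  have h : B.Mem x n ↔ max ⌊x ^ B.lo⌋₊ ⌊x ^ B.a⌋₊ < n ∧ n ≤ ⌊x ^ B.hi⌋₊ ∧ n.Prime := by
    rw [hB.mem_iff hx, max_lt_iff, Nat.floor_lt (x0 _), Nat.floor_lt (x0 _),
      Nat.le_floor_iff (x0 _)]
    tauto
  change _ = if _ then (1 : ℝ) else 0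
  split_ifs with h1
  · exact bf_of_mem (h.2 h1)
  · exact bf_of_not fun h2 => h1 (h.1 h2)

/-- the number of dyadic ranges -/
lemma ev_len : ∀ᶠ x : ℝ in atTop, ∃ L : ℕ, (L : ℝ) ≤ 3 * Real.log x ∧ 2 * x < 2 ^ L := by
  filter_upwards [eventually_gt_atTop 1, Real.tendsto_log_atTop.eventually_ge_atTop 4]
    with x hx hl
  refine ⟨⌊2 * Real.log x⌋₊ + 1, ?_, ?_⟩
  · push_cast
    linarith [Nat.floor_le (show 0 ≤ 2 * Real.log x by linarith)]
  · have h1 := Nat.lt_floor_add_one (2 * Real.log x)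
    have h2 := Real.log_two_gt_d9
    have h3 := Real.log_two_lt_d9
    rw [← Real.log_lt_log_iff (by linarith) (by positivity), Real.log_pow,
      Real.log_mul two_ne_zero (by linarith)]
    push_cast
    nlinarith

end L2

open L2 B in
theorem leaf2 (h : E2D) : Leaf2 := by
  intro τ t h1 h2 h3 r B ⟨η, hη, K, hB⟩
  obtain ⟨γ, hγ, hE⟩ := h (Fin r) τ t η K (r + 2) h1 h2 h3 hη
  rw [ev_iff]
  intro ε hε
  filter_upwards [hE, nominal (fun i => max 0 (B i).lo) fun i => (B i).hi, ev_const_le 4 hγ,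
    ev_len, eventually_gt_atTop 1, Real.tendsto_log_atTop.eventually_ge_atTop (3 ^ r / ε)]
    with x hE hN h4 ⟨L, hL, hL'⟩ hx hl
  have x0 : 0 < x := by linarith
  have lx := Real.log_pos hx
  have cell : ∀ k : Fin r → ℕ,
      |Dl t x (∏ i, dy (k i) (bf x (B i)))| ≤ x / Real.log x ^ (r + 2) := by
    intro k
    by_cases hz : ∀ n, Win x n → (∏ i, dy (k i) (bf x (B i))) n = (0 : AF) n
    · rw [Dl_congr t hz, Dl_zero, abs_zero]
      positivity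
    push Not at hz
    obtain ⟨n, hn, hz⟩ := hz
    obtain ⟨m, hm, hm'⟩ := exists_of_prod_ne univ _ hz
    have d1 := fun i => (dy_ne (hm' i (mem_univ i))).1
    have d2 := fun i => mem_of_bf_ne (dy_ne (hm' i (mem_univ i))).2
    have d3 : ∏ i, (m i : ℝ) = n := by rw [← hm, Nat.cast_prod]
    have d4 : ∀ i, ((2 ^ k i : ℕ) : ℝ) ≤ m i := fun i => by exact_mod_cast (d1 i).1
    have d5 : ∀ i, (m i : ℝ) ≤ 2 * ((2 ^ k i : ℕ) : ℝ) := fun i => by exact_mod_cast (d1 i).2.le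
    have d6 : ∀ i, x ^ max 0 (B i).lo ≤ m i := fun i => by
      rcases max_choice 0 (B i).lo with e | e
      · rw [e, Real.rpow_zero]
        exact_mod_cast Nat.one_le_iff_ne_zero.2 (d2 i).1
      · rw [e]
        exact (d2 i).2.1.le
    obtain ⟨a, a1, a2⟩ := hN (fun i => (m i : ℝ)) (fun i => ⟨d6 i, (d2 i).2.2.1⟩)
      (d3 ▸ hn.1) (d3 ▸ hn.2)
    have a0 : ∀ i, 0 ≤ a i := fun i => (le_max_left _ _).trans (a2 i).1
    refine hE (fun i => (B i).IsP) a (fun i => 2 ^ k i) _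
      (fun i => ⟨a0 i, a1 ▸ single_le_sum (fun j _ => a0 j) (mem_univ i)⟩)
      (hB a (fun i => ⟨a0 i, (le_max_right _ _).trans (a2 i).1, (a2 i).2.1⟩) a1)
      (fun i => slot_dy _ (abs_bf_le _ _)) (fun i => ⟨?_, ?_⟩)
      (fun i hi => ⟨_, _, by rw [bf_prime hi hx.le, dy_prI]⟩) ?_
    · rw [Real.rpow_sub x0, div_le_iff₀ (by positivity)]
      have : (0 : ℝ) ≤ ((2 ^ k i : ℕ) : ℝ) := Nat.cast_nonneg _
      nlinarith [(a2 i).2.2.1, d5 i]
    · rw [Real.rpow_add x0]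
      nlinarith [(a2 i).2.2.2, d4 i, Real.rpow_pos_of_pos x0 (a i)]
    · exact (prod_le_prod (fun i _ => Nat.cast_nonneg _) fun i _ => d4 i).trans (d3 ▸ hn.2)
  rw [Dl_congr t fun n hn => prod_dy (fun i => bf x (B i)) (L := L) (by
    exact_mod_cast hn.2.trans_lt hL'), Dl_sum]
  refine (abs_sum_le_sum_abs _ _).trans ((sum_le_card_nsmul _ _ _ fun k _ => cell k).trans ?_)
  rw [nsmul_eq_mul, Fintype.card_piFinset, prod_const, card_range, card_univ, Fintype.card_fin,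
    Nat.cast_pow]
  rw [div_le_iff₀ hε] at hl
  calc (L : ℝ) ^ r * (x / Real.log x ^ (r + 2))
      ≤ (3 * Real.log x) ^ r * (x / Real.log x ^ (r + 2)) := by gcongr
    _ = 3 ^ r / Real.log x * (x / Real.log x) := by
        rw [mul_pow]
        field_simp
        ring
    _ ≤ _ := by
        refine mul_le_mul_of_nonneg_right ?_ (by positivity)
        rw [div_le_iff₀ lx]
        linarith

end Pool.Agent.MP_c853c5_nt.S

end

section

set_option autoImplicit false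

open Finset Filter

namespace Pool.Agent.MP_c853c5_nt.D

open Pool.Agent.MP_c853c5_nt.S Pool.Agent.MP_2a1f0e_nt

/-- the scales of the smooth partition -/
noncomputable def yk_T1 (k : ℕ) : ℝ := 3 / 4 * (4 / 3) ^ k

lemma yk_pos_T1 (k : ℕ) : 0 < yk_T1 k := by
  unfold yk_T1
  positivity

lemma tel_T1 {l : ℝ} (hl : 1 ≤ l) {n : ℕ} (h : l ≤ yk_T1 n) :
    ∑ k ∈ range n, DH.om (l / yk_T1 k) = 1 := by
  have e : ∀ k, DH.om (l / yk_T1 k) = DH.psi (l / yk_T1 (k + 1)) - DH.psi (l / yk_T1 k) := by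
    intro k
    unfold DH.om
    congr 2
    unfold yk_T1
    rw [pow_succ]
    field_simp
  rw [sum_congr rfl fun k _ => e k, sum_range_sub fun k => DH.psi (l / yk_T1 k),
    DH.psi_eq_one ((div_le_one (yk_pos_T1 n)).2 h), DH.psi_eq_zero, sub_zero]
  rw [le_div_iff₀ (yk_pos_T1 0)]
  unfold yk_T1
  linarith [pow_zero (4 / 3 : ℝ)]

lemma zt_T1 {l n : ℕ} (h : (l : ℝ) ≤ yk_T1 n) : zt l = (∑ k ∈ range n, omz (yk_T1 k)) l := by
  rcases Nat.eq_zero_or_pos l with rfl | hl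
  · simp
  · rw [AF_sum]
    refine Eq.trans ?_ (tel_T1 (by exact_mod_cast hl) h).symm
    simp [zt, ArithmeticFunction.natCoe_apply, ArithmeticFunction.zeta_apply, hl.ne']

lemma lam_T1 {lam : AF} {D : ℕ} (h : ∀ d, lam d ≠ 0 → d ≤ D) :
    lam = ∑ d ∈ Icc 1 D, lam d • sgl d := by
  ext n
  rw [AF_sum]
  by_cases hn : lam n = 0
  · rw [hn]
    refine (sum_eq_zero fun d _ => ?_).symm
    rw [AF_smul]
    by_cases e : n = d
    · rw [← e, hn, zero_mul]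
    · simp [sgl, e]
  · have h0 : n ≠ 0 := fun e => hn (by simp [e])
    rw [sum_eq_single_of_mem n (mem_Icc.2 ⟨Nat.pos_of_ne_zero h0, h n hn⟩)]
    · simp [sgl, h0]
    · intro d _ e
      simp [sgl, e.symm]

lemma exp_T1 (t : ℝ) {x : ℝ} (G lam : AF) {D n : ℕ} (h : ∀ d, lam d ≠ 0 → d ≤ D)
    (hn : 2 * x ≤ yk_T1 n) : Dl t x (G * (lam * zt)) =
      ∑ d ∈ Icc 1 D, ∑ k ∈ range n, lam d * Dl t x (sgl d * G * omz (yk_T1 k)) := by
  have h1 : Dl t x (G * (lam * zt)) = Dl t x (G * lam * ∑ k ∈ range n, omz (yk_T1 k)) := by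
    rw [← mul_assoc]
    refine Dl_congr t fun m hm => B.mul_apply_congr _ fun d hd => zt_T1 ?_
    have h0 : 0 < m := by
      rcases Nat.eq_zero_or_pos m with rfl | h0
      · have h2 := hm.1
        have h3 := hm.2
        simp only [Nat.cast_zero] at h2 h3
        linarith
      · exact h0
    have h4 : (d : ℝ) ≤ m := by exact_mod_cast Nat.le_of_dvd h0 hd
    linarith [hm.2]
  have h2 : G * lam * ∑ k ∈ range n, omz (yk_T1 k) =
      ∑ d ∈ Icc 1 D, ∑ k ∈ range n, lam d • (sgl d * G * omz (yk_T1 k)) := by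
    conv_lhs => rw [lam_T1 h]
    rw [mul_sum (Icc 1 D), sum_mul]
    refine sum_congr rfl fun d _ => ?_
    rw [mul_sum]
    refine sum_congr rfl fun k _ => ?_
    rw [mul_smul_comm, smul_mul_assoc, mul_comm G]
  rw [h1, h2, Dl_sum]
  refine sum_congr rfl fun d _ => ?_
  rw [Dl_sum]
  exact sum_congr rfl fun k _ => Dl_smul _ _ _ _

lemma big_T1 {x : ℝ} (hx : 3 ≤ x) : 2 * x ≤ yk_T1 ⌈8 * Real.log x⌉₊ := by
  have h1 : Real.exp (1 / 4) ≤ 4 / 3 := by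
    have h2 := Real.add_one_le_exp (-(1 / 4))
    rw [Real.exp_neg, le_inv_comm₀ (by norm_num) (Real.exp_pos _)] at h2
    exact h2.trans (by norm_num)
  have h2 : Real.exp (1 / 4) ^ ⌈8 * Real.log x⌉₊ ≤ (4 / 3) ^ ⌈8 * Real.log x⌉₊ :=
    pow_le_pow_left₀ (Real.exp_pos _).le h1 _
  have h3 : x * x ≤ Real.exp (1 / 4) ^ ⌈8 * Real.log x⌉₊ := by
    rw [← Real.exp_nat_mul]
    calc x * x = Real.exp (Real.log x + Real.log x) := by
          rw [Real.exp_add, Real.exp_log (by linarith)]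
      _ ≤ _ := Real.exp_le_exp.2 (by linarith [Nat.le_ceil (8 * Real.log x)])
  unfold yk_T1
  nlinarith

lemma van_T1 (hV : VanStmt) {ι : Type} [Fintype ι] {t x y : ℝ} {g : ι → AF} {d : ℕ} (hx : 0 < x)
    (hy : 0 < y) (h : Dl t x (sgl d * (∏ i, g i) * omz y) ≠ 0) :
    ∃ (m : ι → ℕ) (l : ℝ), (∀ i, g i (m i) ≠ 0) ∧ y ≤ l ∧ l ≤ 2 * y ∧
      x / 2 < (∏ i, (m i : ℝ)) * (d * l) ∧ (∏ i, (m i : ℝ)) * (d * l) ≤ 2 * x := by
  have e : sgl d * (∏ i, g i) * omz y = (∏ i, g i) * (sgl d * omz y) := by ring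
  obtain ⟨Δ, hΔ⟩ : ∃ Δ, SS x Δ ((∏ i, g i) * (sgl d * omz y)) ≠ 0 := by
    by_contra k
    push Not at k
    exact h (by rw [e, Dl, SB, k, k, sub_zero])
  obtain ⟨m, l, h1, h2, h3, h4⟩ := hV ι x Δ g _ hx hΔ
  obtain ⟨u, w, rfl, h5, h6⟩ := exists_of_mul_ne h2
  have h7 : u = d := by
    by_contra k
    exact h5 (by simp [sgl, k])
  have h8 : ¬((w : ℝ) / y ≤ 1 ∨ 5 / 3 ≤ (w : ℝ) / y) := fun k => h6 (DH.om_eq_zero k)
  rw [not_or, not_le, not_le, one_lt_div hy, div_lt_iff₀ hy] at h8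
  rw [h7, Nat.cast_mul] at h3 h4
  exact ⟨m, w, h1, h8.1.le, by linarith [h8.2], h3, h4⟩

lemma prod_T1 {ι : Type} [Fintype ι] {x : ℝ} (hx : 0 < x) (a : ι → ℝ) (c : ℝ) :
    ∏ i, x ^ (a i + c) = x ^ (∑ i, a i + Fintype.card ι * c) := by
  rw [← Real.rpow_sum_of_pos hx, sum_add_distrib, sum_const, card_univ, nsmul_eq_mul]

theorem dT1 (hV : VanStmt) : T1Stmt := by
  intro hE ι _ τ t η K ht htτ hτ hη hη'
  obtain ⟨γ₀, h0, hE⟩ := hE ι τ t η K ht htτ hτ hη hη'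
  set k := Fintype.card ι with hk
  have hm : 0 < min γ₀ ((τ - t) / 8) := lt_min h0 (by linarith)
  set γ := min γ₀ ((τ - t) / 8) / (2 * (k + 1)) with hγ
  have g0 : 0 < γ := by positivity
  have g1 : (k + 1 : ℝ) * γ = min γ₀ ((τ - t) / 8) / 2 := by
    rw [hγ]
    field_simp
  have k0 : (0 : ℝ) ≤ k * γ := by positivity
  have g2 : (k : ℝ) * γ + γ ≤ γ₀ / 2 := by linarith [min_le_left γ₀ ((τ - t) / 8)]
  have g3 : (k : ℝ) * γ + γ ≤ (τ - t) / 16 := by linarith [min_le_right γ₀ ((τ - t) / 8)]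
  refine ⟨γ, g0, ?_⟩
  filter_upwards [hE, eventually_ge_atTop 3,
    (tendsto_rpow_atTop (half_pos h0)).eventually_ge_atTop 2,
    (tendsto_rpow_atTop (show 0 < (τ - t) / 8 by linarith)).eventually_ge_atTop (4 * 2 ^ k),
    (isLittleO_log_rpow_atTop (show 0 < η / 20 by linarith)).bound
      (show (0 : ℝ) < 1 / 9 by norm_num)] with x hE x3 e1 e2 e3
  intro a b N g lam ha hab h1 hS hN hl hd
  have x0 : 0 < x := by linarith
  have x1 : 1 ≤ x := by linarith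
  have hb := h1.1
  have s0 : 0 ≤ ∑ i, a i := sum_nonneg fun i _ => ha i
  have hlog : 1 ≤ Real.log x := by
    rw [Real.le_log_iff_exp_le x0]
    linarith [Real.exp_one_lt_d9]
  have hterm : ∀ d ∈ Icc 1 ⌊x ^ lev τ t η⌋₊, ∀ y : ℝ, 0 < y →
      |Dl t x (sgl d * (∏ i, g i) * omz y)| ≤ x ^ (1 - η / 5) := by
    intro d hd' y hy
    by_cases hz : Dl t x (sgl d * (∏ i, g i) * omz y) = 0
    · rw [hz, abs_zero]
      positivity
    obtain ⟨m, l, m1, l1, l2, w1, w2⟩ := van_T1 hV x0 hy hz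
    obtain ⟨d1, d2⟩ := mem_Icc.1 hd'
    have d3 : (1 : ℝ) ≤ d := by exact_mod_cast d1
    have d4 : (d : ℝ) ≤ x ^ ((τ - t) / 4) :=
      ((Nat.le_floor_iff (by positivity)).1 d2).trans
        (Real.rpow_le_rpow_of_exponent_le x1 (min_le_right _ _))
    have p1 : ∏ i, (N i : ℝ) ≤ ∏ i, (m i : ℝ) :=
      prod_le_prod (fun i _ => by positivity) fun i _ => by
        exact_mod_cast ((hS i).2.2 _ (m1 i)).1
    have p2 : x ^ (∑ i, a i + k * -γ) ≤ ∏ i, (N i : ℝ) := by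
      rw [← prod_T1 x0]
      exact prod_le_prod (fun i _ => by positivity) fun i _ => by
        rw [← sub_eq_add_neg]
        exact (hN i).1
    have p3 : ∏ i, (m i : ℝ) ≤ 2 ^ k * x ^ (∑ i, a i + k * γ) := by
      rw [← prod_T1 x0, hk, ← card_univ, ← prod_const, ← prod_mul_distrib]
      refine prod_le_prod (fun i _ => by positivity) fun i _ => ?_
      have : (m i : ℝ) ≤ 2 * N i := by exact_mod_cast ((hS i).2.2 _ (m1 i)).2.le
      linarith [(hN i).2]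
    have n0 : (0 : ℝ) ≤ ∏ i, (N i : ℝ) := by positivity
    have q1 : (d : ℝ) * (∏ i, (N i : ℝ)) * y ≤ 2 * x := by
      calc (d : ℝ) * (∏ i, (N i : ℝ)) * y = (∏ i, (N i : ℝ)) * (d * y) := by ring
        _ ≤ (∏ i, (m i : ℝ)) * (d * l) := by gcongr
        _ ≤ _ := w2
    have q2 : y ≤ x ^ (b + γ₀) := by
      refine le_of_mul_le_mul_left ?_ (Real.rpow_pos_of_pos x0 (∑ i, a i + k * -γ))
      calc x ^ (∑ i, a i + k * -γ) * y ≤ (d : ℝ) * (∏ i, (N i : ℝ)) * y := by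
            gcongr
            exact p2.trans (le_mul_of_one_le_left n0 d3)
        _ ≤ x ^ (γ₀ / 2) * x ^ (1 : ℝ) := by
            rw [Real.rpow_one]
            exact q1.trans (by gcongr)
        _ ≤ _ := by
            rw [← Real.rpow_add x0, ← Real.rpow_add x0]
            exact Real.rpow_le_rpow_of_exponent_le x1 (by linarith)
    have q3 : x ^ (b - (τ - t) / 2) ≤ y := by
      refine le_of_mul_le_mul_left ?_
        (Real.rpow_pos_of_pos x0 ((τ - t) / 8 + (∑ i, a i + k * γ) + (τ - t) / 4))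
      calc _ ≤ x ^ (1 : ℝ) := by
            rw [← Real.rpow_add x0]
            exact Real.rpow_le_rpow_of_exponent_le x1 (by linarith)
        _ ≤ 2 * ((∏ i, (m i : ℝ)) * (d * l)) := by
            rw [Real.rpow_one]
            linarith
        _ ≤ 2 * ((2 ^ k * x ^ (∑ i, a i + k * γ)) * (x ^ ((τ - t) / 4) * (2 * y))) := by
            have : 0 ≤ l := by linarith
            gcongr
        _ = (4 * 2 ^ k) * x ^ (∑ i, a i + k * γ) * x ^ ((τ - t) / 4) * y := by ring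
        _ ≤ _ := by
            rw [Real.rpow_add x0 _ ((τ - t) / 4), Real.rpow_add x0 ((τ - t) / 8)]
            gcongr
    refine hE a b N g d y (fun i => ⟨ha i, ?_⟩) (by linarith) h1 hS (fun i => (hN i).2.trans
      (Real.rpow_le_rpow_of_exponent_le x1 (by linarith))) q3 q2
      ((Real.one_le_rpow x1 (by linarith)).trans q3) d1 q1
    linarith [single_le_sum (fun i _ => ha i) (mem_univ i)]
  rw [exp_T1 t _ lam (fun d h => Nat.le_floor (hd d h)) (big_T1 x3)]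
  have c1 : (⌊x ^ lev τ t η⌋₊ : ℝ) ≤ x ^ (η / 20) :=
    (Nat.floor_le (by positivity)).trans (Real.rpow_le_rpow_of_exponent_le x1 (min_le_left _ _))
  have c2 : (⌈8 * Real.log x⌉₊ : ℝ) ≤ x ^ (η / 20) := by
    rw [Real.norm_of_nonneg (by linarith), Real.norm_of_nonneg (by positivity)] at e3
    linarith [Nat.ceil_lt_add_one (show 0 ≤ 8 * Real.log x by linarith)]
  calc _ ≤ ∑ d ∈ Icc 1 ⌊x ^ lev τ t η⌋₊, ∑ j ∈ range ⌈8 * Real.log x⌉₊, x ^ (1 - η / 5) := by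
        refine (abs_sum_le_sum_abs _ _).trans (sum_le_sum fun d hd' =>
          (abs_sum_le_sum_abs _ _).trans (sum_le_sum fun j _ => ?_))
        rw [abs_mul]
        exact (mul_le_of_le_one_left (abs_nonneg _) (hl d)).trans (hterm d hd' _ (yk_pos_T1 j))
    _ = (⌊x ^ lev τ t η⌋₊ : ℝ) * (⌈8 * Real.log x⌉₊ * x ^ (1 - η / 5)) := by simp
    _ ≤ x ^ (η / 20) * (x ^ (η / 20) * x ^ (1 - η / 5)) := by gcongr
    _ = _ := by
        rw [← Real.rpow_add x0, ← Real.rpow_add x0]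
        congr 1
        ring

end Pool.Agent.MP_c853c5_nt.D

end

section

/-!
Type I sums with a rough last factor.
-/

set_option autoImplicit false

open Finset Filter

namespace Pool.Agent.MP_c853c5_nt.D

open Pool.Agent.MP_c853c5_nt.S

lemma supp_T1R {f g : AF} {A B : ℝ} (hf : ∀ n, f n ≠ 0 → (n : ℝ) ≤ A)
    (hg : ∀ n, g n ≠ 0 → (n : ℝ) ≤ B) (hA : 0 ≤ A) (n : ℕ) (h : (f * g) n ≠ 0) :
    (n : ℝ) ≤ A * B := by
  obtain ⟨a, b, rfl, h1, h2⟩ := exists_of_mul_ne h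
  rw [Nat.cast_mul]
  exact mul_le_mul (hf a h1) (hg b h2) (Nat.cast_nonneg _) hA

lemma mul_T1R {w : ℕ → ℝ} (hw : ∀ a b, w (a * b) = w a * w b) {f g : AF} {A B : ℝ} {X : ℕ}
    (hf : ∀ n, f n ≠ 0 → (n : ℝ) ≤ A) (hg : ∀ n, g n ≠ 0 → (n : ℝ) ≤ B) (hA : 0 ≤ A)
    (h : A * B ≤ X) : ∑ m ∈ Icc 1 X, (f * g) m * w m =
      (∑ m ∈ Icc 1 X, f m * w m) * ∑ m ∈ Icc 1 X, g m * w m := by
  obtain ⟨f', hf'⟩ : ∃ f' : AF, ∀ n, f' n = f n * w n :=
    ⟨⟨fun n => f n * w n, by simp⟩, fun _ => rfl⟩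
  obtain ⟨g', hg'⟩ : ∃ g' : AF, ∀ n, g' n = g n * w n :=
    ⟨⟨fun n => g n * w n, by simp⟩, fun _ => rfl⟩
  have e : ∀ m, (f * g) m * w m = (f' * g') m := fun m => by
    rw [ArithmeticFunction.mul_apply, ArithmeticFunction.mul_apply, sum_mul]
    refine sum_congr rfl fun p hp => ?_
    rw [hf', hg', ← (Nat.mem_divisorsAntidiagonal.1 hp).1, hw]
    ring
  have i : Icc 1 X = Ioc 0 X := rfl
  simp only [e, ← hf', ← hg']
  rw [i, ArithmeticFunction.sum_Ioc_mul_eq_sum_prod_filter, sum_mul_sum, ← sum_product']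
  refine sum_filter_of_ne fun p _ hp => ?_
  have h1 := hf p.1 (left_ne_zero_of_mul (hf' _ ▸ left_ne_zero_of_mul hp))
  have h2 := hg p.2 (left_ne_zero_of_mul (hg' _ ▸ right_ne_zero_of_mul hp))
  have h3 := (mul_le_mul h1 h2 (Nat.cast_nonneg _) hA).trans h
  exact_mod_cast h3

lemma psupp_T1R {ι : Type} (s : Finset ι) {g : ι → AF} {A : ι → ℝ}
    (hg : ∀ i n, g i n ≠ 0 → (n : ℝ) ≤ A i) (n : ℕ) (h : (∏ i ∈ s, g i) n ≠ 0) :
    (n : ℝ) ≤ ∏ i ∈ s, A i := by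
  classical
  obtain ⟨m, rfl, h1⟩ := exists_of_prod_ne s g h
  rw [Nat.cast_prod]
  exact prod_le_prod (fun i _ => Nat.cast_nonneg _) fun i hi => hg i _ (h1 i hi)

lemma prod_T1R {w : ℕ → ℝ} (hw : ∀ a b, w (a * b) = w a * w b) (h1 : w 1 = 1) {ι : Type}
    (s : Finset ι) {g : ι → AF} {A : ι → ℝ} {X : ℕ} (hA : ∀ i, 1 ≤ A i)
    (hg : ∀ i n, g i n ≠ 0 → (n : ℝ) ≤ A i) (h : ∏ i ∈ s, A i ≤ X) :
    ∑ m ∈ Icc 1 X, (∏ i ∈ s, g i) m * w m = ∏ i ∈ s, ∑ m ∈ Icc 1 X, g i m * w m := by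
  classical
  induction s using Finset.induction_on with
  | empty =>
    rw [prod_empty] at h
    rw [prod_empty, prod_empty, sum_eq_single_of_mem 1 (mem_Icc.2 ⟨le_rfl, by exact_mod_cast h⟩)
      fun m _ hm => by rw [ArithmeticFunction.one_apply_ne hm, zero_mul]]
    simp [h1]
  | insert a s ha ih =>
    rw [prod_insert ha] at h
    have h2 : 0 ≤ ∏ i ∈ s, A i := prod_nonneg fun i _ => zero_le_one.trans (hA i)
    rw [prod_insert ha, prod_insert ha, mul_T1R hw (hg a) (psupp_T1R s hg)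
      (zero_le_one.trans (hA a)) h, ih ((le_mul_of_one_le_left h2 (hA a)).trans h)]

lemma l1_T1R {f : ℕ → ℝ} {A : ℝ} (X : ℕ) (hA : 0 ≤ A) (h1 : ∀ n, f n ≤ 1)
    (hf : ∀ n, f n ≠ 0 → (n : ℝ) ≤ A) : ∑ m ∈ Icc 1 X, f m * 1 ≤ A := by
  classical
  simp only [mul_one]
  rw [← sum_filter_ne_zero]
  refine (sum_le_card_nsmul _ _ 1 fun m _ => h1 m).trans ?_
  have h2 : (filter (fun m => f m ≠ 0) (Icc 1 X)).card ≤ (Icc 1 ⌊A⌋₊).card :=
    card_le_card fun m hm =>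
      mem_Icc.2 ⟨(mem_Icc.1 (mem_filter.1 hm).1).1, Nat.le_floor (hf m (mem_filter.1 hm).2)⟩
  rw [Nat.card_Icc, Nat.add_sub_cancel] at h2
  rw [nsmul_eq_mul, mul_one]
  exact le_trans (by exact_mod_cast h2) (Nat.floor_le hA)

/-- the long sum of the error term -/
lemma long_T1R {ι : Type} [Fintype ι] {g : ι → AF} {A : ι → ℝ} {gap : AF} {B U : ℝ} {X : ℕ}
    (hA : ∀ i, 1 ≤ A i) (hB : 1 ≤ B) (g0 : ∀ i n, 0 ≤ g i n) (g1 : ∀ i n, |g i n| ≤ 1)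
    (hg : ∀ i n, g i n ≠ 0 → (n : ℝ) ≤ A i) (h1 : ∀ n, |gap n| ≤ 1)
    (h2 : ∀ n, gap n ≠ 0 → (n : ℝ) ≤ B) (h : (∏ i, A i) * B ≤ X) (hU : ms X gap ≤ U) :
    ms X ((∏ i, g i) * gap) ≤ (∏ i, ms X (g i)) * U ∧
      ∑ m ∈ Icc 1 X, |((∏ i, g i) * gap) m| ≤ (∏ i, A i) * B := by
  have a0 : 0 ≤ ∏ i, A i := prod_nonneg fun i _ => zero_le_one.trans (hA i)
  have a1 : ∏ i, A i ≤ X := (le_mul_of_one_le_right a0 hB).trans h
  constructor
  · have hw : ∀ a b : ℕ, (((a * b : ℕ) : ℝ))⁻¹ = (a : ℝ)⁻¹ * (b : ℝ)⁻¹ := fun a b => by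
      rw [Nat.cast_mul, mul_inv]
    simp only [ms, div_eq_mul_inv] at hU ⊢
    rw [mul_T1R (w := fun m => (m : ℝ)⁻¹) hw (psupp_T1R univ hg) h2 a0 h,
      prod_T1R (w := fun m => (m : ℝ)⁻¹) hw (by simp) univ hA hg a1]
    exact mul_le_mul_of_nonneg_left hU (prod_nonneg fun i _ => sum_nonneg fun m _ =>
      mul_nonneg (g0 i m) (by positivity))
  · obtain ⟨G, hG⟩ : ∃ G : AF, ∀ n, G n = |gap n| := ⟨⟨fun n => |gap n|, by simp⟩, fun _ => rfl⟩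
    have h3 : ∀ n, G n ≠ 0 → (n : ℝ) ≤ B := fun n hn => h2 n (abs_ne_zero.1 (hG n ▸ hn))
    have n0 : Nn (∏ i, g i) := Nn.prod fun i _ => g0 i
    calc _ ≤ ∑ m ∈ Icc 1 X, ((∏ i, g i) * G) m * 1 := sum_le_sum fun m _ => by
          rw [mul_one]
          exact abs_mul_le (fun n => (abs_of_nonneg (n0 n)).le) (fun n => (hG n).ge) m
      _ = (∏ i, ∑ m ∈ Icc 1 X, g i m * 1) * ∑ m ∈ Icc 1 X, G m * 1 := by
          rw [mul_T1R (w := fun _ => 1) (by simp) (psupp_T1R univ hg) h3 a0 h,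
            prod_T1R (w := fun _ => 1) (by simp) rfl univ hA hg a1]
      _ ≤ _ := mul_le_mul (prod_le_prod (fun i _ => sum_nonneg fun m _ => by simpa using g0 i m)
          fun i _ => l1_T1R X (zero_le_one.trans (hA i)) (fun n => (abs_le.1 (g1 i n)).2) (hg i))
          (l1_T1R X (zero_le_one.trans hB) (fun n => (hG n).trans_le (h1 n)) h3)
          (sum_nonneg fun m _ => by rw [hG]; positivity) a0

lemma bf_T1R {x κ : ℝ} (hx : 2 ≤ x) {d : ℕ} (h1 : d ≠ 0) (h2 : (d : ℝ) ≤ 2 * x) :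
    bf x (fr κ) d = Z.rgh ⌊x ^ κ⌋₊ d := by
  have e : Rough x κ d ↔ ∀ p : ℕ, p.Prime → p ∣ d → ⌊x ^ κ⌋₊ < p :=
    forall₃_congr fun p _ _ => (Nat.floor_lt (by positivity)).symm
  have e2 : (fr κ).Mem x d ↔ Rough x κ d := by
    rw [mem_fr (by linarith), Real.rpow_two]
    exact ⟨fun h => h.2.2, fun h => ⟨h1, by nlinarith, h⟩⟩
  unfold Z.rgh
  split_ifs with h
  · exact bf_of_mem (e2.2 (e.2 h))
  · exact bf_of_not fun k => h (e.1 (e2.1 k))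

/-- the sieve weights as arithmetic functions -/
lemma sieve_T1R {x κ l : ℝ} {w : ℕ} (hx : 2 ≤ x) (hw : 13 ≤ w) (hκ : 0 < κ) (h2 : 2 ≤ x ^ κ)
    (hl : κ * (4 * w + 6) ≤ l) {X : ℕ} (hX : x ^ l ≤ X) : ∃ up gap : AF,
    (∀ d, |up d| ≤ 1) ∧ (∀ d, |gap d| ≤ 1) ∧ (∀ d, up d ≠ 0 → (d : ℝ) ≤ x ^ l) ∧
    (∀ d, gap d ≠ 0 → (d : ℝ) ≤ x ^ l) ∧
    (∀ d : ℕ, d ≠ 0 → (d : ℝ) ≤ 2 * x → bf x (fr κ) d ≤ (up * zt) d ∧
      (up * zt) d ≤ bf x (fr κ) d + (gap * zt) d) ∧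
    ms X gap ≤ 2 ^ 26 / 4 ^ w / κ / Real.log x := by
  have hz : 2 ≤ ⌊x ^ κ⌋₊ := Nat.le_floor (by exact_mod_cast h2)
  obtain ⟨u, v, a1, a2, a3, a4, -⟩ := Z.fl_all w _ hw hz
  have u0 : u 0 = 0 := by_contra fun h => not_squarefree_zero (a2 0 (Or.inl h)).1
  have v0 : v 0 = 0 := by_contra fun h => not_squarefree_zero (a2 0 (Or.inr h)).1
  obtain ⟨u, rfl⟩ : ∃ U : AF, ⇑U = u := ⟨⟨u, u0⟩, rfl⟩
  obtain ⟨v, rfl⟩ : ∃ U : AF, ⇑U = v := ⟨⟨v, v0⟩, rfl⟩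
  have hx0 : 0 < x := by linarith
  have b1 : ((⌊x ^ κ⌋₊ ^ (4 * w + 6) : ℕ) : ℝ) ≤ x ^ l := by
    rw [Nat.cast_pow]
    refine (pow_le_pow_left₀ (Nat.cast_nonneg _) (Nat.floor_le (by positivity)) _).trans ?_
    rw [← Real.rpow_mul_natCast hx0.le]
    refine Real.rpow_le_rpow_of_exponent_le (by linarith) ?_
    push_cast
    exact hl
  have b2 : ∀ d, u d ≠ 0 ∨ v d ≠ 0 → (d : ℝ) ≤ x ^ l := fun d h =>
    le_trans (by exact_mod_cast (a2 d h).2.1) b1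
  refine ⟨u, v, fun d => (a1 d).1, fun d => (a1 d).2, fun d h => b2 d (Or.inl h),
    fun d h => b2 d (Or.inr h), fun d h1 h3 => ?_, ?_⟩
  · rw [bf_T1R hx h1 h3, zt, ArithmeticFunction.coe_mul_zeta_apply,
      ArithmeticFunction.coe_mul_zeta_apply]
    exact a3 d (Nat.one_le_iff_ne_zero.2 h1)
  · have b3 : ⌊x ^ κ⌋₊ ^ (4 * w + 6) ≤ X := by exact_mod_cast b1.trans hX
    have e : ms X v = ∑ d ∈ Icc 1 (⌊x ^ κ⌋₊ ^ (4 * w + 6)), v d / d := by
      refine (sum_subset (Icc_subset_Icc_right b3) fun d hd hn => ?_).symm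
      have : v d = 0 := by_contra fun h =>
        hn (mem_Icc.2 ⟨(mem_Icc.1 hd).1, (a2 d (Or.inr h)).2.1⟩)
      rw [this, zero_div]
    rw [e]
    refine a4.trans ?_
    have c1 : (2 : ℝ) ≤ ⌊x ^ κ⌋₊ := by exact_mod_cast hz
    have c2 := Nat.lt_floor_add_one (x ^ κ)
    have c3 : κ * Real.log x ≤ 2 * Real.log ⌊x ^ κ⌋₊ := by
      rw [← Real.log_rpow hx0, ← Nat.cast_ofNat, ← Real.log_pow]
      exact Real.log_le_log (by positivity) (by nlinarith)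
    have c4 : 0 < Real.log x := Real.log_pos (by linarith)
    have c5 : 0 < κ * Real.log x / 2 := by positivity
    calc _ ≤ 2 ^ 25 / 4 ^ w / (κ * Real.log x / 2) :=
          div_le_div_of_nonneg_left (by positivity) c5 (by linarith)
      _ = _ := by
          field_simp

theorem dT1R : T1RStmt := by
  intro hT hS hE ι _ τ t η κ K w h1 h2 h3 h4 h5 hw hκ hl
  obtain ⟨γ₁, hγ₁, hT⟩ := hT hE ι τ t η K h1 h2 h3 h4 h5
  obtain ⟨C, hC, hS⟩ := hS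
  obtain ⟨γ, hγ, g1, g2⟩ : ∃ γ : ℝ, 0 < γ ∧ γ ≤ γ₁ ∧ Fintype.card ι * γ ≤ 1 / 100 := by
    refine ⟨min γ₁ (1 / (100 * (Fintype.card ι + 1))), lt_min hγ₁ (by positivity),
      min_le_left _ _, (mul_le_mul_of_nonneg_left (min_le_right _ _) (Nat.cast_nonneg _)).trans ?_⟩
    rw [mul_one_div, div_le_div_iff₀ (by positivity) (by norm_num)]
    linarith
  have l0 : 0 ≤ lev τ t η := le_trans (by positivity) hl
  have l1 : lev τ t η ≤ η / 20 := min_le_left _ _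
  refine ⟨γ, hγ, ?_⟩
  filter_upwards [hT, eventually_ge_atTop 2, (tendsto_rpow_atTop hγ).eventually_ge_atTop 2,
    (tendsto_rpow_atTop hκ).eventually_ge_atTop 2,
    (tendsto_rpow_atTop (show 0 < η / 20 by positivity)).eventually_ge_atTop (2 + 2 * C)]
    with x hT x2 xγ xκ xη
  intro a b N g ha hab hE hg hN g0
  have x1 : 1 ≤ x := by linarith
  have x0 : 0 < x := by linarith
  have hN' : Near x γ₁ a N := fun i =>
    ⟨(Real.rpow_le_rpow_of_exponent_le x1 (by linarith)).trans (hN i).1,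
      (hN i).2.trans (Real.rpow_le_rpow_of_exponent_le x1 (by linarith))⟩
  have s1 : ∀ i n, g i n ≠ 0 → (n : ℝ) ≤ x ^ (a i + γ + γ) := fun i n hn => by
    have k : (n : ℝ) ≤ N i * 2 := by exact_mod_cast (mul_comm 2 (N i) ▸ ((hg i).2.2 n hn).2).le
    rw [Real.rpow_add x0]
    exact k.trans (mul_le_mul (hN i).2 xγ (by norm_num) (by positivity))
  have s2 : (∏ i, x ^ (a i + γ + γ)) * x ^ lev τ t η ≤ x ^ (19 / 20 : ℝ) := by
    rw [← Real.rpow_sum_of_pos x0, ← Real.rpow_add x0]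
    refine Real.rpow_le_rpow_of_exponent_le x1 ?_
    rw [sum_add_distrib, sum_add_distrib, sum_const, card_univ, nsmul_eq_mul]
    linarith [hE.1]
  have s3 : ∀ e : ℝ, e ≤ 1 → x ^ e ≤ ⌊2 * x⌋₊ := fun e he => by
    have k := Real.rpow_le_rpow_of_exponent_le x1 he
    rw [Real.rpow_one] at k
    linarith [Nat.lt_floor_add_one (2 * x)]
  obtain ⟨up, gap, u1, v1, u2, v2, pt, hm⟩ := sieve_T1R x2 hw hκ xκ hl (s3 _ (by linarith))
  obtain ⟨m1, m2⟩ := long_T1R (fun i => Real.one_le_rpow x1 (by linarith [ha i]))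
    (Real.one_le_rpow x1 l0) g0 (fun i => (hg i).2.1) s1 v1 v2 (s2.trans (s3 _ (by norm_num))) hm
  have n0 : Nn (∏ i, g i) := Nn.prod fun i _ => g0 i
  have d0 := abs_Dl_le t x0.le (f := (∏ i, g i) * bf x (fr κ)) (g := (∏ i, g i) * (up * zt))
    (e := (∏ i, g i) * (gap * zt)) fun n hn => by
      have n1 : 0 < n := by
        have : (0 : ℝ) < n := by linarith [hn.1]
        exact_mod_cast this
      have k : ∀ d, d ∣ n → d ≠ 0 ∧ (d : ℝ) ≤ 2 * x := fun d hd =>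
        ⟨(Nat.pos_of_dvd_of_pos hd n1).ne', le_trans (by exact_mod_cast Nat.le_of_dvd n1 hd) hn.2⟩
      have k1 := B.mul_apply_mono (g := bf x (fr κ)) (g' := up * zt) n0
        fun d hd => (pt d (k d hd).1 (k d hd).2).1
      have k2 := B.mul_apply_mono (g := up * zt) (g' := bf x (fr κ) + gap * zt) n0
        fun d hd => (pt d (k d hd).1 (k d hd).2).2
      rw [mul_add, ArithmeticFunction.add_apply] at k2
      rw [abs_of_nonpos (by linarith)]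
      linarith
  have d1 := hT a b N g up ha hab hE hg hN' u1 u2
  have d2 := hT a b N g gap ha hab hE hg hN' v1 v2
  obtain ⟨c, c0, c2, hc⟩ := hS x (x ^ (-(1 / 1000) : ℝ)) x1 (by positivity)
    (Real.rpow_le_one_of_one_le_of_nonpos x1 (by norm_num))
  have d3 := (abs_le.1 (hc ((∏ i, g i) * gap))).2
  rw [mul_assoc (∏ i, g i)] at d3
  have P0 : 0 ≤ ∏ i, ms ⌊2 * x⌋₊ (g i) := prod_nonneg fun i _ => sum_nonneg fun m _ =>
    div_nonneg (g0 i m) (Nat.cast_nonneg _)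
  have L0 : 0 < Real.log x := Real.log_pos (by linarith)
  have d4 : c * x * ms ⌊2 * x⌋₊ ((∏ i, g i) * gap) ≤
      2 * x * ((∏ i, ms ⌊2 * x⌋₊ (g i)) * (2 ^ 26 / 4 ^ w / κ / Real.log x)) :=
    (mul_le_mul_of_nonneg_left m1 (by positivity)).trans (by gcongr)
  have d5 : C / x ^ (-(1 / 1000) : ℝ) * ∑ m ∈ Icc 1 ⌊2 * x⌋₊, |((∏ i, g i) * gap) m| ≤
      C * x ^ (1 - η / 10) := by
    refine (mul_le_mul_of_nonneg_left (m2.trans s2) (by positivity)).trans ?_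
    rw [Real.rpow_neg x0.le, div_inv_eq_mul, mul_assoc, ← Real.rpow_add x0]
    exact mul_le_mul_of_nonneg_left (Real.rpow_le_rpow_of_exponent_le x1 (by linarith)) hC.le
  have d6 : (2 + 2 * C) * x ^ (1 - η / 10) ≤ x ^ (1 - η / 20) := by
    rw [show 1 - η / 20 = η / 20 + (1 - η / 10) by ring, Real.rpow_add x0]
    exact mul_le_mul_of_nonneg_right xη (by positivity)
  have d7 : 2 * (2 * x * ((∏ i, ms ⌊2 * x⌋₊ (g i)) * (2 ^ 26 / 4 ^ w / κ / Real.log x))) =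
      2 ^ 28 / 4 ^ w / κ * (∏ i, ms ⌊2 * x⌋₊ (g i)) * (x / Real.log x) := by ring
  unfold SB at d0
  linarith

end Pool.Agent.MP_c853c5_nt.D

end

section

set_option autoImplicit false

open Finset Filter

namespace Pool.Agent.MP_c853c5_nt.D

open Pool.Agent.MP_c853c5_nt.S

lemma lev_T2 {x : ℝ} (hx : 1 < x) (h : 4 ≤ Real.log x) :
    ∃ L : ℕ, 2 * x < 2 ^ L ∧ (L : ℝ) ≤ Real.log x ^ 2 := by
  have h0 : ⌊2 * x⌋₊ ≠ 0 := (Nat.floor_pos.2 (by linarith)).ne'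
  refine ⟨Nat.log 2 ⌊2 * x⌋₊ + 1, ?_, ?_⟩
  · have h1 : ⌊2 * x⌋₊ + 1 ≤ 2 ^ (Nat.log 2 ⌊2 * x⌋₊ + 1) :=
      Nat.lt_pow_succ_log_self (by norm_num) _
    refine (Nat.lt_floor_add_one _).trans_le ?_
    exact_mod_cast h1
  · have h1 : ((2 ^ Nat.log 2 ⌊2 * x⌋₊ : ℕ) : ℝ) ≤ 2 * x :=
      (Nat.cast_le.2 (Nat.pow_log_le_self 2 h0)).trans (Nat.floor_le (by linarith))
    have h2 := Real.log_le_log (by positivity) h1
    rw [Nat.cast_pow, Real.log_pow, Real.log_mul (by norm_num) (by linarith), Nat.cast_ofNat] at h2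
    have h3 := Real.log_two_gt_d9
    have h4 := Real.log_two_lt_d9
    have h5 : (0 : ℝ) ≤ Nat.log 2 ⌊2 * x⌋₊ := Nat.cast_nonneg _
    push_cast
    nlinarith

lemma exp_T2 (hD : DyStmt) (t : ℝ) {x : ℝ} {L : ℕ} (hx : 0 < x) (hL : 2 * x < 2 ^ L) (f h : AF) :
    Dl t x (f * h) = ∑ e : Unit → Fin L, Dl t x (f * dy (2 ^ (e () : ℕ)) h) := by
  have k : ∀ Δ, SS x Δ (f * h) = ∑ e : Unit → Fin L, SS x Δ (f * dy (2 ^ (e () : ℕ)) h) := by
    intro Δ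
    have := hD.1 Unit x Δ L (fun _ => h) f hx hL
    simpa only [Fintype.prod_unique, mul_comm _ f] using this
  simp only [Dl, SB, k, sum_sub_distrib]

lemma slot_T2 {h : AF} (hh : ∀ n, |h n| ≤ 1) {M : ℕ} (hM : 1 ≤ M) : Slot M (dy M h) := by
  refine ⟨hM, fun n => ?_, fun n hn => ?_⟩
  · change |if M ≤ n ∧ n < 2 * M then h n else 0| ≤ 1
    split_ifs
    · exact hh n
    · simp
  · by_contra k
    exact hn (if_neg k)

lemma size_T2 {ι : Type} [Fintype ι] {x γ γ₀ b : ℝ} {a : ι → ℝ} {N m : ι → ℕ} {M l : ℕ}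
    (hx : 1 < x) (hs : ∑ i, a i + b = 1) (hN : Near x γ a N)
    (hγ : (Fintype.card ι : ℝ) * γ ≤ γ₀ / 2) (hc : 4 * 2 ^ Fintype.card ι ≤ x ^ (γ₀ / 2))
    (hm : ∀ i, N i ≤ m i ∧ m i < 2 * N i) (hl : M ≤ l ∧ l < 2 * M)
    (h1 : x / 2 < (∏ i, (m i : ℝ)) * l) (h2 : (∏ i, (m i : ℝ)) * l ≤ 2 * x) :
    (x ^ (b - γ₀) ≤ M ∧ (M : ℝ) ≤ x ^ (b + γ₀)) ∧ (M : ℝ) * ∏ i, (N i : ℝ) ≤ 2 * x := by
  have x0 : 0 < x := by linarith
  have l1 : (M : ℝ) ≤ l := by exact_mod_cast hl.1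
  have l2 : (l : ℝ) ≤ 2 * M := by exact_mod_cast hl.2.le
  have M0 : (0 : ℝ) ≤ M := Nat.cast_nonneg _
  have p0 : 0 ≤ ∏ i, (N i : ℝ) := by positivity
  have p1 : ∏ i, (N i : ℝ) ≤ ∏ i, (m i : ℝ) :=
    prod_le_prod (fun _ _ => Nat.cast_nonneg _) fun i _ => by exact_mod_cast (hm i).1
  have p2 : ∏ i, (m i : ℝ) ≤ 2 ^ Fintype.card ι * ∏ i, (N i : ℝ) := by
    rw [← card_univ, ← prod_const, ← prod_mul_distrib]
    exact prod_le_prod (fun _ _ => Nat.cast_nonneg _) fun i _ => by exact_mod_cast (hm i).2.le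
  have p3 : x ^ (1 - b - γ₀ / 2) ≤ ∏ i, (N i : ℝ) := by
    refine le_trans ?_ (prod_le_prod (fun _ _ => by positivity) fun i _ => (hN i).1)
    rw [← Real.rpow_sum_of_pos x0, sum_sub_distrib, sum_const, card_univ, nsmul_eq_mul]
    exact Real.rpow_le_rpow_of_exponent_le hx.le (by linarith)
  have p4 : ∏ i, (N i : ℝ) ≤ x ^ (1 - b + γ₀ / 2) := by
    refine le_trans (prod_le_prod (fun _ _ => by positivity) fun i _ => (hN i).2) ?_
    rw [← Real.rpow_sum_of_pos x0, sum_add_distrib, sum_const, card_univ, nsmul_eq_mul]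
    exact Real.rpow_le_rpow_of_exponent_le hx.le (by linarith)
  have q : (M : ℝ) * ∏ i, (N i : ℝ) ≤ 2 * x := by
    refine le_trans ?_ h2
    rw [mul_comm]
    exact mul_le_mul p1 l1 M0 (p0.trans p1)
  have c1 : (1 : ℝ) ≤ 2 ^ Fintype.card ι := one_le_pow₀ (by norm_num)
  have e1 : x ^ (b + γ₀) * x ^ (1 - b - γ₀ / 2) = x ^ (γ₀ / 2) * x := by
    rw [← Real.rpow_add x0, ← Real.rpow_add_one x0.ne']
    congr 1
    ring
  have e2 : x ^ (b - γ₀) * (x ^ (γ₀ / 2) * x ^ (1 - b + γ₀ / 2)) = x := by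
    rw [← Real.rpow_add x0, ← Real.rpow_add x0,
      show b - γ₀ + (γ₀ / 2 + (1 - b + γ₀ / 2)) = 1 by ring, Real.rpow_one]
  refine ⟨⟨?_, ?_⟩, q⟩
  · refine le_of_mul_le_mul_right ?_
      (show 0 < x ^ (γ₀ / 2) * x ^ (1 - b + γ₀ / 2) by positivity)
    rw [e2]
    have r1 : (∏ i, (m i : ℝ)) * l ≤ 2 ^ Fintype.card ι * x ^ (1 - b + γ₀ / 2) * (2 * M) :=
      mul_le_mul (p2.trans (mul_le_mul_of_nonneg_left p4 (by positivity))) l2 (Nat.cast_nonneg _)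
        (by positivity)
    have r2 := mul_le_mul_of_nonneg_right hc
      (show 0 ≤ x ^ (1 - b + γ₀ / 2) * M by positivity)
    nlinarith
  · refine le_of_mul_le_mul_right ?_ (show 0 < x ^ (1 - b - γ₀ / 2) by positivity)
    rw [e1]
    have r1 := mul_le_mul_of_nonneg_left p3 M0
    nlinarith

theorem dT2 (hD : DyStmt) (hV : VanStmt) : T2Stmt := by
  intro hE ι _ τ t η K A h1 h2 h3 h4
  obtain ⟨γ₀, g0, hE⟩ := hE (Option ι) τ t η K (A + 2) h1 h2 h3 h4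
  have k0 : (0 : ℝ) ≤ Fintype.card ι := Nat.cast_nonneg _
  have g1 : (Fintype.card ι + 1 : ℝ) * (γ₀ / (2 * (Fintype.card ι + 1))) = γ₀ / 2 := by
    field_simp
  have g2 : 0 < γ₀ / (2 * (Fintype.card ι + 1)) := by positivity
  refine ⟨_, g2, ?_⟩
  generalize γ₀ / (2 * (Fintype.card ι + 1)) = γ at g1 g2
  filter_upwards [hE, eventually_gt_atTop 1, E.ev_le_log 4,
    E.ev_const_le (4 * 2 ^ Fintype.card ι) (half_pos g0)] with x hE hx hl hc
  intro pr a b N g h ha hb hs hP hg hN hp hh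
  have x0 : 0 < x := by linarith
  have l0 : 0 < Real.log x := by linarith
  obtain ⟨L, L1, L2⟩ := lev_T2 hx hl
  have s0 : 0 ≤ ∑ i, a i := sum_nonneg fun i _ => ha i
  have one : ∀ M : ℕ, 1 ≤ M → |Dl t x ((∏ i, g i) * dy M h)| ≤ x / Real.log x ^ (A + 2) := by
    intro M hM
    by_cases z : ∀ Δ, SS x Δ ((∏ i, g i) * dy M h) = 0
    · simp only [Dl, SB, z, sub_zero, abs_zero]
      positivity
    obtain ⟨Δ, z⟩ := not_forall.1 z
    obtain ⟨m, l, m1, m2, m3, m4⟩ := hV ι x Δ g _ x0 z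
    obtain ⟨b1, b2⟩ := size_T2 (γ₀ := γ₀) hx hs hN (by nlinarith) hc
      (fun i => (hg i).2.2 _ (m1 i)) ((slot_T2 hh hM).2.2 _ m2) m3 m4
    have key := hE (fun o : Option ι => o.elim False pr) (fun o => o.elim b a)
      (fun o => o.elim M N) (fun o => o.elim (dy M h) g) ?_ hP ?_ ?_ ?_ ?_
    · rwa [Fintype.prod_option, mul_comm] at key
    · rintro (_ | i)
      · exact ⟨hb, show b ≤ 1 by linarith⟩
      · have := single_le_sum (fun i _ => ha i) (mem_univ i)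
        exact ⟨ha i, show a i ≤ 1 by linarith⟩
    · rintro (_ | i)
      exacts [slot_T2 hh hM, hg i]
    · rintro (_ | i)
      · exact b1
      · have : γ ≤ γ₀ := by nlinarith
        exact ⟨(Real.rpow_le_rpow_of_exponent_le hx.le
            (show a i - γ₀ ≤ a i - γ by linarith)).trans (hN i).1,
          (hN i).2.trans (Real.rpow_le_rpow_of_exponent_le hx.le
            (show a i + γ ≤ a i + γ₀ by linarith))⟩
    · rintro (_ | i)
      exacts [False.elim, hp i]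
    · rw [Fintype.prod_option]
      exact b2
  rw [exp_T2 hD t x0 L1]
  refine (abs_sum_le_sum_abs _ _).trans ((sum_le_card_nsmul _ _ _ fun e _ =>
    one _ Nat.one_le_two_pow).trans ?_)
  rw [card_univ, Fintype.card_fun, Fintype.card_fin, Fintype.card_unit, pow_one, nsmul_eq_mul]
  refine (mul_le_mul_of_nonneg_right L2 (by positivity)).trans (le_of_eq ?_)
  field_simp
  ring

end Pool.Agent.MP_c853c5_nt.D

end

section

/-!
The main term of a smoothed sum with a free variable.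
-/

set_option autoImplicit false

open Finset Filter

namespace Pool.Agent.MP_c853c5_nt.D

open Pool.Agent.MP_c853c5_nt.S

lemma mono_SZ {f : ℝ → ℝ} {M : ℝ} (hf : Monotone f) (h0 : ∀ u, 0 ≤ f u) (h1 : ∀ u, f u ≤ M)
    (N : ℕ) : |∑ i ∈ range N, f ((i + 1 : ℕ) : ℝ) - ∫ u in (0 : ℝ)..N, f u| ≤ M := by
  have a1 := (hf.monotoneOn (Set.Icc (0 : ℝ) (0 + N))).sum_le_integral
  have a2 := (hf.monotoneOn (Set.Icc (0 : ℝ) (0 + N))).integral_le_sum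
  simp only [zero_add] at a1 a2
  have a3 := sum_range_succ' (fun i : ℕ => f i) N
  rw [sum_range_succ] at a3
  have := h0 ((0 : ℕ) : ℝ)
  have := h0 0
  have := h1 0
  have := h1 N
  rw [abs_le]
  constructor <;> linarith

lemma anti_SZ {Δ z w : ℝ} (h : 0 < Δ) (hz : |z| ≤ |w|) : Z.gg Δ w ≤ Z.gg Δ z := by
  unfold Z.gg
  have := sq_le_sq.2 hz
  have := Real.pi_pos
  gcongr

/-- the constant -/
noncomputable def cc_SZ (Δ : ℝ) : ℝ :=
  ∫ v in (-Real.log 2)..Real.log 2, Z.gg Δ (v - 0) * Real.exp v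

lemma cc_le_SZ {Δ : ℝ} (h : 0 < Δ) : 0 ≤ cc_SZ Δ ∧ cc_SZ Δ ≤ 2 := by
  have l2 : -Real.log 2 ≤ Real.log 2 := by linarith [Real.log_pos one_lt_two]
  refine ⟨intervalIntegral.integral_nonneg l2 fun v _ =>
    mul_nonneg (L.gg_nonneg h.le _) (Real.exp_pos v).le, ?_⟩
  have c1 : Continuous fun v => Z.gg Δ (v - 0) := by simpa using Z.cont_Sand Δ 0 1
  have a1 : cc_SZ Δ ≤ ∫ v in (-Real.log 2)..Real.log 2, 2 * Z.gg Δ (v - 0) := by
    refine intervalIntegral.integral_mono_on l2 ((c1.mul Real.continuous_exp).intervalIntegrable _ _)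
      ((Z.cont_Sand Δ 0 2).intervalIntegrable _ _) fun v hv => ?_
    rw [mul_comm]
    refine mul_le_mul_of_nonneg_right ?_ (L.gg_nonneg h.le _)
    exact (Real.exp_le_exp.2 hv.2).trans_eq (Real.exp_log two_pos)
  rw [intervalIntegral.integral_const_mul] at a1
  linarith [Z.int_le_Sand h l2 0]

lemma int_SZ (Δ : ℝ) {Y : ℝ} (hY : 0 < Y) :
    ∫ u in (Y / 2)..(2 * Y), Z.gg Δ (Real.log Y - Real.log u) = cc_SZ Δ * Y := by
  have c1 : Continuous (Z.gg Δ) := by simpa using Z.cont_Sand Δ 0 1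
  have := intervalIntegral.integral_comp_mul_deriv' (a := -Real.log 2) (b := Real.log 2)
    (f := fun v => Y * Real.exp v) (f' := fun v => Y * Real.exp v)
    (g := fun u => Z.gg Δ (Real.log Y - Real.log u))
    (fun v _ => (Real.hasDerivAt_exp v).const_mul Y) (by fun_prop)
    (c1.comp_continuousOn (continuousOn_const.sub (Real.continuousOn_log.mono (by
      rintro _ ⟨v, -, rfl⟩
      exact (mul_pos hY (Real.exp_pos v)).ne'))))
  rw [Real.exp_neg, Real.exp_log two_pos, ← div_eq_mul_inv, mul_comm Y 2] at this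
  rw [← this, cc_SZ, ← intervalIntegral.integral_mul_const]
  refine intervalIntegral.integral_congr fun v _ => ?_
  simp only [Function.comp, Real.log_mul hY.ne' (Real.exp_pos v).ne', Real.log_exp, Z.gg]
  ring_nf

lemma one_SZ {Δ Y : ℝ} (h : 0 < Δ) (hY : 0 < Y) :
    |L.SS Y Δ zt - cc_SZ Δ * Y| ≤ 2 / Δ := by
  set φ : ℝ → ℝ := fun u => Z.gg Δ (Real.log Y - Real.log u) with hφ
  have f0 : ∀ u, 0 ≤ φ u := fun u => L.gg_nonneg h.le _
  have fY : φ Y = Δ⁻¹ := by simp [hφ, Z.gg]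
  have f1 : ∀ u, φ u ≤ Δ⁻¹ := fun u => (anti_SZ h (by simp)).trans_eq fY
  have d0 : 0 ≤ Δ⁻¹ := inv_nonneg.2 h.le
  set A : ℝ → ℝ := fun u => if Y / 2 < u then φ (min u Y) else 0 with hA
  set B : ℝ → ℝ := fun u => if u ≤ 2 * Y then Δ⁻¹ - φ (max u Y) else Δ⁻¹ with hB
  have A0 : ∀ u, 0 ≤ A u := fun u => by
    simp only [hA]
    split_ifs
    exacts [f0 _, le_rfl]
  have A1 : ∀ u, A u ≤ Δ⁻¹ := fun u => by
    simp only [hA]
    split_ifs
    exacts [f1 _, d0]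
  have B0 : ∀ u, 0 ≤ B u := fun u => by
    simp only [hB]
    split_ifs
    exacts [sub_nonneg.2 (f1 _), d0]
  have B1 : ∀ u, B u ≤ Δ⁻¹ := fun u => by
    simp only [hB]
    split_ifs
    exacts [sub_le_self _ (f0 _), le_rfl]
  have mA : Monotone A := fun u v huv => by
    by_cases hu : Y / 2 < u
    · simp only [hA, if_pos hu, if_pos (hu.trans_le huv)]
      have p1 : 0 < min u Y := lt_min (by linarith) hY
      have p2 := Real.log_le_log p1 (min_le_min_right Y huv)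
      have p3 := Real.log_le_log (p1.trans_le (min_le_min_right Y huv)) (min_le_right v Y)
      refine anti_SZ h ?_
      rw [abs_of_nonneg (by linarith), abs_of_nonneg (by linarith)]
      linarith
    · refine le_of_eq_of_le ?_ (A0 v)
      simp only [hA, if_neg hu]
  have mB : Monotone B := fun u v huv => by
    by_cases hv : v ≤ 2 * Y
    · simp only [hB, if_pos hv, if_pos (huv.trans hv)]
      have p2 := Real.log_le_log hY (le_max_right u Y)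
      have p3 := Real.log_le_log (hY.trans_le (le_max_right u Y)) (max_le_max_right Y huv)
      refine sub_le_sub_left (anti_SZ h ?_) _
      rw [abs_of_nonpos (by linarith), abs_of_nonpos (by linarith)]
      linarith
    · refine (B1 u).trans_eq ?_
      simp only [hB, if_neg hv]
  have e : ∀ u, A u - B u = (Set.Ioc (Y / 2) (2 * Y)).indicator φ u := fun u => by
    simp only [hA, hB, Set.indicator, Set.mem_Ioc]
    by_cases h1 : Y / 2 < u <;> by_cases h2 : u ≤ 2 * Y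
    · rcases le_total u Y with h3 | h3 <;> simp [h1, h2, h3, fY]
    · simp [h1, h2, min_eq_right (show Y ≤ u by linarith), fY]
    · simp [h1, h2, max_eq_right (show u ≤ Y by linarith), fY]
    · exfalso
      linarith
  have N1 : 2 * Y ≤ ((⌊2 * Y⌋₊ + 1 : ℕ) : ℝ) := by
    push_cast
    exact (Nat.lt_floor_add_one _).le
  have s1 : L.SS Y Δ zt = ∑ i ∈ range (⌊2 * Y⌋₊ + 1), (A (i + 1 : ℕ) - B (i + 1 : ℕ)) := by
    simp only [e, Set.indicator, Set.mem_Ioc, ← L.mem_win hY.le]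
    rw [range_eq_Ico, sum_Ico_add' (fun n : ℕ => if n ∈ Ioc ⌊Y / 2⌋₊ ⌊2 * Y⌋₊ then φ n else 0),
      sum_ite_mem, inter_eq_right.2 fun n hn => by rw [mem_Ioc] at hn; rw [mem_Ico]; omega]
    refine sum_congr rfl fun n hn => ?_
    have : n ≠ 0 := by
      rw [mem_Ioc] at hn
      omega
    simp [zt, this, hφ]
  have s2 : cc_SZ Δ * Y = (∫ u in (0 : ℝ)..(⌊2 * Y⌋₊ + 1 : ℕ), A u) -
      ∫ u in (0 : ℝ)..(⌊2 * Y⌋₊ + 1 : ℕ), B u := by
    rw [← intervalIntegral.integral_sub mA.intervalIntegrable mB.intervalIntegrable,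
      ← int_SZ Δ hY, intervalIntegral.integral_of_le (by linarith),
      intervalIntegral.integral_of_le (Nat.cast_nonneg _)]
    simp only [e]
    rw [MeasureTheory.setIntegral_indicator measurableSet_Ioc,
      Set.inter_eq_right.2 (Set.Ioc_subset_Ioc (by linarith) N1)]
  have b1 := abs_le.1 (mono_SZ mA A0 A1 (⌊2 * Y⌋₊ + 1))
  have b2 := abs_le.1 (mono_SZ mB B0 B1 (⌊2 * Y⌋₊ + 1))
  rw [s1, s2, sum_sub_distrib, div_eq_mul_inv, abs_le]
  constructor <;> linarith [b1.1, b1.2, b2.1, b2.2]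

theorem dSZ : SZStmt := by
  refine ⟨2, two_pos, fun x Δ hx h _ => ⟨cc_SZ Δ, (cc_le_SZ h).1, (cc_le_SZ h).2, fun g => ?_⟩⟩
  have x0 : 0 < x := by linarith
  have e : SS x Δ (g * zt) = ∑ m ∈ Icc 1 ⌊2 * x⌋₊, g m * L.SS (x / m) Δ zt := L.conv x Δ g zt x0
  rw [e, ms, mul_sum, ← sum_sub_distrib, mul_sum]
  refine (abs_sum_le_sum_abs _ _).trans (sum_le_sum fun m hm => ?_)
  have m0 : (0 : ℝ) < m := by exact_mod_cast (mem_Icc.1 hm).1
  rw [show g m * L.SS (x / m) Δ zt - cc_SZ Δ * x * (g m / m) =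
    (L.SS (x / m) Δ zt - cc_SZ Δ * (x / m)) * g m by ring, abs_mul]
  exact mul_le_mul_of_nonneg_right (one_SZ h (div_pos x0 m0)) (abs_nonneg _)

end Pool.Agent.MP_c853c5_nt.D

end

section

set_option autoImplicit false

open Finset

namespace Pool.Agent.MP_c853c5_nt.D

open Pool.Agent.MP_c853c5_nt.S

lemma sum_Dy {L m : ℕ} (c : AF) (h : m < 2 ^ L) : ∑ e : Fin L, dy (2 ^ (e : ℕ)) c m = c m := by
  rcases eq_or_ne m 0 with rfl | h0
  · simp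
  rw [sum_eq_single ⟨Nat.log 2 m, Nat.log_lt_of_lt_pow h0 h⟩]
  · exact if_pos ⟨Nat.pow_log_le_self 2 h0, by
      rw [← pow_succ']
      exact Nat.lt_pow_succ_log_self (by norm_num) m⟩
  · intro e _ he
    refine if_neg fun k => he (Fin.ext (Nat.log_eq_of_pow_le_of_lt_pow k.1 ?_).symm)
    rw [pow_succ']
    exact k.2
  · exact fun k => absurd (mem_univ _) k

lemma mul_Dy {X : ℕ} {f f' g g' : AF} (h1 : ∀ d < X, f d = f' d) (h2 : ∀ d < X, g d = g' d) :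
    ∀ n < X, (f * g) n = (f' * g') n := fun n hn => by
  rw [ArithmeticFunction.mul_apply, ArithmeticFunction.mul_apply]
  refine sum_congr rfl fun p hp => ?_
  rw [h1 _ ((Nat.divisor_le (Nat.fst_mem_divisors_of_mem_antidiagonal hp)).trans_lt hn),
    h2 _ ((Nat.divisor_le (Nat.snd_mem_divisors_of_mem_antidiagonal hp)).trans_lt hn)]

lemma prod_Dy {ι : Type} {X : ℕ} (s : Finset ι) {f f' : ι → AF}
    (h : ∀ i, ∀ d < X, f i d = f' i d) : ∀ n < X, (∏ i ∈ s, f i) n = (∏ i ∈ s, f' i) n := by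
  classical
  induction s using Finset.induction_on with
  | empty => simp
  | insert a s ha ih =>
    rw [prod_insert ha, prod_insert ha]
    exact mul_Dy (h a) ih

theorem dDy : DyStmt := by
  refine ⟨fun ι _ _ x Δ L c h _ hL => ?_, fun X L c hX => ?_⟩
  · rw [← SS_sum, ← sum_mul, ← Fintype.piFinset_univ,
      ← prod_univ_sum (fun _ => univ) fun i (e : Fin L) => dy (2 ^ (e : ℕ)) (c i)]
    refine SS_congr Δ fun n hn => mul_Dy (X := 2 ^ L) (prod_Dy _ fun i d hd => ?_)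
      (fun _ _ => rfl) n (by exact_mod_cast hn.2.trans_lt hL)
    rw [AF_sum, sum_Dy _ hd]
  · simp only [ms]
    rw [sum_comm]
    refine sum_congr rfl fun m hm => ?_
    rw [← sum_div, sum_Dy _ ((mem_Icc.1 hm).2.trans_lt hX)]

theorem dVan : VanStmt := by
  classical
  intro ι _ x Δ g h _ h0
  obtain ⟨n, hn, h1⟩ := exists_ne_zero_of_sum_ne_zero h0
  obtain ⟨a, l, rfl, h2, h3⟩ := exists_of_mul_ne (left_ne_zero_of_mul h1)
  obtain ⟨m, rfl, h4⟩ := exists_of_prod_ne _ _ h2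
  refine ⟨m, l, fun i => h4 i (mem_univ i), h3, ?_⟩
  exact_mod_cast win_of_mem hn

end Pool.Agent.MP_c853c5_nt.D

end

section

/-!
Summation over the number of small primes.
-/

set_option autoImplicit false

open Finset Filter

namespace Pool.Agent.MP_c853c5_nt.D

open Pool.Agent.MP_c853c5_nt.S

lemma small_Sum (δ ε : ℝ) (hδ : 0 < δ) (hε : 0 < ε) :
    ∀ᶠ x : ℝ in atTop, x ^ (1 - δ) ≤ ε * (x / Real.log x) := by
  filter_upwards [(isLittleO_log_rpow_atTop hδ).bound hε, eventually_gt_atTop 1] with x h1 hx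
  have x0 : 0 < x := by linarith
  have l0 := Real.log_pos hx
  have p0 := Real.rpow_pos_of_pos x0 δ
  rw [Real.norm_eq_abs, Real.norm_eq_abs, abs_of_pos l0, abs_of_pos p0] at h1
  rw [Real.rpow_sub x0, Real.rpow_one, ← mul_div_assoc, div_le_div_iff₀ p0 l0]
  nlinarith

lemma width_Sum {x s δ δ' : ℝ} (hx : 1 < x) (hδ : δ ≤ δ') {f e : AF}
    (h : ∀ n : ℕ, (n : ℝ) ≤ 2 * x → |f n| ≤ x ^ (δ / 2) * e n)
    (he : SS x (x ^ s) e ≤ x ^ (1 - δ')) : |SS x (x ^ s) f| ≤ x ^ (1 - δ / 2) := by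
  have x0 : 0 < x := by linarith
  have h1 := abs_SS_le (x := x) (f := f) (g := x ^ (δ / 2) • e) (Real.rpow_nonneg x0.le s)
    fun n hn => h n hn.2
  rw [SS_smul] at h1
  calc _ ≤ x ^ (δ / 2) * x ^ (1 - δ') :=
        h1.trans (mul_le_mul_of_nonneg_left he (Real.rpow_nonneg x0.le _))
    _ = x ^ (δ / 2 + (1 - δ')) := (Real.rpow_add x0 _ _).symm
    _ ≤ _ := Real.rpow_le_rpow_of_exponent_le hx.le (by linarith)

theorem dSum : SumStmt := by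
  intro hI hB hS t κ z E m r B t0 t1 κ0 κz E0 m0 h ε hε
  obtain ⟨J, hJ⟩ := hI r B κ z κ0 κz
  obtain ⟨δ₁, d1, b1⟩ := hB hS κ t κ0 t0 t1
  obtain ⟨δ₂, d2, b2⟩ := hB hS κ (1 / 1000) κ0 (by norm_num) (by norm_num)
  have d0 : 0 < min δ₁ δ₂ := lt_min d1 d2
  have e0 : 0 < ε / (2 * (J + 1)) := by positivity
  filter_upwards [hJ _ (half_pos d0), b1, b2, eventually_gt_atTop 1,
    small_Sum _ (ε / 4) (half_pos d0) (by positivity),
    (eventually_all_finset (range J)).2 fun j _ => h j _ e0] with x h1 h2 h3 hx h4 h5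
  set F : AF := (∏ i, bf x (B i)) * bf x (fr z) with hF
  set Gj : ℕ → AF := fun j => (∏ i, bf x (B i)) * PP x κ z ^ j * bf x (fr κ) with hG
  set H : AF := ∑ j ∈ range J, ((-1) ^ j / (j.factorial : ℝ)) • Gj j with hH
  have u0 : 0 < x / Real.log x := div_pos (by linarith) (Real.log_pos hx)
  have k0 : ∀ n : ℕ, (n : ℝ) ≤ 2 * x → |(F - H) n| ≤ x ^ (min δ₁ δ₂ / 2) * bad x κ n := by
    intro n hn
    rw [AF_sub, hH, AF_sum]
    exact h1 n hn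
  have k1 := abs_le.1 (width_Sum hx (min_le_left _ _) k0 h2)
  have k2 := abs_le.1 (width_Sum hx (min_le_right _ _) k0 h3)
  have k3 : |Dl t x (F - H)| ≤ ε / 2 * (x / Real.log x) := by
    unfold Dl SB
    rw [abs_le]
    constructor <;> linarith [k1.1, k1.2, k2.1, k2.2]
  have k4 : |Dl t x H| ≤ (ε / 2 + E * Real.exp m) * (x / Real.log x) := by
    rw [hH, Dl_sum]
    refine (abs_sum_le_sum_abs _ _).trans ?_
    calc ∑ j ∈ range J, |Dl t x (((-1) ^ j / (j.factorial : ℝ)) • Gj j)|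
        ≤ ∑ j ∈ range J, (ε / (2 * (J + 1)) + E * (m ^ j / j.factorial)) * (x / Real.log x) := by
          refine sum_le_sum fun j hj => ?_
          have f1 : (1 : ℝ) ≤ j.factorial := by exact_mod_cast j.factorial_pos
          rw [Dl_smul, abs_mul, abs_div, abs_pow, abs_neg, abs_one, one_pow,
            abs_of_pos (by linarith : (0 : ℝ) < j.factorial)]
          refine (mul_le_mul_of_nonneg_left (h5 j hj) (by positivity)).trans ?_
          rw [← mul_assoc]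
          apply mul_le_mul_of_nonneg_right _ u0.le
          have : 1 / (j.factorial : ℝ) * (ε / (2 * (J + 1))) ≤ ε / (2 * (J + 1)) :=
            mul_le_of_le_one_left e0.le ((div_le_one (by linarith)).2 f1)
          calc _ = 1 / (j.factorial : ℝ) * (ε / (2 * (J + 1))) + E * (m ^ j / j.factorial) := by
                ring
            _ ≤ _ := by linarith
      _ = (J * (ε / (2 * (J + 1))) + E * ∑ j ∈ range J, m ^ j / j.factorial) *
            (x / Real.log x) := by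
          rw [← sum_mul, sum_add_distrib, sum_const, card_range, nsmul_eq_mul, ← mul_sum]
      _ ≤ _ := by
          apply mul_le_mul_of_nonneg_right _ u0.le
          have a1 : J * (ε / (2 * (J + 1))) ≤ ε / 2 := by
            rw [← mul_div_assoc, div_le_div_iff₀ (by positivity) (by norm_num)]
            nlinarith
          have a2 := mul_le_mul_of_nonneg_left (Real.sum_le_exp_of_nonneg m0 J) E0
          linarith
  rw [Dl_sub] at k3
  have k5 := abs_add_le (Dl t x F - Dl t x H) (Dl t x H)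
  rw [sub_add_cancel] at k5
  linarith

end Pool.Agent.MP_c853c5_nt.D

end

section

set_option autoImplicit false

open Finset Filter

namespace Pool.Agent.MP_c853c5_nt.D

open Pool.Agent.MP_c853c5_nt.S

lemma rcp_Ms {κ : ℝ} (h0 : 0 < κ) (h1 : κ ≤ 1) :
    ∀ᶠ x : ℝ in atTop, Z.rcp (x ^ κ) (x ^ (2 : ℝ)) ≤ Real.log (6 / κ) := by
  obtain ⟨y, -, hy⟩ := Z.mert_all 1 one_pos
  filter_upwards [(tendsto_rpow_atTop h0).eventually_ge_atTop y, eventually_gt_atTop 1]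
    with x hx hx1
  have hx0 : 0 < x := by linarith
  have h2 := (abs_le.1 (hy _ _ hx
    (Real.rpow_le_rpow_of_exponent_le hx1.le (show κ ≤ 2 by linarith)))).2
  have hl : 0 < Real.log x := Real.log_pos hx1
  rw [Real.log_rpow hx0, Real.log_rpow hx0, mul_div_mul_right _ _ hl.ne'] at h2
  have h3 : Real.log (6 / κ) = Real.log (2 / κ) + Real.log 3 := by
    rw [← Real.log_mul (by positivity) (by norm_num)]
    congr 1
    ring
  have h4 : 1 ≤ Real.log 3 := by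
    rw [Real.le_log_iff_exp_le (by norm_num)]
    linarith [Real.exp_one_lt_d9]
  linarith

lemma le_floor_Ms {x : ℝ} (hx : 2 ≤ x) {m : ℕ} (hm : m ≤ ⌊2 * x⌋₊) : m ≤ ⌊x ^ (2 : ℝ)⌋₊ := by
  refine hm.trans (Nat.floor_le_floor ?_)
  rw [Real.rpow_two]
  nlinarith

lemma euler_Ms (s : Finset ℕ) (X : ℕ) (f : ℕ → ℝ) (h1 : ∀ m, f m ≤ 1)
    (h2 : ∀ m ∈ Icc 1 X, f m = 0 ∨ ∀ p : ℕ, p.Prime → p ∣ m → p ∈ s) :
    ∑ m ∈ Icc 1 X, f m / m ≤ Real.exp (2 * ∑ p ∈ s.filter Nat.Prime, 1 / (p : ℝ)) := by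
  let g : ℕ →* ℝ := ⟨⟨fun n => (n : ℝ)⁻¹, by simp⟩, fun a b => by simp [mul_comm]⟩
  have hg : ∀ n : ℕ, g n = (n : ℝ)⁻¹ := fun _ => rfl
  have hf : ∀ {p : ℕ}, p.Prime → ‖g p‖ < 1 := fun {p} hp => by
    rw [hg, Real.norm_of_nonneg (by positivity)]
    exact inv_lt_one_of_one_lt₀ (by exact_mod_cast hp.one_lt)
  have h3 := hasSum_subtype_iff_indicator.1
    (EulerProduct.summable_and_hasSum_factoredNumbers_prod_filter_prime_geometric hf s).2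
  have h0 : ∀ n : ℕ, 0 ≤ (Nat.factoredNumbers s).indicator g n := fun n =>
    Set.indicator_nonneg (fun m _ => by rw [hg]; positivity) n
  refine le_trans (sum_le_sum fun m hm => ?_)
    ((sum_le_hasSum (Icc 1 X) (fun n _ => h0 n) h3).trans ?_)
  · rcases h2 m hm with h | h
    · rw [h, zero_div]
      exact h0 m
    · rw [Set.indicator_of_mem (Nat.mem_factoredNumbers'.2 h), hg, div_eq_mul_inv]
      exact mul_le_of_le_one_left (by positivity) (h1 m)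
  · rw [mul_sum, Real.exp_sum]
    have key : ∀ p ∈ s.filter Nat.Prime, 0 < (p : ℝ)⁻¹ ∧ (p : ℝ)⁻¹ ≤ 1 / 2 := fun p hp => by
      have h4 : (2 : ℝ) ≤ p := by exact_mod_cast (mem_filter.1 hp).2.two_le
      exact ⟨by positivity, by rw [one_div]; exact inv_anti₀ (by norm_num) h4⟩
    refine prod_le_prod (fun p hp => ?_) fun p hp => ?_
    · rw [hg]
      exact inv_nonneg.2 (by linarith [(key p hp).2])
    · obtain ⟨h4, h5⟩ := key p hp
      rw [hg, one_div]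
      refine le_trans ?_ (Real.add_one_le_exp _)
      rw [inv_le_iff_one_le_mul₀ (by linarith)]
      nlinarith

theorem dMs : MsStmt := by
  refine ⟨⟨Real.exp (2 * Real.log (6 / (1 / 100))), Real.one_le_exp ?_, ?_⟩,
    fun κ z h0 h1 => ?_⟩
  · exact mul_nonneg (by norm_num) (Real.log_nonneg (by norm_num))
  · filter_upwards [rcp_Ms (κ := 1 / 100) (by norm_num) (by norm_num), eventually_ge_atTop 2]
      with x hx hx2 B hB
    refine (euler_Ms (Ioc ⌊x ^ (1 / 100 : ℝ)⌋₊ ⌊x ^ (2 : ℝ)⌋₊) ⌊2 * x⌋₊ (bf x B) (fun m => ?_)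
      fun m hm => ?_).trans (Real.exp_le_exp.2 (mul_le_mul_of_nonneg_left hx (by norm_num)))
    · by_cases h : B.Mem x m
      · exact (if_pos h).le
      · exact (if_neg h).trans_le zero_le_one
    · by_cases h : B.Mem x m
      · refine Or.inr fun p hp hd => mem_Ioc.2 ⟨?_, ?_⟩
        · rw [Nat.floor_lt (by positivity)]
          exact (Real.rpow_le_rpow_of_exponent_le (by linarith) hB).trans_lt (h.2.2.2.1 p hp hd)
        · exact le_floor_Ms hx2 ((Nat.le_of_dvd (mem_Icc.1 hm).1 hd).trans (mem_Icc.1 hm).2)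
      · exact Or.inl (if_neg h)
  · filter_upwards [rcp_Ms h0 h1, eventually_ge_atTop 2] with x hx hx2
    refine le_trans ?_ hx
    have h2 : ms ⌊2 * x⌋₊ (PP x κ z) = ∑ m ∈ (Icc 1 ⌊2 * x⌋₊).filter
        (fun m => ⌊x ^ κ⌋₊ < m ∧ m ≤ ⌊x ^ z⌋₊ ∧ m.Prime), 1 / (m : ℝ) := by
      rw [sum_filter]
      refine sum_congr rfl fun m _ => ?_
      change (if _ then (1 : ℝ) else 0) / _ = _
      split_ifs <;> simp
    rw [h2]
    refine sum_le_sum_of_subset_of_nonneg (fun m hm => ?_) fun _ _ _ => by positivity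
    obtain ⟨h3, h4, -, h5⟩ := mem_filter.1 hm
    exact mem_filter.2 ⟨mem_Ioc.2 ⟨h4, le_floor_Ms hx2 (mem_Icc.1 h3).2⟩, h5⟩

end Pool.Agent.MP_c853c5_nt.D

end

section

/-!
Numbers with a large square factor, and dyadic pieces of prime blocks.
-/

set_option autoImplicit false

open Finset Filter

namespace Pool.Agent.MP_c853c5_nt.D

open Pool.Agent.MP_c853c5_nt.S

lemma sgl_nn_Bad (d n : ℕ) : 0 ≤ sgl d n := by
  change 0 ≤ (if n = d ∧ n ≠ 0 then (1 : ℝ) else 0)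
  split_ifs <;> norm_num

lemma sum_sgl_Bad (s : Finset ℕ) (d : ℕ) (f : ℕ → ℝ) (hf : 0 ≤ f d) :
    ∑ m ∈ s, sgl d m * f m ≤ f d := by
  refine (sum_le_sum (g := fun m => if m = d then f d else 0) fun m _ => ?_).trans ?_
  · change (if m = d ∧ m ≠ 0 then (1 : ℝ) else 0) * f m ≤ _
    by_cases h : m = d
    · rw [if_pos h, h]
      split_ifs
      · rw [one_mul]
      · rwa [zero_mul]
    · rw [if_neg h, if_neg fun h1 => h h1.1, zero_mul]
  · rw [sum_ite_eq']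
    split_ifs
    · exact le_rfl
    · exact hf

/-- the squares of the numbers in `(Y, R]` -/
noncomputable def sqs_Bad (Y R : ℕ) : AF := ∑ k ∈ Ioo Y (R + 1), sgl (k ^ 2)

lemma nn_Bad (Y R : ℕ) : Nn (sqs_Bad Y R) := Nn.sum fun _ _ => sgl_nn_Bad _

lemma sum_sqs_Bad (Y R : ℕ) (s : Finset ℕ) (f : ℕ → ℝ) (hf : ∀ n, 0 ≤ f n) :
    ∑ m ∈ s, sqs_Bad Y R m * f m ≤ ∑ k ∈ Ioo Y (R + 1), f (k ^ 2) := by
  simp only [sqs_Bad, AF_sum, sum_mul]
  rw [sum_comm]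
  exact sum_le_sum fun k _ => sum_sgl_Bad s _ f (hf _)

lemma ms_Bad (X Y R : ℕ) : ms X (sqs_Bad Y R) ≤ 2 / ((Y : ℝ) + 1) := by
  have h1 := sum_sqs_Bad Y R (Icc 1 X) (fun n => (n : ℝ)⁻¹) fun n => by positivity
  have h2 := sum_Ioo_inv_sq_le (α := ℝ) Y (R + 1)
  simp only [Nat.cast_pow] at h1
  simp only [ms, div_eq_mul_inv (sqs_Bad Y R _)]
  exact h1.trans h2

lemma card_Bad (X Y R : ℕ) : ∑ m ∈ Icc 1 X, |sqs_Bad Y R m| ≤ R := by
  have h1 := sum_sqs_Bad Y R (Icc 1 X) (fun _ => 1) fun _ => zero_le_one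
  simp only [mul_one, sum_const, Nat.card_Ioo, nsmul_eq_mul] at h1
  rw [sum_congr rfl fun m _ => abs_of_nonneg (nn_Bad Y R m)]
  exact h1.trans (by exact_mod_cast (by omega))

lemma le_Bad {x κ : ℝ} (hx : 0 ≤ x) {n : ℕ} (hn : Win x n) :
    bad x κ n ≤ (sqs_Bad ⌊x ^ κ⌋₊ (Nat.sqrt ⌊2 * x⌋₊) * zt) n := by
  classical
  rw [zt, ArithmeticFunction.coe_mul_zeta_apply]
  change (if n ≠ 0 ∧ ∃ p : ℕ, p.Prime ∧ x ^ κ < p ∧ p ^ 2 ∣ n then (1 : ℝ) else 0) ≤ _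
  split_ifs with h
  · obtain ⟨h0, p, hp, h1, h2⟩ := h
    refine le_trans ?_ (single_le_sum (fun d _ => nn_Bad _ _ d) (Nat.mem_divisors.2 ⟨h2, h0⟩))
    have h3 : p ∈ Ioo ⌊x ^ κ⌋₊ (Nat.sqrt ⌊2 * x⌋₊ + 1) :=
      mem_Ioo.2 ⟨(Nat.floor_lt (Real.rpow_nonneg hx _)).2 h1, Nat.lt_succ_of_le (Nat.le_sqrt'.2
        ((Nat.le_of_dvd (Nat.pos_of_ne_zero h0) h2).trans (Nat.le_floor hn.2)))⟩
    rw [sqs_Bad, AF_sum]
    refine le_trans (le_of_eq ?_) (single_le_sum (fun k _ => sgl_nn_Bad (k ^ 2) (p ^ 2)) h3)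
    exact (if_pos ⟨rfl, pow_ne_zero _ hp.ne_zero⟩).symm
  · exact sum_nonneg fun d _ => nn_Bad _ _ d

theorem dBad : BadStmt := by
  rintro ⟨C, hC, h⟩ κ s hκ hs hs'
  have hδ : 0 < min κ (1 / 2 - s) / 2 := half_pos (lt_min hκ (by linarith))
  refine ⟨_, hδ, ?_⟩
  filter_upwards [eventually_ge_atTop 1,
    (tendsto_rpow_atTop hδ).eventually_ge_atTop (4 + 2 * C)] with x hx hb
  have hx0 : 0 < x := by linarith
  have hΔ : 0 < x ^ (-s) := Real.rpow_pos_of_pos hx0 _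
  obtain ⟨c, hc0, hc2, h1⟩ := h x _ hx hΔ (Real.rpow_le_one_of_one_le_of_nonpos hx (by linarith))
  refine (SS_mono hΔ.le fun n hn => le_Bad hx0.le hn).trans ?_
  have h2 := (abs_le.1 (h1 (sqs_Bad ⌊x ^ κ⌋₊ (Nat.sqrt ⌊2 * x⌋₊)))).2
  have h3 := ms_Bad ⌊2 * x⌋₊ ⌊x ^ κ⌋₊ (Nat.sqrt ⌊2 * x⌋₊)
  have h4 := card_Bad ⌊2 * x⌋₊ ⌊x ^ κ⌋₊ (Nat.sqrt ⌊2 * x⌋₊)
  have h5 : 2 / ((⌊x ^ κ⌋₊ : ℝ) + 1) ≤ 2 * x ^ (-κ) := by
    rw [Real.rpow_neg hx0.le, ← div_eq_mul_inv]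
    exact div_le_div_of_nonneg_left (by norm_num) (Real.rpow_pos_of_pos hx0 _)
      (Nat.lt_floor_add_one _).le
  have h6 : ((Nat.sqrt ⌊2 * x⌋₊ : ℕ) : ℝ) ≤ 2 * x ^ (1 / 2 : ℝ) := by
    have h7 : ((Nat.sqrt ⌊2 * x⌋₊ : ℕ) : ℝ) ^ 2 ≤ 2 * x :=
      le_trans (by exact_mod_cast Nat.sqrt_le' _) (Nat.floor_le (by linarith))
    have h8 : (x ^ (1 / 2 : ℝ)) ^ 2 = x := by
      rw [← Real.rpow_natCast, ← Real.rpow_mul hx0.le]
      norm_num
    exact abs_le_of_sq_le_sq' (by rw [mul_pow, h8]; linarith) (by positivity) |>.2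
  obtain ⟨δ, hd⟩ : ∃ δ, δ = min κ (1 / 2 - s) / 2 := ⟨_, rfl⟩
  rw [← hd] at hb hδ ⊢
  have d1 : 2 * δ ≤ κ := by linarith [min_le_left κ (1 / 2 - s)]
  have d2 : 2 * δ ≤ 1 / 2 - s := by linarith [min_le_right κ (1 / 2 - s)]
  have e1 : x * x ^ (-κ) ≤ x ^ (1 - 2 * δ) := by
    nth_rewrite 1 [← Real.rpow_one x]
    rw [← Real.rpow_add hx0]
    exact Real.rpow_le_rpow_of_exponent_le hx (by linarith)
  have e2 : (x ^ (-s))⁻¹ * x ^ (1 / 2 : ℝ) ≤ x ^ (1 - 2 * δ) := by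
    rw [← Real.rpow_neg hx0.le, ← Real.rpow_add hx0]
    exact Real.rpow_le_rpow_of_exponent_le hx (by linarith)
  have e3 : x ^ (1 - δ) = x ^ δ * x ^ (1 - 2 * δ) := by
    rw [← Real.rpow_add hx0]
    ring_nf
  have e4 : c * x * ms ⌊2 * x⌋₊ (sqs_Bad ⌊x ^ κ⌋₊ (Nat.sqrt ⌊2 * x⌋₊)) ≤
      2 * x * (2 * x ^ (-κ)) :=
    (mul_le_mul_of_nonneg_left (h3.trans h5) (by positivity)).trans
      (mul_le_mul_of_nonneg_right (mul_le_mul_of_nonneg_right hc2 hx0.le) (by positivity))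
  have e5 := mul_le_mul_of_nonneg_left (h4.trans h6) (div_pos hC hΔ).le
  have e6 := mul_le_mul_of_nonneg_left e2 hC.le
  have e7 := mul_le_mul_of_nonneg_right hb (Real.rpow_nonneg hx0.le (1 - 2 * δ))
  rw [div_eq_mul_inv] at e5 h2
  rw [e3]
  linarith

theorem dPr : PrStmt := by
  refine ⟨fun x B N hx hB => ⟨max (max ⌊x ^ B.lo⌋₊ ⌊x ^ B.a⌋₊) (N - 1), min ⌊x ^ B.hi⌋₊ (2 * N - 1),
    ?_⟩, fun P Q N => ⟨max P (N - 1), min Q (2 * N - 1), ?_⟩⟩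
  · ext n
    have h0 : ∀ c : ℝ, 0 ≤ x ^ c := fun c => Real.rpow_nonneg (by linarith) c
    change (if N ≤ n ∧ n < 2 * N then bf x B n else 0) = if _ ∧ _ ∧ n.Prime then 1 else 0
    by_cases h : B.Mem x n
    · rw [bf_of_mem h]
      obtain ⟨h1, h2, h3, h4⟩ := (hB.mem_iff hx.le).1 h
      have h5 := (Nat.floor_lt (h0 _)).2 h2
      have h6 := (Nat.floor_lt (h0 _)).2 h3
      have h7 := Nat.le_floor h4
      have h8 := h1.pos
      exact if_congr ⟨fun h9 => ⟨by omega, by omega, h1⟩, fun h9 => by omega⟩ rfl rfl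
    · rw [bf_of_not h, ite_self, if_neg]
      rintro ⟨h1, h2, h3⟩
      exact h ((hB.mem_iff hx.le).2 ⟨h3, (Nat.floor_lt (h0 _)).1 (by omega),
        (Nat.floor_lt (h0 _)).1 (by omega), (Nat.le_floor_iff (h0 _)).1 (by omega)⟩)
  · ext n
    change (if N ≤ n ∧ n < 2 * N then (if P < n ∧ n ≤ Q ∧ n.Prime then (1 : ℝ) else 0) else 0) =
      if _ ∧ _ ∧ n.Prime then 1 else 0
    rw [← ite_and]
    exact if_congr ⟨fun h => ⟨by omega, by omega, h.2.2.2⟩,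
      fun h => ⟨by omega, by omega, by omega, h.2.2⟩⟩ rfl rfl

end Pool.Agent.MP_c853c5_nt.D

end

section

set_option autoImplicit false

namespace Pool.Agent.MP_c853c5_nt.D

open Pool.Agent.MP_c853c5_nt.S

theorem leafS (h1 : E1D) (h2 : E2D) : LeafS :=
  dFin (dT2 dDy dVan) dT1R (dT1 dVan) dSZ dNom dVan dPr dDy dId dBad dMs dOne dRow dSum h1 h2

end Pool.Agent.MP_c853c5_nt.D

end

section

/-!
Removing the small primes from two factors.
-/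

set_option autoImplicit false

open Finset Filter

namespace Pool.Agent.MP_c853c5_nt.D2

open Pool.Agent.MP_c853c5_nt.S Pool.Agent.MP_c853c5_nt.D Pool.Agent.MP_2a1f0e_nt

/-- the pointwise product with a weight -/
noncomputable def pm (f : AF) (w : ℕ → ℝ) : AF := ⟨fun n => f n * w n, by simp⟩

/-- the smooth weight at the scale `y` -/
noncomputable def oy (y : ℝ) (n : ℕ) : ℝ := DH.om ((n : ℝ) / y)

/-- the indicator function of `(u, v]` -/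
noncomputable def rg (u v : ℝ) (n : ℕ) : ℝ := if u < n ∧ (n : ℝ) ≤ v then 1 else 0

/-- the piece number `k` of the smooth partition -/
noncomputable def pc (f : AF) (k : ℕ) : AF := pm f (oy (yk_T1 k))

/-- the rough numbers -/
noncomputable def RR (x κ : ℝ) : AF := bf x (fr κ)

/-- a majorant of a piece of the rough numbers -/
noncomputable def up (x κ : ℝ) (lam : AF) (k : ℕ) : AF :=
  if yk_T1 k < x ^ (1 / 20 : ℝ) then pc (RR x κ) k else pc (lam * zt) k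

/-- the restriction to `n ≤ x ^ (19 / 20)` -/
noncomputable def low (x : ℝ) (f : AF) : AF := pm f (rg 0 (x ^ (19 / 20 : ℝ)))

/-- the number of dyadic scales -/
noncomputable def LL (x : ℝ) : ℕ := Nat.log 2 ⌊2 * x⌋₊ + 1

/-- the number of smooth scales -/
noncomputable def nn (x : ℝ) : ℕ := ⌈8 * Real.log x⌉₊

/-- the box lies inside `(u, v]` -/
def Ins {j : ℕ} (u v : ℝ) (N : Fin j → ℕ) (k : ℕ) : Prop :=
  u ≤ (∏ i, (N i : ℝ)) * yk_T1 k ∧ 2 ^ (j + 1) * ((∏ i, (N i : ℝ)) * yk_T1 k) ≤ v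

open Classical in
/-- the sum of the boxes inside `(u, v]` -/
noncomputable def inn (P R : AF) (j L n : ℕ) (u v : ℝ) : AF :=
  ∑ e : Fin j → Fin L, ∑ k ∈ range n,
    if Ins u v (fun i => 2 ^ (e i : ℕ)) k then (∏ i, dy (2 ^ (e i : ℕ)) P) * pc R k else 0

/-- the general factors -/
noncomputable def cf {r : ℕ} (x κ z1 z2 : ℝ) (B : Fin r → Blk) (j1 j2 : ℕ) :
    Fin r ⊕ (Fin j1 ⊕ Fin j2) → AF :=
  Sum.elim (fun i => bf x (B i)) (Sum.elim (fun _ => PP x κ z1) fun _ => PP x κ z2)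

/-- the error term of one box -/
noncomputable def er (x κ : ℝ) (lam e G : AF) (k1 k2 : ℕ) : ℝ :=
  SB x (low x (G * up x κ lam k1) * pc (e * zt) k2)

/-- sieve weights -/
structure FW (x κ : ℝ) (w : ℕ) (lam e : AF) : Prop where
  b1 : ∀ d, |lam d| ≤ 1
  b2 : ∀ d, |e d| ≤ 1
  s1 : ∀ d, lam d ≠ 0 → (d : ℝ) ≤ x ^ (κ * (4 * w + 6))
  s2 : ∀ d, e d ≠ 0 → (d : ℝ) ≤ x ^ (κ * (4 * w + 6))
  maj : ∀ n, RR x κ n ≤ (lam * zt) n
  pos : ∀ n, 0 ≤ (e * zt) n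
  gap : ∀ n : ℕ, (n : ℝ) ≤ 2 * x → (lam * zt) n ≤ RR x κ n + (e * zt) n
  m1 : ∀ X : ℕ, x ^ (κ * (4 * w + 6)) ≤ X → ms X lam ≤ 4 / (κ * Real.log x)
  m2 : ∀ X : ℕ, x ^ (κ * (4 * w + 6)) ≤ X → ms X e ≤ 2 ^ 26 / 4 ^ w / (κ * Real.log x)

/-- `m` has the size `x ^ a` -/
def Cls (x a : ℝ) (m : ℕ) : Prop := x ^ a ≤ 2 * m ∧ (m : ℝ) ≤ 2 * x ^ a

/-! ### statements -/

def FWStmt : Prop := ∀ (κ : ℝ) (w : ℕ), 0 < κ → 13 ≤ w →
  ∀ᶠ x : ℝ in atTop, ∃ lam e : AF, FW x κ w lam e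

def OmStmt : Prop := ∃ C : ℝ, 0 < C ∧ ∀ (lam : AF) (D y U : ℝ) (X : ℕ), (∀ d, |lam d| ≤ 1) →
  (∀ d, lam d ≠ 0 → (d : ℝ) ≤ D) → 1 ≤ D → 0 < y → 0 ≤ U → (∀ n, 0 ≤ (lam * zt) n) →
  (∀ X' : ℕ, D ≤ X' → ms X' lam ≤ U) → ms X (pm (lam * zt) (oy y)) ≤ U + C * D / y

def TmStmt : Prop := OmStmt → ∀ (κ : ℝ) (w : ℕ), 0 < κ → κ * (4 * w + 6) ≤ 1 / 100 →
  ∀ᶠ x : ℝ in atTop, ∀ lam e : AF, FW x κ w lam e →
    ms ⌊2 * x⌋₊ (∑ k ∈ range (nn x), up x κ lam k) ≤ 2 ^ 7 / κ ^ 2 ∧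
    ∀ n : ℕ, (n : ℝ) ≤ 2 * x → (∑ k ∈ range (nn x), up x κ lam k) n ≤ x ^ (1 / 400 : ℝ)

/-- one smooth factor -/
def TaStmt : Prop := E1D → ∀ (ι : Type) [Fintype ι] (τ t η : ℝ) (K : ℕ), 1 / 3 ≤ t → t < τ →
  τ ≤ 1 / 2 → 0 < η → η ≤ 1 / 1000 → ∃ γ : ℝ, 0 < γ ∧ ∀ᶠ x : ℝ in atTop,
    ∀ (a : ι → ℝ) (b : ℝ) (N : ι → ℕ) (g : ι → AF) (lam : AF) (y : ℝ),
      (∀ i, 0 ≤ a i ∧ a i ≤ 1) → b ≤ 1 → E1pt τ η K a b → (∀ i, Slot (N i) (g i)) →
      (∀ i, (N i : ℝ) ≤ x ^ (a i + γ)) → x ^ (b - γ) ≤ y → y ≤ x ^ (b + γ) →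
      (∏ i, (N i : ℝ)) * y ≤ 2 * x → (∀ d, |lam d| ≤ 1) →
      (∀ d, lam d ≠ 0 → (d : ℝ) ≤ x ^ lev τ t η) →
      |Dl t x ((∏ i, g i) * pm (lam * zt) (oy y))| ≤ x ^ (1 - η / 10)

/-- two smooth factors -/
def TbStmt : Prop := E12D → ∀ (ι : Type) [Fintype ι] (τ t η : ℝ) (K : ℕ), 1 / 3 ≤ t → t < τ →
  τ ≤ 1 / 2 → 0 < η → η ≤ 1 / 1000 → ∃ γ : ℝ, 0 < γ ∧ ∀ᶠ x : ℝ in atTop,
    ∀ (a : ι → ℝ) (b1 b2 : ℝ) (N : ι → ℕ) (g : ι → AF) (l1 l2 : AF) (y1 y2 : ℝ),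
      (∀ i, 0 ≤ a i ∧ a i ≤ 1) → b1 ≤ 1 → b2 ≤ 1 → E12pt τ η K a b1 b2 →
      (∀ i, Slot (N i) (g i)) → (∀ i, (N i : ℝ) ≤ x ^ (a i + γ)) →
      x ^ (b1 - γ) ≤ y1 → y1 ≤ x ^ (b1 + γ) → x ^ (b2 - γ) ≤ y2 → y2 ≤ x ^ (b2 + γ) →
      (∏ i, (N i : ℝ)) * y1 * y2 ≤ 2 * x → (∀ d, |l1 d| ≤ 1) → (∀ d, |l2 d| ≤ 1) →
      (∀ d, l1 d ≠ 0 → (d : ℝ) ≤ x ^ lev τ t η) → (∀ d, l2 d ≠ 0 → (d : ℝ) ≤ x ^ lev τ t η) →
      |Dl t x ((∏ i, g i) * pm (l1 * zt) (oy y1) * pm (l2 * zt) (oy y2))| ≤ x ^ (1 - η / 10)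

/-- one box at a nominal point -/
def BoxStmt : Prop := TaStmt → TbStmt → E1D → E2D → E12D → ∀ (ι : Type) [Fintype ι]
  (τ t η η' κ : ℝ) (K w A : ℕ), 1 / 3 ≤ t → t < τ → τ ≤ 1 / 2 → 0 < η → η ≤ 1 / 1000 →
  0 < η' → 0 < κ → κ * (4 * w + 6) ≤ lev τ t η → ∃ γ : ℝ, 0 < γ ∧ ∀ᶠ x : ℝ in atTop,
    ∀ lam e : AF, FW x κ w lam e → ∀ (pr : ι → Prop) (c : ι → ℝ) (b1 b2 : ℝ) (N : ι → ℕ)
      (g : ι → AF) (k1 k2 : ℕ), (∀ i, 0 ≤ c i) → 0 ≤ b1 → 0 ≤ b2 → ∑ i, c i + b1 + b2 = 1 →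
      Alt4 τ η η' K pr c b1 b2 → (∀ i, Slot (N i) (g i)) → (∀ i n, 0 ≤ g i n) → Near x γ c N →
      (∀ i, pr i → ∃ P Q : ℕ, g i = prI P Q) →
      x ^ (b1 - γ) ≤ yk_T1 k1 → yk_T1 k1 ≤ x ^ (b1 + γ) →
      x ^ (b2 - γ) ≤ yk_T1 k2 → yk_T1 k2 ≤ x ^ (b2 + γ) →
      (∏ i, (N i : ℝ)) * ⌈yk_T1 k1⌉₊ * ⌈yk_T1 k2⌉₊ ≤ 2 * x →
      |Dl t x ((∏ i, g i) * pc (RR x κ) k1 * pc (RR x κ) k2)| ≤ x / Real.log x ^ A +
        2 * er x κ lam e (∏ i, g i) k1 k2 + 2 * er x κ lam e (∏ i, g i) k2 k1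

/-- the nominal point -/
def NomStmt2 : Prop := ∀ (ι₁ ι₂ : Type) [Fintype ι₁] [Fintype ι₂] (l1 u1 : ι₁ → ℝ)
  (l2 u2 : ι₂ → ℝ) (lo hi : ℝ), (∀ i, 0 ≤ l2 i) → ∀ᶠ x : ℝ in atTop,
    ∀ (m1 : ι₁ → ℕ) (m2 : ι₂ → ℕ) (n1 n2 : ℕ),
      (∀ i, 1 ≤ m1 i ∧ x ^ l1 i ≤ m1 i ∧ (m1 i : ℝ) ≤ x ^ u1 i) →
      (∀ i, x ^ l2 i ≤ m2 i ∧ (m2 i : ℝ) ≤ x ^ u2 i) → 1 ≤ n1 → 1 ≤ n2 →
      x / 2 < (∏ i, (m1 i : ℝ)) * n1 * ((∏ i, (m2 i : ℝ)) * n2) →
      (∏ i, (m1 i : ℝ)) * n1 * ((∏ i, (m2 i : ℝ)) * n2) ≤ 2 * x →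
      x ^ lo ≤ (∏ i, (m2 i : ℝ)) * n2 → (∏ i, (m2 i : ℝ)) * n2 ≤ x ^ hi →
      ∃ (a : ι₁ → ℝ) (q : ι₂ → ℝ) (b1 b2 : ℝ),
        (∀ i, 0 ≤ a i ∧ l1 i ≤ a i ∧ a i ≤ u1 i ∧ Cls x (a i) (m1 i)) ∧
        (∀ i, l2 i ≤ q i ∧ q i ≤ u2 i ∧ Cls x (q i) (m2 i)) ∧ 0 ≤ b1 ∧ Cls x b1 n1 ∧
        0 ≤ b2 ∧ Cls x b2 n2 ∧ ∑ i, a i + ∑ i, q i + b1 + b2 = 1 ∧
        lo ≤ ∑ i, q i + b2 ∧ ∑ i, q i + b2 ≤ hi

/-- the alternative of `DustOK2` at fixed parameters -/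
def Alt2 {r : ℕ} (τ η η' κ z1 z2 lo hi : ℝ) (K : ℕ) (B : Fin r → Blk) : Prop :=
  ∀ (j1 j2 : ℕ) (a : Fin r → ℝ) (q1 : Fin j1 → ℝ) (q2 : Fin j2 → ℝ) (b1 b2 : ℝ), InBox B a →
    (∀ i, κ ≤ q1 i ∧ q1 i ≤ z1) → (∀ i, κ ≤ q2 i ∧ q2 i ≤ z2) → 0 ≤ b1 → 0 ≤ b2 →
    ∑ i, a i + (∑ i, q1 i + ∑ i, q2 i) + b1 + b2 = 1 →
    lo ≤ ∑ i, q2 i + b2 → ∑ i, q2 i + b2 ≤ hi →
    Alt4 τ η η' K (Sum.elim (fun i => (B i).IsP) fun _ : Fin j1 ⊕ Fin j2 => True)
      (Sum.elim a (Sum.elim q1 q2)) b1 b2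

/-- the bound for the boxes inside the range -/
def OneOK2 {r : ℕ} (t κ z1 z2 lo hi : ℝ) (w : ℕ) (B : Fin r → Blk) (j1 j2 : ℕ) : Prop :=
  ∀ A : ℕ, ∀ᶠ x : ℝ in atTop, ∀ lam e : AF, FW x κ w lam e →
    ∀ (N : Fin r ⊕ (Fin j1 ⊕ Fin j2) → ℕ) (k1 k2 : ℕ), (∀ i, 1 ≤ N i) →
      Ins (x ^ lo) (x ^ hi) (fun i => N (.inr (.inr i))) k2 →
      |Dl t x ((∏ i, dy (N i) (cf x κ z1 z2 B j1 j2 i)) * pc (RR x κ) k1 * pc (RR x κ) k2)| ≤
        x / Real.log x ^ A + 2 * er x κ lam e (∏ i, dy (N i) (cf x κ z1 z2 B j1 j2 i)) k1 k2 +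
          2 * er x κ lam e (∏ i, dy (N i) (cf x κ z1 z2 B j1 j2 i)) k2 k1

def OneStmt2 : Prop := BoxStmt → NomStmt2 → TaStmt → TbStmt → E1D → E2D → E12D →
  ∀ (τ t η η' κ z1 z2 lo hi : ℝ) (K w r : ℕ) (B : Fin r → Blk), 1 / 3 ≤ t → t < τ →
    τ ≤ 1 / 2 → 0 < η → η ≤ 1 / 1000 → 0 < η' → 0 < κ → κ * (4 * w + 6) ≤ lev τ t η →
    Alt2 τ η η' κ z1 z2 lo hi K B → ∀ j1 j2, OneOK2 t κ z1 z2 lo hi w B j1 j2

/-- the long sum with a long free variable -/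
def ErrStmt : Prop := ∀ (κ : ℝ) (w : ℕ), 0 < κ → κ * (4 * w + 6) ≤ 1 / 100 →
  ∀ᶠ x : ℝ in atTop, ∀ lam e G : AF, FW x κ w lam e → Nn G →
    (∀ n : ℕ, (n : ℝ) ≤ 2 * x → G n ≤ x ^ (1 / 100 : ℝ)) →
    SB x (low x G * (e * zt)) ≤
      2 ^ 27 / 4 ^ w / κ * ms ⌊2 * x⌋₊ G * (x / Real.log x) + x ^ (99 / 100 : ℝ)

/-- the sum of the error terms -/
def ESumStmt : Prop := ErrStmt → TmStmt → OmStmt → ∀ (ι : Type) [Fintype ι] [DecidableEq ι]
  (κ : ℝ) (w : ℕ), 0 < κ → κ * (4 * w + 6) ≤ 1 / 100 → ∀ᶠ x : ℝ in atTop,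
    ∀ (lam e : AF) (c : ι → AF), FW x κ w lam e → (∀ i n, 0 ≤ c i n ∧ c i n ≤ 1) →
      ∑ f : ι → Fin (LL x), ∑ k1 ∈ range (nn x), ∑ k2 ∈ range (nn x),
        er x κ lam e (∏ i, dy (2 ^ (f i : ℕ)) (c i)) k1 k2 ≤
      2 ^ 34 / 4 ^ w / κ ^ 3 * (∏ i, ms ⌊2 * x⌋₊ (c i)) * (x / Real.log x) + x ^ (99 / 100 : ℝ)

open Classical in
/-- the expansion into boxes -/
def ExpStmt : Prop := ∀ (t x κ z1 z2 u v : ℝ) (r j1 j2 : ℕ) (B : Fin r → Blk), 3 ≤ x →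
  Dl t x ((∏ i, bf x (B i)) * PP x κ z1 ^ j1 * RR x κ *
      inn (PP x κ z2) (RR x κ) j2 (LL x) (nn x) u v) =
    ∑ f : Fin r ⊕ (Fin j1 ⊕ Fin j2) → Fin (LL x), ∑ k1 ∈ range (nn x), ∑ k2 ∈ range (nn x),
      if Ins u v (fun i => 2 ^ (f (.inr (.inr i)) : ℕ)) k2 then
        Dl t x ((∏ i, dy (2 ^ (f i : ℕ)) (cf x κ z1 z2 B j1 j2 i)) * pc (RR x κ) k1 *
          pc (RR x κ) k2) else 0

/-- the part inside the range -/
def InStmt : Prop := ExpStmt → ESumStmt → ErrStmt → TmStmt → OmStmt → FWStmt →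
  ∀ (t κ z1 z2 lo hi M m : ℝ) (w r j1 j2 : ℕ) (B : Fin r → Blk), 0 < κ → 13 ≤ w →
    κ * (4 * w + 6) ≤ 1 / 100 → OneOK2 t κ z1 z2 lo hi w B j1 j2 →
    (∀ᶠ x : ℝ in atTop, ∀ i, ms ⌊2 * x⌋₊ (bf x (B i)) ≤ M) →
    (∀ᶠ x : ℝ in atTop, ms ⌊2 * x⌋₊ (PP x κ z1) ≤ m) →
    (∀ᶠ x : ℝ in atTop, ms ⌊2 * x⌋₊ (PP x κ z2) ≤ m) → ∀ ε : ℝ, 0 < ε → ∀ᶠ x : ℝ in atTop,
      |Dl t x ((∏ i, bf x (B i)) * PP x κ z1 ^ j1 * RR x κ *
        inn (PP x κ z2) (RR x κ) j2 (LL x) (nn x) (x ^ lo) (x ^ hi))| ≤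
      (ε + 2 ^ 36 / 4 ^ w / κ ^ 3 * M ^ r * m ^ j1 * m ^ j2) * (x / Real.log x)

/-- the boxes that meet the boundary of the range -/
def CutStmt : Prop := ∀ (P R : AF) (j L n X : ℕ) (u v : ℝ), Nn P → Nn R → 0 < u → 0 < v →
  X < 2 ^ L → (X : ℝ) ≤ yk_T1 n → ∀ m : ℕ, m ≤ X →
    |pm (P ^ j * R) (rg u v) m - inn P R j L n u v m| ≤
      pm (P ^ j * R) (rg (u / 2 ^ (j + 2)) (2 ^ (j + 2) * u)) m +
        pm (P ^ j * R) (rg (v / 2 ^ (j + 2)) (2 ^ (j + 2) * v)) m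

/-- a product of functions on rough numbers -/
def BndStmt : Prop := ∀ (ι : Type) [Fintype ι] (κ : ℝ), 0 < κ → ∃ C : ℝ, 0 < C ∧
  ∀ᶠ x : ℝ in atTop, ∀ f : ι → AF,
    (∀ i n, 0 ≤ f i n ∧ f i n ≤ 1 ∧ (f i n ≠ 0 → Rough x κ n)) →
    ∀ n : ℕ, (n : ℝ) ≤ 2 * x → (∏ i, f i) n ≤ C * RR x κ n

/-- the mass of a layer -/
def LamStmt : Prop := FWStmt → ∀ κ c C ε : ℝ, 0 < κ → 1 / 100 ≤ c → 1 ≤ C → 0 < ε →
  ∀ᶠ x : ℝ in atTop, ms ⌊2 * x⌋₊ (pm (RR x κ) (rg (x ^ c / C) (C * x ^ c))) ≤ ε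

/-- a layer is negligible for every width -/
def LayStmt : Prop := LamStmt → FWStmt → ∀ κ c C s ε : ℝ, 0 < κ → 1 / 100 ≤ c →
  c ≤ 99 / 100 → 1 ≤ C → 0 < s → s < 1 / 2 → 0 < ε → ∀ᶠ x : ℝ in atTop,
    SS x (x ^ (-s)) (RR x κ * pm (RR x κ) (rg (x ^ c / C) (C * x ^ c))) ≤ ε * (x / Real.log x)

/-- from the boxes inside to the sharp range -/
def RowStmt2 : Prop := CutStmt → BndStmt → LayStmt → LamStmt → FWStmt →
  ∀ (t κ z1 z2 lo hi E : ℝ) (r j1 j2 : ℕ) (B : Fin r → Blk), 0 < t → t < 1 / 2 → 0 < κ →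
    (∀ i, κ ≤ (B i).a) → 1 / 100 ≤ lo → lo ≤ hi → hi ≤ 99 / 100 →
    (∀ ε : ℝ, 0 < ε → ∀ᶠ x : ℝ in atTop,
      |Dl t x ((∏ i, bf x (B i)) * PP x κ z1 ^ j1 * RR x κ *
        inn (PP x κ z2) (RR x κ) j2 (LL x) (nn x) (x ^ lo) (x ^ hi))| ≤
      (ε + E) * (x / Real.log x)) →
    ∀ ε : ℝ, 0 < ε → ∀ᶠ x : ℝ in atTop,
      |Dl t x ((∏ i, bf x (B i)) * PP x κ z1 ^ j1 * RR x κ *
        pm (PP x κ z2 ^ j2 * RR x κ) (rg (x ^ lo) (x ^ hi)))| ≤ (ε + E) * (x / Real.log x)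

/-- summation over the number of small primes of the second factor -/
def SumStmt2 : Prop := ∀ (t κ z lo hi E m : ℝ) (H : ℝ → AF), 0 < t → t < 1 / 2 → 0 < κ →
  κ ≤ z → 0 ≤ E → 0 ≤ m →
  (∀ δ : ℝ, 0 < δ → ∀ᶠ x : ℝ in atTop, ∀ n : ℕ, (n : ℝ) ≤ 2 * x → |H x n| ≤ x ^ δ) →
  (∀ (j : ℕ) (ε : ℝ), 0 < ε → ∀ᶠ x : ℝ in atTop,
    |Dl t x (H x * pm (PP x κ z ^ j * RR x κ) (rg (x ^ lo) (x ^ hi)))| ≤
      (ε + E * m ^ j) * (x / Real.log x)) →
  ∀ ε : ℝ, 0 < ε → ∀ᶠ x : ℝ in atTop,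
    |Dl t x (H x * bf x ⟨lo, hi, z, none⟩)| ≤ (ε + E * Real.exp m) * (x / Real.log x)

/-! ### basic facts -/

lemma pm_apply (f : AF) (w : ℕ → ℝ) (n : ℕ) : pm f w n = f n * w n := rfl

lemma oy_nn {y : ℝ} (hy : 0 < y) (n : ℕ) : 0 ≤ oy y n := E.om_nonneg (by positivity)

lemma oy_le (y : ℝ) (n : ℕ) : oy y n ≤ 1 := by
  have h1 := DH.psi_le_one (3 / 4 * ((n : ℝ) / y))
  have h2 := DH.psi_nonneg ((n : ℝ) / y)
  unfold oy DH.om
  linarith

lemma oy_ne {y : ℝ} (hy : 0 < y) {n : ℕ} (h : oy y n ≠ 0) : y < n ∧ (n : ℝ) < 2 * y := by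
  have h8 : ¬((n : ℝ) / y ≤ 1 ∨ 5 / 3 ≤ (n : ℝ) / y) := fun k => h (DH.om_eq_zero k)
  rw [not_or, not_le, not_le, one_lt_div hy, div_lt_iff₀ hy] at h8
  exact ⟨h8.1, by linarith [h8.2]⟩

lemma rg_nn (u v : ℝ) (n : ℕ) : 0 ≤ rg u v n := by
  unfold rg
  split_ifs <;> norm_num

lemma rg_le (u v : ℝ) (n : ℕ) : rg u v n ≤ 1 := by
  unfold rg
  split_ifs <;> norm_num

lemma nn_pm {f : AF} {w : ℕ → ℝ} (hf : Nn f) (hw : ∀ n, 0 ≤ w n) : Nn (pm f w) :=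
  fun n => mul_nonneg (hf n) (hw n)

lemma pm_le {f : AF} {w : ℕ → ℝ} (hf : Nn f) (hw : ∀ n, w n ≤ 1) : Le (pm f w) f :=
  fun n => mul_le_of_le_one_right (hf n) (hw n)

lemma nn_pc {f : AF} (hf : Nn f) (k : ℕ) : Nn (pc f k) := nn_pm hf (oy_nn (yk_pos_T1 k))

lemma pc_ne {f : AF} {k n : ℕ} (h : pc f k n ≠ 0) :
    f n ≠ 0 ∧ yk_T1 k < n ∧ (n : ℝ) < 2 * yk_T1 k :=
  ⟨left_ne_zero_of_mul h, oy_ne (yk_pos_T1 k) (right_ne_zero_of_mul h)⟩

lemma nn_RR (x κ : ℝ) : Nn (RR x κ) := nn_bf _ _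

lemma FW.nn_lam {x κ : ℝ} {w : ℕ} {lam e : AF} (h : FW x κ w lam e) : Nn (lam * zt) :=
  fun n => (nn_RR x κ n).trans (h.maj n)

lemma FW.nn_up {x κ : ℝ} {w : ℕ} {lam e : AF} (h : FW x κ w lam e) (k : ℕ) :
    Nn (up x κ lam k) := by
  unfold up
  split_ifs
  exacts [nn_pc (nn_RR x κ) k, nn_pc h.nn_lam k]

lemma FW.le_up {x κ : ℝ} {w : ℕ} {lam e : AF} (h : FW x κ w lam e) (k : ℕ) :
    Le (pc (RR x κ) k) (up x κ lam k) := by
  unfold up
  split_ifs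
  exacts [Le.refl _, fun n => mul_le_mul_of_nonneg_right (h.maj n) (oy_nn (yk_pos_T1 k) n)]

lemma FW.er_nn {x κ : ℝ} {w : ℕ} {lam e G : AF} (h : FW x κ w lam e) (hx : 0 ≤ x) (hG : Nn G)
    (k1 k2 : ℕ) : 0 ≤ er x κ lam e G k1 k2 :=
  SB_nonneg hx fun n _ => (nn_pm (hG.mul (h.nn_up k1)) (rg_nn _ _)).mul (nn_pc h.pos k2) n

/-- the pieces add up -/
lemma sum_pc (f : AF) {n m : ℕ} (h : (m : ℝ) ≤ yk_T1 n) : (∑ k ∈ range n, pc f k) m = f m := by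
  rcases Nat.eq_zero_or_pos m with rfl | hm
  · simp
  · rw [AF_sum]
    have := tel_T1 (l := m) (by exact_mod_cast hm) h
    calc _ = f m * ∑ k ∈ range n, DH.om ((m : ℝ) / yk_T1 k) := by rw [mul_sum]; rfl
      _ = _ := by rw [this, mul_one]

lemma yk_mono : Monotone yk_T1 := fun _ _ h =>
  mul_le_mul_of_nonneg_left (pow_le_pow_right₀ (by norm_num) h) (by norm_num)

lemma sum_pc_le {f : AF} (hf : Nn f) (s : Finset ℕ) : Le (∑ k ∈ s, pc f k) f := by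
  intro m
  obtain ⟨n, hn⟩ := pow_unbounded_of_one_lt ((m : ℝ) * (4 / 3)) (show (1 : ℝ) < 4 / 3 by norm_num)
  have h1 : (m : ℝ) ≤ yk_T1 (max n (s.sup id + 1)) := by
    refine le_trans ?_ (yk_mono (le_max_left _ _))
    unfold yk_T1
    linarith
  rw [← sum_pc f h1, AF_sum, AF_sum]
  refine sum_le_sum_of_subset_of_nonneg (fun k hk => mem_range.2 ?_) fun k _ _ => nn_pc hf k m
  exact lt_of_lt_of_le (Nat.lt_succ_of_le (le_sup (f := id) hk)) (le_max_right _ _)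

lemma LL_big {x : ℝ} : ⌊2 * x⌋₊ < 2 ^ LL x := Nat.lt_pow_succ_log_self one_lt_two _

lemma nn_big {x : ℝ} (hx : 3 ≤ x) : 2 * x ≤ yk_T1 (nn x) := big_T1 hx

/-- the divisor bound for products -/
lemma div_all (ι : Type) [Fintype ι] {δ : ℝ} (hδ : 0 < δ) : ∀ᶠ x : ℝ in atTop, ∀ f : ι → AF,
    (∀ i d, |f i d| ≤ 1) → ∀ n : ℕ, (n : ℝ) ≤ 2 * x → |(∏ i, f i) n| ≤ x ^ δ := by
  filter_upwards [div_Id (Fintype.card ι) 1 hδ, eventually_ge_atTop 2] with x ⟨Δ, h1, h2, h3⟩ hx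
    f hf n hn
  have h4 : n ≤ ⌊x ^ 2⌋₊ := Nat.le_floor (by nlinarith)
  refine (prod_le_Id univ f (fun i _ => hf i) h1 h2 n h4).trans (le_trans ?_ h3)
  rw [Nat.cast_one, one_mul, card_univ]
  exact pow_le_pow_right₀ h1 (Nat.le_succ _)

end Pool.Agent.MP_c853c5_nt.D2

end

section

set_option autoImplicit false

open Finset Filter

namespace Pool.Agent.MP_c853c5_nt.D2

open Pool.Agent.MP_c853c5_nt.S Pool.Agent.MP_c853c5_nt.D

lemma le_FW2 {x κ : ℝ} (hx : 2 ≤ x) (d : ℕ) : RR x κ d ≤ Z.rgh ⌊x ^ κ⌋₊ d := by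
  unfold Z.rgh
  split_ifs with h
  · exact bf_le_one _ _ _
  · refine (bf_of_not fun k => h fun p hp hd => ?_).le
    exact (Nat.floor_lt (by positivity)).2 (k.2.2.2.1 p hp hd)

lemma ms_FW2 {v : AF} {D X : ℕ} (h : ∀ d, v d ≠ 0 → d ≤ D) (hX : D ≤ X) :
    ms X v = ∑ d ∈ Icc 1 D, v d / d := by
  refine (sum_subset (Icc_subset_Icc_right hX) fun d hd hn => ?_).symm
  have : v d = 0 := by_contra fun k => hn (mem_Icc.2 ⟨(mem_Icc.1 hd).1, h d k⟩)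
  rw [this, zero_div]

theorem d2FW : FWStmt := by
  intro κ w hκ hw
  filter_upwards [eventually_ge_atTop 2, (tendsto_rpow_atTop hκ).eventually_ge_atTop 2]
    with x hx h2
  have hz : 2 ≤ ⌊x ^ κ⌋₊ := Nat.le_floor (by exact_mod_cast h2)
  obtain ⟨u, v, a1, a2, a3, a4, a5⟩ := Z.fl_all w _ hw hz
  have u0 : u 0 = 0 := by_contra fun h => not_squarefree_zero (a2 0 (Or.inl h)).1
  have v0 : v 0 = 0 := by_contra fun h => not_squarefree_zero (a2 0 (Or.inr h)).1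
  obtain ⟨u, rfl⟩ : ∃ U : AF, ⇑U = u := ⟨⟨u, u0⟩, rfl⟩
  obtain ⟨v, rfl⟩ : ∃ U : AF, ⇑U = v := ⟨⟨v, v0⟩, rfl⟩
  have hx0 : 0 < x := by linarith
  have b1 : ((⌊x ^ κ⌋₊ ^ (4 * w + 6) : ℕ) : ℝ) ≤ x ^ (κ * (4 * w + 6)) := by
    rw [Nat.cast_pow]
    refine (pow_le_pow_left₀ (Nat.cast_nonneg _) (Nat.floor_le (by positivity)) _).trans ?_
    rw [← Real.rpow_mul_natCast hx0.le]
    refine Real.rpow_le_rpow_of_exponent_le (by linarith) ?_
    push_cast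
    exact le_rfl
  have b2 : ∀ d, u d ≠ 0 ∨ v d ≠ 0 → (d : ℝ) ≤ x ^ (κ * (4 * w + 6)) := fun d h =>
    le_trans (by exact_mod_cast (a2 d h).2.1) b1
  have c1 : (2 : ℝ) ≤ ⌊x ^ κ⌋₊ := by exact_mod_cast hz
  have c2 := Nat.lt_floor_add_one (x ^ κ)
  have c3 : κ * Real.log x ≤ 2 * Real.log ⌊x ^ κ⌋₊ := by
    rw [← Real.log_rpow hx0, ← Nat.cast_ofNat, ← Real.log_pow]
    exact Real.log_le_log (by positivity) (by nlinarith)
  have c4 : 0 < Real.log x := Real.log_pos (by linarith)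
  have c5 : 0 < κ * Real.log x / 2 := by positivity
  have z : ∀ (f : AF) (n : ℕ), (f * zt) n = ∑ d ∈ n.divisors, f d := fun f n => by
    rw [zt, ArithmeticFunction.coe_mul_zeta_apply]
  refine ⟨u, v, fun d => (a1 d).1, fun d => (a1 d).2, fun d h => b2 d (Or.inl h),
    fun d h => b2 d (Or.inr h), fun n => ?_, fun n => ?_, fun n hn => ?_, fun X hX => ?_,
    fun X hX => ?_⟩
  · rcases Nat.eq_zero_or_pos n with rfl | h
    · simp
    · rw [z]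
      exact (le_FW2 hx n).trans (a3 n h).1
  · rcases Nat.eq_zero_or_pos n with rfl | h
    · simp
    · rw [z]
      linarith [(a3 n h).1, (a3 n h).2]
  · rcases Nat.eq_zero_or_pos n with rfl | h
    · simp
    · rw [z, z, RR, bf_T1R hx h.ne' hn]
      exact (a3 n h).2
  · rw [ms_FW2 (fun d h => (a2 d (Or.inl h)).2.1) (by exact_mod_cast b1.trans hX)]
    refine a5.trans ((div_le_div_of_nonneg_left (by positivity) c5 (by linarith)).trans ?_)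
    apply le_of_eq
    field_simp
    norm_num
  · rw [ms_FW2 (fun d h => (a2 d (Or.inr h)).2.1) (by exact_mod_cast b1.trans hX)]
    refine a4.trans ((div_le_div_of_nonneg_left (by positivity) c5 (by linarith)).trans ?_)
    apply le_of_eq
    field_simp

theorem d2Err : ErrStmt := by
  intro κ w hκ hl
  obtain ⟨C, hC, hS⟩ := dSZ
  filter_upwards [eventually_ge_atTop 2,
    (tendsto_rpow_atTop (show (0 : ℝ) < 1 / 100 by norm_num)).eventually_ge_atTop C]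
    with x x2 xC lam e G hF hG hb
  have x1 : 1 ≤ x := by linarith
  have x0 : 0 < x := by linarith
  have s3 : ∀ s : ℝ, s ≤ 1 → x ^ s ≤ ⌊2 * x⌋₊ := fun s hs => by
    have k := Real.rpow_le_rpow_of_exponent_le x1 hs
    rw [Real.rpow_one] at k
    linarith [Nat.lt_floor_add_one (2 * x)]
  have p0 : 0 < x ^ (1 / 100 : ℝ) := by positivity
  have n0 : Nn (low x G) := nn_pm hG (rg_nn _ _)
  have n1 : Le (low x G) G := pm_le hG (rg_le _ _)
  have n2 : ∀ n, low x G n ≠ 0 → (n : ℝ) ≤ x ^ (19 / 20 : ℝ) := fun n hn => by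
    have k : rg 0 (x ^ (19 / 20 : ℝ)) n ≠ 0 := right_ne_zero_of_mul hn
    by_contra h
    exact k (if_neg fun h' => h h'.2)
  have n3 : ∀ n, low x G n ≤ x ^ (1 / 100 : ℝ) := fun n => by
    by_cases h : low x G n = 0
    · rw [h]
      exact p0.le
    · refine (n1 n).trans (hb n (((n2 n h).trans (s3 _ (by norm_num))).trans ?_))
      exact Nat.floor_le (by linarith)
  have e2 : ∀ d, e d ≠ 0 → (d : ℝ) ≤ x ^ (1 / 100 : ℝ) := fun d h =>
    (hF.s2 d h).trans (Real.rpow_le_rpow_of_exponent_le x1 hl)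
  have s2 : (∏ _i : Unit, x ^ (19 / 20 : ℝ)) * x ^ (1 / 100 : ℝ) ≤ x ^ (96 / 100 : ℝ) := by
    rw [Fintype.prod_unique, ← Real.rpow_add x0]
    exact Real.rpow_le_rpow_of_exponent_le x1 (by norm_num)
  obtain ⟨m1, m2⟩ := long_T1R (ι := Unit) (g := fun _ => (x ^ (1 / 100 : ℝ))⁻¹ • low x G)
    (A := fun _ => x ^ (19 / 20 : ℝ)) (gap := e) (X := ⌊2 * x⌋₊)
    (fun _ => Real.one_le_rpow x1 (by norm_num)) (Real.one_le_rpow x1 (by norm_num))
    (fun _ n => mul_nonneg (by positivity) (n0 n))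
    (fun _ n => by
      rw [AF_smul, abs_of_nonneg (mul_nonneg (by positivity) (n0 n)), inv_mul_le_iff₀ p0, mul_one]
      exact n3 n)
    (fun _ n h => n2 n (right_ne_zero_of_mul h)) hF.b2 e2 (s2.trans (s3 _ (by norm_num)))
    (hF.m2 _ (s3 _ (by linarith)))
  replace m2 := m2.trans s2
  simp only [Fintype.prod_unique] at m1 m2
  obtain ⟨c, c0, c2, hc⟩ := hS x (x ^ (-(1 / 1000) : ℝ)) x1 (by positivity)
    (Real.rpow_le_one_of_one_le_of_nonpos x1 (by norm_num))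
  have d3 := (abs_le.1 (hc ((x ^ (1 / 100 : ℝ))⁻¹ • low x G * e))).2
  have L0 : 0 < Real.log x := Real.log_pos (by linarith)
  have m3 : ms ⌊2 * x⌋₊ ((x ^ (1 / 100 : ℝ))⁻¹ • low x G) ≤
      (x ^ (1 / 100 : ℝ))⁻¹ * ms ⌊2 * x⌋₊ G := by
    unfold ms
    rw [mul_sum]
    refine sum_le_sum fun m _ => ?_
    rw [AF_smul, mul_div_assoc]
    exact mul_le_mul_of_nonneg_left (div_le_div_of_nonneg_right (n1 m) (Nat.cast_nonneg _))
      (by positivity)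
  have m4 := ms_nn_One ⌊2 * x⌋₊ hG
  have d4 : c * x * ms ⌊2 * x⌋₊ ((x ^ (1 / 100 : ℝ))⁻¹ • low x G * e) ≤
      2 * x * ((x ^ (1 / 100 : ℝ))⁻¹ * ms ⌊2 * x⌋₊ G * (2 ^ 26 / 4 ^ w / (κ * Real.log x))) :=
    (mul_le_mul_of_nonneg_left (m1.trans (mul_le_mul_of_nonneg_right m3 (by positivity)))
      (by positivity)).trans (by gcongr)
  have d5 : C / x ^ (-(1 / 1000) : ℝ) *
      ∑ m ∈ Icc 1 ⌊2 * x⌋₊, |((x ^ (1 / 100 : ℝ))⁻¹ • low x G * e) m| ≤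
      (x ^ (1 / 100 : ℝ))⁻¹ * x ^ (99 / 100 : ℝ) := by
    refine (mul_le_mul_of_nonneg_left m2 (by positivity)).trans ?_
    rw [Real.rpow_neg x0.le, div_inv_eq_mul, mul_assoc, ← Real.rpow_add x0, ← Real.rpow_neg x0.le,
      ← Real.rpow_add x0]
    refine (mul_le_mul_of_nonneg_right xC (by positivity)).trans ?_
    rw [← Real.rpow_add x0]
    exact Real.rpow_le_rpow_of_exponent_le x1 (by norm_num)
  rw [smul_mul_assoc, smul_mul_assoc, SS_smul, mul_assoc (low x G), ← smul_mul_assoc] at d3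
  have d6 : (x ^ (1 / 100 : ℝ))⁻¹ * SB x (low x G * (e * zt)) ≤ (x ^ (1 / 100 : ℝ))⁻¹ *
      (2 ^ 27 / 4 ^ w / κ * ms ⌊2 * x⌋₊ G * (x / Real.log x) + x ^ (99 / 100 : ℝ)) := by
    have e1 : (x ^ (1 / 100 : ℝ))⁻¹ * (2 ^ 27 / 4 ^ w / κ * ms ⌊2 * x⌋₊ G * (x / Real.log x)) =
        2 * x * ((x ^ (1 / 100 : ℝ))⁻¹ * ms ⌊2 * x⌋₊ G * (2 ^ 26 / 4 ^ w / (κ * Real.log x))) := by
      field_simp
    rw [mul_add, e1]
    unfold SB
    linarith
  exact le_of_mul_le_mul_left d6 (by positivity)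

end Pool.Agent.MP_c853c5_nt.D2

end

section

/-!
The logarithmic mass of a sieved function with a smooth weight.
-/

set_option autoImplicit false

open Finset Filter

namespace Pool.Agent.MP_c853c5_nt.D2

open Pool.Agent.MP_c853c5_nt.S Pool.Agent.MP_c853c5_nt.D Pool.Agent.MP_2a1f0e_nt

lemma supp_Om2 {a b : ℝ} (ha : a ≤ 1) (hb : 2 ≤ b) :
    Function.support (fun s : ℝ => DH.om s / s) ⊆ Set.Ioc a b := fun s hs => by
  have h : ¬(s ≤ 1 ∨ 5 / 3 ≤ s) := fun k => hs (div_eq_zero_iff.2 (Or.inl (DH.om_eq_zero k)))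
  rw [not_or, not_le, not_le] at h
  exact ⟨by linarith [h.1], by linarith [h.2]⟩

/-- the constant -/
noncomputable def cc_Om2 : ℝ := ∫ s in (1 : ℝ)..2, DH.om s / s

lemma cc_le_Om2 : 0 ≤ cc_Om2 ∧ cc_Om2 ≤ 1 := by
  refine ⟨intervalIntegral.integral_nonneg one_le_two fun s hs =>
    div_nonneg (E.om_nonneg (by linarith [hs.1])) (by linarith [hs.1]), ?_⟩
  have h := intervalIntegral.norm_integral_le_of_norm_le_const (a := 1) (b := 2) (C := 1)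
    (f := fun s : ℝ => DH.om s / s) fun s hs => by
      rw [Set.uIoc_of_le one_le_two] at hs
      have h0 : 0 < s := by linarith [hs.1]
      have h1 := DH.psi_le_one (3 / 4 * s)
      have h2 := DH.psi_nonneg s
      rw [Real.norm_of_nonneg (div_nonneg (E.om_nonneg h0.le) h0.le), div_le_one h0, DH.om]
      linarith [hs.1]
  refine (le_abs_self _).trans (h.trans_eq ?_)
  norm_num

lemma int_Om2 {Y T : ℝ} (hY : 0 < Y) (hT : 2 * Y ≤ T) :
    ∫ u in (0 : ℝ)..T, DH.om (u / Y) / u = cc_Om2 := by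
  have h := intervalIntegral.integral_comp_div (a := 0) (b := T) (fun s : ℝ => DH.om s / s) hY.ne'
  rw [intervalIntegral.integral_eq_integral_of_support_subset (a := 0 / Y)
    (supp_Om2 (by simp) ((le_div_iff₀ hY).2 hT)),
    ← intervalIntegral.integral_eq_integral_of_support_subset (supp_Om2 le_rfl le_rfl)] at h
  apply mul_left_cancel₀ hY.ne'
  rw [← intervalIntegral.integral_const_mul]
  refine Eq.trans (intervalIntegral.integral_congr fun u _ => ?_) h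
  simp only [div_div_eq_mul_div]
  ring

lemma mono_Om2 {Y c : ℝ} (hY : 0 < Y) (hc : 0 ≤ c) :
    Monotone (fun u : ℝ => Y⁻¹ - DH.psi (c * (max u Y / Y)) / max u Y) ∧
      ∀ u : ℝ, 0 ≤ Y⁻¹ - DH.psi (c * (max u Y / Y)) / max u Y ∧
        Y⁻¹ - DH.psi (c * (max u Y / Y)) / max u Y ≤ Y⁻¹ := by
  have h0 : ∀ u, 0 < max u Y := fun u => hY.trans_le (le_max_right _ _)
  refine ⟨fun u v h => sub_le_sub_left ?_ _, fun u => ⟨sub_nonneg.2 ?_,
    sub_le_self _ (div_nonneg (DH.psi_nonneg _) (h0 u).le)⟩⟩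
  · have h1 := max_le_max_right Y h
    exact div_le_div₀ (DH.psi_nonneg _) (DH.psi_anti (by gcongr)) (h0 u) h1
  · rw [← one_div]
    exact div_le_div₀ zero_le_one (DH.psi_le_one _) hY (le_max_right _ _)

lemma one_Om2 {Y : ℝ} (hY : 0 < Y) {N : ℕ} (hN : 2 * Y ≤ N) :
    |∑ l ∈ Ioc 0 N, DH.om ((l : ℝ) / Y) / l - cc_Om2| ≤ 2 / Y := by
  obtain ⟨mA, hA⟩ := mono_Om2 hY zero_le_one
  obtain ⟨mB, hB⟩ := mono_Om2 hY (show (0 : ℝ) ≤ 3 / 4 by norm_num)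
  have e : ∀ u : ℝ, DH.om (u / Y) / u = (Y⁻¹ - DH.psi (1 * (max u Y / Y)) / max u Y) -
      (Y⁻¹ - DH.psi (3 / 4 * (max u Y / Y)) / max u Y) := fun u => by
    rcases le_total u Y with h | h
    · rw [max_eq_right h, div_self hY.ne', DH.om_eq_zero (Or.inl ((div_le_one hY).2 h)),
        DH.psi_eq_one (by norm_num), DH.psi_eq_one (by norm_num), zero_div, sub_self]
    · rw [max_eq_left h, one_mul, DH.om]
      ring
  have b1 := abs_le.1 (mono_SZ mA (fun u => (hA u).1) (fun u => (hA u).2) N)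
  have b2 := abs_le.1 (mono_SZ mB (fun u => (hB u).1) (fun u => (hB u).2) N)
  have s1 : ∑ l ∈ Ioc 0 N, DH.om ((l : ℝ) / Y) / l =
      ∑ i ∈ range N, DH.om (((i + 1 : ℕ) : ℝ) / Y) / (i + 1 : ℕ) := by
    rw [range_eq_Ico, sum_Ico_add' (fun l : ℕ => DH.om ((l : ℝ) / Y) / l)]
    rfl
  rw [s1, ← int_Om2 hY hN]
  simp only [e]
  rw [intervalIntegral.integral_sub mA.intervalIntegrable mB.intervalIntegrable, sum_sub_distrib,
    div_eq_mul_inv 2, abs_le]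
  constructor <;> linarith [b1.1, b1.2, b2.1, b2.2]

lemma conv_Om2 (N : ℕ) (F : ℕ → ℕ → ℝ) (h : ∀ d l, N < d * l → F d l = 0) :
    ∑ n ∈ Ioc 0 N, ∑ x ∈ n.divisorsAntidiagonal, F x.1 x.2 =
      ∑ d ∈ Ioc 0 N, ∑ l ∈ Ioc 0 N, F d l := by
  rw [← sum_product', sum_congr rfl fun n hn => by
    rw [Nat.divisorsAntidiagonal_eq_prod_filter_of_le (mem_Ioc.1 hn).1.ne' (mem_Ioc.1 hn).2],
    sum_fiberwise_eq_sum_filter]
  refine sum_filter_of_ne fun x hx h0 => mem_Ioc.2 ⟨?_, not_lt.1 fun k => h0 (h _ _ k)⟩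
  rw [mem_product, mem_Ioc, mem_Ioc] at hx
  exact Nat.mul_pos hx.1.1 hx.2.1

lemma ms_Om2 (lam : AF) {y : ℝ} (hy : 0 < y) {N : ℕ} (hN : 2 * y ≤ N) :
    ms N (pm (lam * zt) (oy y)) =
      ∑ d ∈ Ioc 0 N, lam d / d * ∑ l ∈ Ioc 0 N, DH.om ((l : ℝ) / (y / d)) / l := by
  have h := conv_Om2 N (fun d l => lam d * zt l * oy y (d * l) / (d * l : ℕ)) fun d l k => by
    have : oy y (d * l) = 0 := by
      by_contra h0
      have h1 := (oy_ne hy h0).2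
      have h2 : (N : ℝ) < (d * l : ℕ) := by exact_mod_cast k
      linarith
    rw [this, mul_zero, zero_div]
  refine Eq.trans (sum_congr rfl fun n _ => ?_) (h.trans (sum_congr rfl fun d _ => ?_))
  · rw [pm_apply, ArithmeticFunction.mul_apply, sum_mul, sum_div]
    refine sum_congr rfl fun x hx => ?_
    rw [(Nat.mem_divisorsAntidiagonal.1 hx).1]
  · rw [mul_sum]
    refine sum_congr rfl fun l hl => ?_
    have h1 : zt l = 1 := by simp [zt, (mem_Ioc.1 hl).1.ne']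
    rw [h1, oy, Nat.cast_mul, div_div_eq_mul_div, mul_comm (l : ℝ) d]
    ring

theorem d2Om : OmStmt := by
  refine ⟨2, two_pos, fun lam D y U X h1 h2 hD hy hU h3 h4 => ?_⟩
  obtain ⟨N, hN⟩ := exists_nat_ge (X + 2 * y + D)
  have hX : (0 : ℝ) ≤ X := Nat.cast_nonneg _
  have a1 : ms X (pm (lam * zt) (oy y)) ≤ ms N (pm (lam * zt) (oy y)) :=
    sum_le_sum_of_subset_of_nonneg
      (Icc_subset_Icc_right (by exact_mod_cast (show (X : ℝ) ≤ N by linarith)))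
      fun n _ _ => div_nonneg (mul_nonneg (h3 n) (oy_nn hy n)) (Nat.cast_nonneg _)
  have a2 : cc_Om2 * ms N lam ≤ U :=
    (mul_le_mul_of_nonneg_left (h4 N (by linarith)) cc_le_Om2.1).trans
      (mul_le_of_le_one_left hU cc_le_Om2.2)
  have a3 : ∑ d ∈ Ioc 0 N, |lam d| ≤ D := by
    rw [← sum_subset (s₁ := Ioc 0 ⌊D⌋₊) (Ioc_subset_Ioc_right (Nat.floor_le_of_le (by linarith)))
      fun d hd hd' => by
        by_contra h0
        exact hd' (mem_Ioc.2 ⟨(mem_Ioc.1 hd).1, Nat.le_floor (h2 d (abs_ne_zero.1 h0))⟩)]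
    refine (sum_le_card_nsmul _ _ 1 fun d _ => h1 d).trans ?_
    rw [Nat.card_Ioc, tsub_zero, nsmul_one]
    exact Nat.floor_le (by linarith)
  have a4 : ms N (pm (lam * zt) (oy y)) - cc_Om2 * ms N lam ≤ 2 / y * ∑ d ∈ Ioc 0 N, |lam d| := by
    rw [ms_Om2 lam hy (by linarith), ms, show Icc 1 N = Ioc 0 N from rfl, mul_sum, mul_sum,
      ← sum_sub_distrib]
    refine sum_le_sum fun d hd => ?_
    have d1 : (1 : ℝ) ≤ d := by exact_mod_cast (mem_Ioc.1 hd).1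
    have d0 : (0 : ℝ) < d := by linarith
    have b := one_Om2 (div_pos hy d0) (N := N) (by linarith [div_le_self hy.le d1])
    rw [mul_comm cc_Om2, ← mul_sub]
    refine (le_abs_self _).trans ?_
    rw [abs_mul, abs_div, abs_of_pos d0]
    refine (mul_le_mul_of_nonneg_left b (by positivity)).trans_eq ?_
    field_simp
  have a5 := mul_le_mul_of_nonneg_left a3 (show 0 ≤ 2 / y by positivity)
  rw [show 2 * D / y = 2 / y * D by ring]
  linarith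

end Pool.Agent.MP_c853c5_nt.D2

end

section

/-!
The mass and the size of the sum of the majorants.
-/

set_option autoImplicit false

open Finset Filter

namespace Pool.Agent.MP_c853c5_nt.D2

open Pool.Agent.MP_c853c5_nt.S Pool.Agent.MP_c853c5_nt.D

lemma ms_mono_Tm2 (X : ℕ) {f g : AF} (h : Le f g) : ms X f ≤ ms X g :=
  sum_le_sum fun m _ => div_le_div_of_nonneg_right (h m) (Nat.cast_nonneg m)

lemma ms_sum_Tm2 (X : ℕ) (s : Finset ℕ) (f : ℕ → AF) :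
    ms X (∑ k ∈ s, f k) = ∑ k ∈ s, ms X (f k) := by
  unfold ms
  rw [sum_comm]
  exact sum_congr rfl fun m _ => by rw [AF_sum, sum_div]

lemma ms_RR_Tm2 {κ : ℝ} (h0 : 0 < κ) (h1 : κ ≤ 1) :
    ∀ᶠ x : ℝ in atTop, ms ⌊2 * x⌋₊ (RR x κ) ≤ 36 / κ ^ 2 := by
  filter_upwards [rcp_Ms h0 h1, eventually_ge_atTop 2] with x hx hx2
  have h3 : Real.exp (2 * Real.log (6 / κ)) = 36 / κ ^ 2 := by
    rw [two_mul, Real.exp_add, Real.exp_log (by positivity)]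
    ring
  rw [← h3]
  refine (euler_Ms (Ioc ⌊x ^ κ⌋₊ ⌊x ^ (2 : ℝ)⌋₊) ⌊2 * x⌋₊ (RR x κ) (bf_le_one _ _)
    fun m hm => ?_).trans (Real.exp_le_exp.2 (mul_le_mul_of_nonneg_left hx (by norm_num)))
  by_cases h : (fr κ).Mem x m
  · refine Or.inr fun p hp hd => mem_Ioc.2 ⟨?_, ?_⟩
    · rw [Nat.floor_lt (by positivity)]
      exact h.2.2.2.1 p hp hd
    · exact le_floor_Ms hx2 ((Nat.le_of_dvd (mem_Icc.1 hm).1 hd).trans (mem_Icc.1 hm).2)
  · exact Or.inl (bf_of_not h)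

lemma zt_le_Tm2 (d : ℕ) : |zt d| ≤ 1 := by
  rcases eq_or_ne d 0 with rfl | h
  · simp
  · simp [zt, h]

theorem d2Tm : TmStmt := by
  rintro ⟨C, hC, hOm⟩ κ w h0 hw
  have hw0 : (0 : ℝ) ≤ w := Nat.cast_nonneg w
  have hκ : κ ≤ 1 / 600 := by nlinarith
  filter_upwards [ms_RR_Tm2 h0 (by linarith), div_all (Fin 2) (show (0 : ℝ) < 1 / 400 by norm_num),
    E.ev_log_le (9 * C) 1 (show (0 : ℝ) < 1 / 25 by norm_num), E.ev_le_log 1,
    eventually_ge_atTop 1] with x h1 h2 h3 h4 hx lam e hF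
  have hx0 : 0 < x := by linarith
  refine ⟨?_, fun n hn => ?_⟩
  · have h5 : (nn x : ℝ) ≤ 9 * Real.log x := by
      have := Nat.ceil_lt_add_one (show 0 ≤ 8 * Real.log x by linarith)
      unfold nn
      linarith
    have h6 : x ^ (1 / 20 : ℝ) = x ^ (1 / 100 : ℝ) * x ^ (1 / 25 : ℝ) := by
      rw [← Real.rpow_add hx0]
      norm_num
    have h7 : 0 < x ^ (1 / 25 : ℝ) := by positivity
    have hU : 0 ≤ 4 / (κ * Real.log x) := by positivity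
    have key : ∀ k ∈ range (nn x), ms ⌊2 * x⌋₊ (up x κ lam k) ≤
        ms ⌊2 * x⌋₊ (pc (RR x κ) k) + (4 / (κ * Real.log x) + C / x ^ (1 / 25 : ℝ)) := by
      intro k _
      unfold up
      split_ifs with hk
      · exact le_add_of_nonneg_right (by positivity)
      · refine le_trans ?_ (le_add_of_nonneg_left (ms_nn_One _ (nn_pc (nn_RR x κ) k)))
        refine (hOm lam _ _ _ _ hF.b1 hF.s1 (Real.one_le_rpow hx (by positivity)) (yk_pos_T1 k)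
          hU hF.nn_lam hF.m1).trans (add_le_add_right ?_ _)
        rw [div_le_div_iff₀ (yk_pos_T1 k) h7, mul_assoc]
        refine mul_le_mul_of_nonneg_left (le_trans ?_ (not_lt.1 hk)) hC.le
        rw [h6]
        exact mul_le_mul_of_nonneg_right (Real.rpow_le_rpow_of_exponent_le hx hw) h7.le
    rw [ms_sum_Tm2]
    refine (sum_le_sum key).trans ?_
    rw [sum_add_distrib, ← ms_sum_Tm2, sum_const, card_range, nsmul_eq_mul]
    have h8 := (ms_mono_Tm2 ⌊2 * x⌋₊ (sum_pc_le (nn_RR x κ) (range (nn x)))).trans h1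
    have h9 : (nn x : ℝ) * (4 / (κ * Real.log x) + C / x ^ (1 / 25 : ℝ)) ≤ 36 / κ + 1 := by
      refine (mul_le_mul_of_nonneg_right h5 (by positivity)).trans ?_
      have e1 : 9 * Real.log x * (4 / (κ * Real.log x)) = 36 / κ := by
        field_simp
        norm_num
      rw [mul_add, e1, ← mul_div_assoc]
      refine add_le_add_right ((div_le_one h7).2 ?_) _
      rw [pow_one] at h3
      linarith
    have h10 : 36 / κ + 1 ≤ 92 / κ ^ 2 := by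
      rw [div_add_one h0.ne', div_le_div_iff₀ h0 (by positivity)]
      nlinarith [mul_pos h0 h0]
    have h11 : (2 : ℝ) ^ 7 / κ ^ 2 = 36 / κ ^ 2 + 92 / κ ^ 2 := by ring
    linarith
  · have h5 := h2 ![lam, zt] (fun i => by
      fin_cases i
      exacts [hF.b1, zt_le_Tm2]) n hn
    rw [Fin.prod_univ_two] at h5
    refine le_trans ?_ ((sum_pc_le hF.nn_lam (range (nn x)) n).trans ((le_abs_self _).trans h5))
    rw [AF_sum, AF_sum]
    refine sum_le_sum fun k _ => ?_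
    unfold up
    split_ifs
    exacts [mul_le_mul_of_nonneg_right (hF.maj n) (oy_nn (yk_pos_T1 k) n), le_rfl]

end Pool.Agent.MP_c853c5_nt.D2

end

section

/-!
Type I bounds with sieve weights on one or two smooth factors.
-/

set_option autoImplicit false

open Finset Filter

namespace Pool.Agent.MP_c853c5_nt.D2

open Pool.Agent.MP_c853c5_nt.S Pool.Agent.MP_c853c5_nt.D Pool.Agent.MP_2a1f0e_nt

lemma sgl_def_Ta2 (d n : ℕ) : sgl d n = if n = d ∧ n ≠ 0 then 1 else 0 := rfl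

lemma sgl_apply_Ta2 {d : ℕ} (hd : d ≠ 0) (f : AF) (n : ℕ) :
    (sgl d * f) n = if d ∣ n then f (n / d) else 0 := by
  rcases eq_or_ne n 0 with rfl | hn
  · simp
  rw [ArithmeticFunction.mul_apply, Nat.sum_divisorsAntidiagonal fun a b => sgl d a * f b]
  split_ifs with h
  · rw [sum_eq_single_of_mem d (Nat.mem_divisors.2 ⟨h, hn⟩), sgl_def_Ta2, if_pos ⟨rfl, hd⟩,
      one_mul]
    intro b _ hb
    rw [sgl_def_Ta2, if_neg fun k => hb k.1, zero_mul]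
  · refine sum_eq_zero fun b hb => ?_
    rw [sgl_def_Ta2, if_neg fun k : b = d ∧ b ≠ 0 => h (k.1 ▸ Nat.dvd_of_mem_divisors hb),
      zero_mul]

lemma sgl_mul_Ta2 {a b : ℕ} (ha : a ≠ 0) : sgl a * sgl b = sgl (a * b) := by
  ext n
  rw [sgl_apply_Ta2 ha]
  split_ifs with h
  · obtain ⟨k, rfl⟩ := h
    rw [Nat.mul_div_cancel_left _ (Nat.pos_of_ne_zero ha), sgl_def_Ta2, sgl_def_Ta2]
    simp [ha]
  · rw [sgl_def_Ta2, if_neg fun k : n = a * b ∧ n ≠ 0 => h (k.1 ▸ dvd_mul_right a b)]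

lemma pm_sgl_Ta2 {d : ℕ} (hd : d ≠ 0) (y : ℝ) :
    pm (sgl d * zt) (oy y) = sgl d * omz (y / d) := by
  ext n
  rw [pm_apply, sgl_apply_Ta2 hd, sgl_apply_Ta2 hd]
  split_ifs with h
  · obtain ⟨k, rfl⟩ := h
    rw [Nat.mul_div_cancel_left _ (Nat.pos_of_ne_zero hd)]
    rcases eq_or_ne k 0 with rfl | hk
    · simp
    · have h1 : zt k = 1 := by
        simp [zt, ArithmeticFunction.natCoe_apply, ArithmeticFunction.zeta_apply, hk]
      rw [h1, one_mul]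
      change DH.om _ = DH.om _
      rw [Nat.cast_mul, div_div_eq_mul_div, mul_comm]
  · rw [zero_mul]

lemma pm_exp_Ta2 {lam : AF} {D : ℕ} (h : ∀ d, lam d ≠ 0 → d ≤ D) (y : ℝ) :
    pm (lam * zt) (oy y) = ∑ d ∈ Icc 1 D, lam d • (sgl d * omz (y / d)) := by
  ext n
  conv_lhs => rw [lam_T1 h]
  rw [pm_apply, sum_mul, AF_sum, AF_sum, sum_mul]
  refine sum_congr rfl fun d hd => ?_
  rw [← pm_sgl_Ta2 (Nat.one_le_iff_ne_zero.1 (mem_Icc.1 hd).1), smul_mul_assoc, AF_smul, AF_smul,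
    pm_apply, mul_assoc]

lemma range_Ta2 {x τ t η γ γ₀ b y : ℝ} {d : ℕ} (hx : 1 ≤ x) (ht : 1 / 3 ≤ t) (hτ : τ ≤ 1 / 2)
    (hb : 1 / 10 ≤ b) (g1 : γ ≤ γ₀) (g2 : γ ≤ (τ - t) / 4) (h1 : x ^ (b - γ) ≤ y)
    (h2 : y ≤ x ^ (b + γ)) (hd : d ∈ Icc 1 ⌊x ^ lev τ t η⌋₊) :
    x ^ (b - (τ - t) / 2) ≤ y / d ∧ y / d ≤ x ^ (b + γ₀) ∧ 1 ≤ y / d := by
  have x0 : 0 < x := by linarith
  obtain ⟨d1, d2⟩ := mem_Icc.1 hd
  have d3 : (1 : ℝ) ≤ d := by exact_mod_cast d1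
  have d4 : (d : ℝ) ≤ x ^ ((τ - t) / 4) :=
    ((Nat.le_floor_iff (by positivity)).1 d2).trans
      (Real.rpow_le_rpow_of_exponent_le hx (min_le_right _ _))
  have y0 : 0 < y := (Real.rpow_pos_of_pos x0 _).trans_le h1
  have q : x ^ (b - (τ - t) / 2) ≤ y / d := by
    rw [le_div_iff₀ (by linarith)]
    calc x ^ (b - (τ - t) / 2) * d ≤ x ^ (b - (τ - t) / 2) * x ^ ((τ - t) / 4) := by gcongr
      _ ≤ x ^ (b - γ) := by
          rw [← Real.rpow_add x0]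
          exact Real.rpow_le_rpow_of_exponent_le hx (by linarith)
      _ ≤ y := h1
  exact ⟨q, (div_le_self y0.le d3).trans (h2.trans
    (Real.rpow_le_rpow_of_exponent_le hx (by linarith))),
    (Real.one_le_rpow hx (by linarith)).trans q⟩

lemma cnt_Ta2 {x : ℝ} (hx : 1 ≤ x) (τ t η : ℝ) : (⌊x ^ lev τ t η⌋₊ : ℝ) ≤ x ^ (η / 20) :=
  (Nat.floor_le (by positivity)).trans (Real.rpow_le_rpow_of_exponent_le hx (min_le_left _ _))

theorem d2Ta : TaStmt := by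
  intro hE ι _ τ t η K ht htτ hτ hη hη'
  obtain ⟨γ₀, h0, hE⟩ := hE ι τ t η K ht htτ hτ hη hη'
  refine ⟨min γ₀ ((τ - t) / 4), lt_min h0 (by linarith), ?_⟩
  have g1 := min_le_left γ₀ ((τ - t) / 4)
  have g2 := min_le_right γ₀ ((τ - t) / 4)
  generalize min γ₀ ((τ - t) / 4) = γ at g1 g2
  filter_upwards [hE, eventually_ge_atTop 1] with x hE x1
  intro a b N g lam y ha hb h1 hS hN y1 y2 hP hl hd
  have x0 : 0 < x := by linarith
  have e : (∏ i, g i) * pm (lam * zt) (oy y) =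
      ∑ d ∈ Icc 1 ⌊x ^ lev τ t η⌋₊, lam d • (sgl d * (∏ i, g i) * omz (y / d)) := by
    rw [pm_exp_Ta2 fun d h => Nat.le_floor (hd d h), mul_sum]
    refine sum_congr rfl fun d _ => ?_
    rw [mul_smul_comm, mul_left_comm, mul_assoc]
  rw [e, Dl_sum]
  calc _ ≤ ∑ d ∈ Icc 1 ⌊x ^ lev τ t η⌋₊, x ^ (1 - η / 5) := by
        refine (abs_sum_le_sum_abs _ _).trans (sum_le_sum fun d hd' => ?_)
        obtain ⟨q1, q2, q3⟩ := range_Ta2 x1 ht hτ h1.1 g1 g2 y1 y2 hd'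
        have d1 := (mem_Icc.1 hd').1
        have d0 : (d : ℝ) ≠ 0 := by positivity
        rw [Dl_smul, abs_mul]
        refine (mul_le_of_le_one_left (abs_nonneg _) (hl d)).trans
          (hE a b N g d _ ha hb h1 hS (fun i => (hN i).trans
            (Real.rpow_le_rpow_of_exponent_le x1 (by linarith))) q1 q2 q3 d1 (le_of_eq_of_le ?_ hP))
        field_simp
    _ = (⌊x ^ lev τ t η⌋₊ : ℝ) * x ^ (1 - η / 5) := by simp
    _ ≤ x ^ (η / 20) * x ^ (1 - η / 5) := by gcongr; exact cnt_Ta2 x1 τ t η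
    _ ≤ _ := by
        rw [← Real.rpow_add x0]
        exact Real.rpow_le_rpow_of_exponent_le x1 (by linarith)

theorem d2Tb : TbStmt := by
  intro hE ι _ τ t η K ht htτ hτ hη hη'
  obtain ⟨γ₀, h0, hE⟩ := hE ι τ t η K ht htτ hτ hη hη'
  refine ⟨min γ₀ ((τ - t) / 4), lt_min h0 (by linarith), ?_⟩
  have g1 := min_le_left γ₀ ((τ - t) / 4)
  have g2 := min_le_right γ₀ ((τ - t) / 4)
  generalize min γ₀ ((τ - t) / 4) = γ at g1 g2
  filter_upwards [hE, eventually_ge_atTop 1] with x hE x1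
  intro a b1 b2 N g l1 l2 y1 y2 ha hb1 hb2 h1 hS hN u1 u2 v1 v2 hP hl1 hl2 hd1 hd2
  have x0 : 0 < x := by linarith
  have e : (∏ i, g i) * pm (l1 * zt) (oy y1) * pm (l2 * zt) (oy y2) =
      ∑ d ∈ Icc 1 ⌊x ^ lev τ t η⌋₊, ∑ d' ∈ Icc 1 ⌊x ^ lev τ t η⌋₊,
        (l1 d * l2 d') • (sgl (d * d') * (∏ i, g i) * omz (y1 / d) * omz (y2 / d')) := by
    rw [pm_exp_Ta2 fun d h => Nat.le_floor (hd1 d h), pm_exp_Ta2 fun d h => Nat.le_floor (hd2 d h),
      mul_assoc, sum_mul_sum, mul_sum]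
    refine sum_congr rfl fun d hd => ?_
    rw [mul_sum]
    refine sum_congr rfl fun d' _ => ?_
    rw [smul_mul_smul_comm, mul_smul_comm,
      ← sgl_mul_Ta2 (Nat.one_le_iff_ne_zero.1 (mem_Icc.1 hd).1)]
    congr 1
    ring
  rw [e, Dl_sum]
  calc _ ≤ ∑ d ∈ Icc 1 ⌊x ^ lev τ t η⌋₊, ∑ d' ∈ Icc 1 ⌊x ^ lev τ t η⌋₊, x ^ (1 - η / 5) := by
        refine (abs_sum_le_sum_abs _ _).trans (sum_le_sum fun d hd => ?_)
        rw [Dl_sum]
        refine (abs_sum_le_sum_abs _ _).trans (sum_le_sum fun d' hd' => ?_)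
        obtain ⟨q1, q2, q3⟩ := range_Ta2 x1 ht hτ h1.1 g1 g2 u1 u2 hd
        obtain ⟨r1, r2, r3⟩ := range_Ta2 x1 ht hτ h1.2.1 g1 g2 v1 v2 hd'
        have d1 := (mem_Icc.1 hd).1
        have d2 := (mem_Icc.1 hd').1
        have d0 : (d : ℝ) ≠ 0 := by positivity
        have d0' : (d' : ℝ) ≠ 0 := by positivity
        rw [Dl_smul, abs_mul, abs_mul]
        refine (mul_le_of_le_one_left (abs_nonneg _)
          (mul_le_one₀ (hl1 d) (abs_nonneg _) (hl2 d'))).trans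
          (hE a b1 b2 N g (d * d') _ _ ha hb1 hb2 h1 hS (fun i => (hN i).trans
            (Real.rpow_le_rpow_of_exponent_le x1 (by linarith))) q1 q2 r1 r2 q3 r3
            (Nat.mul_pos d1 d2) (le_of_eq_of_le ?_ hP))
        push_cast
        field_simp
    _ = (⌊x ^ lev τ t η⌋₊ : ℝ) * (⌊x ^ lev τ t η⌋₊ * x ^ (1 - η / 5)) := by simp
    _ ≤ x ^ (η / 20) * (x ^ (η / 20) * x ^ (1 - η / 5)) := by
        gcongr <;> exact cnt_Ta2 x1 τ t η
    _ = _ := by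
        rw [← Real.rpow_add x0, ← Real.rpow_add x0]
        congr 1
        ring

end Pool.Agent.MP_c853c5_nt.D2

end

section

/-!
The bound for one box with two sieved factors.
-/

set_option autoImplicit false

open Finset Filter

namespace Pool.Agent.MP_c853c5_nt.D2

open Pool.Agent.MP_c853c5_nt.S Pool.Agent.MP_c853c5_nt.D

lemma win_One2 {x γ a y : ℝ} {m : ℕ} (hx : 0 < x) (h4 : 4 ≤ x ^ γ) (h : Cls x a m) (h1 : y ≤ m)
    (h2 : (m : ℝ) ≤ 2 * y) : x ^ (a - γ) ≤ y ∧ y ≤ x ^ (a + γ) := by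
  have p : 0 < x ^ a := Real.rpow_pos_of_pos hx a
  have y0 : 0 ≤ y := by linarith [h.1]
  rw [Real.rpow_sub hx, Real.rpow_add hx, div_le_iff₀ (by linarith)]
  exact ⟨by nlinarith [h.1], by nlinarith [h.2]⟩

theorem d2One : OneStmt2 := by
  intro hBox hNom hTa hTb hE1 hE2 hE12 τ t η η' κ z1 z2 lo hi K w r B ht htτ hτ hη hη1 hη' hκ
    hlev hAlt j1 j2 A
  obtain ⟨γ, hγ, h1⟩ := hBox hTa hTb hE1 hE2 hE12 (Fin r ⊕ (Fin j1 ⊕ Fin j2)) τ t η η' κ K w A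
    ht htτ hτ hη hη1 hη' hκ hlev
  have h3 := hNom (Fin r ⊕ Fin j1) (Fin j2) (Sum.elim (fun i => (B i).lo) fun _ => κ)
    (Sum.elim (fun i => (B i).hi) fun _ => z1) (fun _ => κ) (fun _ => z2) lo hi fun _ => hκ.le
  filter_upwards [h1, h3, (tendsto_rpow_atTop hγ).eventually_ge_atTop 4, eventually_gt_atTop 1]
    with x h1 h3 h4 hx
  intro lam e hF N k1 k2 hN hI
  have hx0 : 0 < x := by linarith
  have hlog : 0 < Real.log x := Real.log_pos hx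
  set c := cf x κ z1 z2 B j1 j2
  have hc01 : ∀ i n, 0 ≤ c i n ∧ c i n ≤ 1 := by
    rintro (i | i | i) n
    exacts [bf_nn_One x (B i) n, PP_nn_One x κ z1 n, PP_nn_One x κ z2 n]
  have hnn : ∀ i n, 0 ≤ dy (N i) (c i) n := fun i n => (dy_nn_One (N i) (hc01 i) n).1
  by_cases h0 : Dl t x ((∏ i, dy (N i) (c i)) * pc (RR x κ) k1 * pc (RR x κ) k2) = 0
  · have hG : Nn (∏ i, dy (N i) (c i)) := Nn.prod fun i _ => hnn i
    have a1 := hF.er_nn hx0.le hG k1 k2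
    have a2 := hF.er_nn hx0.le hG k2 k1
    rw [h0, abs_zero]
    positivity
  have h5 : ∃ Δ, SS x Δ ((∏ i, dy (N i) (c i)) * (pc (RR x κ) k1 * pc (RR x κ) k2)) ≠ 0 := by
    by_contra k
    push Not at k
    exact h0 (by rw [mul_assoc, Dl, SB, k, k, sub_zero])
  obtain ⟨Δ, h5⟩ := h5
  obtain ⟨m, l, hm, hl, w1, w2⟩ := dVan _ x Δ _ _ hx0 h5
  obtain ⟨n1, n2, rfl, l1, l2⟩ := exists_of_mul_ne hl
  obtain ⟨-, y1, y1'⟩ := pc_ne l1
  obtain ⟨-, y2, y2'⟩ := pc_ne l2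
  have p1 := yk_pos_T1 k1
  have p2 := yk_pos_T1 k2
  have d1 : ∀ i, (N i : ℝ) ≤ m i := fun i => Nat.cast_le.2 (dy_ne_One (hm i)).1.1
  have d2 : ∀ i, (m i : ℝ) ≤ 2 * N i := fun i => by exact_mod_cast (dy_ne_One (hm i)).1.2.le
  have e1 : (∏ i, (m i : ℝ)) * (n1 * n2 : ℕ) =
      (∏ i : Fin r ⊕ Fin j1, (m (Sum.map id Sum.inl i) : ℝ)) * n1 *
        ((∏ i, (m (.inr (.inr i)) : ℝ)) * n2) := by
    simp only [Fintype.prod_sum_type, Sum.map_inl, Sum.map_inr, id, Nat.cast_mul]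
    ring
  obtain ⟨a, q, b1, b2, ha, hq, hb1, c1, hb2, c2, hs, s1, s2⟩ :=
    h3 (fun i => m (Sum.map id Sum.inl i)) (fun i => m (.inr (.inr i))) n1 n2
      (fun i => ⟨(hN _).trans (dy_ne_One (hm _)).1.1, by
        rcases i with i | i
        · have k4 := bf_ne_One (x := x) (B := B i) (dy_ne_One (hm (.inl i))).2
          exact ⟨k4.2.1.le, k4.2.2.1⟩
        · exact PP_ne_One (κ := κ) (z := z1) hx0.le (dy_ne_One (hm (.inr (.inl i)))).2⟩)
      (fun i => PP_ne_One (κ := κ) (z := z2) hx0.le (dy_ne_One (hm (.inr (.inr i)))).2)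
      (Nat.cast_pos.1 (p1.trans y1)) (Nat.cast_pos.1 (p2.trans y2)) (e1 ▸ w1) (e1 ▸ w2)
      (hI.1.trans (mul_le_mul (prod_le_prod (fun i _ => Nat.cast_nonneg _) fun i _ => d1 _) y2.le
        p2.le (prod_nonneg fun i _ => Nat.cast_nonneg _)))
      (le_trans ((mul_le_mul (prod_le_prod (fun i _ => Nat.cast_nonneg _) fun i _ => d2 _) y2'.le
        (Nat.cast_nonneg _) (prod_nonneg fun i _ => by positivity)).trans_eq (by
          rw [prod_mul_distrib, prod_const, card_univ, Fintype.card_fin]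
          ring)) hI.2)
  have hs' : ∑ i, a (.inl i) + (∑ i, a (.inr i) + ∑ i, q i) + b1 + b2 = 1 := by
    rw [← hs, Fintype.sum_sum_type, ← add_assoc]
  have v1 := win_One2 hx0 h4 c1 y1.le y1'.le
  have v2 := win_One2 hx0 h4 c2 y2.le y2'.le
  refine h1 lam e hF _ _ b1 b2 N _ k1 k2 ?_ hb1 hb2 (by simpa using hs')
    (hAlt j1 j2 (fun i => a (.inl i)) (fun i => a (.inr i)) q b1 b2
      (fun i => ⟨(ha (.inl i)).1, (ha (.inl i)).2.1, (ha (.inl i)).2.2.1⟩)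
      (fun i => ⟨(ha (.inr i)).2.1, (ha (.inr i)).2.2.1⟩) (fun i => ⟨(hq i).1, (hq i).2.1⟩)
      hb1 hb2 hs' s1 s2)
    (fun i => slot_One (hN i) (hc01 i)) hnn (fun i => win_One2 hx0 h4 ?_ (d1 i) (d2 i)) ?_
    v1.1 v1.2 v2.1 v2.2 (le_trans ?_ w2)
  · rintro (i | i | i)
    exacts [(ha _).1, (ha _).1, hκ.le.trans (hq i).1]
  · rcases i with i | i | i
    exacts [(ha (.inl i)).2.2.2, (ha (.inr i)).2.2.2, (hq i).2.2]
  · rintro (i | i | i) hi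
    exacts [dPr.1 x (B i) _ hx hi, dPr.2 _ _ _, dPr.2 _ _ _]
  · rw [mul_assoc, ← Nat.cast_mul]
    exact mul_le_mul (prod_le_prod (fun i _ => Nat.cast_nonneg _) fun i _ => d1 i)
      (Nat.cast_le.2 (Nat.mul_le_mul (Nat.ceil_le.2 y1.le) (Nat.ceil_le.2 y2.le)))
      (Nat.cast_nonneg _) (prod_nonneg fun i _ => Nat.cast_nonneg _)

end Pool.Agent.MP_c853c5_nt.D2

end

section

set_option autoImplicit false

open Finset Filter

namespace Pool.Agent.MP_c853c5_nt.D2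

open Pool.Agent.MP_c853c5_nt.S Pool.Agent.MP_c853c5_nt.D

lemma low_sum_ESum2 {ι : Type*} (x : ℝ) (s : Finset ι) (f : ι → AF) :
    low x (∑ i ∈ s, f i) = ∑ i ∈ s, low x (f i) := by
  ext n
  simp only [low, pm_apply, AF_sum, sum_mul]

lemma mul_ESum2 (X : ℕ) {f g : AF} (hf : Nn f) (hg : Nn g) : ms X (f * g) ≤ ms X f * ms X g := by
  have h0 : ∀ p : ℕ × ℕ, 0 ≤ f p.1 / p.1 * (g p.2 / p.2) := fun p =>
    mul_nonneg (div_nonneg (hf _) (Nat.cast_nonneg _)) (div_nonneg (hg _) (Nat.cast_nonneg _))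
  simp only [ms, ArithmeticFunction.mul_apply, sum_div]
  rw [sum_mul_sum, ← sum_product']
  refine le_trans (sum_le_sum fun m hm => ?_) (sum_fiberwise_le_sum_of_sum_fiber_nonneg
    (t := Icc 1 X) (g := fun p : ℕ × ℕ => p.1 * p.2) fun y _ => sum_nonneg fun p _ => h0 p)
  refine le_trans (sum_le_sum fun p hp => ?_) (sum_le_sum_of_subset_of_nonneg
    (s := m.divisorsAntidiagonal) (fun p hp => ?_) fun p _ _ => h0 p)
  · rw [← (Nat.mem_divisorsAntidiagonal.1 hp).1, Nat.cast_mul, div_mul_div_comm]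
  · have h1 := Nat.fst_mem_divisors_of_mem_antidiagonal hp
    have h2 := Nat.snd_mem_divisors_of_mem_antidiagonal hp
    exact mem_filter.2 ⟨mem_product.2
      ⟨mem_Icc.2 ⟨Nat.pos_of_mem_divisors h1, (Nat.divisor_le h1).trans (mem_Icc.1 hm).2⟩,
        mem_Icc.2 ⟨Nat.pos_of_mem_divisors h2, (Nat.divisor_le h2).trans (mem_Icc.1 hm).2⟩⟩,
      (Nat.mem_divisorsAntidiagonal.1 hp).1⟩

lemma prod_ESum2 {ι : Type*} (X : ℕ) (s : Finset ι) {f : ι → AF} (hf : ∀ i, Nn (f i)) :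
    ms X (∏ i ∈ s, f i) ≤ ∏ i ∈ s, ms X (f i) := by
  classical
  induction s using Finset.induction_on with
  | empty =>
    simp only [prod_empty, ms, ArithmeticFunction.one_apply, ite_div, zero_div, sum_ite_eq']
    split_ifs <;> norm_num
  | insert a s ha ih =>
    rw [prod_insert ha, prod_insert ha]
    exact (mul_ESum2 X (hf a) (Nn.prod fun i _ => hf i)).trans
      (mul_le_mul_of_nonneg_left ih (ms_nn_One X (hf a)))

lemma dy_ESum2 (L : ℕ) {c : AF} (hc : Nn c) : Le (∑ e : Fin L, dy (2 ^ (e : ℕ)) c) c := by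
  intro m
  rw [AF_sum]
  rcases lt_or_ge m (2 ^ L) with h | h
  · exact (sum_Dy c h).le
  · refine (sum_eq_zero fun e _ => if_neg fun k => k.2.not_ge (le_trans ?_ h)).trans_le (hc m)
    rw [← pow_succ']
    exact Nat.pow_le_pow_right two_pos e.2

theorem d2ESum : ESumStmt := by
  intro hE hT hO ι _ _ κ w hκ hw
  have hδ : (0 : ℝ) < 1 / 400 := by norm_num
  filter_upwards [hE κ w hκ hw, hT hO κ w hκ hw, div_all ι hδ, div_Id 0 1 hδ,
    eventually_ge_atTop 2] with x h1 h2 h3 ⟨Δ, _, d1, d2⟩ hx lam e c fw hc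
  obtain ⟨t1, t2⟩ := h2 lam e fw
  have x0 : 0 < x := by linarith
  have c0 : ∀ i, Nn (c i) := fun i n => (hc i n).1
  have T0 : Nn (∑ k ∈ range (nn x), up x κ lam k) := Nn.sum fun k _ => fw.nn_up k
  have P0 : Nn (∏ i, c i) := Nn.prod fun i _ => c0 i
  have e1 : ∑ f : ι → Fin (LL x), ∑ k1 ∈ range (nn x), ∑ k2 ∈ range (nn x),
      er x κ lam e (∏ i, dy (2 ^ (f i : ℕ)) (c i)) k1 k2 =
      SB x (low x ((∏ i, ∑ f : Fin (LL x), dy (2 ^ (f : ℕ)) (c i)) *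
        ∑ k ∈ range (nn x), up x κ lam k) * ∑ k ∈ range (nn x), pc (e * zt) k) := by
    rw [prod_univ_sum, Fintype.piFinset_univ, sum_mul_sum]
    simp only [low_sum_ESum2, sum_mul, SB_sum]
    simp only [mul_sum, SB_sum, er]
  generalize ∑ k ∈ range (nn x), up x κ lam k = T at t1 t2 T0 e1
  have e2 : Le (low x ((∏ i, ∑ f : Fin (LL x), dy (2 ^ (f : ℕ)) (c i)) * T))
      (low x ((∏ i, c i) * T)) := fun n => mul_le_mul_of_nonneg_right
    (Le.mul_right T0 (Le.prod (fun i _ => Nn.sum fun f _ n => (dy_nn_One _ (hc i) n).1)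
      fun i _ => dy_ESum2 _ (c0 i)) n) (rg_nn _ _ n)
  have e3 := h1 lam e ((∏ i, c i) * T) fw (P0.mul T0) fun n hn => by
    have v : ∀ d : ℕ, d ∣ n → n ≠ 0 → (d : ℝ) ≤ 2 * x := fun d hd h0 =>
      le_trans (by exact_mod_cast Nat.le_of_dvd (Nat.pos_of_ne_zero h0) hd) hn
    rcases eq_or_ne n 0 with rfl | h0
    · rw [ArithmeticFunction.map_zero]
      positivity
    have v1 := B.abs_mul_apply_le (f := ∏ i, c i) (g := T) (n := n) (A := x ^ (1 / 400 : ℝ))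
      (B := x ^ (1 / 400 : ℝ)) (by positivity)
      (fun d hd => h3 c (fun i d => abs_le.2 ⟨by linarith [(hc i d).1], (hc i d).2⟩) d (v d hd h0))
      fun d hd => (abs_of_nonneg (T0 d)).trans_le (t2 d (v d hd h0))
    have v2 : (n.divisors.card : ℝ) ≤ x ^ (1 / 400 : ℝ) :=
      (d1 n (Nat.le_floor (by nlinarith))).trans (by simpa using d2)
    refine (le_abs_self _).trans (v1.trans
      ((mul_le_mul_of_nonneg_right v2 (by positivity)).trans ?_))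
    rw [← Real.rpow_add x0, ← Real.rpow_add x0]
    exact Real.rpow_le_rpow_of_exponent_le (by linarith) (by norm_num)
  have e4 : ms ⌊2 * x⌋₊ ((∏ i, c i) * T) ≤ (∏ i, ms ⌊2 * x⌋₊ (c i)) * (2 ^ 7 / κ ^ 2) :=
    (mul_ESum2 _ P0 T0).trans (mul_le_mul (prod_ESum2 _ _ c0) t1 (ms_nn_One _ T0)
      (prod_nonneg fun i _ => ms_nn_One _ (c0 i)))
  have e5 : 0 ≤ x / Real.log x := div_nonneg x0.le (Real.log_nonneg (by linarith))
  rw [e1]
  refine (SB_mono x0.le fun n _ => Le.mul e2 (sum_pc_le fw.pos _)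
    (nn_pm (P0.mul T0) (rg_nn _ _)) (Nn.sum fun k _ => nn_pc fw.pos k) n).trans (e3.trans ?_)
  refine add_le_add_left ((mul_le_mul_of_nonneg_right (mul_le_mul_of_nonneg_left e4
    (by positivity)) e5).trans_eq ?_) _
  field_simp

end Pool.Agent.MP_c853c5_nt.D2

end

section

/-!
Summation over the boxes inside the range.
-/

set_option autoImplicit false

open Finset Filter

namespace Pool.Agent.MP_c853c5_nt.D2

open Pool.Agent.MP_c853c5_nt.S Pool.Agent.MP_c853c5_nt.D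

lemma sum_In2 {α : Type} [Fintype α] (n : ℕ) (T E : α → ℕ → ℕ → ℝ) (a : ℝ)
    (h : ∀ f k1 k2, |T f k1 k2| ≤ a + 2 * E f k1 k2 + 2 * E f k2 k1) :
    |∑ f, ∑ k1 ∈ range n, ∑ k2 ∈ range n, T f k1 k2| ≤ Fintype.card α * (n * (n * a)) +
      4 * ∑ f, ∑ k1 ∈ range n, ∑ k2 ∈ range n, E f k1 k2 := by
  refine (abs_sum_le_sum_abs _ _).trans ((sum_le_sum fun f _ => (abs_sum_le_sum_abs _ _).trans
    (sum_le_sum fun k1 _ => (abs_sum_le_sum_abs _ _).trans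
      (sum_le_sum fun k2 _ => h f k1 k2))).trans_eq ?_)
  have e : ∑ f, ∑ k1 ∈ range n, ∑ k2 ∈ range n, E f k2 k1 =
      ∑ f, ∑ k1 ∈ range n, ∑ k2 ∈ range n, E f k1 k2 := sum_congr rfl fun f _ => sum_comm
  simp only [sum_add_distrib, ← mul_sum, sum_const, card_range, card_univ, nsmul_eq_mul, e]
  ring

theorem d2In : InStmt := by
  intro hX hS hE hT hO hF t κ z1 z2 lo hi M m w r j1 j2 B hκ hw hl h1 hM hm1 hm2 ε hε
  filter_upwards [h1 (r + (j1 + j2) + 4), hM, hm1, hm2, hF κ w hκ hw,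
    hS hE hT hO (Fin r ⊕ (Fin j1 ⊕ Fin j2)) κ w hκ hl, eventually_ge_atTop (3 : ℝ),
    Real.tendsto_log_atTop.eventually_ge_atTop 2,
    Real.tendsto_log_atTop.eventually_ge_atTop (3 ^ (r + (j1 + j2)) * 162 / ε),
    small_Sum (1 / 100) (ε / 8) (by norm_num) (by positivity)]
    with x a1 a2 a3 a4 ⟨lam, e, hW⟩ a5 hx hl1 hl2 a6
  have hc : ∀ i n, 0 ≤ cf x κ z1 z2 B j1 j2 i n ∧ cf x κ z1 z2 B j1 j2 i n ≤ 1 := by
    rintro (i | i | i) n
    exacts [bf_nn_One _ _ _, PP_nn_One _ _ _ _, PP_nn_One _ _ _ _]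
  have l0 : 0 < Real.log x := by linarith
  have q0 : 0 ≤ x / Real.log x := by positivity
  have b1 := a5 lam e _ hW hc
  have b2 : ∏ i, ms ⌊2 * x⌋₊ (cf x κ z1 z2 B j1 j2 i) ≤ M ^ r * m ^ j1 * m ^ j2 := by
    have c1 := fun i => ms_nonneg_Row ⌊2 * x⌋₊ (bf_nonneg_Row x (B i))
    have c2 := fun z => ms_nonneg_Row ⌊2 * x⌋₊ (pp_nonneg_Row x κ z)
    have c3 : ∏ i, ms ⌊2 * x⌋₊ (bf x (B i)) ≤ M ^ r :=
      (prod_le_prod (fun i _ => c1 i) fun i _ => a2 i).trans (by simp)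
    have c4 := prod_nonneg (s := univ) fun i _ => c1 i
    simp only [cf, Fintype.prod_sum_type, Sum.elim_inl, Sum.elim_inr, prod_const, card_univ,
      Fintype.card_fin]
    rw [mul_assoc]
    exact mul_le_mul c3 (mul_le_mul (pow_le_pow_left₀ (c2 _) a3 j1) (pow_le_pow_left₀ (c2 _) a4 j2)
      (pow_nonneg (c2 _) _) (pow_nonneg ((c2 _).trans a3) _))
      (mul_nonneg (pow_nonneg (c2 _) _) (pow_nonneg (c2 _) _)) (c4.trans c3)
  have b3 : (LL x : ℝ) ≤ 3 * Real.log x := len_Row (by linarith) hl1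
  have b4 : (nn x : ℝ) ≤ 9 * Real.log x := by
    have := Nat.ceil_lt_add_one (show 0 ≤ 8 * Real.log x by linarith)
    unfold nn
    linarith
  have b5 : (LL x : ℝ) ^ (r + (j1 + j2)) * (nn x * (nn x * (x / Real.log x ^ (r + (j1 + j2) + 4))))
      ≤ ε / 2 * (x / Real.log x) := by
    rw [div_le_iff₀ hε] at hl2
    calc _ ≤ (3 * Real.log x) ^ (r + (j1 + j2)) * (9 * Real.log x * (9 * Real.log x *
          (x / Real.log x ^ (r + (j1 + j2) + 4)))) := by gcongr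
      _ = 3 ^ (r + (j1 + j2)) * 162 * (x / Real.log x ^ 2 / 2) := by
        rw [mul_pow]
        field_simp
        ring
      _ ≤ Real.log x * ε * (x / Real.log x ^ 2 / 2) := by gcongr
      _ = _ := by field_simp
  rw [hX t x κ z1 z2 _ _ r j1 j2 B hx]
  refine (sum_In2 _ _ (fun f => er x κ lam e (∏ i, dy (2 ^ (f i : ℕ)) (cf x κ z1 z2 B j1 j2 i)))
    (x / Real.log x ^ (r + (j1 + j2) + 4)) fun f k1 k2 => ?_).trans ?_
  · split_ifs with h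
    · exact a1 lam e hW (fun i => 2 ^ (f i : ℕ)) k1 k2 (fun i => Nat.one_le_two_pow) h
    · have hG : Nn (∏ i, dy (2 ^ (f i : ℕ)) (cf x κ z1 z2 B j1 j2 i)) :=
        Nn.prod fun i _ n => (dy_nn_One _ (hc i) n).1
      have c1 := hW.er_nn (by linarith) hG k1 k2
      have c2 := hW.er_nn (by linarith) hG k2 k1
      rw [abs_zero]
      positivity
  · rw [Fintype.card_fun, Fintype.card_fin, Fintype.card_sum, Fintype.card_sum, Fintype.card_fin,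
      Fintype.card_fin, Fintype.card_fin, Nat.cast_pow]
    have c1 := mul_le_mul_of_nonneg_right (mul_le_mul_of_nonneg_left b2
      (show 0 ≤ (2 : ℝ) ^ 34 / 4 ^ w / κ ^ 3 by positivity)) q0
    rw [show (1 : ℝ) - 1 / 100 = 99 / 100 by norm_num] at a6
    have c2 : (ε + 2 ^ 36 / 4 ^ w / κ ^ 3 * M ^ r * m ^ j1 * m ^ j2) * (x / Real.log x) =
        ε * (x / Real.log x) +
          4 * (2 ^ 34 / 4 ^ w / κ ^ 3 * (M ^ r * m ^ j1 * m ^ j2) * (x / Real.log x)) := by ring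
    rw [c2]
    linarith

end Pool.Agent.MP_c853c5_nt.D2

end

section

/-!
From the boxes inside the range to the sharp range.
-/

set_option autoImplicit false

open Finset Filter

namespace Pool.Agent.MP_c853c5_nt.D2

open Pool.Agent.MP_c853c5_nt.S Pool.Agent.MP_c853c5_nt.D

lemma abs_mul_Row2 {f g F G : AF} {n : ℕ} (hf : ∀ d, d ≤ n → |f d| ≤ F d)
    (hg : ∀ d, d ≤ n → |g d| ≤ G d) : |(f * g) n| ≤ (F * G) n := by
  rw [ArithmeticFunction.mul_apply, ArithmeticFunction.mul_apply]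
  refine (abs_sum_le_sum_abs _ _).trans (sum_le_sum fun p hp => ?_)
  have h1 := hf _ (Nat.divisor_le (Nat.fst_mem_divisors_of_mem_antidiagonal hp))
  have h2 := hg _ (Nat.divisor_le (Nat.snd_mem_divisors_of_mem_antidiagonal hp))
  rw [abs_mul]
  exact mul_le_mul h1 h2 (abs_nonneg _) ((abs_nonneg _).trans h1)

lemma pp_rough_Row2 {x κ z : ℝ} {n : ℕ} (h : PP x κ z n ≠ 0) : Rough x κ n := by
  rw [PP, prI_apply_One] at h
  split_ifs at h with k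
  · exact (rough_prime k.2.2).2 (Nat.lt_of_floor_lt k.1)
  · exact absurd rfl h

lemma bnd_Row2 (hB : BndStmt) {κ : ℝ} (hκ : 0 < κ) (z : ℝ) {r : ℕ} (j : ℕ) (B : Fin r → Blk)
    (h : ∀ i, κ ≤ (B i).a) : ∃ C : ℝ, 0 < C ∧ ∀ᶠ x : ℝ in atTop, ∀ n : ℕ, (n : ℝ) ≤ 2 * x →
      ((∏ i, bf x (B i)) * PP x κ z ^ j * RR x κ) n ≤ C * RR x κ n := by
  obtain ⟨C, hC, h1⟩ := hB (Option (Fin r ⊕ Fin j)) κ hκ
  refine ⟨C, hC, ?_⟩
  filter_upwards [h1, eventually_ge_atTop 1] with x h2 hx n hn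
  have h3 := h2 (fun o => o.elim (RR x κ) (Sum.elim (fun i => bf x (B i)) fun _ => PP x κ z))
    (by
      rintro (_ | i | i) m
      · exact ⟨nn_RR x κ m, bf_le_one _ _ m, fun k => (mem_of_bf_ne k).2.2.2.1⟩
      · exact ⟨nn_bf _ _ m, bf_le_one _ _ m, fun k => (mem_of_bf_ne k).2.2.2.1.anti hx (h i)⟩
      · exact ⟨(PP_nn_One x κ z m).1, (PP_nn_One x κ z m).2, pp_rough_Row2⟩) n hn
  rw [Fintype.prod_option, Fintype.prod_sum_type] at h3
  simp only [Option.elim, Sum.elim_inl, Sum.elim_inr, prod_const, card_univ,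
    Fintype.card_fin] at h3
  rwa [mul_comm (RR x κ)] at h3

lemma pt_Row2 {H F I Q R : AF} {w1 w2 : ℕ → ℝ} {C1 C2 : ℝ} {n : ℕ} (hH : Nn H)
    (h1 : ∀ d, d ≤ n → H d ≤ C1 * R d) (h2 : ∀ d, d ≤ n → Q d ≤ C2 * R d)
    (a1 : ∀ d, 0 ≤ w1 d) (a2 : ∀ d, 0 ≤ w2 d)
    (h3 : ∀ d, d ≤ n → |F d - I d| ≤ pm Q w1 d + pm Q w2 d) :
    |(H * F - H * I) n| ≤ ((C1 * C2) • (R * pm R w1 + R * pm R w2)) n := by
  have e : (C1 * C2) • (R * pm R w1 + R * pm R w2) = (C1 • R) * (C2 • (pm R w1 + pm R w2)) := by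
    rw [mul_smul_comm, smul_mul_assoc, smul_smul, mul_comm C2, mul_add]
  rw [e, ← mul_sub]
  refine abs_mul_Row2 (fun d hd => ?_) fun d hd => ?_
  · rw [abs_of_nonneg (hH d)]
    exact h1 d hd
  · rw [AF_sub, AF_smul, ArithmeticFunction.add_apply]
    refine (h3 d hd).trans ?_
    simp only [pm_apply]
    nlinarith [mul_le_mul_of_nonneg_right (h2 d hd) (a1 d),
      mul_le_mul_of_nonneg_right (h2 d hd) (a2 d)]

theorem d2Row : RowStmt2 := by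
  intro hCut hB hLay hLam hFW t κ z1 z2 lo hi E r j1 j2 B ht ht2 hκ hBa hlo hlh hhi hin ε hε
  obtain ⟨C1, hC1, b1⟩ := bnd_Row2 hB hκ z1 j1 B hBa
  obtain ⟨C2, hC2, b2⟩ := bnd_Row2 hB hκ z2 j2 (Fin.elim0 : Fin 0 → Blk) fun i => i.elim0
  have hC : (1 : ℝ) ≤ 2 ^ (j2 + 2) := one_le_pow₀ one_le_two
  have hδ : 0 < ε / (8 * (C1 * C2)) := by positivity
  have l1 := hLay hLam hFW κ lo _ t _ hκ hlo (hlh.trans hhi) hC ht ht2 hδ
  have l2 := hLay hLam hFW κ hi _ t _ hκ (hlo.trans hlh) hhi hC ht ht2 hδ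
  have l3 := hLay hLam hFW κ lo _ (1 / 1000) _ hκ hlo (hlh.trans hhi) hC (by norm_num)
    (by norm_num) hδ
  have l4 := hLay hLam hFW κ hi _ (1 / 1000) _ hκ (hlo.trans hlh) hhi hC (by norm_num)
    (by norm_num) hδ
  filter_upwards [b1, b2, l1, l2, l3, l4, hin _ (half_pos hε), eventually_ge_atTop 3] with
    x b1 b2 l1 l2 l3 l4 h0 hx
  have hx0 : 0 < x := by linarith
  have nP : ∀ z, Nn (PP x κ z) := fun z m => (PP_nn_One x κ z m).1
  have hcut := hCut (PP x κ z2) (RR x κ) j2 (LL x) (nn x) ⌊2 * x⌋₊ (x ^ lo) (x ^ hi) (nP z2)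
    (nn_RR x κ) (Real.rpow_pos_of_pos hx0 _) (Real.rpow_pos_of_pos hx0 _) LL_big
    ((Nat.floor_le (by linarith)).trans (nn_big hx))
  have hH : Nn ((∏ i, bf x (B i)) * PP x κ z1 ^ j1 * RR x κ) :=
    ((Nn.prod fun i _ => nn_bf _ _).mul ((nP z1).pow j1)).mul (nn_RR x κ)
  rw [Fin.prod_univ_zero, one_mul] at b2
  generalize (∏ i, bf x (B i)) * PP x κ z1 ^ j1 * RR x κ = H at b1 h0 hH ⊢
  generalize inn (PP x κ z2) (RR x κ) j2 (LL x) (nn x) (x ^ lo) (x ^ hi) = I at h0 hcut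
  generalize pm (PP x κ z2 ^ j2 * RR x κ) (rg (x ^ lo) (x ^ hi)) = F at hcut ⊢
  have key : ∀ Δ : ℝ, 0 ≤ Δ → |SS x Δ (H * F - H * I)| ≤ C1 * C2 *
      (SS x Δ (RR x κ * pm (RR x κ) (rg (x ^ lo / 2 ^ (j2 + 2)) (2 ^ (j2 + 2) * x ^ lo))) +
        SS x Δ (RR x κ * pm (RR x κ) (rg (x ^ hi / 2 ^ (j2 + 2)) (2 ^ (j2 + 2) * x ^ hi)))) := by
    intro Δ hΔ
    rw [← SS_add, ← SS_smul]
    refine abs_SS_le hΔ fun n hn => ?_
    have a : ∀ d, d ≤ n → (d : ℝ) ≤ 2 * x := fun d hd => (Nat.cast_le.2 hd).trans hn.2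
    exact pt_Row2 hH (fun d hd => b1 d (a d hd)) (fun d hd => b2 d (a d hd)) (rg_nn _ _)
      (rg_nn _ _) fun d hd => hcut d (Nat.le_floor (a d hd))
  have hCC : 0 < C1 * C2 := mul_pos hC1 hC2
  have k1 := (key _ (Real.rpow_nonneg hx0.le (-t))).trans
    (mul_le_mul_of_nonneg_left (add_le_add l1 l2) hCC.le)
  have k2 := (key _ (Real.rpow_nonneg hx0.le (-(1 / 1000)))).trans
    (mul_le_mul_of_nonneg_left (add_le_add l3 l4) hCC.le)
  have e : C1 * C2 * (ε / (8 * (C1 * C2)) * (x / Real.log x) +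
      ε / (8 * (C1 * C2)) * (x / Real.log x)) = ε / 4 * (x / Real.log x) := by
    generalize x / Real.log x = u
    field_simp
    ring
  rw [e] at k1 k2
  have e2 : Dl t x (H * F) = Dl t x (H * I) + (SS x (x ^ (-t)) (H * F - H * I) -
      SS x (x ^ (-(1 / 1000) : ℝ)) (H * F - H * I)) := by
    have := Dl_sub t x (H * F) (H * I)
    unfold Dl SB at this ⊢
    linarith
  rw [e2]
  refine (abs_add_le _ _).trans ?_
  linarith [abs_sub (SS x (x ^ (-t)) (H * F - H * I))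
    (SS x (x ^ (-(1 / 1000) : ℝ)) (H * F - H * I))]

end Pool.Agent.MP_c853c5_nt.D2

end

section

/-!
Summation over the number of small primes of the second factor.
-/

set_option autoImplicit false

open Finset Filter

namespace Pool.Agent.MP_c853c5_nt.D2

open Pool.Agent.MP_c853c5_nt.S Pool.Agent.MP_c853c5_nt.D

lemma blk_Sum2 {x lo hi z : ℝ} (hx : 2 ≤ x) {d : ℕ} (hd : (d : ℝ) ≤ 2 * x) :
    bf x ⟨lo, hi, z, none⟩ d = bf x (fr z) d * rg (x ^ lo) (x ^ hi) d := by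
  have h2 : (d : ℝ) ≤ x ^ (2 : ℝ) := by rw [Real.rpow_two]; nlinarith
  have key : Blk.Mem ⟨lo, hi, z, none⟩ x d ↔
      (fr z).Mem x d ∧ (x ^ lo < d ∧ (d : ℝ) ≤ x ^ hi) := by
    rw [mem_fr (by linarith)]
    exact ⟨fun h => ⟨⟨h.1, h2, h.2.2.2.1⟩, h.2.1, h.2.2.1⟩,
      fun h => ⟨h.1.1, h.2.1, h.2.2, h.1.2.2, by simp⟩⟩
  simp only [bf, rg, ArithmeticFunction.coe_mk]
  by_cases a : (fr z).Mem x d <;> by_cases b : x ^ lo < d ∧ (d : ℝ) ≤ x ^ hi <;> simp [a, b, key]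

lemma bad_Sum2 (x κ : ℝ) {d n : ℕ} (hn : n ≠ 0) (h : d ∣ n) : bad x κ d ≤ bad x κ n := by
  simp only [bad, ArithmeticFunction.coe_mk]
  split_ifs with a b
  · exact le_rfl
  · obtain ⟨-, p, p1, p2, p3⟩ := a
    exact (b ⟨hn, p, p1, p2, p3.trans h⟩).elim
  · exact zero_le_one
  · exact le_rfl

lemma bad_nn_Sum2 (x κ : ℝ) (n : ℕ) : 0 ≤ bad x κ n := by
  simp only [bad, ArithmeticFunction.coe_mk]
  split_ifs <;> norm_num

theorem d2Sum : SumStmt2 := by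
  intro t κ z lo hi E m H t0 t1 κ0 κz E0 m0 hH h ε hε
  obtain ⟨J, hJ⟩ := dId 0 Fin.elim0 κ z κ0 κz
  obtain ⟨δ₁, d1, b1⟩ := dBad dSZ κ t κ0 t0 t1
  obtain ⟨δ₂, d2, b2⟩ := dBad dSZ κ (1 / 1000) κ0 (by norm_num) (by norm_num)
  have d0 : 0 < min δ₁ δ₂ := lt_min d1 d2
  have d6 : 0 < min δ₁ δ₂ / 6 := by positivity
  have e0 : 0 < ε / (2 * (J + 1)) := by positivity
  filter_upwards [hJ _ d6, hH _ d6, div_Id 0 1 d6, b1, b2, eventually_ge_atTop 2,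
    small_Sum _ (ε / 4) (half_pos d0) (by positivity),
    (eventually_all_finset (range J)).2 fun j _ => h j _ e0] with x h1 g1 ⟨Δ, _, g2, g3⟩ h2 h3 hx2
    h4 h5
  have hx : 1 < x := by linarith
  have x0 : 0 < x := by linarith
  set F : AF := H x * bf x ⟨lo, hi, z, none⟩ with hF
  set Gj : ℕ → AF := fun j => pm (PP x κ z ^ j * RR x κ) (rg (x ^ lo) (x ^ hi)) with hG
  set T : AF := ∑ j ∈ range J, ((-1) ^ j / (j.factorial : ℝ)) • (H x * Gj j) with hT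
  have u0 : 0 < x / Real.log x := div_pos (by linarith) (Real.log_pos hx)
  have p0 : 0 ≤ x ^ (min δ₁ δ₂ / 6) := Real.rpow_nonneg x0.le _
  have k0 : ∀ n : ℕ, (n : ℝ) ≤ 2 * x → |(F - T) n| ≤ x ^ (min δ₁ δ₂ / 2) * bad x κ n := by
    intro n hn
    rcases eq_or_ne n 0 with rfl | n0
    · simp
    have hd : ∀ d, d ∣ n → (d : ℝ) ≤ 2 * x := fun d hd =>
      le_trans (by exact_mod_cast Nat.le_of_dvd (Nat.pos_of_ne_zero n0) hd) hn
    have e1 : F - T = H x * (bf x ⟨lo, hi, z, none⟩ -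
        ∑ j ∈ range J, ((-1) ^ j / (j.factorial : ℝ)) • Gj j) := by
      rw [mul_sub, mul_sum]
      simp only [mul_smul_comm, hF, hT]
    rw [e1]
    refine (B.abs_mul_apply_le (B := x ^ (min δ₁ δ₂ / 6) * bad x κ n) p0
      (fun d k => g1 d (hd d k)) fun d k => ?_).trans ?_
    · have a1 := h1 d (hd d k)
      simp only [univ_eq_empty, prod_empty, one_mul] at a1
      rw [AF_sub, AF_sum, blk_Sum2 hx2 (hd d k)]
      have e2 : ∑ j ∈ range J, (((-1) ^ j / (j.factorial : ℝ)) • Gj j) d =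
          (∑ j ∈ range J, (-1) ^ j / (j.factorial : ℝ) * (PP x κ z ^ j * bf x (fr κ)) d) *
            rg (x ^ lo) (x ^ hi) d := by
        rw [sum_mul]
        exact sum_congr rfl fun j _ => by rw [AF_smul, mul_assoc]; rfl
      rw [e2, ← sub_mul, abs_mul, abs_of_nonneg (rg_nn _ _ _)]
      exact (mul_le_of_le_one_right (abs_nonneg _) (rg_le _ _ _)).trans
        (a1.trans (mul_le_mul_of_nonneg_left (bad_Sum2 x κ n0 k) p0))
    · have a2 : (n.divisors.card : ℝ) ≤ x ^ (min δ₁ δ₂ / 6) := by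
        refine (g2 n (Nat.le_floor (by nlinarith))).trans ?_
        simpa using g3
      have a3 : x ^ (min δ₁ δ₂ / 2) =
          x ^ (min δ₁ δ₂ / 6) * (x ^ (min δ₁ δ₂ / 6) * x ^ (min δ₁ δ₂ / 6)) := by
        rw [← Real.rpow_add x0, ← Real.rpow_add x0]
        congr 1
        ring
      rw [a3, mul_assoc, mul_assoc]
      exact mul_le_mul_of_nonneg_right a2
        (mul_nonneg p0 (mul_nonneg p0 (bad_nn_Sum2 x κ n)))
  have k1 := abs_le.1 (width_Sum hx (min_le_left _ _) k0 h2)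
  have k2 := abs_le.1 (width_Sum hx (min_le_right _ _) k0 h3)
  have k3 : |Dl t x (F - T)| ≤ ε / 2 * (x / Real.log x) := by
    unfold Dl SB
    rw [abs_le]
    constructor <;> linarith [k1.1, k1.2, k2.1, k2.2]
  have k4 : |Dl t x T| ≤ (ε / 2 + E * Real.exp m) * (x / Real.log x) := by
    rw [hT, Dl_sum]
    refine (abs_sum_le_sum_abs _ _).trans ?_
    calc ∑ j ∈ range J, |Dl t x (((-1) ^ j / (j.factorial : ℝ)) • (H x * Gj j))|
        ≤ ∑ j ∈ range J, (ε / (2 * (J + 1)) + E * (m ^ j / j.factorial)) * (x / Real.log x) := by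
          refine sum_le_sum fun j hj => ?_
          have f1 : (1 : ℝ) ≤ j.factorial := by exact_mod_cast j.factorial_pos
          rw [Dl_smul, abs_mul, abs_div, abs_pow, abs_neg, abs_one, one_pow,
            abs_of_pos (by linarith : (0 : ℝ) < j.factorial)]
          refine (mul_le_mul_of_nonneg_left (h5 j hj) (by positivity)).trans ?_
          rw [← mul_assoc]
          apply mul_le_mul_of_nonneg_right _ u0.le
          have : 1 / (j.factorial : ℝ) * (ε / (2 * (J + 1))) ≤ ε / (2 * (J + 1)) :=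
            mul_le_of_le_one_left e0.le ((div_le_one (by linarith)).2 f1)
          calc _ = 1 / (j.factorial : ℝ) * (ε / (2 * (J + 1))) + E * (m ^ j / j.factorial) := by
                ring
            _ ≤ _ := by linarith
      _ = (J * (ε / (2 * (J + 1))) + E * ∑ j ∈ range J, m ^ j / j.factorial) *
            (x / Real.log x) := by
          rw [← sum_mul, sum_add_distrib, sum_const, card_range, nsmul_eq_mul, ← mul_sum]
      _ ≤ _ := by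
          apply mul_le_mul_of_nonneg_right _ u0.le
          have a1 : J * (ε / (2 * (J + 1))) ≤ ε / 2 := by
            rw [← mul_div_assoc, div_le_div_iff₀ (by positivity) (by norm_num)]
            nlinarith
          have a2 := mul_le_mul_of_nonneg_left (Real.sum_le_exp_of_nonneg m0 J) E0
          linarith
  rw [Dl_sub] at k3
  have k5 := abs_add_le (Dl t x F - Dl t x T) (Dl t x T)
  rw [sub_add_cancel] at k5
  linarith

end Pool.Agent.MP_c853c5_nt.D2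

end
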