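import Pool.Agent.Mg.C853.Gcbec5d
import Pool.Agent.MP_2a1f0e_nt.DH.Basic
import Pool.Agent.Mg.C853.G37d82f
import Pool.Agent.MP_2a1f0e_nt.GM2.BThree
import Pool.Agent.Mg.C853.G9b677c
import Pool.Agent.Mg.C853.G8db7e4

section

set_option autoImplicit false

open Finset

namespace Pool.Agent.MP_2a1f0e_nt.GM4

open GM GM2 GM3

/-- integral over one period in the logarithmic variable -/
noncomputable def mo (g : ℝ → ℝ) : ℝ := ∫ θ in (-Real.pi)..Real.pi, g (Real.exp θ)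

/-- continuous on the positive axis, nonnegative, periodic in the logarithm -/
def Per (g : ℝ → ℝ) : Prop :=
  ContinuousOn g (Set.Ioi 0) ∧ (∀ v, 0 ≤ g v) ∧ ∀ v, 0 < v → g (v * Real.exp (2 * Real.pi)) = g v

/-- integral over a wide interval of integer length `144` -/
noncomputable def IW (f : ℝ → ℝ) : ℝ := ∫ v in (1 / 144 : ℝ)..(1 / 144 + 144), f v

/-- square of the chordal distance -/
noncomputable def ch (t : ℝ) : ℝ := 2 - 2 * Real.cos t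

/-- periodic Poisson type kernel -/
noncomputable def kc (D : ℕ) (t : ℝ) : ℝ := D / (1 + (D : ℝ) ^ 2 * ch t)

/-- multiplicative convolution with `kc` -/
noncomputable def cv (D : ℕ) (F : ℝ → ℝ) (x : ℝ) : ℝ :=
  ∫ t in (-Real.pi)..Real.pi, kc D t * F (x * Real.exp (-t))

/-- `U` is the trigonometric polynomial in `log x` with coefficients `c` -/
def TP (R : ℕ) (U : ℝ → ℂ) (c : ℤ → ℂ) : Prop :=
  ∀ x : ℝ, 0 < x → U x = ∑ ρ ∈ Io R, c ρ * pw x ρ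

noncomputable def ph (L : ℕ) (ν : ℤ → ℝ) (v : ℝ) : ℝ := ‖FT (Io L) ν v‖

/-- squared norm of a row -/
noncomputable def hS (L : ℕ) (ν : ℤ → ℝ) (S : Finset ℕ) (x : ℝ) : ℝ :=
  ∑ n ∈ S, ph L ν (x * n) ^ 2

/-- admissible row weight -/
def Wg (L : ℕ) (ν : ℤ → ℝ) (S : Finset ℕ) (H : ℝ) (χ : ℝ → ℝ) : Prop :=
  (∃ c : ℤ → ℂ, TP (4 * L) (fun x => (χ x : ℂ)) c) ∧
    ∀ x : ℝ, 0 < x → 0 < χ x ∧ χ x ≤ 1 ∧ χ x ^ 2 * hS L ν S x ≤ H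

/-- the kernel integral over the box of a block -/
noncomputable def BX (N M₁ M₂ M₃ : ℕ) (e₁ e₂ e₃ : ℝ) (H : ℝ → ℝ → ℝ) : ℝ :=
  ∫ z in ((M₁ : ℝ) / M₃ / 6)..(6 * (M₁ / M₃)), ∫ w in ((M₂ : ℝ) / M₃ / 6)..(6 * (M₂ / M₃)),
    kp ((N : ℝ) * M₃ * (e₁ * z + e₂ * w + e₃)) * H z w

noncomputable def TB (N M₁ M₂ M₃ : ℕ) (S₁ S₂ S₃ : Finset ℕ) (e₁ e₂ e₃ : ℝ)
    (g₁ g₂ g₃ : ℝ → ℝ) : ℝ :=
  BX N M₁ M₂ M₃ e₁ e₂ e₃ fun z w => ∑ n₁ ∈ S₁, ∑ n₂ ∈ S₂, ∑ n₃ ∈ S₃,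
    g₁ (w / z * n₁ / n₂) * g₂ (z * n₃ / n₁) * g₃ (w * n₃ / n₂)

noncomputable def TV (N : ℕ) (S₁ S₂ S₃ : Finset ℕ) (e₁ e₂ e₃ : ℝ) (g₁ g₂ g₃ : ℝ → ℝ) : ℝ :=
  ∫ v in (1 / 12 : ℝ)..12, ∫ w in (1 / 12 : ℝ)..12, g₁ (w / v) * g₂ v * g₃ w *
    ∑ n₁ ∈ S₁, ∑ n₂ ∈ S₂, ∑ n₃ ∈ S₃, kp ((N : ℝ) * (e₁ * n₁ * v + e₂ * n₂ * w + e₃ * n₃))

/-- the pair bound for a block -/
noncomputable def PB4 (P Q : ℕ) (Δ : ℝ) (g h : ℝ → ℝ) : ℝ :=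
  (P : ℝ) * Q * mo g * mo h +
    √((P : ℝ) * Q) * Δ * √(mo fun v => g v ^ 2) * √(mo fun v => h v ^ 2)

/-- a signed dyadic block -/
def Bk (M₁ M₂ M₃ : ℕ) (S₁ S₂ S₃ : Finset ℕ) (e₁ e₂ e₃ : ℝ) : Prop :=
  Dy M₁ S₁ ∧ Dy M₂ S₂ ∧ Dy M₃ S₃ ∧ M₁ ≤ M₃ ∧ M₂ ≤ M₃ ∧ Sg e₁ ∧ Sg e₂ ∧ Sg e₃

/-- the product `a * b` of the two ratios -/
noncomputable def ab (M₁ M₂ M₃ : ℕ) : ℝ := (M₁ : ℝ) / M₃ * ((M₂ : ℝ) / M₃)

noncomputable def Bf2 (R M₁ M₂ : ℕ) (κ σ z₀ z₁ : ℝ) (u v : ℤ → ℂ) : ℂ :=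
  Bil (Io R) (fun ρ => u ρ * KK M₁ (-(ρ : ℝ))) (fun ρ => (starRingEnd ℂ) (v ρ) * KK M₂ ρ)
    (fun ρ₁ ρ₂ => Gam κ σ z₀ z₁ ρ₁ ρ₂)

/-- weighted square sum of the inner sums -/
noncomputable def Sq2 (L : ℕ) (ν : ℤ → ℝ) (S₁ S₂ S₃ : Finset ℕ) (γ : ℕ → ℂ) (χ₁ χ₂ : ℝ → ℝ)
    (z w : ℝ) : ℝ :=
  ∑ n₁ ∈ S₁, ∑ n₂ ∈ S₂, χ₁ (z / n₁) * χ₂ (w / n₂) * ‖Inn (Io L) ν S₃ γ z w n₁ n₂‖ ^ 2

noncomputable def SS (S : Finset ℕ) (u : ℝ) : ℂ := ∑ n ∈ S, pw (n : ℝ) u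

/-- the data on the weight `ν` -/
def Dat (N L : ℕ) (ν : ℤ → ℝ) (m t Δ B X : ℝ) : Prop :=
  1 ≤ N ∧ 1 ≤ L ∧ 1 ≤ t ∧ t ^ 2 ≤ m ∧ 1 ≤ Δ ∧ 0 ≤ B ∧ 0 < X ∧ ∑ a ∈ Io L, ν a ^ 2 ≤ X ∧
    m * mo (fun v => max (ph L ν v - 2 * B) 0) ≤ Δ * B ∧
    m * mo (fun v => max (ph L ν v ^ 2 - 4 * B ^ 2) 0) ≤ Δ * X ∧
    (∀ v, ph L ν v ≤ Δ * m * B) ∧ m * t ^ 2 * B ^ 2 ≤ Δ * N * X ∧ t ^ 2 ≤ Δ * N

/-- bilinear bound with level `m ^ 2 / t ^ 2` -/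
def BBH (m t Δ : ℝ) (R : ℕ) : Prop :=
  ∀ (M₁ M₂ : ℕ) (a b κ σ z₀ z₁ Y₁ Y₂ G : ℝ) (I : Finset (ℕ × ℕ)) (u v : ℕ × ℕ → ℤ → ℂ),
    1 ≤ M₁ → (M₁ : ℝ) ≤ m → 1 ≤ M₂ → (M₂ : ℝ) ≤ m → Line a b κ σ z₀ z₁ → 0 ≤ G →
    ∑ i ∈ I, N2 (Io R) (u i) ≤ Y₁ → ∑ i ∈ I, N2 (Io R) (v i) ≤ Y₂ →
    (∀ ρ ∈ Io R, ∑ i ∈ I, ‖u i ρ‖ ^ 2 ≤ G) → (∀ ρ ∈ Io R, ∑ i ∈ I, ‖v i ρ‖ ^ 2 ≤ G) →
    ∑ i ∈ I, ‖Bf2 R M₁ M₂ κ σ z₀ z₁ (u i) (v i)‖ ≤
      Δ * √(a * b) * (m ^ 2 / t ^ 2 * (√Y₁ * √Y₂) + M₁ * M₂ * G)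

/-- bound for the mean term -/
def GH (L : ℕ) (ν : ℤ → ℝ) (m t Δ X : ℝ) : Prop :=
  ∀ S : Finset ℕ, (∀ n ∈ S, 1 ≤ n ∧ (n : ℝ) ≤ 2 * m) →
    DH.EE (Io L) (fun a => ν a ^ 2) (SS S) ≤ Δ * (m ^ 2 / t ^ 2) * X ^ 2

/-- square root bound for short frequencies -/
def OscB (y Δ : ℝ) : Prop := ∀ M : ℕ, 1 ≤ M → ∀ u : ℤ, |(u : ℝ)| ≤ y ^ 8 →
  ‖KK M (u : ℝ)‖ ≤ Δ * (M * kp u + y ^ 4)

/-- eighth moment over differences -/
def JutB (y Δ : ℝ) (L : ℕ) : Prop := ∀ S : Finset ℕ, (∀ n ∈ S, 1 ≤ n ∧ (n : ℝ) ≤ 2 * y ^ 5) →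
  ∀ g : ℤ → ℝ, (∀ a, 0 ≤ g a) → DH.EE (Io L) g (fun u => SS S u ^ 4) ≤
    Δ * (y ^ 40 * ∑ a ∈ Io L, g a ^ 2 + y ^ 20 * (∑ a ∈ Io L, g a) ^ 2)

/-! ### pair bounds on a block -/

def BesWStmt : Prop := ∀ g : ℝ → ℝ, ContinuousOn g (Set.Icc (1 / 144 : ℝ) (1 / 144 + 144)) →
  ∀ s : Finset ℤ,
    ∑ ξ ∈ s, ‖∫ v in (1 / 144 : ℝ)..(1 / 144 + 144), (g v : ℂ) * ex ((ξ : ℝ) * v)‖ ^ 2 ≤
      144 * IW (fun v => g v ^ 2)

def PairWStmt : Prop := ∃ C : ℝ, 0 < C ∧ ∀ (N P Q : ℕ) (Δ : ℝ), 1 ≤ N → DivB (N * P) Δ →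
  DivB (N * Q) Δ → ∀ g h : ℝ → ℝ, ContinuousOn g (Set.Icc (1 / 144 : ℝ) (1 / 144 + 144)) →
    ContinuousOn h (Set.Icc (1 / 144 : ℝ) (1 / 144 + 144)) → (∀ v, 0 ≤ g v) → (∀ v, 0 ≤ h v) →
    IW (fun v => IW fun w => g v * h w *
        ∑ m ∈ Ms P, ∑ m' ∈ Ms Q, Ph N ((m : ℝ) * v + (m' : ℝ) * w)) ≤
      C * ((P : ℝ) * Q / N * IW g * IW h +
        √((P : ℝ) * Q) * Δ / N * √(IW fun v => g v ^ 2) * √(IW fun v => h v ^ 2))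

def IWStmt : Prop := ∃ C : ℝ, 0 < C ∧ ∀ g : ℝ → ℝ, Per g →
  IW g ≤ C * mo g ∧ IW (fun v => g v⁻¹) ≤ C * mo g

def MoStmt : Prop := ∀ (L : ℕ) (ν : ℤ → ℝ), Per (ph L ν) ∧
  mo (fun v => ph L ν v ^ 2) = 2 * Real.pi * ∑ a ∈ Io L, ν a ^ 2

def ChgStmt : Prop := ∃ C : ℝ, 0 < C ∧ ∀ (N M₁ M₂ M₃ : ℕ) (S₁ S₂ S₃ : Finset ℕ) (e₁ e₂ e₃ : ℝ)
  (g₁ g₂ g₃ : ℝ → ℝ), Bk M₁ M₂ M₃ S₁ S₂ S₃ e₁ e₂ e₃ → Per g₁ → Per g₂ → Per g₃ →
  TB N M₁ M₂ M₃ S₁ S₂ S₃ e₁ e₂ e₃ g₁ g₂ g₃ ≤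
    C * ab M₁ M₂ M₃ * TV N S₁ S₂ S₃ e₁ e₂ e₃ g₁ g₂ g₃

def SwpStmt : Prop := ∀ (N : ℕ) (S₁ S₂ S₃ : Finset ℕ) (e₁ e₂ e₃ : ℝ) (g₁ g₂ g₃ : ℝ → ℝ),
  Per g₁ → Per g₂ → Per g₃ →
  TV N S₁ S₂ S₃ e₁ e₂ e₃ g₁ g₂ g₃ = TV N S₂ S₁ S₃ e₂ e₁ e₃ (fun v => g₁ v⁻¹) g₃ g₂

def TVaStmt : Prop := ∃ C : ℝ, 0 < C ∧ ∀ (N M₁ M₂ : ℕ) (S₁ S₂ S₃ : Finset ℕ) (e₁ e₂ e₃ Δ : ℝ)
  (g h : ℝ → ℝ), 1 ≤ N → Dy M₁ S₁ → Dy M₂ S₂ → Sg e₁ → Sg e₂ → Sg e₃ →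
  DivB (N * (2 * M₁)) Δ → DivB (N * (2 * M₂)) Δ → Per g → Per h →
  TV N S₁ S₂ S₃ e₁ e₂ e₃ (fun _ => 1) g h ≤ C * (PB4 M₁ M₂ Δ g h / N)

def TVbStmt : Prop := ∃ C : ℝ, 0 < C ∧ ∀ (N M₂ M₃ : ℕ) (S₁ S₂ S₃ : Finset ℕ) (e₁ e₂ e₃ Δ : ℝ)
  (g h : ℝ → ℝ), 1 ≤ N → Dy M₂ S₂ → Dy M₃ S₃ → Sg e₁ → Sg e₂ → Sg e₃ →
  DivB (N * (2 * M₂)) Δ → DivB (N * (2 * M₃)) Δ → Per g → Per h →
  TV N S₁ S₂ S₃ e₁ e₂ e₃ g h (fun _ => 1) ≤ C * (PB4 M₂ M₃ Δ g h / N)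

def TVoStmt : Prop := ∃ C : ℝ, 0 < C ∧ ∀ (N M₁ M₂ M₃ : ℕ) (S₁ S₂ S₃ : Finset ℕ) (e₁ e₂ e₃ : ℝ)
  (h : ℝ → ℝ), 1 ≤ N → Dy M₁ S₁ → Dy M₂ S₂ → Dy M₃ S₃ → Sg e₂ → Per h →
  TV N S₁ S₂ S₃ e₁ e₂ e₃ (fun _ => 1) h (fun _ => 1) ≤ C * (M₁ * M₃ * mo h / N)

def BPStmt : Prop := ∃ C : ℝ, 0 < C ∧ ∀ (N M₁ M₂ M₃ : ℕ) (S₁ S₂ S₃ : Finset ℕ) (e₁ e₂ e₃ Δ : ℝ)
  (g h : ℝ → ℝ), 1 ≤ N → Bk M₁ M₂ M₃ S₁ S₂ S₃ e₁ e₂ e₃ → DivB (N * (2 * M₃)) Δ → Per g → Per h →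
  TB N M₁ M₂ M₃ S₁ S₂ S₃ e₁ e₂ e₃ (fun _ => 1) g h ≤ C * (ab M₁ M₂ M₃ / N * PB4 M₁ M₂ Δ g h) ∧
  TB N M₁ M₂ M₃ S₁ S₂ S₃ e₁ e₂ e₃ g h (fun _ => 1) ≤ C * (ab M₁ M₂ M₃ / N * PB4 M₂ M₃ Δ g h) ∧
  TB N M₁ M₂ M₃ S₁ S₂ S₃ e₁ e₂ e₃ g (fun _ => 1) h ≤ C * (ab M₁ M₂ M₃ / N * PB4 M₁ M₃ Δ g h) ∧
  TB N M₁ M₂ M₃ S₁ S₂ S₃ e₁ e₂ e₃ (fun _ => 1) h (fun _ => 1) ≤
    C * (ab M₁ M₂ M₃ / N * (M₁ * M₃ * mo h)) ∧
  TB N M₁ M₂ M₃ S₁ S₂ S₃ e₁ e₂ e₃ (fun _ => 1) (fun _ => 1) h ≤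
    C * (ab M₁ M₂ M₃ / N * (M₂ * M₃ * mo h))

/-! ### the row weight -/

def JackStmt : Prop := ∃ C : ℝ, 0 < C ∧ ∀ D : ℕ, 1 ≤ D → ∃ (J : ℝ → ℝ) (c : ℤ → ℂ),
  (∀ t, (J t : ℂ) = ∑ j ∈ Io (2 * D), c j * Complex.exp (Complex.I * j * t)) ∧ (∀ t, 0 ≤ J t) ∧
  ∫ t in (-Real.pi)..Real.pi, J t = 1 ∧
  ∫ t in (-Real.pi)..Real.pi, J t * (1 + (D : ℝ) ^ 2 * ch t) ≤ C

def RepStmt : Prop := ∃ C : ℝ, 0 < C ∧ ∀ D : ℕ, 1 ≤ D → ∀ (h : ℝ → ℝ) (c : ℤ → ℂ),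
  TP D (fun x => (h x : ℂ)) c → (∀ x, 0 ≤ h x) → ∀ x : ℝ, 0 < x → h x ≤ C * cv D h x

def ModStmt : Prop := ∀ (D : ℕ) (h : ℝ → ℝ), Per h → ∀ x : ℝ, 0 < x → ∀ t : ℝ,
  cv D h x ≤ 2 * (1 + (D : ℝ) ^ 2 * ch t) * cv D h (x * Real.exp (-t))

def CvStmt : Prop := ∃ C : ℝ, 0 < C ∧ ∀ (D : ℕ) (F : ℝ → ℝ), Per F →
  Per (cv D F) ∧ mo (cv D F) ≤ C * mo F ∧
    ∀ β : ℝ, (∀ v, 0 < v → F v ≤ β) → ∀ v, 0 < v → cv D F v ≤ C * β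

def HtpStmt : Prop := ∀ (L : ℕ) (ν : ℤ → ℝ) (S : Finset ℕ), (∀ n ∈ S, 1 ≤ n) →
  Per (hS L ν S) ∧ (∃ c : ℤ → ℂ, TP (2 * L) (fun x => (hS L ν S x : ℂ)) c) ∧
    ∀ (D : ℕ) (x : ℝ), 0 < x →
      cv D (hS L ν S) x = ∑ n ∈ S, cv D (fun v => ph L ν v ^ 2) (x * n)

def WtStmt : Prop := ∃ C : ℝ, 1 ≤ C ∧ ∀ (L : ℕ) (ν : ℤ → ℝ) (S : Finset ℕ) (H : ℝ), 1 ≤ L →
  (∀ n ∈ S, 1 ≤ n) → 0 < H → ∃ χ : ℝ → ℝ, Wg L ν S (C * H) χ ∧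
    ∀ x : ℝ, 0 < x → 1 / χ x ^ 2 ≤ 1 + C * (cv (2 * L) (hS L ν S) x / H)

/-! ### the weighted square sum -/

def TPmStmt : Prop := ∀ (R R' : ℕ) (U U' : ℝ → ℂ) (c c' : ℤ → ℂ), TP R U c → TP R' U' c' →
  ∃ d : ℤ → ℂ, TP (R + R') (fun x => U x * U' x) d

def TPpStmt : Prop := ∀ (R : ℕ) (U : ℝ → ℂ) (c : ℤ → ℂ), TP R U c →
  2 * Real.pi * N2 (Io R) c = mo (fun x => ‖U x‖ ^ 2) ∧
  ∀ ρ ∈ Io R, 2 * Real.pi * c ρ =
    ∫ θ in (-Real.pi)..Real.pi, U (Real.exp θ) * Complex.exp (-(Complex.I * ρ * θ))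

/-- two dimensional Parseval identity -/
def EEpStmt : Prop := ∀ (L : ℕ) (ν : ℤ → ℝ) (S : Finset ℕ), (∀ n ∈ S, 1 ≤ n) →
  ∫ θ in (-Real.pi)..Real.pi, ∫ θ' in (-Real.pi)..Real.pi,
      ‖∑ n ∈ S, FT (Io L) ν (Real.exp θ * n) *
        (starRingEnd ℂ) (FT (Io L) ν (Real.exp θ' * n))‖ ^ 2 =
    (2 * Real.pi) ^ 2 * DH.EE (Io L) (fun a => ν a ^ 2) (SS S)

def GY4Stmt : Prop := ∀ (L : ℕ) (ν : ℤ → ℝ) (S : Finset ℕ) (H X : ℝ) (χ : ℝ → ℝ),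
  (∀ n ∈ S, 1 ≤ n) → Wg L ν S H χ → ∑ a ∈ Io L, ν a ^ 2 ≤ X → ∃ u : ℕ × ℕ → ℤ → ℂ,
    (∀ i ∈ S ×ˢ S, TP (6 * L) (fun x => (χ x : ℂ) * (FT (Io L) ν (x * i.1) *
      (starRingEnd ℂ) (FT (Io L) ν (x * i.2)))) (u i)) ∧
    ∑ i ∈ S ×ˢ S, N2 (Io (6 * L)) (u i) ≤ H * (S.card * X) ∧
    ∀ ρ ∈ Io (6 * L), ∑ i ∈ S ×ˢ S, ‖u i ρ‖ ^ 2 ≤ DH.EE (Io L) (fun a => ν a ^ 2) (SS S)

def Exp4Stmt : Prop := ∀ (a b κ σ z₀ z₁ : ℝ) (L R M₁ M₂ : ℕ) (S₁ S₂ S₃ : Finset ℕ) (γ : ℕ → ℂ)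
  (ν : ℤ → ℝ) (χ₁ χ₂ : ℝ → ℝ) (u v : ℕ × ℕ → ℤ → ℂ), Line a b κ σ z₀ z₁ → Dy M₁ S₁ → Dy M₂ S₂ →
  (∀ n ∈ S₃, 1 ≤ n) → (∀ n ∈ S₃, ‖γ n‖ ≤ 1) → (∀ x, 0 < x → 0 ≤ χ₁ x) → (∀ x, 0 < x → 0 ≤ χ₂ x) →
  ContinuousOn χ₁ (Set.Ioi 0) → ContinuousOn χ₂ (Set.Ioi 0) →
  (∀ i ∈ S₃ ×ˢ S₃, TP R (fun x => (χ₁ x : ℂ) * (FT (Io L) ν (x * i.1) *
    (starRingEnd ℂ) (FT (Io L) ν (x * i.2)))) (u i)) →
  (∀ i ∈ S₃ ×ˢ S₃, TP R (fun x => (χ₂ x : ℂ) * (FT (Io L) ν (x * i.1) *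
    (starRingEnd ℂ) (FT (Io L) ν (x * i.2)))) (v i)) →
  ∫ z in z₀..z₁, Sq2 L ν S₁ S₂ S₃ γ χ₁ χ₂ z (κ + σ * z) ≤
    ∑ i ∈ S₃ ×ˢ S₃, ‖Bf2 R M₁ M₂ κ σ z₀ z₁ (u i) (v i)‖

def I4Stmt : Prop := ∃ C : ℝ, 0 < C ∧ ∀ (N L M₁ M₂ M₃ : ℕ) (S₁ S₂ S₃ : Finset ℕ)
  (e₁ e₂ e₃ m t Δ B X k : ℝ) (ν : ℤ → ℝ) (γ : ℕ → ℂ) (χ₁ χ₂ : ℝ → ℝ),
  Bk M₁ M₂ M₃ S₁ S₂ S₃ e₁ e₂ e₃ → (M₃ : ℝ) ≤ m → Dat N L ν m t Δ B X → BBH m t Δ (6 * L) →
  GH L ν m t Δ X → (∀ n ∈ S₃, ‖γ n‖ ≤ 1) → 1 ≤ k →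
  Wg L ν S₃ (k * ((M₃ : ℝ) ^ 2 * X / M₁)) χ₁ → Wg L ν S₃ (k * ((M₃ : ℝ) ^ 2 * X / M₂)) χ₂ →
  BX N M₁ M₂ M₃ e₁ e₂ e₃ (Sq2 L ν S₁ S₂ S₃ γ χ₁ χ₂) ≤
    C * k * Δ ^ 3 * (m ^ 2 / t ^ 2 * (M₃ * X ^ 2 / N))

/-! ### the two positive parts -/

def J0Stmt : Prop := ∃ C : ℝ, 0 < C ∧ ∀ (N L M₁ M₂ M₃ : ℕ) (S₁ S₂ S₃ : Finset ℕ)
  (e₁ e₂ e₃ A X : ℝ) (ν : ℤ → ℝ), 1 ≤ N → Bk M₁ M₂ M₃ S₁ S₂ S₃ e₁ e₂ e₃ → 0 ≤ A →
  ∑ a ∈ Io L, ν a ^ 2 ≤ X →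
  BX N M₁ M₂ M₃ e₁ e₂ e₃
      (fun z w => ∑ n₁ ∈ S₁, ∑ n₂ ∈ S₂, min (ph L ν (w / z * n₁ / n₂)) A ^ 2) ≤
    C * ab M₁ M₂ M₃ ^ 2 * (M₃ * X / N + A ^ 2 / (N : ℝ) ^ 2)

def J4Stmt : Prop := ∃ C : ℝ, 0 < C ∧ ∀ (N L M₁ M₂ M₃ : ℕ) (S₁ S₂ S₃ : Finset ℕ)
  (e₁ e₂ e₃ m t Δ B X : ℝ) (ν : ℤ → ℝ), Bk M₁ M₂ M₃ S₁ S₂ S₃ e₁ e₂ e₃ → (M₃ : ℝ) ≤ m →
  Dat N L ν m t Δ B X → DivB (N * (2 * M₃)) Δ →
  BX N M₁ M₂ M₃ e₁ e₂ e₃ (fun z w => ∑ n₁ ∈ S₁, ∑ n₂ ∈ S₂,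
      min (ph L ν (w / z * n₁ / n₂)) (√(ab M₁ M₂ M₃) * (t * √X)) ^ 2 *
        (1 + cv (2 * L) (hS L ν S₃) (z / n₁) / ((M₃ : ℝ) ^ 2 * X / M₁) +
          cv (2 * L) (hS L ν S₃) (w / n₂) / ((M₃ : ℝ) ^ 2 * X / M₂))) ≤
    C * Δ * ab M₁ M₂ M₃ ^ 2 * ((M₃ * X + t * √X * B) / N)

def ShpStmt : Prop := ∃ C : ℝ, 0 < C ∧ ∀ (N L M₁ M₂ M₃ : ℕ) (S₁ S₂ S₃ : Finset ℕ)
  (e₁ e₂ e₃ m t Δ B X : ℝ) (ν : ℤ → ℝ), Bk M₁ M₂ M₃ S₁ S₂ S₃ e₁ e₂ e₃ → (M₃ : ℝ) ≤ m →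
  Dat N L ν m t Δ B X → DivB (N * (2 * M₃)) Δ →
  TB N M₁ M₂ M₃ S₁ S₂ S₃ e₁ e₂ e₃ (fun v => max (ph L ν v - √(ab M₁ M₂ M₃) * (t * √X)) 0)
      (ph L ν) (ph L ν) ≤
    C * Δ ^ 3 * (ab M₁ M₂ M₃ / N * (m ^ 2 / t * (X * √X) + m * B * X))

/-- Cauchy-Schwarz on the box -/
def CSStmt : Prop := ∀ (N M₁ M₂ M₃ : ℕ) (e₁ e₂ e₃ : ℝ) (F G H K : ℝ → ℝ → ℝ), 1 ≤ M₁ → 1 ≤ M₂ →
  1 ≤ M₃ → ContinuousOn (fun p : ℝ × ℝ => F p.1 p.2) (Set.Ioi 0 ×ˢ Set.Ioi 0) →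
  ContinuousOn (fun p : ℝ × ℝ => G p.1 p.2) (Set.Ioi 0 ×ˢ Set.Ioi 0) →
  ContinuousOn (fun p : ℝ × ℝ => H p.1 p.2) (Set.Ioi 0 ×ˢ Set.Ioi 0) →
  ContinuousOn (fun p : ℝ × ℝ => K p.1 p.2) (Set.Ioi 0 ×ˢ Set.Ioi 0) →
  (∀ z w τ : ℝ, 0 < z → 0 < w → 0 < τ → 0 ≤ G z w ∧ 0 ≤ H z w ∧
    F z w ≤ (τ * G z w + H z w / τ) / 2 + K z w) →
  BX N M₁ M₂ M₃ e₁ e₂ e₃ F ≤ √(BX N M₁ M₂ M₃ e₁ e₂ e₃ G) * √(BX N M₁ M₂ M₃ e₁ e₂ e₃ H) +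
    BX N M₁ M₂ M₃ e₁ e₂ e₃ K

def Blk4Stmt : Prop := ∃ C : ℝ, 0 < C ∧ ∀ (N L M₁ M₂ M₃ : ℕ) (S₁ S₂ S₃ : Finset ℕ)
  (e₁ e₂ e₃ m t Δ B X : ℝ) (ν : ℤ → ℝ), Bk M₁ M₂ M₃ S₁ S₂ S₃ e₁ e₂ e₃ → (M₃ : ℝ) ≤ m →
  Dat N L ν m t Δ B X → DivB (N * (2 * M₃)) Δ → BBH m t Δ (6 * L) → GH L ν m t Δ X →
  ‖Qb N (Io L) ν S₁ S₂ S₃ e₁ e₂ e₃‖ ≤ C * Δ ^ 3 * ((m ^ 2 / t * (X * √X) + m * B * X) / N)

def Q5Stmt : Prop := ∃ C : ℝ, 0 < C ∧ ∀ (N L M : ℕ) (m t Δ B X : ℝ) (ν : ℤ → ℝ), (M : ℝ) ≤ m →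
  Dat N L ν m t Δ B X → DivB (N * (2 * M)) Δ → BBH m t Δ (6 * L) → GH L ν m t Δ X →
  ‖Q3 N M (Io L) ν‖ ≤ C * Δ ^ 6 * (N : ℝ) ^ 2 * (m ^ 2 / t * (X * √X) + m * B * X)

def DatStmt : Prop := ∃ C : ℝ, 1 ≤ C ∧ ∀ (N M L : ℕ) (t Δ B X : ℝ) (ν : ℤ → ℝ), 1 ≤ N → 1 ≤ L →
  1 ≤ t → t ^ 2 ≤ M → DivB (N * M) Δ → (M : ℝ) ^ 2 ≤ Δ * N → 0 ≤ B → 0 < X →
  (∀ v ∈ Set.Icc (1 / 9 : ℝ) (82 / 9), ‖FT (Io L) ν v‖ ≤ B * (1 + rho N M v)) →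
  (∀ v ∈ Set.Icc (9 : ℝ) 24, ‖FT (Io L) ν v‖ ≤ B) → ∑ a ∈ Io L, ν a ^ 2 ≤ X →
  M * B ^ 2 * R2 N M Δ ≤ X → Dat N L ν M t (C * Δ) B X

def PtWStmt : Prop := ∃ C : ℝ, 0 < C ∧ ∀ N L : ℕ, 1 ≤ N → 1 ≤ L →
  ∀ b : ℕ → ℂ, (∀ n, ‖b n‖ ≤ 1) → ∀ v ∈ Set.Icc (9 : ℝ) 24,
    ‖FT (Ioo (-(L : ℤ)) L) (fun u => ((L : ℝ) - |(u : ℝ)|) / L * ‖DP N b (u : ℝ)‖ ^ 2) v‖ ≤
      C * (N : ℝ) ^ 2

/-! ### the bilinear bound at level `y ^ 8` -/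

def Gam4Stmt : Prop := ∃ C : ℝ, 0 < C ∧ ∀ a b κ σ z₀ z₁ : ℝ, Line a b κ σ z₀ z₁ →
  ∀ ρ₁ ρ₂ : ℝ, ‖Gam κ σ z₀ z₁ ρ₁ ρ₂‖ ^ 2 * (1 + |ρ₁| + |ρ₂|) ≤ C * (a * b)

def GL4Stmt : Prop := ∃ C : ℝ, 0 < C ∧ ∀ a b κ σ z₀ z₁ : ℝ, Line a b κ σ z₀ z₁ →
  ∀ (D : Finset ℤ) (u v : ℤ → ℂ),
    ‖Bil D u v (fun ρ₁ ρ₂ => Gam κ σ z₀ z₁ ρ₁ ρ₂)‖ ≤ C * √(a * b) * √(N2 D u) * √(N2 D v)

def Osc4Stmt : Prop := ∀ δ : ℝ, 0 < δ → ∃ C : ℝ, 1 ≤ C ∧ ∀ y : ℝ, 1 ≤ y → OscB y (C * y ^ δ)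

def Near4Stmt : Prop := ∃ C : ℝ, 1 ≤ C ∧ ∀ y Δ : ℝ, 1 ≤ y → 1 ≤ Δ → OscB y Δ → ∀ M₁ M₂ : ℕ,
  1 ≤ M₁ → (M₁ : ℝ) ≤ y ^ 5 → 1 ≤ M₂ → (M₂ : ℝ) ≤ y ^ 5 → ∀ ρ₁ ρ₂ : ℤ,
    C * Δ ^ 2 * y ^ 8 < ‖KK M₁ (-(ρ₁ : ℝ))‖ * ‖KK M₂ ρ₂‖ →
    (Pk (C * Δ) M₁ (-(ρ₁ : ℝ)) ∧ Pk (C * Δ) M₂ ρ₂) ∨
      (Pk (C * Δ) M₁ (-(ρ₁ : ℝ)) ∧ y ^ 5 ≤ |(ρ₂ : ℝ)|) ∨
      (y ^ 5 ≤ |(ρ₁ : ℝ)| ∧ Pk (C * Δ) M₂ ρ₂) ∨ y ^ 8 ≤ max |(ρ₁ : ℝ)| |(ρ₂ : ℝ)|

def Far4Stmt : Prop := ∃ C : ℝ, 0 < C ∧ ∀ (y lam Δ : ℝ) (M₁ M₂ R X : ℕ), 1 ≤ y → 1 ≤ M₁ →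
  (M₁ : ℝ) ≤ y ^ 5 → 1 ≤ M₂ → (M₂ : ℝ) ≤ y ^ 5 → (R : ℝ) ≤ 8 * y ^ 30 → 729 * y ^ 30 ≤ X →
  DivB X Δ → y ^ 8 ≤ lam →
  ∑ ρ₁ ∈ Io R, ∑ ρ₂ ∈ Io R,
    (if lam < ‖KK M₁ (-(ρ₁ : ℝ))‖ * ‖KK M₂ ρ₂‖ ∧ y ^ 8 ≤ max |(ρ₁ : ℝ)| |(ρ₂ : ℝ)| then
      (‖KK M₁ (-(ρ₁ : ℝ))‖ * ‖KK M₂ ρ₂‖) ^ 2 / (1 + |(ρ₁ : ℝ)| + |(ρ₂ : ℝ)|) else 0) ≤
    C * Δ ^ 13 * lam ^ 2

def BB4Stmt : Prop := ∃ C : ℝ, 1 ≤ C ∧ ∀ (y Δ : ℝ) (R X : ℕ), 1 ≤ y → (R : ℝ) ≤ 8 * y ^ 30 →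
  729 * y ^ 30 ≤ X → DivB X Δ → OscB y Δ → BBH (y ^ 5) y (C * Δ ^ 9) R

/-! ### the mean term -/

def Jut4Stmt : Prop := ∀ δ : ℝ, 0 < δ → ∃ C : ℝ, 1 ≤ C ∧ ∀ (y : ℝ) (M L : ℕ), 1 ≤ y →
  y ^ 5 = M → (L : ℝ) ≤ y ^ 30 → JutB y (C * y ^ δ) L

def G4Stmt : Prop := ∀ (y Δ X : ℝ) (L : ℕ) (ν : ℤ → ℝ), 1 ≤ y → 1 ≤ Δ → JutB y Δ L →
  ∑ a ∈ Io L, ν a ^ 2 ≤ X → (∀ a ∈ Io L, |ν a| ≤ √X / y ^ 4) → GH L ν (y ^ 5) y (3 * Δ) X

/-! ### the end of the proof -/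

def Q6Stmt : Prop := ∃ C : ℝ, 0 < C ∧ ∀ (N M L Xd : ℕ) (Δ B X y : ℝ) (ν : ℤ → ℝ), 1 ≤ N →
  1 ≤ L → 1 ≤ y → y ^ 5 = M → (L : ℝ) ≤ y ^ 30 → N * (2 * M) ≤ Xd → 729 * y ^ 30 ≤ Xd →
  DivB Xd Δ → OscB y Δ → JutB y Δ L → (M : ℝ) ^ 2 ≤ Δ * N → 0 ≤ B → 0 < X →
  (∀ v ∈ Set.Icc (1 / 9 : ℝ) (82 / 9), ‖FT (Io L) ν v‖ ≤ B * (1 + rho N M v)) →
  (∀ v ∈ Set.Icc (9 : ℝ) 24, ‖FT (Io L) ν v‖ ≤ B) → ∑ a ∈ Io L, ν a ^ 2 ≤ X →
  (∀ a ∈ Io L, |ν a| ≤ √X / y ^ 4) → M * B ^ 2 * R2 N M Δ ≤ X →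
  ‖Q3 N M (Io L) ν‖ ≤ C * (N : ℝ) ^ 2 * (Δ ^ 54 * (y ^ 9 * (X * √X) + y ^ 5 * B * X))

def Set4Stmt : Prop := ∀ δ C₀ : ℝ, 0 < δ → δ ≤ 1 / 4 → 1 ≤ C₀ → ∃ C : ℝ, 1 ≤ C ∧
  ∀ (N T M : ℕ) (y : ℝ), 1 ≤ N → N ≤ T → T ^ 21 ≤ N ^ 26 → 1 ≤ y → y ^ 5 = M →
    (M : ℝ) ≤ C₀ * (N : ℝ) ^ δ * (T / N) → ((2 * T : ℕ) : ℝ) ≤ y ^ 30 →
    DivB (N * (2 * M) + 729 * M ^ 6) (C * (N : ℝ) ^ δ) ∧ OscB y (C * (N : ℝ) ^ δ) ∧
      JutB y (C * (N : ℝ) ^ δ) (2 * T) ∧ (M : ℝ) ^ 2 ≤ C * (N : ℝ) ^ δ * N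

def Num4Stmt : Prop := ∀ δ C : ℝ, 0 < δ → 1 ≤ C → ∃ K : ℝ, 0 < K ∧
  ∀ (N T M : ℕ) (Δ B X y : ℝ), 1 ≤ N → N ≤ T → T ^ 21 ≤ N ^ 26 → 1 ≤ y → y ^ 5 = M →
    (M : ℝ) ≤ C * (N : ℝ) ^ δ * (T / N) → 1 ≤ Δ → Δ ≤ C * (N : ℝ) ^ δ → 0 ≤ B →
    B ≤ C * (N : ℝ) ^ δ * (N : ℝ) ^ 2 → 0 ≤ X →
    (X ≤ y ^ 8 * (T * (N : ℝ) ^ 2) ∨ X ≤ M * B ^ 2 * R2 N M Δ ∨ X ^ 3 ≤ C * (N : ℝ) ^ 3 *
      ((N : ℝ) ^ 2 * (Δ ^ 54 * (y ^ 9 * (X * √X) + y ^ 5 * B * X)) +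
        (N : ℝ) ^ δ * (T * (N : ℝ) ^ 3) * X)) →
    X ≤ K * (N : ℝ) ^ (40 * δ) * (√T * (N : ℝ) ^ 3)

def B5Stmt : Prop := ∀ ε : ℝ, 0 < ε → ∃ K : ℝ, 0 < K ∧ ∀ N T : ℕ, 1 ≤ N → N ≤ T →
  T ^ 21 ≤ N ^ 26 → ∀ b : ℕ → ℂ, (∀ n, ‖b n‖ ≤ 1) → ∀ V : ℝ, 0 < V →
    Mass N b (Icc 0 (T : ℤ)) V ≤ K * (N : ℝ) ^ ε * ((N : ℝ) ^ 2 + √T * (N : ℝ) ^ 3 / V ^ 2)

def Int4Stmt : Prop := ∀ ε : ℝ, 0 < ε → ∃ K : ℝ, 0 < K ∧ ∀ N T : ℕ, 1 ≤ N → N ≤ T →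
  ∀ b : ℕ → ℂ, (∀ n, ‖b n‖ ≤ 1) → ∀ V : ℝ, 0 < V →
    Mass N b (Icc 0 (T : ℤ)) V ≤ K * (N : ℝ) ^ ε *
      ((N : ℝ) ^ 2 + (√T * (N : ℝ) ^ 3 + T * (N : ℝ) ^ (50 / 21 : ℝ)) / V ^ 2)

def Final4Stmt : Prop := ∀ ε : ℝ, 0 < ε → ∃ K : ℝ, ∀ (N : ℕ) (T V : ℝ), 1 ≤ N → (N : ℝ) ≤ T →
  0 < V → ∀ b : ℕ → ℂ, (∀ n, ‖b n‖ ≤ 1) → ∀ W : Finset ℝ, (∀ t ∈ W, 0 ≤ t ∧ t ≤ T) →
    (∀ s ∈ W, ∀ t ∈ W, s ≠ t → 1 ≤ |s - t|) → (∀ t ∈ W, V ≤ ‖DP N b t‖) →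
    (W.card : ℝ) ≤ K * (N : ℝ) ^ ε * ((N : ℝ) ^ 2 / V ^ 2 + √T * (N : ℝ) ^ 3 / V ^ 4 +
      T * (N : ℝ) ^ (50 / 21 : ℝ) / V ^ 4)

end Pool.Agent.MP_2a1f0e_nt.GM4

end

section

set_option autoImplicit false

open Finset

namespace Pool.Agent.MP_2a1f0e_nt.GM4

open GM GM2 GM3

lemma neg_pi_le : -Real.pi ≤ Real.pi := by linarith [Real.pi_pos]

lemma Per.cont {g : ℝ → ℝ} (h : Per g) : Continuous fun θ => g (Real.exp θ) :=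
  h.1.comp_continuous Real.continuous_exp fun θ => Real.exp_pos θ

lemma Per.periodic {g : ℝ → ℝ} (h : Per g) :
    Function.Periodic (fun θ => g (Real.exp θ)) (2 * Real.pi) := fun θ => by
  simp only [Real.exp_add]
  exact h.2.2 _ (Real.exp_pos θ)

lemma per_const {c : ℝ} (hc : 0 ≤ c) : Per fun _ => c :=
  ⟨continuousOn_const, fun _ => hc, fun _ _ => rfl⟩

lemma per_one : Per fun _ => 1 := per_const zero_le_one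

lemma Per.comp {g : ℝ → ℝ} (h : Per g) {F : ℝ → ℝ} (hF : Continuous F)
    (h0 : ∀ s, 0 ≤ s → 0 ≤ F s) : Per fun v => F (g v) :=
  ⟨hF.comp_continuousOn h.1, fun v => h0 _ (h.2.1 v), fun v hv => by simp only [h.2.2 v hv]⟩

lemma Per.add {g h : ℝ → ℝ} (hg : Per g) (hh : Per h) : Per fun v => g v + h v :=
  ⟨hg.1.add hh.1, fun v => add_nonneg (hg.2.1 v) (hh.2.1 v), fun v hv => by
    simp only [hg.2.2 v hv, hh.2.2 v hv]⟩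

lemma Per.mul {g h : ℝ → ℝ} (hg : Per g) (hh : Per h) : Per fun v => g v * h v :=
  ⟨hg.1.mul hh.1, fun v => mul_nonneg (hg.2.1 v) (hh.2.1 v), fun v hv => by
    simp only [hg.2.2 v hv, hh.2.2 v hv]⟩

lemma Per.pow {g : ℝ → ℝ} (h : Per g) (k : ℕ) : Per fun v => g v ^ k :=
  h.comp (F := fun s => s ^ k) (continuous_pow k) fun _ hs => pow_nonneg hs k

lemma Per.min {g : ℝ → ℝ} (h : Per g) {A : ℝ} (hA : 0 ≤ A) : Per fun v => min (g v) A :=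
  h.comp (F := fun s => Min.min s A) (continuous_id.min continuous_const) fun _ hs => le_min hs hA

lemma Per.max {g : ℝ → ℝ} (h : Per g) (A : ℝ) : Per fun v => max (g v - A) 0 :=
  h.comp (F := fun s => Max.max (s - A) 0) ((continuous_id.sub continuous_const).max
    continuous_const) fun _ _ => le_max_right _ _

lemma Per.inv {g : ℝ → ℝ} (h : Per g) : Per fun v => g v⁻¹ := by
  refine ⟨h.1.comp (continuousOn_id.inv₀ fun v hv => ne_of_gt hv) fun v hv =>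
    Set.mem_Ioi.2 (inv_pos.2 (Set.mem_Ioi.1 hv)),
    fun v => h.2.1 _, fun v hv => ?_⟩
  have e := h.2.2 ((v * Real.exp (2 * Real.pi))⁻¹) (by positivity)
  beta_reduce
  rw [← e, mul_inv, mul_assoc, inv_mul_cancel₀ (Real.exp_pos _).ne', mul_one]

lemma Per.scale {g : ℝ → ℝ} (h : Per g) {c : ℝ} (hc : 0 < c) : Per fun v => g (v * c) :=
  ⟨h.1.comp (continuousOn_id.mul continuousOn_const) fun v hv => mul_pos hv hc,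
    fun v => h.2.1 _, fun v hv => by
      simp only [mul_right_comm v _ c]
      exact h.2.2 _ (mul_pos hv hc)⟩

lemma per_sum {ι : Type*} (s : Finset ι) {g : ι → ℝ → ℝ} (h : ∀ i ∈ s, Per (g i)) :
    Per fun v => ∑ i ∈ s, g i v :=
  ⟨continuousOn_finsetSum _ fun i hi => (h i hi).1,
    fun v => sum_nonneg fun i hi => (h i hi).2.1 v,
    fun v hv => sum_congr rfl fun i hi => (h i hi).2.2 v hv⟩

lemma mo_nonneg {g : ℝ → ℝ} (h : ∀ v, 0 < v → 0 ≤ g v) : 0 ≤ mo g :=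
  intervalIntegral.integral_nonneg neg_pi_le fun θ _ => h _ (Real.exp_pos θ)

lemma Per.mo_nonneg {g : ℝ → ℝ} (h : Per g) : 0 ≤ mo g := GM4.mo_nonneg fun v _ => h.2.1 v

lemma mo_mono {g h : ℝ → ℝ} (hg : Per g) (hh : Per h) (hle : ∀ v, 0 < v → g v ≤ h v) :
    mo g ≤ mo h :=
  intervalIntegral.integral_mono_on neg_pi_le (hg.cont.intervalIntegrable _ _)
    (hh.cont.intervalIntegrable _ _) fun θ _ => hle _ (Real.exp_pos θ)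

lemma mo_add {g h : ℝ → ℝ} (hg : Per g) (hh : Per h) :
    mo (fun v => g v + h v) = mo g + mo h :=
  intervalIntegral.integral_add (hg.cont.intervalIntegrable _ _) (hh.cont.intervalIntegrable _ _)

lemma mo_const_mul (c : ℝ) (g : ℝ → ℝ) : mo (fun v => c * g v) = c * mo g :=
  intervalIntegral.integral_const_mul _ _

lemma mo_sum {ι : Type*} (s : Finset ι) {g : ι → ℝ → ℝ} (h : ∀ i ∈ s, Per (g i)) :
    mo (fun v => ∑ i ∈ s, g i v) = ∑ i ∈ s, mo (g i) :=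
  intervalIntegral.integral_finsetSum fun i hi => (h i hi).cont.intervalIntegrable _ _

lemma mo_inv (g : ℝ → ℝ) : mo (fun v => g v⁻¹) = mo g := by
  unfold mo
  simp only [← Real.exp_neg]
  rw [intervalIntegral.integral_comp_neg fun θ => g (Real.exp θ), neg_neg]

/-- the integral of a periodic function over a period is shift invariant -/
lemma shift_per {E : Type*} [NormedAddCommGroup E] [NormedSpace ℝ E] {F : ℝ → E}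
    (h : Function.Periodic F (2 * Real.pi)) (s : ℝ) :
    ∫ θ in (-Real.pi)..Real.pi, F (θ + s) = ∫ θ in (-Real.pi)..Real.pi, F θ := by
  rw [intervalIntegral.integral_comp_add_right F s]
  have := h.intervalIntegral_add_eq (-Real.pi + s) (-Real.pi)
  rwa [show -Real.pi + s + 2 * Real.pi = Real.pi + s by ring,
    show -Real.pi + 2 * Real.pi = Real.pi by ring] at this

lemma mo_scale {g : ℝ → ℝ} (h : Per g) {c : ℝ} (hc : 0 < c) : mo (fun v => g (v * c)) = mo g := by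
  have := shift_per h.periodic (Real.log c)
  simp only [Real.exp_add, Real.exp_log hc] at this
  exact this

lemma ch_nonneg (t : ℝ) : 0 ≤ ch t := by
  unfold ch
  linarith [Real.cos_le_one t]

lemma kc_nonneg (D : ℕ) (t : ℝ) : 0 ≤ kc D t := by
  have := ch_nonneg t
  unfold kc
  positivity

lemma continuous_ch : Continuous ch := by
  unfold ch
  fun_prop

lemma continuous_kc (D : ℕ) : Continuous (kc D) := by
  unfold kc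
  exact continuous_const.div (continuous_const.add (continuous_const.mul continuous_ch))
    fun t => by
      have := ch_nonneg t
      positivity

lemma ch_neg (t : ℝ) : ch (-t) = ch t := by simp [ch]

lemma ch_periodic : Function.Periodic ch (2 * Real.pi) := fun t => by simp [ch]

lemma kc_periodic (D : ℕ) : Function.Periodic (kc D) (2 * Real.pi) := fun t => by
  simp only [kc, ch_periodic t]

lemma cv_nonneg (D : ℕ) {F : ℝ → ℝ} (h : ∀ v, 0 ≤ F v) (x : ℝ) : 0 ≤ cv D F x :=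
  intervalIntegral.integral_nonneg neg_pi_le fun t _ => mul_nonneg (kc_nonneg D t) (h _)

lemma Per.cont_mul {F : ℝ → ℝ} (h : Per F) {x : ℝ} (hx : 0 < x) :
    Continuous fun t => F (x * Real.exp (-t)) :=
  h.1.comp_continuous (by fun_prop) fun t => mul_pos hx (Real.exp_pos _)

lemma cv_mono (D : ℕ) {F G : ℝ → ℝ} (hF : Per F) (hG : Per G) (h : ∀ v, 0 < v → F v ≤ G v)
    {x : ℝ} (hx : 0 < x) : cv D F x ≤ cv D G x :=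
  intervalIntegral.integral_mono_on neg_pi_le
    (((continuous_kc D).mul (hF.cont_mul hx)).intervalIntegrable _ _)
    (((continuous_kc D).mul (hG.cont_mul hx)).intervalIntegrable _ _) fun t _ =>
      mul_le_mul_of_nonneg_left (h _ (mul_pos hx (Real.exp_pos _))) (kc_nonneg D t)

lemma cv_add (D : ℕ) {F G : ℝ → ℝ} (hF : Per F) (hG : Per G) {x : ℝ} (hx : 0 < x) :
    cv D (fun v => F v + G v) x = cv D F x + cv D G x := by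
  unfold cv
  simp only [mul_add]
  exact intervalIntegral.integral_add
    (((continuous_kc D).mul (hF.cont_mul hx)).intervalIntegrable _ _)
    (((continuous_kc D).mul (hG.cont_mul hx)).intervalIntegrable _ _)

lemma pw_exp (θ u : ℝ) : pw (Real.exp θ) u = Complex.exp (Complex.I * u * θ) := by
  rw [pw, Real.log_exp]

lemma pw_per {v : ℝ} (hv : 0 < v) (k : ℤ) : pw (v * Real.exp (2 * Real.pi)) k = pw v k := by
  rw [pw_mul hv.ne' (Real.exp_pos _).ne', pw_exp]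
  have : Complex.I * ((k : ℝ) : ℂ) * ((2 * Real.pi : ℝ) : ℂ) = k * (2 * Real.pi * Complex.I) := by
    push_cast
    ring
  rw [this, Complex.exp_int_mul_two_pi_mul_I, mul_one]

lemma TP.cont {R : ℕ} {U : ℝ → ℂ} {c : ℤ → ℂ} (h : TP R U c) : ContinuousOn U (Set.Ioi 0) := by
  have h1 : ContinuousOn (fun x : ℝ => ∑ ρ ∈ Io R, c ρ * pw x ρ) (Set.Ioi 0) :=
    continuousOn_finsetSum _ fun ρ _ => continuousOn_const.mul (continuousOn_pw (ρ : ℝ))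
  exact h1.congr fun x hx => h x hx

lemma Wg.cont {L : ℕ} {ν : ℤ → ℝ} {S : Finset ℕ} {H : ℝ} {χ : ℝ → ℝ} (h : Wg L ν S H χ) :
    ContinuousOn χ (Set.Ioi 0) := by
  obtain ⟨c, hc⟩ := h.1
  exact (Complex.continuous_re.comp_continuousOn hc.cont).congr fun x _ => by simp

lemma ph_nonneg (L : ℕ) (ν : ℤ → ℝ) (v : ℝ) : 0 ≤ ph L ν v := norm_nonneg _

lemma ph_inv (L : ℕ) (ν : ℤ → ℝ) (v : ℝ) : ph L ν v⁻¹ = ph L ν v := norm_FT_inv _ _ _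

lemma per_ph (L : ℕ) (ν : ℤ → ℝ) : Per (ph L ν) :=
  ⟨(continuousOn_FT _ _).norm, ph_nonneg L ν, fun v hv => by
    unfold ph FT
    simp only [pw_per hv]⟩

lemma hS_nonneg (L : ℕ) (ν : ℤ → ℝ) (S : Finset ℕ) (x : ℝ) : 0 ≤ hS L ν S x :=
  sum_nonneg fun _ _ => sq_nonneg _

lemma per_hS (L : ℕ) (ν : ℤ → ℝ) {S : Finset ℕ} (h : ∀ n ∈ S, 1 ≤ n) : Per (hS L ν S) :=
  per_sum S fun n hn => ((per_ph L ν).scale (by exact_mod_cast h n hn)).pow 2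

/-- continuity on the open quadrant -/
def CQ (H : ℝ → ℝ → ℝ) : Prop :=
  ContinuousOn (fun p : ℝ × ℝ => H p.1 p.2) (Set.Ioi 0 ×ˢ Set.Ioi 0)

lemma CQ.add {F G : ℝ → ℝ → ℝ} (hF : CQ F) (hG : CQ G) : CQ fun z w => F z w + G z w :=
  ContinuousOn.add hF hG

lemma CQ.mul {F G : ℝ → ℝ → ℝ} (hF : CQ F) (hG : CQ G) : CQ fun z w => F z w * G z w :=
  ContinuousOn.mul hF hG

lemma cq_const (c : ℝ) : CQ fun _ _ => c := continuousOn_const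

lemma cq_sum {ι : Type*} (s : Finset ι) {F : ι → ℝ → ℝ → ℝ} (h : ∀ i ∈ s, CQ (F i)) :
    CQ fun z w => ∑ i ∈ s, F i z w := continuousOn_finsetSum _ h

lemma cq_u {g : ℝ → ℝ} (h : ContinuousOn g (Set.Ioi 0)) {p q : ℝ} (hp : 0 < p) (hq : 0 < q) :
    CQ fun z w => g (w / z * p / q) :=
  h.comp (((continuousOn_snd.div continuousOn_fst fun _ hx => ne_of_gt hx.1).mul
    continuousOn_const).div_const _) fun _ hx => div_pos (mul_pos (div_pos hx.2 hx.1) hp) hq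

lemma cq_z {g : ℝ → ℝ} (h : ContinuousOn g (Set.Ioi 0)) {p q : ℝ} (hp : 0 < p) (hq : 0 < q) :
    CQ fun z _ => g (z * p / q) :=
  h.comp ((continuousOn_fst.mul continuousOn_const).div_const _) fun _ hx =>
    div_pos (mul_pos hx.1 hp) hq

lemma cq_w {g : ℝ → ℝ} (h : ContinuousOn g (Set.Ioi 0)) {p q : ℝ} (hp : 0 < p) (hq : 0 < q) :
    CQ fun _ w => g (w * p / q) :=
  h.comp ((continuousOn_snd.mul continuousOn_const).div_const _) fun _ hx =>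
    div_pos (mul_pos hx.2 hp) hq

lemma cq_z' {g : ℝ → ℝ} (h : ContinuousOn g (Set.Ioi 0)) {q : ℝ} (hq : 0 < q) :
    CQ fun z _ => g (z / q) :=
  h.comp (continuousOn_fst.div_const _) fun _ hx => div_pos hx.1 hq

lemma cq_w' {g : ℝ → ℝ} (h : ContinuousOn g (Set.Ioi 0)) {q : ℝ} (hq : 0 < q) :
    CQ fun _ w => g (w / q) :=
  h.comp (continuousOn_snd.div_const _) fun _ hx => div_pos hx.2 hq

lemma int_w {H : ℝ → ℝ → ℝ} (h : CQ H) {z b b' : ℝ} (hz : 0 < z) (hb : 0 < b) (hbb : b ≤ b') :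
    IntervalIntegrable (fun w => H z w) MeasureTheory.volume b b' := by
  refine ContinuousOn.intervalIntegrable_of_Icc hbb ?_
  exact ContinuousOn.comp (f := fun w => (z, w)) h (by fun_prop) fun w hw =>
    ⟨hz, lt_of_lt_of_le hb hw.1⟩

lemma int_z {H : ℝ → ℝ → ℝ} (h : CQ H) {a a' b b' : ℝ} (ha : 0 < a) (haa : a ≤ a') (hb : 0 < b)
    (hbb : b ≤ b') :
    IntervalIntegrable (fun z => ∫ w in b..b', H z w) MeasureTheory.volume a a' := by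
  have hK : IsCompact (Set.Icc a a' ×ˢ Set.Icc b b') := isCompact_Icc.prod isCompact_Icc
  have h1 : MeasureTheory.IntegrableOn (fun p : ℝ × ℝ => H p.1 p.2)
      (Set.Ioc a a' ×ˢ Set.Ioc b b') (MeasureTheory.volume.prod MeasureTheory.volume) :=
    ((ContinuousOn.mono h fun p hp => ⟨lt_of_lt_of_le ha hp.1.1,
      lt_of_lt_of_le hb hp.2.1⟩).integrableOn_compact hK).mono_set
      (Set.prod_mono Set.Ioc_subset_Icc_self Set.Ioc_subset_Icc_self)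
  rw [MeasureTheory.IntegrableOn, ← MeasureTheory.Measure.prod_restrict] at h1
  rw [intervalIntegrable_iff_integrableOn_Ioc_of_le haa]
  simp only [intervalIntegral.integral_of_le hbb]
  exact h1.integral_prod_left

lemma box_mono {F G : ℝ → ℝ → ℝ} (hF : CQ F) (hG : CQ G) {a a' b b' : ℝ} (ha : 0 < a)
    (haa : a ≤ a') (hb : 0 < b) (hbb : b ≤ b')
    (h : ∀ z ∈ Set.Icc a a', ∀ w ∈ Set.Icc b b', F z w ≤ G z w) :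
    ∫ z in a..a', ∫ w in b..b', F z w ≤ ∫ z in a..a', ∫ w in b..b', G z w :=
  intervalIntegral.integral_mono_on haa (int_z hF ha haa hb hbb) (int_z hG ha haa hb hbb)
    fun z hz => intervalIntegral.integral_mono_on hbb (int_w hF (ha.trans_le hz.1) hb hbb)
      (int_w hG (ha.trans_le hz.1) hb hbb) (h z hz)

lemma box_add {F G : ℝ → ℝ → ℝ} (hF : CQ F) (hG : CQ G) {a a' b b' : ℝ} (ha : 0 < a)
    (haa : a ≤ a') (hb : 0 < b) (hbb : b ≤ b') :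
    ∫ z in a..a', ∫ w in b..b', (F z w + G z w) =
      (∫ z in a..a', ∫ w in b..b', F z w) + ∫ z in a..a', ∫ w in b..b', G z w := by
  rw [← intervalIntegral.integral_add (int_z hF ha haa hb hbb) (int_z hG ha haa hb hbb)]
  refine intervalIntegral.integral_congr fun z hz => ?_
  rw [Set.uIcc_of_le haa] at hz
  exact intervalIntegral.integral_add (int_w hF (ha.trans_le hz.1) hb hbb)
    (int_w hG (ha.trans_le hz.1) hb hbb)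

lemma cq_kp (c e₁ e₂ e₃ : ℝ) : CQ fun z w => kp (c * (e₁ * z + e₂ * w + e₃)) :=
  (continuous_kp.comp (by fun_prop)).continuousOn

lemma ends_box {P Q : ℕ} (hP : 1 ≤ P) (hQ : 1 ≤ Q) :
    0 < (P : ℝ) / Q / 6 ∧ (P : ℝ) / Q / 6 ≤ 6 * (P / Q) := by
  have : 0 < (P : ℝ) / Q := by positivity
  constructor <;> linarith

section BX

variable {N M₁ M₂ M₃ : ℕ} {e₁ e₂ e₃ : ℝ}

lemma BX_mono (h1 : 1 ≤ M₁) (h2 : 1 ≤ M₂) (h3 : 1 ≤ M₃) {F G : ℝ → ℝ → ℝ} (hF : CQ F) (hG : CQ G)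
    (h : ∀ z w, 0 < z → 0 < w → F z w ≤ G z w) :
    BX N M₁ M₂ M₃ e₁ e₂ e₃ F ≤ BX N M₁ M₂ M₃ e₁ e₂ e₃ G :=
  box_mono ((cq_kp _ _ _ _).mul hF) ((cq_kp _ _ _ _).mul hG) (ends_box h1 h3).1 (ends_box h1 h3).2
    (ends_box h2 h3).1 (ends_box h2 h3).2 fun z hz w hw => mul_le_mul_of_nonneg_left
      (h z w ((ends_box h1 h3).1.trans_le hz.1) ((ends_box h2 h3).1.trans_le hw.1)) (kp_pos _).le

lemma BX_add (h1 : 1 ≤ M₁) (h2 : 1 ≤ M₂) (h3 : 1 ≤ M₃) {F G : ℝ → ℝ → ℝ} (hF : CQ F)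
    (hG : CQ G) : BX N M₁ M₂ M₃ e₁ e₂ e₃ (fun z w => F z w + G z w) =
      BX N M₁ M₂ M₃ e₁ e₂ e₃ F + BX N M₁ M₂ M₃ e₁ e₂ e₃ G := by
  unfold BX
  simp only [mul_add (kp _)]
  exact box_add ((cq_kp _ _ _ _).mul hF) ((cq_kp _ _ _ _).mul hG) (ends_box h1 h3).1
    (ends_box h1 h3).2 (ends_box h2 h3).1 (ends_box h2 h3).2

lemma BX_const_mul (c : ℝ) (F : ℝ → ℝ → ℝ) :
    BX N M₁ M₂ M₃ e₁ e₂ e₃ (fun z w => c * F z w) = c * BX N M₁ M₂ M₃ e₁ e₂ e₃ F := by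
  unfold BX
  simp only [mul_left_comm _ c, intervalIntegral.integral_const_mul]

lemma BX_nonneg (h1 : 1 ≤ M₁) (h2 : 1 ≤ M₂) (h3 : 1 ≤ M₃) {F : ℝ → ℝ → ℝ}
    (h : ∀ z w, 0 < z → 0 < w → 0 ≤ F z w) : 0 ≤ BX N M₁ M₂ M₃ e₁ e₂ e₃ F :=
  intervalIntegral.integral_nonneg (ends_box h1 h3).2 fun z hz =>
    intervalIntegral.integral_nonneg (ends_box h2 h3).2 fun w hw => mul_nonneg (kp_pos _).le
      (h z w ((ends_box h1 h3).1.trans_le hz.1) ((ends_box h2 h3).1.trans_le hw.1))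

lemma BX_congr (h1 : 1 ≤ M₁) (h2 : 1 ≤ M₂) (h3 : 1 ≤ M₃) {F G : ℝ → ℝ → ℝ}
    (h : ∀ z w, 0 < z → 0 < w → F z w = G z w) :
    BX N M₁ M₂ M₃ e₁ e₂ e₃ F = BX N M₁ M₂ M₃ e₁ e₂ e₃ G := by
  refine intervalIntegral.integral_congr fun z hz => intervalIntegral.integral_congr fun w hw => ?_
  rw [Set.uIcc_of_le (ends_box h1 h3).2] at hz
  rw [Set.uIcc_of_le (ends_box h2 h3).2] at hw
  simp only [h z w ((ends_box h1 h3).1.trans_le hz.1) ((ends_box h2 h3).1.trans_le hw.1)]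

end BX

lemma Bk.one {M₁ M₂ M₃ : ℕ} {S₁ S₂ S₃ : Finset ℕ} {e₁ e₂ e₃ : ℝ}
    (h : Bk M₁ M₂ M₃ S₁ S₂ S₃ e₁ e₂ e₃) : 1 ≤ M₁ ∧ 1 ≤ M₂ ∧ 1 ≤ M₃ := ⟨h.1.1, h.2.1.1, h.2.2.1.1⟩

lemma Dy.pos {M : ℕ} {S : Finset ℕ} (h : Dy M S) {n : ℕ} (hn : n ∈ S) : (0 : ℝ) < n := by
  exact_mod_cast h.one_le n hn

/-- the integrand of `TB` is continuous on the quadrant -/
lemma cq_TB {S₁ S₂ S₃ : Finset ℕ} {M₁ M₂ M₃ : ℕ} (h1 : Dy M₁ S₁) (h2 : Dy M₂ S₂) (h3 : Dy M₃ S₃)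
    {g₁ g₂ g₃ : ℝ → ℝ} (c1 : Per g₁) (c2 : Per g₂) (c3 : Per g₃) :
    CQ fun z w => ∑ n₁ ∈ S₁, ∑ n₂ ∈ S₂, ∑ n₃ ∈ S₃,
      g₁ (w / z * n₁ / n₂) * g₂ (z * n₃ / n₁) * g₃ (w * n₃ / n₂) :=
  cq_sum _ fun _ a => cq_sum _ fun _ b => cq_sum _ fun _ c =>
    ((cq_u c1.1 (Dy.pos h1 a) (Dy.pos h2 b)).mul (cq_z c2.1 (Dy.pos h3 c) (Dy.pos h1 a))).mul
      (cq_w c3.1 (Dy.pos h3 c) (Dy.pos h2 b))

lemma cq_Sq2 {S₁ S₂ S₃ : Finset ℕ} {M₁ M₂ M₃ : ℕ} (h1 : Dy M₁ S₁) (h2 : Dy M₂ S₂) (h3 : Dy M₃ S₃)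
    (L : ℕ) (ν : ℤ → ℝ) (γ : ℕ → ℂ) {χ₁ χ₂ : ℝ → ℝ} (c1 : ContinuousOn χ₁ (Set.Ioi 0))
    (c2 : ContinuousOn χ₂ (Set.Ioi 0)) : CQ (Sq2 L ν S₁ S₂ S₃ γ χ₁ χ₂) :=
  cq_sum _ fun _ a => cq_sum _ fun _ b =>
    ((cq_z' c1 (Dy.pos h1 a)).mul (cq_w' c2 (Dy.pos h2 b))).mul
      ((continuousOn_Inn _ ν h3.one_le γ continuousOn_fst continuousOn_snd (fun _ hp => hp.1)
        (fun _ hp => hp.2) (h1.one_le _ a) (h2.one_le _ b)).norm.pow 2)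

lemma ab_pos {M₁ M₂ M₃ : ℕ} (h1 : 1 ≤ M₁) (h2 : 1 ≤ M₂) (h3 : 1 ≤ M₃) : 0 < ab M₁ M₂ M₃ := by
  unfold ab
  positivity

lemma PB4_nonneg (P Q : ℕ) {Δ : ℝ} (hΔ : 0 ≤ Δ) {g h : ℝ → ℝ} (hg : Per g) (hh : Per h) :
    0 ≤ PB4 P Q Δ g h := by
  have := hg.mo_nonneg
  have := hh.mo_nonneg
  unfold PB4
  positivity

lemma DivB_up {X : ℕ} {Δ Δ' : ℝ} (h : DivB X Δ) (hΔ : Δ ≤ Δ') : DivB X Δ' :=
  ⟨h.1.trans hΔ, fun n hn => (h.2 n hn).trans hΔ⟩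

lemma Dat.up {N L : ℕ} {ν : ℤ → ℝ} {m t Δ Δ' B X : ℝ} (h : Dat N L ν m t Δ B X) (hΔ : Δ ≤ Δ') :
    Dat N L ν m t Δ' B X := by
  obtain ⟨a1, a2, a3, a4, a5, a6, a7, a8, a9, a10, a11, a12, a13⟩ := h
  have m0 : 0 ≤ m := (sq_nonneg t).trans a4
  exact ⟨a1, a2, a3, a4, a5.trans hΔ, a6, a7, a8, a9.trans (by gcongr), a10.trans (by gcongr),
    fun v => (a11 v).trans (by gcongr), a12.trans (by gcongr), a13.trans (by gcongr)⟩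

lemma BBH.up {m t Δ Δ' : ℝ} {R : ℕ} (h : BBH m t Δ R) (hΔ : Δ ≤ Δ') : BBH m t Δ' R := by
  intro M₁ M₂ a b κ σ z₀ z₁ Y₁ Y₂ G I u v a1 a2 a3 a4 a5 a6 a7 a8 a9 a10
  exact (h M₁ M₂ a b κ σ z₀ z₁ Y₁ Y₂ G I u v a1 a2 a3 a4 a5 a6 a7 a8 a9 a10).trans (by gcongr)

lemma GH.up {L : ℕ} {ν : ℤ → ℝ} {m t Δ Δ' X : ℝ} (h : GH L ν m t Δ X) (hΔ : Δ ≤ Δ') :
    GH L ν m t Δ' X := fun S hS => (h S hS).trans (by gcongr)

lemma OscB.up {y Δ Δ' : ℝ} (h : OscB y Δ) (hΔ : Δ ≤ Δ') : OscB y Δ' := fun M hM u hu => by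
  have := kp_pos (u : ℝ)
  exact (h M hM u hu).trans (by gcongr)

lemma JutB.up {y Δ Δ' : ℝ} {L : ℕ} (h : JutB y Δ L) (hΔ : Δ ≤ Δ') : JutB y Δ' L :=
  fun S hS g hg => (h S hS g hg).trans (by gcongr)

end Pool.Agent.MP_2a1f0e_nt.GM4

end

section

set_option autoImplicit false

open Finset

namespace Pool.Agent.MP_2a1f0e_nt.GM4

open GM GM2 GM3

lemma far_BB4 (D : Finset ℤ) (a b : ℤ → ℝ) (w : ℤ → ℤ → ℝ) (W : ℝ) (hW : 0 ≤ W)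
    (h : ∑ r ∈ D, ∑ s ∈ D, w r s ^ 2 ≤ W ^ 2) :
    ∑ r ∈ D, ∑ s ∈ D, a r * b s * w r s ≤ √(∑ r ∈ D, a r ^ 2) * √(∑ r ∈ D, b r ^ 2) * W := by
  have h0 : 0 ≤ ∑ r ∈ D, a r ^ 2 := sum_nonneg fun _ _ => sq_nonneg _
  have h0' : 0 ≤ ∑ r ∈ D, b r ^ 2 := sum_nonneg fun _ _ => sq_nonneg _
  have h1 := sum_mul_sq_le_sq_mul_sq (D ×ˢ D) (fun p => a p.1 * b p.2) (fun p => w p.1 p.2)
  rw [sum_product, sum_product, sum_product] at h1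
  have h2 : ∑ r ∈ D, ∑ s ∈ D, (a r * b s) ^ 2 = (∑ r ∈ D, a r ^ 2) * ∑ r ∈ D, b r ^ 2 := by
    rw [sum_mul_sum]
    exact sum_congr rfl fun r _ => sum_congr rfl fun s _ => by ring
  simp only at h1
  rw [h2] at h1
  refine (le_abs_self _).trans (abs_le_of_sq_le_sq ?_ (by positivity))
  rw [mul_pow, mul_pow, Real.sq_sqrt h0, Real.sq_sqrt h0']
  exact h1.trans (mul_le_mul_of_nonneg_left h (mul_nonneg h0 h0'))

lemma near_BB4 {ι : Type*} (I : Finset ι) (D : Finset ℤ) (a b : ι → ℤ → ℝ) (s t : ℤ → ℝ)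
    (G : ℝ) (hs : ∀ r, 0 ≤ s r) (ht : ∀ r, 0 ≤ t r)
    (h : ∀ r ∈ D, ∑ i ∈ I, a i r ^ 2 ≤ G) (h' : ∀ r ∈ D, ∑ i ∈ I, b i r ^ 2 ≤ G) :
    ∑ i ∈ I, ∑ r ∈ D, ∑ q ∈ D, a i r * b i q * (s r * t q) ≤
      G * ((∑ r ∈ D, s r) * ∑ q ∈ D, t q) := by
  rw [sum_comm, sum_mul_sum, mul_sum]
  refine sum_le_sum fun r hr => ?_
  rw [sum_comm, mul_sum]
  refine sum_le_sum fun q hq => ?_
  rw [← sum_mul]
  refine mul_le_mul_of_nonneg_right ?_ (mul_nonneg (hs r) (ht q))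
  have h3 : ∑ i ∈ I, a i r * b i q ≤ ∑ i ∈ I, (a i r ^ 2 + b i q ^ 2) / 2 :=
    sum_le_sum fun i _ => by nlinarith [sq_nonneg (a i r - b i q)]
  rw [← sum_div, sum_add_distrib] at h3
  linarith [h r hr, h' q hq]

lemma cs_BB4 {ι : Type*} (I : Finset ι) (f g : ι → ℝ) {Y₁ Y₂ : ℝ} (hf : ∀ i, 0 ≤ f i)
    (hg : ∀ i, 0 ≤ g i) (h1 : ∑ i ∈ I, f i ≤ Y₁) (h2 : ∑ i ∈ I, g i ≤ Y₂) :
    ∑ i ∈ I, √(f i) * √(g i) ≤ √Y₁ * √Y₂ := by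
  refine (Real.sum_sqrt_mul_sqrt_le I hf hg).trans ?_
  gcongr

lemma peak_BB4 {c m : ℝ} (R : ℕ) {M : ℕ} (hc : 0 ≤ c) (hM : (M : ℝ) ≤ m) :
    (∀ r : ℤ, 0 ≤ c * (M * kp r)) ∧ ∑ r ∈ Io R, c * (M * kp (r : ℝ)) ≤ c * M * 6 ∧
      ∑ r ∈ Io R, (c * (M * kp (r : ℝ))) ^ 2 ≤ c * m * (c * m * 6) := by
  have hM0 : (0 : ℝ) ≤ M := Nat.cast_nonneg _
  have hm : 0 ≤ m := hM0.trans hM
  have p0 : ∀ r : ℤ, 0 ≤ c * (M * kp r) := fun r => by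
    have := kp_pos r
    positivity
  have p1 : ∑ r ∈ Io R, c * (M * kp (r : ℝ)) ≤ c * M * 6 := by
    rw [← mul_sum, ← mul_sum, mul_assoc]
    exact mul_le_mul_of_nonneg_left (mul_le_mul_of_nonneg_left (sum_kp_KOne _) hM0) hc
  refine ⟨p0, p1, ?_⟩
  have p2 : c * M * 6 ≤ c * m * 6 := by gcongr
  refine le_trans ?_ (mul_le_mul_of_nonneg_left (p1.trans p2) (by positivity))
  rw [mul_sum]
  refine sum_le_sum fun r _ => ?_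
  rw [sq]
  refine mul_le_mul_of_nonneg_right (mul_le_mul_of_nonneg_left ?_ hc) (p0 r)
  exact (mul_le_of_le_one_right hM0 (kp_le_one _)).trans hM

lemma pow_J_BB4 {y lam : ℝ} {X : ℕ} (hy : 1 ≤ y) (hX : 729 * y ^ 30 ≤ X) (hl : 1 ≤ lam) :
    (3 * y ^ 5) ^ 2 ≤ 2 ^ (Nat.log 2 X + 1) * lam := by
  have h1 : (X : ℝ) < 2 ^ (Nat.log 2 X + 1) := by
    exact_mod_cast Nat.lt_pow_succ_log_self (b := 2) (by norm_num) X
  have h2 : y ^ 10 ≤ y ^ 30 := pow_le_pow_right₀ hy (by norm_num)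
  have h3 : 0 ≤ y ^ 10 := by positivity
  have h4 : (3 * y ^ 5) ^ 2 = 9 * y ^ 10 := by ring
  have h5 : (2 : ℝ) ^ (Nat.log 2 X + 1) ≤ 2 ^ (Nat.log 2 X + 1) * lam :=
    le_mul_of_one_le_right (by positivity) hl
  linarith

lemma root_BB4 {y : ℝ} (hy : 1 ≤ y) : ∃ z : ℝ, 1 ≤ z ∧ z ^ 30 = y ^ 5 ∧ z ^ 180 = y ^ 30 := by
  have h : (y ^ (((6 : ℕ) : ℝ)⁻¹)) ^ 6 = y := Real.rpow_inv_natCast_pow (by linarith) (by norm_num)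
  obtain ⟨z, hz, e⟩ : ∃ z : ℝ, 1 ≤ z ∧ z ^ 6 = y :=
    ⟨_, Real.one_le_rpow hy (by positivity), h⟩
  refine ⟨z, hz, ?_, ?_⟩
  · rw [← e]; ring
  · rw [← e]; ring

theorem bb4_stmt (hB : BilStmt) (h2 : GL4Stmt) (hG : Gam4Stmt) (hK : KKStmt) (hN : Near4Stmt)
    (hM : Mid3Stmt) (hF : Far4Stmt) : BB4Stmt := by
  obtain ⟨C2, hC2, h2⟩ := h2
  obtain ⟨CG, hCG, hG⟩ := hG
  obtain ⟨CK, -, hK⟩ := hK
  obtain ⟨Cn, hCn, hN⟩ := hN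
  obtain ⟨CM, hCM, hM⟩ := hM
  obtain ⟨CF, hCF, hF⟩ := hF
  have hCn0 : 0 < Cn := by linarith
  obtain ⟨E, hE0, hE⟩ : ∃ E : ℝ, 0 ≤ E ∧ E ^ 2 = CG * (12 * CM + CF) :=
    ⟨_, Real.sqrt_nonneg _, Real.sq_sqrt (by positivity)⟩
  have hA0 : 0 ≤ 4 * Cn * C2 + E * Cn := by positivity
  have hB0 : 0 ≤ (CG + 1) * (36 * Cn ^ 2) := by positivity
  refine ⟨4 * Cn * C2 + E * Cn + (CG + 1) * (36 * Cn ^ 2), ?_, ?_⟩
  · have h1 : 1 ≤ Cn ^ 2 := one_le_pow₀ hCn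
    have h3 : 1 * 1 ≤ (CG + 1) * (36 * Cn ^ 2) := by gcongr <;> linarith
    linarith
  intro y Δ R X hy hR hX hD hO M₁ M₂ a b κ σ z₀ z₁ Y₁ Y₂ G I u v hM₁ hM₁' hM₂ hM₂' hL hG0 hY₁ hY₂
    hGu hGv
  have hΔ : 1 ≤ Δ := hD.1
  have hΔ0 : 0 < Δ := by linarith
  have hy0 : 0 < y := by linarith
  have hab : 0 < a * b := mul_pos hL.1 hL.2.2.1
  obtain ⟨s, hs⟩ : ∃ s : ℝ, s = √(a * b) := ⟨_, rfl⟩
  have hs0 : 0 < s := hs ▸ Real.sqrt_pos.2 hab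
  have hs2 : a * b = s ^ 2 := by rw [hs, Real.sq_sqrt hab.le]
  obtain ⟨z, hz, hz30, hz180⟩ := root_BB4 hy
  have hy8 : 1 ≤ y ^ 8 := one_le_pow₀ hy
  have hlam : y ^ 8 ≤ Cn * Δ ^ 2 * y ^ 8 :=
    le_mul_of_one_le_left (by positivity) (one_le_mul_of_one_le_of_one_le hCn (one_le_pow₀ hΔ))
  have hJ : ((Nat.log 2 X + 1 : ℕ) : ℝ) + 1 ≤ 2 * Δ ^ 7 := by
    have := DivB_log hD le_rfl
    have : Δ ≤ Δ ^ 7 := le_self_pow₀ hΔ (by norm_num)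
    push_cast
    linarith
  have hS := pow_J_BB4 hy hX (hy8.trans hlam)
  have hG' : ∀ r q : ℝ, ‖Gam κ σ z₀ z₁ r q‖ ^ 2 * (1 + |r| + |q|) ≤ CG * s ^ 2 := fun r q => by
    rw [← hs2]
    exact hG a b κ σ z₀ z₁ hL r q
  have hgam : ∀ r q : ℝ, ‖Gam κ σ z₀ z₁ r q‖ ≤ (CG + 1) * s := fun r q => by
    have h3 : ‖Gam κ σ z₀ z₁ r q‖ ^ 2 ≤ ‖Gam κ σ z₀ z₁ r q‖ ^ 2 * (1 + |r| + |q|) :=
      le_mul_of_one_le_right (sq_nonneg _) (by linarith [abs_nonneg r, abs_nonneg q])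
    refine (le_abs_self _).trans (abs_le_of_sq_le_sq (h3.trans ((hG' r q).trans ?_))
      (by positivity))
    rw [mul_pow]
    refine mul_le_mul_of_nonneg_right ?_ (sq_nonneg _)
    nlinarith
  obtain ⟨p0, p1, p2⟩ := peak_BB4 (c := Cn * Δ) R (by positivity) hM₁'
  obtain ⟨q0, q1, q2⟩ := peak_BB4 (c := Cn * Δ) R (by positivity) hM₂'
  have hW : ∑ r ∈ Io R, ∑ q ∈ Io R,
      (if Cn * Δ ^ 2 * y ^ 8 < ‖KK M₁ (-(r : ℝ))‖ * ‖KK M₂ q‖ ∧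
        ¬(‖KK M₁ (-(r : ℝ))‖ ≤ Cn * Δ * (M₁ * kp r) ∧ ‖KK M₂ q‖ ≤ Cn * Δ * (M₂ * kp q)) then
        ‖KK M₁ (-(r : ℝ))‖ * ‖KK M₂ q‖ * ‖Gam κ σ z₀ z₁ r q‖ else 0) ^ 2 ≤
      (E * Cn * s * (Δ ^ 9 * y ^ 8)) ^ 2 := by
    have h1 := hF y (Cn * Δ ^ 2 * y ^ 8) Δ M₁ M₂ R X hy hM₁ hM₁' hM₂ hM₂' hR hX hD hlam
    have m2 := (hM z Δ M₂ R X hz hM₂ (hz30 ▸ hM₂') (hz180 ▸ hR) (hz180 ▸ hX) hD).1
    have m1 := (hM z Δ M₁ R X hz hM₁ (hz30 ▸ hM₁') (hz180 ▸ hR) (hz180 ▸ hX) hD).2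
    rw [hz30] at m1 m2
    have h3 := mul_le_mul p2 m2
      (sum_nonneg fun _ _ => by split_ifs <;> positivity) (by positivity)
    have h4 := mul_le_mul m1 q2 (sum_nonneg fun _ _ => sq_nonneg _) (by positivity)
    rw [sum_mul_sum] at h3 h4
    have h5 := mul_le_mul_of_nonneg_left (add_le_add (add_le_add h3 h4) h1)
      (show 0 ≤ CG * s ^ 2 by positivity)
    rw [← sum_add_distrib, ← sum_add_distrib, mul_sum] at h5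
    refine le_trans (sum_le_sum fun r _ => ?_) (h5.trans ?_)
    · rw [← sum_add_distrib, ← sum_add_distrib, mul_sum]
      refine sum_le_sum fun q _ => wsq_BB3 (norm_nonneg _) (norm_nonneg _) (abs_nonneg _)
        (abs_nonneg _) (hG' r q) fun h => ?_
      have e1 : Pk (Cn * Δ) M₁ (-(r : ℝ)) → ‖KK M₁ (-(r : ℝ))‖ ≤ Cn * Δ * (M₁ * kp r) :=
        fun h' => by
          rw [← kp_neg r]
          exact h'
      exact (hN y Δ hy hΔ hO M₁ M₂ hM₁ hM₁' hM₂ hM₂' r q h).imp (And.imp_left e1)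
        (Or.imp_left (And.imp_left e1))
    · have h6 : Δ ^ 17 ≤ Δ ^ 18 := pow_le_pow_right₀ hΔ (by norm_num)
      have h7 : Δ ^ 9 ≤ Δ ^ 18 := pow_le_pow_right₀ hΔ (by norm_num)
      have h8 : y ^ 15 ≤ y ^ 16 := pow_le_pow_right₀ hy (by norm_num)
      calc _ = CG * s ^ 2 * Cn ^ 2 * (12 * CM * (Δ ^ 9 * y ^ 15) + CF * (Δ ^ 17 * y ^ 16)) := by
            ring
        _ ≤ CG * s ^ 2 * Cn ^ 2 * (12 * CM * (Δ ^ 18 * y ^ 16) + CF * (Δ ^ 18 * y ^ 16)) := by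
            gcongr
        _ = E ^ 2 * (Cn * s * (Δ ^ 9 * y ^ 8)) ^ 2 := by rw [hE]; ring
        _ = _ := by ring
  have key : ∀ i ∈ I, ‖Bf2 R M₁ M₂ κ σ z₀ z₁ (u i) (v i)‖ ≤
      (4 * Cn * C2 + E * Cn) * (Δ ^ 9 * s * y ^ 8) *
        (√(N2 (Io R) (u i)) * √(N2 (Io R) (v i))) +
      (CG + 1) * s * ∑ r ∈ Io R, ∑ q ∈ Io R, ‖u i r‖ * ‖v i q‖ *
        (Cn * Δ * (M₁ * kp (r : ℝ)) * (Cn * Δ * (M₂ * kp (q : ℝ)))) := by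
    intro i _
    have h1 := hB (Io R) (u i) (fun ρ => (starRingEnd ℂ) (v i ρ)) (fun ρ => KK M₁ (-(ρ : ℝ)))
      (fun ρ => KK M₂ ρ) (fun ρ₁ ρ₂ => Gam κ σ z₀ z₁ ρ₁ ρ₂) (C2 * s) (Cn * Δ ^ 2 * y ^ 8)
      (3 * y ^ 5) (Nat.log 2 X + 1) (by positivity) (by positivity) (by positivity)
      (hs ▸ h2 a b κ σ z₀ z₁ hL (Io R))
      (fun ρ _ => (hK M₁ hM₁ _).2.trans (by linarith))
      (fun ρ _ => (hK M₂ hM₂ _).2.trans (by linarith)) hS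
    rw [N2_conj_BB, mul_assoc _ (√(N2 (Io R) (u i)))] at h1
    simp only [Complex.norm_conj] at h1
    have h3 := far_BB4 (Io R) (fun r => ‖u i r‖) (fun r => ‖v i r‖) _ _ (by positivity) hW
    have h4 := sum_le_sum (s := Io R) fun r _ => sum_le_sum (s := Io R) fun q _ =>
      split_BB3 (lam := Cn * Δ ^ 2 * y ^ 8) (s := ‖KK M₁ (-(r : ℝ))‖) (norm_nonneg (u i r))
        (norm_nonneg (v i q))
        (norm_nonneg (KK M₂ q)) (p0 r) (q0 q) (norm_nonneg _)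
        (hgam r q)
    simp only [sum_add_distrib, ← mul_sum _ _ ((CG + 1) * s)] at h4
    change _ ≤ √(N2 (Io R) (u i)) * √(N2 (Io R) (v i)) * _ at h3
    have hn : 0 ≤ √(N2 (Io R) (u i)) * √(N2 (Io R) (v i)) := by positivity
    generalize √(N2 (Io R) (u i)) * √(N2 (Io R) (v i)) = n at h1 h3 hn ⊢
    have h5 : 2 * (Cn * Δ ^ 2 * y ^ 8) * (((Nat.log 2 X + 1 : ℕ) : ℝ) + 1) * (C2 * s) * n ≤
        2 * (Cn * Δ ^ 2 * y ^ 8) * (2 * Δ ^ 7) * (C2 * s) * n := by gcongr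
    have h7 : ‖Bf2 R M₁ M₂ κ σ z₀ z₁ (u i) (v i)‖ ≤ _ := h1
    linarith
  have hnear := near_BB4 I (Io R) (fun i r => ‖u i r‖) (fun i r => ‖v i r‖) _ _ G p0 q0 hGu hGv
  have h9 := hnear.trans (mul_le_mul_of_nonneg_left
    (mul_le_mul p1 q1 (sum_nonneg fun r _ => q0 r) (by positivity)) hG0)
  have hY := cs_BB4 I (fun i => N2 (Io R) (u i)) (fun i => N2 (Io R) (v i))
    (fun _ => N2_nonneg _ _) (fun _ => N2_nonneg _ _) hY₁ hY₂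
  refine (sum_le_sum key).trans ?_
  rw [sum_add_distrib, ← mul_sum, ← mul_sum]
  have h10 := mul_le_mul_of_nonneg_left h9 (show 0 ≤ (CG + 1) * s by positivity)
  have h11 := mul_le_mul_of_nonneg_left hY
    (show 0 ≤ (4 * Cn * C2 + E * Cn) * (Δ ^ 9 * s * y ^ 8) by positivity)
  refine (add_le_add h11 h10).trans ?_
  have e8 : (y ^ 5) ^ 2 / y ^ 2 = y ^ 8 := by field_simp
  rw [e8, ← hs]
  have hY0 : 0 ≤ √Y₁ * √Y₂ := by positivity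
  generalize √Y₁ * √Y₂ = Y at hY0 ⊢
  have h29 : Δ ^ 2 ≤ Δ ^ 9 := pow_le_pow_right₀ hΔ (by norm_num)
  have h12 : 0 ≤ (4 * Cn * C2 + E * Cn) * (Δ ^ 9 * s * (M₁ * M₂ * G)) := by positivity
  have h13 : 0 ≤ (CG + 1) * (36 * Cn ^ 2) * (Δ ^ 9 * s * (y ^ 8 * Y)) := by positivity
  have h14 : (CG + 1) * (36 * Cn ^ 2) * (Δ ^ 2 * s * (M₁ * M₂ * G)) ≤
      (CG + 1) * (36 * Cn ^ 2) * (Δ ^ 9 * s * (M₁ * M₂ * G)) := by gcongr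
  linarith

end Pool.Agent.MP_2a1f0e_nt.GM4

end

section

set_option autoImplicit false

open Finset

namespace Pool.Agent.MP_2a1f0e_nt.GM4

open GM GM2 GM3

lemma root_BFive {N T M : ℕ} (hT : N ^ 6 < T ^ 5) (h : 8 * T ≤ N * M) :
    2 * T ≤ M ^ 6 := by
  by_contra hc
  have h1 : (8 * T) ^ 6 ≤ (N * M) ^ 6 := Nat.pow_le_pow_left h 6
  have h2 : N ^ 6 * M ^ 6 < T ^ 5 * (2 * T) :=
    Nat.mul_lt_mul'' hT (not_le.1 hc)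
  rw [mul_pow, mul_pow] at h1
  have h3 : T ^ 5 * (2 * T) = 2 * T ^ 6 := by ring
  omega

lemma core_BFive (hS : SetupStmt) (hH : HuxStmt) (hC : CubStmt) (hQ : Q6Stmt) (hP : PtStmt)
    (hW : PtWStmt) (h4 : Set4Stmt) (hN : Num4Stmt) {δ : ℝ} (hδ : 0 < δ) (hδ1 : δ ≤ 1 / 4) :
    ∃ K : ℝ, 0 < K ∧ ∀ N T : ℕ, 1 ≤ N →
    N ≤ T → T ^ 21 ≤ N ^ 26 → N ^ 6 < T ^ 5 → ∀ b : ℕ → ℂ, (∀ n, ‖b n‖ ≤ 1) → ∀ V : ℝ, 0 < V →
    Mass N b (Icc 0 (T : ℤ)) V ≤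
      K * (N : ℝ) ^ (40 * δ) * ((N : ℝ) ^ 2 + √T * (N : ℝ) ^ 3 / V ^ 2) := by
  obtain ⟨C0, c0, hS⟩ := hS _ hδ
  obtain ⟨CD, cd, hD⟩ := h4 δ C0 hδ hδ1 c0
  obtain ⟨CP, cp, hP⟩ := hP
  obtain ⟨CW, cw, hW⟩ := hW
  obtain ⟨C1, c1, cp1, cw1⟩ : ∃ C1 : ℝ, 0 < C1 ∧ CP ≤ C1 ∧ CW ≤ C1 :=
    ⟨CP + CW, by positivity, by linarith, by linarith⟩
  obtain ⟨CQ, cq, hQ⟩ := hQ
  have c0' : 0 < C0 := by linarith
  obtain ⟨C, a0, a1, a2, a3, a4⟩ : ∃ C : ℝ, C0 ≤ C ∧ C1 + 8 * C0 ≤ C ∧ 32 * CQ ≤ C ∧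
      32 * C0 ^ 2 ≤ C ∧ CD ≤ C := by
    have := sq_nonneg C0
    exact ⟨32 * (CQ + C0 ^ 2) + C1 + 8 * C0 + CD, by linarith, by linarith, by linarith,
      by linarith, by linarith⟩
  obtain ⟨K0, k0, hN⟩ := hN _ C hδ (c0.trans a0)
  refine ⟨8 * C0 + 2 * (K0 + 4 * C0), by positivity, fun N T hN1 hNT hT hT' b hb V hV => ?_⟩
  have hT2 : T ≤ N ^ 2 := by
    by_contra h
    have h1 : (N ^ 2) ^ 21 < T ^ 21 := Nat.pow_lt_pow_left (not_le.1 h) (by norm_num)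
    have h2 : N ^ 26 ≤ (N ^ 2) ^ 21 := by
      rw [← pow_mul]
      exact Nat.pow_le_pow_right hN1 (by norm_num)
    omega
  obtain ⟨M, -, m1, m2, -, -, m5, m6⟩ := hS N T hN1 hNT hT2
  have m7 := m6 b hb
  have hM : 1 ≤ M := by
    rcases Nat.eq_zero_or_pos M with rfl | h
    · omega
    · exact h
  have n1 : (1 : ℝ) ≤ N := by exact_mod_cast hN1
  have n0 : (0 : ℝ) < N := by linarith
  have t1 : (1 : ℝ) ≤ T := by exact_mod_cast hN1.trans hNT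
  have t0 : (0 : ℝ) < T := by linarith
  have p1 : 1 ≤ (N : ℝ) ^ δ := Real.one_le_rpow n1 hδ.le
  have p2 : (N : ℝ) ^ δ ≤ (N : ℝ) ^ (40 * δ) := Real.rpow_le_rpow_of_exponent_le n1 (by linarith)
  obtain ⟨x, g1, g2⟩ : ∃ x : ℝ, 1 ≤ x ∧ x ^ 5 = M :=
    ⟨(M : ℝ) ^ (((5 : ℕ) : ℝ)⁻¹), Real.one_le_rpow (by exact_mod_cast hM) (by positivity),
      Real.rpow_inv_natCast_pow (Nat.cast_nonneg _) (by norm_num)⟩
  have g0 : 0 < x := by linarith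
  have g3 : x ^ 30 = (M : ℝ) ^ 6 := by rw [← g2, ← pow_mul]
  have g4 : ((2 * T : ℕ) : ℝ) ≤ x ^ 30 := by
    rw [g3]
    exact_mod_cast root_BFive hT' m1
  obtain ⟨m3, m8, m9, m10⟩ := hD N T M x hN1 hNT hT g1 g2 m2 g4
  have g5 : 729 * x ^ 30 ≤ ((N * (2 * M) + 729 * M ^ 6 : ℕ) : ℝ) := by
    rw [g3]
    push_cast
    exact le_add_of_nonneg_left (by positivity)
  have eI : Io (2 * T) = Ioo (-(2 * T : ℤ)) (2 * T) := by simp [Io]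
  have hQ' := fun B X ν => hQ N M (2 * T) _ _ B X x ν hN1 (by omega) g1 g2 g4
    (Nat.le_add_right _ _) g5 m3 m8 m9 m10
  rw [eI] at hQ'
  have m4 := m3.1
  clear m3 m8 m9 m10 hD hQ
  have hP' := fun v hv => hP N M (2 * T) hN1 (by omega) (by omega) b hb 0 v hv
  have hW' := fun v hv => hW N (2 * T) hN1 (by omega) b hb v hv
  simp only [Nat.cast_mul, Nat.cast_ofNat, zero_add] at hP' hW'
  have hN' := fun B X => hN N T M (CD * (N : ℝ) ^ δ) B X x hN1 hNT hT g1 g2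
  clear hN hS hP hW
  generalize (N : ℝ) ^ δ = P at *
  generalize (N : ℝ) ^ (40 * δ) = R at *
  have s0 : 0 < √(T : ℝ) := Real.sqrt_pos.2 t0
  have u0 : 0 < √(T : ℝ) * N := by positivity
  have v0 : 0 < √(√(T : ℝ) * N) := Real.sqrt_pos.2 u0
  have v2 : √(√(T : ℝ) * N) ^ 2 = √(T : ℝ) * N := Real.sq_sqrt u0.le
  have v4 : √(√(T : ℝ) * N) ^ 4 = T * (N : ℝ) ^ 2 := by
    rw [show (4 : ℕ) = 2 * 2 from rfl, pow_mul, v2, mul_pow, Real.sq_sqrt t0.le]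
  generalize √(√(T : ℝ) * N) = V1 at v0 v2 v4
  have hY := hH N M b _ _ _ V1 hN1 hb (by positivity) (by positivity) v0 m5 m7
  have hY' : Mass N b (Ioo (-(2 * T : ℤ)) (2 * T)) V1 ≤ 8 * C0 * P * (N : ℝ) ^ 2 := by
    rw [v4, mul_div_assoc, mul_div_assoc, div_self (by positivity)] at hY
    linarith [mul_nonneg (mul_nonneg c0'.le (sq_nonneg (N : ℝ))) (sub_nonneg.2 p1)]
  have o0 : ∀ t ∈ Ioo (-(2 * T : ℤ)) (2 * T), 0 ≤ (2 * (T : ℝ) - |(t : ℝ)|) / (2 * T) := by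
    intro t ht
    rw [mem_Ioo] at ht
    have h1 : |t| ≤ 2 * T := abs_le.2 ⟨ht.1.le, ht.2.le⟩
    have h2 : |(t : ℝ)| ≤ 2 * T := by exact_mod_cast h1
    exact div_nonneg (sub_nonneg.2 h2) (by positivity)
  have o1 : ∀ t ∈ Ioo (-(2 * T : ℤ)) (2 * T), (2 * (T : ℝ) - |(t : ℝ)|) / (2 * T) ≤ 1 := by
    intro t _
    rw [div_le_one (by positivity)]
    linarith [abs_nonneg (t : ℝ)]
  have o2 : ∀ t ∈ Icc 0 (T : ℤ), 1 / 2 ≤ (2 * (T : ℝ) - |(t : ℝ)|) / (2 * T) := by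
    intro t ht
    rw [mem_Icc] at ht
    have h1 : |t| ≤ T := abs_le.2 ⟨by omega, ht.2⟩
    have h2 : |(t : ℝ)| ≤ T := by exact_mod_cast h1
    rw [le_div_iff₀ (by positivity)]
    linarith
  have hsub : Icc 0 (T : ℤ) ⊆ Ioo (-(2 * T : ℤ)) (2 * T) := by
    intro t ht
    rw [mem_Icc] at ht
    rw [mem_Ioo]
    omega
  have e1 := split_BOne hsub (fun t => ‖DP N b t‖)
    (fun t => (2 * (T : ℝ) - |(t : ℝ)|) / (2 * T)) V1 hV o0 o2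
  have e2 := fun v => ft_BOne _ (fun t => ‖DP N b t‖)
    (fun t => (2 * (T : ℝ) - |(t : ℝ)|) / (2 * T)) V1 v o0 o1
  set ν : ℤ → ℝ := fun t => if ‖DP N b t‖ < V1 then
    (2 * (T : ℝ) - |(t : ℝ)|) / (2 * T) * ‖DP N b t‖ ^ 2 else 0 with hν
  have hν' : ∀ t ∈ Ioo (-(2 * T : ℤ)) (2 * T),
      0 ≤ ν t ∧ ν t ≤ √(T : ℝ) * N ∧ ν t ≤ ‖DP N b t‖ ^ 2 := by
    intro t ht
    simp only [hν]
    split_ifs with h
    · have h1 := mul_le_of_le_one_left (sq_nonneg ‖DP N b t‖) (o1 t ht)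
      refine ⟨mul_nonneg (o0 t ht) (sq_nonneg _), h1.trans ?_, h1⟩
      rw [← v2]
      exact pow_le_pow_left₀ (norm_nonneg _) h.le 2
    · exact ⟨le_rfl, u0.le, sq_nonneg _⟩
  obtain ⟨X, hX⟩ : ∃ X, X = ∑ t ∈ Ioo (-(2 * T : ℤ)) (2 * T), ν t * ‖DP N b t‖ ^ 2 := ⟨_, rfl⟩
  have x0 : 0 ≤ X := hX ▸ sum_nonneg fun t ht => mul_nonneg (hν' t ht).1 (sq_nonneg _)
  have x1 : X ≤ (K0 + 4 * C0) * R * (√(T : ℝ) * (N : ℝ) ^ 3) := by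
    have w0 : 0 < √(T : ℝ) * (N : ℝ) ^ 3 := by positivity
    have r1 : 1 ≤ R := p1.trans p2
    by_cases h : 4 * (N : ℝ) * (C0 * N) * (√(T : ℝ) * N) ≤ X
    · have q1 := hC N M b _ _ _ _ X ν hN1 hb (by positivity) (by positivity) m5 m7 hν' hX h
      have b0 : 0 ≤ (C1 + 8 * C0) * P * (N : ℝ) ^ 2 := by positivity
      have q3 := hN' _ X (m2.trans (by gcongr)) m4 (by gcongr) b0 (by gcongr) x0 (by
        rw [or_iff_not_imp_left, or_iff_not_imp_left, not_le, not_le]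
        intro hx hx'
        have q2 := hQ' _ X ν b0 (lt_trans (by positivity) hx) (fun v hv => by
            have h1 := e2 v
            have h3 := rho_nonneg N M v
            have h2 := (hP' v hv).trans (mul_le_mul_of_nonneg_right
              (mul_le_mul_of_nonneg_right cp1 (sq_nonneg (N : ℝ))) (by positivity))
            have h4 : 0 ≤ C1 * (N : ℝ) ^ 2 * (1 + rho N M v) * (P - 1) :=
              mul_nonneg (by positivity) (sub_nonneg.2 p1)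
            have h5 : 0 ≤ 8 * C0 * P * (N : ℝ) ^ 2 * rho N M v := by positivity
            unfold Mass at hY'
            linarith) (fun v hv => by
            have h1 := e2 v
            have h2 := (hW' v hv).trans (mul_le_mul_of_nonneg_right cw1 (sq_nonneg (N : ℝ)))
            have h4 : 0 ≤ C1 * (N : ℝ) ^ 2 * (P - 1) :=
              mul_nonneg (by positivity) (sub_nonneg.2 p1)
            unfold Mass at hY'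
            linarith)
          (le_of_le_of_eq (sum_le_sum fun t ht => (sq (ν t)).trans_le
            (mul_le_mul_of_nonneg_left (hν' t ht).2.2 (hν' t ht).1)) hX.symm) (fun t ht => by
            rw [abs_of_nonneg (hν' t ht).1]
            refine (hν' t ht).2.1.trans ?_
            rw [le_div_iff₀ (by positivity)]
            refine Real.le_sqrt_of_sq_le (le_trans (le_of_eq ?_) hx.le)
            rw [mul_pow, mul_pow, Real.sq_sqrt t0.le]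
            ring) hx'.le
        refine q1.trans ?_
        have d0 := zero_le_one.trans m4
        have w1 : 0 ≤ (CD * P) ^ 54 *
            (x ^ 9 * (X * √X) + x ^ 5 * ((C1 + 8 * C0) * P * (N : ℝ) ^ 2) * X) := by positivity
        generalize (CD * P) ^ 54 *
          (x ^ 9 * (X * √X) + x ^ 5 * ((C1 + 8 * C0) * P * (N : ℝ) ^ 2) * X) = W at q2 w1 ⊢
        have w2 : 0 ≤ P * (T * (N : ℝ) ^ 3) * X := by positivity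
        have w3 : 32 * (‖Q3 N M (Ioo (-(2 * T : ℤ)) (2 * T)) ν‖ +
            C0 * N * X * (C0 * P * (T * (N : ℝ) ^ 2))) ≤
            C * ((N : ℝ) ^ 2 * W + P * (T * (N : ℝ) ^ 3) * X) := by
          have y1 := mul_le_mul_of_nonneg_right a2 (mul_nonneg (sq_nonneg (N : ℝ)) w1)
          have y2 := mul_le_mul_of_nonneg_right a3 w2
          linarith
        have w4 := mul_le_mul_of_nonneg_left w3 (pow_nonneg n0.le 3)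
        linarith)
      have : 0 ≤ 4 * C0 * R * (√(T : ℝ) * (N : ℝ) ^ 3) := by positivity
      linarith
    · have y1 : 0 ≤ K0 * R * (√(T : ℝ) * (N : ℝ) ^ 3) := by positivity
      have y2 : 0 ≤ 4 * C0 * (√(T : ℝ) * (N : ℝ) ^ 3) * (R - 1) :=
        mul_nonneg (by positivity) (sub_nonneg.2 r1)
      linarith [not_le.1 h]
  unfold Mass at hY' ⊢
  refine e1.trans ?_
  simp only [hν] at hX
  rw [← hX]
  have z1 : 2 * X / V ^ 2 ≤ 2 * (K0 + 4 * C0) * R * (√(T : ℝ) * (N : ℝ) ^ 3 / V ^ 2) := by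
    rw [← mul_div_assoc]
    exact div_le_div_of_nonneg_right (by linarith) (by positivity)
  have z2 : 8 * C0 * P * (N : ℝ) ^ 2 ≤ 8 * C0 * R * (N : ℝ) ^ 2 := by gcongr
  have r0 : 0 < R := by linarith
  have z3 : 0 ≤ 8 * C0 * R * (√(T : ℝ) * (N : ℝ) ^ 3 / V ^ 2) := by positivity
  have z4 : 0 ≤ 2 * (K0 + 4 * C0) * R * (N : ℝ) ^ 2 := by positivity
  linarith

theorem b5_stmt (hS : SetupStmt) (hH : HuxStmt) (hC : CubStmt) (hQ : Q6Stmt) (hP : PtStmt)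
    (hW : PtWStmt) (h4 : Set4Stmt) (hN : Num4Stmt) (h1 : B1Stmt) : B5Stmt := by
  intro ε hε
  have hδ : 0 < min ε 10 / 40 := by positivity
  obtain ⟨K1, k1, h1⟩ := h1 ε hε
  obtain ⟨K2, k2, h2⟩ := core_BFive hS hH hC hQ hP hW h4 hN hδ (by linarith [min_le_right ε 10])
  refine ⟨K1 + K2, by positivity, fun N T hN1 hNT hT b hb V hV => ?_⟩
  have n1 : (1 : ℝ) ≤ N := by exact_mod_cast hN1
  rcases le_or_gt (T ^ 5) (N ^ 6) with h | h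
  · refine (h1 N T hN1 hNT h b hb V hV).trans ?_
    gcongr
    linarith
  · refine (h2 N T hN1 hNT hT h b hb V hV).trans ?_
    gcongr
    · linarith
    · linarith [min_le_left ε 10]

end Pool.Agent.MP_2a1f0e_nt.GM4

end

section

set_option autoImplicit false

open Finset

namespace Pool.Agent.MP_2a1f0e_nt.GM4

open GM GM2 GM3

lemma pt_Blk4 {φ A q p r c₁ c₂ C τ s : ℝ} (hp : 0 < p) (hr : 0 < r) (hτ : 0 < τ)
    (hC : 1 ≤ C) (k1 : 0 ≤ c₁) (k2 : 0 ≤ c₂) (h1 : 1 / p ^ 2 ≤ 1 + C * c₁)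
    (h2 : 1 / r ^ 2 ≤ 1 + C * c₂) (hs : q ≤ s) :
    φ * q ≤ (τ * (C * (min φ A ^ 2 * (1 + c₁ + c₂))) + p * r * q ^ 2 / τ) / 2 +
      max (φ - A) 0 * s := by
  have e : φ = min φ A + max (φ - A) 0 := by
    rcases le_total φ A with h | h
    · rw [min_eq_left h, max_eq_right (by linarith), add_zero]
    · rw [min_eq_right h, max_eq_left (by linarith)]
      ring
  have h3 : max (φ - A) 0 * q ≤ max (φ - A) 0 * s :=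
    mul_le_mul_of_nonneg_left hs (le_max_right _ _)
  have h4 : 1 / (p * r) ≤ C * (1 + c₁ + c₂) := by
    have : 1 / (p * r) ≤ (1 / p ^ 2 + 1 / r ^ 2) / 2 := by
      have e1 : 1 / (p * r) = 1 / p * (1 / r) := by field_simp
      have e2 : 1 / p ^ 2 = (1 / p) ^ 2 := by field_simp
      have e3 : 1 / r ^ 2 = (1 / r) ^ 2 := by field_simp
      rw [e1, e2, e3]
      nlinarith [sq_nonneg (1 / p - 1 / r)]
    nlinarith [mul_nonneg (zero_le_one.trans hC) k1, mul_nonneg (zero_le_one.trans hC) k2]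
  generalize min φ A = g at e ⊢
  have h5 : g * q ≤ (τ * (g ^ 2 * (1 / (p * r))) + p * r * q ^ 2 / τ) / 2 := by
    have w : 0 < p * r / τ := by positivity
    have e4 : τ * (g ^ 2 * (1 / (p * r))) = g ^ 2 / (p * r / τ) := by field_simp
    have e5 : p * r * q ^ 2 / τ = p * r / τ * q ^ 2 := by ring
    rw [e4, e5]
    generalize p * r / τ = k at w
    have : 0 ≤ (g - k * q) ^ 2 / k := by positivity
    have e6 : (g - k * q) ^ 2 / k = g ^ 2 / k - 2 * (g * q) + k * q ^ 2 := by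
      field_simp
      ring
    linarith
  have h6 : τ * (g ^ 2 * (1 / (p * r))) ≤ τ * (C * (g ^ 2 * (1 + c₁ + c₂))) := by
    rw [mul_left_comm C]
    gcongr
  calc φ * q = g * q + max (φ - A) 0 * q := by rw [← add_mul, ← e]
    _ ≤ _ := by linarith

lemma inn_Blk4 (L : ℕ) (ν : ℤ → ℝ) {S : Finset ℕ} {γ : ℕ → ℂ} (hγ : ∀ n ∈ S, ‖γ n‖ ≤ 1)
    (z w : ℝ) (n₁ n₂ : ℕ) : ‖Inn (Io L) ν S γ z w n₁ n₂‖ ≤
      ∑ n ∈ S, ph L ν (z * n / n₁) * ph L ν (w * n / n₂) := by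
  refine (norm_sum_le _ _).trans (sum_le_sum fun n hn => ?_)
  rw [norm_mul, norm_mul, ← ph_inv L ν (w * n / n₂), inv_div]
  exact mul_le_mul_of_nonneg_right (mul_le_of_le_one_left (norm_nonneg _) (hγ n hn))
    (norm_nonneg _)

lemma num_Blk4 {a b c Δ k N M m t x B : ℝ} (ha : 1 ≤ a) (hb : 0 < b) (hc : 0 < c) (hΔ : 1 ≤ Δ)
    (hk : 0 < k) (hN : 0 < N) (hM : 0 ≤ M) (hm : M ≤ m) (ht : 1 ≤ t) (hx : 0 ≤ x) (hB : 0 ≤ B) :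
    √(a * (b * Δ * k ^ 2 * ((M * x ^ 2 + t * x * B) / N))) *
      √(c * a * Δ ^ 3 * (m ^ 2 / t ^ 2 * (M * (x ^ 2) ^ 2 / N))) ≤
      a * (b + c) * Δ ^ 3 * (k / N * (m ^ 2 / t * (x ^ 2 * x) + m * B * x ^ 2)) := by
  have t0 : 0 < t := by linarith
  have m0 : 0 ≤ m := hM.trans hm
  rw [← Real.sqrt_mul (by positivity)]
  refine Real.sqrt_le_iff.2 ⟨by positivity, ?_⟩
  have h1 : m ^ 2 / t ^ 2 * (x ^ 2) ^ 2 * (M * (M * x ^ 2 + t * x * B)) ≤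
      (m ^ 2 / t * (x ^ 2 * x) + m * B * x ^ 2) ^ 2 := by
    have h2 : m ^ 2 / t ^ 2 * (x ^ 2) ^ 2 * (M * (M * x ^ 2 + t * x * B)) ≤
        m ^ 2 / t ^ 2 * (x ^ 2) ^ 2 * (m * (m * x ^ 2 + t * x * B)) := by gcongr
    have e : m ^ 2 / t ^ 2 * (x ^ 2) ^ 2 * (m * (m * x ^ 2 + t * x * B)) =
        (m ^ 2 / t * (x ^ 2 * x)) ^ 2 + m ^ 2 / t * (x ^ 2 * x) * (m * B * x ^ 2) := by
      field_simp
    have p1 : 0 ≤ m ^ 2 / t * (x ^ 2 * x) := by positivity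
    have p2 : 0 ≤ m * B * x ^ 2 := by positivity
    rw [e] at h2
    generalize m ^ 2 / t * (x ^ 2 * x) = u at *
    generalize m * B * x ^ 2 = v at *
    nlinarith [mul_nonneg p1 p2]
  have h3 : b * c ≤ (b + c) ^ 2 := by nlinarith [mul_pos hb hc]
  have h4 : Δ ^ 4 ≤ Δ ^ 6 := pow_le_pow_right₀ hΔ (by norm_num)
  calc _ = a ^ 2 * (b * c) * Δ ^ 4 * (k / N) ^ 2 *
        (m ^ 2 / t ^ 2 * (x ^ 2) ^ 2 * (M * (M * x ^ 2 + t * x * B))) := by ring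
    _ ≤ a ^ 2 * (b + c) ^ 2 * Δ ^ 6 * (k / N) ^ 2 *
        (m ^ 2 / t * (x ^ 2 * x) + m * B * x ^ 2) ^ 2 := by gcongr
    _ = _ := by ring

lemma cs_Blk4 (hC : CSStmt) (N L : ℕ) {M₁ M₂ M₃ : ℕ} {S₁ S₂ S₃ : Finset ℕ} (h1 : Dy M₁ S₁)
    (h2 : Dy M₂ S₂) (h3 : Dy M₃ S₃) (e₁ e₂ e₃ : ℝ) (ν : ℤ → ℝ) {γ : ℕ → ℂ}
    (hγ : ∀ n ∈ S₃, ‖γ n‖ ≤ 1) {A C H₁ H₂ K₁ K₂ : ℝ} (hA : 0 ≤ A) (hC1 : 1 ≤ C) (k1 : 0 ≤ H₁)
    (k2 : 0 ≤ H₂) {c χ₁ χ₂ : ℝ → ℝ} (pc : Per c) (w1 : Wg L ν S₃ K₁ χ₁) (w2 : Wg L ν S₃ K₂ χ₂)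
    (v1 : ∀ x : ℝ, 0 < x → 1 / χ₁ x ^ 2 ≤ 1 + C * (c x / H₁))
    (v2 : ∀ x : ℝ, 0 < x → 1 / χ₂ x ^ 2 ≤ 1 + C * (c x / H₂)) :
    BX N M₁ M₂ M₃ e₁ e₂ e₃ (Hf (Io L) ν S₁ S₂ S₃ γ) ≤
      √(C * BX N M₁ M₂ M₃ e₁ e₂ e₃ fun z w => ∑ n₁ ∈ S₁, ∑ n₂ ∈ S₂,
        min (ph L ν (w / z * n₁ / n₂)) A ^ 2 * (1 + c (z / n₁) / H₁ + c (w / n₂) / H₂)) *
        √(BX N M₁ M₂ M₃ e₁ e₂ e₃ (Sq2 L ν S₁ S₂ S₃ γ χ₁ χ₂)) +
      TB N M₁ M₂ M₃ S₁ S₂ S₃ e₁ e₂ e₃ (fun v => max (ph L ν v - A) 0) (ph L ν) (ph L ν) := by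
  have g1 : CQ (Hf (Io L) ν S₁ S₂ S₃ γ) :=
    continuousOn_Hf _ ν h1.one_le h2.one_le h3.one_le γ continuousOn_fst continuousOn_snd
      (fun p hp => hp.1) fun p hp => hp.2
  have g2 : CQ fun z w => C * ∑ n₁ ∈ S₁, ∑ n₂ ∈ S₂,
      min (ph L ν (w / z * n₁ / n₂)) A ^ 2 * (1 + c (z / n₁) / H₁ + c (w / n₂) / H₂) :=
    (cq_const C).mul (cq_sum _ fun n₁ b1 => cq_sum _ fun n₂ b2 =>
      (cq_u (g := fun v => min (ph L ν v) A ^ 2) (((per_ph L ν).min hA).pow 2).1 (Dy.pos h1 b1)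
        (Dy.pos h2 b2)).mul (((cq_const 1).add
          (cq_z' (g := fun v => c v / H₁) (pc.1.div_const _) (Dy.pos h1 b1))).add
          (cq_w' (g := fun v => c v / H₂) (pc.1.div_const _) (Dy.pos h2 b2))))
  have g3 := cq_Sq2 h1 h2 h3 L ν γ w1.cont w2.cont
  have g4 := cq_TB h1 h2 h3 ((per_ph L ν).max A) (per_ph L ν) (per_ph L ν)
  rw [← BX_const_mul]
  refine hC N M₁ M₂ M₃ e₁ e₂ e₃ _ _ _ _ h1.1 h2.1 h3.1 g1 g2 g3 g4 fun z w τ hz hw hτ => ?_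
  have p1 : ∀ n ∈ S₁, 0 < z / n := fun n hn => div_pos hz (Dy.pos h1 hn)
  have p2 : ∀ n ∈ S₂, 0 < w / n := fun n hn => div_pos hw (Dy.pos h2 hn)
  have q1 : ∀ x, 0 ≤ c x / H₁ := fun x => div_nonneg (pc.2.1 x) k1
  have q2 : ∀ x, 0 ≤ c x / H₂ := fun x => div_nonneg (pc.2.1 x) k2
  refine ⟨mul_nonneg (by linarith) (sum_nonneg fun n₁ _ => sum_nonneg fun n₂ _ =>
    mul_nonneg (sq_nonneg _) (by linarith [q1 (z / n₁), q2 (w / n₂)])),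
    sum_nonneg fun n₁ b1 => sum_nonneg fun n₂ b2 => mul_nonneg (mul_nonneg
      (w1.2 _ (p1 _ b1)).1.le (w2.2 _ (p2 _ b2)).1.le) (sq_nonneg _), ?_⟩
  simp only [Hf, Sq2, mul_sum, sum_div, ← sum_add_distrib]
  refine sum_le_sum fun n₁ b1 => sum_le_sum fun n₂ b2 => ?_
  simp only [mul_assoc (max _ _), ← mul_sum]
  exact pt_Blk4 (w1.2 _ (p1 _ b1)).1 (w2.2 _ (p2 _ b2)).1 hτ hC1 (q1 _) (q2 _)
    (v1 _ (p1 _ b1)) (v2 _ (p2 _ b2)) (inn_Blk4 L ν hγ z w n₁ n₂)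

theorem blk4_stmt (hR : RedStmt) (hW : WtStmt) (hC : CSStmt) (hJ : J4Stmt) (hI : I4Stmt)
    (hP : ShpStmt) (hV : CvStmt) : Blk4Stmt := by
  obtain ⟨CR, cr, hR⟩ := hR
  obtain ⟨CW, cw, hW⟩ := hW
  obtain ⟨CJ, cj, hJ⟩ := hJ
  obtain ⟨CI, ci, hI⟩ := hI
  obtain ⟨CS, cs, hP⟩ := hP
  obtain ⟨CV, -, hV⟩ := hV
  refine ⟨CR * (CW * (CJ + CI) + CS), by positivity, ?_⟩
  intro N L M₁ M₂ M₃ S₁ S₂ S₃ e₁ e₂ e₃ m t Δ B X ν hk hm hD hd hb hg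
  have j1 := hJ N L M₁ M₂ M₃ S₁ S₂ S₃ e₁ e₂ e₃ m t Δ B X ν hk hm hD hd
  have s1 := hP N L M₁ M₂ M₃ S₁ S₂ S₃ e₁ e₂ e₃ m t Δ B X ν hk hm hD hd
  have i1 := fun γ χ₁ χ₂ => hI N L M₁ M₂ M₃ S₁ S₂ S₃ e₁ e₂ e₃ m t Δ B X CW ν γ χ₁ χ₂ hk hm hD hb hg
  obtain ⟨o1, o2, o3⟩ := hk.one
  obtain ⟨h1, h2, h3, -⟩ := hk
  obtain ⟨d1, d2, d3, -, d5, d6, d7, -⟩ := hD
  have a1 : (0 : ℝ) < M₁ := by exact_mod_cast o1
  have a2 : (0 : ℝ) < M₂ := by exact_mod_cast o2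
  have a3 : (0 : ℝ) < M₃ := by exact_mod_cast o3
  have aN : (0 : ℝ) < N := by exact_mod_cast d1
  have k0 := ab_pos o1 o2 o3
  obtain ⟨χ₁, w1, v1⟩ := hW L ν S₃ ((M₃ : ℝ) ^ 2 * X / M₁) d2 h3.one_le (by positivity)
  obtain ⟨χ₂, w2, v2⟩ := hW L ν S₃ ((M₃ : ℝ) ^ 2 * X / M₂) d2 h3.one_le (by positivity)
  have key := hR N M₁ M₂ M₃ S₁ S₂ S₃ e₁ e₂ e₃ ((CW * (CJ + CI) + CS) * Δ ^ 3 *
    (ab M₁ M₂ M₃ / N * (m ^ 2 / t * (X * √X) + m * B * X))) (Io L) ν h1 h2 h3 fun γ hγ => by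
    have c1 := cs_Blk4 hC N L h1 h2 h3 e₁ e₂ e₃ ν hγ (A := √(ab M₁ M₂ M₃) * (t * √X))
      (by positivity) cw (by positivity) (by positivity) (hV (2 * L) _ (per_hS L ν h3.one_le)).1
      w1 w2 v1 v2
    have n1 := num_Blk4 (x := √X) cw cj ci d5 k0 aN a3.le hm d3 (Real.sqrt_nonneg X) d6
    rw [Real.sq_sqrt d7.le] at n1
    have n2 := mul_le_mul (Real.sqrt_le_sqrt (mul_le_mul_of_nonneg_left j1 (by linarith : 0 ≤ CW)))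
      (Real.sqrt_le_sqrt (i1 γ χ₁ χ₂ hγ cw w1 w2)) (Real.sqrt_nonneg _) (Real.sqrt_nonneg _)
    exact c1.trans ((add_le_add (n2.trans n1) s1).trans_eq (by ring))
  refine key.trans_eq ?_
  unfold ab
  field_simp

end Pool.Agent.MP_2a1f0e_nt.GM4

end

section

set_option autoImplicit false

open Finset

namespace Pool.Agent.MP_2a1f0e_nt.GM4

open GM GM2 GM3

lemma box_sum_Chg {ι : Type*} (s : Finset ι) {F : ι → ℝ → ℝ → ℝ} (h : ∀ i ∈ s, CQ (F i))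
    {a a' b b' : ℝ} (ha : 0 < a) (haa : a ≤ a') (hb : 0 < b) (hbb : b ≤ b') :
    ∫ z in a..a', ∫ w in b..b', ∑ i ∈ s, F i z w =
      ∑ i ∈ s, ∫ z in a..a', ∫ w in b..b', F i z w := by
  rw [← intervalIntegral.integral_finsetSum fun i hi => int_z (h i hi) ha haa hb hbb]
  refine intervalIntegral.integral_congr fun z hz => ?_
  rw [Set.uIcc_of_le haa] at hz
  exact intervalIntegral.integral_finsetSum fun i hi => int_w (h i hi) (ha.trans_le hz.1) hb hbb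

lemma box_sum3_Chg (S₁ S₂ S₃ : Finset ℕ) {F : ℕ → ℕ → ℕ → ℝ → ℝ → ℝ}
    (h : ∀ i ∈ S₁, ∀ j ∈ S₂, ∀ k ∈ S₃, CQ (F i j k))
    {a a' b b' : ℝ} (ha : 0 < a) (haa : a ≤ a') (hb : 0 < b) (hbb : b ≤ b') :
    ∫ z in a..a', ∫ w in b..b', ∑ i ∈ S₁, ∑ j ∈ S₂, ∑ k ∈ S₃, F i j k z w =
      ∑ i ∈ S₁, ∑ j ∈ S₂, ∑ k ∈ S₃, ∫ z in a..a', ∫ w in b..b', F i j k z w := by
  rw [box_sum_Chg S₁ (F := fun i z w => ∑ j ∈ S₂, ∑ k ∈ S₃, F i j k z w)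
    (fun i hi => cq_sum _ fun j hj => cq_sum _ fun k hk => h i hi j hj k hk) ha haa hb hbb]
  refine sum_congr rfl fun i hi => ?_
  rw [box_sum_Chg S₂ (F := fun j z w => ∑ k ∈ S₃, F i j k z w)
    (fun j hj => cq_sum _ fun k hk => h i hi j hj k hk) ha haa hb hbb]
  exact sum_congr rfl fun j hj => box_sum_Chg S₃ (h i hi j hj) ha haa hb hbb

lemma box_sub_Chg {F : ℝ → ℝ → ℝ} (h : CQ F) (h0 : ∀ z w, 0 ≤ F z w) {a a' b b' c c' : ℝ}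
    (hc : 0 < c) (ha : c ≤ a) (haa : a ≤ a') (ha' : a' ≤ c') (hb : c ≤ b) (hbb : b ≤ b')
    (hb' : b' ≤ c') :
    ∫ z in a..a', ∫ w in b..b', F z w ≤ ∫ z in c..c', ∫ w in c..c', F z w := by
  have hcc : c ≤ c' := ha.trans (haa.trans ha')
  refine le_trans (intervalIntegral.integral_mono_on haa
    (int_z h (hc.trans_le ha) haa (hc.trans_le hb) hbb) (int_z h (hc.trans_le ha) haa hc hcc)
    fun z hz => ?_) ?_
  · exact intervalIntegral.integral_mono_interval hb hbb hb'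
      (Filter.Eventually.of_forall fun w => h0 z w)
      (int_w h ((hc.trans_le ha).trans_le hz.1) hc hcc)
  · exact intervalIntegral.integral_mono_interval ha haa ha'
      (Filter.Eventually.of_forall fun z => intervalIntegral.integral_nonneg hcc fun w _ => h0 z w)
      (int_z h hc hcc hc hcc)

lemma box_scale_Chg (K : ℝ → ℝ → ℝ) {p q : ℝ} (hp : p ≠ 0) (hq : q ≠ 0) (a a' b b' : ℝ) :
    ∫ z in a..a', ∫ w in b..b', K (z / p) (w / q) =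
      p * q * ∫ v in (a / p)..(a' / p), ∫ u in (b / q)..(b' / q), K v u := by
  have h1 : ∀ z, ∫ w in b..b', K (z / p) (w / q) = q * ∫ u in (b / q)..(b' / q), K (z / p) u :=
    fun z => intervalIntegral.integral_comp_div (K (z / p)) hq
  simp only [h1]
  rw [intervalIntegral.integral_const_mul,
    intervalIntegral.integral_comp_div (fun v => ∫ u in (b / q)..(b' / q), K v u) hp, smul_eq_mul]
  ring

lemma cq_g_Chg {g₁ g₂ g₃ : ℝ → ℝ} (c1 : Per g₁) (c2 : Per g₂) (c3 : Per g₃) :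
    CQ fun v w => g₁ (w / v) * g₂ v * g₃ w := by
  have := ((cq_u c1.1 one_pos one_pos).mul (cq_z c2.1 one_pos one_pos)).mul
    (cq_w c3.1 one_pos one_pos)
  simpa only [mul_one, div_one] using this

lemma range_Chg {M P n k : ℝ} (hM : 0 < M) (hP : 0 < P) (h1 : M ≤ n) (h2 : n ≤ 2 * M) (h3 : P ≤ k)
    (h4 : k ≤ 2 * P) : 1 / 12 ≤ M / P / 6 / (n / k) ∧
      M / P / 6 / (n / k) ≤ 6 * (M / P) / (n / k) ∧ 6 * (M / P) / (n / k) ≤ 12 ∧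
      n / k ≤ 2 * (M / P) := by
  have hn : 0 < n := hM.trans_le h1
  have hk : 0 < k := hP.trans_le h3
  have e1 : n / k ≤ 2 * (M / P) := by
    rw [← mul_div_assoc]
    gcongr
  have e2 : M / P ≤ 2 * (n / k) := by
    rw [← mul_div_assoc, div_le_div_iff₀ hP hk]
    nlinarith
  have e3 : 0 < M / P := by positivity
  have e4 : 0 < n / k := by positivity
  refine ⟨?_, ?_, ?_, e1⟩
  · rw [le_div_iff₀ e4]
    linarith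
  · gcongr
    linarith
  · rw [div_le_iff₀ e4]
    linarith

lemma dy_Chg {M : ℕ} {S : Finset ℕ} (h : Dy M S) {n : ℕ} (hn : n ∈ S) :
    (M : ℝ) ≤ n ∧ (n : ℝ) ≤ 2 * M := by
  have := mem_Ico.1 (h.2 hn)
  exact ⟨by exact_mod_cast this.1, by exact_mod_cast this.2.le⟩

lemma term_Chg (N : ℕ) {M₁ M₂ M₃ n₁ n₂ n₃ : ℝ} (e₁ e₂ e₃ : ℝ) {g₁ g₂ g₃ : ℝ → ℝ} (c1 : Per g₁)
    (c2 : Per g₂) (c3 : Per g₃) (p1 : 0 < M₁) (p2 : 0 < M₂) (p3 : 0 < M₃)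
    (h1 : M₁ ≤ n₁ ∧ n₁ ≤ 2 * M₁) (h2 : M₂ ≤ n₂ ∧ n₂ ≤ 2 * M₂) (h3 : M₃ ≤ n₃ ∧ n₃ ≤ 2 * M₃) :
    ∫ z in (M₁ / M₃ / 6)..(6 * (M₁ / M₃)), ∫ w in (M₂ / M₃ / 6)..(6 * (M₂ / M₃)),
        kp ((N : ℝ) * M₃ * (e₁ * z + e₂ * w + e₃)) *
          (g₁ (w / z * n₁ / n₂) * g₂ (z * n₃ / n₁) * g₃ (w * n₃ / n₂)) ≤
      16 * (M₁ / M₃ * (M₂ / M₃)) * ∫ v in (1 / 12 : ℝ)..12, ∫ w in (1 / 12 : ℝ)..12,
        g₁ (w / v) * g₂ v * g₃ w * kp ((N : ℝ) * (e₁ * n₁ * v + e₂ * n₂ * w + e₃ * n₃)) := by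
  have q1 : 0 < n₁ := p1.trans_le h1.1
  have q2 : 0 < n₂ := p2.trans_le h2.1
  have q3 : 0 < n₃ := p3.trans_le h3.1
  obtain ⟨a1, a2, a3, a4⟩ := range_Chg p1 p3 h1.1 h1.2 h3.1 h3.2
  obtain ⟨b1, b2, b3, b4⟩ := range_Chg p2 p3 h2.1 h2.2 h3.1 h3.2
  have g0 : ∀ v w, 0 ≤ g₁ (w / v) * g₂ v * g₃ w := fun v w =>
    mul_nonneg (mul_nonneg (c1.2.1 _) (c2.2.1 _)) (c3.2.1 _)
  have k1 : CQ fun v w => g₁ (w / v) * g₂ v * g₃ w *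
      kp (M₃ / n₃ * ((N : ℝ) * (e₁ * n₁ * v + e₂ * n₂ * w + e₃ * n₃))) :=
    (cq_g_Chg c1 c2 c3).mul (continuous_kp.comp (by fun_prop)).continuousOn
  have k2 : CQ fun v w => g₁ (w / v) * g₂ v * g₃ w *
      kp ((N : ℝ) * (e₁ * n₁ * v + e₂ * n₂ * w + e₃ * n₃)) :=
    (cq_g_Chg c1 c2 c3).mul (cq_kp _ _ _ _)
  have e := box_scale_Chg (fun v w => g₁ (w / v) * g₂ v * g₃ w *
      kp (M₃ / n₃ * ((N : ℝ) * (e₁ * n₁ * v + e₂ * n₂ * w + e₃ * n₃)))) (div_pos q1 q3).ne'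
    (div_pos q2 q3).ne' (M₁ / M₃ / 6) (6 * (M₁ / M₃)) (M₂ / M₃ / 6) (6 * (M₂ / M₃))
  have r1 : ∀ z w : ℝ, w / (n₂ / n₃) / (z / (n₁ / n₃)) = w / z * n₁ / n₂ := fun z w => by
    rcases eq_or_ne z 0 with rfl | hz
    · simp
    · field_simp
  have r2 : ∀ z n : ℝ, z / (n / n₃) = z * n₃ / n := fun z n => div_div_eq_mul_div _ _ _
  have r3 : ∀ z w : ℝ, M₃ / n₃ * ((N : ℝ) * (e₁ * n₁ * (z / (n₁ / n₃)) +
      e₂ * n₂ * (w / (n₂ / n₃)) + e₃ * n₃)) = (N : ℝ) * M₃ * (e₁ * z + e₂ * w + e₃) :=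
    fun z w => by field_simp
  simp only [r1, r3] at e
  simp only [r2 _ n₁, r2 _ n₂, mul_comm _ (kp _)] at e
  rw [e]
  simp only [← r2, mul_comm (kp _)]
  have s1 := box_sub_Chg k1 (fun v w => mul_nonneg (g0 v w) (kp_pos _).le) (by norm_num)
    a1 a2 a3 b1 b2 b3
  have s2 := box_mono k1 ((cq_const 4).mul k2) (a := 1 / 12) (a' := 12) (b := 1 / 12) (b' := 12)
    (by norm_num) (by norm_num) (by norm_num) (by norm_num) fun v _ w _ => by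
      have := kp_mul_le (A := 2) (c := M₃ / n₃) (by norm_num)
        (by rw [abs_of_pos (div_pos p3 q3), ← mul_div_assoc, le_div_iff₀ q3]; linarith [h3.2])
        ((N : ℝ) * (e₁ * n₁ * v + e₂ * n₂ * w + e₃ * n₃))
      nlinarith [g0 v w]
  simp only [intervalIntegral.integral_const_mul] at s2
  have s3 : 0 ≤ ∫ v in (1 / 12 : ℝ)..12, ∫ w in (1 / 12 : ℝ)..12,
      g₁ (w / v) * g₂ v * g₃ w * kp ((N : ℝ) * (e₁ * n₁ * v + e₂ * n₂ * w + e₃ * n₃)) :=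
    intervalIntegral.integral_nonneg (by norm_num) fun v _ =>
      intervalIntegral.integral_nonneg (by norm_num) fun w _ => mul_nonneg (g0 v w) (kp_pos _).le
  refine (mul_le_mul_of_nonneg_left (s1.trans s2) (by positivity)).trans ?_
  have s4 : n₁ / n₃ * (n₂ / n₃) ≤ 2 * (M₁ / M₃) * (2 * (M₂ / M₃)) := by gcongr
  nlinarith [mul_le_mul_of_nonneg_right s4 s3]

theorem chg_stmt : ChgStmt := by
  refine ⟨16, by norm_num, fun N M₁ M₂ M₃ S₁ S₂ S₃ e₁ e₂ e₃ g₁ g₂ g₃ hB c1 c2 c3 => ?_⟩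
  obtain ⟨o1, o2, o3⟩ := hB.one
  obtain ⟨d1, d2, d3, -⟩ := hB
  unfold TB BX TV
  simp only [mul_sum]
  rw [box_sum3_Chg S₁ S₂ S₃ (F := fun n₁ n₂ n₃ z w => kp ((N : ℝ) * M₃ * (e₁ * z + e₂ * w + e₃)) *
      (g₁ (w / z * n₁ / n₂) * g₂ (z * n₃ / n₁) * g₃ (w * n₃ / n₂)))
    (fun _ a _ b _ c => (cq_kp _ _ _ _).mul (((cq_u c1.1 (Dy.pos d1 a) (Dy.pos d2 b)).mul
      (cq_z c2.1 (Dy.pos d3 c) (Dy.pos d1 a))).mul (cq_w c3.1 (Dy.pos d3 c) (Dy.pos d2 b))))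
    (ends_box o1 o3).1 (ends_box o1 o3).2 (ends_box o2 o3).1 (ends_box o2 o3).2,
    box_sum3_Chg S₁ S₂ S₃ (F := fun n₁ n₂ n₃ v w => g₁ (w / v) * g₂ v * g₃ w *
      kp ((N : ℝ) * (e₁ * n₁ * v + e₂ * n₂ * w + e₃ * n₃)))
    (fun _ _ _ _ _ _ => (cq_g_Chg c1 c2 c3).mul (cq_kp _ _ _ _))
    (by norm_num) (by norm_num) (by norm_num) (by norm_num)]
  simp only [mul_sum]
  exact sum_le_sum fun _ a => sum_le_sum fun _ b => sum_le_sum fun _ c =>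
    term_Chg N e₁ e₂ e₃ c1 c2 c3 (by exact_mod_cast o1) (by exact_mod_cast o2)
      (by exact_mod_cast o3) (dy_Chg d1 a) (dy_Chg d2 b) (dy_Chg d3 c)

theorem swp_stmt : SwpStmt := by
  intro N S₁ S₂ S₃ e₁ e₂ e₃ g₁ g₂ g₃ c1 c2 c3
  unfold TV
  rw [MeasureTheory.intervalIntegral_intervalIntegral_swap]
  · congr 1
    funext v
    congr 1
    funext w
    rw [sum_comm]
    simp only [inv_div, add_comm (e₁ * _ * w)]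
    ring
  · have hK : IsCompact (Set.uIcc (1 / 12 : ℝ) 12 ×ˢ Set.uIcc (1 / 12 : ℝ) 12) :=
      isCompact_uIcc.prod isCompact_uIcc
    have h0 : ∀ x ∈ Set.uIcc (1 / 12 : ℝ) 12, 0 < x := fun x hx => by
      rw [Set.uIcc_of_le (by norm_num)] at hx
      exact lt_of_lt_of_le (by norm_num) hx.1
    refine (ContinuousOn.integrableOn_compact hK ?_).mono_set
      (Set.prod_mono Set.uIoc_subset_uIcc Set.uIoc_subset_uIcc)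
    have k : CQ fun v w => g₁ (w / v) * g₂ v * g₃ w * ∑ n₁ ∈ S₁, ∑ n₂ ∈ S₂, ∑ n₃ ∈ S₃,
        kp ((N : ℝ) * (e₁ * n₁ * v + e₂ * n₂ * w + e₃ * n₃)) :=
      (cq_g_Chg c1 c2 c3).mul
        (cq_sum _ fun _ _ => cq_sum _ fun _ _ => cq_sum _ fun _ _ => cq_kp _ _ _ _)
    exact ContinuousOn.mono k fun p hp => ⟨h0 _ hp.1, h0 _ hp.2⟩

end Pool.Agent.MP_2a1f0e_nt.GM4

end

section

set_option autoImplicit false

open Finset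

namespace Pool.Agent.MP_2a1f0e_nt.GM4

open GM GM2 GM3

lemma sub_Exp4 {M : ℕ} {S : Finset ℕ} (h : Dy M S) (f : ℕ → ℝ) (hf : ∀ n, 1 ≤ n → 0 ≤ f n) :
    ∑ n ∈ S, f n ≤ ∑ n ∈ Icc 1 (3 * M), Wt ((n : ℝ) / M) * f n := by
  refine le_of_eq_of_le (sum_congr rfl fun n hn => ?_)
    ((sub_Core h (fun n => max (f n) 0) fun n => le_max_right _ _).trans_eq
      (sum_congr rfl fun n hn => ?_))
  · exact (max_eq_left (hf n (h.one_le n hn))).symm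
  · rw [max_eq_left (hf n (mem_Icc.1 hn).1)]

variable {L R : ℕ} {ν : ℤ → ℝ} {S : Finset ℕ} {χ₁ χ₂ : ℝ → ℝ} {u v : ℕ × ℕ → ℤ → ℂ}

lemma inn_Exp4 (hu : ∀ i ∈ S ×ˢ S, TP R (fun x => (χ₁ x : ℂ) * (FT (Io L) ν (x * i.1) *
      (starRingEnd ℂ) (FT (Io L) ν (x * i.2)))) (u i))
    (hv : ∀ i ∈ S ×ˢ S, TP R (fun x => (χ₂ x : ℂ) * (FT (Io L) ν (x * i.1) *
      (starRingEnd ℂ) (FT (Io L) ν (x * i.2)))) (v i))
    (γ : ℕ → ℂ) {z w : ℝ} (hz : 0 < z) (hw : 0 < w) {n₁ n₂ : ℕ} (h1 : 1 ≤ n₁) (h2 : 1 ≤ n₂) :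
    ((χ₁ (z / n₁) * χ₂ (w / n₂) * ‖Inn (Io L) ν S γ z w n₁ n₂‖ ^ 2 : ℝ) : ℂ) = ∑ i ∈ S ×ˢ S,
      γ i.1 * (starRingEnd ℂ) (γ i.2) *
        ((∑ ρ ∈ Io R, pw z ρ * u i ρ * pw (n₁ : ℝ) (-(ρ : ℝ))) *
          ∑ ρ ∈ Io R, pw w (-(ρ : ℝ)) * (starRingEnd ℂ) (v i ρ) * pw (n₂ : ℝ) ρ) := by
  have a1 : (0 : ℝ) < n₁ := by exact_mod_cast h1
  have a2 : (0 : ℝ) < n₂ := by exact_mod_cast h2
  rw [Complex.ofReal_mul, Complex.ofReal_mul, Complex.ofReal_pow, ← Complex.mul_conj', Inn,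
    map_sum, sum_mul_sum, sum_product, mul_sum]
  refine sum_congr rfl fun n hn => ?_
  rw [mul_sum]
  refine sum_congr rfl fun n' hn' => ?_
  have e1 : ∀ m : ℕ, z * m / n₁ = z / n₁ * m := fun m => by ring
  have e2 : ∀ m : ℕ, FT (Io L) ν (n₂ / (w * m)) =
      (starRingEnd ℂ) (FT (Io L) ν (w / n₂ * m)) := fun m => by
    rw [conj_FT, div_mul_eq_mul_div, inv_div]
  have b1 := hu (n, n') (mem_product.2 ⟨hn, hn'⟩) _ (div_pos hz a1)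
  have b2 := congrArg (starRingEnd ℂ) (hv (n, n') (mem_product.2 ⟨hn, hn'⟩) _ (div_pos hw a2))
  have c1 : ∑ ρ ∈ Io R, pw z ρ * u (n, n') ρ * pw (n₁ : ℝ) (-(ρ : ℝ)) =
      ∑ ρ ∈ Io R, u (n, n') ρ * pw (z / n₁) ρ :=
    sum_congr rfl fun ρ _ => by rw [pw_div hz.ne' a1.ne']; ring
  have c2 : ∑ ρ ∈ Io R, pw w (-(ρ : ℝ)) * (starRingEnd ℂ) (v (n, n') ρ) *
      pw (n₂ : ℝ) ρ = (starRingEnd ℂ) (∑ ρ ∈ Io R, v (n, n') ρ * pw (w / n₂) ρ) := by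
    rw [map_sum]
    exact sum_congr rfl fun ρ _ => by rw [map_mul, conj_pw, pw_div hw.ne' a2.ne', neg_neg]; ring
  rw [c1, c2, ← b1, ← b2, e1, e1, e2, e2]
  simp only [map_mul, Complex.conj_ofReal]
  ring

lemma point_Exp4 (hu : ∀ i ∈ S ×ˢ S, TP R (fun x => (χ₁ x : ℂ) * (FT (Io L) ν (x * i.1) *
      (starRingEnd ℂ) (FT (Io L) ν (x * i.2)))) (u i))
    (hv : ∀ i ∈ S ×ˢ S, TP R (fun x => (χ₂ x : ℂ) * (FT (Io L) ν (x * i.1) *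
      (starRingEnd ℂ) (FT (Io L) ν (x * i.2)))) (v i))
    (γ : ℕ → ℂ) (M₁ M₂ : ℕ) {z w : ℝ} (hz : 0 < z) (hw : 0 < w) :
    ((∑ n₁ ∈ Icc 1 (3 * M₁), ∑ n₂ ∈ Icc 1 (3 * M₂), Wt ((n₁ : ℝ) / M₁) * Wt ((n₂ : ℝ) / M₂) *
      (χ₁ (z / n₁) * χ₂ (w / n₂) * ‖Inn (Io L) ν S γ z w n₁ n₂‖ ^ 2) : ℝ) : ℂ) = ∑ i ∈ S ×ˢ S,
      γ i.1 * (starRingEnd ℂ) (γ i.2) * ∑ ρ₁ ∈ Io R, ∑ ρ₂ ∈ Io R,
        u i ρ₁ * KK M₁ (-(ρ₁ : ℝ)) * ((starRingEnd ℂ) (v i ρ₂) * KK M₂ ρ₂) *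
          (pw z ρ₁ * pw w (-(ρ₂ : ℝ))) := by
  simp only [Complex.ofReal_sum]
  rw [sum_congr rfl fun n₁ h1 => sum_congr rfl fun n₂ h2 => by
    rw [Complex.ofReal_mul, Complex.ofReal_mul,
      inn_Exp4 hu hv γ hz hw (mem_Icc.1 h1).1 (mem_Icc.1 h2).1], swap_Exp]
  refine sum_congr rfl fun i _ => ?_
  rw [kk_Exp, kk_Exp, sum_mul_sum]
  exact congrArg _ (sum_congr rfl fun ρ₁ _ => sum_congr rfl fun ρ₂ _ => by ring)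

theorem exp4_stmt : Exp4Stmt := by
  intro a b κ σ z₀ z₁ L R M₁ M₂ S₁ S₂ S γ ν χ₁ χ₂ u v hl d1 d2 hS hγ p1 p2 c1 c2 h1 h2
  have hz : z₀ ≤ z₁ := hl.2.2.2.2.2.2.1
  have hu : Set.uIcc z₀ z₁ = Set.Icc z₀ z₁ := Set.uIcc_of_le hz
  have cz : ContinuousOn (fun z : ℝ => z) (Set.Icc z₀ z₁) := continuousOn_id
  have cw : ContinuousOn (fun z : ℝ => κ + σ * z) (Set.Icc z₀ z₁) := by fun_prop
  have cB : ∀ n₁ n₂ : ℕ, 1 ≤ n₁ → 1 ≤ n₂ → ContinuousOn (fun z => χ₁ (z / n₁) *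
      χ₂ ((κ + σ * z) / n₂) * ‖Inn (Io L) ν S γ z (κ + σ * z) n₁ n₂‖ ^ 2) (Set.Icc z₀ z₁) :=
    fun n₁ n₂ a1 a2 => ((c1.comp (cz.div_const _) fun p hp =>
      div_pos (hl.pos hp).1 (Nat.cast_pos.2 a1)).mul (c2.comp (cw.div_const _) fun p hp =>
      div_pos (hl.pos hp).2 (Nat.cast_pos.2 a2))).mul ((continuousOn_Inn _ ν hS γ cz cw
        (fun p hp => (hl.pos hp).1) (fun p hp => (hl.pos hp).2) a1 a2).norm.pow 2)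
  have hE : ∀ (c : ℂ) (ρ₁ ρ₂ : ℝ), ContinuousOn (fun z => c * (pw z ρ₁ * pw (κ + σ * z) ρ₂))
      (Set.uIcc z₀ z₁) := fun c ρ₁ ρ₂ => by
    rw [hu]
    exact continuousOn_const.mul (((continuousOn_pw ρ₁).mono fun z hz => (hl.pos hz).1).mul
      ((continuousOn_pw ρ₂).comp cw fun z hz => (hl.pos hz).2))
  have key : ((∫ z in z₀..z₁, ∑ n₁ ∈ Icc 1 (3 * M₁), ∑ n₂ ∈ Icc 1 (3 * M₂),
      Wt ((n₁ : ℝ) / M₁) * Wt ((n₂ : ℝ) / M₂) * (χ₁ (z / n₁) * χ₂ ((κ + σ * z) / n₂) *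
        ‖Inn (Io L) ν S γ z (κ + σ * z) n₁ n₂‖ ^ 2) : ℝ) : ℂ) = ∑ i ∈ S ×ˢ S,
      γ i.1 * (starRingEnd ℂ) (γ i.2) * Bf2 R M₁ M₂ κ σ z₀ z₁ (u i) (v i) := by
    rw [← intervalIntegral.integral_ofReal, intervalIntegral.integral_congr fun z hz =>
      point_Exp4 h1 h2 γ M₁ M₂ (hl.pos (hu ▸ hz)).1 (hl.pos (hu ▸ hz)).2]
    refine (int_Exp _ _ fun i => ?_).trans (sum_congr rfl fun i _ => ?_)
    · exact continuousOn_const.mul (continuousOn_finsetSum _ fun ρ₁ _ =>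
        continuousOn_finsetSum _ fun ρ₂ _ => hE _ _ _)
    rw [intervalIntegral.integral_const_mul, Bf2, Bil]
    refine congrArg _ ((int_Exp _ _ fun ρ₁ => ?_).trans (sum_congr rfl fun ρ₁ _ => ?_))
    · exact continuousOn_finsetSum _ fun ρ₂ _ => hE _ _ _
    exact (int_Exp _ _ fun ρ₂ => hE _ _ _).trans
      (sum_congr rfl fun ρ₂ _ => intervalIntegral.integral_const_mul _ _)
  refine le_trans (intervalIntegral.integral_mono_on hz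
    ((continuousOn_finsetSum _ fun n₁ a1 => continuousOn_finsetSum _ fun n₂ a2 =>
      cB _ _ (d1.one_le _ a1) (d2.one_le _ a2)).intervalIntegrable_of_Icc hz)
    ((continuousOn_finsetSum (Icc 1 (3 * M₁)) fun n₁ a1 =>
      continuousOn_finsetSum (Icc 1 (3 * M₂)) fun n₂ a2 =>
        (continuousOn_const (c := Wt ((n₁ : ℝ) / M₁) * Wt ((n₂ : ℝ) / M₂))).mul
          (cB _ _ (mem_Icc.1 a1).1 (mem_Icc.1 a2).1)).intervalIntegrable_of_Icc hz)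
    fun z hz' => ?_) ((le_abs_self _).trans ?_)
  · have nn : ∀ n₁ n₂ : ℕ, 1 ≤ n₁ → 1 ≤ n₂ → 0 ≤ χ₁ (z / n₁) * χ₂ ((κ + σ * z) / n₂) *
        ‖Inn (Io L) ν S γ z (κ + σ * z) n₁ n₂‖ ^ 2 := fun n₁ n₂ a1 a2 =>
      mul_nonneg (mul_nonneg (p1 _ (div_pos (hl.pos hz').1 (Nat.cast_pos.2 a1)))
        (p2 _ (div_pos (hl.pos hz').2 (Nat.cast_pos.2 a2)))) (sq_nonneg _)
    refine (sum_le_sum fun n₁ a1 => sub_Exp4 d2 _ fun n₂ => nn n₁ n₂ (d1.one_le _ a1)).trans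
      ((sub_Exp4 d1 _ fun n₁ a1 => sum_nonneg fun n₂ a2 =>
        mul_nonneg (Wt_nonneg _) (nn n₁ n₂ a1 (mem_Icc.1 a2).1)).trans (le_of_eq ?_))
    simp only [mul_sum, mul_assoc, Pi.mul_apply]
  · rw [← Real.norm_eq_abs, ← Complex.norm_real]
    refine (congrArg norm key).trans_le ((norm_sum_le _ _).trans (sum_le_sum fun i hi => ?_))
    rw [norm_mul, norm_mul, Complex.norm_conj]
    exact mul_le_of_le_one_left (norm_nonneg _)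
      (mul_le_one₀ (hγ _ (mem_product.1 hi).1) (norm_nonneg _) (hγ _ (mem_product.1 hi).2))

end Pool.Agent.MP_2a1f0e_nt.GM4

end

section

set_option autoImplicit false

open Finset

namespace Pool.Agent.MP_2a1f0e_nt.GM4

open GM GM2 GM3

lemma ft_GY4 (L : ℕ) (ν : ℤ → ℝ) {n : ℕ} (hn : 1 ≤ n) :
    TP L (fun x => FT (Io L) ν (x * n)) (fun a => ν a * pw n a) := by
  intro x hx
  have h0 : (n : ℝ) ≠ 0 := by positivity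
  refine sum_congr rfl fun a _ => ?_
  rw [pw_mul hx.ne' h0]
  ring

lemma conj_GY4 {R : ℕ} {U : ℝ → ℂ} {c : ℤ → ℂ} (h : TP R U c) :
    TP R (fun x => (starRingEnd ℂ) (U x)) (fun a => (starRingEnd ℂ) (c (-a))) := by
  intro x hx
  simp only [h x hx, map_sum, map_mul, conj_pw]
  refine sum_nbij' (fun a => -a) (fun a => -a) ?_ ?_ ?_ ?_ ?_
  · intro a ha
    simp only [Io, mem_Ioo] at ha ⊢
    omega
  · intro a ha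
    simp only [Io, mem_Ioo] at ha ⊢
    omega
  · intro a _
    exact neg_neg a
  · intro a _
    exact neg_neg a
  · intro a _
    rw [neg_neg, Int.cast_neg]

lemma dbl_GY4 {ι : Type} (s : Finset ι) (A : ι → ℝ → ℂ) (hA : ∀ i ∈ s, Continuous (A i))
    (K : ℝ → ℝ → ℝ) (hK : Continuous (Function.uncurry K))
    (h : ∀ θ θ', ‖∑ i ∈ s, A i θ * (starRingEnd ℂ) (A i θ')‖ ≤ K θ θ') {a b : ℝ} (hab : a ≤ b) :
    ∑ i ∈ s, ‖∫ θ in a..b, A i θ‖ ^ 2 ≤ ∫ θ in a..b, ∫ θ' in a..b, K θ θ' := by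
  have e1 : ∀ θ, ∫ θ' in a..b, ∑ i ∈ s, A i θ * (starRingEnd ℂ) (A i θ') =
      ∑ i ∈ s, A i θ * (starRingEnd ℂ) (∫ θ' in a..b, A i θ') := fun θ => by
    refine (intervalIntegral.integral_finsetSum fun i hi =>
      (continuous_const.mul (Complex.continuous_conj.comp (hA i hi))).intervalIntegrable _ _).trans
      (sum_congr rfl fun i _ => ?_)
    rw [← intervalIntegral.intervalIntegral_conj]
    exact intervalIntegral.integral_const_mul _ _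
  have e2 : ∫ θ in a..b, ∫ θ' in a..b, ∑ i ∈ s, A i θ * (starRingEnd ℂ) (A i θ') =
      ((∑ i ∈ s, ‖∫ θ in a..b, A i θ‖ ^ 2 : ℝ) : ℂ) := by
    simp only [e1]
    rw [Complex.ofReal_sum]
    refine (intervalIntegral.integral_finsetSum fun i hi =>
      ((hA i hi).mul continuous_const).intervalIntegrable _ _).trans (sum_congr rfl fun i _ => ?_)
    refine (intervalIntegral.integral_mul_const _ _).trans ?_
    rw [Complex.mul_conj, Complex.normSq_eq_norm_sq]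
  have e3 : ∑ i ∈ s, ‖∫ θ in a..b, A i θ‖ ^ 2 =
      ‖∫ θ in a..b, ∫ θ' in a..b, ∑ i ∈ s, A i θ * (starRingEnd ℂ) (A i θ')‖ := by
    rw [e2, Complex.norm_real, Real.norm_of_nonneg (sum_nonneg fun _ _ => sq_nonneg _)]
  rw [e3]
  refine intervalIntegral.norm_integral_le_of_norm_le hab (Filter.Eventually.of_forall fun θ _ => ?_)
    ((intervalIntegral.continuous_parametric_intervalIntegral_of_continuous' hK a b).intervalIntegrable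
      _ _)
  exact intervalIntegral.norm_integral_le_of_norm_le hab
    (Filter.Eventually.of_forall fun θ' _ => h θ θ')
    ((hK.comp (Continuous.prodMk_right θ)).intervalIntegrable _ _)

lemma pt_GY4 (S : Finset ℕ) (f g : ℕ → ℂ) (c c' e e' : ℂ) (hc : ‖c‖ ≤ 1) (hc' : ‖c'‖ ≤ 1)
    (he : ‖e‖ = 1) (he' : ‖e'‖ = 1) :
    ‖∑ i ∈ S ×ˢ S, c * (f i.1 * (starRingEnd ℂ) (f i.2)) * e *
        (starRingEnd ℂ) (c' * (g i.1 * (starRingEnd ℂ) (g i.2)) * e')‖ ≤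
      ‖∑ n ∈ S, f n * (starRingEnd ℂ) (g n)‖ ^ 2 := by
  have e1 : ∑ i ∈ S ×ˢ S, c * (f i.1 * (starRingEnd ℂ) (f i.2)) * e *
        (starRingEnd ℂ) (c' * (g i.1 * (starRingEnd ℂ) (g i.2)) * e') =
      c * (starRingEnd ℂ) c' * e * (starRingEnd ℂ) e' * ((∑ n ∈ S, f n * (starRingEnd ℂ) (g n)) *
        (starRingEnd ℂ) (∑ n ∈ S, f n * (starRingEnd ℂ) (g n))) := by
    rw [map_sum, sum_mul_sum, sum_product, mul_sum]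
    refine sum_congr rfl fun n _ => ?_
    rw [mul_sum]
    refine sum_congr rfl fun m _ => ?_
    simp only [map_mul, Complex.conj_conj]
    ring
  rw [e1]
  simp only [norm_mul, Complex.norm_conj, he, he', mul_one]
  rw [← sq]
  exact mul_le_of_le_one_left (sq_nonneg _) (mul_le_one₀ hc (norm_nonneg _) hc')

lemma cf_GY4 (L : ℕ) (ν : ℤ → ℝ) {n : ℕ} (hn : 1 ≤ n) :
    Continuous fun θ => FT (Io L) ν (Real.exp θ * n) :=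
  (ft_GY4 L ν hn).cont.comp_continuous Real.continuous_exp fun θ => Real.exp_pos θ

theorem gy4_stmt (hm : TPmStmt) (hp : TPpStmt) (hE : EEpStmt) (hM : MoStmt) : GY4Stmt := by
  intro L ν S H X χ h1 hW hX
  obtain ⟨⟨c, hc⟩, hχ⟩ := hW
  have hpi : 0 < 2 * Real.pi := by positivity
  have hu : ∀ i : ℕ × ℕ, ∃ u : ℤ → ℂ, i ∈ S ×ˢ S →
      TP (6 * L) (fun x => (χ x : ℂ) * (FT (Io L) ν (x * i.1) *
        (starRingEnd ℂ) (FT (Io L) ν (x * i.2)))) u := fun i => by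
    by_cases hi : i ∈ S ×ˢ S
    · obtain ⟨d, hd⟩ := hm _ _ _ _ _ _ (ft_GY4 L ν (h1 _ (mem_product.1 hi).1))
        (conj_GY4 (ft_GY4 L ν (h1 _ (mem_product.1 hi).2)))
      obtain ⟨d', hd'⟩ := hm _ _ _ _ _ _ hc hd
      rw [show 4 * L + (L + L) = 6 * L by ring] at hd'
      exact ⟨d', fun _ => hd'⟩
    · exact ⟨0, fun h => absurd h hi⟩
  choose u hu using hu
  have hcont : ∀ i ∈ S ×ˢ S, Continuous fun θ => (χ (Real.exp θ) : ℂ) *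
      (FT (Io L) ν (Real.exp θ * i.1) * (starRingEnd ℂ) (FT (Io L) ν (Real.exp θ * i.2))) :=
    fun i hi => (hu i hi).cont.comp_continuous Real.continuous_exp fun θ => Real.exp_pos θ
  refine ⟨u, hu, ?_, fun ρ hρ => ?_⟩
  · have hH : 0 ≤ H := le_trans (mul_nonneg (sq_nonneg _) (hS_nonneg L ν S 1)) (hχ 1 one_pos).2.2
    have e1 : mo (hS L ν S) = S.card * (2 * Real.pi * ∑ a ∈ Io L, ν a ^ 2) := by
      have hn : ∀ n ∈ S, (0 : ℝ) < n := fun n hn => by exact_mod_cast h1 n hn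
      refine (mo_sum S (g := fun n v => ph L ν (v * n) ^ 2)
        fun n h => ((per_ph L ν).pow 2).scale (hn n h)).trans ?_
      rw [sum_congr rfl fun n h => mo_scale ((per_ph L ν).pow 2) (hn n h), sum_const, nsmul_eq_mul,
        (hM L ν).2]
    refine le_of_mul_le_mul_left ?_ hpi
    rw [mul_sum, sum_congr rfl fun i hi => (hp _ _ _ (hu i hi)).1]
    unfold mo at e1 ⊢
    refine le_of_eq_of_le (intervalIntegral.integral_finsetSum fun i hi =>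
      ((hcont i hi).norm.pow 2).intervalIntegrable _ _).symm ?_
    refine (intervalIntegral.integral_mono_on (g := fun θ => H * hS L ν S (Real.exp θ)) neg_pi_le
      ((continuous_finsetSum _ fun i hi => (hcont i hi).norm.pow 2).intervalIntegrable _ _)
      ((continuous_const.mul (per_hS L ν h1).cont).intervalIntegrable _ _) fun θ _ => ?_).trans ?_
    · have e2 : ∑ i ∈ S ×ˢ S, ‖(χ (Real.exp θ) : ℂ) * (FT (Io L) ν (Real.exp θ * i.1) *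
          (starRingEnd ℂ) (FT (Io L) ν (Real.exp θ * i.2)))‖ ^ 2 =
          χ (Real.exp θ) ^ 2 * hS L ν S (Real.exp θ) * hS L ν S (Real.exp θ) := by
        unfold hS ph
        rw [mul_assoc, sum_mul_sum, sum_product, mul_sum]
        refine sum_congr rfl fun n _ => ?_
        rw [mul_sum]
        refine sum_congr rfl fun m _ => ?_
        rw [norm_mul, norm_mul, Complex.norm_conj, Complex.norm_real, Real.norm_eq_abs, mul_pow,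
          mul_pow, sq_abs]
      exact e2.le.trans (mul_le_mul_of_nonneg_right (hχ _ (Real.exp_pos θ)).2.2 (hS_nonneg _ _ _ _))
    · rw [intervalIntegral.integral_const_mul, e1]
      calc H * (S.card * (2 * Real.pi * ∑ a ∈ Io L, ν a ^ 2))
          ≤ H * (S.card * (2 * Real.pi * X)) := by gcongr
        _ = _ := by ring
  · refine le_of_mul_le_mul_left ?_ (pow_pos hpi 2)
    rw [← hE L ν S h1, mul_sum]
    have e1 : ∀ i ∈ S ×ˢ S, (2 * Real.pi) ^ 2 * ‖u i ρ‖ ^ 2 =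
        ‖∫ θ in (-Real.pi)..Real.pi, (χ (Real.exp θ) : ℂ) * (FT (Io L) ν (Real.exp θ * i.1) *
          (starRingEnd ℂ) (FT (Io L) ν (Real.exp θ * i.2))) *
            Complex.exp (-(Complex.I * ρ * θ))‖ ^ 2 := fun i hi => by
      rw [← (hp _ _ _ (hu i hi)).2 ρ hρ, norm_mul, norm_mul, Complex.norm_real,
        Real.norm_of_nonneg Real.pi_pos.le, Complex.norm_two, ← mul_pow]
    have hn : ∀ θ : ℝ, ‖Complex.exp (-(Complex.I * ρ * θ))‖ = 1 := fun θ => by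
      rw [Complex.norm_exp]
      simp
    have hx : ∀ θ : ℝ, ‖(χ (Real.exp θ) : ℂ)‖ ≤ 1 := fun θ => by
      rw [Complex.norm_real, Real.norm_of_nonneg (hχ _ (Real.exp_pos θ)).1.le]
      exact (hχ _ (Real.exp_pos θ)).2.1
    rw [sum_congr rfl e1]
    have he : Continuous fun θ : ℝ => Complex.exp (-(Complex.I * ρ * θ)) := by fun_prop
    refine dbl_GY4 (S ×ˢ S) (fun i θ => (χ (Real.exp θ) : ℂ) * (FT (Io L) ν (Real.exp θ * i.1) *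
          (starRingEnd ℂ) (FT (Io L) ν (Real.exp θ * i.2))) *
            Complex.exp (-(Complex.I * ρ * θ))) (fun i hi => (hcont i hi).mul he)
      (fun θ θ' => ‖∑ n ∈ S, FT (Io L) ν (Real.exp θ * n) *
        (starRingEnd ℂ) (FT (Io L) ν (Real.exp θ' * n))‖ ^ 2) ?_
      (fun θ θ' => pt_GY4 S (fun n => FT (Io L) ν (Real.exp θ * n))
        (fun n => FT (Io L) ν (Real.exp θ' * n)) _ _ _ _ (hx θ) (hx θ') (hn θ) (hn θ')) neg_pi_le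
    exact (continuous_finsetSum _ fun n h => ((cf_GY4 L ν (h1 n h)).comp continuous_fst).mul
      (Complex.continuous_conj.comp ((cf_GY4 L ν (h1 n h)).comp continuous_snd))).norm.pow 2

end Pool.Agent.MP_2a1f0e_nt.GM4

end

section

set_option autoImplicit false

open Finset

namespace Pool.Agent.MP_2a1f0e_nt.GM4

open GM GM2 GM3

lemma ch_sub_Mod (s t : ℝ) : ch (s - t) ≤ 2 * ch s + 2 * ch t := by
  unfold ch
  rw [Real.cos_sub]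
  nlinarith [sq_nonneg (Real.cos s + Real.cos t - 2), sq_nonneg (Real.sin s + Real.sin t),
    Real.sin_sq_add_cos_sq s, Real.sin_sq_add_cos_sq t]

lemma kc_le_Mod (D : ℕ) (s t : ℝ) : kc D s ≤ 2 * (1 + (D : ℝ) ^ 2 * ch t) * kc D (s - t) := by
  have h1 := ch_nonneg s
  have h2 := ch_nonneg t
  have h3 := ch_nonneg (s - t)
  have h4 := mul_le_mul_of_nonneg_left (ch_sub_Mod s t) (sq_nonneg (D : ℝ))
  have h5 : 0 ≤ (D : ℝ) ^ 2 * ch t * ((D : ℝ) ^ 2 * ch s) := by positivity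
  have h6 : 1 + (D : ℝ) ^ 2 * ch (s - t) ≤
      2 * (1 + (D : ℝ) ^ 2 * ch t) * (1 + (D : ℝ) ^ 2 * ch s) := by linarith
  unfold kc
  rw [← mul_div_assoc, div_le_div_iff₀ (by positivity) (by positivity)]
  have := mul_le_mul_of_nonneg_left h6 (Nat.cast_nonneg (α := ℝ) D)
  linarith

theorem mod_stmt : ModStmt := by
  intro D h hp x hx t
  have hper : Function.Periodic (fun s => kc D (s - t) * h (x * Real.exp (-s))) (2 * Real.pi) := by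
    intro s
    have e := hp.2.2 (x * Real.exp (-(s + 2 * Real.pi))) (by positivity)
    rw [mul_assoc, ← Real.exp_add, show -(s + 2 * Real.pi) + 2 * Real.pi = -s by ring] at e
    simp only [← e, add_sub_right_comm s, kc_periodic D (s - t)]
  have e : cv D h (x * Real.exp (-t)) =
      ∫ s in (-Real.pi)..Real.pi, kc D (s - t) * h (x * Real.exp (-s)) := by
    rw [← shift_per hper t, cv]
    simp only [add_sub_cancel_right, mul_assoc, ← Real.exp_add, neg_add_rev]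
  rw [e, ← intervalIntegral.integral_const_mul]
  refine intervalIntegral.integral_mono_on neg_pi_le
    (((continuous_kc D).mul (hp.cont_mul hx)).intervalIntegrable _ _)
    ((continuous_const.mul (((continuous_kc D).comp (continuous_sub_right t)).mul
      (hp.cont_mul hx))).intervalIntegrable _ _) fun s _ => ?_
  rw [← mul_assoc]
  exact mul_le_mul_of_nonneg_right (kc_le_Mod D s t) (hp.2.1 _)

open MeasureTheory in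
lemma int_kc_Mod (D : ℕ) : ∫ t in (-Real.pi)..Real.pi, kc D t ≤ 8 := by
  rcases Nat.eq_zero_or_pos D with rfl | h
  · simp [kc]
  have d0 : (0 : ℝ) < D := by exact_mod_cast h
  have l0 : (0 : ℝ) < D / 2 := by positivity
  have k1 : Integrable fun t : ℝ => (1 + ((D : ℝ) / 2 * t) ^ 2)⁻¹ :=
    integrable_inv_one_add_sq.comp_mul_left' l0.ne'
  have k2 : ∫ t : ℝ, (1 + ((D : ℝ) / 2 * t) ^ 2)⁻¹ = ((D : ℝ) / 2)⁻¹ * Real.pi := by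
    rw [Measure.integral_comp_mul_left fun x : ℝ => (1 + x ^ 2)⁻¹, integral_univ_inv_one_add_sq,
      abs_of_pos (inv_pos.2 l0), smul_eq_mul]
  calc ∫ t in (-Real.pi)..Real.pi, kc D t
      ≤ ∫ t in (-Real.pi)..Real.pi, (D : ℝ) * (1 + ((D : ℝ) / 2 * t) ^ 2)⁻¹ := by
        refine intervalIntegral.integral_mono_on neg_pi_le
          ((continuous_kc D).intervalIntegrable _ _) (k1.const_mul _).intervalIntegrable
          fun t ht => ?_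
        have h1 := Real.cos_le_one_sub_mul_cos_sq (abs_le.2 ht)
        have h2 : 1 / 8 ≤ 2 / Real.pi ^ 2 := by
          rw [div_le_div_iff₀ (by norm_num) (by positivity)]
          nlinarith [Real.pi_le_four, Real.pi_pos]
        have h3 : t ^ 2 / 4 ≤ ch t := by
          unfold ch
          nlinarith [mul_le_mul_of_nonneg_right h2 (sq_nonneg t)]
        rw [kc, ← div_eq_mul_inv]
        refine div_le_div_of_nonneg_left d0.le (by positivity) ?_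
        nlinarith [mul_le_mul_of_nonneg_left h3 (sq_nonneg (D : ℝ))]
    _ ≤ D * (((D : ℝ) / 2)⁻¹ * Real.pi) := by
        rw [intervalIntegral.integral_const_mul, intervalIntegral.integral_of_le neg_pi_le, ← k2]
        exact mul_le_mul_of_nonneg_left
          (setIntegral_le_integral k1 (Filter.Eventually.of_forall fun t => by positivity)) d0.le
    _ = 2 * Real.pi := by field_simp
    _ ≤ 8 := by linarith [Real.pi_le_four]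

theorem cv4_stmt : CvStmt := by
  refine ⟨8, by norm_num, fun D F hF => ?_⟩
  have hc : Continuous (Function.uncurry fun θ t : ℝ =>
      kc D t * F (Real.exp θ * Real.exp (-t))) :=
    ((continuous_kc D).comp continuous_snd).mul (hF.1.comp_continuous (by fun_prop)
      fun p => mul_pos (Real.exp_pos _) (Real.exp_pos _))
  refine ⟨⟨?_, cv_nonneg D hF.2.1, fun v hv => ?_⟩, ?_, fun β hβ v hv => ?_⟩
  · have h1 : Continuous fun θ => cv D F (Real.exp θ) :=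
      intervalIntegral.continuous_parametric_intervalIntegral_of_continuous' hc _ _
    refine (h1.comp_continuousOn (Real.continuousOn_log.mono fun x hx => ne_of_gt hx)).congr
      fun x hx => ?_
    simp only [Function.comp, Real.exp_log hx]
  · unfold cv
    simp only [mul_right_comm v (Real.exp (2 * Real.pi)),
      hF.2.2 _ (mul_pos hv (Real.exp_pos _))]
  · have e : mo (cv D F) = (∫ t in (-Real.pi)..Real.pi, kc D t) * mo F := by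
      unfold mo cv
      rw [MeasureTheory.intervalIntegral_intervalIntegral_swap
        (((hc.continuousOn.integrableOn_compact (isCompact_uIcc.prod isCompact_uIcc))).mono_set
          (Set.prod_mono Set.uIoc_subset_uIcc Set.uIoc_subset_uIcc)),
        ← intervalIntegral.integral_mul_const]
      refine intervalIntegral.integral_congr fun t _ => ?_
      simp only [intervalIntegral.integral_const_mul]
      exact congrArg _ (mo_scale hF (Real.exp_pos (-t)))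
    rw [e]
    exact mul_le_mul_of_nonneg_right (int_kc_Mod D) hF.mo_nonneg
  · have b0 : 0 ≤ β := (hF.2.1 v).trans (hβ v hv)
    refine (cv_mono D hF (per_const b0) hβ hv).trans ?_
    unfold cv
    rw [intervalIntegral.integral_mul_const]
    exact mul_le_mul_of_nonneg_right (int_kc_Mod D) b0

end Pool.Agent.MP_2a1f0e_nt.GM4

end

section

set_option autoImplicit false

open Finset

namespace Pool.Agent.MP_2a1f0e_nt.GM4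

open GM GM2 GM3

theorem q5_stmt (hP : PartStmt) (hB : Blk4Stmt) : Q5Stmt := by
  obtain ⟨C, hC, hB⟩ := hB
  refine ⟨8 * C, by positivity, fun N L M m t Δ B X ν hM hD hd hb hg => ?_⟩
  have hN : (0 : ℝ) < N := Nat.cast_pos.2 hD.1
  have ht : 0 < t := one_pos.trans_le hD.2.2.1
  have hm : 0 ≤ m := (Nat.cast_nonneg M).trans hM
  have hΔ : 0 < Δ := one_pos.trans_le hd.1
  have hB0 : 0 ≤ B := hD.2.2.2.2.2.1
  have hX : 0 < X := hD.2.2.2.2.2.2.1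
  have hW : 0 ≤ m ^ 2 / t * (X * √X) + m * B * X := by positivity
  have h1 := hP N M (Io L) ν (C * Δ ^ 3 * ((m ^ 2 / t * (X * √X) + m * B * X) / N)) (by positivity)
    fun M₁ M₂ M₃ S₁ S₂ S₃ e₁ e₂ e₃ a1 a2 a3 a4 a5 a6 a7 a8 a9 =>
      hB N L M₁ M₂ M₃ S₁ S₂ S₃ e₁ e₂ e₃ m t Δ B X ν ⟨a1, a2, a3, a4, a5, a7, a8, a9⟩
        ((Nat.cast_le.2 a6).trans hM) hD
        (DivB_mono hd (Nat.mul_le_mul_left _ (Nat.mul_le_mul_left _ a6))) hb hg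
  have h2 : (Nat.log 2 M : ℝ) + 1 ≤ Δ :=
    DivB_log hd ((Nat.le_mul_of_pos_left M two_pos).trans (Nat.le_mul_of_pos_left _ hD.1))
  refine h1.trans ?_
  generalize m ^ 2 / t * (X * √X) + m * B * X = W at hW
  calc _ ≤ 8 * Δ ^ 3 * (N : ℝ) ^ 3 * (C * Δ ^ 3 * (W / N)) := by gcongr
    _ = _ := by field_simp

theorem sq_le_Q5 {s y : ℝ} (hy : 0 < y) : s ^ 2 ≤ y ^ 8 + (s ^ 4) ^ 2 / y ^ 24 := by
  rcases le_total (s ^ 2) (y ^ 8) with h | h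
  · exact h.trans (le_add_of_nonneg_right (by positivity))
  · refine le_add_of_nonneg_of_le (by positivity) ((le_div_iff₀ (by positivity)).2 ?_)
    calc s ^ 2 * y ^ 24 = s ^ 2 * (y ^ 8) ^ 3 := by ring
      _ ≤ s ^ 2 * (s ^ 2) ^ 3 := by gcongr
      _ = _ := by ring

theorem g4_stmt : G4Stmt := by
  intro y Δ X L ν hy hΔ hJ hX hν S hS
  have y0 : 0 < y := one_pos.trans_le hy
  have s0 : 0 ≤ ∑ a ∈ Io L, ν a ^ 2 := sum_nonneg fun _ _ => sq_nonneg _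
  have X0 : 0 ≤ X := s0.trans hX
  have h1 := hJ S hS (fun a => ν a ^ 2) fun _ => sq_nonneg _
  have h2 : DH.EE (Io L) (fun a => ν a ^ 2) (SS S) ≤ y ^ 8 * (∑ a ∈ Io L, ν a ^ 2) ^ 2 +
      DH.EE (Io L) (fun a => ν a ^ 2) (fun u => SS S u ^ 4) / y ^ 24 := by
    rw [DH.EE, DH.EE, pow_two (∑ a ∈ Io L, ν a ^ 2), sum_mul_sum, mul_sum, sum_div,
      ← sum_add_distrib]
    refine sum_le_sum fun a _ => ?_
    rw [mul_sum, sum_div, ← sum_add_distrib]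
    refine sum_le_sum fun b _ => ?_
    rw [norm_pow, mul_div_assoc, mul_comm (y ^ 8), ← mul_add]
    exact mul_le_mul_of_nonneg_left (sq_le_Q5 y0) (by positivity)
  have h3 : ∑ a ∈ Io L, (ν a ^ 2) ^ 2 ≤ X / y ^ 8 * X := by
    refine le_trans ?_ (mul_le_mul_of_nonneg_left hX (by positivity))
    rw [mul_sum]
    refine sum_le_sum fun a ha => ?_
    rw [pow_two (ν a ^ 2)]
    refine mul_le_mul_of_nonneg_right ?_ (sq_nonneg _)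
    calc ν a ^ 2 = |ν a| ^ 2 := (sq_abs _).symm
      _ ≤ (√X / y ^ 4) ^ 2 := by gcongr; exact hν a ha
      _ = X / y ^ 8 := by rw [div_pow, Real.sq_sqrt X0, ← pow_mul]
  have h4 : y ^ 20 ≤ y ^ 32 := pow_le_pow_right₀ hy (by norm_num)
  have h5 : 0 ≤ y ^ 8 * X ^ 2 := by positivity
  calc _ ≤ y ^ 8 * X ^ 2 + Δ * (y ^ 40 * (X / y ^ 8 * X) + y ^ 32 * X ^ 2) / y ^ 24 := by
        refine h2.trans (add_le_add (by gcongr) ?_)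
        refine div_le_div_of_nonneg_right (h1.trans ?_) (by positivity)
        gcongr
    _ = (1 + 2 * Δ) * (y ^ 8 * X ^ 2) := by field_simp; ring
    _ ≤ 3 * Δ * (y ^ 8 * X ^ 2) := mul_le_mul_of_nonneg_right (by linarith) h5
    _ = _ := by field_simp

theorem q6_stmt (h5 : Q5Stmt) (hD : DatStmt) (hB : BB4Stmt) (hG : G4Stmt) : Q6Stmt := by
  obtain ⟨C, hC, h5⟩ := h5
  obtain ⟨CD, hCD, hD⟩ := hD
  obtain ⟨CB, hCB, hB⟩ := hB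
  refine ⟨C * (CB + CD + 3) ^ 6, by positivity,
    fun N M L Xd Δ B X y ν hN hL hy hM hLy h1 h2 hd ho hJ h3 hB0 hX h4 h6 h7 h8 h9 => ?_⟩
  have y0 : 0 < y := one_pos.trans_le hy
  have hΔ := hd.1
  have d9 : Δ ≤ Δ ^ 9 := le_self_pow₀ hΔ (by norm_num)
  have a1 := hD N M L y Δ B X ν hN hL hy (hM ▸ pow_le_pow_right₀ hy (by norm_num))
    (DivB_mono hd ((Nat.mul_le_mul_left _ (Nat.le_mul_of_pos_left M two_pos)).trans h1)) h3 hB0 hX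
    h4 h6 h7 h9
  have a2 := hB y Δ (6 * L) Xd hy (by push_cast; nlinarith [pow_pos y0 30]) h2 hd ho
  have a3 := hG y Δ X L ν hy hΔ hJ h7 h8
  rw [← hM] at a1
  have a4 := h5 N L M (y ^ 5) y ((CB + CD + 3) * Δ ^ 9) B X ν hM.ge (a1.up (by nlinarith))
    (DivB_up (DivB_mono hd h1) (by nlinarith)) (a2.up (by nlinarith)) (a3.up (by nlinarith))
  refine a4.trans_eq ?_
  field_simp

theorem PB4_inv_Q5 (P Q : ℕ) (Δ : ℝ) (g h : ℝ → ℝ) :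
    PB4 P Q Δ (fun v => g v⁻¹) h = PB4 P Q Δ g h := by
  rw [PB4, PB4, mo_inv g, mo_inv fun v => g v ^ 2]

theorem step_Q5 {T V C C' C'' a W N : ℝ} (h1 : T ≤ C * a * V) (h2 : V ≤ C' * (W / N))
    (hC : 0 ≤ C) (ha : 0 ≤ a) (hW : 0 ≤ W) (hN : 0 ≤ N) (h3 : C' ≤ C'') :
    T ≤ C * C'' * (a / N * W) :=
  calc T ≤ C * a * (C' * (W / N)) := h1.trans (by gcongr)
    _ ≤ C * a * (C'' * (W / N)) := by gcongr
    _ = _ := by ring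

theorem bp_stmt (hC : ChgStmt) (hS : SwpStmt) (ha : TVaStmt) (hb : TVbStmt) (ho : TVoStmt) :
    BPStmt := by
  obtain ⟨C, hC0, hC⟩ := hC
  obtain ⟨Ca, ha0, ha⟩ := ha
  obtain ⟨Cb, hb0, hb⟩ := hb
  obtain ⟨Co, ho0, ho⟩ := ho
  refine ⟨C * (Ca + Cb + Co), by positivity,
    fun N M₁ M₂ M₃ S₁ S₂ S₃ e₁ e₂ e₃ Δ g h hN hk hd hg hh => ?_⟩
  have a0 := (ab_pos hk.one.1 hk.one.2.1 hk.one.2.2).le
  have c := fun g₁ g₂ g₃ => hC N M₁ M₂ M₃ S₁ S₂ S₃ e₁ e₂ e₃ g₁ g₂ g₃ hk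
  obtain ⟨k1, k2, k3, k4, k5, k6, k7, k8⟩ := hk
  have d1 := DivB_mono hd (Nat.mul_le_mul_left N (Nat.mul_le_mul_left 2 k4))
  have d2 := DivB_mono hd (Nat.mul_le_mul_left N (Nat.mul_le_mul_left 2 k5))
  have p := fun P Q => PB4_nonneg P Q (zero_le_one.trans hd.1) hg hh
  have m0 := hh.mo_nonneg
  have n0 := Nat.cast_nonneg (α := ℝ) N
  refine ⟨step_Q5 (c _ _ _ per_one hg hh)
      (ha N M₁ M₂ S₁ S₂ S₃ e₁ e₂ e₃ Δ g h hN k1 k2 k6 k7 k8 d1 d2 hg hh) hC0.le a0 (p _ _) n0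
      (by linarith),
    step_Q5 (c _ _ _ hg hh per_one)
      (hb N M₂ M₃ S₁ S₂ S₃ e₁ e₂ e₃ Δ g h hN k2 k3 k6 k7 k8 d2 hd hg hh) hC0.le a0 (p _ _) n0
      (by linarith),
    step_Q5 (C' := Cb) (c _ _ _ hg per_one hh) ?_ hC0.le a0 (p _ _) n0 (by linarith),
    step_Q5 (c _ _ _ per_one hh per_one)
      (ho N M₁ M₂ M₃ S₁ S₂ S₃ e₁ e₂ e₃ h hN k1 k2 k3 k7 hh) hC0.le a0 (by positivity) n0
      (by linarith),
    step_Q5 (C' := Co) (c _ _ _ per_one per_one hh) ?_ hC0.le a0 (by positivity) n0 (by linarith)⟩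
  · rw [hS _ _ _ _ _ _ _ _ _ _ hg per_one hh, ← PB4_inv_Q5]
    exact hb N M₁ M₃ S₂ S₁ S₃ e₂ e₁ e₃ Δ _ h hN k1 k3 k7 k6 k8 d1 hd hg.inv hh
  · rw [hS _ _ _ _ _ _ _ _ _ _ per_one per_one hh]
    exact ho N M₂ M₁ M₃ S₂ S₁ S₃ e₂ e₁ e₃ h hN k2 k1 k3 k6 hh

end Pool.Agent.MP_2a1f0e_nt.GM4

end

section

set_option autoImplicit false

open Finset

namespace Pool.Agent.MP_2a1f0e_nt.GM4

open GM GM2 GM3

lemma img_TVa {e : ℝ} (he : Sg e) (S : Finset ℕ) : ∃ T : Finset ℤ,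
    (∀ f : ℝ → ℝ, ∑ n ∈ S, f (e * n) = ∑ m ∈ T, f m) ∧
      ∀ m ∈ T, ∃ n ∈ S, m = n ∨ m = -(n : ℤ) := by
  rcases he with rfl | rfl
  · refine ⟨S.image fun n : ℕ => (n : ℤ), fun f => ?_, fun m hm => ?_⟩
    · rw [sum_image fun _ _ _ _ h => Nat.cast_injective h]
      simp
    · obtain ⟨n, hn, rfl⟩ := mem_image.1 hm
      exact ⟨n, hn, Or.inl rfl⟩
  · refine ⟨S.image fun n : ℕ => -(n : ℤ), fun f => ?_, fun m hm => ?_⟩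
    · rw [sum_image fun _ _ _ _ h => Nat.cast_injective (neg_injective h)]
      simp
    · obtain ⟨n, hn, rfl⟩ := mem_image.1 hm
      exact ⟨n, hn, Or.inr rfl⟩

lemma sub_TVa {e : ℝ} (he : Sg e) {M : ℕ} {S : Finset ℕ} (h : Dy M S) {f : ℝ → ℝ}
    (hf : ∀ x, 0 ≤ f x) : ∑ n ∈ S, f (e * n) ≤ ∑ m ∈ Ms (2 * M), f m := by
  obtain ⟨T, h1, h2⟩ := img_TVa he S
  rw [h1]
  refine sum_le_sum_of_subset_of_nonneg (fun m hm => ?_) fun _ _ _ => hf _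
  obtain ⟨n, hn, h3⟩ := h2 m hm
  have h4 := mem_Ico.1 (h.2 hn)
  have h5 := h.1
  rw [mem_Ms]
  omega

lemma wide_TVa {f : ℝ → ℝ} (h0 : ∀ v, 0 ≤ f v)
    (h : IntervalIntegrable f MeasureTheory.volume (1 / 144) (1 / 144 + 144)) :
    ∫ v in (1 / 12 : ℝ)..12, f v ≤ IW f :=
  intervalIntegral.integral_mono_interval (by norm_num) (by norm_num) (by norm_num)
    (MeasureTheory.ae_of_all _ h0) h

lemma IW_nonneg_TVa {f : ℝ → ℝ} (h0 : ∀ v, 0 ≤ f v) : 0 ≤ IW f :=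
  intervalIntegral.integral_nonneg (by norm_num) fun v _ => h0 v

lemma box_TVa {G : ℝ → ℝ → ℝ} (hG : CQ G) (h0 : ∀ v w, 0 ≤ G v w) :
    ∫ v in (1 / 12 : ℝ)..12, ∫ w in (1 / 12 : ℝ)..12, G v w ≤ IW fun v => IW fun w => G v w :=
  (intervalIntegral.integral_mono_on (by norm_num)
    (int_z hG (by norm_num) (by norm_num) (by norm_num) (by norm_num))
    (int_z hG (by norm_num) (by norm_num) (by norm_num) (by norm_num)) fun v hv =>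
      wide_TVa (h0 v) (int_w hG (lt_of_lt_of_le (by norm_num) hv.1) (by norm_num)
        (by norm_num))).trans
    (wide_TVa (fun v => IW_nonneg_TVa (h0 v))
      (int_z hG (by norm_num) (by norm_num) (by norm_num) (by norm_num)))

lemma Icc_TVa : Set.Icc (1 / 144 : ℝ) (1 / 144 + 144) ⊆ Set.Ioi 0 := fun _ hx =>
  lt_of_lt_of_le (by norm_num) hx.1

theorem tva_stmt (hM : PhMajStmt) (hP : PairWStmt) (hI : IWStmt) : TVaStmt := by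
  obtain ⟨C₁, c₁, hM⟩ := hM
  obtain ⟨C₂, c₂, hP⟩ := hP
  obtain ⟨C₃, c₃, hI⟩ := hI
  refine ⟨C₁ * C₂ * (4 * C₃ ^ 2 + 2 * C₃), by positivity,
    fun N M₁ M₂ S₁ S₂ S₃ e₁ e₂ e₃ Δ g h hN d1 d2 s1 s2 s3 D1 D2 hg hh => ?_⟩
  have cgh : CQ fun v w => g v * h w :=
    CQ.mul (hg.1.comp continuousOn_fst fun _ hx => hx.1)
      (hh.1.comp continuousOn_snd fun _ hx => hx.2)
  have cR : CQ fun v w => g v * h w *
      ∑ m ∈ Ms (2 * M₁), ∑ m' ∈ Ms (2 * M₂), Ph N ((m : ℝ) * v + (m' : ℝ) * w) :=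
    cgh.mul (cq_sum _ fun _ _ => cq_sum _ fun _ _ =>
      ((continuous_Ph N).comp (by fun_prop)).continuousOn)
  have a1 : TV N S₁ S₂ S₃ e₁ e₂ e₃ (fun _ => 1) g h ≤
      ∫ v in (1 / 12 : ℝ)..12, ∫ w in (1 / 12 : ℝ)..12, C₁ * (g v * h w *
        ∑ m ∈ Ms (2 * M₁), ∑ m' ∈ Ms (2 * M₂), Ph N ((m : ℝ) * v + (m' : ℝ) * w)) := by
    simp only [TV, one_mul]
    refine box_mono (cgh.mul (cq_sum _ fun _ _ => cq_sum _ fun _ _ => cq_sum _ fun _ _ =>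
      cq_kp _ _ _ _)) ((cq_const _).mul cR) (by norm_num) (by norm_num) (by norm_num)
      (by norm_num) fun v _ w _ => ?_
    rw [mul_left_comm]
    refine mul_le_mul_of_nonneg_left ?_ (mul_nonneg (hg.2.1 v) (hh.2.1 w))
    obtain ⟨T, h1, -⟩ := img_TVa s3 S₃
    refine le_trans ?_ (mul_le_mul_of_nonneg_left (sub_TVa s1 d1
      (f := fun x => ∑ m' ∈ Ms (2 * M₂), Ph N (x * v + (m' : ℝ) * w))
      fun x => sum_nonneg fun _ _ => Ph_nonneg _ _) c₁.le)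
    rw [mul_sum]
    refine sum_le_sum fun n₁ _ => le_trans ?_ (mul_le_mul_of_nonneg_left (sub_TVa s2 d2
      (f := fun x => Ph N (e₁ * n₁ * v + x * w)) fun x => Ph_nonneg _ _) c₁.le)
    rw [mul_sum]
    refine sum_le_sum fun n₂ _ => ?_
    rw [h1 fun x => kp (N * (e₁ * n₁ * v + e₂ * n₂ * w + x))]
    exact hM N hN _ T
  simp only [intervalIntegral.integral_const_mul] at a1
  have a2 := (box_TVa cR fun v w => mul_nonneg (mul_nonneg (hg.2.1 v) (hh.2.1 w))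
    (sum_nonneg fun _ _ => sum_nonneg fun _ _ => Ph_nonneg _ _)).trans
    (hP N _ _ Δ hN D1 D2 g h (hg.1.mono Icc_TVa) (hh.1.mono Icc_TVa) hg.2.1 hh.2.1)
  have hΔ : 0 ≤ Δ := zero_le_one.trans D1.1
  have g0 := hg.mo_nonneg
  have h0 := hh.mo_nonneg
  have h0' := IW_nonneg_TVa hh.2.1
  have b1 := (hI g hg).1
  have b2 := (hI h hh).1
  have b3 : √(IW fun v => g v ^ 2) ≤ √C₃ * √(mo fun v => g v ^ 2) := by
    rw [← Real.sqrt_mul c₃.le]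
    exact Real.sqrt_le_sqrt (hI _ (hg.pow 2)).1
  have b4 : √(IW fun v => h v ^ 2) ≤ √C₃ * √(mo fun v => h v ^ 2) := by
    rw [← Real.sqrt_mul c₃.le]
    exact Real.sqrt_le_sqrt (hI _ (hh.pow 2)).1
  have b5 : √(((2 * M₁ : ℕ) : ℝ) * (2 * M₂ : ℕ)) = 2 * √((M₁ : ℝ) * M₂) := by
    rw [show ((2 * M₁ : ℕ) : ℝ) * (2 * M₂ : ℕ) = 2 ^ 2 * ((M₁ : ℝ) * M₂) by push_cast; ring,
      Real.sqrt_mul (by positivity), Real.sqrt_sq zero_le_two]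
  have b6 : √C₃ * √C₃ = C₃ := Real.mul_self_sqrt c₃.le
  rw [b5] at a2
  refine a1.trans ?_
  rw [mul_assoc, mul_assoc]
  refine mul_le_mul_of_nonneg_left (a2.trans (mul_le_mul_of_nonneg_left ?_ c₂.le)) c₁.le
  unfold PB4
  generalize √(mo fun v => g v ^ 2) = x at b3 ⊢
  generalize √(mo fun v => h v ^ 2) = y at b4 ⊢
  have x0 : 0 ≤ √C₃ * x := (Real.sqrt_nonneg _).trans b3
  have y0 : 0 ≤ √C₃ * y := (Real.sqrt_nonneg _).trans b4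
  have u0 : 0 ≤ (M₁ : ℝ) * M₂ * mo g * mo h / N := by positivity
  have u1 : 0 ≤ √((M₁ : ℝ) * M₂) * Δ / N * (√C₃ * x) * (√C₃ * y) := by positivity
  have u2 : √((M₁ : ℝ) * M₂) * Δ / N * (√C₃ * x) * (√C₃ * y) =
      C₃ * (√((M₁ : ℝ) * M₂) * Δ * x * y / N) := by
    linear_combination √((M₁ : ℝ) * M₂) * Δ * x * y / N * b6
  calc _ ≤ ((2 * M₁ : ℕ) : ℝ) * (2 * M₂ : ℕ) / N * (C₃ * mo g) * (C₃ * mo h) +
        2 * √((M₁ : ℝ) * M₂) * Δ / N * (√C₃ * x) * (√C₃ * y) := by gcongr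
    _ = 4 * C₃ ^ 2 * ((M₁ : ℝ) * M₂ * mo g * mo h / N) +
        2 * (C₃ * (√((M₁ : ℝ) * M₂) * Δ * x * y / N)) := by
      rw [← u2]
      push_cast
      ring
    _ ≤ _ := by
      rw [u2] at u1
      have u3 := mul_nonneg c₃.le u0
      have u4 := mul_nonneg c₃.le u1
      rw [add_div]
      linarith

lemma one_TVa {N M n : ℕ} (hN : 1 ≤ N) (hM : 1 ≤ M) (hn : M ≤ n) {e : ℝ} (he : Sg e) (a b : ℝ) :
    ∫ w in (1 / 12 : ℝ)..12, kp ((N : ℝ) * (a + e * n * w + b)) ≤ 4 / (N * M) := by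
  have n0 : (0 : ℝ) < n := by exact_mod_cast hM.trans hn
  obtain ⟨k1, k2⟩ := kp_Shear (L := (N : ℝ) * n) (by positivity) (e * (a + b) / n)
  have e1 : ∀ w : ℝ, kp ((N : ℝ) * (a + e * n * w + b)) =
      kp ((N : ℝ) * n * (w + e * (a + b) / n)) := fun w => by
    unfold kp
    rcases he with rfl | rfl <;> field_simp <;> ring
  simp only [e1]
  rw [intervalIntegral.integral_of_le (by norm_num)]
  refine ((MeasureTheory.setIntegral_le_integral k1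
    (MeasureTheory.ae_of_all _ fun w => (kp_pos _).le)).trans k2).trans ?_
  gcongr

theorem tvo_stmt (hI : IWStmt) : TVoStmt := by
  obtain ⟨C, c, hI⟩ := hI
  refine ⟨4 * C, by positivity, fun N M₁ M₂ M₃ S₁ S₂ S₃ e₁ e₂ e₃ h hN d1 d2 d3 s2 hh => ?_⟩
  have N0 : (0 : ℝ) < N := by exact_mod_cast hN
  have M0 : (0 : ℝ) < M₂ := by exact_mod_cast d2.1
  have ik : ∀ a b c : ℝ, Continuous fun w : ℝ => kp ((N : ℝ) * (a + b * w + c)) :=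
    fun a b c => continuous_kp.comp (by fun_prop)
  have a1 : ∀ v : ℝ, ∫ w in (1 / 12 : ℝ)..12, ∑ n₁ ∈ S₁, ∑ n₂ ∈ S₂, ∑ n₃ ∈ S₃,
      kp ((N : ℝ) * (e₁ * n₁ * v + e₂ * n₂ * w + e₃ * n₃)) ≤ 4 * (M₁ * M₃ / N) := fun v => by
    rw [intervalIntegral.integral_finsetSum fun _ _ => (continuous_finsetSum _ fun _ _ =>
      continuous_finsetSum _ fun _ _ => ik _ _ _).intervalIntegrable _ _]
    refine (sum_le_card_nsmul _ _ (S₂.card • S₃.card • (4 / (N * M₂) : ℝ)) fun n₁ _ => ?_).trans ?_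
    · rw [intervalIntegral.integral_finsetSum fun _ _ =>
        (continuous_finsetSum _ fun _ _ => ik _ _ _).intervalIntegrable _ _]
      refine sum_le_card_nsmul _ _ _ fun n₂ h₂ => ?_
      rw [intervalIntegral.integral_finsetSum fun _ _ => (ik _ _ _).intervalIntegrable _ _]
      exact sum_le_card_nsmul _ _ _ fun n₃ _ => one_TVa hN d2.1 (mem_Ico.1 (d2.2 h₂)).1 s2 _ _
    · simp only [nsmul_eq_mul]
      calc _ ≤ (M₁ : ℝ) * (M₂ * (M₃ * (4 / (N * M₂)))) := by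
            gcongr
            exacts [d1.card_le, d2.card_le, d3.card_le]
        _ = _ := by field_simp
  simp only [TV, one_mul, mul_one, intervalIntegral.integral_const_mul]
  refine (mono_Sym (g := fun v => 4 * (M₁ * M₃ / N) * h v) (by norm_num)
    (fun v => mul_nonneg (hh.2.1 v) (intervalIntegral.integral_nonneg (by norm_num) fun w _ =>
      sum_nonneg fun _ _ => sum_nonneg fun _ _ => sum_nonneg fun _ _ => (kp_pos _).le))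
    (continuousOn_const.mul (hh.1.mono fun x hx => lt_of_lt_of_le (by norm_num) hx.1))
    fun v _ => (mul_le_mul_of_nonneg_left (a1 v) (hh.2.1 v)).trans_eq (mul_comm _ _)).trans ?_
  rw [intervalIntegral.integral_const_mul]
  refine (mul_le_mul_of_nonneg_left ((wide_TVa hh.2.1
    ((hh.1.mono Icc_TVa).intervalIntegrable_of_Icc (by norm_num))).trans (hI h hh).1)
    (by positivity)).trans_eq (by ring)

end Pool.Agent.MP_2a1f0e_nt.GM4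

end

section

set_option autoImplicit false
open Finset
namespace Pool.Agent.MP_2a1f0e_nt.GM4
open GM GM2 GM3

lemma tp_Wt4 {R : ℕ} {J g : ℝ → ℝ} {c : ℤ → ℂ}
    (hJ : ∀ t, (J t : ℂ) = ∑ j ∈ Io R, c j * Complex.exp (Complex.I * j * t)) (hg : Per g) :
    ∃ d : ℤ → ℂ, TP R (fun x =>
      ((∫ t in (-Real.pi)..Real.pi, J t * g (x * Real.exp (-t)) : ℝ) : ℂ)) d := by
  let F : ℤ → ℝ → ℂ := fun j s => Complex.exp (Complex.I * j * s) * (g (Real.exp (-s)) : ℂ)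
  have hc : ∀ j, Continuous (F j) := fun j =>
    (by fun_prop : Continuous fun s : ℝ => Complex.exp (Complex.I * j * s)).mul
      (Complex.continuous_ofReal.comp (hg.cont.comp continuous_neg))
  have hp : ∀ j, Function.Periodic (F j) (2 * Real.pi) := fun j s => by
    have h1 : g (Real.exp (-(s + 2 * Real.pi))) = g (Real.exp (-s)) := by
      have := hg.periodic (-(s + 2 * Real.pi))
      rw [show -(s + 2 * Real.pi) + 2 * Real.pi = -s by ring] at this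
      exact this.symm
    have h2 : Complex.I * j * ((s + 2 * Real.pi : ℝ) : ℂ) =
        Complex.I * j * s + j * (2 * Real.pi * Complex.I) := by
      push_cast
      ring
    simp only [F, h1, h2, Complex.exp_add, Complex.exp_int_mul_two_pi_mul_I, mul_one]
  refine ⟨fun j => c j * ∫ s in (-Real.pi)..Real.pi, F j s, fun x hx => ?_⟩
  have h3 : ∀ t : ℝ, ((J t * g (x * Real.exp (-t)) : ℝ) : ℂ) =
      ∑ j ∈ Io R, c j * pw x j * F j (t + -Real.log x) := by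
    intro t
    have h4 : Real.exp (-(t + -Real.log x)) = x * Real.exp (-t) := by
      rw [neg_add, neg_neg, Real.exp_add, Real.exp_log hx, mul_comm]
    have h5 : ∀ j : ℤ, pw x j * Complex.exp (Complex.I * j * ((t + -Real.log x : ℝ) : ℂ)) =
        Complex.exp (Complex.I * j * t) := fun j => by
      rw [pw, ← Complex.exp_add]
      congr 1
      push_cast
      ring
    rw [Complex.ofReal_mul, hJ, sum_mul]
    refine sum_congr rfl fun j _ => ?_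
    simp only [F, h4]
    rw [← h5]
    ring
  beta_reduce
  rw [← intervalIntegral.integral_ofReal]
  simp only [h3]
  rw [intervalIntegral.integral_finsetSum fun j _ =>
    Continuous.intervalIntegrable (by have := hc j; fun_prop) _ _]
  refine sum_congr rfl fun j _ => ?_
  rw [intervalIntegral.integral_const_mul, shift_per (hp j)]
  ring

lemma tan_Wt4 {J w F : ℝ → ℝ} {C : ℝ} (hJ : Continuous J) (hw : Continuous w) (hF : Continuous F)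
    (h0 : ∀ t, 0 ≤ J t) (h1 : ∫ t in (-Real.pi)..Real.pi, J t = 1)
    (h2 : ∫ t in (-Real.pi)..Real.pi, J t * w t ≤ C) (α β : ℝ) {b : ℝ} (hb : 0 ≤ b)
    (h : ∀ t, α + β * F t ≤ b * w t) :
    α + β * ∫ t in (-Real.pi)..Real.pi, J t * F t ≤ b * C := by
  have i1 : Continuous fun t => α * J t := continuous_const.mul hJ
  have i2 : Continuous fun t => β * (J t * F t) := continuous_const.mul (hJ.mul hF)
  have i3 : Continuous fun t => b * (J t * w t) := continuous_const.mul (hJ.mul hw)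
  have h3 : ∫ t in (-Real.pi)..Real.pi, (α * J t + β * (J t * F t)) ≤
      ∫ t in (-Real.pi)..Real.pi, b * (J t * w t) :=
    intervalIntegral.integral_mono_on neg_pi_le ((i1.add i2).intervalIntegrable _ _)
      (i3.intervalIntegrable _ _) fun t _ => by
        have := mul_le_mul_of_nonneg_left (h t) (h0 t)
        linarith
  rw [intervalIntegral.integral_add (i1.intervalIntegrable _ _) (i2.intervalIntegrable _ _),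
    intervalIntegral.integral_const_mul, intervalIntegral.integral_const_mul,
    intervalIntegral.integral_const_mul, h1, mul_one] at h3
  exact h3.trans (mul_le_mul_of_nonneg_left h2 hb)

lemma inv_Wt4 {p q : ℝ} (hp : 0 < p) (hq : 0 < q) : 3 / p ^ 2 + -2 / p ^ 3 * q ≤ 1 / q ^ 2 := by
  have : 1 / q ^ 2 - (3 / p ^ 2 + -2 / p ^ 3 * q) = (p - q) ^ 2 * (p + 2 * q) / (p ^ 3 * q ^ 2) := by
    field_simp
    ring
  rw [← sub_nonneg, this]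
  positivity

theorem wt_stmt (hJ : JackStmt) (hR : RepStmt) (hM : ModStmt) (hC : CvStmt) (hH : HtpStmt) :
    WtStmt := by
  obtain ⟨CJ, hCJ, hJ⟩ := hJ
  obtain ⟨CR, hCR, hR⟩ := hR
  obtain ⟨CC, -, hC⟩ := hC
  have hp := mul_pos hCR hCJ
  refine ⟨1 + 2 * (CR * CJ) + 2 * CJ, by linarith, fun L ν S H hL hS' hH0 => ?_⟩
  obtain ⟨J, c, j1, j2, j3, j4⟩ := hJ (2 * L) (by omega)
  obtain ⟨p1, ⟨c', p2⟩, -⟩ := hH L ν S hS'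
  set h := hS L ν S with hh
  set k := cv (2 * L) h with hk
  have p3 : Per k := (hC (2 * L) h p1).1
  have cJ : Continuous J := by
    have : J = fun t : ℝ => (∑ j ∈ Io (2 * (2 * L)), c j * Complex.exp (Complex.I * j * t)).re :=
      funext fun t => by rw [← j1, Complex.ofReal_re]
    rw [this]
    fun_prop
  set w : ℝ → ℝ := fun t => 1 + ((2 * L : ℕ) : ℝ) ^ 2 * ch t with hw
  have cw : Continuous w := continuous_const.add (continuous_const.mul continuous_ch)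
  have w0 : ∀ t, 0 ≤ w t := fun t => by
    have := ch_nonneg t
    positivity
  let q : ℝ → ℝ := fun v => √(H / (H + |k v|))
  have pq : Per q := p3.comp (F := fun s => √(H / (H + |s|)))
    ((continuous_const.div (continuous_const.add continuous_abs) fun s =>
      (add_pos_of_pos_of_nonneg hH0 (abs_nonneg s)).ne').sqrt)
    fun _ _ => Real.sqrt_nonneg _
  have q0 : ∀ v, 0 < q v := fun v => Real.sqrt_pos.2 (by positivity)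
  have q2 : ∀ v, q v ^ 2 = H / (H + k v) := fun v => by
    rw [Real.sq_sqrt (by positivity), abs_of_nonneg (p3.2.1 v)]
  have q1 : ∀ v, q v ≤ 1 := fun v =>
    Real.sqrt_le_one.2 ((div_le_one (by positivity)).2 (le_add_of_nonneg_right (abs_nonneg _)))
  have m2 : ∀ x, 0 < x → ∀ t, k (x * Real.exp (-t)) ≤ 2 * w t * k x := fun x hx t => by
    have := hM (2 * L) h p1 (x * Real.exp (-t)) (mul_pos hx (Real.exp_pos _)) (-t)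
    rwa [ch_neg, mul_assoc x, ← Real.exp_add, neg_neg, neg_add_cancel, Real.exp_zero,
      mul_one] at this
  have T := fun x (hx : 0 < x) => tan_Wt4 cJ cw (pq.cont_mul hx) j2 j3 j4
  have pos : ∀ x, 0 < x → 0 < ∫ t in (-Real.pi)..Real.pi, J t * q (x * Real.exp (-t)) := by
    intro x hx
    have k0 := p3.2.1 x
    have h1 := T x hx (H / (H + 2 * (1 + ((2 * L : ℕ) : ℝ) ^ 2 * 4) * k x)) (-1) le_rfl fun t => by
      have a1 : ch t ≤ 4 := by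
        unfold ch
        linarith [Real.neg_one_le_cos t]
      have a2 : k (x * Real.exp (-t)) ≤ 2 * (1 + ((2 * L : ℕ) : ℝ) ^ 2 * 4) * k x := by
        refine (m2 x hx t).trans ?_
        simp only [hw]
        gcongr
      have a3 := p3.2.1 (x * Real.exp (-t))
      have a4 : H / (H + 2 * (1 + ((2 * L : ℕ) : ℝ) ^ 2 * 4) * k x) ≤
          q (x * Real.exp (-t)) ^ 2 := by
        rw [q2]
        gcongr
      have a5 := pow_le_of_le_one (q0 (x * Real.exp (-t))).le (q1 _) two_ne_zero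
      linarith
    have h2 : 0 < H / (H + 2 * (1 + ((2 * L : ℕ) : ℝ) ^ 2 * 4) * k x) := by positivity
    linarith
  refine ⟨fun x => ∫ t in (-Real.pi)..Real.pi, J t * q (x * Real.exp (-t)),
    ⟨?_, fun x hx => ⟨pos x hx, ?_, ?_⟩⟩, fun x hx => ?_⟩
  · rw [show 4 * L = 2 * (2 * L) by ring]
    exact tp_Wt4 j1 pq
  · have := T x hx (-1) 1 le_rfl fun t => by linarith [q1 (x * Real.exp (-t))]
    linarith
  · beta_reduce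
    set p := ∫ t in (-Real.pi)..Real.pi, J t * q (x * Real.exp (-t)) with hp'
    have h0 := p1.2.1 x
    have := T x hx (-(p ^ 2 * h x)) (2 * p * h x) (b := 2 * CR * H) (by positivity) fun t => by
      have a1 : h x ≤ CR * (2 * w t * k (x * Real.exp (-t))) :=
        (hR (2 * L) (by omega) h c' p2 p1.2.1 x hx).trans
          (mul_le_mul_of_nonneg_left (hM (2 * L) h p1 x hx t) hCR.le)
      have a3 := p3.2.1 (x * Real.exp (-t))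
      have a2 : q (x * Real.exp (-t)) ^ 2 * k (x * Real.exp (-t)) ≤ H := by
        rw [q2, div_mul_eq_mul_div, div_le_iff₀ (by positivity)]
        nlinarith
      have a4 := mul_le_mul_of_nonneg_left a1 (sq_nonneg (q (x * Real.exp (-t))))
      have a5 := mul_le_mul_of_nonneg_left a2 (mul_nonneg hCR.le (w0 t))
      have a6 := mul_nonneg (sq_nonneg (q (x * Real.exp (-t)) - p)) h0
      linarith
    rw [← hp'] at this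
    have a7 := mul_pos hCJ hH0
    linarith
  · beta_reduce
    have p0 := pos x hx
    set p := ∫ t in (-Real.pi)..Real.pi, J t * q (x * Real.exp (-t)) with hp'
    have k0 := p3.2.1 x
    have := T x hx (3 / p ^ 2 - 1) (-2 / p ^ 3) (b := 2 * (k x / H)) (by positivity) fun t => by
      have a1 := inv_Wt4 p0 (q0 (x * Real.exp (-t)))
      rw [q2, one_div_div, add_div, div_self hH0.ne'] at a1
      have a2 := div_le_div_of_nonneg_right (m2 x hx t) hH0.le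
      have a3 : 2 * w t * k x / H = 2 * (k x / H) * w t := by ring
      linarith
    rw [← hp'] at this
    have a4 : 3 / p ^ 2 - 1 + -2 / p ^ 3 * p = 1 / p ^ 2 - 1 := by
      field_simp
      ring
    have a5 : 0 ≤ k x / H := by positivity
    have a6 := mul_nonneg hp.le a5
    linarith

end Pool.Agent.MP_2a1f0e_nt.GM4

end
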