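import Pool.Agent.Mg.C853.Gee9e08
import Pool.Agent.Mg.C853.G50a3e6
import Pool.Agent.Mg.C853.G9b677c
import Pool.Agent.Mg.C853.G182092

section

set_option autoImplicit false
open Finset
open scoped ComplexConjugate
namespace Pool.Agent.MP_2a1f0e_nt.RF
open GM

lemma mult_Char {x y g q d : ℝ} (hd : 0 < d) (hq : 0 < q) (hy : 1 ≤ y) (hg : d ≤ g) {k : ℝ}
    (h : x ≤ k * y * (g * q)) : 1 + x / (d * q) ≤ (k + 1) * y * g / d := by
  rw [le_div_iff₀ hd, add_mul, one_mul, div_mul_eq_mul_div, mul_comm x, mul_div_mul_left _ _ hd.ne']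
  have := (div_le_iff₀ hq).2 (h.trans_eq (mul_assoc _ _ _).symm)
  nlinarith

lemma first_Char {E lam g d₁ d₂ φ q N C x B : ℝ} (hE : 1 ≤ E) (hl : 0 < lam) (h₁ : 0 < d₁)
    (h₂ : 0 < d₂) (hg : 0 < g) (hgd : g ≤ d₁ * d₂) (hφ : 0 < φ) (hq : q ≤ φ * E) (hC : 0 < C)
    (hN : N * C ≤ E * (g * q)) (hN0 : 0 ≤ N) (hx : 0 ≤ x) (hB : 0 ≤ B) :
    E * lam * √(2 * E * g / d₁ * (5 * E ^ 3 * g / d₂) / g) +
      √(E * (3 * N * x / d₁) * (5 * E ^ 3 * g / d₂) * B / (φ * g)) ≤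
      8 * E ^ 3 * (lam + x * B / (C * lam)) := by
  have h3 : g / (d₁ * d₂) ≤ 1 := (div_le_one (by positivity)).2 hgd
  have h4 : N / (φ * g) ≤ E ^ 2 / C := by
    rw [div_le_div_iff₀ (by positivity) hC]
    calc _ ≤ E * (g * (φ * E)) := hN.trans (by gcongr)
      _ = _ := by ring
  have a : √(2 * E * g / d₁ * (5 * E ^ 3 * g / d₂) / g) ≤ 4 * E ^ 2 :=
    Real.sqrt_le_iff.2 ⟨by positivity, by
      calc _ = 10 * E ^ 4 * (g / (d₁ * d₂)) := by field_simp; ring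
        _ ≤ 16 * E ^ 4 * 1 := by gcongr; norm_num
        _ = _ := by ring⟩
  have h5 : 0 ≤ x * B / (C * lam) := by positivity
  have b : √(E * (3 * N * x / d₁) * (5 * E ^ 3 * g / d₂) * B / (φ * g)) ≤
      4 * E ^ 3 * (lam + x * B / (C * lam)) :=
    Real.sqrt_le_iff.2 ⟨by positivity, by
      calc _ = 15 * E ^ 4 * (x * B) * (g / (d₁ * d₂)) * (N / (φ * g)) := by field_simp; ring
        _ ≤ 16 * E ^ 4 * (x * B) * 1 * (E ^ 2 / C) := by gcongr; norm_num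
        _ = (4 * E ^ 3) ^ 2 * (lam * (x * B / (C * lam))) := by field_simp; ring
        _ ≤ (4 * E ^ 3) ^ 2 * (lam + x * B / (C * lam)) ^ 2 := by
          gcongr
          nlinarith [mul_nonneg hl.le h5]
        _ = _ := by ring⟩
  have c : E * lam * √(2 * E * g / d₁ * (5 * E ^ 3 * g / d₂) / g) ≤
      4 * E ^ 3 * (lam + x * B / (C * lam)) :=
    calc _ ≤ E * (lam + x * B / (C * lam)) * (4 * E ^ 2) := by gcongr; linarith
      _ = _ := by ring
  linarith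

lemma second_Char {E lam g d₁ d₂ Q J e a b : ℝ} (hE : 1 ≤ E) (hl : 0 < lam) (h₁ : 0 < d₁)
    (h₂ : 0 < d₂) (hg : 0 < g) (hgd : g ≤ d₁ * d₂) (hJ : J ≤ lam ^ 2)
    (he : (e * Q) ^ 2 ≤ E ^ 4 * (g * J)) (ha0 : 0 ≤ a) (hb0 : 0 ≤ b) (ha : a ≤ 3 * (E * Q) / d₁)
    (hb : b ≤ E * (4 * (E ^ 2 * Q) / d₂)) : |e| * (√a * √b) ≤ 4 * E ^ 4 * lam := by
  have h3 : g / (d₁ * d₂) ≤ 1 := (div_le_one (by positivity)).2 hgd
  refine (abs_le_of_sq_le_sq' ?_ (by positivity)).2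
  rw [mul_pow, mul_pow, Real.sq_sqrt ha0, Real.sq_sqrt hb0, sq_abs]
  calc _ ≤ e ^ 2 * (3 * (E * Q) / d₁ * (E * (4 * (E ^ 2 * Q) / d₂))) :=
        mul_le_mul_of_nonneg_left (mul_le_mul ha hb hb0 (ha0.trans ha)) (sq_nonneg _)
    _ = 12 * E ^ 4 * (e * Q) ^ 2 / (d₁ * d₂) := by field_simp; ring
    _ ≤ 12 * E ^ 4 * (E ^ 4 * (g * lam ^ 2)) / (d₁ * d₂) := by
        gcongr
        exact he.trans (by gcongr)
    _ = 12 * (E ^ 4 * lam) ^ 2 * (g / (d₁ * d₂)) := by ring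
    _ ≤ 16 * (E ^ 4 * lam) ^ 2 * 1 := by gcongr; norm_num
    _ = _ := by ring

lemma cs_Char {ι : Type} (s : Finset ι) (α : ι → ℂ) :
    ‖∑ i ∈ s, α i‖ ≤ √(s.card : ℝ) * √(∑ i ∈ s, ‖α i‖ ^ 2) := by
  rw [← Real.sqrt_mul (Nat.cast_nonneg _)]
  exact (norm_sum_le _ _).trans (Real.le_sqrt_of_sq_le sq_sum_le_card_mul_sum_sq)

lemma err_Char (hP : PrinStmt) {q g J : ℕ} {E : ℝ} (hq : 1 ≤ q) (hg : 1 ≤ g) (hE : 1 ≤ E)
    (h : (q.divisors.card : ℝ) ≤ E) :
    (((cop (J / g) q : ℝ) / q.totient - (J : ℝ) / (g * q)) * (g * q)) ^ 2 ≤ E ^ 4 * (g * J) := by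
  have h0 : (0 : ℝ) < q := Nat.cast_pos.2 hq
  have h1 : (0 : ℝ) < g := Nat.cast_pos.2 hg
  rcases le_or_gt g J with hJ | hJ
  · have h2 := (le_div_iff₀ h0).1 ((hP q J g hq hg).2.trans
      (div_le_div_of_nonneg_right (pow_le_pow_left₀ (Nat.cast_nonneg _) h 2) h0.le))
    have h3 : (g : ℝ) ≤ J := Nat.cast_le.2 hJ
    rw [← sq_abs, abs_mul, abs_of_pos (mul_pos h1 h0), mul_left_comm]
    calc _ ≤ (g * E ^ 2) ^ 2 := by gcongr
      _ = E ^ 4 * (g * g) := by ring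
      _ ≤ _ := by gcongr
  · have h3 : (J : ℝ) ≤ g := Nat.cast_le.2 hJ.le
    rw [Nat.div_eq_of_lt hJ, show cop 0 q = 0 from rfl, Nat.cast_zero, zero_div, zero_sub, neg_mul,
      neg_sq, div_mul_cancel₀ _ (mul_pos h1 h0).ne', sq]
    exact (mul_le_mul_of_nonneg_right h3 (Nat.cast_nonneg J)).trans
      (le_mul_of_one_le_left (by positivity) (one_le_pow₀ hE))

lemma block_Char (hB : BlockStmt) (hR : RedStmt) (hC : CountStmt) (hP : PrinStmt)
    {N J C C' c Q d₁ d₂ : ℕ} {E lam : ℝ} (α : ℕ → ℂ) (β : ℕ × ℕ → ℂ) (hN : 1 ≤ N) (hC1 : 1 ≤ C)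
    (hC' : 1 ≤ C') (hCE : (C' : ℝ) ≤ E * C) (hc : C ≤ c) (hQ : 1 ≤ Q)
    (hNQ : (N : ℝ) * c ≤ E * Q) (hD : DivB (4 * N * C') E) (hD' : DivB Q E) (hl : 0 < lam)
    (hJ : (J : ℝ) ≤ lam ^ 2) (h₁ : d₁ ∣ Q) (h₂ : d₂ ∣ Q) {s : Finset ℕ} {s' : Finset (ℕ × ℕ)}
    (hs : s ⊆ Icc N (2 * N)) (hs' : s' ⊆ Ico C' (2 * C') ×ˢ Icc N (2 * N))
    (e₁ : ∀ x ∈ s, Nat.gcd (c * x) Q = d₁) (e₂ : ∀ a ∈ s', Nat.gcd (a.1 * a.2) Q = d₂) :
    ‖∑ x ∈ s, ∑ a ∈ s', (((cnt J Q (c * a.1 * x * a.2) : ℝ) - (J : ℝ) / Q : ℝ) : ℂ) *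
      (α x * β a)‖ ≤ √(∑ x ∈ s, ‖α x‖ ^ 2) * √(∑ a ∈ s', ‖β a‖ ^ 2) *
        (12 * E ^ 4 * (lam + Nat.gcd c Q * BadQ J lam Q / (C * lam))) := by
  have hE := hD.1
  have red : ∀ X Z, Nat.gcd X Q = d₁ → Nat.gcd Z Q = d₂ → _ := fun X Z a b => by
    have := hR J Q X Z hQ
    rw [a, b] at this
    exact this
  have g₁ := Nat.gcd_eq_left h₁
  have g₂ := Nat.gcd_eq_left h₂
  have p₁ := Nat.pos_of_dvd_of_pos h₁ hQ
  have p₂ := Nat.pos_of_dvd_of_pos h₂ hQ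
  have k₁ : d₁ ∣ Nat.gcd (d₁ * d₂) Q := Nat.dvd_gcd (dvd_mul_right _ _) h₁
  have k₂ : d₂ ∣ Nat.gcd (d₁ * d₂) Q := Nat.dvd_gcd (dvd_mul_left _ _) h₂
  have k₃ := Nat.gcd_le_left Q (Nat.mul_pos p₁ p₂)
  have k₄ := Nat.mul_div_cancel' (Nat.gcd_dvd_right (d₁ * d₂) Q)
  generalize Nat.gcd (d₁ * d₂) Q = g at red k₁ k₂ k₃ k₄
  generalize Q / g = q at red k₄
  have hg : 1 ≤ g := Nat.pos_of_mul_pos_right (k₄ ▸ hQ)
  have hq : 1 ≤ q := Nat.pos_of_mul_pos_left (k₄ ▸ hQ)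
  have hτ := hD'.2 q (Nat.le_of_dvd hQ (Dvd.intro_left _ k₄))
  have eQ : (Q : ℝ) = g * q := by rw [← k₄, Nat.cast_mul]
  have r₁ : (0 : ℝ) < d₁ := Nat.cast_pos.2 p₁
  have r₂ : (0 : ℝ) < d₂ := Nat.cast_pos.2 p₂
  have rg : (0 : ℝ) < g := Nat.cast_pos.2 hg
  have rq : (0 : ℝ) < q := Nat.cast_pos.2 hq
  have rC : (0 : ℝ) < C := Nat.cast_pos.2 hC1
  have rk : (g : ℝ) ≤ d₁ * d₂ := by exact_mod_cast k₃
  have n₀ : (N : ℝ) * C ≤ E * Q := le_trans (by gcongr) hNQ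
  have n₁ : (N : ℝ) * Nat.gcd c Q ≤ E * Q := by
    have := Nat.gcd_le_left Q (hC1.trans hc)
    exact le_trans (by gcongr) hNQ
  have n₂ : (N : ℝ) * C' ≤ E ^ 2 * Q :=
    calc _ ≤ N * (E * C) := by gcongr
      _ = E * (N * C) := by ring
      _ ≤ E * (E * Q) := by gcongr
      _ = _ := by ring
  have c₁ := fun t (ht : t ⊆ s) => hC.1 N c Q d₁ q t hN (hC1.trans hc) hQ
    (k₄ ▸ Nat.mul_dvd_mul_right k₁ q) (ht.trans hs) fun x hx => e₁ x (ht hx)
  have c₂ := fun t (ht : t ⊆ s') => hC.2.1 N C' d₂ q E t hN hC' p₂ hq hD (ht.trans hs')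
    fun a ha => e₂ a (ht ha) ▸ Nat.gcd_dvd_left _ _
  have b₁ := hB q g J (d₁ * d₂ / g) _ _ s s' (fun x => c * x / d₁) (fun a => a.1 * a.2 / d₂) α β
    (2 * E * g / d₁) (5 * E ^ 3 * g / d₂) _ E lam hq hg hl hτ (red _ _ g₁ g₂).2.1
    (fun x hx => (red _ _ (e₁ x hx) g₂).2.2.1) (fun a ha => (red _ _ g₁ (e₂ a ha)).2.2.2)
    (c₁ s Subset.rfl).1
    (fun t ht h => ((c₁ t ht).2 h).trans ((mult_Char (k := 1) r₁ rq hE
      (Nat.cast_le.2 (Nat.le_of_dvd hg k₁)) (by rwa [one_mul, ← eQ])).trans_eq (by ring)))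
    (fun t ht h => ((c₂ t ht).2 h).trans ((mul_le_mul_of_nonneg_left (mult_Char (k := 4) r₂ rq
      (one_le_pow₀ (n := 2) hE) (Nat.cast_le.2 (Nat.le_of_dvd hg k₂)) (by rw [← eQ]; linarith))
      (by linarith)).trans_eq (by ring)))
  rw [k₄] at b₁
  have hX : 0 ≤ Nat.gcd c Q * BadQ J lam Q / (C * lam) := by
    have := BadQ_nonneg J lam Q
    positivity
  have b₂ := first_Char hE hl r₁ r₂ rg rk (Nat.cast_pos.2 (Nat.totient_pos.2 hq))
    ((hP q J g hq hg).1.trans (by gcongr)) rC (eQ ▸ n₀) (Nat.cast_nonneg N)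
    (Nat.cast_nonneg (Nat.gcd c Q)) (BadQ_nonneg J lam Q)
  have b₃ := second_Char hE hl r₁ r₂ rg rk hJ (err_Char hP hq hg hE hτ) (Nat.cast_nonneg s.card)
    (Nat.cast_nonneg s'.card)
    ((c₁ s Subset.rfl).1.trans (by rw [← eQ, mul_assoc]; gcongr))
    ((c₂ s' Subset.rfl).1.trans (by rw [← eQ, mul_assoc]; gcongr))
  rw [← eQ] at b₃
  have e : ∑ x ∈ s, ∑ a ∈ s', (((cnt J Q (c * a.1 * x * a.2) : ℝ) - (J : ℝ) / Q : ℝ) : ℂ) *
      (α x * β a) = ∑ x ∈ s, ∑ a ∈ s',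
        ((cnt (J / g) q (d₁ * d₂ / g * (c * x / d₁) * (a.1 * a.2 / d₂)) : ℂ) -
          (cop (J / g) q : ℂ) / (q.totient : ℂ)) * (α x * β a) +
      (((cop (J / g) q : ℝ) / q.totient - (J : ℝ) / Q : ℝ) : ℂ) *
        ((∑ x ∈ s, α x) * ∑ a ∈ s', β a) := by
    rw [sum_mul_sum, mul_sum, ← sum_add_distrib]
    refine sum_congr rfl fun x hx => ?_
    rw [mul_sum, ← sum_add_distrib]
    refine sum_congr rfl fun a ha => ?_
    rw [← (red _ _ (e₁ x hx) (e₂ a ha)).1, show c * a.1 * x * a.2 = c * x * (a.1 * a.2) by ring]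
    push_cast
    ring
  rw [e]
  refine (norm_add_le _ _).trans ((add_le_add (b₁.trans (mul_le_mul_of_nonneg_left b₂
    (by positivity))) (show _ ≤ √(∑ x ∈ s, ‖α x‖ ^ 2) * √(∑ a ∈ s', ‖β a‖ ^ 2) *
      (4 * E ^ 4 * lam) from ?_)).trans ?_)
  · rw [norm_mul, norm_mul, Complex.norm_real, Real.norm_eq_abs]
    refine (mul_le_mul_of_nonneg_left (mul_le_mul (cs_Char s α) (cs_Char s' β) (norm_nonneg _)
      (by positivity)) (abs_nonneg _)).trans
      (le_trans (le_of_eq ?_) (mul_le_mul_of_nonneg_left b₃ (by positivity)))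
    ring
  · rw [← mul_add]
    refine mul_le_mul_of_nonneg_left ?_ (by positivity)
    have h3 : E ^ 3 ≤ E ^ 4 := pow_le_pow_right₀ hE (by norm_num)
    nlinarith [mul_le_mul_of_nonneg_right h3 (add_nonneg hl.le hX),
      mul_nonneg (pow_nonneg (zero_le_one.trans hE) 4) hX]

theorem char_stmt (hB : BlockStmt) (hR : RedStmt) (hC : CountStmt) (hP : PrinStmt) :
    CharStmt := by
  refine ⟨12, by norm_num, fun N J C C' W E lam p α β hN hC1 hC' _ hW hCE hp hD hD' hl hJ => ?_⟩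
  obtain ⟨⟨⟨h1, -⟩, h2, h3⟩, h4, -⟩ := mem_Win.1 hp
  have hE := hD.1
  have hD2 : DivB p.2 E := divB_mono hD' h3 le_rfl
  have h5 : (N : ℝ) * p.1 ≤ E * p.2 := le_trans (by exact_mod_cast h4)
    (mul_le_mul_of_nonneg_right hW (Nat.cast_nonneg _))
  have hX : 0 ≤ lam + Nat.gcd p.1 p.2 * BadQ J lam p.2 / (C * lam) := by
    have := BadQ_nonneg J lam p.2
    positivity
  have hm : ∀ n, Nat.gcd n p.2 ∈ p.2.divisors := fun n =>
    Nat.mem_divisors.2 ⟨Nat.gcd_dvd_right _ _, by omega⟩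
  have e : Bil N J C' p α β = ∑ d₁ ∈ p.2.divisors, ∑ d₂ ∈ p.2.divisors,
      ∑ x ∈ Icc N (2 * N) with Nat.gcd (p.1 * x) p.2 = d₁,
      ∑ a ∈ Ico C' (2 * C') ×ˢ Icc N (2 * N) with Nat.gcd (a.1 * a.2) p.2 = d₂,
        (((cnt J p.2 (p.1 * a.1 * x * a.2) : ℝ) - (J : ℝ) / p.2 : ℝ) : ℂ) *
          (α x * conj (β a.2)) := by
    rw [Bil, sum_comm, ← sum_fiberwise_of_maps_to (g := fun x => Nat.gcd (p.1 * x) p.2)
      fun x _ => hm _]
    refine sum_congr rfl fun d₁ _ => ?_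
    rw [sum_comm (s := p.2.divisors)]
    refine sum_congr rfl fun x _ => ?_
    rw [sum_fiberwise_of_maps_to (g := fun a : ℕ × ℕ => Nat.gcd (a.1 * a.2) p.2) fun x _ => hm _,
      sum_product]
  set Y := √(∑ x ∈ Icc N (2 * N), ‖α x‖ ^ 2) * (√(C' : ℝ) * √(∑ x ∈ Icc N (2 * N), ‖β x‖ ^ 2)) *
    (12 * E ^ 4 * (lam + Nat.gcd p.1 p.2 * BadQ J lam p.2 / (C * lam))) with hY
  have hY0 : 0 ≤ Y := by positivity
  have h6 := hD2.2 _ le_rfl
  rw [e]
  calc _ ≤ ∑ _d₁ ∈ p.2.divisors, ∑ _d₂ ∈ p.2.divisors, Y := by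
        refine norm_sum_le_of_le _ fun d₁ k₁ => norm_sum_le_of_le _ fun d₂ k₂ =>
          (block_Char hB hR hC hP α (fun a => conj (β a.2)) hN hC1 hC' hCE h1 h2 h5 hD hD2 hl hJ
            (Nat.dvd_of_mem_divisors k₁) (Nat.dvd_of_mem_divisors k₂) (filter_subset _ _)
            (filter_subset _ _) (fun _ h => (mem_filter.1 h).2)
            fun _ h => (mem_filter.1 h).2).trans ?_
        refine mul_le_mul_of_nonneg_right (mul_le_mul (Real.sqrt_le_sqrt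
          (sum_le_sum_of_subset_of_nonneg (filter_subset _ _) fun _ _ _ => sq_nonneg _)) ?_
          (Real.sqrt_nonneg _) (Real.sqrt_nonneg _)) (by positivity)
        rw [← Real.sqrt_mul (Nat.cast_nonneg _)]
        refine Real.sqrt_le_sqrt ((sum_le_sum_of_subset_of_nonneg (filter_subset _ _)
          fun _ _ _ => sq_nonneg _).trans_eq ?_)
        simp only [sum_product, Complex.norm_conj, sum_const, Nat.card_Ico, nsmul_eq_mul]
        rw [show 2 * C' - C' = C' by omega]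
    _ ≤ E * (E * (E * Y)) := by
        rw [sum_const, sum_const, nsmul_eq_mul, nsmul_eq_mul]
        gcongr
        exact le_mul_of_one_le_left hY0 hE
    _ = _ := by rw [hY]; ring

end Pool.Agent.MP_2a1f0e_nt.RF

end

section

set_option autoImplicit false

open Finset
open scoped ComplexConjugate

namespace Pool.Agent.MP_2a1f0e_nt.RF

open GM

theorem dyad_Xi {f : ℕ → ℝ} {B : ℝ} {X : ℕ} (hX : 1 ≤ X) (hf : ∀ r, 0 ≤ f r)
    (h : ∀ R : ℕ, 1 ≤ R → R ≤ X → ∑ r ∈ Ioc R (2 * R), f r ≤ B * R) :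
    ∑ r ∈ Icc 2 X, f r / r ≤ B * (2 * (1 + Real.log X)) := by
  have hB : 0 ≤ B := by simpa using (sum_nonneg fun r _ => hf r).trans (h 1 le_rfl hX)
  have key : ∀ i ≤ Nat.log 2 X + 1, ∑ r ∈ Ioc 1 (2 ^ i), f r / r ≤ B * i := by
    intro i
    induction i with
    | zero => simp
    | succ i ih =>
      intro hi
      have h1 : 1 ≤ 2 ^ i := Nat.one_le_two_pow
      have h2 : 2 ^ i ≤ X := Nat.pow_le_of_le_log (by omega) (by omega)
      have h3 : (0 : ℝ) < (2 ^ i : ℕ) := by exact_mod_cast h1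
      rw [pow_succ', ← sum_Ioc_consecutive _ h1 (by omega : 2 ^ i ≤ 2 * 2 ^ i), Nat.cast_succ,
        mul_add, mul_one]
      refine add_le_add (ih (by omega)) ?_
      refine le_trans (sum_le_sum fun r hr => div_le_div_of_nonneg_left (hf r) h3
        (by exact_mod_cast (mem_Ioc.1 hr).1.le)) ?_
      rw [← sum_div, div_le_iff₀ h3]
      exact h _ h1 h2
  refine le_trans (sum_le_sum_of_subset_of_nonneg (fun r hr => ?_)
    fun r _ _ => div_nonneg (hf r) r.cast_nonneg) ((key _ le_rfl).trans ?_)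
  · have := Nat.lt_pow_succ_log_self (b := 2) one_lt_two X
    rw [mem_Icc] at hr
    exact mem_Ioc.2 ⟨hr.1, hr.2.trans this.le⟩
  · refine mul_le_mul_of_nonneg_left ?_ hB
    have h1 : ((2 : ℝ)) ^ Nat.log 2 X ≤ X := by
      exact_mod_cast Nat.pow_log_le_self 2 (by omega : X ≠ 0)
    have h2 := Real.log_le_log (by positivity) h1
    rw [Real.log_pow] at h2
    have h3 := Real.log_two_gt_d9
    have h4 : (0 : ℝ) ≤ Nat.log 2 X := Nat.cast_nonneg _
    push_cast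
    nlinarith

theorem swap_Xi {F : ℕ → ℕ → ℝ} (hF : ∀ m r, 0 ≤ F m r) (X : ℕ) :
    ∑ Q ∈ Icc 1 X, ∑ m ∈ Q.divisors, ∑ r ∈ (Q / m).divisors.erase 1, F m r ≤
      ∑ m ∈ Icc 1 X, (X : ℝ) * (m : ℝ)⁻¹ * ∑ r ∈ Icc 2 X, F m r / r := by
  have h0 : ∀ Q m r, 0 ≤ if m * r ∣ Q then F m r else 0 := fun Q m r => by
    split_ifs
    exacts [hF m r, le_rfl]
  have h1 : ∀ Q ∈ Icc 1 X, ∑ m ∈ Q.divisors, ∑ r ∈ (Q / m).divisors.erase 1, F m r ≤
      ∑ m ∈ Icc 1 X, ∑ r ∈ Icc 2 X, if m * r ∣ Q then F m r else 0 := fun Q hQ => by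
    rw [mem_Icc] at hQ
    refine le_trans (sum_le_sum fun m hm => ?_) (sum_le_sum_of_subset_of_nonneg (fun m hm => ?_)
      fun m _ _ => sum_nonneg fun r _ => h0 Q m r)
    · rw [← sum_filter]
      refine sum_le_sum_of_subset_of_nonneg (fun r hr => ?_) fun r _ _ => hF m r
      rw [mem_erase] at hr
      have h2 := Nat.pos_of_mem_divisors hr.2
      have h3 := Nat.divisor_le hr.2
      have h4 := Nat.div_le_self Q m
      exact mem_filter.2 ⟨mem_Icc.2 ⟨by omega, by omega⟩, Nat.mul_dvd_of_dvd_div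
        (Nat.dvd_of_mem_divisors hm) (Nat.dvd_of_mem_divisors hr.2)⟩
    · exact mem_Icc.2 ⟨Nat.pos_of_mem_divisors hm, (Nat.divisor_le hm).trans hQ.2⟩
  refine (sum_le_sum h1).trans ?_
  rw [sum_comm]
  refine sum_le_sum fun m _ => ?_
  rw [sum_comm, mul_sum]
  refine sum_le_sum fun r _ => ?_
  rw [← sum_filter, sum_const, nsmul_eq_mul, show Icc 1 X = Ioc 0 X from rfl,
    Nat.Ioc_filter_dvd_card_eq_div]
  refine (mul_le_mul_of_nonneg_right Nat.cast_div_le (hF m r)).trans (le_of_eq ?_)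
  push_cast
  ring

theorem xi_stmt (hD : DyStmt) : XiStmt := by
  obtain ⟨c, hc, hD⟩ := hD
  refine ⟨2 * c, by positivity, fun J C X κ Y Δ hC hX hY hJ hκ hXY hΔ => ?_⟩
  have hC' : (1 : ℝ) ≤ C := by exact_mod_cast hC
  have hY0 : 0 < Y := by linarith
  obtain ⟨d, hd⟩ : ∃ d : ℝ, d = J / (Y ^ 2 * C) := ⟨_, rfl⟩
  have e1 : (J : ℝ) = d * (Y ^ 2 * C) := by rw [hd]; field_simp
  have h1 : Y ^ 4 * C ≤ d := by
    rw [hd, le_div_iff₀ (by positivity)]
    linarith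
  have h2 : Y ^ 4 ≤ d := (le_mul_of_one_le_right (by positivity) hC').trans h1
  have h3 : 1 ≤ d := (one_le_pow₀ hY).trans h2
  have hJ1 : 1 ≤ J := by
    have : (1 : ℝ) ≤ J := (one_le_mul_of_one_le_of_one_le (one_le_pow₀ hY) (one_le_pow₀ hC')).trans hJ
    exact_mod_cast this
  have e2 : √d ^ 2 = d := Real.sq_sqrt (by linarith)
  have e3 : lamv J C Y ^ 2 = √d ^ 2 * J := by
    rw [lamv, e2, div_pow, mul_pow, Real.sq_sqrt (by positivity), hd]
    ring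
  have h4 : (J : ℝ) ≤ √d ^ 4 := by
    rw [show 4 = 2 * 2 from rfl, pow_mul, e2, e1, sq d]
    refine mul_le_mul_of_nonneg_left (le_trans ?_ h1) (by linarith)
    gcongr
    norm_num
  have h5 : (J : ℝ) ^ 3 ≤ √d ^ 10 * (C / Y) ^ 2 := by
    have a1 : (Y ^ 4 * C) ^ 2 ≤ d ^ 2 := by gcongr
    have a2 : Y ^ 8 * C ≤ (Y ^ 4 * C) ^ 2 := by
      have := mul_le_mul_of_nonneg_left hC' (show 0 ≤ Y ^ 8 * C by positivity)
      linarith
    have a3 := mul_le_mul_of_nonneg_left (a2.trans a1) (show 0 ≤ d ^ 3 * C ^ 2 by positivity)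
    rw [show 10 = 2 * 5 from rfl, pow_mul, e2, e1, div_pow, ← mul_div_assoc,
      le_div_iff₀ (by positivity)]
    linarith
  have h6 : 2 * (X : ℝ) ≤ C / Y * √d ^ (2 * κ) := by
    refine hXY.trans ?_
    rw [pow_mul, e2, div_mul_eq_mul_div, le_div_iff₀ hY0, ← pow_succ,
      show 4 * κ - 1 + 1 = 4 * κ by omega, pow_mul]
    exact (pow_le_pow_left₀ (by positivity) h2 κ).trans
      (le_mul_of_one_le_left (by positivity) hC')
  have hl : 0 ≤ 1 + Real.log X := by have := Real.log_natCast_nonneg X; linarith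
  have hΔ0 : 0 ≤ Δ := zero_le_one.trans hΔ.1
  have h7 : ∀ m ∈ Icc 1 X, (X : ℝ) * (m : ℝ)⁻¹ * ∑ r ∈ Icc 2 X, Bad J (lamv J C Y) m r / r ≤
      X * (c * Δ ^ κ * lamv J C Y ^ 2 * (C / Y) * (2 * (1 + Real.log X))) * (m : ℝ)⁻¹ := by
    intro m hm
    rw [mul_right_comm]
    refine mul_le_mul_of_nonneg_right (mul_le_mul_of_nonneg_left (dyad_Xi hX
      (Bad_nonneg _ _ m) fun R hR hRX => ?_) X.cast_nonneg) (by positivity)
    rw [mul_right_comm]
    refine hD J m R κ _ (√d) _ Δ hJ1 (mem_Icc.1 hm).1 hR (Real.one_le_sqrt.2 h3) (by positivity)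
      e3 h4 h5 hκ (le_trans ?_ h6) hΔ
    gcongr
  have h8 : ∑ m ∈ Icc 1 X, (m : ℝ)⁻¹ ≤ 1 + Real.log X := by
    have := harmonic_le_one_add_log X
    rwa [harmonic_eq_sum_Icc, Rat.cast_sum, sum_congr rfl fun m _ => Rat.cast_inv _] at this
  refine (swap_Xi (Bad_nonneg J _) X).trans ((sum_le_sum h7).trans ?_)
  rw [← mul_sum]
  exact (mul_le_mul_of_nonneg_left h8 (by positivity)).trans (le_of_eq (by ring))

end Pool.Agent.MP_2a1f0e_nt.RF

end

section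

set_option autoImplicit false

open Finset
open scoped ComplexConjugate

namespace Pool.Agent.MP_2a1f0e_nt.RF

open GM

lemma sum_aS_SideA (N T J C W : ℕ) (g : ℤ → ℝ) (U : ℝ) {b : ℕ → ℂ} (hb : ∀ n, ‖b n‖ ≤ 1) :
    ∑ p ∈ Win N C W, ∑ x ∈ Icc N (2 * N), ‖aS T J g U b p x‖ ^ 2 ≤
      ∑ e ∈ (Fam N C W).filter fun e => gx e.1 e.2 ≤ J, ‖fu T g (pt e.1 e.2)‖ ^ 2 := by
  rw [sum_filter, Fam, sum_product]
  refine sum_le_sum fun p _ => sum_le_sum fun x _ => ?_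
  unfold aS
  by_cases h : gx p x ≤ J
  · rw [if_pos h]
    split_ifs
    · exact pow_le_pow_left₀ (norm_nonneg _) (norm_av_le hb p x) 2
    · rw [norm_zero, zero_pow two_ne_zero]
      exact sq_nonneg _
  · rw [if_neg h, if_neg fun h' => h h'.1, norm_zero, zero_pow two_ne_zero]

lemma one_aS_SideA {N : ℕ} (hN : 1 ≤ N) (T J : ℕ) (g : ℤ → ℝ) (U : ℝ) {b : ℕ → ℂ}
    (hb : ∀ n, ‖b n‖ ≤ 1) (p : ℕ × ℕ) :
    ∑ x ∈ Icc N (2 * N), ‖aS T J g U b p x‖ ^ 2 ≤ 2 * N * U ^ 2 := by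
  have h : ∀ x ∈ Icc N (2 * N), ‖aS T J g U b p x‖ ^ 2 ≤ U ^ 2 := fun x _ => by
    unfold aS
    split_ifs with h
    · exact pow_le_pow_left₀ (norm_nonneg _) ((norm_av_le hb p x).trans h.2) 2
    · rw [norm_zero, zero_pow two_ne_zero]
      exact sq_nonneg _
  refine (sum_le_card_nsmul _ _ _ h).trans ?_
  rw [nsmul_eq_mul, Nat.card_Icc]
  refine mul_le_mul_of_nonneg_right ?_ (sq_nonneg _)
  exact_mod_cast (by omega : 2 * N + 1 - N ≤ 2 * N)

lemma bad_SideA (hC : CountStmt) {N C W X J : ℕ} {E lam : ℝ} (hX : 2 * W * N * C ≤ X)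
    (hd : DivB X E) : ∑ p ∈ Win N C W, (Nat.gcd p.1 p.2 : ℝ) * BadQ J lam p.2 ≤
      3 * C * E * ∑ Q ∈ Icc 1 X, BadQ J lam Q := by
  have hs : Win N C W ⊆ Ico C (2 * C) ×ˢ Icc 1 X :=
    (filter_subset _ _).trans (product_subset_product_right (Icc_subset_Icc_right hX))
  refine (sum_le_sum_of_subset_of_nonneg hs fun p _ _ =>
    mul_nonneg (Nat.cast_nonneg _) (BadQ_nonneg _ _ _)).trans ?_
  rw [sum_product_right, mul_sum]
  refine sum_le_sum fun Q hQ => ?_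
  obtain ⟨h1, h2⟩ := mem_Icc.1 hQ
  simp only [← sum_mul]
  exact mul_le_mul_of_nonneg_right ((hC.2.2 C Q h1).trans
    (mul_le_mul_of_nonneg_left (hd.2 Q h2) (by positivity))) (BadQ_nonneg _ _ _)

lemma amgm_SideA {a b : ℝ} (ha : 0 ≤ a) (hb : 0 ≤ b) : √a * √b ≤ (a + b) / 2 := by
  nlinarith [sq_nonneg (√a - √b), Real.sq_sqrt ha, Real.sq_sqrt hb]

theorem sideA_stmt (hCh : CharStmt) (hL : LSStmt) (hE : EdgeMultStmt) (hC : CountStmt) :
    SideAStmt := by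
  obtain ⟨c1, hc1, hCh⟩ := hCh
  obtain ⟨cL, hcL, hL⟩ := hL
  obtain ⟨cE, hcE, hE⟩ := hE
  refine ⟨c1 * (cL * cE + 24), by positivity,
    fun N T J C C' K W E Y MM g b b' hp hg hW hWK hb hb' => ?_⟩
  have E1 := hp.E1
  have Y1 := hp.Y1
  have M0 := hg.MM0
  have T1 : 1 ≤ T := hp.N1.trans hp.NT
  have n1 : (1 : ℝ) ≤ N := by exact_mod_cast hp.N1
  have t1 : (1 : ℝ) ≤ T := by exact_mod_cast T1
  have k1 : (1 : ℝ) ≤ C := by exact_mod_cast hp.C1
  have k2 : (1 : ℝ) ≤ C' := by exact_mod_cast hp.C1'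
  have j1 : (1 : ℝ) ≤ J := by exact_mod_cast hp.J1
  have s0 : 0 < √(C : ℝ) := Real.sqrt_pos.2 (by linarith)
  have s1 := Real.sq_sqrt (show (0 : ℝ) ≤ C by linarith)
  have s2 := Real.sq_sqrt (show (0 : ℝ) ≤ C' by linarith)
  have l0 : 0 < lamv J C Y := by unfold lamv; positivity
  have l1 : (J : ℝ) ≤ lamv J C Y ^ 2 := by
    rw [lamv, div_pow, mul_pow, s1, le_div_iff₀ (by positivity), pow_two (J : ℝ)]
    refine mul_le_mul_of_nonneg_left (le_trans ?_ hp.JL) (by linarith)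
    exact mul_le_mul (pow_le_pow_right₀ Y1 (by norm_num)) (le_self_pow₀ k1 two_ne_zero)
      (by linarith) (by positivity)
  have l2 : √(C' : ℝ) * lamv J C Y * (C ^ 2 * N ^ 2 * MM) ≤ E * Err N J C C' Y MM := by
    have h1 : √(C : ℝ) ≤ E * √(C' : ℝ) := by
      refine Real.sqrt_le_iff.2 ⟨by positivity, ?_⟩
      rw [mul_pow, s2]
      exact hp.CE'.trans (mul_le_mul_of_nonneg_right (le_self_pow₀ E1 two_ne_zero) (by linarith))
    calc √(C' : ℝ) * lamv J C Y * (C ^ 2 * N ^ 2 * MM)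
        = √(C : ℝ) * (√(C' : ℝ) * (J * C * N ^ 2 * MM / Y)) := by
          have : (C : ℝ) ^ 2 = C * √(C : ℝ) ^ 2 := by rw [s1, pow_two]
          rw [this, lamv]
          field_simp
      _ ≤ E * √(C' : ℝ) * (√(C' : ℝ) * (J * C * N ^ 2 * MM / Y)) := by gcongr
      _ = E * (√(C' : ℝ) ^ 2 * (J * C * N ^ 2 * MM / Y)) := by ring
      _ = _ := by rw [s2, Err]; ring
  have x1 : 2 * W * N * C ≤ 400 * K * N * (C + C') :=
    Nat.mul_le_mul (Nat.mul_le_mul_right _ (by omega)) (by omega)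
  have x2 : 4 * N * C' ≤ 400 * K * N * (C + C') :=
    Nat.mul_le_mul (Nat.mul_le_mul_right _ (by have := hp.K1; omega)) (by omega)
  have x3 : ((400 * K * N * (C + C') : ℕ) : ℝ) ≤ 2 * E * N * (2 * E * C) := by
    push_cast
    have := hp.KE
    have := hp.CE
    have : (C : ℝ) ≤ E * C := le_mul_of_one_le_left (by linarith) E1
    exact mul_le_mul (mul_le_mul_of_nonneg_right (by linarith) (by linarith)) (by linarith)
      (by linarith) (by positivity)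
  have w1 : (W : ℝ) ≤ E := le_trans (by exact_mod_cast hWK) hp.KE
  have a1 : ∀ {b : ℕ → ℂ}, (∀ n, ‖b n‖ ≤ 1) → ∑ p ∈ Win N C W, ∑ x ∈ Icc N (2 * N),
      ‖aS T J g (E * (N : ℝ) ^ 2) b p x‖ ^ 2 ≤ cL * cE * E ^ 5 * (C ^ 2 * N ^ 2 * MM) := by
    intro b hb
    refine (sum_aS_SideA N T J C W g _ hb).trans ((hL _ _ _ T _ T1
      (hE N T J C C' K W E Y hp hW hWK).1 fun t => (g t : ℂ)).trans ?_)
    rw [sum_sq_fu]
    refine (mul_le_mul_of_nonneg_left hg.sq (by positivity)).trans (le_of_eq ?_)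
    field_simp
  have a2 : ∀ {b : ℕ → ℂ}, (∀ n, ‖b n‖ ≤ 1) → ∀ p, ∑ x ∈ Icc N (2 * N),
      ‖aS T J g (E * (N : ℝ) ^ 2) b p x‖ ^ 2 ≤ 2 * N * E ^ 2 * (Y * MM) := by
    intro b hb p
    refine (one_aS_SideA hp.N1 T J g _ hb p).trans ?_
    rw [mul_pow, ← pow_mul, ← mul_assoc]
    exact mul_le_mul_of_nonneg_left hg.low (by positivity)
  have a3 : ∑ p ∈ Win N C W, (Nat.gcd p.1 p.2 : ℝ) * BadQ J (lamv J C Y) p.2 ≤
      3 * C * E * (E * (2 * E * N * (2 * E * C)) * lamv J C Y ^ 2 * (C / Y)) :=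
    (bad_SideA hC x1 hp.dv).trans (mul_le_mul_of_nonneg_left (le_trans hp.xi (by gcongr))
      (by positivity))
  have a4 := add_le_add (a1 hb) (a1 hb')
  have a5 := fun p (hpW : p ∈ Win N C W) => hCh N J C C' W E (lamv J C Y) p
    (aS T J g (E * (N : ℝ) ^ 2) b p) (aS T J g (E * (N : ℝ) ^ 2) b' p) hp.N1 hp.C1 hp.C1' hW w1
    hp.CE hpW (divB_mono hp.dv x2 le_rfl) (divB_mono hp.dv x1 le_rfl) l0 l1
  have a6 := fun p => add_le_add (a2 hb p) (a2 hb' p)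
  rw [← sum_add_distrib] at a4
  have e0 := Err_nonneg (N := N) (J := J) (C := C) (C' := C') (by linarith : 0 ≤ Y) M0
  generalize lamv J C Y = lam at *
  generalize Err N J C C' Y MM = R at *
  calc _ ≤ ∑ p ∈ Win N C W, c1 * E ^ 7 * √(C' : ℝ) * (lam / 2 *
        (∑ x ∈ Icc N (2 * N), ‖aS T J g (E * (N : ℝ) ^ 2) b p x‖ ^ 2 +
          ∑ x ∈ Icc N (2 * N), ‖aS T J g (E * (N : ℝ) ^ 2) b' p x‖ ^ 2) +
        2 * N * E ^ 2 * (Y * MM) / (C * lam) * (Nat.gcd p.1 p.2 * BadQ J lam p.2)) := by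
        refine sum_le_sum fun p hpW => (a5 p hpW).trans ?_
        rw [mul_assoc (c1 * E ^ 7 * √(C' : ℝ))]
        refine mul_le_mul_of_nonneg_left ?_ (by positivity)
        have q0 := BadQ_nonneg J lam p.2
        have q1 := amgm_SideA
          (sum_nonneg (s := Icc N (2 * N)) fun x _ => sq_nonneg ‖aS T J g (E * (N : ℝ) ^ 2) b p x‖)
          (sum_nonneg (s := Icc N (2 * N)) fun x _ => sq_nonneg ‖aS T J g (E * (N : ℝ) ^ 2) b' p x‖)
        rw [mul_add]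
        refine add_le_add ((mul_le_mul_of_nonneg_right q1 l0.le).trans (le_of_eq (by ring)))
          ((mul_le_mul_of_nonneg_right (q1.trans (by linarith [a6 p] :
            _ ≤ 2 * N * E ^ 2 * (Y * MM))) (by positivity)).trans (le_of_eq (by ring)))
    _ ≤ c1 * E ^ 7 * √(C' : ℝ) * (lam / 2 * (cL * cE * E ^ 5 * (C ^ 2 * N ^ 2 * MM) +
          cL * cE * E ^ 5 * (C ^ 2 * N ^ 2 * MM)) + 2 * N * E ^ 2 * (Y * MM) / (C * lam) *
          (3 * C * E * (E * (2 * E * N * (2 * E * C)) * lam ^ 2 * (C / Y)))) := by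
        rw [← mul_sum, sum_add_distrib, ← mul_sum, ← mul_sum]
        gcongr
    _ = c1 * (cL * cE * E ^ 12 + 24 * E ^ 13) * (√(C' : ℝ) * lam * (C ^ 2 * N ^ 2 * MM)) := by
        field_simp
        ring
    _ ≤ c1 * (cL * cE * E ^ 15 + 24 * E ^ 15) * (E * R) := by
        gcongr <;> first | exact E1 | norm_num
    _ = _ := by ring

end Pool.Agent.MP_2a1f0e_nt.RF

end

section

set_option autoImplicit false

open Finset
open scoped ComplexConjugate

namespace Pool.Agent.MP_2a1f0e_nt.RF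

open GM

theorem aB_sq_SideB (T J : ℕ) (g : ℤ → ℝ) (U : ℝ) (p : ℕ × ℕ) (x : ℕ) :
    ‖aB T J g U (fun _ => 1) p x‖ ^ 2 =
      if gx p x ≤ J ∧ U < ‖fu T g (pt p x)‖ then ‖fu T g (pt p x)‖ ^ 2 else 0 := by
  unfold aB av
  split_ifs <;> simp

theorem aO_sq_SideB (T J : ℕ) (g : ℤ → ℝ) (p : ℕ × ℕ) (x : ℕ) :
    ‖aO T J g (fun _ => 1) p x‖ ^ 2 = if gx p x ≤ J then ‖fu T g (pt p x)‖ ^ 2 else 0 := by
  unfold aO av
  split_ifs <;> simp

theorem big_SideB {T : ℕ} {g : ℤ → ℝ} {U B μ : ℝ} (h : BigP T g U B) {ι : Type} {s : Finset ι}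
    {u : ι → ℝ} (hc : CM s u T μ) (a : ι → ℝ)
    (ha : ∀ i ∈ s, a i ≤ if U < ‖fu T g (u i)‖ then ‖fu T g (u i)‖ ^ 2 else 0) :
    ∑ i ∈ s, a i ≤ B * μ := by
  classical
  calc ∑ i ∈ s, a i
      ≤ ∑ i ∈ s, if U < ‖fu T g (u i)‖ then ‖fu T g (u i)‖ ^ 2 else 0 := sum_le_sum ha
    _ = ∑ i ∈ s.filter (fun i => U < ‖fu T g (u i)‖), ‖fu T g (u i)‖ ^ 2 :=
        (sum_filter _ _).symm
    _ ≤ B * μ := h ι _ u μ (hc.mono (filter_subset _ _) le_rfl) fun i hi => (mem_filter.1 hi).2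

theorem amgm_SideB {l : ℝ} (hl : 0 < l) (a b : ℝ) : a * b ≤ l * a ^ 2 + l⁻¹ * b ^ 2 := by
  have h1 : 0 ≤ l⁻¹ * (l * a - b) ^ 2 := by positivity
  have h2 : l⁻¹ * (l * a - b) ^ 2 = l * a ^ 2 - 2 * (a * b) + l⁻¹ * b ^ 2 := by
    field_simp
    ring
  have h3 : 0 ≤ l * a ^ 2 := by positivity
  have h4 : 0 ≤ l⁻¹ * b ^ 2 := by positivity
  linarith

theorem bil_le_SideB (N J C' : ℕ) (p : ℕ × ℕ) (a b : ℕ → ℂ) :
    ‖Bil N J C' p a b‖ ≤
      (∑ c' ∈ Ico C' (2 * C'), ∑ x ∈ Icc N (2 * N), ∑ z ∈ Icc N (2 * N),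
        cnt J p.2 (p.1 * c' * x * z) • (‖a x‖ * ‖b z‖)) +
      (J : ℝ) * C' / p.2 * ((∑ x ∈ Icc N (2 * N), ‖a x‖) * ∑ z ∈ Icc N (2 * N), ‖b z‖) := by
  have h1 : (J : ℝ) * C' / p.2 * ((∑ x ∈ Icc N (2 * N), ‖a x‖) * ∑ z ∈ Icc N (2 * N), ‖b z‖) =
      ∑ _c' ∈ Ico C' (2 * C'), ∑ x ∈ Icc N (2 * N), ∑ z ∈ Icc N (2 * N),
        (J : ℝ) / p.2 * (‖a x‖ * ‖b z‖) := by
    rw [sum_const, Nat.card_Ico, nsmul_eq_mul, sum_mul_sum]
    simp_rw [← mul_sum]
    have : 2 * C' - C' = C' := by omega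
    rw [this]
    ring
  rw [h1, ← sum_add_distrib]
  unfold Bil
  refine (norm_sum_le _ _).trans (sum_le_sum fun c' _ => ?_)
  rw [← sum_add_distrib]
  refine (norm_sum_le _ _).trans (sum_le_sum fun x _ => ?_)
  rw [← sum_add_distrib]
  refine (norm_sum_le _ _).trans (sum_le_sum fun z _ => ?_)
  rw [norm_mul, norm_mul, Complex.norm_conj, Complex.norm_real, Real.norm_eq_abs, nsmul_eq_mul,
    ← add_mul]
  refine mul_le_mul_of_nonneg_right ?_ (by positivity)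
  have h2 : (0 : ℝ) ≤ (cnt J p.2 (p.1 * c' * x * z) : ℝ) := by positivity
  have h3 : (0 : ℝ) ≤ (J : ℝ) / p.2 := by positivity
  rw [abs_le]
  constructor <;> linarith

theorem sq_sum_SideB {N : ℕ} (hN : 1 ≤ N) (a : ℕ → ℝ) :
    (∑ x ∈ Icc N (2 * N), a x) ^ 2 ≤ 2 * N * ∑ x ∈ Icc N (2 * N), a x ^ 2 := by
  refine (sq_sum_le_card_mul_sum_sq).trans ?_
  refine mul_le_mul_of_nonneg_right ?_ (sum_nonneg fun _ _ => sq_nonneg _)
  rw [Nat.card_Icc]
  have : 2 * N + 1 - N ≤ 2 * N := by omega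
  exact_mod_cast this

theorem main_SideB {N J C C' W : ℕ} {E l : ℝ} (hN : 1 ≤ N) (hC : 1 ≤ C) (hW : (W : ℝ) ≤ E)
    (hl : 0 < l) (a b : ℕ × ℕ → ℕ → ℂ) :
    ∑ p ∈ Win N C W, ‖Bil N J C' p (a p) (b p)‖ ≤
      (l * ∑ e ∈ Edg N J C C' W, ‖a e.p e.x‖ ^ 2 + l⁻¹ * ∑ e ∈ Edg N J C C' W, ‖b e.p e.z‖ ^ 2) +
      2 * J * C' * E / C * (l * ∑ e ∈ Fam N C W, ‖a e.1 e.2‖ ^ 2 +
        l⁻¹ * ∑ e ∈ Fam N C W, ‖b e.1 e.2‖ ^ 2) := by
  have hN0 : (0 : ℝ) < N := by exact_mod_cast hN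
  have hC0 : (0 : ℝ) < C := by exact_mod_cast hC
  have hE0 : 0 ≤ E := le_trans (by positivity) hW
  refine (sum_le_sum fun p _ => bil_le_SideB N J C' p (a p) (b p)).trans ?_
  rw [sum_add_distrib]
  refine add_le_add ?_ ?_
  · rw [← sum_Edg N J C C' W (fun p _ x z => ‖a p x‖ * ‖b p z‖), mul_sum, mul_sum,
      ← sum_add_distrib]
    exact sum_le_sum fun e _ => amgm_SideB hl _ _
  · unfold Fam
    rw [sum_product, sum_product, mul_sum, mul_sum, ← sum_add_distrib, mul_sum]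
    refine sum_le_sum fun p hp => ?_
    rw [mem_Win] at hp
    have hQ : (0 : ℝ) < p.2 := by exact_mod_cast hp.1.2.1
    have h1 : (N : ℝ) * C ≤ E * p.2 := by
      have h2 : N * C ≤ W * p.2 := le_trans (Nat.mul_le_mul_left _ hp.1.1.1) hp.2.1
      have h3 : (N : ℝ) * C ≤ W * p.2 := by exact_mod_cast h2
      exact h3.trans (mul_le_mul_of_nonneg_right hW hQ.le)
    have h4 : (J : ℝ) * C' / p.2 ≤ J * C' * E / (N * C) := by
      rw [div_le_div_iff₀ hQ (by positivity)]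
      have : (0 : ℝ) ≤ J * C' := by positivity
      nlinarith
    have h5 := amgm_SideB hl (∑ x ∈ Icc N (2 * N), ‖a p x‖) (∑ z ∈ Icc N (2 * N), ‖b p z‖)
    have h6 := sq_sum_SideB hN (fun x => ‖a p x‖)
    have h7 := sq_sum_SideB hN (fun x => ‖b p x‖)
    have h8 : (∑ x ∈ Icc N (2 * N), ‖a p x‖) * (∑ z ∈ Icc N (2 * N), ‖b p z‖) ≤
        2 * N * (l * ∑ x ∈ Icc N (2 * N), ‖a p x‖ ^ 2 +
          l⁻¹ * ∑ x ∈ Icc N (2 * N), ‖b p x‖ ^ 2) := by
      have h9 := mul_le_mul_of_nonneg_left h6 hl.le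
      have h10 := mul_le_mul_of_nonneg_left h7 (inv_pos.2 hl).le
      linarith
    calc (J : ℝ) * C' / p.2 *
          ((∑ x ∈ Icc N (2 * N), ‖a p x‖) * ∑ z ∈ Icc N (2 * N), ‖b p z‖)
        ≤ J * C' * E / (N * C) * (2 * N * (l * ∑ x ∈ Icc N (2 * N), ‖a p x‖ ^ 2 +
          l⁻¹ * ∑ x ∈ Icc N (2 * N), ‖b p x‖ ^ 2)) :=
          mul_le_mul h4 h8 (by positivity) (by positivity)
      _ = _ := by
          field_simp

theorem fam_SideB {N J C W : ℕ} (F : (ℕ × ℕ) × ℕ → ℝ) (h : ∀ e, ¬ gx e.1 e.2 ≤ J → F e = 0) :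
    ∑ e ∈ Fam N C W, F e = ∑ e ∈ (Fam N C W).filter (fun e => gx e.1 e.2 ≤ J), F e := by
  rw [sum_filter]
  refine sum_congr rfl fun e _ => ?_
  split_ifs with h1
  · rfl
  · exact h e h1

theorem num_SideB {N T E Y MM cL μ l A B : ℝ} (hN : 0 < N) (hT : 0 < T) (hE : 1 ≤ E) (hY : 1 ≤ Y)
    (hM : 0 < MM) (hc : 0 < cL) (hμ : 0 ≤ μ) (hk : N ^ 2 * T * Y ^ 2 ≤ MM)
    (hl : l = MM / (Y * T * N ^ 2)) (hA : A ≤ E * T ^ 2 * N ^ 2 * μ) (hB : B ≤ cL * μ * T * MM) :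
    l * A + l⁻¹ * B ≤ (1 + cL) * E * (μ * T) * MM / Y := by
  have hY0 : 0 < Y := by linarith
  have hl0 : 0 < l := by rw [hl]; positivity
  have h1 : l * A ≤ E * (μ * T) * MM / Y := by
    calc l * A ≤ l * (E * T ^ 2 * N ^ 2 * μ) := mul_le_mul_of_nonneg_left hA hl0.le
      _ = E * (μ * T) * MM / Y := by rw [hl]; field_simp
  have h2 : l⁻¹ * B ≤ cL * E * (μ * T) * MM / Y := by
    calc l⁻¹ * B ≤ l⁻¹ * (cL * μ * T * MM) := mul_le_mul_of_nonneg_left hB (inv_pos.2 hl0).le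
      _ = cL * 1 * (μ * T) * (N ^ 2 * T * Y ^ 2) / Y := by rw [hl]; field_simp
      _ ≤ cL * E * (μ * T) * MM / Y := by gcongr
  calc l * A + l⁻¹ * B ≤ E * (μ * T) * MM / Y + cL * E * (μ * T) * MM / Y := add_le_add h1 h2
    _ = _ := by ring

theorem sideB_stmt (hL : LSStmt) (hE : EdgeMultStmt) (hG : GeoStmt) : SideBStmt := by
  have _hG := hG
  obtain ⟨cL, hcL, hL⟩ := hL
  obtain ⟨cE, hcE, hE⟩ := hE
  refine ⟨3 * ((1 + cL) * cE), by positivity, ?_⟩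
  intro N T J C C' K W E Y MM g α β hp hg hW1 hW hα hβ
  obtain ⟨hE0, hE1, hE2⟩ := hE N T J C C' K W E Y hp hW1 hW
  have hT1 : 1 ≤ T := hp.N1.trans hp.NT
  have hN0 : (0 : ℝ) < N := by exact_mod_cast hp.N1
  have hT0 : (0 : ℝ) < T := by exact_mod_cast hT1
  have hC0 : (0 : ℝ) < C := by exact_mod_cast hp.C1
  have hC0' : (0 : ℝ) < C' := by exact_mod_cast hp.C1'
  have hE1' : 1 ≤ E := hp.E1
  have hY1 : 1 ≤ Y := hp.Y1
  have hY0 : 0 < Y := by linarith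
  have hWE : (W : ℝ) ≤ E := by
    have h1 : (W : ℝ) ≤ 200 * K := by exact_mod_cast hW
    exact h1.trans hp.KE
  have hM : 0 < MM := by
    have h1 : 0 < Y * MM := lt_of_lt_of_le (by positivity) hg.low
    exact (mul_pos_iff_of_pos_left hY0).1 h1
  have hk : (N : ℝ) ^ 2 * T * Y ^ 2 ≤ MM := by
    have h1 : Y ^ 3 ≤ Y ^ 7 := pow_le_pow_right₀ hY1 (by norm_num)
    have h2 : (T : ℝ) * Y ^ 3 ≤ (N : ℝ) ^ 2 :=
      (mul_le_mul_of_nonneg_left h1 hT0.le).trans hp.HY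
    have h3 : Y * ((N : ℝ) ^ 2 * T * Y ^ 2) ≤ Y * MM := by
      calc Y * ((N : ℝ) ^ 2 * T * Y ^ 2) = (N : ℝ) ^ 2 * (T * Y ^ 3) := by ring
        _ ≤ (N : ℝ) ^ 2 * (N : ℝ) ^ 2 := mul_le_mul_of_nonneg_left h2 (by positivity)
        _ = (N : ℝ) ^ 4 := by ring
        _ ≤ Y * MM := hg.low
    exact le_of_mul_le_mul_left h3 hY0
  -- pointwise bounds
  have hα2 : ∀ p x, ‖α p x‖ ^ 2 ≤
      if gx p x ≤ J ∧ E * (N : ℝ) ^ 2 < ‖fu T g (pt p x)‖ then ‖fu T g (pt p x)‖ ^ 2 else 0 := by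
    intro p x
    rw [← aB_sq_SideB]
    exact pow_le_pow_left₀ (norm_nonneg _) (hα p x) 2
  have hβ2 : ∀ p x, ‖β p x‖ ^ 2 ≤ if gx p x ≤ J then ‖fu T g (pt p x)‖ ^ 2 else 0 := by
    intro p x
    rw [← aO_sq_SideB]
    exact pow_le_pow_left₀ (norm_nonneg _) (hβ p x) 2
  have hα3 : ∀ p x, ‖α p x‖ ^ 2 ≤
      if E * (N : ℝ) ^ 2 < ‖fu T g (pt p x)‖ then ‖fu T g (pt p x)‖ ^ 2 else 0 := by
    intro p x
    refine (hα2 p x).trans ?_
    by_cases h1 : E * (N : ℝ) ^ 2 < ‖fu T g (pt p x)‖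
    · by_cases h2 : gx p x ≤ J
      · simp [h1, h2]
      · simp [h1, h2]
    · simp [h1]
  have hβ3 : ∀ p x, ‖β p x‖ ^ 2 ≤ ‖fu T g (pt p x)‖ ^ 2 := by
    intro p x
    refine (hβ2 p x).trans ?_
    split_ifs
    · exact le_rfl
    · positivity
  have hα4 : ∀ e : (ℕ × ℕ) × ℕ, ¬ gx e.1 e.2 ≤ J → ‖α e.1 e.2‖ ^ 2 = 0 := by
    intro e he
    have h1 := hα2 e.1 e.2
    rw [if_neg fun h => he h.1] at h1
    exact le_antisymm h1 (sq_nonneg _)
  have hβ4 : ∀ e : (ℕ × ℕ) × ℕ, ¬ gx e.1 e.2 ≤ J → ‖β e.1 e.2‖ ^ 2 = 0 := by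
    intro e he
    have h1 := hβ2 e.1 e.2
    rw [if_neg he] at h1
    exact le_antisymm h1 (sq_nonneg _)
  have hLS : ∀ (ι : Type) (s : Finset ι) (u : ι → ℝ) (μ : ℝ), CM s u T μ → ∀ b : ι → ℝ,
      (∀ i ∈ s, b i ≤ ‖fu T g (u i)‖ ^ 2) → ∑ i ∈ s, b i ≤ cL * μ * T * MM := by
    intro ι s u μ hc b hb
    have h1 := hL ι s u T μ hT1 hc (fun t => (g t : ℂ))
    rw [sum_sq_fu] at h1
    have h2 := hc.nonneg
    calc ∑ i ∈ s, b i ≤ ∑ i ∈ s, ‖fu T g (u i)‖ ^ 2 := sum_le_sum hb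
      _ ≤ cL * μ * T * ∑ t ∈ IT T, g t ^ 2 := h1
      _ ≤ cL * μ * T * MM := mul_le_mul_of_nonneg_left hg.sq (by positivity)
  obtain ⟨l, hl⟩ : ∃ l : ℝ, l = MM / (Y * T * (N : ℝ) ^ 2) := ⟨_, rfl⟩
  have hl0 : 0 < l := by rw [hl]; positivity
  have e1 := num_SideB hN0 hT0 hE1' hY1 hM hcL hE1.nonneg hk hl
    (big_SideB hg.big hE1 (fun e => ‖α e.p e.x‖ ^ 2) fun e _ => hα3 _ _)
    (hLS _ _ _ _ hE2 (fun e => ‖β e.p e.z‖ ^ 2) fun e _ => hβ3 _ _)
  have e2 := num_SideB hN0 hT0 hE1' hY1 hM hcL hE1.nonneg hk hl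
    (big_SideB hg.big hE2 (fun e => ‖α e.p e.z‖ ^ 2) fun e _ => hα3 _ _)
    (hLS _ _ _ _ hE1 (fun e => ‖β e.p e.x‖ ^ 2) fun e _ => hβ3 _ _)
  have e3 := num_SideB hN0 hT0 hE1' hY1 hM hcL hE0.nonneg hk hl
    (big_SideB hg.big hE0 (fun e => ‖α e.1 e.2‖ ^ 2) fun e _ => hα3 _ _)
    (hLS _ _ _ _ hE0 (fun e => ‖β e.1 e.2‖ ^ 2) fun e _ => hβ3 _ _)
  rw [← fam_SideB _ hα4, ← fam_SideB _ hβ4] at e3
  have hcc : 0 < (1 + cL) * cE := by positivity
  have hErr : 0 ≤ Err N J C C' Y MM := Err_nonneg hY0.le hM.le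
  have f1 : (1 + cL) * E * (cE * E ^ 10 * J * ((C : ℝ) ^ 2 * (N : ℝ) ^ 2 / T) * T) * MM / Y ≤
      (1 + cL) * cE * E ^ 16 * Err N J C C' Y MM := by
    have h1 : E ^ 12 ≤ E ^ 16 := pow_le_pow_right₀ hE1' (by norm_num)
    have h2 := hp.CE'
    calc (1 + cL) * E * (cE * E ^ 10 * J * ((C : ℝ) ^ 2 * (N : ℝ) ^ 2 / T) * T) * MM / Y
        = (1 + cL) * cE * E ^ 11 * (J * C * C * (N : ℝ) ^ 2 * MM / Y) := by field_simp
      _ ≤ (1 + cL) * cE * E ^ 11 * (J * C * (E * C') * (N : ℝ) ^ 2 * MM / Y) := by gcongr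
      _ = (1 + cL) * cE * E ^ 12 * Err N J C C' Y MM := by unfold Err; ring
      _ ≤ (1 + cL) * cE * E ^ 16 * Err N J C C' Y MM := by gcongr
  have f2 : 2 * J * C' * E / C *
      ((1 + cL) * E * (cE * E ^ 5 * ((C : ℝ) ^ 2 * (N : ℝ) ^ 2 / T) * T) * MM / Y) ≤
      2 * ((1 + cL) * cE * E ^ 16 * Err N J C C' Y MM) := by
    have h1 : E ^ 7 ≤ E ^ 16 := pow_le_pow_right₀ hE1' (by norm_num)
    calc 2 * J * C' * E / C *
        ((1 + cL) * E * (cE * E ^ 5 * ((C : ℝ) ^ 2 * (N : ℝ) ^ 2 / T) * T) * MM / Y)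
        = 2 * ((1 + cL) * cE * E ^ 7 * Err N J C C' Y MM) := by unfold Err; field_simp
      _ ≤ 2 * ((1 + cL) * cE * E ^ 16 * Err N J C C' Y MM) := by gcongr
  have hpre : (0 : ℝ) ≤ 2 * J * C' * E / C := by positivity
  have e4 := mul_le_mul_of_nonneg_left e3 hpre
  constructor
  · have m1 := main_SideB (J := J) (C' := C') hp.N1 hp.C1 hWE hl0 α β
    linarith
  · have m2 := main_SideB (J := J) (C' := C') hp.N1 hp.C1 hWE (inv_pos.2 hl0) β α
    rw [inv_inv, add_comm (l⁻¹ * _) (l * _), add_comm (l⁻¹ * _) (l * _)] at m2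
    linarith

end Pool.Agent.MP_2a1f0e_nt.RF

end

section

set_option autoImplicit false

open Finset
open scoped ComplexConjugate

namespace Pool.Agent.MP_2a1f0e_nt.RF

open GM

lemma dec_Prs {N : ℕ} (hN : 1 ≤ N) {p : ℕ × ℕ} (hp : p ∈ Icc N (2 * N) ×ˢ Icc N (2 * N)) :
    ∃ d q a : ℕ, Nat.gcd p.1 p.2 = d ∧ p.1 / d = q ∧ p.2 / d = a ∧ p = (d * q, d * a) ∧
      0 < d ∧ 0 < q ∧ 0 < a ∧ Nat.Coprime q a ∧ d * q ≤ 2 * N ∧ d * a ≤ 2 * N ∧ a ≤ 2 * q ∧
      q ≤ 2 * a ∧ Real.log p.1 - Real.log p.2 = Real.log q - Real.log a := by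
  obtain ⟨x, z⟩ := p
  simp only [mem_product, mem_Icc] at hp
  have hd : 0 < Nat.gcd x z := Nat.gcd_pos_of_pos_left _ (by omega)
  have h1 := Nat.mul_div_cancel' (Nat.gcd_dvd_left x z)
  have h2 := Nat.mul_div_cancel' (Nat.gcd_dvd_right x z)
  have h3 := Nat.coprime_div_gcd_div_gcd hd
  refine ⟨_, _, _, rfl, rfl, rfl, Prod.ext h1.symm h2.symm, ?_⟩
  dsimp only
  generalize Nat.gcd x z = d at *
  generalize x / d = q at *
  generalize z / d = a at *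
  subst h1 h2
  have hq : 0 < q := Nat.pos_of_mul_pos_left (a := d) (by omega)
  have ha : 0 < a := Nat.pos_of_mul_pos_left (a := d) (by omega)
  refine ⟨hd, hq, ha, h3, by omega, by omega, Nat.le_of_mul_le_mul_left ?_ hd,
    Nat.le_of_mul_le_mul_left ?_ hd, ?_⟩
  · rw [mul_left_comm]
    omega
  · rw [mul_left_comm]
    omega
  · push_cast
    rw [Real.log_mul (by positivity) (by positivity), Real.log_mul (by positivity) (by positivity)]
    ring

lemma low_Prs {N T : ℕ} (hN : 1 ≤ N) (u : ℝ) :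
    ∑ p ∈ (Icc N (2 * N) ×ˢ Icc N (2 * N)).filter
      (fun p : ℕ × ℕ => p.1 / Nat.gcd p.1 p.2 ≤ 2 * T / N),
      kp (T * (u + Real.log p.1 - Real.log p.2)) ≤ 2 * maj N T u := by
  rw [← sum_fiberwise_of_maps_to (t := FR N T)
    (g := fun p : ℕ × ℕ => (p.2 / Nat.gcd p.1 p.2, p.1 / Nat.gcd p.1 p.2)), maj, mul_sum]
  · refine sum_le_sum fun r _ => ?_
    refine (sum_le_card_nsmul _ _ (kp (T * (u + Real.log r.2 - Real.log r.1))) ?_).trans ?_
    · intro p hp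
      simp only [mem_filter] at hp
      obtain ⟨d, q, a, e1, e2, e3, -, -, -, -, -, -, -, -, -, e⟩ := dec_Prs hN hp.1.1
      rw [← hp.2, e1, e2, e3, add_sub_assoc, e, add_sub_assoc]
    · rw [nsmul_eq_mul, ← mul_assoc]
      refine mul_le_mul_of_nonneg_right ?_ (kp_pos _).le
      refine le_trans (Nat.cast_le.2 (card_le_card_of_injOn (t := Icc 1 (2 * N / r.2))
        (fun p : ℕ × ℕ => Nat.gcd p.1 p.2) (fun p hp => ?_) fun p hp p' hp' e => ?_)) ?_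
      · simp only [coe_filter, mem_filter, Set.mem_ofPred_eq] at hp
        obtain ⟨d, q, a, e1, e2, -, -, h1, h2, -, -, h3, -⟩ := dec_Prs hN hp.1.1
        rw [← hp.2, mem_coe, mem_Icc]
        dsimp only
        rw [e1, e2]
        exact ⟨h1, (Nat.le_div_iff_mul_le h2).2 h3⟩
      · simp only [coe_filter, mem_filter, Set.mem_ofPred_eq] at hp hp'
        obtain ⟨d, q, a, e1, e2, e3, e4, -⟩ := dec_Prs hN hp.1.1
        obtain ⟨d', q', a', f1, f2, f3, f4, -⟩ := dec_Prs hN hp'.1.1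
        have h := hp.2.trans hp'.2.symm
        dsimp only at e
        rw [e1, e2, e3, f1, f2, f3, Prod.mk.injEq] at h
        rw [e1, f1] at e
        rw [e4, f4, e, h.1, h.2]
      · rw [Nat.card_Icc, Nat.add_sub_cancel]
        refine Nat.cast_div_le.trans (le_of_eq ?_)
        push_cast
        ring
  · intro p hp
    rw [mem_filter] at hp
    obtain ⟨d, q, a, e1, e2, e3, -, -, h2, h3, h4, -, -, h5, h6, -⟩ := dec_Prs hN hp.1
    have h7 := hp.2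
    rw [e1, e2] at h7
    have h8 : 2 * (2 * T / N) ≤ 4 * T / N := by
      refine (Nat.le_div_iff_mul_le hN).2 ?_
      have := Nat.div_mul_le_self (2 * T) N
      rw [mul_assoc]
      omega
    rw [e1, e2, e3, FR, mem_filter, mem_product, mem_Icc, mem_Icc]
    exact ⟨⟨⟨h3, by dsimp only; omega⟩, h2, h7⟩, h4.symm, h5, h6⟩

lemma fib_Prs {N T d : ℕ} (hN : 1 ≤ N) (hT : 1 ≤ T) (hd : 0 < d) (u : ℝ) (s : Finset (ℕ × ℕ))
    (hs : ∀ p ∈ s, p ∈ Icc N (2 * N) ×ˢ Icc N (2 * N) ∧ Nat.gcd p.1 p.2 = d) :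
    ∑ p ∈ s, kp (T * (u + Real.log p.1 - Real.log p.2)) ≤
      2 + 16 * ((N : ℝ) ^ 2 / T) * ((d : ℝ) ^ 2)⁻¹ := by
  have n0 : (0 : ℝ) < N := by exact_mod_cast hN
  have t0 : (0 : ℝ) < T := by exact_mod_cast hT
  have d0 : (0 : ℝ) < d := by exact_mod_cast hd
  have k0 : (0 : ℝ) < (2 * N / d) ^ 2 := by positivity
  have key := sum_kp_sep s (fun p => (2 * (N : ℝ) / d) ^ 2 * (Real.log p.1 - Real.log p.2))
    (fun p hp p' hp' hne => by
      obtain ⟨c, q, a, e1, -, -, e4, -, h2, h3, h4, h5, h6, -, -, e⟩ := dec_Prs hN (hs p hp).1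
      obtain ⟨c', q', a', f1, -, -, f4, -, g2, g3, g4, g5, g6, -, -, f⟩ := dec_Prs hN (hs p' hp').1
      obtain rfl : c = d := e1.symm.trans (hs p hp).2
      obtain rfl : c' = c := f1.symm.trans (hs p' hp').2
      have hb : ∀ {x : ℕ}, c' * x ≤ 2 * N → (x : ℝ) ≤ 2 * N / c' := fun h => by
        rw [le_div_iff₀ d0, mul_comm]
        exact_mod_cast h
      have n1 : q * a' ≠ q' * a := fun h => by
        have i1 : q = q' := Nat.dvd_antisymm (h4.dvd_of_dvd_mul_right ⟨_, h.symm⟩)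
          (g4.dvd_of_dvd_mul_right ⟨_, h⟩)
        subst i1
        exact hne (by rw [e4, f4, Nat.eq_of_mul_eq_mul_left h2 h])
      have n2 : (1 : ℝ) ≤ |(q : ℝ) * a' - q' * a| := by
        have : (1 : ℤ) ≤ |(q : ℤ) * a' - q' * a| :=
          Int.one_le_abs (sub_ne_zero.2 (by exact_mod_cast n1))
        exact_mod_cast this
      have n3 := abs_sub_div_le_log (a := (q : ℝ) * a') (b := (q' : ℝ) * a)
        (X := (2 * (N : ℝ) / c') ^ 2) (by positivity) (by positivity)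
        (by rw [sq]; exact mul_le_mul (hb h5) (hb g6) (by positivity) (by positivity))
        (by rw [sq]; exact mul_le_mul (hb g5) (hb h6) (by positivity) (by positivity))
      rw [Real.log_mul (by positivity) (by positivity),
        Real.log_mul (by positivity) (by positivity), div_le_iff₀' k0] at n3
      rw [e, f, ← mul_sub, abs_mul, abs_of_pos k0]
      refine n2.trans (n3.trans (le_of_eq ?_))
      congr 2
      ring)
    (-((2 * (N : ℝ) / d) ^ 2 * u)) (L := (2 * (N : ℝ) / d) ^ 2 / T) (by positivity)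
  refine le_trans (le_of_eq (sum_congr rfl fun p _ => ?_)) (key.trans (le_of_eq ?_))
  · congr 1
    field_simp
    ring
  · field_simp
    ring

lemma high_Prs {N T : ℕ} (hN : 1 ≤ N) (hT : 1 ≤ T) (u : ℝ) :
    ∑ p ∈ (Icc N (2 * N) ×ˢ Icc N (2 * N)).filter
      (fun p : ℕ × ℕ => ¬p.1 / Nat.gcd p.1 p.2 ≤ 2 * T / N),
      kp (T * (u + Real.log p.1 - Real.log p.2)) ≤ 34 * ((N : ℝ) ^ 2 / T) := by
  rw [← sum_fiberwise_of_maps_to (t := Ioo 0 (N ^ 2 / T + 1))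
    (g := fun p : ℕ × ℕ => Nat.gcd p.1 p.2)]
  · refine (sum_le_sum fun d hd => fib_Prs hN hT (mem_Ioo.1 hd).1 u _ fun p hp =>
      ⟨(mem_filter.1 (mem_filter.1 hp).1).1, (mem_filter.1 hp).2⟩).trans ?_
    have h1 := sum_Ioo_inv_sq_le (α := ℝ) 0 (N ^ 2 / T + 1)
    have h2 : ((N ^ 2 / T : ℕ) : ℝ) ≤ (N : ℝ) ^ 2 / T := by
      exact_mod_cast Nat.cast_div_le (α := ℝ) (m := N ^ 2) (n := T)
    have h3 : 0 ≤ (N : ℝ) ^ 2 / T := by positivity
    rw [Nat.cast_zero, zero_add, div_one] at h1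
    rw [sum_add_distrib, ← mul_sum, sum_const, Nat.card_Ioo, nsmul_eq_mul, Nat.sub_zero,
      Nat.add_sub_cancel]
    nlinarith
  · intro p hp
    rw [mem_filter] at hp
    obtain ⟨d, q, a, e1, e2, -, -, h1, -, -, -, h3, -⟩ := dec_Prs hN hp.1
    have h4 := hp.2
    rw [e1, e2, not_le, Nat.div_lt_iff_lt_mul hN] at h4
    rw [e1, mem_Ioo, Nat.lt_succ_iff, Nat.le_div_iff_mul_le hT]
    refine ⟨h1, ?_⟩
    nlinarith [Nat.mul_le_mul_left d h4.le, Nat.mul_le_mul_right N h3]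

theorem prs_stmt : PrsStmt := by
  refine ⟨34, by norm_num, fun N T u hN hNT _ => ?_⟩
  have h0 : 0 ≤ maj N T u :=
    sum_nonneg fun r _ => mul_nonneg (by positivity) (kp_pos _).le
  rw [← sum_product' (f := fun x x' : ℕ => kp (T * (u + Real.log x - Real.log x'))),
    ← sum_filter_add_sum_filter_not _ (fun p : ℕ × ℕ => p.1 / Nat.gcd p.1 p.2 ≤ 2 * T / N)]
  linarith [low_Prs (T := T) hN u, high_Prs hN (hN.trans hNT) u]

end Pool.Agent.MP_2a1f0e_nt.RF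

end

section

set_option autoImplicit false

open Finset
open scoped ComplexConjugate

namespace Pool.Agent.MP_2a1f0e_nt.RF

open GM

lemma fib_EdgeMult {α β : Type} [DecidableEq β] (s : Finset α) (f : α → β) (B : ℝ)
    (h : ∀ y ∈ s.image f, ((s.filter fun a => f a = y).card : ℝ) ≤ B) :
    (s.card : ℝ) ≤ B * (s.image f).card := by
  rw [card_eq_sum_card_image f s]
  push_cast
  calc ∑ y ∈ s.image f, ((s.filter fun a => f a = y).card : ℝ) ≤ ∑ _y ∈ s.image f, B :=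
        sum_le_sum h
    _ = B * (s.image f).card := by rw [sum_const, nsmul_eq_mul, mul_comm]

lemma cong_EdgeMult (q M : ℕ) (t : Finset ℕ) (ht : ∀ a ∈ t, a ≤ M)
    (hc : ∀ a ∈ t, ∀ b ∈ t, a ≡ b [MOD q]) : t.card ≤ M / q + 1 := by
  rw [← card_range (M / q + 1)]
  apply card_le_card_of_injOn (fun a => a / q)
  · intro a ha
    simp only [coe_range, Set.mem_Iio]
    exact Nat.lt_succ_of_le (Nat.div_le_div_right (ht a ha))
  · intro a ha b hb hab
    have h1 : a % q = b % q := hc a ha b hb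
    have h2 : a / q = b / q := hab
    rw [← Nat.div_add_mod a q, ← Nat.div_add_mod b q, h1, h2]

lemma pairs_EdgeMult (X Q M J : ℕ) (hQ : 0 < Q) (t : Finset (ℕ × ℕ))
    (ht : ∀ a ∈ t, a.1 ≤ M ∧ 1 ≤ a.2 ∧ a.2 ≤ J ∧ Q ∣ X * a.1 + a.2) :
    (t.card : ℝ) ≤ J + J * (M / Q) := by
  set d := Nat.gcd Q X with hd
  have hd0 : 0 < d := Nat.gcd_pos_of_pos_left _ hQ
  have hdQ : d ∣ Q := Nat.gcd_dvd_left _ _
  have hdX : d ∣ X := Nat.gcd_dvd_right _ _
  have h1 : t.card ≤ (M / (Q / d) + 1) * ((Ioc 0 J).filter fun j => d ∣ j).card := by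
    apply card_le_mul_card_image_of_maps_to (f := Prod.snd)
    · intro a ha
      obtain ⟨_, h2, h3, h4⟩ := ht a ha
      rw [mem_filter, mem_Ioc]
      refine ⟨⟨h2, h3⟩, ?_⟩
      exact (Nat.dvd_add_right (Dvd.dvd.mul_right hdX _)).1 (hdQ.trans h4)
    · intro j _
      have hinj : Set.InjOn Prod.fst ((t.filter fun a => a.2 = j : Finset (ℕ × ℕ)) :
          Set (ℕ × ℕ)) := by
        intro a ha b hb hab
        rw [mem_coe, mem_filter] at ha hb
        exact Prod.ext hab (ha.2.trans hb.2.symm)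
      rw [← card_image_of_injOn hinj]
      apply cong_EdgeMult
      · intro a ha
        obtain ⟨b, hb, rfl⟩ := mem_image.1 ha
        exact (ht b (mem_filter.1 hb).1).1
      · intro a ha a' ha'
        obtain ⟨b, hb, rfl⟩ := mem_image.1 ha
        obtain ⟨b', hb', rfl⟩ := mem_image.1 ha'
        rw [mem_filter] at hb hb'
        have e1 := (ht b hb.1).2.2.2
        have e2 := (ht b' hb'.1).2.2.2
        rw [hb.2] at e1
        rw [hb'.2] at e2
        have e3 : X * b.1 + j ≡ X * b'.1 + j [MOD Q] :=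
          ((Nat.modEq_zero_iff_dvd.2 e1).trans (Nat.modEq_zero_iff_dvd.2 e2).symm)
        exact Nat.ModEq.cancel_left_div_gcd hQ (Nat.ModEq.add_right_cancel' j e3)
  rw [Nat.Ioc_filter_dvd_card_eq_div] at h1
  have hdR : (1 : ℝ) ≤ d := by exact_mod_cast hd0
  have hQR : (0 : ℝ) < Q := by exact_mod_cast hQ
  have h2 : ((M / (Q / d) : ℕ) : ℝ) ≤ M / Q * d := by
    refine Nat.cast_div_le.trans (le_of_eq ?_)
    rw [Nat.cast_div hdQ (by positivity)]
    field_simp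
  have h3 : ((J / d : ℕ) : ℝ) ≤ J / d := Nat.cast_div_le
  have h4 : (t.card : ℝ) ≤ (((M / (Q / d) : ℕ) : ℝ) + 1) * ((J / d : ℕ) : ℝ) := by
    exact_mod_cast h1
  have h5 : (J : ℝ) / d ≤ J := div_le_self (by positivity) hdR
  calc (t.card : ℝ) ≤ (M / Q * d + 1) * (J / d) := by
        refine h4.trans ?_
        gcongr
    _ = J / d + J * (M / Q) := by field_simp; ring
    _ ≤ J + J * (M / Q) := by linarith

lemma fibre_EdgeMult (N J C C' W : ℕ) (E : ℝ) (hN : 1 ≤ N) (hC' : 1 ≤ C') (hW : (W : ℝ) ≤ E)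
    (hCE : (C' : ℝ) ≤ E * C) (hd : DivB (4 * N * C') E) (s : Finset ED)
    (hs : s ⊆ Edg N J C C' W) (y : (ℕ × ℕ) × ℕ) (hy : ∀ e ∈ s, (e.p, e.x) = y) :
    (s.card : ℝ) ≤ 5 * E ^ 3 * J := by
  classical
  have hE : 1 ≤ E := hd.1
  rcases s.eq_empty_or_nonempty with rfl | ⟨e₀, he₀⟩
  · simp only [card_empty, Nat.cast_zero]
    positivity
  have hp : y.1 ∈ Win N C W := by
    rw [← hy e₀ he₀]
    exact (mem_Edg.1 (hs he₀)).1.1
  rw [mem_Win] at hp
  have hQ : 0 < y.1.2 := hp.1.2.1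
  have hQR : (0 : ℝ) < y.1.2 := by exact_mod_cast hQ
  have hNC : (N : ℝ) * C ≤ W * y.1.2 := by
    have : N * C ≤ W * y.1.2 := (Nat.mul_le_mul_left N hp.1.1.1).trans hp.2.1
    exact_mod_cast this
  have hM : ((4 * N * C' : ℕ) : ℝ) / y.1.2 ≤ 4 * E ^ 2 := by
    rw [div_le_iff₀ hQR]
    push_cast
    have hN0 : (0 : ℝ) ≤ N := by positivity
    calc (4 : ℝ) * N * C' ≤ 4 * N * (E * C) := by gcongr
      _ = 4 * E * (N * C) := by ring
      _ ≤ 4 * E * (W * y.1.2) := by gcongr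
      _ ≤ 4 * E * (E * y.1.2) := by gcongr
      _ = 4 * E ^ 2 * y.1.2 := by ring
  have hZ : ∀ e ∈ s, 1 ≤ e.c * e.z ∧ e.c * e.z ≤ 4 * N * C' := by
    intro e he
    obtain ⟨⟨_, h2, _, h4, _⟩, _⟩ := mem_Edg.1 (hs he)
    constructor
    · exact Nat.mul_pos (by omega) (by omega)
    · calc e.c * e.z ≤ (2 * C') * (2 * N) := Nat.mul_le_mul h2.2.le h4.2
        _ = 4 * N * C' := by ring
  have h1 := fib_EdgeMult s (fun e => (e.c * e.z, e.j)) E (by
    intro a ha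
    obtain ⟨e₁, he₁, rfl⟩ := mem_image.1 ha
    refine le_trans ?_ (hd.2 (e₁.c * e₁.z) (hZ e₁ he₁).2)
    have : (s.filter fun a => (a.c * a.z, a.j) = (e₁.c * e₁.z, e₁.j)).card ≤
        (e₁.c * e₁.z).divisors.card := by
      apply card_le_card_of_injOn ED.c
      · intro e he
        rw [mem_coe, mem_filter, Prod.mk.injEq] at he
        rw [mem_coe, Nat.mem_divisors]
        refine ⟨⟨e.z, he.2.1.symm⟩, ?_⟩
        have := (hZ e₁ he₁).1
        omega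
      · intro e he e' he' hcc
        rw [mem_coe, mem_filter, Prod.mk.injEq] at he he'
        have a1 := hy e he.1
        have a2 := hy e' he'.1
        have a3 : (e.p, e.x) = (e'.p, e'.x) := a1.trans a2.symm
        rw [Prod.mk.injEq] at a3
        have a4 : e.c * e.z = e.c * e'.z := by rw [he.2.1, ← he'.2.1, hcc]
        have a5 : 0 < e.c := by
          have := (mem_Edg.1 (hs he.1)).1.2.1.1
          omega
        have a6 : e.z = e'.z := Nat.eq_of_mul_eq_mul_left a5 a4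
        have a7 : e.j = e'.j := he.2.2.trans he'.2.2.symm
        exact Prod.ext a3.1 (Prod.ext hcc (Prod.ext a3.2 (Prod.ext a6 a7)))
    exact_mod_cast this)
  have h2 := pairs_EdgeMult (y.1.1 * y.2) y.1.2 (4 * N * C') J hQ
    (s.image fun e => (e.c * e.z, e.j)) (by
    intro a ha
    obtain ⟨e, he, rfl⟩ := mem_image.1 ha
    obtain ⟨⟨_, _, _, _, h5, h6⟩, h7⟩ := mem_Edg.1 (hs he)
    refine ⟨(hZ e he).2, h5, h6, ?_⟩
    rw [← hy e he]
    have : e.p.1 * e.x * (e.c * e.z) = e.p.1 * e.c * e.x * e.z := by ring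
    simp only [this]
    exact h7)
  have hJ : (0 : ℝ) ≤ J := by positivity
  have hE2 : 1 ≤ E ^ 2 := one_le_pow₀ hE
  calc (s.card : ℝ) ≤ E * (J + J * (((4 * N * C' : ℕ) : ℝ) / y.1.2)) := by
        refine h1.trans ?_
        gcongr
    _ ≤ E * (J * E ^ 2 + J * (4 * E ^ 2)) := by
        gcongr
        exact le_mul_of_one_le_right hJ hE2
    _ = 5 * E ^ 3 * J := by ring

theorem edgeMult_stmt (hM : MultStmt) (hG : GeoStmt) : EdgeMultStmt := by
  classical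
  refine ⟨495, by norm_num, ?_⟩
  intro N T J C C' K W E Y h hW1 hW
  have hE := h.E1
  have hWE : (W : ℝ) ≤ E := by
    have : (W : ℝ) ≤ 200 * K := by exact_mod_cast hW
    exact this.trans h.KE
  have hT : 1 ≤ T := h.N1.trans h.NT
  have hTR : (0 : ℝ) < T := by exact_mod_cast hT
  have hK := h.K1
  have d1 : DivB (4 * N * C) E := divB_mono h.dv (by
    calc 4 * N * C ≤ (400 * K) * N * (C + C') := by gcongr <;> omega
      _ = _ := rfl) le_rfl
  have d2 : DivB (4 * N * C') E := divB_mono h.dv (by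
    calc 4 * N * C' ≤ (400 * K) * N * (C + C') := by gcongr <;> omega
      _ = _ := rfl) le_rfl
  set A : ℝ := (C : ℝ) ^ 2 * (N : ℝ) ^ 2 / T with hA
  have hA0 : 0 ≤ A := by positivity
  have hJ0 : (0 : ℝ) ≤ J := by positivity
  have hJA : (J : ℝ) ≤ E * A := by
    rw [hA, ← mul_div_assoc, le_div_iff₀ hTR]
    have hY := h.Y1
    have hCE := h.CE
    calc (J : ℝ) * T ≤ J * T * Y := le_mul_of_one_le_right (by positivity) hY
      _ ≤ C * C' * (N : ℝ) ^ 2 := h.JU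
      _ ≤ C * (E * C) * (N : ℝ) ^ 2 := by gcongr
      _ = E * ((C : ℝ) ^ 2 * (N : ℝ) ^ 2) := by ring
  have hb : 3 * W * E * (J + 32 * (W : ℝ) ^ 3 * (N : ℝ) ^ 2 * (C : ℝ) ^ 2 / T) ≤
      99 * E ^ 5 * A := by
    have e1 : 32 * (W : ℝ) ^ 3 * (N : ℝ) ^ 2 * (C : ℝ) ^ 2 / T = 32 * (W : ℝ) ^ 3 * A := by
      rw [hA]; ring
    have e2 : E ≤ E ^ 3 := le_self_pow₀ hE (by norm_num)
    rw [e1]
    calc 3 * W * E * (J + 32 * (W : ℝ) ^ 3 * A) ≤ 3 * E * E * (E ^ 3 * A + 32 * E ^ 3 * A) := by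
          gcongr
          exact hJA.trans (by gcongr)
      _ = 99 * E ^ 5 * A := by ring
  have c1 : CM ((Fam N C W).filter fun e => gx e.1 e.2 ≤ J) (fun e => pt e.1 e.2) T
      (99 * E ^ 5 * A) :=
    ((hM N C W E h.N1 h.C1 hW1 d1).2.2 T J hT).mono subset_rfl hb
  have c2 : CM (Edg N J C C' W) (fun e => pt e.p e.x) T (495 * E ^ 10 * J * A) := by
    intro l s hs hl
    have f1 := fib_EdgeMult s (fun e => (e.p, e.x)) (5 * E ^ 3 * J) (by
      intro y _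
      exact fibre_EdgeMult N J C C' W E h.N1 h.C1' hWE h.CE d2 _
        ((filter_subset _ _).trans hs) y (fun e he => (mem_filter.1 he).2))
    have f2 := c1 l (s.image fun e => (e.p, e.x)) (by
      intro y hy
      obtain ⟨e, he, rfl⟩ := mem_image.1 hy
      have g1 := hG N T J C C' W Y e h.N1 hT h.C1 h.C1' hW1 h.Y1 h.JU (hs he)
      have g2 := mem_Edg.1 (hs he)
      rw [mem_filter, mem_Fam]
      exact ⟨⟨g2.1.1, g2.1.2.2.1⟩, g1.2.1⟩) (by
      intro y hy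
      obtain ⟨e, he, rfl⟩ := mem_image.1 hy
      exact hl e he)
    have e3 : E ^ 8 ≤ E ^ 10 := pow_le_pow_right₀ hE (by norm_num)
    calc (s.card : ℝ) ≤ 5 * E ^ 3 * J * (99 * E ^ 5 * A) := by
          refine f1.trans ?_
          gcongr
      _ = 495 * E ^ 8 * J * A := by ring
      _ ≤ 495 * E ^ 10 * J * A := by gcongr
  refine ⟨c1.mono subset_rfl (by gcongr; norm_num), c2, ?_⟩
  intro l s hs hl
  have hinj : Function.Injective fun e : ED => ((e.p, e.c, e.z, e.x, e.j) : ED) := by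
    intro e e' hee
    simp only [Prod.mk.injEq] at hee
    exact Prod.ext hee.1 (Prod.ext hee.2.1 (Prod.ext hee.2.2.2.1
      (Prod.ext hee.2.2.1 hee.2.2.2.2)))
  rw [← card_image_of_injective s hinj]
  apply c2 l
  · intro y hy
    obtain ⟨e, he, rfl⟩ := mem_image.1 hy
    obtain ⟨⟨g1, g2, g3, g4, g5⟩, g6⟩ := mem_Edg.1 (hs he)
    refine mem_Edg.2 ⟨⟨g1, g2, g4, g3, g5⟩, ?_⟩
    have : e.p.1 * e.c * e.z * e.x = e.p.1 * e.c * e.x * e.z := by ring
    show e.p.2 ∣ e.p.1 * e.c * e.z * e.x + e.j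
    rw [this]
    exact g6
  · intro y hy
    obtain ⟨e, he, rfl⟩ := mem_image.1 hy
    exact hl e he

end Pool.Agent.MP_2a1f0e_nt.RF

end

section

set_option autoImplicit false

open Finset
open scoped ComplexConjugate

namespace Pool.Agent.MP_2a1f0e_nt.RF

open GM

lemma split_Lqk (M : ℕ) (f : ℕ → ℂ) (m : ℕ) :
    ∑ n ∈ Icc M (2 ^ (m + 1) * M), f n = ∑ j ∈ range (m + 1),
      ∑ n ∈ Icc (2 ^ j * M) (2 * (2 ^ j * M)), if j = 0 ∨ n ≠ 2 ^ j * M then f n else 0 := by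
  induction m with
  | zero => simp
  | succ m ih =>
    have h1 : M ≤ 2 ^ (m + 1) * M := Nat.le_mul_of_pos_left _ (by positivity)
    rw [sum_range_succ, ← ih, ← sum_filter, pow_succ' 2 (m + 1), mul_assoc]
    generalize 2 ^ (m + 1) * M = X at h1
    rw [← sum_union]
    · congr 1
      ext n
      simp only [mem_union, mem_filter, mem_Icc]
      omega
    · rw [disjoint_left]
      intro n
      simp only [mem_filter, mem_Icc]
      omega

lemma pow_Lqk {N : ℕ} (hN : 1 ≤ N) (b : ℕ → ℂ) (hb : ∀ n, ‖b n‖ ≤ 1) (m : ℕ) {τ : ℝ}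
    (hτ1 : 1 ≤ τ) (hτ : ∀ n ≤ (2 * N) ^ (m + 1), (n.divisors.card : ℝ) ≤ τ) :
    ∃ c : ℕ → ℕ → ℂ, (∀ j n, ‖c j n‖ ≤ 1) ∧ ∀ t : ℝ, ‖DP N b t‖ ^ (m + 1) ≤
      τ ^ (m + 1) * ∑ j ∈ range (m + 1), ‖DP (2 ^ j * N ^ (m + 1)) (c j) t‖ := by
  have h0 : 0 < τ ^ (m + 1) := by positivity
  refine ⟨fun j n => if j = 0 ∨ n ≠ 2 ^ j * N ^ (m + 1) then
    (tr N b ^ (m + 1)) n / (τ ^ (m + 1) : ℝ) else 0, fun j n => ?_, fun t => ?_⟩
  · beta_reduce
    split_ifs
    · rw [norm_div, Complex.norm_real, Real.norm_of_nonneg h0.le, div_le_one h0]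
      by_cases h : n ≤ (2 * N) ^ (m + 1)
      · exact (tr_pow_norm N b _ n).trans (tr_pow_le N b hb hτ1 hτ _ n h)
      · rw [tr_pow_supp N b _ n fun h' => h (mem_Icc.1 h').2, norm_zero]
        exact h0.le
    · simp
  · have h1 := tr_pow_sum hN b (fun n => pw n t) (fun x y hx hy => by
      rw [Nat.cast_mul, pw_mul (by exact_mod_cast hx) (by exact_mod_cast hy)])
      (by simp [pw_one]) (m + 1)
    rw [← norm_pow, DP, ← h1, mul_pow, split_Lqk, mul_sum]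
    refine (norm_sum_le _ _).trans (sum_le_sum fun j _ => le_of_eq ?_)
    rw [← Real.norm_of_nonneg h0.le, ← Complex.norm_real, ← norm_mul, DP, mul_sum]
    refine congrArg _ (sum_congr rfl fun n _ => ?_)
    have : ((τ ^ (m + 1) : ℝ) : ℂ) ≠ 0 := by exact_mod_cast h0.ne'
    rw [Complex.norm_real, Real.norm_of_nonneg h0.le]
    beta_reduce
    split_ifs
    · field_simp
    · simp

theorem lqk_stmt (hL : LqStmt) : LqkStmt := by
  intro k hk q hq1 hq2 ε hε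
  have hk0 : (0 : ℝ) < k := by exact_mod_cast hk
  have hk1 : (1 : ℝ) ≤ k := by exact_mod_cast hk
  obtain ⟨r, rfl⟩ : ∃ r, q = k * r := ⟨q / k, by field_simp⟩
  have hr1 : 2 ≤ r := le_of_mul_le_mul_left (by linarith) hk0
  have hr2 : r ≤ 4 := le_of_mul_le_mul_left (by linarith) hk0
  obtain ⟨e, he, heε⟩ : ∃ e : ℝ, 0 < e ∧ k * (e * (k * 4) + e) ≤ ε := by
    refine ⟨ε / (5 * k ^ 2), by positivity, ?_⟩
    have : k * (ε / (5 * k ^ 2) * (k * 4) + ε / (5 * k ^ 2)) = ε * ((4 * k + 1) / (5 * k)) := by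
      field_simp
    rw [this]
    exact mul_le_of_le_one_right hε.le ((div_le_one (by positivity)).2 (by linarith))
  obtain ⟨K, hK, hL⟩ := hL r hr1 hr2 e he
  obtain ⟨C, hC, hd⟩ := divisor_bound he
  refine ⟨C ^ (k * 4 : ℝ) * (k : ℝ) ^ (r - 1) * k * K * 2 ^ ε * 2 ^ (k * r),
    fun N T hN hT b hb => ?_⟩
  rw [show 24 * (k : ℝ) - 5 * (k * r) = k * (24 - 5 * r) by ring,
    show 26 * (k : ℝ) - 6 * (k * r) = k * (26 - 6 * r) by ring, mul_div_assoc,
    mul_div_mul_left _ _ hk0.ne', Real.rpow_mul (by positivity), Real.rpow_natCast] at hT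
  have hN1 : (1 : ℝ) ≤ N := by exact_mod_cast hN
  obtain ⟨X, hX⟩ : ∃ X : ℝ, X = (2 * N) ^ k := ⟨_, rfl⟩
  have hX1 : 1 ≤ X := hX ▸ one_le_pow₀ (by linarith)
  have hX0 : 0 < X := by linarith
  have hτ : 1 ≤ C * X ^ e := one_le_mul_of_one_le_of_one_le hC (Real.one_le_rpow hX1 he.le)
  obtain ⟨m, rfl⟩ : ∃ m, k = m + 1 := ⟨k - 1, by omega⟩
  obtain ⟨c, hc, h1⟩ := pow_Lqk hN b hb m hτ fun n hn => (hd n).trans (by
    gcongr
    rw [hX]
    exact_mod_cast hn)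
  generalize m + 1 = k at *
  have h2 : ∀ t : ℝ, ‖DP N b t‖ ^ (k * r) ≤ (C * X ^ e) ^ (k * 4 : ℝ) * (k : ℝ) ^ (r - 1) *
      ∑ j ∈ range k, ‖DP (2 ^ j * N ^ k) (c j) t‖ ^ r := fun t => by
    rw [Real.rpow_mul (norm_nonneg _), Real.rpow_natCast]
    refine (Real.rpow_le_rpow (by positivity) (h1 t) (by linarith)).trans ?_
    rw [Real.mul_rpow (by positivity) (by positivity), mul_assoc]
    refine mul_le_mul ?_ ?_ (by positivity) (by positivity)
    · rw [← Real.rpow_natCast, ← Real.rpow_mul (by positivity)]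
      exact Real.rpow_le_rpow_of_exponent_le hτ (by gcongr)
    · simpa using Real.rpow_sum_le_const_mul_sum_rpow_of_nonneg (s := range k)
        (f := fun j => ‖DP (2 ^ j * N ^ k) (c j) t‖) (p := r) (by linarith)
        fun _ _ => norm_nonneg _
  have h3 : ∀ j ∈ range k, ∑ t ∈ Icc 1 T, ‖DP (2 ^ j * N ^ k) (c j) (t : ℕ)‖ ^ r ≤
      K * X ^ e * X ^ r := fun j hj => by
    have k1 : ((2 ^ j * N ^ k : ℕ) : ℝ) ≤ X := by
      rw [hX, mul_pow]
      push_cast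
      gcongr
      · norm_num
      · exact (mem_range.1 hj).le
    refine (hL _ T (Nat.succ_le_of_lt (by positivity)) (hT.trans ?_) _ (hc j)).trans (by gcongr)
    refine Real.rpow_le_rpow (by positivity) ?_ (div_nonneg (by linarith) (by linarith))
    push_cast
    exact le_mul_of_one_le_left (by positivity) (one_le_pow₀ one_le_two)
  refine (sum_le_sum fun (t : ℕ) _ => h2 t).trans ?_
  rw [← mul_sum, sum_comm]
  have h4 := sum_le_card_nsmul _ _ _ h3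
  rw [card_range, nsmul_eq_mul] at h4
  have h5 : (X ^ e) ^ (k * 4 : ℝ) * X ^ e ≤ 2 ^ ε * (N : ℝ) ^ ε := by
    rw [← Real.rpow_mul hX0.le, ← Real.rpow_add hX0, hX, ← Real.rpow_natCast,
      ← Real.rpow_mul (by positivity), ← Real.mul_rpow (by norm_num) (by positivity)]
    exact Real.rpow_le_rpow_of_exponent_le (by linarith) heε
  have h6 : X ^ r = 2 ^ (k * r) * (N : ℝ) ^ (k * r) := by
    rw [hX, ← Real.rpow_natCast, ← Real.rpow_mul (by positivity),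
      Real.mul_rpow (by norm_num) (by positivity)]
  calc _ ≤ (C * X ^ e) ^ (k * 4 : ℝ) * (k : ℝ) ^ (r - 1) * (k * (K * X ^ e * X ^ r)) := by gcongr
    _ = C ^ (k * 4 : ℝ) * (k : ℝ) ^ (r - 1) * k * K * ((X ^ e) ^ (k * 4 : ℝ) * X ^ e) * X ^ r := by
      rw [Real.mul_rpow (by positivity) (by positivity)]
      ring
    _ ≤ C ^ (k * 4 : ℝ) * (k : ℝ) ^ (r - 1) * k * K * (2 ^ ε * (N : ℝ) ^ ε) * X ^ r := by gcongr
    _ = _ := by
      rw [h6]
      ring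

end Pool.Agent.MP_2a1f0e_nt.RF

end

section

set_option autoImplicit false
open Finset
open scoped ComplexConjugate
namespace Pool.Agent.MP_2a1f0e_nt.RF
open GM

lemma gw_Core (N T : ℕ) (b : ℕ → ℂ) {U : ℝ} (hU : 0 ≤ U) (hT : 1 ≤ T) {t : ℤ} (ht : t ∈ IT T) :
    0 ≤ gw N T b (√U) t ∧ gw N T b (√U) t ≤ U ∧ gw N T b (√U) t ≤ ‖DP N b t‖ ^ 2 := by
  have hT' : (0 : ℝ) < T := by exact_mod_cast hT
  rw [mem_IT] at ht
  have h1 : |(t : ℝ)| ≤ 2 * T := by
    have : |t| ≤ 2 * (T : ℤ) := by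
      rw [abs_le]
      omega
    exact_mod_cast this
  have h2 : 0 ≤ (2 * (T : ℝ) - |(t : ℝ)|) / (2 * T) := div_nonneg (sub_nonneg.2 h1) (by positivity)
  have h3 : (2 * (T : ℝ) - |(t : ℝ)|) / (2 * T) ≤ 1 := by
    rw [div_le_one (by positivity)]
    linarith [abs_nonneg (t : ℝ)]
  unfold gw
  split_ifs with h
  · have h4 := mul_le_of_le_one_left (sq_nonneg ‖DP N b t‖) h3
    refine ⟨by positivity, h4.trans ?_, h4⟩
    rw [← Real.sq_sqrt hU]
    exact pow_le_pow_left₀ (norm_nonneg _) h.le 2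
  · rw [mul_zero]
    exact ⟨le_rfl, hU, sq_nonneg _⟩

lemma low_Core (N T : ℕ) (b : ℕ → ℂ) {U : ℝ} (hU : 0 ≤ U) (hT : 1 ≤ T) :
    ∑ t ∈ (Icc 0 (T : ℤ)).filter (fun t : ℤ => ‖DP N b t‖ < √U), ‖DP N b t‖ ^ 4 ≤
      2 * ∑ t ∈ IT T, gw N T b (√U) t * ‖DP N b t‖ ^ 2 := by
  have hT' : (0 : ℝ) < T := by exact_mod_cast hT
  rw [mul_sum]
  refine le_trans (sum_le_sum fun t ht => ?_) (sum_le_sum_of_subset_of_nonneg
    (s := (Icc 0 (T : ℤ)).filter (fun t : ℤ => ‖DP N b t‖ < √U)) (fun t ht => ?_)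
    fun t ht _ => mul_nonneg zero_le_two (mul_nonneg (gw_Core N T b hU hT ht).1 (sq_nonneg _)))
  · rw [mem_filter, mem_Icc] at ht
    have h1 : |(t : ℝ)| ≤ T := by
      have : |t| ≤ (T : ℤ) := by
        rw [abs_le]
        omega
      exact_mod_cast this
    have h2 : 1 / 2 ≤ (2 * (T : ℝ) - |(t : ℝ)|) / (2 * T) := by
      rw [le_div_iff₀ (by positivity)]
      linarith
    rw [gw, if_pos ht.2]
    nlinarith [mul_le_mul_of_nonneg_right h2 (by positivity : 0 ≤ ‖DP N b t‖ ^ 4)]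
  · rw [mem_filter, mem_Icc] at ht
    rw [mem_IT]
    omega

lemma root_Core {N T : ℝ} (hN : 0 < N) (hT : 0 < T) (h : T ≤ N ^ 2) :
    ∃ x : ℝ, 1 ≤ x ∧ x ^ 7 * T = N ^ 2 ∧ N ^ (26 / 7 : ℝ) * T ^ (1 / 7 : ℝ) * x = N ^ 4 := by
  have h1 : ∀ y : ℝ, 0 ≤ y → (y ^ (1 / 7 : ℝ)) ^ 7 = y := fun y hy => by
    rw [← Real.rpow_natCast, ← Real.rpow_mul hy]
    norm_num
  have h2 : (N ^ (26 / 7 : ℝ)) ^ 7 = N ^ 26 := by
    rw [← Real.rpow_natCast, ← Real.rpow_mul hN.le, ← Real.rpow_natCast]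
    norm_num
  refine ⟨(N ^ 2 / T) ^ (1 / 7 : ℝ), Real.one_le_rpow ((one_le_div hT).2 h) (by norm_num), ?_, ?_⟩
  · rw [h1 _ (by positivity), div_mul_cancel₀ _ hT.ne']
  · refine (pow_left_inj₀ (n := 7) (by positivity) (by positivity) (by norm_num)).1 ?_
    rw [mul_pow, mul_pow, h1 _ hT.le, h1 _ (by positivity), h2]
    field_simp

theorem core_stmt (hA : AbsStmt) (hB : BigStmt) (hM : MassStmt) (hV : MVStmt) : CoreStmt := by
  intro ε hε
  have hη : 0 < ε / 18 := by positivity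
  obtain ⟨A, hA1, hA⟩ := hA _ hη
  obtain ⟨c, hc, hB⟩ := hB
  obtain ⟨K₁, hK₁, hM⟩ := hM _ hη
  obtain ⟨K₂, hK₂, hV⟩ := hV _ hη
  obtain ⟨A', a1, a2, a3⟩ : ∃ A' : ℝ, A ≤ A' ∧ c + 2 * K₁ ≤ A' ∧ c * (1 + 1 / (ε / 18)) ≤ A' := by
    have : 0 ≤ c * (1 + 1 / (ε / 18)) := by positivity
    exact ⟨A + c + 2 * K₁ + c * (1 + 1 / (ε / 18)), by linarith, by linarith, by linarith⟩
  have a0 : 0 < A' := by linarith
  have A0 : 0 < A := by linarith
  refine ⟨2 * A * (1 + 4 * A' ^ 17) + 4 * K₂, by positivity, fun N T hN hNT hT b hb => ?_⟩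
  have hT1 : 1 ≤ T := hN.trans hNT
  have hN' : (1 : ℝ) ≤ N := by exact_mod_cast hN
  have hT' : (1 : ℝ) ≤ T := by exact_mod_cast hT1
  obtain ⟨x, x1, x2, x3⟩ := root_Core (N := N) (T := T) (by linarith) (by linarith)
    (by exact_mod_cast hT)
  have hR : 0 ≤ (N : ℝ) ^ (26 / 7 : ℝ) * (T : ℝ) ^ (1 / 7 : ℝ) := by positivity
  generalize (N : ℝ) ^ (26 / 7 : ℝ) * (T : ℝ) ^ (1 / 7 : ℝ) = R at x3 hR ⊢
  have e18 : (N : ℝ) ^ ε = ((N : ℝ) ^ (ε / 18)) ^ 18 := by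
    rw [← Real.rpow_natCast, ← Real.rpow_mul (by linarith)]
    congr 1
    push_cast
    ring
  have n1 : 1 ≤ (N : ℝ) ^ (ε / 18) := Real.one_le_rpow hN' hη.le
  have hlog := Real.log_le_rpow_div (x := N) (by linarith) hη
  have hA' := hA N T
  have hM' := hM N T hN hNT hT b hb
  have hV' := (hV N T hN hNT hT b hb).2
  rw [e18]
  generalize (N : ℝ) ^ (ε / 18) = n at n1 hlog hA' hM' hV' ⊢
  have n0 : 0 < n := by linarith
  have n18 : 1 ≤ n ^ 18 := one_le_pow₀ n1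
  by_cases h : 2 ≤ N ∧ n ≤ x / (4 * n)
  · have hU : 0 ≤ (N : ℝ) * √(T : ℝ) := by positivity
    have h1 := hA' (A' * n) (x / (4 * n)) (N * √(T : ℝ)) (gw N T b √(N * √(T : ℝ))) b h.1 hNT hT h.2
      (by
        rw [div_pow, ← x2, mul_assoc (4 * n), div_mul_eq_mul_div, ← mul_div_assoc,
          div_le_iff₀ (by positivity), mul_comm]
        exact mul_le_mul_of_nonneg_left (le_self_pow₀ (by linarith) (by norm_num)) (by positivity))
      (mul_le_mul_of_nonneg_right a1 n0.le) hb (fun t ht => gw_Core N T b hU hT1 ht)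
      ((hB N T b _ _ hN hNT hT hb hM').mono
        (by
          have h2 : c + 2 * (K₁ * n) ≤ A' * n := by nlinarith
          nlinarith [mul_le_mul_of_nonneg_right h2 (sq_nonneg (N : ℝ))])
        (by
          have h2 : 1 + Real.log N ≤ (1 + 1 / (ε / 18)) * n := by
            rw [add_mul, one_mul, one_div_mul_eq_div]
            linarith
          have h3 : c * (1 + Real.log N) ≤ A' * n := by
            nlinarith [mul_le_mul_of_nonneg_left h2 hc.le]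
          nlinarith [mul_le_mul_of_nonneg_right h3
            (by positivity : 0 ≤ (T : ℝ) ^ 2 * (N : ℝ) ^ 2)]))
    have h4 : (N : ℝ) ^ 2 * (N * √(T : ℝ)) ≤ R := by
      have h5 : √(T : ℝ) * x ≤ N := by
        refine (pow_le_pow_iff_left₀ (n := 2) (by positivity) (by positivity) (by norm_num)).1 ?_
        rw [mul_pow, Real.sq_sqrt (by linarith), ← x2, mul_comm]
        exact mul_le_mul_of_nonneg_right (pow_le_pow_right₀ x1 (by norm_num)) (by linarith)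
      refine le_of_mul_le_mul_right ?_ (by linarith : 0 < x)
      rw [x3]
      nlinarith [mul_le_mul_of_nonneg_left h5 (by positivity : 0 ≤ (N : ℝ) ^ 3)]
    have h6 : (N : ℝ) ^ 4 / (x / (4 * n)) = 4 * n * R := by
      rw [← x3]
      field_simp
    rw [h6] at h1
    have h7 : (N : ℝ) ^ 2 * (N * √(T : ℝ)) + (A' * n) ^ 17 * (4 * n * R) ≤
        (1 + 4 * A' ^ 17) * (n ^ 18 * R) := by
      nlinarith [mul_le_mul_of_nonneg_right n18 hR]
    have h8 := mul_le_mul_of_nonneg_left h7 A0.le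
    have h9 : 0 ≤ K₂ * (n ^ 18 * R) := by positivity
    refine (low_Core N T b hU hT1).trans ?_
    nlinarith
  · have h1 : x ≤ 4 * n ^ 2 := by
      rcases not_and_or.1 h with h2 | h2
      · have h3 : N = 1 := by omega
        subst h3
        have h4 : x ^ 7 ≤ 1 := by
          have : 0 ≤ x ^ 7 := by positivity
          push_cast at x2
          nlinarith
        have h5 := (pow_le_one_iff_of_nonneg (by linarith) (by norm_num)).1 h4
        nlinarith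
      · rw [not_le, div_lt_iff₀ (by positivity)] at h2
        nlinarith
    refine (sum_le_sum_of_subset_of_nonneg (filter_subset _ _) fun _ _ _ => by positivity).trans
      (hV'.trans ?_)
    have h2 : n * x ≤ 4 * n ^ 18 := by
      have : n ^ 3 ≤ n ^ 18 := pow_le_pow_right₀ n1 (by norm_num)
      nlinarith [mul_le_mul_of_nonneg_left h1 n0.le]
    have h3 := mul_le_mul_of_nonneg_left h2 (mul_nonneg hK₂.le hR)
    have h4 : 0 ≤ 2 * A * (1 + 4 * A' ^ 17) * (n ^ 18 * R) := by positivity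
    rw [← x3]
    nlinarith

end Pool.Agent.MP_2a1f0e_nt.RF

end

section

set_option autoImplicit false

open Finset
open scoped ComplexConjugate

namespace Pool.Agent.MP_2a1f0e_nt.RF

open GM

lemma mu_Prin (n : ℕ) : ∑ e ∈ n.divisors, ArithmeticFunction.moebius e = if n = 1 then 1 else 0 := by
  have h := congrArg (fun f : ArithmeticFunction ℤ => f n)
    (ArithmeticFunction.coe_moebius_mul_coe_zeta (R := ℤ))
  simp only [ArithmeticFunction.coe_mul_zeta_apply, ArithmeticFunction.one_apply] at h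
  simpa using h

lemma cop_Prin (L q : ℕ) (hq : 1 ≤ q) :
    (cop L q : ℤ) = ∑ e ∈ q.divisors, ArithmeticFunction.moebius e * ((L / e : ℕ) : ℤ) := by
  have h1 : ∀ j : ℕ, (if Nat.Coprime j q then (1 : ℤ) else 0) =
      ∑ e ∈ q.divisors, if e ∣ j then ArithmeticFunction.moebius e else 0 := by
    intro j
    rw [← sum_filter, ← mu_Prin]
    refine sum_congr ?_ fun _ _ => rfl
    ext e
    rw [mem_filter, Nat.mem_divisors, Nat.mem_divisors, Nat.dvd_gcd_iff]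
    have : Nat.gcd j q ≠ 0 := Nat.gcd_ne_zero_right (by omega)
    constructor
    · exact fun h => ⟨⟨h.1.2, by omega⟩, h.1.1⟩
    · exact fun h => ⟨⟨h.2, h.1.1⟩, this⟩
  rw [cop, card_filter]
  push_cast
  simp only [h1]
  rw [sum_comm]
  refine sum_congr rfl fun e _ => ?_
  rw [← sum_filter, sum_const, nsmul_eq_mul, mul_comm]
  congr 1
  have : Icc 1 L = Ioc 0 L := rfl
  rw [this, Nat.Ioc_filter_dvd_card_eq_div]
  rfl

lemma tot_Prin (q : ℕ) (hq : 1 ≤ q) :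
    (q.totient : ℝ) = q * ∑ e ∈ q.divisors, (ArithmeticFunction.moebius e : ℝ) / e := by
  have h1 : cop q q = q.totient := by
    rw [cop, ← Nat.filter_coprime_Ico_eq_totient q 1]
    congr 1
    ext j
    simp only [mem_filter, mem_Icc, mem_Ico, Nat.coprime_comm]
    constructor
    · exact fun h => ⟨⟨h.1.1, by omega⟩, h.2⟩
    · exact fun h => ⟨⟨h.1.1, by omega⟩, h.2⟩
  have h2 := congrArg (fun x : ℤ => (x : ℝ)) (cop_Prin q q hq)
  simp only [h1, Int.cast_natCast, Int.cast_sum, Int.cast_mul] at h2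
  rw [h2, mul_sum]
  refine sum_congr rfl fun e he => ?_
  have he' := Nat.dvd_of_mem_divisors he
  have h0 : (e : ℝ) ≠ 0 := by exact_mod_cast (Nat.pos_of_mem_divisors he).ne'
  rw [Nat.cast_div he' h0]
  ring

theorem prin_stmt : PrinStmt := by
  intro q J g hq hg
  have hφ : (0 : ℝ) < q.totient := by exact_mod_cast Nat.totient_pos.2 hq
  have hq' : (0 : ℝ) < q := by exact_mod_cast hq
  have hg' : (0 : ℝ) < g := by exact_mod_cast hg
  have h1 : (q : ℝ) ≤ q.totient * q.divisors.card := by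
    have k : q ≤ q.divisors.card * q.totient := by
      conv_lhs => rw [← Nat.sum_totient q]
      exact sum_le_card_nsmul _ _ _ fun e he => Nat.le_of_dvd (Nat.totient_pos.2 hq)
        (Nat.totient_dvd_of_dvd (Nat.dvd_of_mem_divisors he))
    rw [mul_comm]
    exact_mod_cast k
  refine ⟨h1, ?_⟩
  have h2 := congrArg (fun x : ℤ => (x : ℝ)) (cop_Prin (J / g) q hq)
  simp only [Int.cast_natCast, Int.cast_sum, Int.cast_mul] at h2
  have h3 : (cop (J / g) q : ℝ) - (J : ℝ) / (g * q) * q.totient =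
      ∑ e ∈ q.divisors, (ArithmeticFunction.moebius e : ℝ) *
        (((J / g / e : ℕ) : ℝ) - (J : ℝ) / (g * e)) := by
    rw [h2, tot_Prin q hq, ← mul_assoc, mul_sum, ← sum_sub_distrib]
    refine sum_congr rfl fun e he => ?_
    have h0 : (e : ℝ) ≠ 0 := by exact_mod_cast (Nat.pos_of_mem_divisors he).ne'
    field_simp
  have h4 : |(cop (J / g) q : ℝ) - (J : ℝ) / (g * q) * q.totient| ≤ q.divisors.card := by
    rw [h3]
    refine (abs_sum_le_sum_abs _ _).trans ?_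
    have := sum_le_card_nsmul q.divisors (fun e => |(ArithmeticFunction.moebius e : ℝ) *
        (((J / g / e : ℕ) : ℝ) - (J : ℝ) / (g * e))|) 1 fun e he => by
      have k1 : |(ArithmeticFunction.moebius e : ℝ)| ≤ 1 := by
        exact_mod_cast ArithmeticFunction.abs_moebius_le_one
      have k2 : |((J / g / e : ℕ) : ℝ) - (J : ℝ) / (g * e)| ≤ 1 := by
        rw [Nat.div_div_eq_div_mul, ← Nat.cast_mul, ← Nat.floor_div_eq_div (K := ℝ), abs_le]
        have k3 := Nat.floor_le (show (0 : ℝ) ≤ (J : ℝ) / (g * e : ℕ) by positivity)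
        have k4 := Nat.lt_floor_add_one ((J : ℝ) / (g * e : ℕ))
        constructor <;> linarith
      rw [abs_mul]
      exact mul_le_one₀ k1 (abs_nonneg _) k2
    simpa using this
  have h5 : (cop (J / g) q : ℝ) / q.totient - (J : ℝ) / (g * q) =
      ((cop (J / g) q : ℝ) - (J : ℝ) / (g * q) * q.totient) / q.totient := by
    field_simp
  rw [h5, abs_div, abs_of_pos hφ, div_le_div_iff₀ hφ hq']
  have h6 : (0 : ℝ) ≤ q.divisors.card := by positivity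
  calc _ ≤ (q.divisors.card : ℝ) * (q.totient * q.divisors.card) := mul_le_mul h4 h1 hq'.le h6
    _ = _ := by ring

end Pool.Agent.MP_2a1f0e_nt.RF

end

section

set_option autoImplicit false

open Finset
open scoped ComplexConjugate

namespace Pool.Agent.MP_2a1f0e_nt.RF

open GM

theorem orth_Orth {q : ℕ} [NeZero q] (b b' : ZMod q) :
    ‖∑ χ : DirichletCharacter ℂ q, χ b * conj (χ b')‖ ≤
      if b = b' then (q.totient : ℝ) else 0 := by
  by_cases hb : IsUnit b'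
  · obtain ⟨u, rfl⟩ := hb
    have : ∀ χ : DirichletCharacter ℂ q, χ b * conj (χ u) = χ (↑u⁻¹ * b) := fun χ => by
      rw [map_mul, map_units_inv, ← Complex.star_def, MulChar.star_apply',
        MulChar.inv_apply_eq_inv', mul_comm]
    simp only [this, DirichletCharacter.sum_characters_eq, Units.inv_mul_eq_one]
    by_cases h : (u : ZMod q) = b
    · simp [h]
    · simp [h, Ne.symm h]
  · simp only [MulChar.map_nonunit _ hb, map_zero, mul_zero, sum_const_zero, norm_zero]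
    split_ifs <;> positivity

theorem orth_stmt : OrthStmt := by
  classical
  intro q ι s ξ α m hq hm
  have : NeZero q := ⟨by omega⟩
  have h1 : ((∑ χ : DirichletCharacter ℂ q, ‖∑ i ∈ s, α i * χ (ξ i : ZMod q)‖ ^ 2 : ℝ) : ℂ) =
      ∑ i ∈ s, ∑ i' ∈ s, α i * conj (α i') *
        ∑ χ : DirichletCharacter ℂ q, χ (ξ i : ZMod q) * conj (χ (ξ i' : ZMod q)) := by
    push_cast
    simp only [← Complex.mul_conj', map_sum, map_mul]
    simp only [sum_mul_sum]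
    simp only [mul_sum]
    rw [sum_comm]
    refine sum_congr rfl fun i _ => ?_
    rw [sum_comm]
    refine sum_congr rfl fun i' _ => sum_congr rfl fun χ _ => by ring
  have h2 : (∑ χ : DirichletCharacter ℂ q, ‖∑ i ∈ s, α i * χ (ξ i : ZMod q)‖ ^ 2 : ℝ) ≤
      ∑ i ∈ s, ∑ i' ∈ s, ‖α i‖ * ‖α i'‖ *
        (if (ξ i : ZMod q) = (ξ i' : ZMod q) then (q.totient : ℝ) else 0) := by
    refine (le_abs_self _).trans ?_
    rw [← Real.norm_eq_abs, ← Complex.norm_real, h1]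
    refine (norm_sum_le _ _).trans (sum_le_sum fun i _ => (norm_sum_le _ _).trans
      (sum_le_sum fun i' _ => ?_))
    rw [norm_mul, norm_mul, Complex.norm_conj]
    exact mul_le_mul_of_nonneg_left (orth_Orth _ _) (by positivity)
  refine h2.trans ?_
  have h3 : ∀ i ∈ s, ∑ i' ∈ s,
      (if (ξ i : ZMod q) = (ξ i' : ZMod q) then (q.totient : ℝ) else 0) ≤ q.totient * m := by
    intro i _
    rw [← sum_filter, sum_const, nsmul_eq_mul, mul_comm]
    refine mul_le_mul_of_nonneg_left (hm _ (filter_subset _ _) fun a ha a' ha' => ?_)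
      (by positivity)
    rw [← ZMod.natCast_eq_natCast_iff, ← (mem_filter.1 ha).2, ← (mem_filter.1 ha').2]
  calc _ ≤ ∑ i ∈ s, ∑ i' ∈ s, (‖α i‖ ^ 2 / 2 + ‖α i'‖ ^ 2 / 2) *
        (if (ξ i : ZMod q) = (ξ i' : ZMod q) then (q.totient : ℝ) else 0) := by
        refine sum_le_sum fun i _ => sum_le_sum fun i' _ => mul_le_mul_of_nonneg_right ?_ ?_
        · nlinarith [sq_nonneg (‖α i‖ - ‖α i'‖)]
        · split_ifs <;> positivity
    _ = ∑ i ∈ s, ‖α i‖ ^ 2 * ∑ i' ∈ s,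
        (if (ξ i : ZMod q) = (ξ i' : ZMod q) then (q.totient : ℝ) else 0) := by
        simp only [add_mul, sum_add_distrib]
        rw [sum_comm (s := s) (t := s) (f := fun i i' => ‖α i'‖ ^ 2 / 2 * _), ← sum_add_distrib]
        refine sum_congr rfl fun i _ => ?_
        rw [mul_sum, ← sum_add_distrib]
        refine sum_congr rfl fun i' _ => ?_
        by_cases h : (ξ i : ZMod q) = (ξ i' : ZMod q)
        · rw [if_pos h, if_pos h.symm]; ring
        · rw [if_neg h, if_neg (Ne.symm h)]; ring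
    _ ≤ ∑ i ∈ s, ‖α i‖ ^ 2 * (q.totient * m) :=
        sum_le_sum fun i hi => mul_le_mul_of_nonneg_left (h3 i hi) (by positivity)
    _ = _ := by rw [← sum_mul]; ring

end Pool.Agent.MP_2a1f0e_nt.RF

end

section

set_option autoImplicit false

open Finset
open scoped ComplexConjugate

namespace Pool.Agent.MP_2a1f0e_nt.RF

open GM

/-- the conductor together with the primitive character -/
noncomputable def emb_Fib (q : ℕ) (χ : DirichletCharacter ℂ q) :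
    (r : ℕ) × DirichletCharacter ℂ r := ⟨χ.conductor, χ.primitiveCharacter⟩

theorem inj_Fib (q : ℕ) : Function.Injective (emb_Fib q) := by
  classical
  let G : ((r : ℕ) × DirichletCharacter ℂ r) → DirichletCharacter ℂ q := fun a =>
    if h : a.1 ∣ q then DirichletCharacter.changeLevel h a.2 else 1
  refine Function.LeftInverse.injective (g := G) fun χ => ?_
  have h : (emb_Fib q χ).1 ∣ q := χ.conductor_dvd_level
  simp only [G, dif_pos h]
  exact χ.changeLevel_primitiveCharacter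

theorem fib_stmt : FibStmt := by
  classical
  intro q F hq hF
  have : NeZero q := ⟨by omega⟩
  rw [sum_sigma' (q.divisors.erase 1) prim (fun r ψ => F r ψ)]
  refine le_of_eq_of_le (sum_image (g := emb_Fib q) (f := fun a => F a.1 a.2)
    (fun a _ b _ h => inj_Fib q h)).symm ?_
  refine sum_le_sum_of_subset_of_nonneg (fun a ha => ?_) (fun a _ _ => hF _ _)
  obtain ⟨χ, hχ, rfl⟩ := mem_image.mp ha
  rw [mem_sigma, mem_erase, Nat.mem_divisors, mem_prim]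
  refine ⟨⟨fun h => (@ne_of_mem_erase _ (_) _ _ _ hχ) ?_, χ.conductor_dvd_level, by omega⟩,
    χ.primitiveCharacter_isPrimitive⟩
  exact DirichletCharacter.eq_one_iff_conductor_eq_one.mpr h

end Pool.Agent.MP_2a1f0e_nt.RF

end

section

set_option autoImplicit false

open Finset
open scoped ComplexConjugate

namespace Pool.Agent.MP_2a1f0e_nt.RF

open GM

theorem cnt_mul_Red (J g q n : ℕ) (hg : 0 < g) : cnt J (g * q) (g * n) = cnt (J / g) q n := by
  unfold cnt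
  symm
  refine card_bij (fun j _ => g * j) ?_ ?_ ?_
  · intro j hj
    simp only [mem_filter, mem_Icc] at hj ⊢
    refine ⟨⟨Nat.mul_pos hg hj.1.1, ?_⟩, ?_⟩
    · rw [mul_comm]
      exact (Nat.le_div_iff_mul_le hg).1 hj.1.2
    · rw [← mul_add]
      exact Nat.mul_dvd_mul_left g hj.2
  · intro a _ b _ h
    exact Nat.eq_of_mul_eq_mul_left hg h
  · intro j hj
    simp only [mem_filter, mem_Icc] at hj
    have h1 : g ∣ g * n + j := (Dvd.intro q rfl).trans hj.2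
    obtain ⟨k, rfl⟩ : g ∣ j := (Nat.dvd_add_right (Dvd.intro n rfl)).1 h1
    refine ⟨k, ?_, rfl⟩
    simp only [mem_filter, mem_Icc]
    refine ⟨⟨?_, ?_⟩, ?_⟩
    · rcases Nat.eq_zero_or_pos k with rfl | hk
      · simp at hj
      · exact hk
    · rw [Nat.le_div_iff_mul_le hg, mul_comm]
      exact hj.1.2
    · have h2 := hj.2
      rw [← mul_add] at h2
      exact Nat.dvd_of_mul_dvd_mul_left hg h2

theorem cop_Red {X Q g : ℕ} (hQ : 1 ≤ Q) (h1 : Nat.gcd X Q ∣ g) (h2 : g ∣ Q) :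
    Nat.Coprime (X / Nat.gcd X Q) (Q / g) :=
  (Nat.coprime_div_gcd_div_gcd (Nat.gcd_pos_of_pos_right X hQ)).coprime_dvd_right
    (Nat.div_dvd_div_left h2 h1)

theorem red_stmt : RedStmt := by
  intro J Q X Z hQ
  have hg : 0 < Nat.gcd (Nat.gcd X Q * Nat.gcd Z Q) Q := Nat.gcd_pos_of_pos_right _ hQ
  have hgQ : Nat.gcd (Nat.gcd X Q * Nat.gcd Z Q) Q ∣ Q := Nat.gcd_dvd_right _ _
  have hgd : Nat.gcd (Nat.gcd X Q * Nat.gcd Z Q) Q ∣ Nat.gcd X Q * Nat.gcd Z Q :=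
    Nat.gcd_dvd_left _ _
  refine ⟨?_, Nat.coprime_div_gcd_div_gcd hg,
    cop_Red hQ (Nat.dvd_gcd (Dvd.intro _ rfl) (Nat.gcd_dvd_right _ _)) hgQ,
    cop_Red hQ (Nat.dvd_gcd (Dvd.intro_left _ rfl) (Nat.gcd_dvd_right _ _)) hgQ⟩
  rw [← cnt_mul_Red J _ _ _ hg, Nat.mul_div_cancel' hgQ]
  congr 1
  rw [← mul_assoc, ← mul_assoc, Nat.mul_div_cancel' hgd]
  have hX : Nat.gcd X Q * (X / Nat.gcd X Q) = X := Nat.mul_div_cancel' (Nat.gcd_dvd_left _ _)
  have hZ : Nat.gcd Z Q * (Z / Nat.gcd Z Q) = Z := Nat.mul_div_cancel' (Nat.gcd_dvd_left _ _)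
  calc X * Z = (Nat.gcd X Q * (X / Nat.gcd X Q)) * (Nat.gcd Z Q * (Z / Nat.gcd Z Q)) := by
        rw [hX, hZ]
    _ = _ := by ring

end Pool.Agent.MP_2a1f0e_nt.RF

end

section

set_option autoImplicit false

open Finset
open scoped ComplexConjugate

namespace Pool.Agent.MP_2a1f0e_nt.RF

open GM

lemma win_MultEq {ρ l w K : ℝ} (hρ : 0 < ρ) (hK : ρ ≤ 2 * K) (hw : 0 ≤ w) (hw1 : w ≤ 1)
    (h1 : l ≤ Real.log ρ) (h2 : Real.log ρ ≤ l + w) :
    Real.exp l ≤ ρ ∧ ρ ≤ Real.exp l + 4 * K * w := by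
  have a1 : Real.exp l ≤ ρ := (Real.le_log_iff_exp_le hρ).1 h1
  have a2 : ρ ≤ Real.exp l * Real.exp w := by
    rw [← Real.exp_add]
    exact (Real.log_le_iff_le_exp hρ).1 h2
  have a3 := Real.abs_exp_sub_one_le (x := w) (by rwa [abs_of_nonneg hw])
  rw [abs_of_nonneg hw] at a3
  have a4 : Real.exp l * Real.exp w ≤ Real.exp l * (1 + 2 * w) :=
    mul_le_mul_of_nonneg_left (by linarith [le_abs_self (Real.exp w - 1)]) (Real.exp_pos l).le
  have a5 : Real.exp l * w ≤ 2 * K * w := mul_le_mul_of_nonneg_right (a1.trans hK) hw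
  exact ⟨a1, by linarith⟩

theorem multEq_stmt (hF : FareyStmt) : MultEqStmt := by
  intro N C K d Δ w l hN hC hK hd hΔ hw hw1 s hs h
  have hd0 : (0 : ℝ) < d := by exact_mod_cast hd
  obtain ⟨φ, hφ⟩ : ∃ φ : (ℕ × ℕ) × ℕ → ℕ × ℕ, φ = fun e => (e.1.1 * e.2 / d, e.1.2 / d) := ⟨_, rfl⟩
  have d1 : ∀ e ∈ s, d ∣ e.1.1 * e.2 := fun e he => (h e he).1 ▸ Nat.gcd_dvd_left _ _
  have d2 : ∀ e ∈ s, d ∣ e.1.2 := fun e he => (h e he).1 ▸ Nat.gcd_dvd_right _ _
  have h1 := hF (s.image φ) (2 * K * N * C / d) (Real.exp l) (4 * K * w) (by positivity) ?_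
  · have h2 : ∀ r ∈ s.image φ, (((s.filter fun e => φ e = r).card : ℕ) : ℝ) ≤ Δ := fun r hr => by
      obtain ⟨e, he, rfl⟩ := mem_image.1 hr
      obtain ⟨hw, hx1, hx2⟩ := mem_Fam.1 (hs he)
      obtain ⟨⟨⟨c1, c2⟩, -⟩, -⟩ := mem_Win.1 hw
      refine le_trans (Nat.cast_le.2 ?_) (hΔ.2 (e.1.1 * e.2) (by nlinarith))
      have key : ∀ a ∈ s.filter fun a => φ a = φ e,
          a.1.1 * a.2 = e.1.1 * e.2 ∧ a.1.2 = e.1.2 := fun a ha => by
        obtain ⟨ha, hb⟩ := mem_filter.1 ha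
        simp only [hφ, Prod.mk.injEq] at hb
        exact ⟨(Nat.div_left_inj (d1 a ha) (d1 e he)).1 hb.1,
          (Nat.div_left_inj (d2 a ha) (d2 e he)).1 hb.2⟩
      have hne : e.1.1 * e.2 ≠ 0 := Nat.mul_ne_zero (by omega) (by omega)
      exact card_le_card_of_injOn (fun a : (ℕ × ℕ) × ℕ => a.1.1)
        (fun a ha => mem_coe.2 (Nat.mem_divisors.2 ⟨(key a ha).1 ▸ Dvd.intro _ rfl, hne⟩))
        fun a ha b hb hab => by
          have ka := key a ha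
          have kb := key b hb
          have hab' : a.1.1 = b.1.1 := hab
          have hb0 : 0 < b.1.1 := Nat.pos_of_ne_zero fun h0 => hne (by rw [← kb.1, h0, zero_mul])
          refine Prod.ext (Prod.ext hab' (ka.2.trans kb.2.symm))
            (Nat.eq_of_mul_eq_mul_left hb0 ?_)
          rw [kb.1, ← ka.1, hab']
    have h3 := sum_le_card_nsmul _ _ _ h2
    rw [← Nat.cast_sum, ← card_eq_sum_card_image, nsmul_eq_mul, mul_comm] at h3
    refine h3.trans (mul_le_mul_of_nonneg_left (h1.trans_eq ?_) (zero_le_one.trans hΔ.1))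
    ring
  · intro r hr
    obtain ⟨e, he, rfl⟩ := mem_image.1 hr
    obtain ⟨hW, hx1, hx2⟩ := mem_Fam.1 (hs he)
    obtain ⟨⟨⟨c1, c2⟩, q1, q2⟩, q3, -⟩ := mem_Win.1 hW
    obtain ⟨g1, g2, g3⟩ := h e he
    have hQ : (0 : ℝ) < e.1.2 := by exact_mod_cast q1
    have hn : (0 : ℝ) < ((e.1.1 * e.2 : ℕ) : ℝ) := by
      exact_mod_cast Nat.mul_pos (by omega : 0 < e.1.1) (by omega : 0 < e.2)
    have e1 : ((φ e).1 : ℝ) = ((e.1.1 * e.2 : ℕ) : ℝ) / d := by
      rw [hφ]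
      exact Nat.cast_div (d1 e he) hd0.ne'
    have e2 : ((φ e).2 : ℝ) = (e.1.2 : ℝ) / d := by
      rw [hφ]
      exact Nat.cast_div (d2 e he) hd0.ne'
    have hw' := win_MultEq (K := K) (div_pos hn hQ) ((div_le_iff₀ hQ).2 (by
      exact_mod_cast (by nlinarith : e.1.1 * e.2 ≤ 2 * K * e.1.2))) hw hw1 g2 g3
    rw [e1, e2, div_div_div_cancel_right₀ hd0.ne']
    refine ⟨?_, ?_, div_le_div_of_nonneg_right (by exact_mod_cast q2) hd0.le, hw'⟩
    · rw [hφ, ← g1]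
      exact Nat.coprime_div_gcd_div_gcd (g1 ▸ hd : 0 < gx e.1 e.2)
    · rw [hφ]
      exact Nat.div_pos (Nat.le_of_dvd q1 (d2 e he)) hd

end Pool.Agent.MP_2a1f0e_nt.RF

end

section

set_option autoImplicit false

open Finset
open scoped ComplexConjugate

namespace Pool.Agent.MP_2a1f0e_nt.RF

open GM

lemma mem_FR_Maj {N T : ℕ} {r : ℕ × ℕ} (h : r ∈ FR N T) :
    (1 ≤ r.1 ∧ r.1 ≤ 4 * T / N) ∧ (1 ≤ r.2 ∧ r.2 ≤ 2 * T / N) ∧ Nat.Coprime r.1 r.2 ∧
      r.1 ≤ 2 * r.2 := by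
  simp only [FR, mem_filter, mem_product, mem_Icc] at h
  exact ⟨h.1.1, h.1.2, h.2.1, h.2.2.1⟩

lemma ne_Maj {r r' : ℕ × ℕ} (h : Nat.Coprime r.1 r.2) (h' : Nat.Coprime r'.1 r'.2)
    (h2 : 1 ≤ r.2) (e : r.2 * r'.1 = r'.2 * r.1) : r = r' := by
  have a1 : r.2 ∣ r'.2 := h.symm.dvd_of_dvd_mul_right ⟨r'.1, e.symm⟩
  have a2 : r'.2 ∣ r.2 := h'.symm.dvd_of_dvd_mul_right ⟨r.1, e⟩
  have a3 : r.2 = r'.2 := Nat.dvd_antisymm a1 a2
  rw [← a3] at e
  exact Prod.ext (Nat.eq_of_mul_eq_mul_left h2 e).symm a3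

lemma first_Maj {N T : ℕ} (hN : 1 ≤ N) (hNT : N ≤ T) (hT : T ≤ N ^ 2) (u : ℝ) :
    ∑ r ∈ FR N T, kp (T * (u + Real.log r.2 - Real.log r.1)) ≤ 34 := by
  have hN' : (1 : ℝ) ≤ N := by exact_mod_cast hN
  have hNT' : (N : ℝ) ≤ T := by exact_mod_cast hNT
  have hT' : (T : ℝ) ≤ (N : ℝ) ^ 2 := by exact_mod_cast hT
  have hT0 : (0 : ℝ) < T := by linarith
  set X : ℝ := (2 * T / N) * (4 * T / N) with hX
  have hX0 : 0 < X := by positivity
  have h := sum_kp_sep (FR N T) (fun r => X * (Real.log r.2 - Real.log r.1)) (fun r hr r' hr' hne => by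
    obtain ⟨⟨a1, a2⟩, ⟨a3, a4⟩, a5, -⟩ := mem_FR_Maj hr
    obtain ⟨⟨b1, b2⟩, ⟨b3, b4⟩, b5, -⟩ := mem_FR_Maj hr'
    have c1 : (r.1 : ℝ) ≤ 4 * T / N := by
      have := (Nat.cast_le (α := ℝ)).2 a2
      exact this.trans (by simpa using Nat.cast_div_le (α := ℝ) (m := 4 * T) (n := N))
    have c2 : (r.2 : ℝ) ≤ 2 * T / N := by
      have := (Nat.cast_le (α := ℝ)).2 a4
      exact this.trans (by simpa using Nat.cast_div_le (α := ℝ) (m := 2 * T) (n := N))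
    have d1 : (r'.1 : ℝ) ≤ 4 * T / N := by
      have := (Nat.cast_le (α := ℝ)).2 b2
      exact this.trans (by simpa using Nat.cast_div_le (α := ℝ) (m := 4 * T) (n := N))
    have d2 : (r'.2 : ℝ) ≤ 2 * T / N := by
      have := (Nat.cast_le (α := ℝ)).2 b4
      exact this.trans (by simpa using Nat.cast_div_le (α := ℝ) (m := 2 * T) (n := N))
    have p1 : (0 : ℝ) < r.1 := by exact_mod_cast a1
    have p2 : (0 : ℝ) < r.2 := by exact_mod_cast a3
    have q1 : (0 : ℝ) < r'.1 := by exact_mod_cast b1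
    have q2 : (0 : ℝ) < r'.2 := by exact_mod_cast b3
    have hl := abs_sub_div_le_log (a := (r.2 : ℝ) * r'.1) (b := (r'.2 : ℝ) * r.1) (X := X)
      (by positivity) (by positivity) (by rw [hX]; gcongr) (by rw [hX]; gcongr)
    rw [Real.log_mul p2.ne' q1.ne', Real.log_mul q2.ne' p1.ne', div_le_iff₀ hX0] at hl
    have hn : r.2 * r'.1 ≠ r'.2 * r.1 := fun e => hne (ne_Maj a5 b5 a3 e)
    have h1 : (1 : ℝ) ≤ |(r.2 : ℝ) * r'.1 - (r'.2 : ℝ) * r.1| := by
      have : (1 : ℤ) ≤ |((r.2 * r'.1 : ℕ) : ℤ) - ((r'.2 * r.1 : ℕ) : ℤ)| :=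
        Int.one_le_abs (sub_ne_zero.2 (by exact_mod_cast hn))
      exact_mod_cast this
    rw [← mul_sub, abs_mul, abs_of_pos hX0, mul_comm]
    refine (h1.trans hl).trans (le_of_eq ?_)
    congr 2
    ring) (-(X * u)) (L := X / T) (by positivity)
  have hL : X / T ≤ 8 := by
    rw [hX, div_le_iff₀ hT0, div_mul_div_comm, div_le_iff₀ (by positivity)]
    nlinarith
  refine le_trans (le_of_eq (sum_congr rfl fun r _ => ?_)) (h.trans (by linarith))
  congr 1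
  field_simp
  ring

lemma second_Maj {N T : ℕ} (hN : 1 ≤ N) (hT : T ≤ N ^ 2) :
    ∑ r ∈ FR N T, ((N : ℝ) / r.2) ^ 2 ≤ 4 * (N : ℝ) ^ 2 * (1 + Real.log N) := by
  have hN' : (1 : ℝ) ≤ N := by exact_mod_cast hN
  have hsub : FR N T ⊆ ((Icc 1 (2 * N)).sigma fun q => Icc 1 (2 * q)).image
      fun z => (z.2, z.1) := by
    intro r hr
    obtain ⟨⟨a1, -⟩, ⟨a3, a4⟩, -, a6⟩ := mem_FR_Maj hr
    refine mem_image.2 ⟨⟨r.2, r.1⟩, mem_sigma.2 ⟨mem_Icc.2 ⟨a3, a4.trans ?_⟩,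
      mem_Icc.2 ⟨a1, a6⟩⟩, rfl⟩
    refine Nat.div_le_of_le_mul ?_
    nlinarith
  refine (sum_le_sum_of_subset_of_nonneg hsub fun _ _ _ => sq_nonneg _).trans ?_
  refine (sum_image_le_of_nonneg fun _ _ => sq_nonneg _).trans ?_
  rw [sum_sigma]
  have e : ∑ q ∈ Icc 1 (2 * N), ∑ _a ∈ Icc 1 (2 * q), ((N : ℝ) / q) ^ 2 =
      2 * (N : ℝ) ^ 2 * ((harmonic (2 * N) : ℚ) : ℝ) := by
    rw [harmonic_eq_sum_Icc]
    push_cast
    rw [mul_sum]
    refine sum_congr rfl fun q hq => ?_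
    have : (0 : ℝ) < q := by exact_mod_cast (mem_Icc.1 hq).1
    rw [sum_const, Nat.card_Icc, nsmul_eq_mul]
    push_cast
    field_simp
  refine (le_of_eq e).trans ?_
  have h1 := harmonic_le_one_add_log (2 * N)
  have h2 : Real.log ((2 * N : ℕ) : ℝ) = Real.log 2 + Real.log N := by
    push_cast
    exact Real.log_mul (by norm_num) (by linarith)
  have h3 := Real.log_two_lt_d9
  have h4 : 0 ≤ Real.log N := Real.log_nonneg hN'
  have h5 : ((harmonic (2 * N) : ℚ) : ℝ) ≤ 2 * (1 + Real.log N) := by linarith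
  calc 2 * (N : ℝ) ^ 2 * ((harmonic (2 * N) : ℚ) : ℝ)
      ≤ 2 * (N : ℝ) ^ 2 * (2 * (1 + Real.log N)) := by gcongr
    _ = _ := by ring

lemma cs_Maj {N T : ℕ} (hN : 1 ≤ N) (hNT : N ≤ T) (hT : T ≤ N ^ 2) (u : ℝ) :
    maj N T u ^ 2 ≤ 34 * ∑ r ∈ FR N T, ((N : ℝ) / r.2) ^ 2 *
      kp (T * (u + Real.log r.2 - Real.log r.1)) := by
  have h := sum_mul_sq_le_sq_mul_sq (FR N T)
    (fun r => √(kp (T * (u + Real.log r.2 - Real.log r.1))))
    (fun r => (N : ℝ) / r.2 * √(kp (T * (u + Real.log r.2 - Real.log r.1))))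
  simp only [mul_pow, Real.sq_sqrt (kp_pos _).le] at h
  have e : maj N T u = ∑ r ∈ FR N T, √(kp (T * (u + Real.log r.2 - Real.log r.1))) *
      ((N : ℝ) / r.2 * √(kp (T * (u + Real.log r.2 - Real.log r.1)))) := by
    unfold maj
    refine sum_congr rfl fun r _ => ?_
    rw [mul_left_comm, Real.mul_self_sqrt (kp_pos _).le]
  rw [e]
  refine h.trans (mul_le_mul_of_nonneg_right (first_Maj hN hNT hT u) ?_)
  exact sum_nonneg fun r _ => mul_nonneg (sq_nonneg _) (kp_pos _).le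

theorem maj_stmt (hK : KpStmt) : MajStmt := by
  obtain ⟨c, hc, hK⟩ := hK
  refine ⟨136 * c, by positivity, fun N T ι s u μ hN hNT hT hs => ?_⟩
  have hμ := hs.nonneg
  refine (sum_le_sum fun i _ => cs_Maj hN hNT hT (u i)).trans ?_
  rw [← mul_sum, sum_comm]
  have h1 : ∑ r ∈ FR N T, ∑ i ∈ s, ((N : ℝ) / r.2) ^ 2 *
      kp (T * (u i + Real.log r.2 - Real.log r.1)) ≤
      ∑ r ∈ FR N T, ((N : ℝ) / r.2) ^ 2 * (c * μ) := by
    refine sum_le_sum fun r _ => ?_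
    rw [← mul_sum]
    refine mul_le_mul_of_nonneg_left ?_ (sq_nonneg _)
    refine le_trans (le_of_eq (sum_congr rfl fun i _ => ?_))
      (hK ι s u T μ (Real.log r.1 - Real.log r.2) (hN.trans hNT) hs)
    congr 2
    ring
  rw [← sum_mul] at h1
  have h2 := mul_le_mul_of_nonneg_right (second_Maj hN hT) (by positivity : 0 ≤ c * μ)
  calc _ ≤ 34 * (4 * (N : ℝ) ^ 2 * (1 + Real.log N) * (c * μ)) := by linarith
    _ = _ := by ring

end Pool.Agent.MP_2a1f0e_nt.RF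

end

section

set_option autoImplicit false
open Finset
open scoped ComplexConjugate
namespace Pool.Agent.MP_2a1f0e_nt.RF
open GM

theorem uP_eq_Start {N T Q : ℕ} (g : ℤ → ℝ) (b : ℕ → ℂ) (hN : 1 ≤ N) (hQ : 1 ≤ Q) :
    uP N T g b (1, Q) = ∑ t ∈ IT T, g t * DP N b t * conj (pw Q t) := by
  unfold uP av fu trig DP
  simp only [mul_sum, sum_mul]
  rw [sum_comm]
  refine sum_congr rfl fun t _ => sum_congr rfl fun x hx => ?_
  have hx0 : (x : ℝ) ≠ 0 := Nat.cast_ne_zero.2 (by have := (mem_Icc.1 hx).1; omega)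
  have hQ0 : (Q : ℝ) ≠ 0 := Nat.cast_ne_zero.2 (by omega)
  have e : Complex.exp (Complex.I * (t : ℂ) * (pt (1, Q) x : ℂ)) = pw (x / Q) t := by
    simp [pw, pt]
  rw [e, pw_div hx0 hQ0, conj_pw]
  ring

theorem start_stmt : StartStmt := by
  intro N T g b hN hb
  have h1 : ((∑ t ∈ IT T, g t * ‖DP N b t‖ ^ 2 : ℝ) : ℂ) =
      ∑ Q ∈ Icc N (2 * N), conj (b Q) * uP N T g b (1, Q) := by
    have e : ∀ Q ∈ Icc N (2 * N), conj (b Q) * uP N T g b (1, Q) =
        ∑ t ∈ IT T, g t * DP N b t * conj (b Q * pw Q t) := fun Q hQ => by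
      rw [uP_eq_Start g b hN (hN.trans (mem_Icc.1 hQ).1), mul_sum]
      refine sum_congr rfl fun t _ => ?_
      rw [map_mul]
      ring
    rw [sum_congr rfl e, sum_comm, Complex.ofReal_sum]
    refine sum_congr rfl fun t _ => ?_
    rw [← mul_sum, ← map_sum, Complex.ofReal_mul, Complex.ofReal_pow, ← Complex.mul_conj',
      ← mul_assoc]
    rfl
  have h2 : |∑ t ∈ IT T, g t * ‖DP N b t‖ ^ 2| ≤ ∑ Q ∈ Icc N (2 * N), ‖uP N T g b (1, Q)‖ := by
    rw [← Real.norm_eq_abs, ← Complex.norm_real, h1]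
    refine norm_sum_le_of_le _ fun Q _ => ?_
    rw [norm_mul, Complex.norm_conj]
    exact mul_le_of_le_one_left (norm_nonneg _) (hb Q)
  have h3 : ∑ Q ∈ Icc N (2 * N), ‖uP N T g b (1, Q)‖ ^ 2 ≤ ∑ p ∈ Win N 1 2, ‖uP N T g b p‖ ^ 2 := by
    rw [← sum_image (s := Icc N (2 * N)) (g := fun Q : ℕ => ((1 : ℕ), Q))
      (f := fun p => ‖uP N T g b p‖ ^ 2) fun _ _ _ _ h => (Prod.mk.inj h).2]
    refine sum_le_sum_of_subset_of_nonneg (fun p hp => ?_) fun _ _ _ => by positivity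
    obtain ⟨Q, hQ, rfl⟩ := mem_image.1 hp
    rw [mem_Icc] at hQ
    rw [mem_Win]
    dsimp only
    omega
  rw [← sq_abs]
  refine (pow_le_pow_left₀ (abs_nonneg _) h2 2).trans (sq_sum_le_card_mul_sum_sq.trans ?_)
  refine mul_le_mul ?_ h3 (sum_nonneg fun _ _ => by positivity) (by positivity)
  rw [Nat.card_Icc]
  exact_mod_cast (by omega : 2 * N + 1 - N ≤ 2 * N)

end Pool.Agent.MP_2a1f0e_nt.RF

end

section

set_option autoImplicit false

open Finset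
open scoped ComplexConjugate

namespace Pool.Agent.MP_2a1f0e_nt.RF

open GM

theorem kp_floor_Kp (y : ℝ) : kp y ≤ 3 * kp ((⌊y⌋ : ℤ) : ℝ) := by
  have h1 := Int.floor_le y
  have h2 := Int.lt_floor_add_one y
  set n : ℝ := ((⌊y⌋ : ℤ) : ℝ)
  unfold kp
  rw [mul_one_div, div_le_div_iff₀ (by positivity) (by positivity)]
  have h3 : (y - n) ^ 2 ≤ 1 := by nlinarith
  nlinarith [sq_nonneg (y + (y - n))]

theorem kp_stmt : KpStmt := by
  classical
  refine ⟨18, by norm_num, fun ι s u T μ v hT h => ?_⟩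
  have hT' : (0 : ℝ) < T := by exact_mod_cast hT
  set n : ι → ℤ := fun i => ⌊(T : ℝ) * (u i - v)⌋ with hn
  have h1 : ∑ i ∈ s, kp (T * (u i - v)) ≤ ∑ i ∈ s, 3 * kp (n i : ℝ) :=
    sum_le_sum fun i _ => kp_floor_Kp _
  have h2 : ∑ i ∈ s, 3 * kp (n i : ℝ) ≤ ∑ m ∈ s.image n, μ * (3 * kp (m : ℝ)) := by
    rw [sum_comp (fun m : ℤ => 3 * kp (m : ℝ)) n]
    refine sum_le_sum fun m _ => ?_
    rw [nsmul_eq_mul]
    refine mul_le_mul_of_nonneg_right ?_ (by have := kp_pos (m : ℝ); positivity)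
    refine h (v + m / T) _ (filter_subset _ _) fun i hi => ⟨0, ?_⟩
    have e : n i = m := (mem_filter.1 hi).2
    have a1 := Int.floor_le ((T : ℝ) * (u i - v))
    have a2 := Int.lt_floor_add_one ((T : ℝ) * (u i - v))
    change (n i : ℝ) ≤ _ at a1
    change _ < (n i : ℝ) + 1 at a2
    rw [e] at a1 a2
    have b1 : (m : ℝ) / T ≤ u i - v := by rw [div_le_iff₀ hT']; linarith
    have b2 : u i - v ≤ (m + 1 : ℝ) / T := by rw [le_div_iff₀ hT']; linarith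
    rw [add_div] at b2
    push_cast
    constructor <;> linarith
  have h3 := sum_kp_sep (s.image n) (fun m : ℤ => (m : ℝ)) (fun i _ j _ hij => by
    rw [← Int.cast_sub, ← Int.cast_abs]
    exact_mod_cast Int.one_le_abs (sub_ne_zero.2 hij)) 0 one_pos
  simp only [sub_zero, div_one] at h3
  have h4 : ∑ m ∈ s.image n, μ * (3 * kp (m : ℝ)) = 3 * (μ * ∑ m ∈ s.image n, kp (m : ℝ)) := by
    rw [← mul_sum, ← mul_sum]; ring
  have := mul_le_mul_of_nonneg_left h3 h.nonneg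
  linarith

end Pool.Agent.MP_2a1f0e_nt.RF

end

section

set_option autoImplicit false

open Finset
open scoped ComplexConjugate

namespace Pool.Agent.MP_2a1f0e_nt.RF

open GM

theorem triv_stmt : TrivStmt := by
  intro r L hr χ hχ
  have : NeZero r := ⟨by omega⟩
  have hne : χ ≠ 1 := by
    intro h
    have h1 : χ.conductor = r := mem_prim.1 hχ
    rw [h, DirichletCharacter.conductor_one] at h1
    omega
  have hper : ∀ M : ℕ, ∑ j ∈ range r, χ ((M + j : ℕ) : ZMod r) = 0 := by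
    intro M
    rw [← MulChar.sum_eq_zero_of_ne_one hne]
    refine sum_nbij' (fun j => ((M + j : ℕ) : ZMod r)) (fun a => (a - (M : ZMod r)).val)
      (fun _ _ => mem_univ _) (fun a _ => mem_range.2 (ZMod.val_lt _)) (fun j hj => ?_)
      (fun a _ => by simp) (fun _ _ => rfl)
    simp [ZMod.val_natCast, Nat.mod_eq_of_lt (mem_range.1 hj)]
  induction L using Nat.strong_induction_on with
  | _ L ih =>
    rcases lt_or_ge L r with h | h
    · refine (norm_sum_le _ _).trans ?_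
      refine (sum_le_card_nsmul _ _ 1 fun j _ => χ.norm_le_one _).trans ?_
      simp only [Nat.card_Icc, add_tsub_cancel_right, nsmul_eq_mul, mul_one]
      exact_mod_cast h.le
    · obtain ⟨M, rfl⟩ := Nat.exists_eq_add_of_le' h
      have e : Sc r χ (M + r) = Sc r χ M := by
        unfold Sc
        have e1 : ∀ n : ℕ, Icc 1 n = Ico 1 (n + 1) := fun n => rfl
        rw [e1, e1, ← sum_Ico_consecutive _ (show 1 ≤ M + 1 by omega)
          (show M + 1 ≤ M + r + 1 by omega), sum_Ico_eq_sum_range (m := M + 1),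
          show M + r + 1 - (M + 1) = r by omega, hper, add_zero]
      rw [e]
      exact ih M (by omega)

end Pool.Agent.MP_2a1f0e_nt.RF

end

section

set_option autoImplicit false

open Finset
open scoped ComplexConjugate

namespace Pool.Agent.MP_2a1f0e_nt.RF

open GM

lemma shift_Mass (N T : ℕ) (b : ℕ → ℂ) (V : ℝ) :
    Mass N b (IT T) V ≤
      Mass N (fun n => b n * pw (n : ℝ) (-(2 * T : ℝ))) (Icc 0 ((4 * T : ℕ) : ℤ)) V := by
  unfold Mass
  rw [sum_filter, sum_filter]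
  have e : ∀ t : ℤ, DP N b t =
      DP N (fun n => b n * pw (n : ℝ) (-(2 * T : ℝ))) ((t + 2 * T : ℤ) : ℝ) := by
    intro t
    rw [← DP_add]
    congr 1
    push_cast
    ring
  simp_rw [e]
  rw [← sum_image (s := IT T) (g := fun t : ℤ => t + 2 * T)
    (f := fun t : ℤ => if V ≤ ‖DP N (fun n => b n * pw (n : ℝ) (-(2 * T : ℝ))) (t : ℝ)‖ then
      ‖DP N (fun n => b n * pw (n : ℝ) (-(2 * T : ℝ))) (t : ℝ)‖ ^ 2 else 0)
    (fun x _ y _ h => by simpa using h)]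
  refine sum_le_sum_of_subset_of_nonneg (fun t ht => ?_) fun t _ _ => ?_
  · obtain ⟨u, hu, rfl⟩ := mem_image.1 ht
    rw [mem_IT] at hu
    rw [mem_Icc]
    push_cast
    omega
  · split_ifs <;> positivity

theorem mass_stmt (h2 : B2Stmt) (hB : BlkStmt) : MassStmt := by
  intro ε hε
  obtain ⟨K, hK, h⟩ := h2 ε hε
  refine ⟨10 * K, by positivity, fun N T hN hNT hT b hb => ?_⟩
  have hN0 : (0 : ℝ) < N := by exact_mod_cast hN
  have hT1 : 1 ≤ T := hN.trans hNT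
  have hT0 : (0 : ℝ) < T := by exact_mod_cast hT1
  have hs : 0 < (N : ℝ) * √(T : ℝ) := mul_pos hN0 (Real.sqrt_pos.2 hT0)
  have hV : 0 < √(N * √(T : ℝ)) := Real.sqrt_pos.2 hs
  have hV4 : √(N * √(T : ℝ)) ^ 4 = (N : ℝ) ^ 2 * T := by
    rw [show (4 : ℕ) = 2 * 2 from rfl, pow_mul, Real.sq_sqrt hs.le, mul_pow, Real.sq_sqrt hT0.le]
  have key : ∀ b' : ℕ → ℂ, (∀ n, ‖b' n‖ ≤ 1) →
      Mass N b' (Icc 0 (T : ℤ)) (√(N * √(T : ℝ))) ≤ 2 * K * (N : ℝ) ^ ε * (N : ℝ) ^ 2 := by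
    intro b' hb'
    refine (h N T hN hNT hT b' hb' _ hV).trans (le_of_eq ?_)
    rw [hV4]
    field_simp
    ring
  refine (shift_Mass N T b _).trans ((hB N (4 * T) T _ _ hN hT1 key _ fun n => ?_).trans
    (le_of_eq ?_))
  · rw [norm_mul, norm_pw, mul_one]
    exact hb n
  · push_cast
    field_simp
    ring

end Pool.Agent.MP_2a1f0e_nt.RF

end

section

set_option autoImplicit false

namespace Pool.Agent.MP_2a1f0e_nt.RF

open GM

theorem orth_all : OrthStmt :=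
  orth_stmt

theorem exp_all : ExpStmt :=
  exp2_stmt

theorem prim_all : PrimStmt :=
  prim_stmt

theorem fib_all : FibStmt :=
  fib_stmt

theorem block_all : BlockStmt :=
  block_stmt orth_all exp_all prim_all fib_all

theorem red_all : RedStmt :=
  red_stmt

theorem count_all : CountStmt :=
  count_stmt

theorem prin_all : PrinStmt :=
  prin_stmt

theorem char_all : CharStmt :=
  char_stmt block_all red_all count_all prin_all

theorem om_all : OmStmt :=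
  om_stmt

theorem geo_all : GeoStmt :=
  geo_stmt

theorem bij_all : BijStmt :=
  bij_stmt om_all geo_all

theorem kp_all : KpStmt :=
  kp_stmt

theorem ls_all : LSStmt :=
  ls_stmt kp_all

theorem farey_all : FareyStmt :=
  farey_stmt

theorem multEq_all : MultEqStmt :=
  multEq_stmt farey_all

theorem mult_all : MultStmt :=
  mult_stmt multEq_all

theorem edgeMult_all : EdgeMultStmt :=
  edgeMult_stmt mult_all geo_all

theorem sideA_all : SideAStmt :=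
  sideA_stmt char_all ls_all edgeMult_all count_all

theorem sideB_all : SideBStmt :=
  sideB_stmt ls_all edgeMult_all geo_all

theorem side_all : SideStmt :=
  side_stmt sideA_all sideB_all

theorem peak_all : PeakStmt :=
  peak_stmt ls_all mult_all count_all

theorem ss_all : SSStmt :=
  ss_stmt side_all peak_all om_all

theorem ls0_all : LS0Stmt :=
  ls0_stmt ls_all farey_all

theorem mom_all : MomStmt :=
  mom_stmt ls0_all

theorem triv_all : TrivStmt :=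
  triv_stmt

theorem sel_all : SelStmt :=
  sel_stmt

theorem dy_all : DyStmt :=
  dy_stmt mom_all triv_all sel_all

theorem xi_all : XiStmt :=
  xi_stmt dy_all

theorem grow_all : GrowStmt :=
  grow_stmt

theorem hp_all : HpStmt :=
  hp_stmt xi_all grow_all

theorem pert_all : PertStmt :=
  pert_stmt ls_all

theorem refl_all : ReflStmt :=
  refl_stmt ls_all pert_all edgeMult_all geo_all

theorem prs_all : PrsStmt :=
  prs_stmt

theorem edge_all : EdgeStmt :=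
  edge_stmt bij_all refl_all om_all geo_all

theorem sy_all : SYStmt :=
  sy_stmt side_all peak_all om_all

theorem step_all : StepStmt :=
  step_stmt edge_all ss_all sy_all

theorem iter_all : IterStmt :=
  iter_stmt step_all

theorem start_all : StartStmt :=
  start_stmt

theorem mult0_all : Mult0Stmt :=
  mult0_stmt

theorem end_all : EndStmt :=
  end_stmt ls_all mult0_all

theorem abs_all : AbsStmt :=
  abs_stmt hp_all iter_all start_all end_all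

theorem ker_all : KerStmt :=
  ker_stmt triang_stmt

theorem maj_all : MajStmt :=
  maj_stmt kp_all

theorem big_all : BigStmt :=
  big_stmt ker_all prs_all maj_all

theorem mass_all : MassStmt :=
  mass_stmt b2_all blk_stmt

theorem mv_all : MVStmt :=
  mv_stmt

theorem core_all : CoreStmt :=
  core_stmt abs_all big_all mass_all mv_all

theorem lq_all : LqStmt :=
  lq_stmt core_all mass_all mv_all

theorem lqk_all : LqkStmt :=
  lqk_stmt lq_all

theorem lv_all : LVStmt :=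
  lv_stmt core_all mass_all tay_stmt

end Pool.Agent.MP_2a1f0e_nt.RF

end
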