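import Pool.Agent.MP_2a1f0e_nt.GM.Basic

section

/-!
Reflection method for large values of Dirichlet polynomials: definitions and statements.
A point `p = (c, Q)` stands for the rational number `y = Q / c`.
-/

set_option autoImplicit false

open Finset
open scoped ComplexConjugate

namespace Pool.Agent.MP_2a1f0e_nt.RF

open GM

/-! ### Analytic side -/

/-- integers `|t| < 2T` -/
noncomputable def IT (T : ℕ) : Finset ℤ := Ioo (-(2 * T : ℤ)) (2 * T)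

noncomputable def trig (T : ℕ) (a : ℤ → ℂ) (u : ℝ) : ℂ :=
  ∑ t ∈ IT T, a t * Complex.exp (Complex.I * (t : ℂ) * (u : ℂ))

/-- `f(e^u)` for the weight `g` -/
noncomputable def fu (T : ℕ) (g : ℤ → ℝ) (u : ℝ) : ℂ := trig T (fun t => (g t : ℂ)) u

/-- every arc of length `1/T` of the circle `ℝ / 2πℤ` holds at most `μ` points of the family -/
def CM {ι : Type} (s : Finset ι) (u : ι → ℝ) (T : ℕ) (μ : ℝ) : Prop :=
  ∀ (l : ℝ) (s' : Finset ι), s' ⊆ s →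
    (∀ i ∈ s', ∃ k : ℤ, l ≤ u i - 2 * Real.pi * k ∧ u i - 2 * Real.pi * k ≤ l + 1 / T) →
    (s'.card : ℝ) ≤ μ

/-- pairs `(c, Q)` with `C ≤ c < 2C` and `N / K ≤ Q / c ≤ K N` -/
def Win (N C K : ℕ) : Finset (ℕ × ℕ) :=
  (Ico C (2 * C) ×ˢ Icc 1 (2 * K * N * C)).filter fun p => N * p.1 ≤ K * p.2 ∧ p.2 ≤ K * N * p.1

def Fam (N C K : ℕ) : Finset ((ℕ × ℕ) × ℕ) := Win N C K ×ˢ Icc N (2 * N)

/-- `log (x / y)` -/
noncomputable def pt (p : ℕ × ℕ) (x : ℕ) : ℝ := Real.log (((p.1 * x : ℕ) : ℝ) / (p.2 : ℝ))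

def gx (p : ℕ × ℕ) (x : ℕ) : ℕ := Nat.gcd (p.1 * x) p.2

/-- `a_y(x) = b_x f(x / y)` -/
noncomputable def av (T : ℕ) (g : ℤ → ℝ) (b : ℕ → ℂ) (p : ℕ × ℕ) (x : ℕ) : ℂ :=
  b x * fu T g (pt p x)

/-- non-peak part -/
noncomputable def aO (T J : ℕ) (g : ℤ → ℝ) (b : ℕ → ℂ) (p : ℕ × ℕ) (x : ℕ) : ℂ :=
  if gx p x ≤ J then av T g b p x else 0

/-- non-peak part with small values of `f` -/
noncomputable def aS (T J : ℕ) (g : ℤ → ℝ) (U : ℝ) (b : ℕ → ℂ) (p : ℕ × ℕ) (x : ℕ) : ℂ :=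
  if gx p x ≤ J ∧ ‖fu T g (pt p x)‖ ≤ U then av T g b p x else 0

/-- non-peak part with big values of `f` -/
noncomputable def aB (T J : ℕ) (g : ℤ → ℝ) (U : ℝ) (b : ℕ → ℂ) (p : ℕ × ℕ) (x : ℕ) : ℂ :=
  if gx p x ≤ J ∧ U < ‖fu T g (pt p x)‖ then av T g b p x else 0

noncomputable def uP (N T : ℕ) (g : ℤ → ℝ) (b : ℕ → ℂ) (p : ℕ × ℕ) : ℂ :=
  ∑ x ∈ Icc N (2 * N), av T g b p x

noncomputable def uO (N T J : ℕ) (g : ℤ → ℝ) (b : ℕ → ℂ) (p : ℕ × ℕ) : ℂ :=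
  ∑ x ∈ Icc N (2 * N), aO T J g b p x

noncomputable def uK (N T J : ℕ) (g : ℤ → ℝ) (b : ℕ → ℂ) (p : ℕ × ℕ) : ℂ :=
  ∑ x ∈ Icc N (2 * N), if J < gx p x then av T g b p x else 0

/-- the mean of `|u_b(y)|^2` over the window is at most `Z`, for all bounded `b` -/
def Th (N T : ℕ) (g : ℤ → ℝ) (C K : ℕ) (Z : ℝ) : Prop :=
  ∀ b : ℕ → ℂ, (∀ n, ‖b n‖ ≤ 1) →
    ∑ p ∈ Win N C K, ‖uP N T g b p‖ ^ 2 ≤ Z * N * (C : ℝ) ^ 2

/-- values of `f` above `U` have small mean square on every family -/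
def BigP (T : ℕ) (g : ℤ → ℝ) (U B : ℝ) : Prop :=
  ∀ (ι : Type) (s : Finset ι) (u : ι → ℝ) (μ : ℝ), CM s u T μ →
    (∀ i ∈ s, U < ‖fu T g (u i)‖) → ∑ i ∈ s, ‖fu T g (u i)‖ ^ 2 ≤ B * μ

/-- the truncated weight -/
noncomputable def gw (N T : ℕ) (b : ℕ → ℂ) (V : ℝ) (t : ℤ) : ℝ :=
  (2 * (T : ℝ) - |(t : ℝ)|) / (2 * T) * (if ‖DP N b t‖ < V then ‖DP N b t‖ ^ 2 else 0)

/-- reduced fractions `a / q` in `[1/2, 2]` with `q ≤ 2T/N`, as pairs `(a, q)` -/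
def FR (N T : ℕ) : Finset (ℕ × ℕ) :=
  (Icc 1 (4 * T / N) ×ˢ Icc 1 (2 * T / N)).filter fun r =>
    Nat.Coprime r.1 r.2 ∧ r.1 ≤ 2 * r.2 ∧ r.2 ≤ 2 * r.1

noncomputable def maj (N T : ℕ) (u : ℝ) : ℝ :=
  ∑ r ∈ FR N T, (N : ℝ) / r.2 * kp (T * (u + Real.log r.2 - Real.log r.1))

/-! ### Arithmetic side -/

def cnt (J Q n : ℕ) : ℕ := ((Icc 1 J).filter fun j => Q ∣ n + j).card

/-- number of `1 ≤ j ≤ L` coprime to `q` -/
def cop (L q : ℕ) : ℕ := ((Icc 1 L).filter fun j => Nat.Coprime j q).card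

noncomputable def Sc (r : ℕ) (χ : DirichletCharacter ℂ r) (L : ℕ) : ℂ :=
  ∑ j ∈ Icc 1 L, χ (j : ZMod r)

open Classical in
noncomputable def prim (r : ℕ) : Finset (DirichletCharacter ℂ r) :=
  univ.filter fun χ => χ.IsPrimitive

noncomputable def Bad (J : ℕ) (lam : ℝ) (m r : ℕ) : ℝ :=
  ∑ χ ∈ prim r,
    if lam ^ 2 < m * ‖Sc r χ (J / m)‖ ^ 2 then m * ‖Sc r χ (J / m)‖ ^ 2 else 0

noncomputable def BadQ (J : ℕ) (lam : ℝ) (Q : ℕ) : ℝ :=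
  ∑ m ∈ Q.divisors, ∑ r ∈ (Q / m).divisors.erase 1, Bad J lam m r

/-- the centred bilinear form of the modulus `p.2` -/
noncomputable def Bil (N J C' : ℕ) (p : ℕ × ℕ) (α β : ℕ → ℂ) : ℂ :=
  ∑ c' ∈ Ico C' (2 * C'), ∑ x ∈ Icc N (2 * N), ∑ z ∈ Icc N (2 * N),
    (((cnt J p.2 (p.1 * c' * x * z) : ℝ) - (J : ℝ) / p.2 : ℝ) : ℂ) * (α x * conj (β z))

/-- the sum over the edges at `p` -/
noncomputable def Bp (N T J C' : ℕ) (g : ℤ → ℝ) (b b' : ℕ → ℂ) (p : ℕ × ℕ) : ℂ :=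
  ∑ c' ∈ Ico C' (2 * C'), ∑ x ∈ Icc N (2 * N), ∑ z ∈ Icc N (2 * N),
    (cnt J p.2 (p.1 * c' * x * z) : ℂ) * (av T g b p x * conj (av T g b' p z))

/-- an edge `(p, c', x, z, j)` -/
abbrev ED : Type := (ℕ × ℕ) × ℕ × ℕ × ℕ × ℕ

def ED.p (e : ED) : ℕ × ℕ := e.1
def ED.c (e : ED) : ℕ := e.2.1
def ED.x (e : ED) : ℕ := e.2.2.1
def ED.z (e : ED) : ℕ := e.2.2.2.1
def ED.j (e : ED) : ℕ := e.2.2.2.2

/-- the reflected point -/
def ED.r (e : ED) : ℕ × ℕ := (e.c, (e.p.1 * e.c * e.x * e.z + e.j) / e.p.2)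

def Edg (N J C C' K : ℕ) : Finset ED :=
  (Win N C K ×ˢ Ico C' (2 * C') ×ˢ Icc N (2 * N) ×ˢ Icc N (2 * N) ×ˢ Icc 1 J).filter
    fun e : ED => e.p.2 ∣ e.p.1 * e.c * e.x * e.z + e.j

/-! ### The window weight -/

noncomputable def uu (P : ℕ) (x : ℝ) : ℤ := ⌊(P : ℝ) * Real.log x⌋

noncomputable def BB (N P K : ℕ) : Finset ℤ :=
  Icc (-uu P ((K : ℝ) * N)) (2 * P - uu P ((N : ℝ) / K))

noncomputable def Om (N P K : ℕ) (n : ℤ) : ℝ :=
  (((range P ×ˢ range P).filter fun a => ((a.1 : ℤ) + a.2 - n) ∈ BB N P K).card : ℝ) / (P : ℝ) ^ 2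

noncomputable def yv (p : ℕ × ℕ) : ℝ := (p.2 : ℝ) / (p.1 : ℝ)

noncomputable def Lam (N P : ℕ) : Finset ℤ := Icc (uu P N - P) (uu P (2 * N))

/-- `b` restricted to a multiplicative window -/
noncomputable def bI (P : ℕ) (b : ℕ → ℂ) (i : ℤ) (x : ℕ) : ℂ :=
  if i ≤ uu P x ∧ uu P x < i + P then b x else 0

/-- the edge sum seen from `y` -/
noncomputable def SY (N T J C C' K P : ℕ) (g : ℤ → ℝ) (b : ℕ → ℂ) : ℂ :=
  ∑ p ∈ Win N C (25 * K), (Om N P K (uu P (yv p)) : ℂ) * Bp N T J C' g b b p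

/-- the edge sum seen from `s` -/
noncomputable def SS (N T J C C' K P : ℕ) (g : ℤ → ℝ) (b : ℕ → ℂ) : ℂ :=
  ∑ e ∈ Edg N J C' C (200 * K), (Om N P K (uu P e.x + uu P e.z - uu P (yv e.p)) : ℂ) *
    (av T g b e.p e.x * conj (av T g b e.p e.z))

/-! ### Hypotheses -/

noncomputable def lamv (J C : ℕ) (Y : ℝ) : ℝ := (J : ℝ) / (Y * √(C : ℝ))

def XiB (J C X : ℕ) (E Y : ℝ) : Prop :=
  ∑ Q ∈ Icc 1 X, BadQ J (lamv J C Y) Q ≤ E * X * lamv J C Y ^ 2 * (C / Y)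

structure Hp (N T J C C' K : ℕ) (E Y : ℝ) : Prop where
  N1 : 1 ≤ N
  NT : N ≤ T
  TN : T ≤ N ^ 2
  C1 : 1 ≤ C
  C1' : 1 ≤ C'
  K1 : 1 ≤ K
  J1 : 1 ≤ J
  Y1 : 1 ≤ Y
  KE : 200 * (K : ℝ) ≤ E
  CE : (C' : ℝ) ≤ E * C
  CE' : (C : ℝ) ≤ E * C'
  JU : (J : ℝ) * T * Y ≤ C * C' * (N : ℝ) ^ 2
  JL : Y ^ 6 * (C : ℝ) ^ 2 ≤ J
  JL' : Y ^ 6 * (C' : ℝ) ^ 2 ≤ J
  HY : (T : ℝ) * Y ^ 7 ≤ (N : ℝ) ^ 2
  dv : DivB (400 * K * N * (C + C')) E
  lg : 1 + Real.log ((400 * K * N * (C + C') : ℕ) : ℝ) ≤ E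
  xi : XiB J C (400 * K * N * (C + C')) E Y
  xi' : XiB J C' (400 * K * N * (C + C')) E Y

structure Hg (N T : ℕ) (g : ℤ → ℝ) (E Y MM : ℝ) : Prop where
  sq : ∑ t ∈ IT T, g t ^ 2 ≤ MM
  big : BigP T g (E * (N : ℝ) ^ 2) (E * (T : ℝ) ^ 2 * (N : ℝ) ^ 2)
  low : (N : ℝ) ^ 4 ≤ Y * MM

theorem Hp.symm {N T J C C' K : ℕ} {E Y : ℝ} (h : Hp N T J C C' K E Y) :
    Hp N T J C' C K E Y where
  N1 := h.N1
  NT := h.NT
  TN := h.TN
  C1 := h.C1'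
  C1' := h.C1
  K1 := h.K1
  J1 := h.J1
  Y1 := h.Y1
  KE := h.KE
  CE := h.CE'
  CE' := h.CE
  JU := by have := h.JU; linarith
  JL := h.JL'
  JL' := h.JL
  HY := h.HY
  dv := by rw [add_comm C' C]; exact h.dv
  lg := by rw [add_comm C' C]; exact h.lg
  xi := by rw [add_comm C' C]; exact h.xi'
  xi' := by rw [add_comm C' C]; exact h.xi

theorem Hp.E1 {N T J C C' K : ℕ} {E Y : ℝ} (h : Hp N T J C C' K E Y) : 1 ≤ E := h.dv.1

theorem CM.mono {ι : Type} {s s' : Finset ι} {u : ι → ℝ} {T : ℕ} {μ μ' : ℝ} (h : CM s u T μ)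
    (hs : s' ⊆ s) (hμ : μ ≤ μ') : CM s' u T μ' :=
  fun l t ht hl => (h l t (ht.trans hs) hl).trans hμ

theorem CM.nonneg {ι : Type} {s : Finset ι} {u : ι → ℝ} {T : ℕ} {μ : ℝ} (h : CM s u T μ) :
    0 ≤ μ := by
  simpa using h 0 ∅ (empty_subset _) (by simp)

/-! ### Statements: large sieve and multiplicities -/

def KpStmt : Prop := ∃ c : ℝ, 0 < c ∧ ∀ (ι : Type) (s : Finset ι) (u : ι → ℝ) (T : ℕ) (μ v : ℝ),
  1 ≤ T → CM s u T μ → ∑ i ∈ s, kp (T * (u i - v)) ≤ c * μ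

def LSStmt : Prop := ∃ c : ℝ, 0 < c ∧ ∀ (ι : Type) (s : Finset ι) (u : ι → ℝ) (T : ℕ) (μ : ℝ),
  1 ≤ T → CM s u T μ → ∀ a : ℤ → ℂ,
    ∑ i ∈ s, ‖trig T a (u i)‖ ^ 2 ≤ c * μ * T * ∑ t ∈ IT T, ‖a t‖ ^ 2

def PertStmt : Prop := ∃ c : ℝ, 0 < c ∧
  ∀ (ι : Type) (s : Finset ι) (u θ : ι → ℝ) (T : ℕ) (μ θ₀ : ℝ),
    1 ≤ T → CM s u T μ → T * θ₀ ≤ 1 → (∀ i ∈ s, |θ i| ≤ θ₀) → ∀ a : ℤ → ℂ,
      ∑ i ∈ s, ‖trig T a (u i + θ i) - trig T a (u i)‖ ^ 2 ≤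
        c * μ * T * (T * θ₀) ^ 2 * ∑ t ∈ IT T, ‖a t‖ ^ 2

def FareyStmt : Prop := ∀ (s : Finset (ℕ × ℕ)) (q₀ α w : ℝ), 0 ≤ w →
  (∀ r ∈ s, Nat.Coprime r.1 r.2 ∧ 1 ≤ r.2 ∧ (r.2 : ℝ) ≤ q₀ ∧ α ≤ (r.1 : ℝ) / r.2 ∧
    (r.1 : ℝ) / r.2 ≤ α + w) → (s.card : ℝ) ≤ 1 + w * q₀ ^ 2

def MultEqStmt : Prop := ∀ (N C K d : ℕ) (Δ w l : ℝ), 1 ≤ N → 1 ≤ C → 1 ≤ K → 1 ≤ d →
  DivB (4 * N * C) Δ → 0 ≤ w → w ≤ 1 → ∀ s : Finset ((ℕ × ℕ) × ℕ), s ⊆ Fam N C K →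
    (∀ e ∈ s, gx e.1 e.2 = d ∧ l ≤ pt e.1 e.2 ∧ pt e.1 e.2 ≤ l + w) →
    (s.card : ℝ) ≤ Δ * (1 + 16 * (K : ℝ) ^ 3 * (N : ℝ) ^ 2 * (C : ℝ) ^ 2 * w / (d : ℝ) ^ 2)

def MultStmt : Prop := ∀ (N C K : ℕ) (Δ : ℝ), 1 ≤ N → 1 ≤ C → 1 ≤ K → DivB (4 * N * C) Δ →
  (∀ (G : ℕ) (w l : ℝ), 0 ≤ w → w ≤ 1 → ∀ s : Finset ((ℕ × ℕ) × ℕ), s ⊆ Fam N C K →
    (∀ e ∈ s, gx e.1 e.2 ≤ G ∧ l ≤ pt e.1 e.2 ∧ pt e.1 e.2 ≤ l + w) →
    (s.card : ℝ) ≤ Δ * (G + 32 * (K : ℝ) ^ 3 * (N : ℝ) ^ 2 * (C : ℝ) ^ 2 * w)) ∧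
  (∀ T d : ℕ, 1 ≤ T → 1 ≤ d →
    CM ((Fam N C K).filter fun e => gx e.1 e.2 = d) (fun e => pt e.1 e.2) T
      (3 * K * Δ * (1 + 16 * (K : ℝ) ^ 3 * (N : ℝ) ^ 2 * (C : ℝ) ^ 2 / (T * (d : ℝ) ^ 2)))) ∧
  (∀ T G : ℕ, 1 ≤ T →
    CM ((Fam N C K).filter fun e => gx e.1 e.2 ≤ G) (fun e => pt e.1 e.2) T
      (3 * K * Δ * (G + 32 * (K : ℝ) ^ 3 * (N : ℝ) ^ 2 * (C : ℝ) ^ 2 / T)))

def Mult0Stmt : Prop := ∀ N C K T : ℕ, 1 ≤ N → 1 ≤ C → 1 ≤ K → 1 ≤ T →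
  CM (Win N C K) (fun p => -Real.log (yv p)) T
    (3 * K * (2 * C + 16 * K * N * (C : ℝ) ^ 2 / T))

def EdgeMultStmt : Prop := ∃ c : ℝ, 0 < c ∧ ∀ (N T J C C' K W : ℕ) (E Y : ℝ),
  Hp N T J C C' K E Y → 1 ≤ W → W ≤ 200 * K →
    CM ((Fam N C W).filter fun e => gx e.1 e.2 ≤ J) (fun e => pt e.1 e.2) T
      (c * E ^ 5 * ((C : ℝ) ^ 2 * (N : ℝ) ^ 2 / T)) ∧
    CM (Edg N J C C' W) (fun e => pt e.p e.x) T
      (c * E ^ 10 * J * ((C : ℝ) ^ 2 * (N : ℝ) ^ 2 / T)) ∧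
    CM (Edg N J C C' W) (fun e => pt e.p e.z) T
      (c * E ^ 10 * J * ((C : ℝ) ^ 2 * (N : ℝ) ^ 2 / T))

/-! ### Statements: size of `f` -/

def KerStmt : Prop := ∃ c : ℝ, 0 < c ∧ ∀ (T : ℕ) (u : ℝ), 1 ≤ T → |u| ≤ 4 →
  ‖fu T (fun t => (2 * (T : ℝ) - |(t : ℝ)|) / (2 * T)) u‖ ≤ c * T * kp (T * u)

def PrsStmt : Prop := ∃ c : ℝ, 0 < c ∧ ∀ (N T : ℕ) (u : ℝ), 1 ≤ N → N ≤ T → T ≤ N ^ 2 →
  ∑ x ∈ Icc N (2 * N), ∑ x' ∈ Icc N (2 * N),
      kp (T * (u + Real.log x - Real.log x')) ≤ c * ((N : ℝ) ^ 2 / T + maj N T u)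

def MajStmt : Prop := ∃ c : ℝ, 0 < c ∧
  ∀ (N T : ℕ) (ι : Type) (s : Finset ι) (u : ι → ℝ) (μ : ℝ), 1 ≤ N → N ≤ T → T ≤ N ^ 2 →
    CM s u T μ → ∑ i ∈ s, maj N T (u i) ^ 2 ≤ c * μ * (N : ℝ) ^ 2 * (1 + Real.log N)

def BigStmt : Prop := ∃ c : ℝ, 0 < c ∧ ∀ (N T : ℕ) (b : ℕ → ℂ) (V Ms : ℝ),
  1 ≤ N → N ≤ T → T ≤ N ^ 2 → (∀ n, ‖b n‖ ≤ 1) → Mass N b (IT T) V ≤ Ms →
    BigP T (gw N T b V) (c * (N : ℝ) ^ 2 + 2 * Ms)
      (c * (T : ℝ) ^ 2 * (N : ℝ) ^ 2 * (1 + Real.log N))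

def StartStmt : Prop := ∀ (N T : ℕ) (g : ℤ → ℝ) (b : ℕ → ℂ), 1 ≤ N → (∀ n, ‖b n‖ ≤ 1) →
  (∑ t ∈ IT T, g t * ‖DP N b t‖ ^ 2) ^ 2 ≤ 2 * N * ∑ p ∈ Win N 1 2, ‖uP N T g b p‖ ^ 2

def EndStmt : Prop := ∃ c : ℝ, 0 < c ∧ ∀ (N T C K : ℕ) (g : ℤ → ℝ) (U MM : ℝ),
  1 ≤ N → 1 ≤ T → 1 ≤ C → 1 ≤ K → T ≤ N * C → (∀ t ∈ IT T, 0 ≤ g t ∧ g t ≤ U) →
    (∀ b : ℕ → ℂ, (∀ n, ‖b n‖ ≤ 1) → ∑ t ∈ IT T, g t * ‖DP N b t‖ ^ 2 ≤ MM) →
    Th N T g C K (c * (K : ℝ) ^ 2 * U * MM)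

def PeakStmt : Prop := ∃ c : ℝ, 0 < c ∧
  ∀ (N T J C C' K W : ℕ) (E Y MM : ℝ) (g : ℤ → ℝ) (b : ℕ → ℂ),
    Hp N T J C C' K E Y → Hg N T g E Y MM → 1 ≤ W → W ≤ 200 * K → (∀ n, ‖b n‖ ≤ 1) →
      ∑ p ∈ Win N C W, ‖uK N T J g b p‖ ^ 2 ≤
        c * E ^ 8 * ((N : ℝ) ^ 3 * (C : ℝ) ^ 2 * MM / Y)

/-! ### Statements: characters -/

def LS0Stmt : Prop := ∃ c : ℝ, 0 < c ∧ ∀ (R L : ℕ) (a : ℕ → ℂ),
  ∑ r ∈ Icc 1 R, ∑ χ ∈ prim r, ‖∑ n ∈ Icc 1 L, a n * χ (n : ZMod r)‖ ^ 2 ≤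
    c * ((R : ℝ) ^ 2 + L) * ∑ n ∈ Icc 1 L, ‖a n‖ ^ 2

def MomStmt : Prop := ∃ c : ℝ, 0 < c ∧ ∀ (k R L : ℕ) (Δ : ℝ), 1 ≤ k → DivB (L ^ k) Δ →
  ∑ r ∈ Icc 1 R, ∑ χ ∈ prim r, ‖Sc r χ L‖ ^ (2 * k) ≤
    c * ((R : ℝ) ^ 2 + (L : ℝ) ^ k) * (Δ ^ k * (L : ℝ) ^ k)

def TrivStmt : Prop := ∀ (r L : ℕ), 2 ≤ r → ∀ χ ∈ prim r, ‖Sc r χ L‖ ≤ r

def SelStmt : Prop := ∀ (J L R D Y : ℝ) (κ : ℕ), 0 ≤ L → L ≤ J → 1 ≤ D → 0 < Y → 0 < R →
  J ≤ D ^ 4 → J ^ 3 ≤ D ^ 10 * Y ^ 2 → 2 ≤ κ → R ≤ Y * D ^ (2 * κ) → D ^ 2 * L < R ^ 2 →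
    ∃ k : ℕ, 2 ≤ k ∧ k ≤ κ ∧ R ≤ Y * D ^ (2 * k) ∧ L ^ k ≤ R * (Y * D ^ (2 * k))

def DyStmt : Prop := ∃ c : ℝ, 0 < c ∧ ∀ (J m R κ : ℕ) (lam D Y Δ : ℝ), 1 ≤ J → 1 ≤ m → 1 ≤ R →
  1 ≤ D → 0 < Y → lam ^ 2 = D ^ 2 * J → (J : ℝ) ≤ D ^ 4 → (J : ℝ) ^ 3 ≤ D ^ 10 * Y ^ 2 →
    2 ≤ κ → 2 * (R : ℝ) ≤ Y * D ^ (2 * κ) → DivB (J ^ κ) Δ →
    ∑ r ∈ Ioc R (2 * R), Bad J lam m r ≤ c * Δ ^ κ * lam ^ 2 * R * Y

def XiStmt : Prop := ∃ c : ℝ, 0 < c ∧ ∀ (J C X κ : ℕ) (Y Δ : ℝ), 1 ≤ C → 1 ≤ X → 1 ≤ Y →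
  Y ^ 6 * (C : ℝ) ^ 2 ≤ J → 2 ≤ κ → 2 * (X : ℝ) ≤ Y ^ (4 * κ - 1) → DivB (J ^ κ) Δ →
    XiB J C X (c * Δ ^ κ * (1 + Real.log X) ^ 2) Y

def OrthStmt : Prop := ∀ (q : ℕ) (ι : Type) (s : Finset ι) (ξ : ι → ℕ) (α : ι → ℂ) (m : ℝ),
  1 ≤ q → (∀ s' : Finset ι, s' ⊆ s → (∀ i ∈ s', ∀ i' ∈ s', ξ i ≡ ξ i' [MOD q]) →
    (s'.card : ℝ) ≤ m) →
  ∑ χ : DirichletCharacter ℂ q, ‖∑ i ∈ s, α i * χ (ξ i : ZMod q)‖ ^ 2 ≤
    (q.totient : ℝ) * m * ∑ i ∈ s, ‖α i‖ ^ 2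

open Classical in
def ExpStmt : Prop := ∀ q n L : ℕ, 1 ≤ q → Nat.Coprime n q →
  ((cnt L q n : ℂ) - (cop L q : ℂ) / (q.totient : ℂ)) * (q.totient : ℂ) =
    ∑ χ ∈ (univ : Finset (DirichletCharacter ℂ q)).erase 1,
      χ (-1) * χ (n : ZMod q) * conj (Sc q χ L)

def PrinStmt : Prop := ∀ q J g : ℕ, 1 ≤ q → 1 ≤ g →
  (q : ℝ) ≤ q.totient * q.divisors.card ∧
  |(cop (J / g) q : ℝ) / q.totient - (J : ℝ) / (g * q)| ≤ (q.divisors.card : ℝ) ^ 2 / q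

def PrimStmt : Prop := ∀ (q L : ℕ) (χ : DirichletCharacter ℂ q), 1 ≤ q →
  ‖Sc q χ L‖ ≤ ∑ e ∈ (q / χ.conductor).divisors, ‖Sc χ.conductor χ.primitiveCharacter (L / e)‖

open Classical in
def FibStmt : Prop := ∀ (q : ℕ) (F : (r : ℕ) → DirichletCharacter ℂ r → ℝ), 1 ≤ q →
  (∀ r ψ, 0 ≤ F r ψ) →
  ∑ χ ∈ (univ : Finset (DirichletCharacter ℂ q)).erase 1, F χ.conductor χ.primitiveCharacter ≤
    ∑ r ∈ q.divisors.erase 1, ∑ ψ ∈ prim r, F r ψ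

/-- one block of the gcd decomposition, non-principal characters -/
def BlockStmt : Prop := ∀ (q g J e₀ : ℕ) (ι κ : Type) (s : Finset ι) (s' : Finset κ)
  (ξ : ι → ℕ) (ζ : κ → ℕ) (α : ι → ℂ) (β : κ → ℂ) (mA mB nA Δ lam : ℝ),
  1 ≤ q → 1 ≤ g → 0 < lam → (q.divisors.card : ℝ) ≤ Δ → Nat.Coprime e₀ q →
  (∀ i ∈ s, Nat.Coprime (ξ i) q) → (∀ i ∈ s', Nat.Coprime (ζ i) q) → (s.card : ℝ) ≤ nA →
  (∀ t : Finset ι, t ⊆ s → (∀ i ∈ t, ∀ i' ∈ t, ξ i ≡ ξ i' [MOD q]) → (t.card : ℝ) ≤ mA) →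
  (∀ t : Finset κ, t ⊆ s' → (∀ i ∈ t, ∀ i' ∈ t, ζ i ≡ ζ i' [MOD q]) → (t.card : ℝ) ≤ mB) →
  ‖∑ i ∈ s, ∑ i' ∈ s',
      ((cnt (J / g) q (e₀ * ξ i * ζ i') : ℂ) - (cop (J / g) q : ℂ) / (q.totient : ℂ)) *
        (α i * β i')‖ ≤
    √(∑ i ∈ s, ‖α i‖ ^ 2) * √(∑ i ∈ s', ‖β i‖ ^ 2) *
      (Δ * lam * √(mA * mB / g) + √(Δ * nA * mB * BadQ J lam (g * q) / (q.totient * g)))

/-- reduction of the modulus -/
def RedStmt : Prop := ∀ J Q X Z : ℕ, 1 ≤ Q →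
  cnt J Q (X * Z) = cnt (J / Nat.gcd (Nat.gcd X Q * Nat.gcd Z Q) Q)
      (Q / Nat.gcd (Nat.gcd X Q * Nat.gcd Z Q) Q)
      (Nat.gcd X Q * Nat.gcd Z Q / Nat.gcd (Nat.gcd X Q * Nat.gcd Z Q) Q *
        (X / Nat.gcd X Q) * (Z / Nat.gcd Z Q)) ∧
    Nat.Coprime (Nat.gcd X Q * Nat.gcd Z Q / Nat.gcd (Nat.gcd X Q * Nat.gcd Z Q) Q)
      (Q / Nat.gcd (Nat.gcd X Q * Nat.gcd Z Q) Q) ∧
    Nat.Coprime (X / Nat.gcd X Q) (Q / Nat.gcd (Nat.gcd X Q * Nat.gcd Z Q) Q) ∧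
    Nat.Coprime (Z / Nat.gcd Z Q) (Q / Nat.gcd (Nat.gcd X Q * Nat.gcd Z Q) Q)

/-- sizes and multiplicities of the blocks -/
def CountStmt : Prop :=
  (∀ (N c Q d q : ℕ) (t : Finset ℕ), 1 ≤ N → 1 ≤ c → 1 ≤ Q → d * q ∣ Q → t ⊆ Icc N (2 * N) →
    (∀ x ∈ t, Nat.gcd (c * x) Q = d) →
      (t.card : ℝ) ≤ 3 * N * Nat.gcd c Q / d ∧
      ((∀ x ∈ t, ∀ x' ∈ t, c * x / d ≡ c * x' / d [MOD q]) →
        (t.card : ℝ) ≤ 1 + N * Nat.gcd c Q / (d * q))) ∧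
  (∀ (N C' d q : ℕ) (Δ : ℝ) (t : Finset (ℕ × ℕ)), 1 ≤ N → 1 ≤ C' → 1 ≤ d → 1 ≤ q →
    DivB (4 * N * C') Δ → t ⊆ Ico C' (2 * C') ×ˢ Icc N (2 * N) → (∀ a ∈ t, d ∣ a.1 * a.2) →
      (t.card : ℝ) ≤ Δ * (4 * N * C' / d) ∧
      ((∀ a ∈ t, ∀ a' ∈ t, a.1 * a.2 / d ≡ a'.1 * a'.2 / d [MOD q]) →
        (t.card : ℝ) ≤ Δ * (1 + 4 * N * C' / (d * q)))) ∧
  (∀ C Q : ℕ, 1 ≤ Q → ∑ c ∈ Ico C (2 * C), (Nat.gcd c Q : ℝ) ≤ 3 * C * Q.divisors.card)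

def CharStmt : Prop := ∃ c : ℝ, 0 < c ∧
  ∀ (N J C C' W : ℕ) (E lam : ℝ) (p : ℕ × ℕ) (α β : ℕ → ℂ),
    1 ≤ N → 1 ≤ C → 1 ≤ C' → 1 ≤ W → (W : ℝ) ≤ E → (C' : ℝ) ≤ E * C → p ∈ Win N C W →
    DivB (4 * N * C') E → DivB (2 * W * N * C) E → 0 < lam → (J : ℝ) ≤ lam ^ 2 →
      ‖Bil N J C' p α β‖ ≤ c * E ^ 7 * √(C' : ℝ) *
        (√(∑ x ∈ Icc N (2 * N), ‖α x‖ ^ 2) * √(∑ x ∈ Icc N (2 * N), ‖β x‖ ^ 2)) *
        (lam + Nat.gcd p.1 p.2 * BadQ J lam p.2 / (C * lam))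

/-! ### Statements: the step -/

/-- the unit of the error terms -/
noncomputable def Err (N J C C' : ℕ) (Y MM : ℝ) : ℝ := J * C * C' * (N : ℝ) ^ 2 * MM / Y

def SideAStmt : Prop := ∃ c : ℝ, 0 < c ∧
  ∀ (N T J C C' K W : ℕ) (E Y MM : ℝ) (g : ℤ → ℝ) (b b' : ℕ → ℂ),
    Hp N T J C C' K E Y → Hg N T g E Y MM → 1 ≤ W → W ≤ 200 * K →
    (∀ n, ‖b n‖ ≤ 1) → (∀ n, ‖b' n‖ ≤ 1) →
      ∑ p ∈ Win N C W, ‖Bil N J C' p (aS T J g (E * (N : ℝ) ^ 2) b p)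
        (aS T J g (E * (N : ℝ) ^ 2) b' p)‖ ≤ c * E ^ 16 * Err N J C C' Y MM

/-- `α` lives on the big non-peak values, `β` on the non-peak values -/
def SideBStmt : Prop := ∃ c : ℝ, 0 < c ∧
  ∀ (N T J C C' K W : ℕ) (E Y MM : ℝ) (g : ℤ → ℝ) (α β : ℕ × ℕ → ℕ → ℂ),
    Hp N T J C C' K E Y → Hg N T g E Y MM → 1 ≤ W → W ≤ 200 * K →
    (∀ p x, ‖α p x‖ ≤ ‖aB T J g (E * (N : ℝ) ^ 2) (fun _ => 1) p x‖) →
    (∀ p x, ‖β p x‖ ≤ ‖aO T J g (fun _ => 1) p x‖) →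
      ∑ p ∈ Win N C W, ‖Bil N J C' p (α p) (β p)‖ ≤ c * E ^ 16 * Err N J C C' Y MM ∧
      ∑ p ∈ Win N C W, ‖Bil N J C' p (β p) (α p)‖ ≤ c * E ^ 16 * Err N J C C' Y MM

def SideStmt : Prop := ∃ c : ℝ, 0 < c ∧
  ∀ (N T J C C' K W : ℕ) (E Y MM : ℝ) (g : ℤ → ℝ) (b b' : ℕ → ℂ),
    Hp N T J C C' K E Y → Hg N T g E Y MM → 1 ≤ W → W ≤ 200 * K →
    (∀ n, ‖b n‖ ≤ 1) → (∀ n, ‖b' n‖ ≤ 1) →
      ∑ p ∈ Win N C W, ‖Bp N T J C' g b b' p -
          (((J : ℝ) * C' / p.2 : ℝ) : ℂ) * (uO N T J g b p * conj (uO N T J g b' p))‖ ≤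
        c * E ^ 16 * Err N J C C' Y MM

def OmStmt : Prop := ∀ N P K : ℕ, 1 ≤ P →
  (∀ n, 0 ≤ Om N P K n ∧ Om N P K n ≤ 1) ∧
  (∀ n, uu P ((N : ℝ) / K) ≤ n → n ≤ uu P ((K : ℝ) * N) → Om N P K n = 1) ∧
  (∀ n, Om N P K n ≠ 0 → uu P ((N : ℝ) / K) - 2 * P ≤ n ∧ n ≤ uu P ((K : ℝ) * N) + 2 * P - 2) ∧
  (∀ n n', |Om N P K n - Om N P K n'| ≤ 2 * |((n - n' : ℤ) : ℝ)| / P) ∧
  (∀ (Λ : Finset ℤ) (a a' n : ℤ), Icc (a - P) a ⊆ Λ → Icc (a' - P) a' ⊆ Λ →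
    Om N P K (a + a' - n) = (∑ i ∈ Λ, ∑ i' ∈ Λ,
      if (i ≤ a ∧ a < i + P) ∧ (i' ≤ a' ∧ a' < i' + P) ∧ n - i - i' ∈ BB N P K
        then (1 : ℝ) else 0) / (P : ℝ) ^ 2)

/-- geometry of one edge -/
def GeoStmt : Prop := ∀ (N T J C C' W : ℕ) (Y : ℝ) (e : ED), 1 ≤ N → 1 ≤ T → 1 ≤ C → 1 ≤ C' →
  1 ≤ W → 1 ≤ Y → (J : ℝ) * T * Y ≤ C * C' * (N : ℝ) ^ 2 → e ∈ Edg N J C C' W →
    e.r ∈ Win N C' (8 * W) ∧ gx e.p e.x ≤ J ∧ gx e.p e.z ≤ J ∧ gx e.r e.x ≤ J ∧ gx e.r e.z ≤ J ∧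
    e.p.2 * e.r.2 = e.p.1 * e.c * e.x * e.z + e.j ∧
    ∃ θ : ℝ, 0 ≤ θ ∧ T * Y * θ ≤ 1 ∧ θ * (C * C' * (N : ℝ) ^ 2) ≤ J ∧
      pt e.r e.z = -(pt e.p e.x + θ) ∧
      pt e.r e.x = -(pt e.p e.z + θ) ∧
      Real.log (yv e.p) + Real.log (yv e.r) = Real.log e.x + Real.log e.z + θ

/-- both sums as sums over one edge set -/
def BijStmt : Prop := ∀ (N T J C C' K P : ℕ) (Y : ℝ) (g : ℤ → ℝ) (b : ℕ → ℂ),
  1 ≤ N → 1 ≤ T → 1 ≤ C → 1 ≤ C' → 1 ≤ K → 1 ≤ Y → 2 ≤ P →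
  (J : ℝ) * T * Y ≤ C * C' * (N : ℝ) ^ 2 →
    SY N T J C C' K P g b = ∑ e ∈ Edg N J C C' (25 * K), (Om N P K (uu P (yv e.p)) : ℂ) *
      (av T g b e.p e.x * conj (av T g b e.p e.z)) ∧
    SS N T J C C' K P g b = ∑ e ∈ Edg N J C C' (25 * K),
      (Om N P K (uu P e.x + uu P e.z - uu P (yv e.r)) : ℂ) *
        (av T g b e.r e.x * conj (av T g b e.r e.z))

def ReflStmt : Prop := ∃ c : ℝ, 0 < c ∧
  ∀ (N T J C C' K W : ℕ) (E Y MM : ℝ) (g : ℤ → ℝ) (b : ℕ → ℂ),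
    Hp N T J C C' K E Y → Hg N T g E Y MM → 1 ≤ W → W ≤ 200 * K → (∀ n, ‖b n‖ ≤ 1) →
      ∑ e ∈ Edg N J C C' W, ‖av T g b e.p e.x * conj (av T g b e.p e.z) -
          av T g b e.r e.x * conj (av T g b e.r e.z)‖ ≤ c * E ^ 16 * Err N J C C' Y MM ∧
      ∑ e ∈ Edg N J C C' W, ‖av T g b e.p e.x * conj (av T g b e.p e.z)‖ ≤
        c * E ^ 16 * (Y * Err N J C C' Y MM)

def EdgeStmt : Prop := ∃ c : ℝ, 0 < c ∧
  ∀ (N T J C C' K P : ℕ) (E Y MM : ℝ) (g : ℤ → ℝ) (b : ℕ → ℂ),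
    Hp N T J C C' K E Y → Hg N T g E Y MM → 2 ≤ P → Y ≤ P → (P : ℝ) ≤ 3 * Y →
    (∀ n, ‖b n‖ ≤ 1) →
      ‖SY N T J C C' K P g b - SS N T J C C' K P g b‖ ≤ c * E ^ 16 * Err N J C C' Y MM

def SSStmt : Prop := ∃ c : ℝ, 0 < c ∧
  ∀ (N T J C C' K P : ℕ) (E Y MM Z : ℝ) (g : ℤ → ℝ) (b : ℕ → ℂ),
    Hp N T J C C' K E Y → Hg N T g E Y MM → 2 ≤ P → (∀ n, ‖b n‖ ≤ 1) →
    Th N T g C' (200 * K) Z →
      ‖SS N T J C C' K P g b‖ ≤ c * (K * J * C * C' * Z) + c * E ^ 16 * Err N J C C' Y MM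

def SYStmt : Prop := ∃ c : ℝ, 0 < c ∧
  ∀ (N T J C C' K P : ℕ) (E Y MM : ℝ) (g : ℤ → ℝ) (b : ℕ → ℂ),
    Hp N T J C C' K E Y → Hg N T g E Y MM → 2 ≤ P → (∀ n, ‖b n‖ ≤ 1) →
      (J : ℝ) * C' * ∑ p ∈ Win N C K, ‖uP N T g b p‖ ^ 2 ≤
        4 * K * N * C * (‖SY N T J C C' K P g b‖ + c * E ^ 16 * Err N J C C' Y MM)

def StepStmt : Prop := ∃ c : ℝ, 0 < c ∧
  ∀ (N T J C C' K : ℕ) (E Y MM Z : ℝ) (g : ℤ → ℝ),
    Hp N T J C C' K E Y → Hg N T g E Y MM → Th N T g C' (200 * K) Z →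
      Th N T g C K (c * (K : ℝ) ^ 2 * Z + c * E ^ 17 * ((N : ℝ) ^ 2 * MM / Y))

/-! ### Statements: iteration and conclusion -/

def IterStmt : Prop := ∀ n : ℕ, ∃ A : ℝ, 0 < A ∧
  ∀ (N T ρ : ℕ) (J : ℕ → ℕ) (E Y MM Z : ℝ) (g : ℤ → ℝ), 0 ≤ Z → 1 ≤ E → 1 ≤ Y → 0 ≤ MM →
    (∀ i < n, Hp N T (J i) (ρ ^ i) (ρ ^ (i + 1)) (2 * 200 ^ i) E Y) → Hg N T g E Y MM →
    Th N T g (ρ ^ n) (2 * 200 ^ n) Z →
      Th N T g 1 2 (A * (Z + E ^ 17 * ((N : ℝ) ^ 2 * MM / Y)))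

def GrowStmt : Prop := ∀ (η B : ℝ) (κ : ℕ), 0 < η → 1 ≤ B → ∃ A : ℝ, 1 ≤ A ∧
  ∀ N X : ℕ, 1 ≤ N → 1 ≤ X → (X : ℝ) ≤ B * (N : ℝ) ^ B →
    ∃ Δ : ℝ, DivB (X ^ κ) Δ ∧ Δ ^ κ * (1 + Real.log X) ^ 2 ≤ A * (N : ℝ) ^ η

def HpStmt : Prop := ∀ η : ℝ, 0 < η → ∃ (n : ℕ) (A : ℝ), 1 ≤ A ∧
  ∀ (N T : ℕ) (E Y : ℝ), 2 ≤ N → N ≤ T → T ≤ N ^ 2 → (N : ℝ) ^ η ≤ Y →
    4 * (N : ℝ) ^ η * Y ^ 7 * T ≤ (N : ℝ) ^ 2 → A * (N : ℝ) ^ η ≤ E →
    ∃ (ρ : ℕ) (J : ℕ → ℕ), 1 ≤ ρ ∧ T ≤ N * ρ ^ n ∧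
      ∀ i < n, Hp N T (J i) (ρ ^ i) (ρ ^ (i + 1)) (2 * 200 ^ i) E Y

/-- the abstract estimate -/
def AbsStmt : Prop := ∀ η : ℝ, 0 < η → ∃ A : ℝ, 1 ≤ A ∧
  ∀ (N T : ℕ) (E Y U : ℝ) (g : ℤ → ℝ) (b : ℕ → ℂ), 2 ≤ N → N ≤ T → T ≤ N ^ 2 →
    (N : ℝ) ^ η ≤ Y → 4 * (N : ℝ) ^ η * Y ^ 7 * T ≤ (N : ℝ) ^ 2 → A * (N : ℝ) ^ η ≤ E →
    (∀ n, ‖b n‖ ≤ 1) → (∀ t ∈ IT T, 0 ≤ g t ∧ g t ≤ U ∧ g t ≤ ‖DP N b t‖ ^ 2) →
    BigP T g (E * (N : ℝ) ^ 2) (E * (T : ℝ) ^ 2 * (N : ℝ) ^ 2) →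
      ∑ t ∈ IT T, g t * ‖DP N b t‖ ^ 2 ≤ A * ((N : ℝ) ^ 2 * U + E ^ 17 * ((N : ℝ) ^ 4 / Y))

def MVStmt : Prop := ∀ ε : ℝ, 0 < ε → ∃ K : ℝ, 0 < K ∧ ∀ N T : ℕ, 1 ≤ N → N ≤ T → T ≤ N ^ 2 →
  ∀ b : ℕ → ℂ, (∀ n, ‖b n‖ ≤ 1) →
    ∑ t ∈ Icc 0 (T : ℤ), ‖DP N b t‖ ^ 2 ≤ K * (N : ℝ) ^ ε * (T * N) ∧
    ∑ t ∈ Icc 0 (T : ℤ), ‖DP N b t‖ ^ 4 ≤ K * (N : ℝ) ^ ε * (N : ℝ) ^ 4

/-- mass above the Halasz threshold on the long window -/
def MassStmt : Prop := ∀ ε : ℝ, 0 < ε → ∃ K : ℝ, 0 < K ∧ ∀ N T : ℕ, 1 ≤ N → N ≤ T →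
  T ≤ N ^ 2 → ∀ b : ℕ → ℂ, (∀ n, ‖b n‖ ≤ 1) →
    Mass N b (IT T) (√(N * √(T : ℝ))) ≤ K * (N : ℝ) ^ ε * (N : ℝ) ^ 2

/-- the truncated fourth moment -/
def CoreStmt : Prop := ∀ ε : ℝ, 0 < ε → ∃ K : ℝ, 0 < K ∧ ∀ N T : ℕ, 1 ≤ N → N ≤ T →
  T ≤ N ^ 2 → ∀ b : ℕ → ℂ, (∀ n, ‖b n‖ ≤ 1) →
    ∑ t ∈ (Icc 0 (T : ℤ)).filter (fun t : ℤ => ‖DP N b t‖ < √(N * √(T : ℝ))), ‖DP N b t‖ ^ 4 ≤
      K * (N : ℝ) ^ ε * ((N : ℝ) ^ (26 / 7 : ℝ) * (T : ℝ) ^ (1 / 7 : ℝ))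

def LVStmt : Prop := ∀ ε : ℝ, 0 < ε → ∃ K : ℝ, ∀ (N : ℕ) (T V : ℝ), 1 ≤ N → (N : ℝ) ≤ T →
  T ≤ (N : ℝ) ^ 2 → 0 < V → ∀ b : ℕ → ℂ, (∀ n, ‖b n‖ ≤ 1) → ∀ W : Finset ℝ,
    (∀ t ∈ W, 0 ≤ t ∧ t ≤ T) → (∀ s ∈ W, ∀ t ∈ W, s ≠ t → 1 ≤ |s - t|) →
    (∀ t ∈ W, V ≤ ‖DP N b t‖) →
      (W.card : ℝ) ≤ K * (N : ℝ) ^ ε *
        ((N : ℝ) ^ 2 / V ^ 2 + (N : ℝ) ^ (26 / 7 : ℝ) * T ^ (1 / 7 : ℝ) / V ^ 4)

def LqStmt : Prop := ∀ q : ℝ, 2 ≤ q → q ≤ 4 → ∀ ε : ℝ, 0 < ε → ∃ K : ℝ, 0 < K ∧ ∀ N T : ℕ,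
  1 ≤ N → (T : ℝ) ≤ (N : ℝ) ^ ((24 - 5 * q) / (26 - 6 * q)) → ∀ b : ℕ → ℂ, (∀ n, ‖b n‖ ≤ 1) →
    ∑ t ∈ Icc 1 T, ‖DP N b (t : ℕ)‖ ^ q ≤ K * (N : ℝ) ^ ε * (N : ℝ) ^ q

def LqkStmt : Prop := ∀ k : ℕ, 1 ≤ k → ∀ q : ℝ, 2 * (k : ℝ) ≤ q → q ≤ 4 * k → ∀ ε : ℝ, 0 < ε →
  ∃ K : ℝ, ∀ N T : ℕ, 1 ≤ N → (T : ℝ) ≤ (N : ℝ) ^ (k * (24 * k - 5 * q) / (26 * k - 6 * q)) →
    ∀ b : ℕ → ℂ, (∀ n, ‖b n‖ ≤ 1) →
      ∑ t ∈ Icc 1 T, ‖DP N b (t : ℕ)‖ ^ q ≤ K * (N : ℝ) ^ ε * (N : ℝ) ^ q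

end Pool.Agent.MP_2a1f0e_nt.RF

end

section

set_option autoImplicit false

open Finset
open scoped ComplexConjugate

namespace Pool.Agent.MP_2a1f0e_nt.RF

open GM

theorem divB_mono {X X' : ℕ} {Δ Δ' : ℝ} (h : DivB X Δ) (hX : X' ≤ X) (hΔ : Δ ≤ Δ') :
    DivB X' Δ' :=
  ⟨h.1.trans hΔ, fun n hn => (h.2 n (hn.trans hX)).trans hΔ⟩

theorem mem_IT {T : ℕ} {t : ℤ} : t ∈ IT T ↔ -(2 * T : ℤ) < t ∧ t < 2 * T := by
  simp [IT]

theorem mem_Win {N C K : ℕ} {p : ℕ × ℕ} : p ∈ Win N C K ↔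
    ((C ≤ p.1 ∧ p.1 < 2 * C) ∧ 1 ≤ p.2 ∧ p.2 ≤ 2 * K * N * C) ∧
      N * p.1 ≤ K * p.2 ∧ p.2 ≤ K * N * p.1 := by
  simp [Win]

theorem mem_Fam {N C K : ℕ} {e : (ℕ × ℕ) × ℕ} :
    e ∈ Fam N C K ↔ e.1 ∈ Win N C K ∧ N ≤ e.2 ∧ e.2 ≤ 2 * N := by
  simp [Fam]

theorem mem_Edg {N J C C' K : ℕ} {e : ED} : e ∈ Edg N J C C' K ↔
    (e.p ∈ Win N C K ∧ (C' ≤ e.c ∧ e.c < 2 * C') ∧ (N ≤ e.x ∧ e.x ≤ 2 * N) ∧
      (N ≤ e.z ∧ e.z ≤ 2 * N) ∧ 1 ≤ e.j ∧ e.j ≤ J) ∧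
      e.p.2 ∣ e.p.1 * e.c * e.x * e.z + e.j := by
  simp only [Edg, mem_filter, mem_product, mem_Ico, mem_Icc]
  rfl

theorem Win_mono {N C K K' : ℕ} (h : K ≤ K') : Win N C K ⊆ Win N C K' := by
  intro p hp
  rw [mem_Win] at hp ⊢
  refine ⟨⟨hp.1.1, hp.1.2.1, hp.1.2.2.trans ?_⟩, hp.2.1.trans ?_, hp.2.2.trans ?_⟩ <;> gcongr

theorem conj_fu (T : ℕ) (g : ℤ → ℝ) (u : ℝ) : conj (fu T g u) = fu T g (-u) := by
  unfold fu trig
  rw [map_sum]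
  refine sum_congr rfl fun t _ => ?_
  rw [map_mul, Complex.conj_ofReal, ← Complex.exp_conj]
  congr 2
  simp only [map_mul, Complex.conj_I, Complex.conj_ofReal, map_intCast]
  push_cast
  ring

theorem norm_fu_neg (T : ℕ) (g : ℤ → ℝ) (u : ℝ) : ‖fu T g (-u)‖ = ‖fu T g u‖ := by
  rw [← conj_fu, Complex.norm_conj]

theorem trig_per (T : ℕ) (a : ℤ → ℂ) (u : ℝ) (k : ℤ) :
    trig T a (u - 2 * Real.pi * k) = trig T a u := by
  unfold trig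
  refine sum_congr rfl fun t _ => ?_
  congr 1
  rw [Complex.exp_eq_exp_iff_exists_int]
  refine ⟨-(t * k), ?_⟩
  push_cast
  ring

theorem sum_sq_fu (T : ℕ) (g : ℤ → ℝ) :
    ∑ t ∈ IT T, ‖((g t : ℝ) : ℂ)‖ ^ 2 = ∑ t ∈ IT T, g t ^ 2 := by
  simp

theorem norm_av_le {T : ℕ} {g : ℤ → ℝ} {b : ℕ → ℂ} (hb : ∀ n, ‖b n‖ ≤ 1) (p : ℕ × ℕ) (x : ℕ) :
    ‖av T g b p x‖ ≤ ‖fu T g (pt p x)‖ := by
  unfold av
  rw [norm_mul]
  exact mul_le_of_le_one_left (norm_nonneg _) (hb x)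

theorem uP_eq (N T J : ℕ) (g : ℤ → ℝ) (b : ℕ → ℂ) (p : ℕ × ℕ) :
    uP N T g b p = uO N T J g b p + uK N T J g b p := by
  unfold uP uO uK aO
  rw [← sum_add_distrib]
  refine sum_congr rfl fun x _ => ?_
  by_cases h : gx p x ≤ J
  · simp [h, not_lt.2 h]
  · simp [h, not_le.1 h]

theorem aO_eq (T J : ℕ) (g : ℤ → ℝ) (U : ℝ) (b : ℕ → ℂ) (p : ℕ × ℕ) (x : ℕ) :
    aO T J g b p x = aS T J g U b p x + aB T J g U b p x := by
  unfold aO aS aB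
  by_cases h : gx p x ≤ J
  · by_cases h' : ‖fu T g (pt p x)‖ ≤ U
    · simp [h, h', not_lt.2 h']
    · simp [h, h', not_le.1 h']
  · simp [h]

/-- a sum over the edges, fibred over the outer point -/
theorem sum_Edg {M : Type*} [AddCommMonoid M] (N J C C' K : ℕ) (F : ℕ × ℕ → ℕ → ℕ → ℕ → M) :
    ∑ e ∈ Edg N J C C' K, F e.p e.c e.x e.z =
      ∑ p ∈ Win N C K, ∑ c' ∈ Ico C' (2 * C'), ∑ x ∈ Icc N (2 * N), ∑ z ∈ Icc N (2 * N),
        cnt J p.2 (p.1 * c' * x * z) • F p c' x z := by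
  unfold Edg
  rw [sum_filter, sum_product]
  refine sum_congr rfl fun p _ => ?_
  rw [sum_product]
  refine sum_congr rfl fun c' _ => ?_
  rw [sum_product]
  refine sum_congr rfl fun x _ => ?_
  rw [sum_product]
  refine sum_congr rfl fun z _ => ?_
  rw [cnt, ← sum_const, sum_filter]
  rfl

theorem Err_comm (N J C C' : ℕ) (Y MM : ℝ) : Err N J C' C Y MM = Err N J C C' Y MM := by
  unfold Err
  ring

theorem Hg.MM0 {N T : ℕ} {g : ℤ → ℝ} {E Y MM : ℝ} (h : Hg N T g E Y MM) : 0 ≤ MM :=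
  (sum_nonneg fun _ _ => sq_nonneg _).trans h.sq

theorem Err_nonneg {N J C C' : ℕ} {Y MM : ℝ} (hY : 0 ≤ Y) (hM : 0 ≤ MM) :
    0 ≤ Err N J C C' Y MM := by
  unfold Err
  positivity

theorem Bad_nonneg (J : ℕ) (lam : ℝ) (m r : ℕ) : 0 ≤ Bad J lam m r :=
  sum_nonneg fun _ _ => by split_ifs <;> positivity

theorem BadQ_nonneg (J : ℕ) (lam : ℝ) (Q : ℕ) : 0 ≤ BadQ J lam Q :=
  sum_nonneg fun _ _ => sum_nonneg fun _ _ => Bad_nonneg _ _ _ _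

theorem mem_prim {r : ℕ} {χ : DirichletCharacter ℂ r} : χ ∈ prim r ↔ χ.IsPrimitive := by
  simp [prim]

theorem Th.mono {N T : ℕ} {g : ℤ → ℝ} {C K : ℕ} {Z Z' : ℝ} (h : Th N T g C K Z) (hZ : Z ≤ Z') :
    Th N T g C K Z' := fun b hb => (h b hb).trans (by gcongr)

theorem BigP.mono {T : ℕ} {g : ℤ → ℝ} {U U' B B' : ℝ} (h : BigP T g U B) (hU : U ≤ U')
    (hB : B ≤ B') : BigP T g U' B' := fun ι s u μ hc hs =>
  (h ι s u μ hc fun i hi => hU.trans_lt (hs i hi)).trans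
    (mul_le_mul_of_nonneg_right hB hc.nonneg)

end Pool.Agent.MP_2a1f0e_nt.RF

end

section

set_option autoImplicit false

open Finset
open scoped ComplexConjugate

namespace Pool.Agent.MP_2a1f0e_nt.RF

open GM

/-- the reflected edge -/
def flip_Bij (e : ED) : ED := (e.r, e.p.1, e.x, e.z, e.j)

lemma flip_mem_Bij {N J C C' W W' : ℕ} {e : ED} (he : e ∈ Edg N J C C' W) (h : e.r ∈ Win N C' W')
    (h' : e.p.2 * e.r.2 = e.p.1 * e.c * e.x * e.z + e.j) : flip_Bij e ∈ Edg N J C' C W' := by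
  obtain ⟨⟨h1, -, h2⟩, -⟩ := mem_Edg.1 he
  refine mem_Edg.2 ⟨⟨h, (mem_Win.1 h1).1.1, h2⟩, e.p.2, ?_⟩
  change e.c * e.p.1 * e.x * e.z + e.j = e.r.2 * e.p.2
  rw [mul_comm e.c, ← h', mul_comm]

lemma flip_r_Bij {e : ED} (h : 1 ≤ e.r.2) (h' : e.p.2 * e.r.2 = e.p.1 * e.c * e.x * e.z + e.j) :
    (flip_Bij e).r = e.p := by
  change (e.p.1, (e.c * e.p.1 * e.x * e.z + e.j) / e.r.2) = e.p
  rw [mul_comm e.c, ← h', Nat.mul_div_cancel _ h]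

lemma flip_flip_Bij {e : ED} (h : 1 ≤ e.r.2) (h' : e.p.2 * e.r.2 = e.p.1 * e.c * e.x * e.z + e.j) :
    flip_Bij (flip_Bij e) = e := by
  change ((flip_Bij e).r, e.c, e.x, e.z, e.j) = e
  rw [flip_r_Bij h h']
  rfl

lemma log_Bij : 3 ≤ Real.log 25 := by
  rw [Real.le_log_iff_exp_le (by norm_num), show (3 : ℝ) = (3 : ℕ) * 1 by norm_num,
    Real.exp_nat_mul]
  have := pow_le_pow_left₀ (Real.exp_pos 1).le Real.exp_one_lt_d9.le 3
  linarith [show (2.7182818286 : ℝ) ^ 3 ≤ 25 by norm_num]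

lemma win_Bij {N C K W P : ℕ} {p : ℕ × ℕ} {x z s θ : ℝ} (hN : 1 ≤ N) (hC : 1 ≤ C) (hK : 1 ≤ K)
    (hP : 2 ≤ P) (hp : p ∈ Win N C W) (h0 : 0 ≤ θ) (h1 : θ ≤ 1)
    (h : Real.log s + Real.log (yv p) = Real.log x + Real.log z + θ)
    (h2 : uu P ((N : ℝ) / K) - 2 * P ≤ uu P x + uu P z - uu P s)
    (h3 : uu P x + uu P z - uu P s ≤ uu P ((K : ℝ) * N) + 2 * P - 2) : p ∈ Win N C (25 * K) := by
  obtain ⟨⟨⟨c1, c2⟩, q1, -⟩, -⟩ := mem_Win.1 hp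
  have a1 : ∀ t, (uu P t : ℝ) ≤ P * Real.log t := fun t => Int.floor_le _
  have a2 : ∀ t, P * Real.log t < (uu P t : ℝ) + 1 := fun t => Int.lt_floor_add_one _
  have P2 : (2 : ℝ) ≤ P := by exact_mod_cast hP
  have N0 : (0 : ℝ) < N := by exact_mod_cast hN
  have K0 : (0 : ℝ) < K := by exact_mod_cast hK
  have c0 : (0 : ℝ) < p.1 := by exact_mod_cast hC.trans c1
  have q0 : (0 : ℝ) < p.2 := by exact_mod_cast q1
  have y0 : 0 < yv p := div_pos q0 c0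
  have r2 : (uu P ((N : ℝ) / K) : ℝ) - 2 * P ≤ uu P x + uu P z - uu P s := by exact_mod_cast h2
  have r3 : (uu P x : ℝ) + uu P z - uu P s ≤ uu P ((K : ℝ) * N) + 2 * P - 2 := by exact_mod_cast h3
  have e : P * Real.log s + P * Real.log (yv p) = P * Real.log x + P * Real.log z + P * θ := by
    rw [← mul_add, h, mul_add, mul_add]
  have t0 : 0 ≤ P * θ := by positivity
  have t1 : P * θ ≤ P := mul_le_of_le_one_right (by linarith) h1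
  have l := log_Bij
  have u1 : Real.log (yv p) ≤ Real.log ((K : ℝ) * N) + 3 := by
    refine le_of_mul_le_mul_left ?_ (by linarith : (0 : ℝ) < P)
    linarith [a1 s, a2 x, a2 z, a1 ((K : ℝ) * N)]
  have u2 : Real.log ((N : ℝ) / K) ≤ Real.log (yv p) + 3 := by
    refine le_of_mul_le_mul_left ?_ (by linarith : (0 : ℝ) < P)
    linarith [a2 s, a1 x, a1 z, a2 ((N : ℝ) / K)]
  have v1 : yv p ≤ 25 * ((K : ℝ) * N) := by
    rw [← Real.log_le_log_iff y0 (by positivity), Real.log_mul (by norm_num) (by positivity)]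
    linarith
  have v2 : (N : ℝ) / K ≤ 25 * yv p := by
    rw [← Real.log_le_log_iff (by positivity) (by positivity), Real.log_mul (x := 25) (by norm_num)
      y0.ne']
    linarith
  rw [yv, div_le_iff₀ c0] at v1
  rw [yv, ← mul_div_assoc, div_le_div_iff₀ K0 c0] at v2
  have w1 : p.2 ≤ 25 * K * N * p.1 := by
    exact_mod_cast (by linarith : (p.2 : ℝ) ≤ 25 * K * N * p.1)
  have w2 : N * p.1 ≤ 25 * K * p.2 := by
    exact_mod_cast (by linarith : (N : ℝ) * p.1 ≤ 25 * K * p.2)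
  refine mem_Win.2 ⟨⟨⟨c1, c2⟩, q1, w1.trans ?_⟩, w2, w1⟩
  calc 25 * K * N * p.1 ≤ 25 * K * N * (2 * C) := Nat.mul_le_mul_left _ c2.le
    _ = 2 * (25 * K) * N * C := by ring

theorem bij_stmt (hO : OmStmt) (hG : GeoStmt) : BijStmt := by
  intro N T J C C' K P Y g b hN hT hC hC' hK hY hP hJ
  refine ⟨?_, ?_⟩
  · rw [sum_Edg N J C C' (25 * K) fun p _ x z => (Om N P K (uu P (yv p)) : ℂ) *
      (av T g b p x * conj (av T g b p z)), SY]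
    refine sum_congr rfl fun p _ => ?_
    simp only [Bp, mul_sum, nsmul_eq_mul]
    refine sum_congr rfl fun _ _ => sum_congr rfl fun _ _ => sum_congr rfl fun _ _ => ?_
    ring
  have g1 := fun e => hG N T J C C' (25 * K) Y e hN hT hC hC' (by omega) hY hJ
  have g2 := fun e => hG N T J C' C (200 * K) Y e hN hT hC' hC (by omega) hY (by linarith)
  have r1 : ∀ {e : ED} {D W : ℕ}, e.r ∈ Win N D W → 1 ≤ e.r.2 := fun h => (mem_Win.1 h).1.2.1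
  symm
  rw [SS]
  refine sum_bij_ne_zero (fun e _ _ => flip_Bij e) (fun e he _ => ?_) (fun e he _ e' he' _ h => ?_)
    (fun e he h => ?_) fun e he _ => rfl
  · obtain ⟨k1, -, -, -, -, k2, -⟩ := g1 e he
    refine flip_mem_Bij he ?_ k2
    rwa [← mul_assoc] at k1
  · obtain ⟨k1, -, -, -, -, k2, -⟩ := g1 e he
    obtain ⟨k3, -, -, -, -, k4, -⟩ := g1 e' he'
    rw [← flip_flip_Bij (r1 k1) k2, h, flip_flip_Bij (r1 k3) k4]
  · obtain ⟨k1, -, -, -, -, k2, θ, t1, t2, -, -, -, t3⟩ := g2 e he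
    have k3 := (hO N P K (by omega)).2.2.1 _ fun h0 => h (by rw [h0, Complex.ofReal_zero, zero_mul])
    have T1 : (1 : ℝ) ≤ T := by exact_mod_cast hT
    have t4 : θ ≤ 1 :=
      (le_mul_of_one_le_left t1 (one_le_mul_of_one_le_of_one_le T1 hY)).trans t2
    refine ⟨flip_Bij e, flip_mem_Bij he (win_Bij hN hC hK hP k1 t1 t4 t3 k3.1 k3.2) k2, ?_,
      flip_flip_Bij (r1 k1) k2⟩
    rw [flip_r_Bij (r1 k1) k2]
    exact h

end Pool.Agent.MP_2a1f0e_nt.RF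

end

section

set_option autoImplicit false

open Finset
open scoped ComplexConjugate

namespace Pool.Agent.MP_2a1f0e_nt.RF

open GM

lemma uu_mono_SS (P : ℕ) {x y : ℝ} (hx : 0 < x) (h : x ≤ y) : uu P x ≤ uu P y :=
  Int.floor_mono (mul_le_mul_of_nonneg_left (Real.log_le_log hx h) (Nat.cast_nonneg P))

lemma sub_Lam_SS {N : ℕ} (P : ℕ) (hN : 1 ≤ N) {x : ℕ} (hx : x ∈ Icc N (2 * N)) :
    Icc (uu P x - P) (uu P x) ⊆ Lam N P := by
  obtain ⟨h1, h2⟩ := mem_Icc.1 hx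
  have N0 : (0 : ℝ) < N := by exact_mod_cast hN
  have h3 : (N : ℝ) ≤ x := by exact_mod_cast h1
  have h4 : (x : ℝ) ≤ 2 * N := by exact_mod_cast h2
  exact Icc_subset_Icc (sub_le_sub_right (uu_mono_SS P N0 h3) _)
    (uu_mono_SS P (N0.trans_le h3) h4)

lemma card_Lam_SS {N P : ℕ} (hN : 1 ≤ N) (hP : 1 ≤ P) : ((Lam N P).card : ℝ) ≤ 3 * P := by
  have N0 : (0 : ℝ) < N := by exact_mod_cast hN
  have h1 : uu P (2 * N) < uu P N + 1 + P := by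
    unfold uu
    rw [Int.floor_lt, Real.log_mul (by norm_num) N0.ne']
    have h2 := Int.lt_floor_add_one ((P : ℝ) * Real.log N)
    have h3 : (P : ℝ) * Real.log 2 ≤ P * 1 :=
      mul_le_mul_of_nonneg_left (by linarith [Real.log_two_lt_d9]) (Nat.cast_nonneg P)
    push_cast
    linarith
  have h4 : (Lam N P).card ≤ 3 * P := by
    rw [Lam, Int.card_Icc]
    omega
  exact_mod_cast h4

lemma norm_bI_SS (P : ℕ) {b : ℕ → ℂ} (hb : ∀ n, ‖b n‖ ≤ 1) (i : ℤ) (n : ℕ) :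
    ‖bI P b i n‖ ≤ 1 := by
  unfold bI
  split_ifs
  · exact hb n
  · simp

lemma av_bI_SS (T P : ℕ) (g : ℤ → ℝ) (b : ℕ → ℂ) (i : ℤ) (p : ℕ × ℕ) (x : ℕ) :
    av T g (bI P b i) p x = if i ≤ uu P x ∧ uu P x < i + P then av T g b p x else 0 := by
  unfold av bI
  split_ifs <;> simp

lemma comm5_SS {α β γ δ M : Type*} [AddCommMonoid M] (A : Finset α) (B : Finset β)
    (D : Finset γ) (L : Finset δ) (F : α → β → γ → δ → δ → M) :
    ∑ a ∈ A, ∑ b ∈ B, ∑ d ∈ D, ∑ i ∈ L, ∑ i' ∈ L, F a b d i i' =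
      ∑ i ∈ L, ∑ i' ∈ L, ∑ a ∈ A, ∑ b ∈ B, ∑ d ∈ D, F a b d i i' := by
  have h : ∀ G : α → β → γ → δ → M, ∑ a ∈ A, ∑ b ∈ B, ∑ d ∈ D, ∑ i ∈ L, G a b d i =
      ∑ i ∈ L, ∑ a ∈ A, ∑ b ∈ B, ∑ d ∈ D, G a b d i := fun G =>
    (sum_congr rfl fun _ _ => (sum_congr rfl fun _ _ => sum_comm).trans sum_comm).trans sum_comm
  rw [h]
  exact sum_congr rfl fun i _ => h fun a b d i' => F a b d i i'

lemma expand_SS (hO : OmStmt) (N T J C C' K P : ℕ) (g : ℤ → ℝ) (b : ℕ → ℂ) (hN : 1 ≤ N)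
    (hP : 1 ≤ P) :
    SS N T J C C' K P g b = ∑ p ∈ Win N C' (200 * K), ∑ i ∈ Lam N P, ∑ i' ∈ Lam N P,
      (if uu P (yv p) - i - i' ∈ BB N P K then
        Bp N T J C g (bI P b i) (bI P b i') p else 0) / (P : ℂ) ^ 2 := by
  unfold SS
  rw [sum_Edg N J C' C (200 * K) fun p _ x z =>
    (Om N P K (uu P x + uu P z - uu P (yv p)) : ℂ) * (av T g b p x * conj (av T g b p z))]
  refine sum_congr rfl fun p _ => ?_
  have e1 : ∀ i i' : ℤ, (if uu P (yv p) - i - i' ∈ BB N P K then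
        Bp N T J C g (bI P b i) (bI P b i') p else 0) / (P : ℂ) ^ 2 =
      ∑ c ∈ Ico C (2 * C), ∑ x ∈ Icc N (2 * N), ∑ z ∈ Icc N (2 * N),
        (if uu P (yv p) - i - i' ∈ BB N P K then
          (cnt J p.2 (p.1 * c * x * z) : ℂ) *
            (av T g (bI P b i) p x * conj (av T g (bI P b i') p z)) else 0) / (P : ℂ) ^ 2 := by
    intro i i'
    split_ifs
    · simp only [Bp, sum_div]
    · simp
  simp only [e1]
  rw [← comm5_SS]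
  refine sum_congr rfl fun c _ => sum_congr rfl fun x hx => sum_congr rfl fun z hz => ?_
  rw [(hO N P K hP).2.2.2.2 (Lam N P) _ _ _ (sub_Lam_SS P hN hx) (sub_Lam_SS P hN hz),
    nsmul_eq_mul]
  push_cast
  simp only [sum_div, sum_mul, mul_sum]
  refine sum_congr rfl fun i _ => sum_congr rfl fun i' _ => ?_
  rw [av_bI_SS, av_bI_SS]
  by_cases h1 : i ≤ uu P x ∧ uu P x < i + P
  · by_cases h2 : i' ≤ uu P z ∧ uu P z < i' + P
    · by_cases h3 : uu P (yv p) - i - i' ∈ BB N P K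
      · rw [if_pos ⟨h1, h2, h3⟩, if_pos h1, if_pos h2, if_pos h3]
        push_cast
        ring
      · rw [if_neg fun h => h3 h.2.2, if_neg h3]
        simp
    · rw [if_neg fun h => h2 h.2.1, if_neg h2]
      simp
  · rw [if_neg fun h => h1 h.1, if_neg h1]
    simp

lemma uO_sq_SS (N T J : ℕ) (g : ℤ → ℝ) (b : ℕ → ℂ) (p : ℕ × ℕ) :
    ‖uO N T J g b p‖ ^ 2 ≤ 2 * ‖uP N T g b p‖ ^ 2 + 2 * ‖uK N T J g b p‖ ^ 2 := by
  have h1 : uO N T J g b p = uP N T g b p - uK N T J g b p := by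
    rw [uP_eq N T J]
    ring
  have h2 := norm_sub_le (uP N T g b p) (uK N T J g b p)
  rw [← h1] at h2
  have h3 := pow_le_pow_left₀ (norm_nonneg _) h2 2
  nlinarith [sq_nonneg (‖uP N T g b p‖ - ‖uK N T J g b p‖)]

lemma main_SS {N C C' W : ℕ} (T J : ℕ) (g : ℤ → ℝ) (b b' : ℕ → ℂ) (hN : 1 ≤ N) (hC : 1 ≤ C')
    {p : ℕ × ℕ} (hp : p ∈ Win N C' W) :
    ‖(((J : ℝ) * C / p.2 : ℝ) : ℂ) * (uO N T J g b p * conj (uO N T J g b' p))‖ ≤
      W * J * C / (N * C') * (‖uP N T g b p‖ ^ 2 + ‖uK N T J g b p‖ ^ 2 +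
        (‖uP N T g b' p‖ ^ 2 + ‖uK N T J g b' p‖ ^ 2)) := by
  obtain ⟨⟨⟨h1, -⟩, h2, -⟩, h3, -⟩ := mem_Win.1 hp
  have N0 : (0 : ℝ) < N := by exact_mod_cast hN
  have C0 : (0 : ℝ) < C' := by exact_mod_cast hC
  have Q0 : (0 : ℝ) < p.2 := by exact_mod_cast h2
  have h4 : (N : ℝ) * C' ≤ W * p.2 := by
    exact_mod_cast (Nat.mul_le_mul_left N h1).trans h3
  have h5 : (J : ℝ) * C / p.2 ≤ W * J * C / (N * C') := by
    rw [div_le_div_iff₀ Q0 (mul_pos N0 C0)]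
    have := mul_le_mul_of_nonneg_left h4 (show (0 : ℝ) ≤ J * C by positivity)
    linarith
  rw [norm_mul, norm_mul, Complex.norm_real, Real.norm_of_nonneg (by positivity),
    Complex.norm_conj]
  refine mul_le_mul h5 ?_ (by positivity) (by positivity)
  nlinarith [uO_sq_SS N T J g b p, uO_sq_SS N T J g b' p,
    sq_nonneg (‖uO N T J g b p‖ - ‖uO N T J g b' p‖)]

theorem ss_stmt (hS : SideStmt) (hP : PeakStmt) (hO : OmStmt) : SSStmt := by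
  obtain ⟨cS, cS0, hS⟩ := hS
  obtain ⟨cP, cP0, hP⟩ := hP
  refine ⟨9 * (400 + cS + 2 * cP), by positivity, ?_⟩
  intro N T J C C' K P E Y MM Z g b h hg P2 hb hT
  have N0 : (0 : ℝ) < N := by exact_mod_cast h.N1
  have C0 : (0 : ℝ) < C' := by exact_mod_cast h.C1'
  have P0 : (0 : ℝ) < P := by exact_mod_cast (by omega : 0 < P)
  have E1 := h.E1
  have Y0 : 0 < Y := by linarith [h.Y1]
  have W1 : 1 ≤ 200 * K := by have := h.K1; omega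
  have R0 : 0 ≤ Err N J C C' Y MM := Err_nonneg Y0.le hg.MM0
  have Z0 : 0 ≤ Z := by
    have h1 := (sum_nonneg fun _ _ => sq_nonneg _).trans (hT b hb)
    rw [mul_assoc] at h1
    exact nonneg_of_mul_nonneg_left h1 (by positivity)
  have key : ∀ b₁ b₂ : ℕ → ℂ, (∀ n, ‖b₁ n‖ ≤ 1) → (∀ n, ‖b₂ n‖ ≤ 1) →
      ∑ p ∈ Win N C' (200 * K), ‖Bp N T J C g b₁ b₂ p‖ ≤
        400 * (K * J * C * C' * Z) + (cS + 2 * cP) * E ^ 16 * Err N J C C' Y MM := by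
    intro b₁ b₂ h₁ h₂
    have s1 := hS N T J C' C K (200 * K) E Y MM g b₁ b₂ h.symm hg W1 le_rfl h₁ h₂
    rw [Err_comm] at s1
    have p1 := hP N T J C' C K (200 * K) E Y MM g b₁ h.symm hg W1 le_rfl h₁
    have p2 := hP N T J C' C K (200 * K) E Y MM g b₂ h.symm hg W1 le_rfl h₂
    have t1 := hT b₁ h₁
    have t2 := hT b₂ h₂
    have s2 := sum_le_sum fun p (hp : p ∈ Win N C' (200 * K)) =>
      main_SS (C := C) T J g b₁ b₂ h.N1 h.C1' hp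
    rw [← mul_sum, sum_add_distrib, sum_add_distrib, sum_add_distrib] at s2
    have s3 := s2.trans (mul_le_mul_of_nonneg_left
      (add_le_add (add_le_add t1 p1) (add_le_add t2 p2)) (by positivity))
    have e1 : ((200 * K : ℕ) : ℝ) * J * C / (N * C') *
        (Z * N * (C' : ℝ) ^ 2 + cP * E ^ 8 * ((N : ℝ) ^ 3 * (C' : ℝ) ^ 2 * MM / Y) +
          (Z * N * (C' : ℝ) ^ 2 + cP * E ^ 8 * ((N : ℝ) ^ 3 * (C' : ℝ) ^ 2 * MM / Y))) =
        400 * (K * J * C * C' * Z) + 2 * cP * (200 * K * E ^ 8) * Err N J C C' Y MM := by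
      unfold Err
      push_cast
      field_simp
      ring
    rw [e1] at s3
    have e2 : 200 * (K : ℝ) * E ^ 8 ≤ E ^ 16 :=
      calc _ ≤ E * E ^ 8 := mul_le_mul_of_nonneg_right h.KE (by positivity)
        _ = E ^ 9 := by ring
        _ ≤ _ := pow_le_pow_right₀ E1 (by norm_num)
    have e3 : 2 * cP * (200 * K * E ^ 8) * Err N J C C' Y MM ≤
        2 * cP * E ^ 16 * Err N J C C' Y MM := by gcongr
    have s4 := sum_le_sum fun p (_ : p ∈ Win N C' (200 * K)) =>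
      norm_le_norm_sub_add (Bp N T J C g b₁ b₂ p)
        ((((J : ℝ) * C / p.2 : ℝ) : ℂ) * (uO N T J g b₁ p * conj (uO N T J g b₂ p)))
    rw [sum_add_distrib] at s4
    linarith
  have B0 : 0 ≤ 400 * (K * J * C * C' * Z) + (cS + 2 * cP) * E ^ 16 * Err N J C C' Y MM := by
    positivity
  have hL := card_Lam_SS h.N1 (by omega : 1 ≤ P)
  rw [expand_SS hO N T J C C' K P g b h.N1 (by omega), sum_comm]
  calc _ ≤ ∑ i ∈ Lam N P, ∑ i' ∈ Lam N P, (400 * (K * J * C * C' * Z) +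
          (cS + 2 * cP) * E ^ 16 * Err N J C C' Y MM) / (P : ℝ) ^ 2 := by
        refine norm_sum_le_of_le _ fun i _ => ?_
        rw [sum_comm]
        refine norm_sum_le_of_le _ fun i' _ => ?_
        refine le_trans ?_ (div_le_div_of_nonneg_right
          (key _ _ (norm_bI_SS P hb i) (norm_bI_SS P hb i')) (by positivity))
        rw [sum_div]
        refine norm_sum_le_of_le _ fun p _ => ?_
        rw [norm_div, norm_pow, Complex.norm_natCast]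
        gcongr
        split_ifs
        · exact le_rfl
        · simp
    _ = (Lam N P).card * ((Lam N P).card * ((400 * (K * J * C * C' * Z) +
          (cS + 2 * cP) * E ^ 16 * Err N J C C' Y MM) / (P : ℝ) ^ 2)) := by
        simp only [sum_const, nsmul_eq_mul]
    _ ≤ 3 * P * (3 * P * ((400 * (K * J * C * C' * Z) +
          (cS + 2 * cP) * E ^ 16 * Err N J C C' Y MM) / (P : ℝ) ^ 2)) := by gcongr
    _ = 9 * (400 * (K * J * C * C' * Z) + (cS + 2 * cP) * E ^ 16 * Err N J C C' Y MM) := by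
        field_simp
        ring
    _ ≤ _ := by
        have a1 : 0 ≤ (K : ℝ) * J * C * C' * Z := by positivity
        have a2 : 0 ≤ E ^ 16 * Err N J C C' Y MM := by positivity
        nlinarith [mul_nonneg cS0.le a1, mul_nonneg cP0.le a1]

end Pool.Agent.MP_2a1f0e_nt.RF

end

section

set_option autoImplicit false

open Finset
open scoped ComplexConjugate

namespace Pool.Agent.MP_2a1f0e_nt.RF

open GM

lemma gsum_Peak (hC : CountStmt) {N C W : ℕ} {E : ℝ} {p : ℕ × ℕ} (hN : 1 ≤ N) (hC1 : 1 ≤ C)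
    (hp : p ∈ Win N C W) (hD : DivB (2 * W * N * C) E) :
    ∑ x ∈ Icc N (2 * N), (gx p x : ℝ) ≤ E * (6 * N * C) := by
  obtain ⟨⟨⟨a1, a2⟩, a3, a4⟩, -⟩ := mem_Win.1 hp
  rw [← sum_fiberwise_of_maps_to (g := gx p) (t := p.2.divisors)
    fun x _ => Nat.mem_divisors.2 ⟨Nat.gcd_dvd_right _ _, by omega⟩]
  have h1 := sum_le_card_nsmul p.2.divisors
    (fun d => ∑ x ∈ Icc N (2 * N) with gx p x = d, (gx p x : ℝ)) (6 * N * C) fun d hd => by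
      have hd0 : (0 : ℝ) < d := by exact_mod_cast Nat.pos_of_mem_divisors hd
      have h2 := (hC.1 N p.1 p.2 d 1 ((Icc N (2 * N)).filter fun x => gx p x = d) hN (by omega) a3
        (by rw [mul_one]; exact Nat.dvd_of_mem_divisors hd) (filter_subset _ _)
        fun x hx => (mem_filter.1 hx).2).1
      rw [le_div_iff₀ hd0] at h2
      rw [sum_congr rfl fun x hx => congrArg Nat.cast (mem_filter.1 hx).2, sum_const,
        nsmul_eq_mul]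
      have h3 : (Nat.gcd p.1 p.2 : ℝ) ≤ 2 * C := by
        exact_mod_cast (Nat.gcd_le_left _ (by omega)).trans a2.le
      have h4 := mul_le_mul_of_nonneg_left h3 (show (0 : ℝ) ≤ 3 * N by positivity)
      linarith
  rw [nsmul_eq_mul] at h1
  exact h1.trans (mul_le_mul_of_nonneg_right (hD.2 _ a4) (by positivity))

lemma cs_Peak (s : Finset ℕ) (G : ℕ → ℕ) (a : ℕ → ℂ) (F : ℕ → ℝ) (J : ℕ)
    (h : ∀ x, ‖a x‖ ≤ F x) :
    ‖∑ x ∈ s, if J < G x then a x else 0‖ ^ 2 ≤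
      (∑ x ∈ s, (G x : ℝ)) * ∑ x ∈ s, if J < G x then F x ^ 2 / G x else 0 := by
  have h1 : ‖∑ x ∈ s, if J < G x then a x else 0‖ ≤ ∑ x ∈ s, if J < G x then F x else 0 := by
    refine (norm_sum_le _ _).trans (sum_le_sum fun x _ => ?_)
    split_ifs
    · exact h x
    · simp
  refine (pow_le_pow_left₀ (norm_nonneg _) h1 2).trans
    (sum_sq_le_sum_mul_sum_of_sq_le_mul s (fun x _ => Nat.cast_nonneg _) (fun x _ => ?_)
      fun x _ => le_of_eq ?_)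
  · split_ifs <;> positivity
  · split_ifs with h2
    · have h3 : (G x : ℝ) ≠ 0 := by exact_mod_cast (by omega : G x ≠ 0)
      field_simp
    · simp

lemma har_Peak {ι : Type} (s : Finset ι) (G : ι → ℕ) (F : ι → ℝ) (J X : ℕ) (B : ℝ) (hB : 0 ≤ B)
    (hG : ∀ e ∈ s, 1 ≤ G e ∧ G e ≤ X) (h : ∀ d, J < d → ∑ e ∈ s with G e = d, F e ≤ B) :
    ∑ e ∈ s, (if J < G e then F e / G e else 0) ≤ (1 + Real.log X) * B := by
  rw [← sum_fiberwise_of_maps_to (g := G) (t := Icc 1 X) fun e he => mem_Icc.2 (hG e he)]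
  have h1 : ∑ d ∈ Icc 1 X, (d : ℝ)⁻¹ ≤ 1 + Real.log X := by
    have := harmonic_le_one_add_log X
    rw [harmonic_eq_sum_Icc] at this
    push_cast at this
    exact this
  refine le_trans ?_ (mul_le_mul_of_nonneg_right h1 hB)
  rw [sum_mul]
  refine sum_le_sum fun d _ => ?_
  rw [sum_congr rfl (g := fun e => if J < d then F e / d else 0) fun e he => by
    rw [(mem_filter.1 he).2]]
  split_ifs with h2
  · rw [← sum_div, div_eq_inv_mul]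
    exact mul_le_mul_of_nonneg_left (h d h2) (by positivity)
  · rw [sum_const_zero]
    positivity

lemma num_Peak {N T J C W d E Y : ℝ} (hN : 1 ≤ N) (hT : 1 ≤ T) (hC : 1 ≤ C) (hY : 1 ≤ Y)
    (hE : 1 ≤ E) (hW0 : 0 ≤ W) (hW : W ≤ E) (hJ : Y ^ 6 * C ^ 2 ≤ J) (hd : J ≤ d)
    (hH : T * Y ^ 7 ≤ N ^ 2) :
    3 * W * E * (1 + 16 * W ^ 3 * N ^ 2 * C ^ 2 / (T * d ^ 2)) * T ≤
      51 * E ^ 5 * (N ^ 2 * C / Y) := by
  have hY0 : 0 < Y := by linarith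
  have hT0 : 0 < T := by linarith
  have h1 : Y * C ≤ Y ^ 6 * C ^ 2 :=
    mul_le_mul (le_self_pow₀ hY (by norm_num)) (le_self_pow₀ hC (by norm_num)) (by linarith)
      (by positivity)
  have h2 : 1 ≤ Y * C := one_le_mul_of_one_le_of_one_le hY hC
  have h3 : 1 ≤ d := by linarith
  have h4 : Y * C ≤ d ^ 2 := (h1.trans (hJ.trans hd)).trans (le_self_pow₀ h3 (by norm_num))
  have h5 : T ≤ N ^ 2 * C / Y := by
    rw [le_div_iff₀ hY0]
    have a1 := mul_le_mul_of_nonneg_left (le_self_pow₀ hY (show 7 ≠ 0 by norm_num)) hT0.le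
    have a2 : N ^ 2 ≤ N ^ 2 * C := le_mul_of_one_le_right (by positivity) hC
    linarith
  have h6 : N ^ 2 * C ^ 2 / d ^ 2 ≤ N ^ 2 * C / Y := by
    rw [div_le_div_iff₀ (by positivity) hY0]
    have := mul_le_mul_of_nonneg_left h4 (show 0 ≤ N ^ 2 * C by positivity)
    linarith
  have h7 : W ^ 3 ≤ E ^ 3 := pow_le_pow_left₀ hW0 hW 3
  have h8 : 1 ≤ E ^ 3 := one_le_pow₀ hE
  have h9 : (1 + 16 * W ^ 3 * N ^ 2 * C ^ 2 / (T * d ^ 2)) * T =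
      T + 16 * (W ^ 3 * (N ^ 2 * C ^ 2 / d ^ 2)) := by
    field_simp
  have h10 : W ^ 3 * (N ^ 2 * C ^ 2 / d ^ 2) ≤ E ^ 3 * (N ^ 2 * C / Y) :=
    mul_le_mul h7 h6 (by positivity) (by positivity)
  have h11 : N ^ 2 * C / Y ≤ E ^ 3 * (N ^ 2 * C / Y) :=
    le_mul_of_one_le_left (by positivity) h8
  rw [mul_assoc (3 * W * E), h9]
  calc _ ≤ 3 * E * E * (17 * (E ^ 3 * (N ^ 2 * C / Y))) :=
        mul_le_mul (by gcongr) (by linarith) (by positivity) (by positivity)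
    _ = _ := by ring

theorem peak_stmt (hL : LSStmt) (hM : MultStmt) (hC : CountStmt) : PeakStmt := by
  obtain ⟨c, hc, hL⟩ := hL
  refine ⟨306 * c, by positivity, ?_⟩
  intro N T J C C' K W E Y MM g b hp hg hW1 hW hb
  have hE := hp.E1
  have hT : 1 ≤ T := hp.N1.trans hp.NT
  have hY : 0 < Y := zero_lt_one.trans_le hp.Y1
  have hMM := hg.MM0
  have hX : 2 * W * N * C ≤ 400 * K * N * (C + C') :=
    Nat.mul_le_mul (Nat.mul_le_mul_right _ (by omega)) (Nat.le_add_right _ _)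
  have hX' : 4 * N * C ≤ 400 * K * N * (C + C') :=
    Nat.mul_le_mul (Nat.mul_le_mul_right _ (by have := hp.K1; omega)) (Nat.le_add_right _ _)
  have hWE : (W : ℝ) ≤ E := le_trans (by exact_mod_cast hW) hp.KE
  have h1 : ∀ p ∈ Win N C W, ‖uK N T J g b p‖ ^ 2 ≤ E * (6 * N * C) *
      ∑ x ∈ Icc N (2 * N), if J < gx p x then ‖fu T g (pt p x)‖ ^ 2 / gx p x else 0 := by
    intro p h
    refine (cs_Peak _ (gx p) _ (fun x => ‖fu T g (pt p x)‖) J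
      (norm_av_le hb p)).trans (mul_le_mul_of_nonneg_right
        (gsum_Peak hC hp.N1 hp.C1 h (divB_mono hp.dv hX le_rfl)) (sum_nonneg fun x _ => ?_))
    split_ifs <;> positivity
  have hB : 0 ≤ c * (51 * E ^ 5 * ((N : ℝ) ^ 2 * C / Y)) * MM := by positivity
  have h2 := har_Peak (Fam N C W) (fun e => gx e.1 e.2) (fun e => ‖fu T g (pt e.1 e.2)‖ ^ 2) J
    (400 * K * N * (C + C')) _ hB
    (fun e he => by
      obtain ⟨⟨-, a3, a4⟩, -⟩ := mem_Win.1 (mem_Fam.1 he).1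
      exact ⟨Nat.gcd_pos_of_pos_right _ a3, (Nat.gcd_le_right _ a3).trans (a4.trans hX)⟩)
    (fun d hd => by
      have a1 := (hM N C W E hp.N1 hp.C1 hW1 (divB_mono hp.dv hX' le_rfl)).2.1 T d hT (by omega)
      have a2 := hL _ _ _ T _ hT a1 fun t => (g t : ℂ)
      rw [sum_sq_fu, mul_assoc c] at a2
      refine a2.trans (mul_le_mul (mul_le_mul_of_nonneg_left (num_Peak (J := J)
        (by exact_mod_cast hp.N1) (by exact_mod_cast hT) (by exact_mod_cast hp.C1) hp.Y1 hE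
        (Nat.cast_nonneg _) hWE hp.JL (by exact_mod_cast hd.le) hp.HY) hc.le) hg.sq
        (sum_nonneg fun _ _ => sq_nonneg _) (by positivity)))
  have h3 := h2.trans (mul_le_mul_of_nonneg_right hp.lg hB)
  unfold Fam at h3
  rw [sum_product] at h3
  refine (sum_le_sum h1).trans ?_
  rw [← mul_sum]
  refine (mul_le_mul_of_nonneg_left h3 (by positivity)).trans ?_
  have h4 : E ^ 7 ≤ E ^ 8 := pow_le_pow_right₀ hE (by norm_num)
  calc _ = 306 * c * E ^ 7 * ((N : ℝ) ^ 3 * (C : ℝ) ^ 2 * MM / Y) := by ring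
    _ ≤ _ := by gcongr

end Pool.Agent.MP_2a1f0e_nt.RF

end

section

set_option autoImplicit false

open Finset
open scoped ComplexConjugate

namespace Pool.Agent.MP_2a1f0e_nt.RF

open GM

theorem cs_Refl {ι : Type} {s : Finset ι} {a b : ι → ℝ} {D x y : ℝ} (hD : 0 ≤ D) (hx : 0 ≤ x)
    (hy : 0 ≤ y) (ha : ∑ i ∈ s, a i ^ 2 ≤ D * x ^ 2) (hb : ∑ i ∈ s, b i ^ 2 ≤ D * y ^ 2) :
    ∑ i ∈ s, a i * b i ≤ D * x * y := by
  refine le_trans (le_abs_self _) (abs_le_of_sq_le_sq' ?_ (by positivity) |> abs_le.2)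
  refine (sum_mul_sq_le_sq_mul_sq s a b).trans ?_
  calc _ ≤ D * x ^ 2 * (D * y ^ 2) :=
        mul_le_mul ha hb (sum_nonneg fun _ _ => sq_nonneg _) (by positivity)
    _ = _ := by ring

theorem pt_Refl {bx bz f₁ f₂ g₁ g₂ : ℂ} (hx : ‖bx‖ ≤ 1) (hz : ‖bz‖ ≤ 1) :
    ‖bx * f₁ * conj (bz * f₂) - bx * conj g₂ * conj (bz * conj g₁)‖ ≤
      ‖g₁ - f₁‖ * ‖f₂‖ + ‖f₁‖ * ‖g₂ - f₂‖ + ‖g₁ - f₁‖ * ‖g₂ - f₂‖ := by
  have e : bx * f₁ * conj (bz * f₂) - bx * conj g₂ * conj (bz * conj g₁) =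
      -(bx * conj bz) * ((g₁ - f₁) * conj f₂ + f₁ * conj (g₂ - f₂) +
        (g₁ - f₁) * conj (g₂ - f₂)) := by
    simp only [map_mul, map_sub, Complex.conj_conj]
    ring
  rw [e, norm_mul, norm_neg, norm_mul, Complex.norm_conj]
  refine (mul_le_of_le_one_left (norm_nonneg _)
    (mul_le_one₀ hx (norm_nonneg _) hz)).trans (norm_add₃_le.trans (le_of_eq ?_))
  simp only [norm_mul, Complex.norm_conj]

theorem refl_stmt (hL : LSStmt) (hP : PertStmt) (hE : EdgeMultStmt) (hG : GeoStmt) :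
    ReflStmt := by
  classical
  obtain ⟨cL, cL0, hL⟩ := hL
  obtain ⟨cP, cP0, hP⟩ := hP
  obtain ⟨cE, cE0, hE⟩ := hE
  refine ⟨3 * ((cL + cP) * cE), by positivity, ?_⟩
  intro N T J C C' K W E Y MM g b hp hg hW hWK hb
  have T1 : 1 ≤ T := hp.N1.trans hp.NT
  have T0 : (0 : ℝ) < T := by exact_mod_cast T1
  have Y0 : 0 < Y := one_pos.trans_le hp.Y1
  have E1 := hp.E1
  have M0 := hg.MM0
  have R0 : 0 ≤ Err N J C C' Y MM := Err_nonneg Y0.le M0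
  have hθ : ∀ e : ED, ∃ θ : ℝ, e ∈ Edg N J C C' W → |θ| ≤ 1 / (T * Y) ∧
      pt e.r e.z = -(pt e.p e.x + θ) ∧ pt e.r e.x = -(pt e.p e.z + θ) := fun e => by
    by_cases he : e ∈ Edg N J C C' W
    · obtain ⟨-, -, -, -, -, -, θ, h0, h1, -, h2, h3, -⟩ :=
        hG N T J C C' W Y e hp.N1 T1 hp.C1 hp.C1' hW hp.Y1 hp.JU he
      refine ⟨θ, fun _ => ⟨?_, h2, h3⟩⟩
      rw [abs_of_nonneg h0, le_div_iff₀ (by positivity), mul_comm]
      exact h1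
    · exact ⟨0, fun h => absurd h he⟩
  choose θ hθ using hθ
  obtain ⟨-, m1, m2⟩ := hE N T J C C' K W E Y hp hW hWK
  set μ := cE * E ^ 10 * J * ((C : ℝ) ^ 2 * (N : ℝ) ^ 2 / T) with hμ
  set D := (cL + cP) * cE * E ^ 16 * (Y * Err N J C C' Y MM) with hD
  have D0 : 0 ≤ D := by positivity
  have k1 : μ * T * ∑ t ∈ IT T, ‖((g t : ℝ) : ℂ)‖ ^ 2 ≤
      cE * E ^ 16 * (Y * Err N J C C' Y MM) := by
    have a1 : μ * T = cE * E ^ 10 * (J * C * C * (N : ℝ) ^ 2) := by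
      rw [hμ]
      field_simp
    have a2 : Y * Err N J C C' Y MM = J * C * C' * (N : ℝ) ^ 2 * MM := by
      unfold Err
      field_simp
    have a3 : (C : ℝ) ≤ E ^ 6 * C' :=
      hp.CE'.trans (mul_le_mul_of_nonneg_right (le_self_pow₀ E1 (by norm_num)) (by positivity))
    rw [sum_sq_fu, a1, a2]
    calc _ ≤ cE * E ^ 10 * (J * C * (E ^ 6 * C') * (N : ℝ) ^ 2) * MM := by
          have := hg.sq
          gcongr
      _ = _ := by ring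
  have k0 : 0 ≤ cE * E ^ 16 * (Y * Err N J C C' Y MM) := by positivity
  have k2 : ∀ u : ED → ℝ, CM (Edg N J C C' W) u T μ →
      ∑ e ∈ Edg N J C C' W, ‖fu T g (u e)‖ ^ 2 ≤ D * 1 ^ 2 := fun u hu => by
    refine (hL ED _ u T μ T1 hu _).trans ?_
    have := mul_le_mul_of_nonneg_left k1 cL0.le
    have := mul_nonneg cP0.le k0
    rw [hD]
    linarith
  have eT : T * (1 / (T * Y)) = 1 / Y := by field_simp
  have Y1 : 1 / Y ≤ 1 := (div_le_one Y0).2 hp.Y1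
  have k3 : ∀ u : ED → ℝ, CM (Edg N J C C' W) u T μ →
      ∑ e ∈ Edg N J C C' W, ‖fu T g (u e + θ e) - fu T g (u e)‖ ^ 2 ≤ D * (1 / Y) ^ 2 :=
    fun u hu => by
      refine (hP ED _ u θ T μ _ T1 hu (eT.trans_le Y1) (fun e he => (hθ e he).1) _).trans ?_
      have h1 := mul_le_mul_of_nonneg_left k1 (show 0 ≤ cP * (1 / Y) ^ 2 by positivity)
      have h2 := mul_nonneg (show 0 ≤ cL * (1 / Y) ^ 2 by positivity) k0
      rw [hD, eT]
      linarith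
  have Y2 : 0 ≤ 1 / Y := by positivity
  have s1 := cs_Refl D0 Y2 zero_le_one (k3 _ m1) (k2 _ m2)
  have s2 := cs_Refl D0 zero_le_one Y2 (k2 _ m1) (k3 _ m2)
  have s3 := cs_Refl D0 Y2 Y2 (k3 _ m1) (k3 _ m2)
  have s4 := cs_Refl D0 zero_le_one zero_le_one (k2 _ m1) (k2 _ m2)
  constructor
  · have s5 : D * (1 / Y) * (1 / Y) ≤ D * (1 / Y) :=
      mul_le_of_le_one_right (mul_nonneg D0 Y2) Y1
    have s6 : D * (1 / Y) = (cL + cP) * cE * E ^ 16 * Err N J C C' Y MM := by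
      rw [hD]
      field_simp
    refine (sum_le_sum (g := fun e : ED =>
      ‖fu T g (pt e.p e.x + θ e) - fu T g (pt e.p e.x)‖ * ‖fu T g (pt e.p e.z)‖ +
      ‖fu T g (pt e.p e.x)‖ * ‖fu T g (pt e.p e.z + θ e) - fu T g (pt e.p e.z)‖ +
      ‖fu T g (pt e.p e.x + θ e) - fu T g (pt e.p e.x)‖ *
        ‖fu T g (pt e.p e.z + θ e) - fu T g (pt e.p e.z)‖) fun e he => ?_).trans ?_
    · unfold av
      rw [(hθ e he).2.1, (hθ e he).2.2, ← conj_fu, ← conj_fu]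
      exact pt_Refl (hb _) (hb _)
    · rw [sum_add_distrib, sum_add_distrib]
      linarith
  · refine (sum_le_sum (g := fun e : ED => ‖fu T g (pt e.p e.x)‖ * ‖fu T g (pt e.p e.z)‖)
      fun e _ => ?_).trans ?_
    · rw [norm_mul, Complex.norm_conj]
      exact mul_le_mul (norm_av_le hb _ _) (norm_av_le hb _ _) (norm_nonneg _) (norm_nonneg _)
    · linarith

end Pool.Agent.MP_2a1f0e_nt.RF

end

section

set_option autoImplicit false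

open Finset
open scoped ComplexConjugate

namespace Pool.Agent.MP_2a1f0e_nt.RF

open GM

theorem term_Dy {A x : ℝ} {k : ℕ} (hA : 0 < A) (hx0 : 0 ≤ x) (hk : 1 ≤ k) :
    (if A < x then x else 0) ≤ A * (x / A) ^ k := by
  split_ifs with hx
  · have h1 : 1 ≤ x / A := by
      rw [le_div_iff₀ hA]
      linarith
    have h2 : x / A ≤ (x / A) ^ k := le_self_pow₀ h1 (by omega)
    calc x = A * (x / A) := by field_simp
      _ ≤ A * (x / A) ^ k := by gcongr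
  · positivity

theorem bad_le_Dy {J m r k : ℕ} {lam : ℝ} (hA : 0 < lam ^ 2) (hk : 1 ≤ k) :
    Bad J lam m r ≤
      lam ^ 2 * ((m : ℝ) / lam ^ 2) ^ k * ∑ χ ∈ prim r, ‖Sc r χ (J / m)‖ ^ (2 * k) := by
  unfold Bad
  rw [mul_sum]
  refine sum_le_sum fun χ _ => ?_
  refine (term_Dy hA (by positivity) hk).trans (le_of_eq ?_)
  rw [pow_mul, mul_assoc, ← mul_pow]
  congr 2
  ring

theorem dy_stmt (hM : MomStmt) (hT : TrivStmt) (hS : SelStmt) : DyStmt := by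
  obtain ⟨c, hc, hM⟩ := hM
  refine ⟨4 * c, by positivity, ?_⟩
  intro J m R κ lam D Y Δ hJ hm hR hD hY hlam hJD hJ3 hκ hRY hΔ
  have hΔ1 : 1 ≤ Δ := hΔ.1
  have hJ0 : (0 : ℝ) < J := by exact_mod_cast hJ
  have hm0 : (0 : ℝ) < m := by exact_mod_cast hm
  have hR0 : (0 : ℝ) < R := by exact_mod_cast hR
  have hD0 : 0 < D := by linarith
  have hA : 0 < lam ^ 2 := by rw [hlam]; positivity
  have hLJ : J / m ≤ J := Nat.div_le_self _ _
  have hmL : (m : ℝ) * ((J / m : ℕ) : ℝ) ≤ J := by exact_mod_cast Nat.mul_div_le J m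
  have hL0 : (0 : ℝ) ≤ ((J / m : ℕ) : ℝ) := Nat.cast_nonneg _
  by_cases hcase : D ^ 2 * ((J / m : ℕ) : ℝ) < (2 * (R : ℝ)) ^ 2
  · obtain ⟨k, hk2, hkκ, h1, h2⟩ := hS J ((J / m : ℕ) : ℝ) (2 * R) D Y κ hL0
      (by exact_mod_cast hLJ) hD hY (by positivity) hJD hJ3 hκ hRY hcase
    have hk1 : 1 ≤ k := by omega
    have hdv : DivB ((J / m) ^ k) Δ := divB_mono hΔ
      ((Nat.pow_le_pow_left hLJ k).trans (Nat.pow_le_pow_right hJ hkκ)) le_rfl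
    have hmom := hM k (2 * R) (J / m) Δ hk1 hdv
    push_cast at hmom
    set L : ℝ := ((J / m : ℕ) : ℝ) with hL
    have hsub : Ioc R (2 * R) ⊆ Icc 1 (2 * R) := by
      intro r hr
      rw [mem_Ioc] at hr
      rw [mem_Icc]
      omega
    have hDk : 0 < D ^ (2 * k) := by positivity
    have hq : ((m : ℝ) / lam ^ 2) ^ k * L ^ k * D ^ (2 * k) ≤ 1 := by
      rw [pow_mul, ← mul_pow, ← mul_pow]
      refine pow_le_one₀ (by positivity) ?_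
      rw [hlam, div_mul_eq_mul_div, div_mul_eq_mul_div, div_le_one (by positivity)]
      nlinarith [mul_le_mul_of_nonneg_left hmL (sq_nonneg D)]
    have hsum : (2 * (R : ℝ)) ^ 2 + L ^ k ≤ 4 * R * Y * D ^ (2 * k) := by
      have h3 : (2 * (R : ℝ)) ^ 2 ≤ 2 * R * (Y * D ^ (2 * k)) := by
        rw [sq]
        gcongr
      linarith
    have hΔk : Δ ^ k ≤ Δ ^ κ := pow_le_pow_right₀ hΔ1 hkκ
    calc ∑ r ∈ Ioc R (2 * R), Bad J lam m r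
        ≤ ∑ r ∈ Icc 1 (2 * R), Bad J lam m r :=
          sum_le_sum_of_subset_of_nonneg hsub fun r _ _ => Bad_nonneg _ _ _ _
      _ ≤ ∑ r ∈ Icc 1 (2 * R), lam ^ 2 * ((m : ℝ) / lam ^ 2) ^ k *
            ∑ χ ∈ prim r, ‖Sc r χ (J / m)‖ ^ (2 * k) :=
          sum_le_sum fun r _ => bad_le_Dy hA hk1
      _ = lam ^ 2 * ((m : ℝ) / lam ^ 2) ^ k *
            ∑ r ∈ Icc 1 (2 * R), ∑ χ ∈ prim r, ‖Sc r χ (J / m)‖ ^ (2 * k) := by rw [mul_sum]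
      _ ≤ lam ^ 2 * ((m : ℝ) / lam ^ 2) ^ k *
            (c * ((2 * (R : ℝ)) ^ 2 + L ^ k) * (Δ ^ k * L ^ k)) := by gcongr
      _ ≤ lam ^ 2 * ((m : ℝ) / lam ^ 2) ^ k *
            (c * (4 * R * Y * D ^ (2 * k)) * (Δ ^ κ * L ^ k)) := by gcongr
      _ = 4 * c * Δ ^ κ * lam ^ 2 * R * Y * (((m : ℝ) / lam ^ 2) ^ k * L ^ k * D ^ (2 * k)) := by
          ring
      _ ≤ 4 * c * Δ ^ κ * lam ^ 2 * R * Y * 1 := by gcongr
      _ = 4 * c * Δ ^ κ * lam ^ 2 * R * Y := mul_one _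
  · have h0 : ∑ r ∈ Ioc R (2 * R), Bad J lam m r = 0 := by
      refine sum_eq_zero fun r hr => ?_
      rw [mem_Ioc] at hr
      unfold Bad
      refine sum_eq_zero fun χ hχ => ?_
      rw [if_neg]
      rw [not_lt] at hcase ⊢
      have h1 : ‖Sc r χ (J / m)‖ ≤ 2 * (R : ℝ) :=
        (hT r (J / m) (by omega) χ hχ).trans (by exact_mod_cast hr.2)
      have h2 : ‖Sc r χ (J / m)‖ ^ 2 ≤ (2 * (R : ℝ)) ^ 2 := by gcongr
      calc (m : ℝ) * ‖Sc r χ (J / m)‖ ^ 2 ≤ m * (D ^ 2 * ((J / m : ℕ) : ℝ)) := by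
            gcongr
            exact h2.trans hcase
        _ = D ^ 2 * (m * ((J / m : ℕ) : ℝ)) := by ring
        _ ≤ D ^ 2 * J := by gcongr
        _ = lam ^ 2 := hlam.symm
    rw [h0]
    positivity

end Pool.Agent.MP_2a1f0e_nt.RF

end

section

set_option autoImplicit false

open Finset
open scoped ComplexConjugate

namespace Pool.Agent.MP_2a1f0e_nt.RF

open GM

theorem abs_stmt (hH : HpStmt) (hI : IterStmt) (hS : StartStmt) (hE : EndStmt) : AbsStmt := by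
  intro η hη
  obtain ⟨n, A0, A01, hH⟩ := hH η hη
  obtain ⟨A1, A10, hI⟩ := hI n
  obtain ⟨c, c0, hE⟩ := hE
  set K : ℕ := 2 * 200 ^ n with hK
  have K1 : 1 ≤ K := by rw [hK]; exact Nat.succ_le_of_lt (by positivity)
  have hp : 0 ≤ 2 * A1 * (c * (K : ℝ) ^ 2 + 1) := by positivity
  refine ⟨A0 + 2 * A1 * (c * (K : ℝ) ^ 2 + 1), by linarith, ?_⟩
  intro N T E Y U g b hN hNT hT hY hYT hA hb hg hB
  have N1 : 1 ≤ N := by omega
  have n1 : (1 : ℝ) ≤ N := by exact_mod_cast N1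
  have e1 : 1 ≤ (N : ℝ) ^ η := Real.one_le_rpow n1 hη.le
  have Y1 : 1 ≤ Y := e1.trans hY
  have Y0 : 0 < Y := by linarith
  have hA' : A0 * (N : ℝ) ^ η ≤ E := le_trans (by gcongr; linarith) hA
  have E1 : 1 ≤ E := (one_le_mul_of_one_le_of_one_le A01 e1).trans hA'
  have E17 : 1 ≤ E ^ 17 := one_le_pow₀ E1
  have U0 : 0 ≤ U := by
    have := hg 0 (mem_IT.2 (by omega))
    exact this.1.trans this.2.1
  set F : (ℕ → ℂ) → ℝ := fun b' => ∑ t ∈ IT T, g t * ‖DP N b' t‖ ^ 2 with hF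
  set S : Set ℝ := F '' {b' | ∀ n, ‖b' n‖ ≤ 1} with hSd
  have bdd : BddAbove S := by
    refine ⟨∑ t ∈ IT T, g t * ((N : ℝ) + 1) ^ 2, ?_⟩
    rintro _ ⟨b', hb', rfl⟩
    exact sum_le_sum fun t ht => mul_le_mul_of_nonneg_left
      (pow_le_pow_left₀ (norm_nonneg _) (norm_DP_le N b' hb' t) 2) (hg t ht).1
  have hM : ∀ b' : ℕ → ℂ, (∀ n, ‖b' n‖ ≤ 1) → F b' ≤ sSup S := fun b' hb' =>
    le_csSup bdd ⟨b', hb', rfl⟩
  have hM' : ∀ x, (∀ b' : ℕ → ℂ, (∀ n, ‖b' n‖ ≤ 1) → F b' ≤ x) → sSup S ≤ x := fun x hx =>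
    csSup_le ⟨_, b, hb, rfl⟩ (by rintro _ ⟨b', hb', rfl⟩; exact hx b' hb')
  generalize sSup S = MM at hM hM'
  have hsq : ∑ t ∈ IT T, g t ^ 2 ≤ MM := le_trans (sum_le_sum fun t ht => by
    rw [sq]
    exact mul_le_mul_of_nonneg_left (hg t ht).2.2 (hg t ht).1) (hM b hb)
  have M0 : 0 ≤ MM := (sum_nonneg fun _ _ => sq_nonneg _).trans hsq
  have q1 : 0 ≤ (N : ℝ) ^ 2 * U := by positivity
  have q2 : 0 ≤ (N : ℝ) ^ 4 / Y := by positivity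
  have q3 : (N : ℝ) ^ 4 / Y ≤ E ^ 17 * ((N : ℝ) ^ 4 / Y) := le_mul_of_one_le_left q2 E17
  refine (hM b hb).trans ?_
  by_cases hl : (N : ℝ) ^ 4 ≤ Y * MM
  · obtain ⟨ρ, J, ρ1, hρ, hJ⟩ := hH N T E Y hN hNT hT hY hYT hA'
    have h1 := hE N T (ρ ^ n) K g U MM N1 (by omega) (Nat.one_le_pow _ _ ρ1) K1 hρ
      (fun t ht => ⟨(hg t ht).1, (hg t ht).2.1⟩) hM
    have h2 := hI N T ρ J E Y MM _ g (by positivity) E1 Y1 M0 hJ ⟨hsq, hB, hl⟩ h1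
    set D : ℝ := 2 * A1 * (c * (K : ℝ) ^ 2 * ((N : ℝ) ^ 2 * U) + E ^ 17 * ((N : ℝ) ^ 4 / Y))
      with hD
    have D0 : 0 ≤ D := by positivity
    have h3 : MM ≤ √(MM * D) := hM' _ fun b' hb' => Real.le_sqrt_of_sq_le <| by
      refine (hS N T g b' N1 hb').trans ((mul_le_mul_of_nonneg_left (h2 b' hb')
        (by positivity)).trans (le_of_eq ?_))
      rw [hD]
      push_cast
      ring
    have h4 : MM ^ 2 ≤ MM * D := (Real.le_sqrt M0 (by positivity)).1 h3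
    have h5 : MM ≤ D := by
      rcases M0.eq_or_lt with h | h
      · rw [← h]; exact D0
      · rw [sq] at h4
        exact le_of_mul_le_mul_left h4 h
    refine h5.trans ?_
    have q4 : 0 ≤ E ^ 17 * ((N : ℝ) ^ 4 / Y) := q2.trans q3
    have c1 : 0 ≤ c * (K : ℝ) ^ 2 := by positivity
    rw [hD]
    generalize (N : ℝ) ^ 2 * U = x at *
    generalize E ^ 17 * ((N : ℝ) ^ 4 / Y) = y at *
    generalize c * (K : ℝ) ^ 2 = k at *
    have a0 : 0 ≤ A0 := by linarith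
    have r1 : 0 ≤ A0 * (x + y) := by positivity
    have r2 : 0 ≤ A1 * (x + k * y) := by positivity
    nlinarith
  · have h1 : MM ≤ (N : ℝ) ^ 4 / Y := by
      rw [le_div_iff₀ Y0, mul_comm]
      exact (not_le.1 hl).le
    refine le_trans (by linarith) (le_mul_of_one_le_left (by linarith) (by linarith))

end Pool.Agent.MP_2a1f0e_nt.RF

end

section

set_option autoImplicit false

open Finset
open scoped ComplexConjugate

namespace Pool.Agent.MP_2a1f0e_nt.RF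

open GM

theorem mu_Prim (j s : ℕ) (hs : s ≠ 0) :
    ∑ e ∈ s.divisors, (if e ∣ j then ((ArithmeticFunction.moebius e : ℤ) : ℂ) else 0) =
      if Nat.Coprime j s then 1 else 0 := by
  have h := congrArg (fun f : ArithmeticFunction ℂ => f (Nat.gcd j s))
    (ArithmeticFunction.coe_moebius_mul_coe_zeta (R := ℂ))
  simp only [ArithmeticFunction.coe_mul_zeta_apply, ArithmeticFunction.one_apply,
    ArithmeticFunction.intCoe_apply] at h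
  rw [← sum_filter]
  refine Eq.trans (sum_congr ?_ fun _ _ => rfl) h
  ext e
  simp only [mem_filter, Nat.mem_divisors, Nat.dvd_gcd_iff, ne_eq, Nat.gcd_eq_zero_iff]
  tauto

theorem val_Prim {q : ℕ} (χ : DirichletCharacter ℂ q) (j : ℕ) :
    χ j = χ.primitiveCharacter j * if Nat.Coprime j (q / χ.conductor) then 1 else 0 := by
  have hq : χ.conductor * (q / χ.conductor) = q := Nat.mul_div_cancel' χ.conductor_dvd_level
  by_cases h : Nat.Coprime j q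
  · have := χ.primitiveCharacter_apply_of_isCoprime (Nat.isCoprime_iff_coprime.2 h)
    rw [Int.cast_natCast, Int.cast_natCast] at this
    rw [if_pos (h.coprime_dvd_right (Dvd.intro_left _ hq)), mul_one, this]
  · rw [χ.map_nonunit (by rwa [ZMod.isUnit_iff_coprime])]
    split_ifs with h'
    · rw [χ.primitiveCharacter.map_nonunit, zero_mul]
      rw [ZMod.isUnit_iff_coprime]
      exact fun h1 => h (hq ▸ h1.mul_right h')
    · rw [mul_zero]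

theorem sum_Prim (f : ℕ → ℂ) (L : ℕ) {e : ℕ} (he : 0 < e) :
    ∑ j ∈ Icc 1 L, (if e ∣ j then f j else 0) = ∑ j ∈ Icc 1 (L / e), f (e * j) := by
  rw [← sum_filter]
  refine (sum_nbij (fun j => e * j) (fun j hj => ?_) (fun a _ b _ h => ?_) (fun j hj => ?_)
    fun _ _ => rfl).symm
  · rw [mem_Icc, Nat.le_div_iff_mul_le he, mul_comm] at hj
    exact mem_filter.2 ⟨mem_Icc.2 ⟨Nat.mul_pos he hj.1, hj.2⟩, Dvd.intro _ rfl⟩
  · exact Nat.eq_of_mul_eq_mul_left he h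
  · obtain ⟨h1, k, rfl⟩ := mem_filter.1 (mem_coe.1 hj)
    rw [mem_Icc] at h1
    exact ⟨k, mem_coe.2 (mem_Icc.2 ⟨Nat.pos_of_mul_pos_left h1.1,
      (Nat.le_div_iff_mul_le he).2 (mul_comm e k ▸ h1.2)⟩), rfl⟩

theorem prim_stmt : PrimStmt := by
  intro q L χ hq
  have hs : q / χ.conductor ≠ 0 := fun h => by
    have := Nat.mul_div_cancel' χ.conductor_dvd_level
    rw [h, mul_zero] at this
    omega
  have e1 : Sc q χ L = ∑ e ∈ (q / χ.conductor).divisors, ((ArithmeticFunction.moebius e : ℤ) : ℂ) *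
      χ.primitiveCharacter e * Sc χ.conductor χ.primitiveCharacter (L / e) := by
    unfold Sc
    simp only [val_Prim χ, ← mu_Prim _ _ hs, mul_sum]
    rw [sum_comm]
    refine sum_congr rfl fun e he => ?_
    simp only [mul_ite, mul_zero]
    rw [sum_Prim (fun j => χ.primitiveCharacter j * _) L (Nat.pos_of_mem_divisors he)]
    refine sum_congr rfl fun j _ => ?_
    rw [Nat.cast_mul, map_mul]
    ring
  rw [e1]
  refine (norm_sum_le _ _).trans (sum_le_sum fun e _ => ?_)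
  rw [norm_mul, norm_mul]
  refine mul_le_of_le_one_left (norm_nonneg _) (mul_le_one₀ ?_ (norm_nonneg _)
    (χ.primitiveCharacter.norm_le_one _))
  rw [Complex.norm_intCast]
  exact_mod_cast ArithmeticFunction.abs_moebius_le_one

end Pool.Agent.MP_2a1f0e_nt.RF

end

section

set_option autoImplicit false

open Finset
open scoped ComplexConjugate

namespace Pool.Agent.MP_2a1f0e_nt.RF

open GM

theorem orth_Exp2 {q : ℕ} [NeZero q] {a : ZMod q} (ha : IsUnit a) (b : ZMod q) :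
    ∑ χ : DirichletCharacter ℂ q, χ a * conj (χ b) = if a = b then (q.totient : ℂ) else 0 := by
  by_cases hb : IsUnit b
  · obtain ⟨u, rfl⟩ := hb
    have : ∀ χ : DirichletCharacter ℂ q, χ a * conj (χ u) = χ (↑u⁻¹ * a) := fun χ => by
      rw [map_mul, map_units_inv, ← Complex.star_def, MulChar.star_apply',
        MulChar.inv_apply_eq_inv', mul_comm]
    simp only [this, DirichletCharacter.sum_characters_eq, Units.inv_mul_eq_one, eq_comm]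
  · have : a ≠ b := fun h => hb (h ▸ ha)
    simp [MulChar.map_nonunit _ hb, this]

open Classical in
theorem one_Exp2 (q L : ℕ) : Sc q 1 L = (cop L q : ℂ) := by
  rw [Sc, cop, card_filter]
  push_cast
  refine sum_congr rfl fun j _ => ?_
  by_cases h : Nat.Coprime j q
  · rw [if_pos h, MulChar.one_apply ((ZMod.isUnit_iff_coprime j q).2 h)]
  · rw [if_neg h, MulChar.map_nonunit _ fun h' => h ((ZMod.isUnit_iff_coprime j q).1 h')]

theorem exp2_stmt : ExpStmt := by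
  classical
  intro q n L hq hn
  have : NeZero q := ⟨by omega⟩
  have hu : IsUnit (n : ZMod q) := (ZMod.isUnit_iff_coprime n q).2 hn
  have hφ : (q.totient : ℂ) ≠ 0 := Nat.cast_ne_zero.2 (Nat.totient_pos.2 hq).ne'
  have full : ∑ χ : DirichletCharacter ℂ q, χ (-1) * χ (n : ZMod q) * conj (Sc q χ L) =
      (cnt L q n : ℂ) * q.totient := by
    simp only [Sc, map_sum, mul_sum, ← map_mul, neg_one_mul]
    rw [sum_comm, cnt, card_filter]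
    push_cast
    rw [sum_mul]
    refine sum_congr rfl fun j _ => ?_
    rw [orth_Exp2 hu.neg, ite_mul, one_mul, zero_mul]
    refine if_congr ?_ rfl rfl
    rw [← ZMod.natCast_eq_zero_iff, Nat.cast_add, neg_eq_iff_add_eq_zero]
  rw [← add_sum_erase _ _ (mem_univ (1 : DirichletCharacter ℂ q)), one_Exp2,
    MulChar.one_apply hu, MulChar.one_apply isUnit_one.neg, map_natCast] at full
  rw [sub_mul, div_mul_cancel₀ _ hφ, ← full, one_mul, one_mul, add_sub_cancel_left]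
  exact sum_congr (by ext; simp) fun _ _ => rfl

end Pool.Agent.MP_2a1f0e_nt.RF

end

section

set_option autoImplicit false
open Finset
open scoped ComplexConjugate
namespace Pool.Agent.MP_2a1f0e_nt.RF
open GM

lemma gcd_le_Geo {a Q n j J R : ℕ} (h : R = n + j) (hQ : Q ∣ R) (ha : a ∣ n) (hj : 1 ≤ j)
    (hJ : j ≤ J) : Nat.gcd a Q ≤ J := by
  have h1 : Nat.gcd a Q ∣ n := (Nat.gcd_dvd_left _ _).trans ha
  have h2 : Nat.gcd a Q ∣ n + j := h ▸ (Nat.gcd_dvd_right _ _).trans hQ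
  exact (Nat.le_of_dvd hj ((Nat.dvd_add_right h1).1 h2)).trans hJ

lemma core_Geo (N T J C C' W : ℕ) (Y : ℝ) (c Q c' x z j Q' : ℕ) (hN : 1 ≤ N) (hT : 1 ≤ T)
    (hC : 1 ≤ C) (hC' : 1 ≤ C') (hY : 1 ≤ Y)
    (hJ : (J : ℝ) * T * Y ≤ C * C' * (N : ℝ) ^ 2)
    (hc : C ≤ c) (hQ : 1 ≤ Q) (h1 : N * c ≤ W * Q) (h2 : Q ≤ W * N * c)
    (hc' : C' ≤ c') (hx : N ≤ x) (hx2 : x ≤ 2 * N) (hz : N ≤ z) (hz2 : z ≤ 2 * N)
    (hj : 1 ≤ j) (hjJ : j ≤ J) (hE : Q * Q' = c * c' * x * z + j) :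
    (1 ≤ Q' ∧ N * c' ≤ W * Q' ∧ Q' ≤ 8 * W * N * c') ∧
    ∃ θ : ℝ, 0 ≤ θ ∧ T * Y * θ ≤ 1 ∧ θ * (C * C' * (N : ℝ) ^ 2) ≤ J ∧
      Real.log Q + Real.log Q' = Real.log c + Real.log c' + Real.log x + Real.log z + θ := by
  have hc0 : 1 ≤ c := hC.trans hc
  have hc0' : 1 ≤ c' := hC'.trans hc'
  have hn : C * C' * N ^ 2 ≤ c * c' * x * z := by
    calc C * C' * N ^ 2 = C * C' * N * N := by ring
      _ ≤ _ := by gcongr
  have hn1 : c * c' * N * N ≤ c * c' * x * z := by gcongr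
  have hn2 : c * c' * x * z ≤ c * c' * (2 * N) * (2 * N) := by gcongr
  have hT' : (1 : ℝ) ≤ T := by exact_mod_cast hT
  have hJ0 : (0 : ℝ) ≤ J := Nat.cast_nonneg _
  have hTY : (1 : ℝ) ≤ T * Y := one_le_mul_of_one_le_of_one_le hT' hY
  have hJn : J ≤ C * C' * N ^ 2 := by
    have : (J : ℝ) ≤ C * C' * (N : ℝ) ^ 2 := by
      calc (J : ℝ) = J * 1 := by ring
        _ ≤ J * (T * Y) := mul_le_mul_of_nonneg_left hTY hJ0
        _ = J * T * Y := by ring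
        _ ≤ _ := hJ
    exact_mod_cast this
  have hjn : j ≤ c * c' * x * z := hjJ.trans (hJn.trans hn)
  have hQ' : 1 ≤ Q' := by
    rcases Nat.eq_zero_or_pos Q' with h | h
    · rw [h] at hE
      omega
    · exact h
  have hNc : 0 < N * c := Nat.mul_pos hN hc0
  refine ⟨⟨hQ', ?_, ?_⟩, ?_⟩
  · refine Nat.le_of_mul_le_mul_left ?_ hNc
    calc N * c * (N * c') = c * c' * N * N := by ring
      _ ≤ Q * Q' := by omega
      _ ≤ W * N * c * Q' := by gcongr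
      _ = N * c * (W * Q') := by ring
  · refine Nat.le_of_mul_le_mul_left ?_ hNc
    calc N * c * Q' ≤ W * Q * Q' := by gcongr
      _ = W * (Q * Q') := by ring
      _ ≤ W * (2 * (c * c' * (2 * N) * (2 * N))) := Nat.mul_le_mul_left _ (by omega)
      _ = N * c * (8 * W * N * c') := by ring
  · have hx0 : (0 : ℝ) < x := by exact_mod_cast hN.trans hx
    have hz0 : (0 : ℝ) < z := by exact_mod_cast hN.trans hz
    have hcr : (0 : ℝ) < c := by exact_mod_cast hc0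
    have hcr' : (0 : ℝ) < c' := by exact_mod_cast hc0'
    have hQr : (0 : ℝ) < Q := by exact_mod_cast hQ
    have hQr' : (0 : ℝ) < Q' := by exact_mod_cast hQ'
    have hjr : (0 : ℝ) ≤ j := Nat.cast_nonneg _
    have hjJr : (j : ℝ) ≤ J := by exact_mod_cast hjJ
    have hEr : (Q : ℝ) * Q' = c * c' * x * z + j := by exact_mod_cast hE
    have hnr : (C : ℝ) * C' * (N : ℝ) ^ 2 ≤ c * c' * x * z := by exact_mod_cast hn
    set n : ℝ := (c : ℝ) * c' * x * z with hndef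
    have hn0 : 0 < n := by positivity
    have hpos : 0 < 1 + j / n := by positivity
    have hθ0 : 0 ≤ Real.log (1 + j / n) := Real.log_nonneg (by
      have : 0 ≤ j / n := by positivity
      linarith)
    have hθ1 : Real.log (1 + j / n) ≤ j / n := by
      have := Real.log_le_sub_one_of_pos hpos
      linarith
    have hθn : Real.log (1 + j / n) * n ≤ J := by
      have := (le_div_iff₀ hn0).1 hθ1
      linarith
    refine ⟨Real.log (1 + j / n), hθ0, ?_, ?_, ?_⟩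
    · refine le_of_mul_le_mul_right ?_ hn0
      calc T * Y * Real.log (1 + j / n) * n = T * Y * (Real.log (1 + j / n) * n) := by ring
        _ ≤ T * Y * J := mul_le_mul_of_nonneg_left hθn (by linarith)
        _ = J * T * Y := by ring
        _ ≤ 1 * n := by linarith
    · exact (mul_le_mul_of_nonneg_left hnr hθ0).trans hθn
    · have e1 : Real.log n = Real.log c + Real.log c' + Real.log x + Real.log z := by
        rw [hndef, Real.log_mul (by positivity) hz0.ne', Real.log_mul (by positivity) hx0.ne',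
          Real.log_mul hcr.ne' hcr'.ne']
      rw [← e1, ← Real.log_mul hQr.ne' hQr'.ne', ← Real.log_mul hn0.ne' hpos.ne', hEr]
      congr 1
      field_simp

lemma pt_eq_Geo {c Q x : ℕ} (hc : 1 ≤ c) (hQ : 1 ≤ Q) (hx : 1 ≤ x) :
    pt (c, Q) x = Real.log c + Real.log x - Real.log Q := by
  have hcr : (0 : ℝ) < c := by exact_mod_cast hc
  have hQr : (0 : ℝ) < Q := by exact_mod_cast hQ
  have hxr : (0 : ℝ) < x := by exact_mod_cast hx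
  unfold pt
  push_cast
  rw [Real.log_div (by positivity) hQr.ne', Real.log_mul hcr.ne' hxr.ne']

lemma yv_eq_Geo {c Q : ℕ} (hc : 1 ≤ c) (hQ : 1 ≤ Q) :
    Real.log (yv (c, Q)) = Real.log Q - Real.log c := by
  have hcr : (0 : ℝ) < c := by exact_mod_cast hc
  have hQr : (0 : ℝ) < Q := by exact_mod_cast hQ
  unfold yv
  exact Real.log_div hQr.ne' hcr.ne'

theorem geo_stmt : GeoStmt := by
  rintro N T J C C' W Y ⟨⟨c, Q⟩, c', x, z, j⟩ hN hT hC hC' hW hY hJ he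
  rw [mem_Edg, mem_Win] at he
  simp only [ED.p, ED.c, ED.x, ED.z, ED.j, ED.r] at he ⊢
  obtain ⟨⟨⟨⟨⟨hc, -⟩, hQ, -⟩, h1, h2⟩, ⟨hc', hc2'⟩, ⟨hx, hx2⟩, ⟨hz, hz2⟩, hj, hjJ⟩, hd⟩ := he
  have hE : Q * ((c * c' * x * z + j) / Q) = c * c' * x * z + j := Nat.mul_div_cancel' hd
  generalize (c * c' * x * z + j) / Q = Q' at hE ⊢
  obtain ⟨⟨hQ', h3, h4⟩, θ, t0, t1, t2, t3⟩ := core_Geo N T J C C' W Y c Q c' x z j Q' hN hT hC hC'
    hY hJ hc hQ h1 h2 hc' hx hx2 hz hz2 hj hjJ hE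
  have hc0 : 1 ≤ c := hC.trans hc
  have hc0' : 1 ≤ c' := hC'.trans hc'
  have hx0 : 1 ≤ x := hN.trans hx
  have hz0 : 1 ≤ z := hN.trans hz
  refine ⟨?_, ?_, ?_, ?_, ?_, hE, θ, t0, t1, t2, ?_, ?_, ?_⟩
  · rw [mem_Win]
    refine ⟨⟨⟨hc', hc2'⟩, hQ', ?_⟩, ?_, h4⟩
    · calc Q' ≤ 8 * W * N * c' := h4
        _ ≤ 8 * W * N * (2 * C') := Nat.mul_le_mul_left _ hc2'.le
        _ = 2 * (8 * W) * N * C' := by ring
    · calc N * c' ≤ W * Q' := h3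
        _ ≤ 8 * W * Q' := Nat.mul_le_mul_right _ (by omega)
  · exact gcd_le_Geo hE (Dvd.intro _ rfl) ⟨c' * z, by ring⟩ hj hjJ
  · exact gcd_le_Geo hE (Dvd.intro _ rfl) ⟨c' * x, by ring⟩ hj hjJ
  · exact gcd_le_Geo hE (Dvd.intro_left _ rfl) ⟨c * z, by ring⟩ hj hjJ
  · exact gcd_le_Geo hE (Dvd.intro_left _ rfl) ⟨c * x, by ring⟩ hj hjJ
  · rw [pt_eq_Geo hc0' hQ' hz0, pt_eq_Geo hc0 hQ hx0]
    linarith
  · rw [pt_eq_Geo hc0' hQ' hx0, pt_eq_Geo hc0 hQ hz0]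
    linarith
  · rw [yv_eq_Geo hc0 hQ, yv_eq_Geo hc0' hQ']
    linarith

end Pool.Agent.MP_2a1f0e_nt.RF

end

section

set_option autoImplicit false

open Finset
open scoped ComplexConjugate

namespace Pool.Agent.MP_2a1f0e_nt.RF

open GM

lemma step_Om (P : ℕ) (f : ℤ → ℝ) (h0 : ∀ x, 0 ≤ f x) (h1 : ∀ x, f x ≤ 1) (n : ℤ) :
    |∑ a ∈ range P ×ˢ range P, f ((a.1 : ℤ) + a.2 - (n + 1)) -
      ∑ a ∈ range P ×ˢ range P, f ((a.1 : ℤ) + a.2 - n)| ≤ P := by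
  rw [abs_sub_comm, ← sum_sub_distrib, sum_product]
  refine (abs_sum_le_sum_abs _ _).trans ?_
  have h2 := sum_le_card_nsmul (range P) (fun i : ℕ => |∑ j ∈ range P,
    (f ((i : ℤ) + (j : ℕ) - n) - f ((i : ℤ) + (j : ℕ) - (n + 1)))|) 1 fun i _ => by
      have h3 := sum_range_sub (fun j : ℕ => f ((i : ℤ) + j - (n + 1))) P
      rw [sum_congr rfl (g := fun j : ℕ => f ((i : ℤ) + (j + 1 : ℕ) - (n + 1)) -
        f ((i : ℤ) + j - (n + 1))) fun j _ => by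
          rw [show (i : ℤ) + (j + 1 : ℕ) - (n + 1) = i + j - n by push_cast; ring], h3, abs_le]
      constructor <;> linarith [h0 ((i : ℤ) + P - (n + 1)), h1 ((i : ℤ) + P - (n + 1)),
        h0 ((i : ℤ) + (0 : ℕ) - (n + 1)), h1 ((i : ℤ) + (0 : ℕ) - (n + 1))]
  simpa using h2

lemma lip_Om (F : ℤ → ℝ) (c : ℝ) (h : ∀ n, |F (n + 1) - F n| ≤ c) (n n' : ℤ) :
    |F n - F n'| ≤ |((n - n' : ℤ) : ℝ)| * c := by
  have h1 : ∀ (m : ℤ) (k : ℕ), |F (m + k) - F m| ≤ k * c := by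
    intro m k
    induction k with
    | zero => simp
    | succ k ih =>
      have h2 := h (m + k)
      have h3 := abs_sub_le (F (m + k + 1)) (F (m + k)) (F m)
      push_cast
      rw [← add_assoc]
      linarith
  rcases le_total n' n with h2 | h2
  · obtain ⟨k, rfl⟩ := Int.le.dest h2
    simpa using h1 n' k
  · obtain ⟨k, rfl⟩ := Int.le.dest h2
    rw [abs_sub_comm]
    simpa using h1 n k

theorem om_stmt : OmStmt := by
  intro N P K hP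
  have hP0 : (0 : ℝ) < P := by exact_mod_cast hP
  have hc : ((range P ×ˢ range P).card : ℝ) = (P : ℝ) ^ 2 := by
    rw [card_product, card_range, sq, Nat.cast_mul]
  refine ⟨fun n => ⟨by unfold Om; positivity, ?_⟩, fun n h1 h2 => ?_, fun n h => ?_,
    fun n n' => ?_, fun Λ a a' n h1 h2 => ?_⟩
  · unfold Om
    rw [div_le_one (by positivity), ← hc]
    exact_mod_cast card_filter_le _ _
  · unfold Om
    rw [filter_true_of_mem, hc, div_self (by positivity)]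
    intro a ha
    simp only [mem_product, mem_range] at ha
    unfold BB
    rw [mem_Icc]
    omega
  · unfold Om at h
    have h1 := (div_ne_zero_iff.1 h).1
    rw [Nat.cast_ne_zero, card_ne_zero] at h1
    obtain ⟨a, ha⟩ := h1
    unfold BB at ha
    simp only [mem_filter, mem_product, mem_range, mem_Icc] at ha
    omega
  · refine (lip_Om (Om N P K) (1 / P) (fun m => ?_) n n').trans ?_
    · have h1 := step_Om P (fun x => if x ∈ BB N P K then 1 else 0)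
        (fun x => by split_ifs <;> norm_num) (fun x => by split_ifs <;> norm_num) m
      simp only [sum_boole] at h1
      unfold Om
      rw [← sub_div, abs_div, abs_of_pos (show (0 : ℝ) < (P : ℝ) ^ 2 by positivity),
        div_le_div_iff₀ (by positivity) hP0]
      have := mul_le_mul_of_nonneg_right h1 hP0.le
      linarith
    · rw [mul_one_div]
      exact div_le_div_of_nonneg_right (by linarith [abs_nonneg ((n - n' : ℤ) : ℝ)]) hP0.le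
  · unfold Om
    rw [← sum_product' (f := fun i i' : ℤ => if (i ≤ a ∧ a < i + P) ∧ (i' ≤ a' ∧ a' < i' + P) ∧
      n - i - i' ∈ BB N P K then (1 : ℝ) else 0), sum_boole]
    refine congrArg (fun k : ℕ => (k : ℝ) / (P : ℝ) ^ 2) ?_
    refine card_bij (fun x _ => (a - x.1, a' - x.2)) (fun x hx => ?_) (fun x _ y _ e => ?_)
      fun y hy => ?_
    · simp only [mem_filter, mem_product, mem_range] at hx ⊢
      refine ⟨⟨h1 (mem_Icc.2 (by omega)), h2 (mem_Icc.2 (by omega))⟩, by omega, by omega, ?_⟩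
      rw [show n - (a - x.1) - (a' - x.2) = x.1 + x.2 - (a + a' - n) by ring]
      exact hx.2
    · simp only [Prod.mk.injEq] at e
      exact Prod.ext (by omega) (by omega)
    · simp only [mem_filter, mem_product] at hy
      obtain ⟨-, b1, b2, b3⟩ := hy
      have e1 : ((a - y.1).toNat : ℤ) = a - y.1 := Int.toNat_of_nonneg (by omega)
      have e2 : ((a' - y.2).toNat : ℤ) = a' - y.2 := Int.toNat_of_nonneg (by omega)
      refine ⟨((a - y.1).toNat, (a' - y.2).toNat), ?_, Prod.ext (by simp only; omega)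
        (by simp only; omega)⟩
      simp only [mem_filter, mem_product, mem_range]
      refine ⟨⟨by omega, by omega⟩, ?_⟩
      rw [e1, e2, show a - y.1 + (a' - y.2) - (a + a' - n) = n - y.1 - y.2 by ring]
      exact b3

end Pool.Agent.MP_2a1f0e_nt.RF

end

section

set_option autoImplicit false

open Finset
open scoped ComplexConjugate

namespace Pool.Agent.MP_2a1f0e_nt.RF

open GM

lemma floor_Edge {a b c d t : ℝ} (h : a + b = c + d + t) (t0 : 0 ≤ t) (t3 : t ≤ 3) :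
    |((⌊a⌋ - (⌊c⌋ + ⌊d⌋ - ⌊b⌋) : ℤ) : ℝ)| ≤ 5 := by
  have a1 := Int.floor_le a
  have a2 := Int.lt_floor_add_one a
  have b1 := Int.floor_le b
  have b2 := Int.lt_floor_add_one b
  have c1 := Int.floor_le c
  have c2 := Int.lt_floor_add_one c
  have d1 := Int.floor_le d
  have d2 := Int.lt_floor_add_one d
  push_cast
  rw [abs_le]
  constructor <;> linarith

lemma split_Edge {o₁ o₂ δ : ℝ} (A A' : ℂ) (h : |o₁ - o₂| ≤ δ) (h0 : 0 ≤ o₂) (h1 : o₂ ≤ 1) :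
    ‖(o₁ : ℂ) * A - o₂ * A'‖ ≤ δ * ‖A‖ + ‖A - A'‖ := by
  rw [show (o₁ : ℂ) * A - o₂ * A' = ((o₁ - o₂ : ℝ) : ℂ) * A + o₂ * (A - A') by push_cast; ring]
  refine (norm_add_le _ _).trans (add_le_add ?_ ?_)
  · rw [norm_mul, Complex.norm_real, Real.norm_eq_abs]
    exact mul_le_mul_of_nonneg_right h (norm_nonneg _)
  · rw [norm_mul, Complex.norm_real, Real.norm_of_nonneg h0]
    exact mul_le_of_le_one_left (norm_nonneg _) h1

theorem edge_stmt (hB : BijStmt) (hR : ReflStmt) (hO : OmStmt) (hG : GeoStmt) : EdgeStmt := by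
  obtain ⟨c, hc, hR⟩ := hR
  refine ⟨11 * c, by positivity, fun N T J C C' K P E Y MM g b hp hg P2 YP PY hb => ?_⟩
  have T1 : 1 ≤ T := hp.N1.trans hp.NT
  have K1 := hp.K1
  have Y0 : 0 < Y := by linarith [hp.Y1]
  obtain ⟨e1, e2⟩ := hB N T J C C' K P Y g b hp.N1 T1 hp.C1 hp.C1' K1 hp.Y1 P2 hp.JU
  obtain ⟨r1, r2⟩ := hR N T J C C' K (25 * K) E Y MM g b hp hg (by omega) (by omega) hb
  obtain ⟨o1, -, -, o4, -⟩ := hO N P K (by omega)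
  rw [e1, e2, ← sum_sub_distrib]
  refine (norm_sum_le _ _).trans ((sum_le_sum (g := fun e : ED =>
    10 / Y * ‖av T g b e.p e.x * conj (av T g b e.p e.z)‖ +
      ‖av T g b e.p e.x * conj (av T g b e.p e.z) - av T g b e.r e.x * conj (av T g b e.r e.z)‖)
    fun e he => split_Edge _ _ ?_ (o1 _).1 (o1 _).2).trans ?_)
  · obtain ⟨-, -, -, -, -, -, θ, t0, t1, -, -, -, t2⟩ :=
      hG N T J C C' (25 * K) Y e hp.N1 T1 hp.C1 hp.C1' (by omega) hp.Y1 hp.JU he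
    have T1' : (1 : ℝ) ≤ T := by exact_mod_cast T1
    have t3 : P * θ ≤ 3 := by
      have h1 := mul_le_mul_of_nonneg_right PY t0
      have h2 := mul_le_mul_of_nonneg_right T1' (mul_nonneg Y0.le t0)
      nlinarith
    have k := floor_Edge (a := P * Real.log (yv e.p)) (b := P * Real.log (yv e.r))
      (c := P * Real.log e.x) (d := P * Real.log e.z) (t := P * θ)
      (by rw [← mul_add, t2]; ring) (by positivity) t3
    refine (o4 _ _).trans ?_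
    exact div_le_div₀ (by norm_num) (by unfold uu; linarith) Y0 YP
  · rw [sum_add_distrib, ← mul_sum]
    have := mul_le_mul_of_nonneg_left r2 (by positivity : 0 ≤ 10 / Y)
    have e : 10 / Y * (c * E ^ 16 * (Y * Err N J C C' Y MM)) =
        10 * (c * E ^ 16 * Err N J C C' Y MM) := by field_simp
    linarith

end Pool.Agent.MP_2a1f0e_nt.RF

end

section

set_option autoImplicit false

open Finset
open scoped ComplexConjugate

namespace Pool.Agent.MP_2a1f0e_nt.RF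

open GM

theorem uu_mono_SY (P : ℕ) {x y : ℝ} (hx : 0 < x) (h : x ≤ y) : uu P x ≤ uu P y :=
  Int.floor_le_floor (mul_le_mul_of_nonneg_left (Real.log_le_log hx h) (Nat.cast_nonneg _))

theorem yv_SY {N C K : ℕ} (hC : 1 ≤ C) (hK : 1 ≤ K) {p : ℕ × ℕ} (hp : p ∈ Win N C K) :
    (N : ℝ) / K ≤ yv p ∧ yv p ≤ (K : ℝ) * N := by
  obtain ⟨⟨⟨h1, -⟩, -⟩, h2, h3⟩ := mem_Win.1 hp
  have c0 : (0 : ℝ) < p.1 := by exact_mod_cast hC.trans h1
  have k0 : (0 : ℝ) < K := by exact_mod_cast hK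
  unfold yv
  rw [div_le_div_iff₀ k0 c0, div_le_iff₀ c0, mul_comm (p.2 : ℝ)]
  exact ⟨by exact_mod_cast h2, by exact_mod_cast h3⟩

theorem sy_stmt (hS : SideStmt) (hP : PeakStmt) (hO : OmStmt) : SYStmt := by
  obtain ⟨cS, cS0, hS⟩ := hS
  obtain ⟨cP, cP0, hP⟩ := hP
  refine ⟨cS + cP, by positivity, ?_⟩
  intro N T J C C' K P E Y MM g b hp hg hP2 hb
  have K1 := hp.K1
  have Y0 : 0 < Y := one_pos.trans_le hp.Y1
  have E1 := hp.E1
  have R0 : 0 ≤ Err N J C C' Y MM := Err_nonneg Y0.le hg.MM0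
  have N0 : (0 : ℝ) < N := by exact_mod_cast hp.N1
  have K0 : (1 : ℝ) ≤ K := by exact_mod_cast K1
  obtain ⟨o1, o2, -⟩ := hO N P K (by omega)
  have s1 := hS N T J C C' K (25 * K) E Y MM g b b hp hg (by omega) (by omega) hb hb
  have s2 := hP N T J C C' K K E Y MM g b hp hg K1 (by omega) hb
  let m : ℕ × ℕ → ℝ := fun p => (J : ℝ) * C' / p.2 * ‖uO N T J g b p‖ ^ 2
  have m0 : ∀ p, 0 ≤ m p := fun p => by positivity
  have em : ∀ p : ℕ × ℕ, (((J : ℝ) * C' / p.2 : ℝ) : ℂ) *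
      (uO N T J g b p * conj (uO N T J g b p)) = (m p : ℂ) := fun p => by
    rw [Complex.mul_conj, Complex.normSq_eq_norm_sq, ← Complex.ofReal_mul]
  simp only [em] at s1
  have a1 : ∑ p ∈ Win N C (25 * K), Om N P K (uu P (yv p)) * m p ≤
      ‖SY N T J C C' K P g b‖ + cS * E ^ 16 * Err N J C C' Y MM := by
    have e : ((∑ p ∈ Win N C (25 * K), Om N P K (uu P (yv p)) * m p : ℝ) : ℂ) =
        SY N T J C C' K P g b - ∑ p ∈ Win N C (25 * K),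
          (Om N P K (uu P (yv p)) : ℂ) * (Bp N T J C' g b b p - m p) := by
      rw [SY, ← sum_sub_distrib]
      push_cast
      exact sum_congr rfl fun p _ => by ring
    refine (le_abs_self _).trans ?_
    rw [← Real.norm_eq_abs, ← Complex.norm_real, e]
    refine (norm_sub_le _ _).trans (add_le_add le_rfl
      ((norm_sum_le _ _).trans ((sum_le_sum fun p _ => ?_).trans s1)))
    rw [norm_mul, Complex.norm_real, Real.norm_of_nonneg (o1 _).1]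
    exact mul_le_of_le_one_left (norm_nonneg _) (o1 _).2
  have a2 : ∑ p ∈ Win N C K, m p ≤ ∑ p ∈ Win N C (25 * K), Om N P K (uu P (yv p)) * m p := by
    refine le_trans (le_of_eq (sum_congr rfl fun p h => ?_)) (sum_le_sum_of_subset_of_nonneg
      (Win_mono (by omega)) fun p _ _ => mul_nonneg (o1 _).1 (m0 p))
    obtain ⟨h1, h2⟩ := yv_SY hp.C1 K1 h
    have h0 : (0 : ℝ) < N / K := by positivity
    rw [o2 _ (uu_mono_SY P h0 h1) (uu_mono_SY P (h0.trans_le h1) h2), one_mul]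
  have a3 : (J : ℝ) * C' * ∑ p ∈ Win N C K, ‖uO N T J g b p‖ ^ 2 ≤
      2 * K * N * C * ∑ p ∈ Win N C K, m p := by
    rw [mul_sum, mul_sum]
    refine sum_le_sum fun p h => ?_
    obtain ⟨⟨-, h1, h2⟩, -⟩ := mem_Win.1 h
    have q0 : (0 : ℝ) < p.2 := by exact_mod_cast h1
    have q1 : (p.2 : ℝ) ≤ 2 * K * N * C := by exact_mod_cast h2
    calc _ = p.2 * m p := by simp only [m]; field_simp
      _ ≤ _ := mul_le_mul_of_nonneg_right q1 (m0 p)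
  have a4 : ∑ p ∈ Win N C K, ‖uP N T g b p‖ ^ 2 ≤
      2 * ∑ p ∈ Win N C K, ‖uO N T J g b p‖ ^ 2 + 2 * ∑ p ∈ Win N C K, ‖uK N T J g b p‖ ^ 2 := by
    rw [mul_sum, mul_sum, ← sum_add_distrib]
    refine sum_le_sum fun p _ => ?_
    rw [uP_eq N T J]
    have h1 := pow_le_pow_left₀ (norm_nonneg _) (norm_add_le (uO N T J g b p) (uK N T J g b p)) 2
    nlinarith [sq_nonneg (‖uO N T J g b p‖ - ‖uK N T J g b p‖)]
  have a5 : (J : ℝ) * C' * (cP * E ^ 8 * ((N : ℝ) ^ 3 * (C : ℝ) ^ 2 * MM / Y)) ≤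
      2 * K * N * C * (cP * E ^ 16 * Err N J C C' Y MM) := by
    have h1 : E ^ 8 ≤ 2 * K * E ^ 16 :=
      (pow_le_pow_right₀ E1 (by norm_num)).trans
        (le_mul_of_one_le_left (by positivity) (by linarith))
    calc _ = E ^ 8 * (N * C * cP * Err N J C C' Y MM) := by unfold Err; ring
      _ ≤ 2 * K * E ^ 16 * (N * C * cP * Err N J C C' Y MM) :=
          mul_le_mul_of_nonneg_right h1 (by positivity)
      _ = _ := by ring
  have j0 : (0 : ℝ) ≤ J * C' := by positivity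
  have b1 := mul_le_mul_of_nonneg_left a4 j0
  have b2 := mul_le_mul_of_nonneg_left s2 j0
  have b3 := mul_le_mul_of_nonneg_left (a2.trans a1) (show (0 : ℝ) ≤ 2 * K * N * C by positivity)
  linarith

end Pool.Agent.MP_2a1f0e_nt.RF

end

section

set_option autoImplicit false
open Finset
open scoped ComplexConjugate
namespace Pool.Agent.MP_2a1f0e_nt.RF
open GM

theorem gcd_le_Side {J Q a w : ℕ} (h : cnt J Q (a * w) ≠ 0) : Nat.gcd a Q ≤ J := by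
  obtain ⟨j, hj⟩ := card_ne_zero.1 h
  obtain ⟨h1, h2⟩ := mem_filter.1 hj
  obtain ⟨h3, h4⟩ := mem_Icc.1 h1
  refine (Nat.le_of_dvd h3 ?_).trans h4
  exact (Nat.dvd_add_right ((Nat.gcd_dvd_left a Q).mul_right w)).1
    ((Nat.gcd_dvd_right a Q).trans h2)

theorem eq_bil_Side (N T J C' : ℕ) (g : ℤ → ℝ) (b b' : ℕ → ℂ) (p : ℕ × ℕ) :
    Bp N T J C' g b b' p -
        (((J : ℝ) * C' / p.2 : ℝ) : ℂ) * (uO N T J g b p * conj (uO N T J g b' p)) =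
      Bil N J C' p (aO T J g b p) (aO T J g b' p) := by
  have h1 : Bp N T J C' g b b' p = ∑ c' ∈ Ico C' (2 * C'), ∑ x ∈ Icc N (2 * N),
      ∑ z ∈ Icc N (2 * N),
        (cnt J p.2 (p.1 * c' * x * z) : ℂ) * (aO T J g b p x * conj (aO T J g b' p z)) := by
    refine sum_congr rfl fun c' _ => sum_congr rfl fun x _ => sum_congr rfl fun z _ => ?_
    by_cases h : cnt J p.2 (p.1 * c' * x * z) = 0
    · rw [h, Nat.cast_zero, zero_mul, zero_mul]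
    · have hx : gx p x ≤ J := gcd_le_Side (w := c' * z) (by
        rwa [show p.1 * x * (c' * z) = p.1 * c' * x * z by ring])
      have hz : gx p z ≤ J := gcd_le_Side (w := c' * x) (by
        rwa [show p.1 * z * (c' * x) = p.1 * c' * x * z by ring])
      rw [aO, aO, if_pos hx, if_pos hz]
  have h2 : (((J : ℝ) * C' / p.2 : ℝ) : ℂ) * (uO N T J g b p * conj (uO N T J g b' p)) =
      ∑ c' ∈ Ico C' (2 * C'), ∑ x ∈ Icc N (2 * N), ∑ z ∈ Icc N (2 * N),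
        (((J : ℝ) / p.2 : ℝ) : ℂ) * (aO T J g b p x * conj (aO T J g b' p z)) := by
    rw [sum_const, Nat.card_Ico, show 2 * C' - C' = C' by omega, uO, uO, map_sum, sum_mul_sum,
      nsmul_eq_mul]
    simp only [← mul_sum]
    push_cast
    ring
  rw [h1, h2, Bil, ← sum_sub_distrib]
  refine sum_congr rfl fun c' _ => ?_
  rw [← sum_sub_distrib]
  refine sum_congr rfl fun x _ => ?_
  rw [← sum_sub_distrib]
  refine sum_congr rfl fun z _ => ?_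
  push_cast
  ring

theorem split_Side (N T J C' : ℕ) (g : ℤ → ℝ) (U : ℝ) (b b' : ℕ → ℂ) (p : ℕ × ℕ) :
    Bil N J C' p (aO T J g b p) (aO T J g b' p) =
      Bil N J C' p (aS T J g U b p) (aS T J g U b' p) +
        Bil N J C' p (aB T J g U b p) (aO T J g b' p) +
        Bil N J C' p (aS T J g U b p) (aB T J g U b' p) := by
  simp only [Bil, ← sum_add_distrib]
  refine sum_congr rfl fun c' _ => sum_congr rfl fun x _ => sum_congr rfl fun z _ => ?_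
  rw [aO_eq T J g U b, aO_eq T J g U b', map_add]
  ring

theorem av_le_Side {T : ℕ} {g : ℤ → ℝ} {b : ℕ → ℂ} (hb : ∀ n, ‖b n‖ ≤ 1) (p : ℕ × ℕ) (x : ℕ) :
    ‖av T g b p x‖ ≤ ‖av T g (fun _ => 1) p x‖ :=
  (norm_av_le hb p x).trans (by rw [av, one_mul])

theorem side_stmt (hA : SideAStmt) (hB : SideBStmt) : SideStmt := by
  obtain ⟨cA, hcA, hA⟩ := hA
  obtain ⟨cB, hcB, hB⟩ := hB
  refine ⟨cA + cB + cB, by positivity, fun N T J C C' K W E Y MM g b b' hp hg hW hW' hb hb' => ?_⟩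
  have hB1 : ∀ {b : ℕ → ℂ}, (∀ n, ‖b n‖ ≤ 1) → ∀ p x, ‖aB T J g (E * (N : ℝ) ^ 2) b p x‖ ≤
      ‖aB T J g (E * (N : ℝ) ^ 2) (fun _ => 1) p x‖ := fun hb p x => by
    unfold aB
    split_ifs
    · exact av_le_Side hb p x
    · exact le_rfl
  have hO : ∀ p x, ‖aO T J g b' p x‖ ≤ ‖aO T J g (fun _ => 1) p x‖ := fun p x => by
    unfold aO
    split_ifs
    · exact av_le_Side hb' p x
    · exact le_rfl
  have hS : ∀ p x, ‖aS T J g (E * (N : ℝ) ^ 2) b p x‖ ≤ ‖aO T J g (fun _ => 1) p x‖ :=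
    fun p x => by
      unfold aS aO
      by_cases h : gx p x ≤ J ∧ ‖fu T g (pt p x)‖ ≤ E * (N : ℝ) ^ 2
      · rw [if_pos h, if_pos h.1]
        exact av_le_Side hb p x
      · rw [if_neg h, norm_zero]
        exact norm_nonneg _
  have h1 := hA N T J C C' K W E Y MM g b b' hp hg hW hW' hb hb'
  have h2 := (hB N T J C C' K W E Y MM g _ _ hp hg hW hW' (hB1 hb) hO).1
  have h3 := (hB N T J C C' K W E Y MM g _ _ hp hg hW hW' (hB1 hb') hS).2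
  refine (sum_le_sum fun p _ => ?_).trans
    ((sum_add_distrib.trans (congrArg (· + _) sum_add_distrib)).le.trans
      ((add_le_add (add_le_add h1 h2) h3).trans (le_of_eq (by ring))))
  rw [eq_bil_Side, split_Side N T J C' g (E * (N : ℝ) ^ 2)]
  exact norm_add₃_le

end Pool.Agent.MP_2a1f0e_nt.RF

end

section

set_option autoImplicit false

open Finset
open scoped ComplexConjugate

namespace Pool.Agent.MP_2a1f0e_nt.RF

open GM

theorem cm_Mult {ι : Type} (s : Finset ι) (u : ι → ℝ) (T : ℕ) (hT : 1 ≤ T) (a R m B : ℝ)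
    (hm : 0 ≤ m) (hR : 0 ≤ R) (hu : ∀ i ∈ s, a ≤ u i ∧ u i ≤ a + R)
    (h : ∀ (l : ℝ) (s' : Finset ι), s' ⊆ s → (∀ i ∈ s', l ≤ u i ∧ u i ≤ l + 1 / T) →
      (s'.card : ℝ) ≤ m) (hB : (R + 1) / (2 * Real.pi) + 1 ≤ B) : CM s u T (B * m) := by
  classical
  intro l s' hs hk
  have hT' : (1 : ℝ) ≤ T := by exact_mod_cast hT
  have hw1 : (1 : ℝ) / T ≤ 1 := by rw [div_le_one (by positivity)]; exact hT'
  have hpi : 0 < 2 * Real.pi := by positivity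
  have hsub : s' ⊆ (Icc ⌈(a - l - 1) / (2 * Real.pi)⌉ ⌊(a + R - l) / (2 * Real.pi)⌋).biUnion
      fun k : ℤ => s'.filter fun i =>
        l + 2 * Real.pi * k ≤ u i ∧ u i ≤ l + 2 * Real.pi * k + 1 / T := by
    intro i hi
    obtain ⟨k, k1, k2⟩ := hk i hi
    obtain ⟨u1, u2⟩ := hu i (hs hi)
    refine mem_biUnion.2 ⟨k, mem_Icc.2 ⟨Int.ceil_le.2 ?_, Int.le_floor.2 ?_⟩,
      mem_filter.2 ⟨hi, by linarith, by linarith⟩⟩
    · rw [div_le_iff₀ hpi]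
      linarith
    · rw [le_div_iff₀ hpi]
      linarith
  have h1 := (Nat.cast_le (α := ℝ)).2 ((card_le_card hsub).trans card_biUnion_le)
  push_cast at h1
  refine h1.trans ((sum_le_card_nsmul _ _ m fun (k : ℤ) _ =>
    h (l + 2 * Real.pi * k) _ ((filter_subset _ _).trans hs) fun i hi =>
      (mem_filter.1 hi).2).trans ?_)
  rw [nsmul_eq_mul]
  refine mul_le_mul_of_nonneg_right (le_trans ?_ hB) hm
  have e : (R + 1) / (2 * Real.pi) =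
      (a + R - l) / (2 * Real.pi) - (a - l - 1) / (2 * Real.pi) := by ring
  have h0 : 0 ≤ (R + 1) / (2 * Real.pi) := by positivity
  have h2 := Int.le_ceil ((a - l - 1) / (2 * Real.pi))
  have h3 := Int.floor_le ((a + R - l) / (2 * Real.pi))
  rw [Int.card_Icc]
  rcases le_total 0 (⌊(a + R - l) / (2 * Real.pi)⌋ + 1 - ⌈(a - l - 1) / (2 * Real.pi)⌉) with h4 | h4
  · rw [← Int.cast_natCast, Int.toNat_of_nonneg h4]
    push_cast
    linarith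
  · rw [Int.toNat_eq_zero.2 h4]
    push_cast
    linarith

theorem pt_Mult {N C K : ℕ} (hN : 1 ≤ N) (hC : 1 ≤ C) (hK : 1 ≤ K) {e : (ℕ × ℕ) × ℕ}
    (he : e ∈ Fam N C K) : -(K : ℝ) ≤ pt e.1 e.2 ∧ pt e.1 e.2 ≤ -(K : ℝ) + 3 * K := by
  rw [mem_Fam, mem_Win] at he
  obtain ⟨⟨⟨⟨h1, -⟩, h2, -⟩, h3, h4⟩, h5, h6⟩ := he
  have a1 : e.1.2 ≤ e.1.1 * e.2 * K := h4.trans (by
    rw [show K * N * e.1.1 = e.1.1 * N * K by ring]
    gcongr)
  have a2 : e.1.1 * e.2 ≤ 2 * K * e.1.2 := by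
    calc e.1.1 * e.2 ≤ e.1.1 * (2 * N) := by gcongr
      _ = 2 * (N * e.1.1) := by ring
      _ ≤ 2 * (K * e.1.2) := by gcongr
      _ = _ := by ring
  have a3 : 0 < e.1.1 * e.2 := Nat.mul_pos (by omega) (by omega)
  have b1 : (e.1.2 : ℝ) ≤ ((e.1.1 * e.2 : ℕ) : ℝ) * K := by exact_mod_cast a1
  have b2 : ((e.1.1 * e.2 : ℕ) : ℝ) ≤ 2 * K * e.1.2 := by exact_mod_cast a2
  have b3 : (0 : ℝ) < ((e.1.1 * e.2 : ℕ) : ℝ) := by exact_mod_cast a3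
  have b4 : (0 : ℝ) < e.1.2 := by exact_mod_cast h2
  unfold pt
  constructor
  · have c1 := Real.log_le_sub_one_of_pos (div_pos b4 b3)
    have c2 := (div_le_iff₀' b3).2 b1
    rw [← inv_div, Real.log_inv] at c1
    rw [← inv_div] at c2
    linarith
  · have c1 := Real.log_le_sub_one_of_pos (div_pos b3 b4)
    have c2 := (div_le_iff₀ b4).2 b2
    linarith

theorem mult_stmt (hM : MultEqStmt) : MultStmt := by
  intro N C K Δ hN hC hK hΔ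
  have hΔ0 : 0 ≤ Δ := zero_le_one.trans hΔ.1
  have hK' : (1 : ℝ) ≤ K := by exact_mod_cast hK
  have hB : (3 * (K : ℝ) + 1) / (2 * Real.pi) + 1 ≤ 3 * K := by
    have : (3 * (K : ℝ) + 1) / (2 * Real.pi) ≤ (3 * (K : ℝ) + 1) / 6 :=
      div_le_div_of_nonneg_left (by positivity) (by norm_num) (by linarith [Real.pi_gt_three])
    linarith
  have h1 : ∀ (G : ℕ) (w l : ℝ), 0 ≤ w → w ≤ 1 → ∀ s : Finset ((ℕ × ℕ) × ℕ), s ⊆ Fam N C K →
      (∀ e ∈ s, gx e.1 e.2 ≤ G ∧ l ≤ pt e.1 e.2 ∧ pt e.1 e.2 ≤ l + w) →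
      (s.card : ℝ) ≤ Δ * (G + 32 * (K : ℝ) ^ 3 * (N : ℝ) ^ 2 * (C : ℝ) ^ 2 * w) := by
    intro G w l hw hw1 s hs h
    rw [card_eq_sum_card_fiberwise (f := fun e => gx e.1 e.2) (t := Ioo 0 (G + 1)) fun e he => by
      have h2 := hs he
      rw [mem_Fam, mem_Win] at h2
      exact mem_coe.2 (mem_Ioo.2 ⟨Nat.gcd_pos_of_pos_right _ h2.1.1.2.1,
        Nat.lt_succ_of_le (h e he).1⟩)]
    push_cast
    refine (sum_le_sum fun d hd => hM N C K d Δ w l hN hC hK (mem_Ioo.1 hd).1 hΔ hw hw1 _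
      ((filter_subset _ _).trans hs) fun e he =>
        ⟨(mem_filter.1 he).2, (h e (mem_filter.1 he).1).2⟩).trans ?_
    rw [← mul_sum, sum_add_distrib]
    refine mul_le_mul_of_nonneg_left (add_le_add (by simp) ?_) hΔ0
    simp only [div_eq_mul_inv, ← mul_sum]
    have h3 := sum_Ioo_inv_sq_le (α := ℝ) 0 (G + 1)
    have h4 : 0 ≤ 16 * (K : ℝ) ^ 3 * (N : ℝ) ^ 2 * (C : ℝ) ^ 2 * w := by positivity
    have h5 := mul_le_mul_of_nonneg_left h3 h4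
    norm_num at h5 ⊢
    linarith
  have hw : ∀ T : ℕ, 1 ≤ T → (0 : ℝ) ≤ 1 / T ∧ (1 : ℝ) / T ≤ 1 := fun T hT => by
    have hT' : (1 : ℝ) ≤ T := by exact_mod_cast hT
    exact ⟨by positivity, by rw [div_le_one (by positivity)]; exact hT'⟩
  refine ⟨h1, fun T d hT hd => ?_, fun T G hT => ?_⟩
  · rw [mul_assoc (3 * (K : ℝ))]
    refine cm_Mult _ _ T hT (-(K : ℝ)) (3 * K) _ _ (by positivity) (by positivity)
      (fun e he => pt_Mult hN hC hK (mem_filter.1 he).1) (fun l s hs h => ?_) hB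
    refine (hM N C K d Δ (1 / T) l hN hC hK hd hΔ (hw T hT).1 (hw T hT).2 s
      (hs.trans (filter_subset _ _)) fun e he => ⟨(mem_filter.1 (hs he)).2, h e he⟩).trans
      (le_of_eq ?_)
    ring
  · rw [mul_assoc (3 * (K : ℝ))]
    refine cm_Mult _ _ T hT (-(K : ℝ)) (3 * K) _ _ (by positivity) (by positivity)
      (fun e he => pt_Mult hN hC hK (mem_filter.1 he).1) (fun l s hs h => ?_) hB
    refine (h1 G (1 / T) l (hw T hT).1 (hw T hT).2 s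
      (hs.trans (filter_subset _ _)) fun e he => ⟨(mem_filter.1 (hs he)).2, h e he⟩).trans
      (le_of_eq ?_)
    ring

end Pool.Agent.MP_2a1f0e_nt.RF

end

section

set_option autoImplicit false
open Finset
open scoped ComplexConjugate
namespace Pool.Agent.MP_2a1f0e_nt.RF
open GM

theorem int_Mult0 (t : Finset ℤ) {α D : ℝ} (hD : 0 ≤ D) (h : ∀ k ∈ t, α ≤ k ∧ (k : ℝ) ≤ α + D) :
    (t.card : ℝ) ≤ 1 + D := by
  have h1 : t ⊆ Icc ⌈α⌉ ⌊α + D⌋ := fun k hk =>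
    mem_Icc.2 ⟨Int.ceil_le.2 (h k hk).1, Int.le_floor.2 (h k hk).2⟩
  have h2 := card_le_card h1
  rw [Int.card_Icc] at h2
  have h3 : (t.card : ℤ) ≤ max (⌊α + D⌋ + 1 - ⌈α⌉) 0 := by
    rw [← Int.toNat_eq_max]
    exact_mod_cast h2
  have h4 : (t.card : ℝ) ≤ max ((⌊α + D⌋ : ℝ) + 1 - ⌈α⌉) 0 := by exact_mod_cast h3
  exact h4.trans (max_le (by linarith [Int.floor_le (α + D), Int.le_ceil α]) (by linarith))

theorem fib_Mult0 {ι β : Type} [DecidableEq β] (s : Finset ι) (f : ι → β) {m n : ℝ} (hm : 0 ≤ m)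
    (hn : ((s.image f).card : ℝ) ≤ n) (h : ∀ b, ((s.filter fun i => f i = b).card : ℝ) ≤ m) :
    (s.card : ℝ) ≤ n * m := by
  rw [card_eq_sum_card_image f s, Nat.cast_sum]
  refine (sum_le_card_nsmul _ _ m fun b _ => h b).trans ?_
  rw [nsmul_eq_mul]
  exact mul_le_mul_of_nonneg_right hn hm

theorem yv_Mult0 {N C K : ℕ} (hC : 1 ≤ C) {p : ℕ × ℕ} (hp : p ∈ Win N C K) :
    0 < yv p ∧ (N : ℝ) ≤ K * yv p ∧ yv p ≤ K * N ∧ (p.2 : ℝ) = p.1 * yv p := by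
  obtain ⟨⟨⟨h1, -⟩, h2, -⟩, h3, h4⟩ := mem_Win.1 hp
  have a1 : (0 : ℝ) < p.1 := by exact_mod_cast hC.trans h1
  have a2 : (0 : ℝ) < p.2 := by exact_mod_cast h2
  unfold yv
  refine ⟨div_pos a2 a1, ?_, ?_, by field_simp⟩
  · rw [← mul_div_assoc, le_div_iff₀ a1]
    exact_mod_cast h3
  · rw [div_le_iff₀ a1]
    exact_mod_cast h4

theorem real_Mult0 {N C K : ℕ} (hC : 1 ≤ C) {l w : ℝ} (h0 : 0 ≤ w) (h1 : w ≤ 1)
    {s : Finset (ℕ × ℕ)} (hs : s ⊆ Win N C K)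
    (h : ∀ p ∈ s, l ≤ -Real.log (yv p) ∧ -Real.log (yv p) ≤ l + w) :
    (s.card : ℝ) ≤ C * (1 + 4 * K * N * C * w) := by
  refine fib_Mult0 s Prod.fst (by positivity) ?_ fun c => ?_
  · have : s.image Prod.fst ⊆ Ico C (2 * C) := fun c hc => by
      obtain ⟨p, hp, rfl⟩ := mem_image.1 hc
      exact mem_Ico.2 (mem_Win.1 (hs hp)).1.1
    have h2 := card_le_card this
    rw [Nat.card_Ico] at h2
    exact_mod_cast h2.trans (by omega)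
  rw [← card_image_of_injOn (f := fun p : ℕ × ℕ => (p.2 : ℤ)) fun p hp q hq e =>
    Prod.ext ((mem_filter.1 hp).2.trans (mem_filter.1 hq).2.symm) (Nat.cast_injective e)]
  refine int_Mult0 _ (α := c * Real.exp (-l - w)) (by positivity) fun k hk => ?_
  obtain ⟨p, hp', rfl⟩ := mem_image.1 hk
  obtain ⟨hp, rfl⟩ := mem_filter.1 hp'
  obtain ⟨a1, -, a3, a4⟩ := yv_Mult0 hC (hs hp)
  have a5 : (p.1 : ℝ) ≤ 2 * C := by exact_mod_cast (mem_Win.1 (hs hp)).1.1.2.le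
  have b1 : Real.exp (-l - w) ≤ yv p := (Real.le_log_iff_exp_le a1).1 (by linarith [(h p hp).2])
  have b2 : yv p ≤ Real.exp (-l - w) * Real.exp w := by
    rw [← Real.exp_add]
    exact (Real.log_le_iff_le_exp a1).1 (by linarith [(h p hp).1])
  have b3 : Real.exp w ≤ 1 + 2 * w := by
    have := (abs_le.1 (Real.abs_exp_sub_one_le (x := w) (by rwa [abs_of_nonneg h0]))).2
    rw [abs_of_nonneg h0] at this
    linarith
  have b4 := Real.exp_pos (-l - w)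
  rw [Int.cast_natCast, a4]
  generalize Real.exp (-l - w) = a at *
  refine ⟨by gcongr, ?_⟩
  calc p.1 * yv p ≤ p.1 * (a * (1 + 2 * w)) := by gcongr; exact b2.trans (by gcongr)
    _ = p.1 * a + p.1 * a * (2 * w) := by ring
    _ ≤ p.1 * a + 2 * C * (K * N) * (2 * w) := by gcongr; exact b1.trans a3
    _ = _ := by ring

theorem mult0_stmt : Mult0Stmt := by
  intro N C K T hN hC hK hT l s hs h
  choose! k hk using h
  have hT' : (1 : ℝ) ≤ T := by exact_mod_cast hT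
  have hK' : (1 : ℝ) ≤ K := by exact_mod_cast hK
  have hN' : (0 : ℝ) < N := by exact_mod_cast hN
  have hw : 1 / (T : ℝ) ≤ 1 := (div_le_one (by linarith)).2 hT'
  have hw0 : 0 ≤ 1 / (T : ℝ) := by positivity
  have hπ := Real.pi_gt_three
  refine (fib_Mult0 s k (m := C * (1 + 4 * K * N * C * (1 / T))) (n := 1 + K) (by positivity)
    (int_Mult0 _ (α := (-Real.log K - Real.log N - l - 1) / (2 * Real.pi)) (by linarith)
      fun j hj => ?_) fun j => ?_).trans ?_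
  · obtain ⟨p, hp, rfl⟩ := mem_image.1 hj
    obtain ⟨a1, a2, a3, -⟩ := yv_Mult0 hC (hs hp)
    have b1 := Real.log_le_log hN' a2
    have b2 := Real.log_le_log a1 a3
    rw [Real.log_mul (by linarith) a1.ne'] at b1
    rw [Real.log_mul (by linarith) hN'.ne'] at b2
    have b3 := Real.log_le_sub_one_of_pos (show (0 : ℝ) < K by linarith)
    obtain ⟨b4, b5⟩ := hk p hp
    refine ⟨(div_le_iff₀ (by linarith)).2 (by linarith), ?_⟩
    rw [← sub_le_iff_le_add, le_div_iff₀ (by linarith)]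
    nlinarith
  · refine real_Mult0 hC (l := l + 2 * Real.pi * j) hw0 hw ((filter_subset _ _).trans hs)
      fun p hp' => ?_
    obtain ⟨hp, rfl⟩ := mem_filter.1 hp'
    obtain ⟨b4, b5⟩ := hk p hp
    exact ⟨by linarith, by linarith⟩
  · refine mul_le_mul (by linarith) ?_ (by positivity) (by positivity)
    have e : (0 : ℝ) ≤ K * N * (C : ℝ) ^ 2 / T := by positivity
    have e1 : (C : ℝ) * (1 + 4 * K * N * C * (1 / T)) = C + 4 * (K * N * (C : ℝ) ^ 2 / T) := by ring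
    have e2 : 16 * (K : ℝ) * N * (C : ℝ) ^ 2 / T = 16 * (K * N * (C : ℝ) ^ 2 / T) := by ring
    rw [e1, e2]
    linarith [Nat.cast_nonneg (α := ℝ) C]

end Pool.Agent.MP_2a1f0e_nt.RF

end

section

set_option autoImplicit false
open Finset
open scoped ComplexConjugate
namespace Pool.Agent.MP_2a1f0e_nt.RF
open GM

lemma gs_neg_LS (L : ℕ) (x : ℝ) : ‖gs L (-x)‖ = ‖gs L x‖ := by
  rw [← Complex.norm_conj (gs L x)]
  congr 1
  unfold gs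
  rw [map_sum]
  exact sum_congr rfl fun r _ => by rw [conj_ex, mul_neg]

lemma exp_LS (t : ℤ) (u : ℝ) :
    Complex.exp (Complex.I * (t : ℂ) * (u : ℂ)) = ex (t * (u / (2 * Real.pi))) := by
  unfold ex
  congr 1
  have : 2 * Real.pi * (t * (u / (2 * Real.pi))) = t * u := by
    have := Real.pi_ne_zero
    field_simp
  rw [this]
  push_cast
  ring

lemma shift_LS {ι : Type} {s : Finset ι} {u : ι → ℝ} {T : ℕ} {μ : ℝ} (h : CM s u T μ)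
    (k : ι → ℤ) : CM s (fun j => u j - 2 * Real.pi * k j) T μ := by
  intro l s' hs h'
  refine h l s' hs fun i hi => ?_
  obtain ⟨m, h1, h2⟩ := h' i hi
  refine ⟨k i + m, ?_, ?_⟩ <;> push_cast <;> linarith

lemma row_LS {c : ℝ}
    (hK : ∀ (ι : Type) (s : Finset ι) (u : ι → ℝ) (T : ℕ) (μ v : ℝ),
      1 ≤ T → CM s u T μ → ∑ i ∈ s, kp (T * (u i - v)) ≤ c * μ)
    {ι : Type} {s : Finset ι} {u : ι → ℝ} {T : ℕ} {μ : ℝ} (hT : 1 ≤ T) (h : CM s u T μ) (i : ι) :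
    ∑ j ∈ s, ‖gs (2 * (4 * T)) (u i / (2 * Real.pi) - u j / (2 * Real.pi))‖ ^ 2 ≤
      128 * (T : ℝ) ^ 2 * (c * μ) := by
  obtain ⟨k, hk⟩ : ∃ k : ι → ℤ, ∀ j, k j = round (u j / (2 * Real.pi) - u i / (2 * Real.pi)) :=
    ⟨_, fun _ => rfl⟩
  have h1 := hK ι s _ T μ (u i) hT (shift_LS h k)
  refine le_trans ?_ (mul_le_mul_of_nonneg_left h1 (by positivity))
  rw [mul_sum]
  refine sum_le_sum fun j _ => ?_
  obtain ⟨x, hx⟩ : ∃ x, x = u j / (2 * Real.pi) - u i / (2 * Real.pi) - k j := ⟨_, rfl⟩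
  have hx1 : |x| ≤ 1 / 2 := by rw [hx, hk]; exact abs_sub_round _
  have e1 : u i / (2 * Real.pi) - u j / (2 * Real.pi) = -(x + k j) := by rw [hx]; ring
  have e2 : u j - 2 * Real.pi * k j - u i = 2 * Real.pi * x := by
    rw [hx]
    have := Real.pi_ne_zero
    field_simp
    ring
  rw [e1, gs_neg_LS, gs_add_int, e2]
  refine (gs_sq_le _ hx1).trans ?_
  push_cast
  have e3 : kp (2 * (2 * (4 * (T : ℝ))) * x) ≤ kp (T * (2 * Real.pi * x)) := by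
    refine kp_anti ?_
    have p1 := Real.pi_le_four
    have p2 := Real.pi_pos
    have p3 : Real.pi ^ 2 ≤ 64 := by nlinarith
    have p4 : 0 ≤ ((T : ℝ) * x) ^ 2 := sq_nonneg _
    nlinarith
  calc _ = 128 * (T : ℝ) ^ 2 * kp (2 * (2 * (4 * (T : ℝ))) * x) := by ring
    _ ≤ _ := mul_le_mul_of_nonneg_left e3 (by positivity)

lemma dual_LS {ι : Type} (s : Finset ι) (φ : ι → ℝ) (T : ℕ) (w : ι → ℂ) :
    ∑ t ∈ IT T, ‖∑ i ∈ s, w i * ex (t * φ i)‖ ^ 2 ≤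
      ∑ t ∈ Icc 1 (4 * T), ‖∑ i ∈ s, (w i * ex (-(2 * T) * φ i)) * ex (t * φ i)‖ ^ 2 := by
  have hsub : IT T ⊆ (Icc 1 (4 * T)).image (fun t : ℕ => (t : ℤ) - 2 * T) := by
    intro t ht
    obtain ⟨h1, h2⟩ := mem_IT.1 ht
    refine mem_image.2 ⟨(t + 2 * T).toNat, mem_Icc.2 ⟨by omega, by omega⟩, by omega⟩
  refine (sum_le_sum_of_subset_of_nonneg hsub fun _ _ _ => sq_nonneg _).trans (le_of_eq ?_)
  rw [sum_image fun a _ b _ h => by simpa using h]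
  refine sum_congr rfl fun t _ => ?_
  congr 2
  refine sum_congr rfl fun i _ => ?_
  rw [mul_assoc, ← ex_add]
  congr 2
  push_cast
  ring

theorem ls_stmt (hK : KpStmt) : LSStmt := by
  obtain ⟨c, hc, hK⟩ := hK
  refine ⟨32 * c, by positivity, fun ι s u T μ hT h a => ?_⟩
  have hμ : 0 ≤ μ := by simpa using h 0 ∅ (empty_subset _) (by simp)
  have hT' : (1 : ℝ) ≤ T := by exact_mod_cast hT
  obtain ⟨w, hw⟩ : ∃ w : ι → ℂ, ∀ i, w i = trig T a (u i) := ⟨_, fun _ => rfl⟩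
  simp only [← hw]
  obtain ⟨G, hG⟩ : ∃ G : ℤ → ℂ, ∀ t, G t = ∑ i ∈ s, conj (w i) * ex (t * (u i / (2 * Real.pi))) :=
    ⟨_, fun _ => rfl⟩
  obtain ⟨S, hS⟩ : ∃ S, S = ∑ i ∈ s, ‖w i‖ ^ 2 := ⟨_, rfl⟩
  have S0 : 0 ≤ S := hS ▸ sum_nonneg fun _ _ => sq_nonneg _
  have e1 : (S : ℂ) = ∑ t ∈ IT T, a t * G t := by
    rw [hS]
    push_cast
    simp only [hG, mul_sum]
    rw [sum_comm]
    refine sum_congr rfl fun i _ => ?_
    rw [← Complex.conj_mul']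
    nth_rewrite 2 [hw i]
    rw [trig, mul_sum]
    refine sum_congr rfl fun t _ => ?_
    rw [exp_LS]
    ring
  have e2 : S ≤ ∑ t ∈ IT T, ‖a t‖ * ‖G t‖ := by
    rw [← abs_of_nonneg S0, ← Real.norm_eq_abs, ← Complex.norm_real, e1]
    exact (norm_sum_le _ _).trans (le_of_eq (sum_congr rfl fun t _ => norm_mul _ _))
  have e3 : S ^ 2 ≤ (∑ t ∈ IT T, ‖a t‖ ^ 2) * ∑ t ∈ IT T, ‖G t‖ ^ 2 :=
    (pow_le_pow_left₀ S0 e2 2).trans (sum_mul_sq_le_sq_mul_sq _ _ _)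
  have e4 := dual_LS s (fun i => u i / (2 * Real.pi)) T fun i => conj (w i)
  simp only [← hG] at e4
  have e5 := fejer s (fun i => conj (w i) * ex (-(2 * T) * (u i / (2 * Real.pi))))
    (fun i => u i / (2 * Real.pi)) (4 * T)
  have e6 := schur s (fun i => ‖w i‖)
    (fun i j => ‖gs (2 * (4 * T)) (u i / (2 * Real.pi) - u j / (2 * Real.pi))‖ ^ 2)
    (fun _ _ _ _ => sq_nonneg _) (fun i _ j _ => by rw [← gs_neg_LS, neg_sub])
    _ (fun i _ => row_LS hK hT h i)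
  simp only [norm_mul, norm_ex, mul_one, Complex.norm_conj] at e5
  rw [← hS] at e6 ⊢
  have e7 : ∑ t ∈ IT T, ‖G t‖ ^ 2 ≤ 32 * c * μ * T * S := by
    have h1 := (mul_le_mul_of_nonneg_left e4 (by positivity : (0 : ℝ) ≤ ((4 * T : ℕ) : ℝ))).trans
      (e5.trans e6)
    push_cast at h1
    refine le_of_mul_le_mul_left (h1.trans (le_of_eq ?_)) (by positivity)
    ring
  have A0 : 0 ≤ ∑ t ∈ IT T, ‖a t‖ ^ 2 := sum_nonneg fun _ _ => sq_nonneg _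
  rcases S0.eq_or_lt with h0 | h0
  · rw [← h0]
    positivity
  · refine le_of_mul_le_mul_right ?_ h0
    calc S * S = S ^ 2 := by ring
      _ ≤ _ := e3.trans (mul_le_mul_of_nonneg_left e7 A0)
      _ = _ := by ring

end Pool.Agent.MP_2a1f0e_nt.RF

end

section

set_option autoImplicit false

open Finset
open scoped ComplexConjugate

namespace Pool.Agent.MP_2a1f0e_nt.RF

open GM

lemma cs_Pert {f : ℝ → ℝ} (hf : Continuous f) {a b : ℝ} (hab : a ≤ b) :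
    (∫ x in a..b, f x) ^ 2 ≤ (b - a) * ∫ x in a..b, f x ^ 2 := by
  have h := discrim_le_zero (a := b - a) (b := -2 * ∫ x in a..b, f x)
    (c := ∫ x in a..b, f x ^ 2) fun m => by
    have h1 : 0 ≤ ∫ x in a..b, (f x ^ 2 + -2 * m * f x + m * m) :=
      intervalIntegral.integral_nonneg hab fun x _ => by nlinarith [sq_nonneg (f x - m)]
    rw [intervalIntegral.integral_add (Continuous.intervalIntegrable (by fun_prop) _ _)
      intervalIntegrable_const, intervalIntegral.integral_add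
      (Continuous.intervalIntegrable (by fun_prop) _ _)
      (Continuous.intervalIntegrable (by fun_prop) _ _), intervalIntegral.integral_const_mul,
      intervalIntegral.integral_const, smul_eq_mul] at h1
    linarith
  rw [discrim] at h
  linarith

lemma cont_Pert (T : ℕ) (a : ℤ → ℂ) : Continuous (trig T a) := by
  unfold trig
  fun_prop

lemma der_Pert (T : ℕ) (a : ℤ → ℂ) (u v : ℝ) : HasDerivAt (fun v => trig T a (u + v))
    (trig T (fun t => Complex.I * t * a t) (u + v)) v := by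
  refine HasDerivAt.fun_sum fun t _ => ?_
  have h := ((((hasDerivAt_id v).const_add u).ofReal_comp.const_mul
    (Complex.I * t)).cexp).const_mul (a t)
  refine h.congr_deriv ?_
  simp only [id, Complex.ofReal_one]
  ring

lemma one_Pert (T : ℕ) (a : ℤ → ℂ) (u : ℝ) {θ θ₀ : ℝ} (h : |θ| ≤ θ₀) :
    ‖trig T a (u + θ) - trig T a u‖ ^ 2 ≤
      2 * θ₀ * ∫ v in -θ₀..θ₀, ‖trig T (fun t => Complex.I * t * a t) (u + v)‖ ^ 2 := by
  have hc : Continuous fun v => trig T (fun t => Complex.I * t * a t) (u + v) :=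
    (cont_Pert _ _).comp (by fun_prop)
  have h0 : 0 ≤ θ₀ := (abs_nonneg _).trans h
  have h1 := intervalIntegral.integral_eq_sub_of_hasDerivAt (a := 0) (b := θ)
    (fun v _ => der_Pert T a u v) (hc.intervalIntegrable _ _)
  rw [add_zero] at h1
  have h2 := cs_Pert hc.norm (neg_le_self h0)
  rw [sub_neg_eq_add, ← two_mul] at h2
  refine le_trans (pow_le_pow_left₀ (norm_nonneg _) ?_ 2) h2
  rw [← h1]
  refine intervalIntegral.norm_integral_le_abs_integral_norm.trans ?_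
  refine (intervalIntegral.abs_integral_mono_interval (μ := MeasureTheory.volume)
    (c := -θ₀) (d := θ₀) ?_
    (Filter.Eventually.of_forall fun _ => norm_nonneg _) (hc.norm.intervalIntegrable _ _)).trans ?_
  · rw [Set.uIoc_of_le (neg_le_self h0)]
    exact Set.Ioc_subset_Ioc (le_min (neg_nonpos.2 h0) (abs_le.1 h).1) (max_le h0 (abs_le.1 h).2)
  · exact (abs_of_nonneg (intervalIntegral.integral_nonneg (neg_le_self h0)
      fun _ _ => norm_nonneg _)).le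

theorem pert_stmt (hL : LSStmt) : PertStmt := by
  obtain ⟨c, hc, hL⟩ := hL
  refine ⟨16 * c, by positivity, fun ι s u θ T μ θ₀ hT hM _ hθ a => ?_⟩
  have hμ := hM.nonneg
  rcases s.eq_empty_or_nonempty with rfl | ⟨i, hi⟩
  · rw [sum_empty]
    positivity
  have h0 : 0 ≤ θ₀ := (abs_nonneg _).trans (hθ i hi)
  have h1 : ∑ t ∈ IT T, ‖Complex.I * t * a t‖ ^ 2 ≤ 4 * (T : ℝ) ^ 2 * ∑ t ∈ IT T, ‖a t‖ ^ 2 := by
    rw [mul_sum]
    refine sum_le_sum fun t ht => ?_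
    have h2 : |(t : ℝ)| ≤ 2 * T := by exact_mod_cast (abs_lt.2 (mem_IT.1 ht)).le
    rw [norm_mul, norm_mul, Complex.norm_I, one_mul, Complex.norm_intCast, mul_pow]
    exact mul_le_mul_of_nonneg_right
      ((pow_le_pow_left₀ (abs_nonneg _) h2 2).trans_eq (by ring)) (sq_nonneg _)
  have hc' : ∀ i, Continuous fun v => ‖trig T (fun t => Complex.I * t * a t) (u i + v)‖ ^ 2 :=
    fun i => ((cont_Pert _ _).comp (by fun_prop)).norm.pow 2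
  refine (sum_le_sum fun i hi => one_Pert T a (u i) (hθ i hi)).trans ?_
  rw [← mul_sum, ← intervalIntegral.integral_finsetSum fun i _ => (hc' i).intervalIntegrable _ _]
  have h3 := intervalIntegral.integral_mono_on (μ := MeasureTheory.volume) (neg_le_self h0)
    ((continuous_finsetSum s fun i _ => hc' i).intervalIntegrable _ _)
    (intervalIntegrable_const (c := c * μ * T * (4 * (T : ℝ) ^ 2 * ∑ t ∈ IT T, ‖a t‖ ^ 2)))
    fun v _ => (hL ι s (fun i => u i + v) T μ hT (fun l s' h4 h5 => hM (l - v) s' h4 fun i hi => by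
      obtain ⟨k, h6, h7⟩ := h5 i hi
      exact ⟨k, by linarith, by linarith⟩) _).trans
      (mul_le_mul_of_nonneg_left h1 (by positivity))
  rw [intervalIntegral.integral_const, smul_eq_mul] at h3
  exact (mul_le_mul_of_nonneg_left h3 (by positivity)).trans_eq (by ring)

end Pool.Agent.MP_2a1f0e_nt.RF

end

section

set_option autoImplicit false

open Finset
open scoped ComplexConjugate

namespace Pool.Agent.MP_2a1f0e_nt.RF

open GM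

/-- number of factorisations of `n` into `k` factors from `[1, L]` -/
def co_Mom (k L n : ℕ) : ℕ :=
  ((Fintype.piFinset fun _ : Fin k => Icc 1 L).filter fun f => ∏ i, f i = n).card

lemma maps_Mom (k L : ℕ) : ∀ f ∈ (Fintype.piFinset fun _ : Fin k => Icc 1 L),
    ∏ i, f i ∈ Icc 1 (L ^ k) := by
  intro f hf
  rw [Fintype.mem_piFinset] at hf
  rw [mem_Icc]
  constructor
  · have : 0 < ∏ i, f i := prod_pos fun i _ => Nat.succ_le_iff.1 (mem_Icc.1 (hf i)).1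
    exact this
  · calc ∏ i, f i ≤ ∏ _i : Fin k, L := prod_le_prod' fun i _ => (mem_Icc.1 (hf i)).2
      _ = L ^ k := by simp

lemma pow_Mom (k L r : ℕ) (χ : DirichletCharacter ℂ r) :
    Sc r χ L ^ k = ∑ n ∈ Icc 1 (L ^ k), (co_Mom k L n : ℂ) * χ (n : ZMod r) := by
  have h1 : Sc r χ L ^ k = ∏ _i : Fin k, ∑ j ∈ Icc 1 L, χ (j : ZMod r) := by
    simp [Sc]
  rw [h1, prod_univ_sum, ← sum_fiberwise_of_maps_to (maps_Mom k L)]
  refine sum_congr rfl fun n _ => ?_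
  rw [co_Mom, ← nsmul_eq_mul, ← sum_const]
  refine sum_congr rfl fun f hf => ?_
  rw [← (mem_filter.1 hf).2, Nat.cast_prod, map_prod]

lemma sum_Mom (k L : ℕ) : ∑ n ∈ Icc 1 (L ^ k), co_Mom k L n = L ^ k := by
  unfold co_Mom
  rw [← card_eq_sum_card_fiberwise (maps_Mom k L)]
  simp

lemma le_Mom (k L n : ℕ) (hn : 1 ≤ n) : co_Mom k L n ≤ n.divisors.card ^ k := by
  have : n.divisors.card ^ k = (Fintype.piFinset fun _ : Fin k => n.divisors).card := by simp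
  rw [this]
  apply card_le_card
  intro f hf
  rw [mem_filter] at hf
  rw [Fintype.mem_piFinset]
  intro i
  rw [Nat.mem_divisors]
  refine ⟨?_, by omega⟩
  rw [← hf.2]
  exact dvd_prod_of_mem _ (mem_univ i)

theorem mom_stmt (hL : LS0Stmt) : MomStmt := by
  obtain ⟨c, hc, hL⟩ := hL
  refine ⟨c, hc, ?_⟩
  intro k R L Δ _ hd
  have h1 := hL R (L ^ k) fun n => (co_Mom k L n : ℂ)
  have h2 : ∑ n ∈ Icc 1 (L ^ k), ‖(co_Mom k L n : ℂ)‖ ^ 2 ≤ Δ ^ k * (L : ℝ) ^ k := by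
    have e : (L : ℝ) ^ k = ∑ n ∈ Icc 1 (L ^ k), (co_Mom k L n : ℝ) := by
      exact_mod_cast (sum_Mom k L).symm
    rw [e, mul_sum]
    refine sum_le_sum fun n hn => ?_
    rw [mem_Icc] at hn
    rw [Complex.norm_natCast, sq]
    apply mul_le_mul_of_nonneg_right _ (Nat.cast_nonneg _)
    calc (co_Mom k L n : ℝ) ≤ (n.divisors.card : ℝ) ^ k := by
          exact_mod_cast le_Mom k L n hn.1
      _ ≤ Δ ^ k := pow_le_pow_left₀ (Nat.cast_nonneg _) (hd.2 n hn.2) k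
  calc ∑ r ∈ Icc 1 R, ∑ χ ∈ prim r, ‖Sc r χ L‖ ^ (2 * k)
      = ∑ r ∈ Icc 1 R, ∑ χ ∈ prim r,
          ‖∑ n ∈ Icc 1 (L ^ k), (co_Mom k L n : ℂ) * χ (n : ZMod r)‖ ^ 2 := by
        refine sum_congr rfl fun r _ => sum_congr rfl fun χ _ => ?_
        rw [← pow_Mom, norm_pow, ← pow_mul, mul_comm]
    _ ≤ c * ((R : ℝ) ^ 2 + ((L ^ k : ℕ) : ℝ)) *
          ∑ n ∈ Icc 1 (L ^ k), ‖(co_Mom k L n : ℂ)‖ ^ 2 := h1
    _ ≤ c * ((R : ℝ) ^ 2 + (L : ℝ) ^ k) * (Δ ^ k * (L : ℝ) ^ k) := by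
        rw [Nat.cast_pow]
        exact mul_le_mul_of_nonneg_left h2 (by positivity)

end Pool.Agent.MP_2a1f0e_nt.RF

end

section

set_option autoImplicit false
open Finset
open scoped ComplexConjugate
namespace Pool.Agent.MP_2a1f0e_nt.RF
open GM

lemma low_Lq {x l q : ℝ} (hx : 0 ≤ x) (h : x ≤ l) (h2 : 2 ≤ q) : x ^ q ≤ l ^ (q - 2) * x ^ 2 := by
  have e : x ^ q = x ^ (q - 2) * x ^ 2 := by
    rw [← Real.rpow_natCast x 2, ← Real.rpow_add_of_nonneg hx (by linarith) (by positivity)]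
    norm_num
  rw [e]
  exact mul_le_mul_of_nonneg_right (Real.rpow_le_rpow hx h (by linarith)) (sq_nonneg _)

lemma split_Lq {x l q : ℝ} (hx : 0 ≤ x) (hl : 0 < l) (h2 : 2 ≤ q) (h4 : q ≤ 4) :
    x ^ q ≤ l ^ (q - 2) * x ^ 2 + l ^ (q - 4) * x ^ 4 := by
  rcases le_total x l with h | h
  · exact (low_Lq hx h h2).trans (le_add_of_nonneg_right (by positivity))
  · have e : x ^ q = x ^ (q - 4) * x ^ 4 := by
      rw [← Real.rpow_natCast x 4, ← Real.rpow_add (hl.trans_le h)]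
      norm_num
    rw [e]
    exact (mul_le_mul_of_nonneg_right (Real.rpow_le_rpow_of_nonpos hl h (by linarith))
      (by positivity)).trans (le_add_of_nonneg_left (by positivity))

theorem lq_stmt (hC : CoreStmt) (hM : MassStmt) (hV : MVStmt) : LqStmt := by
  intro q h2 h4 ε hε
  obtain ⟨K₁, hK₁, hC⟩ := hC ε hε
  obtain ⟨K₂, hK₂, hM⟩ := hM ε hε
  obtain ⟨K₃, hK₃, hV⟩ := hV ε hε
  refine ⟨4 * K₂ + K₃ + K₁, by positivity, fun N T hN hT b hb => ?_⟩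
  have d0 : 0 < 26 - 6 * q := by linarith
  set τ := (24 - 5 * q) / (26 - 6 * q) with hτ
  set s := (25 - 6 * q) / (26 - 6 * q) with hs
  have τ1 : 1 ≤ τ := (one_le_div d0).2 (by linarith)
  have τ2 : τ ≤ 2 := (div_le_iff₀ d0).2 (by linarith)
  have e1 : s * (q - 2) + (τ + 1) = q := by rw [hs, hτ]; field_simp; ring
  have e2 : s * (q - 4) + (26 / 7 + τ * (1 / 7)) = q := by rw [hs, hτ]; field_simp; ring
  have n1 : (1 : ℝ) ≤ N := by exact_mod_cast hN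
  have n0 : (0 : ℝ) < N := by linarith
  set T' := max T N with hT'
  have t1 : N ≤ T' := le_max_right _ _
  have t2 : (T' : ℝ) ≤ (N : ℝ) ^ τ := by
    rw [hT']
    push_cast
    exact max_le hT (by simpa using Real.rpow_le_rpow_of_exponent_le n1 τ1)
  have t3 : T' ≤ N ^ 2 := by
    have := t2.trans (Real.rpow_le_rpow_of_exponent_le n1 τ2)
    rw [Real.rpow_two] at this
    exact_mod_cast this
  have s1 : ∑ t ∈ Icc 1 T, ‖DP N b (t : ℕ)‖ ^ q ≤ ∑ t ∈ Icc 0 (T' : ℤ), ‖DP N b t‖ ^ q := by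
    have e : ∑ t ∈ (Icc 1 T).image (fun t : ℕ => (t : ℤ)), ‖DP N b t‖ ^ q =
        ∑ t ∈ Icc 1 T, ‖DP N b (t : ℕ)‖ ^ q := by
      rw [sum_image fun _ _ _ _ h => Nat.cast_injective h]
      simp
    rw [← e]
    refine sum_le_sum_of_subset_of_nonneg (fun t ht => ?_) fun _ _ _ => by positivity
    obtain ⟨u, hu, rfl⟩ := mem_image.1 ht
    rw [mem_Icc] at hu ⊢
    have : T ≤ T' := le_max_left _ _
    omega
  refine s1.trans ?_
  have hsub : Icc 0 (T' : ℤ) ⊆ IT T' := fun t ht => by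
    rw [mem_Icc] at ht
    rw [mem_IT]
    omega
  have m1 := (Mass_mono N b hsub _).trans (hM N T' hN t1 t3 b hb)
  have m2 := (hV N T' hN t1 t3 b hb).1
  have m3 := hC N T' hN t1 t3 b hb
  have Nε : 0 ≤ (N : ℝ) ^ ε := by positivity
  rw [← sum_filter_add_sum_filter_not _ fun t : ℤ => √(N * √(T' : ℝ)) ≤ ‖DP N b t‖]
  have b1 : ∑ t ∈ (Icc 0 (T' : ℤ)).filter (fun t : ℤ => √(N * √(T' : ℝ)) ≤ ‖DP N b t‖),
      ‖DP N b t‖ ^ q ≤ 4 * K₂ * (N : ℝ) ^ ε * (N : ℝ) ^ q := by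
    have a1 : (2 * N : ℝ) ^ (q - 2) ≤ 4 * (N : ℝ) ^ (q - 2) := by
      rw [Real.mul_rpow (by norm_num) n0.le]
      refine mul_le_mul_of_nonneg_right ?_ (by positivity)
      refine (Real.rpow_le_rpow_of_exponent_le one_le_two (show q - 2 ≤ 2 by linarith)).trans ?_
      norm_num
    have a2 : (N : ℝ) ^ (q - 2) * (N : ℝ) ^ 2 = (N : ℝ) ^ q := by
      rw [← Real.rpow_natCast _ 2, ← Real.rpow_add n0]
      norm_num
    calc _ ≤ ∑ t ∈ (Icc 0 (T' : ℤ)).filter (fun t : ℤ => √(N * √(T' : ℝ)) ≤ ‖DP N b t‖),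
          4 * (N : ℝ) ^ (q - 2) * ‖DP N b t‖ ^ 2 := sum_le_sum fun t _ =>
          (low_Lq (norm_nonneg _) ((norm_DP_le N b hb t).trans (by linarith)) h2).trans
            (mul_le_mul_of_nonneg_right a1 (sq_nonneg _))
      _ = 4 * (N : ℝ) ^ (q - 2) * Mass N b (Icc 0 (T' : ℤ)) √(N * √(T' : ℝ)) := by
          rw [Mass, mul_sum]
      _ ≤ 4 * (N : ℝ) ^ (q - 2) * (K₂ * (N : ℝ) ^ ε * (N : ℝ) ^ 2) := by gcongr
      _ = _ := by rw [← a2]; ring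
  have b2 : ∑ t ∈ (Icc 0 (T' : ℤ)).filter (fun t : ℤ => ¬√(N * √(T' : ℝ)) ≤ ‖DP N b t‖),
      ‖DP N b t‖ ^ q ≤ (K₃ + K₁) * (N : ℝ) ^ ε * (N : ℝ) ^ q := by
    have l0 : 0 < (N : ℝ) ^ s := by positivity
    have a1 : ((N : ℝ) ^ s) ^ (q - 2) * ((N : ℝ) ^ τ * N) = (N : ℝ) ^ q := by
      rw [← Real.rpow_mul n0.le, ← Real.rpow_add_one n0.ne', ← Real.rpow_add n0, e1]
    have a2 : ((N : ℝ) ^ s) ^ (q - 4) * ((N : ℝ) ^ (26 / 7 : ℝ) * ((N : ℝ) ^ τ) ^ (1 / 7 : ℝ)) =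
        (N : ℝ) ^ q := by
      rw [← Real.rpow_mul n0.le, ← Real.rpow_mul n0.le, ← Real.rpow_add n0, ← Real.rpow_add n0, e2]
    simp only [not_le]
    refine (sum_le_sum fun t _ => split_Lq (norm_nonneg _) l0 h2 h4).trans ?_
    rw [sum_add_distrib, ← mul_sum, ← mul_sum]
    have a3 := (sum_le_sum_of_subset_of_nonneg (filter_subset
      (fun t : ℤ => ‖DP N b t‖ < √(N * √(T' : ℝ))) _) fun _ _ _ => sq_nonneg _).trans m2
    calc _ ≤ ((N : ℝ) ^ s) ^ (q - 2) * (K₃ * (N : ℝ) ^ ε * ((N : ℝ) ^ τ * N)) +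
          ((N : ℝ) ^ s) ^ (q - 4) * (K₁ * (N : ℝ) ^ ε *
            ((N : ℝ) ^ (26 / 7 : ℝ) * ((N : ℝ) ^ τ) ^ (1 / 7 : ℝ))) := by
          refine add_le_add (mul_le_mul_of_nonneg_left (a3.trans ?_) (by positivity))
            (mul_le_mul_of_nonneg_left (m3.trans ?_) (by positivity)) <;> gcongr
      _ = K₃ * (N : ℝ) ^ ε * (((N : ℝ) ^ s) ^ (q - 2) * ((N : ℝ) ^ τ * N)) +
          K₁ * (N : ℝ) ^ ε * (((N : ℝ) ^ s) ^ (q - 4) *
            ((N : ℝ) ^ (26 / 7 : ℝ) * ((N : ℝ) ^ τ) ^ (1 / 7 : ℝ))) := by ring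
      _ = _ := by rw [a1, a2]; ring
  linarith

end Pool.Agent.MP_2a1f0e_nt.RF

end

section

set_option autoImplicit false

open Finset
open scoped ComplexConjugate

namespace Pool.Agent.MP_2a1f0e_nt.RF

open GM

theorem split_LV (N : ℕ) (b : ℕ → ℂ) (I : Finset ℤ) (V V1 : ℝ) (hV : 0 < V) :
    Mass N b I V ≤ Mass N b I V1 +
      (∑ t ∈ I.filter (fun t : ℤ => ‖DP N b t‖ < V1), ‖DP N b t‖ ^ 4) / V ^ 2 := by
  unfold Mass
  rw [sum_div, sum_filter, sum_filter, sum_filter, ← sum_add_distrib]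
  refine sum_le_sum fun t _ => ?_
  have h0 : 0 ≤ ‖DP N b t‖ := norm_nonneg _
  generalize ‖DP N b t‖ = x at h0 ⊢
  by_cases h1 : V1 ≤ x
  · have h2 : ¬ x < V1 := not_lt.2 h1
    rw [if_pos h1, if_neg h2]
    split_ifs
    · simp
    · positivity
  · have h2 : x < V1 := not_le.1 h1
    rw [if_neg h1, if_pos h2, zero_add]
    split_ifs with h3
    · rw [le_div_iff₀ (by positivity)]
      have h4 : V ^ 2 ≤ x ^ 2 := pow_le_pow_left₀ hV.le h3 2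
      calc x ^ 2 * V ^ 2 ≤ x ^ 2 * x ^ 2 := mul_le_mul_of_nonneg_left h4 (sq_nonneg x)
        _ = x ^ 4 := by ring
    · positivity

theorem sub_LV (N T : ℕ) (b : ℕ → ℂ) (V : ℝ) (hT : 1 ≤ T) :
    Mass N b (Icc 0 (T : ℤ)) V ≤ Mass N b (IT T) V := by
  unfold Mass
  refine sum_le_sum_of_subset_of_nonneg (filter_subset_filter _ fun t ht => ?_)
    fun _ _ _ => sq_nonneg _
  rw [mem_Icc] at ht
  rw [mem_IT]
  constructor <;> omega

theorem lv_stmt (hC : CoreStmt) (hM : MassStmt) (hT : TayStmt) : LVStmt := by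
  intro ε hε
  obtain ⟨K1, hK1, h1⟩ := hC ε hε
  obtain ⟨K2, hK2, h2⟩ := hM ε hε
  refine ⟨36 * 36 * (K1 + K2), fun N T V hN hNT hTN hV b hb W hW hsep hWV => ?_⟩
  have hT0 : 0 ≤ T := (Nat.cast_nonneg N).trans hNT
  have hfl : (⌊T⌋₊ : ℝ) ≤ T := Nat.floor_le hT0
  have hNT0 : N ≤ ⌊T⌋₊ := Nat.le_floor hNT
  have hT0N : ⌊T⌋₊ ≤ N ^ 2 := by
    have : (⌊T⌋₊ : ℝ) ≤ ((N ^ 2 : ℕ) : ℝ) := by push_cast; exact hfl.trans hTN
    exact_mod_cast this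
  set A : ℝ := (N : ℝ) ^ ε with hA
  have hA0 : 0 ≤ A := by positivity
  set F : ℝ := (N : ℝ) ^ (26 / 7 : ℝ) * T ^ (1 / 7 : ℝ) with hF
  have hF0 : 0 ≤ F := by positivity
  have hZ : ∀ b : ℕ → ℂ, (∀ n, ‖b n‖ ≤ 1) → Mass N b (Icc 0 ((⌊T⌋₊ : ℕ) : ℤ)) (V / 6) ≤
      36 * (K1 + K2) * A * ((N : ℝ) ^ 2 + F / V ^ 2) := by
    intro b hb
    have e1 := split_LV N b (Icc 0 ((⌊T⌋₊ : ℕ) : ℤ)) (V / 6) (√(N * √((⌊T⌋₊ : ℕ) : ℝ)))
      (by positivity)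
    have e2 := (sub_LV N ⌊T⌋₊ b (√(N * √((⌊T⌋₊ : ℕ) : ℝ))) (hN.trans hNT0)).trans
      (h2 N ⌊T⌋₊ hN hNT0 hT0N b hb)
    have e3 := h1 N ⌊T⌋₊ hN hNT0 hT0N b hb
    have e4 : (N : ℝ) ^ (26 / 7 : ℝ) * ((⌊T⌋₊ : ℕ) : ℝ) ^ (1 / 7 : ℝ) ≤ F := by
      rw [hF]
      gcongr
    have e5 := e3.trans (mul_le_mul_of_nonneg_left e4 (by positivity : 0 ≤ K1 * A))
    have e6 := div_le_div_of_nonneg_right e5 (sq_nonneg (V / 6))
    have e7 : K1 * A * F / (V / 6) ^ 2 = 36 * K1 * A * (F / V ^ 2) := by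
      field_simp
      ring
    rw [e7] at e6
    have p1 : 0 ≤ A * (N : ℝ) ^ 2 := by positivity
    have p2 : 0 ≤ A * (F / V ^ 2) := by positivity
    have e8 : K2 * A * (N : ℝ) ^ 2 + 36 * K1 * A * (F / V ^ 2) ≤
        36 * (K1 + K2) * A * ((N : ℝ) ^ 2 + F / V ^ 2) := by
      nlinarith [mul_nonneg hK1.le p1, mul_nonneg hK2.le p1, mul_nonneg hK2.le p2]
    linarith
  have h3 := hT N ⌊T⌋₊ V _ hN hV hZ b hb W
    (fun t ht => ⟨(hW t ht).1, (hW t ht).2.trans_lt (Nat.lt_floor_add_one T)⟩) hsep hWV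
  have h4 : (W.card : ℝ) * V ^ 2 ≤ ∑ t ∈ W, ‖DP N b t‖ ^ 2 := by
    rw [← nsmul_eq_mul]
    exact card_nsmul_le_sum W _ _ fun t ht => pow_le_pow_left₀ hV.le (hWV t ht) 2
  have h7 := h4.trans h3
  rw [← le_div_iff₀ (by positivity)] at h7
  refine h7.trans_eq ?_
  field_simp

end Pool.Agent.MP_2a1f0e_nt.RF

end

section

set_option autoImplicit false
open Finset
open scoped ComplexConjugate
namespace Pool.Agent.MP_2a1f0e_nt.RF
open GM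

lemma uP_End {N T : ℕ} (hN : 1 ≤ N) (g : ℤ → ℝ) (b : ℕ → ℂ) {p : ℕ × ℕ} (h1 : 1 ≤ p.1)
    (h2 : 1 ≤ p.2) :
    uP N T g b p = trig T (fun t => (g t : ℂ) * DP N b t) (-Real.log (yv p)) := by
  simp only [uP, av, fu, trig, DP, mul_sum, sum_mul]
  rw [sum_comm]
  refine sum_congr rfl fun t _ => sum_congr rfl fun x hx => ?_
  have a : (p.1 : ℝ) ≠ 0 := (Nat.cast_pos.2 h1).ne'
  have c : (p.2 : ℝ) ≠ 0 := (Nat.cast_pos.2 h2).ne'
  have d : (x : ℝ) ≠ 0 := (Nat.cast_pos.2 (hN.trans (mem_Icc.1 hx).1)).ne'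
  have e : pt p x = Real.log x + -Real.log (yv p) := by
    rw [pt, yv, Nat.cast_mul, Real.log_div (mul_ne_zero a d) c, Real.log_mul a d, Real.log_div c a]
    ring
  rw [e, Complex.ofReal_add, mul_add, Complex.exp_add, pw, Complex.ofReal_intCast]
  ring

theorem end_stmt (hL : LSStmt) (hM : Mult0Stmt) : EndStmt := by
  obtain ⟨c, hc, hL⟩ := hL
  refine ⟨54 * c, by positivity, fun N T C K g U MM hN hT hC hK hTN hg hb b hb1 => ?_⟩
  have hU : 0 ≤ U := by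
    have := hg 0 (mem_IT.2 ⟨by omega, by omega⟩)
    exact this.1.trans this.2
  have h1 : ∑ t ∈ IT T, ‖(g t : ℂ) * DP N b t‖ ^ 2 ≤ U * MM := by
    refine le_trans ?_ (mul_le_mul_of_nonneg_left (hb b hb1) hU)
    rw [mul_sum]
    refine sum_le_sum fun t ht => ?_
    obtain ⟨a, d⟩ := hg t ht
    rw [norm_mul, Complex.norm_real, Real.norm_of_nonneg a, mul_pow, sq (g t), mul_assoc]
    gcongr
  have h2 : (T : ℝ) ≤ N * C := by exact_mod_cast hTN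
  have h3 : (1 : ℝ) ≤ K := by exact_mod_cast hK
  have h4 : (0 : ℝ) < T := Nat.cast_pos.2 hT
  have h5 : 3 * K * (2 * C + 16 * K * N * (C : ℝ) ^ 2 / T) * T ≤ 54 * K ^ 2 * N * (C : ℝ) ^ 2 :=
    calc _ = 6 * K * 1 * C * T + 48 * K ^ 2 * N * (C : ℝ) ^ 2 := by field_simp; ring
      _ ≤ 6 * K * K * C * (N * C) + 48 * K ^ 2 * N * (C : ℝ) ^ 2 := by gcongr
      _ = _ := by ring
  rw [sum_congr rfl fun p hp => by
    rw [uP_End hN g b (hC.trans (mem_Win.1 hp).1.1.1) (mem_Win.1 hp).1.2.1]]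
  refine (hL _ _ _ T _ hT (hM N C K T hN hC hK hT) _).trans ?_
  rw [mul_assoc c]
  calc _ ≤ c * (54 * K ^ 2 * N * (C : ℝ) ^ 2) * (U * MM) :=
        mul_le_mul (mul_le_mul_of_nonneg_left h5 hc.le) h1 (sum_nonneg fun _ _ => sq_nonneg _)
          (by positivity)
    _ = _ := by ring

end Pool.Agent.MP_2a1f0e_nt.RF

end

section

set_option autoImplicit false
open Finset
open scoped ComplexConjugate
namespace Pool.Agent.MP_2a1f0e_nt.RF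
open GM

lemma fu_eq_Ker (hT : TriangStmt) (T : ℕ) (u : ℝ) :
    fu T (fun t => (2 * (T : ℝ) - |(t : ℝ)|) / (2 * T)) u =
      ((‖gs (2 * T) (u / (2 * Real.pi))‖ ^ 2 / (2 * T) : ℝ) : ℂ) := by
  have h := hT (2 * T) (u / (2 * Real.pi))
  rw [Complex.ofReal_div, ← h, sum_div]
  unfold fu trig IT
  have e : ((2 * T : ℕ) : ℤ) = 2 * T := by push_cast; ring
  rw [e]
  refine sum_congr rfl fun t _ => ?_
  have e2 : ex ((t : ℝ) * (u / (2 * Real.pi))) = Complex.exp (Complex.I * (t : ℂ) * (u : ℂ)) := by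
    unfold ex
    have : 2 * Real.pi * ((t : ℝ) * (u / (2 * Real.pi))) = t * u := by
      have := Real.pi_pos
      field_simp
    rw [this]
    congr 1
    push_cast
    ring
  rw [e2]
  push_cast
  ring

theorem ker_stmt (hT : TriangStmt) : KerStmt := by
  refine ⟨192, by norm_num, fun T u hT1 hu => ?_⟩
  have hT' : (1 : ℝ) ≤ T := by exact_mod_cast hT1
  have hp := Real.pi_gt_three
  have hp4 := Real.pi_le_four
  rw [fu_eq_Ker hT, Complex.norm_real, Real.norm_of_nonneg (by positivity)]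
  obtain ⟨x, hx⟩ : ∃ x, x = u / (2 * Real.pi) := ⟨_, rfl⟩
  rw [← hx]
  have hx1 : |x| ≤ 2 / 3 := by
    rw [hx, abs_div, abs_of_pos (by positivity : 0 < 2 * Real.pi), div_le_iff₀ (by positivity)]
    linarith
  have hx2 := abs_le.1 hx1
  have h := gs_sq_le' (2 * T) (x := x) (by linarith)
  have eL : ((2 * T : ℕ) : ℝ) = 2 * T := by push_cast; ring
  rw [eL] at h
  have T2 : (0 : ℝ) ≤ (2 * T) ^ 2 := by positivity
  have k1 : kp (2 * (2 * T) * (x - 1)) ≤ kp (2 * T * x) := by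
    apply kp_anti
    have : x ^ 2 ≤ 4 * (x - 1) ^ 2 := by nlinarith [hx2.1, hx2.2]
    have := mul_le_mul_of_nonneg_left this T2
    nlinarith
  have k2 : kp (2 * (2 * T) * x) ≤ kp (2 * T * x) := by
    apply kp_anti
    have := mul_nonneg T2 (sq_nonneg x)
    nlinarith
  have k3 : kp (2 * (2 * T) * (x + 1)) ≤ kp (2 * T * x) := by
    apply kp_anti
    have : x ^ 2 ≤ 4 * (x + 1) ^ 2 := by nlinarith [hx2.1, hx2.2]
    have := mul_le_mul_of_nonneg_left this T2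
    nlinarith
  have k4 : kp (2 * T * x) ≤ 4 ^ 2 * kp (T * u) := by
    have e : 2 * T * x = 1 / Real.pi * (T * u) := by rw [hx]; field_simp
    rw [e]
    refine kp_mul_le (by norm_num) ?_ _
    rw [abs_of_pos (by positivity), mul_one_div, le_div_iff₀ (by positivity)]
    linarith
  rw [div_le_iff₀ (by positivity)]
  refine h.trans ?_
  have k5 : kp (2 * (2 * T) * (x - 1)) + kp (2 * (2 * T) * x) + kp (2 * (2 * T) * (x + 1)) ≤
      48 * kp (T * u) := by linarith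
  have := mul_le_mul_of_nonneg_left k5 (by positivity : (0 : ℝ) ≤ 2 * (2 * T) ^ 2)
  refine this.trans (le_of_eq ?_)
  ring

end Pool.Agent.MP_2a1f0e_nt.RF

end

section

set_option autoImplicit false

open Finset
open scoped ComplexConjugate

namespace Pool.Agent.MP_2a1f0e_nt.RF

open GM

theorem sep_Farey {a q a' q' : ℕ} {q₀ : ℝ} (h : Nat.Coprime a q) (h' : Nat.Coprime a' q')
    (hq : 1 ≤ q) (hq' : 1 ≤ q') (h0 : (q : ℝ) ≤ q₀) (h0' : (q' : ℝ) ≤ q₀)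
    (hlt : |q₀ ^ 2 * ((a : ℝ) / q) - q₀ ^ 2 * ((a' : ℝ) / q')| < 1) : a = a' ∧ q = q' := by
  have p1 : (0 : ℝ) < q := by exact_mod_cast hq
  have p2 : (0 : ℝ) < q' := by exact_mod_cast hq'
  have e : q₀ ^ 2 * ((a : ℝ) / q) - q₀ ^ 2 * ((a' : ℝ) / q') =
      q₀ ^ 2 / (q * q') * (((a * q' : ℤ) - a' * q : ℤ) : ℝ) := by
    push_cast
    field_simp
  have h1 : 1 ≤ q₀ ^ 2 / (q * q') := by
    rw [le_div_iff₀ (by positivity)]
    nlinarith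
  rw [e, abs_mul, abs_of_nonneg (by linarith : 0 ≤ q₀ ^ 2 / (q * q'))] at hlt
  have h2 : |(((a * q' : ℤ) - a' * q : ℤ) : ℝ)| < 1 := by
    nlinarith [abs_nonneg (((a * q' : ℤ) - a' * q : ℤ) : ℝ)]
  rw [← Int.cast_abs] at h2
  have h3 : |((a * q' : ℤ) - a' * q : ℤ)| < 1 := by exact_mod_cast h2
  have h4 : a * q' = a' * q := by
    have := Int.abs_lt_one_iff.1 h3
    exact_mod_cast sub_eq_zero.1 this
  have d1 : q ∣ q' := h.symm.dvd_of_dvd_mul_left ⟨a', by rw [h4]; ring⟩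
  have d2 : q' ∣ q := h'.symm.dvd_of_dvd_mul_left ⟨a, by rw [← h4]; ring⟩
  have e2 := Nat.dvd_antisymm d1 d2
  subst e2
  exact ⟨Nat.eq_of_mul_eq_mul_right hq h4, rfl⟩

theorem farey_stmt : FareyStmt := by
  intro s q₀ α w hw h
  set y : ℕ × ℕ → ℝ := fun r => q₀ ^ 2 * ((r.1 : ℝ) / r.2) - q₀ ^ 2 * α with hy
  have y0 : ∀ r ∈ s, 0 ≤ y r := fun r hr => by
    have := mul_le_mul_of_nonneg_left (h r hr).2.2.2.1 (sq_nonneg q₀)
    simp only [hy]; linarith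
  have y1 : ∀ r ∈ s, y r ≤ w * q₀ ^ 2 := fun r hr => by
    have := mul_le_mul_of_nonneg_left (h r hr).2.2.2.2 (sq_nonneg q₀)
    simp only [hy]; linarith
  have hc : s.card ≤ (range (⌊w * q₀ ^ 2⌋₊ + 1)).card := by
    refine card_le_card_of_injOn (fun r => ⌊y r⌋₊) (fun r hr => ?_) (fun r hr r' hr' e => ?_)
    · simp only [coe_range, Set.mem_Iio]
      exact Nat.lt_succ_of_le (Nat.floor_mono (y1 r hr))
    · have a1 := Nat.floor_le (y0 r hr)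
      have a2 := Nat.floor_le (y0 r' hr')
      have b1 := Nat.lt_floor_add_one (y r)
      have b2 := Nat.lt_floor_add_one (y r')
      have e' : ⌊y r⌋₊ = ⌊y r'⌋₊ := e
      rw [e'] at a1 b1
      obtain ⟨c1, c2, c3, -⟩ := h r hr
      obtain ⟨d1, d2, d3, -⟩ := h r' hr'
      have := sep_Farey c1 d1 c2 d2 c3 d3 (by
        simp only [hy] at a1 a2 b1 b2
        rw [abs_lt]; constructor <;> linarith)
      exact Prod.ext this.1 this.2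
  rw [card_range] at hc
  have h2 : (s.card : ℝ) ≤ ⌊w * q₀ ^ 2⌋₊ + 1 := by exact_mod_cast hc
  have h3 := Nat.floor_le (show 0 ≤ w * q₀ ^ 2 by positivity)
  linarith

end Pool.Agent.MP_2a1f0e_nt.RF

end

section

set_option autoImplicit false

open Finset
open scoped ComplexConjugate

namespace Pool.Agent.MP_2a1f0e_nt.RF

open GM

theorem sel_stmt : SelStmt := by
  intro J L R D Y κ hL hLJ hD hY hR h4 h10 hκ hRκ hDL
  classical
  have hex : ∃ k : ℕ, 2 ≤ k ∧ R ≤ Y * D ^ (2 * k) := ⟨κ, hκ, hRκ⟩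
  obtain ⟨hk2, hk⟩ := Nat.find_spec hex
  refine ⟨Nat.find hex, hk2, Nat.find_min' hex ⟨hκ, hRκ⟩, hk, ?_⟩
  have hL3 : L ^ 3 ≤ D ^ 10 * Y ^ 2 := (pow_le_pow_left₀ hL hLJ 3).trans h10
  rcases hk2.eq_or_lt with h | h
  · rw [← h]
    refine abs_le_of_sq_le_sq' ?_ (by positivity) |>.2
    have h1 : L ^ 3 * L ≤ D ^ 10 * Y ^ 2 * L := mul_le_mul_of_nonneg_right hL3 hL
    have h2 : D ^ 8 * Y ^ 2 * (D ^ 2 * L) ≤ D ^ 8 * Y ^ 2 * R ^ 2 :=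
      mul_le_mul_of_nonneg_left hDL.le (by positivity)
    calc (L ^ 2) ^ 2 = L ^ 3 * L := by ring
      _ ≤ D ^ 8 * Y ^ 2 * (D ^ 2 * L) := h1.trans_eq (by ring)
      _ ≤ _ := h2.trans_eq (by ring)
  · obtain ⟨j, hj⟩ : ∃ j, Nat.find hex = j + 3 := ⟨Nat.find hex - 3, by omega⟩
    have hmin := Nat.find_min hex (show j + 2 < Nat.find hex by omega)
    have h1 : Y * D ^ (2 * (j + 2)) ≤ R := by
      by_contra hc
      exact hmin ⟨by omega, (not_le.1 hc).le⟩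
    rw [hj]
    have h2 : L ^ j ≤ (D ^ 4) ^ j := pow_le_pow_left₀ hL (hLJ.trans h4) j
    calc L ^ (j + 3) = L ^ 3 * L ^ j := by ring
      _ ≤ D ^ 10 * Y ^ 2 * (D ^ 4) ^ j := mul_le_mul hL3 h2 (by positivity) (by positivity)
      _ = Y * D ^ (2 * (j + 2)) * (Y * D ^ (2 * (j + 3))) := by ring
      _ ≤ _ := mul_le_mul_of_nonneg_right h1 (by positivity)

end Pool.Agent.MP_2a1f0e_nt.RF

end

section

set_option autoImplicit false

open Finset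
open scoped ComplexConjugate

namespace Pool.Agent.MP_2a1f0e_nt.RF

open GM

theorem step_stmt (hE : EdgeStmt) (hS : SSStmt) (hY : SYStmt) : StepStmt := by
  obtain ⟨c1, h1, hE⟩ := hE
  obtain ⟨c2, h2, hS⟩ := hS
  obtain ⟨c3, h3, hY⟩ := hY
  refine ⟨4 * (c1 + c2 + c3), by positivity, ?_⟩
  intro N T J C C' K E Y MM Z g hp hg hZ b hb
  have hY1 := hp.Y1
  have hE1 := hp.E1
  have hN : (0 : ℝ) < N := by exact_mod_cast hp.N1
  have hJ : (0 : ℝ) < J := by exact_mod_cast hp.J1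
  have hC : (0 : ℝ) < C := by exact_mod_cast hp.C1
  have hC' : (0 : ℝ) < C' := by exact_mod_cast hp.C1'
  have hK : (0 : ℝ) ≤ K := Nat.cast_nonneg K
  have hKE : (K : ℝ) ≤ E := by linarith [hp.KE]
  have hM : 0 ≤ MM := (sum_nonneg fun _ _ => sq_nonneg _).trans hg.sq
  have hZ0 : 0 ≤ Z := by
    have := (sum_nonneg fun _ _ => sq_nonneg _).trans (hZ b hb)
    rw [mul_assoc] at this
    exact nonneg_of_mul_nonneg_left this (by positivity)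
  have hP : 2 ≤ ⌈Y⌉₊ + 1 := Nat.succ_le_succ (Nat.one_le_ceil_iff.2 (by linarith))
  have a1 := hE N T J C C' K (⌈Y⌉₊ + 1) E Y MM g b hp hg hP
    (by push_cast; linarith [Nat.le_ceil Y])
    (by push_cast; linarith [Nat.ceil_lt_add_one (show 0 ≤ Y by linarith)]) hb
  have a2 := hS N T J C C' K _ E Y MM Z g b hp hg hP hb hZ
  have a3 := hY N T J C C' K _ E Y MM g b hp hg hP hb
  have a4 := norm_le_norm_add_norm_sub' (SY N T J C C' K (⌈Y⌉₊ + 1) g b)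
    (SS N T J C C' K (⌈Y⌉₊ + 1) g b)
  obtain ⟨R, hR, e⟩ : ∃ R, 0 ≤ R ∧ (N : ℝ) ^ 2 * MM / Y = R := ⟨_, by positivity, rfl⟩
  have e' : Err N J C C' Y MM = J * C * C' * R := by rw [← e, Err]; ring
  rw [e'] at a1 a2 a3
  rw [e]
  refine le_of_mul_le_mul_left (a3.trans ?_) (mul_pos hJ hC')
  calc _ ≤ 4 * K * N * C * (c2 * (K * J * C * C' * Z) +
        (c1 + c2 + c3) * E ^ 16 * (J * C * C' * R)) :=
        mul_le_mul_of_nonneg_left (by linarith) (by positivity)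
    _ = J * C' * ((4 * c2 * K ^ 2 * Z + 4 * (c1 + c2 + c3) * (K * E ^ 16) * R) * N * C ^ 2) := by
        ring
    _ ≤ J * C' * ((4 * (c1 + c2 + c3) * K ^ 2 * Z + 4 * (c1 + c2 + c3) * (E * E ^ 16) * R) *
        N * C ^ 2) := by
        gcongr
        linarith
    _ = _ := by ring

end Pool.Agent.MP_2a1f0e_nt.RF

end

section

set_option autoImplicit false

open Finset
open scoped ComplexConjugate

namespace Pool.Agent.MP_2a1f0e_nt.RF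

open GM

theorem down_Iter (hS : StepStmt) (m i : ℕ) : ∃ A : ℝ, 1 ≤ A ∧
    ∀ (N T ρ : ℕ) (J : ℕ → ℕ) (E Y MM Z : ℝ) (g : ℤ → ℝ), 0 ≤ Z → 1 ≤ E → 1 ≤ Y → 0 ≤ MM →
      (∀ j < i + m, Hp N T (J j) (ρ ^ j) (ρ ^ (j + 1)) (2 * 200 ^ j) E Y) → Hg N T g E Y MM →
      Th N T g (ρ ^ (i + m)) (2 * 200 ^ (i + m)) Z →
        Th N T g (ρ ^ i) (2 * 200 ^ i) (A * (Z + E ^ 17 * ((N : ℝ) ^ 2 * MM / Y))) := by
  obtain ⟨c, hc, hS⟩ := hS
  induction m generalizing i with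
  | zero =>
    refine ⟨1, le_rfl, fun N T ρ J E Y MM Z g hZ hE hY hM _ _ h => h.mono ?_⟩
    have : 0 ≤ E ^ 17 * ((N : ℝ) ^ 2 * MM / Y) := by positivity
    linarith
  | succ m ih =>
    obtain ⟨A, hA, ih⟩ := ih (i + 1)
    refine ⟨c * ((2 * 200 ^ i : ℕ) : ℝ) ^ 2 * A + c + 1, ?_,
      fun N T ρ J E Y MM Z g hZ hE hY hM hp hg h => ?_⟩
    · have : 0 ≤ c * ((2 * 200 ^ i : ℕ) : ℝ) ^ 2 * A := by positivity
      linarith
    have e : i + (m + 1) = i + 1 + m := by omega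
    have h1 := ih N T ρ J E Y MM Z g hZ hE hY hM (e ▸ hp) hg (e ▸ h)
    have e2 : 2 * 200 ^ (i + 1) = 200 * (2 * 200 ^ i) := by ring
    rw [e2] at h1
    refine (hS N T (J i) _ _ _ E Y MM _ g (hp i (by omega)) hg h1).mono ?_
    have hW : 0 ≤ E ^ 17 * ((N : ℝ) ^ 2 * MM / Y) := by positivity
    rw [mul_assoc c (E ^ 17)]
    generalize E ^ 17 * ((N : ℝ) ^ 2 * MM / Y) = W at hW ⊢
    nlinarith [mul_nonneg hc.le hZ]

theorem iter_stmt (hS : StepStmt) : IterStmt := by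
  intro n
  obtain ⟨A, hA, h⟩ := down_Iter hS n 0
  refine ⟨A, by linarith, fun N T ρ J E Y MM Z g hZ hE hY hM hp hg hT => ?_⟩
  simpa only [pow_zero, mul_one] using
    h N T ρ J E Y MM Z g hZ hE hY hM (by rwa [zero_add]) hg (by rwa [zero_add])

end Pool.Agent.MP_2a1f0e_nt.RF

end

section

set_option autoImplicit false
open Finset
open scoped ComplexConjugate
namespace Pool.Agent.MP_2a1f0e_nt.RF
open GM

theorem grow_stmt : GrowStmt := by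
  intro η B κ hη hB
  have B0 : 0 < B := by linarith
  set e := η / (B * ((κ : ℝ) ^ 2 + 2)) with he
  have e0 : 0 < e := by positivity
  obtain ⟨C, hC, hd⟩ := divisor_bound e0
  have a1 : 1 ≤ C ^ κ := one_le_pow₀ hC
  have a2 : 1 ≤ (1 + 1 / e) ^ 2 := one_le_pow₀ (le_add_of_nonneg_right (by positivity))
  have a3 : 1 ≤ B ^ (η / B) := Real.one_le_rpow hB (by positivity)
  refine ⟨C ^ κ * (1 + 1 / e) ^ 2 * B ^ (η / B),
    one_le_mul_of_one_le_of_one_le (one_le_mul_of_one_le_of_one_le a1 a2) a3,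
    fun N X hN hX h => ?_⟩
  have x1 : (1 : ℝ) ≤ X := by exact_mod_cast hX
  have x0 : (0 : ℝ) < X := by linarith
  have n0 : (0 : ℝ) ≤ N := Nat.cast_nonneg _
  set y := (X : ℝ) ^ e with hy
  have y1 : 1 ≤ y := Real.one_le_rpow x1 e0.le
  have hk : ∀ k : ℕ, y ^ k = (X : ℝ) ^ (e * k) := fun k => by
    rw [hy, ← Real.rpow_natCast, ← Real.rpow_mul x0.le]
  refine ⟨C * y ^ κ, ⟨one_le_mul_of_one_le_of_one_le hC (one_le_pow₀ y1), fun n hn => ?_⟩, ?_⟩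
  · refine (hd n).trans (mul_le_mul_of_nonneg_left ?_ (by linarith))
    rw [hk, mul_comm e, Real.rpow_mul x0.le, Real.rpow_natCast]
    exact Real.rpow_le_rpow (Nat.cast_nonneg _) (by exact_mod_cast hn) e0.le
  · have l1 : 1 + Real.log X ≤ (1 + 1 / e) * y := by
      have := Real.log_le_rpow_div x0.le e0
      rw [add_mul, one_mul, one_div_mul_eq_div]
      exact add_le_add y1 this
    have l0 : 0 ≤ 1 + Real.log X := by linarith [Real.log_nonneg x1]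
    have l2 : y ^ (κ ^ 2 + 2) ≤ B ^ (η / B) * (N : ℝ) ^ η := by
      have h1 : e * ((κ ^ 2 + 2 : ℕ) : ℝ) = η / B := by
        rw [he]
        push_cast
        field_simp
      rw [hk, h1]
      refine (Real.rpow_le_rpow x0.le h (by positivity)).trans_eq ?_
      rw [Real.mul_rpow B0.le (by positivity), ← Real.rpow_mul n0, mul_div_cancel₀ _ B0.ne']
    calc _ ≤ (C * y ^ κ) ^ κ * ((1 + 1 / e) * y) ^ 2 := by gcongr
      _ = C ^ κ * (1 + 1 / e) ^ 2 * y ^ (κ ^ 2 + 2) := by ring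
      _ ≤ C ^ κ * (1 + 1 / e) ^ 2 * (B ^ (η / B) * (N : ℝ) ^ η) := by gcongr
      _ = _ := by ring

end Pool.Agent.MP_2a1f0e_nt.RF

end
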