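import Pool.Agent.Mg.C853.G4b208c
import Pool.Agent.Mg.C853.G764d0f
import Pool.Agent.Mg.C853.G8af4af
import Pool.Agent.Mg.C853.Gee9e08
import Pool.Agent.Mg.C853.G1f4f60
import Pool.Agent.Mg.C853.Gd0cebc

section

set_option autoImplicit false

open Finset

namespace Pool.Agent.MP_2a1f0e_nt.LQ

open GM GM2 SQ

/-- the mean value bound for the `k`-th power -/
def MvK : Prop := ∀ (k : ℕ) (ε : ℝ), 0 < ε → ∃ K : ℝ, 0 < K ∧ ∀ (N T : ℕ) (V : ℝ) (b : ℕ → ℂ),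
  1 ≤ N → 0 < V → (∀ n, ‖b n‖ ≤ 1) →
    (DH.cnt N b T V : ℝ) ≤ K * (N : ℝ) ^ ε *
      (((T : ℝ) + (N : ℝ) ^ k) * (N : ℝ) ^ k / V ^ (2 * k))

/-- the large values bound for the `m`-th power -/
def LvM : Prop := ∀ (m : ℕ) (ε : ℝ), 0 < ε → ∃ K : ℝ, 0 < K ∧ ∀ (N T : ℕ) (V : ℝ) (b : ℕ → ℂ),
  1 ≤ N → N ^ m ≤ T → 0 < V → (∀ n, ‖b n‖ ≤ 1) →
    (DH.cnt N b T V : ℝ) ≤ K * (N : ℝ) ^ ε *
      (((N : ℝ) ^ m) ^ 2 / V ^ (2 * m) + √T * ((N : ℝ) ^ m) ^ 3 / V ^ (4 * m) +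
        T * ((N : ℝ) ^ m) ^ (50 / 21 : ℝ) / V ^ (4 * m))

/-- the reflection bound for the `m`-th power -/
def RfM : Prop := ∀ (m : ℕ) (ε : ℝ), 0 < ε → ∃ K : ℝ, 0 < K ∧ ∀ (N T : ℕ) (V : ℝ) (b : ℕ → ℂ),
  1 ≤ N → N ^ m ≤ T → T ≤ (N ^ m) ^ 2 → 0 < V → (∀ n, ‖b n‖ ≤ 1) →
    (DH.cnt N b T V : ℝ) ≤ K * (N : ℝ) ^ ε *
      (((N : ℝ) ^ m) ^ 2 / V ^ (2 * m) +
        (T : ℝ) ^ (1 / 7 : ℝ) * ((N : ℝ) ^ m) ^ (26 / 7 : ℝ) / V ^ (4 * m))

/-- transfer of a bound to powers -/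
lemma transfer (k : ℕ) {ε : ℝ} (hε : 0 < ε) (P : ℕ → ℕ → Prop) (G : ℕ → ℕ → ℝ → ℝ)
    (hG : ∀ δ : ℝ, 0 < δ → ∃ K : ℝ, 0 < K ∧ ∀ (M T : ℕ) (W : ℝ) (c : ℕ → ℂ), 1 ≤ M → P M T →
      0 < W → (∀ n, ‖c n‖ ≤ 1) → (DH.cnt M c T W : ℝ) ≤ K * (M : ℝ) ^ δ * G M T W) :
    ∃ K : ℝ, 0 < K ∧ ∀ (N T : ℕ) (V B : ℝ) (b : ℕ → ℂ), 1 ≤ N → 0 < V → 0 ≤ B →
      (∀ n, ‖b n‖ ≤ 1) → (∀ M : ℕ, N ^ k ≤ M → P M T) →
      (∀ (M : ℕ) (L : ℝ), 1 ≤ M → (M : ℝ) ≤ 2 ^ k * (N : ℝ) ^ k → 1 ≤ L →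
        G M T (V ^ k / L) ≤ L ^ 4 * B) → (DH.cnt N b T V : ℝ) ≤ K * (N : ℝ) ^ ε * B := by
  obtain ⟨δ, hδ, hδε⟩ : ∃ δ : ℝ, 0 < δ ∧ δ * ((k + k * k * 4 + 1 : ℕ) : ℝ) = ε :=
    ⟨ε / ((k + k * k * 4 + 1 : ℕ) : ℝ), by positivity, by
      have : (0 : ℝ) < ((k + k * k * 4 + 1 : ℕ) : ℝ) := by positivity
      field_simp⟩
  obtain ⟨K, hK, hG⟩ := hG δ hδ
  obtain ⟨C, hC, hsp⟩ := split_Hi9 k hδ
  refine ⟨(k + 1) * (K * ((2 : ℝ) ^ δ) ^ k * ((k + 1) * C) ^ 4), by positivity, ?_⟩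
  intro N T V B b hN hV hB hb hP hL
  obtain ⟨c, hc, hcnt⟩ := hsp N hN V hV b hb
  have hN0 : (0 : ℝ) < N := by exact_mod_cast hN
  have hε' : (N : ℝ) ^ ε = ((N : ℝ) ^ δ) ^ (k + k * k * 4 + 1) := by
    rw [← hδε, Real.rpow_mul_natCast hN0.le]
  obtain ⟨u, hu⟩ : ∃ u : ℝ, u = (N : ℝ) ^ δ := ⟨_, rfl⟩
  have hu1 : 1 ≤ u := by
    rw [hu]
    exact Real.one_le_rpow (by exact_mod_cast hN) hδ.le
  have hu0 : 0 < u := by linarith
  rw [hε', ← hu]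
  rw [← hu] at hcnt
  have hL1 : 1 ≤ ((k : ℝ) + 1) * (C * u ^ (k * k)) :=
    one_le_mul_of_one_le_of_one_le (le_add_of_nonneg_left (Nat.cast_nonneg k))
      (one_le_mul_of_one_le_of_one_le hC (one_le_pow₀ hu1))
  refine (sum_Hi9 (B := K * (((2 : ℝ) ^ δ) ^ k * u ^ k) *
    ((((k : ℝ) + 1) * (C * u ^ (k * k))) ^ 4 * B)) (hcnt T) fun j hj => ?_).trans ?_
  · have hM : 1 ≤ 2 ^ j * N ^ k := Nat.succ_le_of_lt (by positivity)
    have a1 := pc_Hi9 k j N hj hδ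
    rw [← hu] at a1
    have a2 : ((2 ^ j * N ^ k : ℕ) : ℝ) ≤ 2 ^ k * (N : ℝ) ^ k := by
      push_cast
      exact mul_le_mul_of_nonneg_right (pow_le_pow_right₀ one_le_two hj) (by positivity)
    refine (hG _ T _ (c j) hM (hP _ (Nat.le_mul_of_pos_left _ (by positivity))) (by positivity)
      (hc j)).trans ?_
    refine (mul_le_mul_of_nonneg_left (hL _ _ hM a2 hL1) (by positivity)).trans ?_
    exact mul_le_mul_of_nonneg_right (mul_le_mul_of_nonneg_left a1 hK.le) (by positivity)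
  · have a3 : u ^ (k + k * k * 4) ≤ u ^ (k + k * k * 4 + 1) :=
      pow_le_pow_right₀ hu1 (Nat.le_succ _)
    calc _ = (k + 1) * (K * ((2 : ℝ) ^ δ) ^ k * ((k + 1) * C) ^ 4) * u ^ (k + k * k * 4) * B := by
          ring
      _ ≤ _ := by gcongr

theorem mvK (hM : MvStmt) : MvK := by
  intro k ε hε
  obtain ⟨K, hK, h⟩ := transfer k hε (fun _ _ => True) (fun M T W => ((T : ℝ) + M) * M / W ^ 2)
    fun δ hδ => by
      obtain ⟨K, hK, hM⟩ := hM δ hδ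
      exact ⟨K, hK, fun M T W c h1 _ h2 h3 => (hM M T W c h1 h2 h3).1⟩
  refine ⟨K * (2 ^ k) ^ 2, by positivity, fun N T V b hN hV hb => ?_⟩
  refine (h N T V ((2 ^ k) ^ 2 * (((T : ℝ) + (N : ℝ) ^ k) * (N : ℝ) ^ k / V ^ (2 * k))) b hN hV
    (by positivity) hb (fun _ _ => trivial) fun M L _ hM hL => ?_).trans_eq (by ring)
  have hA : (1 : ℝ) ≤ 2 ^ k := one_le_pow₀ one_le_two
  have hT : (T : ℝ) ≤ 2 ^ k * T := le_mul_of_one_le_left (Nat.cast_nonneg T) hA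
  have hL2 : L ^ 2 ≤ L ^ 4 := pow_le_pow_right₀ hL (by norm_num)
  have hL0 : 0 < L := by linarith
  calc ((T : ℝ) + M) * M / (V ^ k / L) ^ 2 = L ^ 2 * (((T : ℝ) + M) * M / V ^ (2 * k)) := by
        field_simp
        ring
    _ ≤ L ^ 4 * ((2 ^ k * (T : ℝ) + 2 ^ k * (N : ℝ) ^ k) * (2 ^ k * (N : ℝ) ^ k) / V ^ (2 * k)) := by
        gcongr
    _ = _ := by ring

theorem lvM (hI : GM4.Int4Stmt) : LvM := by
  intro m ε hε
  obtain ⟨K, hK, h⟩ := transfer m hε (fun _ _ => True) (fun M T W => (M : ℝ) ^ 2 / W ^ 2 +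
      √((T : ℝ) + M) * (M : ℝ) ^ 3 / W ^ 4 + ((T : ℝ) + M) * (M : ℝ) ^ (50 / 21 : ℝ) / W ^ 4)
    fun δ hδ => by
      obtain ⟨K, hK, hI⟩ := hI δ hδ
      refine ⟨K, hK, fun M T W c h1 _ h2 h3 => ?_⟩
      have m1 := (le_div_iff₀ (by positivity)).2 ((cnt_mass_One9 M (T + M) c h2).trans
        (hI M (T + M) h1 (Nat.le_add_left M T) c h3 W h2))
      refine le_trans (Nat.cast_le.2 (DH.cnt_mono _ _ (Nat.le_add_right T M) le_rfl))
        (m1.trans_eq ?_)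
      push_cast
      field_simp
      ring
  refine ⟨K * (2 * 2 ^ m) ^ 4, by positivity, fun N T V b hN hT hV hb => ?_⟩
  refine (h N T V ((2 * 2 ^ m) ^ 4 * (((N : ℝ) ^ m) ^ 2 / V ^ (2 * m) +
    √T * ((N : ℝ) ^ m) ^ 3 / V ^ (4 * m) + T * ((N : ℝ) ^ m) ^ (50 / 21 : ℝ) / V ^ (4 * m))) b hN
    hV (by positivity) hb (fun _ _ => trivial) fun M L hM1 hM hL => ?_).trans_eq (by ring)
  have hT' : (N : ℝ) ^ m ≤ T := by exact_mod_cast hT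
  have hX : 0 ≤ (N : ℝ) ^ m := by positivity
  have e2 : V ^ (2 * m) = (V ^ m) ^ 2 := by ring
  have e4 : V ^ (4 * m) = (V ^ m) ^ 4 := by ring
  have hW : 0 < V ^ m := by positivity
  rw [e2, e4]
  generalize (N : ℝ) ^ m = X at *
  generalize V ^ m = W at *
  have hA : (1 : ℝ) ≤ 2 ^ m := one_le_pow₀ one_le_two
  obtain ⟨A, hA'⟩ : ∃ A : ℝ, A = 2 * 2 ^ m := ⟨_, rfl⟩
  have hA1 : 1 ≤ A := by linarith
  have hL0 : 0 < L := by linarith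
  have hT0 : (0 : ℝ) ≤ T := Nat.cast_nonneg T
  have hM0 : (0 : ℝ) ≤ M := Nat.cast_nonneg M
  have b1 : (M : ℝ) ≤ A * X := by rw [hA']; nlinarith
  have b2 : (T : ℝ) + M ≤ A * T := by rw [hA']; nlinarith
  have b3 : √((T : ℝ) + M) ≤ A * √T := by
    refine (Real.sqrt_le_sqrt (b2.trans ?_)).trans_eq
      ((Real.sqrt_mul (sq_nonneg A) T).trans (by rw [Real.sqrt_sq (by linarith)]))
    exact mul_le_mul_of_nonneg_right (by nlinarith) hT0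
  have b4 : (M : ℝ) ^ (50 / 21 : ℝ) ≤ A ^ 3 * X ^ (50 / 21 : ℝ) := by
    refine (Real.rpow_le_rpow hM0 b1 (by norm_num)).trans ?_
    rw [Real.mul_rpow (by linarith) hX]
    refine mul_le_mul_of_nonneg_right ?_ (by positivity)
    exact (Real.rpow_le_rpow_of_exponent_le hA1 (z := ((3 : ℕ) : ℝ)) (by norm_num)).trans_eq
      (Real.rpow_natCast _ 3)
  have b5 : L ^ 2 ≤ L ^ 4 := pow_le_pow_right₀ hL (by norm_num)
  have b6 : A ^ 2 ≤ A ^ 4 := pow_le_pow_right₀ hA1 (by norm_num)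
  rw [← hA']
  have c1 : (M : ℝ) ^ 2 / (W / L) ^ 2 ≤ L ^ 4 * (A ^ 4 * (X ^ 2 / W ^ 2)) := by
    calc (M : ℝ) ^ 2 / (W / L) ^ 2 = L ^ 2 * ((M : ℝ) ^ 2 / W ^ 2) := by field_simp
      _ ≤ L ^ 4 * ((A * X) ^ 2 / W ^ 2) := by gcongr
      _ = L ^ 4 * (A ^ 2 * (X ^ 2 / W ^ 2)) := by ring
      _ ≤ _ := by gcongr
  have c2 : √((T : ℝ) + M) * (M : ℝ) ^ 3 / (W / L) ^ 4 ≤
      L ^ 4 * (A ^ 4 * (√T * X ^ 3 / W ^ 4)) := by
    calc √((T : ℝ) + M) * (M : ℝ) ^ 3 / (W / L) ^ 4 =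
          L ^ 4 * (√((T : ℝ) + M) * (M : ℝ) ^ 3 / W ^ 4) := by field_simp
      _ ≤ L ^ 4 * (A * √T * (A * X) ^ 3 / W ^ 4) := by gcongr
      _ = _ := by ring
  have c3 : ((T : ℝ) + M) * (M : ℝ) ^ (50 / 21 : ℝ) / (W / L) ^ 4 ≤
      L ^ 4 * (A ^ 4 * (T * X ^ (50 / 21 : ℝ) / W ^ 4)) := by
    calc ((T : ℝ) + M) * (M : ℝ) ^ (50 / 21 : ℝ) / (W / L) ^ 4 =
          L ^ 4 * (((T : ℝ) + M) * (M : ℝ) ^ (50 / 21 : ℝ) / W ^ 4) := by field_simp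
      _ ≤ L ^ 4 * (A * T * (A ^ 3 * X ^ (50 / 21 : ℝ)) / W ^ 4) := by gcongr
      _ = _ := by ring
  linarith

theorem rfM (hC : RF.CoreStmt) (hM : RF.MassStmt) : RfM := by
  intro m ε hε
  obtain ⟨K, hK, h⟩ := transfer m hε (fun M T => T ≤ M ^ 2) (fun M T W => (M : ℝ) ^ 2 / W ^ 2 +
      ((T : ℝ) + M) ^ (1 / 7 : ℝ) * (M : ℝ) ^ (26 / 7 : ℝ) / W ^ 4)
    fun δ hδ => by
      obtain ⟨K1, hK1, h1⟩ := hC δ hδ
      obtain ⟨K2, hK2, h2⟩ := hM δ hδ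
      refine ⟨K1 + K2, by positivity, fun M T W c hM hT hW hc => ?_⟩
      have s1 : M ≤ max T M := le_max_right _ _
      have s2 : max T M ≤ M ^ 2 := max_le hT (Nat.le_self_pow two_ne_zero M)
      have s3 : ((max T M : ℕ) : ℝ) ≤ (T : ℝ) + M := by
        exact_mod_cast max_le (Nat.le_add_right T M) (Nat.le_add_left M T)
      have e1 := RF.split_LV M c (Icc 0 ((max T M : ℕ) : ℤ)) W (√(M * √((max T M : ℕ) : ℝ))) hW
      have e2 := (RF.sub_LV M (max T M) c (√(M * √((max T M : ℕ) : ℝ))) (hM.trans s1)).trans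
        (h2 M _ hM s1 s2 c hc)
      have e3 := h1 M _ hM s1 s2 c hc
      have e4 : (M : ℝ) ^ (26 / 7 : ℝ) * ((max T M : ℕ) : ℝ) ^ (1 / 7 : ℝ) ≤
          ((T : ℝ) + M) ^ (1 / 7 : ℝ) * (M : ℝ) ^ (26 / 7 : ℝ) := by
        rw [mul_comm]
        gcongr
      have e5 := e3.trans (mul_le_mul_of_nonneg_left e4 (by positivity))
      have e6 := div_le_div_of_nonneg_right e5 (sq_nonneg W)
      have m1 := (le_div_iff₀ (by positivity)).2 ((cnt_mass_One9 M (max T M) c hW).trans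
        (e1.trans (add_le_add e2 e6)))
      refine le_trans (Nat.cast_le.2 (DH.cnt_mono _ _ (le_max_left T M) le_rfl)) (m1.trans ?_)
      have p0 : 0 ≤ (M : ℝ) ^ δ := by positivity
      have p1 : 0 ≤ ((T : ℝ) + M) ^ (1 / 7 : ℝ) * (M : ℝ) ^ (26 / 7 : ℝ) := by positivity
      generalize ((T : ℝ) + M) ^ (1 / 7 : ℝ) * (M : ℝ) ^ (26 / 7 : ℝ) = F at *
      generalize (M : ℝ) ^ δ = A at *
      have p2 : 0 ≤ K1 * (A * ((M : ℝ) ^ 2 / W ^ 2)) := by positivity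
      have p3 : 0 ≤ K2 * (A * (F / W ^ 4)) := by positivity
      have p4 : (K2 * A * (M : ℝ) ^ 2 + K1 * A * F / W ^ 2) / W ^ 2 =
          K2 * (A * ((M : ℝ) ^ 2 / W ^ 2)) + K1 * (A * (F / W ^ 4)) := by
        field_simp
      rw [p4]
      linarith
  refine ⟨K * (2 * 2 ^ m) ^ 5, by positivity, fun N T V b hN hT hT2 hV hb => ?_⟩
  refine (h N T V ((2 * 2 ^ m) ^ 5 * (((N : ℝ) ^ m) ^ 2 / V ^ (2 * m) +
    (T : ℝ) ^ (1 / 7 : ℝ) * ((N : ℝ) ^ m) ^ (26 / 7 : ℝ) / V ^ (4 * m))) b hN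
    hV (by positivity) hb (fun M hM => hT2.trans (Nat.pow_le_pow_left hM 2))
    fun M L hM1 hM hL => ?_).trans_eq (by ring)
  have hT' : (N : ℝ) ^ m ≤ T := by exact_mod_cast hT
  have hX : 0 ≤ (N : ℝ) ^ m := by positivity
  have e2 : V ^ (2 * m) = (V ^ m) ^ 2 := by ring
  have e4 : V ^ (4 * m) = (V ^ m) ^ 4 := by ring
  have hW : 0 < V ^ m := by positivity
  rw [e2, e4]
  generalize (N : ℝ) ^ m = X at *
  generalize V ^ m = W at *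
  have hA : (1 : ℝ) ≤ 2 ^ m := one_le_pow₀ one_le_two
  obtain ⟨A, hA'⟩ : ∃ A : ℝ, A = 2 * 2 ^ m := ⟨_, rfl⟩
  have hA1 : 1 ≤ A := by linarith
  have hL0 : 0 < L := by linarith
  have hT0 : (0 : ℝ) ≤ T := Nat.cast_nonneg T
  have hM0 : (0 : ℝ) ≤ M := Nat.cast_nonneg M
  have b1 : (M : ℝ) ≤ A * X := by rw [hA']; nlinarith
  have b2 : (T : ℝ) + M ≤ A * T := by rw [hA']; nlinarith
  have b3 : ((T : ℝ) + M) ^ (1 / 7 : ℝ) ≤ A * (T : ℝ) ^ (1 / 7 : ℝ) := by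
    refine (Real.rpow_le_rpow (by positivity) b2 (by norm_num)).trans ?_
    rw [Real.mul_rpow (by linarith) hT0]
    refine mul_le_mul_of_nonneg_right ?_ (by positivity)
    exact (Real.rpow_le_rpow_of_exponent_le hA1 (z := 1) (by norm_num)).trans_eq
      (Real.rpow_one _)
  have b4 : (M : ℝ) ^ (26 / 7 : ℝ) ≤ A ^ 4 * X ^ (26 / 7 : ℝ) := by
    refine (Real.rpow_le_rpow hM0 b1 (by norm_num)).trans ?_
    rw [Real.mul_rpow (by linarith) hX]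
    refine mul_le_mul_of_nonneg_right ?_ (by positivity)
    exact (Real.rpow_le_rpow_of_exponent_le hA1 (z := ((4 : ℕ) : ℝ)) (by norm_num)).trans_eq
      (Real.rpow_natCast _ 4)
  have b5 : L ^ 2 ≤ L ^ 4 := pow_le_pow_right₀ hL (by norm_num)
  have b6 : A ^ 2 ≤ A ^ 5 := pow_le_pow_right₀ hA1 (by norm_num)
  rw [← hA']
  have c1 : (M : ℝ) ^ 2 / (W / L) ^ 2 ≤ L ^ 4 * (A ^ 5 * (X ^ 2 / W ^ 2)) := by
    calc (M : ℝ) ^ 2 / (W / L) ^ 2 = L ^ 2 * ((M : ℝ) ^ 2 / W ^ 2) := by field_simp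
      _ ≤ L ^ 4 * ((A * X) ^ 2 / W ^ 2) := by gcongr
      _ = L ^ 4 * (A ^ 2 * (X ^ 2 / W ^ 2)) := by ring
      _ ≤ _ := by gcongr
  have c3 : ((T : ℝ) + M) ^ (1 / 7 : ℝ) * (M : ℝ) ^ (26 / 7 : ℝ) / (W / L) ^ 4 ≤
      L ^ 4 * (A ^ 5 * ((T : ℝ) ^ (1 / 7 : ℝ) * X ^ (26 / 7 : ℝ) / W ^ 4)) := by
    calc ((T : ℝ) + M) ^ (1 / 7 : ℝ) * (M : ℝ) ^ (26 / 7 : ℝ) / (W / L) ^ 4 =
          L ^ 4 * (((T : ℝ) + M) ^ (1 / 7 : ℝ) * (M : ℝ) ^ (26 / 7 : ℝ) / W ^ 4) := by field_simp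
      _ ≤ L ^ 4 * (A * (T : ℝ) ^ (1 / 7 : ℝ) * (A ^ 4 * X ^ (26 / 7 : ℝ)) / W ^ 4) := by gcongr
      _ = _ := by ring
  linarith

end Pool.Agent.MP_2a1f0e_nt.LQ

end

section

set_option autoImplicit false

open Finset

namespace Pool.Agent.MP_2a1f0e_nt.LQ

open GM GM2 SQ

/-- the admissible parameters -/
def Par (k m : ℕ) (θ y : ℝ) : Prop := m ≤ k ∧ k < 2 * m ∧ 0 ≤ θ ∧ θ ≤ 2 ∧
  (((8 * m - 4 * k - θ) * y ≤ θ * (2 * m - k) ∧
    (k = 2 ∨ (84 * m - 42 * k) * y ≤ θ * (34 * m - 21 * k))) ∨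
    (28 * m - 14 * k - 6 * θ) * y ≤ θ * (2 * m - k))

/-- the weak type bound -/
def WkStmt : Prop := ∀ (k m : ℕ) (θ y q ε : ℝ), Par k m θ y → q = θ + 2 * k → 0 < ε →
  ∃ K : ℝ, 0 < K ∧ ∀ (N T : ℕ) (V : ℝ) (b : ℕ → ℂ), 1 ≤ N → (T : ℝ) ≤ (N : ℝ) ^ (k + y) →
    0 < V → V ≤ N → (∀ n, ‖b n‖ ≤ 1) →
      (DH.cnt N b T V : ℝ) * V ^ q ≤ K * (N : ℝ) ^ ε * (N : ℝ) ^ q

lemma trm {n t X V α β q : ℝ} (j : ℕ) (hn : 0 < n) (ht : 0 < t) (hX : 0 < X) (hV : 0 < V)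
    (h : α * Real.log t + β * Real.log X + (q - j) * Real.log V ≤ q * Real.log n) :
    t ^ α * X ^ β / V ^ j * V ^ q ≤ n ^ q := by
  rw [← Real.rpow_natCast V j, Real.rpow_def_of_pos hn, Real.rpow_def_of_pos ht,
    Real.rpow_def_of_pos hX, Real.rpow_def_of_pos hV, Real.rpow_def_of_pos hV, ← Real.exp_add,
    ← Real.exp_sub, ← Real.exp_add, Real.exp_le_exp]
  linarith

lemma cross {z a w θ y α β γ : ℝ} (hθ : 0 < θ) (h1 : θ * w ≤ z) (h2 : z ≤ y * a) (ha : 0 ≤ a)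
    (hγ : 0 ≤ γ) (hα : 0 ≤ α) (h : (α * θ + γ) * y ≤ β * θ) : α * z - β * a + γ * w ≤ 0 := by
  refine le_of_mul_le_mul_left ?_ hθ
  have k1 := mul_le_mul_of_nonneg_left h1 hγ
  have k2 := mul_le_mul_of_nonneg_left h2 (show 0 ≤ α * θ + γ by positivity)
  have k3 := mul_le_mul_of_nonneg_right h ha
  nlinarith

lemma fin_wk {c K K' x F W y s : ℝ} (h : c ≤ K * x * F) (hW : 0 ≤ W) (hF : F * W ≤ s * y)
    (hK : 0 ≤ K) (hx : 0 ≤ x) (hy : 0 ≤ y) (hs : K * s ≤ K') : c * W ≤ K' * x * y := by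
  calc c * W ≤ K * x * F * W := mul_le_mul_of_nonneg_right h hW
    _ = K * x * (F * W) := by ring
    _ ≤ K * x * (s * y) := by gcongr
    _ = K * s * x * y := by ring
    _ ≤ _ := by gcongr

theorem wk_stmt (hM : MvK) (hL : LvM) (h6 : Int6Stmt) (hR : RfM) : WkStmt := by
  rintro k m θ y q ε ⟨p1, p2, θ0, θ2, p5⟩ eq hε
  obtain ⟨K1, hK1, hM⟩ := hM k ε hε
  obtain ⟨K2, hK2, hL⟩ := hL m ε hε
  obtain ⟨K3, hK3, h6⟩ := h6 ε hε
  obtain ⟨K4, hK4, hR⟩ := hR m ε hε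
  refine ⟨3 * (K1 + K2 + K3 + K4), by positivity, fun N T V b hN hT hV hVN hb => ?_⟩
  have n1 : (1 : ℝ) ≤ N := by exact_mod_cast hN
  have n0 : (0 : ℝ) < N := by linarith
  have hx : 0 ≤ (N : ℝ) ^ ε := by positivity
  have hy : 0 ≤ (N : ℝ) ^ q := by positivity
  have hW : 0 ≤ V ^ q := by positivity
  have a0 : 0 ≤ Real.log N := Real.log_natCast_nonneg N
  have v1 : Real.log V ≤ Real.log N := Real.log_le_log hV hVN
  have q1 : (m : ℝ) ≤ k := by exact_mod_cast p1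
  have q2 : (k : ℝ) + 1 ≤ 2 * m := by exact_mod_cast p2
  have hXk : (0 : ℝ) < (N : ℝ) ^ k := by positivity
  have hXm : (0 : ℝ) < (N : ℝ) ^ m := by positivity
  have d0 : (N : ℝ) ^ k * (N : ℝ) ^ k / V ^ (2 * k) * V ^ q ≤ (N : ℝ) ^ q := by
    have := trm (α := 1) (β := 1) (q := q) (2 * k) n0 hXk hXk hV (by
      rw [Real.log_pow, eq]
      push_cast
      nlinarith [mul_le_mul_of_nonneg_left v1 θ0])
    rwa [Real.rpow_one] at this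
  rcases le_or_gt T (N ^ k) with c0 | c0
  · refine fin_wk (s := 2) (hM N T V b hN hV hb) hW ?_ hK1.le hx hy (by linarith)
    have c1 : (T : ℝ) ≤ (N : ℝ) ^ k := by exact_mod_cast c0
    calc ((T : ℝ) + (N : ℝ) ^ k) * (N : ℝ) ^ k / V ^ (2 * k) * V ^ q
        ≤ ((N : ℝ) ^ k + (N : ℝ) ^ k) * (N : ℝ) ^ k / V ^ (2 * k) * V ^ q := by gcongr
      _ = 2 * ((N : ℝ) ^ k * (N : ℝ) ^ k / V ^ (2 * k) * V ^ q) := by ring
      _ ≤ _ := by linarith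
  have t0 : (0 : ℝ) < T := by exact_mod_cast (Nat.zero_le _).trans_lt c0
  have l2 : Real.log T ≤ (k + y) * Real.log N := by
    rw [← Real.log_rpow n0]
    exact Real.log_le_log t0 hT
  rcases le_or_gt (Real.log T + k * Real.log N + θ * Real.log V) (q * Real.log N)
    with c1 | c1
  · refine fin_wk (s := 2) (hM N T V b hN hV hb) hW ?_ hK1.le hx hy (by linarith)
    have d1 := trm (α := 1) (β := 1) (q := q) (2 * k) n0 t0 hXk hV (by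
      rw [Real.log_pow]
      push_cast
      rw [show q - 2 * k = θ by linarith]
      linarith)
    rw [Real.rpow_one, Real.rpow_one] at d1
    calc ((T : ℝ) + (N : ℝ) ^ k) * (N : ℝ) ^ k / V ^ (2 * k) * V ^ q
        = (T : ℝ) * (N : ℝ) ^ k / V ^ (2 * k) * V ^ q +
          (N : ℝ) ^ k * (N : ℝ) ^ k / V ^ (2 * k) * V ^ q := by ring
      _ ≤ _ := by linarith
  obtain ⟨a, ha⟩ : ∃ a, a = Real.log N := ⟨_, rfl⟩
  obtain ⟨z, hz⟩ : ∃ z, z = Real.log T - k * a := ⟨_, rfl⟩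
  obtain ⟨w, hw⟩ : ∃ w, w = a - Real.log V := ⟨_, rfl⟩
  have eT : Real.log T = z + k * a := by linarith
  have eV : Real.log V = a - w := by linarith
  rw [← ha] at a0 v1 l2 c1
  have w0 : 0 ≤ w := by linarith
  have k1 : θ * w < z := by
    rw [eT, eV, eq] at c1
    linarith
  have k2 : z ≤ y * a := by
    rw [hz]
    linarith
  have y0 : 0 < y := by
    by_contra hc
    nlinarith [mul_nonneg (neg_nonneg.2 (not_lt.1 hc)) a0, mul_nonneg θ0 w0]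
  have θp : 0 < θ := by
    refine θ0.lt_of_ne fun h => ?_
    rw [← h, zero_mul] at p5
    rcases p5 with ⟨p5, -⟩ | p5
    · linarith [mul_pos (show 0 < 8 * (m : ℝ) - 4 * k - 0 by linarith) y0]
    · linarith [mul_pos (show 0 < 28 * (m : ℝ) - 14 * k - 6 * 0 by linarith) y0]
  have c2 : N ^ m ≤ T := (Nat.pow_le_pow_right hN p1).trans c0.le
  have d4 := trm (α := 0) (β := 2) (q := q) (2 * m) n0 t0 hXm hV (by
    rw [Real.log_pow, ← ha, eV, eq]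
    push_cast
    nlinarith [mul_nonneg (show 0 ≤ θ + 2 * k - 2 * m by linarith) w0])
  rw [Real.rpow_zero, one_mul, Real.rpow_two] at d4
  rcases p5 with ⟨hA, rfl | hB⟩ | hA
  · have m2 : m = 2 := by omega
    subst m2
    push_cast at *
    refine fin_wk (s := 3) (h6 N T V b hN hV hb) hW ?_ hK3.le hx hy (by linarith)
    have e1 := cross (α := 3 / 4) (β := 1 / 2) (γ := 2 - θ) θp k1.le k2 a0 (by linarith)
      (by norm_num) (by linarith)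
    have e2 := cross (α := 1) (β := 1) (γ := 2 - θ) θp k1.le k2 a0 (by linarith)
      (by norm_num) (by nlinarith [mul_nonneg (sub_nonneg.2 θ2) y0.le])
    have d1 := trm (α := 0) (β := 4) (q := q) 4 n0 t0 n0 hV (by
      rw [← ha, eV, eq]
      push_cast
      nlinarith [mul_nonneg θ0 w0])
    have d2 := trm (α := 3 / 4) (β := 4) (q := q) 6 n0 t0 n0 hV (by
      rw [← ha, eV, eT, eq]
      push_cast
      linarith)
    have d3 := trm (α := 1) (β := 3) (q := q) 6 n0 t0 n0 hV (by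
      rw [← ha, eV, eT, eq]
      push_cast
      linarith)
    rw [Real.rpow_zero, one_mul, Real.rpow_ofNat] at d1
    rw [Real.rpow_ofNat] at d2
    rw [Real.rpow_one, Real.rpow_ofNat] at d3
    rw [add_div, add_mul, add_mul]
    linarith
  · refine fin_wk (s := 3) (hL N T V b hN c2 hV hb) hW ?_ hK2.le hx hy (by linarith)
    have e1 := cross (α := 1 / 2) (β := m - k / 2) (γ := 4 * m - 2 * k - θ) θp k1.le k2 a0
      (by linarith) (by norm_num) (by linarith)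
    have e2 := cross (α := 1) (β := 34 / 21 * m - k) (γ := 4 * m - 2 * k - θ) θp k1.le k2 a0
      (by linarith) (by norm_num) (by linarith)
    have d2 := trm (α := 1 / 2) (β := 3) (q := q) (4 * m) n0 t0 hXm hV (by
      rw [Real.log_pow, ← ha, eV, eT, eq]
      push_cast
      linarith)
    have d3 := trm (α := 1) (β := 50 / 21) (q := q) (4 * m) n0 t0 hXm hV (by
      rw [Real.log_pow, ← ha, eV, eT, eq]
      push_cast
      linarith)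
    rw [← Real.sqrt_eq_rpow, Real.rpow_ofNat] at d2
    rw [Real.rpow_one] at d3
    rw [add_mul, add_mul]
    linarith
  · have y1 : (k : ℝ) + y ≤ ((2 * m : ℕ) : ℝ) := by
      push_cast
      by_contra hc
      have hc := not_le.1 hc
      have k3 := mul_nonneg (show 0 ≤ 28 * (m : ℝ) - 14 * k - 6 * θ - 2 by linarith) y0.le
      have k4 := mul_nonneg (sub_nonneg.2 θ2) (show 0 ≤ 2 * (m : ℝ) - k by linarith)
      linarith
    have c3 : T ≤ (N ^ m) ^ 2 := by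
      have := hT.trans (Real.rpow_le_rpow_of_exponent_le n1 y1)
      rw [Real.rpow_natCast, mul_comm, pow_mul] at this
      exact_mod_cast this
    refine fin_wk (s := 2) (hR N T V b hN c2 c3 hV hb) hW ?_ hK4.le hx hy (by linarith)
    have e1 := cross (α := 1 / 7) (β := (2 * m - k) / 7) (γ := 4 * m - 2 * k - θ) θp k1.le k2 a0
      (by linarith) (by norm_num) (by linarith)
    have d2 := trm (α := 1 / 7) (β := 26 / 7) (q := q) (4 * m) n0 t0 hXm hV (by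
      rw [Real.log_pow, ← ha, eV, eT, eq]
      push_cast
      linarith)
    rw [add_mul]
    linarith

end Pool.Agent.MP_2a1f0e_nt.LQ

end

section

set_option autoImplicit false

open Finset

namespace Pool.Agent.MP_2a1f0e_nt.LQ

open GM GM2 SQ

lemma layer {x n q : ℝ} (J : ℕ) (hx : 0 ≤ x) (hn : 0 < n) (h2 : x ≤ 2 * n) (hJ : n ≤ 2 ^ J)
    (hq : 0 ≤ q) :
    x ^ q ≤ 1 + ∑ j ∈ range (J + 1), if n / 2 ^ j ≤ x then (2 * (n / 2 ^ j)) ^ q else 0 := by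
  have h0 : ∀ j ∈ range (J + 1),
      0 ≤ if n / 2 ^ j ≤ x then (2 * (n / 2 ^ j)) ^ q else (0 : ℝ) := fun j _ => by
    split_ifs
    · positivity
    · exact le_rfl
  by_cases h : n / 2 ^ J ≤ x
  · have hex : ∃ j : ℕ, n / 2 ^ j ≤ x := ⟨J, h⟩
    have h1 := Nat.find_spec hex
    have h3 : Nat.find hex ≤ J := Nat.find_min' hex h
    have h4 : x ≤ 2 * (n / 2 ^ Nat.find hex) := by
      rcases hf : Nat.find hex with _ | i
      · simpa using h2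
      · have := not_le.1 (Nat.find_min hex (show i < Nat.find hex by omega))
        refine this.le.trans_eq ?_
        field_simp
        ring
    have h5 := single_le_sum h0 (mem_range.2 (Nat.lt_succ_of_le h3))
    rw [if_pos h1] at h5
    have h6 := Real.rpow_le_rpow hx h4 hq
    linarith
  · have h1 : x ≤ 1 := (not_le.1 h).le.trans ((div_le_one (by positivity)).2 hJ)
    have h3 := Real.rpow_le_one hx h1 hq
    have h4 := sum_nonneg h0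
    linarith

lemma card_le_cnt (N T : ℕ) (b : ℕ → ℂ) (V : ℝ) :
    ((Icc 1 T).filter fun t : ℕ => V ≤ ‖DP N b t‖).card ≤ DH.cnt N b T V := by
  unfold DH.cnt
  refine card_le_card_of_injOn (fun t : ℕ => (t : ℤ)) (fun t ht => ?_)
    fun s _ t _ h => Nat.cast_injective (R := ℤ) h
  rw [mem_coe, mem_filter, mem_Icc] at ht ⊢
  refine ⟨⟨Nat.cast_nonneg t, Nat.cast_le.2 ht.1.2⟩, ?_⟩
  rw [Int.cast_natCast]
  exact ht.2

lemma sum_le_of_weak {N T : ℕ} {b : ℕ → ℂ} {q B : ℝ} (hN : 1 ≤ N) (hb : ∀ n, ‖b n‖ ≤ 1)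
    (hq : 0 ≤ q) (h : ∀ V : ℝ, 0 < V → V ≤ N → (DH.cnt N b T V : ℝ) * V ^ q ≤ B) :
    ∑ t ∈ Icc 1 T, ‖DP N b t‖ ^ q ≤ T + (Nat.log 2 N + 2) * (2 ^ q * B) := by
  have n1 : (1 : ℝ) ≤ N := by exact_mod_cast hN
  have n0 : (0 : ℝ) < N := by linarith
  have hJ : (N : ℝ) ≤ 2 ^ (Nat.log 2 N + 1) := by
    exact_mod_cast (Nat.lt_pow_succ_log_self one_lt_two N).le
  have h2 : ∀ t : ℝ, ‖DP N b t‖ ≤ 2 * N := fun t => (norm_DP_le N b hb t).trans (by linarith)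
  refine (sum_le_sum fun (t : ℕ) _ =>
    layer (Nat.log 2 N + 1) (norm_nonneg _) n0 (h2 (t : ℝ)) hJ hq).trans ?_
  rw [sum_add_distrib, sum_comm, sum_const, Nat.card_Icc, Nat.add_sub_cancel, nsmul_eq_mul, mul_one]
  refine add_le_add le_rfl ((sum_le_card_nsmul _ _ (2 ^ q * B) fun j _ => ?_).trans_eq ?_)
  · have hV : 0 < (N : ℝ) / 2 ^ j := by positivity
    rw [← sum_filter, sum_const, nsmul_eq_mul, Real.mul_rpow (by norm_num) hV.le, mul_left_comm]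
    refine mul_le_mul_of_nonneg_left (le_trans ?_ (h _ hV
      (div_le_self n0.le (one_le_pow₀ one_le_two)))) (by positivity)
    exact mul_le_mul_of_nonneg_right (Nat.cast_le.2 (card_le_cnt N T b _)) (by positivity)
  · rw [card_range, nsmul_eq_mul]
    push_cast
    ring

/-- the moment bound -/
def MomStmt : Prop := ∀ (k m : ℕ) (θ y q ε : ℝ), Par k m θ y → q = θ + 2 * k → 0 < ε → ∃ K : ℝ,
  ∀ N T : ℕ, 1 ≤ N → (T : ℝ) ≤ (N : ℝ) ^ (k + y) → ∀ b : ℕ → ℂ, (∀ n, ‖b n‖ ≤ 1) →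
    ∑ t ∈ Icc 1 T, ‖DP N b t‖ ^ q ≤ K * (N : ℝ) ^ ε * ((N : ℝ) ^ q + (N : ℝ) ^ (q / 2) * (T : ℝ))

theorem mom_of_wk (h : WkStmt) : MomStmt := by
  intro k m θ y q ε hP eq hε
  have hq : 0 ≤ q := eq ▸ add_nonneg hP.2.2.1 (by positivity)
  obtain ⟨K, hK, h⟩ := h k m θ y q (ε / 2) hP eq (half_pos hε)
  obtain ⟨C, hC, hl⟩ := DH.exists_log_le (half_pos hε)
  refine ⟨1 + 2 * C * (2 ^ q * K), fun N T hN hT b hb => ?_⟩
  have n1 : (1 : ℝ) ≤ N := by exact_mod_cast hN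
  have n0 : (0 : ℝ) < N := by linarith
  refine (sum_le_of_weak hN hb hq fun V hV hVN => h N T V b hN hT hV hVN hb).trans ?_
  have e1 : (N : ℝ) ^ ε = (N : ℝ) ^ (ε / 2) * (N : ℝ) ^ (ε / 2) := by
    rw [← Real.rpow_add n0, add_halves]
  have u1 : 1 ≤ (N : ℝ) ^ (ε / 2) := Real.one_le_rpow n1 (half_pos hε).le
  have u2 : 1 ≤ (N : ℝ) ^ (q / 2) := Real.one_le_rpow n1 (by linarith)
  have u3 : 0 ≤ (N : ℝ) ^ q := by positivity
  have u4 : (0 : ℝ) ≤ T := Nat.cast_nonneg T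
  have u5 := hl N hN
  have u6 : (0 : ℝ) ≤ Nat.log 2 N := Nat.cast_nonneg _
  have u7 : (0 : ℝ) < 2 ^ q * K := by positivity
  rw [e1]
  generalize (N : ℝ) ^ (ε / 2) = u at *
  generalize (N : ℝ) ^ (q / 2) = s at *
  generalize (N : ℝ) ^ q = Y at *
  have v1 : (T : ℝ) ≤ s * T := le_mul_of_one_le_left u4 u2
  have v2 : (T : ℝ) ≤ u * u * (Y + s * T) :=
    le_trans (by linarith) (le_mul_of_one_le_left (by linarith)
      (one_le_mul_of_one_le_of_one_le u1 u1))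
  have v3 : ((Nat.log 2 N : ℝ) + 2) * (2 ^ q * (K * u * Y)) ≤
      2 * C * (2 ^ q * K) * (u * u) * (Y + s * T) := by
    calc ((Nat.log 2 N : ℝ) + 2) * (2 ^ q * (K * u * Y))
        = ((Nat.log 2 N : ℝ) + 2) * (2 ^ q * K * u * Y) := by ring
      _ ≤ 2 * (C * u) * (2 ^ q * K * u * (Y + s * T)) := by
        gcongr
        · linarith
        · linarith
      _ = _ := by ring
  linarith

end Pool.Agent.MP_2a1f0e_nt.LQ

end

section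

set_option autoImplicit false

namespace Pool.Agent.MP_2a1f0e_nt.LQ

theorem mom_all : MomStmt :=
  mom_of_wk (wk_stmt (mvK SQ.mv_all) (lvM GM4.int4_all) SQ.int6_all (rfM RF.core_all RF.mass_all))

end Pool.Agent.MP_2a1f0e_nt.LQ

end
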