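import Pool.Agent.MP_c853c5_nt.Y.Defs
import Pool.Agent.Mg.C853.G74fd53

/-!
Leaves with at most one sieved factor.
-/

set_option autoImplicit false

open Finset Filter

namespace Pool.Agent.MP_c853c5_nt.Y

open Pool.Agent.MP_c853c5_nt.S Pool.Agent.MP_c853c5_nt.D

def T2G (Y : Sys) : Prop := E2G Y → ∀ (ι : Type) [Fintype ι] (τ t η : ℝ) (K A : ℕ), 1 / 3 ≤ t → t < τ →
  τ ≤ 1 / 2 → 0 < η → ∃ γ : ℝ, 0 < γ ∧ ∀ᶠ x : ℝ in atTop,
    ∀ (pr : ι → Prop) (a : ι → ℝ) (b : ℝ) (N : ι → ℕ) (g : ι → AF) (h : AF), (∀ i, 0 ≤ a i) →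
      0 ≤ b → ∑ i, a i + b = 1 →
      Y.q2 τ η K (fun o : Option ι => o.elim False pr) (fun o => o.elim b a) →
      (∀ i, Slot (N i) (g i)) → Near x γ a N → (∀ i, pr i → ∃ P Q : ℕ, g i = prI P Q) →
      (∀ n, |h n| ≤ 1) → |Dl t x ((∏ i, g i) * h)| ≤ x / Real.log x ^ A

def T1G (Y : Sys) : Prop := E1G Y → ∀ (ι : Type) [Fintype ι] (τ t η : ℝ) (K : ℕ), 1 / 3 ≤ t → t < τ →
  τ ≤ 1 / 2 → 0 < η → η ≤ 1 / 1000 → ∃ γ : ℝ, 0 < γ ∧ ∀ᶠ x : ℝ in atTop,
    ∀ (a : ι → ℝ) (b : ℝ) (N : ι → ℕ) (g : ι → AF) (lam : AF), (∀ i, 0 ≤ a i) →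
      ∑ i, a i + b = 1 → Y.q1 τ η K a b → (∀ i, Slot (N i) (g i)) → Near x γ a N →
      (∀ d, |lam d| ≤ 1) → (∀ d, lam d ≠ 0 → (d : ℝ) ≤ x ^ lev τ t η) →
      |Dl t x ((∏ i, g i) * (lam * zt))| ≤ x ^ (1 - η / 10)

def T1RG (Y : Sys) : Prop := T1G Y → SZStmt → E1G Y → ∀ (ι : Type) [Fintype ι] (τ t η κ : ℝ) (K w : ℕ),
  1 / 3 ≤ t → t < τ → τ ≤ 1 / 2 → 0 < η → η ≤ 1 / 1000 → 13 ≤ w → 0 < κ →
  κ * (4 * w + 6) ≤ lev τ t η → ∃ γ : ℝ, 0 < γ ∧ ∀ᶠ x : ℝ in atTop,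
    ∀ (a : ι → ℝ) (b : ℝ) (N : ι → ℕ) (g : ι → AF), (∀ i, 0 ≤ a i) → ∑ i, a i + b = 1 →
      Y.q1 τ η K a b → (∀ i, Slot (N i) (g i)) → Near x γ a N → (∀ i n, 0 ≤ g i n) →
      |Dl t x ((∏ i, g i) * bf x (fr κ))| ≤ x ^ (1 - η / 20) +
        2 ^ 28 / 4 ^ w / κ * (∏ i, ms ⌊2 * x⌋₊ (g i)) * (x / Real.log x)

def AltG (Y : Sys) {r : ℕ} (τ η η' κ z : ℝ) (K : ℕ) (B : Fin r → Blk) : Prop :=
  ∀ (j : ℕ) (a : Fin r → ℝ) (q : Fin j → ℝ) (b : ℝ), InBox B a → (∀ i, κ ≤ q i ∧ q i ≤ z) →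
    0 ≤ b → ∑ i, a i + ∑ i, q i + b = 1 →
    Y.q1 τ η K (Sum.elim a q) b ∨
      Y.q2 τ η' K
        (fun o : Option (Fin r ⊕ Fin j) =>
          o.elim False (Sum.elim (fun i => (B i).IsP) fun _ => True))
        (fun o => o.elim b (Sum.elim a q))

def OneG (Y : Sys) : Prop := T2G Y → T1RG Y → T1G Y → SZStmt → NomStmt → VanStmt → PrStmt → E1G Y →
  E2G Y → ∀ (τ t η η' κ z : ℝ) (K w r : ℕ) (B : Fin r → Blk), 1 / 3 ≤ t → t < τ → τ ≤ 1 / 2 →
    0 < η → η ≤ 1 / 1000 → 0 < η' → 13 ≤ w → 0 < κ → κ * (4 * w + 6) ≤ lev τ t η →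
    AltG Y τ η η' κ z K B → ∀ j, OneOK t κ z (2 ^ 28 / 4 ^ w / κ) B j

variable {Y : Sys}

theorem yT1 (hY : Y.Sd) (hV : VanStmt) : T1G Y := by
  intro hE ι _ τ t η K ht htτ hτ hη hη'
  obtain ⟨γ₀, h0, hE⟩ := hE ι τ t η K ht htτ hτ hη hη'
  set k := Fintype.card ι with hk
  have hm : 0 < min γ₀ ((τ - t) / 8) := lt_min h0 (by linarith)
  set γ := min γ₀ ((τ - t) / 8) / (2 * (k + 1)) with hγ
  have g0 : 0 < γ := by positivity
  have g1 : (k + 1 : ℝ) * γ = min γ₀ ((τ - t) / 8) / 2 := by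
    rw [hγ]
    field_simp
  have k0 : (0 : ℝ) ≤ k * γ := by positivity
  have g2 : (k : ℝ) * γ + γ ≤ γ₀ / 2 := by linarith [min_le_left γ₀ ((τ - t) / 8)]
  have g3 : (k : ℝ) * γ + γ ≤ (τ - t) / 16 := by linarith [min_le_right γ₀ ((τ - t) / 8)]
  refine ⟨γ, g0, ?_⟩
  filter_upwards [hE, eventually_ge_atTop 3,
    (tendsto_rpow_atTop (half_pos h0)).eventually_ge_atTop 2,
    (tendsto_rpow_atTop (show 0 < (τ - t) / 8 by linarith)).eventually_ge_atTop (4 * 2 ^ k),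
    (isLittleO_log_rpow_atTop (show 0 < η / 20 by linarith)).bound
      (show (0 : ℝ) < 1 / 9 by norm_num)] with x hE x3 e1 e2 e3
  intro a b N g lam ha hab h1 hS hN hl hd
  have x0 : 0 < x := by linarith
  have x1 : 1 ≤ x := by linarith
  have hb := hY.big1 h1
  have s0 : 0 ≤ ∑ i, a i := sum_nonneg fun i _ => ha i
  have hlog : 1 ≤ Real.log x := by
    rw [Real.le_log_iff_exp_le x0]
    linarith [Real.exp_one_lt_d9]
  have hterm : ∀ d ∈ Icc 1 ⌊x ^ lev τ t η⌋₊, ∀ y : ℝ, 0 < y →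
      |Dl t x (sgl d * (∏ i, g i) * omz y)| ≤ x ^ (1 - η / 5) := by
    intro d hd' y hy
    by_cases hz : Dl t x (sgl d * (∏ i, g i) * omz y) = 0
    · rw [hz, abs_zero]
      positivity
    obtain ⟨m, l, m1, l1, l2, w1, w2⟩ := van_T1 hV x0 hy hz
    obtain ⟨d1, d2⟩ := mem_Icc.1 hd'
    have d3 : (1 : ℝ) ≤ d := by exact_mod_cast d1
    have d4 : (d : ℝ) ≤ x ^ ((τ - t) / 4) :=
      ((Nat.le_floor_iff (by positivity)).1 d2).trans
        (Real.rpow_le_rpow_of_exponent_le x1 (min_le_right _ _))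
    have p1 : ∏ i, (N i : ℝ) ≤ ∏ i, (m i : ℝ) :=
      prod_le_prod (fun i _ => by positivity) fun i _ => by
        exact_mod_cast ((hS i).2.2 _ (m1 i)).1
    have p2 : x ^ (∑ i, a i + k * -γ) ≤ ∏ i, (N i : ℝ) := by
      rw [← prod_T1 x0]
      exact prod_le_prod (fun i _ => by positivity) fun i _ => by
        rw [← sub_eq_add_neg]
        exact (hN i).1
    have p3 : ∏ i, (m i : ℝ) ≤ 2 ^ k * x ^ (∑ i, a i + k * γ) := by
      rw [← prod_T1 x0, hk, ← card_univ, ← prod_const, ← prod_mul_distrib]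
      refine prod_le_prod (fun i _ => by positivity) fun i _ => ?_
      have : (m i : ℝ) ≤ 2 * N i := by exact_mod_cast ((hS i).2.2 _ (m1 i)).2.le
      linarith [(hN i).2]
    have n0 : (0 : ℝ) ≤ ∏ i, (N i : ℝ) := by positivity
    have q1 : (d : ℝ) * (∏ i, (N i : ℝ)) * y ≤ 2 * x := by
      calc (d : ℝ) * (∏ i, (N i : ℝ)) * y = (∏ i, (N i : ℝ)) * (d * y) := by ring
        _ ≤ (∏ i, (m i : ℝ)) * (d * l) := by gcongr
        _ ≤ _ := w2
    have q2 : y ≤ x ^ (b + γ₀) := by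
      refine le_of_mul_le_mul_left ?_ (Real.rpow_pos_of_pos x0 (∑ i, a i + k * -γ))
      calc x ^ (∑ i, a i + k * -γ) * y ≤ (d : ℝ) * (∏ i, (N i : ℝ)) * y := by
            gcongr
            exact p2.trans (le_mul_of_one_le_left n0 d3)
        _ ≤ x ^ (γ₀ / 2) * x ^ (1 : ℝ) := by
            rw [Real.rpow_one]
            exact q1.trans (by gcongr)
        _ ≤ _ := by
            rw [← Real.rpow_add x0, ← Real.rpow_add x0]
            exact Real.rpow_le_rpow_of_exponent_le x1 (by linarith)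
    have q3 : x ^ (b - (τ - t) / 2) ≤ y := by
      refine le_of_mul_le_mul_left ?_
        (Real.rpow_pos_of_pos x0 ((τ - t) / 8 + (∑ i, a i + k * γ) + (τ - t) / 4))
      calc _ ≤ x ^ (1 : ℝ) := by
            rw [← Real.rpow_add x0]
            exact Real.rpow_le_rpow_of_exponent_le x1 (by linarith)
        _ ≤ 2 * ((∏ i, (m i : ℝ)) * (d * l)) := by
            rw [Real.rpow_one]
            linarith
        _ ≤ 2 * ((2 ^ k * x ^ (∑ i, a i + k * γ)) * (x ^ ((τ - t) / 4) * (2 * y))) := by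
            have : 0 ≤ l := by linarith
            gcongr
        _ = (4 * 2 ^ k) * x ^ (∑ i, a i + k * γ) * x ^ ((τ - t) / 4) * y := by ring
        _ ≤ _ := by
            rw [Real.rpow_add x0 _ ((τ - t) / 4), Real.rpow_add x0 ((τ - t) / 8)]
            gcongr
    refine hE a b N g d y (fun i => ⟨ha i, ?_⟩) (by linarith) h1 hS (fun i => (hN i).2.trans
      (Real.rpow_le_rpow_of_exponent_le x1 (by linarith))) q3 q2
      ((Real.one_le_rpow x1 (by linarith)).trans q3) d1 q1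
    linarith [single_le_sum (fun i _ => ha i) (mem_univ i)]
  rw [exp_T1 t _ lam (fun d h => Nat.le_floor (hd d h)) (big_T1 x3)]
  have c1 : (⌊x ^ lev τ t η⌋₊ : ℝ) ≤ x ^ (η / 20) :=
    (Nat.floor_le (by positivity)).trans (Real.rpow_le_rpow_of_exponent_le x1 (min_le_left _ _))
  have c2 : (⌈8 * Real.log x⌉₊ : ℝ) ≤ x ^ (η / 20) := by
    rw [Real.norm_of_nonneg (by linarith), Real.norm_of_nonneg (by positivity)] at e3
    linarith [Nat.ceil_lt_add_one (show 0 ≤ 8 * Real.log x by linarith)]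
  calc _ ≤ ∑ d ∈ Icc 1 ⌊x ^ lev τ t η⌋₊, ∑ j ∈ range ⌈8 * Real.log x⌉₊, x ^ (1 - η / 5) := by
        refine (abs_sum_le_sum_abs _ _).trans (sum_le_sum fun d hd' =>
          (abs_sum_le_sum_abs _ _).trans (sum_le_sum fun j _ => ?_))
        rw [abs_mul]
        exact (mul_le_of_le_one_left (abs_nonneg _) (hl d)).trans (hterm d hd' _ (yk_pos_T1 j))
    _ = (⌊x ^ lev τ t η⌋₊ : ℝ) * (⌈8 * Real.log x⌉₊ * x ^ (1 - η / 5)) := by simp
    _ ≤ x ^ (η / 20) * (x ^ (η / 20) * x ^ (1 - η / 5)) := by gcongr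
    _ = _ := by
        rw [← Real.rpow_add x0, ← Real.rpow_add x0]
        congr 1
        ring

theorem yT2 (hD : DyStmt) (hV : VanStmt) : T2G Y := by
  intro hE ι _ τ t η K A h1 h2 h3 h4
  obtain ⟨γ₀, g0, hE⟩ := hE (Option ι) τ t η K (A + 2) h1 h2 h3 h4
  have k0 : (0 : ℝ) ≤ Fintype.card ι := Nat.cast_nonneg _
  have g1 : (Fintype.card ι + 1 : ℝ) * (γ₀ / (2 * (Fintype.card ι + 1))) = γ₀ / 2 := by
    field_simp
  have g2 : 0 < γ₀ / (2 * (Fintype.card ι + 1)) := by positivity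
  refine ⟨_, g2, ?_⟩
  generalize γ₀ / (2 * (Fintype.card ι + 1)) = γ at g1 g2
  filter_upwards [hE, eventually_gt_atTop 1, E.ev_le_log 4,
    E.ev_const_le (4 * 2 ^ Fintype.card ι) (half_pos g0)] with x hE hx hl hc
  intro pr a b N g h ha hb hs hP hg hN hp hh
  have x0 : 0 < x := by linarith
  have l0 : 0 < Real.log x := by linarith
  obtain ⟨L, L1, L2⟩ := lev_T2 hx hl
  have s0 : 0 ≤ ∑ i, a i := sum_nonneg fun i _ => ha i
  have one : ∀ M : ℕ, 1 ≤ M → |Dl t x ((∏ i, g i) * dy M h)| ≤ x / Real.log x ^ (A + 2) := by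
    intro M hM
    by_cases z : ∀ Δ, SS x Δ ((∏ i, g i) * dy M h) = 0
    · simp only [Dl, SB, z, sub_zero, abs_zero]
      positivity
    obtain ⟨Δ, z⟩ := not_forall.1 z
    obtain ⟨m, l, m1, m2, m3, m4⟩ := hV ι x Δ g _ x0 z
    obtain ⟨b1, b2⟩ := size_T2 (γ₀ := γ₀) hx hs hN (by nlinarith) hc
      (fun i => (hg i).2.2 _ (m1 i)) ((slot_T2 hh hM).2.2 _ m2) m3 m4
    have key := hE (fun o : Option ι => o.elim False pr) (fun o => o.elim b a)
      (fun o => o.elim M N) (fun o => o.elim (dy M h) g) ?_ hP ?_ ?_ ?_ ?_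
    · rwa [Fintype.prod_option, mul_comm] at key
    · rintro (_ | i)
      · exact ⟨hb, show b ≤ 1 by linarith⟩
      · have := single_le_sum (fun i _ => ha i) (mem_univ i)
        exact ⟨ha i, show a i ≤ 1 by linarith⟩
    · rintro (_ | i)
      exacts [slot_T2 hh hM, hg i]
    · rintro (_ | i)
      · exact b1
      · have : γ ≤ γ₀ := by nlinarith
        exact ⟨(Real.rpow_le_rpow_of_exponent_le hx.le
            (show a i - γ₀ ≤ a i - γ by linarith)).trans (hN i).1,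
          (hN i).2.trans (Real.rpow_le_rpow_of_exponent_le hx.le
            (show a i + γ ≤ a i + γ₀ by linarith))⟩
    · rintro (_ | i)
      exacts [False.elim, hp i]
    · rw [Fintype.prod_option]
      exact b2
  rw [exp_T2 hD t x0 L1]
  refine (abs_sum_le_sum_abs _ _).trans ((sum_le_card_nsmul _ _ _ fun e _ =>
    one _ Nat.one_le_two_pow).trans ?_)
  rw [card_univ, Fintype.card_fun, Fintype.card_fin, Fintype.card_unit, pow_one, nsmul_eq_mul]
  refine (mul_le_mul_of_nonneg_right L2 (by positivity)).trans (le_of_eq ?_)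
  field_simp
  ring

theorem yT1R (hY : Y.Sd) : T1RG Y := by
  intro hT hS hE ι _ τ t η κ K w h1 h2 h3 h4 h5 hw hκ hl
  obtain ⟨γ₁, hγ₁, hT⟩ := hT hE ι τ t η K h1 h2 h3 h4 h5
  obtain ⟨C, hC, hS⟩ := hS
  obtain ⟨γ, hγ, g1, g2⟩ : ∃ γ : ℝ, 0 < γ ∧ γ ≤ γ₁ ∧ Fintype.card ι * γ ≤ 1 / 100 := by
    refine ⟨min γ₁ (1 / (100 * (Fintype.card ι + 1))), lt_min hγ₁ (by positivity),
      min_le_left _ _, (mul_le_mul_of_nonneg_left (min_le_right _ _) (Nat.cast_nonneg _)).trans ?_⟩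
    rw [mul_one_div, div_le_div_iff₀ (by positivity) (by norm_num)]
    linarith
  have l0 : 0 ≤ lev τ t η := le_trans (by positivity) hl
  have l1 : lev τ t η ≤ η / 20 := min_le_left _ _
  refine ⟨γ, hγ, ?_⟩
  filter_upwards [hT, eventually_ge_atTop 2, (tendsto_rpow_atTop hγ).eventually_ge_atTop 2,
    (tendsto_rpow_atTop hκ).eventually_ge_atTop 2,
    (tendsto_rpow_atTop (show 0 < η / 20 by positivity)).eventually_ge_atTop (2 + 2 * C)]
    with x hT x2 xγ xκ xη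
  intro a b N g ha hab hE hg hN g0
  have x1 : 1 ≤ x := by linarith
  have x0 : 0 < x := by linarith
  have hN' : Near x γ₁ a N := fun i =>
    ⟨(Real.rpow_le_rpow_of_exponent_le x1 (by linarith)).trans (hN i).1,
      (hN i).2.trans (Real.rpow_le_rpow_of_exponent_le x1 (by linarith))⟩
  have s1 : ∀ i n, g i n ≠ 0 → (n : ℝ) ≤ x ^ (a i + γ + γ) := fun i n hn => by
    have k : (n : ℝ) ≤ N i * 2 := by exact_mod_cast (mul_comm 2 (N i) ▸ ((hg i).2.2 n hn).2).le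
    rw [Real.rpow_add x0]
    exact k.trans (mul_le_mul (hN i).2 xγ (by norm_num) (by positivity))
  have s2 : (∏ i, x ^ (a i + γ + γ)) * x ^ lev τ t η ≤ x ^ (19 / 20 : ℝ) := by
    rw [← Real.rpow_sum_of_pos x0, ← Real.rpow_add x0]
    refine Real.rpow_le_rpow_of_exponent_le x1 ?_
    rw [sum_add_distrib, sum_add_distrib, sum_const, card_univ, nsmul_eq_mul]
    linarith [hY.big1 hE]
  have s3 : ∀ e : ℝ, e ≤ 1 → x ^ e ≤ ⌊2 * x⌋₊ := fun e he => by
    have k := Real.rpow_le_rpow_of_exponent_le x1 he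
    rw [Real.rpow_one] at k
    linarith [Nat.lt_floor_add_one (2 * x)]
  obtain ⟨up, gap, u1, v1, u2, v2, pt, hm⟩ := sieve_T1R x2 hw hκ xκ hl (s3 _ (by linarith))
  obtain ⟨m1, m2⟩ := long_T1R (fun i => Real.one_le_rpow x1 (by linarith [ha i]))
    (Real.one_le_rpow x1 l0) g0 (fun i => (hg i).2.1) s1 v1 v2 (s2.trans (s3 _ (by norm_num))) hm
  have n0 : Nn (∏ i, g i) := Nn.prod fun i _ => g0 i
  have d0 := abs_Dl_le t x0.le (f := (∏ i, g i) * bf x (fr κ)) (g := (∏ i, g i) * (up * zt))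
    (e := (∏ i, g i) * (gap * zt)) fun n hn => by
      have n1 : 0 < n := by
        have : (0 : ℝ) < n := by linarith [hn.1]
        exact_mod_cast this
      have k : ∀ d, d ∣ n → d ≠ 0 ∧ (d : ℝ) ≤ 2 * x := fun d hd =>
        ⟨(Nat.pos_of_dvd_of_pos hd n1).ne', le_trans (by exact_mod_cast Nat.le_of_dvd n1 hd) hn.2⟩
      have k1 := B.mul_apply_mono (g := bf x (fr κ)) (g' := up * zt) n0
        fun d hd => (pt d (k d hd).1 (k d hd).2).1
      have k2 := B.mul_apply_mono (g := up * zt) (g' := bf x (fr κ) + gap * zt) n0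
        fun d hd => (pt d (k d hd).1 (k d hd).2).2
      rw [mul_add, ArithmeticFunction.add_apply] at k2
      rw [abs_of_nonpos (by linarith)]
      linarith
  have d1 := hT a b N g up ha hab hE hg hN' u1 u2
  have d2 := hT a b N g gap ha hab hE hg hN' v1 v2
  obtain ⟨c, c0, c2, hc⟩ := hS x (x ^ (-(1 / 1000) : ℝ)) x1 (by positivity)
    (Real.rpow_le_one_of_one_le_of_nonpos x1 (by norm_num))
  have d3 := (abs_le.1 (hc ((∏ i, g i) * gap))).2
  rw [mul_assoc (∏ i, g i)] at d3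
  have P0 : 0 ≤ ∏ i, ms ⌊2 * x⌋₊ (g i) := prod_nonneg fun i _ => sum_nonneg fun m _ =>
    div_nonneg (g0 i m) (Nat.cast_nonneg _)
  have L0 : 0 < Real.log x := Real.log_pos (by linarith)
  have d4 : c * x * ms ⌊2 * x⌋₊ ((∏ i, g i) * gap) ≤
      2 * x * ((∏ i, ms ⌊2 * x⌋₊ (g i)) * (2 ^ 26 / 4 ^ w / κ / Real.log x)) :=
    (mul_le_mul_of_nonneg_left m1 (by positivity)).trans (by gcongr)
  have d5 : C / x ^ (-(1 / 1000) : ℝ) * ∑ m ∈ Icc 1 ⌊2 * x⌋₊, |((∏ i, g i) * gap) m| ≤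
      C * x ^ (1 - η / 10) := by
    refine (mul_le_mul_of_nonneg_left (m2.trans s2) (by positivity)).trans ?_
    rw [Real.rpow_neg x0.le, div_inv_eq_mul, mul_assoc, ← Real.rpow_add x0]
    exact mul_le_mul_of_nonneg_left (Real.rpow_le_rpow_of_exponent_le x1 (by linarith)) hC.le
  have d6 : (2 + 2 * C) * x ^ (1 - η / 10) ≤ x ^ (1 - η / 20) := by
    rw [show 1 - η / 20 = η / 20 + (1 - η / 10) by ring, Real.rpow_add x0]
    exact mul_le_mul_of_nonneg_right xη (by positivity)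
  have d7 : 2 * (2 * x * ((∏ i, ms ⌊2 * x⌋₊ (g i)) * (2 ^ 26 / 4 ^ w / κ / Real.log x))) =
      2 ^ 28 / 4 ^ w / κ * (∏ i, ms ⌊2 * x⌋₊ (g i)) * (x / Real.log x) := by ring
  unfold SB at d0
  linarith

theorem yOne : OneG Y := by
  intro hT2 hT1R hT1 hSZ hNom hVan hPr hE1 hE2 τ t η η' κ z K w r B ht htτ hτ hη hη1 hη' hw hκ
    hlev hAlt j A
  obtain ⟨γ2, hγ2, h2⟩ := hT2 hE2 (Fin r ⊕ Fin j) τ t η' K A ht htτ hτ hη'
  obtain ⟨γ1, hγ1, h1⟩ := hT1R hT1 hSZ hE1 (Fin r ⊕ Fin j) τ t η κ K w ht htτ hτ hη hη1 hw hκ hlev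
  have h3 := hNom (Fin r ⊕ Fin j) (Sum.elim (fun i => (B i).lo) fun _ => κ)
    (Sum.elim (fun i => (B i).hi) fun _ => z) (min γ1 γ2) (lt_min hγ1 hγ2)
  filter_upwards [h1, h2, h3, log_One (η / 20) (by positivity) A, eventually_gt_atTop 1]
    with x h1 h2 h3 h4 hx
  intro N hN
  have hx0 : 0 < x := by linarith
  have hlog : 0 < Real.log x := Real.log_pos hx
  set c : Fin r ⊕ Fin j → AF := Sum.elim (fun i => bf x (B i)) fun _ => PP x κ z with hc
  have hc01 : ∀ i n, 0 ≤ c i n ∧ c i n ≤ 1 := by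
    rintro (i | i) n
    · exact bf_nn_One x (B i) n
    · exact PP_nn_One x κ z n
  have hnn : ∀ i n, 0 ≤ dy (N i) (c i) n := fun i n => (dy_nn_One (N i) (hc01 i) n).1
  have hsl : ∀ i, Slot (N i) (dy (N i) (c i)) := fun i => slot_One (hN i) (hc01 i)
  have hE : 0 ≤ 2 ^ 28 / 4 ^ w / κ * (∏ i, ms ⌊2 * x⌋₊ (dy (N i) (c i))) * (x / Real.log x) :=
    mul_nonneg (mul_nonneg (by positivity) (prod_nonneg fun i _ => ms_nn_One _ (hnn i)))
      (by positivity)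
  have hA : 0 ≤ x / Real.log x ^ A := by positivity
  by_cases h0 : Dl t x ((∏ i, dy (N i) (c i)) * bf x (fr κ)) = 0
  · rw [h0, abs_zero]
    exact add_nonneg hA hE
  have h5 : ∃ Δ, SS x Δ ((∏ i, dy (N i) (c i)) * bf x (fr κ)) ≠ 0 := by
    by_contra k
    push Not at k
    exact h0 (by rw [Dl, SB, k, k, sub_zero])
  obtain ⟨Δ, h5⟩ := h5
  obtain ⟨m, l, hm, hl, -, hml⟩ := hVan _ x Δ _ _ hx0 h5
  have hl1 : (1 : ℝ) ≤ l := by
    exact_mod_cast Nat.one_le_iff_ne_zero.2 (bf_ne_One hl).1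
  have hpm : (∏ i, (m i : ℝ)) ≤ 2 * x :=
    (le_mul_of_one_le_right (prod_nonneg fun i _ => Nat.cast_nonneg _) hl1).trans hml
  obtain ⟨a, b, ha, hb, hab, hnear⟩ := h3 N m (fun i => by
    obtain ⟨⟨k1, k2⟩, k3⟩ := dy_ne_One (hm i)
    refine ⟨hN i, k1, k2, ?_⟩
    rcases i with i | i
    · have k4 := bf_ne_One (x := x) (B := B i) k3
      exact ⟨k4.2.1.le, k4.2.2.1⟩
    · exact PP_ne_One (κ := κ) (z := z) hx0.le k3) hpm
  have h6 := hAlt j (a ∘ Sum.inl) (a ∘ Sum.inr) b (fun i => ha (Sum.inl i))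
    (fun i => (ha (Sum.inr i)).2) hb (by rw [← hab, Fintype.sum_sum_type]; rfl)
  rw [Sum.elim_comp_inl_inr] at h6
  rcases h6 with h6 | h6
  · refine (h1 a b N _ (fun i => (ha i).1) hab h6 hsl (near_One hx.le (min_le_left _ _) hnear)
      hnn).trans ?_
    exact add_le_add h4 le_rfl
  · refine (h2 _ a b N _ (bf x (fr κ)) (fun i => (ha i).1) hb hab h6 hsl
      (near_One hx.le (min_le_right _ _) hnear) ?_ fun n => ?_).trans (le_add_of_nonneg_right hE)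
    · rintro (i | i) hi
      · exact hPr.1 x (B i) _ hx hi
      · exact hPr.2 _ _ _
    · rw [abs_of_nonneg (bf_nn_One x _ n).1]
      exact (bf_nn_One x _ n).2

theorem yFin (hY : Y.Sd) (hT2 : T2G Y) (hT1R : T1RG Y) (hT1 : T1G Y) (hSZ : SZStmt) (hNom : NomStmt)
    (hVan : VanStmt) (hPr : PrStmt) (hDy : DyStmt) (hId : IdStmt) (hBad : BadStmt)
    (hMs : MsStmt) (hOne : OneG Y) (hRow : RowStmt) (hSum : SumStmt) (h1 : E1G Y) (h2 : E2G Y) :
    LeafSG Y := by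
  intro τ t ht hτ hτ2 r B z hB hz hD
  obtain ⟨η₀, hη₀, hD⟩ := hD
  obtain ⟨⟨M, hM1, hM⟩, hP⟩ := hMs
  set η := min η₀ (1 / 1000) with hηd
  have hη : 0 < η := lt_min hη₀ (by norm_num)
  have hl : 0 < lev τ t η := lt_min (by positivity) (by linarith)
  set c := min (lev τ t η) (min z 1) with hc
  have c0 : 0 < c := lt_min hl (lt_min hz one_pos)
  have key : ∀ ε : ℝ, 0 < ε → ∀ᶠ x : ℝ in atTop,
      |Dl t x ((∏ i, bf x (B i)) * bf x (fr z))| ≤ ε * (x / Real.log x) := by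
    intro ε hε
    obtain ⟨w, hw, hs⟩ := small_Fin (C := 2 ^ 28 * M ^ r * 6 / c ^ 2) (by positivity)
      (half_pos hε)
    have w0 : (1 : ℝ) ≤ 4 * (w : ℝ) + 6 := by
      have : (0 : ℝ) ≤ w := Nat.cast_nonneg w
      linarith
    set κ := c / (4 * (w : ℝ) + 6) with hκ
    have κ0 : 0 < κ := by positivity
    have κc : κ ≤ c := div_le_self c0.le w0
    have κz : κ ≤ z := κc.trans ((min_le_right _ _).trans (min_le_left _ _))
    have κ1 : κ ≤ 1 := κc.trans ((min_le_right _ _).trans (min_le_right _ _))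
    have κl : κ * (4 * w + 6) ≤ lev τ t η := by
      rw [hκ, div_mul_cancel₀ _ (by linarith)]
      exact min_le_left _ _
    obtain ⟨η', hη', K, hK⟩ := hD κ κ0
    have hA : AltG Y τ η η' κ z K B := fun j a q b ha hq hb hs =>
      (hK j a q b ha hq hb hs).imp (fun h => hY.mono1 h (min_le_left _ _)) id
    have hO := hOne hT2 hT1R hT1 hSZ hNom hVan hPr h1 h2 τ t η η' κ z K w r B ht hτ hτ2 hη
      (min_le_right _ _) hη' hw κ0 κl hA
    have m0 : 0 ≤ Real.log (6 / κ) := Real.log_nonneg (by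
      rw [le_div_iff₀ κ0]
      linarith)
    have hR := hSum hId hBad hSZ t κ z (2 ^ 28 / 4 ^ w / κ * M ^ r) (Real.log (6 / κ)) r B
      (by linarith) (by linarith) κ0 κz (by positivity) m0
      (fun j => hRow hDy t κ z _ M _ r j B (by positivity) (hO j)
        (hM.mono fun x hx i => hx _ (hB i)) (hP κ z κ0 κ1)) (ε / 2) (half_pos hε)
    filter_upwards [hR, eventually_gt_atTop 1] with x hx x1
    refine hx.trans (mul_le_mul_of_nonneg_right ?_
      (div_nonneg (by linarith) (Real.log_pos x1).le))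
    rw [Real.exp_log (by positivity)]
    have e : 2 ^ 28 / 4 ^ w / κ * M ^ r * (6 / κ) =
        2 ^ 28 * M ^ r * 6 / c ^ 2 * (4 * (w : ℝ) + 6) ^ 2 / 4 ^ w := by
      rw [hκ]
      field_simp
    rw [e]
    linarith
  refine ⟨fun ε hε => (key ε hε).mono fun x hx => ?_, fun ε hε => (key ε hε).mono fun x hx => ?_⟩
  · rw [zero_add]
    exact (abs_le.1 hx).1
  · rw [zero_add]
    exact (abs_le.1 hx).2

open S.L2 B in
theorem leaf2E (h : E2G Y) : Leaf2G Y := by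
  intro τ t h1 h2 h3 r B ⟨η, hη, K, hB⟩
  obtain ⟨γ, hγ, hE⟩ := h (Fin r) τ t η K (r + 2) h1 h2 h3 hη
  rw [ev_iff]
  intro ε hε
  filter_upwards [hE, nominal (fun i => max 0 (B i).lo) fun i => (B i).hi, ev_const_le 4 hγ,
    ev_len, eventually_gt_atTop 1, Real.tendsto_log_atTop.eventually_ge_atTop (3 ^ r / ε)]
    with x hE hN h4 ⟨L, hL, hL'⟩ hx hl
  have x0 : 0 < x := by linarith
  have lx := Real.log_pos hx
  have cell : ∀ k : Fin r → ℕ,
      |Dl t x (∏ i, Pool.Agent.MP_c853c5_nt.B.dy (k i) (bf x (B i)))| ≤ x / Real.log x ^ (r + 2) := by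
    intro k
    by_cases hz : ∀ n, Win x n → (∏ i, Pool.Agent.MP_c853c5_nt.B.dy (k i) (bf x (B i))) n = (0 : AF) n
    · rw [Dl_congr t hz, Dl_zero, abs_zero]
      positivity
    push Not at hz
    obtain ⟨n, hn, hz⟩ := hz
    obtain ⟨m, hm, hm'⟩ := exists_of_prod_ne univ _ hz
    have d1 := fun i => (dy_ne (hm' i (mem_univ i))).1
    have d2 := fun i => mem_of_bf_ne (dy_ne (hm' i (mem_univ i))).2
    have d3 : ∏ i, (m i : ℝ) = n := by rw [← hm, Nat.cast_prod]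
    have d4 : ∀ i, ((2 ^ k i : ℕ) : ℝ) ≤ m i := fun i => by exact_mod_cast (d1 i).1
    have d5 : ∀ i, (m i : ℝ) ≤ 2 * ((2 ^ k i : ℕ) : ℝ) := fun i => by exact_mod_cast (d1 i).2.le
    have d6 : ∀ i, x ^ max 0 (B i).lo ≤ m i := fun i => by
      rcases max_choice 0 (B i).lo with e | e
      · rw [e, Real.rpow_zero]
        exact_mod_cast Nat.one_le_iff_ne_zero.2 (d2 i).1
      · rw [e]
        exact (d2 i).2.1.le
    obtain ⟨a, a1, a2⟩ := hN (fun i => (m i : ℝ)) (fun i => ⟨d6 i, (d2 i).2.2.1⟩)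
      (d3 ▸ hn.1) (d3 ▸ hn.2)
    have a0 : ∀ i, 0 ≤ a i := fun i => (le_max_left _ _).trans (a2 i).1
    refine hE (fun i => (B i).IsP) a (fun i => 2 ^ k i) _
      (fun i => ⟨a0 i, a1 ▸ single_le_sum (fun j _ => a0 j) (mem_univ i)⟩)
      (hB a (fun i => ⟨a0 i, (le_max_right _ _).trans (a2 i).1, (a2 i).2.1⟩) a1)
      (fun i => slot_dy _ (abs_bf_le _ _)) (fun i => ⟨?_, ?_⟩)
      (fun i hi => ⟨_, _, by rw [bf_prime hi hx.le, dy_prI]⟩) ?_
    · rw [Real.rpow_sub x0, div_le_iff₀ (by positivity)]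
      have : (0 : ℝ) ≤ ((2 ^ k i : ℕ) : ℝ) := Nat.cast_nonneg _
      nlinarith [(a2 i).2.2.1, d5 i]
    · rw [Real.rpow_add x0]
      nlinarith [(a2 i).2.2.2, d4 i, Real.rpow_pos_of_pos x0 (a i)]
    · exact (prod_le_prod (fun i _ => Nat.cast_nonneg _) fun i _ => d4 i).trans (d3 ▸ hn.2)
  rw [Dl_congr t fun n hn => prod_dy (fun i => bf x (B i)) (L := L) (by
    exact_mod_cast hn.2.trans_lt hL'), Dl_sum]
  refine (abs_sum_le_sum_abs _ _).trans ((sum_le_card_nsmul _ _ _ fun k _ => cell k).trans ?_)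
  rw [nsmul_eq_mul, Fintype.card_piFinset, prod_const, card_range, card_univ, Fintype.card_fin,
    Nat.cast_pow]
  rw [div_le_iff₀ hε] at hl
  calc (L : ℝ) ^ r * (x / Real.log x ^ (r + 2))
      ≤ (3 * Real.log x) ^ r * (x / Real.log x ^ (r + 2)) := by gcongr
    _ = 3 ^ r / Real.log x * (x / Real.log x) := by
        rw [mul_pow]
        field_simp
        ring
    _ ≤ _ := by
        refine mul_le_mul_of_nonneg_right ?_ (by positivity)
        rw [div_le_iff₀ lx]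
        linarith

theorem leaf2G (h : Y.OK) : Leaf2G Y := leaf2E h.e2

theorem leafSG (h : Y.OK) : LeafSG Y :=
  yFin h.sd (yT2 dDy dVan) (yT1R h.sd) (yT1 h.sd dVan) dSZ dNom dVan dPr dDy dId dBad dMs yOne dRow
    dSum h.e1 h.e2

end Pool.Agent.MP_c853c5_nt.Y
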