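import Pool.Agent.MP_c853c5_nt.DS.Basic
import Pool.Agent.MP_c853c5_nt.DT.Defs
import Pool.Agent.MP_c853c5_nt.DU.Defs

section

/-!
The truncation of the kernel costs little: large frequencies, distant products, equal products.
-/

set_option autoImplicit false

open Finset Filter Real
open scoped ComplexConjugate

namespace Pool.Agent.MP_c853c5_nt.DS

open Pool.Agent.MP_88bd62_nt.U (ex)

lemma dd_Small {Δ N L n n' : ℝ} (hΔ : 0 < Δ) (hN : 0 < N) (h1 : N ≤ n) (h2 : n ≤ 2 * L * N)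
    (h3 : N ≤ n') (h4 : n' ≤ 2 * L * N) :
    Δ * N ≤ √(dd Δ Δ n n') ∧ dd Δ Δ n n' ≤ 8 * (L * N * Δ) ^ 2 ∧
      √(dd Δ Δ n n') ≤ 3 * (L * N * Δ) := by
  have hn : 0 < n := hN.trans_le h1
  have hn' : 0 < n' := hN.trans_le h3
  have hLN : 0 < L * N := by linarith
  have e1 : n ^ 2 ≤ (2 * L * N) ^ 2 := pow_le_pow_left₀ hn.le h2 2
  have e2 : n' ^ 2 ≤ (2 * L * N) ^ 2 := pow_le_pow_left₀ hn'.le h4 2
  have e3 : N ^ 2 ≤ n ^ 2 := pow_le_pow_left₀ hN.le h1 2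
  have hΔ2 : 0 < Δ ^ 2 := by positivity
  have hup : dd Δ Δ n n' ≤ 8 * (L * N * Δ) ^ 2 := by
    unfold dd
    have a1 := mul_le_mul_of_nonneg_right e1 hΔ2.le
    have a2 := mul_le_mul_of_nonneg_right e2 hΔ2.le
    calc n ^ 2 * Δ ^ 2 + n' ^ 2 * Δ ^ 2
        ≤ (2 * L * N) ^ 2 * Δ ^ 2 + (2 * L * N) ^ 2 * Δ ^ 2 := add_le_add a1 a2
      _ = 8 * (L * N * Δ) ^ 2 := by ring
  refine ⟨?_, hup, ?_⟩
  · refine Real.le_sqrt_of_sq_le ?_
    unfold dd
    have a1 := mul_le_mul_of_nonneg_right e3 hΔ2.le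
    have a2 : 0 ≤ n' ^ 2 * Δ ^ 2 := by positivity
    calc (Δ * N) ^ 2 = N ^ 2 * Δ ^ 2 := by ring
      _ ≤ _ := by linarith
  · have h0 : 0 ≤ L * N * Δ := by positivity
    refine Real.sqrt_le_iff.2 ⟨by positivity, hup.trans ?_⟩
    have : 0 ≤ (L * N * Δ) ^ 2 := by positivity
    calc 8 * (L * N * Δ) ^ 2 ≤ 9 * (L * N * Δ) ^ 2 := by linarith
      _ = (3 * (L * N * Δ)) ^ 2 := by ring

lemma exp_Small {d w l z : ℝ} (hd : 0 < d) (hw : d ≤ 8 * w ^ 2) (hz : (3 * l * w) ^ 2 ≤ z) :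
    Real.exp (-(π * z / d)) ≤ Real.exp (-(3 * l ^ 2)) := by
  refine Real.exp_le_exp.2 (neg_le_neg ?_)
  rw [le_div_iff₀ hd]
  have h3 : (3 : ℝ) ≤ π := Real.pi_gt_three.le
  have hz0 : 0 ≤ z := (sq_nonneg _).trans hz
  have hl : 0 ≤ l ^ 2 := sq_nonneg _
  have hw2 : 0 ≤ l ^ 2 * w ^ 2 := by positivity
  calc 3 * l ^ 2 * d ≤ 3 * l ^ 2 * (8 * w ^ 2) := mul_le_mul_of_nonneg_left hw (by positivity)
    _ ≤ 3 * (3 * l * w) ^ 2 := by nlinarith
    _ ≤ 3 * z := by linarith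
    _ ≤ π * z := mul_le_mul_of_nonneg_right h3 hz0

lemma exp_one_Small {d z : ℝ} (hd : 0 < d) (hz : 0 ≤ z) : Real.exp (-(π * z / d)) ≤ 1 := by
  refine Real.exp_le_one_iff.2 (neg_nonpos.2 ?_)
  positivity

lemma am_Small {X Δ N n n' e₁ e₂ : ℝ} (h : ℤ) (hX : 0 < X) (hΔ : 0 < Δ) (hN : 0 < N)
    (hd : Δ * N ≤ √(dd Δ Δ n n'))
    (h1 : Real.exp (-(π * (n - n') ^ 2 / dd Δ Δ n n')) ≤ e₁)
    (h2 : Real.exp (-(π * ((h : ℝ) ^ 2 * (X * Δ * Δ) ^ 2) / dd Δ Δ n n')) ≤ e₂) :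
    am X Δ Δ n n' h ≤ X / (Δ * N) * (e₁ * e₂) := by
  unfold am
  rw [mul_assoc π, mul_assoc]
  have h0 : 0 ≤ e₁ := (Real.exp_pos _).le.trans h1
  exact mul_le_mul (div_le_div_of_nonneg_left hX.le (by positivity) hd)
    (mul_le_mul h1 h2 (Real.exp_pos _).le h0) (by positivity) (by positivity)

lemma rb_Small {X Δ n n' E : ℝ} (B : ℕ) (hX : 0 < X) (h : ∀ h : ℤ, am X Δ Δ n n' h ≤ E) :
    |rb X Δ Δ B n n'| ≤ 2 * B * E := by
  unfold rb
  refine (abs_sum_le_sum_abs _ _).trans ?_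
  calc ∑ h ∈ hs B, |am X Δ Δ n n' h * Real.cos (2 * π * (h * ct X Δ Δ n n'))|
      ≤ ∑ _h ∈ hs B, E := by
        refine sum_le_sum fun i _ => ?_
        rw [abs_mul, abs_of_nonneg (am_nonneg hX.le _ _ _ _ _)]
        exact (mul_le_of_le_one_right (am_nonneg hX.le _ _ _ _ _) (Real.abs_cos_le_one _)).trans
          (h i)
    _ = 2 * B * E := by
        rw [sum_const, card_hs, nsmul_eq_mul]
        push_cast
        ring

/-- one term of the difference -/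
lemma term_Small (hP : PoisStmt) {X Δ N L l : ℝ} {B H a a' : ℕ} (hX : 0 < X) (hΔ : 0 < Δ)
    (hN : 0 < N) (hl : 0 ≤ l) (h1 : N ≤ a) (h2 : (a : ℝ) ≤ 2 * L * N) (h3 : N ≤ a')
    (h4 : (a' : ℝ) ≤ 2 * L * N) (hB : 3 * L * l * (N / (X * Δ)) ≤ B + 1)
    (hH : 3 * L * l * (N * Δ) ≤ H) :
    |og X Δ Δ a a' - if a ≠ a' ∧ a ≤ a' + H ∧ a' ≤ a + H then rb X Δ Δ B a a' else 0| ≤
      (4 * (1 + 3 * L * (N / (X * Δ))) + 2 * B) * (X / (Δ * N) * Real.exp (-(3 * l ^ 2))) +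
        if a = a' then 2 * B * (X / (Δ * N)) else 0 := by
  obtain ⟨d1, d2, d3⟩ := dd_Small hΔ hN h1 h2 h3 h4
  have hn : (0 : ℝ) < a := hN.trans_le h1
  have hn' : (0 : ℝ) < a' := hN.trans_le h3
  have hLN : 0 < L * N := by linarith
  have hL : 0 < L := (pos_iff_pos_of_mul_pos hLN).2 hN
  have hd : 0 < dd Δ Δ (a : ℝ) a' := dd_pos _ hΔ hn
  set E : ℝ := X / (Δ * N) * Real.exp (-(3 * l ^ 2)) with hE
  have hE0 : 0 ≤ E := by positivity
  have hi : |og X Δ Δ a a' - rb X Δ Δ B a a'| ≤ 4 * (1 + 3 * L * (N / (X * Δ))) * E := by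
    refine (hP X Δ Δ a a' B hX hΔ hΔ hn hn').2.trans ?_
    have b1 : √(dd Δ Δ (a : ℝ) a') / (X * Δ * Δ) ≤ 3 * L * (N / (X * Δ)) := by
      calc √(dd Δ Δ (a : ℝ) a') / (X * Δ * Δ) ≤ 3 * (L * N * Δ) / (X * Δ * Δ) :=
            div_le_div_of_nonneg_right d3 (by positivity)
        _ = 3 * L * (N / (X * Δ)) := by field_simp
    have b2 : am X Δ Δ a a' ((B : ℤ) + 1) ≤ E := by
      refine (am_Small (e₁ := 1) (e₂ := Real.exp (-(3 * l ^ 2))) _ hX hΔ hN d1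
        (exp_one_Small hd (sq_nonneg _)) (exp_Small hd d2 ?_)).trans_eq (by rw [one_mul])
      rw [← mul_pow]
      refine pow_le_pow_left₀ (by positivity) ?_ 2
      push_cast
      calc 3 * l * (L * N * Δ) = 3 * L * l * (N / (X * Δ)) * (X * Δ * Δ) := by field_simp
        _ ≤ ((B : ℝ) + 1) * (X * Δ * Δ) := mul_le_mul_of_nonneg_right hB (by positivity)
    exact mul_le_mul (by linarith) b2 (am_nonneg hX.le _ _ _ _ _) (by positivity)
  have hBE : 0 ≤ 2 * (B : ℝ) * E := by positivity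
  have hBX : 0 ≤ 2 * (B : ℝ) * (X / (Δ * N)) := by positivity
  have htri : |og X Δ Δ a a' - 0| ≤ |og X Δ Δ a a' - rb X Δ Δ B a a'| + |rb X Δ Δ B a a'| := by
    have := abs_add_le (og X Δ Δ a a' - rb X Δ Δ B a a') (rb X Δ Δ B a a')
    rw [sub_add_cancel] at this
    rwa [sub_zero]
  rw [add_mul]
  by_cases hc : a ≠ a' ∧ a ≤ a' + H ∧ a' ≤ a + H
  · rw [if_pos hc, if_neg hc.1]
    linarith
  · rw [if_neg hc]
    by_cases he : a = a'
    · rw [if_pos he]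
      have := rb_Small (E := X / (Δ * N)) B hX fun h =>
        (am_Small (e₁ := 1) (e₂ := 1) h hX hΔ hN d1 (exp_one_Small hd (sq_nonneg _))
          (exp_one_Small hd (by positivity))).trans_eq (by ring)
      linarith
    · rw [if_neg he]
      have hfar : (H : ℝ) ≤ |(a : ℝ) - a'| := by
        by_cases hq : a ≤ a' + H
        · have : a + H ≤ a' := by
            by_contra hq'
            exact hc ⟨he, hq, by omega⟩
          have : (a : ℝ) + H ≤ a' := by exact_mod_cast this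
          exact le_abs.2 (Or.inr (by linarith))
        · have : a' + H ≤ a := by omega
          have : (a' : ℝ) + H ≤ a := by exact_mod_cast this
          exact le_abs.2 (Or.inl (by linarith))
      have hsq : (3 * l * (L * N * Δ)) ^ 2 ≤ ((a : ℝ) - a') ^ 2 := by
        rw [← sq_abs ((a : ℝ) - a')]
        refine pow_le_pow_left₀ (by positivity) (le_trans ?_ hfar) 2
        calc 3 * l * (L * N * Δ) = 3 * L * l * (N * Δ) := by ring
          _ ≤ H := hH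
      have := rb_Small (E := E) B hX fun h =>
        (am_Small (e₁ := Real.exp (-(3 * l ^ 2))) (e₂ := 1) h hX hΔ hN d1 (exp_Small hd d2 hsq)
          (exp_one_Small hd (by positivity))).trans_eq (by rw [mul_one])
      linarith

/-- equal products with two different primes -/
lemma cnt1_Small {K P Q k k' : ℕ} (hP : 1 ≤ P) (hk : k.Prime) (hk' : k'.Prime) (hK : K ≤ k)
    (hK0 : 1 ≤ K) (hne : k ≠ k') :
    ((Icc P Q ×ˢ Icc P Q).filter fun w : ℕ × ℕ => k * w.1 = k' * w.2).card ≤ Q / K := by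
  have hc : (Icc 1 (Q / K)).card = Q / K := by simp
  rw [← hc]
  have hdv : ∀ w : ℕ × ℕ, k * w.1 = k' * w.2 → k ∣ w.2 := by
    intro w hw
    have : k ∣ k' * w.2 := ⟨w.1, hw.symm⟩
    rcases (Nat.Prime.dvd_mul hk).1 this with h | h
    · exact absurd ((Nat.prime_dvd_prime_iff_eq hk hk').1 h) hne
    · exact h
  refine card_le_card_of_injOn (fun w => w.2 / k) (fun w hw => ?_) fun w hw w' hw' e => ?_
  · rw [coe_filter, Set.mem_ofPred_eq, mem_product, mem_Icc, mem_Icc] at hw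
    obtain ⟨m, hm⟩ := hdv w hw.2
    have e : w.2 / k = m := by rw [hm, Nat.mul_div_cancel_left _ hk.pos]
    rw [mem_coe, mem_Icc]
    simp only [e]
    constructor
    · rcases Nat.eq_zero_or_pos m with h | h
      · rw [h, mul_zero] at hm
        omega
      · exact h
    · rw [Nat.le_div_iff_mul_le hK0]
      calc m * K ≤ m * k := Nat.mul_le_mul_left _ hK
        _ = w.2 := by rw [hm, mul_comm]
        _ ≤ Q := hw.1.2.2
  · rw [coe_filter, Set.mem_ofPred_eq] at hw hw'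
    have e2 : w.2 = w'.2 := by
      have a1 := Nat.mul_div_cancel' (hdv w hw.2)
      have a2 := Nat.mul_div_cancel' (hdv w' hw'.2)
      simp only at e
      rw [← a1, ← a2, e]
    have e1 : w.1 = w'.1 := Nat.eq_of_mul_eq_mul_left hk.pos (by rw [hw.2, hw'.2, e2])
    exact Prod.ext e1 e2

lemma cnt2_Small {P Q k : ℕ} (hP : 1 ≤ P) (hk : 0 < k) :
    ((Icc P Q ×ˢ Icc P Q).filter fun w : ℕ × ℕ => k * w.1 = k * w.2).card ≤ Q := by
  have hc : (Icc P Q).card ≤ Q := by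
    rw [Nat.card_Icc]
    omega
  refine le_trans ?_ hc
  refine card_le_card_of_injOn (fun w => w.1) (fun w hw => ?_) fun w hw w' hw' e => ?_
  · rw [coe_filter, Set.mem_ofPred_eq, mem_product] at hw
    exact mem_coe.2 hw.1.1
  · rw [coe_filter, Set.mem_ofPred_eq] at hw hw'
    have a1 := Nat.eq_of_mul_eq_mul_left hk hw.2
    have a2 := Nat.eq_of_mul_eq_mul_left hk hw'.2
    simp only at e
    exact Prod.ext e (by rw [← a1, ← a2, e])

/-- the number of pairs with equal products -/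
lemma cnt_Small {K P Q : ℕ} {D : Finset ℕ} (hD : PrK K D) (hK : 1 ≤ K) (hP : 1 ≤ P) {E : ℝ}
    (hE : 0 ≤ E) :
    ∑ u ∈ D ×ˢ Icc P Q, ∑ v ∈ D ×ˢ Icc P Q, (if u.1 * u.2 = v.1 * v.2 then E else 0) ≤
      2 * (K * Q) * E := by
  have hKr : (0 : ℝ) < K := by exact_mod_cast hK
  have hcard : (D.card : ℝ) ≤ K := by exact_mod_cast hD.card_le
  have key : ∀ k ∈ D, ∀ k' ∈ D, ∑ p ∈ Icc P Q, ∑ p' ∈ Icc P Q,
      (if k * p = k' * p' then E else 0) ≤ (if k = k' then Q * E else 0) + Q / K * E := by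
    intro k hk k' hk'
    have e : ∑ p ∈ Icc P Q, ∑ p' ∈ Icc P Q, (if k * p = k' * p' then E else 0) =
        (((Icc P Q ×ˢ Icc P Q).filter fun w : ℕ × ℕ => k * w.1 = k' * w.2).card : ℝ) * E := by
      rw [← sum_product' (f := fun p p' => if k * p = k' * p' then E else 0), ← sum_filter,
        sum_const, nsmul_eq_mul]
    rw [e]
    have h0 : 0 ≤ (Q : ℝ) / K * E := by positivity
    by_cases h : k = k'
    · subst h
      rw [if_pos rfl]
      have : (((Icc P Q ×ˢ Icc P Q).filter fun w : ℕ × ℕ => k * w.1 = k * w.2).card : ℝ) ≤ Q := by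
        exact_mod_cast cnt2_Small hP (hD k hk).1.pos
      have := mul_le_mul_of_nonneg_right this hE
      linarith
    · rw [if_neg h, zero_add]
      refine mul_le_mul_of_nonneg_right (le_trans ?_ Nat.cast_div_le) hE
      exact_mod_cast cnt1_Small hP (hD k hk).1 (hD k' hk').1 (hD k hk).2.1 hK h
  simp only [sum_product]
  calc ∑ k ∈ D, ∑ p ∈ Icc P Q, ∑ k' ∈ D, ∑ p' ∈ Icc P Q, (if k * p = k' * p' then E else 0)
      = ∑ k ∈ D, ∑ k' ∈ D, ∑ p ∈ Icc P Q, ∑ p' ∈ Icc P Q,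
          (if k * p = k' * p' then E else 0) := sum_congr rfl fun k _ => sum_comm
    _ ≤ ∑ _k ∈ D, 2 * Q * E := by
        refine sum_le_sum fun k hk => (sum_le_sum fun k' hk' => key k hk k' hk').trans ?_
        rw [sum_add_distrib, sum_ite_eq, if_pos hk, sum_const, nsmul_eq_mul]
        have h1 : (D.card : ℝ) * (Q / K * E) ≤ K * (Q / K * E) :=
          mul_le_mul_of_nonneg_right hcard (by positivity)
        have h2 : (K : ℝ) * (Q / K * E) = Q * E := by field_simp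
        linarith
    _ ≤ 2 * (K * Q) * E := by
        rw [sum_const, nsmul_eq_mul]
        have h1 : (D.card : ℝ) * (2 * Q * E) ≤ K * (2 * Q * E) :=
          mul_le_mul_of_nonneg_right hcard (by positivity)
        linarith

lemma swap_Small (D R : Finset ℕ) (F : ℕ × ℕ → ℕ × ℕ → ℝ) :
    ∑ u ∈ D ×ˢ R, ∑ v ∈ D ×ˢ R, F u v =
      ∑ u ∈ D ×ˢ R, ∑ v ∈ D ×ˢ R, F (v.1, u.2) (u.1, v.2) := by
  simp only [sum_product]
  rw [sum_comm, sum_comm (s := D) (t := R)]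
  exact sum_congr rfl fun p _ => sum_comm

/-- the difference, before the sizes are inserted -/
lemma sum_Small (hP : PoisStmt) {X Δ l : ℝ} {B H K P Λ : ℕ} {D : Finset ℕ} {b c : ℕ → ℝ}
    (hX : 0 < X) (hΔ : 0 < Δ) (hK : 1 ≤ K) (hP1 : 1 ≤ P) (hl : 0 ≤ l) (hD : PrK K D)
    (hb : ∀ n, |b n| ≤ 1) (hc : ∀ n, |c n| ≤ 1)
    (hB : 3 * Λ * l * (K * P / (X * Δ)) ≤ B + 1) (hH : 3 * Λ * l * (K * P * Δ) ≤ H) :
    |QF D (Icc P (Λ * P)) b c (og X Δ Δ) - ∑ u ∈ D ×ˢ Icc P (Λ * P), ∑ v ∈ D ×ˢ Icc P (Λ * P),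
      b u.1 * c u.2 * (b v.1 * c v.2) * G0 X Δ B H u v| ≤
      (Λ * (K * P)) ^ 2 * ((4 * (1 + 3 * Λ * (K * P / (X * Δ))) + 2 * B) *
        (X / (Δ * (K * P)) * Real.exp (-(3 * l ^ 2)))) +
      2 * (Λ * (K * P)) * (2 * B * (X / (Δ * (K * P)))) := by
  have hKr : (0 : ℝ) < K := by exact_mod_cast hK
  have hPr : (0 : ℝ) < P := by exact_mod_cast hP1
  have hN : (0 : ℝ) < K * P := by positivity
  set U := D ×ˢ Icc P (Λ * P) with hU
  set E₁ : ℝ := (4 * (1 + 3 * Λ * (K * P / (X * Δ))) + 2 * B) *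
    (X / (Δ * (K * P)) * Real.exp (-(3 * l ^ 2))) with hE₁
  set E₂ : ℝ := 2 * B * (X / (Δ * (K * P))) with hE₂
  have hE1 : 0 ≤ E₁ := by positivity
  have hE2 : 0 ≤ E₂ := by positivity
  have hmem : ∀ u ∈ U, (K : ℝ) * P ≤ ((u.1 * u.2 : ℕ) : ℝ) ∧
      ((u.1 * u.2 : ℕ) : ℝ) ≤ 2 * Λ * (K * P) := by
    intro u hu
    rw [hU, mem_product, mem_Icc] at hu
    obtain ⟨_, a1, a2⟩ := hD _ hu.1
    constructor
    · exact_mod_cast Nat.mul_le_mul a1 hu.2.1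
    · have : u.1 * u.2 ≤ 2 * Λ * (K * P) :=
        (Nat.mul_le_mul a2.le hu.2.2).trans_eq (by ring)
      exact_mod_cast this
  have hcard : (U.card : ℝ) ≤ Λ * (K * P) := by
    have : U.card ≤ Λ * (K * P) := by
      rw [hU, card_product]
      exact (Nat.mul_le_mul hD.card_le (card_Icc_le hP1)).trans_eq (by ring)
    exact_mod_cast this
  rw [swap_Small D (Icc P (Λ * P)) fun u v => b u.1 * c u.2 * (b v.1 * c v.2) * G0 X Δ B H u v,
    QF, ← hU, ← sum_sub_distrib]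
  refine (abs_sum_le_sum_abs _ _).trans ?_
  have hterm : ∀ u ∈ U, |∑ v ∈ U, b u.1 * c u.2 * (b v.1 * c v.2) *
      og X Δ Δ ((u.1 : ℝ) * u.2) ((v.1 : ℝ) * v.2) - ∑ v ∈ U, b v.1 * c u.2 * (b u.1 * c v.2) *
      G0 X Δ B H (v.1, u.2) (u.1, v.2)| ≤
      ∑ v ∈ U, (E₁ + if u.1 * u.2 = v.1 * v.2 then E₂ else 0) := by
    intro u hu
    rw [← sum_sub_distrib]
    refine (abs_sum_le_sum_abs _ _).trans (sum_le_sum fun v hv => ?_)
    have ht := term_Small hP (B := B) (H := H) hX hΔ hN hl (hmem u hu).1 (hmem u hu).2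
      (hmem v hv).1 (hmem v hv).2 hB hH
    rw [Nat.cast_mul u.1, Nat.cast_mul v.1] at ht
    have e : b u.1 * c u.2 * (b v.1 * c v.2) * og X Δ Δ ((u.1 : ℝ) * u.2) ((v.1 : ℝ) * v.2) -
        b v.1 * c u.2 * (b u.1 * c v.2) * G0 X Δ B H (v.1, u.2) (u.1, v.2) =
        b u.1 * c u.2 * (b v.1 * c v.2) * (og X Δ Δ ((u.1 : ℝ) * u.2) ((v.1 : ℝ) * v.2) -
          G0 X Δ B H (v.1, u.2) (u.1, v.2)) := by ring
    rw [e, abs_mul]
    refine (mul_le_of_le_one_left (abs_nonneg _) ?_).trans ht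
    rw [abs_mul, abs_mul, abs_mul]
    exact mul_le_one₀ (mul_le_one₀ (hb _) (abs_nonneg _) (hc _)) (by positivity)
      (mul_le_one₀ (hb _) (abs_nonneg _) (hc _))
  refine (sum_le_sum hterm).trans ?_
  simp only [sum_add_distrib, sum_const, nsmul_eq_mul]
  refine add_le_add ?_ ?_
  · rw [← mul_assoc, ← sq]
    exact mul_le_mul_of_nonneg_right (pow_le_pow_left₀ (Nat.cast_nonneg _) hcard 2) hE1
  · refine (cnt_Small hD hK hP1 hE2).trans_eq ?_
    push_cast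
    ring

lemma fin1_Small {X Δ N L l s e B w : ℝ} (hX : 0 < X) (hΔ : 0 < Δ) (hN : 0 < N) (hL : 1 ≤ L)
    (hl : 1 ≤ l) (hs : 1 ≤ s) (hsΔ : 1 ≤ Δ * s) (hNX : N ≤ X)
    (hB : B ≤ 3 * L * l * (N / (X * Δ))) (he0 : 0 ≤ e) (he : 44 * L ^ 3 * l * (s ^ 2 * e) ≤ w) :
    (L * N) ^ 2 * ((4 * (1 + 3 * L * (N / (X * Δ))) + 2 * B) * (X / (Δ * N) * e)) ≤
      X * N * (w / 2) := by
  have hL0 : 0 < L := by linarith
  have hl0 : 0 < l := by linarith
  have hs0 : 0 < s := by linarith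
  have hq : N / (X * Δ) ≤ s := by
    rw [div_le_iff₀ (by positivity)]
    calc N ≤ X * 1 := by linarith
      _ ≤ X * (Δ * s) := mul_le_mul_of_nonneg_left hsΔ hX.le
      _ = s * (X * Δ) := by ring
  have h1 : X / (Δ * N) ≤ X * s / N := by
    rw [div_le_div_iff₀ (by positivity) hN]
    calc X * N = X * N * 1 := by ring
      _ ≤ X * N * (Δ * s) := mul_le_mul_of_nonneg_left hsΔ (by positivity)
      _ = X * s * (Δ * N) := by ring
  have h2 : 4 * (1 + 3 * L * (N / (X * Δ))) + 2 * B ≤ 22 * (L * l * s) := by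
    have a1 : L * (N / (X * Δ)) ≤ L * s := mul_le_mul_of_nonneg_left hq hL0.le
    have a2 : L * l * (N / (X * Δ)) ≤ L * l * s := mul_le_mul_of_nonneg_left hq (by positivity)
    have a3 : L * s ≤ L * l * s :=
      mul_le_mul_of_nonneg_right (le_mul_of_one_le_right hL0.le hl) hs0.le
    have a4 : 1 ≤ L * s := one_le_mul_of_one_le_of_one_le hL hs
    linarith
  calc (L * N) ^ 2 * ((4 * (1 + 3 * L * (N / (X * Δ))) + 2 * B) * (X / (Δ * N) * e))
      ≤ (L * N) ^ 2 * (22 * (L * l * s) * (X * s / N * e)) :=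
        mul_le_mul_of_nonneg_left (mul_le_mul h2 (mul_le_mul_of_nonneg_right h1 he0)
          (by positivity) (by positivity)) (by positivity)
    _ = X * N * (44 * L ^ 3 * l * (s ^ 2 * e) / 2) := by
        field_simp
        ring
    _ ≤ X * N * (w / 2) := mul_le_mul_of_nonneg_left (by linarith) (by positivity)

lemma fin2_Small {X Δ N L l z B M w : ℝ} (hX : 0 < X) (hΔ : 0 < Δ) (hN : 0 < N) (hL : 0 < L)
    (hl : 0 < l) (hz : 0 < z) (hB : B ≤ 3 * L * l * M) (hM : M * z ^ 2 ≤ N * Δ)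
    (hC : 24 * L ^ 2 * l ≤ z) (hw : z⁻¹ ≤ w) :
    2 * (L * N) * (2 * B * (X / (Δ * N))) ≤ X * N * (w / 2) := by
  have h1 : M ≤ N * Δ / z ^ 2 := by rwa [le_div_iff₀ (by positivity)]
  have h2 : B ≤ 3 * L * l * (N * Δ / z ^ 2) :=
    hB.trans (mul_le_mul_of_nonneg_left h1 (by positivity))
  have h3 : 24 * L ^ 2 * l / z ≤ 1 := (div_le_one hz).2 hC
  calc 2 * (L * N) * (2 * B * (X / (Δ * N)))
      ≤ 2 * (L * N) * (2 * (3 * L * l * (N * Δ / z ^ 2)) * (X / (Δ * N))) :=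
        mul_le_mul_of_nonneg_left (mul_le_mul_of_nonneg_right (by linarith) (by positivity))
          (by positivity)
    _ = X * N * (24 * L ^ 2 * l / z * z⁻¹ / 2) := by
        field_simp
        ring
    _ ≤ X * N * (w / 2) := by
        refine mul_le_mul_of_nonneg_left ?_ (by positivity)
        have := mul_le_of_le_one_left (inv_pos.2 hz).le h3
        linarith

lemma root_Small {M y w : ℝ} {r : ℕ} (hr : 2 ≤ r) (hM : 1 ≤ M) (hy : 1 ≤ y) (hw : 0 ≤ w)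
    (h : M ^ r * y ^ r ≤ w ^ (r - 1)) : M * y ≤ w := by
  have h1 : 1 ≤ M * y := one_le_mul_of_one_le_of_one_le hM hy
  refine le_of_pow_le_pow_left₀ (n := r - 1) (by omega) hw (le_trans ?_ h)
  rw [← mul_pow]
  exact pow_le_pow_right₀ h1 (by omega)

theorem small_stmt (hP : PoisStmt) : SmallStmt := by
  intro r Λ μ hr hΛ hμ
  have hr0 : (0 : ℝ) < r := by exact_mod_cast (by omega : 0 < r)
  have hγ : 0 < μ / (2 * r) := by positivity
  refine ⟨min (μ / (2 * r)) 1, lt_min hγ one_pos, ?_⟩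
  filter_upwards [E.ev_log_le (44 * (Λ : ℝ) ^ 3) 1 one_pos, E.ev_log_le (24 * (Λ : ℝ) ^ 2) 1 hγ,
    E.ev_le_log 1, eventually_ge_atTop 1] with x e1 e2 hl hx
  intro X Δ Γ K P D b c hG _ hD hb hc
  rw [pow_one] at e1 e2
  rw [Real.rpow_one] at e1
  have hx0 : 0 < x := by linarith
  have hX : 0 < X := by linarith [hG.x1]
  have hΔ : 0 < Δ := (Real.rpow_pos_of_pos hx0 _).trans_le hG.d1
  have hK : (1 : ℝ) ≤ K := by exact_mod_cast hG.k1
  have hP1 : (1 : ℝ) ≤ P := by exact_mod_cast hG.p1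
  have hL : (1 : ℝ) ≤ Λ := by exact_mod_cast hΛ
  have hN : (0 : ℝ) < K * P := by positivity
  have hl0 : 0 < Real.log x := by linarith
  have hB1 : 3 * Λ * Real.log x * (K * P / (X * Δ)) ≤ (bb x X Δ Λ K P : ℝ) + 1 :=
    (Nat.lt_floor_add_one _).le
  have hB2 : (bb x X Δ Λ K P : ℝ) ≤ 3 * Λ * Real.log x * (K * P / (X * Δ)) :=
    Nat.floor_le (by positivity)
  have hH : 3 * Λ * Real.log x * (K * P * Δ) ≤ (hh x Δ Λ K P : ℝ) := Nat.le_ceil _
  refine (sum_Small hP hX hΔ hG.k1 hG.p1 hl0.le hD hb hc hB1 hH).trans ?_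
  have hNX : (K : ℝ) * P ≤ X :=
    (le_mul_of_one_le_left hN.le (one_le_pow₀ hK)).trans hG.h3
  have hs : 1 ≤ x ^ (1 / 2 : ℝ) := Real.one_le_rpow hx (by norm_num)
  have hsΔ : 1 ≤ Δ * x ^ (1 / 2 : ℝ) := by
    calc (1 : ℝ) = x ^ (-(1 / 2) : ℝ) * x ^ (1 / 2 : ℝ) := by
          rw [← Real.rpow_add hx0]
          norm_num
      _ ≤ _ := mul_le_mul_of_nonneg_right hG.d1 (by positivity)
  have hs2 : (x ^ (1 / 2 : ℝ)) ^ 2 = x := by
    rw [← Real.rpow_natCast, ← Real.rpow_mul hx0.le]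
    norm_num
  have he : 44 * (Λ : ℝ) ^ 3 * Real.log x *
      ((x ^ (1 / 2 : ℝ)) ^ 2 * Real.exp (-(3 * Real.log x ^ 2))) ≤ x ^ (-min (μ / (2 * r)) 1) := by
    have a1 : Real.exp (-(3 * Real.log x ^ 2)) ≤ (x ^ 3)⁻¹ := by
      have : (x ^ 3)⁻¹ = Real.exp (-(3 * Real.log x)) := by
        rw [Real.exp_neg, show 3 * Real.log x = ((3 : ℕ) : ℝ) * Real.log x by norm_num,
          Real.exp_nat_mul, Real.exp_log hx0]
      rw [this]
      exact Real.exp_le_exp.2 (by nlinarith)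
    rw [hs2]
    calc 44 * (Λ : ℝ) ^ 3 * Real.log x * (x * Real.exp (-(3 * Real.log x ^ 2)))
        ≤ x * (x * (x ^ 3)⁻¹) :=
          mul_le_mul e1 (mul_le_mul_of_nonneg_left a1 hx0.le) (by positivity) hx0.le
      _ = x ^ (-1 : ℝ) := by
          rw [Real.rpow_neg_one]
          field_simp
      _ ≤ _ := Real.rpow_le_rpow_of_exponent_le hx (neg_le_neg (min_le_right _ _))
  have t1 := fin1_Small hX hΔ hN hL hl hs hsΔ hNX hB2 (Real.exp_pos _).le he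
  have hz : 1 ≤ x ^ (μ / (2 * r)) := Real.one_le_rpow hx hγ.le
  have hM : Lm X Δ K P * (x ^ (μ / (2 * r))) ^ 2 ≤ K * P * Δ := by
    refine root_Small hr (one_le_Lm _ _ _ _) (one_le_pow₀ hz) (by positivity)
      (le_trans (le_of_eq ?_) hG.h2)
    rw [← pow_mul, ← Real.rpow_natCast (x ^ (μ / (2 * r))), ← Real.rpow_mul hx0.le]
    congr 2
    push_cast
    field_simp
  have hw : (x ^ (μ / (2 * r)))⁻¹ ≤ x ^ (-min (μ / (2 * r)) 1) := by
    rw [← Real.rpow_neg hx0.le]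
    exact Real.rpow_le_rpow_of_exponent_le hx (neg_le_neg (min_le_left _ _))
  have t2 := fin2_Small hX hΔ hN (by linarith : (0 : ℝ) < Λ) hl0 (by linarith)
    (hB2.trans (mul_le_mul_of_nonneg_left (le_Lm X Δ K P) (by positivity))) hM e2 hw
  linarith

end Pool.Agent.MP_c853c5_nt.DS

end

section

/-!
The long interval has no nonzero frequencies.
-/

set_option autoImplicit false

open Finset Filter Real
open scoped ComplexConjugate

namespace Pool.Agent.MP_c853c5_nt.DS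

open Pool.Agent.MP_88bd62_nt.U (ex)

lemma og_Zero (hP : PoisStmt) {X Γ N L y n n' : ℝ} (hX : 0 < X) (hΓ : 0 < Γ) (hN : 0 < N)
    (hL : 1 ≤ L) (hy : 1 ≤ y) (hyN : y * N ≤ X * Γ) (h1 : N ≤ n) (h2 : n ≤ 2 * L * N)
    (h3 : N ≤ n') (h4 : n' ≤ 2 * L * N) :
    |og X Γ Γ n n'| ≤ 4 * (1 + 3 * L) * (X / (Γ * N) * Real.exp (-(y ^ 2 / (8 * L ^ 2)))) := by
  have hn : 0 < n := hN.trans_le h1
  have hn' : 0 < n' := hN.trans_le h3
  have h5 := (hP X Γ Γ n n' 0 hX hΓ hΓ hn hn').2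
  rw [rb_zero, sub_zero] at h5
  have hd := dd_pos (Δ := Γ) n' hΓ hn
  have d1 : (Γ * N) ^ 2 ≤ dd Γ Γ n n' := by
    unfold dd
    have : N ^ 2 * Γ ^ 2 ≤ n ^ 2 * Γ ^ 2 := by gcongr
    nlinarith [mul_nonneg (sq_nonneg n') (sq_nonneg Γ)]
  have d2 : dd Γ Γ n n' ≤ 8 * L ^ 2 * (N * Γ) ^ 2 := by
    unfold dd
    have a1 : n ^ 2 * Γ ^ 2 ≤ (2 * L * N) ^ 2 * Γ ^ 2 := by gcongr
    have a2 : n' ^ 2 * Γ ^ 2 ≤ (2 * L * N) ^ 2 * Γ ^ 2 := by gcongr
    nlinarith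
  have s1 : Γ * N ≤ √(dd Γ Γ n n') := Real.le_sqrt_of_sq_le d1
  have s2 : √(dd Γ Γ n n') / (X * Γ * Γ) ≤ 3 * L := by
    rw [div_le_iff₀ (by positivity)]
    have a1 : √(dd Γ Γ n n') ≤ 3 * L * (N * Γ) :=
      Real.sqrt_le_iff.2 ⟨by positivity, by nlinarith [mul_nonneg (sq_nonneg L) (sq_nonneg (N * Γ))]⟩
    have a2 : N ≤ X * Γ := le_trans (le_mul_of_one_le_left hN.le hy) hyN
    exact a1.trans (by gcongr)
  have s3 : y ^ 2 / (8 * L ^ 2) ≤
      π * (((((0 : ℕ) : ℤ) + 1 : ℤ) : ℝ)) ^ 2 * (X * Γ * Γ) ^ 2 / dd Γ Γ n n' := by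
    rw [div_le_div_iff₀ (by positivity) hd]
    have a1 : (y * N * Γ) ^ 2 ≤ (X * Γ * Γ) ^ 2 := by gcongr
    have a2 : (X * Γ * Γ) ^ 2 ≤ π * (X * Γ * Γ) ^ 2 :=
      le_mul_of_one_le_left (sq_nonneg _) (by linarith [Real.pi_gt_three])
    have a3 := mul_le_mul_of_nonneg_left d2 (sq_nonneg y)
    have a4 := mul_le_mul_of_nonneg_right (a1.trans a2) (by positivity : 0 ≤ 8 * L ^ 2)
    push_cast
    nlinarith
  refine h5.trans (mul_le_mul (by linarith) ?_ (am_nonneg hX.le _ _ _ _ _) (by positivity))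
  unfold am
  refine mul_le_mul ((mul_le_of_le_one_right (by positivity) (Real.exp_le_one_iff.2 ?_)).trans
    (div_le_div_of_nonneg_left hX.le (by positivity) s1)) (Real.exp_le_exp.2 (neg_le_neg s3))
    (Real.exp_pos _).le (by positivity)
  rw [neg_nonpos]
  positivity

theorem zero_stmt (hP : PoisStmt) : ZeroStmt := by
  intro r Λ μ _ hΛ _
  refine ⟨1, one_pos, ?_⟩
  filter_upwards [eventually_ge_atTop 1, E.ev_const_le 2 (γ := 1 / 2000) (by norm_num),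
    E.ev_log_le (24 * (Λ : ℝ) ^ 2) 1 (γ := 1 / 500) (by norm_num),
    eventually_ge_atTop (8 * (Λ : ℝ) ^ 2 * (1 + 3 * Λ))] with x hx hu hl hc
  intro X Δ Γ K P D b c hG hW hD hb hc'
  have hx0 : 0 < x := by linarith
  have hX : 0 < X := by linarith [hG.x1]
  have hL : (1 : ℝ) ≤ Λ := by exact_mod_cast hΛ
  have hK : (1 : ℝ) ≤ K := by exact_mod_cast hG.k1
  have hp : (1 : ℝ) ≤ P := by exact_mod_cast hG.p1
  have hN : (0 : ℝ) < K * P := by positivity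
  obtain ⟨u, hu'⟩ : ∃ u, u = x ^ (1 / 2000 : ℝ) := ⟨_, rfl⟩
  have e : ∀ k : ℕ, x ^ ((k : ℝ) / 2000) = u ^ k := fun k => by
    rw [hu', ← Real.rpow_natCast, ← Real.rpow_mul hx0.le]
    congr 1
    ring
  have e2 : x ^ (-(1 / 1000) : ℝ) = (u ^ 2)⁻¹ := by
    rw [Real.rpow_neg hx0.le, ← e 2]
    norm_num
  have e4 : x ^ (1 / 500 : ℝ) = (u ^ 2) ^ 2 := by
    rw [← pow_mul, ← e]
    norm_num
  have e5 : x ^ (1 / 400 : ℝ) = u ^ 5 := by
    rw [← e 5]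
    norm_num
  rw [← hu'] at hu
  have hu0 : 0 < u := by linarith
  have w1 : 1 ≤ 2 * u ^ 2 * Γ := by
    have a1 := hW.1
    rw [e2, div_le_iff₀ two_pos, inv_le_iff_one_le_mul₀' (by positivity)] at a1
    linarith
  have hΓ : 0 < Γ := by
    by_contra a1
    nlinarith [mul_nonneg (sq_nonneg u) (neg_nonneg.2 (not_lt.1 a1))]
  have w2 : (K : ℝ) * P * u ^ 5 ≤ X := by
    refine le_trans ?_ (e5 ▸ hG.h6)
    have a1 : 1 ≤ Lm X Δ K P ^ 2 * K :=
      one_le_mul_of_one_le_of_one_le (one_le_pow₀ (one_le_Lm _ _ _ _)) hK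
    exact mul_le_mul_of_nonneg_right (le_mul_of_one_le_left hN.le a1) (by positivity)
  have w3 : u ^ 2 * (K * P) ≤ X * Γ := by
    calc u ^ 2 * (K * P) ≤ u ^ 2 * (K * P) * (2 * u ^ 2 * Γ) :=
          le_mul_of_one_le_right (by positivity) w1
      _ ≤ u ^ 2 * (K * P) * (u * u ^ 2 * Γ) := by gcongr
      _ = K * P * u ^ 5 * Γ := by ring
      _ ≤ X * Γ := by gcongr
  have w4 : u ^ 2 ≤ x := by
    rw [← e 2]
    exact (Real.rpow_le_rpow_of_exponent_le hx (by norm_num)).trans (Real.rpow_one x).le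
  have w5 : Real.exp (-((u ^ 2) ^ 2 / (8 * (Λ : ℝ) ^ 2))) ≤ (x ^ 3)⁻¹ := by
    rw [Real.exp_neg]
    refine inv_anti₀ (by positivity) ?_
    rw [← Real.log_le_iff_le_exp (by positivity), Real.log_pow, le_div_iff₀ (by positivity), ← e4]
    push_cast
    linarith
  have hr : ∀ v ∈ D ×ˢ Icc P (Λ * P),
      (K : ℝ) * P ≤ (v.1 : ℝ) * v.2 ∧ (v.1 : ℝ) * v.2 ≤ 2 * Λ * (K * P) := fun v hv => by
    obtain ⟨a1, a2⟩ := mem_product.1 hv
    obtain ⟨-, a3, a4⟩ := hD _ a1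
    obtain ⟨a5, a6⟩ := mem_Icc.1 a2
    refine ⟨by exact_mod_cast Nat.mul_le_mul a3 a5, ?_⟩
    have a7 : v.1 * v.2 ≤ 2 * Λ * (K * P) :=
      (Nat.mul_le_mul a4.le a6).trans (le_of_eq (by ring))
    exact_mod_cast a7
  have hcard : ((D ×ˢ Icc P (Λ * P)).card : ℝ) ≤ Λ * (K * P) := by
    rw [card_product]
    have a1 := (Nat.mul_le_mul hD.card_le (card_Icc_le (Λ := Λ) hG.p1)).trans
      (le_of_eq (show K * (Λ * P) = Λ * (K * P) by ring))
    exact_mod_cast a1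
  obtain ⟨W, hW'⟩ : ∃ W, W = 4 * (1 + 3 * (Λ : ℝ)) * (X / (Γ * (K * P)) * (x ^ 3)⁻¹) := ⟨_, rfl⟩
  have hW0 : 0 ≤ W := by
    rw [hW']
    positivity
  have h1 : |QF D (Icc P (Λ * P)) b c (og X Γ Γ)| ≤ Λ * (K * P) * (Λ * (K * P) * W) := by
    have a0 : ∀ v : ℕ × ℕ, |b v.1 * c v.2| ≤ 1 := fun v => by
      rw [abs_mul]
      exact mul_le_one₀ (hb _) (abs_nonneg _) (hc' _)
    refine (abs_sum_le_sum_abs _ _).trans ((sum_le_card_nsmul _ _ (Λ * (K * P) * W)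
      fun v hv => ?_).trans ?_)
    · refine (abs_sum_le_sum_abs _ _).trans ((sum_le_card_nsmul _ _ W fun w hw => ?_).trans ?_)
      · rw [abs_mul, abs_mul]
        refine (mul_le_of_le_one_left (abs_nonneg _)
          (mul_le_one₀ (a0 v) (abs_nonneg _) (a0 w))).trans
          ((og_Zero hP hX hΓ hN hL (one_le_pow₀ (by linarith)) w3 (hr v hv).1 (hr v hv).2
            (hr w hw).1 (hr w hw).2).trans ?_)
        rw [hW']
        gcongr
      · rw [nsmul_eq_mul]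
        exact mul_le_mul_of_nonneg_right hcard hW0
    · rw [nsmul_eq_mul]
      exact mul_le_mul_of_nonneg_right hcard (by positivity)
  refine h1.trans ?_
  have h2 : Λ * (K * P) * (Λ * (K * P) * W) =
      X * (K * P) * x⁻¹ * (4 * (Λ : ℝ) ^ 2 * (1 + 3 * Λ) / (Γ * x ^ 2)) := by
    rw [hW']
    field_simp
  rw [h2, Real.rpow_neg_one]
  refine mul_le_of_le_one_right (by positivity) ?_
  rw [div_le_one (by positivity)]
  have a1 : 1 ≤ 2 * x * Γ := w1.trans (by gcongr)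
  nlinarith

end Pool.Agent.MP_c853c5_nt.DS

end

section

/-!
The small terms.
-/

set_option autoImplicit false

open Finset Filter Real
open scoped ComplexConjugate

namespace Pool.Agent.MP_c853c5_nt.DT

open Pool.Agent.MP_88bd62_nt.U (ex)
open DS

theorem small_stmt (hP : PoisStmt) : SmallStmt := by
  intro r Λ μ hr hΛ hμ
  have hr0 : (0 : ℝ) < r := by exact_mod_cast (by omega : 0 < r)
  have hγ : 0 < μ / (2 * r) := by positivity
  refine ⟨min (μ / (2 * r)) 1, lt_min hγ one_pos, ?_⟩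
  filter_upwards [E.ev_log_le (44 * (Λ : ℝ) ^ 3) 1 one_pos, E.ev_log_le (24 * (Λ : ℝ) ^ 2) 1 hγ,
    E.ev_le_log 1, eventually_ge_atTop 1] with x e1 e2 hl hx
  intro X Δ Γ K P D b c hG _ hD hb hc
  rw [pow_one] at e1 e2
  rw [Real.rpow_one] at e1
  have hx0 : 0 < x := by linarith
  have hX : 0 < X := by linarith [hG.x1]
  have hΔ : 0 < Δ := (Real.rpow_pos_of_pos hx0 _).trans_le hG.d1
  have hK : (1 : ℝ) ≤ K := by exact_mod_cast hG.k1
  have hP1 : (1 : ℝ) ≤ P := by exact_mod_cast hG.p1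
  have hL : (1 : ℝ) ≤ Λ := by exact_mod_cast hΛ
  have hN : (0 : ℝ) < K * P := by positivity
  have hl0 : 0 < Real.log x := by linarith
  have hB1 : 3 * Λ * Real.log x * (K * P / (X * Δ)) ≤ (bb x X Δ Λ K P : ℝ) + 1 :=
    (Nat.lt_floor_add_one _).le
  have hB2 : (bb x X Δ Λ K P : ℝ) ≤ 3 * Λ * Real.log x * (K * P / (X * Δ)) :=
    Nat.floor_le (by positivity)
  have hH : 3 * Λ * Real.log x * (K * P * Δ) ≤ (hh x Δ Λ K P : ℝ) := Nat.le_ceil _
  refine (sum_Small hP hX hΔ hG.k1 hG.p1 hl0.le hD hb hc hB1 hH).trans ?_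
  have hNX : (K : ℝ) * P ≤ X :=
    (le_mul_of_one_le_left hN.le (one_le_pow₀ hK)).trans hG.h3
  have hs : 1 ≤ x ^ (1 / 2 : ℝ) := Real.one_le_rpow hx (by norm_num)
  have hsΔ : 1 ≤ Δ * x ^ (1 / 2 : ℝ) := by
    calc (1 : ℝ) = x ^ (-(1 / 2) : ℝ) * x ^ (1 / 2 : ℝ) := by
          rw [← Real.rpow_add hx0]
          norm_num
      _ ≤ _ := mul_le_mul_of_nonneg_right hG.d1 (by positivity)
  have hs2 : (x ^ (1 / 2 : ℝ)) ^ 2 = x := by
    rw [← Real.rpow_natCast, ← Real.rpow_mul hx0.le]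
    norm_num
  have he : 44 * (Λ : ℝ) ^ 3 * Real.log x *
      ((x ^ (1 / 2 : ℝ)) ^ 2 * Real.exp (-(3 * Real.log x ^ 2))) ≤ x ^ (-min (μ / (2 * r)) 1) := by
    have a1 : Real.exp (-(3 * Real.log x ^ 2)) ≤ (x ^ 3)⁻¹ := by
      have : (x ^ 3)⁻¹ = Real.exp (-(3 * Real.log x)) := by
        rw [Real.exp_neg, show 3 * Real.log x = ((3 : ℕ) : ℝ) * Real.log x by norm_num,
          Real.exp_nat_mul, Real.exp_log hx0]
      rw [this]
      exact Real.exp_le_exp.2 (by nlinarith)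
    rw [hs2]
    calc 44 * (Λ : ℝ) ^ 3 * Real.log x * (x * Real.exp (-(3 * Real.log x ^ 2)))
        ≤ x * (x * (x ^ 3)⁻¹) :=
          mul_le_mul e1 (mul_le_mul_of_nonneg_left a1 hx0.le) (by positivity) hx0.le
      _ = x ^ (-1 : ℝ) := by
          rw [Real.rpow_neg_one]
          field_simp
      _ ≤ _ := Real.rpow_le_rpow_of_exponent_le hx (neg_le_neg (min_le_right _ _))
  have t1 := fin1_Small hX hΔ hN hL hl hs hsΔ hNX hB2 (Real.exp_pos _).le he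
  have hz : 1 ≤ x ^ (μ / (2 * r)) := Real.one_le_rpow hx hγ.le
  have hM : Lm X Δ K P * (x ^ (μ / (2 * r))) ^ 2 ≤ K * P * Δ := by
    refine root_Small hr (one_le_Lm _ _ _ _) (one_le_pow₀ hz) (by positivity)
      (le_trans (le_of_eq ?_) hG.h2)
    rw [← pow_mul, ← Real.rpow_natCast (x ^ (μ / (2 * r))), ← Real.rpow_mul hx0.le]
    congr 2
    push_cast
    field_simp
  have hw : (x ^ (μ / (2 * r)))⁻¹ ≤ x ^ (-min (μ / (2 * r)) 1) := by
    rw [← Real.rpow_neg hx0.le]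
    exact Real.rpow_le_rpow_of_exponent_le hx (neg_le_neg (min_le_left _ _))
  have t2 := fin2_Small hX hΔ hN (by linarith : (0 : ℝ) < Λ) hl0 (by linarith)
    (hB2.trans (mul_le_mul_of_nonneg_left (le_Lm X Δ K P) (by positivity))) hM e2 hw
  linarith

theorem zero_stmt (hP : PoisStmt) : ZeroStmt := by
  intro r Λ μ _ hΛ _
  refine ⟨1, one_pos, ?_⟩
  filter_upwards [eventually_ge_atTop 1, E.ev_const_le 2 (γ := 1 / 2000) (by norm_num),
    E.ev_log_le (24 * (Λ : ℝ) ^ 2) 1 (γ := 1 / 500) (by norm_num),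
    eventually_ge_atTop (8 * (Λ : ℝ) ^ 2 * (1 + 3 * Λ))] with x hx hu hl hc
  intro X Δ Γ K P D b c hG hW hD hb hc'
  have hx0 : 0 < x := by linarith
  have hX : 0 < X := by linarith [hG.x1]
  have hL : (1 : ℝ) ≤ Λ := by exact_mod_cast hΛ
  have hK : (1 : ℝ) ≤ K := by exact_mod_cast hG.k1
  have hp : (1 : ℝ) ≤ P := by exact_mod_cast hG.p1
  have hN : (0 : ℝ) < K * P := by positivity
  obtain ⟨u, hu'⟩ : ∃ u, u = x ^ (1 / 2000 : ℝ) := ⟨_, rfl⟩
  have e : ∀ k : ℕ, x ^ ((k : ℝ) / 2000) = u ^ k := fun k => by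
    rw [hu', ← Real.rpow_natCast, ← Real.rpow_mul hx0.le]
    congr 1
    ring
  have e2 : x ^ (-(1 / 1000) : ℝ) = (u ^ 2)⁻¹ := by
    rw [Real.rpow_neg hx0.le, ← e 2]
    norm_num
  have e4 : x ^ (1 / 500 : ℝ) = (u ^ 2) ^ 2 := by
    rw [← pow_mul, ← e]
    norm_num
  have e5 : x ^ (1 / 400 : ℝ) = u ^ 5 := by
    rw [← e 5]
    norm_num
  rw [← hu'] at hu
  have hu0 : 0 < u := by linarith
  have w1 : 1 ≤ 2 * u ^ 2 * Γ := by
    have a1 := hW.1
    rw [e2, div_le_iff₀ two_pos, inv_le_iff_one_le_mul₀' (by positivity)] at a1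
    linarith
  have hΓ : 0 < Γ := by
    by_contra a1
    nlinarith [mul_nonneg (sq_nonneg u) (neg_nonneg.2 (not_lt.1 a1))]
  have w2 : (K : ℝ) * P * u ^ 5 ≤ X := by
    refine le_trans ?_ (e5 ▸ hG.h6)
    have a1 : 1 ≤ Lm X Δ K P ^ 2 * K :=
      one_le_mul_of_one_le_of_one_le (one_le_pow₀ (one_le_Lm _ _ _ _)) hK
    exact mul_le_mul_of_nonneg_right (le_mul_of_one_le_left hN.le a1) (by positivity)
  have w3 : u ^ 2 * (K * P) ≤ X * Γ := by
    calc u ^ 2 * (K * P) ≤ u ^ 2 * (K * P) * (2 * u ^ 2 * Γ) :=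
          le_mul_of_one_le_right (by positivity) w1
      _ ≤ u ^ 2 * (K * P) * (u * u ^ 2 * Γ) := by gcongr
      _ = K * P * u ^ 5 * Γ := by ring
      _ ≤ X * Γ := by gcongr
  have w4 : u ^ 2 ≤ x := by
    rw [← e 2]
    exact (Real.rpow_le_rpow_of_exponent_le hx (by norm_num)).trans (Real.rpow_one x).le
  have w5 : Real.exp (-((u ^ 2) ^ 2 / (8 * (Λ : ℝ) ^ 2))) ≤ (x ^ 3)⁻¹ := by
    rw [Real.exp_neg]
    refine inv_anti₀ (by positivity) ?_
    rw [← Real.log_le_iff_le_exp (by positivity), Real.log_pow, le_div_iff₀ (by positivity), ← e4]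
    push_cast
    linarith
  have hr : ∀ v ∈ D ×ˢ Icc P (Λ * P),
      (K : ℝ) * P ≤ (v.1 : ℝ) * v.2 ∧ (v.1 : ℝ) * v.2 ≤ 2 * Λ * (K * P) := fun v hv => by
    obtain ⟨a1, a2⟩ := mem_product.1 hv
    obtain ⟨-, a3, a4⟩ := hD _ a1
    obtain ⟨a5, a6⟩ := mem_Icc.1 a2
    refine ⟨by exact_mod_cast Nat.mul_le_mul a3 a5, ?_⟩
    have a7 : v.1 * v.2 ≤ 2 * Λ * (K * P) :=
      (Nat.mul_le_mul a4.le a6).trans (le_of_eq (by ring))
    exact_mod_cast a7
  have hcard : ((D ×ˢ Icc P (Λ * P)).card : ℝ) ≤ Λ * (K * P) := by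
    rw [card_product]
    have a1 := (Nat.mul_le_mul hD.card_le (card_Icc_le (Λ := Λ) hG.p1)).trans
      (le_of_eq (show K * (Λ * P) = Λ * (K * P) by ring))
    exact_mod_cast a1
  obtain ⟨W, hW'⟩ : ∃ W, W = 4 * (1 + 3 * (Λ : ℝ)) * (X / (Γ * (K * P)) * (x ^ 3)⁻¹) := ⟨_, rfl⟩
  have hW0 : 0 ≤ W := by
    rw [hW']
    positivity
  have h1 : |QF D (Icc P (Λ * P)) b c (og X Γ Γ)| ≤ Λ * (K * P) * (Λ * (K * P) * W) := by
    have a0 : ∀ v : ℕ × ℕ, |b v.1 * c v.2| ≤ 1 := fun v => by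
      rw [abs_mul]
      exact mul_le_one₀ (hb _) (abs_nonneg _) (hc' _)
    refine (abs_sum_le_sum_abs _ _).trans ((sum_le_card_nsmul _ _ (Λ * (K * P) * W)
      fun v hv => ?_).trans ?_)
    · refine (abs_sum_le_sum_abs _ _).trans ((sum_le_card_nsmul _ _ W fun w hw => ?_).trans ?_)
      · rw [abs_mul, abs_mul]
        refine (mul_le_of_le_one_left (abs_nonneg _)
          (mul_le_one₀ (a0 v) (abs_nonneg _) (a0 w))).trans
          ((og_Zero hP hX hΓ hN hL (one_le_pow₀ (by linarith)) w3 (hr v hv).1 (hr v hv).2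
            (hr w hw).1 (hr w hw).2).trans ?_)
        rw [hW']
        gcongr
      · rw [nsmul_eq_mul]
        exact mul_le_mul_of_nonneg_right hcard hW0
    · rw [nsmul_eq_mul]
      exact mul_le_mul_of_nonneg_right hcard (by positivity)
  refine h1.trans ?_
  have h2 : Λ * (K * P) * (Λ * (K * P) * W) =
      X * (K * P) * x⁻¹ * (4 * (Λ : ℝ) ^ 2 * (1 + 3 * Λ) / (Γ * x ^ 2)) := by
    rw [hW']
    field_simp
  rw [h2, Real.rpow_neg_one]
  refine mul_le_of_le_one_right (by positivity) ?_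
  rw [div_le_one (by positivity)]
  have a1 : 1 ≤ 2 * x * Γ := w1.trans (by gcongr)
  nlinarith

end Pool.Agent.MP_c853c5_nt.DT

end

section

/-!
The main term of the dispersion by the mean value.
-/

set_option autoImplicit false

open Finset Filter Real MeasureTheory

namespace Pool.Agent.MP_c853c5_nt.DU

open DS (Lm bb hh one_le_Lm le_Lm root_Small)

lemma key_LongU (m : ℕ) {K J L y : ℝ} (hK : 0 < K) (hJ : 0 < J) (hL : 0 ≤ L) (hy : 0 ≤ y)
    (h8 : L ^ (m + 1) * y ≤ K ^ m)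
    (hE : L ^ (m + 1) * K ^ (m + 1 + 2) * y ≤ (K * J) ^ (2 * (m + 1) + 1)) :
    (1 + J) ^ 2 * (K ^ (m + 1) * (L ^ (m + 1) * y)) ≤ 4 * J ^ 2 * (K * min J 1) ^ (2 * m + 1) := by
  rcases le_total J 1 with h | h
  · rw [min_eq_left h]
    have h1 : K ^ (m + 1) * (L ^ (m + 1) * y) ≤ J ^ 2 * (K * J) ^ (2 * m + 1) := by
      refine le_of_mul_le_mul_left ?_ (pow_pos hK 2)
      calc _ = L ^ (m + 1) * K ^ (m + 1 + 2) * y := by ring
        _ ≤ _ := hE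
        _ = _ := by ring
    calc _ ≤ (1 + 1) ^ 2 * (J ^ 2 * (K * J) ^ (2 * m + 1)) := by gcongr
      _ = _ := by ring
  · rw [min_eq_right h]
    calc _ ≤ (J + J) ^ 2 * (K ^ (m + 1) * K ^ m) := by gcongr
      _ = _ := by ring

lemma fin_LongU (m : ℕ) {C Λ X K P Δ w B L c y z : ℝ} (hC : 0 < C) (hX : 0 < X) (hK : 0 < K)
    (hP : 0 < P) (hΔ : 0 < Δ) (hB0 : 0 ≤ B) (hL : 0 ≤ L) (hc : 0 ≤ c) (hz : 0 < z)
    (h8 : L ^ (m + 1) * y ≤ K ^ m)
    (hE : L ^ (m + 1) * K ^ (m + 1 + 2) * y ≤ (K * P * Δ) ^ (2 * (m + 1) + 1)) (hB : B ≤ c * L)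
    (h1 : 8 * C * Λ ^ 2 ≤ z) (h2 : 16 * C * Λ ^ 2 * w ^ 2 * c ^ (m + 1) ≤ z)
    (h3 : z ^ (4 * (m + 1)) ≤ y) :
    C * Λ ^ 2 * X * (K * min (P * Δ) 1 / z ^ 2 * (1 + P * Δ) / Δ +
      w ^ 2 * (1 + P * Δ) ^ 2 * (K ^ (m + 1 + 1) * B ^ (m + 1)) /
        (P * Δ ^ 2 * (K * min (P * Δ) 1 / z ^ 2) ^ (2 * (m + 1) - 1))) ≤
      X * (K * P) * z⁻¹ / 2 := by
  have hJ : 0 < P * Δ := by positivity
  have hj : 0 < min (P * Δ) 1 := lt_min hJ one_pos
  have k1 := key_LongU m hK hJ hL ((pow_pos hz _).le.trans h3) h8 (by rwa [← mul_assoc])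
  have k2 : min (P * Δ) 1 * (1 + P * Δ) ≤ 2 * (P * Δ) := by
    nlinarith [min_le_left (P * Δ) 1, mul_le_mul_of_nonneg_right (min_le_right (P * Δ) 1) hJ.le]
  rw [show 2 * (m + 1) - 1 = 2 * m + 1 by omega]
  generalize min (P * Δ) 1 = j at *
  have t1 : C * Λ ^ 2 * X * (K * j / z ^ 2 * (1 + P * Δ) / Δ) ≤ X * (K * P) * z⁻¹ / 4 := by
    calc _ = C * Λ ^ 2 * (j * (1 + P * Δ)) * (X * K / (Δ * z ^ 2)) := by
          field_simp
      _ ≤ C * Λ ^ 2 * (2 * (P * Δ)) * (X * K / (Δ * z ^ 2)) := by gcongr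
      _ = 8 * C * Λ ^ 2 * (X * (K * P) / (4 * z ^ 2)) := by
          field_simp
          ring
      _ ≤ z * (X * (K * P) / (4 * z ^ 2)) := by gcongr
      _ = _ := by field_simp
  have t2 : C * Λ ^ 2 * X * (w ^ 2 * (1 + P * Δ) ^ 2 * (K ^ (m + 1 + 1) * B ^ (m + 1)) /
      (P * Δ ^ 2 * (K * j / z ^ 2) ^ (2 * m + 1))) ≤ X * (K * P) * z⁻¹ / 4 := by
    obtain ⟨u, hu⟩ : ∃ u, u = X * K / (16 * P * Δ ^ 2 * (K * j) ^ (2 * m + 1) * z) := ⟨_, rfl⟩
    have hu0 : 0 ≤ u := by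
      rw [hu]
      positivity
    calc _ ≤ C * Λ ^ 2 * X * (w ^ 2 * (1 + P * Δ) ^ 2 * (K ^ (m + 1 + 1) * (c * L) ^ (m + 1)) /
          (P * Δ ^ 2 * (K * j / z ^ 2) ^ (2 * m + 1))) := by gcongr
      _ = (1 + P * Δ) ^ 2 * (K ^ (m + 1) * (L ^ (m + 1) *
          (16 * C * Λ ^ 2 * w ^ 2 * c ^ (m + 1) * z ^ (4 * m + 3)))) * u := by
          rw [hu, div_pow, mul_pow c]
          field_simp
          ring
      _ ≤ (1 + P * Δ) ^ 2 * (K ^ (m + 1) * (L ^ (m + 1) * y)) * u := by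
          gcongr
          refine le_trans ?_ h3
          rw [show 4 * (m + 1) = 4 * m + 3 + 1 by ring, pow_succ' z (4 * m + 3)]
          gcongr
      _ ≤ 4 * (P * Δ) ^ 2 * (K * j) ^ (2 * m + 1) * u := mul_le_mul_of_nonneg_right k1 hu0
      _ = _ := by
          rw [hu]
          field_simp
          ring
  rw [mul_add]
  linarith

lemma trunc_LongU {x Λ X N Δ B L c z e : ℝ} (hx : 0 < x) (hΛ : 0 < Λ) (hX : 0 < X) (hN : 0 < N)
    (hΔ : 0 < Δ) (hL : 0 ≤ L) (hz : 0 < z) (he0 : 0 ≤ e) (hB : B ≤ c * L) (hBx : B ≤ 2 * x)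
    (hzx : z ≤ x) (hΔx : 1 ≤ Δ * x) (he : e ≤ (x ^ 4)⁻¹) (h1 : 16 * Λ ^ 2 ≤ x)
    (h2 : 16 * Λ * c ≤ z) (hM : L * z ^ 2 ≤ N * Δ) :
    2 * B * X / Δ * (Λ ^ 2 * N * e + 2 * Λ) ≤ X * N * z⁻¹ / 2 := by
  have t1 : 2 * B * X / Δ * (Λ ^ 2 * N * e) ≤ X * N * z⁻¹ / 4 := by
    calc _ ≤ 2 * (2 * x) * X / Δ * (Λ ^ 2 * N * (x ^ 4)⁻¹) := by gcongr
      _ = 16 * Λ ^ 2 * 1 * z * (X * N * z⁻¹ / (4 * Δ * x ^ 3)) := by
          field_simp
          ring
      _ ≤ x * (Δ * x) * x * (X * N * z⁻¹ / (4 * Δ * x ^ 3)) := by gcongr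
      _ = _ := by field_simp
  have t2 : 2 * B * X / Δ * (2 * Λ) ≤ X * N * z⁻¹ / 4 := by
    calc _ ≤ 2 * (c * L) * X / Δ * (2 * Λ) := by gcongr
      _ = 16 * Λ * c * (L * X / (4 * Δ)) := by
          field_simp
          ring
      _ ≤ z * (L * X / (4 * Δ)) := by gcongr
      _ = L * z ^ 2 * (X / (4 * Δ * z)) := by field_simp
      _ ≤ N * Δ * (X / (4 * Δ * z)) := by gcongr
      _ = _ := by field_simp
  rw [mul_add]
  linarith

theorem long_stmt (hF : FormStmt) (hT : TruncStmt) : DU.LongStmt := by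
  intro r Λ μ hr hΛ hμ
  obtain ⟨C, hC, hF⟩ := hF r (by omega)
  obtain ⟨m, rfl⟩ : ∃ m, r = m + 1 := ⟨r - 1, by omega⟩
  have hΛ' : (1 : ℝ) ≤ Λ := by exact_mod_cast hΛ
  have hr0 : (0 : ℝ) < ((4 * (m + 1) : ℕ) : ℝ) := by positivity
  obtain ⟨ν, h0, n1, n2⟩ : ∃ ν : ℝ, 0 < ν ∧ ν * ((4 * (m + 1) : ℕ) : ℝ) ≤ μ ∧ ν ≤ 1 :=
    ⟨min (μ / ((4 * (m + 1) : ℕ) : ℝ)) 1, lt_min (by positivity) one_pos,
      (le_div_iff₀ hr0).1 (min_le_left _ _), min_le_right _ _⟩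
  refine ⟨ν, h0, ?_⟩
  filter_upwards [eventually_ge_atTop (16 * (Λ : ℝ) ^ 2), E.ev_le_log 2,
    E.ev_const_le (8 * C * Λ ^ 2) h0, E.ev_log_le (48 * Λ ^ 2) 1 h0,
    E.ev_log_le (16 * C * Λ ^ 2 * (4 ^ (m + 1) * 2) ^ 2 * (3 * Λ) ^ (m + 1)) (m + 3) h0,
    E.ev_log_le (2 * 4 ^ (2 * (m + 1) + 1) * (3 * Λ)) 1 (show (0 : ℝ) < 1 / 400 by norm_num),
    E.ev_const_le (2 * Λ) (show (0 : ℝ) < 1 / 3 by norm_num)]
    with x hx hl e1 e2 e3 e4 e5 X Δ K P D α G hE hD hα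
  rw [pow_one] at e2 e4
  have hx5 : 5 ≤ x := by linarith [one_le_pow₀ (n := 2) hΛ']
  have hx0 : 0 < x := by linarith
  have hΔ : 0 < Δ := (Real.rpow_pos_of_pos hx0 _).trans_le G.d1
  have hX : 0 < X := lt_of_lt_of_le (by linarith) G.x1
  have hK : (1 : ℝ) ≤ K := by exact_mod_cast G.k1
  have hP : (1 : ℝ) ≤ P := by exact_mod_cast G.p1
  have hL := one_le_Lm X Δ K P
  have hB : (bb x X Δ Λ K P : ℝ) ≤ 3 * Λ * Real.log x * Lm X Δ K P :=
    (Nat.floor_le (by positivity)).trans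
      (mul_le_mul_of_nonneg_left (le_Lm X Δ K P) (by positivity))
  have hH : 3 * Λ * Real.log x * (K * P * Δ) ≤ (hh x Δ Λ K P : ℝ) := Nat.le_ceil _
  generalize bb x X Δ Λ K P = B at *
  generalize hh x Δ Λ K P = H at *
  have hz1 : 1 ≤ x ^ ν := Real.one_le_rpow (by linarith) h0.le
  have hz2 : x ^ ν ≤ x :=
    (Real.rpow_le_rpow_of_exponent_le (by linarith) n2).trans (Real.rpow_one x).le
  have hz3 : (x ^ ν) ^ (4 * (m + 1)) ≤ x ^ μ := by
    rw [← Real.rpow_natCast, ← Real.rpow_mul hx0.le]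
    exact Real.rpow_le_rpow_of_exponent_le (by linarith) n1
  have hNX : (K : ℝ) * P ≤ 2 * x :=
    ((le_mul_of_one_le_left (by positivity) (one_le_pow₀ hK)).trans G.h3).trans G.x2
  have hKx : (K : ℝ) ≤ 2 * x := (le_mul_of_one_le_right (by positivity) hP).trans hNX
  have hPx : (P : ℝ) ≤ 2 * x := (le_mul_of_one_le_left (by positivity) hK).trans hNX
  have b1 : (4 : ℝ) ^ (2 * (m + 1) + 1) * B < K := by
    have a1 := mul_le_mul_of_nonneg_left hB (by positivity : (0 : ℝ) ≤ 4 ^ (2 * (m + 1) + 1))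
    have a2 := (mul_le_mul_of_nonneg_left e4 (zero_le_one.trans hL)).trans G.h5
    linarith
  have b2 : (B : ℝ) ≤ 2 * x := by
    have a1 : (B : ℝ) ≤ 4 ^ (2 * (m + 1) + 1) * B :=
      le_mul_of_one_le_left (by positivity) (one_le_pow₀ (by norm_num))
    linarith
  have b3 : Δ * x ^ (1 / 3 : ℝ) ≤ 1 := by
    refine (mul_le_mul_of_nonneg_right G.d2 (by positivity)).trans_eq ?_
    rw [← Real.rpow_add hx0]
    norm_num
  have b4 : Δ ^ 3 * x ≤ 1 := by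
    have a1 := pow_le_one₀ (n := 3) (by positivity) b3
    rwa [mul_pow, ← Real.rpow_natCast (x ^ (1 / 3 : ℝ)), ← Real.rpow_mul hx0.le,
      show (1 / 3 : ℝ) * (3 : ℕ) = 1 by norm_num, Real.rpow_one] at a1
  have b5 : 2 * Λ * Δ ≤ 1 := (mul_le_mul_of_nonneg_right e5 hΔ.le).trans (by rwa [mul_comm])
  have b6 : (Λ : ℝ) * P * Δ ^ 4 ≤ 1 := by
    calc (Λ : ℝ) * P * Δ ^ 4 ≤ Λ * (2 * x) * Δ ^ 4 := by gcongr
      _ = 2 * Λ * Δ * (Δ ^ 3 * x) := by ring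
      _ ≤ 1 := mul_le_one₀ b5 (by positivity) b4
  have b7 : 1 ≤ Δ * x := by
    calc (1 : ℝ) = x ^ (-1 : ℝ) * x := by rw [Real.rpow_neg_one, inv_mul_cancel₀ hx0.ne']
      _ ≤ _ := mul_le_mul_of_nonneg_right
        ((Real.rpow_le_rpow_of_exponent_le (by linarith) (by norm_num)).trans G.d1) hx0.le
  have h4 : (1 : ℝ) ≤ 4 ^ (m + 1) := one_le_pow₀ (by norm_num)
  have h5 := mul_le_mul_of_nonneg_right h4 (zero_le_two.trans hl)
  have b8 : (2 * K : ℝ) ^ (2 * (m + 1)) * P ≤ 4 ^ (m + 1) * 2 * Real.log x * (X * K) := by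
    have a1 := G.h3
    rw [show 2 * (m + 1) - 2 = 2 * m by omega] at a1
    calc (2 * K : ℝ) ^ (2 * (m + 1)) * P = 4 ^ (m + 1) * 1 * (K ^ (2 * m) * (K * P) * K) := by
          rw [mul_pow, pow_mul 2]
          norm_num
          ring
      _ ≤ 4 ^ (m + 1) * (2 * Real.log x) * (X * K) := by
          gcongr
          linarith
      _ = _ := by ring
  have b9 : Real.log (2 * K + 1) ≤ 4 ^ (m + 1) * 2 * Real.log x := by
    have a1 : Real.log (2 * K + 1) ≤ Real.log (x ^ 2) :=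
      Real.log_le_log (by positivity) (by linarith [mul_le_mul_of_nonneg_right hx5 hx0.le])
    rw [Real.log_pow] at a1
    push_cast at a1
    linarith
  have he : Real.exp (-(3 * Real.log x ^ 2)) ≤ (x ^ 4)⁻¹ := by
    rw [← Real.exp_log (show 0 < x ^ 4 by positivity), ← Real.exp_neg, Real.log_pow]
    refine Real.exp_le_exp.2 ?_
    push_cast
    linarith [mul_le_mul_of_nonneg_right hl (zero_le_two.trans hl)]
  have hM : Lm X Δ K P * (x ^ ν) ^ 2 ≤ K * P * Δ := by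
    refine root_Small hr hL (one_le_pow₀ hz1) (by positivity) (le_trans ?_ G.h2)
    rw [← pow_mul]
    exact mul_le_mul_of_nonneg_left ((pow_le_pow_right₀ hz1 (by omega)).trans hz3) (by positivity)
  have t1 := (hF K P Λ B D X Δ _ (K * min (P * Δ) 1 / (x ^ ν) ^ 2) α hD (by exact_mod_cast b1) hX hΔ
    (by linarith [mul_le_mul_of_nonneg_right hΛ' hΔ.le]) G.p1 hΛ b6 (by linarith) b8 b9
    (by positivity) hα).trans
    (fin_LongU m hC hX (by linarith) (by linarith) hΔ (Nat.cast_nonneg B) (by linarith)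
      (by positivity) (by linarith) G.h8 hE hB e1 (le_of_eq_of_le (by ring) e3) hz3)
  have t2 := (hT X Δ _ K P Λ B H D α hX hΔ (by linarith) G.k1 G.p1 hD hα hH).trans
    (trunc_LongU hx0 (by linarith) hX (by positivity) hΔ (by linarith) (by linarith)
      (Real.exp_pos _).le hB b2 hz2 b7 he hx (by linarith) hM)
  rw [Real.rpow_neg hx0.le]
  rw [abs_le] at t1 t2 ⊢
  constructor <;> linarith [t1.1, t1.2, t2.1, t2.2]

end Pool.Agent.MP_c853c5_nt.DU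

end

section

/-!
The small terms.
-/

set_option autoImplicit false

open Finset Filter Real
open scoped ComplexConjugate

namespace Pool.Agent.MP_c853c5_nt.DU

open Pool.Agent.MP_88bd62_nt.U (ex)
open DS

theorem small_stmt (hP : PoisStmt) : SmallStmt := by
  intro r Λ μ hr hΛ hμ
  have hr0 : (0 : ℝ) < r := by exact_mod_cast (by omega : 0 < r)
  have hγ : 0 < μ / (2 * r) := by positivity
  refine ⟨min (μ / (2 * r)) 1, lt_min hγ one_pos, ?_⟩
  filter_upwards [E.ev_log_le (44 * (Λ : ℝ) ^ 3) 1 one_pos, E.ev_log_le (24 * (Λ : ℝ) ^ 2) 1 hγ,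
    E.ev_le_log 1, eventually_ge_atTop 1] with x e1 e2 hl hx
  intro X Δ Γ K P D b c hG _ hD hb hc
  rw [pow_one] at e1 e2
  rw [Real.rpow_one] at e1
  have hx0 : 0 < x := by linarith
  have hX : 0 < X := by linarith [hG.x1]
  have hΔ : 0 < Δ := (Real.rpow_pos_of_pos hx0 _).trans_le hG.d1
  have hK : (1 : ℝ) ≤ K := by exact_mod_cast hG.k1
  have hP1 : (1 : ℝ) ≤ P := by exact_mod_cast hG.p1
  have hL : (1 : ℝ) ≤ Λ := by exact_mod_cast hΛ
  have hN : (0 : ℝ) < K * P := by positivity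
  have hl0 : 0 < Real.log x := by linarith
  have hB1 : 3 * Λ * Real.log x * (K * P / (X * Δ)) ≤ (bb x X Δ Λ K P : ℝ) + 1 :=
    (Nat.lt_floor_add_one _).le
  have hB2 : (bb x X Δ Λ K P : ℝ) ≤ 3 * Λ * Real.log x * (K * P / (X * Δ)) :=
    Nat.floor_le (by positivity)
  have hH : 3 * Λ * Real.log x * (K * P * Δ) ≤ (hh x Δ Λ K P : ℝ) := Nat.le_ceil _
  refine (sum_Small hP hX hΔ hG.k1 hG.p1 hl0.le hD hb hc hB1 hH).trans ?_
  have hNX : (K : ℝ) * P ≤ X :=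
    (le_mul_of_one_le_left hN.le (one_le_pow₀ hK)).trans hG.h3
  have hs : 1 ≤ x ^ (1 / 2 : ℝ) := Real.one_le_rpow hx (by norm_num)
  have hsΔ : 1 ≤ Δ * x ^ (1 / 2 : ℝ) := by
    calc (1 : ℝ) = x ^ (-(1 / 2) : ℝ) * x ^ (1 / 2 : ℝ) := by
          rw [← Real.rpow_add hx0]
          norm_num
      _ ≤ _ := mul_le_mul_of_nonneg_right hG.d1 (by positivity)
  have hs2 : (x ^ (1 / 2 : ℝ)) ^ 2 = x := by
    rw [← Real.rpow_natCast, ← Real.rpow_mul hx0.le]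
    norm_num
  have he : 44 * (Λ : ℝ) ^ 3 * Real.log x *
      ((x ^ (1 / 2 : ℝ)) ^ 2 * Real.exp (-(3 * Real.log x ^ 2))) ≤ x ^ (-min (μ / (2 * r)) 1) := by
    have a1 : Real.exp (-(3 * Real.log x ^ 2)) ≤ (x ^ 3)⁻¹ := by
      have : (x ^ 3)⁻¹ = Real.exp (-(3 * Real.log x)) := by
        rw [Real.exp_neg, show 3 * Real.log x = ((3 : ℕ) : ℝ) * Real.log x by norm_num,
          Real.exp_nat_mul, Real.exp_log hx0]
      rw [this]
      exact Real.exp_le_exp.2 (by nlinarith)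
    rw [hs2]
    calc 44 * (Λ : ℝ) ^ 3 * Real.log x * (x * Real.exp (-(3 * Real.log x ^ 2)))
        ≤ x * (x * (x ^ 3)⁻¹) :=
          mul_le_mul e1 (mul_le_mul_of_nonneg_left a1 hx0.le) (by positivity) hx0.le
      _ = x ^ (-1 : ℝ) := by
          rw [Real.rpow_neg_one]
          field_simp
      _ ≤ _ := Real.rpow_le_rpow_of_exponent_le hx (neg_le_neg (min_le_right _ _))
  have t1 := fin1_Small hX hΔ hN hL hl hs hsΔ hNX hB2 (Real.exp_pos _).le he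
  have hz : 1 ≤ x ^ (μ / (2 * r)) := Real.one_le_rpow hx hγ.le
  have hM : Lm X Δ K P * (x ^ (μ / (2 * r))) ^ 2 ≤ K * P * Δ := by
    refine root_Small hr (one_le_Lm _ _ _ _) (one_le_pow₀ hz) (by positivity)
      (le_trans (le_of_eq ?_) hG.h2)
    rw [← pow_mul, ← Real.rpow_natCast (x ^ (μ / (2 * r))), ← Real.rpow_mul hx0.le]
    congr 2
    push_cast
    field_simp
  have hw : (x ^ (μ / (2 * r)))⁻¹ ≤ x ^ (-min (μ / (2 * r)) 1) := by
    rw [← Real.rpow_neg hx0.le]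
    exact Real.rpow_le_rpow_of_exponent_le hx (neg_le_neg (min_le_left _ _))
  have t2 := fin2_Small hX hΔ hN (by linarith : (0 : ℝ) < Λ) hl0 (by linarith)
    (hB2.trans (mul_le_mul_of_nonneg_left (le_Lm X Δ K P) (by positivity))) hM e2 hw
  linarith

theorem zero_stmt (hP : PoisStmt) : ZeroStmt := by
  intro r Λ μ _ hΛ _
  refine ⟨1, one_pos, ?_⟩
  filter_upwards [eventually_ge_atTop 1, E.ev_const_le 2 (γ := 1 / 2000) (by norm_num),
    E.ev_log_le (24 * (Λ : ℝ) ^ 2) 1 (γ := 1 / 500) (by norm_num),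
    eventually_ge_atTop (8 * (Λ : ℝ) ^ 2 * (1 + 3 * Λ))] with x hx hu hl hc
  intro X Δ Γ K P D b c hG hW hD hb hc'
  have hx0 : 0 < x := by linarith
  have hX : 0 < X := by linarith [hG.x1]
  have hL : (1 : ℝ) ≤ Λ := by exact_mod_cast hΛ
  have hK : (1 : ℝ) ≤ K := by exact_mod_cast hG.k1
  have hp : (1 : ℝ) ≤ P := by exact_mod_cast hG.p1
  have hN : (0 : ℝ) < K * P := by positivity
  obtain ⟨u, hu'⟩ : ∃ u, u = x ^ (1 / 2000 : ℝ) := ⟨_, rfl⟩
  have e : ∀ k : ℕ, x ^ ((k : ℝ) / 2000) = u ^ k := fun k => by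
    rw [hu', ← Real.rpow_natCast, ← Real.rpow_mul hx0.le]
    congr 1
    ring
  have e2 : x ^ (-(1 / 1000) : ℝ) = (u ^ 2)⁻¹ := by
    rw [Real.rpow_neg hx0.le, ← e 2]
    norm_num
  have e4 : x ^ (1 / 500 : ℝ) = (u ^ 2) ^ 2 := by
    rw [← pow_mul, ← e]
    norm_num
  have e5 : x ^ (1 / 400 : ℝ) = u ^ 5 := by
    rw [← e 5]
    norm_num
  rw [← hu'] at hu
  have hu0 : 0 < u := by linarith
  have w1 : 1 ≤ 2 * u ^ 2 * Γ := by
    have a1 := hW.1
    rw [e2, div_le_iff₀ two_pos, inv_le_iff_one_le_mul₀' (by positivity)] at a1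
    linarith
  have hΓ : 0 < Γ := by
    by_contra a1
    nlinarith [mul_nonneg (sq_nonneg u) (neg_nonneg.2 (not_lt.1 a1))]
  have w2 : (K : ℝ) * P * u ^ 5 ≤ X := by
    refine le_trans ?_ (e5 ▸ hG.h6)
    have a1 : 1 ≤ Lm X Δ K P ^ 2 * K :=
      one_le_mul_of_one_le_of_one_le (one_le_pow₀ (one_le_Lm _ _ _ _)) hK
    exact mul_le_mul_of_nonneg_right (le_mul_of_one_le_left hN.le a1) (by positivity)
  have w3 : u ^ 2 * (K * P) ≤ X * Γ := by
    calc u ^ 2 * (K * P) ≤ u ^ 2 * (K * P) * (2 * u ^ 2 * Γ) :=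
          le_mul_of_one_le_right (by positivity) w1
      _ ≤ u ^ 2 * (K * P) * (u * u ^ 2 * Γ) := by gcongr
      _ = K * P * u ^ 5 * Γ := by ring
      _ ≤ X * Γ := by gcongr
  have w4 : u ^ 2 ≤ x := by
    rw [← e 2]
    exact (Real.rpow_le_rpow_of_exponent_le hx (by norm_num)).trans (Real.rpow_one x).le
  have w5 : Real.exp (-((u ^ 2) ^ 2 / (8 * (Λ : ℝ) ^ 2))) ≤ (x ^ 3)⁻¹ := by
    rw [Real.exp_neg]
    refine inv_anti₀ (by positivity) ?_
    rw [← Real.log_le_iff_le_exp (by positivity), Real.log_pow, le_div_iff₀ (by positivity), ← e4]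
    push_cast
    linarith
  have hr : ∀ v ∈ D ×ˢ Icc P (Λ * P),
      (K : ℝ) * P ≤ (v.1 : ℝ) * v.2 ∧ (v.1 : ℝ) * v.2 ≤ 2 * Λ * (K * P) := fun v hv => by
    obtain ⟨a1, a2⟩ := mem_product.1 hv
    obtain ⟨-, a3, a4⟩ := hD _ a1
    obtain ⟨a5, a6⟩ := mem_Icc.1 a2
    refine ⟨by exact_mod_cast Nat.mul_le_mul a3 a5, ?_⟩
    have a7 : v.1 * v.2 ≤ 2 * Λ * (K * P) :=
      (Nat.mul_le_mul a4.le a6).trans (le_of_eq (by ring))
    exact_mod_cast a7
  have hcard : ((D ×ˢ Icc P (Λ * P)).card : ℝ) ≤ Λ * (K * P) := by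
    rw [card_product]
    have a1 := (Nat.mul_le_mul hD.card_le (card_Icc_le (Λ := Λ) hG.p1)).trans
      (le_of_eq (show K * (Λ * P) = Λ * (K * P) by ring))
    exact_mod_cast a1
  obtain ⟨W, hW'⟩ : ∃ W, W = 4 * (1 + 3 * (Λ : ℝ)) * (X / (Γ * (K * P)) * (x ^ 3)⁻¹) := ⟨_, rfl⟩
  have hW0 : 0 ≤ W := by
    rw [hW']
    positivity
  have h1 : |QF D (Icc P (Λ * P)) b c (og X Γ Γ)| ≤ Λ * (K * P) * (Λ * (K * P) * W) := by
    have a0 : ∀ v : ℕ × ℕ, |b v.1 * c v.2| ≤ 1 := fun v => by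
      rw [abs_mul]
      exact mul_le_one₀ (hb _) (abs_nonneg _) (hc' _)
    refine (abs_sum_le_sum_abs _ _).trans ((sum_le_card_nsmul _ _ (Λ * (K * P) * W)
      fun v hv => ?_).trans ?_)
    · refine (abs_sum_le_sum_abs _ _).trans ((sum_le_card_nsmul _ _ W fun w hw => ?_).trans ?_)
      · rw [abs_mul, abs_mul]
        refine (mul_le_of_le_one_left (abs_nonneg _)
          (mul_le_one₀ (a0 v) (abs_nonneg _) (a0 w))).trans
          ((og_Zero hP hX hΓ hN hL (one_le_pow₀ (by linarith)) w3 (hr v hv).1 (hr v hv).2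
            (hr w hw).1 (hr w hw).2).trans ?_)
        rw [hW']
        gcongr
      · rw [nsmul_eq_mul]
        exact mul_le_mul_of_nonneg_right hcard hW0
    · rw [nsmul_eq_mul]
      exact mul_le_mul_of_nonneg_right hcard (by positivity)
  refine h1.trans ?_
  have h2 : Λ * (K * P) * (Λ * (K * P) * W) =
      X * (K * P) * x⁻¹ * (4 * (Λ : ℝ) ^ 2 * (1 + 3 * Λ) / (Γ * x ^ 2)) := by
    rw [hW']
    field_simp
  rw [h2, Real.rpow_neg_one]
  refine mul_le_of_le_one_right (by positivity) ?_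
  rw [div_le_one (by positivity)]
  have a1 : 1 ≤ 2 * x * Γ := w1.trans (by gcongr)
  nlinarith

end Pool.Agent.MP_c853c5_nt.DU

end

section

/-!
The truncation of the kernel costs little.
-/

set_option autoImplicit false

open Finset Filter Real MeasureTheory

namespace Pool.Agent.MP_c853c5_nt.DU

open DS (PrK G0 am rb dd dd_Small exp_Small exp_one_Small am_Small rb_Small cnt_Small swap_Small
  dd_pos card_Icc_le)
open DT (G1)

/-- one term of the difference -/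
lemma term_TruncU {X Δ N L l : ℝ} {B H a a' : ℕ} (hX : 0 < X) (hΔ : 0 < Δ)
    (hN : 0 < N) (hl : 0 ≤ l) (h1 : N ≤ a) (h2 : (a : ℝ) ≤ 2 * L * N) (h3 : N ≤ a')
    (h4 : (a' : ℝ) ≤ 2 * L * N) (hH : 3 * L * l * (N * Δ) ≤ H) :
    |rb X Δ Δ B a a' - if a ≠ a' ∧ a ≤ a' + H ∧ a' ≤ a + H then rb X Δ Δ B a a' else 0| ≤
      2 * B * (X / (Δ * N) * Real.exp (-(3 * l ^ 2))) +
        if a = a' then 2 * B * (X / (Δ * N)) else 0 := by
  obtain ⟨d1, d2, -⟩ := dd_Small hΔ hN h1 h2 h3 h4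
  have hn : (0 : ℝ) < a := hN.trans_le h1
  have hLN : 0 < L * N := by linarith
  have hL : 0 < L := (pos_iff_pos_of_mul_pos hLN).2 hN
  have hd : 0 < dd Δ Δ (a : ℝ) a' := dd_pos _ hΔ hn
  have hBE : 0 ≤ 2 * (B : ℝ) * (X / (Δ * N) * Real.exp (-(3 * l ^ 2))) := by positivity
  by_cases hc : a ≠ a' ∧ a ≤ a' + H ∧ a' ≤ a + H
  · rw [if_pos hc, if_neg hc.1, sub_self, abs_zero, add_zero]
    exact hBE
  · rw [if_neg hc, sub_zero]
    by_cases he : a = a'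
    · rw [if_pos he]
      have := rb_Small (E := X / (Δ * N)) B hX fun h =>
        (am_Small (e₁ := 1) (e₂ := 1) h hX hΔ hN d1 (exp_one_Small hd (sq_nonneg _))
          (exp_one_Small hd (by positivity))).trans_eq (by ring)
      linarith
    · rw [if_neg he, add_zero]
      have hfar : (H : ℝ) ≤ |(a : ℝ) - a'| := by
        by_cases hq : a ≤ a' + H
        · have : a + H ≤ a' := by
            by_contra hq'
            exact hc ⟨he, hq, by omega⟩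
          have : (a : ℝ) + H ≤ a' := by exact_mod_cast this
          exact le_abs.2 (Or.inr (by linarith))
        · have : a' + H ≤ a := by omega
          have : (a' : ℝ) + H ≤ a := by exact_mod_cast this
          exact le_abs.2 (Or.inl (by linarith))
      have hsq : (3 * l * (L * N * Δ)) ^ 2 ≤ ((a : ℝ) - a') ^ 2 := by
        rw [← sq_abs ((a : ℝ) - a')]
        refine pow_le_pow_left₀ (by positivity) (le_trans ?_ hfar) 2
        calc 3 * l * (L * N * Δ) = 3 * L * l * (N * Δ) := by ring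
          _ ≤ H := hH
      exact rb_Small (E := X / (Δ * N) * Real.exp (-(3 * l ^ 2))) B hX fun h =>
        (am_Small (e₁ := Real.exp (-(3 * l ^ 2))) (e₂ := 1) h hX hΔ hN d1 (exp_Small hd d2 hsq)
          (exp_one_Small hd (by positivity))).trans_eq (by rw [mul_one])

theorem trunc_stmt : TruncStmt := by
  intro X Δ l K P Λ B H D α hX hΔ hl hK hP1 hD hα hH
  have hKr : (0 : ℝ) < K := by exact_mod_cast hK
  have hPr : (0 : ℝ) < P := by exact_mod_cast hP1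
  have hN : (0 : ℝ) < K * P := by positivity
  obtain ⟨E₁, hE₁⟩ : ∃ E : ℝ, E = 2 * B * (X / (Δ * (K * P)) * Real.exp (-(3 * l ^ 2))) :=
    ⟨_, rfl⟩
  obtain ⟨E₂, hE₂⟩ : ∃ E : ℝ, E = 2 * B * (X / (Δ * (K * P))) := ⟨_, rfl⟩
  have hE1 : 0 ≤ E₁ := by
    rw [hE₁]
    positivity
  have hE2 : 0 ≤ E₂ := by
    rw [hE₂]
    positivity
  have hmem : ∀ k ∈ D, ∀ p ∈ Icc P (Λ * P), (K : ℝ) * P ≤ ((k * p : ℕ) : ℝ) ∧
      ((k * p : ℕ) : ℝ) ≤ 2 * Λ * (K * P) := by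
    intro k hk p hp
    rw [mem_Icc] at hp
    obtain ⟨_, a1, a2⟩ := hD _ hk
    constructor
    · exact_mod_cast Nat.mul_le_mul a1 hp.1
    · have : k * p ≤ 2 * Λ * (K * P) := (Nat.mul_le_mul a2.le hp.2).trans_eq (by ring)
      exact_mod_cast this
  have hcard : ((D ×ˢ Icc P (Λ * P)).card : ℝ) ≤ Λ * (K * P) := by
    have : (D ×ˢ Icc P (Λ * P)).card ≤ Λ * (K * P) := by
      rw [card_product]
      exact (Nat.mul_le_mul hD.card_le (card_Icc_le hP1)).trans_eq (by ring)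
    exact_mod_cast this
  rw [← sum_sub_distrib]
  refine (abs_sum_le_sum_abs _ _).trans ?_
  have hterm : ∀ u ∈ D ×ˢ Icc P (Λ * P),
      |∑ v ∈ D ×ˢ Icc P (Λ * P), α u * α v * G2 X Δ B u v -
        ∑ v ∈ D ×ˢ Icc P (Λ * P), α u * α v * G1 X Δ B H u v| ≤
      ∑ v ∈ D ×ˢ Icc P (Λ * P), (E₁ + if v.1 * u.2 = u.1 * v.2 then E₂ else 0) := by
    intro u hu
    rw [← sum_sub_distrib]
    refine (abs_sum_le_sum_abs _ _).trans (sum_le_sum fun v hv => ?_)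
    rw [mem_product] at hu hv
    rw [← mul_sub, abs_mul]
    refine (mul_le_of_le_one_left (abs_nonneg _) ?_).trans ?_
    · rw [abs_mul]
      exact mul_le_one₀ (hα _) (abs_nonneg _) (hα _)
    · unfold G2 G1
      by_cases he : u.1 = v.1
      · rw [if_pos he, if_pos he, sub_self, abs_zero]
        exact add_nonneg hE1 (ite_nonneg hE2 le_rfl)
      · rw [if_neg he, if_neg he]
        have ht := term_TruncU (B := B) (H := H) hX hΔ hN hl (hmem _ hv.1 _ hu.2).1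
          (hmem _ hv.1 _ hu.2).2 (hmem _ hu.1 _ hv.2).1 (hmem _ hu.1 _ hv.2).2 hH
        rw [Nat.cast_mul v.1, Nat.cast_mul u.1, ← hE₁, ← hE₂] at ht
        exact ht
  refine (sum_le_sum hterm).trans ?_
  simp only [sum_add_distrib, sum_const, nsmul_eq_mul]
  have t1 : ((D ×ˢ Icc P (Λ * P)).card : ℝ) * (((D ×ˢ Icc P (Λ * P)).card : ℝ) * E₁) ≤
      (Λ * (K * P)) ^ 2 * E₁ := by
    rw [← mul_assoc, ← sq]
    exact mul_le_mul_of_nonneg_right (pow_le_pow_left₀ (Nat.cast_nonneg _) hcard 2) hE1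
  have t2 : ∑ u ∈ D ×ˢ Icc P (Λ * P), ∑ v ∈ D ×ˢ Icc P (Λ * P),
      (if v.1 * u.2 = u.1 * v.2 then E₂ else 0) ≤ 2 * (K * (Λ * P : ℕ)) * E₂ := by
    rw [swap_Small D (Icc P (Λ * P)) fun u v => if v.1 * u.2 = u.1 * v.2 then E₂ else 0]
    exact cnt_Small hD hK hP1 hE2
  refine (add_le_add t1 t2).trans_eq ?_
  rw [hE₁, hE₂]
  push_cast
  field_simp

end Pool.Agent.MP_c853c5_nt.DU

end
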