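import Pool.Agent.Mg.C853.Ga88212
import Pool.Agent.Mg.C853.G670581
import Pool.Agent.Mg.C853.G4b417e
import Pool.Agent.MP_c853c5_nt.DT.Win
import Pool.Agent.Mg.C853.G8a236c
import Pool.Agent.Mg.C853.G1d2b90
import Pool.Agent.Mg.C853.G28da41
import Pool.Agent.MP_c853c5_nt.DU.Cross
import Pool.Agent.Mg.C853.G019c2a
import Pool.Agent.Mg.C853.G52851b
import Pool.Agent.Mg.C853.Gde6697
import Pool.Agent.Mg.C853.Ga5e1b3
import Pool.Agent.MP_c853c5_nt.DU.Win

section

/-!
The systems of box estimates hold.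
-/

set_option autoImplicit false

namespace Pool.Agent.MP_c853c5_nt.Y

theorem okW : sysW.OK :=
  sysW_ok (R.e1dW_exp S.exp_all W.wattD_all) (R.e12dW_exp S.exp_all W.wattD_all) S.e2d_all

theorem okD : DT.sysD.OK := DT.sysD_ok okW DT.e3d_all

theorem lSD : LeafSG DT.sysD := leafSG okD

theorem lS2D : LeafS2G DT.sysD := leafS2G okD

theorem l2D : Leaf2G DT.sysD := leaf2G okD

end Pool.Agent.MP_c853c5_nt.Y

end

section

/-!
The new dispersion bound and the leaves of its system, without hypotheses.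
-/

set_option autoImplicit false

namespace Pool.Agent.MP_c853c5_nt.DU

open DS

theorem main_all : DU.MainStmt :=
  DU.main_stmt DT.main_all
    (DU.long_stmt (DU.form_stmt DU.op_stmt DU.tr_stmt DU.am_stmt (DU.rep_stmt DU.int_stmt))
      DU.trunc_stmt) DT.diag_stmt

theorem mean_all : DU.MeanStmt :=
  DU.mean_stmt (sq_stmt pois_stmt) (cmp1_stmt cmp0_stmt) (cmp3_stmt (cmp2_stmt cmp0_stmt))
    (vTr_stmt E.tr_stmt) DU.main_all (DU.small_stmt pois_stmt)
    (DU.cross_stmt pois_stmt (cRow_stmt cEdge_stmt exp2_all)) (DU.zero_stmt pois_stmt)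

theorem e3d_all : DU.E3D :=
  DU.e3d_of (DU.tri_stmt DU.mean_all conv_stmt) DU.geo_stmt
    (boxV_stmt (gridV_stmt S.core_all E.self_stmt (E.hal_stmt Z.ker_all)) E.grd_stmt)
    l2_stmt grp_fix Z.pr_all

theorem okE : sysE.OK := sysE_ok Y.okW e3d_all

theorem lSE : Y.LeafSG sysE := Y.leafSG okE

theorem lS2E : Y.LeafS2G sysE := Y.leafS2G okE

theorem l2E : Y.Leaf2G sysE := Y.leaf2G okE

end Pool.Agent.MP_c853c5_nt.DU

end
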