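import Pool.Agent.MP_c853c5_nt.DS.Basic
import Pool.Agent.Mg.C853.G50a3e6
import Pool.Agent.MP_c853c5_nt.DT.Defs

section

/-! Cutting a quadratic form into translated cells. -/

set_option autoImplicit false

open Finset Filter Real
open scoped ComplexConjugate

namespace Pool.Agent.MP_c853c5_nt.DS

open Pool.Agent.MP_88bd62_nt.U (ex)

/-- the pair lies in one of `j` consecutive cells -/
def In_Blk (Q j c : ℕ) (u : ℕ × ℕ) : Prop := c ≤ Q * u.2 / u.1 ∧ Q * u.2 / u.1 < c + j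

open Classical in
/-- the part of the form inside `j` consecutive cells -/
noncomputable def F_Blk (U : Finset (ℕ × ℕ)) (g : ℕ × ℕ → ℕ × ℕ → ℝ) (Q j c : ℕ) : ℝ :=
  ∑ u ∈ U, if In_Blk Q j c u then ∑ v ∈ U, if In_Blk Q j c v then g u v else 0 else 0

lemma near_Blk {K H Q k p k' p' : ℕ} (hK : 1 ≤ K) (hk : K ≤ k) (hk' : K ≤ k')
    (hQ : Q * H ≤ K ^ 2) (h : k' * p ≤ k * p' + H) : Q * p / k ≤ Q * p' / k' + 1 := by
  rw [← Nat.add_div_right _ (by omega : 0 < k'), Nat.le_div_iff_mul_le (by omega)]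
  have h1 := Nat.div_mul_le_self (Q * p) k
  have h2 : K ^ 2 ≤ k * k' := by
    rw [sq]
    exact Nat.mul_le_mul hk hk'
  refine Nat.le_of_mul_le_mul_left (c := k) ?_ (by omega)
  calc k * (Q * p / k * k') = Q * p / k * k * k' := by ring
    _ ≤ Q * p * k' := Nat.mul_le_mul_right _ h1
    _ = Q * (k' * p) := by ring
    _ ≤ Q * (k * p' + H) := Nat.mul_le_mul_left _ h
    _ = k * (Q * p') + Q * H := by ring
    _ ≤ k * (Q * p') + k * k' := by omega
    _ = k * (Q * p' + k') := by ring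

lemma total_Blk (U : Finset (ℕ × ℕ)) (g : ℕ × ℕ → ℕ × ℕ → ℝ) (Q lo N : ℕ)
    (h1 : ∀ u ∈ U, lo + 1 ≤ Q * u.2 / u.1 ∧ Q * u.2 / u.1 < lo + N)
    (h2 : ∀ u ∈ U, ∀ v ∈ U, g u v ≠ 0 →
      Q * u.2 / u.1 ≤ Q * v.2 / v.1 + 1 ∧ Q * v.2 / v.1 ≤ Q * u.2 / u.1 + 1) :
    ∑ u ∈ U, ∑ v ∈ U, g u v = ∑ c ∈ range N, (F_Blk U g Q 2 (lo + c) - F_Blk U g Q 1 (lo + c)) := by
  classical
  have e : ∀ j c, F_Blk U g Q j c =
      ∑ u ∈ U, ∑ v ∈ U, if In_Blk Q j c u ∧ In_Blk Q j c v then g u v else 0 := by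
    intro j c
    refine sum_congr rfl fun u _ => ?_
    by_cases h : In_Blk Q j c u <;> simp [h]
  simp only [e, ← sum_sub_distrib]
  rw [sum_comm (s := range N)]
  refine sum_congr rfl fun u hu => ?_
  rw [sum_comm (s := range N)]
  refine sum_congr rfl fun v hv => ?_
  by_cases h0 : g u v = 0
  · simp [h0]
  obtain ⟨k1, k2⟩ := h2 u hu v hv h0
  obtain ⟨k3, k4⟩ := h1 u hu
  obtain ⟨k5, k6⟩ := h1 v hv
  unfold In_Blk
  generalize Q * u.2 / u.1 = a at *
  generalize Q * v.2 / v.1 = b at *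
  rw [sum_eq_single (max a b - 1 - lo)]
  · rw [if_pos (by omega), if_neg (by omega), sub_zero]
  · intro c _ hc
    by_cases h : (lo + c ≤ a ∧ a < lo + c + 1) ∧ lo + c ≤ b ∧ b < lo + c + 1
    · rw [if_pos h, if_pos (by omega), sub_self]
    · rw [if_neg h, if_neg (by omega), sub_self]
  · intro h
    exact absurd (mem_range.2 (by omega)) h

lemma reidx_Blk (f : ℕ → ℝ) (Q S : ℕ) :
    ∑ c ∈ range (Q * S), f c = ∑ c ∈ range Q, ∑ s ∈ range S, f (c + Q * s) := by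
  induction S with
  | zero => simp
  | succ S ih =>
    rw [Nat.mul_succ, sum_range_add, ih, ← sum_add_distrib]
    refine sum_congr rfl fun c _ => ?_
    rw [sum_range_succ, add_comm (Q * S) c]

lemma in_iff_Blk {Q j c k q : ℕ} (hk : 0 < k) :
    In_Blk Q j c (k, q) ↔ c * k ≤ Q * q ∧ Q * q < (c + j) * k := by
  unfold In_Blk
  rw [Nat.le_div_iff_mul_le hk, Nat.div_lt_iff_lt_mul hk]

lemma uniq_Blk {Q j c k q q' : ℕ} (hk : 0 < k) (hj : j ≤ 2) (hQ : 2 * k ≤ Q)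
    (h : In_Blk Q j c (k, q)) (h' : In_Blk Q j c (k, q')) : q ≤ q' := by
  rw [in_iff_Blk hk] at h h'
  by_contra hlt
  have h1 : Q * (q' + 1) ≤ Q * q := Nat.mul_le_mul_left _ (by omega)
  have h2 : j * k ≤ 2 * k := Nat.mul_le_mul_right _ hj
  have h3 := h.2
  have h4 := h'.1
  rw [add_mul] at h3
  rw [mul_add] at h1
  omega

lemma shift_Blk {Q j c k q s : ℕ} (hk : 0 < k) :
    In_Blk Q j (c + Q * s) (k, q + s * k) ↔ In_Blk Q j c (k, q) := by
  unfold In_Blk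
  have : Q * (q + s * k) / k = Q * q / k + Q * s := by
    rw [mul_add, ← mul_assoc, Nat.add_mul_div_right _ _ hk]
  simp only [this]
  omega

lemma unshift_Blk {Q j c k p s : ℕ} (hk : 0 < k) (hQ : 0 < Q)
    (h : In_Blk Q j (c + Q * s) (k, p)) : ∃ q, p = q + s * k := by
  rw [in_iff_Blk hk] at h
  have h1 : Q * (s * k) ≤ Q * p := by
    have := h.1
    rw [add_mul, mul_assoc] at this
    omega
  exact ⟨p - s * k, (Nat.sub_add_cancel (Nat.le_of_mul_le_mul_left h1 hQ)).symm⟩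

open Classical in
lemma pick_Blk {K Q j c : ℕ} {D₀ D R : Finset ℕ} {q : ℕ → ℕ} (hK : 1 ≤ K) (hD : PrK K D₀)
    (hj : j ≤ 2) (hQ : 4 * K ≤ Q)
    (h1 : D = D₀.filter fun k => ∃ t, ¬ k ∣ t ∧ In_Blk Q j c (k, t))
    (h2 : ∀ k ∈ D, In_Blk Q j c (k, q k)) (s : ℕ) (φ : ℕ × ℕ → ℝ)
    (hφ : ∀ u : ℕ × ℕ, K ≤ u.1 → u.1 ∣ u.2 → φ u = 0) :
    ∑ u ∈ D₀ ×ˢ R, (if In_Blk Q j (c + Q * s) u then φ u else 0) =
      ∑ a ∈ D, if q a + s * a ∈ R then φ (a, q a + s * a) else 0 := by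
  have hsub : D ⊆ D₀ := h1 ▸ filter_subset _ _
  rw [sum_product, ← sum_subset hsub]
  · refine sum_congr rfl fun a ha => ?_
    obtain ⟨-, k1, k2⟩ := hD a (hsub ha)
    rw [← sum_ite_eq' R (q a + s * a) fun p => φ (a, p)]
    refine sum_congr rfl fun p _ => if_congr ⟨fun h => ?_, fun h => ?_⟩ rfl rfl
    · obtain ⟨t, rfl⟩ := unshift_Blk (by omega) (by omega) h
      rw [shift_Blk (by omega)] at h
      rw [le_antisymm (uniq_Blk (by omega) hj (by omega) h (h2 a ha))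
        (uniq_Blk (by omega) hj (by omega) (h2 a ha) h)]
    · rw [h, shift_Blk (by omega)]
      exact h2 a ha
  · intro a ha hn
    obtain ⟨-, k1, k2⟩ := hD a ha
    refine sum_eq_zero fun p _ => ?_
    split_ifs with h
    · obtain ⟨t, rfl⟩ := unshift_Blk (by omega) (by omega) h
      rw [shift_Blk (by omega)] at h
      have : a ∣ t := by
        by_contra hd
        exact hn (h1 ▸ mem_filter.2 ⟨ha, t, hd, h⟩)
      exact hφ _ k1 (Dvd.dvd.add this (Dvd.intro_left _ rfl))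
    · rfl

lemma inj_Blk {K k q k' q' : ℕ} (hk : 0 < k) (h1 : k < 2 * K) (hk' : 0 < k') (h2 : k' < 2 * K)
    (e : 4 * K ^ 2 * q / k = 4 * K ^ 2 * q' / k') : q' * k ≤ q * k' := by
  by_contra hlt
  have a1 := Nat.div_mul_le_self (4 * K ^ 2 * q) k
  have a2 : 4 * K ^ 2 * q' < (4 * K ^ 2 * q' / k' + 1) * k' :=
    (Nat.div_lt_iff_lt_mul hk').1 (Nat.lt_succ_self _)
  rw [← e] at a2
  generalize 4 * K ^ 2 * q / k = m at a1 a2
  have a3 : k * k' ≤ 4 * K ^ 2 := by nlinarith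
  have a4 : 4 * K ^ 2 * (q * k' + 1) ≤ 4 * K ^ 2 * (q' * k) := Nat.mul_le_mul_left _ (by omega)
  have a5 : 4 * K ^ 2 * q' * k < (m + 1) * k' * k := Nat.mul_lt_mul_of_pos_right a2 hk
  have a6 : m * k * k' ≤ 4 * K ^ 2 * q * k' := Nat.mul_le_mul_right _ a1
  nlinarith

lemma card_Blk {K Q H j c : ℕ} {D : Finset ℕ} {q : ℕ → ℕ} (hK : 1 ≤ K) (hD : PrK K D)
    (hj : j ≤ 2) (hH : K ^ 2 ≤ 2 * Q * H)
    (h : ∀ k ∈ D, ¬ k ∣ q k ∧ In_Blk Q j c (k, q k)) : D.card ≤ 33 * H := by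
  have hK2 : 0 < K ^ 2 := by positivity
  have hQ : 0 < Q := Nat.pos_of_ne_zero fun e => by simp [e] at hH; omega
  have hH1 : 0 < H := Nat.pos_of_ne_zero fun e => by simp [e] at hH; omega
  have := card_le_card_of_injOn (s := D)
    (t := Ico (4 * K ^ 2 * c / Q) (4 * K ^ 2 * c / Q + (1 + 16 * H)))
    (fun k => 4 * K ^ 2 * q k / k) (fun k hk => ?_) fun k hk k' hk' e => ?_
  · rw [Nat.card_Ico] at this
    omega
  · obtain ⟨-, k1, k2⟩ := hD k hk
    have hk0 : 0 < k := by omega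
    obtain ⟨b1, b2⟩ := (in_iff_Blk hk0).1 (h k hk).2
    have a1 := Nat.div_mul_le_self (4 * K ^ 2 * c) Q
    have a2 : 4 * K ^ 2 * c < (4 * K ^ 2 * c / Q + 1) * Q :=
      (Nat.div_lt_iff_lt_mul hQ).1 (Nat.lt_succ_self _)
    generalize 4 * K ^ 2 * c / Q = m at a1 a2 ⊢
    have a0 : 4 * K ^ 2 * j ≤ 16 * H * Q := by nlinarith
    have hM : 0 < 4 * K ^ 2 := by omega
    generalize 4 * K ^ 2 = M at a1 a2 a0 hM ⊢
    refine mem_coe.2 (mem_Ico.2 ⟨?_, ?_⟩)
    · rw [Nat.le_div_iff_mul_le hk0]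
      refine Nat.le_of_mul_le_mul_left (c := Q) ?_ hQ
      calc Q * (m * k) = m * Q * k := by ring
        _ ≤ M * c * k := Nat.mul_le_mul_right _ a1
        _ = M * (c * k) := by ring
        _ ≤ M * (Q * q k) := Nat.mul_le_mul_left _ b1
        _ = Q * (M * q k) := by ring
    · rw [Nat.div_lt_iff_lt_mul hk0]
      refine Nat.lt_of_mul_lt_mul_left (a := Q) ?_
      calc Q * (M * q k) = M * (Q * q k) := by ring
        _ < M * ((c + j) * k) := Nat.mul_lt_mul_of_pos_left b2 hM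
        _ = (M * c + M * j) * k := by ring
        _ ≤ ((m + 1) * Q + 16 * H * Q) * k := Nat.mul_le_mul_right _ (by omega)
        _ = Q * ((m + (1 + 16 * H)) * k) := by ring
  · obtain ⟨p1, k1, k2⟩ := hD k hk
    obtain ⟨p2, k3, k4⟩ := hD k' hk'
    have e1 : q k' * k = q k * k' := le_antisymm (inj_Blk (by omega) k2 (by omega) k4 e)
      (inj_Blk (by omega) k4 (by omega) k2 e.symm)
    rcases (Nat.Prime.dvd_mul p1).1 (Dvd.intro_left _ e1) with d | d
    · exact absurd d (h k hk).1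
    · exact (Nat.prime_dvd_prime_iff_eq p1 p2).1 d

lemma cell_Blk {Q j c k q : ℕ} (hk : 0 < k) (hQ : 0 < Q) (hj : j ≤ 2)
    (h : In_Blk Q j c (k, q)) : (c : ℝ) / Q ≤ (q : ℝ) / k ∧ (q : ℝ) / k < (c : ℝ) / Q + 2 / Q := by
  obtain ⟨b1, b2⟩ := (in_iff_Blk hk).1 h
  have b3 : Q * q < (c + 2) * k := b2.trans_le (Nat.mul_le_mul_right _ (by omega))
  have hk' : (0 : ℝ) < k := by exact_mod_cast hk
  have hQ' : (0 : ℝ) < Q := by exact_mod_cast hQ
  rw [← add_div, div_le_div_iff₀ hQ' hk', div_lt_div_iff₀ hk' hQ', mul_comm (q : ℝ) Q]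
  exact ⟨by exact_mod_cast b1, by exact_mod_cast b3⟩

theorem blk_stmt (hO : OpStmt) : BlkStmt := by
  classical
  intro K P Λ H Q r D₀ G α W hr hΛ hD hK hP hQ hQH hH hHK hG hG' hα hW
  set R := Icc P (Λ * P) with hR
  set S := Λ * P / K + 1 with hS
  set s₀ := P / (4 * K) with hs₀
  have hQ0 : 0 < Q := by omega
  have a1 : s₀ * (4 * K) ≤ P := Nat.div_mul_le_self _ _
  have a2 : P < (s₀ + 1) * (4 * K) := (Nat.div_lt_iff_lt_mul (by omega)).1 (Nat.lt_succ_self _)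
  have a3 : 2 ≤ s₀ := (Nat.le_div_iff_mul_le (by omega)).2 (by omega)
  have a4 : Λ * P < S * K := (Nat.div_lt_iff_lt_mul (by omega)).1 (Nat.lt_succ_self _)
  have hz : ∀ u v : ℕ × ℕ, K ≤ u.1 → u.1 ∣ u.2 → G u v = 0 := by
    rintro ⟨k, p⟩ ⟨k', p'⟩ hk ⟨n, hn⟩
    by_contra h0
    obtain ⟨b1, b2, b3⟩ := hG' _ _ h0
    dsimp only at hk hn b1 b2 b3
    have e : k' * p = k * (k' * n) := by rw [hn]; ring
    rw [e] at b1 b2 b3
    rcases lt_trichotomy (k' * n) p' with h | h | h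
    · have := Nat.mul_le_mul_left k (Nat.succ_le_of_lt h)
      rw [Nat.mul_succ] at this
      omega
    · exact b1 (by rw [h])
    · have := Nat.mul_le_mul_left k (Nat.succ_le_of_lt h)
      rw [Nat.mul_succ] at this
      omega
  set g : ℕ × ℕ → ℕ × ℕ → ℝ := fun u v => α u * α v * G u v with hg
  have key : ∀ j, j ≤ 2 → ∀ c, c < Q →
      ∑ s ∈ range S, |F_Blk (D₀ ×ˢ R) g Q j (s₀ * Q + c + Q * s)| ^ (2 * r) ≤
        (33 * H : ℝ) ^ (2 * r) * W := by
    intro j hj c hc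
    obtain ⟨D, hD1⟩ : ∃ D, D = D₀.filter fun k => ∃ t, ¬ k ∣ t ∧ In_Blk Q j (s₀ * Q + c) (k, t) :=
      ⟨_, rfl⟩
    have hsub : D ⊆ D₀ := hD1 ▸ filter_subset _ _
    have hq : ∀ k, ∃ t, k ∈ D → ¬ k ∣ t ∧ In_Blk Q j (s₀ * Q + c) (k, t) := fun k => by
      by_cases h : k ∈ D
      · obtain ⟨t, ht⟩ := (mem_filter.1 (hD1 ▸ h)).2
        exact ⟨t, fun _ => ht⟩
      · exact ⟨0, fun h' => absurd h' h⟩
    choose q hq using hq
    have hc1 : D.card ≤ 33 * H := card_Blk hK (fun k hk => hD k (hsub hk)) hj hH hq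
    have hQ' : (0 : ℝ) < Q := by exact_mod_cast hQ0
    have hw := hW D q (((s₀ * Q + c : ℕ) : ℝ) / Q) hsub hc1 ?_ ?_ fun k hk =>
      cell_Blk (hD k (hsub hk)).1.pos hQ0 hj (hq k hk).2
    · refine le_trans ?_ (mul_le_mul_of_nonneg_left hw (by positivity))
      rw [mul_sum]
      refine sum_le_sum fun s _ => ?_
      have e : F_Blk (D₀ ×ˢ R) g Q j (s₀ * Q + c + Q * s) = ∑ a ∈ D, ∑ b ∈ D,
          α (a, q a + s * a) * α (b, q b + s * b) * loc G R q s a b := by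
        unfold F_Blk
        rw [pick_Blk hK hD hj hQ hD1 (fun k hk => (hq k hk).2) s _ fun u h1 h2 =>
          sum_eq_zero fun v _ => by simp [hg, hz u v h1 h2]]
        refine sum_congr rfl fun a _ => ?_
        rw [pick_Blk hK hD hj hQ hD1 (fun k hk => (hq k hk).2) s _ fun v h1 h2 => by
          simp [hg, hG _ v, hz v _ h1 h2]]
        by_cases h : q a + s * a ∈ R
        · rw [if_pos h]
          refine sum_congr rfl fun b _ => ?_
          by_cases h' : q b + s * b ∈ R <;> simp [loc, hg, h, h']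
        · simp [loc, h]
      rw [e]
      refine (hO D (loc G R q s) (fun a => α (a, q a + s * a)) r hr (fun a b => ?_)
        fun a => hα _).trans (mul_le_mul_of_nonneg_right ?_ (by positivity))
      · unfold loc
        rw [hG]
        exact if_congr and_comm rfl rfl
      · exact pow_le_pow_left₀ (by positivity) (by exact_mod_cast hc1) _
    · rw [← mul_div_assoc, le_div_iff₀ hQ']
      have : P * Q ≤ 8 * K * (s₀ * Q + c) := by
        have b : P ≤ 8 * K * s₀ := by nlinarith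
        calc P * Q ≤ 8 * K * s₀ * Q := Nat.mul_le_mul_right _ b
          _ ≤ 8 * K * (s₀ * Q + c) := by
            rw [mul_assoc (8 * K)]
            exact Nat.mul_le_mul_left _ (by omega)
      exact_mod_cast this
    · rw [← mul_div_assoc, div_le_iff₀ hQ']
      have : K * (s₀ * Q + c) ≤ P * Q := by
        have b : K * (s₀ + 1) ≤ P := by nlinarith
        calc K * (s₀ * Q + c) ≤ K * ((s₀ + 1) * Q) :=
              Nat.mul_le_mul_left _ (by rw [add_mul]; omega)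
          _ = K * (s₀ + 1) * Q := by ring
          _ ≤ P * Q := Nat.mul_le_mul_right _ b
      exact_mod_cast this
  have tot := total_Blk (D₀ ×ˢ R) g Q (s₀ * Q) (Q * S) ?_ ?_
  · rw [reidx_Blk] at tot
    have h1 : |∑ u ∈ D₀ ×ˢ R, ∑ v ∈ D₀ ×ˢ R, g u v| ≤
        ∑ z ∈ (({1, 2} : Finset ℕ) ×ˢ range Q) ×ˢ range S,
          |F_Blk (D₀ ×ˢ R) g Q z.1.1 (s₀ * Q + z.1.2 + Q * z.2)| := by
      rw [tot, sum_product, sum_product, sum_pair (by norm_num), ← sum_add_distrib]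
      refine (abs_sum_le_sum_abs _ _).trans (sum_le_sum fun c _ => ?_)
      rw [← sum_add_distrib]
      refine (abs_sum_le_sum_abs _ _).trans (sum_le_sum fun s _ => ?_)
      rw [← add_assoc, add_comm |_|]
      exact abs_sub _ _
    refine (pow_le_pow_left₀ (abs_nonneg _) h1 _).trans ?_
    have h2 := pow_sum_le_card_mul_sum_pow
      (s := (({1, 2} : Finset ℕ) ×ˢ range Q) ×ˢ range S)
      (f := fun z => |F_Blk (D₀ ×ˢ R) g Q z.1.1 (s₀ * Q + z.1.2 + Q * z.2)|)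
      (fun _ _ => abs_nonneg _) (2 * r - 1)
    rw [show 2 * r - 1 + 1 = 2 * r by omega, card_product, card_product, card_range, card_range,
      card_pair (by norm_num)] at h2
    refine h2.trans ?_
    push_cast
    rw [mul_assoc ((2 * Q * S : ℝ) ^ (2 * r - 1))]
    refine mul_le_mul_of_nonneg_left ?_ (by positivity)
    rw [sum_product]
    refine (sum_le_card_nsmul _ _ ((33 * H : ℝ) ^ (2 * r) * W) fun z hz => ?_).trans ?_
    · obtain ⟨z1, z2⟩ := mem_product.1 hz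
      refine key z.1 ?_ z.2 (mem_range.1 z2)
      simp only [mem_insert, mem_singleton] at z1
      omega
    · rw [card_product, card_range, card_pair (by norm_num), nsmul_eq_mul]
      push_cast
      exact le_of_eq (by ring)
  · rintro ⟨k, p⟩ hu
    obtain ⟨u1, u2⟩ := mem_product.1 hu
    obtain ⟨-, k1, k2⟩ := hD k u1
    obtain ⟨p1, p2⟩ := mem_Icc.1 u2
    dsimp only at k1 k2 p1 p2 ⊢
    constructor
    · rw [Nat.le_div_iff_mul_le (by omega)]
      have b1 : s₀ * (2 * k) ≤ P := le_trans (Nat.mul_le_mul_left _ (by omega)) a1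
      have b2 : Q * (s₀ * (2 * k)) ≤ Q * p := Nat.mul_le_mul_left _ (b1.trans p1)
      have b3 : Q * 1 ≤ Q * p := Nat.mul_le_mul_left _ (by omega)
      nlinarith
    · refine lt_of_lt_of_le ?_ (Nat.le_add_left _ _)
      rw [Nat.div_lt_iff_lt_mul (by omega), mul_assoc]
      exact Nat.mul_lt_mul_of_pos_left
        (p2.trans_lt (a4.trans_le (Nat.mul_le_mul_left _ k1))) hQ0
  · intro u hu v hv h0
    obtain ⟨-, b2, b3⟩ := hG' u v (right_ne_zero_of_mul h0)
    have k1 := (hD _ (mem_product.1 hu).1).2.1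
    have k2 := (hD _ (mem_product.1 hv).1).2.1
    exact ⟨near_Blk hK k1 k2 hQH b2, near_Blk hK k2 k1 hQH b3⟩

end Pool.Agent.MP_c853c5_nt.DS

end

section

set_option autoImplicit false
open Finset Filter Real
open scoped ComplexConjugate
namespace Pool.Agent.MP_c853c5_nt.DS
open Pool.Agent.MP_88bd62_nt.U (ex)

lemma dd_mono_CEdge (Δ Γ n' : ℝ) {n m : ℝ} (hn : 0 ≤ n) (h : n ≤ m) :
    dd Δ Γ n n' ≤ dd Δ Γ m n' := by
  unfold dd
  gcongr

lemma le_dd_CEdge (Δ Γ n' : ℝ) {n m : ℝ} (hn : 0 ≤ n) (h : n ≤ m) :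
    n ^ 2 * Γ ^ 2 ≤ dd Δ Γ m n' := by
  refine le_trans ?_ (dd_mono_CEdge Δ Γ n' hn h)
  unfold dd
  exact le_add_of_nonneg_right (by positivity)

/-- the exponent of the second factor -/
noncomputable def gg_CEdge (Δ Γ n' n : ℝ) : ℝ := π * (n - n') ^ 2 / dd Δ Γ n n'

lemma gg_nonneg_CEdge (Δ Γ n' n : ℝ) : 0 ≤ gg_CEdge Δ Γ n' n := by
  unfold gg_CEdge dd
  positivity

lemma gg_anti_CEdge (Δ : ℝ) {Γ n' n m : ℝ} (hΓ : 0 < Γ) (hn : 0 < n) (h : n ≤ m) (h' : m ≤ n') :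
    gg_CEdge Δ Γ n' m ≤ gg_CEdge Δ Γ n' n := by
  unfold gg_CEdge
  refine div_le_div₀ (by positivity) ?_ (dd_pos n' hΓ hn) (dd_mono_CEdge Δ Γ n' hn.le h)
  exact mul_le_mul_of_nonneg_left (by nlinarith) pi_pos.le

lemma gg_mono_CEdge (Δ : ℝ) {Γ n' n m : ℝ} (hΓ : 0 < Γ) (hn : 0 < n') (h' : n' ≤ n) (h : n ≤ m) :
    gg_CEdge Δ Γ n' n ≤ gg_CEdge Δ Γ n' m := by
  unfold gg_CEdge
  have h0 : 0 < n := hn.trans_le h'
  rw [div_le_div_iff₀ (dd_pos n' hΓ h0) (dd_pos n' hΓ (h0.trans_le h)), mul_assoc, mul_assoc]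
  refine mul_le_mul_of_nonneg_left ?_ pi_pos.le
  have h1 : 0 ≤ n - n' := sub_nonneg.2 h'
  have h2 : (n - n') ^ 2 ≤ (m - n') ^ 2 := by gcongr
  have h3 : ((n - n') * m) ^ 2 ≤ ((m - n') * n) ^ 2 :=
    pow_le_pow_left₀ (mul_nonneg h1 (h0.le.trans h)) (by nlinarith) 2
  have h4 := mul_le_mul_of_nonneg_right h2 (by positivity : 0 ≤ n' ^ 2 * Δ ^ 2)
  have h5 := mul_le_mul_of_nonneg_right h3 (sq_nonneg Γ)
  unfold dd
  linarith

lemma gg_split_CEdge (Δ Γ n' n : ℝ) :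
    gg_CEdge Δ Γ n' n = gg_CEdge Δ Γ n' (min n n') + gg_CEdge Δ Γ n' (max n n') := by
  have e : gg_CEdge Δ Γ n' n' = 0 := by simp [gg_CEdge]
  rcases le_total n n' with h | h <;> simp [h, e]

lemma nv_am_CEdge {X Δ Γ n' N : ℝ} (S : ℕ) (h : ℤ) {n : ℕ → ℝ} (hX : 0 < X) (hΓ : 0 < Γ)
    (hn' : 0 < n') (hN : 0 < N) (h0 : ∀ s, N ≤ n s) (h1 : ∀ s, n s ≤ n (s + 1)) :
    nv S (fun s => (am X Δ Γ (n s) n' h : ℝ)) ≤ 4 * (X / (Γ * N)) := by
  have hp : ∀ s, 0 < n s := fun s => hN.trans_le (h0 s)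
  have hd : ∀ s, 0 < dd Δ Γ (n s) n' := fun s => dd_pos n' hΓ (hp s)
  have hm : ∀ s, dd Δ Γ (n s) n' ≤ dd Δ Γ (n (s + 1)) n' := fun s =>
    dd_mono_CEdge Δ Γ n' (hp s).le (h1 s)
  have k1 : nv S (fun s => ((X / √(dd Δ Γ (n s) n') : ℝ) : ℂ)) ≤ 2 * (X / (Γ * N)) := by
    refine nv_antitone (fun s _ => ?_) ?_ (by positivity)
    · have := hd s
      have := hm s
      gcongr
    · refine div_le_div_of_nonneg_left hX.le (by positivity) (le_sqrt_of_sq_le ?_)
      rw [mul_pow, mul_comm]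
      exact le_dd_CEdge Δ Γ n' hN.le (h0 0)
  have k2 : nv S (fun s => ((Real.exp (-gg_CEdge Δ Γ n' (min (n s) n')) : ℝ) : ℂ)) ≤ 1 := by
    refine nv_monotone (fun s _ => ?_) (by positivity) ?_
    · exact exp_le_exp.2 (neg_le_neg (gg_anti_CEdge Δ hΓ (lt_min (hp s) hn')
        (min_le_min_right _ (h1 s)) (min_le_right _ _)))
    · exact exp_le_one_iff.2 (neg_nonpos.2 (gg_nonneg_CEdge _ _ _ _))
  have k3 : nv S (fun s => ((Real.exp (-gg_CEdge Δ Γ n' (max (n s) n')) : ℝ) : ℂ)) ≤ 2 * 1 := by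
    refine nv_antitone (fun s _ => ?_) ?_ (by positivity)
    · exact exp_le_exp.2 (neg_le_neg (gg_mono_CEdge Δ hΓ hn' (le_max_right _ _)
        (max_le_max_right _ (h1 s))))
    · exact exp_le_one_iff.2 (neg_nonpos.2 (gg_nonneg_CEdge _ _ _ _))
  have k4 : nv S (fun s => ((Real.exp (-(π * (h : ℝ) ^ 2 * (X * Δ * Γ) ^ 2 /
      dd Δ Γ (n s) n')) : ℝ) : ℂ)) ≤ 1 := by
    refine nv_monotone (fun s _ => ?_) (by positivity) ?_
    · exact exp_le_exp.2 (neg_le_neg (div_le_div_of_nonneg_left (by positivity) (hd s) (hm s)))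
    · have := hd S
      exact exp_le_one_iff.2 (neg_nonpos.2 (by positivity))
  refine le_trans (le_of_eq ?_) ((nv_mul_le (nv_mul_le k1 (nv_mul_le k2 k3)) k4).trans_eq
    (by ring))
  congr 1
  ext s
  rw [← Complex.ofReal_mul, ← Complex.ofReal_mul, ← Complex.ofReal_mul, ← Real.exp_add, ← neg_add,
    ← gg_split_CEdge]
  rfl

lemma nv_ct_CEdge {X Δ Γ n' N w : ℝ} (S : ℕ) (h : ℝ) {n : ℕ → ℝ} (hX : 0 < X) (hΓ : 0 < Γ)
    (hn' : 0 < n') (hN : 0 < N) (hw : 1 ≤ w) (hw' : n' ≤ w * N) (h0 : ∀ s, N ≤ n s)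
    (h1 : ∀ s, n s ≤ n (s + 1)) :
    nv S (fun s => ((h * (ct X Δ Γ (n s) n' - X / n s) : ℝ) : ℂ)) ≤
      4 * (w ^ 2 * |h| * X * Δ ^ 2 / (N * Γ ^ 2)) := by
  have hp : ∀ s, 0 < n s := fun s => hN.trans_le (h0 s)
  have hd : ∀ s, 0 < dd Δ Γ (n s) n' := fun s => dd_pos n' hΓ (hp s)
  have hm : ∀ s, dd Δ Γ (n s) n' ≤ dd Δ Γ (n (s + 1)) n' := fun s =>
    dd_mono_CEdge Δ Γ n' (hp s).le (h1 s)
  have hl := le_dd_CEdge Δ Γ n' hN.le (h0 0)
  have k1 : nv S (fun s => ((n' / dd Δ Γ (n s) n' : ℝ) : ℂ)) ≤ 2 * (w ^ 2 / (N * Γ ^ 2)) := by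
    refine nv_antitone (fun s _ => div_le_div_of_nonneg_left hn'.le (hd s) (hm s)) ?_
      (div_pos hn' (hd S)).le
    refine (div_le_div₀ (c := w ^ 2 * N) (by positivity) (hw'.trans ?_) (by positivity)
      hl).trans_eq (by field_simp)
    exact mul_le_mul_of_nonneg_right (by nlinarith) hN.le
  have k2 : nv S (fun s => ((n' ^ 2 / (n s * dd Δ Γ (n s) n') : ℝ) : ℂ)) ≤
      2 * (w ^ 2 / (N * Γ ^ 2)) := by
    refine nv_antitone (fun s _ => div_le_div_of_nonneg_left (by positivity)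
      (mul_pos (hp s) (hd s)) (mul_le_mul (h1 s) (hm s) (hd s).le (hp _).le)) ?_
      (div_pos (by positivity) (mul_pos (hp S) (hd S))).le
    exact (div_le_div₀ (c := (w * N) ^ 2) (d := N * (N ^ 2 * Γ ^ 2)) (by positivity)
      (pow_le_pow_left₀ hn'.le hw' 2) (by positivity)
      (mul_le_mul (h0 0) hl (by positivity) (hp 0).le)).trans_eq (by field_simp)
  have k3 : ∀ c : ℝ, |c| = |h| * X * Δ ^ 2 → nv S (fun _ => (c : ℂ)) ≤ |h| * X * Δ ^ 2 :=
    fun c hc => by rw [nv_const, Complex.norm_real, Real.norm_eq_abs, hc]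
  have k4 : |h * X * Δ ^ 2| = |h| * X * Δ ^ 2 := by
    rw [abs_mul, abs_mul, abs_of_pos hX, abs_of_nonneg (sq_nonneg Δ)]
  refine le_trans (le_of_eq ?_) (((nv_add _ _ _).trans (add_le_add (nv_mul_le (k3 _ k4) k1)
    (nv_mul_le (k3 _ ((abs_neg _).trans k4)) k2))).trans_eq (by ring))
  congr 1
  ext s
  rw [← Complex.ofReal_mul, ← Complex.ofReal_mul, ← Complex.ofReal_add]
  congr 1
  have e1 := (hd s).ne'
  have e2 := (hp s).ne'
  unfold ct
  field_simp
  unfold dd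
  ring

theorem cEdge_stmt : CEdgeStmt := by
  refine ⟨32 * π, by positivity, fun X Δ Γ n' w K P S k h hX hΔ hΓ hn' hw hK hP hk hw' => ?_⟩
  have hK' : (0 : ℝ) < K := by exact_mod_cast hK
  have hP' : (0 : ℝ) < P := by exact_mod_cast hP
  have hk' : (K : ℝ) ≤ k := by exact_mod_cast hk
  have h0 : ∀ s : ℕ, (K : ℝ) * P ≤ (k : ℝ) * (P + s : ℕ) := fun s =>
    mul_le_mul hk' (by exact_mod_cast Nat.le_add_right P s) hP'.le (hK'.le.trans hk')
  have h1 : ∀ s : ℕ, (k : ℝ) * (P + s : ℕ) ≤ (k : ℝ) * (P + (s + 1) : ℕ) := fun s =>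
    mul_le_mul_of_nonneg_left (by exact_mod_cast (by omega)) (hK'.le.trans hk')
  have k1 := nv_am_CEdge (Δ := Δ) S h hX hΓ hn' (mul_pos hK' hP') h0 h1
  have k2 := (nv_ex S _).trans (add_le_add le_rfl (mul_le_mul_of_nonneg_left
    (nv_ct_CEdge (Δ := Δ) S h hX hΓ hn' (mul_pos hK' hP') hw hw' h0 h1) (by positivity)))
  refine le_trans (le_of_eq ?_) ((nv_mul_le k1 k2).trans ?_)
  · congr 1
    ext s
    unfold ec
    rw [Nat.cast_add, add_comm (s : ℝ)]
  · have e : 0 ≤ X / (Γ * (K * P)) := by positivity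
    have := mul_le_mul_of_nonneg_right two_le_pi e
    linarith

end Pool.Agent.MP_c853c5_nt.DS

end

section

/-!
Comparison of the logarithmic and the linear Gaussian.
-/

set_option autoImplicit false

open Finset Filter Real
open scoped ComplexConjugate

namespace Pool.Agent.MP_c853c5_nt.DS

open Pool.Agent.MP_88bd62_nt.U (ex)

theorem low_Cmp0 {z δ : ℝ} (hz : 0 < z) (h0 : 0 ≤ δ) (h1 : δ ≤ 1 / 2) (h : δ ≤ |z - 1|) :
    δ ^ 2 ≤ π * Real.log z ^ 2 := by
  have h2 : 2 / 3 * δ ≤ |Real.log z| := by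
    rcases le_abs.1 h with k | k
    · have k1 := Real.one_sub_inv_le_log_of_pos hz
      have k2 : z⁻¹ ≤ 1 - 2 / 3 * δ := by
        rw [inv_le_iff_one_le_mul₀ hz]
        nlinarith
      exact le_trans (by linarith) (le_abs_self _)
    · have k1 := Real.log_le_sub_one_of_pos hz
      exact le_trans (by linarith) (neg_le_abs _)
  have h3 := pow_le_pow_left₀ (by positivity) h2 2
  rw [sq_abs] at h3
  nlinarith [Real.pi_gt_three, sq_nonneg δ]

theorem exp_Cmp0 {m p q : ℝ} (hp : m ≤ p) (hq : m ≤ q) :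
    |Real.exp (-p) - Real.exp (-q)| ≤ |p - q| * Real.exp (-m) := by
  wlog h : p ≤ q generalizing p q
  · rw [abs_sub_comm, abs_sub_comm p]
    exact this hq hp (le_of_not_ge h)
  have h1 : Real.exp (-q) = Real.exp (-p) * Real.exp (p - q) := by
    rw [← Real.exp_add]
    ring_nf
  have h2 := Real.add_one_le_exp (p - q)
  have h3 := Real.exp_le_exp.2 (neg_le_neg hp)
  have h4 := Real.exp_pos (-p)
  rw [abs_of_nonneg (sub_nonneg.2 (Real.exp_le_exp.2 (neg_le_neg h))),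
    abs_of_nonpos (sub_nonpos.2 h), h1]
  nlinarith

theorem near_Cmp0 {z : ℝ} (hz : 0 < z) (h : |z - 1| ≤ 1 / 2) :
    |Real.log z ^ 2 - (z - 1) ^ 2| ≤ 6 * |z - 1| ^ 3 := by
  have k1 := Real.one_sub_inv_le_log_of_pos hz
  have k2 := Real.log_le_sub_one_of_pos hz
  have k3 := (abs_le.1 h).1
  have k4 : z⁻¹ ≤ 2 - z + 2 * (z - 1) ^ 2 := by
    rw [inv_le_iff_one_le_mul₀ hz]
    nlinarith [mul_nonneg (sq_nonneg (z - 1)) (by linarith : 0 ≤ 2 * z - 1)]
  have k5 : |Real.log z - (z - 1)| ≤ 2 * |z - 1| ^ 2 := by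
    rw [sq_abs, abs_of_nonpos (by linarith)]
    linarith
  have k0 := abs_nonneg (z - 1)
  have k6 : |Real.log z + (z - 1)| ≤ 3 * |z - 1| := by
    have k7 := abs_add_le (Real.log z - (z - 1)) (2 * (z - 1))
    rw [abs_mul, abs_two, show Real.log z - (z - 1) + 2 * (z - 1) = Real.log z + (z - 1) by ring]
      at k7
    nlinarith
  rw [sq_sub_sq, abs_mul]
  exact (mul_le_mul k6 k5 (abs_nonneg _) (by positivity)).trans (le_of_eq (by ring))

theorem sqrt_Cmp0 {z : ℝ} (hz : 0 < z) : |1 - √z| ≤ |z - 1| := by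
  have h1 : z - 1 = (√z - 1) * (√z + 1) := by nlinarith [Real.sq_sqrt hz.le]
  rw [h1, abs_mul, abs_sub_comm]
  exact le_mul_of_one_le_right (abs_nonneg _)
    (le_trans (by linarith [Real.sqrt_nonneg z]) (le_abs_self _))

theorem cmp0_stmt : Cmp0Stmt := by
  refine ⟨25, by norm_num, fun z Δ hz h0 h1 => ⟨fun h => ?_, fun δ d0 d1 d2 => ⟨?_, ?_⟩⟩⟩
  · have p3 := Real.pi_gt_three
    have p4 := Real.pi_le_four
    obtain ⟨u, hu⟩ : ∃ u, u = |z - 1| / Δ := ⟨_, rfl⟩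
    have u0 : 0 ≤ u := by rw [hu]; positivity
    have u2 : u ^ 2 = (z - 1) ^ 2 / Δ ^ 2 := by rw [hu, div_pow, sq_abs]
    have a1 : u ^ 2 ≤ π * Real.log z ^ 2 / Δ ^ 2 := by
      rw [u2, ← sq_abs (z - 1)]
      exact div_le_div_of_nonneg_right (low_Cmp0 hz (abs_nonneg _) h le_rfl) (by positivity)
    have a2 : u ^ 2 ≤ π * (z - 1) ^ 2 / Δ ^ 2 := by
      rw [mul_div_assoc, ← u2]
      nlinarith [sq_nonneg u]
    have a3 := exp_Cmp0 a1 a2
    have a4 : Δ⁻¹ * |π * Real.log z ^ 2 / Δ ^ 2 - π * (z - 1) ^ 2 / Δ ^ 2| ≤ 24 * u ^ 3 := by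
      rw [← sub_div, ← mul_sub, abs_div, abs_mul, abs_of_pos Real.pi_pos,
        abs_of_pos (pow_pos h0 2), hu]
      have := mul_le_mul p4 (near_Cmp0 hz h) (abs_nonneg _) (by norm_num)
      refine (mul_le_mul_of_nonneg_left (div_le_div_of_nonneg_right this (by positivity))
        (by positivity)).trans (le_of_eq ?_)
      field_simp
      ring
    have e0 := Real.exp_pos (-u ^ 2)
    have e1 : Real.exp (u ^ 2) * Real.exp (-u ^ 2) = 1 := by rw [← Real.exp_add]; simp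
    have e2 := Real.quadratic_le_exp_of_nonneg (sq_nonneg u)
    have a5 : u ^ 3 * Real.exp (-u ^ 2) ≤ 1 := by
      rw [← e1]
      exact mul_le_mul_of_nonneg_right (by nlinarith [sq_nonneg (u ^ 2 - u), sq_nonneg u]) e0.le
    have a6 : u * Real.exp (-(π * (z - 1) ^ 2 / Δ ^ 2)) ≤ 1 := by
      refine le_trans ?_ e1.le
      exact mul_le_mul (by nlinarith [sq_nonneg (u - 1), sq_nonneg (u ^ 2)])
        (Real.exp_le_exp.2 (neg_le_neg a2)) (Real.exp_pos _).le (Real.exp_pos _).le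
    have e : Z.gg Δ (Real.log z) - √z * Z.gg Δ (z - 1) =
        Δ⁻¹ * (Real.exp (-(π * Real.log z ^ 2 / Δ ^ 2)) - Real.exp (-(π * (z - 1) ^ 2 / Δ ^ 2))) +
          (1 - √z) * (Δ⁻¹ * Real.exp (-(π * (z - 1) ^ 2 / Δ ^ 2))) := by
      simp only [Z.gg]
      ring
    rw [e]
    refine (abs_add_le _ _).trans ?_
    rw [abs_mul, abs_mul, abs_of_pos (inv_pos.2 h0), abs_of_pos (a := Δ⁻¹ * _) (by positivity)]
    have b1 := mul_le_mul_of_nonneg_left a3 (inv_pos.2 h0).le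
    have b2 := mul_le_mul_of_nonneg_right a4 e0.le
    have b3 := mul_le_mul_of_nonneg_right (sqrt_Cmp0 hz)
      (by positivity : 0 ≤ Δ⁻¹ * Real.exp (-(π * (z - 1) ^ 2 / Δ ^ 2)))
    rw [hu, div_eq_mul_inv, mul_assoc] at a6
    rw [mul_assoc] at b2
    linarith
  · have a1 := Real.exp_le_exp.2 (neg_le_neg
      (div_le_div_of_nonneg_right (low_Cmp0 hz d0 d1 d2) (sq_nonneg Δ)))
    rw [Z.gg, div_eq_mul_inv 25]
    exact mul_le_mul (by linarith [inv_pos.2 h0]) a1 (Real.exp_pos _).le (by positivity)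
  · have a0 : (z - 1) ^ 2 ≤ (z - 1) ^ 2 / Δ ^ 2 :=
      le_div_self (sq_nonneg _) (by positivity) (pow_le_one₀ h0.le h1)
    have a1 : √z ≤ 25 * Real.exp ((z - 1) ^ 2 / Δ ^ 2) := by
      have := Real.add_one_le_exp ((z - 1) ^ 2 / Δ ^ 2)
      nlinarith [Real.sq_sqrt hz.le, sq_nonneg (√z - 1), sq_nonneg (z - 2)]
    have a2 : δ ^ 2 ≤ (z - 1) ^ 2 := by
      rw [← sq_abs (z - 1)]
      exact pow_le_pow_left₀ d0 d2 2
    have a3 : Real.exp ((z - 1) ^ 2 / Δ ^ 2) * Real.exp (-(π * (z - 1) ^ 2 / Δ ^ 2)) ≤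
        Real.exp (-(δ ^ 2 / Δ ^ 2)) := by
      rw [← Real.exp_add, ← neg_div, ← neg_div, ← add_div]
      refine Real.exp_le_exp.2 (div_le_div_of_nonneg_right ?_ (sq_nonneg Δ))
      nlinarith [Real.pi_gt_three, sq_nonneg (z - 1)]
    rw [Z.gg]
    refine (mul_le_mul_of_nonneg_right a1 (by positivity)).trans ?_
    have a4 := mul_le_mul_of_nonneg_left a3 (by positivity : 0 ≤ 25 / Δ)
    exact le_trans (le_of_eq (by ring)) a4

end Pool.Agent.MP_c853c5_nt.DS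

end

section

set_option autoImplicit false

open Finset Filter Real
open scoped ComplexConjugate

namespace Pool.Agent.MP_c853c5_nt.DS

open Pool.Agent.MP_88bd62_nt.U (ex)

lemma card_Cmp3 (S : Finset ℕ) {L : ℝ} (hL : 0 ≤ L) (h : ∀ a ∈ S, ∀ b ∈ S, (a : ℝ) - b ≤ L) :
    (S.card : ℝ) ≤ L + 1 := by
  rcases S.eq_empty_or_nonempty with rfl | hS
  · simp only [card_empty, Nat.cast_zero]
    linarith
  have h1 : S ⊆ Icc (S.min' hS) (S.min' hS + ⌊L⌋₊) := fun a ha => by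
    have h2 := S.min'_le a ha
    have h3 : a - S.min' hS ≤ ⌊L⌋₊ := Nat.le_floor (by
      rw [Nat.cast_sub h2]
      exact h a ha _ (S.min'_mem hS))
    exact mem_Icc.2 ⟨h2, by omega⟩
  have h2 : S.card ≤ ⌊L⌋₊ + 1 := by
    have := card_le_card h1
    rw [Nat.card_Icc] at this
    omega
  have h3 : (S.card : ℝ) ≤ ⌊L⌋₊ + 1 := by exact_mod_cast h2
  linarith [Nat.floor_le hL]

lemma cardD_Cmp3 {K : ℕ} {D : Finset ℕ} (hD : D ⊆ Ico K (2 * K)) : (D.card : ℝ) ≤ K := by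
  have := card_le_card hD
  rw [Nat.card_Ico] at this
  exact_mod_cast (by omega : D.card ≤ K)

lemma row_Cmp3 {K : ℕ} {D : Finset ℕ} (R : Finset ℕ) (hK : 1 ≤ K) (hD : D ⊆ Ico K (2 * K))
    {n δ C Y : ℝ} (hn : 0 < n) (hn2 : n ≤ 2 * K * Y) (hδ : 0 ≤ δ) (hC : 0 ≤ C) :
    ∑ v ∈ D ×ˢ R, (if |(v.1 : ℝ) * v.2 / n - 1| ≤ δ then C else 0) ≤
      K * (C * (4 * δ * Y + 1)) := by
  have hK0 : (0 : ℝ) < K := by exact_mod_cast hK
  have hY : 0 < Y := (pos_iff_pos_of_mul_pos (hn.trans_le hn2)).1 (by positivity)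
  rw [sum_product]
  refine (sum_le_card_nsmul _ _ (C * (4 * δ * Y + 1)) fun k hk => ?_).trans ?_
  · rw [← sum_filter, sum_const, nsmul_eq_mul, mul_comm]
    refine mul_le_mul_of_nonneg_left (card_Cmp3 _ (by positivity) fun a ha b hb => ?_) hC
    have k1 : (K : ℝ) ≤ k := by exact_mod_cast (mem_Ico.1 (hD hk)).1
    have h1 := (abs_le.1 (mem_filter.1 ha).2).2
    have h2 := (abs_le.1 (mem_filter.1 hb).2).1
    dsimp only at h1 h2
    have h3 : (k : ℝ) * (a - b) / n ≤ 2 * δ := by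
      rw [mul_sub, sub_div]
      linarith
    rw [div_le_iff₀ hn] at h3
    have h4 : 2 * δ * n ≤ 2 * δ * (2 * k * Y) :=
      mul_le_mul_of_nonneg_left (hn2.trans (by gcongr)) (by positivity)
    refine le_of_mul_le_mul_left ?_ (hK0.trans_le k1)
    linarith
  · rw [nsmul_eq_mul]
    exact mul_le_mul_of_nonneg_right (cardD_Cmp3 hD) (by positivity)

lemma sqrt_Cmp3 {K P k p k' p' : ℝ} (hK : 0 < K) (hP : 0 < P) (h1 : 0 ≤ k) (h2 : 0 ≤ p)
    (h3 : 0 ≤ k') (h4 : 0 ≤ p') :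
    √(k / K) * √(p / P) * (√(k' / K) * √(p' / P)) = √(k * p * (k' * p')) / (K * P) := by
  rw [← Real.sqrt_mul (by positivity), ← Real.sqrt_mul (by positivity),
    ← Real.sqrt_mul (by positivity), ← Real.sqrt_sq (show 0 ≤ K * P by positivity),
    ← Real.sqrt_div (by positivity)]
  congr 1
  field_simp

lemma diff_Cmp3 {K P : ℕ} (hK : 1 ≤ K) (hP : 1 ≤ P) {X : ℝ} (hX : 0 < X) (D R : Finset ℕ)
    {b c : ℕ → ℝ} (hb : ∀ n, |b n| ≤ 1) (hc : ∀ n, |c n| ≤ 1) (f g : ℝ → ℝ → ℝ) :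
    |QF D R (sq' K b) (sq' P c) f - X / (K * P) * QF D R b c g| ≤ X / (K * P) *
      ∑ u ∈ D ×ˢ R, ∑ v ∈ D ×ˢ R, |√((u.1 : ℝ) * u.2 * (v.1 * v.2)) / X *
        f (u.1 * u.2) (v.1 * v.2) - g (u.1 * u.2) (v.1 * v.2)| := by
  have hK0 : (0 : ℝ) < K := by exact_mod_cast hK
  have hP0 : (0 : ℝ) < P := by exact_mod_cast hP
  unfold QF
  rw [mul_sum, mul_sum, ← sum_sub_distrib]
  refine (abs_sum_le_sum_abs _ _).trans (sum_le_sum fun u _ => ?_)
  rw [mul_sum, mul_sum, ← sum_sub_distrib]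
  refine (abs_sum_le_sum_abs _ _).trans (sum_le_sum fun v _ => ?_)
  have e : sq' K b u.1 * sq' P c u.2 * (sq' K b v.1 * sq' P c v.2) =
      b u.1 * c u.2 * (b v.1 * c v.2) * (√((u.1 : ℝ) * u.2 * (v.1 * v.2)) / (K * P)) := by
    rw [← sqrt_Cmp3 hK0 hP0 (by positivity) (by positivity) (by positivity) (by positivity)]
    unfold sq'
    ring
  have e2 : sq' K b u.1 * sq' P c u.2 * (sq' K b v.1 * sq' P c v.2) * f (u.1 * u.2) (v.1 * v.2) -
      X / (K * P) * (b u.1 * c u.2 * (b v.1 * c v.2) * g (u.1 * u.2) (v.1 * v.2)) =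
      X / (K * P) * (b u.1 * c u.2 * (b v.1 * c v.2) * (√((u.1 : ℝ) * u.2 * (v.1 * v.2)) / X *
        f (u.1 * u.2) (v.1 * v.2) - g (u.1 * u.2) (v.1 * v.2))) := by
    rw [e]
    field_simp
  rw [e2, abs_mul, abs_of_pos (show 0 < X / (K * P) by positivity), abs_mul]
  refine mul_le_mul_of_nonneg_left (mul_le_of_le_one_left (abs_nonneg _) ?_) (by positivity)
  rw [abs_mul, abs_mul, abs_mul]
  exact mul_le_one₀ (mul_le_one₀ (hb _) (abs_nonneg _) (hc _)) (by positivity)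
    (mul_le_one₀ (hb _) (abs_nonneg _) (hc _))

lemma tail_Cmp3 {x Γ : ℝ} (hx : 1 < x) (hl : 1 ≤ Real.log x) (hΓ : x ^ (-(1 / 2) : ℝ) ≤ Γ) :
    1 / Γ * Real.exp (-((3 * Γ * Real.log x) ^ 2 / (4 * Γ ^ 2))) ≤ x ^ (-(1 / 1000) : ℝ) := by
  have x0 : 0 < x := by linarith
  have h0 : 0 < x ^ (-(1 / 2) : ℝ) := Real.rpow_pos_of_pos x0 _
  have g0 : 0 < Γ := h0.trans_le hΓ
  have h1 : 1 / Γ ≤ x ^ (1 / 2 : ℝ) := by
    refine (one_div_le_one_div_of_le h0 hΓ).trans_eq ?_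
    rw [Real.rpow_neg x0.le, one_div, inv_inv]
  have h2 : Real.exp (-((3 * Γ * Real.log x) ^ 2 / (4 * Γ ^ 2))) ≤ x ^ (-1 : ℝ) := by
    rw [Real.rpow_def_of_pos x0]
    refine Real.exp_le_exp.2 ?_
    have e : (3 * Γ * Real.log x) ^ 2 / (4 * Γ ^ 2) = 9 / 4 * Real.log x ^ 2 := by
      field_simp
      norm_num
    rw [e]
    nlinarith
  refine (mul_le_mul h1 h2 (Real.exp_pos _).le (by positivity)).trans ?_
  rw [← Real.rpow_add x0]
  exact Real.rpow_le_rpow_of_exponent_le hx.le (by norm_num)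

theorem cmp3_stmt (h2 : Cmp2Stmt) : Cmp3Stmt := by
  obtain ⟨C, hC, h⟩ := h2
  intro Λ hΛ
  have hΛ1 : (1 : ℝ) ≤ Λ := by exact_mod_cast hΛ
  filter_upwards [eventually_gt_atTop 1, E.ev_le_log 1,
    E.ev_log_le 6 1 (show (0 : ℝ) < 1 / 1000 by norm_num),
    E.ev_log_le (Λ * (C * (12 * Λ + 1) + Λ * (C * (2 * Λ + 1)))) 1
      (show (0 : ℝ) < 1 / 2000 by norm_num)] with x hx hl e1 e2 X Δ Γ K P D b c hS hb hc
  obtain ⟨hX, d1, d2, d3, hK, p1, hD⟩ := hS
  rw [pow_one] at e1 e2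
  have x0 : 0 < x := by linarith
  have d0 : 0 < Δ := (Real.rpow_pos_of_pos x0 _).trans_le d1
  have g0 : 0 < Γ := d0.trans_le d2
  have hK0 : (0 : ℝ) < K := by exact_mod_cast hK
  have hP0 : (0 : ℝ) < P := (Real.rpow_pos_of_pos x0 _).trans_le p1
  have hP : 1 ≤ P := by exact_mod_cast hP0
  have t1 := tail_Cmp3 hx hl (d1.trans d2)
  have y1 : x ^ (1 / 1000 : ℝ) * x ^ (-(1 / 1000) : ℝ) = 1 := by
    rw [← Real.rpow_add x0]
    norm_num
  have y2 : x ^ (1 / 2000 : ℝ) * x ^ (-(1 / 1000) : ℝ) = x ^ (-(1 / 2000) : ℝ) := by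
    rw [← Real.rpow_add x0]
    norm_num
  have y3 : 1 ≤ P * x ^ (-(1 / 1000) : ℝ) := by
    have : x ^ (1 / 1000 : ℝ) ≤ x ^ (1 / 400 : ℝ) :=
      Real.rpow_le_rpow_of_exponent_le hx.le (by norm_num)
    exact y1.ge.trans (mul_le_mul_of_nonneg_right (this.trans p1) (by positivity))
  have y0 : 0 < x ^ (-(1 / 1000) : ℝ) := by positivity
  generalize x ^ (-(1 / 1000) : ℝ) = y at *
  generalize Real.log x = l at *
  obtain ⟨δ, hδ⟩ : ∃ δ : ℝ, δ = 3 * Γ * l := ⟨_, rfl⟩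
  rw [← hδ] at t1
  have δ0 : 0 ≤ δ := by rw [hδ]; positivity
  have δ1 : δ ≤ 3 * (l * y) := by
    have := mul_le_mul_of_nonneg_left d3 (show 0 ≤ l by linarith)
    linarith
  have δ2 : δ ≤ 1 / 2 := by
    have := mul_le_mul_of_nonneg_right e1 y0.le
    linarith
  have g1 : Γ ≤ 1 / 4 := by
    have := mul_le_mul_of_nonneg_left hl g0.le
    linarith
  have ly : y ≤ l * y := le_mul_of_one_le_left y0.le hl
  have rng : ∀ u ∈ D ×ˢ Icc P (Λ * P), (K : ℝ) * P ≤ (u.1 : ℝ) * u.2 ∧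
      (u.1 : ℝ) * u.2 ≤ 2 * K * (Λ * P) := fun u hu => by
    obtain ⟨a1, a2⟩ := mem_product.1 hu
    have a3 := mem_Ico.1 (hD a1)
    have a4 := mem_Icc.1 a2
    exact ⟨by exact_mod_cast Nat.mul_le_mul a3.1 a4.1,
      by exact_mod_cast Nat.mul_le_mul a3.2.le a4.2⟩
  have cU : ((D ×ˢ Icc P (Λ * P)).card : ℝ) ≤ K * (Λ * P) := by
    rw [card_product, Nat.cast_mul]
    exact mul_le_mul (cardD_Cmp3 hD) (by exact_mod_cast card_Icc_le hP) (by positivity) hK0.le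
  have pt : ∀ n n' : ℝ, (K : ℝ) * P ≤ n → 0 < n' → n' ≤ 2 * K * (Λ * P) →
      |√(n * n') / X * am X Δ Γ n n' 0 - Z.gg (√(Δ ^ 2 + Γ ^ 2)) (Real.log n - Real.log n')| ≤
        (if |n' / n - 1| ≤ δ then C else 0) + C * (2 * Λ + 1) * y := by
    intro n n' a1 a2 a3
    have n0 : 0 < n := lt_of_lt_of_le (by positivity) a1
    obtain ⟨b1, b2⟩ := h X Δ Γ n n' hX d0 d2 g1 n0 a2
    have b0 : 0 ≤ C * (2 * Λ + 1) * y := by positivity
    split_ifs with e
    · linarith [b1 (e.trans δ2)]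
    · obtain ⟨b3, b4⟩ := b2 δ δ0 δ2 (not_le.1 e).le
      have b5 : 0 ≤ √(n * n') / X * am X Δ Γ n n' 0 :=
        mul_nonneg (by positivity) (am_nonneg hX.le _ _ _ _ _)
      have b6 : 0 ≤ Z.gg (√(Δ ^ 2 + Γ ^ 2)) (Real.log n - Real.log n') := by
        unfold Z.gg
        positivity
      have b7 : √(n' / n) ≤ 2 * Λ := by
        refine Real.sqrt_le_iff.2 ⟨by positivity, le_trans ?_
          (le_self_pow₀ (by linarith) (by norm_num))⟩
        rw [div_le_iff₀ n0]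
        have := mul_le_mul_of_nonneg_left a1 (show (0 : ℝ) ≤ 2 * Λ by positivity)
        linarith
      have b8 : C / Γ * Real.exp (-(δ ^ 2 / (4 * Γ ^ 2))) ≤ C * y := by
        rw [div_eq_mul_one_div C, mul_assoc]
        exact mul_le_mul_of_nonneg_left t1 hC.le
      have b9 := mul_le_mul b8 b7 (by positivity) (by positivity)
      rw [abs_le]
      constructor <;> linarith
  have row : ∀ u ∈ D ×ˢ Icc P (Λ * P), ∑ v ∈ D ×ˢ Icc P (Λ * P),
      |√((u.1 : ℝ) * u.2 * (v.1 * v.2)) / X * am X Δ Γ (u.1 * u.2) (v.1 * v.2) 0 -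
        Z.gg (√(Δ ^ 2 + Γ ^ 2)) (Real.log (u.1 * u.2) - Real.log (v.1 * v.2))| ≤
      K * P * ((C * (12 * Λ + 1) + Λ * (C * (2 * Λ + 1))) * (l * y)) := by
    intro u hu
    refine (sum_le_sum fun v hv => pt _ _ (rng u hu).1
      (lt_of_lt_of_le (by positivity) (rng v hv).1) (rng v hv).2).trans ?_
    rw [sum_add_distrib, sum_const, nsmul_eq_mul]
    have a1 := row_Cmp3 (Icc P (Λ * P)) hK hD (lt_of_lt_of_le (by positivity) (rng u hu).1)
      (rng u hu).2 δ0 hC.le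
    have a2 : 4 * δ * (Λ * P) + 1 ≤ P * ((12 * Λ + 1) * (l * y)) := by
      have b1 := mul_le_mul_of_nonneg_right δ1 (show (0 : ℝ) ≤ 4 * (Λ * P) by positivity)
      have b2 := mul_le_mul_of_nonneg_left ly hP0.le
      linarith
    have a3 := mul_le_mul_of_nonneg_left a2 (show (0 : ℝ) ≤ K * C by positivity)
    have a4 := mul_le_mul cU (mul_le_mul_of_nonneg_left ly
      (show (0 : ℝ) ≤ C * (2 * Λ + 1) by positivity)) (by positivity) (by positivity)
    linarith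
  refine (diff_Cmp3 hK hP hX _ _ hb hc _ _).trans ?_
  have a1 := (sum_le_card_nsmul _ _ _ row).trans ((nsmul_eq_mul _ _).le.trans
    (mul_le_mul_of_nonneg_right cU (by positivity)))
  have a2 := mul_le_mul_of_nonneg_right e2 y0.le
  rw [y2] at a2
  have a3 := mul_le_mul_of_nonneg_left a2 (show (0 : ℝ) ≤ (K * P) ^ 2 by positivity)
  refine (mul_le_mul_of_nonneg_left (a1.trans (le_trans (le_of_eq (by ring)) a3))
    (by positivity)).trans (le_of_eq ?_)
  field_simp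

end Pool.Agent.MP_c853c5_nt.DS

end

section

set_option autoImplicit false
open Finset Filter Real
open scoped ComplexConjugate
namespace Pool.Agent.MP_c853c5_nt.DS
open Pool.Agent.MP_88bd62_nt.U (ex)

lemma half_GridV {ι : Type} [Fintype ι] {K : ℕ} {τ η r : ℝ} {b v : ι → ℝ}
    (h : E.Eval K τ η ((τ + ∑ j, b j) / 2) (fun o : Option ι => o.elim τ b)) (h0 : 0 ≤ r)
    (h1 : r ≤ τ) (h2 : ∀ j, v j ≤ b j / 2) (h3 : E.Cons K τ b r v) :
    (1 / 2 + η) * r + ∑ j, v j ≤ (∑ j, b j) / 2 := by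
  have key := h r (fun o : Option ι => o.elim ((τ - r) / 2) v) h0 h1 ?_ ?_
  · rw [Fintype.sum_option] at key
    simp only [Option.elim_none, Option.elim_some] at key
    linarith
  · rintro (_ | j)
    · simp only [Option.elim_none]
      linarith
    · exact h2 j
  · intro κ hκ
    rw [Fintype.sum_option, Fintype.sum_option]
    simp only [Option.elim_none, Option.elim_some]
    rcases Nat.eq_zero_or_pos (κ none) with hk | hk
    · rw [hk, Nat.cast_zero, zero_mul, zero_mul, zero_add, zero_add]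
      exact h3 (fun j => κ (some j)) fun j => hκ _
    · have a1 : (1 : ℝ) ≤ κ none := by exact_mod_cast hk
      have a2 : 2 * ∑ j, (κ (some j) : ℝ) * v j ≤ ∑ j, (κ (some j) : ℝ) * b j := by
        rw [mul_sum]
        refine sum_le_sum fun j _ => ?_
        have := mul_le_mul_of_nonneg_left (h2 j) (Nat.cast_nonneg (κ (some j)) : (0 : ℝ) ≤ _)
        linarith
      obtain ⟨n, hn⟩ : ∃ n : ℝ, n = (κ none : ℝ) * τ + ∑ j, (κ (some j) : ℝ) * b j := ⟨_, rfl⟩
      obtain ⟨w, hw⟩ : ∃ w : ℝ,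
        w = (κ none : ℝ) * ((τ - r) / 2) + ∑ j, (κ (some j) : ℝ) * v j := ⟨_, rfl⟩
      have a3 : r ≤ n - 2 * w := by
        have := mul_le_mul_of_nonneg_right a1 h0
        rw [hn, hw]
        linarith
      rw [← hn, ← hw]
      exact ⟨by linarith [le_max_right τ n], le_max_of_le_left a3, le_max_of_le_left a3,
        le_max_of_le_left a3, le_max_of_le_left (by linarith)⟩

lemma eval_GridV {ι : Type} [Fintype ι] {K : ℕ} {τ η : ℝ} {b : ι → ℝ}
    (h : E.Eval K τ η ((τ + ∑ j, b j) / 2) (fun o : Option ι => o.elim τ b)) :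
    E.Eval K τ (2 * η) (∑ j, b j) (Sum.elim b b) := by
  intro r v h0 h1 h2 h3
  have k1 := half_GridV (v := fun j => v (Sum.inl j)) h h0 h1 (fun j => h2 (Sum.inl j))
    fun κ hκ => by
      have := h3 (Sum.elim κ fun _ => 0) (by
        rintro (j | j)
        · exact hκ j
        · exact Nat.zero_le _)
      simpa [Fintype.sum_sum_type] using this
  have k2 := half_GridV (v := fun j => v (Sum.inr j)) h h0 h1 (fun j => h2 (Sum.inr j))
    fun κ hκ => by
      have := h3 (Sum.elim (fun _ => 0) κ) (by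
        rintro (j | j)
        · exact Nat.zero_le _
        · exact hκ j)
      simpa [Fintype.sum_sum_type] using this
  rw [Fintype.sum_sum_type]
  linarith

lemma split_GridV {ι : Type} [Fintype ι] [DecidableEq ι] {a c : ι} (hac : a ≠ c) (f : ι → ℝ) :
    ∏ j, f j = f a * (f c * ∏ j ∈ (univ.erase a).erase c, f j) := by
  rw [mul_prod_erase _ f (mem_erase.2 ⟨hac.symm, mem_univ c⟩), mul_prod_erase _ f (mem_univ a)]

lemma on_GridV {ι : Type} [Fintype ι] [DecidableEq ι] {a c : ι} (hac : a ≠ c) (S : Finset ℤ)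
    (f : ι → ℤ → ℝ) (N : ι → ℝ) {H q : ℝ} (hH : 0 ≤ H) (hq : 0 < q)
    (h0 : ∀ j m, 0 ≤ f j m) (h1 : ∀ j m, f j m ≤ 2 * N j)
    (ha : ∑ m ∈ S, f a m ^ 2 ≤ H * N a ^ 2) (hc : ∀ m ∈ S, f c m ≤ N c / q) :
    ∑ m ∈ S, ∏ j, f j m ^ 2 ≤ H / q ^ 2 * ∏ j, (2 * N j) ^ 2 := by
  set R := ∏ j ∈ (univ.erase a).erase c, (2 * N j) ^ 2 with hR
  have hR0 : 0 ≤ R := prod_nonneg fun j _ => sq_nonneg _
  have e2 : ∑ m ∈ S, ∏ j, f j m ^ 2 ≤ (∑ m ∈ S, f a m ^ 2) * ((N c / q) ^ 2 * R) := by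
    rw [sum_mul]
    refine sum_le_sum fun m hm => ?_
    rw [split_GridV hac fun j => f j m ^ 2]
    refine mul_le_mul_of_nonneg_left ?_ (sq_nonneg _)
    exact mul_le_mul (pow_le_pow_left₀ (h0 c m) (hc m hm) 2)
      (prod_le_prod (fun j _ => sq_nonneg _) fun j _ => pow_le_pow_left₀ (h0 j m) (h1 j m) 2)
      (prod_nonneg fun j _ => sq_nonneg _) (sq_nonneg _)
  refine e2.trans ((mul_le_mul_of_nonneg_right ha (by positivity)).trans ?_)
  rw [split_GridV hac fun j => (2 * N j) ^ 2, ← hR]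
  have e3 : 0 ≤ H / q ^ 2 * (N a ^ 2 * N c ^ 2 * R) := by positivity
  have e4 : H * N a ^ 2 * ((N c / q) ^ 2 * R) = H / q ^ 2 * (N a ^ 2 * N c ^ 2 * R) := by ring
  have e5 : H / q ^ 2 * ((2 * N a) ^ 2 * ((2 * N c) ^ 2 * R)) =
      16 * (H / q ^ 2 * (N a ^ 2 * N c ^ 2 * R)) := by ring
  rw [e4, e5]
  linarith

theorem gridV_stmt (hC : E.CoreStmt) (hS : E.SelfStmt) (hH : E.HalStmt) : GridVStmt := by
  classical
  intro ι _ K A η c₀ ia ic hac hη hc₀
  obtain ⟨rH, C, hr, hC0, hH⟩ := hH c₀ hc₀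
  obtain ⟨ε, hε, e1, e2, e3⟩ : ∃ ε : ℝ, 0 < ε ∧ ε ≤ rH / 2 ∧ ε ≤ η * rH / 4 ∧ ε ≤ 1 / 2 :=
    ⟨min (rH / 2) (min (η * rH / 4) (1 / 2)), by positivity, min_le_left _ _,
      (min_le_right _ _).trans (min_le_left _ _), (min_le_right _ _).trans (min_le_right _ _)⟩
  obtain ⟨g, hg, hgε, hC⟩ := hC (ι ⊕ ι) K ε hε
  obtain ⟨D, hD, hD1⟩ : ∃ D : ℝ, D = 2 ^ Fintype.card ι ∧ 1 ≤ D :=
    ⟨_, rfl, one_le_pow₀ (by norm_num)⟩
  obtain ⟨γ, hγ, g1, g2⟩ : ∃ γ : ℝ, 0 < γ ∧ γ ≤ g / 2 ∧ Fintype.card ι * γ ≤ ε := by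
    refine ⟨min (g / 2) (ε / (Fintype.card ι + 1)), by positivity, min_le_left _ _, ?_⟩
    have h0 : (0 : ℝ) ≤ Fintype.card ι := Nat.cast_nonneg _
    refine (mul_le_mul_of_nonneg_left (min_le_right _ _) h0).trans ?_
    rw [← mul_div_assoc, div_le_iff₀ (by positivity)]
    nlinarith
  refine ⟨γ, hγ, ?_⟩
  filter_upwards [hH, hC, eventually_gt_atTop 1, E.ev_const_le 2 (half_pos hg),
    E.ev_log_le (4 * D) A hε, E.ev_log_le (4 * D) A hc₀, E.ev_le_log (2 * C * D ^ 2),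
    E.ev_le_log 1] with x hH hC hx h2 h3 h3' h4 h5
  intro τ u b T N c S hτ0 hτ1 hb hE hT hTx hN ha hc hS' hic
  have hx0 : 0 < x := by linarith
  have hl : 0 < Real.log x := Real.log_pos hx
  have hN1 : ∀ j, (1 : ℝ) ≤ N j := fun j => by exact_mod_cast (hN j).1
  have hN0 : ∀ j, (0 : ℝ) < N j := fun j => one_pos.trans_le (hN1 j)
  have hTx' : (T : ℝ) ≤ x := by
    refine hTx.trans ((Real.rpow_le_rpow_of_exponent_le hx.le ?_).trans_eq (Real.rpow_one x))
    linarith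
  obtain ⟨φ, hφ⟩ : ∃ φ : ι → ℤ → ℝ,
    φ = fun (j : ι) (m : ℤ) => ‖E.BP (N j) (c j) (u + m)‖ / √((2 * N j : ℕ) : ℝ) := ⟨_, rfl⟩
  have hφ0 : ∀ j t, 0 ≤ φ j t := fun j t => by rw [hφ]; positivity
  have hL : ∀ j, 1 ≤ 2 * N j ∧ ((2 * N j : ℕ) : ℝ) ≤ x ^ (b j + g) := fun j =>
    ⟨by have := (hN j).1; omega, by
      rw [show b j + g = g / 2 + (b j + g / 2) by ring, Real.rpow_add hx0]
      push_cast
      exact mul_le_mul h2 ((hN j).2.2.trans
        (Real.rpow_le_rpow_of_exponent_le hx.le (by linarith))) (hN0 j).le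
        (Real.rpow_nonneg hx0.le _)⟩
  have hDom : ∀ j, E.Dom S (φ j) (2 * N j) (x ^ g) := fun j =>
    (hS S (Icc (N j) (2 * N j)) (c j) (2 * N j) u (hL j).1
      (Icc_subset_Icc (hN j).1 le_rfl) (hc j)).mono zero_le_one zero_le_one
      (by rw [one_mul]; exact Real.one_le_rpow hx.le hg.le)
      fun t _ => ⟨hφ0 j t, by rw [hφ]; exact (one_mul _).ge⟩
  obtain ⟨S₀, s1, s2, s3⟩ := hC (fun _ _ => True) τ (2 * η) (∑ j, b j) (rH / 2) (Sum.elim b b) T
    (Sum.elim (fun j => 2 * N j) fun j => 2 * N j) S (Sum.elim φ φ) hτ0 (by linarith)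
    (by positivity) (by positivity) (by rintro (j | j) <;> exact hb j) (eval_GridV hE).toX hT
    (hTx.trans (Real.rpow_le_rpow_of_exponent_le hx.le (by linarith)))
    (by rintro (j | j) <;> exact hL j) hS' (by rintro (j | j) t _ <;> exact hφ0 j t)
    (by rintro (j | j) <;> exact hDom j) (fun _ _ _ _ _ _ => trivial)
  obtain ⟨Q, hQ⟩ : ∃ Q : ℝ, Q = ∏ j, (N j : ℝ) := ⟨_, rfl⟩
  have hP2 : ∏ j, (2 * (N j : ℝ)) = D * Q := by
    rw [prod_mul_distrib, prod_const, card_univ, hD, hQ]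
  have hQa : x ^ c₀ ≤ Q := by
    rw [hQ, ← mul_prod_erase _ _ (mem_univ ia)]
    exact ha.trans (le_mul_of_one_le_right (hN0 ia).le
      (one_le_prod fun j _ => hN1 j))
  have hQ0 : 0 < Q := (Real.rpow_pos_of_pos hx0 _).trans_le hQa
  have hQb : x ^ (∑ j, b j - ε) ≤ Q := by
    have a1 : x ^ (∑ j, (b j - γ)) ≤ Q := by
      rw [Real.rpow_sum_of_pos hx0, hQ]
      exact prod_le_prod (fun j _ => Real.rpow_nonneg hx0.le _) fun j _ => (hN j).2.1
    refine le_trans (Real.rpow_le_rpow_of_exponent_le hx.le ?_) a1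
    rw [sum_sub_distrib, sum_const, card_univ, nsmul_eq_mul]
    linarith
  have hcard : (S₀.card : ℝ) ≤ x ^ rH :=
    s2.trans (Real.rpow_le_rpow_of_exponent_le hx.le (by linarith))
  have k1 := on_GridV hac S₀ (fun j m => ‖E.BP (N j) (c j) (u + m)‖) (fun j => (N j : ℝ))
    (H := C * Real.log x) (q := Real.log x ^ (A + 2)) (by positivity) (by positivity)
    (fun _ _ => norm_nonneg _) (fun j m => E.norm_BP_le (hN j).1 (hc j) _)
    ((hH (N ia) T (c ia) u S₀ ha hTx' (s1.trans hS') hcard (hc ia)).trans_eq (by ring))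
    fun m hm => hic m (s1 hm)
  have k2 : C * Real.log x / (Real.log x ^ (A + 2)) ^ 2 * ∏ j, (2 * (N j : ℝ)) ^ 2 ≤
      Q ^ 2 / Real.log x ^ A / 2 := by
    rw [prod_pow, hP2]
    have e : C * Real.log x / (Real.log x ^ (A + 2)) ^ 2 * (D * Q) ^ 2 =
        Q ^ 2 / Real.log x ^ A / 2 * (2 * C * D ^ 2 / (Real.log x * Real.log x ^ (A + 2))) := by
      field_simp
      ring
    rw [e]
    refine mul_le_of_le_one_right (by positivity) ((div_le_one (by positivity)).2 ?_)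
    exact h4.trans (le_mul_of_one_le_right hl.le (one_le_pow₀ h5))
  have k3 : ∑ m ∈ S \ S₀, ∏ j, ‖E.BP (N j) (c j) (u + m)‖ ^ 2 =
      D * Q * ∑ m ∈ S \ S₀, ∏ j, Sum.elim φ φ j m := by
    rw [mul_sum]
    refine sum_congr rfl fun m _ => ?_
    rw [← hP2, Fintype.prod_sum_type, ← prod_mul_distrib, ← prod_mul_distrib]
    refine prod_congr rfl fun j _ => ?_
    have a1 : (0 : ℝ) < ((2 * N j : ℕ) : ℝ) := by have := hN0 j; push_cast; positivity
    simp only [Sum.elim_inl, Sum.elim_inr, hφ]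
    rw [← sq, div_pow, Real.sq_sqrt a1.le]
    have := hN0 j
    push_cast
    field_simp
  have k4 : 4 * D * Real.log x ^ A * x ^ (∑ j, b j - 2 * η * (rH / 2) + ε) ≤ Q := by
    refine (mul_le_mul_of_nonneg_right h3 (Real.rpow_nonneg hx0.le _)).trans (le_trans ?_ hQb)
    rw [← Real.rpow_add hx0]
    exact Real.rpow_le_rpow_of_exponent_le hx.le (by linarith)
  have k5 : D * Q * (x ^ (∑ j, b j - 2 * η * (rH / 2) + ε) + 1) ≤
      Q ^ 2 / Real.log x ^ A / 2 := by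
    have a1 := mul_le_mul_of_nonneg_left k4 hQ0.le
    have a2 := mul_le_mul_of_nonneg_left (h3'.trans hQa) hQ0.le
    rw [le_div_iff₀ two_pos, le_div_iff₀ (by positivity)]
    linarith
  have k6 := mul_le_mul_of_nonneg_left s3 (show 0 ≤ D * Q by positivity)
  rw [← sum_sdiff s1, k3, ← hQ]
  linarith

end Pool.Agent.MP_c853c5_nt.DS

end

section

set_option autoImplicit false

open Finset Filter Real
open scoped ComplexConjugate

namespace Pool.Agent.MP_c853c5_nt.DS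

open Pool.Agent.MP_88bd62_nt.U (ex)
open S (AF Slot)
open Pool.Agent.MP_2a1f0e_nt

section

variable {ι : Type} {N : ι → ℕ} {g : ι → AF}

lemma supp_Grp (A : Finset ι) (h : ∀ i ∈ A, Slot (N i) (g i)) :
    ∀ m, (∏ i ∈ A, g i) m ≠ 0 → m ∈ Icc (∏ i ∈ A, N i) (2 ^ A.card * ∏ i ∈ A, N i) := by
  classical
  induction A using Finset.induction_on with
  | empty =>
    intro m hm
    rw [prod_empty, ArithmeticFunction.one_apply] at hm
    split_ifs at hm with k
    · simp [k]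
    · exact absurd rfl hm
  | insert i A hi ih =>
    intro m hm
    rw [prod_insert hi, ArithmeticFunction.mul_apply] at hm
    obtain ⟨p, hp, h0⟩ := exists_ne_zero_of_sum_ne_zero hm
    obtain ⟨h1, h2⟩ := (h i (mem_insert_self _ _)).2.2 _ (left_ne_zero_of_mul h0)
    obtain ⟨h3, h4⟩ := mem_Icc.1 (ih (fun j hj => h j (mem_insert_of_mem hj)) _
      (right_ne_zero_of_mul h0))
    rw [prod_insert hi, card_insert_of_notMem hi, ← (Nat.mem_divisorsAntidiagonal.1 hp).1]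
    refine mem_Icc.2 ⟨Nat.mul_le_mul h1 h3, (Nat.mul_le_mul h2.le h4).trans_eq ?_⟩
    ring

lemma zeta_Grp (A : Finset ι) (h : ∀ i ∈ A, Slot (N i) (g i)) :
    ∀ m, |(∏ i ∈ A, g i) m| ≤
      (((ArithmeticFunction.zeta ^ A.card : ArithmeticFunction ℕ) m : ℕ) : ℝ) := by
  classical
  induction A using Finset.induction_on with
  | empty =>
    intro m
    rw [prod_empty, card_empty, pow_zero, ArithmeticFunction.one_apply,
      ArithmeticFunction.one_apply]
    split_ifs <;> simp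
  | insert i A hi ih =>
    intro m
    rw [prod_insert hi, card_insert_of_notMem hi, pow_succ', ArithmeticFunction.mul_apply,
      ArithmeticFunction.mul_apply, Nat.cast_sum]
    refine (abs_sum_le_sum_abs _ _).trans (sum_le_sum fun p hp => ?_)
    rw [abs_mul, ArithmeticFunction.zeta_apply_ne
      (Nat.left_ne_zero_of_mem_divisorsAntidiagonal hp), one_mul]
    exact (mul_le_of_le_one_left (abs_nonneg _) ((h i (mem_insert_self _ _)).2.1 _)).trans
      (ih (fun j hj => h j (mem_insert_of_mem hj)) _)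

lemma div_Grp (A : Finset ι) (h : ∀ i ∈ A, Slot (N i) (g i)) :
    ∀ m, |(∏ i ∈ A, g i) m| ≤ (m.divisors.card : ℝ) ^ A.card := by
  classical
  induction A using Finset.induction_on with
  | empty =>
    intro m
    rw [prod_empty, card_empty, pow_zero, ArithmeticFunction.one_apply]
    split_ifs <;> simp
  | insert i A hi ih =>
    intro m
    rw [prod_insert hi, card_insert_of_notMem hi, pow_succ', ArithmeticFunction.mul_apply]
    refine (abs_sum_le_sum_abs _ _).trans ((sum_le_card_nsmul _ _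
      ((m.divisors.card : ℝ) ^ A.card) fun p hp => ?_).trans_eq ?_)
    · rw [abs_mul]
      refine (mul_le_of_le_one_left (abs_nonneg _) ((h i (mem_insert_self _ _)).2.1 _)).trans
        ((ih (fun j hj => h j (mem_insert_of_mem hj)) _).trans ?_)
      obtain ⟨h1, h2⟩ := Nat.mem_divisorsAntidiagonal.1 hp
      exact pow_le_pow_left₀ (Nat.cast_nonneg _) (Nat.cast_le.2
        (card_le_card (Nat.divisors_subset_of_dvd h2 (Dvd.intro_left _ h1)))) _
    · rw [nsmul_eq_mul, ← Nat.map_div_right_divisors, card_map]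

lemma indep_Grp {f : AF} {R R' : Finset ℕ} (h : ∀ m, f m ≠ 0 → m ∈ R) (h' : ∀ m, f m ≠ 0 → m ∈ R')
    (t : ℝ) : E.FP R f t = E.FP R' f t := by
  have key : ∀ {R R' : Finset ℕ}, (∀ m, f m ≠ 0 → m ∈ R) → E.FP R f t = E.FP (R ∪ R') f t :=
    fun h => sum_subset subset_union_left fun m _ hm => by
      rw [not_not.1 (mt (h m) hm), Complex.ofReal_zero, zero_mul]
  rw [key h, key h', union_comm]

/-- the complex version of an arithmetic function -/
def cx_Grp (f : AF) : ArithmeticFunction ℂ := ⟨fun n => (f n : ℂ), by simp⟩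

lemma cx_apply_Grp (f : AF) (n : ℕ) : cx_Grp f n = (f n : ℂ) := rfl

lemma mul_Grp {f f' : AF} {a b c d : ℕ} (ha : 1 ≤ a) (hc : 1 ≤ c)
    (h : ∀ m, f m ≠ 0 → m ∈ Icc a b) (h' : ∀ m, f' m ≠ 0 → m ∈ Icc c d) (t : ℝ) :
    E.FP (Icc (a * c) (b * d)) (f * f' : AF) t = E.FP (Icc a b) f t * E.FP (Icc c d) f' t := by
  have k := conv_sum (cx_Grp f) (cx_Grp f') (Icc a b) (Icc c d) (Icc (a * c) (b * d))
    (fun n hn => by rw [cx_apply_Grp, not_not.1 (mt (h n) hn), Complex.ofReal_zero])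
    (fun n hn => by rw [cx_apply_Grp, not_not.1 (mt (h' n) hn), Complex.ofReal_zero])
    (fun x hx => by have := (mem_Icc.1 hx).1; omega)
    (fun x hx => by have := (mem_Icc.1 hx).1; omega)
    (fun x hx y hy => mem_Icc.2 ⟨Nat.mul_le_mul (mem_Icc.1 hx).1 (mem_Icc.1 hy).1,
      Nat.mul_le_mul (mem_Icc.1 hx).2 (mem_Icc.1 hy).2⟩)
    (fun n => GM.pw (n : ℝ) t) fun x y hx hy => by
      rw [Nat.cast_mul, GM.pw_mul (Nat.cast_ne_zero.2 hx) (Nat.cast_ne_zero.2 hy)]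
  refine Eq.trans (sum_congr rfl fun n _ => ?_) k
  simp only [ArithmeticFunction.mul_apply, cx_apply_Grp, Complex.ofReal_sum, Complex.ofReal_mul]

lemma fp_Grp (A : Finset ι) (h : ∀ i ∈ A, Slot (N i) (g i)) (t : ℝ) :
    E.FP (Icc (∏ i ∈ A, N i) (2 ^ A.card * ∏ i ∈ A, N i)) (∏ i ∈ A, g i : AF) t =
      ∏ i ∈ A, E.BP (N i) (g i) t := by
  classical
  induction A using Finset.induction_on with
  | empty => simp [E.FP, GM.pw_one]
  | insert i A hi ih =>
    have h1 := h i (mem_insert_self _ _)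
    have h2 : ∀ j ∈ A, Slot (N j) (g j) := fun j hj => h j (mem_insert_of_mem hj)
    rw [prod_insert hi, prod_insert hi, prod_insert hi, card_insert_of_notMem hi, ← ih h2, E.BP,
      ← mul_Grp h1.1 (Nat.succ_le_of_lt (prod_pos fun j hj => (h2 j hj).1)) (fun m hm => mem_Icc.2
        ⟨(h1.2.2 m hm).1, (h1.2.2 m hm).2.le⟩) (supp_Grp A h2)]
    congr 2
    ring

end

theorem grp_fix : ∀ (ι : Type) (A : Finset ι) (N : ι → ℕ) (g : ι → AF),
    (∀ i ∈ A, Slot (N i) (g i)) →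
    (∀ m, (∏ i ∈ A, g i) m ≠ 0 → m ∈ Icc (∏ i ∈ A, N i) (2 ^ A.card * ∏ i ∈ A, N i)) ∧
    (∀ m, |(∏ i ∈ A, g i) m| ≤
      (((ArithmeticFunction.zeta ^ A.card : ArithmeticFunction ℕ) m : ℕ) : ℝ)) ∧
    (∀ m, |(∏ i ∈ A, g i) m| ≤ (m.divisors.card : ℝ) ^ A.card) ∧
    ∀ (R : Finset ℕ) (t : ℝ), (∀ m, (∏ i ∈ A, g i) m ≠ 0 → m ∈ R) →
      E.FP R (∏ i ∈ A, g i : AF) t = ∏ i ∈ A, E.BP (N i) (g i) t := fun _ A _ _ h =>
  ⟨supp_Grp A h, zeta_Grp A h, div_Grp A h, fun _ t hR =>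
    (indep_Grp hR (supp_Grp A h) t).trans (fp_Grp A h t)⟩

end Pool.Agent.MP_c853c5_nt.DS

end

section

set_option autoImplicit false

open Finset Filter Real
open scoped ComplexConjugate

namespace Pool.Agent.MP_c853c5_nt.DS

open Pool.Agent.MP_88bd62_nt.U (ex)

/-- the indicator of the range -/
noncomputable def ind_Loc (P P' c a s : ℕ) : ℂ := if c + s * a ∈ Icc P P' then 1 else 0

lemma nv_ind_Loc (S P P' c a : ℕ) : nv S (fun s => ind_Loc P P' c a s) ≤ 2 := by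
  have h1 : nv S (fun s => ((if P ≤ c + s * a then 1 else 0 : ℝ) : ℂ)) ≤ 1 := by
    refine nv_monotone (f := fun s => if P ≤ c + s * a then 1 else 0) (fun s _ => ?_) ?_ ?_
    · have : c + s * a ≤ c + (s + 1) * a := by rw [add_mul]; omega
      split_ifs with h h'
      · exact le_rfl
      · omega
      · exact zero_le_one
      · exact le_rfl
    · split_ifs <;> norm_num
    · split_ifs <;> norm_num
  have h2 : nv S (fun s => ((if c + s * a ≤ P' then 1 else 0 : ℝ) : ℂ)) ≤ 2 * 1 := by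
    refine nv_antitone (f := fun s => if c + s * a ≤ P' then 1 else 0) (fun s _ => ?_) ?_ ?_
    · have : c + s * a ≤ c + (s + 1) * a := by rw [add_mul]; omega
      split_ifs with h h'
      · exact le_rfl
      · omega
      · exact zero_le_one
      · exact le_rfl
    · split_ifs <;> norm_num
    · split_ifs <;> norm_num
  have e : (fun s => ind_Loc P P' c a s) = fun s => ((if P ≤ c + s * a then 1 else 0 : ℝ) : ℂ) *
      ((if c + s * a ≤ P' then 1 else 0 : ℝ) : ℂ) := by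
    funext s
    by_cases h : P ≤ c + s * a <;> by_cases h' : c + s * a ≤ P' <;> simp [ind_Loc, h, h']
  rw [e]
  exact (nv_mul_le h1 h2).trans_eq (by norm_num)

lemma cond_Loc (H s a b c d : ℕ) :
    (b * (c + s * a) ≠ a * (d + s * b) ∧ b * (c + s * a) ≤ a * (d + s * b) + H ∧
      a * (d + s * b) ≤ b * (c + s * a) + H) ↔
    (b * c ≠ a * d ∧ b * c ≤ a * d + H ∧ a * d ≤ b * c + H) := by
  have e1 : b * (c + s * a) = b * c + s * a * b := by ring
  have e2 : a * (d + s * b) = a * d + s * a * b := by ring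
  rw [e1, e2]
  omega

/-- the weight of an edge -/
noncomputable def ff_Loc (X Δ ρ : ℝ) (H P P' : ℕ) (q : ℕ → ℕ) (s a b : ℕ) (h : ℤ) : ℂ :=
  ind_Loc P P' (q a) a s * ind_Loc P P' (q b) b s *
    if b * q a ≠ a * q b ∧ b * q a ≤ a * q b + H ∧ a * q b ≤ b * q a + H then
      ed X Δ ρ q s a b h else 0

lemma loc_eq_Loc (X Δ ρ : ℝ) (B H P P' : ℕ) (q : ℕ → ℕ) (s a b : ℕ) :
    (loc (G0 X Δ B H) (Icc P P') q s a b : ℂ) =
      ∑ h ∈ hs B, ff_Loc X Δ ρ H P P' q s a b h * ex (h * X / (a * b * (s + ρ))) := by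
  unfold loc ff_Loc ind_Loc G0
  simp only [cond_Loc]
  by_cases h1 : q a + s * a ∈ Icc P P'
  swap
  · simp [h1]
  by_cases h2 : q b + s * b ∈ Icc P P'
  swap
  · simp [h2]
  by_cases h3 : b * q a ≠ a * q b ∧ b * q a ≤ a * q b + H ∧ a * q b ≤ b * q a + H
  swap
  · simp only [if_neg h3]
    simp
  rw [if_pos ⟨h1, h2⟩, if_pos h3, rb_eq]
  refine sum_congr rfl fun h _ => ?_
  rw [if_pos h1, if_pos h2, if_pos h3, one_mul, one_mul, ed, mul_assoc, ← ex_add]
  congr 2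
  ring

theorem loc_stmt (hS : SumStmt) (hE : EdgeStmt) : LocStmt := by
  intro r hr
  obtain ⟨C₁, hC₁, hS⟩ := hS r hr
  obtain ⟨C₂, hC₂, hE⟩ := hE
  refine ⟨C₁ * (8 * C₂) ^ (2 * r) * 33 ^ (2 * r), by positivity, ?_⟩
  intro K B H Q S P P' D q X Δ ρ w F hD hB hBH hc hQ hK hcell hX hΔ hρ hw hSw hρX hlog hF hBw
  have hK1 : 1 ≤ K := by omega
  have hK0 : (0 : ℝ) < K := by exact_mod_cast hK1
  have hρ0 : 0 < ρ := by linarith
  have hF0 : 0 ≤ F := by
    have h1 : 0 ≤ F * (ρ * K ^ 2) := by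
      rw [← mul_assoc]
      exact le_trans (by positivity) hF
    exact nonneg_of_mul_nonneg_left h1 (by positivity)
  set Y : ℝ := X / (Δ * K ^ 2 * ρ) with hY
  have hY0 : 0 ≤ Y := by positivity
  have h := hS K B (33 * H) S D X ρ w (8 * C₂ * w * Y) F
    (fun s => loc (G0 X Δ B H) (Icc P P') q s) (fun s => ff_Loc X Δ ρ H P P' q s) hD hB
    (by omega) hc hX hρ hw hSw hρX (by
      rw [show (2 * ((33 * H : ℕ) : ℝ) + 1) = 66 * H + 1 by push_cast; ring]
      exact hlog) hF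
    (fun s a _ => by simp [loc, G0])
    (fun s a _ b _ _ => loc_eq_Loc X Δ ρ B H P P' q s a b)
    (fun a ha b hb h hh => by
      have h1 : nv S (fun s => if b * q a ≠ a * q b ∧ b * q a ≤ a * q b + H ∧
          a * q b ≤ b * q a + H then ed X Δ ρ q s a b h else 0) ≤ 2 * C₂ * w * Y := by
        by_cases h3 : b * q a ≠ a * q b ∧ b * q a ≤ a * q b + H ∧ a * q b ≤ b * q a + H
        · simp only [if_pos h3]
          refine (hE X Δ ρ K Q H S a b q h hX hΔ hρ hK1 (hD a ha).2.1 (hD b hb).2.1 hQ hK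
            (fun k hk => hcell k ?_) h3.2.1 h3.2.2).trans ?_
          · rcases mem_insert.1 hk with rfl | hk
            · exact ha
            · rw [mem_singleton.1 hk]
              exact hb
          · have h4 : |(h : ℝ)| * X * H / (K ^ 4 * ρ ^ 2) ≤ w := by
              rw [div_le_iff₀ (by positivity)]
              refine le_trans ?_ hBw
              have := abs_le_of_hs hh
              gcongr
            calc C₂ * Y * (1 + |(h : ℝ)| * X * H / (K ^ 4 * ρ ^ 2)) ≤ C₂ * Y * (w + w) := by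
                  gcongr
              _ = 2 * C₂ * w * Y := by ring
        · simp only [if_neg h3]
          rw [nv_const, norm_zero]
          positivity
      exact (nv_mul_le (nv_mul_le (nv_ind_Loc S P P' (q a) a) (nv_ind_Loc S P P' (q b) b))
        h1).trans_eq (by ring))
  refine h.trans ?_
  have hz := zb_nonneg hF0 ρ
  have h33 : (33 : ℝ) ^ (r + 1) ≤ 33 ^ (2 * r) := pow_le_pow_right₀ (by norm_num) (by omega)
  have h5 : ρ * ((33 * H : ℕ) : ℝ) ^ (r + 1) * B ^ r +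
      ((33 * H : ℕ) : ℝ) ^ (2 * r) * B ^ (2 * r) * (zb F ρ + √ρ) ≤
      33 ^ (2 * r) * (ρ * H ^ (r + 1) * B ^ r + H ^ (2 * r) * B ^ (2 * r) * (zb F ρ + √ρ)) := by
    push_cast
    rw [mul_pow, mul_pow, mul_add ((33 : ℝ) ^ (2 * r))]
    refine add_le_add ?_ (le_of_eq (by ring))
    calc ρ * (33 ^ (r + 1) * (H : ℝ) ^ (r + 1)) * B ^ r
        ≤ ρ * (33 ^ (2 * r) * (H : ℝ) ^ (r + 1)) * B ^ r := by gcongr
      _ = _ := by ring
  calc C₁ * w ^ 6 * (8 * C₂ * w * Y) ^ (2 * r) * (ρ * ((33 * H : ℕ) : ℝ) ^ (r + 1) * B ^ r +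
        ((33 * H : ℕ) : ℝ) ^ (2 * r) * B ^ (2 * r) * (zb F ρ + √ρ))
      ≤ C₁ * w ^ 6 * (8 * C₂ * w * Y) ^ (2 * r) * (33 ^ (2 * r) *
        (ρ * H ^ (r + 1) * B ^ r + H ^ (2 * r) * B ^ (2 * r) * (zb F ρ + √ρ))) :=
        mul_le_mul_of_nonneg_left h5 (by positivity)
    _ = _ := by
        rw [mul_pow (8 * C₂ * w), mul_pow (8 * C₂), pow_add w]
        ring

end Pool.Agent.MP_c853c5_nt.DS

end

section

/-! Averaging over all selections. -/

set_option autoImplicit false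

open Finset Filter Real

namespace Pool.Agent.MP_c853c5_nt.DT

open DS

theorem upd_Avg {ι : Type} [Fintype ι] [DecidableEq ι] (t : Finset ℕ) (a : ι)
    (F : (ι → ℕ) → ℝ) :
    (t.card : ℝ) * ∑ j ∈ Fintype.piFinset fun _ : ι => t, F j =
      ∑ j ∈ Fintype.piFinset fun _ : ι => t, ∑ i ∈ t, F (Function.update j a i) := by
  have h1 : (t.card : ℝ) * ∑ j ∈ Fintype.piFinset fun _ : ι => t, F j =
      ∑ x ∈ (Fintype.piFinset fun _ : ι => t) ×ˢ t, F x.1 := by
    rw [sum_product, mul_sum]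
    simp only [sum_const, nsmul_eq_mul]
  have h2 : ∀ x ∈ (Fintype.piFinset fun _ : ι => t) ×ˢ t,
      (Function.update x.1 a x.2, x.1 a) ∈ (Fintype.piFinset fun _ : ι => t) ×ˢ t := by
    intro x hx
    rw [mem_product, Fintype.mem_piFinset] at hx ⊢
    refine ⟨fun c => ?_, hx.1 a⟩
    by_cases h : c = a
    · subst h
      simpa using hx.2
    · simpa [Function.update_of_ne h] using hx.1 c
  rw [h1, ← sum_product' (f := fun j i => F (Function.update j a i))]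
  exact sum_nbij' (fun x => (Function.update x.1 a x.2, x.1 a))
    (fun x => (Function.update x.1 a x.2, x.1 a)) h2 h2 (fun x _ => by simp) (fun x _ => by simp)
    (fun x _ => by simp)

theorem two_Avg {ι : Type} [Fintype ι] [DecidableEq ι] (t : Finset ℕ) {a b : ι} (hab : a ≠ b)
    (f : ℕ → ℕ → ℝ) :
    (t.card : ℝ) ^ 2 * ∑ j ∈ Fintype.piFinset fun _ : ι => t, f (j a) (j b) =
      ((Fintype.piFinset fun _ : ι => t).card : ℝ) * ∑ i ∈ t, ∑ i' ∈ t, f i i' := by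
  rw [sq, mul_assoc, upd_Avg t a]
  simp only [Function.update_self, Function.update_of_ne hab.symm]
  rw [upd_Avg t b]
  simp only [Function.update_self, sum_const, nsmul_eq_mul]
  rw [sum_comm]

theorem avg_stmt : AvgStmt := by
  intro D J n T φ W hJ hn h0 hW
  classical
  obtain ⟨m, rfl⟩ : ∃ m, n = m + 1 := ⟨n - 1, by omega⟩
  set P := Fintype.piFinset fun _ : D => range J with hP
  have hN : (0 : ℝ) < P.card := by
    have h1 : P.Nonempty := ⟨fun _ => 0, Fintype.mem_piFinset.2 fun _ => mem_range.2 hJ⟩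
    exact_mod_cast h1.card_pos
  let Y : ℕ → (D → ℕ) → ℝ := fun s j => ∑ a : D, ∑ b : D, φ s a (j a) b (j b)
  have hY : ∀ j ∈ P, ∑ s ∈ T, |Y s j| ^ (m + 1) ≤ W := by
    intro j hj
    have h1 := hW (fun a => if h : a ∈ D then j ⟨a, h⟩ else 0) fun a => by
      by_cases h : a ∈ D
      · rw [dif_pos h]
        exact mem_range.1 (Fintype.mem_piFinset.1 hj _)
      · rw [dif_neg h]
        exact hJ
    refine le_of_eq_of_le (sum_congr rfl fun s _ => ?_) h1
    congr 2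
    rw [← sum_coe_sort D]
    refine sum_congr rfl fun a _ => ?_
    rw [← sum_coe_sort D]
    refine sum_congr rfl fun b _ => ?_
    rw [dif_pos a.2, dif_pos b.2]
  have hX : ∀ s, (P.card : ℝ) * ∑ a ∈ D, ∑ i ∈ range J, ∑ b ∈ D, ∑ i' ∈ range J, φ s a i b i' =
      (J : ℝ) ^ 2 * ∑ j ∈ P, Y s j := by
    intro s
    rw [sum_comm (s := P), mul_sum, mul_sum, ← sum_coe_sort D]
    refine sum_congr rfl fun a _ => ?_
    rw [sum_comm (s := P), sum_comm (s := range J), mul_sum, mul_sum, ← sum_coe_sort D]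
    refine sum_congr rfl fun b _ => ?_
    by_cases h : a = b
    · subst h
      simp only [h0, sum_const_zero, mul_zero]
    · have h1 := two_Avg (range J) h fun i i' => φ s a i b i'
      rw [card_range] at h1
      exact h1.symm
  refine le_of_mul_le_mul_left ?_ (pow_pos hN (m + 1))
  calc (P.card : ℝ) ^ (m + 1) * ∑ s ∈ T,
        |∑ a ∈ D, ∑ i ∈ range J, ∑ b ∈ D, ∑ i' ∈ range J, φ s a i b i'| ^ (m + 1)
      = ∑ s ∈ T, ((J : ℝ) ^ 2) ^ (m + 1) * |∑ j ∈ P, Y s j| ^ (m + 1) := by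
        rw [mul_sum]
        refine sum_congr rfl fun s _ => ?_
        rw [← mul_pow, ← mul_pow, ← abs_of_pos hN, ← abs_mul, hX, abs_mul,
          abs_of_nonneg (sq_nonneg _)]
    _ ≤ ∑ s ∈ T, ((J : ℝ) ^ 2) ^ (m + 1) * (P.card ^ m * ∑ j ∈ P, |Y s j| ^ (m + 1)) := by
        refine sum_le_sum fun s _ => mul_le_mul_of_nonneg_left ?_ (by positivity)
        exact (pow_le_pow_left₀ (abs_nonneg _) (abs_sum_le_sum_abs _ _) _).trans
          (pow_sum_le_card_mul_sum_pow (fun _ _ => abs_nonneg _) m)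
    _ = ((J : ℝ) ^ 2) ^ (m + 1) * (P.card ^ m * ∑ j ∈ P, ∑ s ∈ T, |Y s j| ^ (m + 1)) := by
        rw [← mul_sum, ← mul_sum, sum_comm]
    _ ≤ ((J : ℝ) ^ 2) ^ (m + 1) * (P.card ^ m * (P.card * W)) := by
        refine mul_le_mul_of_nonneg_left (mul_le_mul_of_nonneg_left ?_ (by positivity))
          (by positivity)
        simpa using sum_le_card_nsmul P _ W hY
    _ = (P.card : ℝ) ^ (m + 1) * (((J : ℝ) ^ 2) ^ (m + 1) * W) := by ring

end Pool.Agent.MP_c853c5_nt.DT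

end

section

/-! Cutting a quadratic form into translated cells, several points for each prime. -/

set_option autoImplicit false

open Finset Filter Real

namespace Pool.Agent.MP_c853c5_nt.DT

open DS

/-- the least `q` with `c * a ≤ Q * q` -/
def q0_Blk (Q c a : ℕ) : ℕ := (c * a + Q - 1) / Q

lemma range_Blk {K Q J j c a t : ℕ} (ha : 0 < a) (ha' : a < 2 * K) (hj : j ≤ 2) (hQ : 1 ≤ Q)
    (hJ : 4 * K ≤ J * Q) (h : In_Blk Q j c (a, t)) : ∃ i, i < J ∧ t = q0_Blk Q c a + i := by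
  obtain ⟨b1, b2⟩ := (in_iff_Blk ha).1 h
  have h1 := Nat.div_add_mod (c * a + Q - 1) Q
  have h2 := Nat.mod_lt (c * a + Q - 1) hQ
  have h3 : q0_Blk Q c a < t + 1 := by
    rw [q0_Blk, Nat.div_lt_iff_lt_mul hQ, add_mul, mul_comm t]
    omega
  have h4 : j * a ≤ 2 * a := Nat.mul_le_mul_right _ hj
  have h5 : t < q0_Blk Q c a + J := by
    refine Nat.lt_of_mul_lt_mul_left (a := Q) ?_
    rw [add_mul] at b2
    rw [mul_add, mul_comm Q J, q0_Blk]
    omega
  exact ⟨t - q0_Blk Q c a, by omega, by omega⟩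

open Classical in
lemma sel_Blk {K Q J j c : ℕ} {D₀ : Finset ℕ} (R : Finset ℕ) (hD : PrK K D₀) (hj : j ≤ 2)
    (hQ : 1 ≤ Q) (hJ : 4 * K ≤ J * Q) (s : ℕ) (φ : ℕ × ℕ → ℝ) :
    ∑ u ∈ D₀ ×ˢ R, (if In_Blk Q j (c + Q * s) u then φ u else 0) =
      ∑ a ∈ D₀, ∑ i ∈ range J,
        if In_Blk Q j c (a, q0_Blk Q c a + i) ∧ q0_Blk Q c a + i + s * a ∈ R then
          φ (a, q0_Blk Q c a + i + s * a) else 0 := by
  rw [sum_product]
  refine sum_congr rfl fun a ha => ?_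
  obtain ⟨k0, -, k2⟩ := hD a ha
  rw [← sum_filter, ← sum_filter]
  refine (sum_bij (fun i _ => q0_Blk Q c a + i + s * a) (fun i hi => ?_)
    (fun i _ i' _ h => by omega) (fun p hp => ?_) fun _ _ => rfl).symm
  · obtain ⟨-, h1, h2⟩ := mem_filter.1 hi
    exact mem_filter.2 ⟨h2, (shift_Blk k0.pos).2 h1⟩
  · obtain ⟨h1, h2⟩ := mem_filter.1 hp
    obtain ⟨t, rfl⟩ := unshift_Blk k0.pos hQ h2
    rw [shift_Blk k0.pos] at h2
    obtain ⟨i, hi, rfl⟩ := range_Blk k0.pos k2 hj hQ hJ h2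
    exact ⟨i, mem_filter.2 ⟨mem_range.2 hi, h2, h1⟩, rfl⟩

theorem blk_stmt (hO : OpStmt) (hA : AvgStmt) : BlkStmt := by
  classical
  intro K P Λ H Q J r D₀ G α W hr hΛ hD hK hP hQ hQH hJ hG hG' hα hW
  set R := Icc P (Λ * P) with hR
  set S := Λ * P / K + 1 with hS
  set s₀ := P / (4 * K) with hs₀
  have hQ0 : 0 < Q := by omega
  have hJ1 : 1 ≤ J := Nat.pos_of_ne_zero fun h => by rw [h] at hJ; omega
  have a1 : s₀ * (4 * K) ≤ P := Nat.div_mul_le_self _ _
  have a2 : P < (s₀ + 1) * (4 * K) := (Nat.div_lt_iff_lt_mul (by omega)).1 (Nat.lt_succ_self _)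
  have a3 : 2 ≤ s₀ := (Nat.le_div_iff_mul_le (by omega)).2 (by omega)
  have a4 : Λ * P < S * K := (Nat.div_lt_iff_lt_mul (by omega)).1 (Nat.lt_succ_self _)
  set g : ℕ × ℕ → ℕ × ℕ → ℝ := fun u v => α u * α v * G u v with hg
  have key : ∀ j, j ≤ 2 → ∀ c, c < Q →
      ∑ s ∈ range S, |F_Blk (D₀ ×ˢ R) g Q j (s₀ * Q + c + Q * s)| ^ (2 * r) ≤
        (J ^ 2 * K : ℝ) ^ (2 * r) * W := by
    intro j hj c hc
    have hQ' : (0 : ℝ) < Q := by exact_mod_cast hQ0
    have hs : (P : ℝ) ≤ 8 * K * (((s₀ * Q + c : ℕ) : ℝ) / Q) ∧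
        K * (((s₀ * Q + c : ℕ) : ℝ) / Q) ≤ P := by
      constructor
      · rw [← mul_div_assoc, le_div_iff₀ hQ']
        have : P * Q ≤ 8 * K * (s₀ * Q + c) := by
          have b : P ≤ 8 * K * s₀ := by nlinarith
          calc P * Q ≤ 8 * K * s₀ * Q := Nat.mul_le_mul_right _ b
            _ ≤ 8 * K * (s₀ * Q + c) := by
              rw [mul_assoc (8 * K)]
              exact Nat.mul_le_mul_left _ (by omega)
        exact_mod_cast this
      · rw [← mul_div_assoc, div_le_iff₀ hQ']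
        have : K * (s₀ * Q + c) ≤ P * Q := by
          have b : K * (s₀ + 1) ≤ P := by nlinarith
          calc K * (s₀ * Q + c) ≤ K * ((s₀ + 1) * Q) :=
                Nat.mul_le_mul_left _ (by rw [add_mul]; omega)
            _ = K * (s₀ + 1) * Q := by ring
            _ ≤ P * Q := Nat.mul_le_mul_right _ b
        exact_mod_cast this
    generalize s₀ * Q + c = c₁ at hs
    have h := hA D₀ J (2 * r) (range S) (fun s a i b i' =>
      if In_Blk Q j c₁ (a, q0_Blk Q c₁ a + i) ∧ q0_Blk Q c₁ a + i + s * a ∈ R then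
        if In_Blk Q j c₁ (b, q0_Blk Q c₁ b + i') ∧ q0_Blk Q c₁ b + i' + s * b ∈ R then
          g (a, q0_Blk Q c₁ a + i + s * a) (b, q0_Blk Q c₁ b + i' + s * b) else 0 else 0)
      ((K : ℝ) ^ (2 * r) * W) hJ1 (by omega) (fun s a i i' => ?_) fun jj _ => ?_
    · rw [mul_pow, mul_assoc]
      refine le_trans (le_of_eq (sum_congr rfl fun s _ => ?_)) h
      congr 2
      unfold F_Blk
      rw [sel_Blk R hD hj hQ hJ]
      refine sum_congr rfl fun a _ => sum_congr rfl fun i _ => ?_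
      split_ifs with h1
      · rw [sel_Blk R hD hj hQ hJ]
      · simp only [sum_const_zero]
    · split_ifs
      · exact mul_eq_zero_of_right _ (by_contra fun h0 => (hG' _ _ h0).1 rfl)
      · rfl
      · rfl
    · obtain ⟨D, hD1⟩ : ∃ D, D = D₀.filter fun a => In_Blk Q j c₁ (a, q0_Blk Q c₁ a + jj a) :=
        ⟨_, rfl⟩
      obtain ⟨q, hq⟩ : ∃ q : ℕ → ℕ, q = fun a => q0_Blk Q c₁ a + jj a := ⟨_, rfl⟩
      have hq' : ∀ a, q0_Blk Q c₁ a + jj a = q a := fun a => by rw [hq]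
      simp only [hq'] at hD1 ⊢
      have hsub : D ⊆ D₀ := hD1 ▸ filter_subset _ _
      have hc1 : D.card ≤ K := PrK.card_le fun k hk => hD k (hsub hk)
      have hw := hW D q ((c₁ : ℝ) / Q) hsub hs.1 hs.2 fun k hk =>
        cell_Blk (hD k (hsub hk)).1.pos hQ0 hj (by
          rw [hD1] at hk
          exact (mem_filter.1 hk).2)
      refine le_trans ?_ (mul_le_mul_of_nonneg_left hw (by positivity))
      rw [mul_sum]
      refine sum_le_sum fun s _ => ?_
      refine le_trans (le_of_eq ?_) ((hO D (loc G R q s) (fun a => α (a, q a + s * a)) r hr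
        (fun a b => ?_) fun a => hα _).trans (mul_le_mul_of_nonneg_right ?_ (by positivity)))
      · congr 2
        rw [hD1, sum_filter]
        refine sum_congr rfl fun a _ => ?_
        rw [sum_filter]
        by_cases h1 : In_Blk Q j c₁ (a, q a)
        · rw [if_pos h1]
          refine sum_congr rfl fun b _ => ?_
          by_cases h2 : In_Blk Q j c₁ (b, q b) <;> by_cases h3 : q a + s * a ∈ R <;>
            by_cases h4 : q b + s * b ∈ R <;> simp [loc, hg, h1, h2, h3, h4]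
        · simp [h1]
      · unfold loc
        rw [hG]
        exact if_congr and_comm rfl rfl
      · exact pow_le_pow_left₀ (by positivity) (by exact_mod_cast hc1) _
  have tot := total_Blk (D₀ ×ˢ R) g Q (s₀ * Q) (Q * S) ?_ ?_
  · rw [reidx_Blk] at tot
    have h1 : |∑ u ∈ D₀ ×ˢ R, ∑ v ∈ D₀ ×ˢ R, g u v| ≤
        ∑ z ∈ (({1, 2} : Finset ℕ) ×ˢ range Q) ×ˢ range S,
          |F_Blk (D₀ ×ˢ R) g Q z.1.1 (s₀ * Q + z.1.2 + Q * z.2)| := by
      rw [tot, sum_product, sum_product, sum_pair (by norm_num), ← sum_add_distrib]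
      refine (abs_sum_le_sum_abs _ _).trans (sum_le_sum fun c _ => ?_)
      rw [← sum_add_distrib]
      refine (abs_sum_le_sum_abs _ _).trans (sum_le_sum fun s _ => ?_)
      rw [← add_assoc, add_comm |_|]
      exact abs_sub _ _
    refine (pow_le_pow_left₀ (abs_nonneg _) h1 _).trans ?_
    have h2 := pow_sum_le_card_mul_sum_pow
      (s := (({1, 2} : Finset ℕ) ×ˢ range Q) ×ˢ range S)
      (f := fun z => |F_Blk (D₀ ×ˢ R) g Q z.1.1 (s₀ * Q + z.1.2 + Q * z.2)|)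
      (fun _ _ => abs_nonneg _) (2 * r - 1)
    rw [show 2 * r - 1 + 1 = 2 * r by omega, card_product, card_product, card_range, card_range,
      card_pair (by norm_num)] at h2
    refine h2.trans ?_
    push_cast
    rw [mul_assoc ((2 * Q * S : ℝ) ^ (2 * r - 1))]
    refine mul_le_mul_of_nonneg_left ?_ (by positivity)
    rw [sum_product]
    refine (sum_le_card_nsmul _ _ ((J ^ 2 * K : ℝ) ^ (2 * r) * W) fun z hz => ?_).trans ?_
    · obtain ⟨z1, z2⟩ := mem_product.1 hz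
      refine key z.1 ?_ z.2 (mem_range.1 z2)
      simp only [mem_insert, mem_singleton] at z1
      omega
    · rw [card_product, card_range, card_pair (by norm_num), nsmul_eq_mul]
      push_cast
      exact le_of_eq (by ring)
  · rintro ⟨k, p⟩ hu
    obtain ⟨u1, u2⟩ := mem_product.1 hu
    obtain ⟨-, k1, k2⟩ := hD k u1
    obtain ⟨p1, p2⟩ := mem_Icc.1 u2
    dsimp only at k1 k2 p1 p2 ⊢
    constructor
    · rw [Nat.le_div_iff_mul_le (by omega)]
      have b1 : s₀ * (2 * k) ≤ P := le_trans (Nat.mul_le_mul_left _ (by omega)) a1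
      have b2 : Q * (s₀ * (2 * k)) ≤ Q * p := Nat.mul_le_mul_left _ (b1.trans p1)
      have b3 : 1 * k ≤ s₀ * Q * k := Nat.mul_le_mul_right _ (Nat.mul_pos (by omega) hQ0)
      nlinarith
    · refine lt_of_lt_of_le ?_ (Nat.le_add_left _ _)
      rw [Nat.div_lt_iff_lt_mul (by omega), mul_assoc]
      exact Nat.mul_lt_mul_of_pos_left
        (p2.trans_lt (a4.trans_le (Nat.mul_le_mul_left _ k1))) hQ0
  · intro u hu v hv h0
    obtain ⟨-, b2, b3⟩ := hG' u v (right_ne_zero_of_mul h0)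
    have k1 := (hD _ (mem_product.1 hu).1).2.1
    have k2 := (hD _ (mem_product.1 hv).1).2.1
    exact ⟨near_Blk hK k1 k2 hQH b2, near_Blk hK k2 k1 hQH b3⟩

end Pool.Agent.MP_c853c5_nt.DT

end

section

/-!
One cell.
-/

set_option autoImplicit false

open Finset Filter Real
open scoped ComplexConjugate

namespace Pool.Agent.MP_c853c5_nt.DT

open Pool.Agent.MP_88bd62_nt.U (ex)
open DS

theorem loc_stmt (hS : SumStmt) (hE : EdgeStmt) : LocStmt := by
  intro r hr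
  obtain ⟨C₁, hC₁, hS⟩ := hS r hr
  obtain ⟨C₂, hC₂, hE⟩ := hE
  refine ⟨C₁ * (8 * C₂) ^ (2 * r), by positivity, ?_⟩
  intro K B H Q S P P' D q X Δ ρ w F hD hB hQ hK hcell hX hΔ hρ hw hSw hρX hlog hF hBw
  have hK1 : 1 ≤ K := by omega
  have hK0 : (0 : ℝ) < K := by exact_mod_cast hK1
  have hρ0 : 0 < ρ := by linarith
  have hF0 : 0 ≤ F := by
    have h1 : 0 ≤ F * (ρ * K ^ 2) := by
      rw [← mul_assoc]
      exact le_trans (by positivity) hF
    exact nonneg_of_mul_nonneg_left h1 (by positivity)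
  set Y : ℝ := X / (Δ * K ^ 2 * ρ) with hY
  have hY0 : 0 ≤ Y := by positivity
  have h := hS K B K S D X ρ w (8 * C₂ * w * Y) F
    (fun s => loc (G0 X Δ B H) (Icc P P') q s) (fun s => ff_Loc X Δ ρ H P P' q s) hD hB
    ((Nat.le_mul_of_pos_left B (by positivity)).trans hB.le) hD.card_le hX hρ hw hSw hρX hlog hF
    (fun s a _ => by simp [loc, G0])
    (fun s a _ b _ _ => loc_eq_Loc X Δ ρ B H P P' q s a b)
    (fun a ha b hb h hh => by
      have h1 : nv S (fun s => if b * q a ≠ a * q b ∧ b * q a ≤ a * q b + H ∧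
          a * q b ≤ b * q a + H then ed X Δ ρ q s a b h else 0) ≤ 2 * C₂ * w * Y := by
        by_cases h3 : b * q a ≠ a * q b ∧ b * q a ≤ a * q b + H ∧ a * q b ≤ b * q a + H
        · simp only [if_pos h3]
          refine (hE X Δ ρ K Q H S a b q h hX hΔ hρ hK1 (hD a ha).2.1 (hD b hb).2.1 hQ hK
            (fun k hk => hcell k ?_) h3.2.1 h3.2.2).trans ?_
          · rcases mem_insert.1 hk with rfl | hk
            · exact ha
            · rw [mem_singleton.1 hk]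
              exact hb
          · have h4 : |(h : ℝ)| * X * H / (K ^ 4 * ρ ^ 2) ≤ w := by
              rw [div_le_iff₀ (by positivity)]
              refine le_trans ?_ hBw
              have := abs_le_of_hs hh
              gcongr
            calc C₂ * Y * (1 + |(h : ℝ)| * X * H / (K ^ 4 * ρ ^ 2)) ≤ C₂ * Y * (w + w) := by
                  gcongr
              _ = 2 * C₂ * w * Y := by ring
        · simp only [if_neg h3]
          rw [nv_const, norm_zero]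
          positivity
      exact (nv_mul_le (nv_mul_le (nv_ind_Loc S P P' (q a) a) (nv_ind_Loc S P P' (q b) b))
        h1).trans_eq (by ring))
  refine h.trans (le_of_eq ?_)
  rw [mul_pow (8 * C₂ * w), mul_pow (8 * C₂), pow_add w]
  ring

end Pool.Agent.MP_c853c5_nt.DT

end

section

/-!
The terms with equal primes, and the main term.
-/

set_option autoImplicit false

open Finset Filter Real

namespace Pool.Agent.MP_c853c5_nt.DT

open DS

lemma rb_le_Main {X Δ n n' N : ℝ} (B : ℕ) (hX : 0 < X) (hΔ : 0 < Δ) (hN : 0 < N) (hn : N ≤ n) :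
    |rb X Δ Δ B n n'| ≤ 2 * B * (X / (Δ * N)) := by
  have h1 : Δ * N ≤ √(dd Δ Δ n n') := by
    refine Real.le_sqrt_of_sq_le ?_
    have : (Δ * N) ^ 2 ≤ (Δ * n) ^ 2 := by gcongr
    unfold dd
    nlinarith [sq_nonneg (n' * Δ)]
  refine (abs_sum_le_sum_abs _ _).trans ((sum_le_card_nsmul _ _ (X / (Δ * N)) fun h _ => ?_).trans ?_)
  · rw [abs_mul, abs_of_nonneg (am_nonneg hX.le _ _ _ _ _)]
    refine (mul_le_of_le_one_right (am_nonneg hX.le _ _ _ _ _) (Real.abs_cos_le_one _)).trans ?_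
    have d0 : 0 < dd Δ Δ n n' := dd_pos n' hΔ (hN.trans_le hn)
    have e1 : Real.exp (-(π * (n - n') ^ 2 / dd Δ Δ n n')) ≤ 1 :=
      Real.exp_le_one_iff.2 (neg_nonpos.2 (by positivity))
    have e2 : Real.exp (-(π * (h : ℝ) ^ 2 * (X * Δ * Δ) ^ 2 / dd Δ Δ n n')) ≤ 1 :=
      Real.exp_le_one_iff.2 (neg_nonpos.2 (by positivity))
    have e3 : X / √(dd Δ Δ n n') ≤ X / (Δ * N) := by gcongr
    unfold am
    calc _ ≤ X / (Δ * N) * 1 * 1 := by gcongr
      _ = _ := by ring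
  · rw [card_hs, nsmul_eq_mul]
    push_cast
    exact le_rfl

theorem diag_stmt : DiagStmt := by
  classical
  intro X Δ K P Λ B H D α hX hΔ hK hP hD hα
  have hK0 : (0 : ℝ) < K := by exact_mod_cast hK
  have hP0 : (0 : ℝ) < P := by exact_mod_cast hP
  set U := D ×ˢ Icc P (Λ * P) with hU
  set T : ℝ := 2 * B * (X / (Δ * (K * P))) with hT
  have T0 : 0 ≤ T := by positivity
  rw [← sum_sub_distrib]
  have key : ∀ u ∈ U, |∑ v ∈ U, α u * α v * G0 X Δ B H u v -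
      ∑ v ∈ U, α u * α v * G1 X Δ B H u v| ≤ 2 * H / K * T := by
    intro u hu
    obtain ⟨u1, u2⟩ := mem_product.1 hu
    have k1 := (hD _ u1).2.1
    have p1 := (mem_Icc.1 u2).1
    rw [← sum_sub_distrib]
    set V := U.filter fun v => v.1 = u.1 ∧ v.2 ≠ u.2 ∧ v.2 ≤ u.2 + H / K ∧ u.2 ≤ v.2 + H / K
      with hV
    have c1 : V.card ≤ 2 * (H / K) := by
      have := card_le_card_of_injOn (s := V)
        (t := (Icc (u.2 - H / K) (u.2 + H / K)).erase u.2) Prod.snd (fun v hv => ?_)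
        fun v hv v' hv' e => ?_
      · rw [card_erase_of_mem (mem_Icc.2 ⟨Nat.sub_le _ _, Nat.le_add_right _ _⟩), Nat.card_Icc]
          at this
        generalize H / K = m at *
        omega
      · obtain ⟨-, -, a, b, c⟩ := mem_filter.1 hv
        generalize H / K = m at *
        exact mem_coe.2 (mem_erase.2 ⟨a, mem_Icc.2 (by omega)⟩)
      · exact Prod.ext ((mem_filter.1 hv).2.1.trans (mem_filter.1 hv').2.1.symm) e
    have c2 : (V.card : ℝ) ≤ 2 * H / K := by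
      have a : (V.card : ℝ) ≤ 2 * ((H / K : ℕ) : ℝ) := by exact_mod_cast c1
      have b := Nat.cast_div_le (α := ℝ) (m := H) (n := K)
      rw [mul_div_assoc]
      linarith
    rw [← sum_subset (filter_subset _ _ : V ⊆ U)]
    · refine (abs_sum_le_sum_abs _ _).trans ((sum_le_card_nsmul _ _ T fun v hv => ?_).trans ?_)
      · have e := (mem_filter.1 hv).2.1
        rw [G1, if_pos e.symm, mul_zero, sub_zero, abs_mul, abs_mul]
        refine (mul_le_of_le_one_left (abs_nonneg _)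
          (mul_le_one₀ (hα _) (abs_nonneg _) (hα _))).trans ?_
        unfold G0
        split_ifs
        · refine rb_le_Main B hX hΔ (by positivity) ?_
          rw [e]
          exact_mod_cast Nat.mul_le_mul k1 p1
        · simpa using T0
      · rw [nsmul_eq_mul]
        gcongr
    · intro v hv hn
      unfold G1
      split_ifs with e
      · rw [mul_zero, sub_zero, G0, if_neg, mul_zero]
        rintro ⟨a, b, c⟩
        rw [← e] at a b
        rw [← e] at c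
        have key : ∀ p p' : ℕ, u.1 * p ≤ u.1 * p' + H → p ≤ p' + H / K := fun p p' h => by
          have h1 : K * (p - p') ≤ H := by
            have : u.1 * (p - p') ≤ H := by
              rw [Nat.mul_sub]
              omega
            exact (Nat.mul_le_mul_right _ k1).trans this
          have h2 : p - p' ≤ H / K := (Nat.le_div_iff_mul_le hK).2 (by rwa [mul_comm])
          omega
        exact hn (mem_filter.2 ⟨hv, e.symm, fun h => a (by rw [h]), key _ _ c, key _ _ b⟩)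
      · exact sub_self _
  refine (abs_sum_le_sum_abs _ _).trans ((sum_le_card_nsmul _ _ _ key).trans ?_)
  have u0 : (U.card : ℝ) ≤ K * (Λ * P) := by
    have : U.card ≤ K * (Λ * P) := by
      rw [hU, card_product]
      exact Nat.mul_le_mul hD.card_le (card_Icc_le hP)
    exact_mod_cast this
  rw [nsmul_eq_mul]
  refine (mul_le_mul_of_nonneg_right u0 (by positivity)).trans (le_of_eq ?_)
  rw [hT]
  field_simp
  ring

theorem main_stmt (hM : DS.MainStmt) (hL : LongStmt) (hD : DiagStmt) : MainStmt := by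
  intro r Λ μ hr hΛ hμ
  have hr0 : (2 : ℝ) ≤ r := by exact_mod_cast hr
  have hΛ' : (1 : ℝ) ≤ Λ := by exact_mod_cast hΛ
  have hl0 : 0 < μ / (8 * r) := by positivity
  have hl1 : μ / (8 * r) ≤ μ := div_le_self hμ.le (by linarith)
  obtain ⟨ν₁, h1, e1⟩ := hM r Λ (μ / (8 * r)) hr hΛ hl0
  obtain ⟨ν₂, h2, e2⟩ := hL r Λ μ hr hΛ hμ
  obtain ⟨ν, hν, n1, n2, n3⟩ : ∃ ν : ℝ, 0 < ν ∧ ν ≤ ν₁ ∧ 2 * ν ≤ ν₂ ∧ 2 * ν ≤ 1 / 800 :=
    ⟨min ν₁ (min (ν₂ / 2) (1 / 1600)), by positivity, min_le_left _ _,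
      by linarith [min_le_right ν₁ (min (ν₂ / 2) (1 / 1600)), min_le_left (ν₂ / 2) (1 / 1600)],
      by linarith [min_le_right ν₁ (min (ν₂ / 2) (1 / 1600)), min_le_right (ν₂ / 2) (1 / 1600)]⟩
  refine ⟨ν, hν, ?_⟩
  filter_upwards [e1, e2, eventually_ge_atTop (1 : ℝ), E.ev_le_log 1, E.ev_const_le 2 hν,
    E.ev_log_le (72 * (Λ : ℝ) ^ 3) 2 (show (0 : ℝ) < 1 / 800 by norm_num)]
    with x e1 e2 hx hl c1 c2 X Δ Γ K P D b c G hW hP hb hc
  have hx0 : 0 < x := by linarith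
  have hΔ : 0 < Δ := (Real.rpow_pos_of_pos hx0 _).trans_le G.d1
  have hX : 0 < X := lt_of_lt_of_le (by linarith) G.x1
  have hK : (0 : ℝ) < K := by exact_mod_cast G.k1
  have hP0 : (0 : ℝ) < P := by exact_mod_cast G.p1
  have up : ∀ {s t : ℝ}, s ≤ t → x ^ s ≤ x ^ t := fun h => Real.rpow_le_rpow_of_exponent_le hx h
  have hL1 := one_le_Lm X Δ K P
  rcases le_total (P * Δ * x ^ (μ / (8 * r))) 1 with h | h
  · refine (e1 X Δ Γ K P D b c ⟨G.x1, G.x2, G.d1, G.d2, G.k1, G.p1, h, le_trans ?_ G.h2, G.h3,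
      le_trans ?_ G.h4, G.h5, G.h6, G.h7⟩ hW hP hb hc).trans ?_
    · exact mul_le_mul_of_nonneg_left (up hl1) (by positivity)
    · exact mul_le_mul_of_nonneg_left (up hl1)
        (mul_nonneg (by positivity) (zb_nonneg (by positivity) _))
    · exact mul_le_mul_of_nonneg_left (up (neg_le_neg n1)) (by positivity)
  have hα : ∀ u : ℕ × ℕ, |b u.1 * c u.2| ≤ 1 := fun u => by
    rw [abs_mul]
    exact mul_le_one₀ (hb _) (abs_nonneg _) (hc _)
  have a1 := e2 X Δ K P D _ G h hP hα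
  have a2 := hD X Δ K P Λ (bb x X Δ Λ K P) (hh x Δ Λ K P) D _ hX hΔ G.k1 G.p1 hP hα
  have hc1 : 1 ≤ 3 * (Λ : ℝ) * Real.log x := by nlinarith
  have hB : (bb x X Δ Λ K P : ℝ) ≤ 3 * Λ * Real.log x * Lm X Δ K P :=
    (Nat.floor_le (by positivity)).trans
      (mul_le_mul_of_nonneg_left (le_Lm X Δ K P) (by positivity))
  have hE : 1 ≤ (K : ℝ) * P * Δ := by
    by_contra h0
    have b1 : ((K : ℝ) * P * Δ) ^ (r - 1) < 1 :=
      pow_lt_one₀ (by positivity) (not_le.1 h0) (by omega)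
    have b2 : 1 ≤ Lm X Δ K P ^ r * x ^ μ :=
      one_le_mul_of_one_le_of_one_le (one_le_pow₀ hL1) (Real.one_le_rpow hx hμ.le)
    linarith [G.h2]
  have hH : (hh x Δ Λ K P : ℝ) ≤ 2 * (3 * Λ * Real.log x) * (K * P * Δ) := by
    have : (hh x Δ Λ K P : ℝ) ≤ 3 * Λ * Real.log x * (K * P * Δ) + 1 :=
      (Nat.ceil_lt_add_one (by positivity)).le
    nlinarith
  have a3 : 4 * Λ * X * (hh x Δ Λ K P : ℝ) * (bb x X Δ Λ K P : ℝ) / (Δ * K) ≤
      X * (K * P) * x ^ (-(2 * ν)) := by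
    have z0 : 0 < x ^ (1 / 800 : ℝ) := by positivity
    have z1 : x ^ (1 / 400 : ℝ) = x ^ (1 / 800 : ℝ) * x ^ (1 / 800 : ℝ) := by
      rw [← Real.rpow_add hx0]
      norm_num
    have z2 : (x ^ (1 / 800 : ℝ))⁻¹ ≤ x ^ (-(2 * ν)) := by
      rw [← Real.rpow_neg hx0.le]
      exact up (neg_le_neg n3)
    have h5 := G.h5
    rw [z1] at h5
    generalize x ^ (1 / 800 : ℝ) = z at *
    calc _ ≤ 4 * Λ * X * (2 * (3 * Λ * Real.log x) * (K * P * Δ)) *
          (3 * Λ * Real.log x * Lm X Δ K P) / (Δ * K) := by gcongr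
      _ = X * P * (72 * Λ ^ 3 * Real.log x ^ 2) * Lm X Δ K P := by
          field_simp
          ring
      _ ≤ X * P * z * Lm X Δ K P := by gcongr
      _ = X * P * (Lm X Δ K P * (z * z)) * z⁻¹ := by field_simp
      _ ≤ X * P * K * x ^ (-(2 * ν)) := by gcongr
      _ = _ := by ring
  have a4 : X * (K * P) * x ^ (-ν₂) ≤ X * (K * P) * x ^ (-(2 * ν)) :=
    mul_le_mul_of_nonneg_left (up (neg_le_neg n2)) (by positivity)
  have a5 : 2 * x ^ (-(2 * ν)) ≤ x ^ (-ν) := by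
    have e : x ^ (-ν) = x ^ ν * x ^ (-(2 * ν)) := by
      rw [← Real.rpow_add hx0]
      congr 1
      ring
    rw [e]
    exact mul_le_mul_of_nonneg_right c1 (by positivity)
  have a6 := mul_le_mul_of_nonneg_left a5 (show 0 ≤ X * ((K : ℝ) * P) by positivity)
  change |S0 x X Δ Λ K P D b c| ≤ _
  unfold S0
  rw [abs_le] at a1 a2 ⊢
  constructor <;> linarith [a1.1, a1.2, a2.1, a2.2]

end Pool.Agent.MP_c853c5_nt.DT

end
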