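import Pool.Agent.Mg.C853.G181fca
import Pool.Agent.Mg.C853.G74fd53
import Pool.Agent.Mg.C853.G6aba3f
import Pool.Agent.Mg.C853.G94aeb3
import Pool.Agent.Mg.C853.G3c1b7b
import Pool.Agent.Mg.C853.G670581
import Pool.Agent.Mg.C853.G019c2a
import Pool.Agent.MP_c853c5_nt.E.Tr
import Pool.Agent.Mg.C853.Gca6e0f
import Pool.Agent.Mg.C853.G1f4f60
import Pool.Agent.Mg.C853.Gd0cebc
import Pool.Agent.Mg.C853.G4b208c
import Pool.Agent.Mg.C853.Gba95c4
import Pool.Agent.Mg.C853.G28da41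
import Pool.Agent.MP_c853c5_nt.DS.Cross
import Pool.Agent.Mg.C853.G52851b
import Pool.Agent.Mg.C853.G07929c
import Pool.Agent.Mg.C853.Ga5e1b3
import Pool.Agent.Mg.C853.Gde6697
import Pool.Agent.Mg.C853.Ga580b9
import Pool.Agent.MP_c853c5_nt.DT.Cross
import Pool.Agent.Mg.C853.Gbd8227

section

/-!
The analytic layers, without hypotheses.
-/

set_option autoImplicit false

namespace Pool.Agent.MP_c853c5_nt.S

open Pool.Agent.MP_2a1f0e_nt Pool.Agent.MP_c853c5_nt.E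

theorem exp_all : E.ExpStmt :=
  exp_stmt (slv_stmt _ reg_stmt.1 (d1_stmt Z.yMv))
    (slv_stmt _ reg_stmt.2.1 (d2_stmt Z.yMv Z.ySpl GM.b2_all))
    (slv_stmt _ reg_stmt.2.2.1 (d3_stmt Z.yMv GM4.final4_all))
    (slv_stmt _ reg_stmt.2.2.2.1 (d4_stmt Z.yMv Z.ySpl RF.lv_all))
    (slv_stmt _ reg_stmt.2.2.2.2 (d5_stmt SQ.int6_all))

theorem core_all : E.CoreStmt := core_stmt (con_stmt exp_all (prod_stmt mul_stmt)) lev_stmt

theorem e1d_all : E1D :=
  e1d_of (boxI_fix (gridI_stmt core_all self_stmt) av_stmt grd_stmt (tb_stmt tr_stmt))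

theorem e2d_all : E2D :=
  e2d_of (boxII_fix (gridII_stmt core_all self_stmt (hal_stmt Z.ker_all)) grd_stmt
    (tb_stmt tr_stmt)) Z.pr_all

theorem leaf2_all : Leaf2 := leaf2 e2d_all

theorem leafS_all : LeafS := D.leafS e1d_all e2d_all

/-- the theorem from a certificate -/
theorem of_cert {τ : ℝ} (h1 : 1 / 3 < τ) (h2 : τ ≤ 1 / 2) (hC : Cert τ) (θ : ℝ) (hθ : 1 - τ < θ) :
    ∃ n₀ : ℕ, ∀ n : ℕ, n₀ ≤ n → ∃ p : ℕ, p.Prime ∧ n < p ∧ (p : ℝ) < n + (n : ℝ) ^ θ :=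
  assemble h1 h2 hC leaf2_all leafS_all L.end_all θ hθ

end Pool.Agent.MP_c853c5_nt.S

end

section

/-!
The dispersion bound, without hypotheses.
-/

set_option autoImplicit false

namespace Pool.Agent.MP_c853c5_nt.DS

theorem exp2_all : Exp2Stmt := exp2_stmt d2_stmt

theorem exp_all : ExpStmt := exp_stmt exp2_all (exp3_stmt d2_stmt)

theorem sum_all : SumStmt :=
  sum_stmt path_stmt exp_all schur_stmt sep_stmt pair_stmt (cyc_stmt tree_stmt rec_stmt)

theorem main_all : MainStmt := main_stmt (blk_stmt op_stmt) (loc_stmt sum_all edge_stmt)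

theorem mean_all : MeanStmt :=
  mean_stmt (sq_stmt pois_stmt) (cmp1_stmt cmp0_stmt) (cmp3_stmt (cmp2_stmt cmp0_stmt))
    (vTr_stmt E.tr_stmt) main_all (small_stmt pois_stmt)
    (cross_stmt pois_stmt (cRow_stmt cEdge_stmt exp2_all)) (zero_stmt pois_stmt)

theorem tri_all : TriStmt := tri_stmt mean_all conv_stmt

theorem e3d_all : E3D :=
  e3d_of tri_all geo_stmt
    (boxV_stmt (gridV_stmt S.core_all E.self_stmt (E.hal_stmt Z.ker_all)) E.grd_stmt)
    l2_stmt grp_fix Z.pr_all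

end Pool.Agent.MP_c853c5_nt.DS

end

section

/-!
The dispersion bound with a long last group, without hypotheses.
-/

set_option autoImplicit false

namespace Pool.Agent.MP_c853c5_nt.DT

open DS

theorem main_all : DT.MainStmt :=
  DT.main_stmt DS.main_all
    (long_stmt (DT.blk_stmt op_stmt avg_stmt) (DT.loc_stmt sum_all edge_stmt)) diag_stmt

theorem mean_all : DT.MeanStmt :=
  DT.mean_stmt (sq_stmt pois_stmt) (cmp1_stmt cmp0_stmt) (cmp3_stmt (cmp2_stmt cmp0_stmt))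
    (vTr_stmt E.tr_stmt) DT.main_all (DT.small_stmt pois_stmt)
    (DT.cross_stmt pois_stmt (cRow_stmt cEdge_stmt exp2_all)) (DT.zero_stmt pois_stmt)

theorem e3d_all : DT.E3D :=
  DT.e3d_of (DT.tri_stmt DT.mean_all conv_stmt) DT.geo_stmt
    (boxV_stmt (gridV_stmt S.core_all E.self_stmt (E.hal_stmt Z.ker_all)) E.grd_stmt)
    l2_stmt grp_fix Z.pr_all

end Pool.Agent.MP_c853c5_nt.DT

end
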