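import Pool.Agent.MP_2a1f0e_nt.DH.Basic
import Mathlib
import Pool.Agent.MP_f259ea_nt.A_HeightsGrowth
import Pool.Agent.Mg.C853.G727f74
import Pool.Agent.Mg.C853.G779e95
import Pool.Agent.Mg.C853.G4b208c
import Pool.Agent.Mg.Ff259ea.Gae27b5
import Pool.Agent.Mg.Ff259ea.G21ab5a
import Pool.Agent.Mg.Ff259ea.G06b7c0

section

set_option autoImplicit false

open Finset

namespace Pool.Agent.MP_2a1f0e_nt.DH

open Pool.Agent.MP_2a1f0e_nt.GM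

lemma len_Dya {η : ℝ} (hη : 0 < η) (hη1 : η ≤ 1 / 20) {T N : ℕ} (hT : 2 ≤ T)
    (h1 : (T : ℝ) ^ η ≤ N) (h2 : (N : ℝ) ≤ 6 * (T : ℝ) ^ (1 / 2 + η)) :
    1 ≤ N ∧ ((max (2 * T) (N ^ 2) : ℕ) : ℝ) ≤ (N : ℝ) ^ (2 / η) ∧
      ((max (2 * T) (N ^ 2) : ℕ) : ℝ) ≤ 36 * (T : ℝ) ^ (1 + 2 * η) := by
  have hx : (2 : ℝ) ≤ T := by exact_mod_cast hT
  have hx1 : (1 : ℝ) ≤ T := by linarith
  have hN : (1 : ℝ) ≤ N := (Real.one_le_rpow hx1 hη.le).trans h1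
  have hA : (2 : ℝ) ≤ 2 / η := by
    rw [le_div_iff₀ hη]; linarith
  refine ⟨by exact_mod_cast hN, ?_, ?_⟩
  · rw [Nat.cast_max]
    refine max_le ?_ ?_
    · have e : ((T : ℝ) ^ η) ^ (2 / η) = (T : ℝ) ^ 2 := by
        rw [← Real.rpow_mul (by linarith), mul_div_cancel₀ _ hη.ne', Real.rpow_two]
      have h3 : ((T : ℝ) ^ η) ^ (2 / η) ≤ (N : ℝ) ^ (2 / η) :=
        Real.rpow_le_rpow (by positivity) h1 (by linarith)
      push_cast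
      nlinarith
    · push_cast
      rw [← Real.rpow_two]
      exact Real.rpow_le_rpow_of_exponent_le hN hA
  · rw [Nat.cast_max]
    refine max_le ?_ ?_
    · have h3 : (T : ℝ) ^ (1 : ℝ) ≤ (T : ℝ) ^ (1 + 2 * η) :=
        Real.rpow_le_rpow_of_exponent_le hx1 (by linarith)
      rw [Real.rpow_one] at h3
      push_cast
      linarith
    · have e : ((T : ℝ) ^ (1 / 2 + η)) ^ 2 = (T : ℝ) ^ (1 + 2 * η) := by
        rw [← Real.rpow_two, ← Real.rpow_mul (by linarith)]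
        congr 1
        ring
      push_cast
      calc (N : ℝ) ^ 2 ≤ (6 * (T : ℝ) ^ (1 / 2 + η)) ^ 2 := by gcongr
        _ = 36 * (T : ℝ) ^ (1 + 2 * η) := by rw [mul_pow, e]; norm_num

lemma pw_Dya {η p x y : ℝ} (hη : 0 < η) (hx : 1 ≤ x) (hy : 0 ≤ y) (hp : 0 ≤ p)
    (hp1 : p ≤ 3 / 2) (h : y ≤ 36 * x ^ (1 + 2 * η)) : y ^ p ≤ 36 ^ 2 * x ^ (p + 3 * η) := by
  have hx0 : 0 ≤ x := by linarith
  calc y ^ p ≤ (36 * x ^ (1 + 2 * η)) ^ p := Real.rpow_le_rpow hy h hp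
    _ = 36 ^ p * x ^ ((1 + 2 * η) * p) := by
        rw [Real.mul_rpow (by norm_num) (by positivity), ← Real.rpow_mul hx0]
    _ ≤ 36 ^ 2 * x ^ (p + 3 * η) := by
        have h1 : (36 : ℝ) ^ p ≤ 36 ^ (2 : ℝ) :=
          Real.rpow_le_rpow_of_exponent_le (by norm_num) (by linarith)
        rw [Real.rpow_two] at h1
        have h2 : x ^ ((1 + 2 * η) * p) ≤ x ^ (p + 3 * η) :=
          Real.rpow_le_rpow_of_exponent_le hx (by nlinarith)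
        exact mul_le_mul h1 h2 (by positivity) (by positivity)

theorem dya_stmt (hD : DetStmt) (hP : PowStmt) : DyaStmt := by
  intro ε hε
  obtain ⟨η, hη, hη1, hη2⟩ : ∃ η : ℝ, 0 < η ∧ η ≤ 1 / 20 ∧ η ≤ ε / 10 :=
    ⟨min (1 / 20) (ε / 10), by positivity, min_le_left _ _, min_le_right _ _⟩
  obtain ⟨e2, he2, he21, he22⟩ : ∃ e : ℝ, 0 < e ∧ e ≤ 1 ∧ e ≤ ε / 10 :=
    ⟨min 1 (ε / 10), by positivity, min_le_left _ _, min_le_right _ _⟩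
  obtain ⟨a, ha⟩ := hP (2 / η)
  obtain ⟨e1, he1, he1a⟩ : ∃ e : ℝ, 0 < e ∧ e + e * a = ε / 10 :=
    ⟨ε / (10 * (a + 1)), by positivity, by field_simp; ring⟩
  obtain ⟨C, hC, T₀, hT₀⟩ := hD η e1 hη hη1 he1
  obtain ⟨K, hK, hK'⟩ := ha e2 he2
  have hC0 : 0 < C := by linarith
  refine ⟨C * (K * C ^ a * 36 ^ 2 + 1), by positivity, max T₀ 2, fun T hT σ hσ hσ1 S ρ hS hB hz => ?_⟩
  have hT2 : 2 ≤ T := le_of_max_le_right hT
  have hx : (2 : ℝ) ≤ T := by exact_mod_cast hT2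
  have hx1 : (1 : ℝ) ≤ T := by linarith
  have hx0 : (0 : ℝ) < T := by linarith
  have hea : 0 ≤ e1 * a := by positivity
  have key := hT₀ T (le_of_max_le_left hT) σ
    (K * C ^ a * 36 ^ 2 * (T : ℝ) ^ (e1 * a + (2 - 2 * σ + e2 + 3 * η))) (by linarith)
    (fun N h1 h2 b hb => by
      obtain ⟨hN, hl1, hl2⟩ := len_Dya hη hη1 hT2 h1 h2
      have hN0 : (0 : ℝ) < N := by exact_mod_cast hN
      have hlam : 1 ≤ C * (T : ℝ) ^ e1 :=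
        one_le_mul_of_one_le_of_one_le hC (Real.one_le_rpow hx1 he1.le)
      have h3 := hK' N (max (2 * T) (N ^ 2)) hN (le_max_right _ _) hl1 σ (C * (T : ℝ) ^ e1)
        ((N : ℝ) ^ σ / (C * (T : ℝ) ^ e1)) hσ hσ1 hlam (by positivity)
        (by rw [mul_div_cancel₀ _ (by positivity)]) b hb
      have h4 : (cnt N b (2 * T) ((N : ℝ) ^ σ / (C * (T : ℝ) ^ e1)) : ℝ) ≤
          cnt N b (max (2 * T) (N ^ 2)) ((N : ℝ) ^ σ / (C * (T : ℝ) ^ e1)) := by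
        exact_mod_cast cnt_mono N b (le_max_left _ _) le_rfl
      have h5 := pw_Dya (p := 2 - 2 * σ + e2) hη hx1 (Nat.cast_nonneg _) (by linarith)
        (by linarith) hl2
      refine h4.trans (h3.trans ?_)
      rw [mul_pow, ← Real.rpow_natCast ((T : ℝ) ^ e1), ← Real.rpow_mul hx0.le,
        Real.rpow_add hx0 (e1 * a)]
      calc K * (C ^ a * (T : ℝ) ^ (e1 * a)) *
            ((max (2 * T) (N ^ 2) : ℕ) : ℝ) ^ (2 - 2 * σ + e2)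
          ≤ K * (C ^ a * (T : ℝ) ^ (e1 * a)) *
            (36 ^ 2 * (T : ℝ) ^ (2 - 2 * σ + e2 + 3 * η)) := by gcongr
        _ = _ := by ring)
    S ρ hS hB hz
  refine key.trans ?_
  have f1 : (T : ℝ) ^ e1 * (T : ℝ) ^ (e1 * a + (2 - 2 * σ + e2 + 3 * η)) ≤
      (T : ℝ) ^ (2 * (1 - σ) + ε) := by
    rw [← Real.rpow_add hx0]
    exact Real.rpow_le_rpow_of_exponent_le hx1 (by linarith)
  have f2 : (T : ℝ) ^ e1 * (T : ℝ) ^ (2 - 2 * σ + 4 * η) ≤ (T : ℝ) ^ (2 * (1 - σ) + ε) := by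
    rw [← Real.rpow_add hx0]
    exact Real.rpow_le_rpow_of_exponent_le hx1 (by linarith)
  have hc : 0 ≤ K * C ^ a * 36 ^ 2 := by positivity
  calc C * (T : ℝ) ^ e1 * (K * C ^ a * 36 ^ 2 * (T : ℝ) ^ (e1 * a + (2 - 2 * σ + e2 + 3 * η)) +
        (T : ℝ) ^ (2 - 2 * σ + 4 * η))
      = C * (K * C ^ a * 36 ^ 2 *
          ((T : ℝ) ^ e1 * (T : ℝ) ^ (e1 * a + (2 - 2 * σ + e2 + 3 * η))) +
          (T : ℝ) ^ e1 * (T : ℝ) ^ (2 - 2 * σ + 4 * η)) := by ring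
    _ ≤ C * (K * C ^ a * 36 ^ 2 * (T : ℝ) ^ (2 * (1 - σ) + ε) +
          (T : ℝ) ^ (2 * (1 - σ) + ε)) := by gcongr
    _ = _ := by ring

end Pool.Agent.MP_2a1f0e_nt.DH

end

section

set_option autoImplicit false

open Finset

namespace Pool.Agent.MP_2a1f0e_nt.DH

open Pool.Agent.MP_2a1f0e_nt.GM

/-- multiplicity of a zero -/
noncomputable def ord_Mul (ρ : ℂ) : ℝ := ((analyticOrderAt riemannZeta ρ).toNat : ℝ)

lemma ord_nonneg_Mul (ρ : ℂ) : 0 ≤ ord_Mul ρ := Nat.cast_nonneg _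

lemma count_Mul : ∃ C : ℝ, 0 ≤ C ∧ ∃ t₀ : ℝ, ∀ t : ℝ, t₀ ≤ t → 1 ≤ t → ∀ Z : Finset ℂ,
    (∀ ρ ∈ Z, 1 / 2 ≤ ρ.re ∧ ρ.re ≤ 2 ∧ t ≤ ρ.im ∧ ρ.im ≤ t + 1) →
    ∑ ρ ∈ Z, ord_Mul ρ ≤ C * Real.log t := by
  obtain ⟨C, t₀, h⟩ := Pool.Agent.MP_f259ea_nt.stmtCount 1 (1 : DirichletCharacter ℂ 1)
  rw [DirichletCharacter.LFunction_modOne_eq] at h
  refine ⟨max C 0, le_max_right _ _, t₀, fun t ht h1 Z hZ => (h t ht Z hZ).trans ?_⟩
  exact mul_le_mul_of_nonneg_right (le_max_left _ _) (Real.log_nonneg h1)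

lemma re_lt_Mul {ρ : ℂ} (h : riemannZeta ρ = 0) : ρ.re < 1 := by
  by_contra hc
  exact riemannZeta_ne_zero_of_one_le_re (not_lt.1 hc) h

lemma low_Mul (T₁ : ℝ) : ∃ K : ℝ, 0 ≤ K ∧ ∀ Z : Finset ℂ,
    (∀ ρ ∈ Z, riemannZeta ρ = 0 ∧ 0 ≤ ρ.re ∧ 0 < ρ.im ∧ ρ.im ≤ T₁) →
    ∑ ρ ∈ Z, ord_Mul ρ ≤ K := by
  have hf := (isCompact_closedBall (0 : ℂ) (1 + T₁)).inter_riemannZetaZeros_finite
  refine ⟨∑ ρ ∈ hf.toFinset, ord_Mul ρ, sum_nonneg fun _ _ => ord_nonneg_Mul _, fun Z hZ => ?_⟩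
  refine sum_le_sum_of_subset_of_nonneg (fun ρ hρ => ?_) fun _ _ _ => ord_nonneg_Mul _
  obtain ⟨h0, h1, h2, h3⟩ := hZ ρ hρ
  rw [Set.Finite.mem_toFinset]
  refine ⟨?_, h0⟩
  rw [mem_closedBall_zero_iff]
  have := Complex.norm_le_abs_re_add_abs_im ρ
  rw [abs_of_nonneg h1, abs_of_pos h2] at this
  linarith [re_lt_Mul h0]

/-- one dyadic block -/
lemma blk_Mul {C t₀ B σ T : ℝ} {Tk : ℕ} (hC : 0 ≤ C) (hσ : 1 / 2 ≤ σ) (ht : t₀ ≤ Tk)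
    (h1 : 1 ≤ Tk)
    (hc : ∀ t : ℝ, t₀ ≤ t → 1 ≤ t → ∀ Z : Finset ℂ,
      (∀ ρ ∈ Z, 1 / 2 ≤ ρ.re ∧ ρ.re ≤ 2 ∧ t ≤ ρ.im ∧ ρ.im ≤ t + 1) →
      ∑ ρ ∈ Z, ord_Mul ρ ≤ C * Real.log t)
    (hd : ∀ (S : Finset ℤ) (ρ : ℤ → ℂ), S ⊆ Icc (Tk : ℤ) (2 * Tk) → Box σ S ρ →
      (∀ m ∈ S, riemannZeta (ρ m) = 0) → (S.card : ℝ) ≤ B)
    (hT : 1 ≤ T) (Z : Finset ℂ)
    (hZ : ∀ ρ ∈ Z, riemannZeta ρ = 0 ∧ σ ≤ ρ.re ∧ (Tk : ℤ) ≤ ⌊ρ.im⌋ ∧ ⌊ρ.im⌋ ≤ 2 * Tk ∧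
      ρ.im ≤ T) :
    ∑ ρ ∈ Z, ord_Mul ρ ≤ B * (C * Real.log T) := by
  classical
  set S : Finset ℤ := Z.image fun ρ => ⌊ρ.im⌋ with hS
  have hex : ∀ m : ℤ, ∃ ρ : ℂ, m ∈ S → ρ ∈ Z ∧ ⌊ρ.im⌋ = m := by
    intro m
    by_cases hm : m ∈ S
    · obtain ⟨ρ, h, h'⟩ := mem_image.1 hm
      exact ⟨ρ, fun _ => ⟨h, h'⟩⟩
    · exact ⟨0, fun h => absurd h hm⟩
  choose r hr using hex
  have hcard : (S.card : ℝ) ≤ B := by
    refine hd S r (fun m hm => ?_) (fun m hm => ?_) fun m hm => (hZ _ (hr m hm).1).1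
    · obtain ⟨a, b⟩ := hr m hm
      obtain ⟨-, -, c, d, -⟩ := hZ _ a
      rw [b] at c d
      exact mem_Icc.2 ⟨c, d⟩
    · obtain ⟨a, b⟩ := hr m hm
      obtain ⟨c, d, -⟩ := hZ _ a
      refine ⟨d, (re_lt_Mul c).le, ?_, ?_⟩
      · have := Int.floor_le (r m).im
        rwa [b] at this
      · have := (Int.lt_floor_add_one (r m).im).le
        rwa [b] at this
  have hL : 0 ≤ C * Real.log T := mul_nonneg hC (Real.log_nonneg hT)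
  rw [← sum_fiberwise_of_maps_to (g := fun ρ : ℂ => ⌊ρ.im⌋) (t := S)
    (fun ρ hρ => mem_image_of_mem _ hρ)]
  refine (sum_le_card_nsmul _ _ (C * Real.log T) fun m hm => ?_).trans ?_
  · obtain ⟨a, b⟩ := hr m hm
    obtain ⟨-, -, c, -, d⟩ := hZ _ a
    rw [b] at c
    have c' : (Tk : ℝ) ≤ m := by exact_mod_cast c
    have h1' : (1 : ℝ) ≤ Tk := by exact_mod_cast h1
    have hmT : (m : ℝ) ≤ T := by
      have := Int.floor_le (r m).im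
      rw [b] at this
      linarith
    refine (hc m (ht.trans c') (h1'.trans c') _ fun ρ hρ => ?_).trans ?_
    · obtain ⟨e, f⟩ := mem_filter.1 hρ
      obtain ⟨g1, g2, -⟩ := hZ ρ e
      have i1 := Int.floor_le ρ.im
      have i2 := (Int.lt_floor_add_one ρ.im).le
      rw [f] at i1 i2
      exact ⟨hσ.trans g2, by linarith [re_lt_Mul g1], i1, i2⟩
    · exact mul_le_mul_of_nonneg_left (Real.log_le_log (by linarith) hmT) hC
  · rw [nsmul_eq_mul]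
    exact mul_le_mul_of_nonneg_right hcard hL

theorem mul_stmt : MulStmt := by
  classical
  intro σ₀ A hσ₀ hA hD ε hε
  obtain ⟨C₀, hC₀, t₀, hc⟩ := count_Mul
  obtain ⟨K₁, hK₁, T₀, hd⟩ := hD (ε / 2) (by positivity)
  obtain ⟨T₁, hT₁⟩ := exists_nat_ge (max t₀ (T₀ : ℝ) + 1 + |t₀|)
  have hT0 : T₀ ≤ T₁ := by
    have : (T₀ : ℝ) ≤ T₁ := by linarith [le_max_right t₀ (T₀ : ℝ), abs_nonneg t₀]
    exact_mod_cast this
  have ht0 : t₀ ≤ T₁ := by linarith [le_max_left t₀ (T₀ : ℝ), abs_nonneg t₀]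
  have hT1 : 1 ≤ T₁ := by
    have : (1 : ℝ) ≤ T₁ := by
      linarith [le_max_right t₀ (T₀ : ℝ), abs_nonneg t₀, (Nat.cast_nonneg T₀ : (0 : ℝ) ≤ T₀)]
    exact_mod_cast this
  obtain ⟨K₀, hK₀, hlow⟩ := low_Mul T₁
  obtain ⟨C₁, hC₁, hlog⟩ := exists_log_le (ε := ε / 4) (by positivity)
  refine ⟨K₀ + C₁ * K₁ * C₀ * (4 / ε), fun σ T h0 h1 hT Z hZ => ?_⟩
  have hAσ := hA σ h0 h1
  have hT' : 0 < T := by linarith
  change ∑ ρ ∈ Z, ord_Mul ρ ≤ _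
  rw [← sum_filter_add_sum_filter_not Z (fun ρ => ρ.im ≤ T₁), add_mul]
  refine add_le_add ?_ ?_
  · refine (hlow _ fun ρ hρ => ?_).trans ?_
    · obtain ⟨a, b⟩ := mem_filter.1 hρ
      obtain ⟨c1, c2, c3, -⟩ := hZ ρ a
      exact ⟨c1, by linarith, c3, b⟩
    · exact le_mul_of_one_le_right hK₀ (Real.one_le_rpow hT (by positivity))
  · set Zh := Z.filter (fun ρ : ℂ => ¬ ρ.im ≤ (T₁ : ℝ)) with hZh
    set X : ℕ := ⌊T⌋₊ with hX
    have hX1 : 1 ≤ X := Nat.le_floor (by exact_mod_cast hT)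
    have hXT : (X : ℝ) ≤ T := Nat.floor_le hT'.le
    have hm : ∀ ρ ∈ Zh, T₁ ≤ ⌊ρ.im⌋₊ ∧ ⌊ρ.im⌋₊ ≤ X ∧ (⌊ρ.im⌋₊ : ℤ) = ⌊ρ.im⌋ := by
      intro ρ hρ
      obtain ⟨a, b⟩ := mem_filter.1 hρ
      obtain ⟨-, -, c3, c4⟩ := hZ ρ a
      exact ⟨Nat.le_floor (not_le.1 b).le, Nat.floor_le_floor c4,
        (Int.natCast_floor_eq_floor c3.le)⟩
    rw [← sum_fiberwise_of_maps_to (g := fun ρ : ℂ => Nat.log 2 (⌊ρ.im⌋₊ / T₁))
      (t := range (Nat.log 2 X + 1)) (fun ρ hρ => mem_range.2 (Nat.lt_succ_of_le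
        (Nat.log_mono_right ((Nat.div_le_self _ _).trans (hm ρ hρ).2.1))))]
    have hB : 0 ≤ K₁ * T ^ (A σ + ε / 2) * (C₀ * Real.log T) :=
      mul_nonneg (by positivity) (mul_nonneg hC₀ (Real.log_nonneg hT))
    refine (sum_le_card_nsmul _ _ (K₁ * T ^ (A σ + ε / 2) * (C₀ * Real.log T))
      fun k _ => ?_).trans ?_
    · rcases (Zh.filter fun ρ => Nat.log 2 (⌊ρ.im⌋₊ / T₁) = k).eq_empty_or_nonempty with he | hne
      · rw [he, sum_empty]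
        exact hB
      have hk : ∀ ρ ∈ Zh.filter fun ρ => Nat.log 2 (⌊ρ.im⌋₊ / T₁) = k,
          2 ^ k * T₁ ≤ ⌊ρ.im⌋₊ ∧ ⌊ρ.im⌋₊ ≤ 2 * (2 ^ k * T₁) := by
        intro ρ hρ
        obtain ⟨a, b⟩ := mem_filter.1 hρ
        have q0 : ⌊ρ.im⌋₊ / T₁ ≠ 0 := (Nat.div_pos (hm ρ a).1 hT1).ne'
        have q1 := Nat.pow_log_le_self 2 q0
        have q2 := Nat.lt_pow_succ_log_self (b := 2) (by norm_num) (⌊ρ.im⌋₊ / T₁)
        rw [b] at q1 q2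
        refine ⟨(Nat.le_div_iff_mul_le hT1).1 q1, ?_⟩
        have q3 := ((Nat.div_lt_iff_lt_mul hT1).1 q2).le
        rw [pow_succ] at q3
        linarith
      have hkT : ((2 ^ k * T₁ : ℕ) : ℝ) ≤ T := by
        obtain ⟨ρ, hρ⟩ := hne
        have := (hk ρ hρ).1.trans (hm ρ (mem_filter.1 hρ).1).2.1
        exact le_trans (by exact_mod_cast this) hXT
      have hle : T₁ ≤ 2 ^ k * T₁ := Nat.le_mul_of_pos_left _ (by positivity)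
      refine blk_Mul (Tk := 2 ^ k * T₁) (σ := σ) hC₀ (hσ₀.trans h0)
        (ht0.trans (by exact_mod_cast hle)) (hT1.trans hle) hc (fun S ρ a b c => ?_) hT _
        fun ρ hρ => ?_
      · refine (hd _ (hT0.trans hle) σ h0 h1 S ρ a b c).trans ?_
        exact mul_le_mul_of_nonneg_left
          (Real.rpow_le_rpow (Nat.cast_nonneg _) hkT (by positivity)) hK₁.le
      · obtain ⟨a, -⟩ := mem_filter.1 hρ
        obtain ⟨c1, c2, -, c4⟩ := hZ ρ (mem_filter.1 a).1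
        obtain ⟨d1, d2⟩ := hk ρ hρ
        rw [← (hm ρ a).2.2]
        exact ⟨c1, c2, by exact_mod_cast d1, by exact_mod_cast d2, c4⟩
    · rw [card_range, nsmul_eq_mul]
      have e1 : ((Nat.log 2 X + 1 : ℕ) : ℝ) ≤ C₁ * T ^ (ε / 4) := by
        push_cast
        exact (hlog X hX1).trans (mul_le_mul_of_nonneg_left
          (Real.rpow_le_rpow (Nat.cast_nonneg _) hXT (by positivity)) (by linarith))
      have e2 : Real.log T ≤ T ^ (ε / 4) / (ε / 4) := Real.log_le_rpow_div hT'.le (by positivity)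
      have e3 : T ^ (A σ + ε) = T ^ (ε / 4) * T ^ (A σ + ε / 2) * T ^ (ε / 4) := by
        rw [← Real.rpow_add hT', ← Real.rpow_add hT']
        congr 1
        ring
      calc ((Nat.log 2 X + 1 : ℕ) : ℝ) * (K₁ * T ^ (A σ + ε / 2) * (C₀ * Real.log T))
          ≤ C₁ * T ^ (ε / 4) * (K₁ * T ^ (A σ + ε / 2) * (C₀ * (T ^ (ε / 4) / (ε / 4)))) := by
            refine mul_le_mul e1 ?_ hB (by positivity)
            exact mul_le_mul_of_nonneg_left (mul_le_mul_of_nonneg_left e2 hC₀) (by positivity)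
        _ = C₁ * K₁ * C₀ * (4 / ε) * T ^ (A σ + ε) := by
            rw [e3]
            field_simp

end Pool.Agent.MP_2a1f0e_nt.DH

end

section

set_option autoImplicit false

namespace Pool.Agent.MP_2a1f0e_nt.DH

open Pool.Agent.MP_2a1f0e_nt.GM

theorem det_all : DetStmt :=
  det_stmt (core_stmt (zb_stmt za_stmt) tel_stmt mol_stmt
    (ca_stmt (sm_stmt mel_stmt)
      (ks_stmt (pk_stmt decay_stmt zero_stmt (pois_stmt decay_stmt)) avg_all mom_all))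
    (cb_stmt ty_stmt))

theorem mul_all : MulStmt := mul_stmt

theorem dh_all : ZdP (7 / 9) fun σ => 2 * (1 - σ) :=
  mul_stmt _ _ (by norm_num) (fun σ _ h => by linarith) (dya_stmt det_all pow_all)

end Pool.Agent.MP_2a1f0e_nt.DH

end

section

set_option autoImplicit false

open Finset

namespace Pool.Agent.MP_2a1f0e_nt.SQ

theorem dya_half {A : ℝ} (hA : 9 / 4 ≤ A) (h : DH.DyaP (11 / 20) fun σ => A * (1 - σ)) :
    DH.DyaP (1 / 2) fun σ => A * (1 - σ) := by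
  intro ε hε
  obtain ⟨K, hK, T₀, h⟩ := h ε hε
  refine ⟨K + 2, by positivity, max T₀ 1, fun T hT σ _ h1 S ρ hS hB hz => ?_⟩
  have hT1 : (1 : ℝ) ≤ T := by exact_mod_cast le_of_max_le_right hT
  have hp : 0 ≤ (T : ℝ) ^ (A * (1 - σ) + ε) := by positivity
  rcases le_total (11 / 20) σ with h2 | h2
  · exact (h T (le_of_max_le_left hT) σ h2 h1 S ρ hS hB hz).trans (by nlinarith)
  · have h3 : S.card ≤ T + 1 := by
      have := card_le_card hS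
      rw [Int.card_Icc] at this
      omega
    have h4 : (S.card : ℝ) ≤ T + 1 := by exact_mod_cast h3
    have h5 : (T : ℝ) ^ (1 : ℝ) ≤ (T : ℝ) ^ (A * (1 - σ) + ε) :=
      Real.rpow_le_rpow_of_exponent_le hT1 (by nlinarith)
    rw [Real.rpow_one] at h5
    nlinarith

theorem zd9_all : DH.ZdP (1 / 2) fun σ => 9 / 4 * (1 - σ) :=
  DH.mul_stmt _ _ le_rfl (fun σ _ h => by linarith)
    (dya_half le_rfl (Pool.Agent.MP_c853c5_nt.Z.yDy DH.det_all _ le_rfl lvp9_all))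

end Pool.Agent.MP_2a1f0e_nt.SQ

end
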